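import Pool.Agent.H50.Rdb.Fam3

/-!
# The families of period five, second family

Denominator `(b₀), b₁, b₄`, numerator contains `a₂, a₃`, and one of `b₀, a₁, a₄` is present (if only `a₄` then also `a₀`).
Along a backward orbit the terms comparable with the record come in pairs `t, t+2` with period five, and
`X_(t+5) / X_t → den · den' / (a₂ a₃) ≥ 1 + c`, which contradicts the record.
-/

namespace Pool.Agent.H4.RD4

open Filter Topology
open Pool.Agent.H50.Rdb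

variable {a b : ℕ → ℝ} {l : Ultrafilter ℕ} {X : ℕ → ℕ → ℝ} {r v : ℕ → ℝ}

/-- the product in family B -/
theorem prod_B {a1 a2 a3 a4 b0 b1 b4 p q p' v1 v3 v4 v6 p0 q0 : ℝ} (ha2 : 0 < a2) (ha3 : 0 < a3) (ha1 : 0 ≤ a1)
    (ha4 : 0 ≤ a4) (hb0 : 0 ≤ b0) (hb1 : 0 < b1) (hb4 : 0 < b4) (hp0 : 0 < p0) (hp : p0 ≤ p) (hp1 : p ≤ 1) (hq : 0 < q)
    (hq1 : q ≤ 1) (hp' : 0 < p') (hq0 : 0 < q0) (hq01 : q0 ≤ 1)
    (V1 : v1 * (b1 * q0 + b4 * p) = a1 * q0 + a4 * p) (V3 : v3 * (b4 * q) = a2 * p + a4 * q)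
    (V4 : v4 * (b1 * p) = a1 * p + a3 * q) (V6 : v6 * (b1 * q + b4 * p') = a1 * q + a4 * p') :
    a2 * a3 + (b0 ^ 2 + a1 * a2 * p0 + b1 ^ 2 * a4 ^ 2 * p0 / (b4 * (b1 + b4))) / 3 ≤
      (b0 + b1 * v1 + b4 * v4) * (b0 + b1 * v3 + b4 * v6) := by
  have hp2 : 0 < p := lt_of_lt_of_le hp0 hp
  obtain ⟨s, hs⟩ : ∃ s : ℝ, s = b4 * a3 * q / (b1 * p) := ⟨_, rfl⟩
  obtain ⟨τ, hτ⟩ : ∃ τ : ℝ, τ = b1 * a2 * p / (b4 * q) := ⟨_, rfl⟩
  have hs0 : 0 < s := by rw [hs]; positivity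
  have hτ0 : 0 < τ := by rw [hτ]; positivity
  have hst : s * τ = a2 * a3 := by
    rw [hs, hτ]
    field_simp
  have e1 : v1 = (a1 * q0 + a4 * p) / (b1 * q0 + b4 * p) := by
    rw [eq_div_iff (by positivity)]
    exact V1
  have e3 : v3 = (a2 * p + a4 * q) / (b4 * q) := by
    rw [eq_div_iff (by positivity)]
    exact V3
  have e4 : v4 = (a1 * p + a3 * q) / (b1 * p) := by
    rw [eq_div_iff (by positivity)]
    exact V4
  have e6 : v6 = (a1 * q + a4 * p') / (b1 * q + b4 * p') := by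
    rw [eq_div_iff (by positivity)]
    exact V6
  have f3 : b1 * v3 = τ + b1 * a4 / b4 := by
    rw [e3, hτ]
    field_simp
  have f4 : b4 * v4 = s + b4 * a1 / b1 := by
    rw [e4, hs]
    field_simp
    ring
  have h1 : 0 ≤ v1 := by rw [e1]; positivity
  have h6 : 0 ≤ v6 := by rw [e6]; positivity
  have hτ1 : b1 * a2 * p0 / b4 ≤ τ := by
    rw [hτ, div_le_div_iff₀ hb4 (by positivity)]
    have q1 : p0 * q ≤ p * 1 := mul_le_mul hp hq1 hq.le hp2.le
    have q2 := mul_le_mul_of_nonneg_left q1 (by positivity : (0 : ℝ) ≤ b1 * a2 * b4)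
    linarith
  have h1' : a4 * p0 / (b1 + b4) ≤ v1 := by
    rw [e1, div_le_div_iff₀ (by positivity) (by positivity)]
    have q1 : b1 * q0 + b4 * p ≤ b1 + b4 := by nlinarith
    have q2 : a4 * p0 * (b1 * q0 + b4 * p) ≤ a4 * p0 * (b1 + b4) := mul_le_mul_of_nonneg_left q1 (by positivity)
    have q3 : a4 * p0 * (b1 + b4) ≤ a4 * p * (b1 + b4) :=
      mul_le_mul_of_nonneg_right (mul_le_mul_of_nonneg_left hp ha4) (by positivity)
    have q4 : 0 ≤ a1 * q0 * (b1 + b4) := by positivity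
    linarith
  obtain ⟨A, hA⟩ : ∃ A : ℝ, A = b0 + b1 * v1 + b4 * a1 / b1 := ⟨_, rfl⟩
  obtain ⟨B, hB⟩ : ∃ B : ℝ, B = b0 + b1 * a4 / b4 + b4 * v6 := ⟨_, rfl⟩
  have eA : b0 + b1 * v1 + b4 * v4 = A + s := by rw [f4, hA]; ring
  have eB : b0 + b1 * v3 + b4 * v6 = B + τ := by rw [f3, hB]; ring
  have g1 : 0 ≤ b1 * v1 := mul_nonneg hb1.le h1
  have g2 : 0 ≤ b4 * v6 := mul_nonneg hb4.le h6
  have g3 : 0 ≤ b4 * a1 / b1 := by positivity
  have g4 : 0 ≤ b1 * a4 / b4 := by positivity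
  have A1 : b0 ≤ A := by rw [hA]; linarith
  have A2 : b4 * a1 / b1 ≤ A := by rw [hA]; linarith
  have A3 : b1 * (a4 * p0 / (b1 + b4)) ≤ A := by
    have := mul_le_mul_of_nonneg_left h1' hb1.le
    rw [hA]
    linarith
  have B1 : b0 ≤ B := by rw [hB]; linarith
  have B2 : b1 * a4 / b4 ≤ B := by rw [hB]; linarith
  have hA0 : 0 ≤ A := hb0.trans A1
  have hB0 : 0 ≤ B := hb0.trans B1
  rw [eA, eB]
  have m1 : b0 ^ 2 ≤ A * B := by
    rw [sq]
    exact mul_le_mul A1 B1 hb0 hA0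
  have m2 : a1 * a2 * p0 ≤ A * τ := by
    calc a1 * a2 * p0 = b4 * a1 / b1 * (b1 * a2 * p0 / b4) := by field_simp
      _ ≤ A * τ := mul_le_mul A2 hτ1 (by positivity) hA0
  have m3 : b1 ^ 2 * a4 ^ 2 * p0 / (b4 * (b1 + b4)) ≤ A * B := by
    calc b1 ^ 2 * a4 ^ 2 * p0 / (b4 * (b1 + b4)) = b1 * (a4 * p0 / (b1 + b4)) * (b1 * a4 / b4) := by field_simp
      _ ≤ A * B := mul_le_mul A3 B2 (by positivity) hA0
  have m4 : 0 ≤ B * s := mul_nonneg hB0 hs0.le
  have m5 : 0 ≤ A * τ := mul_nonneg hA0 hτ0.le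
  have m6 : 0 ≤ A * B := mul_nonneg hA0 hB0
  nlinarith

/-- the denominators of the large terms, `a₁` present -/
theorem den_B1 (h : Lims a b l X r v) (ha2 : 0 < a 2) (ha1 : 0 < a 1) (hb0 : b 0 = 0) (hb1 : 0 < b 1)
    (hb2 : b 2 = 0) (hb3 : b 3 = 0) (hb4 : 0 < b 4) {j : ℕ} (hj : 0 < r j) (h1 : Bd l X (j + 1)) (h4 : Bd l X (j + 4)) :
    0 < b 1 * v (j + 1) + b 4 * v (j + 4) := by
  have na0 := h.na 0 (by norm_num)
  have na3 := h.na 3 (by norm_num)
  have na4 := h.na 4 (by norm_num)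
  have v1 := h.v_nonneg h1
  have v4 := h.v_nonneg h4
  by_contra hcon
  have q1 := mul_nonneg hb1.le v1
  have q4 := mul_nonneg hb4.le v4
  have z1 : v (j + 1) = 0 := by
    have : b 1 * v (j + 1) = 0 := by linarith
    exact (mul_eq_zero.1 this).resolve_left hb1.ne'
  have z4 : v (j + 4) = 0 := by
    have : b 4 * v (j + 4) = 0 := by linarith
    exact (mul_eq_zero.1 this).resolve_left hb4.ne'
  have t1 := h.hv (j + 1) h1
  have t4 := h.hv (j + 4) h4
  rw [z1] at t1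
  rw [z4] at t4
  have s1 : ∀ᶠ i in (l : Filter ℕ), X i (j + 1) < a 1 / (2 * b 1) := t1.eventually (gt_mem_nhds (by positivity))
  have s4 : ∀ᶠ i in (l : Filter ℕ), X i (j + 4) < a 1 / (2 * b 1) := t4.eventually (gt_mem_nhds (by positivity))
  -- `X_(j+5) ≤ C X_(j+4) X_0`
  have u5 : ∀ᶠ i in (l : Filter ℕ), X i (j + 5) ≤ 2 * b 4 / a 1 * X i (j + 4) * X i 0 := by
    filter_upwards [h.back.step (j + 4), s4] with i hi hs
    unfold lin at hi
    rw [hb0, hb2, hb3] at hi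
    rw [show j + 4 + 1 = j + 5 from rfl, show j + 4 + 2 = j + 6 from rfl, show j + 4 + 3 = j + 7 from rfl,
      show j + 4 + 4 = j + 8 from rfl] at hi
    have p4 := h.back.pos i (j + 4)
    have p5 := h.back.pos i (j + 5)
    have p6 := h.back.pos i (j + 6)
    have p7 := h.back.pos i (j + 7)
    have p8 := h.back.pos i (j + 8)
    have l8 := h.back.le i (j + 8)
    rw [lt_div_iff₀ (by positivity)] at hs
    have k1 : X i (j + 4) * (2 * b 1) * X i (j + 5) ≤ a 1 * X i (j + 5) := mul_le_mul_of_nonneg_right hs.le p5.le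
    have k2 := mul_pos ha2 p6
    have k3 := mul_nonneg na3 p7.le
    have k4 := mul_nonneg na4 p8.le
    have k5 : a 1 * X i (j + 5) ≤ 2 * b 4 * X i (j + 4) * X i (j + 8) := by linarith
    have k6 : 2 * b 4 * X i (j + 4) * X i (j + 8) ≤ 2 * b 4 * X i (j + 4) * X i 0 :=
      mul_le_mul_of_nonneg_left l8 (by positivity)
    have k7 : X i (j + 5) * a 1 ≤ 2 * b 4 * X i (j + 4) * X i 0 := by linarith
    calc X i (j + 5) ≤ 2 * b 4 * X i (j + 4) * X i 0 / a 1 := (le_div_iff₀ ha1).2 k7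
      _ = 2 * b 4 / a 1 * X i (j + 4) * X i 0 := by ring
  have r5 : r (j + 5) = 0 := by
    refine le_antisymm ?_ (h.r_nonneg _)
    have k1 : Tendsto (fun i => 2 * b 4 / a 1 * X i (j + 4)) l (𝓝 (2 * b 4 / a 1 * 0)) := t4.const_mul _
    rw [mul_zero] at k1
    refine le_of_tendsto_of_tendsto (h.hr (j + 5)) k1 ?_
    filter_upwards [u5] with i hi
    rw [div_le_iff₀ (h.back.pos i 0)]
    exact hi
  -- `X_j ≤ C X_(j+5) + C'`
  obtain ⟨C, hC⟩ : ∃ C : ℝ, C = (b 4 + 2 * b 4 * a 2 / a 1 + b 4 * a 3 / a 2) / b 1 := ⟨_, rfl⟩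
  have u0 : ∀ᶠ i in (l : Filter ℕ), X i j ≤ C * X i (j + 5) + (a 1 / b 1 + a 4 / b 4) := by
    filter_upwards [h.back.step j, h.back.step (j + 1), s1] with i h0 hi hs
    unfold lin at h0 hi
    rw [hb0, hb2, hb3] at h0 hi
    rw [show j + 1 + 1 = j + 2 from rfl, show j + 1 + 2 = j + 3 from rfl, show j + 1 + 3 = j + 4 from rfl,
      show j + 1 + 4 = j + 5 from rfl] at hi
    have p0 := h.back.pos i j
    have p1 := h.back.pos i (j + 1)
    have p2 := h.back.pos i (j + 2)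
    have p3 := h.back.pos i (j + 3)
    have p4 := h.back.pos i (j + 4)
    have p5 := h.back.pos i (j + 5)
    rw [lt_div_iff₀ (by positivity)] at hs
    have k1 : X i (j + 1) * (2 * b 1) * X i (j + 2) ≤ a 1 * X i (j + 2) := mul_le_mul_of_nonneg_right hs.le p2.le
    have k2 := mul_pos ha2 p3
    have k3 := mul_nonneg na3 p4.le
    have k4 := mul_nonneg na4 p5.le
    have k5 := mul_pos ha1 p2
    obtain ⟨m, hm⟩ : ∃ m : ℝ, m = b 4 * X i (j + 1) * X i (j + 5) := ⟨_, rfl⟩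
    have w0 : a 0 ≤ m := by rw [hm]; linarith
    have w2 : a 1 * X i (j + 2) ≤ 2 * m := by rw [hm]; linarith
    have w3 : a 2 * X i (j + 3) ≤ m := by rw [hm]; linarith
    have w2' : a 2 * X i (j + 2) ≤ 2 * a 2 / a 1 * m := by
      calc a 2 * X i (j + 2) = a 2 / a 1 * (a 1 * X i (j + 2)) := by field_simp
        _ ≤ a 2 / a 1 * (2 * m) := mul_le_mul_of_nonneg_left w2 (by positivity)
        _ = _ := by ring
    have w3' : a 3 * X i (j + 3) ≤ a 3 / a 2 * m := by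
      calc a 3 * X i (j + 3) = a 3 / a 2 * (a 2 * X i (j + 3)) := by field_simp
        _ ≤ a 3 / a 2 * m := mul_le_mul_of_nonneg_left w3 (by positivity)
    obtain ⟨d, hd⟩ : ∃ d : ℝ, d = b 1 * X i (j + 1) + b 4 * X i (j + 4) := ⟨_, rfl⟩
    have hd0 : 0 < d := by
      rw [hd]
      have := mul_pos hb1 p1
      have := mul_pos hb4 p4
      linarith
    have k6 : X i j * d = a 0 + a 1 * X i (j + 1) + a 2 * X i (j + 2) + a 3 * X i (j + 3) + a 4 * X i (j + 4) := by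
      rw [hd]
      linarith
    have k7 : a 1 * X i (j + 1) ≤ a 1 / b 1 * d := by
      have : a 1 / b 1 * (b 1 * X i (j + 1)) ≤ a 1 / b 1 * d := by
        refine mul_le_mul_of_nonneg_left ?_ (by positivity)
        rw [hd]
        have := mul_pos hb4 p4
        linarith
      calc a 1 * X i (j + 1) = a 1 / b 1 * (b 1 * X i (j + 1)) := by field_simp
        _ ≤ _ := this
    have k8 : a 4 * X i (j + 4) ≤ a 4 / b 4 * d := by
      have : a 4 / b 4 * (b 4 * X i (j + 4)) ≤ a 4 / b 4 * d := by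
        refine mul_le_mul_of_nonneg_left ?_ (by positivity)
        rw [hd]
        have := mul_pos hb1 p1
        linarith
      calc a 4 * X i (j + 4) = a 4 / b 4 * (b 4 * X i (j + 4)) := by field_simp
        _ ≤ _ := this
    have k9 : (1 + 2 * a 2 / a 1 + a 3 / a 2) * m ≤ C * X i (j + 5) * d := by
      have e : (1 + 2 * a 2 / a 1 + a 3 / a 2) * m = C * X i (j + 5) * (b 1 * X i (j + 1)) := by
        rw [hm, hC]
        field_simp
      rw [e]
      refine mul_le_mul_of_nonneg_left ?_ (by rw [hC]; positivity)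
      rw [hd]
      have := mul_pos hb4 p4
      linarith
    have k10 : X i j * d ≤ (C * X i (j + 5) + (a 1 / b 1 + a 4 / b 4)) * d := by
      rw [k6]
      linarith
    exact le_of_mul_le_mul_right k10 hd0
  have hle : r j ≤ C * r (j + 5) + (a 1 / b 1 + a 4 / b 4) * 0 := by
    refine le_of_tendsto_of_tendsto (h.hr j) (((h.hr (j + 5)).const_mul C).add (h.inv_tendsto.const_mul _)) ?_
    filter_upwards [u0] with i hi
    have p := h.back.pos i 0
    show X i j / X i 0 ≤ C * (X i (j + 5) / X i 0) + (a 1 / b 1 + a 4 / b 4) * (X i 0)⁻¹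
    calc X i j / X i 0 ≤ (C * X i (j + 5) + (a 1 / b 1 + a 4 / b 4)) / X i 0 := div_le_div_of_nonneg_right hi p.le
      _ = _ := by ring
  rw [r5] at hle
  linarith

/-- the denominators of the large terms, `a₄` and `a₀` present -/
theorem den_B4 (h : Lims a b l X r v) (ha0 : 0 < a 0) (ha1 : a 1 = 0) (ha2 : 0 < a 2) (ha3 : 0 < a 3) (ha4 : 0 < a 4)
    (hb0 : b 0 = 0) (hb1 : 0 < b 1) (hb2 : b 2 = 0) (hb3 : b 3 = 0) (hb4 : 0 < b 4) {j : ℕ}
    (h1 : Bd l X (j + 1)) (h4 : Bd l X (j + 4)) : 0 < b 1 * v (j + 1) + b 4 * v (j + 4) := by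
  have v1 := h.v_nonneg h1
  have v4 := h.v_nonneg h4
  by_contra hcon
  have q1 := mul_nonneg hb1.le v1
  have q4 := mul_nonneg hb4.le v4
  have z1 : v (j + 1) = 0 := by
    have : b 1 * v (j + 1) = 0 := by linarith
    exact (mul_eq_zero.1 this).resolve_left hb1.ne'
  have z4 : v (j + 4) = 0 := by
    have : b 4 * v (j + 4) = 0 := by linarith
    exact (mul_eq_zero.1 this).resolve_left hb4.ne'
  have t1 := h.hv (j + 1) h1
  have t4 := h.hv (j + 4) h4
  rw [z1] at t1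
  rw [z4] at t4
  have s1 : ∀ᶠ i in (l : Filter ℕ), X i (j + 1) < a 4 / (2 * b 4) := t1.eventually (gt_mem_nhds (by positivity))
  have s4 : ∀ᶠ i in (l : Filter ℕ), X i (j + 4) < a 4 / (2 * b 4) := t4.eventually (gt_mem_nhds (by positivity))
  have s4' : ∀ᶠ i in (l : Filter ℕ), X i (j + 4) < 1 := t4.eventually (gt_mem_nhds one_pos)
  obtain ⟨K1, hK1⟩ : ∃ K1 : ℝ, K1 = b 1 + a 2 * (b 1 / a 0) + a 3 + a 4 / a 2 * b 1 := ⟨_, rfl⟩
  obtain ⟨K2, hK2⟩ : ∃ K2 : ℝ, K2 = b 1 * (b 1 / a 0) + b 4 * (b 1 / a 3) := ⟨_, rfl⟩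
  have hK10 : 0 < K1 := by rw [hK1]; positivity
  have hK20 : 0 < K2 := by rw [hK2]; positivity
  have key : ∀ᶠ i in (l : Filter ℕ), a 2 ≤ K2 * (2 * K1 / a 4) * X i (j + 1) * X i (j + 4) := by
    filter_upwards [h.back.step (j + 1), h.back.step (j + 2), h.back.step (j + 3), h.back.step (j + 4), s1, s4, s4']
      with i g1 g2 g3 g4 hs1 hs4 hs4'
    unfold lin at g1 g2 g3 g4
    rw [hb0, hb2, hb3, ha1] at g1 g2 g3 g4
    rw [show j + 1 + 1 = j + 2 from rfl, show j + 1 + 2 = j + 3 from rfl, show j + 1 + 3 = j + 4 from rfl,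
      show j + 1 + 4 = j + 5 from rfl] at g1
    rw [show j + 2 + 1 = j + 3 from rfl, show j + 2 + 2 = j + 4 from rfl, show j + 2 + 3 = j + 5 from rfl,
      show j + 2 + 4 = j + 6 from rfl] at g2
    rw [show j + 3 + 1 = j + 4 from rfl, show j + 3 + 2 = j + 5 from rfl, show j + 3 + 3 = j + 6 from rfl,
      show j + 3 + 4 = j + 7 from rfl] at g3
    rw [show j + 4 + 1 = j + 5 from rfl, show j + 4 + 2 = j + 6 from rfl, show j + 4 + 3 = j + 7 from rfl,
      show j + 4 + 4 = j + 8 from rfl] at g4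
    have p1 := h.back.pos i (j + 1)
    have p2 := h.back.pos i (j + 2)
    have p3 := h.back.pos i (j + 3)
    have p4 := h.back.pos i (j + 4)
    have p5 := h.back.pos i (j + 5)
    have p6 := h.back.pos i (j + 6)
    have p7 := h.back.pos i (j + 7)
    have p8 := h.back.pos i (j + 8)
    rw [lt_div_iff₀ (by positivity)] at hs1 hs4
    obtain ⟨M, hM⟩ : ∃ M : ℝ, M = b 1 * X i (j + 4) * X i (j + 5) := ⟨_, rfl⟩
    have k8 : X i (j + 4) * (2 * b 4) * X i (j + 8) ≤ a 4 * X i (j + 8) := mul_le_mul_of_nonneg_right hs4.le p8.le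
    have m6 := mul_pos ha2 p6
    have m7 := mul_pos ha3 p7
    have m8 := mul_pos ha4 p8
    have w0 : a 0 ≤ M := by rw [hM]; linarith
    have w6 : a 2 * X i (j + 6) ≤ M := by rw [hM]; linarith
    have w7 : a 3 * X i (j + 7) ≤ M := by rw [hM]; linarith
    have k5 : X i (j + 1) * (2 * b 4) * X i (j + 5) ≤ a 4 * X i (j + 5) := mul_le_mul_of_nonneg_right hs1.le p5.le
    have m3 := mul_pos ha2 p3
    have m4 := mul_pos ha3 p4
    have w5 : a 4 * X i (j + 5) ≤ 2 * b 1 * X i (j + 1) * X i (j + 2) := by linarith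
    -- `X_4 ≤ (b1/a0) X_4 X_5`
    have n4 : X i (j + 4) ≤ b 1 / a 0 * X i (j + 4) * X i (j + 5) := by
      have n5 : a 0 ≤ b 1 * X i (j + 5) := by
        have n6 : b 1 * X i (j + 4) * X i (j + 5) ≤ b 1 * 1 * X i (j + 5) :=
          mul_le_mul_of_nonneg_right (mul_le_mul_of_nonneg_left hs4'.le hb1.le) p5.le
        rw [hM] at w0
        linarith
      calc X i (j + 4) = a 0 * (X i (j + 4) / a 0) := by field_simp
        _ ≤ b 1 * X i (j + 5) * (X i (j + 4) / a 0) := mul_le_mul_of_nonneg_right n5 (by positivity)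
        _ = _ := by ring
    have n4' : b 1 / a 0 * X i (j + 4) * X i (j + 5) ≤ b 1 / a 0 * X i (j + 5) := by
      have n6 : b 1 / a 0 * X i (j + 4) * X i (j + 5) ≤ b 1 / a 0 * 1 * X i (j + 5) :=
        mul_le_mul_of_nonneg_right (mul_le_mul_of_nonneg_left hs4'.le (by positivity)) p5.le
      linarith
    have nM : M ≤ b 1 * X i (j + 5) := by
      rw [hM]
      have n6 : b 1 * X i (j + 4) * X i (j + 5) ≤ b 1 * 1 * X i (j + 5) :=
        mul_le_mul_of_nonneg_right (mul_le_mul_of_nonneg_left hs4'.le hb1.le) p5.le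
      linarith
    have x2 : X i (j + 2) * (b 1 * X i (j + 3)) ≤ K1 * X i (j + 5) := by
      have y1 : 0 ≤ X i (j + 2) * (b 4 * X i (j + 6)) := by positivity
      have y2 : a 2 * X i (j + 4) ≤ a 2 * (b 1 / a 0) * X i (j + 5) := by
        have := mul_le_mul_of_nonneg_left (n4.trans n4') ha2.le
        linarith
      have y3 : a 4 * X i (j + 6) ≤ a 4 / a 2 * b 1 * X i (j + 5) := by
        calc a 4 * X i (j + 6) = a 4 / a 2 * (a 2 * X i (j + 6)) := by field_simp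
          _ ≤ a 4 / a 2 * (b 1 * X i (j + 5)) := mul_le_mul_of_nonneg_left (w6.trans nM) (by positivity)
          _ = _ := by ring
      have y0 := w0.trans nM
      rw [hK1]
      linarith
    have x3 : X i (j + 3) ≤ 2 * K1 / a 4 * X i (j + 1) := by
      have y1 : (X i (j + 3) * a 4) * (b 1 * X i (j + 2)) ≤ (2 * K1 * X i (j + 1)) * (b 1 * X i (j + 2)) := by
        calc (X i (j + 3) * a 4) * (b 1 * X i (j + 2)) = a 4 * (X i (j + 2) * (b 1 * X i (j + 3))) := by ring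
          _ ≤ a 4 * (K1 * X i (j + 5)) := mul_le_mul_of_nonneg_left x2 ha4.le
          _ = K1 * (a 4 * X i (j + 5)) := by ring
          _ ≤ K1 * (2 * b 1 * X i (j + 1) * X i (j + 2)) := mul_le_mul_of_nonneg_left w5 hK10.le
          _ = _ := by ring
      have y2 := le_of_mul_le_mul_right y1 (by positivity)
      calc X i (j + 3) ≤ 2 * K1 * X i (j + 1) / a 4 := (le_div_iff₀ ha4).2 y2
        _ = _ := by ring
    have x4 : a 2 * X i (j + 5) ≤ (K2 * X i (j + 3) * X i (j + 4)) * X i (j + 5) := by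
      have y1 : a 2 * X i (j + 5) ≤ X i (j + 3) * (b 1 * X i (j + 4) + b 4 * X i (j + 7)) := by
        have m6' := mul_pos ha3 p6
        have m7' := mul_pos ha4 p7
        linarith
      have y2 : b 1 * X i (j + 4) ≤ b 1 * (b 1 / a 0) * X i (j + 4) * X i (j + 5) := by
        have := mul_le_mul_of_nonneg_left n4 hb1.le
        linarith
      have y3 : b 4 * X i (j + 7) ≤ b 4 * (b 1 / a 3) * X i (j + 4) * X i (j + 5) := by
        calc b 4 * X i (j + 7) = b 4 / a 3 * (a 3 * X i (j + 7)) := by field_simp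
          _ ≤ b 4 / a 3 * M := mul_le_mul_of_nonneg_left w7 (by positivity)
          _ = _ := by rw [hM]; ring
      calc a 2 * X i (j + 5) ≤ X i (j + 3) * (b 1 * X i (j + 4) + b 4 * X i (j + 7)) := y1
        _ ≤ X i (j + 3) * (b 1 * (b 1 / a 0) * X i (j + 4) * X i (j + 5) +
              b 4 * (b 1 / a 3) * X i (j + 4) * X i (j + 5)) :=
            mul_le_mul_of_nonneg_left (add_le_add y2 y3) p3.le
        _ = _ := by rw [hK2]; ring
    have x5 := le_of_mul_le_mul_right x4 p5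
    calc a 2 ≤ K2 * X i (j + 3) * X i (j + 4) := x5
      _ ≤ K2 * (2 * K1 / a 4 * X i (j + 1)) * X i (j + 4) :=
          mul_le_mul_of_nonneg_right (mul_le_mul_of_nonneg_left x3 hK20.le) p4.le
      _ = _ := by ring
  have hlim : Tendsto (fun i => K2 * (2 * K1 / a 4) * X i (j + 1) * X i (j + 4)) l
      (𝓝 (K2 * (2 * K1 / a 4) * 0 * 0)) := (t1.const_mul _).mul t4
  have := ge_of_tendsto hlim key
  rw [mul_zero] at this
  linarith

/-- **Family B.** -/
theorem noBack_B (na : ∀ i < 5, 0 ≤ a i) (nb : ∀ i < 5, 0 ≤ b i) (ha2 : 0 < a 2) (ha3 : 0 < a 3)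
    (hb1 : 0 < b 1) (hb2 : b 2 = 0) (hb3 : b 3 = 0) (hb4 : 0 < b 4)
    (hor : 0 < b 0 ∨ 0 < a 1 ∨ (0 < a 4 ∧ 0 < a 0)) : NoBack a b := by
  intro l X hX
  obtain ⟨r, v, h⟩ := exists_lims hX na nb
  have na0 := na 0 (by norm_num)
  have na1 := na 1 (by norm_num)
  have na4 := na 4 (by norm_num)
  have nb0 := nb 0 (by norm_num)
  have hz1 : ∀ j, 0 < r j → Bd l X (j + 1) := fun j hj => h.bd_add (m := 1) (by norm_num) (by norm_num) hb1 hj
  have hz4 : ∀ j, 0 < r j → Bd l X (j + 4) := fun j hj => h.bd_add (m := 4) (by norm_num) (by norm_num) hb4 hj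
  have hy1 : ∀ j, 0 < r (j + 1) → Bd l X j := fun j hj => h.bd_of_add (m := 1) (by norm_num) (by norm_num) hb1 hj
  have hy4 : ∀ j, 0 < r (j + 4) → Bd l X j := fun j hj => h.bd_of_add (m := 4) (by norm_num) (by norm_num) hb4 hj
  have hr0 : ∀ j, ¬ 0 < r j → r j = 0 := fun j hj => le_antisymm (not_lt.1 hj) (h.r_nonneg j)
  have hE1 : ∀ j, 0 < r j → r j * (b 0 + b 1 * v (j + 1) + b 4 * v (j + 4)) = a 2 * r (j + 2) + a 3 * r (j + 3) := by
    intro j hj
    have := h.eq1 j (Or.inr (hz1 j hj)) (Or.inl hb2) (Or.inl hb3) (Or.inr (hz4 j hj))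
    rw [hb2, hb3, h.r_eq_zero (hz1 j hj), h.r_eq_zero (hz4 j hj)] at this
    linarith
  have hE2 : ∀ j, Bd l X j → v j * (b 1 * r (j + 1) + b 4 * r (j + 4)) =
      a 1 * r (j + 1) + a 2 * r (j + 2) + a 3 * r (j + 3) + a 4 * r (j + 4) := by
    intro j hj
    have := h.eq2 hj
    rw [hb2, hb3] at this
    linarith
  have hden : ∀ j, 0 < r j → 0 < b 0 + b 1 * v (j + 1) + b 4 * v (j + 4) := by
    intro j hj
    have z1 := hz1 j hj
    have z4 := hz4 j hj
    have q1 := mul_nonneg hb1.le (h.v_nonneg z1)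
    have q4 := mul_nonneg hb4.le (h.v_nonneg z4)
    rcases nb0.lt_or_eq with h0 | h0
    · linarith
    · rcases na1.lt_or_eq with h1 | h1
      · have := den_B1 h ha2 h1 h0.symm hb1 hb2 hb3 hb4 hj z1 z4
        linarith
      · rcases hor with h2 | h2 | h2
        · exact absurd h0 h2.ne
        · exact absurd h1 h2.ne
        · have := den_B4 h h2.2 h1.symm ha2 ha3 h2.1 h0.symm hb1 hb2 hb3 hb4 z1 z4
          linarith
  -- the first pair
  have hstart : ∃ t, 0 < r t ∧ 0 < r (t + 2) := by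
    have hr0' : 0 < r 0 := by rw [h.r_zero]; norm_num
    by_cases h1 : 0 < r 2
    · exact ⟨0, hr0', h1⟩
    · have h2 := hE1 0 hr0'
      rw [zero_add, zero_add, zero_add, zero_add, hr0 2 h1] at h2
      have h3 := hden 0 hr0'
      rw [zero_add, zero_add] at h3
      have h4 : 0 < a 3 * r 3 := by
        have := mul_pos hr0' h3
        linarith
      have h5 : 0 < r 3 := pos_of_mul_pos_right h4 ha3.le
      refine ⟨3, h5, ?_⟩
      by_contra h6
      have h7 := hE2 1 (hz1 0 hr0')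
      have e1 : (1 : ℕ) + 1 = 2 := rfl
      have e2 : (1 : ℕ) + 2 = 3 := rfl
      have e3 : (1 : ℕ) + 3 = 4 := rfl
      have e4 : (1 : ℕ) + 4 = 5 := rfl
      rw [e1, e2, e3, e4, hr0 2 h1, hr0 5 h6, h.r_eq_zero (hz1 3 h5)] at h7
      have := mul_pos ha2 h5
      linarith
  obtain ⟨t, ht, ht2⟩ := hstart
  have hstep : ∀ j, 0 < r j → 0 < r (j + 2) → 0 < r (j + 5) ∧ 0 < r (j + 5 + 2) := by
    intro j h0 h2
    have z4 := hz4 j h0
    have z3 := hz1 (j + 2) h2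
    have z6 := hz4 (j + 2) h2
    have e1 := hE1 (j + 2) h2
    rw [show j + 2 + 2 = j + 4 from rfl, h.r_eq_zero z4] at e1
    have h5 : 0 < a 3 * r (j + 2 + 3) := by
      have := mul_pos h2 (hden _ h2)
      linarith
    have h5' : 0 < r (j + 5) := pos_of_mul_pos_right h5 ha3.le
    refine ⟨h5', ?_⟩
    by_contra h7
    have h8 := hE2 (j + 2 + 1) z3
    rw [show j + 2 + 1 + 1 = j + 4 from rfl, show j + 2 + 1 + 2 = j + 5 from rfl,
      show j + 2 + 1 + 3 = j + 2 + 4 from rfl, show j + 2 + 1 + 4 = j + 5 + 2 from rfl, h.r_eq_zero z4, h.r_eq_zero z6,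
      hr0 _ h7] at h8
    have := mul_pos ha2 h5'
    linarith
  have hS : ∀ k, 0 < r (t + 5 * k) ∧ 0 < r (t + 5 * k + 2) := by
    intro k
    induction k with
    | zero => exact ⟨ht, ht2⟩
    | succ k ih => exact hstep _ ih.1 ih.2
  have ha23 : 0 < a 2 * a 3 := mul_pos ha2 ha3
  -- growth
  have hgrow : ∀ p0 : ℝ, 0 < p0 → ∀ k, p0 ≤ r (t + 5 * (k + 1)) →
      (a 2 * a 3 + (b 0 ^ 2 + a 1 * a 2 * p0 + b 1 ^ 2 * a 4 ^ 2 * p0 / (b 4 * (b 1 + b 4))) / 3) * r (t + 5 * k) ≤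
        a 2 * a 3 * r (t + 5 * (k + 1)) := by
    intro p0 hp0 k hk
    obtain ⟨j, hj⟩ : ∃ j, j = t + 5 * k := ⟨_, rfl⟩
    have e5 : t + 5 * (k + 1) = j + 5 := by rw [hj]; ring
    have e10 : t + 5 * (k + 1 + 1) = j + 10 := by rw [hj]; ring
    rw [e5] at hk ⊢
    rw [← hj]
    obtain ⟨g0, g2⟩ := hS k
    obtain ⟨g5, g7⟩ := hS (k + 1)
    obtain ⟨g10, -⟩ := hS (k + 1 + 1)
    rw [e5] at g5 g7
    rw [e10] at g10
    rw [← hj] at g0 g2
    have g7' : 0 < r (j + 7) := g7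
    have z1 := hz1 j g0
    have z4 := hz4 j g0
    have z3 : Bd l X (j + 3) := hz1 (j + 2) g2
    have z6 : Bd l X (j + 6) := hz4 (j + 2) g2
    have z8 : Bd l X (j + 8) := hz1 (j + 7) g7'
    have z9 : Bd l X (j + 9) := hz4 (j + 5) g5
    have R1 : r j * (b 0 + b 1 * v (j + 1) + b 4 * v (j + 4)) = a 2 * r (j + 2) := by
      have h2 := hE1 j g0
      rw [h.r_eq_zero z3] at h2
      linarith
    have R2 : r (j + 2) * (b 0 + b 1 * v (j + 3) + b 4 * v (j + 6)) = a 3 * r (j + 5) := by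
      have h2 := hE1 (j + 2) g2
      rw [show j + 2 + 1 = j + 3 from rfl, show j + 2 + 2 = j + 4 from rfl, show j + 2 + 3 = j + 5 from rfl,
        show j + 2 + 4 = j + 6 from rfl, h.r_eq_zero z4] at h2
      linarith
    have V1 : v (j + 1) * (b 1 * r (j + 2) + b 4 * r (j + 5)) = a 1 * r (j + 2) + a 4 * r (j + 5) := by
      have h2 := hE2 (j + 1) z1
      rw [show j + 1 + 1 = j + 2 from rfl, show j + 1 + 2 = j + 3 from rfl, show j + 1 + 3 = j + 4 from rfl,
        show j + 1 + 4 = j + 5 from rfl, h.r_eq_zero z3, h.r_eq_zero z4] at h2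
      linarith
    have V3 : v (j + 3) * (b 4 * r (j + 7)) = a 2 * r (j + 5) + a 4 * r (j + 7) := by
      have h2 := hE2 (j + 3) z3
      rw [show j + 3 + 1 = j + 4 from rfl, show j + 3 + 2 = j + 5 from rfl, show j + 3 + 3 = j + 6 from rfl,
        show j + 3 + 4 = j + 7 from rfl, h.r_eq_zero z4, h.r_eq_zero z6] at h2
      linarith
    have V4 : v (j + 4) * (b 1 * r (j + 5)) = a 1 * r (j + 5) + a 3 * r (j + 7) := by
      have h2 := hE2 (j + 4) z4
      rw [show j + 4 + 1 = j + 5 from rfl, show j + 4 + 2 = j + 6 from rfl, show j + 4 + 3 = j + 7 from rfl,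
        show j + 4 + 4 = j + 8 from rfl, h.r_eq_zero z6, h.r_eq_zero z8] at h2
      linarith
    have V6 : v (j + 6) * (b 1 * r (j + 7) + b 4 * r (j + 10)) = a 1 * r (j + 7) + a 4 * r (j + 10) := by
      have h2 := hE2 (j + 6) z6
      rw [show j + 6 + 1 = j + 7 from rfl, show j + 6 + 2 = j + 8 from rfl, show j + 6 + 3 = j + 9 from rfl,
        show j + 6 + 4 = j + 10 from rfl, h.r_eq_zero z8, h.r_eq_zero z9] at h2
      linarith
    have hprod := prod_B ha2 ha3 na1 na4 nb0 hb1 hb4 hp0 hk (h.r_le_one _) g7' (h.r_le_one _) g10 g2 (h.r_le_one _)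
      V1 V3 V4 V6
    have h7 : r j * ((b 0 + b 1 * v (j + 1) + b 4 * v (j + 4)) * (b 0 + b 1 * v (j + 3) + b 4 * v (j + 6))) =
        a 2 * a 3 * r (j + 5) := by
      calc _ = (r j * (b 0 + b 1 * v (j + 1) + b 4 * v (j + 4))) * (b 0 + b 1 * v (j + 3) + b 4 * v (j + 6)) := by ring
        _ = a 2 * (r (j + 2) * (b 0 + b 1 * v (j + 3) + b 4 * v (j + 6))) := by rw [R1]; ring
        _ = _ := by rw [R2]; ring
    have h8 := mul_le_mul_of_nonneg_left hprod g0.le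
    linarith
  -- monotone
  have hmono1 : ∀ k, r (t + 5 * k) ≤ r (t + 5 * (k + 1)) := by
    intro k
    have h1 := hgrow (r (t + 5 * (k + 1))) (hS (k + 1)).1 k le_rfl
    obtain ⟨e, he⟩ : ∃ e : ℝ, e = (b 0 ^ 2 + a 1 * a 2 * r (t + 5 * (k + 1)) +
      b 1 ^ 2 * a 4 ^ 2 * r (t + 5 * (k + 1)) / (b 4 * (b 1 + b 4))) / 3 := ⟨_, rfl⟩
    rw [← he] at h1
    have he0 : 0 ≤ e := by
      have := (hS (k + 1)).1
      rw [he]
      positivity
    have h2 : 0 ≤ e * r (t + 5 * k) := mul_nonneg he0 (hS k).1.le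
    have h3 : a 2 * a 3 * r (t + 5 * k) ≤ a 2 * a 3 * r (t + 5 * (k + 1)) := by linarith
    exact le_of_mul_le_mul_left h3 ha23
  have hmono : ∀ k, r t ≤ r (t + 5 * k) := by
    intro k
    induction k with
    | zero => exact le_rfl
    | succ k ih => exact ih.trans (hmono1 k)
  obtain ⟨c, hc⟩ : ∃ c : ℝ, c = (b 0 ^ 2 + a 1 * a 2 * r t + b 1 ^ 2 * a 4 ^ 2 * r t / (b 4 * (b 1 + b 4))) / 3 :=
    ⟨_, rfl⟩
  have hc0 : 0 < c := by
    have q0 : 0 ≤ b 0 ^ 2 := sq_nonneg _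
    have q1 : 0 ≤ a 1 * a 2 * r t := by positivity
    have q2 : 0 ≤ b 1 ^ 2 * a 4 ^ 2 * r t / (b 4 * (b 1 + b 4)) := by positivity
    rw [hc]
    rcases hor with h1 | h1 | h1
    · have : 0 < b 0 ^ 2 := by positivity
      linarith
    · have : 0 < a 1 * a 2 * r t := by positivity
      linarith
    · have := h1.1
      have : 0 < b 1 ^ 2 * a 4 ^ 2 * r t / (b 4 * (b 1 + b 4)) := by positivity
      linarith
  refine no_geom (ρ := fun k => r (t + 5 * k)) (q := (a 2 * a 3 + c) / (a 2 * a 3)) ?_ (hS 0).1 (fun k => h.r_le_one _)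
    (fun k => ?_)
  · rw [one_lt_div ha23]
    linarith
  · show (a 2 * a 3 + c) / (a 2 * a 3) * r (t + 5 * k) ≤ r (t + 5 * (k + 1))
    have h1 := hgrow (r t) ht k (hmono (k + 1))
    rw [← hc] at h1
    rw [div_mul_eq_mul_div, div_le_iff₀ ha23]
    linarith

end Pool.Agent.H4.RD4
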