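import Pool.Agent.H4.RD4.Shp
import Pool.Agent.H50.Rdb.Fam3

/-!
# The families of period three: reduction to the limit system

Numerator `(a₀), (a₁), a₃, (a₄)` with `a₁` or `a₄`, denominator `(b₀), (b₁), b₄`. If all terms `X_(3k)` of a backward orbit are comparable
with the record (shape certificate), then in the limit `ρ k = X_(3k) / X_0`, `p k = X_(3k+1)`, `q k = X_(3k+2)` satisfy
`ρ_k (b₀ + b₁ p_k + b₄ p_(k+1)) = a₃ ρ_(k+1)`, `p_k (b₀ + b₁ q_k + b₄ q_(k+1)) = a₀ + a₁ q_k + a₃ p_(k+1) + a₄ q_(k+1)`,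
`q_k (b₁ ρ_(k+1) + b₄ ρ_(k+2)) = a₁ ρ_(k+1) + a₄ ρ_(k+2)`.
-/

namespace Pool.Agent.H4.RD4

open Filter Topology Real
open Pool.Agent.H50.Rdb
open Pool.Agent.H81.RDE (ESB caseOf)

variable {a b : ℕ → ℝ} {l : Ultrafilter ℕ} {X : ℕ → ℕ → ℝ} {r v : ℕ → ℝ}

/-- the terms `X_(3k)` are comparable with the record -/
theorem r3_pos {N D : ℕ} {cs : List (Option ℤ)} {S : List (List ((ℕ × List (ℕ × ℕ)) × (ℕ × List (ℕ × ℕ))))} {t : T}
    (h : ok3 N D 1 cs S t = true) (hcs : cs.getD 3 none = some 1) (ha : Pat N a) (hb : Pat D b)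
    (hL : Lims a b l X r v) (k : ℕ) : 0 < r (3 * k) := by
  have hX := hL.back
  have key : ∀ k : ℕ, ∃ B : ℝ, ∀ᶠ i in (l : Filter ℕ), |log (X i (3 * k)) - log (X i 0)| ≤ B := by
    intro k
    induction k with
    | zero => exact ⟨0, Eventually.of_forall fun i => by simp⟩
    | succ k ih =>
      obtain ⟨B, hB⟩ := ih
      obtain ⟨B', hB'⟩ := shape_at h ha hb hX hB
      refine ⟨B' + B, ?_⟩
      filter_upwards [hB, hB' 3 1 hcs] with i h1 h2
      have e : 3 * (k + 1) = 3 * k + 3 := by ring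
      rw [e]
      obtain ⟨h3, h4⟩ := abs_le.1 h1
      obtain ⟨h5, h6⟩ := abs_le.1 h2
      push_cast at h5 h6
      rw [abs_le]
      constructor <;> linarith
  obtain ⟨B, hB⟩ := key k
  refine (exp_pos (-B)).trans_le (ge_of_tendsto (hL.hr (3 * k)) (hB.mono fun i hi => ?_))
  obtain ⟨h1, h2⟩ := abs_le.1 hi
  have hp : 0 < X i (3 * k) / X i 0 := div_pos (hX.pos i _) (hX.pos i 0)
  rw [← le_log_iff_exp_le hp, log_div (hX.pos i _).ne' (hX.pos i 0).ne']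
  linarith

/-- the limit system -/
theorem m3_system (h : Lims a b l X r v) (hr : ∀ k, 0 < r (3 * k)) (ha2 : a 2 = 0) (hb2 : b 2 = 0) (hb3 : b 3 = 0)
    (hb4 : 0 < b 4) (ha14 : 0 < a 1 ∨ 0 < a 4) : ∃ ρ p q : ℕ → ℝ, ρ 0 = 1 ∧ (∀ k, 0 < ρ k) ∧ (∀ k, ρ k ≤ 1) ∧
      (∀ k, 0 < p k) ∧ (∀ k, 0 < q k) ∧
      (∀ k, ρ k * (b 0 + b 1 * p k + b 4 * p (k + 1)) = a 3 * ρ (k + 1)) ∧
      (∀ k, p k * (b 0 + b 1 * q k + b 4 * q (k + 1)) = a 0 + a 1 * q k + a 3 * p (k + 1) + a 4 * q (k + 1)) ∧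
      (∀ k, q k * (b 1 * ρ (k + 1) + b 4 * ρ (k + 2)) = a 1 * ρ (k + 1) + a 4 * ρ (k + 2)) := by
  have na0 := h.na 0 (by norm_num)
  have na1 := h.na 1 (by norm_num)
  have na3 := h.na 3 (by norm_num)
  have na4 := h.na 4 (by norm_num)
  have nb0 := h.nb 0 (by norm_num)
  have nb1 := h.nb 1 (by norm_num)
  have B4 : ∀ k, Bd l X (3 * k + 4) := fun k => h.bd_add (by norm_num) (by norm_num) hb4 (hr k)
  have B2 : ∀ k, Bd l X (3 * k + 2) := fun k => h.bd_of_add (m := 4) (by norm_num) (by norm_num) hb4 (by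
    have e : 3 * k + 2 + 4 = 3 * (k + 2) := by ring
    rw [e]
    exact hr (k + 2))
  have hq : ∀ k, v (3 * k + 2) * (b 1 * r (3 * (k + 1)) + b 4 * r (3 * (k + 2))) =
      a 1 * r (3 * (k + 1)) + a 4 * r (3 * (k + 2)) := by
    intro k
    have e := h.eq2 (B2 k)
    have e1 : 3 * k + 2 + 1 = 3 * (k + 1) := by ring
    have e2 : 3 * k + 2 + 2 = 3 * k + 4 := by ring
    have e3 : 3 * k + 2 + 3 = 3 * (k + 1) + 2 := by ring
    have e4 : 3 * k + 2 + 4 = 3 * (k + 2) := by ring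
    rw [e1, e2, e3, e4, ha2, hb2, hb3, h.r_eq_zero (B2 (k + 1))] at e
    linarith
  have hq0 : ∀ k, 0 < v (3 * k + 2) := by
    intro k
    have h1 := hr (k + 1)
    have h2 := hr (k + 2)
    have h3 : 0 < a 1 * r (3 * (k + 1)) + a 4 * r (3 * (k + 2)) := by
      rcases ha14 with h4 | h4
      · have := mul_pos h4 h1
        have := mul_nonneg na4 h2.le
        linarith
      · have := mul_pos h4 h2
        have := mul_nonneg na1 h1.le
        linarith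
    rw [← hq k] at h3
    exact pos_of_mul_pos_left h3 (by positivity)
  have B1 : Bd l X 1 := by
    have h5 := hq0 1
    have e5 : 3 * 1 + 2 = 5 := rfl
    rw [e5] at h5
    obtain ⟨M2, hM2⟩ := B2 0
    obtain ⟨M4, hM4⟩ := B4 0
    obtain ⟨M5, hM5⟩ := B2 1
    have hv5 := (h.hv 5 (B2 1)).eventually (lt_mem_nhds (show v 5 / 2 < v 5 by linarith))
    refine ⟨(a 0 + a 1 * M2 + a 3 * M4 + a 4 * M5) / (b 4 * (v 5 / 2)), ?_⟩
    filter_upwards [hM2, hM4, hM5, hv5, h.back.step 1] with i i2 i4 i5 i6 i7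
    rw [le_div_iff₀ (by positivity)]
    have hx1 := h.back.pos i 1
    have hx2 := h.back.pos i 2
    unfold lin at i7
    rw [ha2, hb2, hb3] at i7
    have j1 : X i 1 * (b 4 * (v 5 / 2)) ≤ X i 1 * (b 4 * X i 5) :=
      mul_le_mul_of_nonneg_left (mul_le_mul_of_nonneg_left i6.le hb4.le) hx1.le
    have j2 : 0 ≤ X i 1 * b 0 := mul_nonneg hx1.le nb0
    have j3 : 0 ≤ X i 1 * (b 1 * X i 2) := mul_nonneg hx1.le (mul_nonneg nb1 hx2.le)
    have j4 := mul_le_mul_of_nonneg_left i2 na1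
    have j5 := mul_le_mul_of_nonneg_left i4 na3
    have j6 := mul_le_mul_of_nonneg_left i5 na4
    have e1 : 1 + 1 = 2 := rfl
    have e4 : 1 + 4 = 5 := rfl
    have e3 : 1 + 3 = 4 := rfl
    simp only [e1, e3, e4] at *
    nlinarith
  have B1' : ∀ k, Bd l X (3 * k + 1) := by
    intro k
    cases k with
    | zero => exact B1
    | succ k => exact B4 k
  have hp : ∀ k, v (3 * k + 1) * (b 0 + b 1 * v (3 * k + 2) + b 4 * v (3 * (k + 1) + 2)) =
      a 0 + a 1 * v (3 * k + 2) + a 3 * v (3 * (k + 1) + 1) + a 4 * v (3 * (k + 1) + 2) := by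
    intro k
    have e := h.eq3 (B1' k) (Or.inr (B2 k)) (Or.inl ⟨ha2, hb2⟩) (Or.inr (B4 k)) (Or.inr (B2 (k + 1)))
    have e1 : 3 * k + 1 + 1 = 3 * k + 2 := rfl
    have e3 : 3 * k + 1 + 3 = 3 * (k + 1) + 1 := by ring
    have e4 : 3 * k + 1 + 4 = 3 * (k + 1) + 2 := by ring
    rw [e1, e3, e4, ha2, hb2, hb3] at e
    linarith
  have hp0 : ∀ k, 0 < v (3 * k + 1) := by
    intro k
    have h1 := hq0 k
    have h2 := hq0 (k + 1)
    have h3 := h.v_nonneg (B1' (k + 1))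
    have h4 : 0 < a 0 + a 1 * v (3 * k + 2) + a 3 * v (3 * (k + 1) + 1) + a 4 * v (3 * (k + 1) + 2) := by
      have g3 := mul_nonneg na3 h3
      rcases ha14 with h5 | h5
      · have g1 := mul_pos h5 h1
        have g2 := mul_nonneg na4 h2.le
        linarith
      · have g1 := mul_nonneg na1 h1.le
        have g2 := mul_pos h5 h2
        linarith
    rw [← hp k] at h4
    exact pos_of_mul_pos_left h4 (by positivity)
  refine ⟨fun k => r (3 * k), fun k => v (3 * k + 1), fun k => v (3 * k + 2), h.r_zero, hr, fun k => h.r_le_one _,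
    hp0, hq0, fun k => ?_, hp, hq⟩
  have e := h.eq1 (3 * k) (Or.inr (B1' k)) (Or.inl hb2) (Or.inl hb3) (Or.inr (B4 k))
  have e3 : 3 * k + 3 = 3 * (k + 1) := by ring
  have e4 : 3 * k + 4 = 3 * (k + 1) + 1 := by ring
  rw [h.r_eq_zero (B1' k), h.r_eq_zero (B4 k), e3, e4, ha2, hb2, hb3] at e
  simp only
  linarith

/-- the coefficients of the limit system -/
def NoM3 (a b : ℕ → ℝ) : Prop := ∀ ρ p q : ℕ → ℝ, ρ 0 = 1 → (∀ k, 0 < ρ k) → (∀ k, ρ k ≤ 1) →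
  (∀ k, 0 < p k) → (∀ k, 0 < q k) →
  (∀ k, ρ k * (b 0 + b 1 * p k + b 4 * p (k + 1)) = a 3 * ρ (k + 1)) →
  (∀ k, p k * (b 0 + b 1 * q k + b 4 * q (k + 1)) = a 0 + a 1 * q k + a 3 * p (k + 1) + a 4 * q (k + 1)) →
  (∀ k, q k * (b 1 * ρ (k + 1) + b 4 * ρ (k + 2)) = a 1 * ρ (k + 1) + a 4 * ρ (k + 2)) → False

/-- **the reduction**: a shape certificate for the third term and no solution of the limit system give the case -/
theorem esb_m3 {N D : ℕ} {cs : List (Option ℤ)} {S : List (List ((ℕ × List (ℕ × ℕ)) × (ℕ × List (ℕ × ℕ))))} {t : T}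
    (hND : (Nat.blt N 32 && Nat.blt D 32 && Nat.blt 0 N && Nat.blt 0 D && !N.testBit 2 && !D.testBit 2 &&
      !D.testBit 3 && D.testBit 4 && (N.testBit 1 || N.testBit 4)) = true)
    (h : ok3 N D 1 cs S t = true) (hcs : cs.getD 3 none = some 1)
    (hno : ∀ a b : ℕ → ℝ, Pat N a → Pat D b → NoM3 a b) : ESB (caseOf 4 N D) := by
  simp only [Bool.and_eq_true, Nat.blt_eq, Bool.not_eq_true', Bool.or_eq_true] at hND
  obtain ⟨⟨⟨⟨⟨⟨⟨⟨hN, hD⟩, hN1⟩, hD1⟩, hN2⟩, hD2⟩, hD3⟩, hD4⟩, hN14⟩ := hND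
  refine esb_of_noBack hN hN1.ne' hD hD1.ne' fun a b ha hb l X hX => ?_
  obtain ⟨r, v, hL⟩ := exists_lims hX (fun i hi => ha.nonneg hi) (fun i hi => hb.nonneg hi)
  obtain ⟨ρ, p, q, h0, h1, h2, h3, h4, h5, h6, h7⟩ := m3_system hL (r3_pos h hcs ha hb hL)
    (ha.zero (by norm_num) hN2) (hb.zero (by norm_num) hD2) (hb.zero (by norm_num) hD3)
    (hb.pos (by norm_num) hD4) (hN14.imp (fun e => ha.pos (by norm_num) e) (fun e => ha.pos (by norm_num) e))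
  exact hno a b ha hb ρ p q h0 h1 h2 h3 h4 h5 h6 h7

/-- `a₁ = b₁ = 0`: the limit system is linear -/
theorem noM3_lin {a b : ℕ → ℝ} (ha0 : 0 ≤ a 0) (ha1 : a 1 = 0) (ha3 : 0 < a 3) (ha4 : 0 < a 4) (hb0 : 0 ≤ b 0)
    (hb1 : b 1 = 0) (hb4 : 0 < b 4) : NoM3 a b := by
  intro ρ p q h0 h1 h2 h3 h4 h5 h6 h7
  have hq : ∀ k, b 4 * q k = a 4 := by
    intro k
    have e := h7 k
    rw [ha1, hb1] at e
    have e2 : (b 4 * q k) * ρ (k + 2) = a 4 * ρ (k + 2) := by linarith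
    exact mul_right_cancel₀ (h1 (k + 2)).ne' e2
  refine no_L1 (b0 := b 0) (a1 := a 4) (a3 := a 3) (c := a 0 * b 4 + a 4 ^ 2) (v := fun k => b 4 * p (k + 1)) (ρ := ρ)
    hb0 ha4 ha3 (by nlinarith [mul_nonneg ha0 hb4.le]) (fun k => (mul_pos hb4 (h3 _)).le) (fun k => ?_) h1 h2
    (fun k => ?_)
  · have e := h6 (k + 1)
    have e1 := hq (k + 1)
    have e2 := hq (k + 1 + 1)
    rw [ha1, hb1] at e
    linear_combination b 4 * e + (a 4 - b 4 * p (k + 1)) * e2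
  · have e := h5 k
    rw [hb1] at e
    linarith

end Pool.Agent.H4.RD4
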