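import Pool.Agent.H43.K4.Rat
import Pool.Agent.H30.M3.Reg

/-!
# Family I of the mod three family, region F2

`U (b + β q₀ + y) < (a₀ + U + a z) E` for `β ≥ 2`, `0 < a ≤ 9/20`. Since `β q₀ < a E` it is enough that
`U (b + y) ≤ (U (1 - a) + a z) E`, and `E ≥ b + U + β (U + a z) / (b + β y + a)`, `z ≥ a (b + β W) / (β + b + β W)`.
The remaining inequality has natural coefficients in `β = 2 (1 + k)`, `b = 1 / (1 + g)`, `a = 9 / (20 (1 + al))`,
`U = a b u / (1 + k)`, `u = 1 + t` or `u = 1 / (1 + t)` (helper43).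
-/

namespace Pool.Agent.H4.RD4.F2

open Pool.Agent.H43.K4 Pool.Agent.H30.M3

def fL (U W be b a a' : RE) : RE :=
  (U * a' + a * (a * (b + be * W) / (be + (b + be * W)))) *
    (b + U + be * ((U + a * (a * (b + be * W) / (be + (b + be * W)))) /
      (b + be * (a * (b + be * U + W) / (be + (b + be * U + W))) + a)))

def fR (U W be b a : RE) : RE := U * (b + a * (b + be * U + W) / (be + (b + be * U + W)))

def gL (U W be a a' : RE) : RE :=
  (U * a' + a * (a * (be * W) / (be + (be * W)))) *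
    (U + be * ((U + a * (a * (be * W) / (be + (be * W)))) /
      (be * (a * (be * U + W) / (be + (be * U + W))) + a)))

def gR (U W be a : RE) : RE := U * (a * (be * U + W) / (be + (be * U + W)))

def be : RE := 2 * (1 + .v 2)
def b : RE := 1 / (1 + .v 3)
def a : RE := 9 / (20 * (1 + .v 4))
def a' : RE := (11 + 20 * .v 4) / (20 * (1 + .v 4))
def U1 : RE := a * b * (1 + .v 0) / (1 + .v 2)
def U2 : RE := a * b * (1 / (1 + .v 0)) / (1 + .v 2)

theorem c1 : chkR 53 [5, 5, 10, 8, 6] [false, true, false, false, false] (fL U1 (.v 1) be b a a')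
    (fR U1 (.v 1) be b a) = true := by decide +kernel

theorem c2 : chkR 55 [5, 5, 10, 8, 6] [false, true, false, false, false] (fL U2 (.v 1) be b a a')
    (fR U2 (.v 1) be b a) = true := by decide +kernel

theorem c3 : chkR 37 [5, 5, 6, 1, 5] [true, true, false, false, false] (gL (.v 0) (.v 1) be a a')
    (gR (.v 0) (.v 1) be a) = true := by decide +kernel

/-- the point -/
def pt (t W k g al : ℝ) : ℕ → ℝ
  | 0 => t
  | 1 => W
  | 2 => k
  | 3 => g
  | 4 => al
  | _ => 0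

theorem pt_nonneg {t W k g al : ℝ} (h0 : 0 ≤ t) (h1 : 0 ≤ W) (h2 : 0 ≤ k) (h3 : 0 ≤ g) (h4 : 0 ≤ al) :
    ∀ i, 0 ≤ pt t W k g al i
  | 0 => h0
  | 1 => h1
  | 2 => h2
  | 3 => h3
  | 4 => h4
  | _ + 5 => le_refl _

/-- the real inequality -/
def Ineq (U W be b a a' : ℝ) : Prop :=
  U * (b + a * (b + be * U + W) / (be + (b + be * U + W))) <
  (U * a' + a * (a * (b + be * W) / (be + (b + be * W)))) *
    (b + U + be * ((U + a * (a * (b + be * W) / (be + (b + be * W)))) /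
      (b + be * (a * (b + be * U + W) / (be + (b + be * U + W))) + a)))

theorem ineq_zero {U W be' a'' : ℝ} (hU : 0 < U) (hW : 0 < W) (hbe : 2 ≤ be') (ha : 0 < a'') (ha' : a'' ≤ 9 / 20) :
    Ineq U W be' 0 a'' (1 - a'') := by
  obtain ⟨k, hk, hk0⟩ : ∃ k, be' = 2 * (1 + k) ∧ 0 ≤ k := ⟨be' / 2 - 1, by ring, by linarith⟩
  obtain ⟨al, hal, hal0⟩ : ∃ al, a'' = 9 / (20 * (1 + al)) ∧ 0 ≤ al := by
    refine ⟨9 / (20 * a'') - 1, ?_, ?_⟩
    · have := ha.ne'
      field_simp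
      ring
    · have : 1 ≤ 9 / (20 * a'') := by
        rw [le_div_iff₀ (by positivity)]
        linarith
      linarith
  have hal1 : 1 - a'' = (11 + 20 * al) / (20 * (1 + al)) := by
    rw [hal]
    have : (1 + al) ≠ 0 := by positivity
    field_simp
    ring
  have h := lt_of_chkR c3 (pt U W k 0 al) (pt_nonneg hU.le hW.le hk0 le_rfl hal0) (by
    intro i hi
    match i with
    | 0 => exact hU
    | 1 => exact hW
    | 2 => simp at hi
    | 3 => simp at hi
    | 4 => simp at hi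
    | i + 5 => simp at hi)
  have e1 : be.ev (pt U W k 0 al) = be' := by
    rw [hk]
    show ((2 : ℕ) : ℝ) * (((1 : ℕ) : ℝ) + k) = _
    norm_num
  have e2 : a.ev (pt U W k 0 al) = a'' := by
    rw [hal]
    show ((9 : ℕ) : ℝ) / (((20 : ℕ) : ℝ) * (((1 : ℕ) : ℝ) + al)) = _
    norm_num
  have e3 : a'.ev (pt U W k 0 al) = 1 - a'' := by
    rw [hal1]
    show (((11 : ℕ) : ℝ) + ((20 : ℕ) : ℝ) * al) / (((20 : ℕ) : ℝ) * (((1 : ℕ) : ℝ) + al)) = _
    norm_num
  have e4 : (RE.v 0).ev (pt U W k 0 al) = U := rfl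
  have e5 : (RE.v 1).ev (pt U W k 0 al) = W := rfl
  simp only [gL, gR, RE.ev_add, RE.ev_mul, RE.ev_div, e1, e2, e3, e4, e5] at h
  unfold Ineq
  simp only [zero_add]
  exact h

theorem ineq {U W be' b' a'' : ℝ} (hU : 0 < U) (hW : 0 < W) (hbe : 2 ≤ be') (hb : 0 < b') (hb' : b' ≤ 1)
    (ha : 0 < a'') (ha' : a'' ≤ 9 / 20) : Ineq U W be' b' a'' (1 - a'') := by
  obtain ⟨k, hk, hk0⟩ : ∃ k, be' = 2 * (1 + k) ∧ 0 ≤ k := ⟨be' / 2 - 1, by ring, by linarith⟩
  obtain ⟨al, hal, hal0⟩ : ∃ al, a'' = 9 / (20 * (1 + al)) ∧ 0 ≤ al := by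
    refine ⟨9 / (20 * a'') - 1, ?_, ?_⟩
    · have := ha.ne'
      field_simp
      ring
    · have : 1 ≤ 9 / (20 * a'') := by
        rw [le_div_iff₀ (by positivity)]
        linarith
      linarith
  have hal1 : 1 - a'' = (11 + 20 * al) / (20 * (1 + al)) := by
    rw [hal]
    have : (1 + al) ≠ 0 := by positivity
    field_simp
    ring
  obtain ⟨g, hg, hg0⟩ : ∃ g, b' = 1 / (1 + g) ∧ 0 ≤ g := by
    refine ⟨1 / b' - 1, ?_, ?_⟩
    · have := hb.ne'
      field_simp
      ring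
    · have : 1 ≤ 1 / b' := by
        rw [le_div_iff₀ hb]
        linarith
      linarith
  have hk1 : 0 < 1 + k := by positivity
  obtain ⟨u, hu, hu0⟩ : ∃ u, U = a'' * b' * u / (1 + k) ∧ 0 < u := by
    refine ⟨U * (1 + k) / (a'' * b'), ?_, by positivity⟩
    have := ha.ne'
    have := hb.ne'
    have := hk1.ne'
    field_simp
  have hp : ∀ t : ℝ, ∀ i, [false, true, false, false, false].getD i false = true → 0 < pt t W k g al i := by
    intro t i hi
    match i with
    | 0 => simp at hi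
    | 1 => exact hW
    | 2 => simp at hi
    | 3 => simp at hi
    | 4 => simp at hi
    | i + 5 => simp at hi
  have e1 : ∀ t, be.ev (pt t W k g al) = be' := fun t => by
    rw [hk]
    show ((2 : ℕ) : ℝ) * (((1 : ℕ) : ℝ) + k) = _
    norm_num
  have e2 : ∀ t, a.ev (pt t W k g al) = a'' := fun t => by
    rw [hal]
    show ((9 : ℕ) : ℝ) / (((20 : ℕ) : ℝ) * (((1 : ℕ) : ℝ) + al)) = _
    norm_num
  have e3 : ∀ t, a'.ev (pt t W k g al) = 1 - a'' := fun t => by
    rw [hal1]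
    show (((11 : ℕ) : ℝ) + ((20 : ℕ) : ℝ) * al) / (((20 : ℕ) : ℝ) * (((1 : ℕ) : ℝ) + al)) = _
    norm_num
  have e5 : ∀ t, (RE.v 1).ev (pt t W k g al) = W := fun t => rfl
  have e6 : ∀ t, b.ev (pt t W k g al) = b' := fun t => by
    rw [hg]
    show ((1 : ℕ) : ℝ) / (((1 : ℕ) : ℝ) + g) = _
    norm_num
  rcases le_total 1 u with h1 | h1
  · have h := lt_of_chkR c1 (pt (u - 1) W k g al) (pt_nonneg (by linarith) hW.le hk0 hg0 hal0) (hp _)
    have e4 : U1.ev (pt (u - 1) W k g al) = U := by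
      simp only [U1, RE.ev_mul, RE.ev_div, e2, e6]
      rw [hu]
      show a'' * b' * (((1 : ℕ) : ℝ) + (u - 1)) / (((1 : ℕ) : ℝ) + k) = _
      norm_num
    simp only [fL, fR, RE.ev_add, RE.ev_mul, RE.ev_div, e1, e2, e3, e4, e5, e6] at h
    exact h
  · have ht : 0 ≤ 1 / u - 1 := by
      have : 1 ≤ 1 / u := by
        rw [le_div_iff₀ hu0]
        linarith
      linarith
    have h := lt_of_chkR c2 (pt (1 / u - 1) W k g al) (pt_nonneg ht hW.le hk0 hg0 hal0) (hp _)
    have e4 : U2.ev (pt (1 / u - 1) W k g al) = U := by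
      simp only [U2, RE.ev_mul, RE.ev_div, e2, e6]
      rw [hu]
      show a'' * b' * (((1 : ℕ) : ℝ) / (((1 : ℕ) : ℝ) + (1 / u - 1))) / (((1 : ℕ) : ℝ) + k) = _
      norm_num
    simp only [fL, fR, RE.ev_add, RE.ev_mul, RE.ev_div, e1, e2, e3, e4, e5, e6] at h
    exact h

/-- **region F2** -/
theorem regF2 : RegF2 := by
  intro a0 a b0 b1 p q ha0 ha ha' hb0 hb0' hb1 _ h
  have hU := h.pp 2
  have hW := h.pp 3
  have hv := h.pp 1
  have hR := h.pp 4
  have hq0 := h.qp 0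
  have hy := h.qp 1
  have hz := h.qp 2
  have e1 := h.e2 1
  have f0 := h.e3 0
  have f1 := h.e3 1
  have f2 := h.e3 2
  norm_num at e1 f0 f1 f2
  have hbp : 0 < b1 := by linarith
  -- the value of `y`
  have hE2 : 0 < b0 + b1 * p 2 + p 3 := by positivity
  have hyv : q 1 = a * (b0 + b1 * p 2 + p 3) / (b1 + (b0 + b1 * p 2 + p 3)) := by
    rw [eq_div_iff (by positivity)]
    exact f1
  -- the bounds of `z`
  set zm : ℝ := a * (b0 + b1 * p 3) / (b1 + (b0 + b1 * p 3)) with hzm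
  have hzm0 : 0 < zm := by positivity
  have hz1 : zm ≤ q 2 := by
    have h1 : q 2 = a * (b0 + b1 * p 3 + p 4) / (b1 + (b0 + b1 * p 3 + p 4)) := by
      rw [eq_div_iff (by positivity)]
      exact f2
    rw [h1, hzm, div_le_div_iff₀ (by positivity) (by positivity)]
    have h2 : 0 ≤ a * (b1 * p 4) := by positivity
    nlinarith
  have hz2 : q 2 ≤ a := by
    have h1 : q 2 * b1 + q 2 * (b0 + b1 * p 3 + p 4) = a * (b0 + b1 * p 3 + p 4) := by linarith
    have h2 : 0 < b0 + b1 * p 3 + p 4 := by positivity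
    by_contra hc
    push Not at hc
    have h3 := mul_lt_mul_of_pos_right hc h2
    have h4 := mul_pos hz hbp
    linarith
  -- the bound of `v`
  have hvb : (p 2 + a * zm) / (b0 + b1 * q 1 + a) ≤ p 1 := by
    rw [div_le_iff₀ (by positivity)]
    have h1 := mul_le_mul_of_nonneg_left hz1 ha.le
    have h2 := mul_le_mul_of_nonneg_left (show b0 + b1 * q 1 + q 2 ≤ b0 + b1 * q 1 + a by linarith) hv.le
    linarith
  have key : Ineq (p 2) (p 3) b1 b0 a (1 - a) := by
    rcases hb0.eq_or_lt with h1 | h1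
    · rw [← h1]
      exact ineq_zero hU hW hb1 ha ha'
    · exact ineq hU hW hb1 h1 hb0'.le ha ha'
  unfold Ineq at key
  rw [← hyv, ← hzm] at key
  have hE1 : b0 + p 2 + b1 * ((p 2 + a * zm) / (b0 + b1 * q 1 + a)) ≤ b0 + b1 * p 1 + p 2 := by
    have := mul_le_mul_of_nonneg_left hvb hbp.le
    linarith
  have hM : p 2 * (1 - a) + a * zm ≤ a0 + p 2 * (1 - a) + a * q 2 := by
    have := mul_le_mul_of_nonneg_left hz1 ha.le
    linarith
  have hM0 : 0 ≤ p 2 * (1 - a) + a * zm := by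
    have : 0 ≤ p 2 * (1 - a) := mul_nonneg hU.le (by linarith)
    have := mul_pos ha hzm0
    linarith
  have hE10 : 0 < b0 + b1 * p 1 + p 2 := by positivity
  have k1 := mul_le_mul hM hE1 (by positivity) (hM0.trans hM)
  -- `β q₀ ≤ a E`
  have hq : b1 * q 0 ≤ a * (b0 + b1 * p 1 + p 2) := by
    have h1 := mul_pos hq0 hE10
    linarith
  have k2 := mul_le_mul_of_nonneg_left hq hU.le
  linarith

end Pool.Agent.H4.RD4.F2
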