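import Pool.Agent.H4.RD4.F2

/-!
# Family I of the mod three family, region F3

`U q₀ < v y E` for `β ≥ 2`, `9/20 ≤ a ≤ 1`. With `q₀ = a E / (β + E)` this is `a U < v y (β + E)`, `E = b + U + β v`. Here
`v ≥ V z`, `V z = (U + a z) / (b + β y + z)`, which is monotone in `z` (in one of the two directions), so that one of the ends
`z = a (b + β W) / (β + b + β W)`, `z = a` gives a lower bound of `v`. The two inequalities have natural coefficients in
`β = 2 (1 + k)`, `b = 1 / (1 + g)`, `a = (9 + 20 al) / (20 (1 + al))`, and `U = b u / (1 + k)`, `u = 1 + t` or `u = 1 / (1 + t)`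
at the lower end (helper43).
-/

namespace Pool.Agent.H4.RD4.F3

open Pool.Agent.H43.K4 Pool.Agent.H30.M3
open Pool.Agent.H4.RD4.F2 (pt pt_nonneg be b)

def yy (U W be b a : RE) : RE := a * (b + be * U + W) / (be + (b + be * U + W))
def zz (W be b a : RE) : RE := a * (b + be * W) / (be + (b + be * W))
def VV (U W be b a z : RE) : RE := (U + a * z) / (b + be * yy U W be b a + z)
def fL (U W be b a z : RE) : RE := VV U W be b a z * yy U W be b a * (be + (b + U + be * VV U W be b a z))
def fR (U a : RE) : RE := a * U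
def y0 (U W be a : RE) : RE := a * (be * U + W) / (be + (be * U + W))
def z0 (W be a : RE) : RE := a * (be * W) / (be + (be * W))
def V0 (U W be a z : RE) : RE := (U + a * z) / (be * y0 U W be a + z)
def gL (U W be a z : RE) : RE := V0 U W be a z * y0 U W be a * (be + (U + be * V0 U W be a z))

def a1 : RE := (9 + 20 * .v 4) / (20 * (1 + .v 4))
def a2 : RE := (9 * .v 4 + 20) / (20 * (1 + .v 4))
def U1 : RE := b * (1 + .v 0) / (1 + .v 2)
def U2 : RE := b * (1 / (1 + .v 0)) / (1 + .v 2)

/-- the five checks -/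
structure Chks (A : RE) : Prop where
  c1 : chkR 58 [6, 6, 11, 9, 6] [false, true, false, false, false] (fL U1 (.v 1) be b A (zz (.v 1) be b A))
    (fR U1 A) = true
  c2 : chkR 60 [6, 6, 11, 9, 6] [false, true, false, false, false] (fL U2 (.v 1) be b A (zz (.v 1) be b A))
    (fR U2 A) = true
  c3 : chkR 48 [6, 4, 6, 7, 6] [true, true, false, false, false] (fL (.v 0) (.v 1) be b A A) (fR (.v 0) A) = true
  c4 : chkR 47 [6, 6, 8, 1, 6] [true, true, false, false, false] (gL (.v 0) (.v 1) be A (z0 (.v 1) be A))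
    (fR (.v 0) A) = true
  c5 : chkR 41 [6, 4, 6, 1, 6] [true, true, false, false, false] (gL (.v 0) (.v 1) be A A) (fR (.v 0) A) = true

theorem chks1 : Chks a1 where
  c1 := by decide +kernel
  c2 := by decide +kernel
  c3 := by decide +kernel
  c4 := by decide +kernel
  c5 := by decide +kernel

theorem chks2 : Chks a2 where
  c1 := by decide +kernel
  c2 := by decide +kernel
  c3 := by decide +kernel
  c4 := by decide +kernel
  c5 := by decide +kernel

/-- the value of `y` -/
noncomputable def yr (U W be b a : ℝ) : ℝ := a * (b + be * U + W) / (be + (b + be * U + W))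

/-- the lower end -/
noncomputable def zr (W be b a : ℝ) : ℝ := a * (b + be * W) / (be + (b + be * W))

/-- the lower bound of `v` -/
noncomputable def Vr (U W be b a z : ℝ) : ℝ := (U + a * z) / (b + be * yr U W be b a + z)

/-- the real inequality -/
def Ineq (U W be b a z : ℝ) : Prop :=
  a * U < Vr U W be b a z * yr U W be b a * (be + (b + U + be * Vr U W be b a z))

theorem hp2 {U W : ℝ} (hU : 0 < U) (hW : 0 < W) (k g al : ℝ) :
    ∀ i, [true, true, false, false, false].getD i false = true → 0 < pt U W k g al i := by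
  intro i hi
  match i with
  | 0 => exact hU
  | 1 => exact hW
  | 2 => simp at hi
  | 3 => simp at hi
  | 4 => simp at hi
  | i + 5 => simp at hi

theorem hp1 {W : ℝ} (hW : 0 < W) (t k g al : ℝ) :
    ∀ i, [false, true, false, false, false].getD i false = true → 0 < pt t W k g al i := by
  intro i hi
  match i with
  | 0 => simp at hi
  | 1 => exact hW
  | 2 => simp at hi
  | 3 => simp at hi
  | 4 => simp at hi
  | i + 5 => simp at hi

/-- both ends, from the checks -/
theorem both {A : RE} (c : Chks A) {U W be' b' a' al : ℝ} (hal : 0 ≤ al)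
    (hA : ∀ t W k g, A.ev (pt t W k g al) = a') (hU : 0 < U) (hW : 0 < W) (hbe : 2 ≤ be') (hb : 0 ≤ b') (hb' : b' ≤ 1) :
    Ineq U W be' b' a' (zr W be' b' a') ∧ Ineq U W be' b' a' a' := by
  obtain ⟨k, hk, hk0⟩ : ∃ k, be' = 2 * (1 + k) ∧ 0 ≤ k := ⟨be' / 2 - 1, by ring, by linarith⟩
  have e1 : ∀ t W g al, be.ev (pt t W k g al) = be' := fun t W g al => by
    rw [hk]
    show ((2 : ℕ) : ℝ) * (((1 : ℕ) : ℝ) + k) = _
    norm_num
  have e4 : ∀ t W k g al, (RE.v 0).ev (pt t W k g al) = t := fun t W k g al => rfl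
  have e5 : ∀ t W k g al, (RE.v 1).ev (pt t W k g al) = W := fun t W k g al => rfl
  rcases hb.eq_or_lt with h0 | h0
  · rw [← h0]
    constructor
    · have h := lt_of_chkR c.c4 (pt U W k 0 al) (pt_nonneg hU.le hW.le hk0 le_rfl hal) (hp2 hU hW _ _ _)
      simp only [gL, fR, V0, y0, z0, RE.ev_add, RE.ev_mul, RE.ev_div, e1, e4, e5, hA] at h
      unfold Ineq Vr yr zr
      simp only [zero_add]
      exact h
    · have h := lt_of_chkR c.c5 (pt U W k 0 al) (pt_nonneg hU.le hW.le hk0 le_rfl hal) (hp2 hU hW _ _ _)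
      simp only [gL, fR, V0, y0, RE.ev_add, RE.ev_mul, RE.ev_div, e1, e4, e5, hA] at h
      unfold Ineq Vr yr
      simp only [zero_add]
      exact h
  obtain ⟨g, hg, hg0⟩ : ∃ g, b' = 1 / (1 + g) ∧ 0 ≤ g := by
    refine ⟨1 / b' - 1, ?_, ?_⟩
    · have := h0.ne'
      field_simp
      ring
    · have : 1 ≤ 1 / b' := by
        rw [le_div_iff₀ h0]
        linarith
      linarith
  have e6 : ∀ t W k al, b.ev (pt t W k g al) = b' := fun t W k al => by
    rw [hg]
    show ((1 : ℕ) : ℝ) / (((1 : ℕ) : ℝ) + g) = _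
    norm_num
  refine ⟨?_, ?_⟩
  · have hk1 : 0 < 1 + k := by positivity
    obtain ⟨u, hu, hu0⟩ : ∃ u, U = b' * u / (1 + k) ∧ 0 < u := by
      refine ⟨U * (1 + k) / b', ?_, by positivity⟩
      have := h0.ne'
      have := hk1.ne'
      field_simp
    rcases le_total 1 u with h1 | h1
    · have h := lt_of_chkR c.c1 (pt (u - 1) W k g al) (pt_nonneg (by linarith) hW.le hk0 hg0 hal) (hp1 hW _ _ _ _)
      have e7 : U1.ev (pt (u - 1) W k g al) = U := by
        simp only [U1, RE.ev_mul, RE.ev_div, e6]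
        rw [hu]
        show b' * (((1 : ℕ) : ℝ) + (u - 1)) / (((1 : ℕ) : ℝ) + k) = _
        norm_num
      simp only [fL, fR, VV, yy, zz, RE.ev_add, RE.ev_mul, RE.ev_div, e1, e5, e6, e7, hA] at h
      exact h
    · have ht : 0 ≤ 1 / u - 1 := by
        have : 1 ≤ 1 / u := by
          rw [le_div_iff₀ hu0]
          linarith
        linarith
      have h := lt_of_chkR c.c2 (pt (1 / u - 1) W k g al) (pt_nonneg ht hW.le hk0 hg0 hal) (hp1 hW _ _ _ _)
      have e7 : U2.ev (pt (1 / u - 1) W k g al) = U := by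
        simp only [U2, RE.ev_mul, RE.ev_div, e6]
        rw [hu]
        show b' * (((1 : ℕ) : ℝ) / (((1 : ℕ) : ℝ) + (1 / u - 1))) / (((1 : ℕ) : ℝ) + k) = _
        norm_num
      simp only [fL, fR, VV, yy, zz, RE.ev_add, RE.ev_mul, RE.ev_div, e1, e5, e6, e7, hA] at h
      exact h
  · have h := lt_of_chkR c.c3 (pt U W k g al) (pt_nonneg hU.le hW.le hk0 hg0 hal) (hp2 hU hW _ _ _)
    simp only [fL, fR, VV, yy, RE.ev_add, RE.ev_mul, RE.ev_div, e1, e4, e5, e6, hA] at h
    exact h

theorem ineqs {U W be' b' a' : ℝ} (hU : 0 < U) (hW : 0 < W) (hbe : 2 ≤ be') (hb : 0 ≤ b') (hb' : b' ≤ 1)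
    (ha : 9 / 20 ≤ a') (ha' : a' ≤ 1) : Ineq U W be' b' a' (zr W be' b' a') ∧ Ineq U W be' b' a' a' := by
  rcases ha.eq_or_lt with h | h
  · refine both chks1 (al := 0) le_rfl (fun t W k g => ?_) hU hW hbe hb hb'
    rw [← h]
    show (((9 : ℕ) : ℝ) + ((20 : ℕ) : ℝ) * 0) / (((20 : ℕ) : ℝ) * (((1 : ℕ) : ℝ) + 0)) = _
    norm_num
  · have h1 : 0 < 20 * a' - 9 := by linarith
    refine both chks2 (al := (20 - 20 * a') / (20 * a' - 9)) (div_nonneg (by linarith) h1.le)
      (fun t W k g => ?_) hU hW hbe hb hb'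
    show (((9 : ℕ) : ℝ) * ((20 - 20 * a') / (20 * a' - 9)) + ((20 : ℕ) : ℝ)) /
      (((20 : ℕ) : ℝ) * (((1 : ℕ) : ℝ) + (20 - 20 * a') / (20 * a' - 9))) = _
    have h2 := h1.ne'
    have h3 : (1 : ℝ) + (20 - 20 * a') / (20 * a' - 9) = 11 / (20 * a' - 9) := by
      field_simp
      ring
    push_cast
    rw [h3]
    field_simp
    ring

/-- **region F3** -/
theorem regF3 : RegF3 := by
  intro a0 a b0 b1 p q ha0 ha ha' hb0 hb0' hb1 h
  have hU := h.pp 2
  have hW := h.pp 3
  have hv := h.pp 1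
  have hR := h.pp 4
  have hq0 := h.qp 0
  have hy := h.qp 1
  have hz := h.qp 2
  have e1 := h.e2 1
  have f0 := h.e3 0
  have f1 := h.e3 1
  have f2 := h.e3 2
  norm_num at e1 f0 f1 f2
  have hbp : 0 < b1 := by linarith
  have hap : 0 < a := by linarith
  have hyv : q 1 = yr (p 2) (p 3) b1 b0 a := by
    unfold yr
    rw [eq_div_iff (by positivity)]
    exact f1
  set zm : ℝ := zr (p 3) b1 b0 a with hzm
  have hzm0 : 0 < zm := by
    rw [hzm]
    unfold zr
    positivity
  have hz1 : zm ≤ q 2 := by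
    have h1 : q 2 = a * (b0 + b1 * p 3 + p 4) / (b1 + (b0 + b1 * p 3 + p 4)) := by
      rw [eq_div_iff (by positivity)]
      exact f2
    rw [h1, hzm]
    unfold zr
    rw [div_le_div_iff₀ (by positivity) (by positivity)]
    have h2 : 0 ≤ a * (b1 * p 4) := by positivity
    nlinarith
  have hz2 : q 2 ≤ a := by
    have h1 : q 2 * b1 + q 2 * (b0 + b1 * p 3 + p 4) = a * (b0 + b1 * p 3 + p 4) := by linarith
    have h2 : 0 < b0 + b1 * p 3 + p 4 := by positivity
    by_contra hc
    push Not at hc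
    have h3 := mul_lt_mul_of_pos_right hc h2
    have h4 := mul_pos hz hbp
    linarith
  have hE10 : 0 < b0 + b1 * p 1 + p 2 := by positivity
  -- the lower bound of `v` at one of the ends
  have main : a * p 2 < p 1 * q 1 * (b1 + (b0 + b1 * p 1 + p 2)) := by
    obtain ⟨i1, i2⟩ := ineqs hU hW hb1 hb0 hb0'.le ha ha'
    have fin : ∀ z, 0 < z → Ineq (p 2) (p 3) b1 b0 a z →
        (p 2 + a * z) * (b0 + b1 * q 1 + q 2) ≤ (p 2 + a * q 2) * (b0 + b1 * q 1 + z) →
        a * p 2 < p 1 * q 1 * (b1 + (b0 + b1 * p 1 + p 2)) := by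
      intro z hz0 hi hle
      have hVv : Vr (p 2) (p 3) b1 b0 a z ≤ p 1 := by
        unfold Vr
        rw [← hyv, div_le_iff₀ (by positivity)]
        have hc : 0 < b0 + b1 * q 1 + q 2 := by positivity
        have h1 : (p 2 + a * q 2) * (b0 + b1 * q 1 + z) ≤ p 1 * (b0 + b1 * q 1 + q 2) * (b0 + b1 * q 1 + z) := by
          refine mul_le_mul_of_nonneg_right ?_ (by positivity)
          linarith
        have h2 : (p 2 + a * z) * (b0 + b1 * q 1 + q 2) ≤ (p 1 * (b0 + b1 * q 1 + z)) * (b0 + b1 * q 1 + q 2) := by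
          linarith
        exact le_of_mul_le_mul_right h2 hc
      have hV0 : 0 < Vr (p 2) (p 3) b1 b0 a z := by
        unfold Vr
        rw [← hyv]
        positivity
      unfold Ineq at hi
      rw [← hyv] at hi
      refine hi.trans_le ?_
      have h1 := mul_le_mul_of_nonneg_right hVv hy.le
      have h2 := mul_le_mul_of_nonneg_left hVv hbp.le
      refine mul_le_mul h1 (by linarith) (by positivity) (by positivity)
    rcases le_total (p 2) (a * (b0 + b1 * q 1)) with h1 | h1
    · refine fin zm hzm0 i1 ?_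
      have := mul_nonneg (sub_nonneg.2 h1) (sub_nonneg.2 hz1)
      nlinarith
    · refine fin a hap i2 ?_
      have := mul_nonneg (sub_nonneg.2 h1) (sub_nonneg.2 hz2)
      nlinarith
  have h1 : p 2 * q 0 * (b1 + (b0 + b1 * p 1 + p 2)) = a * p 2 * (b0 + b1 * p 1 + p 2) := by
    have : p 2 * q 0 * (b1 + (b0 + b1 * p 1 + p 2)) = p 2 * (q 0 * (b1 + (b0 + b1 * p 1 + p 2))) := by ring
    rw [this, f0]
    ring
  have h2 := mul_lt_mul_of_pos_right main hE10
  have h3 : p 2 * q 0 * (b1 + (b0 + b1 * p 1 + p 2)) <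
      p 1 * q 1 * (b0 + b1 * p 1 + p 2) * (b1 + (b0 + b1 * p 1 + p 2)) := by
    rw [h1]
    linarith
  exact lt_of_mul_lt_mul_right h3 (by positivity)

end Pool.Agent.H4.RD4.F3
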