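import Pool.Agent.H4.RD4.Chk

/-! # Certificates for special cases of order four -/

set_option maxRecDepth 20000

namespace Pool.Agent.H4.RD4.E01

open Pool.Agent.H50.Rdb
open Pool.Agent.H81.RDE (ESB caseOf)

def t_5_28 : T := (.keep [0,1,2] (.node (.cons (.keep [2,4,5,6] (.node (.cons (.keep [5,6,7,8,9] (.node (.cons (.leaf 1 [(2,1)]) (.cons (.leaf 2 [(6,1),(8,1)]) (.cons (.keep [6,7,8,9,10] (.node (.cons (.leaf 1 [(4,1),(2,1)]) (.cons (.keep [0,6,7,9] (.node (.cons (.leaf 1 [(2,1)]) (.cons (.leaf 1 [(2,1)]) (.cons (.leaf 1 [(2,1)]) (.cons (.leaf 1 [(9,1)]) (.cons (.leaf 1 [(6,1),(9,1)]) (.cons (.leaf 1 [(0,1),(9,1)]) .nil)))))))) (.cons (.keep [0,4,6,7,9] (.node (.cons (.leaf 1 [(2,1)]) (.cons (.leaf 1 [(2,1)]) (.cons (.leaf 1 [(2,1)]) (.cons (.leaf 1 [(10,1)]) (.cons (.leaf 1 [(6,1),(10,1)])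 (.cons (.leaf 1 [(0,1),(10,1)]) .nil)))))))) (.cons (.leaf 1 [(4,1),(6,1)]) (.cons (.leaf 1 [(6,1)]) (.cons (.leaf 1 [(4,1),(6,1)]) .nil)))))))) (.cons (.leaf 1 []) (.cons (.leaf 2 [(6,1),(1,1),(8,1)]) (.cons (.leaf 1 [(1,1),(9,1)]) .nil)))))))) (.cons (.keep [5,6,7,8,9] (.node (.cons (.leaf 1 [(2,1)]) (.cons (.leaf 1 [(6,1),(2,1)]) (.cons (.keep [6,7,8,9,10] (.node (.cons (.leaf 1 [(4,1),(2,1)]) (.cons (.keep [0,6,7,9,10] (.node (.cons (.leaf 1 [(2,1)]) (.cons (.leaf 1 [(2,1)]) (.cons (.leaf 1 [(2,1)]) (.cons (.leaf 1 [(9,1)]) (.cons (.leaf 1 [(6,1),(9,1)]) (.cons (.leaf 1 [(0,1),(9,1)]) .nil)))))))) (.cons (.keep [0,4,6,7,9,10] (.node (.cons (.leaf 1 [(2,1)]) (.cons (.leaf 1 [(2,1)]) (.cons (.leaf 1 [(2,1)]) (.cons (.leaf 1 [(10,1)]) (.cons (.leaf 1 [(6,1),(10,1)]) (.cons (.leaf 1 [(0,1),(10,1)])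 .nil)))))))) (.cons (.leaf 1 [(8,1)]) (.cons (.leaf 1 [(6,1),(1,1),(9,1)]) (.cons (.leaf 1 [(1,1),(9,1),(6,1)]) .nil)))))))) (.cons (.leaf 1 []) (.cons (.leaf 1 [(6,1)]) (.cons (.leaf 1 [(1,1),(9,1)]) .nil)))))))) (.cons (.keep [0,7,8,9] (.node (.cons (.leaf 1 [(2,1)]) (.cons (.keep [0,7,8,9] (.node (.cons (.leaf 1 [(2,1)]) (.cons (.leaf 1 [(2,1)]) (.cons (.leaf 1 [(2,1)]) (.cons (.leaf 1 [(7,1)]) (.cons (.leaf 1 [(6,1),(7,1)]) (.cons (.leaf 1 [(0,1),(7,1)]) .nil)))))))) (.cons (.keep [4,7,8,9] (.node (.cons (.leaf 1 [(4,1),(2,1)]) (.cons (.keep [0,2,8,9] (.node (.cons (.leaf 1 [(2,1)]) (.cons (.leaf 1 [(2,1)]) (.cons (.leaf 1 [(2,1)]) (.cons (.leaf 1 [(8,1)]) (.cons (.leaf 1 [(6,1),(8,1)]) (.cons (.leaf 1 [(0,1),(8,1)]) .nil)))))))) (.cons (.keep [0,2,4,8,9] (.node (.cons (.leaf 1 [(2,1)])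 (.cons (.leaf 1 [(2,1)]) (.cons (.leaf 1 [(2,1)]) (.cons (.leaf 1 [(9,1)]) (.cons (.leaf 1 [(6,1),(9,1)]) (.cons (.leaf 1 [(0,1),(9,1)]) .nil)))))))) (.cons (.leaf 1 [(7,1)]) (.cons (.keep [0,1,7,8,9] (.node (.cons (.leaf 1 [(2,1)]) (.cons (.leaf 1 [(2,1)]) (.cons (.leaf 1 [(2,1)]) (.cons (.leaf 1 [(9,1)]) (.cons (.leaf 1 [(6,1),(9,1)]) (.cons (.leaf 1 [(0,1),(9,1)]) .nil)))))))) (.cons (.keep [0,1,7,8,9] (.node (.cons (.leaf 1 [(2,1)]) (.cons (.leaf 1 [(2,1)]) (.cons (.leaf 1 [(2,1)]) (.cons (.leaf 1 [(9,1)]) (.cons (.leaf 1 [(6,1),(9,1)]) (.cons (.leaf 1 [(0,1),(9,1)]) .nil)))))))) .nil)))))))) (.cons (.leaf 1 []) (.cons (.leaf 1 [(1,1),(8,1)]) (.cons (.leaf 1 [(1,1),(8,1)]) .nil)))))))) (.cons (.leaf 1 [(7,1),(1,1)]) (.cons (.leaf 1 [(7,1),(1,1)]) (.cons (.leaf 1 [(7,1),(1,1)]) .nil))))))))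 (.cons (.keep [3,5,6,8] (.node (.cons (.keep [2,4,5,6] (.node (.cons (.leaf 1 [(2,1),(9,1)]) (.cons (.leaf 2 [(8,1),(9,1)]) (.cons (.keep [0,6,7,8,9] (.node (.cons (.leaf 1 [(2,1)]) (.cons (.keep [0,7,8,9] (.node (.cons (.leaf 1 [(2,1)]) (.cons (.leaf 1 [(2,1)]) (.cons (.leaf 1 [(2,1)]) (.cons (.leaf 1 [(8,1)]) (.cons (.leaf 1 [(6,1),(8,1)]) (.cons (.leaf 1 [(0,1),(8,1)]) .nil)))))))) (.cons (.keep [4,7,8,9,10] (.node (.cons (.leaf 1 [(4,1),(2,1)]) (.cons (.leaf 1 [(10,1),(2,1)]) (.cons (.leaf 1 [(10,1),(2,1)]) (.cons (.leaf 1 [(8,1)]) (.cons (.leaf 1 [(10,1),(8,1)]) (.cons (.leaf 1 [(10,1),(0,1),(8,1)]) .nil)))))))) (.cons (.leaf 1 []) (.cons (.leaf 1 [(1,1),(9,1)]) (.cons (.leaf 1 [(1,1),(9,1)]) .nil)))))))) (.cons (.leaf 1 [(7,1),(1,1)]) (.cons (.leaf 1 [(7,1),(1,1)]) (.cons (.leaf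 1 [(7,1),(1,1)]) .nil)))))))) (.cons (.keep [2,3,5,6,7] (.node (.cons (.leaf 1 [(2,1),(9,1)]) (.cons (.leaf 1 [(2,1),(8,1),(9,1)]) (.cons (.keep [0,6,7,8,9,10] (.node (.cons (.leaf 1 [(2,1)]) (.cons (.keep [0,7,8,9,11] (.node (.cons (.leaf 1 [(2,1)]) (.cons (.leaf 1 [(2,1)]) (.cons (.leaf 1 [(2,1)]) (.cons (.leaf 1 [(10,1)]) (.cons (.leaf 1 [(6,1),(10,1)]) (.cons (.leaf 1 [(0,1),(10,1)]) .nil)))))))) (.cons (.keep [4,7,8,9,10,11] (.node (.cons (.leaf 1 [(4,1),(2,1)]) (.cons (.leaf 1 [(10,1),(2,1)]) (.cons (.leaf 1 [(10,1),(2,1)]) (.cons (.leaf 1 [(11,1)]) (.cons (.leaf 1 [(10,1),(11,1)]) (.cons (.leaf 1 [(10,1),(0,1),(11,1)]) .nil)))))))) (.cons (.leaf 1 []) (.cons (.leaf 1 [(9,1),(1,1),(11,1)]) (.cons (.leaf 1 [(9,1),(1,1),(11,1)]) .nil)))))))) (.cons (.leaf 1 [(9,1)]) (.cons (.leaf 1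 [(8,1),(9,1)]) (.cons (.leaf 1 [(10,1),(1,1)]) .nil)))))))) (.cons (.keep [0,3,6,7] (.node (.cons (.leaf 1 [(2,1),(8,1)]) (.cons (.keep [5,6,7,8,9] (.node (.cons (.leaf 1 [(2,1)]) (.cons (.leaf 1 [(6,1),(2,1)]) (.cons (.leaf 1 [(9,1),(2,1)]) (.cons (.leaf 1 []) (.cons (.leaf 1 [(6,1)]) (.cons (.leaf 1 [(9,1),(0,1)]) .nil)))))))) (.cons (.keep [0,6,7,8,9] (.node (.cons (.leaf 1 [(2,1)]) (.cons (.keep [0,2,8,10] (.node (.cons (.leaf 1 [(2,1)]) (.cons (.leaf 1 [(2,1)]) (.cons (.leaf 1 [(2,1)]) (.cons (.leaf 1 [(9,1)]) (.cons (.leaf 1 [(6,1),(9,1)]) (.cons (.leaf 1 [(0,1),(9,1)]) .nil)))))))) (.cons (.keep [2,4,8,9,10] (.node (.cons (.leaf 1 [(4,1),(2,1)]) (.cons (.leaf 1 [(9,1),(2,1)]) (.cons (.leaf 1 [(9,1),(2,1)]) (.cons (.leaf 1 [(10,1)]) (.cons (.leaf 1 [(9,1),(10,1)]) (.cons (.leaf 1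 [(9,1),(0,1),(10,1)]) .nil)))))))) (.cons (.leaf 1 []) (.cons (.keep [1,5,6,8,10] (.node (.cons (.leaf 1 [(6,1),(2,1)]) (.cons (.leaf 1 [(6,1),(2,1)]) (.cons (.leaf 1 [(6,1),(2,1)]) (.cons (.leaf 1 [(10,1)]) (.cons (.leaf 1 [(7,1),(10,1)]) (.cons (.leaf 1 [(6,1),(0,1),(10,1)]) .nil)))))))) (.cons (.keep [0,4,8,9,10] (.node (.cons (.leaf 1 [(9,1),(2,1)]) (.cons (.leaf 1 [(2,1),(9,1)]) (.cons (.leaf 1 [(2,1),(9,1)]) (.cons (.leaf 1 [(10,1)]) (.cons (.leaf 1 [(10,1),(9,1),(6,1)]) (.cons (.leaf 1 [(0,1),(9,1),(10,1)]) .nil)))))))) .nil)))))))) (.cons (.leaf 1 [(8,1)]) (.cons (.leaf 1 [(9,1),(1,1)]) (.cons (.leaf 1 [(9,1),(1,1)]) .nil)))))))) (.cons (.leaf 1 [(1,1)]) (.cons (.leaf 1 [(1,1)]) (.cons (.leaf 1 [(1,1)]) .nil)))))))) (.cons (.keep [0,3,4,6] (.node (.cons (.keep [4,5,6,7,8] (.node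 (.cons (.leaf 2 [(9,1)]) (.cons (.leaf 2 [(7,1),(10,1),(9,1)]) (.cons (.keep [0,3,6,7,9,10] (.node (.cons (.leaf 1 [(2,1),(4,1),(10,1)]) (.cons (.keep [5,6,7,9,10] (.node (.cons (.leaf 1 [(2,1)]) (.cons (.leaf 1 [(6,1),(2,1)]) (.cons (.leaf 1 [(10,1),(2,1)]) (.cons (.leaf 1 []) (.cons (.leaf 1 [(6,1)]) (.cons (.leaf 1 [(10,1),(0,1)]) .nil)))))))) (.cons (.keep [0,6,7,9,10,11] (.node (.cons (.leaf 1 [(2,1)]) (.cons (.leaf 1 [(10,1),(2,1)]) (.cons (.leaf 1 [(10,1),(2,1)]) (.cons (.leaf 1 []) (.cons (.leaf 1 [(10,1),(6,1)]) (.cons (.leaf 1 [(10,1),(0,1)]) .nil)))))))) (.cons (.leaf 1 [(9,1),(4,1),(10,1)]) (.cons (.leaf 1 [(9,1),(10,1)]) (.cons (.leaf 1 [(9,1),(4,1),(10,1)]) .nil)))))))) (.cons (.leaf 1 [(1,1)]) (.cons (.leaf 1 [(1,1)]) (.cons (.leaf 1 [(1,1)]) .nil)))))))) (.cons (.keep [3,5,6,7]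 (.node (.cons (.leaf 2 [(9,1)]) (.cons (.leaf 2 [(7,1),(9,1)]) (.cons (.keep [0,3,6,7,9] (.node (.cons (.leaf 1 [(2,1),(8,1)]) (.cons (.keep [5,6,7,8,9] (.node (.cons (.leaf 1 [(2,1)]) (.cons (.leaf 1 [(6,1),(2,1)]) (.cons (.leaf 1 [(9,1),(2,1)]) (.cons (.leaf 1 []) (.cons (.leaf 1 [(6,1)]) (.cons (.leaf 1 [(9,1),(0,1)]) .nil)))))))) (.cons (.keep [0,6,7,8,9,10] (.node (.cons (.leaf 1 [(2,1)]) (.cons (.leaf 1 [(11,1),(2,1)]) (.cons (.leaf 1 [(11,1),(2,1)]) (.cons (.leaf 1 []) (.cons (.leaf 1 [(11,1),(6,1)]) (.cons (.leaf 1 [(11,1),(0,1)]) .nil)))))))) (.cons (.leaf 1 [(8,1)]) (.cons (.leaf 1 [(9,1),(1,1)]) (.cons (.leaf 1 [(9,1),(1,1)]) .nil)))))))) (.cons (.leaf 1 [(1,1)]) (.cons (.leaf 1 [(1,1)]) (.cons (.leaf 1 [(1,1)]) .nil)))))))) (.cons (.keep [0,4,7,8] (.node (.cons (.leaf 2 [(8,1)])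 (.cons (.keep [3,5,6,8,9] (.node (.cons (.leaf 1 [(2,1),(9,1)]) (.cons (.leaf 1 [(2,1),(9,1)]) (.cons (.leaf 1 [(2,1),(9,1)]) (.cons (.leaf 1 [(10,1)]) (.cons (.leaf 1 [(7,1),(10,1)]) (.cons (.leaf 1 [(0,1),(9,1),(10,1)]) .nil)))))))) (.cons (.keep [0,6,7,8,9] (.node (.cons (.leaf 1 [(2,1),(4,1),(9,1)]) (.cons (.keep [2,5,6,8,9] (.node (.cons (.leaf 1 [(2,1)]) (.cons (.leaf 1 [(7,1),(2,1)]) (.cons (.leaf 1 [(10,1),(2,1)]) (.cons (.leaf 1 []) (.cons (.leaf 1 [(7,1)]) (.cons (.leaf 1 [(10,1),(0,1)]) .nil)))))))) (.cons (.keep [0,2,6,8,9,10] (.node (.cons (.leaf 1 [(2,1)]) (.cons (.leaf 1 [(10,1),(2,1)]) (.cons (.leaf 1 [(10,1),(2,1)]) (.cons (.leaf 1 []) (.cons (.leaf 1 [(10,1),(6,1)]) (.cons (.leaf 1 [(10,1),(0,1)]) .nil)))))))) (.cons (.leaf 1 [(10,1)]) (.cons (.keep [1,5,6,8,10] (.node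 (.cons (.leaf 1 [(2,1)]) (.cons (.leaf 1 [(7,1),(2,1)]) (.cons (.leaf 1 [(6,1),(10,1),(2,1)]) (.cons (.leaf 1 []) (.cons (.leaf 1 [(7,1)]) (.cons (.leaf 1 [(6,1),(10,1),(0,1)]) .nil)))))))) (.cons (.keep [0,1,6,8,9,10] (.node (.cons (.leaf 1 [(2,1)]) (.cons (.leaf 1 [(10,1),(2,1)]) (.cons (.leaf 1 [(10,1),(2,1)]) (.cons (.leaf 1 []) (.cons (.leaf 1 [(10,1),(6,1)]) (.cons (.leaf 1 [(10,1),(0,1)]) .nil)))))))) .nil)))))))) (.cons (.leaf 1 [(1,1)]) (.cons (.leaf 1 [(1,1)]) (.cons (.leaf 1 [(1,1)]) .nil)))))))) (.cons (.leaf 1 [(1,1),(8,1)]) (.cons (.leaf 1 [(1,1),(3,1)]) (.cons (.leaf 1 [(1,1),(8,1)]) .nil)))))))) (.cons (.leaf 1 []) (.cons (.leaf 1 [(3,1)]) (.cons (.leaf 1 [(3,1)]) .nil))))))))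

theorem e_5_28 : ESB (caseOf 4 5 28) := esb_of_ok (t := t_5_28) (by decide +kernel)

def t_5_29 : T := (.keep [0,1,2] (.node (.cons (.leaf 1 []) (.cons (.leaf 1 [(3,1)]) (.cons (.leaf 1 [(3,1)]) (.cons (.leaf 1 [(3,1)]) (.cons (.leaf 1 [(4,1)]) (.cons (.leaf 1 []) (.cons (.leaf 1 [(4,1)]) (.cons (.leaf 1 [(4,1)]) .nil))))))))))

theorem e_5_29 : ESB (caseOf 4 5 29) := esb_of_ok (t := t_5_29) (by decide +kernel)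

def t_5_30 : T := (.keep [0,1,2] (.node (.cons (.keep [4,5,6,7] (.node (.cons (.leaf 2 [(7,1)]) (.cons (.leaf 1 [(2,1)]) (.cons (.leaf 2 [(9,1)]) (.cons (.keep [7,8,9,10] (.node (.cons (.leaf 2 [(5,1),(8,1)]) (.cons (.leaf 1 [(5,1),(2,1)]) (.cons (.keep [0,8,9,10] (.node (.cons (.leaf 1 [(2,1)]) (.cons (.leaf 1 [(2,1)]) (.cons (.leaf 1 [(2,1)]) (.cons (.leaf 1 [(2,1)]) (.cons (.leaf 3 [(8,1),(9,1)]) (.cons (.leaf 1 [(8,1)]) (.cons (.leaf 1 [(7,1),(8,1)]) (.cons (.leaf 1 [(0,1),(8,1)]) .nil)))))))))) (.cons (.keep [0,5,8,9,10] (.node (.cons (.leaf 1 [(2,1)]) (.cons (.leaf 1 [(2,1)]) (.cons (.leaf 1 [(2,1)]) (.cons (.leaf 1 [(2,1)]) (.cons (.leaf 3 [(9,1),(10,1)]) (.cons (.leaf 1 [(9,1)]) (.cons (.leaf 1 [(7,1),(9,1)]) (.cons (.leaf 1 [(0,1),(9,1)]) .nil)))))))))) (.cons (.leaf 2 [(5,1),(8,1)])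 (.cons (.leaf 1 [(7,1)]) (.cons (.leaf 1 [(1,1),(9,1)]) (.cons (.leaf 1 [(1,1),(9,1)]) .nil)))))))))) (.cons (.leaf 2 [(7,1),(1,1)]) (.cons (.leaf 1 []) (.cons (.leaf 1 [(1,1),(8,1)]) (.cons (.leaf 1 [(1,1),(8,1)]) .nil)))))))))) (.cons (.keep [2,3,5,6] (.node (.cons (.leaf 2 [(8,1)]) (.cons (.leaf 1 [(2,1),(8,1)]) (.cons (.leaf 2 [(10,1),(8,1)]) (.cons (.keep [0,7,8,9,10] (.node (.cons (.leaf 2 [(10,1)]) (.cons (.leaf 1 [(2,1)]) (.cons (.keep [0,8,10,11] (.node (.cons (.leaf 1 [(2,1)]) (.cons (.leaf 1 [(2,1)]) (.cons (.leaf 1 [(2,1)]) (.cons (.leaf 1 [(2,1)]) (.cons (.leaf 3 [(9,1),(10,1)]) (.cons (.leaf 1 [(9,1)]) (.cons (.leaf 1 [(7,1),(9,1)]) (.cons (.leaf 1 [(0,1),(9,1)]) .nil)))))))))) (.cons (.keep [5,8,9,10,11] (.node (.cons (.leaf 1 [(9,1),(2,1)]) (.cons (.leaf 1 [(5,1),(2,1)])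 (.cons (.leaf 1 [(9,1),(2,1)]) (.cons (.leaf 1 [(9,1),(2,1)]) (.cons (.leaf 3 [(10,1),(9,1),(11,1)]) (.cons (.leaf 1 [(10,1)]) (.cons (.leaf 1 [(9,1),(10,1)]) (.cons (.leaf 1 [(9,1),(0,1),(10,1)]) .nil)))))))))) (.cons (.leaf 2 [(10,1),(1,1)]) (.cons (.leaf 1 []) (.cons (.leaf 1 [(1,1),(11,1)]) (.cons (.leaf 1 [(1,1),(11,1)]) .nil)))))))))) (.cons (.leaf 1 [(4,1),(1,1)]) (.cons (.leaf 1 [(8,1)]) (.cons (.leaf 1 [(9,1),(1,1)]) (.cons (.leaf 1 [(9,1),(1,1)]) .nil)))))))))) (.cons (.keep [3,4,6,9] (.node (.cons (.leaf 2 [(7,1),(8,1)]) (.cons (.leaf 2 [(7,1)]) (.cons (.leaf 2 [(9,1),(7,1)]) (.cons (.keep [0,4,7,8,9] (.node (.cons (.leaf 2 [(5,1),(9,1)]) (.cons (.leaf 1 [(2,1),(5,1),(9,1)]) (.cons (.keep [3,6,7,9,11] (.node (.cons (.leaf 1 [(2,1),(10,1)]) (.cons (.leaf 1 [(2,1)]) (.cons (.leaf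 1 [(8,1),(2,1)]) (.cons (.leaf 1 [(10,1),(2,1)]) (.cons (.leaf 3 [(11,1),(10,1)]) (.cons (.leaf 1 []) (.cons (.leaf 1 [(8,1)]) (.cons (.leaf 1 [(10,1),(0,1)]) .nil)))))))))) (.cons (.keep [0,7,8,9,10,11] (.node (.cons (.leaf 1 [(2,1),(10,1)]) (.cons (.leaf 1 [(2,1)]) (.cons (.leaf 1 [(10,1),(2,1)]) (.cons (.leaf 1 [(10,1),(2,1)]) (.cons (.leaf 3 [(12,1),(10,1)]) (.cons (.leaf 1 []) (.cons (.leaf 1 [(10,1),(7,1)]) (.cons (.leaf 1 [(10,1),(0,1)]) .nil)))))))))) (.cons (.leaf 1 [(4,1),(1,1)]) (.cons (.leaf 1 [(10,1)]) (.cons (.leaf 1 [(1,1),(11,1)]) (.cons (.leaf 1 [(1,1),(11,1)]) .nil)))))))))) (.cons (.leaf 1 [(1,1)]) (.cons (.leaf 1 [(1,1)]) (.cons (.leaf 1 [(1,1)]) (.cons (.leaf 1 [(1,1)]) .nil)))))))))) (.cons (.keep [0,3,4,5] (.node (.cons (.leaf 2 [(8,1),(9,1)]) (.cons (.leaf 1 [(8,1),(2,1)])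 (.cons (.leaf 2 [(8,1)]) (.cons (.keep [0,7,8,9,10] (.node (.cons (.leaf 2 [(5,1),(11,1),(9,1)]) (.cons (.leaf 2 [(5,1),(9,1)]) (.cons (.keep [4,6,7,9,11] (.node (.cons (.leaf 1 [(2,1),(10,1)]) (.cons (.leaf 1 [(2,1),(10,1)]) (.cons (.leaf 1 [(2,1),(10,1)]) (.cons (.leaf 1 [(2,1),(10,1)]) (.cons (.leaf 1 [(4,1),(1,1)]) (.cons (.leaf 1 [(11,1)]) (.cons (.leaf 1 [(8,1),(11,1)]) (.cons (.leaf 1 [(0,1),(10,1),(11,1)]) .nil)))))))))) (.cons (.keep [0,4,7,9,10,11] (.node (.cons (.leaf 1 [(2,1),(10,1)]) (.cons (.leaf 1 [(2,1),(10,1)]) (.cons (.leaf 1 [(2,1),(10,1)]) (.cons (.leaf 1 [(2,1),(10,1)]) (.cons (.leaf 1 [(4,1),(1,1)]) (.cons (.leaf 1 [(12,1)]) (.cons (.leaf 1 [(7,1),(10,1),(12,1)]) (.cons (.leaf 1 [(0,1),(10,1),(12,1)]) .nil)))))))))) (.cons (.leaf 1 [(1,1)]) (.cons (.leaf 1 [(1,1)])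 (.cons (.leaf 1 [(1,1)]) (.cons (.leaf 1 [(1,1)]) .nil)))))))))) (.cons (.leaf 2 [(8,1),(1,1),(9,1)]) (.cons (.leaf 1 [(8,1)]) (.cons (.leaf 1 [(1,1),(4,1)]) (.cons (.leaf 1 [(1,1),(10,1)]) .nil)))))))))) (.cons (.leaf 1 [(4,1)]) (.cons (.leaf 1 []) (.cons (.leaf 1 [(4,1)]) (.cons (.leaf 1 [(4,1)]) .nil))))))))))

theorem e_5_30 : ESB (caseOf 4 5 30) := esb_of_ok (t := t_5_30) (by decide +kernel)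

def t_5_31 : T := (.keep [0,1,2] (.node (.cons (.leaf 1 []) (.cons (.leaf 1 [(3,1)]) (.cons (.leaf 1 [(3,1)]) (.cons (.leaf 1 [(3,1)]) (.cons (.leaf 1 [(3,1)]) (.cons (.leaf 1 [(5,1)]) (.cons (.leaf 1 [(5,1)]) (.cons (.leaf 1 []) (.cons (.leaf 1 [(5,1)]) (.cons (.leaf 1 [(5,1)]) .nil))))))))))))

theorem e_5_31 : ESB (caseOf 4 5 31) := esb_of_ok (t := t_5_31) (by decide +kernel)

def t_6_17 : T := (.keep [0,1,2] (.node (.cons (.keep [0,2,4,7] (.node (.cons (.keep [0,2,4,5,7] (.node (.cons (.keep [0,2,4,5,7,9] (.node (.cons (.leaf 1 [(10,1)]) (.cons (.leaf 1 [(10,1),(3,1)]) (.cons (.leaf 1 [(9,1)]) (.cons (.leaf 1 [(9,1),(3,1)]) .nil)))))) (.cons (.keep [0,3,6,7,9] (.node (.cons (.leaf 1 [(9,1),(6,1)]) (.cons (.leaf 1 [(9,1),(6,1),(3,1)]) (.cons (.leaf 1 [(8,1),(6,1)]) (.cons (.leaf 1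 [(8,1),(6,1),(3,1)]) .nil)))))) (.cons (.leaf 1 [(9,1)]) (.cons (.leaf 1 [(9,1),(3,1)]) .nil)))))) (.cons (.keep [0,3,6,7,8] (.node (.cons (.keep [4,5,6,7,8] (.node (.cons (.leaf 1 [(9,1),(7,1)]) (.cons (.leaf 1 [(9,1),(7,1),(3,1)]) (.cons (.leaf 1 []) (.cons (.leaf 1 [(3,1)]) .nil)))))) (.cons (.keep [3,5,6,8,9] (.node (.cons (.leaf 1 [(8,1),(7,1),(5,1)]) (.cons (.leaf 1 [(8,1),(7,1),(5,1),(3,1)]) (.cons (.leaf 1 [(5,1)]) (.cons (.leaf 1 [(5,1),(3,1)]) .nil)))))) (.cons (.leaf 1 [(8,1),(6,1)]) (.cons (.leaf 1 [(8,1),(6,1),(3,1)]) .nil)))))) (.cons (.keep [0,1,4,5,7] (.node (.cons (.keep [0,2,4,5,7,9] (.node (.cons (.leaf 1 [(10,1)]) (.cons (.leaf 1 [(10,1),(3,1)]) (.cons (.leaf 1 [(9,1)]) (.cons (.leaf 1 [(9,1),(3,1)]) .nil)))))) (.cons (.keep [0,3,7,9] (.node (.cons (.leaf 1 [(8,1)])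 (.cons (.leaf 1 [(8,1),(3,1)]) (.cons (.leaf 1 [(7,1)]) (.cons (.leaf 1 [(7,1),(3,1)]) .nil)))))) (.cons (.leaf 1 [(9,1),(1,1)]) (.cons (.leaf 1 [(9,1),(1,1)]) .nil)))))) (.cons (.keep [0,3,6,7,8] (.node (.cons (.keep [4,5,6,7,8] (.node (.cons (.leaf 1 [(9,1),(7,1)]) (.cons (.leaf 1 [(9,1),(7,1),(3,1)]) (.cons (.leaf 1 []) (.cons (.leaf 1 [(3,1)]) .nil)))))) (.cons (.keep [0,6,7,8,9] (.node (.cons (.leaf 1 [(8,1),(6,1)]) (.cons (.leaf 1 [(8,1),(6,1),(3,1)]) (.cons (.leaf 1 []) (.cons (.leaf 1 [(3,1)]) .nil)))))) (.cons (.leaf 1 [(8,1),(1,1),(6,1)]) (.cons (.leaf 1 [(8,1),(1,1),(6,1)]) .nil)))))) .nil)))))) (.cons (.keep [0,3,5,6,7] (.node (.cons (.keep [4,5,6,7,9] (.node (.cons (.keep [4,5,6,7,8] (.node (.cons (.leaf 1 []) (.cons (.leaf 1 [(3,1)]) (.cons (.leaf 1 [(8,1),(6,1)]) (.cons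 (.leaf 1 [(8,1),(6,1),(3,1)]) .nil)))))) (.cons (.keep [3,5,6,7,9] (.node (.cons (.leaf 1 [(5,1)]) (.cons (.leaf 1 [(5,1),(3,1)]) (.cons (.leaf 1 [(8,1),(6,1),(5,1)]) (.cons (.leaf 1 [(8,1),(6,1),(5,1),(3,1)]) .nil)))))) (.cons (.leaf 1 []) (.cons (.leaf 1 [(3,1)]) .nil)))))) (.cons (.keep [3,5,6,8,9] (.node (.cons (.keep [4,5,6,7,8] (.node (.cons (.leaf 1 [(6,1)]) (.cons (.leaf 1 [(6,1),(3,1)]) (.cons (.leaf 1 [(8,1)]) (.cons (.leaf 1 [(8,1),(3,1)]) .nil)))))) (.cons (.keep [3,5,6,7,9] (.node (.cons (.leaf 1 [(6,1),(5,1)]) (.cons (.leaf 1 [(6,1),(5,1),(3,1)]) (.cons (.leaf 1 [(8,1),(5,1)]) (.cons (.leaf 1 [(8,1),(5,1),(3,1)]) .nil)))))) (.cons (.leaf 1 [(5,1)]) (.cons (.leaf 1 [(5,1),(3,1)]) .nil)))))) (.cons (.keep [4,5,6,7,8] (.node (.cons (.keep [4,5,6,7,8] (.node (.cons (.leaf 1 [])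 (.cons (.leaf 1 [(3,1)]) (.cons (.leaf 1 [(8,1),(6,1)]) (.cons (.leaf 1 [(8,1),(6,1),(3,1)]) .nil)))))) (.cons (.keep [0,5,7,8,9] (.node (.cons (.leaf 1 []) (.cons (.leaf 1 [(3,1)]) (.cons (.leaf 1 [(7,1),(6,1)]) (.cons (.leaf 1 [(7,1),(6,1),(3,1)]) .nil)))))) (.cons (.leaf 1 [(1,1)]) (.cons (.leaf 1 [(1,1)]) .nil)))))) (.cons (.keep [3,5,6,8,9] (.node (.cons (.keep [4,5,6,7,8] (.node (.cons (.leaf 1 [(6,1)]) (.cons (.leaf 1 [(6,1),(3,1)]) (.cons (.leaf 1 [(8,1)]) (.cons (.leaf 1 [(8,1),(3,1)]) .nil)))))) (.cons (.keep [0,5,7,8,9] (.node (.cons (.leaf 1 [(6,1)]) (.cons (.leaf 1 [(6,1),(3,1)]) (.cons (.leaf 1 [(7,1)]) (.cons (.leaf 1 [(7,1),(3,1)]) .nil)))))) (.cons (.leaf 1 [(1,1),(5,1)]) (.cons (.leaf 1 [(1,1),(5,1)]) .nil)))))) .nil)))))) (.cons (.keep [0,1,4,7] (.node (.cons (.keep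 [0,2,4,5,7] (.node (.cons (.keep [0,2,4,5,7,9] (.node (.cons (.leaf 1 [(10,1)]) (.cons (.leaf 1 [(10,1),(3,1)]) (.cons (.leaf 1 [(9,1)]) (.cons (.leaf 1 [(9,1),(3,1)]) .nil)))))) (.cons (.keep [0,3,6,7,9] (.node (.cons (.leaf 1 [(9,1),(6,1)]) (.cons (.leaf 1 [(9,1),(6,1),(3,1)]) (.cons (.leaf 1 [(8,1),(6,1)]) (.cons (.leaf 1 [(8,1),(6,1),(3,1)]) .nil)))))) (.cons (.leaf 1 [(9,1)]) (.cons (.leaf 1 [(9,1),(3,1)]) .nil)))))) (.cons (.keep [0,2,3,7] (.node (.cons (.keep [4,5,7,8] (.node (.cons (.leaf 1 [(8,1)]) (.cons (.leaf 1 [(8,1),(3,1)]) (.cons (.keep [4,5,7,8] (.node (.cons (.leaf 1 [(8,1)]) (.cons (.keep [0,5,6,7,8] (.node (.cons (.leaf 1 [(7,1)]) (.cons (.leaf 1 [(7,1),(3,1)]) (.cons (.leaf 1 [(6,1)]) (.cons (.leaf 1 [(6,1),(3,1)]) .nil)))))) (.cons (.leaf 1 [(6,1),(1,1)]) (.cons (.leaf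 1 [(6,1),(1,1)]) .nil)))))) (.cons (.keep [3,5,6,7,8] (.node (.cons (.leaf 1 [(9,1),(5,1)]) (.cons (.keep [0,5,6,8,9] (.node (.cons (.leaf 1 [(7,1),(6,1)]) (.cons (.leaf 1 [(7,1),(6,1),(3,1)]) (.cons (.leaf 1 []) (.cons (.leaf 1 [(3,1)]) .nil)))))) (.cons (.leaf 1 [(6,1),(1,1),(5,1)]) (.cons (.leaf 1 [(6,1),(1,1),(5,1)]) .nil)))))) .nil)))))) (.cons (.keep [3,5,6,7,8] (.node (.cons (.leaf 1 [(9,1),(5,1)]) (.cons (.leaf 1 [(9,1),(5,1),(3,1)]) (.cons (.keep [4,5,6,8,9] (.node (.cons (.leaf 1 [(9,1),(6,1)]) (.cons (.keep [0,5,6,8,9] (.node (.cons (.leaf 1 []) (.cons (.leaf 1 [(3,1)]) (.cons (.leaf 1 [(7,1),(6,1)]) (.cons (.leaf 1 [(7,1),(6,1),(3,1)]) .nil)))))) (.cons (.leaf 1 [(1,1)]) (.cons (.leaf 1 [(1,1)]) .nil)))))) (.cons (.keep [3,5,6,8,9] (.node (.cons (.leaf 1 [(9,1),(6,1),(5,1)])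 (.cons (.keep [0,5,6,8,9] (.node (.cons (.leaf 1 [(6,1)]) (.cons (.leaf 1 [(6,1),(3,1)]) (.cons (.leaf 1 [(7,1)]) (.cons (.leaf 1 [(7,1),(3,1)]) .nil)))))) (.cons (.leaf 1 [(1,1),(5,1)]) (.cons (.leaf 1 [(1,1),(5,1)]) .nil)))))) .nil)))))) (.cons (.leaf 1 [(8,1)]) (.cons (.leaf 1 [(8,1),(3,1)]) .nil)))))) (.cons (.keep [0,1,4,5,6,7] (.node (.cons (.keep [0,2,4,5,7,10] (.node (.cons (.leaf 1 [(10,1)]) (.cons (.leaf 1 [(10,1),(3,1)]) (.cons (.leaf 1 [(9,1)]) (.cons (.leaf 1 [(9,1),(3,1)]) .nil)))))) (.cons (.keep [0,3,7,9,10] (.node (.cons (.leaf 1 [(9,1),(6,1)]) (.cons (.leaf 1 [(9,1),(6,1),(3,1)]) (.cons (.leaf 1 [(7,1),(6,1)]) (.cons (.leaf 1 [(7,1),(6,1),(3,1)]) .nil)))))) (.cons (.leaf 1 [(10,1)]) (.cons (.leaf 1 [(10,1),(3,1)]) .nil)))))) (.cons (.keep [0,1,6,7,8] (.node (.cons (.keep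 [4,5,7,8] (.node (.cons (.leaf 1 [(8,1)]) (.cons (.leaf 1 [(8,1),(3,1)]) (.cons (.keep [4,5,7,8] (.node (.cons (.leaf 1 [(8,1)]) (.cons (.keep [0,5,6,7,8] (.node (.cons (.leaf 1 [(7,1)]) (.cons (.leaf 1 [(7,1),(3,1)]) (.cons (.leaf 1 [(6,1)]) (.cons (.leaf 1 [(6,1),(3,1)]) .nil)))))) (.cons (.leaf 1 [(6,1),(1,1)]) (.cons (.leaf 1 [(6,1),(1,1)]) .nil)))))) (.cons (.keep [3,5,6,7,8] (.node (.cons (.leaf 1 [(9,1),(5,1)]) (.cons (.keep [0,5,6,8,9] (.node (.cons (.leaf 1 [(7,1),(6,1)]) (.cons (.leaf 1 [(7,1),(6,1),(3,1)]) (.cons (.leaf 1 []) (.cons (.leaf 1 [(3,1)]) .nil)))))) (.cons (.leaf 1 [(6,1),(1,1),(5,1)]) (.cons (.leaf 1 [(6,1),(1,1),(5,1)]) .nil)))))) .nil)))))) (.cons (.keep [3,5,7,8,9] (.node (.cons (.leaf 1 [(8,1),(5,1)]) (.cons (.leaf 1 [(8,1),(5,1),(3,1)]) (.cons (.keep [4,5,6,7,8]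 (.node (.cons (.leaf 1 [(9,1),(6,1)]) (.cons (.keep [0,3,5,6,9] (.node (.cons (.leaf 1 []) (.cons (.leaf 1 [(3,1)]) (.cons (.leaf 1 [(8,1),(7,1)]) (.cons (.leaf 1 [(8,1),(7,1),(3,1)]) .nil)))))) (.cons (.leaf 1 [(1,1)]) (.cons (.leaf 1 [(1,1)]) .nil)))))) (.cons (.keep [3,5,6,7,8] (.node (.cons (.leaf 1 [(9,1),(6,1),(5,1)]) (.cons (.keep [0,3,5,6,9] (.node (.cons (.leaf 1 [(7,1)]) (.cons (.leaf 1 [(7,1),(3,1)]) (.cons (.leaf 1 [(8,1)]) (.cons (.leaf 1 [(8,1),(3,1)]) .nil)))))) (.cons (.leaf 1 [(1,1),(5,1)]) (.cons (.leaf 1 [(1,1),(5,1)]) .nil)))))) .nil)))))) (.cons (.leaf 1 [(8,1)]) (.cons (.leaf 1 [(8,1),(3,1)]) .nil)))))) .nil)))))) (.cons (.keep [0,3,5,6,7] (.node (.cons (.keep [4,5,6,7,9] (.node (.cons (.keep [4,5,6,7,8] (.node (.cons (.leaf 1 []) (.cons (.leaf 1 [(3,1)]) (.cons (.leaf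 1 [(8,1),(6,1)]) (.cons (.leaf 1 [(8,1),(6,1),(3,1)]) .nil)))))) (.cons (.keep [3,5,6,7,9] (.node (.cons (.leaf 1 [(5,1)]) (.cons (.leaf 1 [(5,1),(3,1)]) (.cons (.leaf 1 [(8,1),(6,1),(5,1)]) (.cons (.leaf 1 [(8,1),(6,1),(5,1),(3,1)]) .nil)))))) (.cons (.leaf 1 []) (.cons (.leaf 1 [(3,1)]) .nil)))))) (.cons (.keep [0,6,7,8,9] (.node (.cons (.keep [4,5,6,7,8] (.node (.cons (.leaf 1 []) (.cons (.leaf 1 [(3,1)]) (.cons (.keep [1,4,5,6,7] (.node (.cons (.leaf 1 []) (.cons (.keep [3,6,7,8,9] (.node (.cons (.leaf 1 [(9,1),(7,1)]) (.cons (.leaf 1 [(9,1),(7,1),(3,1)]) (.cons (.leaf 1 [(9,1),(6,1)]) (.cons (.leaf 1 [(9,1),(6,1),(3,1)]) .nil)))))) (.cons (.leaf 1 [(1,1)]) (.cons (.leaf 1 [(1,1),(9,1),(7,1)]) .nil)))))) (.cons (.keep [1,3,5,6,7] (.node (.cons (.leaf 1 [(6,1)]) (.cons (.keep [3,6,7,8,9]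 (.node (.cons (.leaf 1 [(9,1),(6,1),(7,1)]) (.cons (.leaf 1 [(9,1),(6,1),(7,1),(3,1)]) (.cons (.leaf 1 [(9,1)]) (.cons (.leaf 1 [(9,1),(3,1)]) .nil)))))) (.cons (.leaf 1 [(1,1),(6,1)]) (.cons (.leaf 1 [(1,1),(9,1),(6,1),(7,1)]) .nil)))))) .nil)))))) (.cons (.keep [3,5,6,7,9] (.node (.cons (.leaf 1 [(5,1)]) (.cons (.leaf 1 [(5,1),(3,1)]) (.cons (.keep [1,4,5,6,7] (.node (.cons (.leaf 1 [(7,1)]) (.cons (.keep [3,6,7,8,9] (.node (.cons (.leaf 1 [(9,1)]) (.cons (.leaf 1 [(9,1),(3,1)]) (.cons (.leaf 1 [(7,1),(9,1),(6,1)]) (.cons (.leaf 1 [(7,1),(9,1),(6,1),(3,1)]) .nil)))))) (.cons (.leaf 1 [(1,1),(7,1)]) (.cons (.leaf 1 [(1,1),(9,1)]) .nil)))))) (.cons (.keep [1,3,5,6,7] (.node (.cons (.leaf 1 [(7,1),(6,1)]) (.cons (.keep [3,6,7,8,9] (.node (.cons (.leaf 1 [(9,1),(6,1)]) (.cons (.leaf 1 [(9,1),(6,1),(3,1)])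 (.cons (.leaf 1 [(7,1),(9,1)]) (.cons (.leaf 1 [(7,1),(9,1),(3,1)]) .nil)))))) (.cons (.leaf 1 [(1,1),(7,1),(6,1)]) (.cons (.leaf 1 [(1,1),(9,1),(6,1)]) .nil)))))) .nil)))))) (.cons (.leaf 1 []) (.cons (.leaf 1 [(3,1)]) .nil)))))) (.cons (.keep [1,4,5,6,7] (.node (.cons (.keep [4,6,7,8,9] (.node (.cons (.leaf 1 []) (.cons (.leaf 1 [(3,1)]) (.cons (.leaf 1 [(8,1),(6,1)]) (.cons (.leaf 1 [(8,1),(6,1),(3,1)]) .nil)))))) (.cons (.keep [3,6,7,8,9] (.node (.cons (.leaf 1 [(5,1)]) (.cons (.leaf 1 [(5,1),(3,1)]) (.cons (.leaf 1 [(8,1),(6,1),(5,1)]) (.cons (.leaf 1 [(8,1),(6,1),(5,1),(3,1)]) .nil)))))) (.cons (.leaf 1 []) (.cons (.leaf 1 [(3,1)]) .nil)))))) (.cons (.keep [0,1,6,7,9] (.node (.cons (.keep [4,5,7,8,9] (.node (.cons (.leaf 1 []) (.cons (.leaf 1 [(3,1)]) (.cons (.keep [1,4,5,6,7] (.node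 (.cons (.leaf 1 []) (.cons (.keep [3,6,7,8,9] (.node (.cons (.leaf 1 [(9,1),(7,1)]) (.cons (.leaf 1 [(9,1),(7,1),(3,1)]) (.cons (.leaf 1 [(9,1),(6,1)]) (.cons (.leaf 1 [(9,1),(6,1),(3,1)]) .nil)))))) (.cons (.leaf 1 [(1,1)]) (.cons (.leaf 1 [(1,1),(9,1),(7,1)]) .nil)))))) (.cons (.keep [1,3,5,6,7] (.node (.cons (.leaf 1 [(6,1)]) (.cons (.keep [3,6,7,8,9] (.node (.cons (.leaf 1 [(9,1),(6,1),(7,1)]) (.cons (.leaf 1 [(9,1),(6,1),(7,1),(3,1)]) (.cons (.leaf 1 [(9,1)]) (.cons (.leaf 1 [(9,1),(3,1)]) .nil)))))) (.cons (.leaf 1 [(1,1),(6,1)]) (.cons (.leaf 1 [(1,1),(9,1),(6,1),(7,1)]) .nil)))))) .nil)))))) (.cons (.keep [3,5,7,8,9] (.node (.cons (.leaf 1 [(5,1)]) (.cons (.leaf 1 [(5,1),(3,1)]) (.cons (.keep [4,5,6,7,8] (.node (.cons (.leaf 1 [(6,1)]) (.cons (.keep [5,6,7,8,9] (.node (.cons (.leaf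 1 [(8,1)]) (.cons (.leaf 1 [(8,1),(3,1)]) (.cons (.leaf 1 [(6,1),(8,1),(5,1)]) (.cons (.leaf 1 [(6,1),(8,1),(5,1),(3,1)]) .nil)))))) (.cons (.leaf 1 [(1,1),(6,1)]) (.cons (.leaf 1 [(1,1),(8,1)]) .nil)))))) (.cons (.keep [3,5,6,7,8] (.node (.cons (.leaf 1 [(6,1),(5,1)]) (.cons (.keep [5,6,7,8,9] (.node (.cons (.leaf 1 [(8,1),(5,1)]) (.cons (.leaf 1 [(8,1),(5,1),(3,1)]) (.cons (.leaf 1 [(6,1),(8,1)]) (.cons (.leaf 1 [(6,1),(8,1),(3,1)]) .nil)))))) (.cons (.leaf 1 [(1,1),(6,1),(5,1)]) (.cons (.leaf 1 [(1,1),(8,1),(5,1)]) .nil)))))) .nil)))))) (.cons (.leaf 1 []) (.cons (.leaf 1 [(3,1)]) .nil)))))) .nil)))))) .nil))))))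

theorem e_6_17 : ESB (caseOf 4 6 17) := esb_of_ok (t := t_6_17) (by decide +kernel)

def t_6_18 : T := (.keep [0,1,2] (.node (.cons (.leaf 1 []) (.cons (.leaf 1 [(3,1)]) (.cons (.keep [1,4,6,7] (.node (.cons (.keep [0,2,5,6] (.node (.cons (.leaf 1 []) (.cons (.leaf 1 [(3,1)]) (.cons (.keep [1,4,5,8] (.node (.cons (.leaf 1 [(8,1)]) (.cons (.keep [2,5,6,8] (.node (.cons (.keep [2,4,5,6,7] (.node (.cons (.leaf 1 [(2,1),(5,1)]) (.cons (.leaf 1 [(2,1),(5,1),(3,1)]) (.cons (.leaf 1 [(7,2),(5,1)]) (.cons (.keep [0,6,7,8,9] (.node (.cons (.leaf 1 [(9,1)]) (.cons (.leaf 1 [(0,1),(9,1)]) (.cons (.leaf 1 [(6,1),(1,1),(7,1)]) (.cons (.leaf 1 [(6,1),(1,1),(7,1)]) .nil)))))) .nil)))))) (.cons (.keep [2,3,5,6,7] (.node (.cons (.leaf 1 [(2,1),(5,1)]) (.cons (.leaf 1 [(2,1),(5,1),(3,1)]) (.cons (.leaf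 1 [(6,2),(7,2),(5,1)]) (.cons (.keep [0,6,7,8,9] (.node (.cons (.leaf 1 [(9,1),(6,1)]) (.cons (.leaf 1 [(0,1),(6,1),(9,1)]) (.cons (.leaf 1 [(1,1),(7,1)]) (.cons (.leaf 1 [(1,1),(7,1)]) .nil)))))) .nil)))))) (.cons (.keep [1,4,6,7,8] (.node (.cons (.leaf 1 [(8,1)]) (.cons (.leaf 1 [(2,1),(0,1),(8,1)]) (.cons (.leaf 1 [(8,1),(1,1)]) (.cons (.leaf 1 [(0,1),(8,1)]) .nil)))))) (.cons (.keep [1,6,7,8] (.node (.cons (.leaf 2 [(2,1),(7,1),(8,1)]) (.cons (.leaf 2 [(2,1),(7,1),(8,1)]) (.cons (.leaf 3 [(5,1),(7,2),(8,2)]) (.cons (.leaf 1 [(5,1),(7,1),(0,1),(8,1)]) .nil)))))) .nil)))))) (.cons (.leaf 1 [(8,1),(1,1)]) (.cons (.keep [0,1,5,6,8] (.node (.cons (.keep [4,5,6,7,8] (.node (.cons (.leaf 2 [(2,1),(9,1)]) (.cons (.leaf 2 [(2,1),(9,1),(7,1)]) (.cons (.leaf 2 [(9,1)]) (.cons (.keep [5,6,7,8,9]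 (.node (.cons (.leaf 1 [(9,1)]) (.cons (.leaf 1 [(7,1),(0,1),(9,1)]) (.cons (.leaf 1 [(5,1),(1,1)]) (.cons (.leaf 1 [(5,1),(1,1)]) .nil)))))) .nil)))))) (.cons (.keep [3,5,6,7,8] (.node (.cons (.leaf 2 [(2,1),(9,1),(5,2)]) (.cons (.leaf 2 [(2,1),(9,1),(7,1),(5,1)]) (.cons (.leaf 2 [(5,2),(9,1)]) (.cons (.keep [0,5,6,7,8,9] (.node (.cons (.leaf 1 [(10,1),(6,1)]) (.cons (.leaf 1 [(0,1),(8,1),(6,1),(10,1)]) (.cons (.leaf 1 [(1,1)]) (.cons (.leaf 1 [(1,1)]) .nil)))))) .nil)))))) (.cons (.leaf 1 [(6,1),(8,1),(1,1)]) (.cons (.leaf 1 [(6,1),(8,1),(1,1)]) .nil)))))) .nil)))))) (.cons (.keep [3,5,7,8] (.node (.cons (.leaf 1 [(8,1),(5,1)]) (.cons (.keep [0,2,5,7,8] (.node (.cons (.keep [2,4,5,6,7] (.node (.cons (.leaf 2 [(2,1),(9,1)]) (.cons (.leaf 2 [(2,1),(9,1)]) (.cons (.leaf 2 [(8,1),(9,1)])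 (.cons (.keep [0,5,6,8,9] (.node (.cons (.leaf 1 []) (.cons (.leaf 1 [(9,1),(0,1)]) (.cons (.leaf 1 [(1,1)]) (.cons (.leaf 1 [(9,1),(1,1),(0,1)]) .nil)))))) .nil)))))) (.cons (.keep [2,3,5,6,7] (.node (.cons (.leaf 2 [(2,1),(9,1),(6,1)]) (.cons (.leaf 2 [(2,1),(9,1),(6,1)]) (.cons (.leaf 2 [(8,1),(6,2),(9,1)]) (.cons (.keep [0,5,6,8,9] (.node (.cons (.leaf 1 [(7,1)]) (.cons (.leaf 1 [(9,1),(7,1),(0,1)]) (.cons (.leaf 1 [(1,1),(7,1)]) (.cons (.leaf 1 [(7,1),(1,1),(9,1),(0,1)]) .nil)))))) .nil)))))) (.cons (.keep [1,4,5,7,8,9] (.node (.cons (.leaf 1 []) (.cons (.leaf 1 [(2,1),(8,1),(0,1)]) (.cons (.leaf 1 [(1,1)]) (.cons (.leaf 1 [(8,1),(0,1)]) .nil)))))) (.cons (.keep [0,1,5,7,9] (.node (.cons (.leaf 2 [(2,1),(8,1),(9,1)]) (.cons (.leaf 2 [(2,1),(8,1),(9,1)]) (.cons (.leaf 3 [(6,1),(8,1),(9,2)])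 (.cons (.leaf 1 [(6,1),(8,1),(0,1),(9,1)]) .nil)))))) .nil)))))) (.cons (.leaf 1 [(8,1),(1,1),(5,1)]) (.cons (.keep [0,1,5,7,8] (.node (.cons (.keep [4,5,6,7,8] (.node (.cons (.leaf 2 [(2,1),(8,1)]) (.cons (.leaf 2 [(7,1),(8,1),(2,1)]) (.cons (.leaf 2 [(8,1)]) (.cons (.keep [5,6,7,8,9] (.node (.cons (.leaf 1 []) (.cons (.leaf 1 [(7,1),(8,1),(0,1)]) (.cons (.leaf 1 [(1,1)]) (.cons (.leaf 1 [(5,1),(1,1),(8,1)]) .nil)))))) .nil)))))) (.cons (.keep [3,5,6,7,8] (.node (.cons (.leaf 2 [(2,1),(8,1),(5,2)]) (.cons (.leaf 2 [(7,1),(8,1),(5,1),(2,1)]) (.cons (.leaf 2 [(8,1),(5,2)]) (.cons (.keep [0,5,6,7,8,9] (.node (.cons (.leaf 1 [(6,1)]) (.cons (.leaf 1 [(8,1),(6,1),(9,1),(0,1)]) (.cons (.leaf 1 [(1,1),(6,1)]) (.cons (.leaf 1 [(1,1),(9,1)]) .nil)))))) .nil)))))) (.cons (.leaf 1 [(6,1),(1,1)])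 (.cons (.leaf 1 [(6,1),(1,1)]) .nil)))))) .nil)))))) .nil)))))) (.cons (.keep [2,3,5,6] (.node (.cons (.keep [2,4,5,6,8] (.node (.cons (.leaf 1 [(2,1),(5,1)]) (.cons (.leaf 1 [(2,1),(5,1),(3,1)]) (.cons (.leaf 1 [(7,2),(5,1)]) (.cons (.keep [0,6,7,8,9] (.node (.cons (.leaf 1 [(9,1)]) (.cons (.leaf 1 [(0,1),(9,1)]) (.cons (.leaf 1 [(6,1),(1,1),(7,1)]) (.cons (.leaf 1 [(6,1),(1,1),(7,1)]) .nil)))))) .nil)))))) (.cons (.keep [2,3,5,7,8] (.node (.cons (.leaf 1 [(2,1),(5,1)]) (.cons (.leaf 1 [(2,1),(5,1),(3,1)]) (.cons (.leaf 1 [(6,2),(7,2),(5,1)]) (.cons (.keep [0,6,7,8,9] (.node (.cons (.leaf 1 [(9,1),(6,1)]) (.cons (.leaf 1 [(0,1),(6,1),(9,1)]) (.cons (.leaf 1 [(1,1),(7,1)]) (.cons (.leaf 1 [(1,1),(7,1)]) .nil)))))) .nil)))))) (.cons (.keep [1,4,6,8] (.node (.cons (.leaf 1 [(8,1)]) (.cons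 (.leaf 1 [(2,1),(0,1),(8,1)]) (.cons (.leaf 1 [(8,1),(1,1)]) (.cons (.leaf 1 [(0,1),(8,1)]) .nil)))))) (.cons (.keep [1,3,6,7,8] (.node (.cons (.leaf 1 [(9,1),(6,1)]) (.cons (.leaf 1 [(2,1),(9,1),(0,1),(6,1)]) (.cons (.leaf 1 [(6,1),(9,1),(1,1)]) (.cons (.leaf 1 [(9,1),(0,1),(6,1)]) .nil)))))) .nil)))))) (.cons (.keep [1,4,5,6,7] (.node (.cons (.leaf 1 [(5,1)]) (.cons (.leaf 1 [(3,1),(5,1)]) (.cons (.leaf 2 [(5,2),(8,1)]) (.cons (.leaf 2 [(5,2),(8,1),(3,1)]) .nil)))))) (.cons (.keep [0,1,5,6,8] (.node (.cons (.keep [4,5,6,8,9] (.node (.cons (.leaf 2 [(2,1),(8,1)]) (.cons (.leaf 2 [(2,1),(8,1),(7,1)]) (.cons (.leaf 2 [(8,1)]) (.cons (.keep [5,6,7,8,9] (.node (.cons (.leaf 1 [(8,1)]) (.cons (.leaf 1 [(7,1),(0,1),(8,1)]) (.cons (.leaf 1 [(5,1),(1,1)]) (.cons (.leaf 1 [(5,1),(1,1)]) .nil))))))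 .nil)))))) (.cons (.keep [3,5,6,7,8] (.node (.cons (.leaf 2 [(2,1),(9,1),(5,2)]) (.cons (.leaf 2 [(2,1),(9,1),(7,1),(5,1)]) (.cons (.leaf 2 [(5,2),(9,1)]) (.cons (.keep [0,5,6,7,8,9] (.node (.cons (.leaf 1 [(10,1),(6,1)]) (.cons (.leaf 1 [(0,1),(8,1),(6,1),(10,1)]) (.cons (.leaf 1 [(1,1)]) (.cons (.leaf 1 [(1,1)]) .nil)))))) .nil)))))) (.cons (.leaf 1 [(6,1),(8,1),(1,1)]) (.cons (.leaf 1 [(6,1),(8,1),(1,1)]) .nil)))))) .nil)))))) (.cons (.keep [0,1,3,6,7] (.node (.cons (.keep [4,6,7,8,9] (.node (.cons (.leaf 1 [(7,1)]) (.cons (.leaf 1 [(3,1),(7,1)]) (.cons (.keep [4,5,7,8,9] (.node (.cons (.leaf 1 []) (.cons (.keep [0,2,3,5,7] (.node (.cons (.keep [2,4,6,7,8] (.node (.cons (.leaf 1 [(2,1),(5,1)]) (.cons (.leaf 1 [(2,1),(5,1),(3,1)]) (.cons (.leaf 1 [(7,2),(5,1)]) (.cons (.keep [0,6,7,8,9]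 (.node (.cons (.leaf 1 [(9,1)]) (.cons (.leaf 1 [(0,1),(9,1)]) (.cons (.leaf 1 [(6,1),(1,1),(7,1)]) (.cons (.leaf 1 [(6,1),(1,1),(7,1)]) .nil)))))) .nil)))))) (.cons (.keep [2,3,6,7,8,9] (.node (.cons (.leaf 1 [(2,1),(5,1),(7,1)]) (.cons (.leaf 1 [(2,1),(7,1),(5,1)]) (.cons (.leaf 1 [(6,1),(5,1),(7,2)]) (.cons (.keep [0,6,7,8,9,10] (.node (.cons (.leaf 1 [(9,1)]) (.cons (.leaf 1 [(10,1),(0,1),(9,1)]) (.cons (.leaf 1 [(9,1),(1,1)]) (.cons (.leaf 1 [(10,1),(7,1),(1,1)]) .nil)))))) .nil)))))) (.cons (.keep [1,4,5,7,8] (.node (.cons (.leaf 1 [(2,1)]) (.cons (.leaf 1 [(2,1),(3,1)]) (.cons (.leaf 3 [(5,2),(9,2)]) (.cons (.leaf 1 [(5,2),(0,1),(9,1)]) .nil)))))) (.cons (.keep [3,5,7,8,9] (.node (.cons (.leaf 2 [(2,1),(8,1),(9,1)]) (.cons (.leaf 2 [(2,1),(8,1),(9,1)]) (.cons (.leaf 3 [(5,1),(8,2),(9,2)])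 (.cons (.leaf 1 [(0,1),(8,1),(9,2),(5,1)]) .nil)))))) .nil)))))) (.cons (.leaf 1 [(1,1)]) (.cons (.keep [0,1,5,7,9] (.node (.cons (.keep [4,5,6,7,9] (.node (.cons (.leaf 2 [(2,1),(8,1)]) (.cons (.leaf 2 [(2,1),(8,1),(7,1)]) (.cons (.leaf 2 [(8,1)]) (.cons (.keep [5,6,7,8,9] (.node (.cons (.leaf 1 [(8,1)]) (.cons (.leaf 1 [(7,1),(0,1),(8,1)]) (.cons (.leaf 1 [(5,1),(1,1)]) (.cons (.leaf 1 [(5,1),(1,1)]) .nil)))))) .nil)))))) (.cons (.keep [5,6,7,8,9] (.node (.cons (.leaf 2 [(2,1),(7,1)]) (.cons (.leaf 2 [(2,1),(7,1),(6,1),(8,1)]) (.cons (.leaf 2 [(7,1)]) (.cons (.keep [5,6,7,8,9] (.node (.cons (.leaf 1 [(7,1)]) (.cons (.leaf 1 [(8,1),(6,1),(0,1),(7,1)]) (.cons (.leaf 1 [(7,1),(1,1)]) (.cons (.leaf 1 [(8,1),(1,1)]) .nil)))))) .nil)))))) (.cons (.leaf 1 [(6,1),(1,2),(7,1)]) (.cons (.leaf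 1 [(7,1),(8,1),(1,1),(6,1)]) .nil)))))) .nil)))))) (.cons (.keep [3,5,6,7,8] (.node (.cons (.leaf 1 [(5,1)]) (.cons (.keep [0,2,5,7,8] (.node (.cons (.keep [2,4,5,6,7] (.node (.cons (.leaf 2 [(2,1),(9,1)]) (.cons (.leaf 2 [(2,1),(9,1)]) (.cons (.leaf 2 [(8,1),(9,1)]) (.cons (.keep [0,5,6,8,9] (.node (.cons (.leaf 1 []) (.cons (.leaf 1 [(9,1),(0,1)]) (.cons (.leaf 1 [(1,1)]) (.cons (.leaf 1 [(9,1),(1,1),(0,1)]) .nil)))))) .nil)))))) (.cons (.keep [2,5,6,7,9] (.node (.cons (.leaf 2 [(7,1),(8,1),(2,1)]) (.cons (.leaf 1 [(5,1),(8,1),(2,1),(7,1)]) (.cons (.leaf 2 [(7,1),(8,1)]) (.cons (.keep [0,5,6,7,8,9] (.node (.cons (.leaf 1 []) (.cons (.leaf 1 [(9,1),(10,1),(0,1)]) (.cons (.leaf 1 [(1,1)]) (.cons (.leaf 1 [(10,1),(1,1),(9,1),(0,1)]) .nil)))))) .nil)))))) (.cons (.keep [1,4,5,7,8] (.node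 (.cons (.leaf 1 [(5,1)]) (.cons (.leaf 2 [(2,1),(8,1),(5,1)]) (.cons (.leaf 1 [(5,1),(1,1)]) (.cons (.leaf 1 [(0,1),(8,1),(5,2)]) .nil)))))) (.cons (.keep [3,5,7,8,9] (.node (.cons (.leaf 1 [(2,1),(8,1),(7,1)]) (.cons (.leaf 1 [(2,1),(8,1),(7,1)]) (.cons (.leaf 1 [(5,1),(8,2),(7,1)]) (.cons (.leaf 1 [(0,1),(9,2),(7,1),(5,1)]) .nil)))))) .nil)))))) (.cons (.leaf 1 [(5,1),(1,1)]) (.cons (.keep [0,1,5,7,8] (.node (.cons (.keep [4,5,6,7,8] (.node (.cons (.leaf 2 [(2,1),(8,1)]) (.cons (.leaf 2 [(7,1),(8,1),(2,1)]) (.cons (.leaf 2 [(8,1)]) (.cons (.keep [5,6,7,8,9] (.node (.cons (.leaf 1 []) (.cons (.leaf 1 [(7,1),(8,1),(0,1)]) (.cons (.leaf 1 [(1,1)]) (.cons (.leaf 1 [(5,1),(1,1),(8,1)]) .nil)))))) .nil)))))) (.cons (.keep [5,6,7,8,9] (.node (.cons (.leaf 2 [(2,1),(7,1)]) (.cons (.leaf 1 [(8,1),(7,1),(6,1),(2,1)])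 (.cons (.leaf 2 [(7,1)]) (.cons (.keep [5,6,7,8,9] (.node (.cons (.leaf 1 []) (.cons (.leaf 1 [(9,1),(6,1),(7,1),(0,1)]) (.cons (.leaf 1 [(1,1)]) (.cons (.leaf 1 [(9,1),(1,1),(7,1)]) .nil)))))) .nil)))))) (.cons (.leaf 1 [(6,1),(1,2)]) (.cons (.leaf 1 [(6,1),(1,1),(9,1)]) .nil)))))) .nil)))))) .nil)))))) (.cons (.keep [0,2,6,7,8] (.node (.cons (.keep [2,4,5,6,8] (.node (.cons (.leaf 2 [(2,1),(9,1)]) (.cons (.leaf 2 [(2,1),(9,1)]) (.cons (.leaf 2 [(8,1),(9,1)]) (.cons (.keep [0,5,6,8,9] (.node (.cons (.leaf 1 []) (.cons (.leaf 1 [(9,1),(0,1)]) (.cons (.leaf 1 [(1,1)]) (.cons (.leaf 1 [(9,1),(1,1),(0,1)]) .nil)))))) .nil)))))) (.cons (.keep [2,3,5,6,8] (.node (.cons (.leaf 2 [(2,1),(9,1),(6,1)]) (.cons (.leaf 2 [(2,1),(9,1),(6,1)]) (.cons (.leaf 2 [(8,1),(6,2),(9,1)]) (.cons (.keep [0,5,6,8,9]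 (.node (.cons (.leaf 1 [(7,1)]) (.cons (.leaf 1 [(9,1),(7,1),(0,1)]) (.cons (.leaf 1 [(1,1),(7,1)]) (.cons (.leaf 1 [(7,1),(1,1),(9,1),(0,1)]) .nil)))))) .nil)))))) (.cons (.keep [1,4,5,8,9] (.node (.cons (.leaf 1 []) (.cons (.leaf 1 [(2,1),(8,1),(0,1)]) (.cons (.leaf 1 [(1,1)]) (.cons (.leaf 1 [(8,1),(0,1)]) .nil)))))) (.cons (.keep [1,3,5,7,8,9] (.node (.cons (.leaf 1 [(6,1)]) (.cons (.leaf 1 [(2,1),(9,1),(0,1),(6,1)]) (.cons (.leaf 1 [(1,1),(6,1)]) (.cons (.leaf 1 [(9,1),(0,1),(6,1)]) .nil)))))) .nil)))))) (.cons (.keep [1,4,6,7,9] (.node (.cons (.leaf 1 [(5,1),(8,1)]) (.cons (.leaf 1 [(3,1),(8,1),(5,1)]) (.cons (.leaf 1 [(5,1),(1,1)]) (.cons (.leaf 1 [(5,1),(1,1)]) .nil)))))) (.cons (.keep [0,1,6,7,9] (.node (.cons (.keep [4,5,6,8,9] (.node (.cons (.leaf 2 [(2,1),(8,1)]) (.cons (.leaf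 2 [(7,1),(8,1),(2,1)]) (.cons (.leaf 2 [(8,1)]) (.cons (.keep [5,6,7,8,9] (.node (.cons (.leaf 1 []) (.cons (.leaf 1 [(7,1),(8,1),(0,1)]) (.cons (.leaf 1 [(1,1)]) (.cons (.leaf 1 [(5,1),(1,1),(8,1)]) .nil)))))) .nil)))))) (.cons (.keep [3,5,6,7,8] (.node (.cons (.leaf 1 [(2,1),(8,1),(5,2)]) (.cons (.leaf 1 [(7,1),(8,1),(5,1),(2,1)]) (.cons (.leaf 1 [(8,1),(5,2)]) (.cons (.keep [0,5,6,7,8,9] (.node (.cons (.leaf 1 [(6,1)]) (.cons (.leaf 1 [(8,1),(6,1),(10,1),(0,1)]) (.cons (.leaf 1 [(1,1),(6,1)]) (.cons (.leaf 1 [(1,1),(10,1)]) .nil)))))) .nil)))))) (.cons (.leaf 1 [(6,1),(1,1)]) (.cons (.leaf 1 [(6,1),(1,1)]) .nil)))))) .nil)))))) .nil))))))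

theorem e_6_18 : ESB (caseOf 4 6 18) := esb_of_ok (t := t_6_18) (by decide +kernel)

def t_6_19 : T := (.keep [0,1,2] (.node (.cons (.leaf 1 [(4,1)]) (.cons (.leaf 1 []) (.cons (.leaf 1 [(4,1)]) (.cons (.keep [0,1,4,5,8] (.node (.cons (.leaf 1 [(4,1)]) (.cons (.keep [0,2,3,9] (.node (.cons (.leaf 1 [(4,1)]) (.cons (.leaf 1 []) (.cons (.leaf 1 [(4,1)]) (.cons (.leaf 1 [(9,1)]) (.cons (.leaf 1 [(3,1),(9,1)]) (.cons (.leaf 1 [(9,1),(3,1)]) .nil)))))))) (.cons (.keep [0,2,3,4,9] (.node (.cons (.leaf 1 [(4,1)]) (.cons (.leaf 1 []) (.cons (.leaf 1 [(4,1)]) (.cons (.leaf 1 [(10,1)]) (.cons (.leaf 1 [(3,1),(10,1)]) (.cons (.leaf 1 [(10,1),(3,1)]) .nil)))))))) (.cons (.leaf 1 [(4,1)]) (.cons (.keep [0,1,7,8,9] (.node (.cons (.leaf 1 [(4,1)]) (.cons (.leaf 1 []) (.cons (.leaf 1 [(4,1)]) (.cons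 (.leaf 1 [(7,1),(4,1)]) (.cons (.leaf 2 [(7,1),(10,1)]) (.cons (.leaf 2 [(7,1),(10,1),(4,1)]) .nil)))))))) (.cons (.keep [0,1,7,8,9] (.node (.cons (.leaf 1 [(4,1)]) (.cons (.leaf 1 []) (.cons (.leaf 1 [(4,1)]) (.cons (.leaf 1 [(7,1),(4,1)]) (.cons (.leaf 2 [(7,1),(10,1)]) (.cons (.leaf 2 [(7,1),(10,1),(4,1)]) .nil)))))))) .nil)))))))) (.cons (.keep [3,5,6,7,8] (.node (.cons (.leaf 1 []) (.cons (.keep [0,2,3,7] (.node (.cons (.leaf 1 [(4,1)]) (.cons (.leaf 1 []) (.cons (.leaf 1 [(4,1)]) (.cons (.leaf 1 [(9,1)]) (.cons (.leaf 1 [(3,1),(9,1)]) (.cons (.leaf 1 [(9,1),(3,1)]) .nil)))))))) (.cons (.keep [4,6,7,8,10] (.node (.cons (.leaf 1 [(7,1),(4,1)]) (.cons (.leaf 1 [(7,1)]) (.cons (.leaf 1 [(7,1),(4,1)]) (.cons (.leaf 1 [(8,1)]) (.cons (.leaf 1 [(3,1),(8,1)]) (.cons (.leaf 1 [(8,1),(3,1)])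 .nil)))))))) (.cons (.leaf 1 [(1,1)]) (.cons (.keep [1,5,7,8,9] (.node (.cons (.leaf 1 [(4,1)]) (.cons (.leaf 1 [(3,1)]) (.cons (.leaf 1 [(4,1),(3,1)]) (.cons (.leaf 1 [(6,2),(4,1)]) (.cons (.leaf 2 [(6,2),(8,1)]) (.cons (.leaf 2 [(6,2),(8,1),(4,1)]) .nil)))))))) (.cons (.keep [4,6,7,8,10] (.node (.cons (.leaf 1 [(7,1),(4,1)]) (.cons (.leaf 1 [(7,1)]) (.cons (.leaf 1 [(7,1),(4,1)]) (.cons (.leaf 1 [(7,2),(6,1),(4,1)]) (.cons (.leaf 2 [(6,1),(8,1),(7,2)]) (.cons (.leaf 2 [(7,2),(8,1),(4,1),(6,1)]) .nil)))))))) .nil)))))))) (.cons (.keep [0,3,4,7,8] (.node (.cons (.leaf 1 [(4,1),(7,1)]) (.cons (.keep [5,6,7,9,10] (.node (.cons (.leaf 1 [(4,1),(8,1)]) (.cons (.leaf 1 [(8,1)]) (.cons (.leaf 1 [(8,1),(4,1)]) (.cons (.leaf 1 []) (.cons (.leaf 1 [(3,1)]) (.cons (.leaf 1 [(3,1)]) .nil))))))))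 (.cons (.keep [0,6,7,8,9,10] (.node (.cons (.leaf 1 [(4,1),(8,1)]) (.cons (.leaf 1 [(8,1)]) (.cons (.leaf 1 [(8,1),(4,1)]) (.cons (.leaf 1 []) (.cons (.leaf 1 [(3,1)]) (.cons (.leaf 1 [(3,1)]) .nil)))))))) (.cons (.leaf 1 [(4,1),(7,1)]) (.cons (.keep [1,5,6,8,10] (.node (.cons (.leaf 1 [(4,1),(9,1)]) (.cons (.leaf 1 [(3,1),(9,1)]) (.cons (.leaf 1 [(9,1),(3,1),(4,1)]) (.cons (.leaf 1 []) (.cons (.leaf 1 [(3,1)]) (.cons (.leaf 1 [(3,1)]) .nil)))))))) (.cons (.keep [0,1,6,7,8,10] (.node (.cons (.leaf 1 [(4,1),(9,1)]) (.cons (.leaf 1 [(9,1)]) (.cons (.leaf 1 [(9,1),(4,1)]) (.cons (.leaf 1 []) (.cons (.leaf 1 [(3,1)]) (.cons (.leaf 1 [(3,1)]) .nil)))))))) .nil)))))))) .nil))))))))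

theorem e_6_19 : ESB (caseOf 4 6 19) := esb_of_ok (t := t_6_19) (by decide +kernel)

def t_6_21 : T := (.keep [0,1,2] (.node (.cons (.keep [0,2,4,5,8] (.node (.cons (.leaf 1 [(8,1)]) (.cons (.leaf 1 [(8,1),(3,1)]) (.cons (.leaf 1 [(8,1),(3,1)]) (.cons (.leaf 1 [(4,1)]) (.cons (.leaf 1 []) (.cons (.leaf 1 [(4,1)]) .nil)))))))) (.cons (.keep [3,5,6,7,8] (.node (.cons (.leaf 1 []) (.cons (.leaf 1 [(3,1)]) (.cons (.leaf 1 [(3,1)]) (.cons (.leaf 1 [(6,1),(4,1)]) (.cons (.leaf 1 [(6,1)]) (.cons (.leaf 1 [(6,1),(4,1)]) .nil)))))))) (.cons (.keep [0,3,4,6,8] (.node (.cons (.leaf 1 [(8,1)]) (.cons (.leaf 1 [(3,1),(8,1)]) (.cons (.leaf 1 [(8,1),(3,1)]) (.cons (.leaf 1 [(4,1),(7,1)]) (.cons (.leaf 1 [(7,1)]) (.cons (.leaf 1 [(7,1),(4,1)]) .nil)))))))) (.cons (.leaf 1 [(4,1)]) (.cons (.leaf 1 [])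 (.cons (.leaf 1 [(4,1)]) .nil))))))))

theorem e_6_21 : ESB (caseOf 4 6 21) := esb_of_ok (t := t_6_21) (by decide +kernel)

def t_6_22 : T := (.keep [0,1,2] (.node (.cons (.leaf 1 []) (.cons (.leaf 1 [(3,1)]) (.cons (.leaf 1 [(3,1)]) (.cons (.leaf 1 [(4,1)]) (.cons (.leaf 1 []) (.cons (.leaf 1 [(4,1)]) .nil))))))))

theorem e_6_22 : ESB (caseOf 4 6 22) := esb_of_ok (t := t_6_22) (by decide +kernel)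

def t_6_23 : T := (.keep [0,1,2] (.node (.cons (.leaf 1 [(4,1)]) (.cons (.leaf 1 []) (.cons (.leaf 1 [(4,1)]) (.cons (.leaf 1 [(4,1)]) (.cons (.leaf 1 [(5,1)]) (.cons (.leaf 1 [(5,1)]) (.cons (.leaf 1 []) (.cons (.leaf 1 [(5,1)]) .nil))))))))))

theorem e_6_23 : ESB (caseOf 4 6 23) := esb_of_ok (t := t_6_23) (by decide +kernel)

def t_6_25 : T := (.keep [0,1,2] (.node (.cons (.keep [0,2,4,5,8] (.node (.cons (.keep [0,2,4,5,6,8] (.node (.cons (.leaf 1 [(11,1)]) (.cons (.leaf 1 [(11,1),(3,1)]) (.cons (.leaf 1 [(11,1),(3,1)]) (.cons (.leaf 1 [(8,1)]) (.cons (.leaf 1 [(8,1),(3,1)]) (.cons (.leaf 1 [(8,1),(3,1)]) .nil)))))))) (.cons (.keep [3,5,6,7,8] (.node (.cons (.leaf 1 [(10,1),(6,1)]) (.cons (.leaf 1 [(10,1),(6,1),(3,1)]) (.cons (.leaf 1 [(10,1),(6,1),(3,1)]) (.cons (.leaf 1 []) (.cons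 (.leaf 1 [(3,1)]) (.cons (.leaf 1 [(3,1)]) .nil)))))))) (.cons (.keep [0,3,7,8,9] (.node (.cons (.leaf 1 [(9,1),(7,1)]) (.cons (.leaf 1 [(9,1),(3,2)]) (.cons (.leaf 1 [(9,1),(7,1),(3,1)]) (.cons (.leaf 1 [(10,1),(7,1)]) (.cons (.leaf 1 [(10,1),(3,2)]) (.cons (.leaf 1 [(10,1),(7,1),(3,1)]) .nil)))))))) (.cons (.leaf 1 [(8,1)]) (.cons (.leaf 1 [(8,1),(3,1)]) (.cons (.leaf 1 [(8,1),(3,1)]) .nil)))))))) (.cons (.keep [3,5,6,7,8] (.node (.cons (.keep [5,6,7,8,10] (.node (.cons (.leaf 1 []) (.cons (.leaf 1 [(3,1)]) (.cons (.leaf 1 [(3,1)]) (.cons (.leaf 1 [(8,1)]) (.cons (.leaf 1 [(8,1),(3,1)]) (.cons (.leaf 1 [(8,1),(3,1)]) .nil)))))))) (.cons (.keep [3,5,7,9,10] (.node (.cons (.leaf 1 [(6,1)]) (.cons (.leaf 1 [(6,1),(3,1)]) (.cons (.leaf 1 [(6,1),(3,1)]) (.cons (.leaf 1 [(8,1),(6,1)]) (.cons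 (.leaf 1 [(8,1),(6,1),(3,1)]) (.cons (.leaf 1 [(8,1),(6,1),(3,1)]) .nil)))))))) (.cons (.keep [3,6,7,9,10] (.node (.cons (.leaf 1 [(6,1)]) (.cons (.leaf 1 [(3,2)]) (.cons (.leaf 1 [(6,1),(3,1)]) (.cons (.leaf 1 [(8,1),(6,1)]) (.cons (.leaf 1 [(8,1),(3,2)]) (.cons (.leaf 1 [(8,1),(6,1),(3,1)]) .nil)))))))) (.cons (.leaf 1 []) (.cons (.leaf 1 [(3,1)]) (.cons (.leaf 1 [(3,1)]) .nil)))))))) (.cons (.keep [0,3,4,6,7] (.node (.cons (.keep [4,5,6,7,8] (.node (.cons (.leaf 1 [(10,1)]) (.cons (.leaf 1 [(10,1),(3,1)]) (.cons (.leaf 1 [(10,1),(3,1)]) (.cons (.leaf 1 []) (.cons (.leaf 1 [(3,1)]) (.cons (.leaf 1 [(3,1)]) .nil)))))))) (.cons (.keep [3,5,6,8,9] (.node (.cons (.leaf 1 [(9,1),(6,1)]) (.cons (.leaf 1 [(9,1),(6,1),(3,1)]) (.cons (.leaf 1 [(9,1),(6,1),(3,1)]) (.cons (.leaf 1 [(6,1)]) (.cons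 (.leaf 1 [(6,1),(3,1)]) (.cons (.leaf 1 [(6,1),(3,1)]) .nil)))))))) (.cons (.keep [4,6,7,8,10] (.node (.cons (.leaf 1 [(9,1),(8,1),(6,1)]) (.cons (.leaf 1 [(9,1),(3,2)]) (.cons (.leaf 1 [(9,1),(8,1),(6,1),(3,1)]) (.cons (.leaf 1 [(8,1),(6,1)]) (.cons (.leaf 1 [(3,2)]) (.cons (.leaf 1 [(8,1),(6,1),(3,1)]) .nil)))))))) (.cons (.leaf 1 [(8,1)]) (.cons (.leaf 1 [(8,1),(3,1)]) (.cons (.leaf 1 [(8,1),(3,1)]) .nil)))))))) (.cons (.keep [0,1,4,5,8] (.node (.cons (.keep [0,2,4,5,6,8] (.node (.cons (.leaf 1 [(11,1)]) (.cons (.leaf 1 [(11,1),(3,1)]) (.cons (.leaf 1 [(11,1),(3,1)]) (.cons (.leaf 1 [(8,1)]) (.cons (.leaf 1 [(8,1),(3,1)]) (.cons (.leaf 1 [(8,1),(3,1)]) .nil)))))))) (.cons (.keep [3,5,6,8,9] (.node (.cons (.leaf 1 [(9,1)]) (.cons (.leaf 1 [(9,1),(3,1)]) (.cons (.leaf 1 [(9,1),(3,1)])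 (.cons (.leaf 1 [(10,1)]) (.cons (.leaf 1 [(10,1),(3,1)]) (.cons (.leaf 1 [(10,1),(3,1)]) .nil)))))))) (.cons (.keep [0,3,8,9] (.node (.cons (.leaf 1 [(8,1)]) (.cons (.leaf 1 [(8,1),(3,1)]) (.cons (.leaf 1 [(8,1),(3,1)]) (.cons (.leaf 1 [(9,1)]) (.cons (.leaf 1 [(9,1),(3,1)]) (.cons (.leaf 1 [(9,1),(3,1)]) .nil)))))))) (.cons (.leaf 1 [(8,1),(1,1)]) (.cons (.leaf 1 [(8,1),(1,1)]) (.cons (.leaf 1 [(8,1),(1,1)]) .nil)))))))) (.cons (.keep [3,5,6,7,8] (.node (.cons (.keep [5,6,7,8,10] (.node (.cons (.leaf 1 []) (.cons (.leaf 1 [(3,1)]) (.cons (.leaf 1 [(3,1)]) (.cons (.leaf 1 [(8,1)]) (.cons (.leaf 1 [(8,1),(3,1)]) (.cons (.leaf 1 [(8,1),(3,1)]) .nil)))))))) (.cons (.keep [5,6,7,8,9,10] (.node (.cons (.leaf 1 []) (.cons (.leaf 1 [(3,1)]) (.cons (.leaf 1 [(3,1)]) (.cons (.leaf 1 [(8,1)]) (.cons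 (.leaf 1 [(8,1),(3,1)]) (.cons (.leaf 1 [(8,1),(3,1)]) .nil)))))))) (.cons (.keep [0,6,7,8,9] (.node (.cons (.leaf 1 []) (.cons (.leaf 1 [(3,1)]) (.cons (.leaf 1 [(3,1)]) (.cons (.leaf 1 [(8,1)]) (.cons (.leaf 1 [(8,1),(3,1)]) (.cons (.leaf 1 [(8,1),(3,1)]) .nil)))))))) (.cons (.leaf 1 [(1,1)]) (.cons (.leaf 1 [(1,1)]) (.cons (.leaf 1 [(1,1)]) .nil)))))))) (.cons (.keep [0,3,4,6,7] (.node (.cons (.keep [4,5,6,7,8] (.node (.cons (.leaf 1 [(10,1)]) (.cons (.leaf 1 [(10,1),(3,1)]) (.cons (.leaf 1 [(10,1),(3,1)]) (.cons (.leaf 1 []) (.cons (.leaf 1 [(3,1)]) (.cons (.leaf 1 [(3,1)]) .nil)))))))) (.cons (.keep [3,5,6,8,10] (.node (.cons (.leaf 1 [(9,1)]) (.cons (.leaf 1 [(9,1),(3,1)]) (.cons (.leaf 1 [(9,1),(3,1)]) (.cons (.leaf 1 []) (.cons (.leaf 1 [(3,1)]) (.cons (.leaf 1 [(3,1)]) .nil))))))))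 (.cons (.keep [0,4,7,8,10] (.node (.cons (.leaf 1 [(9,1)]) (.cons (.leaf 1 [(9,1),(3,1)]) (.cons (.leaf 1 [(9,1),(3,1)]) (.cons (.leaf 1 []) (.cons (.leaf 1 [(3,1)]) (.cons (.leaf 1 [(3,1)]) .nil)))))))) (.cons (.leaf 1 [(1,1),(8,1)]) (.cons (.leaf 1 [(1,1),(8,1)]) (.cons (.leaf 1 [(1,1),(8,1)]) .nil)))))))) .nil))))))))

theorem e_6_25 : ESB (caseOf 4 6 25) := esb_of_ok (t := t_6_25) (by decide +kernel)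

def t_6_26 : T := (.keep [0,1,2] (.node (.cons (.leaf 1 []) (.cons (.leaf 1 [(3,1)]) (.cons (.leaf 1 [(3,1)]) (.cons (.keep [1,4,5,7] (.node (.cons (.keep [0,6,7,8] (.node (.cons (.leaf 1 []) (.cons (.leaf 1 [(3,1)]) (.cons (.leaf 1 [(3,1)]) (.cons (.keep [1,4,5,9] (.node (.cons (.leaf 1 [(9,1)]) (.cons (.leaf 1 [(8,1),(3,1)]) (.cons (.keep [6,7,8,9] (.node (.cons (.leaf 2 [(4,1),(7,1)]) (.cons (.leaf 2 [(7,1)]) (.cons (.leaf 2 [(7,1),(4,1)]) (.cons (.leaf 2 [(4,1),(8,1)]) (.cons (.leaf 2 [(8,1)]) (.cons (.leaf 2 [(8,1),(4,1)]) .nil)))))))) (.cons (.leaf 1 [(7,1),(1,1)]) (.cons (.leaf 1 [(1,1),(7,1)]) (.cons (.leaf 1 [(1,1),(7,1)]) .nil)))))))) (.cons (.keep [3,5,7,9] (.node (.cons (.leaf 1 [(9,1),(6,1)]) (.cons (.leaf 1 [(7,1),(3,1)]) (.cons (.keep [0,2,6,7,9] (.node (.cons (.leaf 2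 [(4,1),(8,1)]) (.cons (.leaf 2 [(8,1)]) (.cons (.leaf 2 [(8,1),(4,1)]) (.cons (.leaf 2 [(4,1),(9,1),(8,1)]) (.cons (.leaf 2 [(9,1),(8,1)]) (.cons (.leaf 2 [(9,1),(8,1),(4,1)]) .nil)))))))) (.cons (.leaf 1 [(1,1)]) (.cons (.leaf 1 [(1,1)]) (.cons (.leaf 1 [(1,1)]) .nil)))))))) (.cons (.keep [3,4,7,9] (.node (.cons (.leaf 1 [(9,1),(6,1)]) (.cons (.leaf 1 [(3,1)]) (.cons (.keep [0,6,7,8,9] (.node (.cons (.leaf 2 [(4,1),(8,1),(7,1)]) (.cons (.leaf 2 [(8,1),(7,1)]) (.cons (.leaf 2 [(8,1),(7,1),(4,1)]) (.cons (.leaf 2 [(4,1),(7,1)]) (.cons (.leaf 2 [(7,1)]) (.cons (.leaf 2 [(7,1),(4,1)]) .nil)))))))) (.cons (.leaf 1 [(1,1),(7,1)]) (.cons (.leaf 1 [(3,1)]) (.cons (.leaf 1 [(7,1),(1,1)]) .nil)))))))) .nil)))))))) (.cons (.leaf 1 [(8,1),(3,1)]) (.cons (.keep [3,6,7,8] (.node (.cons (.leaf 2 [(4,1),(8,1)])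 (.cons (.leaf 2 [(8,1)]) (.cons (.leaf 2 [(8,1),(4,1)]) (.cons (.leaf 1 [(4,1),(8,1),(6,1)]) (.cons (.leaf 2 [(9,1)]) (.cons (.leaf 2 [(9,1),(4,1)]) .nil)))))))) (.cons (.leaf 1 [(7,1),(1,1)]) (.cons (.leaf 1 [(1,1),(7,1)]) (.cons (.leaf 1 [(1,1),(7,1)]) .nil)))))))) (.cons (.keep [1,3,5,7,8] (.node (.cons (.keep [5,7,8,9,10] (.node (.cons (.leaf 1 [(7,1)]) (.cons (.leaf 1 [(7,1),(3,1)]) (.cons (.leaf 1 [(7,1),(3,1)]) (.cons (.leaf 1 [(7,1),(8,1)]) (.cons (.leaf 1 [(7,1),(8,1),(3,1)]) (.cons (.leaf 1 [(7,1),(8,1),(3,1)]) .nil)))))))) (.cons (.leaf 1 [(8,1),(3,1)]) (.cons (.keep [0,6,7,8,9] (.node (.cons (.leaf 1 [(4,1),(7,1)]) (.cons (.leaf 1 [(7,1)]) (.cons (.leaf 1 [(7,1),(4,1)]) (.cons (.leaf 2 [(4,1),(9,1),(8,1)]) (.cons (.leaf 2 [(9,1),(8,1)]) (.cons (.leaf 2 [(9,1),(8,1),(4,1)])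 .nil)))))))) (.cons (.leaf 1 [(1,1)]) (.cons (.leaf 1 [(1,1)]) (.cons (.leaf 1 [(1,1)]) .nil)))))))) (.cons (.keep [0,1,3,4,7] (.node (.cons (.keep [5,7,8,9,10] (.node (.cons (.leaf 1 [(8,1)]) (.cons (.leaf 1 [(3,1),(8,1)]) (.cons (.leaf 1 [(3,1),(8,1)]) (.cons (.keep [1,4,5,8,10] (.node (.cons (.leaf 1 []) (.cons (.leaf 1 [(6,1),(8,1)]) (.cons (.keep [0,6,7,8,9] (.node (.cons (.leaf 2 [(4,1),(8,1)]) (.cons (.leaf 2 [(10,2),(8,1)]) (.cons (.leaf 2 [(4,1),(8,1),(10,2)]) (.cons (.leaf 2 [(1,1),(4,1),(8,1)]) (.cons (.leaf 2 [(10,2),(9,1)]) (.cons (.leaf 2 [(4,1),(9,1),(10,2)]) .nil)))))))) (.cons (.leaf 1 [(1,1)]) (.cons (.leaf 1 [(6,1),(1,1),(8,1)]) (.cons (.leaf 1 [(9,1),(1,1),(7,1)]) .nil)))))))) (.cons (.keep [3,5,7,8,10] (.node (.cons (.leaf 1 [(6,1)]) (.cons (.leaf 1 [(2,1),(7,1),(6,1)])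 (.cons (.keep [0,3,6,7,9] (.node (.cons (.leaf 1 [(4,1),(7,1)]) (.cons (.leaf 2 [(10,2),(8,1)]) (.cons (.leaf 2 [(10,2),(8,1),(4,1)]) (.cons (.leaf 1 [(4,1),(1,1),(7,1)]) (.cons (.leaf 2 [(9,1),(10,2),(8,1)]) (.cons (.leaf 2 [(9,1),(10,2),(8,1),(4,1)]) .nil)))))))) (.cons (.leaf 1 [(6,1),(1,1)]) (.cons (.leaf 1 [(7,1),(6,1)]) (.cons (.leaf 1 [(9,1),(1,1)]) .nil)))))))) (.cons (.keep [3,4,7,8,10] (.node (.cons (.leaf 1 [(6,1)]) (.cons (.leaf 1 [(8,1),(6,1)]) (.cons (.keep [0,6,7,8,9] (.node (.cons (.leaf 2 [(4,1),(8,1),(7,1)]) (.cons (.leaf 2 [(10,2),(8,1),(7,1)]) (.cons (.leaf 2 [(10,2),(8,1),(7,1),(4,1)]) (.cons (.leaf 2 [(7,1),(4,1),(1,2)]) (.cons (.leaf 2 [(10,2),(7,1)]) (.cons (.leaf 2 [(10,2),(7,1),(4,1)]) .nil)))))))) (.cons (.leaf 1 [(6,1),(1,1)]) (.cons (.leaf 1 [(8,1),(1,1),(6,1)])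 (.cons (.leaf 1 [(9,1),(1,1),(7,1)]) .nil)))))))) .nil)))))))) (.cons (.leaf 1 [(3,1)]) (.cons (.keep [0,7,8,9,10] (.node (.cons (.leaf 2 [(4,1),(9,1),(8,1)]) (.cons (.leaf 2 [(9,1),(8,1)]) (.cons (.leaf 2 [(9,1),(8,1),(4,1)]) (.cons (.leaf 1 [(4,1),(7,1)]) (.cons (.leaf 1 [(7,1)]) (.cons (.leaf 1 [(7,1),(4,1)]) .nil)))))))) (.cons (.leaf 1 [(1,1),(9,1)]) (.cons (.leaf 1 [(3,1)]) (.cons (.leaf 1 [(9,1),(1,1)]) .nil)))))))) .nil))))))))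

theorem e_6_26 : ESB (caseOf 4 6 26) := esb_of_ok (t := t_6_26) (by decide +kernel)

def t_6_27 : T := (.keep [0,1,2] (.node (.cons (.leaf 1 [(4,1)]) (.cons (.leaf 1 []) (.cons (.leaf 1 [(4,1)]) (.cons (.leaf 1 [(4,1)]) (.cons (.keep [0,1,4,5,6,9] (.node (.cons (.leaf 1 [(4,1)]) (.cons (.keep [0,3,10,11] (.node (.cons (.leaf 1 [(4,1)]) (.cons (.leaf 1 []) (.cons (.leaf 1 [(4,1)]) (.cons (.leaf 1 [(4,1)]) (.cons (.leaf 1 [(10,1)]) (.cons (.leaf 1 [(3,1),(10,1)]) (.cons (.leaf 1 [(10,1),(3,1)]) (.cons (.leaf 1 [(10,1),(3,1)]) .nil)))))))))) (.cons (.leaf 1 [(11,1),(4,1)]) (.cons (.keep [0,3,4,10,11] (.node (.cons (.leaf 1 [(4,1)]) (.cons (.leaf 1 []) (.cons (.leaf 1 [(4,1)]) (.cons (.leaf 1 [(4,1)]) (.cons (.leaf 1 [(5,1),(9,1)]) (.cons (.leaf 1 [(5,1),(10,1),(9,1)]) (.cons (.leaf 2 [(11,1),(9,1)])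 (.cons (.leaf 2 [(11,1),(9,1),(5,1)]) .nil)))))))))) (.cons (.leaf 1 [(4,1)]) (.cons (.leaf 1 [(10,1),(1,1)]) (.cons (.leaf 1 [(10,1),(1,1)]) (.cons (.leaf 1 [(10,1),(1,1)]) .nil)))))))))) (.cons (.keep [3,5,6,7,8] (.node (.cons (.leaf 1 []) (.cons (.keep [0,3,8,9] (.node (.cons (.leaf 1 [(4,1)]) (.cons (.leaf 1 []) (.cons (.leaf 1 [(4,1)]) (.cons (.leaf 1 [(4,1)]) (.cons (.leaf 1 [(10,1)]) (.cons (.leaf 1 [(3,1),(10,1)]) (.cons (.leaf 1 [(10,1),(3,1)]) (.cons (.leaf 1 [(10,1),(3,1)]) .nil)))))))))) (.cons (.leaf 1 [(9,1),(4,1)]) (.cons (.keep [4,7,8,9,10] (.node (.cons (.leaf 1 [(5,1)]) (.cons (.leaf 1 [(8,1)]) (.cons (.leaf 1 [(8,1),(4,1)]) (.cons (.leaf 1 [(8,1),(4,1)]) (.cons (.leaf 1 [(5,1)]) (.cons (.leaf 1 [(5,1),(9,1),(7,1)]) (.cons (.leaf 2 [(10,1)]) (.cons (.leaf 2 [(10,1),(5,1)])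 .nil)))))))))) (.cons (.leaf 1 [(1,1)]) (.cons (.leaf 1 [(8,1),(1,1)]) (.cons (.leaf 1 [(1,1),(8,1)]) (.cons (.leaf 1 [(1,1),(8,1)]) .nil)))))))))) (.cons (.keep [3,4,6,8,9] (.node (.cons (.leaf 1 [(4,1),(7,1)]) (.cons (.keep [6,7,9,10,11] (.node (.cons (.leaf 1 []) (.cons (.leaf 1 [(3,1)]) (.cons (.leaf 1 [(3,1)]) (.cons (.leaf 1 [(3,1)]) (.cons (.leaf 1 [(9,1)]) (.cons (.leaf 1 [(3,1),(9,1)]) (.cons (.leaf 1 [(9,1),(3,1)]) (.cons (.leaf 1 [(9,1),(3,1)]) .nil)))))))))) (.cons (.leaf 1 [(9,1),(4,1)]) (.cons (.keep [0,7,8,9,10,11] (.node (.cons (.leaf 1 []) (.cons (.leaf 1 [(3,1)]) (.cons (.leaf 1 [(3,1)]) (.cons (.leaf 1 [(3,1)]) (.cons (.leaf 1 [(5,1),(9,1)]) (.cons (.leaf 2 [(5,1),(10,1),(9,1)]) (.cons (.leaf 2 [(10,1),(9,1)]) (.cons (.leaf 2 [(10,1),(9,1),(5,1)]) .nil)))))))))) (.cons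 (.leaf 1 [(1,1)]) (.cons (.leaf 1 [(1,1)]) (.cons (.leaf 1 [(1,1)]) (.cons (.leaf 1 [(1,1)]) .nil)))))))))) (.cons (.keep [0,3,4,5,8] (.node (.cons (.leaf 1 [(4,1),(8,1)]) (.cons (.keep [6,7,8,10,11] (.node (.cons (.leaf 1 [(4,1),(9,1)]) (.cons (.leaf 1 [(9,1)]) (.cons (.leaf 1 [(9,1),(4,1)]) (.cons (.leaf 1 [(9,1),(4,1)]) (.cons (.leaf 1 []) (.cons (.leaf 1 [(3,1)]) (.cons (.leaf 1 [(3,1)]) (.cons (.leaf 1 [(3,1)]) .nil)))))))))) (.cons (.leaf 1 [(4,1)]) (.cons (.keep [0,7,8,9,10,11] (.node (.cons (.leaf 1 [(4,1),(9,1)]) (.cons (.leaf 1 [(9,1)]) (.cons (.leaf 1 [(9,1),(4,1)]) (.cons (.leaf 1 [(9,1),(4,1)]) (.cons (.leaf 1 []) (.cons (.leaf 1 [(3,1)]) (.cons (.leaf 1 [(3,1)]) (.cons (.leaf 1 [(3,1)]) .nil)))))))))) (.cons (.leaf 1 [(4,1),(8,1)]) (.cons (.leaf 1 [(1,1),(10,1)]) (.cons (.leaf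 1 [(4,1)]) (.cons (.leaf 1 [(1,1),(10,1)]) .nil)))))))))) .nil))))))))))

theorem e_6_27 : ESB (caseOf 4 6 27) := esb_of_ok (t := t_6_27) (by decide +kernel)

def t_6_29 : T := (.keep [0,1,2] (.node (.cons (.keep [0,2,4,5,6,9] (.node (.cons (.leaf 1 [(9,1)]) (.cons (.leaf 1 [(9,1),(3,1)]) (.cons (.leaf 1 [(9,1),(3,1)]) (.cons (.leaf 1 [(9,1),(3,1)]) (.cons (.leaf 1 [(4,1)]) (.cons (.leaf 1 []) (.cons (.leaf 1 [(4,1)]) (.cons (.leaf 1 [(4,1)]) .nil)))))))))) (.cons (.keep [3,5,6,7,8] (.node (.cons (.leaf 1 []) (.cons (.leaf 1 [(3,1)]) (.cons (.leaf 1 [(3,1)]) (.cons (.leaf 1 [(3,1)]) (.cons (.leaf 1 [(7,1),(4,1)]) (.cons (.leaf 1 [(7,1)]) (.cons (.leaf 1 [(7,1),(4,1)]) (.cons (.leaf 1 [(7,1),(4,1)]) .nil)))))))))) (.cons (.keep [3,4,6,7,9] (.node (.cons (.leaf 1 [(8,1)]) (.cons (.leaf 1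 [(8,1),(3,1)]) (.cons (.leaf 1 [(8,1),(3,1)]) (.cons (.leaf 1 [(8,1),(3,1)]) (.cons (.leaf 1 []) (.cons (.leaf 1 [(3,1)]) (.cons (.leaf 1 [(3,1)]) (.cons (.leaf 1 [(3,1)]) .nil)))))))))) (.cons (.keep [0,3,4,5,7] (.node (.cons (.leaf 1 [(9,1)]) (.cons (.leaf 1 [(3,1),(9,1)]) (.cons (.leaf 1 [(9,1),(3,1)]) (.cons (.leaf 1 [(9,1),(3,1)]) (.cons (.leaf 1 [(4,1),(8,1)]) (.cons (.leaf 1 [(8,1)]) (.cons (.leaf 1 [(4,1),(3,1)]) (.cons (.leaf 1 [(8,1),(4,1)]) .nil)))))))))) (.cons (.leaf 1 [(4,1)]) (.cons (.leaf 1 []) (.cons (.leaf 1 [(4,1)]) (.cons (.leaf 1 [(4,1)]) .nil))))))))))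

theorem e_6_29 : ESB (caseOf 4 6 29) := esb_of_ok (t := t_6_29) (by decide +kernel)

def t_6_30 : T := (.keep [0,1,2] (.node (.cons (.leaf 1 []) (.cons (.leaf 1 [(3,1)]) (.cons (.leaf 1 [(3,1)]) (.cons (.leaf 1 [(3,1)]) (.cons (.leaf 1 [(4,1)]) (.cons (.leaf 1 []) (.cons (.leaf 1 [(4,1)]) (.cons (.leaf 1 [(4,1)]) .nil))))))))))

theorem e_6_30 : ESB (caseOf 4 6 30) := esb_of_ok (t := t_6_30) (by decide +kernel)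

def t_6_31 : T := (.keep [0,1,2] (.node (.cons (.leaf 1 [(4,1)]) (.cons (.leaf 1 []) (.cons (.leaf 1 [(4,1)]) (.cons (.leaf 1 [(4,1)]) (.cons (.leaf 1 [(4,1)]) (.cons (.leaf 1 [(5,1)]) (.cons (.leaf 1 [(5,1)]) (.cons (.leaf 1 []) (.cons (.leaf 1 [(5,1)]) (.cons (.leaf 1 [(5,1)]) .nil))))))))))))

theorem e_6_31 : ESB (caseOf 4 6 31) := esb_of_ok (t := t_6_31) (by decide +kernel)

def z_7_17_0 : F := ⟨0, 1, 0, -1, 1⟩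

def h_7_17_0 : List F := [⟨0, 1, 0, 0, 0⟩, ⟨0, 0, 0, 1, 0⟩, ⟨-1, 1, 0, -1, 1⟩, ⟨0, 0, 0, -1, 1⟩,
  ⟨0, 1, -1, -1, 1⟩]

def t_7_17_0 : T := (.node (.cons (.leaf 1 [(2,1),(7,1)]) (.cons (.leaf 1 [(2,1),(7,1)]) (.cons (.keep [1,5,7,8,10] (.node (.cons (.leaf 1 [(8,1)]) (.cons (.leaf 1 [(8,1),(4,1)]) (.cons (.keep [3,5,7,8,9] (.node (.cons (.leaf 1 [(9,1)]) (.cons (.leaf 1 [(9,1),(4,1)]) (.cons (.leaf 1 []) (.cons (.leaf 1 [(4,1)]) (.cons (.leaf 1 [(9,1),(8,1)]) (.cons (.leaf 1 [(9,1),(8,1),(4,1)]) .nil)))))))) (.cons (.keep [4,6,7,8,10] (.node (.cons (.leaf 1 [(9,1),(6,1)]) (.cons (.leaf 1 [(9,1),(6,1),(4,1)]) (.cons (.leaf 1 [(6,1)]) (.cons (.leaf 1 [(6,1),(4,1)]) (.cons (.leaf 1 [(9,1),(8,1),(6,1)]) (.cons (.leaf 1 [(9,1),(8,1),(6,1),(4,1)]) .nil)))))))) (.cons (.leaf 1 []) (.cons (.leaf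 1 [(4,1)]) .nil)))))))) (.cons (.keep [0,7,8,9,10] (.node (.cons (.leaf 1 [(7,1)]) (.cons (.leaf 1 [(7,1),(4,1)]) (.cons (.keep [5,6,7,8,9] (.node (.cons (.leaf 1 [(8,1)]) (.cons (.leaf 1 [(8,1),(4,1)]) (.cons (.leaf 1 []) (.cons (.leaf 1 [(4,1)]) (.cons (.keep [2,5,6,7,8] (.node (.cons (.leaf 1 [(2,1)]) (.cons (.leaf 1 [(2,1),(10,1)]) (.cons (.leaf 1 []) (.cons (.keep [4,7,8,9,10] (.node (.cons (.leaf 1 [(10,1)]) (.cons (.leaf 1 [(10,1),(4,1)]) (.cons (.leaf 1 [(10,1),(8,1)]) (.cons (.leaf 1 [(10,1),(8,1),(4,1)]) (.cons (.leaf 1 [(10,1),(7,1)]) (.cons (.leaf 1 [(10,1),(7,1),(4,1)]) .nil)))))))) (.cons (.leaf 1 [(2,1)]) (.cons (.leaf 1 [(8,1),(2,1),(10,1)]) .nil)))))))) (.cons (.keep [2,4,6,7,8] (.node (.cons (.leaf 1 [(2,1),(7,1)]) (.cons (.leaf 1 [(2,1),(7,1),(10,1)]) (.cons (.leaf 1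 [(7,1)]) (.cons (.keep [4,7,8,9,10] (.node (.cons (.leaf 1 [(7,1),(10,1)]) (.cons (.leaf 1 [(7,1),(10,1),(4,1)]) (.cons (.leaf 1 [(10,1),(7,1),(8,1)]) (.cons (.leaf 1 [(10,1),(7,1),(8,1),(4,1)]) (.cons (.leaf 1 [(10,1)]) (.cons (.leaf 1 [(10,1),(4,1)]) .nil)))))))) (.cons (.leaf 1 [(2,1),(7,1)]) (.cons (.leaf 1 [(8,1),(2,1),(7,1),(10,1)]) .nil)))))))) .nil)))))))) (.cons (.keep [4,6,7,8,10] (.node (.cons (.leaf 1 [(8,1),(6,1)]) (.cons (.leaf 1 [(8,1),(6,1),(4,1)]) (.cons (.leaf 1 [(6,1)]) (.cons (.leaf 1 [(6,1),(4,1)]) (.cons (.keep [2,5,6,7,8] (.node (.cons (.leaf 1 [(2,1),(8,1)]) (.cons (.leaf 1 [(2,1),(8,1),(10,1)]) (.cons (.leaf 1 [(8,1)]) (.cons (.keep [4,7,8,9,10] (.node (.cons (.leaf 1 [(8,1),(10,1)]) (.cons (.leaf 1 [(8,1),(10,1),(4,1)]) (.cons (.leaf 1 [(10,1)]) (.cons (.leaf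 1 [(10,1),(4,1)]) (.cons (.leaf 1 [(8,1),(10,1),(7,1)]) (.cons (.leaf 1 [(8,1),(10,1),(7,1),(4,1)]) .nil)))))))) (.cons (.leaf 1 [(2,1),(1,1)]) (.cons (.leaf 1 [(2,1),(10,1)]) .nil)))))))) (.cons (.keep [2,4,6,7,8] (.node (.cons (.leaf 1 [(2,1),(8,1),(7,1)]) (.cons (.leaf 1 [(2,1),(8,1),(7,1),(10,1)]) (.cons (.leaf 1 [(8,1),(7,1)]) (.cons (.keep [4,7,8,9,10] (.node (.cons (.leaf 1 [(8,1),(7,1),(10,1)]) (.cons (.leaf 1 [(8,1),(7,1),(10,1),(4,1)]) (.cons (.leaf 1 [(10,1),(7,1)]) (.cons (.leaf 1 [(10,1),(7,1),(4,1)]) (.cons (.leaf 1 [(8,1),(10,1)]) (.cons (.leaf 1 [(8,1),(10,1),(4,1)]) .nil)))))))) (.cons (.leaf 1 [(2,1),(1,1),(7,1)]) (.cons (.leaf 1 [(2,1),(10,1),(7,1)]) .nil)))))))) .nil)))))))) (.cons (.leaf 1 []) (.cons (.leaf 1 [(4,1)]) .nil)))))))) (.cons (.keep [2,5,6,7,8] (.node (.cons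 (.leaf 1 [(9,1)]) (.cons (.leaf 1 [(9,1),(4,1)]) (.cons (.keep [3,5,7,9,10] (.node (.cons (.leaf 1 [(9,1)]) (.cons (.leaf 1 [(9,1),(4,1)]) (.cons (.leaf 1 []) (.cons (.leaf 1 [(4,1)]) (.cons (.leaf 1 [(9,1),(8,1)]) (.cons (.leaf 1 [(9,1),(8,1),(4,1)]) .nil)))))))) (.cons (.keep [4,7,8,9,10] (.node (.cons (.leaf 1 [(9,1),(6,1)]) (.cons (.leaf 1 [(9,1),(6,1),(4,1)]) (.cons (.leaf 1 [(6,1)]) (.cons (.leaf 1 [(6,1),(4,1)]) (.cons (.leaf 1 [(9,1),(7,1),(6,1)]) (.cons (.leaf 1 [(9,1),(7,1),(6,1),(4,1)]) .nil)))))))) (.cons (.leaf 1 []) (.cons (.leaf 1 [(4,1)]) .nil)))))))) (.cons (.keep [0,2,7,8,10] (.node (.cons (.leaf 1 [(8,1)]) (.cons (.leaf 1 [(8,1),(4,1)]) (.cons (.keep [5,6,8,9,10] (.node (.cons (.leaf 1 [(8,1)]) (.cons (.leaf 1 [(8,1),(4,1)]) (.cons (.leaf 1 []) (.cons (.leaf 1 [(4,1)])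 (.cons (.keep [2,5,6,7,8] (.node (.cons (.leaf 1 [(2,1)]) (.cons (.leaf 1 [(2,1),(10,1)]) (.cons (.leaf 1 []) (.cons (.keep [4,7,8,9,10] (.node (.cons (.leaf 1 [(10,1)]) (.cons (.leaf 1 [(10,1),(4,1)]) (.cons (.leaf 1 [(10,1),(8,1)]) (.cons (.leaf 1 [(10,1),(8,1),(4,1)]) (.cons (.leaf 1 [(10,1),(7,1)]) (.cons (.leaf 1 [(10,1),(7,1),(4,1)]) .nil)))))))) (.cons (.leaf 1 [(2,1)]) (.cons (.leaf 1 [(8,1),(2,1),(10,1)]) .nil)))))))) (.cons (.keep [2,4,6,7,8] (.node (.cons (.leaf 1 [(2,1),(7,1)]) (.cons (.leaf 1 [(2,1),(7,1),(10,1)]) (.cons (.leaf 1 [(7,1)]) (.cons (.keep [4,7,8,9,10] (.node (.cons (.leaf 1 [(7,1),(10,1)]) (.cons (.leaf 1 [(7,1),(10,1),(4,1)]) (.cons (.leaf 1 [(10,1),(7,1),(8,1)]) (.cons (.leaf 1 [(10,1),(7,1),(8,1),(4,1)]) (.cons (.leaf 1 [(10,1)]) (.cons (.leaf 1 [(10,1),(4,1)])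 .nil)))))))) (.cons (.leaf 1 [(2,1),(7,1)]) (.cons (.leaf 1 [(8,1),(2,1),(7,1),(10,1)]) .nil)))))))) .nil)))))))) (.cons (.keep [4,6,8,9,10] (.node (.cons (.leaf 1 [(8,1),(6,1)]) (.cons (.leaf 1 [(8,1),(6,1),(4,1)]) (.cons (.leaf 1 [(6,1)]) (.cons (.leaf 1 [(6,1),(4,1)]) (.cons (.keep [5,6,7,8,9] (.node (.cons (.leaf 1 [(2,1),(7,1)]) (.cons (.leaf 1 [(2,1),(7,1),(9,1)]) (.cons (.leaf 1 [(7,1)]) (.cons (.keep [6,7,8,9,10] (.node (.cons (.leaf 1 [(7,1),(9,1)]) (.cons (.leaf 1 [(7,1),(9,1),(4,1)]) (.cons (.leaf 1 [(9,1)]) (.cons (.leaf 1 [(9,1),(4,1)]) (.cons (.leaf 1 [(7,1),(9,1),(6,1)]) (.cons (.leaf 1 [(7,1),(9,1),(6,1),(4,1)]) .nil)))))))) (.cons (.leaf 1 [(2,1),(1,1)]) (.cons (.leaf 1 [(2,1),(9,1)]) .nil)))))))) (.cons (.keep [4,6,7,8,9] (.node (.cons (.leaf 1 [(2,1),(7,1),(6,1)]) (.cons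 (.leaf 1 [(2,1),(7,1),(6,1),(9,1)]) (.cons (.leaf 1 [(7,1),(6,1)]) (.cons (.keep [6,7,8,9,10] (.node (.cons (.leaf 1 [(7,1),(6,1),(9,1)]) (.cons (.leaf 1 [(7,1),(6,1),(9,1),(4,1)]) (.cons (.leaf 1 [(9,1),(6,1)]) (.cons (.leaf 1 [(9,1),(6,1),(4,1)]) (.cons (.leaf 1 [(7,1),(9,1)]) (.cons (.leaf 1 [(7,1),(9,1),(4,1)]) .nil)))))))) (.cons (.leaf 1 [(2,1),(1,1),(6,1)]) (.cons (.leaf 1 [(2,1),(9,1),(6,1)]) .nil)))))))) .nil)))))))) (.cons (.leaf 1 []) (.cons (.leaf 1 [(4,1)]) .nil)))))))) .nil)))))))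

theorem c_7_17_0 : Concl 7 17 z_7_17_0 h_7_17_0 .nd := piece _ hP_nil t_7_17_0 _ _ (by
  decide +kernel)

def t_7_17 : T := (.keep [0,1,2] (.node (.cons (.leaf 1 []) (.cons (.leaf 1 [(4,1)]) (.cons (.keep [1,3,5,8] (.node (.cons (.leaf 1 []) (.cons (.leaf 1 [(4,1)]) (.cons (.keep [1,3,5,8] (.node (.cons (.leaf 1 []) (.cons (.leaf 1 [(4,1)]) (.cons (.keep [1,5,8,9] (.node (.cons (.leaf 1 []) (.cons (.leaf 1 [(4,1)]) (.cons (.leaf 1 [(9,1)]) (.cons (.leaf 1 [(9,1),(4,1)]) (.cons (.leaf 1 [(8,1)]) (.cons (.leaf 1 [(8,1),(4,1)]) .nil)))))))) (.cons (.keep [4,6,7,8,9] (.node (.cons (.leaf 1 [(6,1)]) (.cons (.leaf 1 [(6,1),(4,1)]) (.cons (.leaf 1 [(10,1),(6,1)]) (.cons (.leaf 1 [(10,1),(6,1),(4,1)]) (.cons (.leaf 1 [(9,1),(6,1)]) (.cons (.leaf 1 [(9,1),(6,1),(4,1)]) .nil)))))))) (.cons (.leaf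 1 [(9,1)]) (.cons (.leaf 1 [(9,1),(4,1)]) .nil)))))))) (.cons (.keep [4,6,7,8,9] (.node (.cons (.leaf 1 [(6,1)]) (.cons (.leaf 1 [(6,1),(4,1)]) (.cons (.keep [5,6,7,8,9] (.node (.cons (.leaf 1 [(7,1)]) (.cons (.leaf 1 [(7,1),(4,1)]) (.cons (.leaf 1 [(10,1),(7,1)]) (.cons (.leaf 1 [(10,1),(7,1),(4,1)]) (.cons (.leaf 1 []) (.cons (.leaf 1 [(4,1)]) .nil)))))))) (.cons (.keep [4,6,7,9,10] (.node (.cons (.leaf 1 [(7,1),(6,1)]) (.cons (.leaf 1 [(7,1),(6,1),(4,1)]) (.cons (.leaf 1 [(9,1),(7,1),(6,1)]) (.cons (.leaf 1 [(9,1),(7,1),(6,1),(4,1)]) (.cons (.leaf 1 [(6,1)]) (.cons (.leaf 1 [(6,1),(4,1)]) .nil)))))))) (.cons (.leaf 1 [(9,1),(6,1)]) (.cons (.leaf 1 [(9,1),(6,1),(4,1)]) .nil)))))))) (.cons (.keep [1,2,5,8] (.node (.cons (.leaf 1 [(2,1)]) (.cons (.leaf 1 [(2,1)]) (.cons (.keep [1,5,8,9]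 (.node (.cons (.leaf 1 []) (.cons (.leaf 1 [(4,1)]) (.cons (.leaf 1 [(9,1)]) (.cons (.leaf 1 [(9,1),(4,1)]) (.cons (.leaf 1 [(8,1)]) (.cons (.leaf 1 [(8,1),(4,1)]) .nil)))))))) (.cons (.keep [0,4,8,9] (.node (.cons (.leaf 1 []) (.cons (.leaf 1 [(4,1)]) (.cons (.leaf 1 [(9,1)]) (.cons (.leaf 1 [(9,1),(4,1)]) (.cons (.leaf 1 [(8,1)]) (.cons (.leaf 1 [(8,1),(4,1)]) .nil)))))))) (.cons (.leaf 1 [(9,1),(2,1)]) (.cons (.leaf 1 [(9,1),(2,1)]) .nil)))))))) (.cons (.keep [4,6,7,8,9] (.node (.cons (.leaf 1 [(2,1),(6,1)]) (.cons (.leaf 1 [(2,1),(6,1)]) (.cons (.keep [5,6,7,8,9] (.node (.cons (.leaf 1 [(7,1)]) (.cons (.leaf 1 [(7,1),(4,1)]) (.cons (.leaf 1 [(10,1),(7,1)]) (.cons (.leaf 1 [(10,1),(7,1),(4,1)]) (.cons (.leaf 1 []) (.cons (.leaf 1 [(4,1)]) .nil)))))))) (.cons (.keep [0,6,8,9,10] (.node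 (.cons (.leaf 1 [(7,1)]) (.cons (.leaf 1 [(7,1),(4,1)]) (.cons (.leaf 1 [(9,1),(7,1)]) (.cons (.leaf 1 [(9,1),(7,1),(4,1)]) (.cons (.leaf 1 []) (.cons (.leaf 1 [(4,1)]) .nil)))))))) (.cons (.leaf 1 [(9,1),(2,1),(6,1)]) (.cons (.leaf 1 [(9,1),(2,1),(6,1)]) .nil)))))))) .nil)))))))) (.cons (.keep [1,4,6,7,8] (.node (.cons (.leaf 1 [(7,1)]) (.cons (.leaf 1 [(7,1),(4,1)]) (.cons (.keep [1,5,7,8,10] (.node (.cons (.leaf 1 [(8,1)]) (.cons (.leaf 1 [(8,1),(4,1)]) (.cons (.keep [3,5,7,8,9] (.node (.cons (.leaf 1 [(9,1)]) (.cons (.leaf 1 [(9,1),(4,1)]) (.cons (.leaf 1 []) (.cons (.leaf 1 [(4,1)]) (.cons (.leaf 1 [(9,1),(8,1)]) (.cons (.leaf 1 [(9,1),(8,1),(4,1)]) .nil)))))))) (.cons (.keep [4,6,7,8,10] (.node (.cons (.leaf 1 [(9,1),(6,1)]) (.cons (.leaf 1 [(9,1),(6,1),(4,1)]) (.cons (.leaf 1 [(6,1)])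 (.cons (.leaf 1 [(6,1),(4,1)]) (.cons (.leaf 1 [(9,1),(8,1),(6,1)]) (.cons (.leaf 1 [(9,1),(8,1),(6,1),(4,1)]) .nil)))))))) (.cons (.leaf 1 []) (.cons (.leaf 1 [(4,1)]) .nil)))))))) (.cons (.keep [4,6,7,9,10] (.node (.cons (.leaf 1 [(8,1),(6,1)]) (.cons (.leaf 1 [(8,1),(6,1),(4,1)]) (.cons (.keep [5,6,7,8,9] (.node (.cons (.leaf 1 [(9,1),(7,1)]) (.cons (.leaf 1 [(9,1),(7,1),(4,1)]) (.cons (.leaf 1 [(7,1)]) (.cons (.leaf 1 [(7,1),(4,1)]) (.cons (.leaf 1 [(9,1)]) (.cons (.leaf 1 [(9,1),(4,1)]) .nil)))))))) (.cons (.keep [4,6,7,8,10] (.node (.cons (.leaf 1 [(9,1),(7,1),(6,1)]) (.cons (.leaf 1 [(9,1),(7,1),(6,1),(4,1)]) (.cons (.leaf 1 [(7,1),(6,1)]) (.cons (.leaf 1 [(7,1),(6,1),(4,1)]) (.cons (.leaf 1 [(9,1),(6,1)]) (.cons (.leaf 1 [(9,1),(6,1),(4,1)]) .nil)))))))) (.cons (.leaf 1 [(6,1)])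 (.cons (.leaf 1 [(6,1),(4,1)]) .nil)))))))) (.cons (.keep [1,5,7,8,9] (.node (.cons (.leaf 1 [(2,1),(8,1)]) (.cons (.leaf 1 [(2,1),(8,1)]) (.cons (.keep [3,5,7,8,9] (.node (.cons (.leaf 1 [(9,1)]) (.cons (.leaf 1 [(9,1),(4,1)]) (.cons (.leaf 1 []) (.cons (.leaf 1 [(4,1)]) (.cons (.leaf 1 [(9,1),(8,1)]) (.cons (.leaf 1 [(9,1),(8,1),(4,1)]) .nil)))))))) (.cons (.keep [0,7,8,9,10] (.node (.cons (.leaf 1 [(8,1)]) (.cons (.leaf 1 [(8,1),(4,1)]) (.cons (.leaf 1 []) (.cons (.leaf 1 [(4,1)]) (.cons (.leaf 1 [(8,1),(7,1)]) (.cons (.leaf 1 [(8,1),(7,1),(4,1)]) .nil)))))))) (.cons (.leaf 1 [(2,1)]) (.cons (.leaf 1 [(2,1)]) .nil)))))))) (.cons (.keep [4,6,7,9,10] (.node (.cons (.leaf 1 [(2,1),(8,1),(6,1)]) (.cons (.leaf 1 [(2,1),(8,1),(6,1)]) (.cons (.keep [5,6,7,8,9] (.node (.cons (.leaf 1 [(9,1),(7,1)])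 (.cons (.leaf 1 [(9,1),(7,1),(4,1)]) (.cons (.leaf 1 [(7,1)]) (.cons (.leaf 1 [(7,1),(4,1)]) (.cons (.leaf 1 [(9,1)]) (.cons (.leaf 1 [(9,1),(4,1)]) .nil)))))))) (.cons (.keep [0,6,8,9,10] (.node (.cons (.leaf 1 [(8,1),(7,1)]) (.cons (.leaf 1 [(8,1),(7,1),(4,1)]) (.cons (.leaf 1 [(7,1)]) (.cons (.leaf 1 [(7,1),(4,1)]) (.cons (.leaf 1 [(8,1)]) (.cons (.leaf 1 [(8,1),(4,1)]) .nil)))))))) (.cons (.leaf 1 [(2,1),(6,1)]) (.cons (.leaf 1 [(2,1),(6,1)]) .nil)))))))) .nil)))))))) (.cons (.keep [1,2,5,8] (.node (.cons (.leaf 1 [(2,1)]) (.cons (.leaf 1 [(2,1)]) (.cons (.keep [1,3,5,8] (.node (.cons (.leaf 1 []) (.cons (.leaf 1 [(4,1)]) (.cons (.keep [1,5,8,9] (.node (.cons (.leaf 1 []) (.cons (.leaf 1 [(4,1)]) (.cons (.leaf 1 [(9,1)]) (.cons (.leaf 1 [(9,1),(4,1)]) (.cons (.leaf 1 [(8,1)]) (.cons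 (.leaf 1 [(8,1),(4,1)]) .nil)))))))) (.cons (.keep [4,6,7,8,9] (.node (.cons (.leaf 1 [(6,1)]) (.cons (.leaf 1 [(6,1),(4,1)]) (.cons (.leaf 1 [(10,1),(6,1)]) (.cons (.leaf 1 [(10,1),(6,1),(4,1)]) (.cons (.leaf 1 [(9,1),(6,1)]) (.cons (.leaf 1 [(9,1),(6,1),(4,1)]) .nil)))))))) (.cons (.leaf 1 [(9,1)]) (.cons (.leaf 1 [(9,1),(4,1)]) .nil)))))))) (.cons (.keep [0,3,4,8] (.node (.cons (.leaf 1 []) (.cons (.leaf 1 [(4,1)]) (.cons (.keep [5,6,8,9] (.node (.cons (.leaf 1 []) (.cons (.leaf 1 [(4,1)]) (.cons (.leaf 1 [(9,1)]) (.cons (.leaf 1 [(9,1),(4,1)]) (.cons (.keep [1,5,6,9] (.node (.cons (.leaf 1 [(2,1)]) (.cons (.leaf 1 [(2,1)]) (.cons (.leaf 1 [(9,1)]) (.cons (.keep [0,4,7,8,9] (.node (.cons (.leaf 1 []) (.cons (.leaf 1 [(4,1)]) (.cons (.leaf 1 [(9,1)]) (.cons (.leaf 1 [(9,1),(4,1)]) (.cons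 (.leaf 1 [(8,1)]) (.cons (.leaf 1 [(8,1),(4,1)]) .nil)))))))) (.cons (.leaf 1 [(8,1),(2,1)]) (.cons (.leaf 1 [(8,1),(2,1)]) .nil)))))))) (.cons (.keep [1,4,6,7,9] (.node (.cons (.leaf 1 [(2,1),(7,1)]) (.cons (.leaf 1 [(2,1),(7,1)]) (.cons (.leaf 1 [(10,1),(7,1)]) (.cons (.keep [0,4,7,8,10] (.node (.cons (.leaf 1 [(8,1)]) (.cons (.leaf 1 [(8,1),(4,1)]) (.cons (.leaf 1 [(9,1),(8,1)]) (.cons (.leaf 1 [(9,1),(8,1),(4,1)]) (.cons (.leaf 1 []) (.cons (.leaf 1 [(4,1)]) .nil)))))))) (.cons (.leaf 1 [(8,1),(2,1),(7,1)]) (.cons (.leaf 1 [(8,1),(2,1),(7,1)]) .nil)))))))) .nil)))))))) (.cons (.keep [4,6,7,8,9] (.node (.cons (.leaf 1 [(6,1)]) (.cons (.leaf 1 [(6,1),(4,1)]) (.cons (.leaf 1 [(10,1),(6,1)]) (.cons (.leaf 1 [(10,1),(6,1),(4,1)]) (.cons (.keep [1,5,6,7,10] (.node (.cons (.leaf 1 [(2,1),(8,1)])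 (.cons (.leaf 1 [(2,1),(8,1)]) (.cons (.leaf 1 [(10,1),(8,1)]) (.cons (.keep [0,4,7,8,10] (.node (.cons (.leaf 1 [(9,1)]) (.cons (.leaf 1 [(9,1),(4,1)]) (.cons (.leaf 1 []) (.cons (.leaf 1 [(4,1)]) (.cons (.leaf 1 [(9,1),(8,1)]) (.cons (.leaf 1 [(9,1),(8,1),(4,1)]) .nil)))))))) (.cons (.leaf 1 [(2,1)]) (.cons (.leaf 1 [(2,1)]) .nil)))))))) (.cons (.keep [1,4,6,7,10] (.node (.cons (.leaf 1 [(2,1),(8,1),(7,1)]) (.cons (.leaf 1 [(2,1),(8,1),(7,1)]) (.cons (.leaf 1 [(10,1),(8,1),(7,1)]) (.cons (.keep [0,4,7,8,10] (.node (.cons (.leaf 1 [(9,1),(8,1)]) (.cons (.leaf 1 [(9,1),(8,1),(4,1)]) (.cons (.leaf 1 [(8,1)]) (.cons (.leaf 1 [(8,1),(4,1)]) (.cons (.leaf 1 [(9,1)]) (.cons (.leaf 1 [(9,1),(4,1)]) .nil)))))))) (.cons (.leaf 1 [(2,1),(7,1)]) (.cons (.leaf 1 [(2,1),(7,1)]) .nil)))))))) .nil))))))))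 (.cons (.leaf 1 [(9,1)]) (.cons (.leaf 1 [(9,1),(4,1)]) .nil)))))))) (.cons (.keep [2,5,6,7,8] (.node (.cons (.leaf 1 []) (.cons (.leaf 1 [(4,1)]) (.cons (.keep [1,5,7,10] (.node (.cons (.leaf 1 []) (.cons (.leaf 1 [(4,1)]) (.cons (.leaf 1 [(9,1)]) (.cons (.leaf 1 [(9,1),(4,1)]) (.cons (.leaf 1 [(8,1)]) (.cons (.leaf 1 [(8,1),(4,1)]) .nil)))))))) (.cons (.keep [4,7,8,9,10] (.node (.cons (.leaf 1 [(6,1)]) (.cons (.leaf 1 [(6,1),(4,1)]) (.cons (.leaf 1 [(10,1),(6,1)]) (.cons (.leaf 1 [(10,1),(6,1),(4,1)]) (.cons (.leaf 1 [(7,1),(6,1)]) (.cons (.leaf 1 [(7,1),(6,1),(4,1)]) .nil)))))))) (.cons (.leaf 1 [(10,1)]) (.cons (.leaf 1 [(10,1),(4,1)]) .nil)))))))) (.cons (.keep [0,2,7,8,9] (.node (.cons (.leaf 1 []) (.cons (.leaf 1 [(4,1)]) (.cons (.keep [5,6,8,9] (.node (.cons (.leaf 1 []) (.cons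 (.leaf 1 [(4,1)]) (.cons (.leaf 1 [(9,1)]) (.cons (.leaf 1 [(9,1),(4,1)]) (.cons (.keep [1,5,6,9] (.node (.cons (.leaf 1 [(2,1)]) (.cons (.leaf 1 [(2,1)]) (.cons (.leaf 1 [(9,1)]) (.cons (.keep [0,4,7,8,9] (.node (.cons (.leaf 1 []) (.cons (.leaf 1 [(4,1)]) (.cons (.leaf 1 [(9,1)]) (.cons (.leaf 1 [(9,1),(4,1)]) (.cons (.leaf 1 [(8,1)]) (.cons (.leaf 1 [(8,1),(4,1)]) .nil)))))))) (.cons (.leaf 1 [(8,1),(2,1)]) (.cons (.leaf 1 [(8,1),(2,1)]) .nil)))))))) (.cons (.keep [1,4,6,7,9] (.node (.cons (.leaf 1 [(2,1),(7,1)]) (.cons (.leaf 1 [(2,1),(7,1)]) (.cons (.leaf 1 [(10,1),(7,1)]) (.cons (.keep [0,4,7,8,10] (.node (.cons (.leaf 1 [(8,1)]) (.cons (.leaf 1 [(8,1),(4,1)]) (.cons (.leaf 1 [(9,1),(8,1)]) (.cons (.leaf 1 [(9,1),(8,1),(4,1)]) (.cons (.leaf 1 []) (.cons (.leaf 1 [(4,1)]) .nil))))))))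 (.cons (.leaf 1 [(8,1),(2,1),(7,1)]) (.cons (.leaf 1 [(8,1),(2,1),(7,1)]) .nil)))))))) .nil)))))))) (.cons (.keep [4,6,8,9,10] (.node (.cons (.leaf 1 [(6,1)]) (.cons (.leaf 1 [(6,1),(4,1)]) (.cons (.leaf 1 [(9,1),(6,1)]) (.cons (.leaf 1 [(9,1),(6,1),(4,1)]) (.cons (.keep [5,6,7,8,9] (.node (.cons (.leaf 1 [(2,1),(7,1)]) (.cons (.leaf 1 [(2,1),(7,1)]) (.cons (.leaf 1 [(10,1),(7,1)]) (.cons (.keep [0,4,6,7,10] (.node (.cons (.leaf 1 [(9,1)]) (.cons (.leaf 1 [(9,1),(4,1)]) (.cons (.leaf 1 []) (.cons (.leaf 1 [(4,1)]) (.cons (.leaf 1 [(9,1),(8,1)]) (.cons (.leaf 1 [(9,1),(8,1),(4,1)]) .nil)))))))) (.cons (.leaf 1 [(2,1)]) (.cons (.leaf 1 [(2,1)]) .nil)))))))) (.cons (.keep [4,6,7,8,9] (.node (.cons (.leaf 1 [(2,1),(7,1),(6,1)]) (.cons (.leaf 1 [(2,1),(7,1),(6,1)]) (.cons (.leaf 1 [(10,1),(7,1),(6,1)])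 (.cons (.keep [0,4,6,7,10] (.node (.cons (.leaf 1 [(9,1),(8,1)]) (.cons (.leaf 1 [(9,1),(8,1),(4,1)]) (.cons (.leaf 1 [(8,1)]) (.cons (.leaf 1 [(8,1),(4,1)]) (.cons (.leaf 1 [(9,1)]) (.cons (.leaf 1 [(9,1),(4,1)]) .nil)))))))) (.cons (.leaf 1 [(2,1),(6,1)]) (.cons (.leaf 1 [(2,1),(6,1)]) .nil)))))))) .nil)))))))) (.cons (.leaf 1 [(9,1)]) (.cons (.leaf 1 [(9,1),(4,1)]) .nil)))))))) .nil)))))))) (.cons (.keep [1,4,6,7,8] (.leaf 0 [(0,0)])) .nil))))))))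

theorem e_7_17 : ESB (caseOf 4 7 17) := esb_of_pieces _ (hP_cons c_7_17_0 hP_nil) t_7_17 (by
  decide +kernel)

def ks : List (ℕ × ℕ) := [(5, 28), (5, 29), (5, 30), (5, 31), (6, 17), (6, 18), (6, 19), (6, 21),
  (6, 22), (6, 23), (6, 25), (6, 26), (6, 27), (6, 29), (6, 30), (6, 31), (7, 17)]

theorem ks_ok : ∀ p ∈ ks, ESB (caseOf 4 p.1 p.2) := ks_cons e_5_28 <| ks_cons e_5_29 <| ks_cons
  e_5_30 <| ks_cons e_5_31 <| ks_cons e_6_17 <| ks_cons e_6_18 <| ks_cons e_6_19 <| ks_cons e_6_21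
  <| ks_cons e_6_22 <| ks_cons e_6_23 <| ks_cons e_6_25 <| ks_cons e_6_26 <| ks_cons e_6_27 <|
  ks_cons e_6_29 <| ks_cons e_6_30 <| ks_cons e_6_31 <| ks_cons e_7_17 <| ks_nil

end Pool.Agent.H4.RD4.E01
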