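import Pool.Agent.H4.RD4.Chk

/-! # Certificates for special cases of order four -/

set_option maxRecDepth 20000

namespace Pool.Agent.H4.RD4.E03

open Pool.Agent.H50.Rdb
open Pool.Agent.H81.RDE (ESB caseOf)

def t_7_22 : T := (.keep [0,1,2] (.node (.cons (.keep [2,5,6,9] (.node (.cons (.leaf 1 [(2,1)]) (.cons (.leaf 1 [(3,1)]) (.cons (.keep [3,7,8,9] (.node (.cons (.leaf 1 [(9,1),(2,1)]) (.cons (.leaf 1 [(9,1),(3,1)]) (.cons (.keep [0,2,8,9,10] (.node (.cons (.leaf 1 [(3,1)]) (.cons (.leaf 1 [(3,1)]) (.cons (.leaf 1 [(3,1)]) (.cons (.leaf 2 [(3,1),(11,1)]) (.cons (.leaf 2 [(3,1),(11,1)]) (.cons (.leaf 2 [(3,1),(11,1)]) (.cons (.leaf 2 [(5,1),(11,1)]) (.cons (.keep [0,1,7,10,11] (.node (.cons (.leaf 1 [(2,1)]) (.cons (.leaf 1 [(2,1)]) (.cons (.leaf 1 [(2,1)]) (.cons (.leaf 1 [(11,1)])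 (.cons (.leaf 1 [(3,1),(11,1)]) (.cons (.leaf 1 [(0,1),(11,1)]) (.cons (.leaf 1 [(11,1),(2,1)]) (.cons (.leaf 1 [(11,1)]) (.cons (.leaf 1 [(0,1),(2,1),(11,1)]) .nil))))))))))) (.cons (.keep [0,1,5,7,10,11] (.node (.cons (.leaf 1 [(2,1)]) (.cons (.leaf 1 [(2,1)]) (.cons (.leaf 1 [(2,1)]) (.cons (.leaf 1 [(12,1)]) (.cons (.leaf 1 [(3,1),(12,1)]) (.cons (.leaf 1 [(0,1),(12,1)]) (.cons (.leaf 1 [(12,1),(2,1)]) (.cons (.leaf 1 [(12,1)]) (.cons (.leaf 1 [(0,1),(2,1),(12,1)]) .nil))))))))))) .nil))))))))))) (.cons (.leaf 1 [(9,1)]) (.cons (.leaf 1 [(9,1),(3,1)]) (.cons (.keep [0,1,8,9,10] (.node (.cons (.leaf 1 [(3,1)]) (.cons (.leaf 1 [(3,1)]) (.cons (.leaf 1 [(3,1)]) (.cons (.leaf 2 [(3,1),(11,1)]) (.cons (.leaf 2 [(3,1),(11,1)]) (.cons (.leaf 2 [(3,1),(11,1)]) (.cons (.leaf 2 [(5,1),(11,1)])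 (.cons (.keep [0,1,7,10,11] (.node (.cons (.leaf 1 [(2,1)]) (.cons (.leaf 1 [(2,1)]) (.cons (.leaf 1 [(2,1)]) (.cons (.leaf 1 [(11,1)]) (.cons (.leaf 1 [(3,1),(11,1)]) (.cons (.leaf 1 [(0,1),(11,1)]) (.cons (.leaf 1 [(11,1),(2,1)]) (.cons (.leaf 1 [(11,1)]) (.cons (.leaf 1 [(0,1),(2,1),(11,1)]) .nil))))))))))) (.cons (.keep [0,1,7,10,11] (.node (.cons (.leaf 1 [(2,1)]) (.cons (.leaf 1 [(2,1)]) (.cons (.leaf 1 [(2,1)]) (.cons (.leaf 1 [(11,1)]) (.cons (.leaf 1 [(11,1),(3,1)]) (.cons (.leaf 1 [(0,1),(11,1)]) (.cons (.leaf 1 [(2,1),(11,1)]) (.cons (.leaf 1 [(11,1)]) (.cons (.leaf 1 [(2,1),(0,1),(11,1)]) .nil))))))))))) .nil))))))))))) (.cons (.leaf 1 [(9,1),(2,1)]) (.cons (.leaf 1 [(9,1)]) (.cons (.leaf 1 [(1,1),(10,1)]) .nil))))))))))) (.cons (.leaf 1 []) (.cons (.leaf 1 [(3,1)]) (.cons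 (.leaf 1 [(1,1),(8,1)]) (.cons (.leaf 1 [(2,1)]) (.cons (.leaf 1 []) (.cons (.keep [0,1,8,9,10] (.node (.cons (.leaf 1 [(9,1),(2,1)]) (.cons (.leaf 1 [(3,1),(9,1)]) (.cons (.keep [0,2,8,9,10,11] (.node (.cons (.leaf 1 [(2,1),(3,1)]) (.cons (.leaf 1 [(3,2)]) (.cons (.leaf 1 [(3,1),(9,1)]) (.cons (.leaf 2 [(3,1),(11,1)]) (.cons (.leaf 2 [(3,2),(11,1)]) (.cons (.leaf 1 [(1,1),(11,1)]) (.cons (.leaf 2 [(11,1)]) (.cons (.keep [0,1,7,10,11] (.node (.cons (.leaf 1 [(2,1)]) (.cons (.leaf 1 [(2,1)]) (.cons (.leaf 1 [(2,1)]) (.cons (.leaf 1 [(11,1)]) (.cons (.leaf 1 [(3,1),(11,1)]) (.cons (.leaf 1 [(0,1),(11,1)]) (.cons (.leaf 1 [(11,1),(2,1)]) (.cons (.leaf 1 [(11,1)]) (.cons (.leaf 1 [(0,1),(2,1),(11,1)]) .nil))))))))))) (.cons (.keep [5,7,9,10,11,12] (.node (.cons (.leaf 1 [(9,1),(2,1)])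 (.cons (.leaf 1 [(9,1),(2,1)]) (.cons (.leaf 1 [(9,1),(2,1)]) (.cons (.leaf 1 [(11,1)]) (.cons (.leaf 1 [(11,1),(3,1)]) (.cons (.leaf 1 [(9,1),(0,1),(11,1)]) (.cons (.leaf 1 [(11,1),(2,1)]) (.cons (.leaf 1 [(11,1)]) (.cons (.leaf 1 [(9,1),(2,1),(0,1),(11,1)]) .nil))))))))))) .nil))))))))))) (.cons (.leaf 1 [(9,1)]) (.cons (.leaf 1 [(3,1),(9,1)]) (.cons (.keep [0,1,9,10,11] (.node (.cons (.leaf 1 [(2,1),(3,1)]) (.cons (.leaf 1 [(3,2)]) (.cons (.leaf 1 [(3,1),(8,1)]) (.cons (.leaf 2 [(3,1),(10,1)]) (.cons (.leaf 2 [(3,2),(10,1)]) (.cons (.leaf 2 [(3,1),(8,1),(10,1)]) (.cons (.leaf 2 [(10,1)]) (.cons (.keep [0,1,7,9,10] (.node (.cons (.leaf 1 [(2,1)]) (.cons (.leaf 1 [(2,1)]) (.cons (.leaf 1 [(2,1)]) (.cons (.leaf 1 [(11,1)]) (.cons (.leaf 1 [(3,1),(11,1)]) (.cons (.leaf 1 [(0,1),(11,1)])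 (.cons (.leaf 1 [(11,1),(2,1)]) (.cons (.leaf 1 [(11,1)]) (.cons (.leaf 1 [(0,1),(2,1),(11,1)]) .nil))))))))))) (.cons (.keep [7,8,9,10,11] (.node (.cons (.leaf 1 [(8,1),(2,1)]) (.cons (.leaf 1 [(8,1),(2,1)]) (.cons (.leaf 1 [(8,1),(2,1)]) (.cons (.leaf 1 [(10,1)]) (.cons (.leaf 1 [(10,1),(3,1)]) (.cons (.leaf 1 [(8,1),(0,1),(10,1)]) (.cons (.leaf 1 [(10,1),(2,1)]) (.cons (.leaf 1 [(10,1)]) (.cons (.leaf 1 [(8,1),(2,1),(0,1),(10,1)]) .nil))))))))))) .nil))))))))))) (.cons (.leaf 1 [(9,1),(2,1)]) (.cons (.leaf 1 [(9,1)]) (.cons (.leaf 1 [(10,1),(1,1)]) .nil))))))))))) .nil))))))))))) (.cons (.keep [3,4,6,9] (.node (.cons (.leaf 2 [(8,1)]) (.cons (.leaf 1 [(3,1),(8,1)]) (.cons (.keep [0,3,4,8,9] (.node (.cons (.leaf 1 [(2,1)]) (.cons (.leaf 1 [(3,1)]) (.cons (.keep [2,7,9,10,11] (.node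 (.cons (.leaf 1 [(10,1),(3,1)]) (.cons (.leaf 1 [(10,1),(3,1)]) (.cons (.leaf 1 [(10,1),(3,1)]) (.cons (.leaf 2 [(3,1),(10,1),(11,1)]) (.cons (.leaf 1 [(11,1),(1,1)]) (.cons (.leaf 2 [(3,1),(10,1),(11,1)]) (.cons (.leaf 2 [(5,1),(10,1),(11,1)]) (.cons (.keep [6,8,9,10,11] (.node (.cons (.leaf 1 [(3,1)]) (.cons (.leaf 1 [(3,1)]) (.cons (.leaf 1 [(3,1)]) (.cons (.leaf 1 [(11,1)]) (.cons (.leaf 1 [(3,1),(11,1)]) (.cons (.leaf 1 [(3,1),(0,1),(11,1)]) (.cons (.leaf 1 [(11,1),(2,1)]) (.cons (.leaf 1 [(11,1)]) (.cons (.leaf 1 [(0,1),(11,1)]) .nil))))))))))) (.cons (.keep [0,5,9,10,11] (.node (.cons (.leaf 1 [(3,1)]) (.cons (.leaf 1 [(3,1)]) (.cons (.leaf 1 [(3,1)]) (.cons (.leaf 1 [(11,1)]) (.cons (.leaf 1 [(3,1),(11,1)]) (.cons (.leaf 1 [(3,1),(0,1),(11,1)]) (.cons (.leaf 1 [(11,1),(2,1)])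 (.cons (.leaf 1 [(11,1)]) (.cons (.leaf 1 [(0,1),(11,1)]) .nil))))))))))) .nil))))))))))) (.cons (.leaf 1 []) (.cons (.leaf 1 [(3,1)]) (.cons (.keep [0,1,7,9,10,11] (.node (.cons (.leaf 1 [(3,1),(11,1)]) (.cons (.leaf 1 [(3,1),(11,1)]) (.cons (.leaf 1 [(11,1),(3,1)]) (.cons (.leaf 2 [(3,1),(11,1),(12,1)]) (.cons (.leaf 1 [(1,1),(12,1)]) (.cons (.leaf 1 [(1,1),(12,1)]) (.cons (.leaf 1 [(12,1),(1,1),(5,1)]) (.cons (.keep [6,9,10,11,12] (.node (.cons (.leaf 1 [(3,1)]) (.cons (.leaf 1 [(3,1)]) (.cons (.leaf 1 [(3,1)]) (.cons (.leaf 1 [(11,1)]) (.cons (.leaf 1 [(3,1),(11,1)]) (.cons (.leaf 1 [(3,1),(0,1),(11,1)]) (.cons (.leaf 1 [(11,1),(2,1)]) (.cons (.leaf 1 [(11,1)]) (.cons (.leaf 1 [(0,1),(11,1)]) .nil))))))))))) (.cons (.keep [5,8,9,10,11,12] (.node (.cons (.leaf 1 [(8,1),(5,1),(2,1)])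 (.cons (.leaf 1 [(8,1),(3,1)]) (.cons (.leaf 1 [(8,1),(3,1)]) (.cons (.leaf 1 [(12,1)]) (.cons (.leaf 1 [(3,1),(12,1)]) (.cons (.leaf 1 [(3,1),(12,1),(0,1),(8,1)]) (.cons (.leaf 1 [(12,1),(2,1)]) (.cons (.leaf 1 [(12,1)]) (.cons (.leaf 1 [(8,1),(0,1),(12,1)]) .nil))))))))))) .nil))))))))))) (.cons (.leaf 1 [(2,1)]) (.cons (.leaf 1 []) (.cons (.leaf 1 [(1,1),(11,1)]) .nil))))))))))) (.cons (.leaf 1 [(1,1)]) (.cons (.leaf 1 [(1,1)]) (.cons (.leaf 1 [(1,1)]) (.cons (.leaf 1 [(5,1),(1,1)]) (.cons (.leaf 1 [(8,1)]) (.cons (.keep [0,1,8,9,10] (.node (.cons (.leaf 1 [(2,1)]) (.cons (.leaf 1 [(3,1)]) (.cons (.keep [4,7,8,9,10] (.node (.cons (.leaf 1 [(10,1),(2,1),(3,1)]) (.cons (.leaf 1 [(10,1),(3,2)]) (.cons (.leaf 1 [(10,1),(9,1),(3,1)]) (.cons (.leaf 2 [(3,1),(10,1),(11,1)]) (.cons (.leaf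 1 [(11,1),(1,1)]) (.cons (.leaf 2 [(3,1),(9,1),(11,1),(10,1)]) (.cons (.leaf 2 [(10,1),(11,1)]) (.cons (.keep [6,7,8,10,11] (.node (.cons (.leaf 1 [(3,1)]) (.cons (.leaf 1 [(3,1)]) (.cons (.leaf 1 [(3,1)]) (.cons (.leaf 1 [(11,1)]) (.cons (.leaf 1 [(3,1),(11,1)]) (.cons (.leaf 1 [(3,1),(0,1),(11,1)]) (.cons (.leaf 1 [(11,1),(2,1)]) (.cons (.leaf 1 [(11,1)]) (.cons (.leaf 1 [(0,1),(11,1)]) .nil))))))))))) (.cons (.keep [7,8,9,10,11] (.node (.cons (.leaf 1 [(3,1)]) (.cons (.leaf 1 [(3,1)]) (.cons (.leaf 1 [(3,1)]) (.cons (.leaf 1 [(11,1)]) (.cons (.leaf 1 [(3,1),(11,1)]) (.cons (.leaf 1 [(3,1),(0,1),(11,1)]) (.cons (.leaf 1 [(11,1),(2,1)]) (.cons (.leaf 1 [(11,1)]) (.cons (.leaf 1 [(0,1),(11,1)]) .nil))))))))))) .nil))))))))))) (.cons (.leaf 1 []) (.cons (.leaf 1 [(3,1)]) (.cons (.keep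 [1,7,9,10,11] (.node (.cons (.leaf 1 [(2,1),(9,1),(3,1)]) (.cons (.leaf 1 [(3,2),(9,1)]) (.cons (.leaf 1 [(9,1),(3,1),(7,1)]) (.cons (.leaf 2 [(3,1),(9,1),(10,1)]) (.cons (.leaf 1 [(1,1),(10,1)]) (.cons (.leaf 1 [(1,1),(10,1)]) (.cons (.leaf 1 [(10,1),(1,1),(5,1)]) (.cons (.keep [6,8,9,10,11] (.node (.cons (.leaf 1 [(3,1)]) (.cons (.leaf 1 [(3,1)]) (.cons (.leaf 1 [(3,1)]) (.cons (.leaf 1 [(10,1)]) (.cons (.leaf 1 [(3,1),(10,1)]) (.cons (.leaf 1 [(3,1),(0,1),(10,1)]) (.cons (.leaf 1 [(10,1),(2,1)]) (.cons (.leaf 1 [(10,1)]) (.cons (.leaf 1 [(0,1),(10,1)]) .nil))))))))))) (.cons (.keep [7,8,9,10,11] (.node (.cons (.leaf 1 [(7,1),(5,1),(2,1)]) (.cons (.leaf 1 [(7,1),(3,1)]) (.cons (.leaf 1 [(7,1),(3,1)]) (.cons (.leaf 1 [(10,1)]) (.cons (.leaf 1 [(3,1),(10,1)]) (.cons (.leaf 1 [(3,1),(10,1),(0,1),(7,1)])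 (.cons (.leaf 1 [(10,1),(2,1)]) (.cons (.leaf 1 [(10,1)]) (.cons (.leaf 1 [(7,1),(0,1),(10,1)]) .nil))))))))))) .nil))))))))))) (.cons (.leaf 1 [(2,1)]) (.cons (.leaf 1 []) (.cons (.leaf 1 [(1,1),(10,1)]) .nil))))))))))) .nil))))))))))) (.cons (.keep [0,4,5,9] (.node (.cons (.leaf 1 [(8,1),(2,1)]) (.cons (.leaf 1 [(8,1),(3,1)]) (.cons (.keep [0,3,7,8,9] (.node (.cons (.leaf 1 [(11,1),(2,1)]) (.cons (.leaf 2 [(11,1)]) (.cons (.keep [0,2,5,7,10,11] (.node (.cons (.leaf 1 [(8,1)]) (.cons (.leaf 1 [(3,1),(11,1)]) (.cons (.leaf 1 [(3,1),(11,1)]) (.cons (.leaf 1 [(1,1)]) (.cons (.leaf 1 [(1,1)]) (.cons (.leaf 1 [(1,1)]) (.cons (.leaf 1 [(5,1),(1,1)]) (.cons (.keep [6,7,9,10,11,12] (.node (.cons (.leaf 1 [(2,1)]) (.cons (.leaf 1 [(3,1)]) (.cons (.leaf 1 [(11,1),(2,1)]) (.cons (.leaf 1 [])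 (.cons (.leaf 1 [(3,1)]) (.cons (.leaf 1 [(11,1),(0,1)]) (.cons (.leaf 1 [(2,1)]) (.cons (.leaf 1 []) (.cons (.leaf 1 [(11,1),(2,1),(0,1)]) .nil))))))))))) (.cons (.keep [0,5,7,9,11,12] (.node (.cons (.leaf 1 [(2,1)]) (.cons (.leaf 1 [(3,1)]) (.cons (.leaf 1 [(11,1),(2,1)]) (.cons (.leaf 1 []) (.cons (.leaf 1 [(3,1)]) (.cons (.leaf 1 [(11,1),(0,1)]) (.cons (.leaf 1 [(2,1)]) (.cons (.leaf 1 []) (.cons (.leaf 1 [(11,1),(2,1),(0,1)]) .nil))))))))))) .nil))))))))))) (.cons (.leaf 1 [(11,1)]) (.cons (.leaf 1 [(1,1),(4,1)]) (.cons (.keep [0,1,7,9,10,11] (.node (.cons (.leaf 1 [(3,1),(11,1)]) (.cons (.leaf 1 [(3,1),(11,1)]) (.cons (.leaf 1 [(3,1),(11,1)]) (.cons (.leaf 1 [(1,1)]) (.cons (.leaf 1 [(1,1)]) (.cons (.leaf 1 [(1,1)]) (.cons (.leaf 1 [(5,1),(1,1)]) (.cons (.keep [6,7,9,10,11,12]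 (.node (.cons (.leaf 1 [(2,1)]) (.cons (.leaf 1 [(3,1)]) (.cons (.leaf 1 [(11,1),(2,1)]) (.cons (.leaf 1 []) (.cons (.leaf 1 [(3,1)]) (.cons (.leaf 1 [(11,1),(0,1)]) (.cons (.leaf 1 [(2,1)]) (.cons (.leaf 1 []) (.cons (.leaf 1 [(11,1),(2,1),(0,1)]) .nil))))))))))) (.cons (.keep [7,8,9,10,11,12] (.node (.cons (.leaf 1 [(2,1)]) (.cons (.leaf 1 [(3,1)]) (.cons (.leaf 1 [(11,1),(2,1)]) (.cons (.leaf 1 []) (.cons (.leaf 1 [(3,1)]) (.cons (.leaf 1 [(11,1),(0,1)]) (.cons (.leaf 1 [(2,1)]) (.cons (.leaf 1 []) (.cons (.leaf 1 [(11,1),(2,1),(0,1)]) .nil))))))))))) .nil))))))))))) (.cons (.leaf 1 [(1,1)]) (.cons (.leaf 1 [(1,1)]) (.cons (.leaf 1 [(1,1)]) .nil))))))))))) (.cons (.leaf 1 [(8,1)]) (.cons (.leaf 1 [(8,1),(3,1)]) (.cons (.leaf 1 [(1,1),(9,1)]) (.cons (.leaf 1 [(8,1),(2,1)]) (.cons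 (.leaf 1 [(8,1)]) (.cons (.keep [0,1,8,9,10] (.node (.cons (.leaf 1 [(10,1),(2,1)]) (.cons (.leaf 1 [(8,1),(4,1)]) (.cons (.keep [0,7,8,9,10,11] (.node (.cons (.leaf 2 [(3,1),(10,1)]) (.cons (.leaf 1 [(3,2),(10,1)]) (.cons (.leaf 1 [(9,1),(10,1),(3,1)]) (.cons (.leaf 1 [(1,1)]) (.cons (.leaf 1 [(1,1)]) (.cons (.leaf 1 [(1,1)]) (.cons (.leaf 1 [(5,1),(1,1)]) (.cons (.keep [6,7,8,10,11,12] (.node (.cons (.leaf 1 [(2,1)]) (.cons (.leaf 1 [(3,1)]) (.cons (.leaf 1 [(10,1),(2,1)]) (.cons (.leaf 1 []) (.cons (.leaf 1 [(3,1)]) (.cons (.leaf 1 [(10,1),(0,1)]) (.cons (.leaf 1 [(2,1)]) (.cons (.leaf 1 []) (.cons (.leaf 1 [(10,1),(2,1),(0,1)]) .nil))))))))))) (.cons (.keep [7,8,9,10,11,12] (.node (.cons (.leaf 1 [(2,1)]) (.cons (.leaf 1 [(3,1)]) (.cons (.leaf 1 [(9,1),(10,1),(2,1)]) (.cons (.leaf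 1 []) (.cons (.leaf 1 [(3,1)]) (.cons (.leaf 1 [(9,1),(10,1),(0,1)]) (.cons (.leaf 1 [(2,1)]) (.cons (.leaf 1 []) (.cons (.leaf 1 [(9,1),(2,1),(10,1),(0,1)]) .nil))))))))))) .nil))))))))))) (.cons (.leaf 1 [(10,1)]) (.cons (.leaf 1 [(1,1),(4,1)]) (.cons (.keep [0,1,7,9,10,11] (.node (.cons (.leaf 2 [(3,1),(10,1)]) (.cons (.leaf 1 [(3,2),(10,1)]) (.cons (.leaf 1 [(8,1),(10,1),(3,1)]) (.cons (.leaf 1 [(1,1)]) (.cons (.leaf 1 [(1,1)]) (.cons (.leaf 1 [(1,1)]) (.cons (.leaf 1 [(5,1),(1,1)]) (.cons (.keep [6,7,9,10,11,12] (.node (.cons (.leaf 1 [(2,1)]) (.cons (.leaf 1 [(3,1)]) (.cons (.leaf 1 [(10,1),(2,1)]) (.cons (.leaf 1 []) (.cons (.leaf 1 [(3,1)]) (.cons (.leaf 1 [(10,1),(0,1)]) (.cons (.leaf 1 [(2,1)]) (.cons (.leaf 1 []) (.cons (.leaf 1 [(10,1),(2,1),(0,1)]) .nil))))))))))) (.cons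 (.keep [7,8,9,10,11,12] (.node (.cons (.leaf 1 [(2,1)]) (.cons (.leaf 1 [(3,1)]) (.cons (.leaf 1 [(8,1),(10,1),(2,1)]) (.cons (.leaf 1 []) (.cons (.leaf 1 [(3,1)]) (.cons (.leaf 1 [(8,1),(10,1),(0,1)]) (.cons (.leaf 1 [(2,1)]) (.cons (.leaf 1 []) (.cons (.leaf 1 [(8,1),(2,1),(10,1),(0,1)]) .nil))))))))))) .nil))))))))))) (.cons (.leaf 1 [(1,1)]) (.cons (.leaf 1 [(1,1)]) (.cons (.leaf 1 [(1,1)]) .nil))))))))))) .nil))))))))))) (.cons (.leaf 1 []) (.cons (.leaf 1 [(4,1)]) (.cons (.leaf 1 [(4,1)]) (.cons (.leaf 1 [(5,1)]) (.cons (.leaf 1 []) (.cons (.leaf 1 [(5,1)]) .nil)))))))))))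

theorem e_7_22 : ESB (caseOf 4 7 22) := esb_of_ok (t := t_7_22) (by decide +kernel)

def t_7_23 : T := (.keep [0,1,2] (.node (.cons (.leaf 1 []) (.cons (.leaf 1 [(4,1)]) (.cons (.leaf 1 [(4,1)]) (.cons (.leaf 1 [(4,1)]) (.cons (.leaf 1 [(5,1)]) (.cons (.leaf 1 []) (.cons (.leaf 1 [(5,1)]) (.cons (.leaf 1 [(5,1)]) (.cons (.leaf 1 [(6,1)]) (.cons (.leaf 1 [(6,1)]) (.cons (.leaf 1 []) (.cons (.leaf 1 [(6,1)]) .nil))))))))))))))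

theorem e_7_23 : ESB (caseOf 4 7 23) := esb_of_ok (t := t_7_23) (by decide +kernel)

def t_7_25 : T := (.keep [0,1,2] (.node (.cons (.leaf 1 []) (.cons (.leaf 1 [(4,1)]) (.cons (.leaf 1 [(4,1)]) (.cons (.keep [1,3,5,6] (.node (.cons (.leaf 1 []) (.cons (.leaf 1 [(4,1)]) (.cons (.leaf 1 [(4,1)]) (.cons (.keep [1,5,6,9] (.node (.cons (.leaf 1 []) (.cons (.leaf 1 [(4,1)]) (.cons (.leaf 1 [(4,1)]) (.cons (.leaf 1 [(10,1)]) (.cons (.leaf 1 [(10,1),(4,1)]) (.cons (.leaf 1 [(10,1),(4,1)]) (.cons (.leaf 1 [(8,1)]) (.cons (.leaf 1 [(8,1),(4,1)]) (.cons (.leaf 1 [(8,1),(4,1)]) .nil))))))))))) (.cons (.keep [4,6,7,8,9] (.node (.cons (.leaf 1 [(7,1)]) (.cons (.leaf 1 [(7,1),(4,1)]) (.cons (.leaf 1 [(7,1),(4,1)]) (.cons (.leaf 1 [(11,1),(7,1)]) (.cons (.leaf 1 [(11,1),(7,1),(4,1)]) (.cons (.leaf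 1 [(11,1),(7,1),(4,1)]) (.cons (.leaf 1 []) (.cons (.leaf 1 [(4,1)]) (.cons (.leaf 1 [(4,1)]) .nil))))))))))) (.cons (.keep [4,7,8,9,10] (.node (.cons (.leaf 1 [(7,1)]) (.cons (.leaf 1 [(4,2)]) (.cons (.leaf 1 [(7,1),(4,1)]) (.cons (.leaf 1 [(10,1),(7,1)]) (.cons (.leaf 1 [(10,1),(4,2)]) (.cons (.leaf 1 [(10,1),(7,1),(4,1)]) (.cons (.leaf 1 [(11,1),(7,1)]) (.cons (.leaf 1 [(11,1),(4,2)]) (.cons (.leaf 1 [(11,1),(7,1),(4,1)]) .nil))))))))))) (.cons (.leaf 1 [(9,1)]) (.cons (.leaf 1 [(9,1),(4,1)]) (.cons (.leaf 1 [(9,1),(4,1)]) .nil))))))))))) (.cons (.keep [4,6,7,8,9] (.node (.cons (.leaf 1 [(7,1)]) (.cons (.leaf 1 [(7,1),(4,1)]) (.cons (.leaf 1 [(7,1),(4,1)]) (.cons (.keep [6,7,8,9,11] (.node (.cons (.leaf 1 [(8,1)]) (.cons (.leaf 1 [(8,1),(4,1)]) (.cons (.leaf 1 [(8,1),(4,1)]) (.cons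 (.leaf 1 []) (.cons (.leaf 1 [(4,1)]) (.cons (.leaf 1 [(4,1)]) (.cons (.leaf 1 [(9,1)]) (.cons (.leaf 1 [(9,1),(4,1)]) (.cons (.leaf 1 [(9,1),(4,1)]) .nil))))))))))) (.cons (.keep [4,6,8,10,11] (.node (.cons (.leaf 1 [(9,1),(7,2)]) (.cons (.leaf 1 [(9,1),(7,2),(4,1)]) (.cons (.leaf 1 [(9,1),(7,2),(4,1)]) (.cons (.leaf 1 [(7,1)]) (.cons (.leaf 1 [(7,1),(4,1)]) (.cons (.leaf 1 [(7,1),(4,1)]) (.cons (.leaf 1 [(9,1),(1,1)]) (.cons (.leaf 1 [(9,1),(1,1),(4,1)]) (.cons (.leaf 1 [(9,1),(1,1),(4,1)]) .nil))))))))))) (.cons (.keep [4,7,8,10,11] (.node (.cons (.leaf 1 [(8,1),(7,1)]) (.cons (.leaf 1 [(8,1),(4,2)]) (.cons (.leaf 1 [(8,1),(7,1),(4,1)]) (.cons (.leaf 1 [(7,1)]) (.cons (.leaf 1 [(4,2)]) (.cons (.leaf 1 [(7,1),(4,1)]) (.cons (.leaf 1 [(9,1),(7,1)]) (.cons (.leaf 1 [(9,1),(4,2)])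 (.cons (.leaf 1 [(9,1),(7,1),(4,1)]) .nil))))))))))) (.cons (.leaf 1 []) (.cons (.leaf 1 [(4,1)]) (.cons (.leaf 1 [(4,1)]) .nil))))))))))) (.cons (.keep [1,4,5,7,8] (.node (.cons (.leaf 1 [(8,1)]) (.cons (.leaf 1 [(4,2)]) (.cons (.leaf 1 [(8,1),(4,1)]) (.cons (.keep [1,5,6,8,9] (.node (.cons (.leaf 1 [(10,1)]) (.cons (.leaf 1 [(10,1),(4,1)]) (.cons (.leaf 1 [(10,1),(4,1)]) (.cons (.leaf 1 [(11,1)]) (.cons (.leaf 1 [(11,1),(4,1)]) (.cons (.leaf 1 [(11,1),(4,1)]) (.cons (.leaf 1 []) (.cons (.leaf 1 [(4,1)]) (.cons (.leaf 1 [(4,1)]) .nil))))))))))) (.cons (.keep [4,6,7,9,10] (.node (.cons (.leaf 1 [(7,2)]) (.cons (.leaf 1 [(7,2),(4,1)]) (.cons (.leaf 1 [(7,2),(4,1)]) (.cons (.leaf 1 [(10,1),(7,1)]) (.cons (.leaf 1 [(10,1),(7,1),(4,1)]) (.cons (.leaf 1 [(10,1),(7,1),(4,1)]) (.cons (.leaf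 1 [(1,1)]) (.cons (.leaf 1 [(1,1),(4,1)]) (.cons (.leaf 1 [(1,1),(4,1)]) .nil))))))))))) (.cons (.keep [5,7,8,9,11] (.node (.cons (.leaf 1 [(9,2),(7,1)]) (.cons (.leaf 1 [(9,1),(4,2)]) (.cons (.leaf 1 [(9,2),(7,1),(4,1)]) (.cons (.leaf 1 [(10,1),(9,1),(7,1)]) (.cons (.leaf 1 [(10,1),(4,2)]) (.cons (.leaf 1 [(10,1),(9,1),(7,1),(4,1)]) (.cons (.leaf 1 [(1,1),(7,1)]) (.cons (.leaf 1 [(4,2)]) (.cons (.leaf 1 [(1,1),(7,1),(4,1)]) .nil))))))))))) (.cons (.leaf 1 [(9,1)]) (.cons (.leaf 1 [(9,1),(4,1)]) (.cons (.leaf 1 [(9,1),(4,1)]) .nil))))))))))) (.cons (.keep [1,2,5,6] (.node (.cons (.leaf 1 [(2,1)]) (.cons (.leaf 1 [(2,1)]) (.cons (.leaf 1 [(2,1)]) (.cons (.keep [1,5,6,9] (.node (.cons (.leaf 1 []) (.cons (.leaf 1 [(4,1)]) (.cons (.leaf 1 [(4,1)]) (.cons (.leaf 1 [(10,1)]) (.cons (.leaf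 1 [(10,1),(4,1)]) (.cons (.leaf 1 [(10,1),(4,1)]) (.cons (.leaf 1 [(8,1)]) (.cons (.leaf 1 [(8,1),(4,1)]) (.cons (.leaf 1 [(8,1),(4,1)]) .nil))))))))))) (.cons (.keep [1,4,6,9,10] (.node (.cons (.leaf 1 []) (.cons (.leaf 1 [(4,1)]) (.cons (.leaf 1 [(4,1)]) (.cons (.leaf 1 [(10,1)]) (.cons (.leaf 1 [(10,1),(4,1)]) (.cons (.leaf 1 [(10,1),(4,1)]) (.cons (.leaf 1 [(11,1)]) (.cons (.leaf 1 [(11,1),(4,1)]) (.cons (.leaf 1 [(11,1),(4,1)]) .nil))))))))))) (.cons (.keep [0,4,9,10] (.node (.cons (.leaf 1 []) (.cons (.leaf 1 [(4,1)]) (.cons (.leaf 1 [(4,1)]) (.cons (.leaf 1 [(9,1)]) (.cons (.leaf 1 [(9,1),(4,1)]) (.cons (.leaf 1 [(9,1),(4,1)]) (.cons (.leaf 1 [(10,1)]) (.cons (.leaf 1 [(10,1),(4,1)]) (.cons (.leaf 1 [(10,1),(4,1)]) .nil))))))))))) (.cons (.leaf 1 [(9,1),(2,1)]) (.cons (.leaf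 1 [(9,1),(2,1)]) (.cons (.leaf 1 [(9,1),(2,1)]) .nil))))))))))) (.cons (.keep [4,6,7,8,9] (.node (.cons (.leaf 1 [(2,1),(7,1)]) (.cons (.leaf 1 [(2,1),(7,1)]) (.cons (.leaf 1 [(2,1),(7,1)]) (.cons (.keep [6,7,8,9,11] (.node (.cons (.leaf 1 [(8,1)]) (.cons (.leaf 1 [(8,1),(4,1)]) (.cons (.leaf 1 [(8,1),(4,1)]) (.cons (.leaf 1 []) (.cons (.leaf 1 [(4,1)]) (.cons (.leaf 1 [(4,1)]) (.cons (.leaf 1 [(9,1)]) (.cons (.leaf 1 [(9,1),(4,1)]) (.cons (.leaf 1 [(9,1),(4,1)]) .nil))))))))))) (.cons (.keep [6,7,8,9,10,11] (.node (.cons (.leaf 1 [(8,1)]) (.cons (.leaf 1 [(8,1),(4,1)]) (.cons (.leaf 1 [(8,1),(4,1)]) (.cons (.leaf 1 []) (.cons (.leaf 1 [(4,1)]) (.cons (.leaf 1 [(4,1)]) (.cons (.leaf 1 [(9,1)]) (.cons (.leaf 1 [(9,1),(4,1)]) (.cons (.leaf 1 [(9,1),(4,1)]) .nil))))))))))) (.cons (.keep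 [0,7,8,9,10] (.node (.cons (.leaf 1 [(8,1)]) (.cons (.leaf 1 [(8,1),(4,1)]) (.cons (.leaf 1 [(8,1),(4,1)]) (.cons (.leaf 1 []) (.cons (.leaf 1 [(4,1)]) (.cons (.leaf 1 [(4,1)]) (.cons (.leaf 1 [(9,1)]) (.cons (.leaf 1 [(9,1),(4,1)]) (.cons (.leaf 1 [(9,1),(4,1)]) .nil))))))))))) (.cons (.leaf 1 [(2,1)]) (.cons (.leaf 1 [(2,1)]) (.cons (.leaf 1 [(2,1)]) .nil))))))))))) (.cons (.keep [1,4,5,7,8] (.node (.cons (.leaf 1 [(2,1),(8,1)]) (.cons (.leaf 1 [(2,1),(4,1)]) (.cons (.leaf 1 [(2,1),(8,1)]) (.cons (.keep [1,5,6,8,9] (.node (.cons (.leaf 1 [(10,1)]) (.cons (.leaf 1 [(10,1),(4,1)]) (.cons (.leaf 1 [(10,1),(4,1)]) (.cons (.leaf 1 [(11,1)]) (.cons (.leaf 1 [(11,1),(4,1)]) (.cons (.leaf 1 [(11,1),(4,1)]) (.cons (.leaf 1 []) (.cons (.leaf 1 [(4,1)]) (.cons (.leaf 1 [(4,1)]) .nil)))))))))))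 (.cons (.keep [1,4,6,9,11] (.node (.cons (.leaf 1 [(8,1)]) (.cons (.leaf 1 [(8,1),(4,1)]) (.cons (.leaf 1 [(8,1),(4,1)]) (.cons (.leaf 1 [(10,1)]) (.cons (.leaf 1 [(10,1),(4,1)]) (.cons (.leaf 1 [(10,1),(4,1)]) (.cons (.leaf 1 []) (.cons (.leaf 1 [(4,1)]) (.cons (.leaf 1 [(4,1)]) .nil))))))))))) (.cons (.keep [0,5,8,9,11] (.node (.cons (.leaf 1 [(9,1)]) (.cons (.leaf 1 [(9,1),(4,1)]) (.cons (.leaf 1 [(9,1),(4,1)]) (.cons (.leaf 1 [(10,1)]) (.cons (.leaf 1 [(10,1),(4,1)]) (.cons (.leaf 1 [(10,1),(4,1)]) (.cons (.leaf 1 []) (.cons (.leaf 1 [(4,1)]) (.cons (.leaf 1 [(4,1)]) .nil))))))))))) (.cons (.leaf 1 [(2,1),(9,1)]) (.cons (.leaf 1 [(2,1),(9,1)]) (.cons (.leaf 1 [(2,1),(9,1)]) .nil))))))))))) .nil)))))))))))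

theorem e_7_25 : ESB (caseOf 4 7 25) := esb_of_ok (t := t_7_25) (by decide +kernel)

def z_7_26_0 : F := ⟨-1, 1, 0, 0, 1⟩

def h_7_26_0 : List F := [⟨0, 1, 0, 0, 0⟩, ⟨1, 0, -1, 0, 0⟩, ⟨1, 0, 0, -1, 0⟩, ⟨-1, 0, 0, 0, 1⟩]

def t_7_26_0 : T := (.node (.cons (.leaf 1 [(2,2)]) (.cons (.leaf 2 [(2,2),(9,1)]) (.cons (.keep [0,2,8,9,10] (.node (.cons (.leaf 1 [(5,1)]) (.cons (.leaf 1 []) (.cons (.leaf 1 [(5,1)]) (.cons (.leaf 2 [(5,1),(9,1)]) (.cons (.leaf 2 [(9,1),(4,1)]) (.cons (.leaf 2 [(4,1),(9,1),(5,1)]) (.cons (.leaf 2 [(5,1),(8,2),(9,1)]) (.cons (.leaf 2 [(10,1),(8,1)]) (.cons (.leaf 2 [(10,1),(5,1),(8,1)]) .nil))))))))))) (.cons (.keep [0,1,8,9] (.node (.cons (.keep [2,3,5,6] (.node (.cons (.leaf 1 [(2,1)]) (.cons (.leaf 2 [(10,1)]) (.cons (.keep [2,7,9,10] (.node (.cons (.leaf 1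 [(5,1),(2,1)]) (.cons (.keep [0,7,9,10] (.node (.cons (.leaf 1 [(3,1)]) (.cons (.leaf 1 [(3,1)]) (.cons (.leaf 1 [(3,1)]) (.cons (.leaf 1 [(9,1)]) (.cons (.leaf 1 [(3,1),(7,1),(9,1)]) (.cons (.leaf 1 [(3,1),(0,1),(9,1)]) (.cons (.leaf 1 [(9,1),(2,1)]) (.cons (.leaf 1 [(7,1),(9,1)]) (.cons (.leaf 1 [(0,1),(9,1)]) .nil))))))))))) (.cons (.keep [0,5,8,9,10] (.node (.cons (.leaf 1 [(3,1)]) (.cons (.leaf 1 [(3,1)]) (.cons (.leaf 1 [(3,1)]) (.cons (.leaf 1 [(10,1)]) (.cons (.leaf 1 [(3,1),(7,1),(10,1)]) (.cons (.leaf 1 [(3,1),(0,1),(10,1)]) (.cons (.leaf 1 [(10,1),(2,1)]) (.cons (.leaf 1 [(7,1),(10,1)]) (.cons (.leaf 1 [(0,1),(10,1)]) .nil))))))))))) (.cons (.leaf 2 [(5,1),(9,1)]) (.cons (.leaf 1 [(1,1),(9,1)]) (.cons (.leaf 1 [(1,1),(9,1)]) (.cons (.leaf 2 [(5,1),(9,1)]) (.cons (.leaf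 1 [(1,1),(10,1)]) (.cons (.leaf 1 [(1,1),(10,1)]) .nil))))))))))) (.cons (.leaf 1 []) (.cons (.leaf 2 [(1,1),(10,1)]) (.cons (.keep [0,1,4,9,10] (.node (.cons (.leaf 1 [(2,2),(5,1)]) (.cons (.leaf 1 [(8,2)]) (.cons (.leaf 1 [(5,1),(8,2)]) (.cons (.leaf 2 [(5,1),(10,1)]) (.cons (.leaf 2 [(8,2),(10,1)]) (.cons (.leaf 1 [(1,1),(10,1)]) (.cons (.leaf 3 [(10,2),(1,1),(5,1)]) (.cons (.leaf 2 [(8,2),(11,1)]) (.cons (.leaf 1 [(1,1),(11,1)]) .nil))))))))))) (.cons (.leaf 1 [(2,1)]) (.cons (.leaf 1 [(1,1),(9,1)]) (.cons (.leaf 1 [(1,1),(9,1)]) .nil))))))))))) (.cons (.keep [3,4,6,7] (.node (.cons (.leaf 1 [(8,1),(2,1)]) (.cons (.leaf 2 [(9,1),(8,1)]) (.cons (.keep [0,2,3,8,9] (.node (.cons (.leaf 1 [(8,1)]) (.cons (.keep [6,7,8,10,11] (.node (.cons (.leaf 1 [(2,1)]) (.cons (.leaf 1 [(7,1),(3,1)])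 (.cons (.leaf 1 [(10,1),(3,1)]) (.cons (.leaf 1 []) (.cons (.leaf 1 [(3,1),(7,1)]) (.cons (.leaf 1 [(3,1),(10,1),(0,1)]) (.cons (.leaf 1 [(2,1)]) (.cons (.leaf 1 [(7,1)]) (.cons (.leaf 1 [(10,1),(0,1)]) .nil))))))))))) (.cons (.keep [0,5,8,10,11] (.node (.cons (.leaf 1 [(2,1)]) (.cons (.leaf 1 [(10,1),(3,1)]) (.cons (.leaf 1 [(10,1),(3,1)]) (.cons (.leaf 1 []) (.cons (.leaf 1 [(3,1),(10,1),(7,1)]) (.cons (.leaf 1 [(3,1),(10,1),(0,1)]) (.cons (.leaf 1 [(2,1)]) (.cons (.leaf 1 [(10,1),(7,1)]) (.cons (.leaf 1 [(10,1),(0,1)]) .nil))))))))))) (.cons (.leaf 1 [(1,1)]) (.cons (.leaf 1 [(1,1)]) (.cons (.leaf 1 [(1,1)]) (.cons (.leaf 1 [(8,1),(1,1)]) (.cons (.leaf 1 [(1,1),(11,1)]) (.cons (.leaf 1 [(1,1),(11,1)]) .nil))))))))))) (.cons (.leaf 1 [(8,1)]) (.cons (.leaf 2 [(1,1),(9,1),(8,1)])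 (.cons (.keep [0,1,8,9,10] (.node (.cons (.leaf 3 [(5,1),(9,1)]) (.cons (.leaf 1 [(8,2),(9,1)]) (.cons (.leaf 1 [(8,2),(9,1),(5,1)]) (.cons (.leaf 1 [(1,1)]) (.cons (.leaf 1 [(1,1)]) (.cons (.leaf 1 [(1,1)]) (.cons (.leaf 3 [(5,1),(1,1),(9,1)]) (.cons (.leaf 2 [(10,1),(8,2),(9,1)]) (.cons (.leaf 2 [(10,1),(8,2),(9,1),(5,1)]) .nil))))))))))) (.cons (.leaf 1 [(1,1)]) (.cons (.leaf 1 [(1,1)]) (.cons (.leaf 1 [(1,1)]) .nil))))))))))) (.cons (.keep [0,3,4,5] (.node (.cons (.leaf 1 [(9,1),(2,1)]) (.cons (.leaf 2 [(9,1)]) (.cons (.keep [0,2,7,9,10] (.node (.cons (.leaf 1 [(5,1),(2,1),(10,1)]) (.cons (.keep [6,7,8,10,11] (.node (.cons (.leaf 1 [(3,1),(10,1)]) (.cons (.leaf 1 [(3,1),(10,1)]) (.cons (.leaf 1 [(3,1),(10,1)]) (.cons (.leaf 1 [(1,1)]) (.cons (.leaf 1 [(1,1)]) (.cons (.leaf 1 [(1,1)])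 (.cons (.leaf 3 [(11,1),(10,1)]) (.cons (.leaf 1 [(7,1),(11,1)]) (.cons (.leaf 1 [(0,1),(10,1),(11,1)]) .nil))))))))))) (.cons (.keep [0,5,8,10,11] (.node (.cons (.leaf 1 [(5,1),(9,1)]) (.cons (.leaf 1 [(3,1),(10,1)]) (.cons (.leaf 1 [(3,1),(10,1)]) (.cons (.leaf 1 [(1,1)]) (.cons (.leaf 1 [(1,1)]) (.cons (.leaf 1 [(1,1)]) (.cons (.leaf 1 [(5,1),(1,1),(8,1)]) (.cons (.leaf 1 [(7,1),(10,1),(11,1)]) (.cons (.leaf 1 [(0,1),(10,1),(11,1)]) .nil))))))))))) (.cons (.leaf 2 [(5,1),(11,1),(10,1)]) (.cons (.leaf 1 [(1,1),(11,1)]) (.cons (.leaf 1 [(1,1),(11,1)]) (.cons (.leaf 1 [(1,1)]) (.cons (.leaf 1 [(1,1)]) (.cons (.leaf 1 [(1,1)]) .nil))))))))))) (.cons (.leaf 1 [(9,1)]) (.cons (.leaf 1 [(1,1),(4,1)]) (.cons (.keep [0,1,7,9,10] (.node (.cons (.leaf 1 [(10,1),(5,1),(2,2)]) (.cons (.leaf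 1 [(8,2),(10,1)]) (.cons (.leaf 1 [(8,2),(10,1),(5,1)]) (.cons (.leaf 2 [(5,1),(11,1),(10,1)]) (.cons (.leaf 1 [(1,1),(11,1)]) (.cons (.leaf 2 [(5,1),(11,1),(8,2),(10,1)]) (.cons (.leaf 1 [(1,1)]) (.cons (.leaf 1 [(1,1)]) (.cons (.leaf 1 [(1,1)]) .nil))))))))))) (.cons (.leaf 1 [(9,1),(2,1)]) (.cons (.leaf 2 [(1,1),(9,1)]) (.cons (.leaf 1 [(1,1),(10,1)]) .nil))))))))))) (.cons (.leaf 1 []) (.cons (.leaf 1 [(4,1)]) (.cons (.leaf 1 [(4,1)]) (.cons (.keep [1,5,6,9,10] (.node (.cons (.leaf 1 [(2,2)]) (.cons (.leaf 2 [(2,2),(9,1)]) (.cons (.keep [0,2,8,9,10] (.node (.cons (.leaf 1 [(5,1)]) (.cons (.leaf 1 []) (.cons (.leaf 1 [(5,1)]) (.cons (.leaf 2 [(5,1),(9,1)]) (.cons (.leaf 2 [(9,1),(4,1)]) (.cons (.leaf 2 [(4,1),(9,1),(5,1)]) (.cons (.leaf 2 [(5,1),(8,2),(9,1)]) (.cons (.leaf 2 [(10,1),(8,1)])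 (.cons (.leaf 2 [(10,1),(5,1),(8,1)]) .nil))))))))))) (.cons (.leaf 1 [(11,1)]) (.cons (.leaf 1 [(9,1),(4,1)]) (.cons (.keep [1,4,8,9,11] (.node (.cons (.leaf 1 [(5,1),(2,1)]) (.cons (.leaf 1 [(7,1)]) (.cons (.leaf 1 [(7,1),(5,1)]) (.cons (.leaf 2 [(5,1),(9,1)]) (.cons (.leaf 2 [(9,1)]) (.cons (.leaf 2 [(5,1),(9,1)]) (.cons (.leaf 1 [(5,1),(9,1),(8,1)]) (.cons (.leaf 2 [(10,1)]) (.cons (.leaf 2 [(10,1),(5,1)]) .nil))))))))))) (.cons (.leaf 1 [(8,1),(2,1)]) (.cons (.leaf 1 [(2,1),(8,1)]) (.cons (.leaf 1 [(2,1),(8,1)]) .nil))))))))))) (.cons (.keep [1,4,6,8,10] (.node (.cons (.leaf 1 [(2,2),(8,1)]) (.cons (.leaf 2 [(2,2),(9,1),(8,1)]) (.cons (.keep [0,2,8,9,10] (.node (.cons (.leaf 1 [(8,2)]) (.cons (.leaf 1 [(9,1)]) (.cons (.leaf 1 [(9,1),(5,1)]) (.cons (.leaf 1 [(1,1)]) (.cons (.leaf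 1 [(1,1),(4,1)]) (.cons (.leaf 1 [(1,1),(4,1)]) (.cons (.leaf 1 [(1,1),(8,2)]) (.cons (.leaf 2 [(10,1),(8,1),(9,1)]) (.cons (.leaf 2 [(10,1),(8,1),(9,1),(5,1)]) .nil))))))))))) (.cons (.leaf 1 [(11,1),(8,1)]) (.cons (.leaf 1 [(9,1),(4,1)]) (.cons (.keep [0,1,4,8,9,11] (.node (.cons (.leaf 1 [(5,1),(9,1)]) (.cons (.leaf 1 [(8,1),(10,1)]) (.cons (.leaf 1 [(8,1),(10,1),(5,1)]) (.cons (.leaf 1 [(1,1)]) (.cons (.leaf 1 [(1,1),(4,1)]) (.cons (.leaf 1 [(1,1),(4,1)]) (.cons (.leaf 1 [(5,1),(9,1)]) (.cons (.leaf 2 [(11,1),(10,1)]) (.cons (.leaf 2 [(11,1),(10,1),(5,1)]) .nil))))))))))) (.cons (.leaf 1 [(2,1)]) (.cons (.leaf 1 [(2,1)]) (.cons (.leaf 1 [(2,1)]) .nil))))))))))) (.cons (.keep [1,4,5,8,10] (.node (.cons (.leaf 1 [(2,2),(8,1)]) (.cons (.leaf 1 [(4,1)]) (.cons (.keep [0,2,8,9,10]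 (.node (.cons (.leaf 1 [(5,1),(9,1)]) (.cons (.leaf 1 [(9,1)]) (.cons (.leaf 1 [(9,1),(5,1)]) (.cons (.leaf 2 [(5,1),(10,1),(9,1)]) (.cons (.leaf 2 [(4,1),(10,1),(9,1)]) (.cons (.leaf 2 [(4,1),(10,1),(9,1),(5,1)]) (.cons (.leaf 1 [(8,1),(1,1)]) (.cons (.leaf 1 [(1,1),(8,1)]) (.cons (.leaf 1 [(1,1),(8,1)]) .nil))))))))))) (.cons (.leaf 1 [(11,1),(8,1)]) (.cons (.leaf 1 [(4,1)]) (.cons (.keep [0,1,8,9,10,11] (.node (.cons (.leaf 1 [(5,1),(2,1),(9,1)]) (.cons (.leaf 1 [(8,1),(9,1)]) (.cons (.leaf 1 [(8,1),(9,1),(5,1)]) (.cons (.leaf 2 [(5,1),(10,1),(9,1)]) (.cons (.leaf 2 [(10,1),(9,1)]) (.cons (.leaf 2 [(10,1),(9,1),(5,1)]) (.cons (.leaf 2 [(5,1),(9,1)]) (.cons (.leaf 2 [(9,1)]) (.cons (.leaf 2 [(9,1),(5,1)]) .nil))))))))))) (.cons (.leaf 1 [(2,1),(9,1)]) (.cons (.leaf 1 [(4,1)]) (.cons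 (.leaf 1 [(9,1),(2,1)]) .nil))))))))))) .nil))))))))))) (.cons (.leaf 1 [(9,1),(4,1)]) (.cons (.keep [1,4,8,9] (.node (.cons (.leaf 1 [(5,1),(2,1)]) (.cons (.leaf 1 [(7,1)]) (.cons (.leaf 1 [(7,1),(5,1)]) (.cons (.leaf 2 [(5,1),(9,1)]) (.cons (.leaf 2 [(9,1)]) (.cons (.leaf 2 [(5,1),(9,1)]) (.cons (.leaf 1 [(5,1),(9,1),(8,1)]) (.cons (.leaf 2 [(10,1)]) (.cons (.leaf 2 [(10,1),(5,1)]) .nil))))))))))) (.cons (.leaf 1 [(8,1),(2,1)]) (.cons (.leaf 1 [(2,1),(8,1)]) (.cons (.leaf 1 [(2,1),(8,1)]) .nil))))))))))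

theorem c_7_26_0 : Concl 7 26 z_7_26_0 h_7_26_0 .nd := piece _ hP_nil t_7_26_0 _ _ (by
  decide +kernel)

def t_7_26 : T := (.keep [0,1,2] (.node (.cons (.keep [2,3,5,6] (.node (.cons (.leaf 1 [(2,1)]) (.cons (.leaf 2 [(10,1)]) (.cons (.keep [2,7,9,10] (.node (.cons (.leaf 1 [(5,1),(2,1)]) (.cons (.keep [0,7,9,10] (.node (.cons (.leaf 1 [(3,1)]) (.cons (.leaf 1 [(3,1)]) (.cons (.leaf 1 [(3,1)]) (.cons (.leaf 1 [(9,1)]) (.cons (.leaf 1 [(3,1),(7,1),(9,1)]) (.cons (.leaf 1 [(3,1),(0,1),(9,1)]) (.cons (.leaf 1 [(9,1),(2,1)]) (.cons (.leaf 1 [(7,1),(9,1)]) (.cons (.leaf 1 [(0,1),(9,1)]) .nil))))))))))) (.cons (.keep [0,5,8,9,10] (.node (.cons (.leaf 1 [(3,1)]) (.cons (.leaf 1 [(3,1)]) (.cons (.leaf 1 [(3,1)]) (.cons (.leaf 1 [(10,1)]) (.cons (.leaf 1 [(3,1),(7,1),(10,1)]) (.cons (.leaf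 1 [(3,1),(0,1),(10,1)]) (.cons (.leaf 1 [(10,1),(2,1)]) (.cons (.leaf 1 [(7,1),(10,1)]) (.cons (.leaf 1 [(0,1),(10,1)]) .nil))))))))))) (.cons (.leaf 2 [(5,1),(9,1)]) (.cons (.leaf 1 [(1,1),(9,1)]) (.cons (.leaf 1 [(1,1),(9,1)]) (.cons (.leaf 2 [(5,1),(9,1)]) (.cons (.leaf 1 [(1,1),(10,1)]) (.cons (.leaf 1 [(1,1),(10,1)]) .nil))))))))))) (.cons (.leaf 1 []) (.cons (.leaf 2 [(1,1),(10,1)]) (.cons (.keep [0,1,4,9,10] (.node (.cons (.leaf 1 [(2,2),(5,1)]) (.cons (.leaf 1 [(8,2)]) (.cons (.leaf 1 [(5,1),(8,2)]) (.cons (.leaf 2 [(5,1),(10,1)]) (.cons (.leaf 2 [(8,2),(10,1)]) (.cons (.leaf 1 [(1,1),(10,1)]) (.cons (.leaf 3 [(10,2),(1,1),(5,1)]) (.cons (.leaf 2 [(8,2),(11,1)]) (.cons (.leaf 1 [(1,1),(11,1)]) .nil))))))))))) (.cons (.leaf 1 [(2,1)]) (.cons (.leaf 1 [(1,1),(9,1)]) (.cons (.leaf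 1 [(1,1),(9,1)]) .nil))))))))))) (.cons (.keep [3,4,6,9] (.node (.cons (.leaf 1 [(8,1),(2,1)]) (.cons (.leaf 2 [(9,1),(8,1)]) (.cons (.keep [0,2,3,8,9] (.node (.cons (.leaf 1 [(8,1)]) (.cons (.keep [6,7,8,10,11] (.node (.cons (.leaf 1 [(2,1)]) (.cons (.leaf 1 [(7,1),(3,1)]) (.cons (.leaf 1 [(10,1),(3,1)]) (.cons (.leaf 1 []) (.cons (.leaf 1 [(3,1),(7,1)]) (.cons (.leaf 1 [(3,1),(10,1),(0,1)]) (.cons (.leaf 1 [(2,1)]) (.cons (.leaf 1 [(7,1)]) (.cons (.leaf 1 [(10,1),(0,1)]) .nil))))))))))) (.cons (.keep [0,5,8,10,11] (.node (.cons (.leaf 1 [(2,1)]) (.cons (.leaf 1 [(10,1),(3,1)]) (.cons (.leaf 1 [(10,1),(3,1)]) (.cons (.leaf 1 []) (.cons (.leaf 1 [(3,1),(10,1),(7,1)]) (.cons (.leaf 1 [(3,1),(10,1),(0,1)]) (.cons (.leaf 1 [(2,1)]) (.cons (.leaf 1 [(10,1),(7,1)]) (.cons (.leaf 1 [(10,1),(0,1)])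 .nil))))))))))) (.cons (.leaf 1 [(1,1)]) (.cons (.leaf 1 [(1,1)]) (.cons (.leaf 1 [(1,1)]) (.cons (.leaf 1 [(8,1),(1,1)]) (.cons (.leaf 1 [(1,1),(11,1)]) (.cons (.leaf 1 [(1,1),(11,1)]) .nil))))))))))) (.cons (.leaf 1 [(8,1)]) (.cons (.leaf 2 [(1,1),(9,1),(8,1)]) (.cons (.keep [0,1,8,9,10] (.node (.cons (.leaf 3 [(5,1),(9,1)]) (.cons (.leaf 1 [(8,2),(9,1)]) (.cons (.leaf 1 [(8,2),(9,1),(5,1)]) (.cons (.leaf 1 [(1,1)]) (.cons (.leaf 1 [(1,1)]) (.cons (.leaf 1 [(1,1)]) (.cons (.leaf 3 [(5,1),(1,1),(9,1)]) (.cons (.leaf 2 [(10,1),(8,2),(9,1)]) (.cons (.leaf 2 [(10,1),(8,2),(9,1),(5,1)]) .nil))))))))))) (.cons (.leaf 1 [(1,1)]) (.cons (.leaf 1 [(1,1)]) (.cons (.leaf 1 [(1,1)]) .nil))))))))))) (.cons (.keep [0,3,4,5] (.node (.cons (.leaf 1 [(9,1),(2,1)]) (.cons (.leaf 2 [(9,1)]) (.cons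 (.keep [0,2,7,9,10] (.node (.cons (.leaf 1 [(5,1),(2,1),(10,1)]) (.cons (.keep [6,7,8,10,11] (.node (.cons (.leaf 1 [(3,1),(10,1)]) (.cons (.leaf 1 [(3,1),(10,1)]) (.cons (.leaf 1 [(3,1),(10,1)]) (.cons (.leaf 1 [(1,1)]) (.cons (.leaf 1 [(1,1)]) (.cons (.leaf 1 [(1,1)]) (.cons (.leaf 3 [(11,1),(10,1)]) (.cons (.leaf 1 [(7,1),(11,1)]) (.cons (.leaf 1 [(0,1),(10,1),(11,1)]) .nil))))))))))) (.cons (.keep [0,5,8,10,11] (.node (.cons (.leaf 1 [(5,1),(9,1)]) (.cons (.leaf 1 [(3,1),(10,1)]) (.cons (.leaf 1 [(3,1),(10,1)]) (.cons (.leaf 1 [(1,1)]) (.cons (.leaf 1 [(1,1)]) (.cons (.leaf 1 [(1,1)]) (.cons (.leaf 1 [(5,1),(1,1),(8,1)]) (.cons (.leaf 1 [(7,1),(10,1),(11,1)]) (.cons (.leaf 1 [(0,1),(10,1),(11,1)]) .nil))))))))))) (.cons (.leaf 2 [(5,1),(11,1),(10,1)]) (.cons (.leaf 1 [(1,1),(11,1)])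 (.cons (.leaf 1 [(1,1),(11,1)]) (.cons (.leaf 1 [(1,1)]) (.cons (.leaf 1 [(1,1)]) (.cons (.leaf 1 [(1,1)]) .nil))))))))))) (.cons (.leaf 1 [(9,1)]) (.cons (.leaf 1 [(1,1),(4,1)]) (.cons (.keep [0,1,7,9,10] (.node (.cons (.leaf 1 [(10,1),(5,1),(2,2)]) (.cons (.leaf 1 [(8,2),(10,1)]) (.cons (.leaf 1 [(8,2),(10,1),(5,1)]) (.cons (.leaf 2 [(5,1),(11,1),(10,1)]) (.cons (.leaf 1 [(1,1),(11,1)]) (.cons (.leaf 2 [(5,1),(11,1),(8,2),(10,1)]) (.cons (.leaf 1 [(1,1)]) (.cons (.leaf 1 [(1,1)]) (.cons (.leaf 1 [(1,1)]) .nil))))))))))) (.cons (.leaf 1 [(9,1),(2,1)]) (.cons (.leaf 2 [(1,1),(9,1)]) (.cons (.leaf 1 [(1,1),(10,1)]) .nil))))))))))) (.cons (.leaf 1 []) (.cons (.leaf 1 [(4,1)]) (.cons (.leaf 1 [(4,1)]) (.cons (.keep [1,5,6,8] (.leaf 0 [(0,0)])) (.cons (.keep [1,4,6,8] (.node (.cons (.leaf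 1 [(2,2),(8,1)]) (.cons (.leaf 2 [(2,2),(9,1),(8,1)]) (.cons (.keep [0,2,4,8,9] (.node (.cons (.leaf 1 [(8,2)]) (.cons (.leaf 1 [(10,1)]) (.cons (.leaf 1 [(10,1),(5,1)]) (.cons (.leaf 1 [(1,1)]) (.cons (.leaf 1 [(1,1),(4,1)]) (.cons (.leaf 1 [(1,1),(4,1)]) (.cons (.leaf 1 [(1,1),(8,2)]) (.cons (.leaf 2 [(11,1),(8,1),(10,1)]) (.cons (.leaf 2 [(11,1),(8,1),(10,1),(5,1)]) .nil))))))))))) (.cons (.keep [3,6,8,9,10] (.node (.cons (.leaf 1 [(9,2)]) (.cons (.leaf 1 [(9,2),(4,1)]) (.cons (.leaf 1 [(9,2),(4,1)]) (.cons (.leaf 1 [(1,1)]) (.cons (.leaf 1 [(1,1),(4,1)]) (.cons (.leaf 1 [(1,1),(4,1)]) (.cons (.leaf 1 [(9,1),(10,1)]) (.cons (.leaf 1 [(9,1),(10,1),(4,1)]) (.cons (.leaf 1 [(9,1),(10,1),(4,1)]) .nil))))))))))) (.cons (.leaf 1 [(9,1),(4,1)]) (.cons (.keep [0,1,8,9,10] (.node (.cons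 (.leaf 3 [(5,2),(9,2)]) (.cons (.leaf 1 [(8,1),(9,1)]) (.cons (.leaf 1 [(8,1),(9,1),(5,1)]) (.cons (.leaf 1 [(1,1)]) (.cons (.leaf 1 [(1,1),(4,1)]) (.cons (.leaf 1 [(1,1),(4,1)]) (.cons (.leaf 2 [(5,1),(10,1),(9,1)]) (.cons (.leaf 2 [(10,1),(9,1)]) (.cons (.leaf 2 [(10,1),(9,1),(5,1)]) .nil))))))))))) (.cons (.leaf 1 [(2,1)]) (.cons (.leaf 1 [(2,1)]) (.cons (.leaf 1 [(2,1)]) .nil))))))))))) (.cons (.keep [1,4,5,8] (.node (.cons (.leaf 1 [(2,2),(8,1)]) (.cons (.leaf 1 [(4,1)]) (.cons (.keep [0,2,8,9,10] (.node (.cons (.leaf 1 [(5,1),(9,1)]) (.cons (.leaf 1 [(9,1)]) (.cons (.leaf 1 [(9,1),(5,1)]) (.cons (.leaf 2 [(5,1),(10,1),(9,1)]) (.cons (.leaf 2 [(4,1),(10,1),(9,1)]) (.cons (.leaf 2 [(4,1),(10,1),(9,1),(5,1)]) (.cons (.leaf 1 [(8,1),(1,1)]) (.cons (.leaf 1 [(1,1),(8,1)]) (.cons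 (.leaf 1 [(1,1),(8,1)]) .nil))))))))))) (.cons (.keep [5,6,8,9,10] (.node (.cons (.keep [3,5,6,9,10] (.node (.cons (.leaf 1 []) (.cons (.leaf 2 [(10,2),(9,1)]) (.cons (.keep [0,8,9,10,11] (.node (.cons (.leaf 1 [(2,2),(5,1)]) (.cons (.leaf 1 [(10,2)]) (.cons (.leaf 1 [(5,1),(10,2)]) (.cons (.leaf 2 [(5,1),(8,1)]) (.cons (.leaf 1 [(1,3),(8,2)]) (.cons (.leaf 1 [(1,1),(8,1),(10,1)]) (.cons (.leaf 1 [(8,1),(1,1)]) (.cons (.leaf 1 [(1,3),(9,2)]) (.cons (.leaf 1 [(1,1),(9,1),(10,1)]) .nil))))))))))) (.cons (.leaf 1 [(1,1)]) (.cons (.leaf 2 [(1,3),(9,1)]) (.cons (.keep [0,1,8,9,11] (.node (.cons (.leaf 1 [(2,3),(5,1)]) (.cons (.leaf 1 [(8,3)]) (.cons (.leaf 1 [(5,1),(8,3)]) (.cons (.leaf 2 [(5,1),(9,1)]) (.cons (.leaf 2 [(8,4),(9,1)]) (.cons (.leaf 1 [(8,1),(1,1),(9,1)]) (.cons (.leaf 1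 [(9,1),(1,1)]) (.cons (.leaf 2 [(8,4),(10,1)]) (.cons (.leaf 1 [(8,1),(1,1),(10,1)]) .nil))))))))))) (.cons (.leaf 1 [(1,1)]) (.cons (.leaf 1 [(10,1),(1,1),(8,1)]) (.cons (.leaf 1 [(10,1),(1,1),(8,1)]) .nil))))))))))) (.cons (.keep [3,4,6,8,9] (.node (.cons (.leaf 1 [(8,1)]) (.cons (.leaf 2 [(11,2),(9,1),(8,1)]) (.cons (.keep [0,4,8,9,11] (.node (.cons (.leaf 1 []) (.cons (.leaf 1 [(9,1),(11,2)]) (.cons (.leaf 1 [(5,1),(9,1),(11,2)]) (.cons (.leaf 1 [(1,1)]) (.cons (.leaf 1 [(1,1),(11,1)]) (.cons (.leaf 1 [(1,1),(11,1)]) (.cons (.leaf 1 [(1,1)]) (.cons (.leaf 1 [(10,1),(1,1),(11,1)]) (.cons (.leaf 1 [(10,1),(1,1),(11,1)]) .nil))))))))))) (.cons (.leaf 1 [(1,1),(8,1)]) (.cons (.leaf 2 [(1,3),(9,1),(8,1)]) (.cons (.keep [0,1,8,9,10] (.node (.cons (.leaf 1 []) (.cons (.leaf 1 [(9,1),(8,3)])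 (.cons (.leaf 1 [(5,1),(9,1),(8,3)]) (.cons (.leaf 1 [(1,1)]) (.cons (.leaf 1 [(1,1),(8,1)]) (.cons (.leaf 1 [(1,1),(8,1)]) (.cons (.leaf 1 [(1,1)]) (.cons (.leaf 1 [(1,1),(8,1),(10,1)]) (.cons (.leaf 1 [(1,1),(8,1),(10,1)]) .nil))))))))))) (.cons (.leaf 1 [(8,1),(1,1)]) (.cons (.leaf 1 [(11,1),(1,1)]) (.cons (.leaf 1 [(11,1),(1,1)]) .nil))))))))))) (.cons (.keep [3,4,5,7,9] (.node (.cons (.leaf 1 [(8,1)]) (.cons (.leaf 2 [(11,2),(8,1)]) (.cons (.keep [0,8,9,10,11] (.node (.cons (.leaf 1 [(2,2),(5,1),(8,1)]) (.cons (.leaf 1 [(8,1),(11,2)]) (.cons (.leaf 1 [(5,1),(8,1),(11,2)]) (.cons (.leaf 2 [(5,1),(9,1),(8,1)]) (.cons (.leaf 1 [(1,1),(9,1),(11,1)]) (.cons (.leaf 1 [(1,1),(9,1),(11,1)]) (.cons (.leaf 1 [(2,1),(1,1)]) (.cons (.leaf 1 [(1,1),(11,1)]) (.cons (.leaf 1 [(1,1),(11,1)])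 .nil))))))))))) (.cons (.leaf 1 [(1,1),(8,1)]) (.cons (.leaf 1 [(1,2),(4,1)]) (.cons (.keep [0,1,8,9,10] (.node (.cons (.leaf 1 [(2,3),(5,1),(9,1)]) (.cons (.leaf 1 [(9,1),(8,3)]) (.cons (.leaf 1 [(5,1),(9,1),(8,3)]) (.cons (.leaf 2 [(5,1),(10,1),(9,1)]) (.cons (.leaf 1 [(8,1),(1,1),(10,1)]) (.cons (.leaf 1 [(8,1),(1,1),(10,1)]) (.cons (.leaf 1 [(2,1),(1,1)]) (.cons (.leaf 1 [(1,1),(8,1)]) (.cons (.leaf 1 [(1,1),(8,1)]) .nil))))))))))) (.cons (.leaf 1 [(8,1),(1,1)]) (.cons (.leaf 2 [(11,2),(1,1),(8,1)]) (.cons (.leaf 1 [(11,1),(1,1),(9,1)]) .nil))))))))))) (.cons (.leaf 1 [(9,1)]) (.cons (.leaf 1 [(4,1),(9,1)]) (.cons (.leaf 1 [(4,1),(9,1)]) (.cons (.keep [1,5,6,7,11] (.node (.cons (.leaf 1 [(2,1)]) (.cons (.leaf 2 [(9,1)]) (.cons (.keep [2,7,8,9,10] (.node (.cons (.leaf 1 [(5,1),(2,1)])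 (.cons (.leaf 1 [(8,1)]) (.cons (.leaf 1 [(8,1),(5,1)]) (.cons (.leaf 2 [(5,1),(9,1)]) (.cons (.leaf 2 [(8,1),(9,1)]) (.cons (.leaf 1 [(1,1),(9,1)]) (.cons (.leaf 2 [(5,1),(9,1)]) (.cons (.leaf 2 [(8,1),(10,1)]) (.cons (.leaf 2 [(8,1),(10,1),(5,1)]) .nil))))))))))) (.cons (.leaf 1 []) (.cons (.leaf 2 [(1,1),(9,1)]) (.cons (.keep [0,1,4,8,9] (.node (.cons (.leaf 1 [(2,2),(5,1)]) (.cons (.leaf 1 [(8,2)]) (.cons (.leaf 1 [(5,1),(8,2)]) (.cons (.leaf 2 [(5,1),(10,1)]) (.cons (.leaf 2 [(8,2),(10,1)]) (.cons (.leaf 1 [(1,1),(10,1)]) (.cons (.leaf 3 [(10,2),(1,1),(5,1)]) (.cons (.leaf 2 [(8,2),(11,1)]) (.cons (.leaf 1 [(1,1),(11,1)]) .nil))))))))))) (.cons (.leaf 1 [(2,1)]) (.cons (.leaf 1 [(1,1),(8,1)]) (.cons (.leaf 1 [(1,1),(8,1)]) .nil))))))))))) (.cons (.keep [1,4,6,8,11] (.node (.cons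 (.leaf 1 [(8,1),(2,1)]) (.cons (.leaf 2 [(9,1),(8,1)]) (.cons (.keep [0,2,7,8,9,10] (.node (.cons (.leaf 1 [(8,1)]) (.cons (.leaf 1 [(9,1),(10,1)]) (.cons (.leaf 1 [(9,1),(10,1),(5,1)]) (.cons (.leaf 1 [(1,1)]) (.cons (.leaf 1 [(1,1)]) (.cons (.leaf 1 [(1,1)]) (.cons (.leaf 1 [(8,1),(1,1)]) (.cons (.leaf 1 [(1,1),(11,1)]) (.cons (.leaf 1 [(1,1),(11,1)]) .nil))))))))))) (.cons (.leaf 1 [(8,1)]) (.cons (.leaf 2 [(1,1),(9,1),(8,1)]) (.cons (.keep [0,1,8,9,10] (.node (.cons (.leaf 3 [(5,1),(9,1)]) (.cons (.leaf 1 [(8,2),(9,1)]) (.cons (.leaf 1 [(8,2),(9,1),(5,1)]) (.cons (.leaf 1 [(1,1)]) (.cons (.leaf 1 [(1,1)]) (.cons (.leaf 1 [(1,1)]) (.cons (.leaf 3 [(5,1),(1,1),(9,1)]) (.cons (.leaf 2 [(10,1),(8,2),(9,1)]) (.cons (.leaf 2 [(10,1),(8,2),(9,1),(5,1)]) .nil))))))))))) (.cons (.leaf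 1 [(1,1)]) (.cons (.leaf 1 [(1,1)]) (.cons (.leaf 1 [(1,1)]) .nil))))))))))) (.cons (.keep [0,1,4,5,11] (.node (.cons (.leaf 1 [(9,1),(2,1)]) (.cons (.leaf 1 [(8,1),(4,1)]) (.cons (.keep [0,2,7,8,9,10] (.node (.cons (.leaf 1 [(5,1),(2,1),(11,1)]) (.cons (.leaf 1 [(10,1),(11,1)]) (.cons (.leaf 1 [(10,1),(11,1),(5,1)]) (.cons (.leaf 2 [(5,1),(12,1),(11,1)]) (.cons (.leaf 1 [(1,1),(12,1)]) (.cons (.leaf 1 [(1,1),(12,1)]) (.cons (.leaf 1 [(1,1)]) (.cons (.leaf 1 [(1,1)]) (.cons (.leaf 1 [(1,1)]) .nil))))))))))) (.cons (.leaf 1 [(9,1)]) (.cons (.leaf 1 [(1,1),(4,1)]) (.cons (.keep [0,1,7,9,10] (.node (.cons (.leaf 1 [(10,1),(5,1),(2,2)]) (.cons (.leaf 1 [(8,2),(10,1)]) (.cons (.leaf 1 [(8,2),(10,1),(5,1)]) (.cons (.leaf 2 [(5,1),(11,1),(10,1)]) (.cons (.leaf 1 [(1,1),(11,1)]) (.cons (.leaf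 2 [(5,1),(11,1),(8,2),(10,1)]) (.cons (.leaf 1 [(1,1)]) (.cons (.leaf 1 [(1,1)]) (.cons (.leaf 1 [(1,1)]) .nil))))))))))) (.cons (.leaf 1 [(9,1),(2,1)]) (.cons (.leaf 1 [(8,1),(4,1)]) (.cons (.leaf 1 [(1,1),(10,1)]) .nil))))))))))) .nil))))))))))) (.cons (.leaf 1 [(4,1)]) (.cons (.keep [0,1,8,9,10] (.node (.cons (.leaf 1 [(5,1),(2,1),(9,1)]) (.cons (.leaf 1 [(8,1),(9,1)]) (.cons (.leaf 1 [(8,1),(9,1),(5,1)]) (.cons (.leaf 2 [(5,1),(10,1),(9,1)]) (.cons (.leaf 2 [(10,1),(9,1)]) (.cons (.leaf 2 [(10,1),(9,1),(5,1)]) (.cons (.leaf 2 [(5,1),(9,1)]) (.cons (.leaf 2 [(9,1)]) (.cons (.leaf 2 [(9,1),(5,1)]) .nil))))))))))) (.cons (.leaf 1 [(2,1),(9,1)]) (.cons (.leaf 1 [(4,1)]) (.cons (.leaf 1 [(9,1),(2,1)]) .nil))))))))))) .nil)))))))))))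

theorem e_7_26 : ESB (caseOf 4 7 26) := esb_of_pieces _ (hP_cons c_7_26_0 hP_nil) t_7_26 (by
  decide +kernel)

def t_7_27 : T := (.keep [0,1,2] (.node (.cons (.leaf 1 []) (.cons (.leaf 1 [(4,1)]) (.cons (.leaf 1 [(4,1)]) (.cons (.leaf 1 [(4,1)]) (.cons (.leaf 1 [(5,1)]) (.cons (.leaf 1 []) (.cons (.leaf 1 [(5,1)]) (.cons (.leaf 1 [(5,1)]) (.cons (.keep [1,5,6,7] (.node (.cons (.leaf 1 [(2,1)]) (.cons (.leaf 1 [(2,1)]) (.cons (.leaf 1 [(2,1)]) (.cons (.leaf 1 [(2,1)]) (.cons (.leaf 1 [(5,1)]) (.cons (.keep [0,1,10,11] (.node (.cons (.leaf 1 []) (.cons (.leaf 1 [(4,1)]) (.cons (.leaf 1 [(4,1)]) (.cons (.leaf 1 [(4,1)]) (.cons (.leaf 1 [(5,1)]) (.cons (.leaf 1 []) (.cons (.leaf 1 [(5,1)]) (.cons (.leaf 1 [(5,1)]) (.cons (.leaf 1 [(11,1)]) (.cons (.leaf 1 [(4,1),(11,1)]) (.cons (.leaf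 1 [(11,1),(4,1)]) (.cons (.leaf 1 [(11,1),(4,1)]) .nil)))))))))))))) (.cons (.leaf 1 [(11,1),(5,1)]) (.cons (.keep [0,4,5,10,11] (.node (.cons (.leaf 1 []) (.cons (.leaf 1 [(4,1)]) (.cons (.leaf 1 [(4,1)]) (.cons (.leaf 1 [(4,1)]) (.cons (.leaf 1 [(5,1)]) (.cons (.leaf 1 []) (.cons (.leaf 1 [(5,1)]) (.cons (.leaf 1 [(5,1)]) (.cons (.leaf 1 [(6,1),(10,1)]) (.cons (.leaf 1 [(6,1),(11,1),(10,1)]) (.cons (.leaf 2 [(12,1),(10,1)]) (.cons (.leaf 2 [(12,1),(10,1),(6,1)]) .nil)))))))))))))) (.cons (.leaf 1 [(5,1)]) (.cons (.leaf 1 [(10,1),(2,1)]) (.cons (.leaf 1 [(10,1),(2,1)]) (.cons (.leaf 1 [(10,1),(2,1)]) .nil)))))))))))))) (.cons (.keep [4,6,7,8,9] (.node (.cons (.leaf 1 [(2,1)]) (.cons (.leaf 1 [(2,2)]) (.cons (.leaf 1 [(2,1),(8,1)]) (.cons (.leaf 1 [(2,1),(8,1)]) (.cons (.leaf 1 [])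 (.cons (.keep [0,1,9,10] (.node (.cons (.leaf 1 []) (.cons (.leaf 1 [(4,1)]) (.cons (.leaf 1 [(4,1)]) (.cons (.leaf 1 [(4,1)]) (.cons (.leaf 1 [(5,1)]) (.cons (.leaf 1 []) (.cons (.leaf 1 [(5,1)]) (.cons (.leaf 1 [(5,1)]) (.cons (.leaf 1 [(11,1)]) (.cons (.leaf 1 [(4,1),(11,1)]) (.cons (.leaf 1 [(11,1),(4,1)]) (.cons (.leaf 1 [(11,1),(4,1)]) .nil)))))))))))))) (.cons (.leaf 1 [(10,1),(5,1)]) (.cons (.keep [5,8,9,10,11] (.node (.cons (.leaf 1 [(6,1)]) (.cons (.leaf 1 [(6,1),(2,1)]) (.cons (.leaf 2 [(9,1)]) (.cons (.leaf 2 [(9,1),(6,1)]) (.cons (.leaf 1 [(6,1)]) (.cons (.leaf 1 [(9,1)]) (.cons (.leaf 1 [(9,1),(5,1)]) (.cons (.leaf 1 [(9,1),(5,1)]) (.cons (.leaf 1 [(6,1)]) (.cons (.leaf 1 [(6,1),(10,1),(8,1)]) (.cons (.leaf 2 [(11,1)]) (.cons (.leaf 2 [(11,1),(6,1)]) .nil))))))))))))))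 (.cons (.leaf 1 [(2,1)]) (.cons (.leaf 1 [(9,1),(2,1)]) (.cons (.leaf 1 [(2,1),(9,1)]) (.cons (.leaf 1 [(2,1),(9,1)]) .nil)))))))))))))) (.cons (.keep [4,5,7,9,10] (.node (.cons (.leaf 1 [(2,1),(8,1)]) (.cons (.leaf 1 [(2,1),(8,1)]) (.cons (.leaf 1 [(2,1),(8,1)]) (.cons (.leaf 1 [(2,1),(8,1)]) (.cons (.leaf 1 [(5,1),(8,1)]) (.cons (.keep [7,8,10,11,12] (.node (.cons (.leaf 1 [(9,1)]) (.cons (.leaf 1 [(4,2)]) (.cons (.leaf 1 [(9,1),(4,1)]) (.cons (.leaf 1 [(9,1),(4,1)]) (.cons (.leaf 1 []) (.cons (.leaf 1 [(1,1)]) (.cons (.leaf 1 [(4,1)]) (.cons (.leaf 1 [(4,1)]) (.cons (.leaf 1 [(10,1)]) (.cons (.leaf 1 [(4,1),(10,1)]) (.cons (.leaf 1 [(10,1),(4,1)]) (.cons (.leaf 1 [(10,1),(4,1)]) .nil)))))))))))))) (.cons (.leaf 1 [(10,1),(5,1)]) (.cons (.keep [0,8,9,10,11,12] (.node (.cons (.leaf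 1 [(9,1)]) (.cons (.leaf 1 [(4,2)]) (.cons (.leaf 1 [(9,1),(4,1)]) (.cons (.leaf 1 [(9,1),(4,1)]) (.cons (.leaf 1 []) (.cons (.leaf 1 [(1,1)]) (.cons (.leaf 1 [(4,1)]) (.cons (.leaf 1 [(4,1)]) (.cons (.leaf 1 [(6,1),(10,1)]) (.cons (.leaf 2 [(6,1),(11,1),(10,1)]) (.cons (.leaf 2 [(11,1),(10,1)]) (.cons (.leaf 2 [(11,1),(10,1),(6,1)]) .nil)))))))))))))) (.cons (.leaf 1 [(2,1)]) (.cons (.leaf 1 [(2,1)]) (.cons (.leaf 1 [(2,1)]) (.cons (.leaf 1 [(2,1)]) .nil)))))))))))))) (.cons (.keep [1,4,5,6,9] (.node (.cons (.leaf 1 [(2,1),(9,1)]) (.cons (.leaf 1 [(2,1),(9,1)]) (.cons (.leaf 1 [(2,1),(4,1)]) (.cons (.leaf 1 [(2,1),(9,1)]) (.cons (.leaf 1 [(5,1),(9,1)]) (.cons (.keep [6,7,9,11,12] (.node (.cons (.leaf 1 [(10,1)]) (.cons (.leaf 1 [(4,1),(10,1)]) (.cons (.leaf 1 [(10,1),(4,1)]) (.cons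 (.leaf 1 [(10,1),(4,1)]) (.cons (.leaf 1 [(5,1),(10,1)]) (.cons (.leaf 1 [(10,1)]) (.cons (.leaf 1 [(10,1),(5,1)]) (.cons (.leaf 1 [(10,1),(5,1)]) (.cons (.leaf 1 []) (.cons (.leaf 1 [(4,1)]) (.cons (.leaf 1 [(4,1)]) (.cons (.leaf 1 [(4,1)]) .nil)))))))))))))) (.cons (.leaf 1 [(5,1)]) (.cons (.keep [0,6,9,10,11,12] (.node (.cons (.leaf 1 [(10,1)]) (.cons (.leaf 1 [(4,1),(10,1)]) (.cons (.leaf 1 [(10,1),(4,1)]) (.cons (.leaf 1 [(10,1),(4,1)]) (.cons (.leaf 1 [(5,1),(10,1)]) (.cons (.leaf 1 [(10,1)]) (.cons (.leaf 1 [(10,1),(5,1)]) (.cons (.leaf 1 [(10,1),(5,1)]) (.cons (.leaf 1 []) (.cons (.leaf 1 [(4,1)]) (.cons (.leaf 1 [(4,1)]) (.cons (.leaf 1 [(4,1)]) .nil)))))))))))))) (.cons (.leaf 1 [(5,1),(9,1)]) (.cons (.leaf 1 [(2,1),(11,1)]) (.cons (.leaf 1 [(5,1)]) (.cons (.leaf 1 [(2,1),(11,1)])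 .nil)))))))))))))) .nil))))))))))))))

theorem e_7_27 : ESB (caseOf 4 7 27) := esb_of_ok (t := t_7_27) (by decide +kernel)

def ks : List (ℕ × ℕ) := [(7, 22), (7, 23), (7, 25), (7, 26), (7, 27)]

theorem ks_ok : ∀ p ∈ ks, ESB (caseOf 4 p.1 p.2) := ks_cons e_7_22 <| ks_cons e_7_23 <| ks_cons
  e_7_25 <| ks_cons e_7_26 <| ks_cons e_7_27 <| ks_nil

end Pool.Agent.H4.RD4.E03
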