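import Pool.Agent.H4.RD4.Chk

/-! # Certificates for special cases of order four -/

set_option maxRecDepth 20000

namespace Pool.Agent.H4.RD4.E04

open Pool.Agent.H50.Rdb
open Pool.Agent.H81.RDE (ESB caseOf)

def z_7_28_0 : F := ⟨-1, 0, 0, -1, 2⟩

def h_7_28_0 : List F := [⟨-1, 0, 0, 0, 0⟩, ⟨0, -1, 0, 1, 0⟩, ⟨0, 0, -1, 1, 0⟩, ⟨0, 0, 0, -1, 1⟩,
  ⟨1, -1, 0, 0, 0⟩, ⟨1, 0, -1, 0, 0⟩]

def t_7_28_0 : T := (.node (.cons (.leaf 1 [(9,1)]) (.cons (.leaf 1 []) (.cons (.keep [0,7,8,9,11,12] (.node (.cons (.leaf 1 [(5,1)]) (.cons (.keep [3,6,9,12] (.node (.cons (.leaf 1 [(9,1),(3,2)]) (.cons (.leaf 1 [(9,1),(3,2)]) (.cons (.leaf 1 [(9,1),(3,2)]) (.cons (.leaf 1 [(3,1)]) (.cons (.leaf 1 [(3,1)]) (.cons (.leaf 1 [(3,1)]) (.cons (.leaf 1 [(9,1),(10,2)]) (.cons (.leaf 1 [(9,1),(8,2),(10,2)]) (.cons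 (.keep [0,7,8,9,10] (.node (.cons (.leaf 1 [(2,1),(3,1)]) (.cons (.leaf 1 [(2,2),(10,1)]) (.cons (.leaf 1 [(2,2),(10,1)]) (.cons (.leaf 1 [(3,2),(5,1),(11,1)]) (.cons (.keep [0,3,8,10,11] (.node (.cons (.leaf 1 [(3,1)]) (.cons (.leaf 1 [(3,1)]) (.cons (.leaf 1 [(3,1)]) (.cons (.leaf 1 [(8,1)]) (.cons (.leaf 1 [(8,1),(4,1)]) (.cons (.leaf 1 [(8,1),(4,1)]) (.cons (.leaf 1 [(10,1)]) (.cons (.leaf 1 [(10,1),(4,2)]) (.cons (.leaf 1 [(10,1),(4,2)]) .nil))))))))))) (.cons (.keep [3,5,8,10,11] (.node (.cons (.leaf 1 [(5,1),(3,1)]) (.cons (.leaf 3 [(10,1)]) (.cons (.leaf 3 [(10,1),(5,2)]) (.cons (.leaf 1 [(5,1),(7,1)]) (.cons (.leaf 1 [(7,1)]) (.cons (.leaf 1 [(7,1),(5,1)]) (.cons (.leaf 1 [(10,1)]) (.cons (.leaf 1 [(10,1),(4,2)]) (.cons (.leaf 1 [(10,1),(4,2)]) .nil))))))))))) (.cons (.leaf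 1 [(7,1),(11,1)]) (.cons (.keep [4,6,7,10,11] (.node (.cons (.leaf 3 [(10,3),(11,2)]) (.cons (.leaf 3 [(10,3),(4,2),(11,2)]) (.cons (.leaf 3 [(10,3),(4,2),(11,2)]) (.cons (.leaf 1 []) (.cons (.leaf 1 [(4,1)]) (.cons (.leaf 1 [(4,1)]) (.cons (.leaf 1 [(10,1)]) (.cons (.leaf 1 [(10,1),(4,2)]) (.cons (.leaf 1 [(10,1),(4,2)]) .nil))))))))))) (.cons (.keep [0,4,5,10,11] (.node (.cons (.leaf 3 [(11,2),(10,3)]) (.cons (.leaf 1 [(10,1),(11,1),(3,1)]) (.cons (.leaf 1 [(11,1),(10,1),(3,1)]) (.cons (.leaf 1 [(5,1)]) (.cons (.leaf 1 []) (.cons (.leaf 1 [(5,1)]) (.cons (.leaf 1 [(10,1)]) (.cons (.leaf 1 [(10,1),(4,2)]) (.cons (.leaf 1 [(10,1),(4,2)]) .nil))))))))))) .nil))))))))))) .nil))))))))))) (.cons (.keep [0,5,9,10,12] (.node (.cons (.leaf 1 [(5,1),(3,2),(9,1)]) (.cons (.keep [3,4,6,7,9]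 (.node (.cons (.leaf 1 [(2,1),(3,1)]) (.cons (.leaf 1 [(2,1),(9,1),(3,1)]) (.cons (.leaf 1 [(2,1),(11,1),(3,1)]) (.cons (.leaf 1 [(3,1),(7,1)]) (.cons (.leaf 1 [(9,1),(7,1),(3,1)]) (.cons (.leaf 1 [(11,1),(7,2),(3,1)]) (.cons (.leaf 1 [(7,1)]) (.cons (.leaf 1 [(7,1),(9,1)]) (.cons (.leaf 1 [(7,2),(11,1),(0,1)]) .nil))))))))))) (.cons (.keep [0,3,7,8,9,10] (.node (.cons (.leaf 1 [(2,1),(3,1)]) (.cons (.leaf 1 [(2,1),(11,1),(3,1)]) (.cons (.leaf 1 [(2,1),(11,1),(3,1)]) (.cons (.leaf 1 [(3,1),(8,1)]) (.cons (.leaf 1 [(11,1),(8,2),(3,1)]) (.cons (.leaf 1 [(11,1),(8,2),(3,1)]) (.cons (.leaf 1 [(8,1)]) (.cons (.leaf 1 [(8,2),(11,1),(7,1)]) (.cons (.leaf 1 [(8,2),(11,1),(0,1)]) .nil))))))))))) (.cons (.leaf 1 [(3,1)]) (.cons (.leaf 1 [(3,1)]) (.cons (.leaf 1 [(3,1)]) (.cons (.leaf 1 [(10,1),(11,1)])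 (.cons (.keep [6,7,9,10,11] (.node (.cons (.leaf 1 [(2,1),(3,1)]) (.cons (.leaf 1 [(2,1),(7,1),(3,1)]) (.cons (.leaf 1 [(2,1),(9,1),(3,1)]) (.cons (.leaf 1 [(3,2),(11,1)]) (.cons (.leaf 1 [(3,2),(7,1),(11,1)]) (.cons (.leaf 1 [(3,2),(10,1),(11,1)]) (.cons (.leaf 1 [(8,1),(11,1)]) (.cons (.leaf 1 [(11,1),(7,2),(8,1)]) (.cons (.leaf 1 [(11,2),(9,1),(0,3)]) .nil))))))))))) (.cons (.keep [0,7,9,10,11] (.node (.cons (.leaf 1 [(2,1),(3,1)]) (.cons (.leaf 1 [(2,1),(9,1),(3,1)]) (.cons (.leaf 1 [(2,1),(9,1),(3,1)]) (.cons (.leaf 1 [(3,2),(5,1),(11,1)]) (.cons (.keep [0,3,4,9,11] (.node (.cons (.leaf 1 [(3,1)]) (.cons (.leaf 1 [(3,1)]) (.cons (.leaf 1 [(3,1)]) (.cons (.leaf 1 [(8,1)]) (.cons (.leaf 1 [(8,1),(4,1)]) (.cons (.leaf 1 [(8,1),(4,1)]) (.cons (.leaf 1 [(10,1),(8,1)]) (.cons (.leaf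 1 [(10,1),(8,1),(4,2)]) (.cons (.leaf 1 [(10,1),(8,1),(4,2)]) .nil))))))))))) (.cons (.keep [3,4,5,9,11] (.node (.cons (.leaf 1 [(5,1),(3,1)]) (.cons (.leaf 2 [(10,1),(2,1)]) (.cons (.leaf 2 [(10,1),(2,1),(5,1)]) (.cons (.leaf 1 [(5,1),(7,1)]) (.cons (.leaf 1 [(7,1)]) (.cons (.leaf 1 [(7,1),(5,1)]) (.cons (.leaf 1 [(10,1),(7,1)]) (.cons (.leaf 1 [(4,2),(10,1),(7,1)]) (.cons (.leaf 1 [(10,1),(7,1),(4,2)]) .nil))))))))))) (.cons (.leaf 1 [(7,1),(11,1)]) (.cons (.keep [6,7,8,9,11] (.node (.cons (.leaf 6 [(10,3),(11,1)]) (.cons (.leaf 6 [(10,3),(4,4),(11,1)]) (.cons (.leaf 6 [(10,3),(4,4),(11,1)]) (.cons (.leaf 1 []) (.cons (.leaf 1 [(4,1)]) (.cons (.leaf 1 [(4,1)]) (.cons (.leaf 1 [(10,1),(8,1)]) (.cons (.leaf 1 [(10,1),(8,1),(4,2)]) (.cons (.leaf 1 [(10,1),(0,1),(4,3)]) .nil)))))))))))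 (.cons (.keep [0,7,8,9,11] (.node (.cons (.leaf 6 [(11,1),(5,3),(10,3)]) (.cons (.leaf 4 [(10,2),(11,1),(3,1)]) (.cons (.leaf 4 [(10,2),(11,1),(5,2),(3,1)]) (.cons (.leaf 1 [(5,1)]) (.cons (.leaf 1 []) (.cons (.leaf 1 [(5,1)]) (.cons (.leaf 1 [(10,1),(7,1)]) (.cons (.leaf 1 [(10,1),(7,1),(4,2)]) (.cons (.leaf 1 [(10,1),(4,2),(0,1),(5,1)]) .nil))))))))))) .nil))))))))))) .nil))))))))))) (.cons (.leaf 1 [(5,1)]) (.cons (.leaf 1 [(1,2),(10,1),(12,1)]) (.cons (.leaf 1 [(1,2),(10,1),(12,1)]) (.cons (.leaf 1 [(5,1)]) (.cons (.keep [1,6,7,8,12] (.node (.cons (.leaf 1 [(7,1),(3,1)]) (.cons (.leaf 1 [(7,1),(3,1)]) (.cons (.leaf 1 [(7,1),(3,1)]) (.cons (.leaf 1 [(3,1)]) (.cons (.leaf 1 [(3,1)]) (.cons (.leaf 1 [(3,1)]) (.cons (.leaf 1 [(7,1),(11,1)]) (.cons (.leaf 1 [(7,1),(8,1),(11,1)]) (.cons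 (.leaf 1 [(7,2),(0,1),(11,1)]) .nil))))))))))) (.cons (.keep [0,1,9,11,12] (.node (.cons (.leaf 1 [(8,1),(3,1)]) (.cons (.leaf 1 [(8,1),(3,1)]) (.cons (.leaf 1 [(8,1),(3,1)]) (.cons (.leaf 1 [(3,1)]) (.cons (.leaf 1 [(3,1)]) (.cons (.leaf 1 [(3,1)]) (.cons (.leaf 1 [(8,1),(11,1)]) (.cons (.leaf 1 [(8,2),(7,1),(11,1)]) (.cons (.leaf 1 [(8,2),(0,1),(11,1)]) .nil))))))))))) .nil))))))))))) (.cons (.leaf 1 [(3,1),(8,1),(1,1)]) (.cons (.leaf 1 [(1,1)]) (.cons (.leaf 1 [(1,2),(8,1),(11,1)]) (.cons (.leaf 1 [(1,1),(9,1)]) (.cons (.leaf 1 [(1,1)]) (.cons (.leaf 1 [(1,2),(9,1),(12,1)]) .nil))))))))))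

theorem c_7_28_0 : Concl 7 28 z_7_28_0 h_7_28_0 .nd := piece _ hP_nil t_7_28_0 _ _ (by
  decide +kernel)

def z_7_28_1 : F := ⟨-1, -1, 0, 0, 2⟩

def h_7_28_1 : List F := [⟨-1, 0, 0, 0, 0⟩, ⟨0, 1, -1, 0, 0⟩, ⟨0, 1, 0, -1, 0⟩, ⟨1, -1, 0, 0, 0⟩]

def t_7_28_1 : T := (.node (.cons (.leaf 1 [(8,1)]) (.cons (.leaf 1 [(9,1)]) (.cons (.keep [7,8,9,10] (.node (.cons (.leaf 1 [(3,2),(5,1)]) (.cons (.keep [6,7,8,9] (.node (.cons (.leaf 1 [(3,2)]) (.cons (.leaf 1 [(3,2)]) (.cons (.leaf 1 [(3,2)]) (.cons (.leaf 1 [(3,2),(9,2)]) (.cons (.leaf 1 [(3,2),(7,2),(9,2)]) (.cons (.leaf 1 [(3,1),(10,1)]) (.cons (.leaf 1 [(9,2)]) (.cons (.leaf 1 [(7,2),(9,2)]) (.cons (.keep [0,4,7,9,10] (.node (.cons (.leaf 1 [(2,2)]) (.cons (.leaf 1 [(2,2)]) (.cons (.leaf 1 [(2,2)]) (.cons (.leaf 1 [(3,2),(5,2),(10,2)])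 (.cons (.keep [3,6,7,8,10] (.node (.cons (.leaf 1 [(10,1)]) (.cons (.leaf 1 [(10,2),(3,2)]) (.cons (.leaf 1 [(10,2),(3,2)]) (.cons (.leaf 1 [(7,2),(10,2)]) (.cons (.leaf 1 [(7,2),(10,2),(4,2)]) (.cons (.leaf 1 [(7,2),(10,2),(4,2)]) (.cons (.leaf 1 []) (.cons (.leaf 1 [(4,2)]) (.cons (.leaf 1 [(4,2)]) .nil))))))))))) (.cons (.keep [0,3,7,8,10,11] (.node (.cons (.leaf 1 [(10,1)]) (.cons (.leaf 1 [(10,2),(3,2)]) (.cons (.leaf 1 [(10,2),(3,2)]) (.cons (.leaf 1 [(8,2),(10,2)]) (.cons (.leaf 1 [(8,2),(10,2),(4,2)]) (.cons (.leaf 1 [(8,2),(10,2),(4,2)]) (.cons (.leaf 1 []) (.cons (.leaf 1 [(4,2)]) (.cons (.leaf 1 [(4,2)]) .nil))))))))))) (.cons (.leaf 1 [(9,2),(5,2),(10,2)]) (.cons (.keep [2,6,7,8,11] (.node (.cons (.leaf 1 [(7,2),(2,2)]) (.cons (.leaf 1 [(7,2),(2,2)]) (.cons (.leaf 1 [(7,2),(2,2)])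 (.cons (.leaf 1 [(11,1)]) (.cons (.leaf 1 [(11,1),(4,1)]) (.cons (.leaf 1 [(11,1),(4,1)]) (.cons (.leaf 1 []) (.cons (.leaf 1 [(4,2)]) (.cons (.leaf 1 [(4,2)]) .nil))))))))))) (.cons (.keep [0,2,7,8,10,11] (.node (.cons (.leaf 1 [(8,2),(2,2)]) (.cons (.leaf 1 [(8,2),(2,2)]) (.cons (.leaf 1 [(8,2),(2,2)]) (.cons (.leaf 1 [(5,1),(12,1)]) (.cons (.leaf 1 [(12,1)]) (.cons (.leaf 1 [(12,1),(5,1)]) (.cons (.leaf 1 []) (.cons (.leaf 1 [(4,2)]) (.cons (.leaf 1 [(4,2)]) .nil))))))))))) .nil))))))))))) .nil))))))))))) (.cons (.keep [0,5,8,9] (.node (.cons (.leaf 1 [(3,2),(5,1)]) (.cons (.keep [3,4,6,7,10] (.node (.cons (.leaf 1 [(2,1),(3,1)]) (.cons (.leaf 1 [(2,1),(3,1)]) (.cons (.leaf 1 [(2,1),(3,1)]) (.cons (.leaf 1 [(7,2),(3,1)]) (.cons (.leaf 1 [(7,2),(3,1)]) (.cons (.leaf 1 [(7,2),(3,1)])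 (.cons (.leaf 1 [(7,1),(11,1)]) (.cons (.leaf 1 [(7,1),(9,1),(11,1)]) (.cons (.leaf 1 [(7,2),(0,1),(11,1)]) .nil))))))))))) (.cons (.keep [0,3,5,8,10] (.node (.cons (.leaf 1 [(2,1),(3,1)]) (.cons (.leaf 1 [(2,1),(3,1)]) (.cons (.leaf 1 [(2,1),(3,1)]) (.cons (.leaf 1 [(8,2),(3,1)]) (.cons (.leaf 1 [(8,2),(3,1)]) (.cons (.leaf 1 [(8,2),(3,1)]) (.cons (.leaf 1 [(8,1),(11,1)]) (.cons (.leaf 1 [(8,2),(7,1),(11,1)]) (.cons (.leaf 1 [(8,2),(0,1),(11,1)]) .nil))))))))))) (.cons (.leaf 1 [(3,2),(8,1),(9,2)]) (.cons (.leaf 1 [(3,1),(10,1)]) (.cons (.leaf 1 [(3,1),(10,1)]) (.cons (.leaf 1 [(8,1),(9,2)]) (.cons (.keep [1,4,6,9,10] (.node (.cons (.leaf 1 [(2,1),(3,1)]) (.cons (.leaf 1 [(2,1),(3,1)]) (.cons (.leaf 1 [(2,1),(3,1)]) (.cons (.leaf 1 [(10,2),(3,1)]) (.cons (.leaf 1 [(10,2),(3,1)]) (.cons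 (.leaf 1 [(10,2),(3,1)]) (.cons (.leaf 1 [(10,1),(11,1)]) (.cons (.leaf 1 [(10,1),(9,1),(11,1)]) (.cons (.leaf 1 [(10,2),(0,1),(11,1)]) .nil))))))))))) (.cons (.keep [0,5,8,9,10] (.node (.cons (.leaf 1 [(2,1),(3,1)]) (.cons (.leaf 1 [(2,1),(3,1)]) (.cons (.leaf 1 [(2,1),(3,1)]) (.cons (.leaf 1 [(5,2),(3,1),(10,2)]) (.cons (.keep [3,4,6,7,9,10] (.node (.cons (.leaf 1 [(8,1)]) (.cons (.leaf 1 [(4,1),(8,1)]) (.cons (.leaf 1 [(4,1),(8,1)]) (.cons (.leaf 1 [(7,1),(8,2)]) (.cons (.leaf 1 [(7,1),(8,2),(4,2)]) (.cons (.leaf 1 [(7,1),(8,2),(4,2)]) (.cons (.leaf 1 [(7,1)]) (.cons (.leaf 1 [(7,1),(4,2)]) (.cons (.leaf 1 [(7,1),(4,2)]) .nil))))))))))) (.cons (.keep [0,3,7,8,9,10,11] (.node (.cons (.leaf 1 [(10,1)]) (.cons (.leaf 1 [(4,1),(10,1)]) (.cons (.leaf 1 [(4,1),(10,1)]) (.cons (.leaf 1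 [(8,1),(10,2)]) (.cons (.leaf 1 [(8,1),(10,2),(4,2)]) (.cons (.leaf 1 [(8,1),(10,2),(4,2)]) (.cons (.leaf 1 [(8,1)]) (.cons (.leaf 1 [(8,1),(4,2)]) (.cons (.leaf 1 [(8,1),(4,2)]) .nil))))))))))) (.cons (.leaf 1 [(5,1),(11,1),(10,1)]) (.cons (.keep [2,4,6,7,11] (.node (.cons (.leaf 1 [(2,2),(7,1)]) (.cons (.leaf 1 [(2,2),(7,1)]) (.cons (.leaf 1 [(2,2),(7,1)]) (.cons (.leaf 1 [(11,1)]) (.cons (.leaf 1 [(11,1),(4,1)]) (.cons (.leaf 1 [(11,1),(4,1)]) (.cons (.leaf 1 [(10,1),(11,1)]) (.cons (.leaf 1 [(10,1),(4,2),(11,1)]) (.cons (.leaf 1 [(0,1),(4,3),(11,1)]) .nil))))))))))) (.cons (.keep [0,2,7,8,10,11] (.node (.cons (.leaf 1 [(2,2),(8,1)]) (.cons (.leaf 1 [(2,2),(8,1)]) (.cons (.leaf 1 [(2,2),(8,1)]) (.cons (.leaf 1 [(5,1),(12,1)]) (.cons (.leaf 1 [(12,1)]) (.cons (.leaf 1 [(12,1),(5,1)])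 (.cons (.leaf 1 [(7,1),(12,1)]) (.cons (.leaf 1 [(7,1),(4,2),(12,1)]) (.cons (.leaf 1 [(0,1),(4,2),(12,1),(5,1)]) .nil))))))))))) .nil))))))))))) .nil))))))))))) (.cons (.leaf 1 [(3,1),(8,1),(5,1)]) (.cons (.leaf 1 [(1,1),(8,2)]) (.cons (.leaf 1 [(1,1),(5,1),(8,2)]) (.cons (.leaf 1 [(5,1),(9,1)]) (.cons (.leaf 1 [(1,1),(9,2)]) (.cons (.leaf 1 [(1,1),(5,1),(9,2)]) .nil))))))))))) (.cons (.leaf 1 [(1,1),(3,1)]) (.cons (.leaf 1 [(1,1),(9,1)]) (.cons (.leaf 1 [(1,2),(10,1)]) (.cons (.leaf 1 [(8,1),(1,1)]) (.cons (.leaf 1 [(9,1),(1,1)]) (.cons (.leaf 1 [(8,2),(1,2),(10,1)]) .nil))))))))))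

theorem c_7_28_1 : Concl 7 28 z_7_28_1 h_7_28_1 .nd := piece _ hP_nil t_7_28_1 _ _ (by
  decide +kernel)

def z_7_28_2 : F := ⟨1, 0, 0, -1, 1⟩

def h_7_28_2 : List F := [⟨1, 0, 0, 0, 0⟩, ⟨0, -1, 0, 1, 0⟩, ⟨0, 0, -1, 1, 0⟩, ⟨0, 0, 0, -1, 1⟩]

def t_7_28_2 : T := (.node (.cons (.keep [5,6,8,9,10] (.node (.cons (.leaf 1 [(7,1),(9,1)]) (.cons (.leaf 1 [(8,1),(9,1)]) (.cons (.keep [0,7,8,9,10] (.node (.cons (.leaf 1 [(5,1),(3,2),(10,1)]) (.cons (.keep [2,6,8,9,10] (.node (.cons (.leaf 1 [(3,2)]) (.cons (.leaf 1 [(3,2),(8,1)]) (.cons (.leaf 1 [(3,2),(11,1)]) (.cons (.leaf 1 [(3,2),(9,1)]) (.cons (.leaf 1 [(3,2),(9,1),(8,2)]) (.cons (.leaf 1 [(3,1),(10,1),(11,1)]) (.cons (.leaf 1 [(9,1)]) (.cons (.leaf 1 [(8,2),(9,1)]) (.cons (.keep [4,8,9,10,11] (.node (.cons (.leaf 1 [(5,1),(3,1)]) (.cons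 (.leaf 1 [(11,1),(2,2)]) (.cons (.leaf 1 [(11,1),(2,2)]) (.cons (.leaf 1 [(3,2),(5,2),(9,1)]) (.cons (.keep [0,3,7,9,11] (.node (.cons (.leaf 1 [(3,1)]) (.cons (.leaf 1 [(3,1)]) (.cons (.leaf 1 [(3,1)]) (.cons (.leaf 1 [(8,1)]) (.cons (.leaf 1 [(8,1),(4,1)]) (.cons (.leaf 1 [(8,1),(4,1)]) (.cons (.leaf 1 [(11,1)]) (.cons (.leaf 1 [(11,1),(4,2)]) (.cons (.leaf 1 [(11,1),(4,2)]) .nil))))))))))) (.cons (.keep [0,3,7,10,11] (.node (.cons (.leaf 1 [(3,1)]) (.cons (.leaf 1 [(3,1)]) (.cons (.leaf 1 [(3,1)]) (.cons (.leaf 1 [(8,1)]) (.cons (.leaf 1 [(8,1),(4,1)]) (.cons (.leaf 1 [(8,1),(4,1)]) (.cons (.leaf 1 [(11,1)]) (.cons (.leaf 1 [(11,1),(4,2)]) (.cons (.leaf 1 [(4,2),(11,1)]) .nil))))))))))) (.cons (.leaf 1 [(8,2),(5,2),(9,1)]) (.cons (.keep [0,2,7,10,11] (.node (.cons (.leaf 1 [(3,1)])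 (.cons (.leaf 1 [(3,1)]) (.cons (.leaf 1 [(3,1)]) (.cons (.leaf 1 [(11,1),(10,1)]) (.cons (.leaf 1 [(11,1),(10,1),(4,1)]) (.cons (.leaf 1 [(11,1),(10,1),(4,1)]) (.cons (.leaf 1 [(11,1)]) (.cons (.leaf 1 [(11,1),(4,2)]) (.cons (.leaf 1 [(11,1),(4,2)]) .nil))))))))))) (.cons (.keep [0,2,7,10,11] (.node (.cons (.leaf 1 [(3,1)]) (.cons (.leaf 1 [(3,1)]) (.cons (.leaf 1 [(3,1)]) (.cons (.leaf 1 [(11,1),(5,1),(10,1)]) (.cons (.leaf 1 [(11,1),(10,1)]) (.cons (.leaf 1 [(5,1),(11,1),(10,1)]) (.cons (.leaf 1 [(11,1)]) (.cons (.leaf 1 [(11,1),(4,2)]) (.cons (.leaf 1 [(11,1),(4,2)]) .nil))))))))))) .nil))))))))))) .nil))))))))))) (.cons (.keep [5,7,8,9,10] (.node (.cons (.leaf 1 [(3,2),(5,1)]) (.cons (.leaf 1 [(11,2),(3,2)]) (.cons (.leaf 1 [(11,2),(5,1),(3,2)]) (.cons (.leaf 1 [(3,2),(9,1)])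 (.cons (.leaf 1 [(1,3),(10,2)]) (.cons (.leaf 1 [(3,1),(11,1),(10,1)]) (.cons (.leaf 1 [(9,1)]) (.cons (.leaf 1 [(11,2),(9,3)]) (.cons (.keep [0,8,9,10,11] (.node (.cons (.leaf 2 [(11,1),(3,3),(5,1)]) (.cons (.leaf 1 [(11,1),(3,1),(2,1)]) (.cons (.leaf 1 [(11,1),(3,2),(0,1),(5,1)]) (.cons (.leaf 1 [(3,2),(9,1),(5,2)]) (.cons (.keep [6,7,8,9,11] (.node (.cons (.leaf 1 [(2,1),(3,2)]) (.cons (.leaf 1 [(2,1),(3,2),(7,1)]) (.cons (.leaf 2 [(2,2),(3,1),(11,1)]) (.cons (.leaf 1 [(11,2),(10,2)]) (.cons (.leaf 1 [(11,2),(3,2),(10,3)]) (.cons (.leaf 1 [(11,2),(3,2),(10,3)]) (.cons (.leaf 1 [(2,1),(11,2)]) (.cons (.leaf 1 [(2,1),(11,2),(4,3)]) (.cons (.leaf 1 [(2,1),(11,2),(4,3)]) .nil))))))))))) (.cons (.keep [0,7,8,9,10,11] (.node (.cons (.leaf 1 [(2,1),(3,2)]) (.cons (.leaf 2 [(2,2),(3,1),(12,1)])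 (.cons (.leaf 2 [(2,2),(3,1),(12,1)]) (.cons (.leaf 1 [(12,2),(5,2),(11,2)]) (.cons (.leaf 1 [(12,2),(3,2),(10,3)]) (.cons (.leaf 1 [(12,2),(5,1),(11,1),(10,1)]) (.cons (.leaf 1 [(2,1),(12,2)]) (.cons (.leaf 1 [(2,1),(12,2),(4,3)]) (.cons (.leaf 1 [(2,1),(12,2),(4,3)]) .nil))))))))))) (.cons (.leaf 2 [(11,1),(10,3),(5,1)]) (.cons (.keep [2,6,8,10,11] (.node (.cons (.leaf 1 [(2,1),(3,2)]) (.cons (.leaf 1 [(2,1),(3,2),(8,1)]) (.cons (.leaf 2 [(2,2),(3,1),(11,1)]) (.cons (.leaf 1 [(3,4),(10,2)]) (.cons (.leaf 1 [(3,4),(10,2),(8,1)]) (.cons (.leaf 2 [(3,4),(10,3),(11,1)]) (.cons (.leaf 2 [(10,1),(11,3)]) (.cons (.leaf 2 [(4,4),(10,1),(11,3)]) (.cons (.leaf 2 [(4,4),(10,1),(11,3)]) .nil))))))))))) (.cons (.keep [0,5,8,10,11] (.node (.cons (.leaf 1 [(2,1),(3,2)]) (.cons (.leaf 2 [(2,2),(3,1),(11,1)])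 (.cons (.leaf 2 [(2,2),(3,1),(11,1)]) (.cons (.leaf 1 [(3,4),(5,2),(10,2)]) (.cons (.leaf 1 [(11,1),(10,1)]) (.cons (.leaf 1 [(11,1),(5,1),(10,1)]) (.cons (.leaf 2 [(5,1),(11,3),(10,1)]) (.cons (.leaf 2 [(10,1),(11,3),(4,3)]) (.cons (.leaf 2 [(5,1),(10,1),(4,3),(11,3)]) .nil))))))))))) .nil))))))))))) .nil))))))))))) (.cons (.leaf 1 [(1,1),(3,1)]) (.cons (.leaf 1 [(1,2),(8,1)]) (.cons (.leaf 1 [(1,2),(8,1)]) (.cons (.leaf 1 [(9,1),(5,1),(10,1)]) (.cons (.leaf 1 [(10,1),(1,1),(9,2)]) (.cons (.leaf 1 [(5,1),(1,1),(10,1),(9,2)]) .nil))))))))))) (.cons (.leaf 2 [(1,3),(9,1)]) (.cons (.leaf 1 [(1,1),(8,1),(9,1)]) (.cons (.leaf 1 [(1,2),(10,1)]) (.cons (.leaf 1 [(7,1),(1,2)]) (.cons (.leaf 1 [(7,1),(1,2)]) (.cons (.leaf 1 [(7,1),(1,2)]) .nil))))))))))) (.cons (.keep [4,6,7,8] (.node (.cons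 (.leaf 1 [(10,1)]) (.cons (.leaf 1 [(8,1),(10,1)]) (.cons (.keep [0,7,8,10] (.node (.cons (.leaf 1 [(3,2),(8,2)]) (.cons (.keep [6,7,8,9] (.node (.cons (.leaf 1 [(3,2)]) (.cons (.leaf 1 [(7,2),(3,2)]) (.cons (.leaf 1 [(9,2),(3,2)]) (.cons (.leaf 1 [(3,2)]) (.cons (.leaf 1 [(3,2),(7,2)]) (.cons (.leaf 1 [(3,1),(9,1),(10,1)]) (.cons (.leaf 1 []) (.cons (.leaf 1 [(7,2)]) (.cons (.keep [0,7,8,9,10] (.node (.cons (.leaf 1 [(5,2),(8,2)]) (.cons (.leaf 1 [(10,2),(2,2)]) (.cons (.leaf 1 [(10,2),(2,2)]) (.cons (.leaf 1 [(3,2),(5,2)]) (.cons (.keep [3,6,7,9,10] (.node (.cons (.leaf 1 [(3,4)]) (.cons (.leaf 1 [(3,4),(8,2)]) (.cons (.leaf 1 [(3,1),(11,1)]) (.cons (.leaf 1 [(3,2),(7,2)]) (.cons (.leaf 1 [(3,2),(7,2)]) (.cons (.leaf 1 [(3,2),(7,2)]) (.cons (.leaf 1 [(11,2)]) (.cons (.leaf 1 [(11,2),(4,2)])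 (.cons (.leaf 1 [(11,2),(4,2)]) .nil))))))))))) (.cons (.keep [0,3,5,9,10] (.node (.cons (.leaf 1 [(3,4)]) (.cons (.leaf 1 [(3,1),(11,1)]) (.cons (.leaf 1 [(3,1),(11,1)]) (.cons (.leaf 1 [(3,2),(8,2)]) (.cons (.leaf 1 [(3,2),(8,2)]) (.cons (.leaf 1 [(3,2),(8,2)]) (.cons (.leaf 1 [(11,2)]) (.cons (.leaf 1 [(11,2),(4,2)]) (.cons (.leaf 1 [(11,2),(4,2)]) .nil))))))))))) (.cons (.leaf 1 [(8,2),(5,2)]) (.cons (.keep [2,6,7,8,9,10] (.node (.cons (.leaf 1 [(3,4)]) (.cons (.leaf 1 [(3,4),(8,2)]) (.cons (.leaf 1 [(3,1),(12,1)]) (.cons (.leaf 1 [(3,2),(10,2)]) (.cons (.leaf 1 [(3,2),(10,2)]) (.cons (.leaf 1 [(3,2),(10,2)]) (.cons (.leaf 1 [(12,2)]) (.cons (.leaf 1 [(12,2),(4,2)]) (.cons (.leaf 1 [(12,2),(4,2)]) .nil))))))))))) (.cons (.keep [0,2,9,10,11] (.node (.cons (.leaf 1 [(3,4)]) (.cons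 (.leaf 1 [(3,1),(10,1)]) (.cons (.leaf 1 [(3,1),(10,1)]) (.cons (.leaf 1 [(10,1),(5,1),(11,1)]) (.cons (.leaf 1 [(10,1),(11,1)]) (.cons (.leaf 1 [(10,1),(5,1),(11,1)]) (.cons (.leaf 1 [(10,2)]) (.cons (.leaf 1 [(10,2),(4,2)]) (.cons (.leaf 1 [(10,2),(4,2)]) .nil))))))))))) .nil))))))))))) .nil))))))))))) (.cons (.keep [0,5,9,10] (.node (.cons (.leaf 1 [(3,2)]) (.cons (.leaf 1 [(10,2),(3,2)]) (.cons (.leaf 1 [(10,2),(3,2)]) (.cons (.leaf 1 [(3,2)]) (.cons (.leaf 1 [(1,2),(9,2)]) (.cons (.leaf 1 [(1,2),(9,2)]) (.cons (.leaf 1 []) (.cons (.keep [4,6,7,9,10] (.node (.cons (.leaf 1 [(10,2),(3,2)]) (.cons (.leaf 1 [(8,2),(3,2),(10,2)]) (.cons (.leaf 1 [(11,1),(3,1)]) (.cons (.leaf 1 [(3,2)]) (.cons (.leaf 1 [(3,2)]) (.cons (.leaf 1 [(3,2)]) (.cons (.leaf 1 [(10,2)]) (.cons (.leaf 1 [(8,2),(10,2)])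 (.cons (.leaf 1 [(11,2),(0,2),(10,2)]) .nil))))))))))) (.cons (.keep [0,7,8,9,10] (.node (.cons (.leaf 1 [(10,2),(3,2)]) (.cons (.leaf 1 [(11,2),(2,2)]) (.cons (.leaf 1 [(11,2),(2,2)]) (.cons (.leaf 1 [(3,2),(5,2)]) (.cons (.keep [3,6,7,8,9,11] (.node (.cons (.leaf 1 [(3,4)]) (.cons (.leaf 1 [(3,4),(8,2)]) (.cons (.leaf 1 [(3,1),(12,1)]) (.cons (.leaf 1 [(3,2),(7,2)]) (.cons (.leaf 1 [(3,2),(7,2)]) (.cons (.leaf 1 [(3,2),(7,2)]) (.cons (.leaf 1 [(12,2)]) (.cons (.leaf 1 [(12,2),(4,2)]) (.cons (.leaf 1 [(12,2),(4,2)]) .nil))))))))))) (.cons (.keep [0,3,5,8,9,11] (.node (.cons (.leaf 1 [(3,4)]) (.cons (.leaf 1 [(3,1),(12,1)]) (.cons (.leaf 1 [(3,1),(12,1)]) (.cons (.leaf 1 [(3,2),(8,2)]) (.cons (.leaf 1 [(3,2),(8,2)]) (.cons (.leaf 1 [(3,2),(8,2)]) (.cons (.leaf 1 [(12,2)]) (.cons (.leaf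 1 [(12,2),(4,2)]) (.cons (.leaf 1 [(12,2),(4,2)]) .nil))))))))))) (.cons (.leaf 1 [(10,2)]) (.cons (.keep [2,6,7,8,10,11] (.node (.cons (.leaf 1 [(3,4)]) (.cons (.leaf 1 [(3,4),(8,2)]) (.cons (.leaf 1 [(3,1),(12,1)]) (.cons (.leaf 1 [(3,2),(11,2)]) (.cons (.leaf 1 [(3,2),(11,2)]) (.cons (.leaf 1 [(3,2),(11,2)]) (.cons (.leaf 1 [(12,2)]) (.cons (.leaf 1 [(12,2),(4,2)]) (.cons (.leaf 1 [(12,2),(4,2)]) .nil))))))))))) (.cons (.keep [0,2,8,10,11] (.node (.cons (.leaf 1 [(3,4)]) (.cons (.leaf 1 [(3,1),(11,1)]) (.cons (.leaf 1 [(3,1),(11,1)]) (.cons (.leaf 1 [(3,2),(5,2),(10,2)]) (.cons (.leaf 1 [(11,1),(10,1)]) (.cons (.leaf 1 [(5,1),(10,1),(11,1)]) (.cons (.leaf 1 [(11,2)]) (.cons (.leaf 1 [(11,2),(4,2)]) (.cons (.leaf 1 [(11,2),(4,2)]) .nil))))))))))) .nil))))))))))) .nil))))))))))) (.cons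 (.leaf 1 [(1,2)]) (.cons (.leaf 1 [(1,2)]) (.cons (.leaf 1 [(1,2)]) (.cons (.leaf 1 [(8,2)]) (.cons (.leaf 1 [(9,2),(1,2)]) (.cons (.leaf 1 [(9,2),(1,2)]) .nil))))))))))) (.cons (.leaf 1 [(1,2),(7,2)]) (.cons (.leaf 1 [(1,2),(7,2)]) (.cons (.leaf 1 [(1,2),(7,2)]) (.cons (.leaf 1 [(1,2)]) (.cons (.leaf 1 [(1,2)]) (.cons (.leaf 1 [(1,2)]) .nil))))))))))) (.cons (.keep [5,7,8,9] (.node (.cons (.leaf 1 [(9,1),(7,1)]) (.cons (.leaf 1 [(9,1)]) (.cons (.keep [0,7,9,10] (.node (.cons (.leaf 1 [(5,1),(9,1)]) (.cons (.keep [6,7,8,9] (.node (.cons (.leaf 1 [(9,1),(3,2)]) (.cons (.leaf 1 [(9,1),(7,2),(3,2)]) (.cons (.leaf 1 [(9,1),(10,2),(3,2)]) (.cons (.leaf 1 [(1,1),(3,1)]) (.cons (.leaf 1 [(1,1),(7,1),(3,1)]) (.cons (.leaf 1 [(3,1),(10,1)]) (.cons (.leaf 1 [(9,1)]) (.cons (.leaf 1 [(9,1),(7,2)])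 (.cons (.keep [0,7,8,9,10] (.node (.cons (.leaf 1 [(8,1),(3,1),(5,1)]) (.cons (.leaf 1 [(11,2),(2,3)]) (.cons (.leaf 1 [(11,2),(2,2),(10,1)]) (.cons (.leaf 1 [(5,1),(3,2)]) (.cons (.keep [3,6,7,9,11] (.node (.cons (.leaf 1 [(3,4)]) (.cons (.leaf 1 [(3,4),(8,2)]) (.cons (.leaf 1 [(3,1),(11,1)]) (.cons (.leaf 1 [(3,2),(7,2)]) (.cons (.leaf 1 [(3,2),(7,2)]) (.cons (.leaf 1 [(3,2),(7,2)]) (.cons (.leaf 1 [(11,2)]) (.cons (.leaf 1 [(11,2),(4,2)]) (.cons (.leaf 1 [(11,2),(4,2)]) .nil))))))))))) (.cons (.keep [3,7,9,10,11] (.node (.cons (.leaf 1 [(3,4),(5,1)]) (.cons (.leaf 1 [(3,4),(10,3)]) (.cons (.leaf 1 [(3,1),(10,1),(11,1)]) (.cons (.leaf 1 [(3,2),(7,2),(5,1)]) (.cons (.leaf 1 [(1,1),(3,1),(7,3)]) (.cons (.leaf 1 [(1,1),(3,1),(5,1),(7,3)]) (.cons (.leaf 1 [(11,2),(5,1)]) (.cons (.leaf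 1 [(11,2),(4,1)]) (.cons (.leaf 1 [(11,2),(5,1),(4,1)]) .nil))))))))))) (.cons (.leaf 1 [(8,1),(5,1)]) (.cons (.keep [2,6,7,9,11] (.node (.cons (.leaf 1 [(7,1),(3,4)]) (.cons (.leaf 1 [(7,1),(3,4),(8,2)]) (.cons (.leaf 1 [(7,1),(3,1),(11,1)]) (.cons (.leaf 1 [(11,1)]) (.cons (.leaf 1 [(4,1),(11,1)]) (.cons (.leaf 1 [(4,1),(11,1)]) (.cons (.leaf 1 [(7,1),(11,2)]) (.cons (.leaf 1 [(7,1),(4,2),(11,2)]) (.cons (.leaf 1 [(7,1),(4,2),(11,2)]) .nil))))))))))) (.cons (.keep [5,7,8,9,10,11] (.node (.cons (.leaf 1 [(3,4),(11,1)]) (.cons (.leaf 1 [(11,3),(3,4),(9,2)]) (.cons (.leaf 1 [(11,1),(3,1),(12,1)]) (.cons (.leaf 1 [(3,2),(9,1),(5,1)]) (.cons (.leaf 1 [(1,1),(3,1),(9,2)]) (.cons (.leaf 1 [(1,1),(3,1),(5,1),(9,2)]) (.cons (.leaf 1 [(11,1),(12,2)]) (.cons (.leaf 1 [(11,1),(12,2),(4,2)])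 (.cons (.leaf 1 [(11,1),(12,2),(4,2)]) .nil))))))))))) .nil))))))))))) .nil))))))))))) (.cons (.keep [0,5,8,9] (.node (.cons (.leaf 1 [(9,1),(3,2)]) (.cons (.leaf 1 [(9,1),(10,2),(3,2)]) (.cons (.leaf 1 [(9,1),(10,2),(3,2)]) (.cons (.leaf 1 [(1,1),(3,1)]) (.cons (.leaf 1 [(3,1),(10,1)]) (.cons (.leaf 1 [(3,1),(10,1)]) (.cons (.leaf 1 [(9,1)]) (.cons (.keep [4,6,7,9,10] (.node (.cons (.leaf 2 [(11,1),(3,3)]) (.cons (.leaf 2 [(11,1),(3,3),(8,2)]) (.cons (.leaf 1 [(11,1),(3,1),(10,1)]) (.cons (.leaf 1 [(3,2)]) (.cons (.leaf 1 [(8,1),(3,2)]) (.cons (.leaf 1 [(10,1),(3,2)]) (.cons (.leaf 1 [(11,1),(9,1)]) (.cons (.leaf 1 [(11,1),(8,2),(9,1)]) (.cons (.leaf 1 [(11,2),(10,1),(0,2)]) .nil))))))))))) (.cons (.keep [0,7,8,9,10] (.node (.cons (.leaf 2 [(11,1),(3,3),(5,1)]) (.cons (.leaf 1 [(11,2),(2,3)])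 (.cons (.leaf 1 [(11,2),(2,2),(10,1)]) (.cons (.leaf 1 [(5,1),(3,2)]) (.cons (.keep [3,6,7,8,9,11] (.node (.cons (.leaf 1 [(3,4)]) (.cons (.leaf 1 [(3,4),(8,2)]) (.cons (.leaf 1 [(3,1),(12,1)]) (.cons (.leaf 1 [(3,2),(7,2)]) (.cons (.leaf 1 [(3,2),(7,2)]) (.cons (.leaf 1 [(3,2),(7,2)]) (.cons (.leaf 1 [(12,2)]) (.cons (.leaf 1 [(12,2),(4,2)]) (.cons (.leaf 1 [(12,2),(4,2)]) .nil))))))))))) (.cons (.keep [3,7,8,9,10,11] (.node (.cons (.leaf 1 [(3,4),(5,1)]) (.cons (.leaf 1 [(3,4),(11,3)]) (.cons (.leaf 1 [(3,1),(11,1),(12,1)]) (.cons (.leaf 1 [(3,2),(7,2),(5,1)]) (.cons (.leaf 1 [(1,1),(3,1),(7,3)]) (.cons (.leaf 1 [(1,1),(3,1),(5,1),(7,3)]) (.cons (.leaf 1 [(12,2),(5,1)]) (.cons (.leaf 1 [(12,2),(4,1)]) (.cons (.leaf 1 [(12,2),(5,1),(4,1)]) .nil))))))))))) (.cons (.leaf 1 [(11,1),(7,1)])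 (.cons (.keep [2,6,7,8,11] (.node (.cons (.leaf 1 [(7,1),(3,4)]) (.cons (.leaf 1 [(7,1),(3,4),(8,2)]) (.cons (.leaf 1 [(7,1),(3,1),(11,1)]) (.cons (.leaf 1 [(11,1)]) (.cons (.leaf 1 [(4,1),(11,1)]) (.cons (.leaf 1 [(4,1),(11,1)]) (.cons (.leaf 1 [(7,1),(11,2)]) (.cons (.leaf 1 [(7,1),(4,2),(11,2)]) (.cons (.leaf 1 [(7,1),(4,2),(11,2)]) .nil))))))))))) (.cons (.keep [0,5,8,10,11] (.node (.cons (.leaf 1 [(3,4),(10,1)]) (.cons (.leaf 1 [(10,1),(3,1),(11,1)]) (.cons (.leaf 1 [(10,1),(3,1),(11,1)]) (.cons (.leaf 1 [(5,1),(11,1)]) (.cons (.leaf 1 [(11,1)]) (.cons (.leaf 1 [(5,1),(11,1)]) (.cons (.leaf 1 [(10,1),(11,2)]) (.cons (.leaf 1 [(10,1),(11,2),(4,2)]) (.cons (.leaf 1 [(10,1),(11,2),(4,2)]) .nil))))))))))) .nil))))))))))) .nil))))))))))) (.cons (.leaf 1 [(1,2),(8,1)]) (.cons (.leaf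 1 [(1,2),(8,1)]) (.cons (.leaf 1 [(1,2),(8,1)]) (.cons (.leaf 1 [(5,1),(9,1)]) (.cons (.keep [1,4,6,7,10] (.node (.cons (.leaf 1 [(7,1),(3,1)]) (.cons (.leaf 1 [(7,1),(9,1),(3,1)]) (.cons (.leaf 1 [(7,2),(11,1),(3,1)]) (.cons (.leaf 1 [(1,1),(3,1)]) (.cons (.leaf 1 [(1,1),(9,1),(3,1)]) (.cons (.leaf 1 [(1,1),(11,1),(3,1)]) (.cons (.leaf 1 [(7,1)]) (.cons (.leaf 1 [(7,1),(9,1)]) (.cons (.leaf 1 [(7,3),(11,1),(0,1)]) .nil))))))))))) (.cons (.keep [0,1,4,7,9,10] (.node (.cons (.leaf 1 [(8,1),(3,1)]) (.cons (.leaf 1 [(8,1),(11,1),(3,1)]) (.cons (.leaf 1 [(8,1),(11,1),(3,1)]) (.cons (.leaf 1 [(1,1),(3,1)]) (.cons (.leaf 1 [(3,1),(11,1)]) (.cons (.leaf 1 [(3,1),(11,1)]) (.cons (.leaf 1 [(8,1)]) (.cons (.leaf 1 [(8,2),(11,1),(7,1)]) (.cons (.leaf 1 [(8,2),(11,1),(0,1)]) .nil))))))))))) .nil)))))))))))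 (.cons (.leaf 1 [(1,1),(9,1),(7,1)]) (.cons (.leaf 1 [(1,1),(9,1)]) (.cons (.leaf 1 [(1,2),(10,2),(7,1)]) (.cons (.leaf 1 [(1,2),(7,1)]) (.cons (.leaf 1 [(1,2),(4,1)]) (.cons (.leaf 1 [(1,2),(7,1)]) .nil))))))))))) (.cons (.leaf 1 [(8,2),(5,1),(1,1)]) (.cons (.leaf 1 [(8,2),(1,1)]) (.cons (.leaf 1 [(8,2),(1,1),(5,1)]) (.cons (.leaf 1 [(1,1),(9,1)]) (.cons (.leaf 1 [(4,2),(1,1)]) (.cons (.leaf 1 [(4,1),(9,1),(1,1)]) .nil))))))))))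

theorem c_7_28_2 : Concl 7 28 z_7_28_2 h_7_28_2 .nd := piece _ hP_nil t_7_28_2 _ _ (by
  decide +kernel)

def z_7_28_3 : F := ⟨1, 0, -1, 0, 1⟩

def h_7_28_3 : List F := [⟨1, 0, 0, 0, 0⟩, ⟨0, -1, 1, 0, 0⟩, ⟨0, 0, 1, -1, 0⟩, ⟨0, 0, -1, 0, 1⟩]

def t_7_28_3 : T := (.node (.cons (.keep [3,5,6,8] (.node (.cons (.leaf 1 [(3,2),(10,2)]) (.cons (.leaf 1 [(9,1),(10,1)]) (.cons (.keep [0,8,9,10] (.node (.cons (.leaf 1 [(3,2)]) (.cons (.keep [6,7,8,9] (.node (.cons (.leaf 1 [(3,2)]) (.cons (.leaf 1 [(3,2)]) (.cons (.leaf 1 [(3,2)]) (.cons (.leaf 1 [(3,2),(9,2)]) (.cons (.leaf 1 [(3,2),(7,2),(9,2)]) (.cons (.leaf 1 [(3,1),(10,1)]) (.cons (.leaf 1 [(9,2)]) (.cons (.leaf 1 [(7,2),(9,2)]) (.cons (.keep [0,4,7,9,10] (.node (.cons (.leaf 1 [(2,2)]) (.cons (.leaf 1 [(2,2)]) (.cons (.leaf 1 [(2,2)])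 (.cons (.leaf 1 [(3,2),(5,2),(10,2)]) (.cons (.keep [3,6,7,8,10] (.node (.cons (.leaf 1 [(10,1)]) (.cons (.leaf 1 [(10,2),(3,2)]) (.cons (.leaf 1 [(10,2),(3,2)]) (.cons (.leaf 1 [(7,2),(10,2)]) (.cons (.leaf 1 [(7,2),(10,2),(4,2)]) (.cons (.leaf 1 [(7,2),(10,2),(4,2)]) (.cons (.leaf 1 []) (.cons (.leaf 1 [(4,2)]) (.cons (.leaf 1 [(4,2)]) .nil))))))))))) (.cons (.keep [0,3,7,8,10,11] (.node (.cons (.leaf 1 [(10,1)]) (.cons (.leaf 1 [(10,2),(3,2)]) (.cons (.leaf 1 [(10,2),(3,2)]) (.cons (.leaf 1 [(8,2),(10,2)]) (.cons (.leaf 1 [(8,2),(10,2),(4,2)]) (.cons (.leaf 1 [(8,2),(10,2),(4,2)]) (.cons (.leaf 1 []) (.cons (.leaf 1 [(4,2)]) (.cons (.leaf 1 [(4,2)]) .nil))))))))))) (.cons (.leaf 1 [(9,2),(5,2),(10,2)]) (.cons (.keep [2,6,7,8,11] (.node (.cons (.leaf 1 [(7,2),(2,2)]) (.cons (.leaf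 1 [(7,2),(2,2)]) (.cons (.leaf 1 [(7,2),(2,2)]) (.cons (.leaf 1 [(11,1)]) (.cons (.leaf 1 [(11,1),(4,1)]) (.cons (.leaf 1 [(11,1),(4,1)]) (.cons (.leaf 1 []) (.cons (.leaf 1 [(4,2)]) (.cons (.leaf 1 [(4,2)]) .nil))))))))))) (.cons (.keep [0,2,7,8,10,11] (.node (.cons (.leaf 1 [(8,2),(2,2)]) (.cons (.leaf 1 [(8,2),(2,2)]) (.cons (.leaf 1 [(8,2),(2,2)]) (.cons (.leaf 1 [(5,1),(12,1)]) (.cons (.leaf 1 [(12,1)]) (.cons (.leaf 1 [(12,1),(5,1)]) (.cons (.leaf 1 []) (.cons (.leaf 1 [(4,2)]) (.cons (.leaf 1 [(4,2)]) .nil))))))))))) .nil))))))))))) .nil))))))))))) (.cons (.keep [5,7,8,9,10] (.node (.cons (.leaf 1 [(5,2),(3,2)]) (.cons (.leaf 1 [(11,2),(3,2)]) (.cons (.leaf 1 [(11,2),(3,2)]) (.cons (.leaf 1 [(3,2),(9,2)]) (.cons (.leaf 1 [(1,2),(10,2)]) (.cons (.leaf 1 [(1,2),(10,2)]) (.cons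 (.leaf 1 [(9,2)]) (.cons (.leaf 1 [(11,2),(9,2)]) (.cons (.keep [0,8,9,10,11] (.node (.cons (.leaf 1 [(3,2)]) (.cons (.leaf 1 [(3,2)]) (.cons (.leaf 1 [(3,2)]) (.cons (.leaf 1 [(3,2),(5,2),(9,2)]) (.cons (.keep [3,6,7,8,9] (.node (.cons (.leaf 1 [(2,2)]) (.cons (.leaf 1 [(2,2)]) (.cons (.leaf 1 [(2,2)]) (.cons (.leaf 1 [(7,2),(11,1)]) (.cons (.leaf 1 [(7,2),(11,2),(3,2)]) (.cons (.leaf 1 [(7,2),(11,2),(3,2)]) (.cons (.leaf 1 [(7,2)]) (.cons (.leaf 1 [(7,2),(4,2)]) (.cons (.leaf 1 [(7,2),(4,2)]) .nil))))))))))) (.cons (.keep [0,3,7,8,9,10] (.node (.cons (.leaf 1 [(2,2)]) (.cons (.leaf 1 [(2,2)]) (.cons (.leaf 1 [(2,2)]) (.cons (.leaf 1 [(8,2),(11,1)]) (.cons (.leaf 1 [(8,2),(11,2),(3,2)]) (.cons (.leaf 1 [(8,2),(11,2),(3,2)]) (.cons (.leaf 1 [(8,2)]) (.cons (.leaf 1 [(8,2),(4,2)]) (.cons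 (.leaf 1 [(8,2),(4,2)]) .nil))))))))))) (.cons (.leaf 1 [(10,2)]) (.cons (.keep [6,7,8,9,11] (.node (.cons (.leaf 1 [(2,2)]) (.cons (.leaf 1 [(2,2)]) (.cons (.leaf 1 [(2,2)]) (.cons (.leaf 1 [(11,2),(10,1)]) (.cons (.leaf 1 [(11,2),(10,2),(3,2)]) (.cons (.leaf 1 [(11,2),(10,2),(3,2)]) (.cons (.leaf 1 [(11,2)]) (.cons (.leaf 1 [(11,2),(4,2)]) (.cons (.leaf 1 [(11,2),(4,2)]) .nil))))))))))) (.cons (.keep [0,7,8,9,10,11] (.node (.cons (.leaf 1 [(2,2)]) (.cons (.leaf 1 [(2,2)]) (.cons (.leaf 1 [(2,2)]) (.cons (.leaf 1 [(3,2),(5,2),(11,2)]) (.cons (.leaf 1 [(12,1),(11,1)]) (.cons (.leaf 1 [(12,1),(11,1),(5,1)]) (.cons (.leaf 1 [(12,2)]) (.cons (.leaf 1 [(12,2),(4,2)]) (.cons (.leaf 1 [(12,2),(4,2)]) .nil))))))))))) .nil))))))))))) .nil))))))))))) (.cons (.leaf 1 [(3,2)]) (.cons (.leaf 1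 [(1,2),(8,2)]) (.cons (.leaf 1 [(1,2),(8,2)]) (.cons (.leaf 1 []) (.cons (.leaf 1 [(1,2),(9,2)]) (.cons (.leaf 1 [(1,2),(9,2)]) .nil))))))))))) (.cons (.leaf 1 [(1,2)]) (.cons (.leaf 1 [(1,2)]) (.cons (.leaf 1 [(1,2)]) (.cons (.leaf 1 [(8,2),(1,2)]) (.cons (.leaf 1 [(8,2),(1,2)]) (.cons (.leaf 1 [(8,2),(1,2)]) .nil))))))))))) (.cons (.keep [4,6,7,8,9] (.node (.cons (.leaf 1 [(10,1)]) (.cons (.leaf 1 [(8,1),(10,1)]) (.cons (.keep [0,7,8,10,11] (.node (.cons (.leaf 1 [(8,1),(3,2)]) (.cons (.keep [2,6,8,9,11] (.node (.cons (.leaf 1 [(3,2)]) (.cons (.leaf 1 [(3,2),(8,1)]) (.cons (.leaf 1 [(3,2),(9,1)]) (.cons (.leaf 1 [(3,1),(10,1)]) (.cons (.leaf 1 [(3,1),(10,1)]) (.cons (.leaf 1 [(3,1),(10,1)]) (.cons (.leaf 1 [(11,1)]) (.cons (.leaf 1 [(8,2),(11,1)]) (.cons (.keep [4,8,9,10,11] (.node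 (.cons (.leaf 1 [(5,1),(3,1)]) (.cons (.leaf 1 [(9,1),(2,2)]) (.cons (.leaf 1 [(9,1),(2,2)]) (.cons (.leaf 1 [(3,2),(5,2),(11,1)]) (.cons (.keep [0,3,7,9,11] (.node (.cons (.leaf 1 [(3,1)]) (.cons (.leaf 1 [(3,1)]) (.cons (.leaf 1 [(3,1)]) (.cons (.leaf 1 [(8,1)]) (.cons (.leaf 1 [(8,1),(4,1)]) (.cons (.leaf 1 [(8,1),(4,1)]) (.cons (.leaf 1 [(10,1)]) (.cons (.leaf 1 [(10,1),(4,2)]) (.cons (.leaf 1 [(10,1),(4,2)]) .nil))))))))))) (.cons (.keep [0,3,5,7,9,11] (.node (.cons (.leaf 1 [(3,1)]) (.cons (.leaf 1 [(3,1)]) (.cons (.leaf 1 [(3,1)]) (.cons (.leaf 1 [(8,1)]) (.cons (.leaf 1 [(8,1),(4,1)]) (.cons (.leaf 1 [(8,1),(4,1)]) (.cons (.leaf 1 [(11,1)]) (.cons (.leaf 1 [(11,1),(4,2)]) (.cons (.leaf 1 [(11,1),(4,2)]) .nil))))))))))) (.cons (.leaf 1 [(8,2),(5,2),(11,1)]) (.cons (.keep [0,2,7,8,9,11]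 (.node (.cons (.leaf 1 [(3,1)]) (.cons (.leaf 1 [(3,1)]) (.cons (.leaf 1 [(3,1)]) (.cons (.leaf 1 [(10,1)]) (.cons (.leaf 1 [(10,1),(4,1)]) (.cons (.leaf 1 [(10,1),(4,1)]) (.cons (.leaf 1 [(11,1)]) (.cons (.leaf 1 [(11,1),(4,2)]) (.cons (.leaf 1 [(11,1),(4,2)]) .nil))))))))))) (.cons (.keep [0,2,7,9,10,11] (.node (.cons (.leaf 1 [(3,1)]) (.cons (.leaf 1 [(3,1)]) (.cons (.leaf 1 [(3,1)]) (.cons (.leaf 1 [(5,1),(11,1)]) (.cons (.leaf 1 [(11,1)]) (.cons (.leaf 1 [(5,1),(11,1)]) (.cons (.leaf 1 [(10,1)]) (.cons (.leaf 1 [(10,1),(4,2)]) (.cons (.leaf 1 [(10,1),(4,2)]) .nil))))))))))) .nil))))))))))) .nil))))))))))) (.cons (.keep [5,7,8,9,10,11] (.node (.cons (.leaf 1 [(3,2),(5,1)]) (.cons (.leaf 1 [(11,2),(3,2)]) (.cons (.leaf 1 [(11,2),(3,2),(9,1)]) (.cons (.leaf 1 [(3,1),(10,1),(5,1)])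 (.cons (.leaf 1 [(1,1),(10,2)]) (.cons (.leaf 1 [(1,1),(5,1),(10,2)]) (.cons (.leaf 1 [(12,1)]) (.cons (.leaf 1 [(11,2),(12,1)]) (.cons (.keep [0,8,9,10,11,12] (.node (.cons (.leaf 1 [(3,2),(9,1)]) (.cons (.leaf 1 [(9,1),(3,2)]) (.cons (.leaf 1 [(9,1),(3,2)]) (.cons (.leaf 1 [(3,2),(12,1),(5,2)]) (.cons (.keep [3,6,7,8,9,12] (.node (.cons (.leaf 1 [(2,1),(3,2)]) (.cons (.leaf 1 [(7,1),(3,1)]) (.cons (.leaf 1 [(7,1),(3,1)]) (.cons (.leaf 1 [(7,2)]) (.cons (.leaf 1 [(4,1),(7,2)]) (.cons (.leaf 1 [(4,1),(7,2)]) (.cons (.leaf 1 [(7,2),(11,1)]) (.cons (.leaf 1 [(4,2),(7,2),(11,1)]) (.cons (.leaf 1 [(4,2),(7,2),(11,1)]) .nil))))))))))) (.cons (.keep [0,3,5,8,9,12] (.node (.cons (.leaf 1 [(2,1),(3,2)]) (.cons (.leaf 1 [(8,1),(3,1)]) (.cons (.leaf 1 [(8,1),(3,1)]) (.cons (.leaf 1 [(8,2)])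 (.cons (.leaf 1 [(4,1),(8,2)]) (.cons (.leaf 1 [(4,1),(8,2)]) (.cons (.leaf 1 [(8,2),(11,1)]) (.cons (.leaf 1 [(4,2),(8,2),(11,1)]) (.cons (.leaf 1 [(4,2),(8,2),(11,1)]) .nil))))))))))) (.cons (.leaf 1 [(10,2),(12,1)]) (.cons (.keep [2,6,8,9,10,12] (.node (.cons (.leaf 1 [(2,1),(3,2)]) (.cons (.leaf 1 [(2,1),(3,2),(8,1)]) (.cons (.leaf 1 [(2,2),(10,1)]) (.cons (.leaf 1 [(11,2)]) (.cons (.leaf 1 [(4,1),(11,2)]) (.cons (.leaf 1 [(4,1),(11,2)]) (.cons (.leaf 1 [(11,2),(10,1)]) (.cons (.leaf 1 [(4,2),(11,2),(10,1)]) (.cons (.leaf 1 [(4,2),(11,2),(10,1)]) .nil))))))))))) (.cons (.keep [0,5,8,9,11,12] (.node (.cons (.leaf 1 [(2,1),(3,2)]) (.cons (.leaf 1 [(2,2),(10,1)]) (.cons (.leaf 1 [(2,2),(10,1)]) (.cons (.leaf 1 [(11,2)]) (.cons (.leaf 1 [(4,1),(11,2)]) (.cons (.leaf 1 [(4,1),(11,2)])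 (.cons (.leaf 1 [(11,2),(10,1)]) (.cons (.leaf 1 [(4,2),(11,2),(10,1)]) (.cons (.leaf 1 [(4,2),(11,2),(10,1)]) .nil))))))))))) .nil))))))))))) .nil))))))))))) (.cons (.leaf 1 [(1,1),(3,1)]) (.cons (.leaf 1 [(1,2),(11,1)]) (.cons (.leaf 1 [(1,2),(11,1)]) (.cons (.leaf 1 [(8,1)]) (.cons (.leaf 1 [(9,2),(1,2),(11,1)]) (.cons (.leaf 1 [(9,2),(1,2),(11,1)]) .nil))))))))))) (.cons (.leaf 1 [(1,2),(7,1)]) (.cons (.leaf 1 [(1,2),(7,1)]) (.cons (.leaf 1 [(1,2),(7,1)]) (.cons (.leaf 1 [(10,1),(1,1)]) (.cons (.leaf 1 [(8,1),(1,1),(10,1)]) (.cons (.leaf 1 [(11,1),(1,2)]) .nil))))))))))) (.cons (.keep [4,7,8,9] (.node (.cons (.leaf 1 [(3,2),(9,2),(7,1)]) (.cons (.leaf 1 [(9,1)]) (.cons (.keep [0,7,9,10] (.node (.cons (.leaf 1 []) (.cons (.keep [3,6,8,10] (.node (.cons (.leaf 1 [(9,1),(3,2)]) (.cons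 (.leaf 1 [(9,1),(3,2)]) (.cons (.leaf 1 [(9,1),(3,2)]) (.cons (.leaf 1 [(3,1)]) (.cons (.leaf 1 [(3,1)]) (.cons (.leaf 1 [(3,1)]) (.cons (.leaf 1 [(9,1),(10,2)]) (.cons (.leaf 1 [(9,1),(8,2),(10,2)]) (.cons (.keep [0,7,8,9,10] (.node (.cons (.leaf 1 [(2,1),(3,1)]) (.cons (.leaf 1 [(2,2),(10,1)]) (.cons (.leaf 1 [(2,2),(10,1)]) (.cons (.leaf 1 [(3,2),(5,1),(11,1)]) (.cons (.keep [0,3,8,10,11] (.node (.cons (.leaf 1 [(3,1)]) (.cons (.leaf 1 [(3,1)]) (.cons (.leaf 1 [(3,1)]) (.cons (.leaf 1 [(8,1)]) (.cons (.leaf 1 [(8,1),(4,1)]) (.cons (.leaf 1 [(8,1),(4,1)]) (.cons (.leaf 1 [(10,1)]) (.cons (.leaf 1 [(10,1),(4,2)]) (.cons (.leaf 1 [(10,1),(4,2)]) .nil))))))))))) (.cons (.keep [3,5,8,10,11] (.node (.cons (.leaf 1 [(5,1),(3,1)]) (.cons (.leaf 3 [(10,1)]) (.cons (.leaf 3 [(10,1),(5,2)])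 (.cons (.leaf 1 [(5,1),(7,1)]) (.cons (.leaf 1 [(7,1)]) (.cons (.leaf 1 [(7,1),(5,1)]) (.cons (.leaf 1 [(10,1)]) (.cons (.leaf 1 [(10,1),(4,2)]) (.cons (.leaf 1 [(10,1),(4,2)]) .nil))))))))))) (.cons (.leaf 1 [(7,1),(11,1)]) (.cons (.keep [4,6,7,10,11] (.node (.cons (.leaf 3 [(10,3),(11,2)]) (.cons (.leaf 3 [(10,3),(4,2),(11,2)]) (.cons (.leaf 3 [(10,3),(4,2),(11,2)]) (.cons (.leaf 1 []) (.cons (.leaf 1 [(4,1)]) (.cons (.leaf 1 [(4,1)]) (.cons (.leaf 1 [(10,1)]) (.cons (.leaf 1 [(10,1),(4,2)]) (.cons (.leaf 1 [(10,1),(4,2)]) .nil))))))))))) (.cons (.keep [0,4,5,10,11] (.node (.cons (.leaf 3 [(11,2),(10,3)]) (.cons (.leaf 1 [(10,1),(11,1),(3,1)]) (.cons (.leaf 1 [(11,1),(10,1),(3,1)]) (.cons (.leaf 1 [(5,1)]) (.cons (.leaf 1 []) (.cons (.leaf 1 [(5,1)]) (.cons (.leaf 1 [(10,1)]) (.cons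 (.leaf 1 [(10,1),(4,2)]) (.cons (.leaf 1 [(10,1),(4,2)]) .nil))))))))))) .nil))))))))))) .nil))))))))))) (.cons (.keep [5,7,8,9,10] (.node (.cons (.leaf 1 [(9,1),(5,2),(3,2)]) (.cons (.leaf 1 [(9,1),(10,2),(3,2)]) (.cons (.leaf 1 [(9,1),(10,2),(3,2)]) (.cons (.leaf 1 [(3,1),(5,1)]) (.cons (.leaf 1 [(3,1),(10,1)]) (.cons (.leaf 1 [(3,1),(10,1)]) (.cons (.leaf 1 [(9,1),(11,2)]) (.cons (.leaf 1 [(9,1),(10,2),(11,2)]) (.cons (.keep [0,8,9,10,11] (.node (.cons (.leaf 1 [(3,2)]) (.cons (.leaf 1 [(3,2),(9,1)]) (.cons (.leaf 1 [(3,2),(9,1)]) (.cons (.leaf 1 [(3,2),(5,1),(11,1)]) (.cons (.keep [3,6,7,8,9,11] (.node (.cons (.leaf 1 [(2,1),(3,2)]) (.cons (.leaf 1 [(7,1),(3,1)]) (.cons (.leaf 1 [(7,1),(3,1)]) (.cons (.leaf 1 [(7,2)]) (.cons (.leaf 1 [(4,1),(7,2)]) (.cons (.leaf 1 [(4,1),(7,2)])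 (.cons (.leaf 1 [(7,2),(11,1)]) (.cons (.leaf 1 [(4,2),(7,2),(11,1)]) (.cons (.leaf 1 [(4,2),(7,2),(11,1)]) .nil))))))))))) (.cons (.keep [3,7,8,9,11] (.node (.cons (.leaf 1 [(2,1),(3,2),(5,1)]) (.cons (.leaf 3 [(7,4),(10,1)]) (.cons (.leaf 1 [(2,2),(10,1)]) (.cons (.leaf 1 [(7,2),(5,1)]) (.cons (.leaf 1 [(7,2)]) (.cons (.leaf 1 [(5,1),(7,2)]) (.cons (.leaf 1 [(7,2),(10,1)]) (.cons (.leaf 1 [(4,2),(7,2),(10,1)]) (.cons (.leaf 1 [(4,2),(7,2),(10,1)]) .nil))))))))))) (.cons (.leaf 1 [(10,1),(5,1),(11,1)]) (.cons (.keep [0,8,9,10,11] (.node (.cons (.leaf 1 [(3,1)]) (.cons (.leaf 1 [(3,1)]) (.cons (.leaf 1 [(3,1)]) (.cons (.leaf 1 [(10,1)]) (.cons (.leaf 1 [(10,1),(4,1)]) (.cons (.leaf 1 [(10,1),(4,1)]) (.cons (.leaf 1 [(9,1),(10,2)]) (.cons (.leaf 1 [(9,1),(10,2),(4,2)]) (.cons (.leaf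 1 [(9,1),(10,2),(4,2)]) .nil))))))))))) (.cons (.keep [5,8,9,10,11] (.node (.cons (.leaf 1 [(5,1),(3,1)]) (.cons (.leaf 1 [(9,1),(2,2)]) (.cons (.leaf 1 [(9,1),(2,2)]) (.cons (.leaf 1 [(5,1),(10,1)]) (.cons (.leaf 1 [(10,1)]) (.cons (.leaf 1 [(10,1),(5,1)]) (.cons (.leaf 1 [(9,1),(10,2)]) (.cons (.leaf 1 [(9,1),(10,2),(4,2)]) (.cons (.leaf 1 [(9,1),(10,2),(4,2)]) .nil))))))))))) .nil))))))))))) .nil))))))))))) (.cons (.leaf 1 [(1,1)]) (.cons (.leaf 1 [(1,2),(8,1),(10,2)]) (.cons (.leaf 1 [(1,2),(8,1),(10,2)]) (.cons (.leaf 1 [(1,1)]) (.cons (.keep [1,6,7,8,10] (.node (.cons (.leaf 1 [(7,2),(3,1)]) (.cons (.leaf 1 [(7,2),(3,1)]) (.cons (.leaf 1 [(7,2),(3,1)]) (.cons (.leaf 1 [(1,1),(3,1)]) (.cons (.leaf 1 [(1,1),(3,1)]) (.cons (.leaf 1 [(1,1),(3,1)]) (.cons (.leaf 1 [(7,1),(11,1)])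 (.cons (.leaf 1 [(7,1),(8,1),(11,1)]) (.cons (.leaf 1 [(7,3),(0,1),(11,1)]) .nil))))))))))) (.cons (.keep [5,7,8,9,10] (.node (.cons (.leaf 1 [(7,1),(10,2),(3,1)]) (.cons (.leaf 1 [(4,1),(10,2),(3,1)]) (.cons (.leaf 1 [(7,1),(10,2),(3,1)]) (.cons (.leaf 1 [(1,1),(5,1),(3,1)]) (.cons (.leaf 1 [(3,1),(10,1)]) (.cons (.leaf 1 [(3,1),(10,1)]) (.cons (.leaf 1 [(7,1),(10,1),(11,1)]) (.cons (.leaf 1 [(11,1),(10,1)]) (.cons (.leaf 1 [(7,2),(10,3),(0,1),(11,1)]) .nil))))))))))) .nil))))))))))) (.cons (.leaf 1 [(1,2),(7,1)]) (.cons (.leaf 1 [(1,2),(7,1)]) (.cons (.leaf 1 [(1,2),(7,1)]) (.cons (.leaf 1 [(9,2),(7,1)]) (.cons (.leaf 1 [(1,1),(9,1)]) (.cons (.leaf 1 [(10,2),(1,2),(7,1)]) .nil))))))))))) (.cons (.leaf 1 [(8,2),(1,1)]) (.cons (.leaf 1 [(8,2),(1,1),(4,1)]) (.cons (.leaf 1 [(8,2),(1,1),(4,1)])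 (.cons (.leaf 1 [(1,1)]) (.cons (.leaf 1 [(1,1),(4,1)]) (.cons (.leaf 1 [(1,1),(4,1)]) .nil))))))))))

theorem c_7_28_3 : Concl 7 28 z_7_28_3 h_7_28_3 .nd := piece _ hP_nil t_7_28_3 _ _ (by
  decide +kernel)

def z_7_28_4 : F := ⟨1, -1, 0, 0, 1⟩

def h_7_28_4 : List F := [⟨1, 0, 0, 0, 0⟩, ⟨0, 1, -1, 0, 0⟩, ⟨0, 1, 0, -1, 0⟩, ⟨0, -1, 0, 0, 1⟩]

def t_7_28_4 : T := (.node (.cons (.keep [2,5,6,8] (.leaf 0 [(0,0)])) (.cons (.keep [2,4,6,9] (.node (.cons (.leaf 1 []) (.cons (.leaf 1 [(9,1)]) (.cons (.keep [7,8,9,10] (.node (.cons (.leaf 1 [(8,1),(5,1),(3,2)]) (.cons (.keep [6,7,8,9,10] (.node (.cons (.leaf 1 [(3,2)]) (.cons (.leaf 1 [(3,2),(7,1)]) (.cons (.leaf 1 [(3,2),(9,1)]) (.cons (.leaf 1 [(3,1),(10,1)]) (.cons (.leaf 1 [(3,1),(10,1)]) (.cons (.leaf 1 [(3,1),(10,1)]) (.cons (.leaf 1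 [(11,1)]) (.cons (.leaf 1 [(7,2),(11,1)]) (.cons (.keep [4,7,9,10,11] (.node (.cons (.leaf 1 [(5,1),(3,1)]) (.cons (.leaf 1 [(9,1),(2,2)]) (.cons (.leaf 1 [(9,1),(2,2)]) (.cons (.leaf 1 [(3,2),(5,2),(11,1)]) (.cons (.keep [0,3,7,9,11] (.node (.cons (.leaf 1 [(3,1)]) (.cons (.leaf 1 [(3,1)]) (.cons (.leaf 1 [(3,1)]) (.cons (.leaf 1 [(8,1)]) (.cons (.leaf 1 [(8,1),(4,1)]) (.cons (.leaf 1 [(8,1),(4,1)]) (.cons (.leaf 1 [(10,1)]) (.cons (.leaf 1 [(10,1),(4,2)]) (.cons (.leaf 1 [(10,1),(4,2)]) .nil))))))))))) (.cons (.keep [0,3,5,7,9,11] (.node (.cons (.leaf 1 [(3,1)]) (.cons (.leaf 1 [(3,1)]) (.cons (.leaf 1 [(3,1)]) (.cons (.leaf 1 [(8,1)]) (.cons (.leaf 1 [(8,1),(4,1)]) (.cons (.leaf 1 [(8,1),(4,1)]) (.cons (.leaf 1 [(11,1)]) (.cons (.leaf 1 [(11,1),(4,2)]) (.cons (.leaf 1 [(11,1),(4,2)])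 .nil))))))))))) (.cons (.leaf 1 [(8,2),(5,2),(11,1)]) (.cons (.keep [0,2,7,8,9,11] (.node (.cons (.leaf 1 [(3,1)]) (.cons (.leaf 1 [(3,1)]) (.cons (.leaf 1 [(3,1)]) (.cons (.leaf 1 [(10,1)]) (.cons (.leaf 1 [(10,1),(4,1)]) (.cons (.leaf 1 [(10,1),(4,1)]) (.cons (.leaf 1 [(11,1)]) (.cons (.leaf 1 [(11,1),(4,2)]) (.cons (.leaf 1 [(11,1),(4,2)]) .nil))))))))))) (.cons (.keep [0,2,7,9,10,11] (.node (.cons (.leaf 1 [(3,1)]) (.cons (.leaf 1 [(3,1)]) (.cons (.leaf 1 [(3,1)]) (.cons (.leaf 1 [(5,1),(11,1)]) (.cons (.leaf 1 [(11,1)]) (.cons (.leaf 1 [(5,1),(11,1)]) (.cons (.leaf 1 [(10,1)]) (.cons (.leaf 1 [(10,1),(4,2)]) (.cons (.leaf 1 [(10,1),(4,2)]) .nil))))))))))) .nil))))))))))) .nil))))))))))) (.cons (.keep [0,8,9,10] (.node (.cons (.leaf 1 [(3,2)]) (.cons (.keep [3,4,6,7,9] (.node (.cons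 (.leaf 1 [(2,1),(3,1)]) (.cons (.leaf 1 [(2,1),(3,1)]) (.cons (.leaf 1 [(2,1),(3,1)]) (.cons (.leaf 1 [(7,2),(3,1)]) (.cons (.leaf 1 [(7,2),(3,1)]) (.cons (.leaf 1 [(7,2),(3,1)]) (.cons (.leaf 1 [(7,1),(11,1)]) (.cons (.leaf 1 [(7,1),(9,1),(11,1)]) (.cons (.leaf 1 [(7,2),(0,1),(11,1)]) .nil))))))))))) (.cons (.keep [3,4,7,8,9] (.node (.cons (.leaf 1 [(2,1),(5,1),(3,1)]) (.cons (.leaf 1 [(2,1),(10,1),(3,1)]) (.cons (.leaf 1 [(2,1),(10,1),(3,1)]) (.cons (.leaf 1 [(7,2),(5,1),(3,1)]) (.cons (.leaf 1 [(7,2),(10,1),(3,1)]) (.cons (.leaf 1 [(7,2),(10,1),(3,1)]) (.cons (.leaf 1 [(7,1),(11,1)]) (.cons (.leaf 1 [(7,1),(10,1),(11,1)]) (.cons (.leaf 1 [(7,2),(10,1),(0,1),(11,1)]) .nil))))))))))) (.cons (.leaf 1 [(3,1),(9,1)]) (.cons (.leaf 1 [(3,1),(9,1)]) (.cons (.leaf 1 [(3,1),(9,1)]) (.cons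 (.leaf 1 [(10,1)]) (.cons (.keep [0,1,9,10] (.node (.cons (.leaf 1 [(3,1)]) (.cons (.leaf 1 [(3,1)]) (.cons (.leaf 1 [(3,1)]) (.cons (.leaf 1 [(3,2),(10,1)]) (.cons (.leaf 1 [(3,2),(10,1)]) (.cons (.leaf 1 [(3,2),(10,1)]) (.cons (.leaf 1 [(9,2),(10,1)]) (.cons (.leaf 1 [(7,2),(10,1),(9,2)]) (.cons (.leaf 1 [(0,2),(10,1),(9,2)]) .nil))))))))))) (.cons (.keep [5,8,9,10] (.node (.cons (.leaf 1 [(5,1),(3,1)]) (.cons (.leaf 1 [(8,1),(2,1),(3,1)]) (.cons (.leaf 1 [(8,1),(2,1),(3,1)]) (.cons (.leaf 1 [(3,2),(5,2),(10,1)]) (.cons (.keep [0,3,4,8,10] (.node (.cons (.leaf 1 [(3,1)]) (.cons (.leaf 1 [(3,1)]) (.cons (.leaf 1 [(3,1)]) (.cons (.leaf 1 [(8,1)]) (.cons (.leaf 1 [(8,1),(4,1)]) (.cons (.leaf 1 [(8,1),(4,1)]) (.cons (.leaf 1 [(10,1),(8,1)]) (.cons (.leaf 1 [(10,1),(8,1),(4,2)]) (.cons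 (.leaf 1 [(10,1),(8,1),(4,2)]) .nil))))))))))) (.cons (.keep [0,3,5,7,8,10] (.node (.cons (.leaf 1 [(3,1)]) (.cons (.leaf 1 [(3,1)]) (.cons (.leaf 1 [(3,1)]) (.cons (.leaf 1 [(8,1)]) (.cons (.leaf 1 [(8,1),(4,1)]) (.cons (.leaf 1 [(8,1),(4,1)]) (.cons (.leaf 1 [(11,1),(8,1)]) (.cons (.leaf 1 [(11,1),(8,1),(4,2)]) (.cons (.leaf 1 [(11,1),(8,1),(4,2)]) .nil))))))))))) (.cons (.leaf 1 [(9,2),(10,1)]) (.cons (.keep [0,4,8,9,10] (.node (.cons (.leaf 1 [(3,1)]) (.cons (.leaf 1 [(3,1)]) (.cons (.leaf 1 [(3,1)]) (.cons (.leaf 1 [(10,1)]) (.cons (.leaf 1 [(10,1),(4,1)]) (.cons (.leaf 1 [(10,1),(4,1)]) (.cons (.leaf 1 [(9,1),(10,1)]) (.cons (.leaf 1 [(9,1),(10,1),(4,2)]) (.cons (.leaf 1 [(9,1),(10,1),(4,2)]) .nil))))))))))) (.cons (.keep [0,7,8,9,10] (.node (.cons (.leaf 1 [(3,1)]) (.cons (.leaf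 1 [(3,1)]) (.cons (.leaf 1 [(3,1)]) (.cons (.leaf 1 [(5,1),(10,1)]) (.cons (.leaf 1 [(10,1)]) (.cons (.leaf 1 [(5,1),(10,1)]) (.cons (.leaf 1 [(9,1),(5,1),(10,1)]) (.cons (.leaf 1 [(9,1),(10,1),(4,1)]) (.cons (.leaf 1 [(9,1),(5,1),(10,1),(4,1)]) .nil))))))))))) .nil))))))))))) .nil))))))))))) (.cons (.leaf 1 [(3,1),(5,1)]) (.cons (.leaf 1 [(1,2),(10,1)]) (.cons (.leaf 1 [(1,2),(10,1)]) (.cons (.leaf 1 [(9,1),(5,1)]) (.cons (.leaf 1 [(9,2),(1,2),(10,1)]) (.cons (.leaf 1 [(1,2),(10,1),(9,2)]) .nil))))))))))) (.cons (.leaf 1 [(1,1)]) (.cons (.leaf 1 [(1,1),(9,1)]) (.cons (.leaf 1 [(1,2),(8,2),(10,1)]) (.cons (.leaf 1 [(1,1)]) (.cons (.leaf 1 [(1,1),(9,1)]) (.cons (.leaf 1 [(1,2),(10,1)]) .nil))))))))))) (.cons (.keep [2,4,5,7,8,9] (.leaf 0 [(1,0)])) (.cons (.keep [1,3,5,6,10] (.node (.cons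 (.leaf 1 [(9,1),(11,1)]) (.cons (.leaf 1 [(10,1),(11,1)]) (.cons (.keep [2,7,9,10,11] (.node (.cons (.leaf 1 [(3,1)]) (.cons (.leaf 1 [(8,1)]) (.cons (.keep [7,8,9,10,11] (.node (.cons (.leaf 1 [(5,1),(3,1)]) (.cons (.keep [0,3,7,10,11] (.node (.cons (.leaf 1 [(3,1)]) (.cons (.leaf 1 [(3,1)]) (.cons (.leaf 1 [(3,1)]) (.cons (.leaf 1 [(3,1),(8,1)]) (.cons (.leaf 1 [(3,1),(8,1)]) (.cons (.leaf 1 [(3,1),(8,1)]) (.cons (.leaf 1 [(10,1)]) (.cons (.leaf 1 [(7,1),(10,1)]) (.cons (.leaf 1 [(0,1),(10,1)]) .nil))))))))))) (.cons (.keep [0,3,5,7,10,11] (.node (.cons (.leaf 1 [(3,1)]) (.cons (.leaf 1 [(3,1)]) (.cons (.leaf 1 [(3,1)]) (.cons (.leaf 1 [(3,1),(8,1)]) (.cons (.leaf 1 [(3,1),(8,1)]) (.cons (.leaf 1 [(3,1),(8,1)]) (.cons (.leaf 1 [(11,1)]) (.cons (.leaf 1 [(7,1),(11,1)]) (.cons (.leaf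 1 [(0,1),(11,1)]) .nil))))))))))) (.cons (.leaf 1 [(5,1),(8,1)]) (.cons (.leaf 1 [(1,1),(10,1)]) (.cons (.leaf 1 [(1,1),(10,1)]) (.cons (.leaf 1 [(5,1),(8,1)]) (.cons (.keep [0,1,7,8,10] (.node (.cons (.leaf 1 [(3,1)]) (.cons (.leaf 1 [(3,1)]) (.cons (.leaf 1 [(3,1)]) (.cons (.leaf 1 [(3,1),(10,1)]) (.cons (.leaf 1 [(3,1),(10,1)]) (.cons (.leaf 1 [(3,1),(10,1)]) (.cons (.leaf 1 [(11,1)]) (.cons (.leaf 1 [(7,1),(11,1)]) (.cons (.leaf 1 [(0,1),(11,1)]) .nil))))))))))) (.cons (.keep [0,1,7,9,10] (.node (.cons (.leaf 1 [(3,1)]) (.cons (.leaf 1 [(3,1)]) (.cons (.leaf 1 [(3,1)]) (.cons (.leaf 1 [(3,1),(5,1),(10,1)]) (.cons (.leaf 1 [(3,1),(7,1),(10,1)]) (.cons (.leaf 1 [(3,1),(0,1),(10,1),(5,1)]) (.cons (.leaf 1 [(11,1)]) (.cons (.leaf 1 [(7,1),(11,1)]) (.cons (.leaf 1 [(0,1),(11,1)]) .nil)))))))))))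 .nil))))))))))) (.cons (.leaf 1 [(3,1)]) (.cons (.leaf 1 [(1,1),(8,1)]) (.cons (.leaf 1 [(1,1),(9,1)]) (.cons (.leaf 1 []) (.cons (.leaf 1 [(1,1),(8,1)]) (.cons (.leaf 1 [(1,1),(10,1)]) .nil))))))))))) (.cons (.leaf 1 [(1,1)]) (.cons (.leaf 1 [(1,1)]) (.cons (.leaf 1 [(1,1)]) (.cons (.leaf 1 [(9,1),(1,1)]) (.cons (.leaf 1 [(9,1),(1,1)]) (.cons (.leaf 1 [(9,1),(1,1)]) .nil))))))))))) (.cons (.keep [1,4,6,7,10] (.node (.cons (.leaf 1 [(11,1)]) (.cons (.leaf 1 [(9,1),(11,1)]) (.cons (.keep [4,7,8,9,11] (.node (.cons (.leaf 1 [(3,1),(9,1)]) (.cons (.leaf 1 [(8,1),(9,1)]) (.cons (.keep [0,7,8,9,10,11] (.node (.cons (.leaf 1 [(3,1)]) (.cons (.keep [0,3,8,11,12] (.node (.cons (.leaf 1 [(3,1)]) (.cons (.leaf 1 [(3,1)]) (.cons (.leaf 1 [(3,1)]) (.cons (.leaf 1 [(3,1),(8,1)]) (.cons (.leaf 1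 [(3,1),(8,1)]) (.cons (.leaf 1 [(3,1),(8,1)]) (.cons (.leaf 1 [(10,1)]) (.cons (.leaf 1 [(7,1),(10,1)]) (.cons (.leaf 1 [(0,1),(10,1)]) .nil))))))))))) (.cons (.keep [3,5,8,10,11,12] (.node (.cons (.leaf 1 [(5,1),(3,1)]) (.cons (.leaf 1 [(10,1),(3,1)]) (.cons (.leaf 1 [(10,1),(3,1)]) (.cons (.leaf 1 [(3,1),(5,1),(7,1)]) (.cons (.leaf 1 [(3,1),(10,1),(7,1)]) (.cons (.leaf 1 [(3,1),(10,1),(7,1)]) (.cons (.leaf 1 [(11,1)]) (.cons (.leaf 1 [(10,1),(11,1)]) (.cons (.leaf 1 [(10,1),(0,1),(11,1)]) .nil))))))))))) (.cons (.leaf 1 [(3,1)]) (.cons (.leaf 1 [(1,1),(11,1)]) (.cons (.leaf 1 [(1,1),(11,1)]) (.cons (.leaf 1 []) (.cons (.keep [1,6,7,8,11] (.node (.cons (.leaf 1 [(7,1),(3,1)]) (.cons (.leaf 1 [(7,1),(3,1)]) (.cons (.leaf 1 [(7,1),(3,1)]) (.cons (.leaf 1 [(3,1)]) (.cons (.leaf 1 [(3,1)])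 (.cons (.leaf 1 [(3,1)]) (.cons (.leaf 1 [(11,1)]) (.cons (.leaf 1 [(8,1),(11,1)]) (.cons (.leaf 1 [(7,1),(0,1),(11,1)]) .nil))))))))))) (.cons (.keep [0,5,8,10,11] (.node (.cons (.leaf 1 [(10,1),(3,1)]) (.cons (.leaf 1 [(3,1),(10,1)]) (.cons (.leaf 1 [(3,1),(10,1)]) (.cons (.leaf 1 [(3,1),(5,1)]) (.cons (.leaf 1 [(3,1),(10,1),(7,1)]) (.cons (.leaf 1 [(3,1),(10,1),(0,1),(5,1)]) (.cons (.leaf 1 [(11,1)]) (.cons (.leaf 1 [(11,1),(10,1),(7,1)]) (.cons (.leaf 1 [(0,1),(10,1),(11,1)]) .nil))))))))))) .nil))))))))))) (.cons (.leaf 1 [(1,1)]) (.cons (.leaf 1 [(1,1)]) (.cons (.leaf 1 [(1,1)]) (.cons (.leaf 1 [(9,1)]) (.cons (.leaf 1 [(8,1),(1,1),(9,1)]) (.cons (.leaf 1 [(10,1),(1,1)]) .nil))))))))))) (.cons (.leaf 1 [(1,1),(8,1)]) (.cons (.leaf 1 [(1,1),(8,1)]) (.cons (.leaf 1 [(1,1),(8,1)])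 (.cons (.leaf 1 [(1,1)]) (.cons (.leaf 1 [(1,1)]) (.cons (.leaf 1 [(1,1)]) .nil))))))))))) (.cons (.keep [1,4,5,7,10] (.node (.cons (.leaf 1 [(11,1),(9,1)]) (.cons (.leaf 1 [(11,1)]) (.cons (.keep [5,7,8,9,11] (.node (.cons (.leaf 2 [(9,1)]) (.cons (.leaf 1 [(8,1),(9,1)]) (.cons (.keep [0,7,8,9,10,11] (.node (.cons (.leaf 1 [(3,1),(5,1),(10,1)]) (.cons (.keep [3,6,7,8,10,12] (.node (.cons (.leaf 1 [(3,1)]) (.cons (.leaf 1 [(8,1),(3,1)]) (.cons (.leaf 1 [(11,1),(3,1)]) (.cons (.leaf 1 [(3,1)]) (.cons (.leaf 1 [(3,1),(8,1)]) (.cons (.leaf 1 [(3,1),(11,1),(0,1)]) (.cons (.leaf 1 []) (.cons (.leaf 1 [(8,1)]) (.cons (.leaf 1 [(11,1),(0,1)]) .nil))))))))))) (.cons (.keep [0,3,7,8,10,11,12] (.node (.cons (.leaf 1 [(3,1)]) (.cons (.leaf 1 [(11,1),(3,1)]) (.cons (.leaf 1 [(11,1),(3,1)]) (.cons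 (.leaf 1 [(3,1)]) (.cons (.leaf 1 [(3,1),(11,1),(7,1)]) (.cons (.leaf 1 [(3,1),(11,1),(0,1)]) (.cons (.leaf 1 []) (.cons (.leaf 1 [(11,1),(7,1)]) (.cons (.leaf 1 [(11,1),(0,1)]) .nil))))))))))) (.cons (.leaf 1 [(1,1)]) (.cons (.leaf 1 [(1,1)]) (.cons (.leaf 1 [(1,1)]) (.cons (.leaf 1 [(9,1),(5,1),(10,1)]) (.cons (.keep [1,4,6,7,11] (.node (.cons (.leaf 1 [(3,1)]) (.cons (.leaf 1 [(9,1),(3,1)]) (.cons (.leaf 1 [(7,1),(11,1),(3,1)]) (.cons (.leaf 1 [(3,1)]) (.cons (.leaf 1 [(3,1),(9,1)]) (.cons (.leaf 1 [(3,1),(11,1)]) (.cons (.leaf 1 []) (.cons (.leaf 1 [(9,1)]) (.cons (.leaf 1 [(7,1),(11,1),(0,1)]) .nil))))))))))) (.cons (.keep [0,1,4,7,10,11] (.node (.cons (.leaf 1 [(3,1)]) (.cons (.leaf 1 [(11,1),(3,1)]) (.cons (.leaf 1 [(11,1),(3,1)]) (.cons (.leaf 1 [(3,1)]) (.cons (.leaf 1 [(3,1),(11,1),(7,1)])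 (.cons (.leaf 1 [(3,1),(11,1),(0,1)]) (.cons (.leaf 1 []) (.cons (.leaf 1 [(11,1),(7,1)]) (.cons (.leaf 1 [(11,1),(0,1)]) .nil))))))))))) .nil))))))))))) (.cons (.leaf 2 [(1,1),(9,1)]) (.cons (.leaf 1 [(1,1),(8,1),(9,1)]) (.cons (.leaf 1 [(1,1),(10,1)]) (.cons (.leaf 1 [(1,1)]) (.cons (.leaf 1 [(1,1)]) (.cons (.leaf 1 [(1,1)]) .nil))))))))))) (.cons (.leaf 1 [(1,1),(8,1)]) (.cons (.leaf 1 [(1,1),(8,1)]) (.cons (.leaf 1 [(1,1),(8,1)]) (.cons (.leaf 1 [(1,1),(9,1)]) (.cons (.leaf 1 [(1,1),(4,1)]) (.cons (.leaf 1 [(1,1),(9,1)]) .nil))))))))))) (.cons (.leaf 1 [(8,1),(1,1)]) (.cons (.leaf 1 [(8,1),(4,1),(1,1)]) (.cons (.leaf 1 [(8,1),(4,1),(1,1)]) .nil))))))))))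

theorem c_7_28_4 : Concl 7 28 z_7_28_4 h_7_28_4 .nd := piece _ (hP_cons c_7_28_1 (hP_cons c_7_28_0
  hP_nil)) t_7_28_4 _ _ (by decide +kernel)

def t_7_28 : T := (.keep [0,1,2] (.node (.cons (.keep [2,3,5,6] (.node (.cons (.leaf 1 [(9,1),(7,1)]) (.cons (.leaf 1 [(10,1),(7,1)]) (.cons (.keep [0,7,9,10] (.node (.cons (.leaf 1 [(3,1)]) (.cons (.keep [0,8,9,10] (.node (.cons (.leaf 1 [(3,1)]) (.cons (.leaf 1 [(3,1)]) (.cons (.leaf 1 [(3,1)]) (.cons (.leaf 1 [(3,1),(9,1)]) (.cons (.leaf 1 [(3,1),(7,1),(9,1)]) (.cons (.leaf 1 [(3,1),(0,1),(9,1)]) (.cons (.leaf 1 [(9,1)]) (.cons (.leaf 1 [(7,1),(9,1)]) (.cons (.leaf 1 [(0,1),(9,1)]) .nil))))))))))) (.cons (.keep [5,8,9,10] (.node (.cons (.leaf 1 [(5,1),(3,1)]) (.cons (.keep [0,3,4,8,10] (.node (.cons (.leaf 1 [(3,1)]) (.cons (.leaf 1 [(3,1)])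 (.cons (.leaf 1 [(3,1)]) (.cons (.leaf 1 [(3,1),(8,1)]) (.cons (.leaf 1 [(3,1),(8,1)]) (.cons (.leaf 1 [(3,1),(8,1)]) (.cons (.leaf 1 [(11,1)]) (.cons (.leaf 1 [(7,1),(11,1)]) (.cons (.leaf 1 [(0,1),(11,1)]) .nil))))))))))) (.cons (.keep [0,3,5,7,8,10] (.node (.cons (.leaf 1 [(3,1)]) (.cons (.leaf 1 [(3,1)]) (.cons (.leaf 1 [(3,1)]) (.cons (.leaf 1 [(3,1),(8,1)]) (.cons (.leaf 1 [(3,1),(8,1)]) (.cons (.leaf 1 [(3,1),(8,1)]) (.cons (.leaf 1 [(12,1)]) (.cons (.leaf 1 [(7,1),(12,1)]) (.cons (.leaf 1 [(0,1),(12,1)]) .nil))))))))))) (.cons (.leaf 1 [(3,1),(9,1)]) (.cons (.leaf 1 [(1,1),(10,1)]) (.cons (.leaf 1 [(1,1),(10,1)]) (.cons (.leaf 1 [(9,1)]) (.cons (.keep [0,1,4,9,10] (.node (.cons (.leaf 1 [(3,1)]) (.cons (.leaf 1 [(3,1)]) (.cons (.leaf 1 [(3,1)]) (.cons (.leaf 1 [(3,1),(10,1)])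 (.cons (.leaf 1 [(3,1),(10,1)]) (.cons (.leaf 1 [(3,1),(10,1)]) (.cons (.leaf 1 [(11,1)]) (.cons (.leaf 1 [(7,1),(11,1)]) (.cons (.leaf 1 [(0,1),(11,1)]) .nil))))))))))) (.cons (.keep [0,1,7,9,10] (.node (.cons (.leaf 1 [(3,1)]) (.cons (.leaf 1 [(3,1)]) (.cons (.leaf 1 [(3,1)]) (.cons (.leaf 1 [(3,1),(5,1),(10,1)]) (.cons (.leaf 1 [(3,1),(7,1),(10,1)]) (.cons (.leaf 1 [(3,1),(0,1),(10,1),(5,1)]) (.cons (.leaf 1 [(11,1)]) (.cons (.leaf 1 [(7,1),(11,1)]) (.cons (.leaf 1 [(0,1),(11,1)]) .nil))))))))))) .nil))))))))))) (.cons (.leaf 1 [(3,1)]) (.cons (.leaf 1 [(1,1),(9,1)]) (.cons (.leaf 1 [(1,1),(9,1)]) (.cons (.leaf 1 []) (.cons (.leaf 1 [(1,1),(10,1)]) (.cons (.leaf 1 [(1,1),(10,1)]) .nil))))))))))) (.cons (.leaf 1 [(1,1)]) (.cons (.leaf 1 [(1,1)]) (.cons (.leaf 1 [(1,1)]) (.cons (.leaf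 1 [(9,1),(1,1)]) (.cons (.leaf 1 [(9,1),(1,1)]) (.cons (.leaf 1 [(9,1),(1,1)]) .nil))))))))))) (.cons (.keep [2,4,6,9] (.node (.cons (.leaf 1 [(7,1)]) (.cons (.leaf 1 [(9,1),(7,1)]) (.cons (.keep [0,7,8,9] (.node (.cons (.leaf 1 [(3,1),(9,1)]) (.cons (.keep [6,7,8,9,10] (.node (.cons (.leaf 1 [(3,1)]) (.cons (.leaf 1 [(7,1),(3,1)]) (.cons (.leaf 1 [(10,1),(3,1)]) (.cons (.leaf 1 [(3,1)]) (.cons (.leaf 1 [(3,1),(7,1)]) (.cons (.leaf 1 [(3,1),(10,1),(0,1)]) (.cons (.leaf 1 []) (.cons (.leaf 1 [(7,1)]) (.cons (.leaf 1 [(10,1),(0,1)]) .nil))))))))))) (.cons (.keep [0,7,8,9,10] (.node (.cons (.leaf 1 [(3,1)]) (.cons (.keep [0,3,4,9,11] (.node (.cons (.leaf 1 [(3,1)]) (.cons (.leaf 1 [(3,1)]) (.cons (.leaf 1 [(3,1)]) (.cons (.leaf 1 [(3,1),(8,1)]) (.cons (.leaf 1 [(3,1),(8,1)]) (.cons (.leaf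 1 [(3,1),(8,1)]) (.cons (.leaf 1 [(11,1)]) (.cons (.leaf 1 [(7,1),(11,1)]) (.cons (.leaf 1 [(0,1),(11,1)]) .nil))))))))))) (.cons (.keep [3,4,5,9,10,11] (.node (.cons (.leaf 1 [(5,1),(3,1)]) (.cons (.leaf 1 [(11,1),(3,1)]) (.cons (.leaf 1 [(11,1),(3,1)]) (.cons (.leaf 1 [(3,1),(5,1),(7,1)]) (.cons (.leaf 1 [(3,1),(11,1),(7,1)]) (.cons (.leaf 1 [(3,1),(11,1),(7,1)]) (.cons (.leaf 1 [(12,1)]) (.cons (.leaf 1 [(11,1),(12,1)]) (.cons (.leaf 1 [(11,1),(0,1),(12,1)]) .nil))))))))))) (.cons (.leaf 1 [(3,1)]) (.cons (.leaf 1 [(1,1),(11,1)]) (.cons (.leaf 1 [(1,1),(11,1)]) (.cons (.leaf 1 []) (.cons (.keep [1,6,7,8,11] (.node (.cons (.leaf 1 [(7,1),(3,1)]) (.cons (.leaf 1 [(7,1),(3,1)]) (.cons (.leaf 1 [(7,1),(3,1)]) (.cons (.leaf 1 [(3,1)]) (.cons (.leaf 1 [(3,1)]) (.cons (.leaf 1 [(3,1)])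 (.cons (.leaf 1 [(11,1)]) (.cons (.leaf 1 [(8,1),(11,1)]) (.cons (.leaf 1 [(7,1),(0,1),(11,1)]) .nil))))))))))) (.cons (.keep [0,5,8,10,11] (.node (.cons (.leaf 1 [(10,1),(3,1)]) (.cons (.leaf 1 [(3,1),(10,1)]) (.cons (.leaf 1 [(3,1),(10,1)]) (.cons (.leaf 1 [(3,1),(5,1)]) (.cons (.leaf 1 [(3,1),(10,1),(7,1)]) (.cons (.leaf 1 [(3,1),(10,1),(0,1),(5,1)]) (.cons (.leaf 1 [(11,1)]) (.cons (.leaf 1 [(11,1),(10,1),(7,1)]) (.cons (.leaf 1 [(0,1),(10,1),(11,1)]) .nil))))))))))) .nil))))))))))) (.cons (.leaf 1 [(1,1)]) (.cons (.leaf 1 [(1,1)]) (.cons (.leaf 1 [(1,1)]) (.cons (.leaf 1 [(9,1)]) (.cons (.leaf 1 [(10,1),(1,1)]) (.cons (.leaf 1 [(10,1),(1,1)]) .nil))))))))))) (.cons (.leaf 1 [(1,1),(7,1)]) (.cons (.leaf 1 [(1,1),(8,1)]) (.cons (.leaf 1 [(1,1),(8,1)]) (.cons (.leaf 1 [(1,1)]) (.cons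 (.leaf 1 [(1,1)]) (.cons (.leaf 1 [(1,1)]) .nil))))))))))) (.cons (.keep [0,2,4,5] (.node (.cons (.leaf 1 [(8,1),(10,1)]) (.cons (.leaf 1 [(8,1)]) (.cons (.keep [0,8,9,10] (.node (.cons (.leaf 1 [(5,1),(8,1)]) (.cons (.keep [6,7,8,9,10] (.node (.cons (.leaf 1 [(3,1),(10,1)]) (.cons (.leaf 1 [(3,1),(10,1)]) (.cons (.leaf 1 [(3,1),(10,1)]) (.cons (.leaf 1 [(1,1)]) (.cons (.leaf 1 [(1,1)]) (.cons (.leaf 1 [(1,1)]) (.cons (.leaf 1 [(11,1)]) (.cons (.leaf 1 [(7,1),(11,1)]) (.cons (.leaf 1 [(0,1),(10,1),(11,1)]) .nil))))))))))) (.cons (.keep [0,7,8,9,10] (.node (.cons (.leaf 1 [(3,1),(5,1),(10,1)]) (.cons (.keep [3,6,7,8,9,10] (.node (.cons (.leaf 1 [(3,1)]) (.cons (.leaf 1 [(8,1),(3,1)]) (.cons (.leaf 1 [(12,1),(3,1)]) (.cons (.leaf 1 [(3,1)]) (.cons (.leaf 1 [(3,1),(8,1)]) (.cons (.leaf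 1 [(3,1),(12,1),(0,1)]) (.cons (.leaf 1 []) (.cons (.leaf 1 [(8,1)]) (.cons (.leaf 1 [(12,1),(0,1)]) .nil))))))))))) (.cons (.keep [0,3,7,8,9,10,11] (.node (.cons (.leaf 1 [(3,1)]) (.cons (.leaf 1 [(12,1),(3,1)]) (.cons (.leaf 1 [(12,1),(3,1)]) (.cons (.leaf 1 [(3,1)]) (.cons (.leaf 1 [(3,1),(12,1),(7,1)]) (.cons (.leaf 1 [(3,1),(12,1),(0,1)]) (.cons (.leaf 1 []) (.cons (.leaf 1 [(12,1),(7,1)]) (.cons (.leaf 1 [(12,1),(0,1)]) .nil))))))))))) (.cons (.leaf 1 [(1,1)]) (.cons (.leaf 1 [(1,1)]) (.cons (.leaf 1 [(1,1)]) (.cons (.leaf 1 [(11,1)]) (.cons (.keep [1,6,7,8,11] (.node (.cons (.leaf 1 [(3,1)]) (.cons (.leaf 1 [(8,1),(3,1)]) (.cons (.leaf 1 [(7,1),(11,1),(3,1)]) (.cons (.leaf 1 [(3,1)]) (.cons (.leaf 1 [(3,1),(8,1)]) (.cons (.leaf 1 [(3,1),(11,1)]) (.cons (.leaf 1 []) (.cons (.leaf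 1 [(8,1)]) (.cons (.leaf 1 [(7,1),(11,1),(0,1)]) .nil))))))))))) (.cons (.keep [0,1,7,8,10,11] (.node (.cons (.leaf 1 [(3,1)]) (.cons (.leaf 1 [(11,1),(3,1)]) (.cons (.leaf 1 [(11,1),(3,1)]) (.cons (.leaf 1 [(3,1)]) (.cons (.leaf 1 [(3,1),(11,1),(7,1)]) (.cons (.leaf 1 [(3,1),(11,1),(0,1)]) (.cons (.leaf 1 []) (.cons (.leaf 1 [(11,1),(7,1)]) (.cons (.leaf 1 [(11,1),(0,1)]) .nil))))))))))) .nil))))))))))) (.cons (.leaf 1 [(5,1),(8,1)]) (.cons (.leaf 1 [(1,1),(10,1)]) (.cons (.leaf 1 [(1,1),(10,1)]) (.cons (.leaf 1 [(1,1)]) (.cons (.leaf 1 [(1,1)]) (.cons (.leaf 1 [(1,1)]) .nil))))))))))) (.cons (.leaf 1 [(1,1),(9,1)]) (.cons (.leaf 1 [(1,1),(8,1)]) (.cons (.leaf 1 [(1,1),(9,1)]) (.cons (.leaf 1 [(1,1),(10,1)]) (.cons (.leaf 1 [(1,1),(4,1)]) (.cons (.leaf 1 [(1,1),(10,1)]) .nil)))))))))))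 (.cons (.keep [1,5,6,7] (.leaf 0 [(0,0)])) (.cons (.keep [1,4,6,7] (.leaf 0 [(1,0)])) (.cons (.keep [1,4,5,7] (.leaf 0 [(2,0)])) (.cons (.leaf 1 []) (.cons (.leaf 1 [(4,1)]) (.cons (.leaf 1 [(4,1)]) .nil)))))))))))

theorem e_7_28 : ESB (caseOf 4 7 28) := esb_of_pieces _ (hP_cons c_7_28_4 (hP_cons c_7_28_3
  (hP_cons c_7_28_2 hP_nil))) t_7_28 (by decide +kernel)

def t_7_29 : T := (.keep [0,1,2] (.node (.cons (.leaf 1 []) (.cons (.leaf 1 [(4,1)]) (.cons (.leaf 1 [(4,1)]) (.cons (.leaf 1 [(4,1)]) (.cons (.keep [1,5,6,7] (.node (.cons (.leaf 1 []) (.cons (.leaf 1 [(4,1)]) (.cons (.leaf 1 [(4,1)]) (.cons (.leaf 1 [(4,1)]) (.cons (.leaf 1 [(9,1)]) (.cons (.leaf 1 [(9,1),(4,1)]) (.cons (.leaf 1 [(9,1),(4,1)]) (.cons (.leaf 1 [(9,1),(4,1)]) (.cons (.leaf 1 [(5,1)]) (.cons (.leaf 1 []) (.cons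 (.leaf 1 [(5,1)]) (.cons (.leaf 1 [(5,1)]) .nil)))))))))))))) (.cons (.keep [4,6,7,8,9] (.node (.cons (.leaf 1 [(8,1)]) (.cons (.leaf 1 [(8,1),(4,1)]) (.cons (.leaf 1 [(8,1),(4,1)]) (.cons (.leaf 1 [(8,1),(4,1)]) (.cons (.leaf 1 []) (.cons (.leaf 1 [(4,1)]) (.cons (.leaf 1 [(4,1)]) (.cons (.leaf 1 [(4,1)]) (.cons (.leaf 1 [(8,1),(5,1)]) (.cons (.leaf 1 [(8,1)]) (.cons (.leaf 1 [(8,1),(5,1)]) (.cons (.leaf 1 [(8,1),(5,1)]) .nil)))))))))))))) (.cons (.keep [4,5,7,8,10] (.node (.cons (.leaf 1 [(8,1)]) (.cons (.leaf 1 [(4,2)]) (.cons (.leaf 1 [(8,1),(4,1)]) (.cons (.leaf 1 [(8,1),(4,1)]) (.cons (.leaf 1 [(9,1)]) (.cons (.leaf 1 [(9,1),(4,1)]) (.cons (.leaf 1 [(9,1),(4,1)]) (.cons (.leaf 1 [(9,1),(4,1)]) (.cons (.leaf 1 []) (.cons (.leaf 1 [(1,1)]) (.cons (.leaf 1 [(4,1)]) (.cons (.leaf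 1 [(4,1)]) .nil)))))))))))))) (.cons (.keep [1,4,5,6,8] (.node (.cons (.leaf 1 [(9,1)]) (.cons (.leaf 1 [(4,1),(9,1)]) (.cons (.leaf 1 [(4,2)]) (.cons (.leaf 1 [(9,1),(4,1)]) (.cons (.leaf 1 [(10,1)]) (.cons (.leaf 1 [(4,1),(10,1)]) (.cons (.leaf 1 [(10,1),(4,1)]) (.cons (.leaf 1 [(10,1),(4,1)]) (.cons (.leaf 1 [(5,1),(9,1)]) (.cons (.leaf 1 [(9,1)]) (.cons (.leaf 1 [(5,1),(4,1)]) (.cons (.leaf 1 [(9,1),(5,1)]) .nil)))))))))))))) (.cons (.leaf 1 [(5,1)]) (.cons (.leaf 1 []) (.cons (.leaf 1 [(5,1)]) (.cons (.leaf 1 [(5,1)]) .nil))))))))))))))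

theorem e_7_29 : ESB (caseOf 4 7 29) := esb_of_ok (t := t_7_29) (by decide +kernel)

def t_7_30 : T := (.keep [0,1,2] (.node (.cons (.keep [2,5,6,7] (.node (.cons (.leaf 1 [(2,1)]) (.cons (.leaf 1 [(3,1)]) (.cons (.leaf 2 [(11,1)]) (.cons (.keep [8,9,10,11] (.node (.cons (.leaf 1 [(6,1),(2,1)]) (.cons (.leaf 1 [(6,1),(3,1)]) (.cons (.keep [0,8,10,11] (.node (.cons (.leaf 1 [(3,1)]) (.cons (.leaf 1 [(3,1)]) (.cons (.leaf 1 [(3,1)]) (.cons (.leaf 1 [(3,1)]) (.cons (.leaf 1 [(10,1)]) (.cons (.leaf 1 [(3,1),(10,1)]) (.cons (.leaf 1 [(3,1),(8,1),(10,1)]) (.cons (.leaf 1 [(3,1),(0,1),(10,1)]) (.cons (.leaf 1 [(10,1),(2,1)]) (.cons (.leaf 1 [(10,1)]) (.cons (.leaf 1 [(8,1),(10,1)]) (.cons (.leaf 1 [(0,1),(10,1)]) .nil)))))))))))))) (.cons (.keep [0,6,8,10,11] (.node (.cons (.leaf 1 [(3,1)])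 (.cons (.leaf 1 [(3,1)]) (.cons (.leaf 1 [(3,1)]) (.cons (.leaf 1 [(3,1)]) (.cons (.leaf 1 [(11,1)]) (.cons (.leaf 1 [(3,1),(11,1)]) (.cons (.leaf 1 [(3,1),(8,1),(11,1)]) (.cons (.leaf 1 [(3,1),(0,1),(11,1)]) (.cons (.leaf 1 [(11,1),(2,1)]) (.cons (.leaf 1 [(11,1)]) (.cons (.leaf 1 [(8,1),(11,1)]) (.cons (.leaf 1 [(0,1),(11,1)]) .nil)))))))))))))) (.cons (.leaf 1 [(9,1)]) (.cons (.leaf 1 [(9,1),(3,1)]) (.cons (.leaf 1 [(1,1),(10,1)]) (.cons (.leaf 1 [(1,1),(10,1)]) (.cons (.leaf 1 [(9,1),(2,1)]) (.cons (.leaf 1 [(9,1)]) (.cons (.leaf 1 [(1,1),(11,1)]) (.cons (.leaf 1 [(1,1),(11,1)]) .nil)))))))))))))) (.cons (.leaf 1 []) (.cons (.leaf 1 [(3,1)]) (.cons (.leaf 1 [(1,1),(9,1)]) (.cons (.leaf 1 [(1,1),(9,1)]) (.cons (.leaf 1 [(2,1)]) (.cons (.leaf 1 []) (.cons (.leaf 1 [(1,1),(10,1)])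 (.cons (.leaf 1 [(1,1),(10,1)]) .nil)))))))))))))) (.cons (.keep [3,4,6,7] (.node (.cons (.leaf 2 [(9,1)]) (.cons (.leaf 1 [(3,1),(9,1)]) (.cons (.leaf 2 [(11,1),(9,1)]) (.cons (.keep [0,4,9,10,11] (.node (.cons (.leaf 1 [(2,1)]) (.cons (.leaf 1 [(3,1)]) (.cons (.keep [0,9,11,12] (.node (.cons (.leaf 1 [(3,1)]) (.cons (.leaf 1 [(3,1)]) (.cons (.leaf 1 [(3,1)]) (.cons (.leaf 1 [(3,1)]) (.cons (.leaf 1 [(10,1)]) (.cons (.leaf 1 [(3,1),(10,1)]) (.cons (.leaf 1 [(3,1),(8,1),(10,1)]) (.cons (.leaf 1 [(3,1),(0,1),(10,1)]) (.cons (.leaf 1 [(10,1),(2,1)]) (.cons (.leaf 1 [(10,1)]) (.cons (.leaf 1 [(8,1),(10,1)]) (.cons (.leaf 1 [(0,1),(10,1)]) .nil)))))))))))))) (.cons (.keep [6,9,10,11,12] (.node (.cons (.leaf 1 [(6,1),(2,1)]) (.cons (.leaf 1 [(6,1),(3,1)]) (.cons (.leaf 1 [(10,1),(3,1)])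 (.cons (.leaf 1 [(10,1),(3,1)]) (.cons (.leaf 1 [(11,1)]) (.cons (.leaf 1 [(11,1),(3,1)]) (.cons (.leaf 1 [(3,1),(10,1),(11,1)]) (.cons (.leaf 1 [(3,1),(10,1),(0,1),(11,1)]) (.cons (.leaf 1 [(11,1),(2,1)]) (.cons (.leaf 1 [(11,1)]) (.cons (.leaf 1 [(10,1),(11,1)]) (.cons (.leaf 1 [(10,1),(0,1),(11,1)]) .nil)))))))))))))) (.cons (.leaf 1 []) (.cons (.leaf 1 [(3,1)]) (.cons (.leaf 1 [(1,1),(11,1)]) (.cons (.leaf 1 [(1,1),(11,1)]) (.cons (.leaf 1 [(2,1)]) (.cons (.leaf 1 []) (.cons (.leaf 1 [(1,1),(12,1)]) (.cons (.leaf 1 [(1,1),(12,1)]) .nil)))))))))))))) (.cons (.leaf 1 [(1,1)]) (.cons (.leaf 1 [(1,1)]) (.cons (.leaf 1 [(1,1)]) (.cons (.leaf 1 [(1,1)]) (.cons (.leaf 1 [(5,1),(1,1)]) (.cons (.leaf 1 [(9,1)]) (.cons (.leaf 1 [(10,1),(1,1)]) (.cons (.leaf 1 [(10,1),(1,1)]) .nil))))))))))))))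 (.cons (.keep [4,5,7,10] (.node (.cons (.leaf 1 [(8,1),(2,1)]) (.cons (.leaf 2 [(8,1)]) (.cons (.leaf 2 [(10,1),(8,1)]) (.cons (.keep [0,5,8,9,10] (.node (.cons (.leaf 2 [(6,1),(10,1)]) (.cons (.leaf 1 [(3,1),(6,1),(10,1)]) (.cons (.keep [4,7,8,10,12] (.node (.cons (.leaf 1 [(2,1)]) (.cons (.leaf 1 [(3,1)]) (.cons (.leaf 1 [(9,1),(3,1)]) (.cons (.leaf 1 [(11,1),(3,1)]) (.cons (.leaf 1 []) (.cons (.leaf 1 [(3,1)]) (.cons (.leaf 1 [(3,1),(9,1)]) (.cons (.leaf 1 [(3,1),(11,1),(0,1)]) (.cons (.leaf 1 [(2,1)]) (.cons (.leaf 1 []) (.cons (.leaf 1 [(9,1)]) (.cons (.leaf 1 [(11,1),(0,1)]) .nil)))))))))))))) (.cons (.keep [0,8,9,10,11,12] (.node (.cons (.leaf 1 [(2,1)]) (.cons (.leaf 1 [(3,1)]) (.cons (.leaf 1 [(11,1),(3,1)]) (.cons (.leaf 1 [(11,1),(3,1)]) (.cons (.leaf 1 []) (.cons (.leaf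 1 [(3,1)]) (.cons (.leaf 1 [(3,1),(11,1),(8,1)]) (.cons (.leaf 1 [(3,1),(11,1),(0,1)]) (.cons (.leaf 1 [(2,1)]) (.cons (.leaf 1 []) (.cons (.leaf 1 [(11,1),(8,1)]) (.cons (.leaf 1 [(11,1),(0,1)]) .nil)))))))))))))) (.cons (.leaf 1 [(1,1)]) (.cons (.leaf 1 [(1,1)]) (.cons (.leaf 1 [(1,1)]) (.cons (.leaf 1 [(1,1)]) (.cons (.leaf 1 [(5,1),(1,1)]) (.cons (.leaf 1 [(11,1)]) (.cons (.leaf 1 [(1,1),(12,1)]) (.cons (.leaf 1 [(1,1),(12,1)]) .nil)))))))))))))) (.cons (.leaf 1 [(8,1)]) (.cons (.leaf 1 [(1,1),(4,1)]) (.cons (.leaf 1 [(1,1),(9,1)]) (.cons (.leaf 1 [(1,1),(9,1)]) (.cons (.leaf 1 [(1,1)]) (.cons (.leaf 1 [(1,1)]) (.cons (.leaf 1 [(1,1)]) (.cons (.leaf 1 [(1,1)]) .nil)))))))))))))) (.cons (.keep [0,4,5,6] (.node (.cons (.leaf 1 [(9,1),(2,1)]) (.cons (.leaf 1 [(9,1),(3,1)]) (.cons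 (.leaf 2 [(9,1)]) (.cons (.keep [0,8,9,10,11] (.node (.cons (.leaf 1 [(6,1),(2,1),(10,1)]) (.cons (.leaf 2 [(6,1),(10,1)]) (.cons (.keep [5,7,8,10,12] (.node (.cons (.leaf 1 [(3,1),(11,1)]) (.cons (.leaf 1 [(3,1),(11,1)]) (.cons (.leaf 1 [(3,1),(11,1)]) (.cons (.leaf 1 [(3,1),(11,1)]) (.cons (.leaf 1 [(1,1)]) (.cons (.leaf 1 [(1,1)]) (.cons (.leaf 1 [(1,1)]) (.cons (.leaf 1 [(1,1)]) (.cons (.leaf 1 [(5,1),(1,1)]) (.cons (.leaf 1 [(12,1)]) (.cons (.leaf 1 [(9,1),(12,1)]) (.cons (.leaf 1 [(0,1),(11,1),(12,1)]) .nil)))))))))))))) (.cons (.keep [0,5,8,10,11,12] (.node (.cons (.leaf 1 [(3,1),(11,1)]) (.cons (.leaf 1 [(3,1),(11,1)]) (.cons (.leaf 1 [(3,1),(11,1)]) (.cons (.leaf 1 [(3,1),(11,1)]) (.cons (.leaf 1 [(1,1)]) (.cons (.leaf 1 [(1,1)]) (.cons (.leaf 1 [(1,1)]) (.cons (.leaf 1 [(1,1)])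 (.cons (.leaf 1 [(5,1),(1,1)]) (.cons (.leaf 1 [(13,1)]) (.cons (.leaf 1 [(8,1),(11,1),(13,1)]) (.cons (.leaf 1 [(0,1),(11,1),(13,1)]) .nil)))))))))))))) (.cons (.leaf 1 [(11,1)]) (.cons (.leaf 1 [(1,1),(4,1)]) (.cons (.leaf 1 [(1,1),(12,1)]) (.cons (.leaf 1 [(1,1),(12,1)]) (.cons (.leaf 1 [(1,1)]) (.cons (.leaf 1 [(1,1)]) (.cons (.leaf 1 [(1,1)]) (.cons (.leaf 1 [(1,1)]) .nil)))))))))))))) (.cons (.leaf 1 [(9,1)]) (.cons (.leaf 1 [(9,1),(3,1)]) (.cons (.leaf 1 [(1,1),(4,1)]) (.cons (.leaf 1 [(1,1),(10,1)]) (.cons (.leaf 1 [(9,1),(2,1)]) (.cons (.leaf 1 [(9,1)]) (.cons (.leaf 1 [(1,1),(5,1)]) (.cons (.leaf 1 [(1,1),(11,1)]) .nil)))))))))))))) (.cons (.leaf 1 []) (.cons (.leaf 1 [(4,1)]) (.cons (.leaf 1 [(4,1)]) (.cons (.leaf 1 [(4,1)]) (.cons (.leaf 1 [(5,1)]) (.cons (.leaf 1 []) (.cons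 (.leaf 1 [(5,1)]) (.cons (.leaf 1 [(5,1)]) .nil))))))))))))))

theorem e_7_30 : ESB (caseOf 4 7 30) := esb_of_ok (t := t_7_30) (by decide +kernel)

def t_7_31 : T := (.keep [0,1,2] (.node (.cons (.leaf 1 []) (.cons (.leaf 1 [(4,1)]) (.cons (.leaf 1 [(4,1)]) (.cons (.leaf 1 [(4,1)]) (.cons (.leaf 1 [(4,1)]) (.cons (.leaf 1 [(5,1)]) (.cons (.leaf 1 []) (.cons (.leaf 1 [(5,1)]) (.cons (.leaf 1 [(5,1)]) (.cons (.leaf 1 [(5,1)]) (.cons (.leaf 1 [(6,1)]) (.cons (.leaf 1 [(6,1)]) (.cons (.leaf 1 []) (.cons (.leaf 1 [(6,1)]) (.cons (.leaf 1 [(6,1)]) .nil)))))))))))))))))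

theorem e_7_31 : ESB (caseOf 4 7 31) := esb_of_ok (t := t_7_31) (by decide +kernel)

def t_8_24 : T := (.keep [0,1,2] (.node (.cons (.leaf 1 []) (.cons (.leaf 1 [(2,1)]) .nil))))

theorem e_8_24 : ESB (caseOf 4 8 24) := esb_of_ok (t := t_8_24) (by decide +kernel)

def t_8_25 : T := (.keep [0,1,2] (.node (.cons (.leaf 1 [(3,1)]) (.cons (.leaf 1 []) (.cons (.leaf 1 [(3,1)]) .nil)))))

theorem e_8_25 : ESB (caseOf 4 8 25) := esb_of_ok (t := t_8_25) (by decide +kernel)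

def t_8_26 : T := (.keep [0,1,2] (.node (.cons (.leaf 1 [(3,1)]) (.cons (.leaf 1 []) (.cons (.leaf 1 [(3,1)]) .nil)))))

theorem e_8_26 : ESB (caseOf 4 8 26) := esb_of_ok (t := t_8_26) (by decide +kernel)

def t_8_27 : T := (.keep [0,1,2] (.node (.cons (.leaf 1 [(4,1)]) (.cons (.leaf 1 [(4,1)]) (.cons (.leaf 1 []) (.cons (.leaf 1 [(4,1)]) .nil))))))

theorem e_8_27 : ESB (caseOf 4 8 27) := esb_of_ok (t := t_8_27) (by decide +kernel)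

def t_8_28 : T := (.keep [0,1,2] (.node (.cons (.leaf 1 [(3,1)]) (.cons (.leaf 1 []) (.cons (.leaf 1 [(3,1)]) .nil)))))

theorem e_8_28 : ESB (caseOf 4 8 28) := esb_of_ok (t := t_8_28) (by decide +kernel)

def t_8_29 : T := (.keep [0,1,2] (.node (.cons (.leaf 1 [(4,1)]) (.cons (.leaf 1 [(4,1)]) (.cons (.leaf 1 []) (.cons (.leaf 1 [(4,1)]) .nil))))))

theorem e_8_29 : ESB (caseOf 4 8 29) := esb_of_ok (t := t_8_29) (by decide +kernel)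

def t_8_30 : T := (.keep [0,1,2] (.node (.cons (.leaf 1 [(4,1)]) (.cons (.leaf 1 [(4,1)]) (.cons (.leaf 1 []) (.cons (.leaf 1 [(4,1)]) .nil))))))

theorem e_8_30 : ESB (caseOf 4 8 30) := esb_of_ok (t := t_8_30) (by decide +kernel)

def t_8_31 : T := (.keep [0,1,2] (.node (.cons (.leaf 1 [(5,1)]) (.cons (.leaf 1 [(5,1)]) (.cons (.leaf 1 [(5,1)]) (.cons (.leaf 1 []) (.cons (.leaf 1 [(5,1)]) .nil)))))))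

theorem e_8_31 : ESB (caseOf 4 8 31) := esb_of_ok (t := t_8_31) (by decide +kernel)

def t_9_24 : T := (.keep [0,1,2] (.node (.cons (.keep [2,4,5,6] (.node (.cons (.keep [4,5,6,7,8] (.node (.cons (.keep [4,5,6,7,9] (.node (.cons (.leaf 1 [(2,1)]) (.cons (.keep [5,6,7,8,9] (.node (.cons (.leaf 1 [(2,1)]) (.cons (.leaf 1 [(2,1)]) (.cons (.leaf 1 [(8,1)]) (.cons (.leaf 1 [(0,1),(8,1)]) .nil)))))) (.cons (.leaf 1 []) (.cons (.leaf 1 [(6,1),(5,1),(1,1),(8,1)]) .nil)))))) (.cons (.keep [0,5,7,8,9] (.node (.cons (.leaf 1 [(2,1)]) (.cons (.keep [2,6,7,8,9] (.node (.cons (.leaf 1 [(2,1)]) (.cons (.leaf 1 [(2,1)]) (.cons (.leaf 1 [(7,1)]) (.cons (.leaf 1 [(0,1),(7,1)]) .nil)))))) (.cons (.leaf 1 []) (.cons (.keep [0,1,6,7,8,9] (.node (.cons (.leaf 1 [(6,1),(2,1)]) (.cons (.leaf 1 [(6,1),(2,1)])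 (.cons (.leaf 1 [(8,1)]) (.cons (.leaf 1 [(6,1),(0,1),(8,1)]) .nil)))))) .nil)))))) (.cons (.leaf 1 [(7,1),(5,1),(1,1)]) (.cons (.leaf 1 [(7,1),(5,1),(1,1)]) .nil)))))) (.cons (.keep [0,6,7,8] (.node (.cons (.keep [2,4,6,7] (.node (.cons (.leaf 1 [(2,1)]) (.cons (.keep [5,6,7,8] (.node (.cons (.leaf 1 [(2,1)]) (.cons (.leaf 1 [(2,1)]) (.cons (.leaf 1 [(7,1)]) (.cons (.leaf 1 [(0,1),(7,1)]) .nil)))))) (.cons (.leaf 1 []) (.cons (.keep [1,5,6,7,8] (.node (.cons (.leaf 1 [(5,1),(2,1)]) (.cons (.leaf 1 [(5,1),(2,1)]) (.cons (.leaf 1 [(8,1)]) (.cons (.leaf 1 [(5,1),(0,1),(8,1)]) .nil)))))) .nil)))))) (.cons (.keep [0,2,3,6,7] (.node (.cons (.leaf 1 [(2,1)]) (.cons (.keep [2,7,8,9] (.node (.cons (.leaf 1 [(2,1)]) (.cons (.leaf 1 [(2,1)]) (.cons (.leaf 1 [(7,1)]) (.cons (.leaf 1 [(0,1),(7,1)])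 .nil)))))) (.cons (.leaf 1 []) (.cons (.keep [0,1,7,8,9] (.node (.cons (.leaf 1 [(6,1),(2,1)]) (.cons (.leaf 1 [(6,1),(2,1)]) (.cons (.leaf 1 [(8,1)]) (.cons (.leaf 1 [(6,1),(0,1),(8,1)]) .nil)))))) .nil)))))) (.cons (.keep [1,4,5,6] (.node (.cons (.leaf 1 [(2,1)]) (.cons (.keep [2,5,7,8] (.node (.cons (.leaf 1 [(2,1)]) (.cons (.leaf 1 [(2,1)]) (.cons (.leaf 1 [(8,1)]) (.cons (.leaf 1 [(0,1),(8,1)]) .nil)))))) (.cons (.leaf 1 []) (.cons (.keep [0,1,6,7,8] (.node (.cons (.leaf 1 [(6,1),(2,1)]) (.cons (.leaf 1 [(6,1),(2,1)]) (.cons (.leaf 1 [(9,1)]) (.cons (.leaf 1 [(6,1),(0,1),(9,1)]) .nil)))))) .nil)))))) (.cons (.keep [0,1,3,6] (.node (.cons (.leaf 1 [(2,1)]) (.cons (.keep [2,3,6,7,8] (.node (.cons (.leaf 1 [(2,1)]) (.cons (.leaf 1 [(2,1)]) (.cons (.leaf 1 [(9,1)]) (.cons (.leaf 1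 [(0,1),(9,1)]) .nil)))))) (.cons (.leaf 1 []) (.cons (.keep [0,5,6,7,8] (.node (.cons (.leaf 1 [(7,1),(8,1),(2,1)]) (.cons (.leaf 1 [(7,1),(8,1),(2,1)]) (.cons (.leaf 1 [(9,1)]) (.cons (.leaf 1 [(7,1),(8,1),(0,1),(9,1)]) .nil)))))) .nil)))))) .nil)))))) (.cons (.leaf 1 [(6,1),(1,1)]) (.cons (.leaf 1 [(6,1),(1,1)]) .nil)))))) (.cons (.keep [0,3,5,6] (.node (.cons (.keep [2,4,6,8] (.node (.cons (.keep [4,5,6,7,8] (.node (.cons (.leaf 1 [(2,1),(8,1)]) (.cons (.keep [0,5,6,7,8,9] (.node (.cons (.leaf 1 [(2,1)]) (.cons (.leaf 1 [(9,1),(2,1)]) (.cons (.leaf 1 []) (.cons (.leaf 1 [(9,1),(0,1)]) .nil)))))) (.cons (.leaf 1 [(7,1),(5,1),(1,1)]) (.cons (.leaf 1 [(7,1),(5,1),(1,1)]) .nil)))))) (.cons (.keep [0,6,7,8] (.node (.cons (.leaf 1 [(2,1),(7,1)]) (.cons (.keep [0,2,6,7,8] (.node (.cons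 (.leaf 1 [(2,1)]) (.cons (.leaf 1 [(8,1),(2,1)]) (.cons (.leaf 1 []) (.cons (.leaf 1 [(8,1),(0,1)]) .nil)))))) (.cons (.leaf 1 [(7,1)]) (.cons (.keep [0,1,6,7,8] (.node (.cons (.leaf 1 [(2,1)]) (.cons (.leaf 1 [(6,1),(8,1),(2,1)]) (.cons (.leaf 1 []) (.cons (.leaf 1 [(6,1),(8,1),(0,1)]) .nil)))))) .nil)))))) (.cons (.leaf 1 [(6,1),(1,1)]) (.cons (.leaf 1 [(6,1),(1,1)]) .nil)))))) (.cons (.keep [0,3,6,8] (.node (.cons (.keep [2,4,6,7] (.node (.cons (.leaf 1 [(2,1),(8,1)]) (.cons (.keep [0,5,6,7,8] (.node (.cons (.leaf 1 [(2,1)]) (.cons (.leaf 1 [(9,1),(2,1)]) (.cons (.leaf 1 []) (.cons (.leaf 1 [(9,1),(0,1)]) .nil)))))) (.cons (.leaf 1 [(8,1)]) (.cons (.keep [0,1,5,6,7,8] (.node (.cons (.leaf 1 [(2,1)]) (.cons (.leaf 1 [(6,1),(10,1),(2,1)]) (.cons (.leaf 1 []) (.cons (.leaf 1 [(6,1),(10,1),(0,1)])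 .nil)))))) .nil)))))) (.cons (.keep [0,2,3,6,7] (.node (.cons (.leaf 1 [(2,1),(9,1)]) (.cons (.keep [0,2,7,8,9] (.node (.cons (.leaf 1 [(2,1)]) (.cons (.leaf 1 [(9,1),(2,1)]) (.cons (.leaf 1 []) (.cons (.leaf 1 [(9,1),(0,1)]) .nil)))))) (.cons (.leaf 1 [(9,1)]) (.cons (.keep [0,1,7,8,9] (.node (.cons (.leaf 1 [(2,1)]) (.cons (.leaf 1 [(6,1),(9,1),(2,1)]) (.cons (.leaf 1 []) (.cons (.leaf 1 [(6,1),(9,1),(0,1)]) .nil)))))) .nil)))))) (.cons (.keep [1,4,5,7] (.node (.cons (.leaf 1 [(2,1),(8,1)]) (.cons (.keep [0,2,5,7,8] (.node (.cons (.leaf 1 [(2,1)]) (.cons (.leaf 1 [(9,1),(2,1)]) (.cons (.leaf 1 []) (.cons (.leaf 1 [(9,1),(0,1)]) .nil)))))) (.cons (.leaf 1 [(8,1)]) (.cons (.keep [0,1,6,7,8] (.node (.cons (.leaf 1 [(2,1)]) (.cons (.leaf 1 [(6,1),(9,1),(2,1)]) (.cons (.leaf 1 []) (.cons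 (.leaf 1 [(6,1),(9,1),(0,1)]) .nil)))))) .nil)))))) (.cons (.keep [0,1,3,7] (.node (.cons (.leaf 1 [(2,1),(8,1)]) (.cons (.keep [0,2,5,6,7,8] (.node (.cons (.leaf 1 [(2,1)]) (.cons (.leaf 1 [(10,1),(2,1)]) (.cons (.leaf 1 []) (.cons (.leaf 1 [(10,1),(0,1)]) .nil)))))) (.cons (.leaf 1 [(8,1)]) (.cons (.keep [0,5,6,7,8] (.node (.cons (.leaf 1 [(2,1)]) (.cons (.leaf 1 [(7,1),(8,1),(9,1),(2,1)]) (.cons (.leaf 1 []) (.cons (.leaf 1 [(7,1),(8,1),(9,1),(0,1)]) .nil)))))) .nil)))))) .nil)))))) (.cons (.leaf 1 [(1,1)]) (.cons (.leaf 1 [(1,1)]) .nil)))))) (.cons (.leaf 1 []) (.cons (.leaf 1 [(3,1)]) .nil))))))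

theorem e_9_24 : ESB (caseOf 4 9 24) := esb_of_ok (t := t_9_24) (by decide +kernel)

def t_9_25 : T := (.keep [0,1,2] (.node (.cons (.leaf 1 []) (.cons (.leaf 1 [(3,1)]) (.cons (.leaf 1 [(3,1)]) (.cons (.leaf 1 [(4,1)]) (.cons (.leaf 1 []) (.cons (.leaf 1 [(4,1)]) .nil))))))))

theorem e_9_25 : ESB (caseOf 4 9 25) := esb_of_ok (t := t_9_25) (by decide +kernel)

def ks : List (ℕ × ℕ) := [(7, 28), (7, 29), (7, 30), (7, 31), (8, 24), (8, 25), (8, 26), (8, 27),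
  (8, 28), (8, 29), (8, 30), (8, 31), (9, 24), (9, 25)]

theorem ks_ok : ∀ p ∈ ks, ESB (caseOf 4 p.1 p.2) := ks_cons e_7_28 <| ks_cons e_7_29 <| ks_cons
  e_7_30 <| ks_cons e_7_31 <| ks_cons e_8_24 <| ks_cons e_8_25 <| ks_cons e_8_26 <| ks_cons e_8_27
  <| ks_cons e_8_28 <| ks_cons e_8_29 <| ks_cons e_8_30 <| ks_cons e_8_31 <| ks_cons e_9_24 <|
  ks_cons e_9_25 <| ks_nil

end Pool.Agent.H4.RD4.E04
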