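import Pool.Agent.H4.RD4.Chk

/-! # Certificates for special cases of order four -/

set_option maxRecDepth 20000

namespace Pool.Agent.H4.RD4.E05

open Pool.Agent.H50.Rdb
open Pool.Agent.H81.RDE (ESB caseOf)

def t_9_26 : T := (.keep [0,1,2] (.node (.cons (.keep [4,5,6,7] (.node (.cons (.keep [0,6,7,8] (.node (.cons (.keep [4,5,8,9] (.node (.cons (.leaf 2 [(8,1)]) (.cons (.leaf 1 [(2,1)]) (.cons (.keep [6,7,8,9] (.node (.cons (.leaf 1 [(2,1)]) (.cons (.leaf 1 [(2,1)]) (.cons (.leaf 1 [(2,1)]) (.cons (.leaf 2 [(4,1),(6,1)]) (.cons (.leaf 1 [(8,1)]) (.cons (.leaf 1 [(0,1),(8,1)]) .nil)))))))) (.cons (.leaf 1 [(7,1),(1,1)]) (.cons (.leaf 1 []) (.cons (.leaf 1 [(1,1),(7,1)]) .nil)))))))) (.cons (.keep [2,3,5,8] (.node (.cons (.leaf 2 [(7,1),(9,1)]) (.cons (.leaf 1 [(2,1),(7,1)]) (.cons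 (.keep [0,6,7,8,9] (.node (.cons (.leaf 1 [(2,1),(8,1)]) (.cons (.leaf 1 [(2,1),(8,1)]) (.cons (.leaf 1 [(2,1),(8,1)]) (.cons (.leaf 1 [(4,1),(1,1)]) (.cons (.leaf 1 [(10,1)]) (.cons (.leaf 1 [(0,1),(8,1),(10,1)]) .nil)))))))) (.cons (.leaf 1 [(8,1),(1,1)]) (.cons (.leaf 1 [(7,1)]) (.cons (.leaf 1 [(8,1),(1,1)]) .nil)))))))) (.cons (.keep [0,3,4,8] (.node (.cons (.leaf 2 [(7,1),(9,1)]) (.cons (.leaf 2 [(7,1)]) (.cons (.keep [0,4,7,8,9] (.node (.cons (.leaf 1 [(2,1),(8,1)]) (.cons (.leaf 1 [(2,1),(8,1)]) (.cons (.leaf 1 [(2,1),(8,1)]) (.cons (.leaf 2 [(4,1),(9,1),(8,1)]) (.cons (.leaf 1 [(10,1)]) (.cons (.leaf 1 [(0,1),(8,1),(10,1)]) .nil)))))))) (.cons (.leaf 1 [(1,1)]) (.cons (.leaf 1 [(1,1)]) (.cons (.leaf 1 [(1,1)]) .nil)))))))) (.cons (.leaf 1 [(4,1)]) (.cons (.leaf 1 []) (.cons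 (.leaf 1 [(4,1)]) .nil)))))))) (.cons (.leaf 1 [(2,1)]) (.cons (.keep [3,6,7,8] (.node (.cons (.leaf 1 [(2,1)]) (.cons (.leaf 1 [(2,1)]) (.cons (.leaf 1 [(2,1)]) (.cons (.leaf 2 [(4,1),(7,1)]) (.cons (.keep [0,1,7,8] (.node (.cons (.leaf 2 [(8,1),(9,1)]) (.cons (.leaf 1 [(2,1),(8,1)]) (.cons (.keep [0,2,7,8,9] (.node (.cons (.leaf 1 [(2,1),(9,1)]) (.cons (.leaf 1 [(2,1),(3,1)]) (.cons (.leaf 1 [(2,1),(9,1)]) (.cons (.leaf 1 [(10,1),(9,1)]) (.cons (.leaf 1 [(10,1)]) (.cons (.leaf 1 [(0,1),(9,1),(10,1)]) .nil)))))))) (.cons (.leaf 2 [(8,1),(9,1),(1,1)]) (.cons (.leaf 1 [(8,1)]) (.cons (.keep [0,1,7,8,9] (.node (.cons (.leaf 1 [(2,1),(7,1),(9,1)]) (.cons (.leaf 1 [(2,1),(3,1)]) (.cons (.leaf 1 [(2,1),(7,1),(9,1)]) (.cons (.leaf 1 [(10,1),(7,1),(9,1)]) (.cons (.leaf 1 [(10,1)]) (.cons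 (.leaf 1 [(0,1),(7,1),(9,1),(10,1)]) .nil)))))))) .nil)))))))) (.cons (.keep [0,4,6,7,8] (.node (.cons (.leaf 1 [(2,1),(7,1)]) (.cons (.leaf 1 [(2,1),(7,1)]) (.cons (.leaf 1 [(2,1),(7,1)]) (.cons (.leaf 3 [(9,1),(10,1),(7,1)]) (.cons (.leaf 1 [(9,1)]) (.cons (.leaf 1 [(0,1),(7,1),(9,1)]) .nil)))))))) .nil)))))))) (.cons (.leaf 1 [(7,1),(1,1)]) (.cons (.leaf 1 []) (.cons (.leaf 1 [(1,1),(7,1)]) .nil)))))))) (.cons (.keep [2,3,5,7] (.node (.cons (.keep [5,6,7,8,9] (.node (.cons (.keep [4,5,7,9] (.node (.cons (.leaf 2 [(9,1)]) (.cons (.leaf 1 [(2,1)]) (.cons (.keep [6,7,8,9] (.node (.cons (.leaf 1 [(2,1)]) (.cons (.leaf 1 [(2,1)]) (.cons (.leaf 1 [(2,1)]) (.cons (.leaf 2 [(4,1),(6,1)]) (.cons (.leaf 1 [(9,1)]) (.cons (.leaf 1 [(0,1),(9,1)]) .nil)))))))) (.cons (.leaf 1 [(7,1),(1,1)])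 (.cons (.leaf 1 []) (.cons (.leaf 1 [(1,1),(7,1)]) .nil)))))))) (.cons (.keep [3,5,7,8,9] (.node (.cons (.leaf 2 [(10,1)]) (.cons (.leaf 1 [(2,1)]) (.cons (.keep [6,7,8,9,10] (.node (.cons (.leaf 1 [(2,1)]) (.cons (.leaf 1 [(2,1)]) (.cons (.leaf 1 [(2,1)]) (.cons (.leaf 2 [(4,1),(9,1)]) (.cons (.leaf 1 [(10,1)]) (.cons (.leaf 1 [(0,1),(10,1)]) .nil)))))))) (.cons (.leaf 1 [(9,1),(7,1),(1,1)]) (.cons (.leaf 1 []) (.cons (.leaf 1 [(7,1),(1,1),(9,1)]) .nil)))))))) (.cons (.keep [3,4,7,8,9] (.node (.cons (.leaf 2 [(10,1)]) (.cons (.leaf 1 [(2,1)]) (.cons (.keep [6,7,8,9,10] (.node (.cons (.leaf 1 [(2,1)]) (.cons (.leaf 1 [(2,1)]) (.cons (.leaf 1 [(2,1)]) (.cons (.leaf 2 [(4,1),(7,1),(9,1)]) (.cons (.leaf 1 [(10,1)]) (.cons (.leaf 1 [(0,1),(10,1)]) .nil)))))))) (.cons (.leaf 1 [(9,1),(1,1)])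 (.cons (.leaf 1 []) (.cons (.leaf 1 [(1,1),(9,1)]) .nil)))))))) (.cons (.leaf 1 [(4,1),(1,1)]) (.cons (.leaf 1 [(8,1)]) (.cons (.leaf 1 [(8,1),(4,1)]) .nil)))))))) (.cons (.leaf 1 [(2,1),(7,1)]) (.cons (.keep [0,6,7,8,9] (.node (.cons (.leaf 1 [(2,1),(8,1)]) (.cons (.leaf 1 [(2,1),(8,1)]) (.cons (.leaf 1 [(2,1),(8,1)]) (.cons (.leaf 1 [(4,1),(1,1)]) (.cons (.keep [5,6,7,8,9] (.node (.cons (.leaf 2 [(10,1)]) (.cons (.leaf 1 [(2,1)]) (.cons (.keep [2,7,8,9,10] (.node (.cons (.leaf 1 [(2,1)]) (.cons (.leaf 1 [(2,1)]) (.cons (.leaf 1 [(2,1)]) (.cons (.leaf 1 [(10,1),(7,1)]) (.cons (.leaf 1 [(10,1)]) (.cons (.leaf 1 [(0,1),(10,1)]) .nil)))))))) (.cons (.leaf 2 [(10,1),(1,1)]) (.cons (.leaf 1 []) (.cons (.keep [0,1,6,7,9,10] (.node (.cons (.leaf 1 [(7,1),(2,1)]) (.cons (.leaf 1 [(7,1),(2,1)])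 (.cons (.leaf 1 [(7,1),(2,1)]) (.cons (.leaf 1 [(11,1),(7,1),(9,1)]) (.cons (.leaf 1 [(11,1)]) (.cons (.leaf 1 [(7,1),(0,1),(11,1)]) .nil)))))))) .nil)))))))) (.cons (.keep [0,4,8,9,10] (.node (.cons (.leaf 1 [(2,1),(8,1),(7,1)]) (.cons (.leaf 1 [(2,1)]) (.cons (.leaf 1 [(8,1),(7,1),(2,1)]) (.cons (.leaf 3 [(9,1),(8,1),(7,1)]) (.cons (.leaf 1 []) (.cons (.leaf 1 [(8,1),(7,1),(0,1)]) .nil)))))))) .nil)))))))) (.cons (.leaf 1 [(8,1),(1,1)]) (.cons (.leaf 1 [(7,1)]) (.cons (.leaf 1 [(8,1),(1,1)]) .nil)))))))) (.cons (.keep [0,3,4,7] (.node (.cons (.keep [4,5,7,8,9] (.node (.cons (.keep [4,5,6,8,10] (.node (.cons (.leaf 2 [(9,1)]) (.cons (.leaf 1 [(2,1),(9,1)]) (.cons (.keep [0,3,6,7,9] (.node (.cons (.leaf 1 [(2,1),(10,1)]) (.cons (.leaf 1 [(2,1)]) (.cons (.leaf 1 [(10,1),(2,1)]) (.cons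 (.leaf 1 [(8,1),(1,2)]) (.cons (.leaf 1 []) (.cons (.leaf 1 [(10,1),(0,1)]) .nil)))))))) (.cons (.leaf 1 [(4,1),(1,1)]) (.cons (.leaf 1 [(9,1)]) (.cons (.leaf 1 [(7,1),(1,1),(9,1)]) .nil)))))))) (.cons (.keep [5,6,8,9,10] (.node (.cons (.leaf 2 [(9,1)]) (.cons (.leaf 1 [(2,1),(9,1)]) (.cons (.keep [0,6,7,8,9,10] (.node (.cons (.leaf 2 [(9,1)]) (.cons (.leaf 1 [(2,1)]) (.cons (.leaf 1 [(10,1),(2,1)]) (.cons (.leaf 2 [(9,1),(1,1)]) (.cons (.leaf 1 []) (.cons (.leaf 1 [(10,1),(0,1)]) .nil)))))))) (.cons (.leaf 1 [(4,1),(1,1)]) (.cons (.leaf 1 [(8,1),(6,1),(1,1)]) (.cons (.leaf 1 [(8,1),(6,1),(1,1)]) .nil)))))))) (.cons (.keep [0,4,8,9,10] (.node (.cons (.leaf 2 [(9,1)]) (.cons (.leaf 1 [(2,1),(9,1)]) (.cons (.keep [0,6,7,8,9,10] (.node (.cons (.leaf 2 [(9,1),(8,1)]) (.cons (.leaf 1 [(2,1)])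 (.cons (.leaf 1 [(10,1),(2,1)]) (.cons (.leaf 2 [(9,1),(8,1),(1,1)]) (.cons (.leaf 1 []) (.cons (.leaf 1 [(10,1),(0,1)]) .nil)))))))) (.cons (.leaf 1 [(4,1),(1,1)]) (.cons (.leaf 1 [(8,1),(1,1)]) (.cons (.leaf 1 [(8,1),(1,1)]) .nil)))))))) (.cons (.leaf 1 [(4,1),(8,1)]) (.cons (.leaf 1 [(8,1)]) (.cons (.leaf 1 [(8,1),(4,1)]) .nil)))))))) (.cons (.leaf 2 [(7,1)]) (.cons (.keep [0,4,7,8,9] (.node (.cons (.leaf 1 [(2,1),(8,1)]) (.cons (.leaf 1 [(2,1),(8,1)]) (.cons (.leaf 1 [(2,1),(8,1)]) (.cons (.leaf 2 [(4,1),(9,1),(8,1)]) (.cons (.keep [5,6,8,9,10] (.node (.cons (.leaf 2 [(9,1)]) (.cons (.leaf 1 [(2,1),(9,1)]) (.cons (.keep [0,2,7,8,9,10] (.node (.cons (.leaf 1 [(2,1),(10,1)]) (.cons (.leaf 1 [(2,1)]) (.cons (.leaf 1 [(10,1),(2,1)]) (.cons (.leaf 1 [(8,1),(10,1)]) (.cons (.leaf 1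 []) (.cons (.leaf 1 [(10,1),(0,1)]) .nil)))))))) (.cons (.leaf 1 [(4,1),(1,1)]) (.cons (.leaf 1 [(9,1)]) (.cons (.keep [0,1,7,8,9,10] (.node (.cons (.leaf 1 [(2,1),(7,1),(10,1)]) (.cons (.leaf 1 [(2,1)]) (.cons (.leaf 1 [(7,1),(10,1),(2,1)]) (.cons (.leaf 1 [(8,1),(7,1),(10,1)]) (.cons (.leaf 1 []) (.cons (.leaf 1 [(7,1),(10,1),(0,1)]) .nil)))))))) .nil)))))))) (.cons (.keep [0,4,8,9,10] (.node (.cons (.leaf 1 [(2,1),(8,1),(7,1)]) (.cons (.leaf 1 [(2,1),(8,1),(7,1)]) (.cons (.leaf 1 [(2,1),(8,1),(7,1)]) (.cons (.leaf 1 [(4,1),(1,1)]) (.cons (.leaf 1 [(9,1)]) (.cons (.leaf 1 [(0,1),(8,1),(7,1),(9,1)]) .nil)))))))) .nil)))))))) (.cons (.leaf 1 [(1,1)]) (.cons (.leaf 1 [(1,1)]) (.cons (.leaf 1 [(1,1)]) .nil)))))))) (.cons (.leaf 1 [(4,1)]) (.cons (.leaf 1 []) (.cons (.leaf 1 [(4,1)])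 .nil))))))))

theorem e_9_26 : ESB (caseOf 4 9 26) := esb_of_ok (t := t_9_26) (by decide +kernel)

def t_9_27 : T := (.keep [0,1,2] (.node (.cons (.leaf 1 []) (.cons (.leaf 1 [(3,1)]) (.cons (.leaf 1 [(3,1)]) (.cons (.leaf 1 [(3,1)]) (.cons (.leaf 1 [(5,1)]) (.cons (.leaf 1 [(5,1)]) (.cons (.leaf 1 []) (.cons (.leaf 1 [(5,1)]) .nil))))))))))

theorem e_9_27 : ESB (caseOf 4 9 27) := esb_of_ok (t := t_9_27) (by decide +kernel)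

def t_9_28 : T := (.keep [0,1,2] (.node (.cons (.keep [4,5,6,7] (.node (.cons (.keep [5,6,7,8,9] (.node (.cons (.leaf 2 [(8,1)]) (.cons (.leaf 1 [(2,1)]) (.cons (.keep [6,7,8,9,10] (.node (.cons (.leaf 1 [(2,1)]) (.cons (.leaf 1 [(2,1)]) (.cons (.leaf 1 [(2,1)]) (.cons (.leaf 1 [(4,2),(6,1)]) (.cons (.leaf 1 [(7,1)]) (.cons (.leaf 1 [(0,1),(7,1)]) .nil)))))))) (.cons (.leaf 1 [(6,1),(7,1),(1,1)]) (.cons (.leaf 1 []) (.cons (.leaf 1 [(6,1),(1,1),(7,1)]) .nil)))))))) (.cons (.keep [5,6,7,8,9] (.node (.cons (.leaf 2 [(8,1)]) (.cons (.leaf 1 [(2,1)]) (.cons (.keep [6,7,8,9,10] (.node (.cons (.leaf 1 [(2,1)]) (.cons (.leaf 1 [(2,1)]) (.cons (.leaf 1 [(2,1)]) (.cons (.leaf 3 [(6,1),(7,1),(8,1)]) (.cons (.leaf 1 [(7,1)]) (.cons (.leaf 1 [(0,1),(7,1)]) .nil)))))))) (.cons (.leaf 2 [(8,1),(1,1)])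 (.cons (.leaf 1 []) (.cons (.leaf 1 [(6,1),(1,1),(8,1)]) .nil)))))))) (.cons (.keep [0,6,7,8] (.node (.cons (.leaf 2 [(8,1)]) (.cons (.leaf 1 [(2,1)]) (.cons (.keep [2,7,8,9] (.node (.cons (.leaf 1 [(2,1)]) (.cons (.leaf 1 [(2,1)]) (.cons (.leaf 1 [(2,1)]) (.cons (.leaf 1 [(4,1),(6,1)]) (.cons (.leaf 1 [(7,1)]) (.cons (.leaf 1 [(0,1),(7,1)]) .nil)))))))) (.cons (.leaf 2 [(8,1),(1,1)]) (.cons (.leaf 1 []) (.cons (.keep [0,1,7,8,9] (.node (.cons (.leaf 1 [(4,1)]) (.cons (.leaf 1 [(7,1),(2,1)]) (.cons (.leaf 1 [(7,1),(2,1)]) (.cons (.leaf 1 [(4,1)]) (.cons (.leaf 1 [(8,1)]) (.cons (.leaf 1 [(7,1),(0,1),(8,1)]) .nil)))))))) .nil)))))))) (.cons (.leaf 1 [(6,1),(4,1),(1,1)]) (.cons (.leaf 1 [(7,1),(1,1)]) (.cons (.leaf 1 [(7,1),(1,1)]) .nil)))))))) (.cons (.keep [2,3,5,6] (.node (.cons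 (.keep [4,5,6,7] (.node (.cons (.leaf 2 [(6,1),(9,1)]) (.cons (.leaf 1 [(2,1),(9,1)]) (.cons (.keep [0,6,7,8,9] (.node (.cons (.leaf 2 [(8,1)]) (.cons (.leaf 1 [(2,1)]) (.cons (.leaf 1 [(10,1),(2,1)]) (.cons (.leaf 2 [(8,1),(1,1)]) (.cons (.leaf 1 []) (.cons (.leaf 1 [(10,1),(0,1)]) .nil)))))))) (.cons (.leaf 1 [(6,1),(4,1),(1,1)]) (.cons (.leaf 1 [(7,1),(1,1)]) (.cons (.leaf 1 [(7,1),(1,1)]) .nil)))))))) (.cons (.keep [3,5,6,7,8] (.node (.cons (.leaf 2 [(10,1),(9,1)]) (.cons (.leaf 1 [(2,1),(9,1)]) (.cons (.keep [0,6,7,8,9,10] (.node (.cons (.leaf 1 [(2,1),(10,1)]) (.cons (.leaf 1 [(2,1)]) (.cons (.leaf 1 [(10,1),(2,1)]) (.cons (.leaf 3 [(8,1),(11,1),(10,1)]) (.cons (.leaf 1 []) (.cons (.leaf 1 [(10,1),(0,1)]) .nil)))))))) (.cons (.leaf 2 [(10,1),(9,1),(1,1)]) (.cons (.leaf 1 [(9,1)])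 (.cons (.leaf 1 [(10,1),(7,1),(1,1)]) .nil)))))))) (.cons (.keep [0,3,7,8] (.node (.cons (.leaf 2 [(9,1),(8,1)]) (.cons (.leaf 1 [(2,1),(8,1)]) (.cons (.keep [0,2,7,8,9] (.node (.cons (.leaf 1 [(7,1)]) (.cons (.leaf 1 [(2,1)]) (.cons (.leaf 1 [(9,1),(2,1)]) (.cons (.leaf 1 [(7,1),(1,1)]) (.cons (.leaf 1 []) (.cons (.leaf 1 [(9,1),(0,1)]) .nil)))))))) (.cons (.leaf 2 [(9,1),(8,1),(1,1)]) (.cons (.leaf 1 [(8,1)]) (.cons (.keep [0,1,7,8,9] (.node (.cons (.leaf 2 [(2,1),(9,1)]) (.cons (.leaf 1 [(2,1)]) (.cons (.leaf 1 [(7,1),(9,1),(2,1)]) (.cons (.leaf 2 [(9,1)]) (.cons (.leaf 1 []) (.cons (.leaf 1 [(7,1),(9,1),(0,1)]) .nil)))))))) .nil)))))))) (.cons (.leaf 1 [(4,1),(1,1)]) (.cons (.leaf 1 [(8,1),(1,1)]) (.cons (.leaf 1 [(8,1),(1,1)]) .nil)))))))) (.cons (.keep [0,3,4,6] (.node (.cons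 (.keep [2,4,5,7,8] (.node (.cons (.leaf 2 [(9,1)]) (.cons (.leaf 1 [(2,1),(9,1)]) (.cons (.keep [0,6,7,8,9,10] (.node (.cons (.leaf 1 [(2,1),(10,1)]) (.cons (.leaf 1 [(2,1),(10,1)]) (.cons (.leaf 1 [(2,1),(10,1)]) (.cons (.leaf 1 [(9,1),(4,2),(10,1)]) (.cons (.leaf 1 [(11,1)]) (.cons (.leaf 1 [(0,1),(10,1),(11,1)]) .nil)))))))) (.cons (.leaf 1 [(4,1),(1,1)]) (.cons (.leaf 1 [(9,1)]) (.cons (.leaf 1 [(8,1),(10,1),(1,1)]) .nil)))))))) (.cons (.keep [2,3,5,7] (.node (.cons (.leaf 2 [(9,1)]) (.cons (.leaf 1 [(2,1),(9,1)]) (.cons (.keep [0,6,7,8,9] (.node (.cons (.leaf 2 [(9,1),(8,1)]) (.cons (.leaf 1 [(2,1),(8,1)]) (.cons (.leaf 1 [(2,1),(10,1)]) (.cons (.leaf 2 [(9,1),(8,1),(1,1)]) (.cons (.leaf 1 [(8,1)]) (.cons (.leaf 1 [(0,1),(10,1),(8,1)]) .nil)))))))) (.cons (.leaf 1 [(4,1),(1,1)])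 (.cons (.leaf 1 [(8,1),(1,1)]) (.cons (.leaf 1 [(8,1),(1,1)]) .nil)))))))) (.cons (.keep [0,4,7,8] (.node (.cons (.leaf 2 [(8,1)]) (.cons (.leaf 1 [(2,1),(8,1)]) (.cons (.keep [0,2,7,8,9] (.node (.cons (.leaf 1 [(2,1),(9,1)]) (.cons (.leaf 1 [(2,1),(9,1)]) (.cons (.leaf 1 [(2,1),(9,1)]) (.cons (.leaf 1 [(7,1),(4,1),(9,1)]) (.cons (.leaf 1 [(10,1)]) (.cons (.leaf 1 [(0,1),(9,1),(10,1)]) .nil)))))))) (.cons (.leaf 1 [(4,1),(1,1)]) (.cons (.leaf 1 [(8,1)]) (.cons (.keep [0,1,7,8,9] (.node (.cons (.leaf 1 [(2,1),(7,1),(9,1)]) (.cons (.leaf 1 [(2,1),(7,1),(9,1)]) (.cons (.leaf 1 [(2,1),(7,1),(9,1)]) (.cons (.leaf 1 [(9,1),(4,1)]) (.cons (.leaf 1 [(10,1)]) (.cons (.leaf 1 [(0,1),(7,1),(9,1),(10,1)]) .nil)))))))) .nil)))))))) (.cons (.leaf 1 [(1,1)]) (.cons (.leaf 1 [(1,1)]) (.cons (.leaf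 1 [(1,1)]) .nil)))))))) (.cons (.leaf 1 [(4,1)]) (.cons (.leaf 1 []) (.cons (.leaf 1 [(4,1)]) .nil))))))))

theorem e_9_28 : ESB (caseOf 4 9 28) := esb_of_ok (t := t_9_28) (by decide +kernel)

def t_9_29 : T := (.keep [0,1,2] (.node (.cons (.leaf 1 []) (.cons (.leaf 1 [(3,1)]) (.cons (.leaf 1 [(3,1)]) (.cons (.leaf 1 [(3,1)]) (.cons (.leaf 1 [(5,1)]) (.cons (.leaf 1 [(5,1)]) (.cons (.leaf 1 []) (.cons (.leaf 1 [(5,1)]) .nil))))))))))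

theorem e_9_29 : ESB (caseOf 4 9 29) := esb_of_ok (t := t_9_29) (by decide +kernel)

def t_9_30 : T := (.keep [0,1,2] (.node (.cons (.keep [4,5,6,7] (.node (.cons (.leaf 2 [(7,1)]) (.cons (.leaf 2 [(8,1)]) (.cons (.leaf 1 [(2,1)]) (.cons (.keep [7,8,9,10] (.node (.cons (.leaf 1 [(2,1)]) (.cons (.leaf 1 [(2,1)]) (.cons (.leaf 1 [(2,1)]) (.cons (.leaf 1 [(2,1)]) (.cons (.leaf 3 [(7,1),(8,1)]) (.cons (.leaf 3 [(7,1),(9,1)]) (.cons (.leaf 1 [(7,1)]) (.cons (.leaf 1 [(0,1),(7,1)]) .nil)))))))))) (.cons (.leaf 2 [(7,1),(1,1)]) (.cons (.leaf 2 [(8,1),(1,1)]) (.cons (.leaf 1 []) (.cons (.leaf 1 [(1,1),(9,1)]) .nil)))))))))) (.cons (.keep [3,5,6,8] (.node (.cons (.leaf 2 [(7,1)]) (.cons (.leaf 2 [(8,1),(7,1)]) (.cons (.leaf 1 [(2,1),(7,1)]) (.cons (.keep [0,7,8,9,10] (.node (.cons (.leaf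 1 [(2,1),(8,1)]) (.cons (.leaf 1 [(2,1),(8,1)]) (.cons (.leaf 1 [(2,1)]) (.cons (.leaf 1 [(8,1),(2,1)]) (.cons (.leaf 3 [(9,1),(8,1)]) (.cons (.leaf 3 [(10,1),(8,1)]) (.cons (.leaf 1 []) (.cons (.leaf 1 [(8,1),(0,1)]) .nil)))))))))) (.cons (.leaf 1 [(5,1),(1,1)]) (.cons (.leaf 2 [(8,1),(7,1),(1,1)]) (.cons (.leaf 1 [(7,1)]) (.cons (.leaf 1 [(9,1),(1,1)]) .nil)))))))))) (.cons (.keep [2,3,4,6] (.node (.cons (.leaf 2 [(8,1),(9,1)]) (.cons (.leaf 2 [(8,1)]) (.cons (.leaf 1 [(2,1),(8,1)]) (.cons (.keep [0,7,8,9,10] (.node (.cons (.leaf 1 [(2,1),(9,1)]) (.cons (.leaf 1 [(2,1),(9,1)]) (.cons (.leaf 1 [(2,1),(9,1)]) (.cons (.leaf 1 [(2,1),(9,1)]) (.cons (.leaf 1 [(5,1),(1,1)]) (.cons (.leaf 3 [(11,1),(10,1),(9,1)]) (.cons (.leaf 1 [(10,1)]) (.cons (.leaf 1 [(0,1),(9,1),(10,1)]) .nil))))))))))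 (.cons (.leaf 2 [(8,1),(9,1),(1,1)]) (.cons (.leaf 1 [(5,1),(1,1)]) (.cons (.leaf 1 [(8,1)]) (.cons (.leaf 1 [(10,1),(1,1)]) .nil)))))))))) (.cons (.keep [0,3,4,5] (.node (.cons (.leaf 2 [(8,1),(9,1)]) (.cons (.leaf 2 [(8,1),(10,1)]) (.cons (.leaf 2 [(8,1)]) (.cons (.keep [0,5,8,9,10] (.node (.cons (.leaf 1 [(2,1),(9,1)]) (.cons (.leaf 1 [(2,1),(9,1)]) (.cons (.leaf 1 [(2,1),(9,1)]) (.cons (.leaf 1 [(2,1),(9,1)]) (.cons (.leaf 3 [(10,1),(11,1),(9,1)]) (.cons (.leaf 1 [(5,1),(1,1)]) (.cons (.leaf 1 [(10,1)]) (.cons (.leaf 1 [(0,1),(9,1),(10,1)]) .nil)))))))))) (.cons (.leaf 1 [(1,1)]) (.cons (.leaf 1 [(1,1)]) (.cons (.leaf 1 [(1,1)]) (.cons (.leaf 1 [(1,1)]) .nil)))))))))) (.cons (.leaf 1 [(5,1)]) (.cons (.leaf 1 [(5,1)]) (.cons (.leaf 1 []) (.cons (.leaf 1 [(5,1)]) .nil))))))))))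

theorem e_9_30 : ESB (caseOf 4 9 30) := esb_of_ok (t := t_9_30) (by decide +kernel)

def t_9_31 : T := (.keep [0,1,2] (.node (.cons (.leaf 1 []) (.cons (.leaf 1 [(3,1)]) (.cons (.leaf 1 [(3,1)]) (.cons (.leaf 1 [(3,1)]) (.cons (.leaf 1 [(3,1)]) (.cons (.leaf 1 [(6,1)]) (.cons (.leaf 1 [(6,1)]) (.cons (.leaf 1 [(6,1)]) (.cons (.leaf 1 []) (.cons (.leaf 1 [(6,1)]) .nil))))))))))))

theorem e_9_31 : ESB (caseOf 4 9 31) := esb_of_ok (t := t_9_31) (by decide +kernel)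

def t_10_25 : T := (.keep [0,1,2] (.node (.cons (.keep [0,2,4,5,7] (.node (.cons (.keep [0,2,4,5,7,8] (.node (.cons (.leaf 1 [(11,1)]) (.cons (.leaf 1 [(11,1),(3,1)]) (.cons (.leaf 1 [(11,1),(3,1)]) (.cons (.leaf 1 [(4,1)]) (.cons (.leaf 1 []) (.cons (.leaf 1 [(4,1)]) .nil)))))))) (.cons (.keep [3,5,6,8,9] (.node (.cons (.leaf 1 [(9,1),(6,1)]) (.cons (.leaf 1 [(9,1),(6,1),(3,1)]) (.cons (.leaf 1 [(9,1),(6,1),(3,1)]) (.cons (.leaf 1 [(6,1),(4,1)]) (.cons (.leaf 1 [(6,1)]) (.cons (.leaf 1 [(6,1),(4,1)]) .nil)))))))) (.cons (.keep [0,3,8,9,10] (.node (.cons (.leaf 1 [(8,1),(7,1)]) (.cons (.leaf 1 [(8,1),(3,2)]) (.cons (.leaf 1 [(8,1),(7,1),(3,1)]) (.cons (.leaf 1 []) (.cons (.leaf 1 [(3,1)]) (.cons (.leaf 1 [(3,1)]) .nil)))))))) (.cons (.leaf 1 [(4,1)]) (.cons (.leaf 1 []) (.cons (.leaf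 1 [(4,1)]) .nil)))))))) (.cons (.keep [3,5,6,7,8] (.node (.cons (.keep [5,6,7,8,10] (.node (.cons (.leaf 1 []) (.cons (.leaf 1 [(3,1)]) (.cons (.leaf 1 [(3,1)]) (.cons (.leaf 1 [(7,1),(4,1)]) (.cons (.leaf 1 [(7,1)]) (.cons (.leaf 1 [(7,1),(4,1)]) .nil)))))))) (.cons (.keep [3,5,7,9,10] (.node (.cons (.leaf 1 [(6,1)]) (.cons (.leaf 1 [(6,1),(3,1)]) (.cons (.leaf 1 [(6,1),(3,1)]) (.cons (.leaf 1 [(8,1),(6,2),(4,1)]) (.cons (.leaf 1 [(8,1),(6,2)]) (.cons (.leaf 1 [(8,1),(6,2),(4,1)]) .nil)))))))) (.cons (.keep [3,6,7,9,10] (.node (.cons (.leaf 1 [(6,1)]) (.cons (.leaf 1 [(3,2)]) (.cons (.leaf 1 [(6,1),(3,1)]) (.cons (.leaf 1 [(7,1)]) (.cons (.leaf 1 [(7,1),(3,1)]) (.cons (.leaf 1 [(7,1),(3,1)]) .nil)))))))) (.cons (.leaf 1 [(6,1),(4,1)]) (.cons (.leaf 1 [(6,1)]) (.cons (.leaf 1 [(6,1),(4,1)])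 .nil)))))))) (.cons (.keep [0,3,4,6,7] (.node (.cons (.keep [4,5,6,7,8] (.node (.cons (.leaf 1 [(10,1)]) (.cons (.leaf 1 [(10,1),(3,1)]) (.cons (.leaf 1 [(10,1),(3,1)]) (.cons (.leaf 1 [(9,1),(4,1)]) (.cons (.leaf 1 [(9,1)]) (.cons (.leaf 1 [(9,1),(4,1)]) .nil)))))))) (.cons (.keep [3,5,6,8,9] (.node (.cons (.leaf 1 [(9,1),(6,1)]) (.cons (.leaf 1 [(9,1),(6,1),(3,1)]) (.cons (.leaf 1 [(9,1),(6,1),(3,1)]) (.cons (.leaf 1 [(6,2),(4,1)]) (.cons (.leaf 1 [(6,2)]) (.cons (.leaf 1 [(6,2),(4,1)]) .nil)))))))) (.cons (.keep [4,6,7,8,10] (.node (.cons (.leaf 1 [(9,1),(8,1),(6,1)]) (.cons (.leaf 1 [(9,1),(3,2)]) (.cons (.leaf 1 [(9,1),(8,1),(6,1),(3,1)]) (.cons (.leaf 1 [(8,1)]) (.cons (.leaf 1 [(8,1),(3,1)]) (.cons (.leaf 1 [(8,1),(3,1)]) .nil)))))))) (.cons (.leaf 1 []) (.cons (.leaf 1 [(3,1)])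 (.cons (.leaf 1 [(3,1)]) .nil)))))))) (.cons (.leaf 1 [(4,1)]) (.cons (.leaf 1 []) (.cons (.leaf 1 [(4,1)]) .nil))))))))

theorem e_10_25 : ESB (caseOf 4 10 25) := esb_of_ok (t := t_10_25) (by decide +kernel)

def t_10_26 : T := (.keep [0,1,2] (.node (.cons (.leaf 1 []) (.cons (.leaf 1 [(3,1)]) (.cons (.leaf 1 [(3,1)]) (.cons (.leaf 1 [(4,1)]) (.cons (.leaf 1 []) (.cons (.leaf 1 [(4,1)]) .nil))))))))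

theorem e_10_26 : ESB (caseOf 4 10 26) := esb_of_ok (t := t_10_26) (by decide +kernel)

def t_10_27 : T := (.keep [0,1,2] (.node (.cons (.leaf 1 [(4,1)]) (.cons (.leaf 1 []) (.cons (.leaf 1 [(4,1)]) (.cons (.leaf 1 [(4,1)]) (.cons (.leaf 1 [(5,1)]) (.cons (.leaf 1 [(5,1)]) (.cons (.leaf 1 []) (.cons (.leaf 1 [(5,1)]) .nil))))))))))

theorem e_10_27 : ESB (caseOf 4 10 27) := esb_of_ok (t := t_10_27) (by decide +kernel)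

def z_10_28_0 : F := ⟨0, -1, 0, 0, 2⟩

def h_10_28_0 : List F := [⟨0, 1, -1, 0, 0⟩, ⟨0, 1, 0, -1, 0⟩, ⟨1, -1, 0, 0, 0⟩, ⟨-1, 0, 0, 0, 1⟩]

def t_10_28_0 : T := (.node (.cons (.keep [4,5,6,8,9] (.node (.cons (.leaf 1 [(6,1)]) (.cons (.leaf 1 [(2,1)]) (.cons (.keep [0,2,6,8,10] (.node (.cons (.leaf 1 [(4,1),(7,1)]) (.cons (.leaf 1 [(2,1),(8,1)]) (.cons (.leaf 1 [(2,1),(8,1)]) (.cons (.leaf 1 [(4,1),(7,1)]) (.cons (.leaf 1 [(9,1)]) (.cons (.keep [4,7,8,9,10] (.node (.cons (.leaf 1 [(2,1),(7,1),(6,1)]) (.cons (.leaf 1 [(2,1),(7,1),(3,1)]) (.cons (.leaf 1 [(2,1),(7,1),(0,1),(3,1)]) (.cons (.leaf 1 [(4,1),(9,1)]) (.cons (.leaf 1 [(8,1),(9,1)]) (.cons (.leaf 1 [(0,1),(9,1),(8,1)]) .nil)))))))) .nil)))))))) (.cons (.leaf 1 [(6,1),(1,1)]) (.cons (.leaf 1 []) (.cons (.keep [1,6,7,8,9,10] (.node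 (.cons (.leaf 1 [(4,1)]) (.cons (.leaf 1 [(2,1),(6,1),(7,1)]) (.cons (.leaf 1 [(2,1),(7,1),(6,1)]) (.cons (.leaf 1 [(4,1)]) (.cons (.leaf 1 [(9,1)]) (.cons (.keep [0,4,6,7,9,11] (.node (.cons (.leaf 1 [(2,1),(7,1)]) (.cons (.leaf 1 [(2,1),(3,1)]) (.cons (.leaf 1 [(2,1),(7,1)]) (.cons (.leaf 1 [(4,1),(10,1)]) (.cons (.leaf 1 [(9,1),(10,1)]) (.cons (.leaf 1 [(0,1),(10,1),(8,1),(9,1)]) .nil)))))))) .nil)))))))) .nil)))))))) (.cons (.keep [2,5,6,8,9] (.node (.cons (.keep [2,5,6,8,10] (.node (.cons (.leaf 3 [(6,1),(8,1)]) (.cons (.leaf 2 [(2,1),(8,1)]) (.cons (.keep [2,6,8,9,10] (.node (.cons (.leaf 2 [(4,1),(7,1)]) (.cons (.leaf 2 [(7,1)]) (.cons (.leaf 2 [(7,1),(4,1)]) (.cons (.leaf 1 [(4,2),(6,1)]) (.cons (.leaf 1 [(8,1)]) (.cons (.leaf 1 [(0,1),(8,1)]) .nil)))))))) (.cons (.leaf 1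 [(1,1),(4,1),(6,1)]) (.cons (.leaf 2 [(8,1)]) (.cons (.keep [0,1,6,8,9,10] (.node (.cons (.leaf 2 [(8,1),(7,1),(4,1)]) (.cons (.leaf 2 [(8,1),(7,1)]) (.cons (.leaf 3 [(3,1),(8,2),(2,1),(7,2)]) (.cons (.leaf 1 [(4,2)]) (.cons (.leaf 1 [(9,1)]) (.cons (.leaf 1 [(0,1),(9,1),(7,1)]) .nil)))))))) .nil)))))))) (.cons (.leaf 1 [(2,1)]) (.cons (.keep [2,3,6,8,10] (.node (.cons (.leaf 1 [(4,1),(6,1)]) (.cons (.leaf 2 [(2,2),(8,1)]) (.cons (.keep [0,2,6,8,9,10] (.node (.cons (.leaf 3 [(7,2),(8,2),(2,1)]) (.cons (.leaf 2 [(7,2),(8,1)]) (.cons (.leaf 3 [(7,2),(3,1),(2,1),(8,2)]) (.cons (.leaf 1 [(4,2),(7,2)]) (.cons (.leaf 1 [(9,1)]) (.cons (.leaf 1 [(9,1),(7,1),(0,1)]) .nil)))))))) (.cons (.leaf 1 [(4,1),(6,1)]) (.cons (.leaf 1 [(9,1)]) (.cons (.keep [1,6,8,9,10] (.node (.cons (.leaf 2 [(2,1),(7,1),(9,1)])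 (.cons (.leaf 1 [(2,1),(7,1),(3,1)]) (.cons (.leaf 1 [(2,1),(7,1),(0,1),(3,1)]) (.cons (.leaf 2 [(8,1),(9,1)]) (.cons (.leaf 1 [(8,1)]) (.cons (.leaf 1 [(0,1),(8,1)]) .nil)))))))) .nil)))))))) (.cons (.keep [1,5,6,9,10] (.node (.cons (.leaf 3 [(8,1),(6,1)]) (.cons (.leaf 2 [(8,1),(2,1),(6,1)]) (.cons (.keep [0,2,6,8,9,10] (.node (.cons (.leaf 2 [(4,1),(8,1)]) (.cons (.leaf 2 [(8,1)]) (.cons (.leaf 2 [(8,1),(4,1)]) (.cons (.leaf 1 [(8,1),(4,2),(7,1)]) (.cons (.leaf 1 [(9,1)]) (.cons (.leaf 1 [(0,1),(9,1),(8,1)]) .nil)))))))) (.cons (.leaf 1 [(4,1),(1,1)]) (.cons (.leaf 2 [(8,1),(6,1)]) (.cons (.keep [0,1,6,8,9,10] (.node (.cons (.leaf 3 [(2,1),(7,2),(8,1)]) (.cons (.leaf 1 [(2,1),(7,1),(3,1)]) (.cons (.leaf 3 [(2,1),(7,2),(8,1),(3,1)]) (.cons (.leaf 1 [(8,1),(4,2)]) (.cons (.leaf 1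 [(9,1)]) (.cons (.leaf 1 [(0,1),(7,1),(9,1),(8,1)]) .nil)))))))) .nil)))))))) (.cons (.leaf 1 []) (.cons (.keep [1,3,6,7,10] (.node (.cons (.leaf 1 [(4,1)]) (.cons (.leaf 2 [(2,2),(6,1),(8,1)]) (.cons (.keep [0,2,6,8,9,10] (.node (.cons (.leaf 3 [(2,1),(7,2),(8,1)]) (.cons (.leaf 1 [(2,1),(3,1)]) (.cons (.leaf 3 [(2,1),(7,2),(8,1),(3,1)]) (.cons (.leaf 1 [(8,1),(4,2),(7,2)]) (.cons (.leaf 1 [(9,1)]) (.cons (.leaf 1 [(0,1),(9,1),(7,1),(8,1)]) .nil)))))))) (.cons (.leaf 1 [(4,1)]) (.cons (.leaf 1 [(9,1),(6,1),(8,1)]) (.cons (.keep [0,1,6,8,9,10] (.node (.cons (.leaf 2 [(2,1),(10,1),(8,1)]) (.cons (.leaf 1 [(2,1),(3,1)]) (.cons (.leaf 1 [(2,1),(0,1),(8,1),(3,1)]) (.cons (.leaf 2 [(9,2),(10,1),(8,1)]) (.cons (.leaf 1 [(9,1)]) (.cons (.leaf 1 [(0,1),(8,1),(9,1)]) .nil)))))))) .nil))))))))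 .nil)))))))) (.cons (.keep [2,6,8,9] (.node (.cons (.leaf 1 [(2,1),(6,1),(9,1)]) (.cons (.leaf 1 [(2,1)]) (.cons (.keep [2,6,7,8,9] (.node (.cons (.leaf 1 [(4,1),(6,1)]) (.cons (.leaf 2 [(2,2),(7,1)]) (.cons (.leaf 1 [(2,1),(10,1),(7,1),(6,1)]) (.cons (.leaf 1 [(4,1),(6,1)]) (.cons (.leaf 1 [(8,1)]) (.cons (.keep [6,7,8,9,10] (.node (.cons (.leaf 2 [(2,1),(6,1),(8,1)]) (.cons (.leaf 1 [(2,1),(6,1),(3,1)]) (.cons (.leaf 1 [(2,1),(6,1),(0,1),(3,1)]) (.cons (.leaf 2 [(7,1),(8,1)]) (.cons (.leaf 1 [(7,1)]) (.cons (.leaf 1 [(0,1),(7,1)]) .nil)))))))) .nil)))))))) (.cons (.leaf 1 [(6,1),(9,1)]) (.cons (.leaf 1 []) (.cons (.keep [0,6,7,9] (.node (.cons (.leaf 1 [(4,1)]) (.cons (.leaf 1 [(2,1),(8,1)]) (.cons (.leaf 1 [(2,1),(9,1),(7,1)]) (.cons (.leaf 1 [(4,1)]) (.cons (.leaf 1 [(8,1)]) (.cons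 (.keep [0,6,7,8,9] (.node (.cons (.leaf 2 [(2,1),(9,1)]) (.cons (.leaf 1 [(2,1),(3,1)]) (.cons (.leaf 2 [(2,1),(9,1)]) (.cons (.leaf 1 [(4,1),(9,1)]) (.cons (.leaf 1 [(8,1)]) (.cons (.leaf 1 [(10,1),(0,1),(9,1),(8,1)]) .nil)))))))) .nil)))))))) .nil)))))))) (.cons (.keep [1,4,5,6,8] (.node (.cons (.leaf 1 [(7,1)]) (.cons (.leaf 1 [(2,1)]) (.cons (.keep [2,6,7,9,10] (.node (.cons (.leaf 1 [(4,1),(6,1)]) (.cons (.leaf 1 [(2,1),(8,1)]) (.cons (.leaf 1 [(2,1),(8,1)]) (.cons (.leaf 1 [(4,1),(6,1)]) (.cons (.leaf 1 [(9,1)]) (.cons (.keep [6,7,8,9,10] (.node (.cons (.leaf 2 [(2,1),(6,1),(9,1)]) (.cons (.leaf 1 [(2,1),(6,1),(3,1)]) (.cons (.leaf 1 [(2,1),(6,1),(0,1),(3,1)]) (.cons (.leaf 1 [(4,1),(9,1)]) (.cons (.leaf 1 [(8,1),(9,1)]) (.cons (.leaf 1 [(0,1),(9,1),(8,1)]) .nil)))))))) .nil))))))))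 (.cons (.leaf 1 [(7,1),(1,1)]) (.cons (.leaf 1 []) (.cons (.keep [1,6,7,8,9,10] (.node (.cons (.leaf 1 [(4,1)]) (.cons (.leaf 1 [(2,1),(6,1),(8,1)]) (.cons (.leaf 1 [(2,1),(8,1),(6,1)]) (.cons (.leaf 1 [(4,1)]) (.cons (.leaf 1 [(10,1)]) (.cons (.keep [0,6,7,8,10,11] (.node (.cons (.leaf 2 [(2,1),(10,1)]) (.cons (.leaf 1 [(2,1),(3,1)]) (.cons (.leaf 1 [(2,1),(0,1),(7,1),(3,1)]) (.cons (.leaf 1 [(4,1),(10,1)]) (.cons (.leaf 1 [(9,1),(10,1)]) (.cons (.leaf 1 [(0,1),(10,1),(7,1),(9,1)]) .nil)))))))) .nil)))))))) .nil)))))))) (.cons (.keep [1,5,6,7,8] (.node (.cons (.keep [2,5,6,9,10] (.node (.cons (.leaf 3 [(6,1),(9,1)]) (.cons (.leaf 2 [(2,1),(9,1)]) (.cons (.keep [2,6,8,9,10] (.node (.cons (.leaf 2 [(4,1),(7,1)]) (.cons (.leaf 2 [(7,1)]) (.cons (.leaf 2 [(7,1),(4,1)]) (.cons (.leaf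 1 [(4,2),(6,1)]) (.cons (.leaf 1 [(9,1)]) (.cons (.leaf 1 [(0,1),(9,1)]) .nil)))))))) (.cons (.leaf 1 [(1,1),(4,1),(6,1)]) (.cons (.leaf 2 [(9,1)]) (.cons (.keep [0,1,6,8,9,10] (.node (.cons (.leaf 2 [(8,1),(7,1),(4,1)]) (.cons (.leaf 2 [(8,1),(7,1)]) (.cons (.leaf 3 [(3,1),(8,2),(2,1),(7,2)]) (.cons (.leaf 1 [(4,2)]) (.cons (.leaf 1 [(10,1)]) (.cons (.leaf 1 [(0,1),(10,1),(7,1)]) .nil)))))))) .nil)))))))) (.cons (.leaf 1 [(2,1)]) (.cons (.keep [2,3,6,8,9] (.node (.cons (.leaf 1 [(4,1),(6,1)]) (.cons (.leaf 1 [(2,1),(9,1)]) (.cons (.keep [0,2,6,8,9,10] (.node (.cons (.leaf 3 [(7,2),(8,2),(2,1)]) (.cons (.leaf 2 [(7,2),(8,1)]) (.cons (.leaf 3 [(7,2),(3,1),(2,1),(8,2)]) (.cons (.leaf 1 [(4,2),(7,2)]) (.cons (.leaf 1 [(11,1)]) (.cons (.leaf 1 [(11,1),(7,1),(0,1)]) .nil)))))))) (.cons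 (.leaf 1 [(4,1),(6,1)]) (.cons (.leaf 1 [(9,1)]) (.cons (.keep [1,6,8,9,10] (.node (.cons (.leaf 2 [(2,1),(7,1),(9,1)]) (.cons (.leaf 1 [(2,1),(7,1),(3,1)]) (.cons (.leaf 1 [(2,1),(7,1),(0,1),(3,1)]) (.cons (.leaf 1 [(4,1),(9,1)]) (.cons (.leaf 1 [(10,1)]) (.cons (.leaf 1 [(0,1),(10,1)]) .nil)))))))) .nil)))))))) (.cons (.keep [1,4,5,6,9] (.node (.cons (.leaf 3 [(10,1),(6,1)]) (.cons (.leaf 2 [(10,1),(2,1),(6,1)]) (.cons (.keep [0,2,6,7,9,10] (.node (.cons (.leaf 2 [(4,1),(8,1)]) (.cons (.leaf 2 [(8,1)]) (.cons (.leaf 2 [(8,1),(4,1)]) (.cons (.leaf 1 [(8,1),(4,2),(7,1)]) (.cons (.leaf 1 [(11,1)]) (.cons (.leaf 1 [(0,1),(11,1),(8,1)]) .nil)))))))) (.cons (.leaf 1 [(4,1),(1,1)]) (.cons (.leaf 2 [(10,1),(6,1)]) (.cons (.keep [0,1,6,7,9,10] (.node (.cons (.leaf 3 [(2,1),(7,2),(8,1)])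 (.cons (.leaf 1 [(2,1),(7,1),(3,1)]) (.cons (.leaf 3 [(2,1),(7,2),(8,1),(3,1)]) (.cons (.leaf 1 [(8,1),(4,2)]) (.cons (.leaf 1 [(11,1)]) (.cons (.leaf 1 [(0,1),(7,1),(11,1),(8,1)]) .nil)))))))) .nil)))))))) (.cons (.leaf 1 []) (.cons (.keep [1,3,6,7,9] (.node (.cons (.leaf 1 [(4,1)]) (.cons (.leaf 2 [(2,2),(6,1),(10,1)]) (.cons (.keep [0,2,6,8,9,10] (.node (.cons (.leaf 3 [(2,1),(7,2),(8,1)]) (.cons (.leaf 1 [(2,1),(3,1)]) (.cons (.leaf 3 [(2,1),(7,2),(8,1),(3,1)]) (.cons (.leaf 1 [(8,1),(4,2),(7,2)]) (.cons (.leaf 1 [(11,1)]) (.cons (.leaf 1 [(0,1),(11,1),(7,1),(8,1)]) .nil)))))))) (.cons (.leaf 1 [(4,1)]) (.cons (.leaf 1 [(9,1),(6,1),(10,1)]) (.cons (.keep [0,1,6,8,9,10] (.node (.cons (.leaf 2 [(2,1),(10,1),(8,1)]) (.cons (.leaf 1 [(2,1),(3,1)]) (.cons (.leaf 1 [(2,1),(0,1),(8,1),(3,1)])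 (.cons (.leaf 2 [(11,2),(10,1),(8,1)]) (.cons (.leaf 1 [(11,1)]) (.cons (.leaf 1 [(0,1),(8,1),(11,1)]) .nil)))))))) .nil)))))))) .nil)))))))) (.cons (.keep [1,4,6,7,8] (.node (.cons (.leaf 1 [(2,1),(7,1)]) (.cons (.leaf 1 [(2,1)]) (.cons (.keep [2,6,7,8,10] (.node (.cons (.leaf 1 [(4,1),(6,1)]) (.cons (.leaf 1 [(2,1),(8,1),(6,1)]) (.cons (.leaf 1 [(2,1),(8,1),(6,1)]) (.cons (.leaf 1 [(4,1),(6,1)]) (.cons (.leaf 1 [(9,1)]) (.cons (.keep [6,7,8,9,10] (.node (.cons (.leaf 2 [(2,1),(6,1),(9,1)]) (.cons (.leaf 1 [(2,1),(6,1),(3,1)]) (.cons (.leaf 1 [(2,1),(6,1),(0,1),(3,1)]) (.cons (.leaf 1 [(9,1),(4,1)]) (.cons (.leaf 1 [(8,1),(6,1),(9,1)]) (.cons (.leaf 1 [(0,1),(6,1),(9,1),(8,1)]) .nil)))))))) .nil)))))))) (.cons (.leaf 1 [(7,1)]) (.cons (.leaf 1 []) (.cons (.keep [6,7,8,9,10] (.node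 (.cons (.leaf 1 [(4,1)]) (.cons (.leaf 1 [(2,1),(7,1)]) (.cons (.leaf 1 [(2,1),(7,1)]) (.cons (.leaf 1 [(4,1)]) (.cons (.leaf 1 [(8,1)]) (.cons (.keep [0,6,7,8,10] (.node (.cons (.leaf 2 [(2,1),(9,1)]) (.cons (.leaf 1 [(2,1),(3,1)]) (.cons (.leaf 2 [(2,1),(9,1)]) (.cons (.leaf 1 [(4,1),(9,1)]) (.cons (.leaf 1 [(8,1),(6,1),(9,1)]) (.cons (.leaf 1 [(0,1),(9,1),(8,1)]) .nil)))))))) .nil)))))))) .nil)))))))) .nil)))))))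

theorem c_10_28_0 : Concl 10 28 z_10_28_0 h_10_28_0 .nd := piece _ hP_nil t_10_28_0 _ _ (by
  decide +kernel)

def z_10_28_1 : F := ⟨0, 0, 0, -1, 2⟩

def h_10_28_1 : List F := [⟨0, 0, 0, -2, 2⟩, ⟨1, 0, -1, 0, 0⟩, ⟨0, -1, 0, 1, 0⟩, ⟨0, 0, -1, 1, 0⟩,
  ⟨1, -1, 0, 0, 0⟩, ⟨-1, 0, 0, 0, 1⟩]

def t_10_28_1 : T := (.node (.cons (.keep [2,5,9,10,11] (.node (.cons (.leaf 1 [(10,1)]) (.cons (.leaf 1 [(2,1),(8,1),(10,1)]) (.cons (.keep [2,6,8,9,10] (.node (.cons (.leaf 1 [(6,1),(8,2)]) (.cons (.leaf 1 [(2,1),(8,1)]) (.cons (.leaf 1 [(2,1),(10,1)]) (.cons (.leaf 1 [(6,1),(8,2),(1,1)]) (.cons (.leaf 1 [(8,1)]) (.cons (.keep [0,4,6,8,10] (.node (.cons (.leaf 1 [(2,1),(7,1)]) (.cons (.leaf 1 [(2,1)]) (.cons (.leaf 2 [(2,1),(10,1),(9,2),(8,1)]) (.cons (.leaf 1 [(7,1)]) (.cons (.leaf 1 []) (.cons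 (.leaf 1 [(10,1),(9,1),(0,1)]) .nil)))))))) .nil)))))))) (.cons (.leaf 1 [(10,1),(1,1)]) (.cons (.leaf 1 [(10,1),(8,1)]) (.cons (.keep [1,6,7,8,9,10] (.node (.cons (.leaf 1 [(8,1),(9,2)]) (.cons (.leaf 1 [(2,2),(6,1),(3,1)]) (.cons (.leaf 1 [(2,1),(6,1),(11,1)]) (.cons (.leaf 1 [(8,1),(9,2),(1,1)]) (.cons (.leaf 1 [(9,1)]) (.cons (.keep [4,6,7,8,9,11] (.node (.cons (.leaf 1 [(2,1),(6,1)]) (.cons (.leaf 1 [(2,1)]) (.cons (.leaf 2 [(2,1),(10,2),(11,1)]) (.cons (.leaf 1 [(6,1)]) (.cons (.leaf 1 []) (.cons (.leaf 1 [(7,1),(11,1),(10,1),(0,1)]) .nil)))))))) .nil)))))))) .nil)))))))) (.cons (.keep [2,3,5,6,8] (.node (.cons (.keep [2,5,6,9,10] (.node (.cons (.leaf 3 [(6,1),(10,2)]) (.cons (.leaf 2 [(2,1),(10,1)]) (.cons (.keep [0,2,6,9,10] (.node (.cons (.leaf 3 [(2,1),(7,1),(10,1)]) (.cons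 (.leaf 1 [(2,1)]) (.cons (.leaf 1 [(2,1),(10,1),(0,1)]) (.cons (.leaf 3 [(7,1),(10,1)]) (.cons (.leaf 1 []) (.cons (.leaf 1 [(10,1),(0,1)]) .nil)))))))) (.cons (.leaf 3 [(6,1),(10,2),(1,1)]) (.cons (.leaf 2 [(10,1)]) (.cons (.keep [1,6,7,8,9,10] (.node (.cons (.leaf 3 [(2,1),(11,1)]) (.cons (.leaf 1 [(2,1)]) (.cons (.leaf 1 [(2,1),(6,1),(11,1),(0,1)]) (.cons (.leaf 3 [(11,1)]) (.cons (.leaf 1 []) (.cons (.leaf 1 [(6,1),(11,1),(0,1)]) .nil)))))))) .nil)))))))) (.cons (.leaf 1 [(2,1),(10,1)]) (.cons (.keep [2,3,6,7,10] (.node (.cons (.leaf 1 [(6,1),(9,2)]) (.cons (.leaf 1 [(2,1),(9,1)]) (.cons (.keep [2,6,7,8,9,10] (.node (.cons (.leaf 2 [(2,1),(6,1),(10,1)]) (.cons (.leaf 1 [(2,1)]) (.cons (.leaf 1 [(2,1),(10,2),(7,1)]) (.cons (.leaf 2 [(6,1),(10,1)]) (.cons (.leaf 1 []) (.cons (.leaf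 1 [(11,1),(6,1),(0,1)]) .nil)))))))) (.cons (.leaf 1 [(6,1),(9,2),(1,1)]) (.cons (.leaf 1 [(9,1)]) (.cons (.keep [0,1,6,9,10] (.node (.cons (.leaf 2 [(2,1),(9,1)]) (.cons (.leaf 1 [(2,1)]) (.cons (.leaf 1 [(2,1),(7,1),(9,2),(8,1)]) (.cons (.leaf 2 [(9,1)]) (.cons (.leaf 1 []) (.cons (.leaf 1 [(10,1),(0,1)]) .nil)))))))) .nil)))))))) (.cons (.keep [1,5,6,9,10] (.node (.cons (.leaf 3 [(10,2),(6,1)]) (.cons (.leaf 1 [(2,2),(6,1),(3,1)]) (.cons (.keep [0,2,6,9,10] (.node (.cons (.leaf 3 [(2,1),(7,2),(8,1)]) (.cons (.leaf 1 [(2,1)]) (.cons (.leaf 3 [(2,1),(8,1),(10,2)]) (.cons (.leaf 3 [(8,1),(7,2),(1,1)]) (.cons (.leaf 1 []) (.cons (.leaf 1 [(8,1),(10,1),(0,1)]) .nil)))))))) (.cons (.leaf 3 [(10,2),(6,1),(1,1)]) (.cons (.leaf 1 [(7,1),(6,1),(3,1)]) (.cons (.keep [0,1,6,9,10] (.node (.cons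 (.leaf 3 [(2,1),(10,1),(8,1)]) (.cons (.leaf 1 [(2,1)]) (.cons (.leaf 3 [(2,1),(7,1),(8,1),(10,2)]) (.cons (.leaf 3 [(8,1),(10,1)]) (.cons (.leaf 1 []) (.cons (.leaf 1 [(8,1),(7,1),(10,1),(0,1)]) .nil)))))))) .nil)))))))) (.cons (.leaf 1 [(10,1)]) (.cons (.keep [1,3,6,8,10] (.node (.cons (.leaf 1 [(9,2),(6,1)]) (.cons (.leaf 1 [(2,2),(6,1),(3,1)]) (.cons (.keep [0,2,6,9,10] (.node (.cons (.leaf 3 [(2,1),(7,2),(8,1)]) (.cons (.leaf 1 [(2,1)]) (.cons (.leaf 1 [(2,1),(8,1),(9,2)]) (.cons (.leaf 3 [(8,1),(7,2),(1,1)]) (.cons (.leaf 1 []) (.cons (.leaf 1 [(8,1),(10,1),(7,1),(0,1)]) .nil)))))))) (.cons (.leaf 1 [(9,2),(6,1),(1,1)]) (.cons (.leaf 1 [(9,1),(6,1)]) (.cons (.keep [0,1,6,9,10] (.node (.cons (.leaf 2 [(2,1),(9,1),(8,1)]) (.cons (.leaf 1 [(2,1)]) (.cons (.leaf 1 [(2,1),(7,1),(8,1),(9,2)])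 (.cons (.leaf 2 [(8,1),(9,1)]) (.cons (.leaf 1 []) (.cons (.leaf 1 [(8,1),(10,1),(0,1)]) .nil)))))))) .nil)))))))) .nil)))))))) (.cons (.keep [2,8,9,10,11] (.node (.cons (.leaf 1 [(2,1),(10,1)]) (.cons (.leaf 1 [(2,1),(7,1)]) (.cons (.keep [2,6,8,9,10] (.node (.cons (.leaf 1 [(6,1),(8,2)]) (.cons (.leaf 1 [(2,1),(8,1)]) (.cons (.leaf 1 [(2,1),(6,1),(10,1)]) (.cons (.leaf 1 [(6,1),(8,2),(1,1)]) (.cons (.leaf 1 [(8,1)]) (.cons (.keep [0,6,8,9,10] (.node (.cons (.leaf 2 [(2,1),(8,1)]) (.cons (.leaf 1 [(2,1)]) (.cons (.leaf 2 [(2,1),(10,1),(8,2),(7,2)]) (.cons (.leaf 2 [(8,1)]) (.cons (.leaf 1 []) (.cons (.leaf 1 [(10,1),(7,1),(8,1),(0,1)]) .nil)))))))) .nil)))))))) (.cons (.leaf 1 [(10,1)]) (.cons (.leaf 1 [(7,1)]) (.cons (.keep [6,7,8,9,10] (.node (.cons (.leaf 1 [(4,1),(7,1)]) (.cons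 (.leaf 1 [(2,1),(8,1)]) (.cons (.leaf 1 [(2,1),(10,1)]) (.cons (.leaf 1 [(4,1),(7,1)]) (.cons (.leaf 1 [(8,1)]) (.cons (.keep [0,6,7,8,9,10] (.node (.cons (.leaf 2 [(2,1),(9,1)]) (.cons (.leaf 1 [(2,1)]) (.cons (.leaf 2 [(2,1),(8,1),(9,1)]) (.cons (.leaf 2 [(9,1)]) (.cons (.leaf 1 []) (.cons (.leaf 1 [(11,1),(9,1),(0,1)]) .nil)))))))) .nil)))))))) .nil)))))))) (.cons (.keep [1,4,5,7,9] (.node (.cons (.leaf 1 [(7,1),(6,1)]) (.cons (.leaf 1 [(2,1),(6,1)]) (.cons (.keep [0,2,6,7,10] (.node (.cons (.leaf 3 [(2,2),(8,2),(7,1)]) (.cons (.leaf 2 [(2,2),(8,1)]) (.cons (.leaf 1 [(9,1),(8,1),(2,1)]) (.cons (.leaf 1 [(4,1),(8,1),(7,1)]) (.cons (.leaf 1 [(10,1)]) (.cons (.keep [0,6,7,8,9,10] (.node (.cons (.leaf 1 [(2,1),(7,1),(9,1)]) (.cons (.leaf 1 [(2,1)]) (.cons (.leaf 1 [(2,1),(9,1),(0,1)])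 (.cons (.leaf 1 [(7,1),(9,1)]) (.cons (.leaf 1 []) (.cons (.leaf 1 [(9,1),(0,1)]) .nil)))))))) .nil)))))))) (.cons (.leaf 1 [(7,1),(6,1),(1,1)]) (.cons (.leaf 1 [(6,1)]) (.cons (.keep [0,1,6,7,8,10] (.node (.cons (.leaf 3 [(2,2),(7,1),(8,2)]) (.cons (.leaf 1 [(2,2),(7,1),(3,1)]) (.cons (.leaf 1 [(2,1),(7,1),(9,1),(8,1)]) (.cons (.leaf 1 [(4,1),(8,1)]) (.cons (.leaf 1 [(11,1)]) (.cons (.keep [0,6,7,8,9,11] (.node (.cons (.leaf 1 [(2,1),(7,1),(8,1)]) (.cons (.leaf 1 [(2,1)]) (.cons (.leaf 1 [(2,1),(9,1),(8,1),(0,1)]) (.cons (.leaf 1 [(8,1),(7,1),(1,1)]) (.cons (.leaf 1 []) (.cons (.leaf 1 [(8,1),(9,1),(0,1)]) .nil)))))))) .nil)))))))) .nil)))))))) (.cons (.keep [1,3,5,6] (.node (.cons (.keep [2,5,6,9] (.node (.cons (.leaf 3 [(6,1),(8,2)]) (.cons (.leaf 2 [(2,1),(8,1)]) (.cons (.keep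 [0,2,6,8,9] (.node (.cons (.leaf 3 [(2,1),(7,1),(9,1)]) (.cons (.leaf 1 [(2,1)]) (.cons (.leaf 1 [(2,1),(9,1),(0,1)]) (.cons (.leaf 3 [(7,1),(9,1)]) (.cons (.leaf 1 []) (.cons (.leaf 1 [(9,1),(0,1)]) .nil)))))))) (.cons (.leaf 3 [(6,1),(8,2),(1,1)]) (.cons (.leaf 2 [(8,1)]) (.cons (.keep [0,1,6,8,9] (.node (.cons (.leaf 3 [(2,1),(9,1)]) (.cons (.leaf 1 [(2,1)]) (.cons (.leaf 1 [(2,1),(7,1),(9,1),(0,1)]) (.cons (.leaf 3 [(9,1)]) (.cons (.leaf 1 []) (.cons (.leaf 1 [(7,1),(9,1),(0,1)]) .nil)))))))) .nil)))))))) (.cons (.leaf 1 [(2,1),(6,1)]) (.cons (.keep [0,2,3,6,7] (.node (.cons (.leaf 3 [(2,2),(9,2),(7,1)]) (.cons (.leaf 2 [(2,2),(9,1)]) (.cons (.keep [0,2,7,9,10] (.node (.cons (.leaf 3 [(2,1),(7,2),(9,1)]) (.cons (.leaf 1 [(2,1)]) (.cons (.leaf 1 [(7,1),(2,1),(9,1),(0,1)]) (.cons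 (.leaf 3 [(7,2),(9,1)]) (.cons (.leaf 1 []) (.cons (.leaf 1 [(9,1),(7,1),(0,1)]) .nil)))))))) (.cons (.leaf 1 [(4,1),(9,1),(7,1)]) (.cons (.leaf 1 [(10,1)]) (.cons (.keep [0,1,7,9,10] (.node (.cons (.leaf 2 [(2,1),(10,1)]) (.cons (.leaf 1 [(2,1)]) (.cons (.leaf 1 [(2,1),(9,1),(0,1)]) (.cons (.leaf 2 [(10,1)]) (.cons (.leaf 1 []) (.cons (.leaf 1 [(9,1),(0,1)]) .nil)))))))) .nil)))))))) (.cons (.keep [1,5,6,9] (.node (.cons (.leaf 3 [(8,2),(6,1)]) (.cons (.leaf 1 [(2,2),(6,1),(3,1)]) (.cons (.keep [0,2,6,8,9] (.node (.cons (.leaf 3 [(2,1),(7,2),(8,1)]) (.cons (.leaf 1 [(2,1)]) (.cons (.leaf 3 [(2,1),(8,1),(9,2)]) (.cons (.leaf 3 [(8,1),(7,2),(1,1)]) (.cons (.leaf 1 []) (.cons (.leaf 1 [(8,1),(9,1),(0,1)]) .nil)))))))) (.cons (.leaf 3 [(8,2),(6,1),(1,1)]) (.cons (.leaf 1 [(7,1),(6,1),(3,1)])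 (.cons (.keep [0,1,6,8,9] (.node (.cons (.leaf 3 [(2,1),(9,1),(8,1)]) (.cons (.leaf 1 [(2,1)]) (.cons (.leaf 3 [(2,1),(7,1),(8,1),(9,2)]) (.cons (.leaf 3 [(8,1),(9,1)]) (.cons (.leaf 1 []) (.cons (.leaf 1 [(8,1),(7,1),(9,1),(0,1)]) .nil)))))))) .nil)))))))) (.cons (.leaf 1 [(6,1)]) (.cons (.keep [0,1,3,6,8] (.node (.cons (.leaf 3 [(2,2),(7,1),(9,2)]) (.cons (.leaf 1 [(2,2),(7,1),(3,1)]) (.cons (.keep [0,2,7,9,10] (.node (.cons (.leaf 3 [(2,1),(7,2),(8,1)]) (.cons (.leaf 1 [(2,1)]) (.cons (.leaf 3 [(7,2),(2,1),(8,1),(9,2)]) (.cons (.leaf 3 [(8,1),(7,2),(1,1)]) (.cons (.leaf 1 []) (.cons (.leaf 1 [(8,1),(9,1),(7,1),(0,1)]) .nil)))))))) (.cons (.leaf 1 [(4,1),(9,1)]) (.cons (.leaf 1 [(10,1),(7,1)]) (.cons (.keep [0,1,7,9,10] (.node (.cons (.leaf 2 [(2,1),(10,1),(8,1)]) (.cons (.leaf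 1 [(2,1)]) (.cons (.leaf 1 [(2,1),(9,1),(8,1),(0,1)]) (.cons (.leaf 2 [(8,1),(10,1)]) (.cons (.leaf 1 []) (.cons (.leaf 1 [(8,1),(9,1),(0,1)]) .nil)))))))) .nil)))))))) .nil)))))))) (.cons (.keep [0,1,4,7,9,10] (.node (.cons (.leaf 1 [(2,1),(7,1),(8,1)]) (.cons (.leaf 1 [(2,1),(7,1)]) (.cons (.keep [0,2,7,8,10] (.node (.cons (.leaf 3 [(2,2),(8,2),(7,1)]) (.cons (.leaf 2 [(2,2),(8,1)]) (.cons (.leaf 1 [(7,1),(9,1),(8,1),(2,1)]) (.cons (.leaf 1 [(4,1),(8,1),(7,1)]) (.cons (.leaf 1 [(10,1)]) (.cons (.keep [0,6,7,8,9,10] (.node (.cons (.leaf 1 [(2,1),(7,1),(9,1)]) (.cons (.leaf 1 [(2,1)]) (.cons (.leaf 1 [(2,1),(9,1),(0,1)]) (.cons (.leaf 1 [(7,1),(9,1)]) (.cons (.leaf 1 []) (.cons (.leaf 1 [(9,1),(0,1)]) .nil)))))))) .nil)))))))) (.cons (.leaf 1 [(7,1),(8,1)]) (.cons (.leaf 1 [(7,1)])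 (.cons (.keep [0,7,8,10] (.node (.cons (.leaf 1 [(4,1),(7,1)]) (.cons (.leaf 1 [(2,1),(8,1),(7,1)]) (.cons (.leaf 1 [(2,1),(8,1),(7,1)]) (.cons (.leaf 1 [(4,1),(7,1)]) (.cons (.leaf 1 [(9,1)]) (.cons (.keep [0,6,7,8,9] (.node (.cons (.leaf 2 [(2,1),(10,1)]) (.cons (.leaf 1 [(2,1)]) (.cons (.leaf 2 [(2,1),(8,1),(10,1)]) (.cons (.leaf 2 [(10,1)]) (.cons (.leaf 1 []) (.cons (.leaf 1 [(9,1),(8,1),(10,1),(0,1)]) .nil)))))))) .nil)))))))) .nil)))))))) .nil)))))))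

theorem c_10_28_1 : Concl 10 28 z_10_28_1 h_10_28_1 .nd := piece _ hP_nil t_10_28_1 _ _ (by
  decide +kernel)

def z_10_28_2 : F := ⟨1, -1, 0, 0, 1⟩

def h_10_28_2 : List F := [⟨1, 0, -1, 0, 0⟩, ⟨0, 1, -1, 0, 0⟩, ⟨0, 1, 0, -1, 0⟩, ⟨0, -1, 0, 0, 1⟩,
  ⟨1, -2, 0, 0, 1⟩]

def t_10_28_2 : T := (.node (.cons (.keep [4,5,7,9] (.leaf 0 [(0,0)])) (.cons (.keep [2,3,5,9] (.node (.cons (.keep [2,5,6,7] (.node (.cons (.leaf 1 [(6,1),(9,2)]) (.cons (.leaf 1 [(2,1),(9,1)]) (.cons (.keep [0,2,6,9] (.node (.cons (.leaf 2 [(2,1),(7,1),(9,1)]) (.cons (.leaf 1 [(2,1)]) (.cons (.leaf 1 [(2,1),(9,2),(8,1)]) (.cons (.leaf 2 [(7,1),(9,1)]) (.cons (.leaf 1 []) (.cons (.keep [0,6,7,8,9] (.node (.cons (.leaf 1 [(4,1)]) (.cons (.leaf 2 [(2,1),(10,1),(8,1)]) (.cons (.leaf 2 [(2,1),(10,1),(8,1)]) (.cons (.leaf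 1 [(4,1)]) (.cons (.leaf 1 [(10,1),(9,1)]) (.cons (.leaf 1 [(10,2),(0,1),(9,1)]) .nil)))))))) .nil)))))))) (.cons (.leaf 1 [(6,1),(9,2),(1,1)]) (.cons (.leaf 1 [(9,1)]) (.cons (.keep [1,6,7,8,9] (.node (.cons (.leaf 2 [(2,1),(10,1)]) (.cons (.leaf 1 [(2,1)]) (.cons (.leaf 1 [(2,1),(6,1),(10,2),(7,1)]) (.cons (.leaf 2 [(10,1)]) (.cons (.leaf 1 []) (.cons (.keep [0,6,7,9,10] (.node (.cons (.leaf 1 [(4,1)]) (.cons (.leaf 2 [(2,1),(10,1)]) (.cons (.leaf 2 [(2,1),(10,1)]) (.cons (.leaf 1 [(4,1)]) (.cons (.leaf 1 [(8,1),(10,1)]) (.cons (.leaf 1 [(7,1),(10,2),(0,1),(8,1)]) .nil)))))))) .nil)))))))) .nil)))))))) (.cons (.keep [2,3,5,6,8,9] (.node (.cons (.leaf 1 [(10,2),(11,1)]) (.cons (.leaf 1 [(2,2),(11,1),(3,1)]) (.cons (.keep [6,7,8,9,10,11] (.node (.cons (.leaf 1 [(8,1)]) (.cons (.leaf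 1 [(2,1)]) (.cons (.leaf 1 [(2,1),(11,1),(10,2)]) (.cons (.leaf 1 [(8,1),(1,1)]) (.cons (.leaf 1 []) (.cons (.keep [6,7,8,9,10,11] (.node (.cons (.leaf 1 [(4,1)]) (.cons (.leaf 1 [(2,1),(10,1)]) (.cons (.leaf 2 [(2,1),(11,1),(8,1),(10,2)]) (.cons (.leaf 1 [(4,1)]) (.cons (.leaf 1 [(10,1)]) (.cons (.leaf 1 [(11,1),(0,1),(10,2)]) .nil)))))))) .nil)))))))) (.cons (.leaf 1 [(10,2),(11,1),(1,1)]) (.cons (.leaf 1 [(10,1),(11,1)]) (.cons (.keep [1,6,8,9,10,11] (.node (.cons (.leaf 1 [(8,1)]) (.cons (.leaf 1 [(2,1)]) (.cons (.leaf 1 [(2,1),(6,1),(11,1),(10,2)]) (.cons (.leaf 1 [(8,1),(1,1)]) (.cons (.leaf 1 []) (.cons (.keep [6,7,8,9,10,11] (.node (.cons (.leaf 1 [(4,1)]) (.cons (.leaf 1 [(2,1),(10,1)]) (.cons (.leaf 2 [(2,1),(11,1),(10,1)]) (.cons (.leaf 1 [(4,1)]) (.cons (.leaf 1 [(10,1)])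 (.cons (.leaf 1 [(6,1),(11,1),(0,1),(10,2)]) .nil)))))))) .nil)))))))) .nil)))))))) (.cons (.keep [2,3,6,7] (.node (.cons (.leaf 1 [(6,1),(9,2)]) (.cons (.leaf 1 [(2,1),(9,1)]) (.cons (.keep [2,6,7,8,9] (.node (.cons (.leaf 2 [(2,1),(6,1),(10,1)]) (.cons (.leaf 1 [(2,1)]) (.cons (.leaf 1 [(2,1),(10,2),(7,1)]) (.cons (.leaf 2 [(6,1),(10,1)]) (.cons (.leaf 1 []) (.cons (.keep [0,6,7,8,9,10] (.node (.cons (.leaf 1 [(4,1)]) (.cons (.leaf 2 [(2,1),(11,1),(7,1)]) (.cons (.leaf 2 [(2,1),(11,1),(7,1)]) (.cons (.leaf 1 [(4,1)]) (.cons (.leaf 1 [(11,1),(8,1)]) (.cons (.leaf 1 [(11,2),(0,1),(8,1)]) .nil)))))))) .nil)))))))) (.cons (.leaf 1 [(6,1),(9,2),(1,1)]) (.cons (.leaf 1 [(9,1)]) (.cons (.keep [0,1,6,9] (.node (.cons (.leaf 2 [(2,1),(9,1)]) (.cons (.leaf 1 [(2,1)]) (.cons (.leaf 1 [(2,1),(7,1),(9,2),(8,1)])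 (.cons (.leaf 2 [(9,1)]) (.cons (.leaf 1 []) (.cons (.keep [0,6,7,8,9] (.node (.cons (.leaf 1 [(4,1)]) (.cons (.leaf 2 [(2,1),(10,1)]) (.cons (.leaf 2 [(2,1),(10,1)]) (.cons (.leaf 1 [(4,1)]) (.cons (.leaf 1 [(9,1),(10,1)]) (.cons (.leaf 1 [(8,1),(10,2),(0,1),(9,1)]) .nil)))))))) .nil)))))))) .nil)))))))) (.cons (.keep [1,4,5,6] (.node (.cons (.leaf 1 [(7,2),(6,1)]) (.cons (.leaf 1 [(2,2),(6,1),(3,1)]) (.cons (.keep [0,2,6,7] (.node (.cons (.leaf 3 [(2,1),(7,2),(8,1)]) (.cons (.leaf 1 [(2,1)]) (.cons (.leaf 1 [(2,1),(8,1),(9,2)]) (.cons (.leaf 3 [(8,1),(7,2),(1,1)]) (.cons (.leaf 1 []) (.cons (.keep [0,6,7,8,9] (.node (.cons (.leaf 1 [(4,1)]) (.cons (.leaf 1 [(9,1),(8,1)]) (.cons (.leaf 1 [(9,1),(8,1),(4,1)]) (.cons (.leaf 1 [(4,1)]) (.cons (.leaf 1 [(10,1)]) (.cons (.leaf 1 [(9,1),(0,1),(10,2)])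 .nil)))))))) .nil)))))))) (.cons (.leaf 1 [(7,2),(6,1),(1,1)]) (.cons (.leaf 1 [(7,1),(6,1)]) (.cons (.keep [0,1,6,7,8] (.node (.cons (.leaf 2 [(2,1),(9,1),(8,1)]) (.cons (.leaf 1 [(2,1)]) (.cons (.leaf 1 [(2,1),(7,1),(8,1),(9,2)]) (.cons (.leaf 2 [(8,1),(9,1)]) (.cons (.leaf 1 []) (.cons (.keep [0,6,7,8,9] (.node (.cons (.leaf 1 [(4,1)]) (.cons (.leaf 1 [(9,1)]) (.cons (.leaf 1 [(9,1),(4,1)]) (.cons (.leaf 1 [(4,1)]) (.cons (.leaf 1 [(10,1)]) (.cons (.leaf 1 [(8,1),(9,1),(0,1),(10,2)]) .nil)))))))) .nil)))))))) .nil)))))))) (.cons (.keep [3,5,6,7,8] (.node (.cons (.leaf 1 [(10,1),(9,1)]) (.cons (.leaf 1 [(2,1),(9,1)]) (.cons (.keep [0,6,7,9,10] (.node (.cons (.leaf 1 [(8,1)]) (.cons (.leaf 1 [(2,1)]) (.cons (.leaf 1 [(2,1),(9,1),(10,1)]) (.cons (.leaf 1 [(8,1),(1,1)]) (.cons (.leaf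 1 []) (.cons (.keep [0,6,7,8,9,10] (.node (.cons (.leaf 1 [(4,1)]) (.cons (.leaf 1 [(10,1),(9,1)]) (.cons (.leaf 1 [(10,1),(9,1),(4,1)]) (.cons (.leaf 1 [(4,1)]) (.cons (.leaf 1 [(11,1)]) (.cons (.leaf 1 [(10,1),(0,1),(11,1)]) .nil)))))))) .nil)))))))) (.cons (.leaf 1 [(10,1),(9,1),(1,1)]) (.cons (.leaf 1 [(9,1)]) (.cons (.keep [0,1,7,9,10] (.node (.cons (.leaf 1 [(8,1)]) (.cons (.leaf 1 [(2,1)]) (.cons (.leaf 1 [(2,1),(7,1),(9,1),(10,1)]) (.cons (.leaf 1 [(8,1),(1,1)]) (.cons (.leaf 1 []) (.cons (.keep [0,6,7,8,9,10] (.node (.cons (.leaf 1 [(4,1)]) (.cons (.leaf 2 [(2,1),(10,1)]) (.cons (.leaf 2 [(2,1),(10,1)]) (.cons (.leaf 1 [(4,1)]) (.cons (.leaf 1 [(11,1)]) (.cons (.leaf 1 [(8,1),(10,1),(0,1),(11,1)]) .nil)))))))) .nil)))))))) .nil)))))))) (.cons (.keep [1,3,6,8] (.node (.cons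 (.leaf 1 [(9,2),(6,1)]) (.cons (.leaf 1 [(2,2),(6,1),(3,1)]) (.cons (.keep [0,2,6,7,9] (.node (.cons (.leaf 3 [(2,1),(7,2),(8,1)]) (.cons (.leaf 1 [(2,1)]) (.cons (.leaf 1 [(2,1),(8,1),(10,2)]) (.cons (.leaf 3 [(8,1),(7,2),(1,1)]) (.cons (.leaf 1 []) (.cons (.keep [0,6,7,8,9,10] (.node (.cons (.leaf 1 [(4,1)]) (.cons (.leaf 1 [(9,1),(8,1)]) (.cons (.leaf 1 [(9,1),(8,1),(4,1)]) (.cons (.leaf 1 [(4,1)]) (.cons (.leaf 1 [(11,1)]) (.cons (.leaf 1 [(9,1),(0,1),(11,2)]) .nil)))))))) .nil)))))))) (.cons (.leaf 1 [(9,2),(6,1),(1,1)]) (.cons (.leaf 1 [(9,1),(6,1)]) (.cons (.keep [0,1,6,9] (.node (.cons (.leaf 2 [(2,1),(9,1),(8,1)]) (.cons (.leaf 1 [(2,1)]) (.cons (.leaf 1 [(2,1),(7,1),(8,1),(9,2)]) (.cons (.leaf 2 [(8,1),(9,1)]) (.cons (.leaf 1 []) (.cons (.keep [0,6,7,8,9] (.node (.cons (.leaf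 1 [(4,1)]) (.cons (.leaf 1 [(9,1)]) (.cons (.leaf 1 [(9,1),(4,1)]) (.cons (.leaf 1 [(4,1)]) (.cons (.leaf 1 [(10,1)]) (.cons (.leaf 1 [(8,1),(9,1),(0,1),(10,2)]) .nil)))))))) .nil)))))))) .nil)))))))) .nil)))))))) (.cons (.keep [0,2,3,4,7,9] (.leaf 0 [(1,0)])) (.cons (.keep [1,4,5,7,10] (.node (.cons (.leaf 1 [(7,2)]) (.cons (.leaf 1 [(3,1),(2,2)]) (.cons (.keep [2,6,7,9,10] (.node (.cons (.leaf 1 [(2,1),(8,2)]) (.cons (.leaf 1 [(2,1),(8,2)]) (.cons (.leaf 1 [(2,1),(8,2)]) (.cons (.leaf 1 [(1,1),(4,2),(6,2)]) (.cons (.leaf 1 [(8,1),(9,1)]) (.cons (.keep [6,7,8,9,10] (.node (.cons (.leaf 1 [(6,1),(4,1)]) (.cons (.leaf 1 [(6,1)]) (.cons (.leaf 1 [(6,1),(4,1)]) (.cons (.leaf 1 [(4,3),(9,1)]) (.cons (.leaf 1 [(8,2),(9,1)]) (.cons (.leaf 1 [(0,1),(9,1),(8,3)]) .nil)))))))) .nil))))))))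 (.cons (.leaf 1 [(7,2),(1,1)]) (.cons (.leaf 1 [(7,1)]) (.cons (.keep [1,6,7,8,9,10] (.node (.cons (.leaf 1 [(4,1),(8,1)]) (.cons (.leaf 1 [(2,1),(6,1),(8,2)]) (.cons (.leaf 1 [(2,1),(6,1),(8,2)]) (.cons (.leaf 1 [(8,1),(4,1)]) (.cons (.leaf 1 [(8,1),(10,1)]) (.cons (.keep [6,7,8,9,10,11] (.node (.cons (.leaf 1 [(4,1)]) (.cons (.leaf 1 []) (.cons (.leaf 1 [(4,1)]) (.cons (.leaf 1 [(10,1),(4,3)]) (.cons (.leaf 1 [(10,1),(8,2)]) (.cons (.leaf 1 [(0,1),(8,3),(10,1),(6,1)]) .nil)))))))) .nil)))))))) .nil)))))))) (.cons (.keep [1,5,7,8,9] (.node (.cons (.keep [2,5,6,9,10] (.node (.cons (.leaf 3 [(6,1),(9,1)]) (.cons (.leaf 2 [(2,1),(9,1)]) (.cons (.keep [2,6,8,9,10] (.node (.cons (.leaf 2 [(4,1),(7,1)]) (.cons (.leaf 2 [(7,1)]) (.cons (.leaf 2 [(7,1),(4,1)]) (.cons (.leaf 1 [(4,2),(6,1)])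 (.cons (.leaf 1 [(9,1)]) (.cons (.leaf 1 [(0,1),(9,1)]) .nil)))))))) (.cons (.leaf 1 [(1,1),(4,1),(6,1)]) (.cons (.leaf 2 [(9,1)]) (.cons (.keep [0,1,6,8,9,10] (.node (.cons (.leaf 2 [(8,1),(7,1),(4,1)]) (.cons (.leaf 2 [(8,1),(7,1)]) (.cons (.leaf 3 [(3,1),(8,2),(2,1),(7,2)]) (.cons (.leaf 1 [(4,2)]) (.cons (.leaf 1 [(10,1)]) (.cons (.leaf 1 [(0,1),(10,1),(7,1)]) .nil)))))))) .nil)))))))) (.cons (.leaf 1 [(2,1)]) (.cons (.keep [2,3,6,8,9] (.node (.cons (.leaf 1 [(4,1),(6,1)]) (.cons (.leaf 1 [(2,1),(9,1)]) (.cons (.keep [0,2,6,8,9,10] (.node (.cons (.leaf 3 [(7,2),(8,2),(2,1)]) (.cons (.leaf 2 [(7,2),(8,1)]) (.cons (.leaf 3 [(7,2),(3,1),(2,1),(8,2)]) (.cons (.leaf 1 [(4,2),(7,2)]) (.cons (.leaf 1 [(11,1)]) (.cons (.leaf 1 [(11,1),(7,1),(0,1)]) .nil)))))))) (.cons (.leaf 1 [(4,1),(6,1)])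 (.cons (.leaf 1 [(9,1)]) (.cons (.keep [1,6,8,9,10] (.node (.cons (.leaf 2 [(2,1),(7,1),(9,1)]) (.cons (.leaf 1 [(2,1),(7,1),(3,1)]) (.cons (.leaf 1 [(2,1),(7,1),(0,1),(3,1)]) (.cons (.leaf 1 [(4,1),(9,1)]) (.cons (.leaf 1 [(10,1)]) (.cons (.leaf 1 [(0,1),(10,1)]) .nil)))))))) .nil)))))))) (.cons (.keep [1,4,5,6,9] (.node (.cons (.leaf 3 [(10,1),(6,1)]) (.cons (.leaf 2 [(10,1),(2,1),(6,1)]) (.cons (.keep [0,2,6,7,9,10] (.node (.cons (.leaf 2 [(4,1),(8,1)]) (.cons (.leaf 2 [(8,1)]) (.cons (.leaf 2 [(8,1),(4,1)]) (.cons (.leaf 1 [(8,1),(4,2),(7,1)]) (.cons (.leaf 1 [(11,1)]) (.cons (.leaf 1 [(0,1),(11,1),(8,1)]) .nil)))))))) (.cons (.leaf 1 [(4,1),(1,1)]) (.cons (.leaf 2 [(10,1),(6,1)]) (.cons (.keep [0,1,6,7,9,10] (.node (.cons (.leaf 3 [(2,1),(7,2),(8,1)]) (.cons (.leaf 1 [(2,1),(7,1),(3,1)])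 (.cons (.leaf 3 [(2,1),(7,2),(8,1),(3,1)]) (.cons (.leaf 1 [(8,1),(4,2)]) (.cons (.leaf 1 [(11,1)]) (.cons (.leaf 1 [(0,1),(7,1),(11,1),(8,1)]) .nil)))))))) .nil)))))))) (.cons (.leaf 1 []) (.cons (.keep [1,3,6,7,9] (.node (.cons (.leaf 1 [(4,1)]) (.cons (.leaf 2 [(2,2),(6,1),(10,1)]) (.cons (.keep [0,2,6,8,9,10] (.node (.cons (.leaf 3 [(2,1),(7,2),(8,1)]) (.cons (.leaf 1 [(2,1),(3,1)]) (.cons (.leaf 3 [(2,1),(7,2),(8,1),(3,1)]) (.cons (.leaf 1 [(8,1),(4,2),(7,2)]) (.cons (.leaf 1 [(11,1)]) (.cons (.leaf 1 [(0,1),(11,1),(7,1),(8,1)]) .nil)))))))) (.cons (.leaf 1 [(4,1)]) (.cons (.leaf 1 [(9,1),(6,1),(10,1)]) (.cons (.keep [0,1,6,8,9,10] (.node (.cons (.leaf 2 [(2,1),(10,1),(8,1)]) (.cons (.leaf 1 [(2,1),(3,1)]) (.cons (.leaf 1 [(2,1),(0,1),(8,1),(3,1)]) (.cons (.leaf 2 [(11,2),(10,1),(8,1)])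 (.cons (.leaf 1 [(11,1)]) (.cons (.leaf 1 [(0,1),(8,1),(11,1)]) .nil)))))))) .nil)))))))) .nil)))))))) (.cons (.keep [0,1,4,7,8] (.node (.cons (.leaf 1 [(2,1),(8,2)]) (.cons (.leaf 1 [(2,1),(3,1)]) (.cons (.keep [2,6,7,8,9] (.node (.cons (.leaf 1 [(6,1),(4,1),(9,1)]) (.cons (.leaf 1 [(2,1),(9,2),(6,1)]) (.cons (.leaf 1 [(2,1),(9,2),(6,1)]) (.cons (.leaf 1 [(6,1),(4,2),(1,1)]) (.cons (.leaf 1 [(9,1),(10,1)]) (.cons (.keep [6,7,8,9,10] (.node (.cons (.leaf 1 [(4,1)]) (.cons (.leaf 1 []) (.cons (.leaf 1 [(4,1)]) (.cons (.leaf 1 [(10,1),(9,1),(4,1)]) (.cons (.leaf 1 [(9,2),(6,1),(10,1)]) (.cons (.leaf 1 [(0,1),(6,1),(10,1),(9,3)]) .nil)))))))) .nil)))))))) (.cons (.leaf 1 [(8,2)]) (.cons (.leaf 1 [(3,1)]) (.cons (.keep [0,7,8,9,10] (.node (.cons (.leaf 1 [(8,1),(4,1)]) (.cons (.leaf 1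 [(8,2),(2,1)]) (.cons (.leaf 1 [(8,2),(2,1)]) (.cons (.leaf 1 [(1,1),(4,2)]) (.cons (.leaf 1 [(8,1),(9,1)]) (.cons (.keep [0,6,7,8,9] (.node (.cons (.leaf 2 [(2,1),(9,2),(10,1)]) (.cons (.leaf 1 [(2,1),(3,1),(9,1)]) (.cons (.leaf 2 [(2,1),(10,1),(9,2)]) (.cons (.leaf 1 [(10,1),(9,1),(4,1)]) (.cons (.leaf 1 [(9,3),(6,1),(10,1)]) (.cons (.leaf 1 [(0,1),(10,1),(9,3)]) .nil)))))))) .nil)))))))) .nil)))))))) .nil)))))))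

theorem c_10_28_2 : Concl 10 28 z_10_28_2 h_10_28_2 .nd := piece _ (hP_cons c_10_28_0 (hP_cons
  c_10_28_1 hP_nil)) t_10_28_2 _ _ (by decide +kernel)

def z_10_28_3 : F := ⟨1, 0, 0, -1, 1⟩

def h_10_28_3 : List F := [⟨1, 0, 0, -2, 1⟩, ⟨1, 0, -1, 0, 0⟩, ⟨0, -1, 0, 1, 0⟩, ⟨0, 0, -1, 1, 0⟩,
  ⟨0, 0, 0, -1, 1⟩]

def t_10_28_3 : T := (.node (.cons (.keep [2,4,5,8,9,10] (.node (.cons (.leaf 1 [(7,2),(9,2)]) (.cons (.leaf 1 [(2,2),(9,2),(3,1)]) (.cons (.keep [2,6,7,9,10,11] (.node (.cons (.leaf 3 [(2,1),(9,4),(6,2)]) (.cons (.leaf 1 [(2,1),(9,1)]) (.cons (.leaf 1 [(2,1),(8,2),(9,2)]) (.cons (.leaf 3 [(6,2),(9,4),(1,1)]) (.cons (.leaf 1 [(9,1)]) (.cons (.keep [6,7,8,9,10,11] (.node (.cons (.leaf 1 [(4,1),(9,1)]) (.cons (.leaf 1 [(2,1),(9,1),(8,1)]) (.cons (.leaf 1 [(4,1),(9,2),(6,1)]) (.cons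 (.leaf 1 [(4,1),(9,1)]) (.cons (.leaf 1 [(8,1),(9,1)]) (.cons (.leaf 1 [(8,2),(9,3),(0,1)]) .nil)))))))) .nil)))))))) (.cons (.leaf 1 [(7,2),(1,1),(9,2)]) (.cons (.leaf 1 [(7,1),(9,2)]) (.cons (.keep [1,6,7,8,9,10,11] (.node (.cons (.leaf 3 [(2,1),(9,1),(10,4)]) (.cons (.leaf 1 [(6,1),(2,3),(3,2)]) (.cons (.leaf 1 [(2,1),(10,2),(6,1),(8,2)]) (.cons (.leaf 3 [(10,4),(9,1),(1,1)]) (.cons (.leaf 1 [(10,1)]) (.cons (.keep [6,7,8,9,10,11,12] (.node (.cons (.leaf 1 [(4,1)]) (.cons (.leaf 1 [(2,2),(8,2)]) (.cons (.leaf 1 [(4,1),(10,2)]) (.cons (.leaf 1 [(4,1),(1,1)]) (.cons (.leaf 1 [(1,1),(8,2)]) (.cons (.leaf 1 [(8,2),(6,1),(10,3),(0,1)]) .nil)))))))) .nil)))))))) .nil)))))))) (.cons (.keep [2,3,5,8,10] (.node (.cons (.keep [2,5,6,9,10] (.node (.cons (.leaf 3 [(6,1),(9,5)]) (.cons (.leaf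 2 [(2,1),(9,3)]) (.cons (.keep [0,2,6,9,10] (.node (.cons (.leaf 3 [(2,1),(7,1),(9,4)]) (.cons (.leaf 1 [(9,1),(2,1)]) (.cons (.leaf 1 [(2,1),(9,3),(0,1)]) (.cons (.leaf 3 [(7,1),(9,4)]) (.cons (.leaf 1 [(9,1)]) (.cons (.leaf 1 [(9,3),(0,1)]) .nil)))))))) (.cons (.leaf 3 [(1,1),(9,5),(6,1)]) (.cons (.leaf 2 [(9,3)]) (.cons (.keep [1,6,7,8,9,10] (.node (.cons (.leaf 3 [(2,1),(10,4)]) (.cons (.leaf 1 [(3,1),(2,3)]) (.cons (.leaf 1 [(2,1),(10,3),(6,1),(0,1)]) (.cons (.leaf 3 [(10,4)]) (.cons (.leaf 1 [(3,1)]) (.cons (.leaf 1 [(10,3),(6,1),(0,1)]) .nil)))))))) .nil)))))))) (.cons (.leaf 1 [(9,2),(2,1)]) (.cons (.keep [2,3,6,7,9] (.node (.cons (.leaf 1 [(6,2),(9,5),(7,1)]) (.cons (.leaf 1 [(2,1),(9,3)]) (.cons (.keep [2,6,7,8,9,10] (.node (.cons (.leaf 1 [(2,1),(10,2)]) (.cons (.leaf 1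 [(3,1),(2,3),(8,2)]) (.cons (.leaf 1 [(2,2),(8,1),(10,5),(7,2)]) (.cons (.leaf 1 [(10,2)]) (.cons (.leaf 1 [(8,2),(3,1)]) (.cons (.leaf 1 [(0,1),(11,3),(6,1)]) .nil)))))))) (.cons (.leaf 1 [(6,2),(9,5),(1,3)]) (.cons (.leaf 1 [(9,3),(1,1)]) (.cons (.keep [0,1,6,9,10] (.node (.cons (.leaf 1 [(2,1),(9,2),(7,1)]) (.cons (.leaf 1 [(3,1),(7,1),(2,3)]) (.cons (.leaf 1 [(2,2),(7,3),(9,5),(8,2)]) (.cons (.leaf 1 [(9,2),(7,1)]) (.cons (.leaf 1 [(7,1),(3,1)]) (.cons (.leaf 1 [(10,3),(0,1)]) .nil)))))))) .nil)))))))) (.cons (.keep [1,5,6,9,10] (.node (.cons (.leaf 3 [(6,1),(9,5)]) (.cons (.leaf 1 [(6,2),(2,5),(3,3)]) (.cons (.keep [0,2,6,9,10] (.node (.cons (.leaf 3 [(2,1),(7,5),(8,1)]) (.cons (.leaf 1 [(2,1),(9,1)]) (.cons (.leaf 3 [(2,1),(8,1),(9,5)]) (.cons (.leaf 3 [(1,4),(7,5),(8,1)]) (.cons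 (.leaf 1 [(9,1)]) (.cons (.leaf 1 [(9,3),(8,1),(0,1)]) .nil)))))))) (.cons (.leaf 1 [(4,1),(9,2),(1,1)]) (.cons (.leaf 1 [(6,2),(7,3),(3,3)]) (.cons (.keep [0,1,6,9,10] (.node (.cons (.leaf 3 [(2,1),(9,4),(8,1)]) (.cons (.leaf 1 [(2,1),(9,1)]) (.cons (.leaf 3 [(2,1),(7,1),(8,1),(9,5)]) (.cons (.leaf 3 [(9,4),(8,1)]) (.cons (.leaf 1 [(9,1)]) (.cons (.leaf 1 [(9,3),(7,1),(8,1),(0,1)]) .nil)))))))) .nil)))))))) (.cons (.leaf 1 [(9,2)]) (.cons (.keep [1,3,6,8,9] (.node (.cons (.leaf 1 [(6,2),(9,5),(7,1)]) (.cons (.leaf 1 [(2,4),(3,3),(6,2)]) (.cons (.keep [0,2,6,9,10] (.node (.cons (.leaf 3 [(2,1),(7,2),(8,1)]) (.cons (.leaf 1 [(2,1),(10,1)]) (.cons (.leaf 1 [(2,1),(10,1),(8,1),(9,2)]) (.cons (.leaf 3 [(1,4),(7,2),(8,1)]) (.cons (.leaf 1 [(10,1)]) (.cons (.leaf 1 [(10,3),(8,1),(7,1),(0,1)])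 .nil)))))))) (.cons (.leaf 1 [(6,2),(9,5),(1,3)]) (.cons (.leaf 1 [(9,2),(3,1),(6,2)]) (.cons (.keep [0,1,6,9,10] (.node (.cons (.leaf 2 [(2,1),(9,1),(8,1)]) (.cons (.leaf 1 [(2,2),(7,1),(9,1)]) (.cons (.leaf 1 [(2,2),(7,3),(8,2),(9,5)]) (.cons (.leaf 2 [(1,2),(9,1),(8,1)]) (.cons (.leaf 1 [(9,1),(7,1)]) (.cons (.leaf 1 [(10,3),(8,1),(0,1)]) .nil)))))))) .nil)))))))) .nil)))))))) (.cons (.keep [0,2,4,8,9] (.node (.cons (.leaf 1 [(9,2),(2,1),(8,2)]) (.cons (.leaf 1 [(9,2),(2,1),(3,1)]) (.cons (.keep [2,6,7,8,9,10] (.node (.cons (.leaf 2 [(4,1),(10,3)]) (.cons (.leaf 2 [(2,2),(9,2),(10,3)]) (.cons (.leaf 1 [(2,1),(6,1),(10,2),(9,2)]) (.cons (.leaf 2 [(10,3),(4,1),(1,1)]) (.cons (.leaf 1 [(10,1),(11,1),(9,1)]) (.cons (.keep [6,7,8,9,10,11] (.node (.cons (.leaf 1 [(4,1),(10,2)]) (.cons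 (.leaf 1 [(2,2),(9,2)]) (.cons (.leaf 1 [(10,2),(4,1)]) (.cons (.leaf 2 [(11,1),(10,2),(9,2)]) (.cons (.leaf 1 [(9,2),(1,1)]) (.cons (.leaf 1 [(9,2),(10,3),(0,1)]) .nil)))))))) .nil)))))))) (.cons (.leaf 1 [(9,2),(8,2)]) (.cons (.leaf 1 [(9,2),(3,1)]) (.cons (.keep [0,7,8,9,10] (.node (.cons (.leaf 1 [(9,2),(2,1),(8,2)]) (.cons (.leaf 1 [(9,2),(2,1),(8,2)]) (.cons (.leaf 1 [(9,2),(2,1),(8,2)]) (.cons (.leaf 1 [(9,2),(4,2),(1,1)]) (.cons (.leaf 1 [(9,1),(10,1),(8,1)]) (.cons (.keep [0,6,8,9,10] (.node (.cons (.leaf 2 [(2,1),(8,2),(10,1)]) (.cons (.leaf 1 [(2,1),(8,1),(9,1)]) (.cons (.leaf 2 [(8,2),(9,3),(10,1),(2,1)]) (.cons (.leaf 2 [(8,2),(1,2),(10,1)]) (.cons (.leaf 1 [(8,1),(9,1)]) (.cons (.leaf 1 [(8,3),(9,3),(10,1),(0,1)]) .nil)))))))) .nil)))))))) .nil)))))))) (.cons (.keep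 [1,4,5,9,10] (.node (.cons (.leaf 1 [(7,2),(6,1)]) (.cons (.leaf 1 [(2,2),(6,1),(3,1)]) (.cons (.keep [0,2,6,7,9] (.node (.cons (.leaf 3 [(2,1),(7,2),(8,1)]) (.cons (.leaf 1 [(2,1)]) (.cons (.leaf 1 [(2,1),(8,1),(9,2)]) (.cons (.leaf 3 [(8,1),(7,2),(1,1)]) (.cons (.leaf 1 []) (.cons (.keep [0,6,7,8,9] (.node (.cons (.leaf 1 [(4,1)]) (.cons (.leaf 1 [(9,1),(8,1)]) (.cons (.leaf 1 [(9,1),(8,1),(4,1)]) (.cons (.leaf 1 [(4,1)]) (.cons (.leaf 1 [(10,1)]) (.cons (.leaf 1 [(9,1),(0,1),(10,2)]) .nil)))))))) .nil)))))))) (.cons (.leaf 1 [(7,2),(6,1),(1,1)]) (.cons (.leaf 1 [(7,1),(6,1)]) (.cons (.keep [0,1,6,7,8,9] (.node (.cons (.leaf 2 [(2,1),(9,1),(8,1)]) (.cons (.leaf 1 [(2,1)]) (.cons (.leaf 1 [(2,1),(7,1),(8,1),(9,2)]) (.cons (.leaf 2 [(8,1),(9,1)]) (.cons (.leaf 1 []) (.cons (.keep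 [0,6,7,8,9] (.node (.cons (.leaf 1 [(4,1)]) (.cons (.leaf 1 [(9,1)]) (.cons (.leaf 1 [(9,1),(4,1)]) (.cons (.leaf 1 [(4,1)]) (.cons (.leaf 1 [(10,1)]) (.cons (.leaf 1 [(8,1),(9,1),(0,1),(10,2)]) .nil)))))))) .nil)))))))) .nil)))))))) (.cons (.keep [1,3,5,6] (.node (.cons (.keep [2,5,6,9] (.node (.cons (.leaf 3 [(6,1),(8,2)]) (.cons (.leaf 2 [(2,1),(8,1)]) (.cons (.keep [0,2,6,8,9] (.node (.cons (.leaf 3 [(2,1),(7,1),(9,1)]) (.cons (.leaf 1 [(2,1)]) (.cons (.leaf 1 [(2,1),(9,1),(0,1)]) (.cons (.leaf 3 [(7,1),(9,1)]) (.cons (.leaf 1 []) (.cons (.leaf 1 [(9,1),(0,1)]) .nil)))))))) (.cons (.leaf 3 [(6,1),(8,2),(1,1)]) (.cons (.leaf 2 [(8,1)]) (.cons (.keep [0,1,6,8,9] (.node (.cons (.leaf 3 [(2,1),(9,1)]) (.cons (.leaf 1 [(2,1)]) (.cons (.leaf 1 [(2,1),(7,1),(9,1),(0,1)]) (.cons (.leaf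 3 [(9,1)]) (.cons (.leaf 1 []) (.cons (.leaf 1 [(7,1),(9,1),(0,1)]) .nil)))))))) .nil)))))))) (.cons (.leaf 1 [(2,1),(6,1)]) (.cons (.keep [0,2,3,6,7] (.node (.cons (.leaf 3 [(2,2),(9,2),(7,1)]) (.cons (.leaf 2 [(2,2),(9,1)]) (.cons (.keep [0,2,7,9,10] (.node (.cons (.leaf 3 [(2,1),(7,2),(9,1)]) (.cons (.leaf 1 [(2,1)]) (.cons (.leaf 1 [(7,1),(2,1),(9,1),(0,1)]) (.cons (.leaf 3 [(7,2),(9,1)]) (.cons (.leaf 1 []) (.cons (.leaf 1 [(9,1),(7,1),(0,1)]) .nil)))))))) (.cons (.leaf 1 [(4,1),(9,1),(7,1)]) (.cons (.leaf 1 [(10,1)]) (.cons (.keep [0,1,7,9,10] (.node (.cons (.leaf 2 [(2,1),(10,1)]) (.cons (.leaf 1 [(2,1)]) (.cons (.leaf 1 [(2,1),(9,1),(0,1)]) (.cons (.leaf 2 [(10,1)]) (.cons (.leaf 1 []) (.cons (.leaf 1 [(9,1),(0,1)]) .nil)))))))) .nil)))))))) (.cons (.keep [1,5,6,9] (.node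 (.cons (.leaf 3 [(8,2),(6,1)]) (.cons (.leaf 1 [(2,2),(6,1),(3,1)]) (.cons (.keep [0,2,6,8,9] (.node (.cons (.leaf 3 [(2,1),(7,2),(8,1)]) (.cons (.leaf 1 [(2,1)]) (.cons (.leaf 3 [(2,1),(8,1),(9,2)]) (.cons (.leaf 3 [(8,1),(7,2),(1,1)]) (.cons (.leaf 1 []) (.cons (.leaf 1 [(8,1),(9,1),(0,1)]) .nil)))))))) (.cons (.leaf 3 [(8,2),(6,1),(1,1)]) (.cons (.leaf 1 [(7,1),(6,1),(3,1)]) (.cons (.keep [0,1,6,8,9] (.node (.cons (.leaf 3 [(2,1),(9,1),(8,1)]) (.cons (.leaf 1 [(2,1)]) (.cons (.leaf 3 [(2,1),(7,1),(8,1),(9,2)]) (.cons (.leaf 3 [(8,1),(9,1)]) (.cons (.leaf 1 []) (.cons (.leaf 1 [(8,1),(7,1),(9,1),(0,1)]) .nil)))))))) .nil)))))))) (.cons (.leaf 1 [(6,1)]) (.cons (.keep [0,1,3,6,8] (.node (.cons (.leaf 3 [(2,2),(7,1),(9,2)]) (.cons (.leaf 1 [(2,2),(7,1),(3,1)]) (.cons (.keep [0,2,7,9,10]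 (.node (.cons (.leaf 3 [(2,1),(7,2),(8,1)]) (.cons (.leaf 1 [(2,1)]) (.cons (.leaf 3 [(7,2),(2,1),(8,1),(9,2)]) (.cons (.leaf 3 [(8,1),(7,2),(1,1)]) (.cons (.leaf 1 []) (.cons (.leaf 1 [(8,1),(9,1),(7,1),(0,1)]) .nil)))))))) (.cons (.leaf 1 [(4,1),(9,1)]) (.cons (.leaf 1 [(10,1),(7,1)]) (.cons (.keep [0,1,7,9,10] (.node (.cons (.leaf 2 [(2,1),(10,1),(8,1)]) (.cons (.leaf 1 [(2,1)]) (.cons (.leaf 1 [(2,1),(9,1),(8,1),(0,1)]) (.cons (.leaf 2 [(8,1),(10,1)]) (.cons (.leaf 1 []) (.cons (.leaf 1 [(8,1),(9,1),(0,1)]) .nil)))))))) .nil)))))))) .nil)))))))) (.cons (.keep [0,1,4,9] (.node (.cons (.leaf 1 [(2,1),(7,1),(8,2)]) (.cons (.leaf 1 [(2,1),(7,1),(3,1)]) (.cons (.keep [0,2,7,8,9] (.node (.cons (.leaf 2 [(4,1),(8,1)]) (.cons (.leaf 2 [(2,2),(9,2),(8,1)]) (.cons (.leaf 1 [(2,1),(7,1),(8,1),(9,2)])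 (.cons (.leaf 2 [(8,1),(4,1),(1,1)]) (.cons (.leaf 1 [(10,1),(9,1)]) (.cons (.keep [0,6,7,8,9,10] (.node (.cons (.leaf 1 [(4,1),(9,1)]) (.cons (.leaf 1 [(9,1)]) (.cons (.leaf 1 [(4,1),(9,1)]) (.cons (.leaf 1 [(7,1),(10,2),(9,1)]) (.cons (.leaf 1 [(10,1)]) (.cons (.leaf 1 [(0,1),(9,1),(10,2)]) .nil)))))))) .nil)))))))) (.cons (.leaf 1 [(7,1),(8,2)]) (.cons (.leaf 1 [(7,1),(3,1)]) (.cons (.keep [0,7,8,9] (.node (.cons (.leaf 1 [(7,1),(2,1),(8,2)]) (.cons (.leaf 1 [(7,1),(2,1),(8,2)]) (.cons (.leaf 1 [(7,1),(2,1),(8,2)]) (.cons (.leaf 1 [(7,1),(4,2),(1,1)]) (.cons (.leaf 1 [(9,1),(8,1)]) (.cons (.keep [0,6,7,8,9] (.node (.cons (.leaf 2 [(2,1),(9,2),(10,1)]) (.cons (.leaf 1 [(2,1),(9,1)]) (.cons (.leaf 2 [(2,1),(8,1),(10,1),(9,2)]) (.cons (.leaf 2 [(10,1),(9,2)]) (.cons (.leaf 1 [(9,1)])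 (.cons (.leaf 1 [(0,1),(8,1),(10,1),(9,3)]) .nil)))))))) .nil)))))))) .nil)))))))) .nil)))))))

theorem c_10_28_3 : Concl 10 28 z_10_28_3 h_10_28_3 .nd := piece _ hP_nil t_10_28_3 _ _ (by
  decide +kernel)

def t_10_28 : T := (.keep [0,1,2] (.node (.cons (.keep [2,4,5,6,7] (.leaf 0 [(0,0)])) (.cons (.keep [2,3,5,6] (.node (.cons (.keep [2,5,6,7] (.node (.cons (.leaf 1 [(6,1),(9,3)]) (.cons (.leaf 1 [(2,1),(9,2)]) (.cons (.keep [0,2,6,9] (.node (.cons (.leaf 2 [(2,1),(7,1),(9,3)]) (.cons (.leaf 1 [(2,1),(9,1)]) (.cons (.leaf 1 [(2,1),(9,3),(8,1)]) (.cons (.leaf 2 [(7,1),(9,3)]) (.cons (.leaf 1 [(9,1)]) (.cons (.keep [0,6,7,8,9] (.node (.cons (.leaf 1 [(10,1),(4,1)]) (.cons (.leaf 2 [(2,1),(10,3),(8,1)]) (.cons (.leaf 2 [(2,1),(10,3),(8,1)]) (.cons (.leaf 1 [(10,1),(4,1)]) (.cons (.leaf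 1 [(10,2),(9,1)]) (.cons (.leaf 1 [(10,4),(0,1),(9,1)]) .nil)))))))) .nil)))))))) (.cons (.leaf 1 [(1,1),(9,3),(6,1)]) (.cons (.leaf 1 [(9,2)]) (.cons (.keep [0,1,6,7,9] (.node (.cons (.leaf 2 [(2,1),(10,3)]) (.cons (.leaf 1 [(3,1),(2,2)]) (.cons (.leaf 1 [(2,1),(10,3),(7,1),(8,1)]) (.cons (.leaf 2 [(10,3)]) (.cons (.leaf 1 [(3,1)]) (.cons (.keep [0,6,7,8,10] (.node (.cons (.leaf 1 [(10,1),(4,1)]) (.cons (.leaf 2 [(10,3),(2,1)]) (.cons (.leaf 2 [(10,3),(2,1)]) (.cons (.leaf 1 [(1,1),(4,3)]) (.cons (.leaf 1 [(10,2),(9,1)]) (.cons (.leaf 1 [(10,4),(8,1),(0,1),(9,1)]) .nil)))))))) .nil)))))))) .nil)))))))) (.cons (.keep [2,3,5,7,9] (.node (.cons (.leaf 1 [(9,2)]) (.cons (.leaf 1 [(2,1),(7,1),(9,2)]) (.cons (.keep [6,7,8,9,10] (.node (.cons (.leaf 1 [(8,1),(7,1),(9,1)]) (.cons (.leaf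 1 [(2,1),(7,2)]) (.cons (.leaf 1 [(2,1),(9,2)]) (.cons (.leaf 1 [(8,2),(7,2),(1,3)]) (.cons (.leaf 1 [(7,2),(1,1)]) (.cons (.keep [4,6,7,8,9] (.node (.cons (.leaf 1 [(2,1),(10,1),(6,1)]) (.cons (.leaf 1 [(2,1),(10,1)]) (.cons (.leaf 2 [(2,1),(10,3),(8,1),(9,1)]) (.cons (.leaf 1 [(10,1),(6,1)]) (.cons (.leaf 1 [(10,1)]) (.cons (.leaf 1 [(10,3),(8,1),(0,1)]) .nil)))))))) .nil)))))))) (.cons (.leaf 1 [(1,1),(9,2)]) (.cons (.leaf 1 [(9,2),(7,1)]) (.cons (.keep [1,6,8,9,10] (.node (.cons (.leaf 1 [(8,2),(9,1),(6,1)]) (.cons (.leaf 1 [(6,1),(2,3),(3,2)]) (.cons (.leaf 1 [(2,1),(9,2),(6,1)]) (.cons (.leaf 1 [(8,4),(1,3),(6,1)]) (.cons (.leaf 1 [(8,1),(3,1),(6,1)]) (.cons (.keep [4,6,7,8,9] (.node (.cons (.leaf 1 [(4,1)]) (.cons (.leaf 1 [(2,1),(10,1)]) (.cons (.leaf 2 [(2,1),(7,2),(10,3),(9,2)])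 (.cons (.leaf 1 [(4,1),(1,1)]) (.cons (.leaf 1 [(10,1)]) (.cons (.leaf 1 [(10,3),(7,2),(9,1),(0,1)]) .nil)))))))) .nil)))))))) .nil)))))))) (.cons (.keep [2,3,6,7] (.node (.cons (.leaf 1 [(6,1),(9,3),(7,1)]) (.cons (.leaf 1 [(9,2)]) (.cons (.keep [0,2,6,7,9] (.node (.cons (.leaf 2 [(2,1),(9,1),(10,3)]) (.cons (.leaf 1 [(2,2),(9,2),(3,1)]) (.cons (.leaf 1 [(2,1),(8,1),(10,3),(9,1)]) (.cons (.leaf 2 [(9,1),(10,3)]) (.cons (.leaf 1 [(9,2),(3,1)]) (.cons (.keep [0,6,8,9,10] (.node (.cons (.leaf 1 [(4,1),(10,1),(9,1)]) (.cons (.leaf 2 [(2,1),(10,3),(9,1)]) (.cons (.leaf 2 [(2,1),(10,3),(9,1)]) (.cons (.leaf 1 [(4,3),(1,1),(9,2)]) (.cons (.leaf 1 [(8,1),(10,2),(9,1)]) (.cons (.leaf 1 [(0,1),(10,4),(9,2),(8,1)]) .nil)))))))) .nil)))))))) (.cons (.leaf 1 [(9,3),(1,2),(6,1)]) (.cons (.leaf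 1 [(9,2),(1,1)]) (.cons (.keep [0,1,6,9] (.node (.cons (.leaf 2 [(2,1),(9,3),(7,2)]) (.cons (.leaf 1 [(2,2),(7,1),(3,1)]) (.cons (.leaf 1 [(9,3),(2,1),(7,2),(8,1)]) (.cons (.leaf 2 [(9,3),(7,2)]) (.cons (.leaf 1 [(7,1),(3,1)]) (.cons (.keep [0,6,7,8,9] (.node (.cons (.leaf 1 [(8,1),(10,1),(4,1)]) (.cons (.leaf 2 [(2,1),(8,2),(10,3)]) (.cons (.leaf 2 [(2,1),(8,2),(10,3)]) (.cons (.leaf 1 [(8,1),(1,1),(4,3)]) (.cons (.leaf 1 [(8,1),(10,2),(9,1)]) (.cons (.leaf 1 [(8,3),(10,4),(0,1),(9,1)]) .nil)))))))) .nil)))))))) .nil)))))))) (.cons (.keep [1,4,5,6] (.node (.cons (.leaf 1 [(6,1),(7,3)]) (.cons (.leaf 1 [(6,1),(2,3),(3,2)]) (.cons (.keep [0,2,6,7] (.node (.cons (.leaf 1 [(7,1)]) (.cons (.leaf 1 [(2,1),(9,1)]) (.cons (.leaf 1 [(2,1),(8,1),(9,3)]) (.cons (.leaf 1 [(1,1),(7,1)]) (.cons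 (.leaf 1 [(9,1)]) (.cons (.keep [0,6,7,8,9] (.node (.cons (.leaf 1 [(10,1),(4,1)]) (.cons (.leaf 1 [(8,1),(10,1),(9,1)]) (.cons (.leaf 1 [(8,1),(10,1),(9,1),(4,1)]) (.cons (.leaf 1 [(4,3)]) (.cons (.leaf 1 [(10,2)]) (.cons (.leaf 1 [(9,1),(0,1),(10,4)]) .nil)))))))) .nil)))))))) (.cons (.leaf 1 [(6,1),(7,3),(1,1)]) (.cons (.leaf 1 [(6,1),(7,2)]) (.cons (.keep [0,1,6,7,8] (.node (.cons (.leaf 2 [(2,1),(9,3),(8,1)]) (.cons (.leaf 1 [(2,1),(9,1)]) (.cons (.leaf 1 [(2,1),(7,1),(8,1),(9,3)]) (.cons (.leaf 2 [(9,3),(8,1)]) (.cons (.leaf 1 [(9,1)]) (.cons (.keep [0,6,7,8,9] (.node (.cons (.leaf 1 [(10,1),(4,1)]) (.cons (.leaf 1 [(10,1),(9,1)]) (.cons (.leaf 1 [(10,1),(9,1),(4,1)]) (.cons (.leaf 1 [(4,3)]) (.cons (.leaf 1 [(10,2)]) (.cons (.leaf 1 [(8,1),(9,1),(0,1),(10,4)]) .nil))))))))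 .nil)))))))) .nil)))))))) (.cons (.keep [3,5,6,7,8] (.node (.cons (.leaf 1 [(10,1),(9,1)]) (.cons (.leaf 1 [(2,1),(9,1)]) (.cons (.keep [0,6,7,9,10] (.node (.cons (.leaf 1 [(8,1)]) (.cons (.leaf 1 [(2,1)]) (.cons (.leaf 1 [(2,1),(9,1),(10,1)]) (.cons (.leaf 1 [(8,1),(1,1)]) (.cons (.leaf 1 []) (.cons (.keep [0,6,7,8,9,10] (.node (.cons (.leaf 1 [(4,1)]) (.cons (.leaf 1 [(10,1),(9,1)]) (.cons (.leaf 1 [(10,1),(9,1),(4,1)]) (.cons (.leaf 1 [(4,1)]) (.cons (.leaf 1 [(11,1)]) (.cons (.leaf 1 [(10,1),(0,1),(11,1)]) .nil)))))))) .nil)))))))) (.cons (.leaf 1 [(10,1),(9,1),(1,1)]) (.cons (.leaf 1 [(9,1)]) (.cons (.keep [0,1,7,9,10] (.node (.cons (.leaf 1 [(8,1)]) (.cons (.leaf 1 [(2,1)]) (.cons (.leaf 1 [(2,1),(7,1),(9,1),(10,1)]) (.cons (.leaf 1 [(8,1),(1,1)]) (.cons (.leaf 1 []) (.cons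 (.keep [0,6,7,8,9,10] (.node (.cons (.leaf 1 [(4,1)]) (.cons (.leaf 2 [(2,1),(10,1)]) (.cons (.leaf 2 [(2,1),(10,1)]) (.cons (.leaf 1 [(4,1)]) (.cons (.leaf 1 [(11,1)]) (.cons (.leaf 1 [(8,1),(10,1),(0,1),(11,1)]) .nil)))))))) .nil)))))))) .nil)))))))) (.cons (.keep [1,3,6,8] (.node (.cons (.leaf 1 [(9,3),(7,1),(6,1)]) (.cons (.leaf 1 [(2,2),(3,2),(6,1)]) (.cons (.keep [0,2,6,7,9] (.node (.cons (.leaf 1 []) (.cons (.leaf 1 [(2,1),(9,1),(10,1)]) (.cons (.leaf 1 [(2,1),(9,1),(8,1),(10,3)]) (.cons (.leaf 1 [(1,1)]) (.cons (.leaf 1 [(10,1),(9,1)]) (.cons (.keep [0,6,8,9,10] (.node (.cons (.leaf 1 [(8,1),(10,1),(4,1)]) (.cons (.leaf 1 [(8,1),(10,1)]) (.cons (.leaf 1 [(8,1),(10,1),(4,1)]) (.cons (.leaf 1 [(9,1),(4,3)]) (.cons (.leaf 1 [(9,1),(10,2)]) (.cons (.leaf 1 [(8,1),(0,1),(9,2),(10,4)])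 .nil)))))))) .nil)))))))) (.cons (.leaf 1 [(9,3),(1,2),(6,1)]) (.cons (.leaf 1 [(9,1),(3,1),(6,1)]) (.cons (.keep [0,1,6,9] (.node (.cons (.leaf 1 []) (.cons (.leaf 1 [(2,1),(7,1),(9,1)]) (.cons (.leaf 1 [(8,1),(2,1),(7,2),(9,3)]) (.cons (.leaf 1 [(1,1)]) (.cons (.leaf 1 [(9,1),(7,1)]) (.cons (.keep [0,6,7,8,9] (.node (.cons (.leaf 1 [(8,1),(10,1),(4,1)]) (.cons (.leaf 1 [(8,1),(2,1),(10,2)]) (.cons (.leaf 2 [(8,2),(9,1),(2,1),(10,3)]) (.cons (.leaf 1 [(8,1),(4,3)]) (.cons (.leaf 1 [(8,1),(10,2)]) (.cons (.leaf 1 [(9,1),(0,1),(8,3),(10,4)]) .nil)))))))) .nil)))))))) .nil)))))))) .nil)))))))) (.cons (.keep [0,2,3,4,6] (.leaf 0 [(1,0)])) (.cons (.leaf 1 [(4,1)]) (.cons (.leaf 1 []) (.cons (.leaf 1 [(4,1)]) .nil))))))))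

theorem e_10_28 : ESB (caseOf 4 10 28) := esb_of_pieces _ (hP_cons c_10_28_2 (hP_cons c_10_28_3
  hP_nil)) t_10_28 (by decide +kernel)

def t_10_29 : T := (.keep [0,1,2] (.node (.cons (.keep [0,2,4,5,6,8] (.node (.cons (.leaf 1 [(9,1)]) (.cons (.leaf 1 [(9,1),(3,1)]) (.cons (.leaf 1 [(9,1),(3,1)]) (.cons (.leaf 1 [(9,1),(3,1)]) (.cons (.leaf 1 [(5,1)]) (.cons (.leaf 1 [(5,1)]) (.cons (.leaf 1 []) (.cons (.leaf 1 [(5,1)]) .nil)))))))))) (.cons (.keep [3,5,6,7,8] (.node (.cons (.leaf 1 []) (.cons (.leaf 1 [(3,1)]) (.cons (.leaf 1 [(3,1)]) (.cons (.leaf 1 [(3,1)]) (.cons (.leaf 1 [(7,1),(5,1)]) (.cons (.leaf 1 [(7,1),(5,1)]) (.cons (.leaf 1 [(7,1)]) (.cons (.leaf 1 [(7,1),(5,1)]) .nil)))))))))) (.cons (.keep [3,4,6,7,9] (.node (.cons (.leaf 1 [(8,1)]) (.cons (.leaf 1 [(8,1),(3,1)])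 (.cons (.leaf 1 [(8,1),(3,1)]) (.cons (.leaf 1 [(8,1),(3,1)]) (.cons (.leaf 1 [(7,1),(5,1)]) (.cons (.leaf 1 [(3,1),(5,1)]) (.cons (.leaf 1 [(7,1)]) (.cons (.leaf 1 [(7,1),(5,1)]) .nil)))))))))) (.cons (.keep [0,3,4,5,7] (.node (.cons (.leaf 1 [(9,1)]) (.cons (.leaf 1 [(3,1),(9,1)]) (.cons (.leaf 1 [(9,1),(3,1)]) (.cons (.leaf 1 [(9,1),(3,1)]) (.cons (.leaf 1 []) (.cons (.leaf 1 [(3,1)]) (.cons (.leaf 1 [(3,1)]) (.cons (.leaf 1 [(3,1)]) .nil)))))))))) (.cons (.leaf 1 [(5,1)]) (.cons (.leaf 1 [(5,1)]) (.cons (.leaf 1 []) (.cons (.leaf 1 [(5,1)]) .nil))))))))))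

theorem e_10_29 : ESB (caseOf 4 10 29) := esb_of_ok (t := t_10_29) (by decide +kernel)

def t_10_30 : T := (.keep [0,1,2] (.node (.cons (.leaf 1 []) (.cons (.leaf 1 [(3,1)]) (.cons (.leaf 1 [(3,1)]) (.cons (.leaf 1 [(3,1)]) (.cons (.leaf 1 [(5,1)]) (.cons (.leaf 1 [(5,1)]) (.cons (.leaf 1 []) (.cons (.leaf 1 [(5,1)]) .nil))))))))))

theorem e_10_30 : ESB (caseOf 4 10 30) := esb_of_ok (t := t_10_30) (by decide +kernel)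

def t_10_31 : T := (.keep [0,1,2] (.node (.cons (.leaf 1 [(4,1)]) (.cons (.leaf 1 []) (.cons (.leaf 1 [(4,1)]) (.cons (.leaf 1 [(4,1)]) (.cons (.leaf 1 [(4,1)]) (.cons (.leaf 1 [(6,1)]) (.cons (.leaf 1 [(6,1)]) (.cons (.leaf 1 [(6,1)]) (.cons (.leaf 1 []) (.cons (.leaf 1 [(6,1)]) .nil))))))))))))

theorem e_10_31 : ESB (caseOf 4 10 31) := esb_of_ok (t := t_10_31) (by decide +kernel)

def t_11_25 : T := (.keep [0,1,2] (.node (.cons (.leaf 1 []) (.cons (.leaf 1 [(4,1)]) (.cons (.leaf 1 [(4,1)]) (.cons (.keep [1,5,6,8] (.node (.cons (.leaf 1 []) (.cons (.leaf 1 [(4,1)]) (.cons (.leaf 1 [(4,1)]) (.cons (.keep [1,5,6,8] (.node (.cons (.leaf 1 []) (.cons (.leaf 1 [(4,1)]) (.cons (.leaf 1 [(4,1)]) (.cons (.leaf 1 [(10,1)]) (.cons (.leaf 1 [(10,1),(4,1)]) (.cons (.leaf 1 [(10,1),(4,1)])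 (.cons (.leaf 1 [(5,1)]) (.cons (.leaf 1 []) (.cons (.leaf 1 [(5,1)]) .nil))))))))))) (.cons (.keep [3,4,6,8,9] (.node (.cons (.leaf 1 [(8,1)]) (.cons (.leaf 1 [(8,1),(4,1)]) (.cons (.leaf 1 [(8,1),(4,1)]) (.cons (.leaf 1 [(10,1),(8,1)]) (.cons (.leaf 1 [(10,1),(8,1),(4,1)]) (.cons (.leaf 1 [(10,1),(8,1),(4,1)]) (.cons (.leaf 1 [(8,1),(5,1)]) (.cons (.leaf 1 [(8,1)]) (.cons (.leaf 1 [(8,1),(5,1)]) .nil))))))))))) (.cons (.keep [4,7,8,9,10] (.node (.cons (.leaf 1 [(7,1)]) (.cons (.leaf 1 [(4,2)]) (.cons (.leaf 1 [(7,1),(4,1)]) (.cons (.leaf 1 [(9,1),(7,1)]) (.cons (.leaf 1 [(9,1),(4,2)]) (.cons (.leaf 1 [(9,1),(7,1),(4,1)]) (.cons (.leaf 1 []) (.cons (.leaf 1 [(1,1)]) (.cons (.leaf 1 [(4,1)]) .nil))))))))))) (.cons (.leaf 1 [(5,1)]) (.cons (.leaf 1 []) (.cons (.leaf 1 [(5,1)]) .nil)))))))))))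 (.cons (.keep [4,6,7,8,9] (.node (.cons (.leaf 1 [(7,1)]) (.cons (.leaf 1 [(7,1),(4,1)]) (.cons (.leaf 1 [(7,1),(4,1)]) (.cons (.keep [6,7,8,9,11] (.node (.cons (.leaf 1 [(8,1)]) (.cons (.leaf 1 [(8,1),(4,1)]) (.cons (.leaf 1 [(8,1),(4,1)]) (.cons (.leaf 1 []) (.cons (.leaf 1 [(4,1)]) (.cons (.leaf 1 [(4,1)]) (.cons (.leaf 1 [(8,1),(5,1)]) (.cons (.leaf 1 [(8,1)]) (.cons (.leaf 1 [(8,1),(5,1)]) .nil))))))))))) (.cons (.keep [4,6,8,10,11] (.node (.cons (.leaf 1 [(9,1),(7,2)]) (.cons (.leaf 1 [(9,1),(7,2),(4,1)]) (.cons (.leaf 1 [(9,1),(7,2),(4,1)]) (.cons (.leaf 1 [(7,1)]) (.cons (.leaf 1 [(7,1),(4,1)]) (.cons (.leaf 1 [(7,1),(4,1)]) (.cons (.leaf 1 [(9,1),(7,2),(5,1)]) (.cons (.leaf 1 [(9,1),(7,2)]) (.cons (.leaf 1 [(9,1),(7,2),(5,1)]) .nil))))))))))) (.cons (.keep [4,7,8,10,11] (.node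 (.cons (.leaf 1 [(8,1),(7,1)]) (.cons (.leaf 1 [(8,1),(4,2)]) (.cons (.leaf 1 [(8,1),(7,1),(4,1)]) (.cons (.leaf 1 [(7,1)]) (.cons (.leaf 1 [(4,2)]) (.cons (.leaf 1 [(7,1),(4,1)]) (.cons (.leaf 1 [(8,1)]) (.cons (.leaf 1 [(8,1),(1,1)]) (.cons (.leaf 1 [(8,1),(4,1)]) .nil))))))))))) (.cons (.leaf 1 [(7,1),(5,1)]) (.cons (.leaf 1 [(7,1)]) (.cons (.leaf 1 [(7,1),(5,1)]) .nil))))))))))) (.cons (.keep [1,4,5,7,8] (.node (.cons (.leaf 1 [(8,1)]) (.cons (.leaf 1 [(4,2)]) (.cons (.leaf 1 [(8,1),(4,1)]) (.cons (.keep [3,5,6,8,9] (.node (.cons (.leaf 1 [(10,1)]) (.cons (.leaf 1 [(10,1),(4,1)]) (.cons (.leaf 1 [(10,1),(4,1)]) (.cons (.leaf 1 [(11,1)]) (.cons (.leaf 1 [(11,1),(4,1)]) (.cons (.leaf 1 [(11,1),(4,1)]) (.cons (.leaf 1 [(10,1),(5,1)]) (.cons (.leaf 1 [(10,1)]) (.cons (.leaf 1 [(10,1),(5,1)])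 .nil))))))))))) (.cons (.keep [3,4,6,9,10] (.node (.cons (.leaf 1 [(8,2)]) (.cons (.leaf 1 [(8,2),(4,1)]) (.cons (.leaf 1 [(8,2),(4,1)]) (.cons (.leaf 1 [(10,1),(8,1)]) (.cons (.leaf 1 [(10,1),(8,1),(4,1)]) (.cons (.leaf 1 [(10,1),(8,1),(4,1)]) (.cons (.leaf 1 [(8,2),(5,1)]) (.cons (.leaf 1 [(8,2)]) (.cons (.leaf 1 [(8,2),(5,1)]) .nil))))))))))) (.cons (.keep [5,7,8,9,11] (.node (.cons (.leaf 1 [(9,2),(7,1)]) (.cons (.leaf 1 [(9,1),(4,2)]) (.cons (.leaf 1 [(9,2),(7,1),(4,1)]) (.cons (.leaf 1 [(10,1),(9,1),(7,1)]) (.cons (.leaf 1 [(10,1),(4,2)]) (.cons (.leaf 1 [(10,1),(9,1),(7,1),(4,1)]) (.cons (.leaf 1 [(9,1)]) (.cons (.leaf 1 [(9,1),(1,1)]) (.cons (.leaf 1 [(9,1),(4,1)]) .nil))))))))))) (.cons (.leaf 1 []) (.cons (.leaf 1 [(1,1)]) (.cons (.leaf 1 [(4,1)]) .nil))))))))))) (.cons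 (.leaf 1 [(5,1)]) (.cons (.leaf 1 []) (.cons (.leaf 1 [(5,1)]) .nil)))))))))))

theorem e_11_25 : ESB (caseOf 4 11 25) := esb_of_ok (t := t_11_25) (by decide +kernel)

def ks : List (ℕ × ℕ) := [(9, 26), (9, 27), (9, 28), (9, 29), (9, 30), (9, 31), (10, 25), (10,
  26), (10, 27), (10, 28), (10, 29), (10, 30), (10, 31), (11, 25)]

theorem ks_ok : ∀ p ∈ ks, ESB (caseOf 4 p.1 p.2) := ks_cons e_9_26 <| ks_cons e_9_27 <| ks_cons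
  e_9_28 <| ks_cons e_9_29 <| ks_cons e_9_30 <| ks_cons e_9_31 <| ks_cons e_10_25 <| ks_cons
  e_10_26 <| ks_cons e_10_27 <| ks_cons e_10_28 <| ks_cons e_10_29 <| ks_cons e_10_30 <| ks_cons
  e_10_31 <| ks_cons e_11_25 <| ks_nil

end Pool.Agent.H4.RD4.E05
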