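import Pool.Agent.H4.RD4.Chk

/-! # Certificates for special cases of order four -/

set_option maxRecDepth 20000

namespace Pool.Agent.H4.RD4.E07

open Pool.Agent.H50.Rdb
open Pool.Agent.H81.RDE (ESB caseOf)

def z_13_26_0 : F := ⟨1, 0, -1, 0, 1⟩

def h_13_26_0 : List F := [⟨0, 0, 1, 0, 0⟩, ⟨0, -1, 1, 0, 0⟩, ⟨1, 0, 0, -1, 0⟩, ⟨1, 0, 0, 0, 0⟩,
  ⟨0, 0, -1, 0, 1⟩]

def t_13_26_0 : T := (.node (.cons (.keep [2,5,6,7,10] (.node (.cons (.leaf 1 []) (.cons (.leaf 1 [(10,1),(3,1)]) (.cons (.keep [0,8,9,10,11] (.node (.cons (.leaf 1 [(8,1)]) (.cons (.leaf 1 [(3,2)]) (.cons (.leaf 1 [(3,1),(10,1)]) (.cons (.leaf 1 [(1,1),(8,1)]) (.cons (.leaf 2 [(3,3),(9,1)]) (.cons (.leaf 2 [(3,1),(9,1),(10,2)]) (.cons (.leaf 1 [(8,1),(1,1)]) (.cons (.keep [0,1,8,9] (.node (.cons (.leaf 1 [(2,1)]) (.cons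 (.leaf 1 [(2,1)]) (.cons (.leaf 1 [(2,1)]) (.cons (.leaf 3 [(9,1),(10,1)]) (.cons (.leaf 1 [(3,1),(9,1)]) (.cons (.leaf 1 [(0,1),(9,1)]) (.cons (.leaf 3 [(9,1),(10,1),(2,1)]) (.cons (.leaf 1 [(9,1)]) (.cons (.leaf 1 [(0,1),(2,1),(9,1)]) .nil))))))))))) (.cons (.keep [1,5,8,9,10] (.node (.cons (.leaf 1 [(3,1)]) (.cons (.leaf 1 [(3,1)]) (.cons (.leaf 1 [(3,1)]) (.cons (.leaf 3 [(9,1),(3,3),(10,1)]) (.cons (.leaf 1 [(3,2),(9,1)]) (.cons (.leaf 1 [(3,2),(0,1),(9,1)]) (.cons (.leaf 1 [(5,1),(7,1),(10,1)]) (.cons (.leaf 1 [(11,1),(9,1)]) (.cons (.leaf 1 [(11,1),(0,1),(9,1)]) .nil))))))))))) .nil))))))))))) (.cons (.leaf 1 [(1,1)]) (.cons (.leaf 1 [(10,1),(3,1)]) (.cons (.leaf 1 [(10,1),(1,1),(8,1)]) (.cons (.leaf 1 [(1,1)]) (.cons (.leaf 1 [(10,1)]) (.cons (.leaf 1 [(10,1),(1,1),(9,1)])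 .nil))))))))))) (.cons (.keep [2,3,4,6,7] (.node (.cons (.leaf 1 [(9,1)]) (.cons (.leaf 1 [(11,1),(3,1),(9,1)]) (.cons (.keep [0,4,9,10,11] (.node (.cons (.leaf 1 []) (.cons (.leaf 1 [(9,1),(3,2)]) (.cons (.leaf 1 [(3,1),(9,1),(11,1)]) (.cons (.leaf 1 [(1,1)]) (.cons (.leaf 1 [(1,1),(3,1),(10,1)]) (.cons (.leaf 2 [(10,1),(3,1),(9,1),(11,2)]) (.cons (.leaf 1 [(1,1)]) (.cons (.keep [4,6,7,9,10] (.node (.cons (.leaf 1 [(2,1),(10,1)]) (.cons (.leaf 1 [(3,1)]) (.cons (.leaf 1 [(10,1),(2,1)]) (.cons (.leaf 3 [(11,1),(10,1)]) (.cons (.leaf 1 [(3,1)]) (.cons (.leaf 1 [(10,1),(0,1)]) (.cons (.leaf 3 [(11,1),(10,1),(2,1)]) (.cons (.leaf 1 []) (.cons (.leaf 1 [(10,1),(2,1),(0,1)]) .nil))))))))))) (.cons (.keep [7,8,9,10,11] (.node (.cons (.leaf 1 [(9,1),(3,1)]) (.cons (.leaf 1 [(9,1),(3,1)])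 (.cons (.leaf 1 [(9,1),(3,1)]) (.cons (.leaf 3 [(10,1),(9,1),(3,3)]) (.cons (.leaf 1 [(3,2)]) (.cons (.leaf 1 [(9,1),(3,2),(0,1)]) (.cons (.leaf 1 [(10,1),(5,2),(9,1)]) (.cons (.leaf 1 [(11,1)]) (.cons (.leaf 1 [(11,1),(9,1),(0,1)]) .nil))))))))))) .nil))))))))))) (.cons (.leaf 1 [(9,1),(1,1)]) (.cons (.leaf 1 [(11,1),(1,1)]) (.cons (.leaf 1 [(11,1),(1,1)]) (.cons (.leaf 1 [(9,1),(1,1)]) (.cons (.leaf 1 [(11,1),(9,1)]) (.cons (.leaf 1 [(11,1),(10,1),(1,1)]) .nil))))))))))) (.cons (.keep [2,4,5,7,10] (.node (.cons (.leaf 1 [(8,1)]) (.cons (.leaf 2 [(10,2),(8,1)]) (.cons (.keep [0,5,8,9,10] (.node (.cons (.leaf 1 [(10,1)]) (.cons (.leaf 1 [(9,1),(3,2)]) (.cons (.leaf 1 [(3,1),(9,1),(11,1)]) (.cons (.leaf 1 [(10,1),(1,1)]) (.cons (.leaf 1 [(1,1),(3,1)]) (.cons (.leaf 1 [(1,1),(11,1)])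 (.cons (.leaf 1 [(10,1),(1,1)]) (.cons (.keep [2,6,7,9,10] (.node (.cons (.leaf 1 [(2,1),(10,1)]) (.cons (.leaf 1 [(2,1),(10,1)]) (.cons (.leaf 1 [(2,1),(10,1)]) (.cons (.leaf 3 [(11,1),(10,1)]) (.cons (.leaf 1 [(3,1),(11,1)]) (.cons (.leaf 1 [(0,1),(10,1),(11,1)]) (.cons (.leaf 1 [(5,1),(1,1)]) (.cons (.leaf 1 [(11,1)]) (.cons (.leaf 1 [(2,1),(0,1),(10,1),(11,1)]) .nil))))))))))) (.cons (.keep [2,7,9,10,11] (.node (.cons (.leaf 1 [(9,1),(3,1)]) (.cons (.leaf 1 [(9,1),(3,1)]) (.cons (.leaf 1 [(9,1),(3,1)]) (.cons (.leaf 1 [(1,1),(5,1)]) (.cons (.leaf 1 [(10,1),(3,2)]) (.cons (.leaf 1 [(0,1),(3,2),(10,1),(9,1)]) (.cons (.leaf 1 [(5,2),(1,1),(7,1)]) (.cons (.leaf 1 [(10,1),(11,1)]) (.cons (.leaf 1 [(9,1),(11,1),(0,1),(10,1)]) .nil))))))))))) .nil))))))))))) (.cons (.leaf 1 [(8,1),(1,1)])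 (.cons (.leaf 2 [(10,2),(1,1),(8,1)]) (.cons (.leaf 1 [(10,1),(1,1),(9,1)]) (.cons (.leaf 1 [(5,1),(1,2)]) (.cons (.leaf 1 [(10,1),(1,1)]) (.cons (.leaf 1 [(10,1),(1,1)]) .nil))))))))))) (.cons (.keep [1,5,6,8,11] (.node (.cons (.leaf 1 [(11,1)]) (.cons (.leaf 1 [(3,1)]) (.cons (.keep [7,8,9,10,11] (.node (.cons (.leaf 1 [(3,1)]) (.cons (.leaf 1 [(3,1)]) (.cons (.leaf 1 [(3,1)]) (.cons (.leaf 2 [(5,1),(8,1)]) (.cons (.leaf 2 [(3,1),(9,1)]) (.cons (.leaf 2 [(3,1),(9,1)]) (.cons (.leaf 2 [(5,1),(8,1)]) (.cons (.keep [0,1,8,9] (.node (.cons (.leaf 1 [(2,1)]) (.cons (.leaf 1 [(2,1)]) (.cons (.leaf 1 [(2,1)]) (.cons (.leaf 3 [(9,1),(10,1)]) (.cons (.leaf 1 [(3,1),(9,1)]) (.cons (.leaf 1 [(0,1),(9,1)]) (.cons (.leaf 3 [(9,1),(10,1),(2,1)]) (.cons (.leaf 1 [(9,1)]) (.cons (.leaf 1 [(0,1),(2,1),(9,1)])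 .nil))))))))))) (.cons (.keep [0,5,8,9,10] (.node (.cons (.leaf 1 [(2,1)]) (.cons (.leaf 1 [(2,1)]) (.cons (.leaf 1 [(2,1)]) (.cons (.leaf 3 [(9,1),(10,1)]) (.cons (.leaf 1 [(3,1),(9,1)]) (.cons (.leaf 1 [(0,1),(9,1)]) (.cons (.leaf 3 [(9,1),(10,1),(2,1)]) (.cons (.leaf 1 [(9,1)]) (.cons (.leaf 1 [(0,1),(2,1),(9,1)]) .nil))))))))))) .nil))))))))))) (.cons (.leaf 1 [(8,1),(1,1)]) (.cons (.leaf 1 [(3,1)]) (.cons (.leaf 1 [(1,1),(8,1)]) (.cons (.leaf 1 [(9,1),(1,1)]) (.cons (.leaf 1 []) (.cons (.leaf 1 [(1,1),(9,1)]) .nil))))))))))) (.cons (.keep [1,4,6,9,11] (.node (.cons (.leaf 1 [(8,1),(11,1)]) (.cons (.leaf 1 [(3,1),(8,1)]) (.cons (.keep [0,7,8,9,10,11] (.node (.cons (.leaf 1 [(3,1),(9,1)]) (.cons (.leaf 1 [(3,1),(9,1)]) (.cons (.leaf 1 [(3,1),(9,1)]) (.cons (.leaf 2 [(5,1),(9,1)])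 (.cons (.leaf 2 [(10,1),(3,1),(9,1)]) (.cons (.leaf 2 [(10,1),(3,1),(9,1)]) (.cons (.leaf 1 [(5,1),(1,1)]) (.cons (.keep [6,7,9,10,11] (.node (.cons (.leaf 1 [(2,1),(9,1)]) (.cons (.leaf 1 [(3,1)]) (.cons (.leaf 1 [(9,1),(2,1)]) (.cons (.leaf 3 [(10,1),(9,1)]) (.cons (.leaf 1 [(3,1)]) (.cons (.leaf 1 [(9,1),(0,1)]) (.cons (.leaf 3 [(10,1),(9,1),(2,1)]) (.cons (.leaf 1 []) (.cons (.leaf 1 [(9,1),(2,1),(0,1)]) .nil))))))))))) (.cons (.keep [5,7,8,9,10,11] (.node (.cons (.leaf 1 [(2,1),(10,1)]) (.cons (.leaf 1 [(3,1)]) (.cons (.leaf 1 [(10,1),(2,1)]) (.cons (.leaf 3 [(11,1),(10,1)]) (.cons (.leaf 1 [(3,1)]) (.cons (.leaf 1 [(10,1),(0,1)]) (.cons (.leaf 3 [(11,1),(10,1),(2,1)]) (.cons (.leaf 1 []) (.cons (.leaf 1 [(10,1),(2,1),(0,1)]) .nil))))))))))) .nil))))))))))) (.cons (.leaf 1 [(1,1)])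 (.cons (.leaf 1 [(1,1)]) (.cons (.leaf 1 [(1,1)]) (.cons (.leaf 1 [(9,1),(1,1)]) (.cons (.leaf 1 [(8,1)]) (.cons (.leaf 1 [(9,1),(1,1)]) .nil))))))))))) (.cons (.keep [1,4,5,10,11] (.node (.cons (.leaf 1 [(8,1),(11,1)]) (.cons (.leaf 1 [(7,1),(4,1)]) (.cons (.keep [0,7,8,9,10,11] (.node (.cons (.leaf 1 [(3,1),(9,1)]) (.cons (.leaf 1 [(3,1),(9,1)]) (.cons (.leaf 1 [(3,1),(9,1)]) (.cons (.leaf 1 [(1,1)]) (.cons (.leaf 1 [(1,1)]) (.cons (.leaf 1 [(1,1)]) (.cons (.leaf 2 [(5,1),(10,1),(9,1)]) (.cons (.keep [6,7,9,10,11] (.node (.cons (.leaf 1 [(2,1),(9,1)]) (.cons (.leaf 1 [(2,1),(9,1)]) (.cons (.leaf 1 [(2,1),(9,1)]) (.cons (.leaf 3 [(10,1),(9,1)]) (.cons (.leaf 1 [(3,1),(10,1)]) (.cons (.leaf 1 [(0,1),(9,1),(10,1)]) (.cons (.leaf 1 [(5,1),(1,1)]) (.cons (.leaf 1 [(10,1)]) (.cons (.leaf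 1 [(2,1),(0,1),(9,1),(10,1)]) .nil))))))))))) (.cons (.keep [5,7,8,9,10,11] (.node (.cons (.leaf 1 [(2,1),(10,1)]) (.cons (.leaf 1 [(2,1),(10,1)]) (.cons (.leaf 1 [(2,1),(10,1)]) (.cons (.leaf 1 [(5,1),(1,1),(7,1)]) (.cons (.leaf 1 [(3,1),(11,1)]) (.cons (.leaf 1 [(0,1),(10,1),(11,1)]) (.cons (.leaf 1 [(5,1),(1,1)]) (.cons (.leaf 1 [(11,1)]) (.cons (.leaf 1 [(2,1),(0,1),(10,1),(11,1)]) .nil))))))))))) .nil))))))))))) (.cons (.leaf 1 [(1,1),(9,1)]) (.cons (.leaf 1 [(7,1),(4,1)]) (.cons (.leaf 1 [(1,1),(9,1)]) (.cons (.leaf 1 [(1,1)]) (.cons (.leaf 1 [(1,1)]) (.cons (.leaf 1 [(1,1)]) .nil))))))))))) (.cons (.leaf 1 [(5,1),(7,1)]) (.cons (.leaf 1 [(7,1)]) (.cons (.leaf 1 [(7,1),(5,1)]) .nil))))))))))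

theorem c_13_26_0 : Concl 13 26 z_13_26_0 h_13_26_0 .nd := piece _ hP_nil t_13_26_0 _ _ (by
  decide +kernel)

def z_13_26_1 : F := ⟨0, 1, 0, -1, 1⟩

def h_13_26_1 : List F := [⟨0, 1, 0, 0, 0⟩, ⟨-1, 0, 0, 1, 0⟩, ⟨0, 0, -1, 1, 0⟩, ⟨0, 0, 0, -1, 1⟩]

def t_13_26_1 : T := (.node (.cons (.keep [3,6,8,9] (.node (.cons (.keep [2,5,6,9] (.node (.cons (.leaf 1 []) (.cons (.leaf 1 [(10,1),(3,2)]) (.cons (.keep [0,8,9,10] (.node (.cons (.leaf 1 [(8,1)]) (.cons (.leaf 1 [(3,2)]) (.cons (.leaf 1 [(3,2),(10,1)]) (.cons (.leaf 1 [(1,1),(8,1)]) (.cons (.leaf 2 [(3,3),(9,1)]) (.cons (.leaf 1 [(3,1),(9,1),(10,1)]) (.cons (.leaf 1 [(8,1),(1,1)]) (.cons (.keep [0,1,8,9] (.node (.cons (.leaf 1 [(2,1)]) (.cons (.leaf 1 [(2,1)]) (.cons (.leaf 1 [(2,1)]) (.cons (.leaf 3 [(9,1),(10,1)]) (.cons (.leaf 1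 [(3,1),(9,1)]) (.cons (.leaf 1 [(0,1),(9,1)]) (.cons (.leaf 3 [(9,1),(10,1),(2,1)]) (.cons (.leaf 1 [(9,1)]) (.cons (.leaf 1 [(0,1),(2,1),(9,1)]) .nil))))))))))) (.cons (.keep [5,8,9,10] (.node (.cons (.leaf 1 [(3,1)]) (.cons (.leaf 1 [(3,1)]) (.cons (.leaf 1 [(3,1)]) (.cons (.leaf 3 [(8,1),(3,3),(9,1)]) (.cons (.leaf 1 [(3,2),(8,1)]) (.cons (.leaf 1 [(3,2),(0,1),(8,1)]) (.cons (.leaf 2 [(8,1),(10,1),(9,1)]) (.cons (.leaf 1 [(10,1),(8,2)]) (.cons (.leaf 1 [(10,1),(0,2),(8,2)]) .nil))))))))))) .nil))))))))))) (.cons (.leaf 1 [(1,1)]) (.cons (.leaf 1 [(10,1),(3,2)]) (.cons (.leaf 1 [(10,1),(1,2),(8,2)]) (.cons (.leaf 1 [(1,1)]) (.cons (.leaf 1 [(10,1)]) (.cons (.leaf 1 [(10,1),(1,2),(9,2)]) .nil))))))))))) (.cons (.keep [2,4,6,9] (.node (.cons (.leaf 1 [(8,1)]) (.cons (.leaf 1 [(10,1),(3,2),(8,2)])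 (.cons (.keep [0,8,9,10] (.node (.cons (.leaf 1 []) (.cons (.leaf 1 [(8,1),(3,2)]) (.cons (.leaf 1 [(3,2),(8,2),(10,1)]) (.cons (.leaf 1 [(1,1)]) (.cons (.leaf 1 [(1,1),(3,1),(9,1)]) (.cons (.leaf 1 [(9,1),(3,1),(8,1),(10,1)]) (.cons (.leaf 1 [(1,1)]) (.cons (.keep [6,7,8,9,10] (.node (.cons (.leaf 1 [(2,1),(9,1)]) (.cons (.leaf 1 [(3,1)]) (.cons (.leaf 1 [(9,1),(2,1)]) (.cons (.leaf 3 [(10,1),(9,1)]) (.cons (.leaf 1 [(3,1)]) (.cons (.leaf 1 [(9,1),(0,1)]) (.cons (.leaf 3 [(10,1),(9,1),(2,1)]) (.cons (.leaf 1 []) (.cons (.leaf 1 [(9,1),(2,1),(0,1)]) .nil))))))))))) (.cons (.keep [0,7,8,9,10] (.node (.cons (.leaf 1 [(9,1),(3,1)]) (.cons (.leaf 1 [(9,1),(3,1)]) (.cons (.leaf 1 [(9,1),(3,1)]) (.cons (.leaf 3 [(10,1),(9,1),(3,3)]) (.cons (.leaf 1 [(3,2)]) (.cons (.leaf 1 [(9,1),(3,2),(0,1)])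 (.cons (.leaf 1 [(10,1),(5,2),(9,1)]) (.cons (.leaf 1 [(11,1)]) (.cons (.leaf 1 [(11,1),(9,2),(0,2)]) .nil))))))))))) .nil))))))))))) (.cons (.leaf 1 [(8,1),(1,1)]) (.cons (.leaf 1 [(10,1),(1,2)]) (.cons (.leaf 1 [(10,1),(1,2)]) (.cons (.leaf 1 [(8,1),(1,1)]) (.cons (.leaf 1 [(10,1),(8,2)]) (.cons (.leaf 1 [(10,1),(9,2),(1,2)]) .nil))))))))))) (.cons (.keep [2,4,5,9] (.node (.cons (.leaf 1 [(8,1)]) (.cons (.leaf 1 [(10,1),(8,1)]) (.cons (.keep [0,8,9,10] (.node (.cons (.leaf 1 [(9,1)]) (.cons (.leaf 1 [(8,1),(3,2)]) (.cons (.leaf 1 [(3,2),(8,2),(10,1)]) (.cons (.leaf 1 [(9,1),(1,1)]) (.cons (.leaf 1 [(1,1),(3,1)]) (.cons (.leaf 1 [(1,2),(10,1)]) (.cons (.leaf 1 [(9,1),(1,1)]) (.cons (.keep [6,7,8,9,10] (.node (.cons (.leaf 1 [(2,1),(9,1)]) (.cons (.leaf 1 [(2,1),(9,1)]) (.cons (.leaf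 1 [(2,1),(9,1)]) (.cons (.leaf 3 [(10,1),(9,1)]) (.cons (.leaf 1 [(3,1),(10,1)]) (.cons (.leaf 1 [(0,1),(9,1),(10,1)]) (.cons (.leaf 1 [(5,1),(1,1)]) (.cons (.leaf 1 [(10,1)]) (.cons (.leaf 1 [(2,1),(0,1),(9,1),(10,1)]) .nil))))))))))) (.cons (.keep [0,7,8,9,10] (.node (.cons (.leaf 1 [(9,1),(3,1)]) (.cons (.leaf 1 [(9,1),(3,1)]) (.cons (.leaf 1 [(9,1),(3,1)]) (.cons (.leaf 1 [(1,1),(5,1)]) (.cons (.leaf 1 [(10,1),(3,2)]) (.cons (.leaf 1 [(0,1),(3,2),(10,1),(9,1)]) (.cons (.leaf 1 [(5,2),(1,2),(11,1)]) (.cons (.leaf 1 [(10,2),(11,1)]) (.cons (.leaf 1 [(9,2),(11,1),(0,2),(10,2)]) .nil))))))))))) .nil))))))))))) (.cons (.leaf 1 [(8,1),(1,1)]) (.cons (.leaf 1 [(10,1),(1,1),(8,1)]) (.cons (.leaf 1 [(10,1),(1,2),(9,2)]) (.cons (.leaf 1 [(5,1),(1,2)]) (.cons (.leaf 1 [(10,1),(1,2)]) (.cons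 (.leaf 1 [(10,1),(1,2)]) .nil))))))))))) (.cons (.keep [1,5,6,7,10] (.node (.cons (.leaf 1 [(10,1)]) (.cons (.leaf 1 [(3,1)]) (.cons (.keep [7,8,9,10,11] (.node (.cons (.leaf 1 [(3,1)]) (.cons (.leaf 1 [(3,1)]) (.cons (.leaf 1 [(3,1)]) (.cons (.leaf 2 [(5,1),(8,1)]) (.cons (.leaf 2 [(3,1),(9,1)]) (.cons (.leaf 2 [(3,1),(9,1)]) (.cons (.leaf 2 [(5,1),(8,1)]) (.cons (.keep [0,1,8,9] (.node (.cons (.leaf 1 [(2,1)]) (.cons (.leaf 1 [(2,1)]) (.cons (.leaf 1 [(2,1)]) (.cons (.leaf 3 [(9,1),(10,1)]) (.cons (.leaf 1 [(3,1),(9,1)]) (.cons (.leaf 1 [(0,1),(9,1)]) (.cons (.leaf 3 [(9,1),(10,1),(2,1)]) (.cons (.leaf 1 [(9,1)]) (.cons (.leaf 1 [(0,1),(2,1),(9,1)]) .nil))))))))))) (.cons (.keep [0,5,8,9,11] (.node (.cons (.leaf 1 [(2,1)]) (.cons (.leaf 1 [(2,1)]) (.cons (.leaf 1 [(2,1)]) (.cons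 (.leaf 3 [(9,1),(10,1)]) (.cons (.leaf 1 [(3,1),(9,1)]) (.cons (.leaf 1 [(0,1),(9,1)]) (.cons (.leaf 3 [(9,1),(10,1),(2,1)]) (.cons (.leaf 1 [(9,1)]) (.cons (.leaf 1 [(0,1),(2,1),(9,1)]) .nil))))))))))) .nil))))))))))) (.cons (.leaf 1 [(8,1),(1,1)]) (.cons (.leaf 1 [(3,1)]) (.cons (.leaf 1 [(1,1),(8,1)]) (.cons (.leaf 1 [(9,1),(1,1)]) (.cons (.leaf 1 []) (.cons (.leaf 1 [(1,1),(9,1)]) .nil))))))))))) (.cons (.keep [1,4,6,7,9] (.node (.cons (.leaf 1 [(8,1),(10,1)]) (.cons (.leaf 1 [(3,1),(8,1)]) (.cons (.keep [0,7,8,9,10,11] (.node (.cons (.leaf 1 [(3,1),(9,1)]) (.cons (.leaf 1 [(3,1),(9,1)]) (.cons (.leaf 1 [(3,1),(9,1)]) (.cons (.leaf 2 [(5,1),(9,1)]) (.cons (.leaf 2 [(10,1),(3,1),(9,1)]) (.cons (.leaf 2 [(10,1),(3,1),(9,1)]) (.cons (.leaf 1 [(5,1),(1,1)]) (.cons (.keep [6,7,9,10,12]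 (.node (.cons (.leaf 1 [(2,1),(9,1)]) (.cons (.leaf 1 [(3,1)]) (.cons (.leaf 1 [(9,1),(2,1)]) (.cons (.leaf 3 [(10,1),(9,1)]) (.cons (.leaf 1 [(3,1)]) (.cons (.leaf 1 [(9,1),(0,1)]) (.cons (.leaf 3 [(10,1),(9,1),(2,1)]) (.cons (.leaf 1 []) (.cons (.leaf 1 [(9,1),(2,1),(0,1)]) .nil))))))))))) (.cons (.keep [5,7,8,9,10,12] (.node (.cons (.leaf 1 [(2,1),(10,1)]) (.cons (.leaf 1 [(3,1)]) (.cons (.leaf 1 [(10,1),(2,1)]) (.cons (.leaf 3 [(11,1),(10,1)]) (.cons (.leaf 1 [(3,1)]) (.cons (.leaf 1 [(10,1),(0,1)]) (.cons (.leaf 3 [(11,1),(10,1),(2,1)]) (.cons (.leaf 1 []) (.cons (.leaf 1 [(10,1),(2,1),(0,1)]) .nil))))))))))) .nil))))))))))) (.cons (.leaf 1 [(1,1)]) (.cons (.leaf 1 [(1,1)]) (.cons (.leaf 1 [(1,1)]) (.cons (.leaf 1 [(9,1),(1,1)]) (.cons (.leaf 1 [(8,1)]) (.cons (.leaf 1 [(9,1),(1,1)])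 .nil))))))))))) (.cons (.keep [1,4,5,7,9] (.node (.cons (.leaf 1 [(8,1),(10,1)]) (.cons (.leaf 1 [(7,1),(4,1)]) (.cons (.keep [0,7,8,9,10,11] (.node (.cons (.leaf 1 [(3,1),(9,1)]) (.cons (.leaf 1 [(3,1),(9,1)]) (.cons (.leaf 1 [(3,1),(9,1)]) (.cons (.leaf 1 [(1,1)]) (.cons (.leaf 1 [(1,1)]) (.cons (.leaf 1 [(1,1)]) (.cons (.leaf 2 [(5,1),(10,1),(9,1)]) (.cons (.keep [6,7,9,10,12] (.node (.cons (.leaf 1 [(2,1),(9,1)]) (.cons (.leaf 1 [(2,1),(9,1)]) (.cons (.leaf 1 [(2,1),(9,1)]) (.cons (.leaf 3 [(10,1),(9,1)]) (.cons (.leaf 1 [(3,1),(10,1)]) (.cons (.leaf 1 [(0,1),(9,1),(10,1)]) (.cons (.leaf 1 [(5,1),(1,1)]) (.cons (.leaf 1 [(10,1)]) (.cons (.leaf 1 [(2,1),(0,1),(9,1),(10,1)]) .nil))))))))))) (.cons (.keep [5,7,8,9,10,12] (.node (.cons (.leaf 1 [(2,1),(10,1)]) (.cons (.leaf 1 [(2,1),(10,1)])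 (.cons (.leaf 1 [(2,1),(10,1)]) (.cons (.leaf 1 [(5,1),(1,1),(7,1)]) (.cons (.leaf 1 [(3,1),(11,1)]) (.cons (.leaf 1 [(0,1),(10,1),(11,1)]) (.cons (.leaf 1 [(5,1),(1,1)]) (.cons (.leaf 1 [(11,1)]) (.cons (.leaf 1 [(2,1),(0,1),(10,1),(11,1)]) .nil))))))))))) .nil))))))))))) (.cons (.leaf 1 [(1,1),(9,1)]) (.cons (.leaf 1 [(7,1),(4,1)]) (.cons (.leaf 1 [(1,1),(9,1)]) (.cons (.leaf 1 [(1,1)]) (.cons (.leaf 1 [(1,1)]) (.cons (.leaf 1 [(1,1)]) .nil))))))))))) (.cons (.leaf 1 [(5,2),(9,1)]) (.cons (.leaf 1 [(9,1)]) (.cons (.leaf 1 [(9,1),(5,2)]) .nil))))))))))) (.cons (.leaf 1 [(4,1)]) (.cons (.keep [0,4,8,9] (.node (.cons (.leaf 1 [(3,2),(9,1),(8,1)]) (.cons (.leaf 1 [(9,1)]) (.cons (.leaf 1 [(9,1),(8,1),(3,2)]) (.cons (.leaf 1 [(3,1),(8,1)]) (.cons (.leaf 2 [(1,1),(8,1)]) (.cons (.leaf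 1 [(8,1),(3,1)]) (.cons (.leaf 1 [(5,2),(1,1),(10,1)]) (.cons (.keep [2,6,7,9,10] (.node (.cons (.leaf 1 [(2,1),(10,1)]) (.cons (.leaf 1 [(2,1),(10,1)]) (.cons (.leaf 1 [(2,1),(10,1)]) (.cons (.leaf 3 [(11,1),(10,1)]) (.cons (.leaf 1 [(3,1),(11,1)]) (.cons (.leaf 1 [(0,1),(10,1),(11,1)]) (.cons (.leaf 1 [(5,1),(1,1)]) (.cons (.leaf 1 [(11,1)]) (.cons (.leaf 1 [(2,1),(0,1),(10,1),(11,1)]) .nil))))))))))) (.cons (.keep [5,7,8,9,10] (.node (.cons (.leaf 1 [(5,1),(7,1),(9,1)]) (.cons (.leaf 1 [(2,1),(7,1),(10,1)]) (.cons (.leaf 1 [(2,1),(7,1),(10,1)]) (.cons (.leaf 1 [(5,1),(7,2),(1,1)]) (.cons (.leaf 1 [(11,1)]) (.cons (.leaf 1 [(0,1),(7,2),(10,1),(11,1)]) (.cons (.leaf 1 [(1,1),(5,1),(2,1)]) (.cons (.leaf 1 [(11,1),(2,1)]) (.cons (.leaf 1 [(0,1),(11,1),(2,3),(10,1)]) .nil)))))))))))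 .nil))))))))))) (.cons (.keep [1,6,8,9,10] (.node (.cons (.leaf 1 [(7,3),(9,1)]) (.cons (.leaf 1 [(7,3),(9,1),(4,2)]) (.cons (.leaf 1 [(7,3),(9,1),(4,2)]) (.cons (.leaf 1 [(7,1)]) (.cons (.leaf 1 [(7,1),(4,1)]) (.cons (.leaf 1 [(7,1),(4,1)]) (.cons (.leaf 1 [(5,3),(1,1),(9,1)]) (.cons (.leaf 1 [(7,1),(9,1)]) (.cons (.leaf 1 [(7,1),(9,1),(5,2)]) .nil))))))))))) (.cons (.leaf 1 [(4,1)]) (.cons (.keep [0,1,4,8,9] (.node (.cons (.leaf 1 [(8,2),(3,1),(10,1)]) (.cons (.leaf 1 [(8,1),(10,1)]) (.cons (.leaf 1 [(8,2),(3,1),(10,1),(4,1)]) (.cons (.leaf 1 [(8,1)]) (.cons (.leaf 1 [(8,1),(4,1)]) (.cons (.leaf 1 [(8,1),(4,1)]) (.cons (.leaf 1 [(5,2),(10,1)]) (.cons (.leaf 1 [(8,1),(11,1)]) (.cons (.leaf 1 [(8,1),(11,1),(5,1)]) .nil))))))))))) (.cons (.keep [1,2,6,7,10] (.leaf 0 [(0,0)])) (.cons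 (.leaf 1 [(4,1)]) (.cons (.keep [0,1,2,4,8] (.node (.cons (.leaf 1 [(3,1),(8,1),(10,1)]) (.cons (.leaf 2 [(8,2),(10,1)]) (.cons (.leaf 1 [(8,1),(10,1),(3,1)]) (.cons (.leaf 1 [(3,1),(10,1)]) (.cons (.leaf 2 [(1,1),(10,1)]) (.cons (.leaf 1 [(10,1),(3,1)]) (.cons (.leaf 1 [(5,1),(8,1)]) (.cons (.leaf 1 [(8,1)]) (.cons (.leaf 1 [(8,1),(5,1)]) .nil))))))))))) .nil))))))))))

theorem c_13_26_1 : Concl 13 26 z_13_26_1 h_13_26_1 .nd := piece _ (hP_cons c_13_26_0 hP_nil)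
  t_13_26_1 _ _ (by decide +kernel)

def t_13_26 : T := (.keep [0,1,2] (.node (.cons (.keep [2,5,6,7] (.node (.cons (.leaf 1 [(7,1)]) (.cons (.leaf 1 [(3,1)]) (.cons (.keep [7,8,9,10] (.node (.cons (.leaf 1 [(3,1)]) (.cons (.leaf 1 [(3,1)]) (.cons (.leaf 1 [(3,1)]) (.cons (.leaf 2 [(5,1),(8,1)]) (.cons (.leaf 2 [(3,1),(9,1)]) (.cons (.leaf 2 [(3,1),(9,1)]) (.cons (.leaf 2 [(5,1),(8,1)]) (.cons (.keep [0,1,8,9] (.node (.cons (.leaf 1 [(2,1)]) (.cons (.leaf 1 [(2,1)]) (.cons (.leaf 1 [(2,1)]) (.cons (.leaf 3 [(9,1),(10,1)]) (.cons (.leaf 1 [(3,1),(9,1)]) (.cons (.leaf 1 [(0,1),(9,1)]) (.cons (.leaf 3 [(9,1),(10,1),(2,1)]) (.cons (.leaf 1 [(9,1)]) (.cons (.leaf 1 [(0,1),(2,1),(9,1)]) .nil))))))))))) (.cons (.keep [0,1,5,8,9] (.node (.cons (.leaf 1 [(2,1)]) (.cons (.leaf 1 [(2,1)]) (.cons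 (.leaf 1 [(2,1)]) (.cons (.leaf 3 [(10,1),(11,1)]) (.cons (.leaf 1 [(3,1),(10,1)]) (.cons (.leaf 1 [(0,1),(10,1)]) (.cons (.leaf 3 [(10,1),(11,1),(2,1)]) (.cons (.leaf 1 [(10,1)]) (.cons (.leaf 1 [(0,1),(2,1),(10,1)]) .nil))))))))))) .nil))))))))))) (.cons (.leaf 1 [(7,1),(1,1)]) (.cons (.leaf 1 [(3,1)]) (.cons (.leaf 1 [(1,1),(8,1)]) (.cons (.leaf 1 [(7,1),(1,1)]) (.cons (.leaf 1 []) (.cons (.leaf 1 [(1,1),(9,1)]) .nil))))))))))) (.cons (.keep [2,3,4,6] (.node (.cons (.leaf 1 [(9,1),(7,1)]) (.cons (.leaf 1 [(3,1),(9,1)]) (.cons (.keep [0,2,7,9,10] (.node (.cons (.leaf 1 [(9,1)]) (.cons (.leaf 1 [(3,1),(10,1)]) (.cons (.leaf 1 [(3,1),(10,1)]) (.cons (.leaf 1 [(9,1),(1,1)]) (.cons (.leaf 1 [(1,1),(11,1)]) (.cons (.leaf 2 [(11,1),(3,1),(10,1)]) (.cons (.leaf 1 [(5,1),(1,1)]) (.cons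 (.keep [6,7,8,10,11] (.node (.cons (.leaf 1 [(2,1),(10,1)]) (.cons (.leaf 1 [(3,1)]) (.cons (.leaf 1 [(10,1),(2,1)]) (.cons (.leaf 3 [(11,1),(10,1)]) (.cons (.leaf 1 [(3,1)]) (.cons (.leaf 1 [(10,1),(0,1)]) (.cons (.leaf 3 [(11,1),(10,1),(2,1)]) (.cons (.leaf 1 []) (.cons (.leaf 1 [(10,1),(2,1),(0,1)]) .nil))))))))))) (.cons (.keep [0,5,8,10,11] (.node (.cons (.leaf 1 [(2,1),(10,1)]) (.cons (.leaf 1 [(3,1)]) (.cons (.leaf 1 [(10,1),(2,1)]) (.cons (.leaf 3 [(11,1),(10,1)]) (.cons (.leaf 1 [(3,1)]) (.cons (.leaf 1 [(10,1),(0,1)]) (.cons (.leaf 3 [(11,1),(10,1),(2,1)]) (.cons (.leaf 1 []) (.cons (.leaf 1 [(10,1),(2,1),(0,1)]) .nil))))))))))) .nil))))))))))) (.cons (.leaf 1 [(1,1)]) (.cons (.leaf 1 [(1,1)]) (.cons (.leaf 1 [(1,1)]) (.cons (.leaf 1 [(9,1),(7,1),(1,1)]) (.cons (.leaf 1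 [(9,1)]) (.cons (.leaf 1 [(10,1),(1,1)]) .nil))))))))))) (.cons (.keep [0,2,4,5] (.node (.cons (.leaf 1 [(9,1),(8,1)]) (.cons (.leaf 2 [(9,1)]) (.cons (.keep [0,5,8,9,10] (.node (.cons (.leaf 1 [(3,1),(10,1)]) (.cons (.leaf 1 [(3,1),(10,1)]) (.cons (.leaf 1 [(3,1),(10,1)]) (.cons (.leaf 1 [(1,1)]) (.cons (.leaf 1 [(1,1)]) (.cons (.leaf 1 [(1,1)]) (.cons (.leaf 2 [(5,1),(11,1),(10,1)]) (.cons (.keep [2,6,7,10,11] (.node (.cons (.leaf 1 [(2,1),(10,1)]) (.cons (.leaf 1 [(2,1),(10,1)]) (.cons (.leaf 1 [(2,1),(10,1)]) (.cons (.leaf 3 [(11,1),(10,1)]) (.cons (.leaf 1 [(3,1),(11,1)]) (.cons (.leaf 1 [(0,1),(10,1),(11,1)]) (.cons (.leaf 1 [(5,1),(1,1)]) (.cons (.leaf 1 [(11,1)]) (.cons (.leaf 1 [(2,1),(0,1),(10,1),(11,1)]) .nil))))))))))) (.cons (.keep [0,2,5,10,11] (.node (.cons (.leaf 1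 [(2,1),(10,1)]) (.cons (.leaf 1 [(2,1),(10,1)]) (.cons (.leaf 1 [(2,1),(10,1)]) (.cons (.leaf 1 [(5,1),(1,1),(9,1)]) (.cons (.leaf 1 [(3,1),(11,1)]) (.cons (.leaf 1 [(0,1),(10,1),(11,1)]) (.cons (.leaf 1 [(5,1),(1,1)]) (.cons (.leaf 1 [(11,1)]) (.cons (.leaf 1 [(0,1),(10,1),(2,1),(11,1)]) .nil))))))))))) .nil))))))))))) (.cons (.leaf 1 [(9,1),(1,1),(8,1)]) (.cons (.leaf 2 [(1,1),(9,1)]) (.cons (.leaf 1 [(1,1),(10,1)]) (.cons (.leaf 1 [(1,1)]) (.cons (.leaf 1 [(1,1)]) (.cons (.leaf 1 [(1,1)]) .nil))))))))))) (.cons (.keep [1,5,6,8] (.node (.cons (.keep [6,7,8,9] (.node (.cons (.keep [5,6,8,10] (.node (.cons (.leaf 1 [(10,1)]) (.cons (.leaf 1 [(3,2)]) (.cons (.keep [0,7,8,10] (.node (.cons (.leaf 1 [(3,2)]) (.cons (.leaf 1 [(3,2)]) (.cons (.leaf 1 [(3,2)]) (.cons (.leaf 1 [(5,1),(8,1)])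 (.cons (.leaf 1 [(3,1),(9,1)]) (.cons (.leaf 1 [(3,1),(9,1)]) (.cons (.leaf 1 [(5,1),(8,1)]) (.cons (.leaf 1 [(10,2)]) (.cons (.keep [0,5,8,9,10] (.node (.cons (.leaf 1 [(2,2)]) (.cons (.leaf 1 [(2,2)]) (.cons (.leaf 1 [(2,2)]) (.cons (.leaf 3 [(9,2),(10,2)]) (.cons (.leaf 1 [(3,2),(9,2)]) (.cons (.leaf 1 [(3,2),(11,2)]) (.cons (.leaf 3 [(9,2),(10,2),(2,2)]) (.cons (.leaf 1 [(9,2)]) (.cons (.leaf 1 [(0,2),(11,2),(9,2)]) .nil))))))))))) .nil))))))))))) (.cons (.leaf 1 [(7,2),(1,2)]) (.cons (.leaf 1 [(3,2)]) (.cons (.leaf 1 [(1,2),(7,2)]) (.cons (.leaf 1 [(8,2),(1,2)]) (.cons (.leaf 1 []) (.cons (.leaf 1 [(1,2),(8,2)]) .nil))))))))))) (.cons (.keep [3,4,6,10] (.node (.cons (.leaf 1 [(8,1),(10,1)]) (.cons (.leaf 1 [(3,2),(8,2)]) (.cons (.keep [0,8,9,10] (.node (.cons (.leaf 1 [(3,2),(8,2)])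 (.cons (.leaf 1 [(3,2),(8,2)]) (.cons (.leaf 1 [(3,2),(8,2)]) (.cons (.leaf 1 [(5,1),(8,1)]) (.cons (.leaf 1 [(9,1),(3,1),(8,1)]) (.cons (.leaf 1 [(9,1),(3,1),(8,1)]) (.cons (.leaf 1 [(5,2),(1,2)]) (.cons (.leaf 1 [(10,2)]) (.cons (.keep [0,7,8,9,10] (.node (.cons (.leaf 1 [(2,2),(9,2)]) (.cons (.leaf 1 [(3,2)]) (.cons (.leaf 1 [(9,2),(2,2)]) (.cons (.leaf 3 [(10,2),(9,2)]) (.cons (.leaf 1 [(3,2)]) (.cons (.leaf 1 [(3,2),(11,2)]) (.cons (.leaf 3 [(10,2),(9,2),(2,2)]) (.cons (.leaf 1 []) (.cons (.leaf 1 [(9,2),(11,2),(0,2)]) .nil))))))))))) .nil))))))))))) (.cons (.leaf 1 [(1,2)]) (.cons (.leaf 1 [(1,2)]) (.cons (.leaf 1 [(1,2)]) (.cons (.leaf 1 [(9,2),(1,2)]) (.cons (.leaf 1 [(8,2)]) (.cons (.leaf 1 [(9,2),(1,2)]) .nil))))))))))) (.cons (.keep [0,4,5,10] (.node (.cons (.leaf 1 [(8,1),(10,1)])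 (.cons (.leaf 1 [(8,1)]) (.cons (.keep [0,8,9,10] (.node (.cons (.leaf 1 [(3,2),(8,2)]) (.cons (.leaf 1 [(3,2),(8,2)]) (.cons (.leaf 1 [(3,2),(8,2)]) (.cons (.leaf 1 [(1,2)]) (.cons (.leaf 1 [(1,2)]) (.cons (.leaf 1 [(1,2)]) (.cons (.leaf 1 [(5,1),(9,1),(8,1)]) (.cons (.leaf 1 [(10,2)]) (.cons (.keep [0,7,8,9,10] (.node (.cons (.leaf 1 [(2,2),(9,2)]) (.cons (.leaf 1 [(2,2),(9,2)]) (.cons (.leaf 1 [(2,2),(9,2)]) (.cons (.leaf 3 [(10,2),(9,2)]) (.cons (.leaf 1 [(3,2),(10,2)]) (.cons (.leaf 1 [(3,2),(11,2)]) (.cons (.leaf 1 [(5,2),(1,2)]) (.cons (.leaf 1 [(10,2)]) (.cons (.leaf 1 [(0,2),(9,2),(11,2),(10,2)]) .nil))))))))))) .nil))))))))))) (.cons (.leaf 1 [(1,2),(9,2)]) (.cons (.leaf 1 [(1,1),(8,1)]) (.cons (.leaf 1 [(1,2),(9,2)]) (.cons (.leaf 1 [(1,2)]) (.cons (.leaf 1 [(1,2)]) (.cons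 (.leaf 1 [(1,2)]) .nil))))))))))) (.cons (.leaf 1 [(1,2),(10,2)]) (.cons (.leaf 1 [(10,2),(1,2)]) (.cons (.leaf 1 [(10,2),(1,2)]) (.cons (.leaf 1 [(5,2)]) (.cons (.leaf 1 []) (.cons (.leaf 1 [(5,2)]) .nil))))))))))) (.cons (.leaf 1 [(4,1),(3,2)]) (.cons (.keep [0,4,8,9] (.node (.cons (.leaf 1 [(5,1)]) (.cons (.leaf 1 []) (.cons (.leaf 1 [(5,1)]) (.cons (.leaf 1 [(5,1),(8,1),(9,1)]) (.cons (.leaf 3 [(10,2),(8,1)]) (.cons (.leaf 3 [(10,2),(5,2),(8,1)]) (.cons (.leaf 2 [(5,3),(9,1)]) (.cons (.keep [0,1,9,10] (.node (.cons (.leaf 1 [(2,1)]) (.cons (.leaf 1 [(2,1)]) (.cons (.leaf 1 [(2,1)]) (.cons (.leaf 3 [(9,1),(10,1)]) (.cons (.leaf 1 [(3,1),(9,1)]) (.cons (.leaf 1 [(0,1),(9,1)]) (.cons (.leaf 3 [(9,1),(10,1),(2,1)]) (.cons (.leaf 1 [(9,1)]) (.cons (.leaf 1 [(0,1),(2,1),(9,1)]) .nil)))))))))))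 (.cons (.keep [0,5,8,9,10] (.node (.cons (.leaf 1 [(2,1),(8,1)]) (.cons (.leaf 1 [(2,1),(8,1)]) (.cons (.leaf 1 [(2,1),(8,1)]) (.cons (.leaf 3 [(10,1),(11,1),(8,3)]) (.cons (.leaf 1 [(10,1)]) (.cons (.leaf 1 [(0,1),(8,2),(10,1)]) (.cons (.leaf 3 [(10,1),(11,1),(2,4)]) (.cons (.leaf 1 [(10,1),(2,1)]) (.cons (.leaf 1 [(0,1),(2,3),(10,1)]) .nil))))))))))) .nil))))))))))) (.cons (.leaf 1 [(8,2),(1,1)]) (.cons (.leaf 1 [(4,1),(3,1),(8,1)]) (.cons (.leaf 1 [(4,1),(1,1),(8,2)]) (.cons (.leaf 1 [(9,2),(1,1)]) (.cons (.leaf 1 [(9,1),(4,1)]) (.cons (.leaf 1 [(4,1),(1,1),(9,2)]) .nil))))))))))) (.cons (.keep [1,4,6,8] (.node (.cons (.keep [2,6,8,9] (.node (.cons (.keep [5,6,7,10] (.node (.cons (.leaf 1 [(10,1)]) (.cons (.leaf 1 [(3,2)]) (.cons (.keep [0,7,8,10] (.node (.cons (.leaf 1 [(3,2)])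 (.cons (.leaf 1 [(3,2)]) (.cons (.leaf 1 [(3,2)]) (.cons (.leaf 1 [(5,1),(8,1)]) (.cons (.leaf 1 [(3,1),(9,1)]) (.cons (.leaf 1 [(3,1),(9,1)]) (.cons (.leaf 1 [(5,1),(8,1)]) (.cons (.leaf 1 [(10,2)]) (.cons (.keep [0,5,8,9,10] (.node (.cons (.leaf 1 [(2,2)]) (.cons (.leaf 1 [(2,2)]) (.cons (.leaf 1 [(2,2)]) (.cons (.leaf 3 [(9,2),(10,2)]) (.cons (.leaf 1 [(3,2),(9,2)]) (.cons (.leaf 1 [(3,2),(11,2)]) (.cons (.leaf 3 [(9,2),(10,2),(2,2)]) (.cons (.leaf 1 [(9,2)]) (.cons (.leaf 1 [(0,2),(11,2),(9,2)]) .nil))))))))))) .nil))))))))))) (.cons (.leaf 1 [(7,2),(1,2)]) (.cons (.leaf 1 [(3,2)]) (.cons (.leaf 1 [(1,2),(7,2)]) (.cons (.leaf 1 [(8,2),(1,2)]) (.cons (.leaf 1 []) (.cons (.leaf 1 [(1,2),(8,2)]) .nil))))))))))) (.cons (.keep [4,6,7,9,10] (.node (.cons (.leaf 1 [(11,1),(7,1)]) (.cons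 (.leaf 1 [(7,1),(3,2)]) (.cons (.keep [7,8,9,10,11] (.node (.cons (.leaf 1 [(5,1)]) (.cons (.leaf 1 [(7,1),(3,2)]) (.cons (.leaf 1 [(7,1),(3,2)]) (.cons (.leaf 1 [(5,1)]) (.cons (.leaf 1 [(8,1),(3,1)]) (.cons (.leaf 1 [(8,1),(3,1)]) (.cons (.leaf 1 [(5,1)]) (.cons (.leaf 1 [(7,1),(11,2)]) (.cons (.keep [0,5,7,8,11] (.node (.cons (.leaf 1 [(9,1),(2,2)]) (.cons (.leaf 1 [(2,1),(3,1)]) (.cons (.leaf 1 [(2,2),(9,1)]) (.cons (.leaf 1 [(5,1),(10,1),(8,1)]) (.cons (.leaf 1 [(3,2),(11,1)]) (.cons (.leaf 1 [(9,1),(11,2),(3,2)]) (.cons (.leaf 1 [(10,1),(5,1),(2,1)]) (.cons (.leaf 1 [(7,1),(11,1)]) (.cons (.leaf 1 [(11,2),(9,1),(0,2)]) .nil))))))))))) .nil))))))))))) (.cons (.leaf 1 [(10,1),(1,2)]) (.cons (.leaf 1 [(1,1),(3,1)]) (.cons (.leaf 1 [(1,2),(10,1)]) (.cons (.leaf 1 [(10,1),(8,2),(1,2)])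 (.cons (.leaf 1 [(7,1)]) (.cons (.leaf 1 [(8,2),(1,2),(10,1)]) .nil))))))))))) (.cons (.keep [4,5,7,9,10] (.node (.cons (.leaf 1 [(11,1),(7,1)]) (.cons (.leaf 1 []) (.cons (.keep [7,8,9,10,11] (.node (.cons (.leaf 1 [(7,1),(3,2)]) (.cons (.leaf 1 [(7,1),(3,2)]) (.cons (.leaf 1 [(7,1),(3,2)]) (.cons (.leaf 1 [(3,1)]) (.cons (.leaf 1 [(3,1)]) (.cons (.leaf 1 [(3,1)]) (.cons (.leaf 1 [(5,1),(8,1)]) (.cons (.leaf 1 [(7,1),(11,2)]) (.cons (.keep [0,5,7,8,11] (.node (.cons (.leaf 1 [(5,1),(8,1)]) (.cons (.leaf 1 [(9,1),(2,2)]) (.cons (.leaf 1 [(9,1),(2,2)]) (.cons (.leaf 1 [(5,1),(8,1)]) (.cons (.leaf 1 [(3,2),(11,1),(10,1)]) (.cons (.leaf 1 [(9,1),(3,2),(11,2)]) (.cons (.leaf 1 [(5,1),(2,1)]) (.cons (.leaf 1 [(10,2),(7,1),(11,1)]) (.cons (.leaf 1 [(9,1),(0,2),(11,2),(10,2)]) .nil)))))))))))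 .nil))))))))))) (.cons (.leaf 1 [(10,1),(1,2),(8,2)]) (.cons (.leaf 1 [(1,1)]) (.cons (.leaf 1 [(1,2),(8,2),(10,1)]) (.cons (.leaf 1 [(10,1),(1,2)]) (.cons (.leaf 1 [(1,1)]) (.cons (.leaf 1 [(1,2),(10,1)]) .nil))))))))))) (.cons (.leaf 1 [(1,1),(10,2)]) (.cons (.leaf 1 [(10,2),(4,1),(1,1)]) (.cons (.leaf 1 [(10,2),(4,1),(1,1)]) (.cons (.leaf 1 [(1,1),(5,2)]) (.cons (.leaf 1 [(9,1)]) (.cons (.leaf 1 [(9,1),(5,2)]) .nil))))))))))) (.cons (.leaf 1 [(3,2),(8,1),(4,1)]) (.cons (.keep [0,4,8,9] (.node (.cons (.leaf 1 [(3,2),(8,2)]) (.cons (.leaf 1 [(9,1)]) (.cons (.leaf 1 [(9,1),(8,1),(3,2)]) (.cons (.leaf 1 [(5,1),(8,1)]) (.cons (.leaf 2 [(10,2),(4,1),(9,1)]) (.cons (.leaf 2 [(10,2),(4,1),(9,1),(5,1)]) (.cons (.leaf 1 [(1,1),(5,2)]) (.cons (.keep [4,6,7,9,10] (.node (.cons (.leaf 1 [(2,1),(10,1)])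 (.cons (.leaf 1 [(3,1)]) (.cons (.leaf 1 [(10,1),(2,1)]) (.cons (.leaf 3 [(11,1),(10,1)]) (.cons (.leaf 1 [(3,1)]) (.cons (.leaf 1 [(10,1),(0,1)]) (.cons (.leaf 3 [(11,1),(10,1),(2,1)]) (.cons (.leaf 1 []) (.cons (.leaf 1 [(10,1),(2,1),(0,1)]) .nil))))))))))) (.cons (.keep [5,7,8,9,10] (.node (.cons (.leaf 1 [(2,1),(7,1),(10,1)]) (.cons (.leaf 1 [(2,1)]) (.cons (.leaf 1 [(7,1),(10,1),(2,1)]) (.cons (.leaf 3 [(11,1),(10,1),(7,3)]) (.cons (.leaf 1 []) (.cons (.leaf 1 [(10,1),(7,2),(0,1)]) (.cons (.leaf 3 [(11,1),(2,4),(10,1)]) (.cons (.leaf 1 [(2,1)]) (.cons (.leaf 1 [(2,3),(10,1),(0,1)]) .nil))))))))))) .nil))))))))))) (.cons (.keep [1,3,6,7,10] (.node (.cons (.leaf 1 [(7,2)]) (.cons (.leaf 1 [(7,2),(4,1)]) (.cons (.leaf 1 [(7,2),(4,1)]) (.cons (.leaf 1 [(7,1),(8,1)]) (.cons (.leaf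 1 [(7,1),(8,1),(4,1)]) (.cons (.leaf 1 [(7,1),(8,1),(4,1)]) (.cons (.leaf 1 [(1,1),(5,2)]) (.cons (.leaf 1 [(7,1)]) (.cons (.leaf 1 [(7,1),(5,1)]) .nil))))))))))) (.cons (.leaf 1 [(3,1),(4,1)]) (.cons (.keep [0,1,3,4,8] (.node (.cons (.leaf 1 [(8,2)]) (.cons (.leaf 1 [(8,2),(4,1)]) (.cons (.leaf 1 [(8,2),(4,1)]) (.cons (.leaf 1 [(8,1),(9,1)]) (.cons (.leaf 1 [(8,1),(9,1),(4,1)]) (.cons (.leaf 1 [(8,1),(9,1),(4,1)]) (.cons (.leaf 1 [(1,1),(5,2)]) (.cons (.leaf 1 [(8,1)]) (.cons (.leaf 1 [(8,1),(5,1)]) .nil))))))))))) (.cons (.keep [1,6,8,9,10] (.node (.cons (.leaf 1 [(10,2),(7,2)]) (.cons (.leaf 1 [(10,2),(7,2),(4,1)]) (.cons (.leaf 1 [(10,2),(7,2),(4,1)]) (.cons (.leaf 1 [(1,1),(10,2)]) (.cons (.leaf 1 [(10,2),(4,1),(1,1)]) (.cons (.leaf 1 [(10,2),(4,1),(1,1)]) (.cons (.leaf 1 [(1,1),(5,2)])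 (.cons (.leaf 1 [(9,1),(7,1)]) (.cons (.leaf 1 [(9,1),(7,1),(5,2)]) .nil))))))))))) (.cons (.leaf 1 [(9,1),(4,1)]) (.cons (.keep [0,1,4,8,9] (.node (.cons (.leaf 1 [(3,2),(9,2)]) (.cons (.leaf 1 [(8,1),(10,1)]) (.cons (.leaf 1 [(10,1),(8,1),(9,1),(3,2)]) (.cons (.leaf 1 [(5,1),(9,1)]) (.cons (.leaf 1 [(10,1)]) (.cons (.leaf 1 [(10,1),(5,1)]) (.cons (.leaf 1 [(1,1),(5,2)]) (.cons (.leaf 1 [(11,1),(8,1)]) (.cons (.leaf 1 [(11,1),(8,1),(5,1)]) .nil))))))))))) .nil))))))))))) (.cons (.keep [1,4,5,8] (.leaf 0 [(0,0)])) (.cons (.leaf 1 [(5,1)]) (.cons (.leaf 1 []) (.cons (.leaf 1 [(5,1)]) .nil)))))))))))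

theorem e_13_26 : ESB (caseOf 4 13 26) := esb_of_pieces _ (hP_cons c_13_26_1 hP_nil) t_13_26 (by
  decide +kernel)

def t_13_27 : T := (.keep [0,1,2] (.node (.cons (.leaf 1 []) (.cons (.leaf 1 [(4,1)]) (.cons (.leaf 1 [(4,1)]) (.cons (.leaf 1 [(4,1)]) (.cons (.keep [1,5,6,7] (.node (.cons (.leaf 1 [(5,1)]) (.cons (.keep [0,2,3,4] (.node (.cons (.leaf 1 []) (.cons (.leaf 1 [(4,1)]) (.cons (.leaf 1 [(4,1)]) (.cons (.leaf 1 [(4,1)]) (.cons (.leaf 1 [(10,1)]) (.cons (.leaf 1 [(4,1),(10,1)]) (.cons (.leaf 1 [(10,1),(4,1)]) (.cons (.leaf 1 [(10,1),(4,1)]) (.cons (.leaf 1 [(6,1)]) (.cons (.leaf 1 [(6,1)]) (.cons (.leaf 1 []) (.cons (.leaf 1 [(6,1)]) .nil)))))))))))))) (.cons (.leaf 1 [(3,1),(5,1)]) (.cons (.keep [0,2,3,5,8] (.node (.cons (.leaf 1 []) (.cons (.leaf 1 [(4,1)]) (.cons (.leaf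 1 [(4,1)]) (.cons (.leaf 1 [(4,1)]) (.cons (.leaf 1 [(10,1)]) (.cons (.leaf 1 [(4,1),(10,1)]) (.cons (.leaf 1 [(10,1),(4,1)]) (.cons (.leaf 1 [(10,1),(4,1)]) (.cons (.leaf 1 [(6,1)]) (.cons (.leaf 1 [(6,1)]) (.cons (.leaf 1 []) (.cons (.leaf 1 [(6,1)]) .nil)))))))))))))) (.cons (.leaf 1 [(5,1)]) (.cons (.keep [0,1,9,10,11] (.node (.cons (.leaf 1 []) (.cons (.leaf 1 [(4,1)]) (.cons (.leaf 1 [(4,1)]) (.cons (.leaf 1 [(4,1)]) (.cons (.leaf 1 [(12,1)]) (.cons (.leaf 1 [(4,1),(12,1)]) (.cons (.leaf 1 [(12,1),(4,1)]) (.cons (.leaf 1 [(12,1),(4,1)]) (.cons (.leaf 1 [(6,1)]) (.cons (.leaf 1 [(6,1)]) (.cons (.leaf 1 []) (.cons (.leaf 1 [(6,1)]) .nil)))))))))))))) (.cons (.leaf 1 [(10,1),(3,1),(5,1)]) (.cons (.keep [0,1,5,9,10,11] (.node (.cons (.leaf 1 []) (.cons (.leaf 1 [(4,1)]) (.cons (.leaf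 1 [(4,1)]) (.cons (.leaf 1 [(4,1)]) (.cons (.leaf 1 [(6,1),(10,1)]) (.cons (.leaf 1 [(6,1),(12,1),(10,1)]) (.cons (.leaf 2 [(13,1),(10,1)]) (.cons (.leaf 2 [(13,1),(10,1),(6,1)]) (.cons (.leaf 1 [(6,1)]) (.cons (.leaf 1 [(6,1)]) (.cons (.leaf 1 []) (.cons (.leaf 1 [(6,1)]) .nil)))))))))))))) (.cons (.leaf 1 [(5,1)]) (.cons (.keep [0,1,6,10,11] (.node (.cons (.leaf 1 []) (.cons (.leaf 1 [(4,1)]) (.cons (.leaf 1 [(4,1)]) (.cons (.leaf 1 [(4,1)]) (.cons (.leaf 1 [(12,1)]) (.cons (.leaf 1 [(4,1),(12,1)]) (.cons (.leaf 1 [(12,1),(4,1)]) (.cons (.leaf 1 [(12,1),(4,1)]) (.cons (.leaf 1 [(6,1)]) (.cons (.leaf 1 [(6,1)]) (.cons (.leaf 1 []) (.cons (.leaf 1 [(6,1)]) .nil)))))))))))))) (.cons (.leaf 1 [(11,1),(5,1)]) (.cons (.keep [0,1,5,8,10,11] (.node (.cons (.leaf 1 []) (.cons (.leaf 1 [(4,1)])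 (.cons (.leaf 1 [(4,1)]) (.cons (.leaf 1 [(4,1)]) (.cons (.leaf 1 [(6,1),(10,1)]) (.cons (.leaf 1 [(6,1),(12,1),(10,1)]) (.cons (.leaf 2 [(13,1),(10,1)]) (.cons (.leaf 2 [(13,1),(10,1),(6,1)]) (.cons (.leaf 1 [(6,1)]) (.cons (.leaf 1 [(6,1)]) (.cons (.leaf 1 []) (.cons (.leaf 1 [(6,1)]) .nil)))))))))))))) .nil)))))))))))))) (.cons (.keep [4,6,7,8,9] (.node (.cons (.leaf 1 [(5,1)]) (.cons (.leaf 1 [(8,2)]) (.cons (.leaf 1 [(5,1),(3,2)]) (.cons (.leaf 1 [(5,1),(8,2)]) (.cons (.leaf 1 [(5,1),(1,1)]) (.cons (.leaf 1 [(9,1),(8,1)]) (.cons (.leaf 1 [(5,1),(3,1),(9,1)]) (.cons (.leaf 1 [(5,1),(8,1),(9,1)]) (.cons (.leaf 1 [(5,1),(1,1)]) (.cons (.leaf 1 [(10,1),(8,1)]) (.cons (.leaf 1 [(10,1),(5,1)]) (.cons (.leaf 1 [(5,1),(8,1),(10,1)]) .nil)))))))))))))) (.cons (.keep [4,5,7,9,10] (.node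 (.cons (.leaf 1 [(5,1),(8,1)]) (.cons (.keep [2,7,8,10,12] (.node (.cons (.leaf 1 [(10,1)]) (.cons (.leaf 1 [(4,2)]) (.cons (.leaf 1 [(10,1),(4,1)]) (.cons (.leaf 1 [(10,1),(4,1)]) (.cons (.leaf 1 [(11,1)]) (.cons (.leaf 1 [(4,1),(11,1)]) (.cons (.leaf 1 [(11,1),(4,1)]) (.cons (.leaf 1 [(11,1),(4,1)]) (.cons (.leaf 1 [(10,1),(6,1)]) (.cons (.leaf 1 [(4,1),(6,1)]) (.cons (.leaf 1 [(10,1)]) (.cons (.leaf 1 [(10,1),(6,1)]) .nil)))))))))))))) (.cons (.leaf 1 [(3,1),(8,1),(5,1)]) (.cons (.keep [0,5,8,10,12] (.node (.cons (.leaf 1 [(10,1)]) (.cons (.leaf 1 [(4,2)]) (.cons (.leaf 1 [(10,1),(4,1)]) (.cons (.leaf 1 [(10,1),(4,1)]) (.cons (.leaf 1 [(10,1),(6,1),(9,1)]) (.cons (.leaf 1 [(6,1),(9,1)]) (.cons (.leaf 2 [(10,1),(11,1),(9,1)]) (.cons (.leaf 2 [(10,1),(11,1),(9,1),(6,1)]) (.cons (.leaf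 1 [(10,1),(6,1)]) (.cons (.leaf 1 [(4,1),(6,1)]) (.cons (.leaf 1 [(10,1)]) (.cons (.leaf 1 [(10,1),(6,1)]) .nil)))))))))))))) (.cons (.leaf 1 [(5,1),(1,1)]) (.cons (.keep [1,3,7,11,12] (.node (.cons (.leaf 1 [(8,1)]) (.cons (.leaf 1 [(4,2)]) (.cons (.leaf 1 [(8,1),(4,1)]) (.cons (.leaf 1 [(8,1),(4,1)]) (.cons (.leaf 1 [(9,1)]) (.cons (.leaf 1 [(4,1),(9,1)]) (.cons (.leaf 1 [(9,1),(4,1)]) (.cons (.leaf 1 [(9,1),(4,1)]) (.cons (.leaf 1 [(8,1),(6,1)]) (.cons (.leaf 1 [(4,1),(6,1)]) (.cons (.leaf 1 [(8,1)]) (.cons (.leaf 1 [(8,1),(6,1)]) .nil)))))))))))))) (.cons (.leaf 1 [(3,1),(5,1)]) (.cons (.keep [0,1,3,5,12] (.node (.cons (.leaf 1 [(9,1)]) (.cons (.leaf 1 [(4,2)]) (.cons (.leaf 1 [(9,1),(4,1)]) (.cons (.leaf 1 [(9,1),(4,1)]) (.cons (.leaf 1 [(10,1)]) (.cons (.leaf 1 [(4,1),(10,1)])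 (.cons (.leaf 1 [(10,1),(4,1)]) (.cons (.leaf 1 [(10,1),(4,1)]) (.cons (.leaf 1 [(9,1),(6,1)]) (.cons (.leaf 1 [(4,1),(6,1)]) (.cons (.leaf 1 [(9,1)]) (.cons (.leaf 1 [(9,1),(6,1)]) .nil)))))))))))))) (.cons (.leaf 1 [(5,1),(8,1)]) (.cons (.keep [2,7,8,10,11,12] (.node (.cons (.leaf 1 [(10,1)]) (.cons (.leaf 1 [(4,2)]) (.cons (.leaf 1 [(10,1),(4,1)]) (.cons (.leaf 1 [(10,1),(4,1)]) (.cons (.leaf 1 [(11,1)]) (.cons (.leaf 1 [(4,1),(11,1)]) (.cons (.leaf 1 [(11,1),(4,1)]) (.cons (.leaf 1 [(11,1),(4,1)]) (.cons (.leaf 1 [(10,1),(6,1)]) (.cons (.leaf 1 [(4,1),(6,1)]) (.cons (.leaf 1 [(10,1)]) (.cons (.leaf 1 [(10,1),(6,1)]) .nil)))))))))))))) (.cons (.leaf 1 [(10,1),(5,1)]) (.cons (.keep [0,2,5,8,10,12] (.node (.cons (.leaf 1 [(11,1)]) (.cons (.leaf 1 [(4,2)]) (.cons (.leaf 1 [(11,1),(4,1)])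 (.cons (.leaf 1 [(11,1),(4,1)]) (.cons (.leaf 1 [(11,1),(6,1),(10,1)]) (.cons (.leaf 1 [(6,1),(10,1)]) (.cons (.leaf 2 [(11,1),(12,1),(10,1)]) (.cons (.leaf 2 [(11,1),(12,1),(10,1),(6,1)]) (.cons (.leaf 1 [(11,1),(6,1)]) (.cons (.leaf 1 [(4,1),(6,1)]) (.cons (.leaf 1 [(11,1)]) (.cons (.leaf 1 [(11,1),(6,1)]) .nil)))))))))))))) .nil)))))))))))))) (.cons (.keep [1,4,5,6,9] (.node (.cons (.leaf 1 [(5,1),(9,1)]) (.cons (.keep [3,7,9,10,11] (.node (.cons (.leaf 1 [(10,1)]) (.cons (.leaf 1 [(4,1),(10,1)]) (.cons (.leaf 1 [(10,1),(4,1)]) (.cons (.leaf 1 [(10,1),(4,1)]) (.cons (.leaf 1 []) (.cons (.leaf 1 [(4,1)]) (.cons (.leaf 1 [(4,1)]) (.cons (.leaf 1 [(4,1)]) (.cons (.leaf 1 [(10,1),(6,1)]) (.cons (.leaf 1 [(6,1),(10,1)]) (.cons (.leaf 1 [(10,1)]) (.cons (.leaf 1 [(10,1),(6,1)]) .nil))))))))))))))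 (.cons (.leaf 1 [(5,1)]) (.cons (.keep [0,5,9,10,11] (.node (.cons (.leaf 1 [(10,1)]) (.cons (.leaf 1 [(4,1),(10,1)]) (.cons (.leaf 1 [(10,1),(4,1)]) (.cons (.leaf 1 [(10,1),(4,1)]) (.cons (.leaf 1 []) (.cons (.leaf 1 [(4,1)]) (.cons (.leaf 1 [(4,1)]) (.cons (.leaf 1 [(4,1)]) (.cons (.leaf 1 [(10,1),(6,1)]) (.cons (.leaf 1 [(6,1),(10,1)]) (.cons (.leaf 1 [(10,1)]) (.cons (.leaf 1 [(10,1),(6,1)]) .nil)))))))))))))) (.cons (.leaf 1 [(5,1),(9,1)]) (.cons (.keep [3,7,9,10,11,12] (.node (.cons (.leaf 1 [(10,1)]) (.cons (.leaf 1 [(4,1),(10,1)]) (.cons (.leaf 1 [(10,1),(4,1)]) (.cons (.leaf 1 [(10,1),(4,1)]) (.cons (.leaf 1 []) (.cons (.leaf 1 [(4,1)]) (.cons (.leaf 1 [(4,1)]) (.cons (.leaf 1 [(4,1)]) (.cons (.leaf 1 [(10,1),(6,1)]) (.cons (.leaf 1 [(6,1),(10,1)]) (.cons (.leaf 1 [(10,1)])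 (.cons (.leaf 1 [(10,1),(6,1)]) .nil)))))))))))))) (.cons (.leaf 1 [(5,1)]) (.cons (.keep [0,3,5,9,10,11] (.node (.cons (.leaf 1 [(11,1)]) (.cons (.leaf 1 [(4,1),(11,1)]) (.cons (.leaf 1 [(11,1),(4,1)]) (.cons (.leaf 1 [(11,1),(4,1)]) (.cons (.leaf 1 []) (.cons (.leaf 1 [(4,1)]) (.cons (.leaf 1 [(4,1)]) (.cons (.leaf 1 [(4,1)]) (.cons (.leaf 1 [(11,1),(6,1)]) (.cons (.leaf 1 [(6,1),(11,1)]) (.cons (.leaf 1 [(11,1)]) (.cons (.leaf 1 [(11,1),(6,1)]) .nil)))))))))))))) (.cons (.leaf 1 [(5,1),(1,1)]) (.cons (.keep [1,2,6,7,12] (.node (.cons (.leaf 1 [(8,1)]) (.cons (.leaf 1 [(4,1),(8,1)]) (.cons (.leaf 1 [(8,1),(4,1)]) (.cons (.leaf 1 [(8,1),(4,1)]) (.cons (.leaf 1 []) (.cons (.leaf 1 [(4,1)]) (.cons (.leaf 1 [(4,1)]) (.cons (.leaf 1 [(4,1)]) (.cons (.leaf 1 [(8,1),(6,1)]) (.cons (.leaf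 1 [(6,1),(8,1)]) (.cons (.leaf 1 [(8,1)]) (.cons (.leaf 1 [(8,1),(6,1)]) .nil)))))))))))))) (.cons (.leaf 1 [(5,1)]) (.cons (.keep [0,1,2,5,8] (.node (.cons (.leaf 1 [(9,1)]) (.cons (.leaf 1 [(4,1),(9,1)]) (.cons (.leaf 1 [(9,1),(4,1)]) (.cons (.leaf 1 [(9,1),(4,1)]) (.cons (.leaf 1 []) (.cons (.leaf 1 [(4,1)]) (.cons (.leaf 1 [(4,1)]) (.cons (.leaf 1 [(4,1)]) (.cons (.leaf 1 [(9,1),(6,1)]) (.cons (.leaf 1 [(6,1),(9,1)]) (.cons (.leaf 1 [(9,1)]) (.cons (.leaf 1 [(9,1),(6,1)]) .nil)))))))))))))) .nil)))))))))))))) (.cons (.leaf 1 [(6,1)]) (.cons (.leaf 1 [(6,1)]) (.cons (.leaf 1 []) (.cons (.leaf 1 [(6,1)]) .nil))))))))))))))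

theorem e_13_27 : ESB (caseOf 4 13 27) := esb_of_ok (t := t_13_27) (by decide +kernel)

def t_13_28 : T := (.keep [0,1,2] (.node (.cons (.keep [2,5,6,7] (.node (.cons (.keep [6,7,8,9,10] (.node (.cons (.leaf 1 [(2,1)]) (.cons (.leaf 1 [(3,1)]) (.cons (.keep [7,8,9,10,11] (.node (.cons (.leaf 1 [(3,1)]) (.cons (.leaf 1 [(3,1)]) (.cons (.leaf 1 [(3,1)]) (.cons (.leaf 1 [(3,1),(7,1)]) (.cons (.leaf 1 [(7,1)]) (.cons (.leaf 1 [(3,1),(7,1),(4,1)]) (.cons (.leaf 1 [(5,2),(7,1)]) (.cons (.leaf 1 [(9,1)]) (.cons (.leaf 1 [(0,1),(9,1)]) .nil))))))))))) (.cons (.leaf 1 []) (.cons (.leaf 1 [(3,1)]) (.cons (.leaf 1 [(1,1),(10,1)]) (.cons (.leaf 1 [(2,1)]) (.cons (.leaf 1 []) (.cons (.leaf 1 [(7,1),(1,1),(9,1)]) .nil))))))))))) (.cons (.keep [6,7,8,9,10] (.node (.cons (.leaf 1 [(2,1)]) (.cons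 (.leaf 1 [(3,1)]) (.cons (.keep [7,8,9,10,11] (.node (.cons (.leaf 1 [(3,1)]) (.cons (.leaf 1 [(3,1)]) (.cons (.leaf 1 [(3,1)]) (.cons (.leaf 1 [(9,1)]) (.cons (.leaf 1 [(3,1),(9,1)]) (.cons (.leaf 1 [(3,1),(0,1),(9,1)]) (.cons (.leaf 1 [(9,1),(2,1)]) (.cons (.leaf 1 [(9,1)]) (.cons (.leaf 1 [(0,1),(9,1)]) .nil))))))))))) (.cons (.leaf 1 []) (.cons (.leaf 1 [(3,1)]) (.cons (.leaf 1 [(1,1),(10,1)]) (.cons (.leaf 1 [(2,1)]) (.cons (.leaf 1 []) (.cons (.leaf 1 [(7,1),(1,1),(10,1)]) .nil))))))))))) (.cons (.keep [0,8,9,10] (.node (.cons (.leaf 1 [(2,1)]) (.cons (.leaf 1 [(3,1)]) (.cons (.keep [3,8,9,10] (.node (.cons (.leaf 1 [(3,1)]) (.cons (.leaf 1 [(3,1)]) (.cons (.leaf 1 [(3,1)]) (.cons (.leaf 1 [(3,1),(7,1)]) (.cons (.leaf 1 [(3,1),(7,1)]) (.cons (.leaf 1 [(3,1),(7,1)]) (.cons (.leaf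 1 [(5,1),(7,1)]) (.cons (.leaf 1 [(8,1)]) (.cons (.leaf 1 [(0,1),(8,1)]) .nil))))))))))) (.cons (.leaf 1 []) (.cons (.leaf 1 [(3,1)]) (.cons (.leaf 1 [(1,1),(9,1)]) (.cons (.leaf 1 [(2,1)]) (.cons (.leaf 1 []) (.cons (.keep [0,1,8,9,10] (.node (.cons (.leaf 1 [(5,1)]) (.cons (.leaf 1 [(8,1),(3,1)]) (.cons (.leaf 1 [(8,1),(3,1)]) (.cons (.leaf 1 [(3,1)]) (.cons (.leaf 1 [(3,1)]) (.cons (.leaf 1 [(3,1)]) (.cons (.leaf 1 [(5,1)]) (.cons (.leaf 1 [(9,1)]) (.cons (.leaf 1 [(8,1),(0,1),(9,1)]) .nil))))))))))) .nil))))))))))) (.cons (.leaf 1 [(8,1),(1,1)]) (.cons (.leaf 1 [(8,1),(1,1)]) (.cons (.leaf 1 [(8,1),(1,1)]) (.cons (.leaf 1 [(8,1),(5,1),(1,1)]) (.cons (.leaf 1 [(9,1),(1,1)]) (.cons (.leaf 1 [(9,1),(1,1)]) .nil))))))))))) (.cons (.keep [3,4,6,7] (.node (.cons (.keep [2,5,6,8] (.node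 (.cons (.leaf 1 [(2,1),(10,1)]) (.cons (.leaf 1 [(3,1),(10,1)]) (.cons (.keep [0,7,8,9,10] (.node (.cons (.leaf 1 [(2,1)]) (.cons (.leaf 1 [(3,1)]) (.cons (.leaf 1 [(11,1),(3,1)]) (.cons (.leaf 1 []) (.cons (.leaf 1 [(3,1)]) (.cons (.leaf 1 [(1,1),(10,1)]) (.cons (.leaf 1 [(2,1)]) (.cons (.leaf 1 []) (.cons (.leaf 1 [(11,1),(0,1)]) .nil))))))))))) (.cons (.leaf 1 [(8,1),(1,1)]) (.cons (.leaf 1 [(8,1),(1,1)]) (.cons (.leaf 1 [(8,1),(1,1)]) (.cons (.leaf 1 [(8,1),(5,1),(1,1)]) (.cons (.leaf 1 [(9,1),(1,1)]) (.cons (.leaf 1 [(9,1),(1,1)]) .nil))))))))))) (.cons (.keep [3,4,6,8,9] (.node (.cons (.leaf 1 [(2,1),(10,1)]) (.cons (.leaf 1 [(3,1),(10,1)]) (.cons (.keep [0,4,8,9,10,11] (.node (.cons (.leaf 1 [(2,1)]) (.cons (.leaf 1 [(3,1)]) (.cons (.leaf 1 [(11,1),(3,1)]) (.cons (.leaf 1 [])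 (.cons (.leaf 1 [(3,1)]) (.cons (.leaf 1 [(3,1),(11,1),(0,1)]) (.cons (.leaf 1 [(2,1)]) (.cons (.leaf 1 []) (.cons (.leaf 1 [(11,1),(0,1)]) .nil))))))))))) (.cons (.leaf 1 [(10,1)]) (.cons (.leaf 1 [(3,1),(10,1)]) (.cons (.leaf 1 [(11,1),(1,1)]) (.cons (.leaf 1 [(2,1),(10,1)]) (.cons (.leaf 1 [(10,1)]) (.cons (.leaf 1 [(11,1),(9,1),(1,1)]) .nil))))))))))) (.cons (.keep [0,4,8,9] (.node (.cons (.leaf 1 [(2,1),(9,1)]) (.cons (.leaf 1 [(3,1),(9,1)]) (.cons (.keep [0,3,8,9,10] (.node (.cons (.leaf 1 [(2,1)]) (.cons (.leaf 1 [(3,1)]) (.cons (.leaf 1 [(10,1),(3,1)]) (.cons (.leaf 1 []) (.cons (.leaf 1 [(3,1)]) (.cons (.leaf 1 [(3,1),(10,1),(0,1)]) (.cons (.leaf 1 [(2,1)]) (.cons (.leaf 1 []) (.cons (.leaf 1 [(10,1),(0,1)]) .nil))))))))))) (.cons (.leaf 1 [(9,1)]) (.cons (.leaf 1 [(3,1),(9,1)])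 (.cons (.leaf 1 [(10,1),(1,1)]) (.cons (.leaf 1 [(2,1),(9,1)]) (.cons (.leaf 1 [(9,1)]) (.cons (.keep [0,1,8,9,10] (.node (.cons (.leaf 1 [(2,1)]) (.cons (.leaf 1 [(3,1)]) (.cons (.leaf 1 [(8,1),(10,1),(3,1)]) (.cons (.leaf 1 []) (.cons (.leaf 1 [(3,1)]) (.cons (.leaf 1 [(3,1),(10,1)]) (.cons (.leaf 1 [(2,1)]) (.cons (.leaf 1 []) (.cons (.leaf 1 [(8,1),(10,1),(0,1)]) .nil))))))))))) .nil))))))))))) (.cons (.leaf 1 [(1,1)]) (.cons (.leaf 1 [(1,1)]) (.cons (.leaf 1 [(1,1)]) (.cons (.leaf 1 [(5,1),(1,1)]) (.cons (.leaf 1 [(9,1),(1,1)]) (.cons (.leaf 1 [(9,1),(1,1)]) .nil))))))))))) (.cons (.keep [0,4,5,7] (.node (.cons (.keep [3,5,6,8,9] (.node (.cons (.leaf 2 [(10,1)]) (.cons (.leaf 1 [(3,1),(10,1)]) (.cons (.keep [0,4,8,9,10,11] (.node (.cons (.leaf 1 [(3,1),(11,1)]) (.cons (.leaf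 1 [(3,1),(11,1)]) (.cons (.leaf 1 [(3,1),(11,1)]) (.cons (.leaf 1 [(10,1),(3,1),(11,1)]) (.cons (.leaf 1 [(10,1),(11,1)]) (.cons (.leaf 1 [(10,1),(3,1),(11,1),(4,1)]) (.cons (.leaf 1 [(10,1),(5,2),(11,1)]) (.cons (.leaf 1 [(12,1)]) (.cons (.leaf 1 [(0,1),(11,1),(12,1)]) .nil))))))))))) (.cons (.leaf 1 [(1,1)]) (.cons (.leaf 1 [(1,1)]) (.cons (.leaf 1 [(1,1)]) (.cons (.leaf 1 [(5,1),(1,1)]) (.cons (.leaf 1 [(10,1)]) (.cons (.leaf 1 [(9,1),(11,1),(1,1)]) .nil))))))))))) (.cons (.keep [3,4,6,8] (.node (.cons (.leaf 2 [(10,1)]) (.cons (.leaf 1 [(3,1),(10,1)]) (.cons (.keep [0,4,8,9,10] (.node (.cons (.leaf 1 [(2,1),(9,1)]) (.cons (.leaf 1 [(3,1),(9,1)]) (.cons (.leaf 1 [(3,1),(11,1)]) (.cons (.leaf 1 [(9,1)]) (.cons (.leaf 1 [(3,1),(9,1)]) (.cons (.leaf 1 [(10,1),(1,1)]) (.cons (.leaf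 1 [(2,1),(9,1)]) (.cons (.leaf 1 [(9,1)]) (.cons (.leaf 1 [(0,1),(11,1),(9,1)]) .nil))))))))))) (.cons (.leaf 1 [(1,1)]) (.cons (.leaf 1 [(1,1)]) (.cons (.leaf 1 [(1,1)]) (.cons (.leaf 1 [(5,1),(1,1)]) (.cons (.leaf 1 [(9,1),(1,1)]) (.cons (.leaf 1 [(9,1),(1,1)]) .nil))))))))))) (.cons (.keep [0,5,8,9] (.node (.cons (.leaf 2 [(9,1)]) (.cons (.leaf 1 [(3,1),(9,1)]) (.cons (.keep [0,3,8,9,10] (.node (.cons (.leaf 1 [(3,1),(10,1)]) (.cons (.leaf 1 [(3,1),(10,1)]) (.cons (.leaf 1 [(3,1),(10,1)]) (.cons (.leaf 1 [(8,1),(3,1),(10,1)]) (.cons (.leaf 1 [(3,1),(10,1),(8,1)]) (.cons (.leaf 1 [(8,1),(3,1),(10,1)]) (.cons (.leaf 1 [(8,1),(5,1),(10,1)]) (.cons (.leaf 1 [(11,1)]) (.cons (.leaf 1 [(0,1),(10,1),(11,1)]) .nil))))))))))) (.cons (.leaf 1 [(1,1)]) (.cons (.leaf 1 [(1,1)]) (.cons (.leaf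 1 [(1,1)]) (.cons (.leaf 1 [(5,1),(1,1)]) (.cons (.leaf 1 [(9,1)]) (.cons (.keep [0,1,7,9,10] (.node (.cons (.leaf 1 [(3,1),(8,1),(10,1)]) (.cons (.leaf 1 [(3,1),(8,1),(10,1)]) (.cons (.leaf 1 [(3,1),(8,1),(10,1)]) (.cons (.leaf 1 [(3,1),(10,1)]) (.cons (.leaf 1 [(3,1),(10,1)]) (.cons (.leaf 1 [(3,1),(10,1)]) (.cons (.leaf 1 [(10,1),(5,1)]) (.cons (.leaf 1 [(11,1)]) (.cons (.leaf 1 [(0,1),(8,1),(10,1),(11,1)]) .nil))))))))))) .nil))))))))))) (.cons (.leaf 1 [(1,1),(9,1)]) (.cons (.leaf 1 [(1,1),(4,1)]) (.cons (.leaf 1 [(1,1),(9,1)]) (.cons (.leaf 1 [(1,1)]) (.cons (.leaf 1 [(1,1)]) (.cons (.leaf 1 [(1,1)]) .nil))))))))))) (.cons (.leaf 1 []) (.cons (.leaf 1 [(4,1)]) (.cons (.leaf 1 [(4,1)]) (.cons (.leaf 1 [(5,1)]) (.cons (.leaf 1 []) (.cons (.leaf 1 [(5,1)]) .nil)))))))))))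

theorem e_13_28 : ESB (caseOf 4 13 28) := esb_of_ok (t := t_13_28) (by decide +kernel)

def t_13_29 : T := (.keep [0,1,2] (.node (.cons (.leaf 1 []) (.cons (.leaf 1 [(4,1)]) (.cons (.leaf 1 [(4,1)]) (.cons (.leaf 1 [(4,1)]) (.cons (.leaf 1 [(5,1)]) (.cons (.leaf 1 []) (.cons (.leaf 1 [(5,1)]) (.cons (.leaf 1 [(5,1)]) (.cons (.leaf 1 [(6,1)]) (.cons (.leaf 1 [(6,1)]) (.cons (.leaf 1 []) (.cons (.leaf 1 [(6,1)]) .nil))))))))))))))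

theorem e_13_29 : ESB (caseOf 4 13 29) := esb_of_ok (t := t_13_29) (by decide +kernel)

def t_13_30 : T := (.keep [0,1,2] (.node (.cons (.keep [5,6,7,8] (.node (.cons (.leaf 2 [(8,1)]) (.cons (.leaf 1 [(2,1)]) (.cons (.leaf 1 [(3,1)]) (.cons (.keep [8,9,10,11] (.node (.cons (.leaf 1 [(3,1)]) (.cons (.leaf 1 [(3,1)]) (.cons (.leaf 1 [(3,1)]) (.cons (.leaf 1 [(3,1)]) (.cons (.leaf 3 [(8,1),(3,1),(9,1)]) (.cons (.leaf 1 [(8,1)]) (.cons (.leaf 1 [(3,1),(8,1)]) (.cons (.leaf 1 [(3,1),(0,1),(8,1)]) (.cons (.leaf 3 [(8,1),(9,1)]) (.cons (.leaf 1 [(8,1),(2,1)]) (.cons (.leaf 1 [(8,1)]) (.cons (.leaf 1 [(0,1),(8,1)]) .nil)))))))))))))) (.cons (.leaf 2 [(8,1),(1,1)]) (.cons (.leaf 1 []) (.cons (.leaf 1 [(3,1)]) (.cons (.leaf 1 [(1,1),(9,1)]) (.cons (.leaf 2 [(8,1),(1,1)]) (.cons (.leaf 1 [(2,1)])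 (.cons (.leaf 1 []) (.cons (.leaf 1 [(1,1),(10,1)]) .nil)))))))))))))) (.cons (.keep [2,4,6,7] (.node (.cons (.leaf 2 [(9,1)]) (.cons (.leaf 1 [(2,1),(9,1)]) (.cons (.leaf 1 [(3,1),(9,1)]) (.cons (.keep [0,8,9,10,11] (.node (.cons (.leaf 1 [(3,1),(10,1)]) (.cons (.leaf 1 [(2,1)]) (.cons (.leaf 1 [(3,1)]) (.cons (.leaf 1 [(10,1),(3,1)]) (.cons (.leaf 3 [(11,1),(3,1),(10,1)]) (.cons (.leaf 1 []) (.cons (.leaf 1 [(3,1)]) (.cons (.leaf 1 [(3,1),(10,1),(0,1)]) (.cons (.leaf 3 [(11,1),(10,1)]) (.cons (.leaf 1 [(2,1)]) (.cons (.leaf 1 []) (.cons (.leaf 1 [(10,1),(0,1)]) .nil)))))))))))))) (.cons (.leaf 1 [(5,1),(1,1)]) (.cons (.leaf 1 [(9,1)]) (.cons (.leaf 1 [(3,1),(9,1)]) (.cons (.leaf 1 [(10,1),(1,1)]) (.cons (.leaf 1 [(6,1),(1,1)]) (.cons (.leaf 1 [(2,1),(9,1)]) (.cons (.leaf 1 [(9,1)])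 (.cons (.leaf 1 [(11,1),(1,1)]) .nil)))))))))))))) (.cons (.keep [3,4,5,7] (.node (.cons (.leaf 2 [(9,1),(10,1)]) (.cons (.leaf 2 [(9,1)]) (.cons (.leaf 1 [(3,1),(9,1)]) (.cons (.keep [0,5,9,10,11] (.node (.cons (.leaf 1 [(3,1),(10,1)]) (.cons (.leaf 1 [(3,1),(10,1)]) (.cons (.leaf 1 [(3,1),(10,1)]) (.cons (.leaf 1 [(3,1),(10,1)]) (.cons (.leaf 1 [(5,1),(1,1)]) (.cons (.leaf 1 [(11,1)]) (.cons (.leaf 1 [(3,1),(11,1)]) (.cons (.leaf 1 [(0,1),(3,1),(10,1),(11,1)]) (.cons (.leaf 1 [(6,1),(1,1)]) (.cons (.leaf 1 [(2,1),(11,1)]) (.cons (.leaf 1 [(11,1)]) (.cons (.leaf 1 [(0,1),(10,1),(11,1)]) .nil)))))))))))))) (.cons (.leaf 1 [(1,1)]) (.cons (.leaf 1 [(1,1)]) (.cons (.leaf 1 [(1,1)]) (.cons (.leaf 1 [(1,1)]) (.cons (.leaf 2 [(9,1),(10,1),(1,1)]) (.cons (.leaf 1 [(6,1),(1,1)]) (.cons (.leaf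 1 [(9,1)]) (.cons (.leaf 1 [(11,1),(1,1)]) .nil)))))))))))))) (.cons (.keep [0,4,5,6] (.node (.cons (.leaf 2 [(9,1),(10,1)]) (.cons (.leaf 1 [(9,1),(2,1)]) (.cons (.leaf 2 [(9,1)]) (.cons (.keep [0,6,9,10,11] (.node (.cons (.leaf 1 [(3,1),(10,1)]) (.cons (.leaf 1 [(3,1),(10,1)]) (.cons (.leaf 1 [(3,1),(10,1)]) (.cons (.leaf 1 [(3,1),(10,1)]) (.cons (.leaf 1 [(1,1)]) (.cons (.leaf 1 [(1,1)]) (.cons (.leaf 1 [(1,1)]) (.cons (.leaf 1 [(1,1)]) (.cons (.leaf 3 [(11,1),(12,1),(10,1)]) (.cons (.leaf 1 [(6,1),(1,1)]) (.cons (.leaf 1 [(11,1)]) (.cons (.leaf 1 [(0,1),(10,1),(11,1)]) .nil)))))))))))))) (.cons (.leaf 2 [(9,1),(1,1),(10,1)]) (.cons (.leaf 1 [(9,1)]) (.cons (.leaf 1 [(1,1),(5,1)]) (.cons (.leaf 1 [(1,1),(11,1)]) (.cons (.leaf 1 [(1,1)]) (.cons (.leaf 1 [(1,1)]) (.cons (.leaf 1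 [(1,1)]) (.cons (.leaf 1 [(1,1)]) .nil)))))))))))))) (.cons (.leaf 1 [(5,1)]) (.cons (.leaf 1 []) (.cons (.leaf 1 [(5,1)]) (.cons (.leaf 1 [(5,1)]) (.cons (.leaf 1 [(6,1)]) (.cons (.leaf 1 [(6,1)]) (.cons (.leaf 1 []) (.cons (.leaf 1 [(6,1)]) .nil))))))))))))))

theorem e_13_30 : ESB (caseOf 4 13 30) := esb_of_ok (t := t_13_30) (by decide +kernel)

def t_13_31 : T := (.keep [0,1,2] (.node (.cons (.leaf 1 []) (.cons (.leaf 1 [(4,1)]) (.cons (.leaf 1 [(4,1)]) (.cons (.leaf 1 [(4,1)]) (.cons (.leaf 1 [(4,1)]) (.cons (.leaf 1 [(6,1)]) (.cons (.leaf 1 [(6,1)]) (.cons (.leaf 1 []) (.cons (.leaf 1 [(6,1)]) (.cons (.leaf 1 [(6,1)]) (.cons (.leaf 1 [(7,1)]) (.cons (.leaf 1 [(7,1)]) (.cons (.leaf 1 [(7,1)]) (.cons (.leaf 1 []) (.cons (.leaf 1 [(7,1)]) .nil)))))))))))))))))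

theorem e_13_31 : ESB (caseOf 4 13 31) := esb_of_ok (t := t_13_31) (by decide +kernel)

def t_14_25 : T := (.keep [0,1,2] (.node (.cons (.keep [0,2,3,5,6] (.node (.cons (.keep [0,2,3,5,6,10] (.node (.cons (.leaf 1 [(12,1)]) (.cons (.leaf 1 [(12,1),(4,1)]) (.cons (.leaf 1 [(12,1),(4,1)]) (.cons (.leaf 1 [(10,1)]) (.cons (.leaf 1 [(10,1),(4,1)]) (.cons (.leaf 1 [(10,1),(4,1)]) (.cons (.leaf 1 [(5,1)]) (.cons (.leaf 1 []) (.cons (.leaf 1 [(5,1)]) .nil))))))))))) (.cons (.keep [4,6,7,8,10] (.node (.cons (.leaf 1 [(11,1),(7,1)]) (.cons (.leaf 1 [(11,1),(7,1),(4,1)]) (.cons (.leaf 1 [(11,1),(7,1),(4,1)]) (.cons (.leaf 1 []) (.cons (.leaf 1 [(4,1)]) (.cons (.leaf 1 [(4,1)]) (.cons (.leaf 1 [(7,1),(5,1)]) (.cons (.leaf 1 [(7,1)]) (.cons (.leaf 1 [(7,1),(5,1)]) .nil))))))))))) (.cons (.keep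 [0,4,8,10,11] (.node (.cons (.leaf 1 [(10,1),(8,1)]) (.cons (.leaf 1 [(10,1),(4,2)]) (.cons (.leaf 1 [(10,1),(8,1),(4,1)]) (.cons (.leaf 1 [(11,1),(8,1)]) (.cons (.leaf 1 [(11,1),(4,2)]) (.cons (.leaf 1 [(11,1),(8,1),(4,1)]) (.cons (.leaf 1 []) (.cons (.leaf 1 [(4,1)]) (.cons (.leaf 1 [(4,1)]) .nil))))))))))) (.cons (.leaf 1 [(10,1)]) (.cons (.leaf 1 [(10,1),(4,1)]) (.cons (.leaf 1 [(10,1),(4,1)]) (.cons (.leaf 1 [(5,1)]) (.cons (.leaf 1 []) (.cons (.leaf 1 [(5,1)]) .nil))))))))))) (.cons (.keep [4,6,7,8,9] (.node (.cons (.keep [6,7,8,9,11] (.node (.cons (.leaf 1 []) (.cons (.leaf 1 [(4,1)]) (.cons (.leaf 1 [(4,1)]) (.cons (.leaf 1 [(9,1)]) (.cons (.leaf 1 [(9,1),(4,1)]) (.cons (.leaf 1 [(9,1),(4,1)]) (.cons (.leaf 1 [(8,1),(5,1)]) (.cons (.leaf 1 [(8,1)]) (.cons (.leaf 1 [(8,1),(5,1)])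 .nil))))))))))) (.cons (.keep [4,6,8,10,11] (.node (.cons (.leaf 1 [(7,1)]) (.cons (.leaf 1 [(7,1),(4,1)]) (.cons (.leaf 1 [(7,1),(4,1)]) (.cons (.leaf 1 [(9,1),(7,1)]) (.cons (.leaf 1 [(9,1),(3,1),(4,2)]) (.cons (.leaf 1 [(9,1),(7,1),(4,1)]) (.cons (.leaf 1 [(9,1),(7,2),(5,1)]) (.cons (.leaf 1 [(9,1),(7,2)]) (.cons (.leaf 1 [(9,1),(7,2),(5,1)]) .nil))))))))))) (.cons (.keep [4,7,8,10,11] (.node (.cons (.leaf 1 [(7,1)]) (.cons (.leaf 1 [(4,2)]) (.cons (.leaf 1 [(7,1),(4,1)]) (.cons (.leaf 1 [(9,1),(7,1)]) (.cons (.leaf 1 [(9,1),(4,2)]) (.cons (.leaf 1 [(9,1),(7,1),(4,1)]) (.cons (.leaf 1 [(8,1)]) (.cons (.leaf 1 [(8,1),(4,1)]) (.cons (.leaf 1 [(8,1),(4,1)]) .nil))))))))))) (.cons (.leaf 1 []) (.cons (.leaf 1 [(4,1)]) (.cons (.leaf 1 [(4,1)]) (.cons (.leaf 1 [(7,1),(5,1)]) (.cons (.leaf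 1 [(7,1)]) (.cons (.leaf 1 [(7,1),(5,1)]) .nil))))))))))) (.cons (.keep [0,4,5,7,8] (.node (.cons (.keep [5,6,7,8,9] (.node (.cons (.leaf 1 [(11,1)]) (.cons (.leaf 1 [(11,1),(4,1)]) (.cons (.leaf 1 [(11,1),(4,1)]) (.cons (.leaf 1 []) (.cons (.leaf 1 [(4,1)]) (.cons (.leaf 1 [(4,1)]) (.cons (.leaf 1 [(10,1),(5,1)]) (.cons (.leaf 1 [(10,1)]) (.cons (.leaf 1 [(10,1),(5,1)]) .nil))))))))))) (.cons (.keep [4,6,7,9,10] (.node (.cons (.leaf 1 [(10,1),(7,1)]) (.cons (.leaf 1 [(10,1),(7,1),(4,1)]) (.cons (.leaf 1 [(10,1),(7,1),(4,1)]) (.cons (.leaf 1 [(7,1)]) (.cons (.leaf 1 [(3,1),(4,2)]) (.cons (.leaf 1 [(7,1),(4,1)]) (.cons (.leaf 1 [(7,2),(5,1)]) (.cons (.leaf 1 [(7,2)]) (.cons (.leaf 1 [(7,2),(5,1)]) .nil))))))))))) (.cons (.keep [5,7,8,9,11] (.node (.cons (.leaf 1 [(10,1),(9,1),(7,1)])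 (.cons (.leaf 1 [(10,1),(4,2)]) (.cons (.leaf 1 [(10,1),(9,1),(7,1),(4,1)]) (.cons (.leaf 1 [(9,1),(7,1)]) (.cons (.leaf 1 [(4,2)]) (.cons (.leaf 1 [(9,1),(7,1),(4,1)]) (.cons (.leaf 1 [(9,1)]) (.cons (.leaf 1 [(9,1),(4,1)]) (.cons (.leaf 1 [(9,1),(4,1)]) .nil))))))))))) (.cons (.leaf 1 [(9,1)]) (.cons (.leaf 1 [(9,1),(4,1)]) (.cons (.leaf 1 [(9,1),(4,1)]) (.cons (.leaf 1 []) (.cons (.leaf 1 [(4,1)]) (.cons (.leaf 1 [(4,1)]) .nil))))))))))) (.cons (.keep [0,1,3,5,6] (.node (.cons (.keep [0,2,3,5,6,10] (.node (.cons (.leaf 1 [(12,1)]) (.cons (.leaf 1 [(12,1),(4,1)]) (.cons (.leaf 1 [(12,1),(4,1)]) (.cons (.leaf 1 [(10,1)]) (.cons (.leaf 1 [(10,1),(4,1)]) (.cons (.leaf 1 [(10,1),(4,1)]) (.cons (.leaf 1 [(5,1)]) (.cons (.leaf 1 []) (.cons (.leaf 1 [(5,1)]) .nil))))))))))) (.cons (.keep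 [3,4,6,10,11] (.node (.cons (.leaf 1 [(10,1)]) (.cons (.leaf 1 [(10,1),(4,1)]) (.cons (.leaf 1 [(10,1),(4,1)]) (.cons (.leaf 1 [(11,1)]) (.cons (.leaf 1 [(11,1),(4,1)]) (.cons (.leaf 1 [(11,1),(4,1)]) (.cons (.leaf 1 [(5,1)]) (.cons (.leaf 1 []) (.cons (.leaf 1 [(5,1)]) .nil))))))))))) (.cons (.keep [0,4,10,11] (.node (.cons (.leaf 1 [(9,1)]) (.cons (.leaf 1 [(9,1),(4,1)]) (.cons (.leaf 1 [(9,1),(4,1)]) (.cons (.leaf 1 [(10,1)]) (.cons (.leaf 1 [(10,1),(4,1)]) (.cons (.leaf 1 [(10,1),(4,1)]) (.cons (.leaf 1 [(5,1)]) (.cons (.leaf 1 []) (.cons (.leaf 1 [(5,1)]) .nil))))))))))) (.cons (.leaf 1 [(10,1),(1,1)]) (.cons (.leaf 1 [(10,1),(1,1)]) (.cons (.leaf 1 [(10,1),(1,1)]) (.cons (.leaf 1 [(5,1),(1,1)]) (.cons (.leaf 1 [(11,1),(1,1)]) (.cons (.leaf 1 [(11,1),(1,1)]) .nil))))))))))) (.cons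 (.keep [4,6,7,8,9] (.node (.cons (.keep [6,7,8,9,11] (.node (.cons (.leaf 1 []) (.cons (.leaf 1 [(4,1)]) (.cons (.leaf 1 [(4,1)]) (.cons (.leaf 1 [(9,1)]) (.cons (.leaf 1 [(9,1),(4,1)]) (.cons (.leaf 1 [(9,1),(4,1)]) (.cons (.leaf 1 [(8,1),(5,1)]) (.cons (.leaf 1 [(8,1)]) (.cons (.leaf 1 [(8,1),(5,1)]) .nil))))))))))) (.cons (.keep [6,7,8,9,10,11] (.node (.cons (.leaf 1 []) (.cons (.leaf 1 [(4,1)]) (.cons (.leaf 1 [(4,1)]) (.cons (.leaf 1 [(9,1)]) (.cons (.leaf 1 [(9,1),(4,1)]) (.cons (.leaf 1 [(9,1),(4,1)]) (.cons (.leaf 1 [(8,1),(5,1)]) (.cons (.leaf 1 [(8,1)]) (.cons (.leaf 1 [(8,1),(5,1)]) .nil))))))))))) (.cons (.keep [0,7,8,9,10] (.node (.cons (.leaf 1 []) (.cons (.leaf 1 [(4,1)]) (.cons (.leaf 1 [(4,1)]) (.cons (.leaf 1 [(9,1)]) (.cons (.leaf 1 [(9,1),(4,1)]) (.cons (.leaf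 1 [(9,1),(4,1)]) (.cons (.leaf 1 [(8,1),(5,1)]) (.cons (.leaf 1 [(8,1)]) (.cons (.leaf 1 [(8,1),(5,1)]) .nil))))))))))) (.cons (.leaf 1 [(1,1)]) (.cons (.leaf 1 [(1,1)]) (.cons (.leaf 1 [(1,1)]) (.cons (.leaf 1 [(5,1),(7,1),(1,1)]) (.cons (.leaf 1 [(8,1),(1,1)]) (.cons (.leaf 1 [(8,1),(1,1)]) .nil))))))))))) (.cons (.keep [0,4,5,7,8] (.node (.cons (.keep [5,6,7,8,9] (.node (.cons (.leaf 1 [(11,1)]) (.cons (.leaf 1 [(11,1),(4,1)]) (.cons (.leaf 1 [(11,1),(4,1)]) (.cons (.leaf 1 []) (.cons (.leaf 1 [(4,1)]) (.cons (.leaf 1 [(4,1)]) (.cons (.leaf 1 [(10,1),(5,1)]) (.cons (.leaf 1 [(10,1)]) (.cons (.leaf 1 [(10,1),(5,1)]) .nil))))))))))) (.cons (.keep [4,6,7,9,11] (.node (.cons (.leaf 1 [(10,1)]) (.cons (.leaf 1 [(10,1),(4,1)]) (.cons (.leaf 1 [(10,1),(4,1)]) (.cons (.leaf 1 []) (.cons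 (.leaf 1 [(4,1)]) (.cons (.leaf 1 [(4,1)]) (.cons (.leaf 1 [(7,1),(5,1)]) (.cons (.leaf 1 [(7,1)]) (.cons (.leaf 1 [(7,1),(5,1)]) .nil))))))))))) (.cons (.keep [0,5,8,9,11] (.node (.cons (.leaf 1 [(10,1)]) (.cons (.leaf 1 [(10,1),(4,1)]) (.cons (.leaf 1 [(10,1),(4,1)]) (.cons (.leaf 1 []) (.cons (.leaf 1 [(4,1)]) (.cons (.leaf 1 [(4,1)]) (.cons (.leaf 1 [(9,1),(5,1)]) (.cons (.leaf 1 [(9,1)]) (.cons (.leaf 1 [(9,1),(5,1)]) .nil))))))))))) (.cons (.leaf 1 [(1,1),(9,1)]) (.cons (.leaf 1 [(1,1),(9,1)]) (.cons (.leaf 1 [(1,1),(9,1)]) (.cons (.leaf 1 [(1,1)]) (.cons (.leaf 1 [(1,1)]) (.cons (.leaf 1 [(1,1)]) .nil))))))))))) (.cons (.leaf 1 [(5,1)]) (.cons (.leaf 1 []) (.cons (.leaf 1 [(5,1)]) .nil)))))))))))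

theorem e_14_25 : ESB (caseOf 4 14 25) := esb_of_ok (t := t_14_25) (by decide +kernel)

def t_14_26 : T := (.keep [0,1,2] (.node (.cons (.leaf 1 []) (.cons (.leaf 1 [(4,1)]) (.cons (.leaf 1 [(4,1)]) (.cons (.keep [1,5,6,8] (.node (.cons (.keep [0,7,8,9] (.node (.cons (.leaf 1 []) (.cons (.leaf 1 [(4,1)]) (.cons (.leaf 1 [(4,1)]) (.cons (.keep [1,5,6,10] (.node (.cons (.leaf 1 [(10,1)]) (.cons (.leaf 1 [(9,1),(4,1)]) (.cons (.keep [7,8,9,10] (.node (.cons (.leaf 2 [(3,1),(8,1)]) (.cons (.leaf 2 [(8,1)]) (.cons (.leaf 2 [(3,1),(8,1),(4,1)]) (.cons (.leaf 2 [(5,1),(9,1)]) (.cons (.leaf 2 [(9,1)]) (.cons (.leaf 2 [(9,1),(5,1)]) (.cons (.leaf 2 [(5,2),(8,1)]) (.cons (.keep [0,7,8,9] (.node (.cons (.leaf 1 [(9,1)]) (.cons (.leaf 1 [(3,1),(9,1)]) (.cons (.leaf 1 [(2,1),(0,1),(9,1)]) (.cons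 (.leaf 1 [(9,1),(1,1)]) (.cons (.leaf 1 [(3,1),(9,1)]) (.cons (.leaf 1 [(0,1),(9,1)]) (.cons (.leaf 1 [(9,1),(1,1)]) (.cons (.leaf 1 [(9,1)]) (.cons (.leaf 1 [(0,1),(2,1),(9,1)]) .nil))))))))))) (.cons (.keep [0,5,7,8,9] (.node (.cons (.leaf 1 [(10,1),(8,1)]) (.cons (.leaf 1 [(2,1),(10,1)]) (.cons (.leaf 1 [(2,1),(0,1),(8,1),(10,1)]) (.cons (.leaf 1 [(10,1),(1,1),(8,1)]) (.cons (.leaf 1 [(10,1)]) (.cons (.leaf 1 [(0,1),(8,1),(10,1)]) (.cons (.leaf 1 [(10,1),(1,1),(2,1)]) (.cons (.leaf 1 [(10,1),(2,1)]) (.cons (.leaf 1 [(0,1),(2,2),(10,1)]) .nil))))))))))) .nil))))))))))) (.cons (.leaf 1 [(8,1),(1,1)]) (.cons (.leaf 1 [(1,1),(8,1)]) (.cons (.leaf 1 [(1,1),(8,1)]) (.cons (.leaf 1 [(9,1),(1,1)]) (.cons (.leaf 1 [(9,1),(1,1)]) (.cons (.leaf 1 [(1,1),(9,1)]) .nil))))))))))) (.cons (.keep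 [3,4,6,10] (.node (.cons (.leaf 1 [(10,1),(8,1)]) (.cons (.leaf 1 [(9,1),(4,1)]) (.cons (.keep [0,2,8,9,10] (.node (.cons (.leaf 2 [(3,1),(9,1)]) (.cons (.leaf 2 [(9,1)]) (.cons (.leaf 2 [(3,1),(9,1),(4,1)]) (.cons (.leaf 2 [(5,1),(10,1),(9,1)]) (.cons (.leaf 2 [(10,1),(9,1)]) (.cons (.leaf 2 [(10,1),(9,1),(5,1)]) (.cons (.leaf 2 [(9,1),(5,2)]) (.cons (.keep [6,7,8,9,10] (.node (.cons (.leaf 1 []) (.cons (.leaf 1 [(3,1)]) (.cons (.leaf 1 [(2,1),(10,1),(0,1)]) (.cons (.leaf 1 [(1,1)]) (.cons (.leaf 1 [(3,1)]) (.cons (.leaf 1 [(10,1),(0,1)]) (.cons (.leaf 1 [(1,1)]) (.cons (.leaf 1 []) (.cons (.leaf 1 [(10,1),(2,1),(0,1)]) .nil))))))))))) (.cons (.keep [0,5,8,9,10] (.node (.cons (.leaf 1 [(8,1)]) (.cons (.leaf 1 [(2,1)]) (.cons (.leaf 1 [(2,1),(8,1),(10,1),(0,1)]) (.cons (.leaf 1 [(8,1),(1,1)])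 (.cons (.leaf 1 []) (.cons (.leaf 1 [(10,1),(8,1),(0,1)]) (.cons (.leaf 1 [(1,1),(2,1)]) (.cons (.leaf 1 [(2,1)]) (.cons (.leaf 1 [(2,2),(10,1),(0,1)]) .nil))))))))))) .nil))))))))))) (.cons (.leaf 1 [(1,1)]) (.cons (.leaf 1 [(1,1)]) (.cons (.leaf 1 [(1,1)]) (.cons (.leaf 1 [(9,1),(1,1)]) (.cons (.leaf 1 [(9,1),(1,1)]) (.cons (.leaf 1 [(9,1),(1,1)]) .nil))))))))))) (.cons (.keep [4,5,8,10] (.node (.cons (.leaf 1 [(10,1),(7,1)]) (.cons (.leaf 1 [(4,1)]) (.cons (.keep [0,3,7,8,10] (.node (.cons (.leaf 2 [(3,1),(10,1),(9,1)]) (.cons (.leaf 2 [(10,1),(9,1)]) (.cons (.leaf 2 [(4,1),(10,1),(9,1),(3,1)]) (.cons (.leaf 2 [(5,1),(9,1)]) (.cons (.leaf 2 [(9,1)]) (.cons (.leaf 2 [(9,1),(5,1)]) (.cons (.leaf 2 [(5,2),(9,1),(10,1)]) (.cons (.keep [6,7,8,9,10] (.node (.cons (.leaf 2 [(2,1),(10,1)])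 (.cons (.leaf 2 [(2,1),(10,1)]) (.cons (.leaf 2 [(2,1),(10,1)]) (.cons (.leaf 3 [(11,1),(10,1)]) (.cons (.leaf 1 [(3,1),(11,1)]) (.cons (.leaf 1 [(0,1),(10,1),(11,1)]) (.cons (.leaf 2 [(5,1),(10,1),(2,1)]) (.cons (.leaf 1 [(11,1)]) (.cons (.leaf 1 [(0,1),(10,1),(2,1),(11,1)]) .nil))))))))))) (.cons (.keep [0,5,8,9,10] (.node (.cons (.leaf 2 [(2,1),(8,1),(10,1)]) (.cons (.leaf 2 [(2,2),(4,1),(10,1)]) (.cons (.leaf 2 [(2,1),(8,1),(10,1)]) (.cons (.leaf 2 [(5,1),(8,2),(10,1)]) (.cons (.leaf 1 [(11,1)]) (.cons (.leaf 1 [(0,1),(8,1),(10,1),(11,1)]) (.cons (.leaf 2 [(5,1),(2,2),(10,1)]) (.cons (.leaf 1 [(11,1),(2,1)]) (.cons (.leaf 1 [(0,1),(2,2),(10,1),(11,1)]) .nil))))))))))) .nil))))))))))) (.cons (.leaf 1 [(1,1),(8,1)]) (.cons (.leaf 1 [(4,1)]) (.cons (.leaf 1 [(8,1),(1,1)]) (.cons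 (.leaf 1 [(1,1)]) (.cons (.leaf 1 [(1,1)]) (.cons (.leaf 1 [(1,1)]) .nil))))))))))) (.cons (.leaf 1 [(5,1)]) (.cons (.leaf 1 []) (.cons (.leaf 1 [(5,1)]) .nil))))))))))) (.cons (.leaf 1 [(9,1),(4,1)]) (.cons (.keep [4,7,8,9] (.node (.cons (.leaf 2 [(3,1),(9,1)]) (.cons (.leaf 2 [(9,1)]) (.cons (.leaf 2 [(3,1),(9,1),(4,1)]) (.cons (.leaf 1 [(5,1),(9,1),(7,1)]) (.cons (.leaf 2 [(10,1)]) (.cons (.leaf 2 [(10,1),(5,1)]) (.cons (.leaf 2 [(5,2),(9,1)]) (.cons (.keep [0,7,9,10] (.node (.cons (.leaf 1 [(9,1)]) (.cons (.leaf 1 [(3,1),(9,1)]) (.cons (.leaf 1 [(2,1),(0,1),(9,1)]) (.cons (.leaf 1 [(9,1),(1,1)]) (.cons (.leaf 1 [(3,1),(9,1)]) (.cons (.leaf 1 [(0,1),(9,1)]) (.cons (.leaf 1 [(9,1),(1,1)]) (.cons (.leaf 1 [(9,1)]) (.cons (.leaf 1 [(0,1),(2,1),(9,1)]) .nil))))))))))) (.cons (.keep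 [0,5,8,9,10] (.node (.cons (.leaf 1 [(10,1),(8,1)]) (.cons (.leaf 1 [(2,1),(10,1)]) (.cons (.leaf 1 [(2,1),(0,1),(8,1),(10,1)]) (.cons (.leaf 1 [(10,1),(1,1),(8,1)]) (.cons (.leaf 1 [(10,1)]) (.cons (.leaf 1 [(0,1),(8,1),(10,1)]) (.cons (.leaf 1 [(10,1),(1,1),(2,1)]) (.cons (.leaf 1 [(10,1),(2,1)]) (.cons (.leaf 1 [(0,1),(2,2),(10,1)]) .nil))))))))))) .nil))))))))))) (.cons (.leaf 1 [(8,1),(1,1)]) (.cons (.leaf 1 [(1,1),(8,1)]) (.cons (.leaf 1 [(1,1),(8,1)]) (.cons (.leaf 1 [(9,1),(1,1)]) (.cons (.leaf 1 [(9,1),(1,1)]) (.cons (.leaf 1 [(1,1),(9,1)]) .nil))))))))))) (.cons (.keep [3,4,6,8] (.node (.cons (.keep [2,6,8,9,10] (.node (.cons (.leaf 1 [(9,1)]) (.cons (.leaf 1 [(9,1),(4,1)]) (.cons (.leaf 1 [(9,1),(4,1)]) (.cons (.leaf 1 [(9,1),(10,1)]) (.cons (.leaf 1 [(9,1),(10,1),(4,1)])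 (.cons (.leaf 1 [(9,1),(10,1),(4,1)]) (.cons (.leaf 1 [(9,1),(5,1)]) (.cons (.leaf 1 [(9,1)]) (.cons (.leaf 1 [(9,1),(5,1)]) .nil))))))))))) (.cons (.leaf 1 [(9,1),(4,1)]) (.cons (.keep [0,2,8,9,10] (.node (.cons (.leaf 2 [(3,1),(9,1)]) (.cons (.leaf 2 [(9,1)]) (.cons (.leaf 2 [(3,1),(9,1),(4,1)]) (.cons (.leaf 2 [(5,1),(10,1),(9,1)]) (.cons (.leaf 2 [(10,1),(9,1)]) (.cons (.leaf 2 [(10,1),(9,1),(5,1)]) (.cons (.leaf 2 [(9,1),(5,2)]) (.cons (.keep [6,7,8,9,10] (.node (.cons (.leaf 1 []) (.cons (.leaf 1 [(3,1)]) (.cons (.leaf 1 [(2,1),(10,1),(0,1)]) (.cons (.leaf 1 [(1,1)]) (.cons (.leaf 1 [(3,1)]) (.cons (.leaf 1 [(10,1),(0,1)]) (.cons (.leaf 1 [(1,1)]) (.cons (.leaf 1 []) (.cons (.leaf 1 [(10,1),(2,1),(0,1)]) .nil))))))))))) (.cons (.keep [0,5,9,10,11] (.node (.cons (.leaf 1 [(8,1)])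 (.cons (.leaf 1 [(2,1)]) (.cons (.leaf 1 [(2,1),(8,1),(9,1),(0,1)]) (.cons (.leaf 1 [(8,1),(1,1)]) (.cons (.leaf 1 []) (.cons (.leaf 1 [(9,1),(8,1),(0,1)]) (.cons (.leaf 1 [(1,1),(2,1)]) (.cons (.leaf 1 [(2,1)]) (.cons (.leaf 1 [(2,2),(9,1),(0,1)]) .nil))))))))))) .nil))))))))))) (.cons (.leaf 1 [(1,1)]) (.cons (.leaf 1 [(1,1)]) (.cons (.leaf 1 [(1,1)]) (.cons (.leaf 1 [(9,1),(1,1)]) (.cons (.leaf 1 [(9,1),(1,1)]) (.cons (.leaf 1 [(9,1),(1,1)]) .nil))))))))))) (.cons (.keep [0,1,3,4,5,8] (.node (.cons (.keep [6,8,10,11,12] (.node (.cons (.leaf 1 [(9,1)]) (.cons (.leaf 1 [(4,1),(9,1)]) (.cons (.leaf 1 [(4,1),(9,1)]) (.cons (.keep [1,5,6,9,11] (.node (.cons (.leaf 1 []) (.cons (.leaf 1 [(3,1)]) (.cons (.keep [0,7,8,9,10] (.node (.cons (.leaf 2 [(3,1),(9,1)]) (.cons (.leaf 2 [(3,2),(9,1)])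 (.cons (.leaf 1 [(3,1),(9,1),(8,1)]) (.cons (.leaf 2 [(9,1),(3,1)]) (.cons (.leaf 2 [(3,2),(10,1)]) (.cons (.leaf 1 [(3,1),(10,1),(8,1)]) (.cons (.leaf 2 [(9,1)]) (.cons (.keep [0,8,9,10] (.node (.cons (.leaf 1 [(9,1)]) (.cons (.leaf 1 [(3,1),(9,1)]) (.cons (.leaf 1 [(2,1),(0,1),(9,1)]) (.cons (.leaf 1 [(9,1),(1,1)]) (.cons (.leaf 1 [(3,1),(9,1)]) (.cons (.leaf 1 [(0,1),(9,1)]) (.cons (.leaf 1 [(9,1),(1,1)]) (.cons (.leaf 1 [(9,1)]) (.cons (.leaf 1 [(0,1),(2,1),(9,1)]) .nil))))))))))) (.cons (.keep [5,8,9,10,11] (.node (.cons (.leaf 1 [(9,1)]) (.cons (.leaf 1 [(3,1),(9,1)]) (.cons (.leaf 1 [(3,1),(0,1),(9,1)]) (.cons (.leaf 1 [(9,1),(1,1)]) (.cons (.leaf 1 [(3,1),(9,1)]) (.cons (.leaf 1 [(3,1),(0,1),(9,1)]) (.cons (.leaf 1 [(9,1),(1,1)]) (.cons (.leaf 1 [(9,1)]) (.cons (.leaf 1 [(0,1),(9,1)])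 .nil))))))))))) .nil))))))))))) (.cons (.leaf 1 [(1,1)]) (.cons (.leaf 1 [(3,1)]) (.cons (.leaf 1 [(10,1),(1,1),(8,1)]) (.cons (.leaf 1 [(1,1)]) (.cons (.leaf 1 []) (.cons (.leaf 1 [(10,1),(1,1),(9,1)]) .nil))))))))))) (.cons (.keep [4,6,7,9,11] (.node (.cons (.leaf 1 [(7,1)]) (.cons (.leaf 1 [(3,1),(7,1)]) (.cons (.keep [0,7,8,9,10] (.node (.cons (.leaf 2 [(3,1),(8,1)]) (.cons (.leaf 2 [(3,2),(8,1)]) (.cons (.leaf 2 [(11,1),(8,1),(3,1)]) (.cons (.leaf 2 [(3,1),(8,1)]) (.cons (.leaf 2 [(9,1),(3,2),(8,1)]) (.cons (.leaf 2 [(9,1),(11,1),(8,1),(3,1)]) (.cons (.leaf 2 [(8,1)]) (.cons (.keep [6,7,8,9,10] (.node (.cons (.leaf 1 []) (.cons (.leaf 1 [(3,1)]) (.cons (.leaf 1 [(2,1),(9,1),(0,1)]) (.cons (.leaf 1 [(1,1)]) (.cons (.leaf 1 [(3,1)]) (.cons (.leaf 1 [(9,1),(0,1)]) (.cons (.leaf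 1 [(1,1)]) (.cons (.leaf 1 []) (.cons (.leaf 1 [(9,1),(2,1),(0,1)]) .nil))))))))))) (.cons (.keep [7,8,9,10,11] (.node (.cons (.leaf 1 []) (.cons (.leaf 1 [(3,1)]) (.cons (.leaf 1 [(3,1),(8,1),(0,1)]) (.cons (.leaf 1 [(1,1)]) (.cons (.leaf 1 [(3,1)]) (.cons (.leaf 1 [(3,1),(8,1),(0,1)]) (.cons (.leaf 1 [(1,1)]) (.cons (.leaf 1 []) (.cons (.leaf 1 [(8,1),(0,1)]) .nil))))))))))) .nil))))))))))) (.cons (.leaf 1 [(7,1),(1,1)]) (.cons (.leaf 1 [(3,1),(7,1)]) (.cons (.leaf 1 [(10,1),(1,1)]) (.cons (.leaf 1 [(7,1),(1,1)]) (.cons (.leaf 1 [(7,1)]) (.cons (.leaf 1 [(10,1),(8,1),(1,1)]) .nil))))))))))) (.cons (.keep [4,5,8,9,11] (.node (.cons (.leaf 1 [(7,1)]) (.cons (.leaf 1 [(3,1),(7,1)]) (.cons (.keep [0,5,7,8,10] (.node (.cons (.leaf 2 [(3,1),(10,1),(9,1)]) (.cons (.leaf 2 [(3,2),(10,1),(9,1)])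 (.cons (.leaf 2 [(11,1),(10,1),(9,1),(3,1)]) (.cons (.leaf 2 [(9,1),(3,1),(1,1)]) (.cons (.leaf 2 [(3,2),(9,1)]) (.cons (.leaf 2 [(11,1),(9,1),(3,1)]) (.cons (.leaf 2 [(9,1),(10,1)]) (.cons (.keep [2,6,7,9,10] (.node (.cons (.leaf 2 [(2,1),(10,1)]) (.cons (.leaf 2 [(2,1),(10,1)]) (.cons (.leaf 2 [(2,1),(10,1)]) (.cons (.leaf 3 [(11,1),(10,1)]) (.cons (.leaf 1 [(3,1),(11,1)]) (.cons (.leaf 1 [(0,1),(10,1),(11,1)]) (.cons (.leaf 2 [(5,1),(10,1),(2,1)]) (.cons (.leaf 1 [(11,1)]) (.cons (.leaf 1 [(0,1),(10,1),(2,1),(11,1)]) .nil))))))))))) (.cons (.keep [2,7,9,10,11] (.node (.cons (.leaf 2 [(3,1),(9,1)]) (.cons (.leaf 2 [(3,1),(9,1)]) (.cons (.leaf 2 [(3,1),(9,1)]) (.cons (.leaf 2 [(5,1),(9,1)]) (.cons (.leaf 1 [(10,1),(3,1)]) (.cons (.leaf 1 [(0,1),(3,1),(9,1),(10,1)]) (.cons (.leaf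 2 [(5,1),(9,1)]) (.cons (.leaf 1 [(10,1)]) (.cons (.leaf 1 [(0,1),(9,1),(10,1)]) .nil))))))))))) .nil))))))))))) (.cons (.leaf 1 [(7,1),(1,1)]) (.cons (.leaf 1 [(3,1),(7,1)]) (.cons (.leaf 1 [(10,1),(1,1),(8,1)]) (.cons (.leaf 1 [(7,1),(1,1)]) (.cons (.leaf 1 [(7,1)]) (.cons (.leaf 1 [(10,1),(1,1)]) .nil))))))))))) (.cons (.leaf 1 [(5,1),(9,1)]) (.cons (.leaf 1 [(9,1)]) (.cons (.leaf 1 [(9,1),(5,1)]) .nil))))))))))) (.cons (.leaf 1 [(4,1)]) (.cons (.keep [0,8,10,11,12] (.node (.cons (.leaf 2 [(3,1),(10,1),(9,1)]) (.cons (.leaf 2 [(10,1),(9,1)]) (.cons (.leaf 2 [(4,1),(10,1),(9,1),(3,1)]) (.cons (.leaf 1 [(5,1),(8,1)]) (.cons (.leaf 1 [(8,1)]) (.cons (.leaf 1 [(8,1),(5,1)]) (.cons (.leaf 1 [(5,2),(8,1),(10,1)]) (.cons (.keep [6,7,9,10,11] (.node (.cons (.leaf 2 [(2,1),(9,1)]) (.cons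 (.leaf 2 [(2,1),(9,1)]) (.cons (.leaf 2 [(2,1),(9,1)]) (.cons (.leaf 3 [(10,1),(9,1)]) (.cons (.leaf 1 [(3,1),(10,1)]) (.cons (.leaf 1 [(0,1),(9,1),(10,1)]) (.cons (.leaf 2 [(5,1),(9,1),(2,1)]) (.cons (.leaf 1 [(10,1)]) (.cons (.leaf 1 [(0,1),(9,1),(2,1),(10,1)]) .nil))))))))))) (.cons (.keep [0,5,9,10,11] (.node (.cons (.leaf 2 [(2,1),(8,1),(9,1)]) (.cons (.leaf 2 [(2,2),(4,1),(9,1)]) (.cons (.leaf 2 [(2,1),(8,1),(9,1)]) (.cons (.leaf 2 [(5,1),(8,2),(9,1)]) (.cons (.leaf 1 [(10,1)]) (.cons (.leaf 1 [(0,1),(8,1),(9,1),(10,1)]) (.cons (.leaf 2 [(5,1),(2,2),(9,1)]) (.cons (.leaf 1 [(10,1),(2,1)]) (.cons (.leaf 1 [(0,1),(2,2),(9,1),(10,1)]) .nil))))))))))) .nil))))))))))) (.cons (.leaf 1 [(1,1),(11,1)]) (.cons (.leaf 1 [(4,1)]) (.cons (.leaf 1 [(11,1),(1,1)]) (.cons (.leaf 1 [(1,1)])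 (.cons (.leaf 1 [(1,1)]) (.cons (.leaf 1 [(1,1)]) .nil))))))))))) (.cons (.leaf 1 [(5,1)]) (.cons (.leaf 1 []) (.cons (.leaf 1 [(5,1)]) .nil)))))))))))

theorem e_14_26 : ESB (caseOf 4 14 26) := esb_of_ok (t := t_14_26) (by decide +kernel)

def t_14_27 : T := (.keep [0,1,2] (.node (.cons (.leaf 1 [(5,1)]) (.cons (.leaf 1 []) (.cons (.leaf 1 [(5,1)]) (.cons (.leaf 1 [(5,1)]) (.cons (.keep [0,1,3,5,6,7] (.node (.cons (.leaf 1 [(5,1)]) (.cons (.keep [0,4,12,13] (.node (.cons (.leaf 1 [(5,1)]) (.cons (.leaf 1 []) (.cons (.leaf 1 [(5,1)]) (.cons (.leaf 1 [(5,1)]) (.cons (.leaf 1 [(11,1)]) (.cons (.leaf 1 [(4,1),(11,1)]) (.cons (.leaf 1 [(11,1),(4,1)]) (.cons (.leaf 1 [(11,1),(4,1)]) (.cons (.leaf 1 [(6,1)]) (.cons (.leaf 1 [(6,1)]) (.cons (.leaf 1 []) (.cons (.leaf 1 [(6,1)]) .nil))))))))))))))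 (.cons (.leaf 1 [(13,1),(5,1)]) (.cons (.keep [0,4,5,12,13] (.node (.cons (.leaf 1 [(5,1)]) (.cons (.leaf 1 []) (.cons (.leaf 1 [(5,1)]) (.cons (.leaf 1 [(5,1)]) (.cons (.leaf 1 [(6,1),(10,1)]) (.cons (.leaf 1 [(6,1),(11,1),(10,1)]) (.cons (.leaf 2 [(12,1),(10,1)]) (.cons (.leaf 2 [(12,1),(10,1),(6,1)]) (.cons (.leaf 1 [(6,1)]) (.cons (.leaf 1 [(6,1)]) (.cons (.leaf 1 []) (.cons (.leaf 1 [(6,1)]) .nil)))))))))))))) (.cons (.leaf 1 [(5,1)]) (.cons (.leaf 1 [(12,1),(1,1)]) (.cons (.leaf 1 [(12,1),(1,1)]) (.cons (.leaf 1 [(12,1),(1,1)]) (.cons (.leaf 1 [(5,1)]) (.cons (.leaf 1 [(13,1),(1,1)]) (.cons (.leaf 1 [(13,1),(1,1)]) (.cons (.leaf 1 [(13,1),(1,1)]) .nil)))))))))))))) (.cons (.keep [4,6,7,8,9] (.node (.cons (.leaf 1 []) (.cons (.keep [0,4,9,10] (.node (.cons (.leaf 1 [(5,1)]) (.cons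 (.leaf 1 []) (.cons (.leaf 1 [(5,1)]) (.cons (.leaf 1 [(5,1)]) (.cons (.leaf 1 [(11,1)]) (.cons (.leaf 1 [(4,1),(11,1)]) (.cons (.leaf 1 [(11,1),(4,1)]) (.cons (.leaf 1 [(11,1),(4,1)]) (.cons (.leaf 1 [(6,1)]) (.cons (.leaf 1 [(6,1)]) (.cons (.leaf 1 []) (.cons (.leaf 1 [(6,1)]) .nil)))))))))))))) (.cons (.leaf 1 [(10,1),(5,1)]) (.cons (.keep [5,8,9,10,11] (.node (.cons (.leaf 1 [(3,1),(5,1)]) (.cons (.leaf 1 [(9,1)]) (.cons (.leaf 1 [(9,1),(5,1)]) (.cons (.leaf 1 [(9,1),(5,1)]) (.cons (.leaf 1 [(6,1)]) (.cons (.leaf 1 [(6,1),(10,1),(8,1)]) (.cons (.leaf 2 [(11,1)]) (.cons (.leaf 2 [(11,1),(6,1)]) (.cons (.leaf 1 [(6,1)]) (.cons (.leaf 1 [(6,1),(9,1)]) (.cons (.leaf 1 [(9,1)]) (.cons (.leaf 1 [(9,1),(6,1)]) .nil)))))))))))))) (.cons (.leaf 1 [(1,1)]) (.cons (.leaf 1 [(9,1),(1,1)])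 (.cons (.leaf 1 [(1,1),(9,1)]) (.cons (.leaf 1 [(1,1),(9,1)]) (.cons (.leaf 1 [(1,1)]) (.cons (.leaf 1 [(10,1),(1,1)]) (.cons (.leaf 1 [(10,1),(1,1)]) (.cons (.leaf 1 [(1,1),(10,1)]) .nil)))))))))))))) (.cons (.keep [4,5,7,9,10] (.node (.cons (.leaf 1 [(5,1),(8,1)]) (.cons (.keep [7,8,10,11,12] (.node (.cons (.leaf 1 []) (.cons (.leaf 1 [(4,1)]) (.cons (.leaf 1 [(4,1)]) (.cons (.leaf 1 [(4,1)]) (.cons (.leaf 1 [(10,1)]) (.cons (.leaf 1 [(4,1),(10,1)]) (.cons (.leaf 1 [(10,1),(4,1)]) (.cons (.leaf 1 [(10,1),(4,1)]) (.cons (.leaf 1 [(9,1),(6,1)]) (.cons (.leaf 1 [(4,1),(6,1)]) (.cons (.leaf 1 [(9,1)]) (.cons (.leaf 1 [(9,1),(6,1)]) .nil)))))))))))))) (.cons (.leaf 1 [(10,1),(5,1)]) (.cons (.keep [0,8,9,10,11,12] (.node (.cons (.leaf 1 []) (.cons (.leaf 1 [(4,1)]) (.cons (.leaf 1 [(4,1)])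 (.cons (.leaf 1 [(4,1)]) (.cons (.leaf 1 [(6,1),(10,1)]) (.cons (.leaf 2 [(6,1),(11,1),(10,1)]) (.cons (.leaf 2 [(11,1),(10,1)]) (.cons (.leaf 2 [(11,1),(10,1),(6,1)]) (.cons (.leaf 1 [(9,1),(6,1)]) (.cons (.leaf 1 [(4,1),(6,1)]) (.cons (.leaf 1 [(9,1)]) (.cons (.leaf 1 [(9,1),(6,1)]) .nil)))))))))))))) (.cons (.leaf 1 [(1,1)]) (.cons (.leaf 1 [(1,1)]) (.cons (.leaf 1 [(1,1)]) (.cons (.leaf 1 [(1,1)]) (.cons (.leaf 1 [(5,1),(8,1)]) (.cons (.leaf 1 [(10,1),(1,1)]) (.cons (.leaf 1 [(10,1),(1,1)]) (.cons (.leaf 1 [(10,1),(1,1)]) .nil)))))))))))))) (.cons (.keep [0,4,5,6,9] (.node (.cons (.leaf 1 [(5,1),(9,1)]) (.cons (.keep [7,8,9,11,12] (.node (.cons (.leaf 1 [(5,1),(10,1)]) (.cons (.leaf 1 [(10,1)]) (.cons (.leaf 1 [(10,1),(5,1)]) (.cons (.leaf 1 [(10,1),(5,1)]) (.cons (.leaf 1 [])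 (.cons (.leaf 1 [(4,1)]) (.cons (.leaf 1 [(4,1)]) (.cons (.leaf 1 [(4,1)]) (.cons (.leaf 1 [(10,1),(6,1)]) (.cons (.leaf 1 [(6,1),(10,1)]) (.cons (.leaf 1 [(10,1)]) (.cons (.leaf 1 [(10,1),(6,1)]) .nil)))))))))))))) (.cons (.leaf 1 [(5,1)]) (.cons (.keep [0,8,9,10,11,12] (.node (.cons (.leaf 1 [(5,1),(10,1)]) (.cons (.leaf 1 [(10,1)]) (.cons (.leaf 1 [(10,1),(5,1)]) (.cons (.leaf 1 [(10,1),(5,1)]) (.cons (.leaf 1 []) (.cons (.leaf 1 [(4,1)]) (.cons (.leaf 1 [(4,1)]) (.cons (.leaf 1 [(4,1)]) (.cons (.leaf 1 [(10,1),(6,1)]) (.cons (.leaf 1 [(6,1),(10,1)]) (.cons (.leaf 1 [(10,1)]) (.cons (.leaf 1 [(10,1),(6,1)]) .nil)))))))))))))) (.cons (.leaf 1 [(5,1),(9,1)]) (.cons (.leaf 1 [(1,1),(11,1)]) (.cons (.leaf 1 [(5,1)]) (.cons (.leaf 1 [(1,1),(11,1)]) (.cons (.leaf 1 [(1,1)]) (.cons (.leaf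 1 [(1,1)]) (.cons (.leaf 1 [(1,1)]) (.cons (.leaf 1 [(1,1)]) .nil)))))))))))))) (.cons (.leaf 1 [(6,1)]) (.cons (.leaf 1 [(6,1)]) (.cons (.leaf 1 []) (.cons (.leaf 1 [(6,1)]) .nil))))))))))))))

theorem e_14_27 : ESB (caseOf 4 14 27) := esb_of_ok (t := t_14_27) (by decide +kernel)

def t_14_29 : T := (.keep [0,1,2] (.node (.cons (.keep [0,2,3,5,6,7] (.node (.cons (.leaf 1 [(11,1)]) (.cons (.leaf 1 [(11,1),(4,1)]) (.cons (.leaf 1 [(11,1),(4,1)]) (.cons (.leaf 1 [(11,1),(4,1)]) (.cons (.leaf 1 [(5,1)]) (.cons (.leaf 1 []) (.cons (.leaf 1 [(5,1)]) (.cons (.leaf 1 [(5,1)]) (.cons (.leaf 1 [(6,1)]) (.cons (.leaf 1 [(6,1)]) (.cons (.leaf 1 []) (.cons (.leaf 1 [(6,1)]) .nil)))))))))))))) (.cons (.keep [4,6,7,8,9] (.node (.cons (.leaf 1 []) (.cons (.leaf 1 [(4,1)]) (.cons (.leaf 1 [(4,1)])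 (.cons (.leaf 1 [(4,1)]) (.cons (.leaf 1 [(8,1),(5,1)]) (.cons (.leaf 1 [(8,1)]) (.cons (.leaf 1 [(8,1),(5,1)]) (.cons (.leaf 1 [(8,1),(5,1)]) (.cons (.leaf 1 [(8,1),(6,1)]) (.cons (.leaf 1 [(8,1),(6,1)]) (.cons (.leaf 1 [(8,1)]) (.cons (.leaf 1 [(8,1),(6,1)]) .nil)))))))))))))) (.cons (.keep [4,5,7,8,10] (.node (.cons (.leaf 1 [(9,1)]) (.cons (.leaf 1 [(9,1),(4,1)]) (.cons (.leaf 1 [(9,1),(4,1)]) (.cons (.leaf 1 [(9,1),(4,1)]) (.cons (.leaf 1 []) (.cons (.leaf 1 [(4,1)]) (.cons (.leaf 1 [(4,1)]) (.cons (.leaf 1 [(4,1)]) (.cons (.leaf 1 [(8,1),(6,1)]) (.cons (.leaf 1 [(4,1),(6,1)]) (.cons (.leaf 1 [(8,1)]) (.cons (.leaf 1 [(8,1),(6,1)]) .nil)))))))))))))) (.cons (.keep [0,4,5,6,8] (.node (.cons (.leaf 1 [(10,1)]) (.cons (.leaf 1 [(4,1),(10,1)]) (.cons (.leaf 1 [(10,1),(4,1)]) (.cons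 (.leaf 1 [(10,1),(4,1)]) (.cons (.leaf 1 [(5,1),(9,1)]) (.cons (.leaf 1 [(9,1)]) (.cons (.leaf 1 [(5,1),(4,1)]) (.cons (.leaf 1 [(9,1),(5,1)]) (.cons (.leaf 1 []) (.cons (.leaf 1 [(4,1)]) (.cons (.leaf 1 [(4,1)]) (.cons (.leaf 1 [(4,1)]) .nil)))))))))))))) (.cons (.leaf 1 [(5,1)]) (.cons (.leaf 1 []) (.cons (.leaf 1 [(5,1)]) (.cons (.leaf 1 [(5,1)]) (.cons (.leaf 1 [(6,1)]) (.cons (.leaf 1 [(6,1)]) (.cons (.leaf 1 []) (.cons (.leaf 1 [(6,1)]) .nil))))))))))))))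

theorem e_14_29 : ESB (caseOf 4 14 29) := esb_of_ok (t := t_14_29) (by decide +kernel)

def t_14_30 : T := (.keep [0,1,2] (.node (.cons (.leaf 1 []) (.cons (.leaf 1 [(4,1)]) (.cons (.leaf 1 [(4,1)]) (.cons (.leaf 1 [(4,1)]) (.cons (.leaf 1 [(5,1)]) (.cons (.leaf 1 []) (.cons (.leaf 1 [(5,1)]) (.cons (.leaf 1 [(5,1)]) (.cons (.leaf 1 [(6,1)]) (.cons (.leaf 1 [(6,1)]) (.cons (.leaf 1 []) (.cons (.leaf 1 [(6,1)]) .nil))))))))))))))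

theorem e_14_30 : ESB (caseOf 4 14 30) := esb_of_ok (t := t_14_30) (by decide +kernel)

def t_14_31 : T := (.keep [0,1,2] (.node (.cons (.leaf 1 [(5,1)]) (.cons (.leaf 1 []) (.cons (.leaf 1 [(5,1)]) (.cons (.leaf 1 [(5,1)]) (.cons (.leaf 1 [(5,1)]) (.cons (.leaf 1 [(6,1)]) (.cons (.leaf 1 [(6,1)]) (.cons (.leaf 1 []) (.cons (.leaf 1 [(6,1)]) (.cons (.leaf 1 [(6,1)]) (.cons (.leaf 1 [(7,1)]) (.cons (.leaf 1 [(7,1)]) (.cons (.leaf 1 [(7,1)]) (.cons (.leaf 1 []) (.cons (.leaf 1 [(7,1)]) .nil)))))))))))))))))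

theorem e_14_31 : ESB (caseOf 4 14 31) := esb_of_ok (t := t_14_31) (by decide +kernel)

def ks : List (ℕ × ℕ) := [(13, 26), (13, 27), (13, 28), (13, 29), (13, 30), (13, 31), (14, 25),
  (14, 26), (14, 27), (14, 29), (14, 30), (14, 31)]

theorem ks_ok : ∀ p ∈ ks, ESB (caseOf 4 p.1 p.2) := ks_cons e_13_26 <| ks_cons e_13_27 <| ks_cons
  e_13_28 <| ks_cons e_13_29 <| ks_cons e_13_30 <| ks_cons e_13_31 <| ks_cons e_14_25 <| ks_cons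
  e_14_26 <| ks_cons e_14_27 <| ks_cons e_14_29 <| ks_cons e_14_30 <| ks_cons e_14_31 <| ks_nil

end Pool.Agent.H4.RD4.E07
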