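import Pool.Agent.H4.RD4.Chk

/-! # Certificates for special cases of order four -/

set_option maxRecDepth 20000

namespace Pool.Agent.H4.RD4.E08

open Pool.Agent.H50.Rdb
open Pool.Agent.H81.RDE (ESB caseOf)

def t_15_25 : T := (.keep [0,1,2] (.node (.cons (.leaf 1 []) (.cons (.leaf 1 [(5,1)]) (.cons (.leaf 1 [(5,1)]) (.cons (.keep [1,3,6,7] (.node (.cons (.leaf 1 []) (.cons (.leaf 1 [(5,1)]) (.cons (.leaf 1 [(5,1)]) (.cons (.keep [1,6,7,10] (.node (.cons (.leaf 1 []) (.cons (.leaf 1 [(5,1)]) (.cons (.leaf 1 [(5,1)]) (.cons (.leaf 1 [(11,1)]) (.cons (.leaf 1 [(11,1),(5,1)]) (.cons (.leaf 1 [(11,1),(5,1)]) (.cons (.leaf 1 [(9,1)]) (.cons (.leaf 1 [(9,1),(5,1)]) (.cons (.leaf 1 [(9,1),(5,1)]) (.cons (.leaf 1 [(6,1)]) (.cons (.leaf 1 []) (.cons (.leaf 1 [(6,1)]) .nil))))))))))))))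 (.cons (.keep [4,5,7,9,10] (.node (.cons (.leaf 1 [(9,1)]) (.cons (.leaf 1 [(9,1),(5,1)]) (.cons (.leaf 1 [(9,1),(5,1)]) (.cons (.leaf 1 [(12,1),(9,1)]) (.cons (.leaf 1 [(12,1),(9,1),(5,1)]) (.cons (.leaf 1 [(12,1),(9,1),(5,1)]) (.cons (.leaf 1 []) (.cons (.leaf 1 [(5,1)]) (.cons (.leaf 1 [(5,1)]) (.cons (.leaf 1 [(9,1),(6,1)]) (.cons (.leaf 1 [(9,1)]) (.cons (.leaf 1 [(9,1),(6,1)]) .nil)))))))))))))) (.cons (.keep [5,8,9,10,11] (.node (.cons (.leaf 1 [(8,1)]) (.cons (.leaf 1 [(5,2)]) (.cons (.leaf 1 [(8,1),(5,1)]) (.cons (.leaf 1 [(11,1),(8,1)]) (.cons (.leaf 1 [(11,1),(5,2)]) (.cons (.leaf 1 [(11,1),(8,1),(5,1)]) (.cons (.leaf 1 [(12,1),(8,1)]) (.cons (.leaf 1 [(12,1),(5,2)]) (.cons (.leaf 1 [(12,1),(8,1),(5,1)]) (.cons (.leaf 1 []) (.cons (.leaf 1 [(1,1)]) (.cons (.leaf 1 [(5,1)])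 .nil)))))))))))))) (.cons (.leaf 1 [(10,1)]) (.cons (.leaf 1 [(10,1),(5,1)]) (.cons (.leaf 1 [(10,1),(5,1)]) (.cons (.leaf 1 [(6,1)]) (.cons (.leaf 1 []) (.cons (.leaf 1 [(6,1)]) .nil)))))))))))))) (.cons (.keep [5,7,8,9,10] (.node (.cons (.leaf 1 [(8,1)]) (.cons (.leaf 1 [(8,1),(5,1)]) (.cons (.leaf 1 [(8,1),(5,1)]) (.cons (.keep [7,8,9,10,12] (.node (.cons (.leaf 1 [(9,1)]) (.cons (.leaf 1 [(9,1),(5,1)]) (.cons (.leaf 1 [(9,1),(5,1)]) (.cons (.leaf 1 []) (.cons (.leaf 1 [(5,1)]) (.cons (.leaf 1 [(5,1)]) (.cons (.leaf 1 [(10,1)]) (.cons (.leaf 1 [(10,1),(5,1)]) (.cons (.leaf 1 [(10,1),(5,1)]) (.cons (.leaf 1 [(9,1),(6,1)]) (.cons (.leaf 1 [(9,1)]) (.cons (.leaf 1 [(9,1),(6,1)]) .nil)))))))))))))) (.cons (.keep [5,7,9,11,12] (.node (.cons (.leaf 1 [(10,1),(8,2)]) (.cons (.leaf 1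 [(10,1),(8,2),(5,1)]) (.cons (.leaf 1 [(10,1),(8,2),(5,1)]) (.cons (.leaf 1 [(8,1)]) (.cons (.leaf 1 [(8,1),(5,1)]) (.cons (.leaf 1 [(8,1),(5,1)]) (.cons (.leaf 1 [(10,1),(1,1)]) (.cons (.leaf 1 [(10,1),(1,1),(5,1)]) (.cons (.leaf 1 [(10,1),(1,1),(5,1)]) (.cons (.leaf 1 [(10,1),(8,2),(6,1)]) (.cons (.leaf 1 [(10,1),(8,2)]) (.cons (.leaf 1 [(10,1),(8,2),(6,1)]) .nil)))))))))))))) (.cons (.keep [5,8,9,11,12] (.node (.cons (.leaf 1 [(9,1),(8,1)]) (.cons (.leaf 1 [(9,1),(5,2)]) (.cons (.leaf 1 [(9,1),(8,1),(5,1)]) (.cons (.leaf 1 [(8,1)]) (.cons (.leaf 1 [(5,2)]) (.cons (.leaf 1 [(8,1),(5,1)]) (.cons (.leaf 1 [(10,1),(8,1)]) (.cons (.leaf 1 [(10,1),(5,2)]) (.cons (.leaf 1 [(10,1),(8,1),(5,1)]) (.cons (.leaf 1 [(9,1)]) (.cons (.leaf 1 [(9,1),(1,1)]) (.cons (.leaf 1 [(9,1),(5,1)]) .nil))))))))))))))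 (.cons (.leaf 1 []) (.cons (.leaf 1 [(5,1)]) (.cons (.leaf 1 [(5,1)]) (.cons (.leaf 1 [(8,1),(6,1)]) (.cons (.leaf 1 [(8,1)]) (.cons (.leaf 1 [(8,1),(6,1)]) .nil)))))))))))))) (.cons (.keep [1,5,6,8,9] (.node (.cons (.leaf 1 [(9,1)]) (.cons (.leaf 1 [(5,2)]) (.cons (.leaf 1 [(9,1),(5,1)]) (.cons (.keep [4,6,7,9,10] (.node (.cons (.leaf 1 [(11,1)]) (.cons (.leaf 1 [(11,1),(5,1)]) (.cons (.leaf 1 [(11,1),(5,1)]) (.cons (.leaf 1 [(12,1)]) (.cons (.leaf 1 [(12,1),(5,1)]) (.cons (.leaf 1 [(12,1),(5,1)]) (.cons (.leaf 1 []) (.cons (.leaf 1 [(5,1)]) (.cons (.leaf 1 [(5,1)]) (.cons (.leaf 1 [(11,1),(6,1)]) (.cons (.leaf 1 [(11,1)]) (.cons (.leaf 1 [(11,1),(6,1)]) .nil)))))))))))))) (.cons (.keep [4,5,7,10,11] (.node (.cons (.leaf 1 [(9,2)]) (.cons (.leaf 1 [(9,2),(5,1)]) (.cons (.leaf 1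 [(9,2),(5,1)]) (.cons (.leaf 1 [(11,1),(9,1)]) (.cons (.leaf 1 [(11,1),(9,1),(5,1)]) (.cons (.leaf 1 [(11,1),(9,1),(5,1)]) (.cons (.leaf 1 [(1,1)]) (.cons (.leaf 1 [(1,1),(5,1)]) (.cons (.leaf 1 [(1,1),(5,1)]) (.cons (.leaf 1 [(9,2),(6,1)]) (.cons (.leaf 1 [(9,2)]) (.cons (.leaf 1 [(9,2),(6,1)]) .nil)))))))))))))) (.cons (.keep [6,8,9,10,12] (.node (.cons (.leaf 1 [(10,2),(8,1)]) (.cons (.leaf 1 [(10,1),(5,2)]) (.cons (.leaf 1 [(10,2),(8,1),(5,1)]) (.cons (.leaf 1 [(11,1),(10,1),(8,1)]) (.cons (.leaf 1 [(11,1),(5,2)]) (.cons (.leaf 1 [(11,1),(10,1),(8,1),(5,1)]) (.cons (.leaf 1 [(1,1),(8,1)]) (.cons (.leaf 1 [(5,2)]) (.cons (.leaf 1 [(1,1),(8,1),(5,1)]) (.cons (.leaf 1 [(10,1)]) (.cons (.leaf 1 [(10,1),(1,1)]) (.cons (.leaf 1 [(10,1),(5,1)]) .nil)))))))))))))) (.cons (.leaf 1 [(10,1)])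 (.cons (.leaf 1 [(10,1),(5,1)]) (.cons (.leaf 1 [(10,1),(5,1)]) (.cons (.leaf 1 []) (.cons (.leaf 1 [(1,1)]) (.cons (.leaf 1 [(5,1)]) .nil)))))))))))))) (.cons (.keep [1,2,6,7] (.node (.cons (.leaf 1 [(2,1)]) (.cons (.leaf 1 [(2,1)]) (.cons (.leaf 1 [(2,1)]) (.cons (.keep [1,6,7,10] (.node (.cons (.leaf 1 []) (.cons (.leaf 1 [(5,1)]) (.cons (.leaf 1 [(5,1)]) (.cons (.leaf 1 [(11,1)]) (.cons (.leaf 1 [(11,1),(5,1)]) (.cons (.leaf 1 [(11,1),(5,1)]) (.cons (.leaf 1 [(9,1)]) (.cons (.leaf 1 [(9,1),(5,1)]) (.cons (.leaf 1 [(9,1),(5,1)]) (.cons (.leaf 1 [(6,1)]) (.cons (.leaf 1 []) (.cons (.leaf 1 [(6,1)]) .nil)))))))))))))) (.cons (.keep [4,5,7,10,11] (.node (.cons (.leaf 1 []) (.cons (.leaf 1 [(5,1)]) (.cons (.leaf 1 [(5,1)]) (.cons (.leaf 1 [(11,1)]) (.cons (.leaf 1 [(11,1),(5,1)])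 (.cons (.leaf 1 [(11,1),(5,1)]) (.cons (.leaf 1 [(12,1)]) (.cons (.leaf 1 [(12,1),(5,1)]) (.cons (.leaf 1 [(12,1),(5,1)]) (.cons (.leaf 1 [(6,1)]) (.cons (.leaf 1 []) (.cons (.leaf 1 [(6,1)]) .nil)))))))))))))) (.cons (.keep [0,5,10,11] (.node (.cons (.leaf 1 []) (.cons (.leaf 1 [(5,1)]) (.cons (.leaf 1 [(5,1)]) (.cons (.leaf 1 [(10,1)]) (.cons (.leaf 1 [(10,1),(5,1)]) (.cons (.leaf 1 [(10,1),(5,1)]) (.cons (.leaf 1 [(11,1)]) (.cons (.leaf 1 [(11,1),(5,1)]) (.cons (.leaf 1 [(11,1),(5,1)]) (.cons (.leaf 1 [(6,1)]) (.cons (.leaf 1 []) (.cons (.leaf 1 [(6,1)]) .nil)))))))))))))) (.cons (.leaf 1 [(10,1),(2,1)]) (.cons (.leaf 1 [(10,1),(2,1)]) (.cons (.leaf 1 [(10,1),(2,1)]) (.cons (.leaf 1 [(6,1),(2,1)]) (.cons (.leaf 1 [(11,1),(2,1)]) (.cons (.leaf 1 [(11,1),(2,1)]) .nil))))))))))))))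 (.cons (.keep [5,7,8,9,10] (.node (.cons (.leaf 1 [(2,1),(8,1)]) (.cons (.leaf 1 [(2,1),(8,1)]) (.cons (.leaf 1 [(2,1),(8,1)]) (.cons (.keep [7,8,9,10,12] (.node (.cons (.leaf 1 [(9,1)]) (.cons (.leaf 1 [(9,1),(5,1)]) (.cons (.leaf 1 [(9,1),(5,1)]) (.cons (.leaf 1 []) (.cons (.leaf 1 [(5,1)]) (.cons (.leaf 1 [(5,1)]) (.cons (.leaf 1 [(10,1)]) (.cons (.leaf 1 [(10,1),(5,1)]) (.cons (.leaf 1 [(10,1),(5,1)]) (.cons (.leaf 1 [(9,1),(6,1)]) (.cons (.leaf 1 [(9,1)]) (.cons (.leaf 1 [(9,1),(6,1)]) .nil)))))))))))))) (.cons (.keep [7,8,9,10,11,12] (.node (.cons (.leaf 1 [(9,1)]) (.cons (.leaf 1 [(9,1),(5,1)]) (.cons (.leaf 1 [(9,1),(5,1)]) (.cons (.leaf 1 []) (.cons (.leaf 1 [(5,1)]) (.cons (.leaf 1 [(5,1)]) (.cons (.leaf 1 [(10,1)]) (.cons (.leaf 1 [(10,1),(5,1)]) (.cons (.leaf 1 [(10,1),(5,1)])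 (.cons (.leaf 1 [(9,1),(6,1)]) (.cons (.leaf 1 [(9,1)]) (.cons (.leaf 1 [(9,1),(6,1)]) .nil)))))))))))))) (.cons (.keep [0,8,9,10,11] (.node (.cons (.leaf 1 [(9,1)]) (.cons (.leaf 1 [(9,1),(5,1)]) (.cons (.leaf 1 [(9,1),(5,1)]) (.cons (.leaf 1 []) (.cons (.leaf 1 [(5,1)]) (.cons (.leaf 1 [(5,1)]) (.cons (.leaf 1 [(10,1)]) (.cons (.leaf 1 [(10,1),(5,1)]) (.cons (.leaf 1 [(10,1),(5,1)]) (.cons (.leaf 1 [(9,1),(6,1)]) (.cons (.leaf 1 [(9,1)]) (.cons (.leaf 1 [(9,1),(6,1)]) .nil)))))))))))))) (.cons (.leaf 1 [(2,1)]) (.cons (.leaf 1 [(2,1)]) (.cons (.leaf 1 [(2,1)]) (.cons (.leaf 1 [(6,1),(8,1),(2,1)]) (.cons (.leaf 1 [(9,1),(2,1)]) (.cons (.leaf 1 [(9,1),(2,1)]) .nil)))))))))))))) (.cons (.keep [1,5,6,8,9] (.node (.cons (.leaf 1 [(2,1),(9,1)]) (.cons (.leaf 1 [(2,1),(5,1)]) (.cons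 (.leaf 1 [(2,1),(9,1)]) (.cons (.keep [4,6,7,9,10] (.node (.cons (.leaf 1 [(11,1)]) (.cons (.leaf 1 [(11,1),(5,1)]) (.cons (.leaf 1 [(11,1),(5,1)]) (.cons (.leaf 1 [(12,1)]) (.cons (.leaf 1 [(12,1),(5,1)]) (.cons (.leaf 1 [(12,1),(5,1)]) (.cons (.leaf 1 []) (.cons (.leaf 1 [(5,1)]) (.cons (.leaf 1 [(5,1)]) (.cons (.leaf 1 [(11,1),(6,1)]) (.cons (.leaf 1 [(11,1)]) (.cons (.leaf 1 [(11,1),(6,1)]) .nil)))))))))))))) (.cons (.keep [4,5,7,10,12] (.node (.cons (.leaf 1 [(9,1)]) (.cons (.leaf 1 [(9,1),(5,1)]) (.cons (.leaf 1 [(9,1),(5,1)]) (.cons (.leaf 1 [(11,1)]) (.cons (.leaf 1 [(11,1),(5,1)]) (.cons (.leaf 1 [(11,1),(5,1)]) (.cons (.leaf 1 []) (.cons (.leaf 1 [(5,1)]) (.cons (.leaf 1 [(5,1)]) (.cons (.leaf 1 [(9,1),(6,1)]) (.cons (.leaf 1 [(9,1)]) (.cons (.leaf 1 [(9,1),(6,1)]) .nil))))))))))))))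 (.cons (.keep [0,6,9,10,12] (.node (.cons (.leaf 1 [(10,1)]) (.cons (.leaf 1 [(10,1),(5,1)]) (.cons (.leaf 1 [(10,1),(5,1)]) (.cons (.leaf 1 [(11,1)]) (.cons (.leaf 1 [(11,1),(5,1)]) (.cons (.leaf 1 [(11,1),(5,1)]) (.cons (.leaf 1 []) (.cons (.leaf 1 [(5,1)]) (.cons (.leaf 1 [(5,1)]) (.cons (.leaf 1 [(10,1),(6,1)]) (.cons (.leaf 1 [(10,1)]) (.cons (.leaf 1 [(10,1),(6,1)]) .nil)))))))))))))) (.cons (.leaf 1 [(2,1),(10,1)]) (.cons (.leaf 1 [(2,1),(10,1)]) (.cons (.leaf 1 [(2,1),(10,1)]) (.cons (.leaf 1 [(2,1)]) (.cons (.leaf 1 [(2,1)]) (.cons (.leaf 1 [(2,1)]) .nil)))))))))))))) (.cons (.leaf 1 [(6,1)]) (.cons (.leaf 1 []) (.cons (.leaf 1 [(6,1)]) .nil))))))))))))))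

theorem e_15_25 : ESB (caseOf 4 15 25) := esb_of_ok (t := t_15_25) (by decide +kernel)

def z_15_26_0 : F := ⟨0, 1, 0, -1, 3⟩

def h_15_26_0 : List F := [⟨0, 1, 0, 0, 0⟩, ⟨-1, 0, 0, 1, 0⟩, ⟨0, 0, -1, 1, 0⟩, ⟨0, 1, 0, -1, 1⟩,
  ⟨0, -1, 0, 0, 1⟩]

def t_15_26_0 : T := (.node (.cons (.leaf 1 [(2,2),(9,1)]) (.cons (.leaf 1 [(5,1)]) (.cons (.keep [0,2,9,10,11] (.node (.cons (.leaf 1 [(9,1),(4,1),(10,1)]) (.cons (.leaf 1 [(10,1)]) (.cons (.leaf 1 [(4,1),(10,1),(9,1)]) (.cons (.leaf 2 [(4,1),(11,1),(10,1)]) (.cons (.leaf 2 [(5,1),(11,1),(10,1)]) (.cons (.leaf 2 [(5,2),(11,1),(10,1),(4,1)]) (.cons (.leaf 1 [(9,1),(1,1)]) (.cons (.leaf 1 [(1,1),(9,1)]) (.cons (.leaf 1 [(1,1),(9,1)]) (.cons (.leaf 1 [(6,2),(1,1),(11,1)]) (.cons (.keep [7,8,10,11,12] (.node (.cons (.leaf 1 [(3,1),(10,1)])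 (.cons (.leaf 1 [(3,1),(10,1)]) (.cons (.leaf 1 [(3,1),(10,1)]) (.cons (.leaf 1 [(1,1)]) (.cons (.leaf 1 [(1,1)]) (.cons (.leaf 1 [(1,1)]) (.cons (.leaf 3 [(11,1),(10,1)]) (.cons (.leaf 1 [(4,1),(11,1)]) (.cons (.leaf 1 [(0,1),(10,1),(11,1)]) (.cons (.leaf 1 [(6,1),(1,1)]) (.cons (.leaf 1 [(11,1)]) (.cons (.leaf 1 [(3,1),(0,1),(10,1),(11,1)]) .nil)))))))))))))) (.cons (.keep [6,8,10,11,12] (.node (.cons (.leaf 1 [(3,1),(8,1),(10,1)]) (.cons (.leaf 1 [(3,1),(8,1),(10,1)]) (.cons (.leaf 1 [(3,1),(8,1),(10,1)]) (.cons (.leaf 1 [(1,1),(8,1)]) (.cons (.leaf 1 [(3,1),(5,1),(1,1)]) (.cons (.leaf 1 [(8,1),(1,1)]) (.cons (.leaf 1 [(6,1),(8,2),(1,1)]) (.cons (.leaf 1 [(11,1)]) (.cons (.leaf 1 [(0,1),(8,2),(10,1),(11,1)]) (.cons (.leaf 1 [(1,1),(6,1),(3,1)]) (.cons (.leaf 1 [(11,1),(3,1)])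 (.cons (.leaf 1 [(0,1),(11,1),(3,3),(10,1)]) .nil)))))))))))))) .nil)))))))))))))) (.cons (.leaf 1 [(12,1),(9,1)]) (.cons (.leaf 1 [(5,1)]) (.cons (.keep [0,1,6,9,10,12] (.node (.cons (.leaf 1 [(4,1),(11,1)]) (.cons (.leaf 1 [(4,1),(11,1)]) (.cons (.leaf 1 [(4,1),(11,1)]) (.cons (.leaf 2 [(4,1),(12,1),(11,1)]) (.cons (.leaf 2 [(12,1),(11,1)]) (.cons (.leaf 2 [(5,1),(12,1),(11,1),(4,1)]) (.cons (.leaf 1 [(6,1),(1,1),(10,1)]) (.cons (.leaf 1 [(1,1),(10,1)]) (.cons (.leaf 1 [(1,1),(10,1),(6,1)]) (.cons (.leaf 1 [(6,2),(1,1),(12,1)]) (.cons (.keep [3,7,8,11,12] (.node (.cons (.leaf 1 [(3,1),(11,1)]) (.cons (.leaf 1 [(3,1),(11,1)]) (.cons (.leaf 1 [(3,1),(11,1)]) (.cons (.leaf 1 [(1,1)]) (.cons (.leaf 1 [(1,1)]) (.cons (.leaf 1 [(1,1)]) (.cons (.leaf 3 [(12,1),(11,1)]) (.cons (.leaf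 1 [(4,1),(12,1)]) (.cons (.leaf 1 [(0,1),(11,1),(12,1)]) (.cons (.leaf 1 [(6,1),(1,1)]) (.cons (.leaf 1 [(12,1)]) (.cons (.leaf 1 [(3,1),(0,1),(11,1),(12,1)]) .nil)))))))))))))) (.cons (.keep [3,6,8,9,11,12] (.node (.cons (.leaf 1 [(3,1),(12,1)]) (.cons (.leaf 1 [(3,1),(12,1)]) (.cons (.leaf 1 [(3,1),(12,1)]) (.cons (.leaf 1 [(1,1),(9,1)]) (.cons (.leaf 1 [(3,1),(5,1),(1,1)]) (.cons (.leaf 1 [(9,1),(1,1)]) (.cons (.leaf 1 [(6,1),(9,2),(1,1)]) (.cons (.leaf 1 [(13,1)]) (.cons (.leaf 1 [(0,1),(9,1),(12,1),(13,1)]) (.cons (.leaf 1 [(1,1),(6,1),(3,1)]) (.cons (.leaf 1 [(13,1),(3,1)]) (.cons (.leaf 1 [(0,1),(13,1),(3,2),(12,1)]) .nil)))))))))))))) .nil)))))))))))))) (.cons (.leaf 1 [(2,1),(10,1)]) (.cons (.leaf 1 [(5,1)]) (.cons (.leaf 1 [(10,1),(2,1)]) (.cons (.leaf 1 [(2,1)]) (.cons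 (.leaf 1 [(2,1)]) (.cons (.leaf 1 [(2,1)]) .nil)))))))))))))

theorem c_15_26_0 : Concl 15 26 z_15_26_0 h_15_26_0 .nd := piece _ hP_nil t_15_26_0 _ _ (by
  decide +kernel)

def z_15_26_1 : F := ⟨1, 0, 0, 0, 2⟩

def h_15_26_1 : List F := [⟨1, 0, 0, -1, 2⟩, ⟨1, 0, 0, 0, 0⟩, ⟨0, -1, 0, 0, 1⟩, ⟨0, 0, -1, 0, 1⟩]

def t_15_26_1 : T := (.node (.cons (.keep [2,3,6,7] (.node (.cons (.leaf 1 [(2,1)]) (.cons (.leaf 1 [(4,1)]) (.cons (.keep [2,8,10,11] (.node (.cons (.leaf 1 [(4,1)]) (.cons (.leaf 1 [(4,1)]) (.cons (.leaf 1 [(4,1)]) (.cons (.leaf 2 [(4,1),(10,1)]) (.cons (.leaf 2 [(4,1),(10,1)]) (.cons (.leaf 2 [(4,1),(10,1)]) (.cons (.leaf 2 [(6,1),(10,1)]) (.cons (.leaf 2 [(4,1),(11,1)]) (.cons (.leaf 2 [(4,1),(11,1)]) (.cons (.leaf 2 [(6,1),(10,1)]) (.cons (.keep [0,1,10,11] (.node (.cons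 (.leaf 1 [(3,1)]) (.cons (.leaf 1 [(3,1)]) (.cons (.leaf 1 [(3,1)]) (.cons (.leaf 1 [(10,1)]) (.cons (.leaf 1 [(4,1),(10,1)]) (.cons (.leaf 1 [(3,1),(0,1),(10,1)]) (.cons (.leaf 1 [(10,1),(2,1)]) (.cons (.leaf 1 [(4,1),(10,1)]) (.cons (.leaf 1 [(0,1),(10,1)]) (.cons (.leaf 1 [(10,1),(2,1)]) (.cons (.leaf 1 [(10,1)]) (.cons (.leaf 1 [(0,1),(3,1),(10,1)]) .nil)))))))))))))) (.cons (.keep [0,1,6,10,11] (.node (.cons (.leaf 1 [(3,1)]) (.cons (.leaf 1 [(3,1)]) (.cons (.leaf 1 [(3,1)]) (.cons (.leaf 1 [(11,1)]) (.cons (.leaf 1 [(4,1),(11,1)]) (.cons (.leaf 1 [(3,1),(0,1),(11,1)]) (.cons (.leaf 1 [(11,1),(2,1)]) (.cons (.leaf 1 [(4,1),(11,1)]) (.cons (.leaf 1 [(0,1),(11,1)]) (.cons (.leaf 1 [(11,1),(2,1)]) (.cons (.leaf 1 [(11,1)]) (.cons (.leaf 1 [(0,1),(3,1),(11,1)]) .nil))))))))))))))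 .nil)))))))))))))) (.cons (.leaf 1 []) (.cons (.leaf 1 [(4,1)]) (.cons (.keep [0,1,5,10,11] (.node (.cons (.leaf 1 [(2,1),(4,1)]) (.cons (.leaf 1 [(4,2)]) (.cons (.leaf 1 [(4,1),(9,1)]) (.cons (.leaf 2 [(4,1),(11,1)]) (.cons (.leaf 2 [(4,2),(11,1)]) (.cons (.leaf 1 [(1,1),(11,1)]) (.cons (.leaf 2 [(11,1),(4,1)]) (.cons (.leaf 2 [(4,2),(12,1)]) (.cons (.leaf 1 [(1,1),(12,1)]) (.cons (.leaf 2 [(11,1)]) (.cons (.keep [0,1,11,12] (.node (.cons (.leaf 1 [(3,1)]) (.cons (.leaf 1 [(3,1)]) (.cons (.leaf 1 [(3,1)]) (.cons (.leaf 1 [(10,1)]) (.cons (.leaf 1 [(4,1),(10,1)]) (.cons (.leaf 1 [(3,1),(0,1),(10,1)]) (.cons (.leaf 1 [(10,1),(2,1)]) (.cons (.leaf 1 [(4,1),(10,1)]) (.cons (.leaf 1 [(0,1),(10,1)]) (.cons (.leaf 1 [(10,1),(2,1)]) (.cons (.leaf 1 [(10,1)]) (.cons (.leaf 1 [(0,1),(3,1),(10,1)])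 .nil)))))))))))))) (.cons (.keep [6,9,10,11,12] (.node (.cons (.leaf 1 [(4,1)]) (.cons (.leaf 1 [(4,1)]) (.cons (.leaf 1 [(4,1)]) (.cons (.leaf 1 [(11,1)]) (.cons (.leaf 1 [(4,1),(11,1)]) (.cons (.leaf 1 [(4,1),(0,1),(11,1)]) (.cons (.leaf 1 [(11,1),(2,1)]) (.cons (.leaf 1 [(4,1),(11,1)]) (.cons (.leaf 1 [(4,1),(0,1),(11,1)]) (.cons (.leaf 1 [(11,1),(2,1)]) (.cons (.leaf 1 [(11,1)]) (.cons (.leaf 1 [(0,1),(11,1)]) .nil)))))))))))))) .nil)))))))))))))) (.cons (.leaf 1 [(2,1)]) (.cons (.leaf 1 [(4,1)]) (.cons (.leaf 1 [(1,1),(10,1)]) (.cons (.leaf 1 [(2,1)]) (.cons (.leaf 1 []) (.cons (.leaf 1 [(1,1),(11,1)]) .nil)))))))))))))) (.cons (.keep [3,4,5,7] (.node (.cons (.leaf 1 [(10,1),(2,1)]) (.cons (.leaf 1 [(4,1),(10,1)]) (.cons (.keep [0,2,3,10,11] (.node (.cons (.leaf 1 [(9,1)])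 (.cons (.leaf 1 [(4,1),(11,1)]) (.cons (.leaf 1 [(4,1),(11,1)]) (.cons (.leaf 1 [(1,1)]) (.cons (.leaf 1 [(1,1)]) (.cons (.leaf 1 [(1,1)]) (.cons (.leaf 1 [(9,1),(1,1)]) (.cons (.leaf 1 [(1,1),(12,1)]) (.cons (.leaf 2 [(12,1),(4,1),(11,1)]) (.cons (.leaf 1 [(6,1),(1,1)]) (.cons (.keep [7,8,10,11,12] (.node (.cons (.leaf 1 [(2,1)]) (.cons (.leaf 1 [(4,1)]) (.cons (.leaf 1 [(11,1),(3,1)]) (.cons (.leaf 1 []) (.cons (.leaf 1 [(4,1)]) (.cons (.leaf 1 [(3,1),(11,1),(0,1)]) (.cons (.leaf 1 [(2,1)]) (.cons (.leaf 1 [(4,1)]) (.cons (.leaf 1 [(11,1),(0,1)]) (.cons (.leaf 1 [(2,1)]) (.cons (.leaf 1 []) (.cons (.leaf 1 [(11,1),(3,1),(0,1)]) .nil)))))))))))))) (.cons (.keep [0,6,10,11,12] (.node (.cons (.leaf 1 [(2,1)]) (.cons (.leaf 1 [(4,1)]) (.cons (.leaf 1 [(11,1),(3,1)]) (.cons (.leaf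 1 []) (.cons (.leaf 1 [(4,1)]) (.cons (.leaf 1 [(3,1),(11,1),(0,1)]) (.cons (.leaf 1 [(2,1)]) (.cons (.leaf 1 [(4,1)]) (.cons (.leaf 1 [(11,1),(0,1)]) (.cons (.leaf 1 [(2,1)]) (.cons (.leaf 1 []) (.cons (.leaf 1 [(11,1),(3,1),(0,1)]) .nil)))))))))))))) .nil)))))))))))))) (.cons (.leaf 1 [(10,1)]) (.cons (.leaf 1 [(4,1),(10,1)]) (.cons (.keep [0,1,9,10,11] (.node (.cons (.leaf 2 [(4,1),(11,1)]) (.cons (.leaf 1 [(4,2),(11,1)]) (.cons (.leaf 1 [(9,1),(11,1),(4,1)]) (.cons (.leaf 1 [(1,1)]) (.cons (.leaf 1 [(1,1)]) (.cons (.leaf 1 [(1,1)]) (.cons (.leaf 2 [(4,1),(11,1)]) (.cons (.leaf 2 [(12,1),(4,2),(11,1)]) (.cons (.leaf 2 [(12,1),(9,1),(11,1),(4,1)]) (.cons (.leaf 1 [(6,1),(1,1)]) (.cons (.keep [7,8,10,11,12] (.node (.cons (.leaf 1 [(2,1)]) (.cons (.leaf 1 [(4,1)]) (.cons (.leaf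 1 [(11,1),(3,1)]) (.cons (.leaf 1 []) (.cons (.leaf 1 [(4,1)]) (.cons (.leaf 1 [(3,1),(11,1),(0,1)]) (.cons (.leaf 1 [(2,1)]) (.cons (.leaf 1 [(4,1)]) (.cons (.leaf 1 [(11,1),(0,1)]) (.cons (.leaf 1 [(2,1)]) (.cons (.leaf 1 []) (.cons (.leaf 1 [(11,1),(3,1),(0,1)]) .nil)))))))))))))) (.cons (.keep [8,9,10,11,12] (.node (.cons (.leaf 1 [(2,1)]) (.cons (.leaf 1 [(4,1)]) (.cons (.leaf 1 [(11,1),(4,1)]) (.cons (.leaf 1 []) (.cons (.leaf 1 [(4,1)]) (.cons (.leaf 1 [(4,1),(11,1),(0,1)]) (.cons (.leaf 1 [(2,1)]) (.cons (.leaf 1 [(4,1)]) (.cons (.leaf 1 [(4,1),(11,1),(0,1)]) (.cons (.leaf 1 [(2,1)]) (.cons (.leaf 1 []) (.cons (.leaf 1 [(11,1),(0,1)]) .nil)))))))))))))) .nil)))))))))))))) (.cons (.leaf 1 [(1,1)]) (.cons (.leaf 1 [(1,1)]) (.cons (.leaf 1 [(1,1)]) (.cons (.leaf 1 [(10,1),(2,1)])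 (.cons (.leaf 1 [(10,1)]) (.cons (.leaf 1 [(11,1),(1,1)]) .nil)))))))))))))) (.cons (.keep [0,3,5,6] (.node (.cons (.leaf 1 [(10,1),(2,1)]) (.cons (.leaf 2 [(10,1)]) (.cons (.keep [0,2,6,10,11] (.node (.cons (.leaf 1 [(4,1),(11,1)]) (.cons (.leaf 1 [(4,1),(11,1)]) (.cons (.leaf 1 [(4,1),(11,1)]) (.cons (.leaf 2 [(4,1),(12,1),(11,1)]) (.cons (.leaf 1 [(1,1),(12,1)]) (.cons (.leaf 2 [(4,1),(12,1),(11,1)]) (.cons (.leaf 1 [(1,1)]) (.cons (.leaf 1 [(1,1)]) (.cons (.leaf 1 [(1,1)]) (.cons (.leaf 2 [(6,1),(12,1),(11,1)]) (.cons (.keep [3,7,8,11,12] (.node (.cons (.leaf 1 [(3,1),(11,1)]) (.cons (.leaf 1 [(3,1),(11,1)]) (.cons (.leaf 1 [(3,1),(11,1)]) (.cons (.leaf 1 [(1,1)]) (.cons (.leaf 1 [(1,1)]) (.cons (.leaf 1 [(1,1)]) (.cons (.leaf 3 [(12,1),(11,1)]) (.cons (.leaf 1 [(4,1),(12,1)])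 (.cons (.leaf 1 [(0,1),(11,1),(12,1)]) (.cons (.leaf 1 [(6,1),(1,1)]) (.cons (.leaf 1 [(12,1)]) (.cons (.leaf 1 [(3,1),(0,1),(11,1),(12,1)]) .nil)))))))))))))) (.cons (.keep [0,3,6,11,12] (.node (.cons (.leaf 1 [(3,1),(11,1)]) (.cons (.leaf 1 [(3,1),(11,1)]) (.cons (.leaf 1 [(3,1),(11,1)]) (.cons (.leaf 1 [(1,1)]) (.cons (.leaf 1 [(1,1)]) (.cons (.leaf 1 [(1,1)]) (.cons (.leaf 1 [(6,1),(1,1),(10,1)]) (.cons (.leaf 1 [(4,1),(12,1)]) (.cons (.leaf 1 [(0,1),(11,1),(12,1)]) (.cons (.leaf 1 [(6,1),(1,1)]) (.cons (.leaf 1 [(12,1)]) (.cons (.leaf 1 [(0,1),(11,1),(3,1),(12,1)]) .nil)))))))))))))) .nil)))))))))))))) (.cons (.leaf 1 [(10,1)]) (.cons (.leaf 1 [(1,1),(5,1)]) (.cons (.keep [0,1,8,10,11] (.node (.cons (.leaf 1 [(11,1),(4,1),(2,1)]) (.cons (.leaf 1 [(4,2),(11,1)]) (.cons (.leaf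 1 [(9,1),(11,1),(4,1)]) (.cons (.leaf 2 [(4,1),(12,1),(11,1)]) (.cons (.leaf 1 [(1,1),(12,1)]) (.cons (.leaf 2 [(4,1),(12,1),(9,1),(11,1)]) (.cons (.leaf 1 [(1,1)]) (.cons (.leaf 1 [(1,1)]) (.cons (.leaf 1 [(1,1)]) (.cons (.leaf 2 [(12,1),(11,1)]) (.cons (.keep [7,8,10,11,12] (.node (.cons (.leaf 1 [(3,1),(11,1)]) (.cons (.leaf 1 [(3,1),(11,1)]) (.cons (.leaf 1 [(3,1),(11,1)]) (.cons (.leaf 1 [(1,1)]) (.cons (.leaf 1 [(1,1)]) (.cons (.leaf 1 [(1,1)]) (.cons (.leaf 3 [(12,1),(11,1)]) (.cons (.leaf 1 [(4,1),(12,1)]) (.cons (.leaf 1 [(0,1),(11,1),(12,1)]) (.cons (.leaf 1 [(6,1),(1,1)]) (.cons (.leaf 1 [(12,1)]) (.cons (.leaf 1 [(3,1),(0,1),(11,1),(12,1)]) .nil)))))))))))))) (.cons (.keep [8,9,10,11,12] (.node (.cons (.leaf 1 [(4,1),(11,1)]) (.cons (.leaf 1 [(4,1),(11,1)]) (.cons (.leaf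 1 [(4,1),(11,1)]) (.cons (.leaf 1 [(1,1)]) (.cons (.leaf 1 [(1,1)]) (.cons (.leaf 1 [(1,1)]) (.cons (.leaf 2 [(6,1),(11,1)]) (.cons (.leaf 1 [(12,1),(4,1)]) (.cons (.leaf 1 [(0,1),(4,1),(11,1),(12,1)]) (.cons (.leaf 1 [(6,1),(1,1)]) (.cons (.leaf 1 [(12,1)]) (.cons (.leaf 1 [(0,1),(11,1),(12,1)]) .nil)))))))))))))) .nil)))))))))))))) (.cons (.leaf 1 [(10,1),(2,1)]) (.cons (.leaf 2 [(1,1),(10,1)]) (.cons (.leaf 1 [(1,1),(11,1)]) (.cons (.leaf 1 [(1,1)]) (.cons (.leaf 1 [(1,1)]) (.cons (.leaf 1 [(1,1)]) .nil)))))))))))))) (.cons (.leaf 1 []) (.cons (.leaf 1 [(5,1)]) (.cons (.leaf 1 [(5,1)]) (.cons (.keep [1,6,7,10,11] (.node (.cons (.leaf 1 [(2,2)]) (.cons (.leaf 1 [(2,1),(4,1)]) (.cons (.keep [0,2,9,10,11] (.node (.cons (.leaf 1 [(6,1)]) (.cons (.leaf 1 []) (.cons (.leaf 1 [(6,1)])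 (.cons (.leaf 2 [(4,1),(10,1)]) (.cons (.leaf 2 [(10,1),(5,1)]) (.cons (.leaf 2 [(5,2),(10,1),(4,1)]) (.cons (.leaf 2 [(6,1),(9,2),(10,1)]) (.cons (.leaf 2 [(11,1),(9,1)]) (.cons (.leaf 2 [(11,1),(6,1),(9,1)]) (.cons (.leaf 2 [(6,3),(10,1)]) (.cons (.keep [0,1,10,11] (.node (.cons (.leaf 1 [(3,1)]) (.cons (.leaf 1 [(3,1)]) (.cons (.leaf 1 [(3,1)]) (.cons (.leaf 1 [(10,1)]) (.cons (.leaf 1 [(4,1),(10,1)]) (.cons (.leaf 1 [(3,1),(0,1),(10,1)]) (.cons (.leaf 1 [(10,1),(2,1)]) (.cons (.leaf 1 [(4,1),(10,1)]) (.cons (.leaf 1 [(0,1),(10,1)]) (.cons (.leaf 1 [(10,1),(2,1)]) (.cons (.leaf 1 [(10,1)]) (.cons (.leaf 1 [(0,1),(3,1),(10,1)]) .nil)))))))))))))) (.cons (.keep [0,1,6,10,11] (.node (.cons (.leaf 1 [(3,1),(10,1)]) (.cons (.leaf 1 [(3,1),(10,1)]) (.cons (.leaf 1 [(3,1),(10,1)]) (.cons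 (.leaf 1 [(11,1),(10,1)]) (.cons (.leaf 1 [(3,1),(11,1)]) (.cons (.leaf 1 [(3,1),(0,1),(10,2),(11,1)]) (.cons (.leaf 1 [(11,1),(2,1),(10,1)]) (.cons (.leaf 1 [(11,1)]) (.cons (.leaf 1 [(0,1),(10,2),(11,1)]) (.cons (.leaf 1 [(11,1),(2,1),(3,1)]) (.cons (.leaf 1 [(11,1),(3,1)]) (.cons (.leaf 1 [(0,1),(3,3),(11,1)]) .nil)))))))))))))) .nil)))))))))))))) (.cons (.leaf 1 [(12,1)]) (.cons (.leaf 1 [(10,1),(5,1)]) (.cons (.keep [1,5,9,10,12] (.node (.cons (.leaf 1 [(4,1)]) (.cons (.leaf 1 [(4,1)]) (.cons (.leaf 1 [(4,1)]) (.cons (.leaf 2 [(4,1),(10,1)]) (.cons (.leaf 2 [(10,1)]) (.cons (.leaf 2 [(4,1),(10,1),(5,1)]) (.cons (.leaf 1 [(6,1),(10,1),(9,1)]) (.cons (.leaf 2 [(11,1)]) (.cons (.leaf 2 [(11,1),(6,1)]) (.cons (.leaf 2 [(6,2),(10,1)]) (.cons (.keep [0,1,10,11] (.node (.cons (.leaf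 1 [(3,1)]) (.cons (.leaf 1 [(3,1)]) (.cons (.leaf 1 [(3,1)]) (.cons (.leaf 1 [(10,1)]) (.cons (.leaf 1 [(4,1),(10,1)]) (.cons (.leaf 1 [(3,1),(0,1),(10,1)]) (.cons (.leaf 1 [(10,1),(2,1)]) (.cons (.leaf 1 [(4,1),(10,1)]) (.cons (.leaf 1 [(0,1),(10,1)]) (.cons (.leaf 1 [(10,1),(2,1)]) (.cons (.leaf 1 [(10,1)]) (.cons (.leaf 1 [(0,1),(3,1),(10,1)]) .nil)))))))))))))) (.cons (.keep [0,6,9,10,11] (.node (.cons (.leaf 1 [(3,1)]) (.cons (.leaf 1 [(3,1)]) (.cons (.leaf 1 [(3,1)]) (.cons (.leaf 1 [(11,1),(9,1)]) (.cons (.leaf 1 [(3,1),(11,1)]) (.cons (.leaf 1 [(3,1),(0,1),(9,1),(11,1)]) (.cons (.leaf 1 [(11,1),(2,1),(9,1)]) (.cons (.leaf 1 [(11,1)]) (.cons (.leaf 1 [(0,1),(9,1),(11,1)]) (.cons (.leaf 1 [(11,1),(2,1),(3,1)]) (.cons (.leaf 1 [(11,1),(3,1)]) (.cons (.leaf 1 [(0,1),(3,2),(11,1)])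 .nil)))))))))))))) .nil)))))))))))))) (.cons (.leaf 1 [(9,1),(2,1)]) (.cons (.leaf 1 [(2,1),(9,1)]) (.cons (.leaf 1 [(2,1),(9,1)]) (.cons (.leaf 1 [(10,1),(2,1)]) (.cons (.leaf 1 [(10,1),(2,1)]) (.cons (.leaf 1 [(2,1),(10,1)]) .nil)))))))))))))) (.cons (.keep [1,5,7,8,11] (.node (.cons (.leaf 1 [(2,2),(9,1)]) (.cons (.leaf 1 [(2,1),(4,1),(9,1)]) (.cons (.keep [0,2,9,10,11] (.node (.cons (.leaf 1 [(9,2)]) (.cons (.leaf 1 [(10,1)]) (.cons (.leaf 1 [(4,1),(10,1),(9,1)]) (.cons (.leaf 1 [(1,1)]) (.cons (.leaf 1 [(1,1),(5,1)]) (.cons (.leaf 1 [(1,1),(5,1)]) (.cons (.leaf 1 [(1,1),(9,2)]) (.cons (.leaf 2 [(11,1),(9,1),(10,1)]) (.cons (.leaf 2 [(11,1),(9,2),(10,1),(4,1)]) (.cons (.leaf 1 [(1,1),(6,2)]) (.cons (.keep [7,8,10,11,12] (.node (.cons (.leaf 1 [(2,1)]) (.cons (.leaf 1 [(4,1)])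 (.cons (.leaf 1 [(10,1),(3,1)]) (.cons (.leaf 1 []) (.cons (.leaf 1 [(4,1)]) (.cons (.leaf 1 [(3,1),(10,1),(0,1)]) (.cons (.leaf 1 [(2,1)]) (.cons (.leaf 1 [(4,1)]) (.cons (.leaf 1 [(10,1),(0,1)]) (.cons (.leaf 1 [(2,1)]) (.cons (.leaf 1 []) (.cons (.leaf 1 [(10,1),(3,1),(0,1)]) .nil)))))))))))))) (.cons (.keep [6,8,10,11,12] (.node (.cons (.leaf 1 [(2,1),(8,1)]) (.cons (.leaf 1 [(3,1)]) (.cons (.leaf 1 [(8,1),(10,1),(3,1)]) (.cons (.leaf 1 [(8,1)]) (.cons (.leaf 1 [(3,1)]) (.cons (.leaf 1 [(3,1),(8,2),(10,1),(0,1)]) (.cons (.leaf 1 [(8,1),(2,1)]) (.cons (.leaf 1 []) (.cons (.leaf 1 [(10,1),(8,2),(0,1)]) (.cons (.leaf 1 [(2,1),(3,1)]) (.cons (.leaf 1 [(3,1)]) (.cons (.leaf 1 [(3,3),(10,1),(0,1)]) .nil)))))))))))))) .nil)))))))))))))) (.cons (.leaf 1 [(12,1),(9,1)]) (.cons (.leaf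 1 [(10,1),(5,1)]) (.cons (.keep [0,1,9,10,11,12] (.node (.cons (.leaf 1 [(4,1),(10,1)]) (.cons (.leaf 1 [(4,1),(10,1)]) (.cons (.leaf 1 [(4,1),(10,1)]) (.cons (.leaf 1 [(1,1)]) (.cons (.leaf 1 [(1,1),(5,1)]) (.cons (.leaf 1 [(1,1),(5,1)]) (.cons (.leaf 2 [(6,1),(11,1),(10,1)]) (.cons (.leaf 2 [(11,1),(10,1)]) (.cons (.leaf 2 [(11,1),(10,1),(6,1)]) (.cons (.leaf 1 [(1,1),(6,2)]) (.cons (.keep [7,8,10,11,12] (.node (.cons (.leaf 1 [(2,1)]) (.cons (.leaf 1 [(4,1)]) (.cons (.leaf 1 [(10,1),(3,1)]) (.cons (.leaf 1 []) (.cons (.leaf 1 [(4,1)]) (.cons (.leaf 1 [(3,1),(10,1),(0,1)]) (.cons (.leaf 1 [(2,1)]) (.cons (.leaf 1 [(4,1)]) (.cons (.leaf 1 [(10,1),(0,1)]) (.cons (.leaf 1 [(2,1)]) (.cons (.leaf 1 []) (.cons (.leaf 1 [(10,1),(3,1),(0,1)]) .nil)))))))))))))) (.cons (.keep [6,8,9,10,11,12]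 (.node (.cons (.leaf 1 [(2,1),(8,1)]) (.cons (.leaf 1 [(3,1)]) (.cons (.leaf 1 [(3,1),(11,1)]) (.cons (.leaf 1 [(8,1)]) (.cons (.leaf 1 [(3,1)]) (.cons (.leaf 1 [(3,1),(8,1),(11,1),(0,1)]) (.cons (.leaf 1 [(8,1),(2,1)]) (.cons (.leaf 1 []) (.cons (.leaf 1 [(11,1),(8,1),(0,1)]) (.cons (.leaf 1 [(2,1),(3,1)]) (.cons (.leaf 1 [(3,1)]) (.cons (.leaf 1 [(3,2),(11,1),(0,1)]) .nil)))))))))))))) .nil)))))))))))))) (.cons (.leaf 1 [(2,1)]) (.cons (.leaf 1 [(2,1)]) (.cons (.leaf 1 [(2,1)]) (.cons (.leaf 1 [(10,1),(2,1)]) (.cons (.leaf 1 [(10,1),(2,1)]) (.cons (.leaf 1 [(10,1),(2,1)]) .nil)))))))))))))) (.cons (.keep [1,5,6,9,11] (.leaf 0 [(0,0)])) (.cons (.leaf 1 [(6,1)]) (.cons (.leaf 1 []) (.cons (.leaf 1 [(6,1)]) .nil)))))))))))))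

theorem c_15_26_1 : Concl 15 26 z_15_26_1 h_15_26_1 .nd := piece _ (hP_cons c_15_26_0 hP_nil)
  t_15_26_1 _ _ (by decide +kernel)

def z_15_26_2 : F := ⟨0, -1, 0, -1, 2⟩

def h_15_26_2 : List F := [⟨0, -1, 0, 0, 0⟩, ⟨-1, 0, 0, 1, 0⟩, ⟨0, 0, -1, 1, 0⟩, ⟨0, -1, 0, -1,
  1⟩, ⟨0, 1, 0, 0, 1⟩]

def t_15_26_2 : T := (.node (.cons (.leaf 1 [(9,1)]) (.cons (.leaf 2 [(12,2),(9,1)]) (.cons (.keep [0,9,10,11,12] (.node (.cons (.leaf 1 [(2,1),(4,1),(9,1)]) (.cons (.leaf 1 [(9,1),(4,2)]) (.cons (.leaf 1 [(4,1),(9,1),(12,1)]) (.cons (.leaf 2 [(4,1),(10,1),(9,1)]) (.cons (.leaf 1 [(4,1),(1,1),(10,1)]) (.cons (.leaf 2 [(4,1),(10,1),(9,1),(12,2)]) (.cons (.leaf 1 [(2,1),(1,1)]) (.cons (.leaf 1 [(1,1),(4,1)]) (.cons (.leaf 1 [(1,1),(12,1)]) (.cons (.leaf 1 [(10,1),(1,1)]) (.cons (.keep [7,8,9,10,11]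 (.node (.cons (.leaf 1 [(3,1),(10,1)]) (.cons (.leaf 1 [(3,1),(10,1)]) (.cons (.leaf 1 [(3,1),(10,1)]) (.cons (.leaf 1 [(1,1)]) (.cons (.leaf 1 [(1,1)]) (.cons (.leaf 1 [(1,1)]) (.cons (.leaf 3 [(11,1),(10,1)]) (.cons (.leaf 1 [(4,1),(11,1)]) (.cons (.leaf 1 [(0,1),(10,1),(11,1)]) (.cons (.leaf 1 [(6,1),(1,1)]) (.cons (.leaf 1 [(11,1)]) (.cons (.leaf 1 [(3,1),(0,1),(10,1),(11,1)]) .nil)))))))))))))) (.cons (.keep [8,9,10,11,12] (.node (.cons (.leaf 1 [(9,1),(2,1),(6,1)]) (.cons (.leaf 1 [(9,1),(4,1)]) (.cons (.leaf 1 [(9,1),(4,1)]) (.cons (.leaf 1 [(1,1),(12,1)]) (.cons (.leaf 1 [(1,1),(12,1)]) (.cons (.leaf 2 [(4,1),(12,1),(9,1)]) (.cons (.leaf 1 [(1,1),(6,1)]) (.cons (.leaf 1 [(10,1),(4,2)]) (.cons (.leaf 1 [(0,1),(4,2),(10,1),(9,1)]) (.cons (.leaf 1 [(6,1),(1,1),(12,1)]) (.cons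 (.leaf 1 [(10,1),(12,1)]) (.cons (.leaf 1 [(9,1),(12,1),(0,1),(10,1)]) .nil)))))))))))))) .nil)))))))))))))) (.cons (.leaf 1 [(1,1),(9,1)]) (.cons (.leaf 1 [(1,2),(5,1)]) (.cons (.keep [0,1,9,10,11] (.node (.cons (.leaf 1 [(2,2),(4,1),(10,1)]) (.cons (.leaf 1 [(10,1),(4,3)]) (.cons (.leaf 1 [(4,1),(10,1),(9,2)]) (.cons (.leaf 2 [(4,1),(11,1),(10,1)]) (.cons (.leaf 1 [(4,1),(1,1),(11,1)]) (.cons (.leaf 1 [(9,1),(1,1),(11,1)]) (.cons (.leaf 1 [(2,1),(1,1)]) (.cons (.leaf 1 [(1,1),(4,1)]) (.cons (.leaf 1 [(1,1),(9,1)]) (.cons (.leaf 1 [(11,1),(1,1)]) (.cons (.keep [7,8,10,11,12] (.node (.cons (.leaf 1 [(3,1),(10,1)]) (.cons (.leaf 1 [(3,1),(10,1)]) (.cons (.leaf 1 [(3,1),(10,1)]) (.cons (.leaf 1 [(1,1)]) (.cons (.leaf 1 [(1,1)]) (.cons (.leaf 1 [(1,1)]) (.cons (.leaf 3 [(11,1),(10,1)])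 (.cons (.leaf 1 [(4,1),(11,1)]) (.cons (.leaf 1 [(0,1),(10,1),(11,1)]) (.cons (.leaf 1 [(6,1),(1,1)]) (.cons (.leaf 1 [(11,1)]) (.cons (.leaf 1 [(3,1),(0,1),(10,1),(11,1)]) .nil)))))))))))))) (.cons (.keep [8,9,10,11,12] (.node (.cons (.leaf 2 [(10,1),(9,2),(6,1)]) (.cons (.leaf 1 [(3,1),(10,1),(9,2)]) (.cons (.leaf 1 [(3,1),(10,1),(9,2)]) (.cons (.leaf 1 [(1,1),(9,1)]) (.cons (.leaf 1 [(1,1),(9,1)]) (.cons (.leaf 1 [(9,1),(1,1)]) (.cons (.leaf 1 [(1,1),(6,1)]) (.cons (.leaf 1 [(11,1),(4,2)]) (.cons (.leaf 1 [(0,1),(4,3),(11,1),(10,1)]) (.cons (.leaf 1 [(6,1),(1,1),(9,1)]) (.cons (.leaf 1 [(11,1),(9,1)]) (.cons (.leaf 1 [(10,1),(9,2),(0,1),(11,1)]) .nil)))))))))))))) .nil)))))))))))))) (.cons (.leaf 1 [(9,1),(1,1)]) (.cons (.leaf 2 [(12,2),(1,1),(9,1)]) (.cons (.leaf 1 [(12,1),(1,1),(10,1)])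 (.cons (.leaf 1 [(6,1),(1,2)]) (.cons (.leaf 1 [(12,1),(1,1)]) (.cons (.leaf 1 [(12,1),(1,1)]) .nil)))))))))))))

theorem c_15_26_2 : Concl 15 26 z_15_26_2 h_15_26_2 .nd := piece _ hP_nil t_15_26_2 _ _ (by
  decide +kernel)

def z_15_26_3 : F := ⟨1, 0, -1, 0, 1⟩

def h_15_26_3 : List F := [⟨1, 0, -1, 0, 0⟩, ⟨1, 0, 0, -1, 0⟩, ⟨0, 0, 1, 0, 1⟩, ⟨0, -1, 1, 0, 0⟩,
  ⟨0, 0, -1, 0, 1⟩]

def t_15_26_3 : T := (.node (.cons (.keep [3,6,7,10,11] (.node (.cons (.leaf 1 []) (.cons (.leaf 1 [(11,1),(4,1)]) (.cons (.keep [0,9,10,11,12] (.node (.cons (.leaf 1 [(2,1),(4,1)]) (.cons (.leaf 1 [(4,2)]) (.cons (.leaf 1 [(4,1),(11,1)]) (.cons (.leaf 2 [(4,1),(9,1)]) (.cons (.leaf 2 [(4,3),(9,1)]) (.cons (.leaf 2 [(4,1),(9,1),(11,2)]) (.cons (.leaf 1 [(9,1),(1,1)]) (.cons (.leaf 2 [(4,3),(10,1)]) (.cons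 (.leaf 2 [(4,1),(10,1),(11,2)]) (.cons (.leaf 2 [(9,1),(2,1)]) (.cons (.keep [0,1,9,10] (.node (.cons (.leaf 1 [(3,1)]) (.cons (.leaf 1 [(3,1)]) (.cons (.leaf 1 [(3,1)]) (.cons (.leaf 1 [(10,1)]) (.cons (.leaf 1 [(4,1),(10,1)]) (.cons (.leaf 1 [(3,1),(0,1),(10,1)]) (.cons (.leaf 1 [(10,1),(2,1)]) (.cons (.leaf 1 [(4,1),(10,1)]) (.cons (.leaf 1 [(0,1),(10,1)]) (.cons (.leaf 1 [(10,1),(2,1)]) (.cons (.leaf 1 [(10,1)]) (.cons (.leaf 1 [(0,1),(3,1),(10,1)]) .nil)))))))))))))) (.cons (.keep [6,9,10,11,12] (.node (.cons (.leaf 1 [(4,1)]) (.cons (.leaf 1 [(4,1)]) (.cons (.leaf 1 [(4,1)]) (.cons (.leaf 1 [(11,1),(9,1)]) (.cons (.leaf 1 [(4,1),(11,1),(9,1)]) (.cons (.leaf 1 [(4,1),(11,1),(0,1),(9,1)]) (.cons (.leaf 1 [(9,1),(4,1),(2,1)]) (.cons (.leaf 1 [(4,2),(9,1)]) (.cons (.leaf 1 [(4,2),(0,1),(9,1)])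 (.cons (.leaf 1 [(9,1),(11,1),(2,1)]) (.cons (.leaf 1 [(11,1),(9,1)]) (.cons (.leaf 1 [(11,1),(0,1),(9,1)]) .nil)))))))))))))) .nil)))))))))))))) (.cons (.leaf 1 [(1,1)]) (.cons (.leaf 1 [(1,1),(4,1)]) (.cons (.keep [0,1,9,10,12] (.node (.cons (.leaf 1 [(2,2),(4,1)]) (.cons (.leaf 1 [(4,3)]) (.cons (.leaf 1 [(4,1),(9,2)]) (.cons (.leaf 2 [(4,1),(10,1)]) (.cons (.leaf 2 [(4,4),(10,1)]) (.cons (.leaf 2 [(9,3),(4,1),(10,1)]) (.cons (.leaf 1 [(10,1),(1,1)]) (.cons (.leaf 2 [(4,4),(11,1)]) (.cons (.leaf 2 [(9,3),(4,1),(11,1)]) (.cons (.leaf 2 [(10,1),(2,2)]) (.cons (.keep [0,1,10,11] (.node (.cons (.leaf 1 [(3,1)]) (.cons (.leaf 1 [(3,1)]) (.cons (.leaf 1 [(3,1)]) (.cons (.leaf 1 [(10,1)]) (.cons (.leaf 1 [(4,1),(10,1)]) (.cons (.leaf 1 [(3,1),(0,1),(10,1)]) (.cons (.leaf 1 [(10,1),(2,1)])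 (.cons (.leaf 1 [(4,1),(10,1)]) (.cons (.leaf 1 [(0,1),(10,1)]) (.cons (.leaf 1 [(10,1),(2,1)]) (.cons (.leaf 1 [(10,1)]) (.cons (.leaf 1 [(0,1),(3,1),(10,1)]) .nil)))))))))))))) (.cons (.keep [0,1,9,10,11] (.node (.cons (.leaf 1 [(9,1),(4,2)]) (.cons (.leaf 1 [(9,1),(4,2)]) (.cons (.leaf 1 [(9,1),(4,2)]) (.cons (.leaf 1 [(10,1),(11,1)]) (.cons (.leaf 1 [(4,1),(10,1),(11,1)]) (.cons (.leaf 1 [(4,1),(10,2),(0,1),(11,1)]) (.cons (.leaf 1 [(11,1),(4,1),(2,1)]) (.cons (.leaf 1 [(4,2),(11,1)]) (.cons (.leaf 1 [(4,3),(0,1),(11,1)]) (.cons (.leaf 1 [(11,1),(10,1),(2,1)]) (.cons (.leaf 1 [(10,1),(11,1)]) (.cons (.leaf 1 [(10,2),(0,1),(11,1)]) .nil)))))))))))))) .nil)))))))))))))) (.cons (.leaf 1 [(1,1)]) (.cons (.leaf 1 [(11,1),(4,1)]) (.cons (.leaf 1 [(11,1),(1,1),(9,1)]) (.cons (.leaf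 1 [(1,1)]) (.cons (.leaf 1 [(11,1)]) (.cons (.leaf 1 [(11,1),(1,1),(10,1)]) .nil)))))))))))))) (.cons (.keep [3,5,7,8,10] (.node (.cons (.leaf 1 [(9,1)]) (.cons (.leaf 1 [(12,1),(4,1),(9,1)]) (.cons (.keep [0,9,10,11,12] (.node (.cons (.leaf 1 []) (.cons (.leaf 1 [(9,1),(4,2)]) (.cons (.leaf 1 [(4,1),(9,1),(12,1)]) (.cons (.leaf 1 [(1,1)]) (.cons (.leaf 1 [(1,1),(4,1)]) (.cons (.leaf 1 [(1,1),(12,1)]) (.cons (.leaf 1 [(1,1)]) (.cons (.leaf 1 [(1,1),(4,1),(10,1)]) (.cons (.leaf 2 [(10,1),(4,1),(9,1),(12,2)]) (.cons (.leaf 1 [(1,1)]) (.cons (.keep [7,8,9,10,11] (.node (.cons (.leaf 1 [(2,1)]) (.cons (.leaf 1 [(4,1)]) (.cons (.leaf 1 [(10,1),(3,1)]) (.cons (.leaf 1 []) (.cons (.leaf 1 [(4,1)]) (.cons (.leaf 1 [(3,1),(10,1),(0,1)]) (.cons (.leaf 1 [(2,1)]) (.cons (.leaf 1 [(4,1)]) (.cons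 (.leaf 1 [(10,1),(0,1)]) (.cons (.leaf 1 [(2,1)]) (.cons (.leaf 1 []) (.cons (.leaf 1 [(10,1),(3,1),(0,1)]) .nil)))))))))))))) (.cons (.keep [8,9,10,11,12] (.node (.cons (.leaf 1 [(9,1),(4,1)]) (.cons (.leaf 1 [(9,1),(4,1)]) (.cons (.leaf 1 [(9,1),(4,1)]) (.cons (.leaf 1 [(4,1),(9,1),(10,1)]) (.cons (.leaf 1 [(9,1),(10,1)]) (.cons (.leaf 1 [(9,1),(5,1),(4,1),(10,1)]) (.cons (.leaf 1 [(2,1),(4,1)]) (.cons (.leaf 1 [(4,2)]) (.cons (.leaf 1 [(9,1),(4,2),(0,1)]) (.cons (.leaf 1 [(10,1),(6,2),(9,1)]) (.cons (.leaf 1 [(12,1)]) (.cons (.leaf 1 [(12,1),(9,1),(0,1)]) .nil)))))))))))))) .nil)))))))))))))) (.cons (.leaf 1 [(1,1),(9,1)]) (.cons (.leaf 1 [(1,1),(4,1),(9,1)]) (.cons (.keep [0,1,9,10,11] (.node (.cons (.leaf 1 []) (.cons (.leaf 1 [(10,1),(4,3)]) (.cons (.leaf 1 [(4,1),(10,1),(9,2)])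 (.cons (.leaf 1 [(1,1)]) (.cons (.leaf 1 [(1,1),(4,1)]) (.cons (.leaf 1 [(1,1),(9,1)]) (.cons (.leaf 1 [(1,1)]) (.cons (.leaf 1 [(1,1),(4,1),(11,1)]) (.cons (.leaf 1 [(1,1),(9,1),(11,1)]) (.cons (.leaf 1 [(1,1)]) (.cons (.keep [7,8,10,11,12] (.node (.cons (.leaf 1 [(2,1)]) (.cons (.leaf 1 [(4,1)]) (.cons (.leaf 1 [(10,1),(3,1)]) (.cons (.leaf 1 []) (.cons (.leaf 1 [(4,1)]) (.cons (.leaf 1 [(3,1),(10,1),(0,1)]) (.cons (.leaf 1 [(2,1)]) (.cons (.leaf 1 [(4,1)]) (.cons (.leaf 1 [(10,1),(0,1)]) (.cons (.leaf 1 [(2,1)]) (.cons (.leaf 1 []) (.cons (.leaf 1 [(10,1),(3,1),(0,1)]) .nil)))))))))))))) (.cons (.keep [8,9,10,11,12] (.node (.cons (.leaf 1 [(2,1),(9,1)]) (.cons (.leaf 1 [(9,1),(4,1)]) (.cons (.leaf 1 [(10,1),(9,2),(3,1)]) (.cons (.leaf 1 [(9,1)]) (.cons (.leaf 1 [(4,1),(9,1)])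 (.cons (.leaf 1 [(3,1),(10,1),(9,3),(0,1)]) (.cons (.leaf 1 [(2,1),(4,1)]) (.cons (.leaf 1 [(4,2)]) (.cons (.leaf 1 [(10,1),(4,3),(0,1)]) (.cons (.leaf 1 [(9,1),(2,1)]) (.cons (.leaf 1 [(9,1)]) (.cons (.leaf 1 [(9,2),(10,1),(0,1)]) .nil)))))))))))))) .nil)))))))))))))) (.cons (.leaf 1 [(9,1),(1,1)]) (.cons (.leaf 1 [(12,1),(1,1)]) (.cons (.leaf 1 [(12,1),(1,1)]) (.cons (.leaf 1 [(9,1),(1,1)]) (.cons (.leaf 1 [(12,1),(9,1)]) (.cons (.leaf 1 [(12,1),(10,1),(1,1)]) .nil)))))))))))))) (.cons (.keep [3,5,6,8,10] (.leaf 0 [(0,0)])) (.cons (.leaf 1 [(10,1)]) (.cons (.leaf 1 [(5,1),(10,1)]) (.cons (.leaf 1 [(5,1),(10,1)]) (.cons (.keep [1,6,7,8,12] (.node (.cons (.leaf 1 [(2,1)]) (.cons (.leaf 1 [(4,1)]) (.cons (.keep [2,8,9,10,11] (.node (.cons (.leaf 1 [(4,1)]) (.cons (.leaf 1 [(4,1)])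 (.cons (.leaf 1 [(4,1)]) (.cons (.leaf 2 [(4,1),(10,1)]) (.cons (.leaf 2 [(4,1),(10,1)]) (.cons (.leaf 2 [(4,1),(10,1)]) (.cons (.leaf 2 [(6,1),(10,1)]) (.cons (.leaf 2 [(4,1),(11,1)]) (.cons (.leaf 2 [(4,1),(11,1)]) (.cons (.leaf 2 [(6,1),(10,1)]) (.cons (.keep [0,1,10,11] (.node (.cons (.leaf 1 [(3,1)]) (.cons (.leaf 1 [(3,1)]) (.cons (.leaf 1 [(3,1)]) (.cons (.leaf 1 [(10,1)]) (.cons (.leaf 1 [(4,1),(10,1)]) (.cons (.leaf 1 [(3,1),(0,1),(10,1)]) (.cons (.leaf 1 [(10,1),(2,1)]) (.cons (.leaf 1 [(4,1),(10,1)]) (.cons (.leaf 1 [(0,1),(10,1)]) (.cons (.leaf 1 [(10,1),(2,1)]) (.cons (.leaf 1 [(10,1)]) (.cons (.leaf 1 [(0,1),(3,1),(10,1)]) .nil)))))))))))))) (.cons (.keep [0,1,6,10,11] (.node (.cons (.leaf 1 [(3,1)]) (.cons (.leaf 1 [(3,1)]) (.cons (.leaf 1 [(3,1)]) (.cons (.leaf 1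 [(11,1)]) (.cons (.leaf 1 [(4,1),(11,1)]) (.cons (.leaf 1 [(3,1),(0,1),(11,1)]) (.cons (.leaf 1 [(11,1),(2,1)]) (.cons (.leaf 1 [(4,1),(11,1)]) (.cons (.leaf 1 [(0,1),(11,1)]) (.cons (.leaf 1 [(11,1),(2,1)]) (.cons (.leaf 1 [(11,1)]) (.cons (.leaf 1 [(0,1),(3,1),(11,1)]) .nil)))))))))))))) .nil)))))))))))))) (.cons (.leaf 1 []) (.cons (.leaf 1 [(4,1)]) (.cons (.keep [0,1,5,9,10] (.node (.cons (.leaf 1 [(2,1),(4,1)]) (.cons (.leaf 1 [(4,2)]) (.cons (.leaf 1 [(4,1),(9,1)]) (.cons (.leaf 2 [(4,1),(11,1)]) (.cons (.leaf 2 [(4,2),(11,1)]) (.cons (.leaf 1 [(1,1),(11,1)]) (.cons (.leaf 2 [(11,1),(4,1)]) (.cons (.leaf 2 [(4,2),(12,1)]) (.cons (.leaf 1 [(1,1),(12,1)]) (.cons (.leaf 2 [(11,1)]) (.cons (.keep [0,1,11,12] (.node (.cons (.leaf 1 [(3,1)]) (.cons (.leaf 1 [(3,1)]) (.cons (.leaf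 1 [(3,1)]) (.cons (.leaf 1 [(10,1)]) (.cons (.leaf 1 [(4,1),(10,1)]) (.cons (.leaf 1 [(3,1),(0,1),(10,1)]) (.cons (.leaf 1 [(10,1),(2,1)]) (.cons (.leaf 1 [(4,1),(10,1)]) (.cons (.leaf 1 [(0,1),(10,1)]) (.cons (.leaf 1 [(10,1),(2,1)]) (.cons (.leaf 1 [(10,1)]) (.cons (.leaf 1 [(0,1),(3,1),(10,1)]) .nil)))))))))))))) (.cons (.keep [6,9,10,11,12] (.node (.cons (.leaf 1 [(4,1)]) (.cons (.leaf 1 [(4,1)]) (.cons (.leaf 1 [(4,1)]) (.cons (.leaf 1 [(11,1)]) (.cons (.leaf 1 [(4,1),(11,1)]) (.cons (.leaf 1 [(4,1),(0,1),(11,1)]) (.cons (.leaf 1 [(11,1),(2,1)]) (.cons (.leaf 1 [(4,1),(11,1)]) (.cons (.leaf 1 [(4,1),(0,1),(11,1)]) (.cons (.leaf 1 [(11,1),(2,1)]) (.cons (.leaf 1 [(11,1)]) (.cons (.leaf 1 [(0,1),(11,1)]) .nil)))))))))))))) .nil)))))))))))))) (.cons (.leaf 1 [(2,1)]) (.cons (.leaf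 1 [(4,1)]) (.cons (.leaf 1 [(1,1),(9,1)]) (.cons (.leaf 1 [(2,1)]) (.cons (.leaf 1 []) (.cons (.leaf 1 [(1,1),(10,1)]) .nil)))))))))))))) (.cons (.keep [1,5,7,9,12] (.node (.cons (.leaf 1 [(9,1),(2,1)]) (.cons (.leaf 1 [(4,1),(9,1)]) (.cons (.keep [0,2,8,9,10,11] (.node (.cons (.leaf 1 [(9,1)]) (.cons (.leaf 1 [(4,1),(11,1)]) (.cons (.leaf 1 [(4,1),(11,1)]) (.cons (.leaf 1 [(1,1)]) (.cons (.leaf 1 [(1,1)]) (.cons (.leaf 1 [(1,1)]) (.cons (.leaf 1 [(9,1),(1,1)]) (.cons (.leaf 1 [(1,1),(12,1)]) (.cons (.leaf 2 [(12,1),(4,1),(11,1)]) (.cons (.leaf 1 [(6,1),(1,1)]) (.cons (.keep [7,8,11,12,13] (.node (.cons (.leaf 1 [(2,1)]) (.cons (.leaf 1 [(4,1)]) (.cons (.leaf 1 [(10,1),(3,1)]) (.cons (.leaf 1 []) (.cons (.leaf 1 [(4,1)]) (.cons (.leaf 1 [(3,1),(10,1),(0,1)]) (.cons (.leaf 1 [(2,1)])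 (.cons (.leaf 1 [(4,1)]) (.cons (.leaf 1 [(10,1),(0,1)]) (.cons (.leaf 1 [(2,1)]) (.cons (.leaf 1 []) (.cons (.leaf 1 [(10,1),(3,1),(0,1)]) .nil)))))))))))))) (.cons (.keep [6,8,10,11,12,13] (.node (.cons (.leaf 1 [(2,1)]) (.cons (.leaf 1 [(4,1)]) (.cons (.leaf 1 [(11,1),(3,1)]) (.cons (.leaf 1 []) (.cons (.leaf 1 [(4,1)]) (.cons (.leaf 1 [(3,1),(11,1),(0,1)]) (.cons (.leaf 1 [(2,1)]) (.cons (.leaf 1 [(4,1)]) (.cons (.leaf 1 [(11,1),(0,1)]) (.cons (.leaf 1 [(2,1)]) (.cons (.leaf 1 []) (.cons (.leaf 1 [(11,1),(3,1),(0,1)]) .nil)))))))))))))) .nil)))))))))))))) (.cons (.leaf 1 [(9,1)]) (.cons (.leaf 1 [(4,1),(9,1)]) (.cons (.keep [0,1,9,10,11] (.node (.cons (.leaf 2 [(4,1),(10,1)]) (.cons (.leaf 1 [(4,2),(10,1)]) (.cons (.leaf 1 [(9,1),(10,1),(4,1)]) (.cons (.leaf 1 [(1,1)]) (.cons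 (.leaf 1 [(1,1)]) (.cons (.leaf 1 [(1,1)]) (.cons (.leaf 2 [(4,1),(10,1)]) (.cons (.leaf 2 [(11,1),(4,2),(10,1)]) (.cons (.leaf 2 [(11,1),(9,1),(10,1),(4,1)]) (.cons (.leaf 1 [(6,1),(1,1)]) (.cons (.keep [7,8,10,11,12] (.node (.cons (.leaf 1 [(2,1)]) (.cons (.leaf 1 [(4,1)]) (.cons (.leaf 1 [(10,1),(3,1)]) (.cons (.leaf 1 []) (.cons (.leaf 1 [(4,1)]) (.cons (.leaf 1 [(3,1),(10,1),(0,1)]) (.cons (.leaf 1 [(2,1)]) (.cons (.leaf 1 [(4,1)]) (.cons (.leaf 1 [(10,1),(0,1)]) (.cons (.leaf 1 [(2,1)]) (.cons (.leaf 1 []) (.cons (.leaf 1 [(10,1),(3,1),(0,1)]) .nil)))))))))))))) (.cons (.keep [8,9,10,11,12] (.node (.cons (.leaf 1 [(2,1)]) (.cons (.leaf 1 [(4,1)]) (.cons (.leaf 1 [(10,1),(4,1)]) (.cons (.leaf 1 []) (.cons (.leaf 1 [(4,1)]) (.cons (.leaf 1 [(4,1),(10,1),(0,1)]) (.cons (.leaf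 1 [(2,1)]) (.cons (.leaf 1 [(4,1)]) (.cons (.leaf 1 [(4,1),(10,1),(0,1)]) (.cons (.leaf 1 [(2,1)]) (.cons (.leaf 1 []) (.cons (.leaf 1 [(10,1),(0,1)]) .nil)))))))))))))) .nil)))))))))))))) (.cons (.leaf 1 [(1,1)]) (.cons (.leaf 1 [(1,1)]) (.cons (.leaf 1 [(1,1)]) (.cons (.leaf 1 [(9,1),(2,1)]) (.cons (.leaf 1 [(9,1)]) (.cons (.leaf 1 [(10,1),(1,1)]) .nil)))))))))))))) (.cons (.keep [0,1,5,6,12] (.node (.cons (.leaf 1 [(10,1),(2,1)]) (.cons (.leaf 1 [(9,1),(5,1)]) (.cons (.keep [0,2,6,9,10,11] (.node (.cons (.leaf 1 [(4,1),(12,1)]) (.cons (.leaf 1 [(4,1),(12,1)]) (.cons (.leaf 1 [(4,1),(12,1)]) (.cons (.leaf 2 [(4,1),(13,1),(12,1)]) (.cons (.leaf 1 [(1,1),(13,1)]) (.cons (.leaf 2 [(4,1),(13,1),(12,1)]) (.cons (.leaf 1 [(1,1)]) (.cons (.leaf 1 [(1,1)]) (.cons (.leaf 1 [(1,1)]) (.cons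 (.leaf 2 [(6,1),(13,1),(12,1)]) (.cons (.keep [3,7,8,12,13] (.node (.cons (.leaf 1 [(3,1),(11,1)]) (.cons (.leaf 1 [(3,1),(11,1)]) (.cons (.leaf 1 [(3,1),(11,1)]) (.cons (.leaf 1 [(1,1)]) (.cons (.leaf 1 [(1,1)]) (.cons (.leaf 1 [(1,1)]) (.cons (.leaf 3 [(12,1),(11,1)]) (.cons (.leaf 1 [(4,1),(12,1)]) (.cons (.leaf 1 [(0,1),(11,1),(12,1)]) (.cons (.leaf 1 [(6,1),(1,1)]) (.cons (.leaf 1 [(12,1)]) (.cons (.leaf 1 [(3,1),(0,1),(11,1),(12,1)]) .nil)))))))))))))) (.cons (.keep [3,6,8,11,12,13] (.node (.cons (.leaf 1 [(3,1),(12,1)]) (.cons (.leaf 1 [(3,1),(12,1)]) (.cons (.leaf 1 [(3,1),(12,1)]) (.cons (.leaf 1 [(1,1)]) (.cons (.leaf 1 [(1,1)]) (.cons (.leaf 1 [(1,1)]) (.cons (.leaf 1 [(6,1),(1,1),(9,1)]) (.cons (.leaf 1 [(4,1),(13,1)]) (.cons (.leaf 1 [(0,1),(12,1),(13,1)]) (.cons (.leaf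 1 [(6,1),(1,1)]) (.cons (.leaf 1 [(13,1)]) (.cons (.leaf 1 [(3,1),(0,1),(12,1),(13,1)]) .nil)))))))))))))) .nil)))))))))))))) (.cons (.leaf 1 [(10,1)]) (.cons (.leaf 1 [(1,1),(5,1)]) (.cons (.keep [0,1,8,10,11] (.node (.cons (.leaf 1 [(11,1),(4,1),(2,1)]) (.cons (.leaf 1 [(4,2),(11,1)]) (.cons (.leaf 1 [(9,1),(11,1),(4,1)]) (.cons (.leaf 2 [(4,1),(12,1),(11,1)]) (.cons (.leaf 1 [(1,1),(12,1)]) (.cons (.leaf 2 [(4,1),(12,1),(9,1),(11,1)]) (.cons (.leaf 1 [(1,1)]) (.cons (.leaf 1 [(1,1)]) (.cons (.leaf 1 [(1,1)]) (.cons (.leaf 2 [(12,1),(11,1)]) (.cons (.keep [7,8,10,11,12] (.node (.cons (.leaf 1 [(3,1),(11,1)]) (.cons (.leaf 1 [(3,1),(11,1)]) (.cons (.leaf 1 [(3,1),(11,1)]) (.cons (.leaf 1 [(1,1)]) (.cons (.leaf 1 [(1,1)]) (.cons (.leaf 1 [(1,1)]) (.cons (.leaf 3 [(12,1),(11,1)])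 (.cons (.leaf 1 [(4,1),(12,1)]) (.cons (.leaf 1 [(0,1),(11,1),(12,1)]) (.cons (.leaf 1 [(6,1),(1,1)]) (.cons (.leaf 1 [(12,1)]) (.cons (.leaf 1 [(3,1),(0,1),(11,1),(12,1)]) .nil)))))))))))))) (.cons (.keep [8,9,10,11,12] (.node (.cons (.leaf 1 [(4,1),(11,1)]) (.cons (.leaf 1 [(4,1),(11,1)]) (.cons (.leaf 1 [(4,1),(11,1)]) (.cons (.leaf 1 [(1,1)]) (.cons (.leaf 1 [(1,1)]) (.cons (.leaf 1 [(1,1)]) (.cons (.leaf 2 [(6,1),(11,1)]) (.cons (.leaf 1 [(12,1),(4,1)]) (.cons (.leaf 1 [(0,1),(4,1),(11,1),(12,1)]) (.cons (.leaf 1 [(6,1),(1,1)]) (.cons (.leaf 1 [(12,1)]) (.cons (.leaf 1 [(0,1),(11,1),(12,1)]) .nil)))))))))))))) .nil)))))))))))))) (.cons (.leaf 1 [(10,1),(2,1)]) (.cons (.leaf 1 [(9,1),(5,1)]) (.cons (.leaf 1 [(1,1),(11,1)]) (.cons (.leaf 1 [(1,1)]) (.cons (.leaf 1 [(1,1)]) (.cons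 (.leaf 1 [(1,1)]) .nil)))))))))))))) (.cons (.leaf 1 [(6,1),(10,1)]) (.cons (.leaf 1 [(10,1)]) (.cons (.leaf 1 [(10,1),(6,1)]) .nil)))))))))))))

theorem c_15_26_3 : Concl 15 26 z_15_26_3 h_15_26_3 .nd := piece _ (hP_cons c_15_26_2 hP_nil)
  t_15_26_3 _ _ (by decide +kernel)

def z_15_26_4 : F := ⟨0, 1, -1, 0, 1⟩

def h_15_26_4 : List F := [⟨0, 1, 0, 0, 0⟩, ⟨-1, 0, 1, 0, 0⟩, ⟨0, 0, 1, -1, 0⟩, ⟨0, 0, -1, 0, 1⟩]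

def t_15_26_4 : T := (.node (.cons (.leaf 1 [(2,2),(9,1)]) (.cons (.leaf 1 [(2,1),(4,1),(9,1)]) (.cons (.keep [0,2,5,9,10] (.node (.cons (.leaf 1 [(9,2)]) (.cons (.leaf 1 [(11,1)]) (.cons (.leaf 1 [(4,1),(11,1),(9,1)]) (.cons (.leaf 1 [(1,1)]) (.cons (.leaf 1 [(1,1),(5,1)]) (.cons (.leaf 1 [(1,1),(5,1)]) (.cons (.leaf 1 [(1,1),(9,2)]) (.cons (.leaf 2 [(12,1),(9,1),(11,1)]) (.cons (.leaf 2 [(12,1),(9,2),(11,1),(4,1)]) (.cons (.leaf 1 [(1,1),(6,2)]) (.cons (.keep [2,7,8,11,12] (.node (.cons (.leaf 1 [(2,1)]) (.cons (.leaf 1 [(4,1)]) (.cons (.leaf 1 [(11,1),(3,1)]) (.cons (.leaf 1 []) (.cons (.leaf 1 [(4,1)]) (.cons (.leaf 1 [(3,1),(11,1),(0,1)]) (.cons (.leaf 1 [(2,1)]) (.cons (.leaf 1 [(4,1)]) (.cons (.leaf 1 [(11,1),(0,1)]) (.cons (.leaf 1 [(2,1)]) (.cons (.leaf 1 []) (.cons (.leaf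 1 [(11,1),(3,1),(0,1)]) .nil)))))))))))))) (.cons (.keep [6,8,10,11,12] (.node (.cons (.leaf 1 [(2,1),(8,1)]) (.cons (.leaf 1 [(3,1)]) (.cons (.leaf 1 [(8,1),(11,1),(3,1)]) (.cons (.leaf 1 [(8,1)]) (.cons (.leaf 1 [(3,1)]) (.cons (.leaf 1 [(3,1),(8,2),(11,1),(0,1)]) (.cons (.leaf 1 [(8,1),(2,1)]) (.cons (.leaf 1 []) (.cons (.leaf 1 [(11,1),(8,2),(0,1)]) (.cons (.leaf 1 [(2,1),(3,1)]) (.cons (.leaf 1 [(3,1)]) (.cons (.leaf 1 [(3,3),(11,1),(0,1)]) .nil)))))))))))))) .nil)))))))))))))) (.cons (.keep [3,7,9,10,11] (.node (.cons (.leaf 1 [(10,2)]) (.cons (.leaf 1 [(10,2),(5,1)]) (.cons (.leaf 1 [(10,2),(5,1)]) (.cons (.leaf 1 [(1,1)]) (.cons (.leaf 1 [(1,1),(5,1)]) (.cons (.leaf 1 [(1,1),(5,1)]) (.cons (.leaf 1 [(10,1),(11,1)]) (.cons (.leaf 1 [(10,1),(11,1),(5,1)]) (.cons (.leaf 1 [(10,1),(11,1),(5,1)])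 (.cons (.leaf 1 [(1,1),(6,2)]) (.cons (.leaf 1 [(10,1)]) (.cons (.leaf 1 [(10,1),(6,1)]) .nil)))))))))))))) (.cons (.leaf 1 [(10,1),(5,1)]) (.cons (.keep [0,1,9,10,11] (.node (.cons (.leaf 1 [(4,1),(10,1)]) (.cons (.leaf 1 [(4,1),(10,1)]) (.cons (.leaf 1 [(4,1),(10,1)]) (.cons (.leaf 1 [(1,1)]) (.cons (.leaf 1 [(1,1),(5,1)]) (.cons (.leaf 1 [(1,1),(5,1)]) (.cons (.leaf 2 [(6,1),(11,1),(10,1)]) (.cons (.leaf 2 [(11,1),(10,1)]) (.cons (.leaf 2 [(11,1),(10,1),(6,1)]) (.cons (.leaf 1 [(1,1),(6,2)]) (.cons (.keep [7,8,10,11,12] (.node (.cons (.leaf 1 [(2,1)]) (.cons (.leaf 1 [(4,1)]) (.cons (.leaf 1 [(10,1),(3,1)]) (.cons (.leaf 1 []) (.cons (.leaf 1 [(4,1)]) (.cons (.leaf 1 [(3,1),(10,1),(0,1)]) (.cons (.leaf 1 [(2,1)]) (.cons (.leaf 1 [(4,1)]) (.cons (.leaf 1 [(10,1),(0,1)]) (.cons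 (.leaf 1 [(2,1)]) (.cons (.leaf 1 []) (.cons (.leaf 1 [(10,1),(3,1),(0,1)]) .nil)))))))))))))) (.cons (.keep [6,8,9,10,11,12] (.node (.cons (.leaf 1 [(2,1),(8,1)]) (.cons (.leaf 1 [(3,1)]) (.cons (.leaf 1 [(3,1),(11,1)]) (.cons (.leaf 1 [(8,1)]) (.cons (.leaf 1 [(3,1)]) (.cons (.leaf 1 [(3,1),(8,1),(11,1),(0,1)]) (.cons (.leaf 1 [(8,1),(2,1)]) (.cons (.leaf 1 []) (.cons (.leaf 1 [(11,1),(8,1),(0,1)]) (.cons (.leaf 1 [(2,1),(3,1)]) (.cons (.leaf 1 [(3,1)]) (.cons (.leaf 1 [(3,2),(11,1),(0,1)]) .nil)))))))))))))) .nil)))))))))))))) (.cons (.leaf 1 [(2,1)]) (.cons (.leaf 1 [(2,1)]) (.cons (.leaf 1 [(2,1)]) (.cons (.leaf 1 [(10,1),(2,1)]) (.cons (.leaf 1 [(10,1),(2,1)]) (.cons (.leaf 1 [(10,1),(2,1)]) .nil)))))))))))))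

theorem c_15_26_4 : Concl 15 26 z_15_26_4 h_15_26_4 .nd := piece _ hP_nil t_15_26_4 _ _ (by
  decide +kernel)

def t_15_26 : T := (.keep [0,1,2] (.node (.cons (.keep [2,3,6,7] (.node (.cons (.leaf 1 [(2,1)]) (.cons (.leaf 1 [(4,1)]) (.cons (.keep [2,8,10,11] (.node (.cons (.leaf 1 [(4,1)]) (.cons (.leaf 1 [(4,1)]) (.cons (.leaf 1 [(4,1)]) (.cons (.leaf 2 [(4,1),(10,1)]) (.cons (.leaf 2 [(4,1),(10,1)]) (.cons (.leaf 2 [(4,1),(10,1)]) (.cons (.leaf 2 [(6,1),(10,1)]) (.cons (.leaf 2 [(4,1),(11,1)]) (.cons (.leaf 2 [(4,1),(11,1)]) (.cons (.leaf 2 [(6,1),(10,1)]) (.cons (.keep [0,1,10,11] (.node (.cons (.leaf 1 [(3,1)]) (.cons (.leaf 1 [(3,1)]) (.cons (.leaf 1 [(3,1)]) (.cons (.leaf 1 [(10,1)]) (.cons (.leaf 1 [(4,1),(10,1)]) (.cons (.leaf 1 [(3,1),(0,1),(10,1)]) (.cons (.leaf 1 [(10,1),(2,1)])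 (.cons (.leaf 1 [(4,1),(10,1)]) (.cons (.leaf 1 [(0,1),(10,1)]) (.cons (.leaf 1 [(10,1),(2,1)]) (.cons (.leaf 1 [(10,1)]) (.cons (.leaf 1 [(0,1),(3,1),(10,1)]) .nil)))))))))))))) (.cons (.keep [0,1,6,10,11] (.node (.cons (.leaf 1 [(3,1)]) (.cons (.leaf 1 [(3,1)]) (.cons (.leaf 1 [(3,1)]) (.cons (.leaf 1 [(11,1)]) (.cons (.leaf 1 [(4,1),(11,1)]) (.cons (.leaf 1 [(3,1),(0,1),(11,1)]) (.cons (.leaf 1 [(11,1),(2,1)]) (.cons (.leaf 1 [(4,1),(11,1)]) (.cons (.leaf 1 [(0,1),(11,1)]) (.cons (.leaf 1 [(11,1),(2,1)]) (.cons (.leaf 1 [(11,1)]) (.cons (.leaf 1 [(0,1),(3,1),(11,1)]) .nil)))))))))))))) .nil)))))))))))))) (.cons (.leaf 1 []) (.cons (.leaf 1 [(4,1)]) (.cons (.keep [0,1,5,10,11] (.node (.cons (.leaf 1 [(2,1),(4,1)]) (.cons (.leaf 1 [(4,2)]) (.cons (.leaf 1 [(4,1),(9,1)]) (.cons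 (.leaf 2 [(4,1),(11,1)]) (.cons (.leaf 2 [(4,2),(11,1)]) (.cons (.leaf 1 [(1,1),(11,1)]) (.cons (.leaf 2 [(11,1),(4,1)]) (.cons (.leaf 2 [(4,2),(12,1)]) (.cons (.leaf 1 [(1,1),(12,1)]) (.cons (.leaf 2 [(11,1)]) (.cons (.keep [0,1,11,12] (.node (.cons (.leaf 1 [(3,1)]) (.cons (.leaf 1 [(3,1)]) (.cons (.leaf 1 [(3,1)]) (.cons (.leaf 1 [(10,1)]) (.cons (.leaf 1 [(4,1),(10,1)]) (.cons (.leaf 1 [(3,1),(0,1),(10,1)]) (.cons (.leaf 1 [(10,1),(2,1)]) (.cons (.leaf 1 [(4,1),(10,1)]) (.cons (.leaf 1 [(0,1),(10,1)]) (.cons (.leaf 1 [(10,1),(2,1)]) (.cons (.leaf 1 [(10,1)]) (.cons (.leaf 1 [(0,1),(3,1),(10,1)]) .nil)))))))))))))) (.cons (.keep [6,9,10,11,12] (.node (.cons (.leaf 1 [(4,1)]) (.cons (.leaf 1 [(4,1)]) (.cons (.leaf 1 [(4,1)]) (.cons (.leaf 1 [(11,1)]) (.cons (.leaf 1 [(4,1),(11,1)])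 (.cons (.leaf 1 [(4,1),(0,1),(11,1)]) (.cons (.leaf 1 [(11,1),(2,1)]) (.cons (.leaf 1 [(4,1),(11,1)]) (.cons (.leaf 1 [(4,1),(0,1),(11,1)]) (.cons (.leaf 1 [(11,1),(2,1)]) (.cons (.leaf 1 [(11,1)]) (.cons (.leaf 1 [(0,1),(11,1)]) .nil)))))))))))))) .nil)))))))))))))) (.cons (.leaf 1 [(2,1)]) (.cons (.leaf 1 [(4,1)]) (.cons (.leaf 1 [(1,1),(10,1)]) (.cons (.leaf 1 [(2,1)]) (.cons (.leaf 1 []) (.cons (.leaf 1 [(1,1),(11,1)]) .nil)))))))))))))) (.cons (.keep [3,4,5,7] (.node (.cons (.leaf 1 [(10,1),(2,1)]) (.cons (.leaf 1 [(4,1),(10,1)]) (.cons (.keep [0,2,3,10,11] (.node (.cons (.leaf 1 [(9,1)]) (.cons (.leaf 1 [(4,1),(11,1)]) (.cons (.leaf 1 [(4,1),(11,1)]) (.cons (.leaf 1 [(1,1)]) (.cons (.leaf 1 [(1,1)]) (.cons (.leaf 1 [(1,1)]) (.cons (.leaf 1 [(9,1),(1,1)]) (.cons (.leaf 1 [(1,1),(12,1)])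 (.cons (.leaf 2 [(12,1),(4,1),(11,1)]) (.cons (.leaf 1 [(6,1),(1,1)]) (.cons (.keep [7,8,10,11,12] (.node (.cons (.leaf 1 [(2,1)]) (.cons (.leaf 1 [(4,1)]) (.cons (.leaf 1 [(11,1),(3,1)]) (.cons (.leaf 1 []) (.cons (.leaf 1 [(4,1)]) (.cons (.leaf 1 [(3,1),(11,1),(0,1)]) (.cons (.leaf 1 [(2,1)]) (.cons (.leaf 1 [(4,1)]) (.cons (.leaf 1 [(11,1),(0,1)]) (.cons (.leaf 1 [(2,1)]) (.cons (.leaf 1 []) (.cons (.leaf 1 [(11,1),(3,1),(0,1)]) .nil)))))))))))))) (.cons (.keep [0,6,10,11,12] (.node (.cons (.leaf 1 [(2,1)]) (.cons (.leaf 1 [(4,1)]) (.cons (.leaf 1 [(11,1),(3,1)]) (.cons (.leaf 1 []) (.cons (.leaf 1 [(4,1)]) (.cons (.leaf 1 [(3,1),(11,1),(0,1)]) (.cons (.leaf 1 [(2,1)]) (.cons (.leaf 1 [(4,1)]) (.cons (.leaf 1 [(11,1),(0,1)]) (.cons (.leaf 1 [(2,1)]) (.cons (.leaf 1 []) (.cons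 (.leaf 1 [(11,1),(3,1),(0,1)]) .nil)))))))))))))) .nil)))))))))))))) (.cons (.leaf 1 [(10,1)]) (.cons (.leaf 1 [(4,1),(10,1)]) (.cons (.keep [0,1,9,10,11] (.node (.cons (.leaf 2 [(4,1),(11,1)]) (.cons (.leaf 1 [(4,2),(11,1)]) (.cons (.leaf 1 [(9,1),(11,1),(4,1)]) (.cons (.leaf 1 [(1,1)]) (.cons (.leaf 1 [(1,1)]) (.cons (.leaf 1 [(1,1)]) (.cons (.leaf 2 [(4,1),(11,1)]) (.cons (.leaf 2 [(12,1),(4,2),(11,1)]) (.cons (.leaf 2 [(12,1),(9,1),(11,1),(4,1)]) (.cons (.leaf 1 [(6,1),(1,1)]) (.cons (.keep [7,8,10,11,12] (.node (.cons (.leaf 1 [(2,1)]) (.cons (.leaf 1 [(4,1)]) (.cons (.leaf 1 [(11,1),(3,1)]) (.cons (.leaf 1 []) (.cons (.leaf 1 [(4,1)]) (.cons (.leaf 1 [(3,1),(11,1),(0,1)]) (.cons (.leaf 1 [(2,1)]) (.cons (.leaf 1 [(4,1)]) (.cons (.leaf 1 [(11,1),(0,1)]) (.cons (.leaf 1 [(2,1)])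 (.cons (.leaf 1 []) (.cons (.leaf 1 [(11,1),(3,1),(0,1)]) .nil)))))))))))))) (.cons (.keep [8,9,10,11,12] (.node (.cons (.leaf 1 [(2,1)]) (.cons (.leaf 1 [(4,1)]) (.cons (.leaf 1 [(11,1),(4,1)]) (.cons (.leaf 1 []) (.cons (.leaf 1 [(4,1)]) (.cons (.leaf 1 [(4,1),(11,1),(0,1)]) (.cons (.leaf 1 [(2,1)]) (.cons (.leaf 1 [(4,1)]) (.cons (.leaf 1 [(4,1),(11,1),(0,1)]) (.cons (.leaf 1 [(2,1)]) (.cons (.leaf 1 []) (.cons (.leaf 1 [(11,1),(0,1)]) .nil)))))))))))))) .nil)))))))))))))) (.cons (.leaf 1 [(1,1)]) (.cons (.leaf 1 [(1,1)]) (.cons (.leaf 1 [(1,1)]) (.cons (.leaf 1 [(10,1),(2,1)]) (.cons (.leaf 1 [(10,1)]) (.cons (.leaf 1 [(11,1),(1,1)]) .nil)))))))))))))) (.cons (.keep [0,3,5,6] (.node (.cons (.leaf 1 [(10,1),(2,1)]) (.cons (.leaf 2 [(10,1)]) (.cons (.keep [0,2,6,10,11] (.node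 (.cons (.leaf 1 [(4,1),(11,1)]) (.cons (.leaf 1 [(4,1),(11,1)]) (.cons (.leaf 1 [(4,1),(11,1)]) (.cons (.leaf 2 [(4,1),(12,1),(11,1)]) (.cons (.leaf 1 [(1,1),(12,1)]) (.cons (.leaf 2 [(4,1),(12,1),(11,1)]) (.cons (.leaf 1 [(1,1)]) (.cons (.leaf 1 [(1,1)]) (.cons (.leaf 1 [(1,1)]) (.cons (.leaf 2 [(6,1),(12,1),(11,1)]) (.cons (.keep [3,7,8,11,12] (.node (.cons (.leaf 1 [(3,1),(11,1)]) (.cons (.leaf 1 [(3,1),(11,1)]) (.cons (.leaf 1 [(3,1),(11,1)]) (.cons (.leaf 1 [(1,1)]) (.cons (.leaf 1 [(1,1)]) (.cons (.leaf 1 [(1,1)]) (.cons (.leaf 3 [(12,1),(11,1)]) (.cons (.leaf 1 [(4,1),(12,1)]) (.cons (.leaf 1 [(0,1),(11,1),(12,1)]) (.cons (.leaf 1 [(6,1),(1,1)]) (.cons (.leaf 1 [(12,1)]) (.cons (.leaf 1 [(3,1),(0,1),(11,1),(12,1)]) .nil)))))))))))))) (.cons (.keep [0,3,6,11,12] (.node (.cons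 (.leaf 1 [(3,1),(11,1)]) (.cons (.leaf 1 [(3,1),(11,1)]) (.cons (.leaf 1 [(3,1),(11,1)]) (.cons (.leaf 1 [(1,1)]) (.cons (.leaf 1 [(1,1)]) (.cons (.leaf 1 [(1,1)]) (.cons (.leaf 1 [(6,1),(1,1),(10,1)]) (.cons (.leaf 1 [(4,1),(12,1)]) (.cons (.leaf 1 [(0,1),(11,1),(12,1)]) (.cons (.leaf 1 [(6,1),(1,1)]) (.cons (.leaf 1 [(12,1)]) (.cons (.leaf 1 [(0,1),(11,1),(3,1),(12,1)]) .nil)))))))))))))) .nil)))))))))))))) (.cons (.leaf 1 [(10,1)]) (.cons (.leaf 1 [(1,1),(5,1)]) (.cons (.keep [0,1,8,10,11] (.node (.cons (.leaf 1 [(11,1),(4,1),(2,1)]) (.cons (.leaf 1 [(4,2),(11,1)]) (.cons (.leaf 1 [(9,1),(11,1),(4,1)]) (.cons (.leaf 2 [(4,1),(12,1),(11,1)]) (.cons (.leaf 1 [(1,1),(12,1)]) (.cons (.leaf 2 [(4,1),(12,1),(9,1),(11,1)]) (.cons (.leaf 1 [(1,1)]) (.cons (.leaf 1 [(1,1)]) (.cons (.leaf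 1 [(1,1)]) (.cons (.leaf 2 [(12,1),(11,1)]) (.cons (.keep [7,8,10,11,12] (.node (.cons (.leaf 1 [(3,1),(11,1)]) (.cons (.leaf 1 [(3,1),(11,1)]) (.cons (.leaf 1 [(3,1),(11,1)]) (.cons (.leaf 1 [(1,1)]) (.cons (.leaf 1 [(1,1)]) (.cons (.leaf 1 [(1,1)]) (.cons (.leaf 3 [(12,1),(11,1)]) (.cons (.leaf 1 [(4,1),(12,1)]) (.cons (.leaf 1 [(0,1),(11,1),(12,1)]) (.cons (.leaf 1 [(6,1),(1,1)]) (.cons (.leaf 1 [(12,1)]) (.cons (.leaf 1 [(3,1),(0,1),(11,1),(12,1)]) .nil)))))))))))))) (.cons (.keep [8,9,10,11,12] (.node (.cons (.leaf 1 [(4,1),(11,1)]) (.cons (.leaf 1 [(4,1),(11,1)]) (.cons (.leaf 1 [(4,1),(11,1)]) (.cons (.leaf 1 [(1,1)]) (.cons (.leaf 1 [(1,1)]) (.cons (.leaf 1 [(1,1)]) (.cons (.leaf 2 [(6,1),(11,1)]) (.cons (.leaf 1 [(12,1),(4,1)]) (.cons (.leaf 1 [(0,1),(4,1),(11,1),(12,1)])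 (.cons (.leaf 1 [(6,1),(1,1)]) (.cons (.leaf 1 [(12,1)]) (.cons (.leaf 1 [(0,1),(11,1),(12,1)]) .nil)))))))))))))) .nil)))))))))))))) (.cons (.leaf 1 [(10,1),(2,1)]) (.cons (.leaf 2 [(1,1),(10,1)]) (.cons (.leaf 1 [(1,1),(11,1)]) (.cons (.leaf 1 [(1,1)]) (.cons (.leaf 1 [(1,1)]) (.cons (.leaf 1 [(1,1)]) .nil)))))))))))))) (.cons (.leaf 1 []) (.cons (.leaf 1 [(5,1)]) (.cons (.leaf 1 [(5,1)]) (.cons (.keep [1,6,7,9] (.node (.cons (.leaf 1 [(2,2)]) (.cons (.leaf 1 [(2,1),(4,1)]) (.cons (.keep [0,2,9,10,11] (.node (.cons (.leaf 1 [(6,1)]) (.cons (.leaf 1 []) (.cons (.leaf 1 [(6,1)]) (.cons (.leaf 2 [(4,1),(10,1)]) (.cons (.leaf 2 [(10,1),(5,1)]) (.cons (.leaf 2 [(5,2),(10,1),(4,1)]) (.cons (.leaf 2 [(6,1),(9,2),(10,1)]) (.cons (.leaf 2 [(11,1),(9,1)]) (.cons (.leaf 2 [(11,1),(6,1),(9,1)])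 (.cons (.leaf 2 [(6,3),(10,1)]) (.cons (.keep [0,1,10,11] (.node (.cons (.leaf 1 [(3,1)]) (.cons (.leaf 1 [(3,1)]) (.cons (.leaf 1 [(3,1)]) (.cons (.leaf 1 [(10,1)]) (.cons (.leaf 1 [(4,1),(10,1)]) (.cons (.leaf 1 [(3,1),(0,1),(10,1)]) (.cons (.leaf 1 [(10,1),(2,1)]) (.cons (.leaf 1 [(4,1),(10,1)]) (.cons (.leaf 1 [(0,1),(10,1)]) (.cons (.leaf 1 [(10,1),(2,1)]) (.cons (.leaf 1 [(10,1)]) (.cons (.leaf 1 [(0,1),(3,1),(10,1)]) .nil)))))))))))))) (.cons (.keep [0,1,6,10,11] (.node (.cons (.leaf 1 [(3,1),(10,1)]) (.cons (.leaf 1 [(3,1),(10,1)]) (.cons (.leaf 1 [(3,1),(10,1)]) (.cons (.leaf 1 [(11,1),(10,1)]) (.cons (.leaf 1 [(3,1),(11,1)]) (.cons (.leaf 1 [(3,1),(0,1),(10,2),(11,1)]) (.cons (.leaf 1 [(11,1),(2,1),(10,1)]) (.cons (.leaf 1 [(11,1)]) (.cons (.leaf 1 [(0,1),(10,2),(11,1)])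 (.cons (.leaf 1 [(11,1),(2,1),(3,1)]) (.cons (.leaf 1 [(11,1),(3,1)]) (.cons (.leaf 1 [(0,1),(3,3),(11,1)]) .nil)))))))))))))) .nil)))))))))))))) (.cons (.keep [0,1,9,10] (.leaf 0 [(0,0)])) (.cons (.leaf 1 [(10,1),(5,1)]) (.cons (.keep [1,5,9,10] (.node (.cons (.leaf 1 [(4,1)]) (.cons (.leaf 1 [(4,1)]) (.cons (.leaf 1 [(4,1)]) (.cons (.leaf 2 [(4,1),(10,1)]) (.cons (.leaf 2 [(10,1)]) (.cons (.leaf 2 [(4,1),(10,1),(5,1)]) (.cons (.leaf 1 [(6,1),(10,1),(9,1)]) (.cons (.leaf 2 [(11,1)]) (.cons (.leaf 2 [(11,1),(6,1)]) (.cons (.leaf 2 [(6,2),(10,1)]) (.cons (.keep [0,1,10,11] (.node (.cons (.leaf 1 [(3,1)]) (.cons (.leaf 1 [(3,1)]) (.cons (.leaf 1 [(3,1)]) (.cons (.leaf 1 [(10,1)]) (.cons (.leaf 1 [(4,1),(10,1)]) (.cons (.leaf 1 [(3,1),(0,1),(10,1)]) (.cons (.leaf 1 [(10,1),(2,1)])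 (.cons (.leaf 1 [(4,1),(10,1)]) (.cons (.leaf 1 [(0,1),(10,1)]) (.cons (.leaf 1 [(10,1),(2,1)]) (.cons (.leaf 1 [(10,1)]) (.cons (.leaf 1 [(0,1),(3,1),(10,1)]) .nil)))))))))))))) (.cons (.keep [0,6,9,10,11] (.node (.cons (.leaf 1 [(3,1)]) (.cons (.leaf 1 [(3,1)]) (.cons (.leaf 1 [(3,1)]) (.cons (.leaf 1 [(11,1),(9,1)]) (.cons (.leaf 1 [(3,1),(11,1)]) (.cons (.leaf 1 [(3,1),(0,1),(9,1),(11,1)]) (.cons (.leaf 1 [(11,1),(2,1),(9,1)]) (.cons (.leaf 1 [(11,1)]) (.cons (.leaf 1 [(0,1),(9,1),(11,1)]) (.cons (.leaf 1 [(11,1),(2,1),(3,1)]) (.cons (.leaf 1 [(11,1),(3,1)]) (.cons (.leaf 1 [(0,1),(3,2),(11,1)]) .nil)))))))))))))) .nil)))))))))))))) (.cons (.leaf 1 [(9,1),(2,1)]) (.cons (.leaf 1 [(2,1),(9,1)]) (.cons (.leaf 1 [(2,1),(9,1)]) (.cons (.leaf 1 [(10,1),(2,1)]) (.cons (.leaf 1 [(10,1),(2,1)])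 (.cons (.leaf 1 [(2,1),(10,1)]) .nil)))))))))))))) (.cons (.keep [1,5,7,9] (.leaf 0 [(1,0)])) (.cons (.keep [1,5,6,9] (.node (.cons (.leaf 1 [(2,2),(9,1)]) (.cons (.leaf 1 [(5,1)]) (.cons (.keep [0,2,6,9,10] (.node (.cons (.leaf 1 [(9,1),(4,1),(11,1)]) (.cons (.leaf 1 [(11,1)]) (.cons (.leaf 1 [(4,1),(11,1),(9,1)]) (.cons (.leaf 2 [(4,1),(12,1),(11,1)]) (.cons (.leaf 2 [(5,1),(12,1),(11,1)]) (.cons (.leaf 2 [(5,2),(12,1),(11,1),(4,1)]) (.cons (.leaf 1 [(9,1),(1,1)]) (.cons (.leaf 1 [(1,1),(9,1)]) (.cons (.leaf 1 [(1,1),(9,1)]) (.cons (.leaf 1 [(6,2),(1,1),(12,1)]) (.cons (.keep [3,7,8,11,12] (.node (.cons (.leaf 1 [(3,1),(11,1)]) (.cons (.leaf 1 [(3,1),(11,1)]) (.cons (.leaf 1 [(3,1),(11,1)]) (.cons (.leaf 1 [(1,1)]) (.cons (.leaf 1 [(1,1)]) (.cons (.leaf 1 [(1,1)]) (.cons (.leaf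 3 [(12,1),(11,1)]) (.cons (.leaf 1 [(4,1),(12,1)]) (.cons (.leaf 1 [(0,1),(11,1),(12,1)]) (.cons (.leaf 1 [(6,1),(1,1)]) (.cons (.leaf 1 [(12,1)]) (.cons (.leaf 1 [(3,1),(0,1),(11,1),(12,1)]) .nil)))))))))))))) (.cons (.keep [3,6,8,11,12] (.node (.cons (.leaf 1 [(3,1),(9,1),(11,1)]) (.cons (.leaf 1 [(3,1),(9,1),(11,1)]) (.cons (.leaf 1 [(3,1),(9,1),(11,1)]) (.cons (.leaf 1 [(1,1),(9,1)]) (.cons (.leaf 1 [(3,1),(5,1),(1,1)]) (.cons (.leaf 1 [(9,1),(1,1)]) (.cons (.leaf 1 [(6,1),(9,2),(1,1)]) (.cons (.leaf 1 [(12,1)]) (.cons (.leaf 1 [(0,1),(9,2),(11,1),(12,1)]) (.cons (.leaf 1 [(1,1),(6,1),(3,1)]) (.cons (.leaf 1 [(12,1),(3,1)]) (.cons (.leaf 1 [(0,1),(12,1),(3,3),(11,1)]) .nil)))))))))))))) .nil)))))))))))))) (.cons (.keep [4,7,9,10,11] (.leaf 0 [(2,0)])) (.cons (.leaf 1 [(5,1)])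 (.cons (.keep [0,1,9,10,11] (.node (.cons (.leaf 1 [(4,1),(10,1)]) (.cons (.leaf 1 [(4,1),(10,1)]) (.cons (.leaf 1 [(4,1),(10,1)]) (.cons (.leaf 2 [(4,1),(11,1),(10,1)]) (.cons (.leaf 2 [(11,1),(10,1)]) (.cons (.leaf 2 [(5,1),(11,1),(10,1),(4,1)]) (.cons (.leaf 2 [(6,1),(10,1)]) (.cons (.leaf 2 [(10,1)]) (.cons (.leaf 2 [(10,1),(6,1)]) (.cons (.leaf 1 [(6,2),(1,1),(11,1)]) (.cons (.keep [7,8,10,11,12] (.node (.cons (.leaf 1 [(3,1),(10,1)]) (.cons (.leaf 1 [(3,1),(10,1)]) (.cons (.leaf 1 [(3,1),(10,1)]) (.cons (.leaf 1 [(1,1)]) (.cons (.leaf 1 [(1,1)]) (.cons (.leaf 1 [(1,1)]) (.cons (.leaf 3 [(11,1),(10,1)]) (.cons (.leaf 1 [(4,1),(11,1)]) (.cons (.leaf 1 [(0,1),(10,1),(11,1)]) (.cons (.leaf 1 [(6,1),(1,1)]) (.cons (.leaf 1 [(11,1)]) (.cons (.leaf 1 [(3,1),(0,1),(10,1),(11,1)])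 .nil)))))))))))))) (.cons (.keep [6,8,9,10,11,12] (.node (.cons (.leaf 1 [(3,1),(11,1)]) (.cons (.leaf 1 [(3,1),(11,1)]) (.cons (.leaf 1 [(3,1),(11,1)]) (.cons (.leaf 1 [(1,1),(8,1)]) (.cons (.leaf 1 [(3,1),(5,1),(1,1)]) (.cons (.leaf 1 [(8,1),(1,1)]) (.cons (.leaf 1 [(6,1),(8,2),(1,1)]) (.cons (.leaf 1 [(12,1)]) (.cons (.leaf 1 [(0,1),(8,1),(11,1),(12,1)]) (.cons (.leaf 1 [(1,1),(6,1),(3,1)]) (.cons (.leaf 1 [(12,1),(3,1)]) (.cons (.leaf 1 [(0,1),(12,1),(3,2),(11,1)]) .nil)))))))))))))) .nil)))))))))))))) (.cons (.leaf 1 [(2,1),(10,1)]) (.cons (.leaf 1 [(5,1)]) (.cons (.leaf 1 [(10,1),(2,1)]) (.cons (.leaf 1 [(2,1)]) (.cons (.leaf 1 [(2,1)]) (.cons (.leaf 1 [(2,1)]) .nil)))))))))))))) (.cons (.leaf 1 [(6,1)]) (.cons (.leaf 1 []) (.cons (.leaf 1 [(6,1)]) .nil))))))))))))))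

theorem e_15_26 : ESB (caseOf 4 15 26) := esb_of_pieces _ (hP_cons c_15_26_1 (hP_cons c_15_26_4
  (hP_cons c_15_26_3 hP_nil))) t_15_26 (by decide +kernel)

def t_15_27 : T := (.keep [0,1,2] (.node (.cons (.leaf 1 []) (.cons (.leaf 1 [(5,1)]) (.cons (.leaf 1 [(5,1)]) (.cons (.leaf 1 [(5,1)]) (.cons (.leaf 1 [(6,1)]) (.cons (.leaf 1 []) (.cons (.leaf 1 [(6,1)]) (.cons (.leaf 1 [(6,1)]) (.cons (.keep [1,6,7,8] (.node (.cons (.leaf 1 [(2,1)]) (.cons (.leaf 1 [(2,1)]) (.cons (.leaf 1 [(2,1)]) (.cons (.leaf 1 [(2,1)]) (.cons (.leaf 1 [(6,1)]) (.cons (.keep [0,1,11,12] (.node (.cons (.leaf 1 []) (.cons (.leaf 1 [(5,1)]) (.cons (.leaf 1 [(5,1)]) (.cons (.leaf 1 [(5,1)]) (.cons (.leaf 1 [(6,1)]) (.cons (.leaf 1 []) (.cons (.leaf 1 [(6,1)]) (.cons (.leaf 1 [(6,1)]) (.cons (.leaf 1 [(12,1)])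 (.cons (.leaf 1 [(5,1),(12,1)]) (.cons (.leaf 1 [(12,1),(5,1)]) (.cons (.leaf 1 [(12,1),(5,1)]) (.cons (.leaf 1 [(7,1)]) (.cons (.leaf 1 [(7,1)]) (.cons (.leaf 1 []) (.cons (.leaf 1 [(7,1)]) .nil)))))))))))))))))) (.cons (.leaf 1 [(12,1),(6,1)]) (.cons (.keep [0,5,6,11,12] (.node (.cons (.leaf 1 []) (.cons (.leaf 1 [(5,1)]) (.cons (.leaf 1 [(5,1)]) (.cons (.leaf 1 [(5,1)]) (.cons (.leaf 1 [(6,1)]) (.cons (.leaf 1 []) (.cons (.leaf 1 [(6,1)]) (.cons (.leaf 1 [(6,1)]) (.cons (.leaf 1 [(7,1),(11,1)]) (.cons (.leaf 1 [(7,1),(12,1),(11,1)]) (.cons (.leaf 2 [(13,1),(11,1)]) (.cons (.leaf 2 [(13,1),(11,1),(7,1)]) (.cons (.leaf 1 [(7,1)]) (.cons (.leaf 1 [(7,1)]) (.cons (.leaf 1 []) (.cons (.leaf 1 [(7,1)]) .nil)))))))))))))))))) (.cons (.leaf 1 [(6,1)]) (.cons (.leaf 1 [(11,1),(2,1)])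 (.cons (.leaf 1 [(11,1),(2,1)]) (.cons (.leaf 1 [(11,1),(2,1)]) (.cons (.leaf 1 [(6,1)]) (.cons (.leaf 1 [(12,1),(2,1)]) (.cons (.leaf 1 [(12,1),(2,1)]) (.cons (.leaf 1 [(12,1),(2,1)]) .nil)))))))))))))))))) (.cons (.keep [5,7,8,9,10] (.node (.cons (.leaf 1 [(2,1)]) (.cons (.leaf 1 [(2,2)]) (.cons (.leaf 1 [(2,1),(4,1)]) (.cons (.leaf 1 [(2,1),(9,1)]) (.cons (.leaf 1 []) (.cons (.keep [0,1,10,11] (.node (.cons (.leaf 1 []) (.cons (.leaf 1 [(5,1)]) (.cons (.leaf 1 [(5,1)]) (.cons (.leaf 1 [(5,1)]) (.cons (.leaf 1 [(6,1)]) (.cons (.leaf 1 []) (.cons (.leaf 1 [(6,1)]) (.cons (.leaf 1 [(6,1)]) (.cons (.leaf 1 [(12,1)]) (.cons (.leaf 1 [(5,1),(12,1)]) (.cons (.leaf 1 [(12,1),(5,1)]) (.cons (.leaf 1 [(12,1),(5,1)]) (.cons (.leaf 1 [(7,1)]) (.cons (.leaf 1 [(7,1)]) (.cons (.leaf 1 [])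 (.cons (.leaf 1 [(7,1)]) .nil)))))))))))))))))) (.cons (.leaf 1 [(11,1),(6,1)]) (.cons (.keep [6,9,10,11,12] (.node (.cons (.leaf 1 [(4,1)]) (.cons (.leaf 1 [(4,1)]) (.cons (.leaf 1 [(4,1)]) (.cons (.leaf 1 [(4,1)]) (.cons (.leaf 1 [(4,1),(6,1)]) (.cons (.leaf 1 [(10,1)]) (.cons (.leaf 1 [(10,1),(6,1)]) (.cons (.leaf 1 [(10,1),(6,1)]) (.cons (.leaf 1 [(7,1)]) (.cons (.leaf 1 [(7,1),(11,1),(9,1)]) (.cons (.leaf 2 [(12,1)]) (.cons (.leaf 2 [(12,1),(7,1)]) (.cons (.leaf 1 [(7,1)]) (.cons (.leaf 1 [(7,1),(10,1)]) (.cons (.leaf 1 [(10,1)]) (.cons (.leaf 1 [(10,1),(7,1)]) .nil)))))))))))))))))) (.cons (.leaf 1 [(2,1)]) (.cons (.leaf 1 [(10,1),(2,1)]) (.cons (.leaf 1 [(2,1),(10,1)]) (.cons (.leaf 1 [(2,1),(10,1)]) (.cons (.leaf 1 [(2,1)]) (.cons (.leaf 1 [(11,1),(2,1)]) (.cons (.leaf 1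 [(11,1),(2,1)]) (.cons (.leaf 1 [(2,1),(11,1)]) .nil)))))))))))))))))) (.cons (.keep [5,6,8,10,11] (.node (.cons (.leaf 1 [(2,1),(9,1)]) (.cons (.leaf 1 [(2,1),(9,1)]) (.cons (.leaf 1 [(2,1),(9,1)]) (.cons (.leaf 1 [(2,1),(9,1)]) (.cons (.leaf 1 [(6,1),(9,1)]) (.cons (.keep [8,9,11,12,13] (.node (.cons (.leaf 1 [(10,1)]) (.cons (.leaf 1 [(5,2)]) (.cons (.leaf 1 [(10,1),(5,1)]) (.cons (.leaf 1 [(10,1),(5,1)]) (.cons (.leaf 1 []) (.cons (.leaf 1 [(1,1)]) (.cons (.leaf 1 [(5,1)]) (.cons (.leaf 1 [(5,1)]) (.cons (.leaf 1 [(11,1)]) (.cons (.leaf 1 [(5,1),(11,1)]) (.cons (.leaf 1 [(11,1),(5,1)]) (.cons (.leaf 1 [(11,1),(5,1)]) (.cons (.leaf 1 [(10,1),(7,1)]) (.cons (.leaf 1 [(5,1),(7,1)]) (.cons (.leaf 1 [(10,1)]) (.cons (.leaf 1 [(10,1),(7,1)]) .nil)))))))))))))))))) (.cons (.leaf 1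 [(11,1),(6,1)]) (.cons (.keep [0,9,10,11,12,13] (.node (.cons (.leaf 1 [(10,1)]) (.cons (.leaf 1 [(5,2)]) (.cons (.leaf 1 [(10,1),(5,1)]) (.cons (.leaf 1 [(10,1),(5,1)]) (.cons (.leaf 1 []) (.cons (.leaf 1 [(1,1)]) (.cons (.leaf 1 [(5,1)]) (.cons (.leaf 1 [(5,1)]) (.cons (.leaf 1 [(7,1),(11,1)]) (.cons (.leaf 2 [(7,1),(12,1),(11,1)]) (.cons (.leaf 2 [(12,1),(11,1)]) (.cons (.leaf 2 [(12,1),(11,1),(7,1)]) (.cons (.leaf 1 [(10,1),(7,1)]) (.cons (.leaf 1 [(5,1),(7,1)]) (.cons (.leaf 1 [(10,1)]) (.cons (.leaf 1 [(10,1),(7,1)]) .nil)))))))))))))))))) (.cons (.leaf 1 [(2,1)]) (.cons (.leaf 1 [(2,1)]) (.cons (.leaf 1 [(2,1)]) (.cons (.leaf 1 [(2,1)]) (.cons (.leaf 1 [(6,1),(9,1)]) (.cons (.leaf 1 [(11,1),(2,1)]) (.cons (.leaf 1 [(11,1),(2,1)]) (.cons (.leaf 1 [(11,1),(2,1)]) .nil))))))))))))))))))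 (.cons (.keep [1,5,6,7,10] (.node (.cons (.leaf 1 [(2,1),(10,1)]) (.cons (.leaf 1 [(2,1),(10,1)]) (.cons (.leaf 1 [(2,1),(5,1)]) (.cons (.leaf 1 [(2,1),(10,1)]) (.cons (.leaf 1 [(6,1),(10,1)]) (.cons (.keep [4,8,10,12,13] (.node (.cons (.leaf 1 [(11,1)]) (.cons (.leaf 1 [(5,1),(11,1)]) (.cons (.leaf 1 [(11,1),(5,1)]) (.cons (.leaf 1 [(11,1),(5,1)]) (.cons (.leaf 1 [(6,1),(11,1)]) (.cons (.leaf 1 [(11,1)]) (.cons (.leaf 1 [(11,1),(6,1)]) (.cons (.leaf 1 [(11,1),(6,1)]) (.cons (.leaf 1 []) (.cons (.leaf 1 [(5,1)]) (.cons (.leaf 1 [(5,1)]) (.cons (.leaf 1 [(5,1)]) (.cons (.leaf 1 [(11,1),(7,1)]) (.cons (.leaf 1 [(7,1),(11,1)]) (.cons (.leaf 1 [(11,1)]) (.cons (.leaf 1 [(11,1),(7,1)]) .nil)))))))))))))))))) (.cons (.leaf 1 [(6,1)]) (.cons (.keep [0,7,10,11,12,13] (.node (.cons (.leaf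 1 [(11,1)]) (.cons (.leaf 1 [(5,1),(11,1)]) (.cons (.leaf 1 [(11,1),(5,1)]) (.cons (.leaf 1 [(11,1),(5,1)]) (.cons (.leaf 1 [(6,1),(11,1)]) (.cons (.leaf 1 [(11,1)]) (.cons (.leaf 1 [(11,1),(6,1)]) (.cons (.leaf 1 [(11,1),(6,1)]) (.cons (.leaf 1 []) (.cons (.leaf 1 [(5,1)]) (.cons (.leaf 1 [(5,1)]) (.cons (.leaf 1 [(5,1)]) (.cons (.leaf 1 [(11,1),(7,1)]) (.cons (.leaf 1 [(7,1),(11,1)]) (.cons (.leaf 1 [(11,1)]) (.cons (.leaf 1 [(11,1),(7,1)]) .nil)))))))))))))))))) (.cons (.leaf 1 [(6,1),(10,1)]) (.cons (.leaf 1 [(2,1),(12,1)]) (.cons (.leaf 1 [(6,1)]) (.cons (.leaf 1 [(2,1),(12,1)]) (.cons (.leaf 1 [(2,1)]) (.cons (.leaf 1 [(2,1)]) (.cons (.leaf 1 [(2,1)]) (.cons (.leaf 1 [(2,1)]) .nil)))))))))))))))))) (.cons (.leaf 1 [(7,1)]) (.cons (.leaf 1 [(7,1)]) (.cons (.leaf 1 []) (.cons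 (.leaf 1 [(7,1)]) .nil))))))))))))))))))

theorem e_15_27 : ESB (caseOf 4 15 27) := esb_of_ok (t := t_15_27) (by decide +kernel)

def ks : List (ℕ × ℕ) := [(15, 25), (15, 26), (15, 27)]

theorem ks_ok : ∀ p ∈ ks, ESB (caseOf 4 p.1 p.2) := ks_cons e_15_25 <| ks_cons e_15_26 <| ks_cons
  e_15_27 <| ks_nil

end Pool.Agent.H4.RD4.E08
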