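import Pool.Agent.H4.RD4.Chk

/-! # Certificates for special cases of order four -/

set_option maxRecDepth 20000

namespace Pool.Agent.H4.RD4.E09

open Pool.Agent.H50.Rdb
open Pool.Agent.H81.RDE (ESB caseOf)

def z_15_28_0 : F := ⟨1, -1, 0, 0, 1⟩

def h_15_28_0 : List F := [⟨1, 0, 0, 0, 0⟩, ⟨0, 1, -1, 0, 0⟩, ⟨0, 1, 0, -1, 0⟩, ⟨0, -1, 0, 0, 1⟩]

def t_15_28_0 : T := (.node (.cons (.keep [2,6,7,9] (.node (.cons (.leaf 1 [(9,1)]) (.cons (.leaf 1 [(10,1)]) (.cons (.keep [8,9,10,11] (.node (.cons (.leaf 1 [(3,1),(4,1)]) (.cons (.leaf 1 [(4,2)]) (.cons (.keep [0,4,6,9,10] (.node (.cons (.leaf 1 [(3,1),(4,1)]) (.cons (.leaf 1 [(3,1),(4,1)]) (.cons (.leaf 1 [(3,1),(4,1)]) (.cons (.leaf 1 [(9,2),(6,1)]) (.cons (.leaf 1 [(4,1),(9,1),(11,1)]) (.cons (.leaf 1 [(4,1),(9,2),(0,1),(11,1)]) (.cons (.leaf 1 [(9,2),(4,1)])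 (.cons (.leaf 1 [(9,2),(4,1)]) (.cons (.leaf 1 [(9,2),(4,1)]) (.cons (.leaf 1 [(9,2),(6,1)]) (.cons (.leaf 1 [(9,1),(11,1)]) (.cons (.leaf 1 [(9,2),(0,1),(11,1)]) .nil)))))))))))))) (.cons (.leaf 1 [(4,1),(9,1)]) (.cons (.leaf 1 [(4,1),(9,1)]) (.cons (.leaf 1 [(4,1),(9,1)]) (.cons (.leaf 1 [(4,1),(10,1)]) (.cons (.leaf 1 [(4,1),(10,1)]) (.cons (.leaf 1 [(4,1),(10,1)]) (.cons (.leaf 1 [(6,1),(10,1)]) (.cons (.leaf 1 [(11,1)]) (.cons (.keep [1,9,10,11] (.node (.cons (.leaf 1 [(4,1)]) (.cons (.leaf 1 [(4,1)]) (.cons (.leaf 1 [(4,1)]) (.cons (.leaf 1 [(10,1),(3,1)]) (.cons (.leaf 1 [(10,1),(3,1)]) (.cons (.leaf 1 [(10,1),(3,1)]) (.cons (.leaf 1 [(4,2),(11,1)]) (.cons (.leaf 1 [(4,2),(11,1)]) (.cons (.leaf 1 [(4,2),(11,1)]) (.cons (.leaf 1 [(6,2),(11,1)]) (.cons (.leaf 1 [(9,2),(11,1)]) (.cons (.leaf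 1 [(0,2),(11,1),(9,2)]) .nil)))))))))))))) .nil)))))))))))))) (.cons (.leaf 1 [(1,1),(3,1)]) (.cons (.leaf 1 [(1,1),(4,1)]) (.cons (.leaf 1 [(1,2),(11,1)]) (.cons (.leaf 1 [(9,1),(1,1)]) (.cons (.leaf 1 [(1,1),(4,1),(9,1)]) (.cons (.leaf 1 [(9,2),(1,2),(11,1)]) (.cons (.leaf 1 [(9,1),(1,1)]) (.cons (.leaf 1 [(10,1),(1,1)]) (.cons (.leaf 1 [(10,2),(1,2),(11,1)]) .nil)))))))))))))) (.cons (.keep [2,5,7,10] (.node (.cons (.leaf 1 []) (.cons (.leaf 1 [(10,1)]) (.cons (.keep [8,9,10,11] (.node (.cons (.leaf 1 [(3,1),(9,1),(4,1)]) (.cons (.leaf 1 [(9,1),(4,2)]) (.cons (.keep [0,4,9,10,11] (.node (.cons (.leaf 1 [(3,2)]) (.cons (.leaf 1 [(3,1),(4,1)]) (.cons (.leaf 1 [(3,1),(10,1),(4,1)]) (.cons (.leaf 1 [(3,1),(9,1)]) (.cons (.leaf 1 [(4,1),(9,1)]) (.cons (.leaf 1 [(4,1),(9,2),(10,1),(0,1)]) (.cons (.leaf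 1 [(9,1)]) (.cons (.leaf 1 [(4,1),(9,1)]) (.cons (.leaf 1 [(10,1),(9,2),(4,1)]) (.cons (.leaf 1 [(9,1),(3,1)]) (.cons (.leaf 1 [(9,1)]) (.cons (.leaf 1 [(9,2),(10,1),(0,1)]) .nil)))))))))))))) (.cons (.leaf 1 [(4,1)]) (.cons (.leaf 1 [(4,1)]) (.cons (.leaf 1 [(4,1)]) (.cons (.leaf 1 [(10,1),(4,1)]) (.cons (.leaf 1 [(10,1),(4,1)]) (.cons (.leaf 1 [(10,1),(4,1)]) (.cons (.leaf 1 [(10,1),(6,1)]) (.cons (.leaf 1 [(9,2),(11,1)]) (.cons (.keep [0,1,9,10,11] (.node (.cons (.leaf 1 [(3,2)]) (.cons (.leaf 1 [(3,1),(4,1)]) (.cons (.leaf 1 [(4,1),(10,1)]) (.cons (.leaf 1 [(3,1),(11,1)]) (.cons (.leaf 1 [(3,1),(11,1)]) (.cons (.leaf 1 [(3,1),(11,1)]) (.cons (.leaf 1 [(12,1)]) (.cons (.leaf 1 [(4,2),(12,1)]) (.cons (.leaf 1 [(4,2),(10,2),(12,1)]) (.cons (.leaf 1 [(12,1),(3,2)]) (.cons (.leaf 1 [(12,1)]) (.cons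 (.leaf 1 [(12,1),(10,2),(0,2)]) .nil)))))))))))))) .nil)))))))))))))) (.cons (.leaf 1 [(1,1)]) (.cons (.leaf 1 [(4,1),(1,1),(9,1)]) (.cons (.leaf 1 [(1,2),(9,2),(11,1)]) (.cons (.leaf 1 [(1,1)]) (.cons (.leaf 1 [(1,1),(4,1)]) (.cons (.leaf 1 [(1,2),(11,1)]) (.cons (.leaf 1 [(1,1)]) (.cons (.leaf 1 [(10,1),(1,1)]) (.cons (.leaf 1 [(10,2),(1,2),(11,1)]) .nil)))))))))))))) (.cons (.keep [2,5,6,8,9,10] (.node (.cons (.leaf 1 [(10,1)]) (.cons (.leaf 1 []) (.cons (.keep [0,8,9,10,12,13] (.node (.cons (.leaf 1 [(6,1)]) (.cons (.leaf 1 [(10,1),(4,2)]) (.cons (.keep [0,4,6,10,11] (.node (.cons (.leaf 1 [(4,1),(3,1),(11,1)]) (.cons (.leaf 1 [(4,1),(3,1),(11,1)]) (.cons (.leaf 1 [(4,1),(3,1),(11,1)]) (.cons (.leaf 1 [(3,1)]) (.cons (.leaf 1 [(3,1)]) (.cons (.leaf 1 [(3,1)]) (.cons (.leaf 1 [(4,1),(9,2),(11,1)])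 (.cons (.leaf 1 [(4,1),(9,2),(11,1)]) (.cons (.leaf 1 [(4,1),(9,2),(11,1)]) (.cons (.leaf 1 [(6,1),(9,2),(11,1)]) (.cons (.leaf 1 [(12,1),(9,1)]) (.cons (.leaf 1 [(0,1),(9,2),(11,1),(12,1)]) .nil)))))))))))))) (.cons (.leaf 1 [(6,1)]) (.cons (.leaf 1 [(4,1),(11,1)]) (.cons (.leaf 1 [(4,1),(11,1)]) (.cons (.leaf 1 [(4,1)]) (.cons (.leaf 1 [(4,1)]) (.cons (.leaf 1 [(4,1)]) (.cons (.leaf 1 [(6,1)]) (.cons (.leaf 1 [(10,1),(12,1)]) (.cons (.keep [0,1,10,11,12] (.node (.cons (.leaf 1 [(4,1),(10,1)]) (.cons (.leaf 1 [(4,1),(10,1)]) (.cons (.leaf 1 [(4,1),(10,1)]) (.cons (.leaf 1 [(3,1)]) (.cons (.leaf 1 [(3,1)]) (.cons (.leaf 1 [(3,1)]) (.cons (.leaf 1 [(4,2),(12,1),(10,1)]) (.cons (.leaf 1 [(4,2),(12,1),(10,1)]) (.cons (.leaf 1 [(4,2),(12,1),(10,1)]) (.cons (.leaf 1 [(6,2),(12,1),(10,1)]) (.cons (.leaf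 1 [(11,2),(8,1),(12,1)]) (.cons (.leaf 1 [(0,2),(12,1),(10,1),(11,2)]) .nil)))))))))))))) .nil)))))))))))))) (.cons (.leaf 1 [(3,1),(9,1),(1,1)]) (.cons (.leaf 1 [(1,1)]) (.cons (.leaf 1 [(1,2),(9,1),(12,1)]) (.cons (.leaf 1 [(1,1),(10,1)]) (.cons (.leaf 1 [(1,1)]) (.cons (.leaf 1 [(1,2),(10,1),(13,1)]) (.cons (.leaf 1 [(3,1),(1,1)]) (.cons (.leaf 1 [(1,1)]) (.cons (.keep [0,1,6,12,13] (.node (.cons (.leaf 1 [(9,1),(6,1)]) (.cons (.leaf 1 [(9,2),(4,1)]) (.cons (.leaf 1 [(9,2),(4,1)]) (.cons (.leaf 1 [(9,1),(6,1)]) (.cons (.leaf 1 [(4,1),(9,1),(11,1)]) (.cons (.leaf 1 [(4,1),(9,3),(0,1),(11,1)]) (.cons (.leaf 1 [(1,1),(4,1)]) (.cons (.leaf 1 [(1,1),(4,1)]) (.cons (.leaf 1 [(1,1),(4,1)]) (.cons (.leaf 1 [(1,1),(6,2)]) (.cons (.leaf 1 [(9,1),(11,1)]) (.cons (.leaf 1 [(9,3),(0,1),(11,1)]) .nil))))))))))))))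 .nil)))))))))))))) (.cons (.keep [1,3,6,7,11] (.node (.cons (.leaf 1 [(10,1),(12,1)]) (.cons (.leaf 1 [(11,1),(12,1)]) (.cons (.keep [2,8,10,11,12] (.node (.cons (.leaf 1 [(3,1)]) (.cons (.leaf 1 [(4,1)]) (.cons (.keep [4,8,10,11,12] (.node (.cons (.leaf 1 [(4,1)]) (.cons (.leaf 1 [(4,1)]) (.cons (.leaf 1 [(4,1)]) (.cons (.leaf 1 [(6,1),(8,1)]) (.cons (.leaf 1 [(4,1),(10,1)]) (.cons (.leaf 1 [(4,1),(0,1),(10,1)]) (.cons (.leaf 1 [(4,1),(8,1)]) (.cons (.leaf 1 [(4,1),(8,1)]) (.cons (.leaf 1 [(4,1),(8,1)]) (.cons (.leaf 1 [(6,1),(8,1)]) (.cons (.leaf 1 [(10,1)]) (.cons (.leaf 1 [(0,1),(10,1)]) .nil)))))))))))))) (.cons (.leaf 1 [(3,1)]) (.cons (.leaf 1 [(4,1)]) (.cons (.leaf 1 [(1,1),(10,1)]) (.cons (.leaf 1 []) (.cons (.leaf 1 [(4,1)]) (.cons (.leaf 1 [(1,1),(11,1)]) (.cons (.leaf 1 [(3,1)]) (.cons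 (.leaf 1 []) (.cons (.keep [0,1,6,10,11] (.node (.cons (.leaf 1 [(6,1)]) (.cons (.leaf 1 [(9,1),(4,1)]) (.cons (.leaf 1 [(9,1),(4,1)]) (.cons (.leaf 1 [(6,1)]) (.cons (.leaf 1 [(4,1),(11,1)]) (.cons (.leaf 1 [(4,1),(9,1),(0,1),(11,1)]) (.cons (.leaf 1 [(4,1)]) (.cons (.leaf 1 [(4,1)]) (.cons (.leaf 1 [(4,1)]) (.cons (.leaf 1 [(6,1)]) (.cons (.leaf 1 [(11,1)]) (.cons (.leaf 1 [(9,1),(0,1),(11,1)]) .nil)))))))))))))) .nil)))))))))))))) (.cons (.leaf 1 [(1,1)]) (.cons (.leaf 1 [(1,1)]) (.cons (.leaf 1 [(1,1)]) (.cons (.leaf 1 [(10,1),(1,1)]) (.cons (.leaf 1 [(10,1),(1,1)]) (.cons (.leaf 1 [(10,1),(1,1)]) (.cons (.leaf 1 [(10,1),(6,1),(1,1)]) (.cons (.leaf 1 [(11,1),(1,1)]) (.cons (.leaf 1 [(11,1),(1,1)]) .nil)))))))))))))) (.cons (.keep [1,4,5,7,11] (.node (.cons (.leaf 1 [(12,1)]) (.cons (.leaf 1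 [(11,1),(12,1)]) (.cons (.keep [5,8,10,11,12] (.node (.cons (.leaf 1 [(3,1),(10,1)]) (.cons (.leaf 1 [(4,1),(10,1)]) (.cons (.keep [0,4,8,10,11,12] (.node (.cons (.leaf 1 [(3,1)]) (.cons (.leaf 1 [(4,1)]) (.cons (.leaf 1 [(11,1),(4,1)]) (.cons (.leaf 1 [(3,1)]) (.cons (.leaf 1 [(4,1)]) (.cons (.leaf 1 [(4,1),(11,1),(0,1)]) (.cons (.leaf 1 []) (.cons (.leaf 1 [(4,1)]) (.cons (.leaf 1 [(4,1),(11,1),(0,1)]) (.cons (.leaf 1 [(3,1)]) (.cons (.leaf 1 []) (.cons (.leaf 1 [(11,1),(0,1)]) .nil)))))))))))))) (.cons (.leaf 1 [(1,1)]) (.cons (.leaf 1 [(1,1)]) (.cons (.leaf 1 [(1,1)]) (.cons (.leaf 1 [(10,1)]) (.cons (.leaf 1 [(4,1),(10,1)]) (.cons (.leaf 1 [(11,1),(1,1)]) (.cons (.leaf 1 [(3,1),(10,1)]) (.cons (.leaf 1 [(10,1)]) (.cons (.keep [0,1,6,10,11] (.node (.cons (.leaf 1 [(3,1)]) (.cons (.leaf 1 [(4,1)])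 (.cons (.leaf 1 [(9,1),(11,1),(4,1)]) (.cons (.leaf 1 [(3,1)]) (.cons (.leaf 1 [(4,1)]) (.cons (.leaf 1 [(4,1),(9,1),(11,1),(0,1)]) (.cons (.leaf 1 []) (.cons (.leaf 1 [(4,1)]) (.cons (.leaf 1 [(4,1),(11,1)]) (.cons (.leaf 1 [(3,1)]) (.cons (.leaf 1 []) (.cons (.leaf 1 [(9,1),(11,1),(0,1)]) .nil)))))))))))))) .nil)))))))))))))) (.cons (.leaf 1 [(1,1),(10,1)]) (.cons (.leaf 1 [(1,1),(10,1)]) (.cons (.leaf 1 [(1,1),(10,1)]) (.cons (.leaf 1 [(1,1)]) (.cons (.leaf 1 [(1,1)]) (.cons (.leaf 1 [(1,1)]) (.cons (.leaf 1 [(6,1),(1,1)]) (.cons (.leaf 1 [(11,1),(1,1)]) (.cons (.leaf 1 [(11,1),(1,1)]) .nil)))))))))))))) (.cons (.keep [1,5,6,8,11] (.node (.cons (.leaf 1 [(12,1),(10,1)]) (.cons (.leaf 1 [(12,1)]) (.cons (.keep [6,8,9,10,12] (.node (.cons (.leaf 2 [(10,1)]) (.cons (.leaf 1 [(4,1),(10,1)]) (.cons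 (.keep [0,4,8,10,11,12] (.node (.cons (.leaf 1 [(4,1),(11,1)]) (.cons (.leaf 1 [(4,1),(11,1)]) (.cons (.leaf 1 [(4,1),(11,1)]) (.cons (.leaf 1 [(1,1)]) (.cons (.leaf 1 [(1,1)]) (.cons (.leaf 1 [(1,1)]) (.cons (.leaf 1 [(9,1),(4,1),(11,1)]) (.cons (.leaf 1 [(4,1),(11,1),(9,1)]) (.cons (.leaf 1 [(9,1),(4,1),(11,1)]) (.cons (.leaf 1 [(9,1),(6,1),(11,1)]) (.cons (.leaf 1 [(12,1)]) (.cons (.leaf 1 [(0,1),(11,1),(12,1)]) .nil)))))))))))))) (.cons (.leaf 2 [(1,1),(10,1)]) (.cons (.leaf 1 [(4,1),(10,1)]) (.cons (.leaf 1 [(1,1),(11,1)]) (.cons (.leaf 1 [(1,1)]) (.cons (.leaf 1 [(1,1)]) (.cons (.leaf 1 [(1,1)]) (.cons (.leaf 1 [(6,1),(1,1)]) (.cons (.leaf 1 [(10,1)]) (.cons (.keep [0,1,6,10,11] (.node (.cons (.leaf 1 [(4,1),(9,1),(11,1)]) (.cons (.leaf 1 [(4,1),(9,1),(11,1)]) (.cons (.leaf 1 [(4,1),(9,1),(11,1)])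 (.cons (.leaf 1 [(1,1)]) (.cons (.leaf 1 [(1,1)]) (.cons (.leaf 1 [(1,1)]) (.cons (.leaf 1 [(4,1),(11,1)]) (.cons (.leaf 1 [(4,1),(11,1)]) (.cons (.leaf 1 [(4,1),(11,1)]) (.cons (.leaf 1 [(11,1),(6,1)]) (.cons (.leaf 1 [(12,1)]) (.cons (.leaf 1 [(0,1),(9,1),(11,1),(12,1)]) .nil)))))))))))))) .nil)))))))))))))) (.cons (.leaf 1 [(1,1),(9,1)]) (.cons (.leaf 1 [(1,1),(9,1)]) (.cons (.leaf 1 [(1,1),(9,1)]) (.cons (.leaf 1 [(1,1),(10,1)]) (.cons (.leaf 1 [(1,1),(5,1)]) (.cons (.leaf 1 [(1,1),(10,1)]) (.cons (.leaf 1 [(1,1)]) (.cons (.leaf 1 [(1,1)]) (.cons (.leaf 1 [(1,1)]) .nil)))))))))))))) (.cons (.leaf 1 [(9,1),(1,1)]) (.cons (.leaf 1 [(9,1),(5,1),(1,1)]) (.cons (.leaf 1 [(9,1),(5,1),(1,1)]) (.cons (.leaf 1 [(1,1),(6,2),(9,1)]) (.cons (.leaf 1 [(10,1),(1,1)]) (.cons (.leaf 1 [(10,1),(6,1),(1,1)])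 .nil)))))))))))))

theorem c_15_28_0 : Concl 15 28 z_15_28_0 h_15_28_0 .nd := piece _ hP_nil t_15_28_0 _ _ (by
  decide +kernel)

def t_15_28 : T := (.keep [0,1,2] (.node (.cons (.keep [2,3,6,7] (.node (.cons (.leaf 1 [(10,1),(8,1)]) (.cons (.leaf 1 [(11,1),(8,1)]) (.cons (.keep [0,8,10,11] (.node (.cons (.leaf 1 [(3,1)]) (.cons (.leaf 1 [(4,1)]) (.cons (.keep [4,6,9,10,11] (.node (.cons (.leaf 1 [(4,1)]) (.cons (.leaf 1 [(4,1)]) (.cons (.leaf 1 [(4,1)]) (.cons (.leaf 1 [(6,1),(8,1)]) (.cons (.leaf 1 [(4,1),(11,1)]) (.cons (.leaf 1 [(4,1),(0,1),(11,1)]) (.cons (.leaf 1 [(4,1),(8,1)]) (.cons (.leaf 1 [(4,1),(8,1)]) (.cons (.leaf 1 [(4,1),(8,1)]) (.cons (.leaf 1 [(6,1),(8,1)]) (.cons (.leaf 1 [(11,1)]) (.cons (.leaf 1 [(0,1),(11,1)]) .nil)))))))))))))) (.cons (.leaf 1 [(3,1)]) (.cons (.leaf 1 [(4,1)])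 (.cons (.leaf 1 [(1,1),(10,1)]) (.cons (.leaf 1 []) (.cons (.leaf 1 [(4,1)]) (.cons (.leaf 1 [(1,1),(11,1)]) (.cons (.leaf 1 [(3,1)]) (.cons (.leaf 1 []) (.cons (.keep [0,1,8,10,11] (.node (.cons (.leaf 1 [(6,1)]) (.cons (.leaf 1 [(9,1),(4,1)]) (.cons (.leaf 1 [(9,1),(4,1)]) (.cons (.leaf 1 [(6,1)]) (.cons (.leaf 1 [(4,1),(11,1)]) (.cons (.leaf 1 [(4,1),(9,1),(0,1),(11,1)]) (.cons (.leaf 1 [(4,1)]) (.cons (.leaf 1 [(4,1)]) (.cons (.leaf 1 [(4,1)]) (.cons (.leaf 1 [(6,1)]) (.cons (.leaf 1 [(11,1)]) (.cons (.leaf 1 [(9,1),(0,1),(11,1)]) .nil)))))))))))))) .nil)))))))))))))) (.cons (.leaf 1 [(1,1)]) (.cons (.leaf 1 [(1,1)]) (.cons (.leaf 1 [(1,1)]) (.cons (.leaf 1 [(10,1),(1,1)]) (.cons (.leaf 1 [(10,1),(1,1)]) (.cons (.leaf 1 [(10,1),(1,1)]) (.cons (.leaf 1 [(10,1),(6,1),(1,1)]) (.cons (.leaf 1 [(11,1),(1,1)])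 (.cons (.leaf 1 [(11,1),(1,1)]) .nil)))))))))))))) (.cons (.keep [2,4,5,7] (.node (.cons (.leaf 1 [(8,1)]) (.cons (.leaf 1 [(11,1),(8,1)]) (.cons (.keep [0,8,10,11] (.node (.cons (.leaf 1 [(3,1),(10,1)]) (.cons (.leaf 1 [(4,1),(10,1)]) (.cons (.keep [0,4,8,9,10,11] (.node (.cons (.leaf 1 [(3,1)]) (.cons (.leaf 1 [(4,1)]) (.cons (.leaf 1 [(12,1),(4,1)]) (.cons (.leaf 1 [(3,1)]) (.cons (.leaf 1 [(4,1)]) (.cons (.leaf 1 [(4,1),(12,1),(0,1)]) (.cons (.leaf 1 []) (.cons (.leaf 1 [(4,1)]) (.cons (.leaf 1 [(4,1),(12,1),(0,1)]) (.cons (.leaf 1 [(3,1)]) (.cons (.leaf 1 []) (.cons (.leaf 1 [(12,1),(0,1)]) .nil)))))))))))))) (.cons (.leaf 1 [(1,1)]) (.cons (.leaf 1 [(1,1)]) (.cons (.leaf 1 [(1,1)]) (.cons (.leaf 1 [(10,1)]) (.cons (.leaf 1 [(4,1),(10,1)]) (.cons (.leaf 1 [(11,1),(1,1)]) (.cons (.leaf 1 [(3,1),(10,1)])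 (.cons (.leaf 1 [(10,1)]) (.cons (.keep [0,1,8,10,11] (.node (.cons (.leaf 1 [(3,1)]) (.cons (.leaf 1 [(4,1)]) (.cons (.leaf 1 [(9,1),(11,1),(4,1)]) (.cons (.leaf 1 [(3,1)]) (.cons (.leaf 1 [(4,1)]) (.cons (.leaf 1 [(4,1),(9,1),(11,1),(0,1)]) (.cons (.leaf 1 []) (.cons (.leaf 1 [(4,1)]) (.cons (.leaf 1 [(4,1),(11,1)]) (.cons (.leaf 1 [(3,1)]) (.cons (.leaf 1 []) (.cons (.leaf 1 [(9,1),(11,1),(0,1)]) .nil)))))))))))))) .nil)))))))))))))) (.cons (.leaf 1 [(1,1),(8,1)]) (.cons (.leaf 1 [(1,1),(10,1)]) (.cons (.leaf 1 [(1,1),(10,1)]) (.cons (.leaf 1 [(1,1)]) (.cons (.leaf 1 [(1,1)]) (.cons (.leaf 1 [(1,1)]) (.cons (.leaf 1 [(6,1),(1,1)]) (.cons (.leaf 1 [(11,1),(1,1)]) (.cons (.leaf 1 [(11,1),(1,1)]) .nil)))))))))))))) (.cons (.keep [0,2,5,6] (.node (.cons (.leaf 1 [(9,1),(11,1)]) (.cons (.leaf 1 [(9,1)])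 (.cons (.keep [0,9,10,11] (.node (.cons (.leaf 1 [(6,1),(9,1)]) (.cons (.leaf 1 [(4,1),(10,1)]) (.cons (.keep [0,4,8,9,10,11] (.node (.cons (.leaf 1 [(4,1),(12,1)]) (.cons (.leaf 1 [(4,1),(12,1)]) (.cons (.leaf 1 [(4,1),(12,1)]) (.cons (.leaf 1 [(1,1)]) (.cons (.leaf 1 [(1,1)]) (.cons (.leaf 1 [(1,1)]) (.cons (.leaf 1 [(9,1),(4,1),(12,1)]) (.cons (.leaf 1 [(4,1),(12,1),(9,1)]) (.cons (.leaf 1 [(9,1),(4,1),(12,1)]) (.cons (.leaf 1 [(9,1),(6,1),(12,1)]) (.cons (.leaf 1 [(13,1)]) (.cons (.leaf 1 [(0,1),(12,1),(13,1)]) .nil)))))))))))))) (.cons (.leaf 1 [(6,1),(9,1)]) (.cons (.leaf 1 [(4,1),(10,1)]) (.cons (.leaf 1 [(1,1),(11,1)]) (.cons (.leaf 1 [(1,1)]) (.cons (.leaf 1 [(1,1)]) (.cons (.leaf 1 [(1,1)]) (.cons (.leaf 1 [(6,1),(1,1)]) (.cons (.leaf 1 [(10,1)]) (.cons (.keep [0,1,8,10,11] (.node (.cons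 (.leaf 1 [(4,1),(9,1),(11,1)]) (.cons (.leaf 1 [(4,1),(9,1),(11,1)]) (.cons (.leaf 1 [(4,1),(9,1),(11,1)]) (.cons (.leaf 1 [(1,1)]) (.cons (.leaf 1 [(1,1)]) (.cons (.leaf 1 [(1,1)]) (.cons (.leaf 1 [(4,1),(11,1)]) (.cons (.leaf 1 [(4,1),(11,1)]) (.cons (.leaf 1 [(4,1),(11,1)]) (.cons (.leaf 1 [(11,1),(6,1)]) (.cons (.leaf 1 [(12,1)]) (.cons (.leaf 1 [(0,1),(9,1),(11,1),(12,1)]) .nil)))))))))))))) .nil)))))))))))))) (.cons (.leaf 1 [(1,1),(10,1)]) (.cons (.leaf 1 [(1,1),(9,1)]) (.cons (.leaf 1 [(1,1),(10,1)]) (.cons (.leaf 1 [(1,1),(11,1)]) (.cons (.leaf 1 [(1,1),(5,1)]) (.cons (.leaf 1 [(1,1),(11,1)]) (.cons (.leaf 1 [(1,1)]) (.cons (.leaf 1 [(1,1)]) (.cons (.leaf 1 [(1,1)]) .nil)))))))))))))) (.cons (.keep [1,6,7,8] (.leaf 0 [(0,0)])) (.cons (.keep [1,5,7,8] (.node (.cons (.keep [3,6,7,9] (.node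 (.cons (.leaf 1 [(3,2),(11,2)]) (.cons (.leaf 1 [(4,2),(11,2)]) (.cons (.keep [0,9,10,11] (.node (.cons (.leaf 1 [(3,2)]) (.cons (.leaf 1 [(4,2)]) (.cons (.leaf 1 [(11,2),(4,2)]) (.cons (.leaf 1 [(3,2)]) (.cons (.leaf 1 [(4,2)]) (.cons (.leaf 1 [(1,2),(9,2)]) (.cons (.leaf 1 []) (.cons (.leaf 1 [(4,2)]) (.cons (.leaf 1 [(1,2),(10,2)]) (.cons (.leaf 1 [(3,2)]) (.cons (.leaf 1 []) (.cons (.keep [0,8,9,10,11] (.node (.cons (.leaf 1 [(6,2)]) (.cons (.leaf 1 [(10,2),(4,2)]) (.cons (.leaf 1 [(12,1),(4,1)]) (.cons (.leaf 1 [(6,2)]) (.cons (.leaf 1 [(4,2),(10,2)]) (.cons (.leaf 1 [(1,2),(11,2)]) (.cons (.leaf 1 [(4,2)]) (.cons (.leaf 1 [(4,2)]) (.cons (.leaf 1 [(4,2)]) (.cons (.leaf 1 [(6,2)]) (.cons (.leaf 1 [(10,2)]) (.cons (.leaf 1 [(12,2),(0,2),(10,2)]) .nil)))))))))))))) .nil)))))))))))))) (.cons (.leaf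 1 [(1,2)]) (.cons (.leaf 1 [(1,2)]) (.cons (.leaf 1 [(1,2)]) (.cons (.leaf 1 [(9,2),(1,2)]) (.cons (.leaf 1 [(9,2),(1,2)]) (.cons (.leaf 1 [(9,2),(1,2)]) (.cons (.leaf 1 [(9,2),(6,2),(1,2)]) (.cons (.leaf 1 [(10,2),(1,2)]) (.cons (.leaf 1 [(10,2),(1,2)]) .nil)))))))))))))) (.cons (.keep [4,5,7,9,10] (.node (.cons (.leaf 1 [(11,1)]) (.cons (.leaf 1 [(4,2),(9,1),(11,2)]) (.cons (.keep [0,9,10,11,12] (.node (.cons (.leaf 1 [(9,1),(3,2)]) (.cons (.leaf 1 [(9,1),(4,2)]) (.cons (.leaf 1 [(9,1),(11,2),(4,2)]) (.cons (.leaf 1 [(1,1),(3,1)]) (.cons (.leaf 1 [(1,1),(4,1)]) (.cons (.leaf 1 [(4,1),(11,1)]) (.cons (.leaf 1 [(9,1)]) (.cons (.leaf 1 [(9,1),(4,2)]) (.cons (.leaf 1 [(10,1),(4,1),(11,1)]) (.cons (.leaf 1 [(9,1),(3,2)]) (.cons (.leaf 1 [(9,1)]) (.cons (.keep [0,8,9,10,11] (.node (.cons (.leaf 1 [(4,1)])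 (.cons (.leaf 2 [(12,1),(4,3)]) (.cons (.leaf 1 [(12,1),(4,1),(10,1)]) (.cons (.leaf 1 [(4,1)]) (.cons (.leaf 2 [(4,2),(12,1),(11,1)]) (.cons (.leaf 2 [(4,1),(1,1),(12,1),(11,2)]) (.cons (.leaf 1 [(4,1)]) (.cons (.leaf 1 [(4,2)]) (.cons (.leaf 1 [(10,1),(4,2)]) (.cons (.leaf 1 []) (.cons (.leaf 1 [(12,1),(8,1)]) (.cons (.leaf 1 [(12,2),(10,1),(0,2)]) .nil)))))))))))))) .nil)))))))))))))) (.cons (.leaf 1 [(1,2),(9,1)]) (.cons (.leaf 1 [(1,2),(9,1)]) (.cons (.leaf 1 [(1,2),(9,1)]) (.cons (.leaf 1 [(11,1),(1,1)]) (.cons (.leaf 1 [(4,1),(1,1),(11,1)]) (.cons (.leaf 1 [(12,1),(1,2)]) (.cons (.leaf 1 [(11,1),(1,1)]) (.cons (.leaf 1 [(11,1),(10,1),(1,1)]) (.cons (.leaf 1 [(12,1),(10,2),(1,2)]) .nil)))))))))))))) (.cons (.keep [5,8,9,10] (.node (.cons (.leaf 1 [(3,2),(10,2),(8,1)]) (.cons (.leaf 1 [(10,1)])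 (.cons (.keep [0,8,10,11] (.node (.cons (.leaf 1 []) (.cons (.leaf 1 [(9,1),(4,2)]) (.cons (.leaf 1 [(9,1),(10,2),(4,2)]) (.cons (.leaf 1 [(1,1)]) (.cons (.leaf 1 [(4,2),(9,1)]) (.cons (.leaf 1 [(4,1),(9,1),(10,1),(11,1)]) (.cons (.leaf 1 [(1,1)]) (.cons (.leaf 1 [(1,1),(4,1)]) (.cons (.leaf 1 [(4,1),(10,1)]) (.cons (.leaf 1 [(1,1)]) (.cons (.leaf 1 [(9,1)]) (.cons (.keep [0,8,9,10,11] (.node (.cons (.leaf 1 [(10,1),(6,2)]) (.cons (.leaf 1 [(10,1),(11,1),(4,1)]) (.cons (.leaf 1 [(10,1),(11,1),(4,1)]) (.cons (.leaf 1 [(1,1),(6,1)]) (.cons (.leaf 2 [(4,1),(1,1),(11,1)]) (.cons (.leaf 2 [(4,1),(11,1),(1,1)]) (.cons (.leaf 1 [(10,1),(4,2)]) (.cons (.leaf 1 [(10,1),(4,2)]) (.cons (.leaf 1 [(10,1),(4,2)]) (.cons (.leaf 1 [(10,1),(6,2)]) (.cons (.leaf 1 [(10,1),(12,2)]) (.cons (.leaf 1 [(10,3),(11,2),(0,2),(12,2)])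 .nil)))))))))))))) .nil)))))))))))))) (.cons (.leaf 1 [(1,2),(8,1)]) (.cons (.leaf 1 [(1,2),(8,1)]) (.cons (.leaf 1 [(1,2),(8,1)]) (.cons (.leaf 1 [(10,2),(8,1)]) (.cons (.leaf 1 [(1,1),(10,1)]) (.cons (.leaf 1 [(11,2),(1,2),(8,1)]) (.cons (.leaf 1 [(3,1),(10,1),(1,1)]) (.cons (.leaf 1 [(10,1),(1,1)]) (.cons (.keep [0,1,6,10,11] (.node (.cons (.leaf 1 []) (.cons (.leaf 1 [(9,1),(4,1)]) (.cons (.leaf 1 [(9,2),(11,1),(4,1)]) (.cons (.leaf 1 [(1,1)]) (.cons (.leaf 1 [(4,1),(9,1)]) (.cons (.leaf 1 [(4,1),(9,3),(11,1),(0,1)]) (.cons (.leaf 1 [(1,1)]) (.cons (.leaf 1 [(1,1),(4,1)]) (.cons (.leaf 1 [(1,1),(11,1),(4,1)]) (.cons (.leaf 1 [(1,1)]) (.cons (.leaf 1 [(9,1)]) (.cons (.leaf 1 [(9,3),(11,1),(0,1)]) .nil)))))))))))))) .nil)))))))))))))) (.cons (.leaf 1 [(9,2),(1,1)]) (.cons (.leaf 1 [(9,2),(1,1),(5,1)])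 (.cons (.leaf 1 [(9,2),(1,1),(5,1)]) (.cons (.leaf 1 [(1,1)]) (.cons (.leaf 1 [(1,1),(5,1)]) (.cons (.leaf 1 [(1,1),(5,1)]) (.cons (.leaf 1 [(1,1),(6,2)]) (.cons (.leaf 1 [(10,1),(1,1)]) (.cons (.leaf 1 [(10,1),(6,1),(1,1)]) .nil)))))))))))))) (.cons (.keep [1,5,6,8] (.node (.cons (.keep [4,6,7,9,10] (.node (.cons (.leaf 1 [(9,1),(11,1)]) (.cons (.leaf 1 [(9,1),(4,2),(11,2)]) (.cons (.keep [0,9,10,11,12] (.node (.cons (.leaf 1 [(4,1),(3,1),(11,1)]) (.cons (.leaf 1 [(11,1),(4,2)]) (.cons (.leaf 1 [(4,2),(11,2),(9,1)]) (.cons (.leaf 1 [(1,1),(3,1)]) (.cons (.leaf 1 [(1,1),(4,1)]) (.cons (.leaf 1 [(1,2),(9,1)]) (.cons (.leaf 1 [(10,1),(4,1),(11,1)]) (.cons (.leaf 1 [(11,1),(4,1),(10,1)]) (.cons (.leaf 1 [(4,1),(11,1),(10,1)]) (.cons (.leaf 1 [(6,1),(10,1),(11,1)]) (.cons (.leaf 1 [(12,1)]) (.cons (.keep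 [0,8,9,10,11,12] (.node (.cons (.leaf 1 [(4,1)]) (.cons (.leaf 1 [(10,1),(4,2)]) (.cons (.leaf 1 [(12,1),(4,1)]) (.cons (.leaf 1 [(4,1)]) (.cons (.leaf 1 [(4,2),(10,1)]) (.cons (.leaf 1 [(3,1),(12,1),(11,1)]) (.cons (.leaf 1 [(4,1)]) (.cons (.leaf 1 [(4,2)]) (.cons (.leaf 1 [(12,1),(4,2),(0,1)]) (.cons (.leaf 1 []) (.cons (.leaf 1 [(10,1)]) (.cons (.leaf 1 [(10,1),(12,2),(0,2)]) .nil)))))))))))))) .nil)))))))))))))) (.cons (.leaf 2 [(1,3),(11,1)]) (.cons (.leaf 1 [(1,1),(4,1),(11,1)]) (.cons (.leaf 1 [(1,2),(12,1)]) (.cons (.leaf 1 [(9,1),(1,2)]) (.cons (.leaf 1 [(9,1),(1,2)]) (.cons (.leaf 1 [(9,1),(1,2)]) (.cons (.leaf 1 [(9,1),(6,2),(1,2)]) (.cons (.leaf 1 [(10,1),(11,1),(1,1)]) (.cons (.leaf 1 [(10,2),(12,1),(1,2)]) .nil)))))))))))))) (.cons (.keep [4,5,7,9] (.node (.cons (.leaf 1 [(11,1)])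 (.cons (.leaf 1 [(4,2),(11,2)]) (.cons (.keep [0,9,10,11] (.node (.cons (.leaf 1 [(3,2),(9,2)]) (.cons (.leaf 1 [(4,2),(9,2)]) (.cons (.leaf 1 [(4,2),(11,2)]) (.cons (.leaf 1 [(1,2)]) (.cons (.leaf 1 [(1,2)]) (.cons (.leaf 1 [(1,2)]) (.cons (.leaf 1 [(9,2)]) (.cons (.leaf 1 [(4,2),(9,2)]) (.cons (.leaf 1 [(10,2),(1,2)]) (.cons (.leaf 1 [(3,2),(9,2)]) (.cons (.leaf 1 [(9,2)]) (.cons (.keep [0,8,9,10,11] (.node (.cons (.leaf 1 [(3,2)]) (.cons (.leaf 1 [(4,2)]) (.cons (.leaf 1 [(12,2),(3,2)]) (.cons (.leaf 1 [(3,2)]) (.cons (.leaf 1 [(4,2)]) (.cons (.leaf 1 [(1,2),(11,2)]) (.cons (.leaf 1 []) (.cons (.leaf 1 [(4,2)]) (.cons (.leaf 1 [(4,2),(10,2)]) (.cons (.leaf 1 [(3,2)]) (.cons (.leaf 1 []) (.cons (.leaf 1 [(12,2),(10,2),(0,2)]) .nil)))))))))))))) .nil)))))))))))))) (.cons (.leaf 1 [(1,2),(9,2)])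 (.cons (.leaf 1 [(1,2),(9,2)]) (.cons (.leaf 1 [(1,2),(9,2)]) (.cons (.leaf 1 [(1,2)]) (.cons (.leaf 1 [(1,2)]) (.cons (.leaf 1 [(1,2)]) (.cons (.leaf 1 [(6,2),(1,2)]) (.cons (.leaf 1 [(10,2),(1,2)]) (.cons (.leaf 1 [(10,2),(1,2)]) .nil)))))))))))))) (.cons (.keep [6,8,9,10] (.node (.cons (.leaf 1 [(10,1),(8,1)]) (.cons (.leaf 1 [(10,1)]) (.cons (.keep [0,8,10,11] (.node (.cons (.leaf 1 [(6,1),(10,1)]) (.cons (.leaf 1 [(4,2),(9,1),(10,2)]) (.cons (.leaf 1 [(4,2),(9,1),(10,2)]) (.cons (.leaf 1 [(1,2),(9,1)]) (.cons (.leaf 1 [(1,2),(9,1)]) (.cons (.leaf 1 [(1,2),(9,1)]) (.cons (.leaf 1 [(4,1),(10,1)]) (.cons (.leaf 1 [(4,1),(10,1)]) (.cons (.leaf 1 [(4,1),(10,1)]) (.cons (.leaf 1 [(6,1),(10,1)]) (.cons (.leaf 1 [(11,2),(9,1)]) (.cons (.keep [0,8,9,10,11] (.node (.cons (.leaf 1 [(10,1),(3,2)]) (.cons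 (.leaf 1 [(10,1),(4,2)]) (.cons (.leaf 1 [(10,1),(11,2),(3,2)]) (.cons (.leaf 1 [(1,1),(3,1)]) (.cons (.leaf 1 [(1,1),(4,1)]) (.cons (.leaf 1 [(3,1),(11,1)]) (.cons (.leaf 1 [(10,1)]) (.cons (.leaf 1 [(10,1),(4,2)]) (.cons (.leaf 1 [(10,1),(4,2),(12,2)]) (.cons (.leaf 1 [(10,1),(3,2)]) (.cons (.leaf 1 [(10,1)]) (.cons (.leaf 1 [(10,3),(11,2),(12,2),(0,2)]) .nil)))))))))))))) .nil)))))))))))))) (.cons (.leaf 1 [(1,1),(10,1),(8,1)]) (.cons (.leaf 1 [(1,1),(10,1)]) (.cons (.leaf 1 [(1,2),(11,2),(8,1)]) (.cons (.leaf 1 [(1,2),(8,1)]) (.cons (.leaf 1 [(1,2),(5,1)]) (.cons (.leaf 1 [(1,2),(8,1)]) (.cons (.leaf 1 [(6,1),(1,2)]) (.cons (.leaf 1 [(10,1),(1,1)]) (.cons (.keep [0,1,6,10,11] (.node (.cons (.leaf 1 [(4,1),(9,2),(11,1)]) (.cons (.leaf 1 [(4,1),(9,2),(11,1)]) (.cons (.leaf 1 [(4,1),(9,2),(11,1)])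 (.cons (.leaf 1 [(1,1),(9,1)]) (.cons (.leaf 1 [(1,1),(9,1)]) (.cons (.leaf 1 [(1,1),(9,1)]) (.cons (.leaf 1 [(4,1),(1,1),(11,1)]) (.cons (.leaf 1 [(4,1),(1,1),(11,1)]) (.cons (.leaf 1 [(4,1),(1,1),(11,1)]) (.cons (.leaf 1 [(11,1),(6,2),(1,1)]) (.cons (.leaf 1 [(12,1),(9,1)]) (.cons (.leaf 1 [(0,1),(9,3),(11,1),(12,1)]) .nil)))))))))))))) .nil)))))))))))))) (.cons (.leaf 1 [(9,2),(6,1),(1,1)]) (.cons (.leaf 1 [(9,2),(1,1)]) (.cons (.leaf 1 [(9,2),(1,1),(6,1)]) (.cons (.leaf 1 [(1,1),(10,1)]) (.cons (.leaf 1 [(5,2),(1,1)]) (.cons (.leaf 1 [(5,1),(10,1),(1,1)]) (.cons (.leaf 1 [(6,1),(1,1)]) (.cons (.leaf 1 [(1,1)]) (.cons (.leaf 1 [(1,1),(6,1)]) .nil)))))))))))))) (.cons (.leaf 1 []) (.cons (.leaf 1 [(5,1)]) (.cons (.leaf 1 [(5,1)]) (.cons (.leaf 1 [(6,1)]) (.cons (.leaf 1 []) (.cons (.leaf 1 [(6,1)])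 .nil))))))))))))))

theorem e_15_28 : ESB (caseOf 4 15 28) := esb_of_pieces _ (hP_cons c_15_28_0 hP_nil) t_15_28 (by
  decide +kernel)

def t_15_29 : T := (.keep [0,1,2] (.node (.cons (.leaf 1 []) (.cons (.leaf 1 [(5,1)]) (.cons (.leaf 1 [(5,1)]) (.cons (.leaf 1 [(5,1)]) (.cons (.keep [1,6,7,8] (.node (.cons (.leaf 1 []) (.cons (.leaf 1 [(5,1)]) (.cons (.leaf 1 [(5,1)]) (.cons (.leaf 1 [(5,1)]) (.cons (.leaf 1 [(10,1)]) (.cons (.leaf 1 [(10,1),(5,1)]) (.cons (.leaf 1 [(10,1),(5,1)]) (.cons (.leaf 1 [(10,1),(5,1)]) (.cons (.leaf 1 [(6,1)]) (.cons (.leaf 1 []) (.cons (.leaf 1 [(6,1)]) (.cons (.leaf 1 [(6,1)]) (.cons (.leaf 1 [(7,1)]) (.cons (.leaf 1 [(7,1)]) (.cons (.leaf 1 []) (.cons (.leaf 1 [(7,1)]) .nil)))))))))))))))))) (.cons (.keep [5,7,8,9,10] (.node (.cons (.leaf 1 [(9,1)]) (.cons (.leaf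 1 [(9,1),(5,1)]) (.cons (.leaf 1 [(9,1),(5,1)]) (.cons (.leaf 1 [(9,1),(5,1)]) (.cons (.leaf 1 []) (.cons (.leaf 1 [(5,1)]) (.cons (.leaf 1 [(5,1)]) (.cons (.leaf 1 [(5,1)]) (.cons (.leaf 1 [(9,1),(6,1)]) (.cons (.leaf 1 [(9,1)]) (.cons (.leaf 1 [(9,1),(6,1)]) (.cons (.leaf 1 [(9,1),(6,1)]) (.cons (.leaf 1 [(9,1),(7,1)]) (.cons (.leaf 1 [(9,1),(7,1)]) (.cons (.leaf 1 [(9,1)]) (.cons (.leaf 1 [(9,1),(7,1)]) .nil)))))))))))))))))) (.cons (.keep [5,6,8,9,11] (.node (.cons (.leaf 1 [(9,1)]) (.cons (.leaf 1 [(5,2)]) (.cons (.leaf 1 [(9,1),(5,1)]) (.cons (.leaf 1 [(9,1),(5,1)]) (.cons (.leaf 1 [(10,1)]) (.cons (.leaf 1 [(10,1),(5,1)]) (.cons (.leaf 1 [(10,1),(5,1)]) (.cons (.leaf 1 [(10,1),(5,1)]) (.cons (.leaf 1 []) (.cons (.leaf 1 [(1,1)]) (.cons (.leaf 1 [(5,1)]) (.cons (.leaf 1 [(5,1)]) (.cons (.leaf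 1 [(9,1),(7,1)]) (.cons (.leaf 1 [(5,1),(7,1)]) (.cons (.leaf 1 [(9,1)]) (.cons (.leaf 1 [(9,1),(7,1)]) .nil)))))))))))))))))) (.cons (.keep [1,5,6,7,9] (.node (.cons (.leaf 1 [(10,1)]) (.cons (.leaf 1 [(5,1),(10,1)]) (.cons (.leaf 1 [(5,2)]) (.cons (.leaf 1 [(10,1),(5,1)]) (.cons (.leaf 1 [(11,1)]) (.cons (.leaf 1 [(5,1),(11,1)]) (.cons (.leaf 1 [(11,1),(5,1)]) (.cons (.leaf 1 [(11,1),(5,1)]) (.cons (.leaf 1 [(6,1),(10,1)]) (.cons (.leaf 1 [(10,1)]) (.cons (.leaf 1 [(6,1),(5,1)]) (.cons (.leaf 1 [(10,1),(6,1)]) (.cons (.leaf 1 []) (.cons (.leaf 1 [(5,1)]) (.cons (.leaf 1 [(1,1)]) (.cons (.leaf 1 [(5,1)]) .nil)))))))))))))))))) (.cons (.leaf 1 [(6,1)]) (.cons (.leaf 1 []) (.cons (.leaf 1 [(6,1)]) (.cons (.leaf 1 [(6,1)]) (.cons (.leaf 1 [(7,1)]) (.cons (.leaf 1 [(7,1)]) (.cons (.leaf 1 []) (.cons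 (.leaf 1 [(7,1)]) .nil))))))))))))))))))

theorem e_15_29 : ESB (caseOf 4 15 29) := esb_of_ok (t := t_15_29) (by decide +kernel)

def t_15_30 : T := (.keep [0,1,2] (.node (.cons (.keep [2,6,7,8] (.node (.cons (.leaf 1 [(2,1)]) (.cons (.leaf 1 [(3,1)]) (.cons (.leaf 1 [(4,1)]) (.cons (.keep [9,10,11,12] (.node (.cons (.leaf 1 [(4,1)]) (.cons (.leaf 1 [(4,1)]) (.cons (.leaf 1 [(4,1)]) (.cons (.leaf 1 [(4,1)]) (.cons (.leaf 1 [(10,1)]) (.cons (.leaf 1 [(10,1),(3,1)]) (.cons (.leaf 1 [(4,1),(10,1)]) (.cons (.leaf 1 [(4,1),(0,1),(10,1)]) (.cons (.leaf 1 [(10,1),(2,1)]) (.cons (.leaf 1 [(10,1)]) (.cons (.leaf 1 [(4,1),(10,1)]) (.cons (.leaf 1 [(4,1),(0,1),(10,1)]) (.cons (.leaf 1 [(10,1),(2,1)]) (.cons (.leaf 1 [(10,1),(3,1)]) (.cons (.leaf 1 [(10,1)]) (.cons (.leaf 1 [(0,1),(10,1)]) .nil))))))))))))))))))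 (.cons (.leaf 1 []) (.cons (.leaf 1 [(3,1)]) (.cons (.leaf 1 [(4,1)]) (.cons (.leaf 1 [(1,1),(10,1)]) (.cons (.leaf 1 [(2,1)]) (.cons (.leaf 1 []) (.cons (.leaf 1 [(4,1)]) (.cons (.leaf 1 [(1,1),(11,1)]) (.cons (.leaf 1 [(2,1)]) (.cons (.leaf 1 [(3,1)]) (.cons (.leaf 1 []) (.cons (.leaf 1 [(1,1),(12,1)]) .nil)))))))))))))))))) (.cons (.keep [3,5,7,8] (.node (.cons (.leaf 2 [(10,1)]) (.cons (.leaf 1 [(3,1),(10,1)]) (.cons (.leaf 1 [(4,1),(10,1)]) (.cons (.keep [0,5,10,11,12] (.node (.cons (.leaf 1 [(2,1)]) (.cons (.leaf 1 [(3,1)]) (.cons (.leaf 1 [(4,1)]) (.cons (.leaf 1 [(11,1),(4,1)]) (.cons (.leaf 1 []) (.cons (.leaf 1 [(3,1)]) (.cons (.leaf 1 [(4,1)]) (.cons (.leaf 1 [(4,1),(11,1),(0,1)]) (.cons (.leaf 1 [(2,1)]) (.cons (.leaf 1 []) (.cons (.leaf 1 [(4,1)]) (.cons (.leaf 1 [(4,1),(11,1),(0,1)])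 (.cons (.leaf 1 [(2,1)]) (.cons (.leaf 1 [(3,1)]) (.cons (.leaf 1 []) (.cons (.leaf 1 [(11,1),(0,1)]) .nil)))))))))))))))))) (.cons (.leaf 1 [(1,1)]) (.cons (.leaf 1 [(1,1)]) (.cons (.leaf 1 [(1,1)]) (.cons (.leaf 1 [(1,1)]) (.cons (.leaf 1 [(6,1),(1,1)]) (.cons (.leaf 1 [(10,1)]) (.cons (.leaf 1 [(4,1),(10,1)]) (.cons (.leaf 1 [(11,1),(1,1)]) (.cons (.leaf 1 [(7,1),(1,1)]) (.cons (.leaf 1 [(3,1),(10,1)]) (.cons (.leaf 1 [(10,1)]) (.cons (.leaf 1 [(12,1),(1,1)]) .nil)))))))))))))))))) (.cons (.keep [4,5,6,8] (.node (.cons (.leaf 1 [(10,1),(2,1)]) (.cons (.leaf 2 [(10,1)]) (.cons (.leaf 1 [(4,1),(10,1)]) (.cons (.keep [0,6,10,11,12] (.node (.cons (.leaf 1 [(4,1),(11,1)]) (.cons (.leaf 1 [(4,1),(11,1)]) (.cons (.leaf 1 [(4,1),(11,1)]) (.cons (.leaf 1 [(4,1),(11,1)]) (.cons (.leaf 1 [(1,1)]) (.cons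 (.leaf 1 [(1,1)]) (.cons (.leaf 1 [(1,1)]) (.cons (.leaf 1 [(1,1)]) (.cons (.leaf 1 [(6,1),(1,1)]) (.cons (.leaf 1 [(12,1)]) (.cons (.leaf 1 [(4,1),(12,1)]) (.cons (.leaf 1 [(0,1),(4,1),(11,1),(12,1)]) (.cons (.leaf 1 [(7,1),(1,1)]) (.cons (.leaf 1 [(3,1),(12,1)]) (.cons (.leaf 1 [(12,1)]) (.cons (.leaf 1 [(0,1),(11,1),(12,1)]) .nil)))))))))))))))))) (.cons (.leaf 1 [(10,1)]) (.cons (.leaf 1 [(1,1),(5,1)]) (.cons (.leaf 1 [(4,1),(10,1)]) (.cons (.leaf 1 [(1,1),(11,1)]) (.cons (.leaf 1 [(1,1)]) (.cons (.leaf 1 [(1,1)]) (.cons (.leaf 1 [(1,1)]) (.cons (.leaf 1 [(1,1)]) (.cons (.leaf 1 [(10,1),(2,1)]) (.cons (.leaf 1 [(7,1),(1,1)]) (.cons (.leaf 1 [(10,1)]) (.cons (.leaf 1 [(12,1),(1,1)]) .nil)))))))))))))))))) (.cons (.keep [0,5,6,7] (.node (.cons (.leaf 1 [(10,1),(2,1)]) (.cons (.leaf 1 [(10,1),(3,1)])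 (.cons (.leaf 2 [(10,1)]) (.cons (.keep [0,7,10,11,12] (.node (.cons (.leaf 1 [(4,1),(11,1)]) (.cons (.leaf 1 [(4,1),(11,1)]) (.cons (.leaf 1 [(4,1),(11,1)]) (.cons (.leaf 1 [(4,1),(11,1)]) (.cons (.leaf 1 [(12,1)]) (.cons (.leaf 1 [(1,1),(5,1)]) (.cons (.leaf 1 [(4,1),(12,1)]) (.cons (.leaf 1 [(4,1),(0,1),(11,1),(12,1)]) (.cons (.leaf 1 [(1,1)]) (.cons (.leaf 1 [(1,1)]) (.cons (.leaf 1 [(1,1)]) (.cons (.leaf 1 [(1,1)]) (.cons (.leaf 1 [(12,1),(2,1)]) (.cons (.leaf 1 [(7,1),(1,1)]) (.cons (.leaf 1 [(12,1)]) (.cons (.leaf 1 [(0,1),(11,1),(12,1)]) .nil)))))))))))))))))) (.cons (.leaf 1 [(10,1)]) (.cons (.leaf 1 [(10,1),(3,1)]) (.cons (.leaf 1 [(1,1),(5,1)]) (.cons (.leaf 1 [(1,1),(11,1)]) (.cons (.leaf 1 [(10,1),(2,1)]) (.cons (.leaf 1 [(10,1)]) (.cons (.leaf 1 [(1,1),(6,1)]) (.cons (.leaf 1 [(1,1),(12,1)])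 (.cons (.leaf 1 [(1,1)]) (.cons (.leaf 1 [(1,1)]) (.cons (.leaf 1 [(1,1)]) (.cons (.leaf 1 [(1,1)]) .nil)))))))))))))))))) (.cons (.leaf 1 []) (.cons (.leaf 1 [(5,1)]) (.cons (.leaf 1 [(5,1)]) (.cons (.leaf 1 [(5,1)]) (.cons (.leaf 1 [(6,1)]) (.cons (.leaf 1 []) (.cons (.leaf 1 [(6,1)]) (.cons (.leaf 1 [(6,1)]) (.cons (.leaf 1 [(7,1)]) (.cons (.leaf 1 [(7,1)]) (.cons (.leaf 1 []) (.cons (.leaf 1 [(7,1)]) .nil))))))))))))))))))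

theorem e_15_30 : ESB (caseOf 4 15 30) := esb_of_ok (t := t_15_30) (by decide +kernel)

def t_15_31 : T := (.keep [0,1,2] (.node (.cons (.leaf 1 []) (.cons (.leaf 1 [(5,1)]) (.cons (.leaf 1 [(5,1)]) (.cons (.leaf 1 [(5,1)]) (.cons (.leaf 1 [(5,1)]) (.cons (.leaf 1 [(6,1)]) (.cons (.leaf 1 []) (.cons (.leaf 1 [(6,1)]) (.cons (.leaf 1 [(6,1)]) (.cons (.leaf 1 [(6,1)]) (.cons (.leaf 1 [(7,1)]) (.cons (.leaf 1 [(7,1)]) (.cons (.leaf 1 []) (.cons (.leaf 1 [(7,1)]) (.cons (.leaf 1 [(7,1)]) (.cons (.leaf 1 [(8,1)]) (.cons (.leaf 1 [(8,1)]) (.cons (.leaf 1 [(8,1)]) (.cons (.leaf 1 []) (.cons (.leaf 1 [(8,1)]) .nil))))))))))))))))))))))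

theorem e_15_31 : ESB (caseOf 4 15 31) := esb_of_ok (t := t_15_31) (by decide +kernel)

def t_16_16 : T := (.keep [0,1,2] (.node (.cons (.leaf 1 []) .nil)))

theorem e_16_16 : ESB (caseOf 4 16 16) := esb_of_ok (t := t_16_16) (by decide +kernel)

def t_16_17 : T := (.keep [0,1,2] (.node (.cons (.leaf 1 [(3,1)]) (.cons (.leaf 1 []) .nil))))

theorem e_16_17 : ESB (caseOf 4 16 17) := esb_of_ok (t := t_16_17) (by decide +kernel)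

def t_16_18 : T := (.keep [0,1,2] (.node (.cons (.leaf 1 [(3,1)]) (.cons (.leaf 1 []) .nil))))

theorem e_16_18 : ESB (caseOf 4 16 18) := esb_of_ok (t := t_16_18) (by decide +kernel)

def t_16_19 : T := (.keep [0,1,2] (.node (.cons (.leaf 1 [(4,1)]) (.cons (.leaf 1 [(4,1)]) (.cons (.leaf 1 []) .nil)))))

theorem e_16_19 : ESB (caseOf 4 16 19) := esb_of_ok (t := t_16_19) (by decide +kernel)

def t_16_20 : T := (.keep [0,1,2] (.node (.cons (.leaf 1 [(3,1)]) (.cons (.leaf 1 []) .nil))))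

theorem e_16_20 : ESB (caseOf 4 16 20) := esb_of_ok (t := t_16_20) (by decide +kernel)

def t_16_21 : T := (.keep [0,1,2] (.node (.cons (.leaf 1 [(4,1)]) (.cons (.leaf 1 [(4,1)]) (.cons (.leaf 1 []) .nil)))))

theorem e_16_21 : ESB (caseOf 4 16 21) := esb_of_ok (t := t_16_21) (by decide +kernel)

def t_16_22 : T := (.keep [0,1,2] (.node (.cons (.leaf 1 [(4,1)]) (.cons (.leaf 1 [(4,1)]) (.cons (.leaf 1 []) .nil)))))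

theorem e_16_22 : ESB (caseOf 4 16 22) := esb_of_ok (t := t_16_22) (by decide +kernel)

def t_16_23 : T := (.keep [0,1,2] (.node (.cons (.leaf 1 [(5,1)]) (.cons (.leaf 1 [(5,1)]) (.cons (.leaf 1 [(5,1)]) (.cons (.leaf 1 []) .nil))))))

theorem e_16_23 : ESB (caseOf 4 16 23) := esb_of_ok (t := t_16_23) (by decide +kernel)

def t_16_24 : T := (.keep [0,1,2] (.node (.cons (.leaf 1 [(3,1)]) (.cons (.leaf 1 []) .nil))))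

theorem e_16_24 : ESB (caseOf 4 16 24) := esb_of_ok (t := t_16_24) (by decide +kernel)

def t_16_25 : T := (.keep [0,1,2] (.node (.cons (.leaf 1 [(4,1)]) (.cons (.leaf 1 [(4,1)]) (.cons (.leaf 1 []) .nil)))))

theorem e_16_25 : ESB (caseOf 4 16 25) := esb_of_ok (t := t_16_25) (by decide +kernel)

def t_16_26 : T := (.keep [0,1,2] (.node (.cons (.leaf 1 [(4,1)]) (.cons (.leaf 1 [(4,1)]) (.cons (.leaf 1 []) .nil)))))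

theorem e_16_26 : ESB (caseOf 4 16 26) := esb_of_ok (t := t_16_26) (by decide +kernel)

def t_16_27 : T := (.keep [0,1,2] (.node (.cons (.leaf 1 [(5,1)]) (.cons (.leaf 1 [(5,1)]) (.cons (.leaf 1 [(5,1)]) (.cons (.leaf 1 []) .nil))))))

theorem e_16_27 : ESB (caseOf 4 16 27) := esb_of_ok (t := t_16_27) (by decide +kernel)

def t_16_28 : T := (.keep [0,1,2] (.node (.cons (.leaf 1 [(4,1)]) (.cons (.leaf 1 [(4,1)]) (.cons (.leaf 1 []) .nil)))))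

theorem e_16_28 : ESB (caseOf 4 16 28) := esb_of_ok (t := t_16_28) (by decide +kernel)

def t_16_29 : T := (.keep [0,1,2] (.node (.cons (.leaf 1 [(5,1)]) (.cons (.leaf 1 [(5,1)]) (.cons (.leaf 1 [(5,1)]) (.cons (.leaf 1 []) .nil))))))

theorem e_16_29 : ESB (caseOf 4 16 29) := esb_of_ok (t := t_16_29) (by decide +kernel)

def t_16_30 : T := (.keep [0,1,2] (.node (.cons (.leaf 1 [(5,1)]) (.cons (.leaf 1 [(5,1)]) (.cons (.leaf 1 [(5,1)]) (.cons (.leaf 1 []) .nil))))))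

theorem e_16_30 : ESB (caseOf 4 16 30) := esb_of_ok (t := t_16_30) (by decide +kernel)

def t_16_31 : T := (.keep [0,1,2] (.node (.cons (.leaf 1 [(6,1)]) (.cons (.leaf 1 [(6,1)]) (.cons (.leaf 1 [(6,1)]) (.cons (.leaf 1 [(6,1)]) (.cons (.leaf 1 []) .nil)))))))

theorem e_16_31 : ESB (caseOf 4 16 31) := esb_of_ok (t := t_16_31) (by decide +kernel)

def t_17_16 : T := (.keep [0,1,2] (.node (.cons (.keep [0,4,5,6] (.node (.cons (.keep [2,5,6,7] (.node (.cons (.keep [2,4,5,6,7] (.node (.cons (.keep [2,4,5,6,7,8] (.node (.cons (.leaf 1 [(2,1)]) (.cons (.leaf 1 []) .nil)))) (.cons (.keep [0,1,4,5,6,7] (.node (.cons (.leaf 1 [(2,1)]) (.cons (.leaf 1 []) .nil)))) .nil)))) (.cons (.keep [0,1,4,5,7] (.node (.cons (.keep [2,4,5,6,7,8] (.node (.cons (.leaf 1 [(2,1)]) (.cons (.leaf 1 []) .nil)))) (.cons (.keep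 [0,1,4,5,6,7] (.node (.cons (.leaf 1 [(2,1)]) (.cons (.leaf 1 []) .nil)))) .nil)))) .nil)))) (.cons (.keep [0,1,6,7] (.node (.cons (.keep [2,4,5,6,7] (.node (.cons (.keep [2,4,5,6,7,8] (.node (.cons (.leaf 1 [(2,1)]) (.cons (.leaf 1 []) .nil)))) (.cons (.keep [0,1,4,5,6,7] (.node (.cons (.leaf 1 [(2,1)]) (.cons (.leaf 1 []) .nil)))) .nil)))) (.cons (.keep [0,1,4,5,7] (.node (.cons (.keep [2,4,5,6,7,8] (.node (.cons (.leaf 1 [(2,1)]) (.cons (.leaf 1 []) .nil)))) (.cons (.keep [0,1,4,5,6,7] (.node (.cons (.leaf 1 [(2,1)]) (.cons (.leaf 1 []) .nil)))) .nil)))) .nil)))) .nil)))) (.cons (.leaf 1 []) .nil))))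

theorem e_17_16 : ESB (caseOf 4 17 16) := esb_of_ok (t := t_17_16) (by decide +kernel)

def t_17_17 : T := (.keep [0,1,2] (.node (.cons (.leaf 1 []) (.cons (.leaf 1 [(3,1)]) (.cons (.leaf 1 [(4,1)]) (.cons (.leaf 1 []) .nil))))))

theorem e_17_17 : ESB (caseOf 4 17 17) := esb_of_ok (t := t_17_17) (by decide +kernel)

def t_17_18 : T := (.keep [0,1,2] (.node (.cons (.keep [4,5,6,7] (.node (.cons (.keep [2,5,6,8] (.node (.cons (.keep [4,5,6,7] (.node (.cons (.leaf 2 [(7,1)]) (.cons (.leaf 1 [(2,1)]) (.cons (.leaf 2 [(7,1),(1,1)]) (.cons (.leaf 1 []) .nil)))))) (.cons (.keep [0,3,5,6] (.node (.cons (.leaf 2 [(6,1),(8,1)]) (.cons (.leaf 1 [(2,1),(6,1)]) (.cons (.leaf 2 [(6,1),(8,1),(1,1)]) (.cons (.leaf 1 [(6,1)]) .nil)))))) (.cons (.leaf 1 [(4,1)]) (.cons (.leaf 1 []) .nil)))))) (.cons (.leaf 1 [(2,1)])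 (.cons (.keep [1,4,5,7,8] (.node (.cons (.keep [4,5,7,8,9] (.node (.cons (.leaf 2 [(7,1),(6,1)]) (.cons (.leaf 1 [(6,1),(2,1)]) (.cons (.leaf 2 [(7,1),(6,1),(1,1)]) (.cons (.leaf 1 [(6,1)]) .nil)))))) (.cons (.keep [3,5,6,7,8] (.node (.cons (.leaf 2 [(5,1),(6,1),(8,1)]) (.cons (.leaf 1 [(6,1),(2,1),(5,1)]) (.cons (.leaf 2 [(5,1),(6,1),(8,1),(1,1)]) (.cons (.leaf 1 [(6,1),(5,1)]) .nil)))))) (.cons (.leaf 1 [(4,1),(5,1)]) (.cons (.leaf 1 [(5,1)]) .nil)))))) (.cons (.leaf 1 []) .nil)))))) (.cons (.keep [0,3,6,7] (.node (.cons (.keep [2,5,6,7,8] (.node (.cons (.keep [4,5,7,8,9] (.node (.cons (.leaf 2 [(7,1)]) (.cons (.leaf 1 [(2,1),(7,1)]) (.cons (.leaf 1 [(4,1),(1,1)]) (.cons (.leaf 1 [(7,1)]) .nil)))))) (.cons (.keep [3,5,6,7,8] (.node (.cons (.leaf 2 [(8,1),(5,1)]) (.cons (.leaf 1 [(2,1),(5,1),(8,1)])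 (.cons (.leaf 1 [(4,1),(1,1)]) (.cons (.leaf 1 [(8,1),(5,1)]) .nil)))))) (.cons (.leaf 1 [(4,1),(7,1)]) (.cons (.leaf 1 [(7,1)]) .nil)))))) (.cons (.leaf 1 [(2,1),(6,1)]) (.cons (.keep [1,5,6,7,8] (.node (.cons (.keep [4,5,7,8,9] (.node (.cons (.leaf 2 [(7,1),(6,1)]) (.cons (.leaf 1 [(2,1),(6,1),(7,1)]) (.cons (.leaf 1 [(4,1),(1,1)]) (.cons (.leaf 1 [(7,1),(6,1)]) .nil)))))) (.cons (.keep [3,5,6,7,8] (.node (.cons (.leaf 2 [(8,1),(6,1),(5,1)]) (.cons (.leaf 1 [(2,1),(6,1),(5,1),(8,1)]) (.cons (.leaf 1 [(4,1),(1,1)]) (.cons (.leaf 1 [(8,1),(6,1),(5,1)]) .nil)))))) (.cons (.leaf 1 [(4,1),(7,1),(5,1)]) (.cons (.leaf 1 [(7,1),(5,1)]) .nil)))))) (.cons (.leaf 1 [(6,1)]) .nil)))))) (.cons (.leaf 1 [(4,1)]) (.cons (.leaf 1 []) .nil))))))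

theorem e_17_18 : ESB (caseOf 4 17 18) := esb_of_ok (t := t_17_18) (by decide +kernel)

def t_17_19 : T := (.keep [0,1,2] (.node (.cons (.leaf 1 []) (.cons (.leaf 1 [(3,1)]) (.cons (.leaf 1 [(3,1)]) (.cons (.leaf 1 [(5,1)]) (.cons (.leaf 1 [(5,1)]) (.cons (.leaf 1 []) .nil))))))))

theorem e_17_19 : ESB (caseOf 4 17 19) := esb_of_ok (t := t_17_19) (by decide +kernel)

def t_17_20 : T := (.keep [0,1,2] (.node (.cons (.keep [4,5,6,7] (.node (.cons (.keep [2,4,5,6,8] (.node (.cons (.leaf 2 [(7,1)]) (.cons (.leaf 1 [(2,1)]) (.cons (.leaf 2 [(7,1),(1,1)]) (.cons (.leaf 1 []) .nil)))))) (.cons (.keep [2,3,5,6] (.node (.cons (.leaf 2 [(7,1)]) (.cons (.leaf 1 [(2,1)]) (.cons (.leaf 2 [(7,1),(1,1)]) (.cons (.leaf 1 []) .nil)))))) (.cons (.keep [1,4,5,8] (.node (.cons (.leaf 2 [(7,1)]) (.cons (.leaf 1 [(2,1)])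 (.cons (.leaf 2 [(7,1),(1,1)]) (.cons (.leaf 1 []) .nil)))))) (.cons (.keep [0,1,3,5] (.node (.cons (.leaf 2 [(8,1)]) (.cons (.leaf 1 [(2,1)]) (.cons (.leaf 2 [(8,1),(1,1)]) (.cons (.leaf 1 []) .nil)))))) .nil)))))) (.cons (.keep [0,3,5,7] (.node (.cons (.keep [2,4,6,7,8] (.node (.cons (.leaf 2 [(7,1)]) (.cons (.leaf 1 [(2,1),(7,1)]) (.cons (.leaf 1 [(4,1),(1,1)]) (.cons (.leaf 1 [(7,1)]) .nil)))))) (.cons (.keep [2,3,6,7] (.node (.cons (.leaf 2 [(7,1)]) (.cons (.leaf 1 [(2,1),(7,1)]) (.cons (.leaf 1 [(4,1),(1,1)]) (.cons (.leaf 1 [(7,1)]) .nil)))))) (.cons (.keep [1,4,6,8] (.node (.cons (.leaf 2 [(7,1)]) (.cons (.leaf 1 [(2,1),(7,1)]) (.cons (.leaf 1 [(4,1),(1,1)]) (.cons (.leaf 1 [(7,1)]) .nil)))))) (.cons (.keep [0,1,3,6] (.node (.cons (.leaf 2 [(8,1)]) (.cons (.leaf 1 [(2,1),(8,1)]) (.cons (.leaf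 1 [(4,1),(1,1)]) (.cons (.leaf 1 [(8,1)]) .nil)))))) .nil)))))) (.cons (.leaf 1 [(4,1)]) (.cons (.leaf 1 []) .nil))))))

theorem e_17_20 : ESB (caseOf 4 17 20) := esb_of_ok (t := t_17_20) (by decide +kernel)

def t_17_21 : T := (.keep [0,1,2] (.node (.cons (.leaf 1 []) (.cons (.leaf 1 [(3,1)]) (.cons (.leaf 1 [(3,1)]) (.cons (.leaf 1 [(5,1)]) (.cons (.leaf 1 [(5,1)]) (.cons (.leaf 1 []) .nil))))))))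

theorem e_17_21 : ESB (caseOf 4 17 21) := esb_of_ok (t := t_17_21) (by decide +kernel)

def t_17_22 : T := (.keep [0,1,2] (.node (.cons (.keep [4,5,6,8] (.node (.cons (.leaf 2 [(6,1)]) (.cons (.keep [2,6,7,8] (.node (.cons (.keep [2,6,8,9] (.node (.cons (.keep [4,5,6,9] (.node (.cons (.leaf 2 [(6,1)]) (.cons (.leaf 1 [(8,1)]) (.cons (.leaf 1 [(2,1)]) (.cons (.leaf 2 [(6,1),(1,1)]) (.cons (.leaf 1 [(8,1),(1,1)]) (.cons (.leaf 1 []) .nil)))))))) (.cons (.keep [3,5,6,7] (.node (.cons (.leaf 2 [(6,1)]) (.cons (.leaf 1 [(8,1),(6,1)]) (.cons (.leaf 1 [(2,1),(6,1)]) (.cons (.leaf 1 [(5,1),(1,1)]) (.cons (.leaf 1 [(8,1),(6,1),(1,1)]) (.cons (.leaf 1 [(6,1)]) .nil)))))))) (.cons (.keep [0,3,4,6] (.node (.cons (.leaf 2 [(7,1),(8,1)]) (.cons (.leaf 1 [(7,1),(9,1)]) (.cons (.leaf 1 [(2,1),(7,1)]) (.cons (.leaf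 2 [(7,1),(8,1),(1,1)]) (.cons (.leaf 1 [(7,1),(9,1),(1,1)]) (.cons (.leaf 1 [(7,1)]) .nil)))))))) (.cons (.leaf 1 [(5,1)]) (.cons (.leaf 1 [(5,1)]) (.cons (.leaf 1 []) .nil)))))))) (.cons (.leaf 2 [(8,1),(3,1)]) (.cons (.leaf 1 [(2,1),(3,1)]) (.cons (.keep [1,6,7,8,9] (.node (.cons (.keep [4,5,6,8,10] (.node (.cons (.leaf 2 [(6,1)]) (.cons (.leaf 1 [(9,1)]) (.cons (.leaf 1 [(2,1)]) (.cons (.leaf 2 [(6,1),(1,1)]) (.cons (.leaf 1 [(9,1),(1,1)]) (.cons (.leaf 1 []) .nil)))))))) (.cons (.keep [3,5,6,7,8] (.node (.cons (.leaf 2 [(6,1)]) (.cons (.leaf 1 [(10,1),(6,1)]) (.cons (.leaf 1 [(2,1),(6,1)]) (.cons (.leaf 1 [(5,1),(1,1)]) (.cons (.leaf 1 [(10,1),(6,1),(1,1)]) (.cons (.leaf 1 [(6,1)]) .nil)))))))) (.cons (.keep [0,3,4,6,8] (.node (.cons (.leaf 2 [(7,1),(8,1)]) (.cons (.leaf 1 [(7,1),(10,1)]) (.cons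 (.leaf 1 [(2,1),(7,1)]) (.cons (.leaf 2 [(7,1),(8,1),(1,1)]) (.cons (.leaf 1 [(7,1),(10,1),(1,1)]) (.cons (.leaf 1 [(7,1)]) .nil)))))))) (.cons (.leaf 1 [(5,1)]) (.cons (.leaf 1 [(5,1)]) (.cons (.leaf 1 []) .nil)))))))) (.cons (.leaf 2 [(8,1),(3,1)]) (.cons (.leaf 1 [(7,1)]) .nil)))))))) (.cons (.leaf 1 [(2,1)]) (.cons (.leaf 2 [(6,1),(1,1)]) (.cons (.keep [1,5,6,7,9] (.node (.cons (.keep [2,6,7,9,10] (.node (.cons (.leaf 1 [(4,1),(7,2)]) (.cons (.leaf 1 [(7,2)]) (.cons (.leaf 1 [(7,2),(4,1)]) (.cons (.leaf 1 [(5,1),(7,1)]) (.cons (.leaf 1 [(1,1),(5,2)]) (.cons (.leaf 1 [(7,1)]) .nil)))))))) (.cons (.leaf 2 [(9,1),(3,1),(6,1)]) (.cons (.leaf 1 [(2,1),(6,1),(3,1)]) (.cons (.keep [1,7,8,9,10] (.node (.cons (.leaf 1 [(4,1),(8,2),(6,2)]) (.cons (.leaf 1 [(8,2),(6,2)]) (.cons (.leaf 1 [(8,2),(6,2),(4,1)])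 (.cons (.leaf 1 [(5,1),(8,1),(6,1)]) (.cons (.leaf 1 [(1,1),(5,2)]) (.cons (.leaf 1 [(8,1),(6,1)]) .nil)))))))) (.cons (.leaf 2 [(9,1),(3,1),(6,1)]) (.cons (.leaf 1 [(8,1)]) .nil)))))))) (.cons (.leaf 1 []) .nil)))))))) (.cons (.keep [3,5,7,8] (.node (.cons (.leaf 2 [(6,1)]) (.cons (.keep [2,6,7,8,9] (.node (.cons (.keep [2,6,8,9] (.node (.cons (.keep [4,5,6,9] (.node (.cons (.leaf 2 [(6,1)]) (.cons (.leaf 1 [(8,1)]) (.cons (.leaf 1 [(2,1)]) (.cons (.leaf 2 [(6,1),(1,1)]) (.cons (.leaf 1 [(8,1),(1,1)]) (.cons (.leaf 1 []) .nil)))))))) (.cons (.keep [3,5,6,7] (.node (.cons (.leaf 2 [(6,1)]) (.cons (.leaf 1 [(8,1),(6,1)]) (.cons (.leaf 1 [(2,1),(6,1)]) (.cons (.leaf 1 [(5,1),(1,1)]) (.cons (.leaf 1 [(8,1),(6,1),(1,1)]) (.cons (.leaf 1 [(6,1)]) .nil)))))))) (.cons (.keep [0,3,4,6] (.node (.cons (.leaf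 2 [(7,1),(8,1)]) (.cons (.leaf 1 [(7,1),(9,1)]) (.cons (.leaf 1 [(2,1),(7,1)]) (.cons (.leaf 2 [(7,1),(8,1),(1,1)]) (.cons (.leaf 1 [(7,1),(9,1),(1,1)]) (.cons (.leaf 1 [(7,1)]) .nil)))))))) (.cons (.leaf 1 [(5,1)]) (.cons (.leaf 1 [(5,1)]) (.cons (.leaf 1 []) .nil)))))))) (.cons (.leaf 2 [(8,1)]) (.cons (.leaf 1 [(2,1)]) (.cons (.keep [1,5,6,8,10] (.node (.cons (.keep [4,5,6,7,10] (.node (.cons (.leaf 2 [(6,1),(8,2)]) (.cons (.leaf 1 []) (.cons (.leaf 1 [(8,1),(2,1)]) (.cons (.leaf 2 [(6,1),(8,2),(1,1)]) (.cons (.leaf 1 [(1,1)]) (.cons (.leaf 1 [(8,1)]) .nil)))))))) (.cons (.keep [5,6,8,9,10] (.node (.cons (.leaf 1 [(4,1),(7,2)]) (.cons (.leaf 1 [(10,1),(9,1)]) (.cons (.leaf 1 [(2,1),(9,1)]) (.cons (.leaf 1 [(5,1),(7,1),(1,1)]) (.cons (.leaf 1 [(10,1),(9,1),(1,1)]) (.cons (.leaf 1 [(9,1)]) .nil))))))))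 (.cons (.keep [4,6,7,9,10] (.node (.cons (.leaf 1 [(4,1),(7,2),(6,1)]) (.cons (.leaf 1 [(9,1),(10,1)]) (.cons (.leaf 1 [(2,1),(9,1)]) (.cons (.leaf 1 [(5,1),(7,1),(6,1),(1,1)]) (.cons (.leaf 1 [(9,1),(10,1),(1,1)]) (.cons (.leaf 1 [(9,1)]) .nil)))))))) (.cons (.leaf 1 [(5,1),(6,1)]) (.cons (.leaf 1 [(5,1),(6,1)]) (.cons (.leaf 1 [(6,1)]) .nil)))))))) (.cons (.leaf 2 [(8,1),(1,1)]) (.cons (.leaf 1 []) .nil)))))))) (.cons (.leaf 1 [(2,1),(6,1)]) (.cons (.leaf 1 [(5,1),(1,1)]) (.cons (.keep [1,6,7,8,9] (.node (.cons (.keep [2,6,7,8,9] (.node (.cons (.leaf 1 [(4,1),(7,1)]) (.cons (.leaf 1 [(7,1)]) (.cons (.leaf 1 [(7,1),(4,1)]) (.cons (.leaf 1 [(5,1)]) (.cons (.leaf 1 [(5,1)]) (.cons (.leaf 1 []) .nil)))))))) (.cons (.leaf 2 [(8,1)]) (.cons (.leaf 1 [(2,1)]) (.cons (.keep [5,6,7,8,10] (.node (.cons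 (.leaf 1 [(4,1),(7,2),(8,1)]) (.cons (.leaf 1 [(7,2),(8,1)]) (.cons (.leaf 1 [(7,2),(8,1),(4,1)]) (.cons (.leaf 1 [(5,1),(7,1),(8,1)]) (.cons (.leaf 1 [(5,2),(1,1),(8,1)]) (.cons (.leaf 1 [(7,1),(8,1)]) .nil)))))))) (.cons (.leaf 2 [(8,1),(1,1)]) (.cons (.leaf 1 []) .nil)))))))) (.cons (.leaf 1 [(6,1)]) .nil)))))))) (.cons (.keep [0,3,4,8] (.node (.cons (.leaf 2 [(7,1),(8,1)]) (.cons (.keep [2,6,7,8,9] (.node (.cons (.keep [2,6,7,8,10] (.node (.cons (.keep [4,5,6,8] (.node (.cons (.leaf 2 [(6,1)]) (.cons (.leaf 1 [(8,1)]) (.cons (.leaf 1 [(2,1)]) (.cons (.leaf 2 [(6,1),(1,1)]) (.cons (.leaf 1 [(8,1),(1,1)]) (.cons (.leaf 1 []) .nil)))))))) (.cons (.keep [3,5,6,8,9] (.node (.cons (.leaf 2 [(10,1)]) (.cons (.leaf 1 [(8,1)]) (.cons (.leaf 1 [(2,1)]) (.cons (.leaf 2 [(10,1),(1,1)]) (.cons (.leaf 1 [(8,1),(1,1)])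 (.cons (.leaf 1 []) .nil)))))))) (.cons (.keep [3,4,6,8,9] (.node (.cons (.leaf 2 [(10,1),(7,1)]) (.cons (.leaf 1 [(8,1)]) (.cons (.leaf 1 [(2,1)]) (.cons (.leaf 2 [(10,1),(7,1),(1,1)]) (.cons (.leaf 1 [(8,1),(1,1)]) (.cons (.leaf 1 []) .nil)))))))) (.cons (.leaf 1 [(5,1),(1,1)]) (.cons (.leaf 1 [(9,1),(5,1)]) (.cons (.leaf 1 [(9,1)]) .nil)))))))) (.cons (.leaf 2 [(8,1),(3,1)]) (.cons (.leaf 1 [(8,1),(2,1),(3,1)]) (.cons (.keep [1,6,7,9,10] (.node (.cons (.keep [4,5,6,8,9] (.node (.cons (.leaf 2 [(6,1)]) (.cons (.leaf 1 [(10,1)]) (.cons (.leaf 1 [(2,1)]) (.cons (.leaf 2 [(6,1),(1,1)]) (.cons (.leaf 1 [(10,1),(1,1)]) (.cons (.leaf 1 []) .nil)))))))) (.cons (.keep [3,5,6,8,9] (.node (.cons (.leaf 2 [(10,1),(8,1)]) (.cons (.leaf 1 [(6,1),(10,1)]) (.cons (.leaf 1 [(2,1)]) (.cons (.leaf 2 [(10,1),(8,1),(1,1)])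 (.cons (.leaf 1 [(6,1),(10,1),(1,1)]) (.cons (.leaf 1 []) .nil)))))))) (.cons (.keep [3,4,6,8,9] (.node (.cons (.leaf 2 [(10,1),(8,1),(7,1)]) (.cons (.leaf 1 [(10,1),(6,1)]) (.cons (.leaf 1 [(2,1)]) (.cons (.leaf 2 [(10,1),(8,1),(7,1),(1,1)]) (.cons (.leaf 1 [(10,1),(6,1),(1,1)]) (.cons (.leaf 1 []) .nil)))))))) (.cons (.leaf 1 [(5,1),(1,1)]) (.cons (.leaf 1 [(9,1),(5,1),(6,1)]) (.cons (.leaf 1 [(9,1),(6,1)]) .nil)))))))) (.cons (.leaf 1 [(5,1),(1,1)]) (.cons (.leaf 1 [(9,1)]) .nil)))))))) (.cons (.leaf 1 [(2,1),(7,1)]) (.cons (.leaf 2 [(7,1),(8,1),(1,1)]) (.cons (.keep [1,6,7,8,9] (.node (.cons (.keep [2,6,7,8,10] (.node (.cons (.leaf 1 [(4,1),(7,1)]) (.cons (.leaf 1 [(9,1),(7,2)]) (.cons (.leaf 1 [(9,1),(7,2),(4,1)]) (.cons (.leaf 1 [(5,1),(1,1)]) (.cons (.leaf 1 [(9,1),(5,2),(1,1)]) (.cons (.leaf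 1 [(9,1),(7,1)]) .nil)))))))) (.cons (.leaf 2 [(8,1),(3,1),(6,1)]) (.cons (.leaf 1 [(8,1),(2,1),(6,1),(3,1)]) (.cons (.keep [1,6,7,8,9,10] (.node (.cons (.leaf 1 [(4,1),(7,1)]) (.cons (.leaf 1 [(9,1),(7,2)]) (.cons (.leaf 1 [(9,1),(7,2),(4,1)]) (.cons (.leaf 1 [(5,1),(1,1)]) (.cons (.leaf 1 [(9,1),(5,2),(1,1)]) (.cons (.leaf 1 [(9,1),(7,1)]) .nil)))))))) (.cons (.leaf 1 [(5,1),(1,1)]) (.cons (.leaf 1 [(9,1)]) .nil)))))))) (.cons (.leaf 1 [(7,1)]) .nil)))))))) (.cons (.leaf 1 [(5,1)]) (.cons (.leaf 1 [(5,1)]) (.cons (.leaf 1 []) .nil))))))))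

theorem e_17_22 : ESB (caseOf 4 17 22) := esb_of_ok (t := t_17_22) (by decide +kernel)

def t_17_23 : T := (.keep [0,1,2] (.node (.cons (.leaf 1 []) (.cons (.leaf 1 [(3,1)]) (.cons (.leaf 1 [(3,1)]) (.cons (.leaf 1 [(3,1)]) (.cons (.leaf 1 [(6,1)]) (.cons (.leaf 1 [(6,1)]) (.cons (.leaf 1 [(6,1)]) (.cons (.leaf 1 []) .nil))))))))))

theorem e_17_23 : ESB (caseOf 4 17 23) := esb_of_ok (t := t_17_23) (by decide +kernel)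

def t_17_24 : T := (.keep [0,1,2] (.node (.cons (.keep [4,5,6,7] (.node (.cons (.keep [4,5,6,7,8] (.node (.cons (.keep [4,5,6,8,9] (.node (.cons (.leaf 2 [(6,1),(5,1),(7,1)]) (.cons (.leaf 1 [(2,1)]) (.cons (.leaf 2 [(6,1),(5,1),(7,1),(1,1)]) (.cons (.leaf 1 []) .nil)))))) (.cons (.keep [2,5,6,7,8] (.node (.cons (.leaf 1 [(5,1)]) (.cons (.leaf 1 [(2,1)]) (.cons (.leaf 1 [(5,1),(1,1)]) (.cons (.leaf 1 []) .nil)))))) (.cons (.leaf 1 [(6,1),(5,1),(4,1),(1,1)]) (.cons (.keep [0,1,5,6,7] (.node (.cons (.keep [2,6,7,8,9] (.node (.cons (.leaf 1 [(5,1),(8,1)]) (.cons (.leaf 1 [(2,1),(8,1)]) (.cons (.leaf 1 [(5,1),(8,1),(1,1)]) (.cons (.leaf 1 [(8,1)]) .nil)))))) (.cons (.leaf 1 [(2,1)]) (.cons (.keep [1,5,6,7,8,9] (.node (.cons (.leaf 1 [(6,1),(9,1)]) (.cons (.leaf 1 [(2,1),(9,1)]) (.cons (.leaf 1 [(6,1),(9,1),(1,1)])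 (.cons (.leaf 1 [(9,1)]) .nil)))))) (.cons (.leaf 1 []) .nil)))))) .nil)))))) (.cons (.keep [2,5,6,7] (.node (.cons (.keep [4,5,6,7] (.node (.cons (.leaf 1 [(5,1),(6,1)]) (.cons (.leaf 1 [(2,1)]) (.cons (.leaf 1 [(5,1),(6,1),(1,1)]) (.cons (.leaf 1 []) .nil)))))) (.cons (.keep [2,3,6,7] (.node (.cons (.leaf 1 [(5,1)]) (.cons (.leaf 1 [(2,1)]) (.cons (.leaf 1 [(5,1),(1,1)]) (.cons (.leaf 1 []) .nil)))))) (.cons (.keep [1,4,5,6,8] (.node (.cons (.leaf 1 [(6,1),(7,1)]) (.cons (.leaf 1 [(2,1)]) (.cons (.leaf 1 [(6,1),(7,1),(1,1)]) (.cons (.leaf 1 []) .nil)))))) (.cons (.keep [0,1,5,6,7] (.node (.cons (.keep [2,7,8,9] (.node (.cons (.leaf 1 [(5,1),(7,1)]) (.cons (.leaf 1 [(2,1),(7,1)]) (.cons (.leaf 1 [(5,1),(7,1),(1,1)]) (.cons (.leaf 1 [(7,1)]) .nil)))))) (.cons (.leaf 1 [(2,1)]) (.cons (.keep [1,5,7,8,9]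 (.node (.cons (.leaf 1 [(6,1),(8,1)]) (.cons (.leaf 1 [(2,1),(8,1)]) (.cons (.leaf 1 [(6,1),(8,1),(1,1)]) (.cons (.leaf 1 [(8,1)]) .nil)))))) (.cons (.leaf 1 []) .nil)))))) .nil)))))) (.cons (.leaf 1 [(5,1),(4,1),(1,1)]) (.cons (.keep [0,1,5,7] (.node (.cons (.keep [2,5,6,7] (.node (.cons (.leaf 1 [(5,1)]) (.cons (.leaf 1 [(2,1)]) (.cons (.leaf 1 [(5,1),(1,1)]) (.cons (.leaf 1 []) .nil)))))) (.cons (.keep [2,3,6,7,8] (.node (.cons (.leaf 1 [(5,1)]) (.cons (.leaf 1 [(2,1)]) (.cons (.leaf 1 [(5,1),(1,1)]) (.cons (.leaf 1 []) .nil)))))) (.cons (.keep [1,4,5,7] (.node (.cons (.keep [2,5,6,7,8] (.node (.cons (.leaf 1 [(5,1),(9,1)]) (.cons (.leaf 1 [(2,1),(9,1)]) (.cons (.leaf 1 [(5,1),(9,1),(1,1)]) (.cons (.leaf 1 [(9,1)]) .nil)))))) (.cons (.leaf 1 [(2,1)]) (.cons (.keep [1,5,6,7,8] (.node (.cons (.leaf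 1 [(7,1),(8,1),(9,1)]) (.cons (.leaf 1 [(2,1),(9,1)]) (.cons (.leaf 1 [(7,1),(8,1),(9,1),(1,1)]) (.cons (.leaf 1 [(9,1)]) .nil)))))) (.cons (.leaf 1 []) .nil)))))) (.cons (.keep [0,3,6,7] (.node (.cons (.keep [2,6,7,8] (.node (.cons (.leaf 1 [(5,1),(8,1)]) (.cons (.leaf 1 [(2,1),(8,1)]) (.cons (.leaf 1 [(5,1),(8,1),(1,1)]) (.cons (.leaf 1 [(8,1)]) .nil)))))) (.cons (.leaf 1 [(2,1)]) (.cons (.keep [1,5,6,7,8] (.node (.cons (.leaf 1 [(6,1),(9,1)]) (.cons (.leaf 1 [(2,1),(9,1)]) (.cons (.leaf 1 [(6,1),(9,1),(1,1)]) (.cons (.leaf 1 [(9,1)]) .nil)))))) (.cons (.leaf 1 []) .nil)))))) .nil)))))) .nil)))))) (.cons (.keep [0,3,5,6] (.node (.cons (.keep [4,5,6,8] (.node (.cons (.keep [4,5,6,7,8] (.node (.cons (.leaf 2 [(6,1),(5,1),(8,1)]) (.cons (.leaf 1 [(2,1),(8,1)]) (.cons (.leaf 1 [(6,1),(5,1),(4,1),(1,1)])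 (.cons (.leaf 1 [(8,1)]) .nil)))))) (.cons (.keep [2,5,7,8] (.node (.cons (.leaf 1 [(5,1),(7,1)]) (.cons (.leaf 1 [(2,1),(7,1)]) (.cons (.leaf 1 [(5,1),(7,1),(1,1)]) (.cons (.leaf 1 [(7,1)]) .nil)))))) (.cons (.leaf 1 [(5,1),(4,1),(1,1)]) (.cons (.keep [0,1,5,7] (.node (.cons (.keep [2,5,6,7,8] (.node (.cons (.leaf 1 [(5,1)]) (.cons (.leaf 1 [(2,1)]) (.cons (.leaf 1 [(5,1),(1,1)]) (.cons (.leaf 1 []) .nil)))))) (.cons (.leaf 1 [(2,1),(8,1)]) (.cons (.keep [1,5,6,7,8] (.node (.cons (.leaf 1 [(9,1),(6,1)]) (.cons (.leaf 1 [(2,1)]) (.cons (.leaf 1 [(9,1),(6,1),(1,1)]) (.cons (.leaf 1 []) .nil)))))) (.cons (.leaf 1 [(8,1)]) .nil)))))) .nil)))))) (.cons (.keep [2,3,6,8] (.node (.cons (.keep [4,5,6,7] (.node (.cons (.leaf 1 [(6,1),(5,1),(8,1)]) (.cons (.leaf 1 [(2,1),(8,1)]) (.cons (.leaf 1 [(6,1),(5,1),(8,1),(1,1)])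 (.cons (.leaf 1 [(8,1)]) .nil)))))) (.cons (.keep [2,3,6,7] (.node (.cons (.leaf 1 [(5,1),(8,1)]) (.cons (.leaf 1 [(2,1),(8,1)]) (.cons (.leaf 1 [(5,1),(8,1),(1,1)]) (.cons (.leaf 1 [(8,1)]) .nil)))))) (.cons (.keep [1,4,5,7,8] (.node (.cons (.leaf 1 [(7,1),(6,1),(8,1)]) (.cons (.leaf 1 [(2,1),(8,1)]) (.cons (.leaf 1 [(7,1),(6,1),(8,1),(1,1)]) (.cons (.leaf 1 [(8,1)]) .nil)))))) (.cons (.keep [0,1,5,6,7] (.node (.cons (.keep [2,5,7,8,9] (.node (.cons (.leaf 1 [(5,1)]) (.cons (.leaf 1 [(2,1)]) (.cons (.leaf 1 [(5,1),(1,1)]) (.cons (.leaf 1 []) .nil)))))) (.cons (.leaf 1 [(2,1),(9,1)]) (.cons (.keep [1,5,7,8,9] (.node (.cons (.leaf 1 [(9,1),(6,1)]) (.cons (.leaf 1 [(2,1)]) (.cons (.leaf 1 [(9,1),(6,1),(1,1)]) (.cons (.leaf 1 []) .nil)))))) (.cons (.leaf 1 [(9,1)]) .nil)))))) .nil)))))) (.cons (.leaf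 1 [(4,1),(1,1)]) (.cons (.keep [0,1,6,8] (.node (.cons (.keep [2,5,6,7] (.node (.cons (.leaf 1 [(5,1),(8,1)]) (.cons (.leaf 1 [(2,1),(8,1)]) (.cons (.leaf 1 [(5,1),(8,1),(1,1)]) (.cons (.leaf 1 [(8,1)]) .nil)))))) (.cons (.keep [2,3,6,7,8] (.node (.cons (.leaf 1 [(5,1),(8,1)]) (.cons (.leaf 1 [(2,1),(8,1)]) (.cons (.leaf 1 [(5,1),(8,1),(1,1)]) (.cons (.leaf 1 [(8,1)]) .nil)))))) (.cons (.keep [1,4,5,7] (.node (.cons (.keep [2,5,6,7,8] (.node (.cons (.leaf 1 [(5,1)]) (.cons (.leaf 1 [(2,1)]) (.cons (.leaf 1 [(5,1),(1,1)]) (.cons (.leaf 1 []) .nil)))))) (.cons (.leaf 1 [(2,1),(8,1)]) (.cons (.keep [1,5,6,7,8] (.node (.cons (.leaf 1 [(7,1),(9,1),(8,1)]) (.cons (.leaf 1 [(2,1)]) (.cons (.leaf 1 [(7,1),(9,1),(8,1),(1,1)]) (.cons (.leaf 1 []) .nil)))))) (.cons (.leaf 1 [(8,1)]) .nil)))))) (.cons (.keep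 [0,3,6,7] (.node (.cons (.keep [2,5,6,7,8] (.node (.cons (.leaf 1 [(5,1)]) (.cons (.leaf 1 [(2,1)]) (.cons (.leaf 1 [(5,1),(1,1)]) (.cons (.leaf 1 []) .nil)))))) (.cons (.leaf 1 [(2,1),(8,1)]) (.cons (.keep [1,5,6,7,8] (.node (.cons (.leaf 1 [(9,1),(6,1)]) (.cons (.leaf 1 [(2,1)]) (.cons (.leaf 1 [(9,1),(6,1),(1,1)]) (.cons (.leaf 1 []) .nil)))))) (.cons (.leaf 1 [(8,1)]) .nil)))))) .nil)))))) .nil)))))) (.cons (.leaf 1 [(4,1)]) (.cons (.leaf 1 []) .nil))))))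

theorem e_17_24 : ESB (caseOf 4 17 24) := esb_of_ok (t := t_17_24) (by decide +kernel)

def t_17_25 : T := (.keep [0,1,2] (.node (.cons (.leaf 1 []) (.cons (.leaf 1 [(3,1)]) (.cons (.leaf 1 [(3,1)]) (.cons (.leaf 1 [(5,1)]) (.cons (.leaf 1 [(5,1)]) (.cons (.leaf 1 []) .nil))))))))

theorem e_17_25 : ESB (caseOf 4 17 25) := esb_of_ok (t := t_17_25) (by decide +kernel)

def t_17_26 : T := (.keep [0,1,2] (.node (.cons (.keep [4,5,6,7] (.node (.cons (.keep [2,6,7,8] (.node (.cons (.keep [4,5,8,9] (.node (.cons (.leaf 2 [(8,1)]) (.cons (.leaf 2 [(7,1)]) (.cons (.leaf 1 [(2,1)]) (.cons (.leaf 2 [(8,1),(1,1)]) (.cons (.leaf 2 [(7,1),(1,1)]) (.cons (.leaf 1 []) .nil)))))))) (.cons (.keep [3,5,6,8] (.node (.cons (.leaf 2 [(6,1),(9,1)]) (.cons (.leaf 2 [(7,1),(6,1)]) (.cons (.leaf 1 [(2,1),(6,1)]) (.cons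 (.leaf 2 [(6,1),(9,1),(1,1)]) (.cons (.leaf 2 [(7,1),(6,1),(1,1)]) (.cons (.leaf 1 [(6,1)]) .nil)))))))) (.cons (.keep [0,3,4,8] (.node (.cons (.leaf 2 [(7,1),(9,1)]) (.cons (.leaf 2 [(7,1)]) (.cons (.leaf 1 [(2,1),(7,1)]) (.cons (.leaf 2 [(7,1),(9,1),(1,1)]) (.cons (.leaf 1 [(5,1),(1,1)]) (.cons (.leaf 1 [(7,1)]) .nil)))))))) (.cons (.leaf 1 [(5,1)]) (.cons (.leaf 1 [(5,1)]) (.cons (.leaf 1 []) .nil)))))))) (.cons (.leaf 2 [(7,1)]) (.cons (.leaf 1 [(2,1)]) (.cons (.keep [1,5,6,7,9] (.node (.cons (.leaf 1 [(4,1),(6,2)]) (.cons (.leaf 1 [(6,2)]) (.cons (.leaf 1 [(6,2),(4,1)]) (.cons (.leaf 1 [(5,1),(6,1)]) (.cons (.leaf 1 [(1,1),(5,2)]) (.cons (.leaf 1 [(6,1)]) .nil)))))))) (.cons (.leaf 2 [(7,1),(1,1)]) (.cons (.leaf 1 []) .nil)))))))) (.cons (.keep [3,5,7,8] (.node (.cons (.keep [2,6,7,8,9] (.node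 (.cons (.keep [4,5,8,10] (.node (.cons (.leaf 2 [(8,1)]) (.cons (.leaf 2 [(7,1)]) (.cons (.leaf 1 [(2,1)]) (.cons (.leaf 2 [(8,1),(1,1)]) (.cons (.leaf 2 [(7,1),(1,1)]) (.cons (.leaf 1 []) .nil)))))))) (.cons (.keep [3,5,7,8,10] (.node (.cons (.leaf 2 [(9,1)]) (.cons (.leaf 2 [(7,1),(8,1)]) (.cons (.leaf 1 [(2,1)]) (.cons (.leaf 2 [(9,1),(1,1)]) (.cons (.leaf 2 [(7,1),(8,1),(1,1)]) (.cons (.leaf 1 []) .nil)))))))) (.cons (.keep [3,4,7,8,10] (.node (.cons (.leaf 2 [(9,1)]) (.cons (.leaf 2 [(8,1)]) (.cons (.leaf 1 [(2,1)]) (.cons (.leaf 2 [(9,1),(1,1)]) (.cons (.leaf 2 [(8,1),(1,1)]) (.cons (.leaf 1 []) .nil)))))))) (.cons (.leaf 1 [(5,1),(1,1)]) (.cons (.leaf 1 [(7,1),(5,1)]) (.cons (.leaf 1 [(7,1)]) .nil)))))))) (.cons (.leaf 2 [(7,1),(6,1)]) (.cons (.leaf 1 [(2,1),(6,1)]) (.cons (.keep [1,6,7,8,9]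 (.node (.cons (.leaf 1 [(4,1),(6,1)]) (.cons (.leaf 1 [(7,1),(6,2)]) (.cons (.leaf 1 [(7,1),(6,2),(4,1)]) (.cons (.leaf 1 [(5,1),(1,1)]) (.cons (.leaf 1 [(7,1),(5,2),(1,1)]) (.cons (.leaf 1 [(7,1),(6,1)]) .nil)))))))) (.cons (.leaf 2 [(7,1),(6,1),(1,1)]) (.cons (.leaf 1 [(6,1)]) .nil)))))))) (.cons (.keep [0,3,4,7] (.node (.cons (.keep [2,6,7,8,9] (.node (.cons (.keep [4,5,7,8,10] (.node (.cons (.leaf 2 [(9,1)]) (.cons (.leaf 2 [(7,1),(9,2)]) (.cons (.leaf 1 [(2,1),(9,1)]) (.cons (.leaf 1 [(5,1),(1,1)]) (.cons (.leaf 2 [(7,1),(9,2),(1,1)]) (.cons (.leaf 1 [(9,1)]) .nil)))))))) (.cons (.keep [5,7,8,9,10] (.node (.cons (.leaf 2 [(9,1)]) (.cons (.leaf 2 [(8,1),(6,1),(9,1)]) (.cons (.leaf 1 [(2,1),(9,1)]) (.cons (.leaf 1 [(5,1),(1,1)]) (.cons (.leaf 1 [(8,1),(6,1),(5,1),(1,1)]) (.cons (.leaf 1 [(9,1)])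 .nil)))))))) (.cons (.keep [4,7,8,9,10] (.node (.cons (.leaf 2 [(9,1)]) (.cons (.leaf 2 [(8,1),(9,1)]) (.cons (.leaf 1 [(2,1),(9,1)]) (.cons (.leaf 1 [(5,1),(1,1)]) (.cons (.leaf 1 [(8,1),(5,1),(1,1)]) (.cons (.leaf 1 [(9,1)]) .nil)))))))) (.cons (.leaf 1 [(5,1),(8,1)]) (.cons (.leaf 1 [(8,1),(5,1)]) (.cons (.leaf 1 [(8,1)]) .nil)))))))) (.cons (.leaf 2 [(7,1)]) (.cons (.leaf 1 [(2,1),(7,1)]) (.cons (.keep [1,6,7,8,9] (.node (.cons (.leaf 1 [(4,1),(8,1),(6,2)]) (.cons (.leaf 1 [(8,1),(6,2)]) (.cons (.leaf 1 [(8,1),(6,2),(4,1)]) (.cons (.leaf 1 [(5,1),(8,1),(6,1)]) (.cons (.leaf 1 [(8,1),(5,2),(1,1)]) (.cons (.leaf 1 [(8,1),(6,1)]) .nil)))))))) (.cons (.leaf 1 [(5,1),(1,1)]) (.cons (.leaf 1 [(7,1)]) .nil)))))))) (.cons (.leaf 1 [(5,1)]) (.cons (.leaf 1 [(5,1)]) (.cons (.leaf 1 []) .nil))))))))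

theorem e_17_26 : ESB (caseOf 4 17 26) := esb_of_ok (t := t_17_26) (by decide +kernel)

def t_17_27 : T := (.keep [0,1,2] (.node (.cons (.leaf 1 []) (.cons (.leaf 1 [(3,1)]) (.cons (.leaf 1 [(3,1)]) (.cons (.leaf 1 [(3,1)]) (.cons (.leaf 1 [(6,1)]) (.cons (.leaf 1 [(6,1)]) (.cons (.leaf 1 [(6,1)]) (.cons (.leaf 1 []) .nil))))))))))

theorem e_17_27 : ESB (caseOf 4 17 27) := esb_of_ok (t := t_17_27) (by decide +kernel)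

def t_17_28 : T := (.keep [0,1,2] (.node (.cons (.keep [4,5,6,7] (.node (.cons (.keep [5,6,7,8,9] (.node (.cons (.leaf 2 [(8,1)]) (.cons (.leaf 2 [(6,1),(7,1)]) (.cons (.leaf 1 [(2,1)]) (.cons (.leaf 2 [(8,1),(1,1)]) (.cons (.leaf 2 [(6,1),(7,1),(1,1)]) (.cons (.leaf 1 []) .nil)))))))) (.cons (.keep [5,6,7,8,9] (.node (.cons (.leaf 2 [(8,1)]) (.cons (.leaf 2 [(6,1),(8,1)]) (.cons (.leaf 1 [(2,1)]) (.cons (.leaf 2 [(8,1),(1,1)]) (.cons (.leaf 2 [(6,1),(8,1),(1,1)]) (.cons (.leaf 1 []) .nil)))))))) (.cons (.keep [2,6,7,8] (.node (.cons (.leaf 2 [(8,1)]) (.cons (.leaf 1 [(6,1)]) (.cons (.leaf 1 [(2,1)]) (.cons (.leaf 2 [(8,1),(1,1)]) (.cons (.leaf 1 [(6,1),(1,1)]) (.cons (.leaf 1 []) .nil)))))))) (.cons (.leaf 1 [(6,1),(5,1),(1,1)]) (.cons (.leaf 1 [(7,1),(5,1),(1,1)]) (.cons (.keep [0,1,6,7] (.node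 (.cons (.leaf 2 [(9,1)]) (.cons (.keep [2,7,8,9] (.node (.cons (.keep [2,6,7,9] (.node (.cons (.leaf 1 [(7,1),(9,1)]) (.cons (.leaf 1 [(6,1),(9,1)]) (.cons (.leaf 1 [(2,1),(9,1)]) (.cons (.leaf 1 [(7,1),(9,1),(1,1)]) (.cons (.leaf 1 [(6,1),(9,1),(1,1)]) (.cons (.leaf 1 [(9,1)]) .nil)))))))) (.cons (.leaf 1 [(6,1),(3,1)]) (.cons (.leaf 1 [(2,1),(3,1)]) (.cons (.keep [1,6,7,8,9] (.node (.cons (.leaf 1 [(7,1),(10,1)]) (.cons (.leaf 1 [(9,1),(10,1)]) (.cons (.leaf 1 [(2,1),(10,1)]) (.cons (.leaf 1 [(7,1),(10,1),(1,1)]) (.cons (.leaf 1 [(9,1),(10,1),(1,1)]) (.cons (.leaf 1 [(10,1)]) .nil)))))))) (.cons (.leaf 1 [(6,1),(3,1)]) (.cons (.leaf 1 [(8,1)]) .nil)))))))) (.cons (.leaf 1 [(2,1)]) (.cons (.leaf 2 [(9,1),(1,1)]) (.cons (.keep [1,6,7,8,9] (.node (.cons (.keep [2,6,7,8,10] (.node (.cons (.leaf 1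 [(8,1),(10,1)]) (.cons (.leaf 1 [(6,1),(10,1)]) (.cons (.leaf 1 [(2,1),(10,1)]) (.cons (.leaf 1 [(8,1),(10,1),(1,1)]) (.cons (.leaf 1 [(6,1),(10,1),(1,1)]) (.cons (.leaf 1 [(10,1)]) .nil)))))))) (.cons (.leaf 1 [(3,1)]) (.cons (.leaf 1 [(2,1),(6,1),(3,1)]) (.cons (.keep [1,7,8,9,10] (.node (.cons (.leaf 1 [(7,1),(10,1)]) (.cons (.leaf 1 [(7,1),(9,1),(10,1)]) (.cons (.leaf 1 [(2,1),(10,1)]) (.cons (.leaf 1 [(7,1),(10,1),(1,1)]) (.cons (.leaf 1 [(7,1),(9,1),(10,1),(1,1)]) (.cons (.leaf 1 [(10,1)]) .nil)))))))) (.cons (.leaf 1 [(3,1)]) (.cons (.leaf 1 [(9,1)]) .nil)))))))) (.cons (.leaf 1 []) .nil)))))))) .nil)))))))) (.cons (.keep [3,5,6,8] (.node (.cons (.keep [4,5,6,9] (.node (.cons (.leaf 2 [(6,1),(8,1)]) (.cons (.leaf 2 [(7,1),(8,1)]) (.cons (.leaf 1 [(2,1),(8,1)]) (.cons (.leaf 1 [(6,1),(5,1),(1,1)])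 (.cons (.leaf 1 [(7,1),(5,1),(1,1)]) (.cons (.leaf 1 [(8,1)]) .nil)))))))) (.cons (.keep [3,5,6,7,9] (.node (.cons (.leaf 2 [(9,1),(8,1)]) (.cons (.leaf 2 [(9,1),(7,1),(8,1)]) (.cons (.leaf 1 [(2,1),(8,1)]) (.cons (.leaf 2 [(9,1),(8,1),(1,1)]) (.cons (.leaf 2 [(9,1),(7,1),(8,1),(1,1)]) (.cons (.leaf 1 [(8,1)]) .nil)))))))) (.cons (.keep [2,3,6,7] (.node (.cons (.leaf 2 [(9,1),(8,1)]) (.cons (.leaf 1 [(6,1),(8,1)]) (.cons (.leaf 1 [(2,1),(8,1)]) (.cons (.leaf 2 [(9,1),(8,1),(1,1)]) (.cons (.leaf 1 [(6,1),(8,1),(1,1)]) (.cons (.leaf 1 [(8,1)]) .nil)))))))) (.cons (.leaf 1 [(5,1),(1,1)]) (.cons (.leaf 1 [(7,1),(5,1),(1,1)]) (.cons (.keep [0,1,6,7] (.node (.cons (.leaf 2 [(9,1),(8,1)]) (.cons (.keep [2,6,7,8,9] (.node (.cons (.keep [2,6,8,10] (.node (.cons (.leaf 1 [(7,1),(9,1)]) (.cons (.leaf 1 [(6,1),(9,1)])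 (.cons (.leaf 1 [(2,1),(9,1)]) (.cons (.leaf 1 [(7,1),(9,1),(1,1)]) (.cons (.leaf 1 [(6,1),(9,1),(1,1)]) (.cons (.leaf 1 [(9,1)]) .nil)))))))) (.cons (.leaf 1 [(6,1)]) (.cons (.leaf 1 [(2,1)]) (.cons (.keep [1,6,7,8,10] (.node (.cons (.leaf 1 [(10,1),(7,1)]) (.cons (.leaf 1 [(8,1),(10,1)]) (.cons (.leaf 1 [(2,1),(10,1)]) (.cons (.leaf 1 [(10,1),(7,1),(1,1)]) (.cons (.leaf 1 [(8,1),(10,1),(1,1)]) (.cons (.leaf 1 [(10,1)]) .nil)))))))) (.cons (.leaf 1 [(6,1),(1,1)]) (.cons (.leaf 1 []) .nil)))))))) (.cons (.leaf 1 [(2,1),(8,1)]) (.cons (.leaf 2 [(9,1),(8,1),(1,1)]) (.cons (.keep [1,6,7,8,9] (.node (.cons (.keep [2,6,8,9,10] (.node (.cons (.leaf 1 [(9,1),(10,1)]) (.cons (.leaf 1 [(6,1),(10,1)]) (.cons (.leaf 1 [(2,1),(10,1)]) (.cons (.leaf 1 [(9,1),(10,1),(1,1)]) (.cons (.leaf 1 [(6,1),(10,1),(1,1)])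 (.cons (.leaf 1 [(10,1)]) .nil)))))))) (.cons (.leaf 1 [(9,1),(3,1)]) (.cons (.leaf 1 [(2,1)]) (.cons (.keep [6,7,8,9,10] (.node (.cons (.leaf 1 [(7,1),(10,1),(9,1)]) (.cons (.leaf 1 [(7,1),(10,1)]) (.cons (.leaf 1 [(2,1),(10,1)]) (.cons (.leaf 1 [(7,1),(10,1),(9,1),(1,1)]) (.cons (.leaf 1 [(7,1),(10,1),(1,1)]) (.cons (.leaf 1 [(10,1)]) .nil)))))))) (.cons (.leaf 1 [(9,1),(3,1)]) (.cons (.leaf 1 []) .nil)))))))) (.cons (.leaf 1 [(8,1)]) .nil)))))))) .nil)))))))) (.cons (.keep [0,3,4,6] (.node (.cons (.keep [4,5,6,7,8] (.node (.cons (.leaf 2 [(9,1)]) (.cons (.leaf 2 [(7,1),(10,1),(9,1)]) (.cons (.leaf 1 [(2,1),(9,1)]) (.cons (.leaf 1 [(5,1),(1,1)]) (.cons (.leaf 2 [(7,1),(10,1),(9,1),(1,1)]) (.cons (.leaf 1 [(9,1)]) .nil)))))))) (.cons (.keep [3,5,6,7] (.node (.cons (.leaf 2 [(9,1)]) (.cons (.leaf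 2 [(7,1),(9,1)]) (.cons (.leaf 1 [(2,1),(9,1)]) (.cons (.leaf 1 [(5,1),(1,1)]) (.cons (.leaf 1 [(7,1),(5,1),(1,1)]) (.cons (.leaf 1 [(9,1)]) .nil)))))))) (.cons (.keep [2,4,7,8] (.node (.cons (.leaf 2 [(8,1)]) (.cons (.leaf 1 [(6,1),(8,1)]) (.cons (.leaf 1 [(2,1),(8,1)]) (.cons (.leaf 1 [(5,1),(1,1)]) (.cons (.leaf 1 [(6,1),(8,1),(1,1)]) (.cons (.leaf 1 [(8,1)]) .nil)))))))) (.cons (.leaf 1 [(5,1),(8,1),(1,1)]) (.cons (.leaf 1 [(5,1),(1,1)]) (.cons (.keep [0,1,7,8] (.node (.cons (.leaf 1 [(4,1),(7,1)]) (.cons (.keep [2,6,7,8,9] (.node (.cons (.keep [2,6,7,8,9] (.node (.cons (.leaf 1 [(7,1)]) (.cons (.leaf 1 [(6,1)]) (.cons (.leaf 1 [(2,1)]) (.cons (.leaf 1 [(7,1),(1,1)]) (.cons (.leaf 1 [(6,1),(1,1)]) (.cons (.leaf 1 []) .nil)))))))) (.cons (.leaf 1 [(6,1),(9,1),(3,1)]) (.cons (.leaf 1 [(2,1),(9,1),(3,1)])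 (.cons (.keep [1,6,7,8,10] (.node (.cons (.leaf 1 [(7,1)]) (.cons (.leaf 1 [(10,1),(8,1)]) (.cons (.leaf 1 [(2,1)]) (.cons (.leaf 1 [(7,1),(1,1)]) (.cons (.leaf 1 [(10,1),(8,1),(1,1)]) (.cons (.leaf 1 []) .nil)))))))) (.cons (.leaf 1 [(6,1),(9,1),(3,1)]) (.cons (.leaf 1 [(10,1)]) .nil)))))))) (.cons (.leaf 1 [(2,1),(8,1)]) (.cons (.leaf 1 [(5,1),(1,1)]) (.cons (.keep [1,6,7,8,9] (.node (.cons (.keep [2,6,7,8,9] (.node (.cons (.leaf 1 [(10,1),(8,1)]) (.cons (.leaf 1 [(6,1)]) (.cons (.leaf 1 [(2,1)]) (.cons (.leaf 1 [(10,1),(8,1),(1,1)]) (.cons (.leaf 1 [(6,1),(1,1)]) (.cons (.leaf 1 []) .nil)))))))) (.cons (.leaf 1 [(3,1),(9,1)]) (.cons (.leaf 1 [(2,1),(9,1),(6,1),(3,1)]) (.cons (.keep [1,6,7,8,9,10] (.node (.cons (.leaf 1 [(10,1),(8,1)]) (.cons (.leaf 1 [(11,1),(8,1)]) (.cons (.leaf 1 [(2,1)]) (.cons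 (.leaf 1 [(10,1),(8,1),(1,1)]) (.cons (.leaf 1 [(11,1),(8,1),(1,1)]) (.cons (.leaf 1 []) .nil)))))))) (.cons (.leaf 1 [(3,1),(9,1)]) (.cons (.leaf 1 [(10,1)]) .nil)))))))) (.cons (.leaf 1 [(8,1)]) .nil)))))))) .nil)))))))) (.cons (.leaf 1 [(5,1)]) (.cons (.leaf 1 [(5,1)]) (.cons (.leaf 1 []) .nil))))))))

theorem e_17_28 : ESB (caseOf 4 17 28) := esb_of_ok (t := t_17_28) (by decide +kernel)

def t_17_29 : T := (.keep [0,1,2] (.node (.cons (.leaf 1 []) (.cons (.leaf 1 [(3,1)]) (.cons (.leaf 1 [(3,1)]) (.cons (.leaf 1 [(3,1)]) (.cons (.leaf 1 [(6,1)]) (.cons (.leaf 1 [(6,1)]) (.cons (.leaf 1 [(6,1)]) (.cons (.leaf 1 []) .nil))))))))))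

theorem e_17_29 : ESB (caseOf 4 17 29) := esb_of_ok (t := t_17_29) (by decide +kernel)

def t_17_30 : T := (.keep [0,1,2] (.node (.cons (.keep [4,5,6,7] (.node (.cons (.leaf 2 [(7,1)]) (.cons (.leaf 2 [(8,1)]) (.cons (.leaf 2 [(9,1)]) (.cons (.leaf 1 [(2,1)]) (.cons (.leaf 2 [(7,1),(1,1)]) (.cons (.leaf 2 [(8,1),(1,1)]) (.cons (.leaf 2 [(9,1),(1,1)]) (.cons (.leaf 1 []) .nil)))))))))) (.cons (.keep [3,5,6,8] (.node (.cons (.leaf 2 [(7,1)]) (.cons (.leaf 2 [(8,1),(7,1)]) (.cons (.leaf 2 [(9,1),(7,1)]) (.cons (.leaf 1 [(2,1),(7,1)]) (.cons (.leaf 1 [(6,1),(1,1)]) (.cons (.leaf 2 [(8,1),(7,1),(1,1)]) (.cons (.leaf 2 [(9,1),(7,1),(1,1)]) (.cons (.leaf 1 [(7,1)]) .nil)))))))))) (.cons (.keep [3,4,6,9] (.node (.cons (.leaf 2 [(7,1),(8,1)]) (.cons (.leaf 2 [(7,1)]) (.cons (.leaf 2 [(9,1),(7,1)]) (.cons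 (.leaf 1 [(2,1),(7,1)]) (.cons (.leaf 2 [(7,1),(8,1),(1,1)]) (.cons (.leaf 1 [(6,1),(1,1)]) (.cons (.leaf 2 [(9,1),(7,1),(1,1)]) (.cons (.leaf 1 [(7,1)]) .nil)))))))))) (.cons (.keep [0,3,4,5] (.node (.cons (.leaf 2 [(8,1),(9,1)]) (.cons (.leaf 2 [(8,1),(10,1)]) (.cons (.leaf 2 [(8,1)]) (.cons (.leaf 1 [(2,1),(8,1)]) (.cons (.leaf 2 [(8,1),(9,1),(1,1)]) (.cons (.leaf 2 [(8,1),(10,1),(1,1)]) (.cons (.leaf 1 [(6,1),(1,1)]) (.cons (.leaf 1 [(8,1)]) .nil)))))))))) (.cons (.leaf 1 [(6,1)]) (.cons (.leaf 1 [(6,1)]) (.cons (.leaf 1 [(6,1)]) (.cons (.leaf 1 []) .nil))))))))))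

theorem e_17_30 : ESB (caseOf 4 17 30) := esb_of_ok (t := t_17_30) (by decide +kernel)

def t_17_31 : T := (.keep [0,1,2] (.node (.cons (.leaf 1 []) (.cons (.leaf 1 [(3,1)]) (.cons (.leaf 1 [(3,1)]) (.cons (.leaf 1 [(3,1)]) (.cons (.leaf 1 [(3,1)]) (.cons (.leaf 1 [(7,1)]) (.cons (.leaf 1 [(7,1)]) (.cons (.leaf 1 [(7,1)]) (.cons (.leaf 1 [(7,1)]) (.cons (.leaf 1 []) .nil))))))))))))

theorem e_17_31 : ESB (caseOf 4 17 31) := esb_of_ok (t := t_17_31) (by decide +kernel)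

def t_18_16 : T := (.keep [0,1,2] (.node (.cons (.keep [2,4,5,6] (.node (.cons (.keep [2,5,6,7] (.node (.cons (.keep [2,4,5,6,7] (.node (.cons (.keep [2,4,5,6,7,8] (.node (.cons (.keep [2,4,5,7,8,9] (.node (.cons (.keep [2,4,5,8,9] (.node (.cons (.keep [2,4,5,6,8] (.node (.cons (.leaf 1 [(2,1),(5,1),(4,1)]) (.cons (.leaf 1 [(5,1),(4,1)]) .nil)))) (.cons (.keep [0,1,4,5,7] (.node (.cons (.leaf 1 [(2,1),(6,1)]) (.cons (.leaf 1 [(6,1)]) .nil)))) .nil)))) (.cons (.keep [0,1,4,5,7,9] (.node (.cons (.keep [2,4,5,6,9] (.node (.cons (.leaf 1 [(2,1),(4,1)]) (.cons (.leaf 1 [(4,1)]) .nil)))) (.cons (.keep [0,1,4,5,6,8] (.node (.cons (.leaf 1 [(2,1)]) (.cons (.leaf 1 []) .nil)))) .nil)))) .nil)))) (.cons (.keep [0,1,4,5,8,9] (.node (.cons (.keep [2,4,5,6,8,9] (.node (.cons (.keep [2,4,5,6,9] (.node (.cons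 (.leaf 1 [(2,1),(5,1),(4,1)]) (.cons (.leaf 1 [(5,1),(4,1)]) .nil)))) (.cons (.keep [0,1,4,5,6,8] (.node (.cons (.leaf 1 [(2,1),(6,1)]) (.cons (.leaf 1 [(6,1)]) .nil)))) .nil)))) (.cons (.keep [0,1,4,5,6,9] (.node (.cons (.keep [2,4,5,6,7,9] (.node (.cons (.leaf 1 [(2,1),(4,1)]) (.cons (.leaf 1 [(4,1)]) .nil)))) (.cons (.keep [0,1,4,5,6,7] (.node (.cons (.leaf 1 [(2,1)]) (.cons (.leaf 1 []) .nil)))) .nil)))) .nil)))) .nil)))) (.cons (.keep [0,1,4,5,6,7] (.node (.cons (.keep [2,4,5,6,8,9] (.node (.cons (.keep [2,4,5,6,9] (.node (.cons (.leaf 1 [(2,1),(5,1),(4,1)]) (.cons (.leaf 1 [(5,1),(4,1)]) .nil)))) (.cons (.keep [0,1,4,5,6,8] (.node (.cons (.leaf 1 [(2,1),(6,1)]) (.cons (.leaf 1 [(6,1)]) .nil)))) .nil)))) (.cons (.keep [0,1,4,5,6,9] (.node (.cons (.keep [2,4,5,6,7,9] (.node (.cons (.leaf 1 [(2,1),(4,1)])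 (.cons (.leaf 1 [(4,1)]) .nil)))) (.cons (.keep [0,1,4,5,6,7] (.node (.cons (.leaf 1 [(2,1)]) (.cons (.leaf 1 []) .nil)))) .nil)))) .nil)))) .nil)))) (.cons (.keep [0,1,4,5] (.node (.cons (.keep [2,4,5,6,7] (.node (.cons (.keep [2,4,5,6,8] (.node (.cons (.leaf 1 [(2,1),(4,1)]) (.cons (.leaf 1 [(4,1)]) .nil)))) (.cons (.keep [0,1,4,5,6] (.node (.cons (.leaf 1 [(2,1)]) (.cons (.leaf 1 []) .nil)))) .nil)))) (.cons (.keep [0,1,4,5,6,7] (.node (.cons (.keep [2,4,5,6,7,9] (.node (.cons (.leaf 1 [(2,1),(4,1)]) (.cons (.leaf 1 [(4,1)]) .nil)))) (.cons (.keep [0,1,4,5,6,7] (.node (.cons (.leaf 1 [(2,1)]) (.cons (.leaf 1 []) .nil)))) .nil)))) .nil)))) .nil)))) (.cons (.keep [0,1,4,7] (.node (.cons (.keep [2,4,5,7] (.node (.cons (.keep [2,4,5,6,7] (.node (.cons (.leaf 1 [(2,1)]) (.cons (.leaf 1 []) .nil))))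 (.cons (.keep [0,1,4,5,6] (.node (.cons (.leaf 1 [(2,1)]) (.cons (.leaf 1 []) .nil)))) .nil)))) (.cons (.keep [0,1,4,5] (.node (.cons (.keep [2,4,5,6,7] (.node (.cons (.leaf 1 [(2,1)]) (.cons (.leaf 1 []) .nil)))) (.cons (.keep [0,1,4,5,6,7] (.node (.cons (.leaf 1 [(2,1)]) (.cons (.leaf 1 []) .nil)))) .nil)))) .nil)))) .nil)))) (.cons (.leaf 1 []) .nil))))

theorem e_18_16 : ESB (caseOf 4 18 16) := esb_of_ok (t := t_18_16) (by decide +kernel)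

def t_18_17 : T := (.keep [0,1,2] (.node (.cons (.keep [0,4,6,7] (.node (.cons (.keep [0,4,5,6,8] (.node (.cons (.keep [0,4,5,6,7,8] (.node (.cons (.leaf 1 [(10,1)]) (.cons (.leaf 1 [(10,1),(3,1)]) (.cons (.leaf 1 [(4,1)]) (.cons (.leaf 1 []) .nil)))))) (.cons (.keep [2,3,6,8,9] (.node (.cons (.leaf 1 [(8,1),(6,1)]) (.cons (.leaf 1 [(8,1),(6,1),(3,1)]) (.cons (.leaf 1 [(6,1),(4,1)]) (.cons (.leaf 1 [(6,1)]) .nil)))))) (.cons (.leaf 1 [(4,1)]) (.cons (.leaf 1 []) .nil)))))) (.cons (.keep [2,3,6,7,8] (.node (.cons (.keep [4,5,6,7,8] (.node (.cons (.leaf 1 [(8,1),(7,1)]) (.cons (.leaf 1 [(8,1),(7,1),(3,1)]) (.cons (.leaf 1 [(7,1),(4,1)]) (.cons (.leaf 1 [(7,1)]) .nil)))))) (.cons (.keep [3,5,6,7,9] (.node (.cons (.leaf 1 [(8,1),(7,1),(5,1)]) (.cons (.leaf 1 [(8,1),(7,1),(5,1),(3,1)]) (.cons (.leaf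 1 [(7,1),(5,1),(4,1)]) (.cons (.leaf 1 [(7,1),(5,1)]) .nil)))))) (.cons (.leaf 1 [(6,1),(4,1)]) (.cons (.leaf 1 [(6,1)]) .nil)))))) (.cons (.leaf 1 [(4,1)]) (.cons (.leaf 1 []) .nil)))))) (.cons (.keep [2,3,5,6,7] (.node (.cons (.keep [4,5,6,7,9] (.node (.cons (.keep [4,5,6,7,8] (.node (.cons (.leaf 1 []) (.cons (.leaf 1 [(3,1)]) (.cons (.leaf 1 [(8,1),(4,1)]) (.cons (.leaf 1 [(8,1)]) .nil)))))) (.cons (.keep [3,5,6,7,9] (.node (.cons (.leaf 1 [(5,1)]) (.cons (.leaf 1 [(5,1),(3,1)]) (.cons (.leaf 1 [(8,1),(5,1),(4,1)]) (.cons (.leaf 1 [(8,1),(5,1)]) .nil)))))) (.cons (.leaf 1 [(7,1),(4,1)]) (.cons (.leaf 1 [(7,1)]) .nil)))))) (.cons (.keep [3,5,6,8,9] (.node (.cons (.keep [4,5,6,7,8] (.node (.cons (.leaf 1 [(6,1)]) (.cons (.leaf 1 [(6,1),(3,1)]) (.cons (.leaf 1 [(8,1),(6,1),(4,1)]) (.cons (.leaf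 1 [(8,1),(6,1)]) .nil)))))) (.cons (.keep [3,5,6,7,9] (.node (.cons (.leaf 1 [(6,1),(5,1)]) (.cons (.leaf 1 [(6,1),(5,1),(3,1)]) (.cons (.leaf 1 [(8,1),(6,1),(5,1),(4,1)]) (.cons (.leaf 1 [(8,1),(6,1),(5,1)]) .nil)))))) (.cons (.leaf 1 [(7,1),(5,1),(4,1)]) (.cons (.leaf 1 [(7,1),(5,1)]) .nil)))))) (.cons (.leaf 1 [(6,1),(4,1)]) (.cons (.leaf 1 [(6,1)]) .nil)))))) (.cons (.leaf 1 [(4,1)]) (.cons (.leaf 1 []) .nil))))))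

theorem e_18_17 : ESB (caseOf 4 18 17) := esb_of_ok (t := t_18_17) (by decide +kernel)

def t_18_18 : T := (.keep [0,1,2] (.node (.cons (.leaf 1 []) (.cons (.leaf 1 [(3,1)]) (.cons (.leaf 1 [(4,1)]) (.cons (.leaf 1 []) .nil))))))

theorem e_18_18 : ESB (caseOf 4 18 18) := esb_of_ok (t := t_18_18) (by decide +kernel)

def t_18_19 : T := (.keep [0,1,2] (.node (.cons (.leaf 1 [(4,1)]) (.cons (.leaf 1 []) (.cons (.leaf 1 [(4,1)]) (.cons (.leaf 1 [(5,1)]) (.cons (.leaf 1 [(5,1)]) (.cons (.leaf 1 []) .nil))))))))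

theorem e_18_19 : ESB (caseOf 4 18 19) := esb_of_ok (t := t_18_19) (by decide +kernel)

def ks : List (ℕ × ℕ) := [(15, 28), (15, 29), (15, 30), (15, 31), (16, 16), (16, 17), (16, 18),
  (16, 19), (16, 20), (16, 21), (16, 22), (16, 23), (16, 24), (16, 25), (16, 26), (16, 27), (16,
  28), (16, 29), (16, 30), (16, 31), (17, 16), (17, 17), (17, 18), (17, 19), (17, 20), (17, 21),
  (17, 22), (17, 23), (17, 24), (17, 25), (17, 26), (17, 27), (17, 28), (17, 29), (17, 30), (17,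
  31), (18, 16), (18, 17), (18, 18), (18, 19)]

theorem ks_ok : ∀ p ∈ ks, ESB (caseOf 4 p.1 p.2) := ks_cons e_15_28 <| ks_cons e_15_29 <| ks_cons
  e_15_30 <| ks_cons e_15_31 <| ks_cons e_16_16 <| ks_cons e_16_17 <| ks_cons e_16_18 <| ks_cons
  e_16_19 <| ks_cons e_16_20 <| ks_cons e_16_21 <| ks_cons e_16_22 <| ks_cons e_16_23 <| ks_cons
  e_16_24 <| ks_cons e_16_25 <| ks_cons e_16_26 <| ks_cons e_16_27 <| ks_cons e_16_28 <| ks_cons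
  e_16_29 <| ks_cons e_16_30 <| ks_cons e_16_31 <| ks_cons e_17_16 <| ks_cons e_17_17 <| ks_cons
  e_17_18 <| ks_cons e_17_19 <| ks_cons e_17_20 <| ks_cons e_17_21 <| ks_cons e_17_22 <| ks_cons
  e_17_23 <| ks_cons e_17_24 <| ks_cons e_17_25 <| ks_cons e_17_26 <| ks_cons e_17_27 <| ks_cons
  e_17_28 <| ks_cons e_17_29 <| ks_cons e_17_30 <| ks_cons e_17_31 <| ks_cons e_18_16 <| ks_cons
  e_18_17 <| ks_cons e_18_18 <| ks_cons e_18_19 <| ks_nil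

end Pool.Agent.H4.RD4.E09
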