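import Pool.Agent.H4.RD4.Chk

/-! # Certificates for special cases of order four -/

set_option maxRecDepth 20000

namespace Pool.Agent.H4.RD4.E10

open Pool.Agent.H50.Rdb
open Pool.Agent.H81.RDE (ESB caseOf)

def t_18_20 : T := (.keep [0,1,2] (.node (.cons (.keep [2,4,5,6,7] (.node (.cons (.keep [2,4,6,7,9] (.node (.cons (.keep [2,6,7,8] (.node (.cons (.leaf 1 [(8,1),(6,1)]) (.cons (.leaf 1 [(2,1)]) (.cons (.leaf 1 [(8,1),(6,1),(1,1)]) (.cons (.leaf 1 []) .nil)))))) (.cons (.keep [2,3,6,8,9] (.node (.cons (.keep [2,5,7,8,9] (.node (.cons (.leaf 2 [(6,1)]) (.cons (.leaf 2 [(2,1),(7,1)]) (.cons (.leaf 2 [(1,1),(6,1)]) (.cons (.leaf 2 [(7,1)]) .nil)))))) (.cons (.leaf 1 [(2,1)]) (.cons (.keep [1,4,5,7,8] (.node (.cons (.leaf 2 [(7,1),(5,1)]) (.cons (.leaf 2 [(8,1),(2,1),(5,1)]) (.cons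 (.leaf 2 [(7,1),(5,1),(1,1)]) (.cons (.leaf 2 [(8,1),(5,1)]) .nil)))))) (.cons (.leaf 1 []) .nil)))))) (.cons (.keep [1,4,6,7] (.node (.cons (.leaf 1 [(6,1),(7,1),(5,1)]) (.cons (.leaf 1 [(2,1)]) (.cons (.leaf 1 [(6,1),(7,1),(5,1),(1,1)]) (.cons (.leaf 1 []) .nil)))))) (.cons (.keep [0,1,3,6,7] (.node (.cons (.keep [2,5,6,8] (.node (.cons (.keep [2,5,7,8] (.node (.cons (.leaf 4 [(6,1),(8,2)]) (.cons (.leaf 1 [(0,1),(8,1)]) (.cons (.leaf 2 [(6,1),(4,2),(1,1)]) (.cons (.leaf 1 [(8,1)]) .nil)))))) (.cons (.leaf 2 [(2,1),(8,1)]) (.cons (.keep [1,5,6,7,8] (.node (.cons (.leaf 4 [(9,2),(5,1),(6,1)]) (.cons (.leaf 1 [(0,1),(5,1),(9,1)]) (.cons (.leaf 2 [(1,1),(5,1),(6,1),(4,2)]) (.cons (.leaf 1 [(9,1)]) .nil)))))) (.cons (.leaf 2 [(8,1)]) .nil)))))) (.cons (.leaf 1 [(2,1)]) (.cons (.keep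 [1,5,6,8] (.node (.cons (.keep [2,5,6,7,8] (.node (.cons (.leaf 4 [(9,2),(6,1)]) (.cons (.leaf 1 [(0,1),(6,1),(9,1)]) (.cons (.leaf 2 [(6,1),(1,1),(4,2)]) (.cons (.leaf 1 [(9,1)]) .nil)))))) (.cons (.leaf 2 [(8,1),(2,1),(5,1)]) (.cons (.keep [1,5,6,7,8] (.node (.cons (.leaf 4 [(9,2),(6,1),(5,1)]) (.cons (.leaf 1 [(0,1),(6,1),(5,1),(9,1)]) (.cons (.leaf 2 [(6,1),(1,1),(5,1),(4,2)]) (.cons (.leaf 1 [(9,1)]) .nil)))))) (.cons (.leaf 2 [(8,1),(5,1)]) .nil)))))) (.cons (.leaf 1 []) .nil)))))) .nil)))))) (.cons (.keep [2,3,6,7] (.node (.cons (.keep [2,5,6,7,8] (.node (.cons (.leaf 1 [(9,1)]) (.cons (.leaf 1 [(2,1),(7,1)]) (.cons (.leaf 1 [(9,1),(1,1)]) (.cons (.leaf 1 [(7,1)]) .nil)))))) (.cons (.keep [2,3,5,6,8] (.node (.cons (.keep [2,5,7,8,9] (.node (.cons (.leaf 2 [(6,1),(8,2)]) (.cons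 (.leaf 2 [(2,1),(8,1)]) (.cons (.leaf 2 [(6,1),(8,2),(1,1)]) (.cons (.leaf 2 [(8,1)]) .nil)))))) (.cons (.leaf 1 [(2,1),(8,1)]) (.cons (.keep [1,5,7,8,9] (.node (.cons (.leaf 2 [(8,2),(5,1),(6,1)]) (.cons (.leaf 2 [(2,1),(5,1),(8,1)]) (.cons (.leaf 2 [(8,2),(5,1),(6,1),(1,1)]) (.cons (.leaf 2 [(8,1),(5,1)]) .nil)))))) (.cons (.leaf 1 [(8,1)]) .nil)))))) (.cons (.keep [1,4,5,6,7] (.node (.cons (.leaf 1 [(6,1),(5,1)]) (.cons (.leaf 1 [(2,1),(8,1)]) (.cons (.leaf 1 [(6,1),(1,1),(5,1)]) (.cons (.leaf 1 [(8,1)]) .nil)))))) (.cons (.keep [0,1,3,5,6,7] (.node (.cons (.keep [2,5,6,8,9] (.node (.cons (.keep [2,5,6,8,9] (.node (.cons (.leaf 4 [(9,2),(6,1)]) (.cons (.leaf 1 [(2,1)]) (.cons (.leaf 4 [(9,2),(6,1),(1,1)]) (.cons (.leaf 1 []) .nil)))))) (.cons (.leaf 2 [(2,2),(7,1),(3,1)]) (.cons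 (.keep [1,5,6,8,9] (.node (.cons (.leaf 4 [(5,1),(9,2),(6,1)]) (.cons (.leaf 1 [(2,1)]) (.cons (.leaf 4 [(5,1),(9,2),(6,1),(1,1)]) (.cons (.leaf 1 []) .nil)))))) (.cons (.leaf 2 [(9,1)]) .nil)))))) (.cons (.leaf 1 [(2,1),(9,1)]) (.cons (.keep [1,5,6,8,9] (.node (.cons (.keep [2,5,6,8,9] (.node (.cons (.leaf 4 [(6,1),(9,2)]) (.cons (.leaf 1 [(2,1)]) (.cons (.leaf 4 [(6,1),(9,2),(1,1)]) (.cons (.leaf 1 []) .nil)))))) (.cons (.leaf 2 [(2,2),(7,1),(5,1),(3,1)]) (.cons (.keep [1,5,6,8,9] (.node (.cons (.leaf 4 [(6,1),(9,2),(5,1)]) (.cons (.leaf 1 [(2,1)]) (.cons (.leaf 4 [(6,1),(9,2),(5,1),(1,1)]) (.cons (.leaf 1 []) .nil)))))) (.cons (.leaf 2 [(9,1),(5,1)]) .nil)))))) (.cons (.leaf 1 [(9,1)]) .nil)))))) .nil)))))) (.cons (.keep [1,4,6,9] (.node (.cons (.leaf 1 [(5,1),(7,1),(6,2)]) (.cons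 (.leaf 1 [(6,1),(2,1)]) (.cons (.leaf 1 [(6,2),(7,1),(1,1),(5,1)]) (.cons (.leaf 1 [(6,1)]) .nil)))))) (.cons (.keep [0,1,3,6] (.node (.cons (.keep [2,5,6,8] (.node (.cons (.keep [2,5,7,8] (.node (.cons (.leaf 4 [(6,1),(8,2)]) (.cons (.leaf 1 [(0,1),(8,1)]) (.cons (.leaf 2 [(6,1),(4,2),(1,1)]) (.cons (.leaf 1 [(8,1)]) .nil)))))) (.cons (.leaf 2 [(2,1),(8,1)]) (.cons (.keep [1,5,6,7,8] (.node (.cons (.leaf 4 [(9,2),(5,1),(6,1)]) (.cons (.leaf 1 [(0,1),(5,1),(9,1)]) (.cons (.leaf 2 [(1,1),(5,1),(6,1),(4,2)]) (.cons (.leaf 1 [(9,1)]) .nil)))))) (.cons (.leaf 2 [(8,1)]) .nil)))))) (.cons (.leaf 1 [(2,1)]) (.cons (.keep [1,5,6,8] (.node (.cons (.keep [2,5,6,7,8] (.node (.cons (.leaf 4 [(9,2),(6,1)]) (.cons (.leaf 1 [(0,1),(6,1),(9,1)]) (.cons (.leaf 2 [(6,1),(1,1),(4,2)]) (.cons (.leaf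 1 [(9,1)]) .nil)))))) (.cons (.leaf 2 [(8,1),(2,1),(5,1)]) (.cons (.keep [1,5,6,7,8] (.node (.cons (.leaf 4 [(9,2),(6,1),(5,1)]) (.cons (.leaf 1 [(0,1),(6,1),(5,1),(9,1)]) (.cons (.leaf 2 [(6,1),(1,1),(5,1),(4,2)]) (.cons (.leaf 1 [(9,1)]) .nil)))))) (.cons (.leaf 2 [(8,1),(5,1)]) .nil)))))) (.cons (.leaf 1 []) .nil)))))) .nil)))))) (.cons (.keep [2,3,5,7] (.node (.cons (.keep [2,4,5,6,7] (.node (.cons (.keep [2,6,7,8] (.node (.cons (.leaf 3 [(6,2),(8,4)]) (.cons (.leaf 1 [(2,1),(8,1)]) (.cons (.leaf 3 [(6,2),(8,4),(1,2)]) (.cons (.leaf 1 [(8,1)]) .nil)))))) (.cons (.leaf 1 [(2,2),(8,2),(3,1)]) (.cons (.keep [1,6,8,9] (.node (.cons (.leaf 3 [(5,1),(6,2),(7,4)]) (.cons (.leaf 1 [(7,1),(2,1)]) (.cons (.leaf 3 [(7,4),(6,2),(1,2),(5,1)]) (.cons (.leaf 1 [(7,1)]) .nil)))))) (.cons (.keep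 [0,3,6,8,9] (.node (.cons (.leaf 2 [(8,3),(7,1)]) (.cons (.leaf 1 [(8,1),(2,1)]) (.cons (.leaf 2 [(8,3),(7,1),(1,1)]) (.cons (.leaf 1 [(8,1)]) .nil)))))) .nil)))))) (.cons (.keep [2,3,6,7] (.node (.cons (.keep [2,5,6,7] (.node (.cons (.leaf 3 [(8,4),(7,1)]) (.cons (.leaf 1 [(2,4),(7,3),(3,2)]) (.cons (.leaf 3 [(8,4),(1,2),(7,1)]) (.cons (.leaf 1 [(8,1),(7,1)]) .nil)))))) (.cons (.leaf 1 [(7,2),(2,2),(6,1),(3,1)]) (.cons (.keep [1,5,6,7,8] (.node (.cons (.leaf 3 [(5,1),(7,1),(8,4)]) (.cons (.leaf 1 [(8,1),(2,1),(7,1)]) (.cons (.leaf 3 [(8,4),(7,1),(1,2),(5,1)]) (.cons (.leaf 1 [(8,1),(7,1)]) .nil)))))) (.cons (.keep [0,3,6,7,8] (.node (.cons (.leaf 2 [(8,3),(7,1)]) (.cons (.leaf 1 [(3,1),(2,3),(7,2)]) (.cons (.leaf 2 [(8,3),(7,1),(1,1)]) (.cons (.leaf 1 [(8,1),(7,1)]) .nil)))))) .nil))))))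 (.cons (.keep [1,4,5,6,8] (.node (.cons (.leaf 1 [(6,2),(5,1)]) (.cons (.leaf 1 [(6,1),(2,1),(8,1)]) (.cons (.leaf 1 [(6,2),(5,1),(1,1)]) (.cons (.leaf 1 [(6,1),(8,1)]) .nil)))))) (.cons (.keep [0,1,3,5,6] (.node (.cons (.keep [2,5,6,8,9] (.node (.cons (.keep [2,5,6,8,9] (.node (.cons (.leaf 4 [(9,2),(6,1)]) (.cons (.leaf 1 [(2,1)]) (.cons (.leaf 4 [(9,2),(6,1),(1,1)]) (.cons (.leaf 1 []) .nil)))))) (.cons (.leaf 2 [(2,2),(7,1),(3,1)]) (.cons (.keep [1,5,6,8,9] (.node (.cons (.leaf 4 [(5,1),(9,2),(6,1)]) (.cons (.leaf 1 [(2,1)]) (.cons (.leaf 4 [(5,1),(9,2),(6,1),(1,1)]) (.cons (.leaf 1 []) .nil)))))) (.cons (.leaf 2 [(9,1)]) .nil)))))) (.cons (.leaf 1 [(2,1),(9,1)]) (.cons (.keep [1,5,6,8,9] (.node (.cons (.keep [2,5,6,8,9] (.node (.cons (.leaf 4 [(6,1),(9,2)]) (.cons (.leaf 1 [(2,1)])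 (.cons (.leaf 4 [(6,1),(9,2),(1,1)]) (.cons (.leaf 1 []) .nil)))))) (.cons (.leaf 2 [(2,2),(7,1),(5,1),(3,1)]) (.cons (.keep [1,5,6,8,9] (.node (.cons (.leaf 4 [(6,1),(9,2),(5,1)]) (.cons (.leaf 1 [(2,1)]) (.cons (.leaf 4 [(6,1),(9,2),(5,1),(1,1)]) (.cons (.leaf 1 []) .nil)))))) (.cons (.leaf 2 [(9,1),(5,1)]) .nil)))))) (.cons (.leaf 1 [(9,1)]) .nil)))))) .nil)))))) (.cons (.leaf 1 [(4,1)]) (.cons (.leaf 1 []) .nil))))))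

theorem e_18_20 : ESB (caseOf 4 18 20) := esb_of_ok (t := t_18_20) (by decide +kernel)

def t_18_21 : T := (.keep [0,1,2] (.node (.cons (.keep [0,4,5,7,8] (.node (.cons (.leaf 1 [(7,1)]) (.cons (.leaf 1 [(7,1),(3,1)]) (.cons (.leaf 1 [(7,1),(3,1)]) (.cons (.leaf 1 [(5,1)]) (.cons (.leaf 1 [(5,1)]) (.cons (.leaf 1 []) .nil)))))))) (.cons (.keep [3,5,6,7,8] (.node (.cons (.leaf 1 []) (.cons (.leaf 1 [(3,1)]) (.cons (.leaf 1 [(3,1)]) (.cons (.leaf 1 [(6,1),(5,1)]) (.cons (.leaf 1 [(6,1),(5,1)]) (.cons (.leaf 1 [(6,1)]) .nil)))))))) (.cons (.keep [2,3,4,6,8] (.node (.cons (.leaf 1 [(8,1)]) (.cons (.leaf 1 [(3,1),(8,1)]) (.cons (.leaf 1 [(8,1),(3,1)]) (.cons (.leaf 1 [(7,1),(5,1)]) (.cons (.leaf 1 [(5,1),(7,1)]) (.cons (.leaf 1 [(7,1)]) .nil)))))))) (.cons (.leaf 1 [(5,1)]) (.cons (.leaf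 1 [(5,1)]) (.cons (.leaf 1 []) .nil))))))))

theorem e_18_21 : ESB (caseOf 4 18 21) := esb_of_ok (t := t_18_21) (by decide +kernel)

def t_18_22 : T := (.keep [0,1,2] (.node (.cons (.leaf 1 []) (.cons (.leaf 1 [(3,1)]) (.cons (.leaf 1 [(3,1)]) (.cons (.leaf 1 [(5,1)]) (.cons (.leaf 1 [(5,1)]) (.cons (.leaf 1 []) .nil))))))))

theorem e_18_22 : ESB (caseOf 4 18 22) := esb_of_ok (t := t_18_22) (by decide +kernel)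

def t_18_23 : T := (.keep [0,1,2] (.node (.cons (.leaf 1 [(4,1)]) (.cons (.leaf 1 []) (.cons (.leaf 1 [(4,1)]) (.cons (.leaf 1 [(4,1)]) (.cons (.leaf 1 [(6,1)]) (.cons (.leaf 1 [(6,1)]) (.cons (.leaf 1 [(6,1)]) (.cons (.leaf 1 []) .nil))))))))))

theorem e_18_23 : ESB (caseOf 4 18 23) := esb_of_ok (t := t_18_23) (by decide +kernel)

def z_18_24_0 : F := ⟨1, -1, -1, 0, 2⟩

def h_18_24_0 : List F := [⟨1, 0, 0, -1, 0⟩, ⟨0, 0, 1, -1, 0⟩, ⟨1, 0, -2, 0, 1⟩, ⟨0, 1, -1, 0, 0⟩,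
  ⟨0, -1, 0, 0, 1⟩, ⟨1, -2, -1, 0, 2⟩]

def t_18_24_0 : T := (.node (.cons (.keep [4,6,8,9] (.node (.cons (.keep [4,5,6,7,8] (.node (.cons (.leaf 1 [(9,1),(5,2),(6,3)]) (.cons (.leaf 1 [(6,1),(9,1),(2,2)]) (.cons (.leaf 1 [(6,3),(5,2),(1,2),(9,1)]) (.cons (.leaf 1 [(6,1),(9,1)]) .nil)))))) (.cons (.keep [2,5,6,7,8] (.node (.cons (.keep [2,5,6,7,9] (.node (.cons (.keep [2,5,6,8,9] (.node (.cons (.leaf 7 [(6,6),(7,2),(5,3)]) (.cons (.leaf 4 [(6,3),(7,2),(2,3)]) (.cons (.leaf 1 [(1,2),(0,1),(5,1),(6,2)]) (.cons (.leaf 4 [(7,2),(6,3)]) .nil)))))) (.cons (.leaf 2 [(2,3),(6,1)]) (.cons (.keep [1,5,6,8,9] (.node (.cons (.leaf 7 [(5,3),(7,2),(6,6)]) (.cons (.leaf 4 [(7,2),(6,3),(2,3),(5,3)]) (.cons (.leaf 1 [(5,1),(0,1),(6,2),(1,2)]) (.cons (.leaf 4 [(7,2),(6,3),(5,3)]) .nil)))))) (.cons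 (.leaf 2 [(6,1)]) .nil)))))) (.cons (.leaf 1 [(3,1),(9,1),(2,3)]) (.cons (.keep [1,5,6,8,9] (.node (.cons (.keep [2,5,6,8,9] (.node (.cons (.leaf 2 [(5,1),(8,1)]) (.cons (.leaf 1 [(2,1),(8,1)]) (.cons (.leaf 1 [(1,2),(0,1),(5,1)]) (.cons (.leaf 1 [(8,1)]) .nil)))))) (.cons (.leaf 2 [(2,3),(6,1),(5,1)]) (.cons (.keep [1,5,6,8,9] (.node (.cons (.leaf 2 [(8,1),(5,1)]) (.cons (.leaf 1 [(8,1),(2,1),(5,1)]) (.cons (.leaf 1 [(4,1),(1,1)]) (.cons (.leaf 1 [(8,1),(5,1)]) .nil)))))) (.cons (.leaf 2 [(6,1),(5,1)]) .nil)))))) (.cons (.keep [0,3,5,6,9] (.node (.cons (.keep [2,5,6,8,9] (.node (.cons (.leaf 2 [(9,1),(8,2),(5,1)]) (.cons (.leaf 1 [(2,1),(8,1)]) (.cons (.leaf 2 [(9,1),(8,2),(5,1),(1,1)]) (.cons (.leaf 1 [(8,1)]) .nil)))))) (.cons (.leaf 1 [(2,1)]) (.cons (.keep [5,6,7,8,9] (.node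 (.cons (.leaf 1 [(9,1),(5,1),(8,1)]) (.cons (.leaf 1 [(2,1),(8,1)]) (.cons (.leaf 1 [(9,1),(5,1),(8,1),(1,1)]) (.cons (.leaf 1 [(8,1)]) .nil)))))) (.cons (.leaf 1 []) .nil)))))) .nil)))))) (.cons (.keep [1,4,5,6,7] (.node (.cons (.leaf 1 [(5,1),(6,3),(7,3)]) (.cons (.leaf 1 [(3,1),(5,1),(2,3)]) (.cons (.leaf 1 [(7,3),(6,3),(1,2),(5,1)]) (.cons (.leaf 1 [(7,1),(6,1),(5,1)]) .nil)))))) (.cons (.keep [0,1,5,6,7] (.node (.cons (.keep [2,6,7,8] (.node (.cons (.keep [2,5,6,8] (.node (.cons (.leaf 2 [(6,2),(8,1),(5,1)]) (.cons (.leaf 1 [(6,1),(8,1),(2,1)]) (.cons (.leaf 1 [(1,2),(0,1),(5,1),(6,2)]) (.cons (.leaf 1 [(8,1),(6,1)]) .nil)))))) (.cons (.leaf 1 [(2,2),(8,1)]) (.cons (.keep [1,5,6,8] (.node (.cons (.leaf 2 [(5,1),(8,1),(6,2)]) (.cons (.leaf 1 [(8,1),(6,1),(2,1),(5,1)]) (.cons (.leaf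 1 [(5,1),(0,1),(6,2),(1,2)]) (.cons (.leaf 1 [(8,1),(6,1),(5,1)]) .nil)))))) (.cons (.leaf 1 [(8,1)]) .nil)))))) (.cons (.leaf 1 [(3,1),(6,1),(2,3)]) (.cons (.keep [1,4,5,6,7,8] (.node (.cons (.keep [2,5,8,9,10] (.node (.cons (.leaf 1 [(5,1),(6,1),(8,2)]) (.cons (.leaf 1 [(2,2),(9,1),(8,2)]) (.cons (.leaf 1 [(1,2),(0,1),(5,1)]) (.cons (.leaf 1 [(8,2),(9,1)]) .nil)))))) (.cons (.leaf 1 [(2,2),(10,1)]) (.cons (.keep [1,5,6,7,8,9,10] (.node (.cons (.leaf 1 [(8,1),(5,1)]) (.cons (.leaf 1 [(11,1),(2,2),(10,2)]) (.cons (.leaf 1 [(4,1),(1,1)]) (.cons (.leaf 1 [(11,1),(10,2)]) .nil)))))) (.cons (.leaf 1 [(10,1)]) .nil)))))) (.cons (.keep [0,3,6,7] (.node (.cons (.keep [2,5,6,7,8] (.node (.cons (.leaf 2 [(8,1),(9,2),(5,1)]) (.cons (.leaf 1 [(2,1),(9,1)]) (.cons (.leaf 2 [(8,1),(9,2),(5,1),(1,1)])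 (.cons (.leaf 1 [(9,1)]) .nil)))))) (.cons (.leaf 1 [(2,1)]) (.cons (.keep [5,6,7,8] (.node (.cons (.leaf 1 [(7,1),(5,1),(8,1)]) (.cons (.leaf 1 [(2,1),(8,1)]) (.cons (.leaf 1 [(7,1),(5,1),(8,1),(1,1)]) (.cons (.leaf 1 [(8,1)]) .nil)))))) (.cons (.leaf 1 []) .nil)))))) .nil)))))) .nil)))))) (.cons (.keep [2,3,6,8,9] (.node (.cons (.keep [2,5,7,9] (.node (.cons (.keep [2,5,6,8] (.node (.cons (.leaf 3 [(8,5),(6,4),(5,2)]) (.cons (.leaf 1 [(8,1),(6,1),(2,1)]) (.cons (.leaf 3 [(8,5),(6,4),(5,2),(1,2)]) (.cons (.leaf 1 [(8,1),(6,1)]) .nil)))))) (.cons (.leaf 1 [(2,2),(8,1)]) (.cons (.keep [1,5,6,8] (.node (.cons (.leaf 3 [(8,5),(6,4),(5,2)]) (.cons (.leaf 2 [(3,2),(6,1),(2,5),(5,3)]) (.cons (.leaf 3 [(8,5),(6,4),(5,2),(1,2)]) (.cons (.leaf 1 [(8,1),(6,1),(5,1)]) .nil)))))) (.cons (.leaf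 1 [(8,1)]) .nil)))))) (.cons (.keep [2,3,6,8,9] (.node (.cons (.keep [2,5,6,7,9] (.node (.cons (.leaf 2 [(8,5),(6,1),(5,3)]) (.cons (.leaf 2 [(8,2),(6,1),(2,3)]) (.cons (.leaf 2 [(8,5),(6,1),(5,3),(1,3)]) (.cons (.leaf 2 [(8,2),(6,1)]) .nil)))))) (.cons (.leaf 1 [(2,3),(3,1),(9,1),(7,1)]) (.cons (.keep [1,5,6,7,8,9] (.node (.cons (.keep [2,7,8,9,10] (.node (.cons (.leaf 2 [(5,1),(7,2),(8,1)]) (.cons (.leaf 1 [(2,1),(7,1),(8,1)]) (.cons (.leaf 1 [(1,1),(7,1),(4,1),(5,1)]) (.cons (.leaf 1 [(8,1),(7,1)]) .nil)))))) (.cons (.leaf 2 [(3,2),(6,1),(2,5),(5,3)]) (.cons (.keep [1,7,8,9,10] (.node (.cons (.leaf 2 [(7,2),(5,1),(8,1)]) (.cons (.leaf 1 [(2,1),(7,1),(5,1),(8,1)]) (.cons (.leaf 1 [(1,1),(4,1),(7,1)]) (.cons (.leaf 1 [(8,1),(7,1),(5,1)]) .nil)))))) (.cons (.leaf 2 [(8,2),(6,1),(5,1)])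 .nil)))))) (.cons (.keep [0,3,5,7,9] (.node (.cons (.keep [2,5,7,8,9] (.node (.cons (.leaf 2 [(9,1),(5,1)]) (.cons (.leaf 1 [(2,1)]) (.cons (.leaf 2 [(9,1),(5,1),(1,1)]) (.cons (.leaf 1 []) .nil)))))) (.cons (.leaf 1 [(2,1),(8,1)]) (.cons (.keep [1,5,7,8,9] (.node (.cons (.leaf 1 [(9,1),(8,1),(6,1)]) (.cons (.leaf 1 [(2,1)]) (.cons (.leaf 1 [(9,1),(8,1),(6,1),(1,1)]) (.cons (.leaf 1 []) .nil)))))) (.cons (.leaf 1 [(8,1)]) .nil)))))) .nil)))))) (.cons (.keep [1,4,5,7] (.node (.cons (.keep [2,5,6,7] (.node (.cons (.leaf 3 [(6,1),(7,5),(5,2)]) (.cons (.leaf 1 [(7,1),(2,1)]) (.cons (.leaf 3 [(7,5),(1,2),(5,2),(6,1)]) (.cons (.leaf 1 [(7,1)]) .nil)))))) (.cons (.leaf 1 [(2,2),(6,1),(5,1)]) (.cons (.keep [1,5,6,7] (.node (.cons (.leaf 3 [(6,1),(7,5),(5,2)]) (.cons (.leaf 1 [(7,1),(2,1),(5,1)])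 (.cons (.leaf 3 [(7,5),(1,2),(5,2),(6,1)]) (.cons (.leaf 1 [(7,1),(5,1)]) .nil)))))) (.cons (.leaf 1 [(6,1),(5,1)]) .nil)))))) (.cons (.keep [0,1,3,5,6,7,8] (.node (.cons (.keep [2,6,7,9,10] (.node (.cons (.leaf 1 [(8,3),(9,1),(5,2)]) (.cons (.leaf 1 [(8,1),(9,1),(2,2)]) (.cons (.leaf 1 [(8,3),(9,1),(5,2),(1,2)]) (.cons (.leaf 1 [(8,1),(9,1)]) .nil)))))) (.cons (.leaf 1 [(2,3),(3,1),(6,1),(9,1)]) (.cons (.keep [1,4,5,6,7,8,9,10] (.node (.cons (.keep [2,6,7,11,12] (.node (.cons (.leaf 1 [(5,1),(8,2),(7,1)]) (.cons (.leaf 1 [(2,2),(9,1),(0,1)]) (.cons (.leaf 1 [(1,1),(8,1),(4,1),(5,1)]) (.cons (.leaf 1 [(0,1),(9,1),(1,1)]) .nil)))))) (.cons (.leaf 1 [(3,1),(12,1),(2,3),(5,1)]) (.cons (.keep [1,6,7,11,12] (.node (.cons (.leaf 1 [(8,2),(5,1),(7,1)]) (.cons (.leaf 1 [(2,2),(9,1),(5,1),(0,1)])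 (.cons (.leaf 1 [(1,1),(4,1),(8,1)]) (.cons (.leaf 1 [(0,1),(9,1),(5,1),(1,1)]) .nil)))))) (.cons (.leaf 1 [(11,1),(12,1)]) .nil)))))) (.cons (.keep [0,3,6,9] (.node (.cons (.keep [2,5,6,7] (.node (.cons (.leaf 2 [(8,1),(5,1)]) (.cons (.leaf 1 [(2,1)]) (.cons (.leaf 2 [(8,1),(5,1),(1,1)]) (.cons (.leaf 1 []) .nil)))))) (.cons (.leaf 1 [(2,1),(7,1),(6,1),(3,1)]) (.cons (.keep [1,5,6,7,8] (.node (.cons (.leaf 1 [(8,1),(9,1),(6,1)]) (.cons (.leaf 1 [(2,1)]) (.cons (.leaf 1 [(8,1),(9,1),(6,1),(1,1)]) (.cons (.leaf 1 []) .nil)))))) (.cons (.leaf 1 [(8,1)]) .nil)))))) .nil)))))) .nil)))))) (.cons (.keep [1,4,6,8,10] (.node (.cons (.leaf 1 [(5,1),(6,4),(7,3)]) (.cons (.leaf 1 [(3,1),(5,1),(6,1),(2,3)]) (.cons (.leaf 1 [(7,3),(6,4),(1,2),(5,1)]) (.cons (.leaf 1 [(5,1),(6,2),(7,1)]) .nil))))))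 (.cons (.keep [0,1,6,8,9] (.node (.cons (.keep [2,6,7,8] (.node (.cons (.keep [2,5,6,8] (.node (.cons (.leaf 2 [(6,2),(8,1),(5,1)]) (.cons (.leaf 1 [(6,1),(8,1),(2,1)]) (.cons (.leaf 1 [(1,2),(0,1),(5,1),(6,2)]) (.cons (.leaf 1 [(8,1),(6,1)]) .nil)))))) (.cons (.leaf 1 [(2,2),(8,1)]) (.cons (.keep [1,5,6,8] (.node (.cons (.leaf 2 [(5,1),(8,1),(6,2)]) (.cons (.leaf 1 [(8,1),(6,1),(2,1),(5,1)]) (.cons (.leaf 1 [(5,1),(0,1),(6,2),(1,2)]) (.cons (.leaf 1 [(8,1),(6,1),(5,1)]) .nil)))))) (.cons (.leaf 1 [(8,1)]) .nil)))))) (.cons (.leaf 1 [(3,1),(6,1),(2,3)]) (.cons (.keep [1,4,5,6,7,8] (.node (.cons (.keep [2,5,8,9,10] (.node (.cons (.leaf 1 [(5,1),(6,1),(8,2)]) (.cons (.leaf 1 [(2,2),(9,1),(8,2)]) (.cons (.leaf 1 [(1,2),(0,1),(5,1)]) (.cons (.leaf 1 [(8,2),(9,1)]) .nil)))))) (.cons (.leaf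 1 [(2,2),(10,1)]) (.cons (.keep [1,5,6,7,8,9,10] (.node (.cons (.leaf 1 [(8,1),(5,1)]) (.cons (.leaf 1 [(11,1),(2,2),(10,2)]) (.cons (.leaf 1 [(4,1),(1,1)]) (.cons (.leaf 1 [(11,1),(10,2)]) .nil)))))) (.cons (.leaf 1 [(10,1)]) .nil)))))) (.cons (.keep [0,3,6,7] (.node (.cons (.keep [2,5,6,7,8] (.node (.cons (.leaf 2 [(8,1),(9,2),(5,1)]) (.cons (.leaf 1 [(2,1),(9,1)]) (.cons (.leaf 2 [(8,1),(9,2),(5,1),(1,1)]) (.cons (.leaf 1 [(9,1)]) .nil)))))) (.cons (.leaf 1 [(2,1)]) (.cons (.keep [5,6,7,8] (.node (.cons (.leaf 1 [(7,1),(5,1),(8,1)]) (.cons (.leaf 1 [(2,1),(8,1)]) (.cons (.leaf 1 [(7,1),(5,1),(8,1),(1,1)]) (.cons (.leaf 1 [(8,1)]) .nil)))))) (.cons (.leaf 1 []) .nil)))))) .nil)))))) .nil)))))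

theorem c_18_24_0 : Concl 18 24 z_18_24_0 h_18_24_0 .nd := piece _ hP_nil t_18_24_0 _ _ (by
  decide +kernel)

def z_18_24_1 : F := ⟨1, 0, 0, -1, 1⟩

def h_18_24_1 : List F := [⟨1, 0, 0, -1, 0⟩, ⟨0, 0, -1, 1, 0⟩, ⟨0, 0, 0, -1, 1⟩, ⟨1, -1, 0, -1,
  1⟩]

def t_18_24_1 : T := (.node (.cons (.keep [2,4,5,6,7] (.node (.cons (.keep [2,4,5,6,7,8,9] (.node (.cons (.leaf 1 [(5,1),(6,1),(10,4)]) (.cons (.keep [2,6,9,10,11] (.node (.cons (.leaf 1 [(5,2),(8,4)]) (.cons (.leaf 1 [(3,1),(8,2),(2,2)]) (.cons (.keep [4,5,6,7,8] (.node (.cons (.keep [2,6,7,8,9] (.node (.cons (.leaf 2 [(9,1),(5,1)]) (.cons (.leaf 1 [(2,1)]) (.cons (.leaf 2 [(9,1),(5,1),(1,1)]) (.cons (.leaf 1 []) .nil)))))) (.cons (.leaf 1 [(2,1),(9,2),(6,1)]) (.cons (.keep [4,5,6,7,9] (.node (.cons (.leaf 2 [(9,3),(7,1),(8,1)]) (.cons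 (.leaf 1 [(9,2),(7,1),(2,1),(8,1)]) (.cons (.leaf 1 [(9,1),(4,1),(1,1)]) (.cons (.leaf 1 [(9,2),(7,1),(8,1)]) .nil)))))) (.cons (.leaf 1 [(9,2),(6,1)]) .nil)))))) (.cons (.keep [0,3,5,6,8] (.node (.cons (.keep [2,5,6,8,9] (.node (.cons (.leaf 2 [(9,3),(8,2),(5,1)]) (.cons (.leaf 1 [(9,1),(8,1),(2,1)]) (.cons (.leaf 2 [(9,3),(8,2),(5,1),(1,1)]) (.cons (.leaf 1 [(9,1),(8,1)]) .nil)))))) (.cons (.leaf 1 [(2,1),(9,1)]) (.cons (.keep [5,6,7,8,9] (.node (.cons (.leaf 1 [(9,3),(5,1),(8,1)]) (.cons (.leaf 1 [(9,1),(2,1),(8,1)]) (.cons (.leaf 1 [(9,3),(5,1),(8,1),(1,1)]) (.cons (.leaf 1 [(9,1),(8,1)]) .nil)))))) (.cons (.leaf 1 [(9,1)]) .nil)))))) .nil)))))) (.cons (.leaf 1 [(5,1),(1,2),(10,4),(6,1)]) (.cons (.keep [0,1,6,10,11] (.node (.cons (.leaf 1 [(6,1),(8,4)]) (.cons (.leaf 1 [(3,1),(6,1),(2,4)])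 (.cons (.keep [4,5,6,7,8] (.node (.cons (.keep [2,6,7,8,9] (.node (.cons (.leaf 1 [(6,1),(9,2),(5,1)]) (.cons (.leaf 1 [(9,2),(2,1),(8,1)]) (.cons (.leaf 1 [(4,1),(9,1),(5,1),(1,1)]) (.cons (.leaf 1 [(8,1),(9,2)]) .nil)))))) (.cons (.leaf 1 [(2,1),(9,2)]) (.cons (.keep [5,6,7,8,9] (.node (.cons (.leaf 2 [(9,3),(8,1)]) (.cons (.leaf 1 [(2,1),(9,2),(8,1)]) (.cons (.leaf 1 [(9,1),(4,1),(1,1)]) (.cons (.leaf 1 [(8,1),(9,2)]) .nil)))))) (.cons (.leaf 1 [(9,2)]) .nil)))))) (.cons (.keep [0,3,6,7] (.node (.cons (.keep [2,5,6,7,8] (.node (.cons (.leaf 2 [(8,1),(9,2),(5,1)]) (.cons (.leaf 1 [(2,1),(9,1)]) (.cons (.leaf 2 [(8,1),(9,2),(5,1),(1,1)]) (.cons (.leaf 1 [(9,1)]) .nil)))))) (.cons (.leaf 1 [(2,1)]) (.cons (.keep [5,6,7,8] (.node (.cons (.leaf 1 [(7,1),(5,1),(8,1)]) (.cons (.leaf 1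 [(2,1),(8,1)]) (.cons (.leaf 1 [(7,1),(5,1),(8,1),(1,1)]) (.cons (.leaf 1 [(8,1)]) .nil)))))) (.cons (.leaf 1 []) .nil)))))) .nil)))))) .nil)))))) (.cons (.keep [2,3,8,9] (.node (.cons (.leaf 1 [(5,1),(7,4)]) (.cons (.keep [2,5,6,7,8] (.node (.cons (.leaf 1 [(5,2),(7,1),(8,4)]) (.cons (.leaf 1 [(2,2),(3,1),(8,2),(7,1)]) (.cons (.keep [4,5,6,7,8] (.node (.cons (.keep [2,5,6,7,9] (.node (.cons (.leaf 2 [(9,5),(7,2),(5,1)]) (.cons (.leaf 1 [(2,1),(9,2),(7,1)]) (.cons (.leaf 2 [(9,5),(7,2),(5,1),(1,1)]) (.cons (.leaf 1 [(9,2),(7,1)]) .nil)))))) (.cons (.leaf 1 [(2,1),(9,2),(6,1),(8,1)]) (.cons (.keep [1,5,6,7,8] (.node (.cons (.leaf 2 [(6,1),(5,2),(9,3)]) (.cons (.leaf 1 [(2,5),(3,2),(5,2),(7,1)]) (.cons (.leaf 2 [(6,1),(5,2),(9,3),(1,1)]) (.cons (.leaf 1 [(9,1),(5,1)]) .nil)))))) (.cons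 (.leaf 1 [(8,1),(9,2),(6,1)]) .nil)))))) (.cons (.keep [0,3,5,7,8] (.node (.cons (.keep [2,5,7,8,9] (.node (.cons (.leaf 2 [(9,3),(5,1)]) (.cons (.leaf 1 [(9,1),(2,1)]) (.cons (.leaf 2 [(9,3),(5,1),(1,1)]) (.cons (.leaf 1 [(9,1)]) .nil)))))) (.cons (.leaf 1 [(2,1),(9,1),(8,1)]) (.cons (.keep [1,5,7,8,9] (.node (.cons (.leaf 1 [(9,3),(8,1),(6,1)]) (.cons (.leaf 1 [(3,1),(5,1),(2,3)]) (.cons (.leaf 1 [(9,3),(8,1),(6,1),(1,1)]) (.cons (.leaf 1 [(9,1)]) .nil)))))) (.cons (.leaf 1 [(8,1),(9,1)]) .nil)))))) .nil)))))) (.cons (.leaf 1 [(5,1),(1,2),(7,4)]) (.cons (.keep [0,1,6,7,8] (.node (.cons (.leaf 1 [(8,4),(6,1),(7,1)]) (.cons (.leaf 1 [(2,4),(3,1),(6,1),(7,1)]) (.cons (.keep [4,5,6,7,8] (.node (.cons (.keep [2,5,6,8,9] (.node (.cons (.leaf 2 [(9,3),(8,1),(5,1)]) (.cons (.leaf 1 [(9,2),(2,1)])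 (.cons (.leaf 1 [(4,3),(8,2),(5,2),(1,2)]) (.cons (.leaf 1 [(9,2)]) .nil)))))) (.cons (.leaf 1 [(2,1),(9,2),(8,1)]) (.cons (.keep [1,5,6,8,9] (.node (.cons (.leaf 2 [(9,3),(8,1)]) (.cons (.leaf 1 [(9,2),(2,1)]) (.cons (.leaf 1 [(4,3),(8,2),(1,2)]) (.cons (.leaf 1 [(9,2)]) .nil)))))) (.cons (.leaf 1 [(8,1),(9,2)]) .nil)))))) (.cons (.keep [0,3,6,7] (.node (.cons (.keep [2,5,6,7] (.node (.cons (.leaf 2 [(8,1),(5,1)]) (.cons (.leaf 1 [(2,1)]) (.cons (.leaf 2 [(8,1),(5,1),(1,1)]) (.cons (.leaf 1 []) .nil)))))) (.cons (.leaf 1 [(2,1),(7,1),(6,1),(3,1)]) (.cons (.keep [1,5,6,7,8] (.node (.cons (.leaf 1 [(8,1),(9,1),(6,1)]) (.cons (.leaf 1 [(2,1)]) (.cons (.leaf 1 [(8,1),(9,1),(6,1),(1,1)]) (.cons (.leaf 1 []) .nil)))))) (.cons (.leaf 1 [(8,1)]) .nil)))))) .nil)))))) .nil)))))) (.cons (.keep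 [1,4,5,6,7] (.node (.cons (.leaf 1 [(5,2),(6,5),(8,4)]) (.cons (.leaf 1 [(5,2),(6,1),(2,4),(3,2)]) (.cons (.leaf 1 [(5,2),(6,5),(8,4),(1,2)]) (.cons (.leaf 1 [(5,2),(6,3),(8,2)]) .nil)))))) (.cons (.keep [0,1,3,6,7,8] (.node (.cons (.keep [2,5,8,10] (.node (.cons (.keep [2,5,6,8] (.node (.cons (.leaf 2 [(8,1),(6,2),(5,1)]) (.cons (.leaf 1 [(2,1),(6,1)]) (.cons (.leaf 2 [(8,1),(6,2),(5,1),(1,1)]) (.cons (.leaf 1 [(6,1)]) .nil)))))) (.cons (.leaf 1 [(2,2)]) (.cons (.keep [1,5,6,8] (.node (.cons (.leaf 2 [(8,1),(6,2),(5,1)]) (.cons (.leaf 1 [(6,1),(2,1),(5,1)]) (.cons (.leaf 2 [(8,1),(6,2),(5,1),(1,1)]) (.cons (.leaf 1 [(6,1),(5,1)]) .nil)))))) (.cons (.leaf 1 []) .nil)))))) (.cons (.leaf 1 [(2,4),(6,2),(3,2)]) (.cons (.keep [1,5,8,10] (.node (.cons (.keep [2,5,6,7,8] (.node (.cons (.leaf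 3 [(9,2),(8,2),(5,2)]) (.cons (.leaf 1 [(2,2),(8,2)]) (.cons (.leaf 3 [(9,2),(8,2),(5,2),(1,2)]) (.cons (.leaf 1 [(8,2)]) .nil)))))) (.cons (.leaf 1 [(2,2)]) (.cons (.keep [1,5,6,7,8] (.node (.cons (.leaf 3 [(9,2),(8,2)]) (.cons (.leaf 1 [(2,2),(8,2)]) (.cons (.leaf 3 [(9,2),(1,2),(8,2)]) (.cons (.leaf 1 [(8,2)]) .nil)))))) (.cons (.leaf 1 []) .nil)))))) (.cons (.leaf 1 [(10,2)]) .nil)))))) .nil)))))) (.cons (.keep [2,3,6,8] (.node (.cons (.keep [2,5,6,7] (.node (.cons (.leaf 1 [(5,2),(7,2),(8,5)]) (.cons (.leaf 1 [(2,2),(7,2),(8,3)]) (.cons (.leaf 1 [(1,2),(7,2),(8,5),(5,2)]) (.cons (.leaf 1 [(8,3),(7,2)]) .nil)))))) (.cons (.keep [2,3,6,7,8] (.node (.cons (.leaf 1 [(5,1),(7,1),(8,4)]) (.cons (.leaf 1 [(2,2),(7,2),(6,1),(8,3)]) (.cons (.leaf 1 [(5,1),(7,1),(1,2),(8,4)]) (.cons (.leaf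 1 [(8,3),(7,2),(6,1)]) .nil)))))) (.cons (.keep [1,4,5,6,7] (.node (.cons (.keep [2,6,7,8,9] (.node (.cons (.leaf 1 [(8,3),(6,1),(5,2)]) (.cons (.leaf 1 [(8,1),(6,1),(2,2)]) (.cons (.leaf 1 [(8,3),(6,1),(5,2),(1,2)]) (.cons (.leaf 1 [(8,1),(6,1)]) .nil)))))) (.cons (.leaf 1 [(2,3),(5,2),(6,2),(3,1)]) (.cons (.keep [1,6,7,8,9] (.node (.cons (.leaf 2 [(5,2),(6,5),(9,3)]) (.cons (.leaf 1 [(3,1),(6,1),(5,1),(2,3)]) (.cons (.leaf 2 [(5,2),(6,5),(9,3),(1,1)]) (.cons (.leaf 1 [(8,1),(6,1)]) .nil)))))) (.cons (.leaf 1 [(9,1),(5,1),(6,2)]) .nil)))))) (.cons (.keep [0,3,5,6,7] (.node (.cons (.keep [2,5,7,8,9] (.node (.cons (.leaf 1 [(8,3),(5,2)]) (.cons (.leaf 1 [(8,1),(2,2)]) (.cons (.leaf 1 [(8,3),(5,2),(1,2)]) (.cons (.leaf 1 [(8,1)]) .nil)))))) (.cons (.leaf 1 [(2,2),(8,1),(9,2)]) (.cons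 (.keep [1,5,7,8,9] (.node (.cons (.keep [2,6,8,9] (.node (.cons (.leaf 3 [(7,1),(8,2),(5,2)]) (.cons (.leaf 1 [(2,2),(8,1),(0,1)]) (.cons (.leaf 3 [(8,2),(1,2),(5,2),(7,1)]) (.cons (.leaf 1 [(8,1),(0,1),(1,1)]) .nil)))))) (.cons (.leaf 1 [(3,1),(5,1),(2,3)]) (.cons (.keep [1,6,8,9] (.node (.cons (.leaf 3 [(7,1),(8,2)]) (.cons (.leaf 1 [(2,2),(8,1),(5,1),(0,1)]) (.cons (.leaf 3 [(7,1),(1,2),(8,2)]) (.cons (.leaf 1 [(8,1),(0,1),(5,1),(1,1)]) .nil)))))) (.cons (.leaf 1 [(8,1)]) .nil)))))) (.cons (.leaf 1 [(9,2),(8,1)]) .nil)))))) .nil)))))) (.cons (.keep [1,4,5,6] (.node (.cons (.keep [2,5,6,7] (.node (.cons (.leaf 3 [(5,1),(7,7),(6,2)]) (.cons (.leaf 2 [(2,1),(7,4),(6,1)]) (.cons (.leaf 3 [(5,1),(7,7),(6,2),(1,1)]) (.cons (.leaf 2 [(6,1),(7,4)]) .nil)))))) (.cons (.leaf 1 [(2,1),(5,1),(6,2)])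 (.cons (.keep [1,5,6,7] (.node (.cons (.leaf 3 [(6,2),(7,7),(5,1)]) (.cons (.leaf 1 [(2,2),(7,1),(5,1),(3,1)]) (.cons (.leaf 3 [(6,2),(7,7),(5,1),(1,1)]) (.cons (.leaf 2 [(6,1),(7,4),(5,1)]) .nil)))))) (.cons (.leaf 1 [(5,1),(6,2)]) .nil)))))) (.cons (.keep [0,1,3,6] (.node (.cons (.keep [2,5,6,7,8] (.node (.cons (.leaf 1 [(5,1),(9,2)]) (.cons (.leaf 1 [(2,1),(9,1)]) (.cons (.leaf 1 [(5,1),(9,2),(1,1)]) (.cons (.leaf 1 [(9,1)]) .nil)))))) (.cons (.leaf 1 [(2,2),(8,1),(6,1),(3,1)]) (.cons (.keep [1,4,5,6,7,8] (.node (.cons (.keep [2,6,7,10] (.node (.cons (.leaf 2 [(6,1),(8,1),(5,1)]) (.cons (.leaf 1 [(2,1)]) (.cons (.leaf 2 [(6,1),(8,1),(5,1),(1,1)]) (.cons (.leaf 1 []) .nil)))))) (.cons (.leaf 1 [(2,2),(5,1),(3,1)]) (.cons (.keep [1,6,7,10] (.node (.cons (.leaf 2 [(6,1),(8,1)]) (.cons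 (.leaf 1 [(2,1)]) (.cons (.leaf 2 [(6,1),(8,1),(1,1)]) (.cons (.leaf 1 []) .nil)))))) (.cons (.leaf 1 [(10,1)]) .nil)))))) (.cons (.keep [0,3,6,8] (.node (.cons (.keep [2,5,6,7] (.node (.cons (.leaf 2 [(8,1),(5,1)]) (.cons (.leaf 1 [(2,1)]) (.cons (.leaf 2 [(8,1),(5,1),(1,1)]) (.cons (.leaf 1 []) .nil)))))) (.cons (.leaf 1 [(2,1),(7,1),(6,1),(3,1)]) (.cons (.keep [1,5,6,7,8] (.node (.cons (.leaf 1 [(8,1),(9,1),(6,1)]) (.cons (.leaf 1 [(2,1)]) (.cons (.leaf 1 [(8,1),(9,1),(6,1),(1,1)]) (.cons (.leaf 1 []) .nil)))))) (.cons (.leaf 1 [(8,1)]) .nil)))))) .nil)))))) .nil)))))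

theorem c_18_24_1 : Concl 18 24 z_18_24_1 h_18_24_1 .nd := piece _ hP_nil t_18_24_1 _ _ (by
  decide +kernel)

def t_18_24 : T := (.keep [0,1,2] (.node (.cons (.keep [2,4,5,6,7] (.node (.cons (.keep [2,4,5,6,7,9] (.leaf 0 [(0,0)])) (.cons (.keep [2,3,6,7,8] (.node (.cons (.keep [2,4,5,6,7,8] (.node (.cons (.keep [2,5,6,7,10] (.node (.cons (.leaf 1 [(5,2),(9,4),(7,4)]) (.cons (.leaf 1 [(2,2),(9,2),(7,2)]) (.cons (.leaf 1 [(5,2),(9,4),(7,4),(1,2)]) (.cons (.leaf 1 [(7,2),(9,2)]) .nil)))))) (.cons (.keep [2,3,7,8,10] (.node (.cons (.leaf 1 [(5,2),(8,4)]) (.cons (.leaf 1 [(2,2),(8,2)]) (.cons (.leaf 1 [(5,2),(8,4),(1,2)]) (.cons (.leaf 1 [(8,2)]) .nil)))))) (.cons (.keep [1,4,5,6,7] (.node (.cons (.leaf 1 [(8,4),(6,4),(5,2)]) (.cons (.leaf 1 [(2,4),(5,2),(3,2)]) (.cons (.leaf 1 [(8,4),(6,4),(5,2),(1,2)])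 (.cons (.leaf 1 [(8,2),(6,2),(5,2)]) .nil)))))) (.cons (.keep [0,1,3,6,7,8] (.node (.cons (.keep [2,5,8,10] (.node (.cons (.keep [2,5,6,8] (.node (.cons (.leaf 2 [(8,1),(6,2),(5,1)]) (.cons (.leaf 1 [(2,1),(6,1)]) (.cons (.leaf 2 [(8,1),(6,2),(5,1),(1,1)]) (.cons (.leaf 1 [(6,1)]) .nil)))))) (.cons (.leaf 1 [(2,2)]) (.cons (.keep [1,5,6,8] (.node (.cons (.leaf 2 [(8,1),(6,2),(5,1)]) (.cons (.leaf 1 [(6,1),(2,1),(5,1)]) (.cons (.leaf 2 [(8,1),(6,2),(5,1),(1,1)]) (.cons (.leaf 1 [(6,1),(5,1)]) .nil)))))) (.cons (.leaf 1 []) .nil)))))) (.cons (.leaf 1 [(2,4),(6,2),(3,2)]) (.cons (.keep [1,5,8,10] (.node (.cons (.keep [2,5,6,7,8] (.node (.cons (.leaf 3 [(9,2),(8,2),(5,2)]) (.cons (.leaf 1 [(2,2),(8,2)]) (.cons (.leaf 3 [(9,2),(8,2),(5,2),(1,2)]) (.cons (.leaf 1 [(8,2)]) .nil)))))) (.cons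 (.leaf 1 [(2,2)]) (.cons (.keep [1,5,6,7,8] (.node (.cons (.leaf 3 [(9,2),(8,2)]) (.cons (.leaf 1 [(2,2),(8,2)]) (.cons (.leaf 3 [(9,2),(1,2),(8,2)]) (.cons (.leaf 1 [(8,2)]) .nil)))))) (.cons (.leaf 1 []) .nil)))))) (.cons (.leaf 1 [(10,2)]) .nil)))))) .nil)))))) (.cons (.keep [2,3,6,8] (.node (.cons (.keep [2,5,6,7] (.node (.cons (.leaf 1 [(5,2),(7,1),(8,4)]) (.cons (.leaf 1 [(2,2),(7,1),(8,2)]) (.cons (.leaf 1 [(5,2),(7,1),(8,4),(1,2)]) (.cons (.leaf 1 [(8,2),(7,1)]) .nil)))))) (.cons (.keep [2,3,5,6,7] (.node (.cons (.leaf 1 [(5,2),(8,1),(9,4)]) (.cons (.leaf 1 [(2,2),(8,1),(9,2)]) (.cons (.leaf 1 [(5,2),(8,1),(9,4),(1,2)]) (.cons (.leaf 1 [(9,2),(8,1)]) .nil)))))) (.cons (.keep [1,4,5,6,7] (.node (.cons (.keep [2,6,7,8,9] (.node (.cons (.leaf 1 [(8,3),(5,2)]) (.cons (.leaf 1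 [(8,1),(2,2)]) (.cons (.leaf 1 [(8,3),(5,2),(1,2)]) (.cons (.leaf 1 [(8,1)]) .nil)))))) (.cons (.leaf 1 [(2,3),(6,1),(5,2),(3,1)]) (.cons (.keep [1,6,7,8,9] (.node (.cons (.leaf 2 [(5,2),(9,3),(6,3)]) (.cons (.leaf 1 [(3,1),(5,1),(2,3)]) (.cons (.leaf 2 [(5,2),(9,3),(6,3),(1,1)]) (.cons (.leaf 1 [(8,1)]) .nil)))))) (.cons (.leaf 1 [(9,1),(6,1),(5,1)]) .nil)))))) (.cons (.keep [0,3,5,6,7] (.node (.cons (.keep [2,5,7,8,9] (.node (.cons (.leaf 1 [(8,3),(5,2)]) (.cons (.leaf 1 [(8,1),(2,2)]) (.cons (.leaf 1 [(8,3),(5,2),(1,2)]) (.cons (.leaf 1 [(8,1)]) .nil)))))) (.cons (.leaf 1 [(2,2),(8,1),(9,2)]) (.cons (.keep [1,5,7,8,9] (.node (.cons (.keep [2,6,8,9] (.node (.cons (.leaf 3 [(7,1),(8,2),(5,2)]) (.cons (.leaf 1 [(2,2),(8,1),(0,1)]) (.cons (.leaf 3 [(8,2),(1,2),(5,2),(7,1)]) (.cons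 (.leaf 1 [(8,1),(0,1),(1,1)]) .nil)))))) (.cons (.leaf 1 [(3,1),(5,1),(2,3)]) (.cons (.keep [1,6,8,9] (.node (.cons (.leaf 3 [(7,1),(8,2)]) (.cons (.leaf 1 [(2,2),(8,1),(5,1),(0,1)]) (.cons (.leaf 3 [(7,1),(1,2),(8,2)]) (.cons (.leaf 1 [(8,1),(0,1),(5,1),(1,1)]) .nil)))))) (.cons (.leaf 1 [(8,1)]) .nil)))))) (.cons (.leaf 1 [(9,2),(8,1)]) .nil)))))) .nil)))))) (.cons (.keep [1,4,5,7] (.node (.cons (.keep [2,5,6,7] (.node (.cons (.leaf 3 [(6,1),(7,8),(5,2)]) (.cons (.leaf 1 [(7,2),(2,1)]) (.cons (.leaf 3 [(7,8),(1,2),(5,2),(6,1)]) (.cons (.leaf 1 [(7,2)]) .nil)))))) (.cons (.leaf 1 [(2,2),(5,1),(6,2)]) (.cons (.keep [1,5,6,7] (.node (.cons (.leaf 3 [(6,1),(7,8),(5,2)]) (.cons (.leaf 1 [(7,2),(2,1),(5,1)]) (.cons (.leaf 3 [(7,8),(1,2),(5,2),(6,1)]) (.cons (.leaf 1 [(7,2),(5,1)]) .nil))))))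 (.cons (.leaf 1 [(5,1),(6,2)]) .nil)))))) (.cons (.keep [0,1,3,5,6,7,8] (.node (.cons (.keep [2,6,7,9,10] (.node (.cons (.leaf 1 [(8,3),(9,1),(5,2)]) (.cons (.leaf 1 [(8,1),(9,1),(2,2)]) (.cons (.leaf 1 [(8,3),(9,1),(5,2),(1,2)]) (.cons (.leaf 1 [(8,1),(9,1)]) .nil)))))) (.cons (.leaf 1 [(2,3),(3,1),(6,1),(9,1)]) (.cons (.keep [1,4,5,6,7,8,9,10] (.node (.cons (.keep [2,6,7,11,12] (.node (.cons (.leaf 1 [(5,1),(8,2),(7,1)]) (.cons (.leaf 1 [(2,2),(9,1),(0,1)]) (.cons (.leaf 1 [(1,1),(8,1),(4,1),(5,1)]) (.cons (.leaf 1 [(0,1),(9,1),(1,1)]) .nil)))))) (.cons (.leaf 1 [(3,1),(12,1),(2,3),(5,1)]) (.cons (.keep [1,6,7,11,12] (.node (.cons (.leaf 1 [(8,2),(5,1),(7,1)]) (.cons (.leaf 1 [(2,2),(9,1),(5,1),(0,1)]) (.cons (.leaf 1 [(1,1),(4,1),(8,1)]) (.cons (.leaf 1 [(0,1),(9,1),(5,1),(1,1)])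 .nil)))))) (.cons (.leaf 1 [(11,1),(12,1)]) .nil)))))) (.cons (.keep [0,3,6,9] (.node (.cons (.keep [2,5,6,7] (.node (.cons (.leaf 2 [(8,1),(5,1)]) (.cons (.leaf 1 [(2,1)]) (.cons (.leaf 2 [(8,1),(5,1),(1,1)]) (.cons (.leaf 1 []) .nil)))))) (.cons (.leaf 1 [(2,1),(7,1),(6,1),(3,1)]) (.cons (.keep [1,5,6,7,8] (.node (.cons (.leaf 1 [(8,1),(9,1),(6,1)]) (.cons (.leaf 1 [(2,1)]) (.cons (.leaf 1 [(8,1),(9,1),(6,1),(1,1)]) (.cons (.leaf 1 []) .nil)))))) (.cons (.leaf 1 [(8,1)]) .nil)))))) .nil)))))) .nil)))))) (.cons (.keep [1,4,5,6,9] (.node (.cons (.leaf 1 [(5,1),(6,3),(8,2)]) (.cons (.leaf 1 [(2,2),(5,1),(6,1),(3,1)]) (.cons (.leaf 1 [(5,1),(6,3),(8,2),(1,1)]) (.cons (.leaf 1 [(5,1),(6,2),(8,1)]) .nil)))))) (.cons (.keep [0,1,3,6,7] (.node (.cons (.keep [2,5,6,8] (.node (.cons (.keep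 [2,5,6,7] (.node (.cons (.leaf 7 [(8,1),(6,4),(5,2)]) (.cons (.leaf 2 [(2,1),(6,1)]) (.cons (.leaf 7 [(8,1),(6,4),(5,2),(1,2)]) (.cons (.leaf 2 [(6,1)]) .nil)))))) (.cons (.leaf 1 [(2,1)]) (.cons (.keep [1,5,6,7] (.node (.cons (.leaf 7 [(8,1),(6,4),(5,2)]) (.cons (.leaf 2 [(6,1),(2,1),(5,1)]) (.cons (.leaf 7 [(8,1),(6,4),(5,2),(1,2)]) (.cons (.leaf 2 [(6,1),(5,1)]) .nil)))))) (.cons (.leaf 1 []) .nil)))))) (.cons (.leaf 1 [(2,2),(6,1),(3,1)]) (.cons (.keep [1,4,5,6,8] (.node (.cons (.keep [2,5,7,8,9] (.node (.cons (.leaf 4 [(8,1),(9,3),(5,2)]) (.cons (.leaf 1 [(2,1),(9,1)]) (.cons (.leaf 1 [(8,1),(4,3),(5,2),(1,2)]) (.cons (.leaf 1 [(9,1)]) .nil)))))) (.cons (.leaf 1 [(2,1)]) (.cons (.keep [1,5,6,7,8,9] (.node (.cons (.leaf 1 [(7,2),(8,1),(5,1)]) (.cons (.leaf 1 [(2,1),(10,1)]) (.cons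 (.leaf 1 [(7,2),(0,1),(5,1),(1,2)]) (.cons (.leaf 1 [(10,1)]) .nil)))))) (.cons (.leaf 1 []) .nil)))))) (.cons (.keep [0,3,6,8] (.node (.cons (.keep [2,5,6,7,8] (.node (.cons (.leaf 2 [(8,1),(9,2),(5,1)]) (.cons (.leaf 1 [(2,1),(9,1)]) (.cons (.leaf 2 [(8,1),(9,2),(5,1),(1,1)]) (.cons (.leaf 1 [(9,1)]) .nil)))))) (.cons (.leaf 1 [(2,1)]) (.cons (.keep [5,6,7,8] (.node (.cons (.leaf 1 [(7,1),(5,1),(8,1)]) (.cons (.leaf 1 [(2,1),(8,1)]) (.cons (.leaf 1 [(7,1),(5,1),(8,1),(1,1)]) (.cons (.leaf 1 [(8,1)]) .nil)))))) (.cons (.leaf 1 []) .nil)))))) .nil)))))) .nil)))))) (.cons (.keep [2,3,5,6] (.leaf 0 [(1,0)])) (.cons (.leaf 1 [(4,1)]) (.cons (.leaf 1 []) .nil))))))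

theorem e_18_24 : ESB (caseOf 4 18 24) := esb_of_pieces _ (hP_cons c_18_24_0 (hP_cons c_18_24_1
  hP_nil)) t_18_24 (by decide +kernel)

def t_18_25 : T := (.keep [0,1,2] (.node (.cons (.keep [0,4,5,7,8] (.node (.cons (.keep [0,4,5,6,7,10] (.node (.cons (.leaf 1 [(10,1)]) (.cons (.leaf 1 [(10,1),(3,1)]) (.cons (.leaf 1 [(10,1),(3,1)]) (.cons (.leaf 1 [(5,1)]) (.cons (.leaf 1 [(5,1)]) (.cons (.leaf 1 []) .nil)))))))) (.cons (.keep [3,5,6,7,8] (.node (.cons (.leaf 1 [(9,1),(6,1)]) (.cons (.leaf 1 [(9,1),(6,1),(3,1)]) (.cons (.leaf 1 [(9,1),(6,1),(3,1)]) (.cons (.leaf 1 [(6,1),(5,1)]) (.cons (.leaf 1 [(6,1),(5,1)]) (.cons (.leaf 1 [(6,1)]) .nil)))))))) (.cons (.keep [2,3,7,8,9] (.node (.cons (.leaf 1 [(8,1),(7,1)]) (.cons (.leaf 1 [(8,1),(3,2)]) (.cons (.leaf 1 [(8,1),(7,1),(3,1)]) (.cons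 (.leaf 1 [(7,1),(5,1)]) (.cons (.leaf 1 [(3,1),(5,1)]) (.cons (.leaf 1 [(7,1)]) .nil)))))))) (.cons (.leaf 1 [(5,1)]) (.cons (.leaf 1 [(5,1)]) (.cons (.leaf 1 []) .nil)))))))) (.cons (.keep [3,5,6,7,8] (.node (.cons (.keep [5,6,7,8,10] (.node (.cons (.leaf 1 []) (.cons (.leaf 1 [(3,1)]) (.cons (.leaf 1 [(3,1)]) (.cons (.leaf 1 [(7,1),(5,1)]) (.cons (.leaf 1 [(7,1),(5,1)]) (.cons (.leaf 1 [(7,1)]) .nil)))))))) (.cons (.keep [3,5,7,9,10] (.node (.cons (.leaf 1 [(6,1)]) (.cons (.leaf 1 [(6,1),(3,1)]) (.cons (.leaf 1 [(6,1),(3,1)]) (.cons (.leaf 1 [(8,1),(6,2),(5,1)]) (.cons (.leaf 1 [(8,1),(6,2),(5,1)]) (.cons (.leaf 1 [(8,1),(6,2)]) .nil)))))))) (.cons (.keep [3,6,7,9,10] (.node (.cons (.leaf 1 [(6,1)]) (.cons (.leaf 1 [(3,2)]) (.cons (.leaf 1 [(6,1),(3,1)]) (.cons (.leaf 1 [(7,1),(6,1),(5,1)])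 (.cons (.leaf 1 [(7,1),(3,1),(5,1)]) (.cons (.leaf 1 [(7,1),(6,1)]) .nil)))))))) (.cons (.leaf 1 [(6,1),(5,1)]) (.cons (.leaf 1 [(6,1),(5,1)]) (.cons (.leaf 1 [(6,1)]) .nil)))))))) (.cons (.keep [2,3,4,6,7] (.node (.cons (.keep [4,5,6,7,8] (.node (.cons (.leaf 1 [(10,1)]) (.cons (.leaf 1 [(10,1),(3,1)]) (.cons (.leaf 1 [(10,1),(3,1)]) (.cons (.leaf 1 [(9,1),(5,1)]) (.cons (.leaf 1 [(9,1),(5,1)]) (.cons (.leaf 1 [(9,1)]) .nil)))))))) (.cons (.keep [3,5,6,8,9] (.node (.cons (.leaf 1 [(9,1),(6,1)]) (.cons (.leaf 1 [(9,1),(6,1),(3,1)]) (.cons (.leaf 1 [(9,1),(6,1),(3,1)]) (.cons (.leaf 1 [(6,2),(5,1)]) (.cons (.leaf 1 [(6,2),(5,1)]) (.cons (.leaf 1 [(6,2)]) .nil)))))))) (.cons (.keep [4,6,7,8,10] (.node (.cons (.leaf 1 [(9,1),(8,1),(6,1)]) (.cons (.leaf 1 [(9,1),(3,2)]) (.cons (.leaf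 1 [(9,1),(8,1),(6,1),(3,1)]) (.cons (.leaf 1 [(8,2),(6,1),(5,1)]) (.cons (.leaf 1 [(8,1),(3,1),(5,1)]) (.cons (.leaf 1 [(8,2),(6,1)]) .nil)))))))) (.cons (.leaf 1 [(7,1),(5,1)]) (.cons (.leaf 1 [(3,1),(5,1)]) (.cons (.leaf 1 [(7,1)]) .nil)))))))) (.cons (.leaf 1 [(5,1)]) (.cons (.leaf 1 [(5,1)]) (.cons (.leaf 1 []) .nil))))))))

theorem e_18_25 : ESB (caseOf 4 18 25) := esb_of_ok (t := t_18_25) (by decide +kernel)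

def t_18_26 : T := (.keep [0,1,2] (.node (.cons (.leaf 1 []) (.cons (.leaf 1 [(3,1)]) (.cons (.leaf 1 [(3,1)]) (.cons (.leaf 1 [(5,1)]) (.cons (.leaf 1 [(5,1)]) (.cons (.leaf 1 []) .nil))))))))

theorem e_18_26 : ESB (caseOf 4 18 26) := esb_of_ok (t := t_18_26) (by decide +kernel)

def t_18_27 : T := (.keep [0,1,2] (.node (.cons (.leaf 1 [(4,1)]) (.cons (.leaf 1 []) (.cons (.leaf 1 [(4,1)]) (.cons (.leaf 1 [(4,1)]) (.cons (.leaf 1 [(6,1)]) (.cons (.leaf 1 [(6,1)]) (.cons (.leaf 1 [(6,1)]) (.cons (.leaf 1 []) .nil))))))))))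

theorem e_18_27 : ESB (caseOf 4 18 27) := esb_of_ok (t := t_18_27) (by decide +kernel)

def z_18_28_0 : F := ⟨0, -1, 0, 0, 2⟩

def h_18_28_0 : List F := [⟨0, 1, -1, 0, 0⟩, ⟨0, 1, 0, -1, 0⟩, ⟨1, -1, 0, 0, 0⟩, ⟨-1, 0, 0, 0, 1⟩]

def t_18_28_0 : T := (.node (.cons (.keep [5,6,7,8,9] (.node (.cons (.leaf 1 [(10,1),(8,1)]) (.cons (.leaf 1 [(6,1)]) (.cons (.leaf 1 [(2,1)]) (.cons (.leaf 1 [(10,1),(8,1),(1,1)]) (.cons (.leaf 1 [(6,1),(1,1)]) (.cons (.leaf 1 []) .nil)))))))) (.cons (.keep [5,6,7,8,9] (.node (.cons (.keep [2,4,7,8,10] (.node (.cons (.leaf 1 [(7,1),(8,1)]) (.cons (.leaf 2 [(6,1),(8,1)]) (.cons (.leaf 1 [(2,1),(8,1)]) (.cons (.leaf 1 [(1,1),(8,1),(7,1)]) (.cons (.leaf 1 [(1,2),(0,1),(6,1)]) (.cons (.leaf 1 [(8,1)]) .nil)))))))) (.cons (.keep [2,3,6,8,9,10] (.node (.cons (.leaf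 2 [(8,2),(9,1)]) (.cons (.leaf 1 [(3,1),(6,1)]) (.cons (.leaf 2 [(2,2),(3,1),(9,1)]) (.cons (.leaf 2 [(8,2),(9,1),(1,1)]) (.cons (.leaf 1 [(3,1),(6,1)]) (.cons (.leaf 2 [(8,1),(9,1)]) .nil)))))))) (.cons (.leaf 1 [(2,1)]) (.cons (.keep [1,4,8,9,10] (.node (.cons (.leaf 2 [(8,1),(6,1),(7,1)]) (.cons (.leaf 3 [(8,1),(6,1)]) (.cons (.leaf 2 [(8,1),(2,1),(6,1)]) (.cons (.leaf 2 [(8,1),(6,1),(7,1),(1,1)]) (.cons (.leaf 1 [(5,1),(1,1)]) (.cons (.leaf 2 [(8,1),(6,1)]) .nil)))))))) (.cons (.keep [1,3,6,8,9,10] (.node (.cons (.leaf 2 [(8,2),(9,1),(6,1)]) (.cons (.leaf 1 [(3,1)]) (.cons (.leaf 2 [(2,2),(9,1),(6,1),(3,1)]) (.cons (.leaf 2 [(8,2),(9,1),(6,1),(1,1)]) (.cons (.leaf 1 [(3,1)]) (.cons (.leaf 2 [(8,1),(9,1),(6,1)]) .nil)))))))) (.cons (.leaf 1 []) .nil)))))))) (.cons (.keep [2,6,7,8,9]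 (.node (.cons (.keep [2,4,8,9,10] (.node (.cons (.leaf 2 [(7,1),(8,1)]) (.cons (.leaf 3 [(6,1),(8,1)]) (.cons (.leaf 2 [(2,1),(8,1)]) (.cons (.leaf 2 [(1,1),(8,1),(7,1)]) (.cons (.leaf 1 [(1,2),(0,1),(6,1)]) (.cons (.leaf 2 [(8,1)]) .nil)))))))) (.cons (.keep [2,6,7,8,10] (.node (.cons (.keep [2,6,7,8,10] (.node (.cons (.leaf 4 [(8,2),(7,1)]) (.cons (.leaf 5 [(8,3),(6,1)]) (.cons (.leaf 1 [(8,1),(0,1)]) (.cons (.leaf 1 [(5,1),(7,1),(1,1)]) (.cons (.leaf 1 [(5,3),(6,2),(1,2)]) (.cons (.leaf 3 [(8,2)]) .nil)))))))) (.cons (.leaf 1 [(3,1),(6,1)]) (.cons (.leaf 2 [(2,1),(7,1)]) (.cons (.keep [1,6,7,8,10] (.node (.cons (.leaf 2 [(4,2),(6,1),(7,3)]) (.cons (.leaf 5 [(8,3),(6,1)]) (.cons (.leaf 3 [(8,2),(2,1),(6,1)]) (.cons (.leaf 2 [(4,2),(6,1),(7,3),(1,1)]) (.cons (.leaf 2 [(8,1),(5,1),(1,1)])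 (.cons (.leaf 3 [(8,2),(6,1)]) .nil)))))))) (.cons (.leaf 1 [(3,1),(6,1)]) (.cons (.leaf 2 [(7,1)]) .nil)))))))) (.cons (.leaf 1 [(2,1)]) (.cons (.keep [1,4,8,9,10] (.node (.cons (.leaf 2 [(8,1),(6,1),(7,1)]) (.cons (.leaf 3 [(8,1),(6,1)]) (.cons (.leaf 2 [(8,1),(2,1),(6,1)]) (.cons (.leaf 2 [(8,1),(6,1),(7,1),(1,1)]) (.cons (.leaf 1 [(5,1),(1,1)]) (.cons (.leaf 2 [(8,1),(6,1)]) .nil)))))))) (.cons (.keep [1,6,8,9,10] (.node (.cons (.keep [2,6,7,9,10] (.node (.cons (.leaf 4 [(8,2),(7,1)]) (.cons (.leaf 5 [(8,3),(6,1),(7,2)]) (.cons (.leaf 1 [(8,1),(0,1),(7,1)]) (.cons (.leaf 1 [(5,1),(1,1)]) (.cons (.leaf 1 [(6,2),(7,1),(5,3),(1,2)]) (.cons (.leaf 3 [(8,2),(7,1)]) .nil)))))))) (.cons (.leaf 1 [(3,1)]) (.cons (.leaf 2 [(2,1),(7,1),(6,1)]) (.cons (.keep [1,6,7,9,10] (.node (.cons (.leaf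 3 [(8,1),(4,1),(6,1)]) (.cons (.leaf 5 [(8,3),(7,2),(6,1)]) (.cons (.leaf 1 [(8,1),(0,1),(6,1),(7,1)]) (.cons (.leaf 1 [(5,1),(1,1)]) (.cons (.leaf 2 [(8,1),(7,1),(5,1),(1,1)]) (.cons (.leaf 3 [(8,2),(7,1),(6,1)]) .nil)))))))) (.cons (.leaf 1 [(3,1)]) (.cons (.leaf 2 [(7,1),(6,1)]) .nil)))))))) (.cons (.leaf 1 []) .nil)))))))) (.cons (.keep [1,5,6,7,8] (.node (.cons (.leaf 1 [(7,1),(9,1),(6,1)]) (.cons (.leaf 1 [(7,1)]) (.cons (.leaf 1 [(2,1)]) (.cons (.leaf 1 [(7,1),(9,1),(6,1),(1,1)]) (.cons (.leaf 1 [(7,1),(1,1)]) (.cons (.leaf 1 []) .nil)))))))) (.cons (.keep [1,5,6,7,8] (.node (.cons (.keep [2,4,6,9,10] (.node (.cons (.leaf 2 [(7,1),(9,1)]) (.cons (.leaf 3 [(6,1),(9,1)]) (.cons (.leaf 2 [(2,1),(9,1)]) (.cons (.leaf 2 [(1,1),(9,1),(7,1)]) (.cons (.leaf 1 [(1,2),(0,1),(6,1)]) (.cons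 (.leaf 2 [(9,1)]) .nil)))))))) (.cons (.keep [2,6,7,9,10] (.node (.cons (.leaf 2 [(8,2),(9,1)]) (.cons (.leaf 1 [(3,1),(6,1)]) (.cons (.leaf 2 [(2,2),(3,1),(9,1)]) (.cons (.leaf 2 [(8,2),(9,1),(1,1)]) (.cons (.leaf 1 [(3,1),(6,1)]) (.cons (.leaf 2 [(8,1),(9,1)]) .nil)))))))) (.cons (.leaf 1 [(2,1)]) (.cons (.keep [1,4,6,9,10] (.node (.cons (.leaf 2 [(9,1),(6,1),(7,1)]) (.cons (.leaf 3 [(9,1),(6,1)]) (.cons (.leaf 2 [(9,1),(2,1),(6,1)]) (.cons (.leaf 2 [(9,1),(6,1),(7,1),(1,1)]) (.cons (.leaf 1 [(5,1),(1,1)]) (.cons (.leaf 2 [(9,1),(6,1)]) .nil)))))))) (.cons (.keep [1,6,7,9,10] (.node (.cons (.leaf 2 [(8,2),(9,1),(6,1)]) (.cons (.leaf 1 [(3,1)]) (.cons (.leaf 2 [(2,2),(9,1),(6,1),(3,1)]) (.cons (.leaf 2 [(8,2),(9,1),(6,1),(1,1)]) (.cons (.leaf 1 [(3,1)]) (.cons (.leaf 2 [(8,1),(9,1),(6,1)])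 .nil)))))))) (.cons (.leaf 1 []) .nil)))))))) (.cons (.keep [0,1,6,7] (.node (.cons (.keep [2,4,7,8,9] (.node (.cons (.leaf 1 [(7,1),(9,1)]) (.cons (.leaf 2 [(6,1),(9,1)]) (.cons (.leaf 1 [(2,1),(9,1)]) (.cons (.leaf 1 [(1,1),(9,1),(7,1)]) (.cons (.leaf 1 [(1,2),(0,1),(6,1)]) (.cons (.leaf 1 [(9,1)]) .nil)))))))) (.cons (.keep [2,7,8,9] (.node (.cons (.keep [2,6,7,8] (.node (.cons (.leaf 2 [(9,2),(7,1)]) (.cons (.leaf 2 [(9,3),(6,1)]) (.cons (.leaf 1 [(9,2),(2,1)]) (.cons (.leaf 1 [(5,1),(7,1),(1,1)]) (.cons (.leaf 1 [(5,3),(6,2),(1,2)]) (.cons (.leaf 1 [(9,2)]) .nil)))))))) (.cons (.leaf 1 [(3,1),(6,1)]) (.cons (.leaf 1 [(2,1),(8,1)]) (.cons (.keep [1,6,7,8] (.node (.cons (.leaf 2 [(4,2),(6,1),(7,3)]) (.cons (.leaf 2 [(9,3),(6,1)]) (.cons (.leaf 1 [(9,2),(2,1),(6,1)]) (.cons (.leaf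 2 [(4,2),(6,1),(7,3),(1,1)]) (.cons (.leaf 1 [(9,1),(5,1),(1,1)]) (.cons (.leaf 1 [(9,2),(6,1)]) .nil)))))))) (.cons (.leaf 1 [(3,1),(6,1)]) (.cons (.leaf 1 [(8,1)]) .nil)))))))) (.cons (.leaf 1 [(2,1)]) (.cons (.keep [1,4,6,7,9] (.node (.cons (.leaf 2 [(10,1),(6,1),(7,1)]) (.cons (.leaf 3 [(10,1),(6,1)]) (.cons (.leaf 2 [(10,1),(2,1),(6,1)]) (.cons (.leaf 2 [(10,1),(6,1),(7,1),(1,1)]) (.cons (.leaf 1 [(5,1),(1,1)]) (.cons (.leaf 2 [(10,1),(6,1)]) .nil)))))))) (.cons (.keep [1,6,7,8,9] (.node (.cons (.keep [2,6,7,8,10] (.node (.cons (.leaf 2 [(10,1)]) (.cons (.leaf 4 [(10,3),(6,2),(7,1)]) (.cons (.leaf 1 [(2,1),(10,1)]) (.cons (.leaf 1 [(5,1),(1,1)]) (.cons (.leaf 1 [(6,2),(7,1),(5,3),(1,2)]) (.cons (.leaf 1 [(10,1)]) .nil)))))))) (.cons (.leaf 1 [(3,1)]) (.cons (.leaf 1 [(2,1),(9,1)])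 (.cons (.keep [1,6,7,8,9,10] (.node (.cons (.leaf 1 [(8,1),(4,1),(6,1)]) (.cons (.leaf 1 [(8,1),(10,2),(6,1)]) (.cons (.leaf 1 [(2,1),(11,1)]) (.cons (.leaf 1 [(5,1),(1,1)]) (.cons (.leaf 1 [(10,1),(5,1),(1,1)]) (.cons (.leaf 1 [(11,1)]) .nil)))))))) (.cons (.leaf 1 [(3,1)]) (.cons (.leaf 1 [(9,1)]) .nil)))))))) (.cons (.leaf 1 []) .nil)))))))) .nil)))))))

theorem c_18_28_0 : Concl 18 28 z_18_28_0 h_18_28_0 .nd := piece _ hP_nil t_18_28_0 _ _ (by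
  decide +kernel)

def z_18_28_1 : F := ⟨1, -1, 0, 0, 1⟩

def h_18_28_1 : List F := [⟨1, 0, 0, -1, 0⟩, ⟨0, 1, -1, 0, 0⟩, ⟨0, 1, 0, -1, 0⟩, ⟨0, -1, 0, 0, 1⟩,
  ⟨1, -2, 0, 0, 1⟩]

def t_18_28_1 : T := (.node (.cons (.keep [4,5,7,9] (.leaf 0 [(0,0)])) (.cons (.keep [3,5,8,9] (.node (.cons (.keep [2,4,6,8] (.node (.cons (.leaf 1 [(7,1),(8,1)]) (.cons (.leaf 1 [(6,1),(8,2)]) (.cons (.leaf 1 [(2,1),(8,1)]) (.cons (.leaf 1 [(7,1),(8,1),(1,1)]) (.cons (.leaf 1 [(6,1),(8,2),(1,1)]) (.cons (.leaf 1 [(8,1)]) .nil)))))))) (.cons (.keep [2,3,7,8,9] (.node (.cons (.leaf 1 [(8,2),(10,1)]) (.cons (.leaf 1 [(6,1),(10,2),(8,2)]) (.cons (.leaf 1 [(2,2),(10,1),(3,1)]) (.cons (.leaf 1 [(8,2),(10,1),(1,1)]) (.cons (.leaf 1 [(6,1),(10,2),(8,2),(1,1)]) (.cons (.leaf 1 [(8,1),(10,1)]) .nil)))))))) (.cons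 (.keep [2,3,6,7,8] (.node (.cons (.leaf 1 [(9,1),(8,1)]) (.cons (.leaf 1 [(6,1),(8,2)]) (.cons (.leaf 1 [(2,1),(8,1)]) (.cons (.leaf 1 [(9,1),(8,1),(1,1)]) (.cons (.leaf 1 [(6,1),(8,2),(1,1)]) (.cons (.leaf 1 [(8,1)]) .nil)))))))) (.cons (.keep [1,4,5,8] (.node (.cons (.leaf 1 [(4,1),(6,1),(7,2)]) (.cons (.leaf 1 [(8,2),(6,1)]) (.cons (.leaf 1 [(2,2),(6,1),(4,1)]) (.cons (.leaf 1 [(4,1),(6,1),(7,2),(1,1)]) (.cons (.leaf 1 [(8,2),(6,1),(1,1)]) (.cons (.leaf 1 [(8,1),(6,1)]) .nil)))))))) (.cons (.keep [1,3,5,7,8] (.node (.cons (.leaf 1 [(4,1),(6,1),(9,2)]) (.cons (.leaf 1 [(9,2),(8,2),(6,1)]) (.cons (.leaf 1 [(2,2),(6,1),(4,1)]) (.cons (.leaf 1 [(4,1),(6,1),(9,2),(1,1)]) (.cons (.leaf 1 [(9,2),(8,2),(6,1),(1,1)]) (.cons (.leaf 1 [(9,1),(8,1),(6,1)]) .nil)))))))) (.cons (.keep [0,3,6,7]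 (.node (.cons (.leaf 1 [(9,1),(8,1)]) (.cons (.keep [2,6,8,9] (.node (.cons (.keep [2,6,7,8,9] (.node (.cons (.leaf 2 [(7,1)]) (.cons (.leaf 1 [(6,1),(8,1)]) (.cons (.leaf 1 [(2,1),(10,1)]) (.cons (.leaf 2 [(1,1),(7,1)]) (.cons (.leaf 1 [(1,2),(0,1),(6,1)]) (.cons (.leaf 1 [(10,1)]) .nil)))))))) (.cons (.leaf 1 [(3,1),(8,1),(6,1)]) (.cons (.leaf 1 [(2,1)]) (.cons (.keep [6,7,8,9] (.node (.cons (.leaf 2 [(6,1),(9,1),(8,1)]) (.cons (.leaf 2 [(9,1)]) (.cons (.leaf 1 [(2,1),(9,1)]) (.cons (.leaf 1 [(6,1),(5,1),(8,1),(1,1)]) (.cons (.leaf 1 [(5,1),(1,1)]) (.cons (.leaf 1 [(9,1)]) .nil)))))))) (.cons (.leaf 1 [(8,1),(6,1),(3,1)]) (.cons (.leaf 1 []) .nil)))))))) (.cons (.leaf 1 [(2,1),(8,1)]) (.cons (.leaf 1 [(9,1),(8,1),(1,1)]) (.cons (.keep [1,6,8,9] (.node (.cons (.keep [2,6,7,8,9] (.node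 (.cons (.leaf 1 [(9,1),(8,1)]) (.cons (.leaf 1 [(6,1),(8,1)]) (.cons (.leaf 1 [(2,1),(10,1)]) (.cons (.leaf 1 [(1,2),(0,1),(9,1)]) (.cons (.leaf 1 [(1,2),(0,1),(6,1)]) (.cons (.leaf 1 [(10,1)]) .nil)))))))) (.cons (.leaf 1 [(3,1),(8,1)]) (.cons (.leaf 1 [(2,1)]) (.cons (.keep [6,7,8,9] (.node (.cons (.leaf 2 [(8,1),(9,1)]) (.cons (.leaf 2 [(9,1)]) (.cons (.leaf 1 [(2,1),(9,1)]) (.cons (.leaf 1 [(8,1),(5,1),(1,1)]) (.cons (.leaf 1 [(5,1),(1,1)]) (.cons (.leaf 1 [(9,1)]) .nil)))))))) (.cons (.leaf 1 [(8,1),(3,1)]) (.cons (.leaf 1 []) .nil)))))))) (.cons (.leaf 1 [(8,1)]) .nil)))))))) .nil)))))))) (.cons (.keep [2,3,4,9] (.node (.cons (.keep [2,4,6,8,9] (.node (.cons (.leaf 1 [(10,1)]) (.cons (.leaf 1 [(6,1),(9,1),(10,2)]) (.cons (.leaf 1 [(2,1),(9,1),(10,1)]) (.cons (.leaf 1 [(10,1),(1,1)])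 (.cons (.leaf 1 [(10,2),(9,1),(1,1),(6,1)]) (.cons (.leaf 1 [(10,1),(9,1)]) .nil)))))))) (.cons (.keep [2,3,6,7] (.node (.cons (.keep [2,6,8,9] (.node (.cons (.leaf 2 [(7,1),(9,2)]) (.cons (.leaf 3 [(6,1),(9,2)]) (.cons (.leaf 2 [(2,1),(9,1)]) (.cons (.leaf 2 [(7,1),(9,2),(1,1)]) (.cons (.leaf 3 [(6,1),(9,2),(1,1)]) (.cons (.leaf 2 [(9,1)]) .nil)))))))) (.cons (.keep [2,3,6,8,9] (.node (.cons (.leaf 2 [(8,2),(10,3)]) (.cons (.leaf 1 [(6,1),(10,1),(3,1)]) (.cons (.leaf 2 [(2,2),(10,1),(3,1)]) (.cons (.leaf 2 [(8,2),(10,3),(1,1)]) (.cons (.leaf 1 [(6,1),(10,1),(3,1)]) (.cons (.leaf 2 [(8,1),(10,2)]) .nil)))))))) (.cons (.leaf 1 [(2,1),(9,1)]) (.cons (.keep [1,6,8,9] (.node (.cons (.leaf 2 [(9,2),(6,1),(7,1)]) (.cons (.leaf 3 [(9,2),(6,1)]) (.cons (.leaf 1 [(2,2),(6,1),(4,1)]) (.cons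 (.leaf 2 [(9,2),(6,1),(7,1),(1,1)]) (.cons (.leaf 3 [(9,2),(6,1),(1,1)]) (.cons (.leaf 2 [(9,1),(6,1)]) .nil)))))))) (.cons (.keep [1,3,6,8,9] (.node (.cons (.leaf 2 [(10,3),(6,1),(8,2)]) (.cons (.leaf 1 [(3,1),(10,1)]) (.cons (.leaf 1 [(2,2),(6,1),(4,1)]) (.cons (.leaf 2 [(10,3),(6,1),(8,2),(1,1)]) (.cons (.leaf 1 [(3,1),(10,1)]) (.cons (.leaf 2 [(8,1),(10,2),(6,1)]) .nil)))))))) (.cons (.leaf 1 [(9,1)]) .nil)))))))) (.cons (.keep [2,4,6,7,8] (.node (.cons (.keep [2,6,7,9,10] (.node (.cons (.leaf 2 [(7,1),(9,2)]) (.cons (.leaf 3 [(6,1),(9,2)]) (.cons (.leaf 2 [(2,1),(9,1)]) (.cons (.leaf 2 [(7,1),(9,2),(1,1)]) (.cons (.leaf 3 [(6,1),(9,2),(1,1)]) (.cons (.leaf 2 [(9,1)]) .nil)))))))) (.cons (.keep [2,3,6,9,10] (.node (.cons (.leaf 2 [(8,2),(9,3)]) (.cons (.leaf 1 [(6,1),(9,1),(3,1)])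 (.cons (.leaf 2 [(2,2),(9,1),(3,1)]) (.cons (.leaf 2 [(8,2),(9,3),(1,1)]) (.cons (.leaf 1 [(6,1),(9,1),(3,1)]) (.cons (.leaf 2 [(8,1),(9,2)]) .nil)))))))) (.cons (.leaf 1 [(2,1),(9,1)]) (.cons (.keep [1,6,7,8,9] (.node (.cons (.leaf 2 [(10,2),(6,1),(7,1)]) (.cons (.leaf 3 [(10,2),(6,1)]) (.cons (.leaf 1 [(2,2),(6,1),(4,1)]) (.cons (.leaf 2 [(10,2),(6,1),(7,1),(1,1)]) (.cons (.leaf 3 [(10,2),(6,1),(1,1)]) (.cons (.leaf 2 [(10,1),(6,1)]) .nil)))))))) (.cons (.keep [1,3,6,8,9] (.node (.cons (.leaf 2 [(10,3),(6,1),(8,2)]) (.cons (.leaf 1 [(3,1),(10,1)]) (.cons (.leaf 1 [(2,2),(6,1),(4,1)]) (.cons (.leaf 2 [(10,3),(6,1),(8,2),(1,1)]) (.cons (.leaf 1 [(3,1),(10,1)]) (.cons (.leaf 2 [(8,1),(10,2),(6,1)]) .nil)))))))) (.cons (.leaf 1 [(9,1)]) .nil)))))))) (.cons (.keep [1,4,5,6,8] (.node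 (.cons (.leaf 1 [(7,1),(4,1),(6,1)]) (.cons (.leaf 1 [(8,2),(10,1),(6,1)]) (.cons (.leaf 1 [(2,2),(10,1),(6,1),(4,1)]) (.cons (.leaf 1 [(7,1),(4,1),(6,1),(1,1)]) (.cons (.leaf 1 [(8,2),(10,1),(6,1),(1,1)]) (.cons (.leaf 1 [(8,1),(10,1),(6,1)]) .nil)))))))) (.cons (.keep [1,3,5,6] (.node (.cons (.keep [2,4,6,9] (.node (.cons (.leaf 2 [(7,2),(8,1)]) (.cons (.leaf 1 [(6,1),(8,1),(3,1)]) (.cons (.leaf 2 [(2,2),(8,1),(3,1)]) (.cons (.leaf 2 [(7,2),(8,1),(1,1)]) (.cons (.leaf 1 [(6,1),(8,1),(3,1)]) (.cons (.leaf 2 [(7,1),(8,1)]) .nil)))))))) (.cons (.keep [2,3,6,8,9] (.node (.cons (.leaf 2 [(9,3),(8,1)]) (.cons (.leaf 1 [(6,3),(8,2),(3,4)]) (.cons (.leaf 2 [(2,3),(8,1),(3,2)]) (.cons (.leaf 2 [(9,3),(8,1),(1,1)]) (.cons (.leaf 1 [(9,1),(8,1),(3,1),(6,1)]) (.cons (.leaf 2 [(9,2),(8,1)])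 .nil)))))))) (.cons (.leaf 1 [(2,2),(7,1),(6,1),(4,1)]) (.cons (.keep [1,4,6,9] (.node (.cons (.leaf 1 [(4,1),(6,1),(7,2)]) (.cons (.leaf 1 [(3,1),(8,1)]) (.cons (.leaf 1 [(2,2),(6,1),(4,1)]) (.cons (.leaf 1 [(4,1),(6,1),(7,2),(1,1)]) (.cons (.leaf 1 [(3,1),(8,1)]) (.cons (.leaf 2 [(7,1),(8,1),(6,1)]) .nil)))))))) (.cons (.keep [1,3,6,8,9] (.node (.cons (.leaf 1 [(4,1),(6,1),(9,2)]) (.cons (.leaf 1 [(9,1),(8,1),(3,1)]) (.cons (.leaf 1 [(2,2),(6,1),(4,1)]) (.cons (.leaf 1 [(4,1),(6,1),(9,2),(1,1)]) (.cons (.leaf 1 [(9,1),(8,1),(3,1)]) (.cons (.leaf 2 [(9,2),(8,1),(6,1)]) .nil)))))))) (.cons (.leaf 1 [(8,1),(6,1)]) .nil)))))))) (.cons (.keep [0,4,7,8] (.node (.cons (.keep [2,4,6,7,8] (.node (.cons (.leaf 2 [(7,1),(10,1)]) (.cons (.leaf 3 [(6,1),(10,2)]) (.cons (.leaf 2 [(2,1),(10,1)])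 (.cons (.leaf 2 [(7,1),(10,1),(1,1)]) (.cons (.leaf 3 [(6,1),(10,2),(1,1)]) (.cons (.leaf 2 [(10,1)]) .nil)))))))) (.cons (.keep [2,3,6,8,9] (.node (.cons (.keep [2,6,8,9] (.node (.cons (.leaf 2 [(9,1),(7,1)]) (.cons (.leaf 4 [(9,1),(6,2)]) (.cons (.leaf 1 [(2,1)]) (.cons (.leaf 2 [(9,1),(7,1),(1,1)]) (.cons (.leaf 4 [(9,1),(6,2),(1,2)]) (.cons (.leaf 1 []) .nil)))))))) (.cons (.leaf 1 [(6,1),(9,1),(3,1)]) (.cons (.leaf 2 [(2,2),(9,1),(3,1)]) (.cons (.keep [1,6,8,10] (.node (.cons (.leaf 2 [(6,1),(9,2),(7,1)]) (.cons (.leaf 2 [(9,1)]) (.cons (.leaf 1 [(2,1)]) (.cons (.leaf 2 [(6,1),(9,2),(7,1),(1,1)]) (.cons (.leaf 2 [(9,1),(1,1)]) (.cons (.leaf 1 []) .nil)))))))) (.cons (.leaf 1 [(6,1),(9,1),(3,1)]) (.cons (.leaf 1 [(10,1)]) .nil)))))))) (.cons (.leaf 1 [(2,1),(8,1)]) (.cons (.keep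 [1,4,6,7,8] (.node (.cons (.leaf 1 [(4,1),(6,1),(7,2)]) (.cons (.leaf 3 [(10,2),(6,1)]) (.cons (.leaf 1 [(2,2),(6,1),(4,1)]) (.cons (.leaf 1 [(4,1),(6,1),(7,2),(1,1)]) (.cons (.leaf 3 [(10,2),(6,1),(1,1)]) (.cons (.leaf 2 [(10,1),(6,1)]) .nil)))))))) (.cons (.keep [1,3,6,8,9] (.node (.cons (.keep [2,6,8,9] (.node (.cons (.leaf 2 [(9,1)]) (.cons (.leaf 2 [(3,1),(7,1),(6,2)]) (.cons (.leaf 1 [(2,1)]) (.cons (.leaf 2 [(9,1),(1,1)]) (.cons (.leaf 2 [(7,1),(1,1),(6,2),(3,1)]) (.cons (.leaf 1 []) .nil)))))))) (.cons (.leaf 1 [(3,1),(9,1)]) (.cons (.leaf 1 [(2,2),(6,1),(4,1)]) (.cons (.keep [1,6,8,9,10] (.node (.cons (.leaf 2 [(9,1)]) (.cons (.leaf 1 [(9,1),(7,1),(8,1)]) (.cons (.leaf 1 [(2,1)]) (.cons (.leaf 2 [(9,1),(1,1)]) (.cons (.leaf 1 [(7,1),(1,2),(0,1),(9,1)]) (.cons (.leaf 1 [])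 .nil)))))))) (.cons (.leaf 1 [(3,1),(9,1)]) (.cons (.leaf 1 [(10,1)]) .nil)))))))) (.cons (.leaf 1 [(8,1)]) .nil)))))))) .nil)))))))) (.cons (.keep [1,5,7,8,10] (.node (.cons (.leaf 1 [(6,1),(9,1),(7,2)]) (.cons (.leaf 1 [(7,2)]) (.cons (.leaf 1 [(4,1),(2,2)]) (.cons (.leaf 1 [(7,2),(9,1),(1,1),(6,1)]) (.cons (.leaf 1 [(7,2),(1,1)]) (.cons (.leaf 1 [(7,1)]) .nil)))))))) (.cons (.keep [1,5,7,8,10] (.node (.cons (.keep [2,4,6,9,10] (.node (.cons (.leaf 2 [(7,3),(9,1)]) (.cons (.leaf 1 [(3,1),(6,1)]) (.cons (.leaf 2 [(2,3),(3,2),(9,1)]) (.cons (.leaf 2 [(7,3),(9,1),(1,1)]) (.cons (.leaf 1 [(3,1),(6,1)]) (.cons (.leaf 2 [(7,2),(9,1)]) .nil)))))))) (.cons (.keep [2,6,7,9,10] (.node (.cons (.leaf 2 [(8,4),(9,1)]) (.cons (.leaf 1 [(7,1),(3,4),(6,3)]) (.cons (.leaf 2 [(3,3),(9,1),(2,4)])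 (.cons (.leaf 2 [(8,4),(9,1),(1,1)]) (.cons (.leaf 1 [(8,1),(6,1),(3,1)]) (.cons (.leaf 2 [(8,3),(9,1)]) .nil)))))))) (.cons (.leaf 1 [(2,1),(7,1)]) (.cons (.keep [1,4,6,9,10] (.node (.cons (.leaf 2 [(7,3),(9,1),(6,1)]) (.cons (.leaf 1 [(3,1)]) (.cons (.leaf 2 [(2,3),(9,1),(6,1),(3,2)]) (.cons (.leaf 2 [(7,3),(9,1),(6,1),(1,1)]) (.cons (.leaf 1 [(3,1)]) (.cons (.leaf 2 [(7,2),(9,1),(6,1)]) .nil)))))))) (.cons (.keep [1,6,7,9,10] (.node (.cons (.leaf 2 [(8,4),(9,1),(6,1)]) (.cons (.leaf 1 [(8,1),(3,1)]) (.cons (.leaf 2 [(2,4),(9,1),(6,1),(3,3)]) (.cons (.leaf 2 [(8,4),(9,1),(6,1),(1,1)]) (.cons (.leaf 1 [(8,1),(3,1)]) (.cons (.leaf 2 [(8,3),(9,1),(6,1)]) .nil)))))))) (.cons (.leaf 1 [(7,1)]) .nil)))))))) (.cons (.keep [0,1,7,8] (.node (.cons (.keep [2,4,7,8,9] (.node (.cons (.leaf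 1 [(7,1),(9,1)]) (.cons (.leaf 2 [(6,1),(9,1)]) (.cons (.leaf 1 [(2,1),(9,1)]) (.cons (.leaf 1 [(1,1),(9,1),(7,1)]) (.cons (.leaf 1 [(1,2),(0,1),(6,1)]) (.cons (.leaf 1 [(9,1)]) .nil)))))))) (.cons (.keep [2,7,8,9] (.node (.cons (.keep [2,6,7,8] (.node (.cons (.leaf 2 [(9,2),(7,1)]) (.cons (.leaf 2 [(9,3),(6,1)]) (.cons (.leaf 1 [(9,2),(2,1)]) (.cons (.leaf 1 [(5,1),(7,1),(1,1)]) (.cons (.leaf 1 [(5,3),(6,2),(1,2)]) (.cons (.leaf 1 [(9,2)]) .nil)))))))) (.cons (.leaf 1 [(3,1),(6,1)]) (.cons (.leaf 1 [(2,1),(8,1)]) (.cons (.keep [1,6,7,8] (.node (.cons (.leaf 2 [(4,2),(6,1),(7,3)]) (.cons (.leaf 2 [(9,3),(6,1)]) (.cons (.leaf 1 [(9,2),(2,1),(6,1)]) (.cons (.leaf 2 [(4,2),(6,1),(7,3),(1,1)]) (.cons (.leaf 1 [(9,1),(5,1),(1,1)]) (.cons (.leaf 1 [(9,2),(6,1)]) .nil)))))))) (.cons (.leaf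 1 [(3,1),(6,1)]) (.cons (.leaf 1 [(8,1)]) .nil)))))))) (.cons (.leaf 1 [(2,1)]) (.cons (.keep [1,4,6,7,9] (.node (.cons (.leaf 2 [(10,1),(6,1),(7,1)]) (.cons (.leaf 3 [(10,1),(6,1)]) (.cons (.leaf 2 [(10,1),(2,1),(6,1)]) (.cons (.leaf 2 [(10,1),(6,1),(7,1),(1,1)]) (.cons (.leaf 1 [(5,1),(1,1)]) (.cons (.leaf 2 [(10,1),(6,1)]) .nil)))))))) (.cons (.keep [1,6,7,8,9] (.node (.cons (.keep [2,6,7,8,10] (.node (.cons (.leaf 2 [(10,1)]) (.cons (.leaf 4 [(10,3),(6,2),(7,1)]) (.cons (.leaf 1 [(2,1),(10,1)]) (.cons (.leaf 1 [(5,1),(1,1)]) (.cons (.leaf 1 [(6,2),(7,1),(5,3),(1,2)]) (.cons (.leaf 1 [(10,1)]) .nil)))))))) (.cons (.leaf 1 [(3,1)]) (.cons (.leaf 1 [(2,1),(9,1)]) (.cons (.keep [1,6,7,8,9,10] (.node (.cons (.leaf 1 [(8,1),(4,1),(6,1)]) (.cons (.leaf 1 [(8,1),(10,2),(6,1)]) (.cons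 (.leaf 1 [(2,1),(11,1)]) (.cons (.leaf 1 [(5,1),(1,1)]) (.cons (.leaf 1 [(10,1),(5,1),(1,1)]) (.cons (.leaf 1 [(11,1)]) .nil)))))))) (.cons (.leaf 1 [(3,1)]) (.cons (.leaf 1 [(9,1)]) .nil)))))))) (.cons (.leaf 1 []) .nil)))))))) .nil)))))))

theorem c_18_28_1 : Concl 18 28 z_18_28_1 h_18_28_1 .nd := piece _ (hP_cons c_18_28_0 hP_nil)
  t_18_28_1 _ _ (by decide +kernel)

def t_18_28 : T := (.keep [0,1,2] (.node (.cons (.keep [2,4,5,6,7] (.leaf 0 [(0,0)])) (.cons (.keep [2,3,5,6,8] (.node (.cons (.keep [2,4,6,7,10] (.node (.cons (.leaf 1 [(7,1),(9,2)]) (.cons (.leaf 1 [(6,1),(9,3)]) (.cons (.leaf 1 [(2,1),(9,2)]) (.cons (.leaf 1 [(1,1),(9,2),(7,1)]) (.cons (.leaf 1 [(1,1),(9,3),(6,1)]) (.cons (.leaf 1 [(9,2)]) .nil)))))))) (.cons (.keep [2,3,6,7,8] (.node (.cons (.leaf 1 [(9,2)]) (.cons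 (.leaf 1 [(6,1),(7,1),(9,3)]) (.cons (.leaf 1 [(2,1),(7,1),(9,2)]) (.cons (.leaf 1 [(1,1),(9,2)]) (.cons (.leaf 1 [(1,1),(7,1),(9,3),(6,1)]) (.cons (.leaf 1 [(9,2),(7,1)]) .nil)))))))) (.cons (.keep [2,3,7,8,10] (.node (.cons (.leaf 1 [(9,1),(8,2),(7,1)]) (.cons (.leaf 1 [(8,2)]) (.cons (.leaf 1 [(2,1),(7,1),(8,2)]) (.cons (.leaf 1 [(9,1),(8,2),(1,1),(7,1)]) (.cons (.leaf 1 [(1,1),(8,2)]) (.cons (.leaf 1 [(8,2),(7,1)]) .nil)))))))) (.cons (.keep [1,4,5,6,10] (.node (.cons (.leaf 1 [(6,1),(4,2),(7,3)]) (.cons (.leaf 1 [(6,1),(8,3)]) (.cons (.leaf 1 [(6,1),(2,3),(4,2)]) (.cons (.leaf 1 [(6,1),(4,2),(7,3),(1,1)]) (.cons (.leaf 1 [(6,1),(8,3),(1,1)]) (.cons (.leaf 1 [(6,1),(8,2)]) .nil)))))))) (.cons (.keep [1,3,5,6,8] (.node (.cons (.leaf 1 [(6,1),(4,2),(10,2)]) (.cons (.leaf 1 [(6,1),(8,3),(10,2)])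 (.cons (.leaf 1 [(2,3),(6,1),(7,1),(4,2)]) (.cons (.leaf 1 [(6,1),(4,2),(10,2),(1,1)]) (.cons (.leaf 1 [(6,1),(8,3),(10,2),(1,1)]) (.cons (.leaf 1 [(6,1),(8,2),(10,1)]) .nil)))))))) (.cons (.keep [0,3,7,8] (.node (.cons (.leaf 1 [(9,1),(8,1)]) (.cons (.keep [2,6,8,9] (.node (.cons (.keep [2,6,7,8,9] (.node (.cons (.leaf 2 [(7,1)]) (.cons (.leaf 1 [(6,1),(8,1)]) (.cons (.leaf 1 [(2,1),(10,1)]) (.cons (.leaf 2 [(1,1),(7,1)]) (.cons (.leaf 1 [(1,2),(0,1),(6,1)]) (.cons (.leaf 1 [(10,1)]) .nil)))))))) (.cons (.leaf 1 [(3,1),(8,1),(6,1)]) (.cons (.leaf 1 [(2,1)]) (.cons (.keep [6,7,8,9] (.node (.cons (.leaf 2 [(6,1),(9,1),(8,1)]) (.cons (.leaf 2 [(9,1)]) (.cons (.leaf 1 [(2,1),(9,1)]) (.cons (.leaf 1 [(6,1),(5,1),(8,1),(1,1)]) (.cons (.leaf 1 [(5,1),(1,1)]) (.cons (.leaf 1 [(9,1)]) .nil))))))))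 (.cons (.leaf 1 [(8,1),(6,1),(3,1)]) (.cons (.leaf 1 []) .nil)))))))) (.cons (.leaf 1 [(2,1),(8,1)]) (.cons (.leaf 1 [(9,1),(8,1),(1,1)]) (.cons (.keep [1,6,8,9] (.node (.cons (.keep [2,6,7,8,9] (.node (.cons (.leaf 1 [(9,1),(8,1)]) (.cons (.leaf 1 [(6,1),(8,1)]) (.cons (.leaf 1 [(2,1),(10,1)]) (.cons (.leaf 1 [(1,2),(0,1),(9,1)]) (.cons (.leaf 1 [(1,2),(0,1),(6,1)]) (.cons (.leaf 1 [(10,1)]) .nil)))))))) (.cons (.leaf 1 [(3,1),(8,1)]) (.cons (.leaf 1 [(2,1)]) (.cons (.keep [6,7,8,9] (.node (.cons (.leaf 2 [(8,1),(9,1)]) (.cons (.leaf 2 [(9,1)]) (.cons (.leaf 1 [(2,1),(9,1)]) (.cons (.leaf 1 [(8,1),(5,1),(1,1)]) (.cons (.leaf 1 [(5,1),(1,1)]) (.cons (.leaf 1 [(9,1)]) .nil)))))))) (.cons (.leaf 1 [(8,1),(3,1)]) (.cons (.leaf 1 []) .nil)))))))) (.cons (.leaf 1 [(8,1)]) .nil))))))))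 .nil)))))))) (.cons (.keep [2,3,4,6] (.node (.cons (.keep [2,4,6,7,8] (.node (.cons (.leaf 1 [(7,2),(9,2)]) (.cons (.leaf 1 [(6,1),(9,3),(7,2)]) (.cons (.leaf 1 [(2,2),(9,2),(3,1)]) (.cons (.leaf 1 [(7,2),(1,1),(9,2)]) (.cons (.leaf 1 [(7,2),(1,1),(9,3),(6,1)]) (.cons (.leaf 1 [(7,1),(9,2)]) .nil)))))))) (.cons (.keep [2,3,6,7] (.node (.cons (.keep [2,6,8,9] (.node (.cons (.leaf 2 [(7,1),(9,4)]) (.cons (.leaf 3 [(6,1),(9,5)]) (.cons (.leaf 2 [(2,1),(9,3)]) (.cons (.leaf 2 [(1,1),(9,4),(7,1)]) (.cons (.leaf 3 [(1,1),(9,5),(6,1)]) (.cons (.leaf 2 [(9,3)]) .nil)))))))) (.cons (.keep [2,3,6,8,9] (.node (.cons (.leaf 2 [(8,2),(10,5)]) (.cons (.leaf 1 [(6,1),(10,2),(3,1)]) (.cons (.leaf 2 [(2,2),(10,3),(3,1)]) (.cons (.leaf 2 [(8,2),(1,1),(10,5)]) (.cons (.leaf 1 [(3,1),(10,2),(6,1)]) (.cons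 (.leaf 2 [(8,1),(10,4)]) .nil)))))))) (.cons (.leaf 1 [(9,2),(2,1)]) (.cons (.keep [1,6,8,9] (.node (.cons (.leaf 2 [(7,1),(6,1),(9,4)]) (.cons (.leaf 3 [(6,1),(9,5)]) (.cons (.leaf 1 [(6,2),(2,5),(4,3)]) (.cons (.leaf 2 [(7,1),(6,1),(9,4),(1,1)]) (.cons (.leaf 1 [(5,1),(9,2),(1,1)]) (.cons (.leaf 2 [(6,1),(9,3)]) .nil)))))))) (.cons (.keep [1,3,6,8,9] (.node (.cons (.leaf 2 [(6,1),(10,5),(8,2)]) (.cons (.leaf 1 [(3,1),(10,2)]) (.cons (.leaf 1 [(6,2),(7,1),(2,5),(4,3)]) (.cons (.leaf 2 [(6,1),(10,5),(8,2),(1,1)]) (.cons (.leaf 1 [(3,1),(10,2)]) (.cons (.leaf 2 [(6,1),(10,4),(8,1)]) .nil)))))))) (.cons (.leaf 1 [(9,2)]) .nil)))))))) (.cons (.keep [2,4,7,8,9] (.node (.cons (.keep [2,6,7,8,10] (.node (.cons (.leaf 2 [(9,3),(8,1)]) (.cons (.leaf 3 [(9,5),(6,1),(8,3)]) (.cons (.leaf 2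 [(9,3),(2,1),(8,2)]) (.cons (.leaf 2 [(1,2),(5,1),(9,3)]) (.cons (.leaf 3 [(1,1),(8,3),(9,5),(6,1)]) (.cons (.leaf 2 [(9,3),(8,2)]) .nil)))))))) (.cons (.keep [2,3,6,8,10] (.node (.cons (.leaf 2 [(9,3)]) (.cons (.leaf 3 [(6,1),(7,1),(9,5)]) (.cons (.leaf 2 [(2,1),(7,1),(9,3)]) (.cons (.leaf 2 [(1,1),(9,3)]) (.cons (.leaf 1 [(1,2),(0,1),(9,4),(6,1)]) (.cons (.leaf 2 [(9,3),(7,1)]) .nil)))))))) (.cons (.leaf 1 [(8,2),(2,1),(7,1)]) (.cons (.keep [1,6,7,8,10] (.node (.cons (.leaf 3 [(6,2),(4,1),(9,4)]) (.cons (.leaf 1 [(9,2),(3,1),(8,2)]) (.cons (.leaf 1 [(6,2),(8,1),(2,5),(4,3)]) (.cons (.leaf 2 [(6,1),(5,1),(9,3),(1,2)]) (.cons (.leaf 1 [(9,2),(8,1),(1,1),(5,1)]) (.cons (.leaf 2 [(9,3),(6,1),(8,2)]) .nil)))))))) (.cons (.keep [1,3,6,8,10] (.node (.cons (.leaf 2 [(6,1),(9,3)]) (.cons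 (.leaf 1 [(9,2),(3,1),(7,1)]) (.cons (.leaf 1 [(2,5),(6,2),(7,2),(4,3)]) (.cons (.leaf 2 [(9,3),(6,1),(1,1)]) (.cons (.leaf 1 [(9,2),(5,1),(1,1)]) (.cons (.leaf 2 [(9,3),(6,1),(7,1)]) .nil)))))))) (.cons (.leaf 1 [(8,2),(7,1)]) .nil)))))))) (.cons (.keep [1,4,5,6,8] (.node (.cons (.leaf 1 [(6,1),(4,2),(7,2)]) (.cons (.leaf 1 [(8,3),(6,1),(10,1)]) (.cons (.leaf 1 [(2,3),(6,1),(10,1),(4,2)]) (.cons (.leaf 1 [(6,1),(4,2),(7,2),(1,1)]) (.cons (.leaf 1 [(8,3),(10,1),(1,1),(6,1)]) (.cons (.leaf 1 [(8,2),(6,1),(10,1)]) .nil)))))))) (.cons (.keep [1,3,5,6] (.node (.cons (.keep [2,4,6,9] (.node (.cons (.leaf 2 [(8,1),(7,4)]) (.cons (.leaf 3 [(8,2),(6,1),(7,5)]) (.cons (.leaf 2 [(8,1),(2,4),(3,3)]) (.cons (.leaf 2 [(8,1),(7,4),(1,1)]) (.cons (.leaf 3 [(1,1),(8,2),(7,5),(6,1)]) (.cons (.leaf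 2 [(8,1),(7,3)]) .nil)))))))) (.cons (.keep [2,3,6,8,9] (.node (.cons (.leaf 2 [(8,1),(9,5)]) (.cons (.leaf 1 [(8,3),(6,5),(3,7)]) (.cons (.leaf 2 [(8,1),(2,5),(3,4)]) (.cons (.leaf 2 [(8,1),(9,5),(1,1)]) (.cons (.leaf 3 [(1,1),(8,2),(9,7),(6,1)]) (.cons (.leaf 2 [(8,1),(9,4)]) .nil)))))))) (.cons (.leaf 1 [(2,3),(6,1),(7,2),(4,2)]) (.cons (.keep [1,4,6,9] (.node (.cons (.leaf 1 [(4,1),(7,3),(6,1)]) (.cons (.leaf 3 [(8,2),(7,5),(6,1)]) (.cons (.leaf 1 [(4,1),(2,3),(6,1),(3,1)]) (.cons (.leaf 1 [(4,1),(7,3),(6,1),(1,1)]) (.cons (.leaf 3 [(8,2),(7,5),(6,1),(1,1)]) (.cons (.leaf 2 [(8,1),(7,3),(6,1)]) .nil)))))))) (.cons (.keep [1,3,6,8,9] (.node (.cons (.leaf 1 [(4,1),(9,3),(6,1)]) (.cons (.leaf 3 [(8,2),(9,7),(6,1)]) (.cons (.leaf 1 [(4,1),(2,3),(6,1),(3,1)]) (.cons (.leaf 1 [(4,1),(9,3),(6,1),(1,1)])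 (.cons (.leaf 3 [(8,2),(9,7),(6,1),(1,1)]) (.cons (.leaf 2 [(8,1),(9,4),(6,1)]) .nil)))))))) (.cons (.leaf 1 [(6,1),(8,2)]) .nil)))))))) (.cons (.keep [0,4,7,8] (.node (.cons (.keep [2,4,6,7,8] (.node (.cons (.leaf 2 [(7,1),(10,1)]) (.cons (.leaf 3 [(6,1),(10,2)]) (.cons (.leaf 2 [(2,1),(10,1)]) (.cons (.leaf 2 [(7,1),(10,1),(1,1)]) (.cons (.leaf 3 [(6,1),(10,2),(1,1)]) (.cons (.leaf 2 [(10,1)]) .nil)))))))) (.cons (.keep [2,3,6,8,9] (.node (.cons (.keep [2,6,8,9] (.node (.cons (.leaf 2 [(9,1),(7,1)]) (.cons (.leaf 4 [(9,1),(6,2)]) (.cons (.leaf 1 [(2,1)]) (.cons (.leaf 2 [(9,1),(7,1),(1,1)]) (.cons (.leaf 4 [(9,1),(6,2),(1,2)]) (.cons (.leaf 1 []) .nil)))))))) (.cons (.leaf 1 [(6,1),(9,1),(3,1)]) (.cons (.leaf 2 [(2,2),(9,1),(3,1)]) (.cons (.keep [1,6,8,10] (.node (.cons (.leaf 2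 [(6,1),(9,2),(7,1)]) (.cons (.leaf 2 [(9,1)]) (.cons (.leaf 1 [(2,1)]) (.cons (.leaf 2 [(6,1),(9,2),(7,1),(1,1)]) (.cons (.leaf 2 [(9,1),(1,1)]) (.cons (.leaf 1 []) .nil)))))))) (.cons (.leaf 1 [(6,1),(9,1),(3,1)]) (.cons (.leaf 1 [(10,1)]) .nil)))))))) (.cons (.leaf 1 [(2,1),(8,1)]) (.cons (.keep [1,4,6,7,8] (.node (.cons (.leaf 1 [(4,1),(6,1),(7,2)]) (.cons (.leaf 3 [(10,2),(6,1)]) (.cons (.leaf 1 [(2,2),(6,1),(4,1)]) (.cons (.leaf 1 [(4,1),(6,1),(7,2),(1,1)]) (.cons (.leaf 3 [(10,2),(6,1),(1,1)]) (.cons (.leaf 2 [(10,1),(6,1)]) .nil)))))))) (.cons (.keep [1,3,6,8,9] (.node (.cons (.keep [2,6,8,9] (.node (.cons (.leaf 2 [(9,1)]) (.cons (.leaf 2 [(3,1),(7,1),(6,2)]) (.cons (.leaf 1 [(2,1)]) (.cons (.leaf 2 [(9,1),(1,1)]) (.cons (.leaf 2 [(7,1),(1,1),(6,2),(3,1)]) (.cons (.leaf 1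 []) .nil)))))))) (.cons (.leaf 1 [(3,1),(9,1)]) (.cons (.leaf 1 [(2,2),(6,1),(4,1)]) (.cons (.keep [1,6,8,9,10] (.node (.cons (.leaf 2 [(9,1)]) (.cons (.leaf 1 [(9,1),(7,1),(8,1)]) (.cons (.leaf 1 [(2,1)]) (.cons (.leaf 2 [(9,1),(1,1)]) (.cons (.leaf 1 [(7,1),(1,2),(0,1),(9,1)]) (.cons (.leaf 1 []) .nil)))))))) (.cons (.leaf 1 [(3,1),(9,1)]) (.cons (.leaf 1 [(10,1)]) .nil)))))))) (.cons (.leaf 1 [(8,1)]) .nil)))))))) .nil)))))))) (.cons (.leaf 1 [(5,1)]) (.cons (.leaf 1 [(5,1)]) (.cons (.leaf 1 []) .nil))))))))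

theorem e_18_28 : ESB (caseOf 4 18 28) := esb_of_pieces _ (hP_cons c_18_28_1 hP_nil) t_18_28 (by
  decide +kernel)

def t_18_29 : T := (.keep [0,1,2] (.node (.cons (.keep [0,4,5,6,8,9] (.node (.cons (.leaf 1 [(8,1)]) (.cons (.leaf 1 [(8,1),(3,1)]) (.cons (.leaf 1 [(8,1),(3,1)]) (.cons (.leaf 1 [(8,1),(3,1)]) (.cons (.leaf 1 [(6,1)]) (.cons (.leaf 1 [(6,1)]) (.cons (.leaf 1 [(6,1)]) (.cons (.leaf 1 []) .nil)))))))))) (.cons (.keep [3,5,6,7,8] (.node (.cons (.leaf 1 []) (.cons (.leaf 1 [(3,1)]) (.cons (.leaf 1 [(3,1)]) (.cons (.leaf 1 [(3,1)]) (.cons (.leaf 1 [(7,1),(6,1)]) (.cons (.leaf 1 [(7,1),(6,1)]) (.cons (.leaf 1 [(7,1),(6,1)]) (.cons (.leaf 1 [(7,1)]) .nil)))))))))) (.cons (.keep [3,4,6,7,9] (.node (.cons (.leaf 1 [(8,1)]) (.cons (.leaf 1 [(8,1),(3,1)]) (.cons (.leaf 1 [(8,1),(3,1)])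 (.cons (.leaf 1 [(8,1),(3,1)]) (.cons (.leaf 1 [(7,1),(6,1)]) (.cons (.leaf 1 [(3,1),(6,1)]) (.cons (.leaf 1 [(7,1),(6,1)]) (.cons (.leaf 1 [(7,1)]) .nil)))))))))) (.cons (.keep [2,3,4,5,7] (.node (.cons (.leaf 1 [(9,1)]) (.cons (.leaf 1 [(3,1),(9,1)]) (.cons (.leaf 1 [(9,1),(3,1)]) (.cons (.leaf 1 [(9,1),(3,1)]) (.cons (.leaf 1 [(8,1),(6,1)]) (.cons (.leaf 1 [(6,1),(8,1)]) (.cons (.leaf 1 [(3,1),(6,1)]) (.cons (.leaf 1 [(8,1)]) .nil)))))))))) (.cons (.leaf 1 [(6,1)]) (.cons (.leaf 1 [(6,1)]) (.cons (.leaf 1 [(6,1)]) (.cons (.leaf 1 []) .nil))))))))))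

theorem e_18_29 : ESB (caseOf 4 18 29) := esb_of_ok (t := t_18_29) (by decide +kernel)

def t_18_30 : T := (.keep [0,1,2] (.node (.cons (.leaf 1 []) (.cons (.leaf 1 [(3,1)]) (.cons (.leaf 1 [(3,1)]) (.cons (.leaf 1 [(3,1)]) (.cons (.leaf 1 [(6,1)]) (.cons (.leaf 1 [(6,1)]) (.cons (.leaf 1 [(6,1)]) (.cons (.leaf 1 []) .nil))))))))))

theorem e_18_30 : ESB (caseOf 4 18 30) := esb_of_ok (t := t_18_30) (by decide +kernel)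

def t_18_31 : T := (.keep [0,1,2] (.node (.cons (.leaf 1 [(4,1)]) (.cons (.leaf 1 []) (.cons (.leaf 1 [(4,1)]) (.cons (.leaf 1 [(4,1)]) (.cons (.leaf 1 [(4,1)]) (.cons (.leaf 1 [(7,1)]) (.cons (.leaf 1 [(7,1)]) (.cons (.leaf 1 [(7,1)]) (.cons (.leaf 1 [(7,1)]) (.cons (.leaf 1 []) .nil))))))))))))

theorem e_18_31 : ESB (caseOf 4 18 31) := esb_of_ok (t := t_18_31) (by decide +kernel)

def ks : List (ℕ × ℕ) := [(18, 20), (18, 21), (18, 22), (18, 23), (18, 24), (18, 25), (18, 26),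
  (18, 27), (18, 28), (18, 29), (18, 30), (18, 31)]

theorem ks_ok : ∀ p ∈ ks, ESB (caseOf 4 p.1 p.2) := ks_cons e_18_20 <| ks_cons e_18_21 <| ks_cons
  e_18_22 <| ks_cons e_18_23 <| ks_cons e_18_24 <| ks_cons e_18_25 <| ks_cons e_18_26 <| ks_cons
  e_18_27 <| ks_cons e_18_28 <| ks_cons e_18_29 <| ks_cons e_18_30 <| ks_cons e_18_31 <| ks_nil

end Pool.Agent.H4.RD4.E10
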