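import Pool.Agent.H4.RD4.Chk

/-! # Certificates for special cases of order four -/

set_option maxRecDepth 20000

namespace Pool.Agent.H4.RD4.E11

open Pool.Agent.H50.Rdb
open Pool.Agent.H81.RDE (ESB caseOf)

def z_19_16_0 : F := ⟨1, 0, -1, -1, 2⟩

def h_19_16_0 : List F := [⟨1, 0, 0, 0, 0⟩, ⟨1, 0, 0, -1, 0⟩, ⟨0, 0, -1, 0, 1⟩, ⟨0, 0, -1, -1, 2⟩,
  ⟨1, -1, -1, -1, 2⟩]

def t_19_16_0 : T := (.node (.cons (.keep [2,3,6,7,8] (.node (.cons (.keep [2,3,5,6,7,9] (.node (.cons (.keep [3,5,6,7,8,10] (.node (.cons (.keep [2,3,5,7,8,10] (.node (.cons (.leaf 1 [(7,1),(6,1),(3,1)]) (.cons (.leaf 1 [(3,1),(7,1),(6,1)]) (.cons (.leaf 1 [(7,1),(6,1)]) .nil))))) (.cons (.leaf 1 [(1,1),(5,1),(3,1)]) (.cons (.keep [0,1,5,6,7,8] (.node (.cons (.leaf 1 [(7,1),(3,1)]) (.cons (.leaf 1 [(3,1),(7,1)]) (.cons (.leaf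 1 [(7,1)]) .nil))))) .nil))))) (.cons (.keep [1,3,6,7,9,10] (.node (.cons (.keep [3,6,7,8,9,10] (.node (.cons (.leaf 1 [(6,1),(5,1),(3,1)]) (.cons (.leaf 1 [(3,1),(6,1),(5,1)]) (.cons (.leaf 1 [(6,1),(5,1)]) .nil))))) (.cons (.leaf 1 [(1,1),(6,1),(3,1)]) (.cons (.keep [0,1,6,7,8,10] (.node (.cons (.leaf 1 [(7,1),(3,1)]) (.cons (.leaf 1 [(3,1),(7,1)]) (.cons (.leaf 1 [(7,1)]) .nil))))) .nil))))) (.cons (.keep [0,1,6,7,8,10] (.node (.cons (.keep [3,5,6,7,8,10] (.node (.cons (.leaf 1 [(5,1),(3,1)]) (.cons (.leaf 1 [(3,1),(5,1)]) (.cons (.leaf 1 [(5,1)]) .nil))))) (.cons (.leaf 1 [(1,1),(3,1)]) (.cons (.keep [0,1,5,6,7,8] (.node (.cons (.leaf 1 [(3,1)]) (.cons (.leaf 1 [(3,1)]) (.cons (.leaf 1 []) .nil))))) .nil))))) .nil))))) (.cons (.keep [1,3,5,6,8,9] (.node (.cons (.keep [3,6,7,8,9,10]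 (.node (.cons (.keep [2,3,5,6,7,10] (.node (.cons (.leaf 1 [(7,1),(6,1),(3,1)]) (.cons (.leaf 1 [(3,1),(7,1),(6,1)]) (.cons (.leaf 1 [(7,1),(6,1)]) .nil))))) (.cons (.leaf 1 [(1,1),(5,1),(3,1)]) (.cons (.keep [0,1,5,6,7,9] (.node (.cons (.leaf 1 [(7,1),(3,1)]) (.cons (.leaf 1 [(3,1),(7,1)]) (.cons (.leaf 1 [(7,1)]) .nil))))) .nil))))) (.cons (.keep [1,3,6,7,8,10] (.node (.cons (.keep [2,3,6,7,8,10] (.node (.cons (.leaf 1 [(7,1),(6,1),(3,1)]) (.cons (.leaf 1 [(3,1),(7,1),(6,1)]) (.cons (.leaf 1 [(7,1),(6,1)]) .nil))))) (.cons (.leaf 1 [(1,1),(6,1),(3,1)]) (.cons (.keep [0,1,6,7,8,10] (.node (.cons (.leaf 1 [(7,1),(3,1)]) (.cons (.leaf 1 [(3,1),(7,1)]) (.cons (.leaf 1 [(7,1)]) .nil))))) .nil))))) (.cons (.keep [0,1,6,7,8,10] (.node (.cons (.keep [3,5,6,7,8,10] (.node (.cons (.leaf 1 [(5,1),(3,1)])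 (.cons (.leaf 1 [(3,1),(5,1)]) (.cons (.leaf 1 [(5,1)]) .nil))))) (.cons (.leaf 1 [(1,1),(3,1)]) (.cons (.keep [0,1,5,6,7,8] (.node (.cons (.leaf 1 [(3,1)]) (.cons (.leaf 1 [(3,1)]) (.cons (.leaf 1 []) .nil))))) .nil))))) .nil))))) (.cons (.keep [0,1,6,7,8,9] (.node (.cons (.keep [3,5,6,7,9,10] (.node (.cons (.keep [3,5,6,7,10] (.node (.cons (.leaf 1 [(6,1),(5,1),(3,1)]) (.cons (.leaf 1 [(3,1),(6,1),(5,1)]) (.cons (.leaf 1 [(6,1),(5,1)]) .nil))))) (.cons (.leaf 1 [(1,1),(5,1),(3,1)]) (.cons (.keep [0,1,5,6,7,9] (.node (.cons (.leaf 1 [(7,1),(3,1)]) (.cons (.leaf 1 [(3,1),(7,1)]) (.cons (.leaf 1 [(7,1)]) .nil))))) .nil))))) (.cons (.keep [1,3,5,6,10] (.node (.cons (.keep [3,6,7,8,9] (.node (.cons (.leaf 1 [(6,1),(5,1),(3,1)]) (.cons (.leaf 1 [(3,1),(6,1),(5,1)]) (.cons (.leaf 1 [(6,1),(5,1)])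 .nil))))) (.cons (.leaf 1 [(1,1),(6,1),(3,1)]) (.cons (.keep [0,1,6,7,8,9] (.node (.cons (.leaf 1 [(7,1),(3,1)]) (.cons (.leaf 1 [(3,1),(7,1)]) (.cons (.leaf 1 [(7,1)]) .nil))))) .nil))))) (.cons (.keep [0,1,5,6,7,10] (.node (.cons (.keep [3,5,6,7,8,10] (.node (.cons (.leaf 1 [(5,1),(3,1)]) (.cons (.leaf 1 [(3,1),(5,1)]) (.cons (.leaf 1 [(5,1)]) .nil))))) (.cons (.leaf 1 [(1,1),(3,1)]) (.cons (.keep [0,1,5,6,7,8] (.node (.cons (.leaf 1 [(3,1)]) (.cons (.leaf 1 [(3,1)]) (.cons (.leaf 1 []) .nil))))) .nil))))) .nil))))) .nil))))) (.cons (.keep [1,3,6,7,8,9] (.node (.cons (.keep [2,3,6,7,9,10] (.node (.cons (.keep [3,5,6,7,9,10] (.node (.cons (.keep [3,5,7,9,10] (.node (.cons (.keep [2,3,5,6,9] (.node (.cons (.leaf 1 [(2,1),(7,1),(6,1),(3,1)]) (.cons (.leaf 1 [(3,1),(7,1),(6,1),(8,1)]) (.cons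 (.leaf 1 [(8,1),(7,1),(6,1)]) .nil))))) (.cons (.leaf 1 [(1,1),(6,1),(5,1),(3,1)]) (.cons (.keep [0,1,5,6,8] (.node (.cons (.leaf 1 [(2,1),(7,1),(3,1)]) (.cons (.leaf 1 [(3,1),(7,1),(8,1)]) (.cons (.leaf 1 [(8,1),(7,1)]) .nil))))) .nil))))) (.cons (.keep [1,3,5,8,10] (.node (.cons (.keep [3,6,7,8,9] (.node (.cons (.leaf 1 [(2,1),(6,1),(5,1),(3,1)]) (.cons (.leaf 1 [(3,1),(6,1),(5,1),(7,1)]) (.cons (.leaf 1 [(7,1),(6,1),(5,1)]) .nil))))) (.cons (.leaf 1 [(1,1),(7,1),(6,1),(3,1)]) (.cons (.keep [0,1,6,7,9] (.node (.cons (.leaf 1 [(2,1),(7,1),(3,1)]) (.cons (.leaf 1 [(3,1),(7,1),(8,1)]) (.cons (.leaf 1 [(8,1),(7,1)]) .nil))))) .nil))))) (.cons (.keep [0,1,5,6,7,10] (.node (.cons (.keep [3,5,6,7,10] (.node (.cons (.leaf 1 [(2,1),(5,1),(3,1)]) (.cons (.leaf 1 [(3,1),(5,1),(8,1)]) (.cons (.leaf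 1 [(8,1),(5,1)]) .nil))))) (.cons (.leaf 1 [(1,1),(7,1),(3,1)]) (.cons (.keep [0,1,5,6,7,8] (.node (.cons (.leaf 1 [(2,1),(3,1)]) (.cons (.leaf 1 [(3,1),(9,1)]) (.cons (.leaf 1 [(9,1)]) .nil))))) .nil))))) .nil))))) (.cons (.keep [1,3,6,9,10] (.node (.cons (.keep [3,6,7,8,9] (.node (.cons (.keep [2,3,5,6,9] (.node (.cons (.leaf 1 [(2,1),(7,2),(6,1),(3,1)]) (.cons (.leaf 1 [(3,1),(7,1),(6,1),(8,1)]) (.cons (.leaf 1 [(8,1),(7,1),(6,1)]) .nil))))) (.cons (.leaf 1 [(1,1),(6,1),(5,1),(3,1)]) (.cons (.keep [0,1,5,6,8] (.node (.cons (.leaf 1 [(2,1),(7,2),(3,1)]) (.cons (.leaf 1 [(3,1),(7,1),(8,1)]) (.cons (.leaf 1 [(8,1),(7,1)]) .nil))))) .nil))))) (.cons (.keep [1,3,6,7,9] (.node (.cons (.keep [2,3,6,7,9] (.node (.cons (.leaf 1 [(2,1),(7,2),(6,1),(3,1)]) (.cons (.leaf 1 [(3,1),(7,1),(6,1),(8,1)])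 (.cons (.leaf 1 [(8,1),(7,1),(6,1)]) .nil))))) (.cons (.leaf 1 [(1,1),(7,1),(6,1),(3,1)]) (.cons (.keep [0,1,6,7,9] (.node (.cons (.leaf 1 [(2,1),(7,2),(3,1)]) (.cons (.leaf 1 [(3,1),(7,1),(8,1)]) (.cons (.leaf 1 [(8,1),(7,1)]) .nil))))) .nil))))) (.cons (.keep [0,1,6,7,8,9] (.node (.cons (.keep [3,5,6,7,10] (.node (.cons (.leaf 1 [(2,1),(5,1),(3,1)]) (.cons (.leaf 1 [(3,1),(5,1),(8,1)]) (.cons (.leaf 1 [(8,1),(5,1)]) .nil))))) (.cons (.leaf 1 [(1,1),(7,1),(3,1)]) (.cons (.keep [0,1,5,6,7,9] (.node (.cons (.leaf 1 [(2,1),(3,1)]) (.cons (.leaf 1 [(3,1),(9,1)]) (.cons (.leaf 1 [(9,1)]) .nil))))) .nil))))) .nil))))) (.cons (.keep [0,1,6,7,9,10] (.node (.cons (.keep [3,5,6,7,9,10] (.node (.cons (.keep [3,5,6,7,10] (.node (.cons (.leaf 1 [(6,1),(5,1),(3,1)]) (.cons (.leaf 1 [(3,1),(6,1),(5,1)])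 (.cons (.leaf 1 [(6,1),(5,1)]) .nil))))) (.cons (.leaf 1 [(1,1),(5,1),(3,1)]) (.cons (.keep [0,1,5,6,7,9] (.node (.cons (.leaf 1 [(7,1),(3,1)]) (.cons (.leaf 1 [(3,1),(7,1)]) (.cons (.leaf 1 [(7,1)]) .nil))))) .nil))))) (.cons (.keep [1,3,5,6,10] (.node (.cons (.keep [3,6,7,8,9] (.node (.cons (.leaf 1 [(6,1),(5,1),(3,1)]) (.cons (.leaf 1 [(3,1),(6,1),(5,1)]) (.cons (.leaf 1 [(6,1),(5,1)]) .nil))))) (.cons (.leaf 1 [(1,1),(6,1),(3,1)]) (.cons (.keep [0,1,6,7,8,9] (.node (.cons (.leaf 1 [(7,1),(3,1)]) (.cons (.leaf 1 [(3,1),(7,1)]) (.cons (.leaf 1 [(7,1)]) .nil))))) .nil))))) (.cons (.keep [0,1,5,6,7,10] (.node (.cons (.keep [3,5,6,7,8,10] (.node (.cons (.leaf 1 [(5,1),(3,1)]) (.cons (.leaf 1 [(3,1),(5,1)]) (.cons (.leaf 1 [(5,1)]) .nil))))) (.cons (.leaf 1 [(1,1),(3,1)]) (.cons (.keep [0,1,5,6,7,8]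 (.node (.cons (.leaf 1 [(3,1)]) (.cons (.leaf 1 [(3,1)]) (.cons (.leaf 1 []) .nil))))) .nil))))) .nil))))) .nil))))) (.cons (.keep [1,3,6,8,9,10] (.node (.cons (.keep [3,6,7,8,9,10] (.node (.cons (.keep [3,5,6,9,10] (.node (.cons (.keep [3,5,6,7,9] (.node (.cons (.leaf 1 [(6,1),(5,1),(3,1)]) (.cons (.leaf 1 [(3,1),(6,1),(5,1)]) (.cons (.leaf 1 [(6,1),(5,1)]) .nil))))) (.cons (.leaf 1 [(1,1),(5,1),(3,1)]) (.cons (.keep [0,1,5,6,8] (.node (.cons (.leaf 1 [(7,1),(3,1)]) (.cons (.leaf 1 [(3,1),(7,1)]) (.cons (.leaf 1 [(7,1)]) .nil))))) .nil))))) (.cons (.keep [1,3,5,7,10] (.node (.cons (.keep [3,6,7,8,9] (.node (.cons (.leaf 1 [(6,1),(5,1),(3,1)]) (.cons (.leaf 1 [(3,1),(6,1),(5,1)]) (.cons (.leaf 1 [(6,1),(5,1)]) .nil))))) (.cons (.leaf 1 [(1,1),(6,1),(3,1)]) (.cons (.keep [0,1,6,7,9] (.node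 (.cons (.leaf 1 [(7,1),(3,1)]) (.cons (.leaf 1 [(3,1),(7,1)]) (.cons (.leaf 1 [(7,1)]) .nil))))) .nil))))) (.cons (.keep [0,1,5,6,8,10] (.node (.cons (.keep [3,5,6,7,10] (.node (.cons (.leaf 1 [(5,1),(3,1)]) (.cons (.leaf 1 [(3,1),(5,1)]) (.cons (.leaf 1 [(5,1)]) .nil))))) (.cons (.leaf 1 [(1,1),(3,1)]) (.cons (.keep [0,1,5,6,7,9] (.node (.cons (.leaf 1 [(3,1)]) (.cons (.leaf 1 [(3,1)]) (.cons (.leaf 1 []) .nil))))) .nil))))) .nil))))) (.cons (.keep [1,3,6,9,10] (.node (.cons (.keep [3,6,7,8,9] (.node (.cons (.keep [3,5,6,7,9] (.node (.cons (.leaf 1 [(6,1),(5,1),(3,1)]) (.cons (.leaf 1 [(3,1),(6,1),(5,1)]) (.cons (.leaf 1 [(6,1),(5,1)]) .nil))))) (.cons (.leaf 1 [(1,1),(5,1),(3,1)]) (.cons (.keep [0,1,5,6,8] (.node (.cons (.leaf 1 [(7,1),(3,1)]) (.cons (.leaf 1 [(3,1),(7,1)]) (.cons (.leaf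 1 [(7,1)]) .nil))))) .nil))))) (.cons (.keep [1,3,6,7,9] (.node (.cons (.keep [3,6,7,8,9] (.node (.cons (.leaf 1 [(6,1),(5,1),(3,1)]) (.cons (.leaf 1 [(3,1),(6,1),(5,1)]) (.cons (.leaf 1 [(6,1),(5,1)]) .nil))))) (.cons (.leaf 1 [(1,1),(6,1),(3,1)]) (.cons (.keep [0,1,6,7,9] (.node (.cons (.leaf 1 [(7,1),(3,1)]) (.cons (.leaf 1 [(3,1),(7,1)]) (.cons (.leaf 1 [(7,1)]) .nil))))) .nil))))) (.cons (.keep [0,1,6,7,8,9] (.node (.cons (.keep [3,5,6,7,10] (.node (.cons (.leaf 1 [(5,1),(3,1)]) (.cons (.leaf 1 [(3,1),(5,1)]) (.cons (.leaf 1 [(5,1)]) .nil))))) (.cons (.leaf 1 [(1,1),(3,1)]) (.cons (.keep [0,1,5,6,7,9] (.node (.cons (.leaf 1 [(3,1)]) (.cons (.leaf 1 [(3,1)]) (.cons (.leaf 1 []) .nil))))) .nil))))) .nil))))) (.cons (.keep [0,1,6,7,9,10] (.node (.cons (.keep [3,5,6,7,9,10] (.node (.cons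 (.keep [3,5,6,7,10] (.node (.cons (.leaf 1 [(6,1),(5,1),(3,1)]) (.cons (.leaf 1 [(3,1),(6,1),(5,1)]) (.cons (.leaf 1 [(6,1),(5,1)]) .nil))))) (.cons (.leaf 1 [(1,1),(5,1),(3,1)]) (.cons (.keep [0,1,5,6,7,9] (.node (.cons (.leaf 1 [(7,1),(3,1)]) (.cons (.leaf 1 [(3,1),(7,1)]) (.cons (.leaf 1 [(7,1)]) .nil))))) .nil))))) (.cons (.keep [1,3,5,6,10] (.node (.cons (.keep [3,6,7,8,9] (.node (.cons (.leaf 1 [(6,1),(5,1),(3,1)]) (.cons (.leaf 1 [(3,1),(6,1),(5,1)]) (.cons (.leaf 1 [(6,1),(5,1)]) .nil))))) (.cons (.leaf 1 [(1,1),(6,1),(3,1)]) (.cons (.keep [0,1,6,7,8,9] (.node (.cons (.leaf 1 [(7,1),(3,1)]) (.cons (.leaf 1 [(3,1),(7,1)]) (.cons (.leaf 1 [(7,1)]) .nil))))) .nil))))) (.cons (.keep [0,1,5,6,7,10] (.node (.cons (.keep [3,5,6,7,8,10] (.node (.cons (.leaf 1 [(5,1),(3,1)]) (.cons (.leaf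 1 [(3,1),(5,1)]) (.cons (.leaf 1 [(5,1)]) .nil))))) (.cons (.leaf 1 [(1,1),(3,1)]) (.cons (.keep [0,1,5,6,7,8] (.node (.cons (.leaf 1 [(3,1)]) (.cons (.leaf 1 [(3,1)]) (.cons (.leaf 1 []) .nil))))) .nil))))) .nil))))) .nil))))) (.cons (.keep [0,1,6,7,8,9] (.node (.cons (.keep [3,5,6,7,9,10] (.node (.cons (.keep [3,5,6,7,10] (.node (.cons (.leaf 1 [(6,1),(5,1),(3,1)]) (.cons (.leaf 1 [(3,1),(6,1),(5,1)]) (.cons (.leaf 1 [(6,1),(5,1)]) .nil))))) (.cons (.leaf 1 [(1,1),(5,1),(3,1)]) (.cons (.keep [0,1,5,6,7,9] (.node (.cons (.leaf 1 [(7,1),(3,1)]) (.cons (.leaf 1 [(3,1),(7,1)]) (.cons (.leaf 1 [(7,1)]) .nil))))) .nil))))) (.cons (.keep [1,3,5,6,10] (.node (.cons (.keep [3,6,7,8,9] (.node (.cons (.leaf 1 [(6,1),(5,1),(3,1)]) (.cons (.leaf 1 [(3,1),(6,1),(5,1)]) (.cons (.leaf 1 [(6,1),(5,1)])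 .nil))))) (.cons (.leaf 1 [(1,1),(6,1),(3,1)]) (.cons (.keep [0,1,6,7,8,9] (.node (.cons (.leaf 1 [(7,1),(3,1)]) (.cons (.leaf 1 [(3,1),(7,1)]) (.cons (.leaf 1 [(7,1)]) .nil))))) .nil))))) (.cons (.keep [0,1,5,6,7,10] (.node (.cons (.keep [3,5,6,7,8,10] (.node (.cons (.leaf 1 [(5,1),(3,1)]) (.cons (.leaf 1 [(3,1),(5,1)]) (.cons (.leaf 1 [(5,1)]) .nil))))) (.cons (.leaf 1 [(1,1),(3,1)]) (.cons (.keep [0,1,5,6,7,8] (.node (.cons (.leaf 1 [(3,1)]) (.cons (.leaf 1 [(3,1)]) (.cons (.leaf 1 []) .nil))))) .nil))))) .nil))))) .nil))))) (.cons (.keep [0,1,2,6,7] (.node (.cons (.keep [2,3,5,7,8] (.node (.cons (.keep [3,5,6,7,8] (.node (.cons (.leaf 1 [(5,1),(3,1)]) (.cons (.leaf 1 [(3,1),(5,1)]) (.cons (.leaf 1 [(5,1)]) .nil))))) (.cons (.leaf 1 [(1,1),(3,1)]) (.cons (.keep [0,1,6,7,8] (.node (.cons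 (.leaf 1 [(3,1)]) (.cons (.leaf 1 [(3,1)]) (.cons (.leaf 1 []) .nil))))) .nil))))) (.cons (.keep [1,3,5,7,9] (.node (.cons (.keep [3,6,7,8,9] (.node (.cons (.leaf 1 [(5,1),(3,1)]) (.cons (.leaf 1 [(3,1),(5,1)]) (.cons (.leaf 1 [(5,1)]) .nil))))) (.cons (.leaf 1 [(1,1),(3,1)]) (.cons (.keep [0,1,6,7,8] (.node (.cons (.leaf 1 [(3,1)]) (.cons (.leaf 1 [(3,1)]) (.cons (.leaf 1 []) .nil))))) .nil))))) (.cons (.keep [0,1,5,6,8,9] (.node (.cons (.keep [3,5,6,7,8,10] (.node (.cons (.leaf 1 [(5,1),(3,1)]) (.cons (.leaf 1 [(3,1),(5,1)]) (.cons (.leaf 1 [(5,1)]) .nil))))) (.cons (.leaf 1 [(1,1),(3,1)]) (.cons (.keep [0,1,5,6,7,8] (.node (.cons (.leaf 1 [(3,1)]) (.cons (.leaf 1 [(3,1)]) (.cons (.leaf 1 []) .nil))))) .nil))))) .nil))))) .nil))))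

theorem c_19_16_0 : Concl 19 16 z_19_16_0 h_19_16_0 .nd := piece _ hP_nil t_19_16_0 _ _ (by
  decide +kernel)

def t_19_16 : T := (.keep [0,1,2] (.node (.cons (.keep [0,2,6,7] (.node (.cons (.keep [2,3,5,6,8] (.node (.cons (.keep [2,3,5,6,7,8] (.node (.cons (.keep [2,3,5,6,7,8,10] (.node (.cons (.leaf 1 [(3,1)]) (.cons (.leaf 1 [(3,1)]) (.cons (.leaf 1 []) .nil))))) (.cons (.leaf 1 [(1,1)]) (.cons (.keep [0,1,6,7,8,10] (.node (.cons (.leaf 1 [(3,1)]) (.cons (.leaf 1 [(3,1)]) (.cons (.leaf 1 []) .nil))))) .nil))))) (.cons (.keep [1,3,5,6,8,9] (.node (.cons (.keep [3,6,7,8,9,10] (.node (.cons (.leaf 1 [(3,1)]) (.cons (.leaf 1 [(3,1)]) (.cons (.leaf 1 []) .nil))))) (.cons (.leaf 1 [(1,1)]) (.cons (.keep [0,1,6,7,8,9] (.node (.cons (.leaf 1 [(3,1)]) (.cons (.leaf 1 [(3,1)]) (.cons (.leaf 1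 []) .nil))))) .nil))))) (.cons (.keep [0,1,2,6,8] (.node (.cons (.keep [3,5,7,8,9] (.node (.cons (.leaf 1 [(3,1)]) (.cons (.leaf 1 [(3,1)]) (.cons (.leaf 1 []) .nil))))) (.cons (.leaf 1 [(1,1)]) (.cons (.keep [0,1,5,6,8,9] (.node (.cons (.leaf 1 [(3,1)]) (.cons (.leaf 1 [(3,1)]) (.cons (.leaf 1 []) .nil))))) .nil))))) .nil))))) (.cons (.keep [1,3,6,7,8] (.node (.cons (.keep [2,3,6,7,8] (.node (.cons (.keep [3,5,6,7,8,9] (.node (.cons (.leaf 1 [(3,1)]) (.cons (.leaf 1 [(3,1)]) (.cons (.leaf 1 []) .nil))))) (.cons (.leaf 1 [(1,1)]) (.cons (.keep [0,1,6,7,8,9] (.node (.cons (.leaf 1 [(3,1)]) (.cons (.leaf 1 [(3,1)]) (.cons (.leaf 1 []) .nil))))) .nil))))) (.cons (.keep [1,3,6,7,8,9] (.node (.cons (.keep [3,6,7,8,9,10] (.node (.cons (.leaf 1 [(3,1)]) (.cons (.leaf 1 [(3,1)]) (.cons (.leaf 1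 []) .nil))))) (.cons (.leaf 1 [(1,1)]) (.cons (.keep [0,1,6,7,8,9] (.node (.cons (.leaf 1 [(3,1)]) (.cons (.leaf 1 [(3,1)]) (.cons (.leaf 1 []) .nil))))) .nil))))) (.cons (.keep [0,1,2,6,7] (.node (.cons (.keep [3,5,7,8,9] (.node (.cons (.leaf 1 [(3,1)]) (.cons (.leaf 1 [(3,1)]) (.cons (.leaf 1 []) .nil))))) (.cons (.leaf 1 [(1,1)]) (.cons (.keep [0,1,5,6,8,9] (.node (.cons (.leaf 1 [(3,1)]) (.cons (.leaf 1 [(3,1)]) (.cons (.leaf 1 []) .nil))))) .nil))))) .nil))))) (.cons (.keep [0,1,2,8] (.node (.cons (.keep [2,3,5,7] (.node (.cons (.keep [3,5,6,7,8] (.node (.cons (.leaf 1 [(3,1)]) (.cons (.leaf 1 [(3,1)]) (.cons (.leaf 1 []) .nil))))) (.cons (.leaf 1 [(1,1)]) (.cons (.keep [0,1,6,7,8] (.node (.cons (.leaf 1 [(3,1)]) (.cons (.leaf 1 [(3,1)]) (.cons (.leaf 1 []) .nil))))) .nil))))) (.cons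 (.keep [1,3,5,7,8] (.node (.cons (.keep [3,6,7,8,9] (.node (.cons (.leaf 1 [(3,1)]) (.cons (.leaf 1 [(3,1)]) (.cons (.leaf 1 []) .nil))))) (.cons (.leaf 1 [(1,1)]) (.cons (.keep [0,1,6,7,8] (.node (.cons (.leaf 1 [(3,1)]) (.cons (.leaf 1 [(3,1)]) (.cons (.leaf 1 []) .nil))))) .nil))))) (.cons (.keep [0,1,2,5,6] (.node (.cons (.keep [3,5,7,8,9] (.node (.cons (.leaf 1 [(3,1)]) (.cons (.leaf 1 [(3,1)]) (.cons (.leaf 1 []) .nil))))) (.cons (.leaf 1 [(1,1)]) (.cons (.keep [0,1,5,6,8,9] (.node (.cons (.leaf 1 [(3,1)]) (.cons (.leaf 1 [(3,1)]) (.cons (.leaf 1 []) .nil))))) .nil))))) .nil))))) .nil))))) (.cons (.keep [1,5,6,7] (.node (.cons (.keep [2,3,6,8] (.node (.cons (.keep [2,3,5,6,7] (.node (.cons (.keep [2,3,5,6,7,8] (.node (.cons (.keep [0,3,5,6,7,8,9] (.node (.cons (.leaf 1 [(6,1),(3,1)])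 (.cons (.leaf 1 [(3,1),(6,1)]) (.cons (.leaf 1 [(6,1)]) .nil))))) (.cons (.leaf 1 [(1,1),(3,1)]) (.cons (.keep [0,1,6,7,8,9] (.node (.cons (.leaf 1 [(3,1)]) (.cons (.leaf 1 [(3,1)]) (.cons (.leaf 1 []) .nil))))) .nil))))) (.cons (.keep [1,3,5,6,7,8,9] (.node (.cons (.keep [0,3,6,7,8,9,11] (.node (.cons (.leaf 1 [(6,1),(3,1)]) (.cons (.leaf 1 [(3,1),(6,1)]) (.cons (.leaf 1 [(6,1)]) .nil))))) (.cons (.leaf 1 [(1,1),(3,1)]) (.cons (.keep [0,1,6,7,8,9] (.node (.cons (.leaf 1 [(3,1)]) (.cons (.leaf 1 [(3,1)]) (.cons (.leaf 1 []) .nil))))) .nil))))) (.cons (.keep [0,1,6,7,8,9] (.node (.cons (.keep [3,5,6,7,8,10] (.node (.cons (.leaf 1 [(5,1),(3,1)]) (.cons (.leaf 1 [(3,1),(5,1)]) (.cons (.leaf 1 [(5,1)]) .nil))))) (.cons (.leaf 1 [(1,1),(3,1)]) (.cons (.keep [0,1,5,6,7,8] (.node (.cons (.leaf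 1 [(3,1)]) (.cons (.leaf 1 [(3,1)]) (.cons (.leaf 1 []) .nil))))) .nil))))) .nil))))) (.cons (.keep [1,3,5,6,7,8] (.node (.cons (.keep [2,3,6,7,8,10] (.node (.cons (.keep [3,5,6,7,8,10] (.node (.cons (.leaf 1 [(5,1),(3,1)]) (.cons (.leaf 1 [(3,1),(5,1)]) (.cons (.leaf 1 [(5,1)]) .nil))))) (.cons (.leaf 1 [(1,1),(3,1)]) (.cons (.keep [0,1,6,7,8,10] (.node (.cons (.leaf 1 [(3,1)]) (.cons (.leaf 1 [(3,1)]) (.cons (.leaf 1 []) .nil))))) .nil))))) (.cons (.keep [1,3,6,7,9,10] (.node (.cons (.keep [3,6,7,8,9,10] (.node (.cons (.leaf 1 [(5,1),(3,1)]) (.cons (.leaf 1 [(3,1),(5,1)]) (.cons (.leaf 1 [(5,1)]) .nil))))) (.cons (.leaf 1 [(1,1),(3,1)]) (.cons (.keep [0,1,6,7,8,10] (.node (.cons (.leaf 1 [(3,1)]) (.cons (.leaf 1 [(3,1)]) (.cons (.leaf 1 []) .nil))))) .nil))))) (.cons (.keep [0,1,6,7,8,9]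 (.node (.cons (.keep [3,5,6,7,8,10] (.node (.cons (.leaf 1 [(5,1),(3,1)]) (.cons (.leaf 1 [(3,1),(5,1)]) (.cons (.leaf 1 [(5,1)]) .nil))))) (.cons (.leaf 1 [(1,1),(3,1)]) (.cons (.keep [0,1,5,6,7,8] (.node (.cons (.leaf 1 [(3,1)]) (.cons (.leaf 1 [(3,1)]) (.cons (.leaf 1 []) .nil))))) .nil))))) .nil))))) (.cons (.keep [0,1,2,6,7] (.node (.cons (.keep [2,3,5,7,8] (.node (.cons (.keep [3,5,6,7,8] (.node (.cons (.leaf 1 [(5,1),(3,1)]) (.cons (.leaf 1 [(3,1),(5,1)]) (.cons (.leaf 1 [(5,1)]) .nil))))) (.cons (.leaf 1 [(1,1),(3,1)]) (.cons (.keep [0,1,6,7,8] (.node (.cons (.leaf 1 [(3,1)]) (.cons (.leaf 1 [(3,1)]) (.cons (.leaf 1 []) .nil))))) .nil))))) (.cons (.keep [1,3,5,7,9] (.node (.cons (.keep [3,6,7,8,9] (.node (.cons (.leaf 1 [(5,1),(3,1)]) (.cons (.leaf 1 [(3,1),(5,1)]) (.cons (.leaf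 1 [(5,1)]) .nil))))) (.cons (.leaf 1 [(1,1),(3,1)]) (.cons (.keep [0,1,6,7,8] (.node (.cons (.leaf 1 [(3,1)]) (.cons (.leaf 1 [(3,1)]) (.cons (.leaf 1 []) .nil))))) .nil))))) (.cons (.keep [0,1,5,6,8,9] (.node (.cons (.keep [3,5,6,7,8,10] (.node (.cons (.leaf 1 [(5,1),(3,1)]) (.cons (.leaf 1 [(3,1),(5,1)]) (.cons (.leaf 1 [(5,1)]) .nil))))) (.cons (.leaf 1 [(1,1),(3,1)]) (.cons (.keep [0,1,5,6,7,8] (.node (.cons (.leaf 1 [(3,1)]) (.cons (.leaf 1 [(3,1)]) (.cons (.leaf 1 []) .nil))))) .nil))))) .nil))))) .nil))))) (.cons (.keep [1,3,6,7,8] (.leaf 0 [(0,0)])) (.cons (.keep [0,1,2,8] (.node (.cons (.keep [2,3,5,7] (.node (.cons (.keep [3,5,6,7,8] (.node (.cons (.leaf 1 [(3,1)]) (.cons (.leaf 1 [(3,1)]) (.cons (.leaf 1 []) .nil))))) (.cons (.leaf 1 [(1,1)]) (.cons (.keep [0,1,6,7,8] (.node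 (.cons (.leaf 1 [(3,1)]) (.cons (.leaf 1 [(3,1)]) (.cons (.leaf 1 []) .nil))))) .nil))))) (.cons (.keep [1,3,5,7,8] (.node (.cons (.keep [3,6,7,8,9] (.node (.cons (.leaf 1 [(3,1)]) (.cons (.leaf 1 [(3,1)]) (.cons (.leaf 1 []) .nil))))) (.cons (.leaf 1 [(1,1)]) (.cons (.keep [0,1,6,7,8] (.node (.cons (.leaf 1 [(3,1)]) (.cons (.leaf 1 [(3,1)]) (.cons (.leaf 1 []) .nil))))) .nil))))) (.cons (.keep [0,1,2,5,6] (.node (.cons (.keep [3,5,7,8,9] (.node (.cons (.leaf 1 [(3,1)]) (.cons (.leaf 1 [(3,1)]) (.cons (.leaf 1 []) .nil))))) (.cons (.leaf 1 [(1,1)]) (.cons (.keep [0,1,5,6,8,9] (.node (.cons (.leaf 1 [(3,1)]) (.cons (.leaf 1 [(3,1)]) (.cons (.leaf 1 []) .nil))))) .nil))))) .nil))))) .nil))))) (.cons (.leaf 1 []) .nil)))))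

theorem e_19_16 : ESB (caseOf 4 19 16) := esb_of_pieces _ (hP_cons c_19_16_0 hP_nil) t_19_16 (by
  decide +kernel)

def t_19_17 : T := (.keep [0,1,2] (.node (.cons (.leaf 1 []) (.cons (.leaf 1 [(4,1)]) (.cons (.keep [1,5,7,8] (.node (.cons (.leaf 1 []) (.cons (.leaf 1 [(4,1)]) (.cons (.keep [1,5,7,9] (.node (.cons (.leaf 1 []) (.cons (.leaf 1 [(4,1)]) (.cons (.keep [1,5,7,8] (.node (.cons (.leaf 1 []) (.cons (.leaf 1 [(4,1)]) (.cons (.leaf 1 [(9,1)]) (.cons (.leaf 1 [(9,1),(4,1)]) (.cons (.leaf 1 [(5,1)]) (.cons (.leaf 1 []) .nil)))))))) (.cons (.keep [3,4,7,8,9] (.node (.cons (.leaf 1 [(7,1)]) (.cons (.leaf 1 [(7,1),(4,1)]) (.cons (.leaf 1 [(9,1),(7,1)]) (.cons (.leaf 1 [(9,1),(7,1),(4,1)]) (.cons (.leaf 1 [(7,1),(5,1)]) (.cons (.leaf 1 [(7,1)]) .nil)))))))) (.cons (.leaf 1 [(5,1)]) (.cons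 (.leaf 1 []) .nil)))))))) (.cons (.keep [3,4,7,8,9] (.node (.cons (.leaf 1 [(7,1)]) (.cons (.leaf 1 [(7,1),(4,1)]) (.cons (.keep [5,6,7,8,9] (.node (.cons (.leaf 1 [(8,1)]) (.cons (.leaf 1 [(8,1),(4,1)]) (.cons (.leaf 1 [(9,1),(8,1)]) (.cons (.leaf 1 [(9,1),(8,1),(4,1)]) (.cons (.leaf 1 [(8,1),(5,1)]) (.cons (.leaf 1 [(8,1)]) .nil)))))))) (.cons (.keep [4,6,7,8,10] (.node (.cons (.leaf 1 [(8,1),(6,1)]) (.cons (.leaf 1 [(8,1),(6,1),(4,1)]) (.cons (.leaf 1 [(9,1),(8,1),(6,1)]) (.cons (.leaf 1 [(9,1),(8,1),(6,1),(4,1)]) (.cons (.leaf 1 [(8,1),(6,1),(5,1)]) (.cons (.leaf 1 [(8,1),(6,1)]) .nil)))))))) (.cons (.leaf 1 [(7,1),(5,1)]) (.cons (.leaf 1 [(7,1)]) .nil)))))))) (.cons (.leaf 1 [(5,1)]) (.cons (.leaf 1 []) .nil)))))))) (.cons (.keep [3,4,6,7,8] (.node (.cons (.leaf 1 [(7,1)]) (.cons (.leaf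 1 [(7,1),(4,1)]) (.cons (.keep [5,6,7,8,10] (.node (.cons (.leaf 1 [(8,1)]) (.cons (.leaf 1 [(8,1),(4,1)]) (.cons (.keep [5,6,7,8,9] (.node (.cons (.leaf 1 [(9,1)]) (.cons (.leaf 1 [(9,1),(4,1)]) (.cons (.leaf 1 []) (.cons (.leaf 1 [(4,1)]) (.cons (.leaf 1 [(9,1),(5,1)]) (.cons (.leaf 1 [(9,1)]) .nil)))))))) (.cons (.keep [4,6,7,8,10] (.node (.cons (.leaf 1 [(9,1),(6,1)]) (.cons (.leaf 1 [(9,1),(6,1),(4,1)]) (.cons (.leaf 1 [(6,1)]) (.cons (.leaf 1 [(6,1),(4,1)]) (.cons (.leaf 1 [(9,1),(6,1),(5,1)]) (.cons (.leaf 1 [(9,1),(6,1)]) .nil)))))))) (.cons (.leaf 1 [(8,1),(5,1)]) (.cons (.leaf 1 [(8,1)]) .nil)))))))) (.cons (.keep [4,6,7,9,10] (.node (.cons (.leaf 1 [(8,1),(6,1)]) (.cons (.leaf 1 [(8,1),(6,1),(4,1)]) (.cons (.keep [5,6,7,8,9] (.node (.cons (.leaf 1 [(9,1),(7,1)]) (.cons (.leaf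 1 [(9,1),(7,1),(4,1)]) (.cons (.leaf 1 [(7,1)]) (.cons (.leaf 1 [(7,1),(4,1)]) (.cons (.leaf 1 [(9,1),(7,1),(5,1)]) (.cons (.leaf 1 [(9,1),(7,1)]) .nil)))))))) (.cons (.keep [4,6,7,8,10] (.node (.cons (.leaf 1 [(9,1),(7,1),(6,1)]) (.cons (.leaf 1 [(9,1),(7,1),(6,1),(4,1)]) (.cons (.leaf 1 [(7,1),(6,1)]) (.cons (.leaf 1 [(7,1),(6,1),(4,1)]) (.cons (.leaf 1 [(9,1),(7,1),(6,1),(5,1)]) (.cons (.leaf 1 [(9,1),(7,1),(6,1)]) .nil)))))))) (.cons (.leaf 1 [(8,1),(6,1),(5,1)]) (.cons (.leaf 1 [(8,1),(6,1)]) .nil)))))))) (.cons (.leaf 1 [(7,1),(5,1)]) (.cons (.leaf 1 [(7,1)]) .nil)))))))) (.cons (.leaf 1 [(5,1)]) (.cons (.leaf 1 []) .nil))))))))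

theorem e_19_17 : ESB (caseOf 4 19 17) := esb_of_ok (t := t_19_17) (by decide +kernel)

def t_19_18 : T := (.keep [0,1,2] (.node (.cons (.keep [2,5,7,8] (.node (.cons (.leaf 1 [(2,1)]) (.cons (.leaf 1 [(3,1)]) (.cons (.leaf 1 []) (.cons (.leaf 1 [(3,1)]) (.cons (.leaf 1 [(2,1)]) (.cons (.leaf 1 []) .nil)))))))) (.cons (.keep [0,4,7,8] (.node (.cons (.leaf 1 [(7,1),(2,1)]) (.cons (.leaf 1 [(3,1),(7,1)]) (.cons (.leaf 1 [(7,1)]) (.cons (.leaf 1 [(3,1),(7,1)]) (.cons (.leaf 1 [(7,1),(2,1)]) (.cons (.leaf 1 [(7,1)]) .nil)))))))) (.cons (.leaf 1 []) (.cons (.leaf 1 [(4,1)]) (.cons (.leaf 1 [(5,1)]) (.cons (.leaf 1 []) .nil))))))))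

theorem e_19_18 : ESB (caseOf 4 19 18) := esb_of_ok (t := t_19_18) (by decide +kernel)

def t_19_19 : T := (.keep [0,1,2] (.node (.cons (.leaf 1 []) (.cons (.leaf 1 [(4,1)]) (.cons (.leaf 1 [(4,1)]) (.cons (.leaf 1 [(5,1)]) (.cons (.leaf 1 []) (.cons (.leaf 1 [(5,1)]) (.cons (.leaf 1 [(6,1)]) (.cons (.leaf 1 [(6,1)]) (.cons (.leaf 1 []) .nil)))))))))))

theorem e_19_19 : ESB (caseOf 4 19 19) := esb_of_ok (t := t_19_19) (by decide +kernel)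

def t_19_20 : T := (.keep [0,1,2] (.node (.cons (.keep [2,5,7,8] (.node (.cons (.keep [3,6,7,9] (.node (.cons (.leaf 2 [(8,1)]) (.cons (.leaf 1 [(3,1)]) (.cons (.leaf 2 [(1,1),(8,1)]) (.cons (.leaf 1 [(3,1)]) (.cons (.leaf 2 [(8,1),(1,1)]) (.cons (.leaf 1 []) .nil)))))))) (.cons (.keep [2,3,4,6,7] (.node (.cons (.leaf 2 [(10,1)]) (.cons (.leaf 1 [(3,1)]) (.cons (.leaf 2 [(1,1),(10,1)]) (.cons (.leaf 1 [(3,1)]) (.cons (.leaf 2 [(10,1),(1,1)]) (.cons (.leaf 1 []) .nil)))))))) (.cons (.leaf 1 [(1,1)]) (.cons (.leaf 1 [(1,1)]) (.cons (.keep [1,5,7,9] (.node (.cons (.leaf 2 [(8,1)]) (.cons (.leaf 1 [(3,1)]) (.cons (.leaf 2 [(1,1),(8,1)]) (.cons (.leaf 1 [(3,1)]) (.cons (.leaf 2 [(8,1),(1,1)]) (.cons (.leaf 1 []) .nil)))))))) (.cons (.keep [0,1,4,7] (.node (.cons (.leaf 2 [(9,1)]) (.cons (.leaf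 1 [(3,1)]) (.cons (.leaf 2 [(1,1),(9,1)]) (.cons (.leaf 1 [(3,1)]) (.cons (.leaf 2 [(9,1),(1,1)]) (.cons (.leaf 1 []) .nil)))))))) .nil)))))))) (.cons (.keep [0,2,4,8] (.node (.cons (.keep [3,7,8,9] (.node (.cons (.leaf 2 [(8,1)]) (.cons (.leaf 1 [(3,1),(8,1)]) (.cons (.leaf 2 [(1,1),(8,1)]) (.cons (.leaf 1 [(3,1),(8,1)]) (.cons (.leaf 1 [(5,1),(1,1)]) (.cons (.leaf 1 [(8,1)]) .nil)))))))) (.cons (.keep [3,4,6,7,8] (.node (.cons (.leaf 2 [(10,1)]) (.cons (.leaf 1 [(3,1),(10,1)]) (.cons (.leaf 2 [(1,1),(10,1)]) (.cons (.leaf 1 [(3,1),(10,1)]) (.cons (.leaf 1 [(5,1),(1,1)]) (.cons (.leaf 1 [(10,1)]) .nil)))))))) (.cons (.leaf 1 [(1,1),(8,1)]) (.cons (.leaf 1 [(1,1),(8,1)]) (.cons (.keep [1,5,8,9] (.node (.cons (.leaf 2 [(8,1)]) (.cons (.leaf 1 [(3,1),(8,1)]) (.cons (.leaf 2 [(1,1),(8,1)])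 (.cons (.leaf 1 [(3,1),(8,1)]) (.cons (.leaf 1 [(5,1),(1,1)]) (.cons (.leaf 1 [(8,1)]) .nil)))))))) (.cons (.keep [0,1,4,8] (.node (.cons (.leaf 2 [(9,1)]) (.cons (.leaf 1 [(3,1),(9,1)]) (.cons (.leaf 2 [(1,1),(9,1)]) (.cons (.leaf 1 [(3,1),(9,1)]) (.cons (.leaf 1 [(5,1),(1,1)]) (.cons (.leaf 1 [(9,1)]) .nil)))))))) .nil)))))))) (.cons (.keep [1,5,6,8] (.node (.cons (.keep [2,5,6,7] (.node (.cons (.keep [2,5,6,7,9] (.node (.cons (.leaf 2 [(2,2),(9,1)]) (.cons (.leaf 1 [(2,1),(3,1)]) (.cons (.leaf 1 [(9,1),(6,1)]) (.cons (.leaf 2 [(3,2),(10,1)]) (.cons (.leaf 1 [(0,1),(9,1),(2,2)]) (.cons (.leaf 2 [(10,1)]) .nil)))))))) (.cons (.keep [0,3,6,7,9] (.node (.cons (.leaf 2 [(9,1),(7,2)]) (.cons (.leaf 1 [(7,1),(3,1)]) (.cons (.leaf 2 [(1,1),(9,1),(7,2)]) (.cons (.leaf 1 [(3,1),(7,1)]) (.cons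 (.leaf 2 [(9,1),(7,2),(1,1)]) (.cons (.leaf 1 [(7,1)]) .nil)))))))) (.cons (.leaf 2 [(1,3),(9,1)]) (.cons (.leaf 1 [(1,1),(3,1)]) (.cons (.keep [1,5,7,8,9] (.node (.cons (.leaf 2 [(2,2),(8,1),(6,2)]) (.cons (.leaf 1 [(2,1),(6,1),(3,1)]) (.cons (.leaf 1 [(8,1),(9,1),(6,1)]) (.cons (.leaf 2 [(3,2),(6,1),(10,1)]) (.cons (.leaf 1 [(0,1),(8,1),(6,2),(2,2)]) (.cons (.leaf 2 [(10,1),(6,1)]) .nil)))))))) (.cons (.keep [0,1,7,9] (.node (.cons (.leaf 2 [(8,1)]) (.cons (.leaf 1 [(3,1)]) (.cons (.leaf 2 [(1,1),(8,1)]) (.cons (.leaf 1 [(3,1)]) (.cons (.leaf 2 [(8,1),(1,1)]) (.cons (.leaf 1 []) .nil)))))))) .nil)))))))) (.cons (.keep [2,3,4,7] (.node (.cons (.keep [5,6,7,8,9] (.node (.cons (.leaf 2 [(2,2),(9,1)]) (.cons (.leaf 1 [(2,1),(3,1),(9,1)]) (.cons (.leaf 1 [(8,1),(9,1)]) (.cons (.leaf 2 [(10,1),(3,2),(9,2)])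 (.cons (.leaf 1 [(5,1),(2,1)]) (.cons (.leaf 2 [(10,1),(9,2)]) .nil)))))))) (.cons (.keep [0,3,6,8,9] (.node (.cons (.leaf 2 [(9,1),(7,2)]) (.cons (.leaf 1 [(3,1),(7,1),(9,1)]) (.cons (.leaf 2 [(1,1),(9,1),(7,2)]) (.cons (.leaf 1 [(3,1),(7,1),(9,1)]) (.cons (.leaf 1 [(5,1),(7,1),(1,1)]) (.cons (.leaf 1 [(9,1),(7,1)]) .nil)))))))) (.cons (.leaf 2 [(1,3),(9,1),(8,2)]) (.cons (.leaf 1 [(3,1),(1,1),(8,1)]) (.cons (.keep [1,5,7,8,9] (.node (.cons (.leaf 2 [(2,2),(9,1),(6,2)]) (.cons (.leaf 1 [(2,1),(3,1),(6,1),(9,1)]) (.cons (.leaf 1 [(8,1),(9,1),(6,1)]) (.cons (.leaf 2 [(10,1),(3,2),(6,1),(9,2)]) (.cons (.leaf 1 [(5,1),(6,1),(2,1)]) (.cons (.leaf 2 [(10,1),(9,2),(6,1)]) .nil)))))))) (.cons (.keep [0,1,8,9] (.node (.cons (.leaf 2 [(8,1)]) (.cons (.leaf 1 [(3,1),(8,1)]) (.cons (.leaf 2 [(1,1),(8,1)])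 (.cons (.leaf 1 [(3,1),(8,1)]) (.cons (.leaf 1 [(5,1),(1,1)]) (.cons (.leaf 1 [(8,1)]) .nil)))))))) .nil)))))))) (.cons (.keep [1,5,7,8,9] (.node (.cons (.keep [2,5,6,7,9] (.node (.cons (.leaf 2 [(9,1)]) (.cons (.leaf 1 [(3,1)]) (.cons (.leaf 2 [(1,1),(9,1)]) (.cons (.leaf 1 [(3,1)]) (.cons (.leaf 2 [(9,1),(1,1)]) (.cons (.leaf 1 []) .nil)))))))) (.cons (.keep [2,3,7,8,9] (.node (.cons (.leaf 2 [(8,1)]) (.cons (.leaf 1 [(3,1)]) (.cons (.leaf 2 [(1,1),(8,1)]) (.cons (.leaf 1 [(3,1)]) (.cons (.leaf 2 [(8,1),(1,1)]) (.cons (.leaf 1 []) .nil)))))))) (.cons (.leaf 1 [(1,1)]) (.cons (.leaf 1 [(1,1)]) (.cons (.keep [1,5,7,8,10] (.node (.cons (.leaf 2 [(8,1)]) (.cons (.leaf 1 [(3,1)]) (.cons (.leaf 2 [(1,1),(8,1)]) (.cons (.leaf 1 [(3,1)]) (.cons (.leaf 2 [(8,1),(1,1)]) (.cons (.leaf 1 []) .nil))))))))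 (.cons (.keep [0,1,7,8] (.node (.cons (.leaf 2 [(8,1)]) (.cons (.leaf 1 [(3,1)]) (.cons (.leaf 2 [(1,1),(8,1)]) (.cons (.leaf 1 [(3,1)]) (.cons (.leaf 2 [(8,1),(1,1)]) (.cons (.leaf 1 []) .nil)))))))) .nil)))))))) (.cons (.keep [1,3,4,7,8] (.node (.cons (.keep [5,6,7,8,10] (.node (.cons (.leaf 2 [(9,1)]) (.cons (.leaf 1 [(3,1),(9,1)]) (.cons (.leaf 2 [(1,1),(9,1)]) (.cons (.leaf 1 [(3,1),(9,1)]) (.cons (.leaf 1 [(5,1),(1,1)]) (.cons (.leaf 1 [(9,1)]) .nil)))))))) (.cons (.keep [0,3,8,9,10] (.node (.cons (.leaf 2 [(8,1)]) (.cons (.leaf 1 [(3,1),(8,1)]) (.cons (.leaf 2 [(1,1),(8,1)]) (.cons (.leaf 1 [(3,1),(8,1)]) (.cons (.leaf 1 [(5,1),(1,1)]) (.cons (.leaf 1 [(8,1)]) .nil)))))))) (.cons (.leaf 1 [(1,1),(8,1)]) (.cons (.leaf 1 [(1,1),(8,1)]) (.cons (.keep [1,5,7,8,9] (.node (.cons (.leaf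 2 [(9,1)]) (.cons (.leaf 1 [(3,1),(9,1)]) (.cons (.leaf 2 [(1,1),(9,1)]) (.cons (.leaf 1 [(3,1),(9,1)]) (.cons (.leaf 1 [(5,1),(1,1)]) (.cons (.leaf 1 [(9,1)]) .nil)))))))) (.cons (.keep [0,1,8,9] (.node (.cons (.leaf 2 [(8,1)]) (.cons (.leaf 1 [(3,1),(8,1)]) (.cons (.leaf 2 [(1,1),(8,1)]) (.cons (.leaf 1 [(3,1),(8,1)]) (.cons (.leaf 1 [(5,1),(1,1)]) (.cons (.leaf 1 [(8,1)]) .nil)))))))) .nil)))))))) (.cons (.keep [1,5,6,7,9] (.node (.cons (.leaf 2 [(7,2),(9,1)]) (.cons (.leaf 1 [(7,1),(3,1)]) (.cons (.leaf 2 [(1,1),(9,1),(7,2)]) (.cons (.leaf 1 [(7,1),(3,1)]) (.cons (.leaf 2 [(7,2),(9,1),(1,1)]) (.cons (.leaf 1 [(7,1)]) .nil)))))))) (.cons (.keep [0,1,4,7] (.node (.cons (.leaf 2 [(9,1)]) (.cons (.leaf 1 [(3,1)]) (.cons (.leaf 2 [(1,1),(9,1)]) (.cons (.leaf 1 [(3,1)]) (.cons (.leaf 2 [(9,1),(1,1)])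 (.cons (.leaf 1 []) .nil)))))))) .nil)))))))) (.cons (.keep [1,4,6,8] (.node (.cons (.keep [5,6,7,8] (.node (.cons (.keep [2,5,6,8,9] (.node (.cons (.leaf 2 [(9,1),(8,1)]) (.cons (.leaf 2 [(9,1),(3,2)]) (.cons (.leaf 2 [(1,3),(8,1)]) (.cons (.leaf 1 [(1,1),(3,1)]) (.cons (.leaf 2 [(9,1),(8,1),(1,1)]) (.cons (.leaf 2 [(9,1)]) .nil)))))))) (.cons (.keep [2,3,6,8,9] (.node (.cons (.leaf 2 [(7,2),(8,1),(9,2)]) (.cons (.leaf 1 [(7,1),(9,1),(3,1)]) (.cons (.leaf 2 [(1,3),(8,1)]) (.cons (.leaf 1 [(1,1),(3,1)]) (.cons (.leaf 2 [(7,2),(8,1),(9,2),(1,1)]) (.cons (.leaf 1 [(7,1),(9,1)]) .nil)))))))) (.cons (.leaf 2 [(1,3),(8,1)]) (.cons (.leaf 1 [(1,1),(3,1),(8,1)]) (.cons (.keep [1,6,7,8,9] (.node (.cons (.leaf 2 [(9,1),(7,1),(6,1)]) (.cons (.leaf 2 [(9,1),(6,1),(3,2)]) (.cons (.leaf 2 [(1,3),(7,1)])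 (.cons (.leaf 1 [(1,1),(3,1)]) (.cons (.leaf 2 [(9,1),(7,1),(6,1),(1,1)]) (.cons (.leaf 2 [(9,1),(6,1)]) .nil)))))))) (.cons (.keep [0,4,6,8,9] (.node (.cons (.leaf 2 [(9,2),(8,1)]) (.cons (.leaf 1 [(9,1),(3,1)]) (.cons (.leaf 2 [(1,3),(8,1)]) (.cons (.leaf 1 [(1,1),(3,1)]) (.cons (.leaf 2 [(9,2),(8,1),(1,1)]) (.cons (.leaf 1 [(9,1)]) .nil)))))))) .nil)))))))) (.cons (.keep [3,4,7,8] (.node (.cons (.keep [5,6,7,8,9] (.node (.cons (.leaf 2 [(9,1),(8,1)]) (.cons (.leaf 2 [(9,1),(3,2),(8,2)]) (.cons (.leaf 2 [(1,3),(8,1)]) (.cons (.leaf 1 [(1,1),(3,1),(8,1)]) (.cons (.leaf 2 [(9,1),(5,2),(1,2)]) (.cons (.leaf 2 [(9,1),(8,2)]) .nil)))))))) (.cons (.keep [3,6,7,8,9] (.node (.cons (.leaf 2 [(6,2),(8,1),(9,2)]) (.cons (.leaf 1 [(6,1),(3,1),(9,1),(8,1)]) (.cons (.leaf 2 [(1,3),(8,1)]) (.cons (.leaf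 1 [(1,1),(3,1),(8,1)]) (.cons (.leaf 1 [(6,1),(5,1),(9,1),(1,1)]) (.cons (.leaf 1 [(6,1),(8,1),(9,1)]) .nil)))))))) (.cons (.leaf 2 [(1,3),(8,1),(7,2)]) (.cons (.leaf 1 [(1,1),(3,1),(7,1),(8,1)]) (.cons (.keep [1,6,7,8,9] (.node (.cons (.leaf 2 [(9,1),(8,1),(6,1)]) (.cons (.leaf 2 [(9,1),(3,2),(6,1),(8,2)]) (.cons (.leaf 2 [(1,3),(8,1)]) (.cons (.leaf 1 [(1,1),(3,1),(8,1)]) (.cons (.leaf 2 [(9,1),(5,2),(6,1),(1,2)]) (.cons (.leaf 2 [(9,1),(8,2),(6,1)]) .nil)))))))) (.cons (.keep [0,4,7,8,9] (.node (.cons (.leaf 2 [(9,2),(8,1)]) (.cons (.leaf 1 [(9,1),(3,1),(8,1)]) (.cons (.leaf 2 [(1,3),(8,1)]) (.cons (.leaf 1 [(1,1),(3,1),(8,1)]) (.cons (.leaf 1 [(9,1),(5,1),(1,1)]) (.cons (.leaf 1 [(9,1),(8,1)]) .nil)))))))) .nil)))))))) (.cons (.keep [1,5,7,8,9] (.node (.cons (.keep [5,6,7,8,10] (.node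 (.cons (.leaf 2 [(9,2),(8,1)]) (.cons (.leaf 1 [(9,1),(3,1)]) (.cons (.leaf 2 [(1,5),(8,1)]) (.cons (.leaf 1 [(1,2),(3,1)]) (.cons (.leaf 2 [(9,2),(8,1),(1,1)]) (.cons (.leaf 1 [(9,1)]) .nil)))))))) (.cons (.keep [3,7,8,9,10] (.node (.cons (.leaf 2 [(8,2),(7,1)]) (.cons (.leaf 1 [(8,1),(3,1)]) (.cons (.leaf 2 [(1,1),(7,1),(8,2)]) (.cons (.leaf 1 [(8,1),(3,1)]) (.cons (.leaf 2 [(8,2),(7,1),(1,1)]) (.cons (.leaf 1 [(8,1)]) .nil)))))))) (.cons (.leaf 1 [(1,1),(8,1)]) (.cons (.leaf 1 [(1,1),(8,1)]) (.cons (.keep [6,7,8,9,10] (.node (.cons (.leaf 2 [(8,2),(7,1)]) (.cons (.leaf 1 [(8,1),(3,1)]) (.cons (.leaf 2 [(1,1),(7,1),(8,2)]) (.cons (.leaf 1 [(8,1),(3,1)]) (.cons (.leaf 2 [(8,2),(7,1),(1,1)]) (.cons (.leaf 1 [(8,1)]) .nil)))))))) (.cons (.keep [0,4,7,8,9] (.node (.cons (.leaf 2 [(9,2),(8,1)])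 (.cons (.leaf 1 [(9,1),(3,1)]) (.cons (.leaf 2 [(1,3),(8,1)]) (.cons (.leaf 1 [(1,1),(3,1)]) (.cons (.leaf 2 [(9,2),(8,1),(1,1)]) (.cons (.leaf 1 [(9,1)]) .nil)))))))) .nil)))))))) (.cons (.keep [1,3,4,7,8] (.node (.cons (.keep [5,6,7,8,9] (.node (.cons (.leaf 2 [(10,2),(9,1)]) (.cons (.leaf 1 [(10,1),(3,1),(9,1)]) (.cons (.leaf 2 [(1,5),(9,1)]) (.cons (.leaf 1 [(1,2),(3,1),(9,1)]) (.cons (.leaf 1 [(10,1),(5,1),(1,1)]) (.cons (.leaf 1 [(10,1),(9,1)]) .nil)))))))) (.cons (.keep [3,7,8,9,10] (.node (.cons (.leaf 2 [(9,2),(8,1)]) (.cons (.leaf 1 [(9,1),(3,1),(8,1)]) (.cons (.leaf 2 [(1,1),(8,1),(9,2)]) (.cons (.leaf 1 [(9,1),(3,1),(8,1)]) (.cons (.leaf 1 [(9,1),(5,1),(1,1)]) (.cons (.leaf 1 [(9,1),(8,1)]) .nil)))))))) (.cons (.leaf 1 [(8,1),(9,1),(1,1)]) (.cons (.leaf 1 [(8,1),(9,1),(1,1)])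 (.cons (.keep [6,7,8,9,10] (.node (.cons (.leaf 2 [(9,2),(8,1)]) (.cons (.leaf 1 [(9,1),(3,1),(8,1)]) (.cons (.leaf 2 [(1,1),(8,1),(9,2)]) (.cons (.leaf 1 [(9,1),(3,1),(8,1)]) (.cons (.leaf 1 [(9,1),(5,1),(1,1)]) (.cons (.leaf 1 [(9,1),(8,1)]) .nil)))))))) (.cons (.keep [0,4,8,9,10] (.node (.cons (.leaf 2 [(9,2),(8,1)]) (.cons (.leaf 1 [(9,1),(3,1),(8,1)]) (.cons (.leaf 2 [(1,3),(8,1)]) (.cons (.leaf 1 [(1,1),(3,1),(8,1)]) (.cons (.leaf 1 [(9,1),(5,1),(1,1)]) (.cons (.leaf 1 [(9,1),(8,1)]) .nil)))))))) .nil)))))))) (.cons (.keep [1,5,6,7,9] (.node (.cons (.leaf 2 [(7,2),(9,1)]) (.cons (.leaf 1 [(7,1),(3,1),(9,1)]) (.cons (.leaf 2 [(7,2),(1,1),(9,1)]) (.cons (.leaf 1 [(7,1),(3,1),(9,1)]) (.cons (.leaf 1 [(7,1),(5,1),(1,1)]) (.cons (.leaf 1 [(7,1),(9,1)]) .nil)))))))) (.cons (.keep [0,1,4,7]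 (.node (.cons (.leaf 2 [(9,1)]) (.cons (.leaf 1 [(3,1),(9,1)]) (.cons (.leaf 2 [(1,1),(9,1)]) (.cons (.leaf 1 [(3,1),(9,1)]) (.cons (.leaf 1 [(5,1),(1,1)]) (.cons (.leaf 1 [(9,1)]) .nil)))))))) .nil)))))))) (.cons (.leaf 1 [(5,1)]) (.cons (.leaf 1 []) .nil))))))))

theorem e_19_20 : ESB (caseOf 4 19 20) := esb_of_ok (t := t_19_20) (by decide +kernel)

def t_19_21 : T := (.keep [0,1,2] (.node (.cons (.leaf 1 []) (.cons (.leaf 1 [(4,1)]) (.cons (.leaf 1 [(4,1)]) (.cons (.keep [1,5,6,9] (.node (.cons (.leaf 1 []) (.cons (.leaf 1 [(4,1)]) (.cons (.leaf 1 [(4,1)]) (.cons (.leaf 1 [(8,1)]) (.cons (.leaf 1 [(8,1),(4,1)]) (.cons (.leaf 1 [(8,1),(4,1)]) (.cons (.leaf 1 [(6,1)]) (.cons (.leaf 1 [(6,1)]) (.cons (.leaf 1 []) .nil))))))))))) (.cons (.keep [4,6,7,8,9] (.node (.cons (.leaf 1 [(7,1)])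 (.cons (.leaf 1 [(7,1),(4,1)]) (.cons (.leaf 1 [(7,1),(4,1)]) (.cons (.leaf 1 []) (.cons (.leaf 1 [(4,1)]) (.cons (.leaf 1 [(4,1)]) (.cons (.leaf 1 [(7,1),(6,1)]) (.cons (.leaf 1 [(7,1),(6,1)]) (.cons (.leaf 1 [(7,1)]) .nil))))))))))) (.cons (.keep [3,4,5,7,9] (.node (.cons (.leaf 1 [(8,1)]) (.cons (.leaf 1 [(4,1),(8,1)]) (.cons (.leaf 1 [(8,1),(4,1)]) (.cons (.leaf 1 [(9,1)]) (.cons (.leaf 1 [(4,1),(9,1)]) (.cons (.leaf 1 [(9,1),(4,1)]) (.cons (.leaf 1 [(8,1),(6,1)]) (.cons (.leaf 1 [(6,1),(8,1)]) (.cons (.leaf 1 [(8,1)]) .nil))))))))))) (.cons (.leaf 1 [(6,1)]) (.cons (.leaf 1 [(6,1)]) (.cons (.leaf 1 []) .nil)))))))))))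

theorem e_19_21 : ESB (caseOf 4 19 21) := esb_of_ok (t := t_19_21) (by decide +kernel)

def t_19_22 : T := (.keep [0,1,2] (.node (.cons (.keep [2,5,6,9] (.node (.cons (.leaf 1 [(2,1)]) (.cons (.keep [3,7,8,9] (.node (.cons (.leaf 1 [(2,1)]) (.cons (.leaf 1 [(2,1)]) (.cons (.leaf 1 [(2,1)]) (.cons (.leaf 1 [(9,1)]) (.cons (.leaf 3 [(10,1),(9,1)]) (.cons (.leaf 1 [(0,1),(9,1)]) (.cons (.leaf 1 [(9,1),(2,1)]) (.cons (.leaf 3 [(10,1),(9,1),(2,1)]) (.cons (.leaf 1 [(9,1)]) .nil))))))))))) (.cons (.leaf 1 [(3,1)]) (.cons (.leaf 1 []) (.cons (.leaf 1 [(1,1),(8,1)]) (.cons (.leaf 1 [(3,1)]) (.cons (.leaf 1 [(2,1)]) (.cons (.keep [1,6,8,9,10] (.node (.cons (.leaf 1 [(2,1),(7,1)]) (.cons (.leaf 1 [(2,1),(7,1)]) (.cons (.leaf 1 [(2,1),(7,1)]) (.cons (.leaf 1 [(9,1)]) (.cons (.leaf 3 [(10,1),(9,1),(7,1)])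 (.cons (.leaf 1 [(0,1),(7,1),(9,1)]) (.cons (.leaf 1 [(9,1),(2,1)]) (.cons (.leaf 3 [(10,1),(9,1),(7,1),(2,1)]) (.cons (.leaf 1 [(9,1)]) .nil))))))))))) (.cons (.leaf 1 []) .nil))))))))))) (.cons (.keep [4,6,8,9] (.node (.cons (.leaf 2 [(7,1)]) (.cons (.keep [3,4,7,8,10] (.node (.cons (.leaf 1 [(2,1)]) (.cons (.leaf 1 [(9,1),(2,1)]) (.cons (.leaf 1 [(3,1)]) (.cons (.leaf 1 []) (.cons (.leaf 3 [(9,1),(10,1)]) (.cons (.leaf 1 [(3,1)]) (.cons (.leaf 1 [(2,1)]) (.cons (.leaf 3 [(9,1),(10,1),(2,1)]) (.cons (.leaf 1 []) .nil))))))))))) (.cons (.leaf 1 [(3,1),(7,1)]) (.cons (.leaf 1 [(1,1)]) (.cons (.leaf 1 [(1,1)]) (.cons (.leaf 1 [(1,1)]) (.cons (.leaf 1 [(6,1),(1,1)]) (.cons (.keep [1,7,8,9,10] (.node (.cons (.leaf 1 [(2,1)]) (.cons (.leaf 1 [(8,1),(2,1),(7,1)]) (.cons (.leaf 1 [(3,1)]) (.cons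 (.leaf 1 []) (.cons (.leaf 3 [(8,1),(9,1),(7,1)]) (.cons (.leaf 1 [(3,1)]) (.cons (.leaf 1 [(2,1)]) (.cons (.leaf 3 [(8,1),(9,1),(7,1),(2,1)]) (.cons (.leaf 1 []) .nil))))))))))) (.cons (.leaf 1 [(7,1)]) .nil))))))))))) (.cons (.keep [0,4,5,9] (.node (.cons (.leaf 1 [(8,1),(2,1)]) (.cons (.keep [3,7,8,9,10] (.node (.cons (.leaf 1 [(9,1),(2,1)]) (.cons (.leaf 1 [(9,1),(2,1)]) (.cons (.leaf 1 [(9,1),(2,1)]) (.cons (.leaf 1 [(10,1)]) (.cons (.leaf 1 [(1,1),(4,1)]) (.cons (.leaf 1 [(9,1),(0,1),(10,1)]) (.cons (.leaf 1 [(10,1),(2,1)]) (.cons (.leaf 1 [(6,1),(1,1)]) (.cons (.leaf 1 [(10,1)]) .nil))))))))))) (.cons (.leaf 1 [(3,1),(8,1)]) (.cons (.leaf 1 [(8,1)]) (.cons (.leaf 1 [(1,1),(9,1)]) (.cons (.leaf 1 [(3,1),(8,1)]) (.cons (.leaf 1 [(8,1),(2,1)]) (.cons (.keep [1,7,8,9,10] (.node (.cons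 (.leaf 1 [(9,1),(2,1),(7,1)]) (.cons (.leaf 1 [(9,1),(2,1),(7,1)]) (.cons (.leaf 1 [(9,1),(2,1),(7,1)]) (.cons (.leaf 1 [(10,1)]) (.cons (.leaf 1 [(1,1),(4,1)]) (.cons (.leaf 1 [(9,1),(0,1),(7,1),(10,1)]) (.cons (.leaf 1 [(10,1),(2,1)]) (.cons (.leaf 1 [(6,1),(1,1)]) (.cons (.leaf 1 [(10,1)]) .nil))))))))))) (.cons (.leaf 1 [(8,1)]) .nil))))))))))) (.cons (.leaf 1 []) (.cons (.leaf 1 [(4,1)]) (.cons (.leaf 1 [(4,1)]) (.cons (.leaf 1 [(6,1)]) (.cons (.leaf 1 [(6,1)]) (.cons (.leaf 1 []) .nil)))))))))))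

theorem e_19_22 : ESB (caseOf 4 19 22) := esb_of_ok (t := t_19_22) (by decide +kernel)

def t_19_23 : T := (.keep [0,1,2] (.node (.cons (.leaf 1 []) (.cons (.leaf 1 [(4,1)]) (.cons (.leaf 1 [(4,1)]) (.cons (.leaf 1 [(4,1)]) (.cons (.leaf 1 [(5,1)]) (.cons (.leaf 1 []) (.cons (.leaf 1 [(5,1)]) (.cons (.leaf 1 [(5,1)]) (.cons (.leaf 1 [(7,1)]) (.cons (.leaf 1 [(7,1)]) (.cons (.leaf 1 [(7,1)]) (.cons (.leaf 1 []) .nil))))))))))))))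

theorem e_19_23 : ESB (caseOf 4 19 23) := esb_of_ok (t := t_19_23) (by decide +kernel)

def t_19_25 : T := (.keep [0,1,2] (.node (.cons (.leaf 1 []) (.cons (.leaf 1 [(4,1)]) (.cons (.leaf 1 [(4,1)]) (.cons (.keep [1,5,6,8] (.node (.cons (.leaf 1 []) (.cons (.leaf 1 [(4,1)]) (.cons (.leaf 1 [(4,1)]) (.cons (.keep [1,5,6,8] (.node (.cons (.leaf 1 []) (.cons (.leaf 1 [(4,1)]) (.cons (.leaf 1 [(4,1)]) (.cons (.leaf 1 [(10,1)]) (.cons (.leaf 1 [(10,1),(4,1)]) (.cons (.leaf 1 [(10,1),(4,1)]) (.cons (.leaf 1 [(6,1)]) (.cons (.leaf 1 [(6,1)]) (.cons (.leaf 1 []) .nil))))))))))) (.cons (.keep [4,6,7,8,9] (.node (.cons (.leaf 1 [(7,1)]) (.cons (.leaf 1 [(7,1),(4,1)]) (.cons (.leaf 1 [(7,1),(4,1)]) (.cons (.leaf 1 [(10,1),(7,1)]) (.cons (.leaf 1 [(10,1),(7,1),(4,1)]) (.cons (.leaf 1 [(10,1),(7,1),(4,1)])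 (.cons (.leaf 1 [(7,1),(6,1)]) (.cons (.leaf 1 [(7,1),(6,1)]) (.cons (.leaf 1 [(7,1)]) .nil))))))))))) (.cons (.keep [3,4,8,9,10] (.node (.cons (.leaf 1 [(8,1)]) (.cons (.leaf 1 [(4,2)]) (.cons (.leaf 1 [(8,1),(4,1)]) (.cons (.leaf 1 [(9,1),(8,1)]) (.cons (.leaf 1 [(9,1),(4,2)]) (.cons (.leaf 1 [(9,1),(8,1),(4,1)]) (.cons (.leaf 1 [(8,1),(6,1)]) (.cons (.leaf 1 [(4,1),(6,1)]) (.cons (.leaf 1 [(8,1)]) .nil))))))))))) (.cons (.leaf 1 [(6,1)]) (.cons (.leaf 1 [(6,1)]) (.cons (.leaf 1 []) .nil))))))))))) (.cons (.keep [4,6,7,8,9] (.node (.cons (.leaf 1 [(7,1)]) (.cons (.leaf 1 [(7,1),(4,1)]) (.cons (.leaf 1 [(7,1),(4,1)]) (.cons (.keep [6,7,8,9,11] (.node (.cons (.leaf 1 [(8,1)]) (.cons (.leaf 1 [(8,1),(4,1)]) (.cons (.leaf 1 [(8,1),(4,1)]) (.cons (.leaf 1 []) (.cons (.leaf 1 [(4,1)]) (.cons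 (.leaf 1 [(4,1)]) (.cons (.leaf 1 [(8,1),(6,1)]) (.cons (.leaf 1 [(8,1),(6,1)]) (.cons (.leaf 1 [(8,1)]) .nil))))))))))) (.cons (.keep [4,6,8,10,11] (.node (.cons (.leaf 1 [(9,1),(7,2)]) (.cons (.leaf 1 [(9,1),(7,2),(4,1)]) (.cons (.leaf 1 [(9,1),(7,2),(4,1)]) (.cons (.leaf 1 [(7,1)]) (.cons (.leaf 1 [(7,1),(4,1)]) (.cons (.leaf 1 [(7,1),(4,1)]) (.cons (.leaf 1 [(9,1),(7,2),(6,1)]) (.cons (.leaf 1 [(9,1),(7,2),(6,1)]) (.cons (.leaf 1 [(9,1),(7,2)]) .nil))))))))))) (.cons (.keep [4,7,8,10,11] (.node (.cons (.leaf 1 [(8,1),(7,1)]) (.cons (.leaf 1 [(8,1),(4,2)]) (.cons (.leaf 1 [(8,1),(7,1),(4,1)]) (.cons (.leaf 1 [(7,1)]) (.cons (.leaf 1 [(4,2)]) (.cons (.leaf 1 [(7,1),(4,1)]) (.cons (.leaf 1 [(8,1),(7,1),(6,1)]) (.cons (.leaf 1 [(8,1),(4,1),(6,1)]) (.cons (.leaf 1 [(8,1),(7,1)]) .nil)))))))))))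 (.cons (.leaf 1 [(7,1),(6,1)]) (.cons (.leaf 1 [(7,1),(6,1)]) (.cons (.leaf 1 [(7,1)]) .nil))))))))))) (.cons (.keep [3,4,5,7,8] (.node (.cons (.leaf 1 [(8,1)]) (.cons (.leaf 1 [(4,2)]) (.cons (.leaf 1 [(8,1),(4,1)]) (.cons (.keep [5,6,7,8,9] (.node (.cons (.leaf 1 [(10,1)]) (.cons (.leaf 1 [(10,1),(4,1)]) (.cons (.leaf 1 [(10,1),(4,1)]) (.cons (.leaf 1 [(11,1)]) (.cons (.leaf 1 [(11,1),(4,1)]) (.cons (.leaf 1 [(11,1),(4,1)]) (.cons (.leaf 1 [(10,1),(6,1)]) (.cons (.leaf 1 [(10,1),(6,1)]) (.cons (.leaf 1 [(10,1)]) .nil))))))))))) (.cons (.keep [4,6,7,9,10] (.node (.cons (.leaf 1 [(7,2)]) (.cons (.leaf 1 [(7,2),(4,1)]) (.cons (.leaf 1 [(7,2),(4,1)]) (.cons (.leaf 1 [(10,1),(7,1)]) (.cons (.leaf 1 [(10,1),(7,1),(4,1)]) (.cons (.leaf 1 [(10,1),(7,1),(4,1)]) (.cons (.leaf 1 [(7,2),(6,1)]) (.cons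 (.leaf 1 [(7,2),(6,1)]) (.cons (.leaf 1 [(7,2)]) .nil))))))))))) (.cons (.keep [5,7,8,9,11] (.node (.cons (.leaf 1 [(9,2),(7,1)]) (.cons (.leaf 1 [(9,1),(4,2)]) (.cons (.leaf 1 [(9,2),(7,1),(4,1)]) (.cons (.leaf 1 [(10,1),(9,1),(7,1)]) (.cons (.leaf 1 [(10,1),(4,2)]) (.cons (.leaf 1 [(10,1),(9,1),(7,1),(4,1)]) (.cons (.leaf 1 [(9,2),(7,1),(6,1)]) (.cons (.leaf 1 [(9,1),(4,1),(6,1)]) (.cons (.leaf 1 [(9,2),(7,1)]) .nil))))))))))) (.cons (.leaf 1 [(8,1),(6,1)]) (.cons (.leaf 1 [(4,1),(6,1)]) (.cons (.leaf 1 [(8,1)]) .nil))))))))))) (.cons (.leaf 1 [(6,1)]) (.cons (.leaf 1 [(6,1)]) (.cons (.leaf 1 []) .nil)))))))))))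

theorem e_19_25 : ESB (caseOf 4 19 25) := esb_of_ok (t := t_19_25) (by decide +kernel)

def t_19_26 : T := (.keep [0,1,2] (.node (.cons (.keep [2,5,6,8] (.node (.cons (.leaf 1 [(2,1)]) (.cons (.leaf 2 [(9,1)]) (.cons (.leaf 1 [(3,1)]) (.cons (.leaf 1 []) (.cons (.leaf 2 [(1,1),(9,1)]) (.cons (.leaf 1 [(3,1)]) (.cons (.leaf 1 [(2,1)]) (.cons (.leaf 2 [(9,1),(1,1)]) (.cons (.leaf 1 []) .nil))))))))))) (.cons (.keep [4,6,8,9] (.node (.cons (.leaf 1 [(7,1),(2,1)]) (.cons (.leaf 2 [(8,1),(7,1)]) (.cons (.leaf 1 [(3,1),(7,1)]) (.cons (.leaf 1 [(7,1)]) (.cons (.leaf 2 [(1,1),(8,1),(7,1)]) (.cons (.leaf 1 [(3,1),(7,1)]) (.cons (.leaf 1 [(7,1),(2,1)]) (.cons (.leaf 2 [(8,1),(7,1),(1,1)]) (.cons (.leaf 1 [(7,1)]) .nil))))))))))) (.cons (.keep [0,4,5,8] (.node (.cons (.leaf 1 [(8,1),(2,1)]) (.cons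 (.leaf 2 [(8,1)]) (.cons (.leaf 1 [(3,1),(8,1)]) (.cons (.leaf 1 [(8,1)]) (.cons (.leaf 1 [(1,1),(4,1)]) (.cons (.leaf 1 [(3,1),(8,1)]) (.cons (.leaf 1 [(8,1),(2,1)]) (.cons (.leaf 1 [(6,1),(1,1)]) (.cons (.leaf 1 [(8,1)]) .nil))))))))))) (.cons (.leaf 1 []) (.cons (.leaf 1 [(4,1)]) (.cons (.leaf 1 [(4,1)]) (.cons (.leaf 1 [(6,1)]) (.cons (.leaf 1 [(6,1)]) (.cons (.leaf 1 []) .nil)))))))))))

theorem e_19_26 : ESB (caseOf 4 19 26) := esb_of_ok (t := t_19_26) (by decide +kernel)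

def t_19_27 : T := (.keep [0,1,2] (.node (.cons (.leaf 1 []) (.cons (.leaf 1 [(4,1)]) (.cons (.leaf 1 [(4,1)]) (.cons (.leaf 1 [(4,1)]) (.cons (.leaf 1 [(5,1)]) (.cons (.leaf 1 []) (.cons (.leaf 1 [(5,1)]) (.cons (.leaf 1 [(5,1)]) (.cons (.leaf 1 [(7,1)]) (.cons (.leaf 1 [(7,1)]) (.cons (.leaf 1 [(7,1)]) (.cons (.leaf 1 []) .nil))))))))))))))

theorem e_19_27 : ESB (caseOf 4 19 27) := esb_of_ok (t := t_19_27) (by decide +kernel)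

def z_19_28_0 : F := ⟨-1, 0, -1, 0, 2⟩

def h_19_28_0 : List F := [⟨-1, 0, 0, 0, 0⟩, ⟨0, -1, 1, 0, 0⟩, ⟨0, 0, 1, -1, 0⟩, ⟨1, 0, -1, 0, 0⟩]

def t_19_28_0 : T := (.node (.cons (.leaf 1 []) (.cons (.leaf 1 [(9,1)]) (.cons (.keep [3,7,8,9,10] (.node (.cons (.leaf 2 [(10,1),(9,1),(7,2)]) (.cons (.leaf 1 [(9,1),(7,2)]) (.cons (.leaf 1 [(9,1),(3,2),(5,1)]) (.cons (.leaf 1 [(1,1),(7,1)]) (.cons (.leaf 1 [(1,1),(7,1)]) (.cons (.leaf 1 [(3,1),(5,1)]) (.cons (.leaf 2 [(10,1),(9,1),(7,2),(1,1)]) (.cons (.leaf 1 [(9,1),(7,2),(1,1)]) (.cons (.leaf 1 [(9,1),(7,1)]) .nil))))))))))) (.cons (.leaf 1 [(1,1)]) (.cons (.leaf 1 [(1,1),(9,1)]) (.cons (.leaf 1 [(3,1),(1,1),(8,1)]) (.cons (.leaf 1 [(1,1)]) (.cons (.leaf 1 [(9,1),(1,1)]) (.cons (.keep [0,1,8,9] (.node (.cons (.leaf 2 [(10,1),(9,1)]) (.cons (.keep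 [3,7,8,9,10] (.node (.cons (.keep [3,7,9,11] (.node (.cons (.leaf 1 [(2,1)]) (.cons (.leaf 1 [(2,1)]) (.cons (.leaf 1 [(2,1)]) (.cons (.leaf 2 [(8,1),(10,1)]) (.cons (.leaf 2 [(7,1),(10,1)]) (.cons (.leaf 1 [(0,1),(10,1)]) (.cons (.leaf 1 [(8,1),(6,1),(2,1)]) (.cons (.leaf 1 [(7,1),(6,1),(2,1)]) (.cons (.leaf 1 [(10,1)]) .nil))))))))))) (.cons (.leaf 1 [(7,1)]) (.cons (.leaf 1 [(3,1)]) (.cons (.leaf 1 [(1,1),(11,1)]) (.cons (.leaf 1 [(1,1),(7,1)]) (.cons (.leaf 1 [(3,1)]) (.cons (.keep [1,7,8,9,11] (.node (.cons (.leaf 1 [(2,1),(7,1)]) (.cons (.leaf 1 [(2,1),(7,1)]) (.cons (.leaf 1 [(2,1),(7,1)]) (.cons (.leaf 2 [(8,1),(11,1),(7,1)]) (.cons (.leaf 2 [(11,1)]) (.cons (.leaf 1 [(0,1),(7,1),(11,1)]) (.cons (.leaf 1 [(8,1),(6,1),(7,1),(2,1)]) (.cons (.leaf 1 [(6,1),(2,1)]) (.cons (.leaf 1 [(11,1)])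 .nil))))))))))) (.cons (.leaf 1 [(7,1),(1,1)]) (.cons (.leaf 1 []) .nil))))))))))) (.cons (.leaf 1 [(3,1),(9,1)]) (.cons (.leaf 1 [(1,1)]) (.cons (.leaf 1 [(1,1)]) (.cons (.leaf 1 [(1,1)]) (.cons (.leaf 2 [(10,1),(9,1),(1,1)]) (.cons (.keep [1,7,8,9,10] (.node (.cons (.keep [3,7,9,10,11] (.node (.cons (.leaf 1 [(2,1)]) (.cons (.leaf 1 [(2,1)]) (.cons (.leaf 1 [(2,1)]) (.cons (.leaf 2 [(10,1),(11,1)]) (.cons (.leaf 2 [(7,1),(11,1)]) (.cons (.leaf 1 [(0,1),(11,1)]) (.cons (.leaf 1 [(10,1),(6,1),(2,1)]) (.cons (.leaf 1 [(7,1),(6,1),(2,1)]) (.cons (.leaf 1 [(11,1)]) .nil))))))))))) (.cons (.leaf 1 [(10,1),(4,1)]) (.cons (.leaf 1 [(3,1)]) (.cons (.leaf 1 [(1,1),(11,1)]) (.cons (.leaf 1 [(4,1),(10,1)]) (.cons (.leaf 1 [(3,1)]) (.cons (.keep [7,8,9,10,11] (.node (.cons (.leaf 1 [(2,1),(7,1),(10,1)])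 (.cons (.leaf 1 [(2,1),(7,1),(4,1)]) (.cons (.leaf 1 [(2,1),(7,1),(10,1)]) (.cons (.leaf 2 [(11,1),(10,1)]) (.cons (.leaf 2 [(11,1)]) (.cons (.leaf 1 [(0,1),(7,1),(10,1),(11,1)]) (.cons (.leaf 1 [(10,1),(6,1),(2,1)]) (.cons (.leaf 1 [(6,1),(2,1)]) (.cons (.leaf 1 [(11,1)]) .nil))))))))))) (.cons (.leaf 1 [(10,1),(4,1)]) (.cons (.leaf 1 []) .nil))))))))))) (.cons (.leaf 1 [(9,1)]) .nil))))))))))) .nil))))))))))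

theorem c_19_28_0 : Concl 19 28 z_19_28_0 h_19_28_0 .nd := piece _ hP_nil t_19_28_0 _ _ (by
  decide +kernel)

def z_19_28_1 : F := ⟨-1, -1, 0, 0, 2⟩

def h_19_28_1 : List F := [⟨-1, 0, 0, 0, 0⟩, ⟨0, 1, -1, 0, 0⟩, ⟨0, 1, 0, -1, 0⟩, ⟨1, -1, 0, 0, 0⟩]

def t_19_28_1 : T := (.node (.cons (.leaf 1 [(8,1)]) (.cons (.leaf 1 [(9,1)]) (.cons (.keep [3,7,8,9,10] (.node (.cons (.leaf 2 [(10,1),(7,2)]) (.cons (.leaf 1 [(7,2)]) (.cons (.leaf 1 [(5,1),(3,2)]) (.cons (.leaf 1 [(1,1),(9,1),(7,1)]) (.cons (.leaf 1 [(1,1),(7,2)]) (.cons (.leaf 1 [(3,1),(7,1)]) (.cons (.leaf 2 [(10,1),(7,2),(1,1)]) (.cons (.leaf 1 [(7,2),(1,1)]) (.cons (.leaf 1 [(7,1)]) .nil))))))))))) (.cons (.leaf 1 [(1,1),(8,1)]) (.cons (.leaf 1 [(1,1),(9,1)]) (.cons (.leaf 1 [(1,1),(3,1)]) (.cons (.leaf 1 [(8,1),(1,1)]) (.cons (.leaf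 1 [(9,1),(1,1)]) (.cons (.keep [0,1,8,9] (.node (.cons (.leaf 2 [(10,1)]) (.cons (.keep [3,8,9,10] (.node (.cons (.keep [3,7,8,10] (.node (.cons (.leaf 1 [(2,1)]) (.cons (.leaf 1 [(2,1)]) (.cons (.leaf 1 [(2,1)]) (.cons (.leaf 2 [(8,1),(10,1)]) (.cons (.leaf 2 [(7,1),(10,1)]) (.cons (.leaf 1 [(0,1),(10,1)]) (.cons (.leaf 1 [(8,1),(6,1),(2,1)]) (.cons (.leaf 1 [(7,1),(6,1),(2,1)]) (.cons (.leaf 1 [(10,1)]) .nil))))))))))) (.cons (.leaf 1 [(7,1),(4,1)]) (.cons (.leaf 1 [(3,1),(4,1)]) (.cons (.leaf 1 [(1,1),(10,1)]) (.cons (.leaf 1 [(7,1),(4,1)]) (.cons (.leaf 1 [(3,1),(9,1)]) (.cons (.keep [1,7,8,9,10] (.node (.cons (.leaf 1 [(2,1)]) (.cons (.leaf 1 [(2,1)]) (.cons (.leaf 1 [(2,1)]) (.cons (.leaf 2 [(8,1),(11,1)]) (.cons (.leaf 2 [(10,1),(11,1)]) (.cons (.leaf 1 [(0,1),(11,1)]) (.cons (.leaf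 1 [(8,1),(6,1),(2,1)]) (.cons (.leaf 1 [(10,1),(6,1),(2,1)]) (.cons (.leaf 1 [(11,1)]) .nil))))))))))) (.cons (.leaf 1 [(7,1),(4,1)]) (.cons (.leaf 1 [(9,1)]) .nil))))))))))) (.cons (.leaf 1 [(3,1)]) (.cons (.leaf 1 [(1,1),(9,1)]) (.cons (.leaf 1 [(1,1),(9,1)]) (.cons (.leaf 1 [(3,1)]) (.cons (.leaf 2 [(10,1),(1,1)]) (.cons (.keep [1,7,8,9,10] (.node (.cons (.keep [3,7,8,9,11] (.node (.cons (.leaf 1 [(2,1),(8,1)]) (.cons (.leaf 1 [(2,1),(8,1)]) (.cons (.leaf 1 [(2,1),(8,1)]) (.cons (.leaf 2 [(11,1)]) (.cons (.leaf 2 [(7,1),(8,1),(11,1)]) (.cons (.leaf 1 [(0,1),(8,1),(11,1)]) (.cons (.leaf 1 [(6,1),(2,1)]) (.cons (.leaf 1 [(7,1),(8,1),(6,1),(2,1)]) (.cons (.leaf 1 [(11,1)]) .nil))))))))))) (.cons (.leaf 1 [(4,1)]) (.cons (.leaf 1 [(3,1),(7,1),(4,1)]) (.cons (.leaf 1 [(1,1),(11,1)]) (.cons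 (.leaf 1 [(4,1)]) (.cons (.leaf 1 [(3,1),(10,1)]) (.cons (.keep [1,8,9,10,11] (.node (.cons (.leaf 1 [(2,1),(5,1),(7,1)]) (.cons (.leaf 1 [(2,1),(10,1),(7,1)]) (.cons (.leaf 1 [(2,1),(10,1),(7,1)]) (.cons (.leaf 2 [(11,1)]) (.cons (.leaf 2 [(10,1),(11,1)]) (.cons (.leaf 1 [(0,1),(10,1),(7,1),(11,1)]) (.cons (.leaf 1 [(6,1),(2,1)]) (.cons (.leaf 1 [(10,1),(6,1),(2,1)]) (.cons (.leaf 1 [(11,1)]) .nil))))))))))) (.cons (.leaf 1 [(4,1)]) (.cons (.leaf 1 [(10,1)]) .nil))))))))))) (.cons (.leaf 1 []) .nil))))))))))) .nil))))))))))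

theorem c_19_28_1 : Concl 19 28 z_19_28_1 h_19_28_1 .nd := piece _ hP_nil t_19_28_1 _ _ (by
  decide +kernel)

def z_19_28_2 : F := ⟨1, -1, 0, 0, 1⟩

def h_19_28_2 : List F := [⟨1, 0, 0, 0, 0⟩, ⟨0, 1, -1, 0, 0⟩, ⟨0, 1, 0, -1, 0⟩, ⟨0, -1, 0, 0, 1⟩]

def t_19_28_2 : T := (.node (.cons (.keep [2,5,6,8] (.leaf 0 [(0,0)])) (.cons (.keep [2,4,6,9] (.leaf 0 [(1,0)])) (.cons (.keep [2,3,4,5,8,9] (.node (.cons (.leaf 1 [(10,1)]) (.cons (.leaf 1 []) (.cons (.keep [3,5,7,9,10] (.node (.cons (.leaf 1 [(5,1)]) (.cons (.leaf 1 [(10,1),(7,2)]) (.cons (.leaf 1 [(10,1),(3,2),(5,1)]) (.cons (.leaf 1 [(5,1)]) (.cons (.leaf 1 [(1,1),(10,1),(7,2)]) (.cons (.leaf 1 [(3,1),(10,1),(7,1)]) (.cons (.leaf 1 [(5,1)]) (.cons (.leaf 1 [(10,1),(7,2),(1,1)]) (.cons (.leaf 1 [(10,1),(7,1)]) .nil))))))))))) (.cons (.leaf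 1 [(1,1),(10,1)]) (.cons (.leaf 1 [(1,1)]) (.cons (.leaf 1 [(3,1),(1,1),(9,1)]) (.cons (.leaf 1 [(10,1),(1,1)]) (.cons (.leaf 1 [(1,1)]) (.cons (.keep [0,1,9,10] (.node (.cons (.leaf 1 [(5,1),(8,1)]) (.cons (.keep [3,7,8,9,10] (.node (.cons (.keep [3,7,8,9,10] (.node (.cons (.leaf 1 [(8,1)]) (.cons (.leaf 1 [(7,1)]) (.cons (.leaf 1 [(3,1)]) (.cons (.leaf 1 [(1,1),(8,1)]) (.cons (.leaf 1 [(1,1),(7,1)]) (.cons (.leaf 1 [(3,1)]) (.cons (.leaf 1 [(8,1),(1,1)]) (.cons (.leaf 1 [(7,1),(1,1)]) (.cons (.leaf 1 []) .nil))))))))))) (.cons (.leaf 1 [(7,1),(10,1),(4,1)]) (.cons (.leaf 1 [(3,1),(10,1),(4,1)]) (.cons (.leaf 1 [(1,1)]) (.cons (.leaf 1 [(1,1)]) (.cons (.leaf 1 [(1,1)]) (.cons (.keep [1,7,8,9,11] (.node (.cons (.leaf 1 [(8,1)]) (.cons (.leaf 2 [(11,1),(2,1)]) (.cons (.leaf 1 [(3,1)]) (.cons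 (.leaf 1 [(1,1),(8,1)]) (.cons (.leaf 2 [(11,1)]) (.cons (.leaf 1 [(3,1)]) (.cons (.leaf 1 [(8,1),(1,1)]) (.cons (.leaf 2 [(11,1),(2,1)]) (.cons (.leaf 1 []) .nil))))))))))) (.cons (.leaf 1 [(7,1),(10,1),(4,1)]) (.cons (.leaf 1 [(11,1)]) .nil))))))))))) (.cons (.leaf 1 [(3,1),(9,1)]) (.cons (.leaf 1 [(5,1),(8,1)]) (.cons (.leaf 1 [(1,1),(10,1)]) (.cons (.leaf 1 [(3,1),(9,1)]) (.cons (.leaf 1 [(6,1),(1,1)]) (.cons (.keep [1,7,8,9,10] (.node (.cons (.keep [3,7,8,9,10] (.node (.cons (.leaf 2 [(11,1),(2,1)]) (.cons (.leaf 1 [(7,1)]) (.cons (.leaf 1 [(3,1)]) (.cons (.leaf 2 [(11,1)]) (.cons (.leaf 1 [(1,1),(7,1)]) (.cons (.leaf 1 [(3,1)]) (.cons (.leaf 2 [(11,1),(2,1)]) (.cons (.leaf 1 [(7,1),(1,1)]) (.cons (.leaf 1 []) .nil))))))))))) (.cons (.leaf 1 [(4,1),(10,1)]) (.cons (.leaf 1 [(3,1),(10,1),(7,1),(4,1)])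 (.cons (.leaf 1 [(1,1)]) (.cons (.leaf 1 [(1,1)]) (.cons (.leaf 1 [(1,1)]) (.cons (.keep [1,7,8,9,10,11] (.node (.cons (.leaf 2 [(11,1),(2,1)]) (.cons (.leaf 1 [(11,1),(8,1),(2,1)]) (.cons (.leaf 1 [(3,1)]) (.cons (.leaf 2 [(11,1)]) (.cons (.leaf 2 [(12,1)]) (.cons (.leaf 1 [(3,1)]) (.cons (.leaf 2 [(11,1),(2,1)]) (.cons (.leaf 2 [(12,1),(2,1)]) (.cons (.leaf 1 []) .nil))))))))))) (.cons (.leaf 1 [(4,1),(10,1)]) (.cons (.leaf 1 [(11,1)]) .nil))))))))))) (.cons (.leaf 1 [(9,1)]) .nil))))))))))) .nil))))))))))) (.cons (.keep [1,5,6,7,10] (.node (.cons (.leaf 1 [(8,1),(11,1)]) (.cons (.leaf 1 [(9,1),(11,1)]) (.cons (.keep [2,3,8,9,11] (.node (.cons (.leaf 2 [(10,1)]) (.cons (.leaf 1 [(8,1)]) (.cons (.leaf 1 [(3,1)]) (.cons (.leaf 1 [(1,1),(9,1)]) (.cons (.leaf 1 [(1,1),(8,1)]) (.cons (.leaf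 1 [(3,1)]) (.cons (.leaf 2 [(10,1),(1,1)]) (.cons (.leaf 1 [(8,1),(1,1)]) (.cons (.leaf 1 []) .nil))))))))))) (.cons (.leaf 1 [(1,1)]) (.cons (.leaf 1 [(1,1)]) (.cons (.leaf 1 [(1,1)]) (.cons (.leaf 1 [(8,1),(6,1),(1,1)]) (.cons (.leaf 1 [(9,1),(6,1),(1,1)]) (.cons (.keep [0,1,8,9] (.node (.cons (.leaf 2 [(10,1)]) (.cons (.keep [3,8,9,10] (.node (.cons (.keep [3,7,8,10] (.node (.cons (.leaf 1 [(2,1)]) (.cons (.leaf 1 [(2,1)]) (.cons (.leaf 1 [(2,1)]) (.cons (.leaf 2 [(8,1),(10,1)]) (.cons (.leaf 2 [(7,1),(10,1)]) (.cons (.leaf 1 [(0,1),(10,1)]) (.cons (.leaf 1 [(8,1),(6,1),(2,1)]) (.cons (.leaf 1 [(7,1),(6,1),(2,1)]) (.cons (.leaf 1 [(10,1)]) .nil))))))))))) (.cons (.leaf 1 [(7,1),(4,1)]) (.cons (.leaf 1 [(3,1),(4,1)]) (.cons (.leaf 1 [(1,1),(10,1)]) (.cons (.leaf 1 [(7,1),(4,1)]) (.cons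 (.leaf 1 [(3,1),(9,1)]) (.cons (.keep [1,7,8,9,10] (.node (.cons (.leaf 1 [(2,1)]) (.cons (.leaf 1 [(2,1)]) (.cons (.leaf 1 [(2,1)]) (.cons (.leaf 2 [(8,1),(11,1)]) (.cons (.leaf 2 [(10,1),(11,1)]) (.cons (.leaf 1 [(0,1),(11,1)]) (.cons (.leaf 1 [(8,1),(6,1),(2,1)]) (.cons (.leaf 1 [(10,1),(6,1),(2,1)]) (.cons (.leaf 1 [(11,1)]) .nil))))))))))) (.cons (.leaf 1 [(7,1),(4,1)]) (.cons (.leaf 1 [(9,1)]) .nil))))))))))) (.cons (.leaf 1 [(3,1)]) (.cons (.leaf 1 [(1,1),(9,1)]) (.cons (.leaf 1 [(1,1),(9,1)]) (.cons (.leaf 1 [(3,1)]) (.cons (.leaf 2 [(10,1),(1,1)]) (.cons (.keep [1,7,8,9,10] (.node (.cons (.keep [3,7,8,9,11] (.node (.cons (.leaf 1 [(2,1),(8,1)]) (.cons (.leaf 1 [(2,1),(8,1)]) (.cons (.leaf 1 [(2,1),(8,1)]) (.cons (.leaf 2 [(11,1)]) (.cons (.leaf 2 [(7,1),(8,1),(11,1)]) (.cons (.leaf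 1 [(0,1),(8,1),(11,1)]) (.cons (.leaf 1 [(6,1),(2,1)]) (.cons (.leaf 1 [(7,1),(8,1),(6,1),(2,1)]) (.cons (.leaf 1 [(11,1)]) .nil))))))))))) (.cons (.leaf 1 [(4,1)]) (.cons (.leaf 1 [(3,1),(7,1),(4,1)]) (.cons (.leaf 1 [(1,1),(11,1)]) (.cons (.leaf 1 [(4,1)]) (.cons (.leaf 1 [(3,1),(10,1)]) (.cons (.keep [1,8,9,10,11] (.node (.cons (.leaf 1 [(2,1),(5,1),(7,1)]) (.cons (.leaf 1 [(2,1),(10,1),(7,1)]) (.cons (.leaf 1 [(2,1),(10,1),(7,1)]) (.cons (.leaf 2 [(11,1)]) (.cons (.leaf 2 [(10,1),(11,1)]) (.cons (.leaf 1 [(0,1),(10,1),(7,1),(11,1)]) (.cons (.leaf 1 [(6,1),(2,1)]) (.cons (.leaf 1 [(10,1),(6,1),(2,1)]) (.cons (.leaf 1 [(11,1)]) .nil))))))))))) (.cons (.leaf 1 [(4,1)]) (.cons (.leaf 1 [(10,1)]) .nil))))))))))) (.cons (.leaf 1 []) .nil))))))))))) .nil))))))))))) (.cons (.keep [1,4,6,7,10]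 (.node (.cons (.leaf 1 [(11,1)]) (.cons (.leaf 1 [(9,1),(11,1)]) (.cons (.keep [3,4,8,9,11] (.node (.cons (.leaf 2 [(10,1),(9,1)]) (.cons (.leaf 1 [(7,1),(9,1)]) (.cons (.leaf 1 [(3,1),(9,1)]) (.cons (.leaf 1 [(1,1)]) (.cons (.leaf 1 [(1,1)]) (.cons (.leaf 1 [(1,1)]) (.cons (.leaf 2 [(10,1),(9,1),(1,1)]) (.cons (.leaf 1 [(7,1),(9,1),(1,1)]) (.cons (.leaf 1 [(9,1)]) .nil))))))))))) (.cons (.leaf 1 [(1,1),(8,1)]) (.cons (.leaf 1 [(1,1),(8,1)]) (.cons (.leaf 1 [(1,1),(8,1)]) (.cons (.leaf 1 [(6,1),(1,1)]) (.cons (.leaf 1 [(9,1),(6,1),(1,1)]) (.cons (.keep [0,1,8,9] (.node (.cons (.leaf 2 [(10,1),(9,1)]) (.cons (.keep [3,7,8,9,10] (.node (.cons (.keep [3,7,9,11] (.node (.cons (.leaf 1 [(2,1)]) (.cons (.leaf 1 [(2,1)]) (.cons (.leaf 1 [(2,1)]) (.cons (.leaf 2 [(8,1),(10,1)]) (.cons (.leaf 2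 [(7,1),(10,1)]) (.cons (.leaf 1 [(0,1),(10,1)]) (.cons (.leaf 1 [(8,1),(6,1),(2,1)]) (.cons (.leaf 1 [(7,1),(6,1),(2,1)]) (.cons (.leaf 1 [(10,1)]) .nil))))))))))) (.cons (.leaf 1 [(7,1)]) (.cons (.leaf 1 [(3,1)]) (.cons (.leaf 1 [(1,1),(11,1)]) (.cons (.leaf 1 [(1,1),(7,1)]) (.cons (.leaf 1 [(3,1)]) (.cons (.keep [1,7,8,9,11] (.node (.cons (.leaf 1 [(2,1),(7,1)]) (.cons (.leaf 1 [(2,1),(7,1)]) (.cons (.leaf 1 [(2,1),(7,1)]) (.cons (.leaf 2 [(8,1),(11,1),(7,1)]) (.cons (.leaf 2 [(11,1)]) (.cons (.leaf 1 [(0,1),(7,1),(11,1)]) (.cons (.leaf 1 [(8,1),(6,1),(7,1),(2,1)]) (.cons (.leaf 1 [(6,1),(2,1)]) (.cons (.leaf 1 [(11,1)]) .nil))))))))))) (.cons (.leaf 1 [(7,1),(1,1)]) (.cons (.leaf 1 []) .nil))))))))))) (.cons (.leaf 1 [(3,1),(9,1)]) (.cons (.leaf 1 [(1,1)]) (.cons (.leaf 1 [(1,1)]) (.cons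 (.leaf 1 [(1,1)]) (.cons (.leaf 2 [(10,1),(9,1),(1,1)]) (.cons (.keep [1,7,8,9,10] (.node (.cons (.keep [3,7,9,10,11] (.node (.cons (.leaf 1 [(2,1)]) (.cons (.leaf 1 [(2,1)]) (.cons (.leaf 1 [(2,1)]) (.cons (.leaf 2 [(10,1),(11,1)]) (.cons (.leaf 2 [(7,1),(11,1)]) (.cons (.leaf 1 [(0,1),(11,1)]) (.cons (.leaf 1 [(10,1),(6,1),(2,1)]) (.cons (.leaf 1 [(7,1),(6,1),(2,1)]) (.cons (.leaf 1 [(11,1)]) .nil))))))))))) (.cons (.leaf 1 [(10,1),(4,1)]) (.cons (.leaf 1 [(3,1)]) (.cons (.leaf 1 [(1,1),(11,1)]) (.cons (.leaf 1 [(4,1),(10,1)]) (.cons (.leaf 1 [(3,1)]) (.cons (.keep [7,8,9,10,11] (.node (.cons (.leaf 1 [(2,1),(7,1),(10,1)]) (.cons (.leaf 1 [(2,1),(7,1),(4,1)]) (.cons (.leaf 1 [(2,1),(7,1),(10,1)]) (.cons (.leaf 2 [(11,1),(10,1)]) (.cons (.leaf 2 [(11,1)]) (.cons (.leaf 1 [(0,1),(7,1),(10,1),(11,1)])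 (.cons (.leaf 1 [(10,1),(6,1),(2,1)]) (.cons (.leaf 1 [(6,1),(2,1)]) (.cons (.leaf 1 [(11,1)]) .nil))))))))))) (.cons (.leaf 1 [(10,1),(4,1)]) (.cons (.leaf 1 []) .nil))))))))))) (.cons (.leaf 1 [(9,1)]) .nil))))))))))) .nil))))))))))) (.cons (.keep [1,3,4,5,10] (.node (.cons (.leaf 1 [(11,1),(10,1)]) (.cons (.leaf 1 [(11,1)]) (.cons (.keep [3,5,9,10,11] (.node (.cons (.leaf 2 [(9,1)]) (.cons (.leaf 1 [(7,1),(9,1)]) (.cons (.leaf 1 [(3,1),(9,1)]) (.cons (.leaf 2 [(1,1),(9,1)]) (.cons (.leaf 1 [(1,1),(7,1),(9,1)]) (.cons (.leaf 1 [(3,1),(9,1)]) (.cons (.leaf 1 [(6,1),(1,1)]) (.cons (.leaf 1 [(7,1),(9,1),(1,1)]) (.cons (.leaf 1 [(9,1)]) .nil))))))))))) (.cons (.leaf 1 [(1,1),(9,1)]) (.cons (.leaf 1 [(1,1),(9,1)]) (.cons (.leaf 1 [(1,1),(9,1)]) (.cons (.leaf 1 [(6,1),(10,1),(1,1)]) (.cons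 (.leaf 1 [(6,1),(1,1)]) (.cons (.keep [0,1,9,10] (.node (.cons (.leaf 1 [(5,1),(8,1)]) (.cons (.keep [3,7,8,9,10] (.node (.cons (.keep [3,7,8,9,10] (.node (.cons (.leaf 1 [(8,1)]) (.cons (.leaf 1 [(7,1)]) (.cons (.leaf 1 [(3,1)]) (.cons (.leaf 1 [(1,1),(8,1)]) (.cons (.leaf 1 [(1,1),(7,1)]) (.cons (.leaf 1 [(3,1)]) (.cons (.leaf 1 [(8,1),(1,1)]) (.cons (.leaf 1 [(7,1),(1,1)]) (.cons (.leaf 1 []) .nil))))))))))) (.cons (.leaf 1 [(7,1),(10,1),(4,1)]) (.cons (.leaf 1 [(3,1),(10,1),(4,1)]) (.cons (.leaf 1 [(1,1)]) (.cons (.leaf 1 [(1,1)]) (.cons (.leaf 1 [(1,1)]) (.cons (.keep [1,7,8,9,11] (.node (.cons (.leaf 1 [(8,1)]) (.cons (.leaf 2 [(11,1),(2,1)]) (.cons (.leaf 1 [(3,1)]) (.cons (.leaf 1 [(1,1),(8,1)]) (.cons (.leaf 2 [(11,1)]) (.cons (.leaf 1 [(3,1)]) (.cons (.leaf 1 [(8,1),(1,1)]) (.cons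 (.leaf 2 [(11,1),(2,1)]) (.cons (.leaf 1 []) .nil))))))))))) (.cons (.leaf 1 [(7,1),(10,1),(4,1)]) (.cons (.leaf 1 [(11,1)]) .nil))))))))))) (.cons (.leaf 1 [(3,1),(9,1)]) (.cons (.leaf 1 [(5,1),(8,1)]) (.cons (.leaf 1 [(1,1),(10,1)]) (.cons (.leaf 1 [(3,1),(9,1)]) (.cons (.leaf 1 [(6,1),(1,1)]) (.cons (.keep [1,7,8,9,10] (.node (.cons (.keep [3,7,8,9,10] (.node (.cons (.leaf 2 [(11,1),(2,1)]) (.cons (.leaf 1 [(7,1)]) (.cons (.leaf 1 [(3,1)]) (.cons (.leaf 2 [(11,1)]) (.cons (.leaf 1 [(1,1),(7,1)]) (.cons (.leaf 1 [(3,1)]) (.cons (.leaf 2 [(11,1),(2,1)]) (.cons (.leaf 1 [(7,1),(1,1)]) (.cons (.leaf 1 []) .nil))))))))))) (.cons (.leaf 1 [(4,1),(10,1)]) (.cons (.leaf 1 [(3,1),(10,1),(7,1),(4,1)]) (.cons (.leaf 1 [(1,1)]) (.cons (.leaf 1 [(1,1)]) (.cons (.leaf 1 [(1,1)]) (.cons (.keep [1,7,8,9,10,11]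 (.node (.cons (.leaf 2 [(11,1),(2,1)]) (.cons (.leaf 1 [(11,1),(8,1),(2,1)]) (.cons (.leaf 1 [(3,1)]) (.cons (.leaf 2 [(11,1)]) (.cons (.leaf 2 [(12,1)]) (.cons (.leaf 1 [(3,1)]) (.cons (.leaf 2 [(11,1),(2,1)]) (.cons (.leaf 2 [(12,1),(2,1)]) (.cons (.leaf 1 []) .nil))))))))))) (.cons (.leaf 1 [(4,1),(10,1)]) (.cons (.leaf 1 [(11,1)]) .nil))))))))))) (.cons (.leaf 1 [(9,1)]) .nil))))))))))) .nil))))))))))) (.cons (.leaf 1 [(1,1),(6,2),(8,1)]) (.cons (.leaf 1 [(1,1),(6,2),(9,1)]) (.cons (.keep [0,1,8,9] (.node (.cons (.leaf 2 [(10,1)]) (.cons (.keep [3,8,9,10] (.node (.cons (.keep [3,7,8,10] (.node (.cons (.leaf 1 [(2,1)]) (.cons (.leaf 1 [(2,1)]) (.cons (.leaf 1 [(2,1)]) (.cons (.leaf 2 [(8,1),(10,1)]) (.cons (.leaf 2 [(7,1),(10,1)]) (.cons (.leaf 1 [(0,1),(10,1)]) (.cons (.leaf 1 [(8,1),(6,1),(2,1)])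 (.cons (.leaf 1 [(7,1),(6,1),(2,1)]) (.cons (.leaf 1 [(10,1)]) .nil))))))))))) (.cons (.leaf 1 [(7,1),(4,1)]) (.cons (.leaf 1 [(3,1),(4,1)]) (.cons (.leaf 1 [(1,1),(10,1)]) (.cons (.leaf 1 [(7,1),(4,1)]) (.cons (.leaf 1 [(3,1),(9,1)]) (.cons (.keep [1,7,8,9,10] (.node (.cons (.leaf 1 [(2,1)]) (.cons (.leaf 1 [(2,1)]) (.cons (.leaf 1 [(2,1)]) (.cons (.leaf 2 [(8,1),(11,1)]) (.cons (.leaf 2 [(10,1),(11,1)]) (.cons (.leaf 1 [(0,1),(11,1)]) (.cons (.leaf 1 [(8,1),(6,1),(2,1)]) (.cons (.leaf 1 [(10,1),(6,1),(2,1)]) (.cons (.leaf 1 [(11,1)]) .nil))))))))))) (.cons (.leaf 1 [(7,1),(4,1)]) (.cons (.leaf 1 [(9,1)]) .nil))))))))))) (.cons (.leaf 1 [(3,1)]) (.cons (.leaf 1 [(1,1),(9,1)]) (.cons (.leaf 1 [(1,1),(9,1)]) (.cons (.leaf 1 [(3,1)]) (.cons (.leaf 2 [(10,1),(1,1)]) (.cons (.keep [1,7,8,9,10]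 (.node (.cons (.keep [3,7,8,9,11] (.node (.cons (.leaf 1 [(2,1),(8,1)]) (.cons (.leaf 1 [(2,1),(8,1)]) (.cons (.leaf 1 [(2,1),(8,1)]) (.cons (.leaf 2 [(11,1)]) (.cons (.leaf 2 [(7,1),(8,1),(11,1)]) (.cons (.leaf 1 [(0,1),(8,1),(11,1)]) (.cons (.leaf 1 [(6,1),(2,1)]) (.cons (.leaf 1 [(7,1),(8,1),(6,1),(2,1)]) (.cons (.leaf 1 [(11,1)]) .nil))))))))))) (.cons (.leaf 1 [(4,1)]) (.cons (.leaf 1 [(3,1),(7,1),(4,1)]) (.cons (.leaf 1 [(1,1),(11,1)]) (.cons (.leaf 1 [(4,1)]) (.cons (.leaf 1 [(3,1),(10,1)]) (.cons (.keep [1,8,9,10,11] (.node (.cons (.leaf 1 [(2,1),(5,1),(7,1)]) (.cons (.leaf 1 [(2,1),(10,1),(7,1)]) (.cons (.leaf 1 [(2,1),(10,1),(7,1)]) (.cons (.leaf 2 [(11,1)]) (.cons (.leaf 2 [(10,1),(11,1)]) (.cons (.leaf 1 [(0,1),(10,1),(7,1),(11,1)]) (.cons (.leaf 1 [(6,1),(2,1)]) (.cons (.leaf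 1 [(10,1),(6,1),(2,1)]) (.cons (.leaf 1 [(11,1)]) .nil))))))))))) (.cons (.leaf 1 [(4,1)]) (.cons (.leaf 1 [(10,1)]) .nil))))))))))) (.cons (.leaf 1 []) .nil))))))))))) .nil))))))))))

theorem c_19_28_2 : Concl 19 28 z_19_28_2 h_19_28_2 .nd := piece _ (hP_cons c_19_28_1 (hP_cons
  c_19_28_0 hP_nil)) t_19_28_2 _ _ (by decide +kernel)

def t_19_28 : T := (.keep [0,1,2] (.node (.cons (.keep [2,5,6,8] (.node (.cons (.leaf 1 [(8,1),(7,1)]) (.cons (.leaf 1 [(9,1),(7,1)]) (.cons (.keep [2,3,7,8,9] (.node (.cons (.leaf 2 [(11,1)]) (.cons (.leaf 1 [(8,1)]) (.cons (.leaf 1 [(3,1)]) (.cons (.leaf 1 [(1,1),(10,1)]) (.cons (.leaf 1 [(1,1),(8,1)]) (.cons (.leaf 1 [(3,1)]) (.cons (.leaf 2 [(11,1),(1,1)]) (.cons (.leaf 1 [(8,1),(1,1)]) (.cons (.leaf 1 []) .nil))))))))))) (.cons (.leaf 1 [(1,1)]) (.cons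 (.leaf 1 [(1,1)]) (.cons (.leaf 1 [(1,1)]) (.cons (.leaf 1 [(8,1),(6,1),(1,1)]) (.cons (.leaf 1 [(9,1),(6,1),(1,1)]) (.cons (.keep [0,1,8,9] (.node (.cons (.leaf 2 [(10,1)]) (.cons (.keep [3,8,9,10] (.node (.cons (.keep [3,7,8,10] (.node (.cons (.leaf 1 [(2,1)]) (.cons (.leaf 1 [(2,1)]) (.cons (.leaf 1 [(2,1)]) (.cons (.leaf 2 [(8,1),(10,1)]) (.cons (.leaf 2 [(7,1),(10,1)]) (.cons (.leaf 1 [(0,1),(10,1)]) (.cons (.leaf 1 [(8,1),(6,1),(2,1)]) (.cons (.leaf 1 [(7,1),(6,1),(2,1)]) (.cons (.leaf 1 [(10,1)]) .nil))))))))))) (.cons (.leaf 1 [(7,1),(4,1)]) (.cons (.leaf 1 [(3,1),(4,1)]) (.cons (.leaf 1 [(1,1),(10,1)]) (.cons (.leaf 1 [(7,1),(4,1)]) (.cons (.leaf 1 [(3,1),(9,1)]) (.cons (.keep [1,7,8,9,10] (.node (.cons (.leaf 1 [(2,1)]) (.cons (.leaf 1 [(2,1)]) (.cons (.leaf 1 [(2,1)]) (.cons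 (.leaf 2 [(8,1),(11,1)]) (.cons (.leaf 2 [(10,1),(11,1)]) (.cons (.leaf 1 [(0,1),(11,1)]) (.cons (.leaf 1 [(8,1),(6,1),(2,1)]) (.cons (.leaf 1 [(10,1),(6,1),(2,1)]) (.cons (.leaf 1 [(11,1)]) .nil))))))))))) (.cons (.leaf 1 [(7,1),(4,1)]) (.cons (.leaf 1 [(9,1)]) .nil))))))))))) (.cons (.leaf 1 [(3,1)]) (.cons (.leaf 1 [(1,1),(9,1)]) (.cons (.leaf 1 [(1,1),(9,1)]) (.cons (.leaf 1 [(3,1)]) (.cons (.leaf 2 [(10,1),(1,1)]) (.cons (.keep [1,7,8,9,10] (.node (.cons (.keep [3,7,8,9,11] (.node (.cons (.leaf 1 [(2,1),(8,1)]) (.cons (.leaf 1 [(2,1),(8,1)]) (.cons (.leaf 1 [(2,1),(8,1)]) (.cons (.leaf 2 [(11,1)]) (.cons (.leaf 2 [(7,1),(8,1),(11,1)]) (.cons (.leaf 1 [(0,1),(8,1),(11,1)]) (.cons (.leaf 1 [(6,1),(2,1)]) (.cons (.leaf 1 [(7,1),(8,1),(6,1),(2,1)]) (.cons (.leaf 1 [(11,1)]) .nil)))))))))))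 (.cons (.leaf 1 [(4,1)]) (.cons (.leaf 1 [(3,1),(7,1),(4,1)]) (.cons (.leaf 1 [(1,1),(11,1)]) (.cons (.leaf 1 [(4,1)]) (.cons (.leaf 1 [(3,1),(10,1)]) (.cons (.keep [1,8,9,10,11] (.node (.cons (.leaf 1 [(2,1),(5,1),(7,1)]) (.cons (.leaf 1 [(2,1),(10,1),(7,1)]) (.cons (.leaf 1 [(2,1),(10,1),(7,1)]) (.cons (.leaf 2 [(11,1)]) (.cons (.leaf 2 [(10,1),(11,1)]) (.cons (.leaf 1 [(0,1),(10,1),(7,1),(11,1)]) (.cons (.leaf 1 [(6,1),(2,1)]) (.cons (.leaf 1 [(10,1),(6,1),(2,1)]) (.cons (.leaf 1 [(11,1)]) .nil))))))))))) (.cons (.leaf 1 [(4,1)]) (.cons (.leaf 1 [(10,1)]) .nil))))))))))) (.cons (.leaf 1 []) .nil))))))))))) .nil))))))))))) (.cons (.keep [2,4,6,9] (.node (.cons (.leaf 1 [(7,1)]) (.cons (.leaf 1 [(9,1),(7,1)]) (.cons (.keep [3,7,8,9,10] (.node (.cons (.leaf 2 [(10,1),(9,1)]) (.cons (.leaf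 1 [(7,1),(9,1)]) (.cons (.leaf 1 [(3,1),(9,1)]) (.cons (.leaf 1 [(1,1)]) (.cons (.leaf 1 [(1,1)]) (.cons (.leaf 1 [(1,1)]) (.cons (.leaf 2 [(10,1),(9,1),(1,1)]) (.cons (.leaf 1 [(7,1),(9,1),(1,1)]) (.cons (.leaf 1 [(9,1)]) .nil))))))))))) (.cons (.leaf 1 [(1,1),(7,1)]) (.cons (.leaf 1 [(1,1),(8,1)]) (.cons (.leaf 1 [(1,1),(8,1)]) (.cons (.leaf 1 [(6,1),(1,1)]) (.cons (.leaf 1 [(9,1),(6,1),(1,1)]) (.cons (.keep [0,1,8,9] (.node (.cons (.leaf 2 [(10,1),(9,1)]) (.cons (.keep [3,7,8,9,10] (.node (.cons (.keep [3,7,9,11] (.node (.cons (.leaf 1 [(2,1)]) (.cons (.leaf 1 [(2,1)]) (.cons (.leaf 1 [(2,1)]) (.cons (.leaf 2 [(8,1),(10,1)]) (.cons (.leaf 2 [(7,1),(10,1)]) (.cons (.leaf 1 [(0,1),(10,1)]) (.cons (.leaf 1 [(8,1),(6,1),(2,1)]) (.cons (.leaf 1 [(7,1),(6,1),(2,1)]) (.cons (.leaf 1 [(10,1)])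 .nil))))))))))) (.cons (.leaf 1 [(7,1)]) (.cons (.leaf 1 [(3,1)]) (.cons (.leaf 1 [(1,1),(11,1)]) (.cons (.leaf 1 [(1,1),(7,1)]) (.cons (.leaf 1 [(3,1)]) (.cons (.keep [1,7,8,9,11] (.node (.cons (.leaf 1 [(2,1),(7,1)]) (.cons (.leaf 1 [(2,1),(7,1)]) (.cons (.leaf 1 [(2,1),(7,1)]) (.cons (.leaf 2 [(8,1),(11,1),(7,1)]) (.cons (.leaf 2 [(11,1)]) (.cons (.leaf 1 [(0,1),(7,1),(11,1)]) (.cons (.leaf 1 [(8,1),(6,1),(7,1),(2,1)]) (.cons (.leaf 1 [(6,1),(2,1)]) (.cons (.leaf 1 [(11,1)]) .nil))))))))))) (.cons (.leaf 1 [(7,1),(1,1)]) (.cons (.leaf 1 []) .nil))))))))))) (.cons (.leaf 1 [(3,1),(9,1)]) (.cons (.leaf 1 [(1,1)]) (.cons (.leaf 1 [(1,1)]) (.cons (.leaf 1 [(1,1)]) (.cons (.leaf 2 [(10,1),(9,1),(1,1)]) (.cons (.keep [1,7,8,9,10] (.node (.cons (.keep [3,7,9,10,11] (.node (.cons (.leaf 1 [(2,1)])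 (.cons (.leaf 1 [(2,1)]) (.cons (.leaf 1 [(2,1)]) (.cons (.leaf 2 [(10,1),(11,1)]) (.cons (.leaf 2 [(7,1),(11,1)]) (.cons (.leaf 1 [(0,1),(11,1)]) (.cons (.leaf 1 [(10,1),(6,1),(2,1)]) (.cons (.leaf 1 [(7,1),(6,1),(2,1)]) (.cons (.leaf 1 [(11,1)]) .nil))))))))))) (.cons (.leaf 1 [(10,1),(4,1)]) (.cons (.leaf 1 [(3,1)]) (.cons (.leaf 1 [(1,1),(11,1)]) (.cons (.leaf 1 [(4,1),(10,1)]) (.cons (.leaf 1 [(3,1)]) (.cons (.keep [7,8,9,10,11] (.node (.cons (.leaf 1 [(2,1),(7,1),(10,1)]) (.cons (.leaf 1 [(2,1),(7,1),(4,1)]) (.cons (.leaf 1 [(2,1),(7,1),(10,1)]) (.cons (.leaf 2 [(11,1),(10,1)]) (.cons (.leaf 2 [(11,1)]) (.cons (.leaf 1 [(0,1),(7,1),(10,1),(11,1)]) (.cons (.leaf 1 [(10,1),(6,1),(2,1)]) (.cons (.leaf 1 [(6,1),(2,1)]) (.cons (.leaf 1 [(11,1)]) .nil))))))))))) (.cons (.leaf 1 [(10,1),(4,1)])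 (.cons (.leaf 1 []) .nil))))))))))) (.cons (.leaf 1 [(9,1)]) .nil))))))))))) .nil))))))))))) (.cons (.keep [0,2,4,5] (.node (.cons (.leaf 1 [(8,1),(10,1)]) (.cons (.leaf 1 [(8,1)]) (.cons (.keep [3,7,8,9,10] (.node (.cons (.leaf 1 [(5,1),(9,1)]) (.cons (.leaf 1 [(7,1),(10,1)]) (.cons (.leaf 1 [(3,1),(10,1)]) (.cons (.leaf 1 [(5,1),(9,1)]) (.cons (.leaf 1 [(1,1),(7,1),(10,1)]) (.cons (.leaf 1 [(3,1),(10,1)]) (.cons (.leaf 1 [(6,1),(1,1)]) (.cons (.leaf 1 [(7,1),(10,1),(1,1)]) (.cons (.leaf 1 [(10,1)]) .nil))))))))))) (.cons (.leaf 1 [(1,1),(9,1)]) (.cons (.leaf 1 [(1,1),(8,1)]) (.cons (.leaf 1 [(1,1),(9,1)]) (.cons (.leaf 1 [(6,1),(10,1),(1,1)]) (.cons (.leaf 1 [(6,1),(1,1)]) (.cons (.keep [0,1,9,10] (.node (.cons (.leaf 1 [(5,1),(8,1)]) (.cons (.keep [3,7,8,9,10] (.node (.cons (.keep [3,7,8,9,10]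 (.node (.cons (.leaf 1 [(8,1)]) (.cons (.leaf 1 [(7,1)]) (.cons (.leaf 1 [(3,1)]) (.cons (.leaf 1 [(1,1),(8,1)]) (.cons (.leaf 1 [(1,1),(7,1)]) (.cons (.leaf 1 [(3,1)]) (.cons (.leaf 1 [(8,1),(1,1)]) (.cons (.leaf 1 [(7,1),(1,1)]) (.cons (.leaf 1 []) .nil))))))))))) (.cons (.leaf 1 [(7,1),(10,1),(4,1)]) (.cons (.leaf 1 [(3,1),(10,1),(4,1)]) (.cons (.leaf 1 [(1,1)]) (.cons (.leaf 1 [(1,1)]) (.cons (.leaf 1 [(1,1)]) (.cons (.keep [1,7,8,9,11] (.node (.cons (.leaf 1 [(8,1)]) (.cons (.leaf 2 [(11,1),(2,1)]) (.cons (.leaf 1 [(3,1)]) (.cons (.leaf 1 [(1,1),(8,1)]) (.cons (.leaf 2 [(11,1)]) (.cons (.leaf 1 [(3,1)]) (.cons (.leaf 1 [(8,1),(1,1)]) (.cons (.leaf 2 [(11,1),(2,1)]) (.cons (.leaf 1 []) .nil))))))))))) (.cons (.leaf 1 [(7,1),(10,1),(4,1)]) (.cons (.leaf 1 [(11,1)]) .nil))))))))))) (.cons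 (.leaf 1 [(3,1),(9,1)]) (.cons (.leaf 1 [(5,1),(8,1)]) (.cons (.leaf 1 [(1,1),(10,1)]) (.cons (.leaf 1 [(3,1),(9,1)]) (.cons (.leaf 1 [(6,1),(1,1)]) (.cons (.keep [1,7,8,9,10] (.node (.cons (.keep [3,7,8,9,10] (.node (.cons (.leaf 2 [(11,1),(2,1)]) (.cons (.leaf 1 [(7,1)]) (.cons (.leaf 1 [(3,1)]) (.cons (.leaf 2 [(11,1)]) (.cons (.leaf 1 [(1,1),(7,1)]) (.cons (.leaf 1 [(3,1)]) (.cons (.leaf 2 [(11,1),(2,1)]) (.cons (.leaf 1 [(7,1),(1,1)]) (.cons (.leaf 1 []) .nil))))))))))) (.cons (.leaf 1 [(4,1),(10,1)]) (.cons (.leaf 1 [(3,1),(10,1),(7,1),(4,1)]) (.cons (.leaf 1 [(1,1)]) (.cons (.leaf 1 [(1,1)]) (.cons (.leaf 1 [(1,1)]) (.cons (.keep [1,7,8,9,10,11] (.node (.cons (.leaf 2 [(11,1),(2,1)]) (.cons (.leaf 1 [(11,1),(8,1),(2,1)]) (.cons (.leaf 1 [(3,1)]) (.cons (.leaf 2 [(11,1)]) (.cons (.leaf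 2 [(12,1)]) (.cons (.leaf 1 [(3,1)]) (.cons (.leaf 2 [(11,1),(2,1)]) (.cons (.leaf 2 [(12,1),(2,1)]) (.cons (.leaf 1 []) .nil))))))))))) (.cons (.leaf 1 [(4,1),(10,1)]) (.cons (.leaf 1 [(11,1)]) .nil))))))))))) (.cons (.leaf 1 [(9,1)]) .nil))))))))))) .nil))))))))))) (.cons (.keep [1,5,6,7] (.leaf 0 [(0,0)])) (.cons (.keep [1,4,6,7] (.node (.cons (.keep [5,6,7,8] (.node (.cons (.leaf 1 [(7,1),(10,1)]) (.cons (.leaf 1 [(8,1),(10,1)]) (.cons (.leaf 1 [(3,2),(10,2)]) (.cons (.leaf 1 [(1,2)]) (.cons (.leaf 1 [(1,2)]) (.cons (.leaf 1 [(1,2)]) (.cons (.leaf 1 [(7,2),(6,2),(1,2)]) (.cons (.leaf 1 [(8,2),(6,2),(1,2)]) (.cons (.leaf 1 [(10,2)]) .nil))))))))))) (.cons (.keep [4,6,8,9,10] (.node (.cons (.leaf 1 [(9,1)]) (.cons (.leaf 1 [(8,1),(9,1)]) (.cons (.leaf 1 [(3,2),(7,1),(9,2)]) (.cons (.leaf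 1 [(1,2),(7,1)]) (.cons (.leaf 1 [(1,2),(7,1)]) (.cons (.leaf 1 [(1,2),(7,1)]) (.cons (.leaf 1 [(9,1),(1,1)]) (.cons (.leaf 1 [(8,1),(9,1),(1,1)]) (.cons (.leaf 1 [(9,2),(7,1)]) .nil))))))))))) (.cons (.keep [3,4,8,9] (.node (.cons (.leaf 1 [(10,1),(9,1),(8,1)]) (.cons (.leaf 1 [(9,1)]) (.cons (.leaf 1 [(3,2),(8,1),(9,2)]) (.cons (.leaf 1 [(1,2),(8,1)]) (.cons (.leaf 1 [(1,2),(8,1)]) (.cons (.leaf 1 [(1,2),(8,1)]) (.cons (.leaf 1 [(10,1),(9,1),(8,1),(1,1)]) (.cons (.leaf 1 [(9,1),(1,1)]) (.cons (.leaf 1 [(9,2),(8,1)]) .nil))))))))))) (.cons (.leaf 1 [(8,2),(1,1)]) (.cons (.leaf 1 [(8,2),(1,1),(4,1)]) (.cons (.leaf 1 [(8,2),(1,1),(4,1)]) (.cons (.leaf 1 [(1,1),(6,2)]) (.cons (.leaf 1 [(1,1),(6,2),(9,1)]) (.cons (.keep [0,1,8,9] (.node (.cons (.leaf 2 [(10,1),(9,1)]) (.cons (.keep [3,7,8,9,10]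 (.node (.cons (.keep [3,7,9,11] (.node (.cons (.leaf 1 [(2,1)]) (.cons (.leaf 1 [(2,1)]) (.cons (.leaf 1 [(2,1)]) (.cons (.leaf 2 [(8,1),(10,1)]) (.cons (.leaf 2 [(7,1),(10,1)]) (.cons (.leaf 1 [(0,1),(10,1)]) (.cons (.leaf 1 [(8,1),(6,1),(2,1)]) (.cons (.leaf 1 [(7,1),(6,1),(2,1)]) (.cons (.leaf 1 [(10,1)]) .nil))))))))))) (.cons (.leaf 1 [(7,1)]) (.cons (.leaf 1 [(3,1)]) (.cons (.leaf 1 [(1,1),(11,1)]) (.cons (.leaf 1 [(1,1),(7,1)]) (.cons (.leaf 1 [(3,1)]) (.cons (.keep [1,7,8,9,11] (.node (.cons (.leaf 1 [(2,1),(7,1)]) (.cons (.leaf 1 [(2,1),(7,1)]) (.cons (.leaf 1 [(2,1),(7,1)]) (.cons (.leaf 2 [(8,1),(11,1),(7,1)]) (.cons (.leaf 2 [(11,1)]) (.cons (.leaf 1 [(0,1),(7,1),(11,1)]) (.cons (.leaf 1 [(8,1),(6,1),(7,1),(2,1)]) (.cons (.leaf 1 [(6,1),(2,1)]) (.cons (.leaf 1 [(11,1)]) .nil)))))))))))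 (.cons (.leaf 1 [(7,1),(1,1)]) (.cons (.leaf 1 []) .nil))))))))))) (.cons (.leaf 1 [(3,1),(9,1)]) (.cons (.leaf 1 [(1,1)]) (.cons (.leaf 1 [(1,1)]) (.cons (.leaf 1 [(1,1)]) (.cons (.leaf 2 [(10,1),(9,1),(1,1)]) (.cons (.keep [1,7,8,9,10] (.node (.cons (.keep [3,7,9,10,11] (.node (.cons (.leaf 1 [(2,1)]) (.cons (.leaf 1 [(2,1)]) (.cons (.leaf 1 [(2,1)]) (.cons (.leaf 2 [(10,1),(11,1)]) (.cons (.leaf 2 [(7,1),(11,1)]) (.cons (.leaf 1 [(0,1),(11,1)]) (.cons (.leaf 1 [(10,1),(6,1),(2,1)]) (.cons (.leaf 1 [(7,1),(6,1),(2,1)]) (.cons (.leaf 1 [(11,1)]) .nil))))))))))) (.cons (.leaf 1 [(10,1),(4,1)]) (.cons (.leaf 1 [(3,1)]) (.cons (.leaf 1 [(1,1),(11,1)]) (.cons (.leaf 1 [(4,1),(10,1)]) (.cons (.leaf 1 [(3,1)]) (.cons (.keep [7,8,9,10,11] (.node (.cons (.leaf 1 [(2,1),(7,1),(10,1)]) (.cons (.leaf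 1 [(2,1),(7,1),(4,1)]) (.cons (.leaf 1 [(2,1),(7,1),(10,1)]) (.cons (.leaf 2 [(11,1),(10,1)]) (.cons (.leaf 2 [(11,1)]) (.cons (.leaf 1 [(0,1),(7,1),(10,1),(11,1)]) (.cons (.leaf 1 [(10,1),(6,1),(2,1)]) (.cons (.leaf 1 [(6,1),(2,1)]) (.cons (.leaf 1 [(11,1)]) .nil))))))))))) (.cons (.leaf 1 [(10,1),(4,1)]) (.cons (.leaf 1 []) .nil))))))))))) (.cons (.leaf 1 [(9,1)]) .nil))))))))))) .nil))))))))))) (.cons (.keep [1,4,5,7] (.node (.cons (.keep [5,6,8,9,10] (.node (.cons (.leaf 1 [(7,1),(9,1)]) (.cons (.leaf 1 [(8,1),(9,1)]) (.cons (.leaf 1 [(7,1),(3,2),(9,2)]) (.cons (.leaf 2 [(1,3),(9,1)]) (.cons (.leaf 1 [(1,1),(8,1),(9,1)]) (.cons (.leaf 1 [(1,1),(3,1),(9,1)]) (.cons (.leaf 1 [(7,1),(6,2),(1,2)]) (.cons (.leaf 1 [(8,1),(9,1),(1,1)]) (.cons (.leaf 1 [(7,1),(9,2)]) .nil))))))))))) (.cons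 (.keep [4,6,7,8] (.node (.cons (.leaf 1 [(10,1)]) (.cons (.leaf 1 [(8,1),(10,1)]) (.cons (.leaf 1 [(3,2),(10,2)]) (.cons (.leaf 1 [(1,2),(7,2)]) (.cons (.leaf 1 [(1,2),(7,2)]) (.cons (.leaf 1 [(1,2),(7,2)]) (.cons (.leaf 1 [(6,2),(1,2)]) (.cons (.leaf 1 [(8,2),(6,2),(1,2)]) (.cons (.leaf 1 [(10,2)]) .nil))))))))))) (.cons (.keep [3,5,8,9] (.node (.cons (.leaf 1 [(9,1),(8,1)]) (.cons (.leaf 1 [(9,1)]) (.cons (.leaf 1 [(3,2),(8,1),(9,2)]) (.cons (.leaf 1 [(1,1),(9,1),(8,1)]) (.cons (.leaf 1 [(1,1),(9,1)]) (.cons (.leaf 1 [(3,2),(8,1),(9,2)]) (.cons (.leaf 1 [(6,2),(8,1),(1,2)]) (.cons (.leaf 1 [(9,1),(1,1)]) (.cons (.leaf 1 [(9,2),(8,1)]) .nil))))))))))) (.cons (.leaf 1 [(8,2),(5,1),(1,1)]) (.cons (.leaf 1 [(8,2),(1,1)]) (.cons (.leaf 1 [(8,2),(1,1),(5,1)]) (.cons (.leaf 1 [(6,2),(1,1),(9,1)])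 (.cons (.leaf 1 [(1,1),(6,2)]) (.cons (.keep [0,1,8,9] (.node (.cons (.leaf 1 [(5,1),(8,1)]) (.cons (.keep [3,7,8,9,10] (.node (.cons (.keep [3,7,8,9,10] (.node (.cons (.leaf 1 [(8,1)]) (.cons (.leaf 1 [(7,1)]) (.cons (.leaf 1 [(3,1)]) (.cons (.leaf 1 [(1,1),(8,1)]) (.cons (.leaf 1 [(1,1),(7,1)]) (.cons (.leaf 1 [(3,1)]) (.cons (.leaf 1 [(8,1),(1,1)]) (.cons (.leaf 1 [(7,1),(1,1)]) (.cons (.leaf 1 []) .nil))))))))))) (.cons (.leaf 1 [(7,1),(10,1),(4,1)]) (.cons (.leaf 1 [(3,1),(10,1),(4,1)]) (.cons (.leaf 1 [(1,1)]) (.cons (.leaf 1 [(1,1)]) (.cons (.leaf 1 [(1,1)]) (.cons (.keep [1,7,8,9,11] (.node (.cons (.leaf 1 [(8,1)]) (.cons (.leaf 2 [(11,1),(2,1)]) (.cons (.leaf 1 [(3,1)]) (.cons (.leaf 1 [(1,1),(8,1)]) (.cons (.leaf 2 [(11,1)]) (.cons (.leaf 1 [(3,1)]) (.cons (.leaf 1 [(8,1),(1,1)])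 (.cons (.leaf 2 [(11,1),(2,1)]) (.cons (.leaf 1 []) .nil))))))))))) (.cons (.leaf 1 [(7,1),(10,1),(4,1)]) (.cons (.leaf 1 [(11,1)]) .nil))))))))))) (.cons (.leaf 1 [(3,1),(9,1)]) (.cons (.leaf 1 [(5,1),(8,1)]) (.cons (.leaf 1 [(1,1),(10,1)]) (.cons (.leaf 1 [(3,1),(9,1)]) (.cons (.leaf 1 [(6,1),(1,1)]) (.cons (.keep [1,7,8,9,10] (.node (.cons (.keep [3,7,8,9,10] (.node (.cons (.leaf 2 [(11,1),(2,1)]) (.cons (.leaf 1 [(7,1)]) (.cons (.leaf 1 [(3,1)]) (.cons (.leaf 2 [(11,1)]) (.cons (.leaf 1 [(1,1),(7,1)]) (.cons (.leaf 1 [(3,1)]) (.cons (.leaf 2 [(11,1),(2,1)]) (.cons (.leaf 1 [(7,1),(1,1)]) (.cons (.leaf 1 []) .nil))))))))))) (.cons (.leaf 1 [(4,1),(10,1)]) (.cons (.leaf 1 [(3,1),(10,1),(7,1),(4,1)]) (.cons (.leaf 1 [(1,1)]) (.cons (.leaf 1 [(1,1)]) (.cons (.leaf 1 [(1,1)]) (.cons (.keep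 [1,7,8,9,10,11] (.node (.cons (.leaf 2 [(11,1),(2,1)]) (.cons (.leaf 1 [(11,1),(8,1),(2,1)]) (.cons (.leaf 1 [(3,1)]) (.cons (.leaf 2 [(11,1)]) (.cons (.leaf 2 [(12,1)]) (.cons (.leaf 1 [(3,1)]) (.cons (.leaf 2 [(11,1),(2,1)]) (.cons (.leaf 2 [(12,1),(2,1)]) (.cons (.leaf 1 []) .nil))))))))))) (.cons (.leaf 1 [(4,1),(10,1)]) (.cons (.leaf 1 [(11,1)]) .nil))))))))))) (.cons (.leaf 1 [(9,1)]) .nil))))))))))) .nil))))))))))) (.cons (.leaf 1 [(6,1)]) (.cons (.leaf 1 [(6,1)]) (.cons (.leaf 1 []) .nil)))))))))))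

theorem e_19_28 : ESB (caseOf 4 19 28) := esb_of_pieces _ (hP_cons c_19_28_2 hP_nil) t_19_28 (by
  decide +kernel)

def ks : List (ℕ × ℕ) := [(19, 16), (19, 17), (19, 18), (19, 19), (19, 20), (19, 21), (19, 22),
  (19, 23), (19, 25), (19, 26), (19, 27), (19, 28)]

theorem ks_ok : ∀ p ∈ ks, ESB (caseOf 4 p.1 p.2) := ks_cons e_19_16 <| ks_cons e_19_17 <| ks_cons
  e_19_18 <| ks_cons e_19_19 <| ks_cons e_19_20 <| ks_cons e_19_21 <| ks_cons e_19_22 <| ks_cons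
  e_19_23 <| ks_cons e_19_25 <| ks_cons e_19_26 <| ks_cons e_19_27 <| ks_cons e_19_28 <| ks_nil

end Pool.Agent.H4.RD4.E11
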