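import Pool.Agent.H4.RD4.Chk

/-! # Certificates for special cases of order four -/

set_option maxRecDepth 20000

namespace Pool.Agent.H4.RD4.E12

open Pool.Agent.H50.Rdb
open Pool.Agent.H81.RDE (ESB caseOf)

def t_19_29 : T := (.keep [0,1,2] (.node (.cons (.leaf 1 []) (.cons (.leaf 1 [(4,1)]) (.cons (.leaf 1 [(4,1)]) (.cons (.leaf 1 [(4,1)]) (.cons (.keep [1,5,6,7] (.node (.cons (.leaf 1 []) (.cons (.leaf 1 [(4,1)]) (.cons (.leaf 1 [(4,1)]) (.cons (.leaf 1 [(4,1)]) (.cons (.leaf 1 [(9,1)]) (.cons (.leaf 1 [(9,1),(4,1)]) (.cons (.leaf 1 [(9,1),(4,1)]) (.cons (.leaf 1 [(9,1),(4,1)]) (.cons (.leaf 1 [(7,1)]) (.cons (.leaf 1 [(7,1)]) (.cons (.leaf 1 [(7,1)]) (.cons (.leaf 1 []) .nil)))))))))))))) (.cons (.keep [4,6,7,8,9] (.node (.cons (.leaf 1 [(8,1)]) (.cons (.leaf 1 [(8,1),(4,1)]) (.cons (.leaf 1 [(8,1),(4,1)])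 (.cons (.leaf 1 [(8,1),(4,1)]) (.cons (.leaf 1 []) (.cons (.leaf 1 [(4,1)]) (.cons (.leaf 1 [(4,1)]) (.cons (.leaf 1 [(4,1)]) (.cons (.leaf 1 [(8,1),(7,1)]) (.cons (.leaf 1 [(8,1),(7,1)]) (.cons (.leaf 1 [(8,1),(7,1)]) (.cons (.leaf 1 [(8,1)]) .nil)))))))))))))) (.cons (.keep [4,5,7,8,10] (.node (.cons (.leaf 1 [(8,1)]) (.cons (.leaf 1 [(4,2)]) (.cons (.leaf 1 [(8,1),(4,1)]) (.cons (.leaf 1 [(8,1),(4,1)]) (.cons (.leaf 1 [(9,1)]) (.cons (.leaf 1 [(9,1),(4,1)]) (.cons (.leaf 1 [(9,1),(4,1)]) (.cons (.leaf 1 [(9,1),(4,1)]) (.cons (.leaf 1 [(8,1),(7,1)]) (.cons (.leaf 1 [(4,1),(7,1)]) (.cons (.leaf 1 [(8,1),(7,1)]) (.cons (.leaf 1 [(8,1)]) .nil)))))))))))))) (.cons (.keep [3,4,5,6,8] (.node (.cons (.leaf 1 [(9,1)]) (.cons (.leaf 1 [(4,1),(9,1)]) (.cons (.leaf 1 [(4,2)]) (.cons (.leaf 1 [(9,1),(4,1)]) (.cons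 (.leaf 1 [(10,1)]) (.cons (.leaf 1 [(4,1),(10,1)]) (.cons (.leaf 1 [(10,1),(4,1)]) (.cons (.leaf 1 [(10,1),(4,1)]) (.cons (.leaf 1 [(9,1),(7,1)]) (.cons (.leaf 1 [(7,1),(9,1)]) (.cons (.leaf 1 [(4,1),(7,1)]) (.cons (.leaf 1 [(9,1)]) .nil)))))))))))))) (.cons (.leaf 1 [(7,1)]) (.cons (.leaf 1 [(7,1)]) (.cons (.leaf 1 [(7,1)]) (.cons (.leaf 1 []) .nil))))))))))))))

theorem e_19_29 : ESB (caseOf 4 19 29) := esb_of_ok (t := t_19_29) (by decide +kernel)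

def t_19_30 : T := (.keep [0,1,2] (.node (.cons (.keep [2,5,6,7] (.node (.cons (.leaf 1 [(2,1)]) (.cons (.leaf 2 [(10,1)]) (.cons (.leaf 2 [(11,1)]) (.cons (.leaf 1 [(3,1)]) (.cons (.leaf 1 []) (.cons (.leaf 1 [(1,1),(9,1)]) (.cons (.leaf 1 [(1,1),(9,1)]) (.cons (.leaf 1 [(3,1)]) (.cons (.leaf 1 [(2,1)]) (.cons (.leaf 2 [(10,1),(1,1)]) (.cons (.leaf 2 [(11,1),(1,1)]) (.cons (.leaf 1 []) .nil)))))))))))))) (.cons (.keep [4,6,7,9] (.node (.cons (.leaf 2 [(8,1)]) (.cons (.leaf 2 [(9,1),(8,1)]) (.cons (.leaf 2 [(10,1),(8,1)]) (.cons (.leaf 1 [(3,1),(8,1)]) (.cons (.leaf 1 [(1,1)]) (.cons (.leaf 1 [(1,1)]) (.cons (.leaf 1 [(1,1)]) (.cons (.leaf 1 [(1,1)]) (.cons (.leaf 1 [(7,1),(1,1)]) (.cons (.leaf 2 [(9,1),(8,1),(1,1)]) (.cons (.leaf 2 [(10,1),(8,1),(1,1)]) (.cons (.leaf 1 [(8,1)]) .nil)))))))))))))) (.cons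 (.keep [4,5,7,10] (.node (.cons (.leaf 1 [(8,1),(2,1)]) (.cons (.leaf 2 [(8,1)]) (.cons (.leaf 2 [(10,1),(8,1)]) (.cons (.leaf 1 [(3,1),(8,1)]) (.cons (.leaf 1 [(8,1)]) (.cons (.leaf 1 [(1,1),(4,1)]) (.cons (.leaf 1 [(1,1),(9,1)]) (.cons (.leaf 1 [(3,1),(8,1)]) (.cons (.leaf 1 [(8,1),(2,1)]) (.cons (.leaf 1 [(7,1),(1,1)]) (.cons (.leaf 2 [(10,1),(8,1),(1,1)]) (.cons (.leaf 1 [(8,1)]) .nil)))))))))))))) (.cons (.keep [0,4,5,6] (.node (.cons (.leaf 1 [(9,1),(2,1)]) (.cons (.leaf 2 [(9,1),(11,1)]) (.cons (.leaf 2 [(9,1)]) (.cons (.leaf 1 [(3,1),(9,1)]) (.cons (.leaf 1 [(9,1)]) (.cons (.leaf 1 [(1,1),(10,1)]) (.cons (.leaf 1 [(1,1),(4,1)]) (.cons (.leaf 1 [(3,1),(9,1)]) (.cons (.leaf 1 [(9,1),(2,1)]) (.cons (.leaf 2 [(9,1),(11,1),(1,1)]) (.cons (.leaf 1 [(7,1),(1,1)]) (.cons (.leaf 1 [(9,1)]) .nil))))))))))))))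 (.cons (.leaf 1 []) (.cons (.leaf 1 [(4,1)]) (.cons (.leaf 1 [(4,1)]) (.cons (.leaf 1 [(4,1)]) (.cons (.leaf 1 [(7,1)]) (.cons (.leaf 1 [(7,1)]) (.cons (.leaf 1 [(7,1)]) (.cons (.leaf 1 []) .nil))))))))))))))

theorem e_19_30 : ESB (caseOf 4 19 30) := esb_of_ok (t := t_19_30) (by decide +kernel)

def t_19_31 : T := (.keep [0,1,2] (.node (.cons (.leaf 1 []) (.cons (.leaf 1 [(4,1)]) (.cons (.leaf 1 [(4,1)]) (.cons (.leaf 1 [(4,1)]) (.cons (.leaf 1 [(4,1)]) (.cons (.leaf 1 [(5,1)]) (.cons (.leaf 1 []) (.cons (.leaf 1 [(5,1)]) (.cons (.leaf 1 [(5,1)]) (.cons (.leaf 1 [(5,1)]) (.cons (.leaf 1 [(8,1)]) (.cons (.leaf 1 [(8,1)]) (.cons (.leaf 1 [(8,1)]) (.cons (.leaf 1 [(8,1)]) (.cons (.leaf 1 []) .nil)))))))))))))))))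

theorem e_19_31 : ESB (caseOf 4 19 31) := esb_of_ok (t := t_19_31) (by decide +kernel)

def t_20_16 : T := (.keep [0,1,2] (.node (.cons (.keep [2,4,5,6] (.node (.cons (.keep [2,5,6,7] (.node (.cons (.keep [2,4,5,6,7] (.node (.cons (.keep [2,4,5,6,7,8] (.node (.cons (.keep [2,4,6,7,8,9] (.node (.cons (.keep [2,4,6,8,9] (.node (.cons (.leaf 1 [(2,1)]) (.cons (.leaf 1 []) .nil)))) (.cons (.keep [0,1,4,5,7,8] (.node (.cons (.leaf 1 [(2,1)]) (.cons (.leaf 1 []) .nil)))) .nil)))) (.cons (.keep [0,1,4,6,7,9] (.node (.cons (.keep [2,4,5,7,9] (.node (.cons (.leaf 1 [(2,1)]) (.cons (.leaf 1 []) .nil)))) (.cons (.keep [0,1,4,5,6,8] (.node (.cons (.leaf 1 [(2,1)]) (.cons (.leaf 1 []) .nil)))) .nil)))) .nil)))) (.cons (.keep [0,1,4,5,6,7] (.node (.cons (.keep [2,4,5,7,8,9] (.node (.cons (.keep [2,4,5,6,7,9] (.node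 (.cons (.leaf 1 [(2,1)]) (.cons (.leaf 1 []) .nil)))) (.cons (.keep [0,1,4,6,9] (.node (.cons (.leaf 1 [(2,1)]) (.cons (.leaf 1 []) .nil)))) .nil)))) (.cons (.keep [0,1,4,5,7,8] (.node (.cons (.keep [2,4,5,6,7,8] (.node (.cons (.leaf 1 [(2,1)]) (.cons (.leaf 1 []) .nil)))) (.cons (.keep [0,1,4,5,7] (.node (.cons (.leaf 1 [(2,1)]) (.cons (.leaf 1 []) .nil)))) .nil)))) .nil)))) .nil)))) (.cons (.keep [0,1,4,5,7] (.node (.cons (.keep [2,4,5,6,7,8] (.node (.cons (.leaf 1 [(2,1)]) (.cons (.leaf 1 []) .nil)))) (.cons (.keep [0,1,4,5,6,7] (.node (.cons (.leaf 1 [(2,1)]) (.cons (.leaf 1 []) .nil)))) .nil)))) .nil)))) (.cons (.keep [0,1,4,6] (.node (.cons (.keep [2,4,5,7] (.node (.cons (.keep [2,4,5,6,7] (.node (.cons (.keep [2,4,6,7,8] (.node (.cons (.keep [4,5,6,7,8] (.node (.cons (.leaf 1 [(2,1)]) (.cons (.leaf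 1 []) .nil)))) (.cons (.keep [0,1,4,5,7,8] (.node (.cons (.leaf 1 [(2,1)]) (.cons (.leaf 1 []) .nil)))) .nil)))) (.cons (.keep [0,1,4,6,7] (.node (.cons (.keep [4,5,6,7,8] (.node (.cons (.leaf 1 [(2,1)]) (.cons (.leaf 1 []) .nil)))) (.cons (.keep [0,1,4,5,6,8] (.node (.cons (.leaf 1 [(2,1)]) (.cons (.leaf 1 []) .nil)))) .nil)))) .nil)))) (.cons (.keep [0,1,4,6,7] (.node (.cons (.keep [2,4,5,7,8] (.node (.cons (.keep [2,4,5,6,8] (.node (.cons (.leaf 1 [(2,1)]) (.cons (.leaf 1 []) .nil)))) (.cons (.keep [0,1,4,6,8] (.node (.cons (.leaf 1 [(2,1)]) (.cons (.leaf 1 []) .nil)))) .nil)))) (.cons (.keep [0,1,4,5,7] (.node (.cons (.keep [2,4,5,6,7] (.node (.cons (.leaf 1 [(2,1)]) (.cons (.leaf 1 []) .nil)))) (.cons (.keep [0,1,4,5,7] (.node (.cons (.leaf 1 [(2,1)]) (.cons (.leaf 1 []) .nil)))) .nil)))) .nil))))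 .nil)))) (.cons (.keep [0,1,4,5] (.node (.cons (.keep [2,4,5,6,7] (.node (.cons (.leaf 1 [(2,1)]) (.cons (.leaf 1 []) .nil)))) (.cons (.keep [0,1,4,5,7] (.node (.cons (.leaf 1 [(2,1)]) (.cons (.leaf 1 []) .nil)))) .nil)))) .nil)))) .nil)))) (.cons (.leaf 1 []) .nil))))

theorem e_20_16 : ESB (caseOf 4 20 16) := esb_of_ok (t := t_20_16) (by decide +kernel)

def t_20_17 : T := (.keep [0,1,2] (.node (.cons (.keep [0,4,5,7] (.node (.cons (.keep [2,4,5,6,7] (.node (.cons (.leaf 1 [(8,1)]) (.cons (.leaf 1 [(8,1),(3,1)]) (.cons (.leaf 1 [(4,1)]) (.cons (.leaf 1 []) .nil)))))) (.cons (.keep [2,3,6,8] (.node (.cons (.leaf 1 [(7,1)]) (.cons (.leaf 1 [(7,1),(3,1)]) (.cons (.leaf 1 [(4,1)]) (.cons (.leaf 1 []) .nil)))))) (.cons (.keep [0,1,4,5,6] (.node (.cons (.leaf 1 [(9,1)]) (.cons (.leaf 1 [(9,1),(3,1)]) (.cons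 (.leaf 1 [(4,1)]) (.cons (.leaf 1 []) .nil)))))) (.cons (.keep [0,1,3,6] (.node (.cons (.leaf 1 [(8,1)]) (.cons (.leaf 1 [(8,1),(3,1)]) (.cons (.leaf 1 [(4,1)]) (.cons (.leaf 1 []) .nil)))))) .nil)))))) (.cons (.keep [2,3,5,6,7] (.node (.cons (.keep [2,4,5,6,7,8] (.node (.cons (.leaf 1 []) (.cons (.leaf 1 [(3,1)]) (.cons (.leaf 1 [(8,1),(4,1)]) (.cons (.leaf 1 [(8,1)]) .nil)))))) (.cons (.keep [2,3,6,8,9] (.node (.cons (.leaf 1 []) (.cons (.leaf 1 [(3,1)]) (.cons (.leaf 1 [(7,1),(4,1)]) (.cons (.leaf 1 [(7,1)]) .nil)))))) (.cons (.keep [1,4,5,6,8] (.node (.cons (.leaf 1 []) (.cons (.leaf 1 [(3,1)]) (.cons (.leaf 1 [(8,1),(4,1)]) (.cons (.leaf 1 [(8,1)]) .nil)))))) (.cons (.keep [0,1,3,6,8] (.node (.cons (.leaf 1 []) (.cons (.leaf 1 [(3,1)]) (.cons (.leaf 1 [(8,1),(4,1)]) (.cons (.leaf 1 [(8,1)]) .nil))))))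 .nil)))))) (.cons (.leaf 1 [(4,1)]) (.cons (.leaf 1 []) .nil))))))

theorem e_20_17 : ESB (caseOf 4 20 17) := esb_of_ok (t := t_20_17) (by decide +kernel)

def t_20_19 : T := (.keep [0,1,2] (.node (.cons (.keep [0,4,5,6,8] (.node (.cons (.leaf 1 [(4,1)]) (.cons (.keep [2,3,7,8] (.node (.cons (.leaf 1 [(9,1)]) (.cons (.leaf 1 [(3,1),(9,1)]) (.cons (.leaf 1 [(9,1),(3,1)]) (.cons (.leaf 1 [(5,1)]) (.cons (.leaf 1 [(5,1)]) (.cons (.leaf 1 []) .nil)))))))) (.cons (.keep [2,4,8,9,10] (.node (.cons (.leaf 1 [(6,1),(4,1),(7,1)]) (.cons (.leaf 2 [(6,1),(8,1),(7,1)]) (.cons (.leaf 2 [(6,1),(8,1),(7,1),(4,1)]) (.cons (.leaf 1 [(5,1)]) (.cons (.leaf 1 [(5,1)]) (.cons (.leaf 1 []) .nil)))))))) (.cons (.leaf 1 [(4,1)]) (.cons (.keep [0,1,3,8] (.node (.cons (.leaf 1 [(9,1)]) (.cons (.leaf 1 [(3,1),(9,1)]) (.cons (.leaf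 1 [(9,1),(3,1)]) (.cons (.leaf 1 [(5,1)]) (.cons (.leaf 1 [(5,1)]) (.cons (.leaf 1 []) .nil)))))))) (.cons (.keep [0,4,8,9,10] (.node (.cons (.leaf 1 [(8,1)]) (.cons (.leaf 1 [(3,1),(8,1)]) (.cons (.leaf 1 [(8,1),(3,1)]) (.cons (.leaf 1 [(5,1)]) (.cons (.leaf 1 [(5,1)]) (.cons (.leaf 1 []) .nil)))))))) .nil)))))))) (.cons (.keep [3,5,6,7,8] (.node (.cons (.leaf 1 [(4,1),(6,1)]) (.cons (.keep [5,6,7,8,9] (.node (.cons (.leaf 1 [(7,2),(4,1)]) (.cons (.leaf 2 [(7,2),(8,1)]) (.cons (.leaf 2 [(7,2),(8,1),(4,1)]) (.cons (.leaf 1 [(7,1),(5,1)]) (.cons (.leaf 1 [(3,1),(5,2)]) (.cons (.leaf 1 [(7,1)]) .nil)))))))) (.cons (.keep [2,4,7,8,10] (.node (.cons (.leaf 1 [(6,2),(7,1),(4,1)]) (.cons (.leaf 2 [(7,1),(8,1),(6,2)]) (.cons (.leaf 2 [(6,2),(8,1),(4,1),(7,1)]) (.cons (.leaf 1 [(6,1),(5,1)]) (.cons (.leaf 1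 [(6,1),(5,1)]) (.cons (.leaf 1 [(6,1)]) .nil)))))))) (.cons (.leaf 1 [(4,1),(6,1)]) (.cons (.keep [0,6,7,8,10] (.node (.cons (.leaf 1 [(8,1)]) (.cons (.leaf 1 [(3,1),(8,1)]) (.cons (.leaf 1 [(8,1),(3,1)]) (.cons (.leaf 1 [(7,1),(5,1)]) (.cons (.leaf 1 [(5,1),(7,1)]) (.cons (.leaf 1 [(7,1)]) .nil)))))))) (.cons (.keep [0,4,7,8,10] (.node (.cons (.leaf 1 [(8,1)]) (.cons (.leaf 1 [(3,1),(8,1)]) (.cons (.leaf 1 [(8,1),(3,1)]) (.cons (.leaf 1 [(5,1)]) (.cons (.leaf 1 [(5,1)]) (.cons (.leaf 1 []) .nil)))))))) .nil)))))))) (.cons (.keep [2,3,4,7,8] (.node (.cons (.leaf 1 [(4,1),(7,1)]) (.cons (.keep [2,6,7,9,10] (.node (.cons (.leaf 1 []) (.cons (.leaf 1 [(3,1)]) (.cons (.leaf 1 [(3,1)]) (.cons (.leaf 1 [(8,1),(5,1)]) (.cons (.leaf 1 [(5,1),(8,1)]) (.cons (.leaf 1 [(8,1)]) .nil)))))))) (.cons (.keep [2,4,6,8,10]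 (.node (.cons (.leaf 1 []) (.cons (.leaf 1 [(3,1)]) (.cons (.leaf 1 [(3,1)]) (.cons (.leaf 1 [(6,1),(9,1),(5,1)]) (.cons (.leaf 1 [(5,1),(6,1),(9,1)]) (.cons (.leaf 1 [(6,1),(9,1)]) .nil)))))))) (.cons (.leaf 1 [(4,1),(7,1)]) (.cons (.keep [1,6,7,8,9] (.node (.cons (.leaf 1 []) (.cons (.leaf 1 [(3,1)]) (.cons (.leaf 1 [(3,1)]) (.cons (.leaf 1 [(8,1),(5,1)]) (.cons (.leaf 1 [(5,1),(8,1)]) (.cons (.leaf 1 [(8,1)]) .nil)))))))) (.cons (.keep [0,4,6,7,10] (.node (.cons (.leaf 1 []) (.cons (.leaf 1 [(3,1)]) (.cons (.leaf 1 [(3,1)]) (.cons (.leaf 1 [(9,1),(5,1)]) (.cons (.leaf 1 [(5,1),(9,1)]) (.cons (.leaf 1 [(9,1)]) .nil)))))))) .nil)))))))) (.cons (.leaf 1 [(5,1)]) (.cons (.leaf 1 [(5,1)]) (.cons (.leaf 1 []) .nil))))))))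

theorem e_20_19 : ESB (caseOf 4 20 19) := esb_of_ok (t := t_20_19) (by decide +kernel)

def t_20_20 : T := (.keep [0,1,2] (.node (.cons (.leaf 1 []) (.cons (.leaf 1 [(3,1)]) (.cons (.leaf 1 [(4,1)]) (.cons (.leaf 1 []) .nil))))))

theorem e_20_20 : ESB (caseOf 4 20 20) := esb_of_ok (t := t_20_20) (by decide +kernel)

def t_20_21 : T := (.keep [0,1,2] (.node (.cons (.leaf 1 [(4,1)]) (.cons (.leaf 1 []) (.cons (.leaf 1 [(4,1)]) (.cons (.leaf 1 [(5,1)]) (.cons (.leaf 1 [(5,1)]) (.cons (.leaf 1 []) .nil))))))))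

theorem e_20_21 : ESB (caseOf 4 20 21) := esb_of_ok (t := t_20_21) (by decide +kernel)

def t_20_22 : T := (.keep [0,1,2] (.node (.cons (.leaf 1 [(4,1)]) (.cons (.leaf 1 []) (.cons (.leaf 1 [(4,1)]) (.cons (.leaf 1 [(5,1)]) (.cons (.leaf 1 [(5,1)]) (.cons (.leaf 1 []) .nil))))))))

theorem e_20_22 : ESB (caseOf 4 20 22) := esb_of_ok (t := t_20_22) (by decide +kernel)

def t_20_23 : T := (.keep [0,1,2] (.node (.cons (.leaf 1 [(5,1)]) (.cons (.leaf 1 [(5,1)]) (.cons (.leaf 1 []) (.cons (.leaf 1 [(5,1)]) (.cons (.leaf 1 [(6,1)]) (.cons (.leaf 1 [(6,1)]) (.cons (.leaf 1 [(6,1)]) (.cons (.leaf 1 []) .nil))))))))))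

theorem e_20_23 : ESB (caseOf 4 20 23) := esb_of_ok (t := t_20_23) (by decide +kernel)

def z_20_24_0 : F := ⟨0, 1, -1, 0, 1⟩

def h_20_24_0 : List F := [⟨0, 1, 0, -1, 0⟩, ⟨0, 0, 1, -1, 0⟩, ⟨-1, 1, -1, 0, 1⟩, ⟨0, 0, -1, 0,
  1⟩, ⟨0, 1, -2, 0, 1⟩]

def t_20_24_0 : T := (.node (.cons (.keep [4,6,7,8] (.node (.cons (.keep [4,5,6,7,8] (.node (.cons (.keep [4,5,7,8,9] (.node (.cons (.keep [4,5,7,8,9] (.node (.cons (.leaf 1 [(7,1),(5,1)]) (.cons (.leaf 1 [(7,1),(2,1)]) (.cons (.leaf 1 [(7,1),(5,1),(1,1)]) (.cons (.leaf 1 [(7,1)]) .nil)))))) (.cons (.keep [2,5,7,8,9] (.node (.cons (.keep [2,5,7,8,9] (.node (.cons (.leaf 2 [(5,1),(6,1),(7,3)]) (.cons (.leaf 1 [(2,1),(6,1),(7,2)]) (.cons (.leaf 1 [(7,1),(1,1),(4,1),(5,1)]) (.cons (.leaf 1 [(7,2),(6,1)]) .nil)))))) (.cons (.leaf 1 [(7,1),(2,1)]) (.cons (.keep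 [1,5,7,8,9] (.node (.cons (.leaf 2 [(6,1),(7,3)]) (.cons (.leaf 1 [(6,1),(2,1),(7,2)]) (.cons (.leaf 1 [(1,1),(7,1),(4,1)]) (.cons (.leaf 1 [(6,1),(7,2)]) .nil)))))) (.cons (.leaf 1 [(7,1)]) .nil)))))) (.cons (.keep [1,5,7,8,9] (.node (.cons (.leaf 1 [(7,2),(9,1)]) (.cons (.leaf 1 [(7,1),(2,1)]) (.cons (.leaf 1 [(7,2),(9,1),(1,1)]) (.cons (.leaf 1 [(7,1)]) .nil)))))) (.cons (.keep [0,1,5,6,9] (.node (.cons (.keep [2,6,7,8,9] (.node (.cons (.leaf 2 [(5,1),(8,3)]) (.cons (.leaf 1 [(2,1),(8,2)]) (.cons (.leaf 1 [(1,2),(4,3),(5,2)]) (.cons (.leaf 1 [(8,2)]) .nil)))))) (.cons (.leaf 1 [(8,1),(2,1)]) (.cons (.keep [1,5,6,7,8,9] (.node (.cons (.leaf 2 [(9,3)]) (.cons (.leaf 1 [(2,1),(9,2)]) (.cons (.leaf 1 [(1,2),(4,3)]) (.cons (.leaf 1 [(9,2)]) .nil)))))) (.cons (.leaf 1 [(8,1)]) .nil)))))) .nil)))))) (.cons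 (.keep [2,5,7,8,9] (.node (.cons (.keep [2,5,6,8,9] (.node (.cons (.leaf 1 [(7,2),(9,1),(5,1)]) (.cons (.leaf 1 [(7,1),(2,1)]) (.cons (.leaf 1 [(7,2),(9,1),(5,1),(1,1)]) (.cons (.leaf 1 [(7,1)]) .nil)))))) (.cons (.keep [2,3,6,8,9] (.node (.cons (.leaf 1 [(7,1)]) (.cons (.leaf 1 [(7,1),(2,1),(6,1)]) (.cons (.leaf 1 [(7,1),(1,1)]) (.cons (.leaf 1 [(7,1),(6,1)]) .nil)))))) (.cons (.keep [1,5,7,8,9] (.node (.cons (.leaf 1 [(9,1),(7,2)]) (.cons (.leaf 1 [(2,2),(3,1),(6,1)]) (.cons (.leaf 1 [(9,1),(7,2),(1,1)]) (.cons (.leaf 1 [(7,1)]) .nil)))))) (.cons (.keep [0,3,5,6,9] (.node (.cons (.keep [2,5,7,8,9] (.node (.cons (.leaf 2 [(5,1),(7,2),(8,1)]) (.cons (.leaf 1 [(2,1),(7,1),(8,1)]) (.cons (.leaf 1 [(5,1),(7,1),(4,1),(1,1)]) (.cons (.leaf 1 [(8,1),(7,1)]) .nil)))))) (.cons (.leaf 1 [(2,1),(7,1)]) (.cons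 (.keep [1,5,7,8,9] (.node (.cons (.leaf 2 [(7,2),(8,1)]) (.cons (.leaf 1 [(7,1),(2,1),(8,1)]) (.cons (.leaf 1 [(7,1),(4,1),(1,1)]) (.cons (.leaf 1 [(7,1),(8,1)]) .nil)))))) (.cons (.leaf 1 [(7,1)]) .nil)))))) .nil)))))) (.cons (.keep [1,4,5,7,8] (.node (.cons (.keep [4,5,6,7,9] (.node (.cons (.leaf 1 [(8,2),(6,2),(5,1)]) (.cons (.leaf 1 [(8,2),(6,2),(2,1)]) (.cons (.leaf 1 [(8,2),(6,2),(5,1),(1,1)]) (.cons (.leaf 1 [(8,2),(6,2)]) .nil)))))) (.cons (.keep [2,5,6,7,8,9] (.node (.cons (.leaf 1 [(8,2),(6,2)]) (.cons (.leaf 1 [(9,1),(2,1)]) (.cons (.leaf 1 [(1,1),(8,2),(6,2)]) (.cons (.leaf 1 [(9,1)]) .nil)))))) (.cons (.keep [1,5,6,7,8,9] (.node (.cons (.leaf 1 [(9,2),(7,1)]) (.cons (.leaf 1 [(5,1),(3,2),(2,3)]) (.cons (.leaf 1 [(1,1),(9,2),(7,1)]) (.cons (.leaf 1 [(9,1)]) .nil)))))) (.cons (.keep [0,3,5,6,7]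 (.node (.cons (.keep [2,6,7,8,9] (.node (.cons (.leaf 2 [(5,1),(9,3),(7,2)]) (.cons (.leaf 1 [(2,1),(9,2),(7,1)]) (.cons (.leaf 1 [(7,1),(1,2),(4,3),(5,2)]) (.cons (.leaf 1 [(7,1),(9,2)]) .nil)))))) (.cons (.leaf 1 [(9,1),(7,1),(2,1)]) (.cons (.keep [1,5,7,8,9] (.node (.cons (.leaf 2 [(7,2),(9,3)]) (.cons (.leaf 1 [(2,1),(9,2),(7,1)]) (.cons (.leaf 1 [(7,1),(1,2),(4,3)]) (.cons (.leaf 1 [(7,1),(9,2)]) .nil)))))) (.cons (.leaf 1 [(9,1),(7,1)]) .nil)))))) .nil)))))) (.cons (.keep [0,1,5,7,8] (.node (.cons (.keep [2,6,7,9] (.node (.cons (.leaf 1 [(7,2),(6,2),(5,1)]) (.cons (.leaf 1 [(7,1),(6,1),(2,1)]) (.cons (.leaf 1 [(7,2),(6,2),(5,1),(1,1)]) (.cons (.leaf 1 [(7,1),(6,1)]) .nil)))))) (.cons (.keep [2,3,6,7,9] (.node (.cons (.leaf 1 [(8,1),(7,1)]) (.cons (.leaf 1 [(8,1),(2,1),(7,1),(6,1)]) (.cons (.leaf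 1 [(8,1),(7,1),(1,1)]) (.cons (.leaf 1 [(8,1),(7,1),(6,1)]) .nil)))))) (.cons (.keep [1,4,5,6,7,9] (.node (.cons (.leaf 1 [(6,2)]) (.cons (.leaf 1 [(3,1),(2,2)]) (.cons (.leaf 1 [(6,2),(1,1)]) (.cons (.leaf 1 [(6,1)]) .nil)))))) (.cons (.keep [0,3,6,7] (.node (.cons (.keep [2,5,7,8] (.node (.cons (.leaf 2 [(5,1),(8,1)]) (.cons (.leaf 1 [(2,1),(8,1)]) (.cons (.leaf 1 [(5,1),(4,1),(1,1)]) (.cons (.leaf 1 [(8,1)]) .nil)))))) (.cons (.leaf 1 [(2,1)]) (.cons (.keep [1,5,7,8] (.node (.cons (.leaf 2 [(8,1)]) (.cons (.leaf 1 [(2,1),(8,1)]) (.cons (.leaf 1 [(4,1),(1,1)]) (.cons (.leaf 1 [(8,1)]) .nil)))))) (.cons (.leaf 1 []) .nil)))))) .nil)))))) .nil)))))) (.cons (.keep [2,3,6,7,8] (.node (.cons (.keep [2,5,6,7,8] (.node (.cons (.keep [4,5,7,8,9] (.node (.cons (.leaf 1 [(8,1),(7,1),(5,1)]) (.cons (.leaf 1 [(8,1),(7,1),(2,1)])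 (.cons (.leaf 1 [(8,1),(5,1),(1,1),(7,1)]) (.cons (.leaf 1 [(8,1),(7,1)]) .nil)))))) (.cons (.keep [2,5,7,8,9] (.node (.cons (.keep [2,5,7,8,9] (.node (.cons (.leaf 2 [(5,1),(8,2),(7,1)]) (.cons (.leaf 1 [(2,1),(8,1)]) (.cons (.leaf 2 [(1,1),(7,1),(8,2),(5,1)]) (.cons (.leaf 1 [(8,1)]) .nil)))))) (.cons (.leaf 1 [(8,1),(2,1),(7,1)]) (.cons (.keep [1,5,7,8,9] (.node (.cons (.leaf 2 [(8,2),(7,1)]) (.cons (.leaf 1 [(8,1),(2,1)]) (.cons (.leaf 2 [(7,1),(1,1),(8,2)]) (.cons (.leaf 1 [(8,1)]) .nil)))))) (.cons (.leaf 1 [(8,1),(7,1)]) .nil)))))) (.cons (.keep [1,5,7,8,9] (.node (.cons (.leaf 1 [(7,2),(8,2)]) (.cons (.leaf 1 [(3,1),(2,2)]) (.cons (.leaf 1 [(1,1),(7,2),(8,2)]) (.cons (.leaf 1 [(7,1),(8,1)]) .nil)))))) (.cons (.keep [0,1,5,7,8] (.node (.cons (.keep [2,6,7,8,9] (.node (.cons (.leaf 1 [(5,1),(7,1),(6,1)])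 (.cons (.leaf 1 [(2,1),(9,1)]) (.cons (.leaf 1 [(5,1),(4,1),(1,1)]) (.cons (.leaf 1 [(9,1)]) .nil)))))) (.cons (.leaf 1 [(2,1)]) (.cons (.keep [1,5,6,7,8,9] (.node (.cons (.leaf 2 [(10,1)]) (.cons (.leaf 1 [(2,1),(10,1)]) (.cons (.leaf 1 [(4,1),(1,1)]) (.cons (.leaf 1 [(10,1)]) .nil)))))) (.cons (.leaf 1 []) .nil)))))) .nil)))))) (.cons (.keep [2,3,6,7,8] (.node (.cons (.keep [4,5,6,7,9] (.node (.cons (.leaf 1 [(5,1)]) (.cons (.leaf 1 [(2,1)]) (.cons (.leaf 1 [(5,1),(1,1)]) (.cons (.leaf 1 []) .nil)))))) (.cons (.keep [2,6,7,8,9] (.node (.cons (.leaf 1 []) (.cons (.leaf 1 [(7,1),(2,1),(8,1)]) (.cons (.leaf 1 [(1,1)]) (.cons (.leaf 1 [(7,1),(8,1)]) .nil)))))) (.cons (.keep [1,5,6,7,8,9] (.node (.cons (.leaf 1 [(8,2),(7,1),(9,2)]) (.cons (.leaf 1 [(8,1),(2,2),(3,1),(6,1)]) (.cons (.leaf 1 [(1,1),(7,1),(8,2),(9,2)])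 (.cons (.leaf 1 [(8,1),(9,1)]) .nil)))))) (.cons (.keep [0,3,5,6,7] (.node (.cons (.keep [2,6,7,8,9] (.node (.cons (.leaf 1 [(5,1),(6,1),(7,1)]) (.cons (.leaf 1 [(2,1),(7,1)]) (.cons (.leaf 1 [(5,1),(1,1),(7,1),(6,1)]) (.cons (.leaf 1 [(7,1)]) .nil)))))) (.cons (.leaf 1 [(9,1),(2,1),(7,1)]) (.cons (.keep [1,5,7,8,9] (.node (.cons (.leaf 2 [(7,2),(9,1)]) (.cons (.leaf 1 [(7,1),(2,1)]) (.cons (.leaf 2 [(7,2),(1,1),(9,1)]) (.cons (.leaf 1 [(7,1)]) .nil)))))) (.cons (.leaf 1 [(9,1),(7,1)]) .nil)))))) .nil)))))) (.cons (.keep [1,4,5,7,8] (.node (.cons (.keep [4,5,6,8,9] (.node (.cons (.leaf 2 [(8,1),(5,2),(6,2)]) (.cons (.leaf 2 [(8,1),(2,2),(6,2)]) (.cons (.leaf 2 [(8,1),(5,2),(6,2),(1,2)]) (.cons (.leaf 2 [(8,1),(6,2)]) .nil)))))) (.cons (.keep [2,5,6,8,9] (.node (.cons (.leaf 1 [(8,1),(5,1),(6,1)]) (.cons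 (.leaf 1 [(8,1),(2,1),(7,1),(6,1)]) (.cons (.leaf 1 [(8,1),(6,1),(1,1),(5,1)]) (.cons (.leaf 1 [(8,1),(6,1),(7,1)]) .nil)))))) (.cons (.keep [1,5,6,8,9] (.node (.cons (.leaf 1 [(6,1),(8,2),(7,2)]) (.cons (.leaf 1 [(6,1),(2,2),(3,1)]) (.cons (.leaf 1 [(7,2),(8,2),(1,1),(6,1)]) (.cons (.leaf 1 [(7,1),(6,1),(8,1)]) .nil)))))) (.cons (.keep [0,3,5,6,8] (.node (.cons (.keep [2,5,7,8,9] (.node (.cons (.leaf 2 [(5,1),(7,1),(9,1)]) (.cons (.leaf 1 [(2,1),(9,1)]) (.cons (.leaf 1 [(5,1),(7,1),(4,1),(1,1)]) (.cons (.leaf 1 [(9,1)]) .nil)))))) (.cons (.leaf 1 [(2,1),(7,1)]) (.cons (.keep [1,5,7,8,9] (.node (.cons (.leaf 2 [(9,1),(7,1)]) (.cons (.leaf 1 [(2,1),(9,1)]) (.cons (.leaf 1 [(4,1),(7,1),(1,1)]) (.cons (.leaf 1 [(9,1)]) .nil)))))) (.cons (.leaf 1 [(7,1)]) .nil)))))) .nil)))))) (.cons (.keep [0,3,6,7,8] (.node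 (.cons (.keep [2,6,7,9] (.node (.cons (.leaf 1 [(7,1),(5,1),(6,2)]) (.cons (.leaf 1 [(7,1),(2,1),(6,1)]) (.cons (.leaf 1 [(7,1),(5,1),(6,2),(1,1)]) (.cons (.leaf 1 [(7,1),(6,1)]) .nil)))))) (.cons (.keep [2,3,6,7,9] (.node (.cons (.leaf 1 [(8,1),(7,1)]) (.cons (.leaf 1 [(8,1),(2,1),(6,1),(7,1)]) (.cons (.leaf 1 [(8,1),(7,1),(1,1)]) (.cons (.leaf 1 [(8,1),(7,1),(6,1)]) .nil)))))) (.cons (.keep [1,4,5,7,9] (.node (.cons (.leaf 1 [(8,1),(6,2)]) (.cons (.leaf 1 [(8,1),(2,2),(3,1)]) (.cons (.leaf 1 [(8,1),(6,2),(1,1)]) (.cons (.leaf 1 [(8,1),(6,1)]) .nil)))))) (.cons (.keep [0,3,6,7] (.node (.cons (.keep [2,5,7,8] (.node (.cons (.leaf 2 [(5,1),(8,1)]) (.cons (.leaf 1 [(2,1)]) (.cons (.leaf 2 [(5,1),(8,1),(1,1)]) (.cons (.leaf 1 []) .nil)))))) (.cons (.leaf 1 [(2,1),(8,1)]) (.cons (.keep [1,5,7,8] (.node (.cons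 (.leaf 2 [(8,1)]) (.cons (.leaf 1 [(2,1)]) (.cons (.leaf 2 [(8,1),(1,1)]) (.cons (.leaf 1 []) .nil)))))) (.cons (.leaf 1 [(8,1)]) .nil)))))) .nil)))))) .nil)))))) (.cons (.keep [1,4,5,6,7] (.node (.cons (.leaf 1 [(6,2)]) (.cons (.leaf 1 [(3,1),(2,2)]) (.cons (.leaf 1 [(6,2),(1,1)]) (.cons (.leaf 1 [(6,1)]) .nil)))))) (.cons (.keep [0,1,5,6,7] (.node (.cons (.keep [2,6,7,8,9] (.node (.cons (.leaf 2 [(5,1),(8,1)]) (.cons (.leaf 1 [(2,1),(8,1)]) (.cons (.leaf 1 [(5,1),(4,1),(1,1)]) (.cons (.leaf 1 [(8,1)]) .nil)))))) (.cons (.leaf 1 [(2,1)]) (.cons (.keep [1,5,6,7,8,9] (.node (.cons (.leaf 2 [(9,1)]) (.cons (.leaf 1 [(2,1),(9,1)]) (.cons (.leaf 1 [(4,1),(1,1)]) (.cons (.leaf 1 [(9,1)]) .nil)))))) (.cons (.leaf 1 []) .nil)))))) .nil)))))) (.cons (.keep [2,3,7,8] (.node (.cons (.keep [2,5,6,7] (.node (.cons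 (.leaf 1 [(7,2),(5,1)]) (.cons (.leaf 1 [(7,1),(2,1)]) (.cons (.leaf 1 [(7,2),(5,1),(1,1)]) (.cons (.leaf 1 [(7,1)]) .nil)))))) (.cons (.keep [2,3,5,6,7] (.node (.cons (.leaf 1 [(8,1)]) (.cons (.leaf 1 [(8,1),(2,1),(6,1)]) (.cons (.leaf 1 [(1,1),(8,1)]) (.cons (.leaf 1 [(6,1),(8,1)]) .nil)))))) (.cons (.keep [1,4,5,7] (.node (.cons (.leaf 1 [(6,2)]) (.cons (.leaf 1 [(3,1),(2,2)]) (.cons (.leaf 1 [(6,2),(1,1)]) (.cons (.leaf 1 [(6,1)]) .nil)))))) (.cons (.keep [0,3,5,6,7] (.node (.cons (.keep [2,7,8,9] (.node (.cons (.leaf 2 [(5,1),(6,1),(7,1)]) (.cons (.leaf 1 [(2,1),(6,1),(7,1)]) (.cons (.leaf 1 [(5,1),(4,1),(1,1)]) (.cons (.leaf 1 [(7,1),(6,1)]) .nil)))))) (.cons (.leaf 1 [(2,1)]) (.cons (.keep [1,5,7,8,9] (.node (.cons (.leaf 2 [(8,1),(7,1)]) (.cons (.leaf 1 [(2,1),(7,1),(8,1)]) (.cons (.leaf 1 [(4,1),(1,1)])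 (.cons (.leaf 1 [(8,1),(7,1)]) .nil)))))) (.cons (.leaf 1 []) .nil)))))) .nil)))))) (.cons (.keep [1,4,6,7,8] (.node (.cons (.keep [4,5,6,7,9] (.node (.cons (.leaf 1 [(8,1),(6,1),(5,1)]) (.cons (.leaf 1 [(8,1),(6,1),(2,1)]) (.cons (.leaf 1 [(8,1),(5,1),(1,1),(6,1)]) (.cons (.leaf 1 [(8,1),(6,1)]) .nil)))))) (.cons (.keep [2,3,5,7,9] (.node (.cons (.leaf 1 [(8,1),(7,1)]) (.cons (.leaf 1 [(8,1),(2,1),(7,1),(6,1)]) (.cons (.leaf 1 [(8,1),(7,1),(1,1)]) (.cons (.leaf 1 [(8,1),(7,1),(6,1)]) .nil)))))) (.cons (.keep [1,4,5,6,7,9] (.node (.cons (.leaf 1 [(6,2)]) (.cons (.leaf 1 [(3,1),(2,2)]) (.cons (.leaf 1 [(6,2),(1,1)]) (.cons (.leaf 1 [(6,1)]) .nil)))))) (.cons (.keep [0,3,5,6,7] (.node (.cons (.keep [2,6,7,8,9] (.node (.cons (.leaf 2 [(5,1),(9,1)]) (.cons (.leaf 1 [(2,1),(9,1)]) (.cons (.leaf 1 [(5,1),(4,1),(1,1)])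 (.cons (.leaf 1 [(9,1)]) .nil)))))) (.cons (.leaf 1 [(2,1)]) (.cons (.keep [1,5,7,8,9] (.node (.cons (.leaf 2 [(9,1)]) (.cons (.leaf 1 [(2,1),(9,1)]) (.cons (.leaf 1 [(4,1),(1,1)]) (.cons (.leaf 1 [(9,1)]) .nil)))))) (.cons (.leaf 1 []) .nil)))))) .nil)))))) (.cons (.keep [0,1,6,7,8] (.node (.cons (.keep [2,6,7,8] (.node (.cons (.leaf 1 [(7,2),(6,2),(5,1)]) (.cons (.leaf 1 [(7,1),(6,1),(2,1)]) (.cons (.leaf 1 [(7,2),(6,2),(5,1),(1,1)]) (.cons (.leaf 1 [(7,1),(6,1)]) .nil)))))) (.cons (.keep [2,3,6,7,9] (.node (.cons (.leaf 1 [(8,1),(7,1)]) (.cons (.leaf 1 [(8,1),(2,1),(7,1),(6,1)]) (.cons (.leaf 1 [(8,1),(7,1),(1,1)]) (.cons (.leaf 1 [(8,1),(7,1),(6,1)]) .nil)))))) (.cons (.keep [1,4,5,6,7,8] (.node (.cons (.leaf 1 [(6,2)]) (.cons (.leaf 1 [(3,1),(2,2)]) (.cons (.leaf 1 [(6,2),(1,1)]) (.cons (.leaf 1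 [(6,1)]) .nil)))))) (.cons (.keep [0,3,6,7] (.node (.cons (.keep [2,5,7,8] (.node (.cons (.leaf 2 [(5,1),(8,1)]) (.cons (.leaf 1 [(2,1),(8,1)]) (.cons (.leaf 1 [(5,1),(4,1),(1,1)]) (.cons (.leaf 1 [(8,1)]) .nil)))))) (.cons (.leaf 1 [(2,1)]) (.cons (.keep [1,5,7,8] (.node (.cons (.leaf 2 [(8,1)]) (.cons (.leaf 1 [(2,1),(8,1)]) (.cons (.leaf 1 [(4,1),(1,1)]) (.cons (.leaf 1 [(8,1)]) .nil)))))) (.cons (.leaf 1 []) .nil)))))) .nil)))))) .nil)))))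

theorem c_20_24_0 : Concl 20 24 z_20_24_0 h_20_24_0 .nd := piece _ hP_nil t_20_24_0 _ _ (by
  decide +kernel)

def t_20_24 : T := (.keep [0,1,2] (.node (.cons (.keep [2,4,5,6,7] (.leaf 0 [(0,0)])) (.cons (.keep [2,3,5,6] (.node (.cons (.keep [2,5,6,8] (.node (.cons (.keep [4,5,7,8] (.node (.cons (.keep [4,5,6,7,8] (.node (.cons (.keep [4,6,7,8,9] (.node (.cons (.leaf 1 [(5,1)]) (.cons (.leaf 1 [(2,1)]) (.cons (.leaf 1 [(5,1),(1,1)]) (.cons (.leaf 1 []) .nil)))))) (.cons (.keep [5,6,7,8,9] (.node (.cons (.keep [2,6,7,8,9] (.node (.cons (.leaf 2 [(5,1),(6,1)]) (.cons (.leaf 1 [(2,1),(6,1)]) (.cons (.leaf 1 [(5,1),(4,1),(1,1)]) (.cons (.leaf 1 [(6,1)]) .nil)))))) (.cons (.leaf 1 [(2,1)]) (.cons (.keep [1,6,7,8,9] (.node (.cons (.leaf 2 [(6,1)]) (.cons (.leaf 1 [(2,1),(6,1)]) (.cons (.leaf 1 [(4,1),(1,1)])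 (.cons (.leaf 1 [(6,1)]) .nil)))))) (.cons (.leaf 1 []) .nil)))))) (.cons (.keep [1,4,5,6,7,8] (.node (.cons (.leaf 1 [(6,1)]) (.cons (.leaf 1 [(2,1)]) (.cons (.leaf 1 [(6,1),(1,1)]) (.cons (.leaf 1 []) .nil)))))) (.cons (.keep [0,1,5,6,8] (.node (.cons (.keep [2,6,7,8,9] (.node (.cons (.leaf 2 [(5,1),(8,1)]) (.cons (.leaf 1 [(2,1),(8,1)]) (.cons (.leaf 1 [(5,1),(4,1),(1,1)]) (.cons (.leaf 1 [(8,1)]) .nil)))))) (.cons (.leaf 1 [(2,1)]) (.cons (.keep [1,5,6,7,8,9] (.node (.cons (.leaf 2 [(9,1)]) (.cons (.leaf 1 [(2,1),(9,1)]) (.cons (.leaf 1 [(4,1),(1,1)]) (.cons (.leaf 1 [(9,1)]) .nil)))))) (.cons (.leaf 1 []) .nil)))))) .nil)))))) (.cons (.keep [2,5,6,7,8] (.node (.cons (.keep [4,5,7,8,9] (.node (.cons (.leaf 1 [(5,1)]) (.cons (.leaf 1 [(2,1)]) (.cons (.leaf 1 [(5,1),(1,1)]) (.cons (.leaf 1 []) .nil))))))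 (.cons (.keep [3,5,6,7,8,9] (.node (.cons (.leaf 1 [(9,1),(7,1)]) (.cons (.leaf 1 [(2,1)]) (.cons (.leaf 1 [(9,1),(7,1),(1,1)]) (.cons (.leaf 1 []) .nil)))))) (.cons (.keep [4,5,6,7,8] (.node (.cons (.leaf 1 [(5,1)]) (.cons (.leaf 1 [(2,1)]) (.cons (.leaf 1 [(5,1),(1,1)]) (.cons (.leaf 1 []) .nil)))))) (.cons (.keep [0,3,5,6,8] (.node (.cons (.keep [2,6,7,8,9] (.node (.cons (.leaf 2 [(5,1),(8,1)]) (.cons (.leaf 1 [(2,1),(8,1)]) (.cons (.leaf 1 [(5,1),(4,1),(1,1)]) (.cons (.leaf 1 [(8,1)]) .nil)))))) (.cons (.leaf 1 [(2,1)]) (.cons (.keep [1,5,7,8,9] (.node (.cons (.leaf 2 [(8,1)]) (.cons (.leaf 1 [(2,1),(8,1)]) (.cons (.leaf 1 [(4,1),(1,1)]) (.cons (.leaf 1 [(8,1)]) .nil)))))) (.cons (.leaf 1 []) .nil)))))) .nil)))))) (.cons (.keep [1,5,6,7,8] (.node (.cons (.keep [4,5,6,7,8] (.node (.cons (.leaf 1 [(5,1)])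 (.cons (.leaf 1 [(2,1)]) (.cons (.leaf 1 [(5,1),(1,1)]) (.cons (.leaf 1 []) .nil)))))) (.cons (.keep [5,6,7,8,9] (.node (.cons (.leaf 1 [(5,2),(6,2),(8,1)]) (.cons (.leaf 1 [(2,1)]) (.cons (.leaf 1 [(8,1),(5,2),(6,2),(1,1)]) (.cons (.leaf 1 []) .nil)))))) (.cons (.keep [4,5,6,7,8] (.node (.cons (.leaf 1 [(5,1)]) (.cons (.leaf 1 [(2,1)]) (.cons (.leaf 1 [(5,1),(1,1)]) (.cons (.leaf 1 []) .nil)))))) (.cons (.keep [0,3,5,6,8] (.node (.cons (.keep [2,6,7,8,9] (.node (.cons (.leaf 2 [(5,1),(8,1)]) (.cons (.leaf 1 [(2,1),(8,1)]) (.cons (.leaf 1 [(5,1),(4,1),(1,1)]) (.cons (.leaf 1 [(8,1)]) .nil)))))) (.cons (.leaf 1 [(2,1)]) (.cons (.keep [1,5,7,8,9] (.node (.cons (.leaf 2 [(8,1)]) (.cons (.leaf 1 [(2,1),(8,1)]) (.cons (.leaf 1 [(4,1),(1,1)]) (.cons (.leaf 1 [(8,1)]) .nil)))))) (.cons (.leaf 1 []) .nil))))))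 .nil)))))) (.cons (.keep [0,1,5,7,8] (.node (.cons (.keep [4,5,6,7,8] (.node (.cons (.leaf 1 [(5,1)]) (.cons (.leaf 1 [(2,1)]) (.cons (.leaf 1 [(5,1),(1,1)]) (.cons (.leaf 1 []) .nil)))))) (.cons (.keep [2,3,5,6,7] (.node (.cons (.leaf 1 [(5,1),(8,1),(9,1)]) (.cons (.leaf 1 [(2,1)]) (.cons (.leaf 1 [(5,1),(8,1),(9,1),(1,1)]) (.cons (.leaf 1 []) .nil)))))) (.cons (.keep [4,5,6,7,8] (.node (.cons (.leaf 1 [(5,1)]) (.cons (.leaf 1 [(2,1)]) (.cons (.leaf 1 [(5,1),(1,1)]) (.cons (.leaf 1 []) .nil)))))) (.cons (.keep [0,3,6,7] (.node (.cons (.keep [2,5,7,8] (.node (.cons (.leaf 2 [(5,1),(8,1)]) (.cons (.leaf 1 [(2,1),(8,1)]) (.cons (.leaf 1 [(5,1),(4,1),(1,1)]) (.cons (.leaf 1 [(8,1)]) .nil)))))) (.cons (.leaf 1 [(2,1)]) (.cons (.keep [1,5,7,8] (.node (.cons (.leaf 2 [(8,1)]) (.cons (.leaf 1 [(2,1),(8,1)])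 (.cons (.leaf 1 [(4,1),(1,1)]) (.cons (.leaf 1 [(8,1)]) .nil)))))) (.cons (.leaf 1 []) .nil)))))) .nil)))))) .nil)))))) (.cons (.keep [2,3,5,7,8] (.node (.cons (.keep [2,5,8,9] (.node (.cons (.keep [4,5,6,7,8] (.node (.cons (.leaf 1 [(5,1),(9,1),(8,1)]) (.cons (.leaf 1 [(2,1),(9,1),(8,1)]) (.cons (.leaf 1 [(5,1),(9,1),(8,1),(1,1)]) (.cons (.leaf 1 [(8,1),(9,1)]) .nil)))))) (.cons (.keep [2,5,6,7,8] (.node (.cons (.keep [2,5,6,8,9] (.node (.cons (.leaf 2 [(5,1),(9,1),(8,1)]) (.cons (.leaf 1 [(2,1)]) (.cons (.leaf 2 [(5,1),(9,1),(8,1),(1,1)]) (.cons (.leaf 1 []) .nil)))))) (.cons (.leaf 1 [(2,1),(9,1),(8,1)]) (.cons (.keep [1,5,7,8,9] (.node (.cons (.leaf 2 [(9,1),(8,1)]) (.cons (.leaf 1 [(2,1)]) (.cons (.leaf 2 [(9,1),(8,1),(1,1)]) (.cons (.leaf 1 []) .nil)))))) (.cons (.leaf 1 [(8,1),(9,1)]) .nil))))))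 (.cons (.keep [1,4,5,6,7] (.node (.cons (.leaf 1 [(6,2),(9,1)]) (.cons (.leaf 1 [(2,2),(9,1),(3,1)]) (.cons (.leaf 1 [(1,1),(6,2),(9,1)]) (.cons (.leaf 1 [(6,1),(9,1)]) .nil)))))) (.cons (.keep [0,1,5,7] (.node (.cons (.keep [2,6,7,8] (.node (.cons (.leaf 2 [(5,1),(8,1)]) (.cons (.leaf 1 [(2,1)]) (.cons (.leaf 2 [(5,1),(8,1),(1,1)]) (.cons (.leaf 1 []) .nil)))))) (.cons (.leaf 1 [(2,1),(8,1)]) (.cons (.keep [1,5,6,7,8] (.node (.cons (.leaf 2 [(9,1)]) (.cons (.leaf 1 [(2,1)]) (.cons (.leaf 2 [(9,1),(1,1)]) (.cons (.leaf 1 []) .nil)))))) (.cons (.leaf 1 [(8,1)]) .nil)))))) .nil)))))) (.cons (.keep [2,3,6,7,8,9] (.node (.cons (.keep [4,5,6,7,8] (.node (.cons (.leaf 1 [(5,1),(8,1)]) (.cons (.leaf 1 [(2,1),(8,1)]) (.cons (.leaf 1 [(1,1),(5,1),(8,1)]) (.cons (.leaf 1 [(8,1)]) .nil)))))) (.cons (.keep [5,6,7,8,9,10]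 (.node (.cons (.leaf 1 [(9,1)]) (.cons (.leaf 1 [(2,1),(7,1)]) (.cons (.leaf 1 [(1,1),(9,1)]) (.cons (.leaf 1 [(7,1)]) .nil)))))) (.cons (.keep [4,5,6,7,8,9] (.node (.cons (.leaf 1 [(5,1),(8,1)]) (.cons (.leaf 1 [(2,1),(8,1)]) (.cons (.leaf 1 [(1,1),(5,1),(8,1)]) (.cons (.leaf 1 [(8,1)]) .nil)))))) (.cons (.keep [0,3,5,6,7] (.node (.cons (.keep [2,6,7,8,9] (.node (.cons (.leaf 1 [(5,1),(6,1)]) (.cons (.leaf 1 [(2,1)]) (.cons (.leaf 1 [(5,1),(6,1),(1,1)]) (.cons (.leaf 1 []) .nil)))))) (.cons (.leaf 1 [(2,1),(9,1)]) (.cons (.keep [1,5,7,8,9] (.node (.cons (.leaf 2 [(9,1)]) (.cons (.leaf 1 [(2,1)]) (.cons (.leaf 2 [(9,1),(1,1)]) (.cons (.leaf 1 []) .nil)))))) (.cons (.leaf 1 [(9,1)]) .nil)))))) .nil)))))) (.cons (.keep [1,5,8,9] (.node (.cons (.keep [4,5,6,7,8] (.node (.cons (.leaf 2 [(8,1),(5,2),(6,2)])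 (.cons (.leaf 2 [(8,1),(2,2),(6,2)]) (.cons (.leaf 2 [(8,1),(6,2),(1,2),(5,2)]) (.cons (.leaf 2 [(8,1),(6,2)]) .nil)))))) (.cons (.keep [2,5,6,7,8] (.node (.cons (.leaf 1 [(5,1),(6,1)]) (.cons (.leaf 1 [(8,1),(2,1),(9,1),(6,1)]) (.cons (.leaf 1 [(5,1),(6,1),(1,1)]) (.cons (.leaf 1 [(8,1),(6,1),(9,1)]) .nil)))))) (.cons (.keep [1,4,5,6,7] (.node (.cons (.leaf 1 [(9,1),(6,2),(7,1)]) (.cons (.leaf 1 [(3,1),(2,2),(9,1),(7,1)]) (.cons (.leaf 1 [(9,1),(7,1),(1,1),(6,2)]) (.cons (.leaf 1 [(6,1),(7,1),(9,1)]) .nil)))))) (.cons (.keep [0,1,5,7] (.node (.cons (.keep [2,5,7,8] (.node (.cons (.leaf 2 [(5,1),(7,1),(8,1)]) (.cons (.leaf 1 [(2,1)]) (.cons (.leaf 2 [(5,1),(7,1),(8,1),(1,1)]) (.cons (.leaf 1 []) .nil)))))) (.cons (.leaf 1 [(8,1),(2,1),(7,1)]) (.cons (.keep [1,5,7,8] (.node (.cons (.leaf 2 [(7,1),(8,1)])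 (.cons (.leaf 1 [(2,1)]) (.cons (.leaf 2 [(7,1),(8,1),(1,1)]) (.cons (.leaf 1 []) .nil)))))) (.cons (.leaf 1 [(8,1),(7,1)]) .nil)))))) .nil)))))) (.cons (.keep [0,3,6,8,9] (.node (.cons (.keep [4,5,6,7,8] (.node (.cons (.leaf 1 [(5,1),(8,1)]) (.cons (.leaf 1 [(2,1),(8,1)]) (.cons (.leaf 1 [(1,1),(5,1),(8,1)]) (.cons (.leaf 1 [(8,1)]) .nil)))))) (.cons (.keep [2,3,5,6,7] (.node (.cons (.leaf 1 [(5,1),(8,1),(9,1)]) (.cons (.leaf 1 [(2,1),(9,1)]) (.cons (.leaf 1 [(5,1),(8,1),(9,1),(1,1)]) (.cons (.leaf 1 [(9,1)]) .nil)))))) (.cons (.keep [4,5,6,7,8] (.node (.cons (.leaf 1 [(5,1),(8,1)]) (.cons (.leaf 1 [(2,1),(8,1)]) (.cons (.leaf 1 [(1,1),(5,1),(8,1)]) (.cons (.leaf 1 [(8,1)]) .nil)))))) (.cons (.keep [0,3,6,7] (.node (.cons (.keep [2,5,7,8] (.node (.cons (.leaf 2 [(5,1),(8,1)]) (.cons (.leaf 1 [(2,1)])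 (.cons (.leaf 2 [(5,1),(8,1),(1,1)]) (.cons (.leaf 1 []) .nil)))))) (.cons (.leaf 1 [(2,1),(8,1)]) (.cons (.keep [1,5,7,8] (.node (.cons (.leaf 2 [(8,1)]) (.cons (.leaf 1 [(2,1)]) (.cons (.leaf 2 [(8,1),(1,1)]) (.cons (.leaf 1 []) .nil)))))) (.cons (.leaf 1 [(8,1)]) .nil)))))) .nil)))))) .nil)))))) (.cons (.keep [1,4,5,7,8] (.node (.cons (.leaf 1 [(8,1),(6,2)]) (.cons (.leaf 1 [(8,1),(2,2),(3,1)]) (.cons (.leaf 1 [(8,1),(6,2),(1,1)]) (.cons (.leaf 1 [(8,1),(6,1)]) .nil)))))) (.cons (.keep [0,1,5,7] (.node (.cons (.keep [2,6,7,8] (.node (.cons (.leaf 2 [(5,1),(8,1)]) (.cons (.leaf 1 [(2,1)]) (.cons (.leaf 2 [(5,1),(8,1),(1,1)]) (.cons (.leaf 1 []) .nil)))))) (.cons (.leaf 1 [(2,1),(8,1)]) (.cons (.keep [1,5,6,7,8] (.node (.cons (.leaf 2 [(9,1)]) (.cons (.leaf 1 [(2,1)]) (.cons (.leaf 2 [(9,1),(1,1)])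 (.cons (.leaf 1 []) .nil)))))) (.cons (.leaf 1 [(8,1)]) .nil)))))) .nil)))))) (.cons (.keep [2,3,6,7,8] (.node (.cons (.keep [4,5,6,7,9] (.node (.cons (.leaf 1 [(8,1),(5,1),(7,1)]) (.cons (.leaf 1 [(8,1),(2,1),(7,1)]) (.cons (.leaf 1 [(8,1),(5,1),(7,1),(1,1)]) (.cons (.leaf 1 [(8,1),(7,1)]) .nil)))))) (.cons (.keep [2,3,5,6,7,9] (.node (.cons (.leaf 1 [(9,1),(8,1)]) (.cons (.leaf 1 [(9,1),(2,1),(6,1),(8,1)]) (.cons (.leaf 1 [(9,1),(8,1),(1,1)]) (.cons (.leaf 1 [(9,1),(8,1),(6,1)]) .nil)))))) (.cons (.keep [1,4,5,7,9] (.node (.cons (.leaf 1 [(8,1),(6,2)]) (.cons (.leaf 1 [(8,1),(2,2),(3,1)]) (.cons (.leaf 1 [(8,1),(6,2),(1,1)]) (.cons (.leaf 1 [(8,1),(6,1)]) .nil)))))) (.cons (.keep [0,3,5,6,7] (.node (.cons (.keep [2,6,7,8,9] (.node (.cons (.leaf 1 [(5,1),(6,1)]) (.cons (.leaf 1 [(2,1)]) (.cons (.leaf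 1 [(5,1),(6,1),(1,1)]) (.cons (.leaf 1 []) .nil)))))) (.cons (.leaf 1 [(2,1),(9,1)]) (.cons (.keep [1,5,7,8,9] (.node (.cons (.leaf 2 [(9,1)]) (.cons (.leaf 1 [(2,1)]) (.cons (.leaf 2 [(9,1),(1,1)]) (.cons (.leaf 1 []) .nil)))))) (.cons (.leaf 1 [(9,1)]) .nil)))))) .nil)))))) (.cons (.keep [1,4,5,8] (.node (.cons (.keep [4,5,6,8] (.node (.cons (.leaf 1 [(5,1),(6,1)]) (.cons (.leaf 1 [(2,1),(6,1)]) (.cons (.leaf 1 [(5,1),(6,1),(1,1)]) (.cons (.leaf 1 [(6,1)]) .nil)))))) (.cons (.keep [2,3,5,8] (.node (.cons (.leaf 1 [(7,1)]) (.cons (.leaf 1 [(2,1),(6,1),(7,1)]) (.cons (.leaf 1 [(7,1),(1,1)]) (.cons (.leaf 1 [(7,1),(6,1)]) .nil)))))) (.cons (.keep [1,4,5,6,8] (.node (.cons (.leaf 1 [(7,1),(6,2),(8,1)]) (.cons (.leaf 1 [(7,1),(2,2),(8,1),(3,1)]) (.cons (.leaf 1 [(8,1),(6,2),(1,1),(7,1)]) (.cons (.leaf 1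 [(7,1),(6,1),(8,1)]) .nil)))))) (.cons (.keep [0,1,5,6] (.node (.cons (.keep [2,5,7,8] (.node (.cons (.leaf 2 [(5,1),(7,1),(8,1)]) (.cons (.leaf 1 [(2,1)]) (.cons (.leaf 2 [(5,1),(7,1),(8,1),(1,1)]) (.cons (.leaf 1 []) .nil)))))) (.cons (.leaf 1 [(8,1),(2,1),(7,1)]) (.cons (.keep [1,5,7,8] (.node (.cons (.leaf 2 [(7,1),(8,1)]) (.cons (.leaf 1 [(2,1)]) (.cons (.leaf 2 [(7,1),(8,1),(1,1)]) (.cons (.leaf 1 []) .nil)))))) (.cons (.leaf 1 [(8,1),(7,1)]) .nil)))))) .nil)))))) (.cons (.keep [0,3,5,6,8] (.node (.cons (.keep [2,5,6,8] (.node (.cons (.leaf 1 [(8,1),(5,1),(7,2)]) (.cons (.leaf 1 [(8,1),(2,1),(7,1)]) (.cons (.leaf 1 [(8,1),(5,1),(7,2),(1,1)]) (.cons (.leaf 1 [(8,1),(7,1)]) .nil)))))) (.cons (.keep [2,3,6,8,9] (.node (.cons (.leaf 1 [(8,1),(7,1)]) (.cons (.leaf 1 [(8,1),(2,1),(6,1),(7,1)]) (.cons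 (.leaf 1 [(8,1),(7,1),(1,1)]) (.cons (.leaf 1 [(8,1),(7,1),(6,1)]) .nil)))))) (.cons (.keep [1,4,5,8] (.node (.cons (.leaf 1 [(8,1),(6,2)]) (.cons (.leaf 1 [(8,1),(2,2),(3,1)]) (.cons (.leaf 1 [(8,1),(6,2),(1,1)]) (.cons (.leaf 1 [(8,1),(6,1)]) .nil)))))) (.cons (.keep [0,3,6,8] (.node (.cons (.keep [2,5,7,8] (.node (.cons (.leaf 2 [(5,1),(8,1)]) (.cons (.leaf 1 [(2,1)]) (.cons (.leaf 2 [(5,1),(8,1),(1,1)]) (.cons (.leaf 1 []) .nil)))))) (.cons (.leaf 1 [(2,1),(8,1)]) (.cons (.keep [1,5,7,8] (.node (.cons (.leaf 2 [(8,1)]) (.cons (.leaf 1 [(2,1)]) (.cons (.leaf 2 [(8,1),(1,1)]) (.cons (.leaf 1 []) .nil)))))) (.cons (.leaf 1 [(8,1)]) .nil)))))) .nil)))))) .nil)))))) (.cons (.leaf 1 [(4,1)]) (.cons (.leaf 1 []) .nil))))))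

theorem e_20_24 : ESB (caseOf 4 20 24) := esb_of_pieces _ (hP_cons c_20_24_0 hP_nil) t_20_24 (by
  decide +kernel)

def t_20_25 : T := (.keep [0,1,2] (.node (.cons (.keep [0,4,5,6,8] (.node (.cons (.keep [2,4,6,7,9] (.node (.cons (.leaf 1 [(7,1)]) (.cons (.leaf 1 [(7,1),(3,1)]) (.cons (.leaf 1 [(7,1),(3,1)]) (.cons (.leaf 1 [(5,1)]) (.cons (.leaf 1 [(5,1)]) (.cons (.leaf 1 []) .nil)))))))) (.cons (.keep [2,3,6,7,8] (.node (.cons (.leaf 1 [(10,1)]) (.cons (.leaf 1 [(10,1),(3,1)]) (.cons (.leaf 1 [(10,1),(3,1)]) (.cons (.leaf 1 [(5,1)]) (.cons (.leaf 1 [(5,1)]) (.cons (.leaf 1 []) .nil)))))))) (.cons (.keep [2,3,7,8,10] (.node (.cons (.leaf 1 [(9,1)]) (.cons (.leaf 1 [(9,1),(3,1)]) (.cons (.leaf 1 [(9,1),(3,1)]) (.cons (.leaf 1 [(5,1)]) (.cons (.leaf 1 [(5,1)]) (.cons (.leaf 1 []) .nil)))))))) (.cons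 (.keep [0,1,4,5,6] (.node (.cons (.leaf 1 [(8,1)]) (.cons (.leaf 1 [(8,1),(3,1)]) (.cons (.leaf 1 [(8,1),(3,1)]) (.cons (.leaf 1 [(5,1)]) (.cons (.leaf 1 [(5,1)]) (.cons (.leaf 1 []) .nil)))))))) (.cons (.keep [1,3,5,6,8] (.node (.cons (.leaf 1 [(10,1)]) (.cons (.leaf 1 [(10,1),(3,1)]) (.cons (.leaf 1 [(10,1),(3,1)]) (.cons (.leaf 1 [(5,1)]) (.cons (.leaf 1 [(5,1)]) (.cons (.leaf 1 []) .nil)))))))) (.cons (.keep [0,3,7,8] (.node (.cons (.leaf 1 [(9,1)]) (.cons (.leaf 1 [(9,1),(3,1)]) (.cons (.leaf 1 [(9,1),(3,1)]) (.cons (.leaf 1 [(5,1)]) (.cons (.leaf 1 [(5,1)]) (.cons (.leaf 1 []) .nil)))))))) .nil)))))))) (.cons (.keep [3,5,6,7,8] (.node (.cons (.keep [5,6,7,8,9] (.node (.cons (.leaf 1 [(8,1)]) (.cons (.leaf 1 [(8,1),(3,1)]) (.cons (.leaf 1 [(8,1),(3,1)]) (.cons (.leaf 1 [(7,1),(5,1)]) (.cons (.leaf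 1 [(7,1),(5,1)]) (.cons (.leaf 1 [(7,1)]) .nil)))))))) (.cons (.keep [3,5,7,9,10] (.node (.cons (.leaf 1 [(8,1)]) (.cons (.leaf 1 [(8,1),(3,1)]) (.cons (.leaf 1 [(8,1),(3,1)]) (.cons (.leaf 1 [(8,1),(6,1),(5,1)]) (.cons (.leaf 1 [(3,1),(7,1),(5,1),(8,1)]) (.cons (.leaf 1 [(8,1),(6,1)]) .nil)))))))) (.cons (.keep [2,3,7,9,10] (.node (.cons (.leaf 1 [(8,1)]) (.cons (.leaf 1 [(8,1),(3,1)]) (.cons (.leaf 1 [(8,1),(3,1)]) (.cons (.leaf 1 [(6,1),(7,1),(5,1)]) (.cons (.leaf 1 [(3,1),(5,1),(6,1)]) (.cons (.leaf 1 [(6,1),(7,1)]) .nil)))))))) (.cons (.keep [1,5,6,7,10] (.node (.cons (.leaf 1 [(9,1)]) (.cons (.leaf 1 [(9,1),(3,1)]) (.cons (.leaf 1 [(9,1),(3,1)]) (.cons (.leaf 1 [(8,1),(5,1)]) (.cons (.leaf 1 [(8,1),(5,1)]) (.cons (.leaf 1 [(8,1)]) .nil)))))))) (.cons (.keep [1,5,6,7,9,10] (.node (.cons (.leaf 1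 [(9,1)]) (.cons (.leaf 1 [(9,1),(3,1)]) (.cons (.leaf 1 [(9,1),(3,1)]) (.cons (.leaf 1 [(8,1),(5,1)]) (.cons (.leaf 1 [(8,1),(5,1)]) (.cons (.leaf 1 [(8,1)]) .nil)))))))) (.cons (.keep [0,3,6,7,9] (.node (.cons (.leaf 1 [(9,1)]) (.cons (.leaf 1 [(9,1),(3,1)]) (.cons (.leaf 1 [(9,1),(3,1)]) (.cons (.leaf 1 [(8,1),(5,1)]) (.cons (.leaf 1 [(8,1),(5,1)]) (.cons (.leaf 1 [(8,1)]) .nil)))))))) .nil)))))))) (.cons (.keep [2,3,4,6,7] (.node (.cons (.keep [2,4,6,7,8] (.node (.cons (.leaf 1 []) (.cons (.leaf 1 [(3,1)]) (.cons (.leaf 1 [(3,1)]) (.cons (.leaf 1 [(9,1),(5,1)]) (.cons (.leaf 1 [(9,1),(5,1)]) (.cons (.leaf 1 [(9,1)]) .nil)))))))) (.cons (.keep [2,3,6,8,10] (.node (.cons (.leaf 1 []) (.cons (.leaf 1 [(3,1)]) (.cons (.leaf 1 [(3,1)]) (.cons (.leaf 1 [(7,1),(5,1)]) (.cons (.leaf 1 [(7,1),(5,1)]) (.cons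 (.leaf 1 [(7,1)]) .nil)))))))) (.cons (.keep [2,4,7,8,9,10] (.node (.cons (.leaf 1 []) (.cons (.leaf 1 [(3,1)]) (.cons (.leaf 1 [(3,1)]) (.cons (.leaf 1 [(8,1),(5,1)]) (.cons (.leaf 1 [(8,1),(5,1)]) (.cons (.leaf 1 [(8,1)]) .nil)))))))) (.cons (.keep [1,4,5,6,7] (.node (.cons (.leaf 1 []) (.cons (.leaf 1 [(3,1)]) (.cons (.leaf 1 [(3,1)]) (.cons (.leaf 1 [(10,1),(5,1)]) (.cons (.leaf 1 [(10,1),(5,1)]) (.cons (.leaf 1 [(10,1)]) .nil)))))))) (.cons (.keep [1,3,5,6,10] (.node (.cons (.leaf 1 []) (.cons (.leaf 1 [(3,1)]) (.cons (.leaf 1 [(3,1)]) (.cons (.leaf 1 [(7,1),(5,1)]) (.cons (.leaf 1 [(7,1),(5,1)]) (.cons (.leaf 1 [(7,1)]) .nil)))))))) (.cons (.keep [0,4,7,8,10] (.node (.cons (.leaf 1 []) (.cons (.leaf 1 [(3,1)]) (.cons (.leaf 1 [(3,1)]) (.cons (.leaf 1 [(8,1),(5,1)]) (.cons (.leaf 1 [(8,1),(5,1)])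 (.cons (.leaf 1 [(8,1)]) .nil)))))))) .nil)))))))) (.cons (.leaf 1 [(5,1)]) (.cons (.leaf 1 [(5,1)]) (.cons (.leaf 1 []) .nil))))))))

theorem e_20_25 : ESB (caseOf 4 20 25) := esb_of_ok (t := t_20_25) (by decide +kernel)

def t_20_27 : T := (.keep [0,1,2] (.node (.cons (.keep [0,4,5,6,7,9] (.node (.cons (.leaf 1 [(4,1)]) (.cons (.keep [2,3,9,10] (.node (.cons (.leaf 1 [(10,1)]) (.cons (.leaf 1 [(3,1),(10,1)]) (.cons (.leaf 1 [(10,1),(3,1)]) (.cons (.leaf 1 [(10,1),(3,1)]) (.cons (.leaf 1 [(6,1)]) (.cons (.leaf 1 [(6,1)]) (.cons (.leaf 1 [(6,1)]) (.cons (.leaf 1 []) .nil)))))))))) (.cons (.leaf 1 [(10,1),(4,1)]) (.cons (.leaf 1 [(9,1),(2,1),(4,1)]) (.cons (.leaf 1 [(4,1)]) (.cons (.keep [0,1,3,9,10] (.node (.cons (.leaf 1 [(11,1)]) (.cons (.leaf 1 [(3,1),(11,1)]) (.cons (.leaf 1 [(11,1),(3,1)]) (.cons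 (.leaf 1 [(11,1),(3,1)]) (.cons (.leaf 1 [(6,1)]) (.cons (.leaf 1 [(6,1)]) (.cons (.leaf 1 [(6,1)]) (.cons (.leaf 1 []) .nil)))))))))) (.cons (.leaf 1 [(10,1),(4,1)]) (.cons (.keep [0,4,9,10,11] (.node (.cons (.leaf 1 [(5,1),(8,1)]) (.cons (.leaf 1 [(5,1),(9,1),(8,1)]) (.cons (.leaf 2 [(10,1),(8,1)]) (.cons (.leaf 2 [(10,1),(8,1),(5,1)]) (.cons (.leaf 1 [(6,1)]) (.cons (.leaf 1 [(6,1)]) (.cons (.leaf 1 [(6,1)]) (.cons (.leaf 1 []) .nil)))))))))) .nil)))))))))) (.cons (.keep [3,5,6,7,8] (.node (.cons (.leaf 1 [(4,1),(7,1)]) (.cons (.leaf 1 [(8,1),(7,1)]) (.cons (.leaf 1 [(4,1),(7,1),(8,1)]) (.cons (.leaf 1 [(4,1),(2,1),(8,1)]) (.cons (.leaf 1 [(4,1),(7,1)]) (.cons (.keep [0,7,8,9,10] (.node (.cons (.leaf 1 [(5,1),(8,2)]) (.cons (.leaf 1 [(5,1),(9,1),(8,1)]) (.cons (.leaf 2 [(10,1),(8,2)]) (.cons (.leaf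 2 [(10,1),(8,2),(5,1)]) (.cons (.leaf 1 [(8,1),(6,1)]) (.cons (.leaf 1 [(6,1),(8,1)]) (.cons (.leaf 1 [(3,1),(6,2)]) (.cons (.leaf 1 [(8,1)]) .nil)))))))))) (.cons (.leaf 1 [(9,1),(4,1)]) (.cons (.keep [0,4,8,9,10] (.node (.cons (.leaf 1 [(5,1),(8,1)]) (.cons (.leaf 1 [(5,1),(9,1),(8,1)]) (.cons (.leaf 2 [(10,1),(8,1)]) (.cons (.leaf 2 [(10,1),(8,1),(5,1)]) (.cons (.leaf 1 [(6,1)]) (.cons (.leaf 1 [(6,1)]) (.cons (.leaf 1 [(6,1)]) (.cons (.leaf 1 []) .nil)))))))))) .nil)))))))))) (.cons (.keep [3,4,6,8,9] (.node (.cons (.leaf 1 [(4,1),(7,1)]) (.cons (.keep [2,7,9,10,11] (.node (.cons (.leaf 1 [(9,1)]) (.cons (.leaf 1 [(3,1),(9,1)]) (.cons (.leaf 1 [(9,1),(3,1)]) (.cons (.leaf 1 [(9,1),(3,1)]) (.cons (.leaf 1 [(8,1),(6,1)]) (.cons (.leaf 1 [(3,1),(6,1)]) (.cons (.leaf 1 [(3,1),(6,1),(7,1)]) (.cons (.leaf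 1 [(8,1)]) .nil)))))))))) (.cons (.leaf 1 [(9,1),(4,1)]) (.cons (.leaf 1 [(2,1),(4,1)]) (.cons (.leaf 1 [(4,1),(7,1)]) (.cons (.keep [1,7,8,9,10] (.node (.cons (.leaf 1 [(10,1)]) (.cons (.leaf 1 [(3,1),(10,1)]) (.cons (.leaf 1 [(10,1),(3,1)]) (.cons (.leaf 1 [(10,1),(3,1)]) (.cons (.leaf 1 [(8,1),(6,1)]) (.cons (.leaf 1 [(3,1),(6,1)]) (.cons (.leaf 1 [(8,1),(6,1)]) (.cons (.leaf 1 [(8,1)]) .nil)))))))))) (.cons (.leaf 1 [(9,1),(4,1)]) (.cons (.keep [0,4,7,9,11] (.node (.cons (.leaf 1 [(9,1),(5,1),(8,1)]) (.cons (.leaf 1 [(5,1),(8,1)]) (.cons (.leaf 2 [(9,1),(10,1),(8,1)]) (.cons (.leaf 2 [(9,1),(10,1),(8,1),(5,1)]) (.cons (.leaf 1 [(9,1),(6,1)]) (.cons (.leaf 1 [(3,1),(6,1)]) (.cons (.leaf 1 [(9,1),(6,1)]) (.cons (.leaf 1 [(9,1)]) .nil)))))))))) .nil)))))))))) (.cons (.keep [2,3,4,5,8] (.node (.cons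 (.leaf 1 [(4,1),(8,1)]) (.cons (.keep [2,5,8,10,11] (.node (.cons (.leaf 1 []) (.cons (.leaf 1 [(3,1)]) (.cons (.leaf 1 [(3,1)]) (.cons (.leaf 1 [(3,1)]) (.cons (.leaf 1 [(9,1),(6,1)]) (.cons (.leaf 1 [(6,1),(9,1)]) (.cons (.leaf 1 [(9,1),(6,1)]) (.cons (.leaf 1 [(9,1)]) .nil)))))))))) (.cons (.leaf 1 [(4,1)]) (.cons (.leaf 1 [(2,1),(10,1),(4,1)]) (.cons (.leaf 1 [(4,1),(8,1)]) (.cons (.keep [1,5,8,9,10,11] (.node (.cons (.leaf 1 []) (.cons (.leaf 1 [(3,1)]) (.cons (.leaf 1 [(3,1)]) (.cons (.leaf 1 [(3,1)]) (.cons (.leaf 1 [(9,1),(6,1)]) (.cons (.leaf 1 [(6,1),(9,1)]) (.cons (.leaf 1 [(9,1),(6,1)]) (.cons (.leaf 1 [(9,1)]) .nil)))))))))) (.cons (.leaf 1 [(4,1)]) (.cons (.keep [0,4,7,8,10] (.node (.cons (.leaf 1 []) (.cons (.leaf 1 [(3,1)]) (.cons (.leaf 1 [(3,1)]) (.cons (.leaf 1 [(3,1)]) (.cons (.leaf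 1 [(10,1),(6,1)]) (.cons (.leaf 1 [(6,1),(10,1)]) (.cons (.leaf 1 [(10,1),(6,1)]) (.cons (.leaf 1 [(10,1)]) .nil)))))))))) .nil)))))))))) (.cons (.leaf 1 [(6,1)]) (.cons (.leaf 1 [(6,1)]) (.cons (.leaf 1 [(6,1)]) (.cons (.leaf 1 []) .nil))))))))))

theorem e_20_27 : ESB (caseOf 4 20 27) := esb_of_ok (t := t_20_27) (by decide +kernel)

def t_20_28 : T := (.keep [0,1,2] (.node (.cons (.leaf 1 []) (.cons (.leaf 1 [(3,1)]) (.cons (.leaf 1 [(3,1)]) (.cons (.leaf 1 [(5,1)]) (.cons (.leaf 1 [(5,1)]) (.cons (.leaf 1 []) .nil))))))))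

theorem e_20_28 : ESB (caseOf 4 20 28) := esb_of_ok (t := t_20_28) (by decide +kernel)

def t_20_29 : T := (.keep [0,1,2] (.node (.cons (.leaf 1 [(4,1)]) (.cons (.leaf 1 []) (.cons (.leaf 1 [(4,1)]) (.cons (.leaf 1 [(4,1)]) (.cons (.leaf 1 [(6,1)]) (.cons (.leaf 1 [(6,1)]) (.cons (.leaf 1 [(6,1)]) (.cons (.leaf 1 []) .nil))))))))))

theorem e_20_29 : ESB (caseOf 4 20 29) := esb_of_ok (t := t_20_29) (by decide +kernel)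

def t_20_30 : T := (.keep [0,1,2] (.node (.cons (.leaf 1 [(4,1)]) (.cons (.leaf 1 []) (.cons (.leaf 1 [(4,1)]) (.cons (.leaf 1 [(4,1)]) (.cons (.leaf 1 [(6,1)]) (.cons (.leaf 1 [(6,1)]) (.cons (.leaf 1 [(6,1)]) (.cons (.leaf 1 []) .nil))))))))))

theorem e_20_30 : ESB (caseOf 4 20 30) := esb_of_ok (t := t_20_30) (by decide +kernel)

def t_20_31 : T := (.keep [0,1,2] (.node (.cons (.leaf 1 [(5,1)]) (.cons (.leaf 1 [(5,1)]) (.cons (.leaf 1 []) (.cons (.leaf 1 [(5,1)]) (.cons (.leaf 1 [(5,1)]) (.cons (.leaf 1 [(7,1)]) (.cons (.leaf 1 [(7,1)]) (.cons (.leaf 1 [(7,1)]) (.cons (.leaf 1 [(7,1)]) (.cons (.leaf 1 []) .nil))))))))))))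

theorem e_20_31 : ESB (caseOf 4 20 31) := esb_of_ok (t := t_20_31) (by decide +kernel)

def z_21_16_0 : F := ⟨1, 0, -1, 0, 1⟩

def h_21_16_0 : List F := [⟨0, -1, 0, 0, 0⟩, ⟨0, 0, 0, -1, 0⟩, ⟨1, 0, 0, 0, 0⟩, ⟨1, 0, -1, 1, 2⟩,
  ⟨0, 0, -1, 0, 1⟩]

def t_21_16_0 : T := (.node (.cons (.keep [2,3,5,6,8] (.node (.cons (.keep [2,3,5,6,7,9] (.node (.cons (.keep [3,5,6,7,9,10] (.node (.cons (.keep [0,2,3,5,6,8,9] (.node (.cons (.leaf 1 [(2,1),(3,1)]) (.cons (.leaf 1 [(3,1),(8,1)]) (.cons (.leaf 1 [(8,1)]) .nil))))) (.cons (.keep [1,3,5,6,7,8,10] (.node (.cons (.leaf 1 [(2,1),(3,1)]) (.cons (.leaf 1 [(3,1),(7,1)]) (.cons (.leaf 1 [(7,1)]) .nil))))) (.cons (.keep [0,2,5,7,8,9] (.node (.cons (.leaf 1 [(2,1),(3,1)]) (.cons (.leaf 1 [(3,1),(7,1)]) (.cons (.leaf 1 [(7,1)]) .nil))))) .nil))))) (.cons (.leaf 1 [(1,1),(3,1)])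 (.cons (.keep [0,1,5,6,9,10] (.node (.cons (.keep [2,3,5,6,7,9] (.node (.cons (.leaf 1 [(3,1)]) (.cons (.leaf 1 [(3,1)]) (.cons (.leaf 1 []) .nil))))) (.cons (.keep [1,3,5,6,7,8] (.node (.cons (.leaf 1 [(3,1)]) (.cons (.leaf 1 [(3,1)]) (.cons (.leaf 1 []) .nil))))) (.cons (.keep [0,2,5,6,8,9] (.node (.cons (.leaf 1 [(3,1)]) (.cons (.leaf 1 [(3,1)]) (.cons (.leaf 1 []) .nil))))) .nil))))) .nil))))) (.cons (.keep [1,3,5,6,7,8] (.node (.cons (.keep [0,3,5,6,7,9,10] (.node (.cons (.keep [3,5,6,8,9,10,11] (.node (.cons (.leaf 1 [(2,1),(3,1)]) (.cons (.leaf 1 [(3,1),(7,1)]) (.cons (.leaf 1 [(7,1)]) .nil))))) (.cons (.keep [3,5,6,8,9,10,11] (.node (.cons (.leaf 1 [(2,1),(3,1)]) (.cons (.leaf 1 [(3,1),(7,1)]) (.cons (.leaf 1 [(7,1)]) .nil))))) (.cons (.keep [0,2,6,8,9,10] (.node (.cons (.leaf 1 [(2,1),(3,1)])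 (.cons (.leaf 1 [(3,1),(7,1)]) (.cons (.leaf 1 [(7,1)]) .nil))))) .nil))))) (.cons (.leaf 1 [(1,1),(3,1)]) (.cons (.keep [0,1,5,6,9,10] (.node (.cons (.keep [3,5,6,8,9,10] (.node (.cons (.leaf 1 [(3,1)]) (.cons (.leaf 1 [(3,1)]) (.cons (.leaf 1 []) .nil))))) (.cons (.keep [3,5,6,8,9,10] (.node (.cons (.leaf 1 [(3,1)]) (.cons (.leaf 1 [(3,1)]) (.cons (.leaf 1 []) .nil))))) (.cons (.keep [0,2,5,6,8,9] (.node (.cons (.leaf 1 [(3,1)]) (.cons (.leaf 1 [(3,1)]) (.cons (.leaf 1 []) .nil))))) .nil))))) .nil))))) (.cons (.keep [0,1,5,6,8,9] (.node (.cons (.keep [3,5,6,7,9,10] (.node (.cons (.keep [2,3,5,6,7,8,9] (.node (.cons (.leaf 1 [(2,1),(3,1)]) (.cons (.leaf 1 [(3,1),(7,1)]) (.cons (.leaf 1 [(7,1)]) .nil))))) (.cons (.keep [1,3,5,6,8,9] (.node (.cons (.leaf 1 [(2,1),(3,1)]) (.cons (.leaf 1 [(3,1),(7,1)])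 (.cons (.leaf 1 [(7,1)]) .nil))))) (.cons (.keep [0,2,5,7,8] (.node (.cons (.leaf 1 [(2,1),(3,1)]) (.cons (.leaf 1 [(3,1),(7,1)]) (.cons (.leaf 1 [(7,1)]) .nil))))) .nil))))) (.cons (.leaf 1 [(1,1),(3,1)]) (.cons (.keep [0,1,5,6,9,10] (.node (.cons (.keep [2,3,5,6,8,9] (.node (.cons (.leaf 1 [(3,1)]) (.cons (.leaf 1 [(3,1)]) (.cons (.leaf 1 []) .nil))))) (.cons (.keep [1,3,5,6,7,9] (.node (.cons (.leaf 1 [(3,1)]) (.cons (.leaf 1 [(3,1)]) (.cons (.leaf 1 []) .nil))))) (.cons (.keep [0,2,5,6,8] (.node (.cons (.leaf 1 [(3,1)]) (.cons (.leaf 1 [(3,1)]) (.cons (.leaf 1 []) .nil))))) .nil))))) .nil))))) .nil))))) (.cons (.keep [1,5,6,8,9] (.node (.cons (.keep [2,3,5,6,8,9] (.node (.cons (.keep [3,5,6,8,9,10] (.node (.cons (.keep [0,2,3,5,6,8,10] (.node (.cons (.leaf 1 [(3,1)]) (.cons (.leaf 1 [(3,1)]) (.cons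 (.leaf 1 []) .nil))))) (.cons (.keep [1,3,5,6,7,9,10] (.node (.cons (.leaf 1 [(3,1)]) (.cons (.leaf 1 [(3,1)]) (.cons (.leaf 1 []) .nil))))) (.cons (.keep [0,2,5,7,8,10] (.node (.cons (.leaf 1 [(3,1)]) (.cons (.leaf 1 [(3,1)]) (.cons (.leaf 1 []) .nil))))) .nil))))) (.cons (.leaf 1 [(1,1)]) (.cons (.keep [0,1,5,6,8,9] (.node (.cons (.keep [2,3,5,6,7,9] (.node (.cons (.leaf 1 [(3,1)]) (.cons (.leaf 1 [(3,1)]) (.cons (.leaf 1 []) .nil))))) (.cons (.keep [1,3,5,6,7,8] (.node (.cons (.leaf 1 [(3,1)]) (.cons (.leaf 1 [(3,1)]) (.cons (.leaf 1 []) .nil))))) (.cons (.keep [0,2,5,6,8,9] (.node (.cons (.leaf 1 [(3,1)]) (.cons (.leaf 1 [(3,1)]) (.cons (.leaf 1 []) .nil))))) .nil))))) .nil))))) (.cons (.keep [1,3,5,6,7,8,9] (.node (.cons (.keep [3,5,6,8,9,10,11] (.node (.cons (.keep [0,3,5,7,8,9,11] (.node (.cons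 (.leaf 1 [(3,1)]) (.cons (.leaf 1 [(3,1)]) (.cons (.leaf 1 []) .nil))))) (.cons (.keep [3,5,7,8,9,10,11] (.node (.cons (.leaf 1 [(3,1)]) (.cons (.leaf 1 [(3,1)]) (.cons (.leaf 1 []) .nil))))) (.cons (.keep [0,2,5,7,8,11] (.node (.cons (.leaf 1 [(3,1)]) (.cons (.leaf 1 [(3,1)]) (.cons (.leaf 1 []) .nil))))) .nil))))) (.cons (.leaf 1 [(1,1)]) (.cons (.keep [0,1,5,6,8,9] (.node (.cons (.keep [3,5,6,8,9,10] (.node (.cons (.leaf 1 [(3,1)]) (.cons (.leaf 1 [(3,1)]) (.cons (.leaf 1 []) .nil))))) (.cons (.keep [3,5,6,8,9,10] (.node (.cons (.leaf 1 [(3,1)]) (.cons (.leaf 1 [(3,1)]) (.cons (.leaf 1 []) .nil))))) (.cons (.keep [0,2,5,6,8,9] (.node (.cons (.leaf 1 [(3,1)]) (.cons (.leaf 1 [(3,1)]) (.cons (.leaf 1 []) .nil))))) .nil))))) .nil))))) (.cons (.keep [0,1,5,7,8,9] (.node (.cons (.keep [3,5,6,8,9,10] (.node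 (.cons (.keep [2,3,5,6,7,8,10] (.node (.cons (.leaf 1 [(3,1)]) (.cons (.leaf 1 [(3,1)]) (.cons (.leaf 1 []) .nil))))) (.cons (.keep [1,3,5,6,8,10] (.node (.cons (.leaf 1 [(3,1)]) (.cons (.leaf 1 [(3,1)]) (.cons (.leaf 1 []) .nil))))) (.cons (.keep [0,2,5,7,10] (.node (.cons (.leaf 1 [(3,1)]) (.cons (.leaf 1 [(3,1)]) (.cons (.leaf 1 []) .nil))))) .nil))))) (.cons (.leaf 1 [(1,1)]) (.cons (.keep [0,1,5,6,8,9] (.node (.cons (.keep [2,3,5,6,8,9] (.node (.cons (.leaf 1 [(3,1)]) (.cons (.leaf 1 [(3,1)]) (.cons (.leaf 1 []) .nil))))) (.cons (.keep [1,3,5,6,7,9] (.node (.cons (.leaf 1 [(3,1)]) (.cons (.leaf 1 [(3,1)]) (.cons (.leaf 1 []) .nil))))) (.cons (.keep [0,2,5,6,8] (.node (.cons (.leaf 1 [(3,1)]) (.cons (.leaf 1 [(3,1)]) (.cons (.leaf 1 []) .nil))))) .nil))))) .nil))))) .nil))))) (.cons (.keep [0,1,5,6,8]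 (.node (.cons (.keep [2,3,5,6,7,9] (.node (.cons (.leaf 1 [(3,1)]) (.cons (.leaf 1 [(3,1)]) (.cons (.leaf 1 []) .nil))))) (.cons (.keep [1,3,5,6,7,8] (.node (.cons (.leaf 1 [(3,1)]) (.cons (.leaf 1 [(3,1)]) (.cons (.leaf 1 []) .nil))))) (.cons (.keep [0,1,5,6,8,9] (.node (.cons (.leaf 1 [(3,1)]) (.cons (.leaf 1 [(3,1)]) (.cons (.leaf 1 []) .nil))))) .nil))))) .nil))))

theorem c_21_16_0 : Concl 21 16 z_21_16_0 h_21_16_0 .nd := piece _ hP_nil t_21_16_0 _ _ (by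
  decide +kernel)

def t_21_16 : T := (.keep [0,1,2] (.node (.cons (.keep [0,2,5,7] (.node (.cons (.keep [2,3,6,7] (.node (.cons (.keep [3,5,6,7,8] (.node (.cons (.keep [2,3,5,6,8,9] (.node (.cons (.leaf 1 [(3,1)]) (.cons (.leaf 1 [(3,1)]) (.cons (.leaf 1 []) .nil))))) (.cons (.keep [1,3,5,6,7,8,9] (.node (.cons (.leaf 1 [(3,1)]) (.cons (.leaf 1 [(3,1)]) (.cons (.leaf 1 []) .nil))))) (.cons (.keep [0,1,5,7,8,9] (.node (.cons (.leaf 1 [(3,1)]) (.cons (.leaf 1 [(3,1)]) (.cons (.leaf 1 []) .nil))))) .nil))))) (.cons (.leaf 1 [(1,1)]) (.cons (.keep [0,1,5,6,8] (.node (.cons (.keep [2,3,5,6,7,9] (.node (.cons (.leaf 1 [(3,1)]) (.cons (.leaf 1 [(3,1)]) (.cons (.leaf 1 []) .nil))))) (.cons (.keep [1,3,5,6,7,8] (.node (.cons (.leaf 1 [(3,1)]) (.cons (.leaf 1 [(3,1)]) (.cons (.leaf 1 []) .nil))))) (.cons (.keep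 [0,1,5,6,8,9] (.node (.cons (.leaf 1 [(3,1)]) (.cons (.leaf 1 [(3,1)]) (.cons (.leaf 1 []) .nil))))) .nil))))) .nil))))) (.cons (.keep [1,3,6,7,8] (.node (.cons (.keep [3,5,6,7,8,9] (.node (.cons (.keep [2,3,5,8,9] (.node (.cons (.leaf 1 [(3,1)]) (.cons (.leaf 1 [(3,1)]) (.cons (.leaf 1 []) .nil))))) (.cons (.keep [1,5,7,8,10] (.node (.cons (.leaf 1 [(3,1)]) (.cons (.leaf 1 [(3,1)]) (.cons (.leaf 1 []) .nil))))) (.cons (.keep [0,1,5,7,8,9] (.node (.cons (.leaf 1 [(3,1)]) (.cons (.leaf 1 [(3,1)]) (.cons (.leaf 1 []) .nil))))) .nil))))) (.cons (.leaf 1 [(1,1)]) (.cons (.keep [0,1,5,6,8,9] (.node (.cons (.keep [2,3,5,6,9] (.node (.cons (.leaf 1 [(3,1)]) (.cons (.leaf 1 [(3,1)]) (.cons (.leaf 1 []) .nil))))) (.cons (.keep [1,5,6,8,10] (.node (.cons (.leaf 1 [(3,1)]) (.cons (.leaf 1 [(3,1)]) (.cons (.leaf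 1 []) .nil))))) (.cons (.keep [0,1,5,6,8,9] (.node (.cons (.leaf 1 [(3,1)]) (.cons (.leaf 1 [(3,1)]) (.cons (.leaf 1 []) .nil))))) .nil))))) .nil))))) (.cons (.keep [0,1,2,6] (.node (.cons (.keep [3,5,6,7,8] (.node (.cons (.keep [2,3,5,6,8,9] (.node (.cons (.leaf 1 [(3,1)]) (.cons (.leaf 1 [(3,1)]) (.cons (.leaf 1 []) .nil))))) (.cons (.keep [3,5,6,8,9] (.node (.cons (.leaf 1 [(3,1)]) (.cons (.leaf 1 [(3,1)]) (.cons (.leaf 1 []) .nil))))) (.cons (.keep [0,2,5,7,9] (.node (.cons (.leaf 1 [(3,1)]) (.cons (.leaf 1 [(3,1)]) (.cons (.leaf 1 []) .nil))))) .nil))))) (.cons (.leaf 1 [(1,1)]) (.cons (.keep [0,1,5,6,7] (.node (.cons (.keep [2,3,5,6,9] (.node (.cons (.leaf 1 [(3,1)]) (.cons (.leaf 1 [(3,1)]) (.cons (.leaf 1 []) .nil))))) (.cons (.keep [3,5,6,7,9] (.node (.cons (.leaf 1 [(3,1)]) (.cons (.leaf 1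 [(3,1)]) (.cons (.leaf 1 []) .nil))))) (.cons (.keep [0,2,5,6,8] (.node (.cons (.leaf 1 [(3,1)]) (.cons (.leaf 1 [(3,1)]) (.cons (.leaf 1 []) .nil))))) .nil))))) .nil))))) .nil))))) (.cons (.keep [1,5,6,7] (.node (.cons (.keep [2,3,5,6,7] (.leaf 0 [(0,0)])) (.cons (.keep [1,3,5,6,7,8] (.node (.cons (.keep [2,3,5,6,8,10] (.node (.cons (.keep [2,3,5,6,9] (.node (.cons (.keep [3,5,6,7,9] (.node (.cons (.keep [2,3,5,6,8,9] (.node (.cons (.leaf 1 [(2,1),(3,1)]) (.cons (.leaf 1 [(3,1),(7,1)]) (.cons (.leaf 1 [(7,1)]) .nil))))) (.cons (.keep [1,3,5,6,7,8,9] (.node (.cons (.leaf 1 [(2,1),(3,1)]) (.cons (.leaf 1 [(3,1),(7,1)]) (.cons (.leaf 1 [(7,1)]) .nil))))) (.cons (.keep [0,1,5,7,8,9] (.node (.cons (.leaf 1 [(2,1),(3,1)]) (.cons (.leaf 1 [(3,1),(7,1)]) (.cons (.leaf 1 [(7,1)]) .nil))))) .nil))))) (.cons (.leaf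 1 [(1,1),(3,1)]) (.cons (.keep [0,1,5,6,9] (.node (.cons (.keep [2,3,5,6,7,9] (.node (.cons (.leaf 1 [(3,1)]) (.cons (.leaf 1 [(3,1)]) (.cons (.leaf 1 []) .nil))))) (.cons (.keep [1,3,5,6,7,8] (.node (.cons (.leaf 1 [(3,1)]) (.cons (.leaf 1 [(3,1)]) (.cons (.leaf 1 []) .nil))))) (.cons (.keep [0,1,5,6,8,9] (.node (.cons (.leaf 1 [(3,1)]) (.cons (.leaf 1 [(3,1)]) (.cons (.leaf 1 []) .nil))))) .nil))))) .nil))))) (.cons (.keep [1,5,6,8,10] (.node (.cons (.keep [3,5,6,8,9] (.node (.cons (.keep [2,3,5,7,9] (.node (.cons (.leaf 1 [(2,1),(3,1)]) (.cons (.leaf 1 [(3,1),(7,1)]) (.cons (.leaf 1 [(7,1)]) .nil))))) (.cons (.keep [1,3,5,7,8,9] (.node (.cons (.leaf 1 [(2,1),(3,1)]) (.cons (.leaf 1 [(3,1),(7,1)]) (.cons (.leaf 1 [(7,1)]) .nil))))) (.cons (.keep [0,1,5,7,8,9] (.node (.cons (.leaf 1 [(2,1),(3,1)]) (.cons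 (.leaf 1 [(3,1),(7,1)]) (.cons (.leaf 1 [(7,1)]) .nil))))) .nil))))) (.cons (.leaf 1 [(1,1),(3,1)]) (.cons (.keep [0,1,5,8,9] (.node (.cons (.keep [2,3,5,6,9] (.node (.cons (.leaf 1 [(3,1)]) (.cons (.leaf 1 [(3,1)]) (.cons (.leaf 1 []) .nil))))) (.cons (.keep [1,3,5,6,8,9] (.node (.cons (.leaf 1 [(3,1)]) (.cons (.leaf 1 [(3,1)]) (.cons (.leaf 1 []) .nil))))) (.cons (.keep [0,1,5,6,8,9] (.node (.cons (.leaf 1 [(3,1)]) (.cons (.leaf 1 [(3,1)]) (.cons (.leaf 1 []) .nil))))) .nil))))) .nil))))) (.cons (.keep [0,1,5,6,8,9] (.node (.cons (.keep [3,5,6,7,9,10] (.node (.cons (.keep [2,3,5,6,7,8,9] (.node (.cons (.leaf 1 [(2,1),(3,1)]) (.cons (.leaf 1 [(3,1),(7,1)]) (.cons (.leaf 1 [(7,1)]) .nil))))) (.cons (.keep [1,3,5,6,8,9] (.node (.cons (.leaf 1 [(2,1),(3,1)]) (.cons (.leaf 1 [(3,1),(7,1)]) (.cons (.leaf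 1 [(7,1)]) .nil))))) (.cons (.keep [0,2,5,7,8] (.node (.cons (.leaf 1 [(2,1),(3,1)]) (.cons (.leaf 1 [(3,1),(7,1)]) (.cons (.leaf 1 [(7,1)]) .nil))))) .nil))))) (.cons (.leaf 1 [(1,1),(3,1)]) (.cons (.keep [0,1,5,6,9,10] (.node (.cons (.keep [2,3,5,6,8,9] (.node (.cons (.leaf 1 [(3,1)]) (.cons (.leaf 1 [(3,1)]) (.cons (.leaf 1 []) .nil))))) (.cons (.keep [1,3,5,6,7,9] (.node (.cons (.leaf 1 [(3,1)]) (.cons (.leaf 1 [(3,1)]) (.cons (.leaf 1 []) .nil))))) (.cons (.keep [0,2,5,6,8] (.node (.cons (.leaf 1 [(3,1)]) (.cons (.leaf 1 [(3,1)]) (.cons (.leaf 1 []) .nil))))) .nil))))) .nil))))) .nil))))) (.cons (.keep [1,5,6,8,9,10] (.node (.cons (.keep [2,3,5,8,9] (.node (.cons (.keep [3,5,6,8,9] (.node (.cons (.keep [2,3,5,6,8,9] (.node (.cons (.leaf 1 [(3,1)]) (.cons (.leaf 1 [(3,1)]) (.cons (.leaf 1 []) .nil)))))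 (.cons (.keep [1,3,5,6,7,8,9] (.node (.cons (.leaf 1 [(3,1)]) (.cons (.leaf 1 [(3,1)]) (.cons (.leaf 1 []) .nil))))) (.cons (.keep [0,1,5,7,8,9] (.node (.cons (.leaf 1 [(3,1)]) (.cons (.leaf 1 [(3,1)]) (.cons (.leaf 1 []) .nil))))) .nil))))) (.cons (.leaf 1 [(1,1)]) (.cons (.keep [0,1,5,6,8] (.node (.cons (.keep [2,3,5,6,7,9] (.node (.cons (.leaf 1 [(3,1)]) (.cons (.leaf 1 [(3,1)]) (.cons (.leaf 1 []) .nil))))) (.cons (.keep [1,3,5,6,7,8] (.node (.cons (.leaf 1 [(3,1)]) (.cons (.leaf 1 [(3,1)]) (.cons (.leaf 1 []) .nil))))) (.cons (.keep [0,1,5,6,8,9] (.node (.cons (.leaf 1 [(3,1)]) (.cons (.leaf 1 [(3,1)]) (.cons (.leaf 1 []) .nil))))) .nil))))) .nil))))) (.cons (.keep [1,5,7,9,10] (.node (.cons (.keep [3,5,7,8,9] (.node (.cons (.keep [2,3,5,8,9] (.node (.cons (.leaf 1 [(3,1)]) (.cons (.leaf 1 [(3,1)])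 (.cons (.leaf 1 []) .nil))))) (.cons (.keep [1,3,5,7,8,9] (.node (.cons (.leaf 1 [(3,1)]) (.cons (.leaf 1 [(3,1)]) (.cons (.leaf 1 []) .nil))))) (.cons (.keep [0,1,5,7,8,9] (.node (.cons (.leaf 1 [(3,1)]) (.cons (.leaf 1 [(3,1)]) (.cons (.leaf 1 []) .nil))))) .nil))))) (.cons (.leaf 1 [(1,1)]) (.cons (.keep [0,1,5,7,9] (.node (.cons (.keep [2,3,5,6,9] (.node (.cons (.leaf 1 [(3,1)]) (.cons (.leaf 1 [(3,1)]) (.cons (.leaf 1 []) .nil))))) (.cons (.keep [1,3,5,6,8,9] (.node (.cons (.leaf 1 [(3,1)]) (.cons (.leaf 1 [(3,1)]) (.cons (.leaf 1 []) .nil))))) (.cons (.keep [0,1,5,6,8,9] (.node (.cons (.leaf 1 [(3,1)]) (.cons (.leaf 1 [(3,1)]) (.cons (.leaf 1 []) .nil))))) .nil))))) .nil))))) (.cons (.keep [0,1,5,7,8,9] (.node (.cons (.keep [3,5,6,8,9,10] (.node (.cons (.keep [2,3,5,6,7,8,10] (.node (.cons (.leaf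 1 [(3,1)]) (.cons (.leaf 1 [(3,1)]) (.cons (.leaf 1 []) .nil))))) (.cons (.keep [1,3,5,6,8,10] (.node (.cons (.leaf 1 [(3,1)]) (.cons (.leaf 1 [(3,1)]) (.cons (.leaf 1 []) .nil))))) (.cons (.keep [0,2,5,7,10] (.node (.cons (.leaf 1 [(3,1)]) (.cons (.leaf 1 [(3,1)]) (.cons (.leaf 1 []) .nil))))) .nil))))) (.cons (.leaf 1 [(1,1)]) (.cons (.keep [0,1,5,6,8,9] (.node (.cons (.keep [2,3,5,6,8,9] (.node (.cons (.leaf 1 [(3,1)]) (.cons (.leaf 1 [(3,1)]) (.cons (.leaf 1 []) .nil))))) (.cons (.keep [1,3,5,6,7,9] (.node (.cons (.leaf 1 [(3,1)]) (.cons (.leaf 1 [(3,1)]) (.cons (.leaf 1 []) .nil))))) (.cons (.keep [0,2,5,6,8] (.node (.cons (.leaf 1 [(3,1)]) (.cons (.leaf 1 [(3,1)]) (.cons (.leaf 1 []) .nil))))) .nil))))) .nil))))) .nil))))) (.cons (.keep [0,1,5,6,8,10] (.node (.cons (.keep [2,3,5,6,9] (.node (.cons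 (.leaf 1 [(3,1)]) (.cons (.leaf 1 [(3,1)]) (.cons (.leaf 1 []) .nil))))) (.cons (.keep [1,5,6,8,10] (.node (.cons (.leaf 1 [(3,1)]) (.cons (.leaf 1 [(3,1)]) (.cons (.leaf 1 []) .nil))))) (.cons (.keep [0,1,5,6,8,9] (.node (.cons (.leaf 1 [(3,1)]) (.cons (.leaf 1 [(3,1)]) (.cons (.leaf 1 []) .nil))))) .nil))))) .nil))))) (.cons (.keep [0,1,2,5,7] (.node (.cons (.keep [2,3,5,6,7] (.node (.cons (.keep [2,3,5,6,9] (.node (.cons (.keep [0,3,5,6,7,9] (.node (.cons (.keep [2,5,6,7,9,10] (.node (.cons (.leaf 1 [(2,1),(3,1)]) (.cons (.leaf 1 [(3,1),(7,1)]) (.cons (.leaf 1 [(7,1)]) .nil))))) (.cons (.keep [5,6,7,8,9,10] (.node (.cons (.leaf 1 [(2,1),(3,1)]) (.cons (.leaf 1 [(3,1),(6,1)]) (.cons (.leaf 1 [(6,1)]) .nil))))) (.cons (.keep [0,2,6,8,9,10] (.node (.cons (.leaf 1 [(2,1),(3,1)]) (.cons (.leaf 1 [(3,1),(7,1)])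 (.cons (.leaf 1 [(7,1)]) .nil))))) .nil))))) (.cons (.leaf 1 [(1,1),(3,1)]) (.cons (.keep [0,1,5,6,9] (.node (.cons (.keep [2,5,6,7,9] (.node (.cons (.leaf 1 [(3,1)]) (.cons (.leaf 1 [(3,1)]) (.cons (.leaf 1 []) .nil))))) (.cons (.keep [5,6,7,8,9] (.node (.cons (.leaf 1 [(3,1)]) (.cons (.leaf 1 [(3,1)]) (.cons (.leaf 1 []) .nil))))) (.cons (.keep [0,2,5,6,8,9] (.node (.cons (.leaf 1 [(3,1)]) (.cons (.leaf 1 [(3,1)]) (.cons (.leaf 1 []) .nil))))) .nil))))) .nil))))) (.cons (.keep [3,5,6,7,9] (.node (.cons (.keep [3,5,6,8,9] (.node (.cons (.keep [2,5,6,7,8,9] (.node (.cons (.leaf 1 [(2,1),(3,1)]) (.cons (.leaf 1 [(3,1),(6,1)]) (.cons (.leaf 1 [(6,1)]) .nil))))) (.cons (.keep [1,5,6,7,8] (.node (.cons (.leaf 1 [(2,1),(3,1)]) (.cons (.leaf 1 [(3,1),(6,1)]) (.cons (.leaf 1 [(6,1)]) .nil))))) (.cons (.keep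 [0,2,5,6,7,9] (.node (.cons (.leaf 1 [(2,1),(3,1)]) (.cons (.leaf 1 [(3,1),(7,1)]) (.cons (.leaf 1 [(7,1)]) .nil))))) .nil))))) (.cons (.leaf 1 [(1,1),(3,1)]) (.cons (.keep [0,1,5,8,9] (.node (.cons (.keep [2,5,6,7,8,9] (.node (.cons (.leaf 1 [(3,1)]) (.cons (.leaf 1 [(3,1)]) (.cons (.leaf 1 []) .nil))))) (.cons (.keep [1,5,6,7,8] (.node (.cons (.leaf 1 [(3,1)]) (.cons (.leaf 1 [(3,1)]) (.cons (.leaf 1 []) .nil))))) (.cons (.keep [0,2,5,6,7,9] (.node (.cons (.leaf 1 [(3,1)]) (.cons (.leaf 1 [(3,1)]) (.cons (.leaf 1 []) .nil))))) .nil))))) .nil))))) (.cons (.keep [0,2,5,6,8] (.node (.cons (.keep [3,5,6,7,9] (.node (.cons (.keep [2,3,5,6,7,8] (.node (.cons (.leaf 1 [(2,1),(3,1)]) (.cons (.leaf 1 [(3,1),(7,1)]) (.cons (.leaf 1 [(7,1)]) .nil))))) (.cons (.keep [3,5,6,7,8] (.node (.cons (.leaf 1 [(2,1),(3,1)])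 (.cons (.leaf 1 [(3,1),(6,1)]) (.cons (.leaf 1 [(6,1)]) .nil))))) (.cons (.keep [0,2,5,7,8] (.node (.cons (.leaf 1 [(2,1),(3,1)]) (.cons (.leaf 1 [(3,1),(7,1)]) (.cons (.leaf 1 [(7,1)]) .nil))))) .nil))))) (.cons (.leaf 1 [(1,1),(3,1)]) (.cons (.keep [0,1,5,6,9] (.node (.cons (.keep [2,3,5,6,8] (.node (.cons (.leaf 1 [(3,1)]) (.cons (.leaf 1 [(3,1)]) (.cons (.leaf 1 []) .nil))))) (.cons (.keep [3,5,6,7,8] (.node (.cons (.leaf 1 [(3,1)]) (.cons (.leaf 1 [(3,1)]) (.cons (.leaf 1 []) .nil))))) (.cons (.keep [0,2,5,6,8] (.node (.cons (.leaf 1 [(3,1)]) (.cons (.leaf 1 [(3,1)]) (.cons (.leaf 1 []) .nil))))) .nil))))) .nil))))) .nil))))) (.cons (.keep [1,5,6,7,9] (.node (.cons (.keep [2,3,5,6,8,9] (.node (.cons (.keep [3,5,6,8,9,10] (.node (.cons (.keep [2,5,6,8,9,10] (.node (.cons (.leaf 1 [(3,1)]) (.cons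 (.leaf 1 [(3,1)]) (.cons (.leaf 1 []) .nil))))) (.cons (.keep [5,6,7,8,9,10] (.node (.cons (.leaf 1 [(3,1)]) (.cons (.leaf 1 [(3,1)]) (.cons (.leaf 1 []) .nil))))) (.cons (.keep [0,2,5,7,9,10] (.node (.cons (.leaf 1 [(3,1)]) (.cons (.leaf 1 [(3,1)]) (.cons (.leaf 1 []) .nil))))) .nil))))) (.cons (.leaf 1 [(1,1)]) (.cons (.keep [0,1,5,6,9] (.node (.cons (.keep [2,5,6,7,9] (.node (.cons (.leaf 1 [(3,1)]) (.cons (.leaf 1 [(3,1)]) (.cons (.leaf 1 []) .nil))))) (.cons (.keep [5,6,7,8,9] (.node (.cons (.leaf 1 [(3,1)]) (.cons (.leaf 1 [(3,1)]) (.cons (.leaf 1 []) .nil))))) (.cons (.keep [0,2,5,6,8,9] (.node (.cons (.leaf 1 [(3,1)]) (.cons (.leaf 1 [(3,1)]) (.cons (.leaf 1 []) .nil))))) .nil))))) .nil))))) (.cons (.keep [3,5,6,8,9] (.node (.cons (.keep [3,5,7,8,9] (.node (.cons (.keep [2,5,6,7,8,9] (.node (.cons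 (.leaf 1 [(3,1)]) (.cons (.leaf 1 [(3,1)]) (.cons (.leaf 1 []) .nil))))) (.cons (.keep [1,5,6,7,9] (.node (.cons (.leaf 1 [(3,1)]) (.cons (.leaf 1 [(3,1)]) (.cons (.leaf 1 []) .nil))))) (.cons (.keep [0,2,5,6,8,9] (.node (.cons (.leaf 1 [(3,1)]) (.cons (.leaf 1 [(3,1)]) (.cons (.leaf 1 []) .nil))))) .nil))))) (.cons (.leaf 1 [(1,1)]) (.cons (.keep [0,1,5,7,8] (.node (.cons (.keep [2,5,6,7,8,9] (.node (.cons (.leaf 1 [(3,1)]) (.cons (.leaf 1 [(3,1)]) (.cons (.leaf 1 []) .nil))))) (.cons (.keep [1,5,6,7,8] (.node (.cons (.leaf 1 [(3,1)]) (.cons (.leaf 1 [(3,1)]) (.cons (.leaf 1 []) .nil))))) (.cons (.keep [0,2,5,6,7,9] (.node (.cons (.leaf 1 [(3,1)]) (.cons (.leaf 1 [(3,1)]) (.cons (.leaf 1 []) .nil))))) .nil))))) .nil))))) (.cons (.keep [0,2,5,7,9] (.node (.cons (.keep [3,5,6,8,9] (.node (.cons (.keep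 [2,3,5,6,7,9] (.node (.cons (.leaf 1 [(3,1)]) (.cons (.leaf 1 [(3,1)]) (.cons (.leaf 1 []) .nil))))) (.cons (.keep [3,5,6,7,9] (.node (.cons (.leaf 1 [(3,1)]) (.cons (.leaf 1 [(3,1)]) (.cons (.leaf 1 []) .nil))))) (.cons (.keep [0,2,5,7,9] (.node (.cons (.leaf 1 [(3,1)]) (.cons (.leaf 1 [(3,1)]) (.cons (.leaf 1 []) .nil))))) .nil))))) (.cons (.leaf 1 [(1,1)]) (.cons (.keep [0,1,5,6,8] (.node (.cons (.keep [2,3,5,6,8] (.node (.cons (.leaf 1 [(3,1)]) (.cons (.leaf 1 [(3,1)]) (.cons (.leaf 1 []) .nil))))) (.cons (.keep [3,5,6,7,8] (.node (.cons (.leaf 1 [(3,1)]) (.cons (.leaf 1 [(3,1)]) (.cons (.leaf 1 []) .nil))))) (.cons (.keep [0,2,5,6,8] (.node (.cons (.leaf 1 [(3,1)]) (.cons (.leaf 1 [(3,1)]) (.cons (.leaf 1 []) .nil))))) .nil))))) .nil))))) .nil))))) (.cons (.keep [0,1,5,6,7] (.node (.cons (.keep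 [2,3,5,6,9] (.node (.cons (.leaf 1 [(3,1)]) (.cons (.leaf 1 [(3,1)]) (.cons (.leaf 1 []) .nil))))) (.cons (.keep [3,5,6,7,9] (.node (.cons (.leaf 1 [(3,1)]) (.cons (.leaf 1 [(3,1)]) (.cons (.leaf 1 []) .nil))))) (.cons (.keep [0,2,5,6,8] (.node (.cons (.leaf 1 [(3,1)]) (.cons (.leaf 1 [(3,1)]) (.cons (.leaf 1 []) .nil))))) .nil))))) .nil))))) .nil))))) (.cons (.leaf 1 []) .nil)))))

theorem e_21_16 : ESB (caseOf 4 21 16) := esb_of_pieces _ (hP_cons c_21_16_0 hP_nil) t_21_16 (by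
  decide +kernel)

def t_21_17 : T := (.keep [0,1,2] (.node (.cons (.leaf 1 []) (.cons (.leaf 1 [(4,1)]) (.cons (.keep [1,5,6,8] (.node (.cons (.keep [2,3,6,7] (.node (.cons (.leaf 1 []) (.cons (.leaf 1 [(4,1)]) (.cons (.leaf 1 [(9,1)]) (.cons (.leaf 1 [(9,1),(4,1)]) (.cons (.leaf 1 [(5,1)]) (.cons (.leaf 1 []) .nil)))))))) (.cons (.keep [2,3,4,7,8] (.node (.cons (.leaf 1 []) (.cons (.leaf 1 [(4,1)]) (.cons (.leaf 1 [(9,1)]) (.cons (.leaf 1 [(9,1),(4,1)]) (.cons (.leaf 1 [(5,1)]) (.cons (.leaf 1 []) .nil)))))))) (.cons (.keep [1,5,7,8] (.node (.cons (.leaf 1 []) (.cons (.leaf 1 [(4,1)]) (.cons (.leaf 1 [(8,1)]) (.cons (.leaf 1 [(8,1),(4,1)]) (.cons (.leaf 1 [(5,1)]) (.cons (.leaf 1 []) .nil)))))))) (.cons (.keep [3,4,7,9] (.node (.cons (.leaf 1 []) (.cons (.leaf 1 [(4,1)]) (.cons (.leaf 1 [(8,1)]) (.cons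 (.leaf 1 [(8,1),(4,1)]) (.cons (.leaf 1 [(5,1)]) (.cons (.leaf 1 []) .nil)))))))) (.cons (.keep [1,2,5,6,7] (.node (.cons (.leaf 1 []) (.cons (.leaf 1 [(4,1)]) (.cons (.leaf 1 [(10,1)]) (.cons (.leaf 1 [(10,1),(4,1)]) (.cons (.leaf 1 [(5,1)]) (.cons (.leaf 1 []) .nil)))))))) (.cons (.keep [0,1,2,7] (.node (.cons (.leaf 1 []) (.cons (.leaf 1 [(4,1)]) (.cons (.leaf 1 [(9,1)]) (.cons (.leaf 1 [(9,1),(4,1)]) (.cons (.leaf 1 [(5,1)]) (.cons (.leaf 1 []) .nil)))))))) .nil)))))))) (.cons (.keep [3,4,6,7,8] (.node (.cons (.keep [2,3,6,7,9] (.node (.cons (.leaf 1 [(9,1)]) (.cons (.leaf 1 [(9,1),(4,1)]) (.cons (.leaf 1 []) (.cons (.leaf 1 [(4,1)]) (.cons (.leaf 1 [(9,1),(5,1)]) (.cons (.leaf 1 [(9,1)]) .nil)))))))) (.cons (.keep [2,3,4,7,8,9] (.node (.cons (.leaf 1 [(9,1)]) (.cons (.leaf 1 [(9,1),(4,1)]) (.cons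 (.leaf 1 []) (.cons (.leaf 1 [(4,1)]) (.cons (.leaf 1 [(9,1),(5,1)]) (.cons (.leaf 1 [(9,1)]) .nil)))))))) (.cons (.keep [1,5,7,8,9] (.node (.cons (.leaf 1 [(8,1)]) (.cons (.leaf 1 [(8,1),(4,1)]) (.cons (.leaf 1 []) (.cons (.leaf 1 [(4,1)]) (.cons (.leaf 1 [(8,1),(5,1)]) (.cons (.leaf 1 [(8,1)]) .nil)))))))) (.cons (.keep [3,4,7,9,10] (.node (.cons (.leaf 1 [(8,1)]) (.cons (.leaf 1 [(8,1),(4,1)]) (.cons (.leaf 1 []) (.cons (.leaf 1 [(4,1)]) (.cons (.leaf 1 [(8,1),(5,1)]) (.cons (.leaf 1 [(8,1)]) .nil)))))))) (.cons (.keep [1,2,5,6,7,9] (.node (.cons (.leaf 1 [(10,1)]) (.cons (.leaf 1 [(10,1),(4,1)]) (.cons (.leaf 1 []) (.cons (.leaf 1 [(4,1)]) (.cons (.leaf 1 [(10,1),(5,1)]) (.cons (.leaf 1 [(10,1)]) .nil)))))))) (.cons (.keep [0,1,2,7,9] (.node (.cons (.leaf 1 [(9,1)]) (.cons (.leaf 1 [(9,1),(4,1)])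 (.cons (.leaf 1 []) (.cons (.leaf 1 [(4,1)]) (.cons (.leaf 1 [(9,1),(5,1)]) (.cons (.leaf 1 [(9,1)]) .nil)))))))) .nil)))))))) (.cons (.leaf 1 [(5,1)]) (.cons (.leaf 1 []) .nil))))))))

theorem e_21_17 : ESB (caseOf 4 21 17) := esb_of_ok (t := t_21_17) (by decide +kernel)

def t_21_18 : T := (.keep [0,1,2] (.node (.cons (.keep [2,5,6,8] (.node (.cons (.leaf 1 [(6,1)]) (.cons (.leaf 1 [(3,1)]) (.cons (.leaf 1 [(6,1),(1,1)]) (.cons (.leaf 1 [(3,1)]) (.cons (.leaf 1 [(6,1),(1,1)]) (.cons (.leaf 1 []) .nil)))))))) (.cons (.keep [0,2,4,8] (.node (.cons (.leaf 1 [(8,1),(7,1)]) (.cons (.leaf 1 [(3,1),(8,1)]) (.cons (.leaf 1 [(8,1),(1,1),(7,1)]) (.cons (.leaf 1 [(3,1),(8,1)]) (.cons (.leaf 1 [(8,1),(7,1),(1,1)]) (.cons (.leaf 1 [(8,1)]) .nil)))))))) (.cons (.keep [1,5,7,8] (.node (.cons (.keep [2,3,6,7] (.node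 (.cons (.keep [5,6,7,9] (.node (.cons (.leaf 1 [(9,1)]) (.cons (.leaf 1 [(3,2)]) (.cons (.leaf 1 [(9,1),(1,1)]) (.cons (.leaf 1 [(3,2)]) (.cons (.leaf 1 [(9,1),(1,1)]) (.cons (.leaf 1 []) .nil)))))))) (.cons (.keep [0,4,7,9] (.node (.cons (.leaf 1 [(7,1),(9,1)]) (.cons (.leaf 1 [(3,2),(7,2)]) (.cons (.leaf 1 [(7,1),(1,1),(9,1)]) (.cons (.leaf 1 [(3,2),(7,2)]) (.cons (.leaf 1 [(7,1),(9,1),(1,1)]) (.cons (.leaf 1 [(7,2)]) .nil)))))))) (.cons (.leaf 1 [(1,2),(9,2)]) (.cons (.leaf 1 [(9,2),(1,2)]) (.cons (.leaf 1 [(5,2)]) (.cons (.leaf 1 []) .nil)))))))) (.cons (.leaf 1 [(4,1),(3,2)]) (.cons (.keep [1,3,7,8] (.node (.cons (.leaf 1 [(6,3)]) (.cons (.leaf 1 [(6,3),(4,2)]) (.cons (.leaf 1 [(6,1),(8,1)]) (.cons (.leaf 1 [(6,1),(8,1),(4,1)]) (.cons (.leaf 1 [(1,1),(5,3)]) (.cons (.leaf 1 [(6,1)]) .nil))))))))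 (.cons (.keep [3,4,6,7,9] (.node (.cons (.leaf 2 [(7,1),(6,3)]) (.cons (.leaf 2 [(6,3),(4,1),(7,1)]) (.cons (.leaf 2 [(7,1),(9,1),(6,2)]) (.cons (.leaf 2 [(6,2),(9,1),(4,1),(7,1)]) (.cons (.leaf 1 [(6,1),(5,1)]) (.cons (.leaf 1 [(6,1)]) .nil)))))))) (.cons (.keep [0,1,2,7] (.node (.cons (.keep [5,6,7,9] (.node (.cons (.leaf 1 [(9,1)]) (.cons (.leaf 1 [(8,1),(3,2)]) (.cons (.leaf 1 [(9,1),(1,1)]) (.cons (.leaf 1 [(1,1),(3,2)]) (.cons (.leaf 1 [(9,1),(1,1)]) (.cons (.leaf 1 [(8,1)]) .nil)))))))) (.cons (.keep [4,6,7,9] (.node (.cons (.leaf 1 [(6,1),(9,1)]) (.cons (.leaf 1 [(8,1),(3,2),(6,2)]) (.cons (.leaf 1 [(6,1),(1,1),(9,1)]) (.cons (.leaf 1 [(1,1),(3,2),(6,2)]) (.cons (.leaf 1 [(6,1),(9,1),(1,1)]) (.cons (.leaf 1 [(8,1),(6,2)]) .nil)))))))) (.cons (.keep [1,5,6,8,9] (.node (.cons (.leaf 3 [(2,1),(10,4)])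 (.cons (.leaf 1 [(4,2),(9,1),(3,5)]) (.cons (.leaf 3 [(10,4),(1,1)]) (.cons (.leaf 1 [(10,1),(3,1)]) (.cons (.leaf 3 [(2,1),(10,4),(1,1)]) (.cons (.leaf 1 [(10,1)]) .nil)))))))) (.cons (.keep [1,4,6,7,9] (.node (.cons (.leaf 1 [(2,1),(10,2),(6,2)]) (.cons (.leaf 1 [(3,4),(9,1),(7,2),(4,2)]) (.cons (.leaf 3 [(7,2),(10,4),(1,1)]) (.cons (.leaf 1 [(3,1),(7,1),(10,1)]) (.cons (.leaf 1 [(5,2),(10,2),(1,1),(2,1)]) (.cons (.leaf 1 [(10,1),(7,1)]) .nil)))))))) (.cons (.leaf 1 [(5,2),(7,1)]) (.cons (.leaf 1 [(7,1)]) .nil)))))))) (.cons (.keep [0,4,6,7,9] (.node (.cons (.keep [2,5,6,7,8] (.node (.cons (.leaf 1 [(6,1)]) (.cons (.leaf 1 [(3,1)]) (.cons (.leaf 1 [(6,1),(1,1)]) (.cons (.leaf 1 [(3,1)]) (.cons (.leaf 1 [(6,1),(1,1)]) (.cons (.leaf 1 []) .nil)))))))) (.cons (.keep [0,2,4,6,7] (.node (.cons (.leaf 1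 [(8,1),(7,1)]) (.cons (.leaf 1 [(3,1),(8,1)]) (.cons (.leaf 1 [(8,1),(1,1),(7,1)]) (.cons (.leaf 1 [(3,1),(8,1)]) (.cons (.leaf 1 [(8,1),(7,1),(1,1)]) (.cons (.leaf 1 [(8,1)]) .nil)))))))) (.cons (.keep [1,5,6,7,9,10] (.node (.cons (.leaf 1 [(2,1),(9,1)]) (.cons (.leaf 1 [(4,1),(3,2)]) (.cons (.leaf 2 [(10,2),(9,1)]) (.cons (.leaf 1 [(10,1),(3,1)]) (.cons (.leaf 2 [(10,2),(9,1),(2,1)]) (.cons (.leaf 1 [(10,1)]) .nil)))))))) (.cons (.keep [1,3,4,6,7,9] (.node (.cons (.leaf 1 [(2,1),(10,1)]) (.cons (.leaf 1 [(3,2),(8,1),(4,1)]) (.cons (.leaf 2 [(11,2),(10,1),(8,1)]) (.cons (.leaf 1 [(11,1),(3,1),(8,1)]) (.cons (.leaf 1 [(11,1),(10,1),(5,1),(2,1)]) (.cons (.leaf 1 [(11,1),(8,1)]) .nil)))))))) (.cons (.leaf 1 [(5,1)]) (.cons (.leaf 1 []) .nil)))))))) .nil)))))))) (.cons (.keep [1,4,7,8] (.node (.cons (.keep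 [2,3,7,8] (.node (.cons (.keep [2,5,7,8] (.node (.cons (.leaf 1 []) (.cons (.leaf 1 [(9,1),(3,2)]) (.cons (.leaf 1 [(1,1)]) (.cons (.leaf 1 [(9,1),(3,2)]) (.cons (.leaf 1 [(1,1)]) (.cons (.leaf 1 [(9,1)]) .nil)))))))) (.cons (.keep [2,4,7,8] (.node (.cons (.leaf 1 [(7,1)]) (.cons (.leaf 1 [(9,1),(3,2),(7,2)]) (.cons (.leaf 1 [(7,1),(1,1)]) (.cons (.leaf 1 [(9,1),(3,2),(7,2)]) (.cons (.leaf 1 [(7,1),(1,1)]) (.cons (.leaf 1 [(9,1),(7,2)]) .nil)))))))) (.cons (.keep [1,5,7,8,9] (.node (.cons (.leaf 1 [(10,1)]) (.cons (.leaf 1 [(3,1)]) (.cons (.leaf 1 [(10,1),(1,1)]) (.cons (.leaf 1 [(3,1)]) (.cons (.leaf 1 [(10,1),(1,1)]) (.cons (.leaf 1 []) .nil)))))))) (.cons (.keep [1,4,7,8,9] (.node (.cons (.leaf 1 [(7,1),(10,1)]) (.cons (.leaf 1 [(3,1),(7,1)]) (.cons (.leaf 1 [(7,1),(1,1),(10,1)]) (.cons (.leaf 1 [(3,1),(7,1)])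 (.cons (.leaf 1 [(7,1),(10,1),(1,1)]) (.cons (.leaf 1 [(7,1)]) .nil)))))))) (.cons (.leaf 1 [(5,2),(8,1)]) (.cons (.leaf 1 [(8,1)]) .nil)))))))) (.cons (.leaf 1 [(3,2),(7,1),(4,1)]) (.cons (.keep [1,3,7,8] (.node (.cons (.leaf 1 [(6,3),(8,1)]) (.cons (.leaf 1 [(6,3),(8,1),(4,2)]) (.cons (.leaf 1 [(6,1)]) (.cons (.leaf 1 [(6,1),(4,1)]) (.cons (.leaf 1 [(5,3),(1,1),(8,1)]) (.cons (.leaf 1 [(6,1),(8,1)]) .nil)))))))) (.cons (.keep [3,4,6,7,9] (.node (.cons (.leaf 2 [(6,3),(9,2),(7,1)]) (.cons (.leaf 2 [(6,3),(9,2),(7,1),(4,1)]) (.cons (.leaf 2 [(6,1),(1,1),(7,1)]) (.cons (.leaf 2 [(6,1),(1,1),(7,1),(4,1)]) (.cons (.leaf 1 [(5,1),(6,1),(9,1)]) (.cons (.leaf 1 [(6,1),(9,1)]) .nil)))))))) (.cons (.keep [1,2,7,8] (.node (.cons (.keep [2,5,6,8] (.node (.cons (.leaf 1 []) (.cons (.leaf 1 [(9,1),(8,1),(3,2)])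 (.cons (.leaf 1 [(1,1)]) (.cons (.leaf 1 [(1,1),(3,2),(9,1)]) (.cons (.leaf 1 [(1,1)]) (.cons (.leaf 1 [(9,1),(8,1)]) .nil)))))))) (.cons (.keep [2,4,6,8] (.node (.cons (.leaf 1 [(7,1)]) (.cons (.leaf 1 [(9,1),(8,1),(3,2),(7,2)]) (.cons (.leaf 1 [(7,1),(1,1)]) (.cons (.leaf 1 [(9,1),(1,1),(3,2),(7,2)]) (.cons (.leaf 1 [(7,1),(1,1)]) (.cons (.leaf 1 [(9,1),(8,1),(7,2)]) .nil)))))))) (.cons (.keep [1,5,6,8,9] (.node (.cons (.leaf 1 [(10,1)]) (.cons (.leaf 1 [(3,1)]) (.cons (.leaf 1 [(10,1),(1,1)]) (.cons (.leaf 1 [(3,1)]) (.cons (.leaf 1 [(10,1),(1,1)]) (.cons (.leaf 1 []) .nil)))))))) (.cons (.keep [1,4,6,8,9] (.node (.cons (.leaf 1 [(7,1),(10,1)]) (.cons (.leaf 1 [(3,1),(7,1)]) (.cons (.leaf 1 [(7,1),(1,1),(10,1)]) (.cons (.leaf 1 [(3,1),(7,1)]) (.cons (.leaf 1 [(7,1),(10,1),(1,1)]) (.cons (.leaf 1 [(7,1)])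 .nil)))))))) (.cons (.leaf 1 [(5,3),(1,1),(7,1),(8,1)]) (.cons (.leaf 1 [(8,1),(6,1)]) .nil)))))))) (.cons (.keep [0,4,6,7,9] (.node (.cons (.keep [5,6,7,9,10] (.node (.cons (.leaf 1 []) (.cons (.leaf 1 [(9,1),(3,1)]) (.cons (.leaf 1 [(1,1)]) (.cons (.leaf 1 [(9,1),(3,1)]) (.cons (.leaf 1 [(1,1)]) (.cons (.leaf 1 [(9,1)]) .nil)))))))) (.cons (.keep [3,4,6,7,9] (.node (.cons (.leaf 1 [(7,1)]) (.cons (.leaf 1 [(10,1),(3,1),(7,1)]) (.cons (.leaf 1 [(7,1),(1,1)]) (.cons (.leaf 1 [(10,1),(3,1),(7,1)]) (.cons (.leaf 1 [(7,1),(1,1)]) (.cons (.leaf 1 [(10,1),(7,1)]) .nil)))))))) (.cons (.keep [1,5,6,7,10] (.node (.cons (.leaf 2 [(2,1),(9,1)]) (.cons (.leaf 1 [(3,1)]) (.cons (.leaf 2 [(9,1)]) (.cons (.leaf 1 [(3,1)]) (.cons (.leaf 2 [(9,1),(2,1)]) (.cons (.leaf 1 []) .nil)))))))) (.cons (.keep [1,3,4,6,7] (.node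 (.cons (.leaf 2 [(8,1),(10,1),(2,1)]) (.cons (.leaf 1 [(3,1),(8,1)]) (.cons (.leaf 2 [(8,1),(10,1)]) (.cons (.leaf 1 [(3,1),(8,1)]) (.cons (.leaf 2 [(8,1),(10,1),(2,1)]) (.cons (.leaf 1 [(8,1)]) .nil)))))))) (.cons (.leaf 1 [(5,1),(9,1)]) (.cons (.leaf 1 [(9,1)]) .nil)))))))) .nil)))))))) (.cons (.leaf 1 [(5,1)]) (.cons (.leaf 1 []) .nil))))))))

theorem e_21_18 : ESB (caseOf 4 21 18) := esb_of_ok (t := t_21_18) (by decide +kernel)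

def ks : List (ℕ × ℕ) := [(19, 29), (19, 30), (19, 31), (20, 16), (20, 17), (20, 19), (20, 20),
  (20, 21), (20, 22), (20, 23), (20, 24), (20, 25), (20, 27), (20, 28), (20, 29), (20, 30), (20,
  31), (21, 16), (21, 17), (21, 18)]

theorem ks_ok : ∀ p ∈ ks, ESB (caseOf 4 p.1 p.2) := ks_cons e_19_29 <| ks_cons e_19_30 <| ks_cons
  e_19_31 <| ks_cons e_20_16 <| ks_cons e_20_17 <| ks_cons e_20_19 <| ks_cons e_20_20 <| ks_cons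
  e_20_21 <| ks_cons e_20_22 <| ks_cons e_20_23 <| ks_cons e_20_24 <| ks_cons e_20_25 <| ks_cons
  e_20_27 <| ks_cons e_20_28 <| ks_cons e_20_29 <| ks_cons e_20_30 <| ks_cons e_20_31 <| ks_cons
  e_21_16 <| ks_cons e_21_17 <| ks_cons e_21_18 <| ks_nil

end Pool.Agent.H4.RD4.E12
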