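import Pool.Agent.H4.RD4.Chk

/-! # Certificates for special cases of order four -/

set_option maxRecDepth 20000

namespace Pool.Agent.H4.RD4.E14

open Pool.Agent.H50.Rdb
open Pool.Agent.H81.RDE (ESB caseOf)

def z_21_24_0 : F := ⟨1, -1, 0, 0, 1⟩

def h_21_24_0 : List F := [⟨0, -1, 0, 0, 0⟩, ⟨0, 0, 1, -1, 0⟩, ⟨0, 1, -1, 0, 0⟩, ⟨1, -1, 1, 0, 2⟩]

def t_21_24_0 : T := (.node (.cons (.keep [5,6,7,8] (.node (.cons (.leaf 1 [(6,1)]) (.cons (.keep [3,6,7,8,9] (.node (.cons (.keep [5,6,7,8,9] (.node (.cons (.leaf 1 [(2,2),(6,1)]) (.cons (.leaf 1 [(2,1),(3,1)]) (.cons (.leaf 1 [(6,1),(7,1)]) (.cons (.leaf 1 [(3,1),(7,1)]) (.cons (.leaf 1 [(7,1),(6,1),(2,1)]) (.cons (.leaf 1 [(7,1)]) .nil)))))))) (.cons (.keep [3,4,7,8,9] (.node (.cons (.leaf 1 [(2,1),(6,1)]) (.cons (.leaf 1 [(2,1),(3,1)])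 (.cons (.leaf 1 [(6,1)]) (.cons (.leaf 1 [(3,1),(7,1),(6,1)]) (.cons (.leaf 1 [(6,1),(2,1)]) (.cons (.leaf 1 [(6,1),(7,1)]) .nil)))))))) (.cons (.leaf 1 [(7,1),(1,1),(6,1)]) (.cons (.leaf 1 [(3,1),(7,1),(4,1)]) (.cons (.keep [1,6,7,8,9,10] (.node (.cons (.leaf 1 [(2,1),(11,1)]) (.cons (.leaf 1 [(2,1),(3,1)]) (.cons (.leaf 1 [(11,1)]) (.cons (.leaf 1 [(3,1),(7,1)]) (.cons (.leaf 1 [(11,1),(2,1)]) (.cons (.leaf 1 [(7,1)]) .nil)))))))) (.cons (.keep [0,4,6,7,8] (.node (.cons (.keep [2,3,6,7,9] (.node (.cons (.leaf 1 [(6,1),(2,1)]) (.cons (.leaf 1 [(6,1),(2,1)]) (.cons (.leaf 2 [(6,2),(7,1),(10,1)]) (.cons (.leaf 1 [(6,2),(0,1),(10,1)]) (.cons (.leaf 1 [(6,1),(7,1),(5,1),(2,1)]) (.cons (.leaf 1 [(6,1),(10,1)]) .nil)))))))) (.cons (.leaf 1 [(2,1),(3,1)]) (.cons (.keep [1,3,7,8,9] (.node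 (.cons (.leaf 1 [(2,1)]) (.cons (.leaf 1 [(2,1)]) (.cons (.leaf 2 [(10,1),(7,1),(9,2)]) (.cons (.leaf 1 [(10,1),(0,1),(9,1)]) (.cons (.leaf 1 [(7,1),(9,1),(5,1),(2,1)]) (.cons (.leaf 1 [(10,1),(9,1)]) .nil)))))))) (.cons (.leaf 1 [(3,1),(8,1)]) (.cons (.keep [2,6,7,8,9,10] (.node (.cons (.leaf 1 [(6,1),(2,1)]) (.cons (.leaf 1 [(6,1),(2,1)]) (.cons (.leaf 2 [(9,2),(10,1)]) (.cons (.leaf 1 [(6,1),(0,1),(10,1),(9,1)]) (.cons (.leaf 1 [(9,1),(5,1),(2,1)]) (.cons (.leaf 1 [(9,1),(10,1)]) .nil)))))))) (.cons (.leaf 1 [(8,1)]) .nil)))))))) .nil)))))))) (.cons (.leaf 1 [(1,1),(6,1)]) (.cons (.leaf 1 [(1,1),(3,1)]) (.cons (.leaf 1 [(6,1),(1,1)]) (.cons (.keep [0,1,6,8,9] (.node (.cons (.keep [3,6,7,8] (.node (.cons (.leaf 1 [(6,1)]) (.cons (.leaf 1 [(3,1)]) (.cons (.leaf 1 [(1,1),(6,1)])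 (.cons (.leaf 1 [(3,1)]) (.cons (.leaf 1 [(6,1),(1,1)]) (.cons (.leaf 1 []) .nil)))))))) (.cons (.keep [3,4,6,7,8] (.node (.cons (.leaf 1 [(6,1)]) (.cons (.leaf 1 [(3,1)]) (.cons (.leaf 1 [(1,1),(6,1)]) (.cons (.leaf 1 [(3,1)]) (.cons (.leaf 1 [(6,1),(1,1)]) (.cons (.leaf 1 []) .nil)))))))) (.cons (.leaf 1 [(8,1),(1,1)]) (.cons (.leaf 1 [(8,1),(1,1)]) (.cons (.keep [1,5,6,8] (.node (.cons (.leaf 1 [(7,1),(2,1)]) (.cons (.leaf 1 [(3,1)]) (.cons (.leaf 1 [(7,1)]) (.cons (.leaf 1 [(3,1)]) (.cons (.leaf 1 [(7,1),(2,1)]) (.cons (.leaf 1 []) .nil)))))))) (.cons (.keep [0,4,7,8] (.node (.cons (.keep [2,3,7,8,9] (.node (.cons (.leaf 1 [(2,1)]) (.cons (.leaf 1 [(2,1)]) (.cons (.leaf 2 [(7,1),(10,1)]) (.cons (.leaf 1 [(0,1),(10,1)]) (.cons (.leaf 1 [(7,1),(5,1),(2,1)]) (.cons (.leaf 1 [(10,1)])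 .nil)))))))) (.cons (.leaf 1 [(3,1)]) (.cons (.keep [1,3,6,7,9] (.node (.cons (.leaf 1 [(6,1),(2,1)]) (.cons (.leaf 1 [(6,1),(2,1)]) (.cons (.leaf 2 [(7,1),(10,1)]) (.cons (.leaf 1 [(6,1),(0,1),(10,1)]) (.cons (.leaf 1 [(7,1),(5,1),(2,1)]) (.cons (.leaf 1 [(10,1)]) .nil)))))))) (.cons (.leaf 1 [(3,1)]) (.cons (.keep [2,6,7,8,9] (.node (.cons (.leaf 1 [(9,1),(2,1),(6,1)]) (.cons (.leaf 1 [(9,1),(2,1),(6,1)]) (.cons (.leaf 2 [(10,1)]) (.cons (.leaf 1 [(9,1),(0,1),(6,1),(10,1)]) (.cons (.leaf 1 [(5,1),(2,1)]) (.cons (.leaf 1 [(10,1)]) .nil)))))))) (.cons (.leaf 1 []) .nil)))))))) .nil)))))))) .nil)))))))) (.cons (.keep [4,6,7,8,9] (.node (.cons (.leaf 1 []) (.cons (.keep [3,6,7,9,10] (.node (.cons (.keep [2,5,6,7,8] (.node (.cons (.leaf 1 [(7,1),(2,2),(9,1)]) (.cons (.leaf 1 [(3,1),(2,1),(9,1)])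 (.cons (.leaf 1 [(7,1),(8,1),(9,1)]) (.cons (.leaf 1 [(3,1),(8,1),(9,1)]) (.cons (.leaf 1 [(7,1),(8,1),(9,1),(2,1)]) (.cons (.leaf 1 [(9,1),(8,1)]) .nil)))))))) (.cons (.keep [2,3,4,7,8] (.node (.cons (.leaf 1 [(7,1),(2,1),(9,1)]) (.cons (.leaf 1 [(3,1),(2,1),(9,1)]) (.cons (.leaf 1 [(7,1),(9,1)]) (.cons (.leaf 1 [(3,1),(7,1),(8,1),(9,1)]) (.cons (.leaf 1 [(7,1),(9,1),(2,1)]) (.cons (.leaf 1 [(9,1),(7,1),(8,1)]) .nil)))))))) (.cons (.leaf 1 [(1,1),(6,1)]) (.cons (.leaf 1 [(3,1),(4,1)]) (.cons (.keep [1,2,6,7,8,9] (.node (.cons (.leaf 1 [(11,1),(2,1),(9,1)]) (.cons (.leaf 1 [(3,1),(2,1),(9,1)]) (.cons (.leaf 1 [(11,1),(9,1)]) (.cons (.leaf 1 [(3,1),(8,1),(9,1)]) (.cons (.leaf 1 [(11,1),(9,1),(2,1)]) (.cons (.leaf 1 [(9,1),(8,1)]) .nil)))))))) (.cons (.keep [0,4,6,7,8] (.node (.cons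 (.keep [2,3,6,7,9] (.node (.cons (.leaf 1 [(6,1),(7,1)]) (.cons (.leaf 1 [(6,1),(3,1)]) (.cons (.leaf 1 [(6,1),(1,1),(7,1)]) (.cons (.leaf 1 [(6,1),(3,1)]) (.cons (.leaf 1 [(6,1),(7,1),(1,1)]) (.cons (.leaf 1 [(6,1)]) .nil)))))))) (.cons (.leaf 1 [(3,1),(2,1),(9,1)]) (.cons (.keep [1,3,6,7,8,9] (.node (.cons (.leaf 1 [(2,2),(9,2),(7,1)]) (.cons (.leaf 1 [(2,1),(9,1),(3,1)]) (.cons (.leaf 1 [(10,1),(9,1),(7,1)]) (.cons (.leaf 1 [(10,1),(3,1)]) (.cons (.leaf 1 [(10,1),(9,1),(7,1),(2,1)]) (.cons (.leaf 1 [(10,1)]) .nil)))))))) (.cons (.leaf 1 [(3,1),(8,1),(9,1)]) (.cons (.keep [2,6,7,8,9,10] (.node (.cons (.leaf 2 [(2,3),(8,2),(10,1)]) (.cons (.leaf 1 [(4,1),(6,1),(3,2)]) (.cons (.leaf 2 [(9,2),(10,1)]) (.cons (.leaf 1 [(9,1),(3,1)]) (.cons (.leaf 2 [(9,2),(10,1),(2,1)]) (.cons (.leaf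 1 [(9,1)]) .nil)))))))) (.cons (.leaf 1 [(9,1),(8,1)]) .nil)))))))) .nil)))))))) (.cons (.leaf 1 [(1,1)]) (.cons (.leaf 1 [(3,1),(1,1),(6,1)]) (.cons (.leaf 1 [(1,1)]) (.cons (.keep [0,1,6,9,10] (.node (.cons (.keep [3,6,7,8] (.node (.cons (.leaf 1 [(6,1),(9,1)]) (.cons (.leaf 1 [(3,1),(9,1)]) (.cons (.leaf 1 [(6,1),(1,1),(9,1)]) (.cons (.leaf 1 [(3,1),(9,1)]) (.cons (.leaf 1 [(6,1),(9,1),(1,1)]) (.cons (.leaf 1 [(9,1)]) .nil)))))))) (.cons (.keep [3,4,6,7,8] (.node (.cons (.leaf 1 [(6,1),(10,1)]) (.cons (.leaf 1 [(3,1),(10,1)]) (.cons (.leaf 1 [(6,1),(1,1),(10,1)]) (.cons (.leaf 1 [(3,1),(10,1)]) (.cons (.leaf 1 [(6,1),(10,1),(1,1)]) (.cons (.leaf 1 [(10,1)]) .nil)))))))) (.cons (.leaf 1 [(1,1)]) (.cons (.leaf 1 [(1,1)]) (.cons (.keep [1,5,6,8] (.node (.cons (.leaf 1 [(2,1),(7,1),(9,1)])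 (.cons (.leaf 1 [(3,1),(9,1)]) (.cons (.leaf 1 [(7,1),(9,1)]) (.cons (.leaf 1 [(3,1),(9,1)]) (.cons (.leaf 1 [(2,1),(7,1),(9,1)]) (.cons (.leaf 1 [(9,1)]) .nil)))))))) (.cons (.keep [0,4,7,8] (.node (.cons (.keep [2,3,6,7,8,9] (.node (.cons (.leaf 1 [(7,1)]) (.cons (.leaf 1 [(3,1)]) (.cons (.leaf 1 [(1,1),(7,1)]) (.cons (.leaf 1 [(3,1)]) (.cons (.leaf 1 [(7,1),(1,1)]) (.cons (.leaf 1 []) .nil)))))))) (.cons (.leaf 1 [(3,1),(9,1)]) (.cons (.keep [1,3,6,7,9] (.node (.cons (.leaf 1 [(7,1),(9,1),(2,1)]) (.cons (.leaf 1 [(3,1)]) (.cons (.leaf 1 [(7,1),(9,1)]) (.cons (.leaf 1 [(3,1)]) (.cons (.leaf 1 [(7,1),(9,1),(2,1)]) (.cons (.leaf 1 []) .nil)))))))) (.cons (.leaf 1 [(3,1),(9,1)]) (.cons (.keep [2,6,7,8,9] (.node (.cons (.leaf 2 [(10,1),(2,1)]) (.cons (.leaf 1 [(3,1)]) (.cons (.leaf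 2 [(10,1)]) (.cons (.leaf 1 [(3,1)]) (.cons (.leaf 2 [(10,1),(2,1)]) (.cons (.leaf 1 []) .nil)))))))) (.cons (.leaf 1 [(9,1)]) .nil)))))))) .nil)))))))) .nil)))))))) (.cons (.keep [1,5,6,8,9] (.node (.cons (.leaf 1 [(8,1),(7,1),(9,1)]) (.cons (.keep [6,7,8,9,10] (.node (.cons (.keep [5,6,7,8,10] (.node (.cons (.leaf 1 [(6,1),(2,1)]) (.cons (.leaf 1 [(3,1)]) (.cons (.leaf 1 [(6,1)]) (.cons (.leaf 1 [(3,1)]) (.cons (.leaf 1 [(6,1),(2,1)]) (.cons (.leaf 1 []) .nil)))))))) (.cons (.keep [0,3,4,7,8] (.node (.cons (.leaf 1 [(2,1)]) (.cons (.leaf 1 [(8,1),(3,1)]) (.cons (.leaf 1 []) (.cons (.leaf 1 [(3,1),(8,1)]) (.cons (.leaf 1 [(2,1)]) (.cons (.leaf 1 [(8,1)]) .nil)))))))) (.cons (.leaf 1 [(7,1)]) (.cons (.leaf 1 [(7,1),(4,1)]) (.cons (.keep [6,7,8,9,10] (.node (.cons (.leaf 1 [(9,2)])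 (.cons (.leaf 1 [(4,1),(3,2)]) (.cons (.leaf 1 [(1,1),(9,2)]) (.cons (.leaf 1 [(3,1),(9,1)]) (.cons (.leaf 1 [(9,2),(1,1)]) (.cons (.leaf 1 [(9,1)]) .nil)))))))) (.cons (.keep [0,4,7,8,9] (.node (.cons (.keep [2,3,6,7,8] (.node (.cons (.leaf 1 [(6,1),(2,1)]) (.cons (.leaf 1 [(6,1),(2,1)]) (.cons (.leaf 2 [(6,2),(7,1),(10,1)]) (.cons (.leaf 1 [(6,2),(0,1),(10,1)]) (.cons (.leaf 1 [(6,1),(7,1),(5,1),(2,1)]) (.cons (.leaf 1 [(6,1),(10,1)]) .nil)))))))) (.cons (.leaf 1 [(2,1),(3,1)]) (.cons (.keep [1,3,7,8,10] (.node (.cons (.leaf 1 [(2,1)]) (.cons (.leaf 1 [(2,1)]) (.cons (.leaf 2 [(9,1),(7,1),(10,2)]) (.cons (.leaf 1 [(9,1),(0,1),(10,1)]) (.cons (.leaf 1 [(7,1),(10,1),(5,1),(2,1)]) (.cons (.leaf 1 [(9,1),(10,1)]) .nil)))))))) (.cons (.leaf 1 [(3,1),(10,1)]) (.cons (.keep [2,6,7,8,9,10]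 (.node (.cons (.leaf 1 [(6,1),(2,1)]) (.cons (.leaf 1 [(6,1),(2,1)]) (.cons (.leaf 2 [(11,2),(9,1)]) (.cons (.leaf 1 [(6,1),(0,1),(9,1),(11,1)]) (.cons (.leaf 1 [(11,1),(5,1),(2,1)]) (.cons (.leaf 1 [(11,1),(9,1)]) .nil)))))))) (.cons (.leaf 1 [(10,1)]) .nil)))))))) .nil)))))))) (.cons (.leaf 1 [(1,1),(9,1)]) (.cons (.leaf 1 [(1,1),(9,1)]) (.cons (.leaf 1 [(5,1),(7,1),(9,1),(1,1)]) (.cons (.keep [0,1,6,7,9] (.node (.cons (.keep [5,6,7,8,9] (.node (.cons (.leaf 1 [(6,1)]) (.cons (.leaf 1 [(8,1),(3,1)]) (.cons (.leaf 1 [(1,1),(6,1)]) (.cons (.leaf 1 [(1,1),(3,1)]) (.cons (.leaf 1 [(6,1),(1,1)]) (.cons (.leaf 1 [(8,1)]) .nil)))))))) (.cons (.keep [3,4,6,7,9] (.node (.cons (.leaf 1 []) (.cons (.leaf 1 [(9,1),(7,1),(3,1)]) (.cons (.leaf 1 [(1,1)]) (.cons (.leaf 1 [(3,1),(1,1),(7,1)])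 (.cons (.leaf 1 [(1,1)]) (.cons (.leaf 1 [(9,1),(7,1)]) .nil)))))))) (.cons (.leaf 1 [(9,1),(7,1)]) (.cons (.leaf 1 [(9,1),(7,1),(4,1)]) (.cons (.keep [5,6,7,8,9] (.node (.cons (.leaf 1 [(6,2),(2,1)]) (.cons (.leaf 1 [(6,1),(3,1)]) (.cons (.leaf 1 [(6,2)]) (.cons (.leaf 1 [(4,1),(3,2)]) (.cons (.leaf 1 [(6,2),(2,1)]) (.cons (.leaf 1 [(6,1)]) .nil)))))))) (.cons (.keep [0,4,7,9] (.node (.cons (.keep [2,3,7,8,9] (.node (.cons (.leaf 1 [(2,1)]) (.cons (.leaf 1 [(2,1)]) (.cons (.leaf 2 [(7,1),(10,1)]) (.cons (.leaf 1 [(0,1),(10,1)]) (.cons (.leaf 1 [(7,1),(5,1),(2,1)]) (.cons (.leaf 1 [(10,1)]) .nil)))))))) (.cons (.leaf 1 [(3,1)]) (.cons (.keep [1,3,6,7,9] (.node (.cons (.leaf 1 [(6,1),(2,1)]) (.cons (.leaf 1 [(6,1),(2,1)]) (.cons (.leaf 2 [(7,1),(10,1)]) (.cons (.leaf 1 [(6,1),(0,1),(10,1)])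 (.cons (.leaf 1 [(7,1),(5,1),(2,1)]) (.cons (.leaf 1 [(10,1)]) .nil)))))))) (.cons (.leaf 1 [(3,1)]) (.cons (.keep [2,6,7,8,9] (.node (.cons (.leaf 1 [(9,1),(2,1),(6,1)]) (.cons (.leaf 1 [(9,1),(2,1),(6,1)]) (.cons (.leaf 2 [(10,1)]) (.cons (.leaf 1 [(9,1),(0,1),(6,1),(10,1)]) (.cons (.leaf 1 [(5,1),(2,1)]) (.cons (.leaf 1 [(10,1)]) .nil)))))))) (.cons (.leaf 1 []) .nil)))))))) .nil)))))))) .nil)))))))) (.cons (.keep [1,4,6,8,9] (.node (.cons (.leaf 1 [(9,1),(8,1)]) (.cons (.keep [6,7,8,9,10] (.node (.cons (.keep [5,6,7,8,10] (.node (.cons (.leaf 1 [(2,1),(6,1),(8,1)]) (.cons (.leaf 1 [(3,1),(8,1)]) (.cons (.leaf 1 [(6,1),(8,1)]) (.cons (.leaf 1 [(3,1),(8,1)]) (.cons (.leaf 1 [(2,1),(6,1),(8,1)]) (.cons (.leaf 1 [(8,1)]) .nil)))))))) (.cons (.keep [2,3,4,7,8] (.node (.cons (.leaf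 1 [(2,1),(9,1)]) (.cons (.leaf 1 [(3,1),(8,1),(9,1)]) (.cons (.leaf 1 [(9,1)]) (.cons (.leaf 1 [(3,1),(8,1),(9,1)]) (.cons (.leaf 1 [(9,1),(2,1)]) (.cons (.leaf 1 [(9,1),(8,1)]) .nil)))))))) (.cons (.leaf 1 []) (.cons (.leaf 1 [(4,1)]) (.cons (.keep [6,7,8,9,10] (.node (.cons (.leaf 1 [(7,1),(9,2)]) (.cons (.leaf 1 [(7,1),(3,2),(4,1)]) (.cons (.leaf 1 [(7,1),(1,1),(9,2)]) (.cons (.leaf 1 [(7,1),(3,1),(9,1)]) (.cons (.leaf 1 [(7,1),(9,2),(1,1)]) (.cons (.leaf 1 [(7,1),(9,1)]) .nil)))))))) (.cons (.keep [0,4,7,8,9] (.node (.cons (.keep [2,3,6,7,8] (.node (.cons (.leaf 1 [(6,1),(7,1)]) (.cons (.leaf 1 [(6,1),(3,1)]) (.cons (.leaf 1 [(6,1),(1,1),(7,1)]) (.cons (.leaf 1 [(6,1),(3,1)]) (.cons (.leaf 1 [(6,1),(7,1),(1,1)]) (.cons (.leaf 1 [(6,1)]) .nil)))))))) (.cons (.leaf 1 [(3,1),(2,1),(8,1)])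 (.cons (.keep [1,3,6,7,8,10] (.node (.cons (.leaf 1 [(2,2),(9,2),(7,1)]) (.cons (.leaf 1 [(2,1),(9,1),(3,1)]) (.cons (.leaf 1 [(11,1),(9,1),(7,1)]) (.cons (.leaf 1 [(11,1),(3,1)]) (.cons (.leaf 1 [(11,1),(9,1),(7,1),(2,1)]) (.cons (.leaf 1 [(11,1)]) .nil)))))))) (.cons (.leaf 1 [(3,1),(10,1),(8,1)]) (.cons (.keep [2,6,7,8,9,10] (.node (.cons (.leaf 2 [(2,3),(8,2),(9,1)]) (.cons (.leaf 1 [(4,1),(6,1),(3,2)]) (.cons (.leaf 2 [(11,2),(9,1)]) (.cons (.leaf 1 [(11,1),(3,1)]) (.cons (.leaf 2 [(11,2),(9,1),(2,1)]) (.cons (.leaf 1 [(11,1)]) .nil)))))))) (.cons (.leaf 1 [(8,1),(10,1)]) .nil)))))))) .nil)))))))) (.cons (.leaf 1 [(9,1),(1,1),(7,1)]) (.cons (.leaf 1 [(9,1),(1,1),(7,1)]) (.cons (.leaf 1 [(9,1),(5,1),(1,1)]) (.cons (.keep [0,1,6,7,9] (.node (.cons (.keep [5,6,7,8,9] (.node (.cons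 (.leaf 1 [(6,1),(10,1)]) (.cons (.leaf 1 [(3,1),(8,1),(10,1)]) (.cons (.leaf 1 [(6,1),(1,1),(10,1)]) (.cons (.leaf 1 [(3,1),(1,1),(10,1)]) (.cons (.leaf 1 [(6,1),(10,1),(1,1)]) (.cons (.leaf 1 [(10,1),(8,1)]) .nil)))))))) (.cons (.keep [3,4,6,7,9] (.node (.cons (.leaf 1 [(10,1)]) (.cons (.leaf 1 [(3,1),(9,1),(7,1),(10,1)]) (.cons (.leaf 1 [(1,1),(10,1)]) (.cons (.leaf 1 [(3,1),(1,1),(7,1),(10,1)]) (.cons (.leaf 1 [(10,1),(1,1)]) (.cons (.leaf 1 [(10,1),(9,1),(7,1)]) .nil)))))))) (.cons (.leaf 1 [(7,1)]) (.cons (.leaf 1 [(7,1),(4,1)]) (.cons (.keep [5,6,7,8,9] (.node (.cons (.leaf 1 [(10,1),(6,2),(2,1)]) (.cons (.leaf 1 [(3,1),(6,1),(10,1)]) (.cons (.leaf 1 [(10,1),(6,2)]) (.cons (.leaf 1 [(10,1),(3,2),(4,1)]) (.cons (.leaf 1 [(10,1),(6,2),(2,1)]) (.cons (.leaf 1 [(10,1),(6,1)])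 .nil)))))))) (.cons (.keep [0,4,7,9] (.node (.cons (.keep [2,3,6,7,8,9] (.node (.cons (.leaf 1 [(7,1)]) (.cons (.leaf 1 [(3,1)]) (.cons (.leaf 1 [(1,1),(7,1)]) (.cons (.leaf 1 [(3,1)]) (.cons (.leaf 1 [(7,1),(1,1)]) (.cons (.leaf 1 []) .nil)))))))) (.cons (.leaf 1 [(3,1),(9,1)]) (.cons (.keep [1,3,6,7,9] (.node (.cons (.leaf 1 [(7,1),(9,1),(2,1)]) (.cons (.leaf 1 [(3,1)]) (.cons (.leaf 1 [(7,1),(9,1)]) (.cons (.leaf 1 [(3,1)]) (.cons (.leaf 1 [(7,1),(9,1),(2,1)]) (.cons (.leaf 1 []) .nil)))))))) (.cons (.leaf 1 [(3,1),(9,1)]) (.cons (.keep [2,6,7,8,9] (.node (.cons (.leaf 2 [(10,1),(2,1)]) (.cons (.leaf 1 [(3,1)]) (.cons (.leaf 2 [(10,1)]) (.cons (.leaf 1 [(3,1)]) (.cons (.leaf 2 [(10,1),(2,1)]) (.cons (.leaf 1 []) .nil)))))))) (.cons (.leaf 1 [(9,1)]) .nil)))))))) .nil))))))))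 .nil)))))))) (.cons (.leaf 1 [(1,1),(7,1),(5,2),(8,1)]) (.cons (.keep [0,1,7,8,9] (.node (.cons (.keep [3,7,8,9,10] (.node (.cons (.leaf 1 [(2,1)]) (.cons (.leaf 1 [(2,1)]) (.cons (.leaf 2 [(6,1),(9,1)]) (.cons (.leaf 1 [(0,1),(9,1)]) (.cons (.leaf 1 [(6,1),(5,1),(2,1)]) (.cons (.leaf 1 [(9,1)]) .nil)))))))) (.cons (.leaf 1 [(3,1)]) (.cons (.leaf 1 [(8,1),(1,1),(9,1)]) (.cons (.leaf 1 [(3,1)]) (.cons (.keep [1,6,7,8,9,10] (.node (.cons (.leaf 1 [(2,1),(6,1)]) (.cons (.leaf 1 [(2,1),(6,1)]) (.cons (.leaf 2 [(10,1)]) (.cons (.leaf 1 [(0,1),(6,1),(10,1)]) (.cons (.leaf 1 [(5,1),(2,1)]) (.cons (.leaf 1 [(10,1)]) .nil)))))))) (.cons (.leaf 1 []) .nil)))))))) .nil)))))))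

theorem c_21_24_0 : Concl 21 24 z_21_24_0 h_21_24_0 .nd := piece _ hP_nil t_21_24_0 _ _ (by
  decide +kernel)

def z_21_24_1 : F := ⟨1, -1, 0, 0, 1⟩

def h_21_24_1 : List F := [⟨0, 1, 0, 0, 0⟩, ⟨0, 0, 1, -1, 0⟩, ⟨0, 1, -1, 0, 0⟩, ⟨1, -2, 1, 0, 2⟩,
  ⟨0, -1, 0, 0, 1⟩]

def t_21_24_1 : T := (.node (.cons (.keep [5,6,8,9,10] (.node (.cons (.leaf 1 [(6,1)]) (.cons (.keep [3,6,8,9,10] (.node (.cons (.keep [5,6,7,9,10] (.node (.cons (.leaf 1 [(2,2),(6,1)]) (.cons (.leaf 1 [(2,1),(3,1)]) (.cons (.leaf 1 [(6,1),(7,1)]) (.cons (.leaf 1 [(3,1),(7,1)]) (.cons (.leaf 1 [(7,1),(6,1),(2,1)]) (.cons (.leaf 1 [(7,1)]) .nil)))))))) (.cons (.keep [3,4,7,9,10] (.node (.cons (.leaf 1 [(2,1),(6,1)]) (.cons (.leaf 1 [(2,1),(3,1)]) (.cons (.leaf 1 [(6,1)]) (.cons (.leaf 1 [(3,1),(7,1),(6,1)]) (.cons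 (.leaf 1 [(6,1),(2,1)]) (.cons (.leaf 1 [(6,1),(7,1)]) .nil)))))))) (.cons (.leaf 1 [(7,1),(1,1),(6,1)]) (.cons (.leaf 1 [(3,1),(7,1),(4,1)]) (.cons (.keep [1,6,7,8,9,10] (.node (.cons (.leaf 1 [(2,1),(9,1)]) (.cons (.leaf 1 [(2,1),(3,1)]) (.cons (.leaf 1 [(9,1)]) (.cons (.leaf 1 [(3,1),(7,1)]) (.cons (.leaf 1 [(9,1),(2,1)]) (.cons (.leaf 1 [(7,1)]) .nil)))))))) (.cons (.keep [0,4,6,7,10] (.node (.cons (.keep [2,3,6,7,9] (.node (.cons (.leaf 1 [(6,1),(2,1)]) (.cons (.leaf 1 [(6,1),(2,1)]) (.cons (.leaf 2 [(6,2),(7,1),(10,1)]) (.cons (.leaf 1 [(6,2),(0,1),(10,1)]) (.cons (.leaf 1 [(6,1),(7,1),(5,1),(2,1)]) (.cons (.leaf 1 [(6,1),(10,1)]) .nil)))))))) (.cons (.leaf 1 [(2,1),(3,1)]) (.cons (.keep [1,3,7,8,9] (.node (.cons (.leaf 1 [(2,1)]) (.cons (.leaf 1 [(2,1)]) (.cons (.leaf 2 [(10,1),(7,1),(9,2)])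 (.cons (.leaf 1 [(10,1),(0,1),(9,1)]) (.cons (.leaf 1 [(7,1),(9,1),(5,1),(2,1)]) (.cons (.leaf 1 [(10,1),(9,1)]) .nil)))))))) (.cons (.leaf 1 [(3,1),(8,1)]) (.cons (.keep [2,6,7,8,9,10] (.node (.cons (.leaf 1 [(6,1),(2,1)]) (.cons (.leaf 1 [(6,1),(2,1)]) (.cons (.leaf 2 [(9,2),(10,1)]) (.cons (.leaf 1 [(6,1),(0,1),(10,1),(9,1)]) (.cons (.leaf 1 [(9,1),(5,1),(2,1)]) (.cons (.leaf 1 [(9,1),(10,1)]) .nil)))))))) (.cons (.leaf 1 [(8,1)]) .nil)))))))) .nil)))))))) (.cons (.leaf 1 [(1,1),(6,1)]) (.cons (.leaf 1 [(1,1),(3,1)]) (.cons (.leaf 1 [(6,1),(1,1)]) (.cons (.keep [0,1,6,8,9] (.node (.cons (.keep [3,6,7,8] (.node (.cons (.leaf 1 [(6,1)]) (.cons (.leaf 1 [(3,1)]) (.cons (.leaf 1 [(1,1),(6,1)]) (.cons (.leaf 1 [(3,1)]) (.cons (.leaf 1 [(6,1),(1,1)]) (.cons (.leaf 1 []) .nil))))))))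 (.cons (.keep [3,4,6,7,8] (.node (.cons (.leaf 1 [(6,1)]) (.cons (.leaf 1 [(3,1)]) (.cons (.leaf 1 [(1,1),(6,1)]) (.cons (.leaf 1 [(3,1)]) (.cons (.leaf 1 [(6,1),(1,1)]) (.cons (.leaf 1 []) .nil)))))))) (.cons (.leaf 1 [(8,1),(1,1)]) (.cons (.leaf 1 [(8,1),(1,1)]) (.cons (.keep [1,5,6,8] (.node (.cons (.leaf 1 [(7,1),(2,1)]) (.cons (.leaf 1 [(3,1)]) (.cons (.leaf 1 [(7,1)]) (.cons (.leaf 1 [(3,1)]) (.cons (.leaf 1 [(7,1),(2,1)]) (.cons (.leaf 1 []) .nil)))))))) (.cons (.keep [0,4,7,8] (.node (.cons (.keep [2,3,7,8,9] (.node (.cons (.leaf 1 [(2,1)]) (.cons (.leaf 1 [(2,1)]) (.cons (.leaf 2 [(7,1),(10,1)]) (.cons (.leaf 1 [(0,1),(10,1)]) (.cons (.leaf 1 [(7,1),(5,1),(2,1)]) (.cons (.leaf 1 [(10,1)]) .nil)))))))) (.cons (.leaf 1 [(3,1)]) (.cons (.keep [1,3,6,7,9] (.node (.cons (.leaf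 1 [(6,1),(2,1)]) (.cons (.leaf 1 [(6,1),(2,1)]) (.cons (.leaf 2 [(7,1),(10,1)]) (.cons (.leaf 1 [(6,1),(0,1),(10,1)]) (.cons (.leaf 1 [(7,1),(5,1),(2,1)]) (.cons (.leaf 1 [(10,1)]) .nil)))))))) (.cons (.leaf 1 [(3,1)]) (.cons (.keep [2,6,7,8,9] (.node (.cons (.leaf 1 [(9,1),(2,1),(6,1)]) (.cons (.leaf 1 [(9,1),(2,1),(6,1)]) (.cons (.leaf 2 [(10,1)]) (.cons (.leaf 1 [(9,1),(0,1),(6,1),(10,1)]) (.cons (.leaf 1 [(5,1),(2,1)]) (.cons (.leaf 1 [(10,1)]) .nil)))))))) (.cons (.leaf 1 []) .nil)))))))) .nil)))))))) .nil)))))))) (.cons (.keep [4,6,8,9,10] (.node (.cons (.leaf 1 []) (.cons (.keep [3,6,8,9,10] (.node (.cons (.keep [5,6,7,9,10] (.node (.cons (.leaf 1 [(6,1),(2,2),(8,1)]) (.cons (.leaf 1 [(3,1),(2,1),(8,1)]) (.cons (.leaf 1 [(6,1),(7,1),(8,1)]) (.cons (.leaf 1 [(3,1),(7,1),(8,1)])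 (.cons (.leaf 1 [(6,1),(7,1),(8,1),(2,1)]) (.cons (.leaf 1 [(8,1),(7,1)]) .nil)))))))) (.cons (.keep [3,4,7,9,10] (.node (.cons (.leaf 1 [(6,1),(2,1),(8,1)]) (.cons (.leaf 1 [(3,1),(2,1),(8,1)]) (.cons (.leaf 1 [(6,1),(8,1)]) (.cons (.leaf 1 [(3,1),(6,1),(7,1),(8,1)]) (.cons (.leaf 1 [(6,1),(8,1),(2,1)]) (.cons (.leaf 1 [(8,1),(6,1),(7,1)]) .nil)))))))) (.cons (.leaf 1 [(1,1),(6,1)]) (.cons (.leaf 1 [(3,1),(4,1)]) (.cons (.keep [1,6,7,8,9,10] (.node (.cons (.leaf 1 [(9,1),(2,1),(8,1)]) (.cons (.leaf 1 [(3,1),(2,1),(8,1)]) (.cons (.leaf 1 [(9,1),(8,1)]) (.cons (.leaf 1 [(3,1),(7,1),(8,1)]) (.cons (.leaf 1 [(9,1),(8,1),(2,1)]) (.cons (.leaf 1 [(8,1),(7,1)]) .nil)))))))) (.cons (.keep [0,4,6,7,10] (.node (.cons (.keep [2,3,6,7,9] (.node (.cons (.leaf 1 [(6,1),(7,1)]) (.cons (.leaf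 1 [(6,1),(3,1)]) (.cons (.leaf 1 [(6,1),(1,1),(7,1)]) (.cons (.leaf 1 [(6,1),(3,1)]) (.cons (.leaf 1 [(6,1),(7,1),(1,1)]) (.cons (.leaf 1 [(6,1)]) .nil)))))))) (.cons (.leaf 1 [(3,1),(2,1),(9,1)]) (.cons (.keep [1,3,6,7,8,9] (.node (.cons (.leaf 1 [(2,2),(9,2),(7,1)]) (.cons (.leaf 1 [(2,1),(9,1),(3,1)]) (.cons (.leaf 1 [(10,1),(9,1),(7,1)]) (.cons (.leaf 1 [(10,1),(3,1)]) (.cons (.leaf 1 [(10,1),(9,1),(7,1),(2,1)]) (.cons (.leaf 1 [(10,1)]) .nil)))))))) (.cons (.leaf 1 [(3,1),(8,1),(9,1)]) (.cons (.keep [2,6,7,8,9,10] (.node (.cons (.leaf 2 [(2,3),(8,2),(10,1)]) (.cons (.leaf 1 [(4,1),(6,1),(3,2)]) (.cons (.leaf 2 [(9,2),(10,1)]) (.cons (.leaf 1 [(9,1),(3,1)]) (.cons (.leaf 2 [(9,2),(10,1),(2,1)]) (.cons (.leaf 1 [(9,1)]) .nil)))))))) (.cons (.leaf 1 [(9,1),(8,1)]) .nil))))))))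 .nil)))))))) (.cons (.leaf 1 [(1,1)]) (.cons (.leaf 1 [(3,1),(1,1),(6,1)]) (.cons (.leaf 1 [(1,1)]) (.cons (.keep [0,1,6,8,9] (.node (.cons (.keep [3,6,7,8] (.node (.cons (.leaf 1 [(6,1),(9,1)]) (.cons (.leaf 1 [(3,1),(9,1)]) (.cons (.leaf 1 [(6,1),(1,1),(9,1)]) (.cons (.leaf 1 [(3,1),(9,1)]) (.cons (.leaf 1 [(6,1),(9,1),(1,1)]) (.cons (.leaf 1 [(9,1)]) .nil)))))))) (.cons (.keep [3,4,6,7,8] (.node (.cons (.leaf 1 [(6,1),(10,1)]) (.cons (.leaf 1 [(3,1),(10,1)]) (.cons (.leaf 1 [(6,1),(1,1),(10,1)]) (.cons (.leaf 1 [(3,1),(10,1)]) (.cons (.leaf 1 [(6,1),(10,1),(1,1)]) (.cons (.leaf 1 [(10,1)]) .nil)))))))) (.cons (.leaf 1 [(1,1)]) (.cons (.leaf 1 [(1,1)]) (.cons (.keep [1,5,6,8] (.node (.cons (.leaf 1 [(2,1),(7,1),(9,1)]) (.cons (.leaf 1 [(3,1),(9,1)]) (.cons (.leaf 1 [(7,1),(9,1)])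 (.cons (.leaf 1 [(3,1),(9,1)]) (.cons (.leaf 1 [(2,1),(7,1),(9,1)]) (.cons (.leaf 1 [(9,1)]) .nil)))))))) (.cons (.keep [0,4,7,8] (.node (.cons (.keep [2,3,6,7,8,9] (.node (.cons (.leaf 1 [(7,1)]) (.cons (.leaf 1 [(3,1)]) (.cons (.leaf 1 [(1,1),(7,1)]) (.cons (.leaf 1 [(3,1)]) (.cons (.leaf 1 [(7,1),(1,1)]) (.cons (.leaf 1 []) .nil)))))))) (.cons (.leaf 1 [(3,1),(9,1)]) (.cons (.keep [1,3,6,7,9] (.node (.cons (.leaf 1 [(7,1),(9,1),(2,1)]) (.cons (.leaf 1 [(3,1)]) (.cons (.leaf 1 [(7,1),(9,1)]) (.cons (.leaf 1 [(3,1)]) (.cons (.leaf 1 [(7,1),(9,1),(2,1)]) (.cons (.leaf 1 []) .nil)))))))) (.cons (.leaf 1 [(3,1),(9,1)]) (.cons (.keep [2,6,7,8,9] (.node (.cons (.leaf 2 [(10,1),(2,1)]) (.cons (.leaf 1 [(3,1)]) (.cons (.leaf 2 [(10,1)]) (.cons (.leaf 1 [(3,1)]) (.cons (.leaf 2 [(10,1),(2,1)])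 (.cons (.leaf 1 []) .nil)))))))) (.cons (.leaf 1 [(9,1)]) .nil)))))))) .nil)))))))) .nil)))))))) (.cons (.keep [1,5,8,9,10] (.node (.cons (.leaf 1 [(10,1),(7,1),(8,1)]) (.cons (.keep [6,7,8,9,10] (.node (.cons (.keep [5,6,7,9,10] (.node (.cons (.leaf 1 [(6,1),(2,1)]) (.cons (.leaf 1 [(3,1)]) (.cons (.leaf 1 [(6,1)]) (.cons (.leaf 1 [(3,1)]) (.cons (.leaf 1 [(6,1),(2,1)]) (.cons (.leaf 1 []) .nil)))))))) (.cons (.keep [3,4,7,9,10] (.node (.cons (.leaf 1 [(2,1)]) (.cons (.leaf 1 [(7,1),(3,1)]) (.cons (.leaf 1 []) (.cons (.leaf 1 [(3,1),(7,1)]) (.cons (.leaf 1 [(2,1)]) (.cons (.leaf 1 [(7,1)]) .nil)))))))) (.cons (.leaf 1 [(7,1)]) (.cons (.leaf 1 [(7,1),(4,1)]) (.cons (.keep [6,7,8,9,10] (.node (.cons (.leaf 1 [(8,2)]) (.cons (.leaf 1 [(4,1),(3,2)]) (.cons (.leaf 1 [(1,1),(8,2)]) (.cons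 (.leaf 1 [(3,1),(8,1)]) (.cons (.leaf 1 [(8,2),(1,1)]) (.cons (.leaf 1 [(8,1)]) .nil)))))))) (.cons (.keep [0,4,7,8,10] (.node (.cons (.keep [2,3,6,7,8] (.node (.cons (.leaf 1 [(6,1),(2,1)]) (.cons (.leaf 1 [(6,1),(2,1)]) (.cons (.leaf 2 [(6,2),(7,1),(10,1)]) (.cons (.leaf 1 [(6,2),(0,1),(10,1)]) (.cons (.leaf 1 [(6,1),(7,1),(5,1),(2,1)]) (.cons (.leaf 1 [(6,1),(10,1)]) .nil)))))))) (.cons (.leaf 1 [(2,1),(3,1)]) (.cons (.keep [1,3,7,8,9] (.node (.cons (.leaf 1 [(2,1)]) (.cons (.leaf 1 [(2,1)]) (.cons (.leaf 2 [(9,1),(7,1),(10,2)]) (.cons (.leaf 1 [(9,1),(0,1),(10,1)]) (.cons (.leaf 1 [(7,1),(10,1),(5,1),(2,1)]) (.cons (.leaf 1 [(9,1),(10,1)]) .nil)))))))) (.cons (.leaf 1 [(3,1),(9,1)]) (.cons (.keep [2,6,7,8,9,10] (.node (.cons (.leaf 1 [(6,1),(2,1)]) (.cons (.leaf 1 [(6,1),(2,1)])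 (.cons (.leaf 2 [(10,2),(9,1)]) (.cons (.leaf 1 [(6,1),(0,1),(9,1),(10,1)]) (.cons (.leaf 1 [(10,1),(5,1),(2,1)]) (.cons (.leaf 1 [(10,1),(9,1)]) .nil)))))))) (.cons (.leaf 1 [(9,1)]) .nil)))))))) .nil)))))))) (.cons (.leaf 1 [(1,1),(8,1)]) (.cons (.leaf 1 [(1,1),(8,1)]) (.cons (.leaf 1 [(5,1),(7,1),(8,1),(1,1)]) (.cons (.keep [0,1,6,7,8] (.node (.cons (.keep [5,6,7,8,9] (.node (.cons (.leaf 1 [(6,1)]) (.cons (.leaf 1 [(8,1),(3,1)]) (.cons (.leaf 1 [(1,1),(6,1)]) (.cons (.leaf 1 [(1,1),(3,1)]) (.cons (.leaf 1 [(6,1),(1,1)]) (.cons (.leaf 1 [(8,1)]) .nil)))))))) (.cons (.keep [3,4,6,7,9] (.node (.cons (.leaf 1 []) (.cons (.leaf 1 [(9,1),(7,1),(3,1)]) (.cons (.leaf 1 [(1,1)]) (.cons (.leaf 1 [(3,1),(1,1),(7,1)]) (.cons (.leaf 1 [(1,1)]) (.cons (.leaf 1 [(9,1),(7,1)]) .nil))))))))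 (.cons (.leaf 1 [(9,1),(7,1)]) (.cons (.leaf 1 [(9,1),(7,1),(4,1)]) (.cons (.keep [5,6,7,8,9] (.node (.cons (.leaf 1 [(6,2),(2,1)]) (.cons (.leaf 1 [(6,1),(3,1)]) (.cons (.leaf 1 [(6,2)]) (.cons (.leaf 1 [(4,1),(3,2)]) (.cons (.leaf 1 [(6,2),(2,1)]) (.cons (.leaf 1 [(6,1)]) .nil)))))))) (.cons (.keep [0,4,7,9] (.node (.cons (.keep [2,3,7,8,9] (.node (.cons (.leaf 1 [(2,1)]) (.cons (.leaf 1 [(2,1)]) (.cons (.leaf 2 [(7,1),(10,1)]) (.cons (.leaf 1 [(0,1),(10,1)]) (.cons (.leaf 1 [(7,1),(5,1),(2,1)]) (.cons (.leaf 1 [(10,1)]) .nil)))))))) (.cons (.leaf 1 [(3,1)]) (.cons (.keep [1,3,6,7,9] (.node (.cons (.leaf 1 [(6,1),(2,1)]) (.cons (.leaf 1 [(6,1),(2,1)]) (.cons (.leaf 2 [(7,1),(10,1)]) (.cons (.leaf 1 [(6,1),(0,1),(10,1)]) (.cons (.leaf 1 [(7,1),(5,1),(2,1)]) (.cons (.leaf 1 [(10,1)])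 .nil)))))))) (.cons (.leaf 1 [(3,1)]) (.cons (.keep [2,6,7,8,9] (.node (.cons (.leaf 1 [(9,1),(2,1),(6,1)]) (.cons (.leaf 1 [(9,1),(2,1),(6,1)]) (.cons (.leaf 2 [(10,1)]) (.cons (.leaf 1 [(9,1),(0,1),(6,1),(10,1)]) (.cons (.leaf 1 [(5,1),(2,1)]) (.cons (.leaf 1 [(10,1)]) .nil)))))))) (.cons (.leaf 1 []) .nil)))))))) .nil)))))))) .nil)))))))) (.cons (.keep [1,4,8,9,10] (.node (.cons (.leaf 1 [(8,1),(10,1)]) (.cons (.keep [6,7,8,9,10] (.node (.cons (.keep [2,5,6,7,10] (.node (.cons (.leaf 1 [(2,1),(7,1),(9,1)]) (.cons (.leaf 1 [(3,1),(9,1)]) (.cons (.leaf 1 [(7,1),(9,1)]) (.cons (.leaf 1 [(3,1),(9,1)]) (.cons (.leaf 1 [(2,1),(7,1),(9,1)]) (.cons (.leaf 1 [(9,1)]) .nil)))))))) (.cons (.keep [3,4,7,9,10] (.node (.cons (.leaf 1 [(2,1),(8,1)]) (.cons (.leaf 1 [(3,1),(7,1),(8,1)]) (.cons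 (.leaf 1 [(8,1)]) (.cons (.leaf 1 [(3,1),(7,1),(8,1)]) (.cons (.leaf 1 [(8,1),(2,1)]) (.cons (.leaf 1 [(8,1),(7,1)]) .nil)))))))) (.cons (.leaf 1 []) (.cons (.leaf 1 [(4,1)]) (.cons (.keep [6,7,8,9,10] (.node (.cons (.leaf 1 [(7,1),(8,2)]) (.cons (.leaf 1 [(7,1),(3,2),(4,1)]) (.cons (.leaf 1 [(7,1),(1,1),(8,2)]) (.cons (.leaf 1 [(7,1),(3,1),(8,1)]) (.cons (.leaf 1 [(7,1),(8,2),(1,1)]) (.cons (.leaf 1 [(7,1),(8,1)]) .nil)))))))) (.cons (.keep [0,4,7,8,10] (.node (.cons (.keep [2,3,6,7,8] (.node (.cons (.leaf 1 [(6,1),(7,1)]) (.cons (.leaf 1 [(6,1),(3,1)]) (.cons (.leaf 1 [(6,1),(1,1),(7,1)]) (.cons (.leaf 1 [(6,1),(3,1)]) (.cons (.leaf 1 [(6,1),(7,1),(1,1)]) (.cons (.leaf 1 [(6,1)]) .nil)))))))) (.cons (.leaf 1 [(3,1),(2,1),(8,1)]) (.cons (.keep [1,3,6,7,8,9] (.node (.cons (.leaf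 1 [(2,2),(9,2),(7,1)]) (.cons (.leaf 1 [(2,1),(9,1),(3,1)]) (.cons (.leaf 1 [(11,1),(9,1),(7,1)]) (.cons (.leaf 1 [(11,1),(3,1)]) (.cons (.leaf 1 [(11,1),(9,1),(7,1),(2,1)]) (.cons (.leaf 1 [(11,1)]) .nil)))))))) (.cons (.leaf 1 [(3,1),(9,1),(8,1)]) (.cons (.keep [2,6,7,8,9,10] (.node (.cons (.leaf 2 [(2,3),(8,2),(9,1)]) (.cons (.leaf 1 [(4,1),(6,1),(3,2)]) (.cons (.leaf 2 [(10,2),(9,1)]) (.cons (.leaf 1 [(10,1),(3,1)]) (.cons (.leaf 2 [(10,2),(9,1),(2,1)]) (.cons (.leaf 1 [(10,1)]) .nil)))))))) (.cons (.leaf 1 [(8,1),(9,1)]) .nil)))))))) .nil)))))))) (.cons (.leaf 1 [(8,1),(1,1),(7,1)]) (.cons (.leaf 1 [(8,1),(1,1),(7,1)]) (.cons (.leaf 1 [(8,1),(5,1),(1,1)]) (.cons (.keep [0,1,6,7,8] (.node (.cons (.keep [5,6,7,8,9] (.node (.cons (.leaf 1 [(6,1),(10,1)]) (.cons (.leaf 1 [(3,1),(8,1),(10,1)])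 (.cons (.leaf 1 [(6,1),(1,1),(10,1)]) (.cons (.leaf 1 [(3,1),(1,1),(10,1)]) (.cons (.leaf 1 [(6,1),(10,1),(1,1)]) (.cons (.leaf 1 [(10,1),(8,1)]) .nil)))))))) (.cons (.keep [3,4,6,7,9] (.node (.cons (.leaf 1 [(10,1)]) (.cons (.leaf 1 [(3,1),(9,1),(7,1),(10,1)]) (.cons (.leaf 1 [(1,1),(10,1)]) (.cons (.leaf 1 [(3,1),(1,1),(7,1),(10,1)]) (.cons (.leaf 1 [(10,1),(1,1)]) (.cons (.leaf 1 [(10,1),(9,1),(7,1)]) .nil)))))))) (.cons (.leaf 1 [(7,1)]) (.cons (.leaf 1 [(7,1),(4,1)]) (.cons (.keep [5,6,7,8,9] (.node (.cons (.leaf 1 [(10,1),(6,2),(2,1)]) (.cons (.leaf 1 [(3,1),(6,1),(10,1)]) (.cons (.leaf 1 [(10,1),(6,2)]) (.cons (.leaf 1 [(10,1),(3,2),(4,1)]) (.cons (.leaf 1 [(10,1),(6,2),(2,1)]) (.cons (.leaf 1 [(10,1),(6,1)]) .nil)))))))) (.cons (.keep [0,4,7,9] (.node (.cons (.keep [2,3,6,7,8,9]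 (.node (.cons (.leaf 1 [(7,1)]) (.cons (.leaf 1 [(3,1)]) (.cons (.leaf 1 [(1,1),(7,1)]) (.cons (.leaf 1 [(3,1)]) (.cons (.leaf 1 [(7,1),(1,1)]) (.cons (.leaf 1 []) .nil)))))))) (.cons (.leaf 1 [(3,1),(9,1)]) (.cons (.keep [1,3,6,7,9] (.node (.cons (.leaf 1 [(7,1),(9,1),(2,1)]) (.cons (.leaf 1 [(3,1)]) (.cons (.leaf 1 [(7,1),(9,1)]) (.cons (.leaf 1 [(3,1)]) (.cons (.leaf 1 [(7,1),(9,1),(2,1)]) (.cons (.leaf 1 []) .nil)))))))) (.cons (.leaf 1 [(3,1),(9,1)]) (.cons (.keep [2,6,7,8,9] (.node (.cons (.leaf 2 [(10,1),(2,1)]) (.cons (.leaf 1 [(3,1)]) (.cons (.leaf 2 [(10,1)]) (.cons (.leaf 1 [(3,1)]) (.cons (.leaf 2 [(10,1),(2,1)]) (.cons (.leaf 1 []) .nil)))))))) (.cons (.leaf 1 [(9,1)]) .nil)))))))) .nil)))))))) .nil)))))))) (.cons (.leaf 1 [(6,1),(5,1)]) (.cons (.leaf 1 [(6,1)]) .nil)))))))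

theorem c_21_24_1 : Concl 21 24 z_21_24_1 h_21_24_1 .nd := piece _ hP_nil t_21_24_1 _ _ (by
  decide +kernel)

def z_21_24_2 : F := ⟨1, 0, -1, 0, 1⟩

def h_21_24_2 : List F := [⟨0, 0, 1, -1, 0⟩, ⟨1, 0, 0, 0, 0⟩, ⟨0, -1, 1, 0, 0⟩, ⟨0, 0, -1, 0, 1⟩]

def t_21_24_2 : T := (.node (.cons (.keep [2,5,6,8] (.node (.cons (.leaf 1 [(7,1),(9,1)]) (.cons (.keep [3,6,7,8,9] (.node (.cons (.keep [5,6,7,8,9] (.node (.cons (.leaf 1 [(2,2),(6,1)]) (.cons (.leaf 1 [(2,1),(3,1)]) (.cons (.leaf 1 [(6,1),(7,1)]) (.cons (.leaf 1 [(3,1),(7,1)]) (.cons (.leaf 1 [(7,1),(6,1),(2,1)]) (.cons (.leaf 1 [(7,1)]) .nil)))))))) (.cons (.keep [6,7,8,9,10] (.node (.cons (.leaf 1 [(10,2),(2,2)]) (.cons (.leaf 1 [(4,1),(3,2)]) (.cons (.leaf 1 [(10,2),(6,1)]) (.cons (.leaf 1 [(3,2),(4,1),(6,1)]) (.cons (.leaf 1 [(10,2),(6,1),(2,1)])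 (.cons (.leaf 1 [(9,1)]) .nil)))))))) (.cons (.leaf 1 [(8,1),(1,2),(6,1)]) (.cons (.leaf 1 [(1,1),(3,1),(8,1)]) (.cons (.keep [1,5,6,8,9] (.node (.cons (.leaf 1 [(2,1)]) (.cons (.leaf 1 [(2,1),(6,1),(3,1)]) (.cons (.leaf 1 []) (.cons (.leaf 1 [(3,1),(6,1),(8,1)]) (.cons (.leaf 1 [(2,1)]) (.cons (.leaf 1 [(8,1),(6,1)]) .nil)))))))) (.cons (.keep [0,4,6,8,10] (.node (.cons (.keep [2,3,7,9,10] (.node (.cons (.leaf 1 [(2,1)]) (.cons (.leaf 1 [(2,1)]) (.cons (.leaf 2 [(7,1),(9,1)]) (.cons (.leaf 1 [(0,1),(9,1)]) (.cons (.leaf 1 [(7,1),(5,1),(2,1)]) (.cons (.leaf 1 [(9,1)]) .nil)))))))) (.cons (.leaf 1 [(3,1)]) (.cons (.keep [1,3,6,7,9] (.node (.cons (.leaf 1 [(6,1),(2,1)]) (.cons (.leaf 1 [(6,1),(2,1)]) (.cons (.leaf 2 [(7,1),(10,1)]) (.cons (.leaf 1 [(6,1),(0,1),(10,1)]) (.cons (.leaf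 1 [(7,1),(5,1),(2,1)]) (.cons (.leaf 1 [(10,1)]) .nil)))))))) (.cons (.leaf 1 [(3,1)]) (.cons (.keep [2,6,7,9,10] (.node (.cons (.leaf 2 [(2,1),(9,1)]) (.cons (.leaf 1 [(3,1),(9,1)]) (.cons (.leaf 2 [(9,1)]) (.cons (.leaf 1 [(3,1),(9,1)]) (.cons (.leaf 1 [(5,1),(2,1)]) (.cons (.leaf 1 [(9,1)]) .nil)))))))) (.cons (.leaf 1 []) .nil)))))))) .nil)))))))) (.cons (.leaf 1 [(8,1),(1,2)]) (.cons (.leaf 1 [(8,1),(1,2)]) (.cons (.leaf 1 [(8,1),(7,2),(5,2),(1,2)]) (.cons (.keep [0,1,6,7,9] (.node (.cons (.keep [5,6,7,9,10] (.node (.cons (.leaf 1 [(2,2),(6,1)]) (.cons (.leaf 1 [(2,1),(3,1)]) (.cons (.leaf 1 [(6,1),(10,1)]) (.cons (.leaf 1 [(3,1),(10,1)]) (.cons (.leaf 1 [(10,1),(6,1),(2,1)]) (.cons (.leaf 1 [(10,1)]) .nil)))))))) (.cons (.keep [3,4,6,7,9] (.node (.cons (.leaf 1 [(6,2)]) (.cons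 (.leaf 1 [(4,1),(3,2)]) (.cons (.leaf 1 [(1,1),(6,2)]) (.cons (.leaf 1 [(3,1),(6,1)]) (.cons (.leaf 1 [(6,2),(1,1)]) (.cons (.leaf 1 [(6,1)]) .nil)))))))) (.cons (.leaf 1 [(9,1),(1,1),(10,1)]) (.cons (.leaf 1 [(1,1),(3,1),(9,1)]) (.cons (.keep [5,6,7,9,10] (.node (.cons (.leaf 1 [(2,1)]) (.cons (.leaf 1 [(10,1),(3,1)]) (.cons (.leaf 1 []) (.cons (.leaf 1 [(3,1),(10,1)]) (.cons (.leaf 1 [(2,1)]) (.cons (.leaf 1 [(10,1)]) .nil)))))))) (.cons (.keep [0,4,7,9] (.node (.cons (.keep [2,3,7,8,9] (.node (.cons (.leaf 1 [(2,1)]) (.cons (.leaf 1 [(2,1)]) (.cons (.leaf 2 [(7,1),(10,1)]) (.cons (.leaf 1 [(0,1),(10,1)]) (.cons (.leaf 1 [(7,1),(5,1),(2,1)]) (.cons (.leaf 1 [(10,1)]) .nil)))))))) (.cons (.leaf 1 [(3,1)]) (.cons (.keep [1,3,6,7,9] (.node (.cons (.leaf 1 [(6,1),(2,1)]) (.cons (.leaf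 1 [(6,1),(2,1)]) (.cons (.leaf 2 [(7,1),(10,1)]) (.cons (.leaf 1 [(6,1),(0,1),(10,1)]) (.cons (.leaf 1 [(7,1),(5,1),(2,1)]) (.cons (.leaf 1 [(10,1)]) .nil)))))))) (.cons (.leaf 1 [(3,1)]) (.cons (.keep [2,6,7,8,9] (.node (.cons (.leaf 1 [(9,1),(2,1),(6,1)]) (.cons (.leaf 1 [(9,1),(2,1),(6,1)]) (.cons (.leaf 2 [(10,1)]) (.cons (.leaf 1 [(9,1),(0,1),(6,1),(10,1)]) (.cons (.leaf 1 [(5,1),(2,1)]) (.cons (.leaf 1 [(10,1)]) .nil)))))))) (.cons (.leaf 1 []) .nil)))))))) .nil)))))))) .nil)))))))) (.cons (.keep [2,3,4,6,8] (.node (.cons (.leaf 1 [(10,1)]) (.cons (.keep [3,6,7,8,10] (.node (.cons (.keep [2,5,6,7,9] (.node (.cons (.leaf 1 [(7,1),(2,2),(10,1)]) (.cons (.leaf 1 [(3,1),(2,1),(10,1)]) (.cons (.leaf 1 [(7,1),(8,1),(10,1)]) (.cons (.leaf 1 [(3,1),(8,1),(10,1)]) (.cons (.leaf 1 [(7,1),(8,1),(10,1),(2,1)])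 (.cons (.leaf 1 [(10,1),(8,1)]) .nil)))))))) (.cons (.keep [0,6,7,9,10] (.node (.cons (.leaf 1 [(9,1),(10,2),(2,2)]) (.cons (.leaf 1 [(9,1),(3,2),(4,1)]) (.cons (.leaf 1 [(9,1),(10,2),(7,1)]) (.cons (.leaf 1 [(9,1),(3,2),(7,1),(4,1)]) (.cons (.leaf 1 [(9,1),(10,2),(7,1),(2,1)]) (.cons (.leaf 1 [(9,1),(10,1),(7,1)]) .nil)))))))) (.cons (.leaf 1 [(1,2),(6,1)]) (.cons (.leaf 1 [(1,1),(3,1)]) (.cons (.keep [1,5,6,8,9] (.node (.cons (.leaf 1 [(2,1),(10,1)]) (.cons (.leaf 1 [(3,1),(2,1),(6,1),(10,1)]) (.cons (.leaf 1 [(10,1)]) (.cons (.leaf 1 [(3,1),(8,1),(6,1),(10,1)]) (.cons (.leaf 1 [(10,1),(2,1)]) (.cons (.leaf 1 [(10,1),(8,1),(6,1)]) .nil)))))))) (.cons (.keep [0,4,6,9,10] (.node (.cons (.keep [2,3,6,7,9,10] (.node (.cons (.leaf 1 [(7,1)]) (.cons (.leaf 1 [(3,1)]) (.cons (.leaf 1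 [(1,1),(7,1)]) (.cons (.leaf 1 [(3,1)]) (.cons (.leaf 1 [(7,1),(1,1)]) (.cons (.leaf 1 []) .nil)))))))) (.cons (.leaf 1 [(3,1),(9,1)]) (.cons (.keep [1,3,6,7,9] (.node (.cons (.leaf 1 [(7,1),(9,1),(2,1)]) (.cons (.leaf 1 [(3,1)]) (.cons (.leaf 1 [(7,1),(9,1)]) (.cons (.leaf 1 [(3,1)]) (.cons (.leaf 1 [(7,1),(9,1),(2,1)]) (.cons (.leaf 1 []) .nil)))))))) (.cons (.leaf 1 [(3,1),(9,1)]) (.cons (.keep [2,6,7,9,10] (.node (.cons (.leaf 2 [(9,1),(2,1)]) (.cons (.leaf 1 [(3,1)]) (.cons (.leaf 2 [(9,1)]) (.cons (.leaf 1 [(3,1)]) (.cons (.leaf 2 [(9,1),(2,1)]) (.cons (.leaf 1 []) .nil)))))))) (.cons (.leaf 1 [(9,1)]) .nil)))))))) .nil)))))))) (.cons (.leaf 1 [(9,1),(1,2),(8,1)]) (.cons (.leaf 1 [(9,1),(1,2),(8,1)]) (.cons (.leaf 1 [(10,1),(1,1)]) (.cons (.keep [0,1,6,8,10] (.node (.cons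 (.keep [2,5,7,9,10] (.node (.cons (.leaf 1 [(7,1),(2,2),(9,1)]) (.cons (.leaf 1 [(3,1),(2,1),(9,1)]) (.cons (.leaf 1 [(7,1),(10,1),(9,1)]) (.cons (.leaf 1 [(3,1),(10,1),(9,1)]) (.cons (.leaf 1 [(7,1),(10,1),(9,1),(2,1)]) (.cons (.leaf 1 [(9,1),(10,1)]) .nil)))))))) (.cons (.keep [3,4,6,7,9] (.node (.cons (.leaf 1 [(10,1),(6,2)]) (.cons (.leaf 1 [(10,1),(3,2),(4,1)]) (.cons (.leaf 1 [(10,1),(1,1),(6,2)]) (.cons (.leaf 1 [(10,1),(3,1),(6,1)]) (.cons (.leaf 1 [(10,1),(6,2),(1,1)]) (.cons (.leaf 1 [(10,1),(6,1)]) .nil)))))))) (.cons (.leaf 1 [(1,1),(10,1)]) (.cons (.leaf 1 [(1,1),(3,1)]) (.cons (.keep [5,6,7,9,10] (.node (.cons (.leaf 1 [(9,1),(2,1)]) (.cons (.leaf 1 [(3,1),(10,1),(9,1)]) (.cons (.leaf 1 [(9,1)]) (.cons (.leaf 1 [(3,1),(10,1),(9,1)]) (.cons (.leaf 1 [(9,1),(2,1)]) (.cons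 (.leaf 1 [(9,1),(10,1)]) .nil)))))))) (.cons (.keep [0,4,7,9] (.node (.cons (.keep [2,3,6,7,8,9] (.node (.cons (.leaf 1 [(7,1)]) (.cons (.leaf 1 [(3,1)]) (.cons (.leaf 1 [(1,1),(7,1)]) (.cons (.leaf 1 [(3,1)]) (.cons (.leaf 1 [(7,1),(1,1)]) (.cons (.leaf 1 []) .nil)))))))) (.cons (.leaf 1 [(3,1),(9,1)]) (.cons (.keep [1,3,6,7,9] (.node (.cons (.leaf 1 [(7,1),(9,1),(2,1)]) (.cons (.leaf 1 [(3,1)]) (.cons (.leaf 1 [(7,1),(9,1)]) (.cons (.leaf 1 [(3,1)]) (.cons (.leaf 1 [(7,1),(9,1),(2,1)]) (.cons (.leaf 1 []) .nil)))))))) (.cons (.leaf 1 [(3,1),(9,1)]) (.cons (.keep [2,6,7,8,9] (.node (.cons (.leaf 2 [(10,1),(2,1)]) (.cons (.leaf 1 [(3,1)]) (.cons (.leaf 2 [(10,1)]) (.cons (.leaf 1 [(3,1)]) (.cons (.leaf 2 [(10,1),(2,1)]) (.cons (.leaf 1 []) .nil)))))))) (.cons (.leaf 1 [(9,1)]) .nil))))))))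 .nil)))))))) .nil)))))))) (.cons (.keep [1,5,6,8,9] (.node (.cons (.leaf 1 [(9,1),(7,1),(10,1)]) (.cons (.keep [3,7,8,9,10] (.node (.cons (.keep [5,6,7,8,10] (.node (.cons (.leaf 1 [(6,1),(2,1)]) (.cons (.leaf 1 [(3,1)]) (.cons (.leaf 1 [(6,1)]) (.cons (.leaf 1 [(3,1)]) (.cons (.leaf 1 [(6,1),(2,1)]) (.cons (.leaf 1 []) .nil)))))))) (.cons (.keep [0,6,7,9,10] (.node (.cons (.leaf 1 [(9,1),(2,1)]) (.cons (.leaf 1 [(3,1)]) (.cons (.leaf 1 [(9,1)]) (.cons (.leaf 1 [(3,1)]) (.cons (.leaf 1 [(9,1),(2,1)]) (.cons (.leaf 1 []) .nil)))))))) (.cons (.leaf 1 [(7,1),(1,1)]) (.cons (.leaf 1 [(7,1),(1,1)]) (.cons (.keep [1,5,6,7,8] (.node (.cons (.leaf 1 [(7,1),(2,1)]) (.cons (.leaf 1 [(3,1)]) (.cons (.leaf 1 [(7,1)]) (.cons (.leaf 1 [(3,1)]) (.cons (.leaf 1 [(7,1),(2,1)]) (.cons (.leaf 1 [])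 .nil)))))))) (.cons (.keep [0,4,6,7,9] (.node (.cons (.keep [2,3,7,9,10] (.node (.cons (.leaf 1 [(2,1)]) (.cons (.leaf 1 [(2,1)]) (.cons (.leaf 2 [(7,1),(9,1)]) (.cons (.leaf 1 [(0,1),(9,1)]) (.cons (.leaf 1 [(7,1),(5,1),(2,1)]) (.cons (.leaf 1 [(9,1)]) .nil)))))))) (.cons (.leaf 1 [(3,1)]) (.cons (.keep [1,3,6,7,9] (.node (.cons (.leaf 1 [(6,1),(2,1)]) (.cons (.leaf 1 [(6,1),(2,1)]) (.cons (.leaf 2 [(7,1),(10,1)]) (.cons (.leaf 1 [(6,1),(0,1),(10,1)]) (.cons (.leaf 1 [(7,1),(5,1),(2,1)]) (.cons (.leaf 1 [(10,1)]) .nil)))))))) (.cons (.leaf 1 [(3,1)]) (.cons (.keep [2,6,7,9,10] (.node (.cons (.leaf 2 [(2,1),(9,1)]) (.cons (.leaf 1 [(3,1),(9,1)]) (.cons (.leaf 2 [(9,1)]) (.cons (.leaf 1 [(3,1),(9,1)]) (.cons (.leaf 1 [(5,1),(2,1)]) (.cons (.leaf 1 [(9,1)]) .nil)))))))) (.cons (.leaf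 1 []) .nil)))))))) .nil)))))))) (.cons (.leaf 1 [(1,1)]) (.cons (.leaf 1 [(1,1)]) (.cons (.leaf 1 [(7,1),(5,1),(1,1)]) (.cons (.keep [0,1,6,7,10] (.node (.cons (.keep [5,6,7,8,9] (.node (.cons (.leaf 1 [(6,1),(2,1)]) (.cons (.leaf 1 [(3,1)]) (.cons (.leaf 1 [(6,1)]) (.cons (.leaf 1 [(3,1)]) (.cons (.leaf 1 [(6,1),(2,1)]) (.cons (.leaf 1 []) .nil)))))))) (.cons (.keep [3,4,6,7,9] (.node (.cons (.leaf 1 [(6,1)]) (.cons (.leaf 1 [(3,1)]) (.cons (.leaf 1 [(1,1),(6,1)]) (.cons (.leaf 1 [(3,1)]) (.cons (.leaf 1 [(6,1),(1,1)]) (.cons (.leaf 1 []) .nil)))))))) (.cons (.leaf 1 [(9,1),(1,1)]) (.cons (.leaf 1 [(9,1),(1,1)]) (.cons (.keep [5,6,7,8,9] (.node (.cons (.leaf 1 [(6,1),(2,1)]) (.cons (.leaf 1 [(3,1)]) (.cons (.leaf 1 [(6,1)]) (.cons (.leaf 1 [(3,1)]) (.cons (.leaf 1 [(6,1),(2,1)])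 (.cons (.leaf 1 []) .nil)))))))) (.cons (.keep [0,4,7,9] (.node (.cons (.keep [2,3,7,8,9] (.node (.cons (.leaf 1 [(2,1)]) (.cons (.leaf 1 [(2,1)]) (.cons (.leaf 2 [(7,1),(10,1)]) (.cons (.leaf 1 [(0,1),(10,1)]) (.cons (.leaf 1 [(7,1),(5,1),(2,1)]) (.cons (.leaf 1 [(10,1)]) .nil)))))))) (.cons (.leaf 1 [(3,1)]) (.cons (.keep [1,3,6,7,9] (.node (.cons (.leaf 1 [(6,1),(2,1)]) (.cons (.leaf 1 [(6,1),(2,1)]) (.cons (.leaf 2 [(7,1),(10,1)]) (.cons (.leaf 1 [(6,1),(0,1),(10,1)]) (.cons (.leaf 1 [(7,1),(5,1),(2,1)]) (.cons (.leaf 1 [(10,1)]) .nil)))))))) (.cons (.leaf 1 [(3,1)]) (.cons (.keep [2,6,7,8,9] (.node (.cons (.leaf 1 [(9,1),(2,1),(6,1)]) (.cons (.leaf 1 [(9,1),(2,1),(6,1)]) (.cons (.leaf 2 [(10,1)]) (.cons (.leaf 1 [(9,1),(0,1),(6,1),(10,1)]) (.cons (.leaf 1 [(5,1),(2,1)]) (.cons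 (.leaf 1 [(10,1)]) .nil)))))))) (.cons (.leaf 1 []) .nil)))))))) .nil)))))))) .nil)))))))) (.cons (.keep [1,3,4,8,9] (.node (.cons (.leaf 1 [(9,1),(10,1)]) (.cons (.keep [3,7,8,9,10] (.node (.cons (.keep [5,6,7,8,10] (.node (.cons (.leaf 1 [(2,1),(6,1),(9,1)]) (.cons (.leaf 1 [(3,1),(9,1)]) (.cons (.leaf 1 [(6,1),(9,1)]) (.cons (.leaf 1 [(3,1),(9,1)]) (.cons (.leaf 1 [(2,1),(6,1),(9,1)]) (.cons (.leaf 1 [(9,1)]) .nil)))))))) (.cons (.keep [2,6,8,9,10] (.node (.cons (.leaf 1 [(2,1),(9,1),(8,1)]) (.cons (.leaf 1 [(3,1),(8,1)]) (.cons (.leaf 1 [(9,1),(8,1)]) (.cons (.leaf 1 [(3,1),(8,1)]) (.cons (.leaf 1 [(2,1),(9,1),(8,1)]) (.cons (.leaf 1 [(8,1)]) .nil)))))))) (.cons (.leaf 1 [(1,1)]) (.cons (.leaf 1 [(1,1)]) (.cons (.keep [1,5,6,7,8] (.node (.cons (.leaf 1 [(2,1),(7,1),(10,1)])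 (.cons (.leaf 1 [(3,1),(10,1)]) (.cons (.leaf 1 [(7,1),(10,1)]) (.cons (.leaf 1 [(3,1),(10,1)]) (.cons (.leaf 1 [(2,1),(7,1),(10,1)]) (.cons (.leaf 1 [(10,1)]) .nil)))))))) (.cons (.keep [0,4,6,8,9] (.node (.cons (.keep [2,3,6,7,9,10] (.node (.cons (.leaf 1 [(7,1)]) (.cons (.leaf 1 [(3,1)]) (.cons (.leaf 1 [(1,1),(7,1)]) (.cons (.leaf 1 [(3,1)]) (.cons (.leaf 1 [(7,1),(1,1)]) (.cons (.leaf 1 []) .nil)))))))) (.cons (.leaf 1 [(3,1),(9,1)]) (.cons (.keep [1,3,6,7,9] (.node (.cons (.leaf 1 [(7,1),(9,1),(2,1)]) (.cons (.leaf 1 [(3,1)]) (.cons (.leaf 1 [(7,1),(9,1)]) (.cons (.leaf 1 [(3,1)]) (.cons (.leaf 1 [(7,1),(9,1),(2,1)]) (.cons (.leaf 1 []) .nil)))))))) (.cons (.leaf 1 [(3,1),(9,1)]) (.cons (.keep [2,6,7,9,10] (.node (.cons (.leaf 2 [(9,1),(2,1)]) (.cons (.leaf 1 [(3,1)]) (.cons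 (.leaf 2 [(9,1)]) (.cons (.leaf 1 [(3,1)]) (.cons (.leaf 2 [(9,1),(2,1)]) (.cons (.leaf 1 []) .nil)))))))) (.cons (.leaf 1 [(9,1)]) .nil)))))))) .nil)))))))) (.cons (.leaf 1 [(1,1),(8,1)]) (.cons (.leaf 1 [(1,1),(8,1)]) (.cons (.leaf 1 [(5,1),(1,1)]) (.cons (.keep [0,1,6,8,10] (.node (.cons (.keep [5,6,7,8,9] (.node (.cons (.leaf 1 [(2,1),(6,1),(10,1)]) (.cons (.leaf 1 [(3,1),(10,1)]) (.cons (.leaf 1 [(6,1),(10,1)]) (.cons (.leaf 1 [(3,1),(10,1)]) (.cons (.leaf 1 [(2,1),(6,1),(10,1)]) (.cons (.leaf 1 [(10,1)]) .nil)))))))) (.cons (.keep [3,4,6,7,9] (.node (.cons (.leaf 1 [(6,1),(10,1)]) (.cons (.leaf 1 [(3,1),(10,1)]) (.cons (.leaf 1 [(6,1),(1,1),(10,1)]) (.cons (.leaf 1 [(3,1),(10,1)]) (.cons (.leaf 1 [(6,1),(10,1),(1,1)]) (.cons (.leaf 1 [(10,1)]) .nil)))))))) (.cons (.leaf 1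 [(1,1)]) (.cons (.leaf 1 [(1,1)]) (.cons (.keep [5,6,7,8,9] (.node (.cons (.leaf 1 [(6,1),(10,1),(2,1)]) (.cons (.leaf 1 [(3,1),(10,1)]) (.cons (.leaf 1 [(6,1),(10,1)]) (.cons (.leaf 1 [(3,1),(10,1)]) (.cons (.leaf 1 [(2,1),(6,1),(10,1)]) (.cons (.leaf 1 [(10,1)]) .nil)))))))) (.cons (.keep [0,4,7,9] (.node (.cons (.keep [2,3,6,7,8,9] (.node (.cons (.leaf 1 [(7,1)]) (.cons (.leaf 1 [(3,1)]) (.cons (.leaf 1 [(1,1),(7,1)]) (.cons (.leaf 1 [(3,1)]) (.cons (.leaf 1 [(7,1),(1,1)]) (.cons (.leaf 1 []) .nil)))))))) (.cons (.leaf 1 [(3,1),(9,1)]) (.cons (.keep [1,3,6,7,9] (.node (.cons (.leaf 1 [(7,1),(9,1),(2,1)]) (.cons (.leaf 1 [(3,1)]) (.cons (.leaf 1 [(7,1),(9,1)]) (.cons (.leaf 1 [(3,1)]) (.cons (.leaf 1 [(7,1),(9,1),(2,1)]) (.cons (.leaf 1 []) .nil)))))))) (.cons (.leaf 1 [(3,1),(9,1)])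 (.cons (.keep [2,6,7,8,9] (.node (.cons (.leaf 2 [(10,1),(2,1)]) (.cons (.leaf 1 [(3,1)]) (.cons (.leaf 2 [(10,1)]) (.cons (.leaf 1 [(3,1)]) (.cons (.leaf 2 [(10,1),(2,1)]) (.cons (.leaf 1 []) .nil)))))))) (.cons (.leaf 1 [(9,1)]) .nil)))))))) .nil)))))))) .nil)))))))) (.cons (.leaf 1 [(1,1),(5,2),(6,1)]) (.cons (.keep [0,1,6,8] (.node (.cons (.keep [3,6,7,8,9] (.node (.cons (.leaf 1 [(6,1)]) (.cons (.leaf 1 [(3,1)]) (.cons (.leaf 1 [(1,1),(6,1)]) (.cons (.leaf 1 [(3,1)]) (.cons (.leaf 1 [(6,1),(1,1)]) (.cons (.leaf 1 []) .nil)))))))) (.cons (.leaf 1 [(3,1),(9,1)]) (.cons (.leaf 1 [(8,1),(1,1)]) (.cons (.leaf 1 [(8,1),(1,1)]) (.cons (.keep [1,6,7,8,9] (.node (.cons (.leaf 2 [(10,1),(2,1)]) (.cons (.leaf 1 [(3,1)]) (.cons (.leaf 2 [(10,1)]) (.cons (.leaf 1 [(3,1)]) (.cons (.leaf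 2 [(10,1),(2,1)]) (.cons (.leaf 1 []) .nil)))))))) (.cons (.leaf 1 [(9,1)]) .nil)))))))) .nil)))))))

theorem c_21_24_2 : Concl 21 24 z_21_24_2 h_21_24_2 .nd := piece _ hP_nil t_21_24_2 _ _ (by
  decide +kernel)

def z_21_24_3 : F := ⟨1, 0, -1, 0, 1⟩

def h_21_24_3 : List F := [⟨0, 1, 0, 0, 0⟩, ⟨0, 0, 1, -1, 0⟩, ⟨0, -1, 1, 0, 0⟩, ⟨1, -1, 0, 0, 2⟩,
  ⟨0, 0, -1, 0, 1⟩]

def t_21_24_3 : T := (.node (.cons (.keep [2,5,6,8,9] (.node (.cons (.leaf 1 [(7,1),(9,1)]) (.cons (.keep [3,6,7,9,10] (.node (.cons (.keep [5,6,7,8,10] (.node (.cons (.leaf 1 [(2,2),(6,1)]) (.cons (.leaf 1 [(2,1),(3,1)]) (.cons (.leaf 1 [(6,1),(7,1)]) (.cons (.leaf 1 [(3,1),(7,1)]) (.cons (.leaf 1 [(7,1),(6,1),(2,1)]) (.cons (.leaf 1 [(7,1)]) .nil)))))))) (.cons (.keep [6,7,8,9,10] (.node (.cons (.leaf 1 [(9,2),(2,2)])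 (.cons (.leaf 1 [(4,1),(3,2)]) (.cons (.leaf 1 [(9,2),(6,1)]) (.cons (.leaf 1 [(3,2),(4,1),(6,1)]) (.cons (.leaf 1 [(9,2),(6,1),(2,1)]) (.cons (.leaf 1 [(9,1),(6,1)]) .nil)))))))) (.cons (.leaf 1 [(8,1),(1,2),(6,1)]) (.cons (.leaf 1 [(1,1),(3,1),(8,1)]) (.cons (.keep [1,5,6,8,10] (.node (.cons (.leaf 1 [(2,1)]) (.cons (.leaf 1 [(2,1),(6,1),(3,1)]) (.cons (.leaf 1 []) (.cons (.leaf 1 [(3,1),(6,1),(8,1)]) (.cons (.leaf 1 [(2,1)]) (.cons (.leaf 1 [(8,1),(6,1)]) .nil)))))))) (.cons (.keep [0,4,6,8,9] (.node (.cons (.keep [2,3,7,9,10] (.node (.cons (.leaf 1 [(2,1)]) (.cons (.leaf 1 [(2,1)]) (.cons (.leaf 2 [(7,1),(9,1)]) (.cons (.leaf 1 [(0,1),(9,1)]) (.cons (.leaf 1 [(7,1),(5,1),(2,1)]) (.cons (.leaf 1 [(9,1)]) .nil)))))))) (.cons (.leaf 1 [(3,1)]) (.cons (.keep [1,3,6,7,9] (.node (.cons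 (.leaf 1 [(6,1),(2,1)]) (.cons (.leaf 1 [(6,1),(2,1)]) (.cons (.leaf 2 [(7,1),(10,1)]) (.cons (.leaf 1 [(6,1),(0,1),(10,1)]) (.cons (.leaf 1 [(7,1),(5,1),(2,1)]) (.cons (.leaf 1 [(10,1)]) .nil)))))))) (.cons (.leaf 1 [(3,1)]) (.cons (.keep [2,6,7,9,10] (.node (.cons (.leaf 2 [(2,1),(9,1)]) (.cons (.leaf 1 [(3,1),(9,1)]) (.cons (.leaf 2 [(9,1)]) (.cons (.leaf 1 [(3,1),(9,1)]) (.cons (.leaf 1 [(5,1),(2,1)]) (.cons (.leaf 1 [(9,1)]) .nil)))))))) (.cons (.leaf 1 []) .nil)))))))) .nil)))))))) (.cons (.leaf 1 [(7,1),(1,1),(9,1)]) (.cons (.leaf 1 [(3,1),(1,1),(9,1)]) (.cons (.leaf 1 [(7,1),(9,1),(1,1)]) (.cons (.keep [0,1,6,7,9] (.node (.cons (.keep [5,6,7,9,10] (.node (.cons (.leaf 1 [(2,2),(6,1)]) (.cons (.leaf 1 [(2,1),(3,1)]) (.cons (.leaf 1 [(6,1),(10,1)]) (.cons (.leaf 1 [(3,1),(10,1)])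 (.cons (.leaf 1 [(10,1),(6,1),(2,1)]) (.cons (.leaf 1 [(10,1)]) .nil)))))))) (.cons (.keep [3,4,6,7,9] (.node (.cons (.leaf 1 [(6,2)]) (.cons (.leaf 1 [(4,1),(3,2)]) (.cons (.leaf 1 [(1,1),(6,2)]) (.cons (.leaf 1 [(3,1),(6,1)]) (.cons (.leaf 1 [(6,2),(1,1)]) (.cons (.leaf 1 [(6,1)]) .nil)))))))) (.cons (.leaf 1 [(9,1),(1,1),(10,1)]) (.cons (.leaf 1 [(1,1),(3,1),(9,1)]) (.cons (.keep [5,6,7,9,10] (.node (.cons (.leaf 1 [(2,1)]) (.cons (.leaf 1 [(10,1),(3,1)]) (.cons (.leaf 1 []) (.cons (.leaf 1 [(3,1),(10,1)]) (.cons (.leaf 1 [(2,1)]) (.cons (.leaf 1 [(10,1)]) .nil)))))))) (.cons (.keep [0,4,7,9] (.node (.cons (.keep [2,3,7,8,9] (.node (.cons (.leaf 1 [(2,1)]) (.cons (.leaf 1 [(2,1)]) (.cons (.leaf 2 [(7,1),(10,1)]) (.cons (.leaf 1 [(0,1),(10,1)]) (.cons (.leaf 1 [(7,1),(5,1),(2,1)])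 (.cons (.leaf 1 [(10,1)]) .nil)))))))) (.cons (.leaf 1 [(3,1)]) (.cons (.keep [1,3,6,7,9] (.node (.cons (.leaf 1 [(6,1),(2,1)]) (.cons (.leaf 1 [(6,1),(2,1)]) (.cons (.leaf 2 [(7,1),(10,1)]) (.cons (.leaf 1 [(6,1),(0,1),(10,1)]) (.cons (.leaf 1 [(7,1),(5,1),(2,1)]) (.cons (.leaf 1 [(10,1)]) .nil)))))))) (.cons (.leaf 1 [(3,1)]) (.cons (.keep [2,6,7,8,9] (.node (.cons (.leaf 1 [(9,1),(2,1),(6,1)]) (.cons (.leaf 1 [(9,1),(2,1),(6,1)]) (.cons (.leaf 2 [(10,1)]) (.cons (.leaf 1 [(9,1),(0,1),(6,1),(10,1)]) (.cons (.leaf 1 [(5,1),(2,1)]) (.cons (.leaf 1 [(10,1)]) .nil)))))))) (.cons (.leaf 1 []) .nil)))))))) .nil)))))))) .nil)))))))) (.cons (.keep [2,4,6,8,9] (.node (.cons (.leaf 1 [(9,1)]) (.cons (.keep [3,4,6,7,9] (.node (.cons (.keep [5,6,7,8,9] (.node (.cons (.leaf 1 [(6,1),(2,2),(10,1)])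 (.cons (.leaf 1 [(3,1),(2,1),(10,1)]) (.cons (.leaf 1 [(6,1),(7,1),(10,1)]) (.cons (.leaf 1 [(3,1),(7,1),(10,1)]) (.cons (.leaf 1 [(6,1),(7,1),(10,1),(2,1)]) (.cons (.leaf 1 [(10,1),(7,1)]) .nil)))))))) (.cons (.keep [6,7,8,9,10] (.node (.cons (.leaf 1 [(9,1),(10,2),(2,2)]) (.cons (.leaf 1 [(9,1),(3,2),(4,1)]) (.cons (.leaf 1 [(9,1),(10,2),(6,1)]) (.cons (.leaf 1 [(9,1),(3,2),(6,1),(4,1)]) (.cons (.leaf 1 [(9,1),(10,2),(6,1),(2,1)]) (.cons (.leaf 1 [(9,1),(10,1),(6,1)]) .nil)))))))) (.cons (.leaf 1 [(1,2),(6,1)]) (.cons (.leaf 1 [(1,1),(3,1)]) (.cons (.keep [1,5,6,7,9] (.node (.cons (.leaf 1 [(2,1),(10,1)]) (.cons (.leaf 1 [(3,1),(2,1),(6,1),(10,1)]) (.cons (.leaf 1 [(10,1)]) (.cons (.leaf 1 [(3,1),(8,1),(6,1),(10,1)]) (.cons (.leaf 1 [(10,1),(2,1)]) (.cons (.leaf 1 [(10,1),(8,1),(6,1)])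 .nil)))))))) (.cons (.keep [0,4,6,9,10] (.node (.cons (.keep [2,3,6,7,9,10] (.node (.cons (.leaf 1 [(7,1)]) (.cons (.leaf 1 [(3,1)]) (.cons (.leaf 1 [(1,1),(7,1)]) (.cons (.leaf 1 [(3,1)]) (.cons (.leaf 1 [(7,1),(1,1)]) (.cons (.leaf 1 []) .nil)))))))) (.cons (.leaf 1 [(3,1),(9,1)]) (.cons (.keep [1,3,6,7,9] (.node (.cons (.leaf 1 [(7,1),(9,1),(2,1)]) (.cons (.leaf 1 [(3,1)]) (.cons (.leaf 1 [(7,1),(9,1)]) (.cons (.leaf 1 [(3,1)]) (.cons (.leaf 1 [(7,1),(9,1),(2,1)]) (.cons (.leaf 1 []) .nil)))))))) (.cons (.leaf 1 [(3,1),(9,1)]) (.cons (.keep [2,6,7,9,10] (.node (.cons (.leaf 2 [(9,1),(2,1)]) (.cons (.leaf 1 [(3,1)]) (.cons (.leaf 2 [(9,1)]) (.cons (.leaf 1 [(3,1)]) (.cons (.leaf 2 [(9,1),(2,1)]) (.cons (.leaf 1 []) .nil)))))))) (.cons (.leaf 1 [(9,1)]) .nil)))))))) .nil))))))))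 (.cons (.leaf 1 [(1,1),(9,1)]) (.cons (.leaf 1 [(3,1),(1,1),(7,1),(9,1)]) (.cons (.leaf 1 [(9,1),(1,1)]) (.cons (.keep [0,1,6,7,9] (.node (.cons (.keep [2,5,7,9,10] (.node (.cons (.leaf 1 [(7,1),(2,2),(9,1)]) (.cons (.leaf 1 [(3,1),(2,1),(9,1)]) (.cons (.leaf 1 [(7,1),(10,1),(9,1)]) (.cons (.leaf 1 [(3,1),(10,1),(9,1)]) (.cons (.leaf 1 [(7,1),(10,1),(9,1),(2,1)]) (.cons (.leaf 1 [(9,1),(10,1)]) .nil)))))))) (.cons (.keep [3,4,6,7,9] (.node (.cons (.leaf 1 [(10,1),(6,2)]) (.cons (.leaf 1 [(10,1),(3,2),(4,1)]) (.cons (.leaf 1 [(10,1),(1,1),(6,2)]) (.cons (.leaf 1 [(10,1),(3,1),(6,1)]) (.cons (.leaf 1 [(10,1),(6,2),(1,1)]) (.cons (.leaf 1 [(10,1),(6,1)]) .nil)))))))) (.cons (.leaf 1 [(1,1),(10,1)]) (.cons (.leaf 1 [(1,1),(3,1)]) (.cons (.keep [5,6,7,9,10] (.node (.cons (.leaf 1 [(9,1),(2,1)])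 (.cons (.leaf 1 [(3,1),(10,1),(9,1)]) (.cons (.leaf 1 [(9,1)]) (.cons (.leaf 1 [(3,1),(10,1),(9,1)]) (.cons (.leaf 1 [(9,1),(2,1)]) (.cons (.leaf 1 [(9,1),(10,1)]) .nil)))))))) (.cons (.keep [0,4,7,9] (.node (.cons (.keep [2,3,6,7,8,9] (.node (.cons (.leaf 1 [(7,1)]) (.cons (.leaf 1 [(3,1)]) (.cons (.leaf 1 [(1,1),(7,1)]) (.cons (.leaf 1 [(3,1)]) (.cons (.leaf 1 [(7,1),(1,1)]) (.cons (.leaf 1 []) .nil)))))))) (.cons (.leaf 1 [(3,1),(9,1)]) (.cons (.keep [1,3,6,7,9] (.node (.cons (.leaf 1 [(7,1),(9,1),(2,1)]) (.cons (.leaf 1 [(3,1)]) (.cons (.leaf 1 [(7,1),(9,1)]) (.cons (.leaf 1 [(3,1)]) (.cons (.leaf 1 [(7,1),(9,1),(2,1)]) (.cons (.leaf 1 []) .nil)))))))) (.cons (.leaf 1 [(3,1),(9,1)]) (.cons (.keep [2,6,7,8,9] (.node (.cons (.leaf 2 [(10,1),(2,1)]) (.cons (.leaf 1 [(3,1)]) (.cons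 (.leaf 2 [(10,1)]) (.cons (.leaf 1 [(3,1)]) (.cons (.leaf 2 [(10,1),(2,1)]) (.cons (.leaf 1 []) .nil)))))))) (.cons (.leaf 1 [(9,1)]) .nil)))))))) .nil)))))))) .nil)))))))) (.cons (.keep [5,6,8,9,10] (.node (.cons (.leaf 1 [(8,1),(6,1),(10,1)]) (.cons (.keep [3,6,8,9,10] (.node (.cons (.keep [5,6,7,9,10] (.node (.cons (.leaf 1 [(6,1),(2,1)]) (.cons (.leaf 1 [(3,1)]) (.cons (.leaf 1 [(6,1)]) (.cons (.leaf 1 [(3,1)]) (.cons (.leaf 1 [(6,1),(2,1)]) (.cons (.leaf 1 []) .nil)))))))) (.cons (.keep [6,7,8,9,10] (.node (.cons (.leaf 1 [(8,1),(2,1)]) (.cons (.leaf 1 [(3,1)]) (.cons (.leaf 1 [(8,1)]) (.cons (.leaf 1 [(3,1)]) (.cons (.leaf 1 [(8,1),(2,1)]) (.cons (.leaf 1 []) .nil)))))))) (.cons (.leaf 1 [(7,1),(1,1)]) (.cons (.leaf 1 [(7,1),(1,1)]) (.cons (.keep [1,5,6,7,9] (.node (.cons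 (.leaf 1 [(7,1),(2,1)]) (.cons (.leaf 1 [(3,1)]) (.cons (.leaf 1 [(7,1)]) (.cons (.leaf 1 [(3,1)]) (.cons (.leaf 1 [(7,1),(2,1)]) (.cons (.leaf 1 []) .nil)))))))) (.cons (.keep [0,4,6,7,8] (.node (.cons (.keep [2,3,7,9,10] (.node (.cons (.leaf 1 [(2,1)]) (.cons (.leaf 1 [(2,1)]) (.cons (.leaf 2 [(7,1),(9,1)]) (.cons (.leaf 1 [(0,1),(9,1)]) (.cons (.leaf 1 [(7,1),(5,1),(2,1)]) (.cons (.leaf 1 [(9,1)]) .nil)))))))) (.cons (.leaf 1 [(3,1)]) (.cons (.keep [1,3,6,7,9] (.node (.cons (.leaf 1 [(6,1),(2,1)]) (.cons (.leaf 1 [(6,1),(2,1)]) (.cons (.leaf 2 [(7,1),(10,1)]) (.cons (.leaf 1 [(6,1),(0,1),(10,1)]) (.cons (.leaf 1 [(7,1),(5,1),(2,1)]) (.cons (.leaf 1 [(10,1)]) .nil)))))))) (.cons (.leaf 1 [(3,1)]) (.cons (.keep [2,6,7,9,10] (.node (.cons (.leaf 2 [(2,1),(9,1)]) (.cons (.leaf 1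 [(3,1),(9,1)]) (.cons (.leaf 2 [(9,1)]) (.cons (.leaf 1 [(3,1),(9,1)]) (.cons (.leaf 1 [(5,1),(2,1)]) (.cons (.leaf 1 [(9,1)]) .nil)))))))) (.cons (.leaf 1 []) .nil)))))))) .nil)))))))) (.cons (.leaf 1 [(1,1)]) (.cons (.leaf 1 [(1,1)]) (.cons (.leaf 1 [(6,1),(5,1),(1,1)]) (.cons (.keep [0,1,6,8,10] (.node (.cons (.keep [5,6,7,8,9] (.node (.cons (.leaf 1 [(6,1),(2,1)]) (.cons (.leaf 1 [(3,1)]) (.cons (.leaf 1 [(6,1)]) (.cons (.leaf 1 [(3,1)]) (.cons (.leaf 1 [(6,1),(2,1)]) (.cons (.leaf 1 []) .nil)))))))) (.cons (.keep [3,4,6,7,8] (.node (.cons (.leaf 1 [(6,1)]) (.cons (.leaf 1 [(3,1)]) (.cons (.leaf 1 [(1,1),(6,1)]) (.cons (.leaf 1 [(3,1)]) (.cons (.leaf 1 [(6,1),(1,1)]) (.cons (.leaf 1 []) .nil)))))))) (.cons (.leaf 1 [(8,1),(1,1)]) (.cons (.leaf 1 [(8,1),(1,1)]) (.cons (.keep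 [5,6,7,8,9] (.node (.cons (.leaf 1 [(6,1),(2,1)]) (.cons (.leaf 1 [(3,1)]) (.cons (.leaf 1 [(6,1)]) (.cons (.leaf 1 [(3,1)]) (.cons (.leaf 1 [(6,1),(2,1)]) (.cons (.leaf 1 []) .nil)))))))) (.cons (.keep [0,4,7,8] (.node (.cons (.keep [2,3,7,8,9] (.node (.cons (.leaf 1 [(2,1)]) (.cons (.leaf 1 [(2,1)]) (.cons (.leaf 2 [(7,1),(10,1)]) (.cons (.leaf 1 [(0,1),(10,1)]) (.cons (.leaf 1 [(7,1),(5,1),(2,1)]) (.cons (.leaf 1 [(10,1)]) .nil)))))))) (.cons (.leaf 1 [(3,1)]) (.cons (.keep [1,3,6,7,9] (.node (.cons (.leaf 1 [(6,1),(2,1)]) (.cons (.leaf 1 [(6,1),(2,1)]) (.cons (.leaf 2 [(7,1),(10,1)]) (.cons (.leaf 1 [(6,1),(0,1),(10,1)]) (.cons (.leaf 1 [(7,1),(5,1),(2,1)]) (.cons (.leaf 1 [(10,1)]) .nil)))))))) (.cons (.leaf 1 [(3,1)]) (.cons (.keep [2,6,7,8,9] (.node (.cons (.leaf 1 [(9,1),(2,1),(6,1)])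 (.cons (.leaf 1 [(9,1),(2,1),(6,1)]) (.cons (.leaf 2 [(10,1)]) (.cons (.leaf 1 [(9,1),(0,1),(6,1),(10,1)]) (.cons (.leaf 1 [(5,1),(2,1)]) (.cons (.leaf 1 [(10,1)]) .nil)))))))) (.cons (.leaf 1 []) .nil)))))))) .nil)))))))) .nil)))))))) (.cons (.keep [4,6,8,9,10] (.node (.cons (.leaf 1 [(8,1),(10,1)]) (.cons (.keep [3,6,8,9,10] (.node (.cons (.keep [2,5,6,7,10] (.node (.cons (.leaf 1 [(2,1),(7,1),(9,1)]) (.cons (.leaf 1 [(3,1),(9,1)]) (.cons (.leaf 1 [(7,1),(9,1)]) (.cons (.leaf 1 [(3,1),(9,1)]) (.cons (.leaf 1 [(2,1),(7,1),(9,1)]) (.cons (.leaf 1 [(9,1)]) .nil)))))))) (.cons (.keep [6,7,8,9,10] (.node (.cons (.leaf 1 [(2,1),(8,1),(7,1)]) (.cons (.leaf 1 [(3,1),(7,1)]) (.cons (.leaf 1 [(8,1),(7,1)]) (.cons (.leaf 1 [(3,1),(7,1)]) (.cons (.leaf 1 [(2,1),(8,1),(7,1)]) (.cons (.leaf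 1 [(7,1)]) .nil)))))))) (.cons (.leaf 1 [(1,1)]) (.cons (.leaf 1 [(1,1)]) (.cons (.keep [1,2,5,6,7] (.node (.cons (.leaf 1 [(2,1),(8,1),(10,1)]) (.cons (.leaf 1 [(3,1),(10,1)]) (.cons (.leaf 1 [(8,1),(10,1)]) (.cons (.leaf 1 [(3,1),(10,1)]) (.cons (.leaf 1 [(2,1),(8,1),(10,1)]) (.cons (.leaf 1 [(10,1)]) .nil)))))))) (.cons (.keep [0,4,6,7,8] (.node (.cons (.keep [2,3,6,7,9,10] (.node (.cons (.leaf 1 [(7,1)]) (.cons (.leaf 1 [(3,1)]) (.cons (.leaf 1 [(1,1),(7,1)]) (.cons (.leaf 1 [(3,1)]) (.cons (.leaf 1 [(7,1),(1,1)]) (.cons (.leaf 1 []) .nil)))))))) (.cons (.leaf 1 [(3,1),(9,1)]) (.cons (.keep [1,3,6,7,9] (.node (.cons (.leaf 1 [(7,1),(9,1),(2,1)]) (.cons (.leaf 1 [(3,1)]) (.cons (.leaf 1 [(7,1),(9,1)]) (.cons (.leaf 1 [(3,1)]) (.cons (.leaf 1 [(7,1),(9,1),(2,1)]) (.cons (.leaf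 1 []) .nil)))))))) (.cons (.leaf 1 [(3,1),(9,1)]) (.cons (.keep [2,6,7,9,10] (.node (.cons (.leaf 2 [(9,1),(2,1)]) (.cons (.leaf 1 [(3,1)]) (.cons (.leaf 2 [(9,1)]) (.cons (.leaf 1 [(3,1)]) (.cons (.leaf 2 [(9,1),(2,1)]) (.cons (.leaf 1 []) .nil)))))))) (.cons (.leaf 1 [(9,1)]) .nil)))))))) .nil)))))))) (.cons (.leaf 1 [(1,1),(6,1)]) (.cons (.leaf 1 [(1,1),(6,1)]) (.cons (.leaf 1 [(5,1),(1,1)]) (.cons (.keep [0,1,6,8,10] (.node (.cons (.keep [5,6,7,8,9] (.node (.cons (.leaf 1 [(2,1),(6,1),(9,1)]) (.cons (.leaf 1 [(3,1),(9,1)]) (.cons (.leaf 1 [(6,1),(9,1)]) (.cons (.leaf 1 [(3,1),(9,1)]) (.cons (.leaf 1 [(2,1),(6,1),(9,1)]) (.cons (.leaf 1 [(9,1)]) .nil)))))))) (.cons (.keep [3,4,6,7,8] (.node (.cons (.leaf 1 [(6,1),(10,1)]) (.cons (.leaf 1 [(3,1),(10,1)]) (.cons (.leaf 1 [(6,1),(1,1),(10,1)])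 (.cons (.leaf 1 [(3,1),(10,1)]) (.cons (.leaf 1 [(6,1),(10,1),(1,1)]) (.cons (.leaf 1 [(10,1)]) .nil)))))))) (.cons (.leaf 1 [(1,1)]) (.cons (.leaf 1 [(1,1)]) (.cons (.keep [5,6,7,8,9] (.node (.cons (.leaf 1 [(2,1),(6,1),(9,1)]) (.cons (.leaf 1 [(3,1),(9,1)]) (.cons (.leaf 1 [(6,1),(9,1)]) (.cons (.leaf 1 [(3,1),(9,1)]) (.cons (.leaf 1 [(2,1),(6,1),(9,1)]) (.cons (.leaf 1 [(9,1)]) .nil)))))))) (.cons (.keep [0,4,7,8] (.node (.cons (.keep [2,3,6,7,8,9] (.node (.cons (.leaf 1 [(7,1)]) (.cons (.leaf 1 [(3,1)]) (.cons (.leaf 1 [(1,1),(7,1)]) (.cons (.leaf 1 [(3,1)]) (.cons (.leaf 1 [(7,1),(1,1)]) (.cons (.leaf 1 []) .nil)))))))) (.cons (.leaf 1 [(3,1),(9,1)]) (.cons (.keep [1,3,6,7,9] (.node (.cons (.leaf 1 [(7,1),(9,1),(2,1)]) (.cons (.leaf 1 [(3,1)]) (.cons (.leaf 1 [(7,1),(9,1)])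 (.cons (.leaf 1 [(3,1)]) (.cons (.leaf 1 [(7,1),(9,1),(2,1)]) (.cons (.leaf 1 []) .nil)))))))) (.cons (.leaf 1 [(3,1),(9,1)]) (.cons (.keep [2,6,7,8,9] (.node (.cons (.leaf 2 [(10,1),(2,1)]) (.cons (.leaf 1 [(3,1)]) (.cons (.leaf 2 [(10,1)]) (.cons (.leaf 1 [(3,1)]) (.cons (.leaf 2 [(10,1),(2,1)]) (.cons (.leaf 1 []) .nil)))))))) (.cons (.leaf 1 [(9,1)]) .nil)))))))) .nil)))))))) .nil)))))))) (.cons (.leaf 1 [(1,1),(5,2),(7,1)]) (.cons (.leaf 1 [(6,1),(8,1)]) .nil)))))))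

theorem c_21_24_3 : Concl 21 24 z_21_24_3 h_21_24_3 .nd := piece _ hP_nil t_21_24_3 _ _ (by
  decide +kernel)

def z_21_24_4 : F := ⟨0, 1, -1, 0, 1⟩

def h_21_24_4 : List F := [⟨0, 1, 0, 0, 0⟩, ⟨0, 0, 1, -1, 0⟩, ⟨-1, 1, -1, 0, 1⟩, ⟨0, 0, -1, 0, 1⟩]

def t_21_24_4 : T := (.node (.cons (.keep [2,5,7,8] (.leaf 0 [(0,0)])) (.cons (.keep [2,3,4,6,7,8] (.node (.cons (.keep [5,6,7,8,10] (.node (.cons (.leaf 1 [(6,1)]) (.cons (.keep [0,3,6,7,9] (.node (.cons (.leaf 1 [(10,1),(7,2)]) (.cons (.leaf 1 [(10,1),(3,2),(4,1)]) (.cons (.leaf 1 [(8,1),(1,1),(7,1)]) (.cons (.leaf 1 [(3,1),(8,1),(4,1)]) (.cons (.leaf 1 [(10,1),(7,2),(1,1)]) (.cons (.leaf 1 [(10,1),(7,1)]) .nil)))))))) (.cons (.leaf 1 [(1,1),(6,1)]) (.cons (.leaf 1 [(1,1),(3,1)]) (.cons (.leaf 1 [(6,1),(1,1)]) (.cons (.keep [0,1,6,9]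 (.node (.cons (.keep [3,6,7,8,9] (.node (.cons (.leaf 1 [(6,1)]) (.cons (.leaf 1 [(3,1)]) (.cons (.leaf 1 [(1,1),(6,1)]) (.cons (.leaf 1 [(3,1)]) (.cons (.leaf 1 [(6,1),(1,1)]) (.cons (.leaf 1 []) .nil)))))))) (.cons (.leaf 1 [(3,1),(9,1)]) (.cons (.leaf 1 [(8,1),(1,1)]) (.cons (.leaf 1 [(8,1),(1,1)]) (.cons (.keep [1,6,7,8,9] (.node (.cons (.leaf 2 [(10,1),(2,1)]) (.cons (.leaf 1 [(3,1)]) (.cons (.leaf 2 [(10,1)]) (.cons (.leaf 1 [(3,1)]) (.cons (.leaf 2 [(10,1),(2,1)]) (.cons (.leaf 1 []) .nil)))))))) (.cons (.leaf 1 [(9,1)]) .nil)))))))) .nil)))))))) (.cons (.keep [3,4,8,10,11] (.node (.cons (.leaf 1 []) (.cons (.keep [3,4,7,8,10] (.node (.cons (.leaf 1 [(9,1),(8,1),(6,2)]) (.cons (.leaf 1 [(9,1),(8,1),(3,2),(4,1)]) (.cons (.leaf 1 [(1,1),(6,1)]) (.cons (.leaf 1 [(3,1),(4,1)])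 (.cons (.leaf 1 [(9,1),(8,1),(6,2),(1,1)]) (.cons (.leaf 1 [(9,1),(8,1),(6,1)]) .nil)))))))) (.cons (.leaf 1 [(1,1)]) (.cons (.leaf 1 [(3,1),(1,1),(7,1)]) (.cons (.leaf 1 [(1,1)]) (.cons (.keep [0,1,7,8,10] (.node (.cons (.keep [3,6,7,8,9] (.node (.cons (.leaf 1 [(6,1),(9,1)]) (.cons (.leaf 1 [(3,1),(9,1)]) (.cons (.leaf 1 [(6,1),(1,1),(9,1)]) (.cons (.leaf 1 [(3,1),(9,1)]) (.cons (.leaf 1 [(6,1),(9,1),(1,1)]) (.cons (.leaf 1 [(9,1)]) .nil)))))))) (.cons (.leaf 1 [(3,1),(8,1),(9,1)]) (.cons (.leaf 1 [(1,1)]) (.cons (.leaf 1 [(1,1)]) (.cons (.keep [1,6,7,8,9] (.node (.cons (.leaf 2 [(2,1),(10,1),(9,2)]) (.cons (.leaf 1 [(3,1),(9,1)]) (.cons (.leaf 2 [(10,1),(9,2)]) (.cons (.leaf 1 [(3,1),(9,1)]) (.cons (.leaf 2 [(2,1),(10,1),(9,2)]) (.cons (.leaf 1 [(9,1)]) .nil)))))))) (.cons (.leaf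 1 [(9,1),(8,1)]) .nil)))))))) .nil)))))))) (.cons (.leaf 1 [(10,1),(8,1),(1,1)]) (.cons (.leaf 1 [(10,1),(4,1),(8,1),(1,1)]) (.cons (.keep [1,5,7,10,11] (.node (.cons (.leaf 1 [(7,2),(2,1)]) (.cons (.leaf 1 [(7,1),(3,1)]) (.cons (.leaf 1 [(7,2)]) (.cons (.leaf 1 [(4,1),(3,2)]) (.cons (.leaf 1 [(7,2),(2,1)]) (.cons (.leaf 1 [(7,1)]) .nil)))))))) (.cons (.keep [0,1,7,10,11] (.node (.cons (.keep [2,3,9,10] (.node (.cons (.leaf 1 [(2,1)]) (.cons (.leaf 1 [(2,1)]) (.cons (.leaf 2 [(7,1),(8,1)]) (.cons (.leaf 1 [(0,1),(8,1)]) (.cons (.leaf 1 [(7,1),(5,1),(2,1)]) (.cons (.leaf 1 [(8,1)]) .nil)))))))) (.cons (.leaf 1 [(3,1)]) (.cons (.keep [1,3,6,7,9] (.node (.cons (.leaf 1 [(6,1),(2,1)]) (.cons (.leaf 1 [(6,1),(2,1)]) (.cons (.leaf 2 [(7,1),(10,1)]) (.cons (.leaf 1 [(6,1),(0,1),(10,1)])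 (.cons (.leaf 1 [(7,1),(5,1),(2,1)]) (.cons (.leaf 1 [(10,1)]) .nil)))))))) (.cons (.leaf 1 [(3,1)]) (.cons (.keep [1,6,8,9,10] (.node (.cons (.leaf 1 [(2,1),(6,1)]) (.cons (.leaf 1 [(2,1),(6,1)]) (.cons (.leaf 2 [(9,1)]) (.cons (.leaf 1 [(0,1),(6,1),(9,1)]) (.cons (.leaf 1 [(5,1),(2,1)]) (.cons (.leaf 1 [(9,1)]) .nil)))))))) (.cons (.leaf 1 []) .nil)))))))) .nil)))))))) (.cons (.keep [1,5,7,8,9] (.leaf 0 [(1,0)])) (.cons (.keep [1,3,4,8,9] (.node (.cons (.keep [5,6,7,8,9] (.node (.cons (.leaf 1 [(6,1)]) (.cons (.keep [3,6,8,9,10] (.node (.cons (.leaf 1 [(9,1),(6,2)]) (.cons (.leaf 1 [(9,1),(3,2),(4,1)]) (.cons (.leaf 1 [(7,1),(1,1),(6,1)]) (.cons (.leaf 1 [(3,1),(7,1),(4,1)]) (.cons (.leaf 1 [(9,1),(6,2),(1,1)]) (.cons (.leaf 1 [(9,1),(6,1)]) .nil)))))))) (.cons (.leaf 1 [(1,1),(6,1)])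 (.cons (.leaf 1 [(1,1),(3,1)]) (.cons (.leaf 1 [(6,1),(1,1)]) (.cons (.keep [0,1,6,9] (.node (.cons (.keep [3,6,7,8,9] (.node (.cons (.leaf 1 [(6,1)]) (.cons (.leaf 1 [(3,1)]) (.cons (.leaf 1 [(1,1),(6,1)]) (.cons (.leaf 1 [(3,1)]) (.cons (.leaf 1 [(6,1),(1,1)]) (.cons (.leaf 1 []) .nil)))))))) (.cons (.leaf 1 [(3,1),(9,1)]) (.cons (.leaf 1 [(8,1),(1,1)]) (.cons (.leaf 1 [(8,1),(1,1)]) (.cons (.keep [1,6,7,8,9] (.node (.cons (.leaf 2 [(10,1),(2,1)]) (.cons (.leaf 1 [(3,1)]) (.cons (.leaf 2 [(10,1)]) (.cons (.leaf 1 [(3,1)]) (.cons (.leaf 2 [(10,1),(2,1)]) (.cons (.leaf 1 []) .nil)))))))) (.cons (.leaf 1 [(9,1)]) .nil)))))))) .nil)))))))) (.cons (.keep [4,6,7,8,9] (.node (.cons (.leaf 1 []) (.cons (.keep [3,6,8,9,10] (.node (.cons (.leaf 1 [(9,1),(7,1),(6,2)]) (.cons (.leaf 1 [(9,1),(7,1),(3,2),(4,1)])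 (.cons (.leaf 1 [(1,1),(6,1)]) (.cons (.leaf 1 [(3,1),(4,1)]) (.cons (.leaf 1 [(9,1),(7,1),(6,2),(1,1)]) (.cons (.leaf 1 [(9,1),(7,1),(6,1)]) .nil)))))))) (.cons (.leaf 1 [(1,1)]) (.cons (.leaf 1 [(3,1),(1,1),(6,1)]) (.cons (.leaf 1 [(1,1)]) (.cons (.keep [0,1,6,9,10] (.node (.cons (.keep [3,6,7,8,9] (.node (.cons (.leaf 1 [(6,1),(9,1)]) (.cons (.leaf 1 [(3,1),(9,1)]) (.cons (.leaf 1 [(6,1),(1,1),(9,1)]) (.cons (.leaf 1 [(3,1),(9,1)]) (.cons (.leaf 1 [(6,1),(9,1),(1,1)]) (.cons (.leaf 1 [(9,1)]) .nil)))))))) (.cons (.leaf 1 [(3,1),(8,1),(9,1)]) (.cons (.leaf 1 [(1,1)]) (.cons (.leaf 1 [(1,1)]) (.cons (.keep [1,6,7,8,9] (.node (.cons (.leaf 2 [(2,1),(10,1),(9,2)]) (.cons (.leaf 1 [(3,1),(9,1)]) (.cons (.leaf 2 [(10,1),(9,2)]) (.cons (.leaf 1 [(3,1),(9,1)]) (.cons (.leaf 2 [(2,1),(10,1),(9,2)])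 (.cons (.leaf 1 [(9,1)]) .nil)))))))) (.cons (.leaf 1 [(9,1),(8,1)]) .nil)))))))) .nil)))))))) (.cons (.leaf 1 [(6,1),(8,1)]) (.cons (.leaf 1 [(6,1),(4,1),(8,1)]) (.cons (.leaf 1 [(6,1),(5,1)]) (.cons (.leaf 1 [(6,1)]) .nil)))))))) (.cons (.keep [1,5,7,8,9] (.node (.cons (.leaf 1 [(8,1),(7,1),(6,2)]) (.cons (.leaf 1 [(8,1),(7,1),(6,2),(4,1)]) (.cons (.leaf 1 [(8,1),(6,1)]) (.cons (.leaf 1 [(8,1),(6,1),(4,1)]) (.cons (.leaf 1 [(1,1),(7,1),(5,2),(8,1)]) (.cons (.leaf 1 [(8,1),(7,1),(6,1)]) .nil)))))))) (.cons (.keep [0,1,6,7,9] (.node (.cons (.keep [5,7,8,9,10] (.node (.cons (.leaf 1 [(6,1)]) (.cons (.leaf 1 [(7,1),(3,1)]) (.cons (.leaf 1 [(1,1),(6,1)]) (.cons (.leaf 1 [(1,1),(3,1)]) (.cons (.leaf 1 [(6,1),(1,1)]) (.cons (.leaf 1 [(7,1)]) .nil)))))))) (.cons (.keep [3,4,7,9,10] (.node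 (.cons (.leaf 1 []) (.cons (.leaf 1 [(8,1),(7,1),(3,1)]) (.cons (.leaf 1 [(1,1)]) (.cons (.leaf 1 [(3,1),(1,1),(7,1)]) (.cons (.leaf 1 [(1,1)]) (.cons (.leaf 1 [(8,1),(7,1)]) .nil)))))))) (.cons (.leaf 1 [(9,1),(7,1)]) (.cons (.leaf 1 [(9,1),(7,1),(4,1)]) (.cons (.keep [5,6,7,8,9] (.node (.cons (.leaf 1 [(6,2),(2,1)]) (.cons (.leaf 1 [(6,1),(3,1)]) (.cons (.leaf 1 [(6,2)]) (.cons (.leaf 1 [(4,1),(3,2)]) (.cons (.leaf 1 [(6,2),(2,1)]) (.cons (.leaf 1 [(6,1)]) .nil)))))))) (.cons (.keep [0,4,7,9] (.node (.cons (.keep [2,3,7,8,9] (.node (.cons (.leaf 1 [(2,1)]) (.cons (.leaf 1 [(2,1)]) (.cons (.leaf 2 [(7,1),(10,1)]) (.cons (.leaf 1 [(0,1),(10,1)]) (.cons (.leaf 1 [(7,1),(5,1),(2,1)]) (.cons (.leaf 1 [(10,1)]) .nil)))))))) (.cons (.leaf 1 [(3,1)]) (.cons (.keep [1,3,6,7,9] (.node (.cons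 (.leaf 1 [(6,1),(2,1)]) (.cons (.leaf 1 [(6,1),(2,1)]) (.cons (.leaf 2 [(7,1),(10,1)]) (.cons (.leaf 1 [(6,1),(0,1),(10,1)]) (.cons (.leaf 1 [(7,1),(5,1),(2,1)]) (.cons (.leaf 1 [(10,1)]) .nil)))))))) (.cons (.leaf 1 [(3,1)]) (.cons (.keep [2,6,7,8,9] (.node (.cons (.leaf 1 [(9,1),(2,1),(6,1)]) (.cons (.leaf 1 [(9,1),(2,1),(6,1)]) (.cons (.leaf 2 [(10,1)]) (.cons (.leaf 1 [(9,1),(0,1),(6,1),(10,1)]) (.cons (.leaf 1 [(5,1),(2,1)]) (.cons (.leaf 1 [(10,1)]) .nil)))))))) (.cons (.leaf 1 []) .nil)))))))) .nil)))))))) .nil)))))))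

theorem c_21_24_4 : Concl 21 24 z_21_24_4 h_21_24_4 .nd := piece _ (hP_cons c_21_24_0 (hP_cons
  c_21_24_1 hP_nil)) t_21_24_4 _ _ (by decide +kernel)

def t_21_24 : T := (.keep [0,1,2] (.node (.cons (.keep [2,5,6,8] (.node (.cons (.keep [2,5,6,7,8] (.node (.cons (.leaf 1 [(9,1),(7,1),(8,1)]) (.cons (.keep [3,6,7,8,9,10] (.node (.cons (.leaf 1 [(6,1)]) (.cons (.leaf 1 [(3,1)]) (.cons (.leaf 1 [(1,1),(6,1)]) (.cons (.leaf 1 [(3,1)]) (.cons (.leaf 1 [(6,1),(1,1)]) (.cons (.leaf 1 []) .nil)))))))) (.cons (.leaf 1 [(9,1),(1,1)]) (.cons (.leaf 1 [(9,1),(1,1)]) (.cons (.leaf 1 [(9,1),(7,1),(5,1),(1,1)]) (.cons (.keep [0,1,7,9,10] (.node (.cons (.keep [3,7,8,9,10] (.node (.cons (.leaf 1 [(2,1)]) (.cons (.leaf 1 [(2,1)]) (.cons (.leaf 2 [(6,1),(9,1)]) (.cons (.leaf 1 [(0,1),(9,1)]) (.cons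 (.leaf 1 [(6,1),(5,1),(2,1)]) (.cons (.leaf 1 [(9,1)]) .nil)))))))) (.cons (.leaf 1 [(3,1)]) (.cons (.leaf 1 [(8,1),(1,1),(9,1)]) (.cons (.leaf 1 [(3,1)]) (.cons (.keep [1,6,7,8,9,10] (.node (.cons (.leaf 1 [(2,1),(6,1)]) (.cons (.leaf 1 [(2,1),(6,1)]) (.cons (.leaf 2 [(10,1)]) (.cons (.leaf 1 [(0,1),(6,1),(10,1)]) (.cons (.leaf 1 [(5,1),(2,1)]) (.cons (.leaf 1 [(10,1)]) .nil)))))))) (.cons (.leaf 1 []) .nil)))))))) .nil)))))))) (.cons (.keep [3,6,7,8] (.node (.cons (.keep [5,6,7,8,9] (.node (.cons (.leaf 1 [(6,1),(2,1)]) (.cons (.leaf 1 [(3,1)]) (.cons (.leaf 1 [(6,1)]) (.cons (.leaf 1 [(3,1)]) (.cons (.leaf 1 [(6,1),(2,1)]) (.cons (.leaf 1 []) .nil)))))))) (.cons (.keep [3,6,7,8,9] (.node (.cons (.leaf 1 [(6,1)]) (.cons (.leaf 1 [(3,1)]) (.cons (.leaf 1 [(1,1),(6,1)]) (.cons (.leaf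 1 [(3,1)]) (.cons (.leaf 1 [(6,1),(1,1)]) (.cons (.leaf 1 []) .nil)))))))) (.cons (.leaf 1 [(8,1),(1,1)]) (.cons (.leaf 1 [(8,1),(1,1)]) (.cons (.keep [1,5,6,8,9] (.node (.cons (.leaf 1 [(7,1),(2,1)]) (.cons (.leaf 1 [(3,1)]) (.cons (.leaf 1 [(7,1)]) (.cons (.leaf 1 [(3,1)]) (.cons (.leaf 1 [(7,1),(2,1)]) (.cons (.leaf 1 []) .nil)))))))) (.cons (.keep [0,1,6,8,9] (.node (.cons (.keep [2,3,9,10] (.node (.cons (.leaf 1 [(2,1)]) (.cons (.leaf 1 [(2,1)]) (.cons (.leaf 2 [(7,1),(8,1)]) (.cons (.leaf 1 [(0,1),(8,1)]) (.cons (.leaf 1 [(7,1),(5,1),(2,1)]) (.cons (.leaf 1 [(8,1)]) .nil)))))))) (.cons (.leaf 1 [(3,1)]) (.cons (.keep [1,3,6,7,9] (.node (.cons (.leaf 1 [(6,1),(2,1)]) (.cons (.leaf 1 [(6,1),(2,1)]) (.cons (.leaf 2 [(7,1),(10,1)]) (.cons (.leaf 1 [(6,1),(0,1),(10,1)]) (.cons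 (.leaf 1 [(7,1),(5,1),(2,1)]) (.cons (.leaf 1 [(10,1)]) .nil)))))))) (.cons (.leaf 1 [(3,1)]) (.cons (.keep [1,6,8,9,10] (.node (.cons (.leaf 1 [(2,1),(6,1)]) (.cons (.leaf 1 [(2,1),(6,1)]) (.cons (.leaf 2 [(9,1)]) (.cons (.leaf 1 [(0,1),(6,1),(9,1)]) (.cons (.leaf 1 [(5,1),(2,1)]) (.cons (.leaf 1 [(9,1)]) .nil)))))))) (.cons (.leaf 1 []) .nil)))))))) .nil)))))))) (.cons (.leaf 1 [(1,1)]) (.cons (.leaf 1 [(1,1)]) (.cons (.leaf 1 [(7,1),(5,1),(1,1)]) (.cons (.keep [0,1,6,7] (.node (.cons (.keep [3,6,7,9] (.node (.cons (.leaf 1 [(6,1)]) (.cons (.leaf 1 [(3,1)]) (.cons (.leaf 1 [(1,1),(6,1)]) (.cons (.leaf 1 [(3,1)]) (.cons (.leaf 1 [(6,1),(1,1)]) (.cons (.leaf 1 []) .nil)))))))) (.cons (.keep [3,4,6,7,9] (.node (.cons (.leaf 1 [(6,1)]) (.cons (.leaf 1 [(3,1)]) (.cons (.leaf 1 [(1,1),(6,1)])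 (.cons (.leaf 1 [(3,1)]) (.cons (.leaf 1 [(6,1),(1,1)]) (.cons (.leaf 1 []) .nil)))))))) (.cons (.leaf 1 [(9,1),(1,1)]) (.cons (.leaf 1 [(9,1),(1,1)]) (.cons (.keep [1,5,6,9] (.node (.cons (.leaf 1 [(7,1),(2,1)]) (.cons (.leaf 1 [(3,1)]) (.cons (.leaf 1 [(7,1)]) (.cons (.leaf 1 [(3,1)]) (.cons (.leaf 1 [(7,1),(2,1)]) (.cons (.leaf 1 []) .nil)))))))) (.cons (.keep [0,4,7,9] (.node (.cons (.keep [2,3,7,8,9] (.node (.cons (.leaf 1 [(2,1)]) (.cons (.leaf 1 [(2,1)]) (.cons (.leaf 2 [(7,1),(10,1)]) (.cons (.leaf 1 [(0,1),(10,1)]) (.cons (.leaf 1 [(7,1),(5,1),(2,1)]) (.cons (.leaf 1 [(10,1)]) .nil)))))))) (.cons (.leaf 1 [(3,1)]) (.cons (.keep [1,3,6,7,9] (.node (.cons (.leaf 1 [(6,1),(2,1)]) (.cons (.leaf 1 [(6,1),(2,1)]) (.cons (.leaf 2 [(7,1),(10,1)]) (.cons (.leaf 1 [(6,1),(0,1),(10,1)])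 (.cons (.leaf 1 [(7,1),(5,1),(2,1)]) (.cons (.leaf 1 [(10,1)]) .nil)))))))) (.cons (.leaf 1 [(3,1)]) (.cons (.keep [2,6,7,8,9] (.node (.cons (.leaf 1 [(9,1),(2,1),(6,1)]) (.cons (.leaf 1 [(9,1),(2,1),(6,1)]) (.cons (.leaf 2 [(10,1)]) (.cons (.leaf 1 [(9,1),(0,1),(6,1),(10,1)]) (.cons (.leaf 1 [(5,1),(2,1)]) (.cons (.leaf 1 [(10,1)]) .nil)))))))) (.cons (.leaf 1 []) .nil)))))))) .nil)))))))) .nil)))))))) (.cons (.keep [0,2,4,6] (.node (.cons (.keep [5,6,7,8] (.node (.cons (.leaf 1 [(6,1),(8,1)]) (.cons (.keep [2,3,6,8,9] (.node (.cons (.leaf 1 [(7,1),(10,1)]) (.cons (.leaf 1 [(3,1),(10,1)]) (.cons (.leaf 1 [(8,1),(1,1)]) (.cons (.leaf 1 [(8,1),(1,1)]) (.cons (.leaf 1 [(7,1),(10,1),(1,1)]) (.cons (.leaf 1 [(10,1)]) .nil)))))))) (.cons (.leaf 1 [(1,1)]) (.cons (.leaf 1 [(1,1)]) (.cons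 (.leaf 1 [(6,1),(5,1),(1,1)]) (.cons (.keep [0,1,6,9] (.node (.cons (.keep [3,6,7,8,9] (.node (.cons (.leaf 1 [(6,1)]) (.cons (.leaf 1 [(3,1)]) (.cons (.leaf 1 [(1,1),(6,1)]) (.cons (.leaf 1 [(3,1)]) (.cons (.leaf 1 [(6,1),(1,1)]) (.cons (.leaf 1 []) .nil)))))))) (.cons (.leaf 1 [(3,1),(9,1)]) (.cons (.leaf 1 [(8,1),(1,1)]) (.cons (.leaf 1 [(8,1),(1,1)]) (.cons (.keep [1,6,7,8,9] (.node (.cons (.leaf 2 [(10,1),(2,1)]) (.cons (.leaf 1 [(3,1)]) (.cons (.leaf 2 [(10,1)]) (.cons (.leaf 1 [(3,1)]) (.cons (.leaf 2 [(10,1),(2,1)]) (.cons (.leaf 1 []) .nil)))))))) (.cons (.leaf 1 [(9,1)]) .nil)))))))) .nil)))))))) (.cons (.keep [3,4,7,8] (.node (.cons (.keep [5,6,7,8,9] (.node (.cons (.leaf 1 [(2,1),(6,1),(10,1)]) (.cons (.leaf 1 [(3,1),(10,1)]) (.cons (.leaf 1 [(6,1),(10,1)]) (.cons (.leaf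 1 [(3,1),(10,1)]) (.cons (.leaf 1 [(2,1),(6,1),(10,1)]) (.cons (.leaf 1 [(10,1)]) .nil)))))))) (.cons (.keep [3,6,7,8,9] (.node (.cons (.leaf 1 [(6,1),(10,1)]) (.cons (.leaf 1 [(3,1),(10,1)]) (.cons (.leaf 1 [(6,1),(1,1),(10,1)]) (.cons (.leaf 1 [(3,1),(10,1)]) (.cons (.leaf 1 [(6,1),(10,1),(1,1)]) (.cons (.leaf 1 [(10,1)]) .nil)))))))) (.cons (.leaf 1 [(1,1)]) (.cons (.leaf 1 [(1,1)]) (.cons (.keep [1,5,6,7,9] (.node (.cons (.leaf 1 [(2,1),(7,1),(10,1)]) (.cons (.leaf 1 [(3,1),(10,1)]) (.cons (.leaf 1 [(7,1),(10,1)]) (.cons (.leaf 1 [(3,1),(10,1)]) (.cons (.leaf 1 [(2,1),(7,1),(10,1)]) (.cons (.leaf 1 [(10,1)]) .nil)))))))) (.cons (.keep [0,1,6,7,9] (.node (.cons (.keep [2,3,6,9,10] (.node (.cons (.leaf 1 [(7,1)]) (.cons (.leaf 1 [(3,1)]) (.cons (.leaf 1 [(1,1),(7,1)]) (.cons (.leaf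 1 [(3,1)]) (.cons (.leaf 1 [(7,1),(1,1)]) (.cons (.leaf 1 []) .nil)))))))) (.cons (.leaf 1 [(3,1),(10,1)]) (.cons (.keep [1,3,6,9,10] (.node (.cons (.leaf 2 [(7,1),(10,1),(2,1)]) (.cons (.leaf 1 [(3,1)]) (.cons (.leaf 2 [(7,1),(10,1)]) (.cons (.leaf 1 [(3,1)]) (.cons (.leaf 2 [(7,1),(10,1),(2,1)]) (.cons (.leaf 1 []) .nil)))))))) (.cons (.leaf 1 [(3,1),(10,1)]) (.cons (.keep [1,6,8,9,10] (.node (.cons (.leaf 2 [(10,1),(2,1)]) (.cons (.leaf 1 [(3,1)]) (.cons (.leaf 2 [(10,1)]) (.cons (.leaf 1 [(3,1)]) (.cons (.leaf 2 [(10,1),(2,1)]) (.cons (.leaf 1 []) .nil)))))))) (.cons (.leaf 1 [(10,1)]) .nil)))))))) .nil)))))))) (.cons (.leaf 1 [(1,1),(8,1)]) (.cons (.leaf 1 [(1,1),(8,1)]) (.cons (.leaf 1 [(5,1),(1,1)]) (.cons (.keep [0,1,7,8] (.node (.cons (.keep [3,6,7,9] (.node (.cons (.leaf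 1 [(6,1),(9,1)]) (.cons (.leaf 1 [(3,1),(9,1)]) (.cons (.leaf 1 [(6,1),(1,1),(9,1)]) (.cons (.leaf 1 [(3,1),(9,1)]) (.cons (.leaf 1 [(6,1),(9,1),(1,1)]) (.cons (.leaf 1 [(9,1)]) .nil)))))))) (.cons (.keep [3,4,6,7,9] (.node (.cons (.leaf 1 [(6,1),(10,1)]) (.cons (.leaf 1 [(3,1),(10,1)]) (.cons (.leaf 1 [(6,1),(1,1),(10,1)]) (.cons (.leaf 1 [(3,1),(10,1)]) (.cons (.leaf 1 [(6,1),(10,1),(1,1)]) (.cons (.leaf 1 [(10,1)]) .nil)))))))) (.cons (.leaf 1 [(1,1)]) (.cons (.leaf 1 [(1,1)]) (.cons (.keep [1,5,6,9] (.node (.cons (.leaf 1 [(2,1),(7,1),(9,1)]) (.cons (.leaf 1 [(3,1),(9,1)]) (.cons (.leaf 1 [(7,1),(9,1)]) (.cons (.leaf 1 [(3,1),(9,1)]) (.cons (.leaf 1 [(2,1),(7,1),(9,1)]) (.cons (.leaf 1 [(9,1)]) .nil)))))))) (.cons (.keep [0,4,7,9] (.node (.cons (.keep [2,3,6,7,8,9] (.node (.cons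 (.leaf 1 [(7,1)]) (.cons (.leaf 1 [(3,1)]) (.cons (.leaf 1 [(1,1),(7,1)]) (.cons (.leaf 1 [(3,1)]) (.cons (.leaf 1 [(7,1),(1,1)]) (.cons (.leaf 1 []) .nil)))))))) (.cons (.leaf 1 [(3,1),(9,1)]) (.cons (.keep [1,3,6,7,9] (.node (.cons (.leaf 1 [(7,1),(9,1),(2,1)]) (.cons (.leaf 1 [(3,1)]) (.cons (.leaf 1 [(7,1),(9,1)]) (.cons (.leaf 1 [(3,1)]) (.cons (.leaf 1 [(7,1),(9,1),(2,1)]) (.cons (.leaf 1 []) .nil)))))))) (.cons (.leaf 1 [(3,1),(9,1)]) (.cons (.keep [2,6,7,8,9] (.node (.cons (.leaf 2 [(10,1),(2,1)]) (.cons (.leaf 1 [(3,1)]) (.cons (.leaf 2 [(10,1)]) (.cons (.leaf 1 [(3,1)]) (.cons (.leaf 2 [(10,1),(2,1)]) (.cons (.leaf 1 []) .nil)))))))) (.cons (.leaf 1 [(9,1)]) .nil)))))))) .nil)))))))) .nil)))))))) (.cons (.keep [1,5,6,7] (.leaf 0 [(0,0)])) (.cons (.keep [1,4,6,7] (.node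 (.cons (.keep [5,6,7,9] (.leaf 0 [(1,0)])) (.cons (.keep [3,4,6,7] (.node (.cons (.keep [5,6,7,9] (.node (.cons (.leaf 1 [(6,1),(9,1)]) (.cons (.leaf 1 [(3,2),(8,1),(9,2)]) (.cons (.leaf 1 [(6,1),(1,1),(9,1)]) (.cons (.leaf 1 [(3,1),(1,1),(9,1)]) (.cons (.leaf 1 [(6,1),(9,1),(1,1)]) (.cons (.leaf 1 [(9,2),(8,1)]) .nil)))))))) (.cons (.keep [3,4,7,9] (.node (.cons (.leaf 1 [(9,1)]) (.cons (.leaf 1 [(3,2),(8,1),(7,1),(9,2)]) (.cons (.leaf 1 [(1,1),(9,1)]) (.cons (.leaf 1 [(3,1),(1,1),(7,1),(9,1)]) (.cons (.leaf 1 [(9,1),(1,1)]) (.cons (.leaf 1 [(9,2),(8,1),(7,1)]) .nil)))))))) (.cons (.leaf 1 [(1,1),(7,1)]) (.cons (.leaf 1 [(1,1),(7,1),(4,1)]) (.cons (.keep [1,5,6,7,9] (.node (.cons (.leaf 1 [(10,1),(7,2),(2,1)]) (.cons (.leaf 1 [(3,1),(7,1),(10,1)]) (.cons (.leaf 1 [(10,1),(7,2)])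 (.cons (.leaf 1 [(10,1),(3,2),(4,1)]) (.cons (.leaf 1 [(10,1),(7,2),(2,1)]) (.cons (.leaf 1 [(10,1),(7,1)]) .nil)))))))) (.cons (.keep [0,1,6,7,9] (.node (.cons (.keep [2,3,6,9,10] (.node (.cons (.leaf 1 [(7,1)]) (.cons (.leaf 1 [(3,1)]) (.cons (.leaf 1 [(1,1),(7,1)]) (.cons (.leaf 1 [(3,1)]) (.cons (.leaf 1 [(7,1),(1,1)]) (.cons (.leaf 1 []) .nil)))))))) (.cons (.leaf 1 [(3,1),(10,1)]) (.cons (.keep [1,3,6,9,10] (.node (.cons (.leaf 2 [(7,1),(10,1),(2,1)]) (.cons (.leaf 1 [(3,1)]) (.cons (.leaf 2 [(7,1),(10,1)]) (.cons (.leaf 1 [(3,1)]) (.cons (.leaf 2 [(7,1),(10,1),(2,1)]) (.cons (.leaf 1 []) .nil)))))))) (.cons (.leaf 1 [(3,1),(10,1)]) (.cons (.keep [1,6,8,9,10] (.node (.cons (.leaf 2 [(10,1),(2,1)]) (.cons (.leaf 1 [(3,1)]) (.cons (.leaf 2 [(10,1)]) (.cons (.leaf 1 [(3,1)])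 (.cons (.leaf 2 [(10,1),(2,1)]) (.cons (.leaf 1 []) .nil)))))))) (.cons (.leaf 1 [(10,1)]) .nil)))))))) .nil)))))))) (.cons (.keep [1,5,7,8,9] (.leaf 0 [(2,0)])) (.cons (.keep [1,3,4,7,8,9] (.node (.cons (.leaf 1 [(6,2),(9,2),(8,1)]) (.cons (.leaf 1 [(6,2),(9,2),(8,1),(4,1)]) (.cons (.leaf 1 [(1,1),(8,1)]) (.cons (.leaf 1 [(1,1),(8,1),(4,1)]) (.cons (.leaf 1 [(7,1),(1,1),(5,2),(9,1)]) (.cons (.leaf 1 [(6,1),(9,1)]) .nil)))))))) (.cons (.keep [1,5,7,8,9] (.node (.cons (.leaf 1 [(7,1),(6,2)]) (.cons (.leaf 1 [(7,1),(6,2),(4,1)]) (.cons (.leaf 1 [(6,1)]) (.cons (.leaf 1 [(6,1),(4,1)]) (.cons (.leaf 1 [(1,1),(5,2),(7,1)]) (.cons (.leaf 1 [(7,1),(6,1)]) .nil)))))))) (.cons (.keep [0,1,6,7,9] (.node (.cons (.keep [5,6,7,8,9] (.node (.cons (.leaf 1 [(6,1),(10,1)]) (.cons (.leaf 1 [(3,1),(8,1),(10,1)])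 (.cons (.leaf 1 [(6,1),(1,1),(10,1)]) (.cons (.leaf 1 [(3,1),(1,1),(10,1)]) (.cons (.leaf 1 [(6,1),(10,1),(1,1)]) (.cons (.leaf 1 [(10,1),(8,1)]) .nil)))))))) (.cons (.keep [3,4,6,7,9] (.node (.cons (.leaf 1 [(10,1)]) (.cons (.leaf 1 [(3,1),(9,1),(7,1),(10,1)]) (.cons (.leaf 1 [(1,1),(10,1)]) (.cons (.leaf 1 [(3,1),(1,1),(7,1),(10,1)]) (.cons (.leaf 1 [(10,1),(1,1)]) (.cons (.leaf 1 [(10,1),(9,1),(7,1)]) .nil)))))))) (.cons (.leaf 1 [(7,1)]) (.cons (.leaf 1 [(7,1),(4,1)]) (.cons (.keep [5,6,7,8,9] (.node (.cons (.leaf 1 [(10,1),(6,2),(2,1)]) (.cons (.leaf 1 [(3,1),(6,1),(10,1)]) (.cons (.leaf 1 [(10,1),(6,2)]) (.cons (.leaf 1 [(10,1),(3,2),(4,1)]) (.cons (.leaf 1 [(10,1),(6,2),(2,1)]) (.cons (.leaf 1 [(10,1),(6,1)]) .nil)))))))) (.cons (.keep [0,4,7,9] (.node (.cons (.keep [2,3,6,7,8,9]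 (.node (.cons (.leaf 1 [(7,1)]) (.cons (.leaf 1 [(3,1)]) (.cons (.leaf 1 [(1,1),(7,1)]) (.cons (.leaf 1 [(3,1)]) (.cons (.leaf 1 [(7,1),(1,1)]) (.cons (.leaf 1 []) .nil)))))))) (.cons (.leaf 1 [(3,1),(9,1)]) (.cons (.keep [1,3,6,7,9] (.node (.cons (.leaf 1 [(7,1),(9,1),(2,1)]) (.cons (.leaf 1 [(3,1)]) (.cons (.leaf 1 [(7,1),(9,1)]) (.cons (.leaf 1 [(3,1)]) (.cons (.leaf 1 [(7,1),(9,1),(2,1)]) (.cons (.leaf 1 []) .nil)))))))) (.cons (.leaf 1 [(3,1),(9,1)]) (.cons (.keep [2,6,7,8,9] (.node (.cons (.leaf 2 [(10,1),(2,1)]) (.cons (.leaf 1 [(3,1)]) (.cons (.leaf 2 [(10,1)]) (.cons (.leaf 1 [(3,1)]) (.cons (.leaf 2 [(10,1),(2,1)]) (.cons (.leaf 1 []) .nil)))))))) (.cons (.leaf 1 [(9,1)]) .nil)))))))) .nil)))))))) .nil)))))))) (.cons (.leaf 1 [(5,1)]) (.cons (.leaf 1 []) .nil))))))))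

theorem e_21_24 : ESB (caseOf 4 21 24) := esb_of_pieces _ (hP_cons c_21_24_4 (hP_cons c_21_24_2
  (hP_cons c_21_24_3 hP_nil))) t_21_24 (by decide +kernel)

def ks : List (ℕ × ℕ) := [(21, 24)]

theorem ks_ok : ∀ p ∈ ks, ESB (caseOf 4 p.1 p.2) := ks_cons e_21_24 <| ks_nil

end Pool.Agent.H4.RD4.E14
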