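import Pool.Agent.H4.RD4.Chk

/-! # Certificates for special cases of order four -/

set_option maxRecDepth 20000

namespace Pool.Agent.H4.RD4.E15

open Pool.Agent.H50.Rdb
open Pool.Agent.H81.RDE (ESB caseOf)

def t_21_25 : T := (.keep [0,1,2] (.node (.cons (.leaf 1 []) (.cons (.leaf 1 [(4,1)]) (.cons (.leaf 1 [(4,1)]) (.cons (.keep [1,5,6,7] (.node (.cons (.keep [2,3,5,7] (.node (.cons (.leaf 1 []) (.cons (.leaf 1 [(4,1)]) (.cons (.leaf 1 [(4,1)]) (.cons (.leaf 1 [(9,1)]) (.cons (.leaf 1 [(9,1),(4,1)]) (.cons (.leaf 1 [(9,1),(4,1)]) (.cons (.leaf 1 [(6,1)]) (.cons (.leaf 1 [(6,1)]) (.cons (.leaf 1 []) .nil))))))))))) (.cons (.keep [2,4,6,9,10] (.node (.cons (.leaf 1 []) (.cons (.leaf 1 [(4,1)]) (.cons (.leaf 1 [(4,1)]) (.cons (.leaf 1 [(10,1)]) (.cons (.leaf 1 [(10,1),(4,1)]) (.cons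 (.leaf 1 [(10,1),(4,1)]) (.cons (.leaf 1 [(6,1)]) (.cons (.leaf 1 [(6,1)]) (.cons (.leaf 1 []) .nil))))))))))) (.cons (.keep [2,3,4,9,10] (.node (.cons (.leaf 1 []) (.cons (.leaf 1 [(4,1)]) (.cons (.leaf 1 [(4,1)]) (.cons (.leaf 1 [(10,1)]) (.cons (.leaf 1 [(10,1),(4,1)]) (.cons (.leaf 1 [(10,1),(4,1)]) (.cons (.leaf 1 [(6,1)]) (.cons (.leaf 1 [(6,1)]) (.cons (.leaf 1 []) .nil))))))))))) (.cons (.keep [1,5,6,8,10] (.node (.cons (.leaf 1 []) (.cons (.leaf 1 [(4,1)]) (.cons (.leaf 1 [(4,1)]) (.cons (.leaf 1 [(8,1)]) (.cons (.leaf 1 [(8,1),(4,1)]) (.cons (.leaf 1 [(8,1),(4,1)]) (.cons (.leaf 1 [(6,1)]) (.cons (.leaf 1 [(6,1)]) (.cons (.leaf 1 []) .nil))))))))))) (.cons (.keep [1,4,6,8,9,10] (.node (.cons (.leaf 1 []) (.cons (.leaf 1 [(4,1)]) (.cons (.leaf 1 [(4,1)]) (.cons (.leaf 1 [(11,1)])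 (.cons (.leaf 1 [(11,1),(4,1)]) (.cons (.leaf 1 [(11,1),(4,1)]) (.cons (.leaf 1 [(6,1)]) (.cons (.leaf 1 [(6,1)]) (.cons (.leaf 1 []) .nil))))))))))) (.cons (.keep [3,4,8,9,10] (.node (.cons (.leaf 1 []) (.cons (.leaf 1 [(4,1)]) (.cons (.leaf 1 [(4,1)]) (.cons (.leaf 1 [(10,1)]) (.cons (.leaf 1 [(10,1),(4,1)]) (.cons (.leaf 1 [(10,1),(4,1)]) (.cons (.leaf 1 [(6,1)]) (.cons (.leaf 1 [(6,1)]) (.cons (.leaf 1 []) .nil))))))))))) (.cons (.keep [1,5,6,7,8] (.node (.cons (.leaf 1 []) (.cons (.leaf 1 [(4,1)]) (.cons (.leaf 1 [(4,1)]) (.cons (.leaf 1 [(8,1)]) (.cons (.leaf 1 [(8,1),(4,1)]) (.cons (.leaf 1 [(8,1),(4,1)]) (.cons (.leaf 1 [(6,1)]) (.cons (.leaf 1 [(6,1)]) (.cons (.leaf 1 []) .nil))))))))))) (.cons (.keep [1,6,8,9,10] (.node (.cons (.leaf 1 []) (.cons (.leaf 1 [(4,1)]) (.cons (.leaf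 1 [(4,1)]) (.cons (.leaf 1 [(10,1)]) (.cons (.leaf 1 [(10,1),(4,1)]) (.cons (.leaf 1 [(10,1),(4,1)]) (.cons (.leaf 1 [(6,1)]) (.cons (.leaf 1 [(6,1)]) (.cons (.leaf 1 []) .nil))))))))))) (.cons (.keep [0,1,8,9] (.node (.cons (.leaf 1 []) (.cons (.leaf 1 [(4,1)]) (.cons (.leaf 1 [(4,1)]) (.cons (.leaf 1 [(10,1)]) (.cons (.leaf 1 [(10,1),(4,1)]) (.cons (.leaf 1 [(10,1),(4,1)]) (.cons (.leaf 1 [(6,1)]) (.cons (.leaf 1 [(6,1)]) (.cons (.leaf 1 []) .nil))))))))))) .nil))))))))))) (.cons (.keep [4,6,7,8,9] (.node (.cons (.keep [2,3,7,8,11] (.node (.cons (.leaf 1 [(9,1)]) (.cons (.leaf 1 [(9,1),(4,1)]) (.cons (.leaf 1 [(9,1),(4,1)]) (.cons (.leaf 1 [(10,1)]) (.cons (.leaf 1 [(10,1),(4,1)]) (.cons (.leaf 1 [(10,1),(4,1)]) (.cons (.leaf 1 [(9,1),(6,1)]) (.cons (.leaf 1 [(9,1),(6,1)]) (.cons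 (.leaf 1 [(9,1)]) .nil))))))))))) (.cons (.keep [2,4,6,8,11] (.node (.cons (.leaf 1 [(10,1),(8,1)]) (.cons (.leaf 1 [(10,1),(8,1),(4,1)]) (.cons (.leaf 1 [(10,1),(8,1),(4,1)]) (.cons (.leaf 1 [(10,1)]) (.cons (.leaf 1 [(10,1),(4,1)]) (.cons (.leaf 1 [(10,1),(4,1)]) (.cons (.leaf 1 [(10,1),(8,1),(6,1)]) (.cons (.leaf 1 [(1,1),(9,1),(6,2),(10,1)]) (.cons (.leaf 1 [(10,1),(8,1)]) .nil))))))))))) (.cons (.keep [2,3,4,7,8,11] (.node (.cons (.leaf 1 [(10,1)]) (.cons (.leaf 1 [(10,1),(4,1)]) (.cons (.leaf 1 [(10,1),(4,1)]) (.cons (.leaf 1 [(11,1)]) (.cons (.leaf 1 [(11,1),(4,1)]) (.cons (.leaf 1 [(11,1),(4,1)]) (.cons (.leaf 1 [(10,1),(6,1)]) (.cons (.leaf 1 [(10,1),(6,1)]) (.cons (.leaf 1 [(10,1)]) .nil))))))))))) (.cons (.keep [1,6,8,9,10] (.node (.cons (.leaf 1 [(7,1)]) (.cons (.leaf 1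 [(7,1),(4,1)]) (.cons (.leaf 1 [(7,1),(4,1)]) (.cons (.leaf 1 [(9,1)]) (.cons (.leaf 1 [(9,1),(4,1)]) (.cons (.leaf 1 [(9,1),(4,1)]) (.cons (.leaf 1 [(7,1),(6,1)]) (.cons (.leaf 1 [(7,1),(6,1)]) (.cons (.leaf 1 [(7,1)]) .nil))))))))))) (.cons (.keep [4,6,8,10,11] (.node (.cons (.leaf 1 [(9,1),(7,1)]) (.cons (.leaf 1 [(9,1),(7,1),(4,1)]) (.cons (.leaf 1 [(9,1),(7,1),(4,1)]) (.cons (.leaf 1 [(9,1)]) (.cons (.leaf 1 [(9,1),(4,1)]) (.cons (.leaf 1 [(9,1),(4,1)]) (.cons (.leaf 1 [(9,1),(7,1),(6,1)]) (.cons (.leaf 1 [(1,1),(8,1),(6,2),(9,1)]) (.cons (.leaf 1 [(9,1),(7,1)]) .nil))))))))))) (.cons (.keep [3,4,8,10,11] (.node (.cons (.leaf 1 [(7,1),(8,1)]) (.cons (.leaf 1 [(7,1),(4,2)]) (.cons (.leaf 1 [(7,1),(8,1),(4,1)]) (.cons (.leaf 1 [(9,1)]) (.cons (.leaf 1 [(9,1),(4,1)]) (.cons (.leaf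 1 [(9,1),(4,1)]) (.cons (.leaf 1 [(7,1),(8,1),(6,1)]) (.cons (.leaf 1 [(1,1),(6,2),(7,1)]) (.cons (.leaf 1 [(7,1),(8,1)]) .nil))))))))))) (.cons (.keep [2,6,7,8,11] (.node (.cons (.leaf 1 [(9,1)]) (.cons (.leaf 1 [(9,1),(4,1)]) (.cons (.leaf 1 [(9,1),(4,1)]) (.cons (.leaf 1 [(10,1)]) (.cons (.leaf 1 [(10,1),(4,1)]) (.cons (.leaf 1 [(10,1),(4,1)]) (.cons (.leaf 1 [(9,1),(6,1)]) (.cons (.leaf 1 [(9,1),(6,1)]) (.cons (.leaf 1 [(9,1)]) .nil))))))))))) (.cons (.keep [2,6,7,8,10,11] (.node (.cons (.leaf 1 [(9,1)]) (.cons (.leaf 1 [(9,1),(4,1)]) (.cons (.leaf 1 [(9,1),(4,1)]) (.cons (.leaf 1 [(10,1)]) (.cons (.leaf 1 [(10,1),(4,1)]) (.cons (.leaf 1 [(10,1),(4,1)]) (.cons (.leaf 1 [(9,1),(6,1)]) (.cons (.leaf 1 [(9,1),(6,1)]) (.cons (.leaf 1 [(9,1)]) .nil))))))))))) (.cons (.keep [0,2,7,8,10]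 (.node (.cons (.leaf 1 [(9,1)]) (.cons (.leaf 1 [(9,1),(4,1)]) (.cons (.leaf 1 [(9,1),(4,1)]) (.cons (.leaf 1 [(10,1)]) (.cons (.leaf 1 [(10,1),(4,1)]) (.cons (.leaf 1 [(10,1),(4,1)]) (.cons (.leaf 1 [(9,1),(6,1)]) (.cons (.leaf 1 [(9,1),(6,1)]) (.cons (.leaf 1 [(9,1)]) .nil))))))))))) .nil))))))))))) (.cons (.keep [3,4,5,7,8] (.node (.cons (.keep [3,5,7,8,9] (.node (.cons (.leaf 1 [(10,1)]) (.cons (.leaf 1 [(10,1),(4,1)]) (.cons (.leaf 1 [(10,1),(4,1)]) (.cons (.leaf 1 []) (.cons (.leaf 1 [(4,1)]) (.cons (.leaf 1 [(4,1)]) (.cons (.leaf 1 [(10,1),(6,1)]) (.cons (.leaf 1 [(10,1),(6,1)]) (.cons (.leaf 1 [(10,1)]) .nil))))))))))) (.cons (.keep [4,6,9,10,11] (.node (.cons (.leaf 1 [(7,1)]) (.cons (.leaf 1 [(7,1),(4,1)]) (.cons (.leaf 1 [(7,1),(4,1)]) (.cons (.leaf 1 []) (.cons (.leaf 1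 [(4,1)]) (.cons (.leaf 1 [(4,1)]) (.cons (.leaf 1 [(7,1),(6,1)]) (.cons (.leaf 1 [(7,1),(6,1)]) (.cons (.leaf 1 [(7,1)]) .nil))))))))))) (.cons (.keep [3,5,8,9,10] (.node (.cons (.leaf 1 [(9,1)]) (.cons (.leaf 1 [(9,1),(4,1)]) (.cons (.leaf 1 [(9,1),(4,1)]) (.cons (.leaf 1 []) (.cons (.leaf 1 [(4,1)]) (.cons (.leaf 1 [(4,1)]) (.cons (.leaf 1 [(9,1),(6,1)]) (.cons (.leaf 1 [(9,1),(6,1)]) (.cons (.leaf 1 [(9,1)]) .nil))))))))))) (.cons (.keep [1,5,6,9,10] (.node (.cons (.leaf 1 [(7,1),(10,1)]) (.cons (.leaf 1 [(7,1),(10,1),(4,1)]) (.cons (.leaf 1 [(7,1),(10,1),(4,1)]) (.cons (.leaf 1 []) (.cons (.leaf 1 [(4,1)]) (.cons (.leaf 1 [(4,1)]) (.cons (.leaf 1 [(7,1),(10,1),(6,1)]) (.cons (.leaf 1 [(7,1),(10,1),(6,1)]) (.cons (.leaf 1 [(7,1),(10,1)]) .nil))))))))))) (.cons (.keep [1,6,9,10,11]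 (.node (.cons (.leaf 1 [(7,1),(9,1)]) (.cons (.leaf 1 [(8,1),(4,2)]) (.cons (.leaf 1 [(7,1),(9,1),(4,1)]) (.cons (.leaf 1 []) (.cons (.leaf 1 [(4,1)]) (.cons (.leaf 1 [(4,1)]) (.cons (.leaf 1 [(7,1),(9,1),(6,1)]) (.cons (.leaf 1 [(1,1),(6,2),(8,1)]) (.cons (.leaf 1 [(7,1),(9,1)]) .nil))))))))))) (.cons (.keep [3,5,8,9,10,11] (.node (.cons (.leaf 1 [(9,1)]) (.cons (.leaf 1 [(9,1),(4,1)]) (.cons (.leaf 1 [(9,1),(4,1)]) (.cons (.leaf 1 []) (.cons (.leaf 1 [(4,1)]) (.cons (.leaf 1 [(4,1)]) (.cons (.leaf 1 [(9,1),(6,1)]) (.cons (.leaf 1 [(9,1),(6,1)]) (.cons (.leaf 1 [(9,1)]) .nil))))))))))) (.cons (.keep [1,5,6,7,8,9] (.node (.cons (.leaf 1 [(11,1)]) (.cons (.leaf 1 [(11,1),(4,1)]) (.cons (.leaf 1 [(11,1),(4,1)]) (.cons (.leaf 1 []) (.cons (.leaf 1 [(4,1)]) (.cons (.leaf 1 [(4,1)]) (.cons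 (.leaf 1 [(11,1),(6,1)]) (.cons (.leaf 1 [(11,1),(6,1)]) (.cons (.leaf 1 [(11,1)]) .nil))))))))))) (.cons (.keep [1,6,9,10,11] (.node (.cons (.leaf 1 [(8,1),(7,1)]) (.cons (.leaf 1 [(8,1),(4,2)]) (.cons (.leaf 1 [(8,1),(7,1),(4,1)]) (.cons (.leaf 1 []) (.cons (.leaf 1 [(4,1)]) (.cons (.leaf 1 [(4,1)]) (.cons (.leaf 1 [(8,1),(7,1),(6,1)]) (.cons (.leaf 1 [(1,1),(6,2),(8,1)]) (.cons (.leaf 1 [(8,1),(7,1)]) .nil))))))))))) (.cons (.keep [0,5,8,9,11] (.node (.cons (.leaf 1 [(9,1)]) (.cons (.leaf 1 [(9,1),(4,1)]) (.cons (.leaf 1 [(9,1),(4,1)]) (.cons (.leaf 1 []) (.cons (.leaf 1 [(4,1)]) (.cons (.leaf 1 [(4,1)]) (.cons (.leaf 1 [(9,1),(6,1)]) (.cons (.leaf 1 [(9,1),(6,1)]) (.cons (.leaf 1 [(9,1)]) .nil))))))))))) .nil))))))))))) (.cons (.leaf 1 [(6,1)]) (.cons (.leaf 1 [(6,1)]) (.cons (.leaf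 1 []) .nil)))))))))))

theorem e_21_25 : ESB (caseOf 4 21 25) := esb_of_ok (t := t_21_25) (by decide +kernel)

def t_21_26 : T := (.keep [0,1,2] (.node (.cons (.keep [2,5,6,7] (.node (.cons (.leaf 1 [(7,1)]) (.cons (.leaf 2 [(9,1)]) (.cons (.leaf 1 [(3,1)]) (.cons (.leaf 1 [(7,1),(1,1)]) (.cons (.leaf 1 [(1,1),(8,1)]) (.cons (.leaf 1 [(3,1)]) (.cons (.leaf 1 [(7,1),(1,1)]) (.cons (.leaf 2 [(9,1),(1,1)]) (.cons (.leaf 1 []) .nil))))))))))) (.cons (.keep [2,4,6,9] (.node (.cons (.leaf 1 [(8,1),(7,1)]) (.cons (.leaf 2 [(9,1),(8,1)]) (.cons (.leaf 1 [(3,1),(8,1)]) (.cons (.leaf 1 [(1,1)]) (.cons (.leaf 1 [(1,1)]) (.cons (.leaf 1 [(1,1)]) (.cons (.leaf 1 [(8,1),(7,1),(1,1)]) (.cons (.leaf 2 [(9,1),(8,1),(1,1)]) (.cons (.leaf 1 [(8,1)]) .nil))))))))))) (.cons (.keep [0,2,4,5] (.node (.cons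 (.leaf 1 [(9,1),(8,1)]) (.cons (.leaf 2 [(9,1)]) (.cons (.leaf 1 [(3,1),(9,1)]) (.cons (.leaf 1 [(9,1),(1,1),(8,1)]) (.cons (.leaf 2 [(1,1),(9,1)]) (.cons (.leaf 1 [(3,1),(9,1)]) (.cons (.leaf 1 [(9,1),(8,1),(1,1)]) (.cons (.leaf 1 [(6,1),(1,1)]) (.cons (.leaf 1 [(9,1)]) .nil))))))))))) (.cons (.keep [1,5,6,8] (.node (.cons (.keep [3,7,8,9] (.node (.cons (.keep [5,6,8,10] (.node (.cons (.leaf 1 [(10,1)]) (.cons (.leaf 1 [(8,1)]) (.cons (.leaf 1 [(3,2)]) (.cons (.leaf 1 [(7,2),(1,2)]) (.cons (.leaf 1 [(1,2),(7,2)]) (.cons (.leaf 1 [(3,2)]) (.cons (.leaf 1 [(10,1),(1,1)]) (.cons (.leaf 1 [(8,1),(1,1)]) (.cons (.leaf 1 []) .nil))))))))))) (.cons (.keep [4,6,7,10] (.node (.cons (.leaf 1 [(7,1),(10,1)]) (.cons (.leaf 1 [(8,1),(7,1)]) (.cons (.leaf 1 [(3,2),(7,2)]) (.cons (.leaf 1 [(1,2)])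 (.cons (.leaf 1 [(1,2)]) (.cons (.leaf 1 [(1,2)]) (.cons (.leaf 1 [(7,1),(10,1),(1,1)]) (.cons (.leaf 1 [(8,1),(7,1),(1,1)]) (.cons (.leaf 1 [(7,2)]) .nil))))))))))) (.cons (.keep [0,4,5,10] (.node (.cons (.leaf 1 [(8,1),(10,1)]) (.cons (.leaf 1 [(8,1)]) (.cons (.leaf 1 [(3,2),(8,2)]) (.cons (.leaf 1 [(1,2),(9,2)]) (.cons (.leaf 1 [(1,1),(8,1)]) (.cons (.leaf 1 [(3,2),(8,2)]) (.cons (.leaf 1 [(8,1),(10,1),(1,1)]) (.cons (.leaf 1 [(6,2),(1,2)]) (.cons (.leaf 1 [(8,2)]) .nil))))))))))) (.cons (.leaf 1 [(1,2),(10,2)]) (.cons (.leaf 1 [(10,2),(1,2)]) (.cons (.leaf 1 [(10,2),(1,2)]) (.cons (.leaf 1 [(6,2)]) (.cons (.leaf 1 [(6,2)]) (.cons (.leaf 1 []) .nil))))))))))) (.cons (.leaf 1 [(4,1),(9,1)]) (.cons (.leaf 1 [(4,1),(3,2)]) (.cons (.leaf 1 [(8,2),(1,1)]) (.cons (.leaf 1 [(4,1),(1,1),(8,2)])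 (.cons (.leaf 1 [(4,1),(3,1),(8,1)]) (.cons (.keep [0,1,8,9] (.node (.cons (.leaf 1 [(5,2),(8,3)]) (.cons (.leaf 1 [(8,3)]) (.cons (.leaf 1 [(8,3),(5,2)]) (.cons (.leaf 1 [(5,2),(9,2),(8,1)]) (.cons (.leaf 1 [(10,1),(8,1)]) (.cons (.leaf 1 [(10,1),(8,1),(5,1)]) (.cons (.leaf 1 [(6,2),(8,1)]) (.cons (.leaf 1 [(1,1),(6,3)]) (.cons (.leaf 1 [(8,1)]) .nil))))))))))) (.cons (.leaf 1 [(9,1),(4,1)]) (.cons (.keep [0,4,7,8,9] (.node (.cons (.leaf 2 [(5,1),(8,1)]) (.cons (.leaf 2 [(8,1)]) (.cons (.leaf 2 [(8,1),(5,1)]) (.cons (.leaf 1 [(5,1),(10,1),(8,1)]) (.cons (.leaf 2 [(11,1),(8,1)]) (.cons (.leaf 2 [(11,1),(8,1),(5,1)]) (.cons (.leaf 1 [(6,1)]) (.cons (.leaf 1 [(6,1)]) (.cons (.leaf 1 []) .nil))))))))))) .nil))))))))))) (.cons (.keep [1,4,6,8] (.node (.cons (.keep [2,3,8,9] (.node (.cons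 (.keep [5,6,7,10] (.node (.cons (.leaf 1 [(10,1)]) (.cons (.leaf 1 [(8,1)]) (.cons (.leaf 1 [(3,2)]) (.cons (.leaf 1 [(7,2),(1,2)]) (.cons (.leaf 1 [(1,2),(7,2)]) (.cons (.leaf 1 [(3,2)]) (.cons (.leaf 1 [(10,1),(1,1)]) (.cons (.leaf 1 [(8,1),(1,1)]) (.cons (.leaf 1 []) .nil))))))))))) (.cons (.keep [4,6,8,9,10] (.node (.cons (.leaf 1 [(11,1),(7,1)]) (.cons (.leaf 1 [(8,1)]) (.cons (.leaf 1 [(7,1),(3,2)]) (.cons (.leaf 1 [(10,1),(1,2)]) (.cons (.leaf 1 [(1,1),(8,1)]) (.cons (.leaf 1 [(1,1),(3,1)]) (.cons (.leaf 1 [(11,1),(7,1),(1,1)]) (.cons (.leaf 1 [(8,1),(1,1)]) (.cons (.leaf 1 [(7,1)]) .nil))))))))))) (.cons (.keep [4,5,7,9,10] (.node (.cons (.leaf 1 [(11,1),(7,1)]) (.cons (.leaf 1 []) (.cons (.leaf 1 [(7,1),(3,2)]) (.cons (.leaf 1 [(10,1),(1,2),(8,2)]) (.cons (.leaf 1 [(1,1)])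 (.cons (.leaf 1 [(3,2),(7,1)]) (.cons (.leaf 1 [(11,1),(7,1),(1,1)]) (.cons (.leaf 1 [(1,1)]) (.cons (.leaf 1 [(7,1)]) .nil))))))))))) (.cons (.leaf 1 [(1,1),(10,2)]) (.cons (.leaf 1 [(10,2),(4,1),(1,1)]) (.cons (.leaf 1 [(10,2),(4,1),(1,1)]) (.cons (.leaf 1 [(1,1),(6,2)]) (.cons (.leaf 1 [(9,1),(6,2)]) (.cons (.leaf 1 [(9,1)]) .nil))))))))))) (.cons (.leaf 1 [(9,1),(4,1)]) (.cons (.leaf 1 [(3,2),(8,1),(4,1)]) (.cons (.keep [1,3,7,9,10] (.node (.cons (.leaf 1 [(7,2)]) (.cons (.leaf 1 [(7,2),(4,1)]) (.cons (.leaf 1 [(7,2),(4,1)]) (.cons (.leaf 1 [(7,1),(10,1)]) (.cons (.leaf 1 [(7,1),(10,1),(4,1)]) (.cons (.leaf 1 [(7,1),(10,1),(4,1)]) (.cons (.leaf 1 [(1,1),(6,2)]) (.cons (.leaf 1 [(7,1),(6,1)]) (.cons (.leaf 1 [(7,1)]) .nil))))))))))) (.cons (.leaf 1 [(9,1),(4,1)]) (.cons (.leaf 1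 [(3,1),(4,1)]) (.cons (.keep [1,8,9,10] (.node (.cons (.leaf 1 [(5,2),(7,2)]) (.cons (.leaf 1 [(8,1),(7,3)]) (.cons (.leaf 1 [(8,1),(7,3),(5,2)]) (.cons (.leaf 1 [(5,1),(9,1),(7,1)]) (.cons (.leaf 1 [(9,1),(7,1)]) (.cons (.leaf 1 [(9,1),(7,1),(5,1)]) (.cons (.leaf 1 [(1,1),(6,2)]) (.cons (.leaf 1 [(1,1),(6,3),(8,1)]) (.cons (.leaf 1 [(8,1),(7,1)]) .nil))))))))))) (.cons (.leaf 1 [(9,1),(4,1)]) (.cons (.keep [0,4,7,8,9] (.node (.cons (.leaf 1 [(5,1),(8,1)]) (.cons (.leaf 2 [(10,2),(8,1)]) (.cons (.leaf 2 [(10,2),(8,1),(5,1)]) (.cons (.leaf 1 [(5,1),(8,1)]) (.cons (.leaf 2 [(10,1),(11,1),(8,1)]) (.cons (.leaf 2 [(10,1),(11,1),(8,1),(5,1)]) (.cons (.leaf 1 [(1,1),(6,2)]) (.cons (.leaf 1 [(10,1),(6,1)]) (.cons (.leaf 1 [(10,1)]) .nil))))))))))) .nil))))))))))) (.cons (.keep [1,4,5,8] (.node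 (.cons (.keep [3,8,9,10] (.node (.cons (.keep [2,5,6,8] (.node (.cons (.leaf 1 []) (.cons (.leaf 1 [(10,1),(9,1)]) (.cons (.leaf 1 [(10,1),(3,2)]) (.cons (.leaf 1 [(1,1)]) (.cons (.leaf 1 [(10,1),(1,2),(8,2)]) (.cons (.leaf 1 [(10,1),(3,2)]) (.cons (.leaf 1 [(1,1)]) (.cons (.leaf 1 [(10,1),(9,1),(1,1)]) (.cons (.leaf 1 [(10,1)]) .nil))))))))))) (.cons (.keep [2,4,6,8] (.node (.cons (.leaf 1 [(8,1)]) (.cons (.leaf 1 [(10,1),(9,1),(8,1)]) (.cons (.leaf 1 [(10,1),(3,2),(8,2)]) (.cons (.leaf 1 [(8,1),(1,1)]) (.cons (.leaf 1 [(10,1),(1,2)]) (.cons (.leaf 1 [(10,1),(1,2)]) (.cons (.leaf 1 [(8,1),(1,1)]) (.cons (.leaf 1 [(10,1),(9,1),(8,1),(1,1)]) (.cons (.leaf 1 [(10,1),(8,2)]) .nil))))))))))) (.cons (.keep [2,4,5,8] (.node (.cons (.leaf 1 [(8,1)]) (.cons (.leaf 1 [(10,1),(8,1)]) (.cons (.leaf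 1 [(10,1),(3,2),(8,2)]) (.cons (.leaf 1 [(8,1),(1,1)]) (.cons (.leaf 1 [(10,1),(1,1),(8,1)]) (.cons (.leaf 1 [(10,1),(3,2),(8,2)]) (.cons (.leaf 1 [(8,1),(1,1)]) (.cons (.leaf 1 [(10,1),(6,2),(1,2)]) (.cons (.leaf 1 [(10,1),(8,2)]) .nil))))))))))) (.cons (.keep [1,5,6,9,10] (.node (.cons (.leaf 1 [(11,1)]) (.cons (.leaf 2 [(9,1)]) (.cons (.leaf 1 [(3,1)]) (.cons (.leaf 1 [(8,1),(1,1)]) (.cons (.leaf 1 [(1,1),(8,1)]) (.cons (.leaf 1 [(3,1)]) (.cons (.leaf 1 [(11,1),(1,1)]) (.cons (.leaf 2 [(9,1),(1,1)]) (.cons (.leaf 1 []) .nil))))))))))) (.cons (.keep [1,4,6,8,10] (.node (.cons (.leaf 1 [(8,1),(11,1)]) (.cons (.leaf 2 [(9,1),(8,1)]) (.cons (.leaf 1 [(3,1),(8,1)]) (.cons (.leaf 1 [(1,1)]) (.cons (.leaf 1 [(1,1)]) (.cons (.leaf 1 [(1,1)]) (.cons (.leaf 1 [(8,1),(11,1),(1,1)]) (.cons (.leaf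 2 [(9,1),(8,1),(1,1)]) (.cons (.leaf 1 [(8,1)]) .nil))))))))))) (.cons (.keep [1,4,5,8,10] (.node (.cons (.leaf 1 [(8,1),(11,1)]) (.cons (.leaf 1 [(7,1),(4,1)]) (.cons (.leaf 1 [(3,1),(8,1)]) (.cons (.leaf 1 [(1,1),(9,1)]) (.cons (.leaf 1 [(7,1),(4,1)]) (.cons (.leaf 1 [(3,1),(8,1)]) (.cons (.leaf 1 [(8,1),(11,1),(1,1)]) (.cons (.leaf 1 [(6,1),(1,1)]) (.cons (.leaf 1 [(8,1)]) .nil))))))))))) (.cons (.leaf 1 [(6,2),(8,1)]) (.cons (.leaf 1 [(8,1),(6,2)]) (.cons (.leaf 1 [(8,1)]) .nil))))))))))) (.cons (.leaf 1 [(4,1)]) (.cons (.leaf 1 [(3,2),(8,1),(4,1)]) (.cons (.keep [1,3,8,9,10] (.node (.cons (.leaf 1 [(7,3),(9,1)]) (.cons (.leaf 1 [(7,3),(9,1),(4,2)]) (.cons (.leaf 1 [(7,3),(9,1),(4,2)]) (.cons (.leaf 1 [(7,1)]) (.cons (.leaf 1 [(7,1),(4,1)]) (.cons (.leaf 1 [(7,1),(4,1)]) (.cons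 (.leaf 1 [(6,3),(1,1),(9,1)]) (.cons (.leaf 1 [(8,1),(1,1),(6,3),(9,1)]) (.cons (.leaf 1 [(7,1),(9,1)]) .nil))))))))))) (.cons (.leaf 1 [(4,1)]) (.cons (.leaf 1 [(3,1),(9,1),(4,1)]) (.cons (.keep [1,8,9,10] (.node (.cons (.leaf 1 [(5,2),(8,1),(7,3)]) (.cons (.leaf 1 [(8,1),(7,3)]) (.cons (.leaf 1 [(8,1),(7,3),(5,2)]) (.cons (.leaf 1 [(5,1),(7,1)]) (.cons (.leaf 1 [(7,1)]) (.cons (.leaf 1 [(7,1),(5,1)]) (.cons (.leaf 1 [(6,2),(8,1),(7,1)]) (.cons (.leaf 1 [(1,1),(6,3),(8,1)]) (.cons (.leaf 1 [(8,1),(7,1)]) .nil))))))))))) (.cons (.leaf 1 [(4,1)]) (.cons (.keep [0,4,7,8,9] (.node (.cons (.leaf 2 [(5,1),(10,2),(8,1)]) (.cons (.leaf 2 [(10,2),(8,1)]) (.cons (.leaf 2 [(10,2),(8,1),(5,1)]) (.cons (.leaf 2 [(5,1),(1,1),(8,1)]) (.cons (.leaf 2 [(1,1),(8,1)]) (.cons (.leaf 2 [(1,1),(8,1),(5,1)])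 (.cons (.leaf 1 [(6,1),(10,1)]) (.cons (.leaf 1 [(10,1),(6,1)]) (.cons (.leaf 1 [(10,1)]) .nil))))))))))) .nil))))))))))) (.cons (.leaf 1 [(6,1)]) (.cons (.leaf 1 [(6,1)]) (.cons (.leaf 1 []) .nil)))))))))))

theorem e_21_26 : ESB (caseOf 4 21 26) := esb_of_ok (t := t_21_26) (by decide +kernel)

def t_21_27 : T := (.keep [0,1,2] (.node (.cons (.leaf 1 []) (.cons (.leaf 1 [(4,1)]) (.cons (.leaf 1 [(4,1)]) (.cons (.leaf 1 [(4,1)]) (.cons (.keep [1,5,6,7] (.node (.cons (.leaf 1 [(5,1)]) (.cons (.keep [2,3,4,11] (.node (.cons (.leaf 1 []) (.cons (.leaf 1 [(4,1)]) (.cons (.leaf 1 [(4,1)]) (.cons (.leaf 1 [(4,1)]) (.cons (.leaf 1 [(11,1)]) (.cons (.leaf 1 [(4,1),(11,1)]) (.cons (.leaf 1 [(11,1),(4,1)]) (.cons (.leaf 1 [(11,1),(4,1)]) (.cons (.leaf 1 [(7,1)]) (.cons (.leaf 1 [(7,1)]) (.cons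 (.leaf 1 [(7,1)]) (.cons (.leaf 1 []) .nil)))))))))))))) (.cons (.leaf 1 [(11,1),(5,1)]) (.cons (.leaf 1 [(3,1),(5,1)]) (.cons (.leaf 1 [(5,1)]) (.cons (.keep [1,3,9,10,11] (.node (.cons (.leaf 1 []) (.cons (.leaf 1 [(4,1)]) (.cons (.leaf 1 [(4,1)]) (.cons (.leaf 1 [(4,1)]) (.cons (.leaf 1 [(12,1)]) (.cons (.leaf 1 [(4,1),(12,1)]) (.cons (.leaf 1 [(12,1),(4,1)]) (.cons (.leaf 1 [(12,1),(4,1)]) (.cons (.leaf 1 [(7,1)]) (.cons (.leaf 1 [(7,1)]) (.cons (.leaf 1 [(7,1)]) (.cons (.leaf 1 []) .nil)))))))))))))) (.cons (.leaf 1 [(11,1),(5,1)]) (.cons (.leaf 1 [(10,1),(3,1),(5,1)]) (.cons (.leaf 1 [(5,1)]) (.cons (.keep [0,1,10,11] (.node (.cons (.leaf 1 []) (.cons (.leaf 1 [(4,1)]) (.cons (.leaf 1 [(4,1)]) (.cons (.leaf 1 [(4,1)]) (.cons (.leaf 1 [(11,1)]) (.cons (.leaf 1 [(4,1),(11,1)]) (.cons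 (.leaf 1 [(11,1),(4,1)]) (.cons (.leaf 1 [(11,1),(4,1)]) (.cons (.leaf 1 [(7,1)]) (.cons (.leaf 1 [(7,1)]) (.cons (.leaf 1 [(7,1)]) (.cons (.leaf 1 []) .nil)))))))))))))) (.cons (.leaf 1 [(11,1),(5,1)]) (.cons (.keep [0,5,8,10,11] (.node (.cons (.leaf 1 []) (.cons (.leaf 1 [(4,1)]) (.cons (.leaf 1 [(4,1)]) (.cons (.leaf 1 [(4,1)]) (.cons (.leaf 1 [(6,1),(9,1)]) (.cons (.leaf 1 [(6,1),(11,1),(9,1)]) (.cons (.leaf 2 [(12,1),(9,1)]) (.cons (.leaf 2 [(12,1),(9,1),(6,1)]) (.cons (.leaf 1 [(7,1)]) (.cons (.leaf 1 [(7,1)]) (.cons (.leaf 1 [(7,1)]) (.cons (.leaf 1 []) .nil)))))))))))))) .nil)))))))))))))) (.cons (.keep [4,6,7,8,9] (.node (.cons (.leaf 1 [(5,1)]) (.cons (.leaf 1 [(8,2)]) (.cons (.leaf 1 [(5,1),(8,2)]) (.cons (.leaf 1 [(5,1),(3,2)]) (.cons (.leaf 1 [(5,1),(1,1)]) (.cons (.leaf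 1 [(9,1),(8,1)]) (.cons (.leaf 1 [(5,1),(8,1),(9,1)]) (.cons (.leaf 1 [(5,1),(3,1),(9,1)]) (.cons (.leaf 1 [(5,1),(1,1)]) (.cons (.keep [0,8,9,10,11] (.node (.cons (.leaf 1 [(9,1)]) (.cons (.leaf 1 [(4,1),(9,1)]) (.cons (.leaf 1 [(4,3)]) (.cons (.leaf 1 [(9,1),(4,1)]) (.cons (.leaf 1 [(6,1),(9,2)]) (.cons (.leaf 1 [(6,1),(10,1),(9,1)]) (.cons (.leaf 2 [(11,1),(9,2)]) (.cons (.leaf 2 [(11,1),(9,2),(6,1)]) (.cons (.leaf 1 [(9,1),(7,1)]) (.cons (.leaf 1 [(7,1),(9,1)]) (.cons (.leaf 1 [(4,1),(7,2)]) (.cons (.leaf 1 [(9,1)]) .nil)))))))))))))) (.cons (.leaf 1 [(10,1),(5,1)]) (.cons (.keep [0,5,9,10,11] (.node (.cons (.leaf 1 []) (.cons (.leaf 1 [(4,1)]) (.cons (.leaf 1 [(4,1)]) (.cons (.leaf 1 [(4,1)]) (.cons (.leaf 1 [(6,1),(9,1)]) (.cons (.leaf 1 [(6,1),(10,1),(9,1)]) (.cons (.leaf 2 [(11,1),(9,1)])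 (.cons (.leaf 2 [(11,1),(9,1),(6,1)]) (.cons (.leaf 1 [(7,1)]) (.cons (.leaf 1 [(7,1)]) (.cons (.leaf 1 [(7,1)]) (.cons (.leaf 1 []) .nil)))))))))))))) .nil)))))))))))))) (.cons (.keep [4,5,7,9,10] (.node (.cons (.leaf 1 [(5,1),(8,1)]) (.cons (.keep [2,3,8,10,12] (.node (.cons (.leaf 1 [(10,1)]) (.cons (.leaf 1 [(4,2)]) (.cons (.leaf 1 [(10,1),(4,1)]) (.cons (.leaf 1 [(10,1),(4,1)]) (.cons (.leaf 1 [(11,1)]) (.cons (.leaf 1 [(4,1),(11,1)]) (.cons (.leaf 1 [(11,1),(4,1)]) (.cons (.leaf 1 [(11,1),(4,1)]) (.cons (.leaf 1 [(10,1),(7,1)]) (.cons (.leaf 1 [(4,1),(7,1)]) (.cons (.leaf 1 [(10,1),(7,1)]) (.cons (.leaf 1 [(10,1)]) .nil)))))))))))))) (.cons (.leaf 1 [(10,1),(5,1)]) (.cons (.leaf 1 [(3,1),(8,1),(5,1)]) (.cons (.leaf 1 [(5,1),(1,1)]) (.cons (.keep [1,3,10,11,12] (.node (.cons (.leaf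 1 [(8,1)]) (.cons (.leaf 1 [(4,2)]) (.cons (.leaf 1 [(8,1),(4,1)]) (.cons (.leaf 1 [(8,1),(4,1)]) (.cons (.leaf 1 [(10,1)]) (.cons (.leaf 1 [(4,1),(10,1)]) (.cons (.leaf 1 [(10,1),(4,1)]) (.cons (.leaf 1 [(10,1),(4,1)]) (.cons (.leaf 1 [(8,1),(7,1)]) (.cons (.leaf 1 [(4,1),(7,1)]) (.cons (.leaf 1 [(8,1),(7,1)]) (.cons (.leaf 1 [(8,1)]) .nil)))))))))))))) (.cons (.leaf 1 [(10,1),(5,1)]) (.cons (.leaf 1 [(3,1),(5,1)]) (.cons (.leaf 1 [(5,1),(8,1)]) (.cons (.keep [2,8,9,10,11] (.node (.cons (.leaf 1 [(9,1)]) (.cons (.leaf 1 [(4,2)]) (.cons (.leaf 1 [(9,1),(4,1)]) (.cons (.leaf 1 [(9,1),(4,1)]) (.cons (.leaf 1 [(11,1)]) (.cons (.leaf 1 [(4,1),(11,1)]) (.cons (.leaf 1 [(11,1),(4,1)]) (.cons (.leaf 1 [(11,1),(4,1)]) (.cons (.leaf 1 [(9,1),(7,1)]) (.cons (.leaf 1 [(4,1),(7,1)]) (.cons (.leaf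 1 [(9,1),(7,1)]) (.cons (.leaf 1 [(9,1)]) .nil)))))))))))))) (.cons (.leaf 1 [(10,1),(5,1)]) (.cons (.keep [0,5,8,10,12] (.node (.cons (.leaf 1 [(10,1)]) (.cons (.leaf 1 [(4,2)]) (.cons (.leaf 1 [(10,1),(4,1)]) (.cons (.leaf 1 [(10,1),(4,1)]) (.cons (.leaf 1 [(10,1),(6,1),(9,1)]) (.cons (.leaf 1 [(6,1),(9,1)]) (.cons (.leaf 2 [(10,1),(11,1),(9,1)]) (.cons (.leaf 2 [(10,1),(11,1),(9,1),(6,1)]) (.cons (.leaf 1 [(10,1),(7,1)]) (.cons (.leaf 1 [(4,1),(7,1)]) (.cons (.leaf 1 [(10,1),(7,1)]) (.cons (.leaf 1 [(10,1)]) .nil)))))))))))))) .nil)))))))))))))) (.cons (.keep [3,4,5,6,9] (.node (.cons (.leaf 1 [(5,1),(9,1)]) (.cons (.keep [3,9,10,11,12] (.node (.cons (.leaf 1 [(9,1)]) (.cons (.leaf 1 [(4,1),(9,1)]) (.cons (.leaf 1 [(9,1),(4,1)]) (.cons (.leaf 1 [(9,1),(4,1)]) (.cons (.leaf 1 [])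 (.cons (.leaf 1 [(4,1)]) (.cons (.leaf 1 [(4,1)]) (.cons (.leaf 1 [(4,1)]) (.cons (.leaf 1 [(9,1),(7,1)]) (.cons (.leaf 1 [(7,1),(9,1)]) (.cons (.leaf 1 [(9,1),(7,1)]) (.cons (.leaf 1 [(9,1)]) .nil)))))))))))))) (.cons (.leaf 1 [(5,1)]) (.cons (.leaf 1 [(3,1),(9,1),(5,1)]) (.cons (.leaf 1 [(5,1),(9,1)]) (.cons (.keep [1,3,10,11,12] (.node (.cons (.leaf 1 [(8,1),(10,1)]) (.cons (.leaf 1 [(4,3),(10,1)]) (.cons (.leaf 1 [(8,1),(10,1),(4,2)]) (.cons (.leaf 1 [(8,1),(10,1),(4,2)]) (.cons (.leaf 1 []) (.cons (.leaf 1 [(4,1)]) (.cons (.leaf 1 [(4,1)]) (.cons (.leaf 1 [(4,1)]) (.cons (.leaf 1 [(8,1),(10,1),(7,2)]) (.cons (.leaf 1 [(7,3),(1,1),(10,1)]) (.cons (.leaf 1 [(9,1),(1,1),(7,3),(10,1)]) (.cons (.leaf 1 [(8,1),(10,1)]) .nil)))))))))))))) (.cons (.leaf 1 [(5,1)]) (.cons (.leaf 1 [(3,1),(11,1),(5,1)])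 (.cons (.leaf 1 [(5,1),(9,1)]) (.cons (.keep [1,9,10,11,12] (.node (.cons (.leaf 1 [(9,1)]) (.cons (.leaf 1 [(4,1),(9,1)]) (.cons (.leaf 1 [(9,1),(4,1)]) (.cons (.leaf 1 [(9,1),(4,1)]) (.cons (.leaf 1 []) (.cons (.leaf 1 [(4,1)]) (.cons (.leaf 1 [(4,1)]) (.cons (.leaf 1 [(4,1)]) (.cons (.leaf 1 [(9,1),(7,1)]) (.cons (.leaf 1 [(7,1),(9,1)]) (.cons (.leaf 1 [(9,1),(7,1)]) (.cons (.leaf 1 [(9,1)]) .nil)))))))))))))) (.cons (.leaf 1 [(5,1)]) (.cons (.keep [0,5,8,9,11] (.node (.cons (.leaf 1 [(11,1)]) (.cons (.leaf 1 [(4,1),(11,1)]) (.cons (.leaf 1 [(11,1),(4,1)]) (.cons (.leaf 1 [(11,1),(4,1)]) (.cons (.leaf 1 []) (.cons (.leaf 1 [(4,1)]) (.cons (.leaf 1 [(4,1)]) (.cons (.leaf 1 [(4,1)]) (.cons (.leaf 1 [(11,1),(7,1)]) (.cons (.leaf 1 [(7,1),(11,1)]) (.cons (.leaf 1 [(11,1),(7,1)]) (.cons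 (.leaf 1 [(11,1)]) .nil)))))))))))))) .nil)))))))))))))) (.cons (.leaf 1 [(7,1)]) (.cons (.leaf 1 [(7,1)]) (.cons (.leaf 1 [(7,1)]) (.cons (.leaf 1 []) .nil))))))))))))))

theorem e_21_27 : ESB (caseOf 4 21 27) := esb_of_ok (t := t_21_27) (by decide +kernel)

def t_21_28 : T := (.keep [0,1,2] (.node (.cons (.keep [2,5,6,7] (.node (.cons (.keep [6,7,8,9,10] (.node (.cons (.leaf 1 [(2,1)]) (.cons (.leaf 2 [(7,1),(9,1)]) (.cons (.leaf 1 [(3,1)]) (.cons (.leaf 1 []) (.cons (.leaf 2 [(7,1),(1,1),(9,1)]) (.cons (.leaf 1 [(3,1)]) (.cons (.leaf 1 [(2,1)]) (.cons (.leaf 2 [(7,1),(9,1),(1,1)]) (.cons (.leaf 1 []) .nil))))))))))) (.cons (.keep [6,7,8,9,10] (.node (.cons (.leaf 1 [(2,1)]) (.cons (.leaf 1 [(7,1),(2,1)]) (.cons (.leaf 1 [(3,1)]) (.cons (.leaf 1 []) (.cons (.leaf 1 [(7,1)]) (.cons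 (.leaf 1 [(3,1)]) (.cons (.leaf 1 [(2,1)]) (.cons (.leaf 1 [(7,1),(2,1)]) (.cons (.leaf 1 []) .nil))))))))))) (.cons (.keep [3,8,9,10] (.node (.cons (.leaf 1 [(2,1)]) (.cons (.leaf 1 [(7,1)]) (.cons (.leaf 1 [(3,1)]) (.cons (.leaf 1 []) (.cons (.leaf 1 [(1,1),(7,1)]) (.cons (.leaf 1 [(3,1)]) (.cons (.leaf 1 [(2,1)]) (.cons (.leaf 1 [(7,1),(1,1)]) (.cons (.leaf 1 []) .nil))))))))))) (.cons (.leaf 1 [(8,1),(1,1)]) (.cons (.leaf 1 [(8,1),(1,1)]) (.cons (.leaf 1 [(8,1),(1,1)]) (.cons (.leaf 1 [(8,1),(6,1),(1,1)]) (.cons (.leaf 1 [(9,1),(6,1),(1,1)]) (.cons (.keep [0,1,8,9] (.node (.cons (.leaf 1 [(2,1)]) (.cons (.keep [3,8,9,10] (.node (.cons (.leaf 1 [(2,1)]) (.cons (.leaf 1 [(2,1)]) (.cons (.leaf 1 [(2,1)]) (.cons (.leaf 1 [(9,1)]) (.cons (.leaf 1 [(7,1),(4,1)]) (.cons (.leaf 1 [(0,1),(9,1)])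 (.cons (.leaf 1 [(9,1),(2,1)]) (.cons (.leaf 1 [(7,1),(4,1)]) (.cons (.leaf 1 [(9,1)]) .nil))))))))))) (.cons (.leaf 1 [(3,1)]) (.cons (.leaf 1 []) (.cons (.leaf 1 [(1,1),(10,1)]) (.cons (.leaf 1 [(3,1)]) (.cons (.leaf 1 [(2,1)]) (.cons (.keep [1,7,8,9,10] (.node (.cons (.leaf 1 [(2,1),(7,1)]) (.cons (.leaf 1 [(4,1)]) (.cons (.leaf 1 [(2,1),(7,1)]) (.cons (.leaf 1 [(10,1)]) (.cons (.leaf 1 [(4,1)]) (.cons (.leaf 1 [(0,1),(7,1),(10,1)]) (.cons (.leaf 1 [(10,1),(2,1)]) (.cons (.leaf 1 [(4,1)]) (.cons (.leaf 1 [(10,1)]) .nil))))))))))) (.cons (.leaf 1 []) .nil))))))))))) .nil))))))))))) (.cons (.keep [4,6,7,9] (.node (.cons (.keep [2,5,6,7] (.node (.cons (.leaf 1 [(2,1),(10,1)]) (.cons (.leaf 2 [(9,1),(10,1)]) (.cons (.leaf 1 [(3,1),(10,1)]) (.cons (.leaf 1 [(8,1),(1,1)]) (.cons (.leaf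 1 [(8,1),(1,1)]) (.cons (.leaf 1 [(8,1),(1,1)]) (.cons (.leaf 1 [(8,1),(6,1),(1,1)]) (.cons (.leaf 1 [(9,1),(6,1),(1,1)]) (.cons (.leaf 1 [(10,1)]) .nil))))))))))) (.cons (.keep [2,4,6,7,8] (.node (.cons (.leaf 1 [(2,1),(10,1)]) (.cons (.leaf 1 [(2,1),(9,1),(10,1)]) (.cons (.leaf 1 [(3,1),(10,1)]) (.cons (.leaf 1 [(10,1)]) (.cons (.leaf 1 [(9,1),(10,1)]) (.cons (.leaf 1 [(3,1),(10,1)]) (.cons (.leaf 1 [(2,1),(10,1)]) (.cons (.leaf 1 [(2,1),(9,1),(10,1)]) (.cons (.leaf 1 [(10,1)]) .nil))))))))))) (.cons (.keep [3,4,7,8] (.node (.cons (.leaf 1 [(2,1),(9,1)]) (.cons (.leaf 1 [(7,1),(9,1)]) (.cons (.leaf 1 [(3,1),(9,1)]) (.cons (.leaf 1 [(9,1)]) (.cons (.leaf 1 [(7,1),(1,1),(9,1)]) (.cons (.leaf 1 [(3,1),(9,1)]) (.cons (.leaf 1 [(2,1),(9,1)]) (.cons (.leaf 1 [(7,1),(9,1),(1,1)]) (.cons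 (.leaf 1 [(9,1)]) .nil))))))))))) (.cons (.leaf 1 [(1,1)]) (.cons (.leaf 1 [(1,1)]) (.cons (.leaf 1 [(1,1)]) (.cons (.leaf 1 [(6,1),(1,1)]) (.cons (.leaf 1 [(8,1),(6,1),(1,1)]) (.cons (.keep [0,1,7,8] (.node (.cons (.leaf 1 [(2,1),(9,1)]) (.cons (.keep [3,7,8,9,10] (.node (.cons (.leaf 1 [(2,1)]) (.cons (.leaf 1 [(7,1)]) (.cons (.leaf 1 [(3,1)]) (.cons (.leaf 1 []) (.cons (.leaf 1 [(1,1),(7,1)]) (.cons (.leaf 1 [(3,1)]) (.cons (.leaf 1 [(2,1)]) (.cons (.leaf 1 [(7,1),(1,1)]) (.cons (.leaf 1 []) .nil))))))))))) (.cons (.leaf 1 [(3,1),(9,1)]) (.cons (.leaf 1 [(9,1)]) (.cons (.leaf 1 [(10,1),(1,1)]) (.cons (.leaf 1 [(3,1),(9,1)]) (.cons (.leaf 1 [(2,1),(9,1)]) (.cons (.keep [1,7,8,9,10] (.node (.cons (.leaf 1 [(2,1)]) (.cons (.leaf 2 [(10,1),(2,1)]) (.cons (.leaf 1 [(3,1)]) (.cons (.leaf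 1 []) (.cons (.leaf 2 [(10,1)]) (.cons (.leaf 1 [(3,1)]) (.cons (.leaf 1 [(2,1)]) (.cons (.leaf 2 [(10,1),(2,1)]) (.cons (.leaf 1 []) .nil))))))))))) (.cons (.leaf 1 [(9,1)]) .nil))))))))))) .nil))))))))))) (.cons (.keep [0,4,5,7] (.node (.cons (.keep [5,6,7,8,9] (.node (.cons (.leaf 2 [(10,1)]) (.cons (.leaf 2 [(8,1),(11,1),(10,1)]) (.cons (.leaf 1 [(3,1),(10,1)]) (.cons (.leaf 1 [(1,1)]) (.cons (.leaf 1 [(1,1)]) (.cons (.leaf 1 [(1,1)]) (.cons (.leaf 1 [(6,1),(1,1)]) (.cons (.leaf 2 [(8,1),(11,1),(10,1),(1,1)]) (.cons (.leaf 1 [(10,1)]) .nil))))))))))) (.cons (.keep [4,6,7,8] (.node (.cons (.leaf 2 [(10,1)]) (.cons (.leaf 2 [(8,1),(10,1)]) (.cons (.leaf 1 [(3,1),(10,1)]) (.cons (.leaf 1 [(1,1)]) (.cons (.leaf 1 [(1,1)]) (.cons (.leaf 1 [(1,1)]) (.cons (.leaf 1 [(6,1),(1,1)]) (.cons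 (.leaf 1 [(8,1),(6,1),(1,1)]) (.cons (.leaf 1 [(10,1)]) .nil))))))))))) (.cons (.keep [3,5,8,9] (.node (.cons (.leaf 2 [(9,1)]) (.cons (.leaf 1 [(7,1),(9,1)]) (.cons (.leaf 1 [(3,1),(9,1)]) (.cons (.leaf 1 [(1,1)]) (.cons (.leaf 1 [(1,1)]) (.cons (.leaf 1 [(1,1)]) (.cons (.leaf 1 [(6,1),(1,1)]) (.cons (.leaf 1 [(7,1),(9,1),(1,1)]) (.cons (.leaf 1 [(9,1)]) .nil))))))))))) (.cons (.leaf 1 [(1,1),(9,1)]) (.cons (.leaf 1 [(1,1),(4,1)]) (.cons (.leaf 1 [(1,1),(9,1)]) (.cons (.leaf 1 [(6,1),(9,1),(1,1)]) (.cons (.leaf 1 [(6,1),(1,1)]) (.cons (.keep [0,1,8,9] (.node (.cons (.leaf 1 [(5,1),(8,1)]) (.cons (.keep [3,7,8,9,10] (.node (.cons (.leaf 1 [(2,1),(10,1)]) (.cons (.leaf 1 [(2,1),(10,1)]) (.cons (.leaf 1 [(2,1),(10,1)]) (.cons (.leaf 1 [(11,1)]) (.cons (.leaf 1 [(7,1),(10,1),(4,1)]) (.cons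 (.leaf 1 [(0,1),(10,1),(11,1)]) (.cons (.leaf 1 [(2,1),(11,1)]) (.cons (.leaf 1 [(7,1),(10,1),(6,1),(2,1)]) (.cons (.leaf 1 [(11,1)]) .nil))))))))))) (.cons (.leaf 1 [(3,1),(9,1)]) (.cons (.leaf 1 [(1,1)]) (.cons (.leaf 1 [(1,1)]) (.cons (.leaf 1 [(1,1)]) (.cons (.leaf 1 [(6,1),(1,1)]) (.cons (.keep [1,7,8,9,10] (.node (.cons (.leaf 1 [(2,1),(10,1),(7,1)]) (.cons (.leaf 1 [(2,1),(10,1),(7,1)]) (.cons (.leaf 1 [(2,1),(10,1),(7,1)]) (.cons (.leaf 1 [(11,1)]) (.cons (.leaf 1 [(10,1),(4,1)]) (.cons (.leaf 1 [(0,1),(10,1),(7,1),(11,1)]) (.cons (.leaf 1 [(2,1),(11,1)]) (.cons (.leaf 1 [(2,1),(10,1),(6,1)]) (.cons (.leaf 1 [(11,1)]) .nil))))))))))) (.cons (.leaf 1 [(9,1)]) .nil))))))))))) .nil))))))))))) (.cons (.leaf 1 []) (.cons (.leaf 1 [(4,1)]) (.cons (.leaf 1 [(4,1)]) (.cons (.leaf 1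 [(6,1)]) (.cons (.leaf 1 [(6,1)]) (.cons (.leaf 1 []) .nil)))))))))))

theorem e_21_28 : ESB (caseOf 4 21 28) := esb_of_ok (t := t_21_28) (by decide +kernel)

def t_21_29 : T := (.keep [0,1,2] (.node (.cons (.leaf 1 []) (.cons (.leaf 1 [(4,1)]) (.cons (.leaf 1 [(4,1)]) (.cons (.leaf 1 [(4,1)]) (.cons (.leaf 1 [(5,1)]) (.cons (.leaf 1 []) (.cons (.leaf 1 [(5,1)]) (.cons (.leaf 1 [(5,1)]) (.cons (.leaf 1 [(7,1)]) (.cons (.leaf 1 [(7,1)]) (.cons (.leaf 1 [(7,1)]) (.cons (.leaf 1 []) .nil))))))))))))))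

theorem e_21_29 : ESB (caseOf 4 21 29) := esb_of_ok (t := t_21_29) (by decide +kernel)

def t_21_30 : T := (.keep [0,1,2] (.node (.cons (.keep [5,6,7,8] (.node (.cons (.leaf 2 [(8,1)]) (.cons (.leaf 1 [(2,1)]) (.cons (.leaf 2 [(10,1)]) (.cons (.leaf 1 [(3,1)]) (.cons (.leaf 2 [(8,1),(1,1)]) (.cons (.leaf 1 []) (.cons (.leaf 1 [(1,1),(9,1)]) (.cons (.leaf 1 [(3,1)]) (.cons (.leaf 2 [(8,1),(1,1)]) (.cons (.leaf 1 [(2,1)]) (.cons (.leaf 2 [(10,1),(1,1)]) (.cons (.leaf 1 []) .nil)))))))))))))) (.cons (.keep [2,4,6,7] (.node (.cons (.leaf 2 [(9,1)]) (.cons (.leaf 1 [(2,1),(9,1)]) (.cons (.leaf 2 [(11,1),(9,1)]) (.cons (.leaf 1 [(3,1),(9,1)]) (.cons (.leaf 1 [(5,1),(1,1)]) (.cons (.leaf 1 [(9,1)]) (.cons (.leaf 1 [(10,1),(1,1)]) (.cons (.leaf 1 [(3,1),(9,1)]) (.cons (.leaf 1 [(7,1),(1,1)])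 (.cons (.leaf 1 [(2,1),(9,1)]) (.cons (.leaf 2 [(11,1),(9,1),(1,1)]) (.cons (.leaf 1 [(9,1)]) .nil)))))))))))))) (.cons (.keep [4,5,7,10] (.node (.cons (.leaf 2 [(8,1),(9,1)]) (.cons (.leaf 2 [(8,1)]) (.cons (.leaf 2 [(10,1),(8,1)]) (.cons (.leaf 1 [(3,1),(8,1)]) (.cons (.leaf 1 [(1,1)]) (.cons (.leaf 1 [(1,1)]) (.cons (.leaf 1 [(1,1)]) (.cons (.leaf 1 [(1,1)]) (.cons (.leaf 2 [(8,1),(9,1),(1,1)]) (.cons (.leaf 1 [(7,1),(1,1)]) (.cons (.leaf 2 [(10,1),(8,1),(1,1)]) (.cons (.leaf 1 [(8,1)]) .nil)))))))))))))) (.cons (.keep [0,4,5,6] (.node (.cons (.leaf 2 [(9,1),(10,1)]) (.cons (.leaf 1 [(9,1),(2,1)]) (.cons (.leaf 2 [(9,1)]) (.cons (.leaf 1 [(3,1),(9,1)]) (.cons (.leaf 2 [(9,1),(1,1),(10,1)]) (.cons (.leaf 1 [(9,1)]) (.cons (.leaf 1 [(1,1),(5,1)]) (.cons (.leaf 1 [(3,1),(9,1)]) (.cons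 (.leaf 2 [(9,1),(10,1),(1,1)]) (.cons (.leaf 1 [(9,1),(2,1)]) (.cons (.leaf 1 [(7,1),(1,1)]) (.cons (.leaf 1 [(9,1)]) .nil)))))))))))))) (.cons (.leaf 1 [(5,1)]) (.cons (.leaf 1 []) (.cons (.leaf 1 [(5,1)]) (.cons (.leaf 1 [(5,1)]) (.cons (.leaf 1 [(7,1)]) (.cons (.leaf 1 [(7,1)]) (.cons (.leaf 1 [(7,1)]) (.cons (.leaf 1 []) .nil))))))))))))))

theorem e_21_30 : ESB (caseOf 4 21 30) := esb_of_ok (t := t_21_30) (by decide +kernel)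

def t_21_31 : T := (.keep [0,1,2] (.node (.cons (.leaf 1 []) (.cons (.leaf 1 [(4,1)]) (.cons (.leaf 1 [(4,1)]) (.cons (.leaf 1 [(4,1)]) (.cons (.leaf 1 [(4,1)]) (.cons (.leaf 1 [(6,1)]) (.cons (.leaf 1 [(6,1)]) (.cons (.leaf 1 []) (.cons (.leaf 1 [(6,1)]) (.cons (.leaf 1 [(6,1)]) (.cons (.leaf 1 [(8,1)]) (.cons (.leaf 1 [(8,1)]) (.cons (.leaf 1 [(8,1)]) (.cons (.leaf 1 [(8,1)]) (.cons (.leaf 1 []) .nil)))))))))))))))))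

theorem e_21_31 : ESB (caseOf 4 21 31) := esb_of_ok (t := t_21_31) (by decide +kernel)

def ks : List (ℕ × ℕ) := [(21, 25), (21, 26), (21, 27), (21, 28), (21, 29), (21, 30), (21, 31)]

theorem ks_ok : ∀ p ∈ ks, ESB (caseOf 4 p.1 p.2) := ks_cons e_21_25 <| ks_cons e_21_26 <| ks_cons
  e_21_27 <| ks_cons e_21_28 <| ks_cons e_21_29 <| ks_cons e_21_30 <| ks_cons e_21_31 <| ks_nil

end Pool.Agent.H4.RD4.E15
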