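import Pool.Agent.H4.RD4.Chk

/-! # Certificates for special cases of order four -/

set_option maxRecDepth 20000

namespace Pool.Agent.H4.RD4.E17

open Pool.Agent.H50.Rdb
open Pool.Agent.H81.RDE (ESB caseOf)

def t_22_18 : T := (.keep [0,1,2] (.node (.cons (.leaf 1 []) (.cons (.leaf 1 [(4,1)]) (.cons (.keep [1,5,7,8] (.node (.cons (.keep [0,2,6,7] (.node (.cons (.leaf 1 []) (.cons (.leaf 1 [(4,1)]) (.cons (.keep [1,5,6,9] (.node (.cons (.leaf 1 [(9,1)]) (.cons (.leaf 1 [(3,1),(9,1)]) (.cons (.leaf 1 [(9,1),(1,1)]) (.cons (.leaf 1 [(9,1),(3,1)]) (.cons (.leaf 1 [(9,1),(1,1)]) (.cons (.leaf 1 [(9,1)]) .nil)))))))) (.cons (.keep [3,4,6,9] (.node (.cons (.leaf 1 [(9,1),(7,1)]) (.cons (.leaf 1 [(9,1),(3,1),(7,1)]) (.cons (.leaf 1 [(9,1),(1,1),(7,1)]) (.cons (.leaf 1 [(9,1),(3,1),(7,1)]) (.cons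 (.leaf 1 [(9,1),(7,1),(1,1)]) (.cons (.leaf 1 [(9,1),(7,1)]) .nil)))))))) (.cons (.leaf 1 [(5,1)]) (.cons (.leaf 1 []) .nil)))))))) (.cons (.keep [3,4,6,7,9] (.node (.cons (.leaf 1 [(6,1)]) (.cons (.leaf 1 [(6,1),(4,1)]) (.cons (.keep [5,6,7,8,9] (.node (.cons (.leaf 1 [(10,1)]) (.cons (.leaf 1 [(2,1),(0,1),(10,1)]) (.cons (.leaf 1 [(10,1),(1,1)]) (.cons (.leaf 1 [(0,1),(10,1)]) (.cons (.leaf 1 [(10,1),(1,1)]) (.cons (.leaf 1 [(10,1)]) .nil)))))))) (.cons (.keep [4,6,7,8,9] (.node (.cons (.leaf 1 [(10,1),(6,1)]) (.cons (.leaf 1 [(2,1),(10,1),(0,1),(6,1)]) (.cons (.leaf 1 [(6,1),(10,1),(1,1)]) (.cons (.leaf 1 [(0,1),(6,1),(10,1)]) (.cons (.leaf 1 [(6,1),(10,1),(1,1)]) (.cons (.leaf 1 [(10,1),(6,1)]) .nil)))))))) (.cons (.leaf 1 [(5,1),(6,1)]) (.cons (.leaf 1 [(6,1)]) .nil)))))))) (.cons (.keep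 [1,5,6,7,8] (.node (.cons (.leaf 1 [(6,1)]) (.cons (.leaf 1 [(4,1),(6,1)]) (.cons (.leaf 2 [(6,2),(9,1)]) (.cons (.leaf 2 [(6,2),(9,1),(4,1)]) (.cons (.leaf 1 [(6,1),(5,1)]) (.cons (.leaf 1 [(6,1)]) .nil)))))))) (.cons (.keep [3,4,6,7,9] (.node (.cons (.leaf 1 [(6,1)]) (.cons (.leaf 1 [(6,1),(4,1)]) (.cons (.leaf 2 [(7,1),(9,1),(6,2)]) (.cons (.leaf 2 [(6,2),(9,1),(4,1),(7,1)]) (.cons (.leaf 1 [(6,1),(5,1)]) (.cons (.leaf 1 [(6,1)]) .nil)))))))) (.cons (.keep [0,1,6,7,9] (.node (.cons (.leaf 1 [(7,1)]) (.cons (.leaf 1 [(4,1),(7,1)]) (.cons (.keep [5,6,7,8,9] (.node (.cons (.leaf 1 [(10,1)]) (.cons (.leaf 1 [(3,1),(10,1)]) (.cons (.leaf 1 [(10,1),(1,1)]) (.cons (.leaf 1 [(10,1),(3,1)]) (.cons (.leaf 1 [(10,1),(1,1)]) (.cons (.leaf 1 [(10,1)]) .nil)))))))) (.cons (.keep [4,6,7,8,9] (.node (.cons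 (.leaf 1 [(10,1),(6,1)]) (.cons (.leaf 1 [(10,1),(3,1),(6,1)]) (.cons (.leaf 1 [(10,1),(1,1),(6,1)]) (.cons (.leaf 1 [(10,1),(3,1),(6,1)]) (.cons (.leaf 1 [(10,1),(6,1),(1,1)]) (.cons (.leaf 1 [(10,1),(6,1)]) .nil)))))))) (.cons (.leaf 1 [(5,1),(7,1)]) (.cons (.leaf 1 [(7,1)]) .nil)))))))) (.cons (.keep [0,1,6,7,9] (.node (.cons (.leaf 1 []) (.cons (.leaf 1 [(4,1)]) (.cons (.keep [1,5,6,7,9] (.node (.cons (.leaf 1 [(10,1)]) (.cons (.leaf 1 [(3,1),(10,1)]) (.cons (.leaf 1 [(10,1),(1,1)]) (.cons (.leaf 1 [(10,1),(3,1)]) (.cons (.leaf 1 [(10,1),(1,1)]) (.cons (.leaf 1 [(10,1)]) .nil)))))))) (.cons (.keep [3,4,6,7,9] (.node (.cons (.leaf 1 [(10,1),(7,1)]) (.cons (.leaf 1 [(10,1),(3,1),(7,1)]) (.cons (.leaf 1 [(10,1),(1,1),(7,1)]) (.cons (.leaf 1 [(10,1),(3,1),(7,1)]) (.cons (.leaf 1 [(10,1),(7,1),(1,1)])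 (.cons (.leaf 1 [(10,1),(7,1)]) .nil)))))))) (.cons (.leaf 1 [(5,1)]) (.cons (.leaf 1 []) .nil)))))))) .nil)))))))) (.cons (.keep [3,4,7,8] (.node (.cons (.keep [3,6,7,8,9] (.node (.cons (.leaf 1 [(8,1)]) (.cons (.leaf 1 [(4,1),(8,1)]) (.cons (.keep [5,6,7,8,9] (.node (.cons (.leaf 1 []) (.cons (.leaf 1 [(3,1)]) (.cons (.leaf 1 [(1,1)]) (.cons (.leaf 1 [(3,1)]) (.cons (.leaf 1 [(1,1)]) (.cons (.leaf 1 []) .nil)))))))) (.cons (.keep [3,4,6,8,9] (.node (.cons (.leaf 1 [(7,1)]) (.cons (.leaf 1 [(3,1),(7,1)]) (.cons (.leaf 1 [(7,1),(1,1)]) (.cons (.leaf 1 [(3,1),(7,1)]) (.cons (.leaf 1 [(7,1),(1,1)]) (.cons (.leaf 1 [(7,1)]) .nil)))))))) (.cons (.leaf 1 [(5,1),(8,1)]) (.cons (.leaf 1 [(8,1)]) .nil)))))))) (.cons (.keep [3,6,7,8,9] (.node (.cons (.leaf 1 [(6,1),(8,1)]) (.cons (.leaf 1 [(4,1),(6,1),(8,1)])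 (.cons (.keep [5,6,7,8,9] (.node (.cons (.leaf 1 []) (.cons (.leaf 1 [(3,1)]) (.cons (.leaf 1 [(1,1)]) (.cons (.leaf 1 [(3,1)]) (.cons (.leaf 1 [(1,1)]) (.cons (.leaf 1 []) .nil)))))))) (.cons (.keep [3,4,6,8,9] (.node (.cons (.leaf 1 [(7,1)]) (.cons (.leaf 1 [(3,1),(7,1)]) (.cons (.leaf 1 [(7,1),(1,1)]) (.cons (.leaf 1 [(3,1),(7,1)]) (.cons (.leaf 1 [(7,1),(1,1)]) (.cons (.leaf 1 [(7,1)]) .nil)))))))) (.cons (.leaf 1 [(5,1),(6,1),(8,1)]) (.cons (.leaf 1 [(6,1),(8,1)]) .nil)))))))) (.cons (.keep [1,5,6,7,9] (.node (.cons (.leaf 1 [(6,1),(9,1)]) (.cons (.leaf 1 [(4,1),(9,1),(6,1)]) (.cons (.leaf 1 [(6,1),(1,1)]) (.cons (.leaf 1 [(6,1),(1,1)]) (.cons (.leaf 1 [(5,1),(6,1),(9,1)]) (.cons (.leaf 1 [(6,1),(9,1)]) .nil)))))))) (.cons (.keep [3,4,6,7,9] (.node (.cons (.leaf 1 [(6,1),(9,1)]) (.cons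 (.leaf 1 [(4,1),(9,1),(6,1)]) (.cons (.leaf 1 [(6,1),(1,1),(7,1)]) (.cons (.leaf 1 [(6,1),(7,1),(1,1)]) (.cons (.leaf 1 [(5,1),(6,1),(9,1)]) (.cons (.leaf 1 [(6,1),(9,1)]) .nil)))))))) (.cons (.keep [1,6,7,8,9] (.node (.cons (.leaf 1 [(8,1),(6,1)]) (.cons (.leaf 1 [(4,1),(8,1),(6,1)]) (.cons (.keep [5,6,7,8,9] (.node (.cons (.leaf 1 []) (.cons (.leaf 1 [(3,1)]) (.cons (.leaf 1 [(1,1)]) (.cons (.leaf 1 [(3,1)]) (.cons (.leaf 1 [(1,1)]) (.cons (.leaf 1 []) .nil)))))))) (.cons (.keep [3,4,6,8,9] (.node (.cons (.leaf 1 [(7,1)]) (.cons (.leaf 1 [(3,1),(7,1)]) (.cons (.leaf 1 [(7,1),(1,1)]) (.cons (.leaf 1 [(3,1),(7,1)]) (.cons (.leaf 1 [(7,1),(1,1)]) (.cons (.leaf 1 [(7,1)]) .nil)))))))) (.cons (.leaf 1 [(5,1),(8,1),(6,1)]) (.cons (.leaf 1 [(8,1),(6,1)]) .nil)))))))) (.cons (.keep [0,1,6,7,9]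 (.node (.cons (.leaf 1 [(9,1)]) (.cons (.leaf 1 [(4,1),(9,1)]) (.cons (.keep [5,6,7,8,9] (.node (.cons (.leaf 1 []) (.cons (.leaf 1 [(3,1)]) (.cons (.leaf 1 [(1,1)]) (.cons (.leaf 1 [(3,1)]) (.cons (.leaf 1 [(1,1)]) (.cons (.leaf 1 []) .nil)))))))) (.cons (.keep [3,4,6,7,9] (.node (.cons (.leaf 1 [(7,1)]) (.cons (.leaf 1 [(3,1),(7,1)]) (.cons (.leaf 1 [(7,1),(1,1)]) (.cons (.leaf 1 [(3,1),(7,1)]) (.cons (.leaf 1 [(7,1),(1,1)]) (.cons (.leaf 1 [(7,1)]) .nil)))))))) (.cons (.leaf 1 [(5,1),(9,1)]) (.cons (.leaf 1 [(9,1)]) .nil)))))))) .nil)))))))) (.cons (.leaf 1 [(5,1)]) (.cons (.leaf 1 []) .nil))))))))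

theorem e_22_18 : ESB (caseOf 4 22 18) := esb_of_ok (t := t_22_18) (by decide +kernel)

def t_22_19 : T := (.keep [0,1,2] (.node (.cons (.leaf 1 [(5,1)]) (.cons (.leaf 1 []) (.cons (.leaf 1 [(5,1)]) (.cons (.keep [0,1,5,6,9] (.node (.cons (.leaf 1 [(5,1)]) (.cons (.keep [0,2,4,10] (.node (.cons (.leaf 1 [(5,1)]) (.cons (.leaf 1 []) (.cons (.leaf 1 [(5,1)]) (.cons (.leaf 1 [(10,1)]) (.cons (.leaf 1 [(4,1),(10,1)]) (.cons (.leaf 1 [(10,1),(4,1)]) (.cons (.leaf 1 [(6,1)]) (.cons (.leaf 1 [(6,1)]) (.cons (.leaf 1 []) .nil))))))))))) (.cons (.keep [0,2,4,5,10] (.node (.cons (.leaf 1 [(5,1)]) (.cons (.leaf 1 []) (.cons (.leaf 1 [(5,1)]) (.cons (.leaf 1 [(11,1)]) (.cons (.leaf 1 [(4,1),(11,1)]) (.cons (.leaf 1 [(11,1),(4,1)]) (.cons (.leaf 1 [(6,1)]) (.cons (.leaf 1 [(6,1)]) (.cons (.leaf 1 [])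 .nil))))))))))) (.cons (.leaf 1 [(5,1)]) (.cons (.keep [1,3,8,9,10] (.node (.cons (.leaf 1 [(5,1)]) (.cons (.leaf 1 []) (.cons (.leaf 1 [(5,1)]) (.cons (.leaf 1 [(7,1),(5,1)]) (.cons (.leaf 2 [(7,1),(11,1)]) (.cons (.leaf 2 [(7,1),(11,1),(5,1)]) (.cons (.leaf 1 [(6,1)]) (.cons (.leaf 1 [(6,1)]) (.cons (.leaf 1 []) .nil))))))))))) (.cons (.keep [3,5,8,10,11] (.node (.cons (.leaf 1 [(5,1)]) (.cons (.leaf 1 []) (.cons (.leaf 1 [(5,1)]) (.cons (.leaf 1 [(7,1),(5,1),(8,1)]) (.cons (.leaf 2 [(7,1),(10,1),(8,1)]) (.cons (.leaf 2 [(7,1),(10,1),(8,1),(5,1)]) (.cons (.leaf 1 [(6,1)]) (.cons (.leaf 1 [(6,1)]) (.cons (.leaf 1 []) .nil))))))))))) (.cons (.leaf 1 [(5,1)]) (.cons (.keep [0,1,8,10,11] (.node (.cons (.leaf 1 [(5,1)]) (.cons (.leaf 1 []) (.cons (.leaf 1 [(5,1)]) (.cons (.leaf 1 [(10,1)]) (.cons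 (.leaf 1 [(4,1),(10,1)]) (.cons (.leaf 1 [(10,1),(4,1)]) (.cons (.leaf 1 [(6,1)]) (.cons (.leaf 1 [(6,1)]) (.cons (.leaf 1 []) .nil))))))))))) (.cons (.keep [0,1,8,10,11] (.node (.cons (.leaf 1 [(5,1)]) (.cons (.leaf 1 []) (.cons (.leaf 1 [(5,1)]) (.cons (.leaf 1 [(10,1)]) (.cons (.leaf 1 [(4,1),(10,1)]) (.cons (.leaf 1 [(10,1),(4,1)]) (.cons (.leaf 1 [(6,1)]) (.cons (.leaf 1 [(6,1)]) (.cons (.leaf 1 []) .nil))))))))))) .nil))))))))))) (.cons (.keep [4,6,7,8,9] (.node (.cons (.leaf 1 []) (.cons (.keep [0,2,4,8] (.node (.cons (.leaf 1 [(5,1)]) (.cons (.leaf 1 []) (.cons (.leaf 1 [(5,1)]) (.cons (.leaf 1 [(10,1)]) (.cons (.leaf 1 [(4,1),(10,1)]) (.cons (.leaf 1 [(10,1),(4,1)]) (.cons (.leaf 1 [(6,1)]) (.cons (.leaf 1 [(6,1)]) (.cons (.leaf 1 []) .nil))))))))))) (.cons (.keep [3,5,8,9,11] (.node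 (.cons (.leaf 1 [(7,1),(5,1)]) (.cons (.leaf 1 [(7,1)]) (.cons (.leaf 1 [(7,1),(5,1)]) (.cons (.leaf 1 [(9,1)]) (.cons (.leaf 1 [(4,1),(9,1)]) (.cons (.leaf 1 [(9,1),(4,1)]) (.cons (.leaf 1 [(6,1),(7,1)]) (.cons (.leaf 1 [(6,1),(7,1)]) (.cons (.leaf 1 [(7,1)]) .nil))))))))))) (.cons (.leaf 1 [(1,1)]) (.cons (.keep [1,6,8,9,10] (.node (.cons (.leaf 1 [(5,1)]) (.cons (.leaf 1 [(4,1)]) (.cons (.leaf 1 [(5,1),(4,1)]) (.cons (.leaf 1 [(7,2),(5,1)]) (.cons (.leaf 2 [(7,2),(9,1)]) (.cons (.leaf 2 [(7,2),(9,1),(5,1)]) (.cons (.leaf 1 [(7,1),(6,1)]) (.cons (.leaf 1 [(4,1),(6,2)]) (.cons (.leaf 1 [(7,1)]) .nil))))))))))) (.cons (.keep [3,5,8,9,11] (.node (.cons (.leaf 1 [(7,1),(5,1)]) (.cons (.leaf 1 [(7,1)]) (.cons (.leaf 1 [(7,1),(5,1)]) (.cons (.leaf 1 [(7,2),(8,1),(5,1)]) (.cons (.leaf 2 [(8,1),(9,1),(7,2)])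 (.cons (.leaf 2 [(7,2),(9,1),(5,1),(8,1)]) (.cons (.leaf 1 [(7,1),(6,1)]) (.cons (.leaf 1 [(7,1),(6,1)]) (.cons (.leaf 1 [(7,1)]) .nil))))))))))) (.cons (.leaf 1 [(1,1)]) (.cons (.keep [0,1,8,9,11] (.node (.cons (.leaf 1 [(5,1),(8,1)]) (.cons (.leaf 1 [(8,1)]) (.cons (.leaf 1 [(8,1),(5,1)]) (.cons (.leaf 1 [(9,1)]) (.cons (.leaf 1 [(4,1),(9,1)]) (.cons (.leaf 1 [(9,1),(4,1)]) (.cons (.leaf 1 [(8,1),(6,1)]) (.cons (.leaf 1 [(6,1),(8,1)]) (.cons (.leaf 1 [(8,1)]) .nil))))))))))) (.cons (.keep [0,1,8,9,11] (.node (.cons (.leaf 1 [(5,1)]) (.cons (.leaf 1 []) (.cons (.leaf 1 [(5,1)]) (.cons (.leaf 1 [(9,1)]) (.cons (.leaf 1 [(4,1),(9,1)]) (.cons (.leaf 1 [(9,1),(4,1)]) (.cons (.leaf 1 [(6,1)]) (.cons (.leaf 1 [(6,1)]) (.cons (.leaf 1 []) .nil))))))))))) .nil))))))))))) (.cons (.keep [3,4,5,8,9]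 (.node (.cons (.leaf 1 [(5,1),(8,1)]) (.cons (.keep [3,7,8,10,11] (.node (.cons (.leaf 1 [(5,1),(9,1)]) (.cons (.leaf 1 [(9,1)]) (.cons (.leaf 1 [(9,1),(5,1)]) (.cons (.leaf 1 []) (.cons (.leaf 1 [(4,1)]) (.cons (.leaf 1 [(4,1)]) (.cons (.leaf 1 [(9,1),(6,1)]) (.cons (.leaf 1 [(6,1),(9,1)]) (.cons (.leaf 1 [(9,1)]) .nil))))))))))) (.cons (.keep [3,7,9,10,11] (.node (.cons (.leaf 1 [(5,1),(7,1),(9,1)]) (.cons (.leaf 1 [(7,1),(9,1)]) (.cons (.leaf 1 [(7,1),(9,1),(5,1)]) (.cons (.leaf 1 []) (.cons (.leaf 1 [(4,1)]) (.cons (.leaf 1 [(4,1)]) (.cons (.leaf 1 [(7,1),(9,1),(6,1)]) (.cons (.leaf 1 [(6,1),(7,1),(9,1)]) (.cons (.leaf 1 [(7,1),(9,1)]) .nil))))))))))) (.cons (.leaf 1 [(5,1),(8,1)]) (.cons (.keep [1,6,7,9,11] (.node (.cons (.leaf 1 [(5,1),(10,1)]) (.cons (.leaf 1 [(4,1),(10,1)]) (.cons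 (.leaf 1 [(10,1),(4,1),(5,1)]) (.cons (.leaf 1 []) (.cons (.leaf 1 [(4,1)]) (.cons (.leaf 1 [(4,1)]) (.cons (.leaf 1 [(7,1),(10,1),(6,1)]) (.cons (.leaf 1 [(6,2),(4,1),(10,1)]) (.cons (.leaf 1 [(7,1),(10,1)]) .nil))))))))))) (.cons (.keep [3,5,7,9,11] (.node (.cons (.leaf 1 [(5,1),(7,1),(10,1)]) (.cons (.leaf 1 [(7,1),(10,1)]) (.cons (.leaf 1 [(7,1),(10,1),(5,1)]) (.cons (.leaf 1 []) (.cons (.leaf 1 [(4,1)]) (.cons (.leaf 1 [(4,1)]) (.cons (.leaf 1 [(7,1),(10,1),(6,1)]) (.cons (.leaf 1 [(6,1),(7,1),(10,1)]) (.cons (.leaf 1 [(7,1),(10,1)]) .nil))))))))))) (.cons (.leaf 1 [(5,1),(8,1)]) (.cons (.keep [1,7,9,10,11] (.node (.cons (.leaf 1 [(5,1),(9,1),(7,1)]) (.cons (.leaf 1 [(9,1),(7,1)]) (.cons (.leaf 1 [(9,1),(7,1),(5,1)]) (.cons (.leaf 1 []) (.cons (.leaf 1 [(4,1)]) (.cons (.leaf 1 [(4,1)])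 (.cons (.leaf 1 [(9,1),(7,1),(6,1)]) (.cons (.leaf 1 [(6,1),(9,1),(7,1)]) (.cons (.leaf 1 [(9,1),(7,1)]) .nil))))))))))) (.cons (.keep [0,1,7,8,11] (.node (.cons (.leaf 1 [(5,1),(10,1)]) (.cons (.leaf 1 [(10,1)]) (.cons (.leaf 1 [(10,1),(5,1)]) (.cons (.leaf 1 []) (.cons (.leaf 1 [(4,1)]) (.cons (.leaf 1 [(4,1)]) (.cons (.leaf 1 [(10,1),(6,1)]) (.cons (.leaf 1 [(6,1),(10,1)]) (.cons (.leaf 1 [(10,1)]) .nil))))))))))) .nil))))))))))) (.cons (.leaf 1 [(6,1)]) (.cons (.leaf 1 [(6,1)]) (.cons (.leaf 1 []) .nil)))))))))))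

theorem e_22_19 : ESB (caseOf 4 22 19) := esb_of_ok (t := t_22_19) (by decide +kernel)

def t_22_20 : T := (.keep [0,1,2] (.node (.cons (.keep [2,5,6,8] (.node (.cons (.keep [2,5,7,8] (.node (.cons (.keep [2,5,7,8,9] (.node (.cons (.leaf 1 [(2,1)]) (.cons (.leaf 1 [(3,1)]) (.cons (.leaf 1 []) (.cons (.leaf 1 [(3,1)]) (.cons (.leaf 1 [(2,1)]) (.cons (.leaf 1 []) .nil)))))))) (.cons (.keep [3,4,6,7,9] (.node (.cons (.leaf 1 [(2,1)]) (.cons (.leaf 1 [(3,1)]) (.cons (.leaf 1 []) (.cons (.leaf 1 [(3,1)]) (.cons (.leaf 1 [(2,1)]) (.cons (.leaf 1 []) .nil)))))))) (.cons (.keep [1,3,7,8] (.node (.cons (.leaf 1 [(2,1)]) (.cons (.leaf 1 [(3,1)]) (.cons (.leaf 1 []) (.cons (.leaf 1 [(3,1)]) (.cons (.leaf 1 [(2,1)]) (.cons (.leaf 1 []) .nil)))))))) (.cons (.keep [1,3,4,7,8] (.node (.cons (.leaf 1 [(2,1)])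 (.cons (.leaf 1 [(3,1)]) (.cons (.leaf 1 []) (.cons (.leaf 1 [(3,1)]) (.cons (.leaf 1 [(2,1)]) (.cons (.leaf 1 []) .nil)))))))) (.cons (.keep [1,2,5,7,8] (.node (.cons (.leaf 1 [(2,1)]) (.cons (.leaf 1 [(3,1)]) (.cons (.leaf 1 []) (.cons (.leaf 1 [(3,1)]) (.cons (.leaf 1 [(2,1)]) (.cons (.leaf 1 []) .nil)))))))) (.cons (.keep [0,1,2,7,8] (.node (.cons (.leaf 1 [(2,1)]) (.cons (.leaf 1 [(3,1)]) (.cons (.leaf 1 []) (.cons (.leaf 1 [(3,1)]) (.cons (.leaf 1 [(2,1)]) (.cons (.leaf 1 []) .nil)))))))) .nil)))))))) (.cons (.keep [3,4,7,8] (.node (.cons (.keep [2,5,6,7,9] (.node (.cons (.leaf 1 [(2,1),(9,1)]) (.cons (.leaf 1 [(3,1),(9,1)]) (.cons (.leaf 1 [(9,1)]) (.cons (.leaf 1 [(3,1),(9,1)]) (.cons (.leaf 1 [(9,1),(2,1)]) (.cons (.leaf 1 [(9,1)]) .nil)))))))) (.cons (.keep [3,4,6,7,9] (.node (.cons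 (.leaf 1 [(2,1),(9,1)]) (.cons (.leaf 1 [(3,1),(9,1)]) (.cons (.leaf 1 [(9,1)]) (.cons (.leaf 1 [(3,1),(9,1)]) (.cons (.leaf 1 [(9,1),(2,1)]) (.cons (.leaf 1 [(9,1)]) .nil)))))))) (.cons (.keep [1,3,6,7,8] (.node (.cons (.leaf 1 [(6,1)]) (.cons (.leaf 1 [(3,1),(9,1)]) (.cons (.leaf 1 [(6,1),(1,1)]) (.cons (.leaf 1 [(6,1),(3,1),(1,1)]) (.cons (.leaf 1 [(6,1),(1,1)]) (.cons (.leaf 1 [(9,1)]) .nil)))))))) (.cons (.keep [1,3,4,6,7,8] (.node (.cons (.leaf 1 [(6,1)]) (.cons (.leaf 1 [(3,1),(10,1)]) (.cons (.leaf 1 [(6,1),(1,1)]) (.cons (.leaf 1 [(6,1),(3,1),(1,1)]) (.cons (.leaf 1 [(6,1),(1,1)]) (.cons (.leaf 1 [(10,1)]) .nil)))))))) (.cons (.keep [1,2,5,6,7,8] (.node (.cons (.leaf 1 [(8,1),(6,1)]) (.cons (.leaf 1 [(3,1),(10,1)]) (.cons (.leaf 1 [(8,1),(1,1),(6,1)]) (.cons (.leaf 1 [(8,1),(3,1),(6,1),(1,1)])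 (.cons (.leaf 1 [(8,1),(1,1),(6,1)]) (.cons (.leaf 1 [(10,1)]) .nil)))))))) (.cons (.keep [0,1,2,6,7,8] (.node (.cons (.leaf 1 [(2,1),(10,1)]) (.cons (.leaf 1 [(3,1),(10,1)]) (.cons (.leaf 1 [(10,1)]) (.cons (.leaf 1 [(3,1),(10,1)]) (.cons (.leaf 1 [(10,1),(2,1)]) (.cons (.leaf 1 [(10,1)]) .nil)))))))) .nil)))))))) (.cons (.keep [1,3,7,9] (.node (.cons (.leaf 1 [(2,1)]) (.cons (.leaf 1 [(3,1)]) (.cons (.leaf 1 []) (.cons (.leaf 1 [(3,1)]) (.cons (.leaf 1 [(2,1)]) (.cons (.leaf 1 []) .nil)))))))) (.cons (.keep [1,3,4,7,9] (.node (.cons (.leaf 1 [(2,1),(8,1)]) (.cons (.leaf 1 [(3,1),(8,1)]) (.cons (.leaf 1 [(8,1)]) (.cons (.leaf 1 [(8,1),(3,1)]) (.cons (.leaf 1 [(8,1),(2,1)]) (.cons (.leaf 1 [(8,1)]) .nil)))))))) (.cons (.keep [1,2,5,7,9] (.node (.cons (.leaf 1 [(8,1),(2,1)]) (.cons (.leaf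 1 [(8,1),(3,1)]) (.cons (.leaf 1 [(8,1)]) (.cons (.leaf 1 [(8,1),(3,1)]) (.cons (.leaf 1 [(8,1),(2,1)]) (.cons (.leaf 1 [(8,1)]) .nil)))))))) (.cons (.keep [0,1,2,7] (.node (.cons (.leaf 1 [(2,1)]) (.cons (.leaf 1 [(3,1)]) (.cons (.leaf 1 []) (.cons (.leaf 1 [(3,1)]) (.cons (.leaf 1 [(2,1)]) (.cons (.leaf 1 []) .nil)))))))) .nil)))))))) (.cons (.keep [3,4,6,8] (.node (.cons (.keep [2,5,7,8] (.node (.cons (.leaf 1 [(2,2),(8,2)]) (.cons (.leaf 1 [(3,1),(8,2),(2,1)]) (.cons (.keep [3,6,7,8,9] (.node (.cons (.leaf 1 [(9,1),(2,1)]) (.cons (.leaf 1 [(9,1),(3,1)]) (.cons (.leaf 1 [(9,1)]) (.cons (.leaf 1 [(9,1),(3,1)]) (.cons (.leaf 1 [(9,1),(2,1)]) (.cons (.leaf 1 [(9,1)]) .nil)))))))) (.cons (.keep [3,6,7,8,9] (.node (.cons (.leaf 1 [(2,1),(9,1)]) (.cons (.leaf 1 [(3,1),(9,1)]) (.cons (.leaf 1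 [(9,1)]) (.cons (.leaf 1 [(3,1),(9,1)]) (.cons (.leaf 1 [(2,1),(9,1)]) (.cons (.leaf 1 [(9,1)]) .nil)))))))) (.cons (.keep [2,6,7,8,9] (.node (.cons (.leaf 1 [(9,1),(2,1)]) (.cons (.leaf 1 [(9,1),(3,1)]) (.cons (.leaf 1 [(9,1)]) (.cons (.leaf 1 [(9,1),(3,1)]) (.cons (.leaf 1 [(9,1),(2,1)]) (.cons (.leaf 1 [(9,1)]) .nil)))))))) (.cons (.keep [0,2,7,8,9] (.node (.cons (.leaf 1 [(9,1),(2,1)]) (.cons (.leaf 1 [(9,1),(3,1)]) (.cons (.leaf 1 [(9,1)]) (.cons (.leaf 1 [(9,1),(3,1)]) (.cons (.leaf 1 [(9,1),(2,1)]) (.cons (.leaf 1 [(9,1)]) .nil)))))))) .nil)))))))) (.cons (.keep [3,4,7,8] (.node (.cons (.leaf 1 [(8,2),(2,2),(7,1)]) (.cons (.leaf 1 [(8,2),(3,1),(7,1),(2,1)]) (.cons (.keep [3,6,7,8,9] (.node (.cons (.leaf 1 [(2,3),(8,2)]) (.cons (.leaf 1 [(2,1),(3,2),(8,2)]) (.cons (.leaf 1 [(9,1),(8,1)])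 (.cons (.leaf 1 [(9,1),(3,1),(8,1)]) (.cons (.leaf 1 [(9,1),(8,1),(2,1)]) (.cons (.leaf 1 [(9,1),(8,1)]) .nil)))))))) (.cons (.keep [3,6,7,8,9] (.node (.cons (.leaf 1 [(2,1),(8,1),(9,1)]) (.cons (.leaf 1 [(3,1),(9,1),(8,1)]) (.cons (.leaf 1 [(8,1),(9,1)]) (.cons (.leaf 1 [(3,1),(9,1),(8,1)]) (.cons (.leaf 1 [(8,1),(9,1),(2,1)]) (.cons (.leaf 1 [(8,1),(9,1)]) .nil)))))))) (.cons (.keep [2,6,7,8,9] (.node (.cons (.leaf 1 [(2,1),(8,1),(9,1)]) (.cons (.leaf 1 [(9,1),(3,1),(8,1)]) (.cons (.leaf 1 [(9,1),(8,1)]) (.cons (.leaf 1 [(9,1),(3,1),(8,1)]) (.cons (.leaf 1 [(9,1),(8,1),(2,1)]) (.cons (.leaf 1 [(9,1),(8,1)]) .nil)))))))) (.cons (.keep [0,2,7,8,9] (.node (.cons (.leaf 1 [(2,3),(8,2)]) (.cons (.leaf 1 [(2,1),(3,2),(8,2)]) (.cons (.leaf 1 [(9,1),(8,1)]) (.cons (.leaf 1 [(9,1),(3,1),(8,1)])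 (.cons (.leaf 1 [(9,1),(8,1),(2,1)]) (.cons (.leaf 1 [(9,1),(8,1)]) .nil)))))))) .nil)))))))) (.cons (.keep [1,3,6,7,9] (.node (.cons (.leaf 1 [(6,1)]) (.cons (.leaf 1 [(3,1),(9,1)]) (.cons (.leaf 1 [(6,1),(1,1)]) (.cons (.leaf 1 [(6,1),(3,1),(1,1)]) (.cons (.leaf 1 [(6,1),(1,1)]) (.cons (.leaf 1 [(9,1)]) .nil)))))))) (.cons (.keep [1,3,4,7,8,9] (.node (.cons (.leaf 1 [(8,1),(6,1)]) (.cons (.leaf 1 [(8,1),(9,1),(3,1)]) (.cons (.leaf 1 [(1,1),(6,1),(8,1)]) (.cons (.leaf 1 [(1,1),(3,1),(8,1),(6,1)]) (.cons (.leaf 1 [(8,1),(6,1),(1,1)]) (.cons (.leaf 1 [(8,1),(9,1)]) .nil)))))))) (.cons (.keep [1,2,5,7,8,9] (.node (.cons (.leaf 1 [(8,2),(6,1)]) (.cons (.leaf 1 [(8,1),(3,1),(9,1)]) (.cons (.leaf 1 [(8,2),(6,1),(1,1)]) (.cons (.leaf 1 [(8,2),(3,1),(1,1),(6,1)]) (.cons (.leaf 1 [(8,2),(6,1),(1,1)])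 (.cons (.leaf 1 [(8,1),(9,1)]) .nil)))))))) (.cons (.keep [0,1,2,6,7] (.node (.cons (.leaf 1 [(2,1),(10,1)]) (.cons (.leaf 1 [(3,1),(10,1)]) (.cons (.leaf 1 [(10,1)]) (.cons (.leaf 1 [(3,1),(10,1)]) (.cons (.leaf 1 [(10,1),(2,1)]) (.cons (.leaf 1 [(10,1)]) .nil)))))))) .nil)))))))) (.cons (.leaf 1 []) (.cons (.leaf 1 [(4,1)]) (.cons (.leaf 1 [(5,1)]) (.cons (.leaf 1 []) .nil))))))))

theorem e_22_20 : ESB (caseOf 4 22 20) := esb_of_ok (t := t_22_20) (by decide +kernel)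

def t_22_21 : T := (.keep [0,1,2] (.node (.cons (.keep [0,2,5,6,9] (.node (.cons (.leaf 1 [(9,1)]) (.cons (.leaf 1 [(9,1),(4,1)]) (.cons (.leaf 1 [(9,1),(4,1)]) (.cons (.leaf 1 [(5,1)]) (.cons (.leaf 1 []) (.cons (.leaf 1 [(5,1)]) (.cons (.leaf 1 [(6,1)]) (.cons (.leaf 1 [(6,1)]) (.cons (.leaf 1 []) .nil))))))))))) (.cons (.keep [4,6,7,8,9] (.node (.cons (.leaf 1 []) (.cons (.leaf 1 [(4,1)]) (.cons (.leaf 1 [(4,1)]) (.cons (.leaf 1 [(7,1),(5,1)]) (.cons (.leaf 1 [(7,1)]) (.cons (.leaf 1 [(7,1),(5,1)]) (.cons (.leaf 1 [(7,1),(6,1)]) (.cons (.leaf 1 [(7,1),(6,1)]) (.cons (.leaf 1 [(7,1)]) .nil))))))))))) (.cons (.keep [3,4,5,7,9] (.node (.cons (.leaf 1 [(9,1)]) (.cons (.leaf 1 [(4,1),(9,1)]) (.cons (.leaf 1 [(9,1),(4,1)]) (.cons (.leaf 1 [(5,1),(8,1)]) (.cons (.leaf 1 [(8,1)]) (.cons (.leaf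 1 [(8,1),(5,1)]) (.cons (.leaf 1 [(8,1),(6,1)]) (.cons (.leaf 1 [(6,1),(8,1)]) (.cons (.leaf 1 [(8,1)]) .nil))))))))))) (.cons (.leaf 1 [(5,1)]) (.cons (.leaf 1 []) (.cons (.leaf 1 [(5,1)]) (.cons (.leaf 1 [(6,1)]) (.cons (.leaf 1 [(6,1)]) (.cons (.leaf 1 []) .nil)))))))))))

theorem e_22_21 : ESB (caseOf 4 22 21) := esb_of_ok (t := t_22_21) (by decide +kernel)

def t_22_22 : T := (.keep [0,1,2] (.node (.cons (.leaf 1 []) (.cons (.leaf 1 [(4,1)]) (.cons (.leaf 1 [(4,1)]) (.cons (.leaf 1 [(5,1)]) (.cons (.leaf 1 []) (.cons (.leaf 1 [(5,1)]) (.cons (.leaf 1 [(6,1)]) (.cons (.leaf 1 [(6,1)]) (.cons (.leaf 1 []) .nil)))))))))))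

theorem e_22_22 : ESB (caseOf 4 22 22) := esb_of_ok (t := t_22_22) (by decide +kernel)

def t_22_23 : T := (.keep [0,1,2] (.node (.cons (.leaf 1 [(5,1)]) (.cons (.leaf 1 []) (.cons (.leaf 1 [(5,1)]) (.cons (.leaf 1 [(5,1)]) (.cons (.leaf 1 [(6,1)]) (.cons (.leaf 1 [(6,1)]) (.cons (.leaf 1 []) (.cons (.leaf 1 [(6,1)]) (.cons (.leaf 1 [(7,1)]) (.cons (.leaf 1 [(7,1)]) (.cons (.leaf 1 [(7,1)]) (.cons (.leaf 1 []) .nil))))))))))))))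

theorem e_22_23 : ESB (caseOf 4 22 23) := esb_of_ok (t := t_22_23) (by decide +kernel)

def ks : List (ℕ × ℕ) := [(22, 18), (22, 19), (22, 20), (22, 21), (22, 22), (22, 23)]

theorem ks_ok : ∀ p ∈ ks, ESB (caseOf 4 p.1 p.2) := ks_cons e_22_18 <| ks_cons e_22_19 <| ks_cons
  e_22_20 <| ks_cons e_22_21 <| ks_cons e_22_22 <| ks_cons e_22_23 <| ks_nil

end Pool.Agent.H4.RD4.E17
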