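import Pool.Agent.H4.RD4.Chk

/-! # Certificates for special cases of order four -/

set_option maxRecDepth 20000

namespace Pool.Agent.H4.RD4.E19

open Pool.Agent.H50.Rdb
open Pool.Agent.H81.RDE (ESB caseOf)

def t_22_26 : T := (.keep [0,1,2] (.node (.cons (.leaf 1 []) (.cons (.leaf 1 [(4,1)]) (.cons (.leaf 1 [(4,1)]) (.cons (.keep [1,5,6,8] (.node (.cons (.keep [0,7,8,9] (.node (.cons (.leaf 1 []) (.cons (.leaf 1 [(4,1)]) (.cons (.leaf 1 [(4,1)]) (.cons (.keep [1,5,6,10] (.node (.cons (.leaf 1 [(10,1)]) (.cons (.leaf 1 [(9,1),(4,1)]) (.cons (.leaf 1 [(3,1),(10,1)]) (.cons (.leaf 1 [(8,1),(1,1)]) (.cons (.leaf 1 [(1,1),(8,1)]) (.cons (.leaf 1 [(1,1),(8,1)]) (.cons (.leaf 1 [(10,1),(1,1)]) (.cons (.leaf 1 [(1,2),(0,1),(9,1)]) (.cons (.leaf 1 [(10,1)]) .nil))))))))))) (.cons (.keep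 [4,6,8,10] (.node (.cons (.leaf 1 [(10,1),(7,1)]) (.cons (.leaf 1 [(8,1),(4,1)]) (.cons (.leaf 1 [(10,1),(3,1),(7,1)]) (.cons (.leaf 1 [(1,1)]) (.cons (.leaf 1 [(1,1)]) (.cons (.leaf 1 [(1,1)]) (.cons (.leaf 1 [(10,1),(7,1),(1,1)]) (.cons (.leaf 1 [(0,1),(8,1),(7,1),(1,2)]) (.cons (.leaf 1 [(10,1),(7,1)]) .nil))))))))))) (.cons (.keep [3,4,5,10] (.node (.cons (.leaf 1 [(10,1),(8,1)]) (.cons (.leaf 1 [(4,1)]) (.cons (.leaf 1 [(10,1),(3,1),(8,1)]) (.cons (.leaf 1 [(1,1),(9,1)]) (.cons (.leaf 1 [(4,1)]) (.cons (.leaf 1 [(1,1),(9,1)]) (.cons (.leaf 1 [(10,1),(8,1),(1,1)]) (.cons (.leaf 1 [(4,1)]) (.cons (.leaf 1 [(10,1),(8,1)]) .nil))))))))))) (.cons (.leaf 1 [(6,1)]) (.cons (.leaf 1 [(6,1)]) (.cons (.leaf 1 []) .nil))))))))))) (.cons (.leaf 1 [(9,1),(4,1)]) (.cons (.keep [3,4,7,8,9]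 (.node (.cons (.leaf 1 [(7,1)]) (.cons (.leaf 1 [(7,1),(4,1)]) (.cons (.leaf 1 [(7,1),(4,1)]) (.cons (.leaf 1 [(5,1),(10,1),(8,1)]) (.cons (.leaf 2 [(11,1)]) (.cons (.leaf 2 [(11,1),(5,1)]) (.cons (.leaf 1 [(5,1),(0,1),(7,1)]) (.cons (.leaf 1 [(0,1),(7,1)]) (.cons (.leaf 1 [(7,1)]) .nil))))))))))) (.cons (.leaf 1 [(8,1),(1,1)]) (.cons (.leaf 1 [(1,1),(8,1)]) (.cons (.leaf 1 [(1,1),(8,1)]) (.cons (.keep [0,1,7,8,9] (.node (.cons (.leaf 1 [(8,1)]) (.cons (.leaf 1 [(4,1),(8,1)]) (.cons (.leaf 1 [(4,1),(8,1)]) (.cons (.leaf 1 [(5,1),(10,1),(8,1)]) (.cons (.leaf 2 [(11,1),(8,2)]) (.cons (.leaf 2 [(11,1),(8,2),(5,1)]) (.cons (.leaf 1 [(6,1),(8,1)]) (.cons (.leaf 1 [(8,1),(6,1)]) (.cons (.leaf 1 [(8,1)]) .nil))))))))))) (.cons (.leaf 1 [(1,2),(0,1),(9,1)]) (.cons (.keep [0,1,7,8,9] (.node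 (.cons (.leaf 1 []) (.cons (.leaf 1 [(4,1)]) (.cons (.leaf 1 [(4,1)]) (.cons (.leaf 1 [(5,1),(10,1),(8,1)]) (.cons (.leaf 2 [(11,1),(8,1)]) (.cons (.leaf 2 [(11,1),(8,1),(5,1)]) (.cons (.leaf 1 [(6,1)]) (.cons (.leaf 1 [(6,1)]) (.cons (.leaf 1 []) .nil))))))))))) .nil))))))))))) (.cons (.keep [1,3,4,6,8,9] (.node (.cons (.keep [3,9,10,11,12] (.node (.cons (.leaf 1 [(8,1)]) (.cons (.leaf 1 [(8,1),(4,1)]) (.cons (.leaf 1 [(8,1),(4,1)]) (.cons (.leaf 1 [(8,1),(9,1)]) (.cons (.leaf 1 [(8,1),(9,1),(4,1)]) (.cons (.leaf 1 [(8,1),(9,1),(4,1)]) (.cons (.leaf 1 [(8,1),(6,1)]) (.cons (.leaf 1 [(8,1),(6,1)]) (.cons (.leaf 1 [(8,1)]) .nil))))))))))) (.cons (.leaf 1 [(10,1),(4,1)]) (.cons (.keep [3,9,10,11,12] (.node (.cons (.leaf 2 [(5,1),(8,1)]) (.cons (.leaf 2 [(8,1)]) (.cons (.leaf 2 [(8,1),(5,1)])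 (.cons (.leaf 2 [(5,1),(9,1),(8,1)]) (.cons (.leaf 2 [(9,1),(8,1)]) (.cons (.leaf 2 [(9,1),(8,1),(5,1)]) (.cons (.leaf 2 [(5,1),(8,1),(6,1)]) (.cons (.leaf 1 [(8,1),(6,1),(7,1)]) (.cons (.leaf 1 [(7,1),(8,1)]) .nil))))))))))) (.cons (.leaf 1 [(1,1)]) (.cons (.leaf 1 [(1,1)]) (.cons (.leaf 1 [(1,1)]) (.cons (.keep [1,9,10,11,12] (.node (.cons (.leaf 1 [(5,1),(7,1)]) (.cons (.leaf 2 [(8,1),(7,2)]) (.cons (.leaf 1 [(3,1),(7,1),(5,1)]) (.cons (.leaf 1 [(5,1),(7,1)]) (.cons (.leaf 2 [(8,1),(9,1),(7,2)]) (.cons (.leaf 2 [(8,1),(9,1),(7,2),(5,1)]) (.cons (.leaf 1 [(7,1),(5,1)]) (.cons (.leaf 1 [(7,1),(6,1),(8,1)]) (.cons (.leaf 1 [(8,1),(7,1)]) .nil))))))))))) (.cons (.leaf 1 [(0,1),(10,1),(9,1),(1,2)]) (.cons (.keep [0,1,9,10,12] (.node (.cons (.leaf 1 [(5,1),(8,1)]) (.cons (.leaf 2 [(9,1),(8,1)])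 (.cons (.leaf 1 [(3,1),(8,1),(5,1)]) (.cons (.leaf 1 [(5,1),(8,1)]) (.cons (.leaf 2 [(9,1),(10,1),(8,1)]) (.cons (.leaf 2 [(9,1),(10,1),(8,1),(5,1)]) (.cons (.leaf 1 [(8,1),(5,1)]) (.cons (.leaf 1 [(9,1),(6,1)]) (.cons (.leaf 1 [(9,1)]) .nil))))))))))) .nil))))))))))) (.cons (.keep [3,4,5,8] (.node (.cons (.keep [3,5,8,9,10] (.node (.cons (.leaf 1 [(9,1)]) (.cons (.leaf 1 [(4,1),(9,1)]) (.cons (.leaf 1 [(4,1),(9,1)]) (.cons (.keep [5,6,8,9,11] (.node (.cons (.leaf 1 []) (.cons (.leaf 2 [(10,1),(8,1)]) (.cons (.leaf 1 [(3,1)]) (.cons (.leaf 1 [(1,1)]) (.cons (.leaf 2 [(10,1),(1,1),(8,1)]) (.cons (.leaf 1 [(3,1)]) (.cons (.leaf 1 [(1,1)]) (.cons (.leaf 2 [(10,1),(8,1),(1,1)]) (.cons (.leaf 1 []) .nil))))))))))) (.cons (.keep [4,6,8,9,11] (.node (.cons (.leaf 1 [(7,1)]) (.cons (.leaf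 1 [(2,1),(8,1),(7,1)]) (.cons (.leaf 1 [(3,1),(7,1)]) (.cons (.leaf 1 [(7,1),(1,1)]) (.cons (.leaf 1 [(8,1),(7,1)]) (.cons (.leaf 1 [(3,1),(7,1)]) (.cons (.leaf 1 [(7,1),(1,1)]) (.cons (.leaf 1 [(8,1),(7,1),(2,1)]) (.cons (.leaf 1 [(7,1)]) .nil))))))))))) (.cons (.keep [3,4,5,9,11] (.node (.cons (.leaf 1 [(8,1)]) (.cons (.leaf 1 [(7,1),(8,1)]) (.cons (.leaf 1 [(3,1),(8,1)]) (.cons (.leaf 1 [(8,1),(1,1)]) (.cons (.leaf 1 [(7,1),(1,1),(8,1)]) (.cons (.leaf 1 [(3,1),(8,1)]) (.cons (.leaf 1 [(8,1),(1,1)]) (.cons (.leaf 1 [(7,1),(8,1),(1,1)]) (.cons (.leaf 1 [(8,1)]) .nil))))))))))) (.cons (.leaf 1 [(6,1),(9,1)]) (.cons (.leaf 1 [(9,1),(6,1)]) (.cons (.leaf 1 [(9,1)]) .nil))))))))))) (.cons (.leaf 1 [(4,1)]) (.cons (.keep [3,7,8,9,10] (.node (.cons (.leaf 1 [(7,1),(9,1)]) (.cons (.leaf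 1 [(4,1),(7,1),(9,1)]) (.cons (.leaf 1 [(4,1),(7,1),(9,1)]) (.cons (.leaf 2 [(5,1),(9,1)]) (.cons (.leaf 2 [(9,1)]) (.cons (.leaf 2 [(9,1),(5,1)]) (.cons (.leaf 1 [(6,1),(7,1),(9,1)]) (.cons (.leaf 1 [(9,1),(6,1),(7,1)]) (.cons (.leaf 1 [(7,1),(9,1)]) .nil))))))))))) (.cons (.leaf 1 [(1,1),(9,1)]) (.cons (.leaf 1 [(4,1)]) (.cons (.leaf 1 [(1,1),(9,1)]) (.cons (.keep [1,5,8,9,10] (.node (.cons (.leaf 1 [(9,1),(7,1)]) (.cons (.leaf 1 [(4,1),(9,1),(7,1)]) (.cons (.leaf 1 [(4,1),(9,1),(7,1)]) (.cons (.leaf 1 [(5,1),(1,1),(7,1)]) (.cons (.leaf 2 [(9,1),(7,2)]) (.cons (.leaf 1 [(3,1),(7,1),(5,1)]) (.cons (.leaf 1 [(6,1),(9,1),(7,1)]) (.cons (.leaf 1 [(7,1),(6,1),(9,1)]) (.cons (.leaf 1 [(9,1),(7,1)]) .nil))))))))))) (.cons (.leaf 1 [(4,1)]) (.cons (.keep [0,1,7,8,9] (.node (.cons (.leaf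 1 [(10,1)]) (.cons (.leaf 1 [(4,1),(10,1)]) (.cons (.leaf 1 [(4,1),(10,1)]) (.cons (.leaf 1 [(5,1),(1,1),(8,1)]) (.cons (.leaf 2 [(10,1),(8,1)]) (.cons (.leaf 1 [(3,1),(8,1),(5,1)]) (.cons (.leaf 1 [(6,1),(10,1)]) (.cons (.leaf 1 [(10,1),(6,1)]) (.cons (.leaf 1 [(10,1)]) .nil))))))))))) .nil))))))))))) (.cons (.leaf 1 [(6,1)]) (.cons (.leaf 1 [(6,1)]) (.cons (.leaf 1 []) .nil)))))))))))

theorem e_22_26 : ESB (caseOf 4 22 26) := esb_of_ok (t := t_22_26) (by decide +kernel)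

def t_22_27 : T := (.keep [0,1,2] (.node (.cons (.leaf 1 [(5,1)]) (.cons (.leaf 1 []) (.cons (.leaf 1 [(5,1)]) (.cons (.leaf 1 [(5,1)]) (.cons (.keep [0,1,5,6,7,10] (.node (.cons (.leaf 1 [(5,1)]) (.cons (.keep [0,4,11,12] (.node (.cons (.leaf 1 [(5,1)]) (.cons (.leaf 1 []) (.cons (.leaf 1 [(5,1)]) (.cons (.leaf 1 [(5,1)]) (.cons (.leaf 1 [(11,1)]) (.cons (.leaf 1 [(4,1),(11,1)]) (.cons (.leaf 1 [(11,1),(4,1)]) (.cons (.leaf 1 [(11,1),(4,1)]) (.cons (.leaf 1 [(7,1)]) (.cons (.leaf 1 [(7,1)]) (.cons (.leaf 1 [(7,1)]) (.cons (.leaf 1 []) .nil)))))))))))))) (.cons (.leaf 1 [(12,1),(5,1)]) (.cons (.keep [0,4,5,11,12] (.node (.cons (.leaf 1 [(5,1)]) (.cons (.leaf 1 []) (.cons (.leaf 1 [(5,1)]) (.cons (.leaf 1 [(5,1)]) (.cons (.leaf 1 [(6,1),(10,1)]) (.cons (.leaf 1 [(6,1),(11,1),(10,1)])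 (.cons (.leaf 2 [(12,1),(10,1)]) (.cons (.leaf 2 [(12,1),(10,1),(6,1)]) (.cons (.leaf 1 [(7,1)]) (.cons (.leaf 1 [(7,1)]) (.cons (.leaf 1 [(7,1)]) (.cons (.leaf 1 []) .nil)))))))))))))) (.cons (.leaf 1 [(5,1)]) (.cons (.leaf 1 [(11,1),(1,1)]) (.cons (.leaf 1 [(11,1),(1,1)]) (.cons (.leaf 1 [(11,1),(1,1)]) (.cons (.leaf 1 [(5,1)]) (.cons (.keep [0,1,9,11,12] (.node (.cons (.leaf 1 [(5,1)]) (.cons (.leaf 1 []) (.cons (.leaf 1 [(5,1)]) (.cons (.leaf 1 [(5,1)]) (.cons (.leaf 1 [(6,1),(9,1)]) (.cons (.leaf 1 [(6,1),(11,1),(9,1)]) (.cons (.leaf 2 [(12,1),(9,1)]) (.cons (.leaf 2 [(12,1),(9,1),(6,1)]) (.cons (.leaf 1 [(7,1)]) (.cons (.leaf 1 [(7,1)]) (.cons (.leaf 1 [(7,1)]) (.cons (.leaf 1 []) .nil)))))))))))))) (.cons (.leaf 1 [(12,1),(5,1)]) (.cons (.keep [0,1,9,11,12] (.node (.cons (.leaf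 1 [(5,1)]) (.cons (.leaf 1 []) (.cons (.leaf 1 [(5,1)]) (.cons (.leaf 1 [(5,1)]) (.cons (.leaf 1 [(6,1),(9,1)]) (.cons (.leaf 1 [(6,1),(11,1),(9,1)]) (.cons (.leaf 2 [(12,1),(9,1)]) (.cons (.leaf 2 [(12,1),(9,1),(6,1)]) (.cons (.leaf 1 [(7,1)]) (.cons (.leaf 1 [(7,1)]) (.cons (.leaf 1 [(7,1)]) (.cons (.leaf 1 []) .nil)))))))))))))) .nil)))))))))))))) (.cons (.keep [4,6,7,8,9] (.node (.cons (.leaf 1 []) (.cons (.keep [0,4,9,10] (.node (.cons (.leaf 1 [(5,1)]) (.cons (.leaf 1 []) (.cons (.leaf 1 [(5,1)]) (.cons (.leaf 1 [(5,1)]) (.cons (.leaf 1 [(11,1)]) (.cons (.leaf 1 [(4,1),(11,1)]) (.cons (.leaf 1 [(11,1),(4,1)]) (.cons (.leaf 1 [(11,1),(4,1)]) (.cons (.leaf 1 [(7,1)]) (.cons (.leaf 1 [(7,1)]) (.cons (.leaf 1 [(7,1)]) (.cons (.leaf 1 []) .nil)))))))))))))) (.cons (.leaf 1 [(10,1),(5,1)])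 (.cons (.keep [3,5,9,10,11] (.node (.cons (.leaf 1 [(6,1)]) (.cons (.leaf 1 [(8,1)]) (.cons (.leaf 1 [(8,1),(5,1)]) (.cons (.leaf 1 [(8,1),(5,1)]) (.cons (.leaf 1 [(6,1)]) (.cons (.leaf 1 [(6,1),(10,1),(9,1)]) (.cons (.leaf 2 [(11,1)]) (.cons (.leaf 2 [(11,1),(6,1)]) (.cons (.leaf 1 [(6,1)]) (.cons (.leaf 1 [(6,1),(0,1),(8,1)]) (.cons (.leaf 1 [(0,1),(8,1)]) (.cons (.leaf 1 [(8,1)]) .nil)))))))))))))) (.cons (.leaf 1 [(1,1)]) (.cons (.leaf 1 [(9,1),(1,1)]) (.cons (.leaf 1 [(1,1),(9,1)]) (.cons (.leaf 1 [(1,1),(9,1)]) (.cons (.leaf 1 [(1,1)]) (.cons (.keep [0,1,9,10,11] (.node (.cons (.leaf 1 [(5,1),(9,1)]) (.cons (.leaf 1 [(9,1)]) (.cons (.leaf 1 [(5,2),(4,1)]) (.cons (.leaf 1 [(9,1),(5,1)]) (.cons (.leaf 1 [(6,1),(9,2)]) (.cons (.leaf 1 [(6,1),(10,1),(9,1)]) (.cons (.leaf 2 [(11,1),(9,2)])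 (.cons (.leaf 2 [(11,1),(9,2),(6,1)]) (.cons (.leaf 1 [(9,1),(7,1)]) (.cons (.leaf 1 [(7,1),(9,1)]) (.cons (.leaf 1 [(4,1),(7,2)]) (.cons (.leaf 1 [(9,1)]) .nil)))))))))))))) (.cons (.leaf 1 [(1,2),(0,1),(10,1)]) (.cons (.keep [0,1,9,10,11] (.node (.cons (.leaf 1 [(5,1)]) (.cons (.leaf 1 []) (.cons (.leaf 1 [(5,1)]) (.cons (.leaf 1 [(5,1)]) (.cons (.leaf 1 [(6,1),(9,1)]) (.cons (.leaf 1 [(6,1),(10,1),(9,1)]) (.cons (.leaf 2 [(11,1),(9,1)]) (.cons (.leaf 2 [(11,1),(9,1),(6,1)]) (.cons (.leaf 1 [(7,1)]) (.cons (.leaf 1 [(7,1)]) (.cons (.leaf 1 [(7,1)]) (.cons (.leaf 1 []) .nil)))))))))))))) .nil)))))))))))))) (.cons (.keep [4,5,7,9,10] (.node (.cons (.leaf 1 [(5,1),(8,1)]) (.cons (.keep [3,8,10,11,12] (.node (.cons (.leaf 1 []) (.cons (.leaf 1 [(4,1)]) (.cons (.leaf 1 [(4,1)]) (.cons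 (.leaf 1 [(4,1)]) (.cons (.leaf 1 [(10,1)]) (.cons (.leaf 1 [(4,1),(10,1)]) (.cons (.leaf 1 [(10,1),(4,1)]) (.cons (.leaf 1 [(10,1),(4,1)]) (.cons (.leaf 1 [(9,1),(7,1)]) (.cons (.leaf 1 [(4,1),(7,1)]) (.cons (.leaf 1 [(9,1),(7,1)]) (.cons (.leaf 1 [(9,1)]) .nil)))))))))))))) (.cons (.leaf 1 [(10,1),(5,1)]) (.cons (.keep [3,9,10,11,12] (.node (.cons (.leaf 1 []) (.cons (.leaf 1 [(4,1)]) (.cons (.leaf 1 [(4,1)]) (.cons (.leaf 1 [(4,1)]) (.cons (.leaf 1 [(6,1),(9,1)]) (.cons (.leaf 2 [(6,1),(10,1),(9,1)]) (.cons (.leaf 2 [(10,1),(9,1)]) (.cons (.leaf 2 [(10,1),(9,1),(6,1)]) (.cons (.leaf 1 [(9,1),(6,1)]) (.cons (.leaf 1 [(4,1),(7,1)]) (.cons (.leaf 1 [(9,1),(7,1),(8,1)]) (.cons (.leaf 1 [(8,1),(9,1)]) .nil)))))))))))))) (.cons (.leaf 1 [(1,1)]) (.cons (.leaf 1 [(1,1)]) (.cons (.leaf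 1 [(1,1)]) (.cons (.leaf 1 [(1,1)]) (.cons (.leaf 1 [(5,1),(8,1)]) (.cons (.keep [1,9,10,11,12] (.node (.cons (.leaf 1 []) (.cons (.leaf 1 [(4,1)]) (.cons (.leaf 1 [(4,1)]) (.cons (.leaf 1 [(4,1)]) (.cons (.leaf 1 [(9,1),(6,1),(8,2)]) (.cons (.leaf 1 [(6,1),(8,1)]) (.cons (.leaf 2 [(9,1),(10,1),(8,2)]) (.cons (.leaf 2 [(9,1),(10,1),(8,2),(6,1)]) (.cons (.leaf 1 [(9,1),(8,1),(7,1)]) (.cons (.leaf 1 [(4,1),(7,1)]) (.cons (.leaf 1 [(4,1),(7,2),(9,1)]) (.cons (.leaf 1 [(9,1),(8,1)]) .nil)))))))))))))) (.cons (.leaf 1 [(10,1),(5,1)]) (.cons (.keep [0,1,8,10,12] (.node (.cons (.leaf 1 []) (.cons (.leaf 1 [(4,1)]) (.cons (.leaf 1 [(4,1)]) (.cons (.leaf 1 [(4,1)]) (.cons (.leaf 1 [(10,1),(6,1),(9,1)]) (.cons (.leaf 1 [(6,1),(9,1)]) (.cons (.leaf 2 [(10,1),(11,1),(9,1)]) (.cons (.leaf 2 [(10,1),(11,1),(9,1),(6,1)])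 (.cons (.leaf 1 [(10,1),(7,1)]) (.cons (.leaf 1 [(4,1),(7,1)]) (.cons (.leaf 1 [(10,1),(7,1)]) (.cons (.leaf 1 [(10,1)]) .nil)))))))))))))) .nil)))))))))))))) (.cons (.keep [3,4,5,6,9] (.node (.cons (.leaf 1 [(5,1),(9,1)]) (.cons (.keep [3,6,9,11,12] (.node (.cons (.leaf 1 [(5,1),(10,1)]) (.cons (.leaf 1 [(10,1)]) (.cons (.leaf 1 [(10,1),(5,1)]) (.cons (.leaf 1 [(10,1),(5,1)]) (.cons (.leaf 1 []) (.cons (.leaf 1 [(4,1)]) (.cons (.leaf 1 [(4,1)]) (.cons (.leaf 1 [(4,1)]) (.cons (.leaf 1 [(10,1),(7,1)]) (.cons (.leaf 1 [(7,1),(10,1)]) (.cons (.leaf 1 [(10,1),(7,1)]) (.cons (.leaf 1 [(10,1)]) .nil)))))))))))))) (.cons (.leaf 1 [(5,1)]) (.cons (.keep [3,8,10,11,12] (.node (.cons (.leaf 1 [(6,1),(10,1)]) (.cons (.leaf 1 [(8,1),(10,1)]) (.cons (.leaf 1 [(8,1),(10,1),(5,1)]) (.cons (.leaf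 1 [(8,1),(10,1),(5,1)]) (.cons (.leaf 1 []) (.cons (.leaf 1 [(4,1)]) (.cons (.leaf 1 [(4,1)]) (.cons (.leaf 1 [(4,1)]) (.cons (.leaf 1 [(10,1),(6,1)]) (.cons (.leaf 1 [(7,1),(8,1),(10,1)]) (.cons (.leaf 1 [(10,1),(7,1),(8,1)]) (.cons (.leaf 1 [(8,1),(10,1)]) .nil)))))))))))))) (.cons (.leaf 1 [(5,1),(9,1)]) (.cons (.leaf 1 [(1,1),(11,1)]) (.cons (.leaf 1 [(5,1)]) (.cons (.leaf 1 [(1,1),(11,1)]) (.cons (.leaf 1 [(5,1),(9,1)]) (.cons (.keep [1,6,10,11,12] (.node (.cons (.leaf 1 [(5,1),(10,1),(8,1)]) (.cons (.leaf 1 [(10,1),(8,1)]) (.cons (.leaf 1 [(10,1),(4,1),(5,2)]) (.cons (.leaf 1 [(10,1),(8,1),(5,1)]) (.cons (.leaf 1 []) (.cons (.leaf 1 [(4,1)]) (.cons (.leaf 1 [(4,1)]) (.cons (.leaf 1 [(4,1)]) (.cons (.leaf 1 [(10,1),(8,1),(7,1)]) (.cons (.leaf 1 [(7,1),(10,1),(8,1)]) (.cons (.leaf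 1 [(4,1),(7,2),(10,1)]) (.cons (.leaf 1 [(10,1),(8,1)]) .nil)))))))))))))) (.cons (.leaf 1 [(5,1)]) (.cons (.keep [0,1,8,9,11] (.node (.cons (.leaf 1 [(5,1),(11,1)]) (.cons (.leaf 1 [(11,1)]) (.cons (.leaf 1 [(11,1),(5,1)]) (.cons (.leaf 1 [(11,1),(5,1)]) (.cons (.leaf 1 []) (.cons (.leaf 1 [(4,1)]) (.cons (.leaf 1 [(4,1)]) (.cons (.leaf 1 [(4,1)]) (.cons (.leaf 1 [(11,1),(7,1)]) (.cons (.leaf 1 [(7,1),(11,1)]) (.cons (.leaf 1 [(11,1),(7,1)]) (.cons (.leaf 1 [(11,1)]) .nil)))))))))))))) .nil)))))))))))))) (.cons (.leaf 1 [(7,1)]) (.cons (.leaf 1 [(7,1)]) (.cons (.leaf 1 [(7,1)]) (.cons (.leaf 1 []) .nil))))))))))))))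

theorem e_22_27 : ESB (caseOf 4 22 27) := esb_of_ok (t := t_22_27) (by decide +kernel)

def z_22_28_0 : F := ⟨0, -1, 0, 0, 2⟩

def h_22_28_0 : List F := [⟨1, -1, 0, 0, 0⟩, ⟨0, 1, -1, 0, 0⟩, ⟨0, 1, 0, -1, 0⟩, ⟨-1, 0, 0, 0, 1⟩]

def t_22_28_0 : T := (.node (.cons (.keep [2,6,7,9,10] (.node (.cons (.leaf 1 [(2,1)]) (.cons (.leaf 1 [(8,1)]) (.cons (.leaf 1 [(3,1)]) (.cons (.leaf 1 []) (.cons (.leaf 1 [(1,1),(8,1)]) (.cons (.leaf 1 [(3,1)]) (.cons (.leaf 1 [(2,1)]) (.cons (.leaf 1 [(8,1),(1,1)]) (.cons (.leaf 1 []) .nil))))))))))) (.cons (.keep [4,6,7,9,10] (.node (.cons (.leaf 1 [(2,1)]) (.cons (.leaf 1 [(2,1),(8,1)]) (.cons (.leaf 1 [(3,1)]) (.cons (.leaf 1 []) (.cons (.leaf 1 [(8,1)]) (.cons (.leaf 1 [(3,1)]) (.cons (.leaf 1 [(2,1)]) (.cons (.leaf 1 [(8,1),(2,1)]) (.cons (.leaf 1 [])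 .nil))))))))))) (.cons (.keep [3,4,7,9,10] (.node (.cons (.leaf 1 [(2,1)]) (.cons (.keep [2,3,7,9,11] (.node (.cons (.leaf 1 [(2,1),(7,1)]) (.cons (.leaf 1 [(2,1),(7,1)]) (.cons (.leaf 1 [(2,1),(7,1)]) (.cons (.leaf 2 [(9,1)]) (.cons (.leaf 1 [(8,1),(4,1)]) (.cons (.leaf 2 [(3,1),(9,1)]) (.cons (.leaf 2 [(9,1),(2,1)]) (.cons (.leaf 1 [(2,2),(0,1),(8,1)]) (.cons (.leaf 2 [(9,1)]) .nil))))))))))) (.cons (.leaf 1 [(3,1)]) (.cons (.leaf 1 []) (.cons (.keep [1,3,7,9,11] (.node (.cons (.leaf 1 [(2,1)]) (.cons (.leaf 1 [(2,1)]) (.cons (.leaf 1 [(2,1)]) (.cons (.leaf 2 [(7,1),(9,1)]) (.cons (.leaf 1 [(8,1),(4,1)]) (.cons (.leaf 2 [(3,1),(9,1),(7,1)]) (.cons (.leaf 2 [(7,1),(9,1),(2,1)]) (.cons (.leaf 1 [(8,1),(0,1),(7,1),(2,2)]) (.cons (.leaf 2 [(7,1),(9,1)]) .nil))))))))))) (.cons (.leaf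 1 [(3,1)]) (.cons (.leaf 1 [(2,1)]) (.cons (.keep [1,2,7,9,11] (.node (.cons (.leaf 1 [(2,1),(8,1)]) (.cons (.leaf 1 [(4,1)]) (.cons (.leaf 1 [(2,1),(8,1)]) (.cons (.leaf 2 [(9,1),(7,1)]) (.cons (.leaf 1 [(4,1)]) (.cons (.leaf 2 [(9,1),(3,1),(7,1)]) (.cons (.leaf 2 [(9,1),(7,1),(2,1)]) (.cons (.leaf 1 [(4,1)]) (.cons (.leaf 2 [(9,1),(7,1)]) .nil))))))))))) (.cons (.leaf 1 []) .nil))))))))))) (.cons (.keep [1,3,7,8,9] (.node (.cons (.leaf 1 [(2,1)]) (.cons (.leaf 1 [(8,1)]) (.cons (.leaf 1 [(3,1)]) (.cons (.leaf 1 []) (.cons (.leaf 1 [(8,1),(1,1)]) (.cons (.leaf 1 [(3,1)]) (.cons (.leaf 1 [(2,1)]) (.cons (.leaf 1 [(8,1),(1,1)]) (.cons (.leaf 1 []) .nil))))))))))) (.cons (.keep [1,4,6,7,9] (.node (.cons (.leaf 1 [(2,1)]) (.cons (.leaf 1 [(2,1),(9,1)]) (.cons (.leaf 1 [(3,1)]) (.cons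 (.leaf 1 []) (.cons (.leaf 1 [(9,1)]) (.cons (.leaf 1 [(3,1)]) (.cons (.leaf 1 [(2,1)]) (.cons (.leaf 1 [(9,1),(2,1)]) (.cons (.leaf 1 []) .nil))))))))))) (.cons (.keep [1,3,4,7,8,9] (.node (.cons (.leaf 1 [(2,1)]) (.cons (.leaf 1 [(8,1)]) (.cons (.leaf 1 [(3,1)]) (.cons (.leaf 1 []) (.cons (.leaf 1 [(8,1),(1,1)]) (.cons (.leaf 1 [(3,1)]) (.cons (.leaf 1 [(2,1)]) (.cons (.leaf 1 [(8,1),(1,1)]) (.cons (.leaf 1 []) .nil))))))))))) (.cons (.keep [1,6,7,8,9] (.node (.cons (.leaf 1 [(2,1)]) (.cons (.leaf 1 [(8,1)]) (.cons (.leaf 1 [(3,1)]) (.cons (.leaf 1 []) (.cons (.leaf 1 [(8,1),(1,1)]) (.cons (.leaf 1 [(3,1)]) (.cons (.leaf 1 [(2,1)]) (.cons (.leaf 1 [(8,1),(1,1)]) (.cons (.leaf 1 []) .nil))))))))))) (.cons (.keep [1,6,7,8,9] (.node (.cons (.leaf 1 [(2,1)]) (.cons (.leaf 1 [(2,1),(8,1)])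 (.cons (.leaf 1 [(3,1)]) (.cons (.leaf 1 []) (.cons (.leaf 1 [(8,1)]) (.cons (.leaf 1 [(3,1)]) (.cons (.leaf 1 [(2,1)]) (.cons (.leaf 1 [(8,1),(2,1)]) (.cons (.leaf 1 []) .nil))))))))))) (.cons (.keep [0,1,8,9] (.node (.cons (.leaf 1 [(2,1)]) (.cons (.keep [2,3,8,9] (.node (.cons (.leaf 1 [(2,1),(7,1)]) (.cons (.leaf 1 [(2,1),(7,1)]) (.cons (.leaf 1 [(2,1),(7,1)]) (.cons (.leaf 1 [(10,1)]) (.cons (.leaf 1 [(8,1),(4,1)]) (.cons (.leaf 1 [(3,1),(10,1)]) (.cons (.leaf 1 [(10,1),(2,1)]) (.cons (.leaf 1 [(2,2),(0,1),(8,1)]) (.cons (.leaf 1 [(10,1)]) .nil))))))))))) (.cons (.leaf 1 [(3,1)]) (.cons (.leaf 1 []) (.cons (.keep [1,3,8,10] (.node (.cons (.leaf 1 [(2,1)]) (.cons (.leaf 1 [(2,1)]) (.cons (.leaf 1 [(2,1)]) (.cons (.leaf 1 [(7,1),(10,1)]) (.cons (.leaf 1 [(8,1),(4,1)]) (.cons (.leaf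 1 [(3,1),(10,1),(7,1)]) (.cons (.leaf 1 [(7,1),(10,1),(2,1)]) (.cons (.leaf 1 [(8,1),(0,1),(7,1),(2,2)]) (.cons (.leaf 1 [(7,1),(10,1)]) .nil))))))))))) (.cons (.leaf 1 [(3,1)]) (.cons (.leaf 1 [(2,1)]) (.cons (.keep [1,2,7,8,9,10] (.node (.cons (.leaf 1 [(2,1),(8,1)]) (.cons (.leaf 1 [(4,1)]) (.cons (.leaf 1 [(2,1),(8,1)]) (.cons (.leaf 1 [(11,1)]) (.cons (.leaf 1 [(4,1)]) (.cons (.leaf 1 [(3,1),(11,1)]) (.cons (.leaf 1 [(11,1),(2,1)]) (.cons (.leaf 1 [(4,1)]) (.cons (.leaf 1 [(11,1)]) .nil))))))))))) (.cons (.leaf 1 []) .nil))))))))))) .nil))))))))))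

theorem c_22_28_0 : Concl 22 28 z_22_28_0 h_22_28_0 .nd := piece _ hP_nil t_22_28_0 _ _ (by
  decide +kernel)

def z_22_28_1 : F := ⟨1, -1, 0, 0, 1⟩

def h_22_28_1 : List F := [⟨1, -1, 0, 0, 0⟩, ⟨0, 1, -1, 0, 0⟩, ⟨0, 1, 0, -1, 0⟩, ⟨0, -1, 0, 0, 1⟩]

def t_22_28_1 : T := (.node (.cons (.keep [2,5,6,10] (.leaf 0 [(0,0)])) (.cons (.keep [4,6,9,10] (.node (.cons (.keep [2,5,6,7,9] (.node (.cons (.leaf 1 [(2,1),(10,1)]) (.cons (.leaf 1 [(9,1),(10,1)]) (.cons (.leaf 1 [(3,1),(10,1)]) (.cons (.leaf 1 [(10,1)]) (.cons (.leaf 1 [(9,1),(1,1),(10,1)]) (.cons (.leaf 1 [(3,1),(10,1)]) (.cons (.leaf 1 [(2,1),(10,1)]) (.cons (.leaf 1 [(9,1),(10,1),(1,1)]) (.cons (.leaf 1 [(10,1)]) .nil))))))))))) (.cons (.keep [2,6,8,9,10] (.node (.cons (.leaf 1 [(2,2),(11,1)]) (.cons (.leaf 1 [(8,1),(11,1),(2,2)])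 (.cons (.leaf 1 [(3,1),(11,1),(2,1)]) (.cons (.leaf 1 [(9,1),(11,1)]) (.cons (.leaf 1 [(9,1),(8,1),(11,1)]) (.cons (.leaf 1 [(9,1),(3,1),(11,1)]) (.cons (.leaf 1 [(9,1),(11,1),(2,1)]) (.cons (.leaf 1 [(9,1),(11,1),(2,1),(8,1)]) (.cons (.leaf 1 [(9,1),(11,1)]) .nil))))))))))) (.cons (.keep [3,4,7,8,9] (.node (.cons (.leaf 1 [(2,1),(9,1)]) (.cons (.leaf 1 [(7,1),(9,2)]) (.cons (.leaf 1 [(3,1),(9,1)]) (.cons (.leaf 1 [(9,1)]) (.cons (.leaf 1 [(7,1),(1,1),(9,2)]) (.cons (.leaf 1 [(3,1),(9,1)]) (.cons (.leaf 1 [(2,1),(9,1)]) (.cons (.leaf 1 [(7,1),(9,2),(1,1)]) (.cons (.leaf 1 [(9,1)]) .nil))))))))))) (.cons (.keep [1,3,5,9] (.node (.cons (.leaf 1 [(2,1),(7,1)]) (.cons (.leaf 1 [(8,1),(7,1)]) (.cons (.leaf 1 [(3,1),(7,1)]) (.cons (.leaf 1 [(7,1)]) (.cons (.leaf 1 [(8,1),(1,1),(7,1)]) (.cons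 (.leaf 1 [(3,1),(7,1)]) (.cons (.leaf 1 [(2,1),(7,1)]) (.cons (.leaf 1 [(8,1),(7,1),(1,1)]) (.cons (.leaf 1 [(7,1)]) .nil))))))))))) (.cons (.keep [1,4,6,8,9] (.node (.cons (.leaf 1 [(2,1),(7,1)]) (.cons (.leaf 1 [(2,1),(9,1),(7,1)]) (.cons (.leaf 1 [(3,1),(7,1)]) (.cons (.leaf 1 [(7,1)]) (.cons (.leaf 1 [(9,1),(7,1)]) (.cons (.leaf 1 [(3,1),(7,1)]) (.cons (.leaf 1 [(2,1),(7,1)]) (.cons (.leaf 1 [(2,1),(9,1),(7,1)]) (.cons (.leaf 1 [(7,1)]) .nil))))))))))) (.cons (.keep [1,3,4,8,9] (.node (.cons (.leaf 1 [(2,1),(7,1)]) (.cons (.leaf 1 [(8,1),(7,1)]) (.cons (.leaf 1 [(3,1),(7,1)]) (.cons (.leaf 1 [(7,1)]) (.cons (.leaf 1 [(8,1),(1,1),(7,1)]) (.cons (.leaf 1 [(3,1),(7,1)]) (.cons (.leaf 1 [(2,1),(7,1)]) (.cons (.leaf 1 [(8,1),(7,1),(1,1)]) (.cons (.leaf 1 [(7,1)]) .nil))))))))))) (.cons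 (.keep [2,5,6,7,9] (.node (.cons (.leaf 1 [(2,1),(10,1)]) (.cons (.leaf 1 [(9,1),(10,1)]) (.cons (.leaf 1 [(3,1),(10,1)]) (.cons (.leaf 1 [(10,1)]) (.cons (.leaf 1 [(9,1),(1,1),(10,1)]) (.cons (.leaf 1 [(3,1),(10,1)]) (.cons (.leaf 1 [(2,1),(10,1)]) (.cons (.leaf 1 [(9,1),(10,1),(1,1)]) (.cons (.leaf 1 [(10,1)]) .nil))))))))))) (.cons (.keep [2,6,7,8,9] (.node (.cons (.leaf 1 [(2,1),(9,1)]) (.cons (.leaf 1 [(2,1),(8,1),(9,1)]) (.cons (.leaf 1 [(3,1),(9,1)]) (.cons (.leaf 1 [(9,1)]) (.cons (.leaf 1 [(8,1),(9,1)]) (.cons (.leaf 1 [(3,1),(9,1)]) (.cons (.leaf 1 [(2,1),(9,1)]) (.cons (.leaf 1 [(2,1),(8,1),(9,1)]) (.cons (.leaf 1 [(9,1)]) .nil))))))))))) (.cons (.keep [0,2,7,8] (.node (.cons (.leaf 1 [(2,1),(9,1)]) (.cons (.keep [2,3,7,9] (.node (.cons (.leaf 1 [(2,1)]) (.cons (.leaf 2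 [(2,1),(10,1),(8,1)]) (.cons (.leaf 1 [(3,1)]) (.cons (.leaf 1 []) (.cons (.leaf 2 [(10,1),(8,1)]) (.cons (.leaf 1 [(3,1)]) (.cons (.leaf 1 [(2,1)]) (.cons (.leaf 2 [(10,1),(8,1),(2,1)]) (.cons (.leaf 1 []) .nil))))))))))) (.cons (.leaf 1 [(3,1),(9,1)]) (.cons (.leaf 1 [(9,1)]) (.cons (.keep [1,3,7,9,10] (.node (.cons (.leaf 1 [(2,1)]) (.cons (.leaf 1 [(8,1)]) (.cons (.leaf 1 [(3,1)]) (.cons (.leaf 1 []) (.cons (.leaf 1 [(8,1),(1,1)]) (.cons (.leaf 1 [(3,1)]) (.cons (.leaf 1 [(2,1)]) (.cons (.leaf 1 [(8,1),(1,1)]) (.cons (.leaf 1 []) .nil))))))))))) (.cons (.leaf 1 [(3,1),(9,1)]) (.cons (.leaf 1 [(2,1),(9,1)]) (.cons (.keep [1,7,9,10] (.node (.cons (.leaf 1 [(2,1)]) (.cons (.leaf 2 [(2,1),(9,1)]) (.cons (.leaf 1 [(3,1)]) (.cons (.leaf 1 []) (.cons (.leaf 2 [(9,1)]) (.cons (.leaf 1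 [(3,1)]) (.cons (.leaf 1 [(2,1)]) (.cons (.leaf 2 [(9,1),(2,1)]) (.cons (.leaf 1 []) .nil))))))))))) (.cons (.leaf 1 [(9,1)]) .nil))))))))))) .nil))))))))))) (.cons (.keep [3,4,5,10] (.node (.cons (.keep [2,5,6,7,9,10] (.node (.cons (.leaf 1 [(12,1)]) (.cons (.leaf 1 [(9,1),(11,1),(12,1)]) (.cons (.leaf 1 [(3,1),(11,1),(12,1)]) (.cons (.leaf 1 [(12,1),(1,1)]) (.cons (.leaf 1 [(12,1),(9,1),(1,2)]) (.cons (.leaf 1 [(12,1),(3,1),(1,1)]) (.cons (.leaf 1 [(12,1),(1,1)]) (.cons (.leaf 1 [(12,1),(11,1),(1,1),(9,1)]) (.cons (.leaf 1 [(12,1),(11,1)]) .nil))))))))))) (.cons (.keep [2,3,7,8] (.node (.cons (.leaf 1 [(2,1),(10,1)]) (.cons (.leaf 1 [(2,1),(8,1),(10,2)]) (.cons (.leaf 1 [(3,1),(10,1)]) (.cons (.leaf 1 [(10,1)]) (.cons (.leaf 1 [(8,1),(10,2)]) (.cons (.leaf 1 [(3,1),(10,1)]) (.cons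 (.leaf 1 [(10,1),(2,1)]) (.cons (.leaf 1 [(8,1),(10,2),(2,1)]) (.cons (.leaf 1 [(10,1)]) .nil))))))))))) (.cons (.keep [3,5,7,8,9] (.node (.cons (.leaf 1 [(2,1),(10,1)]) (.cons (.leaf 1 [(2,1),(7,1),(10,2)]) (.cons (.leaf 1 [(3,1),(10,1)]) (.cons (.leaf 1 [(10,1)]) (.cons (.leaf 1 [(7,1),(10,2)]) (.cons (.leaf 1 [(3,1),(10,1)]) (.cons (.leaf 1 [(10,1),(2,1)]) (.cons (.leaf 1 [(7,1),(10,2),(2,1)]) (.cons (.leaf 1 [(10,1)]) .nil))))))))))) (.cons (.keep [3,5,7,8,9] (.node (.cons (.leaf 1 [(2,1),(10,1)]) (.cons (.leaf 1 [(7,1),(10,1)]) (.cons (.leaf 1 [(3,1),(10,1)]) (.cons (.leaf 1 [(10,1)]) (.cons (.leaf 1 [(7,1),(1,1),(10,1)]) (.cons (.leaf 1 [(3,1),(10,1)]) (.cons (.leaf 1 [(10,1),(2,1)]) (.cons (.leaf 1 [(7,1),(1,1),(10,1)]) (.cons (.leaf 1 [(10,1)]) .nil))))))))))) (.cons (.keep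 [1,3,4,7] (.node (.cons (.leaf 1 [(7,1)]) (.cons (.leaf 1 [(8,1),(9,1),(7,1)]) (.cons (.leaf 1 [(3,1),(9,1),(7,1)]) (.cons (.leaf 1 [(7,1),(1,1)]) (.cons (.leaf 1 [(7,1),(8,1),(1,2)]) (.cons (.leaf 1 [(7,1),(3,1),(1,1)]) (.cons (.leaf 1 [(7,1),(1,1)]) (.cons (.leaf 1 [(7,1),(9,1),(1,1),(8,1)]) (.cons (.leaf 1 [(7,1),(9,1)]) .nil))))))))))) (.cons (.keep [3,5,7,8,9] (.node (.cons (.leaf 1 [(2,1),(10,1)]) (.cons (.leaf 1 [(7,1),(10,1)]) (.cons (.leaf 1 [(3,1),(10,1)]) (.cons (.leaf 1 [(10,1)]) (.cons (.leaf 1 [(7,1),(1,1),(10,1)]) (.cons (.leaf 1 [(3,1),(10,1)]) (.cons (.leaf 1 [(10,1),(2,1)]) (.cons (.leaf 1 [(7,1),(1,1),(10,1)]) (.cons (.leaf 1 [(10,1)]) .nil))))))))))) (.cons (.keep [2,5,6,7,8,9] (.node (.cons (.leaf 1 [(2,1),(11,1)]) (.cons (.leaf 1 [(9,1),(11,1)]) (.cons (.leaf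 1 [(3,1),(11,1)]) (.cons (.leaf 1 [(11,1)]) (.cons (.leaf 1 [(9,1),(1,1),(11,1)]) (.cons (.leaf 1 [(3,1),(11,1)]) (.cons (.leaf 1 [(11,1),(2,1)]) (.cons (.leaf 1 [(9,1),(1,1),(11,1)]) (.cons (.leaf 1 [(11,1)]) .nil))))))))))) (.cons (.keep [1,2,6,7] (.node (.cons (.leaf 1 [(2,1),(5,1),(7,1)]) (.cons (.leaf 1 [(2,1),(9,2),(7,1)]) (.cons (.leaf 1 [(3,1),(9,1),(7,1)]) (.cons (.leaf 1 [(5,1),(7,1)]) (.cons (.leaf 1 [(9,2),(7,1)]) (.cons (.leaf 1 [(3,2),(7,1),(5,1)]) (.cons (.leaf 1 [(5,1),(7,1),(2,1)]) (.cons (.leaf 1 [(9,2),(7,1),(2,1)]) (.cons (.leaf 1 [(9,1),(7,1)]) .nil))))))))))) (.cons (.keep [0,5,8,9] (.node (.cons (.leaf 1 [(2,1),(9,1)]) (.cons (.keep [2,3,7,9,10] (.node (.cons (.leaf 2 [(2,2),(10,1)]) (.cons (.leaf 1 [(7,1),(10,1),(2,1)]) (.cons (.leaf 2 [(3,1),(10,1),(2,1)])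 (.cons (.leaf 1 [(11,1)]) (.cons (.leaf 1 [(4,1),(8,1),(10,1)]) (.cons (.leaf 1 [(11,1),(3,1)]) (.cons (.leaf 1 [(11,1),(2,1)]) (.cons (.leaf 1 [(0,1),(10,2),(2,2),(8,1)]) (.cons (.leaf 1 [(11,1)]) .nil))))))))))) (.cons (.leaf 1 [(3,1),(9,1)]) (.cons (.leaf 1 [(9,1)]) (.cons (.keep [1,3,7,9] (.node (.cons (.leaf 1 [(2,1),(7,1)]) (.cons (.leaf 1 [(8,1),(7,1)]) (.cons (.leaf 1 [(3,1),(7,1)]) (.cons (.leaf 1 [(7,1)]) (.cons (.leaf 1 [(8,1),(1,1),(7,1)]) (.cons (.leaf 1 [(3,1),(7,1)]) (.cons (.leaf 1 [(2,1),(7,1)]) (.cons (.leaf 1 [(8,1),(7,1),(1,1)]) (.cons (.leaf 1 [(7,1)]) .nil))))))))))) (.cons (.leaf 1 [(3,1),(9,1)]) (.cons (.leaf 1 [(9,1),(2,1)]) (.cons (.keep [2,7,9,10] (.node (.cons (.leaf 1 [(2,1),(9,1),(7,1)]) (.cons (.leaf 1 [(4,1),(9,1)]) (.cons (.leaf 1 [(2,1),(9,1),(7,1)])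 (.cons (.leaf 1 [(10,1)]) (.cons (.leaf 1 [(4,1),(9,1)]) (.cons (.leaf 1 [(3,1),(10,1)]) (.cons (.leaf 1 [(10,1),(2,1)]) (.cons (.leaf 1 [(4,1),(9,1)]) (.cons (.leaf 1 [(10,1)]) .nil))))))))))) (.cons (.leaf 1 [(9,1)]) .nil))))))))))) .nil))))))))))) (.cons (.keep [1,3,7,8,9] (.node (.cons (.leaf 1 [(2,1)]) (.cons (.leaf 1 [(8,1)]) (.cons (.leaf 1 [(3,1)]) (.cons (.leaf 1 []) (.cons (.leaf 1 [(8,1),(1,1)]) (.cons (.leaf 1 [(3,1)]) (.cons (.leaf 1 [(2,1)]) (.cons (.leaf 1 [(8,1),(1,1)]) (.cons (.leaf 1 []) .nil))))))))))) (.cons (.keep [1,4,6,9,10] (.node (.cons (.leaf 1 []) (.cons (.leaf 1 [(9,1)]) (.cons (.leaf 1 [(3,1),(8,1)]) (.cons (.leaf 1 [(1,1)]) (.cons (.leaf 1 [(1,1),(9,1)]) (.cons (.leaf 1 [(1,1),(3,1)]) (.cons (.leaf 1 [(1,1)]) (.cons (.leaf 1 [(1,1),(9,1)]) (.cons (.leaf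 1 [(8,1)]) .nil))))))))))) (.cons (.keep [1,3,4,8,9,10] (.node (.cons (.leaf 1 [(2,1),(9,1)]) (.cons (.leaf 1 []) (.cons (.leaf 1 [(3,1),(9,1)]) (.cons (.leaf 1 [(9,1)]) (.cons (.leaf 1 [(1,1)]) (.cons (.leaf 1 [(9,1),(3,1)]) (.cons (.leaf 1 [(9,1),(2,1)]) (.cons (.leaf 1 [(1,1)]) (.cons (.leaf 1 [(9,1)]) .nil))))))))))) (.cons (.keep [1,6,8,9,10] (.node (.cons (.leaf 1 [(5,1),(2,2)]) (.cons (.leaf 1 [(8,2)]) (.cons (.leaf 1 [(5,1),(3,2)]) (.cons (.leaf 1 [(8,1)]) (.cons (.leaf 1 [(8,2),(1,1)]) (.cons (.leaf 1 [(8,1),(3,1)]) (.cons (.leaf 1 [(8,1),(2,1)]) (.cons (.leaf 1 [(8,2),(1,1)]) (.cons (.leaf 1 [(8,1)]) .nil))))))))))) (.cons (.keep [1,6,8,9,10] (.node (.cons (.leaf 1 [(2,1),(5,1)]) (.cons (.leaf 1 [(2,1),(8,2)]) (.cons (.leaf 1 [(3,1),(8,1)]) (.cons (.leaf 1 [(5,1)]) (.cons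 (.leaf 1 [(8,2)]) (.cons (.leaf 1 [(5,1),(3,2)]) (.cons (.leaf 1 [(5,1),(2,1)]) (.cons (.leaf 1 [(8,2),(2,1)]) (.cons (.leaf 1 [(8,1)]) .nil))))))))))) (.cons (.keep [0,1,8,9] (.node (.cons (.leaf 1 [(2,1)]) (.cons (.keep [2,3,8,9] (.node (.cons (.leaf 1 [(2,1),(7,1)]) (.cons (.leaf 1 [(2,1),(7,1)]) (.cons (.leaf 1 [(2,1),(7,1)]) (.cons (.leaf 1 [(10,1)]) (.cons (.leaf 1 [(8,1),(4,1)]) (.cons (.leaf 1 [(3,1),(10,1)]) (.cons (.leaf 1 [(10,1),(2,1)]) (.cons (.leaf 1 [(2,2),(0,1),(8,1)]) (.cons (.leaf 1 [(10,1)]) .nil))))))))))) (.cons (.leaf 1 [(3,1)]) (.cons (.leaf 1 []) (.cons (.keep [1,3,8,10] (.node (.cons (.leaf 1 [(2,1)]) (.cons (.leaf 1 [(2,1)]) (.cons (.leaf 1 [(2,1)]) (.cons (.leaf 1 [(7,1),(10,1)]) (.cons (.leaf 1 [(8,1),(4,1)]) (.cons (.leaf 1 [(3,1),(10,1),(7,1)]) (.cons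 (.leaf 1 [(7,1),(10,1),(2,1)]) (.cons (.leaf 1 [(8,1),(0,1),(7,1),(2,2)]) (.cons (.leaf 1 [(7,1),(10,1)]) .nil))))))))))) (.cons (.leaf 1 [(3,1)]) (.cons (.leaf 1 [(2,1)]) (.cons (.keep [1,2,7,8,9,10] (.node (.cons (.leaf 1 [(2,1),(8,1)]) (.cons (.leaf 1 [(4,1)]) (.cons (.leaf 1 [(2,1),(8,1)]) (.cons (.leaf 1 [(11,1)]) (.cons (.leaf 1 [(4,1)]) (.cons (.leaf 1 [(3,1),(11,1)]) (.cons (.leaf 1 [(11,1),(2,1)]) (.cons (.leaf 1 [(4,1)]) (.cons (.leaf 1 [(11,1)]) .nil))))))))))) (.cons (.leaf 1 []) .nil))))))))))) .nil))))))))))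

theorem c_22_28_1 : Concl 22 28 z_22_28_1 h_22_28_1 .nd := piece _ (hP_cons c_22_28_0 hP_nil)
  t_22_28_1 _ _ (by decide +kernel)

def t_22_28 : T := (.keep [0,1,2] (.node (.cons (.keep [2,5,6,7] (.leaf 0 [(0,0)])) (.cons (.keep [2,3,4,6,7,9] (.node (.cons (.keep [2,5,6,9,12] (.node (.cons (.leaf 1 [(2,1),(10,2)]) (.cons (.leaf 1 [(9,1),(10,2)]) (.cons (.leaf 1 [(3,1),(10,2)]) (.cons (.leaf 1 [(10,2)]) (.cons (.leaf 1 [(9,1),(10,2),(1,1)]) (.cons (.leaf 1 [(3,1),(10,2)]) (.cons (.leaf 1 [(1,1),(10,2),(8,1)]) (.cons (.leaf 1 [(1,1),(10,2),(9,1)]) (.cons (.leaf 1 [(10,2)]) .nil))))))))))) (.cons (.keep [2,4,6,9,10,12] (.node (.cons (.leaf 1 [(10,2)]) (.cons (.leaf 1 [(9,1),(10,2)]) (.cons (.leaf 1 [(3,1),(8,1),(10,2)]) (.cons (.leaf 1 [(10,2),(1,1)]) (.cons (.leaf 1 [(10,2),(9,1),(1,1)])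 (.cons (.leaf 1 [(10,2),(3,1),(1,1)]) (.cons (.leaf 1 [(1,1),(10,2)]) (.cons (.leaf 1 [(1,1),(10,2),(9,1)]) (.cons (.leaf 1 [(10,2),(8,1)]) .nil))))))))))) (.cons (.keep [3,4,9,10,12] (.node (.cons (.leaf 1 [(2,1),(9,2),(8,1)]) (.cons (.leaf 1 [(9,2)]) (.cons (.leaf 1 [(3,1),(8,1),(9,2)]) (.cons (.leaf 1 [(9,2),(8,1)]) (.cons (.leaf 1 [(9,2),(1,1)]) (.cons (.leaf 1 [(3,1),(9,2),(8,1)]) (.cons (.leaf 1 [(2,1),(9,2),(8,1)]) (.cons (.leaf 1 [(1,1),(9,2)]) (.cons (.leaf 1 [(9,2),(8,1)]) .nil))))))))))) (.cons (.keep [1,3,5,11] (.node (.cons (.leaf 1 [(2,1),(7,1)]) (.cons (.leaf 1 [(8,1),(7,1)]) (.cons (.leaf 1 [(3,1),(7,1)]) (.cons (.leaf 1 [(7,1)]) (.cons (.leaf 1 [(8,1),(1,1),(7,1)]) (.cons (.leaf 1 [(3,1),(7,1)]) (.cons (.leaf 1 [(2,1),(7,1)]) (.cons (.leaf 1 [(8,1),(7,1),(1,1)]) (.cons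 (.leaf 1 [(7,1)]) .nil))))))))))) (.cons (.keep [1,4,6,10,12] (.node (.cons (.leaf 1 [(7,1)]) (.cons (.leaf 1 [(9,1),(7,1)]) (.cons (.leaf 1 [(3,1),(8,1),(7,1)]) (.cons (.leaf 1 [(7,1),(1,1)]) (.cons (.leaf 1 [(7,1),(9,1),(1,1)]) (.cons (.leaf 1 [(7,1),(3,1),(1,1)]) (.cons (.leaf 1 [(7,1),(1,1)]) (.cons (.leaf 1 [(7,1),(9,1),(1,1)]) (.cons (.leaf 1 [(7,1),(8,1)]) .nil))))))))))) (.cons (.keep [1,3,4,10,12] (.node (.cons (.leaf 1 [(2,1),(7,1),(9,1)]) (.cons (.leaf 1 [(7,1)]) (.cons (.leaf 1 [(3,1),(9,1),(7,1)]) (.cons (.leaf 1 [(7,1),(9,1)]) (.cons (.leaf 1 [(7,1),(1,1)]) (.cons (.leaf 1 [(7,1),(3,1),(9,1)]) (.cons (.leaf 1 [(7,1),(9,1),(2,1)]) (.cons (.leaf 1 [(7,1),(1,1)]) (.cons (.leaf 1 [(7,1),(9,1)]) .nil))))))))))) (.cons (.keep [2,5,6,9,12] (.node (.cons (.leaf 1 [(10,1),(5,1),(2,2)])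 (.cons (.leaf 1 [(10,1),(9,2)]) (.cons (.leaf 1 [(10,1),(3,2),(5,1)]) (.cons (.leaf 1 [(10,1),(5,1),(8,1)]) (.cons (.leaf 1 [(10,1),(1,1),(9,2)]) (.cons (.leaf 1 [(10,1),(3,2),(8,1),(5,1)]) (.cons (.leaf 1 [(10,1),(5,1),(8,1),(2,1)]) (.cons (.leaf 1 [(10,1),(9,2),(1,1)]) (.cons (.leaf 1 [(10,1),(9,1)]) .nil))))))))))) (.cons (.keep [2,6,9,10,12] (.node (.cons (.leaf 1 [(9,1),(5,1),(2,1)]) (.cons (.leaf 1 [(9,1),(8,2),(2,1)]) (.cons (.leaf 1 [(3,1),(8,1),(9,1)]) (.cons (.leaf 1 [(9,1),(5,1)]) (.cons (.leaf 1 [(9,1),(8,2)]) (.cons (.leaf 1 [(9,1),(3,2),(5,1)]) (.cons (.leaf 1 [(9,1),(5,1),(2,1)]) (.cons (.leaf 1 [(9,1),(8,2),(2,1)]) (.cons (.leaf 1 [(9,1),(8,1)]) .nil))))))))))) (.cons (.keep [0,2,9,10] (.node (.cons (.leaf 1 [(2,1),(9,1)]) (.cons (.keep [2,3,7,9] (.node (.cons (.leaf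 1 [(2,1)]) (.cons (.leaf 2 [(2,1),(10,1),(8,1)]) (.cons (.leaf 1 [(3,1)]) (.cons (.leaf 1 []) (.cons (.leaf 2 [(10,1),(8,1)]) (.cons (.leaf 1 [(3,1)]) (.cons (.leaf 1 [(2,1)]) (.cons (.leaf 2 [(10,1),(8,1),(2,1)]) (.cons (.leaf 1 []) .nil))))))))))) (.cons (.leaf 1 [(3,1),(9,1)]) (.cons (.leaf 1 [(9,1)]) (.cons (.keep [1,3,7,9,10] (.node (.cons (.leaf 1 [(2,1)]) (.cons (.leaf 1 [(8,1)]) (.cons (.leaf 1 [(3,1)]) (.cons (.leaf 1 []) (.cons (.leaf 1 [(8,1),(1,1)]) (.cons (.leaf 1 [(3,1)]) (.cons (.leaf 1 [(2,1)]) (.cons (.leaf 1 [(8,1),(1,1)]) (.cons (.leaf 1 []) .nil))))))))))) (.cons (.leaf 1 [(3,1),(9,1)]) (.cons (.leaf 1 [(2,1),(9,1)]) (.cons (.keep [1,7,9,10] (.node (.cons (.leaf 1 [(2,1)]) (.cons (.leaf 2 [(2,1),(9,1)]) (.cons (.leaf 1 [(3,1)]) (.cons (.leaf 1 []) (.cons (.leaf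 2 [(9,1)]) (.cons (.leaf 1 [(3,1)]) (.cons (.leaf 1 [(2,1)]) (.cons (.leaf 2 [(9,1),(2,1)]) (.cons (.leaf 1 []) .nil))))))))))) (.cons (.leaf 1 [(9,1)]) .nil))))))))))) .nil))))))))))) (.cons (.keep [3,4,5,7] (.node (.cons (.keep [2,5,6,8,10] (.node (.cons (.leaf 1 [(2,2),(10,2)]) (.cons (.leaf 1 [(9,1),(10,2),(2,1)]) (.cons (.leaf 1 [(3,1),(10,2),(2,1)]) (.cons (.leaf 1 [(8,1),(10,2)]) (.cons (.leaf 1 [(9,1),(10,2)]) (.cons (.leaf 1 [(8,1),(3,1),(10,2)]) (.cons (.leaf 1 [(8,1),(2,1),(10,2)]) (.cons (.leaf 1 [(2,1),(10,2),(9,1)]) (.cons (.leaf 1 [(8,1),(10,2)]) .nil))))))))))) (.cons (.keep [2,3,7,8] (.node (.cons (.leaf 1 [(10,2),(2,1)]) (.cons (.leaf 1 [(10,3),(8,1),(2,1)]) (.cons (.leaf 1 [(10,2),(3,1)]) (.cons (.leaf 1 [(10,2)]) (.cons (.leaf 1 [(8,1),(10,3)]) (.cons (.leaf 1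 [(3,1),(10,2)]) (.cons (.leaf 1 [(2,1),(10,2)]) (.cons (.leaf 1 [(2,1),(10,3),(8,1)]) (.cons (.leaf 1 [(10,2)]) .nil))))))))))) (.cons (.keep [3,5,8,9,10] (.node (.cons (.leaf 1 [(9,2),(2,1),(8,1)]) (.cons (.leaf 1 [(9,2),(2,1)]) (.cons (.leaf 1 [(9,2),(3,1),(8,1)]) (.cons (.leaf 1 [(9,2),(8,1)]) (.cons (.leaf 1 [(9,2)]) (.cons (.leaf 1 [(3,1),(8,1),(9,2)]) (.cons (.leaf 1 [(2,1),(8,1),(9,2)]) (.cons (.leaf 1 [(2,1),(9,2)]) (.cons (.leaf 1 [(9,2),(8,1)]) .nil))))))))))) (.cons (.keep [3,5,7,8,9] (.node (.cons (.leaf 1 [(2,1),(10,1)]) (.cons (.leaf 1 [(7,1),(10,1)]) (.cons (.leaf 1 [(3,1),(10,1)]) (.cons (.leaf 1 [(10,1)]) (.cons (.leaf 1 [(7,1),(1,1),(10,1)]) (.cons (.leaf 1 [(3,1),(10,1)]) (.cons (.leaf 1 [(10,1),(2,1)]) (.cons (.leaf 1 [(7,1),(1,1),(10,1)]) (.cons (.leaf 1 [(10,1)])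 .nil))))))))))) (.cons (.keep [1,3,4,7] (.node (.cons (.leaf 1 [(9,1),(7,1)]) (.cons (.leaf 1 [(9,2),(8,1),(7,1)]) (.cons (.leaf 1 [(9,2),(3,1),(7,1)]) (.cons (.leaf 1 [(1,2),(7,1)]) (.cons (.leaf 1 [(1,3),(8,1),(7,1)]) (.cons (.leaf 1 [(1,2),(3,1),(7,1)]) (.cons (.leaf 1 [(6,1),(7,1),(1,2)]) (.cons (.leaf 1 [(9,2),(8,1),(7,1),(1,1)]) (.cons (.leaf 1 [(9,2),(7,1)]) .nil))))))))))) (.cons (.keep [3,5,8,9,10] (.node (.cons (.leaf 1 [(8,1),(9,1)]) (.cons (.leaf 1 [(9,1)]) (.cons (.leaf 1 [(10,1),(3,1),(8,1),(9,1)]) (.cons (.leaf 1 [(1,1),(9,1),(8,1)]) (.cons (.leaf 1 [(1,1),(9,1)]) (.cons (.leaf 1 [(1,1),(3,1),(8,1),(9,1)]) (.cons (.leaf 1 [(8,1),(9,1),(1,1)]) (.cons (.leaf 1 [(9,1),(1,1)]) (.cons (.leaf 1 [(10,1),(9,1),(8,1)]) .nil))))))))))) (.cons (.keep [2,5,6,8,9,10] (.node (.cons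 (.leaf 1 [(10,1),(5,1),(2,2)]) (.cons (.leaf 1 [(9,2),(10,1)]) (.cons (.leaf 1 [(3,2),(10,1),(5,1)]) (.cons (.leaf 1 [(10,1),(5,1),(8,1)]) (.cons (.leaf 1 [(9,2),(10,1),(1,1)]) (.cons (.leaf 1 [(10,1),(3,2),(8,1),(5,1)]) (.cons (.leaf 1 [(8,1),(5,1),(2,1),(10,1)]) (.cons (.leaf 1 [(9,2),(10,1),(1,1)]) (.cons (.leaf 1 [(9,1),(10,1)]) .nil))))))))))) (.cons (.keep [1,2,6,7] (.node (.cons (.leaf 1 [(2,1),(7,1),(5,2)]) (.cons (.leaf 1 [(2,1),(7,1),(9,3)]) (.cons (.leaf 1 [(3,1),(7,1),(9,2)]) (.cons (.leaf 1 [(7,1),(5,2)]) (.cons (.leaf 1 [(7,1),(9,3)]) (.cons (.leaf 1 [(7,1),(3,3),(5,2)]) (.cons (.leaf 1 [(7,1),(5,2),(2,1)]) (.cons (.leaf 1 [(7,1),(9,3),(2,1)]) (.cons (.leaf 1 [(7,1),(9,2)]) .nil))))))))))) (.cons (.keep [0,5,8,9] (.node (.cons (.leaf 1 [(2,1),(9,1)]) (.cons (.keep [2,3,7,9,10]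 (.node (.cons (.leaf 2 [(2,2),(10,1)]) (.cons (.leaf 1 [(7,1),(10,1),(2,1)]) (.cons (.leaf 2 [(3,1),(10,1),(2,1)]) (.cons (.leaf 1 [(11,1)]) (.cons (.leaf 1 [(4,1),(8,1),(10,1)]) (.cons (.leaf 1 [(11,1),(3,1)]) (.cons (.leaf 1 [(11,1),(2,1)]) (.cons (.leaf 1 [(0,1),(10,2),(2,2),(8,1)]) (.cons (.leaf 1 [(11,1)]) .nil))))))))))) (.cons (.leaf 1 [(3,1),(9,1)]) (.cons (.leaf 1 [(9,1)]) (.cons (.keep [1,3,7,9] (.node (.cons (.leaf 1 [(2,1),(7,1)]) (.cons (.leaf 1 [(8,1),(7,1)]) (.cons (.leaf 1 [(3,1),(7,1)]) (.cons (.leaf 1 [(7,1)]) (.cons (.leaf 1 [(8,1),(1,1),(7,1)]) (.cons (.leaf 1 [(3,1),(7,1)]) (.cons (.leaf 1 [(2,1),(7,1)]) (.cons (.leaf 1 [(8,1),(7,1),(1,1)]) (.cons (.leaf 1 [(7,1)]) .nil))))))))))) (.cons (.leaf 1 [(3,1),(9,1)]) (.cons (.leaf 1 [(9,1),(2,1)]) (.cons (.keep [2,7,9,10]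 (.node (.cons (.leaf 1 [(2,1),(9,1),(7,1)]) (.cons (.leaf 1 [(4,1),(9,1)]) (.cons (.leaf 1 [(2,1),(9,1),(7,1)]) (.cons (.leaf 1 [(10,1)]) (.cons (.leaf 1 [(4,1),(9,1)]) (.cons (.leaf 1 [(3,1),(10,1)]) (.cons (.leaf 1 [(10,1),(2,1)]) (.cons (.leaf 1 [(4,1),(9,1)]) (.cons (.leaf 1 [(10,1)]) .nil))))))))))) (.cons (.leaf 1 [(9,1)]) .nil))))))))))) .nil))))))))))) (.cons (.leaf 1 []) (.cons (.leaf 1 [(4,1)]) (.cons (.leaf 1 [(4,1)]) (.cons (.leaf 1 [(6,1)]) (.cons (.leaf 1 [(6,1)]) (.cons (.leaf 1 []) .nil)))))))))))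

theorem e_22_28 : ESB (caseOf 4 22 28) := esb_of_pieces _ (hP_cons c_22_28_1 hP_nil) t_22_28 (by
  decide +kernel)

def t_22_29 : T := (.keep [0,1,2] (.node (.cons (.keep [0,2,5,6,7,10] (.node (.cons (.leaf 1 [(10,1)]) (.cons (.leaf 1 [(10,1),(4,1)]) (.cons (.leaf 1 [(10,1),(4,1)]) (.cons (.leaf 1 [(10,1),(4,1)]) (.cons (.leaf 1 [(5,1)]) (.cons (.leaf 1 []) (.cons (.leaf 1 [(5,1)]) (.cons (.leaf 1 [(5,1)]) (.cons (.leaf 1 [(7,1)]) (.cons (.leaf 1 [(7,1)]) (.cons (.leaf 1 [(7,1)]) (.cons (.leaf 1 []) .nil)))))))))))))) (.cons (.keep [4,6,7,8,9] (.node (.cons (.leaf 1 []) (.cons (.leaf 1 [(4,1)]) (.cons (.leaf 1 [(4,1)]) (.cons (.leaf 1 [(4,1)]) (.cons (.leaf 1 [(8,1),(5,1)]) (.cons (.leaf 1 [(8,1)]) (.cons (.leaf 1 [(8,1),(5,1)]) (.cons (.leaf 1 [(8,1),(5,1)]) (.cons (.leaf 1 [(8,1),(7,1)])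 (.cons (.leaf 1 [(8,1),(7,1)]) (.cons (.leaf 1 [(8,1),(7,1)]) (.cons (.leaf 1 [(8,1)]) .nil)))))))))))))) (.cons (.keep [4,5,7,8,10] (.node (.cons (.leaf 1 [(9,1)]) (.cons (.leaf 1 [(9,1),(4,1)]) (.cons (.leaf 1 [(9,1),(4,1)]) (.cons (.leaf 1 [(9,1),(4,1)]) (.cons (.leaf 1 []) (.cons (.leaf 1 [(4,1)]) (.cons (.leaf 1 [(4,1)]) (.cons (.leaf 1 [(4,1)]) (.cons (.leaf 1 [(8,1),(7,1)]) (.cons (.leaf 1 [(4,1),(7,1)]) (.cons (.leaf 1 [(8,1),(7,1)]) (.cons (.leaf 1 [(8,1)]) .nil)))))))))))))) (.cons (.keep [3,4,5,6,8] (.node (.cons (.leaf 1 [(10,1)]) (.cons (.leaf 1 [(4,1),(10,1)]) (.cons (.leaf 1 [(10,1),(4,1)]) (.cons (.leaf 1 [(10,1),(4,1)]) (.cons (.leaf 1 [(5,1),(9,1)]) (.cons (.leaf 1 [(9,1)]) (.cons (.leaf 1 [(5,1),(4,1)]) (.cons (.leaf 1 [(9,1),(5,1)]) (.cons (.leaf 1 [(9,1),(7,1)])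 (.cons (.leaf 1 [(7,1),(9,1)]) (.cons (.leaf 1 [(4,1),(7,1)]) (.cons (.leaf 1 [(9,1)]) .nil)))))))))))))) (.cons (.leaf 1 [(5,1)]) (.cons (.leaf 1 []) (.cons (.leaf 1 [(5,1)]) (.cons (.leaf 1 [(5,1)]) (.cons (.leaf 1 [(7,1)]) (.cons (.leaf 1 [(7,1)]) (.cons (.leaf 1 [(7,1)]) (.cons (.leaf 1 []) .nil))))))))))))))

theorem e_22_29 : ESB (caseOf 4 22 29) := esb_of_ok (t := t_22_29) (by decide +kernel)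

def t_22_30 : T := (.keep [0,1,2] (.node (.cons (.leaf 1 []) (.cons (.leaf 1 [(4,1)]) (.cons (.leaf 1 [(4,1)]) (.cons (.leaf 1 [(4,1)]) (.cons (.leaf 1 [(5,1)]) (.cons (.leaf 1 []) (.cons (.leaf 1 [(5,1)]) (.cons (.leaf 1 [(5,1)]) (.cons (.leaf 1 [(7,1)]) (.cons (.leaf 1 [(7,1)]) (.cons (.leaf 1 [(7,1)]) (.cons (.leaf 1 []) .nil))))))))))))))

theorem e_22_30 : ESB (caseOf 4 22 30) := esb_of_ok (t := t_22_30) (by decide +kernel)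

def t_22_31 : T := (.keep [0,1,2] (.node (.cons (.leaf 1 [(5,1)]) (.cons (.leaf 1 []) (.cons (.leaf 1 [(5,1)]) (.cons (.leaf 1 [(5,1)]) (.cons (.leaf 1 [(5,1)]) (.cons (.leaf 1 [(6,1)]) (.cons (.leaf 1 [(6,1)]) (.cons (.leaf 1 []) (.cons (.leaf 1 [(6,1)]) (.cons (.leaf 1 [(6,1)]) (.cons (.leaf 1 [(8,1)]) (.cons (.leaf 1 [(8,1)]) (.cons (.leaf 1 [(8,1)]) (.cons (.leaf 1 [(8,1)]) (.cons (.leaf 1 []) .nil)))))))))))))))))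

theorem e_22_31 : ESB (caseOf 4 22 31) := esb_of_ok (t := t_22_31) (by decide +kernel)

def z_23_17_0 : F := ⟨0, 1, 0, -1, 1⟩

def h_23_17_0 : List F := [⟨0, 1, 0, -1, 0⟩, ⟨0, 0, 0, 1, 0⟩, ⟨-1, 1, 0, -1, 1⟩, ⟨0, 0, 0, -1, 1⟩,
  ⟨0, 1, -1, -1, 1⟩]

def t_23_17_0 : T := (.node (.cons (.leaf 1 [(2,1),(8,1)]) (.cons (.leaf 1 [(2,1),(8,1)]) (.cons (.keep [6,7,8,9,11] (.node (.cons (.leaf 1 [(9,1)]) (.cons (.leaf 1 [(9,1),(5,1)]) (.cons (.keep [3,6,7,9,10] (.node (.cons (.leaf 1 [(10,1)]) (.cons (.leaf 1 [(10,1),(5,1)]) (.cons (.leaf 1 []) (.cons (.leaf 1 [(5,1)]) (.cons (.leaf 1 [(10,1),(9,1)]) (.cons (.leaf 1 [(10,1),(9,1),(5,1)]) (.cons (.leaf 1 [(10,1),(6,1)]) (.cons (.leaf 1 [(10,1)]) .nil)))))))))) (.cons (.keep [5,7,8,9,11] (.node (.cons (.leaf 1 [(10,1),(7,1)]) (.cons (.leaf 1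 [(10,1),(7,1),(5,1)]) (.cons (.leaf 1 [(7,1)]) (.cons (.leaf 1 [(7,1),(5,1)]) (.cons (.leaf 1 [(10,1),(8,1),(7,1)]) (.cons (.leaf 1 [(10,1),(8,1),(7,1),(5,1)]) (.cons (.leaf 1 [(10,1),(7,1),(6,1)]) (.cons (.leaf 1 [(10,1),(7,1)]) .nil)))))))))) (.cons (.leaf 1 []) (.cons (.leaf 1 [(5,1)]) (.cons (.leaf 1 [(9,1),(6,1)]) (.cons (.leaf 1 [(9,1)]) .nil)))))))))) (.cons (.keep [4,8,9,10,11] (.node (.cons (.leaf 1 [(8,1)]) (.cons (.leaf 1 [(8,1),(5,1)]) (.cons (.keep [6,7,8,9,10] (.node (.cons (.leaf 1 [(9,1)]) (.cons (.leaf 1 [(9,1),(5,1)]) (.cons (.leaf 1 []) (.cons (.leaf 1 [(5,1)]) (.cons (.keep [2,6,7,9,11] (.node (.cons (.leaf 1 [(2,1)]) (.cons (.leaf 1 [(2,1),(4,1)]) (.cons (.leaf 1 []) (.cons (.keep [4,5,8,9,11] (.node (.cons (.leaf 1 [(7,1)]) (.cons (.leaf 1 [(7,1),(5,1)]) (.cons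 (.leaf 1 [(7,1),(10,1)]) (.cons (.leaf 1 [(7,1),(10,1),(5,1)]) (.cons (.leaf 1 [(7,1),(9,1)]) (.cons (.leaf 1 [(7,1),(9,1),(5,1)]) (.cons (.leaf 1 [(6,1),(7,1)]) (.cons (.leaf 1 [(7,1)]) .nil)))))))))) (.cons (.leaf 1 [(2,1)]) (.cons (.leaf 1 [(9,1),(2,1),(4,1)]) (.cons (.leaf 1 [(2,1)]) (.cons (.keep [0,2,7,8,9] (.node (.cons (.leaf 1 []) (.cons (.leaf 1 [(5,1)]) (.cons (.leaf 1 [(11,1)]) (.cons (.leaf 1 [(11,1),(5,1)]) (.cons (.leaf 1 [(10,1)]) (.cons (.leaf 1 [(10,1),(5,1)]) (.cons (.leaf 1 [(6,1)]) (.cons (.leaf 1 []) .nil)))))))))) .nil)))))))))) (.cons (.keep [4,5,7,8,9,11] (.node (.cons (.leaf 1 [(2,1),(8,1)]) (.cons (.leaf 1 [(2,1),(8,1),(4,1)]) (.cons (.leaf 1 [(8,1)]) (.cons (.keep [0,4,7,8,9,12] (.node (.cons (.leaf 1 [(10,1),(8,1)]) (.cons (.leaf 1 [(10,1),(8,1),(5,1)])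 (.cons (.leaf 1 [(8,1),(10,1),(11,1)]) (.cons (.leaf 1 [(8,1),(10,1),(11,1),(5,1)]) (.cons (.leaf 1 [(8,1)]) (.cons (.leaf 1 [(8,1),(5,1)]) (.cons (.leaf 1 [(10,1),(6,1),(8,1)]) (.cons (.leaf 1 [(10,1),(8,1)]) .nil)))))))))) (.cons (.leaf 1 [(2,1),(8,1)]) (.cons (.leaf 1 [(9,1),(2,1),(8,1),(4,1)]) (.cons (.leaf 1 [(8,1),(2,1)]) (.cons (.keep [0,2,7,8,9] (.node (.cons (.leaf 1 [(10,1)]) (.cons (.leaf 1 [(10,1),(5,1)]) (.cons (.leaf 1 [(11,1),(10,1)]) (.cons (.leaf 1 [(11,1),(10,1),(5,1)]) (.cons (.leaf 1 []) (.cons (.leaf 1 [(5,1)]) (.cons (.leaf 1 [(10,1),(6,1)]) (.cons (.leaf 1 [(10,1)]) .nil)))))))))) .nil)))))))))) (.cons (.leaf 1 [(9,1),(6,1)]) (.cons (.leaf 1 [(9,1)]) .nil)))))))))) (.cons (.keep [5,7,8,9,11] (.node (.cons (.leaf 1 [(9,1),(7,1)]) (.cons (.leaf 1 [(9,1),(7,1),(5,1)])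 (.cons (.leaf 1 [(7,1)]) (.cons (.leaf 1 [(7,1),(5,1)]) (.cons (.keep [2,6,7,9,11] (.node (.cons (.leaf 1 [(2,1),(9,1)]) (.cons (.leaf 1 [(2,1),(9,1),(4,1)]) (.cons (.leaf 1 [(9,1)]) (.cons (.keep [4,5,8,9,11] (.node (.cons (.leaf 1 [(10,1),(7,1)]) (.cons (.leaf 1 [(10,1),(7,1),(5,1)]) (.cons (.leaf 1 [(7,1)]) (.cons (.leaf 1 [(7,1),(5,1)]) (.cons (.leaf 1 [(10,1),(7,1),(9,1)]) (.cons (.leaf 1 [(10,1),(7,1),(9,1),(5,1)]) (.cons (.leaf 1 [(10,1),(6,1),(7,1)]) (.cons (.leaf 1 [(10,1),(7,1)]) .nil)))))))))) (.cons (.leaf 1 [(2,1),(1,1)]) (.cons (.leaf 1 [(2,1),(4,1)]) (.cons (.leaf 1 [(9,1),(2,1)]) (.cons (.keep [0,2,7,8,9] (.node (.cons (.leaf 1 [(11,1)]) (.cons (.leaf 1 [(11,1),(5,1)]) (.cons (.leaf 1 []) (.cons (.leaf 1 [(5,1)]) (.cons (.leaf 1 [(11,1),(10,1)]) (.cons (.leaf 1 [(11,1),(10,1),(5,1)])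 (.cons (.leaf 1 [(11,1),(6,1)]) (.cons (.leaf 1 [(11,1)]) .nil)))))))))) .nil)))))))))) (.cons (.keep [4,5,7,8,9,11] (.node (.cons (.leaf 1 [(2,1),(9,1),(8,1)]) (.cons (.leaf 1 [(2,1),(9,1),(8,1),(4,1)]) (.cons (.leaf 1 [(9,1),(8,1)]) (.cons (.keep [0,4,7,8,9,12] (.node (.cons (.leaf 1 [(11,1),(10,1),(8,1)]) (.cons (.leaf 1 [(11,1),(10,1),(8,1),(5,1)]) (.cons (.leaf 1 [(8,1),(10,1)]) (.cons (.leaf 1 [(8,1),(10,1),(5,1)]) (.cons (.leaf 1 [(11,1),(8,1)]) (.cons (.leaf 1 [(11,1),(8,1),(5,1)]) (.cons (.leaf 1 [(11,1),(10,1),(6,1),(8,1)]) (.cons (.leaf 1 [(11,1),(10,1),(8,1)]) .nil)))))))))) (.cons (.leaf 1 [(2,1),(1,1),(8,1)]) (.cons (.leaf 1 [(2,1),(4,1),(8,1)]) (.cons (.leaf 1 [(9,1),(8,1),(2,1)]) (.cons (.keep [0,2,7,8,9] (.node (.cons (.leaf 1 [(11,1),(10,1)]) (.cons (.leaf 1 [(11,1),(10,1),(5,1)])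 (.cons (.leaf 1 [(10,1)]) (.cons (.leaf 1 [(10,1),(5,1)]) (.cons (.leaf 1 [(11,1)]) (.cons (.leaf 1 [(11,1),(5,1)]) (.cons (.leaf 1 [(11,1),(10,1),(6,1)]) (.cons (.leaf 1 [(11,1),(10,1)]) .nil)))))))))) .nil)))))))))) (.cons (.leaf 1 [(9,1),(7,1),(6,1)]) (.cons (.leaf 1 [(9,1),(7,1)]) .nil)))))))))) (.cons (.leaf 1 []) (.cons (.leaf 1 [(5,1)]) (.cons (.leaf 1 [(8,1),(6,1)]) (.cons (.leaf 1 [(8,1)]) .nil)))))))))) (.cons (.keep [2,6,7,8,9] (.node (.cons (.leaf 1 [(10,1)]) (.cons (.leaf 1 [(10,1),(5,1)]) (.cons (.keep [3,6,8,10,11] (.node (.cons (.leaf 1 [(10,1)]) (.cons (.leaf 1 [(10,1),(5,1)]) (.cons (.leaf 1 []) (.cons (.leaf 1 [(5,1)]) (.cons (.leaf 1 [(10,1),(9,1)]) (.cons (.leaf 1 [(10,1),(9,1),(5,1)]) (.cons (.leaf 1 [(10,1),(6,1)]) (.cons (.leaf 1 [(10,1)]) .nil)))))))))) (.cons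 (.keep [5,8,9,10,11] (.node (.cons (.leaf 1 [(10,1),(7,1)]) (.cons (.leaf 1 [(10,1),(7,1),(5,1)]) (.cons (.leaf 1 [(7,1)]) (.cons (.leaf 1 [(7,1),(5,1)]) (.cons (.leaf 1 [(10,1),(8,1),(7,1)]) (.cons (.leaf 1 [(10,1),(8,1),(7,1),(5,1)]) (.cons (.leaf 1 [(10,1),(7,1),(6,1)]) (.cons (.leaf 1 [(10,1),(7,1)]) .nil)))))))))) (.cons (.leaf 1 []) (.cons (.leaf 1 [(5,1)]) (.cons (.leaf 1 [(10,1),(6,1)]) (.cons (.leaf 1 [(10,1)]) .nil)))))))))) (.cons (.keep [2,4,8,9,11] (.node (.cons (.leaf 1 [(9,1)]) (.cons (.leaf 1 [(9,1),(5,1)]) (.cons (.keep [6,8,9,10,11] (.node (.cons (.leaf 1 [(9,1)]) (.cons (.leaf 1 [(9,1),(5,1)]) (.cons (.leaf 1 []) (.cons (.leaf 1 [(5,1)]) (.cons (.keep [2,6,7,9,11] (.node (.cons (.leaf 1 [(2,1)]) (.cons (.leaf 1 [(2,1),(4,1)]) (.cons (.leaf 1 []) (.cons (.keep [4,5,8,9,11]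 (.node (.cons (.leaf 1 [(7,1)]) (.cons (.leaf 1 [(7,1),(5,1)]) (.cons (.leaf 1 [(7,1),(10,1)]) (.cons (.leaf 1 [(7,1),(10,1),(5,1)]) (.cons (.leaf 1 [(7,1),(9,1)]) (.cons (.leaf 1 [(7,1),(9,1),(5,1)]) (.cons (.leaf 1 [(6,1),(7,1)]) (.cons (.leaf 1 [(7,1)]) .nil)))))))))) (.cons (.leaf 1 [(2,1)]) (.cons (.leaf 1 [(9,1),(2,1),(4,1)]) (.cons (.leaf 1 [(2,1)]) (.cons (.keep [0,2,7,8,9] (.node (.cons (.leaf 1 []) (.cons (.leaf 1 [(5,1)]) (.cons (.leaf 1 [(11,1)]) (.cons (.leaf 1 [(11,1),(5,1)]) (.cons (.leaf 1 [(10,1)]) (.cons (.leaf 1 [(10,1),(5,1)]) (.cons (.leaf 1 [(6,1)]) (.cons (.leaf 1 []) .nil)))))))))) .nil)))))))))) (.cons (.keep [4,5,7,8,9,11] (.node (.cons (.leaf 1 [(2,1),(8,1)]) (.cons (.leaf 1 [(2,1),(8,1),(4,1)]) (.cons (.leaf 1 [(8,1)]) (.cons (.keep [0,4,7,8,9,12] (.node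 (.cons (.leaf 1 [(10,1),(8,1)]) (.cons (.leaf 1 [(10,1),(8,1),(5,1)]) (.cons (.leaf 1 [(8,1),(10,1),(11,1)]) (.cons (.leaf 1 [(8,1),(10,1),(11,1),(5,1)]) (.cons (.leaf 1 [(8,1)]) (.cons (.leaf 1 [(8,1),(5,1)]) (.cons (.leaf 1 [(10,1),(6,1),(8,1)]) (.cons (.leaf 1 [(10,1),(8,1)]) .nil)))))))))) (.cons (.leaf 1 [(2,1),(8,1)]) (.cons (.leaf 1 [(9,1),(2,1),(8,1),(4,1)]) (.cons (.leaf 1 [(8,1),(2,1)]) (.cons (.keep [0,2,7,8,9] (.node (.cons (.leaf 1 [(10,1)]) (.cons (.leaf 1 [(10,1),(5,1)]) (.cons (.leaf 1 [(11,1),(10,1)]) (.cons (.leaf 1 [(11,1),(10,1),(5,1)]) (.cons (.leaf 1 []) (.cons (.leaf 1 [(5,1)]) (.cons (.leaf 1 [(10,1),(6,1)]) (.cons (.leaf 1 [(10,1)]) .nil)))))))))) .nil)))))))))) (.cons (.leaf 1 [(9,1),(6,1)]) (.cons (.leaf 1 [(9,1)]) .nil)))))))))) (.cons (.keep [5,8,9,10,11]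 (.node (.cons (.leaf 1 [(9,1),(7,1)]) (.cons (.leaf 1 [(9,1),(7,1),(5,1)]) (.cons (.leaf 1 [(7,1)]) (.cons (.leaf 1 [(7,1),(5,1)]) (.cons (.keep [6,7,9,10,11] (.node (.cons (.leaf 1 [(2,1),(8,1)]) (.cons (.leaf 1 [(2,1),(8,1),(4,1)]) (.cons (.leaf 1 [(8,1)]) (.cons (.keep [4,7,8,10,11] (.node (.cons (.leaf 1 [(9,1),(7,1)]) (.cons (.leaf 1 [(9,1),(7,1),(5,1)]) (.cons (.leaf 1 [(7,1)]) (.cons (.leaf 1 [(7,1),(5,1)]) (.cons (.leaf 1 [(9,1),(7,1),(8,1)]) (.cons (.leaf 1 [(9,1),(7,1),(8,1),(5,1)]) (.cons (.leaf 1 [(9,1),(6,1),(7,1)]) (.cons (.leaf 1 [(9,1),(7,1)]) .nil)))))))))) (.cons (.leaf 1 [(2,1),(1,1)]) (.cons (.leaf 1 [(2,1),(4,1)]) (.cons (.leaf 1 [(8,1),(2,1)]) (.cons (.keep [0,2,7,8,10] (.node (.cons (.leaf 1 [(10,1)]) (.cons (.leaf 1 [(10,1),(5,1)]) (.cons (.leaf 1 []) (.cons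 (.leaf 1 [(5,1)]) (.cons (.leaf 1 [(10,1),(9,1)]) (.cons (.leaf 1 [(10,1),(9,1),(5,1)]) (.cons (.leaf 1 [(10,1),(6,1)]) (.cons (.leaf 1 [(10,1)]) .nil)))))))))) .nil)))))))))) (.cons (.keep [5,7,8,9,10,11] (.node (.cons (.leaf 1 [(2,1),(8,1),(7,1)]) (.cons (.leaf 1 [(2,1),(8,1),(7,1),(4,1)]) (.cons (.leaf 1 [(8,1),(7,1)]) (.cons (.keep [4,7,8,9,11,12] (.node (.cons (.leaf 1 [(9,1),(8,1),(7,1)]) (.cons (.leaf 1 [(9,1),(8,1),(7,1),(5,1)]) (.cons (.leaf 1 [(7,1),(8,1)]) (.cons (.leaf 1 [(7,1),(8,1),(5,1)]) (.cons (.leaf 1 [(9,1),(7,1)]) (.cons (.leaf 1 [(9,1),(7,1),(5,1)]) (.cons (.leaf 1 [(9,1),(8,1),(6,1),(7,1)]) (.cons (.leaf 1 [(9,1),(8,1),(7,1)]) .nil)))))))))) (.cons (.leaf 1 [(2,1),(1,1),(7,1)]) (.cons (.leaf 1 [(2,1),(4,1),(7,1)]) (.cons (.leaf 1 [(8,1),(7,1),(2,1)]) (.cons (.keep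 [0,2,7,8,11] (.node (.cons (.leaf 1 [(10,1),(9,1)]) (.cons (.leaf 1 [(10,1),(9,1),(5,1)]) (.cons (.leaf 1 [(9,1)]) (.cons (.leaf 1 [(9,1),(5,1)]) (.cons (.leaf 1 [(10,1)]) (.cons (.leaf 1 [(10,1),(5,1)]) (.cons (.leaf 1 [(10,1),(9,1),(6,1)]) (.cons (.leaf 1 [(10,1),(9,1)]) .nil)))))))))) .nil)))))))))) (.cons (.leaf 1 [(9,1),(7,1),(6,1)]) (.cons (.leaf 1 [(9,1),(7,1)]) .nil)))))))))) (.cons (.leaf 1 []) (.cons (.leaf 1 [(5,1)]) (.cons (.leaf 1 [(9,1),(6,1)]) (.cons (.leaf 1 [(9,1)]) .nil)))))))))) (.cons (.leaf 1 [(6,1),(8,1),(2,1)]) (.cons (.keep [0,2,7,8,11] (.node (.cons (.leaf 1 [(10,1)]) (.cons (.leaf 1 [(10,1),(5,1)]) (.cons (.keep [3,6,7,8,10] (.node (.cons (.leaf 1 [(11,1)]) (.cons (.leaf 1 [(11,1),(5,1)]) (.cons (.leaf 1 []) (.cons (.leaf 1 [(5,1)]) (.cons (.keep [2,6,8,9,11]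 (.node (.cons (.leaf 1 [(2,1)]) (.cons (.leaf 1 [(2,1),(4,1)]) (.cons (.leaf 1 []) (.cons (.keep [4,5,8,9,10] (.node (.cons (.leaf 1 [(7,1)]) (.cons (.leaf 1 [(7,1),(5,1)]) (.cons (.leaf 1 [(7,1),(10,1)]) (.cons (.leaf 1 [(7,1),(10,1),(5,1)]) (.cons (.leaf 1 [(7,1),(9,1)]) (.cons (.leaf 1 [(7,1),(9,1),(5,1)]) (.cons (.leaf 1 [(6,1),(7,1)]) (.cons (.leaf 1 [(7,1)]) .nil)))))))))) (.cons (.leaf 1 [(2,1)]) (.cons (.leaf 1 [(9,1),(2,1),(4,1)]) (.cons (.leaf 1 [(2,1)]) (.cons (.keep [0,2,7,8,9] (.node (.cons (.leaf 1 []) (.cons (.leaf 1 [(5,1)]) (.cons (.leaf 1 [(11,1)]) (.cons (.leaf 1 [(11,1),(5,1)]) (.cons (.leaf 1 [(10,1)]) (.cons (.leaf 1 [(10,1),(5,1)]) (.cons (.leaf 1 [(6,1)]) (.cons (.leaf 1 []) .nil)))))))))) .nil)))))))))) (.cons (.keep [5,7,8,9,11] (.node (.cons (.leaf 1 [(2,1),(7,1)])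 (.cons (.leaf 1 [(2,1),(7,1),(4,1)]) (.cons (.leaf 1 [(7,1)]) (.cons (.keep [4,7,8,9,10] (.node (.cons (.leaf 1 [(8,1),(7,1)]) (.cons (.leaf 1 [(8,1),(7,1),(5,1)]) (.cons (.leaf 1 [(7,1),(8,1),(10,1)]) (.cons (.leaf 1 [(7,1),(8,1),(10,1),(5,1)]) (.cons (.leaf 1 [(7,1)]) (.cons (.leaf 1 [(7,1),(5,1)]) (.cons (.leaf 1 [(8,1),(6,1),(7,1)]) (.cons (.leaf 1 [(8,1),(7,1)]) .nil)))))))))) (.cons (.leaf 1 [(2,1),(7,1)]) (.cons (.leaf 1 [(9,1),(2,1),(7,1),(4,1)]) (.cons (.leaf 1 [(7,1),(2,1)]) (.cons (.keep [0,2,7,8,9] (.node (.cons (.leaf 1 [(9,1)]) (.cons (.leaf 1 [(9,1),(5,1)]) (.cons (.leaf 1 [(11,1),(9,1)]) (.cons (.leaf 1 [(11,1),(9,1),(5,1)]) (.cons (.leaf 1 []) (.cons (.leaf 1 [(5,1)]) (.cons (.leaf 1 [(9,1),(6,1)]) (.cons (.leaf 1 [(9,1)]) .nil)))))))))) .nil)))))))))) (.cons (.leaf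 1 [(11,1),(6,1)]) (.cons (.leaf 1 [(11,1)]) .nil)))))))))) (.cons (.keep [5,7,8,9,10,11] (.node (.cons (.leaf 1 [(11,1),(7,1)]) (.cons (.leaf 1 [(11,1),(7,1),(5,1)]) (.cons (.leaf 1 [(7,1)]) (.cons (.leaf 1 [(7,1),(5,1)]) (.cons (.keep [6,7,8,10,11] (.node (.cons (.leaf 1 [(2,1),(8,1)]) (.cons (.leaf 1 [(2,1),(8,1),(4,1)]) (.cons (.leaf 1 [(8,1)]) (.cons (.keep [4,7,8,9,10] (.node (.cons (.leaf 1 [(9,1),(7,1)]) (.cons (.leaf 1 [(9,1),(7,1),(5,1)]) (.cons (.leaf 1 [(7,1)]) (.cons (.leaf 1 [(7,1),(5,1)]) (.cons (.leaf 1 [(9,1),(7,1),(8,1)]) (.cons (.leaf 1 [(9,1),(7,1),(8,1),(5,1)]) (.cons (.leaf 1 [(9,1),(6,1),(7,1)]) (.cons (.leaf 1 [(9,1),(7,1)]) .nil)))))))))) (.cons (.leaf 1 [(2,1),(1,1)]) (.cons (.leaf 1 [(2,1),(4,1)]) (.cons (.leaf 1 [(8,1),(2,1)]) (.cons (.keep [0,2,7,8,10]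 (.node (.cons (.leaf 1 [(10,1)]) (.cons (.leaf 1 [(10,1),(5,1)]) (.cons (.leaf 1 []) (.cons (.leaf 1 [(5,1)]) (.cons (.leaf 1 [(10,1),(9,1)]) (.cons (.leaf 1 [(10,1),(9,1),(5,1)]) (.cons (.leaf 1 [(10,1),(6,1)]) (.cons (.leaf 1 [(10,1)]) .nil)))))))))) .nil)))))))))) (.cons (.keep [7,8,9,10,11,12] (.node (.cons (.leaf 1 [(2,1),(9,1)]) (.cons (.leaf 1 [(2,1),(9,1),(4,1)]) (.cons (.leaf 1 [(9,1)]) (.cons (.keep [4,7,8,9,10,12] (.node (.cons (.leaf 1 [(10,1),(7,1)]) (.cons (.leaf 1 [(10,1),(7,1),(5,1)]) (.cons (.leaf 1 [(7,2),(10,1),(12,1)]) (.cons (.leaf 1 [(7,2),(10,1),(12,1),(5,1)]) (.cons (.leaf 1 [(8,1),(7,1)]) (.cons (.leaf 1 [(8,1),(7,1),(5,1)]) (.cons (.leaf 1 [(10,1),(6,1),(7,1)]) (.cons (.leaf 1 [(10,1),(7,1)]) .nil)))))))))) (.cons (.leaf 1 [(2,1),(9,1)]) (.cons (.leaf 1 [(2,1),(4,2),(9,1),(12,1)])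 (.cons (.leaf 1 [(9,1),(2,1)]) (.cons (.keep [0,2,7,9,10,12] (.node (.cons (.leaf 1 [(10,1)]) (.cons (.leaf 1 [(10,1),(5,1)]) (.cons (.leaf 1 [(10,1),(12,1)]) (.cons (.leaf 1 [(10,1),(12,1),(5,1)]) (.cons (.leaf 1 [(9,1)]) (.cons (.leaf 1 [(9,1),(5,1)]) (.cons (.leaf 1 [(10,1),(6,1)]) (.cons (.leaf 1 [(10,1)]) .nil)))))))))) .nil)))))))))) (.cons (.leaf 1 [(11,1),(7,1),(6,1)]) (.cons (.leaf 1 [(11,1),(7,1)]) .nil)))))))))) (.cons (.leaf 1 []) (.cons (.leaf 1 [(5,1)]) (.cons (.leaf 1 [(10,1),(6,1)]) (.cons (.leaf 1 [(10,1)]) .nil)))))))))) .nil)))))))))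

theorem c_23_17_0 : Concl 23 17 z_23_17_0 h_23_17_0 .nd := piece _ hP_nil t_23_17_0 _ _ (by
  decide +kernel)

def z_23_17_1 : F := ⟨0, 1, 0, 0, 1⟩

def h_23_17_1 : List F := [⟨0, 1, 0, 0, 0⟩, ⟨-1, 1, 0, 0, 0⟩, ⟨0, 0, 0, -1, 0⟩, ⟨0, 1, -1, 0, 1⟩]

def t_23_17_1 : T := (.node (.cons (.leaf 1 [(2,1)]) (.cons (.leaf 1 [(2,1)]) (.cons (.keep [1,3,6,9] (.node (.cons (.leaf 1 []) (.cons (.leaf 1 [(5,1)]) (.cons (.keep [1,6,9,10] (.node (.cons (.leaf 1 []) (.cons (.leaf 1 [(5,1)]) (.cons (.leaf 1 [(10,1)]) (.cons (.leaf 1 [(10,1),(5,1)]) (.cons (.leaf 1 [(9,1)]) (.cons (.leaf 1 [(9,1),(5,1)]) (.cons (.leaf 1 [(6,1)]) (.cons (.leaf 1 []) .nil)))))))))) (.cons (.keep [4,5,8,9,10] (.node (.cons (.leaf 1 [(8,1)]) (.cons (.leaf 1 [(8,1),(5,1)]) (.cons (.leaf 1 [(11,1),(8,1)]) (.cons (.leaf 1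 [(11,1),(8,1),(5,1)]) (.cons (.leaf 1 [(10,1),(8,1)]) (.cons (.leaf 1 [(10,1),(8,1),(5,1)]) (.cons (.leaf 1 [(8,1),(6,1)]) (.cons (.leaf 1 [(8,1)]) .nil)))))))))) (.cons (.leaf 1 [(10,1)]) (.cons (.leaf 1 [(10,1),(5,1)]) (.cons (.leaf 1 [(6,1)]) (.cons (.leaf 1 []) .nil)))))))))) (.cons (.keep [0,3,5,9] (.node (.cons (.leaf 1 []) (.cons (.leaf 1 [(5,1)]) (.cons (.keep [6,7,9,10] (.node (.cons (.leaf 1 []) (.cons (.leaf 1 [(5,1)]) (.cons (.leaf 1 [(10,1)]) (.cons (.leaf 1 [(10,1),(5,1)]) (.cons (.keep [1,6,7,10] (.node (.cons (.leaf 1 [(2,1)]) (.cons (.leaf 1 [(2,1)]) (.cons (.leaf 1 [(10,1)]) (.cons (.keep [0,5,8,9,10] (.node (.cons (.leaf 1 []) (.cons (.leaf 1 [(5,1)]) (.cons (.leaf 1 [(10,1)]) (.cons (.leaf 1 [(10,1),(5,1)]) (.cons (.leaf 1 [(9,1)]) (.cons (.leaf 1 [(9,1),(5,1)])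 (.cons (.leaf 1 [(6,1)]) (.cons (.leaf 1 []) .nil)))))))))) (.cons (.leaf 1 [(9,1),(2,1)]) (.cons (.leaf 1 [(9,1),(2,1)]) (.cons (.leaf 1 [(6,1),(2,1)]) (.cons (.keep [0,2,7,8,9] (.node (.cons (.leaf 1 []) (.cons (.leaf 1 [(5,1)]) (.cons (.leaf 1 [(11,1)]) (.cons (.leaf 1 [(11,1),(5,1)]) (.cons (.leaf 1 [(10,1)]) (.cons (.leaf 1 [(10,1),(5,1)]) (.cons (.leaf 1 [(6,1)]) (.cons (.leaf 1 []) .nil)))))))))) .nil)))))))))) (.cons (.keep [4,5,7,8,10] (.node (.cons (.leaf 1 [(2,1),(8,1)]) (.cons (.leaf 1 [(2,1),(8,1)]) (.cons (.leaf 1 [(11,1),(8,1)]) (.cons (.keep [4,7,8,9,10,11] (.node (.cons (.leaf 1 [(9,1)]) (.cons (.leaf 1 [(9,1),(5,1)]) (.cons (.leaf 1 [(10,1),(9,1)]) (.cons (.leaf 1 [(10,1),(9,1),(5,1)]) (.cons (.leaf 1 []) (.cons (.leaf 1 [(5,1)]) (.cons (.leaf 1 [(9,1),(6,1)]) (.cons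 (.leaf 1 [(9,1)]) .nil)))))))))) (.cons (.leaf 1 [(9,1),(2,1),(8,1)]) (.cons (.leaf 1 [(9,1),(2,1),(8,1)]) (.cons (.leaf 1 [(6,1),(8,1),(2,1)]) (.cons (.keep [0,2,7,8,9] (.node (.cons (.leaf 1 [(10,1)]) (.cons (.leaf 1 [(10,1),(5,1)]) (.cons (.leaf 1 [(11,1),(10,1)]) (.cons (.leaf 1 [(11,1),(10,1),(5,1)]) (.cons (.leaf 1 []) (.cons (.leaf 1 [(5,1)]) (.cons (.leaf 1 [(10,1),(6,1)]) (.cons (.leaf 1 [(10,1)]) .nil)))))))))) .nil)))))))))) (.cons (.leaf 1 [(6,1)]) (.cons (.leaf 1 []) .nil)))))))))) (.cons (.keep [5,7,8,9,10] (.node (.cons (.leaf 1 [(7,1)]) (.cons (.leaf 1 [(7,1),(5,1)]) (.cons (.leaf 1 [(11,1),(7,1)]) (.cons (.leaf 1 [(11,1),(7,1),(5,1)]) (.cons (.keep [1,6,7,8,11] (.node (.cons (.leaf 1 [(2,1),(9,1)]) (.cons (.leaf 1 [(2,1),(9,1)]) (.cons (.leaf 1 [(11,1),(9,1)]) (.cons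 (.keep [4,5,8,9,10,11] (.node (.cons (.leaf 1 [(10,1)]) (.cons (.leaf 1 [(10,1),(5,1)]) (.cons (.leaf 1 []) (.cons (.leaf 1 [(5,1)]) (.cons (.leaf 1 [(10,1),(9,1)]) (.cons (.leaf 1 [(10,1),(9,1),(5,1)]) (.cons (.leaf 1 [(10,1),(6,1)]) (.cons (.leaf 1 [(10,1)]) .nil)))))))))) (.cons (.leaf 1 [(2,1)]) (.cons (.leaf 1 [(2,1)]) (.cons (.leaf 1 [(6,1),(9,1),(2,1)]) (.cons (.keep [0,2,7,8,9] (.node (.cons (.leaf 1 [(11,1)]) (.cons (.leaf 1 [(11,1),(5,1)]) (.cons (.leaf 1 []) (.cons (.leaf 1 [(5,1)]) (.cons (.leaf 1 [(11,1),(10,1)]) (.cons (.leaf 1 [(11,1),(10,1),(5,1)]) (.cons (.leaf 1 [(11,1),(6,1)]) (.cons (.leaf 1 [(11,1)]) .nil)))))))))) .nil)))))))))) (.cons (.keep [4,5,7,8,11] (.node (.cons (.leaf 1 [(2,1),(9,1),(8,1)]) (.cons (.leaf 1 [(2,1),(9,1),(8,1)]) (.cons (.leaf 1 [(11,1),(9,1),(8,1)])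 (.cons (.keep [4,7,8,9,10,11] (.node (.cons (.leaf 1 [(10,1),(9,1)]) (.cons (.leaf 1 [(10,1),(9,1),(5,1)]) (.cons (.leaf 1 [(9,1)]) (.cons (.leaf 1 [(9,1),(5,1)]) (.cons (.leaf 1 [(10,1)]) (.cons (.leaf 1 [(10,1),(5,1)]) (.cons (.leaf 1 [(10,1),(9,1),(6,1)]) (.cons (.leaf 1 [(10,1),(9,1)]) .nil)))))))))) (.cons (.leaf 1 [(2,1),(8,1)]) (.cons (.leaf 1 [(2,1),(8,1)]) (.cons (.leaf 1 [(6,1),(9,1),(8,1),(2,1)]) (.cons (.keep [0,2,7,8,9] (.node (.cons (.leaf 1 [(11,1),(10,1)]) (.cons (.leaf 1 [(11,1),(10,1),(5,1)]) (.cons (.leaf 1 [(10,1)]) (.cons (.leaf 1 [(10,1),(5,1)]) (.cons (.leaf 1 [(11,1)]) (.cons (.leaf 1 [(11,1),(5,1)]) (.cons (.leaf 1 [(11,1),(10,1),(6,1)]) (.cons (.leaf 1 [(11,1),(10,1)]) .nil)))))))))) .nil)))))))))) (.cons (.leaf 1 [(7,1),(6,1)]) (.cons (.leaf 1 [(7,1)]) .nil))))))))))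 (.cons (.leaf 1 [(10,1)]) (.cons (.leaf 1 [(10,1),(5,1)]) (.cons (.leaf 1 [(6,1)]) (.cons (.leaf 1 []) .nil)))))))))) (.cons (.keep [2,6,7,8,9] (.node (.cons (.leaf 1 []) (.cons (.leaf 1 [(5,1)]) (.cons (.keep [1,6,8,11] (.node (.cons (.leaf 1 []) (.cons (.leaf 1 [(5,1)]) (.cons (.leaf 1 [(10,1)]) (.cons (.leaf 1 [(10,1),(5,1)]) (.cons (.leaf 1 [(9,1)]) (.cons (.leaf 1 [(9,1),(5,1)]) (.cons (.leaf 1 [(6,1)]) (.cons (.leaf 1 []) .nil)))))))))) (.cons (.keep [4,5,8,10,11] (.node (.cons (.leaf 1 [(8,1)]) (.cons (.leaf 1 [(8,1),(5,1)]) (.cons (.leaf 1 [(11,1),(8,1)]) (.cons (.leaf 1 [(11,1),(8,1),(5,1)]) (.cons (.leaf 1 [(9,1),(8,1)]) (.cons (.leaf 1 [(9,1),(8,1),(5,1)]) (.cons (.leaf 1 [(8,1),(6,1)]) (.cons (.leaf 1 [(8,1)]) .nil)))))))))) (.cons (.leaf 1 [(11,1)]) (.cons (.leaf 1 [(11,1),(5,1)])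 (.cons (.leaf 1 [(6,1)]) (.cons (.leaf 1 []) .nil)))))))))) (.cons (.keep [2,4,8,9,10] (.node (.cons (.leaf 1 []) (.cons (.leaf 1 [(5,1)]) (.cons (.keep [6,8,9,10] (.node (.cons (.leaf 1 []) (.cons (.leaf 1 [(5,1)]) (.cons (.leaf 1 [(10,1)]) (.cons (.leaf 1 [(10,1),(5,1)]) (.cons (.keep [1,6,7,10] (.node (.cons (.leaf 1 [(2,1)]) (.cons (.leaf 1 [(2,1)]) (.cons (.leaf 1 [(10,1)]) (.cons (.keep [0,5,8,9,10] (.node (.cons (.leaf 1 []) (.cons (.leaf 1 [(5,1)]) (.cons (.leaf 1 [(10,1)]) (.cons (.leaf 1 [(10,1),(5,1)]) (.cons (.leaf 1 [(9,1)]) (.cons (.leaf 1 [(9,1),(5,1)]) (.cons (.leaf 1 [(6,1)]) (.cons (.leaf 1 []) .nil)))))))))) (.cons (.leaf 1 [(9,1),(2,1)]) (.cons (.leaf 1 [(9,1),(2,1)]) (.cons (.leaf 1 [(6,1),(2,1)]) (.cons (.keep [0,2,7,8,9] (.node (.cons (.leaf 1 []) (.cons (.leaf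 1 [(5,1)]) (.cons (.leaf 1 [(11,1)]) (.cons (.leaf 1 [(11,1),(5,1)]) (.cons (.leaf 1 [(10,1)]) (.cons (.leaf 1 [(10,1),(5,1)]) (.cons (.leaf 1 [(6,1)]) (.cons (.leaf 1 []) .nil)))))))))) .nil)))))))))) (.cons (.keep [4,5,7,8,10] (.node (.cons (.leaf 1 [(2,1),(8,1)]) (.cons (.leaf 1 [(2,1),(8,1)]) (.cons (.leaf 1 [(11,1),(8,1)]) (.cons (.keep [4,7,8,9,10,11] (.node (.cons (.leaf 1 [(9,1)]) (.cons (.leaf 1 [(9,1),(5,1)]) (.cons (.leaf 1 [(10,1),(9,1)]) (.cons (.leaf 1 [(10,1),(9,1),(5,1)]) (.cons (.leaf 1 []) (.cons (.leaf 1 [(5,1)]) (.cons (.leaf 1 [(9,1),(6,1)]) (.cons (.leaf 1 [(9,1)]) .nil)))))))))) (.cons (.leaf 1 [(9,1),(2,1),(8,1)]) (.cons (.leaf 1 [(9,1),(2,1),(8,1)]) (.cons (.leaf 1 [(6,1),(8,1),(2,1)]) (.cons (.keep [0,2,7,8,9] (.node (.cons (.leaf 1 [(10,1)]) (.cons (.leaf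 1 [(10,1),(5,1)]) (.cons (.leaf 1 [(11,1),(10,1)]) (.cons (.leaf 1 [(11,1),(10,1),(5,1)]) (.cons (.leaf 1 []) (.cons (.leaf 1 [(5,1)]) (.cons (.leaf 1 [(10,1),(6,1)]) (.cons (.leaf 1 [(10,1)]) .nil)))))))))) .nil)))))))))) (.cons (.leaf 1 [(6,1)]) (.cons (.leaf 1 []) .nil)))))))))) (.cons (.keep [5,8,9,10,11] (.node (.cons (.leaf 1 [(7,1)]) (.cons (.leaf 1 [(7,1),(5,1)]) (.cons (.leaf 1 [(10,1),(7,1)]) (.cons (.leaf 1 [(10,1),(7,1),(5,1)]) (.cons (.keep [6,7,9,10,11] (.node (.cons (.leaf 1 [(2,1),(8,1)]) (.cons (.leaf 1 [(2,1),(8,1)]) (.cons (.leaf 1 [(10,1),(8,1)]) (.cons (.keep [4,5,7,8,10,11] (.node (.cons (.leaf 1 [(10,1)]) (.cons (.leaf 1 [(10,1),(5,1)]) (.cons (.leaf 1 []) (.cons (.leaf 1 [(5,1)]) (.cons (.leaf 1 [(10,1),(9,1)]) (.cons (.leaf 1 [(10,1),(9,1),(5,1)]) (.cons (.leaf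 1 [(10,1),(6,1)]) (.cons (.leaf 1 [(10,1)]) .nil)))))))))) (.cons (.leaf 1 [(2,1)]) (.cons (.leaf 1 [(2,1)]) (.cons (.leaf 1 [(6,1),(8,1),(2,1)]) (.cons (.keep [0,2,7,8,9] (.node (.cons (.leaf 1 [(10,1)]) (.cons (.leaf 1 [(10,1),(5,1)]) (.cons (.leaf 1 []) (.cons (.leaf 1 [(5,1)]) (.cons (.leaf 1 [(10,1),(9,1)]) (.cons (.leaf 1 [(10,1),(9,1),(5,1)]) (.cons (.leaf 1 [(10,1),(6,1)]) (.cons (.leaf 1 [(10,1)]) .nil)))))))))) .nil)))))))))) (.cons (.keep [5,7,8,9,10,11] (.node (.cons (.leaf 1 [(2,1),(8,1),(7,1)]) (.cons (.leaf 1 [(2,1),(8,1),(7,1)]) (.cons (.leaf 1 [(11,1),(8,1),(7,1)]) (.cons (.keep [4,5,7,8,9,11,12] (.node (.cons (.leaf 1 [(10,1),(9,1)]) (.cons (.leaf 1 [(10,1),(9,1),(5,1)]) (.cons (.leaf 1 [(9,1)]) (.cons (.leaf 1 [(9,1),(5,1)]) (.cons (.leaf 1 [(10,1)]) (.cons (.leaf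 1 [(10,1),(5,1)]) (.cons (.leaf 1 [(10,1),(9,1),(6,1)]) (.cons (.leaf 1 [(10,1),(9,1)]) .nil)))))))))) (.cons (.leaf 1 [(2,1),(7,1)]) (.cons (.leaf 1 [(2,1),(7,1)]) (.cons (.leaf 1 [(6,1),(8,1),(7,1),(2,1)]) (.cons (.keep [0,2,7,8,10] (.node (.cons (.leaf 1 [(10,1),(9,1)]) (.cons (.leaf 1 [(10,1),(9,1),(5,1)]) (.cons (.leaf 1 [(9,1)]) (.cons (.leaf 1 [(9,1),(5,1)]) (.cons (.leaf 1 [(10,1)]) (.cons (.leaf 1 [(10,1),(5,1)]) (.cons (.leaf 1 [(10,1),(9,1),(6,1)]) (.cons (.leaf 1 [(10,1),(9,1)]) .nil)))))))))) .nil)))))))))) (.cons (.leaf 1 [(7,1),(6,1)]) (.cons (.leaf 1 [(7,1)]) .nil)))))))))) (.cons (.leaf 1 [(10,1)]) (.cons (.leaf 1 [(10,1),(5,1)]) (.cons (.leaf 1 [(6,1)]) (.cons (.leaf 1 []) .nil)))))))))) (.cons (.leaf 1 [(6,1),(2,1)]) (.cons (.keep [0,2,7,9,10] (.node (.cons (.leaf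 1 []) (.cons (.leaf 1 [(5,1)]) (.cons (.keep [1,6,7,8,10] (.node (.cons (.leaf 1 []) (.cons (.leaf 1 [(5,1)]) (.cons (.leaf 1 [(11,1)]) (.cons (.leaf 1 [(11,1),(5,1)]) (.cons (.keep [1,6,8,11] (.node (.cons (.leaf 1 [(2,1)]) (.cons (.leaf 1 [(2,1)]) (.cons (.leaf 1 [(10,1)]) (.cons (.keep [0,5,8,9,10] (.node (.cons (.leaf 1 []) (.cons (.leaf 1 [(5,1)]) (.cons (.leaf 1 [(10,1)]) (.cons (.leaf 1 [(10,1),(5,1)]) (.cons (.leaf 1 [(9,1)]) (.cons (.leaf 1 [(9,1),(5,1)]) (.cons (.leaf 1 [(6,1)]) (.cons (.leaf 1 []) .nil)))))))))) (.cons (.leaf 1 [(9,1),(2,1)]) (.cons (.leaf 1 [(9,1),(2,1)]) (.cons (.leaf 1 [(6,1),(2,1)]) (.cons (.keep [0,2,7,8,9] (.node (.cons (.leaf 1 []) (.cons (.leaf 1 [(5,1)]) (.cons (.leaf 1 [(11,1)]) (.cons (.leaf 1 [(11,1),(5,1)]) (.cons (.leaf 1 [(10,1)]) (.cons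 (.leaf 1 [(10,1),(5,1)]) (.cons (.leaf 1 [(6,1)]) (.cons (.leaf 1 []) .nil)))))))))) .nil)))))))))) (.cons (.keep [4,5,8,9,11] (.node (.cons (.leaf 1 [(2,1),(8,1)]) (.cons (.leaf 1 [(2,1),(8,1)]) (.cons (.leaf 1 [(11,1),(8,1)]) (.cons (.keep [4,7,8,9,10,11] (.node (.cons (.leaf 1 [(9,1)]) (.cons (.leaf 1 [(9,1),(5,1)]) (.cons (.leaf 1 [(10,1),(9,1)]) (.cons (.leaf 1 [(10,1),(9,1),(5,1)]) (.cons (.leaf 1 []) (.cons (.leaf 1 [(5,1)]) (.cons (.leaf 1 [(9,1),(6,1)]) (.cons (.leaf 1 [(9,1)]) .nil)))))))))) (.cons (.leaf 1 [(9,1),(2,1),(8,1)]) (.cons (.leaf 1 [(9,1),(2,1),(8,1)]) (.cons (.leaf 1 [(6,1),(8,1),(2,1)]) (.cons (.keep [0,2,7,8,9] (.node (.cons (.leaf 1 [(10,1)]) (.cons (.leaf 1 [(10,1),(5,1)]) (.cons (.leaf 1 [(11,1),(10,1)]) (.cons (.leaf 1 [(11,1),(10,1),(5,1)]) (.cons (.leaf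 1 []) (.cons (.leaf 1 [(5,1)]) (.cons (.leaf 1 [(10,1),(6,1)]) (.cons (.leaf 1 [(10,1)]) .nil)))))))))) .nil)))))))))) (.cons (.leaf 1 [(6,1)]) (.cons (.leaf 1 []) .nil)))))))))) (.cons (.keep [4,5,7,8,10,11] (.node (.cons (.leaf 1 [(8,1)]) (.cons (.leaf 1 [(8,1),(5,1)]) (.cons (.leaf 1 [(11,1),(8,1)]) (.cons (.leaf 1 [(11,1),(8,1),(5,1)]) (.cons (.keep [6,7,8,9,11] (.node (.cons (.leaf 1 [(2,1),(9,1)]) (.cons (.leaf 1 [(2,1),(9,1)]) (.cons (.leaf 1 [(11,1),(9,1)]) (.cons (.keep [4,5,7,9,10,11] (.node (.cons (.leaf 1 [(10,1)]) (.cons (.leaf 1 [(10,1),(5,1)]) (.cons (.leaf 1 []) (.cons (.leaf 1 [(5,1)]) (.cons (.leaf 1 [(10,1),(9,1)]) (.cons (.leaf 1 [(10,1),(9,1),(5,1)]) (.cons (.leaf 1 [(10,1),(6,1)]) (.cons (.leaf 1 [(10,1)]) .nil)))))))))) (.cons (.leaf 1 [(2,1)]) (.cons (.leaf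 1 [(2,1)]) (.cons (.leaf 1 [(6,1),(9,1),(2,1)]) (.cons (.keep [0,2,7,8,9] (.node (.cons (.leaf 1 [(11,1)]) (.cons (.leaf 1 [(11,1),(5,1)]) (.cons (.leaf 1 []) (.cons (.leaf 1 [(5,1)]) (.cons (.leaf 1 [(11,1),(9,1)]) (.cons (.leaf 1 [(11,1),(9,1),(5,1)]) (.cons (.leaf 1 [(11,1),(6,1)]) (.cons (.leaf 1 [(11,1)]) .nil)))))))))) .nil)))))))))) (.cons (.keep [7,8,9,10,11,12] (.node (.cons (.leaf 1 [(2,1),(10,1)]) (.cons (.leaf 1 [(2,1),(10,1)]) (.cons (.leaf 1 [(11,1),(10,1)]) (.cons (.keep [4,7,8,9,10,11,12] (.node (.cons (.leaf 1 [(11,1)]) (.cons (.leaf 1 [(11,1),(5,1)]) (.cons (.leaf 1 [(11,1),(13,1)]) (.cons (.leaf 1 [(11,1),(13,1),(5,1)]) (.cons (.leaf 1 [(9,1)]) (.cons (.leaf 1 [(9,1),(5,1)]) (.cons (.leaf 1 [(11,1),(6,1)]) (.cons (.leaf 1 [(11,1)]) .nil)))))))))) (.cons (.leaf 1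 [(11,1),(2,1),(10,1)]) (.cons (.leaf 1 [(12,1),(2,1),(10,1)]) (.cons (.leaf 1 [(6,1),(10,1),(2,1)]) (.cons (.keep [0,2,7,8,10,12] (.node (.cons (.leaf 1 [(11,1)]) (.cons (.leaf 1 [(11,1),(5,1)]) (.cons (.leaf 1 [(11,1),(12,1)]) (.cons (.leaf 1 [(11,1),(12,1),(5,1)]) (.cons (.leaf 1 [(10,1)]) (.cons (.leaf 1 [(10,1),(5,1)]) (.cons (.leaf 1 [(11,1),(6,1)]) (.cons (.leaf 1 [(11,1)]) .nil)))))))))) .nil)))))))))) (.cons (.leaf 1 [(8,1),(6,1)]) (.cons (.leaf 1 [(8,1)]) .nil)))))))))) (.cons (.leaf 1 [(10,1)]) (.cons (.leaf 1 [(10,1),(5,1)]) (.cons (.leaf 1 [(6,1)]) (.cons (.leaf 1 []) .nil)))))))))) .nil)))))))))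

theorem c_23_17_1 : Concl 23 17 z_23_17_1 h_23_17_1 .nd := piece _ hP_nil t_23_17_1 _ _ (by
  decide +kernel)

def t_23_17 : T := (.keep [0,1,2] (.node (.cons (.leaf 1 []) (.cons (.leaf 1 [(5,1)]) (.cons (.keep [1,3,6,9] (.node (.cons (.leaf 1 []) (.cons (.leaf 1 [(5,1)]) (.cons (.keep [1,3,6,9] (.node (.cons (.leaf 1 []) (.cons (.leaf 1 [(5,1)]) (.cons (.keep [1,6,9,10] (.node (.cons (.leaf 1 []) (.cons (.leaf 1 [(5,1)]) (.cons (.leaf 1 [(10,1)]) (.cons (.leaf 1 [(10,1),(5,1)]) (.cons (.leaf 1 [(9,1)]) (.cons (.leaf 1 [(9,1),(5,1)]) (.cons (.leaf 1 [(6,1)]) (.cons (.leaf 1 []) .nil)))))))))) (.cons (.keep [4,5,8,9,10] (.node (.cons (.leaf 1 [(8,1)]) (.cons (.leaf 1 [(8,1),(5,1)]) (.cons (.leaf 1 [(11,1),(8,1)]) (.cons (.leaf 1 [(11,1),(8,1),(5,1)]) (.cons (.leaf 1 [(10,1),(8,1)])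 (.cons (.leaf 1 [(10,1),(8,1),(5,1)]) (.cons (.leaf 1 [(8,1),(6,1)]) (.cons (.leaf 1 [(8,1)]) .nil)))))))))) (.cons (.leaf 1 [(10,1)]) (.cons (.leaf 1 [(10,1),(5,1)]) (.cons (.leaf 1 [(6,1)]) (.cons (.leaf 1 []) .nil)))))))))) (.cons (.keep [4,5,8,9,10] (.node (.cons (.leaf 1 [(8,1)]) (.cons (.leaf 1 [(8,1),(5,1)]) (.cons (.keep [6,7,8,9,10] (.node (.cons (.leaf 1 [(9,1)]) (.cons (.leaf 1 [(9,1),(5,1)]) (.cons (.leaf 1 [(11,1),(9,1)]) (.cons (.leaf 1 [(11,1),(9,1),(5,1)]) (.cons (.leaf 1 []) (.cons (.leaf 1 [(5,1)]) (.cons (.leaf 1 [(9,1),(6,1)]) (.cons (.leaf 1 [(9,1)]) .nil)))))))))) (.cons (.keep [5,7,8,10,11] (.node (.cons (.leaf 1 [(9,1),(7,1)]) (.cons (.leaf 1 [(9,1),(7,1),(5,1)]) (.cons (.leaf 1 [(10,1),(9,1),(7,1)]) (.cons (.leaf 1 [(10,1),(9,1),(7,1),(5,1)]) (.cons (.leaf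 1 [(7,1)]) (.cons (.leaf 1 [(7,1),(5,1)]) (.cons (.leaf 1 [(9,1),(7,1),(6,1)]) (.cons (.leaf 1 [(9,1),(7,1)]) .nil)))))))))) (.cons (.leaf 1 [(10,1),(8,1)]) (.cons (.leaf 1 [(10,1),(8,1),(5,1)]) (.cons (.leaf 1 [(8,1),(6,1)]) (.cons (.leaf 1 [(8,1)]) .nil)))))))))) (.cons (.keep [1,2,6,9] (.node (.cons (.leaf 1 [(2,1)]) (.cons (.leaf 1 [(2,1)]) (.cons (.keep [1,6,9,10] (.node (.cons (.leaf 1 []) (.cons (.leaf 1 [(5,1)]) (.cons (.leaf 1 [(10,1)]) (.cons (.leaf 1 [(10,1),(5,1)]) (.cons (.leaf 1 [(9,1)]) (.cons (.leaf 1 [(9,1),(5,1)]) (.cons (.leaf 1 [(6,1)]) (.cons (.leaf 1 []) .nil)))))))))) (.cons (.keep [0,5,9,10] (.node (.cons (.leaf 1 []) (.cons (.leaf 1 [(5,1)]) (.cons (.leaf 1 [(10,1)]) (.cons (.leaf 1 [(10,1),(5,1)]) (.cons (.leaf 1 [(9,1)]) (.cons (.leaf 1 [(9,1),(5,1)]) (.cons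 (.leaf 1 [(6,1)]) (.cons (.leaf 1 []) .nil)))))))))) (.cons (.leaf 1 [(10,1),(2,1)]) (.cons (.leaf 1 [(10,1),(2,1)]) (.cons (.leaf 1 [(6,1),(2,1)]) (.cons (.keep [0,2,7,9,10] (.node (.cons (.leaf 1 []) (.cons (.leaf 1 [(5,1)]) (.cons (.leaf 1 [(11,1)]) (.cons (.leaf 1 [(11,1),(5,1)]) (.cons (.leaf 1 [(10,1)]) (.cons (.leaf 1 [(10,1),(5,1)]) (.cons (.leaf 1 [(6,1)]) (.cons (.leaf 1 []) .nil)))))))))) .nil)))))))))) (.cons (.keep [4,5,8,9,10] (.node (.cons (.leaf 1 [(2,1),(8,1)]) (.cons (.leaf 1 [(2,1),(8,1)]) (.cons (.keep [6,7,8,9,10] (.node (.cons (.leaf 1 [(9,1)]) (.cons (.leaf 1 [(9,1),(5,1)]) (.cons (.leaf 1 [(11,1),(9,1)]) (.cons (.leaf 1 [(11,1),(9,1),(5,1)]) (.cons (.leaf 1 []) (.cons (.leaf 1 [(5,1)]) (.cons (.leaf 1 [(9,1),(6,1)]) (.cons (.leaf 1 [(9,1)]) .nil)))))))))) (.cons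 (.keep [4,8,9,10,11] (.node (.cons (.leaf 1 [(8,1)]) (.cons (.leaf 1 [(8,1),(5,1)]) (.cons (.leaf 1 [(10,1),(8,1)]) (.cons (.leaf 1 [(10,1),(8,1),(5,1)]) (.cons (.leaf 1 []) (.cons (.leaf 1 [(5,1)]) (.cons (.leaf 1 [(8,1),(6,1)]) (.cons (.leaf 1 [(8,1)]) .nil)))))))))) (.cons (.leaf 1 [(10,1),(2,1),(8,1)]) (.cons (.leaf 1 [(10,1),(2,1),(8,1)]) (.cons (.leaf 1 [(6,1),(8,1),(2,1)]) (.cons (.keep [0,2,7,8,10] (.node (.cons (.leaf 1 [(10,1)]) (.cons (.leaf 1 [(10,1),(5,1)]) (.cons (.leaf 1 [(11,1),(10,1)]) (.cons (.leaf 1 [(11,1),(10,1),(5,1)]) (.cons (.leaf 1 []) (.cons (.leaf 1 [(5,1)]) (.cons (.leaf 1 [(10,1),(6,1)]) (.cons (.leaf 1 [(10,1)]) .nil)))))))))) .nil)))))))))) (.cons (.leaf 1 [(6,1)]) (.cons (.leaf 1 []) .nil)))))))))) (.cons (.keep [4,5,7,8,9] (.node (.cons (.leaf 1 [(8,1)])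 (.cons (.leaf 1 [(8,1),(5,1)]) (.cons (.keep [6,7,8,9,11] (.node (.cons (.leaf 1 [(9,1)]) (.cons (.leaf 1 [(9,1),(5,1)]) (.cons (.keep [3,6,7,9,10] (.node (.cons (.leaf 1 [(10,1)]) (.cons (.leaf 1 [(10,1),(5,1)]) (.cons (.leaf 1 []) (.cons (.leaf 1 [(5,1)]) (.cons (.leaf 1 [(10,1),(9,1)]) (.cons (.leaf 1 [(10,1),(9,1),(5,1)]) (.cons (.leaf 1 [(10,1),(6,1)]) (.cons (.leaf 1 [(10,1)]) .nil)))))))))) (.cons (.keep [5,7,8,9,11] (.node (.cons (.leaf 1 [(10,1),(7,1)]) (.cons (.leaf 1 [(10,1),(7,1),(5,1)]) (.cons (.leaf 1 [(7,1)]) (.cons (.leaf 1 [(7,1),(5,1)]) (.cons (.leaf 1 [(10,1),(8,1),(7,1)]) (.cons (.leaf 1 [(10,1),(8,1),(7,1),(5,1)]) (.cons (.leaf 1 [(10,1),(7,1),(6,1)]) (.cons (.leaf 1 [(10,1),(7,1)]) .nil)))))))))) (.cons (.leaf 1 []) (.cons (.leaf 1 [(5,1)]) (.cons (.leaf 1 [(9,1),(6,1)])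 (.cons (.leaf 1 [(9,1)]) .nil)))))))))) (.cons (.keep [5,7,8,10,11] (.node (.cons (.leaf 1 [(9,1),(7,1)]) (.cons (.leaf 1 [(9,1),(7,1),(5,1)]) (.cons (.keep [6,7,8,9,10] (.node (.cons (.leaf 1 [(10,1),(8,1)]) (.cons (.leaf 1 [(10,1),(8,1),(5,1)]) (.cons (.leaf 1 [(8,1)]) (.cons (.leaf 1 [(8,1),(5,1)]) (.cons (.leaf 1 [(10,1)]) (.cons (.leaf 1 [(10,1),(5,1)]) (.cons (.leaf 1 [(10,1),(8,1),(6,1)]) (.cons (.leaf 1 [(10,1),(8,1)]) .nil)))))))))) (.cons (.keep [5,7,8,9,11] (.node (.cons (.leaf 1 [(10,1),(8,1),(7,1)]) (.cons (.leaf 1 [(10,1),(8,1),(7,1),(5,1)]) (.cons (.leaf 1 [(8,1),(7,1)]) (.cons (.leaf 1 [(8,1),(7,1),(5,1)]) (.cons (.leaf 1 [(10,1),(7,1)]) (.cons (.leaf 1 [(10,1),(7,1),(5,1)]) (.cons (.leaf 1 [(10,1),(8,1),(7,1),(6,1)]) (.cons (.leaf 1 [(10,1),(8,1),(7,1)]) .nil))))))))))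 (.cons (.leaf 1 [(7,1)]) (.cons (.leaf 1 [(7,1),(5,1)]) (.cons (.leaf 1 [(9,1),(7,1),(6,1)]) (.cons (.leaf 1 [(9,1),(7,1)]) .nil)))))))))) (.cons (.keep [6,7,8,9,10] (.node (.cons (.leaf 1 [(2,1),(9,1)]) (.cons (.leaf 1 [(2,1),(9,1)]) (.cons (.keep [3,6,7,9,10] (.node (.cons (.leaf 1 [(10,1)]) (.cons (.leaf 1 [(10,1),(5,1)]) (.cons (.leaf 1 []) (.cons (.leaf 1 [(5,1)]) (.cons (.leaf 1 [(10,1),(9,1)]) (.cons (.leaf 1 [(10,1),(9,1),(5,1)]) (.cons (.leaf 1 [(10,1),(6,1)]) (.cons (.leaf 1 [(10,1)]) .nil)))))))))) (.cons (.keep [4,7,9,10,11] (.node (.cons (.leaf 1 [(9,1)]) (.cons (.leaf 1 [(9,1),(5,1)]) (.cons (.leaf 1 []) (.cons (.leaf 1 [(5,1)]) (.cons (.leaf 1 [(9,1),(8,1)]) (.cons (.leaf 1 [(9,1),(8,1),(5,1)]) (.cons (.leaf 1 [(9,1),(6,1)]) (.cons (.leaf 1 [(9,1)]) .nil)))))))))) (.cons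 (.leaf 1 [(2,1)]) (.cons (.leaf 1 [(2,1)]) (.cons (.leaf 1 [(6,1),(9,1),(2,1)]) (.cons (.keep [0,2,7,8,9] (.node (.cons (.leaf 1 [(11,1)]) (.cons (.leaf 1 [(11,1),(5,1)]) (.cons (.leaf 1 []) (.cons (.leaf 1 [(5,1)]) (.cons (.leaf 1 [(11,1),(9,1)]) (.cons (.leaf 1 [(11,1),(9,1),(5,1)]) (.cons (.leaf 1 [(11,1),(6,1)]) (.cons (.leaf 1 [(11,1)]) .nil)))))))))) .nil)))))))))) (.cons (.keep [5,7,8,10,11] (.node (.cons (.leaf 1 [(2,1),(9,1),(7,1)]) (.cons (.leaf 1 [(2,1),(9,1),(7,1)]) (.cons (.keep [6,7,8,9,10] (.node (.cons (.leaf 1 [(10,1),(8,1)]) (.cons (.leaf 1 [(10,1),(8,1),(5,1)]) (.cons (.leaf 1 [(8,1)]) (.cons (.leaf 1 [(8,1),(5,1)]) (.cons (.leaf 1 [(10,1)]) (.cons (.leaf 1 [(10,1),(5,1)]) (.cons (.leaf 1 [(10,1),(8,1),(6,1)]) (.cons (.leaf 1 [(10,1),(8,1)]) .nil)))))))))) (.cons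 (.keep [4,7,9,10,11] (.node (.cons (.leaf 1 [(9,1),(8,1)]) (.cons (.leaf 1 [(9,1),(8,1),(5,1)]) (.cons (.leaf 1 [(8,1)]) (.cons (.leaf 1 [(8,1),(5,1)]) (.cons (.leaf 1 [(9,1)]) (.cons (.leaf 1 [(9,1),(5,1)]) (.cons (.leaf 1 [(9,1),(8,1),(6,1)]) (.cons (.leaf 1 [(9,1),(8,1)]) .nil)))))))))) (.cons (.leaf 1 [(2,1),(7,1)]) (.cons (.leaf 1 [(2,1),(7,1)]) (.cons (.leaf 1 [(6,1),(9,1),(7,1),(2,1)]) (.cons (.keep [0,2,7,8,9] (.node (.cons (.leaf 1 [(11,1),(9,1)]) (.cons (.leaf 1 [(11,1),(9,1),(5,1)]) (.cons (.leaf 1 [(9,1)]) (.cons (.leaf 1 [(9,1),(5,1)]) (.cons (.leaf 1 [(11,1)]) (.cons (.leaf 1 [(11,1),(5,1)]) (.cons (.leaf 1 [(11,1),(9,1),(6,1)]) (.cons (.leaf 1 [(11,1),(9,1)]) .nil)))))))))) .nil)))))))))) (.cons (.leaf 1 [(8,1),(6,1)]) (.cons (.leaf 1 [(8,1)]) .nil)))))))))) (.cons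 (.keep [1,2,6,9] (.leaf 0 [(0,0)])) (.cons (.keep [4,5,7,8,9] (.leaf 0 [(1,0)])) (.cons (.leaf 1 [(6,1)]) (.cons (.leaf 1 []) .nil))))))))))

theorem e_23_17 : ESB (caseOf 4 23 17) := esb_of_pieces _ (hP_cons c_23_17_1 (hP_cons c_23_17_0
  hP_nil)) t_23_17 (by decide +kernel)

def ks : List (ℕ × ℕ) := [(22, 26), (22, 27), (22, 28), (22, 29), (22, 30), (22, 31), (23, 17)]

theorem ks_ok : ∀ p ∈ ks, ESB (caseOf 4 p.1 p.2) := ks_cons e_22_26 <| ks_cons e_22_27 <| ks_cons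
  e_22_28 <| ks_cons e_22_29 <| ks_cons e_22_30 <| ks_cons e_22_31 <| ks_cons e_23_17 <| ks_nil

end Pool.Agent.H4.RD4.E19
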