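import Pool.Agent.H4.RD4.Chk

/-! # Certificates for special cases of order four -/

set_option maxRecDepth 20000

namespace Pool.Agent.H4.RD4.E20

open Pool.Agent.H50.Rdb
open Pool.Agent.H81.RDE (ESB caseOf)

def t_23_18 : T := (.keep [0,1,2] (.node (.cons (.keep [2,3,6,9] (.node (.cons (.leaf 1 [(2,1)]) (.cons (.leaf 1 [(4,1)]) (.cons (.leaf 1 []) (.cons (.leaf 1 [(4,1)]) (.cons (.leaf 1 [(2,1)]) (.cons (.leaf 1 [(4,1)]) (.cons (.leaf 1 [(2,1)]) (.cons (.leaf 1 []) .nil)))))))))) (.cons (.keep [0,3,5,9] (.node (.cons (.leaf 1 [(9,1),(2,1)]) (.cons (.leaf 1 [(4,1),(9,1)]) (.cons (.leaf 1 [(9,1)]) (.cons (.leaf 1 [(4,1),(9,1)]) (.cons (.leaf 1 [(9,1),(2,1)]) (.cons (.leaf 1 [(4,1),(9,1)]) (.cons (.leaf 1 [(9,1),(2,1)]) (.cons (.leaf 1 [(9,1)]) .nil)))))))))) (.cons (.leaf 1 []) (.cons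 (.leaf 1 [(5,1)]) (.cons (.keep [1,6,8,9] (.node (.cons (.leaf 1 [(2,2)]) (.cons (.leaf 1 [(2,1),(4,1)]) (.cons (.keep [0,1,3,8] (.node (.cons (.keep [2,3,6,7] (.node (.cons (.leaf 1 [(2,1)]) (.cons (.leaf 1 [(4,1)]) (.cons (.leaf 1 []) (.cons (.leaf 1 [(4,1)]) (.cons (.leaf 1 [(2,1)]) (.cons (.leaf 1 [(4,1)]) (.cons (.leaf 1 [(2,1)]) (.cons (.leaf 1 []) .nil)))))))))) (.cons (.keep [0,3,5,7] (.node (.cons (.leaf 1 [(9,1),(2,1)]) (.cons (.leaf 1 [(4,1),(9,1)]) (.cons (.leaf 1 [(9,1)]) (.cons (.leaf 1 [(4,1),(9,1)]) (.cons (.leaf 1 [(9,1),(2,1)]) (.cons (.leaf 1 [(4,1),(9,1)]) (.cons (.leaf 1 [(9,1),(2,1)]) (.cons (.leaf 1 [(9,1)]) .nil)))))))))) (.cons (.leaf 1 []) (.cons (.leaf 1 [(5,1)]) (.cons (.keep [1,6,7,9,10] (.node (.cons (.leaf 1 [(2,2)]) (.cons (.leaf 1 [(2,1),(4,1)]) (.cons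 (.leaf 1 [(11,1)]) (.cons (.leaf 1 [(4,1),(11,1)]) (.cons (.leaf 1 [(11,1),(2,1)]) (.cons (.leaf 1 [(11,1),(4,1)]) (.cons (.leaf 1 [(11,1),(2,1)]) (.cons (.leaf 1 [(11,1)]) .nil)))))))))) (.cons (.keep [1,4,5,7,10] (.node (.cons (.leaf 1 [(2,2),(9,1)]) (.cons (.leaf 1 [(2,1),(4,1),(9,1)]) (.cons (.leaf 1 [(11,1),(9,1)]) (.cons (.leaf 1 [(11,1),(4,1),(9,1)]) (.cons (.leaf 1 [(11,1),(2,1),(9,1)]) (.cons (.leaf 1 [(11,1),(4,1),(9,1)]) (.cons (.leaf 1 [(11,1),(9,1),(2,1)]) (.cons (.leaf 1 [(11,1),(9,1)]) .nil)))))))))) (.cons (.leaf 1 [(6,1)]) (.cons (.leaf 1 []) .nil)))))))))) (.cons (.keep [1,4,5,8,10] (.node (.cons (.keep [6,8,9,10,11] (.node (.cons (.leaf 1 [(3,1)]) (.cons (.leaf 1 [(3,1)]) (.cons (.leaf 1 [(8,1)]) (.cons (.leaf 1 [(3,1),(0,1),(8,1)]) (.cons (.leaf 1 [(8,1),(2,1)])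 (.cons (.leaf 1 [(0,1),(8,1)]) (.cons (.leaf 1 [(8,1),(2,1)]) (.cons (.leaf 1 [(8,1)]) .nil)))))))))) (.cons (.keep [4,5,8,9,10] (.node (.cons (.leaf 1 [(3,1)]) (.cons (.leaf 1 [(3,1)]) (.cons (.leaf 1 [(9,1),(8,1)]) (.cons (.leaf 1 [(3,1),(9,1),(0,1),(8,1)]) (.cons (.leaf 1 [(8,1),(9,1),(2,1)]) (.cons (.leaf 1 [(0,1),(8,1),(9,1)]) (.cons (.leaf 1 [(8,1),(9,1),(2,1)]) (.cons (.leaf 1 [(9,1),(8,1)]) .nil)))))))))) (.cons (.leaf 1 [(8,1)]) (.cons (.leaf 1 [(8,1),(5,1)]) (.cons (.keep [1,6,9,10,11] (.node (.cons (.leaf 1 [(3,1)]) (.cons (.leaf 1 [(3,1)]) (.cons (.leaf 1 [(10,1)]) (.cons (.leaf 1 [(3,1),(0,1),(10,1)]) (.cons (.leaf 1 [(10,1),(2,1)]) (.cons (.leaf 1 [(0,1),(10,1)]) (.cons (.leaf 1 [(10,1),(2,1)]) (.cons (.leaf 1 [(10,1)]) .nil)))))))))) (.cons (.keep [1,4,5,9,10] (.node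 (.cons (.leaf 1 [(3,1)]) (.cons (.leaf 1 [(3,1)]) (.cons (.leaf 1 [(11,1),(9,1)]) (.cons (.leaf 1 [(3,1),(11,1),(0,1),(9,1)]) (.cons (.leaf 1 [(9,1),(11,1),(2,1)]) (.cons (.leaf 1 [(11,1),(0,1),(9,1)]) (.cons (.leaf 1 [(9,1),(11,1),(2,1)]) (.cons (.leaf 1 [(11,1),(9,1)]) .nil)))))))))) (.cons (.leaf 1 [(6,1),(8,1)]) (.cons (.leaf 1 [(8,1)]) .nil)))))))))) (.cons (.keep [2,6,7,8,9] (.node (.cons (.leaf 2 [(7,3)]) (.cons (.leaf 1 [(7,2),(2,1)]) (.cons (.leaf 1 [(1,1)]) (.cons (.leaf 1 [(5,2),(1,1)]) (.cons (.leaf 2 [(7,2),(10,1)]) (.cons (.leaf 2 [(7,2),(10,1),(5,1)]) (.cons (.leaf 1 [(1,1),(6,3)]) (.cons (.leaf 1 [(7,1)]) .nil)))))))))) (.cons (.keep [4,5,7,8,10] (.node (.cons (.leaf 2 [(8,1),(7,3)]) (.cons (.leaf 2 [(7,3),(5,1),(8,1)]) (.cons (.leaf 1 [(7,1)]) (.cons (.leaf 1 [(7,1),(5,1)])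 (.cons (.leaf 2 [(8,1),(10,1),(7,2)]) (.cons (.leaf 2 [(7,2),(10,1),(5,1),(8,1)]) (.cons (.leaf 1 [(7,1),(6,1)]) (.cons (.leaf 1 [(7,1)]) .nil)))))))))) (.cons (.keep [0,2,7,8,10] (.node (.cons (.keep [6,7,8,10,11] (.node (.cons (.leaf 1 [(2,1),(9,1)]) (.cons (.leaf 1 [(9,1),(4,1)]) (.cons (.leaf 1 [(9,1)]) (.cons (.leaf 1 [(4,1),(9,1)]) (.cons (.leaf 1 [(2,2),(1,1)]) (.cons (.leaf 1 [(1,1),(4,2)]) (.cons (.leaf 1 [(9,1),(2,1)]) (.cons (.leaf 1 [(9,1)]) .nil)))))))))) (.cons (.keep [4,5,7,8,10] (.node (.cons (.leaf 1 [(8,1),(10,1),(2,1)]) (.cons (.leaf 1 [(10,1),(4,1),(8,1)]) (.cons (.leaf 1 [(10,1),(8,1)]) (.cons (.leaf 1 [(10,1),(4,1),(8,1)]) (.cons (.leaf 1 [(8,2),(1,1),(2,2)]) (.cons (.leaf 1 [(1,1),(4,2),(8,2)]) (.cons (.leaf 1 [(8,1),(10,1),(2,1)]) (.cons (.leaf 1 [(10,1),(8,1)])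 .nil)))))))))) (.cons (.leaf 1 [(8,1)]) (.cons (.leaf 1 [(5,1),(8,1)]) (.cons (.keep [1,6,7,10,11] (.node (.cons (.leaf 1 [(2,1),(10,1)]) (.cons (.leaf 1 [(10,1),(4,1)]) (.cons (.leaf 1 [(10,1)]) (.cons (.leaf 1 [(4,1),(10,1)]) (.cons (.leaf 1 [(10,1),(2,1)]) (.cons (.leaf 1 [(10,1),(4,1)]) (.cons (.leaf 1 [(10,1),(2,1)]) (.cons (.leaf 1 [(10,1)]) .nil)))))))))) (.cons (.keep [1,4,5,7,10] (.node (.cons (.leaf 1 [(2,1),(11,1),(9,1)]) (.cons (.leaf 1 [(11,1),(4,1),(9,1)]) (.cons (.leaf 1 [(11,1),(9,1)]) (.cons (.leaf 1 [(11,1),(4,1),(9,1)]) (.cons (.leaf 1 [(11,1),(2,1),(9,1)]) (.cons (.leaf 1 [(11,1),(4,1),(9,1)]) (.cons (.leaf 1 [(11,1),(9,1),(2,1)]) (.cons (.leaf 1 [(11,1),(9,1)]) .nil)))))))))) (.cons (.leaf 1 [(6,1),(8,1)]) (.cons (.leaf 1 [(8,1)]) .nil)))))))))) (.cons (.keep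 [0,2,7,8,10] (.node (.cons (.keep [2,3,6,7,8] (.node (.cons (.leaf 1 [(2,1)]) (.cons (.leaf 1 [(4,1)]) (.cons (.leaf 1 []) (.cons (.leaf 1 [(4,1)]) (.cons (.leaf 1 [(2,1)]) (.cons (.leaf 1 [(4,1)]) (.cons (.leaf 1 [(2,1)]) (.cons (.leaf 1 []) .nil)))))))))) (.cons (.keep [0,3,5,7,8] (.node (.cons (.leaf 1 [(9,1),(2,1)]) (.cons (.leaf 1 [(4,1),(9,1)]) (.cons (.leaf 1 [(9,1)]) (.cons (.leaf 1 [(4,1),(9,1)]) (.cons (.leaf 1 [(9,1),(2,1)]) (.cons (.leaf 1 [(4,1),(9,1)]) (.cons (.leaf 1 [(9,1),(2,1)]) (.cons (.leaf 1 [(9,1)]) .nil)))))))))) (.cons (.leaf 1 []) (.cons (.leaf 1 [(5,1)]) (.cons (.keep [1,6,7,8,10,11] (.node (.cons (.leaf 1 [(2,2)]) (.cons (.leaf 1 [(2,1),(4,1)]) (.cons (.leaf 1 [(11,1)]) (.cons (.leaf 1 [(4,1),(11,1)]) (.cons (.leaf 1 [(11,1),(2,1)]) (.cons (.leaf 1 [(11,1),(4,1)])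 (.cons (.leaf 1 [(11,1),(2,1)]) (.cons (.leaf 1 [(11,1)]) .nil)))))))))) (.cons (.keep [1,4,5,7,8,10] (.node (.cons (.leaf 1 [(2,2),(9,1)]) (.cons (.leaf 1 [(2,1),(4,1),(9,1)]) (.cons (.leaf 1 [(12,1),(9,1)]) (.cons (.leaf 1 [(12,1),(4,1),(9,1)]) (.cons (.leaf 1 [(12,1),(2,1),(9,1)]) (.cons (.leaf 1 [(12,1),(4,1),(9,1)]) (.cons (.leaf 1 [(12,1),(9,1),(2,1)]) (.cons (.leaf 1 [(12,1),(9,1)]) .nil)))))))))) (.cons (.leaf 1 [(6,1)]) (.cons (.leaf 1 []) .nil)))))))))) .nil)))))))))) (.cons (.keep [1,5,8,9] (.node (.cons (.leaf 1 [(2,2),(8,1)]) (.cons (.leaf 1 [(2,1),(4,1),(8,1)]) (.cons (.keep [1,4,8,9,10] (.node (.cons (.keep [3,6,8,9,11] (.node (.cons (.leaf 1 []) (.cons (.leaf 1 [(10,1),(4,1)]) (.cons (.leaf 1 [(1,1)]) (.cons (.leaf 1 [(1,1),(4,1)]) (.cons (.leaf 1 [(1,1)]) (.cons (.leaf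 1 [(10,1),(4,1)]) (.cons (.leaf 1 [(1,1)]) (.cons (.leaf 1 [(10,1)]) .nil)))))))))) (.cons (.keep [3,4,5,8,9] (.node (.cons (.leaf 1 [(9,1)]) (.cons (.leaf 1 [(11,1),(4,1),(9,1)]) (.cons (.leaf 1 [(1,1),(9,1)]) (.cons (.leaf 1 [(1,1),(4,1),(9,1)]) (.cons (.leaf 1 [(9,1),(1,1)]) (.cons (.leaf 1 [(11,1),(4,1),(9,1)]) (.cons (.leaf 1 [(9,1),(1,1)]) (.cons (.leaf 1 [(11,1),(9,1)]) .nil)))))))))) (.cons (.leaf 1 [(9,1)]) (.cons (.leaf 1 [(5,1),(9,1)]) (.cons (.keep [1,6,8,10,11] (.node (.cons (.leaf 1 [(2,1)]) (.cons (.leaf 1 [(4,1)]) (.cons (.leaf 1 []) (.cons (.leaf 1 [(4,1)]) (.cons (.leaf 1 [(2,1)]) (.cons (.leaf 1 [(4,1)]) (.cons (.leaf 1 [(2,1)]) (.cons (.leaf 1 []) .nil)))))))))) (.cons (.keep [1,4,5,8,10] (.node (.cons (.leaf 1 [(9,1),(2,1)]) (.cons (.leaf 1 [(4,1),(9,1)]) (.cons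 (.leaf 1 [(9,1)]) (.cons (.leaf 1 [(4,1),(9,1)]) (.cons (.leaf 1 [(9,1),(2,1)]) (.cons (.leaf 1 [(4,1),(9,1)]) (.cons (.leaf 1 [(9,1),(2,1)]) (.cons (.leaf 1 [(9,1)]) .nil)))))))))) (.cons (.leaf 1 [(6,1),(9,1)]) (.cons (.leaf 1 [(9,1)]) .nil)))))))))) (.cons (.keep [1,4,8,9,10] (.node (.cons (.keep [3,6,8,9,11] (.node (.cons (.leaf 1 []) (.cons (.leaf 1 [(10,1),(3,1)]) (.cons (.leaf 1 [(1,1)]) (.cons (.leaf 1 [(1,1),(4,1)]) (.cons (.leaf 1 [(1,1)]) (.cons (.leaf 1 [(10,1),(4,1),(9,1)]) (.cons (.leaf 1 [(1,1)]) (.cons (.leaf 1 [(9,1),(10,1)]) .nil)))))))))) (.cons (.keep [3,4,5,8,9] (.node (.cons (.leaf 1 [(9,1)]) (.cons (.leaf 1 [(11,1),(3,1)]) (.cons (.leaf 1 [(1,1),(9,1)]) (.cons (.leaf 1 [(1,1),(4,1),(9,1)]) (.cons (.leaf 1 [(9,1),(1,1)]) (.cons (.leaf 1 [(10,1),(11,1),(4,1),(9,1)])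 (.cons (.leaf 1 [(9,1),(1,1)]) (.cons (.leaf 1 [(10,1),(11,1),(9,1)]) .nil)))))))))) (.cons (.leaf 1 [(8,1),(9,1)]) (.cons (.leaf 1 [(5,1),(8,1),(9,1)]) (.cons (.keep [6,8,9,10,11] (.node (.cons (.leaf 1 [(2,1)]) (.cons (.leaf 1 [(4,1)]) (.cons (.leaf 1 []) (.cons (.leaf 1 [(4,1)]) (.cons (.leaf 1 [(2,1)]) (.cons (.leaf 1 [(4,1)]) (.cons (.leaf 1 [(2,1)]) (.cons (.leaf 1 []) .nil)))))))))) (.cons (.keep [4,5,8,9,10] (.node (.cons (.leaf 1 [(8,1),(2,1)]) (.cons (.leaf 1 [(4,1),(8,1)]) (.cons (.leaf 1 [(8,1)]) (.cons (.leaf 1 [(4,1),(8,1)]) (.cons (.leaf 1 [(8,1),(2,1)]) (.cons (.leaf 1 [(4,1),(8,1)]) (.cons (.leaf 1 [(8,1),(2,1)]) (.cons (.leaf 1 [(8,1)]) .nil)))))))))) (.cons (.leaf 1 [(6,1),(8,1),(9,1)]) (.cons (.leaf 1 [(8,1),(9,1)]) .nil)))))))))) (.cons (.keep [2,6,7,8,10] (.node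 (.cons (.leaf 2 [(7,3),(10,2)]) (.cons (.leaf 1 [(7,2),(10,1),(2,1)]) (.cons (.leaf 1 [(1,1),(10,1)]) (.cons (.leaf 1 [(5,2),(10,1),(1,1)]) (.cons (.leaf 2 [(7,1),(1,1)]) (.cons (.leaf 1 [(7,1),(2,1)]) (.cons (.leaf 1 [(6,3),(1,1),(10,1)]) (.cons (.leaf 1 [(7,1),(10,1)]) .nil)))))))))) (.cons (.keep [4,5,7,8,10] (.node (.cons (.leaf 2 [(7,3),(10,2),(8,1)]) (.cons (.leaf 1 [(7,2),(10,1),(8,1),(2,1)]) (.cons (.leaf 1 [(7,1),(10,1)]) (.cons (.leaf 1 [(5,1),(7,1),(10,1)]) (.cons (.leaf 2 [(7,1),(1,1),(8,1)]) (.cons (.leaf 1 [(7,1),(8,1),(2,1)]) (.cons (.leaf 1 [(6,1),(7,1),(10,1)]) (.cons (.leaf 1 [(7,1),(10,1)]) .nil)))))))))) (.cons (.keep [2,7,8,9,10] (.node (.cons (.keep [3,6,7,9,11] (.node (.cons (.leaf 1 []) (.cons (.leaf 1 [(10,1),(9,1),(4,1)]) (.cons (.leaf 1 [(1,1)]) (.cons (.leaf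 1 [(1,1),(4,1)]) (.cons (.leaf 1 [(1,1)]) (.cons (.leaf 1 [(1,1),(4,2),(10,1)]) (.cons (.leaf 1 [(1,1)]) (.cons (.leaf 1 [(10,1),(9,1)]) .nil)))))))))) (.cons (.keep [3,4,5,7,9] (.node (.cons (.leaf 1 [(9,1)]) (.cons (.leaf 1 [(11,1),(10,1),(4,1),(9,1)]) (.cons (.leaf 1 [(1,1),(9,1)]) (.cons (.leaf 1 [(1,1),(4,1),(9,1)]) (.cons (.leaf 1 [(9,1),(1,1)]) (.cons (.leaf 1 [(11,1),(1,1),(4,2),(9,2)]) (.cons (.leaf 1 [(9,1),(1,1)]) (.cons (.leaf 1 [(11,1),(10,1),(9,1)]) .nil)))))))))) (.cons (.leaf 1 [(9,1),(7,1)]) (.cons (.leaf 1 [(5,1),(9,1),(7,1)]) (.cons (.keep [6,7,9,10,11] (.node (.cons (.leaf 1 [(2,1)]) (.cons (.leaf 1 [(4,1)]) (.cons (.leaf 1 []) (.cons (.leaf 1 [(4,1)]) (.cons (.leaf 1 [(2,1)]) (.cons (.leaf 1 [(4,1)]) (.cons (.leaf 1 [(2,1)]) (.cons (.leaf 1 []) .nil))))))))))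 (.cons (.keep [4,5,7,9,10] (.node (.cons (.leaf 1 [(8,1),(2,1)]) (.cons (.leaf 1 [(4,1),(8,1)]) (.cons (.leaf 1 [(8,1)]) (.cons (.leaf 1 [(4,1),(8,1)]) (.cons (.leaf 1 [(8,1),(2,1)]) (.cons (.leaf 1 [(4,1),(8,1)]) (.cons (.leaf 1 [(8,1),(2,1)]) (.cons (.leaf 1 [(8,1)]) .nil)))))))))) (.cons (.leaf 1 [(6,1),(9,1),(7,1)]) (.cons (.leaf 1 [(9,1),(7,1)]) .nil)))))))))) (.cons (.keep [0,2,7,8,10] (.node (.cons (.keep [6,7,8,10,11] (.node (.cons (.leaf 1 []) (.cons (.leaf 1 [(10,1),(4,1)]) (.cons (.leaf 1 [(1,1)]) (.cons (.leaf 1 [(1,1),(4,1)]) (.cons (.leaf 1 [(1,1)]) (.cons (.leaf 1 [(10,1),(4,1)]) (.cons (.leaf 1 [(1,1)]) (.cons (.leaf 1 [(10,1)]) .nil)))))))))) (.cons (.keep [4,5,7,8,10] (.node (.cons (.leaf 1 [(8,1)]) (.cons (.leaf 1 [(11,1),(4,1),(8,1)]) (.cons (.leaf 1 [(1,1),(8,1)])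 (.cons (.leaf 1 [(1,1),(4,1),(8,1)]) (.cons (.leaf 1 [(8,1),(1,1)]) (.cons (.leaf 1 [(11,1),(4,1),(8,1)]) (.cons (.leaf 1 [(8,1),(1,1)]) (.cons (.leaf 1 [(11,1),(8,1)]) .nil)))))))))) (.cons (.leaf 1 [(10,1)]) (.cons (.leaf 1 [(5,1),(10,1)]) (.cons (.keep [1,6,7,8,11] (.node (.cons (.leaf 1 [(2,1)]) (.cons (.leaf 1 [(4,1)]) (.cons (.leaf 1 []) (.cons (.leaf 1 [(4,1)]) (.cons (.leaf 1 [(2,1)]) (.cons (.leaf 1 [(4,1)]) (.cons (.leaf 1 [(2,1)]) (.cons (.leaf 1 []) .nil)))))))))) (.cons (.keep [1,4,5,7,8] (.node (.cons (.leaf 1 [(9,1),(2,1)]) (.cons (.leaf 1 [(4,1),(9,1)]) (.cons (.leaf 1 [(9,1)]) (.cons (.leaf 1 [(4,1),(9,1)]) (.cons (.leaf 1 [(9,1),(2,1)]) (.cons (.leaf 1 [(4,1),(9,1)]) (.cons (.leaf 1 [(9,1),(2,1)]) (.cons (.leaf 1 [(9,1)]) .nil)))))))))) (.cons (.leaf 1 [(6,1),(10,1)])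 (.cons (.leaf 1 [(10,1)]) .nil)))))))))) .nil)))))))))) (.cons (.leaf 1 [(6,1)]) (.cons (.leaf 1 []) .nil))))))))))

theorem e_23_18 : ESB (caseOf 4 23 18) := esb_of_ok (t := t_23_18) (by decide +kernel)

def t_23_19 : T := (.keep [0,1,2] (.node (.cons (.leaf 1 []) (.cons (.leaf 1 [(5,1)]) (.cons (.leaf 1 [(5,1)]) (.cons (.leaf 1 [(6,1)]) (.cons (.leaf 1 []) (.cons (.leaf 1 [(6,1)]) (.cons (.keep [1,6,7,10] (.node (.cons (.leaf 1 [(2,1)]) (.cons (.leaf 1 [(2,1)]) (.cons (.leaf 1 [(2,1)]) (.cons (.leaf 1 [(6,1)]) (.cons (.keep [0,1,3,10] (.node (.cons (.leaf 1 []) (.cons (.leaf 1 [(5,1)]) (.cons (.leaf 1 [(5,1)]) (.cons (.leaf 1 [(6,1)]) (.cons (.leaf 1 []) (.cons (.leaf 1 [(6,1)]) (.cons (.leaf 1 [(11,1)]) (.cons (.leaf 1 [(5,1),(11,1)]) (.cons (.leaf 1 [(11,1),(5,1)]) (.cons (.leaf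 1 [(7,1)]) (.cons (.leaf 1 [(7,1)]) (.cons (.leaf 1 []) .nil)))))))))))))) (.cons (.keep [0,3,5,6,10] (.node (.cons (.leaf 1 []) (.cons (.leaf 1 [(5,1)]) (.cons (.leaf 1 [(5,1)]) (.cons (.leaf 1 [(6,1)]) (.cons (.leaf 1 []) (.cons (.leaf 1 [(6,1)]) (.cons (.leaf 1 [(12,1)]) (.cons (.leaf 1 [(5,1),(12,1)]) (.cons (.leaf 1 [(12,1),(5,1)]) (.cons (.leaf 1 [(7,1)]) (.cons (.leaf 1 [(7,1)]) (.cons (.leaf 1 []) .nil)))))))))))))) (.cons (.leaf 1 [(6,1)]) (.cons (.keep [2,4,5,9,10] (.node (.cons (.leaf 1 []) (.cons (.leaf 1 [(5,1)]) (.cons (.leaf 1 [(5,1)]) (.cons (.leaf 1 [(6,1)]) (.cons (.leaf 1 []) (.cons (.leaf 1 [(6,1)]) (.cons (.leaf 1 [(8,1),(6,1)]) (.cons (.leaf 2 [(8,1),(12,1)]) (.cons (.leaf 2 [(8,1),(12,1),(6,1)]) (.cons (.leaf 1 [(7,1)]) (.cons (.leaf 1 [(7,1)]) (.cons (.leaf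 1 []) .nil)))))))))))))) (.cons (.keep [4,6,8,10,11] (.node (.cons (.leaf 1 []) (.cons (.leaf 1 [(5,1)]) (.cons (.leaf 1 [(5,1)]) (.cons (.leaf 1 [(6,1)]) (.cons (.leaf 1 []) (.cons (.leaf 1 [(6,1)]) (.cons (.leaf 1 [(8,1),(6,1),(9,1)]) (.cons (.leaf 2 [(8,1),(11,1),(9,1)]) (.cons (.leaf 2 [(8,1),(11,1),(9,1),(6,1)]) (.cons (.leaf 1 [(7,1)]) (.cons (.leaf 1 [(7,1)]) (.cons (.leaf 1 []) .nil)))))))))))))) (.cons (.leaf 1 [(6,1)]) (.cons (.keep [0,2,5,10,11] (.node (.cons (.leaf 1 []) (.cons (.leaf 1 [(5,1)]) (.cons (.leaf 1 [(5,1)]) (.cons (.leaf 1 [(6,1)]) (.cons (.leaf 1 []) (.cons (.leaf 1 [(6,1)]) (.cons (.leaf 1 [(11,1)]) (.cons (.leaf 1 [(5,1),(11,1)]) (.cons (.leaf 1 [(11,1),(5,1)]) (.cons (.leaf 1 [(7,1)]) (.cons (.leaf 1 [(7,1)]) (.cons (.leaf 1 []) .nil)))))))))))))) (.cons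 (.keep [0,2,8,10,11] (.node (.cons (.leaf 1 []) (.cons (.leaf 1 [(5,1)]) (.cons (.leaf 1 [(5,1)]) (.cons (.leaf 1 [(6,1)]) (.cons (.leaf 1 []) (.cons (.leaf 1 [(6,1)]) (.cons (.leaf 1 [(11,1)]) (.cons (.leaf 1 [(5,1),(11,1)]) (.cons (.leaf 1 [(11,1),(5,1)]) (.cons (.leaf 1 [(7,1)]) (.cons (.leaf 1 [(7,1)]) (.cons (.leaf 1 []) .nil)))))))))))))) .nil)))))))))))))) (.cons (.keep [5,7,8,9,10] (.node (.cons (.leaf 1 [(2,1)]) (.cons (.leaf 1 [(2,2)]) (.cons (.leaf 1 [(2,1),(4,1)]) (.cons (.leaf 1 []) (.cons (.keep [0,1,3,9] (.node (.cons (.leaf 1 []) (.cons (.leaf 1 [(5,1)]) (.cons (.leaf 1 [(5,1)]) (.cons (.leaf 1 [(6,1)]) (.cons (.leaf 1 []) (.cons (.leaf 1 [(6,1)]) (.cons (.leaf 1 [(11,1)]) (.cons (.leaf 1 [(5,1),(11,1)]) (.cons (.leaf 1 [(11,1),(5,1)]) (.cons (.leaf 1 [(7,1)]) (.cons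 (.leaf 1 [(7,1)]) (.cons (.leaf 1 []) .nil)))))))))))))) (.cons (.keep [4,6,9,10,12] (.node (.cons (.leaf 1 [(8,1)]) (.cons (.leaf 1 [(5,1),(8,1)]) (.cons (.leaf 1 [(8,1),(5,1)]) (.cons (.leaf 1 [(8,1),(6,1)]) (.cons (.leaf 1 [(8,1)]) (.cons (.leaf 1 [(8,1),(6,1)]) (.cons (.leaf 1 [(10,1)]) (.cons (.leaf 1 [(5,1),(10,1)]) (.cons (.leaf 1 [(10,1),(5,1)]) (.cons (.leaf 1 [(7,1),(8,1)]) (.cons (.leaf 1 [(7,1),(8,1)]) (.cons (.leaf 1 [(8,1)]) .nil)))))))))))))) (.cons (.leaf 1 [(2,1)]) (.cons (.keep [2,7,9,10,11] (.node (.cons (.leaf 1 [(8,1)]) (.cons (.leaf 1 [(5,3)]) (.cons (.leaf 1 [(8,1),(5,1)]) (.cons (.leaf 1 [(6,1)]) (.cons (.leaf 1 [(1,1)]) (.cons (.leaf 1 [(6,1),(5,1)]) (.cons (.leaf 1 [(8,2),(6,1)]) (.cons (.leaf 2 [(8,2),(10,1)]) (.cons (.leaf 2 [(8,2),(10,1),(6,1)]) (.cons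 (.leaf 1 [(8,1),(7,1)]) (.cons (.leaf 1 [(5,1),(7,2)]) (.cons (.leaf 1 [(8,1)]) .nil)))))))))))))) (.cons (.keep [4,6,9,10,12] (.node (.cons (.leaf 1 [(8,1)]) (.cons (.leaf 1 [(5,1),(8,1)]) (.cons (.leaf 1 [(8,1),(5,1)]) (.cons (.leaf 1 [(8,1),(6,1)]) (.cons (.leaf 1 [(8,1)]) (.cons (.leaf 1 [(8,1),(6,1)]) (.cons (.leaf 1 [(8,2),(9,1),(6,1)]) (.cons (.leaf 2 [(9,1),(10,1),(8,2)]) (.cons (.leaf 2 [(8,2),(10,1),(6,1),(9,1)]) (.cons (.leaf 1 [(8,1),(7,1)]) (.cons (.leaf 1 [(8,1),(7,1)]) (.cons (.leaf 1 [(8,1)]) .nil)))))))))))))) (.cons (.leaf 1 [(2,1)]) (.cons (.keep [0,2,9,10,12] (.node (.cons (.leaf 1 [(9,1)]) (.cons (.leaf 1 [(5,1),(9,1)]) (.cons (.leaf 1 [(9,1),(5,1)]) (.cons (.leaf 1 [(6,1),(9,1)]) (.cons (.leaf 1 [(9,1)]) (.cons (.leaf 1 [(9,1),(6,1)]) (.cons (.leaf 1 [(10,1)])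 (.cons (.leaf 1 [(5,1),(10,1)]) (.cons (.leaf 1 [(10,1),(5,1)]) (.cons (.leaf 1 [(9,1),(7,1)]) (.cons (.leaf 1 [(7,1),(9,1)]) (.cons (.leaf 1 [(9,1)]) .nil)))))))))))))) (.cons (.keep [0,2,9,10,12] (.node (.cons (.leaf 1 []) (.cons (.leaf 1 [(5,1)]) (.cons (.leaf 1 [(5,1)]) (.cons (.leaf 1 [(6,1)]) (.cons (.leaf 1 []) (.cons (.leaf 1 [(6,1)]) (.cons (.leaf 1 [(10,1)]) (.cons (.leaf 1 [(5,1),(10,1)]) (.cons (.leaf 1 [(10,1),(5,1)]) (.cons (.leaf 1 [(7,1)]) (.cons (.leaf 1 [(7,1)]) (.cons (.leaf 1 []) .nil)))))))))))))) .nil)))))))))))))) (.cons (.keep [4,5,6,9,10] (.node (.cons (.leaf 1 [(2,1),(9,1)]) (.cons (.leaf 1 [(2,1),(9,1)]) (.cons (.leaf 1 [(2,1),(9,1)]) (.cons (.leaf 1 [(6,1),(9,1)]) (.cons (.keep [4,8,9,11,12] (.node (.cons (.leaf 1 [(10,1)]) (.cons (.leaf 1 [(5,1),(10,1)])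 (.cons (.leaf 1 [(10,1),(5,1)]) (.cons (.leaf 1 [(6,1),(10,1)]) (.cons (.leaf 1 [(10,1)]) (.cons (.leaf 1 [(10,1),(6,1)]) (.cons (.leaf 1 []) (.cons (.leaf 1 [(5,1)]) (.cons (.leaf 1 [(5,1)]) (.cons (.leaf 1 [(10,1),(7,1)]) (.cons (.leaf 1 [(7,1),(10,1)]) (.cons (.leaf 1 [(10,1)]) .nil)))))))))))))) (.cons (.keep [4,8,10,11,12] (.node (.cons (.leaf 1 [(8,1),(10,1)]) (.cons (.leaf 1 [(5,1),(8,1),(10,1)]) (.cons (.leaf 1 [(8,1),(10,1),(5,1)]) (.cons (.leaf 1 [(6,1),(8,1),(10,1)]) (.cons (.leaf 1 [(8,1),(10,1)]) (.cons (.leaf 1 [(8,1),(10,1),(6,1)]) (.cons (.leaf 1 []) (.cons (.leaf 1 [(5,1)]) (.cons (.leaf 1 [(5,1)]) (.cons (.leaf 1 [(8,1),(10,1),(7,1)]) (.cons (.leaf 1 [(7,1),(8,1),(10,1)]) (.cons (.leaf 1 [(8,1),(10,1)]) .nil)))))))))))))) (.cons (.leaf 1 [(6,1),(9,1)]) (.cons (.keep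 [2,7,8,10,12] (.node (.cons (.leaf 1 [(8,1),(11,1)]) (.cons (.leaf 1 [(5,3),(11,1)]) (.cons (.leaf 1 [(8,1),(11,1),(5,1)]) (.cons (.leaf 1 [(6,1),(11,1)]) (.cons (.leaf 1 [(1,1),(11,1)]) (.cons (.leaf 1 [(11,1),(1,1),(6,2)]) (.cons (.leaf 1 []) (.cons (.leaf 1 [(5,1)]) (.cons (.leaf 1 [(5,1)]) (.cons (.leaf 1 [(8,1),(11,1),(7,1)]) (.cons (.leaf 1 [(7,3),(1,1),(11,1)]) (.cons (.leaf 1 [(8,1),(11,1)]) .nil)))))))))))))) (.cons (.keep [4,6,8,10,12] (.node (.cons (.leaf 1 [(8,1),(11,1)]) (.cons (.leaf 1 [(5,1),(8,1),(11,1)]) (.cons (.leaf 1 [(8,1),(11,1),(5,1)]) (.cons (.leaf 1 [(6,1),(8,1),(11,1)]) (.cons (.leaf 1 [(8,1),(11,1)]) (.cons (.leaf 1 [(8,1),(11,1),(6,1)]) (.cons (.leaf 1 []) (.cons (.leaf 1 [(5,1)]) (.cons (.leaf 1 [(5,1)]) (.cons (.leaf 1 [(8,1),(11,1),(7,1)]) (.cons (.leaf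 1 [(7,1),(8,1),(11,1)]) (.cons (.leaf 1 [(8,1),(11,1)]) .nil)))))))))))))) (.cons (.leaf 1 [(6,1),(9,1)]) (.cons (.keep [2,8,10,11,12] (.node (.cons (.leaf 1 [(10,1),(8,1)]) (.cons (.leaf 1 [(5,1),(10,1),(8,1)]) (.cons (.leaf 1 [(10,1),(8,1),(5,1)]) (.cons (.leaf 1 [(6,1),(10,1),(8,1)]) (.cons (.leaf 1 [(10,1),(8,1)]) (.cons (.leaf 1 [(10,1),(8,1),(6,1)]) (.cons (.leaf 1 []) (.cons (.leaf 1 [(5,1)]) (.cons (.leaf 1 [(5,1)]) (.cons (.leaf 1 [(10,1),(8,1),(7,1)]) (.cons (.leaf 1 [(7,1),(10,1),(8,1)]) (.cons (.leaf 1 [(10,1),(8,1)]) .nil)))))))))))))) (.cons (.keep [0,2,8,9,12] (.node (.cons (.leaf 1 [(11,1)]) (.cons (.leaf 1 [(5,1),(11,1)]) (.cons (.leaf 1 [(11,1),(5,1)]) (.cons (.leaf 1 [(6,1),(11,1)]) (.cons (.leaf 1 [(11,1)]) (.cons (.leaf 1 [(11,1),(6,1)]) (.cons (.leaf 1 []) (.cons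 (.leaf 1 [(5,1)]) (.cons (.leaf 1 [(5,1)]) (.cons (.leaf 1 [(11,1),(7,1)]) (.cons (.leaf 1 [(7,1),(11,1)]) (.cons (.leaf 1 [(11,1)]) .nil)))))))))))))) .nil)))))))))))))) (.cons (.leaf 1 [(7,1)]) (.cons (.leaf 1 [(7,1)]) (.cons (.leaf 1 []) .nil))))))))))))))

theorem e_23_19 : ESB (caseOf 4 23 19) := esb_of_ok (t := t_23_19) (by decide +kernel)

def z_23_20_0 : F := ⟨1, 0, 0, -1, 1⟩

def h_23_20_0 : List F := [⟨1, 0, 0, 0, 0⟩, ⟨0, -1, 0, 1, 0⟩, ⟨0, 0, 0, -1, 1⟩, ⟨1, 0, -1, -1, 1⟩]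

def t_23_20_0 : T := (.node (.cons (.keep [3,6,8,9] (.node (.cons (.keep [2,3,6,8,9] (.node (.cons (.leaf 2 [(11,1),(3,2)]) (.cons (.leaf 2 [(11,1),(4,2)]) (.cons (.leaf 1 [(1,1),(3,1)]) (.cons (.leaf 1 [(1,1),(4,1)]) (.cons (.leaf 2 [(11,1)]) (.cons (.leaf 2 [(11,1),(4,2)]) (.cons (.leaf 2 [(11,1),(3,2)]) (.cons (.leaf 2 [(11,1)]) .nil)))))))))) (.cons (.keep [2,4,5,8,9] (.node (.cons (.leaf 1 [(8,1),(3,1),(11,1)]) (.cons (.leaf 1 [(8,1),(11,1),(4,1)]) (.cons (.leaf 1 [(1,1),(3,1)]) (.cons (.leaf 1 [(1,1),(4,1)]) (.cons (.leaf 1 [(8,1),(11,1)]) (.cons (.leaf 1 [(8,1),(4,1),(11,1)]) (.cons (.leaf 1 [(8,1),(11,1),(3,1)]) (.cons (.leaf 1 [(8,1),(11,1)]) .nil)))))))))) (.cons (.leaf 2 [(1,3),(9,1)]) (.cons (.leaf 1 [(1,1),(4,1),(9,1)]) (.cons (.keep [1,4,7,8,10] (.node (.cons (.leaf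 1 [(7,1),(3,1)]) (.cons (.leaf 1 [(7,1),(4,1)]) (.cons (.leaf 1 [(1,1),(3,1)]) (.cons (.leaf 1 [(1,1),(4,1)]) (.cons (.leaf 1 [(7,1)]) (.cons (.leaf 1 [(7,1),(4,1)]) (.cons (.leaf 1 [(7,1),(3,1)]) (.cons (.leaf 1 [(7,1)]) .nil)))))))))) (.cons (.keep [4,7,8,9,10] (.node (.cons (.leaf 1 [(7,1),(3,1),(10,1)]) (.cons (.leaf 1 [(7,1),(10,1),(4,1)]) (.cons (.leaf 1 [(1,1),(3,1)]) (.cons (.leaf 1 [(1,1),(4,1)]) (.cons (.leaf 1 [(7,1),(10,1)]) (.cons (.leaf 1 [(7,1),(4,1),(10,1)]) (.cons (.leaf 1 [(7,1),(10,1),(3,1)]) (.cons (.leaf 1 [(7,1),(10,1)]) .nil)))))))))) (.cons (.keep [3,7,8,9,10] (.node (.cons (.leaf 1 [(10,1),(3,1),(7,1)]) (.cons (.leaf 1 [(10,1),(7,1),(4,1)]) (.cons (.leaf 1 [(1,1),(3,1)]) (.cons (.leaf 1 [(1,1),(4,1)]) (.cons (.leaf 1 [(10,1),(7,1)]) (.cons (.leaf 1 [(10,1),(4,1),(7,1)])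 (.cons (.leaf 1 [(10,1),(7,1),(3,1)]) (.cons (.leaf 1 [(10,1),(7,1)]) .nil)))))))))) (.cons (.keep [0,3,8,9,10] (.node (.cons (.leaf 1 [(10,1),(3,1)]) (.cons (.leaf 1 [(10,1),(4,1)]) (.cons (.leaf 1 [(1,1),(3,1)]) (.cons (.leaf 1 [(1,1),(4,1)]) (.cons (.leaf 1 [(10,1)]) (.cons (.leaf 1 [(10,1),(4,1)]) (.cons (.leaf 1 [(10,1),(3,1)]) (.cons (.leaf 1 [(10,1)]) .nil)))))))))) .nil)))))))))) (.cons (.keep [4,5,8,9] (.node (.cons (.keep [3,6,7,8,9] (.node (.cons (.leaf 2 [(11,1),(10,1)]) (.cons (.leaf 2 [(11,1),(4,2),(10,2)]) (.cons (.leaf 2 [(1,3),(10,1)]) (.cons (.leaf 1 [(1,1),(4,1),(10,1)]) (.cons (.leaf 2 [(11,1),(1,2)]) (.cons (.leaf 2 [(11,1),(1,2)]) (.cons (.leaf 2 [(11,1),(6,2),(1,2)]) (.cons (.leaf 2 [(11,1),(10,2)]) .nil)))))))))) (.cons (.keep [4,5,7,8,9] (.node (.cons (.leaf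 2 [(7,2),(10,1),(11,2)]) (.cons (.leaf 1 [(7,1),(4,1),(11,1),(10,1)]) (.cons (.leaf 2 [(1,3),(10,1)]) (.cons (.leaf 1 [(1,1),(4,1),(10,1)]) (.cons (.leaf 1 [(7,1),(1,1),(11,1)]) (.cons (.leaf 1 [(7,1),(1,1),(11,1)]) (.cons (.leaf 1 [(7,1),(6,1),(11,1),(1,1)]) (.cons (.leaf 1 [(7,1),(10,1),(11,1)]) .nil)))))))))) (.cons (.leaf 2 [(1,3),(9,1),(8,2)]) (.cons (.leaf 1 [(1,1),(4,1),(8,1),(9,1)]) (.cons (.keep [1,4,7,8,10] (.node (.cons (.leaf 2 [(7,2),(10,1)]) (.cons (.leaf 1 [(7,1),(4,1),(10,1)]) (.cons (.leaf 2 [(1,3),(10,1)]) (.cons (.leaf 1 [(1,1),(4,1),(10,1)]) (.cons (.leaf 1 [(7,1),(1,1)]) (.cons (.leaf 1 [(7,1),(1,1)]) (.cons (.leaf 1 [(7,1),(6,1),(1,1)]) (.cons (.leaf 1 [(7,1),(10,1)]) .nil)))))))))) (.cons (.keep [4,7,8,9,10] (.node (.cons (.leaf 2 [(7,2),(9,1),(10,2)]) (.cons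 (.leaf 1 [(7,1),(4,1),(10,1),(9,1)]) (.cons (.leaf 2 [(1,3),(9,1)]) (.cons (.leaf 1 [(1,1),(4,1),(9,1)]) (.cons (.leaf 1 [(7,1),(1,1),(10,1)]) (.cons (.leaf 1 [(7,1),(1,1),(10,1)]) (.cons (.leaf 1 [(7,1),(6,1),(10,1),(1,1)]) (.cons (.leaf 1 [(7,1),(9,1),(10,1)]) .nil)))))))))) (.cons (.keep [3,7,8,9,10] (.node (.cons (.leaf 2 [(10,2),(9,1),(7,2)]) (.cons (.leaf 1 [(10,1),(4,1),(7,1),(9,1)]) (.cons (.leaf 2 [(1,3),(9,1)]) (.cons (.leaf 1 [(1,1),(4,1),(9,1)]) (.cons (.leaf 1 [(10,1),(1,1),(7,1)]) (.cons (.leaf 1 [(10,1),(1,1),(7,1)]) (.cons (.leaf 1 [(10,1),(6,1),(7,1),(1,1)]) (.cons (.leaf 1 [(10,1),(9,1),(7,1)]) .nil)))))))))) (.cons (.keep [0,3,8,9,10] (.node (.cons (.leaf 2 [(10,2),(9,1)]) (.cons (.leaf 1 [(10,1),(4,1),(9,1)]) (.cons (.leaf 2 [(1,3),(9,1)]) (.cons (.leaf 1 [(1,1),(4,1),(9,1)])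 (.cons (.leaf 1 [(10,1),(1,1)]) (.cons (.leaf 1 [(10,1),(1,1)]) (.cons (.leaf 1 [(10,1),(6,1),(1,1)]) (.cons (.leaf 1 [(10,1),(9,1)]) .nil)))))))))) .nil)))))))))) (.cons (.keep [1,6,8,9,10] (.node (.cons (.keep [3,6,8,9,11] (.node (.cons (.leaf 1 [(10,1),(3,1)]) (.cons (.leaf 1 [(10,1),(4,1)]) (.cons (.leaf 1 [(1,2),(3,1)]) (.cons (.leaf 1 [(1,2),(4,1)]) (.cons (.leaf 1 [(10,1)]) (.cons (.leaf 1 [(10,1),(4,1)]) (.cons (.leaf 1 [(10,1),(3,1)]) (.cons (.leaf 1 [(10,1)]) .nil)))))))))) (.cons (.keep [4,5,8,9,11] (.node (.cons (.leaf 1 [(10,1),(3,1)]) (.cons (.leaf 1 [(10,1),(4,1)]) (.cons (.leaf 1 [(1,2),(3,1),(8,1)]) (.cons (.leaf 1 [(1,2),(8,1),(4,1)]) (.cons (.leaf 1 [(10,1)]) (.cons (.leaf 1 [(10,1),(4,1)]) (.cons (.leaf 1 [(10,1),(3,1)]) (.cons (.leaf 1 [(10,1)]) .nil))))))))))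 (.cons (.leaf 1 [(1,1),(9,1)]) (.cons (.leaf 1 [(1,1),(9,1)]) (.cons (.keep [1,4,8,10,11] (.node (.cons (.leaf 1 [(7,1),(3,1)]) (.cons (.leaf 1 [(7,1),(4,1)]) (.cons (.leaf 1 [(1,1),(3,1)]) (.cons (.leaf 1 [(1,1),(4,1)]) (.cons (.leaf 1 [(7,1)]) (.cons (.leaf 1 [(7,1),(4,1)]) (.cons (.leaf 1 [(7,1),(3,1)]) (.cons (.leaf 1 [(7,1)]) .nil)))))))))) (.cons (.keep [4,8,9,10,11] (.node (.cons (.leaf 1 [(3,1),(9,1)]) (.cons (.leaf 1 [(9,1),(4,1)]) (.cons (.leaf 1 [(3,1),(9,1)]) (.cons (.leaf 1 [(4,1),(9,1)]) (.cons (.leaf 1 [(9,1)]) (.cons (.leaf 1 [(4,1),(9,1)]) (.cons (.leaf 1 [(9,1),(3,1)]) (.cons (.leaf 1 [(9,1)]) .nil)))))))))) (.cons (.keep [3,8,9,10,11] (.node (.cons (.leaf 1 [(9,1),(3,1)]) (.cons (.leaf 1 [(9,1),(4,1)]) (.cons (.leaf 1 [(9,1),(3,1)]) (.cons (.leaf 1 [(9,1),(4,1)])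 (.cons (.leaf 1 [(9,1)]) (.cons (.leaf 1 [(9,1),(4,1)]) (.cons (.leaf 1 [(9,1),(3,1)]) (.cons (.leaf 1 [(9,1)]) .nil)))))))))) (.cons (.keep [0,3,8,9,10] (.node (.cons (.leaf 1 [(10,1),(3,1)]) (.cons (.leaf 1 [(10,1),(4,1)]) (.cons (.leaf 1 [(1,1),(3,1)]) (.cons (.leaf 1 [(1,1),(4,1)]) (.cons (.leaf 1 [(10,1)]) (.cons (.leaf 1 [(10,1),(4,1)]) (.cons (.leaf 1 [(10,1),(3,1)]) (.cons (.leaf 1 [(10,1)]) .nil)))))))))) .nil)))))))))) (.cons (.keep [1,4,5,8,9] (.node (.cons (.keep [3,6,8,9,10] (.node (.cons (.leaf 2 [(11,2),(10,1)]) (.cons (.leaf 1 [(11,1),(4,1),(10,1)]) (.cons (.leaf 2 [(1,5),(10,1)]) (.cons (.leaf 1 [(1,2),(4,1),(10,1)]) (.cons (.leaf 1 [(11,1),(1,1)]) (.cons (.leaf 1 [(11,1),(1,1)]) (.cons (.leaf 1 [(11,1),(6,1),(1,1)]) (.cons (.leaf 1 [(11,1),(10,1)]) .nil))))))))))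 (.cons (.keep [4,5,8,9,10] (.node (.cons (.leaf 2 [(11,2),(10,1)]) (.cons (.leaf 1 [(11,1),(4,1),(10,1)]) (.cons (.leaf 2 [(1,5),(10,1),(8,2)]) (.cons (.leaf 1 [(1,2),(4,1),(8,1),(10,1)]) (.cons (.leaf 1 [(11,1),(1,1)]) (.cons (.leaf 1 [(11,1),(1,1)]) (.cons (.leaf 1 [(11,1),(6,1),(1,1)]) (.cons (.leaf 1 [(11,1),(10,1)]) .nil)))))))))) (.cons (.leaf 1 [(9,1),(10,1),(1,1)]) (.cons (.leaf 1 [(9,1),(10,1),(1,1)]) (.cons (.keep [1,4,8,9,11] (.node (.cons (.leaf 2 [(7,2),(10,1)]) (.cons (.leaf 1 [(7,1),(4,1),(10,1)]) (.cons (.leaf 2 [(1,3),(10,1)]) (.cons (.leaf 1 [(1,1),(4,1),(10,1)]) (.cons (.leaf 1 [(7,1),(1,1)]) (.cons (.leaf 1 [(7,1),(1,1)]) (.cons (.leaf 1 [(7,1),(6,1),(1,1)]) (.cons (.leaf 1 [(7,1),(10,1)]) .nil)))))))))) (.cons (.keep [4,8,9,10,11] (.node (.cons (.leaf 2 [(9,1),(10,2)])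 (.cons (.leaf 1 [(4,1),(10,1),(9,1)]) (.cons (.leaf 2 [(1,1),(9,1),(10,2)]) (.cons (.leaf 1 [(4,1),(10,1),(9,1)]) (.cons (.leaf 1 [(1,1),(10,1)]) (.cons (.leaf 1 [(1,1),(10,1)]) (.cons (.leaf 1 [(6,1),(10,1),(1,1)]) (.cons (.leaf 1 [(9,1),(10,1)]) .nil)))))))))) (.cons (.keep [3,8,9,10,11] (.node (.cons (.leaf 2 [(10,2),(9,1)]) (.cons (.leaf 1 [(10,1),(4,1),(9,1)]) (.cons (.leaf 2 [(1,1),(9,1),(10,2)]) (.cons (.leaf 1 [(10,1),(4,1),(9,1)]) (.cons (.leaf 1 [(10,1),(1,1)]) (.cons (.leaf 1 [(10,1),(1,1)]) (.cons (.leaf 1 [(10,1),(6,1),(1,1)]) (.cons (.leaf 1 [(10,1),(9,1)]) .nil)))))))))) (.cons (.keep [0,3,9,10,11] (.node (.cons (.leaf 2 [(10,2),(9,1)]) (.cons (.leaf 1 [(10,1),(4,1),(9,1)]) (.cons (.leaf 2 [(1,3),(9,1)]) (.cons (.leaf 1 [(1,1),(4,1),(9,1)]) (.cons (.leaf 1 [(10,1),(1,1)])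 (.cons (.leaf 1 [(10,1),(1,1)]) (.cons (.leaf 1 [(10,1),(6,1),(1,1)]) (.cons (.leaf 1 [(10,1),(9,1)]) .nil)))))))))) .nil)))))))))) (.cons (.keep [1,4,8,10] (.node (.cons (.leaf 2 [(9,1)]) (.cons (.leaf 1 [(4,1),(9,1)]) (.cons (.leaf 2 [(1,1),(9,1)]) (.cons (.leaf 1 [(4,1),(9,1)]) (.cons (.leaf 1 [(1,1)]) (.cons (.leaf 1 [(1,1)]) (.cons (.leaf 1 [(6,1),(1,1)]) (.cons (.leaf 1 [(9,1)]) .nil)))))))))) (.cons (.keep [1,4,5,8,10] (.node (.cons (.leaf 2 [(9,2),(10,1)]) (.cons (.leaf 1 [(9,1),(4,1),(10,1)]) (.cons (.leaf 2 [(9,2),(10,1),(1,1)]) (.cons (.leaf 1 [(9,1),(4,1),(10,1)]) (.cons (.leaf 1 [(9,1),(1,1)]) (.cons (.leaf 1 [(9,1),(1,1)]) (.cons (.leaf 1 [(6,1),(1,1),(9,1)]) (.cons (.leaf 1 [(9,1),(10,1)]) .nil)))))))))) (.cons (.keep [1,3,6,8,10] (.node (.cons (.leaf 2 [(9,2),(10,1)])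 (.cons (.leaf 1 [(9,1),(4,1),(10,1)]) (.cons (.leaf 2 [(9,2),(1,1),(10,1)]) (.cons (.leaf 1 [(9,1),(4,1),(10,1)]) (.cons (.leaf 1 [(9,1),(1,1)]) (.cons (.leaf 1 [(9,1),(1,1)]) (.cons (.leaf 1 [(9,1),(6,1),(1,1)]) (.cons (.leaf 1 [(9,1),(10,1)]) .nil)))))))))) (.cons (.keep [0,1,3,8] (.node (.cons (.leaf 2 [(10,1)]) (.cons (.leaf 1 [(4,1),(10,1)]) (.cons (.leaf 2 [(1,1),(10,1)]) (.cons (.leaf 1 [(4,1),(10,1)]) (.cons (.leaf 1 [(1,1)]) (.cons (.leaf 1 [(1,1)]) (.cons (.leaf 1 [(6,1),(1,1)]) (.cons (.leaf 1 [(10,1)]) .nil)))))))))) .nil)))))))))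

theorem c_23_20_0 : Concl 23 20 z_23_20_0 h_23_20_0 .nd := piece _ hP_nil t_23_20_0 _ _ (by
  decide +kernel)

def t_23_20 : T := (.keep [0,1,2] (.node (.cons (.keep [2,3,6,9] (.node (.cons (.keep [3,6,7,9,10] (.node (.cons (.leaf 1 [(3,1)]) (.cons (.leaf 1 [(4,1)]) (.cons (.leaf 1 [(3,1)]) (.cons (.leaf 1 [(4,1)]) (.cons (.leaf 1 []) (.cons (.leaf 1 [(4,1)]) (.cons (.leaf 1 [(3,1)]) (.cons (.leaf 1 []) .nil)))))))))) (.cons (.keep [2,4,5,7,9] (.node (.cons (.leaf 1 [(3,1)]) (.cons (.leaf 1 [(4,1)]) (.cons (.leaf 1 [(3,1)]) (.cons (.leaf 1 [(4,1)]) (.cons (.leaf 1 []) (.cons (.leaf 1 [(4,1)]) (.cons (.leaf 1 [(3,1)]) (.cons (.leaf 1 []) .nil)))))))))) (.cons (.leaf 1 [(1,1)]) (.cons (.leaf 1 [(1,1)]) (.cons (.keep [1,4,9,10] (.node (.cons (.leaf 1 [(3,1)]) (.cons (.leaf 1 [(4,1)])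 (.cons (.leaf 1 [(3,1)]) (.cons (.leaf 1 [(4,1)]) (.cons (.leaf 1 []) (.cons (.leaf 1 [(4,1)]) (.cons (.leaf 1 [(3,1)]) (.cons (.leaf 1 []) .nil)))))))))) (.cons (.keep [1,4,5,9,10] (.node (.cons (.leaf 1 [(3,1)]) (.cons (.leaf 1 [(4,1)]) (.cons (.leaf 1 [(3,1)]) (.cons (.leaf 1 [(4,1)]) (.cons (.leaf 1 []) (.cons (.leaf 1 [(4,1)]) (.cons (.leaf 1 [(3,1)]) (.cons (.leaf 1 []) .nil)))))))))) (.cons (.keep [1,3,6,9,10] (.node (.cons (.leaf 1 [(3,1)]) (.cons (.leaf 1 [(4,1)]) (.cons (.leaf 1 [(3,1)]) (.cons (.leaf 1 [(4,1)]) (.cons (.leaf 1 []) (.cons (.leaf 1 [(4,1)]) (.cons (.leaf 1 [(3,1)]) (.cons (.leaf 1 []) .nil)))))))))) (.cons (.keep [0,1,3,9] (.node (.cons (.leaf 1 [(3,1)]) (.cons (.leaf 1 [(4,1)]) (.cons (.leaf 1 [(3,1)]) (.cons (.leaf 1 [(4,1)]) (.cons (.leaf 1 []) (.cons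 (.leaf 1 [(4,1)]) (.cons (.leaf 1 [(3,1)]) (.cons (.leaf 1 []) .nil)))))))))) .nil)))))))))) (.cons (.keep [0,2,5,9] (.node (.cons (.keep [3,6,8,9,10] (.node (.cons (.leaf 2 [(10,1)]) (.cons (.leaf 1 [(4,1),(10,1)]) (.cons (.leaf 2 [(1,1),(10,1)]) (.cons (.leaf 1 [(4,1),(10,1)]) (.cons (.leaf 1 [(1,1)]) (.cons (.leaf 1 [(1,1)]) (.cons (.leaf 1 [(6,1),(1,1)]) (.cons (.leaf 1 [(10,1)]) .nil)))))))))) (.cons (.keep [4,5,7,8,9] (.node (.cons (.leaf 2 [(11,1)]) (.cons (.leaf 1 [(4,1),(11,1)]) (.cons (.leaf 2 [(1,1),(11,1)]) (.cons (.leaf 1 [(4,1),(11,1)]) (.cons (.leaf 1 [(1,1)]) (.cons (.leaf 1 [(1,1)]) (.cons (.leaf 1 [(6,1),(1,1)]) (.cons (.leaf 1 [(11,1)]) .nil)))))))))) (.cons (.leaf 1 [(1,1),(9,1)]) (.cons (.leaf 1 [(1,1),(9,1)]) (.cons (.keep [1,4,9,10] (.node (.cons (.leaf 2 [(9,1)])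 (.cons (.leaf 1 [(4,1),(9,1)]) (.cons (.leaf 2 [(1,1),(9,1)]) (.cons (.leaf 1 [(4,1),(9,1)]) (.cons (.leaf 1 [(1,1)]) (.cons (.leaf 1 [(1,1)]) (.cons (.leaf 1 [(6,1),(1,1)]) (.cons (.leaf 1 [(9,1)]) .nil)))))))))) (.cons (.keep [1,4,5,9,10] (.node (.cons (.leaf 2 [(10,1)]) (.cons (.leaf 1 [(4,1),(10,1)]) (.cons (.leaf 2 [(1,1),(10,1)]) (.cons (.leaf 1 [(4,1),(10,1)]) (.cons (.leaf 1 [(1,1)]) (.cons (.leaf 1 [(1,1)]) (.cons (.leaf 1 [(6,1),(1,1)]) (.cons (.leaf 1 [(10,1)]) .nil)))))))))) (.cons (.keep [1,3,6,9,10] (.node (.cons (.leaf 2 [(10,1)]) (.cons (.leaf 1 [(4,1),(10,1)]) (.cons (.leaf 2 [(1,1),(10,1)]) (.cons (.leaf 1 [(4,1),(10,1)]) (.cons (.leaf 1 [(1,1)]) (.cons (.leaf 1 [(1,1)]) (.cons (.leaf 1 [(6,1),(1,1)]) (.cons (.leaf 1 [(10,1)]) .nil)))))))))) (.cons (.keep [0,1,3,9]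 (.node (.cons (.leaf 2 [(10,1)]) (.cons (.leaf 1 [(4,1),(10,1)]) (.cons (.leaf 2 [(1,1),(10,1)]) (.cons (.leaf 1 [(4,1),(10,1)]) (.cons (.leaf 1 [(1,1)]) (.cons (.leaf 1 [(1,1)]) (.cons (.leaf 1 [(6,1),(1,1)]) (.cons (.leaf 1 [(10,1)]) .nil)))))))))) .nil)))))))))) (.cons (.keep [1,6,7,9] (.node (.cons (.keep [2,3,6,8] (.node (.cons (.keep [2,3,6,7,9] (.node (.cons (.leaf 1 [(2,1),(3,1)]) (.cons (.leaf 1 [(2,1),(4,1)]) (.cons (.leaf 1 [(3,1),(8,1)]) (.cons (.leaf 1 [(4,1),(8,1)]) (.cons (.leaf 1 [(8,1)]) (.cons (.leaf 1 [(8,1),(4,1)]) (.cons (.leaf 1 [(8,1),(3,1)]) (.cons (.leaf 1 [(8,1)]) .nil)))))))))) (.cons (.keep [0,4,7,9,10] (.node (.cons (.leaf 1 [(3,1),(8,1)]) (.cons (.leaf 1 [(8,1),(4,1)]) (.cons (.leaf 1 [(3,1),(8,1)]) (.cons (.leaf 1 [(4,1),(8,1)]) (.cons (.leaf 1 [(8,1)])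 (.cons (.leaf 1 [(4,1),(8,1)]) (.cons (.leaf 1 [(8,1),(3,1)]) (.cons (.leaf 1 [(8,1)]) .nil)))))))))) (.cons (.leaf 1 [(1,1),(3,1)]) (.cons (.leaf 1 [(1,1),(4,1)]) (.cons (.keep [1,4,8,9,10] (.node (.cons (.leaf 1 [(3,1)]) (.cons (.leaf 1 [(4,1)]) (.cons (.leaf 1 [(3,1)]) (.cons (.leaf 1 [(4,1)]) (.cons (.leaf 1 []) (.cons (.leaf 1 [(4,1)]) (.cons (.leaf 1 [(3,1)]) (.cons (.leaf 1 []) .nil)))))))))) (.cons (.keep [1,5,8,9,10] (.node (.cons (.leaf 1 [(7,1),(3,1),(11,1)]) (.cons (.leaf 1 [(7,1),(11,1),(4,1)]) (.cons (.leaf 1 [(1,1),(3,1),(11,1)]) (.cons (.leaf 1 [(1,1),(11,1),(4,1)]) (.cons (.leaf 1 [(7,1),(11,1)]) (.cons (.leaf 1 [(7,1),(4,1),(11,1)]) (.cons (.leaf 1 [(7,1),(11,1),(3,1)]) (.cons (.leaf 1 [(7,1),(11,1)]) .nil)))))))))) (.cons (.keep [1,6,8,9,10] (.node (.cons (.leaf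 1 [(2,1),(3,1),(7,1)]) (.cons (.leaf 1 [(2,1),(7,1),(4,1)]) (.cons (.leaf 1 [(10,1),(9,1),(7,1)]) (.cons (.leaf 2 [(4,2),(7,1),(11,1)]) (.cons (.leaf 1 [(10,1),(2,1),(7,1)]) (.cons (.leaf 1 [(2,1),(7,1),(10,1)]) (.cons (.leaf 1 [(0,1),(10,1),(7,2),(2,2)]) (.cons (.leaf 2 [(11,1),(7,1)]) .nil)))))))))) (.cons (.keep [0,1,9,10] (.node (.cons (.leaf 1 [(3,1)]) (.cons (.leaf 1 [(4,1)]) (.cons (.leaf 1 [(3,1)]) (.cons (.leaf 1 [(4,1)]) (.cons (.leaf 1 []) (.cons (.leaf 1 [(4,1)]) (.cons (.leaf 1 [(3,1)]) (.cons (.leaf 1 []) .nil)))))))))) .nil)))))))))) (.cons (.keep [2,4,5,8] (.node (.cons (.keep [3,6,7,8,9] (.node (.cons (.leaf 2 [(2,2),(11,1)]) (.cons (.leaf 1 [(2,1),(4,1),(11,1)]) (.cons (.leaf 2 [(7,1),(11,1)]) (.cons (.leaf 1 [(7,1),(4,1),(11,1)]) (.cons (.leaf 1 [(2,1)]) (.cons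 (.leaf 1 [(2,1)]) (.cons (.leaf 1 [(6,1),(2,1)]) (.cons (.leaf 1 [(7,1),(11,1)]) .nil)))))))))) (.cons (.keep [0,4,7,9,10] (.node (.cons (.leaf 2 [(10,1),(8,2)]) (.cons (.leaf 1 [(4,1),(8,1),(10,1)]) (.cons (.leaf 2 [(1,1),(10,1),(8,2)]) (.cons (.leaf 1 [(4,1),(8,1),(10,1)]) (.cons (.leaf 1 [(1,1),(8,1)]) (.cons (.leaf 1 [(1,1),(8,1)]) (.cons (.leaf 1 [(6,1),(8,1),(1,1)]) (.cons (.leaf 1 [(10,1),(8,1)]) .nil)))))))))) (.cons (.leaf 1 [(3,1),(9,1),(1,1)]) (.cons (.leaf 1 [(4,1),(1,1),(9,1)]) (.cons (.keep [1,4,8,9,10] (.node (.cons (.leaf 2 [(10,1)]) (.cons (.leaf 1 [(4,1),(10,1)]) (.cons (.leaf 2 [(1,1),(10,1)]) (.cons (.leaf 1 [(4,1),(10,1)]) (.cons (.leaf 1 [(1,1)]) (.cons (.leaf 1 [(1,1)]) (.cons (.leaf 1 [(6,1),(1,1)]) (.cons (.leaf 1 [(10,1)]) .nil)))))))))) (.cons (.keep [1,5,8,9,10]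 (.node (.cons (.leaf 2 [(7,2),(10,1),(11,2)]) (.cons (.leaf 1 [(7,1),(4,1),(11,1),(10,1)]) (.cons (.leaf 2 [(1,3),(10,1),(11,2)]) (.cons (.leaf 1 [(1,1),(4,1),(11,1),(10,1)]) (.cons (.leaf 1 [(7,1),(1,1),(11,1)]) (.cons (.leaf 1 [(7,1),(1,1),(11,1)]) (.cons (.leaf 1 [(7,1),(6,1),(11,1),(1,1)]) (.cons (.leaf 1 [(7,1),(10,1),(11,1)]) .nil)))))))))) (.cons (.keep [1,6,8,9,10] (.node (.cons (.leaf 2 [(2,2),(10,1),(7,2)]) (.cons (.leaf 1 [(2,1),(4,1),(7,1),(10,1)]) (.cons (.leaf 1 [(9,1),(10,1),(7,1)]) (.cons (.leaf 2 [(11,1),(4,2),(7,1),(10,2)]) (.cons (.leaf 1 [(2,1),(7,1)]) (.cons (.leaf 1 [(2,1),(7,1)]) (.cons (.leaf 1 [(6,1),(7,1),(2,1)]) (.cons (.leaf 2 [(11,1),(10,2),(7,1)]) .nil)))))))))) (.cons (.keep [0,1,9,10] (.node (.cons (.leaf 2 [(9,1)]) (.cons (.leaf 1 [(4,1),(9,1)]) (.cons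 (.leaf 2 [(1,1),(9,1)]) (.cons (.leaf 1 [(4,1),(9,1)]) (.cons (.leaf 1 [(1,1)]) (.cons (.leaf 1 [(1,1)]) (.cons (.leaf 1 [(6,1),(1,1)]) (.cons (.leaf 1 [(9,1)]) .nil)))))))))) .nil)))))))))) (.cons (.keep [1,6,8,9,10] (.node (.cons (.keep [2,3,6,8,10] (.node (.cons (.leaf 1 [(3,1)]) (.cons (.leaf 1 [(4,1)]) (.cons (.leaf 1 [(3,1)]) (.cons (.leaf 1 [(4,1)]) (.cons (.leaf 1 []) (.cons (.leaf 1 [(4,1)]) (.cons (.leaf 1 [(3,1)]) (.cons (.leaf 1 []) .nil)))))))))) (.cons (.keep [2,4,8,9,10] (.node (.cons (.leaf 1 [(3,1)]) (.cons (.leaf 1 [(4,1)]) (.cons (.leaf 1 [(3,1)]) (.cons (.leaf 1 [(4,1)]) (.cons (.leaf 1 []) (.cons (.leaf 1 [(4,1)]) (.cons (.leaf 1 [(3,1)]) (.cons (.leaf 1 []) .nil)))))))))) (.cons (.leaf 1 [(1,1)]) (.cons (.leaf 1 [(1,1)]) (.cons (.keep [1,4,8,9,11] (.node (.cons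 (.leaf 1 [(3,1)]) (.cons (.leaf 1 [(4,1)]) (.cons (.leaf 1 [(3,1)]) (.cons (.leaf 1 [(4,1)]) (.cons (.leaf 1 []) (.cons (.leaf 1 [(4,1)]) (.cons (.leaf 1 [(3,1)]) (.cons (.leaf 1 []) .nil)))))))))) (.cons (.keep [1,5,8,9,11] (.node (.cons (.leaf 1 [(3,1)]) (.cons (.leaf 1 [(4,1)]) (.cons (.leaf 1 [(3,1)]) (.cons (.leaf 1 [(4,1)]) (.cons (.leaf 1 []) (.cons (.leaf 1 [(4,1)]) (.cons (.leaf 1 [(3,1)]) (.cons (.leaf 1 []) .nil)))))))))) (.cons (.keep [1,6,8,9,11] (.node (.cons (.leaf 1 [(3,1)]) (.cons (.leaf 1 [(4,1)]) (.cons (.leaf 1 [(3,1)]) (.cons (.leaf 1 [(4,1)]) (.cons (.leaf 1 []) (.cons (.leaf 1 [(4,1)]) (.cons (.leaf 1 [(3,1)]) (.cons (.leaf 1 []) .nil)))))))))) (.cons (.keep [0,1,8,9] (.node (.cons (.leaf 1 [(3,1)]) (.cons (.leaf 1 [(4,1)]) (.cons (.leaf 1 [(3,1)]) (.cons (.leaf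 1 [(4,1)]) (.cons (.leaf 1 []) (.cons (.leaf 1 [(4,1)]) (.cons (.leaf 1 [(3,1)]) (.cons (.leaf 1 []) .nil)))))))))) .nil)))))))))) (.cons (.keep [1,4,5,8,9] (.node (.cons (.keep [3,6,8,9,11] (.node (.cons (.leaf 2 [(10,1)]) (.cons (.leaf 1 [(4,1),(10,1)]) (.cons (.leaf 2 [(1,1),(10,1)]) (.cons (.leaf 1 [(4,1),(10,1)]) (.cons (.leaf 1 [(1,1)]) (.cons (.leaf 1 [(1,1)]) (.cons (.leaf 1 [(6,1),(1,1)]) (.cons (.leaf 1 [(10,1)]) .nil)))))))))) (.cons (.keep [0,4,9,10,11] (.node (.cons (.leaf 2 [(9,1)]) (.cons (.leaf 1 [(4,1),(9,1)]) (.cons (.leaf 2 [(1,1),(9,1)]) (.cons (.leaf 1 [(4,1),(9,1)]) (.cons (.leaf 1 [(1,1)]) (.cons (.leaf 1 [(1,1)]) (.cons (.leaf 1 [(6,1),(1,1)]) (.cons (.leaf 1 [(9,1)]) .nil)))))))))) (.cons (.leaf 1 [(1,1),(9,1)]) (.cons (.leaf 1 [(1,1),(9,1)]) (.cons (.keep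 [1,4,8,9,10] (.node (.cons (.leaf 2 [(10,1)]) (.cons (.leaf 1 [(4,1),(10,1)]) (.cons (.leaf 2 [(1,1),(10,1)]) (.cons (.leaf 1 [(4,1),(10,1)]) (.cons (.leaf 1 [(1,1)]) (.cons (.leaf 1 [(1,1)]) (.cons (.leaf 1 [(6,1),(1,1)]) (.cons (.leaf 1 [(10,1)]) .nil)))))))))) (.cons (.keep [1,5,8,9,10] (.node (.cons (.leaf 2 [(10,1)]) (.cons (.leaf 1 [(4,1),(10,1)]) (.cons (.leaf 2 [(1,1),(10,1)]) (.cons (.leaf 1 [(4,1),(10,1)]) (.cons (.leaf 1 [(1,1)]) (.cons (.leaf 1 [(1,1)]) (.cons (.leaf 1 [(6,1),(1,1)]) (.cons (.leaf 1 [(10,1)]) .nil)))))))))) (.cons (.keep [1,6,8,9,10] (.node (.cons (.leaf 2 [(10,1)]) (.cons (.leaf 1 [(4,1),(10,1)]) (.cons (.leaf 2 [(1,1),(10,1)]) (.cons (.leaf 1 [(4,1),(10,1)]) (.cons (.leaf 1 [(1,1)]) (.cons (.leaf 1 [(1,1)]) (.cons (.leaf 1 [(6,1),(1,1)]) (.cons (.leaf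 1 [(10,1)]) .nil)))))))))) (.cons (.keep [0,1,9,10] (.node (.cons (.leaf 2 [(9,1)]) (.cons (.leaf 1 [(4,1),(9,1)]) (.cons (.leaf 2 [(1,1),(9,1)]) (.cons (.leaf 1 [(4,1),(9,1)]) (.cons (.leaf 1 [(1,1)]) (.cons (.leaf 1 [(1,1)]) (.cons (.leaf 1 [(6,1),(1,1)]) (.cons (.leaf 1 [(9,1)]) .nil)))))))))) .nil)))))))))) (.cons (.keep [1,4,8,10] (.node (.cons (.leaf 1 [(3,1)]) (.cons (.leaf 1 [(4,1)]) (.cons (.leaf 1 [(3,1)]) (.cons (.leaf 1 [(4,1)]) (.cons (.leaf 1 []) (.cons (.leaf 1 [(4,1)]) (.cons (.leaf 1 [(3,1)]) (.cons (.leaf 1 []) .nil)))))))))) (.cons (.keep [1,4,5,8,10] (.node (.cons (.leaf 1 [(9,1),(3,1)]) (.cons (.leaf 1 [(9,1),(4,1)]) (.cons (.leaf 1 [(3,1),(9,1)]) (.cons (.leaf 1 [(4,1),(9,1)]) (.cons (.leaf 1 [(9,1)]) (.cons (.leaf 1 [(9,1),(4,1)]) (.cons (.leaf 1 [(9,1),(3,1)])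 (.cons (.leaf 1 [(9,1)]) .nil)))))))))) (.cons (.keep [1,3,6,8,10] (.node (.cons (.leaf 1 [(9,1),(3,1)]) (.cons (.leaf 1 [(9,1),(4,1)]) (.cons (.leaf 1 [(9,1),(3,1)]) (.cons (.leaf 1 [(9,1),(4,1)]) (.cons (.leaf 1 [(9,1)]) (.cons (.leaf 1 [(9,1),(4,1)]) (.cons (.leaf 1 [(9,1),(3,1)]) (.cons (.leaf 1 [(9,1)]) .nil)))))))))) (.cons (.keep [0,1,3,8] (.node (.cons (.leaf 1 [(3,1)]) (.cons (.leaf 1 [(4,1)]) (.cons (.leaf 1 [(3,1)]) (.cons (.leaf 1 [(4,1)]) (.cons (.leaf 1 []) (.cons (.leaf 1 [(4,1)]) (.cons (.leaf 1 [(3,1)]) (.cons (.leaf 1 []) .nil)))))))))) .nil)))))))))) (.cons (.keep [1,5,7,9] (.leaf 0 [(0,0)])) (.cons (.leaf 1 []) (.cons (.leaf 1 [(5,1)]) (.cons (.leaf 1 [(6,1)]) (.cons (.leaf 1 []) .nil))))))))))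

theorem e_23_20 : ESB (caseOf 4 23 20) := esb_of_pieces _ (hP_cons c_23_20_0 hP_nil) t_23_20 (by
  decide +kernel)

def t_23_21 : T := (.keep [0,1,2] (.node (.cons (.leaf 1 []) (.cons (.leaf 1 [(5,1)]) (.cons (.leaf 1 [(5,1)]) (.cons (.keep [1,6,7,10] (.node (.cons (.leaf 1 []) (.cons (.leaf 1 [(5,1)]) (.cons (.leaf 1 [(5,1)]) (.cons (.leaf 1 [(9,1)]) (.cons (.leaf 1 [(9,1),(5,1)]) (.cons (.leaf 1 [(9,1),(5,1)]) (.cons (.leaf 1 [(6,1)]) (.cons (.leaf 1 []) (.cons (.leaf 1 [(6,1)]) (.cons (.leaf 1 [(7,1)]) (.cons (.leaf 1 [(7,1)]) (.cons (.leaf 1 []) .nil)))))))))))))) (.cons (.keep [5,7,8,9,10] (.node (.cons (.leaf 1 [(8,1)]) (.cons (.leaf 1 [(8,1),(5,1)]) (.cons (.leaf 1 [(8,1),(5,1)]) (.cons (.leaf 1 []) (.cons (.leaf 1 [(5,1)]) (.cons (.leaf 1 [(5,1)]) (.cons (.leaf 1 [(8,1),(6,1)])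 (.cons (.leaf 1 [(8,1)]) (.cons (.leaf 1 [(8,1),(6,1)]) (.cons (.leaf 1 [(8,1),(7,1)]) (.cons (.leaf 1 [(8,1),(7,1)]) (.cons (.leaf 1 [(8,1)]) .nil)))))))))))))) (.cons (.keep [4,5,6,8,10] (.node (.cons (.leaf 1 [(9,1)]) (.cons (.leaf 1 [(5,1),(9,1)]) (.cons (.leaf 1 [(9,1),(5,1)]) (.cons (.leaf 1 [(10,1)]) (.cons (.leaf 1 [(5,1),(10,1)]) (.cons (.leaf 1 [(10,1),(5,1)]) (.cons (.leaf 1 [(6,1),(9,1)]) (.cons (.leaf 1 [(9,1)]) (.cons (.leaf 1 [(9,1),(6,1)]) (.cons (.leaf 1 [(9,1),(7,1)]) (.cons (.leaf 1 [(7,1),(9,1)]) (.cons (.leaf 1 [(9,1)]) .nil)))))))))))))) (.cons (.leaf 1 [(6,1)]) (.cons (.leaf 1 []) (.cons (.leaf 1 [(6,1)]) (.cons (.leaf 1 [(7,1)]) (.cons (.leaf 1 [(7,1)]) (.cons (.leaf 1 []) .nil))))))))))))))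

theorem e_23_21 : ESB (caseOf 4 23 21) := esb_of_ok (t := t_23_21) (by decide +kernel)

def t_23_22 : T := (.keep [0,1,2] (.node (.cons (.keep [2,6,7,10] (.node (.cons (.leaf 1 [(2,1)]) (.cons (.leaf 1 [(3,1)]) (.cons (.leaf 1 [(4,1)]) (.cons (.leaf 1 []) (.cons (.leaf 1 [(3,1)]) (.cons (.leaf 1 [(4,1)]) (.cons (.leaf 1 [(2,1)]) (.cons (.leaf 1 []) (.cons (.leaf 1 [(4,1)]) (.cons (.leaf 1 [(2,1)]) (.cons (.leaf 1 [(3,1)]) (.cons (.leaf 1 []) .nil)))))))))))))) (.cons (.keep [3,5,7,10] (.node (.cons (.leaf 2 [(9,1)]) (.cons (.leaf 1 [(3,1),(9,1)]) (.cons (.leaf 1 [(4,1),(9,1)]) (.cons (.leaf 1 [(1,1)]) (.cons (.leaf 1 [(1,1)]) (.cons (.leaf 1 [(1,1)]) (.cons (.leaf 1 [(6,1),(1,1)]) (.cons (.leaf 1 [(9,1)]) (.cons (.leaf 1 [(4,1),(9,1)]) (.cons (.leaf 1 [(7,1),(1,1)]) (.cons (.leaf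 1 [(3,1),(9,1)]) (.cons (.leaf 1 [(9,1)]) .nil)))))))))))))) (.cons (.keep [0,5,6,10] (.node (.cons (.leaf 1 [(9,1),(2,1)]) (.cons (.leaf 1 [(9,1),(3,1)]) (.cons (.leaf 1 [(4,1),(9,1)]) (.cons (.leaf 1 [(9,1)]) (.cons (.leaf 1 [(9,1),(3,1)]) (.cons (.leaf 1 [(4,1),(9,1)]) (.cons (.leaf 1 [(9,1),(2,1)]) (.cons (.leaf 1 [(9,1)]) (.cons (.leaf 1 [(4,1),(9,1)]) (.cons (.leaf 1 [(9,1),(2,1)]) (.cons (.leaf 1 [(9,1),(3,1)]) (.cons (.leaf 1 [(9,1)]) .nil)))))))))))))) (.cons (.leaf 1 []) (.cons (.leaf 1 [(5,1)]) (.cons (.leaf 1 [(5,1)]) (.cons (.leaf 1 [(6,1)]) (.cons (.leaf 1 []) (.cons (.leaf 1 [(6,1)]) (.cons (.leaf 1 [(7,1)]) (.cons (.leaf 1 [(7,1)]) (.cons (.leaf 1 []) .nil))))))))))))))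

theorem e_23_22 : ESB (caseOf 4 23 22) := esb_of_ok (t := t_23_22) (by decide +kernel)

def t_23_23 : T := (.keep [0,1,2] (.node (.cons (.leaf 1 []) (.cons (.leaf 1 [(5,1)]) (.cons (.leaf 1 [(5,1)]) (.cons (.leaf 1 [(5,1)]) (.cons (.leaf 1 [(6,1)]) (.cons (.leaf 1 []) (.cons (.leaf 1 [(6,1)]) (.cons (.leaf 1 [(6,1)]) (.cons (.leaf 1 [(7,1)]) (.cons (.leaf 1 [(7,1)]) (.cons (.leaf 1 []) (.cons (.leaf 1 [(7,1)]) (.cons (.leaf 1 [(8,1)]) (.cons (.leaf 1 [(8,1)]) (.cons (.leaf 1 [(8,1)]) (.cons (.leaf 1 []) .nil))))))))))))))))))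

theorem e_23_23 : ESB (caseOf 4 23 23) := esb_of_ok (t := t_23_23) (by decide +kernel)

def t_23_25 : T := (.keep [0,1,2] (.node (.cons (.leaf 1 []) (.cons (.leaf 1 [(5,1)]) (.cons (.leaf 1 [(5,1)]) (.cons (.keep [1,3,6,7] (.node (.cons (.leaf 1 []) (.cons (.leaf 1 [(5,1)]) (.cons (.leaf 1 [(5,1)]) (.cons (.keep [1,6,7,10] (.node (.cons (.leaf 1 []) (.cons (.leaf 1 [(5,1)]) (.cons (.leaf 1 [(5,1)]) (.cons (.leaf 1 [(11,1)]) (.cons (.leaf 1 [(11,1),(5,1)]) (.cons (.leaf 1 [(11,1),(5,1)]) (.cons (.leaf 1 [(9,1)]) (.cons (.leaf 1 [(9,1),(5,1)]) (.cons (.leaf 1 [(9,1),(5,1)]) (.cons (.leaf 1 [(7,1)]) (.cons (.leaf 1 [(7,1)]) (.cons (.leaf 1 []) .nil)))))))))))))) (.cons (.keep [5,7,8,9,10] (.node (.cons (.leaf 1 [(8,1)]) (.cons (.leaf 1 [(8,1),(5,1)]) (.cons (.leaf 1 [(8,1),(5,1)]) (.cons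 (.leaf 1 [(12,1),(8,1)]) (.cons (.leaf 1 [(12,1),(8,1),(5,1)]) (.cons (.leaf 1 [(12,1),(8,1),(5,1)]) (.cons (.leaf 1 []) (.cons (.leaf 1 [(5,1)]) (.cons (.leaf 1 [(5,1)]) (.cons (.leaf 1 [(8,1),(7,1)]) (.cons (.leaf 1 [(8,1),(7,1)]) (.cons (.leaf 1 [(8,1)]) .nil)))))))))))))) (.cons (.keep [4,5,9,10,11] (.node (.cons (.leaf 1 [(9,1)]) (.cons (.leaf 1 [(5,2)]) (.cons (.leaf 1 [(9,1),(5,1)]) (.cons (.leaf 1 [(11,1),(9,1)]) (.cons (.leaf 1 [(11,1),(5,2)]) (.cons (.leaf 1 [(11,1),(9,1),(5,1)]) (.cons (.leaf 1 [(12,1),(9,1)]) (.cons (.leaf 1 [(12,1),(5,2)]) (.cons (.leaf 1 [(12,1),(9,1),(5,1)]) (.cons (.leaf 1 [(9,1),(7,1)]) (.cons (.leaf 1 [(5,1),(7,1)]) (.cons (.leaf 1 [(9,1)]) .nil)))))))))))))) (.cons (.leaf 1 [(10,1)]) (.cons (.leaf 1 [(10,1),(5,1)]) (.cons (.leaf 1 [(10,1),(5,1)])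 (.cons (.leaf 1 [(7,1)]) (.cons (.leaf 1 [(7,1)]) (.cons (.leaf 1 []) .nil)))))))))))))) (.cons (.keep [5,7,8,9,10] (.node (.cons (.leaf 1 [(8,1)]) (.cons (.leaf 1 [(8,1),(5,1)]) (.cons (.leaf 1 [(8,1),(5,1)]) (.cons (.keep [7,8,9,10,12] (.node (.cons (.leaf 1 [(9,1)]) (.cons (.leaf 1 [(9,1),(5,1)]) (.cons (.leaf 1 [(9,1),(5,1)]) (.cons (.leaf 1 []) (.cons (.leaf 1 [(5,1)]) (.cons (.leaf 1 [(5,1)]) (.cons (.leaf 1 [(10,1)]) (.cons (.leaf 1 [(10,1),(5,1)]) (.cons (.leaf 1 [(10,1),(5,1)]) (.cons (.leaf 1 [(9,1),(7,1)]) (.cons (.leaf 1 [(9,1),(7,1)]) (.cons (.leaf 1 [(9,1)]) .nil)))))))))))))) (.cons (.keep [5,7,9,11,12] (.node (.cons (.leaf 1 [(10,1),(8,2)]) (.cons (.leaf 1 [(10,1),(8,2),(5,1)]) (.cons (.leaf 1 [(10,1),(8,2),(5,1)]) (.cons (.leaf 1 [(8,1)]) (.cons (.leaf 1 [(8,1),(5,1)])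 (.cons (.leaf 1 [(8,1),(5,1)]) (.cons (.leaf 1 [(10,1),(1,1)]) (.cons (.leaf 1 [(10,1),(1,1),(5,1)]) (.cons (.leaf 1 [(10,1),(1,1),(5,1)]) (.cons (.leaf 1 [(10,1),(8,2),(7,1)]) (.cons (.leaf 1 [(10,1),(8,2),(7,1)]) (.cons (.leaf 1 [(10,1),(8,2)]) .nil)))))))))))))) (.cons (.keep [5,8,9,11,12] (.node (.cons (.leaf 1 [(9,1),(8,1)]) (.cons (.leaf 1 [(9,1),(5,2)]) (.cons (.leaf 1 [(9,1),(8,1),(5,1)]) (.cons (.leaf 1 [(8,1)]) (.cons (.leaf 1 [(5,2)]) (.cons (.leaf 1 [(8,1),(5,1)]) (.cons (.leaf 1 [(10,1),(8,1)]) (.cons (.leaf 1 [(10,1),(5,2)]) (.cons (.leaf 1 [(10,1),(8,1),(5,1)]) (.cons (.leaf 1 [(9,1),(8,1),(7,1)]) (.cons (.leaf 1 [(9,1),(5,1),(7,1)]) (.cons (.leaf 1 [(9,1),(8,1)]) .nil)))))))))))))) (.cons (.leaf 1 []) (.cons (.leaf 1 [(5,1)]) (.cons (.leaf 1 [(5,1)]) (.cons (.leaf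 1 [(8,1),(7,1)]) (.cons (.leaf 1 [(8,1),(7,1)]) (.cons (.leaf 1 [(8,1)]) .nil)))))))))))))) (.cons (.keep [4,5,6,8,9] (.node (.cons (.leaf 1 [(9,1)]) (.cons (.leaf 1 [(5,2)]) (.cons (.leaf 1 [(9,1),(5,1)]) (.cons (.keep [6,7,8,9,10] (.node (.cons (.leaf 1 [(11,1)]) (.cons (.leaf 1 [(11,1),(5,1)]) (.cons (.leaf 1 [(11,1),(5,1)]) (.cons (.leaf 1 [(12,1)]) (.cons (.leaf 1 [(12,1),(5,1)]) (.cons (.leaf 1 [(12,1),(5,1)]) (.cons (.leaf 1 []) (.cons (.leaf 1 [(5,1)]) (.cons (.leaf 1 [(5,1)]) (.cons (.leaf 1 [(11,1),(7,1)]) (.cons (.leaf 1 [(11,1),(7,1)]) (.cons (.leaf 1 [(11,1)]) .nil)))))))))))))) (.cons (.keep [5,7,8,10,11] (.node (.cons (.leaf 1 [(8,2)]) (.cons (.leaf 1 [(8,2),(5,1)]) (.cons (.leaf 1 [(8,2),(5,1)]) (.cons (.leaf 1 [(11,1),(8,1)]) (.cons (.leaf 1 [(11,1),(8,1),(5,1)])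 (.cons (.leaf 1 [(11,1),(8,1),(5,1)]) (.cons (.leaf 1 [(1,1)]) (.cons (.leaf 1 [(1,1),(5,1)]) (.cons (.leaf 1 [(1,1),(5,1)]) (.cons (.leaf 1 [(8,2),(7,1)]) (.cons (.leaf 1 [(8,2),(7,1)]) (.cons (.leaf 1 [(8,2)]) .nil)))))))))))))) (.cons (.keep [6,8,9,10,12] (.node (.cons (.leaf 1 [(10,2),(8,1)]) (.cons (.leaf 1 [(10,1),(5,2)]) (.cons (.leaf 1 [(10,2),(8,1),(5,1)]) (.cons (.leaf 1 [(11,1),(10,1),(8,1)]) (.cons (.leaf 1 [(11,1),(5,2)]) (.cons (.leaf 1 [(11,1),(10,1),(8,1),(5,1)]) (.cons (.leaf 1 [(1,1),(8,1)]) (.cons (.leaf 1 [(5,2)]) (.cons (.leaf 1 [(1,1),(8,1),(5,1)]) (.cons (.leaf 1 [(10,2),(8,1),(7,1)]) (.cons (.leaf 1 [(10,1),(5,1),(7,1)]) (.cons (.leaf 1 [(10,2),(8,1)]) .nil)))))))))))))) (.cons (.leaf 1 [(10,1)]) (.cons (.leaf 1 [(10,1),(5,1)]) (.cons (.leaf 1 [(10,1),(5,1)])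 (.cons (.leaf 1 [(9,1),(7,1)]) (.cons (.leaf 1 [(5,1),(7,1)]) (.cons (.leaf 1 [(9,1)]) .nil)))))))))))))) (.cons (.keep [1,2,6,7] (.node (.cons (.leaf 1 [(2,1)]) (.cons (.leaf 1 [(2,1)]) (.cons (.leaf 1 [(2,1)]) (.cons (.keep [1,6,7,10] (.node (.cons (.leaf 1 []) (.cons (.leaf 1 [(5,1)]) (.cons (.leaf 1 [(5,1)]) (.cons (.leaf 1 [(11,1)]) (.cons (.leaf 1 [(11,1),(5,1)]) (.cons (.leaf 1 [(11,1),(5,1)]) (.cons (.leaf 1 [(9,1)]) (.cons (.leaf 1 [(9,1),(5,1)]) (.cons (.leaf 1 [(9,1),(5,1)]) (.cons (.leaf 1 [(7,1)]) (.cons (.leaf 1 [(7,1)]) (.cons (.leaf 1 []) .nil)))))))))))))) (.cons (.keep [1,5,7,10,11] (.node (.cons (.leaf 1 []) (.cons (.leaf 1 [(5,1)]) (.cons (.leaf 1 [(5,1)]) (.cons (.leaf 1 [(11,1)]) (.cons (.leaf 1 [(11,1),(5,1)]) (.cons (.leaf 1 [(11,1),(5,1)]) (.cons (.leaf 1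 [(12,1)]) (.cons (.leaf 1 [(12,1),(5,1)]) (.cons (.leaf 1 [(12,1),(5,1)]) (.cons (.leaf 1 [(7,1)]) (.cons (.leaf 1 [(7,1)]) (.cons (.leaf 1 []) .nil)))))))))))))) (.cons (.keep [0,5,10,11] (.node (.cons (.leaf 1 []) (.cons (.leaf 1 [(5,1)]) (.cons (.leaf 1 [(5,1)]) (.cons (.leaf 1 [(10,1)]) (.cons (.leaf 1 [(10,1),(5,1)]) (.cons (.leaf 1 [(10,1),(5,1)]) (.cons (.leaf 1 [(11,1)]) (.cons (.leaf 1 [(11,1),(5,1)]) (.cons (.leaf 1 [(11,1),(5,1)]) (.cons (.leaf 1 [(7,1)]) (.cons (.leaf 1 [(7,1)]) (.cons (.leaf 1 []) .nil)))))))))))))) (.cons (.leaf 1 [(10,1),(2,1)]) (.cons (.leaf 1 [(10,1),(2,1)]) (.cons (.leaf 1 [(10,1),(2,1)]) (.cons (.leaf 1 [(7,1),(2,1)]) (.cons (.leaf 1 [(11,1),(7,1),(2,1)]) (.cons (.keep [0,2,8,10,11] (.node (.cons (.leaf 1 []) (.cons (.leaf 1 [(5,1)]) (.cons (.leaf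 1 [(5,1)]) (.cons (.leaf 1 [(6,1),(9,1)]) (.cons (.leaf 2 [(11,1),(9,1)]) (.cons (.leaf 2 [(11,1),(9,1),(6,1)]) (.cons (.leaf 1 [(6,1),(9,1)]) (.cons (.leaf 2 [(12,1),(9,1)]) (.cons (.leaf 2 [(12,1),(9,1),(6,1)]) (.cons (.leaf 1 [(7,1)]) (.cons (.leaf 1 [(7,1)]) (.cons (.leaf 1 []) .nil)))))))))))))) .nil)))))))))))))) (.cons (.keep [5,7,8,9,10] (.node (.cons (.leaf 1 [(2,1),(8,1)]) (.cons (.leaf 1 [(2,1),(8,1)]) (.cons (.leaf 1 [(2,1),(8,1)]) (.cons (.keep [7,8,9,10,12] (.node (.cons (.leaf 1 [(9,1)]) (.cons (.leaf 1 [(9,1),(5,1)]) (.cons (.leaf 1 [(9,1),(5,1)]) (.cons (.leaf 1 []) (.cons (.leaf 1 [(5,1)]) (.cons (.leaf 1 [(5,1)]) (.cons (.leaf 1 [(10,1)]) (.cons (.leaf 1 [(10,1),(5,1)]) (.cons (.leaf 1 [(10,1),(5,1)]) (.cons (.leaf 1 [(9,1),(7,1)]) (.cons (.leaf 1 [(9,1),(7,1)])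 (.cons (.leaf 1 [(9,1)]) .nil)))))))))))))) (.cons (.keep [7,8,9,10,11,12] (.node (.cons (.leaf 1 [(9,1)]) (.cons (.leaf 1 [(9,1),(5,1)]) (.cons (.leaf 1 [(9,1),(5,1)]) (.cons (.leaf 1 []) (.cons (.leaf 1 [(5,1)]) (.cons (.leaf 1 [(5,1)]) (.cons (.leaf 1 [(10,1)]) (.cons (.leaf 1 [(10,1),(5,1)]) (.cons (.leaf 1 [(10,1),(5,1)]) (.cons (.leaf 1 [(9,1),(7,1)]) (.cons (.leaf 1 [(9,1),(7,1)]) (.cons (.leaf 1 [(9,1)]) .nil)))))))))))))) (.cons (.keep [4,8,9,10,11] (.node (.cons (.leaf 1 [(9,1)]) (.cons (.leaf 1 [(9,1),(5,1)]) (.cons (.leaf 1 [(9,1),(5,1)]) (.cons (.leaf 1 []) (.cons (.leaf 1 [(5,1)]) (.cons (.leaf 1 [(5,1)]) (.cons (.leaf 1 [(10,1)]) (.cons (.leaf 1 [(10,1),(5,1)]) (.cons (.leaf 1 [(10,1),(5,1)]) (.cons (.leaf 1 [(9,1),(7,1)]) (.cons (.leaf 1 [(9,1),(7,1)]) (.cons (.leaf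 1 [(9,1)]) .nil)))))))))))))) (.cons (.leaf 1 [(2,1)]) (.cons (.leaf 1 [(2,1)]) (.cons (.leaf 1 [(2,1)]) (.cons (.leaf 1 [(7,1),(8,1),(2,1)]) (.cons (.leaf 1 [(9,1),(7,1),(2,1)]) (.cons (.keep [0,2,8,9,12] (.node (.cons (.leaf 1 [(10,1)]) (.cons (.leaf 1 [(10,1),(5,1)]) (.cons (.leaf 1 [(10,1),(5,1)]) (.cons (.leaf 1 []) (.cons (.leaf 1 [(5,1)]) (.cons (.leaf 1 [(5,1)]) (.cons (.leaf 1 [(10,1),(6,1),(9,1)]) (.cons (.leaf 2 [(10,1),(11,1),(9,1)]) (.cons (.leaf 2 [(10,1),(11,1),(9,1),(6,1)]) (.cons (.leaf 1 [(10,1),(7,1)]) (.cons (.leaf 1 [(10,1),(7,1)]) (.cons (.leaf 1 [(10,1)]) .nil)))))))))))))) .nil)))))))))))))) (.cons (.keep [4,5,6,8,9] (.node (.cons (.leaf 1 [(2,1),(9,1)]) (.cons (.leaf 1 [(2,1),(5,1)]) (.cons (.leaf 1 [(2,1),(9,1)]) (.cons (.keep [6,7,8,9,10] (.node (.cons (.leaf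 1 [(11,1)]) (.cons (.leaf 1 [(11,1),(5,1)]) (.cons (.leaf 1 [(11,1),(5,1)]) (.cons (.leaf 1 [(12,1)]) (.cons (.leaf 1 [(12,1),(5,1)]) (.cons (.leaf 1 [(12,1),(5,1)]) (.cons (.leaf 1 []) (.cons (.leaf 1 [(5,1)]) (.cons (.leaf 1 [(5,1)]) (.cons (.leaf 1 [(11,1),(7,1)]) (.cons (.leaf 1 [(11,1),(7,1)]) (.cons (.leaf 1 [(11,1)]) .nil)))))))))))))) (.cons (.keep [5,7,8,10,12] (.node (.cons (.leaf 1 [(8,1)]) (.cons (.leaf 1 [(8,1),(5,1)]) (.cons (.leaf 1 [(8,1),(5,1)]) (.cons (.leaf 1 [(11,1)]) (.cons (.leaf 1 [(11,1),(5,1)]) (.cons (.leaf 1 [(11,1),(5,1)]) (.cons (.leaf 1 []) (.cons (.leaf 1 [(5,1)]) (.cons (.leaf 1 [(5,1)]) (.cons (.leaf 1 [(8,1),(7,1)]) (.cons (.leaf 1 [(8,1),(7,1)]) (.cons (.leaf 1 [(8,1)]) .nil)))))))))))))) (.cons (.keep [4,6,9,10,12] (.node (.cons (.leaf 1 [(10,1)])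 (.cons (.leaf 1 [(10,1),(5,1)]) (.cons (.leaf 1 [(10,1),(5,1)]) (.cons (.leaf 1 [(11,1)]) (.cons (.leaf 1 [(11,1),(5,1)]) (.cons (.leaf 1 [(11,1),(5,1)]) (.cons (.leaf 1 []) (.cons (.leaf 1 [(5,1)]) (.cons (.leaf 1 [(5,1)]) (.cons (.leaf 1 [(10,1),(7,1)]) (.cons (.leaf 1 [(10,1),(7,1)]) (.cons (.leaf 1 [(10,1)]) .nil)))))))))))))) (.cons (.leaf 1 [(2,1),(10,1)]) (.cons (.leaf 1 [(2,1),(10,1)]) (.cons (.leaf 1 [(2,1),(10,1)]) (.cons (.leaf 1 [(7,1),(9,1),(2,1)]) (.cons (.leaf 1 [(7,1),(2,1)]) (.cons (.keep [0,2,8,9,10] (.node (.cons (.leaf 1 [(11,1)]) (.cons (.leaf 1 [(11,1),(5,1)]) (.cons (.leaf 1 [(11,1),(5,1)]) (.cons (.leaf 1 [(6,1),(11,1),(9,1)]) (.cons (.leaf 2 [(12,1),(11,1),(9,1)]) (.cons (.leaf 2 [(12,1),(11,1),(9,1),(6,1)]) (.cons (.leaf 1 []) (.cons (.leaf 1 [(5,1)]) (.cons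 (.leaf 1 [(5,1)]) (.cons (.leaf 1 [(11,1),(7,1)]) (.cons (.leaf 1 [(11,1),(7,1)]) (.cons (.leaf 1 [(11,1)]) .nil)))))))))))))) .nil)))))))))))))) (.cons (.leaf 1 [(7,1)]) (.cons (.leaf 1 [(7,1)]) (.cons (.leaf 1 []) .nil))))))))))))))

theorem e_23_25 : ESB (caseOf 4 23 25) := esb_of_ok (t := t_23_25) (by decide +kernel)

def t_23_26 : T := (.keep [0,1,2] (.node (.cons (.keep [2,3,6,7] (.node (.cons (.leaf 1 [(2,1)]) (.cons (.leaf 2 [(11,1)]) (.cons (.leaf 1 [(4,1)]) (.cons (.leaf 1 []) (.cons (.leaf 2 [(1,1),(11,1)]) (.cons (.leaf 1 [(4,1)]) (.cons (.leaf 1 [(2,1)]) (.cons (.leaf 1 [(1,1),(10,1)]) (.cons (.leaf 1 [(4,1)]) (.cons (.leaf 1 [(2,1)]) (.cons (.leaf 2 [(11,1),(1,1)]) (.cons (.leaf 1 []) .nil)))))))))))))) (.cons (.keep [3,5,7,10] (.node (.cons (.leaf 1 [(9,1),(2,1)]) (.cons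 (.leaf 2 [(10,1),(9,1)]) (.cons (.leaf 1 [(4,1),(9,1)]) (.cons (.leaf 1 [(9,1)]) (.cons (.leaf 2 [(1,1),(10,1),(9,1)]) (.cons (.leaf 1 [(4,1),(9,1)]) (.cons (.leaf 1 [(1,1)]) (.cons (.leaf 1 [(1,1)]) (.cons (.leaf 1 [(1,1)]) (.cons (.leaf 1 [(9,1),(2,1)]) (.cons (.leaf 2 [(10,1),(9,1),(1,1)]) (.cons (.leaf 1 [(9,1)]) .nil)))))))))))))) (.cons (.keep [0,3,5,6] (.node (.cons (.leaf 1 [(10,1),(2,1)]) (.cons (.leaf 2 [(10,1)]) (.cons (.leaf 1 [(4,1),(10,1)]) (.cons (.leaf 1 [(10,1)]) (.cons (.leaf 1 [(1,1),(5,1)]) (.cons (.leaf 1 [(4,1),(10,1)]) (.cons (.leaf 1 [(10,1),(2,1)]) (.cons (.leaf 2 [(1,1),(10,1)]) (.cons (.leaf 1 [(4,1),(10,1)]) (.cons (.leaf 1 [(10,1),(2,1)]) (.cons (.leaf 1 [(7,1),(1,1)]) (.cons (.leaf 1 [(10,1)]) .nil)))))))))))))) (.cons (.leaf 1 []) (.cons (.leaf 1 [(5,1)])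 (.cons (.leaf 1 [(5,1)]) (.cons (.keep [1,6,7,9] (.node (.cons (.leaf 1 [(2,2)]) (.cons (.leaf 2 [(2,2),(10,1)]) (.cons (.leaf 1 [(2,1),(4,1)]) (.cons (.keep [0,1,9,10] (.node (.cons (.keep [2,3,6,7] (.node (.cons (.leaf 1 [(2,1)]) (.cons (.leaf 2 [(11,1)]) (.cons (.leaf 1 [(4,1)]) (.cons (.leaf 1 []) (.cons (.leaf 2 [(1,1),(11,1)]) (.cons (.leaf 1 [(4,1)]) (.cons (.leaf 1 [(2,1)]) (.cons (.leaf 1 [(1,1),(10,1)]) (.cons (.leaf 1 [(4,1)]) (.cons (.leaf 1 [(2,1)]) (.cons (.leaf 2 [(11,1),(1,1)]) (.cons (.leaf 1 []) .nil)))))))))))))) (.cons (.keep [3,5,7,8] (.node (.cons (.leaf 1 [(9,1),(2,1)]) (.cons (.leaf 2 [(10,1),(9,1)]) (.cons (.leaf 1 [(4,1),(9,1)]) (.cons (.leaf 1 [(9,1)]) (.cons (.leaf 2 [(1,1),(10,1),(9,1)]) (.cons (.leaf 1 [(4,1),(9,1)]) (.cons (.leaf 1 [(1,1)]) (.cons (.leaf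 1 [(1,1)]) (.cons (.leaf 1 [(1,1)]) (.cons (.leaf 1 [(9,1),(2,1)]) (.cons (.leaf 2 [(10,1),(9,1),(1,1)]) (.cons (.leaf 1 [(9,1)]) .nil)))))))))))))) (.cons (.keep [0,3,5,6] (.node (.cons (.leaf 1 [(10,1),(2,1)]) (.cons (.leaf 2 [(10,1)]) (.cons (.leaf 1 [(4,1),(10,1)]) (.cons (.leaf 1 [(10,1)]) (.cons (.leaf 1 [(1,1),(5,1)]) (.cons (.leaf 1 [(4,1),(10,1)]) (.cons (.leaf 1 [(10,1),(2,1)]) (.cons (.leaf 2 [(1,1),(10,1)]) (.cons (.leaf 1 [(4,1),(10,1)]) (.cons (.leaf 1 [(10,1),(2,1)]) (.cons (.leaf 1 [(7,1),(1,1)]) (.cons (.leaf 1 [(10,1)]) .nil)))))))))))))) (.cons (.leaf 1 []) (.cons (.leaf 1 [(5,1)]) (.cons (.leaf 1 [(5,1)]) (.cons (.keep [1,6,7,10,11] (.node (.cons (.leaf 1 [(2,2)]) (.cons (.leaf 2 [(2,2),(10,1)]) (.cons (.leaf 1 [(2,1),(4,1)]) (.cons (.leaf 1 [(12,1)]) (.cons (.leaf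 1 [(10,1),(5,1)]) (.cons (.leaf 1 [(4,1),(12,1)]) (.cons (.leaf 1 [(9,1),(2,1)]) (.cons (.leaf 1 [(2,1),(9,1)]) (.cons (.leaf 1 [(2,1),(9,1)]) (.cons (.leaf 1 [(12,1),(2,1)]) (.cons (.leaf 1 [(0,1),(10,1),(2,2)]) (.cons (.leaf 1 [(12,1)]) .nil)))))))))))))) (.cons (.keep [1,5,7,9,11] (.node (.cons (.leaf 1 [(2,2),(9,1)]) (.cons (.leaf 2 [(2,2),(10,1),(9,1)]) (.cons (.leaf 1 [(2,1),(4,1),(9,1)]) (.cons (.leaf 1 [(12,1),(9,1)]) (.cons (.leaf 1 [(10,1),(5,1)]) (.cons (.leaf 1 [(12,1),(4,1),(9,1)]) (.cons (.leaf 1 [(2,1)]) (.cons (.leaf 1 [(2,1)]) (.cons (.leaf 1 [(2,1)]) (.cons (.leaf 1 [(12,1),(9,1),(2,1)]) (.cons (.leaf 1 [(0,1),(10,1),(9,1),(2,2)]) (.cons (.leaf 1 [(12,1),(9,1)]) .nil)))))))))))))) (.cons (.keep [1,4,5,6,11] (.node (.cons (.leaf 1 [(2,2),(10,1)]) (.cons (.leaf 1 [(5,1)])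 (.cons (.leaf 1 [(2,1),(4,1),(10,1)]) (.cons (.leaf 1 [(12,1),(10,1)]) (.cons (.leaf 1 [(5,1)]) (.cons (.leaf 1 [(12,1),(4,1),(10,1)]) (.cons (.leaf 1 [(2,1),(11,1)]) (.cons (.leaf 1 [(5,1)]) (.cons (.leaf 1 [(2,1),(11,1)]) (.cons (.leaf 1 [(12,1),(10,1),(2,1)]) (.cons (.leaf 1 [(5,1)]) (.cons (.leaf 1 [(12,1),(10,1)]) .nil)))))))))))))) (.cons (.leaf 1 [(7,1)]) (.cons (.leaf 1 [(7,1)]) (.cons (.leaf 1 []) .nil)))))))))))))) (.cons (.leaf 1 [(10,1),(5,1)]) (.cons (.keep [1,4,5,9,10] (.node (.cons (.leaf 1 [(6,1),(2,1)]) (.cons (.leaf 1 [(8,1)]) (.cons (.leaf 1 [(4,1),(6,1)]) (.cons (.leaf 1 [(9,1)]) (.cons (.leaf 1 [(9,1),(5,1)]) (.cons (.leaf 1 [(9,1),(5,1)]) (.cons (.leaf 1 [(6,1),(11,1),(10,1)]) (.cons (.leaf 2 [(12,1)]) (.cons (.leaf 2 [(12,1),(6,1)]) (.cons (.leaf 1 [(6,1),(0,1),(9,1)])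 (.cons (.leaf 1 [(0,1),(9,1)]) (.cons (.leaf 1 [(9,1)]) .nil)))))))))))))) (.cons (.leaf 1 [(9,1),(2,1)]) (.cons (.leaf 1 [(2,1),(9,1)]) (.cons (.leaf 1 [(2,1),(9,1)]) (.cons (.keep [0,2,8,9,10] (.node (.cons (.leaf 2 [(6,1),(9,3)]) (.cons (.leaf 2 [(9,3)]) (.cons (.leaf 2 [(9,3),(6,1)]) (.cons (.leaf 1 [(9,1)]) (.cons (.leaf 1 [(5,3),(1,1)]) (.cons (.leaf 1 [(5,1),(9,1)]) (.cons (.leaf 1 [(6,1),(11,1),(9,1)]) (.cons (.leaf 2 [(12,1),(9,2)]) (.cons (.leaf 2 [(12,1),(9,2),(6,1)]) (.cons (.leaf 1 [(7,1),(9,1)]) (.cons (.leaf 1 [(1,1),(7,3)]) (.cons (.leaf 1 [(9,1)]) .nil)))))))))))))) (.cons (.leaf 1 [(0,1),(10,1),(2,2)]) (.cons (.keep [0,2,8,9,10] (.node (.cons (.leaf 2 [(6,1),(9,1)]) (.cons (.leaf 2 [(9,1)]) (.cons (.leaf 2 [(9,1),(6,1)]) (.cons (.leaf 1 []) (.cons (.leaf 1 [(5,1)])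 (.cons (.leaf 1 [(5,1)]) (.cons (.leaf 1 [(6,1),(11,1),(9,1)]) (.cons (.leaf 2 [(12,1),(9,1)]) (.cons (.leaf 2 [(12,1),(9,1),(6,1)]) (.cons (.leaf 1 [(7,1)]) (.cons (.leaf 1 [(7,1)]) (.cons (.leaf 1 []) .nil)))))))))))))) .nil)))))))))))))) (.cons (.keep [1,5,7,9] (.node (.cons (.leaf 1 [(2,2),(9,1)]) (.cons (.leaf 2 [(2,2),(10,1),(9,1)]) (.cons (.leaf 1 [(2,1),(4,1),(9,1)]) (.cons (.keep [3,4,9,10,11] (.node (.cons (.leaf 1 [(10,2)]) (.cons (.leaf 1 [(10,2),(5,1)]) (.cons (.leaf 1 [(10,2),(5,1)]) (.cons (.leaf 1 [(1,1)]) (.cons (.leaf 1 [(1,1),(5,1)]) (.cons (.leaf 1 [(1,1),(5,1)]) (.cons (.leaf 1 [(10,1),(11,1)]) (.cons (.leaf 1 [(10,1),(11,1),(5,1)]) (.cons (.leaf 1 [(10,1),(11,1),(5,1)]) (.cons (.leaf 1 [(1,1),(7,2)]) (.cons (.leaf 1 [(10,1),(7,1)]) (.cons (.leaf 1 [(10,1)]) .nil))))))))))))))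 (.cons (.leaf 1 [(10,1),(5,1)]) (.cons (.keep [3,4,9,10,11] (.node (.cons (.leaf 3 [(6,2),(10,2)]) (.cons (.leaf 2 [(9,1),(10,2)]) (.cons (.leaf 1 [(4,1),(10,1),(6,1)]) (.cons (.leaf 1 [(1,1)]) (.cons (.leaf 1 [(1,1),(5,1)]) (.cons (.leaf 1 [(1,1),(5,1)]) (.cons (.leaf 2 [(6,1),(11,1),(10,1)]) (.cons (.leaf 2 [(11,1),(10,1)]) (.cons (.leaf 2 [(11,1),(10,1),(6,1)]) (.cons (.leaf 1 [(1,1),(7,2)]) (.cons (.leaf 1 [(10,1),(7,1),(9,1)]) (.cons (.leaf 1 [(9,1),(10,1)]) .nil)))))))))))))) (.cons (.leaf 1 [(2,1)]) (.cons (.leaf 1 [(2,1)]) (.cons (.leaf 1 [(2,1)]) (.cons (.keep [2,8,9,10,11] (.node (.cons (.leaf 1 [(6,1),(8,1)]) (.cons (.leaf 2 [(10,2),(8,3)]) (.cons (.leaf 2 [(10,2),(8,3),(6,1)]) (.cons (.leaf 1 [(1,1)]) (.cons (.leaf 1 [(1,1),(5,1)]) (.cons (.leaf 1 [(1,1),(5,1)]) (.cons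 (.leaf 1 [(6,1),(8,1)]) (.cons (.leaf 2 [(10,1),(11,1),(8,2)]) (.cons (.leaf 2 [(10,1),(11,1),(8,2),(6,1)]) (.cons (.leaf 1 [(1,1),(7,2)]) (.cons (.leaf 1 [(1,1),(7,3),(10,1)]) (.cons (.leaf 1 [(10,1),(8,1)]) .nil)))))))))))))) (.cons (.leaf 1 [(0,1),(10,1),(9,1),(2,2)]) (.cons (.keep [0,2,8,9,10] (.node (.cons (.leaf 1 [(6,1),(9,1)]) (.cons (.leaf 2 [(11,2),(9,1)]) (.cons (.leaf 2 [(11,2),(9,1),(6,1)]) (.cons (.leaf 1 [(1,1)]) (.cons (.leaf 1 [(1,1),(5,1)]) (.cons (.leaf 1 [(1,1),(5,1)]) (.cons (.leaf 1 [(6,1),(9,1)]) (.cons (.leaf 2 [(11,1),(12,1),(9,1)]) (.cons (.leaf 2 [(11,1),(12,1),(9,1),(6,1)]) (.cons (.leaf 1 [(1,1),(7,2)]) (.cons (.leaf 1 [(11,1),(7,1)]) (.cons (.leaf 1 [(11,1)]) .nil)))))))))))))) .nil)))))))))))))) (.cons (.keep [1,5,6,9] (.node (.cons (.leaf 1 [(2,2),(9,1)])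 (.cons (.leaf 1 [(5,1)]) (.cons (.leaf 1 [(2,1),(4,1),(9,1)]) (.cons (.keep [4,6,9,10,11] (.node (.cons (.keep [3,6,7,10,11] (.node (.cons (.leaf 1 []) (.cons (.leaf 2 [(11,2),(10,1)]) (.cons (.leaf 1 [(11,1),(4,1)]) (.cons (.leaf 1 [(1,1)]) (.cons (.leaf 2 [(1,3),(10,1)]) (.cons (.leaf 1 [(1,1),(4,1)]) (.cons (.leaf 1 [(1,1)]) (.cons (.leaf 1 [(11,1),(1,1),(9,1)]) (.cons (.leaf 1 [(11,1),(4,1)]) (.cons (.leaf 1 [(1,1)]) (.cons (.leaf 2 [(11,2),(10,1),(1,1)]) (.cons (.leaf 1 [(11,1)]) .nil)))))))))))))) (.cons (.keep [3,5,7,9,10] (.node (.cons (.leaf 1 [(9,1)]) (.cons (.leaf 2 [(12,2),(10,1),(9,1)]) (.cons (.leaf 1 [(12,1),(4,1),(9,1)]) (.cons (.leaf 1 [(1,1),(9,1)]) (.cons (.leaf 2 [(1,3),(10,1),(9,1)]) (.cons (.leaf 1 [(1,1),(4,1),(9,1)]) (.cons (.leaf 1 [(9,1),(1,1)]) (.cons (.leaf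 1 [(12,1),(1,1)]) (.cons (.leaf 1 [(12,1),(1,1)]) (.cons (.leaf 1 [(9,1),(1,1)]) (.cons (.leaf 2 [(12,2),(10,1),(9,1),(1,1)]) (.cons (.leaf 1 [(12,1),(9,1)]) .nil)))))))))))))) (.cons (.keep [3,5,6,9,10] (.node (.cons (.leaf 1 [(9,1)]) (.cons (.leaf 2 [(12,2),(9,1)]) (.cons (.leaf 1 [(12,1),(4,1),(9,1)]) (.cons (.leaf 1 [(1,1),(9,1)]) (.cons (.leaf 1 [(1,2),(5,1)]) (.cons (.leaf 1 [(1,1),(4,1),(9,1)]) (.cons (.leaf 1 [(9,1),(1,1)]) (.cons (.leaf 2 [(12,2),(1,1),(9,1)]) (.cons (.leaf 1 [(12,1),(4,1),(9,1)]) (.cons (.leaf 1 [(9,1),(1,1)]) (.cons (.leaf 1 [(12,1),(7,1),(1,1)]) (.cons (.leaf 1 [(12,1),(9,1)]) .nil)))))))))))))) (.cons (.leaf 1 [(10,1)]) (.cons (.leaf 1 [(5,1),(10,1)]) (.cons (.leaf 1 [(5,1),(10,1)]) (.cons (.keep [1,6,7,9,12] (.node (.cons (.leaf 1 [(2,1)]) (.cons (.leaf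 2 [(10,1)]) (.cons (.leaf 1 [(4,1)]) (.cons (.leaf 1 []) (.cons (.leaf 2 [(1,1),(10,1)]) (.cons (.leaf 1 [(4,1)]) (.cons (.leaf 1 [(2,1)]) (.cons (.leaf 1 [(1,1),(9,1)]) (.cons (.leaf 1 [(4,1)]) (.cons (.leaf 1 [(2,1)]) (.cons (.leaf 2 [(10,1),(1,1)]) (.cons (.leaf 1 []) .nil)))))))))))))) (.cons (.keep [1,5,7,9,12] (.node (.cons (.leaf 1 [(9,1),(2,1)]) (.cons (.leaf 2 [(10,1),(9,1)]) (.cons (.leaf 1 [(4,1),(9,1)]) (.cons (.leaf 1 [(9,1)]) (.cons (.leaf 2 [(1,1),(10,1),(9,1)]) (.cons (.leaf 1 [(4,1),(9,1)]) (.cons (.leaf 1 [(1,1)]) (.cons (.leaf 1 [(1,1)]) (.cons (.leaf 1 [(1,1)]) (.cons (.leaf 1 [(9,1),(2,1)]) (.cons (.leaf 2 [(10,1),(9,1),(1,1)]) (.cons (.leaf 1 [(9,1)]) .nil)))))))))))))) (.cons (.keep [1,4,5,6,12] (.node (.cons (.leaf 1 [(10,1),(2,1)]) (.cons (.leaf 1 [(8,1),(5,1)])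 (.cons (.leaf 1 [(4,1),(10,1)]) (.cons (.leaf 1 [(10,1)]) (.cons (.leaf 1 [(1,1),(5,1)]) (.cons (.leaf 1 [(4,1),(10,1)]) (.cons (.leaf 1 [(10,1),(2,1)]) (.cons (.leaf 1 [(8,1),(5,1)]) (.cons (.leaf 1 [(4,1),(10,1)]) (.cons (.leaf 1 [(10,1),(2,1)]) (.cons (.leaf 1 [(7,1),(1,1)]) (.cons (.leaf 1 [(10,1)]) .nil)))))))))))))) (.cons (.leaf 1 [(7,1),(10,1)]) (.cons (.leaf 1 [(10,1),(7,1)]) (.cons (.leaf 1 [(10,1)]) .nil)))))))))))))) (.cons (.leaf 1 [(5,1)]) (.cons (.keep [4,6,9,10,11] (.node (.cons (.leaf 1 [(6,1),(2,1),(10,1)]) (.cons (.leaf 2 [(8,1),(10,2)]) (.cons (.leaf 1 [(4,1),(10,1),(6,1)]) (.cons (.leaf 1 [(8,1),(10,1)]) (.cons (.leaf 1 [(5,1),(8,1),(10,1)]) (.cons (.leaf 1 [(5,1),(8,1),(10,1)]) (.cons (.leaf 1 [(6,1),(1,1),(9,1)]) (.cons (.leaf 1 [(1,1),(9,1)]) (.cons (.leaf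 1 [(1,1),(9,1),(6,1)]) (.cons (.leaf 1 [(7,1),(8,1),(10,1)]) (.cons (.leaf 1 [(10,1),(7,1),(8,1)]) (.cons (.leaf 1 [(8,1),(10,1)]) .nil)))))))))))))) (.cons (.leaf 1 [(2,1),(10,1)]) (.cons (.leaf 1 [(5,1)]) (.cons (.leaf 1 [(2,1),(10,1)]) (.cons (.keep [2,8,9,10,11] (.node (.cons (.leaf 2 [(6,1),(10,2),(8,3)]) (.cons (.leaf 2 [(10,2),(8,3)]) (.cons (.leaf 2 [(10,2),(8,3),(6,1)]) (.cons (.leaf 1 [(10,1),(8,1)]) (.cons (.leaf 1 [(5,3),(10,1),(1,1)]) (.cons (.leaf 1 [(5,1),(10,1),(8,1)]) (.cons (.leaf 2 [(6,1),(1,1),(8,1)]) (.cons (.leaf 2 [(1,1),(8,1)]) (.cons (.leaf 2 [(1,1),(8,1),(6,1)]) (.cons (.leaf 1 [(7,1),(10,1),(8,1)]) (.cons (.leaf 1 [(1,1),(7,3),(10,1)]) (.cons (.leaf 1 [(10,1),(8,1)]) .nil)))))))))))))) (.cons (.leaf 1 [(5,1)]) (.cons (.keep [0,2,8,9,10] (.node (.cons (.leaf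 2 [(6,1),(11,2),(9,1)]) (.cons (.leaf 2 [(11,2),(9,1)]) (.cons (.leaf 2 [(11,2),(9,1),(6,1)]) (.cons (.leaf 1 [(11,1)]) (.cons (.leaf 1 [(5,1),(11,1)]) (.cons (.leaf 1 [(5,1),(11,1)]) (.cons (.leaf 2 [(6,1),(1,1),(9,1)]) (.cons (.leaf 2 [(1,1),(9,1)]) (.cons (.leaf 2 [(1,1),(9,1),(6,1)]) (.cons (.leaf 1 [(7,1),(11,1)]) (.cons (.leaf 1 [(11,1),(7,1)]) (.cons (.leaf 1 [(11,1)]) .nil)))))))))))))) .nil)))))))))))))) (.cons (.leaf 1 [(7,1)]) (.cons (.leaf 1 [(7,1)]) (.cons (.leaf 1 []) .nil))))))))))))))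

theorem e_23_26 : ESB (caseOf 4 23 26) := esb_of_ok (t := t_23_26) (by decide +kernel)

def t_23_27 : T := (.keep [0,1,2] (.node (.cons (.leaf 1 []) (.cons (.leaf 1 [(5,1)]) (.cons (.leaf 1 [(5,1)]) (.cons (.leaf 1 [(5,1)]) (.cons (.leaf 1 [(6,1)]) (.cons (.leaf 1 []) (.cons (.leaf 1 [(6,1)]) (.cons (.leaf 1 [(6,1)]) (.cons (.keep [1,6,7,8] (.node (.cons (.leaf 1 [(2,1)]) (.cons (.leaf 1 [(2,1)]) (.cons (.leaf 1 [(2,1)]) (.cons (.leaf 1 [(2,1)]) (.cons (.leaf 1 [(6,1)]) (.cons (.keep [0,1,11,12] (.node (.cons (.leaf 1 []) (.cons (.leaf 1 [(5,1)]) (.cons (.leaf 1 [(5,1)]) (.cons (.leaf 1 [(5,1)]) (.cons (.leaf 1 [(6,1)]) (.cons (.leaf 1 []) (.cons (.leaf 1 [(6,1)]) (.cons (.leaf 1 [(6,1)]) (.cons (.leaf 1 [(12,1)]) (.cons (.leaf 1 [(5,1),(12,1)]) (.cons (.leaf 1 [(12,1),(5,1)]) (.cons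 (.leaf 1 [(12,1),(5,1)]) (.cons (.leaf 1 [(8,1)]) (.cons (.leaf 1 [(8,1)]) (.cons (.leaf 1 [(8,1)]) (.cons (.leaf 1 []) .nil)))))))))))))))))) (.cons (.leaf 1 [(12,1),(6,1)]) (.cons (.keep [0,5,6,11,12] (.node (.cons (.leaf 1 []) (.cons (.leaf 1 [(5,1)]) (.cons (.leaf 1 [(5,1)]) (.cons (.leaf 1 [(5,1)]) (.cons (.leaf 1 [(6,1)]) (.cons (.leaf 1 []) (.cons (.leaf 1 [(6,1)]) (.cons (.leaf 1 [(6,1)]) (.cons (.leaf 1 [(7,1),(11,1)]) (.cons (.leaf 1 [(7,1),(12,1),(11,1)]) (.cons (.leaf 2 [(13,1),(11,1)]) (.cons (.leaf 2 [(13,1),(11,1),(7,1)]) (.cons (.leaf 1 [(8,1)]) (.cons (.leaf 1 [(8,1)]) (.cons (.leaf 1 [(8,1)]) (.cons (.leaf 1 []) .nil)))))))))))))))))) (.cons (.leaf 1 [(6,1)]) (.cons (.leaf 1 [(11,1),(2,1)]) (.cons (.leaf 1 [(11,1),(2,1)]) (.cons (.leaf 1 [(11,1),(2,1)]) (.cons (.leaf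 1 [(6,1)]) (.cons (.keep [0,2,5,11,12] (.node (.cons (.leaf 1 []) (.cons (.leaf 1 [(5,1)]) (.cons (.leaf 1 [(5,1)]) (.cons (.leaf 1 [(5,1)]) (.cons (.leaf 1 [(6,1)]) (.cons (.leaf 1 []) (.cons (.leaf 1 [(6,1)]) (.cons (.leaf 1 [(6,1)]) (.cons (.leaf 1 [(7,1),(10,1)]) (.cons (.leaf 1 [(7,1),(12,1),(10,1)]) (.cons (.leaf 2 [(13,1),(10,1)]) (.cons (.leaf 2 [(13,1),(10,1),(7,1)]) (.cons (.leaf 1 [(8,1)]) (.cons (.leaf 1 [(8,1)]) (.cons (.leaf 1 [(8,1)]) (.cons (.leaf 1 []) .nil)))))))))))))))))) (.cons (.leaf 1 [(12,1),(6,1)]) (.cons (.keep [0,2,9,11,12] (.node (.cons (.leaf 1 []) (.cons (.leaf 1 [(5,1)]) (.cons (.leaf 1 [(5,1)]) (.cons (.leaf 1 [(5,1)]) (.cons (.leaf 1 [(6,1)]) (.cons (.leaf 1 []) (.cons (.leaf 1 [(6,1)]) (.cons (.leaf 1 [(6,1)]) (.cons (.leaf 1 [(7,1),(10,1)]) (.cons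 (.leaf 1 [(7,1),(12,1),(10,1)]) (.cons (.leaf 2 [(13,1),(10,1)]) (.cons (.leaf 2 [(13,1),(10,1),(7,1)]) (.cons (.leaf 1 [(8,1)]) (.cons (.leaf 1 [(8,1)]) (.cons (.leaf 1 [(8,1)]) (.cons (.leaf 1 []) .nil)))))))))))))))))) .nil)))))))))))))))))) (.cons (.keep [5,7,8,9,10] (.node (.cons (.leaf 1 [(2,1)]) (.cons (.leaf 1 [(2,2)]) (.cons (.leaf 1 [(2,1),(9,1)]) (.cons (.leaf 1 [(2,1),(4,1)]) (.cons (.leaf 1 []) (.cons (.keep [0,1,10,11] (.node (.cons (.leaf 1 []) (.cons (.leaf 1 [(5,1)]) (.cons (.leaf 1 [(5,1)]) (.cons (.leaf 1 [(5,1)]) (.cons (.leaf 1 [(6,1)]) (.cons (.leaf 1 []) (.cons (.leaf 1 [(6,1)]) (.cons (.leaf 1 [(6,1)]) (.cons (.leaf 1 [(12,1)]) (.cons (.leaf 1 [(5,1),(12,1)]) (.cons (.leaf 1 [(12,1),(5,1)]) (.cons (.leaf 1 [(12,1),(5,1)]) (.cons (.leaf 1 [(8,1)]) (.cons (.leaf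 1 [(8,1)]) (.cons (.leaf 1 [(8,1)]) (.cons (.leaf 1 []) .nil)))))))))))))))))) (.cons (.leaf 1 [(11,1),(6,1)]) (.cons (.keep [4,6,10,11,12] (.node (.cons (.leaf 1 [(7,1)]) (.cons (.leaf 1 [(7,1),(2,1)]) (.cons (.leaf 2 [(9,1)]) (.cons (.leaf 1 [(4,1),(7,1)]) (.cons (.leaf 1 [(7,1)]) (.cons (.leaf 1 [(9,1)]) (.cons (.leaf 1 [(9,1),(6,1)]) (.cons (.leaf 1 [(9,1),(6,1)]) (.cons (.leaf 1 [(7,1)]) (.cons (.leaf 1 [(7,1),(11,1),(10,1)]) (.cons (.leaf 2 [(12,1)]) (.cons (.leaf 2 [(12,1),(7,1)]) (.cons (.leaf 1 [(7,1)]) (.cons (.leaf 1 [(7,1),(0,1),(9,1)]) (.cons (.leaf 1 [(0,1),(9,1)]) (.cons (.leaf 1 [(9,1)]) .nil)))))))))))))))))) (.cons (.leaf 1 [(2,1)]) (.cons (.leaf 1 [(10,1),(2,1)]) (.cons (.leaf 1 [(2,1),(10,1)]) (.cons (.leaf 1 [(2,1),(10,1)]) (.cons (.leaf 1 [(2,1)]) (.cons (.keep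 [0,2,10,11,12] (.node (.cons (.leaf 1 [(10,1)]) (.cons (.leaf 1 [(5,1),(10,1)]) (.cons (.leaf 1 [(5,3)]) (.cons (.leaf 1 [(10,1),(5,1)]) (.cons (.leaf 1 [(6,1),(10,1)]) (.cons (.leaf 1 [(10,1)]) (.cons (.leaf 1 [(6,2),(5,1)]) (.cons (.leaf 1 [(10,1),(6,1)]) (.cons (.leaf 1 [(7,1),(10,2)]) (.cons (.leaf 1 [(7,1),(11,1),(10,1)]) (.cons (.leaf 2 [(12,1),(10,2)]) (.cons (.leaf 2 [(12,1),(10,2),(7,1)]) (.cons (.leaf 1 [(10,1),(8,1)]) (.cons (.leaf 1 [(8,1),(10,1)]) (.cons (.leaf 1 [(5,1),(8,2)]) (.cons (.leaf 1 [(10,1)]) .nil)))))))))))))))))) (.cons (.leaf 1 [(0,1),(11,1),(2,2)]) (.cons (.keep [0,2,10,11,12] (.node (.cons (.leaf 1 []) (.cons (.leaf 1 [(5,1)]) (.cons (.leaf 1 [(5,1)]) (.cons (.leaf 1 [(5,1)]) (.cons (.leaf 1 [(6,1)]) (.cons (.leaf 1 []) (.cons (.leaf 1 [(6,1)]) (.cons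 (.leaf 1 [(6,1)]) (.cons (.leaf 1 [(7,1),(10,1)]) (.cons (.leaf 1 [(7,1),(11,1),(10,1)]) (.cons (.leaf 2 [(12,1),(10,1)]) (.cons (.leaf 2 [(12,1),(10,1),(7,1)]) (.cons (.leaf 1 [(8,1)]) (.cons (.leaf 1 [(8,1)]) (.cons (.leaf 1 [(8,1)]) (.cons (.leaf 1 []) .nil)))))))))))))))))) .nil)))))))))))))))))) (.cons (.keep [5,6,8,10,11] (.node (.cons (.leaf 1 [(2,1),(9,1)]) (.cons (.leaf 1 [(2,1),(9,1)]) (.cons (.leaf 1 [(2,1),(9,1)]) (.cons (.leaf 1 [(2,1),(9,1)]) (.cons (.leaf 1 [(6,1),(9,1)]) (.cons (.keep [4,9,11,12,13] (.node (.cons (.leaf 1 [(10,1)]) (.cons (.leaf 1 [(5,2)]) (.cons (.leaf 1 [(10,1),(5,1)]) (.cons (.leaf 1 [(10,1),(5,1)]) (.cons (.leaf 1 []) (.cons (.leaf 1 [(1,1)]) (.cons (.leaf 1 [(5,1)]) (.cons (.leaf 1 [(5,1)]) (.cons (.leaf 1 [(11,1)]) (.cons (.leaf 1 [(5,1),(11,1)])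 (.cons (.leaf 1 [(11,1),(5,1)]) (.cons (.leaf 1 [(11,1),(5,1)]) (.cons (.leaf 1 [(10,1),(8,1)]) (.cons (.leaf 1 [(5,1),(8,1)]) (.cons (.leaf 1 [(10,1),(8,1)]) (.cons (.leaf 1 [(10,1)]) .nil)))))))))))))))))) (.cons (.leaf 1 [(11,1),(6,1)]) (.cons (.keep [4,10,11,12,13] (.node (.cons (.leaf 1 [(7,1),(10,1)]) (.cons (.leaf 1 [(5,2)]) (.cons (.leaf 2 [(9,1),(10,2)]) (.cons (.leaf 1 [(4,1),(10,1),(7,1)]) (.cons (.leaf 1 []) (.cons (.leaf 1 [(1,1)]) (.cons (.leaf 1 [(5,1)]) (.cons (.leaf 1 [(5,1)]) (.cons (.leaf 1 [(7,1),(10,1)]) (.cons (.leaf 2 [(7,1),(11,1),(10,1)]) (.cons (.leaf 2 [(11,1),(10,1)]) (.cons (.leaf 2 [(11,1),(10,1),(7,1)]) (.cons (.leaf 1 [(10,1),(7,1)]) (.cons (.leaf 1 [(5,1),(8,1)]) (.cons (.leaf 1 [(10,1),(8,1),(9,1)]) (.cons (.leaf 1 [(9,1),(10,1)]) .nil))))))))))))))))))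 (.cons (.leaf 1 [(2,1)]) (.cons (.leaf 1 [(2,1)]) (.cons (.leaf 1 [(2,1)]) (.cons (.leaf 1 [(2,1)]) (.cons (.leaf 1 [(6,1),(9,1)]) (.cons (.keep [2,10,11,12,13] (.node (.cons (.leaf 1 [(10,1),(9,1)]) (.cons (.leaf 1 [(5,2)]) (.cons (.leaf 1 [(10,1),(5,3)]) (.cons (.leaf 1 [(10,1),(9,1),(5,1)]) (.cons (.leaf 1 []) (.cons (.leaf 1 [(1,1)]) (.cons (.leaf 1 [(5,1)]) (.cons (.leaf 1 [(5,1)]) (.cons (.leaf 1 [(10,1),(7,1),(9,2)]) (.cons (.leaf 1 [(7,1),(9,1)]) (.cons (.leaf 2 [(10,1),(11,1),(9,2)]) (.cons (.leaf 2 [(10,1),(11,1),(9,2),(7,1)]) (.cons (.leaf 1 [(10,1),(9,1),(8,1)]) (.cons (.leaf 1 [(5,1),(8,1)]) (.cons (.leaf 1 [(1,1),(8,3),(10,1)]) (.cons (.leaf 1 [(10,1),(9,1)]) .nil)))))))))))))))))) (.cons (.leaf 1 [(11,1),(6,1)]) (.cons (.keep [0,2,9,11,13] (.node (.cons (.leaf 1 [(11,1)])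 (.cons (.leaf 1 [(5,2)]) (.cons (.leaf 1 [(11,1),(5,1)]) (.cons (.leaf 1 [(11,1),(5,1)]) (.cons (.leaf 1 []) (.cons (.leaf 1 [(1,1)]) (.cons (.leaf 1 [(5,1)]) (.cons (.leaf 1 [(5,1)]) (.cons (.leaf 1 [(11,1),(7,1),(10,1)]) (.cons (.leaf 1 [(7,1),(10,1)]) (.cons (.leaf 2 [(11,1),(12,1),(10,1)]) (.cons (.leaf 2 [(11,1),(12,1),(10,1),(7,1)]) (.cons (.leaf 1 [(11,1),(8,1)]) (.cons (.leaf 1 [(5,1),(8,1)]) (.cons (.leaf 1 [(11,1),(8,1)]) (.cons (.leaf 1 [(11,1)]) .nil)))))))))))))))))) .nil)))))))))))))))))) (.cons (.keep [4,5,6,7,10] (.node (.cons (.leaf 1 [(2,1),(10,1)]) (.cons (.leaf 1 [(2,1),(10,1)]) (.cons (.leaf 1 [(2,1),(5,1)]) (.cons (.leaf 1 [(2,1),(10,1)]) (.cons (.leaf 1 [(6,1),(10,1)]) (.cons (.keep [4,7,10,12,13] (.node (.cons (.leaf 1 [(11,1)]) (.cons (.leaf 1 [(5,1),(11,1)])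 (.cons (.leaf 1 [(11,1),(5,1)]) (.cons (.leaf 1 [(11,1),(5,1)]) (.cons (.leaf 1 [(6,1),(11,1)]) (.cons (.leaf 1 [(11,1)]) (.cons (.leaf 1 [(11,1),(6,1)]) (.cons (.leaf 1 [(11,1),(6,1)]) (.cons (.leaf 1 []) (.cons (.leaf 1 [(5,1)]) (.cons (.leaf 1 [(5,1)]) (.cons (.leaf 1 [(5,1)]) (.cons (.leaf 1 [(11,1),(8,1)]) (.cons (.leaf 1 [(8,1),(11,1)]) (.cons (.leaf 1 [(11,1),(8,1)]) (.cons (.leaf 1 [(11,1)]) .nil)))))))))))))))))) (.cons (.leaf 1 [(6,1)]) (.cons (.keep [4,9,11,12,13] (.node (.cons (.leaf 1 [(7,1),(11,1)]) (.cons (.leaf 1 [(7,1),(2,1),(11,1)]) (.cons (.leaf 2 [(9,1),(11,2)]) (.cons (.leaf 1 [(4,1),(11,1),(7,1)]) (.cons (.leaf 1 [(7,1),(11,1)]) (.cons (.leaf 1 [(9,1),(11,1)]) (.cons (.leaf 1 [(9,1),(11,1),(6,1)]) (.cons (.leaf 1 [(9,1),(11,1),(6,1)]) (.cons (.leaf 1 []) (.cons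 (.leaf 1 [(5,1)]) (.cons (.leaf 1 [(5,1)]) (.cons (.leaf 1 [(5,1)]) (.cons (.leaf 1 [(11,1),(7,1)]) (.cons (.leaf 1 [(8,1),(9,1),(11,1)]) (.cons (.leaf 1 [(11,1),(8,1),(9,1)]) (.cons (.leaf 1 [(9,1),(11,1)]) .nil)))))))))))))))))) (.cons (.leaf 1 [(6,1),(10,1)]) (.cons (.leaf 1 [(2,1),(12,1)]) (.cons (.leaf 1 [(6,1)]) (.cons (.leaf 1 [(2,1),(12,1)]) (.cons (.leaf 1 [(6,1),(10,1)]) (.cons (.keep [2,7,11,12,13] (.node (.cons (.leaf 1 [(11,1),(9,1)]) (.cons (.leaf 1 [(5,1),(11,1),(9,1)]) (.cons (.leaf 1 [(11,1),(5,3)]) (.cons (.leaf 1 [(11,1),(9,1),(5,1)]) (.cons (.leaf 1 [(6,1),(11,1),(9,1)]) (.cons (.leaf 1 [(11,1),(9,1)]) (.cons (.leaf 1 [(11,1),(1,1),(6,3)]) (.cons (.leaf 1 [(11,1),(9,1),(6,1)]) (.cons (.leaf 1 []) (.cons (.leaf 1 [(5,1)]) (.cons (.leaf 1 [(5,1)]) (.cons (.leaf 1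 [(5,1)]) (.cons (.leaf 1 [(11,1),(9,1),(8,1)]) (.cons (.leaf 1 [(8,1),(11,1),(9,1)]) (.cons (.leaf 1 [(1,1),(8,3),(11,1)]) (.cons (.leaf 1 [(11,1),(9,1)]) .nil)))))))))))))))))) (.cons (.leaf 1 [(6,1)]) (.cons (.keep [0,2,9,10,12] (.node (.cons (.leaf 1 [(12,1)]) (.cons (.leaf 1 [(5,1),(12,1)]) (.cons (.leaf 1 [(12,1),(5,1)]) (.cons (.leaf 1 [(12,1),(5,1)]) (.cons (.leaf 1 [(6,1),(12,1)]) (.cons (.leaf 1 [(12,1)]) (.cons (.leaf 1 [(12,1),(6,1)]) (.cons (.leaf 1 [(12,1),(6,1)]) (.cons (.leaf 1 []) (.cons (.leaf 1 [(5,1)]) (.cons (.leaf 1 [(5,1)]) (.cons (.leaf 1 [(5,1)]) (.cons (.leaf 1 [(12,1),(8,1)]) (.cons (.leaf 1 [(8,1),(12,1)]) (.cons (.leaf 1 [(12,1),(8,1)]) (.cons (.leaf 1 [(12,1)]) .nil)))))))))))))))))) .nil)))))))))))))))))) (.cons (.leaf 1 [(8,1)]) (.cons (.leaf 1 [(8,1)])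 (.cons (.leaf 1 [(8,1)]) (.cons (.leaf 1 []) .nil))))))))))))))))))

theorem e_23_27 : ESB (caseOf 4 23 27) := esb_of_ok (t := t_23_27) (by decide +kernel)

def ks : List (ℕ × ℕ) := [(23, 18), (23, 19), (23, 20), (23, 21), (23, 22), (23, 23), (23, 25),
  (23, 26), (23, 27)]

theorem ks_ok : ∀ p ∈ ks, ESB (caseOf 4 p.1 p.2) := ks_cons e_23_18 <| ks_cons e_23_19 <| ks_cons
  e_23_20 <| ks_cons e_23_21 <| ks_cons e_23_22 <| ks_cons e_23_23 <| ks_cons e_23_25 <| ks_cons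
  e_23_26 <| ks_cons e_23_27 <| ks_nil

end Pool.Agent.H4.RD4.E20
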