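import Pool.Agent.H4.RD4.Chk

/-! # Certificates for special cases of order four -/

set_option maxRecDepth 20000

namespace Pool.Agent.H4.RD4.E21

open Pool.Agent.H50.Rdb
open Pool.Agent.H81.RDE (ESB caseOf)

def z_23_28_0 : F := ⟨1, -1, 0, 0, 1⟩

def h_23_28_0 : List F := [⟨1, 0, 0, 0, 0⟩, ⟨0, 1, -1, 0, 0⟩, ⟨0, 1, 0, -1, 0⟩, ⟨0, -1, 0, 0, 1⟩]

def t_23_28_0 : T := (.node (.cons (.keep [2,6,7,9] (.node (.cons (.leaf 1 [(9,1)]) (.cons (.leaf 1 [(10,1)]) (.cons (.keep [4,8,9,10,11] (.node (.cons (.leaf 1 [(3,2),(6,1)]) (.cons (.leaf 1 [(8,2)]) (.cons (.leaf 1 [(6,1),(4,2)]) (.cons (.leaf 1 [(3,1),(8,1)]) (.cons (.leaf 1 [(1,1),(8,2)]) (.cons (.leaf 1 [(4,1),(8,1)]) (.cons (.leaf 1 [(8,1)]) (.cons (.leaf 1 [(1,1),(8,2)]) (.cons (.leaf 1 [(4,1),(8,1)]) (.cons (.leaf 1 [(8,1),(3,1)]) (.cons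 (.leaf 1 [(8,2),(1,1)]) (.cons (.leaf 1 [(8,1)]) .nil)))))))))))))) (.cons (.leaf 1 [(1,1),(3,1)]) (.cons (.leaf 1 [(1,1),(10,1)]) (.cons (.leaf 1 [(1,1),(4,1)]) (.cons (.leaf 1 [(9,1),(1,1)]) (.cons (.leaf 1 [(10,1),(1,1)]) (.cons (.leaf 1 [(1,1),(4,1),(9,1)]) (.cons (.leaf 1 [(9,1),(1,1)]) (.cons (.leaf 1 [(10,1),(1,1)]) (.cons (.keep [0,1,9,10] (.node (.cons (.leaf 1 [(3,1)]) (.cons (.keep [4,9,10,11] (.node (.cons (.leaf 1 [(3,1)]) (.cons (.leaf 1 [(3,1)]) (.cons (.leaf 1 [(3,1)]) (.cons (.leaf 1 [(3,1),(10,1)]) (.cons (.leaf 1 [(8,1),(5,1)]) (.cons (.leaf 1 [(3,1),(0,1),(10,1)]) (.cons (.leaf 1 [(10,1)]) (.cons (.leaf 1 [(8,1),(5,1)]) (.cons (.leaf 1 [(0,1),(10,1)]) (.cons (.leaf 1 [(10,1),(3,1)]) (.cons (.leaf 1 [(8,1),(5,1)]) (.cons (.leaf 1 [(10,1)]) .nil)))))))))))))) (.cons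 (.leaf 1 [(4,1)]) (.cons (.leaf 1 [(3,1)]) (.cons (.leaf 1 [(1,1),(10,1)]) (.cons (.leaf 1 [(4,1)]) (.cons (.leaf 1 []) (.cons (.leaf 1 [(1,1),(11,1)]) (.cons (.leaf 1 [(4,1)]) (.cons (.leaf 1 [(3,1)]) (.cons (.keep [1,8,9,10,11] (.node (.cons (.leaf 1 [(3,1),(8,1)]) (.cons (.leaf 1 [(5,1)]) (.cons (.leaf 1 [(3,1),(8,1)]) (.cons (.leaf 1 [(3,1),(11,1)]) (.cons (.leaf 1 [(5,1)]) (.cons (.leaf 1 [(3,1),(0,1),(8,1),(11,1)]) (.cons (.leaf 1 [(11,1)]) (.cons (.leaf 1 [(5,1)]) (.cons (.leaf 1 [(0,1),(8,1),(11,1)]) (.cons (.leaf 1 [(11,1),(3,1)]) (.cons (.leaf 1 [(5,1)]) (.cons (.leaf 1 [(11,1)]) .nil)))))))))))))) (.cons (.leaf 1 []) .nil)))))))))))))) .nil)))))))))))))) (.cons (.keep [2,5,7,10] (.node (.cons (.leaf 1 []) (.cons (.leaf 1 [(10,1)]) (.cons (.keep [4,8,9,10,11] (.node (.cons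 (.leaf 1 [(10,1),(6,1),(3,2)]) (.cons (.leaf 1 [(10,1),(8,2)]) (.cons (.leaf 1 [(10,1),(4,2),(6,1)]) (.cons (.leaf 1 [(3,1),(6,1)]) (.cons (.leaf 1 [(1,1),(8,1)]) (.cons (.leaf 1 [(4,1),(6,1)]) (.cons (.leaf 1 [(10,1),(8,1)]) (.cons (.leaf 1 [(10,1),(1,1),(8,2)]) (.cons (.leaf 1 [(4,1),(8,1),(10,1)]) (.cons (.leaf 1 [(10,1),(8,1),(3,1)]) (.cons (.leaf 1 [(10,1),(8,2),(1,1)]) (.cons (.leaf 1 [(10,1),(8,1)]) .nil)))))))))))))) (.cons (.leaf 1 [(1,1)]) (.cons (.leaf 1 [(1,1),(10,1)]) (.cons (.leaf 1 [(4,1),(1,1),(9,1)]) (.cons (.leaf 1 [(1,1)]) (.cons (.leaf 1 [(1,1),(10,1)]) (.cons (.leaf 1 [(1,1),(4,1)]) (.cons (.leaf 1 [(1,1)]) (.cons (.leaf 1 [(10,1),(1,1)]) (.cons (.keep [0,1,9,10] (.node (.cons (.leaf 1 [(3,1),(10,1)]) (.cons (.keep [4,8,9,10,11] (.node (.cons (.leaf 1 [(3,1)]) (.cons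 (.leaf 1 [(8,1)]) (.cons (.leaf 1 [(4,1)]) (.cons (.leaf 1 [(3,1)]) (.cons (.leaf 1 [(1,1),(8,1)]) (.cons (.leaf 1 [(4,1)]) (.cons (.leaf 1 []) (.cons (.leaf 1 [(1,1),(8,1)]) (.cons (.leaf 1 [(4,1)]) (.cons (.leaf 1 [(3,1)]) (.cons (.leaf 1 [(8,1),(1,1)]) (.cons (.leaf 1 []) .nil)))))))))))))) (.cons (.leaf 1 [(4,1),(10,1)]) (.cons (.leaf 1 [(1,1)]) (.cons (.leaf 1 [(1,1)]) (.cons (.leaf 1 [(1,1)]) (.cons (.leaf 1 [(10,1)]) (.cons (.leaf 1 [(11,1),(1,1)]) (.cons (.leaf 1 [(4,1),(10,1)]) (.cons (.leaf 1 [(3,1),(10,1)]) (.cons (.keep [1,8,9,10,11] (.node (.cons (.leaf 1 [(3,1)]) (.cons (.leaf 2 [(11,1),(3,1)]) (.cons (.leaf 1 [(4,1)]) (.cons (.leaf 1 [(3,1)]) (.cons (.leaf 2 [(3,1),(11,1)]) (.cons (.leaf 1 [(4,1)]) (.cons (.leaf 1 []) (.cons (.leaf 2 [(11,1)]) (.cons (.leaf 1 [(4,1)])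 (.cons (.leaf 1 [(3,1)]) (.cons (.leaf 2 [(11,1),(3,1)]) (.cons (.leaf 1 []) .nil)))))))))))))) (.cons (.leaf 1 [(10,1)]) .nil)))))))))))))) .nil)))))))))))))) (.cons (.keep [2,4,5,6,9,10] (.node (.cons (.leaf 1 [(11,1)]) (.cons (.leaf 1 []) (.cons (.keep [4,6,8,10,11] (.node (.cons (.leaf 1 [(6,1)]) (.cons (.leaf 1 [(11,1),(8,2)]) (.cons (.leaf 1 [(11,1),(4,2),(6,1)]) (.cons (.leaf 1 [(6,1)]) (.cons (.leaf 1 [(1,1),(11,1),(8,2)]) (.cons (.leaf 1 [(4,1),(11,1),(8,1)]) (.cons (.leaf 1 [(6,1)]) (.cons (.leaf 1 [(1,1),(8,1)]) (.cons (.leaf 1 [(4,1),(6,1)]) (.cons (.leaf 1 [(6,1)]) (.cons (.leaf 1 [(11,1),(8,2),(1,1)]) (.cons (.leaf 1 [(11,1),(8,1)]) .nil)))))))))))))) (.cons (.leaf 1 [(3,1),(10,1),(1,1)]) (.cons (.leaf 1 [(1,1)]) (.cons (.leaf 1 [(4,1),(1,1),(10,1)]) (.cons (.leaf 1 [(1,1),(11,1)])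 (.cons (.leaf 1 [(1,1)]) (.cons (.leaf 1 [(4,1),(1,1),(11,1)]) (.cons (.leaf 1 [(11,1),(1,1)]) (.cons (.leaf 1 [(1,1)]) (.cons (.keep [0,1,10,11] (.node (.cons (.leaf 1 [(6,1),(9,1)]) (.cons (.keep [4,8,9,10,11] (.node (.cons (.leaf 1 [(3,1),(11,1)]) (.cons (.leaf 1 [(3,1),(11,1)]) (.cons (.leaf 1 [(3,1),(11,1)]) (.cons (.leaf 1 [(1,1)]) (.cons (.leaf 1 [(1,1)]) (.cons (.leaf 1 [(1,1)]) (.cons (.leaf 1 [(12,1)]) (.cons (.leaf 1 [(8,1),(11,1),(5,1)]) (.cons (.leaf 1 [(0,1),(11,1),(12,1)]) (.cons (.leaf 1 [(3,1),(12,1)]) (.cons (.leaf 1 [(8,1),(11,1),(7,1),(3,1)]) (.cons (.leaf 1 [(12,1)]) .nil)))))))))))))) (.cons (.leaf 1 [(4,1),(10,1)]) (.cons (.leaf 1 [(6,1),(9,1)]) (.cons (.leaf 1 [(1,1),(11,1)]) (.cons (.leaf 1 [(4,1),(10,1)]) (.cons (.leaf 1 [(1,1)]) (.cons (.leaf 1 [(1,1)]) (.cons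 (.leaf 1 [(1,1)]) (.cons (.leaf 1 [(7,1),(1,1)]) (.cons (.keep [1,8,9,10,11] (.node (.cons (.leaf 1 [(3,1),(11,1),(8,1)]) (.cons (.leaf 1 [(3,1),(11,1),(8,1)]) (.cons (.leaf 1 [(3,1),(11,1),(8,1)]) (.cons (.leaf 1 [(1,1)]) (.cons (.leaf 1 [(1,1)]) (.cons (.leaf 1 [(1,1)]) (.cons (.leaf 1 [(12,1)]) (.cons (.leaf 1 [(11,1),(5,1)]) (.cons (.leaf 1 [(0,1),(11,1),(8,1),(12,1)]) (.cons (.leaf 1 [(3,1),(12,1)]) (.cons (.leaf 1 [(3,1),(11,1),(7,1)]) (.cons (.leaf 1 [(12,1)]) .nil)))))))))))))) (.cons (.leaf 1 [(10,1)]) .nil)))))))))))))) .nil)))))))))))))) (.cons (.keep [1,3,6,7,11] (.node (.cons (.leaf 1 [(10,1),(12,1)]) (.cons (.leaf 1 [(11,1),(12,1)]) (.cons (.keep [2,4,10,11,12] (.node (.cons (.leaf 1 [(3,1)]) (.cons (.leaf 1 [(9,1)]) (.cons (.leaf 1 [(4,1)]) (.cons (.leaf 1 [(3,1)]) (.cons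 (.leaf 1 [(1,1),(9,1)]) (.cons (.leaf 1 [(4,1)]) (.cons (.leaf 1 []) (.cons (.leaf 1 [(1,1),(9,1)]) (.cons (.leaf 1 [(4,1)]) (.cons (.leaf 1 [(3,1)]) (.cons (.leaf 1 [(9,1),(1,1)]) (.cons (.leaf 1 []) .nil)))))))))))))) (.cons (.leaf 1 [(1,1)]) (.cons (.leaf 1 [(1,1)]) (.cons (.leaf 1 [(1,1)]) (.cons (.leaf 1 [(10,1),(1,1)]) (.cons (.leaf 1 [(10,1),(1,1)]) (.cons (.leaf 1 [(10,1),(1,1)]) (.cons (.leaf 1 [(10,1),(7,1),(1,1)]) (.cons (.leaf 1 [(11,1),(7,1),(1,1)]) (.cons (.keep [0,1,10,11] (.node (.cons (.leaf 1 [(3,1)]) (.cons (.keep [4,9,10,11] (.node (.cons (.leaf 1 [(3,1)]) (.cons (.leaf 1 [(3,1)]) (.cons (.leaf 1 [(3,1)]) (.cons (.leaf 1 [(3,1),(10,1)]) (.cons (.leaf 1 [(8,1),(5,1)]) (.cons (.leaf 1 [(3,1),(0,1),(10,1)]) (.cons (.leaf 1 [(10,1)]) (.cons (.leaf 1 [(8,1),(5,1)]) (.cons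 (.leaf 1 [(0,1),(10,1)]) (.cons (.leaf 1 [(10,1),(3,1)]) (.cons (.leaf 1 [(8,1),(5,1)]) (.cons (.leaf 1 [(10,1)]) .nil)))))))))))))) (.cons (.leaf 1 [(4,1)]) (.cons (.leaf 1 [(3,1)]) (.cons (.leaf 1 [(1,1),(10,1)]) (.cons (.leaf 1 [(4,1)]) (.cons (.leaf 1 []) (.cons (.leaf 1 [(1,1),(11,1)]) (.cons (.leaf 1 [(4,1)]) (.cons (.leaf 1 [(3,1)]) (.cons (.keep [1,8,9,10,11] (.node (.cons (.leaf 1 [(3,1),(8,1)]) (.cons (.leaf 1 [(5,1)]) (.cons (.leaf 1 [(3,1),(8,1)]) (.cons (.leaf 1 [(3,1),(11,1)]) (.cons (.leaf 1 [(5,1)]) (.cons (.leaf 1 [(3,1),(0,1),(8,1),(11,1)]) (.cons (.leaf 1 [(11,1)]) (.cons (.leaf 1 [(5,1)]) (.cons (.leaf 1 [(0,1),(8,1),(11,1)]) (.cons (.leaf 1 [(11,1),(3,1)]) (.cons (.leaf 1 [(5,1)]) (.cons (.leaf 1 [(11,1)]) .nil)))))))))))))) (.cons (.leaf 1 []) .nil))))))))))))))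 .nil)))))))))))))) (.cons (.keep [1,5,7,8,11] (.node (.cons (.leaf 1 [(12,1)]) (.cons (.leaf 1 [(10,1),(12,1)]) (.cons (.keep [4,5,9,10,12] (.node (.cons (.leaf 1 [(3,1),(10,1)]) (.cons (.leaf 1 [(8,1),(10,1)]) (.cons (.leaf 1 [(4,1),(10,1)]) (.cons (.leaf 1 [(1,1)]) (.cons (.leaf 1 [(1,1)]) (.cons (.leaf 1 [(1,1)]) (.cons (.leaf 1 [(10,1)]) (.cons (.leaf 1 [(8,1),(1,1),(10,1)]) (.cons (.leaf 1 [(4,1),(10,1)]) (.cons (.leaf 1 [(3,1),(10,1)]) (.cons (.leaf 1 [(8,1),(10,1),(1,1)]) (.cons (.leaf 1 [(10,1)]) .nil)))))))))))))) (.cons (.leaf 1 [(1,1),(9,1)]) (.cons (.leaf 1 [(1,1),(9,1)]) (.cons (.leaf 1 [(1,1),(9,1)]) (.cons (.leaf 1 [(1,1)]) (.cons (.leaf 1 [(1,1)]) (.cons (.leaf 1 [(1,1)]) (.cons (.leaf 1 [(7,1),(1,1)]) (.cons (.leaf 1 [(10,1),(7,1),(1,1)]) (.cons (.keep [0,1,9,10] (.node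 (.cons (.leaf 1 [(3,1),(10,1)]) (.cons (.keep [4,8,9,10,11] (.node (.cons (.leaf 1 [(3,1)]) (.cons (.leaf 1 [(8,1)]) (.cons (.leaf 1 [(4,1)]) (.cons (.leaf 1 [(3,1)]) (.cons (.leaf 1 [(1,1),(8,1)]) (.cons (.leaf 1 [(4,1)]) (.cons (.leaf 1 []) (.cons (.leaf 1 [(1,1),(8,1)]) (.cons (.leaf 1 [(4,1)]) (.cons (.leaf 1 [(3,1)]) (.cons (.leaf 1 [(8,1),(1,1)]) (.cons (.leaf 1 []) .nil)))))))))))))) (.cons (.leaf 1 [(4,1),(10,1)]) (.cons (.leaf 1 [(1,1)]) (.cons (.leaf 1 [(1,1)]) (.cons (.leaf 1 [(1,1)]) (.cons (.leaf 1 [(10,1)]) (.cons (.leaf 1 [(11,1),(1,1)]) (.cons (.leaf 1 [(4,1),(10,1)]) (.cons (.leaf 1 [(3,1),(10,1)]) (.cons (.keep [1,8,9,10,11] (.node (.cons (.leaf 1 [(3,1)]) (.cons (.leaf 2 [(11,1),(3,1)]) (.cons (.leaf 1 [(4,1)]) (.cons (.leaf 1 [(3,1)]) (.cons (.leaf 2 [(3,1),(11,1)])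 (.cons (.leaf 1 [(4,1)]) (.cons (.leaf 1 []) (.cons (.leaf 2 [(11,1)]) (.cons (.leaf 1 [(4,1)]) (.cons (.leaf 1 [(3,1)]) (.cons (.leaf 2 [(11,1),(3,1)]) (.cons (.leaf 1 []) .nil)))))))))))))) (.cons (.leaf 1 [(10,1)]) .nil)))))))))))))) .nil)))))))))))))) (.cons (.keep [1,4,5,6,11] (.node (.cons (.leaf 1 [(12,1),(11,1)]) (.cons (.leaf 1 [(12,1)]) (.cons (.keep [4,6,10,11,12] (.node (.cons (.leaf 2 [(10,1)]) (.cons (.leaf 1 [(8,1),(10,1)]) (.cons (.leaf 1 [(4,1),(10,1)]) (.cons (.leaf 2 [(1,1),(10,1)]) (.cons (.leaf 1 [(1,1),(8,1),(10,1)]) (.cons (.leaf 1 [(4,1),(10,1)]) (.cons (.leaf 1 [(1,1)]) (.cons (.leaf 1 [(1,1)]) (.cons (.leaf 1 [(1,1)]) (.cons (.leaf 1 [(7,1),(1,1)]) (.cons (.leaf 1 [(8,1),(10,1),(1,1)]) (.cons (.leaf 1 [(10,1)]) .nil)))))))))))))) (.cons (.leaf 1 [(1,1),(10,1)])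 (.cons (.leaf 1 [(1,1),(10,1)]) (.cons (.leaf 1 [(1,1),(10,1)]) (.cons (.leaf 1 [(1,1),(11,1)]) (.cons (.leaf 1 [(1,1),(5,1)]) (.cons (.leaf 1 [(1,1),(11,1)]) (.cons (.leaf 1 [(7,1),(11,1),(1,1)]) (.cons (.leaf 1 [(7,1),(1,1)]) (.cons (.keep [0,1,10,11] (.node (.cons (.leaf 1 [(6,1),(9,1)]) (.cons (.keep [4,8,9,10,11] (.node (.cons (.leaf 1 [(3,1),(11,1)]) (.cons (.leaf 1 [(3,1),(11,1)]) (.cons (.leaf 1 [(3,1),(11,1)]) (.cons (.leaf 1 [(1,1)]) (.cons (.leaf 1 [(1,1)]) (.cons (.leaf 1 [(1,1)]) (.cons (.leaf 1 [(12,1)]) (.cons (.leaf 1 [(8,1),(11,1),(5,1)]) (.cons (.leaf 1 [(0,1),(11,1),(12,1)]) (.cons (.leaf 1 [(3,1),(12,1)]) (.cons (.leaf 1 [(8,1),(11,1),(7,1),(3,1)]) (.cons (.leaf 1 [(12,1)]) .nil)))))))))))))) (.cons (.leaf 1 [(4,1),(10,1)]) (.cons (.leaf 1 [(6,1),(9,1)]) (.cons (.leaf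 1 [(1,1),(11,1)]) (.cons (.leaf 1 [(4,1),(10,1)]) (.cons (.leaf 1 [(1,1)]) (.cons (.leaf 1 [(1,1)]) (.cons (.leaf 1 [(1,1)]) (.cons (.leaf 1 [(7,1),(1,1)]) (.cons (.keep [1,8,9,10,11] (.node (.cons (.leaf 1 [(3,1),(11,1),(8,1)]) (.cons (.leaf 1 [(3,1),(11,1),(8,1)]) (.cons (.leaf 1 [(3,1),(11,1),(8,1)]) (.cons (.leaf 1 [(1,1)]) (.cons (.leaf 1 [(1,1)]) (.cons (.leaf 1 [(1,1)]) (.cons (.leaf 1 [(12,1)]) (.cons (.leaf 1 [(11,1),(5,1)]) (.cons (.leaf 1 [(0,1),(11,1),(8,1),(12,1)]) (.cons (.leaf 1 [(3,1),(12,1)]) (.cons (.leaf 1 [(3,1),(11,1),(7,1)]) (.cons (.leaf 1 [(12,1)]) .nil)))))))))))))) (.cons (.leaf 1 [(10,1)]) .nil)))))))))))))) .nil)))))))))))))) (.cons (.leaf 1 [(9,1),(1,1)]) (.cons (.leaf 1 [(9,1),(5,1),(1,1)]) (.cons (.leaf 1 [(9,1),(5,1),(1,1)]) (.cons (.leaf 1 [(1,1),(7,2),(9,1)])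 (.cons (.leaf 1 [(1,1),(7,2),(10,1)]) (.cons (.keep [0,1,9,10] (.node (.cons (.leaf 1 [(3,1)]) (.cons (.keep [4,9,10,11] (.node (.cons (.leaf 1 [(3,1)]) (.cons (.leaf 1 [(3,1)]) (.cons (.leaf 1 [(3,1)]) (.cons (.leaf 1 [(3,1),(10,1)]) (.cons (.leaf 1 [(8,1),(5,1)]) (.cons (.leaf 1 [(3,1),(0,1),(10,1)]) (.cons (.leaf 1 [(10,1)]) (.cons (.leaf 1 [(8,1),(5,1)]) (.cons (.leaf 1 [(0,1),(10,1)]) (.cons (.leaf 1 [(10,1),(3,1)]) (.cons (.leaf 1 [(8,1),(5,1)]) (.cons (.leaf 1 [(10,1)]) .nil)))))))))))))) (.cons (.leaf 1 [(4,1)]) (.cons (.leaf 1 [(3,1)]) (.cons (.leaf 1 [(1,1),(10,1)]) (.cons (.leaf 1 [(4,1)]) (.cons (.leaf 1 []) (.cons (.leaf 1 [(1,1),(11,1)]) (.cons (.leaf 1 [(4,1)]) (.cons (.leaf 1 [(3,1)]) (.cons (.keep [1,8,9,10,11] (.node (.cons (.leaf 1 [(3,1),(8,1)]) (.cons (.leaf 1 [(5,1)])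 (.cons (.leaf 1 [(3,1),(8,1)]) (.cons (.leaf 1 [(3,1),(11,1)]) (.cons (.leaf 1 [(5,1)]) (.cons (.leaf 1 [(3,1),(0,1),(8,1),(11,1)]) (.cons (.leaf 1 [(11,1)]) (.cons (.leaf 1 [(5,1)]) (.cons (.leaf 1 [(0,1),(8,1),(11,1)]) (.cons (.leaf 1 [(11,1),(3,1)]) (.cons (.leaf 1 [(5,1)]) (.cons (.leaf 1 [(11,1)]) .nil)))))))))))))) (.cons (.leaf 1 []) .nil)))))))))))))) .nil)))))))))))))

theorem c_23_28_0 : Concl 23 28 z_23_28_0 h_23_28_0 .nd := piece _ hP_nil t_23_28_0 _ _ (by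
  decide +kernel)

def t_23_28 : T := (.keep [0,1,2] (.node (.cons (.keep [2,3,6,7] (.node (.cons (.leaf 1 [(10,1),(8,1)]) (.cons (.leaf 1 [(11,1),(8,1)]) (.cons (.keep [2,4,8,10,11] (.node (.cons (.leaf 1 [(3,1)]) (.cons (.leaf 1 [(9,1)]) (.cons (.leaf 1 [(4,1)]) (.cons (.leaf 1 [(3,1)]) (.cons (.leaf 1 [(1,1),(9,1)]) (.cons (.leaf 1 [(4,1)]) (.cons (.leaf 1 []) (.cons (.leaf 1 [(1,1),(9,1)]) (.cons (.leaf 1 [(4,1)]) (.cons (.leaf 1 [(3,1)]) (.cons (.leaf 1 [(9,1),(1,1)]) (.cons (.leaf 1 []) .nil)))))))))))))) (.cons (.leaf 1 [(1,1)]) (.cons (.leaf 1 [(1,1)]) (.cons (.leaf 1 [(1,1)]) (.cons (.leaf 1 [(10,1),(1,1)]) (.cons (.leaf 1 [(10,1),(1,1)]) (.cons (.leaf 1 [(10,1),(1,1)]) (.cons (.leaf 1 [(10,1),(7,1),(1,1)]) (.cons (.leaf 1 [(11,1),(7,1),(1,1)]) (.cons (.keep [0,1,10,11] (.node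 (.cons (.leaf 1 [(3,1)]) (.cons (.keep [4,9,10,11] (.node (.cons (.leaf 1 [(3,1)]) (.cons (.leaf 1 [(3,1)]) (.cons (.leaf 1 [(3,1)]) (.cons (.leaf 1 [(3,1),(10,1)]) (.cons (.leaf 1 [(8,1),(5,1)]) (.cons (.leaf 1 [(3,1),(0,1),(10,1)]) (.cons (.leaf 1 [(10,1)]) (.cons (.leaf 1 [(8,1),(5,1)]) (.cons (.leaf 1 [(0,1),(10,1)]) (.cons (.leaf 1 [(10,1),(3,1)]) (.cons (.leaf 1 [(8,1),(5,1)]) (.cons (.leaf 1 [(10,1)]) .nil)))))))))))))) (.cons (.leaf 1 [(4,1)]) (.cons (.leaf 1 [(3,1)]) (.cons (.leaf 1 [(1,1),(10,1)]) (.cons (.leaf 1 [(4,1)]) (.cons (.leaf 1 []) (.cons (.leaf 1 [(1,1),(11,1)]) (.cons (.leaf 1 [(4,1)]) (.cons (.leaf 1 [(3,1)]) (.cons (.keep [1,8,9,10,11] (.node (.cons (.leaf 1 [(3,1),(8,1)]) (.cons (.leaf 1 [(5,1)]) (.cons (.leaf 1 [(3,1),(8,1)]) (.cons (.leaf 1 [(3,1),(11,1)])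 (.cons (.leaf 1 [(5,1)]) (.cons (.leaf 1 [(3,1),(0,1),(8,1),(11,1)]) (.cons (.leaf 1 [(11,1)]) (.cons (.leaf 1 [(5,1)]) (.cons (.leaf 1 [(0,1),(8,1),(11,1)]) (.cons (.leaf 1 [(11,1),(3,1)]) (.cons (.leaf 1 [(5,1)]) (.cons (.leaf 1 [(11,1)]) .nil)))))))))))))) (.cons (.leaf 1 []) .nil)))))))))))))) .nil)))))))))))))) (.cons (.keep [2,5,7,10] (.node (.cons (.leaf 1 [(8,1)]) (.cons (.leaf 1 [(10,1),(8,1)]) (.cons (.keep [4,5,8,9,10] (.node (.cons (.leaf 1 [(3,1),(11,1)]) (.cons (.leaf 1 [(8,1),(11,1)]) (.cons (.leaf 1 [(4,1),(11,1)]) (.cons (.leaf 1 [(1,1)]) (.cons (.leaf 1 [(1,1)]) (.cons (.leaf 1 [(1,1)]) (.cons (.leaf 1 [(11,1)]) (.cons (.leaf 1 [(8,1),(1,1),(11,1)]) (.cons (.leaf 1 [(4,1),(11,1)]) (.cons (.leaf 1 [(3,1),(11,1)]) (.cons (.leaf 1 [(8,1),(11,1),(1,1)]) (.cons (.leaf 1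 [(11,1)]) .nil)))))))))))))) (.cons (.leaf 1 [(1,1),(8,1)]) (.cons (.leaf 1 [(1,1),(9,1)]) (.cons (.leaf 1 [(1,1),(9,1)]) (.cons (.leaf 1 [(1,1)]) (.cons (.leaf 1 [(1,1)]) (.cons (.leaf 1 [(1,1)]) (.cons (.leaf 1 [(7,1),(1,1)]) (.cons (.leaf 1 [(10,1),(7,1),(1,1)]) (.cons (.keep [0,1,9,10] (.node (.cons (.leaf 1 [(3,1),(10,1)]) (.cons (.keep [4,8,9,10,11] (.node (.cons (.leaf 1 [(3,1)]) (.cons (.leaf 1 [(8,1)]) (.cons (.leaf 1 [(4,1)]) (.cons (.leaf 1 [(3,1)]) (.cons (.leaf 1 [(1,1),(8,1)]) (.cons (.leaf 1 [(4,1)]) (.cons (.leaf 1 []) (.cons (.leaf 1 [(1,1),(8,1)]) (.cons (.leaf 1 [(4,1)]) (.cons (.leaf 1 [(3,1)]) (.cons (.leaf 1 [(8,1),(1,1)]) (.cons (.leaf 1 []) .nil)))))))))))))) (.cons (.leaf 1 [(4,1),(10,1)]) (.cons (.leaf 1 [(1,1)]) (.cons (.leaf 1 [(1,1)]) (.cons (.leaf 1 [(1,1)])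 (.cons (.leaf 1 [(10,1)]) (.cons (.leaf 1 [(11,1),(1,1)]) (.cons (.leaf 1 [(4,1),(10,1)]) (.cons (.leaf 1 [(3,1),(10,1)]) (.cons (.keep [1,8,9,10,11] (.node (.cons (.leaf 1 [(3,1)]) (.cons (.leaf 2 [(11,1),(3,1)]) (.cons (.leaf 1 [(4,1)]) (.cons (.leaf 1 [(3,1)]) (.cons (.leaf 2 [(3,1),(11,1)]) (.cons (.leaf 1 [(4,1)]) (.cons (.leaf 1 []) (.cons (.leaf 2 [(11,1)]) (.cons (.leaf 1 [(4,1)]) (.cons (.leaf 1 [(3,1)]) (.cons (.leaf 2 [(11,1),(3,1)]) (.cons (.leaf 1 []) .nil)))))))))))))) (.cons (.leaf 1 [(10,1)]) .nil)))))))))))))) .nil)))))))))))))) (.cons (.keep [0,2,5,6] (.node (.cons (.leaf 1 [(9,1),(11,1)]) (.cons (.leaf 1 [(9,1)]) (.cons (.keep [4,8,9,10,11] (.node (.cons (.leaf 1 [(6,1),(10,1)]) (.cons (.leaf 1 [(8,1),(11,1)]) (.cons (.leaf 1 [(4,1),(11,1)]) (.cons (.leaf 1 [(6,1),(10,1)])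 (.cons (.leaf 1 [(1,1),(8,1),(11,1)]) (.cons (.leaf 1 [(4,1),(11,1)]) (.cons (.leaf 1 [(1,1)]) (.cons (.leaf 1 [(1,1)]) (.cons (.leaf 1 [(1,1)]) (.cons (.leaf 1 [(7,1),(1,1)]) (.cons (.leaf 1 [(8,1),(11,1),(1,1)]) (.cons (.leaf 1 [(11,1)]) .nil)))))))))))))) (.cons (.leaf 1 [(1,1),(10,1)]) (.cons (.leaf 1 [(1,1),(9,1)]) (.cons (.leaf 1 [(1,1),(10,1)]) (.cons (.leaf 1 [(1,1),(11,1)]) (.cons (.leaf 1 [(1,1),(5,1)]) (.cons (.leaf 1 [(1,1),(11,1)]) (.cons (.leaf 1 [(7,1),(11,1),(1,1)]) (.cons (.leaf 1 [(7,1),(1,1)]) (.cons (.keep [0,1,10,11] (.node (.cons (.leaf 1 [(6,1),(9,1)]) (.cons (.keep [4,8,9,10,11] (.node (.cons (.leaf 1 [(3,1),(11,1)]) (.cons (.leaf 1 [(3,1),(11,1)]) (.cons (.leaf 1 [(3,1),(11,1)]) (.cons (.leaf 1 [(1,1)]) (.cons (.leaf 1 [(1,1)]) (.cons (.leaf 1 [(1,1)]) (.cons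 (.leaf 1 [(12,1)]) (.cons (.leaf 1 [(8,1),(11,1),(5,1)]) (.cons (.leaf 1 [(0,1),(11,1),(12,1)]) (.cons (.leaf 1 [(3,1),(12,1)]) (.cons (.leaf 1 [(8,1),(11,1),(7,1),(3,1)]) (.cons (.leaf 1 [(12,1)]) .nil)))))))))))))) (.cons (.leaf 1 [(4,1),(10,1)]) (.cons (.leaf 1 [(6,1),(9,1)]) (.cons (.leaf 1 [(1,1),(11,1)]) (.cons (.leaf 1 [(4,1),(10,1)]) (.cons (.leaf 1 [(1,1)]) (.cons (.leaf 1 [(1,1)]) (.cons (.leaf 1 [(1,1)]) (.cons (.leaf 1 [(7,1),(1,1)]) (.cons (.keep [1,8,9,10,11] (.node (.cons (.leaf 1 [(3,1),(11,1),(8,1)]) (.cons (.leaf 1 [(3,1),(11,1),(8,1)]) (.cons (.leaf 1 [(3,1),(11,1),(8,1)]) (.cons (.leaf 1 [(1,1)]) (.cons (.leaf 1 [(1,1)]) (.cons (.leaf 1 [(1,1)]) (.cons (.leaf 1 [(12,1)]) (.cons (.leaf 1 [(11,1),(5,1)]) (.cons (.leaf 1 [(0,1),(11,1),(8,1),(12,1)]) (.cons (.leaf 1 [(3,1),(12,1)])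 (.cons (.leaf 1 [(3,1),(11,1),(7,1)]) (.cons (.leaf 1 [(12,1)]) .nil)))))))))))))) (.cons (.leaf 1 [(10,1)]) .nil)))))))))))))) .nil)))))))))))))) (.cons (.keep [1,6,7,8] (.leaf 0 [(0,0)])) (.cons (.keep [1,5,7,8] (.node (.cons (.keep [3,6,7,9] (.node (.cons (.leaf 1 [(3,2),(11,2)]) (.cons (.leaf 1 [(10,1),(11,1)]) (.cons (.leaf 1 [(4,2),(11,2)]) (.cons (.leaf 1 [(1,2)]) (.cons (.leaf 1 [(1,2)]) (.cons (.leaf 1 [(1,2)]) (.cons (.leaf 1 [(9,2),(1,2)]) (.cons (.leaf 1 [(9,2),(1,2)]) (.cons (.leaf 1 [(9,2),(1,2)]) (.cons (.leaf 1 [(9,2),(7,2),(1,2)]) (.cons (.leaf 1 [(10,2),(7,2),(1,2)]) (.cons (.leaf 1 [(11,2)]) .nil)))))))))))))) (.cons (.keep [5,7,8,9,10] (.node (.cons (.leaf 1 [(11,1)]) (.cons (.leaf 1 [(9,1),(11,1)]) (.cons (.leaf 1 [(4,2),(8,1),(11,2)]) (.cons (.leaf 1 [(1,2),(8,1)])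 (.cons (.leaf 1 [(1,2),(8,1)]) (.cons (.leaf 1 [(1,2),(8,1)]) (.cons (.leaf 1 [(11,1),(1,1)]) (.cons (.leaf 1 [(9,1),(1,1),(11,1)]) (.cons (.leaf 1 [(4,1),(1,1),(11,1)]) (.cons (.leaf 1 [(11,1),(1,1)]) (.cons (.leaf 1 [(9,1),(11,1),(1,1)]) (.cons (.leaf 1 [(11,2),(8,1)]) .nil)))))))))))))) (.cons (.keep [4,5,9,10] (.node (.cons (.leaf 1 [(3,2),(10,2),(9,1)]) (.cons (.leaf 1 [(10,1)]) (.cons (.leaf 1 [(4,2),(9,1),(10,2)]) (.cons (.leaf 1 [(1,2),(9,1)]) (.cons (.leaf 1 [(1,2),(9,1)]) (.cons (.leaf 1 [(1,2),(9,1)]) (.cons (.leaf 1 [(10,2),(9,1)]) (.cons (.leaf 1 [(1,1),(10,1)]) (.cons (.leaf 1 [(4,2),(9,1),(10,2)]) (.cons (.leaf 1 [(3,2),(10,2),(9,1)]) (.cons (.leaf 1 [(10,1),(1,1)]) (.cons (.leaf 1 [(10,2),(9,1)]) .nil)))))))))))))) (.cons (.leaf 1 [(9,2),(1,1)]) (.cons (.leaf 1 [(9,2),(1,1),(5,1)])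 (.cons (.leaf 1 [(9,2),(1,1),(5,1)]) (.cons (.leaf 1 [(1,1)]) (.cons (.leaf 1 [(1,1),(5,1)]) (.cons (.leaf 1 [(1,1),(5,1)]) (.cons (.leaf 1 [(1,1),(7,2)]) (.cons (.leaf 1 [(1,1),(7,2),(10,1)]) (.cons (.keep [0,1,9,10] (.node (.cons (.leaf 1 [(3,1),(10,1)]) (.cons (.keep [4,8,9,10,11] (.node (.cons (.leaf 1 [(3,1)]) (.cons (.leaf 1 [(8,1)]) (.cons (.leaf 1 [(4,1)]) (.cons (.leaf 1 [(3,1)]) (.cons (.leaf 1 [(1,1),(8,1)]) (.cons (.leaf 1 [(4,1)]) (.cons (.leaf 1 []) (.cons (.leaf 1 [(1,1),(8,1)]) (.cons (.leaf 1 [(4,1)]) (.cons (.leaf 1 [(3,1)]) (.cons (.leaf 1 [(8,1),(1,1)]) (.cons (.leaf 1 []) .nil)))))))))))))) (.cons (.leaf 1 [(4,1),(10,1)]) (.cons (.leaf 1 [(1,1)]) (.cons (.leaf 1 [(1,1)]) (.cons (.leaf 1 [(1,1)]) (.cons (.leaf 1 [(10,1)]) (.cons (.leaf 1 [(11,1),(1,1)]) (.cons (.leaf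 1 [(4,1),(10,1)]) (.cons (.leaf 1 [(3,1),(10,1)]) (.cons (.keep [1,8,9,10,11] (.node (.cons (.leaf 1 [(3,1)]) (.cons (.leaf 2 [(11,1),(3,1)]) (.cons (.leaf 1 [(4,1)]) (.cons (.leaf 1 [(3,1)]) (.cons (.leaf 2 [(3,1),(11,1)]) (.cons (.leaf 1 [(4,1)]) (.cons (.leaf 1 []) (.cons (.leaf 2 [(11,1)]) (.cons (.leaf 1 [(4,1)]) (.cons (.leaf 1 [(3,1)]) (.cons (.leaf 2 [(11,1),(3,1)]) (.cons (.leaf 1 []) .nil)))))))))))))) (.cons (.leaf 1 [(10,1)]) .nil)))))))))))))) .nil)))))))))))))) (.cons (.keep [1,5,6,8] (.node (.cons (.keep [6,7,9,10,11] (.node (.cons (.leaf 1 [(8,1),(10,1)]) (.cons (.leaf 1 [(9,1),(10,1)]) (.cons (.leaf 1 [(8,1),(4,2),(10,2)]) (.cons (.leaf 2 [(1,3),(10,1)]) (.cons (.leaf 1 [(1,1),(9,1),(10,1)]) (.cons (.leaf 1 [(1,1),(4,1),(10,1)]) (.cons (.leaf 1 [(8,1),(1,2)]) (.cons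 (.leaf 1 [(8,1),(1,2)]) (.cons (.leaf 1 [(8,1),(1,2)]) (.cons (.leaf 1 [(8,1),(7,2),(1,2)]) (.cons (.leaf 1 [(9,1),(10,1),(1,1)]) (.cons (.leaf 1 [(8,1),(10,2)]) .nil)))))))))))))) (.cons (.keep [5,7,8,9] (.node (.cons (.leaf 1 [(11,1)]) (.cons (.leaf 1 [(9,1),(11,1)]) (.cons (.leaf 1 [(4,2),(11,2)]) (.cons (.leaf 1 [(1,2),(8,2)]) (.cons (.leaf 1 [(1,2),(8,2)]) (.cons (.leaf 1 [(1,2),(8,2)]) (.cons (.leaf 1 [(1,2)]) (.cons (.leaf 1 [(1,2)]) (.cons (.leaf 1 [(1,2)]) (.cons (.leaf 1 [(7,2),(1,2)]) (.cons (.leaf 1 [(9,2),(7,2),(1,2)]) (.cons (.leaf 1 [(11,2)]) .nil)))))))))))))) (.cons (.keep [4,6,9,10] (.node (.cons (.leaf 1 [(10,1),(9,1)]) (.cons (.leaf 1 [(10,1)]) (.cons (.leaf 1 [(4,2),(9,1),(10,2)]) (.cons (.leaf 1 [(1,1),(10,1),(9,1)]) (.cons (.leaf 1 [(1,1),(10,1)]) (.cons (.leaf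 1 [(4,2),(9,1),(10,2)]) (.cons (.leaf 1 [(1,2),(9,1)]) (.cons (.leaf 1 [(1,2),(5,1)]) (.cons (.leaf 1 [(1,2),(9,1)]) (.cons (.leaf 1 [(7,2),(9,1),(1,2)]) (.cons (.leaf 1 [(10,1),(1,1)]) (.cons (.leaf 1 [(10,2),(9,1)]) .nil)))))))))))))) (.cons (.leaf 1 [(9,2),(6,1),(1,1)]) (.cons (.leaf 1 [(9,2),(1,1)]) (.cons (.leaf 1 [(9,2),(1,1),(6,1)]) (.cons (.leaf 1 [(1,1),(10,1)]) (.cons (.leaf 1 [(5,2),(1,1)]) (.cons (.leaf 1 [(5,1),(10,1),(1,1)]) (.cons (.leaf 1 [(7,2),(1,1),(10,1)]) (.cons (.leaf 1 [(1,1),(7,2)]) (.cons (.keep [0,1,9,10] (.node (.cons (.leaf 1 [(6,1),(9,1)]) (.cons (.keep [4,8,9,10,11] (.node (.cons (.leaf 1 [(3,1),(11,1)]) (.cons (.leaf 1 [(3,1),(11,1)]) (.cons (.leaf 1 [(3,1),(11,1)]) (.cons (.leaf 1 [(1,1)]) (.cons (.leaf 1 [(1,1)]) (.cons (.leaf 1 [(1,1)]) (.cons (.leaf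 1 [(12,1)]) (.cons (.leaf 1 [(8,1),(11,1),(5,1)]) (.cons (.leaf 1 [(0,1),(11,1),(12,1)]) (.cons (.leaf 1 [(3,1),(12,1)]) (.cons (.leaf 1 [(8,1),(11,1),(7,1),(3,1)]) (.cons (.leaf 1 [(12,1)]) .nil)))))))))))))) (.cons (.leaf 1 [(4,1),(10,1)]) (.cons (.leaf 1 [(6,1),(9,1)]) (.cons (.leaf 1 [(1,1),(11,1)]) (.cons (.leaf 1 [(4,1),(10,1)]) (.cons (.leaf 1 [(1,1)]) (.cons (.leaf 1 [(1,1)]) (.cons (.leaf 1 [(1,1)]) (.cons (.leaf 1 [(7,1),(1,1)]) (.cons (.keep [1,8,9,10,11] (.node (.cons (.leaf 1 [(3,1),(11,1),(8,1)]) (.cons (.leaf 1 [(3,1),(11,1),(8,1)]) (.cons (.leaf 1 [(3,1),(11,1),(8,1)]) (.cons (.leaf 1 [(1,1)]) (.cons (.leaf 1 [(1,1)]) (.cons (.leaf 1 [(1,1)]) (.cons (.leaf 1 [(12,1)]) (.cons (.leaf 1 [(11,1),(5,1)]) (.cons (.leaf 1 [(0,1),(11,1),(8,1),(12,1)]) (.cons (.leaf 1 [(3,1),(12,1)])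 (.cons (.leaf 1 [(3,1),(11,1),(7,1)]) (.cons (.leaf 1 [(12,1)]) .nil)))))))))))))) (.cons (.leaf 1 [(10,1)]) .nil)))))))))))))) .nil)))))))))))))) (.cons (.leaf 1 []) (.cons (.leaf 1 [(5,1)]) (.cons (.leaf 1 [(5,1)]) (.cons (.leaf 1 [(7,1)]) (.cons (.leaf 1 [(7,1)]) (.cons (.leaf 1 []) .nil))))))))))))))

theorem e_23_28 : ESB (caseOf 4 23 28) := esb_of_pieces _ (hP_cons c_23_28_0 hP_nil) t_23_28 (by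
  decide +kernel)

def t_23_29 : T := (.keep [0,1,2] (.node (.cons (.leaf 1 []) (.cons (.leaf 1 [(5,1)]) (.cons (.leaf 1 [(5,1)]) (.cons (.leaf 1 [(5,1)]) (.cons (.keep [1,6,7,8] (.node (.cons (.leaf 1 []) (.cons (.leaf 1 [(5,1)]) (.cons (.leaf 1 [(5,1)]) (.cons (.leaf 1 [(5,1)]) (.cons (.leaf 1 [(10,1)]) (.cons (.leaf 1 [(10,1),(5,1)]) (.cons (.leaf 1 [(10,1),(5,1)]) (.cons (.leaf 1 [(10,1),(5,1)]) (.cons (.leaf 1 [(6,1)]) (.cons (.leaf 1 []) (.cons (.leaf 1 [(6,1)]) (.cons (.leaf 1 [(6,1)]) (.cons (.leaf 1 [(8,1)]) (.cons (.leaf 1 [(8,1)]) (.cons (.leaf 1 [(8,1)]) (.cons (.leaf 1 []) .nil)))))))))))))))))) (.cons (.keep [5,7,8,9,10] (.node (.cons (.leaf 1 [(9,1)]) (.cons (.leaf 1 [(9,1),(5,1)]) (.cons (.leaf 1 [(9,1),(5,1)]) (.cons (.leaf 1 [(9,1),(5,1)]) (.cons (.leaf 1 []) (.cons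 (.leaf 1 [(5,1)]) (.cons (.leaf 1 [(5,1)]) (.cons (.leaf 1 [(5,1)]) (.cons (.leaf 1 [(9,1),(6,1)]) (.cons (.leaf 1 [(9,1)]) (.cons (.leaf 1 [(9,1),(6,1)]) (.cons (.leaf 1 [(9,1),(6,1)]) (.cons (.leaf 1 [(9,1),(8,1)]) (.cons (.leaf 1 [(9,1),(8,1)]) (.cons (.leaf 1 [(9,1),(8,1)]) (.cons (.leaf 1 [(9,1)]) .nil)))))))))))))))))) (.cons (.keep [5,6,8,9,11] (.node (.cons (.leaf 1 [(9,1)]) (.cons (.leaf 1 [(5,2)]) (.cons (.leaf 1 [(9,1),(5,1)]) (.cons (.leaf 1 [(9,1),(5,1)]) (.cons (.leaf 1 [(10,1)]) (.cons (.leaf 1 [(10,1),(5,1)]) (.cons (.leaf 1 [(10,1),(5,1)]) (.cons (.leaf 1 [(10,1),(5,1)]) (.cons (.leaf 1 []) (.cons (.leaf 1 [(1,1)]) (.cons (.leaf 1 [(5,1)]) (.cons (.leaf 1 [(5,1)]) (.cons (.leaf 1 [(9,1),(8,1)]) (.cons (.leaf 1 [(5,1),(8,1)]) (.cons (.leaf 1 [(9,1),(8,1)]) (.cons (.leaf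 1 [(9,1)]) .nil)))))))))))))))))) (.cons (.keep [4,5,6,7,9] (.node (.cons (.leaf 1 [(10,1)]) (.cons (.leaf 1 [(5,1),(10,1)]) (.cons (.leaf 1 [(5,2)]) (.cons (.leaf 1 [(10,1),(5,1)]) (.cons (.leaf 1 [(11,1)]) (.cons (.leaf 1 [(5,1),(11,1)]) (.cons (.leaf 1 [(11,1),(5,1)]) (.cons (.leaf 1 [(11,1),(5,1)]) (.cons (.leaf 1 [(6,1),(10,1)]) (.cons (.leaf 1 [(10,1)]) (.cons (.leaf 1 [(6,1),(5,1)]) (.cons (.leaf 1 [(10,1),(6,1)]) (.cons (.leaf 1 [(10,1),(8,1)]) (.cons (.leaf 1 [(8,1),(10,1)]) (.cons (.leaf 1 [(5,1),(8,1)]) (.cons (.leaf 1 [(10,1)]) .nil)))))))))))))))))) (.cons (.leaf 1 [(6,1)]) (.cons (.leaf 1 []) (.cons (.leaf 1 [(6,1)]) (.cons (.leaf 1 [(6,1)]) (.cons (.leaf 1 [(8,1)]) (.cons (.leaf 1 [(8,1)]) (.cons (.leaf 1 [(8,1)]) (.cons (.leaf 1 []) .nil))))))))))))))))))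

theorem e_23_29 : ESB (caseOf 4 23 29) := esb_of_ok (t := t_23_29) (by decide +kernel)

def t_23_30 : T := (.keep [0,1,2] (.node (.cons (.keep [2,6,7,8] (.node (.cons (.leaf 1 [(2,1)]) (.cons (.leaf 1 [(3,1)]) (.cons (.leaf 2 [(12,1)]) (.cons (.leaf 1 [(4,1)]) (.cons (.leaf 1 []) (.cons (.leaf 1 [(3,1)]) (.cons (.leaf 1 [(1,1),(10,1)]) (.cons (.leaf 1 [(4,1)]) (.cons (.leaf 1 [(2,1)]) (.cons (.leaf 1 []) (.cons (.leaf 1 [(1,1),(11,1)]) (.cons (.leaf 1 [(4,1)]) (.cons (.leaf 1 [(2,1)]) (.cons (.leaf 1 [(3,1)]) (.cons (.leaf 2 [(12,1),(1,1)]) (.cons (.leaf 1 []) .nil)))))))))))))))))) (.cons (.keep [3,5,7,8] (.node (.cons (.leaf 2 [(10,1)]) (.cons (.leaf 1 [(3,1),(10,1)]) (.cons (.leaf 2 [(12,1),(10,1)]) (.cons (.leaf 1 [(4,1),(10,1)]) (.cons (.leaf 1 [(1,1)]) (.cons (.leaf 1 [(1,1)])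 (.cons (.leaf 1 [(1,1)]) (.cons (.leaf 1 [(1,1)]) (.cons (.leaf 1 [(6,1),(1,1)]) (.cons (.leaf 1 [(10,1)]) (.cons (.leaf 1 [(11,1),(1,1)]) (.cons (.leaf 1 [(4,1),(10,1)]) (.cons (.leaf 1 [(8,1),(1,1)]) (.cons (.leaf 1 [(3,1),(10,1)]) (.cons (.leaf 2 [(12,1),(10,1),(1,1)]) (.cons (.leaf 1 [(10,1)]) .nil)))))))))))))))))) (.cons (.keep [5,6,8,11] (.node (.cons (.leaf 1 [(9,1),(2,1)]) (.cons (.leaf 2 [(9,1)]) (.cons (.leaf 2 [(11,1),(9,1)]) (.cons (.leaf 1 [(4,1),(9,1)]) (.cons (.leaf 1 [(9,1)]) (.cons (.leaf 1 [(1,1),(5,1)]) (.cons (.leaf 1 [(1,1),(10,1)]) (.cons (.leaf 1 [(4,1),(9,1)]) (.cons (.leaf 1 [(1,1)]) (.cons (.leaf 1 [(1,1)]) (.cons (.leaf 1 [(1,1)]) (.cons (.leaf 1 [(1,1)]) (.cons (.leaf 1 [(9,1),(2,1)]) (.cons (.leaf 1 [(8,1),(1,1)]) (.cons (.leaf 2 [(11,1),(9,1),(1,1)]) (.cons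 (.leaf 1 [(9,1)]) .nil)))))))))))))))))) (.cons (.keep [0,5,6,7] (.node (.cons (.leaf 1 [(10,1),(2,1)]) (.cons (.leaf 1 [(10,1),(3,1)]) (.cons (.leaf 2 [(10,1)]) (.cons (.leaf 1 [(4,1),(10,1)]) (.cons (.leaf 1 [(10,1)]) (.cons (.leaf 1 [(10,1),(3,1)]) (.cons (.leaf 1 [(1,1),(5,1)]) (.cons (.leaf 1 [(4,1),(10,1)]) (.cons (.leaf 1 [(10,1),(2,1)]) (.cons (.leaf 1 [(10,1)]) (.cons (.leaf 1 [(1,1),(6,1)]) (.cons (.leaf 1 [(4,1),(10,1)]) (.cons (.leaf 1 [(10,1),(2,1)]) (.cons (.leaf 1 [(10,1),(3,1)]) (.cons (.leaf 1 [(8,1),(1,1)]) (.cons (.leaf 1 [(10,1)]) .nil)))))))))))))))))) (.cons (.leaf 1 []) (.cons (.leaf 1 [(5,1)]) (.cons (.leaf 1 [(5,1)]) (.cons (.leaf 1 [(5,1)]) (.cons (.leaf 1 [(6,1)]) (.cons (.leaf 1 []) (.cons (.leaf 1 [(6,1)]) (.cons (.leaf 1 [(6,1)]) (.cons (.leaf 1 [(8,1)])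 (.cons (.leaf 1 [(8,1)]) (.cons (.leaf 1 [(8,1)]) (.cons (.leaf 1 []) .nil))))))))))))))))))

theorem e_23_30 : ESB (caseOf 4 23 30) := esb_of_ok (t := t_23_30) (by decide +kernel)

def t_23_31 : T := (.keep [0,1,2] (.node (.cons (.leaf 1 []) (.cons (.leaf 1 [(5,1)]) (.cons (.leaf 1 [(5,1)]) (.cons (.leaf 1 [(5,1)]) (.cons (.leaf 1 [(5,1)]) (.cons (.leaf 1 [(6,1)]) (.cons (.leaf 1 []) (.cons (.leaf 1 [(6,1)]) (.cons (.leaf 1 [(6,1)]) (.cons (.leaf 1 [(6,1)]) (.cons (.leaf 1 [(7,1)]) (.cons (.leaf 1 [(7,1)]) (.cons (.leaf 1 []) (.cons (.leaf 1 [(7,1)]) (.cons (.leaf 1 [(7,1)]) (.cons (.leaf 1 [(9,1)]) (.cons (.leaf 1 [(9,1)]) (.cons (.leaf 1 [(9,1)]) (.cons (.leaf 1 [(9,1)]) (.cons (.leaf 1 []) .nil))))))))))))))))))))))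

theorem e_23_31 : ESB (caseOf 4 23 31) := esb_of_ok (t := t_23_31) (by decide +kernel)

def t_24_24 : T := (.keep [0,1,2] (.node (.cons (.leaf 1 []) (.cons (.leaf 1 [(3,1)]) (.cons (.leaf 1 [(4,1)]) (.cons (.leaf 1 []) .nil))))))

theorem e_24_24 : ESB (caseOf 4 24 24) := esb_of_ok (t := t_24_24) (by decide +kernel)

def t_24_25 : T := (.keep [0,1,2] (.node (.cons (.leaf 1 [(4,1)]) (.cons (.leaf 1 []) (.cons (.leaf 1 [(4,1)]) (.cons (.leaf 1 [(5,1)]) (.cons (.leaf 1 [(5,1)]) (.cons (.leaf 1 []) .nil))))))))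

theorem e_24_25 : ESB (caseOf 4 24 25) := esb_of_ok (t := t_24_25) (by decide +kernel)

def t_24_26 : T := (.keep [0,1,2] (.node (.cons (.leaf 1 [(4,1)]) (.cons (.leaf 1 []) (.cons (.leaf 1 [(4,1)]) (.cons (.leaf 1 [(5,1)]) (.cons (.leaf 1 [(5,1)]) (.cons (.leaf 1 []) .nil))))))))

theorem e_24_26 : ESB (caseOf 4 24 26) := esb_of_ok (t := t_24_26) (by decide +kernel)

def t_24_27 : T := (.keep [0,1,2] (.node (.cons (.leaf 1 [(5,1)]) (.cons (.leaf 1 [(5,1)]) (.cons (.leaf 1 []) (.cons (.leaf 1 [(5,1)]) (.cons (.leaf 1 [(6,1)]) (.cons (.leaf 1 [(6,1)]) (.cons (.leaf 1 [(6,1)]) (.cons (.leaf 1 []) .nil))))))))))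

theorem e_24_27 : ESB (caseOf 4 24 27) := esb_of_ok (t := t_24_27) (by decide +kernel)

def t_24_28 : T := (.keep [0,1,2] (.node (.cons (.leaf 1 [(4,1)]) (.cons (.leaf 1 []) (.cons (.leaf 1 [(4,1)]) (.cons (.leaf 1 [(5,1)]) (.cons (.leaf 1 [(5,1)]) (.cons (.leaf 1 []) .nil))))))))

theorem e_24_28 : ESB (caseOf 4 24 28) := esb_of_ok (t := t_24_28) (by decide +kernel)

def t_24_29 : T := (.keep [0,1,2] (.node (.cons (.leaf 1 [(5,1)]) (.cons (.leaf 1 [(5,1)]) (.cons (.leaf 1 []) (.cons (.leaf 1 [(5,1)]) (.cons (.leaf 1 [(6,1)]) (.cons (.leaf 1 [(6,1)]) (.cons (.leaf 1 [(6,1)]) (.cons (.leaf 1 []) .nil))))))))))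

theorem e_24_29 : ESB (caseOf 4 24 29) := esb_of_ok (t := t_24_29) (by decide +kernel)

def t_24_30 : T := (.keep [0,1,2] (.node (.cons (.leaf 1 [(5,1)]) (.cons (.leaf 1 [(5,1)]) (.cons (.leaf 1 []) (.cons (.leaf 1 [(5,1)]) (.cons (.leaf 1 [(6,1)]) (.cons (.leaf 1 [(6,1)]) (.cons (.leaf 1 [(6,1)]) (.cons (.leaf 1 []) .nil))))))))))

theorem e_24_30 : ESB (caseOf 4 24 30) := esb_of_ok (t := t_24_30) (by decide +kernel)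

def t_24_31 : T := (.keep [0,1,2] (.node (.cons (.leaf 1 [(6,1)]) (.cons (.leaf 1 [(6,1)]) (.cons (.leaf 1 [(6,1)]) (.cons (.leaf 1 []) (.cons (.leaf 1 [(6,1)]) (.cons (.leaf 1 [(7,1)]) (.cons (.leaf 1 [(7,1)]) (.cons (.leaf 1 [(7,1)]) (.cons (.leaf 1 [(7,1)]) (.cons (.leaf 1 []) .nil))))))))))))

theorem e_24_31 : ESB (caseOf 4 24 31) := esb_of_ok (t := t_24_31) (by decide +kernel)

def t_25_24 : T := (.keep [0,1,2] (.node (.cons (.keep [2,5,6,7] (.node (.cons (.keep [5,6,7,8,9] (.node (.cons (.keep [5,6,7,8,10] (.node (.cons (.leaf 1 [(2,1)]) (.cons (.leaf 1 [(3,1)]) (.cons (.leaf 1 []) (.cons (.leaf 1 [(3,1)]) (.cons (.leaf 1 [(2,1)]) (.cons (.leaf 1 []) .nil)))))))) (.cons (.keep [3,6,8,9,10] (.node (.cons (.leaf 1 [(2,1)]) (.cons (.leaf 1 [(3,1)]) (.cons (.leaf 1 []) (.cons (.leaf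 1 [(3,1)]) (.cons (.leaf 1 [(2,1)]) (.cons (.leaf 1 []) .nil)))))))) (.cons (.leaf 1 [(8,1),(6,1),(1,1)]) (.cons (.leaf 1 [(8,1),(6,1),(1,1)]) (.cons (.leaf 1 [(8,1),(6,1),(5,1),(1,1)]) (.cons (.keep [0,1,6,8,9] (.node (.cons (.leaf 1 [(2,1)]) (.cons (.leaf 1 [(3,1)]) (.cons (.leaf 1 []) (.cons (.leaf 1 [(3,1)]) (.cons (.leaf 1 [(2,1)]) (.cons (.leaf 1 []) .nil)))))))) .nil)))))))) (.cons (.keep [3,7,8,9] (.node (.cons (.keep [2,5,7,8] (.node (.cons (.leaf 1 [(2,1)]) (.cons (.leaf 1 [(3,1)]) (.cons (.leaf 1 []) (.cons (.leaf 1 [(3,1)]) (.cons (.leaf 1 [(2,1)]) (.cons (.leaf 1 []) .nil)))))))) (.cons (.keep [3,4,7,8] (.node (.cons (.leaf 1 [(2,1)]) (.cons (.leaf 1 [(3,1)]) (.cons (.leaf 1 []) (.cons (.leaf 1 [(3,1)]) (.cons (.leaf 1 [(2,1)]) (.cons (.leaf 1 []) .nil)))))))) (.cons (.keep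 [1,3,6,7,9] (.node (.cons (.leaf 1 [(2,1)]) (.cons (.leaf 1 [(3,1)]) (.cons (.leaf 1 []) (.cons (.leaf 1 [(3,1)]) (.cons (.leaf 1 [(2,1)]) (.cons (.leaf 1 []) .nil)))))))) (.cons (.keep [1,3,4,6,7,9] (.node (.cons (.leaf 1 [(2,1)]) (.cons (.leaf 1 [(3,1)]) (.cons (.leaf 1 []) (.cons (.leaf 1 [(3,1)]) (.cons (.leaf 1 [(2,1)]) (.cons (.leaf 1 []) .nil)))))))) (.cons (.keep [1,5,6,7,9] (.node (.cons (.leaf 1 [(2,1)]) (.cons (.leaf 1 [(3,1)]) (.cons (.leaf 1 []) (.cons (.leaf 1 [(3,1)]) (.cons (.leaf 1 [(2,1)]) (.cons (.leaf 1 []) .nil)))))))) (.cons (.keep [0,1,6,7,8] (.node (.cons (.leaf 1 [(2,1)]) (.cons (.leaf 1 [(3,1)]) (.cons (.leaf 1 []) (.cons (.leaf 1 [(3,1)]) (.cons (.leaf 1 [(2,1)]) (.cons (.leaf 1 []) .nil)))))))) .nil)))))))) (.cons (.leaf 1 [(7,1),(1,1)]) (.cons (.leaf 1 [(7,1),(1,1)])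 (.cons (.leaf 1 [(7,1),(5,1),(1,1)]) (.cons (.keep [0,1,7,9] (.node (.cons (.keep [2,5,7,8,9] (.node (.cons (.leaf 1 [(2,1)]) (.cons (.leaf 1 [(3,1)]) (.cons (.leaf 1 []) (.cons (.leaf 1 [(3,1)]) (.cons (.leaf 1 [(2,1)]) (.cons (.leaf 1 []) .nil)))))))) (.cons (.keep [3,4,7,8,9] (.node (.cons (.leaf 1 [(2,1)]) (.cons (.leaf 1 [(3,1)]) (.cons (.leaf 1 []) (.cons (.leaf 1 [(3,1)]) (.cons (.leaf 1 [(2,1)]) (.cons (.leaf 1 []) .nil)))))))) (.cons (.keep [1,3,6,8] (.node (.cons (.leaf 1 [(2,1)]) (.cons (.leaf 1 [(3,1)]) (.cons (.leaf 1 []) (.cons (.leaf 1 [(3,1)]) (.cons (.leaf 1 [(2,1)]) (.cons (.leaf 1 []) .nil)))))))) (.cons (.keep [1,3,4,6,8] (.node (.cons (.leaf 1 [(2,1)]) (.cons (.leaf 1 [(3,1)]) (.cons (.leaf 1 []) (.cons (.leaf 1 [(3,1)]) (.cons (.leaf 1 [(2,1)]) (.cons (.leaf 1 [])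 .nil)))))))) (.cons (.keep [2,5,6,7,8] (.node (.cons (.leaf 1 [(2,1)]) (.cons (.leaf 1 [(3,1)]) (.cons (.leaf 1 []) (.cons (.leaf 1 [(3,1)]) (.cons (.leaf 1 [(2,1)]) (.cons (.leaf 1 []) .nil)))))))) (.cons (.keep [0,2,7,8] (.node (.cons (.leaf 1 [(2,1)]) (.cons (.leaf 1 [(3,1)]) (.cons (.leaf 1 []) (.cons (.leaf 1 [(3,1)]) (.cons (.leaf 1 [(2,1)]) (.cons (.leaf 1 []) .nil)))))))) .nil)))))))) .nil)))))))) (.cons (.keep [0,4,6,7] (.node (.cons (.keep [2,5,7,9] (.node (.cons (.keep [5,6,7,8,9] (.node (.cons (.leaf 1 [(2,1),(9,1)]) (.cons (.leaf 1 [(3,1),(9,1)]) (.cons (.leaf 1 [(8,1),(6,1),(1,1)]) (.cons (.leaf 1 [(8,1),(6,1),(1,1)]) (.cons (.leaf 1 [(8,1),(6,1),(5,1),(1,1)]) (.cons (.leaf 1 [(9,1)]) .nil)))))))) (.cons (.keep [3,7,8,9] (.node (.cons (.leaf 1 [(2,1),(8,1)]) (.cons (.leaf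 1 [(3,1),(8,1)]) (.cons (.leaf 1 [(8,1)]) (.cons (.leaf 1 [(3,1),(8,1)]) (.cons (.leaf 1 [(2,1),(8,1)]) (.cons (.leaf 1 [(8,1)]) .nil)))))))) (.cons (.leaf 1 [(7,1),(1,1)]) (.cons (.leaf 1 [(7,1),(1,1)]) (.cons (.leaf 1 [(7,1),(5,1),(1,1)]) (.cons (.keep [0,1,7,8] (.node (.cons (.leaf 1 [(2,1),(9,1)]) (.cons (.leaf 1 [(3,1),(9,1)]) (.cons (.leaf 1 [(9,1)]) (.cons (.leaf 1 [(3,1),(9,1)]) (.cons (.leaf 1 [(2,1),(9,1)]) (.cons (.leaf 1 [(9,1)]) .nil)))))))) .nil)))))))) (.cons (.keep [3,4,7,9] (.node (.cons (.keep [2,5,7,8] (.node (.cons (.leaf 1 [(2,1),(9,1)]) (.cons (.leaf 1 [(3,1),(9,1)]) (.cons (.leaf 1 [(9,1)]) (.cons (.leaf 1 [(3,1),(9,1)]) (.cons (.leaf 1 [(2,1),(9,1)]) (.cons (.leaf 1 [(9,1)]) .nil)))))))) (.cons (.keep [3,4,7,8] (.node (.cons (.leaf 1 [(2,1),(9,1)]) (.cons (.leaf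 1 [(3,1),(9,1)]) (.cons (.leaf 1 [(9,1)]) (.cons (.leaf 1 [(3,1),(9,1)]) (.cons (.leaf 1 [(2,1),(9,1)]) (.cons (.leaf 1 [(9,1)]) .nil)))))))) (.cons (.keep [1,3,6,8,9] (.node (.cons (.leaf 1 [(2,1),(9,1)]) (.cons (.leaf 1 [(3,1),(9,1)]) (.cons (.leaf 1 [(9,1)]) (.cons (.leaf 1 [(3,1),(9,1)]) (.cons (.leaf 1 [(2,1),(9,1)]) (.cons (.leaf 1 [(9,1)]) .nil)))))))) (.cons (.keep [1,3,4,6,8,9] (.node (.cons (.leaf 1 [(2,1),(10,1)]) (.cons (.leaf 1 [(3,1),(10,1)]) (.cons (.leaf 1 [(10,1)]) (.cons (.leaf 1 [(3,1),(10,1)]) (.cons (.leaf 1 [(2,1),(10,1)]) (.cons (.leaf 1 [(10,1)]) .nil)))))))) (.cons (.keep [1,5,6,8,9] (.node (.cons (.leaf 1 [(2,1),(9,1)]) (.cons (.leaf 1 [(3,1),(9,1)]) (.cons (.leaf 1 [(9,1)]) (.cons (.leaf 1 [(3,1),(9,1)]) (.cons (.leaf 1 [(2,1),(9,1)]) (.cons (.leaf 1 [(9,1)])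 .nil)))))))) (.cons (.keep [0,1,6,7,8] (.node (.cons (.leaf 1 [(2,1),(10,1)]) (.cons (.leaf 1 [(3,1),(10,1)]) (.cons (.leaf 1 [(10,1)]) (.cons (.leaf 1 [(3,1),(10,1)]) (.cons (.leaf 1 [(2,1),(10,1)]) (.cons (.leaf 1 [(10,1)]) .nil)))))))) .nil)))))))) (.cons (.leaf 1 [(1,1)]) (.cons (.leaf 1 [(1,1)]) (.cons (.leaf 1 [(5,1),(1,1)]) (.cons (.keep [0,1,7,9] (.node (.cons (.keep [2,5,7,8,9] (.node (.cons (.leaf 1 [(2,1),(9,1)]) (.cons (.leaf 1 [(3,1),(9,1)]) (.cons (.leaf 1 [(9,1)]) (.cons (.leaf 1 [(3,1),(9,1)]) (.cons (.leaf 1 [(2,1),(9,1)]) (.cons (.leaf 1 [(9,1)]) .nil)))))))) (.cons (.keep [3,4,7,8,9] (.node (.cons (.leaf 1 [(2,1),(9,1)]) (.cons (.leaf 1 [(3,1),(9,1)]) (.cons (.leaf 1 [(9,1)]) (.cons (.leaf 1 [(3,1),(9,1)]) (.cons (.leaf 1 [(2,1),(9,1)]) (.cons (.leaf 1 [(9,1)]) .nil))))))))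 (.cons (.keep [1,3,6,8] (.node (.cons (.leaf 1 [(2,1),(9,1)]) (.cons (.leaf 1 [(3,1),(9,1)]) (.cons (.leaf 1 [(9,1)]) (.cons (.leaf 1 [(3,1),(9,1)]) (.cons (.leaf 1 [(2,1),(9,1)]) (.cons (.leaf 1 [(9,1)]) .nil)))))))) (.cons (.keep [1,3,4,6,8] (.node (.cons (.leaf 1 [(2,1),(10,1)]) (.cons (.leaf 1 [(3,1),(10,1)]) (.cons (.leaf 1 [(10,1)]) (.cons (.leaf 1 [(3,1),(10,1)]) (.cons (.leaf 1 [(2,1),(10,1)]) (.cons (.leaf 1 [(10,1)]) .nil)))))))) (.cons (.keep [2,5,6,7,8] (.node (.cons (.leaf 1 [(2,1),(10,1)]) (.cons (.leaf 1 [(3,1),(10,1)]) (.cons (.leaf 1 [(10,1)]) (.cons (.leaf 1 [(3,1),(10,1)]) (.cons (.leaf 1 [(2,1),(10,1)]) (.cons (.leaf 1 [(10,1)]) .nil)))))))) (.cons (.keep [0,2,7,8] (.node (.cons (.leaf 1 [(2,1),(9,1)]) (.cons (.leaf 1 [(3,1),(9,1)]) (.cons (.leaf 1 [(9,1)]) (.cons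 (.leaf 1 [(3,1),(9,1)]) (.cons (.leaf 1 [(2,1),(9,1)]) (.cons (.leaf 1 [(9,1)]) .nil)))))))) .nil)))))))) .nil)))))))) (.cons (.leaf 1 []) (.cons (.leaf 1 [(4,1)]) (.cons (.leaf 1 [(5,1)]) (.cons (.leaf 1 []) .nil))))))))

theorem e_25_24 : ESB (caseOf 4 25 24) := esb_of_ok (t := t_25_24) (by decide +kernel)

def t_25_25 : T := (.keep [0,1,2] (.node (.cons (.leaf 1 []) (.cons (.leaf 1 [(4,1)]) (.cons (.leaf 1 [(4,1)]) (.cons (.leaf 1 [(5,1)]) (.cons (.leaf 1 []) (.cons (.leaf 1 [(5,1)]) (.cons (.leaf 1 [(6,1)]) (.cons (.leaf 1 [(6,1)]) (.cons (.leaf 1 []) .nil)))))))))))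

theorem e_25_25 : ESB (caseOf 4 25 25) := esb_of_ok (t := t_25_25) (by decide +kernel)

def t_25_26 : T := (.keep [0,1,2] (.node (.cons (.keep [5,6,7,8] (.node (.cons (.keep [3,7,8,9] (.node (.cons (.keep [5,6,9,10] (.node (.cons (.leaf 2 [(9,1)]) (.cons (.leaf 1 [(2,1)]) (.cons (.leaf 1 [(3,1)]) (.cons (.leaf 1 [(8,1),(1,1)]) (.cons (.leaf 1 []) (.cons (.leaf 1 [(3,1)]) (.cons (.leaf 2 [(9,1),(1,1)]) (.cons (.leaf 1 [(2,1)]) (.cons (.leaf 1 []) .nil))))))))))) (.cons (.keep [2,4,6,9] (.node (.cons (.leaf 2 [(8,1),(10,1)]) (.cons (.leaf 1 [(2,1),(8,1)]) (.cons (.leaf 1 [(3,1),(8,1)]) (.cons (.leaf 1 [(9,1),(1,1)]) (.cons (.leaf 1 [(8,1)]) (.cons (.leaf 1 [(3,1),(8,1)]) (.cons (.leaf 2 [(8,1),(10,1),(1,1)]) (.cons (.leaf 1 [(2,1),(8,1)]) (.cons (.leaf 1 [(8,1)]) .nil))))))))))) (.cons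 (.keep [0,4,5,9] (.node (.cons (.leaf 2 [(8,1),(10,1)]) (.cons (.leaf 2 [(8,1)]) (.cons (.leaf 1 [(3,1),(8,1)]) (.cons (.leaf 1 [(1,1)]) (.cons (.leaf 1 [(1,1)]) (.cons (.leaf 1 [(1,1)]) (.cons (.leaf 2 [(8,1),(10,1),(1,1)]) (.cons (.leaf 1 [(6,1),(1,1)]) (.cons (.leaf 1 [(8,1)]) .nil))))))))))) (.cons (.leaf 1 [(5,1)]) (.cons (.leaf 1 []) (.cons (.leaf 1 [(5,1)]) (.cons (.leaf 1 [(6,1)]) (.cons (.leaf 1 [(6,1)]) (.cons (.leaf 1 []) .nil))))))))))) (.cons (.leaf 1 [(2,1)]) (.cons (.leaf 1 [(3,1)]) (.cons (.leaf 1 [(8,1),(1,1)]) (.cons (.leaf 1 []) (.cons (.leaf 1 [(3,1)]) (.cons (.keep [1,6,7,8,10] (.node (.cons (.leaf 1 [(5,1),(7,2)]) (.cons (.leaf 1 [(7,2)]) (.cons (.leaf 1 [(7,2),(5,1)]) (.cons (.leaf 1 [(5,1),(1,1)]) (.cons (.leaf 1 [(1,1)]) (.cons (.leaf 1 [(1,1),(5,1)]) (.cons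 (.leaf 1 [(6,1),(7,1)]) (.cons (.leaf 1 [(1,1),(6,2)]) (.cons (.leaf 1 [(7,1)]) .nil))))))))))) (.cons (.leaf 1 [(2,1)]) (.cons (.leaf 1 []) .nil))))))))))) (.cons (.keep [2,4,6,8] (.node (.cons (.keep [3,7,8,9,10] (.node (.cons (.keep [5,6,8,10] (.node (.cons (.leaf 2 [(10,1)]) (.cons (.leaf 1 [(2,1)]) (.cons (.leaf 1 [(3,1)]) (.cons (.leaf 1 [(8,1),(1,1)]) (.cons (.leaf 1 []) (.cons (.leaf 1 [(3,1)]) (.cons (.leaf 2 [(10,1),(1,1)]) (.cons (.leaf 1 [(2,1)]) (.cons (.leaf 1 []) .nil))))))))))) (.cons (.keep [4,6,8,9,10] (.node (.cons (.leaf 2 [(11,1)]) (.cons (.leaf 1 [(2,1)]) (.cons (.leaf 1 [(3,1)]) (.cons (.leaf 1 [(10,1),(8,1),(1,1)]) (.cons (.leaf 1 []) (.cons (.leaf 1 [(3,1)]) (.cons (.leaf 2 [(11,1),(1,1)]) (.cons (.leaf 1 [(2,1)]) (.cons (.leaf 1 []) .nil))))))))))) (.cons (.keep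 [4,5,8,9,10] (.node (.cons (.leaf 2 [(11,1)]) (.cons (.leaf 1 [(2,1)]) (.cons (.leaf 1 [(3,1)]) (.cons (.leaf 1 [(10,1),(1,1)]) (.cons (.leaf 1 []) (.cons (.leaf 1 [(3,1)]) (.cons (.leaf 2 [(11,1),(1,1)]) (.cons (.leaf 1 [(2,1)]) (.cons (.leaf 1 []) .nil))))))))))) (.cons (.leaf 1 [(5,1),(1,1)]) (.cons (.leaf 1 [(9,1)]) (.cons (.leaf 1 [(9,1),(5,1)]) (.cons (.leaf 1 [(6,1),(1,1)]) (.cons (.leaf 1 [(9,1),(6,1)]) (.cons (.leaf 1 [(9,1)]) .nil))))))))))) (.cons (.leaf 1 [(2,1),(8,1)]) (.cons (.leaf 1 [(3,1),(8,1)]) (.cons (.leaf 1 [(9,1),(1,1)]) (.cons (.leaf 1 [(8,1)]) (.cons (.leaf 1 [(3,1),(8,1)]) (.cons (.keep [1,7,8,9,10] (.node (.cons (.leaf 1 [(5,1),(7,1)]) (.cons (.leaf 1 [(9,1),(7,2)]) (.cons (.leaf 1 [(9,1),(7,2),(5,1)]) (.cons (.leaf 1 [(5,1),(1,1)]) (.cons (.leaf 1 [(9,1),(1,1)])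 (.cons (.leaf 1 [(9,1),(1,1),(5,1)]) (.cons (.leaf 1 [(6,1),(1,1)]) (.cons (.leaf 1 [(9,1),(6,2),(1,1)]) (.cons (.leaf 1 [(9,1),(7,1)]) .nil))))))))))) (.cons (.leaf 1 [(2,1),(8,1)]) (.cons (.leaf 1 [(8,1)]) .nil))))))))))) (.cons (.keep [0,4,5,8] (.node (.cons (.keep [3,5,8,9,10] (.node (.cons (.keep [5,6,8,9,11] (.node (.cons (.leaf 2 [(10,1)]) (.cons (.leaf 1 [(2,1),(10,1)]) (.cons (.leaf 1 [(3,1),(10,1)]) (.cons (.leaf 1 [(5,1),(1,1)]) (.cons (.leaf 1 [(10,1)]) (.cons (.leaf 1 [(3,1),(10,1)]) (.cons (.leaf 1 [(6,1),(1,1)]) (.cons (.leaf 1 [(2,1),(10,1)]) (.cons (.leaf 1 [(10,1)]) .nil))))))))))) (.cons (.keep [6,8,9,10,11] (.node (.cons (.leaf 2 [(10,1)]) (.cons (.leaf 1 [(2,1),(10,1)]) (.cons (.leaf 1 [(3,1),(10,1)]) (.cons (.leaf 1 [(5,1),(1,1)]) (.cons (.leaf 1 [(9,1),(7,1),(1,1)])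 (.cons (.leaf 1 [(9,1),(7,1),(1,1)]) (.cons (.leaf 1 [(6,1),(1,1)]) (.cons (.leaf 1 [(9,1),(7,1),(6,1),(1,1)]) (.cons (.leaf 1 [(10,1)]) .nil))))))))))) (.cons (.keep [3,5,9,10,11] (.node (.cons (.leaf 2 [(10,1)]) (.cons (.leaf 1 [(2,1),(10,1)]) (.cons (.leaf 1 [(3,1),(10,1)]) (.cons (.leaf 1 [(5,1),(1,1)]) (.cons (.leaf 1 [(9,1),(1,1)]) (.cons (.leaf 1 [(9,1),(1,1)]) (.cons (.leaf 1 [(6,1),(1,1)]) (.cons (.leaf 1 [(9,1),(6,1),(1,1)]) (.cons (.leaf 1 [(10,1)]) .nil))))))))))) (.cons (.leaf 1 [(5,1),(9,1)]) (.cons (.leaf 1 [(9,1)]) (.cons (.leaf 1 [(9,1),(5,1)]) (.cons (.leaf 1 [(6,1),(9,1)]) (.cons (.leaf 1 [(9,1),(6,1)]) (.cons (.leaf 1 [(9,1)]) .nil))))))))))) (.cons (.leaf 2 [(8,1)]) (.cons (.leaf 1 [(3,1),(8,1)]) (.cons (.leaf 1 [(1,1)]) (.cons (.leaf 1 [(1,1)]) (.cons (.leaf 1 [(1,1)])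 (.cons (.keep [1,7,8,9,10] (.node (.cons (.leaf 1 [(5,1),(9,1),(7,2)]) (.cons (.leaf 1 [(9,1),(7,2)]) (.cons (.leaf 1 [(9,1),(7,2),(5,1)]) (.cons (.leaf 1 [(5,1),(9,1),(1,1)]) (.cons (.leaf 1 [(9,1),(1,1)]) (.cons (.leaf 1 [(9,1),(1,1),(5,1)]) (.cons (.leaf 1 [(6,1),(9,1),(7,1)]) (.cons (.leaf 1 [(9,1),(6,2),(1,1)]) (.cons (.leaf 1 [(9,1),(7,1)]) .nil))))))))))) (.cons (.leaf 1 [(6,1),(1,1)]) (.cons (.leaf 1 [(8,1)]) .nil))))))))))) (.cons (.leaf 1 [(5,1)]) (.cons (.leaf 1 []) (.cons (.leaf 1 [(5,1)]) (.cons (.leaf 1 [(6,1)]) (.cons (.leaf 1 [(6,1)]) (.cons (.leaf 1 []) .nil)))))))))))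

theorem e_25_26 : ESB (caseOf 4 25 26) := esb_of_ok (t := t_25_26) (by decide +kernel)

def t_25_27 : T := (.keep [0,1,2] (.node (.cons (.leaf 1 []) (.cons (.leaf 1 [(4,1)]) (.cons (.leaf 1 [(4,1)]) (.cons (.leaf 1 [(4,1)]) (.cons (.leaf 1 [(6,1)]) (.cons (.leaf 1 [(6,1)]) (.cons (.leaf 1 []) (.cons (.leaf 1 [(6,1)]) (.cons (.leaf 1 [(7,1)]) (.cons (.leaf 1 [(7,1)]) (.cons (.leaf 1 [(7,1)]) (.cons (.leaf 1 []) .nil))))))))))))))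

theorem e_25_27 : ESB (caseOf 4 25 27) := esb_of_ok (t := t_25_27) (by decide +kernel)

def t_25_28 : T := (.keep [0,1,2] (.node (.cons (.keep [5,6,7,8] (.node (.cons (.keep [6,7,8,9,10] (.node (.cons (.leaf 2 [(9,1)]) (.cons (.leaf 1 [(2,1)]) (.cons (.leaf 1 [(3,1)]) (.cons (.leaf 1 [(7,1),(8,1),(1,1)]) (.cons (.leaf 1 []) (.cons (.leaf 1 [(3,1)]) (.cons (.leaf 2 [(9,1),(1,1)]) (.cons (.leaf 1 [(2,1)]) (.cons (.leaf 1 []) .nil))))))))))) (.cons (.keep [6,7,8,9,10] (.node (.cons (.leaf 2 [(9,1)]) (.cons (.leaf 1 [(2,1)]) (.cons (.leaf 1 [(3,1)]) (.cons (.leaf 2 [(9,1),(1,1)]) (.cons (.leaf 1 []) (.cons (.leaf 1 [(3,1)]) (.cons (.leaf 2 [(9,1),(1,1)]) (.cons (.leaf 1 [(2,1)]) (.cons (.leaf 1 []) .nil))))))))))) (.cons (.keep [3,7,8,9] (.node (.cons (.leaf 2 [(9,1)]) (.cons (.leaf 1 [(2,1)])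 (.cons (.leaf 1 [(3,1)]) (.cons (.leaf 2 [(9,1),(1,1)]) (.cons (.leaf 1 []) (.cons (.leaf 1 [(3,1)]) (.cons (.leaf 2 [(9,1),(1,1)]) (.cons (.leaf 1 [(2,1)]) (.cons (.leaf 1 []) .nil))))))))))) (.cons (.leaf 1 [(7,1),(5,1),(1,1)]) (.cons (.leaf 1 [(8,1),(1,1)]) (.cons (.leaf 1 [(8,1),(1,1)]) (.cons (.leaf 1 [(7,1),(6,1),(1,1)]) (.cons (.leaf 1 [(8,1),(6,1),(1,1)]) (.cons (.keep [0,1,7,8] (.node (.cons (.leaf 2 [(10,1)]) (.cons (.leaf 1 [(2,1)]) (.cons (.leaf 1 [(3,1)]) (.cons (.leaf 2 [(10,1),(1,1)]) (.cons (.leaf 1 []) (.cons (.leaf 1 [(3,1)]) (.cons (.leaf 2 [(10,1),(1,1)]) (.cons (.leaf 1 [(2,1)]) (.cons (.leaf 1 []) .nil))))))))))) .nil))))))))))) (.cons (.keep [2,4,6,7] (.node (.cons (.keep [5,6,7,8] (.node (.cons (.leaf 2 [(7,1),(10,1)]) (.cons (.leaf 1 [(2,1),(10,1)]) (.cons (.leaf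 1 [(3,1),(10,1)]) (.cons (.leaf 1 [(7,1),(5,1),(1,1)]) (.cons (.leaf 1 [(8,1),(1,1)]) (.cons (.leaf 1 [(8,1),(1,1)]) (.cons (.leaf 1 [(7,1),(6,1),(1,1)]) (.cons (.leaf 1 [(8,1),(6,1),(1,1)]) (.cons (.leaf 1 [(10,1)]) .nil))))))))))) (.cons (.keep [4,6,7,8,9] (.node (.cons (.leaf 2 [(11,1),(10,1)]) (.cons (.leaf 1 [(2,1),(10,1)]) (.cons (.leaf 1 [(3,1),(10,1)]) (.cons (.leaf 2 [(11,1),(10,1),(1,1)]) (.cons (.leaf 1 [(10,1)]) (.cons (.leaf 1 [(3,1),(10,1)]) (.cons (.leaf 2 [(11,1),(10,1),(1,1)]) (.cons (.leaf 1 [(2,1),(10,1)]) (.cons (.leaf 1 [(10,1)]) .nil))))))))))) (.cons (.keep [3,4,8,9] (.node (.cons (.leaf 2 [(10,1),(9,1)]) (.cons (.leaf 1 [(2,1),(9,1)]) (.cons (.leaf 1 [(3,1),(9,1)]) (.cons (.leaf 2 [(10,1),(9,1),(1,1)]) (.cons (.leaf 1 [(9,1)]) (.cons (.leaf 1 [(3,1),(9,1)]) (.cons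 (.leaf 2 [(10,1),(9,1),(1,1)]) (.cons (.leaf 1 [(2,1),(9,1)]) (.cons (.leaf 1 [(9,1)]) .nil))))))))))) (.cons (.leaf 1 [(5,1),(1,1)]) (.cons (.leaf 1 [(9,1),(1,1)]) (.cons (.leaf 1 [(9,1),(1,1)]) (.cons (.leaf 1 [(6,1),(1,1)]) (.cons (.leaf 1 [(9,1),(6,1),(1,1)]) (.cons (.keep [0,1,8,9] (.node (.cons (.leaf 2 [(10,1),(9,1)]) (.cons (.leaf 1 [(2,1),(9,1)]) (.cons (.leaf 1 [(3,1),(9,1)]) (.cons (.leaf 2 [(10,1),(9,1),(1,1)]) (.cons (.leaf 1 [(9,1)]) (.cons (.leaf 1 [(3,1),(9,1)]) (.cons (.leaf 2 [(10,1),(9,1),(1,1)]) (.cons (.leaf 1 [(2,1),(9,1)]) (.cons (.leaf 1 [(9,1)]) .nil))))))))))) .nil))))))))))) (.cons (.keep [0,4,5,7] (.node (.cons (.keep [2,5,6,8,9] (.node (.cons (.leaf 2 [(10,1)]) (.cons (.leaf 1 [(2,1),(10,1)]) (.cons (.leaf 1 [(3,1),(10,1)]) (.cons (.leaf 1 [(5,1),(1,1)])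 (.cons (.leaf 1 [(10,1)]) (.cons (.leaf 1 [(3,1),(10,1)]) (.cons (.leaf 1 [(6,1),(1,1)]) (.cons (.leaf 1 [(2,1),(10,1)]) (.cons (.leaf 1 [(10,1)]) .nil))))))))))) (.cons (.keep [2,4,6,8] (.node (.cons (.leaf 2 [(10,1)]) (.cons (.leaf 1 [(2,1),(10,1)]) (.cons (.leaf 1 [(3,1),(10,1)]) (.cons (.leaf 1 [(5,1),(1,1)]) (.cons (.leaf 1 [(9,1),(1,1)]) (.cons (.leaf 1 [(9,1),(1,1)]) (.cons (.leaf 1 [(6,1),(1,1)]) (.cons (.leaf 1 [(9,1),(6,1),(1,1)]) (.cons (.leaf 1 [(10,1)]) .nil))))))))))) (.cons (.keep [3,5,8,9] (.node (.cons (.leaf 2 [(9,1)]) (.cons (.leaf 1 [(2,1),(9,1)]) (.cons (.leaf 1 [(3,1),(9,1)]) (.cons (.leaf 1 [(5,1),(1,1)]) (.cons (.leaf 1 [(9,1)]) (.cons (.leaf 1 [(3,1),(9,1)]) (.cons (.leaf 1 [(6,1),(1,1)]) (.cons (.leaf 1 [(2,1),(9,1)]) (.cons (.leaf 1 [(9,1)]) .nil)))))))))))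 (.cons (.leaf 1 [(1,1)]) (.cons (.leaf 1 [(1,1)]) (.cons (.leaf 1 [(1,1)]) (.cons (.leaf 1 [(6,1),(9,1),(1,1)]) (.cons (.leaf 1 [(6,1),(1,1)]) (.cons (.keep [0,1,8,9] (.node (.cons (.leaf 1 [(5,1),(8,1)]) (.cons (.leaf 1 [(2,1),(9,1)]) (.cons (.leaf 1 [(3,1),(9,1)]) (.cons (.leaf 1 [(5,1),(1,1)]) (.cons (.leaf 1 [(9,1)]) (.cons (.leaf 1 [(3,1),(9,1)]) (.cons (.leaf 1 [(6,1),(1,1)]) (.cons (.leaf 1 [(2,1),(9,1)]) (.cons (.leaf 1 [(9,1)]) .nil))))))))))) .nil))))))))))) (.cons (.leaf 1 [(5,1)]) (.cons (.leaf 1 []) (.cons (.leaf 1 [(5,1)]) (.cons (.leaf 1 [(6,1)]) (.cons (.leaf 1 [(6,1)]) (.cons (.leaf 1 []) .nil)))))))))))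

theorem e_25_28 : ESB (caseOf 4 25 28) := esb_of_ok (t := t_25_28) (by decide +kernel)

def t_25_29 : T := (.keep [0,1,2] (.node (.cons (.leaf 1 []) (.cons (.leaf 1 [(4,1)]) (.cons (.leaf 1 [(4,1)]) (.cons (.leaf 1 [(4,1)]) (.cons (.leaf 1 [(6,1)]) (.cons (.leaf 1 [(6,1)]) (.cons (.leaf 1 []) (.cons (.leaf 1 [(6,1)]) (.cons (.leaf 1 [(7,1)]) (.cons (.leaf 1 [(7,1)]) (.cons (.leaf 1 [(7,1)]) (.cons (.leaf 1 []) .nil))))))))))))))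

theorem e_25_29 : ESB (caseOf 4 25 29) := esb_of_ok (t := t_25_29) (by decide +kernel)

def t_25_30 : T := (.keep [0,1,2] (.node (.cons (.keep [5,6,7,8] (.node (.cons (.leaf 2 [(8,1)]) (.cons (.leaf 2 [(9,1)]) (.cons (.leaf 1 [(2,1)]) (.cons (.leaf 1 [(3,1)]) (.cons (.leaf 2 [(8,1),(1,1)]) (.cons (.leaf 2 [(9,1),(1,1)]) (.cons (.leaf 1 []) (.cons (.leaf 1 [(3,1)]) (.cons (.leaf 2 [(8,1),(1,1)]) (.cons (.leaf 2 [(9,1),(1,1)]) (.cons (.leaf 1 [(2,1)]) (.cons (.leaf 1 []) .nil)))))))))))))) (.cons (.keep [4,6,7,9] (.node (.cons (.leaf 2 [(8,1)]) (.cons (.leaf 2 [(9,1),(8,1)]) (.cons (.leaf 1 [(2,1),(8,1)]) (.cons (.leaf 1 [(3,1),(8,1)]) (.cons (.leaf 1 [(6,1),(1,1)]) (.cons (.leaf 2 [(9,1),(8,1),(1,1)]) (.cons (.leaf 1 [(8,1)]) (.cons (.leaf 1 [(3,1),(8,1)]) (.cons (.leaf 1 [(7,1),(1,1)])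 (.cons (.leaf 2 [(9,1),(8,1),(1,1)]) (.cons (.leaf 1 [(2,1),(8,1)]) (.cons (.leaf 1 [(8,1)]) .nil)))))))))))))) (.cons (.keep [2,4,5,7] (.node (.cons (.leaf 2 [(9,1),(10,1)]) (.cons (.leaf 2 [(9,1)]) (.cons (.leaf 1 [(2,1),(9,1)]) (.cons (.leaf 1 [(3,1),(9,1)]) (.cons (.leaf 2 [(9,1),(10,1),(1,1)]) (.cons (.leaf 1 [(6,1),(1,1)]) (.cons (.leaf 1 [(9,1)]) (.cons (.leaf 1 [(3,1),(9,1)]) (.cons (.leaf 2 [(9,1),(10,1),(1,1)]) (.cons (.leaf 1 [(7,1),(1,1)]) (.cons (.leaf 1 [(2,1),(9,1)]) (.cons (.leaf 1 [(9,1)]) .nil)))))))))))))) (.cons (.keep [0,4,5,6] (.node (.cons (.leaf 2 [(9,1),(10,1)]) (.cons (.leaf 2 [(9,1),(11,1)]) (.cons (.leaf 2 [(9,1)]) (.cons (.leaf 1 [(3,1),(9,1)]) (.cons (.leaf 1 [(1,1)]) (.cons (.leaf 1 [(1,1)]) (.cons (.leaf 1 [(1,1)]) (.cons (.leaf 1 [(1,1)]) (.cons (.leaf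 2 [(9,1),(10,1),(1,1)]) (.cons (.leaf 2 [(9,1),(11,1),(1,1)]) (.cons (.leaf 1 [(7,1),(1,1)]) (.cons (.leaf 1 [(9,1)]) .nil)))))))))))))) (.cons (.leaf 1 [(6,1)]) (.cons (.leaf 1 [(6,1)]) (.cons (.leaf 1 []) (.cons (.leaf 1 [(6,1)]) (.cons (.leaf 1 [(7,1)]) (.cons (.leaf 1 [(7,1)]) (.cons (.leaf 1 [(7,1)]) (.cons (.leaf 1 []) .nil))))))))))))))

theorem e_25_30 : ESB (caseOf 4 25 30) := esb_of_ok (t := t_25_30) (by decide +kernel)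

def t_25_31 : T := (.keep [0,1,2] (.node (.cons (.leaf 1 []) (.cons (.leaf 1 [(4,1)]) (.cons (.leaf 1 [(4,1)]) (.cons (.leaf 1 [(4,1)]) (.cons (.leaf 1 [(4,1)]) (.cons (.leaf 1 [(7,1)]) (.cons (.leaf 1 [(7,1)]) (.cons (.leaf 1 [(7,1)]) (.cons (.leaf 1 []) (.cons (.leaf 1 [(7,1)]) (.cons (.leaf 1 [(8,1)]) (.cons (.leaf 1 [(8,1)]) (.cons (.leaf 1 [(8,1)]) (.cons (.leaf 1 [(8,1)]) (.cons (.leaf 1 []) .nil)))))))))))))))))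

theorem e_25_31 : ESB (caseOf 4 25 31) := esb_of_ok (t := t_25_31) (by decide +kernel)

def z_26_24_0 : F := ⟨1, 0, -1, 0, 1⟩

def h_26_24_0 : List F := [⟨1, 0, -1, 0, 0⟩, ⟨0, 0, 1, -1, 0⟩, ⟨0, 0, -1, 0, 1⟩, ⟨1, -1, -1, 0,
  1⟩]

def t_26_24_0 : T := (.node (.cons (.keep [2,5,7,8] (.node (.cons (.keep [5,7,8,9] (.node (.cons (.keep [5,6,7,8,9] (.node (.cons (.leaf 1 [(7,1),(10,1),(2,2)]) (.cons (.leaf 1 [(7,1),(10,1),(3,2)]) (.cons (.leaf 1 [(7,1),(10,1)]) (.cons (.leaf 1 [(10,1),(3,2),(7,1)]) (.cons (.leaf 1 [(7,1),(10,1),(2,2)]) (.cons (.leaf 1 [(7,1),(10,1)]) .nil)))))))) (.cons (.keep [3,6,7,8,9] (.node (.cons (.leaf 1 [(10,1),(2,3)]) (.cons (.leaf 1 [(2,1),(10,1),(3,2)]) (.cons (.keep [3,6,7,8,10] (.node (.cons (.leaf 1 [(2,1)]) (.cons (.leaf 1 [(3,1)]) (.cons (.leaf 1 []) (.cons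 (.leaf 1 [(3,1)]) (.cons (.leaf 1 [(2,1)]) (.cons (.leaf 1 []) .nil)))))))) (.cons (.keep [3,7,8,9,10] (.node (.cons (.leaf 1 [(2,1),(6,1)]) (.cons (.leaf 1 [(3,1),(6,1)]) (.cons (.leaf 1 [(6,1)]) (.cons (.leaf 1 [(6,1),(3,1)]) (.cons (.leaf 1 [(6,1),(2,1)]) (.cons (.leaf 1 [(6,1)]) .nil)))))))) (.cons (.keep [2,7,8,9,10] (.node (.cons (.leaf 1 [(2,1),(6,1)]) (.cons (.leaf 1 [(3,1),(6,1)]) (.cons (.leaf 1 [(6,1)]) (.cons (.leaf 1 [(6,1),(3,1)]) (.cons (.leaf 1 [(2,1),(6,1)]) (.cons (.leaf 1 [(6,1)]) .nil)))))))) (.cons (.keep [0,2,6,7,10] (.node (.cons (.leaf 1 [(2,1)]) (.cons (.leaf 1 [(3,1)]) (.cons (.leaf 1 []) (.cons (.leaf 1 [(3,1)]) (.cons (.leaf 1 [(2,1)]) (.cons (.leaf 1 []) .nil)))))))) .nil)))))))) (.cons (.keep [1,3,6,7,8] (.node (.cons (.leaf 1 [(8,1),(6,1),(2,2)]) (.cons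 (.leaf 1 [(8,1),(6,1),(3,2)]) (.cons (.leaf 1 [(8,1),(6,1)]) (.cons (.leaf 1 [(6,1),(3,2),(8,1)]) (.cons (.leaf 1 [(8,1),(6,1),(2,2)]) (.cons (.leaf 1 [(8,1),(6,1)]) .nil)))))))) (.cons (.keep [1,3,4,6,7,8] (.node (.cons (.leaf 1 [(8,1),(6,1),(2,3)]) (.cons (.leaf 1 [(2,1),(6,1),(8,1),(3,2)]) (.cons (.leaf 1 [(9,1),(6,1)]) (.cons (.leaf 1 [(6,1),(3,2),(9,1)]) (.cons (.leaf 1 [(9,1),(6,1),(2,2)]) (.cons (.leaf 1 [(9,1),(6,1)]) .nil)))))))) (.cons (.keep [1,5,6,7,8] (.node (.cons (.leaf 1 [(6,1),(2,3)]) (.cons (.leaf 1 [(2,1),(6,1),(3,2)]) (.cons (.leaf 1 [(8,1),(7,1),(6,1)]) (.cons (.leaf 1 [(6,1),(7,1),(3,2),(8,1)]) (.cons (.leaf 1 [(8,1),(7,1),(2,2),(6,1)]) (.cons (.leaf 1 [(8,1),(7,1),(6,1)]) .nil)))))))) (.cons (.keep [0,1,6,7,8] (.node (.cons (.leaf 1 [(7,1),(2,3)]) (.cons (.leaf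 1 [(2,1),(7,1),(3,2)]) (.cons (.keep [3,6,7,8] (.node (.cons (.leaf 1 [(2,1)]) (.cons (.leaf 1 [(3,1)]) (.cons (.leaf 1 []) (.cons (.leaf 1 [(3,1)]) (.cons (.leaf 1 [(2,1)]) (.cons (.leaf 1 []) .nil)))))))) (.cons (.keep [3,4,6,7,8] (.node (.cons (.leaf 1 [(2,1),(6,1)]) (.cons (.leaf 1 [(3,1),(6,1)]) (.cons (.leaf 1 [(6,1)]) (.cons (.leaf 1 [(6,1),(3,1)]) (.cons (.leaf 1 [(6,1),(2,1)]) (.cons (.leaf 1 [(6,1)]) .nil)))))))) (.cons (.keep [2,5,6,7,8] (.node (.cons (.leaf 1 [(2,1),(6,1)]) (.cons (.leaf 1 [(3,1),(6,1)]) (.cons (.leaf 1 [(6,1)]) (.cons (.leaf 1 [(6,1),(3,1)]) (.cons (.leaf 1 [(2,1),(6,1)]) (.cons (.leaf 1 [(6,1)]) .nil)))))))) (.cons (.keep [0,2,7,8] (.node (.cons (.leaf 1 [(2,1)]) (.cons (.leaf 1 [(3,1)]) (.cons (.leaf 1 []) (.cons (.leaf 1 [(3,1)]) (.cons (.leaf 1 [(2,1)])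 (.cons (.leaf 1 []) .nil)))))))) .nil)))))))) .nil)))))))) (.cons (.keep [3,4,7,8,9] (.node (.cons (.keep [2,5,8,9,10] (.node (.cons (.leaf 1 [(2,2),(10,1)]) (.cons (.leaf 1 [(3,2),(10,1)]) (.cons (.leaf 1 [(10,1)]) (.cons (.leaf 1 [(10,1),(3,2)]) (.cons (.leaf 1 [(10,1),(2,2)]) (.cons (.leaf 1 [(10,1)]) .nil)))))))) (.cons (.keep [3,4,7,9,10] (.node (.cons (.leaf 1 [(2,3),(10,1),(8,1)]) (.cons (.leaf 1 [(3,2),(2,1),(10,1),(8,1)]) (.cons (.keep [3,6,7,8,10] (.node (.cons (.leaf 1 [(2,1),(9,1)]) (.cons (.leaf 1 [(3,1),(9,1)]) (.cons (.leaf 1 [(9,1)]) (.cons (.leaf 1 [(3,1),(9,1)]) (.cons (.leaf 1 [(2,1),(9,1)]) (.cons (.leaf 1 [(9,1)]) .nil)))))))) (.cons (.keep [3,7,8,9,10] (.node (.cons (.leaf 1 [(2,1),(8,1),(6,1)]) (.cons (.leaf 1 [(3,1),(6,1),(8,1)]) (.cons (.leaf 1 [(8,1),(6,1)])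 (.cons (.leaf 1 [(3,1),(6,1),(8,1)]) (.cons (.leaf 1 [(8,1),(6,1),(2,1)]) (.cons (.leaf 1 [(8,1),(6,1)]) .nil)))))))) (.cons (.keep [2,7,8,9,10] (.node (.cons (.leaf 1 [(2,1),(6,1),(8,1)]) (.cons (.leaf 1 [(3,1),(6,1),(8,1)]) (.cons (.leaf 1 [(8,1),(6,1)]) (.cons (.leaf 1 [(3,1),(6,1),(8,1)]) (.cons (.leaf 1 [(2,1),(6,1),(8,1)]) (.cons (.leaf 1 [(8,1),(6,1)]) .nil)))))))) (.cons (.keep [0,2,6,8,10] (.node (.cons (.leaf 1 [(2,1),(9,1)]) (.cons (.leaf 1 [(3,1),(9,1)]) (.cons (.leaf 1 [(9,1)]) (.cons (.leaf 1 [(3,1),(9,1)]) (.cons (.leaf 1 [(2,1),(9,1)]) (.cons (.leaf 1 [(9,1)]) .nil)))))))) .nil)))))))) (.cons (.keep [1,3,6,8] (.node (.cons (.leaf 1 [(2,2),(6,1)]) (.cons (.leaf 1 [(3,2),(6,1)]) (.cons (.leaf 1 [(6,1)]) (.cons (.leaf 1 [(6,1),(3,2)]) (.cons (.leaf 1 [(6,1),(2,2)]) (.cons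 (.leaf 1 [(6,1)]) .nil)))))))) (.cons (.keep [1,3,4,6,8] (.node (.cons (.leaf 1 [(2,2),(6,1)]) (.cons (.leaf 1 [(3,2),(6,1)]) (.cons (.leaf 1 [(6,1)]) (.cons (.leaf 1 [(6,1),(3,2)]) (.cons (.leaf 1 [(6,1),(2,2)]) (.cons (.leaf 1 [(6,1)]) .nil)))))))) (.cons (.keep [1,2,5,6,8] (.node (.cons (.leaf 1 [(2,2),(6,1),(8,1)]) (.cons (.leaf 1 [(3,2),(8,1),(6,1)]) (.cons (.leaf 1 [(8,1),(6,1)]) (.cons (.leaf 1 [(6,1),(3,2),(8,1)]) (.cons (.leaf 1 [(8,1),(2,2),(6,1)]) (.cons (.leaf 1 [(8,1),(6,1)]) .nil)))))))) (.cons (.keep [0,1,2,6,7,8,9] (.node (.cons (.leaf 1 [(2,3),(7,1),(10,1)]) (.cons (.leaf 1 [(3,2),(2,1),(7,1),(10,1)]) (.cons (.keep [3,6,7,10] (.node (.cons (.leaf 1 [(2,1),(9,1)]) (.cons (.leaf 1 [(3,1),(9,1)]) (.cons (.leaf 1 [(9,1)]) (.cons (.leaf 1 [(3,1),(9,1)]) (.cons (.leaf 1 [(2,1),(9,1)])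 (.cons (.leaf 1 [(9,1)]) .nil)))))))) (.cons (.keep [3,4,6,7,10] (.node (.cons (.leaf 1 [(2,1),(9,1),(6,1)]) (.cons (.leaf 1 [(2,1),(6,1),(9,1)]) (.cons (.leaf 1 [(10,1),(6,1)]) (.cons (.leaf 1 [(3,1),(6,1),(10,1)]) (.cons (.leaf 1 [(10,1),(6,1),(2,1)]) (.cons (.leaf 1 [(10,1),(6,1)]) .nil)))))))) (.cons (.keep [2,5,6,7,10] (.node (.cons (.leaf 1 [(2,1),(6,3),(9,1)]) (.cons (.leaf 1 [(2,1),(6,3),(9,1)]) (.cons (.leaf 1 [(10,1),(6,1)]) (.cons (.leaf 1 [(3,1),(6,1),(10,1)]) (.cons (.leaf 1 [(10,1),(6,1),(2,1)]) (.cons (.leaf 1 [(10,1),(6,1)]) .nil)))))))) (.cons (.keep [0,2,7,10] (.node (.cons (.leaf 1 [(2,1),(8,1),(7,1)]) (.cons (.leaf 1 [(2,1),(8,1),(7,1)]) (.cons (.leaf 1 [(9,1)]) (.cons (.leaf 1 [(3,1),(9,1)]) (.cons (.leaf 1 [(9,1),(2,1)]) (.cons (.leaf 1 [(9,1)]) .nil)))))))) .nil))))))))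 .nil)))))))) (.cons (.keep [1,3,7,8,9] (.node (.cons (.leaf 1 [(8,1),(6,1),(2,2)]) (.cons (.leaf 1 [(8,1),(6,1),(3,2)]) (.cons (.leaf 1 [(8,1),(6,1)]) (.cons (.leaf 1 [(6,1),(3,2),(8,1)]) (.cons (.leaf 1 [(8,1),(6,1),(2,2)]) (.cons (.leaf 1 [(8,1),(6,1)]) .nil)))))))) (.cons (.keep [1,3,4,7,8,9] (.node (.cons (.leaf 1 [(6,1),(2,3),(8,2)]) (.cons (.leaf 1 [(2,1),(8,2),(6,1),(3,2)]) (.cons (.leaf 1 [(9,1),(8,1),(6,1)]) (.cons (.leaf 1 [(9,1),(8,1),(6,1),(3,2)]) (.cons (.leaf 1 [(9,1),(2,2),(8,1),(6,1)]) (.cons (.leaf 1 [(9,1),(8,1),(6,1)]) .nil)))))))) (.cons (.keep [1,5,7,8,9] (.node (.cons (.leaf 1 [(2,3),(6,1),(7,1)]) (.cons (.leaf 1 [(3,2),(6,1),(2,1),(7,1)]) (.cons (.leaf 1 [(6,1),(7,2),(8,1)]) (.cons (.leaf 1 [(6,1),(7,2),(3,2),(8,1)]) (.cons (.leaf 1 [(6,1),(7,2),(8,1),(2,2)]) (.cons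 (.leaf 1 [(6,1),(7,2),(8,1)]) .nil)))))))) (.cons (.keep [0,1,7,8,9] (.node (.cons (.leaf 1 [(7,1),(2,3)]) (.cons (.leaf 1 [(2,1),(7,1),(3,2)]) (.cons (.keep [3,6,7,8] (.node (.cons (.leaf 1 [(2,1)]) (.cons (.leaf 1 [(3,1)]) (.cons (.leaf 1 []) (.cons (.leaf 1 [(3,1)]) (.cons (.leaf 1 [(2,1)]) (.cons (.leaf 1 []) .nil)))))))) (.cons (.keep [3,4,6,7,8] (.node (.cons (.leaf 1 [(2,1),(6,1)]) (.cons (.leaf 1 [(3,1),(6,1)]) (.cons (.leaf 1 [(6,1)]) (.cons (.leaf 1 [(6,1),(3,1)]) (.cons (.leaf 1 [(6,1),(2,1)]) (.cons (.leaf 1 [(6,1)]) .nil)))))))) (.cons (.keep [2,5,6,7,8] (.node (.cons (.leaf 1 [(2,1),(6,1)]) (.cons (.leaf 1 [(3,1),(6,1)]) (.cons (.leaf 1 [(6,1)]) (.cons (.leaf 1 [(6,1),(3,1)]) (.cons (.leaf 1 [(2,1),(6,1)]) (.cons (.leaf 1 [(6,1)]) .nil)))))))) (.cons (.keep [0,2,7,8] (.node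 (.cons (.leaf 1 [(2,1)]) (.cons (.leaf 1 [(3,1)]) (.cons (.leaf 1 []) (.cons (.leaf 1 [(3,1)]) (.cons (.leaf 1 [(2,1)]) (.cons (.leaf 1 []) .nil)))))))) .nil)))))))) .nil)))))))) (.cons (.keep [3,4,7,8,9] (.node (.cons (.keep [2,5,7,9] (.node (.cons (.keep [2,5,6,8,9] (.node (.cons (.leaf 1 [(2,2),(9,2)]) (.cons (.leaf 1 [(3,2),(9,2)]) (.cons (.leaf 1 [(9,2)]) (.cons (.leaf 1 [(3,2),(9,2)]) (.cons (.leaf 1 [(2,2),(9,2)]) (.cons (.leaf 1 [(9,2)]) .nil)))))))) (.cons (.keep [3,4,6,8,9] (.node (.cons (.leaf 1 [(2,2),(9,2)]) (.cons (.leaf 1 [(3,2),(9,2)]) (.cons (.leaf 1 [(9,2)]) (.cons (.leaf 1 [(3,2),(9,2)]) (.cons (.leaf 1 [(2,2),(9,2)]) (.cons (.leaf 1 [(9,2)]) .nil)))))))) (.cons (.keep [1,3,6,7] (.node (.cons (.leaf 1 [(2,2),(6,2),(9,2)]) (.cons (.leaf 1 [(3,2),(6,2),(9,2)]) (.cons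 (.leaf 1 [(9,2),(6,2)]) (.cons (.leaf 1 [(3,2),(6,2),(9,2)]) (.cons (.leaf 1 [(2,2),(6,2),(9,2)]) (.cons (.leaf 1 [(9,2),(6,2)]) .nil)))))))) (.cons (.keep [1,3,4,6,7] (.node (.cons (.leaf 1 [(2,4),(6,2),(8,2)]) (.cons (.leaf 1 [(3,2),(6,2),(8,2),(2,2)]) (.cons (.leaf 1 [(10,2),(6,2)]) (.cons (.leaf 1 [(10,2),(6,2),(3,2)]) (.cons (.leaf 1 [(10,2),(6,2),(2,2)]) (.cons (.leaf 1 [(10,2),(6,2)]) .nil)))))))) (.cons (.keep [1,2,5,6,7] (.node (.cons (.leaf 1 [(2,4),(6,2)]) (.cons (.leaf 1 [(3,2),(6,2),(2,2)]) (.cons (.leaf 1 [(10,2),(8,2),(6,2)]) (.cons (.leaf 1 [(10,2),(8,2),(3,2),(6,2)]) (.cons (.leaf 1 [(10,2),(8,2),(6,2),(2,2)]) (.cons (.leaf 1 [(10,2),(8,2),(6,2)]) .nil)))))))) (.cons (.keep [0,1,2,6,7,8] (.node (.cons (.leaf 1 [(2,4),(7,2)]) (.cons (.leaf 1 [(3,2),(7,2),(2,2)]) (.cons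 (.leaf 1 [(11,2)]) (.cons (.leaf 1 [(11,2),(3,2)]) (.cons (.leaf 1 [(11,2),(2,2)]) (.cons (.leaf 1 [(11,2)]) .nil)))))))) .nil)))))))) (.cons (.keep [3,4,7,9] (.node (.cons (.keep [2,5,6,7,8] (.node (.cons (.leaf 1 [(2,1),(7,1),(10,2)]) (.cons (.leaf 1 [(3,2),(9,1),(10,2)]) (.cons (.leaf 1 [(10,2),(7,1),(1,1)]) (.cons (.leaf 1 [(3,2),(7,1),(1,1),(10,2)]) (.cons (.leaf 1 [(2,1),(7,1),(10,2),(1,1)]) (.cons (.leaf 1 [(10,2),(9,1)]) .nil)))))))) (.cons (.keep [3,4,6,7,8] (.node (.cons (.leaf 1 [(2,2),(9,1),(10,2)]) (.cons (.leaf 1 [(3,2),(9,1),(10,2)]) (.cons (.leaf 1 [(10,2),(9,1)]) (.cons (.leaf 1 [(3,2),(9,1),(10,2)]) (.cons (.leaf 1 [(2,2),(9,1),(10,2)]) (.cons (.leaf 1 [(10,2),(9,1)]) .nil)))))))) (.cons (.keep [3,6,7,8] (.node (.cons (.leaf 1 [(2,1),(6,1),(9,2)]) (.cons (.leaf 1 [(3,2),(8,1),(9,2)])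 (.cons (.leaf 1 [(9,2),(6,1),(1,1)]) (.cons (.leaf 1 [(3,2),(6,1),(1,1),(9,2)]) (.cons (.leaf 1 [(2,1),(6,1),(9,2),(1,1)]) (.cons (.leaf 1 [(9,2),(8,1)]) .nil)))))))) (.cons (.keep [3,4,6,7,8] (.node (.cons (.leaf 1 [(2,1),(6,1),(10,2)]) (.cons (.leaf 1 [(3,2),(9,1),(10,2)]) (.cons (.leaf 1 [(10,2),(6,1),(1,1)]) (.cons (.leaf 1 [(3,2),(6,1),(1,1),(10,2)]) (.cons (.leaf 1 [(2,1),(6,1),(10,2),(1,1)]) (.cons (.leaf 1 [(10,2),(9,1)]) .nil)))))))) (.cons (.keep [2,5,6,7,8] (.node (.cons (.leaf 1 [(2,1),(7,1),(10,2)]) (.cons (.leaf 1 [(3,2),(9,1),(10,2)]) (.cons (.leaf 1 [(10,2),(7,1),(1,1)]) (.cons (.leaf 1 [(3,2),(7,1),(1,1),(10,2)]) (.cons (.leaf 1 [(2,1),(7,1),(10,2),(1,1)]) (.cons (.leaf 1 [(10,2),(9,1)]) .nil)))))))) (.cons (.keep [0,2,6,7,8] (.node (.cons (.leaf 1 [(2,2),(9,1),(10,2)])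 (.cons (.leaf 1 [(3,2),(9,1),(10,2)]) (.cons (.leaf 1 [(10,2),(9,1)]) (.cons (.leaf 1 [(3,2),(9,1),(10,2)]) (.cons (.leaf 1 [(2,2),(9,1),(10,2)]) (.cons (.leaf 1 [(10,2),(9,1)]) .nil)))))))) .nil)))))))) (.cons (.keep [1,3,6,8] (.node (.cons (.leaf 1 [(2,2),(6,1)]) (.cons (.leaf 1 [(3,2),(6,1)]) (.cons (.leaf 1 [(6,1)]) (.cons (.leaf 1 [(6,1),(3,2)]) (.cons (.leaf 1 [(6,1),(2,2)]) (.cons (.leaf 1 [(6,1)]) .nil)))))))) (.cons (.keep [1,3,4,6,8] (.node (.cons (.leaf 1 [(2,2),(6,1),(8,1)]) (.cons (.leaf 1 [(3,2),(6,1),(8,1)]) (.cons (.leaf 1 [(6,1),(8,1)]) (.cons (.leaf 1 [(6,1),(8,1),(3,2)]) (.cons (.leaf 1 [(6,1),(8,1),(2,2)]) (.cons (.leaf 1 [(6,1),(8,1)]) .nil)))))))) (.cons (.keep [1,2,5,6,8] (.node (.cons (.leaf 1 [(2,2),(6,1),(8,2)]) (.cons (.leaf 1 [(3,2),(6,1),(8,2)]) (.cons (.leaf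 1 [(6,1),(8,2)]) (.cons (.leaf 1 [(6,1),(3,2),(8,2)]) (.cons (.leaf 1 [(6,1),(8,2),(2,2)]) (.cons (.leaf 1 [(6,1),(8,2)]) .nil)))))))) (.cons (.keep [0,1,2,6,7,8,9] (.node (.cons (.leaf 1 [(2,3),(7,1),(10,1)]) (.cons (.leaf 1 [(3,2),(2,1),(7,1),(10,1)]) (.cons (.keep [3,6,7,10] (.node (.cons (.leaf 1 [(2,1),(9,1)]) (.cons (.leaf 1 [(3,1),(9,1)]) (.cons (.leaf 1 [(9,1)]) (.cons (.leaf 1 [(3,1),(9,1)]) (.cons (.leaf 1 [(2,1),(9,1)]) (.cons (.leaf 1 [(9,1)]) .nil)))))))) (.cons (.keep [3,4,6,7,10] (.node (.cons (.leaf 1 [(2,1),(9,1),(6,1)]) (.cons (.leaf 1 [(2,1),(6,1),(9,1)]) (.cons (.leaf 1 [(10,1),(6,1)]) (.cons (.leaf 1 [(3,1),(6,1),(10,1)]) (.cons (.leaf 1 [(10,1),(6,1),(2,1)]) (.cons (.leaf 1 [(10,1),(6,1)]) .nil)))))))) (.cons (.keep [2,5,6,7,10] (.node (.cons (.leaf 1 [(2,1),(6,3),(9,1)])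 (.cons (.leaf 1 [(2,1),(6,3),(9,1)]) (.cons (.leaf 1 [(10,1),(6,1)]) (.cons (.leaf 1 [(3,1),(6,1),(10,1)]) (.cons (.leaf 1 [(10,1),(6,1),(2,1)]) (.cons (.leaf 1 [(10,1),(6,1)]) .nil)))))))) (.cons (.keep [0,2,7,10] (.node (.cons (.leaf 1 [(2,1),(8,1),(7,1)]) (.cons (.leaf 1 [(2,1),(8,1),(7,1)]) (.cons (.leaf 1 [(9,1)]) (.cons (.leaf 1 [(3,1),(9,1)]) (.cons (.leaf 1 [(9,1),(2,1)]) (.cons (.leaf 1 [(9,1)]) .nil)))))))) .nil)))))))) .nil)))))))) (.cons (.keep [1,3,6,7] (.node (.cons (.leaf 1 [(2,1),(6,1),(9,1)]) (.cons (.leaf 1 [(3,1),(6,1),(9,1)]) (.cons (.leaf 1 [(9,1),(6,1)]) (.cons (.leaf 1 [(3,1),(6,1),(9,1)]) (.cons (.leaf 1 [(2,1),(6,1),(9,1)]) (.cons (.leaf 1 [(9,1),(6,1)]) .nil)))))))) (.cons (.keep [1,3,4,7,8] (.node (.cons (.leaf 1 [(2,2),(8,2),(6,1)]) (.cons (.leaf 1 [(3,1),(8,2),(6,1),(2,1)])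 (.cons (.leaf 1 [(9,1),(8,1),(6,1)]) (.cons (.leaf 1 [(9,1),(8,1),(3,1),(6,1)]) (.cons (.leaf 1 [(9,1),(8,1),(6,1),(2,1)]) (.cons (.leaf 1 [(9,1),(8,1),(6,1)]) .nil)))))))) (.cons (.keep [1,2,5,7,8] (.node (.cons (.leaf 1 [(2,2),(6,1),(8,1)]) (.cons (.leaf 1 [(2,1),(3,1),(8,1),(6,1)]) (.cons (.leaf 1 [(6,1),(8,2),(9,1)]) (.cons (.leaf 1 [(3,1),(8,2),(9,1),(6,1)]) (.cons (.leaf 1 [(6,1),(8,2),(9,1),(2,1)]) (.cons (.leaf 1 [(6,1),(8,2),(9,1)]) .nil)))))))) (.cons (.keep [0,1,2,6,7] (.node (.cons (.leaf 1 [(2,2),(7,1)]) (.cons (.leaf 1 [(3,1),(7,1),(2,1)]) (.cons (.keep [3,6,7,10] (.node (.cons (.leaf 1 [(2,1)]) (.cons (.leaf 1 [(3,1)]) (.cons (.leaf 1 []) (.cons (.leaf 1 [(3,1)]) (.cons (.leaf 1 [(2,1)]) (.cons (.leaf 1 []) .nil)))))))) (.cons (.keep [3,4,6,7,10] (.node (.cons (.leaf 1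 [(2,1)]) (.cons (.leaf 1 [(3,1)]) (.cons (.leaf 1 []) (.cons (.leaf 1 [(3,1)]) (.cons (.leaf 1 [(2,1)]) (.cons (.leaf 1 []) .nil)))))))) (.cons (.keep [2,5,6,7,10] (.node (.cons (.leaf 1 [(2,1)]) (.cons (.leaf 1 [(3,1)]) (.cons (.leaf 1 []) (.cons (.leaf 1 [(3,1)]) (.cons (.leaf 1 [(2,1)]) (.cons (.leaf 1 []) .nil)))))))) (.cons (.keep [0,2,7,10] (.node (.cons (.leaf 1 [(2,1)]) (.cons (.leaf 1 [(3,1)]) (.cons (.leaf 1 []) (.cons (.leaf 1 [(3,1)]) (.cons (.leaf 1 [(2,1)]) (.cons (.leaf 1 []) .nil)))))))) .nil)))))))) .nil)))))))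

theorem c_26_24_0 : Concl 26 24 z_26_24_0 h_26_24_0 .nd := piece _ hP_nil t_26_24_0 _ _ (by
  decide +kernel)

def t_26_24 : T := (.keep [0,1,2] (.node (.cons (.keep [2,5,6,7] (.leaf 0 [(0,0)])) (.cons (.keep [3,4,6,7] (.node (.cons (.keep [2,5,7,8] (.node (.cons (.keep [2,5,8,9] (.node (.cons (.leaf 1 [(2,1),(7,1),(8,3)]) (.cons (.keep [3,6,7,8,9] (.node (.cons (.leaf 1 [(2,2),(9,2)]) (.cons (.leaf 1 [(2,1),(9,2),(3,1)]) (.cons (.keep [3,6,7,8,9] (.node (.cons (.leaf 1 [(2,1),(10,1)]) (.cons (.leaf 1 [(3,1),(10,1)]) (.cons (.leaf 1 [(10,1)]) (.cons (.leaf 1 [(10,1),(3,1)]) (.cons (.leaf 1 [(10,1),(2,1)]) (.cons (.leaf 1 [(10,1)]) .nil)))))))) (.cons (.keep [4,6,7,8,9] (.node (.cons (.leaf 1 [(2,1),(10,2),(7,1)]) (.cons (.leaf 1 [(3,1),(10,2),(7,1)]) (.cons (.leaf 1 [(10,2),(7,1)])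 (.cons (.leaf 1 [(10,2),(3,1),(7,1)]) (.cons (.leaf 1 [(10,2),(7,1),(2,1)]) (.cons (.leaf 1 [(10,2),(7,1)]) .nil)))))))) (.cons (.keep [5,6,7,8,9] (.node (.cons (.leaf 1 [(2,1),(10,2),(7,1)]) (.cons (.leaf 1 [(3,1),(10,2),(7,1)]) (.cons (.leaf 1 [(10,2),(7,1)]) (.cons (.leaf 1 [(10,2),(7,1),(3,1)]) (.cons (.leaf 1 [(10,2),(7,1),(2,1)]) (.cons (.leaf 1 [(10,2),(7,1)]) .nil)))))))) (.cons (.keep [0,2,6,8,9] (.node (.cons (.leaf 1 [(2,1),(10,1)]) (.cons (.leaf 1 [(3,1),(10,1)]) (.cons (.leaf 1 [(10,1)]) (.cons (.leaf 1 [(10,1),(3,1)]) (.cons (.leaf 1 [(10,1),(2,1)]) (.cons (.leaf 1 [(10,1)]) .nil)))))))) .nil)))))))) (.cons (.leaf 1 [(8,3),(7,1),(1,1)]) (.cons (.leaf 1 [(3,2),(7,1),(8,3),(1,1)]) (.cons (.leaf 1 [(2,1),(1,1),(8,3),(7,1)]) (.cons (.keep [0,1,7,8,9] (.node (.cons (.leaf 1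 [(7,1),(2,4)]) (.cons (.leaf 1 [(2,1),(7,1),(3,3)]) (.cons (.keep [3,6,7,8] (.node (.cons (.leaf 1 [(2,1)]) (.cons (.leaf 1 [(3,1)]) (.cons (.leaf 1 []) (.cons (.leaf 1 [(3,1)]) (.cons (.leaf 1 [(2,1)]) (.cons (.leaf 1 []) .nil)))))))) (.cons (.keep [3,4,6,7,8] (.node (.cons (.leaf 1 [(2,1),(6,2)]) (.cons (.leaf 1 [(3,1),(6,2)]) (.cons (.leaf 1 [(6,2)]) (.cons (.leaf 1 [(3,1),(6,2)]) (.cons (.leaf 1 [(6,2),(2,1)]) (.cons (.leaf 1 [(6,2)]) .nil)))))))) (.cons (.keep [2,5,6,7,8] (.node (.cons (.leaf 1 [(2,1),(6,2)]) (.cons (.leaf 1 [(3,1),(6,2)]) (.cons (.leaf 1 [(6,2)]) (.cons (.leaf 1 [(6,2),(3,1)]) (.cons (.leaf 1 [(2,1),(6,2)]) (.cons (.leaf 1 [(6,2)]) .nil)))))))) (.cons (.keep [0,2,7,8] (.node (.cons (.leaf 1 [(2,1)]) (.cons (.leaf 1 [(3,1)]) (.cons (.leaf 1 []) (.cons (.leaf 1 [(3,1)])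 (.cons (.leaf 1 [(2,1)]) (.cons (.leaf 1 []) .nil)))))))) .nil)))))))) .nil)))))))) (.cons (.keep [3,4,8,9] (.node (.cons (.leaf 1 [(2,1),(8,3)]) (.cons (.keep [3,6,7,8,9] (.node (.cons (.leaf 1 [(2,2),(8,1),(9,2)]) (.cons (.leaf 1 [(3,1),(2,1),(9,2),(8,1)]) (.cons (.keep [3,6,7,8,9] (.node (.cons (.leaf 1 [(2,1),(6,1),(9,2)]) (.cons (.leaf 1 [(3,1),(10,1),(9,1)]) (.cons (.leaf 1 [(9,2),(6,1),(1,1)]) (.cons (.leaf 1 [(3,2),(6,1),(1,1),(9,2)]) (.cons (.leaf 1 [(2,1),(6,1),(9,2),(1,1)]) (.cons (.leaf 1 [(9,1),(10,1)]) .nil)))))))) (.cons (.keep [4,6,7,8,9] (.node (.cons (.leaf 1 [(2,1),(10,2)]) (.cons (.leaf 1 [(2,1),(10,2)]) (.cons (.leaf 1 [(9,1),(10,2),(7,1)]) (.cons (.leaf 1 [(3,1),(10,2),(7,1),(9,1)]) (.cons (.leaf 1 [(9,1),(10,2),(7,1),(2,1)]) (.cons (.leaf 1 [(9,1),(10,2),(7,1)])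 .nil)))))))) (.cons (.keep [5,6,7,8,9] (.node (.cons (.leaf 1 [(2,1),(9,2)]) (.cons (.leaf 1 [(3,1),(10,2),(7,1),(9,1)]) (.cons (.leaf 1 [(9,2),(1,1)]) (.cons (.leaf 1 [(3,2),(1,1),(9,2)]) (.cons (.leaf 1 [(9,2),(1,1),(2,1)]) (.cons (.leaf 1 [(9,1),(10,2),(7,1)]) .nil)))))))) (.cons (.keep [0,2,6,8,9] (.node (.cons (.leaf 1 [(2,1),(10,1),(9,1)]) (.cons (.leaf 1 [(3,1),(10,1),(9,1)]) (.cons (.leaf 1 [(9,1),(10,1)]) (.cons (.leaf 1 [(3,1),(10,1),(9,1)]) (.cons (.leaf 1 [(2,1),(10,1),(9,1)]) (.cons (.leaf 1 [(9,1),(10,1)]) .nil)))))))) .nil)))))))) (.cons (.leaf 1 [(8,3),(1,1)]) (.cons (.leaf 1 [(3,2),(1,1),(8,3)]) (.cons (.leaf 1 [(2,1),(1,1),(8,3)]) (.cons (.keep [0,1,7,8,9] (.node (.cons (.leaf 1 [(2,4),(7,1),(8,1)]) (.cons (.leaf 1 [(3,3),(2,1),(7,1),(8,1)]) (.cons (.keep [3,6,7,8]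 (.node (.cons (.leaf 1 [(2,1),(9,1)]) (.cons (.leaf 1 [(3,1),(9,1)]) (.cons (.leaf 1 [(9,1)]) (.cons (.leaf 1 [(3,1),(9,1)]) (.cons (.leaf 1 [(2,1),(9,1)]) (.cons (.leaf 1 [(9,1)]) .nil)))))))) (.cons (.keep [3,4,6,7,8] (.node (.cons (.leaf 1 [(2,1),(9,1),(6,2)]) (.cons (.leaf 1 [(2,1),(9,1),(6,2)]) (.cons (.leaf 1 [(10,1),(6,2)]) (.cons (.leaf 1 [(3,1),(6,2),(10,1)]) (.cons (.leaf 1 [(10,1),(6,2),(2,1)]) (.cons (.leaf 1 [(10,1),(6,2)]) .nil)))))))) (.cons (.keep [2,5,6,7,8] (.node (.cons (.leaf 1 [(2,1),(6,4),(9,1)]) (.cons (.leaf 1 [(2,1),(6,4),(9,1)]) (.cons (.leaf 1 [(10,1),(6,2)]) (.cons (.leaf 1 [(3,1),(6,2),(10,1)]) (.cons (.leaf 1 [(10,1),(6,2),(2,1)]) (.cons (.leaf 1 [(10,1),(6,2)]) .nil)))))))) (.cons (.keep [0,2,7,8] (.node (.cons (.leaf 1 [(2,1),(8,1),(7,1)]) (.cons (.leaf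 1 [(2,1),(8,1),(7,1)]) (.cons (.leaf 1 [(9,1)]) (.cons (.leaf 1 [(3,1),(9,1)]) (.cons (.leaf 1 [(9,1),(2,1)]) (.cons (.leaf 1 [(9,1)]) .nil)))))))) .nil)))))))) .nil)))))))) (.cons (.keep [1,3,6,7] (.node (.cons (.leaf 1 [(2,2),(6,2),(9,2)]) (.cons (.leaf 1 [(3,2),(6,2),(9,2)]) (.cons (.leaf 1 [(9,2),(6,2)]) (.cons (.leaf 1 [(3,2),(6,2),(9,2)]) (.cons (.leaf 1 [(2,2),(6,2),(9,2)]) (.cons (.leaf 1 [(9,2),(6,2)]) .nil)))))))) (.cons (.keep [1,3,4,7,9] (.node (.cons (.leaf 1 [(2,4),(8,3),(6,2)]) (.cons (.leaf 1 [(3,2),(8,3),(6,2),(2,2)]) (.cons (.leaf 1 [(9,2),(8,1),(6,2)]) (.cons (.leaf 1 [(9,2),(8,1),(3,2),(6,2)]) (.cons (.leaf 1 [(9,2),(8,1),(6,2),(2,2)]) (.cons (.leaf 1 [(9,2),(8,1),(6,2)]) .nil)))))))) (.cons (.keep [1,2,5,7,9] (.node (.cons (.leaf 1 [(6,2),(8,1),(2,4)]) (.cons (.leaf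 1 [(3,2),(8,1),(2,2),(6,2)]) (.cons (.leaf 1 [(6,2),(8,3),(9,2)]) (.cons (.leaf 1 [(3,2),(8,3),(9,2),(6,2)]) (.cons (.leaf 1 [(6,2),(8,3),(9,2),(2,2)]) (.cons (.leaf 1 [(6,2),(8,3),(9,2)]) .nil)))))))) (.cons (.keep [0,1,2,6,7,8] (.node (.cons (.leaf 1 [(2,4),(7,2)]) (.cons (.leaf 1 [(3,2),(7,2),(2,2)]) (.cons (.leaf 1 [(11,2)]) (.cons (.leaf 1 [(11,2),(3,2)]) (.cons (.leaf 1 [(11,2),(2,2)]) (.cons (.leaf 1 [(11,2)]) .nil)))))))) .nil)))))))) (.cons (.keep [3,4,7,9] (.node (.cons (.keep [2,5,7,8,9] (.node (.cons (.leaf 1 [(7,2),(9,3)]) (.cons (.leaf 1 [(3,2),(8,2),(9,3)]) (.cons (.leaf 1 [(9,3),(7,2),(1,2)]) (.cons (.leaf 1 [(3,2),(7,2),(9,3),(1,2)]) (.cons (.leaf 1 [(1,2),(9,3),(7,2)]) (.cons (.leaf 1 [(9,3),(8,2)]) .nil)))))))) (.cons (.keep [3,4,7,8,9] (.node (.cons (.leaf 1 [(2,1),(8,1),(9,3)])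 (.cons (.leaf 1 [(3,2),(8,2),(7,1),(9,3)]) (.cons (.leaf 1 [(9,3),(8,1),(1,1)]) (.cons (.leaf 1 [(9,3),(8,1),(3,2),(1,1)]) (.cons (.leaf 1 [(2,1),(8,1),(1,1),(9,3)]) (.cons (.leaf 1 [(9,3),(8,2),(7,1)]) .nil)))))))) (.cons (.keep [3,6,7,8] (.node (.cons (.leaf 1 [(2,1),(6,1),(9,2)]) (.cons (.leaf 1 [(3,2),(8,1),(9,2)]) (.cons (.leaf 1 [(9,2),(6,1),(1,1)]) (.cons (.leaf 1 [(3,2),(6,1),(1,1),(9,2)]) (.cons (.leaf 1 [(2,1),(6,1),(9,2),(1,1)]) (.cons (.leaf 1 [(9,2),(8,1)]) .nil)))))))) (.cons (.keep [3,4,6,7,8] (.node (.cons (.leaf 1 [(2,1),(10,2)]) (.cons (.leaf 1 [(3,2),(9,1),(7,1),(10,2)]) (.cons (.leaf 1 [(10,2),(1,1)]) (.cons (.leaf 1 [(3,2),(1,1),(10,2)]) (.cons (.leaf 1 [(10,2),(1,1),(2,1)]) (.cons (.leaf 1 [(10,2),(9,1),(7,1)]) .nil)))))))) (.cons (.keep [2,5,6,7,8] (.node (.cons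 (.leaf 1 [(2,1),(10,2),(7,2)]) (.cons (.leaf 1 [(3,2),(9,1),(7,1),(10,2)]) (.cons (.leaf 1 [(10,2),(1,1),(7,2)]) (.cons (.leaf 1 [(3,2),(1,1),(7,2),(10,2)]) (.cons (.leaf 1 [(10,2),(1,1),(7,2),(2,1)]) (.cons (.leaf 1 [(10,2),(9,1),(7,1)]) .nil)))))))) (.cons (.keep [0,2,6,7,8] (.node (.cons (.leaf 1 [(2,2),(9,1),(10,2)]) (.cons (.leaf 1 [(3,2),(9,1),(10,2)]) (.cons (.leaf 1 [(10,2),(9,1)]) (.cons (.leaf 1 [(3,2),(9,1),(10,2)]) (.cons (.leaf 1 [(2,2),(9,1),(10,2)]) (.cons (.leaf 1 [(10,2),(9,1)]) .nil)))))))) .nil)))))))) (.cons (.keep [1,3,6,7] (.node (.cons (.leaf 1 [(2,1),(6,1)]) (.cons (.leaf 1 [(3,1),(6,1)]) (.cons (.leaf 1 [(6,1)]) (.cons (.leaf 1 [(3,1),(6,1)]) (.cons (.leaf 1 [(2,1),(6,1)]) (.cons (.leaf 1 [(6,1)]) .nil)))))))) (.cons (.keep [1,3,4,7,8] (.node (.cons (.leaf 1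 [(2,1),(6,1),(8,1)]) (.cons (.leaf 1 [(6,1),(3,1),(8,1)]) (.cons (.leaf 1 [(6,1),(8,1)]) (.cons (.leaf 1 [(6,1),(3,1),(8,1)]) (.cons (.leaf 1 [(6,1),(8,1),(2,1)]) (.cons (.leaf 1 [(6,1),(8,1)]) .nil)))))))) (.cons (.keep [1,2,5,6,7] (.node (.cons (.leaf 1 [(2,1),(6,1),(8,2)]) (.cons (.leaf 1 [(3,1),(8,2),(6,1)]) (.cons (.leaf 1 [(6,1),(8,2)]) (.cons (.leaf 1 [(3,1),(8,2),(6,1)]) (.cons (.leaf 1 [(6,1),(8,2),(2,1)]) (.cons (.leaf 1 [(6,1),(8,2)]) .nil)))))))) (.cons (.keep [0,1,2,7] (.node (.cons (.leaf 1 [(2,2),(9,1),(7,1)]) (.cons (.leaf 1 [(3,1),(9,1),(7,1),(2,1)]) (.cons (.keep [3,6,7,9] (.node (.cons (.leaf 1 [(2,1),(9,1)]) (.cons (.leaf 1 [(3,1),(9,1)]) (.cons (.leaf 1 [(9,1)]) (.cons (.leaf 1 [(3,1),(9,1)]) (.cons (.leaf 1 [(2,1),(9,1)]) (.cons (.leaf 1 [(9,1)]) .nil)))))))) (.cons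 (.keep [3,4,6,7,9] (.node (.cons (.leaf 1 [(2,1),(9,1)]) (.cons (.leaf 1 [(2,1),(9,1)]) (.cons (.leaf 1 [(10,1)]) (.cons (.leaf 1 [(3,1),(10,1)]) (.cons (.leaf 1 [(10,1),(2,1)]) (.cons (.leaf 1 [(10,1)]) .nil)))))))) (.cons (.keep [2,5,6,7,9] (.node (.cons (.leaf 1 [(2,1),(9,1),(6,2)]) (.cons (.leaf 1 [(2,1),(9,1),(6,2)]) (.cons (.leaf 1 [(10,1)]) (.cons (.leaf 1 [(3,1),(10,1)]) (.cons (.leaf 1 [(10,1),(2,1)]) (.cons (.leaf 1 [(10,1)]) .nil)))))))) (.cons (.keep [0,2,7,9] (.node (.cons (.leaf 1 [(2,1),(8,1),(7,1)]) (.cons (.leaf 1 [(2,1),(8,1),(7,1)]) (.cons (.leaf 1 [(9,1)]) (.cons (.leaf 1 [(3,1),(9,1)]) (.cons (.leaf 1 [(9,1),(2,1)]) (.cons (.leaf 1 [(9,1)]) .nil)))))))) .nil)))))))) .nil)))))))) (.cons (.leaf 1 []) (.cons (.leaf 1 [(4,1)]) (.cons (.leaf 1 [(5,1)]) (.cons (.leaf 1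 []) .nil))))))))

theorem e_26_24 : ESB (caseOf 4 26 24) := esb_of_pieces _ (hP_cons c_26_24_0 hP_nil) t_26_24 (by
  decide +kernel)

def ks : List (ℕ × ℕ) := [(23, 28), (23, 29), (23, 30), (23, 31), (24, 24), (24, 25), (24, 26),
  (24, 27), (24, 28), (24, 29), (24, 30), (24, 31), (25, 24), (25, 25), (25, 26), (25, 27), (25,
  28), (25, 29), (25, 30), (25, 31), (26, 24)]

theorem ks_ok : ∀ p ∈ ks, ESB (caseOf 4 p.1 p.2) := ks_cons e_23_28 <| ks_cons e_23_29 <| ks_cons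
  e_23_30 <| ks_cons e_23_31 <| ks_cons e_24_24 <| ks_cons e_24_25 <| ks_cons e_24_26 <| ks_cons
  e_24_27 <| ks_cons e_24_28 <| ks_cons e_24_29 <| ks_cons e_24_30 <| ks_cons e_24_31 <| ks_cons
  e_25_24 <| ks_cons e_25_25 <| ks_cons e_25_26 <| ks_cons e_25_27 <| ks_cons e_25_28 <| ks_cons
  e_25_29 <| ks_cons e_25_30 <| ks_cons e_25_31 <| ks_cons e_26_24 <| ks_nil

end Pool.Agent.H4.RD4.E21
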