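import Pool.Agent.H4.RD4.Chk

/-! # Certificates for special cases of order four -/

set_option maxRecDepth 20000

namespace Pool.Agent.H4.RD4.E22

open Pool.Agent.H50.Rdb
open Pool.Agent.H81.RDE (ESB caseOf)

def t_26_25 : T := (.keep [0,1,2] (.node (.cons (.keep [0,2,5,6,8] (.node (.cons (.keep [0,2,5,6,8,9] (.node (.cons (.leaf 1 [(12,1)]) (.cons (.leaf 1 [(12,1),(4,1)]) (.cons (.leaf 1 [(12,1),(4,1)]) (.cons (.leaf 1 [(5,1)]) (.cons (.leaf 1 []) (.cons (.leaf 1 [(5,1)]) (.cons (.leaf 1 [(6,1)]) (.cons (.leaf 1 [(6,1)]) (.cons (.leaf 1 []) .nil))))))))))) (.cons (.keep [4,6,7,9,10] (.node (.cons (.leaf 1 [(10,1),(7,1)]) (.cons (.leaf 1 [(10,1),(7,1),(4,1)]) (.cons (.leaf 1 [(10,1),(7,1),(4,1)]) (.cons (.leaf 1 [(7,1),(5,1)]) (.cons (.leaf 1 [(7,1)]) (.cons (.leaf 1 [(7,1),(5,1)])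 (.cons (.leaf 1 [(7,1),(6,1)]) (.cons (.leaf 1 [(7,1),(6,1)]) (.cons (.leaf 1 [(7,1)]) .nil))))))))))) (.cons (.keep [3,4,9,10,11] (.node (.cons (.leaf 1 [(9,1),(8,1)]) (.cons (.leaf 1 [(9,1),(4,2)]) (.cons (.leaf 1 [(9,1),(8,1),(4,1)]) (.cons (.leaf 1 []) (.cons (.leaf 1 [(4,1)]) (.cons (.leaf 1 [(4,1)]) (.cons (.leaf 1 [(8,1),(6,1)]) (.cons (.leaf 1 [(4,1),(6,1)]) (.cons (.leaf 1 [(8,1)]) .nil))))))))))) (.cons (.leaf 1 [(5,1)]) (.cons (.leaf 1 []) (.cons (.leaf 1 [(5,1)]) (.cons (.leaf 1 [(6,1)]) (.cons (.leaf 1 [(6,1)]) (.cons (.leaf 1 []) .nil))))))))))) (.cons (.keep [4,6,7,8,9] (.node (.cons (.keep [6,7,8,9,11] (.node (.cons (.leaf 1 []) (.cons (.leaf 1 [(4,1)]) (.cons (.leaf 1 [(4,1)]) (.cons (.leaf 1 [(8,1),(5,1)]) (.cons (.leaf 1 [(8,1)]) (.cons (.leaf 1 [(8,1),(5,1)]) (.cons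 (.leaf 1 [(8,1),(6,1)]) (.cons (.leaf 1 [(8,1),(6,1)]) (.cons (.leaf 1 [(8,1)]) .nil))))))))))) (.cons (.keep [4,6,8,10,11] (.node (.cons (.leaf 1 [(7,1)]) (.cons (.leaf 1 [(7,1),(4,1)]) (.cons (.leaf 1 [(7,1),(4,1)]) (.cons (.leaf 1 [(9,1),(7,2),(5,1)]) (.cons (.leaf 1 [(9,1),(7,2)]) (.cons (.leaf 1 [(9,1),(7,2),(5,1)]) (.cons (.leaf 1 [(9,1),(7,2),(6,1)]) (.cons (.leaf 1 [(9,1),(7,2),(6,1)]) (.cons (.leaf 1 [(9,1),(7,2)]) .nil))))))))))) (.cons (.keep [4,7,8,10,11] (.node (.cons (.leaf 1 [(7,1)]) (.cons (.leaf 1 [(4,2)]) (.cons (.leaf 1 [(7,1),(4,1)]) (.cons (.leaf 1 [(8,1)]) (.cons (.leaf 1 [(8,1),(4,1)]) (.cons (.leaf 1 [(8,1),(4,1)]) (.cons (.leaf 1 [(8,1),(7,1),(6,1)]) (.cons (.leaf 1 [(8,1),(4,1),(6,1)]) (.cons (.leaf 1 [(8,1),(7,1)]) .nil))))))))))) (.cons (.leaf 1 [(7,1),(5,1)])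 (.cons (.leaf 1 [(7,1)]) (.cons (.leaf 1 [(7,1),(5,1)]) (.cons (.leaf 1 [(7,1),(6,1)]) (.cons (.leaf 1 [(7,1),(6,1)]) (.cons (.leaf 1 [(7,1)]) .nil))))))))))) (.cons (.keep [3,4,5,7,8] (.node (.cons (.keep [2,5,6,8,9] (.node (.cons (.leaf 1 [(11,1)]) (.cons (.leaf 1 [(11,1),(4,1)]) (.cons (.leaf 1 [(11,1),(4,1)]) (.cons (.leaf 1 [(10,1),(5,1)]) (.cons (.leaf 1 [(10,1)]) (.cons (.leaf 1 [(10,1),(5,1)]) (.cons (.leaf 1 [(10,1),(6,1)]) (.cons (.leaf 1 [(10,1),(6,1)]) (.cons (.leaf 1 [(10,1)]) .nil))))))))))) (.cons (.keep [4,6,7,9,10] (.node (.cons (.leaf 1 [(10,1),(7,1)]) (.cons (.leaf 1 [(10,1),(7,1),(4,1)]) (.cons (.leaf 1 [(10,1),(7,1),(4,1)]) (.cons (.leaf 1 [(7,2),(5,1)]) (.cons (.leaf 1 [(7,2)]) (.cons (.leaf 1 [(7,2),(5,1)]) (.cons (.leaf 1 [(7,2),(6,1)]) (.cons (.leaf 1 [(7,2),(6,1)])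 (.cons (.leaf 1 [(7,2)]) .nil))))))))))) (.cons (.keep [5,7,8,9,11] (.node (.cons (.leaf 1 [(10,1),(9,1),(7,1)]) (.cons (.leaf 1 [(10,1),(4,2)]) (.cons (.leaf 1 [(10,1),(9,1),(7,1),(4,1)]) (.cons (.leaf 1 [(9,1)]) (.cons (.leaf 1 [(9,1),(4,1)]) (.cons (.leaf 1 [(9,1),(4,1)]) (.cons (.leaf 1 [(9,2),(7,1),(6,1)]) (.cons (.leaf 1 [(9,1),(4,1),(6,1)]) (.cons (.leaf 1 [(9,2),(7,1)]) .nil))))))))))) (.cons (.leaf 1 []) (.cons (.leaf 1 [(4,1)]) (.cons (.leaf 1 [(4,1)]) (.cons (.leaf 1 [(8,1),(6,1)]) (.cons (.leaf 1 [(4,1),(6,1)]) (.cons (.leaf 1 [(8,1)]) .nil))))))))))) (.cons (.leaf 1 [(5,1)]) (.cons (.leaf 1 []) (.cons (.leaf 1 [(5,1)]) (.cons (.leaf 1 [(6,1)]) (.cons (.leaf 1 [(6,1)]) (.cons (.leaf 1 []) .nil)))))))))))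

theorem e_26_25 : ESB (caseOf 4 26 25) := esb_of_ok (t := t_26_25) (by decide +kernel)

def t_26_26 : T := (.keep [0,1,2] (.node (.cons (.leaf 1 []) (.cons (.leaf 1 [(4,1)]) (.cons (.leaf 1 [(4,1)]) (.cons (.leaf 1 [(5,1)]) (.cons (.leaf 1 []) (.cons (.leaf 1 [(5,1)]) (.cons (.leaf 1 [(6,1)]) (.cons (.leaf 1 [(6,1)]) (.cons (.leaf 1 []) .nil)))))))))))

theorem e_26_26 : ESB (caseOf 4 26 26) := esb_of_ok (t := t_26_26) (by decide +kernel)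

def t_26_27 : T := (.keep [0,1,2] (.node (.cons (.leaf 1 [(5,1)]) (.cons (.leaf 1 []) (.cons (.leaf 1 [(5,1)]) (.cons (.leaf 1 [(5,1)]) (.cons (.leaf 1 [(6,1)]) (.cons (.leaf 1 [(6,1)]) (.cons (.leaf 1 []) (.cons (.leaf 1 [(6,1)]) (.cons (.leaf 1 [(7,1)]) (.cons (.leaf 1 [(7,1)]) (.cons (.leaf 1 [(7,1)]) (.cons (.leaf 1 []) .nil))))))))))))))

theorem e_26_27 : ESB (caseOf 4 26 27) := esb_of_ok (t := t_26_27) (by decide +kernel)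

def z_26_28_0 : F := ⟨0, 0, 0, -1, 2⟩

def h_26_28_0 : List F := [⟨1, 0, 0, -1, 0⟩, ⟨0, -1, 0, 1, 0⟩, ⟨0, 0, -1, 1, 0⟩, ⟨-1, 0, 0, 0, 1⟩]

def t_26_28_0 : T := (.node (.cons (.keep [2,6,7,9,10] (.node (.cons (.leaf 1 [(11,1)]) (.cons (.leaf 1 [(2,1),(10,1),(11,1)]) (.cons (.leaf 1 [(3,1),(10,1),(11,1)]) (.cons (.leaf 1 [(11,1),(1,1)]) (.cons (.leaf 1 [(11,1),(10,1)]) (.cons (.leaf 1 [(11,1),(10,1),(3,1)]) (.cons (.leaf 1 [(11,1),(1,1)]) (.cons (.leaf 1 [(11,1),(10,1),(2,1)]) (.cons (.leaf 1 [(11,1),(10,1)]) .nil))))))))))) (.cons (.keep [2,4,6,7,8] (.node (.cons (.keep [2,3,7,10,11] (.node (.cons (.leaf 3 [(7,1),(11,2)]) (.cons (.leaf 2 [(2,1),(11,1)]) (.cons (.leaf 2 [(3,1),(11,1)]) (.cons (.leaf 3 [(7,1),(11,2),(1,1)]) (.cons (.leaf 2 [(11,1)]) (.cons (.leaf 2 [(3,1),(11,1)]) (.cons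 (.leaf 3 [(7,1),(11,2),(1,1)]) (.cons (.leaf 2 [(2,1),(11,1)]) (.cons (.leaf 2 [(11,1)]) .nil))))))))))) (.cons (.leaf 1 [(2,1),(11,1)]) (.cons (.leaf 1 [(3,1),(11,1)]) (.cons (.keep [1,3,7,10,11] (.node (.cons (.leaf 3 [(11,2),(7,1)]) (.cons (.leaf 1 [(2,2),(7,1),(4,1)]) (.cons (.leaf 1 [(3,2),(7,1),(4,1)]) (.cons (.leaf 3 [(11,2),(7,1),(1,1)]) (.cons (.leaf 2 [(11,1),(7,1)]) (.cons (.leaf 2 [(11,1),(7,1),(3,1)]) (.cons (.leaf 3 [(11,2),(7,1),(1,1)]) (.cons (.leaf 2 [(11,1),(7,1),(2,1)]) (.cons (.leaf 2 [(11,1),(7,1)]) .nil))))))))))) (.cons (.leaf 1 [(11,1)]) (.cons (.leaf 1 [(3,1),(11,1)]) (.cons (.keep [1,2,7,10,11] (.node (.cons (.leaf 1 [(2,2),(7,1),(8,1)]) (.cons (.leaf 1 [(2,2),(7,1)]) (.cons (.leaf 1 [(3,1),(7,1),(2,1)]) (.cons (.leaf 2 [(11,1),(7,1),(8,1)]) (.cons (.leaf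 2 [(11,1),(7,1)]) (.cons (.leaf 2 [(11,1),(3,1),(7,1)]) (.cons (.leaf 2 [(11,1),(7,1),(8,1),(2,1)]) (.cons (.leaf 2 [(11,1),(7,1),(2,1)]) (.cons (.leaf 2 [(11,1),(7,1)]) .nil))))))))))) (.cons (.leaf 1 [(2,1),(11,1)]) (.cons (.leaf 1 [(11,1)]) .nil))))))))))) (.cons (.keep [3,5,7,8,9] (.node (.cons (.leaf 1 [(2,1),(10,1),(8,1)]) (.cons (.leaf 1 [(2,1),(10,1)]) (.cons (.leaf 1 [(3,1),(10,1)]) (.cons (.leaf 1 [(10,1),(8,1)]) (.cons (.leaf 1 [(10,1)]) (.cons (.leaf 1 [(3,1),(10,1)]) (.cons (.leaf 1 [(10,1),(8,1),(2,1)]) (.cons (.leaf 1 [(2,1),(10,1)]) (.cons (.leaf 1 [(10,1)]) .nil))))))))))) (.cons (.keep [1,5,6,7,9] (.node (.cons (.leaf 1 [(8,1),(7,1)]) (.cons (.leaf 1 [(2,1),(7,1)]) (.cons (.leaf 1 [(3,1),(7,1)]) (.cons (.leaf 1 [(8,1),(7,1),(1,1)]) (.cons (.leaf 1 [(7,1)]) (.cons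 (.leaf 1 [(3,1),(7,1)]) (.cons (.leaf 1 [(8,1),(7,1),(1,1)]) (.cons (.leaf 1 [(2,1),(7,1)]) (.cons (.leaf 1 [(7,1)]) .nil))))))))))) (.cons (.keep [1,3,4,7] (.node (.cons (.keep [2,3,7,10] (.node (.cons (.leaf 3 [(7,1),(9,2)]) (.cons (.leaf 2 [(2,1),(9,1)]) (.cons (.leaf 2 [(3,1),(9,1)]) (.cons (.leaf 3 [(7,1),(9,2),(1,1)]) (.cons (.leaf 2 [(9,1)]) (.cons (.leaf 2 [(3,1),(9,1)]) (.cons (.leaf 3 [(7,1),(9,2),(1,1)]) (.cons (.leaf 2 [(2,1),(9,1)]) (.cons (.leaf 2 [(9,1)]) .nil))))))))))) (.cons (.leaf 1 [(2,1),(7,1)]) (.cons (.leaf 1 [(3,1),(7,1)]) (.cons (.keep [1,3,7,10] (.node (.cons (.leaf 3 [(9,2),(7,1)]) (.cons (.leaf 1 [(2,2),(7,1),(4,1)]) (.cons (.leaf 1 [(3,2),(7,1),(4,1)]) (.cons (.leaf 3 [(9,2),(7,1),(1,1)]) (.cons (.leaf 2 [(9,1),(7,1)]) (.cons (.leaf 2 [(9,1),(7,1),(3,1)])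 (.cons (.leaf 3 [(9,2),(7,1),(1,1)]) (.cons (.leaf 2 [(9,1),(7,1),(2,1)]) (.cons (.leaf 2 [(9,1),(7,1)]) .nil))))))))))) (.cons (.leaf 1 [(7,1)]) (.cons (.leaf 1 [(3,1),(7,1)]) (.cons (.keep [1,2,7,10] (.node (.cons (.leaf 1 [(2,2),(7,1),(8,1)]) (.cons (.leaf 1 [(2,2),(7,1)]) (.cons (.leaf 1 [(3,1),(7,1),(2,1)]) (.cons (.leaf 2 [(9,1),(7,1),(8,1)]) (.cons (.leaf 2 [(9,1),(7,1)]) (.cons (.leaf 2 [(9,1),(3,1),(7,1)]) (.cons (.leaf 2 [(9,1),(7,1),(8,1),(2,1)]) (.cons (.leaf 2 [(9,1),(7,1),(2,1)]) (.cons (.leaf 2 [(9,1),(7,1)]) .nil))))))))))) (.cons (.leaf 1 [(2,1),(7,1)]) (.cons (.leaf 1 [(7,1)]) .nil))))))))))) (.cons (.keep [1,3,5,7,9] (.node (.cons (.leaf 1 [(2,1),(7,1),(9,1)]) (.cons (.leaf 1 [(2,1),(7,1)]) (.cons (.leaf 1 [(3,1),(7,1)]) (.cons (.leaf 1 [(7,1),(9,1)]) (.cons (.leaf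 1 [(7,1)]) (.cons (.leaf 1 [(3,1),(7,1)]) (.cons (.leaf 1 [(7,1),(9,1),(2,1)]) (.cons (.leaf 1 [(2,1),(7,1)]) (.cons (.leaf 1 [(7,1)]) .nil))))))))))) (.cons (.keep [2,6,7,8,9] (.node (.cons (.leaf 1 [(2,1),(10,1),(7,1)]) (.cons (.leaf 1 [(2,1),(10,1)]) (.cons (.leaf 1 [(3,1),(10,1)]) (.cons (.leaf 1 [(10,1),(7,1)]) (.cons (.leaf 1 [(10,1)]) (.cons (.leaf 1 [(3,1),(10,1)]) (.cons (.leaf 1 [(10,1),(7,1),(2,1)]) (.cons (.leaf 1 [(2,1),(10,1)]) (.cons (.leaf 1 [(10,1)]) .nil))))))))))) (.cons (.keep [2,4,6,7,8] (.node (.cons (.leaf 1 [(2,1),(11,1),(7,1)]) (.cons (.leaf 1 [(2,1),(11,1)]) (.cons (.leaf 1 [(3,1),(11,1)]) (.cons (.leaf 1 [(11,1),(7,1)]) (.cons (.leaf 1 [(11,1)]) (.cons (.leaf 1 [(3,1),(11,1)]) (.cons (.leaf 1 [(11,1),(7,1),(2,1)]) (.cons (.leaf 1 [(2,1),(11,1)]) (.cons (.leaf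 1 [(11,1)]) .nil))))))))))) (.cons (.keep [0,2,8,9] (.node (.cons (.leaf 1 [(2,1),(9,1),(8,1)]) (.cons (.leaf 1 [(2,1),(9,1)]) (.cons (.leaf 1 [(3,1),(9,1)]) (.cons (.leaf 1 [(9,1),(8,1)]) (.cons (.leaf 1 [(9,1)]) (.cons (.leaf 1 [(3,1),(9,1)]) (.cons (.leaf 1 [(9,1),(8,1),(2,1)]) (.cons (.leaf 1 [(2,1),(9,1)]) (.cons (.leaf 1 [(9,1)]) .nil))))))))))) .nil))))))))))

theorem c_26_28_0 : Concl 26 28 z_26_28_0 h_26_28_0 .nd := piece _ hP_nil t_26_28_0 _ _ (by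
  decide +kernel)

def z_26_28_1 : F := ⟨1, -1, 0, 0, 1⟩

def h_26_28_1 : List F := [⟨1, 0, -1, 0, 0⟩, ⟨1, 0, 0, -1, 0⟩, ⟨0, 1, -1, 0, 0⟩, ⟨0, 1, 0, -1, 0⟩,
  ⟨0, -1, 0, 0, 1⟩, ⟨1, -2, 0, 0, 1⟩]

def t_26_28_1 : T := (.node (.cons (.keep [5,6,9,11] (.node (.cons (.keep [5,6,7,9,10] (.node (.cons (.leaf 1 [(7,1)]) (.cons (.leaf 1 [(2,1)]) (.cons (.leaf 1 [(3,1)]) (.cons (.leaf 1 [(7,1),(1,1)]) (.cons (.leaf 1 []) (.cons (.leaf 1 [(3,1)]) (.cons (.leaf 1 [(7,1),(1,1)]) (.cons (.leaf 1 [(2,1)]) (.cons (.leaf 1 []) .nil))))))))))) (.cons (.keep [2,6,7,9,10] (.node (.cons (.keep [2,3,7,9,11] (.node (.cons (.leaf 3 [(7,1),(9,1)]) (.cons (.leaf 3 [(8,1),(9,1)]) (.cons (.leaf 2 [(3,1),(9,1)]) (.cons (.leaf 1 [(1,1),(5,1),(7,1)]) (.cons (.leaf 1 [(8,1),(1,1)]) (.cons (.leaf 1 [(1,1),(8,1)])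 (.cons (.leaf 1 [(1,2),(0,1),(7,1)]) (.cons (.leaf 1 [(1,2),(0,1),(8,1)]) (.cons (.leaf 2 [(9,1)]) .nil))))))))))) (.cons (.leaf 1 [(2,1)]) (.cons (.leaf 1 [(3,1)]) (.cons (.keep [1,3,7,10,11] (.node (.cons (.leaf 3 [(9,1),(7,1)]) (.cons (.leaf 3 [(9,1),(8,1),(7,1)]) (.cons (.leaf 2 [(9,1),(3,1),(7,1)]) (.cons (.leaf 1 [(5,1),(1,1)]) (.cons (.leaf 1 [(8,1),(1,1)]) (.cons (.leaf 1 [(8,1),(1,1)]) (.cons (.leaf 1 [(6,1),(1,1)]) (.cons (.leaf 1 [(0,1),(8,1),(7,1),(1,2)]) (.cons (.leaf 2 [(9,1),(7,1)]) .nil))))))))))) (.cons (.leaf 1 []) (.cons (.leaf 1 [(3,1)]) (.cons (.keep [1,2,7,10,11] (.node (.cons (.leaf 3 [(9,1),(7,1),(8,1)]) (.cons (.leaf 3 [(9,1),(7,1)]) (.cons (.leaf 2 [(9,1),(3,1),(7,1)]) (.cons (.leaf 1 [(1,1)]) (.cons (.leaf 1 [(1,1)]) (.cons (.leaf 1 [(1,1)]) (.cons (.leaf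 1 [(0,1),(7,1),(8,1),(1,2)]) (.cons (.leaf 1 [(6,1),(1,1)]) (.cons (.leaf 2 [(9,1),(7,1)]) .nil))))))))))) (.cons (.leaf 1 [(2,1)]) (.cons (.leaf 1 []) .nil))))))))))) (.cons (.keep [3,5,7,9,10] (.node (.cons (.leaf 1 [(2,1),(8,1)]) (.cons (.leaf 1 [(2,1)]) (.cons (.leaf 1 [(3,1)]) (.cons (.leaf 1 [(8,1)]) (.cons (.leaf 1 []) (.cons (.leaf 1 [(3,1)]) (.cons (.leaf 1 [(2,1),(8,1)]) (.cons (.leaf 1 [(2,1)]) (.cons (.leaf 1 []) .nil))))))))))) (.cons (.keep [1,5,6,7,9] (.node (.cons (.leaf 1 [(8,1)]) (.cons (.leaf 1 [(2,1)]) (.cons (.leaf 1 [(3,1)]) (.cons (.leaf 1 [(8,1),(1,1)]) (.cons (.leaf 1 []) (.cons (.leaf 1 [(3,1)]) (.cons (.leaf 1 [(8,1),(1,1)]) (.cons (.leaf 1 [(2,1)]) (.cons (.leaf 1 []) .nil))))))))))) (.cons (.keep [1,3,7,8,9] (.node (.cons (.keep [2,3,7,10,11] (.node (.cons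 (.leaf 3 [(7,1),(10,1)]) (.cons (.leaf 3 [(8,1),(10,1)]) (.cons (.leaf 2 [(3,1),(10,1)]) (.cons (.leaf 1 [(1,1),(5,1),(7,1)]) (.cons (.leaf 1 [(8,1),(1,1)]) (.cons (.leaf 1 [(1,1),(8,1)]) (.cons (.leaf 1 [(1,2),(0,1),(7,1)]) (.cons (.leaf 1 [(1,2),(0,1),(8,1)]) (.cons (.leaf 2 [(10,1)]) .nil))))))))))) (.cons (.leaf 1 [(2,1)]) (.cons (.leaf 1 [(3,1)]) (.cons (.keep [1,3,5,7,10] (.node (.cons (.leaf 3 [(11,1),(7,1)]) (.cons (.leaf 3 [(11,1),(8,1),(7,1)]) (.cons (.leaf 2 [(11,1),(3,1),(7,1)]) (.cons (.leaf 1 [(5,1),(1,1)]) (.cons (.leaf 1 [(8,1),(1,1)]) (.cons (.leaf 1 [(8,1),(1,1)]) (.cons (.leaf 1 [(6,1),(1,1)]) (.cons (.leaf 1 [(0,1),(8,1),(7,1),(1,2)]) (.cons (.leaf 2 [(11,1),(7,1)]) .nil))))))))))) (.cons (.leaf 1 []) (.cons (.leaf 1 [(3,1)]) (.cons (.keep [1,2,6,7,10] (.node (.cons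 (.leaf 3 [(11,1),(7,1),(8,1)]) (.cons (.leaf 3 [(11,1),(7,1)]) (.cons (.leaf 2 [(11,1),(3,1),(7,1)]) (.cons (.leaf 1 [(1,1)]) (.cons (.leaf 1 [(1,1)]) (.cons (.leaf 1 [(1,1)]) (.cons (.leaf 1 [(0,1),(7,1),(8,1),(1,2)]) (.cons (.leaf 1 [(6,1),(1,1)]) (.cons (.leaf 2 [(11,1),(7,1)]) .nil))))))))))) (.cons (.leaf 1 [(2,1)]) (.cons (.leaf 1 []) .nil))))))))))) (.cons (.keep [1,3,5,7,8,9] (.node (.cons (.leaf 1 [(2,1),(9,1)]) (.cons (.leaf 1 [(2,1)]) (.cons (.leaf 1 [(3,1)]) (.cons (.leaf 1 [(9,1)]) (.cons (.leaf 1 []) (.cons (.leaf 1 [(3,1)]) (.cons (.leaf 1 [(2,1),(9,1)]) (.cons (.leaf 1 [(2,1)]) (.cons (.leaf 1 []) .nil))))))))))) (.cons (.keep [1,6,7,8,9] (.node (.cons (.leaf 1 [(2,1),(10,1),(7,1)]) (.cons (.leaf 1 [(2,1)]) (.cons (.leaf 1 [(3,1)]) (.cons (.leaf 1 [(10,1),(7,1)]) (.cons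 (.leaf 1 []) (.cons (.leaf 1 [(3,1)]) (.cons (.leaf 1 [(10,1),(7,1),(2,1)]) (.cons (.leaf 1 [(2,1)]) (.cons (.leaf 1 []) .nil))))))))))) (.cons (.keep [1,6,7,8,9] (.node (.cons (.leaf 1 [(2,1),(10,1),(7,1)]) (.cons (.leaf 1 [(2,1)]) (.cons (.leaf 1 [(3,1)]) (.cons (.leaf 1 [(10,1),(7,1)]) (.cons (.leaf 1 []) (.cons (.leaf 1 [(3,1)]) (.cons (.leaf 1 [(10,1),(7,1),(2,1)]) (.cons (.leaf 1 [(2,1)]) (.cons (.leaf 1 []) .nil))))))))))) (.cons (.keep [0,1,7,8] (.node (.cons (.leaf 1 [(2,1),(10,1),(8,1)]) (.cons (.leaf 1 [(2,1)]) (.cons (.leaf 1 [(3,1)]) (.cons (.leaf 1 [(10,1),(8,1)]) (.cons (.leaf 1 []) (.cons (.leaf 1 [(3,1)]) (.cons (.leaf 1 [(10,1),(8,1),(2,1)]) (.cons (.leaf 1 [(2,1)]) (.cons (.leaf 1 []) .nil))))))))))) .nil))))))))))) (.cons (.keep [2,4,6,11] (.node (.cons (.keep [2,3,7,8]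 (.node (.cons (.leaf 1 [(7,1),(10,2)]) (.cons (.leaf 1 [(2,1),(10,1)]) (.cons (.leaf 1 [(3,1),(10,1)]) (.cons (.leaf 1 [(7,1),(10,2),(1,1)]) (.cons (.leaf 1 [(10,1)]) (.cons (.leaf 1 [(3,1),(10,1)]) (.cons (.leaf 1 [(7,1),(10,2),(1,1)]) (.cons (.leaf 1 [(2,1),(10,1)]) (.cons (.leaf 1 [(10,1)]) .nil))))))))))) (.cons (.keep [2,4,6,7,9,10] (.node (.cons (.leaf 1 [(11,2),(12,1)]) (.cons (.leaf 1 [(2,2),(12,1),(4,1)]) (.cons (.leaf 1 [(3,2),(12,1),(4,1)]) (.cons (.leaf 1 [(11,2),(12,1),(1,1)]) (.cons (.leaf 1 [(11,1),(12,1)]) (.cons (.leaf 1 [(11,1),(12,1),(3,1)]) (.cons (.leaf 1 [(11,2),(12,1),(1,1)]) (.cons (.leaf 1 [(11,1),(12,1),(2,1)]) (.cons (.leaf 1 [(11,1),(12,1)]) .nil))))))))))) (.cons (.keep [3,4,7,8,9] (.node (.cons (.leaf 1 [(11,1),(10,1)]) (.cons (.leaf 1 [(2,1),(10,1)])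 (.cons (.leaf 1 [(3,1),(10,1)]) (.cons (.leaf 1 [(11,1),(10,1),(1,1)]) (.cons (.leaf 1 [(10,1)]) (.cons (.leaf 1 [(3,1),(10,1)]) (.cons (.leaf 1 [(11,1),(10,1),(1,1)]) (.cons (.leaf 1 [(2,1),(10,1)]) (.cons (.leaf 1 [(10,1)]) .nil))))))))))) (.cons (.keep [1,3,5,7] (.node (.cons (.leaf 1 [(9,2),(7,1)]) (.cons (.leaf 1 [(2,2),(7,1),(4,1)]) (.cons (.leaf 1 [(3,2),(7,1),(4,1)]) (.cons (.leaf 1 [(9,2),(7,1),(1,1)]) (.cons (.leaf 1 [(9,1),(7,1)]) (.cons (.leaf 1 [(9,1),(7,1),(3,1)]) (.cons (.leaf 1 [(9,2),(7,1),(1,1)]) (.cons (.leaf 1 [(9,1),(7,1),(2,1)]) (.cons (.leaf 1 [(9,1),(7,1)]) .nil))))))))))) (.cons (.keep [3,4,7,8,9] (.node (.cons (.leaf 1 [(11,1),(10,1)]) (.cons (.leaf 1 [(2,1),(10,1)]) (.cons (.leaf 1 [(3,1),(10,1)]) (.cons (.leaf 1 [(11,1),(10,1),(1,1)]) (.cons (.leaf 1 [(10,1)])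 (.cons (.leaf 1 [(3,1),(10,1)]) (.cons (.leaf 1 [(11,1),(10,1),(1,1)]) (.cons (.leaf 1 [(2,1),(10,1)]) (.cons (.leaf 1 [(10,1)]) .nil))))))))))) (.cons (.keep [3,4,7,8,9] (.node (.cons (.leaf 1 [(11,1),(10,1)]) (.cons (.leaf 1 [(2,1),(10,1)]) (.cons (.leaf 1 [(3,1),(10,1)]) (.cons (.leaf 1 [(11,1),(10,1),(1,1)]) (.cons (.leaf 1 [(10,1)]) (.cons (.leaf 1 [(3,1),(10,1)]) (.cons (.leaf 1 [(11,1),(10,1),(1,1)]) (.cons (.leaf 1 [(2,1),(10,1)]) (.cons (.leaf 1 [(10,1)]) .nil))))))))))) (.cons (.keep [1,2,6,7] (.node (.cons (.leaf 1 [(2,2),(7,1),(8,1)]) (.cons (.leaf 1 [(2,2),(7,1)]) (.cons (.leaf 1 [(3,1),(7,1),(2,1)]) (.cons (.leaf 1 [(9,1),(7,1),(8,1)]) (.cons (.leaf 1 [(9,1),(7,1)]) (.cons (.leaf 1 [(9,1),(3,1),(7,1)]) (.cons (.leaf 1 [(9,1),(7,1),(8,1),(2,1)]) (.cons (.leaf 1 [(9,1),(7,1),(2,1)])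 (.cons (.leaf 1 [(9,1),(7,1)]) .nil))))))))))) (.cons (.keep [2,4,6,7,8,9] (.node (.cons (.leaf 1 [(2,1),(11,1),(7,1)]) (.cons (.leaf 1 [(2,1),(11,1)]) (.cons (.leaf 1 [(3,1),(11,1)]) (.cons (.leaf 1 [(7,1),(11,1)]) (.cons (.leaf 1 [(11,1)]) (.cons (.leaf 1 [(3,1),(11,1)]) (.cons (.leaf 1 [(2,1),(11,1),(7,1)]) (.cons (.leaf 1 [(2,1),(11,1)]) (.cons (.leaf 1 [(11,1)]) .nil))))))))))) (.cons (.keep [0,4,8,9] (.node (.cons (.leaf 1 [(10,1),(9,1)]) (.cons (.leaf 1 [(2,1),(9,1)]) (.cons (.leaf 1 [(3,1),(9,1)]) (.cons (.leaf 1 [(10,1),(9,1),(1,1)]) (.cons (.leaf 1 [(9,1)]) (.cons (.leaf 1 [(3,1),(9,1)]) (.cons (.leaf 1 [(10,1),(9,1),(1,1)]) (.cons (.leaf 1 [(2,1),(9,1)]) (.cons (.leaf 1 [(9,1)]) .nil))))))))))) .nil))))))))))) (.cons (.keep [3,4,5,11] (.leaf 0 [(0,0)])) (.cons (.keep [1,5,6,9,12]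 (.node (.cons (.leaf 1 [(8,2)]) (.cons (.leaf 1 [(4,1),(2,2)]) (.cons (.leaf 1 [(4,1),(3,2)]) (.cons (.leaf 1 [(8,2),(1,1)]) (.cons (.leaf 1 [(8,1)]) (.cons (.leaf 1 [(8,1),(3,1)]) (.cons (.leaf 1 [(8,2),(1,1)]) (.cons (.leaf 1 [(8,1),(2,1)]) (.cons (.leaf 1 [(8,1)]) .nil))))))))))) (.cons (.keep [1,3,9,10,11] (.node (.cons (.keep [2,3,7,10,11] (.node (.cons (.leaf 3 [(7,1),(10,1)]) (.cons (.leaf 3 [(8,1),(10,1)]) (.cons (.leaf 2 [(3,1),(10,1)]) (.cons (.leaf 1 [(1,1),(5,1),(7,1)]) (.cons (.leaf 1 [(8,1),(1,1)]) (.cons (.leaf 1 [(1,1),(8,1)]) (.cons (.leaf 1 [(1,2),(0,1),(7,1)]) (.cons (.leaf 1 [(1,2),(0,1),(8,1)]) (.cons (.leaf 2 [(10,1)]) .nil))))))))))) (.cons (.leaf 1 [(2,1)]) (.cons (.leaf 1 [(3,1)]) (.cons (.keep [1,3,5,7,10] (.node (.cons (.leaf 3 [(11,1),(7,1)]) (.cons (.leaf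 3 [(11,1),(8,1),(7,1)]) (.cons (.leaf 2 [(11,1),(3,1),(7,1)]) (.cons (.leaf 1 [(5,1),(1,1)]) (.cons (.leaf 1 [(8,1),(1,1)]) (.cons (.leaf 1 [(8,1),(1,1)]) (.cons (.leaf 1 [(6,1),(1,1)]) (.cons (.leaf 1 [(0,1),(8,1),(7,1),(1,2)]) (.cons (.leaf 2 [(11,1),(7,1)]) .nil))))))))))) (.cons (.leaf 1 []) (.cons (.leaf 1 [(3,1)]) (.cons (.keep [1,2,6,7,10] (.node (.cons (.leaf 3 [(11,1),(7,1),(8,1)]) (.cons (.leaf 3 [(11,1),(7,1)]) (.cons (.leaf 2 [(11,1),(3,1),(7,1)]) (.cons (.leaf 1 [(1,1)]) (.cons (.leaf 1 [(1,1)]) (.cons (.leaf 1 [(1,1)]) (.cons (.leaf 1 [(0,1),(7,1),(8,1),(1,2)]) (.cons (.leaf 1 [(6,1),(1,1)]) (.cons (.leaf 2 [(11,1),(7,1)]) .nil))))))))))) (.cons (.leaf 1 [(2,1)]) (.cons (.leaf 1 []) .nil))))))))))) (.cons (.keep [1,3,5,9,10,12] (.node (.cons (.leaf 1 [(2,1),(9,2)]) (.cons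 (.leaf 1 [(2,1),(4,1)]) (.cons (.leaf 1 [(3,1),(9,1)]) (.cons (.leaf 1 [(9,2)]) (.cons (.leaf 1 [(4,1)]) (.cons (.leaf 1 [(4,1),(3,2)]) (.cons (.leaf 1 [(2,1),(9,2)]) (.cons (.leaf 1 [(2,1),(4,1)]) (.cons (.leaf 1 [(9,1)]) .nil))))))))))) (.cons (.keep [1,6,9,10,12] (.node (.cons (.leaf 1 [(7,1),(10,1),(2,2)]) (.cons (.leaf 1 [(2,2)]) (.cons (.leaf 1 [(3,1),(2,1)]) (.cons (.leaf 1 [(7,1),(8,1),(10,1)]) (.cons (.leaf 1 [(8,1)]) (.cons (.leaf 1 [(8,1),(3,1)]) (.cons (.leaf 1 [(7,1),(10,1),(8,2),(1,1)]) (.cons (.leaf 1 [(8,1),(2,1)]) (.cons (.leaf 1 [(8,1)]) .nil))))))))))) (.cons (.keep [1,6,9,10,12] (.node (.cons (.leaf 1 [(2,1)]) (.cons (.leaf 1 [(2,1),(8,1)]) (.cons (.leaf 1 [(3,1),(8,1)]) (.cons (.leaf 1 []) (.cons (.leaf 1 [(8,1)]) (.cons (.leaf 1 [(8,1),(3,1)]) (.cons (.leaf 1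 [(2,1)]) (.cons (.leaf 1 [(8,1),(2,1)]) (.cons (.leaf 1 [(8,1)]) .nil))))))))))) (.cons (.keep [0,1,9,10] (.node (.cons (.leaf 1 [(2,1),(10,1),(8,1)]) (.cons (.leaf 1 [(2,1)]) (.cons (.leaf 1 [(3,1)]) (.cons (.leaf 1 [(10,1),(8,1)]) (.cons (.leaf 1 []) (.cons (.leaf 1 [(3,1)]) (.cons (.leaf 1 [(10,1),(8,1),(2,1)]) (.cons (.leaf 1 [(2,1)]) (.cons (.leaf 1 []) .nil))))))))))) .nil))))))))))

theorem c_26_28_1 : Concl 26 28 z_26_28_1 h_26_28_1 .nd := piece _ (hP_cons c_26_28_0 hP_nil)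
  t_26_28_1 _ _ (by decide +kernel)

def t_26_28 : T := (.keep [0,1,2] (.node (.cons (.keep [2,3,5,6,7,8] (.leaf 0 [(0,0)])) (.cons (.keep [2,4,6,7] (.node (.cons (.keep [2,3,7,8] (.node (.cons (.leaf 1 [(7,1),(10,3)]) (.cons (.leaf 1 [(2,1),(10,2)]) (.cons (.leaf 1 [(3,1),(10,2)]) (.cons (.leaf 1 [(1,1),(10,3),(7,1)]) (.cons (.leaf 1 [(10,2)]) (.cons (.leaf 1 [(3,1),(10,2)]) (.cons (.leaf 1 [(1,1),(10,3),(7,1)]) (.cons (.leaf 1 [(1,1),(10,3),(8,1)]) (.cons (.leaf 1 [(10,2)]) .nil))))))))))) (.cons (.keep [2,4,6,8,10] (.node (.cons (.leaf 1 [(10,2)]) (.cons (.leaf 1 [(2,1),(8,1),(10,2)]) (.cons (.leaf 1 [(3,1),(8,1),(10,2)]) (.cons (.leaf 1 [(1,1),(10,2)]) (.cons (.leaf 1 [(10,2),(8,1)]) (.cons (.leaf 1 [(3,1),(8,1),(10,2)]) (.cons (.leaf 1 [(1,1),(10,2)]) (.cons (.leaf 1 [(1,1),(10,2),(9,1)])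 (.cons (.leaf 1 [(10,2),(8,1)]) .nil))))))))))) (.cons (.keep [3,4,8,9,10] (.node (.cons (.leaf 1 [(10,1),(9,2),(8,1)]) (.cons (.leaf 1 [(9,2)]) (.cons (.leaf 1 [(3,1),(8,1),(9,2)]) (.cons (.leaf 1 [(9,2),(1,2),(10,1)]) (.cons (.leaf 1 [(9,2),(1,1)]) (.cons (.leaf 1 [(9,2),(3,1),(1,1)]) (.cons (.leaf 1 [(10,1),(9,2),(1,1),(8,1)]) (.cons (.leaf 1 [(1,1),(9,2)]) (.cons (.leaf 1 [(9,2),(8,1)]) .nil))))))))))) (.cons (.keep [1,3,5,7] (.node (.cons (.leaf 1 [(7,1),(9,3)]) (.cons (.leaf 1 [(7,1),(2,3),(4,2)]) (.cons (.leaf 1 [(7,1),(3,3),(4,2)]) (.cons (.leaf 1 [(7,1),(9,3),(1,1)]) (.cons (.leaf 1 [(7,1),(9,2)]) (.cons (.leaf 1 [(7,1),(9,2),(3,1)]) (.cons (.leaf 1 [(7,1),(9,3),(1,1)]) (.cons (.leaf 1 [(7,1),(9,2),(2,1)]) (.cons (.leaf 1 [(7,1),(9,2)]) .nil))))))))))) (.cons (.keep [3,4,7,8,9]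 (.node (.cons (.leaf 1 [(11,1),(10,1)]) (.cons (.leaf 1 [(2,1),(10,1)]) (.cons (.leaf 1 [(3,1),(10,1)]) (.cons (.leaf 1 [(11,1),(10,1),(1,1)]) (.cons (.leaf 1 [(10,1)]) (.cons (.leaf 1 [(3,1),(10,1)]) (.cons (.leaf 1 [(11,1),(10,1),(1,1)]) (.cons (.leaf 1 [(2,1),(10,1)]) (.cons (.leaf 1 [(10,1)]) .nil))))))))))) (.cons (.keep [3,4,8,9,10] (.node (.cons (.leaf 1 [(10,2),(8,1),(9,1)]) (.cons (.leaf 1 [(2,1),(4,1),(9,1)]) (.cons (.leaf 1 [(3,2),(8,1),(9,1),(4,1)]) (.cons (.leaf 1 [(10,2),(1,2),(9,1)]) (.cons (.leaf 1 [(9,1),(4,1)]) (.cons (.leaf 1 [(9,1),(3,2),(4,1)]) (.cons (.leaf 1 [(10,2),(1,1),(8,1),(9,1)]) (.cons (.leaf 1 [(2,1),(4,1),(9,1)]) (.cons (.leaf 1 [(9,1),(10,1),(8,1)]) .nil))))))))))) (.cons (.keep [1,2,6,7] (.node (.cons (.leaf 1 [(8,1),(7,1),(2,3)]) (.cons (.leaf 1 [(7,1),(2,3)])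 (.cons (.leaf 1 [(3,1),(2,2),(7,1)]) (.cons (.leaf 1 [(8,1),(7,1),(9,2)]) (.cons (.leaf 1 [(7,1),(9,2)]) (.cons (.leaf 1 [(3,1),(9,2),(7,1)]) (.cons (.leaf 1 [(8,1),(7,1),(9,2),(2,1)]) (.cons (.leaf 1 [(7,1),(9,2),(2,1)]) (.cons (.leaf 1 [(7,1),(9,2)]) .nil))))))))))) (.cons (.keep [2,4,6,8,9,10] (.node (.cons (.leaf 1 [(2,1),(10,1)]) (.cons (.leaf 1 [(2,2),(10,1),(8,1)]) (.cons (.leaf 1 [(2,1),(3,1),(8,1),(10,1)]) (.cons (.leaf 1 [(10,1)]) (.cons (.leaf 1 [(10,1),(9,1)]) (.cons (.leaf 1 [(3,1),(9,1),(10,1)]) (.cons (.leaf 1 [(10,1),(2,1)]) (.cons (.leaf 1 [(10,1),(9,1),(2,1)]) (.cons (.leaf 1 [(10,1),(9,1)]) .nil))))))))))) (.cons (.keep [0,4,8,9] (.node (.cons (.leaf 1 [(10,1),(9,1)]) (.cons (.leaf 1 [(2,1),(9,1)]) (.cons (.leaf 1 [(3,1),(9,1)]) (.cons (.leaf 1 [(10,1),(9,1),(1,1)])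 (.cons (.leaf 1 [(9,1)]) (.cons (.leaf 1 [(3,1),(9,1)]) (.cons (.leaf 1 [(10,1),(9,1),(1,1)]) (.cons (.leaf 1 [(2,1),(9,1)]) (.cons (.leaf 1 [(9,1)]) .nil))))))))))) .nil))))))))))) (.cons (.keep [3,4,5,7] (.node (.cons (.keep [2,5,6,8,9,10] (.node (.cons (.leaf 1 [(8,2),(10,2)]) (.cons (.leaf 1 [(2,2),(10,2),(4,1)]) (.cons (.leaf 1 [(3,2),(10,2),(4,1)]) (.cons (.leaf 1 [(8,2),(1,1),(10,2)]) (.cons (.leaf 1 [(8,1),(10,2)]) (.cons (.leaf 1 [(8,1),(3,1),(10,2)]) (.cons (.leaf 1 [(8,2),(1,1),(10,2)]) (.cons (.leaf 1 [(4,1),(1,1),(10,2),(9,2)]) (.cons (.leaf 1 [(8,1),(10,2)]) .nil))))))))))) (.cons (.keep [2,4,6,8,10] (.node (.cons (.keep [2,3,7,10,11] (.node (.cons (.leaf 3 [(7,1),(10,5)]) (.cons (.leaf 2 [(2,1),(10,3)]) (.cons (.leaf 2 [(3,1),(10,3)]) (.cons (.leaf 3 [(1,1),(10,5),(7,1)])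 (.cons (.leaf 2 [(10,3)]) (.cons (.leaf 2 [(3,1),(10,3)]) (.cons (.leaf 3 [(1,1),(10,5),(7,1)]) (.cons (.leaf 3 [(1,1),(10,5),(8,1)]) (.cons (.leaf 2 [(10,3)]) .nil))))))))))) (.cons (.leaf 1 [(10,2),(2,1)]) (.cons (.leaf 1 [(10,2),(3,1)]) (.cons (.keep [1,3,7,10,11] (.node (.cons (.leaf 3 [(7,1),(10,5)]) (.cons (.leaf 1 [(7,2),(2,5),(4,3)]) (.cons (.leaf 1 [(7,2),(3,5),(4,3)]) (.cons (.leaf 1 [(5,1),(10,2),(1,1)]) (.cons (.leaf 2 [(7,1),(10,3)]) (.cons (.leaf 2 [(3,1),(10,3),(7,1)]) (.cons (.leaf 1 [(6,1),(10,2),(1,1)]) (.cons (.leaf 2 [(2,1),(10,3),(7,1)]) (.cons (.leaf 2 [(7,1),(10,3)]) .nil))))))))))) (.cons (.leaf 1 [(10,2)]) (.cons (.leaf 1 [(3,1),(10,2)]) (.cons (.keep [1,2,6,7,10] (.node (.cons (.leaf 1 [(8,2),(7,2),(2,5)]) (.cons (.leaf 1 [(7,2),(2,5)]) (.cons (.leaf 1 [(3,2),(2,3),(7,2)])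 (.cons (.leaf 1 [(8,2),(7,2),(9,3)]) (.cons (.leaf 1 [(7,2),(9,3)]) (.cons (.leaf 1 [(3,2),(9,3),(7,2)]) (.cons (.leaf 1 [(8,2),(7,2),(9,3),(2,2)]) (.cons (.leaf 1 [(7,2),(9,3),(2,2)]) (.cons (.leaf 1 [(7,2),(9,3)]) .nil))))))))))) (.cons (.leaf 1 [(2,1),(10,2)]) (.cons (.leaf 1 [(10,2)]) .nil))))))))))) (.cons (.keep [3,5,8,9,10] (.node (.cons (.leaf 1 [(9,2),(2,1),(8,2)]) (.cons (.leaf 1 [(9,2),(2,1),(4,1)]) (.cons (.leaf 1 [(9,2),(3,1),(8,1)]) (.cons (.leaf 1 [(9,2),(8,2)]) (.cons (.leaf 1 [(9,2),(4,1)]) (.cons (.leaf 1 [(9,2),(3,2),(4,1)]) (.cons (.leaf 1 [(2,1),(8,2),(9,2)]) (.cons (.leaf 1 [(2,1),(4,1),(9,2)]) (.cons (.leaf 1 [(9,2),(8,1)]) .nil))))))))))) (.cons (.keep [1,5,6,9,10] (.node (.cons (.leaf 1 [(8,2),(7,1)]) (.cons (.leaf 1 [(2,2),(7,1),(4,1)]) (.cons (.leaf 1 [(3,2),(7,1),(4,1)])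 (.cons (.leaf 1 [(8,2),(7,1),(1,1)]) (.cons (.leaf 1 [(8,1),(7,1)]) (.cons (.leaf 1 [(8,1),(7,1),(3,1)]) (.cons (.leaf 1 [(8,2),(7,1),(1,1)]) (.cons (.leaf 1 [(8,1),(7,1),(2,1)]) (.cons (.leaf 1 [(8,1),(7,1)]) .nil))))))))))) (.cons (.keep [1,3,4,7] (.node (.cons (.keep [2,3,7,10] (.node (.cons (.leaf 3 [(7,1),(9,2)]) (.cons (.leaf 2 [(2,1),(9,1)]) (.cons (.leaf 2 [(3,1),(9,1)]) (.cons (.leaf 3 [(7,1),(9,2),(1,1)]) (.cons (.leaf 2 [(9,1)]) (.cons (.leaf 2 [(3,1),(9,1)]) (.cons (.leaf 3 [(7,1),(9,2),(1,1)]) (.cons (.leaf 2 [(2,1),(9,1)]) (.cons (.leaf 2 [(9,1)]) .nil))))))))))) (.cons (.leaf 1 [(2,1),(7,1)]) (.cons (.leaf 1 [(3,1),(7,1)]) (.cons (.keep [1,3,7,10] (.node (.cons (.leaf 3 [(9,2),(7,1)]) (.cons (.leaf 1 [(2,2),(7,1),(4,1)]) (.cons (.leaf 1 [(3,2),(7,1),(4,1)]) (.cons (.leaf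 3 [(9,2),(7,1),(1,1)]) (.cons (.leaf 2 [(9,1),(7,1)]) (.cons (.leaf 2 [(9,1),(7,1),(3,1)]) (.cons (.leaf 3 [(9,2),(7,1),(1,1)]) (.cons (.leaf 2 [(9,1),(7,1),(2,1)]) (.cons (.leaf 2 [(9,1),(7,1)]) .nil))))))))))) (.cons (.leaf 1 [(7,1)]) (.cons (.leaf 1 [(3,1),(7,1)]) (.cons (.keep [1,2,7,10] (.node (.cons (.leaf 1 [(2,2),(7,1),(8,1)]) (.cons (.leaf 1 [(2,2),(7,1)]) (.cons (.leaf 1 [(3,1),(7,1),(2,1)]) (.cons (.leaf 2 [(9,1),(7,1),(8,1)]) (.cons (.leaf 2 [(9,1),(7,1)]) (.cons (.leaf 2 [(9,1),(3,1),(7,1)]) (.cons (.leaf 2 [(9,1),(7,1),(8,1),(2,1)]) (.cons (.leaf 2 [(9,1),(7,1),(2,1)]) (.cons (.leaf 2 [(9,1),(7,1)]) .nil))))))))))) (.cons (.leaf 1 [(2,1),(7,1)]) (.cons (.leaf 1 [(7,1)]) .nil))))))))))) (.cons (.keep [1,3,5,9,10] (.node (.cons (.leaf 1 [(2,1),(7,1),(9,2)]) (.cons (.leaf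 1 [(2,1),(7,1),(4,1)]) (.cons (.leaf 1 [(3,1),(7,1),(9,1)]) (.cons (.leaf 1 [(7,1),(9,2)]) (.cons (.leaf 1 [(7,1),(4,1)]) (.cons (.leaf 1 [(7,1),(3,2),(4,1)]) (.cons (.leaf 1 [(7,1),(9,2),(2,1)]) (.cons (.leaf 1 [(7,1),(4,1),(2,1)]) (.cons (.leaf 1 [(7,1),(9,1)]) .nil))))))))))) (.cons (.keep [2,6,8,9,10] (.node (.cons (.leaf 1 [(2,2),(7,1),(9,1)]) (.cons (.leaf 1 [(2,2),(9,1)]) (.cons (.leaf 1 [(2,1),(3,1),(9,1)]) (.cons (.leaf 1 [(7,1),(9,1),(8,1)]) (.cons (.leaf 1 [(8,1),(9,1)]) (.cons (.leaf 1 [(8,1),(3,1),(9,1)]) (.cons (.leaf 1 [(7,1),(9,1),(8,1),(2,1)]) (.cons (.leaf 1 [(8,1),(9,1),(2,1)]) (.cons (.leaf 1 [(8,1),(9,1)]) .nil))))))))))) (.cons (.keep [2,4,6,7,8] (.node (.cons (.leaf 1 [(2,1),(11,1)]) (.cons (.leaf 1 [(2,2),(11,1),(8,1)]) (.cons (.leaf 1 [(2,1),(3,1),(8,1),(11,1)])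 (.cons (.leaf 1 [(11,1)]) (.cons (.leaf 1 [(11,1),(9,1)]) (.cons (.leaf 1 [(3,1),(9,1),(11,1)]) (.cons (.leaf 1 [(11,1),(2,1)]) (.cons (.leaf 1 [(11,1),(9,1),(2,1)]) (.cons (.leaf 1 [(11,1),(9,1)]) .nil))))))))))) (.cons (.keep [0,2,8,9] (.node (.cons (.leaf 1 [(2,1),(9,1),(8,1)]) (.cons (.leaf 1 [(2,1),(9,1)]) (.cons (.leaf 1 [(3,1),(9,1)]) (.cons (.leaf 1 [(9,1),(8,1)]) (.cons (.leaf 1 [(9,1)]) (.cons (.leaf 1 [(3,1),(9,1)]) (.cons (.leaf 1 [(9,1),(8,1),(2,1)]) (.cons (.leaf 1 [(2,1),(9,1)]) (.cons (.leaf 1 [(9,1)]) .nil))))))))))) .nil))))))))))) (.cons (.leaf 1 [(5,1)]) (.cons (.leaf 1 []) (.cons (.leaf 1 [(5,1)]) (.cons (.leaf 1 [(6,1)]) (.cons (.leaf 1 [(6,1)]) (.cons (.leaf 1 []) .nil)))))))))))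

theorem e_26_28 : ESB (caseOf 4 26 28) := esb_of_pieces _ (hP_cons c_26_28_1 hP_nil) t_26_28 (by
  decide +kernel)

def t_26_29 : T := (.keep [0,1,2] (.node (.cons (.keep [0,2,5,6,7,9] (.node (.cons (.leaf 1 [(10,1)]) (.cons (.leaf 1 [(10,1),(4,1)]) (.cons (.leaf 1 [(10,1),(4,1)]) (.cons (.leaf 1 [(10,1),(4,1)]) (.cons (.leaf 1 [(6,1)]) (.cons (.leaf 1 [(6,1)]) (.cons (.leaf 1 []) (.cons (.leaf 1 [(6,1)]) (.cons (.leaf 1 [(7,1)]) (.cons (.leaf 1 [(7,1)]) (.cons (.leaf 1 [(7,1)]) (.cons (.leaf 1 []) .nil)))))))))))))) (.cons (.keep [4,6,7,8,9] (.node (.cons (.leaf 1 []) (.cons (.leaf 1 [(4,1)]) (.cons (.leaf 1 [(4,1)]) (.cons (.leaf 1 [(4,1)]) (.cons (.leaf 1 [(8,1),(6,1)]) (.cons (.leaf 1 [(8,1),(6,1)]) (.cons (.leaf 1 [(8,1)]) (.cons (.leaf 1 [(8,1),(6,1)]) (.cons (.leaf 1 [(8,1),(7,1)])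 (.cons (.leaf 1 [(8,1),(7,1)]) (.cons (.leaf 1 [(8,1),(7,1)]) (.cons (.leaf 1 [(8,1)]) .nil)))))))))))))) (.cons (.keep [4,5,7,8,10] (.node (.cons (.leaf 1 [(9,1)]) (.cons (.leaf 1 [(9,1),(4,1)]) (.cons (.leaf 1 [(9,1),(4,1)]) (.cons (.leaf 1 [(9,1),(4,1)]) (.cons (.leaf 1 [(8,1),(6,1)]) (.cons (.leaf 1 [(4,1),(6,1)]) (.cons (.leaf 1 [(8,1)]) (.cons (.leaf 1 [(8,1),(6,1)]) (.cons (.leaf 1 [(8,1),(7,1)]) (.cons (.leaf 1 [(4,1),(7,1)]) (.cons (.leaf 1 [(8,1),(7,1)]) (.cons (.leaf 1 [(8,1)]) .nil)))))))))))))) (.cons (.keep [3,4,5,6,8] (.node (.cons (.leaf 1 [(10,1)]) (.cons (.leaf 1 [(4,1),(10,1)]) (.cons (.leaf 1 [(10,1),(4,1)]) (.cons (.leaf 1 [(10,1),(4,1)]) (.cons (.leaf 1 []) (.cons (.leaf 1 [(4,1)]) (.cons (.leaf 1 [(4,1)]) (.cons (.leaf 1 [(4,1)]) (.cons (.leaf 1 [(9,1),(7,1)])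 (.cons (.leaf 1 [(7,1),(9,1)]) (.cons (.leaf 1 [(4,1),(7,1)]) (.cons (.leaf 1 [(9,1)]) .nil)))))))))))))) (.cons (.leaf 1 [(6,1)]) (.cons (.leaf 1 [(6,1)]) (.cons (.leaf 1 []) (.cons (.leaf 1 [(6,1)]) (.cons (.leaf 1 [(7,1)]) (.cons (.leaf 1 [(7,1)]) (.cons (.leaf 1 [(7,1)]) (.cons (.leaf 1 []) .nil))))))))))))))

theorem e_26_29 : ESB (caseOf 4 26 29) := esb_of_ok (t := t_26_29) (by decide +kernel)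

def t_26_30 : T := (.keep [0,1,2] (.node (.cons (.leaf 1 []) (.cons (.leaf 1 [(4,1)]) (.cons (.leaf 1 [(4,1)]) (.cons (.leaf 1 [(4,1)]) (.cons (.leaf 1 [(6,1)]) (.cons (.leaf 1 [(6,1)]) (.cons (.leaf 1 []) (.cons (.leaf 1 [(6,1)]) (.cons (.leaf 1 [(7,1)]) (.cons (.leaf 1 [(7,1)]) (.cons (.leaf 1 [(7,1)]) (.cons (.leaf 1 []) .nil))))))))))))))

theorem e_26_30 : ESB (caseOf 4 26 30) := esb_of_ok (t := t_26_30) (by decide +kernel)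

def t_26_31 : T := (.keep [0,1,2] (.node (.cons (.leaf 1 [(5,1)]) (.cons (.leaf 1 []) (.cons (.leaf 1 [(5,1)]) (.cons (.leaf 1 [(5,1)]) (.cons (.leaf 1 [(5,1)]) (.cons (.leaf 1 [(7,1)]) (.cons (.leaf 1 [(7,1)]) (.cons (.leaf 1 [(7,1)]) (.cons (.leaf 1 []) (.cons (.leaf 1 [(7,1)]) (.cons (.leaf 1 [(8,1)]) (.cons (.leaf 1 [(8,1)]) (.cons (.leaf 1 [(8,1)]) (.cons (.leaf 1 [(8,1)]) (.cons (.leaf 1 []) .nil)))))))))))))))))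

theorem e_26_31 : ESB (caseOf 4 26 31) := esb_of_ok (t := t_26_31) (by decide +kernel)

def t_27_25 : T := (.keep [0,1,2] (.node (.cons (.leaf 1 []) (.cons (.leaf 1 [(5,1)]) (.cons (.leaf 1 [(5,1)]) (.cons (.keep [1,6,7,9] (.node (.cons (.leaf 1 []) (.cons (.leaf 1 [(5,1)]) (.cons (.leaf 1 [(5,1)]) (.cons (.keep [1,6,7,9] (.node (.cons (.leaf 1 []) (.cons (.leaf 1 [(5,1)]) (.cons (.leaf 1 [(5,1)]) (.cons (.leaf 1 [(11,1)]) (.cons (.leaf 1 [(11,1),(5,1)]) (.cons (.leaf 1 [(11,1),(5,1)]) (.cons (.leaf 1 [(6,1)]) (.cons (.leaf 1 []) (.cons (.leaf 1 [(6,1)]) (.cons (.leaf 1 [(7,1)]) (.cons (.leaf 1 [(7,1)]) (.cons (.leaf 1 []) .nil)))))))))))))) (.cons (.keep [3,5,7,9,10] (.node (.cons (.leaf 1 [(9,1)]) (.cons (.leaf 1 [(9,1),(5,1)]) (.cons (.leaf 1 [(9,1),(5,1)]) (.cons (.leaf 1 [(11,1),(9,1)])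 (.cons (.leaf 1 [(11,1),(9,1),(5,1)]) (.cons (.leaf 1 [(11,1),(9,1),(5,1)]) (.cons (.leaf 1 [(9,1),(6,1)]) (.cons (.leaf 1 [(9,1)]) (.cons (.leaf 1 [(9,1),(6,1)]) (.cons (.leaf 1 [(9,1),(7,1)]) (.cons (.leaf 1 [(9,1),(7,1)]) (.cons (.leaf 1 [(9,1)]) .nil)))))))))))))) (.cons (.keep [4,5,9,10,11] (.node (.cons (.leaf 1 [(9,1)]) (.cons (.leaf 1 [(5,2)]) (.cons (.leaf 1 [(9,1),(5,1)]) (.cons (.leaf 1 [(10,1),(9,1)]) (.cons (.leaf 1 [(10,1),(5,2)]) (.cons (.leaf 1 [(10,1),(9,1),(5,1)]) (.cons (.leaf 1 []) (.cons (.leaf 1 [(1,1)]) (.cons (.leaf 1 [(5,1)]) (.cons (.leaf 1 [(9,1),(7,1)]) (.cons (.leaf 1 [(5,1),(7,1)]) (.cons (.leaf 1 [(9,1)]) .nil)))))))))))))) (.cons (.leaf 1 [(6,1)]) (.cons (.leaf 1 []) (.cons (.leaf 1 [(6,1)]) (.cons (.leaf 1 [(7,1)]) (.cons (.leaf 1 [(7,1)]) (.cons (.leaf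 1 []) .nil)))))))))))))) (.cons (.keep [5,7,8,9,10] (.node (.cons (.leaf 1 [(8,1)]) (.cons (.leaf 1 [(8,1),(5,1)]) (.cons (.leaf 1 [(8,1),(5,1)]) (.cons (.keep [7,8,9,10,12] (.node (.cons (.leaf 1 [(9,1)]) (.cons (.leaf 1 [(9,1),(5,1)]) (.cons (.leaf 1 [(9,1),(5,1)]) (.cons (.leaf 1 []) (.cons (.leaf 1 [(5,1)]) (.cons (.leaf 1 [(5,1)]) (.cons (.leaf 1 [(9,1),(6,1)]) (.cons (.leaf 1 [(9,1)]) (.cons (.leaf 1 [(9,1),(6,1)]) (.cons (.leaf 1 [(9,1),(7,1)]) (.cons (.leaf 1 [(9,1),(7,1)]) (.cons (.leaf 1 [(9,1)]) .nil)))))))))))))) (.cons (.keep [5,7,9,11,12] (.node (.cons (.leaf 1 [(10,1),(8,2)]) (.cons (.leaf 1 [(10,1),(8,2),(5,1)]) (.cons (.leaf 1 [(10,1),(8,2),(5,1)]) (.cons (.leaf 1 [(8,1)]) (.cons (.leaf 1 [(8,1),(5,1)]) (.cons (.leaf 1 [(8,1),(5,1)]) (.cons (.leaf 1 [(10,1),(8,2),(6,1)])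 (.cons (.leaf 1 [(10,1),(8,2)]) (.cons (.leaf 1 [(10,1),(8,2),(6,1)]) (.cons (.leaf 1 [(10,1),(8,2),(7,1)]) (.cons (.leaf 1 [(10,1),(8,2),(7,1)]) (.cons (.leaf 1 [(10,1),(8,2)]) .nil)))))))))))))) (.cons (.keep [5,8,9,11,12] (.node (.cons (.leaf 1 [(9,1),(8,1)]) (.cons (.leaf 1 [(9,1),(5,2)]) (.cons (.leaf 1 [(9,1),(8,1),(5,1)]) (.cons (.leaf 1 [(8,1)]) (.cons (.leaf 1 [(5,2)]) (.cons (.leaf 1 [(8,1),(5,1)]) (.cons (.leaf 1 [(9,1)]) (.cons (.leaf 1 [(9,1),(1,1)]) (.cons (.leaf 1 [(9,1),(5,1)]) (.cons (.leaf 1 [(9,1),(8,1),(7,1)]) (.cons (.leaf 1 [(9,1),(5,1),(7,1)]) (.cons (.leaf 1 [(9,1),(8,1)]) .nil)))))))))))))) (.cons (.leaf 1 [(8,1),(6,1)]) (.cons (.leaf 1 [(8,1)]) (.cons (.leaf 1 [(8,1),(6,1)]) (.cons (.leaf 1 [(8,1),(7,1)]) (.cons (.leaf 1 [(8,1),(7,1)]) (.cons (.leaf 1 [(8,1)])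 .nil)))))))))))))) (.cons (.keep [4,5,6,8,9] (.node (.cons (.leaf 1 [(9,1)]) (.cons (.leaf 1 [(5,2)]) (.cons (.leaf 1 [(9,1),(5,1)]) (.cons (.keep [3,6,7,9,10] (.node (.cons (.leaf 1 [(11,1)]) (.cons (.leaf 1 [(11,1),(5,1)]) (.cons (.leaf 1 [(11,1),(5,1)]) (.cons (.leaf 1 [(12,1)]) (.cons (.leaf 1 [(12,1),(5,1)]) (.cons (.leaf 1 [(12,1),(5,1)]) (.cons (.leaf 1 [(11,1),(6,1)]) (.cons (.leaf 1 [(11,1)]) (.cons (.leaf 1 [(11,1),(6,1)]) (.cons (.leaf 1 [(11,1),(7,1)]) (.cons (.leaf 1 [(11,1),(7,1)]) (.cons (.leaf 1 [(11,1)]) .nil)))))))))))))) (.cons (.keep [5,7,8,10,11] (.node (.cons (.leaf 1 [(8,2)]) (.cons (.leaf 1 [(8,2),(5,1)]) (.cons (.leaf 1 [(8,2),(5,1)]) (.cons (.leaf 1 [(11,1),(8,1)]) (.cons (.leaf 1 [(11,1),(8,1),(5,1)]) (.cons (.leaf 1 [(11,1),(8,1),(5,1)]) (.cons (.leaf 1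 [(8,2),(6,1)]) (.cons (.leaf 1 [(8,2)]) (.cons (.leaf 1 [(8,2),(6,1)]) (.cons (.leaf 1 [(8,2),(7,1)]) (.cons (.leaf 1 [(8,2),(7,1)]) (.cons (.leaf 1 [(8,2)]) .nil)))))))))))))) (.cons (.keep [6,8,9,10,12] (.node (.cons (.leaf 1 [(10,2),(8,1)]) (.cons (.leaf 1 [(10,1),(5,2)]) (.cons (.leaf 1 [(10,2),(8,1),(5,1)]) (.cons (.leaf 1 [(11,1),(10,1),(8,1)]) (.cons (.leaf 1 [(11,1),(5,2)]) (.cons (.leaf 1 [(11,1),(10,1),(8,1),(5,1)]) (.cons (.leaf 1 [(10,1)]) (.cons (.leaf 1 [(10,1),(1,1)]) (.cons (.leaf 1 [(10,1),(5,1)]) (.cons (.leaf 1 [(10,2),(8,1),(7,1)]) (.cons (.leaf 1 [(10,1),(5,1),(7,1)]) (.cons (.leaf 1 [(10,2),(8,1)]) .nil)))))))))))))) (.cons (.leaf 1 []) (.cons (.leaf 1 [(1,1)]) (.cons (.leaf 1 [(5,1)]) (.cons (.leaf 1 [(9,1),(7,1)]) (.cons (.leaf 1 [(5,1),(7,1)]) (.cons (.leaf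 1 [(9,1)]) .nil)))))))))))))) (.cons (.leaf 1 [(6,1)]) (.cons (.leaf 1 []) (.cons (.leaf 1 [(6,1)]) (.cons (.leaf 1 [(7,1)]) (.cons (.leaf 1 [(7,1)]) (.cons (.leaf 1 []) .nil))))))))))))))

theorem e_27_25 : ESB (caseOf 4 27 25) := esb_of_ok (t := t_27_25) (by decide +kernel)

def t_27_26 : T := (.keep [0,1,2] (.node (.cons (.keep [2,6,7,9] (.node (.cons (.leaf 1 [(2,1)]) (.cons (.leaf 1 [(3,1)]) (.cons (.leaf 1 [(4,1)]) (.cons (.leaf 1 []) (.cons (.leaf 1 [(3,1)]) (.cons (.leaf 1 [(4,1)]) (.cons (.leaf 1 [(2,1)]) (.cons (.leaf 1 []) (.cons (.leaf 1 [(4,1)]) (.cons (.leaf 1 [(2,1)]) (.cons (.leaf 1 [(3,1)]) (.cons (.leaf 1 []) .nil)))))))))))))) (.cons (.keep [3,5,7,9] (.node (.cons (.leaf 1 [(9,1),(2,1)]) (.cons (.leaf 1 [(3,1),(9,1)]) (.cons (.leaf 1 [(4,1),(9,1)]) (.cons (.leaf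 1 [(9,1)]) (.cons (.leaf 1 [(3,1),(9,1)]) (.cons (.leaf 1 [(4,1),(9,1)]) (.cons (.leaf 1 [(9,1),(2,1)]) (.cons (.leaf 1 [(9,1)]) (.cons (.leaf 1 [(4,1),(9,1)]) (.cons (.leaf 1 [(9,1),(2,1)]) (.cons (.leaf 1 [(3,1),(9,1)]) (.cons (.leaf 1 [(9,1)]) .nil)))))))))))))) (.cons (.keep [0,5,6,9] (.node (.cons (.leaf 1 [(9,1),(2,1)]) (.cons (.leaf 2 [(9,1)]) (.cons (.leaf 1 [(4,1),(9,1)]) (.cons (.leaf 1 [(9,1)]) (.cons (.leaf 1 [(1,1),(5,1)]) (.cons (.leaf 1 [(4,1),(9,1)]) (.cons (.leaf 1 [(1,1)]) (.cons (.leaf 1 [(1,1)]) (.cons (.leaf 1 [(1,1)]) (.cons (.leaf 1 [(9,1),(2,1)]) (.cons (.leaf 1 [(7,1),(1,1)]) (.cons (.leaf 1 [(9,1)]) .nil)))))))))))))) (.cons (.leaf 1 []) (.cons (.leaf 1 [(5,1)]) (.cons (.leaf 1 [(5,1)]) (.cons (.leaf 1 [(6,1)]) (.cons (.leaf 1 []) (.cons (.leaf 1 [(6,1)])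 (.cons (.leaf 1 [(7,1)]) (.cons (.leaf 1 [(7,1)]) (.cons (.leaf 1 []) .nil))))))))))))))

theorem e_27_26 : ESB (caseOf 4 27 26) := esb_of_ok (t := t_27_26) (by decide +kernel)

def t_27_27 : T := (.keep [0,1,2] (.node (.cons (.leaf 1 []) (.cons (.leaf 1 [(5,1)]) (.cons (.leaf 1 [(5,1)]) (.cons (.leaf 1 [(5,1)]) (.cons (.leaf 1 [(6,1)]) (.cons (.leaf 1 []) (.cons (.leaf 1 [(6,1)]) (.cons (.leaf 1 [(6,1)]) (.cons (.leaf 1 [(7,1)]) (.cons (.leaf 1 [(7,1)]) (.cons (.leaf 1 []) (.cons (.leaf 1 [(7,1)]) (.cons (.leaf 1 [(8,1)]) (.cons (.leaf 1 [(8,1)]) (.cons (.leaf 1 [(8,1)]) (.cons (.leaf 1 []) .nil))))))))))))))))))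

theorem e_27_27 : ESB (caseOf 4 27 27) := esb_of_ok (t := t_27_27) (by decide +kernel)

def z_27_28_0 : F := ⟨1, -1, 0, 0, 1⟩

def h_27_28_0 : List F := [⟨1, 0, 0, 0, 0⟩, ⟨0, 1, -1, 0, 0⟩, ⟨0, 1, 0, -1, 0⟩, ⟨0, -1, 0, 0, 1⟩]

def t_27_28_0 : T := (.node (.cons (.keep [2,6,7,9] (.node (.cons (.leaf 1 [(9,1)]) (.cons (.leaf 1 [(10,1)]) (.cons (.keep [4,8,9,10,11] (.node (.cons (.leaf 2 [(11,1),(3,2)]) (.cons (.leaf 1 [(3,2)]) (.cons (.leaf 1 [(3,1),(4,1)]) (.cons (.leaf 1 [(3,1),(10,1)]) (.cons (.leaf 1 [(3,1),(8,1)]) (.cons (.leaf 1 [(4,1),(8,1)]) (.cons (.leaf 1 [(6,1),(11,1)]) (.cons (.leaf 1 [(8,1)]) (.cons (.leaf 1 [(4,1),(8,1)]) (.cons (.leaf 2 [(11,1),(8,1),(3,1)]) (.cons (.leaf 1 [(8,1),(3,1)]) (.cons (.leaf 1 [(8,1)]) .nil)))))))))))))) (.cons (.leaf 1 [(1,1),(9,1)]) (.cons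 (.leaf 1 [(1,1),(3,1)]) (.cons (.leaf 1 [(1,1),(4,1)]) (.cons (.leaf 1 [(9,1),(1,1)]) (.cons (.leaf 1 [(10,1),(1,1)]) (.cons (.leaf 1 [(1,1),(4,1),(10,1)]) (.cons (.leaf 1 [(9,1),(1,1)]) (.cons (.leaf 1 [(10,1),(1,1)]) (.cons (.keep [0,1,9,10] (.node (.cons (.leaf 2 [(11,1)]) (.cons (.leaf 1 [(3,1)]) (.cons (.leaf 1 [(4,1)]) (.cons (.leaf 1 [(1,1),(10,1)]) (.cons (.leaf 1 [(3,1)]) (.cons (.leaf 1 [(4,1)]) (.cons (.leaf 2 [(11,1),(1,1)]) (.cons (.leaf 1 []) (.cons (.leaf 1 [(4,1)]) (.cons (.leaf 2 [(11,1),(1,1)]) (.cons (.leaf 1 [(3,1)]) (.cons (.leaf 1 []) .nil)))))))))))))) .nil)))))))))))))) (.cons (.keep [2,5,7,10] (.node (.cons (.leaf 1 []) (.cons (.leaf 1 [(10,1)]) (.cons (.keep [4,8,9,10,11] (.node (.cons (.leaf 2 [(11,1),(10,1),(3,2)]) (.cons (.leaf 1 [(10,1),(3,2)]) (.cons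 (.leaf 1 [(4,1),(3,1),(10,1)]) (.cons (.leaf 1 [(3,1)]) (.cons (.leaf 1 [(3,1)]) (.cons (.leaf 1 [(3,1)]) (.cons (.leaf 2 [(11,1),(10,1),(8,1)]) (.cons (.leaf 1 [(10,1),(8,1)]) (.cons (.leaf 1 [(4,1),(8,1),(10,1)]) (.cons (.leaf 2 [(11,1),(10,1),(8,1),(3,1)]) (.cons (.leaf 1 [(10,1),(8,1),(3,1)]) (.cons (.leaf 1 [(10,1),(8,1)]) .nil)))))))))))))) (.cons (.leaf 1 [(1,1)]) (.cons (.leaf 1 [(3,1),(1,1),(9,1)]) (.cons (.leaf 1 [(4,1),(1,1),(9,1)]) (.cons (.leaf 1 [(1,1)]) (.cons (.leaf 1 [(10,1),(1,1)]) (.cons (.leaf 1 [(1,1),(4,1),(10,1)]) (.cons (.leaf 1 [(1,1)]) (.cons (.leaf 1 [(10,1),(1,1)]) (.cons (.keep [0,1,9,10] (.node (.cons (.leaf 2 [(11,1),(10,1)]) (.cons (.leaf 1 [(3,1),(10,1)]) (.cons (.leaf 1 [(4,1),(10,1)]) (.cons (.leaf 1 [(1,1)]) (.cons (.leaf 1 [(1,1)]) (.cons (.leaf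 1 [(1,1)]) (.cons (.leaf 2 [(11,1),(10,1),(1,1)]) (.cons (.leaf 1 [(10,1)]) (.cons (.leaf 1 [(4,1),(10,1)]) (.cons (.leaf 2 [(11,1),(10,1),(1,1)]) (.cons (.leaf 1 [(3,1),(10,1)]) (.cons (.leaf 1 [(10,1)]) .nil)))))))))))))) .nil)))))))))))))) (.cons (.keep [2,4,5,6,9,10] (.node (.cons (.leaf 1 [(11,1)]) (.cons (.leaf 1 []) (.cons (.keep [4,6,8,10,11] (.node (.cons (.leaf 1 [(6,1)]) (.cons (.leaf 1 [(11,1),(3,2)]) (.cons (.leaf 1 [(4,1),(3,1),(11,1)]) (.cons (.leaf 1 [(6,1)]) (.cons (.leaf 1 [(3,1),(11,1),(8,1)]) (.cons (.leaf 1 [(4,1),(8,1),(11,1)]) (.cons (.leaf 1 [(6,1)]) (.cons (.leaf 1 [(11,1),(8,1)]) (.cons (.leaf 1 [(4,1),(8,1),(11,1)]) (.cons (.leaf 1 [(6,1)]) (.cons (.leaf 1 [(11,1),(8,1),(3,1)]) (.cons (.leaf 1 [(11,1),(8,1)]) .nil)))))))))))))) (.cons (.leaf 1 [(1,1),(11,1)])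 (.cons (.leaf 1 [(1,1)]) (.cons (.leaf 1 [(4,1),(1,1),(10,1)]) (.cons (.leaf 1 [(11,1),(1,1)]) (.cons (.leaf 1 [(1,1)]) (.cons (.leaf 1 [(1,1),(4,1)]) (.cons (.leaf 1 [(11,1),(1,1)]) (.cons (.leaf 1 [(1,1)]) (.cons (.keep [0,1,10,11] (.node (.cons (.leaf 1 [(6,1),(9,1)]) (.cons (.leaf 1 [(3,1),(10,1)]) (.cons (.leaf 1 [(4,1),(10,1)]) (.cons (.leaf 1 [(6,1),(9,1)]) (.cons (.leaf 1 [(3,1),(10,1)]) (.cons (.leaf 1 [(4,1),(10,1)]) (.cons (.leaf 1 [(6,1),(1,1)]) (.cons (.leaf 1 [(10,1)]) (.cons (.leaf 1 [(4,1),(10,1)]) (.cons (.leaf 1 [(7,1),(1,1)]) (.cons (.leaf 1 [(3,1),(10,1)]) (.cons (.leaf 1 [(10,1)]) .nil)))))))))))))) .nil)))))))))))))) (.cons (.keep [1,6,7,8,11] (.node (.cons (.leaf 1 [(9,1),(12,1)]) (.cons (.leaf 1 [(10,1),(12,1)]) (.cons (.keep [2,4,9,10,12] (.node (.cons (.leaf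 2 [(11,1)]) (.cons (.leaf 1 [(3,1)]) (.cons (.leaf 1 [(4,1)]) (.cons (.leaf 1 [(1,1),(10,1)]) (.cons (.leaf 1 [(3,1)]) (.cons (.leaf 1 [(4,1)]) (.cons (.leaf 2 [(11,1),(1,1)]) (.cons (.leaf 1 []) (.cons (.leaf 1 [(4,1)]) (.cons (.leaf 2 [(11,1),(1,1)]) (.cons (.leaf 1 [(3,1)]) (.cons (.leaf 1 []) .nil)))))))))))))) (.cons (.leaf 1 [(1,1)]) (.cons (.leaf 1 [(1,1)]) (.cons (.leaf 1 [(1,1)]) (.cons (.leaf 1 [(9,1),(6,1),(1,1)]) (.cons (.leaf 1 [(10,1),(1,1)]) (.cons (.leaf 1 [(10,1),(1,1)]) (.cons (.leaf 1 [(9,1),(7,1),(1,1)]) (.cons (.leaf 1 [(10,1),(7,1),(1,1)]) (.cons (.keep [0,1,9,10] (.node (.cons (.leaf 2 [(11,1)]) (.cons (.leaf 1 [(3,1)]) (.cons (.leaf 1 [(4,1)]) (.cons (.leaf 1 [(1,1),(10,1)]) (.cons (.leaf 1 [(3,1)]) (.cons (.leaf 1 [(4,1)]) (.cons (.leaf 2 [(11,1),(1,1)]) (.cons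 (.leaf 1 []) (.cons (.leaf 1 [(4,1)]) (.cons (.leaf 2 [(11,1),(1,1)]) (.cons (.leaf 1 [(3,1)]) (.cons (.leaf 1 []) .nil)))))))))))))) .nil)))))))))))))) (.cons (.keep [1,3,5,7,11] (.node (.cons (.leaf 1 [(12,1)]) (.cons (.leaf 1 [(11,1),(12,1)]) (.cons (.keep [4,5,10,11,12] (.node (.cons (.leaf 2 [(11,1),(10,1)]) (.cons (.leaf 1 [(3,1),(10,1)]) (.cons (.leaf 1 [(4,1),(10,1)]) (.cons (.leaf 1 [(1,1)]) (.cons (.leaf 1 [(1,1)]) (.cons (.leaf 1 [(1,1)]) (.cons (.leaf 2 [(11,1),(10,1),(1,1)]) (.cons (.leaf 1 [(10,1)]) (.cons (.leaf 1 [(4,1),(10,1)]) (.cons (.leaf 2 [(11,1),(10,1),(1,1)]) (.cons (.leaf 1 [(3,1),(10,1)]) (.cons (.leaf 1 [(10,1)]) .nil)))))))))))))) (.cons (.leaf 1 [(1,1),(10,1)]) (.cons (.leaf 1 [(1,1),(10,1)]) (.cons (.leaf 1 [(1,1),(10,1)]) (.cons (.leaf 1 [(6,1),(1,1)])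 (.cons (.leaf 1 [(11,1),(1,1)]) (.cons (.leaf 1 [(11,1),(1,1)]) (.cons (.leaf 1 [(7,1),(1,1)]) (.cons (.leaf 1 [(11,1),(7,1),(1,1)]) (.cons (.keep [0,1,10,11] (.node (.cons (.leaf 2 [(11,1),(10,1)]) (.cons (.leaf 1 [(3,1),(10,1)]) (.cons (.leaf 1 [(4,1),(10,1)]) (.cons (.leaf 1 [(1,1)]) (.cons (.leaf 1 [(1,1)]) (.cons (.leaf 1 [(1,1)]) (.cons (.leaf 2 [(11,1),(10,1),(1,1)]) (.cons (.leaf 1 [(10,1)]) (.cons (.leaf 1 [(4,1),(10,1)]) (.cons (.leaf 2 [(11,1),(10,1),(1,1)]) (.cons (.leaf 1 [(3,1),(10,1)]) (.cons (.leaf 1 [(10,1)]) .nil)))))))))))))) .nil)))))))))))))) (.cons (.keep [1,4,5,6,11] (.node (.cons (.leaf 1 [(12,1),(11,1)]) (.cons (.leaf 1 [(12,1)]) (.cons (.keep [4,6,10,11,12] (.node (.cons (.leaf 2 [(10,1)]) (.cons (.leaf 1 [(3,1),(10,1)]) (.cons (.leaf 1 [(4,1),(10,1)]) (.cons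 (.leaf 2 [(1,1),(10,1)]) (.cons (.leaf 1 [(3,1),(10,1)]) (.cons (.leaf 1 [(4,1),(10,1)]) (.cons (.leaf 1 [(6,1),(1,1)]) (.cons (.leaf 1 [(10,1)]) (.cons (.leaf 1 [(4,1),(10,1)]) (.cons (.leaf 1 [(7,1),(1,1)]) (.cons (.leaf 1 [(3,1),(10,1)]) (.cons (.leaf 1 [(10,1)]) .nil)))))))))))))) (.cons (.leaf 1 [(1,1),(10,1)]) (.cons (.leaf 1 [(1,1),(10,1)]) (.cons (.leaf 1 [(1,1),(10,1)]) (.cons (.leaf 1 [(1,1)]) (.cons (.leaf 1 [(1,1)]) (.cons (.leaf 1 [(1,1)]) (.cons (.leaf 1 [(7,1),(11,1),(1,1)]) (.cons (.leaf 1 [(7,1),(1,1)]) (.cons (.keep [0,1,10,11] (.node (.cons (.leaf 1 [(6,1),(9,1)]) (.cons (.leaf 1 [(3,1),(10,1)]) (.cons (.leaf 1 [(4,1),(10,1)]) (.cons (.leaf 1 [(6,1),(9,1)]) (.cons (.leaf 1 [(3,1),(10,1)]) (.cons (.leaf 1 [(4,1),(10,1)]) (.cons (.leaf 1 [(6,1),(1,1)]) (.cons (.leaf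 1 [(10,1)]) (.cons (.leaf 1 [(4,1),(10,1)]) (.cons (.leaf 1 [(7,1),(1,1)]) (.cons (.leaf 1 [(3,1),(10,1)]) (.cons (.leaf 1 [(10,1)]) .nil)))))))))))))) .nil)))))))))))))) (.cons (.leaf 1 [(1,1),(6,2),(9,1)]) (.cons (.leaf 1 [(10,1),(1,1)]) (.cons (.leaf 1 [(10,1),(6,1),(1,1)]) (.cons (.leaf 1 [(1,1),(7,2),(9,1)]) (.cons (.leaf 1 [(1,1),(7,2),(10,1)]) (.cons (.keep [0,1,9,10] (.node (.cons (.leaf 2 [(11,1)]) (.cons (.leaf 1 [(3,1)]) (.cons (.leaf 1 [(4,1)]) (.cons (.leaf 1 [(1,1),(10,1)]) (.cons (.leaf 1 [(3,1)]) (.cons (.leaf 1 [(4,1)]) (.cons (.leaf 2 [(11,1),(1,1)]) (.cons (.leaf 1 []) (.cons (.leaf 1 [(4,1)]) (.cons (.leaf 2 [(11,1),(1,1)]) (.cons (.leaf 1 [(3,1)]) (.cons (.leaf 1 []) .nil)))))))))))))) .nil)))))))))))))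

theorem c_27_28_0 : Concl 27 28 z_27_28_0 h_27_28_0 .nd := piece _ hP_nil t_27_28_0 _ _ (by
  decide +kernel)

def t_27_28 : T := (.keep [0,1,2] (.node (.cons (.keep [2,6,7,9] (.node (.cons (.leaf 1 [(9,1),(8,1)]) (.cons (.leaf 1 [(10,1),(8,1)]) (.cons (.keep [2,4,8,9,10] (.node (.cons (.leaf 2 [(12,1)]) (.cons (.leaf 1 [(3,1)]) (.cons (.leaf 1 [(4,1)]) (.cons (.leaf 1 [(1,1),(11,1)]) (.cons (.leaf 1 [(3,1)]) (.cons (.leaf 1 [(4,1)]) (.cons (.leaf 2 [(12,1),(1,1)]) (.cons (.leaf 1 []) (.cons (.leaf 1 [(4,1)]) (.cons (.leaf 2 [(12,1),(1,1)]) (.cons (.leaf 1 [(3,1)]) (.cons (.leaf 1 []) .nil)))))))))))))) (.cons (.leaf 1 [(1,1)]) (.cons (.leaf 1 [(1,1)]) (.cons (.leaf 1 [(1,1)]) (.cons (.leaf 1 [(9,1),(6,1),(1,1)]) (.cons (.leaf 1 [(10,1),(1,1)]) (.cons (.leaf 1 [(10,1),(1,1)]) (.cons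 (.leaf 1 [(9,1),(7,1),(1,1)]) (.cons (.leaf 1 [(10,1),(7,1),(1,1)]) (.cons (.keep [0,1,9,10] (.node (.cons (.leaf 2 [(11,1)]) (.cons (.leaf 1 [(3,1)]) (.cons (.leaf 1 [(4,1)]) (.cons (.leaf 1 [(1,1),(10,1)]) (.cons (.leaf 1 [(3,1)]) (.cons (.leaf 1 [(4,1)]) (.cons (.leaf 2 [(11,1),(1,1)]) (.cons (.leaf 1 []) (.cons (.leaf 1 [(4,1)]) (.cons (.leaf 2 [(11,1),(1,1)]) (.cons (.leaf 1 [(3,1)]) (.cons (.leaf 1 []) .nil)))))))))))))) .nil)))))))))))))) (.cons (.keep [2,3,5,7] (.node (.cons (.leaf 1 [(8,1)]) (.cons (.leaf 1 [(11,1),(8,1)]) (.cons (.keep [4,8,9,10,11] (.node (.cons (.leaf 2 [(12,1),(11,1)]) (.cons (.leaf 1 [(3,1),(11,1)]) (.cons (.leaf 1 [(4,1),(11,1)]) (.cons (.leaf 1 [(1,1)]) (.cons (.leaf 1 [(1,1)]) (.cons (.leaf 1 [(1,1)]) (.cons (.leaf 2 [(12,1),(11,1),(1,1)]) (.cons (.leaf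 1 [(11,1)]) (.cons (.leaf 1 [(4,1),(11,1)]) (.cons (.leaf 2 [(12,1),(11,1),(1,1)]) (.cons (.leaf 1 [(3,1),(11,1)]) (.cons (.leaf 1 [(11,1)]) .nil)))))))))))))) (.cons (.leaf 1 [(1,1),(8,1)]) (.cons (.leaf 1 [(1,1),(10,1)]) (.cons (.leaf 1 [(1,1),(10,1)]) (.cons (.leaf 1 [(6,1),(1,1)]) (.cons (.leaf 1 [(11,1),(1,1)]) (.cons (.leaf 1 [(11,1),(1,1)]) (.cons (.leaf 1 [(7,1),(1,1)]) (.cons (.leaf 1 [(11,1),(7,1),(1,1)]) (.cons (.keep [0,1,10,11] (.node (.cons (.leaf 2 [(11,1),(10,1)]) (.cons (.leaf 1 [(3,1),(10,1)]) (.cons (.leaf 1 [(4,1),(10,1)]) (.cons (.leaf 1 [(1,1)]) (.cons (.leaf 1 [(1,1)]) (.cons (.leaf 1 [(1,1)]) (.cons (.leaf 2 [(11,1),(10,1),(1,1)]) (.cons (.leaf 1 [(10,1)]) (.cons (.leaf 1 [(4,1),(10,1)]) (.cons (.leaf 2 [(11,1),(10,1),(1,1)]) (.cons (.leaf 1 [(3,1),(10,1)])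 (.cons (.leaf 1 [(10,1)]) .nil)))))))))))))) .nil)))))))))))))) (.cons (.keep [0,2,5,6] (.node (.cons (.leaf 1 [(9,1),(11,1)]) (.cons (.leaf 1 [(9,1)]) (.cons (.keep [4,6,9,10,11] (.node (.cons (.leaf 1 [(6,1),(10,1)]) (.cons (.leaf 1 [(3,1),(11,1)]) (.cons (.leaf 1 [(4,1),(11,1)]) (.cons (.leaf 1 [(6,1),(10,1)]) (.cons (.leaf 1 [(3,1),(11,1)]) (.cons (.leaf 1 [(4,1),(11,1)]) (.cons (.leaf 1 [(6,1),(1,1)]) (.cons (.leaf 1 [(11,1)]) (.cons (.leaf 1 [(4,1),(11,1)]) (.cons (.leaf 1 [(7,1),(1,1)]) (.cons (.leaf 1 [(3,1),(11,1)]) (.cons (.leaf 1 [(11,1)]) .nil)))))))))))))) (.cons (.leaf 1 [(1,1),(10,1)]) (.cons (.leaf 1 [(1,1),(9,1)]) (.cons (.leaf 1 [(1,1),(10,1)]) (.cons (.leaf 1 [(1,1)]) (.cons (.leaf 1 [(1,1)]) (.cons (.leaf 1 [(1,1)]) (.cons (.leaf 1 [(7,1),(11,1),(1,1)]) (.cons (.leaf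 1 [(7,1),(1,1)]) (.cons (.keep [0,1,10,11] (.node (.cons (.leaf 1 [(6,1),(9,1)]) (.cons (.leaf 1 [(3,1),(10,1)]) (.cons (.leaf 1 [(4,1),(10,1)]) (.cons (.leaf 1 [(6,1),(9,1)]) (.cons (.leaf 1 [(3,1),(10,1)]) (.cons (.leaf 1 [(4,1),(10,1)]) (.cons (.leaf 1 [(6,1),(1,1)]) (.cons (.leaf 1 [(10,1)]) (.cons (.leaf 1 [(4,1),(10,1)]) (.cons (.leaf 1 [(7,1),(1,1)]) (.cons (.leaf 1 [(3,1),(10,1)]) (.cons (.leaf 1 [(10,1)]) .nil)))))))))))))) .nil)))))))))))))) (.cons (.keep [1,6,7,8] (.leaf 0 [(0,0)])) (.cons (.keep [1,5,7,8] (.node (.cons (.keep [6,7,8,9] (.node (.cons (.leaf 1 [(8,1),(11,1)]) (.cons (.leaf 1 [(3,2),(11,2)]) (.cons (.leaf 1 [(4,2),(11,2)]) (.cons (.leaf 1 [(1,2)]) (.cons (.leaf 1 [(1,2)]) (.cons (.leaf 1 [(1,2)]) (.cons (.leaf 1 [(8,2),(6,2),(1,2)]) (.cons (.leaf 1 [(9,2),(1,2)])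 (.cons (.leaf 1 [(9,2),(1,2)]) (.cons (.leaf 1 [(8,2),(7,2),(1,2)]) (.cons (.leaf 1 [(9,2),(7,2),(1,2)]) (.cons (.leaf 1 [(11,2)]) .nil)))))))))))))) (.cons (.keep [5,7,9,10,11] (.node (.cons (.leaf 1 [(10,1)]) (.cons (.leaf 1 [(3,2),(8,1),(10,2)]) (.cons (.leaf 1 [(4,2),(8,1),(10,2)]) (.cons (.leaf 1 [(1,2),(8,1)]) (.cons (.leaf 1 [(1,2),(8,1)]) (.cons (.leaf 1 [(1,2),(8,1)]) (.cons (.leaf 1 [(10,1),(1,1)]) (.cons (.leaf 1 [(10,1),(9,1),(1,1)]) (.cons (.leaf 1 [(4,1),(9,1),(1,1),(10,1)]) (.cons (.leaf 1 [(10,1),(1,1)]) (.cons (.leaf 1 [(9,1),(10,1),(1,1)]) (.cons (.leaf 1 [(10,2),(8,1)]) .nil)))))))))))))) (.cons (.keep [4,5,9,10] (.node (.cons (.leaf 1 [(11,1),(10,1),(9,1)]) (.cons (.leaf 1 [(10,1)]) (.cons (.leaf 1 [(4,2),(9,1),(10,2)]) (.cons (.leaf 1 [(1,2),(9,1)]) (.cons (.leaf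 1 [(1,2),(9,1)]) (.cons (.leaf 1 [(1,2),(9,1)]) (.cons (.leaf 2 [(11,1),(10,1),(1,3)]) (.cons (.leaf 1 [(10,1),(1,1)]) (.cons (.leaf 1 [(4,1),(1,1),(10,1)]) (.cons (.leaf 1 [(11,1),(10,1),(9,1),(1,1)]) (.cons (.leaf 1 [(10,1),(1,1)]) (.cons (.leaf 1 [(10,2),(9,1)]) .nil)))))))))))))) (.cons (.leaf 1 [(9,2),(1,1)]) (.cons (.leaf 1 [(9,2),(1,1),(5,1)]) (.cons (.leaf 1 [(9,2),(1,1),(5,1)]) (.cons (.leaf 1 [(1,1),(6,2)]) (.cons (.leaf 1 [(10,1),(1,1)]) (.cons (.leaf 1 [(10,1),(6,1),(1,1)]) (.cons (.leaf 1 [(1,1),(7,2)]) (.cons (.leaf 1 [(1,1),(7,2),(10,1)]) (.cons (.keep [0,1,9,10] (.node (.cons (.leaf 2 [(11,1),(10,1)]) (.cons (.leaf 1 [(3,1),(10,1)]) (.cons (.leaf 1 [(4,1),(10,1)]) (.cons (.leaf 1 [(1,1)]) (.cons (.leaf 1 [(1,1)]) (.cons (.leaf 1 [(1,1)]) (.cons (.leaf 2 [(11,1),(10,1),(1,1)])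 (.cons (.leaf 1 [(10,1)]) (.cons (.leaf 1 [(4,1),(10,1)]) (.cons (.leaf 2 [(11,1),(10,1),(1,1)]) (.cons (.leaf 1 [(3,1),(10,1)]) (.cons (.leaf 1 [(10,1)]) .nil)))))))))))))) .nil)))))))))))))) (.cons (.keep [1,5,6,8] (.node (.cons (.keep [6,7,8,9,10] (.node (.cons (.leaf 1 [(8,1),(11,1)]) (.cons (.leaf 1 [(8,1),(3,2),(11,2)]) (.cons (.leaf 1 [(8,1),(4,2),(11,2)]) (.cons (.leaf 2 [(1,3),(11,1)]) (.cons (.leaf 1 [(1,1),(3,1),(11,1)]) (.cons (.leaf 1 [(1,1),(4,1),(11,1)]) (.cons (.leaf 1 [(8,1),(6,2),(1,2)]) (.cons (.leaf 1 [(9,1),(11,1),(1,1)]) (.cons (.leaf 1 [(9,1),(4,1),(1,1),(11,1)]) (.cons (.leaf 1 [(8,1),(7,2),(1,2)]) (.cons (.leaf 1 [(9,1),(11,1),(1,1)]) (.cons (.leaf 1 [(8,1),(11,2)]) .nil)))))))))))))) (.cons (.keep [3,5,7,9] (.node (.cons (.leaf 1 [(11,1)]) (.cons (.leaf 1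 [(3,2),(11,2)]) (.cons (.leaf 1 [(4,2),(11,2)]) (.cons (.leaf 1 [(1,2),(9,2)]) (.cons (.leaf 1 [(1,2),(9,2)]) (.cons (.leaf 1 [(1,2),(9,2)]) (.cons (.leaf 1 [(6,2),(1,2)]) (.cons (.leaf 1 [(10,2),(1,2)]) (.cons (.leaf 1 [(10,2),(1,2)]) (.cons (.leaf 1 [(7,2),(1,2)]) (.cons (.leaf 1 [(10,2),(7,2),(1,2)]) (.cons (.leaf 1 [(11,2)]) .nil)))))))))))))) (.cons (.keep [4,6,9,10] (.node (.cons (.leaf 1 [(10,1),(9,1)]) (.cons (.leaf 1 [(10,1)]) (.cons (.leaf 1 [(4,2),(9,1),(10,2)]) (.cons (.leaf 1 [(1,1),(10,1),(9,1)]) (.cons (.leaf 1 [(1,1),(10,1)]) (.cons (.leaf 1 [(4,2),(9,1),(10,2)]) (.cons (.leaf 1 [(6,1),(1,2)]) (.cons (.leaf 1 [(10,1),(1,1)]) (.cons (.leaf 1 [(4,1),(1,1),(10,1)]) (.cons (.leaf 1 [(7,2),(9,1),(1,2)]) (.cons (.leaf 1 [(10,1),(1,1)]) (.cons (.leaf 1 [(10,2),(9,1)]) .nil))))))))))))))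 (.cons (.leaf 1 [(9,2),(6,1),(1,1)]) (.cons (.leaf 1 [(9,2),(1,1)]) (.cons (.leaf 1 [(9,2),(1,1),(6,1)]) (.cons (.leaf 1 [(6,1),(1,1)]) (.cons (.leaf 1 [(1,1)]) (.cons (.leaf 1 [(1,1),(6,1)]) (.cons (.leaf 1 [(7,2),(1,1),(10,1)]) (.cons (.leaf 1 [(1,1),(7,2)]) (.cons (.keep [0,1,9,10] (.node (.cons (.leaf 1 [(6,1),(9,1)]) (.cons (.leaf 1 [(3,1),(10,1)]) (.cons (.leaf 1 [(4,1),(10,1)]) (.cons (.leaf 1 [(6,1),(9,1)]) (.cons (.leaf 1 [(3,1),(10,1)]) (.cons (.leaf 1 [(4,1),(10,1)]) (.cons (.leaf 1 [(6,1),(1,1)]) (.cons (.leaf 1 [(10,1)]) (.cons (.leaf 1 [(4,1),(10,1)]) (.cons (.leaf 1 [(7,1),(1,1)]) (.cons (.leaf 1 [(3,1),(10,1)]) (.cons (.leaf 1 [(10,1)]) .nil)))))))))))))) .nil)))))))))))))) (.cons (.leaf 1 [(6,1)]) (.cons (.leaf 1 []) (.cons (.leaf 1 [(6,1)]) (.cons (.leaf 1 [(7,1)])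 (.cons (.leaf 1 [(7,1)]) (.cons (.leaf 1 []) .nil))))))))))))))

theorem e_27_28 : ESB (caseOf 4 27 28) := esb_of_pieces _ (hP_cons c_27_28_0 hP_nil) t_27_28 (by
  decide +kernel)

def t_27_29 : T := (.keep [0,1,2] (.node (.cons (.leaf 1 []) (.cons (.leaf 1 [(5,1)]) (.cons (.leaf 1 [(5,1)]) (.cons (.leaf 1 [(5,1)]) (.cons (.keep [1,6,7,8] (.node (.cons (.leaf 1 []) (.cons (.leaf 1 [(5,1)]) (.cons (.leaf 1 [(5,1)]) (.cons (.leaf 1 [(5,1)]) (.cons (.leaf 1 [(10,1)]) (.cons (.leaf 1 [(10,1),(5,1)]) (.cons (.leaf 1 [(10,1),(5,1)]) (.cons (.leaf 1 [(10,1),(5,1)]) (.cons (.leaf 1 [(7,1)]) (.cons (.leaf 1 [(7,1)]) (.cons (.leaf 1 []) (.cons (.leaf 1 [(7,1)]) (.cons (.leaf 1 [(8,1)]) (.cons (.leaf 1 [(8,1)]) (.cons (.leaf 1 [(8,1)]) (.cons (.leaf 1 []) .nil)))))))))))))))))) (.cons (.keep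 [5,7,8,9,10] (.node (.cons (.leaf 1 [(9,1)]) (.cons (.leaf 1 [(9,1),(5,1)]) (.cons (.leaf 1 [(9,1),(5,1)]) (.cons (.leaf 1 [(9,1),(5,1)]) (.cons (.leaf 1 []) (.cons (.leaf 1 [(5,1)]) (.cons (.leaf 1 [(5,1)]) (.cons (.leaf 1 [(5,1)]) (.cons (.leaf 1 [(9,1),(7,1)]) (.cons (.leaf 1 [(9,1),(7,1)]) (.cons (.leaf 1 [(9,1)]) (.cons (.leaf 1 [(9,1),(7,1)]) (.cons (.leaf 1 [(9,1),(8,1)]) (.cons (.leaf 1 [(9,1),(8,1)]) (.cons (.leaf 1 [(9,1),(8,1)]) (.cons (.leaf 1 [(9,1)]) .nil)))))))))))))))))) (.cons (.keep [5,6,8,9,11] (.node (.cons (.leaf 1 [(9,1)]) (.cons (.leaf 1 [(5,2)]) (.cons (.leaf 1 [(9,1),(5,1)]) (.cons (.leaf 1 [(9,1),(5,1)]) (.cons (.leaf 1 [(10,1)]) (.cons (.leaf 1 [(10,1),(5,1)]) (.cons (.leaf 1 [(10,1),(5,1)]) (.cons (.leaf 1 [(10,1),(5,1)]) (.cons (.leaf 1 [(9,1),(7,1)]) (.cons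 (.leaf 1 [(5,1),(7,1)]) (.cons (.leaf 1 [(9,1)]) (.cons (.leaf 1 [(9,1),(7,1)]) (.cons (.leaf 1 [(9,1),(8,1)]) (.cons (.leaf 1 [(5,1),(8,1)]) (.cons (.leaf 1 [(9,1),(8,1)]) (.cons (.leaf 1 [(9,1)]) .nil)))))))))))))))))) (.cons (.keep [4,5,6,7,9] (.node (.cons (.leaf 1 [(10,1)]) (.cons (.leaf 1 [(5,1),(10,1)]) (.cons (.leaf 1 [(5,2)]) (.cons (.leaf 1 [(10,1),(5,1)]) (.cons (.leaf 1 [(11,1)]) (.cons (.leaf 1 [(5,1),(11,1)]) (.cons (.leaf 1 [(11,1),(5,1)]) (.cons (.leaf 1 [(11,1),(5,1)]) (.cons (.leaf 1 []) (.cons (.leaf 1 [(5,1)]) (.cons (.leaf 1 [(1,1)]) (.cons (.leaf 1 [(5,1)]) (.cons (.leaf 1 [(10,1),(8,1)]) (.cons (.leaf 1 [(8,1),(10,1)]) (.cons (.leaf 1 [(5,1),(8,1)]) (.cons (.leaf 1 [(10,1)]) .nil)))))))))))))))))) (.cons (.leaf 1 [(7,1)]) (.cons (.leaf 1 [(7,1)]) (.cons (.leaf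 1 []) (.cons (.leaf 1 [(7,1)]) (.cons (.leaf 1 [(8,1)]) (.cons (.leaf 1 [(8,1)]) (.cons (.leaf 1 [(8,1)]) (.cons (.leaf 1 []) .nil))))))))))))))))))

theorem e_27_29 : ESB (caseOf 4 27 29) := esb_of_ok (t := t_27_29) (by decide +kernel)

def t_27_30 : T := (.keep [0,1,2] (.node (.cons (.keep [2,6,7,8] (.node (.cons (.leaf 1 [(2,1)]) (.cons (.leaf 2 [(11,1)]) (.cons (.leaf 1 [(3,1)]) (.cons (.leaf 1 [(4,1)]) (.cons (.leaf 1 []) (.cons (.leaf 1 [(1,1),(10,1)]) (.cons (.leaf 1 [(3,1)]) (.cons (.leaf 1 [(4,1)]) (.cons (.leaf 1 [(2,1)]) (.cons (.leaf 2 [(11,1),(1,1)]) (.cons (.leaf 1 []) (.cons (.leaf 1 [(4,1)]) (.cons (.leaf 1 [(2,1)]) (.cons (.leaf 2 [(11,1),(1,1)]) (.cons (.leaf 1 [(3,1)]) (.cons (.leaf 1 []) .nil)))))))))))))))))) (.cons (.keep [5,7,8,10] (.node (.cons (.leaf 2 [(9,1)])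 (.cons (.leaf 2 [(10,1),(9,1)]) (.cons (.leaf 1 [(3,1),(9,1)]) (.cons (.leaf 1 [(4,1),(9,1)]) (.cons (.leaf 1 [(1,1)]) (.cons (.leaf 1 [(1,1)]) (.cons (.leaf 1 [(1,1)]) (.cons (.leaf 1 [(1,1)]) (.cons (.leaf 1 [(7,1),(1,1)]) (.cons (.leaf 2 [(10,1),(9,1),(1,1)]) (.cons (.leaf 1 [(9,1)]) (.cons (.leaf 1 [(4,1),(9,1)]) (.cons (.leaf 1 [(8,1),(1,1)]) (.cons (.leaf 2 [(10,1),(9,1),(1,1)]) (.cons (.leaf 1 [(3,1),(9,1)]) (.cons (.leaf 1 [(9,1)]) .nil)))))))))))))))))) (.cons (.keep [3,5,6,8] (.node (.cons (.leaf 1 [(10,1),(2,1)]) (.cons (.leaf 2 [(10,1)]) (.cons (.leaf 1 [(3,1),(10,1)]) (.cons (.leaf 1 [(4,1),(10,1)]) (.cons (.leaf 1 [(10,1)]) (.cons (.leaf 1 [(1,1),(5,1)]) (.cons (.leaf 1 [(3,1),(10,1)]) (.cons (.leaf 1 [(4,1),(10,1)]) (.cons (.leaf 1 [(10,1),(2,1)]) (.cons (.leaf 1 [(7,1),(1,1)])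 (.cons (.leaf 1 [(10,1)]) (.cons (.leaf 1 [(4,1),(10,1)]) (.cons (.leaf 1 [(10,1),(2,1)]) (.cons (.leaf 1 [(8,1),(1,1)]) (.cons (.leaf 1 [(3,1),(10,1)]) (.cons (.leaf 1 [(10,1)]) .nil)))))))))))))))))) (.cons (.keep [0,5,6,7] (.node (.cons (.leaf 1 [(10,1),(2,1)]) (.cons (.leaf 2 [(10,1),(12,1)]) (.cons (.leaf 2 [(10,1)]) (.cons (.leaf 1 [(4,1),(10,1)]) (.cons (.leaf 1 [(10,1)]) (.cons (.leaf 1 [(1,1),(11,1)]) (.cons (.leaf 1 [(1,1),(5,1)]) (.cons (.leaf 1 [(4,1),(10,1)]) (.cons (.leaf 1 [(1,1)]) (.cons (.leaf 1 [(1,1)]) (.cons (.leaf 1 [(1,1)]) (.cons (.leaf 1 [(1,1)]) (.cons (.leaf 1 [(10,1),(2,1)]) (.cons (.leaf 2 [(10,1),(12,1),(1,1)]) (.cons (.leaf 1 [(8,1),(1,1)]) (.cons (.leaf 1 [(10,1)]) .nil)))))))))))))))))) (.cons (.leaf 1 []) (.cons (.leaf 1 [(5,1)]) (.cons (.leaf 1 [(5,1)])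 (.cons (.leaf 1 [(5,1)]) (.cons (.leaf 1 [(7,1)]) (.cons (.leaf 1 [(7,1)]) (.cons (.leaf 1 []) (.cons (.leaf 1 [(7,1)]) (.cons (.leaf 1 [(8,1)]) (.cons (.leaf 1 [(8,1)]) (.cons (.leaf 1 [(8,1)]) (.cons (.leaf 1 []) .nil))))))))))))))))))

theorem e_27_30 : ESB (caseOf 4 27 30) := esb_of_ok (t := t_27_30) (by decide +kernel)

def t_27_31 : T := (.keep [0,1,2] (.node (.cons (.leaf 1 []) (.cons (.leaf 1 [(5,1)]) (.cons (.leaf 1 [(5,1)]) (.cons (.leaf 1 [(5,1)]) (.cons (.leaf 1 [(5,1)]) (.cons (.leaf 1 [(6,1)]) (.cons (.leaf 1 []) (.cons (.leaf 1 [(6,1)]) (.cons (.leaf 1 [(6,1)]) (.cons (.leaf 1 [(6,1)]) (.cons (.leaf 1 [(8,1)]) (.cons (.leaf 1 [(8,1)]) (.cons (.leaf 1 [(8,1)]) (.cons (.leaf 1 []) (.cons (.leaf 1 [(8,1)]) (.cons (.leaf 1 [(9,1)]) (.cons (.leaf 1 [(9,1)]) (.cons (.leaf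 1 [(9,1)]) (.cons (.leaf 1 [(9,1)]) (.cons (.leaf 1 []) .nil))))))))))))))))))))))

theorem e_27_31 : ESB (caseOf 4 27 31) := esb_of_ok (t := t_27_31) (by decide +kernel)

def t_28_25 : T := (.keep [0,1,2] (.node (.cons (.keep [0,2,5,6,7] (.node (.cons (.keep [2,3,8,9] (.node (.cons (.leaf 1 [(7,1),(10,1)]) (.cons (.leaf 1 [(7,1),(10,1),(4,1)]) (.cons (.leaf 1 [(7,1),(10,1),(4,1)]) (.cons (.leaf 1 [(5,1)]) (.cons (.leaf 1 []) (.cons (.leaf 1 [(5,1)]) (.cons (.leaf 1 [(6,1)]) (.cons (.leaf 1 [(6,1)]) (.cons (.leaf 1 []) .nil))))))))))) (.cons (.keep [2,4,6,9,11] (.node (.cons (.leaf 1 [(7,1),(10,1)]) (.cons (.leaf 1 [(7,1),(10,1),(4,1)]) (.cons (.leaf 1 [(7,1),(10,1),(4,1)]) (.cons (.leaf 1 [(5,1)]) (.cons (.leaf 1 []) (.cons (.leaf 1 [(5,1)]) (.cons (.leaf 1 [(6,1)]) (.cons (.leaf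 1 [(6,1)]) (.cons (.leaf 1 []) .nil))))))))))) (.cons (.keep [3,4,9,10,11] (.node (.cons (.leaf 1 [(10,1)]) (.cons (.leaf 1 [(10,1),(4,1)]) (.cons (.leaf 1 [(10,1),(4,1)]) (.cons (.leaf 1 [(5,1)]) (.cons (.leaf 1 []) (.cons (.leaf 1 [(5,1)]) (.cons (.leaf 1 [(6,1)]) (.cons (.leaf 1 [(6,1)]) (.cons (.leaf 1 []) .nil))))))))))) (.cons (.keep [1,3,5,7] (.node (.cons (.leaf 1 [(9,1)]) (.cons (.leaf 1 [(9,1),(4,1)]) (.cons (.leaf 1 [(9,1),(4,1)]) (.cons (.leaf 1 [(5,1)]) (.cons (.leaf 1 []) (.cons (.leaf 1 [(5,1)]) (.cons (.leaf 1 [(6,1)]) (.cons (.leaf 1 [(6,1)]) (.cons (.leaf 1 []) .nil))))))))))) (.cons (.keep [3,4,9,10,11] (.node (.cons (.leaf 1 [(10,1)]) (.cons (.leaf 1 [(10,1),(4,1)]) (.cons (.leaf 1 [(10,1),(4,1)]) (.cons (.leaf 1 [(5,1)]) (.cons (.leaf 1 []) (.cons (.leaf 1 [(5,1)])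 (.cons (.leaf 1 [(6,1)]) (.cons (.leaf 1 [(6,1)]) (.cons (.leaf 1 []) .nil))))))))))) (.cons (.keep [3,4,9,10,11] (.node (.cons (.leaf 1 [(10,1)]) (.cons (.leaf 1 [(10,1),(4,1)]) (.cons (.leaf 1 [(10,1),(4,1)]) (.cons (.leaf 1 [(5,1)]) (.cons (.leaf 1 []) (.cons (.leaf 1 [(5,1)]) (.cons (.leaf 1 [(6,1)]) (.cons (.leaf 1 [(6,1)]) (.cons (.leaf 1 []) .nil))))))))))) (.cons (.keep [0,1,2,6] (.node (.cons (.leaf 1 [(5,1),(9,1)]) (.cons (.leaf 1 [(9,1)]) (.cons (.leaf 1 [(9,1),(5,1)]) (.cons (.leaf 1 [(5,1)]) (.cons (.leaf 1 []) (.cons (.leaf 1 [(5,1)]) (.cons (.leaf 1 [(6,1)]) (.cons (.leaf 1 [(6,1)]) (.cons (.leaf 1 []) .nil))))))))))) (.cons (.keep [2,4,6,9,10,11] (.node (.cons (.leaf 1 [(5,1),(7,1)]) (.cons (.leaf 1 [(7,1)]) (.cons (.leaf 1 [(7,1),(5,1)]) (.cons (.leaf 1 [(5,1)]) (.cons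 (.leaf 1 []) (.cons (.leaf 1 [(5,1)]) (.cons (.leaf 1 [(6,1)]) (.cons (.leaf 1 [(6,1)]) (.cons (.leaf 1 []) .nil))))))))))) (.cons (.keep [0,4,9,10] (.node (.cons (.leaf 1 [(10,1)]) (.cons (.leaf 1 [(10,1),(4,1)]) (.cons (.leaf 1 [(10,1),(4,1)]) (.cons (.leaf 1 [(5,1)]) (.cons (.leaf 1 []) (.cons (.leaf 1 [(5,1)]) (.cons (.leaf 1 [(6,1)]) (.cons (.leaf 1 [(6,1)]) (.cons (.leaf 1 []) .nil))))))))))) .nil))))))))))) (.cons (.keep [4,6,7,8,9] (.node (.cons (.keep [5,6,7,9,10] (.node (.cons (.leaf 1 [(9,1),(7,1)]) (.cons (.leaf 1 [(9,1),(7,1),(4,1)]) (.cons (.leaf 1 [(9,1),(7,1),(4,1)]) (.cons (.leaf 1 [(9,1),(5,1)]) (.cons (.leaf 1 [(9,1)]) (.cons (.leaf 1 [(9,1),(5,1)]) (.cons (.leaf 1 [(9,1),(6,1)]) (.cons (.leaf 1 [(9,1),(6,1)]) (.cons (.leaf 1 [(9,1)]) .nil))))))))))) (.cons (.keep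 [2,4,6,10,11] (.node (.cons (.leaf 1 [(7,1)]) (.cons (.leaf 1 [(7,1),(4,1)]) (.cons (.leaf 1 [(7,1),(4,1)]) (.cons (.leaf 1 [(7,1),(8,1),(5,1)]) (.cons (.leaf 1 [(7,1),(8,1)]) (.cons (.leaf 1 [(7,1),(8,1),(5,1)]) (.cons (.leaf 1 [(7,1),(8,1),(6,1)]) (.cons (.leaf 1 [(7,1),(8,1),(6,1)]) (.cons (.leaf 1 [(7,1),(8,1)]) .nil))))))))))) (.cons (.keep [3,4,5,10,11] (.node (.cons (.leaf 1 [(7,1),(9,1)]) (.cons (.leaf 1 [(7,1),(9,1),(4,1)]) (.cons (.leaf 1 [(7,1),(9,1),(4,1)]) (.cons (.leaf 1 [(7,1)]) (.cons (.leaf 1 [(7,1),(4,1)]) (.cons (.leaf 1 [(7,1),(4,1)]) (.cons (.leaf 1 [(7,1),(8,1),(6,1)]) (.cons (.leaf 1 [(4,1),(6,1),(7,1)]) (.cons (.leaf 1 [(7,1),(8,1)]) .nil))))))))))) (.cons (.keep [1,6,7,8,10,11] (.node (.cons (.leaf 1 [(10,1)]) (.cons (.leaf 1 [(10,1),(4,1)]) (.cons (.leaf 1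 [(10,1),(4,1)]) (.cons (.leaf 1 [(9,1),(5,1)]) (.cons (.leaf 1 [(9,1)]) (.cons (.leaf 1 [(9,1),(5,1)]) (.cons (.leaf 1 [(9,1),(6,1)]) (.cons (.leaf 1 [(9,1),(6,1)]) (.cons (.leaf 1 [(9,1)]) .nil))))))))))) (.cons (.keep [3,4,8,10,11] (.node (.cons (.leaf 1 [(9,1)]) (.cons (.leaf 1 [(9,1),(4,1)]) (.cons (.leaf 1 [(9,1),(4,1)]) (.cons (.leaf 1 [(7,1),(9,1)]) (.cons (.leaf 1 [(9,1),(7,1),(4,1)]) (.cons (.leaf 1 [(7,1),(9,1),(4,1)]) (.cons (.leaf 1 [(9,1),(8,1),(6,1)]) (.cons (.leaf 1 [(4,1),(7,1),(6,1),(9,1)]) (.cons (.leaf 1 [(9,1),(8,1)]) .nil))))))))))) (.cons (.keep [3,4,8,10,11] (.node (.cons (.leaf 1 [(9,1)]) (.cons (.leaf 1 [(9,1),(4,1)]) (.cons (.leaf 1 [(9,1),(4,1)]) (.cons (.leaf 1 [(7,1),(9,1)]) (.cons (.leaf 1 [(9,1),(7,1),(4,1)]) (.cons (.leaf 1 [(7,1),(9,1),(4,1)]) (.cons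 (.leaf 1 [(9,1),(7,1),(8,1),(6,1)]) (.cons (.leaf 1 [(4,1),(7,1),(6,1),(9,1)]) (.cons (.leaf 1 [(9,1),(7,1),(8,1)]) .nil))))))))))) (.cons (.keep [1,6,7,8,11] (.node (.cons (.leaf 1 [(10,1)]) (.cons (.leaf 1 [(10,1),(4,1)]) (.cons (.leaf 1 [(10,1),(4,1)]) (.cons (.leaf 1 [(9,1),(5,1)]) (.cons (.leaf 1 [(9,1)]) (.cons (.leaf 1 [(9,1),(5,1)]) (.cons (.leaf 1 [(9,1),(6,1)]) (.cons (.leaf 1 [(9,1),(6,1)]) (.cons (.leaf 1 [(9,1)]) .nil))))))))))) (.cons (.keep [2,4,6,8,10,11] (.node (.cons (.leaf 1 [(10,1)]) (.cons (.leaf 1 [(10,1),(4,1)]) (.cons (.leaf 1 [(10,1),(4,1)]) (.cons (.leaf 1 [(10,1),(8,1),(5,1)]) (.cons (.leaf 1 [(10,1),(8,1)]) (.cons (.leaf 1 [(9,1),(10,1),(4,1)]) (.cons (.leaf 1 [(10,1),(8,1),(6,1)]) (.cons (.leaf 1 [(4,1),(9,1),(6,1),(10,1)]) (.cons (.leaf 1 [(10,1),(8,1)])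 .nil))))))))))) (.cons (.keep [0,4,7,8,10] (.node (.cons (.leaf 1 [(10,1)]) (.cons (.leaf 1 [(10,1),(4,1)]) (.cons (.leaf 1 [(10,1),(4,1)]) (.cons (.leaf 1 [(9,1),(5,1)]) (.cons (.leaf 1 [(9,1)]) (.cons (.leaf 1 [(9,1),(5,1)]) (.cons (.leaf 1 [(9,1),(6,1)]) (.cons (.leaf 1 [(9,1),(6,1)]) (.cons (.leaf 1 [(9,1)]) .nil))))))))))) .nil))))))))))) (.cons (.keep [3,4,5,7,8] (.node (.cons (.keep [2,5,6,8,9,10] (.node (.cons (.leaf 1 []) (.cons (.leaf 1 [(4,1)]) (.cons (.leaf 1 [(4,1)]) (.cons (.leaf 1 [(10,1),(5,1)]) (.cons (.leaf 1 [(10,1)]) (.cons (.leaf 1 [(10,1),(5,1)]) (.cons (.leaf 1 [(10,1),(6,1)]) (.cons (.leaf 1 [(10,1),(6,1)]) (.cons (.leaf 1 [(10,1)]) .nil))))))))))) (.cons (.keep [2,4,6,9,10,11] (.node (.cons (.leaf 1 []) (.cons (.leaf 1 [(4,1)]) (.cons (.leaf 1 [(4,1)]) (.cons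 (.leaf 1 [(8,1),(5,1)]) (.cons (.leaf 1 [(8,1)]) (.cons (.leaf 1 [(8,1),(5,1)]) (.cons (.leaf 1 [(8,1),(6,1)]) (.cons (.leaf 1 [(8,1),(6,1)]) (.cons (.leaf 1 [(8,1)]) .nil))))))))))) (.cons (.keep [3,5,8,9,10,11] (.node (.cons (.leaf 1 []) (.cons (.leaf 1 [(4,1)]) (.cons (.leaf 1 [(4,1)]) (.cons (.leaf 1 [(9,1),(5,1)]) (.cons (.leaf 1 [(9,1)]) (.cons (.leaf 1 [(9,1),(5,1)]) (.cons (.leaf 1 [(9,1),(6,1)]) (.cons (.leaf 1 [(9,1),(6,1)]) (.cons (.leaf 1 [(9,1)]) .nil))))))))))) (.cons (.keep [1,5,6,8,10] (.node (.cons (.leaf 1 []) (.cons (.leaf 1 [(4,1)]) (.cons (.leaf 1 [(4,1)]) (.cons (.leaf 1 [(10,1),(5,1)]) (.cons (.leaf 1 [(10,1)]) (.cons (.leaf 1 [(10,1),(5,1)]) (.cons (.leaf 1 [(10,1),(6,1)]) (.cons (.leaf 1 [(10,1),(6,1)]) (.cons (.leaf 1 [(10,1)]) .nil))))))))))) (.cons (.keep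 [1,3,4,7,11] (.node (.cons (.leaf 1 []) (.cons (.leaf 1 [(4,1)]) (.cons (.leaf 1 [(4,1)]) (.cons (.leaf 1 [(8,1)]) (.cons (.leaf 1 [(8,1),(4,1)]) (.cons (.leaf 1 [(8,1),(4,1)]) (.cons (.leaf 1 [(9,1),(6,1)]) (.cons (.leaf 1 [(4,1),(6,1),(8,1)]) (.cons (.leaf 1 [(9,1)]) .nil))))))))))) (.cons (.keep [1,3,5,8,10,11] (.node (.cons (.leaf 1 []) (.cons (.leaf 1 [(4,1)]) (.cons (.leaf 1 [(4,1)]) (.cons (.leaf 1 [(8,1)]) (.cons (.leaf 1 [(8,1),(4,1)]) (.cons (.leaf 1 [(8,1),(4,1)]) (.cons (.leaf 1 [(10,1),(6,1)]) (.cons (.leaf 1 [(4,1),(6,1),(8,1)]) (.cons (.leaf 1 [(10,1)]) .nil))))))))))) (.cons (.keep [2,6,7,8,9] (.node (.cons (.leaf 1 []) (.cons (.leaf 1 [(4,1)]) (.cons (.leaf 1 [(4,1)]) (.cons (.leaf 1 [(10,1),(5,1)]) (.cons (.leaf 1 [(10,1)]) (.cons (.leaf 1 [(10,1),(5,1)]) (.cons (.leaf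 1 [(10,1),(6,1)]) (.cons (.leaf 1 [(10,1),(6,1)]) (.cons (.leaf 1 [(10,1)]) .nil))))))))))) (.cons (.keep [2,4,6,9,10,11] (.node (.cons (.leaf 1 []) (.cons (.leaf 1 [(4,1)]) (.cons (.leaf 1 [(4,1)]) (.cons (.leaf 1 [(8,1),(5,1)]) (.cons (.leaf 1 [(8,1)]) (.cons (.leaf 1 [(8,1),(5,1)]) (.cons (.leaf 1 [(8,1),(6,1)]) (.cons (.leaf 1 [(8,1),(6,1)]) (.cons (.leaf 1 [(8,1)]) .nil))))))))))) (.cons (.keep [0,4,8,9,11] (.node (.cons (.leaf 1 []) (.cons (.leaf 1 [(4,1)]) (.cons (.leaf 1 [(4,1)]) (.cons (.leaf 1 [(9,1),(5,1)]) (.cons (.leaf 1 [(9,1)]) (.cons (.leaf 1 [(9,1),(5,1)]) (.cons (.leaf 1 [(9,1),(6,1)]) (.cons (.leaf 1 [(9,1),(6,1)]) (.cons (.leaf 1 [(9,1)]) .nil))))))))))) .nil))))))))))) (.cons (.leaf 1 [(5,1)]) (.cons (.leaf 1 []) (.cons (.leaf 1 [(5,1)]) (.cons (.leaf 1 [(6,1)])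 (.cons (.leaf 1 [(6,1)]) (.cons (.leaf 1 []) .nil)))))))))))

theorem e_28_25 : ESB (caseOf 4 28 25) := esb_of_ok (t := t_28_25) (by decide +kernel)

def t_28_27 : T := (.keep [0,1,2] (.node (.cons (.keep [0,2,5,6,7,8] (.node (.cons (.leaf 1 [(5,1)]) (.cons (.keep [2,3,4,11] (.node (.cons (.leaf 1 [(8,1),(5,1)]) (.cons (.leaf 1 [(8,1)]) (.cons (.leaf 1 [(8,1),(5,1)]) (.cons (.leaf 1 [(8,1),(5,1)]) (.cons (.leaf 1 [(6,1)]) (.cons (.leaf 1 [(6,1)]) (.cons (.leaf 1 []) (.cons (.leaf 1 [(6,1)]) (.cons (.leaf 1 [(7,1)]) (.cons (.leaf 1 [(7,1)]) (.cons (.leaf 1 [(7,1)]) (.cons (.leaf 1 []) .nil)))))))))))))) (.cons (.leaf 1 [(11,1),(2,1),(5,1)]) (.cons (.leaf 1 [(11,1),(3,1),(5,1)]) (.cons (.leaf 1 [(5,1)]) (.cons (.keep [1,3,4,12] (.node (.cons (.leaf 1 [(11,1)]) (.cons (.leaf 1 [(4,1),(11,1)])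 (.cons (.leaf 1 [(11,1),(4,1)]) (.cons (.leaf 1 [(11,1),(4,1)]) (.cons (.leaf 1 [(6,1)]) (.cons (.leaf 1 [(6,1)]) (.cons (.leaf 1 []) (.cons (.leaf 1 [(6,1)]) (.cons (.leaf 1 [(7,1)]) (.cons (.leaf 1 [(7,1)]) (.cons (.leaf 1 [(7,1)]) (.cons (.leaf 1 []) .nil)))))))))))))) (.cons (.leaf 1 [(12,1),(5,1)]) (.cons (.leaf 1 [(12,1),(3,1),(5,1)]) (.cons (.leaf 1 [(5,1)]) (.cons (.keep [0,1,2,4,11,12] (.node (.cons (.leaf 1 [(6,1),(10,1)]) (.cons (.leaf 1 [(6,1),(10,1)]) (.cons (.leaf 1 [(10,1)]) (.cons (.leaf 1 [(10,1),(6,1)]) (.cons (.leaf 1 [(6,1)]) (.cons (.leaf 1 [(6,1)]) (.cons (.leaf 1 []) (.cons (.leaf 1 [(6,1)]) (.cons (.leaf 1 [(7,1)]) (.cons (.leaf 1 [(7,1)]) (.cons (.leaf 1 [(7,1)]) (.cons (.leaf 1 []) .nil)))))))))))))) (.cons (.leaf 1 [(12,1),(5,1)]) (.cons (.keep [0,5,11,12,13]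 (.node (.cons (.leaf 1 [(6,1),(9,1)]) (.cons (.leaf 1 [(6,1),(10,1),(9,1)]) (.cons (.leaf 2 [(11,1),(9,1)]) (.cons (.leaf 2 [(11,1),(9,1),(6,1)]) (.cons (.leaf 1 [(6,1)]) (.cons (.leaf 1 [(6,1)]) (.cons (.leaf 1 []) (.cons (.leaf 1 [(6,1)]) (.cons (.leaf 1 [(7,1)]) (.cons (.leaf 1 [(7,1)]) (.cons (.leaf 1 [(7,1)]) (.cons (.leaf 1 []) .nil)))))))))))))) .nil)))))))))))))) (.cons (.keep [4,6,7,8,9] (.node (.cons (.leaf 1 [(5,1),(8,1)]) (.cons (.leaf 1 [(9,1),(8,1)]) (.cons (.leaf 1 [(5,1),(2,1),(9,1)]) (.cons (.leaf 1 [(5,1),(3,1),(9,1)]) (.cons (.leaf 1 [(5,1),(8,1)]) (.cons (.leaf 1 [(10,1),(8,1)]) (.cons (.leaf 1 [(10,1),(5,1)]) (.cons (.leaf 1 [(5,1),(3,1),(10,1)]) (.cons (.leaf 1 [(5,1),(8,1)]) (.cons (.keep [0,8,9,10,11] (.node (.cons (.leaf 1 [(6,1),(9,2)]) (.cons (.leaf 1 [(6,1),(10,1),(9,1)])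 (.cons (.leaf 2 [(11,1),(9,2)]) (.cons (.leaf 2 [(11,1),(9,2),(6,1)]) (.cons (.leaf 1 [(6,1)]) (.cons (.leaf 1 [(4,1),(6,1)]) (.cons (.leaf 1 [(4,1)]) (.cons (.leaf 1 [(6,1),(4,1)]) (.cons (.leaf 1 [(9,1),(7,1)]) (.cons (.leaf 1 [(7,1),(9,1)]) (.cons (.leaf 1 [(4,1),(7,2)]) (.cons (.leaf 1 [(9,1)]) .nil)))))))))))))) (.cons (.leaf 1 [(10,1),(5,1)]) (.cons (.keep [0,5,9,10,11] (.node (.cons (.leaf 1 [(6,1),(9,1)]) (.cons (.leaf 1 [(6,1),(10,1),(9,1)]) (.cons (.leaf 2 [(11,1),(9,1)]) (.cons (.leaf 2 [(11,1),(9,1),(6,1)]) (.cons (.leaf 1 [(6,1)]) (.cons (.leaf 1 [(6,1)]) (.cons (.leaf 1 []) (.cons (.leaf 1 [(6,1)]) (.cons (.leaf 1 [(7,1)]) (.cons (.leaf 1 [(7,1)]) (.cons (.leaf 1 [(7,1)]) (.cons (.leaf 1 []) .nil)))))))))))))) .nil)))))))))))))) (.cons (.keep [4,5,7,9,10] (.node (.cons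 (.leaf 1 [(5,1),(8,1)]) (.cons (.keep [2,3,8,11,12] (.node (.cons (.leaf 1 [(8,1)]) (.cons (.leaf 1 [(4,1),(8,1)]) (.cons (.leaf 1 [(8,1),(4,1)]) (.cons (.leaf 1 [(8,1),(4,1)]) (.cons (.leaf 1 [(9,1)]) (.cons (.leaf 1 [(4,1),(6,1)]) (.cons (.leaf 1 [(9,1),(4,1)]) (.cons (.leaf 1 [(9,1),(4,1)]) (.cons (.leaf 1 [(10,1),(7,1)]) (.cons (.leaf 1 [(4,1),(7,1)]) (.cons (.leaf 1 [(4,1),(7,1),(9,1)]) (.cons (.leaf 1 [(10,1)]) .nil)))))))))))))) (.cons (.leaf 1 [(2,1),(5,1)]) (.cons (.leaf 1 [(3,1),(5,1)]) (.cons (.leaf 1 [(5,1),(8,1)]) (.cons (.keep [1,3,8,10,11,12] (.node (.cons (.leaf 1 [(11,1)]) (.cons (.leaf 1 [(4,1),(11,1)]) (.cons (.leaf 1 [(11,1),(4,1)]) (.cons (.leaf 1 [(11,1),(4,1)]) (.cons (.leaf 1 [(10,1),(6,1)]) (.cons (.leaf 1 [(4,1),(6,1)]) (.cons (.leaf 1 [(10,1)]) (.cons (.leaf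 1 [(10,1),(6,1)]) (.cons (.leaf 1 [(10,1),(7,1)]) (.cons (.leaf 1 [(4,1),(7,1)]) (.cons (.leaf 1 [(10,1),(7,1)]) (.cons (.leaf 1 [(10,1)]) .nil)))))))))))))) (.cons (.leaf 1 [(10,1),(5,1)]) (.cons (.leaf 1 [(10,1),(3,1),(5,1)]) (.cons (.leaf 1 [(5,1),(8,1)]) (.cons (.keep [1,8,9,10,11] (.node (.cons (.leaf 1 [(11,1)]) (.cons (.leaf 1 [(4,1),(11,1)]) (.cons (.leaf 1 [(11,1),(4,1)]) (.cons (.leaf 1 [(11,1),(4,1)]) (.cons (.leaf 1 [(9,1),(6,1)]) (.cons (.leaf 1 [(4,1),(6,1)]) (.cons (.leaf 1 [(9,1)]) (.cons (.leaf 1 [(9,1),(6,1)]) (.cons (.leaf 1 [(9,1),(7,1)]) (.cons (.leaf 1 [(4,1),(7,1)]) (.cons (.leaf 1 [(9,1),(7,1)]) (.cons (.leaf 1 [(9,1)]) .nil)))))))))))))) (.cons (.leaf 1 [(10,1),(5,1)]) (.cons (.keep [0,5,8,10,12] (.node (.cons (.leaf 1 [(10,1),(6,1),(9,1)]) (.cons (.leaf 1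 [(6,1),(9,1)]) (.cons (.leaf 2 [(10,1),(11,1),(9,1)]) (.cons (.leaf 2 [(10,1),(11,1),(9,1),(6,1)]) (.cons (.leaf 1 [(10,1),(6,1)]) (.cons (.leaf 1 [(4,1),(6,1)]) (.cons (.leaf 1 [(10,1)]) (.cons (.leaf 1 [(10,1),(6,1)]) (.cons (.leaf 1 [(10,1),(7,1)]) (.cons (.leaf 1 [(4,1),(7,1)]) (.cons (.leaf 1 [(10,1),(7,1)]) (.cons (.leaf 1 [(10,1)]) .nil)))))))))))))) .nil)))))))))))))) (.cons (.keep [3,4,5,6,9] (.node (.cons (.leaf 1 [(5,1),(9,1)]) (.cons (.keep [2,3,9,10,11,12] (.node (.cons (.leaf 1 []) (.cons (.leaf 1 [(4,1)]) (.cons (.leaf 1 [(4,1)]) (.cons (.leaf 1 [(4,1)]) (.cons (.leaf 1 [(10,1),(6,1)]) (.cons (.leaf 1 [(6,1),(10,1)]) (.cons (.leaf 1 [(10,1)]) (.cons (.leaf 1 [(10,1),(6,1)]) (.cons (.leaf 1 [(10,1),(7,1)]) (.cons (.leaf 1 [(7,1),(10,1)]) (.cons (.leaf 1 [(10,1),(7,1)])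 (.cons (.leaf 1 [(10,1)]) .nil)))))))))))))) (.cons (.leaf 1 [(5,1)]) (.cons (.leaf 1 [(3,1),(11,1),(5,1)]) (.cons (.leaf 1 [(5,1),(9,1)]) (.cons (.keep [1,3,6,9,12] (.node (.cons (.leaf 1 []) (.cons (.leaf 1 [(4,1)]) (.cons (.leaf 1 [(4,1)]) (.cons (.leaf 1 [(4,1)]) (.cons (.leaf 1 [(9,1)]) (.cons (.leaf 1 [(6,1),(4,1),(8,1)]) (.cons (.leaf 1 [(9,1),(4,1)]) (.cons (.leaf 1 [(9,1),(4,1)]) (.cons (.leaf 1 [(11,1),(7,1)]) (.cons (.leaf 1 [(7,1),(4,1),(8,1)]) (.cons (.leaf 1 [(4,1),(7,1),(9,1)]) (.cons (.leaf 1 [(11,1)]) .nil)))))))))))))) (.cons (.leaf 1 [(5,1)]) (.cons (.leaf 1 [(3,1),(5,1)]) (.cons (.leaf 1 [(5,1),(9,1)]) (.cons (.keep [2,9,10,11,12] (.node (.cons (.leaf 1 []) (.cons (.leaf 1 [(4,1)]) (.cons (.leaf 1 [(4,1)]) (.cons (.leaf 1 [(4,1)]) (.cons (.leaf 1 [(9,1),(6,1)])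 (.cons (.leaf 1 [(6,1),(9,1)]) (.cons (.leaf 1 [(9,1)]) (.cons (.leaf 1 [(9,1),(6,1)]) (.cons (.leaf 1 [(9,1),(7,1)]) (.cons (.leaf 1 [(7,1),(9,1)]) (.cons (.leaf 1 [(9,1),(7,1)]) (.cons (.leaf 1 [(9,1)]) .nil)))))))))))))) (.cons (.leaf 1 [(5,1)]) (.cons (.keep [0,5,8,9,11] (.node (.cons (.leaf 1 []) (.cons (.leaf 1 [(4,1)]) (.cons (.leaf 1 [(4,1)]) (.cons (.leaf 1 [(4,1)]) (.cons (.leaf 1 [(11,1),(6,1)]) (.cons (.leaf 1 [(6,1),(11,1)]) (.cons (.leaf 1 [(11,1)]) (.cons (.leaf 1 [(11,1),(6,1)]) (.cons (.leaf 1 [(11,1),(7,1)]) (.cons (.leaf 1 [(7,1),(11,1)]) (.cons (.leaf 1 [(11,1),(7,1)]) (.cons (.leaf 1 [(11,1)]) .nil)))))))))))))) .nil)))))))))))))) (.cons (.leaf 1 [(6,1)]) (.cons (.leaf 1 [(6,1)]) (.cons (.leaf 1 []) (.cons (.leaf 1 [(6,1)]) (.cons (.leaf 1 [(7,1)]) (.cons (.leaf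 1 [(7,1)]) (.cons (.leaf 1 [(7,1)]) (.cons (.leaf 1 []) .nil))))))))))))))

theorem e_28_27 : ESB (caseOf 4 28 27) := esb_of_ok (t := t_28_27) (by decide +kernel)

def t_28_28 : T := (.keep [0,1,2] (.node (.cons (.leaf 1 []) (.cons (.leaf 1 [(4,1)]) (.cons (.leaf 1 [(4,1)]) (.cons (.leaf 1 [(5,1)]) (.cons (.leaf 1 []) (.cons (.leaf 1 [(5,1)]) (.cons (.leaf 1 [(6,1)]) (.cons (.leaf 1 [(6,1)]) (.cons (.leaf 1 []) .nil)))))))))))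

theorem e_28_28 : ESB (caseOf 4 28 28) := esb_of_ok (t := t_28_28) (by decide +kernel)

def t_28_29 : T := (.keep [0,1,2] (.node (.cons (.leaf 1 [(5,1)]) (.cons (.leaf 1 []) (.cons (.leaf 1 [(5,1)]) (.cons (.leaf 1 [(5,1)]) (.cons (.leaf 1 [(6,1)]) (.cons (.leaf 1 [(6,1)]) (.cons (.leaf 1 []) (.cons (.leaf 1 [(6,1)]) (.cons (.leaf 1 [(7,1)]) (.cons (.leaf 1 [(7,1)]) (.cons (.leaf 1 [(7,1)]) (.cons (.leaf 1 []) .nil))))))))))))))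

theorem e_28_29 : ESB (caseOf 4 28 29) := esb_of_ok (t := t_28_29) (by decide +kernel)

def t_28_30 : T := (.keep [0,1,2] (.node (.cons (.leaf 1 [(5,1)]) (.cons (.leaf 1 []) (.cons (.leaf 1 [(5,1)]) (.cons (.leaf 1 [(5,1)]) (.cons (.leaf 1 [(6,1)]) (.cons (.leaf 1 [(6,1)]) (.cons (.leaf 1 []) (.cons (.leaf 1 [(6,1)]) (.cons (.leaf 1 [(7,1)]) (.cons (.leaf 1 [(7,1)]) (.cons (.leaf 1 [(7,1)]) (.cons (.leaf 1 []) .nil))))))))))))))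

theorem e_28_30 : ESB (caseOf 4 28 30) := esb_of_ok (t := t_28_30) (by decide +kernel)

def t_28_31 : T := (.keep [0,1,2] (.node (.cons (.leaf 1 [(6,1)]) (.cons (.leaf 1 [(6,1)]) (.cons (.leaf 1 []) (.cons (.leaf 1 [(6,1)]) (.cons (.leaf 1 [(6,1)]) (.cons (.leaf 1 [(7,1)]) (.cons (.leaf 1 [(7,1)]) (.cons (.leaf 1 [(7,1)]) (.cons (.leaf 1 []) (.cons (.leaf 1 [(7,1)]) (.cons (.leaf 1 [(8,1)]) (.cons (.leaf 1 [(8,1)]) (.cons (.leaf 1 [(8,1)]) (.cons (.leaf 1 [(8,1)]) (.cons (.leaf 1 []) .nil)))))))))))))))))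

theorem e_28_31 : ESB (caseOf 4 28 31) := esb_of_ok (t := t_28_31) (by decide +kernel)

def ks : List (ℕ × ℕ) := [(26, 25), (26, 26), (26, 27), (26, 28), (26, 29), (26, 30), (26, 31),
  (27, 25), (27, 26), (27, 27), (27, 28), (27, 29), (27, 30), (27, 31), (28, 25), (28, 27), (28,
  28), (28, 29), (28, 30), (28, 31)]

theorem ks_ok : ∀ p ∈ ks, ESB (caseOf 4 p.1 p.2) := ks_cons e_26_25 <| ks_cons e_26_26 <| ks_cons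
  e_26_27 <| ks_cons e_26_28 <| ks_cons e_26_29 <| ks_cons e_26_30 <| ks_cons e_26_31 <| ks_cons
  e_27_25 <| ks_cons e_27_26 <| ks_cons e_27_27 <| ks_cons e_27_28 <| ks_cons e_27_29 <| ks_cons
  e_27_30 <| ks_cons e_27_31 <| ks_cons e_28_25 <| ks_cons e_28_27 <| ks_cons e_28_28 <| ks_cons
  e_28_29 <| ks_cons e_28_30 <| ks_cons e_28_31 <| ks_nil

end Pool.Agent.H4.RD4.E22
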