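import Pool.Agent.H4.RD4.Chk

/-! # Certificates for special cases of order four -/

set_option maxRecDepth 20000

namespace Pool.Agent.H4.RD4.E23

open Pool.Agent.H50.Rdb
open Pool.Agent.H81.RDE (ESB caseOf)

def t_29_25 : T := (.keep [0,1,2] (.node (.cons (.leaf 1 []) (.cons (.leaf 1 [(5,1)]) (.cons (.leaf 1 [(5,1)]) (.cons (.keep [1,6,7,8] (.node (.cons (.keep [2,3,4,8] (.node (.cons (.leaf 1 []) (.cons (.leaf 1 [(5,1)]) (.cons (.leaf 1 [(5,1)]) (.cons (.leaf 1 [(9,1)]) (.cons (.leaf 1 [(9,1),(5,1)]) (.cons (.leaf 1 [(9,1),(5,1)]) (.cons (.leaf 1 [(6,1)]) (.cons (.leaf 1 []) (.cons (.leaf 1 [(6,1)]) (.cons (.leaf 1 [(7,1)]) (.cons (.leaf 1 [(7,1)]) (.cons (.leaf 1 []) .nil)))))))))))))) (.cons (.keep [2,3,5,7,11] (.node (.cons (.leaf 1 []) (.cons (.leaf 1 [(5,1)]) (.cons (.leaf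 1 [(5,1)]) (.cons (.leaf 1 [(9,1)]) (.cons (.leaf 1 [(9,1),(5,1)]) (.cons (.leaf 1 [(9,1),(5,1)]) (.cons (.leaf 1 [(6,1)]) (.cons (.leaf 1 []) (.cons (.leaf 1 [(6,1)]) (.cons (.leaf 1 [(7,1)]) (.cons (.leaf 1 [(7,1)]) (.cons (.leaf 1 []) .nil)))))))))))))) (.cons (.keep [2,4,5,6,11] (.node (.cons (.leaf 1 []) (.cons (.leaf 1 [(5,1)]) (.cons (.leaf 1 [(5,1)]) (.cons (.leaf 1 [(6,1),(11,1)]) (.cons (.leaf 1 [(11,1)]) (.cons (.leaf 1 [(11,1),(6,1)]) (.cons (.leaf 1 [(6,1)]) (.cons (.leaf 1 []) (.cons (.leaf 1 [(6,1)]) (.cons (.leaf 1 [(7,1)]) (.cons (.leaf 1 [(7,1)]) (.cons (.leaf 1 []) .nil)))))))))))))) (.cons (.keep [1,6,7,9,11] (.node (.cons (.leaf 1 []) (.cons (.leaf 1 [(5,1)]) (.cons (.leaf 1 [(5,1)]) (.cons (.leaf 1 [(9,1)]) (.cons (.leaf 1 [(9,1),(5,1)]) (.cons (.leaf 1 [(9,1),(5,1)])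 (.cons (.leaf 1 [(6,1)]) (.cons (.leaf 1 []) (.cons (.leaf 1 [(6,1)]) (.cons (.leaf 1 [(7,1)]) (.cons (.leaf 1 [(7,1)]) (.cons (.leaf 1 []) .nil)))))))))))))) (.cons (.keep [3,5,7,9,11] (.node (.cons (.leaf 1 []) (.cons (.leaf 1 [(5,1)]) (.cons (.leaf 1 [(5,1)]) (.cons (.leaf 1 [(8,1),(11,1)]) (.cons (.leaf 1 [(8,1),(11,1),(5,1)]) (.cons (.leaf 1 [(8,1),(11,1),(5,1)]) (.cons (.leaf 1 [(6,1)]) (.cons (.leaf 1 []) (.cons (.leaf 1 [(6,1)]) (.cons (.leaf 1 [(7,1)]) (.cons (.leaf 1 [(7,1)]) (.cons (.leaf 1 []) .nil)))))))))))))) (.cons (.keep [4,5,9,10,11] (.node (.cons (.leaf 1 []) (.cons (.leaf 1 [(5,1)]) (.cons (.leaf 1 [(5,1)]) (.cons (.leaf 1 [(11,1)]) (.cons (.leaf 1 [(11,1),(5,1)]) (.cons (.leaf 1 [(11,1),(5,1)]) (.cons (.leaf 1 [(6,1)]) (.cons (.leaf 1 []) (.cons (.leaf 1 [(6,1)])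 (.cons (.leaf 1 [(7,1)]) (.cons (.leaf 1 [(7,1)]) (.cons (.leaf 1 []) .nil)))))))))))))) (.cons (.keep [1,6,7,9,11] (.node (.cons (.leaf 1 []) (.cons (.leaf 1 [(5,1)]) (.cons (.leaf 1 [(5,1)]) (.cons (.leaf 1 [(9,1)]) (.cons (.leaf 1 [(9,1),(5,1)]) (.cons (.leaf 1 [(9,1),(5,1)]) (.cons (.leaf 1 [(6,1)]) (.cons (.leaf 1 []) (.cons (.leaf 1 [(6,1)]) (.cons (.leaf 1 [(7,1)]) (.cons (.leaf 1 [(7,1)]) (.cons (.leaf 1 []) .nil)))))))))))))) (.cons (.keep [1,4,8,9,10] (.node (.cons (.leaf 1 []) (.cons (.leaf 1 [(5,1)]) (.cons (.leaf 1 [(5,1)]) (.cons (.leaf 1 [(12,1)]) (.cons (.leaf 1 [(12,1),(5,1)]) (.cons (.leaf 1 [(12,1),(5,1)]) (.cons (.leaf 1 [(6,1)]) (.cons (.leaf 1 []) (.cons (.leaf 1 [(6,1)]) (.cons (.leaf 1 [(7,1)]) (.cons (.leaf 1 [(7,1)]) (.cons (.leaf 1 []) .nil))))))))))))))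 (.cons (.keep [4,5,9,10,11] (.node (.cons (.leaf 1 []) (.cons (.leaf 1 [(5,1)]) (.cons (.leaf 1 [(5,1)]) (.cons (.leaf 1 [(11,1)]) (.cons (.leaf 1 [(11,1),(5,1)]) (.cons (.leaf 1 [(11,1),(5,1)]) (.cons (.leaf 1 [(6,1)]) (.cons (.leaf 1 []) (.cons (.leaf 1 [(6,1)]) (.cons (.leaf 1 [(7,1)]) (.cons (.leaf 1 [(7,1)]) (.cons (.leaf 1 []) .nil)))))))))))))) (.cons (.keep [1,6,7,8,9] (.node (.cons (.leaf 1 []) (.cons (.leaf 1 [(5,1)]) (.cons (.leaf 1 [(5,1)]) (.cons (.leaf 1 [(9,1)]) (.cons (.leaf 1 [(9,1),(5,1)]) (.cons (.leaf 1 [(9,1),(5,1)]) (.cons (.leaf 1 [(6,1)]) (.cons (.leaf 1 []) (.cons (.leaf 1 [(6,1)]) (.cons (.leaf 1 [(7,1)]) (.cons (.leaf 1 [(7,1)]) (.cons (.leaf 1 []) .nil)))))))))))))) (.cons (.keep [3,5,7,9,10,11] (.node (.cons (.leaf 1 []) (.cons (.leaf 1 [(5,1)]) (.cons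 (.leaf 1 [(5,1)]) (.cons (.leaf 1 [(6,1),(8,1)]) (.cons (.leaf 1 [(8,1)]) (.cons (.leaf 1 [(8,1),(6,1)]) (.cons (.leaf 1 [(6,1)]) (.cons (.leaf 1 []) (.cons (.leaf 1 [(6,1)]) (.cons (.leaf 1 [(7,1)]) (.cons (.leaf 1 [(7,1)]) (.cons (.leaf 1 []) .nil)))))))))))))) (.cons (.keep [0,1,9,10] (.node (.cons (.leaf 1 []) (.cons (.leaf 1 [(5,1)]) (.cons (.leaf 1 [(5,1)]) (.cons (.leaf 1 [(11,1)]) (.cons (.leaf 1 [(11,1),(5,1)]) (.cons (.leaf 1 [(11,1),(5,1)]) (.cons (.leaf 1 [(6,1)]) (.cons (.leaf 1 []) (.cons (.leaf 1 [(6,1)]) (.cons (.leaf 1 [(7,1)]) (.cons (.leaf 1 [(7,1)]) (.cons (.leaf 1 []) .nil)))))))))))))) .nil)))))))))))))) (.cons (.keep [5,7,8,9,10] (.node (.cons (.keep [2,4,8,9,12] (.node (.cons (.leaf 1 [(10,1)]) (.cons (.leaf 1 [(10,1),(5,1)]) (.cons (.leaf 1 [(10,1),(5,1)])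 (.cons (.leaf 1 [(11,1)]) (.cons (.leaf 1 [(11,1),(5,1)]) (.cons (.leaf 1 [(11,1),(5,1)]) (.cons (.leaf 1 [(10,1),(6,1)]) (.cons (.leaf 1 [(10,1)]) (.cons (.leaf 1 [(10,1),(6,1)]) (.cons (.leaf 1 [(10,1),(7,1)]) (.cons (.leaf 1 [(10,1),(7,1)]) (.cons (.leaf 1 [(10,1)]) .nil)))))))))))))) (.cons (.keep [2,5,7,9,12] (.node (.cons (.leaf 1 [(11,1),(9,1)]) (.cons (.leaf 1 [(11,1),(9,1),(5,1)]) (.cons (.leaf 1 [(11,1),(9,1),(5,1)]) (.cons (.leaf 1 [(11,1)]) (.cons (.leaf 1 [(11,1),(5,1)]) (.cons (.leaf 1 [(11,1),(5,1)]) (.cons (.leaf 1 [(11,1),(9,1),(6,1)]) (.cons (.leaf 1 [(11,1),(9,1)]) (.cons (.leaf 1 [(1,1),(10,1),(11,1),(6,1)]) (.cons (.leaf 1 [(11,1),(9,1),(7,1)]) (.cons (.leaf 1 [(1,1),(10,1),(7,2),(11,1)]) (.cons (.leaf 1 [(11,1),(9,1)]) .nil)))))))))))))) (.cons (.keep [2,4,5,8,9,12]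 (.node (.cons (.leaf 1 [(11,1)]) (.cons (.leaf 1 [(11,1),(5,1)]) (.cons (.leaf 1 [(11,1),(5,1)]) (.cons (.leaf 1 [(12,1)]) (.cons (.leaf 1 [(12,1),(5,1)]) (.cons (.leaf 1 [(12,1),(5,1)]) (.cons (.leaf 1 [(11,1),(6,1)]) (.cons (.leaf 1 [(11,1)]) (.cons (.leaf 1 [(11,1),(6,1)]) (.cons (.leaf 1 [(11,1),(7,1)]) (.cons (.leaf 1 [(11,1),(7,1)]) (.cons (.leaf 1 [(11,1)]) .nil)))))))))))))) (.cons (.keep [1,6,7,10,11] (.node (.cons (.leaf 1 [(8,1)]) (.cons (.leaf 1 [(8,1),(5,1)]) (.cons (.leaf 1 [(8,1),(5,1)]) (.cons (.leaf 1 [(8,1),(9,1)]) (.cons (.leaf 1 [(8,1),(9,1),(5,1)]) (.cons (.leaf 1 [(8,1),(9,1),(5,1)]) (.cons (.leaf 1 [(8,1),(6,1)]) (.cons (.leaf 1 [(8,1)]) (.cons (.leaf 1 [(8,1),(6,1)]) (.cons (.leaf 1 [(8,1),(7,1)]) (.cons (.leaf 1 [(8,1),(7,1)]) (.cons (.leaf 1 [(8,1)]) .nil))))))))))))))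 (.cons (.keep [3,5,7,11,12] (.node (.cons (.leaf 1 [(8,1),(9,1)]) (.cons (.leaf 1 [(8,1),(9,1),(5,1)]) (.cons (.leaf 1 [(8,1),(9,1),(5,1)]) (.cons (.leaf 1 [(8,1)]) (.cons (.leaf 1 [(8,1),(5,1)]) (.cons (.leaf 1 [(8,1),(5,1)]) (.cons (.leaf 1 [(8,1),(9,1),(6,1)]) (.cons (.leaf 1 [(8,1),(9,1)]) (.cons (.leaf 1 [(8,1),(9,1),(6,1)]) (.cons (.leaf 1 [(8,1),(9,1),(7,1)]) (.cons (.leaf 1 [(8,1),(9,1),(7,1)]) (.cons (.leaf 1 [(8,1),(9,1)]) .nil)))))))))))))) (.cons (.keep [4,5,6,11,12] (.node (.cons (.leaf 1 [(8,1),(9,1)]) (.cons (.leaf 1 [(8,1),(5,2)]) (.cons (.leaf 1 [(8,1),(9,1),(5,1)]) (.cons (.leaf 1 [(8,1),(10,1)]) (.cons (.leaf 1 [(8,1),(10,1),(5,1)]) (.cons (.leaf 1 [(8,1),(10,1),(5,1)]) (.cons (.leaf 1 [(8,1)]) (.cons (.leaf 1 [(8,1),(1,1)]) (.cons (.leaf 1 [(1,1),(8,1),(6,1)])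 (.cons (.leaf 1 [(8,1),(9,1),(7,1)]) (.cons (.leaf 1 [(1,1),(7,2),(8,1)]) (.cons (.leaf 1 [(8,1),(9,1)]) .nil)))))))))))))) (.cons (.keep [2,7,8,9,11,12] (.node (.cons (.leaf 1 [(10,1)]) (.cons (.leaf 1 [(10,1),(5,1)]) (.cons (.leaf 1 [(10,1),(5,1)]) (.cons (.leaf 1 [(11,1)]) (.cons (.leaf 1 [(11,1),(5,1)]) (.cons (.leaf 1 [(11,1),(5,1)]) (.cons (.leaf 1 [(10,1),(6,1)]) (.cons (.leaf 1 [(10,1)]) (.cons (.leaf 1 [(10,1),(6,1)]) (.cons (.leaf 1 [(10,1),(7,1)]) (.cons (.leaf 1 [(10,1),(7,1)]) (.cons (.leaf 1 [(10,1)]) .nil)))))))))))))) (.cons (.keep [2,4,8,9,11,12] (.node (.cons (.leaf 1 [(10,1)]) (.cons (.leaf 1 [(10,1),(5,1)]) (.cons (.leaf 1 [(10,1),(5,1)]) (.cons (.leaf 1 [(11,1)]) (.cons (.leaf 1 [(11,1),(5,1)]) (.cons (.leaf 1 [(11,1),(5,1)]) (.cons (.leaf 1 [(10,1),(6,1)]) (.cons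 (.leaf 1 [(10,1)]) (.cons (.leaf 1 [(10,1),(6,1)]) (.cons (.leaf 1 [(10,1),(7,1)]) (.cons (.leaf 1 [(10,1),(7,1)]) (.cons (.leaf 1 [(10,1)]) .nil)))))))))))))) (.cons (.keep [4,5,9,11,12] (.node (.cons (.leaf 1 [(10,1),(8,1),(9,1)]) (.cons (.leaf 1 [(10,1),(8,1),(5,2)]) (.cons (.leaf 1 [(10,1),(8,1),(9,1),(5,1)]) (.cons (.leaf 1 [(10,1)]) (.cons (.leaf 1 [(10,1),(5,1)]) (.cons (.leaf 1 [(10,1),(5,1)]) (.cons (.leaf 1 [(8,1),(10,1)]) (.cons (.leaf 1 [(10,1),(8,1),(1,1)]) (.cons (.leaf 1 [(1,1),(8,1),(10,1),(6,1)]) (.cons (.leaf 1 [(10,1),(8,1),(9,1),(7,1)]) (.cons (.leaf 1 [(1,1),(8,1),(7,2),(10,1)]) (.cons (.leaf 1 [(10,1),(8,1),(9,1)]) .nil)))))))))))))) (.cons (.keep [2,7,8,9,12] (.node (.cons (.leaf 1 [(10,1)]) (.cons (.leaf 1 [(10,1),(5,1)]) (.cons (.leaf 1 [(10,1),(5,1)]) (.cons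 (.leaf 1 [(11,1)]) (.cons (.leaf 1 [(11,1),(5,1)]) (.cons (.leaf 1 [(11,1),(5,1)]) (.cons (.leaf 1 [(10,1),(6,1)]) (.cons (.leaf 1 [(10,1)]) (.cons (.leaf 1 [(10,1),(6,1)]) (.cons (.leaf 1 [(10,1),(7,1)]) (.cons (.leaf 1 [(10,1),(7,1)]) (.cons (.leaf 1 [(10,1)]) .nil)))))))))))))) (.cons (.keep [3,5,7,9,11,12] (.node (.cons (.leaf 1 [(11,1),(9,1)]) (.cons (.leaf 1 [(11,1),(9,1),(5,1)]) (.cons (.leaf 1 [(11,1),(9,1),(5,1)]) (.cons (.leaf 1 [(11,1)]) (.cons (.leaf 1 [(1,1),(11,1),(8,1)]) (.cons (.leaf 1 [(1,1),(11,1),(8,1),(6,1)]) (.cons (.leaf 1 [(11,1),(9,1),(6,1)]) (.cons (.leaf 1 [(11,1),(9,1)]) (.cons (.leaf 1 [(1,1),(10,1),(11,1),(6,1)]) (.cons (.leaf 1 [(11,1),(9,1),(7,1)]) (.cons (.leaf 1 [(1,1),(10,1),(7,2),(11,1)]) (.cons (.leaf 1 [(11,1),(9,1)]) .nil)))))))))))))) (.cons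 (.keep [0,2,8,9,11] (.node (.cons (.leaf 1 [(10,1)]) (.cons (.leaf 1 [(10,1),(5,1)]) (.cons (.leaf 1 [(10,1),(5,1)]) (.cons (.leaf 1 [(11,1)]) (.cons (.leaf 1 [(11,1),(5,1)]) (.cons (.leaf 1 [(11,1),(5,1)]) (.cons (.leaf 1 [(10,1),(6,1)]) (.cons (.leaf 1 [(10,1)]) (.cons (.leaf 1 [(10,1),(6,1)]) (.cons (.leaf 1 [(10,1),(7,1)]) (.cons (.leaf 1 [(10,1),(7,1)]) (.cons (.leaf 1 [(10,1)]) .nil)))))))))))))) .nil)))))))))))))) (.cons (.keep [4,5,6,8,9] (.node (.cons (.keep [3,4,8,9,10] (.node (.cons (.leaf 1 [(11,1)]) (.cons (.leaf 1 [(11,1),(5,1)]) (.cons (.leaf 1 [(11,1),(5,1)]) (.cons (.leaf 1 []) (.cons (.leaf 1 [(5,1)]) (.cons (.leaf 1 [(5,1)]) (.cons (.leaf 1 [(11,1),(6,1)]) (.cons (.leaf 1 [(11,1)]) (.cons (.leaf 1 [(11,1),(6,1)]) (.cons (.leaf 1 [(11,1),(7,1)]) (.cons (.leaf 1 [(11,1),(7,1)])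 (.cons (.leaf 1 [(11,1)]) .nil)))))))))))))) (.cons (.keep [3,5,7,10,11] (.node (.cons (.leaf 1 [(9,1)]) (.cons (.leaf 1 [(9,1),(5,1)]) (.cons (.leaf 1 [(9,1),(5,1)]) (.cons (.leaf 1 []) (.cons (.leaf 1 [(5,1)]) (.cons (.leaf 1 [(5,1)]) (.cons (.leaf 1 [(9,1),(6,1)]) (.cons (.leaf 1 [(9,1)]) (.cons (.leaf 1 [(9,1),(6,1)]) (.cons (.leaf 1 [(9,1),(7,1)]) (.cons (.leaf 1 [(9,1),(7,1)]) (.cons (.leaf 1 [(9,1)]) .nil)))))))))))))) (.cons (.keep [4,6,9,10,11] (.node (.cons (.leaf 1 [(10,1)]) (.cons (.leaf 1 [(10,1),(5,1)]) (.cons (.leaf 1 [(10,1),(5,1)]) (.cons (.leaf 1 []) (.cons (.leaf 1 [(5,1)]) (.cons (.leaf 1 [(5,1)]) (.cons (.leaf 1 [(10,1),(6,1)]) (.cons (.leaf 1 [(10,1)]) (.cons (.leaf 1 [(10,1),(6,1)]) (.cons (.leaf 1 [(10,1),(7,1)]) (.cons (.leaf 1 [(10,1),(7,1)]) (.cons (.leaf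 1 [(10,1)]) .nil)))))))))))))) (.cons (.keep [3,6,7,9,10,11] (.node (.cons (.leaf 1 [(11,1)]) (.cons (.leaf 1 [(11,1),(5,1)]) (.cons (.leaf 1 [(11,1),(5,1)]) (.cons (.leaf 1 []) (.cons (.leaf 1 [(5,1)]) (.cons (.leaf 1 [(5,1)]) (.cons (.leaf 1 [(11,1),(6,1)]) (.cons (.leaf 1 [(11,1)]) (.cons (.leaf 1 [(11,1),(6,1)]) (.cons (.leaf 1 [(11,1),(7,1)]) (.cons (.leaf 1 [(11,1),(7,1)]) (.cons (.leaf 1 [(11,1)]) .nil)))))))))))))) (.cons (.keep [3,5,7,10,11,12] (.node (.cons (.leaf 1 [(9,1)]) (.cons (.leaf 1 [(9,1),(5,1)]) (.cons (.leaf 1 [(9,1),(5,1)]) (.cons (.leaf 1 []) (.cons (.leaf 1 [(5,1)]) (.cons (.leaf 1 [(5,1)]) (.cons (.leaf 1 [(9,1),(6,1)]) (.cons (.leaf 1 [(9,1)]) (.cons (.leaf 1 [(9,1),(6,1)]) (.cons (.leaf 1 [(9,1),(7,1)]) (.cons (.leaf 1 [(9,1),(7,1)]) (.cons (.leaf 1 [(9,1)])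 .nil)))))))))))))) (.cons (.keep [4,6,9,10,11,12] (.node (.cons (.leaf 1 [(10,1)]) (.cons (.leaf 1 [(10,1),(5,1)]) (.cons (.leaf 1 [(10,1),(5,1)]) (.cons (.leaf 1 []) (.cons (.leaf 1 [(5,1)]) (.cons (.leaf 1 [(5,1)]) (.cons (.leaf 1 [(10,1),(6,1)]) (.cons (.leaf 1 [(10,1)]) (.cons (.leaf 1 [(10,1),(6,1)]) (.cons (.leaf 1 [(10,1),(7,1)]) (.cons (.leaf 1 [(10,1),(7,1)]) (.cons (.leaf 1 [(10,1)]) .nil)))))))))))))) (.cons (.keep [1,2,6,7,11] (.node (.cons (.leaf 1 [(8,1)]) (.cons (.leaf 1 [(8,1),(5,1)]) (.cons (.leaf 1 [(8,1),(5,1)]) (.cons (.leaf 1 []) (.cons (.leaf 1 [(5,1)]) (.cons (.leaf 1 [(5,1)]) (.cons (.leaf 1 [(8,1),(6,1)]) (.cons (.leaf 1 [(8,1)]) (.cons (.leaf 1 [(8,1),(6,1)]) (.cons (.leaf 1 [(8,1),(7,1)]) (.cons (.leaf 1 [(8,1),(7,1)]) (.cons (.leaf 1 [(8,1)]) .nil))))))))))))))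 (.cons (.keep [1,2,4,8,12] (.node (.cons (.leaf 1 [(8,1)]) (.cons (.leaf 1 [(8,1),(5,1)]) (.cons (.leaf 1 [(8,1),(5,1)]) (.cons (.leaf 1 []) (.cons (.leaf 1 [(5,1)]) (.cons (.leaf 1 [(5,1)]) (.cons (.leaf 1 [(8,1),(6,1)]) (.cons (.leaf 1 [(8,1)]) (.cons (.leaf 1 [(8,1),(6,1)]) (.cons (.leaf 1 [(8,1),(7,1)]) (.cons (.leaf 1 [(8,1),(7,1)]) (.cons (.leaf 1 [(8,1)]) .nil)))))))))))))) (.cons (.keep [2,4,5,11,12] (.node (.cons (.leaf 1 [(9,1),(10,1)]) (.cons (.leaf 1 [(9,1),(5,2)]) (.cons (.leaf 1 [(9,1),(10,1),(5,1)]) (.cons (.leaf 1 []) (.cons (.leaf 1 [(5,1)]) (.cons (.leaf 1 [(5,1)]) (.cons (.leaf 1 [(9,1)]) (.cons (.leaf 1 [(9,1),(1,1)]) (.cons (.leaf 1 [(1,1),(9,1),(6,1)]) (.cons (.leaf 1 [(9,1),(10,1),(7,1)]) (.cons (.leaf 1 [(1,1),(7,2),(9,1)]) (.cons (.leaf 1 [(9,1),(10,1)]) .nil))))))))))))))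 (.cons (.keep [3,7,8,9,10] (.node (.cons (.leaf 1 [(11,1)]) (.cons (.leaf 1 [(11,1),(5,1)]) (.cons (.leaf 1 [(11,1),(5,1)]) (.cons (.leaf 1 []) (.cons (.leaf 1 [(5,1)]) (.cons (.leaf 1 [(5,1)]) (.cons (.leaf 1 [(11,1),(6,1)]) (.cons (.leaf 1 [(11,1)]) (.cons (.leaf 1 [(11,1),(6,1)]) (.cons (.leaf 1 [(11,1),(7,1)]) (.cons (.leaf 1 [(11,1),(7,1)]) (.cons (.leaf 1 [(11,1)]) .nil)))))))))))))) (.cons (.keep [3,5,7,10,11,12] (.node (.cons (.leaf 1 [(9,1)]) (.cons (.leaf 1 [(9,1),(5,1)]) (.cons (.leaf 1 [(9,1),(5,1)]) (.cons (.leaf 1 []) (.cons (.leaf 1 [(5,1)]) (.cons (.leaf 1 [(5,1)]) (.cons (.leaf 1 [(9,1),(6,1)]) (.cons (.leaf 1 [(9,1)]) (.cons (.leaf 1 [(9,1),(6,1)]) (.cons (.leaf 1 [(9,1),(7,1)]) (.cons (.leaf 1 [(9,1),(7,1)]) (.cons (.leaf 1 [(9,1)]) .nil)))))))))))))) (.cons (.keep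 [0,3,9,10,12] (.node (.cons (.leaf 1 [(10,1)]) (.cons (.leaf 1 [(10,1),(5,1)]) (.cons (.leaf 1 [(10,1),(5,1)]) (.cons (.leaf 1 []) (.cons (.leaf 1 [(5,1)]) (.cons (.leaf 1 [(5,1)]) (.cons (.leaf 1 [(10,1),(6,1)]) (.cons (.leaf 1 [(10,1)]) (.cons (.leaf 1 [(10,1),(6,1)]) (.cons (.leaf 1 [(10,1),(7,1)]) (.cons (.leaf 1 [(10,1),(7,1)]) (.cons (.leaf 1 [(10,1)]) .nil)))))))))))))) .nil)))))))))))))) (.cons (.leaf 1 [(6,1)]) (.cons (.leaf 1 []) (.cons (.leaf 1 [(6,1)]) (.cons (.leaf 1 [(7,1)]) (.cons (.leaf 1 [(7,1)]) (.cons (.leaf 1 []) .nil))))))))))))))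

theorem e_29_25 : ESB (caseOf 4 29 25) := esb_of_ok (t := t_29_25) (by decide +kernel)

def t_29_26 : T := (.keep [0,1,2] (.node (.cons (.keep [2,6,7,8] (.node (.cons (.leaf 1 [(8,1)]) (.cons (.leaf 1 [(3,1)]) (.cons (.leaf 1 [(4,1)]) (.cons (.leaf 1 [(8,1),(1,1)]) (.cons (.leaf 1 [(3,1)]) (.cons (.leaf 1 [(4,1)]) (.cons (.leaf 1 [(8,1),(1,1)]) (.cons (.leaf 1 []) (.cons (.leaf 1 [(4,1)]) (.cons (.leaf 1 [(8,1),(1,1)]) (.cons (.leaf 1 [(3,1)]) (.cons (.leaf 1 []) .nil)))))))))))))) (.cons (.keep [2,3,5,7] (.node (.cons (.leaf 1 [(10,1),(8,1)]) (.cons (.leaf 1 [(3,1),(10,1)]) (.cons (.leaf 1 [(4,1),(10,1)]) (.cons (.leaf 1 [(1,1)]) (.cons (.leaf 1 [(1,1)]) (.cons (.leaf 1 [(1,1)]) (.cons (.leaf 1 [(10,1),(8,1),(1,1)]) (.cons (.leaf 1 [(10,1)]) (.cons (.leaf 1 [(4,1),(10,1)]) (.cons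 (.leaf 1 [(10,1),(8,1),(1,1)]) (.cons (.leaf 1 [(3,1),(10,1)]) (.cons (.leaf 1 [(10,1)]) .nil)))))))))))))) (.cons (.keep [0,2,5,6] (.node (.cons (.leaf 1 [(10,1),(9,1)]) (.cons (.leaf 2 [(10,1)]) (.cons (.leaf 1 [(4,1),(10,1)]) (.cons (.leaf 1 [(10,1),(1,1),(9,1)]) (.cons (.leaf 2 [(1,1),(10,1)]) (.cons (.leaf 1 [(4,1),(10,1)]) (.cons (.leaf 1 [(1,1)]) (.cons (.leaf 1 [(1,1)]) (.cons (.leaf 1 [(1,1)]) (.cons (.leaf 1 [(10,1),(9,1),(1,1)]) (.cons (.leaf 1 [(7,1),(1,1)]) (.cons (.leaf 1 [(10,1)]) .nil)))))))))))))) (.cons (.keep [1,6,7,9] (.node (.cons (.keep [4,8,9,10] (.node (.cons (.keep [6,7,9,11] (.node (.cons (.leaf 1 [(11,1)]) (.cons (.leaf 1 [(3,2)]) (.cons (.leaf 1 [(4,2)]) (.cons (.leaf 1 [(8,2),(1,2)]) (.cons (.leaf 1 [(3,2)]) (.cons (.leaf 1 [(4,2)]) (.cons (.leaf 1 [(9,2),(1,2)])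 (.cons (.leaf 1 []) (.cons (.leaf 1 [(4,2)]) (.cons (.leaf 1 [(11,1),(1,1)]) (.cons (.leaf 1 [(3,2)]) (.cons (.leaf 1 []) .nil)))))))))))))) (.cons (.keep [3,5,7,11] (.node (.cons (.leaf 1 [(9,1),(11,1)]) (.cons (.leaf 1 [(3,2),(9,2)]) (.cons (.leaf 1 [(4,2),(9,2)]) (.cons (.leaf 1 [(1,2)]) (.cons (.leaf 1 [(1,2)]) (.cons (.leaf 1 [(1,2)]) (.cons (.leaf 1 [(10,2),(1,2)]) (.cons (.leaf 1 [(9,2)]) (.cons (.leaf 1 [(4,2),(9,2)]) (.cons (.leaf 1 [(9,1),(11,1),(1,1)]) (.cons (.leaf 1 [(3,2),(9,2)]) (.cons (.leaf 1 [(9,2)]) .nil)))))))))))))) (.cons (.keep [0,5,6,11] (.node (.cons (.leaf 1 [(9,1),(11,1)]) (.cons (.leaf 1 [(9,1)]) (.cons (.leaf 1 [(4,2),(9,2)]) (.cons (.leaf 1 [(1,2),(10,2)]) (.cons (.leaf 1 [(1,1),(9,1)]) (.cons (.leaf 1 [(4,2),(9,2)]) (.cons (.leaf 1 [(1,2)]) (.cons (.leaf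 1 [(1,2)]) (.cons (.leaf 1 [(1,2)]) (.cons (.leaf 1 [(9,1),(11,1),(1,1)]) (.cons (.leaf 1 [(7,2),(1,2)]) (.cons (.leaf 1 [(9,2)]) .nil)))))))))))))) (.cons (.leaf 1 [(1,2),(11,2)]) (.cons (.leaf 1 [(11,2),(1,2)]) (.cons (.leaf 1 [(11,2),(1,2)]) (.cons (.leaf 1 [(6,2)]) (.cons (.leaf 1 []) (.cons (.leaf 1 [(6,2)]) (.cons (.leaf 1 [(7,2)]) (.cons (.leaf 1 [(7,2)]) (.cons (.leaf 1 []) .nil)))))))))))))) (.cons (.leaf 1 [(5,1),(3,2)]) (.cons (.leaf 1 [(5,1),(4,2)]) (.cons (.leaf 1 [(9,2),(1,1)]) (.cons (.leaf 1 [(5,1),(3,1),(9,1)]) (.cons (.leaf 1 [(5,1),(4,1),(9,1)]) (.cons (.leaf 1 [(10,2),(1,1)]) (.cons (.leaf 1 [(10,1),(5,1)]) (.cons (.leaf 1 [(5,1),(4,1),(10,1)]) (.cons (.keep [0,1,9,10] (.node (.cons (.leaf 1 [(6,2),(9,3)]) (.cons (.leaf 1 [(9,3)]) (.cons (.leaf 1 [(9,3),(6,2)])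 (.cons (.leaf 1 [(6,2),(10,2),(9,1)]) (.cons (.leaf 1 [(11,1),(9,1)]) (.cons (.leaf 1 [(11,1),(9,1),(6,1)]) (.cons (.leaf 1 [(1,1),(6,2)]) (.cons (.leaf 1 [(1,1)]) (.cons (.leaf 1 [(6,2),(1,1)]) (.cons (.leaf 1 [(7,2),(9,1)]) (.cons (.leaf 1 [(1,1),(7,3)]) (.cons (.leaf 1 [(9,1)]) .nil)))))))))))))) (.cons (.leaf 1 [(10,1),(5,1)]) (.cons (.keep [0,5,8,9,10] (.node (.cons (.leaf 1 [(3,1),(9,1)]) (.cons (.leaf 2 [(9,1)]) (.cons (.leaf 1 [(9,1),(3,1)]) (.cons (.leaf 1 [(6,1),(11,1),(9,1)]) (.cons (.leaf 2 [(12,1),(9,1)]) (.cons (.leaf 2 [(12,1),(9,1),(6,1)]) (.cons (.leaf 1 [(6,1)]) (.cons (.leaf 1 []) (.cons (.leaf 1 [(6,1)]) (.cons (.leaf 1 [(7,1)]) (.cons (.leaf 1 [(7,1)]) (.cons (.leaf 1 []) .nil)))))))))))))) .nil)))))))))))))) (.cons (.keep [1,5,7,9] (.node (.cons (.keep [2,4,9,10]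 (.node (.cons (.keep [6,7,8,11] (.node (.cons (.leaf 1 [(11,1)]) (.cons (.leaf 1 [(3,2)]) (.cons (.leaf 1 [(4,2)]) (.cons (.leaf 1 [(8,2),(1,2)]) (.cons (.leaf 1 [(3,2)]) (.cons (.leaf 1 [(4,2)]) (.cons (.leaf 1 [(9,2),(1,2)]) (.cons (.leaf 1 []) (.cons (.leaf 1 [(4,2)]) (.cons (.leaf 1 [(11,1),(1,1)]) (.cons (.leaf 1 [(3,2)]) (.cons (.leaf 1 []) .nil)))))))))))))) (.cons (.keep [5,7,8,10,11] (.node (.cons (.leaf 1 [(12,1),(8,1)]) (.cons (.leaf 1 [(8,1),(3,2)]) (.cons (.leaf 1 [(8,1),(4,2)]) (.cons (.leaf 1 [(11,1),(1,2)]) (.cons (.leaf 1 [(1,1),(3,1)]) (.cons (.leaf 1 [(1,1),(4,1)]) (.cons (.leaf 1 [(11,1),(9,2),(1,2)]) (.cons (.leaf 1 [(8,1)]) (.cons (.leaf 1 [(8,1),(4,2)]) (.cons (.leaf 1 [(12,1),(8,1),(1,1)]) (.cons (.leaf 1 [(8,1),(3,2)]) (.cons (.leaf 1 [(8,1)]) .nil))))))))))))))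 (.cons (.keep [5,6,8,10,11] (.node (.cons (.leaf 1 [(12,1),(8,1)]) (.cons (.leaf 1 []) (.cons (.leaf 1 [(8,1),(4,2)]) (.cons (.leaf 1 [(11,1),(1,2),(9,2)]) (.cons (.leaf 1 [(1,1)]) (.cons (.leaf 1 [(4,2),(8,1)]) (.cons (.leaf 1 [(11,1),(1,2)]) (.cons (.leaf 1 [(1,1)]) (.cons (.leaf 1 [(1,1),(4,1)]) (.cons (.leaf 1 [(12,1),(8,1),(1,1)]) (.cons (.leaf 1 [(1,1)]) (.cons (.leaf 1 [(8,1)]) .nil)))))))))))))) (.cons (.leaf 1 [(1,1),(11,2)]) (.cons (.leaf 1 [(11,2),(5,1),(1,1)]) (.cons (.leaf 1 [(11,2),(5,1),(1,1)]) (.cons (.leaf 1 [(1,1),(6,2)]) (.cons (.leaf 1 [(10,1)]) (.cons (.leaf 1 [(10,1),(6,2)]) (.cons (.leaf 1 [(1,1),(7,2)]) (.cons (.leaf 1 [(10,1),(7,2)]) (.cons (.leaf 1 [(10,1)]) .nil)))))))))))))) (.cons (.leaf 1 [(3,2),(9,1),(5,1)]) (.cons (.leaf 1 [(4,2),(9,1),(5,1)]) (.cons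 (.keep [1,3,4,8,11] (.node (.cons (.leaf 1 [(8,2)]) (.cons (.leaf 1 [(8,2),(5,1)]) (.cons (.leaf 1 [(8,2),(5,1)]) (.cons (.leaf 1 [(8,1),(9,1)]) (.cons (.leaf 1 [(8,1),(9,1),(5,1)]) (.cons (.leaf 1 [(8,1),(9,1),(5,1)]) (.cons (.leaf 1 [(1,1),(6,2)]) (.cons (.leaf 1 [(8,1)]) (.cons (.leaf 1 [(8,1),(6,1)]) (.cons (.leaf 1 [(1,1),(7,2)]) (.cons (.leaf 1 [(8,1),(7,1)]) (.cons (.leaf 1 [(8,1)]) .nil)))))))))))))) (.cons (.leaf 1 [(3,1),(5,1)]) (.cons (.leaf 1 [(4,1),(5,1)]) (.cons (.keep [1,4,9,10,11] (.node (.cons (.leaf 1 [(11,2),(8,2)]) (.cons (.leaf 1 [(11,2),(8,2),(5,1)]) (.cons (.leaf 1 [(11,2),(8,2),(5,1)]) (.cons (.leaf 1 [(1,1),(11,2)]) (.cons (.leaf 1 [(11,2),(5,1),(1,1)]) (.cons (.leaf 1 [(11,2),(5,1),(1,1)]) (.cons (.leaf 1 [(1,1),(6,2)]) (.cons (.leaf 1 [(10,1),(8,1)]) (.cons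 (.leaf 1 [(10,1),(8,1),(6,2)]) (.cons (.leaf 1 [(1,1),(7,2)]) (.cons (.leaf 1 [(1,1),(9,1),(7,3),(10,1)]) (.cons (.leaf 1 [(10,1),(8,1)]) .nil)))))))))))))) (.cons (.leaf 1 [(10,1),(5,1)]) (.cons (.leaf 1 [(10,1),(4,1),(5,1)]) (.cons (.keep [1,9,10,11] (.node (.cons (.leaf 1 [(6,2),(8,2)]) (.cons (.leaf 1 [(9,1),(8,3)]) (.cons (.leaf 1 [(9,1),(8,3),(6,2)]) (.cons (.leaf 1 [(6,1),(10,1),(8,1)]) (.cons (.leaf 1 [(10,1),(8,1)]) (.cons (.leaf 1 [(10,1),(8,1),(6,1)]) (.cons (.leaf 1 [(1,1),(6,2)]) (.cons (.leaf 1 [(9,1),(1,1)]) (.cons (.leaf 1 [(9,1),(6,2),(1,1)]) (.cons (.leaf 1 [(1,1),(7,2)]) (.cons (.leaf 1 [(1,1),(7,3),(9,1)]) (.cons (.leaf 1 [(9,1),(8,1)]) .nil)))))))))))))) (.cons (.leaf 1 [(5,1),(10,1)]) (.cons (.keep [0,5,8,9,10] (.node (.cons (.leaf 1 [(3,2),(9,2)]) (.cons (.leaf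 2 [(11,2),(9,1)]) (.cons (.leaf 1 [(11,1),(9,1),(3,1)]) (.cons (.leaf 1 [(6,1),(9,1)]) (.cons (.leaf 2 [(11,1),(12,1),(9,1)]) (.cons (.leaf 2 [(11,1),(12,1),(9,1),(6,1)]) (.cons (.leaf 1 [(1,1),(6,2)]) (.cons (.leaf 1 [(11,1)]) (.cons (.leaf 1 [(11,1),(6,1)]) (.cons (.leaf 1 [(1,1),(7,2)]) (.cons (.leaf 1 [(11,1),(7,1)]) (.cons (.leaf 1 [(11,1)]) .nil)))))))))))))) .nil)))))))))))))) (.cons (.keep [1,5,6,9] (.node (.cons (.keep [3,4,9,10] (.node (.cons (.keep [2,6,7,10] (.node (.cons (.leaf 1 []) (.cons (.leaf 1 [(11,1),(3,2)]) (.cons (.leaf 1 [(11,1),(4,2)]) (.cons (.leaf 1 [(1,1)]) (.cons (.leaf 1 [(11,1),(3,2)]) (.cons (.leaf 1 [(11,1),(4,2)]) (.cons (.leaf 1 [(1,1)]) (.cons (.leaf 1 [(11,1)]) (.cons (.leaf 1 [(11,1),(4,2)]) (.cons (.leaf 1 [(1,1)]) (.cons (.leaf 1 [(11,1),(3,2)])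 (.cons (.leaf 1 [(11,1)]) .nil)))))))))))))) (.cons (.keep [2,5,7,10] (.node (.cons (.leaf 1 [(9,1)]) (.cons (.leaf 1 [(11,1),(3,2),(9,2)]) (.cons (.leaf 1 [(11,1),(4,2),(9,2)]) (.cons (.leaf 1 [(9,1),(1,1)]) (.cons (.leaf 1 [(11,1),(1,2)]) (.cons (.leaf 1 [(11,1),(1,2)]) (.cons (.leaf 1 [(9,1),(1,1)]) (.cons (.leaf 1 [(11,1),(9,2)]) (.cons (.leaf 1 [(11,1),(4,2),(9,2)]) (.cons (.leaf 1 [(9,1),(1,1)]) (.cons (.leaf 1 [(11,1),(3,2),(9,2)]) (.cons (.leaf 1 [(11,1),(9,2)]) .nil)))))))))))))) (.cons (.keep [2,5,6,10] (.node (.cons (.leaf 1 [(9,1)]) (.cons (.leaf 1 [(11,1),(9,1)]) (.cons (.leaf 1 [(11,1),(4,2),(9,2)]) (.cons (.leaf 1 [(9,1),(1,1)]) (.cons (.leaf 1 [(11,1),(1,1),(9,1)]) (.cons (.leaf 1 [(11,1),(4,2),(9,2)]) (.cons (.leaf 1 [(6,1),(1,2)]) (.cons (.leaf 1 [(11,1),(1,2)])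 (.cons (.leaf 1 [(11,1),(1,2)]) (.cons (.leaf 1 [(9,1),(1,1)]) (.cons (.leaf 1 [(11,1),(7,2),(1,2)]) (.cons (.leaf 1 [(11,1),(9,2)]) .nil)))))))))))))) (.cons (.keep [1,6,7,8,11] (.node (.cons (.leaf 1 [(11,1)]) (.cons (.leaf 1 [(3,1)]) (.cons (.leaf 1 [(4,1)]) (.cons (.leaf 1 [(9,1),(1,1)]) (.cons (.leaf 1 [(3,1)]) (.cons (.leaf 1 [(4,1)]) (.cons (.leaf 1 [(10,1),(1,1)]) (.cons (.leaf 1 []) (.cons (.leaf 1 [(4,1)]) (.cons (.leaf 1 [(11,1),(1,1)]) (.cons (.leaf 1 [(3,1)]) (.cons (.leaf 1 []) .nil)))))))))))))) (.cons (.keep [1,5,7,8,10] (.node (.cons (.leaf 1 [(9,1),(11,1)]) (.cons (.leaf 1 [(3,1),(9,1)]) (.cons (.leaf 1 [(4,1),(9,1)]) (.cons (.leaf 1 [(1,1)]) (.cons (.leaf 1 [(1,1)]) (.cons (.leaf 1 [(1,1)]) (.cons (.leaf 1 [(10,1),(1,1)]) (.cons (.leaf 1 [(9,1)]) (.cons (.leaf 1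 [(4,1),(9,1)]) (.cons (.leaf 1 [(9,1),(11,1),(1,1)]) (.cons (.leaf 1 [(3,1),(9,1)]) (.cons (.leaf 1 [(9,1)]) .nil)))))))))))))) (.cons (.keep [1,5,6,8,10] (.node (.cons (.leaf 1 [(9,1),(11,1)]) (.cons (.leaf 1 [(8,1),(5,1)]) (.cons (.leaf 1 [(4,1),(9,1)]) (.cons (.leaf 1 [(1,1),(10,1)]) (.cons (.leaf 1 [(8,1),(5,1)]) (.cons (.leaf 1 [(4,1),(9,1)]) (.cons (.leaf 1 [(1,1)]) (.cons (.leaf 1 [(1,1)]) (.cons (.leaf 1 [(1,1)]) (.cons (.leaf 1 [(9,1),(11,1),(1,1)]) (.cons (.leaf 1 [(7,1),(1,1)]) (.cons (.leaf 1 [(9,1)]) .nil)))))))))))))) (.cons (.leaf 1 [(6,2),(10,1)]) (.cons (.leaf 1 [(10,1)]) (.cons (.leaf 1 [(10,1),(6,2)]) (.cons (.leaf 1 [(7,2),(10,1)]) (.cons (.leaf 1 [(10,1),(7,2)]) (.cons (.leaf 1 [(10,1)]) .nil)))))))))))))) (.cons (.leaf 1 [(5,1)]) (.cons (.leaf 1 [(4,2),(9,1),(5,1)])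 (.cons (.keep [1,4,9,10,11] (.node (.cons (.leaf 1 [(8,3),(10,1)]) (.cons (.leaf 1 [(8,3),(10,1),(5,2)]) (.cons (.leaf 1 [(8,3),(10,1),(5,2)]) (.cons (.leaf 1 [(8,1)]) (.cons (.leaf 1 [(8,1),(5,1)]) (.cons (.leaf 1 [(8,1),(5,1)]) (.cons (.leaf 1 [(6,3),(1,1),(10,1)]) (.cons (.leaf 1 [(8,1),(10,1)]) (.cons (.leaf 1 [(8,1),(10,1),(6,2)]) (.cons (.leaf 1 [(7,3),(1,1),(10,1)]) (.cons (.leaf 1 [(9,1),(1,1),(7,3),(10,1)]) (.cons (.leaf 1 [(8,1),(10,1)]) .nil)))))))))))))) (.cons (.leaf 1 [(5,1)]) (.cons (.leaf 1 [(4,1),(10,1),(5,1)]) (.cons (.keep [1,2,4,8,11] (.node (.cons (.keep [2,6,7,8,11] (.node (.cons (.leaf 1 []) (.cons (.leaf 1 [(11,1),(3,1)]) (.cons (.leaf 1 [(11,1),(4,1)]) (.cons (.leaf 1 [(1,1)]) (.cons (.leaf 1 [(11,1),(3,1)]) (.cons (.leaf 1 [(11,1),(4,1)]) (.cons (.leaf 1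 [(1,1)]) (.cons (.leaf 1 [(11,1)]) (.cons (.leaf 1 [(11,1),(4,1)]) (.cons (.leaf 1 [(1,1)]) (.cons (.leaf 1 [(11,1),(3,1)]) (.cons (.leaf 1 [(11,1)]) .nil)))))))))))))) (.cons (.keep [2,5,7,8,10] (.node (.cons (.leaf 1 [(9,1)]) (.cons (.leaf 1 [(11,1),(3,1),(9,1)]) (.cons (.leaf 1 [(11,1),(4,1),(9,1)]) (.cons (.leaf 1 [(9,1),(1,1)]) (.cons (.leaf 1 [(11,1),(1,1)]) (.cons (.leaf 1 [(11,1),(1,1)]) (.cons (.leaf 1 [(9,1),(1,1)]) (.cons (.leaf 1 [(11,1),(9,1)]) (.cons (.leaf 1 [(11,1),(4,1),(9,1)]) (.cons (.leaf 1 [(9,1),(1,1)]) (.cons (.leaf 1 [(11,1),(3,1),(9,1)]) (.cons (.leaf 1 [(11,1),(9,1)]) .nil)))))))))))))) (.cons (.keep [2,4,5,6,8] (.node (.cons (.leaf 1 [(10,1)]) (.cons (.leaf 2 [(12,2),(10,1)]) (.cons (.leaf 1 [(12,1),(4,1),(10,1)]) (.cons (.leaf 1 [(10,1),(1,1)]) (.cons (.leaf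 2 [(12,2),(1,1),(10,1)]) (.cons (.leaf 1 [(12,1),(4,1),(10,1)]) (.cons (.leaf 1 [(6,1),(1,2)]) (.cons (.leaf 1 [(12,1),(1,1)]) (.cons (.leaf 1 [(12,1),(1,1)]) (.cons (.leaf 1 [(10,1),(1,1)]) (.cons (.leaf 1 [(12,1),(7,1),(1,1)]) (.cons (.leaf 1 [(12,1),(10,1)]) .nil)))))))))))))) (.cons (.keep [1,6,7,9,12] (.node (.cons (.leaf 1 [(12,1)]) (.cons (.leaf 1 [(3,1)]) (.cons (.leaf 1 [(4,1)]) (.cons (.leaf 1 [(9,1),(1,1)]) (.cons (.leaf 1 [(3,1)]) (.cons (.leaf 1 [(4,1)]) (.cons (.leaf 1 [(10,1),(1,1)]) (.cons (.leaf 1 []) (.cons (.leaf 1 [(4,1)]) (.cons (.leaf 1 [(12,1),(1,1)]) (.cons (.leaf 1 [(3,1)]) (.cons (.leaf 1 []) .nil)))))))))))))) (.cons (.keep [1,3,5,7,12] (.node (.cons (.leaf 1 [(10,1),(12,1)]) (.cons (.leaf 1 [(3,1),(10,1)]) (.cons (.leaf 1 [(4,1),(10,1)]) (.cons (.leaf 1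 [(1,1)]) (.cons (.leaf 1 [(1,1)]) (.cons (.leaf 1 [(1,1)]) (.cons (.leaf 1 [(11,1),(1,1)]) (.cons (.leaf 1 [(10,1)]) (.cons (.leaf 1 [(4,1),(10,1)]) (.cons (.leaf 1 [(10,1),(12,1),(1,1)]) (.cons (.leaf 1 [(3,1),(10,1)]) (.cons (.leaf 1 [(10,1)]) .nil)))))))))))))) (.cons (.keep [1,4,5,6,12] (.node (.cons (.leaf 1 [(10,1),(12,1)]) (.cons (.leaf 1 [(8,1),(5,1)]) (.cons (.leaf 1 [(4,1),(10,1)]) (.cons (.leaf 1 [(1,1),(11,1)]) (.cons (.leaf 1 [(8,1),(5,1)]) (.cons (.leaf 1 [(4,1),(10,1)]) (.cons (.leaf 1 [(1,1)]) (.cons (.leaf 1 [(1,1)]) (.cons (.leaf 1 [(1,1)]) (.cons (.leaf 1 [(10,1),(12,1),(1,1)]) (.cons (.leaf 1 [(7,1),(1,1)]) (.cons (.leaf 1 [(10,1)]) .nil)))))))))))))) (.cons (.leaf 1 [(6,1),(8,1)]) (.cons (.leaf 1 [(8,1)]) (.cons (.leaf 1 [(8,1),(6,1)]) (.cons (.leaf 1 [(7,1),(8,1)])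 (.cons (.leaf 1 [(8,1),(7,1)]) (.cons (.leaf 1 [(8,1)]) .nil)))))))))))))) (.cons (.leaf 1 [(5,1)]) (.cons (.leaf 1 [(4,1),(5,1)]) (.cons (.keep [1,9,10,11] (.node (.cons (.leaf 1 [(6,2),(9,1),(8,3)]) (.cons (.leaf 1 [(9,1),(8,3)]) (.cons (.leaf 1 [(9,1),(8,3),(6,2)]) (.cons (.leaf 1 [(6,1),(8,1)]) (.cons (.leaf 1 [(8,1)]) (.cons (.leaf 1 [(8,1),(6,1)]) (.cons (.leaf 1 [(6,2),(1,1),(9,1)]) (.cons (.leaf 1 [(9,1),(1,1)]) (.cons (.leaf 1 [(9,1),(6,2),(1,1)]) (.cons (.leaf 1 [(7,2),(9,1),(8,1)]) (.cons (.leaf 1 [(1,1),(7,3),(9,1)]) (.cons (.leaf 1 [(9,1),(8,1)]) .nil)))))))))))))) (.cons (.leaf 1 [(5,1)]) (.cons (.keep [0,5,8,9,10] (.node (.cons (.leaf 1 [(3,1),(11,1),(9,1)]) (.cons (.leaf 2 [(11,2),(9,1)]) (.cons (.leaf 1 [(11,1),(9,1),(3,1)]) (.cons (.leaf 1 [(3,1),(9,1)]) (.cons (.leaf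 2 [(1,1),(9,1)]) (.cons (.leaf 1 [(9,1),(3,1)]) (.cons (.leaf 1 [(6,1),(11,1)]) (.cons (.leaf 1 [(11,1)]) (.cons (.leaf 1 [(11,1),(6,1)]) (.cons (.leaf 1 [(7,1),(11,1)]) (.cons (.leaf 1 [(11,1),(7,1)]) (.cons (.leaf 1 [(11,1)]) .nil)))))))))))))) .nil)))))))))))))) (.cons (.leaf 1 [(6,1)]) (.cons (.leaf 1 []) (.cons (.leaf 1 [(6,1)]) (.cons (.leaf 1 [(7,1)]) (.cons (.leaf 1 [(7,1)]) (.cons (.leaf 1 []) .nil))))))))))))))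

theorem e_29_26 : ESB (caseOf 4 29 26) := esb_of_ok (t := t_29_26) (by decide +kernel)

def t_29_27 : T := (.keep [0,1,2] (.node (.cons (.leaf 1 []) (.cons (.leaf 1 [(5,1)]) (.cons (.leaf 1 [(5,1)]) (.cons (.leaf 1 [(5,1)]) (.cons (.keep [1,6,7,8] (.node (.cons (.leaf 1 [(6,1)]) (.cons (.keep [2,3,4,5] (.node (.cons (.leaf 1 []) (.cons (.leaf 1 [(5,1)]) (.cons (.leaf 1 [(5,1)]) (.cons (.leaf 1 [(5,1)]) (.cons (.leaf 1 [(10,1)]) (.cons (.leaf 1 [(5,1),(10,1)]) (.cons (.leaf 1 [(10,1),(5,1)]) (.cons (.leaf 1 [(10,1),(5,1)]) (.cons (.leaf 1 [(7,1)]) (.cons (.leaf 1 [(7,1)]) (.cons (.leaf 1 []) (.cons (.leaf 1 [(7,1)]) (.cons (.leaf 1 [(8,1)]) (.cons (.leaf 1 [(8,1)]) (.cons (.leaf 1 [(8,1)]) (.cons (.leaf 1 []) .nil)))))))))))))))))) (.cons (.leaf 1 [(3,1),(6,1)]) (.cons (.leaf 1 [(4,1),(6,1)])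 (.cons (.leaf 1 [(6,1)]) (.cons (.keep [1,4,10,11,12] (.node (.cons (.leaf 1 []) (.cons (.leaf 1 [(5,1)]) (.cons (.leaf 1 [(5,1)]) (.cons (.leaf 1 [(5,1)]) (.cons (.leaf 1 [(13,1)]) (.cons (.leaf 1 [(5,1),(13,1)]) (.cons (.leaf 1 [(13,1),(5,1)]) (.cons (.leaf 1 [(13,1),(5,1)]) (.cons (.leaf 1 [(7,1)]) (.cons (.leaf 1 [(7,1)]) (.cons (.leaf 1 []) (.cons (.leaf 1 [(7,1)]) (.cons (.leaf 1 [(8,1)]) (.cons (.leaf 1 [(8,1)]) (.cons (.leaf 1 [(8,1)]) (.cons (.leaf 1 []) .nil)))))))))))))))))) (.cons (.leaf 1 [(11,1),(3,1),(6,1)]) (.cons (.leaf 1 [(11,1),(4,1),(6,1)]) (.cons (.leaf 1 [(6,1)]) (.cons (.keep [1,4,7,11,12] (.node (.cons (.leaf 1 []) (.cons (.leaf 1 [(5,1)]) (.cons (.leaf 1 [(5,1)]) (.cons (.leaf 1 [(5,1)]) (.cons (.leaf 1 [(13,1)]) (.cons (.leaf 1 [(5,1),(13,1)]) (.cons (.leaf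 1 [(13,1),(5,1)]) (.cons (.leaf 1 [(13,1),(5,1)]) (.cons (.leaf 1 [(7,1)]) (.cons (.leaf 1 [(7,1)]) (.cons (.leaf 1 []) (.cons (.leaf 1 [(7,1)]) (.cons (.leaf 1 [(8,1)]) (.cons (.leaf 1 [(8,1)]) (.cons (.leaf 1 [(8,1)]) (.cons (.leaf 1 []) .nil)))))))))))))))))) (.cons (.leaf 1 [(12,1),(6,1)]) (.cons (.leaf 1 [(12,1),(4,1),(6,1)]) (.cons (.leaf 1 [(6,1)]) (.cons (.keep [0,1,11,12] (.node (.cons (.leaf 1 []) (.cons (.leaf 1 [(5,1)]) (.cons (.leaf 1 [(5,1)]) (.cons (.leaf 1 [(5,1)]) (.cons (.leaf 1 [(12,1)]) (.cons (.leaf 1 [(5,1),(12,1)]) (.cons (.leaf 1 [(12,1),(5,1)]) (.cons (.leaf 1 [(12,1),(5,1)]) (.cons (.leaf 1 [(7,1)]) (.cons (.leaf 1 [(7,1)]) (.cons (.leaf 1 []) (.cons (.leaf 1 [(7,1)]) (.cons (.leaf 1 [(8,1)]) (.cons (.leaf 1 [(8,1)]) (.cons (.leaf 1 [(8,1)]) (.cons (.leaf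 1 []) .nil)))))))))))))))))) (.cons (.leaf 1 [(12,1),(6,1)]) (.cons (.keep [0,6,9,11,12] (.node (.cons (.leaf 1 []) (.cons (.leaf 1 [(5,1)]) (.cons (.leaf 1 [(5,1)]) (.cons (.leaf 1 [(5,1)]) (.cons (.leaf 1 [(7,1),(10,1)]) (.cons (.leaf 1 [(7,1),(12,1),(10,1)]) (.cons (.leaf 2 [(13,1),(10,1)]) (.cons (.leaf 2 [(13,1),(10,1),(7,1)]) (.cons (.leaf 1 [(7,1)]) (.cons (.leaf 1 [(7,1)]) (.cons (.leaf 1 []) (.cons (.leaf 1 [(7,1)]) (.cons (.leaf 1 [(8,1)]) (.cons (.leaf 1 [(8,1)]) (.cons (.leaf 1 [(8,1)]) (.cons (.leaf 1 []) .nil)))))))))))))))))) .nil)))))))))))))))))) (.cons (.keep [5,7,8,9,10] (.node (.cons (.leaf 1 [(6,1)]) (.cons (.leaf 1 [(9,2)]) (.cons (.leaf 1 [(6,1),(3,2)]) (.cons (.leaf 1 [(6,1),(4,2)]) (.cons (.leaf 1 [(6,1),(1,1)]) (.cons (.leaf 1 [(10,1),(9,1)]) (.cons (.leaf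 1 [(6,1),(3,1),(10,1)]) (.cons (.leaf 1 [(6,1),(4,1),(10,1)]) (.cons (.leaf 1 [(6,1),(1,1)]) (.cons (.leaf 1 [(11,1),(9,1)]) (.cons (.leaf 1 [(11,1),(6,1)]) (.cons (.leaf 1 [(6,1),(4,1),(11,1)]) (.cons (.leaf 1 [(6,1),(1,1)]) (.cons (.keep [0,9,10,11,12] (.node (.cons (.leaf 1 [(10,1)]) (.cons (.leaf 1 [(5,1),(10,1)]) (.cons (.leaf 1 [(5,3)]) (.cons (.leaf 1 [(10,1),(5,1)]) (.cons (.leaf 1 [(7,1),(10,2)]) (.cons (.leaf 1 [(7,1),(11,1),(10,1)]) (.cons (.leaf 2 [(12,1),(10,2)]) (.cons (.leaf 2 [(12,1),(10,2),(7,1)]) (.cons (.leaf 1 [(7,1)]) (.cons (.leaf 1 [(5,1),(7,1)]) (.cons (.leaf 1 [(1,1)]) (.cons (.leaf 1 [(7,1),(5,1)]) (.cons (.leaf 1 [(10,1),(8,1)]) (.cons (.leaf 1 [(8,1),(10,1)]) (.cons (.leaf 1 [(5,1),(8,2)]) (.cons (.leaf 1 [(10,1)]) .nil)))))))))))))))))) (.cons (.leaf 1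 [(11,1),(6,1)]) (.cons (.keep [0,6,10,11,12] (.node (.cons (.leaf 1 []) (.cons (.leaf 1 [(5,1)]) (.cons (.leaf 1 [(5,1)]) (.cons (.leaf 1 [(5,1)]) (.cons (.leaf 1 [(7,1),(10,1)]) (.cons (.leaf 1 [(7,1),(11,1),(10,1)]) (.cons (.leaf 2 [(12,1),(10,1)]) (.cons (.leaf 2 [(12,1),(10,1),(7,1)]) (.cons (.leaf 1 [(7,1)]) (.cons (.leaf 1 [(7,1)]) (.cons (.leaf 1 []) (.cons (.leaf 1 [(7,1)]) (.cons (.leaf 1 [(8,1)]) (.cons (.leaf 1 [(8,1)]) (.cons (.leaf 1 [(8,1)]) (.cons (.leaf 1 []) .nil)))))))))))))))))) .nil)))))))))))))))))) (.cons (.keep [5,6,8,10,11] (.node (.cons (.leaf 1 [(6,1),(9,1)]) (.cons (.keep [2,4,9,11,13] (.node (.cons (.leaf 1 [(11,1)]) (.cons (.leaf 1 [(5,2)]) (.cons (.leaf 1 [(11,1),(5,1)]) (.cons (.leaf 1 [(11,1),(5,1)]) (.cons (.leaf 1 [(12,1)]) (.cons (.leaf 1 [(5,1),(12,1)])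 (.cons (.leaf 1 [(12,1),(5,1)]) (.cons (.leaf 1 [(12,1),(5,1)]) (.cons (.leaf 1 [(11,1),(7,1)]) (.cons (.leaf 1 [(5,1),(7,1)]) (.cons (.leaf 1 [(11,1)]) (.cons (.leaf 1 [(11,1),(7,1)]) (.cons (.leaf 1 [(11,1),(8,1)]) (.cons (.leaf 1 [(5,1),(8,1)]) (.cons (.leaf 1 [(11,1),(8,1)]) (.cons (.leaf 1 [(11,1)]) .nil)))))))))))))))))) (.cons (.leaf 1 [(3,1),(9,1),(6,1)]) (.cons (.leaf 1 [(4,1),(9,1),(6,1)]) (.cons (.leaf 1 [(6,1),(1,1)]) (.cons (.keep [1,3,4,12,13] (.node (.cons (.leaf 1 [(9,1)]) (.cons (.leaf 1 [(5,2)]) (.cons (.leaf 1 [(9,1),(5,1)]) (.cons (.leaf 1 [(9,1),(5,1)]) (.cons (.leaf 1 [(10,1)]) (.cons (.leaf 1 [(5,1),(10,1)]) (.cons (.leaf 1 [(10,1),(5,1)]) (.cons (.leaf 1 [(10,1),(5,1)]) (.cons (.leaf 1 [(9,1),(7,1)]) (.cons (.leaf 1 [(5,1),(7,1)]) (.cons (.leaf 1 [(9,1)]) (.cons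 (.leaf 1 [(9,1),(7,1)]) (.cons (.leaf 1 [(9,1),(8,1)]) (.cons (.leaf 1 [(5,1),(8,1)]) (.cons (.leaf 1 [(9,1),(8,1)]) (.cons (.leaf 1 [(9,1)]) .nil)))))))))))))))))) (.cons (.leaf 1 [(3,1),(6,1)]) (.cons (.leaf 1 [(4,1),(6,1)]) (.cons (.leaf 1 [(6,1),(9,1)]) (.cons (.keep [2,4,9,11,12,13] (.node (.cons (.leaf 1 [(11,1)]) (.cons (.leaf 1 [(5,2)]) (.cons (.leaf 1 [(11,1),(5,1)]) (.cons (.leaf 1 [(11,1),(5,1)]) (.cons (.leaf 1 [(12,1)]) (.cons (.leaf 1 [(5,1),(12,1)]) (.cons (.leaf 1 [(12,1),(5,1)]) (.cons (.leaf 1 [(12,1),(5,1)]) (.cons (.leaf 1 [(11,1),(7,1)]) (.cons (.leaf 1 [(5,1),(7,1)]) (.cons (.leaf 1 [(11,1)]) (.cons (.leaf 1 [(11,1),(7,1)]) (.cons (.leaf 1 [(11,1),(8,1)]) (.cons (.leaf 1 [(5,1),(8,1)]) (.cons (.leaf 1 [(11,1),(8,1)]) (.cons (.leaf 1 [(11,1)]) .nil))))))))))))))))))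 (.cons (.leaf 1 [(11,1),(6,1)]) (.cons (.leaf 1 [(11,1),(4,1),(6,1)]) (.cons (.leaf 1 [(6,1),(9,1)]) (.cons (.keep [2,9,10,11,12] (.node (.cons (.leaf 1 [(10,1)]) (.cons (.leaf 1 [(5,2)]) (.cons (.leaf 1 [(10,1),(5,1)]) (.cons (.leaf 1 [(10,1),(5,1)]) (.cons (.leaf 1 [(12,1)]) (.cons (.leaf 1 [(5,1),(12,1)]) (.cons (.leaf 1 [(12,1),(5,1)]) (.cons (.leaf 1 [(12,1),(5,1)]) (.cons (.leaf 1 [(10,1),(7,1)]) (.cons (.leaf 1 [(5,1),(7,1)]) (.cons (.leaf 1 [(10,1)]) (.cons (.leaf 1 [(10,1),(7,1)]) (.cons (.leaf 1 [(10,1),(8,1)]) (.cons (.leaf 1 [(5,1),(8,1)]) (.cons (.leaf 1 [(10,1),(8,1)]) (.cons (.leaf 1 [(10,1)]) .nil)))))))))))))))))) (.cons (.leaf 1 [(11,1),(6,1)]) (.cons (.keep [0,6,9,11,13] (.node (.cons (.leaf 1 [(11,1)]) (.cons (.leaf 1 [(5,2)]) (.cons (.leaf 1 [(11,1),(5,1)]) (.cons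 (.leaf 1 [(11,1),(5,1)]) (.cons (.leaf 1 [(11,1),(7,1),(10,1)]) (.cons (.leaf 1 [(7,1),(10,1)]) (.cons (.leaf 2 [(11,1),(12,1),(10,1)]) (.cons (.leaf 2 [(11,1),(12,1),(10,1),(7,1)]) (.cons (.leaf 1 [(11,1),(7,1)]) (.cons (.leaf 1 [(5,1),(7,1)]) (.cons (.leaf 1 [(11,1)]) (.cons (.leaf 1 [(11,1),(7,1)]) (.cons (.leaf 1 [(11,1),(8,1)]) (.cons (.leaf 1 [(5,1),(8,1)]) (.cons (.leaf 1 [(11,1),(8,1)]) (.cons (.leaf 1 [(11,1)]) .nil)))))))))))))))))) .nil)))))))))))))))))) (.cons (.keep [4,5,6,7,10] (.node (.cons (.leaf 1 [(6,1),(10,1)]) (.cons (.keep [3,4,10,11,12] (.node (.cons (.leaf 1 [(11,1)]) (.cons (.leaf 1 [(5,1),(11,1)]) (.cons (.leaf 1 [(11,1),(5,1)]) (.cons (.leaf 1 [(11,1),(5,1)]) (.cons (.leaf 1 []) (.cons (.leaf 1 [(5,1)]) (.cons (.leaf 1 [(5,1)]) (.cons (.leaf 1 [(5,1)]) (.cons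 (.leaf 1 [(11,1),(7,1)]) (.cons (.leaf 1 [(7,1),(11,1)]) (.cons (.leaf 1 [(11,1)]) (.cons (.leaf 1 [(11,1),(7,1)]) (.cons (.leaf 1 [(11,1),(8,1)]) (.cons (.leaf 1 [(8,1),(11,1)]) (.cons (.leaf 1 [(11,1),(8,1)]) (.cons (.leaf 1 [(11,1)]) .nil)))))))))))))))))) (.cons (.leaf 1 [(6,1)]) (.cons (.leaf 1 [(4,1),(10,1),(6,1)]) (.cons (.leaf 1 [(6,1),(10,1)]) (.cons (.keep [3,4,10,11,12,13] (.node (.cons (.leaf 1 [(11,1)]) (.cons (.leaf 1 [(5,1),(11,1)]) (.cons (.leaf 1 [(11,1),(5,1)]) (.cons (.leaf 1 [(11,1),(5,1)]) (.cons (.leaf 1 []) (.cons (.leaf 1 [(5,1)]) (.cons (.leaf 1 [(5,1)]) (.cons (.leaf 1 [(5,1)]) (.cons (.leaf 1 [(11,1),(7,1)]) (.cons (.leaf 1 [(7,1),(11,1)]) (.cons (.leaf 1 [(11,1)]) (.cons (.leaf 1 [(11,1),(7,1)]) (.cons (.leaf 1 [(11,1),(8,1)]) (.cons (.leaf 1 [(8,1),(11,1)])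 (.cons (.leaf 1 [(11,1),(8,1)]) (.cons (.leaf 1 [(11,1)]) .nil)))))))))))))))))) (.cons (.leaf 1 [(6,1)]) (.cons (.leaf 1 [(4,1),(12,1),(6,1)]) (.cons (.leaf 1 [(6,1),(1,1)]) (.cons (.keep [1,2,4,7,13] (.node (.cons (.leaf 1 [(9,1)]) (.cons (.leaf 1 [(5,1),(9,1)]) (.cons (.leaf 1 [(9,1),(5,1)]) (.cons (.leaf 1 [(9,1),(5,1)]) (.cons (.leaf 1 []) (.cons (.leaf 1 [(5,1)]) (.cons (.leaf 1 [(5,1)]) (.cons (.leaf 1 [(5,1)]) (.cons (.leaf 1 [(9,1),(7,1)]) (.cons (.leaf 1 [(7,1),(9,1)]) (.cons (.leaf 1 [(9,1)]) (.cons (.leaf 1 [(9,1),(7,1)]) (.cons (.leaf 1 [(9,1),(8,1)]) (.cons (.leaf 1 [(8,1),(9,1)]) (.cons (.leaf 1 [(9,1),(8,1)]) (.cons (.leaf 1 [(9,1)]) .nil)))))))))))))))))) (.cons (.leaf 1 [(6,1)]) (.cons (.leaf 1 [(4,1),(6,1)]) (.cons (.leaf 1 [(6,1),(10,1)]) (.cons (.keep [3,10,11,12,13]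 (.node (.cons (.leaf 1 [(10,1)]) (.cons (.leaf 1 [(5,1),(10,1)]) (.cons (.leaf 1 [(10,1),(5,1)]) (.cons (.leaf 1 [(10,1),(5,1)]) (.cons (.leaf 1 []) (.cons (.leaf 1 [(5,1)]) (.cons (.leaf 1 [(5,1)]) (.cons (.leaf 1 [(5,1)]) (.cons (.leaf 1 [(10,1),(7,1)]) (.cons (.leaf 1 [(7,1),(10,1)]) (.cons (.leaf 1 [(10,1)]) (.cons (.leaf 1 [(10,1),(7,1)]) (.cons (.leaf 1 [(10,1),(8,1)]) (.cons (.leaf 1 [(8,1),(10,1)]) (.cons (.leaf 1 [(10,1),(8,1)]) (.cons (.leaf 1 [(10,1)]) .nil)))))))))))))))))) (.cons (.leaf 1 [(6,1)]) (.cons (.keep [0,6,9,10,12] (.node (.cons (.leaf 1 [(12,1)]) (.cons (.leaf 1 [(5,1),(12,1)]) (.cons (.leaf 1 [(12,1),(5,1)]) (.cons (.leaf 1 [(12,1),(5,1)]) (.cons (.leaf 1 []) (.cons (.leaf 1 [(5,1)]) (.cons (.leaf 1 [(5,1)]) (.cons (.leaf 1 [(5,1)]) (.cons (.leaf 1 [(12,1),(7,1)])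 (.cons (.leaf 1 [(7,1),(12,1)]) (.cons (.leaf 1 [(12,1)]) (.cons (.leaf 1 [(12,1),(7,1)]) (.cons (.leaf 1 [(12,1),(8,1)]) (.cons (.leaf 1 [(8,1),(12,1)]) (.cons (.leaf 1 [(12,1),(8,1)]) (.cons (.leaf 1 [(12,1)]) .nil)))))))))))))))))) .nil)))))))))))))))))) (.cons (.leaf 1 [(7,1)]) (.cons (.leaf 1 [(7,1)]) (.cons (.leaf 1 []) (.cons (.leaf 1 [(7,1)]) (.cons (.leaf 1 [(8,1)]) (.cons (.leaf 1 [(8,1)]) (.cons (.leaf 1 [(8,1)]) (.cons (.leaf 1 []) .nil))))))))))))))))))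

theorem e_29_27 : ESB (caseOf 4 29 27) := esb_of_ok (t := t_29_27) (by decide +kernel)

def t_29_28 : T := (.keep [0,1,2] (.node (.cons (.keep [2,6,7,8] (.node (.cons (.keep [7,8,9,10,11] (.node (.cons (.leaf 1 [(2,1)]) (.cons (.leaf 1 [(3,1)]) (.cons (.leaf 1 [(4,1)]) (.cons (.leaf 1 []) (.cons (.leaf 1 [(3,1)]) (.cons (.leaf 1 [(4,1)]) (.cons (.leaf 1 [(2,1)]) (.cons (.leaf 1 []) (.cons (.leaf 1 [(4,1)]) (.cons (.leaf 1 [(2,1)]) (.cons (.leaf 1 [(3,1)]) (.cons (.leaf 1 []) .nil)))))))))))))) (.cons (.keep [7,8,9,10,11] (.node (.cons (.leaf 1 [(2,1)]) (.cons (.leaf 1 [(3,1)]) (.cons (.leaf 1 [(4,1)]) (.cons (.leaf 1 []) (.cons (.leaf 1 [(3,1)]) (.cons (.leaf 1 [(4,1)]) (.cons (.leaf 1 [(2,1)]) (.cons (.leaf 1 []) (.cons (.leaf 1 [(4,1)]) (.cons (.leaf 1 [(2,1)]) (.cons (.leaf 1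 [(3,1)]) (.cons (.leaf 1 []) .nil)))))))))))))) (.cons (.keep [4,9,10,11] (.node (.cons (.leaf 1 [(2,1)]) (.cons (.leaf 1 [(3,1)]) (.cons (.leaf 1 [(4,1)]) (.cons (.leaf 1 []) (.cons (.leaf 1 [(3,1)]) (.cons (.leaf 1 [(4,1)]) (.cons (.leaf 1 [(2,1)]) (.cons (.leaf 1 []) (.cons (.leaf 1 [(4,1)]) (.cons (.leaf 1 [(2,1)]) (.cons (.leaf 1 [(3,1)]) (.cons (.leaf 1 []) .nil)))))))))))))) (.cons (.leaf 1 [(9,1),(1,1)]) (.cons (.leaf 1 [(9,1),(1,1)]) (.cons (.leaf 1 [(9,1),(1,1)]) (.cons (.leaf 1 [(9,1),(6,1),(1,1)]) (.cons (.leaf 1 [(10,1),(1,1)]) (.cons (.leaf 1 [(10,1),(1,1)]) (.cons (.leaf 1 [(9,1),(7,1),(1,1)]) (.cons (.leaf 1 [(10,1),(7,1),(1,1)]) (.cons (.keep [0,1,9,10] (.node (.cons (.leaf 1 [(2,1)]) (.cons (.leaf 1 [(3,1)]) (.cons (.leaf 1 [(4,1)]) (.cons (.leaf 1 []) (.cons (.leaf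 1 [(3,1)]) (.cons (.leaf 1 [(4,1)]) (.cons (.leaf 1 [(2,1)]) (.cons (.leaf 1 []) (.cons (.leaf 1 [(4,1)]) (.cons (.leaf 1 [(2,1)]) (.cons (.leaf 1 [(3,1)]) (.cons (.leaf 1 []) .nil)))))))))))))) .nil)))))))))))))) (.cons (.keep [3,5,7,8] (.node (.cons (.keep [2,6,7,9] (.node (.cons (.leaf 1 [(2,1),(11,1)]) (.cons (.leaf 1 [(3,1),(11,1)]) (.cons (.leaf 1 [(4,1),(11,1)]) (.cons (.leaf 1 [(9,1),(1,1)]) (.cons (.leaf 1 [(9,1),(1,1)]) (.cons (.leaf 1 [(9,1),(1,1)]) (.cons (.leaf 1 [(9,1),(6,1),(1,1)]) (.cons (.leaf 1 [(10,1),(1,1)]) (.cons (.leaf 1 [(10,1),(1,1)]) (.cons (.leaf 1 [(9,1),(7,1),(1,1)]) (.cons (.leaf 1 [(10,1),(7,1),(1,1)]) (.cons (.leaf 1 [(11,1)]) .nil)))))))))))))) (.cons (.keep [3,5,7,9,10] (.node (.cons (.leaf 1 [(2,1),(11,1)]) (.cons (.leaf 1 [(3,1),(11,1)]) (.cons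 (.leaf 1 [(4,1),(11,1)]) (.cons (.leaf 1 [(11,1)]) (.cons (.leaf 1 [(3,1),(11,1)]) (.cons (.leaf 1 [(4,1),(11,1)]) (.cons (.leaf 1 [(2,1),(11,1)]) (.cons (.leaf 1 [(11,1)]) (.cons (.leaf 1 [(4,1),(11,1)]) (.cons (.leaf 1 [(2,1),(11,1)]) (.cons (.leaf 1 [(2,1),(10,1),(11,1)]) (.cons (.leaf 1 [(11,1)]) .nil)))))))))))))) (.cons (.keep [4,5,9,10] (.node (.cons (.leaf 1 [(2,1),(10,1)]) (.cons (.leaf 1 [(3,1),(10,1)]) (.cons (.leaf 1 [(4,1),(10,1)]) (.cons (.leaf 1 [(10,1)]) (.cons (.leaf 1 [(3,1),(10,1)]) (.cons (.leaf 1 [(4,1),(10,1)]) (.cons (.leaf 1 [(2,1),(10,1)]) (.cons (.leaf 1 [(10,1)]) (.cons (.leaf 1 [(4,1),(10,1)]) (.cons (.leaf 1 [(2,1),(10,1)]) (.cons (.leaf 1 [(3,1),(10,1)]) (.cons (.leaf 1 [(10,1)]) .nil)))))))))))))) (.cons (.leaf 1 [(1,1)]) (.cons (.leaf 1 [(1,1)]) (.cons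 (.leaf 1 [(1,1)]) (.cons (.leaf 1 [(6,1),(1,1)]) (.cons (.leaf 1 [(10,1),(1,1)]) (.cons (.leaf 1 [(10,1),(1,1)]) (.cons (.leaf 1 [(7,1),(1,1)]) (.cons (.leaf 1 [(10,1),(7,1),(1,1)]) (.cons (.keep [0,1,9,10] (.node (.cons (.leaf 1 [(2,1),(10,1)]) (.cons (.leaf 1 [(3,1),(10,1)]) (.cons (.leaf 1 [(4,1),(10,1)]) (.cons (.leaf 1 [(10,1)]) (.cons (.leaf 1 [(3,1),(10,1)]) (.cons (.leaf 1 [(4,1),(10,1)]) (.cons (.leaf 1 [(2,1),(10,1)]) (.cons (.leaf 1 [(10,1)]) (.cons (.leaf 1 [(4,1),(10,1)]) (.cons (.leaf 1 [(2,1),(10,1)]) (.cons (.leaf 1 [(3,1),(10,1)]) (.cons (.leaf 1 [(10,1)]) .nil)))))))))))))) .nil)))))))))))))) (.cons (.keep [0,5,6,8] (.node (.cons (.keep [3,6,7,9,10] (.node (.cons (.leaf 2 [(11,1)]) (.cons (.leaf 1 [(3,1),(11,1)]) (.cons (.leaf 1 [(4,1),(11,1)]) (.cons (.leaf 1 [(1,1)])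 (.cons (.leaf 1 [(1,1)]) (.cons (.leaf 1 [(1,1)]) (.cons (.leaf 1 [(6,1),(1,1)]) (.cons (.leaf 1 [(11,1)]) (.cons (.leaf 1 [(4,1),(11,1)]) (.cons (.leaf 1 [(7,1),(1,1)]) (.cons (.leaf 1 [(3,1),(11,1)]) (.cons (.leaf 1 [(11,1)]) .nil)))))))))))))) (.cons (.keep [3,5,7,9] (.node (.cons (.leaf 2 [(11,1)]) (.cons (.leaf 1 [(3,1),(11,1)]) (.cons (.leaf 1 [(4,1),(11,1)]) (.cons (.leaf 1 [(1,1)]) (.cons (.leaf 1 [(1,1)]) (.cons (.leaf 1 [(1,1)]) (.cons (.leaf 1 [(6,1),(1,1)]) (.cons (.leaf 1 [(10,1),(1,1)]) (.cons (.leaf 1 [(10,1),(1,1)]) (.cons (.leaf 1 [(7,1),(1,1)]) (.cons (.leaf 1 [(10,1),(7,1),(1,1)]) (.cons (.leaf 1 [(11,1)]) .nil)))))))))))))) (.cons (.keep [4,6,9,10] (.node (.cons (.leaf 2 [(10,1)]) (.cons (.leaf 1 [(3,1),(10,1)]) (.cons (.leaf 1 [(4,1),(10,1)]) (.cons (.leaf 1 [(1,1)])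 (.cons (.leaf 1 [(1,1)]) (.cons (.leaf 1 [(1,1)]) (.cons (.leaf 1 [(6,1),(1,1)]) (.cons (.leaf 1 [(10,1)]) (.cons (.leaf 1 [(4,1),(10,1)]) (.cons (.leaf 1 [(7,1),(1,1)]) (.cons (.leaf 1 [(3,1),(10,1)]) (.cons (.leaf 1 [(10,1)]) .nil)))))))))))))) (.cons (.leaf 1 [(1,1),(10,1)]) (.cons (.leaf 1 [(1,1),(5,1)]) (.cons (.leaf 1 [(1,1),(10,1)]) (.cons (.leaf 1 [(1,1)]) (.cons (.leaf 1 [(1,1)]) (.cons (.leaf 1 [(1,1)]) (.cons (.leaf 1 [(7,1),(10,1),(1,1)]) (.cons (.leaf 1 [(7,1),(1,1)]) (.cons (.keep [0,1,9,10] (.node (.cons (.leaf 1 [(6,1),(9,1)]) (.cons (.leaf 1 [(3,1),(10,1)]) (.cons (.leaf 1 [(4,1),(10,1)]) (.cons (.leaf 1 [(1,1)]) (.cons (.leaf 1 [(1,1)]) (.cons (.leaf 1 [(1,1)]) (.cons (.leaf 1 [(6,1),(1,1)]) (.cons (.leaf 1 [(10,1)]) (.cons (.leaf 1 [(4,1),(10,1)]) (.cons (.leaf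 1 [(7,1),(1,1)]) (.cons (.leaf 1 [(3,1),(10,1)]) (.cons (.leaf 1 [(10,1)]) .nil)))))))))))))) .nil)))))))))))))) (.cons (.leaf 1 []) (.cons (.leaf 1 [(5,1)]) (.cons (.leaf 1 [(5,1)]) (.cons (.leaf 1 [(6,1)]) (.cons (.leaf 1 []) (.cons (.leaf 1 [(6,1)]) (.cons (.leaf 1 [(7,1)]) (.cons (.leaf 1 [(7,1)]) (.cons (.leaf 1 []) .nil))))))))))))))

theorem e_29_28 : ESB (caseOf 4 29 28) := esb_of_ok (t := t_29_28) (by decide +kernel)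

def t_29_29 : T := (.keep [0,1,2] (.node (.cons (.leaf 1 []) (.cons (.leaf 1 [(5,1)]) (.cons (.leaf 1 [(5,1)]) (.cons (.leaf 1 [(5,1)]) (.cons (.leaf 1 [(6,1)]) (.cons (.leaf 1 []) (.cons (.leaf 1 [(6,1)]) (.cons (.leaf 1 [(6,1)]) (.cons (.leaf 1 [(7,1)]) (.cons (.leaf 1 [(7,1)]) (.cons (.leaf 1 []) (.cons (.leaf 1 [(7,1)]) (.cons (.leaf 1 [(8,1)]) (.cons (.leaf 1 [(8,1)]) (.cons (.leaf 1 [(8,1)]) (.cons (.leaf 1 []) .nil))))))))))))))))))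

theorem e_29_29 : ESB (caseOf 4 29 29) := esb_of_ok (t := t_29_29) (by decide +kernel)

def t_29_30 : T := (.keep [0,1,2] (.node (.cons (.keep [6,7,8,9] (.node (.cons (.leaf 2 [(9,1)]) (.cons (.leaf 1 [(2,1)]) (.cons (.leaf 1 [(3,1)]) (.cons (.leaf 1 [(4,1)]) (.cons (.leaf 2 [(9,1),(1,1)]) (.cons (.leaf 1 []) (.cons (.leaf 1 [(3,1)]) (.cons (.leaf 1 [(4,1)]) (.cons (.leaf 2 [(9,1),(1,1)]) (.cons (.leaf 1 [(2,1)]) (.cons (.leaf 1 []) (.cons (.leaf 1 [(4,1)]) (.cons (.leaf 2 [(9,1),(1,1)]) (.cons (.leaf 1 [(2,1)]) (.cons (.leaf 1 [(3,1)]) (.cons (.leaf 1 []) .nil)))))))))))))))))) (.cons (.keep [2,5,7,8] (.node (.cons (.leaf 2 [(10,1)]) (.cons (.leaf 1 [(2,1),(10,1)]) (.cons (.leaf 1 [(3,1),(10,1)]) (.cons (.leaf 1 [(4,1),(10,1)]) (.cons (.leaf 1 [(6,1),(1,1)]) (.cons (.leaf 1 [(10,1)])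 (.cons (.leaf 1 [(3,1),(10,1)]) (.cons (.leaf 1 [(4,1),(10,1)]) (.cons (.leaf 1 [(7,1),(1,1)]) (.cons (.leaf 1 [(2,1),(10,1)]) (.cons (.leaf 1 [(10,1)]) (.cons (.leaf 1 [(4,1),(10,1)]) (.cons (.leaf 1 [(8,1),(1,1)]) (.cons (.leaf 1 [(2,1),(10,1)]) (.cons (.leaf 1 [(3,1),(10,1)]) (.cons (.leaf 1 [(10,1)]) .nil)))))))))))))))))) (.cons (.keep [3,5,6,8] (.node (.cons (.leaf 2 [(10,1),(11,1)]) (.cons (.leaf 2 [(10,1)]) (.cons (.leaf 1 [(3,1),(10,1)]) (.cons (.leaf 1 [(4,1),(10,1)]) (.cons (.leaf 1 [(1,1)]) (.cons (.leaf 1 [(1,1)]) (.cons (.leaf 1 [(1,1)]) (.cons (.leaf 1 [(1,1)]) (.cons (.leaf 2 [(10,1),(11,1),(1,1)]) (.cons (.leaf 1 [(7,1),(1,1)]) (.cons (.leaf 1 [(10,1)]) (.cons (.leaf 1 [(4,1),(10,1)]) (.cons (.leaf 2 [(10,1),(11,1),(1,1)]) (.cons (.leaf 1 [(8,1),(1,1)]) (.cons (.leaf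 1 [(3,1),(10,1)]) (.cons (.leaf 1 [(10,1)]) .nil)))))))))))))))))) (.cons (.keep [0,5,6,7] (.node (.cons (.leaf 2 [(10,1),(11,1)]) (.cons (.leaf 1 [(10,1),(2,1)]) (.cons (.leaf 2 [(10,1)]) (.cons (.leaf 1 [(4,1),(10,1)]) (.cons (.leaf 2 [(10,1),(1,1),(11,1)]) (.cons (.leaf 1 [(10,1)]) (.cons (.leaf 1 [(1,1),(6,1)]) (.cons (.leaf 1 [(4,1),(10,1)]) (.cons (.leaf 1 [(1,1)]) (.cons (.leaf 1 [(1,1)]) (.cons (.leaf 1 [(1,1)]) (.cons (.leaf 1 [(1,1)]) (.cons (.leaf 2 [(10,1),(11,1),(1,1)]) (.cons (.leaf 1 [(10,1),(2,1)]) (.cons (.leaf 1 [(8,1),(1,1)]) (.cons (.leaf 1 [(10,1)]) .nil)))))))))))))))))) (.cons (.leaf 1 [(6,1)]) (.cons (.leaf 1 []) (.cons (.leaf 1 [(6,1)]) (.cons (.leaf 1 [(6,1)]) (.cons (.leaf 1 [(7,1)]) (.cons (.leaf 1 [(7,1)]) (.cons (.leaf 1 []) (.cons (.leaf 1 [(7,1)]) (.cons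 (.leaf 1 [(8,1)]) (.cons (.leaf 1 [(8,1)]) (.cons (.leaf 1 [(8,1)]) (.cons (.leaf 1 []) .nil))))))))))))))))))

theorem e_29_30 : ESB (caseOf 4 29 30) := esb_of_ok (t := t_29_30) (by decide +kernel)

def t_29_31 : T := (.keep [0,1,2] (.node (.cons (.leaf 1 []) (.cons (.leaf 1 [(5,1)]) (.cons (.leaf 1 [(5,1)]) (.cons (.leaf 1 [(5,1)]) (.cons (.leaf 1 [(5,1)]) (.cons (.leaf 1 [(7,1)]) (.cons (.leaf 1 [(7,1)]) (.cons (.leaf 1 []) (.cons (.leaf 1 [(7,1)]) (.cons (.leaf 1 [(7,1)]) (.cons (.leaf 1 [(8,1)]) (.cons (.leaf 1 [(8,1)]) (.cons (.leaf 1 [(8,1)]) (.cons (.leaf 1 []) (.cons (.leaf 1 [(8,1)]) (.cons (.leaf 1 [(9,1)]) (.cons (.leaf 1 [(9,1)]) (.cons (.leaf 1 [(9,1)]) (.cons (.leaf 1 [(9,1)]) (.cons (.leaf 1 []) .nil))))))))))))))))))))))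

theorem e_29_31 : ESB (caseOf 4 29 31) := esb_of_ok (t := t_29_31) (by decide +kernel)

def t_30_25 : T := (.keep [0,1,2] (.node (.cons (.keep [0,2,3,6,7] (.node (.cons (.keep [0,2,3,6,7,11] (.node (.cons (.leaf 1 [(13,1)]) (.cons (.leaf 1 [(13,1),(5,1)]) (.cons (.leaf 1 [(13,1),(5,1)]) (.cons (.leaf 1 [(11,1)]) (.cons (.leaf 1 [(11,1),(5,1)]) (.cons (.leaf 1 [(11,1),(5,1)]) (.cons (.leaf 1 [(6,1)]) (.cons (.leaf 1 []) (.cons (.leaf 1 [(6,1)]) (.cons (.leaf 1 [(7,1)]) (.cons (.leaf 1 [(7,1)]) (.cons (.leaf 1 []) .nil)))))))))))))) (.cons (.keep [5,7,8,9,11] (.node (.cons (.leaf 1 [(12,1),(8,1)]) (.cons (.leaf 1 [(12,1),(8,1),(5,1)]) (.cons (.leaf 1 [(12,1),(8,1),(5,1)]) (.cons (.leaf 1 []) (.cons (.leaf 1 [(5,1)]) (.cons (.leaf 1 [(5,1)]) (.cons (.leaf 1 [(8,1),(6,1)]) (.cons (.leaf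 1 [(8,1)]) (.cons (.leaf 1 [(8,1),(6,1)]) (.cons (.leaf 1 [(8,1),(7,1)]) (.cons (.leaf 1 [(8,1),(7,1)]) (.cons (.leaf 1 [(8,1)]) .nil)))))))))))))) (.cons (.keep [4,5,9,11,12] (.node (.cons (.leaf 1 [(11,1),(9,1)]) (.cons (.leaf 1 [(11,1),(5,2)]) (.cons (.leaf 1 [(11,1),(9,1),(5,1)]) (.cons (.leaf 1 [(12,1),(9,1)]) (.cons (.leaf 1 [(12,1),(5,2)]) (.cons (.leaf 1 [(12,1),(9,1),(5,1)]) (.cons (.leaf 1 []) (.cons (.leaf 1 [(5,1)]) (.cons (.leaf 1 [(5,1)]) (.cons (.leaf 1 [(9,1),(7,1)]) (.cons (.leaf 1 [(5,1),(7,1)]) (.cons (.leaf 1 [(9,1)]) .nil)))))))))))))) (.cons (.leaf 1 [(11,1)]) (.cons (.leaf 1 [(11,1),(5,1)]) (.cons (.leaf 1 [(11,1),(5,1)]) (.cons (.leaf 1 [(6,1)]) (.cons (.leaf 1 []) (.cons (.leaf 1 [(6,1)]) (.cons (.leaf 1 [(7,1)]) (.cons (.leaf 1 [(7,1)]) (.cons (.leaf 1 [])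 .nil)))))))))))))) (.cons (.keep [5,7,8,9,10] (.node (.cons (.keep [7,8,9,10,12] (.node (.cons (.leaf 1 []) (.cons (.leaf 1 [(5,1)]) (.cons (.leaf 1 [(5,1)]) (.cons (.leaf 1 [(10,1)]) (.cons (.leaf 1 [(10,1),(5,1)]) (.cons (.leaf 1 [(10,1),(5,1)]) (.cons (.leaf 1 [(9,1),(6,1)]) (.cons (.leaf 1 [(9,1)]) (.cons (.leaf 1 [(9,1),(6,1)]) (.cons (.leaf 1 [(9,1),(7,1)]) (.cons (.leaf 1 [(9,1),(7,1)]) (.cons (.leaf 1 [(9,1)]) .nil)))))))))))))) (.cons (.keep [5,7,9,11,12] (.node (.cons (.leaf 1 [(8,1)]) (.cons (.leaf 1 [(8,1),(5,1)]) (.cons (.leaf 1 [(8,1),(5,1)]) (.cons (.leaf 1 [(10,1),(8,1)]) (.cons (.leaf 1 [(10,1),(3,1),(5,2)]) (.cons (.leaf 1 [(10,1),(4,1),(5,2)]) (.cons (.leaf 1 [(10,1),(8,2),(6,1)]) (.cons (.leaf 1 [(10,1),(8,2)]) (.cons (.leaf 1 [(10,1),(8,2),(6,1)]) (.cons (.leaf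 1 [(10,1),(8,2),(7,1)]) (.cons (.leaf 1 [(10,1),(8,2),(7,1)]) (.cons (.leaf 1 [(10,1),(8,2)]) .nil)))))))))))))) (.cons (.keep [5,8,9,11,12] (.node (.cons (.leaf 1 [(8,1)]) (.cons (.leaf 1 [(5,2)]) (.cons (.leaf 1 [(8,1),(5,1)]) (.cons (.leaf 1 [(10,1),(8,1)]) (.cons (.leaf 1 [(10,1),(5,2)]) (.cons (.leaf 1 [(10,1),(8,1),(5,1)]) (.cons (.leaf 1 [(9,1)]) (.cons (.leaf 1 [(9,1),(5,1)]) (.cons (.leaf 1 [(9,1),(5,1)]) (.cons (.leaf 1 [(9,1),(8,1),(7,1)]) (.cons (.leaf 1 [(9,1),(5,1),(7,1)]) (.cons (.leaf 1 [(9,1),(8,1)]) .nil)))))))))))))) (.cons (.leaf 1 []) (.cons (.leaf 1 [(5,1)]) (.cons (.leaf 1 [(5,1)]) (.cons (.leaf 1 [(8,1),(6,1)]) (.cons (.leaf 1 [(8,1)]) (.cons (.leaf 1 [(8,1),(6,1)]) (.cons (.leaf 1 [(8,1),(7,1)]) (.cons (.leaf 1 [(8,1),(7,1)]) (.cons (.leaf 1 [(8,1)]) .nil))))))))))))))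 (.cons (.keep [4,5,6,8,9] (.node (.cons (.keep [3,6,7,9,10] (.node (.cons (.leaf 1 [(12,1)]) (.cons (.leaf 1 [(12,1),(5,1)]) (.cons (.leaf 1 [(12,1),(5,1)]) (.cons (.leaf 1 []) (.cons (.leaf 1 [(5,1)]) (.cons (.leaf 1 [(5,1)]) (.cons (.leaf 1 [(11,1),(6,1)]) (.cons (.leaf 1 [(11,1)]) (.cons (.leaf 1 [(11,1),(6,1)]) (.cons (.leaf 1 [(11,1),(7,1)]) (.cons (.leaf 1 [(11,1),(7,1)]) (.cons (.leaf 1 [(11,1)]) .nil)))))))))))))) (.cons (.keep [5,7,8,10,11] (.node (.cons (.leaf 1 [(11,1),(8,1)]) (.cons (.leaf 1 [(11,1),(8,1),(5,1)]) (.cons (.leaf 1 [(11,1),(8,1),(5,1)]) (.cons (.leaf 1 [(8,1)]) (.cons (.leaf 1 [(3,1),(5,2)]) (.cons (.leaf 1 [(4,1),(5,2)]) (.cons (.leaf 1 [(8,2),(6,1)]) (.cons (.leaf 1 [(8,2)]) (.cons (.leaf 1 [(8,2),(6,1)]) (.cons (.leaf 1 [(8,2),(7,1)]) (.cons (.leaf 1 [(8,2),(7,1)])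 (.cons (.leaf 1 [(8,2)]) .nil)))))))))))))) (.cons (.keep [6,8,9,10,12] (.node (.cons (.leaf 1 [(11,1),(10,1),(8,1)]) (.cons (.leaf 1 [(11,1),(5,2)]) (.cons (.leaf 1 [(11,1),(10,1),(8,1),(5,1)]) (.cons (.leaf 1 [(10,1),(8,1)]) (.cons (.leaf 1 [(5,2)]) (.cons (.leaf 1 [(4,1),(8,1),(5,2)]) (.cons (.leaf 1 [(10,1)]) (.cons (.leaf 1 [(10,1),(5,1)]) (.cons (.leaf 1 [(10,1),(5,1)]) (.cons (.leaf 1 [(10,2),(8,1),(7,1)]) (.cons (.leaf 1 [(10,1),(5,1),(7,1)]) (.cons (.leaf 1 [(10,2),(8,1)]) .nil)))))))))))))) (.cons (.leaf 1 [(10,1)]) (.cons (.leaf 1 [(10,1),(5,1)]) (.cons (.leaf 1 [(10,1),(5,1)]) (.cons (.leaf 1 []) (.cons (.leaf 1 [(5,1)]) (.cons (.leaf 1 [(5,1)]) (.cons (.leaf 1 [(9,1),(7,1)]) (.cons (.leaf 1 [(5,1),(7,1)]) (.cons (.leaf 1 [(9,1)]) .nil)))))))))))))) (.cons (.keep [0,1,3,6,7]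 (.node (.cons (.keep [0,2,3,6,7,11] (.node (.cons (.leaf 1 [(13,1)]) (.cons (.leaf 1 [(13,1),(5,1)]) (.cons (.leaf 1 [(13,1),(5,1)]) (.cons (.leaf 1 [(11,1)]) (.cons (.leaf 1 [(11,1),(5,1)]) (.cons (.leaf 1 [(11,1),(5,1)]) (.cons (.leaf 1 [(6,1)]) (.cons (.leaf 1 []) (.cons (.leaf 1 [(6,1)]) (.cons (.leaf 1 [(7,1)]) (.cons (.leaf 1 [(7,1)]) (.cons (.leaf 1 []) .nil)))))))))))))) (.cons (.keep [3,5,7,11,12] (.node (.cons (.leaf 1 [(11,1)]) (.cons (.leaf 1 [(11,1),(5,1)]) (.cons (.leaf 1 [(11,1),(5,1)]) (.cons (.leaf 1 [(12,1)]) (.cons (.leaf 1 [(12,1),(5,1)]) (.cons (.leaf 1 [(12,1),(5,1)]) (.cons (.leaf 1 [(6,1)]) (.cons (.leaf 1 []) (.cons (.leaf 1 [(6,1)]) (.cons (.leaf 1 [(7,1)]) (.cons (.leaf 1 [(7,1)]) (.cons (.leaf 1 []) .nil)))))))))))))) (.cons (.keep [0,5,11,12] (.node (.cons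 (.leaf 1 [(10,1)]) (.cons (.leaf 1 [(10,1),(5,1)]) (.cons (.leaf 1 [(10,1),(5,1)]) (.cons (.leaf 1 [(11,1)]) (.cons (.leaf 1 [(11,1),(5,1)]) (.cons (.leaf 1 [(11,1),(5,1)]) (.cons (.leaf 1 [(6,1)]) (.cons (.leaf 1 []) (.cons (.leaf 1 [(6,1)]) (.cons (.leaf 1 [(7,1)]) (.cons (.leaf 1 [(7,1)]) (.cons (.leaf 1 []) .nil)))))))))))))) (.cons (.leaf 1 [(11,1),(1,1)]) (.cons (.leaf 1 [(11,1),(1,1)]) (.cons (.leaf 1 [(11,1),(1,1)]) (.cons (.leaf 1 [(6,1),(1,1)]) (.cons (.leaf 1 [(12,1),(1,1)]) (.cons (.leaf 1 [(12,1),(1,1)]) (.cons (.leaf 1 [(7,1),(1,1)]) (.cons (.leaf 1 [(12,1),(7,1),(1,1)]) (.cons (.keep [0,1,9,11,12] (.node (.cons (.leaf 1 [(6,1),(9,1)]) (.cons (.leaf 2 [(11,1),(9,1)]) (.cons (.leaf 2 [(11,1),(9,1),(6,1)]) (.cons (.leaf 1 [(6,1),(9,1)]) (.cons (.leaf 2 [(12,1),(9,1)])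 (.cons (.leaf 2 [(12,1),(9,1),(6,1)]) (.cons (.leaf 1 [(6,1)]) (.cons (.leaf 1 []) (.cons (.leaf 1 [(6,1)]) (.cons (.leaf 1 [(7,1)]) (.cons (.leaf 1 [(7,1)]) (.cons (.leaf 1 []) .nil)))))))))))))) .nil)))))))))))))) (.cons (.keep [5,7,8,9,10] (.node (.cons (.keep [7,8,9,10,12] (.node (.cons (.leaf 1 []) (.cons (.leaf 1 [(5,1)]) (.cons (.leaf 1 [(5,1)]) (.cons (.leaf 1 [(10,1)]) (.cons (.leaf 1 [(10,1),(5,1)]) (.cons (.leaf 1 [(10,1),(5,1)]) (.cons (.leaf 1 [(9,1),(6,1)]) (.cons (.leaf 1 [(9,1)]) (.cons (.leaf 1 [(9,1),(6,1)]) (.cons (.leaf 1 [(9,1),(7,1)]) (.cons (.leaf 1 [(9,1),(7,1)]) (.cons (.leaf 1 [(9,1)]) .nil)))))))))))))) (.cons (.keep [7,8,9,10,11,12] (.node (.cons (.leaf 1 []) (.cons (.leaf 1 [(5,1)]) (.cons (.leaf 1 [(5,1)]) (.cons (.leaf 1 [(10,1)]) (.cons (.leaf 1 [(10,1),(5,1)])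 (.cons (.leaf 1 [(10,1),(5,1)]) (.cons (.leaf 1 [(9,1),(6,1)]) (.cons (.leaf 1 [(9,1)]) (.cons (.leaf 1 [(9,1),(6,1)]) (.cons (.leaf 1 [(9,1),(7,1)]) (.cons (.leaf 1 [(9,1),(7,1)]) (.cons (.leaf 1 [(9,1)]) .nil)))))))))))))) (.cons (.keep [4,8,9,10,11] (.node (.cons (.leaf 1 []) (.cons (.leaf 1 [(5,1)]) (.cons (.leaf 1 [(5,1)]) (.cons (.leaf 1 [(10,1)]) (.cons (.leaf 1 [(10,1),(5,1)]) (.cons (.leaf 1 [(10,1),(5,1)]) (.cons (.leaf 1 [(9,1),(6,1)]) (.cons (.leaf 1 [(9,1)]) (.cons (.leaf 1 [(9,1),(6,1)]) (.cons (.leaf 1 [(9,1),(7,1)]) (.cons (.leaf 1 [(9,1),(7,1)]) (.cons (.leaf 1 [(9,1)]) .nil)))))))))))))) (.cons (.leaf 1 [(1,1)]) (.cons (.leaf 1 [(1,1)]) (.cons (.leaf 1 [(1,1)]) (.cons (.leaf 1 [(6,1),(8,1),(1,1)]) (.cons (.leaf 1 [(9,1),(1,1)]) (.cons (.leaf 1 [(9,1),(1,1)]) (.cons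 (.leaf 1 [(7,1),(8,1),(1,1)]) (.cons (.leaf 1 [(9,1),(7,1),(1,1)]) (.cons (.keep [0,1,8,9,12] (.node (.cons (.leaf 1 []) (.cons (.leaf 1 [(5,1)]) (.cons (.leaf 1 [(5,1)]) (.cons (.leaf 1 [(10,1),(6,1),(9,1)]) (.cons (.leaf 2 [(10,1),(11,1),(9,1)]) (.cons (.leaf 2 [(10,1),(11,1),(9,1),(6,1)]) (.cons (.leaf 1 [(10,1),(6,1)]) (.cons (.leaf 1 [(10,1)]) (.cons (.leaf 1 [(10,1),(6,1)]) (.cons (.leaf 1 [(10,1),(7,1)]) (.cons (.leaf 1 [(10,1),(7,1)]) (.cons (.leaf 1 [(10,1)]) .nil)))))))))))))) .nil)))))))))))))) (.cons (.keep [4,5,6,8,9] (.node (.cons (.keep [3,6,7,9,10] (.node (.cons (.leaf 1 [(12,1)]) (.cons (.leaf 1 [(12,1),(5,1)]) (.cons (.leaf 1 [(12,1),(5,1)]) (.cons (.leaf 1 []) (.cons (.leaf 1 [(5,1)]) (.cons (.leaf 1 [(5,1)]) (.cons (.leaf 1 [(11,1),(6,1)]) (.cons (.leaf 1 [(11,1)])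 (.cons (.leaf 1 [(11,1),(6,1)]) (.cons (.leaf 1 [(11,1),(7,1)]) (.cons (.leaf 1 [(11,1),(7,1)]) (.cons (.leaf 1 [(11,1)]) .nil)))))))))))))) (.cons (.keep [3,5,7,10,12] (.node (.cons (.leaf 1 [(11,1)]) (.cons (.leaf 1 [(11,1),(5,1)]) (.cons (.leaf 1 [(11,1),(5,1)]) (.cons (.leaf 1 []) (.cons (.leaf 1 [(5,1)]) (.cons (.leaf 1 [(5,1)]) (.cons (.leaf 1 [(9,1),(6,1)]) (.cons (.leaf 1 [(9,1)]) (.cons (.leaf 1 [(9,1),(6,1)]) (.cons (.leaf 1 [(9,1),(7,1)]) (.cons (.leaf 1 [(9,1),(7,1)]) (.cons (.leaf 1 [(9,1)]) .nil)))))))))))))) (.cons (.keep [4,6,9,10,12] (.node (.cons (.leaf 1 [(11,1)]) (.cons (.leaf 1 [(11,1),(5,1)]) (.cons (.leaf 1 [(11,1),(5,1)]) (.cons (.leaf 1 []) (.cons (.leaf 1 [(5,1)]) (.cons (.leaf 1 [(5,1)]) (.cons (.leaf 1 [(10,1),(6,1)]) (.cons (.leaf 1 [(10,1)]) (.cons (.leaf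 1 [(10,1),(6,1)]) (.cons (.leaf 1 [(10,1),(7,1)]) (.cons (.leaf 1 [(10,1),(7,1)]) (.cons (.leaf 1 [(10,1)]) .nil)))))))))))))) (.cons (.leaf 1 [(1,1),(10,1)]) (.cons (.leaf 1 [(1,1),(10,1)]) (.cons (.leaf 1 [(1,1),(10,1)]) (.cons (.leaf 1 [(1,1)]) (.cons (.leaf 1 [(1,1)]) (.cons (.leaf 1 [(1,1)]) (.cons (.leaf 1 [(7,1),(9,1),(1,1)]) (.cons (.leaf 1 [(7,1),(1,1)]) (.cons (.keep [0,1,8,9,10] (.node (.cons (.leaf 1 [(6,1),(11,1),(9,1)]) (.cons (.leaf 2 [(12,1),(11,1),(9,1)]) (.cons (.leaf 2 [(12,1),(11,1),(9,1),(6,1)]) (.cons (.leaf 1 []) (.cons (.leaf 1 [(5,1)]) (.cons (.leaf 1 [(5,1)]) (.cons (.leaf 1 [(11,1),(6,1)]) (.cons (.leaf 1 [(11,1)]) (.cons (.leaf 1 [(11,1),(6,1)]) (.cons (.leaf 1 [(11,1),(7,1)]) (.cons (.leaf 1 [(11,1),(7,1)]) (.cons (.leaf 1 [(11,1)]) .nil))))))))))))))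 .nil)))))))))))))) (.cons (.leaf 1 [(6,1)]) (.cons (.leaf 1 []) (.cons (.leaf 1 [(6,1)]) (.cons (.leaf 1 [(7,1)]) (.cons (.leaf 1 [(7,1)]) (.cons (.leaf 1 []) .nil))))))))))))))

theorem e_30_25 : ESB (caseOf 4 30 25) := esb_of_ok (t := t_30_25) (by decide +kernel)

def t_30_26 : T := (.keep [0,1,2] (.node (.cons (.leaf 1 []) (.cons (.leaf 1 [(5,1)]) (.cons (.leaf 1 [(5,1)]) (.cons (.keep [1,6,7,9] (.node (.cons (.keep [0,8,9,10] (.node (.cons (.leaf 1 []) (.cons (.leaf 1 [(5,1)]) (.cons (.leaf 1 [(5,1)]) (.cons (.keep [1,6,7,11] (.node (.cons (.leaf 1 [(11,1)]) (.cons (.leaf 1 [(10,1),(5,1)]) (.cons (.leaf 1 [(4,1),(11,1)]) (.cons (.leaf 1 [(9,1),(1,1)]) (.cons (.leaf 1 [(1,1),(9,1)]) (.cons (.leaf 1 [(1,1),(9,1)]) (.cons (.leaf 1 [(10,1),(1,1)]) (.cons (.leaf 1 [(10,1),(1,1)]) (.cons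 (.leaf 1 [(1,1),(10,1)]) (.cons (.leaf 1 [(11,1),(1,1)]) (.cons (.leaf 1 [(1,2),(0,1),(10,1)]) (.cons (.leaf 1 [(11,1)]) .nil)))))))))))))) (.cons (.keep [3,5,7,11] (.node (.cons (.leaf 1 [(11,1),(9,1)]) (.cons (.leaf 1 [(10,1),(5,1)]) (.cons (.leaf 1 [(11,1),(4,1),(9,1)]) (.cons (.leaf 1 [(1,1)]) (.cons (.leaf 1 [(1,1)]) (.cons (.leaf 1 [(1,1)]) (.cons (.leaf 1 [(10,1),(1,1)]) (.cons (.leaf 1 [(10,1),(1,1)]) (.cons (.leaf 1 [(10,1),(1,1)]) (.cons (.leaf 1 [(11,1),(9,1),(1,1)]) (.cons (.leaf 1 [(0,1),(10,1),(9,1),(1,2)]) (.cons (.leaf 1 [(11,1),(9,1)]) .nil)))))))))))))) (.cons (.keep [4,5,6,11] (.node (.cons (.leaf 1 [(11,1),(9,1)]) (.cons (.leaf 1 [(5,1)]) (.cons (.leaf 1 [(11,1),(4,1),(9,1)]) (.cons (.leaf 1 [(1,1),(10,1)]) (.cons (.leaf 1 [(5,1)]) (.cons (.leaf 1 [(1,1),(10,1)])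 (.cons (.leaf 1 [(1,1)]) (.cons (.leaf 1 [(1,1)]) (.cons (.leaf 1 [(1,1)]) (.cons (.leaf 1 [(11,1),(9,1),(1,1)]) (.cons (.leaf 1 [(5,1)]) (.cons (.leaf 1 [(11,1),(9,1)]) .nil)))))))))))))) (.cons (.leaf 1 [(6,1)]) (.cons (.leaf 1 []) (.cons (.leaf 1 [(6,1)]) (.cons (.leaf 1 [(7,1)]) (.cons (.leaf 1 [(7,1)]) (.cons (.leaf 1 []) .nil)))))))))))))) (.cons (.leaf 1 [(10,1),(5,1)]) (.cons (.keep [4,5,8,9,10] (.node (.cons (.leaf 1 [(8,1)]) (.cons (.leaf 1 [(8,1),(5,1)]) (.cons (.leaf 1 [(8,1),(5,1)]) (.cons (.leaf 1 [(6,1),(11,1),(9,1)]) (.cons (.leaf 2 [(12,1)]) (.cons (.leaf 2 [(12,1),(6,1)]) (.cons (.leaf 1 [(6,1),(8,1)]) (.cons (.leaf 1 [(8,1)]) (.cons (.leaf 1 [(8,1),(6,1)]) (.cons (.leaf 1 [(6,1),(0,1),(8,1)]) (.cons (.leaf 1 [(0,1),(8,1)]) (.cons (.leaf 1 [(8,1)]) .nil))))))))))))))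 (.cons (.leaf 1 [(9,1),(1,1)]) (.cons (.leaf 1 [(1,1),(9,1)]) (.cons (.leaf 1 [(1,1),(9,1)]) (.cons (.leaf 1 [(10,1),(1,1)]) (.cons (.leaf 1 [(10,1),(1,1)]) (.cons (.leaf 1 [(1,1),(10,1)]) (.cons (.keep [0,1,8,9,10] (.node (.cons (.leaf 1 [(9,1)]) (.cons (.leaf 1 [(5,1),(9,1)]) (.cons (.leaf 1 [(5,1),(9,1)]) (.cons (.leaf 1 [(6,1),(11,1),(9,1)]) (.cons (.leaf 2 [(12,1),(9,2)]) (.cons (.leaf 2 [(12,1),(9,2),(6,1)]) (.cons (.leaf 1 [(9,1),(6,1)]) (.cons (.leaf 1 [(9,1)]) (.cons (.leaf 1 [(6,1),(9,1)]) (.cons (.leaf 1 [(7,1),(9,1)]) (.cons (.leaf 1 [(9,1),(7,1)]) (.cons (.leaf 1 [(9,1)]) .nil)))))))))))))) (.cons (.leaf 1 [(1,2),(0,1),(10,1)]) (.cons (.keep [0,1,8,9,10] (.node (.cons (.leaf 1 []) (.cons (.leaf 1 [(5,1)]) (.cons (.leaf 1 [(5,1)]) (.cons (.leaf 1 [(6,1),(11,1),(9,1)])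 (.cons (.leaf 2 [(12,1),(9,1)]) (.cons (.leaf 2 [(12,1),(9,1),(6,1)]) (.cons (.leaf 1 [(6,1)]) (.cons (.leaf 1 []) (.cons (.leaf 1 [(6,1)]) (.cons (.leaf 1 [(7,1)]) (.cons (.leaf 1 [(7,1)]) (.cons (.leaf 1 []) .nil)))))))))))))) .nil)))))))))))))) (.cons (.keep [3,5,7,9] (.node (.cons (.keep [2,4,9,10,11] (.node (.cons (.leaf 1 [(10,1)]) (.cons (.leaf 1 [(10,1),(5,1)]) (.cons (.leaf 1 [(10,1),(5,1)]) (.cons (.leaf 1 [(10,1),(11,1)]) (.cons (.leaf 1 [(10,1),(11,1),(5,1)]) (.cons (.leaf 1 [(10,1),(11,1),(5,1)]) (.cons (.leaf 1 [(10,1),(6,1)]) (.cons (.leaf 1 [(10,1)]) (.cons (.leaf 1 [(10,1),(6,1)]) (.cons (.leaf 1 [(10,1),(7,1)]) (.cons (.leaf 1 [(10,1),(7,1)]) (.cons (.leaf 1 [(10,1)]) .nil)))))))))))))) (.cons (.leaf 1 [(10,1),(5,1)]) (.cons (.keep [2,4,9,10,11] (.node (.cons (.leaf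 2 [(3,1),(10,1)]) (.cons (.leaf 2 [(10,1)]) (.cons (.leaf 2 [(3,1),(10,1),(5,1)]) (.cons (.leaf 2 [(6,1),(11,1),(10,1)]) (.cons (.leaf 2 [(11,1),(10,1)]) (.cons (.leaf 2 [(11,1),(10,1),(6,1)]) (.cons (.leaf 2 [(10,1),(6,2)]) (.cons (.leaf 1 [(9,1),(10,1)]) (.cons (.leaf 1 [(9,1),(6,1),(10,1)]) (.cons (.leaf 2 [(3,1),(10,1),(7,2)]) (.cons (.leaf 1 [(10,1),(7,1),(9,1)]) (.cons (.leaf 1 [(9,1),(10,1)]) .nil)))))))))))))) (.cons (.leaf 1 [(1,1)]) (.cons (.leaf 1 [(1,1)]) (.cons (.leaf 1 [(1,1)]) (.cons (.leaf 1 [(10,1),(1,1)]) (.cons (.leaf 1 [(10,1),(1,1)]) (.cons (.leaf 1 [(10,1),(1,1)]) (.cons (.keep [1,8,9,10,11] (.node (.cons (.leaf 1 [(3,1),(8,1)]) (.cons (.leaf 1 [(3,1),(8,1)]) (.cons (.leaf 1 [(8,1),(3,1)]) (.cons (.leaf 1 [(6,1),(8,1)]) (.cons (.leaf 2 [(10,1),(11,1),(8,2)])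 (.cons (.leaf 2 [(10,1),(11,1),(8,2),(6,1)]) (.cons (.leaf 1 [(8,1),(6,1)]) (.cons (.leaf 1 [(10,1),(8,1)]) (.cons (.leaf 1 [(10,1),(6,1),(8,1)]) (.cons (.leaf 1 [(3,1),(8,1),(7,1)]) (.cons (.leaf 1 [(8,1),(7,1),(10,1)]) (.cons (.leaf 1 [(10,1),(8,1)]) .nil)))))))))))))) (.cons (.leaf 1 [(0,1),(10,1),(9,1),(1,2)]) (.cons (.keep [0,1,8,9,10] (.node (.cons (.leaf 1 [(3,1),(9,1)]) (.cons (.leaf 1 [(3,1),(9,1)]) (.cons (.leaf 1 [(9,1),(3,1)]) (.cons (.leaf 1 [(6,1),(9,1)]) (.cons (.leaf 2 [(11,1),(12,1),(9,1)]) (.cons (.leaf 2 [(11,1),(12,1),(9,1),(6,1)]) (.cons (.leaf 1 [(9,1),(6,1)]) (.cons (.leaf 1 [(11,1)]) (.cons (.leaf 1 [(11,1),(6,1)]) (.cons (.leaf 1 [(3,1),(9,1),(7,1)]) (.cons (.leaf 1 [(11,1),(7,1)]) (.cons (.leaf 1 [(11,1)]) .nil)))))))))))))) .nil)))))))))))))) (.cons (.keep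 [4,5,6,9] (.node (.cons (.keep [3,4,9,10,11] (.node (.cons (.leaf 1 [(10,1)]) (.cons (.leaf 1 [(5,1),(10,1)]) (.cons (.leaf 1 [(5,1),(10,1)]) (.cons (.keep [6,7,8,10,12] (.node (.cons (.leaf 1 []) (.cons (.leaf 1 [(3,1)]) (.cons (.leaf 1 [(4,1)]) (.cons (.leaf 1 [(1,1)]) (.cons (.leaf 1 [(3,1)]) (.cons (.leaf 1 [(4,1)]) (.cons (.leaf 1 [(1,1)]) (.cons (.leaf 1 []) (.cons (.leaf 1 [(4,1)]) (.cons (.leaf 1 [(1,1)]) (.cons (.leaf 1 [(3,1)]) (.cons (.leaf 1 []) .nil)))))))))))))) (.cons (.keep [5,7,9,10,12] (.node (.cons (.leaf 1 [(8,1)]) (.cons (.leaf 1 [(3,1),(8,1)]) (.cons (.leaf 1 [(4,1),(8,1)]) (.cons (.leaf 1 [(8,1),(1,1)]) (.cons (.leaf 1 [(3,1),(8,1)]) (.cons (.leaf 1 [(4,1),(8,1)]) (.cons (.leaf 1 [(8,1),(1,1)]) (.cons (.leaf 1 [(8,1)]) (.cons (.leaf 1 [(4,1),(8,1)]) (.cons (.leaf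 1 [(8,1),(1,1)]) (.cons (.leaf 1 [(3,1),(8,1)]) (.cons (.leaf 1 [(8,1)]) .nil)))))))))))))) (.cons (.keep [4,5,6,10,12] (.node (.cons (.leaf 1 [(9,1)]) (.cons (.leaf 1 [(3,1),(9,1)]) (.cons (.leaf 1 [(4,1),(9,1)]) (.cons (.leaf 1 [(9,1),(1,1)]) (.cons (.leaf 1 [(3,1),(9,1)]) (.cons (.leaf 1 [(4,1),(9,1)]) (.cons (.leaf 1 [(9,1),(1,1)]) (.cons (.leaf 1 [(9,1)]) (.cons (.leaf 1 [(4,1),(9,1)]) (.cons (.leaf 1 [(9,1),(1,1)]) (.cons (.leaf 1 [(9,1),(3,1)]) (.cons (.leaf 1 [(9,1)]) .nil)))))))))))))) (.cons (.leaf 1 [(6,1),(10,1)]) (.cons (.leaf 1 [(10,1)]) (.cons (.leaf 1 [(10,1),(6,1)]) (.cons (.leaf 1 [(7,1),(10,1)]) (.cons (.leaf 1 [(10,1),(7,1)]) (.cons (.leaf 1 [(10,1)]) .nil)))))))))))))) (.cons (.leaf 1 [(5,1)]) (.cons (.keep [4,6,9,10,11] (.node (.cons (.leaf 1 [(8,1),(10,1)])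 (.cons (.leaf 1 [(5,1),(8,1),(10,1)]) (.cons (.leaf 1 [(5,1),(8,1),(10,1)]) (.cons (.leaf 2 [(6,1),(10,1)]) (.cons (.leaf 2 [(10,1)]) (.cons (.leaf 2 [(10,1),(6,1)]) (.cons (.leaf 1 [(6,1),(10,1),(8,1)]) (.cons (.leaf 1 [(8,1),(10,1)]) (.cons (.leaf 1 [(8,1),(6,1),(10,1)]) (.cons (.leaf 1 [(7,1),(8,1),(10,1)]) (.cons (.leaf 1 [(10,1),(7,1),(8,1)]) (.cons (.leaf 1 [(8,1),(10,1)]) .nil)))))))))))))) (.cons (.leaf 1 [(1,1),(10,1)]) (.cons (.leaf 1 [(5,1)]) (.cons (.leaf 1 [(1,1),(10,1)]) (.cons (.leaf 1 [(1,1)]) (.cons (.leaf 1 [(1,1)]) (.cons (.leaf 1 [(1,1)]) (.cons (.keep [1,6,9,10,11] (.node (.cons (.leaf 1 [(10,1),(8,1)]) (.cons (.leaf 1 [(5,1),(10,1),(8,1)]) (.cons (.leaf 1 [(5,1),(10,1),(8,1)]) (.cons (.leaf 1 [(3,1),(8,1)]) (.cons (.leaf 1 [(3,1),(8,1)]) (.cons (.leaf 1 [(8,1),(3,1)])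 (.cons (.leaf 1 [(6,1),(8,1),(10,1)]) (.cons (.leaf 1 [(10,1),(8,1)]) (.cons (.leaf 1 [(10,1),(6,1),(8,1)]) (.cons (.leaf 1 [(7,1),(10,1),(8,1)]) (.cons (.leaf 1 [(8,1),(7,1),(10,1)]) (.cons (.leaf 1 [(10,1),(8,1)]) .nil)))))))))))))) (.cons (.leaf 1 [(5,1)]) (.cons (.keep [0,1,8,9,10] (.node (.cons (.leaf 1 [(11,1)]) (.cons (.leaf 1 [(5,1),(11,1)]) (.cons (.leaf 1 [(5,1),(11,1)]) (.cons (.leaf 1 [(3,1),(9,1)]) (.cons (.leaf 1 [(3,1),(9,1)]) (.cons (.leaf 1 [(9,1),(3,1)]) (.cons (.leaf 1 [(6,1),(11,1)]) (.cons (.leaf 1 [(11,1)]) (.cons (.leaf 1 [(11,1),(6,1)]) (.cons (.leaf 1 [(7,1),(11,1)]) (.cons (.leaf 1 [(11,1),(7,1)]) (.cons (.leaf 1 [(11,1)]) .nil)))))))))))))) .nil)))))))))))))) (.cons (.leaf 1 [(6,1)]) (.cons (.leaf 1 []) (.cons (.leaf 1 [(6,1)]) (.cons (.leaf 1 [(7,1)]) (.cons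 (.leaf 1 [(7,1)]) (.cons (.leaf 1 []) .nil))))))))))))))

theorem e_30_26 : ESB (caseOf 4 30 26) := esb_of_ok (t := t_30_26) (by decide +kernel)

def t_30_27 : T := (.keep [0,1,2] (.node (.cons (.leaf 1 [(6,1)]) (.cons (.leaf 1 []) (.cons (.leaf 1 [(6,1)]) (.cons (.leaf 1 [(6,1)]) (.cons (.keep [0,1,3,6,7,8] (.node (.cons (.leaf 1 [(6,1)]) (.cons (.keep [0,5,13,14] (.node (.cons (.leaf 1 [(6,1)]) (.cons (.leaf 1 []) (.cons (.leaf 1 [(6,1)]) (.cons (.leaf 1 [(6,1)]) (.cons (.leaf 1 [(12,1)]) (.cons (.leaf 1 [(5,1),(12,1)]) (.cons (.leaf 1 [(12,1),(5,1)]) (.cons (.leaf 1 [(12,1),(5,1)]) (.cons (.leaf 1 [(7,1)]) (.cons (.leaf 1 [(7,1)]) (.cons (.leaf 1 []) (.cons (.leaf 1 [(7,1)]) (.cons (.leaf 1 [(8,1)]) (.cons (.leaf 1 [(8,1)]) (.cons (.leaf 1 [(8,1)]) (.cons (.leaf 1 []) .nil))))))))))))))))))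 (.cons (.leaf 1 [(14,1),(6,1)]) (.cons (.keep [0,5,6,13,14] (.node (.cons (.leaf 1 [(6,1)]) (.cons (.leaf 1 []) (.cons (.leaf 1 [(6,1)]) (.cons (.leaf 1 [(6,1)]) (.cons (.leaf 1 [(7,1),(11,1)]) (.cons (.leaf 1 [(7,1),(12,1),(11,1)]) (.cons (.leaf 2 [(13,1),(11,1)]) (.cons (.leaf 2 [(13,1),(11,1),(7,1)]) (.cons (.leaf 1 [(7,1)]) (.cons (.leaf 1 [(7,1)]) (.cons (.leaf 1 []) (.cons (.leaf 1 [(7,1)]) (.cons (.leaf 1 [(8,1)]) (.cons (.leaf 1 [(8,1)]) (.cons (.leaf 1 [(8,1)]) (.cons (.leaf 1 []) .nil)))))))))))))))))) (.cons (.leaf 1 [(6,1)]) (.cons (.leaf 1 [(13,1),(1,1)]) (.cons (.leaf 1 [(13,1),(1,1)]) (.cons (.leaf 1 [(13,1),(1,1)]) (.cons (.leaf 1 [(6,1)]) (.cons (.leaf 1 [(14,1),(1,1)]) (.cons (.leaf 1 [(14,1),(1,1)]) (.cons (.leaf 1 [(14,1),(1,1)]) (.cons (.leaf 1 [(6,1)]) (.cons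 (.keep [0,1,10,13,14] (.node (.cons (.leaf 1 [(6,1)]) (.cons (.leaf 1 []) (.cons (.leaf 1 [(6,1)]) (.cons (.leaf 1 [(6,1)]) (.cons (.leaf 1 [(7,1),(10,1)]) (.cons (.leaf 1 [(7,1),(12,1),(10,1)]) (.cons (.leaf 2 [(13,1),(10,1)]) (.cons (.leaf 2 [(13,1),(10,1),(7,1)]) (.cons (.leaf 1 [(7,1)]) (.cons (.leaf 1 [(7,1)]) (.cons (.leaf 1 []) (.cons (.leaf 1 [(7,1)]) (.cons (.leaf 1 [(8,1)]) (.cons (.leaf 1 [(8,1)]) (.cons (.leaf 1 [(8,1)]) (.cons (.leaf 1 []) .nil)))))))))))))))))) (.cons (.leaf 1 [(14,1),(6,1)]) (.cons (.keep [0,1,10,13,14] (.node (.cons (.leaf 1 [(6,1)]) (.cons (.leaf 1 []) (.cons (.leaf 1 [(6,1)]) (.cons (.leaf 1 [(6,1)]) (.cons (.leaf 1 [(7,1),(10,1)]) (.cons (.leaf 1 [(7,1),(12,1),(10,1)]) (.cons (.leaf 2 [(13,1),(10,1)]) (.cons (.leaf 2 [(13,1),(10,1),(7,1)]) (.cons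 (.leaf 1 [(7,1)]) (.cons (.leaf 1 [(7,1)]) (.cons (.leaf 1 []) (.cons (.leaf 1 [(7,1)]) (.cons (.leaf 1 [(8,1)]) (.cons (.leaf 1 [(8,1)]) (.cons (.leaf 1 [(8,1)]) (.cons (.leaf 1 []) .nil)))))))))))))))))) .nil)))))))))))))))))) (.cons (.keep [5,7,8,9,10] (.node (.cons (.leaf 1 []) (.cons (.keep [0,5,10,11] (.node (.cons (.leaf 1 [(6,1)]) (.cons (.leaf 1 []) (.cons (.leaf 1 [(6,1)]) (.cons (.leaf 1 [(6,1)]) (.cons (.leaf 1 [(12,1)]) (.cons (.leaf 1 [(5,1),(12,1)]) (.cons (.leaf 1 [(12,1),(5,1)]) (.cons (.leaf 1 [(12,1),(5,1)]) (.cons (.leaf 1 [(7,1)]) (.cons (.leaf 1 [(7,1)]) (.cons (.leaf 1 []) (.cons (.leaf 1 [(7,1)]) (.cons (.leaf 1 [(8,1)]) (.cons (.leaf 1 [(8,1)]) (.cons (.leaf 1 [(8,1)]) (.cons (.leaf 1 []) .nil)))))))))))))))))) (.cons (.leaf 1 [(11,1),(6,1)]) (.cons (.keep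 [4,6,10,11,12] (.node (.cons (.leaf 1 [(3,1),(6,1)]) (.cons (.leaf 1 [(9,1)]) (.cons (.leaf 1 [(9,1),(6,1)]) (.cons (.leaf 1 [(9,1),(6,1)]) (.cons (.leaf 1 [(7,1)]) (.cons (.leaf 1 [(7,1),(11,1),(10,1)]) (.cons (.leaf 2 [(12,1)]) (.cons (.leaf 2 [(12,1),(7,1)]) (.cons (.leaf 1 [(7,1)]) (.cons (.leaf 1 [(7,1),(9,1)]) (.cons (.leaf 1 [(9,1)]) (.cons (.leaf 1 [(9,1),(7,1)]) (.cons (.leaf 1 [(7,1)]) (.cons (.leaf 1 [(7,1),(0,1),(9,1)]) (.cons (.leaf 1 [(0,1),(9,1)]) (.cons (.leaf 1 [(9,1)]) .nil)))))))))))))))))) (.cons (.leaf 1 [(1,1)]) (.cons (.leaf 1 [(10,1),(1,1)]) (.cons (.leaf 1 [(1,1),(10,1)]) (.cons (.leaf 1 [(1,1),(10,1)]) (.cons (.leaf 1 [(1,1)]) (.cons (.leaf 1 [(11,1),(1,1)]) (.cons (.leaf 1 [(11,1),(1,1)]) (.cons (.leaf 1 [(1,1),(11,1)]) (.cons (.leaf 1 [(1,1)]) (.cons (.keep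 [0,1,10,11,12] (.node (.cons (.leaf 1 [(6,1),(10,1)]) (.cons (.leaf 1 [(10,1)]) (.cons (.leaf 1 [(6,2),(5,1)]) (.cons (.leaf 1 [(10,1),(6,1)]) (.cons (.leaf 1 [(7,1),(10,2)]) (.cons (.leaf 1 [(7,1),(11,1),(10,1)]) (.cons (.leaf 2 [(12,1),(10,2)]) (.cons (.leaf 2 [(12,1),(10,2),(7,1)]) (.cons (.leaf 1 [(7,1)]) (.cons (.leaf 1 [(5,1),(7,1)]) (.cons (.leaf 1 [(5,1)]) (.cons (.leaf 1 [(7,1),(5,1)]) (.cons (.leaf 1 [(10,1),(8,1)]) (.cons (.leaf 1 [(8,1),(10,1)]) (.cons (.leaf 1 [(5,1),(8,2)]) (.cons (.leaf 1 [(10,1)]) .nil)))))))))))))))))) (.cons (.leaf 1 [(1,2),(0,1),(11,1)]) (.cons (.keep [0,1,10,11,12] (.node (.cons (.leaf 1 [(6,1)]) (.cons (.leaf 1 []) (.cons (.leaf 1 [(6,1)]) (.cons (.leaf 1 [(6,1)]) (.cons (.leaf 1 [(7,1),(10,1)]) (.cons (.leaf 1 [(7,1),(11,1),(10,1)]) (.cons (.leaf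 2 [(12,1),(10,1)]) (.cons (.leaf 2 [(12,1),(10,1),(7,1)]) (.cons (.leaf 1 [(7,1)]) (.cons (.leaf 1 [(7,1)]) (.cons (.leaf 1 []) (.cons (.leaf 1 [(7,1)]) (.cons (.leaf 1 [(8,1)]) (.cons (.leaf 1 [(8,1)]) (.cons (.leaf 1 [(8,1)]) (.cons (.leaf 1 []) .nil)))))))))))))))))) .nil)))))))))))))))))) (.cons (.keep [5,6,8,10,11] (.node (.cons (.leaf 1 [(6,1),(9,1)]) (.cons (.keep [4,9,11,12,13] (.node (.cons (.leaf 1 []) (.cons (.leaf 1 [(5,1)]) (.cons (.leaf 1 [(5,1)]) (.cons (.leaf 1 [(5,1)]) (.cons (.leaf 1 [(11,1)]) (.cons (.leaf 1 [(5,1),(11,1)]) (.cons (.leaf 1 [(11,1),(5,1)]) (.cons (.leaf 1 [(11,1),(5,1)]) (.cons (.leaf 1 [(10,1),(7,1)]) (.cons (.leaf 1 [(5,1),(7,1)]) (.cons (.leaf 1 [(10,1)]) (.cons (.leaf 1 [(10,1),(7,1)]) (.cons (.leaf 1 [(10,1),(8,1)]) (.cons (.leaf 1 [(5,1),(8,1)])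 (.cons (.leaf 1 [(10,1),(8,1)]) (.cons (.leaf 1 [(10,1)]) .nil)))))))))))))))))) (.cons (.leaf 1 [(11,1),(6,1)]) (.cons (.keep [4,10,11,12,13] (.node (.cons (.leaf 1 []) (.cons (.leaf 1 [(5,1)]) (.cons (.leaf 1 [(5,1)]) (.cons (.leaf 1 [(5,1)]) (.cons (.leaf 1 [(7,1),(10,1)]) (.cons (.leaf 2 [(7,1),(11,1),(10,1)]) (.cons (.leaf 2 [(11,1),(10,1)]) (.cons (.leaf 2 [(11,1),(10,1),(7,1)]) (.cons (.leaf 1 [(10,1),(7,1)]) (.cons (.leaf 1 [(5,1),(7,1)]) (.cons (.leaf 1 [(9,1),(10,1)]) (.cons (.leaf 1 [(10,1),(9,1),(7,1)]) (.cons (.leaf 1 [(3,1),(10,1),(8,1)]) (.cons (.leaf 1 [(5,1),(8,1)]) (.cons (.leaf 1 [(10,1),(8,1),(9,1)]) (.cons (.leaf 1 [(9,1),(10,1)]) .nil)))))))))))))))))) (.cons (.leaf 1 [(1,1)]) (.cons (.leaf 1 [(1,1)]) (.cons (.leaf 1 [(1,1)]) (.cons (.leaf 1 [(1,1)]) (.cons (.leaf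 1 [(6,1),(9,1)]) (.cons (.leaf 1 [(11,1),(1,1)]) (.cons (.leaf 1 [(11,1),(1,1)]) (.cons (.leaf 1 [(11,1),(1,1)]) (.cons (.leaf 1 [(6,1),(9,1)]) (.cons (.keep [1,10,11,12,13] (.node (.cons (.leaf 1 []) (.cons (.leaf 1 [(5,1)]) (.cons (.leaf 1 [(5,1)]) (.cons (.leaf 1 [(5,1)]) (.cons (.leaf 1 [(10,1),(7,1),(9,2)]) (.cons (.leaf 1 [(7,1),(9,1)]) (.cons (.leaf 2 [(10,1),(11,1),(9,2)]) (.cons (.leaf 2 [(10,1),(11,1),(9,2),(7,1)]) (.cons (.leaf 1 [(10,1),(7,1)]) (.cons (.leaf 1 [(5,1),(7,1)]) (.cons (.leaf 1 [(10,1),(5,1)]) (.cons (.leaf 1 [(5,1),(10,1),(7,1)]) (.cons (.leaf 1 [(10,1),(9,1),(8,1)]) (.cons (.leaf 1 [(5,1),(8,1)]) (.cons (.leaf 1 [(5,1),(8,2),(10,1)]) (.cons (.leaf 1 [(10,1),(9,1)]) .nil)))))))))))))))))) (.cons (.leaf 1 [(11,1),(6,1)]) (.cons (.keep [0,1,9,11,13] (.node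 (.cons (.leaf 1 []) (.cons (.leaf 1 [(5,1)]) (.cons (.leaf 1 [(5,1)]) (.cons (.leaf 1 [(5,1)]) (.cons (.leaf 1 [(11,1),(7,1),(10,1)]) (.cons (.leaf 1 [(7,1),(10,1)]) (.cons (.leaf 2 [(11,1),(12,1),(10,1)]) (.cons (.leaf 2 [(11,1),(12,1),(10,1),(7,1)]) (.cons (.leaf 1 [(11,1),(7,1)]) (.cons (.leaf 1 [(5,1),(7,1)]) (.cons (.leaf 1 [(11,1)]) (.cons (.leaf 1 [(11,1),(7,1)]) (.cons (.leaf 1 [(11,1),(8,1)]) (.cons (.leaf 1 [(5,1),(8,1)]) (.cons (.leaf 1 [(11,1),(8,1)]) (.cons (.leaf 1 [(11,1)]) .nil)))))))))))))))))) .nil)))))))))))))))))) (.cons (.keep [4,5,6,7,10] (.node (.cons (.leaf 1 [(6,1),(10,1)]) (.cons (.keep [4,5,10,12,13] (.node (.cons (.leaf 1 [(6,1),(11,1)]) (.cons (.leaf 1 [(11,1)]) (.cons (.leaf 1 [(11,1),(6,1)]) (.cons (.leaf 1 [(11,1),(6,1)]) (.cons (.leaf 1 []) (.cons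 (.leaf 1 [(5,1)]) (.cons (.leaf 1 [(5,1)]) (.cons (.leaf 1 [(5,1)]) (.cons (.leaf 1 [(11,1),(7,1)]) (.cons (.leaf 1 [(7,1),(11,1)]) (.cons (.leaf 1 [(11,1)]) (.cons (.leaf 1 [(11,1),(7,1)]) (.cons (.leaf 1 [(11,1),(8,1)]) (.cons (.leaf 1 [(8,1),(11,1)]) (.cons (.leaf 1 [(11,1),(8,1)]) (.cons (.leaf 1 [(11,1)]) .nil)))))))))))))))))) (.cons (.leaf 1 [(6,1)]) (.cons (.keep [4,7,11,12,13] (.node (.cons (.leaf 1 [(6,1),(3,1),(11,1)]) (.cons (.leaf 1 [(9,1),(11,1)]) (.cons (.leaf 1 [(9,1),(11,1),(6,1)]) (.cons (.leaf 1 [(9,1),(11,1),(6,1)]) (.cons (.leaf 1 []) (.cons (.leaf 1 [(5,1)]) (.cons (.leaf 1 [(5,1)]) (.cons (.leaf 1 [(5,1)]) (.cons (.leaf 1 [(11,1),(7,1)]) (.cons (.leaf 1 [(7,1),(11,1),(9,1)]) (.cons (.leaf 1 [(9,1),(11,1)]) (.cons (.leaf 1 [(11,1),(9,1),(7,1)]) (.cons (.leaf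 1 [(3,1),(11,1),(8,1)]) (.cons (.leaf 1 [(8,1),(9,1),(11,1)]) (.cons (.leaf 1 [(11,1),(8,1),(9,1)]) (.cons (.leaf 1 [(9,1),(11,1)]) .nil)))))))))))))))))) (.cons (.leaf 1 [(6,1),(10,1)]) (.cons (.leaf 1 [(1,1),(12,1)]) (.cons (.leaf 1 [(6,1)]) (.cons (.leaf 1 [(1,1),(12,1)]) (.cons (.leaf 1 [(1,1)]) (.cons (.leaf 1 [(1,1)]) (.cons (.leaf 1 [(1,1)]) (.cons (.leaf 1 [(1,1)]) (.cons (.leaf 1 [(6,1),(10,1)]) (.cons (.keep [1,7,11,12,13] (.node (.cons (.leaf 1 [(6,1),(11,1),(9,1)]) (.cons (.leaf 1 [(11,1),(9,1)]) (.cons (.leaf 1 [(11,1),(5,1),(6,2)]) (.cons (.leaf 1 [(11,1),(9,1),(6,1)]) (.cons (.leaf 1 []) (.cons (.leaf 1 [(5,1)]) (.cons (.leaf 1 [(5,1)]) (.cons (.leaf 1 [(5,1)]) (.cons (.leaf 1 [(11,1),(7,1)]) (.cons (.leaf 1 [(7,1),(5,1),(11,1)]) (.cons (.leaf 1 [(11,1),(5,1)]) (.cons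 (.leaf 1 [(5,1),(11,1),(7,1)]) (.cons (.leaf 1 [(11,1),(9,1),(8,1)]) (.cons (.leaf 1 [(8,1),(11,1),(9,1)]) (.cons (.leaf 1 [(5,1),(8,2),(11,1)]) (.cons (.leaf 1 [(11,1),(9,1)]) .nil)))))))))))))))))) (.cons (.leaf 1 [(6,1)]) (.cons (.keep [0,1,9,10,12] (.node (.cons (.leaf 1 [(6,1),(12,1)]) (.cons (.leaf 1 [(12,1)]) (.cons (.leaf 1 [(12,1),(6,1)]) (.cons (.leaf 1 [(12,1),(6,1)]) (.cons (.leaf 1 []) (.cons (.leaf 1 [(5,1)]) (.cons (.leaf 1 [(5,1)]) (.cons (.leaf 1 [(5,1)]) (.cons (.leaf 1 [(12,1),(7,1)]) (.cons (.leaf 1 [(7,1),(12,1)]) (.cons (.leaf 1 [(12,1)]) (.cons (.leaf 1 [(12,1),(7,1)]) (.cons (.leaf 1 [(12,1),(8,1)]) (.cons (.leaf 1 [(8,1),(12,1)]) (.cons (.leaf 1 [(12,1),(8,1)]) (.cons (.leaf 1 [(12,1)]) .nil)))))))))))))))))) .nil)))))))))))))))))) (.cons (.leaf 1 [(7,1)])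 (.cons (.leaf 1 [(7,1)]) (.cons (.leaf 1 []) (.cons (.leaf 1 [(7,1)]) (.cons (.leaf 1 [(8,1)]) (.cons (.leaf 1 [(8,1)]) (.cons (.leaf 1 [(8,1)]) (.cons (.leaf 1 []) .nil))))))))))))))))))

theorem e_30_27 : ESB (caseOf 4 30 27) := esb_of_ok (t := t_30_27) (by decide +kernel)

def ks : List (ℕ × ℕ) := [(29, 25), (29, 26), (29, 27), (29, 28), (29, 29), (29, 30), (29, 31),
  (30, 25), (30, 26), (30, 27)]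

theorem ks_ok : ∀ p ∈ ks, ESB (caseOf 4 p.1 p.2) := ks_cons e_29_25 <| ks_cons e_29_26 <| ks_cons
  e_29_27 <| ks_cons e_29_28 <| ks_cons e_29_29 <| ks_cons e_29_30 <| ks_cons e_29_31 <| ks_cons
  e_30_25 <| ks_cons e_30_26 <| ks_cons e_30_27 <| ks_nil

end Pool.Agent.H4.RD4.E23
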