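import Pool.Agent.H4.RD4.Chk

/-! # Certificates for special cases of order four -/

set_option maxRecDepth 20000

namespace Pool.Agent.H4.RD4.E24

open Pool.Agent.H50.Rdb
open Pool.Agent.H81.RDE (ESB caseOf)

def z_30_28_0 : F := ⟨0, 0, -1, 0, 2⟩

def h_30_28_0 : List F := [⟨1, 0, -1, 0, 0⟩, ⟨0, -1, 1, 0, 0⟩, ⟨0, 0, 1, -1, 0⟩, ⟨-1, 0, 0, 0, 1⟩]

def t_30_28_0 : T := (.node (.cons (.keep [2,6,7,8,9] (.node (.cons (.leaf 1 [(2,1),(12,1)]) (.cons (.leaf 1 [(3,1),(12,1)]) (.cons (.leaf 1 [(4,1),(12,1)]) (.cons (.leaf 1 [(12,1)]) (.cons (.leaf 1 [(3,1),(12,1)]) (.cons (.leaf 1 [(4,1),(12,1)]) (.cons (.leaf 1 [(2,1),(12,1)]) (.cons (.leaf 1 [(12,1)]) (.cons (.leaf 1 [(4,1),(12,1)]) (.cons (.leaf 1 [(2,1),(12,1)]) (.cons (.leaf 1 [(3,1),(12,1)]) (.cons (.leaf 1 [(12,1)]) .nil))))))))))))))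 (.cons (.keep [3,5,7,8,10,11] (.node (.cons (.leaf 1 [(2,2),(13,1)]) (.cons (.leaf 1 [(3,1),(13,1),(2,1)]) (.cons (.leaf 1 [(4,1),(13,1),(2,1)]) (.cons (.leaf 1 [(12,1),(13,1)]) (.cons (.leaf 1 [(12,1),(3,1),(13,1)]) (.cons (.leaf 1 [(12,1),(4,1),(13,1)]) (.cons (.leaf 1 [(12,1),(13,1),(2,1)]) (.cons (.leaf 1 [(12,1),(13,1)]) (.cons (.leaf 1 [(12,1),(13,1),(4,1)]) (.cons (.leaf 1 [(12,1),(13,1),(2,1)]) (.cons (.leaf 1 [(12,1),(13,1),(3,1)]) (.cons (.leaf 1 [(12,1),(13,1)]) .nil)))))))))))))) (.cons (.keep [4,5,8,9,10] (.node (.cons (.leaf 1 [(2,1),(11,1)]) (.cons (.leaf 1 [(3,1),(11,1)]) (.cons (.leaf 1 [(4,1),(11,1)]) (.cons (.leaf 1 [(11,1)]) (.cons (.leaf 1 [(3,1),(11,1)]) (.cons (.leaf 1 [(4,1),(11,1)]) (.cons (.leaf 1 [(2,1),(11,1)]) (.cons (.leaf 1 [(11,1)]) (.cons (.leaf 1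 [(4,1),(11,1)]) (.cons (.leaf 1 [(2,1),(11,1)]) (.cons (.leaf 1 [(3,1),(11,1)]) (.cons (.leaf 1 [(11,1)]) .nil)))))))))))))) (.cons (.keep [1,3,4,8] (.node (.cons (.leaf 1 [(2,1),(8,1)]) (.cons (.leaf 1 [(3,1),(8,1)]) (.cons (.leaf 1 [(4,1),(8,1)]) (.cons (.leaf 1 [(8,1)]) (.cons (.leaf 1 [(3,1),(8,1)]) (.cons (.leaf 1 [(4,1),(8,1)]) (.cons (.leaf 1 [(2,1),(8,1)]) (.cons (.leaf 1 [(8,1)]) (.cons (.leaf 1 [(4,1),(8,1)]) (.cons (.leaf 1 [(2,1),(8,1)]) (.cons (.leaf 1 [(3,1),(8,1)]) (.cons (.leaf 1 [(8,1)]) .nil)))))))))))))) (.cons (.keep [1,3,5,7,8] (.node (.cons (.leaf 1 [(2,1),(8,1)]) (.cons (.leaf 1 [(3,1),(8,1)]) (.cons (.leaf 1 [(4,1),(8,1)]) (.cons (.leaf 1 [(8,1)]) (.cons (.leaf 1 [(3,1),(8,1)]) (.cons (.leaf 1 [(4,1),(8,1)]) (.cons (.leaf 1 [(2,1),(8,1)]) (.cons (.leaf 1 [(8,1)])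 (.cons (.leaf 1 [(4,1),(8,1)]) (.cons (.leaf 1 [(2,1),(8,1)]) (.cons (.leaf 1 [(3,1),(8,1)]) (.cons (.leaf 1 [(8,1)]) .nil)))))))))))))) (.cons (.keep [1,4,5,6,8] (.node (.cons (.leaf 1 [(2,1),(8,1)]) (.cons (.leaf 1 [(3,1),(8,1)]) (.cons (.leaf 1 [(4,1),(8,1)]) (.cons (.leaf 1 [(8,1)]) (.cons (.leaf 1 [(3,1),(8,1)]) (.cons (.leaf 1 [(4,1),(8,1)]) (.cons (.leaf 1 [(2,1),(8,1)]) (.cons (.leaf 1 [(8,1)]) (.cons (.leaf 1 [(4,1),(8,1)]) (.cons (.leaf 1 [(2,1),(8,1)]) (.cons (.leaf 1 [(3,1),(8,1)]) (.cons (.leaf 1 [(8,1)]) .nil)))))))))))))) (.cons (.keep [2,6,7,8,9] (.node (.cons (.leaf 1 [(2,1),(12,1)]) (.cons (.leaf 1 [(3,1),(12,1)]) (.cons (.leaf 1 [(4,1),(12,1)]) (.cons (.leaf 1 [(12,1)]) (.cons (.leaf 1 [(3,1),(12,1)]) (.cons (.leaf 1 [(4,1),(12,1)]) (.cons (.leaf 1 [(2,1),(12,1)])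 (.cons (.leaf 1 [(12,1)]) (.cons (.leaf 1 [(4,1),(12,1)]) (.cons (.leaf 1 [(2,1),(12,1)]) (.cons (.leaf 1 [(3,1),(12,1)]) (.cons (.leaf 1 [(12,1)]) .nil)))))))))))))) (.cons (.keep [2,4,8,9,10] (.node (.cons (.leaf 1 [(2,1),(11,1)]) (.cons (.leaf 1 [(3,1),(11,1)]) (.cons (.leaf 1 [(4,1),(11,1)]) (.cons (.leaf 1 [(11,1)]) (.cons (.leaf 1 [(3,1),(11,1)]) (.cons (.leaf 1 [(4,1),(11,1)]) (.cons (.leaf 1 [(2,1),(11,1)]) (.cons (.leaf 1 [(11,1)]) (.cons (.leaf 1 [(4,1),(11,1)]) (.cons (.leaf 1 [(2,1),(11,1)]) (.cons (.leaf 1 [(3,1),(11,1)]) (.cons (.leaf 1 [(11,1)]) .nil)))))))))))))) (.cons (.keep [4,5,8,9,10] (.node (.cons (.leaf 1 [(2,1),(11,1)]) (.cons (.leaf 1 [(3,1),(11,1)]) (.cons (.leaf 1 [(4,1),(11,1)]) (.cons (.leaf 1 [(11,1)]) (.cons (.leaf 1 [(3,1),(11,1)]) (.cons (.leaf 1 [(4,1),(11,1)])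 (.cons (.leaf 1 [(2,1),(11,1)]) (.cons (.leaf 1 [(11,1)]) (.cons (.leaf 1 [(4,1),(11,1)]) (.cons (.leaf 1 [(2,1),(11,1)]) (.cons (.leaf 1 [(3,1),(11,1)]) (.cons (.leaf 1 [(11,1)]) .nil)))))))))))))) (.cons (.keep [2,6,7,8,9] (.node (.cons (.leaf 1 [(2,1),(12,1)]) (.cons (.leaf 1 [(3,1),(12,1)]) (.cons (.leaf 1 [(4,1),(12,1)]) (.cons (.leaf 1 [(12,1)]) (.cons (.leaf 1 [(3,1),(12,1)]) (.cons (.leaf 1 [(4,1),(12,1)]) (.cons (.leaf 1 [(2,1),(12,1)]) (.cons (.leaf 1 [(12,1)]) (.cons (.leaf 1 [(4,1),(12,1)]) (.cons (.leaf 1 [(2,1),(12,1)]) (.cons (.leaf 1 [(3,1),(12,1)]) (.cons (.leaf 1 [(12,1)]) .nil)))))))))))))) (.cons (.keep [3,5,7,8,9,10] (.node (.cons (.leaf 1 [(2,1),(12,1)]) (.cons (.leaf 1 [(3,1),(12,1)]) (.cons (.leaf 1 [(4,1),(12,1)]) (.cons (.leaf 1 [(12,1)]) (.cons (.leaf 1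 [(3,1),(12,1)]) (.cons (.leaf 1 [(4,1),(12,1)]) (.cons (.leaf 1 [(2,1),(12,1)]) (.cons (.leaf 1 [(12,1)]) (.cons (.leaf 1 [(4,1),(12,1)]) (.cons (.leaf 1 [(2,1),(12,1)]) (.cons (.leaf 1 [(3,1),(12,1)]) (.cons (.leaf 1 [(12,1)]) .nil)))))))))))))) (.cons (.keep [0,2,9,10] (.node (.cons (.leaf 1 [(2,1),(10,1)]) (.cons (.leaf 1 [(3,1),(10,1)]) (.cons (.leaf 1 [(4,1),(10,1)]) (.cons (.leaf 1 [(10,1)]) (.cons (.leaf 1 [(3,1),(10,1)]) (.cons (.leaf 1 [(4,1),(10,1)]) (.cons (.leaf 1 [(2,1),(10,1)]) (.cons (.leaf 1 [(10,1)]) (.cons (.leaf 1 [(4,1),(10,1)]) (.cons (.leaf 1 [(2,1),(10,1)]) (.cons (.leaf 1 [(3,1),(10,1)]) (.cons (.leaf 1 [(10,1)]) .nil)))))))))))))) .nil)))))))))))))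

theorem c_30_28_0 : Concl 30 28 z_30_28_0 h_30_28_0 .nd := piece _ hP_nil t_30_28_0 _ _ (by
  decide +kernel)

def z_30_28_1 : F := ⟨1, -1, 0, 0, 1⟩

def h_30_28_1 : List F := [⟨1, -1, 0, 0, 0⟩, ⟨0, 1, -1, 0, 0⟩, ⟨0, 1, 0, -1, 0⟩, ⟨0, -1, 0, 0, 1⟩]

def t_30_28_1 : T := (.node (.cons (.keep [2,6,7,11] (.node (.cons (.keep [2,6,7,8,11] (.node (.cons (.leaf 1 [(2,1)]) (.cons (.leaf 1 [(3,1)]) (.cons (.leaf 1 [(4,1)]) (.cons (.leaf 1 []) (.cons (.leaf 1 [(3,1)]) (.cons (.leaf 1 [(4,1)]) (.cons (.leaf 1 [(2,1)]) (.cons (.leaf 1 []) (.cons (.leaf 1 [(4,1)]) (.cons (.leaf 1 [(2,1)]) (.cons (.leaf 1 [(3,1)]) (.cons (.leaf 1 []) .nil)))))))))))))) (.cons (.keep [3,5,7,8,11] (.node (.cons (.leaf 1 [(2,1)]) (.cons (.leaf 1 [(3,1)]) (.cons (.leaf 1 [(4,1)]) (.cons (.leaf 1 []) (.cons (.leaf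 1 [(3,1)]) (.cons (.leaf 1 [(4,1)]) (.cons (.leaf 1 [(2,1)]) (.cons (.leaf 1 []) (.cons (.leaf 1 [(4,1)]) (.cons (.leaf 1 [(2,1)]) (.cons (.leaf 1 [(3,1)]) (.cons (.leaf 1 []) .nil)))))))))))))) (.cons (.keep [4,5,6,8,11] (.node (.cons (.leaf 1 [(2,1)]) (.cons (.leaf 1 [(3,1)]) (.cons (.leaf 1 [(4,1)]) (.cons (.leaf 1 []) (.cons (.leaf 1 [(3,1)]) (.cons (.leaf 1 [(4,1)]) (.cons (.leaf 1 [(2,1)]) (.cons (.leaf 1 []) (.cons (.leaf 1 [(4,1)]) (.cons (.leaf 1 [(2,1)]) (.cons (.leaf 1 [(3,1)]) (.cons (.leaf 1 []) .nil)))))))))))))) (.cons (.keep [1,4,8,9,10] (.node (.cons (.leaf 1 [(2,1)]) (.cons (.leaf 1 [(3,1)]) (.cons (.leaf 1 [(4,1)]) (.cons (.leaf 1 []) (.cons (.leaf 1 [(3,1)]) (.cons (.leaf 1 [(4,1)]) (.cons (.leaf 1 [(2,1)]) (.cons (.leaf 1 []) (.cons (.leaf 1 [(4,1)]) (.cons (.leaf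 1 [(2,1)]) (.cons (.leaf 1 [(3,1)]) (.cons (.leaf 1 []) .nil)))))))))))))) (.cons (.keep [1,5,7,8,10] (.node (.cons (.leaf 1 [(2,1)]) (.cons (.leaf 1 [(3,1)]) (.cons (.leaf 1 [(4,1)]) (.cons (.leaf 1 []) (.cons (.leaf 1 [(3,1)]) (.cons (.leaf 1 [(4,1)]) (.cons (.leaf 1 [(2,1)]) (.cons (.leaf 1 []) (.cons (.leaf 1 [(4,1)]) (.cons (.leaf 1 [(2,1)]) (.cons (.leaf 1 [(3,1)]) (.cons (.leaf 1 []) .nil)))))))))))))) (.cons (.keep [1,4,5,8,9,10] (.node (.cons (.leaf 1 [(2,1)]) (.cons (.leaf 1 [(3,1)]) (.cons (.leaf 1 [(4,1)]) (.cons (.leaf 1 []) (.cons (.leaf 1 [(3,1)]) (.cons (.leaf 1 [(4,1)]) (.cons (.leaf 1 [(2,1)]) (.cons (.leaf 1 []) (.cons (.leaf 1 [(4,1)]) (.cons (.leaf 1 [(2,1)]) (.cons (.leaf 1 [(3,1)]) (.cons (.leaf 1 []) .nil)))))))))))))) (.cons (.keep [1,6,7,8,9] (.node (.cons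 (.leaf 1 [(2,1)]) (.cons (.leaf 1 [(3,1)]) (.cons (.leaf 1 [(4,1)]) (.cons (.leaf 1 []) (.cons (.leaf 1 [(3,1)]) (.cons (.leaf 1 [(4,1)]) (.cons (.leaf 1 [(2,1)]) (.cons (.leaf 1 []) (.cons (.leaf 1 [(4,1)]) (.cons (.leaf 1 [(2,1)]) (.cons (.leaf 1 [(3,1)]) (.cons (.leaf 1 []) .nil)))))))))))))) (.cons (.keep [1,4,8,9,10] (.node (.cons (.leaf 1 [(2,1)]) (.cons (.leaf 1 [(3,1)]) (.cons (.leaf 1 [(4,1)]) (.cons (.leaf 1 []) (.cons (.leaf 1 [(3,1)]) (.cons (.leaf 1 [(4,1)]) (.cons (.leaf 1 [(2,1)]) (.cons (.leaf 1 []) (.cons (.leaf 1 [(4,1)]) (.cons (.leaf 1 [(2,1)]) (.cons (.leaf 1 [(3,1)]) (.cons (.leaf 1 []) .nil)))))))))))))) (.cons (.keep [1,4,6,8,9,10] (.node (.cons (.leaf 1 [(2,1)]) (.cons (.leaf 1 [(3,1)]) (.cons (.leaf 1 [(4,1)]) (.cons (.leaf 1 []) (.cons (.leaf 1 [(3,1)])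 (.cons (.leaf 1 [(4,1)]) (.cons (.leaf 1 [(2,1)]) (.cons (.leaf 1 []) (.cons (.leaf 1 [(4,1)]) (.cons (.leaf 1 [(2,1)]) (.cons (.leaf 1 [(3,1)]) (.cons (.leaf 1 []) .nil)))))))))))))) (.cons (.keep [1,7,8,9,10] (.node (.cons (.leaf 1 [(2,1)]) (.cons (.leaf 1 [(3,1)]) (.cons (.leaf 1 [(4,1)]) (.cons (.leaf 1 []) (.cons (.leaf 1 [(3,1)]) (.cons (.leaf 1 [(4,1)]) (.cons (.leaf 1 [(2,1)]) (.cons (.leaf 1 []) (.cons (.leaf 1 [(4,1)]) (.cons (.leaf 1 [(2,1)]) (.cons (.leaf 1 [(3,1)]) (.cons (.leaf 1 []) .nil)))))))))))))) (.cons (.keep [1,7,8,9,10] (.node (.cons (.leaf 1 [(2,1)]) (.cons (.leaf 1 [(3,1)]) (.cons (.leaf 1 [(4,1)]) (.cons (.leaf 1 []) (.cons (.leaf 1 [(3,1)]) (.cons (.leaf 1 [(4,1)]) (.cons (.leaf 1 [(2,1)]) (.cons (.leaf 1 []) (.cons (.leaf 1 [(4,1)]) (.cons (.leaf 1 [(2,1)])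 (.cons (.leaf 1 [(3,1)]) (.cons (.leaf 1 []) .nil)))))))))))))) (.cons (.keep [0,1,9,10] (.node (.cons (.leaf 1 [(2,1)]) (.cons (.leaf 1 [(3,1)]) (.cons (.leaf 1 [(4,1)]) (.cons (.leaf 1 []) (.cons (.leaf 1 [(3,1)]) (.cons (.leaf 1 [(4,1)]) (.cons (.leaf 1 [(2,1)]) (.cons (.leaf 1 []) (.cons (.leaf 1 [(4,1)]) (.cons (.leaf 1 [(2,1)]) (.cons (.leaf 1 [(3,1)]) (.cons (.leaf 1 []) .nil)))))))))))))) .nil)))))))))))))) (.cons (.keep [3,5,7,11] (.leaf 0 [(0,0)])) (.cons (.keep [4,5,6,11] (.node (.cons (.keep [3,7,8,10,11] (.node (.cons (.leaf 1 [(12,1)]) (.cons (.leaf 1 [(3,1),(11,1),(12,1)]) (.cons (.leaf 1 [(4,1),(11,1),(12,1)]) (.cons (.leaf 1 [(12,1),(1,1)]) (.cons (.leaf 1 [(12,1),(3,1),(1,1)]) (.cons (.leaf 1 [(12,1),(4,1),(1,1)]) (.cons (.leaf 1 [(12,1),(1,1)]) (.cons (.leaf 1 [(12,1),(11,1)])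 (.cons (.leaf 1 [(12,1),(11,1),(4,1)]) (.cons (.leaf 1 [(12,1),(1,1)]) (.cons (.leaf 1 [(12,1),(11,1),(3,1)]) (.cons (.leaf 1 [(12,1),(11,1)]) .nil)))))))))))))) (.cons (.keep [3,5,7,8,9] (.node (.cons (.leaf 1 [(2,1),(12,1)]) (.cons (.leaf 1 [(3,1),(12,1)]) (.cons (.leaf 1 [(4,1),(12,1)]) (.cons (.leaf 1 [(12,1)]) (.cons (.leaf 1 [(3,1),(12,1)]) (.cons (.leaf 1 [(4,1),(12,1)]) (.cons (.leaf 1 [(12,1),(2,1)]) (.cons (.leaf 1 [(12,1)]) (.cons (.leaf 1 [(4,1),(12,1)]) (.cons (.leaf 1 [(12,1),(2,1)]) (.cons (.leaf 1 [(3,1),(12,1)]) (.cons (.leaf 1 [(12,1)]) .nil)))))))))))))) (.cons (.keep [4,6,8,9,10] (.node (.cons (.leaf 1 [(2,1),(11,1)]) (.cons (.leaf 1 [(3,1),(11,1)]) (.cons (.leaf 1 [(4,1),(11,1)]) (.cons (.leaf 1 [(11,1)]) (.cons (.leaf 1 [(3,1),(11,1)]) (.cons (.leaf 1 [(4,1),(11,1)])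 (.cons (.leaf 1 [(11,1),(2,1)]) (.cons (.leaf 1 [(11,1)]) (.cons (.leaf 1 [(4,1),(11,1)]) (.cons (.leaf 1 [(11,1),(2,1)]) (.cons (.leaf 1 [(3,1),(11,1)]) (.cons (.leaf 1 [(11,1)]) .nil)))))))))))))) (.cons (.keep [3,4,8,9,10] (.node (.cons (.leaf 1 [(2,1),(11,1)]) (.cons (.leaf 1 [(3,1),(11,1)]) (.cons (.leaf 1 [(4,1),(11,1)]) (.cons (.leaf 1 [(11,1)]) (.cons (.leaf 1 [(3,1),(11,1)]) (.cons (.leaf 1 [(4,1),(11,1)]) (.cons (.leaf 1 [(11,1),(2,1)]) (.cons (.leaf 1 [(11,1)]) (.cons (.leaf 1 [(4,1),(11,1)]) (.cons (.leaf 1 [(11,1),(2,1)]) (.cons (.leaf 1 [(3,1),(11,1)]) (.cons (.leaf 1 [(11,1)]) .nil)))))))))))))) (.cons (.keep [3,5,7,8,9] (.node (.cons (.leaf 1 [(2,1),(12,1)]) (.cons (.leaf 1 [(3,1),(12,1)]) (.cons (.leaf 1 [(4,1),(12,1)]) (.cons (.leaf 1 [(12,1)]) (.cons (.leaf 1 [(3,1),(12,1)])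 (.cons (.leaf 1 [(4,1),(12,1)]) (.cons (.leaf 1 [(12,1),(2,1)]) (.cons (.leaf 1 [(12,1)]) (.cons (.leaf 1 [(4,1),(12,1)]) (.cons (.leaf 1 [(12,1),(2,1)]) (.cons (.leaf 1 [(3,1),(12,1)]) (.cons (.leaf 1 [(12,1)]) .nil)))))))))))))) (.cons (.keep [4,6,8,9,10] (.node (.cons (.leaf 1 [(2,1),(11,1)]) (.cons (.leaf 1 [(3,1),(11,1)]) (.cons (.leaf 1 [(4,1),(11,1)]) (.cons (.leaf 1 [(11,1)]) (.cons (.leaf 1 [(3,1),(11,1)]) (.cons (.leaf 1 [(4,1),(11,1)]) (.cons (.leaf 1 [(11,1),(2,1)]) (.cons (.leaf 1 [(11,1)]) (.cons (.leaf 1 [(4,1),(11,1)]) (.cons (.leaf 1 [(11,1),(2,1)]) (.cons (.leaf 1 [(3,1),(11,1)]) (.cons (.leaf 1 [(11,1)]) .nil)))))))))))))) (.cons (.keep [1,2,6,7,8] (.node (.cons (.leaf 1 [(2,1),(8,1)]) (.cons (.leaf 1 [(3,1),(8,1)]) (.cons (.leaf 1 [(4,1),(8,1)]) (.cons (.leaf 1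 [(8,1)]) (.cons (.leaf 1 [(3,1),(8,1)]) (.cons (.leaf 1 [(4,1),(8,1)]) (.cons (.leaf 1 [(8,1),(2,1)]) (.cons (.leaf 1 [(8,1)]) (.cons (.leaf 1 [(4,1),(8,1)]) (.cons (.leaf 1 [(8,1),(2,1)]) (.cons (.leaf 1 [(3,1),(8,1)]) (.cons (.leaf 1 [(8,1)]) .nil)))))))))))))) (.cons (.keep [1,2,4,8] (.node (.cons (.leaf 1 [(2,1),(8,1)]) (.cons (.leaf 1 [(3,1),(8,1)]) (.cons (.leaf 1 [(4,1),(8,1)]) (.cons (.leaf 1 [(8,1)]) (.cons (.leaf 1 [(3,1),(8,1)]) (.cons (.leaf 1 [(4,1),(8,1)]) (.cons (.leaf 1 [(8,1),(2,1)]) (.cons (.leaf 1 [(8,1)]) (.cons (.leaf 1 [(4,1),(8,1)]) (.cons (.leaf 1 [(8,1),(2,1)]) (.cons (.leaf 1 [(3,1),(8,1)]) (.cons (.leaf 1 [(8,1)]) .nil)))))))))))))) (.cons (.keep [1,4,5,6,8] (.node (.cons (.leaf 1 [(2,1),(8,1)]) (.cons (.leaf 1 [(3,1),(8,1)]) (.cons (.leaf 1 [(4,1),(8,1)])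 (.cons (.leaf 1 [(8,1)]) (.cons (.leaf 1 [(3,1),(8,1)]) (.cons (.leaf 1 [(4,1),(8,1)]) (.cons (.leaf 1 [(8,1),(2,1)]) (.cons (.leaf 1 [(8,1)]) (.cons (.leaf 1 [(4,1),(8,1)]) (.cons (.leaf 1 [(8,1),(2,1)]) (.cons (.leaf 1 [(3,1),(8,1)]) (.cons (.leaf 1 [(8,1)]) .nil)))))))))))))) (.cons (.keep [3,7,8,9,10] (.node (.cons (.leaf 1 [(2,1),(11,1)]) (.cons (.leaf 1 [(3,1),(11,1)]) (.cons (.leaf 1 [(4,1),(11,1)]) (.cons (.leaf 1 [(11,1)]) (.cons (.leaf 1 [(3,1),(11,1)]) (.cons (.leaf 1 [(4,1),(11,1)]) (.cons (.leaf 1 [(11,1),(2,1)]) (.cons (.leaf 1 [(11,1)]) (.cons (.leaf 1 [(4,1),(11,1)]) (.cons (.leaf 1 [(11,1),(2,1)]) (.cons (.leaf 1 [(3,1),(11,1)]) (.cons (.leaf 1 [(11,1)]) .nil)))))))))))))) (.cons (.keep [3,5,7,8,9] (.node (.cons (.leaf 1 [(2,1),(12,1)]) (.cons (.leaf 1 [(3,1),(12,1)])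 (.cons (.leaf 1 [(4,1),(12,1)]) (.cons (.leaf 1 [(12,1)]) (.cons (.leaf 1 [(3,1),(12,1)]) (.cons (.leaf 1 [(4,1),(12,1)]) (.cons (.leaf 1 [(12,1),(2,1)]) (.cons (.leaf 1 [(12,1)]) (.cons (.leaf 1 [(4,1),(12,1)]) (.cons (.leaf 1 [(12,1),(2,1)]) (.cons (.leaf 1 [(3,1),(12,1)]) (.cons (.leaf 1 [(12,1)]) .nil)))))))))))))) (.cons (.keep [0,3,9,10] (.node (.cons (.leaf 1 [(2,1),(10,1)]) (.cons (.leaf 1 [(3,1),(10,1)]) (.cons (.leaf 1 [(4,1),(10,1)]) (.cons (.leaf 1 [(10,1)]) (.cons (.leaf 1 [(3,1),(10,1)]) (.cons (.leaf 1 [(4,1),(10,1)]) (.cons (.leaf 1 [(10,1),(2,1)]) (.cons (.leaf 1 [(10,1)]) (.cons (.leaf 1 [(4,1),(10,1)]) (.cons (.leaf 1 [(10,1),(2,1)]) (.cons (.leaf 1 [(3,1),(10,1)]) (.cons (.leaf 1 [(10,1)]) .nil)))))))))))))) .nil)))))))))))))) (.cons (.keep [1,4,8,9,10] (.node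 (.cons (.leaf 1 [(2,1)]) (.cons (.leaf 1 [(3,1)]) (.cons (.leaf 1 [(4,1)]) (.cons (.leaf 1 []) (.cons (.leaf 1 [(3,1)]) (.cons (.leaf 1 [(4,1)]) (.cons (.leaf 1 [(2,1)]) (.cons (.leaf 1 []) (.cons (.leaf 1 [(4,1)]) (.cons (.leaf 1 [(2,1)]) (.cons (.leaf 1 [(3,1)]) (.cons (.leaf 1 []) .nil)))))))))))))) (.cons (.keep [1,5,7,10,11] (.node (.cons (.leaf 1 []) (.cons (.leaf 1 [(3,1),(9,1)]) (.cons (.leaf 1 [(4,1),(9,1)]) (.cons (.leaf 1 [(1,1)]) (.cons (.leaf 1 [(1,1),(3,1)]) (.cons (.leaf 1 [(1,1),(4,1)]) (.cons (.leaf 1 [(1,1)]) (.cons (.leaf 1 [(9,1)]) (.cons (.leaf 1 [(9,1),(4,1)]) (.cons (.leaf 1 [(1,1)]) (.cons (.leaf 1 [(9,1),(3,1)]) (.cons (.leaf 1 [(9,1)]) .nil)))))))))))))) (.cons (.keep [1,4,5,9,10,11] (.node (.cons (.leaf 1 [(2,1),(10,1)]) (.cons (.leaf 1 []) (.cons (.leaf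 1 [(4,1),(10,1)]) (.cons (.leaf 1 [(10,1)]) (.cons (.leaf 1 [(1,1)]) (.cons (.leaf 1 [(10,1),(4,1)]) (.cons (.leaf 1 [(1,1),(2,1)]) (.cons (.leaf 1 [(1,1)]) (.cons (.leaf 1 [(1,1),(4,1)]) (.cons (.leaf 1 [(10,1),(2,1)]) (.cons (.leaf 1 [(1,1)]) (.cons (.leaf 1 [(10,1)]) .nil)))))))))))))) (.cons (.keep [1,6,7,9,11] (.node (.cons (.leaf 1 [(2,2)]) (.cons (.leaf 1 [(3,1),(2,1)]) (.cons (.leaf 1 [(4,1),(2,1)]) (.cons (.leaf 1 [(9,1)]) (.cons (.leaf 1 [(9,1),(3,1)]) (.cons (.leaf 1 [(9,1),(4,1)]) (.cons (.leaf 1 [(9,1),(2,1)]) (.cons (.leaf 1 [(9,1)]) (.cons (.leaf 1 [(9,1),(4,1)]) (.cons (.leaf 1 [(9,1),(2,1)]) (.cons (.leaf 1 [(9,1),(3,1)]) (.cons (.leaf 1 [(9,1)]) .nil)))))))))))))) (.cons (.keep [1,4,8,9,10] (.node (.cons (.leaf 1 [(2,1)]) (.cons (.leaf 1 [(3,1)]) (.cons (.leaf 1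 [(4,1)]) (.cons (.leaf 1 []) (.cons (.leaf 1 [(3,1)]) (.cons (.leaf 1 [(4,1)]) (.cons (.leaf 1 [(2,1)]) (.cons (.leaf 1 []) (.cons (.leaf 1 [(4,1)]) (.cons (.leaf 1 [(2,1)]) (.cons (.leaf 1 [(3,1)]) (.cons (.leaf 1 []) .nil)))))))))))))) (.cons (.keep [1,4,6,9,10,11] (.node (.cons (.leaf 1 [(2,1),(10,1)]) (.cons (.leaf 1 [(2,1)]) (.cons (.leaf 1 [(4,1),(10,1)]) (.cons (.leaf 1 [(10,1)]) (.cons (.leaf 1 []) (.cons (.leaf 1 [(4,1),(10,1)]) (.cons (.leaf 1 [(2,2)]) (.cons (.leaf 1 [(2,1)]) (.cons (.leaf 1 [(2,1),(4,1)]) (.cons (.leaf 1 [(10,1),(2,1)]) (.cons (.leaf 1 [(2,1)]) (.cons (.leaf 1 [(10,1)]) .nil)))))))))))))) (.cons (.keep [1,7,9,10,11] (.node (.cons (.leaf 1 [(3,1),(2,1)]) (.cons (.leaf 1 [(3,2)]) (.cons (.leaf 1 [(4,1),(3,1)]) (.cons (.leaf 1 [(9,1)]) (.cons (.leaf 1 [(9,1),(3,1)])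 (.cons (.leaf 1 [(4,1),(9,1)]) (.cons (.leaf 1 [(9,1),(2,1)]) (.cons (.leaf 1 [(9,1)]) (.cons (.leaf 1 [(9,1),(4,1)]) (.cons (.leaf 1 [(9,1),(2,1)]) (.cons (.leaf 1 [(9,1),(3,1)]) (.cons (.leaf 1 [(9,1)]) .nil)))))))))))))) (.cons (.keep [1,7,9,10,11] (.node (.cons (.leaf 1 [(3,1)]) (.cons (.leaf 1 [(3,1),(9,1)]) (.cons (.leaf 1 [(4,1),(9,1)]) (.cons (.leaf 1 [(3,1)]) (.cons (.leaf 1 [(3,2)]) (.cons (.leaf 1 [(4,1),(3,1)]) (.cons (.leaf 1 []) (.cons (.leaf 1 [(9,1)]) (.cons (.leaf 1 [(9,1),(4,1)]) (.cons (.leaf 1 [(3,1)]) (.cons (.leaf 1 [(9,1),(3,1)]) (.cons (.leaf 1 [(9,1)]) .nil)))))))))))))) (.cons (.keep [0,1,9,10] (.node (.cons (.leaf 1 [(2,1)]) (.cons (.leaf 1 [(3,1)]) (.cons (.leaf 1 [(4,1)]) (.cons (.leaf 1 []) (.cons (.leaf 1 [(3,1)]) (.cons (.leaf 1 [(4,1)]) (.cons (.leaf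 1 [(2,1)]) (.cons (.leaf 1 []) (.cons (.leaf 1 [(4,1)]) (.cons (.leaf 1 [(2,1)]) (.cons (.leaf 1 [(3,1)]) (.cons (.leaf 1 []) .nil)))))))))))))) .nil)))))))))))))

theorem c_30_28_1 : Concl 30 28 z_30_28_1 h_30_28_1 .nd := piece _ (hP_cons c_30_28_0 hP_nil)
  t_30_28_1 _ _ (by decide +kernel)

def t_30_28 : T := (.keep [0,1,2] (.node (.cons (.keep [2,6,7,8] (.leaf 0 [(0,0)])) (.cons (.keep [3,5,7,8] (.node (.cons (.keep [2,6,7,9,11] (.node (.cons (.leaf 1 [(2,1),(11,2)]) (.cons (.leaf 1 [(3,1),(11,2)]) (.cons (.leaf 1 [(4,1),(11,2)]) (.cons (.leaf 1 [(11,2)]) (.cons (.leaf 1 [(3,1),(11,2)]) (.cons (.leaf 1 [(4,1),(11,2)]) (.cons (.leaf 1 [(1,1),(11,2),(9,1)]) (.cons (.leaf 1 [(11,2)]) (.cons (.leaf 1 [(4,1),(11,2)]) (.cons (.leaf 1 [(1,1),(11,2),(9,1)]) (.cons (.leaf 1 [(1,1),(11,2),(10,1)])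 (.cons (.leaf 1 [(11,2)]) .nil)))))))))))))) (.cons (.keep [3,5,7,9,11] (.node (.cons (.leaf 1 [(11,2)]) (.cons (.leaf 1 [(3,1),(9,1),(11,2)]) (.cons (.leaf 1 [(4,1),(9,1),(11,2)]) (.cons (.leaf 1 [(11,2),(1,1)]) (.cons (.leaf 1 [(11,2),(3,1),(1,1)]) (.cons (.leaf 1 [(11,2),(4,1),(1,1)]) (.cons (.leaf 1 [(1,1),(11,2)]) (.cons (.leaf 1 [(11,2),(9,1)]) (.cons (.leaf 1 [(4,1),(9,1),(11,2)]) (.cons (.leaf 1 [(1,1),(11,2)]) (.cons (.leaf 1 [(1,1),(11,2),(10,1)]) (.cons (.leaf 1 [(11,2),(9,1)]) .nil)))))))))))))) (.cons (.keep [4,5,9,10,11] (.node (.cons (.leaf 1 [(2,1),(10,2),(9,1)]) (.cons (.leaf 1 [(10,2)]) (.cons (.leaf 1 [(4,1),(9,1),(10,2)]) (.cons (.leaf 1 [(10,2),(9,1)]) (.cons (.leaf 1 [(10,2),(1,1)]) (.cons (.leaf 1 [(4,1),(10,2),(9,1)]) (.cons (.leaf 1 [(10,2),(1,1),(2,1)]) (.cons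 (.leaf 1 [(10,2),(1,1)]) (.cons (.leaf 1 [(10,2),(4,1),(1,1)]) (.cons (.leaf 1 [(2,1),(10,2),(9,1)]) (.cons (.leaf 1 [(1,1),(10,2)]) (.cons (.leaf 1 [(10,2),(9,1)]) .nil)))))))))))))) (.cons (.keep [1,3,4,8] (.node (.cons (.leaf 1 [(2,1),(8,1)]) (.cons (.leaf 1 [(3,1),(8,1)]) (.cons (.leaf 1 [(4,1),(8,1)]) (.cons (.leaf 1 [(8,1)]) (.cons (.leaf 1 [(3,1),(8,1)]) (.cons (.leaf 1 [(4,1),(8,1)]) (.cons (.leaf 1 [(2,1),(8,1)]) (.cons (.leaf 1 [(8,1)]) (.cons (.leaf 1 [(4,1),(8,1)]) (.cons (.leaf 1 [(2,1),(8,1)]) (.cons (.leaf 1 [(3,1),(8,1)]) (.cons (.leaf 1 [(8,1)]) .nil)))))))))))))) (.cons (.keep [1,3,5,7,11] (.node (.cons (.leaf 1 [(8,1)]) (.cons (.leaf 1 [(3,1),(10,1),(8,1)]) (.cons (.leaf 1 [(4,1),(10,1),(8,1)]) (.cons (.leaf 1 [(8,1),(1,1)]) (.cons (.leaf 1 [(8,1),(3,1),(1,1)])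 (.cons (.leaf 1 [(8,1),(4,1),(1,1)]) (.cons (.leaf 1 [(8,1),(1,1)]) (.cons (.leaf 1 [(8,1),(10,1)]) (.cons (.leaf 1 [(8,1),(10,1),(4,1)]) (.cons (.leaf 1 [(8,1),(1,1)]) (.cons (.leaf 1 [(8,1),(10,1),(3,1)]) (.cons (.leaf 1 [(8,1),(10,1)]) .nil)))))))))))))) (.cons (.keep [1,4,5,6,11] (.node (.cons (.leaf 1 [(2,1),(8,1),(10,1)]) (.cons (.leaf 1 [(8,1)]) (.cons (.leaf 1 [(4,1),(10,1),(8,1)]) (.cons (.leaf 1 [(8,1),(10,1)]) (.cons (.leaf 1 [(8,1),(1,1)]) (.cons (.leaf 1 [(8,1),(4,1),(10,1)]) (.cons (.leaf 1 [(8,1),(1,1),(2,1)]) (.cons (.leaf 1 [(8,1),(1,1)]) (.cons (.leaf 1 [(8,1),(4,1),(1,1)]) (.cons (.leaf 1 [(8,1),(10,1),(2,1)]) (.cons (.leaf 1 [(8,1),(1,1)]) (.cons (.leaf 1 [(8,1),(10,1)]) .nil)))))))))))))) (.cons (.keep [2,6,7,9,11] (.node (.cons (.leaf 1 [(11,1),(2,2)]) (.cons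 (.leaf 1 [(3,1),(2,1),(11,1)]) (.cons (.leaf 1 [(4,1),(2,1),(11,1)]) (.cons (.leaf 1 [(11,1),(9,1)]) (.cons (.leaf 1 [(3,1),(9,1),(11,1)]) (.cons (.leaf 1 [(4,1),(9,1),(11,1)]) (.cons (.leaf 1 [(11,1),(9,1),(2,1)]) (.cons (.leaf 1 [(11,1),(9,1)]) (.cons (.leaf 1 [(4,1),(9,1),(11,1)]) (.cons (.leaf 1 [(11,1),(9,1),(2,1)]) (.cons (.leaf 1 [(3,1),(9,1),(11,1)]) (.cons (.leaf 1 [(11,1),(9,1)]) .nil)))))))))))))) (.cons (.keep [2,4,8,9,10] (.node (.cons (.leaf 1 [(2,1),(11,1)]) (.cons (.leaf 1 [(3,1),(11,1)]) (.cons (.leaf 1 [(4,1),(11,1)]) (.cons (.leaf 1 [(11,1)]) (.cons (.leaf 1 [(3,1),(11,1)]) (.cons (.leaf 1 [(4,1),(11,1)]) (.cons (.leaf 1 [(2,1),(11,1)]) (.cons (.leaf 1 [(11,1)]) (.cons (.leaf 1 [(4,1),(11,1)]) (.cons (.leaf 1 [(2,1),(11,1)]) (.cons (.leaf 1 [(3,1),(11,1)]) (.cons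 (.leaf 1 [(11,1)]) .nil)))))))))))))) (.cons (.keep [4,5,9,10,11] (.node (.cons (.leaf 1 [(2,2),(9,1),(10,1)]) (.cons (.leaf 1 [(2,1),(10,1)]) (.cons (.leaf 1 [(2,1),(9,1),(4,1),(10,1)]) (.cons (.leaf 1 [(10,1),(11,1),(9,1)]) (.cons (.leaf 1 [(10,1)]) (.cons (.leaf 1 [(4,1),(11,1),(9,1),(10,1)]) (.cons (.leaf 1 [(10,1),(2,2)]) (.cons (.leaf 1 [(10,1),(2,1)]) (.cons (.leaf 1 [(4,1),(2,1),(10,1)]) (.cons (.leaf 1 [(10,1),(11,1),(9,1),(2,1)]) (.cons (.leaf 1 [(10,1),(2,1)]) (.cons (.leaf 1 [(10,1),(11,1),(9,1)]) .nil)))))))))))))) (.cons (.keep [2,6,7,8,9] (.node (.cons (.leaf 1 [(2,1),(12,1),(3,1)]) (.cons (.leaf 1 [(12,1),(3,2)]) (.cons (.leaf 1 [(4,1),(3,1),(12,1)]) (.cons (.leaf 1 [(12,1),(3,1),(9,1)]) (.cons (.leaf 1 [(12,1),(3,2),(9,1)]) (.cons (.leaf 1 [(4,1),(3,1),(9,1),(12,1)])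 (.cons (.leaf 1 [(12,1),(9,1)]) (.cons (.leaf 1 [(12,1),(10,1)]) (.cons (.leaf 1 [(4,1),(10,1),(12,1)]) (.cons (.leaf 1 [(12,1),(9,1),(3,1)]) (.cons (.leaf 1 [(12,1),(10,1),(3,1)]) (.cons (.leaf 1 [(12,1),(10,1)]) .nil)))))))))))))) (.cons (.keep [3,5,7,9,10,11] (.node (.cons (.leaf 1 [(3,1),(11,1)]) (.cons (.leaf 1 [(3,2),(11,1),(9,1)]) (.cons (.leaf 1 [(3,1),(4,1),(9,1),(11,1)]) (.cons (.leaf 1 [(11,1),(3,1)]) (.cons (.leaf 1 [(11,1),(3,2)]) (.cons (.leaf 1 [(4,1),(3,1),(11,1)]) (.cons (.leaf 1 [(11,1)]) (.cons (.leaf 1 [(11,1),(10,1)]) (.cons (.leaf 1 [(4,1),(10,1),(11,1)]) (.cons (.leaf 1 [(11,1),(3,1)]) (.cons (.leaf 1 [(11,1),(10,1),(3,1)]) (.cons (.leaf 1 [(11,1),(10,1)]) .nil)))))))))))))) (.cons (.keep [0,2,9,10] (.node (.cons (.leaf 1 [(2,1),(10,1)]) (.cons (.leaf 1 [(3,1),(10,1)])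 (.cons (.leaf 1 [(4,1),(10,1)]) (.cons (.leaf 1 [(10,1)]) (.cons (.leaf 1 [(3,1),(10,1)]) (.cons (.leaf 1 [(4,1),(10,1)]) (.cons (.leaf 1 [(2,1),(10,1)]) (.cons (.leaf 1 [(10,1)]) (.cons (.leaf 1 [(4,1),(10,1)]) (.cons (.leaf 1 [(2,1),(10,1)]) (.cons (.leaf 1 [(3,1),(10,1)]) (.cons (.leaf 1 [(10,1)]) .nil)))))))))))))) .nil)))))))))))))) (.cons (.keep [4,5,6,8] (.node (.cons (.keep [3,6,7,9,10,11] (.node (.cons (.leaf 1 [(2,2),(11,2)]) (.cons (.leaf 1 [(3,1),(11,2),(2,1)]) (.cons (.leaf 1 [(4,1),(11,2),(2,1)]) (.cons (.leaf 1 [(9,1),(11,2)]) (.cons (.leaf 1 [(9,1),(3,1),(11,2)]) (.cons (.leaf 1 [(9,1),(4,1),(11,2)]) (.cons (.leaf 1 [(9,1),(2,1),(11,2)]) (.cons (.leaf 1 [(9,1),(11,2)]) (.cons (.leaf 1 [(9,1),(4,1),(11,2)]) (.cons (.leaf 1 [(9,1),(2,1),(11,2)]) (.cons (.leaf 1 [(2,1),(11,2),(10,1)])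 (.cons (.leaf 1 [(9,1),(11,2)]) .nil)))))))))))))) (.cons (.keep [3,5,7,9,11] (.node (.cons (.leaf 1 [(11,2),(2,1)]) (.cons (.leaf 1 [(11,2),(3,1)]) (.cons (.leaf 1 [(11,2),(4,1)]) (.cons (.leaf 1 [(11,2)]) (.cons (.leaf 1 [(3,1),(11,2)]) (.cons (.leaf 1 [(4,1),(11,2)]) (.cons (.leaf 1 [(2,1),(11,2)]) (.cons (.leaf 1 [(11,2)]) (.cons (.leaf 1 [(4,1),(11,2)]) (.cons (.leaf 1 [(2,1),(11,2)]) (.cons (.leaf 1 [(2,1),(11,2),(10,1)]) (.cons (.leaf 1 [(11,2)]) .nil)))))))))))))) (.cons (.keep [4,6,9,10,11] (.node (.cons (.leaf 1 [(10,2),(2,1),(9,1)]) (.cons (.leaf 1 [(10,2),(2,1)]) (.cons (.leaf 1 [(10,2),(4,1),(9,1)]) (.cons (.leaf 1 [(10,2),(9,1)]) (.cons (.leaf 1 [(10,2)]) (.cons (.leaf 1 [(4,1),(9,1),(10,2)]) (.cons (.leaf 1 [(10,2),(2,2)]) (.cons (.leaf 1 [(10,2),(2,1)]) (.cons (.leaf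 1 [(10,2),(4,1),(2,1)]) (.cons (.leaf 1 [(2,1),(9,1),(10,2)]) (.cons (.leaf 1 [(2,1),(10,2)]) (.cons (.leaf 1 [(10,2),(9,1)]) .nil)))))))))))))) (.cons (.keep [3,4,8,9,10] (.node (.cons (.leaf 1 [(2,1),(11,1)]) (.cons (.leaf 1 [(3,1),(11,1)]) (.cons (.leaf 1 [(4,1),(11,1)]) (.cons (.leaf 1 [(11,1)]) (.cons (.leaf 1 [(3,1),(11,1)]) (.cons (.leaf 1 [(4,1),(11,1)]) (.cons (.leaf 1 [(11,1),(2,1)]) (.cons (.leaf 1 [(11,1)]) (.cons (.leaf 1 [(4,1),(11,1)]) (.cons (.leaf 1 [(11,1),(2,1)]) (.cons (.leaf 1 [(3,1),(11,1)]) (.cons (.leaf 1 [(11,1)]) .nil)))))))))))))) (.cons (.keep [3,5,7,9,11] (.node (.cons (.leaf 1 [(11,1)]) (.cons (.leaf 1 [(9,1),(3,1),(11,1)]) (.cons (.leaf 1 [(9,1),(4,1),(11,1)]) (.cons (.leaf 1 [(1,1),(11,1)]) (.cons (.leaf 1 [(1,1),(3,1),(11,1)]) (.cons (.leaf 1 [(1,1),(4,1),(11,1)])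 (.cons (.leaf 1 [(11,1),(1,1)]) (.cons (.leaf 1 [(9,1),(11,1)]) (.cons (.leaf 1 [(9,1),(4,1),(11,1)]) (.cons (.leaf 1 [(11,1),(1,1)]) (.cons (.leaf 1 [(9,1),(3,1),(11,1)]) (.cons (.leaf 1 [(9,1),(11,1)]) .nil)))))))))))))) (.cons (.keep [4,6,9,10,11] (.node (.cons (.leaf 1 [(9,1),(10,1)]) (.cons (.leaf 1 [(10,1)]) (.cons (.leaf 1 [(11,1),(4,1),(9,1),(10,1)]) (.cons (.leaf 1 [(1,1),(10,1),(9,1)]) (.cons (.leaf 1 [(1,1),(10,1)]) (.cons (.leaf 1 [(1,1),(4,1),(9,1),(10,1)]) (.cons (.leaf 1 [(1,1),(10,1),(2,1)]) (.cons (.leaf 1 [(1,1),(10,1)]) (.cons (.leaf 1 [(1,1),(4,1),(10,1)]) (.cons (.leaf 1 [(9,1),(10,1),(1,1)]) (.cons (.leaf 1 [(10,1),(1,1)]) (.cons (.leaf 1 [(11,1),(10,1),(9,1)]) .nil)))))))))))))) (.cons (.keep [1,2,6,7,11] (.node (.cons (.leaf 1 [(2,2),(8,1)]) (.cons (.leaf 1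 [(3,1),(8,1),(2,1)]) (.cons (.leaf 1 [(4,1),(8,1),(2,1)]) (.cons (.leaf 1 [(10,1),(8,1)]) (.cons (.leaf 1 [(10,1),(3,1),(8,1)]) (.cons (.leaf 1 [(10,1),(4,1),(8,1)]) (.cons (.leaf 1 [(10,1),(8,1),(2,1)]) (.cons (.leaf 1 [(10,1),(8,1)]) (.cons (.leaf 1 [(10,1),(8,1),(4,1)]) (.cons (.leaf 1 [(10,1),(8,1),(2,1)]) (.cons (.leaf 1 [(10,1),(8,1),(3,1)]) (.cons (.leaf 1 [(10,1),(8,1)]) .nil)))))))))))))) (.cons (.keep [1,2,4,8] (.node (.cons (.leaf 1 [(2,1),(8,1)]) (.cons (.leaf 1 [(3,1),(8,1)]) (.cons (.leaf 1 [(4,1),(8,1)]) (.cons (.leaf 1 [(8,1)]) (.cons (.leaf 1 [(3,1),(8,1)]) (.cons (.leaf 1 [(4,1),(8,1)]) (.cons (.leaf 1 [(8,1),(2,1)]) (.cons (.leaf 1 [(8,1)]) (.cons (.leaf 1 [(4,1),(8,1)]) (.cons (.leaf 1 [(8,1),(2,1)]) (.cons (.leaf 1 [(3,1),(8,1)]) (.cons (.leaf 1 [(8,1)]) .nil))))))))))))))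 (.cons (.keep [1,4,5,6,11] (.node (.cons (.leaf 1 [(2,2),(8,1),(10,1)]) (.cons (.leaf 1 [(8,1),(2,1)]) (.cons (.leaf 1 [(4,1),(8,1),(10,1),(2,1)]) (.cons (.leaf 1 [(8,1),(11,1)]) (.cons (.leaf 1 [(8,1)]) (.cons (.leaf 1 [(4,1),(11,1),(8,1)]) (.cons (.leaf 1 [(8,1),(2,2)]) (.cons (.leaf 1 [(8,1),(2,1)]) (.cons (.leaf 1 [(8,1),(4,1),(2,1)]) (.cons (.leaf 1 [(8,1),(11,1),(2,1)]) (.cons (.leaf 1 [(8,1),(2,1)]) (.cons (.leaf 1 [(8,1),(11,1)]) .nil)))))))))))))) (.cons (.keep [3,7,9,10,11] (.node (.cons (.leaf 1 [(3,1),(2,1),(10,1)]) (.cons (.leaf 1 [(3,2),(10,1)]) (.cons (.leaf 1 [(3,1),(4,1),(10,1)]) (.cons (.leaf 1 [(10,1),(9,1)]) (.cons (.leaf 1 [(10,1),(3,1),(9,1)]) (.cons (.leaf 1 [(4,1),(9,1),(10,1)]) (.cons (.leaf 1 [(2,1),(10,1),(9,1)]) (.cons (.leaf 1 [(9,1),(10,1)]) (.cons (.leaf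 1 [(9,1),(4,1),(10,1)]) (.cons (.leaf 1 [(10,1),(9,1),(2,1)]) (.cons (.leaf 1 [(9,1),(10,1),(3,1)]) (.cons (.leaf 1 [(9,1),(10,1)]) .nil)))))))))))))) (.cons (.keep [3,5,7,8,9] (.node (.cons (.leaf 1 [(3,1),(12,1)]) (.cons (.leaf 1 [(3,2),(12,1),(9,1)]) (.cons (.leaf 1 [(3,1),(4,1),(9,1),(12,1)]) (.cons (.leaf 1 [(12,1),(3,1)]) (.cons (.leaf 1 [(12,1),(3,2)]) (.cons (.leaf 1 [(4,1),(3,1),(12,1)]) (.cons (.leaf 1 [(12,1)]) (.cons (.leaf 1 [(12,1),(10,1)]) (.cons (.leaf 1 [(4,1),(10,1),(12,1)]) (.cons (.leaf 1 [(12,1),(3,1)]) (.cons (.leaf 1 [(12,1),(10,1),(3,1)]) (.cons (.leaf 1 [(12,1),(10,1)]) .nil)))))))))))))) (.cons (.keep [0,3,9,10] (.node (.cons (.leaf 1 [(2,1),(10,1)]) (.cons (.leaf 1 [(3,1),(10,1)]) (.cons (.leaf 1 [(4,1),(10,1)]) (.cons (.leaf 1 [(10,1)]) (.cons (.leaf 1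 [(3,1),(10,1)]) (.cons (.leaf 1 [(4,1),(10,1)]) (.cons (.leaf 1 [(10,1),(2,1)]) (.cons (.leaf 1 [(10,1)]) (.cons (.leaf 1 [(4,1),(10,1)]) (.cons (.leaf 1 [(10,1),(2,1)]) (.cons (.leaf 1 [(3,1),(10,1)]) (.cons (.leaf 1 [(10,1)]) .nil)))))))))))))) .nil)))))))))))))) (.cons (.leaf 1 []) (.cons (.leaf 1 [(5,1)]) (.cons (.leaf 1 [(5,1)]) (.cons (.leaf 1 [(6,1)]) (.cons (.leaf 1 []) (.cons (.leaf 1 [(6,1)]) (.cons (.leaf 1 [(7,1)]) (.cons (.leaf 1 [(7,1)]) (.cons (.leaf 1 []) .nil))))))))))))))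

theorem e_30_28 : ESB (caseOf 4 30 28) := esb_of_pieces _ (hP_cons c_30_28_1 hP_nil) t_30_28 (by
  decide +kernel)

def t_30_29 : T := (.keep [0,1,2] (.node (.cons (.keep [0,2,3,6,7,8] (.node (.cons (.leaf 1 [(12,1)]) (.cons (.leaf 1 [(12,1),(5,1)]) (.cons (.leaf 1 [(12,1),(5,1)]) (.cons (.leaf 1 [(12,1),(5,1)]) (.cons (.leaf 1 [(6,1)]) (.cons (.leaf 1 []) (.cons (.leaf 1 [(6,1)]) (.cons (.leaf 1 [(6,1)]) (.cons (.leaf 1 [(7,1)]) (.cons (.leaf 1 [(7,1)]) (.cons (.leaf 1 []) (.cons (.leaf 1 [(7,1)]) (.cons (.leaf 1 [(8,1)]) (.cons (.leaf 1 [(8,1)]) (.cons (.leaf 1 [(8,1)]) (.cons (.leaf 1 []) .nil)))))))))))))))))) (.cons (.keep [5,7,8,9,10] (.node (.cons (.leaf 1 []) (.cons (.leaf 1 [(5,1)]) (.cons (.leaf 1 [(5,1)]) (.cons (.leaf 1 [(5,1)]) (.cons (.leaf 1 [(9,1),(6,1)]) (.cons (.leaf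 1 [(9,1)]) (.cons (.leaf 1 [(9,1),(6,1)]) (.cons (.leaf 1 [(9,1),(6,1)]) (.cons (.leaf 1 [(9,1),(7,1)]) (.cons (.leaf 1 [(9,1),(7,1)]) (.cons (.leaf 1 [(9,1)]) (.cons (.leaf 1 [(9,1),(7,1)]) (.cons (.leaf 1 [(9,1),(8,1)]) (.cons (.leaf 1 [(9,1),(8,1)]) (.cons (.leaf 1 [(9,1),(8,1)]) (.cons (.leaf 1 [(9,1)]) .nil)))))))))))))))))) (.cons (.keep [5,6,8,9,11] (.node (.cons (.leaf 1 [(10,1)]) (.cons (.leaf 1 [(10,1),(5,1)]) (.cons (.leaf 1 [(10,1),(5,1)]) (.cons (.leaf 1 [(10,1),(5,1)]) (.cons (.leaf 1 []) (.cons (.leaf 1 [(5,1)]) (.cons (.leaf 1 [(5,1)]) (.cons (.leaf 1 [(5,1)]) (.cons (.leaf 1 [(9,1),(7,1)]) (.cons (.leaf 1 [(5,1),(7,1)]) (.cons (.leaf 1 [(9,1)]) (.cons (.leaf 1 [(9,1),(7,1)]) (.cons (.leaf 1 [(9,1),(8,1)]) (.cons (.leaf 1 [(5,1),(8,1)]) (.cons (.leaf 1 [(9,1),(8,1)])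 (.cons (.leaf 1 [(9,1)]) .nil)))))))))))))))))) (.cons (.keep [4,5,6,7,9] (.node (.cons (.leaf 1 [(11,1)]) (.cons (.leaf 1 [(5,1),(11,1)]) (.cons (.leaf 1 [(11,1),(5,1)]) (.cons (.leaf 1 [(11,1),(5,1)]) (.cons (.leaf 1 [(6,1),(10,1)]) (.cons (.leaf 1 [(10,1)]) (.cons (.leaf 1 [(6,1),(5,1)]) (.cons (.leaf 1 [(10,1),(6,1)]) (.cons (.leaf 1 []) (.cons (.leaf 1 [(5,1)]) (.cons (.leaf 1 [(5,1)]) (.cons (.leaf 1 [(5,1)]) (.cons (.leaf 1 [(10,1),(8,1)]) (.cons (.leaf 1 [(8,1),(10,1)]) (.cons (.leaf 1 [(5,1),(8,1)]) (.cons (.leaf 1 [(10,1)]) .nil)))))))))))))))))) (.cons (.leaf 1 [(6,1)]) (.cons (.leaf 1 []) (.cons (.leaf 1 [(6,1)]) (.cons (.leaf 1 [(6,1)]) (.cons (.leaf 1 [(7,1)]) (.cons (.leaf 1 [(7,1)]) (.cons (.leaf 1 []) (.cons (.leaf 1 [(7,1)]) (.cons (.leaf 1 [(8,1)]) (.cons (.leaf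 1 [(8,1)]) (.cons (.leaf 1 [(8,1)]) (.cons (.leaf 1 []) .nil))))))))))))))))))

theorem e_30_29 : ESB (caseOf 4 30 29) := esb_of_ok (t := t_30_29) (by decide +kernel)

def t_30_30 : T := (.keep [0,1,2] (.node (.cons (.leaf 1 []) (.cons (.leaf 1 [(5,1)]) (.cons (.leaf 1 [(5,1)]) (.cons (.leaf 1 [(5,1)]) (.cons (.leaf 1 [(6,1)]) (.cons (.leaf 1 []) (.cons (.leaf 1 [(6,1)]) (.cons (.leaf 1 [(6,1)]) (.cons (.leaf 1 [(7,1)]) (.cons (.leaf 1 [(7,1)]) (.cons (.leaf 1 []) (.cons (.leaf 1 [(7,1)]) (.cons (.leaf 1 [(8,1)]) (.cons (.leaf 1 [(8,1)]) (.cons (.leaf 1 [(8,1)]) (.cons (.leaf 1 []) .nil))))))))))))))))))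

theorem e_30_30 : ESB (caseOf 4 30 30) := esb_of_ok (t := t_30_30) (by decide +kernel)

def t_30_31 : T := (.keep [0,1,2] (.node (.cons (.leaf 1 [(6,1)]) (.cons (.leaf 1 []) (.cons (.leaf 1 [(6,1)]) (.cons (.leaf 1 [(6,1)]) (.cons (.leaf 1 [(6,1)]) (.cons (.leaf 1 [(7,1)]) (.cons (.leaf 1 [(7,1)]) (.cons (.leaf 1 []) (.cons (.leaf 1 [(7,1)]) (.cons (.leaf 1 [(7,1)]) (.cons (.leaf 1 [(8,1)]) (.cons (.leaf 1 [(8,1)]) (.cons (.leaf 1 [(8,1)]) (.cons (.leaf 1 []) (.cons (.leaf 1 [(8,1)]) (.cons (.leaf 1 [(9,1)]) (.cons (.leaf 1 [(9,1)]) (.cons (.leaf 1 [(9,1)]) (.cons (.leaf 1 [(9,1)]) (.cons (.leaf 1 []) .nil))))))))))))))))))))))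

theorem e_30_31 : ESB (caseOf 4 30 31) := esb_of_ok (t := t_30_31) (by decide +kernel)

def t_31_25 : T := (.keep [0,1,2] (.node (.cons (.leaf 1 []) (.cons (.leaf 1 [(6,1)]) (.cons (.leaf 1 [(6,1)]) (.cons (.keep [1,3,7,8] (.node (.cons (.leaf 1 []) (.cons (.leaf 1 [(6,1)]) (.cons (.leaf 1 [(6,1)]) (.cons (.keep [1,7,8,11] (.node (.cons (.leaf 1 []) (.cons (.leaf 1 [(6,1)]) (.cons (.leaf 1 [(6,1)]) (.cons (.leaf 1 [(12,1)]) (.cons (.leaf 1 [(12,1),(6,1)]) (.cons (.leaf 1 [(12,1),(6,1)]) (.cons (.leaf 1 [(10,1)]) (.cons (.leaf 1 [(10,1),(6,1)]) (.cons (.leaf 1 [(10,1),(6,1)]) (.cons (.leaf 1 [(7,1)]) (.cons (.leaf 1 []) (.cons (.leaf 1 [(7,1)]) (.cons (.leaf 1 [(8,1)]) (.cons (.leaf 1 [(8,1)]) (.cons (.leaf 1 []) .nil))))))))))))))))) (.cons (.keep [4,6,8,10,11] (.node (.cons (.leaf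 1 [(10,1)]) (.cons (.leaf 1 [(10,1),(6,1)]) (.cons (.leaf 1 [(10,1),(6,1)]) (.cons (.leaf 1 [(13,1),(10,1)]) (.cons (.leaf 1 [(13,1),(10,1),(6,1)]) (.cons (.leaf 1 [(13,1),(10,1),(6,1)]) (.cons (.leaf 1 []) (.cons (.leaf 1 [(6,1)]) (.cons (.leaf 1 [(6,1)]) (.cons (.leaf 1 [(10,1),(7,1)]) (.cons (.leaf 1 [(10,1)]) (.cons (.leaf 1 [(10,1),(7,1)]) (.cons (.leaf 1 [(10,1),(8,1)]) (.cons (.leaf 1 [(10,1),(8,1)]) (.cons (.leaf 1 [(10,1)]) .nil))))))))))))))))) (.cons (.keep [5,6,10,11,12] (.node (.cons (.leaf 1 [(10,1)]) (.cons (.leaf 1 [(6,2)]) (.cons (.leaf 1 [(10,1),(6,1)]) (.cons (.leaf 1 [(12,1),(10,1)]) (.cons (.leaf 1 [(12,1),(6,2)]) (.cons (.leaf 1 [(12,1),(10,1),(6,1)]) (.cons (.leaf 1 [(13,1),(10,1)]) (.cons (.leaf 1 [(13,1),(6,2)]) (.cons (.leaf 1 [(13,1),(10,1),(6,1)]) (.cons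 (.leaf 1 []) (.cons (.leaf 1 [(1,1)]) (.cons (.leaf 1 [(6,1)]) (.cons (.leaf 1 [(10,1),(8,1)]) (.cons (.leaf 1 [(6,1),(8,1)]) (.cons (.leaf 1 [(10,1)]) .nil))))))))))))))))) (.cons (.leaf 1 [(11,1)]) (.cons (.leaf 1 [(11,1),(6,1)]) (.cons (.leaf 1 [(11,1),(6,1)]) (.cons (.leaf 1 [(7,1)]) (.cons (.leaf 1 []) (.cons (.leaf 1 [(7,1)]) (.cons (.leaf 1 [(8,1)]) (.cons (.leaf 1 [(8,1)]) (.cons (.leaf 1 []) .nil))))))))))))))))) (.cons (.keep [6,8,9,10,11] (.node (.cons (.leaf 1 [(9,1)]) (.cons (.leaf 1 [(9,1),(6,1)]) (.cons (.leaf 1 [(9,1),(6,1)]) (.cons (.keep [8,9,10,11,13] (.node (.cons (.leaf 1 [(10,1)]) (.cons (.leaf 1 [(10,1),(6,1)]) (.cons (.leaf 1 [(10,1),(6,1)]) (.cons (.leaf 1 []) (.cons (.leaf 1 [(6,1)]) (.cons (.leaf 1 [(6,1)]) (.cons (.leaf 1 [(11,1)]) (.cons (.leaf 1 [(11,1),(6,1)])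 (.cons (.leaf 1 [(11,1),(6,1)]) (.cons (.leaf 1 [(10,1),(7,1)]) (.cons (.leaf 1 [(10,1)]) (.cons (.leaf 1 [(10,1),(7,1)]) (.cons (.leaf 1 [(10,1),(8,1)]) (.cons (.leaf 1 [(10,1),(8,1)]) (.cons (.leaf 1 [(10,1)]) .nil))))))))))))))))) (.cons (.keep [6,8,10,12,13] (.node (.cons (.leaf 1 [(11,1),(9,2)]) (.cons (.leaf 1 [(11,1),(9,2),(6,1)]) (.cons (.leaf 1 [(11,1),(9,2),(6,1)]) (.cons (.leaf 1 [(9,1)]) (.cons (.leaf 1 [(9,1),(6,1)]) (.cons (.leaf 1 [(9,1),(6,1)]) (.cons (.leaf 1 [(11,1),(1,1)]) (.cons (.leaf 1 [(11,1),(1,1),(6,1)]) (.cons (.leaf 1 [(11,1),(1,1),(6,1)]) (.cons (.leaf 1 [(11,1),(9,2),(7,1)]) (.cons (.leaf 1 [(11,1),(9,2)]) (.cons (.leaf 1 [(11,1),(9,2),(7,1)]) (.cons (.leaf 1 [(11,1),(9,2),(8,1)]) (.cons (.leaf 1 [(11,1),(9,2),(8,1)]) (.cons (.leaf 1 [(11,1),(9,2)]) .nil)))))))))))))))))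 (.cons (.keep [6,9,10,12,13] (.node (.cons (.leaf 1 [(10,1),(9,1)]) (.cons (.leaf 1 [(10,1),(6,2)]) (.cons (.leaf 1 [(10,1),(9,1),(6,1)]) (.cons (.leaf 1 [(9,1)]) (.cons (.leaf 1 [(6,2)]) (.cons (.leaf 1 [(9,1),(6,1)]) (.cons (.leaf 1 [(11,1),(9,1)]) (.cons (.leaf 1 [(11,1),(6,2)]) (.cons (.leaf 1 [(11,1),(9,1),(6,1)]) (.cons (.leaf 1 [(10,1)]) (.cons (.leaf 1 [(10,1),(1,1)]) (.cons (.leaf 1 [(10,1),(6,1)]) (.cons (.leaf 1 [(10,1),(9,1),(8,1)]) (.cons (.leaf 1 [(10,1),(6,1),(8,1)]) (.cons (.leaf 1 [(10,1),(9,1)]) .nil))))))))))))))))) (.cons (.leaf 1 []) (.cons (.leaf 1 [(6,1)]) (.cons (.leaf 1 [(6,1)]) (.cons (.leaf 1 [(9,1),(7,1)]) (.cons (.leaf 1 [(9,1)]) (.cons (.leaf 1 [(9,1),(7,1)]) (.cons (.leaf 1 [(9,1),(8,1)]) (.cons (.leaf 1 [(9,1),(8,1)]) (.cons (.leaf 1 [(9,1)]) .nil)))))))))))))))))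 (.cons (.keep [5,6,7,9,10] (.node (.cons (.leaf 1 [(10,1)]) (.cons (.leaf 1 [(6,2)]) (.cons (.leaf 1 [(10,1),(6,1)]) (.cons (.keep [4,7,8,10,11] (.node (.cons (.leaf 1 [(12,1)]) (.cons (.leaf 1 [(12,1),(6,1)]) (.cons (.leaf 1 [(12,1),(6,1)]) (.cons (.leaf 1 [(13,1)]) (.cons (.leaf 1 [(13,1),(6,1)]) (.cons (.leaf 1 [(13,1),(6,1)]) (.cons (.leaf 1 []) (.cons (.leaf 1 [(6,1)]) (.cons (.leaf 1 [(6,1)]) (.cons (.leaf 1 [(12,1),(7,1)]) (.cons (.leaf 1 [(12,1)]) (.cons (.leaf 1 [(12,1),(7,1)]) (.cons (.leaf 1 [(12,1),(8,1)]) (.cons (.leaf 1 [(12,1),(8,1)]) (.cons (.leaf 1 [(12,1)]) .nil))))))))))))))))) (.cons (.keep [6,8,9,11,12] (.node (.cons (.leaf 1 [(9,2)]) (.cons (.leaf 1 [(9,2),(6,1)]) (.cons (.leaf 1 [(9,2),(6,1)]) (.cons (.leaf 1 [(12,1),(9,1)]) (.cons (.leaf 1 [(12,1),(9,1),(6,1)])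 (.cons (.leaf 1 [(12,1),(9,1),(6,1)]) (.cons (.leaf 1 [(1,1)]) (.cons (.leaf 1 [(1,1),(6,1)]) (.cons (.leaf 1 [(1,1),(6,1)]) (.cons (.leaf 1 [(9,2),(7,1)]) (.cons (.leaf 1 [(9,2)]) (.cons (.leaf 1 [(9,2),(7,1)]) (.cons (.leaf 1 [(9,2),(8,1)]) (.cons (.leaf 1 [(9,2),(8,1)]) (.cons (.leaf 1 [(9,2)]) .nil))))))))))))))))) (.cons (.keep [7,9,10,11,13] (.node (.cons (.leaf 1 [(11,2),(9,1)]) (.cons (.leaf 1 [(11,1),(6,2)]) (.cons (.leaf 1 [(11,2),(9,1),(6,1)]) (.cons (.leaf 1 [(12,1),(11,1),(9,1)]) (.cons (.leaf 1 [(12,1),(6,2)]) (.cons (.leaf 1 [(12,1),(11,1),(9,1),(6,1)]) (.cons (.leaf 1 [(1,1),(9,1)]) (.cons (.leaf 1 [(6,2)]) (.cons (.leaf 1 [(1,1),(9,1),(6,1)]) (.cons (.leaf 1 [(11,1)]) (.cons (.leaf 1 [(11,1),(1,1)]) (.cons (.leaf 1 [(11,1),(6,1)]) (.cons (.leaf 1 [(11,2),(9,1),(8,1)])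 (.cons (.leaf 1 [(11,1),(6,1),(8,1)]) (.cons (.leaf 1 [(11,2),(9,1)]) .nil))))))))))))))))) (.cons (.leaf 1 [(11,1)]) (.cons (.leaf 1 [(11,1),(6,1)]) (.cons (.leaf 1 [(11,1),(6,1)]) (.cons (.leaf 1 []) (.cons (.leaf 1 [(1,1)]) (.cons (.leaf 1 [(6,1)]) (.cons (.leaf 1 [(10,1),(8,1)]) (.cons (.leaf 1 [(6,1),(8,1)]) (.cons (.leaf 1 [(10,1)]) .nil))))))))))))))))) (.cons (.keep [1,2,7,8] (.node (.cons (.leaf 1 [(2,1)]) (.cons (.leaf 1 [(2,1)]) (.cons (.leaf 1 [(2,1)]) (.cons (.keep [1,7,8,11] (.node (.cons (.leaf 1 []) (.cons (.leaf 1 [(6,1)]) (.cons (.leaf 1 [(6,1)]) (.cons (.leaf 1 [(12,1)]) (.cons (.leaf 1 [(12,1),(6,1)]) (.cons (.leaf 1 [(12,1),(6,1)]) (.cons (.leaf 1 [(10,1)]) (.cons (.leaf 1 [(10,1),(6,1)]) (.cons (.leaf 1 [(10,1),(6,1)]) (.cons (.leaf 1 [(7,1)]) (.cons (.leaf 1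 []) (.cons (.leaf 1 [(7,1)]) (.cons (.leaf 1 [(8,1)]) (.cons (.leaf 1 [(8,1)]) (.cons (.leaf 1 []) .nil))))))))))))))))) (.cons (.keep [4,6,8,11,12] (.node (.cons (.leaf 1 []) (.cons (.leaf 1 [(6,1)]) (.cons (.leaf 1 [(6,1)]) (.cons (.leaf 1 [(12,1)]) (.cons (.leaf 1 [(12,1),(6,1)]) (.cons (.leaf 1 [(12,1),(6,1)]) (.cons (.leaf 1 [(13,1)]) (.cons (.leaf 1 [(13,1),(6,1)]) (.cons (.leaf 1 [(13,1),(6,1)]) (.cons (.leaf 1 [(7,1)]) (.cons (.leaf 1 []) (.cons (.leaf 1 [(7,1)]) (.cons (.leaf 1 [(8,1)]) (.cons (.leaf 1 [(8,1)]) (.cons (.leaf 1 []) .nil))))))))))))))))) (.cons (.keep [0,6,11,12] (.node (.cons (.leaf 1 []) (.cons (.leaf 1 [(6,1)]) (.cons (.leaf 1 [(6,1)]) (.cons (.leaf 1 [(11,1)]) (.cons (.leaf 1 [(11,1),(6,1)]) (.cons (.leaf 1 [(11,1),(6,1)]) (.cons (.leaf 1 [(12,1)]) (.cons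 (.leaf 1 [(12,1),(6,1)]) (.cons (.leaf 1 [(12,1),(6,1)]) (.cons (.leaf 1 [(7,1)]) (.cons (.leaf 1 []) (.cons (.leaf 1 [(7,1)]) (.cons (.leaf 1 [(8,1)]) (.cons (.leaf 1 [(8,1)]) (.cons (.leaf 1 []) .nil))))))))))))))))) (.cons (.leaf 1 [(11,1),(2,1)]) (.cons (.leaf 1 [(11,1),(2,1)]) (.cons (.leaf 1 [(11,1),(2,1)]) (.cons (.leaf 1 [(7,1),(2,1)]) (.cons (.leaf 1 [(12,1),(2,1)]) (.cons (.leaf 1 [(12,1),(2,1)]) (.cons (.leaf 1 [(8,1),(2,1)]) (.cons (.leaf 1 [(12,1),(8,1),(2,1)]) (.cons (.keep [0,2,9,11,12] (.node (.cons (.leaf 1 []) (.cons (.leaf 1 [(6,1)]) (.cons (.leaf 1 [(6,1)]) (.cons (.leaf 1 [(7,1),(10,1)]) (.cons (.leaf 2 [(12,1),(10,1)]) (.cons (.leaf 2 [(12,1),(10,1),(7,1)]) (.cons (.leaf 1 [(7,1),(10,1)]) (.cons (.leaf 2 [(13,1),(10,1)]) (.cons (.leaf 2 [(13,1),(10,1),(7,1)])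 (.cons (.leaf 1 [(7,1)]) (.cons (.leaf 1 []) (.cons (.leaf 1 [(7,1)]) (.cons (.leaf 1 [(8,1)]) (.cons (.leaf 1 [(8,1)]) (.cons (.leaf 1 []) .nil))))))))))))))))) .nil))))))))))))))))) (.cons (.keep [6,8,9,10,11] (.node (.cons (.leaf 1 [(2,1),(9,1)]) (.cons (.leaf 1 [(2,1),(9,1)]) (.cons (.leaf 1 [(2,1),(9,1)]) (.cons (.keep [8,9,10,11,13] (.node (.cons (.leaf 1 [(10,1)]) (.cons (.leaf 1 [(10,1),(6,1)]) (.cons (.leaf 1 [(10,1),(6,1)]) (.cons (.leaf 1 []) (.cons (.leaf 1 [(6,1)]) (.cons (.leaf 1 [(6,1)]) (.cons (.leaf 1 [(11,1)]) (.cons (.leaf 1 [(11,1),(6,1)]) (.cons (.leaf 1 [(11,1),(6,1)]) (.cons (.leaf 1 [(10,1),(7,1)]) (.cons (.leaf 1 [(10,1)]) (.cons (.leaf 1 [(10,1),(7,1)]) (.cons (.leaf 1 [(10,1),(8,1)]) (.cons (.leaf 1 [(10,1),(8,1)]) (.cons (.leaf 1 [(10,1)]) .nil)))))))))))))))))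 (.cons (.keep [8,9,10,11,12,13] (.node (.cons (.leaf 1 [(10,1)]) (.cons (.leaf 1 [(10,1),(6,1)]) (.cons (.leaf 1 [(10,1),(6,1)]) (.cons (.leaf 1 []) (.cons (.leaf 1 [(6,1)]) (.cons (.leaf 1 [(6,1)]) (.cons (.leaf 1 [(11,1)]) (.cons (.leaf 1 [(11,1),(6,1)]) (.cons (.leaf 1 [(11,1),(6,1)]) (.cons (.leaf 1 [(10,1),(7,1)]) (.cons (.leaf 1 [(10,1)]) (.cons (.leaf 1 [(10,1),(7,1)]) (.cons (.leaf 1 [(10,1),(8,1)]) (.cons (.leaf 1 [(10,1),(8,1)]) (.cons (.leaf 1 [(10,1)]) .nil))))))))))))))))) (.cons (.keep [5,9,10,11,12] (.node (.cons (.leaf 1 [(10,1)]) (.cons (.leaf 1 [(10,1),(6,1)]) (.cons (.leaf 1 [(10,1),(6,1)]) (.cons (.leaf 1 []) (.cons (.leaf 1 [(6,1)]) (.cons (.leaf 1 [(6,1)]) (.cons (.leaf 1 [(11,1)]) (.cons (.leaf 1 [(11,1),(6,1)]) (.cons (.leaf 1 [(11,1),(6,1)]) (.cons (.leaf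 1 [(10,1),(7,1)]) (.cons (.leaf 1 [(10,1)]) (.cons (.leaf 1 [(10,1),(7,1)]) (.cons (.leaf 1 [(10,1),(8,1)]) (.cons (.leaf 1 [(10,1),(8,1)]) (.cons (.leaf 1 [(10,1)]) .nil))))))))))))))))) (.cons (.leaf 1 [(2,1)]) (.cons (.leaf 1 [(2,1)]) (.cons (.leaf 1 [(2,1)]) (.cons (.leaf 1 [(7,1),(9,1),(2,1)]) (.cons (.leaf 1 [(10,1),(2,1)]) (.cons (.leaf 1 [(10,1),(2,1)]) (.cons (.leaf 1 [(8,1),(9,1),(2,1)]) (.cons (.leaf 1 [(10,1),(8,1),(2,1)]) (.cons (.keep [0,2,9,10,13] (.node (.cons (.leaf 1 [(11,1)]) (.cons (.leaf 1 [(11,1),(6,1)]) (.cons (.leaf 1 [(11,1),(6,1)]) (.cons (.leaf 1 []) (.cons (.leaf 1 [(6,1)]) (.cons (.leaf 1 [(6,1)]) (.cons (.leaf 1 [(11,1),(7,1),(10,1)]) (.cons (.leaf 2 [(11,1),(12,1),(10,1)]) (.cons (.leaf 2 [(11,1),(12,1),(10,1),(7,1)]) (.cons (.leaf 1 [(11,1),(7,1)])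 (.cons (.leaf 1 [(11,1)]) (.cons (.leaf 1 [(11,1),(7,1)]) (.cons (.leaf 1 [(11,1),(8,1)]) (.cons (.leaf 1 [(11,1),(8,1)]) (.cons (.leaf 1 [(11,1)]) .nil))))))))))))))))) .nil))))))))))))))))) (.cons (.keep [5,6,7,9,10] (.node (.cons (.leaf 1 [(2,1),(10,1)]) (.cons (.leaf 1 [(2,1),(6,1)]) (.cons (.leaf 1 [(2,1),(10,1)]) (.cons (.keep [4,7,8,10,11] (.node (.cons (.leaf 1 [(12,1)]) (.cons (.leaf 1 [(12,1),(6,1)]) (.cons (.leaf 1 [(12,1),(6,1)]) (.cons (.leaf 1 [(13,1)]) (.cons (.leaf 1 [(13,1),(6,1)]) (.cons (.leaf 1 [(13,1),(6,1)]) (.cons (.leaf 1 []) (.cons (.leaf 1 [(6,1)]) (.cons (.leaf 1 [(6,1)]) (.cons (.leaf 1 [(12,1),(7,1)]) (.cons (.leaf 1 [(12,1)]) (.cons (.leaf 1 [(12,1),(7,1)]) (.cons (.leaf 1 [(12,1),(8,1)]) (.cons (.leaf 1 [(12,1),(8,1)]) (.cons (.leaf 1 [(12,1)]) .nil)))))))))))))))))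 (.cons (.keep [4,6,8,11,13] (.node (.cons (.leaf 1 [(10,1)]) (.cons (.leaf 1 [(10,1),(6,1)]) (.cons (.leaf 1 [(10,1),(6,1)]) (.cons (.leaf 1 [(12,1)]) (.cons (.leaf 1 [(12,1),(6,1)]) (.cons (.leaf 1 [(12,1),(6,1)]) (.cons (.leaf 1 []) (.cons (.leaf 1 [(6,1)]) (.cons (.leaf 1 [(6,1)]) (.cons (.leaf 1 [(10,1),(7,1)]) (.cons (.leaf 1 [(10,1)]) (.cons (.leaf 1 [(10,1),(7,1)]) (.cons (.leaf 1 [(10,1),(8,1)]) (.cons (.leaf 1 [(10,1),(8,1)]) (.cons (.leaf 1 [(10,1)]) .nil))))))))))))))))) (.cons (.keep [5,7,10,11,13] (.node (.cons (.leaf 1 [(11,1)]) (.cons (.leaf 1 [(11,1),(6,1)]) (.cons (.leaf 1 [(11,1),(6,1)]) (.cons (.leaf 1 [(12,1)]) (.cons (.leaf 1 [(12,1),(6,1)]) (.cons (.leaf 1 [(12,1),(6,1)]) (.cons (.leaf 1 []) (.cons (.leaf 1 [(6,1)]) (.cons (.leaf 1 [(6,1)]) (.cons (.leaf 1 [(11,1),(7,1)])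 (.cons (.leaf 1 [(11,1)]) (.cons (.leaf 1 [(11,1),(7,1)]) (.cons (.leaf 1 [(11,1),(8,1)]) (.cons (.leaf 1 [(11,1),(8,1)]) (.cons (.leaf 1 [(11,1)]) .nil))))))))))))))))) (.cons (.leaf 1 [(2,1),(11,1)]) (.cons (.leaf 1 [(2,1),(11,1)]) (.cons (.leaf 1 [(2,1),(11,1)]) (.cons (.leaf 1 [(2,1)]) (.cons (.leaf 1 [(2,1)]) (.cons (.leaf 1 [(2,1)]) (.cons (.leaf 1 [(8,1),(10,1),(2,1)]) (.cons (.leaf 1 [(8,1),(2,1)]) (.cons (.keep [0,2,9,10,11] (.node (.cons (.leaf 1 [(12,1)]) (.cons (.leaf 1 [(12,1),(6,1)]) (.cons (.leaf 1 [(12,1),(6,1)]) (.cons (.leaf 1 [(7,1),(12,1),(10,1)]) (.cons (.leaf 2 [(13,1),(12,1),(10,1)]) (.cons (.leaf 2 [(13,1),(12,1),(10,1),(7,1)]) (.cons (.leaf 1 []) (.cons (.leaf 1 [(6,1)]) (.cons (.leaf 1 [(6,1)]) (.cons (.leaf 1 [(12,1),(7,1)]) (.cons (.leaf 1 [(12,1)]) (.cons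 (.leaf 1 [(12,1),(7,1)]) (.cons (.leaf 1 [(12,1),(8,1)]) (.cons (.leaf 1 [(12,1),(8,1)]) (.cons (.leaf 1 [(12,1)]) .nil))))))))))))))))) .nil))))))))))))))))) (.cons (.leaf 1 [(7,1)]) (.cons (.leaf 1 []) (.cons (.leaf 1 [(7,1)]) (.cons (.leaf 1 [(8,1)]) (.cons (.leaf 1 [(8,1)]) (.cons (.leaf 1 []) .nil)))))))))))))))))

theorem e_31_25 : ESB (caseOf 4 31 25) := esb_of_ok (t := t_31_25) (by decide +kernel)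

def t_31_26 : T := (.keep [0,1,2] (.node (.cons (.keep [2,3,7,8] (.node (.cons (.leaf 1 [(2,1)]) (.cons (.leaf 1 [(4,1)]) (.cons (.leaf 1 [(5,1)]) (.cons (.leaf 1 []) (.cons (.leaf 1 [(4,1)]) (.cons (.leaf 1 [(5,1)]) (.cons (.leaf 1 [(2,1)]) (.cons (.leaf 1 [(4,1)]) (.cons (.leaf 1 [(5,1)]) (.cons (.leaf 1 [(2,1)]) (.cons (.leaf 1 []) (.cons (.leaf 1 [(5,1)]) (.cons (.leaf 1 [(2,1)]) (.cons (.leaf 1 [(4,1)]) (.cons (.leaf 1 []) .nil))))))))))))))))) (.cons (.keep [3,4,6,8] (.node (.cons (.leaf 1 [(11,1),(2,1)]) (.cons (.leaf 1 [(4,1),(11,1)]) (.cons (.leaf 1 [(5,1),(11,1)]) (.cons (.leaf 1 [(11,1)]) (.cons (.leaf 1 [(4,1),(11,1)]) (.cons (.leaf 1 [(5,1),(11,1)]) (.cons (.leaf 1 [(1,1)]) (.cons (.leaf 1 [(1,1)]) (.cons (.leaf 1 [(1,1)]) (.cons (.leaf 1 [(11,1),(2,1)]) (.cons (.leaf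 1 [(11,1)]) (.cons (.leaf 1 [(5,1),(11,1)]) (.cons (.leaf 1 [(11,1),(2,1)]) (.cons (.leaf 1 [(4,1),(11,1)]) (.cons (.leaf 1 [(11,1)]) .nil))))))))))))))))) (.cons (.keep [0,3,6,7] (.node (.cons (.leaf 1 [(11,1),(2,1)]) (.cons (.leaf 2 [(11,1)]) (.cons (.leaf 1 [(5,1),(11,1)]) (.cons (.leaf 1 [(11,1)]) (.cons (.leaf 1 [(1,1),(6,1)]) (.cons (.leaf 1 [(5,1),(11,1)]) (.cons (.leaf 1 [(11,1),(2,1)]) (.cons (.leaf 2 [(1,1),(11,1)]) (.cons (.leaf 1 [(5,1),(11,1)]) (.cons (.leaf 1 [(1,1)]) (.cons (.leaf 1 [(1,1)]) (.cons (.leaf 1 [(1,1)]) (.cons (.leaf 1 [(11,1),(2,1)]) (.cons (.leaf 1 [(8,1),(1,1)]) (.cons (.leaf 1 [(11,1)]) .nil))))))))))))))))) (.cons (.leaf 1 []) (.cons (.leaf 1 [(6,1)]) (.cons (.leaf 1 [(6,1)]) (.cons (.keep [1,7,8,10] (.node (.cons (.leaf 1 [(2,2)]) (.cons (.leaf 1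 [(2,1),(4,1)]) (.cons (.leaf 1 [(2,1),(5,1)]) (.cons (.keep [0,1,10,11] (.node (.cons (.keep [2,3,7,8] (.node (.cons (.leaf 1 [(2,1)]) (.cons (.leaf 1 [(4,1)]) (.cons (.leaf 1 [(5,1)]) (.cons (.leaf 1 []) (.cons (.leaf 1 [(4,1)]) (.cons (.leaf 1 [(5,1)]) (.cons (.leaf 1 [(2,1)]) (.cons (.leaf 1 [(4,1)]) (.cons (.leaf 1 [(5,1)]) (.cons (.leaf 1 [(2,1)]) (.cons (.leaf 1 []) (.cons (.leaf 1 [(5,1)]) (.cons (.leaf 1 [(2,1)]) (.cons (.leaf 1 [(4,1)]) (.cons (.leaf 1 []) .nil))))))))))))))))) (.cons (.keep [3,4,6,8] (.node (.cons (.leaf 1 [(11,1),(2,1)]) (.cons (.leaf 1 [(4,1),(11,1)]) (.cons (.leaf 1 [(5,1),(11,1)]) (.cons (.leaf 1 [(11,1)]) (.cons (.leaf 1 [(4,1),(11,1)]) (.cons (.leaf 1 [(5,1),(11,1)]) (.cons (.leaf 1 [(1,1)]) (.cons (.leaf 1 [(1,1)]) (.cons (.leaf 1 [(1,1)]) (.cons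 (.leaf 1 [(11,1),(2,1)]) (.cons (.leaf 1 [(11,1)]) (.cons (.leaf 1 [(5,1),(11,1)]) (.cons (.leaf 1 [(11,1),(2,1)]) (.cons (.leaf 1 [(4,1),(11,1)]) (.cons (.leaf 1 [(11,1)]) .nil))))))))))))))))) (.cons (.keep [0,3,6,7] (.node (.cons (.leaf 1 [(11,1),(2,1)]) (.cons (.leaf 2 [(11,1)]) (.cons (.leaf 1 [(5,1),(11,1)]) (.cons (.leaf 1 [(11,1)]) (.cons (.leaf 1 [(1,1),(6,1)]) (.cons (.leaf 1 [(5,1),(11,1)]) (.cons (.leaf 1 [(11,1),(2,1)]) (.cons (.leaf 2 [(1,1),(11,1)]) (.cons (.leaf 1 [(5,1),(11,1)]) (.cons (.leaf 1 [(1,1)]) (.cons (.leaf 1 [(1,1)]) (.cons (.leaf 1 [(1,1)]) (.cons (.leaf 1 [(11,1),(2,1)]) (.cons (.leaf 1 [(8,1),(1,1)]) (.cons (.leaf 1 [(11,1)]) .nil))))))))))))))))) (.cons (.leaf 1 []) (.cons (.leaf 1 [(6,1)]) (.cons (.leaf 1 [(6,1)]) (.cons (.keep [1,7,8,11,12] (.node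 (.cons (.leaf 1 [(2,2)]) (.cons (.leaf 1 [(2,1),(4,1)]) (.cons (.leaf 1 [(2,1),(5,1)]) (.cons (.leaf 1 [(13,1)]) (.cons (.leaf 1 [(11,1),(6,1)]) (.cons (.leaf 1 [(5,1),(13,1)]) (.cons (.leaf 1 [(10,1),(2,1)]) (.cons (.leaf 1 [(2,1),(10,1)]) (.cons (.leaf 1 [(2,1),(10,1)]) (.cons (.leaf 1 [(11,1),(2,1)]) (.cons (.leaf 1 [(11,1),(2,1)]) (.cons (.leaf 1 [(2,1),(11,1)]) (.cons (.leaf 1 [(13,1),(2,1)]) (.cons (.leaf 1 [(0,1),(11,1),(2,2)]) (.cons (.leaf 1 [(13,1)]) .nil))))))))))))))))) (.cons (.keep [1,6,8,9,12] (.node (.cons (.leaf 1 [(2,2),(10,1)]) (.cons (.leaf 1 [(2,1),(4,1),(10,1)]) (.cons (.leaf 1 [(2,1),(5,1),(10,1)]) (.cons (.leaf 1 [(13,1),(10,1)]) (.cons (.leaf 1 [(11,1),(6,1)]) (.cons (.leaf 1 [(13,1),(5,1),(10,1)]) (.cons (.leaf 1 [(2,1)]) (.cons (.leaf 1 [(2,1)]) (.cons (.leaf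 1 [(2,1)]) (.cons (.leaf 1 [(11,1),(2,1)]) (.cons (.leaf 1 [(11,1),(2,1)]) (.cons (.leaf 1 [(11,1),(2,1)]) (.cons (.leaf 1 [(13,1),(10,1),(2,1)]) (.cons (.leaf 1 [(0,1),(11,1),(10,1),(2,2)]) (.cons (.leaf 1 [(13,1),(10,1)]) .nil))))))))))))))))) (.cons (.keep [1,5,6,7,12] (.node (.cons (.leaf 1 [(2,2),(11,1)]) (.cons (.leaf 1 [(6,1)]) (.cons (.leaf 1 [(2,1),(5,1),(11,1)]) (.cons (.leaf 1 [(13,1),(11,1)]) (.cons (.leaf 1 [(6,1)]) (.cons (.leaf 1 [(13,1),(5,1),(11,1)]) (.cons (.leaf 1 [(2,1),(12,1)]) (.cons (.leaf 1 [(6,1)]) (.cons (.leaf 1 [(2,1),(12,1)]) (.cons (.leaf 1 [(2,1)]) (.cons (.leaf 1 [(2,1)]) (.cons (.leaf 1 [(2,1)]) (.cons (.leaf 1 [(13,1),(11,1),(2,1)]) (.cons (.leaf 1 [(6,1)]) (.cons (.leaf 1 [(13,1),(11,1)]) .nil))))))))))))))))) (.cons (.leaf 1 [(7,1)]) (.cons (.leaf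 1 []) (.cons (.leaf 1 [(7,1)]) (.cons (.leaf 1 [(8,1)]) (.cons (.leaf 1 [(8,1)]) (.cons (.leaf 1 []) .nil))))))))))))))))) (.cons (.leaf 1 [(11,1),(6,1)]) (.cons (.keep [1,5,6,10,11] (.node (.cons (.leaf 1 [(4,1)]) (.cons (.leaf 1 [(4,1)]) (.cons (.leaf 1 [(4,1)]) (.cons (.leaf 1 [(10,1)]) (.cons (.leaf 1 [(10,1),(6,1)]) (.cons (.leaf 1 [(10,1),(6,1)]) (.cons (.leaf 1 [(7,1),(12,1),(11,1)]) (.cons (.leaf 2 [(13,1)]) (.cons (.leaf 2 [(13,1),(7,1)]) (.cons (.leaf 1 [(7,1),(10,1)]) (.cons (.leaf 1 [(10,1)]) (.cons (.leaf 1 [(10,1),(7,1)]) (.cons (.leaf 1 [(7,1),(0,1),(10,1)]) (.cons (.leaf 1 [(0,1),(10,1)]) (.cons (.leaf 1 [(10,1)]) .nil))))))))))))))))) (.cons (.leaf 1 [(10,1),(2,1)]) (.cons (.leaf 1 [(2,1),(10,1)]) (.cons (.leaf 1 [(2,1),(10,1)]) (.cons (.leaf 1 [(11,1),(2,1)]) (.cons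 (.leaf 1 [(11,1),(2,1)]) (.cons (.leaf 1 [(2,1),(11,1)]) (.cons (.keep [0,2,9,10,11] (.node (.cons (.leaf 1 [(4,1),(10,2)]) (.cons (.leaf 2 [(10,3)]) (.cons (.leaf 1 [(10,2),(4,1)]) (.cons (.leaf 1 [(10,1)]) (.cons (.leaf 1 [(6,3),(1,1)]) (.cons (.leaf 1 [(6,1),(10,1)]) (.cons (.leaf 1 [(7,1),(12,1),(10,1)]) (.cons (.leaf 2 [(13,1),(10,2)]) (.cons (.leaf 2 [(13,1),(10,2),(7,1)]) (.cons (.leaf 1 [(1,1),(7,2)]) (.cons (.leaf 1 [(1,1)]) (.cons (.leaf 1 [(7,2),(1,1)]) (.cons (.leaf 1 [(8,1),(10,1)]) (.cons (.leaf 1 [(1,1),(8,3)]) (.cons (.leaf 1 [(10,1)]) .nil))))))))))))))))) (.cons (.leaf 1 [(0,1),(11,1),(2,2)]) (.cons (.keep [0,2,9,10,11] (.node (.cons (.leaf 1 [(4,1),(10,1)]) (.cons (.leaf 2 [(10,1)]) (.cons (.leaf 1 [(10,1),(4,1)]) (.cons (.leaf 1 []) (.cons (.leaf 1 [(6,1)]) (.cons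 (.leaf 1 [(6,1)]) (.cons (.leaf 1 [(7,1),(12,1),(10,1)]) (.cons (.leaf 2 [(13,1),(10,1)]) (.cons (.leaf 2 [(13,1),(10,1),(7,1)]) (.cons (.leaf 1 [(7,1)]) (.cons (.leaf 1 []) (.cons (.leaf 1 [(7,1)]) (.cons (.leaf 1 [(8,1)]) (.cons (.leaf 1 [(8,1)]) (.cons (.leaf 1 []) .nil))))))))))))))))) .nil))))))))))))))))) (.cons (.keep [1,6,8,10] (.node (.cons (.leaf 1 [(2,2),(10,1)]) (.cons (.leaf 1 [(2,1),(4,1),(10,1)]) (.cons (.leaf 1 [(2,1),(5,1),(10,1)]) (.cons (.keep [3,5,10,11,12] (.node (.cons (.leaf 1 [(11,2)]) (.cons (.leaf 1 [(11,2),(6,1)]) (.cons (.leaf 1 [(11,2),(6,1)]) (.cons (.leaf 1 [(1,1)]) (.cons (.leaf 1 [(1,1),(6,1)]) (.cons (.leaf 1 [(1,1),(6,1)]) (.cons (.leaf 1 [(11,1),(12,1)]) (.cons (.leaf 1 [(11,1),(12,1),(6,1)]) (.cons (.leaf 1 [(11,1),(12,1),(6,1)]) (.cons (.leaf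 1 [(1,1),(7,2)]) (.cons (.leaf 1 [(11,1)]) (.cons (.leaf 1 [(11,1),(7,1)]) (.cons (.leaf 1 [(1,1),(8,2)]) (.cons (.leaf 1 [(11,1),(8,1)]) (.cons (.leaf 1 [(11,1)]) .nil))))))))))))))))) (.cons (.leaf 1 [(11,1),(6,1)]) (.cons (.keep [3,5,10,11,12] (.node (.cons (.leaf 1 [(4,1),(11,1)]) (.cons (.leaf 1 [(4,1),(11,1)]) (.cons (.leaf 1 [(4,1),(11,1)]) (.cons (.leaf 1 [(1,1)]) (.cons (.leaf 1 [(1,1),(6,1)]) (.cons (.leaf 1 [(1,1),(6,1)]) (.cons (.leaf 2 [(7,1),(12,1),(11,1)]) (.cons (.leaf 2 [(12,1),(11,1)]) (.cons (.leaf 2 [(12,1),(11,1),(7,1)]) (.cons (.leaf 1 [(1,1),(7,2)]) (.cons (.leaf 1 [(10,1),(11,1)]) (.cons (.leaf 1 [(10,1),(7,1),(11,1)]) (.cons (.leaf 1 [(1,1),(8,2)]) (.cons (.leaf 1 [(11,1),(8,1),(10,1)]) (.cons (.leaf 1 [(10,1),(11,1)]) .nil))))))))))))))))) (.cons (.leaf 1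 [(2,1)]) (.cons (.leaf 1 [(2,1)]) (.cons (.leaf 1 [(2,1)]) (.cons (.leaf 1 [(11,1),(2,1)]) (.cons (.leaf 1 [(11,1),(2,1)]) (.cons (.leaf 1 [(11,1),(2,1)]) (.cons (.keep [2,9,10,11,12] (.node (.cons (.leaf 1 [(4,2),(9,2)]) (.cons (.leaf 2 [(11,2),(9,3)]) (.cons (.leaf 1 [(11,1),(9,2),(4,1)]) (.cons (.leaf 1 [(1,1)]) (.cons (.leaf 1 [(1,1),(6,1)]) (.cons (.leaf 1 [(1,1),(6,1)]) (.cons (.leaf 1 [(7,1),(9,1)]) (.cons (.leaf 2 [(11,1),(12,1),(9,2)]) (.cons (.leaf 2 [(11,1),(12,1),(9,2),(7,1)]) (.cons (.leaf 1 [(1,1),(7,2)]) (.cons (.leaf 1 [(11,1),(1,1)]) (.cons (.leaf 1 [(11,1),(7,2),(1,1)]) (.cons (.leaf 1 [(1,1),(8,2)]) (.cons (.leaf 1 [(1,1),(8,3),(11,1)]) (.cons (.leaf 1 [(11,1),(9,1)]) .nil))))))))))))))))) (.cons (.leaf 1 [(0,1),(11,1),(10,1),(2,2)]) (.cons (.keep [0,2,9,10,11]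 (.node (.cons (.leaf 1 [(4,2),(10,2)]) (.cons (.leaf 2 [(12,2),(10,1)]) (.cons (.leaf 1 [(12,1),(10,1),(4,1)]) (.cons (.leaf 1 [(1,1)]) (.cons (.leaf 1 [(1,1),(6,1)]) (.cons (.leaf 1 [(1,1),(6,1)]) (.cons (.leaf 1 [(7,1),(10,1)]) (.cons (.leaf 2 [(12,1),(13,1),(10,1)]) (.cons (.leaf 2 [(12,1),(13,1),(10,1),(7,1)]) (.cons (.leaf 1 [(1,1),(7,2)]) (.cons (.leaf 1 [(12,1)]) (.cons (.leaf 1 [(12,1),(7,1)]) (.cons (.leaf 1 [(1,1),(8,2)]) (.cons (.leaf 1 [(12,1),(8,1)]) (.cons (.leaf 1 [(12,1)]) .nil))))))))))))))))) .nil))))))))))))))))) (.cons (.keep [1,6,7,10] (.node (.cons (.leaf 1 [(2,2),(10,1)]) (.cons (.leaf 1 [(6,1)]) (.cons (.leaf 1 [(2,1),(5,1),(10,1)]) (.cons (.keep [4,5,10,11,12] (.node (.cons (.keep [3,7,8,11,12] (.node (.cons (.leaf 1 []) (.cons (.leaf 1 [(12,1),(4,1)]) (.cons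 (.leaf 1 [(12,1),(5,1)]) (.cons (.leaf 1 [(1,1)]) (.cons (.leaf 1 [(1,1),(4,1)]) (.cons (.leaf 1 [(1,1),(5,1)]) (.cons (.leaf 1 [(1,1)]) (.cons (.leaf 1 [(12,1),(4,1)]) (.cons (.leaf 1 [(12,1),(5,1)]) (.cons (.leaf 1 [(1,1)]) (.cons (.leaf 1 [(12,1)]) (.cons (.leaf 1 [(12,1),(5,1)]) (.cons (.leaf 1 [(1,1)]) (.cons (.leaf 1 [(12,1),(4,1)]) (.cons (.leaf 1 [(12,1)]) .nil))))))))))))))))) (.cons (.keep [3,6,8,9,11] (.node (.cons (.leaf 1 [(10,1)]) (.cons (.leaf 1 [(13,1),(4,1),(10,1)]) (.cons (.leaf 1 [(13,1),(5,1),(10,1)]) (.cons (.leaf 1 [(1,1),(10,1)]) (.cons (.leaf 1 [(1,1),(4,1),(10,1)]) (.cons (.leaf 1 [(1,1),(5,1),(10,1)]) (.cons (.leaf 1 [(10,1),(1,1)]) (.cons (.leaf 1 [(13,1),(1,1)]) (.cons (.leaf 1 [(13,1),(1,1)]) (.cons (.leaf 1 [(10,1),(1,1)]) (.cons (.leaf 1 [(13,1),(10,1)])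 (.cons (.leaf 1 [(13,1),(5,1),(10,1)]) (.cons (.leaf 1 [(10,1),(1,1)]) (.cons (.leaf 1 [(13,1),(4,1),(10,1)]) (.cons (.leaf 1 [(13,1),(10,1)]) .nil))))))))))))))))) (.cons (.keep [3,6,7,9,11] (.node (.cons (.leaf 1 [(10,1)]) (.cons (.leaf 2 [(13,2),(10,1)]) (.cons (.leaf 1 [(13,1),(5,1),(10,1)]) (.cons (.leaf 1 [(1,1),(10,1)]) (.cons (.leaf 1 [(1,2),(6,1)]) (.cons (.leaf 1 [(1,1),(5,1),(10,1)]) (.cons (.leaf 1 [(10,1),(1,1)]) (.cons (.leaf 2 [(13,2),(1,1),(10,1)]) (.cons (.leaf 1 [(13,1),(5,1),(10,1)]) (.cons (.leaf 1 [(7,1),(1,2)]) (.cons (.leaf 1 [(13,1),(1,1)]) (.cons (.leaf 1 [(13,1),(1,1)]) (.cons (.leaf 1 [(10,1),(1,1)]) (.cons (.leaf 1 [(13,1),(8,1),(1,1)]) (.cons (.leaf 1 [(13,1),(10,1)]) .nil))))))))))))))))) (.cons (.leaf 1 [(11,1)]) (.cons (.leaf 1 [(6,1),(11,1)]) (.cons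 (.leaf 1 [(6,1),(11,1)]) (.cons (.keep [1,7,8,9,13] (.node (.cons (.leaf 1 [(2,1)]) (.cons (.leaf 1 [(4,1)]) (.cons (.leaf 1 [(5,1)]) (.cons (.leaf 1 []) (.cons (.leaf 1 [(4,1)]) (.cons (.leaf 1 [(5,1)]) (.cons (.leaf 1 [(2,1)]) (.cons (.leaf 1 [(4,1)]) (.cons (.leaf 1 [(5,1)]) (.cons (.leaf 1 [(2,1)]) (.cons (.leaf 1 []) (.cons (.leaf 1 [(5,1)]) (.cons (.leaf 1 [(2,1)]) (.cons (.leaf 1 [(4,1)]) (.cons (.leaf 1 []) .nil))))))))))))))))) (.cons (.keep [1,6,8,10,13] (.node (.cons (.leaf 1 [(10,1),(2,1)]) (.cons (.leaf 1 [(4,1),(10,1)]) (.cons (.leaf 1 [(5,1),(10,1)]) (.cons (.leaf 1 [(10,1)]) (.cons (.leaf 1 [(4,1),(10,1)]) (.cons (.leaf 1 [(5,1),(10,1)]) (.cons (.leaf 1 [(1,1)]) (.cons (.leaf 1 [(1,1)]) (.cons (.leaf 1 [(1,1)]) (.cons (.leaf 1 [(10,1),(2,1)]) (.cons (.leaf 1 [(10,1)])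 (.cons (.leaf 1 [(5,1),(10,1)]) (.cons (.leaf 1 [(10,1),(2,1)]) (.cons (.leaf 1 [(4,1),(10,1)]) (.cons (.leaf 1 [(10,1)]) .nil))))))))))))))))) (.cons (.keep [1,5,6,7,13] (.node (.cons (.leaf 1 [(11,1),(2,1)]) (.cons (.leaf 1 [(9,1),(6,1)]) (.cons (.leaf 1 [(5,1),(11,1)]) (.cons (.leaf 1 [(11,1)]) (.cons (.leaf 1 [(1,1),(6,1)]) (.cons (.leaf 1 [(5,1),(11,1)]) (.cons (.leaf 1 [(11,1),(2,1)]) (.cons (.leaf 1 [(9,1),(6,1)]) (.cons (.leaf 1 [(5,1),(11,1)]) (.cons (.leaf 1 [(1,1)]) (.cons (.leaf 1 [(1,1)]) (.cons (.leaf 1 [(1,1)]) (.cons (.leaf 1 [(11,1),(2,1)]) (.cons (.leaf 1 [(8,1),(1,1)]) (.cons (.leaf 1 [(11,1)]) .nil))))))))))))))))) (.cons (.leaf 1 [(7,1),(11,1)]) (.cons (.leaf 1 [(11,1)]) (.cons (.leaf 1 [(11,1),(7,1)]) (.cons (.leaf 1 [(8,1),(11,1)]) (.cons (.leaf 1 [(11,1),(8,1)])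 (.cons (.leaf 1 [(11,1)]) .nil))))))))))))))))) (.cons (.leaf 1 [(6,1)]) (.cons (.keep [5,7,10,11,12] (.node (.cons (.leaf 1 [(4,1),(11,1)]) (.cons (.leaf 1 [(4,1),(11,1)]) (.cons (.leaf 1 [(4,1),(11,1)]) (.cons (.leaf 1 [(9,1),(11,1)]) (.cons (.leaf 1 [(6,1),(9,1),(11,1)]) (.cons (.leaf 1 [(6,1),(9,1),(11,1)]) (.cons (.leaf 1 [(7,1),(1,1),(10,1)]) (.cons (.leaf 1 [(1,1),(10,1)]) (.cons (.leaf 1 [(1,1),(10,1),(7,1)]) (.cons (.leaf 1 [(7,1),(11,1),(9,1)]) (.cons (.leaf 1 [(9,1),(11,1)]) (.cons (.leaf 1 [(9,1),(7,1),(11,1)]) (.cons (.leaf 1 [(8,1),(9,1),(11,1)]) (.cons (.leaf 1 [(11,1),(8,1),(9,1)]) (.cons (.leaf 1 [(9,1),(11,1)]) .nil))))))))))))))))) (.cons (.leaf 1 [(2,1),(11,1)]) (.cons (.leaf 1 [(6,1)]) (.cons (.leaf 1 [(2,1),(11,1)]) (.cons (.leaf 1 [(2,1)]) (.cons (.leaf 1 [(2,1)])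 (.cons (.leaf 1 [(2,1)]) (.cons (.keep [2,9,10,11,12] (.node (.cons (.leaf 1 [(4,1),(11,1),(9,2)]) (.cons (.leaf 2 [(11,2),(9,3)]) (.cons (.leaf 1 [(11,1),(9,2),(4,1)]) (.cons (.leaf 1 [(11,1),(9,1)]) (.cons (.leaf 1 [(6,3),(11,1),(1,1)]) (.cons (.leaf 1 [(6,1),(11,1),(9,1)]) (.cons (.leaf 1 [(4,1),(9,1)]) (.cons (.leaf 2 [(1,1),(9,1)]) (.cons (.leaf 1 [(9,1),(4,1)]) (.cons (.leaf 1 [(7,2),(1,1),(11,1)]) (.cons (.leaf 1 [(11,1),(1,1)]) (.cons (.leaf 1 [(11,1),(7,2),(1,1)]) (.cons (.leaf 1 [(8,1),(11,1),(9,1)]) (.cons (.leaf 1 [(1,1),(8,3),(11,1)]) (.cons (.leaf 1 [(11,1),(9,1)]) .nil))))))))))))))))) (.cons (.leaf 1 [(6,1)]) (.cons (.keep [0,2,9,10,11] (.node (.cons (.leaf 1 [(4,1),(12,1),(10,1)]) (.cons (.leaf 2 [(12,2),(10,1)]) (.cons (.leaf 1 [(12,1),(10,1),(4,1)]) (.cons (.leaf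 1 [(12,1)]) (.cons (.leaf 1 [(6,1),(12,1)]) (.cons (.leaf 1 [(6,1),(12,1)]) (.cons (.leaf 1 [(4,1),(10,1)]) (.cons (.leaf 2 [(1,1),(10,1)]) (.cons (.leaf 1 [(10,1),(4,1)]) (.cons (.leaf 1 [(7,1),(12,1)]) (.cons (.leaf 1 [(12,1)]) (.cons (.leaf 1 [(12,1),(7,1)]) (.cons (.leaf 1 [(8,1),(12,1)]) (.cons (.leaf 1 [(12,1),(8,1)]) (.cons (.leaf 1 [(12,1)]) .nil))))))))))))))))) .nil))))))))))))))))) (.cons (.leaf 1 [(7,1)]) (.cons (.leaf 1 []) (.cons (.leaf 1 [(7,1)]) (.cons (.leaf 1 [(8,1)]) (.cons (.leaf 1 [(8,1)]) (.cons (.leaf 1 []) .nil)))))))))))))))))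

theorem e_31_26 : ESB (caseOf 4 31 26) := esb_of_ok (t := t_31_26) (by decide +kernel)

def t_31_27 : T := (.keep [0,1,2] (.node (.cons (.leaf 1 []) (.cons (.leaf 1 [(6,1)]) (.cons (.leaf 1 [(6,1)]) (.cons (.leaf 1 [(6,1)]) (.cons (.leaf 1 [(7,1)]) (.cons (.leaf 1 []) (.cons (.leaf 1 [(7,1)]) (.cons (.leaf 1 [(7,1)]) (.cons (.keep [1,7,8,9] (.node (.cons (.leaf 1 [(2,1)]) (.cons (.leaf 1 [(2,1)]) (.cons (.leaf 1 [(2,1)]) (.cons (.leaf 1 [(2,1)]) (.cons (.leaf 1 [(7,1)]) (.cons (.keep [0,1,12,13] (.node (.cons (.leaf 1 []) (.cons (.leaf 1 [(6,1)]) (.cons (.leaf 1 [(6,1)]) (.cons (.leaf 1 [(6,1)]) (.cons (.leaf 1 [(7,1)]) (.cons (.leaf 1 []) (.cons (.leaf 1 [(7,1)]) (.cons (.leaf 1 [(7,1)]) (.cons (.leaf 1 [(13,1)]) (.cons (.leaf 1 [(6,1),(13,1)]) (.cons (.leaf 1 [(13,1),(6,1)]) (.cons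 (.leaf 1 [(13,1),(6,1)]) (.cons (.leaf 1 [(8,1)]) (.cons (.leaf 1 [(8,1)]) (.cons (.leaf 1 []) (.cons (.leaf 1 [(8,1)]) (.cons (.leaf 1 [(9,1)]) (.cons (.leaf 1 [(9,1)]) (.cons (.leaf 1 [(9,1)]) (.cons (.leaf 1 []) .nil)))))))))))))))))))))) (.cons (.leaf 1 [(13,1),(7,1)]) (.cons (.keep [0,6,7,12,13] (.node (.cons (.leaf 1 []) (.cons (.leaf 1 [(6,1)]) (.cons (.leaf 1 [(6,1)]) (.cons (.leaf 1 [(6,1)]) (.cons (.leaf 1 [(7,1)]) (.cons (.leaf 1 []) (.cons (.leaf 1 [(7,1)]) (.cons (.leaf 1 [(7,1)]) (.cons (.leaf 1 [(8,1),(12,1)]) (.cons (.leaf 1 [(8,1),(13,1),(12,1)]) (.cons (.leaf 2 [(14,1),(12,1)]) (.cons (.leaf 2 [(14,1),(12,1),(8,1)]) (.cons (.leaf 1 [(8,1)]) (.cons (.leaf 1 [(8,1)]) (.cons (.leaf 1 []) (.cons (.leaf 1 [(8,1)]) (.cons (.leaf 1 [(9,1)]) (.cons (.leaf 1 [(9,1)]) (.cons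 (.leaf 1 [(9,1)]) (.cons (.leaf 1 []) .nil)))))))))))))))))))))) (.cons (.leaf 1 [(7,1)]) (.cons (.leaf 1 [(12,1),(2,1)]) (.cons (.leaf 1 [(12,1),(2,1)]) (.cons (.leaf 1 [(12,1),(2,1)]) (.cons (.leaf 1 [(7,1)]) (.cons (.leaf 1 [(13,1),(2,1)]) (.cons (.leaf 1 [(13,1),(2,1)]) (.cons (.leaf 1 [(13,1),(2,1)]) (.cons (.leaf 1 [(7,1)]) (.cons (.keep [0,2,6,12,13] (.node (.cons (.leaf 1 []) (.cons (.leaf 1 [(6,1)]) (.cons (.leaf 1 [(6,1)]) (.cons (.leaf 1 [(6,1)]) (.cons (.leaf 1 [(7,1)]) (.cons (.leaf 1 []) (.cons (.leaf 1 [(7,1)]) (.cons (.leaf 1 [(7,1)]) (.cons (.leaf 1 [(8,1),(11,1)]) (.cons (.leaf 1 [(8,1),(13,1),(11,1)]) (.cons (.leaf 2 [(14,1),(11,1)]) (.cons (.leaf 2 [(14,1),(11,1),(8,1)]) (.cons (.leaf 1 [(8,1)]) (.cons (.leaf 1 [(8,1)]) (.cons (.leaf 1 []) (.cons (.leaf 1 [(8,1)])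 (.cons (.leaf 1 [(9,1)]) (.cons (.leaf 1 [(9,1)]) (.cons (.leaf 1 [(9,1)]) (.cons (.leaf 1 []) .nil)))))))))))))))))))))) (.cons (.leaf 1 [(13,1),(7,1)]) (.cons (.keep [0,2,10,12,13] (.node (.cons (.leaf 1 []) (.cons (.leaf 1 [(6,1)]) (.cons (.leaf 1 [(6,1)]) (.cons (.leaf 1 [(6,1)]) (.cons (.leaf 1 [(7,1)]) (.cons (.leaf 1 []) (.cons (.leaf 1 [(7,1)]) (.cons (.leaf 1 [(7,1)]) (.cons (.leaf 1 [(8,1),(11,1)]) (.cons (.leaf 1 [(8,1),(13,1),(11,1)]) (.cons (.leaf 2 [(14,1),(11,1)]) (.cons (.leaf 2 [(14,1),(11,1),(8,1)]) (.cons (.leaf 1 [(8,1)]) (.cons (.leaf 1 [(8,1)]) (.cons (.leaf 1 []) (.cons (.leaf 1 [(8,1)]) (.cons (.leaf 1 [(9,1)]) (.cons (.leaf 1 [(9,1)]) (.cons (.leaf 1 [(9,1)]) (.cons (.leaf 1 []) .nil)))))))))))))))))))))) .nil)))))))))))))))))))))) (.cons (.keep [6,8,9,10,11]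 (.node (.cons (.leaf 1 [(2,1)]) (.cons (.leaf 1 [(2,2)]) (.cons (.leaf 1 [(2,1),(4,1)]) (.cons (.leaf 1 [(2,1),(5,1)]) (.cons (.leaf 1 []) (.cons (.keep [0,1,11,12] (.node (.cons (.leaf 1 []) (.cons (.leaf 1 [(6,1)]) (.cons (.leaf 1 [(6,1)]) (.cons (.leaf 1 [(6,1)]) (.cons (.leaf 1 [(7,1)]) (.cons (.leaf 1 []) (.cons (.leaf 1 [(7,1)]) (.cons (.leaf 1 [(7,1)]) (.cons (.leaf 1 [(13,1)]) (.cons (.leaf 1 [(6,1),(13,1)]) (.cons (.leaf 1 [(13,1),(6,1)]) (.cons (.leaf 1 [(13,1),(6,1)]) (.cons (.leaf 1 [(8,1)]) (.cons (.leaf 1 [(8,1)]) (.cons (.leaf 1 []) (.cons (.leaf 1 [(8,1)]) (.cons (.leaf 1 [(9,1)]) (.cons (.leaf 1 [(9,1)]) (.cons (.leaf 1 [(9,1)]) (.cons (.leaf 1 []) .nil)))))))))))))))))))))) (.cons (.leaf 1 [(12,1),(7,1)]) (.cons (.keep [5,7,11,12,13] (.node (.cons (.leaf 1 [(4,1)])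 (.cons (.leaf 1 [(4,1)]) (.cons (.leaf 1 [(4,1)]) (.cons (.leaf 1 [(4,1)]) (.cons (.leaf 1 [(4,1),(7,1)]) (.cons (.leaf 1 [(10,1)]) (.cons (.leaf 1 [(10,1),(7,1)]) (.cons (.leaf 1 [(10,1),(7,1)]) (.cons (.leaf 1 [(8,1)]) (.cons (.leaf 1 [(8,1),(12,1),(11,1)]) (.cons (.leaf 2 [(13,1)]) (.cons (.leaf 2 [(13,1),(8,1)]) (.cons (.leaf 1 [(8,1)]) (.cons (.leaf 1 [(8,1),(10,1)]) (.cons (.leaf 1 [(10,1)]) (.cons (.leaf 1 [(10,1),(8,1)]) (.cons (.leaf 1 [(8,1)]) (.cons (.leaf 1 [(8,1),(0,1),(10,1)]) (.cons (.leaf 1 [(0,1),(10,1)]) (.cons (.leaf 1 [(10,1)]) .nil)))))))))))))))))))))) (.cons (.leaf 1 [(2,1)]) (.cons (.leaf 1 [(11,1),(2,1)]) (.cons (.leaf 1 [(2,1),(11,1)]) (.cons (.leaf 1 [(2,1),(11,1)]) (.cons (.leaf 1 [(2,1)]) (.cons (.leaf 1 [(12,1),(2,1)]) (.cons (.leaf 1 [(12,1),(2,1)])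 (.cons (.leaf 1 [(2,1),(12,1)]) (.cons (.leaf 1 [(2,1)]) (.cons (.keep [0,2,11,12,13] (.node (.cons (.leaf 1 [(11,1)]) (.cons (.leaf 1 [(6,1),(11,1)]) (.cons (.leaf 1 [(6,3)]) (.cons (.leaf 1 [(11,1),(6,1)]) (.cons (.leaf 1 [(7,1),(11,1)]) (.cons (.leaf 1 [(11,1)]) (.cons (.leaf 1 [(7,2),(6,1)]) (.cons (.leaf 1 [(11,1),(7,1)]) (.cons (.leaf 1 [(8,1),(11,2)]) (.cons (.leaf 1 [(8,1),(12,1),(11,1)]) (.cons (.leaf 2 [(13,1),(11,2)]) (.cons (.leaf 2 [(13,1),(11,2),(8,1)]) (.cons (.leaf 1 [(8,1)]) (.cons (.leaf 1 [(6,1),(8,1)]) (.cons (.leaf 1 [(1,1)]) (.cons (.leaf 1 [(8,1),(6,1)]) (.cons (.leaf 1 [(11,1),(9,1)]) (.cons (.leaf 1 [(9,1),(11,1)]) (.cons (.leaf 1 [(6,1),(9,2)]) (.cons (.leaf 1 [(11,1)]) .nil)))))))))))))))))))))) (.cons (.leaf 1 [(0,1),(12,1),(2,2)]) (.cons (.keep [0,2,11,12,13]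 (.node (.cons (.leaf 1 []) (.cons (.leaf 1 [(6,1)]) (.cons (.leaf 1 [(6,1)]) (.cons (.leaf 1 [(6,1)]) (.cons (.leaf 1 [(7,1)]) (.cons (.leaf 1 []) (.cons (.leaf 1 [(7,1)]) (.cons (.leaf 1 [(7,1)]) (.cons (.leaf 1 [(8,1),(11,1)]) (.cons (.leaf 1 [(8,1),(12,1),(11,1)]) (.cons (.leaf 2 [(13,1),(11,1)]) (.cons (.leaf 2 [(13,1),(11,1),(8,1)]) (.cons (.leaf 1 [(8,1)]) (.cons (.leaf 1 [(8,1)]) (.cons (.leaf 1 []) (.cons (.leaf 1 [(8,1)]) (.cons (.leaf 1 [(9,1)]) (.cons (.leaf 1 [(9,1)]) (.cons (.leaf 1 [(9,1)]) (.cons (.leaf 1 []) .nil)))))))))))))))))))))) .nil)))))))))))))))))))))) (.cons (.keep [6,7,9,11,12] (.node (.cons (.leaf 1 [(2,1),(10,1)]) (.cons (.leaf 1 [(2,1),(10,1)]) (.cons (.leaf 1 [(2,1),(10,1)]) (.cons (.leaf 1 [(2,1),(10,1)]) (.cons (.leaf 1 [(7,1),(10,1)]) (.cons (.keep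 [5,10,12,13,14] (.node (.cons (.leaf 1 [(11,1)]) (.cons (.leaf 1 [(6,2)]) (.cons (.leaf 1 [(11,1),(6,1)]) (.cons (.leaf 1 [(11,1),(6,1)]) (.cons (.leaf 1 []) (.cons (.leaf 1 [(1,1)]) (.cons (.leaf 1 [(6,1)]) (.cons (.leaf 1 [(6,1)]) (.cons (.leaf 1 [(12,1)]) (.cons (.leaf 1 [(6,1),(12,1)]) (.cons (.leaf 1 [(12,1),(6,1)]) (.cons (.leaf 1 [(12,1),(6,1)]) (.cons (.leaf 1 [(11,1),(8,1)]) (.cons (.leaf 1 [(6,1),(8,1)]) (.cons (.leaf 1 [(11,1)]) (.cons (.leaf 1 [(11,1),(8,1)]) (.cons (.leaf 1 [(11,1),(9,1)]) (.cons (.leaf 1 [(6,1),(9,1)]) (.cons (.leaf 1 [(11,1),(9,1)]) (.cons (.leaf 1 [(11,1)]) .nil)))))))))))))))))))))) (.cons (.leaf 1 [(12,1),(7,1)]) (.cons (.keep [5,11,12,13,14] (.node (.cons (.leaf 1 [(4,1),(11,1)]) (.cons (.leaf 1 [(6,2)]) (.cons (.leaf 1 [(4,1),(11,1)]) (.cons (.leaf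 1 [(11,1),(4,1)]) (.cons (.leaf 1 []) (.cons (.leaf 1 [(1,1)]) (.cons (.leaf 1 [(6,1)]) (.cons (.leaf 1 [(6,1)]) (.cons (.leaf 1 [(8,1),(11,1)]) (.cons (.leaf 2 [(8,1),(12,1),(11,1)]) (.cons (.leaf 2 [(12,1),(11,1)]) (.cons (.leaf 2 [(12,1),(11,1),(8,1)]) (.cons (.leaf 1 [(11,1),(8,1)]) (.cons (.leaf 1 [(6,1),(8,1)]) (.cons (.leaf 1 [(10,1),(11,1)]) (.cons (.leaf 1 [(11,1),(10,1),(8,1)]) (.cons (.leaf 1 [(4,1),(11,1),(9,1)]) (.cons (.leaf 1 [(6,1),(9,1)]) (.cons (.leaf 1 [(11,1),(9,1),(10,1)]) (.cons (.leaf 1 [(10,1),(11,1)]) .nil)))))))))))))))))))))) (.cons (.leaf 1 [(2,1)]) (.cons (.leaf 1 [(2,1)]) (.cons (.leaf 1 [(2,1)]) (.cons (.leaf 1 [(2,1)]) (.cons (.leaf 1 [(7,1),(10,1)]) (.cons (.leaf 1 [(12,1),(2,1)]) (.cons (.leaf 1 [(12,1),(2,1)]) (.cons (.leaf 1 [(12,1),(2,1)]) (.cons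 (.leaf 1 [(7,1),(10,1)]) (.cons (.keep [2,11,12,13,14] (.node (.cons (.leaf 1 [(11,1),(10,1)]) (.cons (.leaf 1 [(6,2)]) (.cons (.leaf 1 [(11,1),(6,3)]) (.cons (.leaf 1 [(11,1),(10,1),(6,1)]) (.cons (.leaf 1 []) (.cons (.leaf 1 [(1,1)]) (.cons (.leaf 1 [(6,1)]) (.cons (.leaf 1 [(6,1)]) (.cons (.leaf 1 [(11,1),(8,1),(10,2)]) (.cons (.leaf 1 [(8,1),(10,1)]) (.cons (.leaf 2 [(11,1),(12,1),(10,2)]) (.cons (.leaf 2 [(11,1),(12,1),(10,2),(8,1)]) (.cons (.leaf 1 [(11,1),(8,1)]) (.cons (.leaf 1 [(6,1),(8,1)]) (.cons (.leaf 1 [(11,1),(1,1)]) (.cons (.leaf 1 [(1,1),(11,1),(8,2)]) (.cons (.leaf 1 [(11,1),(10,1),(9,1)]) (.cons (.leaf 1 [(6,1),(9,1)]) (.cons (.leaf 1 [(1,1),(9,3),(11,1)]) (.cons (.leaf 1 [(11,1),(10,1)]) .nil)))))))))))))))))))))) (.cons (.leaf 1 [(12,1),(7,1)]) (.cons (.keep [0,2,10,12,14]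 (.node (.cons (.leaf 1 [(12,1)]) (.cons (.leaf 1 [(6,2)]) (.cons (.leaf 1 [(12,1),(6,1)]) (.cons (.leaf 1 [(12,1),(6,1)]) (.cons (.leaf 1 []) (.cons (.leaf 1 [(1,1)]) (.cons (.leaf 1 [(6,1)]) (.cons (.leaf 1 [(6,1)]) (.cons (.leaf 1 [(12,1),(8,1),(11,1)]) (.cons (.leaf 1 [(8,1),(11,1)]) (.cons (.leaf 2 [(12,1),(13,1),(11,1)]) (.cons (.leaf 2 [(12,1),(13,1),(11,1),(8,1)]) (.cons (.leaf 1 [(12,1),(8,1)]) (.cons (.leaf 1 [(6,1),(8,1)]) (.cons (.leaf 1 [(12,1)]) (.cons (.leaf 1 [(12,1),(8,1)]) (.cons (.leaf 1 [(12,1),(9,1)]) (.cons (.leaf 1 [(6,1),(9,1)]) (.cons (.leaf 1 [(12,1),(9,1)]) (.cons (.leaf 1 [(12,1)]) .nil)))))))))))))))))))))) .nil)))))))))))))))))))))) (.cons (.keep [5,6,7,8,11] (.node (.cons (.leaf 1 [(2,1),(11,1)]) (.cons (.leaf 1 [(2,1),(11,1)]) (.cons (.leaf 1 [(2,1),(6,1)])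 (.cons (.leaf 1 [(2,1),(11,1)]) (.cons (.leaf 1 [(7,1),(11,1)]) (.cons (.keep [4,5,11,13,14] (.node (.cons (.leaf 1 [(12,1)]) (.cons (.leaf 1 [(6,1),(12,1)]) (.cons (.leaf 1 [(12,1),(6,1)]) (.cons (.leaf 1 [(12,1),(6,1)]) (.cons (.leaf 1 [(7,1),(12,1)]) (.cons (.leaf 1 [(12,1)]) (.cons (.leaf 1 [(12,1),(7,1)]) (.cons (.leaf 1 [(12,1),(7,1)]) (.cons (.leaf 1 []) (.cons (.leaf 1 [(6,1)]) (.cons (.leaf 1 [(6,1)]) (.cons (.leaf 1 [(6,1)]) (.cons (.leaf 1 [(12,1),(8,1)]) (.cons (.leaf 1 [(8,1),(12,1)]) (.cons (.leaf 1 [(12,1)]) (.cons (.leaf 1 [(12,1),(8,1)]) (.cons (.leaf 1 [(12,1),(9,1)]) (.cons (.leaf 1 [(9,1),(12,1)]) (.cons (.leaf 1 [(12,1),(9,1)]) (.cons (.leaf 1 [(12,1)]) .nil)))))))))))))))))))))) (.cons (.leaf 1 [(7,1)]) (.cons (.keep [5,8,12,13,14] (.node (.cons (.leaf 1 [(4,1),(12,1)])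 (.cons (.leaf 1 [(4,1),(12,1)]) (.cons (.leaf 1 [(4,1),(12,1)]) (.cons (.leaf 1 [(12,1),(4,1)]) (.cons (.leaf 1 [(7,1),(4,1),(12,1)]) (.cons (.leaf 1 [(10,1),(12,1)]) (.cons (.leaf 1 [(10,1),(12,1),(7,1)]) (.cons (.leaf 1 [(10,1),(12,1),(7,1)]) (.cons (.leaf 1 []) (.cons (.leaf 1 [(6,1)]) (.cons (.leaf 1 [(6,1)]) (.cons (.leaf 1 [(6,1)]) (.cons (.leaf 1 [(12,1),(8,1)]) (.cons (.leaf 1 [(8,1),(12,1),(10,1)]) (.cons (.leaf 1 [(10,1),(12,1)]) (.cons (.leaf 1 [(12,1),(10,1),(8,1)]) (.cons (.leaf 1 [(4,1),(12,1),(9,1)]) (.cons (.leaf 1 [(9,1),(10,1),(12,1)]) (.cons (.leaf 1 [(12,1),(9,1),(10,1)]) (.cons (.leaf 1 [(10,1),(12,1)]) .nil)))))))))))))))))))))) (.cons (.leaf 1 [(7,1),(11,1)]) (.cons (.leaf 1 [(2,1),(13,1)]) (.cons (.leaf 1 [(7,1)]) (.cons (.leaf 1 [(2,1),(13,1)]) (.cons (.leaf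 1 [(2,1)]) (.cons (.leaf 1 [(2,1)]) (.cons (.leaf 1 [(2,1)]) (.cons (.leaf 1 [(2,1)]) (.cons (.leaf 1 [(7,1),(11,1)]) (.cons (.keep [2,8,12,13,14] (.node (.cons (.leaf 1 [(12,1),(10,1)]) (.cons (.leaf 1 [(6,1),(12,1),(10,1)]) (.cons (.leaf 1 [(12,1),(6,3)]) (.cons (.leaf 1 [(12,1),(10,1),(6,1)]) (.cons (.leaf 1 [(7,1),(12,1),(10,1)]) (.cons (.leaf 1 [(12,1),(10,1)]) (.cons (.leaf 1 [(12,1),(1,1),(7,3)]) (.cons (.leaf 1 [(12,1),(10,1),(7,1)]) (.cons (.leaf 1 []) (.cons (.leaf 1 [(6,1)]) (.cons (.leaf 1 [(6,1)]) (.cons (.leaf 1 [(6,1)]) (.cons (.leaf 1 [(12,1),(8,1)]) (.cons (.leaf 1 [(8,2),(1,1),(12,1)]) (.cons (.leaf 1 [(12,1),(1,1)]) (.cons (.leaf 1 [(1,1),(12,1),(8,2)]) (.cons (.leaf 1 [(12,1),(10,1),(9,1)]) (.cons (.leaf 1 [(9,1),(12,1),(10,1)]) (.cons (.leaf 1 [(1,1),(9,3),(12,1)])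 (.cons (.leaf 1 [(12,1),(10,1)]) .nil)))))))))))))))))))))) (.cons (.leaf 1 [(7,1)]) (.cons (.keep [0,2,10,11,13] (.node (.cons (.leaf 1 [(13,1)]) (.cons (.leaf 1 [(6,1),(13,1)]) (.cons (.leaf 1 [(13,1),(6,1)]) (.cons (.leaf 1 [(13,1),(6,1)]) (.cons (.leaf 1 [(7,1),(13,1)]) (.cons (.leaf 1 [(13,1)]) (.cons (.leaf 1 [(13,1),(7,1)]) (.cons (.leaf 1 [(13,1),(7,1)]) (.cons (.leaf 1 []) (.cons (.leaf 1 [(6,1)]) (.cons (.leaf 1 [(6,1)]) (.cons (.leaf 1 [(6,1)]) (.cons (.leaf 1 [(13,1),(8,1)]) (.cons (.leaf 1 [(8,1),(13,1)]) (.cons (.leaf 1 [(13,1)]) (.cons (.leaf 1 [(13,1),(8,1)]) (.cons (.leaf 1 [(13,1),(9,1)]) (.cons (.leaf 1 [(9,1),(13,1)]) (.cons (.leaf 1 [(13,1),(9,1)]) (.cons (.leaf 1 [(13,1)]) .nil)))))))))))))))))))))) .nil)))))))))))))))))))))) (.cons (.leaf 1 [(8,1)]) (.cons (.leaf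 1 [(8,1)]) (.cons (.leaf 1 []) (.cons (.leaf 1 [(8,1)]) (.cons (.leaf 1 [(9,1)]) (.cons (.leaf 1 [(9,1)]) (.cons (.leaf 1 [(9,1)]) (.cons (.leaf 1 []) .nil))))))))))))))))))))))

theorem e_31_27 : ESB (caseOf 4 31 27) := esb_of_ok (t := t_31_27) (by decide +kernel)

def ks : List (ℕ × ℕ) := [(30, 28), (30, 29), (30, 30), (30, 31), (31, 25), (31, 26), (31, 27)]

theorem ks_ok : ∀ p ∈ ks, ESB (caseOf 4 p.1 p.2) := ks_cons e_30_28 <| ks_cons e_30_29 <| ks_cons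
  e_30_30 <| ks_cons e_30_31 <| ks_cons e_31_25 <| ks_cons e_31_26 <| ks_cons e_31_27 <| ks_nil

end Pool.Agent.H4.RD4.E24
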