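import Pool.Agent.H4.RD4.Chk

/-! # Certificates for special cases of order four -/

set_option maxRecDepth 20000

namespace Pool.Agent.H4.RD4.E25

open Pool.Agent.H50.Rdb
open Pool.Agent.H81.RDE (ESB caseOf)

def z_31_28_0 : F := ⟨1, -1, 0, 0, 1⟩

def h_31_28_0 : List F := [⟨1, 0, 0, 0, 0⟩, ⟨0, 1, -1, 0, 0⟩, ⟨0, 1, 0, -1, 0⟩, ⟨0, -1, 0, 0, 1⟩]

def t_31_28_0 : T := (.node (.cons (.keep [2,7,8,10] (.node (.cons (.leaf 1 [(10,1)]) (.cons (.leaf 1 [(11,1)]) (.cons (.keep [5,9,10,11,12] (.node (.cons (.leaf 1 [(3,1),(4,1)]) (.cons (.leaf 1 [(4,2)]) (.cons (.leaf 1 [(4,1),(5,1)]) (.cons (.leaf 1 [(3,1),(9,1)]) (.cons (.leaf 1 [(4,1),(9,1)]) (.cons (.leaf 1 [(5,1),(9,1)]) (.cons (.leaf 1 [(9,1)]) (.cons (.leaf 1 [(4,1),(9,1)]) (.cons (.leaf 1 [(5,1),(9,1)]) (.cons (.leaf 1 [(9,1),(3,1)])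 (.cons (.leaf 1 [(9,1)]) (.cons (.leaf 1 [(5,1),(9,1)]) (.cons (.leaf 1 [(9,1),(3,1)]) (.cons (.leaf 1 [(9,1),(4,1)]) (.cons (.leaf 1 [(9,1)]) .nil))))))))))))))))) (.cons (.leaf 1 [(1,1),(3,1)]) (.cons (.leaf 1 [(1,1),(4,1)]) (.cons (.leaf 1 [(1,1),(5,1)]) (.cons (.leaf 1 [(10,1),(1,1)]) (.cons (.leaf 1 [(1,1),(4,1),(10,1)]) (.cons (.leaf 1 [(1,1),(5,1),(10,1)]) (.cons (.leaf 1 [(10,1),(1,1)]) (.cons (.leaf 1 [(11,1),(1,1)]) (.cons (.leaf 1 [(1,1),(5,1),(11,1)]) (.cons (.leaf 1 [(10,1),(1,1)]) (.cons (.leaf 1 [(11,1),(1,1)]) (.cons (.keep [0,1,10,11] (.node (.cons (.leaf 1 [(3,1)]) (.cons (.leaf 1 [(4,1)]) (.cons (.leaf 1 [(5,1)]) (.cons (.leaf 1 [(3,1)]) (.cons (.leaf 1 [(4,1)]) (.cons (.leaf 1 [(5,1)]) (.cons (.leaf 1 []) (.cons (.leaf 1 [(4,1)]) (.cons (.leaf 1 [(5,1)]) (.cons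 (.leaf 1 [(3,1)]) (.cons (.leaf 1 []) (.cons (.leaf 1 [(5,1)]) (.cons (.leaf 1 [(3,1)]) (.cons (.leaf 1 [(4,1)]) (.cons (.leaf 1 []) .nil))))))))))))))))) .nil))))))))))))))))) (.cons (.keep [2,6,8,11] (.node (.cons (.leaf 1 []) (.cons (.leaf 1 [(11,1)]) (.cons (.keep [5,9,10,11,12] (.node (.cons (.leaf 1 [(3,1),(11,1),(4,1)]) (.cons (.leaf 1 [(11,1),(4,2)]) (.cons (.leaf 1 [(5,1),(4,1),(11,1)]) (.cons (.leaf 1 [(4,1)]) (.cons (.leaf 1 [(4,1)]) (.cons (.leaf 1 [(4,1)]) (.cons (.leaf 1 [(11,1),(9,1)]) (.cons (.leaf 1 [(11,1),(4,1),(9,1)]) (.cons (.leaf 1 [(5,1),(9,1),(11,1)]) (.cons (.leaf 1 [(3,1),(11,1),(9,1)]) (.cons (.leaf 1 [(11,1),(9,1)]) (.cons (.leaf 1 [(5,1),(9,1),(11,1)]) (.cons (.leaf 1 [(3,1),(11,1),(9,1)]) (.cons (.leaf 1 [(11,1),(9,1),(4,1)]) (.cons (.leaf 1 [(11,1),(9,1)])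 .nil))))))))))))))))) (.cons (.leaf 1 [(1,1)]) (.cons (.leaf 1 [(4,1),(1,1),(10,1)]) (.cons (.leaf 1 [(5,1),(1,1),(10,1)]) (.cons (.leaf 1 [(1,1)]) (.cons (.leaf 1 [(1,1),(4,1)]) (.cons (.leaf 1 [(1,1),(5,1)]) (.cons (.leaf 1 [(1,1)]) (.cons (.leaf 1 [(11,1),(1,1)]) (.cons (.leaf 1 [(1,1),(5,1),(11,1)]) (.cons (.leaf 1 [(1,1)]) (.cons (.leaf 1 [(11,1),(1,1)]) (.cons (.keep [0,1,10,11] (.node (.cons (.leaf 1 [(3,1),(11,1)]) (.cons (.leaf 1 [(4,1),(11,1)]) (.cons (.leaf 1 [(5,1),(11,1)]) (.cons (.leaf 1 [(1,1)]) (.cons (.leaf 1 [(1,1)]) (.cons (.leaf 1 [(1,1)]) (.cons (.leaf 1 [(11,1)]) (.cons (.leaf 1 [(4,1),(11,1)]) (.cons (.leaf 1 [(5,1),(11,1)]) (.cons (.leaf 1 [(3,1),(11,1)]) (.cons (.leaf 1 [(11,1)]) (.cons (.leaf 1 [(5,1),(11,1)]) (.cons (.leaf 1 [(3,1),(11,1)]) (.cons (.leaf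 1 [(4,1),(11,1)]) (.cons (.leaf 1 [(11,1)]) .nil))))))))))))))))) .nil))))))))))))))))) (.cons (.keep [2,5,6,7,10,11] (.node (.cons (.leaf 1 [(12,1)]) (.cons (.leaf 1 []) (.cons (.keep [5,7,9,11,12] (.node (.cons (.leaf 1 [(7,1)]) (.cons (.leaf 1 [(12,1),(4,2)]) (.cons (.leaf 1 [(5,1),(4,1),(12,1)]) (.cons (.leaf 1 [(7,1)]) (.cons (.leaf 1 [(4,1),(12,1),(9,1)]) (.cons (.leaf 1 [(5,1),(9,1),(12,1)]) (.cons (.leaf 1 [(4,1)]) (.cons (.leaf 1 [(4,1)]) (.cons (.leaf 1 [(4,1)]) (.cons (.leaf 1 [(7,1)]) (.cons (.leaf 1 [(12,1),(9,1)]) (.cons (.leaf 1 [(5,1),(9,1),(12,1)]) (.cons (.leaf 1 [(7,1)]) (.cons (.leaf 1 [(12,1),(9,1),(4,1)]) (.cons (.leaf 1 [(12,1),(9,1)]) .nil))))))))))))))))) (.cons (.leaf 1 [(3,1),(11,1),(1,1)]) (.cons (.leaf 1 [(1,1)]) (.cons (.leaf 1 [(5,1),(1,1),(11,1)]) (.cons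 (.leaf 1 [(1,1),(12,1)]) (.cons (.leaf 1 [(1,1)]) (.cons (.leaf 1 [(5,1),(1,1),(12,1)]) (.cons (.leaf 1 [(3,1),(1,1)]) (.cons (.leaf 1 [(1,1)]) (.cons (.leaf 1 [(1,1),(5,1)]) (.cons (.leaf 1 [(12,1),(1,1)]) (.cons (.leaf 1 [(1,1)]) (.cons (.keep [0,1,11,12] (.node (.cons (.leaf 1 [(7,1),(10,1)]) (.cons (.leaf 1 [(4,1),(11,1)]) (.cons (.leaf 1 [(5,1),(11,1)]) (.cons (.leaf 1 [(7,1),(10,1)]) (.cons (.leaf 1 [(4,1),(11,1)]) (.cons (.leaf 1 [(5,1),(11,1)]) (.cons (.leaf 1 [(1,1)]) (.cons (.leaf 1 [(1,1)]) (.cons (.leaf 1 [(1,1)]) (.cons (.leaf 1 [(7,1),(1,1)]) (.cons (.leaf 1 [(11,1)]) (.cons (.leaf 1 [(5,1),(11,1)]) (.cons (.leaf 1 [(8,1),(1,1)]) (.cons (.leaf 1 [(4,1),(11,1)]) (.cons (.leaf 1 [(11,1)]) .nil))))))))))))))))) .nil))))))))))))))))) (.cons (.keep [1,3,7,8,12] (.node (.cons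 (.leaf 1 [(11,1),(13,1)]) (.cons (.leaf 1 [(12,1),(13,1)]) (.cons (.keep [2,5,11,12,13] (.node (.cons (.leaf 1 [(3,1)]) (.cons (.leaf 1 [(4,1)]) (.cons (.leaf 1 [(5,1)]) (.cons (.leaf 1 [(3,1)]) (.cons (.leaf 1 [(4,1)]) (.cons (.leaf 1 [(5,1)]) (.cons (.leaf 1 []) (.cons (.leaf 1 [(4,1)]) (.cons (.leaf 1 [(5,1)]) (.cons (.leaf 1 [(3,1)]) (.cons (.leaf 1 []) (.cons (.leaf 1 [(5,1)]) (.cons (.leaf 1 [(3,1)]) (.cons (.leaf 1 [(4,1)]) (.cons (.leaf 1 []) .nil))))))))))))))))) (.cons (.leaf 1 [(1,1)]) (.cons (.leaf 1 [(1,1)]) (.cons (.leaf 1 [(1,1)]) (.cons (.leaf 1 [(11,1),(1,1)]) (.cons (.leaf 1 [(11,1),(1,1)]) (.cons (.leaf 1 [(11,1),(1,1)]) (.cons (.leaf 1 [(11,1),(7,1),(1,1)]) (.cons (.leaf 1 [(12,1),(1,1)]) (.cons (.leaf 1 [(12,1),(1,1)]) (.cons (.leaf 1 [(11,1),(8,1),(1,1)]) (.cons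 (.leaf 1 [(12,1),(8,1),(1,1)]) (.cons (.keep [0,1,11,12] (.node (.cons (.leaf 1 [(3,1)]) (.cons (.leaf 1 [(4,1)]) (.cons (.leaf 1 [(5,1)]) (.cons (.leaf 1 [(3,1)]) (.cons (.leaf 1 [(4,1)]) (.cons (.leaf 1 [(5,1)]) (.cons (.leaf 1 []) (.cons (.leaf 1 [(4,1)]) (.cons (.leaf 1 [(5,1)]) (.cons (.leaf 1 [(3,1)]) (.cons (.leaf 1 []) (.cons (.leaf 1 [(5,1)]) (.cons (.leaf 1 [(3,1)]) (.cons (.leaf 1 [(4,1)]) (.cons (.leaf 1 []) .nil))))))))))))))))) .nil))))))))))))))))) (.cons (.keep [1,4,6,8,12] (.node (.cons (.leaf 1 [(13,1)]) (.cons (.leaf 1 [(12,1),(13,1)]) (.cons (.keep [5,6,11,12,13] (.node (.cons (.leaf 1 [(3,1),(11,1)]) (.cons (.leaf 1 [(4,1),(11,1)]) (.cons (.leaf 1 [(5,1),(11,1)]) (.cons (.leaf 1 [(1,1)]) (.cons (.leaf 1 [(1,1)]) (.cons (.leaf 1 [(1,1)]) (.cons (.leaf 1 [(11,1)])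 (.cons (.leaf 1 [(4,1),(11,1)]) (.cons (.leaf 1 [(5,1),(11,1)]) (.cons (.leaf 1 [(3,1),(11,1)]) (.cons (.leaf 1 [(11,1)]) (.cons (.leaf 1 [(5,1),(11,1)]) (.cons (.leaf 1 [(3,1),(11,1)]) (.cons (.leaf 1 [(4,1),(11,1)]) (.cons (.leaf 1 [(11,1)]) .nil))))))))))))))))) (.cons (.leaf 1 [(1,1),(11,1)]) (.cons (.leaf 1 [(1,1),(11,1)]) (.cons (.leaf 1 [(1,1),(11,1)]) (.cons (.leaf 1 [(1,1)]) (.cons (.leaf 1 [(1,1)]) (.cons (.leaf 1 [(1,1)]) (.cons (.leaf 1 [(7,1),(1,1)]) (.cons (.leaf 1 [(12,1),(1,1)]) (.cons (.leaf 1 [(12,1),(1,1)]) (.cons (.leaf 1 [(8,1),(1,1)]) (.cons (.leaf 1 [(12,1),(8,1),(1,1)]) (.cons (.keep [0,1,11,12] (.node (.cons (.leaf 1 [(3,1),(11,1)]) (.cons (.leaf 1 [(4,1),(11,1)]) (.cons (.leaf 1 [(5,1),(11,1)]) (.cons (.leaf 1 [(1,1)]) (.cons (.leaf 1 [(1,1)]) (.cons (.leaf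 1 [(1,1)]) (.cons (.leaf 1 [(11,1)]) (.cons (.leaf 1 [(4,1),(11,1)]) (.cons (.leaf 1 [(5,1),(11,1)]) (.cons (.leaf 1 [(3,1),(11,1)]) (.cons (.leaf 1 [(11,1)]) (.cons (.leaf 1 [(5,1),(11,1)]) (.cons (.leaf 1 [(3,1),(11,1)]) (.cons (.leaf 1 [(4,1),(11,1)]) (.cons (.leaf 1 [(11,1)]) .nil))))))))))))))))) .nil))))))))))))))))) (.cons (.keep [1,5,6,7,12] (.node (.cons (.leaf 1 [(13,1),(12,1)]) (.cons (.leaf 1 [(13,1)]) (.cons (.keep [5,7,11,12,13] (.node (.cons (.leaf 2 [(11,1)]) (.cons (.leaf 1 [(4,1),(11,1)]) (.cons (.leaf 1 [(5,1),(11,1)]) (.cons (.leaf 2 [(1,1),(11,1)]) (.cons (.leaf 1 [(4,1),(11,1)]) (.cons (.leaf 1 [(5,1),(11,1)]) (.cons (.leaf 1 [(1,1)]) (.cons (.leaf 1 [(1,1)]) (.cons (.leaf 1 [(1,1)]) (.cons (.leaf 1 [(7,1),(1,1)]) (.cons (.leaf 1 [(11,1)]) (.cons (.leaf 1 [(5,1),(11,1)])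 (.cons (.leaf 1 [(8,1),(1,1)]) (.cons (.leaf 1 [(4,1),(11,1)]) (.cons (.leaf 1 [(11,1)]) .nil))))))))))))))))) (.cons (.leaf 1 [(1,1),(11,1)]) (.cons (.leaf 1 [(1,1),(11,1)]) (.cons (.leaf 1 [(1,1),(11,1)]) (.cons (.leaf 1 [(1,1),(12,1)]) (.cons (.leaf 1 [(1,1),(6,1)]) (.cons (.leaf 1 [(1,1),(12,1)]) (.cons (.leaf 1 [(1,1)]) (.cons (.leaf 1 [(1,1)]) (.cons (.leaf 1 [(1,1)]) (.cons (.leaf 1 [(8,1),(12,1),(1,1)]) (.cons (.leaf 1 [(8,1),(1,1)]) (.cons (.keep [0,1,11,12] (.node (.cons (.leaf 1 [(7,1),(10,1)]) (.cons (.leaf 1 [(4,1),(11,1)]) (.cons (.leaf 1 [(5,1),(11,1)]) (.cons (.leaf 1 [(7,1),(10,1)]) (.cons (.leaf 1 [(4,1),(11,1)]) (.cons (.leaf 1 [(5,1),(11,1)]) (.cons (.leaf 1 [(1,1)]) (.cons (.leaf 1 [(1,1)]) (.cons (.leaf 1 [(1,1)]) (.cons (.leaf 1 [(7,1),(1,1)]) (.cons (.leaf 1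 [(11,1)]) (.cons (.leaf 1 [(5,1),(11,1)]) (.cons (.leaf 1 [(8,1),(1,1)]) (.cons (.leaf 1 [(4,1),(11,1)]) (.cons (.leaf 1 [(11,1)]) .nil))))))))))))))))) .nil))))))))))))))))) (.cons (.leaf 1 [(10,1),(1,1)]) (.cons (.leaf 1 [(10,1),(6,1),(1,1)]) (.cons (.leaf 1 [(10,1),(6,1),(1,1)]) (.cons (.leaf 1 [(1,1),(7,2),(10,1)]) (.cons (.leaf 1 [(11,1),(1,1)]) (.cons (.leaf 1 [(11,1),(7,1),(1,1)]) (.cons (.leaf 1 [(1,1),(8,2),(10,1)]) (.cons (.leaf 1 [(1,1),(8,2),(11,1)]) (.cons (.keep [0,1,10,11] (.node (.cons (.leaf 1 [(3,1)]) (.cons (.leaf 1 [(4,1)]) (.cons (.leaf 1 [(5,1)]) (.cons (.leaf 1 [(3,1)]) (.cons (.leaf 1 [(4,1)]) (.cons (.leaf 1 [(5,1)]) (.cons (.leaf 1 []) (.cons (.leaf 1 [(4,1)]) (.cons (.leaf 1 [(5,1)]) (.cons (.leaf 1 [(3,1)]) (.cons (.leaf 1 []) (.cons (.leaf 1 [(5,1)]) (.cons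 (.leaf 1 [(3,1)]) (.cons (.leaf 1 [(4,1)]) (.cons (.leaf 1 []) .nil))))))))))))))))) .nil))))))))))))))))

theorem c_31_28_0 : Concl 31 28 z_31_28_0 h_31_28_0 .nd := piece _ hP_nil t_31_28_0 _ _ (by
  decide +kernel)

def t_31_28 : T := (.keep [0,1,2] (.node (.cons (.keep [2,3,7,8] (.node (.cons (.leaf 1 [(11,1),(9,1)]) (.cons (.leaf 1 [(12,1),(9,1)]) (.cons (.keep [2,5,9,11,12] (.node (.cons (.leaf 1 [(3,1)]) (.cons (.leaf 1 [(4,1)]) (.cons (.leaf 1 [(5,1)]) (.cons (.leaf 1 [(3,1)]) (.cons (.leaf 1 [(4,1)]) (.cons (.leaf 1 [(5,1)]) (.cons (.leaf 1 []) (.cons (.leaf 1 [(4,1)]) (.cons (.leaf 1 [(5,1)]) (.cons (.leaf 1 [(3,1)]) (.cons (.leaf 1 []) (.cons (.leaf 1 [(5,1)]) (.cons (.leaf 1 [(3,1)]) (.cons (.leaf 1 [(4,1)]) (.cons (.leaf 1 []) .nil))))))))))))))))) (.cons (.leaf 1 [(1,1)])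 (.cons (.leaf 1 [(1,1)]) (.cons (.leaf 1 [(1,1)]) (.cons (.leaf 1 [(11,1),(1,1)]) (.cons (.leaf 1 [(11,1),(1,1)]) (.cons (.leaf 1 [(11,1),(1,1)]) (.cons (.leaf 1 [(11,1),(7,1),(1,1)]) (.cons (.leaf 1 [(12,1),(1,1)]) (.cons (.leaf 1 [(12,1),(1,1)]) (.cons (.leaf 1 [(11,1),(8,1),(1,1)]) (.cons (.leaf 1 [(12,1),(8,1),(1,1)]) (.cons (.keep [0,1,11,12] (.node (.cons (.leaf 1 [(3,1)]) (.cons (.leaf 1 [(4,1)]) (.cons (.leaf 1 [(5,1)]) (.cons (.leaf 1 [(3,1)]) (.cons (.leaf 1 [(4,1)]) (.cons (.leaf 1 [(5,1)]) (.cons (.leaf 1 []) (.cons (.leaf 1 [(4,1)]) (.cons (.leaf 1 [(5,1)]) (.cons (.leaf 1 [(3,1)]) (.cons (.leaf 1 []) (.cons (.leaf 1 [(5,1)]) (.cons (.leaf 1 [(3,1)]) (.cons (.leaf 1 [(4,1)]) (.cons (.leaf 1 []) .nil))))))))))))))))) .nil))))))))))))))))) (.cons (.keep [2,4,6,8] (.node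 (.cons (.leaf 1 [(9,1)]) (.cons (.leaf 1 [(12,1),(9,1)]) (.cons (.keep [5,6,9,11,12] (.node (.cons (.leaf 1 [(3,1),(12,1)]) (.cons (.leaf 1 [(4,1),(12,1)]) (.cons (.leaf 1 [(5,1),(12,1)]) (.cons (.leaf 1 [(1,1)]) (.cons (.leaf 1 [(1,1)]) (.cons (.leaf 1 [(1,1)]) (.cons (.leaf 1 [(12,1)]) (.cons (.leaf 1 [(4,1),(12,1)]) (.cons (.leaf 1 [(5,1),(12,1)]) (.cons (.leaf 1 [(3,1),(12,1)]) (.cons (.leaf 1 [(12,1)]) (.cons (.leaf 1 [(5,1),(12,1)]) (.cons (.leaf 1 [(3,1),(12,1)]) (.cons (.leaf 1 [(4,1),(12,1)]) (.cons (.leaf 1 [(12,1)]) .nil))))))))))))))))) (.cons (.leaf 1 [(1,1),(9,1)]) (.cons (.leaf 1 [(1,1),(11,1)]) (.cons (.leaf 1 [(1,1),(11,1)]) (.cons (.leaf 1 [(1,1)]) (.cons (.leaf 1 [(1,1)]) (.cons (.leaf 1 [(1,1)]) (.cons (.leaf 1 [(7,1),(1,1)]) (.cons (.leaf 1 [(12,1),(1,1)]) (.cons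 (.leaf 1 [(12,1),(1,1)]) (.cons (.leaf 1 [(8,1),(1,1)]) (.cons (.leaf 1 [(12,1),(8,1),(1,1)]) (.cons (.keep [0,1,11,12] (.node (.cons (.leaf 1 [(3,1),(11,1)]) (.cons (.leaf 1 [(4,1),(11,1)]) (.cons (.leaf 1 [(5,1),(11,1)]) (.cons (.leaf 1 [(1,1)]) (.cons (.leaf 1 [(1,1)]) (.cons (.leaf 1 [(1,1)]) (.cons (.leaf 1 [(11,1)]) (.cons (.leaf 1 [(4,1),(11,1)]) (.cons (.leaf 1 [(5,1),(11,1)]) (.cons (.leaf 1 [(3,1),(11,1)]) (.cons (.leaf 1 [(11,1)]) (.cons (.leaf 1 [(5,1),(11,1)]) (.cons (.leaf 1 [(3,1),(11,1)]) (.cons (.leaf 1 [(4,1),(11,1)]) (.cons (.leaf 1 [(11,1)]) .nil))))))))))))))))) .nil))))))))))))))))) (.cons (.keep [0,2,6,7] (.node (.cons (.leaf 1 [(10,1),(12,1)]) (.cons (.leaf 1 [(10,1)]) (.cons (.keep [5,7,10,11,12] (.node (.cons (.leaf 1 [(7,1),(11,1)]) (.cons (.leaf 1 [(4,1),(12,1)])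 (.cons (.leaf 1 [(5,1),(12,1)]) (.cons (.leaf 1 [(7,1),(11,1)]) (.cons (.leaf 1 [(4,1),(12,1)]) (.cons (.leaf 1 [(5,1),(12,1)]) (.cons (.leaf 1 [(1,1)]) (.cons (.leaf 1 [(1,1)]) (.cons (.leaf 1 [(1,1)]) (.cons (.leaf 1 [(7,1),(1,1)]) (.cons (.leaf 1 [(12,1)]) (.cons (.leaf 1 [(5,1),(12,1)]) (.cons (.leaf 1 [(8,1),(1,1)]) (.cons (.leaf 1 [(4,1),(12,1)]) (.cons (.leaf 1 [(12,1)]) .nil))))))))))))))))) (.cons (.leaf 1 [(1,1),(11,1)]) (.cons (.leaf 1 [(1,1),(10,1)]) (.cons (.leaf 1 [(1,1),(11,1)]) (.cons (.leaf 1 [(1,1),(12,1)]) (.cons (.leaf 1 [(1,1),(6,1)]) (.cons (.leaf 1 [(1,1),(12,1)]) (.cons (.leaf 1 [(1,1)]) (.cons (.leaf 1 [(1,1)]) (.cons (.leaf 1 [(1,1)]) (.cons (.leaf 1 [(8,1),(12,1),(1,1)]) (.cons (.leaf 1 [(8,1),(1,1)]) (.cons (.keep [0,1,11,12] (.node (.cons (.leaf 1 [(7,1),(10,1)])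 (.cons (.leaf 1 [(4,1),(11,1)]) (.cons (.leaf 1 [(5,1),(11,1)]) (.cons (.leaf 1 [(7,1),(10,1)]) (.cons (.leaf 1 [(4,1),(11,1)]) (.cons (.leaf 1 [(5,1),(11,1)]) (.cons (.leaf 1 [(1,1)]) (.cons (.leaf 1 [(1,1)]) (.cons (.leaf 1 [(1,1)]) (.cons (.leaf 1 [(7,1),(1,1)]) (.cons (.leaf 1 [(11,1)]) (.cons (.leaf 1 [(5,1),(11,1)]) (.cons (.leaf 1 [(8,1),(1,1)]) (.cons (.leaf 1 [(4,1),(11,1)]) (.cons (.leaf 1 [(11,1)]) .nil))))))))))))))))) .nil))))))))))))))))) (.cons (.keep [1,7,8,9] (.leaf 0 [(0,0)])) (.cons (.keep [1,6,8,9] (.node (.cons (.keep [3,7,8,10] (.node (.cons (.leaf 1 [(3,2),(12,2)]) (.cons (.leaf 1 [(4,2),(12,2)]) (.cons (.leaf 1 [(5,2),(12,2)]) (.cons (.leaf 1 [(1,2)]) (.cons (.leaf 1 [(1,2)]) (.cons (.leaf 1 [(1,2)]) (.cons (.leaf 1 [(10,2),(1,2)]) (.cons (.leaf 1 [(10,2),(1,2)])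 (.cons (.leaf 1 [(10,2),(1,2)]) (.cons (.leaf 1 [(10,2),(7,2),(1,2)]) (.cons (.leaf 1 [(11,2),(1,2)]) (.cons (.leaf 1 [(11,2),(1,2)]) (.cons (.leaf 1 [(10,2),(8,2),(1,2)]) (.cons (.leaf 1 [(11,2),(8,2),(1,2)]) (.cons (.leaf 1 [(12,2)]) .nil))))))))))))))))) (.cons (.keep [4,6,8,10,11] (.node (.cons (.leaf 1 [(12,1)]) (.cons (.leaf 1 [(4,2),(10,1),(12,2)]) (.cons (.leaf 1 [(5,2),(10,1),(12,2)]) (.cons (.leaf 1 [(1,2),(10,1)]) (.cons (.leaf 1 [(1,2),(10,1)]) (.cons (.leaf 1 [(1,2),(10,1)]) (.cons (.leaf 1 [(12,1),(1,1)]) (.cons (.leaf 1 [(4,1),(1,1),(12,1)]) (.cons (.leaf 1 [(5,1),(1,1),(12,1)]) (.cons (.leaf 1 [(12,1),(1,1)]) (.cons (.leaf 1 [(12,1),(11,1),(1,1)]) (.cons (.leaf 1 [(5,1),(11,1),(1,1),(12,1)]) (.cons (.leaf 1 [(12,1),(1,1)]) (.cons (.leaf 1 [(11,1),(12,1),(1,1)]) (.cons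 (.leaf 1 [(12,2),(10,1)]) .nil))))))))))))))))) (.cons (.keep [5,6,10,11] (.node (.cons (.leaf 1 [(3,2),(11,2),(10,1)]) (.cons (.leaf 1 [(11,1)]) (.cons (.leaf 1 [(5,2),(10,1),(11,2)]) (.cons (.leaf 1 [(1,2),(10,1)]) (.cons (.leaf 1 [(1,2),(10,1)]) (.cons (.leaf 1 [(1,2),(10,1)]) (.cons (.leaf 1 [(11,2),(10,1)]) (.cons (.leaf 1 [(1,1),(11,1)]) (.cons (.leaf 1 [(5,2),(10,1),(11,2)]) (.cons (.leaf 1 [(3,1),(11,1),(1,1)]) (.cons (.leaf 1 [(11,1),(1,1)]) (.cons (.leaf 1 [(5,1),(1,1),(11,1)]) (.cons (.leaf 1 [(3,2),(11,2),(10,1)]) (.cons (.leaf 1 [(11,1),(1,1)]) (.cons (.leaf 1 [(11,2),(10,1)]) .nil))))))))))))))))) (.cons (.leaf 1 [(10,2),(1,1)]) (.cons (.leaf 1 [(10,2),(1,1),(6,1)]) (.cons (.leaf 1 [(10,2),(1,1),(6,1)]) (.cons (.leaf 1 [(1,1)]) (.cons (.leaf 1 [(1,1),(6,1)]) (.cons (.leaf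 1 [(1,1),(6,1)]) (.cons (.leaf 1 [(1,1),(7,2)]) (.cons (.leaf 1 [(11,1),(1,1)]) (.cons (.leaf 1 [(11,1),(7,1),(1,1)]) (.cons (.leaf 1 [(1,1),(8,2)]) (.cons (.leaf 1 [(1,1),(8,2),(11,1)]) (.cons (.keep [0,1,10,11] (.node (.cons (.leaf 1 [(3,1),(11,1)]) (.cons (.leaf 1 [(4,1),(11,1)]) (.cons (.leaf 1 [(5,1),(11,1)]) (.cons (.leaf 1 [(1,1)]) (.cons (.leaf 1 [(1,1)]) (.cons (.leaf 1 [(1,1)]) (.cons (.leaf 1 [(11,1)]) (.cons (.leaf 1 [(4,1),(11,1)]) (.cons (.leaf 1 [(5,1),(11,1)]) (.cons (.leaf 1 [(3,1),(11,1)]) (.cons (.leaf 1 [(11,1)]) (.cons (.leaf 1 [(5,1),(11,1)]) (.cons (.leaf 1 [(3,1),(11,1)]) (.cons (.leaf 1 [(4,1),(11,1)]) (.cons (.leaf 1 [(11,1)]) .nil))))))))))))))))) .nil))))))))))))))))) (.cons (.keep [1,6,7,9] (.node (.cons (.keep [4,7,8,10,11] (.node (.cons (.leaf 1 [(10,1),(12,1)])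 (.cons (.leaf 1 [(10,1),(4,2),(12,2)]) (.cons (.leaf 1 [(10,1),(5,2),(12,2)]) (.cons (.leaf 2 [(1,3),(12,1)]) (.cons (.leaf 1 [(1,1),(4,1),(12,1)]) (.cons (.leaf 1 [(1,1),(5,1),(12,1)]) (.cons (.leaf 1 [(10,1),(1,2)]) (.cons (.leaf 1 [(10,1),(1,2)]) (.cons (.leaf 1 [(10,1),(1,2)]) (.cons (.leaf 1 [(10,1),(7,2),(1,2)]) (.cons (.leaf 1 [(11,1),(12,1),(1,1)]) (.cons (.leaf 1 [(11,1),(5,1),(1,1),(12,1)]) (.cons (.leaf 1 [(10,1),(8,2),(1,2)]) (.cons (.leaf 1 [(11,1),(12,1),(1,1)]) (.cons (.leaf 1 [(10,1),(12,2)]) .nil))))))))))))))))) (.cons (.keep [4,6,8,10] (.node (.cons (.leaf 1 [(12,1)]) (.cons (.leaf 1 [(4,2),(12,2)]) (.cons (.leaf 1 [(5,2),(12,2)]) (.cons (.leaf 1 [(1,2),(10,2)]) (.cons (.leaf 1 [(1,2),(10,2)]) (.cons (.leaf 1 [(1,2),(10,2)]) (.cons (.leaf 1 [(1,2)]) (.cons (.leaf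 1 [(1,2)]) (.cons (.leaf 1 [(1,2)]) (.cons (.leaf 1 [(7,2),(1,2)]) (.cons (.leaf 1 [(11,2),(1,2)]) (.cons (.leaf 1 [(11,2),(1,2)]) (.cons (.leaf 1 [(8,2),(1,2)]) (.cons (.leaf 1 [(11,2),(8,2),(1,2)]) (.cons (.leaf 1 [(12,2)]) .nil))))))))))))))))) (.cons (.keep [5,7,10,11] (.node (.cons (.leaf 1 [(11,1),(10,1)]) (.cons (.leaf 1 [(11,1)]) (.cons (.leaf 1 [(5,2),(10,1),(11,2)]) (.cons (.leaf 1 [(1,1),(11,1),(10,1)]) (.cons (.leaf 1 [(1,1),(11,1)]) (.cons (.leaf 1 [(5,2),(10,1),(11,2)]) (.cons (.leaf 1 [(1,2),(10,1)]) (.cons (.leaf 1 [(1,2),(6,1)]) (.cons (.leaf 1 [(1,2),(10,1)]) (.cons (.leaf 1 [(7,1),(1,2)]) (.cons (.leaf 1 [(11,1),(1,1)]) (.cons (.leaf 1 [(5,1),(1,1),(11,1)]) (.cons (.leaf 1 [(8,2),(10,1),(1,2)]) (.cons (.leaf 1 [(11,1),(1,1)]) (.cons (.leaf 1 [(11,2),(10,1)]) .nil)))))))))))))))))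 (.cons (.leaf 1 [(10,2),(7,1),(1,1)]) (.cons (.leaf 1 [(10,2),(1,1)]) (.cons (.leaf 1 [(10,2),(1,1),(7,1)]) (.cons (.leaf 1 [(1,1),(11,1)]) (.cons (.leaf 1 [(6,2),(1,1)]) (.cons (.leaf 1 [(6,1),(11,1),(1,1)]) (.cons (.leaf 1 [(7,1),(1,1)]) (.cons (.leaf 1 [(1,1)]) (.cons (.leaf 1 [(1,1),(7,1)]) (.cons (.leaf 1 [(8,2),(1,1),(11,1)]) (.cons (.leaf 1 [(1,1),(8,2)]) (.cons (.keep [0,1,10,11] (.node (.cons (.leaf 1 [(7,1),(10,1)]) (.cons (.leaf 1 [(4,1),(11,1)]) (.cons (.leaf 1 [(5,1),(11,1)]) (.cons (.leaf 1 [(7,1),(10,1)]) (.cons (.leaf 1 [(4,1),(11,1)]) (.cons (.leaf 1 [(5,1),(11,1)]) (.cons (.leaf 1 [(1,1)]) (.cons (.leaf 1 [(1,1)]) (.cons (.leaf 1 [(1,1)]) (.cons (.leaf 1 [(7,1),(1,1)]) (.cons (.leaf 1 [(11,1)]) (.cons (.leaf 1 [(5,1),(11,1)]) (.cons (.leaf 1 [(8,1),(1,1)]) (.cons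 (.leaf 1 [(4,1),(11,1)]) (.cons (.leaf 1 [(11,1)]) .nil))))))))))))))))) .nil))))))))))))))))) (.cons (.leaf 1 []) (.cons (.leaf 1 [(6,1)]) (.cons (.leaf 1 [(6,1)]) (.cons (.leaf 1 [(7,1)]) (.cons (.leaf 1 []) (.cons (.leaf 1 [(7,1)]) (.cons (.leaf 1 [(8,1)]) (.cons (.leaf 1 [(8,1)]) (.cons (.leaf 1 []) .nil)))))))))))))))))

theorem e_31_28 : ESB (caseOf 4 31 28) := esb_of_pieces _ (hP_cons c_31_28_0 hP_nil) t_31_28 (by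
  decide +kernel)

def t_31_29 : T := (.keep [0,1,2] (.node (.cons (.leaf 1 []) (.cons (.leaf 1 [(6,1)]) (.cons (.leaf 1 [(6,1)]) (.cons (.leaf 1 [(6,1)]) (.cons (.keep [1,7,8,9] (.node (.cons (.leaf 1 []) (.cons (.leaf 1 [(6,1)]) (.cons (.leaf 1 [(6,1)]) (.cons (.leaf 1 [(6,1)]) (.cons (.leaf 1 [(11,1)]) (.cons (.leaf 1 [(11,1),(6,1)]) (.cons (.leaf 1 [(11,1),(6,1)]) (.cons (.leaf 1 [(11,1),(6,1)]) (.cons (.leaf 1 [(7,1)]) (.cons (.leaf 1 []) (.cons (.leaf 1 [(7,1)]) (.cons (.leaf 1 [(7,1)]) (.cons (.leaf 1 [(8,1)]) (.cons (.leaf 1 [(8,1)]) (.cons (.leaf 1 []) (.cons (.leaf 1 [(8,1)]) (.cons (.leaf 1 [(9,1)]) (.cons (.leaf 1 [(9,1)]) (.cons (.leaf 1 [(9,1)]) (.cons (.leaf 1 []) .nil)))))))))))))))))))))) (.cons (.keep [6,8,9,10,11] (.node (.cons (.leaf 1 [(10,1)]) (.cons (.leaf 1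 [(10,1),(6,1)]) (.cons (.leaf 1 [(10,1),(6,1)]) (.cons (.leaf 1 [(10,1),(6,1)]) (.cons (.leaf 1 []) (.cons (.leaf 1 [(6,1)]) (.cons (.leaf 1 [(6,1)]) (.cons (.leaf 1 [(6,1)]) (.cons (.leaf 1 [(10,1),(7,1)]) (.cons (.leaf 1 [(10,1)]) (.cons (.leaf 1 [(10,1),(7,1)]) (.cons (.leaf 1 [(10,1),(7,1)]) (.cons (.leaf 1 [(10,1),(8,1)]) (.cons (.leaf 1 [(10,1),(8,1)]) (.cons (.leaf 1 [(10,1)]) (.cons (.leaf 1 [(10,1),(8,1)]) (.cons (.leaf 1 [(10,1),(9,1)]) (.cons (.leaf 1 [(10,1),(9,1)]) (.cons (.leaf 1 [(10,1),(9,1)]) (.cons (.leaf 1 [(10,1)]) .nil)))))))))))))))))))))) (.cons (.keep [6,7,9,10,12] (.node (.cons (.leaf 1 [(10,1)]) (.cons (.leaf 1 [(6,2)]) (.cons (.leaf 1 [(10,1),(6,1)]) (.cons (.leaf 1 [(10,1),(6,1)]) (.cons (.leaf 1 [(11,1)]) (.cons (.leaf 1 [(11,1),(6,1)]) (.cons (.leaf 1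 [(11,1),(6,1)]) (.cons (.leaf 1 [(11,1),(6,1)]) (.cons (.leaf 1 []) (.cons (.leaf 1 [(1,1)]) (.cons (.leaf 1 [(6,1)]) (.cons (.leaf 1 [(6,1)]) (.cons (.leaf 1 [(10,1),(8,1)]) (.cons (.leaf 1 [(6,1),(8,1)]) (.cons (.leaf 1 [(10,1)]) (.cons (.leaf 1 [(10,1),(8,1)]) (.cons (.leaf 1 [(10,1),(9,1)]) (.cons (.leaf 1 [(6,1),(9,1)]) (.cons (.leaf 1 [(10,1),(9,1)]) (.cons (.leaf 1 [(10,1)]) .nil)))))))))))))))))))))) (.cons (.keep [5,6,7,8,10] (.node (.cons (.leaf 1 [(11,1)]) (.cons (.leaf 1 [(6,1),(11,1)]) (.cons (.leaf 1 [(6,2)]) (.cons (.leaf 1 [(11,1),(6,1)]) (.cons (.leaf 1 [(12,1)]) (.cons (.leaf 1 [(6,1),(12,1)]) (.cons (.leaf 1 [(12,1),(6,1)]) (.cons (.leaf 1 [(12,1),(6,1)]) (.cons (.leaf 1 [(7,1),(11,1)]) (.cons (.leaf 1 [(11,1)]) (.cons (.leaf 1 [(7,1),(6,1)]) (.cons (.leaf 1 [(11,1),(7,1)])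 (.cons (.leaf 1 []) (.cons (.leaf 1 [(6,1)]) (.cons (.leaf 1 [(1,1)]) (.cons (.leaf 1 [(6,1)]) (.cons (.leaf 1 [(11,1),(9,1)]) (.cons (.leaf 1 [(9,1),(11,1)]) (.cons (.leaf 1 [(6,1),(9,1)]) (.cons (.leaf 1 [(11,1)]) .nil)))))))))))))))))))))) (.cons (.leaf 1 [(7,1)]) (.cons (.leaf 1 []) (.cons (.leaf 1 [(7,1)]) (.cons (.leaf 1 [(7,1)]) (.cons (.leaf 1 [(8,1)]) (.cons (.leaf 1 [(8,1)]) (.cons (.leaf 1 []) (.cons (.leaf 1 [(8,1)]) (.cons (.leaf 1 [(9,1)]) (.cons (.leaf 1 [(9,1)]) (.cons (.leaf 1 [(9,1)]) (.cons (.leaf 1 []) .nil))))))))))))))))))))))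

theorem e_31_29 : ESB (caseOf 4 31 29) := esb_of_ok (t := t_31_29) (by decide +kernel)

def t_31_30 : T := (.keep [0,1,2] (.node (.cons (.keep [2,7,8,9] (.node (.cons (.leaf 1 [(2,1)]) (.cons (.leaf 1 [(3,1)]) (.cons (.leaf 1 [(4,1)]) (.cons (.leaf 1 [(5,1)]) (.cons (.leaf 1 []) (.cons (.leaf 1 [(3,1)]) (.cons (.leaf 1 [(4,1)]) (.cons (.leaf 1 [(5,1)]) (.cons (.leaf 1 [(2,1)]) (.cons (.leaf 1 []) (.cons (.leaf 1 [(4,1)]) (.cons (.leaf 1 [(5,1)]) (.cons (.leaf 1 [(2,1)]) (.cons (.leaf 1 [(3,1)]) (.cons (.leaf 1 []) (.cons (.leaf 1 [(5,1)]) (.cons (.leaf 1 [(2,1)]) (.cons (.leaf 1 [(3,1)]) (.cons (.leaf 1 [(4,1)]) (.cons (.leaf 1 []) .nil)))))))))))))))))))))) (.cons (.keep [3,6,8,9] (.node (.cons (.leaf 2 [(11,1)]) (.cons (.leaf 1 [(3,1),(11,1)]) (.cons (.leaf 1 [(4,1),(11,1)]) (.cons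 (.leaf 1 [(5,1),(11,1)]) (.cons (.leaf 1 [(1,1)]) (.cons (.leaf 1 [(1,1)]) (.cons (.leaf 1 [(1,1)]) (.cons (.leaf 1 [(1,1)]) (.cons (.leaf 1 [(7,1),(1,1)]) (.cons (.leaf 1 [(11,1)]) (.cons (.leaf 1 [(4,1),(11,1)]) (.cons (.leaf 1 [(5,1),(11,1)]) (.cons (.leaf 1 [(8,1),(1,1)]) (.cons (.leaf 1 [(3,1),(11,1)]) (.cons (.leaf 1 [(11,1)]) (.cons (.leaf 1 [(5,1),(11,1)]) (.cons (.leaf 1 [(9,1),(1,1)]) (.cons (.leaf 1 [(3,1),(11,1)]) (.cons (.leaf 1 [(4,1),(11,1)]) (.cons (.leaf 1 [(11,1)]) .nil)))))))))))))))))))))) (.cons (.keep [4,6,7,9] (.node (.cons (.leaf 1 [(11,1),(2,1)]) (.cons (.leaf 2 [(11,1)]) (.cons (.leaf 1 [(4,1),(11,1)]) (.cons (.leaf 1 [(5,1),(11,1)]) (.cons (.leaf 1 [(11,1)]) (.cons (.leaf 1 [(1,1),(6,1)]) (.cons (.leaf 1 [(4,1),(11,1)]) (.cons (.leaf 1 [(5,1),(11,1)]) (.cons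 (.leaf 1 [(1,1)]) (.cons (.leaf 1 [(1,1)]) (.cons (.leaf 1 [(1,1)]) (.cons (.leaf 1 [(1,1)]) (.cons (.leaf 1 [(11,1),(2,1)]) (.cons (.leaf 1 [(8,1),(1,1)]) (.cons (.leaf 1 [(11,1)]) (.cons (.leaf 1 [(5,1),(11,1)]) (.cons (.leaf 1 [(11,1),(2,1)]) (.cons (.leaf 1 [(9,1),(1,1)]) (.cons (.leaf 1 [(4,1),(11,1)]) (.cons (.leaf 1 [(11,1)]) .nil)))))))))))))))))))))) (.cons (.keep [0,6,7,8] (.node (.cons (.leaf 1 [(11,1),(2,1)]) (.cons (.leaf 1 [(11,1),(3,1)]) (.cons (.leaf 2 [(11,1)]) (.cons (.leaf 1 [(5,1),(11,1)]) (.cons (.leaf 1 [(11,1)]) (.cons (.leaf 1 [(11,1),(3,1)]) (.cons (.leaf 1 [(1,1),(6,1)]) (.cons (.leaf 1 [(5,1),(11,1)]) (.cons (.leaf 1 [(11,1),(2,1)]) (.cons (.leaf 1 [(11,1)]) (.cons (.leaf 1 [(1,1),(7,1)]) (.cons (.leaf 1 [(5,1),(11,1)]) (.cons (.leaf 1 [(1,1)]) (.cons (.leaf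 1 [(1,1)]) (.cons (.leaf 1 [(1,1)]) (.cons (.leaf 1 [(1,1)]) (.cons (.leaf 1 [(11,1),(2,1)]) (.cons (.leaf 1 [(11,1),(3,1)]) (.cons (.leaf 1 [(9,1),(1,1)]) (.cons (.leaf 1 [(11,1)]) .nil)))))))))))))))))))))) (.cons (.leaf 1 []) (.cons (.leaf 1 [(6,1)]) (.cons (.leaf 1 [(6,1)]) (.cons (.leaf 1 [(6,1)]) (.cons (.leaf 1 [(7,1)]) (.cons (.leaf 1 []) (.cons (.leaf 1 [(7,1)]) (.cons (.leaf 1 [(7,1)]) (.cons (.leaf 1 [(8,1)]) (.cons (.leaf 1 [(8,1)]) (.cons (.leaf 1 []) (.cons (.leaf 1 [(8,1)]) (.cons (.leaf 1 [(9,1)]) (.cons (.leaf 1 [(9,1)]) (.cons (.leaf 1 [(9,1)]) (.cons (.leaf 1 []) .nil))))))))))))))))))))))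

theorem e_31_30 : ESB (caseOf 4 31 30) := esb_of_ok (t := t_31_30) (by decide +kernel)

def t_31_31 : T := (.keep [0,1,2] (.node (.cons (.leaf 1 []) (.cons (.leaf 1 [(6,1)]) (.cons (.leaf 1 [(6,1)]) (.cons (.leaf 1 [(6,1)]) (.cons (.leaf 1 [(6,1)]) (.cons (.leaf 1 [(7,1)]) (.cons (.leaf 1 []) (.cons (.leaf 1 [(7,1)]) (.cons (.leaf 1 [(7,1)]) (.cons (.leaf 1 [(7,1)]) (.cons (.leaf 1 [(8,1)]) (.cons (.leaf 1 [(8,1)]) (.cons (.leaf 1 []) (.cons (.leaf 1 [(8,1)]) (.cons (.leaf 1 [(8,1)]) (.cons (.leaf 1 [(9,1)]) (.cons (.leaf 1 [(9,1)]) (.cons (.leaf 1 [(9,1)]) (.cons (.leaf 1 []) (.cons (.leaf 1 [(9,1)]) (.cons (.leaf 1 [(10,1)]) (.cons (.leaf 1 [(10,1)]) (.cons (.leaf 1 [(10,1)]) (.cons (.leaf 1 [(10,1)]) (.cons (.leaf 1 []) .nil)))))))))))))))))))))))))))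

theorem e_31_31 : ESB (caseOf 4 31 31) := esb_of_ok (t := t_31_31) (by decide +kernel)

def ks : List (ℕ × ℕ) := [(31, 28), (31, 29), (31, 30), (31, 31)]

theorem ks_ok : ∀ p ∈ ks, ESB (caseOf 4 p.1 p.2) := ks_cons e_31_28 <| ks_cons e_31_29 <| ks_cons
  e_31_30 <| ks_cons e_31_31 <| ks_nil

end Pool.Agent.H4.RD4.E25
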