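import Pool.Agent.H4.RD4.E26

/-! # Certificates for special cases of order four -/

set_option maxRecDepth 20000

namespace Pool.Agent.H4.RD4.E27

open Pool.Agent.H50.Rdb
open Pool.Agent.H81.RDE (ESB caseOf)

def z_7_20_6 : F := ⟨1, 0, 0, -1, 1⟩

def h_7_20_6 : List F := [⟨1, 0, 0, 0, 0⟩, ⟨0, -1, 0, 1, 0⟩, ⟨0, 0, 0, -1, 1⟩, ⟨1, 0, -1, -1, 1⟩]

def t_7_20_6 : T := (.node (.cons (.keep [3,5,7,8] (.leaf 0 [(0,0)])) (.cons (.keep [4,6,7,8] (.leaf 0 [(1,0)])) (.cons (.keep [1,5,7,8,9] (.node (.cons (.keep [3,5,7,8,10] (.node (.cons (.leaf 1 [(9,1),(3,1)]) (.cons (.keep [0,7,8,9,10] (.node (.cons (.keep [3,5,6,8,10] (.node (.cons (.leaf 1 [(2,2),(3,1)]) (.cons (.leaf 1 [(2,2),(3,1)]) (.cons (.leaf 1 [(6,3),(3,1)]) (.cons (.leaf 1 [(6,3),(3,1)]) (.cons (.leaf 1 [(6,2),(9,1)]) (.cons (.leaf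 1 [(6,4),(0,1),(9,1)]) .nil)))))))) (.cons (.keep [0,6,7,8,9] (.node (.cons (.leaf 1 [(3,1),(10,1)]) (.cons (.leaf 1 [(3,1),(10,1)]) (.cons (.leaf 1 [(3,1),(8,2),(1,1)]) (.cons (.leaf 1 [(3,1),(8,2),(1,1)]) (.cons (.leaf 1 [(9,1),(10,1)]) (.cons (.leaf 1 [(0,1),(10,2),(9,1)]) .nil)))))))) (.cons (.leaf 1 [(3,2),(8,1),(1,1)]) (.cons (.leaf 1 [(1,1),(8,1),(9,1)]) (.cons (.keep [1,5,7,8,10] (.node (.cons (.leaf 1 [(3,1)]) (.cons (.leaf 1 [(3,1)]) (.cons (.leaf 1 [(3,1),(8,1)]) (.cons (.leaf 1 [(3,1),(8,1)]) (.cons (.leaf 1 [(9,1)]) (.cons (.leaf 1 [(0,1),(9,1)]) .nil)))))))) (.cons (.keep [1,4,7,8,10] (.node (.cons (.leaf 1 [(6,2),(3,1),(8,2)]) (.cons (.leaf 1 [(6,2),(3,1),(8,2)]) (.cons (.leaf 1 [(1,1),(3,1),(8,2)]) (.cons (.leaf 1 [(1,1),(3,1),(8,2)]) (.cons (.leaf 1 [(6,2),(9,1),(8,2)])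 (.cons (.leaf 1 [(6,4),(0,1),(8,4),(9,1)]) .nil)))))))) .nil)))))))) (.cons (.leaf 1 [(1,2),(3,1)]) (.cons (.keep [0,1,7,8,10] (.node (.cons (.keep [3,5,6,9,10] (.node (.cons (.leaf 1 [(2,3),(3,1)]) (.cons (.leaf 1 [(2,3),(3,1)]) (.cons (.leaf 1 [(6,4),(3,1)]) (.cons (.leaf 1 [(6,4),(3,1)]) (.cons (.leaf 1 [(6,2),(9,1)]) (.cons (.leaf 1 [(6,5),(0,1),(9,1)]) .nil)))))))) (.cons (.keep [0,6,7,8,9] (.node (.cons (.leaf 1 [(3,1),(8,3)]) (.cons (.leaf 1 [(3,1),(8,3)]) (.cons (.leaf 1 [(3,1),(9,1),(8,2)]) (.cons (.leaf 1 [(3,1),(9,1),(8,2)]) (.cons (.leaf 1 [(10,1),(8,2)]) (.cons (.leaf 1 [(0,1),(8,5),(10,1)]) .nil)))))))) (.cons (.leaf 1 [(3,2),(9,1),(1,1)]) (.cons (.leaf 1 [(7,2),(1,1),(9,1)]) (.cons (.keep [1,5,8,9,10] (.node (.cons (.leaf 1 [(3,1)]) (.cons (.leaf 1 [(3,1)]) (.cons (.leaf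 1 [(3,1),(8,1)]) (.cons (.leaf 1 [(3,1),(8,1)]) (.cons (.leaf 1 [(9,1)]) (.cons (.leaf 1 [(0,1),(9,1)]) .nil)))))))) (.cons (.keep [1,4,8,9,10] (.node (.cons (.leaf 1 [(6,3),(3,1),(8,3)]) (.cons (.leaf 1 [(6,3),(3,1),(8,3)]) (.cons (.leaf 1 [(1,2),(3,1),(8,3)]) (.cons (.leaf 1 [(1,2),(3,1),(8,3)]) (.cons (.leaf 1 [(6,2),(9,1),(8,2)]) (.cons (.leaf 1 [(6,5),(0,1),(8,5),(9,1)]) .nil)))))))) .nil)))))))) (.cons (.leaf 1 [(9,1)]) (.cons (.leaf 1 [(9,1),(1,1),(8,1)]) .nil)))))))) (.cons (.keep [4,6,7,8,10] (.node (.cons (.leaf 1 [(9,1),(3,1)]) (.cons (.keep [6,7,8,9,10] (.node (.cons (.keep [3,5,6,8,10] (.node (.cons (.leaf 1 [(3,1)]) (.cons (.leaf 1 [(3,1)]) (.cons (.leaf 1 [(3,1),(6,1)]) (.cons (.leaf 1 [(3,1),(6,1)]) (.cons (.leaf 1 [(9,1)]) (.cons (.leaf 1 [(0,1),(9,1)]) .nil))))))))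 (.cons (.keep [3,6,8,9,10] (.node (.cons (.leaf 1 [(9,1),(3,1)]) (.cons (.leaf 1 [(9,1),(3,1)]) (.cons (.leaf 1 [(3,1),(6,1),(9,1)]) (.cons (.leaf 1 [(3,1),(6,1),(9,1)]) (.cons (.leaf 1 [(9,1),(8,1)]) (.cons (.leaf 1 [(9,2),(0,1),(8,1)]) .nil)))))))) (.cons (.leaf 1 [(1,2),(8,1)]) (.cons (.leaf 1 [(1,1),(9,1),(8,1)]) (.cons (.keep [1,5,7,8,10] (.node (.cons (.leaf 1 [(6,1),(3,1)]) (.cons (.leaf 1 [(6,1),(3,1)]) (.cons (.leaf 1 [(3,1)]) (.cons (.leaf 1 [(3,1)]) (.cons (.leaf 1 [(6,1),(9,1)]) (.cons (.leaf 1 [(6,2),(0,1),(9,1)]) .nil)))))))) (.cons (.keep [6,7,8,9,10] (.node (.cons (.leaf 1 [(9,1),(3,1)]) (.cons (.leaf 1 [(9,1),(3,1)]) (.cons (.leaf 1 [(9,1),(3,1),(7,1)]) (.cons (.leaf 1 [(9,1),(3,1),(7,1)]) (.cons (.leaf 1 [(9,1),(8,1)]) (.cons (.leaf 1 [(9,2),(0,1),(8,1)]) .nil))))))))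 .nil)))))))) (.cons (.leaf 1 [(1,2),(3,1),(6,1)]) (.cons (.keep [6,7,8,9,10] (.node (.cons (.keep [3,5,6,8,10] (.node (.cons (.leaf 1 [(2,1),(3,1)]) (.cons (.leaf 1 [(2,1),(3,1)]) (.cons (.leaf 1 [(6,2),(3,1)]) (.cons (.leaf 1 [(6,2),(3,1)]) (.cons (.leaf 1 [(9,1)]) (.cons (.leaf 1 [(6,1),(0,1),(9,1)]) .nil)))))))) (.cons (.keep [3,6,8,9,10] (.node (.cons (.leaf 1 [(7,1),(3,1),(8,3)]) (.cons (.leaf 1 [(9,2),(3,1),(2,1)]) (.cons (.leaf 1 [(3,1),(8,2),(1,2)]) (.cons (.leaf 1 [(3,1),(8,2),(0,2),(9,4)]) (.cons (.leaf 1 [(7,1),(8,3),(1,2)]) (.cons (.leaf 1 [(9,4),(0,2),(2,1),(8,2)]) .nil)))))))) (.cons (.leaf 1 [(1,2),(8,1)]) (.cons (.leaf 1 [(1,1),(9,1),(8,1)]) (.cons (.keep [1,5,7,8,10] (.node (.cons (.leaf 1 [(6,1),(3,1)]) (.cons (.leaf 1 [(6,1),(3,1)]) (.cons (.leaf 1 [(3,1)]) (.cons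 (.leaf 1 [(3,1)]) (.cons (.leaf 1 [(6,1),(9,1)]) (.cons (.leaf 1 [(6,2),(0,1),(9,1)]) .nil)))))))) (.cons (.keep [6,7,8,9,10] (.node (.cons (.leaf 1 [(6,1),(3,1),(8,3)]) (.cons (.leaf 1 [(9,2),(3,1),(2,1)]) (.cons (.leaf 1 [(1,2),(3,1),(8,2)]) (.cons (.leaf 1 [(9,4),(3,1),(0,2),(8,2)]) (.cons (.leaf 1 [(6,1),(8,3),(1,2)]) (.cons (.leaf 1 [(9,4),(0,2),(2,1),(8,2)]) .nil)))))))) .nil)))))))) (.cons (.leaf 1 [(9,1)]) (.cons (.leaf 1 [(9,1),(1,1),(8,1)]) .nil)))))))) (.cons (.leaf 1 [(1,1),(8,1)]) (.cons (.leaf 1 [(1,1),(8,1)]) (.cons (.keep [1,5,7,9,10] (.node (.cons (.leaf 1 [(6,1),(3,1)]) (.cons (.keep [0,6,7,8,10] (.node (.cons (.keep [3,5,6,9,10] (.node (.cons (.leaf 1 [(2,1),(3,1)]) (.cons (.leaf 1 [(2,1),(3,1)]) (.cons (.leaf 1 [(6,2),(3,1)]) (.cons (.leaf 1 [(6,2),(3,1)]) (.cons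 (.leaf 1 [(6,1),(9,1)]) (.cons (.leaf 1 [(6,2),(0,1),(9,1)]) .nil)))))))) (.cons (.keep [6,7,8,9,10] (.node (.cons (.leaf 1 [(3,1),(7,1)]) (.cons (.leaf 1 [(3,1),(7,1)]) (.cons (.leaf 1 [(3,1),(8,1)]) (.cons (.leaf 1 [(3,1),(8,1)]) (.cons (.leaf 1 [(9,1),(7,1)]) (.cons (.leaf 1 [(0,1),(7,2),(9,1)]) .nil)))))))) (.cons (.leaf 1 [(3,1),(9,1),(1,1)]) (.cons (.leaf 1 [(7,1),(1,1),(9,1)]) (.cons (.keep [1,5,8,9,10] (.node (.cons (.leaf 1 [(3,1)]) (.cons (.leaf 1 [(3,1)]) (.cons (.leaf 1 [(3,1),(8,1)]) (.cons (.leaf 1 [(3,1),(8,1)]) (.cons (.leaf 1 [(9,1)]) (.cons (.leaf 1 [(0,1),(9,1)]) .nil)))))))) (.cons (.keep [1,4,8,9,10] (.node (.cons (.leaf 1 [(6,1),(3,1),(8,1)]) (.cons (.leaf 1 [(6,1),(3,1),(8,1)]) (.cons (.leaf 1 [(3,1),(8,1)]) (.cons (.leaf 1 [(3,1),(8,1)]) (.cons (.leaf 1 [(6,1),(9,1),(8,1)])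 (.cons (.leaf 1 [(6,2),(0,1),(8,2),(9,1)]) .nil)))))))) .nil)))))))) (.cons (.leaf 1 [(1,1),(3,1)]) (.cons (.keep [0,1,7,8,10] (.node (.cons (.keep [3,5,6,9,10] (.node (.cons (.leaf 1 [(2,2),(3,1)]) (.cons (.leaf 1 [(2,2),(3,1)]) (.cons (.leaf 1 [(6,3),(3,1)]) (.cons (.leaf 1 [(6,3),(3,1)]) (.cons (.leaf 1 [(6,1),(9,1)]) (.cons (.leaf 1 [(6,3),(0,1),(9,1)]) .nil)))))))) (.cons (.keep [6,7,8,9,10] (.node (.cons (.leaf 1 [(3,1),(7,2)]) (.cons (.leaf 1 [(3,1),(7,2)]) (.cons (.leaf 1 [(3,1),(8,1),(7,1)]) (.cons (.leaf 1 [(3,1),(8,1),(7,1)]) (.cons (.leaf 1 [(9,1),(7,1)]) (.cons (.leaf 1 [(0,1),(7,3),(9,1)]) .nil)))))))) (.cons (.leaf 1 [(3,1),(9,1),(1,1)]) (.cons (.leaf 1 [(7,1),(1,1),(9,1)]) (.cons (.keep [1,5,8,9,10] (.node (.cons (.leaf 1 [(3,1)]) (.cons (.leaf 1 [(3,1)]) (.cons (.leaf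 1 [(3,1),(8,1)]) (.cons (.leaf 1 [(3,1),(8,1)]) (.cons (.leaf 1 [(9,1)]) (.cons (.leaf 1 [(0,1),(9,1)]) .nil)))))))) (.cons (.keep [1,4,8,9,10] (.node (.cons (.leaf 1 [(6,2),(3,1),(8,2)]) (.cons (.leaf 1 [(6,2),(3,1),(8,2)]) (.cons (.leaf 1 [(1,1),(3,1),(8,2)]) (.cons (.leaf 1 [(1,1),(3,1),(8,2)]) (.cons (.leaf 1 [(6,1),(9,1),(8,1)]) (.cons (.leaf 1 [(6,3),(0,1),(8,3),(9,1)]) .nil)))))))) .nil)))))))) (.cons (.leaf 1 [(6,1)]) (.cons (.leaf 1 [(6,1),(1,1),(8,1)]) .nil)))))))) (.cons (.keep [6,7,8,9,10] (.node (.cons (.leaf 1 [(3,1),(8,1)]) (.cons (.keep [2,6,7,8,10] (.node (.cons (.keep [3,5,6,8,10] (.node (.cons (.leaf 1 [(8,1),(3,1)]) (.cons (.leaf 1 [(8,1),(3,1)]) (.cons (.leaf 1 [(3,1)]) (.cons (.leaf 1 [(3,1)]) (.cons (.leaf 1 [(8,1),(9,1)]) (.cons (.leaf 1 [(8,2),(0,1),(9,1)])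 .nil)))))))) (.cons (.keep [6,7,8,9,10] (.node (.cons (.leaf 1 [(9,1),(3,1)]) (.cons (.leaf 1 [(9,1),(3,1)]) (.cons (.leaf 1 [(3,1)]) (.cons (.leaf 1 [(3,1)]) (.cons (.leaf 1 [(9,1),(8,1)]) (.cons (.leaf 1 [(9,2),(0,1),(8,1)]) .nil)))))))) (.cons (.leaf 1 [(1,2),(6,1),(8,1)]) (.cons (.leaf 1 [(1,1),(9,1),(8,1)]) (.cons (.keep [1,5,7,8,10] (.node (.cons (.leaf 1 [(6,1),(3,1)]) (.cons (.leaf 1 [(6,1),(3,1)]) (.cons (.leaf 1 [(3,1)]) (.cons (.leaf 1 [(3,1)]) (.cons (.leaf 1 [(6,1),(9,1)]) (.cons (.leaf 1 [(6,2),(0,1),(9,1)]) .nil)))))))) (.cons (.keep [1,4,7,8,10] (.node (.cons (.leaf 1 [(6,1),(3,1)]) (.cons (.leaf 1 [(6,1),(3,1)]) (.cons (.leaf 1 [(3,1)]) (.cons (.leaf 1 [(3,1)]) (.cons (.leaf 1 [(6,1),(9,1)]) (.cons (.leaf 1 [(6,2),(0,1),(9,1)]) .nil)))))))) .nil)))))))) (.cons (.leaf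 1 [(3,1),(8,1)]) (.cons (.keep [6,7,8,9,10] (.node (.cons (.keep [3,5,7,8,10] (.node (.cons (.leaf 1 [(3,1)]) (.cons (.leaf 1 [(3,1)]) (.cons (.leaf 1 [(3,1),(6,1)]) (.cons (.leaf 1 [(3,1),(6,1)]) (.cons (.leaf 1 [(9,1),(8,1)]) (.cons (.leaf 1 [(9,1),(0,1),(8,1)]) .nil)))))))) (.cons (.keep [6,7,8,9,10] (.node (.cons (.leaf 1 [(8,1),(3,1),(7,1)]) (.cons (.leaf 1 [(8,2),(3,1),(6,1)]) (.cons (.leaf 1 [(3,1),(6,1),(1,1)]) (.cons (.leaf 1 [(3,1),(6,1),(1,1)]) (.cons (.leaf 1 [(8,1),(7,1)]) (.cons (.leaf 1 [(8,3),(0,1),(6,1),(7,1)]) .nil)))))))) (.cons (.leaf 1 [(1,1),(8,1),(7,1)]) (.cons (.leaf 1 [(1,1),(8,1),(7,1)]) (.cons (.keep [1,5,6,7,10] (.node (.cons (.leaf 1 [(6,1),(3,1)]) (.cons (.leaf 1 [(6,1),(3,1)]) (.cons (.leaf 1 [(3,1)]) (.cons (.leaf 1 [(3,1)]) (.cons (.leaf 1 [(6,1),(9,1)])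 (.cons (.leaf 1 [(6,2),(0,1),(9,1)]) .nil)))))))) (.cons (.keep [1,4,6,7,10] (.node (.cons (.leaf 1 [(6,2),(3,1),(8,1)]) (.cons (.leaf 1 [(6,2),(3,1),(8,1)]) (.cons (.leaf 1 [(1,1),(3,1),(8,1)]) (.cons (.leaf 1 [(1,1),(3,1),(8,1)]) (.cons (.leaf 1 [(6,1),(9,1)]) (.cons (.leaf 1 [(6,3),(0,1),(8,1),(9,1)]) .nil)))))))) .nil)))))))) (.cons (.leaf 1 [(8,1)]) (.cons (.leaf 1 [(1,1),(8,1),(7,1)]) .nil)))))))) .nil)))))))) (.cons (.keep [1,4,6,7,8] (.leaf 0 [(2,0)])) (.cons (.keep [1,5,7,9] (.node (.cons (.leaf 2 [(8,1)]) (.cons (.keep [0,2,6,7,8,9] (.node (.cons (.keep [3,5,6,7,10,11] (.node (.cons (.leaf 1 [(3,1)]) (.cons (.leaf 1 [(10,1),(3,1)]) (.cons (.leaf 1 [(3,1)]) (.cons (.leaf 1 [(3,1),(10,1),(0,1)]) (.cons (.leaf 1 []) (.cons (.leaf 1 [(10,1),(0,1)]) .nil)))))))) (.cons (.keep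 [6,7,8,9,10,11] (.node (.cons (.leaf 1 [(3,1)]) (.cons (.leaf 1 [(10,1),(3,1)]) (.cons (.leaf 1 [(3,1)]) (.cons (.leaf 1 [(3,1),(10,1),(0,1)]) (.cons (.leaf 1 []) (.cons (.leaf 1 [(10,1),(0,1)]) .nil)))))))) (.cons (.leaf 1 [(1,1)]) (.cons (.leaf 1 [(1,1)]) (.cons (.keep [1,5,6,9,10,11] (.node (.cons (.leaf 1 [(3,1)]) (.cons (.leaf 1 [(10,1),(3,1)]) (.cons (.leaf 1 [(3,1)]) (.cons (.leaf 1 [(3,1),(10,1),(0,1)]) (.cons (.leaf 1 []) (.cons (.leaf 1 [(10,1),(0,1)]) .nil)))))))) (.cons (.keep [1,4,6,9,10,11] (.node (.cons (.leaf 1 [(3,1)]) (.cons (.leaf 1 [(10,1),(3,1)]) (.cons (.leaf 1 [(3,1)]) (.cons (.leaf 1 [(3,1),(10,1),(0,1)]) (.cons (.leaf 1 []) (.cons (.leaf 1 [(10,1),(0,1)]) .nil)))))))) .nil)))))))) (.cons (.leaf 2 [(1,1),(8,1)]) (.cons (.keep [0,1,7,8,9] (.node (.cons (.keep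 [3,5,6,9,10] (.node (.cons (.leaf 1 [(3,1)]) (.cons (.leaf 1 [(9,1),(2,1),(3,1)]) (.cons (.leaf 1 [(3,1)]) (.cons (.leaf 1 [(3,1),(9,1),(0,2)]) (.cons (.leaf 1 []) (.cons (.leaf 1 [(9,1),(2,1),(0,2)]) .nil)))))))) (.cons (.keep [6,7,8,9,10] (.node (.cons (.leaf 1 [(3,1)]) (.cons (.leaf 1 [(9,1),(3,1),(7,1)]) (.cons (.leaf 1 [(3,1)]) (.cons (.leaf 1 [(7,1),(9,1),(3,1),(0,1)]) (.cons (.leaf 1 []) (.cons (.leaf 1 [(7,1),(9,1),(0,1)]) .nil)))))))) (.cons (.leaf 1 [(1,1)]) (.cons (.leaf 1 [(1,1)]) (.cons (.keep [1,5,6,8,9,10] (.node (.cons (.leaf 1 [(3,1)]) (.cons (.leaf 1 [(10,1),(3,1)]) (.cons (.leaf 1 [(3,1)]) (.cons (.leaf 1 [(3,1),(10,1),(0,1)]) (.cons (.leaf 1 []) (.cons (.leaf 1 [(10,1),(0,1)]) .nil)))))))) (.cons (.keep [1,6,8,9,10] (.node (.cons (.leaf 1 [(3,1)]) (.cons (.leaf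 1 [(6,1),(9,1),(3,1),(8,1)]) (.cons (.leaf 1 [(3,1)]) (.cons (.leaf 1 [(8,1),(9,1),(3,1)]) (.cons (.leaf 1 []) (.cons (.leaf 1 [(6,1),(8,1),(9,1),(0,1)]) .nil)))))))) .nil)))))))) (.cons (.leaf 1 [(1,1)]) (.cons (.leaf 1 [(1,1)]) .nil)))))))) (.cons (.keep [1,4,6,7,9] (.node (.cons (.leaf 2 [(7,2),(9,1)]) (.cons (.keep [0,2,6,7,9,10] (.node (.cons (.keep [5,6,7,10,11] (.node (.cons (.leaf 1 [(8,2),(3,1)]) (.cons (.leaf 1 [(8,2),(9,1),(3,1)]) (.cons (.leaf 1 [(1,2),(3,1)]) (.cons (.leaf 1 [(1,1),(9,1),(3,1)]) (.cons (.leaf 1 [(8,2)]) (.cons (.leaf 1 [(8,4),(9,1),(0,1)]) .nil)))))))) (.cons (.keep [6,7,8,9,10,11] (.node (.cons (.leaf 1 [(3,1),(9,1)]) (.cons (.leaf 1 [(10,1),(9,1),(3,1)]) (.cons (.leaf 1 [(1,1),(3,1),(7,1)]) (.cons (.leaf 1 [(3,1),(10,1),(7,1)]) (.cons (.leaf 1 [(9,1)])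 (.cons (.leaf 1 [(10,1),(9,2),(0,1)]) .nil)))))))) (.cons (.leaf 1 [(1,2),(7,2)]) (.cons (.leaf 1 [(1,1),(9,1)]) (.cons (.keep [1,5,6,10,11] (.node (.cons (.leaf 1 [(6,1),(3,1)]) (.cons (.leaf 1 [(6,1),(9,1),(3,1)]) (.cons (.leaf 1 [(1,1),(3,1)]) (.cons (.leaf 1 [(3,1),(9,1)]) (.cons (.leaf 1 [(6,1)]) (.cons (.leaf 1 [(6,2),(9,1),(0,1)]) .nil)))))))) (.cons (.keep [4,6,8,9,10,11] (.node (.cons (.leaf 1 [(3,1),(9,1)]) (.cons (.leaf 1 [(10,1),(9,1),(3,1)]) (.cons (.leaf 1 [(3,1),(6,1),(1,1)]) (.cons (.leaf 1 [(3,1),(10,1),(6,1)]) (.cons (.leaf 1 [(9,1)]) (.cons (.leaf 1 [(10,1),(9,2),(0,1)]) .nil)))))))) .nil)))))))) (.cons (.leaf 2 [(7,2),(9,1),(1,1)]) (.cons (.keep [0,1,7,9,10] (.node (.cons (.keep [5,6,8,9,10] (.node (.cons (.leaf 1 [(8,1),(3,1)]) (.cons (.leaf 2 [(8,1),(9,2),(3,2)])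 (.cons (.leaf 1 [(1,2),(3,1)]) (.cons (.leaf 1 [(3,1),(9,1)]) (.cons (.leaf 1 [(8,1)]) (.cons (.leaf 2 [(8,3),(9,2),(0,2)]) .nil)))))))) (.cons (.keep [6,7,8,9,10] (.node (.cons (.leaf 1 [(8,1),(3,1)]) (.cons (.leaf 1 [(8,1),(7,1),(9,1),(3,1)]) (.cons (.leaf 1 [(8,1),(3,1)]) (.cons (.leaf 1 [(3,1),(9,1)]) (.cons (.leaf 1 [(8,1)]) (.cons (.leaf 1 [(8,2),(7,1),(9,1),(0,1)]) .nil)))))))) (.cons (.leaf 1 [(1,1),(8,1)]) (.cons (.leaf 1 [(1,1),(8,1)]) (.cons (.keep [1,5,6,9,10] (.node (.cons (.leaf 1 [(6,1),(3,1)]) (.cons (.leaf 1 [(6,1),(9,1),(3,1)]) (.cons (.leaf 1 [(1,1),(3,1)]) (.cons (.leaf 1 [(3,1),(9,1)]) (.cons (.leaf 1 [(6,1)]) (.cons (.leaf 1 [(6,2),(9,1),(0,1)]) .nil)))))))) (.cons (.keep [6,7,8,9,10] (.node (.cons (.leaf 1 [(3,1),(8,1)]) (.cons (.leaf 1 [(7,1),(9,1),(8,1),(3,1)])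 (.cons (.leaf 1 [(3,1),(8,1)]) (.cons (.leaf 1 [(3,1),(9,1)]) (.cons (.leaf 1 [(8,1)]) (.cons (.leaf 1 [(7,1),(9,1),(8,2),(0,1)]) .nil)))))))) .nil)))))))) (.cons (.leaf 1 [(7,1),(1,1)]) (.cons (.leaf 1 [(7,1),(1,1)]) .nil)))))))) .nil)))))))

theorem c_7_20_6 : Concl 7 20 z_7_20_6 h_7_20_6 .nd := piece _ (hP_cons E26.c_7_20_4 (hP_cons
  E26.c_7_20_3 (hP_cons E26.c_7_20_5 hP_nil))) t_7_20_6 _ _ (by decide +kernel)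

def z_7_20_7 : F := ⟨1, -1, 0, 0, 1⟩

def h_7_20_7 : List F := [⟨1, 0, 0, 0, 0⟩, ⟨0, 1, 0, -1, 0⟩, ⟨0, -1, 0, 0, 1⟩, ⟨1, -1, -1, 0, 1⟩]

def t_7_20_7 : T := (.node (.cons (.keep [2,3,5,7] (.leaf 0 [(0,0)])) (.cons (.keep [2,4,6,7] (.leaf 0 [(1,0)])) (.cons (.keep [1,5,7,8,9] (.leaf 0 [(2,0)])) (.cons (.keep [1,4,6,7,8] (.node (.cons (.keep [3,5,7,8,10] (.node (.cons (.leaf 2 [(8,1)]) (.cons (.keep [0,2,7,8,9,10] (.node (.cons (.keep [3,5,6,7,9,10] (.node (.cons (.leaf 1 [(3,1)]) (.cons (.leaf 1 [(10,1),(3,1)]) (.cons (.leaf 1 [(3,1)]) (.cons (.leaf 1 [(3,1),(10,1),(0,1)]) (.cons (.leaf 1 []) (.cons (.leaf 1 [(10,1),(0,1)]) .nil)))))))) (.cons (.keep [6,7,8,9,10,11] (.node (.cons (.leaf 1 [(3,1)]) (.cons (.leaf 1 [(9,1),(3,1)]) (.cons (.leaf 1 [(3,1)]) (.cons (.leaf 1 [(3,1),(9,1),(0,1)])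 (.cons (.leaf 1 []) (.cons (.leaf 1 [(9,1),(0,1)]) .nil)))))))) (.cons (.leaf 1 [(1,1)]) (.cons (.leaf 1 [(1,1)]) (.cons (.keep [1,5,6,8,9,10] (.node (.cons (.leaf 1 [(3,1)]) (.cons (.leaf 1 [(10,1),(3,1)]) (.cons (.leaf 1 [(3,1)]) (.cons (.leaf 1 [(3,1),(10,1),(0,1)]) (.cons (.leaf 1 []) (.cons (.leaf 1 [(10,1),(0,1)]) .nil)))))))) (.cons (.keep [1,4,6,8,9,10] (.node (.cons (.leaf 1 [(3,1)]) (.cons (.leaf 1 [(10,1),(3,1)]) (.cons (.leaf 1 [(3,1)]) (.cons (.leaf 1 [(3,1),(10,1),(0,1)]) (.cons (.leaf 1 []) (.cons (.leaf 1 [(10,1),(0,1)]) .nil)))))))) .nil)))))))) (.cons (.leaf 2 [(1,1),(8,1)]) (.cons (.keep [0,1,7,8,9] (.node (.cons (.keep [3,5,6,9,10] (.node (.cons (.leaf 1 [(3,1)]) (.cons (.leaf 1 [(9,1),(2,1),(3,1)]) (.cons (.leaf 1 [(3,1)]) (.cons (.leaf 1 [(3,1),(9,1),(0,2)]) (.cons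 (.leaf 1 []) (.cons (.leaf 1 [(9,1),(2,1),(0,2)]) .nil)))))))) (.cons (.keep [6,7,8,9,10] (.node (.cons (.leaf 1 [(3,1)]) (.cons (.leaf 1 [(9,1),(3,1),(7,1)]) (.cons (.leaf 1 [(3,1)]) (.cons (.leaf 1 [(7,1),(9,1),(3,1),(0,1)]) (.cons (.leaf 1 []) (.cons (.leaf 1 [(7,1),(9,1),(0,1)]) .nil)))))))) (.cons (.leaf 1 [(1,1)]) (.cons (.leaf 1 [(1,1)]) (.cons (.keep [1,5,6,8,9,10] (.node (.cons (.leaf 1 [(3,1)]) (.cons (.leaf 1 [(10,1),(3,1)]) (.cons (.leaf 1 [(3,1)]) (.cons (.leaf 1 [(3,1),(10,1),(0,1)]) (.cons (.leaf 1 []) (.cons (.leaf 1 [(10,1),(0,1)]) .nil)))))))) (.cons (.keep [1,6,8,9,10] (.node (.cons (.leaf 1 [(3,1)]) (.cons (.leaf 1 [(6,1),(9,1),(3,1),(8,1)]) (.cons (.leaf 1 [(3,1)]) (.cons (.leaf 1 [(8,1),(9,1),(3,1)]) (.cons (.leaf 1 []) (.cons (.leaf 1 [(6,1),(8,1),(9,1),(0,1)])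 .nil)))))))) .nil)))))))) (.cons (.leaf 1 [(1,1)]) (.cons (.leaf 1 [(1,1)]) .nil)))))))) (.cons (.keep [0,6,7,9,10] (.node (.cons (.leaf 2 [(8,1)]) (.cons (.keep [0,6,7,8,9,10] (.node (.cons (.keep [3,5,6,7,9,11] (.node (.cons (.leaf 1 [(3,1)]) (.cons (.leaf 1 [(10,1),(3,1)]) (.cons (.leaf 1 [(3,1)]) (.cons (.leaf 1 [(3,1),(10,1),(0,1)]) (.cons (.leaf 1 []) (.cons (.leaf 1 [(10,1),(0,1)]) .nil)))))))) (.cons (.keep [0,3,4,6,9,11] (.node (.cons (.leaf 1 [(3,1)]) (.cons (.leaf 1 [(10,1),(3,1)]) (.cons (.leaf 1 [(3,1)]) (.cons (.leaf 1 [(3,1),(10,1),(0,1)]) (.cons (.leaf 1 []) (.cons (.leaf 1 [(10,1),(0,1)]) .nil)))))))) (.cons (.leaf 1 [(1,1)]) (.cons (.leaf 1 [(1,1)]) (.cons (.keep [1,5,6,7,8,9] (.node (.cons (.leaf 1 [(3,1)]) (.cons (.leaf 1 [(11,1),(3,1)]) (.cons (.leaf 1 [(3,1)])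 (.cons (.leaf 1 [(3,1),(11,1),(0,1)]) (.cons (.leaf 1 []) (.cons (.leaf 1 [(11,1),(0,1)]) .nil)))))))) (.cons (.keep [0,1,6,8,9,10] (.node (.cons (.leaf 1 [(3,1)]) (.cons (.leaf 1 [(10,1),(3,1)]) (.cons (.leaf 1 [(3,1)]) (.cons (.leaf 1 [(3,1),(10,1),(0,1)]) (.cons (.leaf 1 []) (.cons (.leaf 1 [(10,1),(0,1)]) .nil)))))))) .nil)))))))) (.cons (.leaf 2 [(1,1),(8,1)]) (.cons (.keep [0,1,6,8,9,10] (.node (.cons (.keep [3,5,6,8,9] (.node (.cons (.leaf 1 [(3,1)]) (.cons (.leaf 1 [(10,1),(2,1),(3,1)]) (.cons (.leaf 1 [(3,1)]) (.cons (.leaf 1 [(3,1),(10,1),(0,2)]) (.cons (.leaf 1 []) (.cons (.leaf 1 [(10,1),(2,1),(0,2)]) .nil)))))))) (.cons (.keep [4,6,7,8,9,11] (.node (.cons (.leaf 1 [(3,1)]) (.cons (.leaf 1 [(10,1),(3,1),(8,1)]) (.cons (.leaf 1 [(3,1)]) (.cons (.leaf 1 [(3,1),(8,1),(10,1),(0,1)])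 (.cons (.leaf 1 []) (.cons (.leaf 1 [(8,1),(10,1),(0,1)]) .nil)))))))) (.cons (.leaf 1 [(1,1)]) (.cons (.leaf 1 [(1,1)]) (.cons (.keep [1,5,6,8,9,10] (.node (.cons (.leaf 1 [(3,1)]) (.cons (.leaf 1 [(10,1),(3,1)]) (.cons (.leaf 1 [(3,1)]) (.cons (.leaf 1 [(3,1),(10,1),(0,1)]) (.cons (.leaf 1 []) (.cons (.leaf 1 [(10,1),(0,1)]) .nil)))))))) (.cons (.keep [1,6,7,8,9,10] (.node (.cons (.leaf 1 [(3,1)]) (.cons (.leaf 1 [(10,1),(3,1),(8,1)]) (.cons (.leaf 1 [(3,1)]) (.cons (.leaf 1 [(8,1),(10,1),(3,1),(0,1)]) (.cons (.leaf 1 []) (.cons (.leaf 1 [(8,1),(10,1),(0,1)]) .nil)))))))) .nil)))))))) (.cons (.leaf 1 [(1,1)]) (.cons (.leaf 1 [(1,1)]) .nil)))))))) (.cons (.leaf 1 [(1,1),(7,1)]) (.cons (.leaf 1 [(1,1),(7,1)]) (.cons (.keep [1,5,7,8,9] (.node (.cons (.leaf 2 [(8,1)]) (.cons (.keep [0,2,4,6,7,8]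 (.node (.cons (.keep [3,5,6,7,8,11] (.node (.cons (.leaf 1 [(3,1)]) (.cons (.leaf 1 [(11,1),(3,1)]) (.cons (.leaf 1 [(3,1)]) (.cons (.leaf 1 [(3,1),(11,1),(0,1)]) (.cons (.leaf 1 []) (.cons (.leaf 1 [(11,1),(0,1)]) .nil)))))))) (.cons (.keep [6,7,8,9,10,11] (.node (.cons (.leaf 1 [(3,1)]) (.cons (.leaf 1 [(11,1),(3,1)]) (.cons (.leaf 1 [(3,1)]) (.cons (.leaf 1 [(3,1),(11,1),(0,1)]) (.cons (.leaf 1 []) (.cons (.leaf 1 [(11,1),(0,1)]) .nil)))))))) (.cons (.leaf 1 [(1,1)]) (.cons (.leaf 1 [(1,1)]) (.cons (.keep [1,5,6,8,10,11] (.node (.cons (.leaf 1 [(3,1)]) (.cons (.leaf 1 [(11,1),(3,1)]) (.cons (.leaf 1 [(3,1)]) (.cons (.leaf 1 [(3,1),(11,1),(0,1)]) (.cons (.leaf 1 []) (.cons (.leaf 1 [(11,1),(0,1)]) .nil)))))))) (.cons (.keep [1,4,6,8,10,11] (.node (.cons (.leaf 1 [(3,1)]) (.cons (.leaf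 1 [(11,1),(3,1)]) (.cons (.leaf 1 [(3,1)]) (.cons (.leaf 1 [(3,1),(11,1),(0,1)]) (.cons (.leaf 1 []) (.cons (.leaf 1 [(11,1),(0,1)]) .nil)))))))) .nil)))))))) (.cons (.leaf 2 [(1,1),(8,1)]) (.cons (.keep [0,1,7,8,9] (.node (.cons (.keep [2,3,5,6,9] (.node (.cons (.leaf 1 [(3,1)]) (.cons (.leaf 1 [(10,1),(2,1),(3,1)]) (.cons (.leaf 1 [(3,1)]) (.cons (.leaf 1 [(3,1),(10,1),(0,2)]) (.cons (.leaf 1 []) (.cons (.leaf 1 [(10,1),(2,1),(0,2)]) .nil)))))))) (.cons (.keep [2,6,7,8,9] (.node (.cons (.leaf 1 [(3,1)]) (.cons (.leaf 1 [(10,1),(3,1),(8,1)]) (.cons (.leaf 1 [(3,1)]) (.cons (.leaf 1 [(8,1),(10,1),(3,1),(0,1)]) (.cons (.leaf 1 []) (.cons (.leaf 1 [(8,1),(10,1),(0,1)]) .nil)))))))) (.cons (.leaf 1 [(1,1)]) (.cons (.leaf 1 [(1,1)]) (.cons (.keep [1,5,6,8,9,10] (.node (.cons (.leaf 1 [(3,1)])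 (.cons (.leaf 1 [(10,1),(3,1)]) (.cons (.leaf 1 [(3,1)]) (.cons (.leaf 1 [(3,1),(10,1),(0,1)]) (.cons (.leaf 1 []) (.cons (.leaf 1 [(10,1),(0,1)]) .nil)))))))) (.cons (.keep [1,6,8,9,10] (.node (.cons (.leaf 1 [(3,1)]) (.cons (.leaf 1 [(6,1),(9,1),(3,1),(8,1)]) (.cons (.leaf 1 [(3,1)]) (.cons (.leaf 1 [(8,1),(9,1),(3,1)]) (.cons (.leaf 1 []) (.cons (.leaf 1 [(6,1),(8,1),(9,1),(0,1)]) .nil)))))))) .nil)))))))) (.cons (.leaf 1 [(1,1)]) (.cons (.leaf 1 [(1,1)]) .nil)))))))) (.cons (.keep [1,4,7,8,9] (.node (.cons (.leaf 2 [(8,1)]) (.cons (.keep [0,6,7,8,9,10] (.node (.cons (.keep [3,5,6,8,9,10] (.node (.cons (.leaf 1 [(3,1)]) (.cons (.leaf 1 [(10,1),(3,1)]) (.cons (.leaf 1 [(3,1)]) (.cons (.leaf 1 [(3,1),(10,1),(0,1)]) (.cons (.leaf 1 []) (.cons (.leaf 1 [(10,1),(0,1)]) .nil)))))))) (.cons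 (.keep [4,6,7,8,9,10] (.node (.cons (.leaf 1 [(3,1)]) (.cons (.leaf 1 [(10,1),(3,1)]) (.cons (.leaf 1 [(3,1)]) (.cons (.leaf 1 [(3,1),(10,1),(0,1)]) (.cons (.leaf 1 []) (.cons (.leaf 1 [(10,1),(0,1)]) .nil)))))))) (.cons (.leaf 1 [(1,1)]) (.cons (.leaf 1 [(1,1)]) (.cons (.keep [1,5,6,9,10,11] (.node (.cons (.leaf 1 [(3,1)]) (.cons (.leaf 1 [(9,1),(3,1)]) (.cons (.leaf 1 [(3,1)]) (.cons (.leaf 1 [(3,1),(9,1),(0,1)]) (.cons (.leaf 1 []) (.cons (.leaf 1 [(9,1),(0,1)]) .nil)))))))) (.cons (.keep [2,6,7,8,9,11] (.node (.cons (.leaf 1 [(3,1)]) (.cons (.leaf 1 [(10,1),(3,1)]) (.cons (.leaf 1 [(3,1)]) (.cons (.leaf 1 [(3,1),(10,1),(0,1)]) (.cons (.leaf 1 []) (.cons (.leaf 1 [(10,1),(0,1)]) .nil)))))))) .nil)))))))) (.cons (.leaf 2 [(1,1),(8,1)]) (.cons (.keep [0,1,7,8,9,10] (.node (.cons (.keep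 [3,5,6,9,10] (.node (.cons (.leaf 1 [(3,1)]) (.cons (.leaf 1 [(9,1),(2,1),(3,1)]) (.cons (.leaf 1 [(3,1)]) (.cons (.leaf 1 [(3,1),(9,1),(0,2)]) (.cons (.leaf 1 []) (.cons (.leaf 1 [(9,1),(2,1),(0,2)]) .nil)))))))) (.cons (.keep [4,6,7,8,9,10] (.node (.cons (.leaf 1 [(3,1)]) (.cons (.leaf 1 [(8,1),(10,1),(3,1)]) (.cons (.leaf 1 [(3,1)]) (.cons (.leaf 1 [(3,1),(8,1),(10,1),(0,1)]) (.cons (.leaf 1 []) (.cons (.leaf 1 [(8,1),(10,1),(0,1)]) .nil)))))))) (.cons (.leaf 1 [(1,1)]) (.cons (.leaf 1 [(1,1)]) (.cons (.keep [1,5,6,9,10,11] (.node (.cons (.leaf 1 [(3,1)]) (.cons (.leaf 1 [(9,1),(3,1)]) (.cons (.leaf 1 [(3,1)]) (.cons (.leaf 1 [(3,1),(9,1),(0,1)]) (.cons (.leaf 1 []) (.cons (.leaf 1 [(9,1),(0,1)]) .nil)))))))) (.cons (.keep [2,6,7,8,9,11] (.node (.cons (.leaf 1 [(3,1)]) (.cons (.leaf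 1 [(8,1),(10,1),(3,1)]) (.cons (.leaf 1 [(3,1)]) (.cons (.leaf 1 [(3,1),(8,1),(10,1),(0,1)]) (.cons (.leaf 1 []) (.cons (.leaf 1 [(8,1),(10,1),(0,1)]) .nil)))))))) .nil)))))))) (.cons (.leaf 1 [(1,1)]) (.cons (.leaf 1 [(1,1)]) .nil)))))))) .nil)))))))) (.cons (.keep [1,5,7,9] (.node (.cons (.leaf 1 [(3,1)]) (.cons (.keep [2,6,7,8,9] (.node (.cons (.keep [3,5,6,9,10] (.node (.cons (.leaf 1 [(3,1)]) (.cons (.leaf 1 [(3,1)]) (.cons (.leaf 1 [(3,1),(6,1)]) (.cons (.leaf 1 [(3,1),(6,1)]) (.cons (.leaf 1 [(9,1)]) (.cons (.leaf 1 [(0,1),(9,1)]) .nil)))))))) (.cons (.keep [6,7,8,9,10] (.node (.cons (.leaf 1 [(3,1)]) (.cons (.leaf 1 [(3,1)]) (.cons (.leaf 1 [(3,1),(8,1),(6,1)]) (.cons (.leaf 1 [(3,1),(8,1),(6,1)]) (.cons (.leaf 1 [(9,1)]) (.cons (.leaf 1 [(0,1),(9,1)]) .nil)))))))) (.cons (.leaf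 1 [(1,1),(9,1)]) (.cons (.leaf 1 [(1,1),(9,1)]) (.cons (.keep [1,5,8,9,10] (.node (.cons (.leaf 1 [(3,1)]) (.cons (.leaf 1 [(3,1)]) (.cons (.leaf 1 [(3,1),(8,1)]) (.cons (.leaf 1 [(3,1),(8,1)]) (.cons (.leaf 1 [(9,1)]) (.cons (.leaf 1 [(0,1),(9,1)]) .nil)))))))) (.cons (.keep [1,4,8,9,10] (.node (.cons (.leaf 1 [(3,1)]) (.cons (.leaf 1 [(3,1)]) (.cons (.leaf 1 [(3,1),(8,1),(7,1)]) (.cons (.leaf 1 [(3,1),(8,1),(7,1)]) (.cons (.leaf 1 [(9,1)]) (.cons (.leaf 1 [(0,1),(9,1)]) .nil)))))))) .nil)))))))) (.cons (.leaf 1 [(3,1)]) (.cons (.keep [0,1,7,8,9] (.node (.cons (.keep [3,5,6,9,10] (.node (.cons (.leaf 1 [(2,1),(3,1)]) (.cons (.leaf 1 [(2,1),(3,1)]) (.cons (.leaf 1 [(6,2),(3,1)]) (.cons (.leaf 1 [(6,2),(3,1)]) (.cons (.leaf 1 [(9,1)]) (.cons (.leaf 1 [(6,1),(0,1),(9,1)]) .nil))))))))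 (.cons (.keep [6,7,8,9,10] (.node (.cons (.leaf 1 [(3,1),(7,1)]) (.cons (.leaf 1 [(3,1),(7,1)]) (.cons (.leaf 1 [(3,1),(8,1)]) (.cons (.leaf 1 [(3,1),(8,1)]) (.cons (.leaf 1 [(9,1)]) (.cons (.leaf 1 [(0,1),(7,1),(9,1)]) .nil)))))))) (.cons (.leaf 1 [(1,1),(9,1)]) (.cons (.leaf 1 [(1,1),(9,1)]) (.cons (.keep [1,5,8,9,10] (.node (.cons (.leaf 1 [(3,1)]) (.cons (.leaf 1 [(3,1)]) (.cons (.leaf 1 [(3,1),(8,1)]) (.cons (.leaf 1 [(3,1),(8,1)]) (.cons (.leaf 1 [(9,1)]) (.cons (.leaf 1 [(0,1),(9,1)]) .nil)))))))) (.cons (.keep [1,4,8,9,10] (.node (.cons (.leaf 1 [(6,1),(3,1),(8,1)]) (.cons (.leaf 1 [(6,1),(3,1),(8,1)]) (.cons (.leaf 1 [(3,1),(8,1)]) (.cons (.leaf 1 [(3,1),(8,1)]) (.cons (.leaf 1 [(9,1)]) (.cons (.leaf 1 [(6,1),(0,1),(8,1),(9,1)]) .nil)))))))) .nil)))))))) (.cons (.leaf 1 [])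 (.cons (.leaf 1 [(1,1),(8,1)]) .nil)))))))) (.cons (.keep [1,4,6,7,9] (.node (.cons (.leaf 1 [(7,1),(3,1)]) (.cons (.keep [0,2,6,7,9,10] (.node (.cons (.keep [3,5,7,10,11] (.node (.cons (.leaf 1 [(8,2),(3,1)]) (.cons (.leaf 1 [(8,2),(3,1)]) (.cons (.leaf 1 [(1,1),(3,1)]) (.cons (.leaf 1 [(1,1),(3,1)]) (.cons (.leaf 1 [(8,2),(9,1)]) (.cons (.leaf 1 [(8,4),(0,1),(9,1)]) .nil)))))))) (.cons (.keep [6,7,8,9,10,11] (.node (.cons (.leaf 1 [(3,1),(9,1)]) (.cons (.leaf 1 [(3,1),(9,1)]) (.cons (.leaf 1 [(3,1),(7,1)]) (.cons (.leaf 1 [(3,1),(7,1)]) (.cons (.leaf 1 [(10,1),(9,1)]) (.cons (.leaf 1 [(0,1),(9,2),(10,1)]) .nil)))))))) (.cons (.leaf 1 [(7,2),(1,2),(10,1)]) (.cons (.leaf 1 [(9,1),(10,1),(1,1)]) (.cons (.keep [1,5,6,10,11] (.node (.cons (.leaf 1 [(6,1),(3,1)]) (.cons (.leaf 1 [(6,1),(3,1)])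 (.cons (.leaf 1 [(3,1)]) (.cons (.leaf 1 [(3,1)]) (.cons (.leaf 1 [(6,1),(9,1)]) (.cons (.leaf 1 [(6,2),(0,1),(9,1)]) .nil)))))))) (.cons (.keep [4,6,8,9,10,11] (.node (.cons (.leaf 1 [(3,1),(9,1)]) (.cons (.leaf 1 [(3,1),(9,1)]) (.cons (.leaf 1 [(3,1),(6,1)]) (.cons (.leaf 1 [(3,1),(6,1)]) (.cons (.leaf 1 [(10,1),(9,1)]) (.cons (.leaf 1 [(0,1),(9,2),(10,1)]) .nil)))))))) .nil)))))))) (.cons (.leaf 1 [(3,1),(7,1)]) (.cons (.keep [0,1,7,9,10] (.node (.cons (.keep [3,5,8,9,10] (.node (.cons (.leaf 2 [(8,1),(3,2)]) (.cons (.leaf 2 [(8,1),(3,2)]) (.cons (.leaf 1 [(3,1)]) (.cons (.leaf 1 [(3,1)]) (.cons (.leaf 1 [(8,1),(9,1)]) (.cons (.leaf 2 [(8,3),(0,2),(9,2)]) .nil)))))))) (.cons (.keep [4,7,8,9,10] (.node (.cons (.leaf 1 [(7,1),(3,1),(8,1)]) (.cons (.leaf 1 [(7,1),(3,1),(8,1)]) (.cons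 (.leaf 1 [(3,1)]) (.cons (.leaf 1 [(3,1)]) (.cons (.leaf 1 [(9,1),(8,1)]) (.cons (.leaf 1 [(7,1),(0,1),(8,2),(9,1)]) .nil)))))))) (.cons (.leaf 1 [(1,1),(8,1),(9,1)]) (.cons (.leaf 1 [(1,1),(9,1),(8,1)]) (.cons (.keep [1,5,6,9,10] (.node (.cons (.leaf 1 [(6,1),(3,1)]) (.cons (.leaf 1 [(6,1),(3,1)]) (.cons (.leaf 1 [(3,1)]) (.cons (.leaf 1 [(3,1)]) (.cons (.leaf 1 [(6,1),(9,1)]) (.cons (.leaf 1 [(6,2),(0,1),(9,1)]) .nil)))))))) (.cons (.keep [6,7,8,9,10] (.node (.cons (.leaf 1 [(7,1),(3,1),(8,1)]) (.cons (.leaf 1 [(7,1),(3,1),(8,1)]) (.cons (.leaf 1 [(3,1)]) (.cons (.leaf 1 [(3,1)]) (.cons (.leaf 1 [(9,1),(8,1)]) (.cons (.leaf 1 [(7,1),(0,1),(8,2),(9,1)]) .nil)))))))) .nil)))))))) (.cons (.leaf 1 [(7,1)]) (.cons (.leaf 1 [(7,1),(1,1),(9,1)]) .nil)))))))) .nil)))))))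

theorem c_7_20_7 : Concl 7 20 z_7_20_7 h_7_20_7 .nd := piece _ (hP_cons E26.c_7_20_1 (hP_cons
  E26.c_7_20_0 (hP_cons E26.c_7_20_2 hP_nil))) t_7_20_7 _ _ (by decide +kernel)

def t_7_20 : T := (.keep [0,1,2] (.node (.cons (.keep [2,3,5,8] (.leaf 0 [(0,0)])) (.cons (.keep [0,2,4,8] (.node (.cons (.keep [3,5,7,8,9] (.node (.cons (.leaf 2 [(9,1)]) (.cons (.keep [0,2,7,8,9,10] (.node (.cons (.keep [3,5,6,7,10,11] (.node (.cons (.leaf 1 [(3,1)]) (.cons (.leaf 1 [(10,1),(3,1)]) (.cons (.leaf 1 [(3,1)]) (.cons (.leaf 1 [(3,1),(10,1),(0,1)]) (.cons (.leaf 1 []) (.cons (.leaf 1 [(10,1),(0,1)]) .nil)))))))) (.cons (.keep [6,7,8,9,10,11] (.node (.cons (.leaf 1 [(3,1)]) (.cons (.leaf 1 [(10,1),(3,1)]) (.cons (.leaf 1 [(3,1)]) (.cons (.leaf 1 [(3,1),(10,1),(0,1)]) (.cons (.leaf 1 []) (.cons (.leaf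 1 [(10,1),(0,1)]) .nil)))))))) (.cons (.leaf 1 [(1,1)]) (.cons (.leaf 1 [(1,1)]) (.cons (.keep [1,5,6,8,10,11] (.node (.cons (.leaf 1 [(3,1)]) (.cons (.leaf 1 [(10,1),(3,1)]) (.cons (.leaf 1 [(3,1)]) (.cons (.leaf 1 [(3,1),(10,1),(0,1)]) (.cons (.leaf 1 []) (.cons (.leaf 1 [(10,1),(0,1)]) .nil)))))))) (.cons (.keep [1,4,6,8,10,11] (.node (.cons (.leaf 1 [(3,1)]) (.cons (.leaf 1 [(10,1),(3,1)]) (.cons (.leaf 1 [(3,1)]) (.cons (.leaf 1 [(3,1),(10,1),(0,1)]) (.cons (.leaf 1 []) (.cons (.leaf 1 [(10,1),(0,1)]) .nil)))))))) .nil)))))))) (.cons (.leaf 2 [(1,1),(9,1)]) (.cons (.keep [0,1,7,9,10] (.node (.cons (.keep [3,5,6,9,10] (.node (.cons (.leaf 1 [(3,1)]) (.cons (.leaf 1 [(9,1),(2,1),(3,1)]) (.cons (.leaf 1 [(3,1)]) (.cons (.leaf 1 [(3,1),(9,1),(0,2)]) (.cons (.leaf 1 []) (.cons (.leaf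 1 [(9,1),(2,1),(0,2)]) .nil)))))))) (.cons (.keep [6,7,8,9,10] (.node (.cons (.leaf 1 [(3,1)]) (.cons (.leaf 1 [(9,1),(3,1),(7,1)]) (.cons (.leaf 1 [(3,1)]) (.cons (.leaf 1 [(7,1),(9,1),(3,1),(0,1)]) (.cons (.leaf 1 []) (.cons (.leaf 1 [(7,1),(9,1),(0,1)]) .nil)))))))) (.cons (.leaf 1 [(1,1)]) (.cons (.leaf 1 [(1,1)]) (.cons (.keep [1,5,6,8,9,10] (.node (.cons (.leaf 1 [(3,1)]) (.cons (.leaf 1 [(10,1),(3,1)]) (.cons (.leaf 1 [(3,1)]) (.cons (.leaf 1 [(3,1),(10,1),(0,1)]) (.cons (.leaf 1 []) (.cons (.leaf 1 [(10,1),(0,1)]) .nil)))))))) (.cons (.keep [1,6,8,9,10] (.node (.cons (.leaf 1 [(3,1)]) (.cons (.leaf 1 [(6,1),(9,1),(3,1),(8,1)]) (.cons (.leaf 1 [(3,1)]) (.cons (.leaf 1 [(8,1),(9,1),(3,1)]) (.cons (.leaf 1 []) (.cons (.leaf 1 [(6,1),(8,1),(9,1),(0,1)]) .nil)))))))) .nil))))))))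 (.cons (.leaf 1 [(1,1)]) (.cons (.leaf 1 [(1,1)]) .nil)))))))) (.cons (.keep [0,3,7,8] (.node (.cons (.leaf 2 [(9,1)]) (.cons (.keep [0,2,6,8,9] (.node (.cons (.keep [3,5,6,7,8,10] (.node (.cons (.leaf 1 [(3,1)]) (.cons (.leaf 1 [(11,1),(3,1)]) (.cons (.leaf 1 [(3,1)]) (.cons (.leaf 1 [(3,1),(11,1),(0,1)]) (.cons (.leaf 1 []) (.cons (.leaf 1 [(11,1),(0,1)]) .nil)))))))) (.cons (.keep [0,3,6,7,9,10] (.node (.cons (.leaf 1 [(3,1)]) (.cons (.leaf 1 [(11,1),(3,1)]) (.cons (.leaf 1 [(3,1)]) (.cons (.leaf 1 [(3,1),(11,1),(0,1)]) (.cons (.leaf 1 []) (.cons (.leaf 1 [(11,1),(0,1)]) .nil)))))))) (.cons (.leaf 1 [(1,1)]) (.cons (.leaf 1 [(1,1)]) (.cons (.keep [1,5,6,8,10] (.node (.cons (.leaf 1 [(3,1)]) (.cons (.leaf 1 [(10,1),(3,1)]) (.cons (.leaf 1 [(3,1)]) (.cons (.leaf 1 [(3,1),(10,1),(0,1)])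 (.cons (.leaf 1 []) (.cons (.leaf 1 [(10,1),(0,1)]) .nil)))))))) (.cons (.keep [0,1,4,6,10] (.node (.cons (.leaf 1 [(3,1)]) (.cons (.leaf 1 [(10,1),(3,1)]) (.cons (.leaf 1 [(3,1)]) (.cons (.leaf 1 [(3,1),(10,1),(0,1)]) (.cons (.leaf 1 []) (.cons (.leaf 1 [(10,1),(0,1)]) .nil)))))))) .nil)))))))) (.cons (.leaf 2 [(1,1),(9,1)]) (.cons (.keep [0,1,6,8,9] (.node (.cons (.keep [3,5,6,8,10] (.node (.cons (.leaf 1 [(3,1)]) (.cons (.leaf 1 [(10,1),(2,1),(3,1)]) (.cons (.leaf 1 [(3,1)]) (.cons (.leaf 1 [(3,1),(10,1),(0,2)]) (.cons (.leaf 1 []) (.cons (.leaf 1 [(10,1),(2,1),(0,2)]) .nil)))))))) (.cons (.keep [4,6,7,8,9,10] (.node (.cons (.leaf 1 [(3,1)]) (.cons (.leaf 1 [(8,1),(11,1),(3,1)]) (.cons (.leaf 1 [(3,1)]) (.cons (.leaf 1 [(3,1),(8,1),(11,1),(0,1)]) (.cons (.leaf 1 []) (.cons (.leaf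 1 [(8,1),(11,1),(0,1)]) .nil)))))))) (.cons (.leaf 1 [(1,1)]) (.cons (.leaf 1 [(1,1)]) (.cons (.keep [1,5,6,8,10] (.node (.cons (.leaf 1 [(3,1)]) (.cons (.leaf 1 [(10,1),(3,1)]) (.cons (.leaf 1 [(3,1)]) (.cons (.leaf 1 [(3,1),(10,1),(0,1)]) (.cons (.leaf 1 []) (.cons (.leaf 1 [(10,1),(0,1)]) .nil)))))))) (.cons (.keep [1,6,7,8,10] (.node (.cons (.leaf 1 [(3,1)]) (.cons (.leaf 1 [(10,1),(3,1),(8,1)]) (.cons (.leaf 1 [(3,1)]) (.cons (.leaf 1 [(8,1),(10,1),(3,1),(0,1)]) (.cons (.leaf 1 []) (.cons (.leaf 1 [(8,1),(10,1),(0,1)]) .nil)))))))) .nil)))))))) (.cons (.leaf 1 [(1,1)]) (.cons (.leaf 1 [(1,1)]) .nil)))))))) (.cons (.leaf 1 [(1,1),(8,1)]) (.cons (.leaf 1 [(1,1),(8,1)]) (.cons (.keep [1,5,8,9] (.node (.cons (.leaf 2 [(8,1)]) (.cons (.keep [0,2,6,7,8,9] (.node (.cons (.keep [3,5,6,7,10,11]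 (.node (.cons (.leaf 1 [(3,1)]) (.cons (.leaf 1 [(10,1),(3,1)]) (.cons (.leaf 1 [(3,1)]) (.cons (.leaf 1 [(3,1),(10,1),(0,1)]) (.cons (.leaf 1 []) (.cons (.leaf 1 [(10,1),(0,1)]) .nil)))))))) (.cons (.keep [6,7,8,9,10,11] (.node (.cons (.leaf 1 [(3,1)]) (.cons (.leaf 1 [(10,1),(3,1)]) (.cons (.leaf 1 [(3,1)]) (.cons (.leaf 1 [(3,1),(10,1),(0,1)]) (.cons (.leaf 1 []) (.cons (.leaf 1 [(10,1),(0,1)]) .nil)))))))) (.cons (.leaf 1 [(1,1)]) (.cons (.leaf 1 [(1,1)]) (.cons (.keep [1,5,6,9,10,11] (.node (.cons (.leaf 1 [(3,1)]) (.cons (.leaf 1 [(10,1),(3,1)]) (.cons (.leaf 1 [(3,1)]) (.cons (.leaf 1 [(3,1),(10,1),(0,1)]) (.cons (.leaf 1 []) (.cons (.leaf 1 [(10,1),(0,1)]) .nil)))))))) (.cons (.keep [1,4,6,9,10,11] (.node (.cons (.leaf 1 [(3,1)]) (.cons (.leaf 1 [(10,1),(3,1)]) (.cons (.leaf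 1 [(3,1)]) (.cons (.leaf 1 [(3,1),(10,1),(0,1)]) (.cons (.leaf 1 []) (.cons (.leaf 1 [(10,1),(0,1)]) .nil)))))))) .nil)))))))) (.cons (.leaf 2 [(1,1),(8,1)]) (.cons (.keep [0,1,7,8,9] (.node (.cons (.keep [3,5,6,9,10] (.node (.cons (.leaf 1 [(3,1)]) (.cons (.leaf 1 [(9,1),(2,1),(3,1)]) (.cons (.leaf 1 [(3,1)]) (.cons (.leaf 1 [(3,1),(9,1),(0,2)]) (.cons (.leaf 1 []) (.cons (.leaf 1 [(9,1),(2,1),(0,2)]) .nil)))))))) (.cons (.keep [6,7,8,9,10] (.node (.cons (.leaf 1 [(3,1)]) (.cons (.leaf 1 [(9,1),(3,1),(7,1)]) (.cons (.leaf 1 [(3,1)]) (.cons (.leaf 1 [(7,1),(9,1),(3,1),(0,1)]) (.cons (.leaf 1 []) (.cons (.leaf 1 [(7,1),(9,1),(0,1)]) .nil)))))))) (.cons (.leaf 1 [(1,1)]) (.cons (.leaf 1 [(1,1)]) (.cons (.keep [1,5,6,8,9,10] (.node (.cons (.leaf 1 [(3,1)]) (.cons (.leaf 1 [(10,1),(3,1)])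 (.cons (.leaf 1 [(3,1)]) (.cons (.leaf 1 [(3,1),(10,1),(0,1)]) (.cons (.leaf 1 []) (.cons (.leaf 1 [(10,1),(0,1)]) .nil)))))))) (.cons (.keep [1,6,8,9,10] (.node (.cons (.leaf 1 [(3,1)]) (.cons (.leaf 1 [(6,1),(9,1),(3,1),(8,1)]) (.cons (.leaf 1 [(3,1)]) (.cons (.leaf 1 [(8,1),(9,1),(3,1)]) (.cons (.leaf 1 []) (.cons (.leaf 1 [(6,1),(8,1),(9,1),(0,1)]) .nil)))))))) .nil)))))))) (.cons (.leaf 1 [(1,1)]) (.cons (.leaf 1 [(1,1)]) .nil)))))))) (.cons (.keep [0,1,4,8] (.node (.cons (.leaf 2 [(9,1)]) (.cons (.keep [0,2,6,7,8,9] (.node (.cons (.keep [3,5,6,7,8,11] (.node (.cons (.leaf 1 [(3,1)]) (.cons (.leaf 1 [(11,1),(3,1)]) (.cons (.leaf 1 [(3,1)]) (.cons (.leaf 1 [(3,1),(11,1),(0,1)]) (.cons (.leaf 1 []) (.cons (.leaf 1 [(11,1),(0,1)]) .nil)))))))) (.cons (.keep [4,6,8,9,10,11] (.node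 (.cons (.leaf 1 [(3,1)]) (.cons (.leaf 1 [(11,1),(3,1)]) (.cons (.leaf 1 [(3,1)]) (.cons (.leaf 1 [(3,1),(11,1),(0,1)]) (.cons (.leaf 1 []) (.cons (.leaf 1 [(11,1),(0,1)]) .nil)))))))) (.cons (.leaf 1 [(1,1)]) (.cons (.leaf 1 [(1,1)]) (.cons (.keep [1,5,6,8,11] (.node (.cons (.leaf 1 [(3,1)]) (.cons (.leaf 1 [(10,1),(3,1)]) (.cons (.leaf 1 [(3,1)]) (.cons (.leaf 1 [(3,1),(10,1),(0,1)]) (.cons (.leaf 1 []) (.cons (.leaf 1 [(10,1),(0,1)]) .nil)))))))) (.cons (.keep [4,6,8,9,10,11] (.node (.cons (.leaf 1 [(3,1)]) (.cons (.leaf 1 [(11,1),(3,1)]) (.cons (.leaf 1 [(3,1)]) (.cons (.leaf 1 [(3,1),(11,1),(0,1)]) (.cons (.leaf 1 []) (.cons (.leaf 1 [(11,1),(0,1)]) .nil)))))))) .nil)))))))) (.cons (.leaf 2 [(1,1),(9,1)]) (.cons (.keep [0,1,6,8,9] (.node (.cons (.keep [3,5,6,8,10] (.node (.cons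 (.leaf 1 [(3,1)]) (.cons (.leaf 1 [(10,1),(2,1),(3,1)]) (.cons (.leaf 1 [(3,1)]) (.cons (.leaf 1 [(3,1),(10,1),(0,2)]) (.cons (.leaf 1 []) (.cons (.leaf 1 [(10,1),(2,1),(0,2)]) .nil)))))))) (.cons (.keep [4,6,7,8,9,10] (.node (.cons (.leaf 1 [(3,1)]) (.cons (.leaf 1 [(8,1),(11,1),(3,1)]) (.cons (.leaf 1 [(3,1)]) (.cons (.leaf 1 [(3,1),(8,1),(11,1),(0,1)]) (.cons (.leaf 1 []) (.cons (.leaf 1 [(8,1),(11,1),(0,1)]) .nil)))))))) (.cons (.leaf 1 [(1,1)]) (.cons (.leaf 1 [(1,1)]) (.cons (.keep [1,5,6,8,10] (.node (.cons (.leaf 1 [(3,1)]) (.cons (.leaf 1 [(10,1),(3,1)]) (.cons (.leaf 1 [(3,1)]) (.cons (.leaf 1 [(3,1),(10,1),(0,1)]) (.cons (.leaf 1 []) (.cons (.leaf 1 [(10,1),(0,1)]) .nil)))))))) (.cons (.keep [6,7,8,9,10] (.node (.cons (.leaf 1 [(3,1)]) (.cons (.leaf 1 [(7,1),(10,1),(3,1)])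 (.cons (.leaf 1 [(3,1)]) (.cons (.leaf 1 [(3,1),(7,1),(10,1),(0,1)]) (.cons (.leaf 1 []) (.cons (.leaf 1 [(7,1),(10,1),(0,1)]) .nil)))))))) .nil)))))))) (.cons (.leaf 1 [(1,1)]) (.cons (.leaf 1 [(1,1)]) .nil)))))))) .nil)))))))) (.cons (.keep [1,5,6,8] (.leaf 0 [(1,0)])) (.cons (.keep [1,4,6,8] (.leaf 0 [(2,0)])) (.cons (.leaf 1 []) (.cons (.leaf 1 [(4,1)]) .nil))))))))

theorem e_7_20 : ESB (caseOf 4 7 20) := esb_of_pieces _ (hP_cons E26.c_7_20_8 (hP_cons c_7_20_7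
  (hP_cons c_7_20_6 hP_nil))) t_7_20 (by decide +kernel)

def ks : List (ℕ × ℕ) := [(7, 20)]

theorem ks_ok : ∀ p ∈ ks, ESB (caseOf 4 p.1 p.2) := ks_cons e_7_20 <| ks_nil

end Pool.Agent.H4.RD4.E27
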