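import Pool.Agent.H4.RD4.E28

/-! # Certificates for special cases of order four -/

set_option maxRecDepth 20000

namespace Pool.Agent.H4.RD4.E29

open Pool.Agent.H50.Rdb
open Pool.Agent.H81.RDE (ESB caseOf)

def z_10_24_3 : F := ⟨-1, 0, -1, 0, 3⟩

def h_10_24_3 : List F := [⟨1, 0, -1, 0, 0⟩, ⟨0, -1, 1, 0, 0⟩, ⟨0, 0, 0, -1, 1⟩, ⟨-1, 0, 0, 1, 2⟩]

def t_10_24_3 : T := (.node (.cons (.leaf 1 [(2,3),(8,1),(6,1)]) (.cons (.keep [2,5,6,7,8] (.node (.cons (.leaf 1 [(2,2)]) (.cons (.leaf 1 [(5,2),(9,2),(2,2),(6,1)]) (.cons (.leaf 1 [(7,2),(6,1)]) (.cons (.keep [5,6,7,8,9] (.node (.cons (.leaf 1 [(2,2),(6,1)]) (.cons (.leaf 1 [(2,1),(5,1),(7,1)]) (.cons (.leaf 1 [(6,1)]) (.cons (.keep [5,6,7,8,9] (.node (.cons (.leaf 1 [(2,1),(7,1),(6,1)]) (.cons (.leaf 1 [(2,1),(7,1),(6,1)]) (.cons (.leaf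 1 [(5,2),(7,2),(6,1)]) (.cons (.leaf 1 [(0,2),(7,2),(6,1),(5,2)]) .nil)))))) .nil)))))) .nil)))))) (.cons (.keep [4,5,6,7,8] (.node (.cons (.leaf 1 [(2,1),(7,1)]) (.cons (.keep [0,2,7,8,9] (.node (.cons (.leaf 1 [(2,1)]) (.cons (.keep [0,2,5,6,7] (.node (.cons (.leaf 2 [(2,2),(8,1)]) (.cons (.leaf 2 [(2,1),(9,1),(8,1),(6,1)]) (.cons (.keep [0,6,7,8,9] (.node (.cons (.leaf 1 [(2,1),(8,1)]) (.cons (.keep [0,2,7,8,9] (.node (.cons (.keep [2,4,6,7,8] (.node (.cons (.keep [4,5,7,8,9] (.node (.cons (.leaf 4 [(5,2),(9,3),(7,4)]) (.cons (.keep [0,5,7,8,9] (.node (.cons (.leaf 3 [(9,2),(7,2)]) (.cons (.leaf 4 [(9,3),(7,4),(2,2)]) (.cons (.leaf 2 [(9,1)]) (.cons (.leaf 2 [(3,2),(9,1)]) .nil)))))) (.cons (.leaf 1 [(8,1),(5,1),(1,1)]) (.cons (.leaf 1 [(8,1),(5,1),(3,1),(1,1)]) .nil)))))) (.cons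 (.keep [3,5,7,8,9] (.node (.cons (.leaf 4 [(7,4),(9,3)]) (.cons (.keep [0,5,7,8,9] (.node (.cons (.leaf 3 [(6,1),(9,2),(7,2)]) (.cons (.leaf 4 [(6,2),(9,3),(7,4),(2,2)]) (.cons (.leaf 2 [(9,1)]) (.cons (.leaf 2 [(3,2),(9,1)]) .nil)))))) (.cons (.leaf 1 [(8,1),(1,1)]) (.cons (.leaf 1 [(8,1),(1,1),(3,1)]) .nil)))))) (.cons (.leaf 1 []) (.cons (.leaf 1 [(3,1)]) .nil)))))) (.cons (.keep [0,3,6,7,8] (.node (.cons (.leaf 2 [(7,1),(9,1),(6,1)]) (.cons (.leaf 2 [(7,1),(9,1),(6,1),(3,1)]) (.cons (.leaf 1 []) (.cons (.leaf 1 [(3,1)]) .nil)))))) (.cons (.keep [1,4,5,6,7] (.node (.cons (.keep [2,4,5,7,8] (.node (.cons (.leaf 2 [(6,1),(7,1),(9,2)]) (.cons (.keep [0,5,6,7,9] (.node (.cons (.leaf 3 [(8,2),(9,2)]) (.cons (.leaf 2 [(8,1),(9,2),(2,1)]) (.cons (.leaf 1 [(8,1)]) (.cons (.leaf 1 [(3,1),(8,1)])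 .nil)))))) (.cons (.leaf 2 [(7,1),(6,1),(1,1)]) (.cons (.leaf 2 [(7,1),(6,1),(3,1),(1,1)]) .nil)))))) (.cons (.keep [3,5,7,8,9] (.node (.cons (.leaf 2 [(8,2),(6,1)]) (.cons (.keep [0,5,6,8,9] (.node (.cons (.leaf 3 [(6,1),(7,2),(8,2)]) (.cons (.leaf 2 [(6,1),(7,1),(8,2),(2,1)]) (.cons (.leaf 1 [(7,1)]) (.cons (.leaf 1 [(3,1),(7,1)]) .nil)))))) (.cons (.leaf 2 [(6,1),(1,1)]) (.cons (.leaf 2 [(6,1),(1,1),(3,1)]) .nil)))))) (.cons (.leaf 1 []) (.cons (.leaf 1 [(3,1)]) .nil)))))) (.cons (.keep [5,6,7,8,9] (.node (.cons (.leaf 2 [(5,1),(6,1),(8,2)]) (.cons (.leaf 2 [(5,1),(6,1),(8,2),(3,1)]) (.cons (.leaf 1 []) (.cons (.leaf 1 [(3,1)]) .nil)))))) .nil)))))) (.cons (.leaf 1 [(8,1)]) (.cons (.keep [0,1,7,8,9] (.node (.cons (.keep [2,4,6,7,8] (.node (.cons (.keep [4,5,7,8,9] (.node (.cons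 (.leaf 2 [(6,1),(5,1),(9,2)]) (.cons (.keep [5,6,7,8,9] (.node (.cons (.leaf 3 [(9,2)]) (.cons (.leaf 3 [(9,2),(3,1)]) (.cons (.leaf 1 [(7,2),(1,1)]) (.cons (.leaf 1 [(3,3),(7,2),(1,1)]) .nil)))))) (.cons (.leaf 2 [(7,1),(5,1),(1,1)]) (.cons (.leaf 2 [(7,1),(5,1),(3,2),(1,1)]) .nil)))))) (.cons (.keep [3,5,7,8,9] (.node (.cons (.leaf 2 [(6,1),(9,2)]) (.cons (.keep [5,6,7,8,9] (.node (.cons (.leaf 3 [(5,1),(9,2)]) (.cons (.leaf 3 [(5,1),(9,2),(3,1)]) (.cons (.leaf 2 [(7,1),(9,1)]) (.cons (.leaf 2 [(3,2),(7,1),(9,1)]) .nil)))))) (.cons (.leaf 2 [(7,1),(1,1)]) (.cons (.leaf 2 [(7,1),(1,1),(3,2)]) .nil)))))) (.cons (.leaf 1 []) (.cons (.leaf 1 [(3,1)]) .nil)))))) (.cons (.keep [0,3,6,7,8] (.node (.cons (.leaf 2 [(9,1),(6,1)]) (.cons (.leaf 2 [(9,1),(6,1),(3,1)]) (.cons (.leaf 1 []) (.cons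 (.leaf 1 [(3,1)]) .nil)))))) (.cons (.keep [4,5,6,7,8] (.node (.cons (.keep [4,5,6,7,9] (.node (.cons (.leaf 2 [(7,1),(5,1),(9,2)]) (.cons (.keep [5,6,7,8,9] (.node (.cons (.leaf 3 [(9,2)]) (.cons (.leaf 3 [(9,2),(3,1)]) (.cons (.leaf 1 [(8,1),(9,1)]) (.cons (.leaf 1 [(8,1),(9,1),(3,1)]) .nil)))))) (.cons (.leaf 2 [(9,1),(5,1),(1,1)]) (.cons (.leaf 2 [(9,1),(5,1),(1,1)]) .nil)))))) (.cons (.keep [3,6,7,8,9] (.node (.cons (.leaf 2 [(6,1),(9,2)]) (.cons (.keep [5,6,7,8,9] (.node (.cons (.leaf 3 [(5,1),(9,2)]) (.cons (.leaf 3 [(5,1),(9,2),(3,1)]) (.cons (.leaf 1 [(7,1),(9,1)]) (.cons (.leaf 1 [(7,1),(9,1),(3,1)]) .nil)))))) (.cons (.leaf 2 [(9,1),(1,1)]) (.cons (.leaf 2 [(9,1),(1,1)]) .nil)))))) (.cons (.leaf 1 []) (.cons (.leaf 1 [(3,1)]) .nil)))))) (.cons (.keep [5,6,7,8,9] (.node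 (.cons (.leaf 2 [(5,1),(8,2),(6,1)]) (.cons (.leaf 1 [(5,1),(8,2),(6,1),(2,1)]) (.cons (.leaf 1 []) (.cons (.leaf 1 [(3,1)]) .nil)))))) .nil)))))) .nil)))))) (.cons (.keep [3,6,7,8,9] (.node (.cons (.leaf 1 [(2,1),(6,1),(5,1)]) (.cons (.leaf 1 [(2,1),(6,1),(5,1)]) (.cons (.leaf 1 [(8,1)]) (.cons (.leaf 1 [(0,1),(8,1)]) .nil)))))) .nil)))))) (.cons (.leaf 1 []) (.cons (.keep [0,5,6,7,8,9] (.node (.cons (.leaf 2 [(2,1),(8,1),(7,1)]) (.cons (.leaf 2 [(2,1),(8,1),(7,1)]) (.cons (.keep [4,5,6,7,8] (.node (.cons (.leaf 1 [(2,1),(8,1)]) (.cons (.keep [0,2,7,8,9] (.node (.cons (.keep [0,2,6,7,8] (.node (.cons (.keep [4,6,7,8,9] (.node (.cons (.leaf 1 [(5,1),(8,1),(7,2)]) (.cons (.keep [0,5,7,8,9] (.node (.cons (.leaf 2 [(7,2),(8,1)]) (.cons (.leaf 1 [(7,2),(8,1),(2,1)]) (.cons (.leaf 1 [])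 (.cons (.leaf 1 [(3,1)]) .nil)))))) (.cons (.leaf 2 [(6,1),(5,1),(1,1)]) (.cons (.leaf 2 [(6,1),(5,1),(1,1),(3,1)]) .nil)))))) (.cons (.keep [3,6,7,8,9] (.node (.cons (.leaf 1 [(7,2),(8,1)]) (.cons (.keep [0,5,7,8,9] (.node (.cons (.leaf 2 [(7,2),(6,1),(8,1)]) (.cons (.leaf 1 [(7,2),(6,1),(8,1),(2,1)]) (.cons (.leaf 1 []) (.cons (.leaf 1 [(3,1)]) .nil)))))) (.cons (.leaf 2 [(6,1),(1,1)]) (.cons (.leaf 2 [(6,1),(1,1),(3,1)]) .nil)))))) (.cons (.leaf 1 [(6,1)]) (.cons (.leaf 1 [(3,1),(6,1)]) .nil)))))) (.cons (.keep [3,6,7,8,9] (.node (.cons (.leaf 2 [(6,1)]) (.cons (.leaf 2 [(6,1),(3,1)]) (.cons (.leaf 1 [(9,1)]) (.cons (.leaf 1 [(9,1),(3,1)]) .nil)))))) (.cons (.keep [1,4,5,6,7] (.node (.cons (.keep [2,4,5,7,8] (.node (.cons (.leaf 2 [(6,1),(7,1),(9,2)]) (.cons (.keep [0,5,6,7,9]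 (.node (.cons (.leaf 3 [(8,2),(9,2)]) (.cons (.leaf 2 [(8,1),(9,2),(2,1)]) (.cons (.leaf 1 [(8,1)]) (.cons (.leaf 1 [(3,1),(8,1)]) .nil)))))) (.cons (.leaf 2 [(7,1),(6,1),(1,1)]) (.cons (.leaf 2 [(7,1),(6,1),(3,1),(1,1)]) .nil)))))) (.cons (.keep [3,5,7,8,9] (.node (.cons (.leaf 2 [(8,2),(6,1)]) (.cons (.keep [0,5,6,8,9] (.node (.cons (.leaf 3 [(6,1),(7,2),(8,2)]) (.cons (.leaf 2 [(6,1),(7,1),(8,2),(2,1)]) (.cons (.leaf 1 [(7,1)]) (.cons (.leaf 1 [(3,1),(7,1)]) .nil)))))) (.cons (.leaf 2 [(6,1),(1,1)]) (.cons (.leaf 2 [(6,1),(1,1),(3,1)]) .nil)))))) (.cons (.leaf 1 []) (.cons (.leaf 1 [(3,1)]) .nil)))))) (.cons (.keep [1,5,6,7,9] (.node (.cons (.leaf 2 [(7,1),(5,1)]) (.cons (.leaf 2 [(7,1),(3,1),(5,1)]) (.cons (.leaf 1 [(9,1)]) (.cons (.leaf 1 [(9,1),(3,1)]) .nil)))))) .nil))))))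 (.cons (.leaf 1 [(8,1)]) (.cons (.keep [0,1,7,8,9] (.node (.cons (.keep [0,2,6,7,8] (.node (.cons (.keep [4,6,7,8,9] (.node (.cons (.leaf 2 [(6,1),(5,1),(9,2)]) (.cons (.keep [5,6,7,8,9] (.node (.cons (.leaf 3 [(6,1),(9,2)]) (.cons (.leaf 3 [(6,1),(9,2),(3,1)]) (.cons (.leaf 1 []) (.cons (.leaf 1 [(3,1)]) .nil)))))) (.cons (.leaf 2 [(6,1),(5,1),(1,1)]) (.cons (.leaf 2 [(6,1),(5,1),(1,1),(3,1)]) .nil)))))) (.cons (.keep [3,6,7,8,9] (.node (.cons (.leaf 2 [(6,1),(9,2)]) (.cons (.keep [5,6,7,8,9] (.node (.cons (.leaf 3 [(6,1),(5,1),(9,2)]) (.cons (.leaf 3 [(6,1),(5,1),(9,2),(3,1)]) (.cons (.leaf 1 []) (.cons (.leaf 1 [(3,1)]) .nil)))))) (.cons (.leaf 2 [(6,1),(1,1)]) (.cons (.leaf 2 [(6,1),(1,1),(3,1)]) .nil)))))) (.cons (.leaf 1 [(6,1)]) (.cons (.leaf 1 [(3,1),(6,1)]) .nil)))))) (.cons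 (.keep [3,6,7,8,9] (.node (.cons (.leaf 1 [(2,1),(8,1),(5,1)]) (.cons (.leaf 1 [(2,1),(8,1),(5,1)]) (.cons (.leaf 1 [(9,1)]) (.cons (.leaf 1 [(9,1),(3,1)]) .nil)))))) (.cons (.keep [4,5,6,7,8] (.node (.cons (.keep [4,5,6,7,9] (.node (.cons (.leaf 2 [(7,1),(5,1),(9,2)]) (.cons (.keep [5,6,7,8,9] (.node (.cons (.leaf 3 [(9,2)]) (.cons (.leaf 3 [(9,2),(3,1)]) (.cons (.leaf 1 [(8,1),(9,1)]) (.cons (.leaf 1 [(8,1),(9,1),(3,1)]) .nil)))))) (.cons (.leaf 2 [(9,1),(5,1),(1,1)]) (.cons (.leaf 2 [(9,1),(5,1),(1,1)]) .nil)))))) (.cons (.keep [3,6,7,8,9] (.node (.cons (.leaf 2 [(6,1),(9,2)]) (.cons (.keep [5,6,7,8,9] (.node (.cons (.leaf 3 [(5,1),(9,2)]) (.cons (.leaf 3 [(5,1),(9,2),(3,1)]) (.cons (.leaf 1 [(7,1),(9,1)]) (.cons (.leaf 1 [(7,1),(9,1),(3,1)]) .nil)))))) (.cons (.leaf 2 [(9,1),(1,1)])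 (.cons (.leaf 2 [(9,1),(1,1)]) .nil)))))) (.cons (.leaf 1 []) (.cons (.leaf 1 [(3,1)]) .nil)))))) (.cons (.keep [5,6,7,8,9] (.node (.cons (.leaf 2 [(8,1)]) (.cons (.leaf 2 [(8,1),(3,1)]) (.cons (.leaf 1 [(9,1)]) (.cons (.leaf 1 [(9,1),(3,1)]) .nil)))))) .nil)))))) .nil)))))) (.cons (.keep [3,5,6,7,8,10] (.node (.cons (.leaf 1 [(2,1),(5,1)]) (.cons (.leaf 1 [(2,1),(5,1)]) (.cons (.leaf 1 [(8,1)]) (.cons (.leaf 1 [(9,1),(0,1),(5,1),(8,1)]) .nil)))))) .nil)))))) .nil)))))) (.cons (.leaf 1 [(7,1)]) (.cons (.keep [0,1,7,8,9] (.leaf 0 [(0,0)])) .nil)))))) (.cons (.keep [5,6,7,8] (.node (.cons (.leaf 1 [(2,2),(6,2),(5,1)]) (.cons (.leaf 1 [(2,2),(8,2),(5,1)]) (.cons (.leaf 1 [(6,2),(5,1)]) (.cons (.keep [0,5,6,8] (.node (.cons (.leaf 1 [(6,1),(2,2)]) (.cons (.leaf 1 [(2,1),(7,1)]) (.cons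 (.leaf 1 [(6,1)]) (.cons (.keep [0,5,6,7,8] (.node (.cons (.leaf 1 [(2,1),(8,1),(7,1)]) (.cons (.leaf 1 [(2,1),(8,1),(7,1)]) (.cons (.leaf 1 [(7,1),(8,2),(5,2)]) (.cons (.leaf 1 [(8,2),(7,1),(0,2)]) .nil)))))) .nil)))))) .nil)))))) .nil)))))

theorem c_10_24_3 : Concl 10 24 z_10_24_3 h_10_24_3 .nd := piece _ (hP_cons E28.c_10_24_1 hP_nil)
  t_10_24_3 _ _ (by decide +kernel)

def z_10_24_4 : F := ⟨0, -1, -1, 0, 3⟩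

def h_10_24_4 : List F := [⟨0, 0, 1, -1, 0⟩, ⟨0, 1, -1, 0, 0⟩, ⟨1, -1, 0, 0, 0⟩, ⟨-1, 0, 0, 0, 1⟩]

def t_10_24_4 : T := (.node (.cons (.keep [4,5,6,7,8] (.node (.cons (.leaf 1 [(6,1),(9,1),(2,2)]) (.cons (.keep [5,6,7,8,9] (.node (.cons (.leaf 1 [(2,2),(6,1)]) (.cons (.leaf 1 [(9,1),(2,2),(6,3)]) (.cons (.leaf 1 [(7,1)]) (.cons (.keep [5,6,7,8,9] (.node (.cons (.leaf 1 [(2,1),(6,1),(5,1)]) (.cons (.leaf 1 [(2,1),(5,1),(6,1)]) (.cons (.leaf 1 [(6,2),(7,1)]) (.cons (.keep [3,5,6,7,9] (.node (.cons (.leaf 1 [(2,2),(8,1),(5,2)]) (.cons (.leaf 1 [(2,2),(8,1),(5,2)]) (.cons (.leaf 1 [(6,2),(8,1),(7,2)]) (.cons (.leaf 1 [(0,2),(8,1),(7,4),(6,2)]) .nil)))))) .nil)))))) .nil)))))) (.cons (.leaf 1 [(6,1),(9,1)]) (.cons (.keep [1,5,6,7,8,9] (.node (.cons (.leaf 1 [(2,2),(5,1),(7,1)]) (.cons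 (.leaf 1 [(2,2),(10,1),(5,2),(7,3)]) (.cons (.leaf 1 [(8,1)]) (.cons (.keep [5,6,7,8,9,10] (.node (.cons (.leaf 1 [(2,1)]) (.cons (.leaf 1 [(2,1)]) (.cons (.leaf 1 [(8,1),(7,2)]) (.cons (.keep [0,3,5,7,8,10] (.node (.cons (.leaf 1 [(2,2),(6,2),(9,1)]) (.cons (.leaf 1 [(2,2),(6,2),(9,1)]) (.cons (.leaf 1 [(5,2),(9,1),(8,2)]) (.cons (.leaf 1 [(8,2),(9,1),(0,2)]) .nil)))))) .nil)))))) .nil)))))) .nil)))))) (.cons (.keep [5,6,7,8] (.node (.cons (.leaf 1 [(8,1),(2,3)]) (.cons (.keep [2,5,6,7,8] (.node (.cons (.leaf 1 [(2,2),(6,1)]) (.cons (.leaf 1 [(5,1),(9,1),(2,2),(6,2)]) (.cons (.leaf 1 [(7,1)]) (.cons (.keep [5,6,7,8,9] (.node (.cons (.leaf 1 [(2,1),(5,1)]) (.cons (.leaf 1 [(2,1),(5,1)]) (.cons (.leaf 1 [(6,2),(7,1)]) (.cons (.keep [0,5,6,7,8,9] (.node (.cons (.leaf 1 [(2,2),(8,1),(6,2)])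 (.cons (.leaf 1 [(2,1),(8,1),(7,1)]) (.cons (.leaf 1 [(6,2),(8,1)]) (.cons (.leaf 1 [(0,2),(8,1),(7,2),(6,2)]) .nil)))))) .nil)))))) .nil)))))) (.cons (.keep [4,5,6,7,8] (.node (.cons (.leaf 1 [(2,1)]) (.cons (.keep [2,6,7,8,9] (.node (.cons (.leaf 1 [(2,1),(6,1)]) (.cons (.keep [0,5,6,7,9] (.node (.cons (.leaf 2 [(2,2),(7,2),(6,1)]) (.cons (.leaf 2 [(2,1),(7,2),(6,1),(9,1)]) (.cons (.keep [4,5,6,7,8] (.node (.cons (.leaf 1 [(5,1),(2,1),(7,2)]) (.cons (.keep [0,2,6,7,8,9] (.node (.cons (.keep [2,4,6,8,10] (.node (.cons (.keep [4,5,7,8,9] (.node (.cons (.leaf 4 [(5,2),(8,5),(7,4)]) (.cons (.keep [0,5,7,8,9] (.node (.cons (.leaf 6 [(8,7),(7,4)]) (.cons (.leaf 4 [(8,5),(7,4),(2,2)]) (.cons (.leaf 1 [(8,1)]) (.cons (.leaf 1 [(3,1),(8,1)]) .nil)))))) (.cons (.leaf 4 [(8,3),(5,2),(1,2)])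 (.cons (.leaf 4 [(8,3),(5,2),(3,2),(1,2)]) .nil)))))) (.cons (.keep [3,5,7,8,9] (.node (.cons (.leaf 4 [(7,4),(8,5)]) (.cons (.keep [0,5,7,8,9] (.node (.cons (.leaf 6 [(6,2),(8,7),(7,4)]) (.cons (.leaf 4 [(6,2),(8,5),(7,4),(2,2)]) (.cons (.leaf 1 [(8,1)]) (.cons (.leaf 1 [(3,1),(8,1)]) .nil)))))) (.cons (.leaf 4 [(8,3),(1,2)]) (.cons (.leaf 4 [(8,3),(1,2),(3,2)]) .nil)))))) (.cons (.leaf 2 [(8,1)]) (.cons (.leaf 2 [(8,1),(3,2)]) .nil)))))) (.cons (.keep [0,5,6,8,9,10] (.node (.cons (.leaf 2 [(7,1),(9,4)]) (.cons (.leaf 2 [(7,1),(9,4),(3,1)]) (.cons (.leaf 1 [(9,1)]) (.cons (.leaf 1 [(3,1),(9,1)]) .nil)))))) (.cons (.keep [1,4,5,6,10] (.node (.cons (.keep [2,4,5,7,8] (.node (.cons (.leaf 2 [(6,1),(7,1),(9,2)]) (.cons (.keep [0,5,6,7,9] (.node (.cons (.leaf 3 [(8,2),(9,2)]) (.cons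 (.leaf 2 [(8,1),(9,2),(2,1)]) (.cons (.leaf 1 [(8,1)]) (.cons (.leaf 1 [(3,1),(8,1)]) .nil)))))) (.cons (.leaf 2 [(7,1),(6,1),(1,1)]) (.cons (.leaf 2 [(7,1),(6,1),(3,1),(1,1)]) .nil)))))) (.cons (.keep [3,5,7,8,9] (.node (.cons (.leaf 2 [(8,2),(6,1)]) (.cons (.keep [0,5,6,8,9] (.node (.cons (.leaf 3 [(6,1),(7,2),(8,2)]) (.cons (.leaf 2 [(6,1),(7,1),(8,2),(2,1)]) (.cons (.leaf 1 [(7,1)]) (.cons (.leaf 1 [(3,1),(7,1)]) .nil)))))) (.cons (.leaf 2 [(6,1),(1,1)]) (.cons (.leaf 2 [(6,1),(1,1),(3,1)]) .nil)))))) (.cons (.leaf 1 []) (.cons (.leaf 1 [(3,1)]) .nil)))))) (.cons (.keep [3,5,6,7,8,10] (.node (.cons (.leaf 2 [(7,1),(5,3),(9,1)]) (.cons (.leaf 1 [(7,1),(5,2),(9,1),(2,1)]) (.cons (.leaf 1 [(5,1)]) (.cons (.leaf 1 [(3,1),(5,1)]) .nil)))))) .nil)))))) (.cons (.leaf 1 [(5,1),(7,2),(1,1)])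 (.cons (.keep [0,1,6,7,8,9] (.node (.cons (.keep [2,4,6,8,10] (.node (.cons (.keep [4,5,7,8,9] (.node (.cons (.leaf 2 [(8,3),(5,1),(2,1)]) (.cons (.keep [5,6,7,8,9] (.node (.cons (.leaf 6 [(7,3),(8,7)]) (.cons (.leaf 4 [(7,1),(8,5),(2,2)]) (.cons (.leaf 1 [(7,4),(1,2)]) (.cons (.leaf 1 [(3,5),(7,4),(1,2)]) .nil)))))) (.cons (.leaf 2 [(7,3),(5,1),(1,1)]) (.cons (.leaf 2 [(7,3),(5,1),(3,4),(1,1)]) .nil)))))) (.cons (.keep [3,5,7,8,9] (.node (.cons (.leaf 2 [(8,3),(2,1)]) (.cons (.keep [5,6,7,8,9] (.node (.cons (.leaf 6 [(5,2),(7,3),(8,7)]) (.cons (.leaf 4 [(5,2),(7,1),(8,5),(2,2)]) (.cons (.leaf 1 [(7,1),(8,1)]) (.cons (.leaf 1 [(3,1),(7,1),(8,1)]) .nil)))))) (.cons (.leaf 2 [(7,3),(1,1)]) (.cons (.leaf 2 [(3,4),(7,3),(1,1)]) .nil)))))) (.cons (.leaf 2 [(7,1),(6,1),(1,1)]) (.cons (.leaf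 2 [(7,1),(6,1),(3,3),(1,1)]) .nil)))))) (.cons (.keep [0,5,6,8,9,10] (.node (.cons (.leaf 2 [(6,1),(8,1),(9,4)]) (.cons (.leaf 2 [(6,1),(8,1),(9,4),(3,1)]) (.cons (.leaf 2 [(7,1),(1,1)]) (.cons (.leaf 2 [(7,1),(3,3),(1,1)]) .nil)))))) (.cons (.keep [4,5,6,8,10] (.node (.cons (.keep [4,5,6,7,8] (.node (.cons (.leaf 2 [(7,1),(5,1),(9,2)]) (.cons (.keep [5,6,7,8,9] (.node (.cons (.leaf 3 [(9,2)]) (.cons (.leaf 3 [(9,2),(3,1)]) (.cons (.leaf 1 [(8,1),(9,1)]) (.cons (.leaf 1 [(8,1),(9,1),(3,1)]) .nil)))))) (.cons (.leaf 2 [(9,1),(5,1),(1,1)]) (.cons (.leaf 2 [(9,1),(5,1),(1,1)]) .nil)))))) (.cons (.keep [3,6,7,8,9] (.node (.cons (.leaf 2 [(6,1),(8,2)]) (.cons (.keep [5,6,7,8,9] (.node (.cons (.leaf 3 [(5,1),(8,2)]) (.cons (.leaf 3 [(5,1),(8,2),(3,1)]) (.cons (.leaf 1 [(7,1),(8,1)]) (.cons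 (.leaf 1 [(7,1),(8,1),(3,1)]) .nil)))))) (.cons (.leaf 2 [(8,1),(1,1)]) (.cons (.leaf 2 [(8,1),(1,1)]) .nil)))))) (.cons (.leaf 1 []) (.cons (.leaf 1 [(3,1)]) .nil)))))) (.cons (.keep [3,5,6,7,8,10] (.node (.cons (.leaf 2 [(9,1),(5,3)]) (.cons (.leaf 1 [(2,1),(5,2),(9,1)]) (.cons (.leaf 1 [(5,1)]) (.cons (.leaf 1 [(3,1),(5,1)]) .nil)))))) .nil)))))) .nil)))))) (.cons (.keep [5,6,7,8,9] (.node (.cons (.leaf 1 [(6,2),(2,1)]) (.cons (.leaf 1 [(7,2),(2,1)]) (.cons (.leaf 1 [(1,1),(6,2)]) (.cons (.leaf 1 [(7,2),(0,1),(6,1)]) .nil)))))) .nil)))))) (.cons (.leaf 1 [(6,1)]) (.cons (.keep [1,5,6,7,9] (.node (.cons (.leaf 2 [(2,1),(6,1),(7,1)]) (.cons (.leaf 2 [(2,1),(6,1),(7,1)]) (.cons (.keep [0,5,6,7,8] (.node (.cons (.leaf 1 [(2,1),(8,1),(7,1)]) (.cons (.keep [0,2,6,7,8,9] (.node (.cons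 (.keep [2,4,6,8,10] (.node (.cons (.keep [2,4,5,7,8] (.node (.cons (.leaf 2 [(6,1),(9,3),(8,2)]) (.cons (.keep [0,5,6,8,9] (.node (.cons (.leaf 3 [(9,4),(8,2)]) (.cons (.leaf 2 [(9,3),(8,2),(2,1)]) (.cons (.leaf 1 [(9,1)]) (.cons (.leaf 1 [(3,1),(9,1)]) .nil)))))) (.cons (.leaf 2 [(9,1),(6,1),(1,1)]) (.cons (.leaf 2 [(9,1),(6,1),(3,1),(1,1)]) .nil)))))) (.cons (.keep [3,5,7,8,9] (.node (.cons (.leaf 2 [(7,2),(8,3)]) (.cons (.keep [0,5,7,8,9] (.node (.cons (.leaf 3 [(6,1),(8,4),(7,2)]) (.cons (.leaf 2 [(6,1),(8,3),(7,2),(2,1)]) (.cons (.leaf 1 [(8,1)]) (.cons (.leaf 1 [(3,1),(8,1)]) .nil)))))) (.cons (.leaf 2 [(8,1),(1,1)]) (.cons (.leaf 2 [(8,1),(1,1),(3,1)]) .nil)))))) (.cons (.leaf 1 []) (.cons (.leaf 1 [(3,1)]) .nil)))))) (.cons (.keep [0,3,6,8,10] (.node (.cons (.leaf 2 [(7,1),(8,2),(6,2)])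 (.cons (.leaf 2 [(7,1),(8,2),(6,2),(3,1)]) (.cons (.leaf 1 []) (.cons (.leaf 1 [(3,1)]) .nil)))))) (.cons (.keep [1,4,5,6,10] (.node (.cons (.keep [2,4,5,7,8] (.node (.cons (.leaf 2 [(6,1),(7,1),(9,2)]) (.cons (.keep [0,5,6,7,9] (.node (.cons (.leaf 3 [(8,2),(9,2)]) (.cons (.leaf 2 [(8,1),(9,2),(2,1)]) (.cons (.leaf 1 [(8,1)]) (.cons (.leaf 1 [(3,1),(8,1)]) .nil)))))) (.cons (.leaf 2 [(7,1),(6,1),(1,1)]) (.cons (.leaf 2 [(7,1),(6,1),(3,1),(1,1)]) .nil)))))) (.cons (.keep [3,5,7,8,9] (.node (.cons (.leaf 2 [(8,2),(6,1)]) (.cons (.keep [0,5,6,8,9] (.node (.cons (.leaf 3 [(6,1),(7,2),(8,2)]) (.cons (.leaf 2 [(6,1),(7,1),(8,2),(2,1)]) (.cons (.leaf 1 [(7,1)]) (.cons (.leaf 1 [(3,1),(7,1)]) .nil)))))) (.cons (.leaf 2 [(6,1),(1,1)]) (.cons (.leaf 2 [(6,1),(1,1),(3,1)]) .nil)))))) (.cons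 (.leaf 1 []) (.cons (.leaf 1 [(3,1)]) .nil)))))) (.cons (.keep [1,3,5,6,7,10] (.node (.cons (.leaf 2 [(8,1),(5,1),(6,2)]) (.cons (.leaf 2 [(8,1),(5,1),(6,2),(3,1)]) (.cons (.leaf 1 []) (.cons (.leaf 1 [(3,1)]) .nil)))))) .nil)))))) (.cons (.leaf 1 [(7,1),(8,1)]) (.cons (.keep [0,1,6,7,8,9] (.node (.cons (.keep [2,4,6,8,10] (.node (.cons (.keep [4,5,6,7,8] (.node (.cons (.leaf 2 [(9,3),(5,1),(8,1)]) (.cons (.keep [5,6,7,8,9] (.node (.cons (.leaf 3 [(8,2),(9,4)]) (.cons (.leaf 2 [(8,1),(9,3),(2,1)]) (.cons (.leaf 1 [(8,2),(1,1)]) (.cons (.leaf 1 [(3,3),(8,2),(1,1)]) .nil)))))) (.cons (.leaf 2 [(8,1),(5,1),(1,1)]) (.cons (.leaf 2 [(8,1),(5,1),(3,2),(1,1)]) .nil)))))) (.cons (.keep [3,5,7,8,9] (.node (.cons (.leaf 2 [(8,3),(7,1)]) (.cons (.keep [5,6,7,8,9] (.node (.cons (.leaf 3 [(5,1),(7,2),(8,4)])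 (.cons (.leaf 2 [(5,1),(7,1),(8,3),(2,1)]) (.cons (.leaf 1 [(7,1),(8,1)]) (.cons (.leaf 1 [(3,1),(7,1),(8,1)]) .nil)))))) (.cons (.leaf 2 [(7,1),(1,1)]) (.cons (.leaf 2 [(7,1),(1,1),(3,2)]) .nil)))))) (.cons (.leaf 1 []) (.cons (.leaf 1 [(3,1)]) .nil)))))) (.cons (.keep [0,3,6,8,10] (.node (.cons (.leaf 2 [(6,2),(8,2),(7,1)]) (.cons (.leaf 2 [(6,2),(8,2),(7,1),(3,1)]) (.cons (.leaf 1 []) (.cons (.leaf 1 [(3,1)]) .nil)))))) (.cons (.keep [4,5,6,8,10] (.node (.cons (.keep [4,5,6,7,8] (.node (.cons (.leaf 2 [(7,1),(5,1),(9,2)]) (.cons (.keep [5,6,7,8,9] (.node (.cons (.leaf 3 [(9,2)]) (.cons (.leaf 3 [(9,2),(3,1)]) (.cons (.leaf 1 [(8,1),(9,1)]) (.cons (.leaf 1 [(8,1),(9,1),(3,1)]) .nil)))))) (.cons (.leaf 2 [(9,1),(5,1),(1,1)]) (.cons (.leaf 2 [(9,1),(5,1),(1,1)]) .nil)))))) (.cons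 (.keep [3,6,7,8,9] (.node (.cons (.leaf 2 [(6,1),(8,2)]) (.cons (.keep [5,6,7,8,9] (.node (.cons (.leaf 3 [(5,1),(8,2)]) (.cons (.leaf 3 [(5,1),(8,2),(3,1)]) (.cons (.leaf 1 [(7,1),(8,1)]) (.cons (.leaf 1 [(7,1),(8,1),(3,1)]) .nil)))))) (.cons (.leaf 2 [(8,1),(1,1)]) (.cons (.leaf 2 [(8,1),(1,1)]) .nil)))))) (.cons (.leaf 1 []) (.cons (.leaf 1 [(3,1)]) .nil)))))) (.cons (.keep [3,5,6,7,8,10] (.node (.cons (.leaf 2 [(5,2),(9,1)]) (.cons (.leaf 1 [(2,1),(9,1),(5,2)]) (.cons (.leaf 1 []) (.cons (.leaf 1 [(3,1)]) .nil)))))) .nil)))))) .nil)))))) (.cons (.keep [0,5,6,7,8] (.node (.cons (.leaf 1 [(2,1),(8,1),(7,1)]) (.cons (.leaf 1 [(6,1),(2,1),(8,2)]) (.cons (.leaf 1 [(7,1),(8,1)]) (.cons (.leaf 1 [(6,1),(0,1),(8,2),(7,1)]) .nil)))))) .nil)))))) .nil)))))) (.cons (.leaf 1 []) (.cons (.keep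 [1,3,5,6,8,9] (.leaf 0 [(0,0)])) .nil)))))) (.cons (.keep [5,6,7,8] (.node (.cons (.leaf 1 [(2,2),(6,1)]) (.cons (.leaf 1 [(2,2),(8,2),(6,1),(5,2)]) (.cons (.leaf 1 [(6,1)]) (.cons (.keep [0,5,6,8] (.node (.cons (.leaf 1 [(2,1)]) (.cons (.leaf 1 [(2,1)]) (.cons (.leaf 1 [(7,1),(6,2)]) (.cons (.keep [0,5,6,7,8] (.node (.cons (.leaf 1 [(2,1),(7,1),(8,1)]) (.cons (.leaf 1 [(2,1),(7,1),(8,1)]) (.cons (.leaf 1 [(7,2),(5,2),(8,1)]) (.cons (.leaf 1 [(7,2),(8,1),(0,2)]) .nil)))))) .nil)))))) .nil)))))) .nil)))))) (.cons (.keep [1,4,5,6,7] (.node (.cons (.leaf 1 [(7,1),(5,1),(2,2)]) (.cons (.keep [5,6,7,8,9] (.node (.cons (.leaf 1 [(2,2),(7,1)]) (.cons (.leaf 1 [(5,1),(2,2),(7,3)]) (.cons (.leaf 1 [(8,1)]) (.cons (.keep [5,6,7,8,9] (.node (.cons (.leaf 1 [(2,1),(7,1),(6,1)]) (.cons (.leaf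 1 [(2,1),(6,1),(7,1)]) (.cons (.leaf 1 [(7,2),(8,1)]) (.cons (.keep [5,6,7,8,9] (.node (.cons (.leaf 1 [(2,1),(8,1),(7,1)]) (.cons (.leaf 1 [(2,1),(8,1),(7,1)]) (.cons (.leaf 1 [(6,2),(8,1),(7,2)]) (.cons (.leaf 1 [(0,2),(8,1),(7,4),(6,2)]) .nil)))))) .nil)))))) .nil)))))) (.cons (.leaf 1 [(7,1),(5,1)]) (.cons (.keep [1,3,5,6,7,8] (.node (.cons (.leaf 1 [(2,2),(5,1),(9,1)]) (.cons (.leaf 1 [(2,2),(7,1),(5,2),(9,3)]) (.cons (.leaf 1 [(10,1)]) (.cons (.keep [5,6,7,8,9,10] (.node (.cons (.leaf 1 [(2,1)]) (.cons (.leaf 1 [(2,1)]) (.cons (.leaf 1 [(10,1),(9,2)]) (.cons (.keep [0,5,6,7,9,10] (.node (.cons (.leaf 1 [(2,1),(9,1),(10,1)]) (.cons (.leaf 1 [(2,1),(9,1),(10,1)]) (.cons (.leaf 1 [(5,2),(10,1),(9,2)]) (.cons (.leaf 1 [(9,2),(10,1),(0,2)]) .nil)))))) .nil)))))) .nil)))))) .nil))))))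 (.cons (.keep [1,3,5,6,7] (.node (.cons (.leaf 1 [(6,1),(5,1),(2,3)]) (.cons (.keep [2,5,6,8,9] (.node (.cons (.leaf 1 [(2,2),(7,1),(5,1)]) (.cons (.leaf 1 [(5,3),(6,1),(2,2),(7,3)]) (.cons (.leaf 1 [(8,1)]) (.cons (.keep [5,6,7,8,9] (.node (.cons (.leaf 1 [(2,1),(5,1)]) (.cons (.leaf 1 [(2,1),(5,1)]) (.cons (.leaf 1 [(7,2),(5,2),(8,1)]) (.cons (.keep [5,6,7,8,9] (.node (.cons (.leaf 1 [(2,2),(8,1),(5,2)]) (.cons (.leaf 1 [(2,1),(8,1),(7,1),(5,1)]) (.cons (.leaf 1 [(5,2),(8,1)]) (.cons (.leaf 1 [(0,2),(8,1),(7,2),(5,4)]) .nil)))))) .nil)))))) .nil)))))) (.cons (.leaf 1 [(7,1),(5,1)]) (.cons (.keep [5,6,7,8,9] (.node (.cons (.leaf 1 [(2,2),(6,1)]) (.cons (.leaf 1 [(2,2),(5,1),(6,2),(7,1)]) (.cons (.leaf 1 [(8,1)]) (.cons (.keep [5,6,7,8,9] (.node (.cons (.leaf 1 [(2,1)]) (.cons (.leaf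 1 [(2,1)]) (.cons (.leaf 1 [(8,1),(7,2)]) (.cons (.keep [0,5,6,7,8,9] (.node (.cons (.leaf 1 [(7,2),(9,1)]) (.cons (.leaf 1 [(3,2),(7,2),(9,1)]) (.cons (.leaf 1 [(8,2),(5,2),(9,1)]) (.cons (.leaf 1 [(8,2),(9,1),(0,2)]) .nil)))))) .nil)))))) .nil)))))) .nil)))))) .nil)))))

theorem c_10_24_4 : Concl 10 24 z_10_24_4 h_10_24_4 .nd := piece _ (hP_cons E28.c_10_24_0 hP_nil)
  t_10_24_4 _ _ (by decide +kernel)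

def z_10_24_7 : F := ⟨0, 0, -1, -1, 3⟩

def h_10_24_7 : List F := [⟨0, 0, -1, -2, 3⟩, ⟨1, 0, -1, 0, 0⟩, ⟨0, 0, -1, 1, 0⟩, ⟨1, -1, 0, -1,
  1⟩, ⟨0, -1, 1, 0, 0⟩, ⟨-1, 0, 0, 0, 1⟩]

def t_10_24_7 : T := (.node (.cons (.keep [2,4,7,8,9] (.node (.cons (.leaf 1 [(2,1),(6,1),(9,2)]) (.cons (.keep [5,6,7,8,9] (.node (.cons (.leaf 1 [(7,1),(2,2)]) (.cons (.leaf 1 [(2,2),(9,3),(5,1)]) (.cons (.leaf 1 [(7,1)]) (.cons (.keep [5,6,7,8,9] (.node (.cons (.leaf 1 [(2,2),(9,1),(5,1)]) (.cons (.leaf 1 [(2,1),(9,1),(6,1)]) (.cons (.leaf 1 [(9,1),(5,1)]) (.cons (.keep [3,5,6,7,9] (.node (.cons (.leaf 1 [(2,1)]) (.cons (.leaf 1 [(2,1)]) (.cons (.leaf 1 [(9,1),(7,2),(6,1)]) (.cons (.leaf 1 [(9,3),(0,2),(6,1),(7,2)]) .nil)))))) .nil)))))) .nil)))))) (.cons (.leaf 1 [(9,2),(6,1),(1,1)]) (.cons (.keep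 [1,5,6,8,9] (.node (.cons (.leaf 1 [(7,1),(5,1),(2,2)]) (.cons (.leaf 1 [(2,2),(5,2),(9,3),(6,1)]) (.cons (.leaf 1 [(7,1),(5,1)]) (.cons (.keep [5,6,7,8,9] (.node (.cons (.leaf 2 [(2,3),(9,1)]) (.cons (.leaf 1 [(2,1),(5,1),(9,1),(7,1)]) (.cons (.leaf 1 [(6,1),(9,1)]) (.cons (.keep [3,5,6,7,9] (.node (.cons (.leaf 1 [(2,1)]) (.cons (.leaf 1 [(2,1)]) (.cons (.leaf 1 [(9,1),(8,2),(7,1)]) (.cons (.leaf 1 [(6,1),(0,2),(9,2),(8,1)]) .nil)))))) .nil)))))) .nil)))))) .nil)))))) (.cons (.keep [2,6,7,9,10] (.node (.cons (.leaf 1 [(2,2),(7,1),(8,2)]) (.cons (.keep [2,5,6,7,9] (.node (.cons (.leaf 1 [(8,1),(2,2)]) (.cons (.leaf 1 [(2,2),(6,1),(9,3),(5,3)]) (.cons (.leaf 1 [(8,1)]) (.cons (.keep [5,6,7,8,9] (.node (.cons (.leaf 2 [(2,3),(9,1),(5,2)]) (.cons (.leaf 1 [(2,1),(9,1),(5,2),(8,1)])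 (.cons (.leaf 1 [(9,1),(5,1),(6,1)]) (.cons (.keep [5,6,7,8,9] (.node (.cons (.leaf 1 [(2,1)]) (.cons (.leaf 1 [(2,1)]) (.cons (.leaf 1 [(5,2),(8,1)]) (.cons (.leaf 1 [(9,2),(8,1),(0,2),(5,4)]) .nil)))))) .nil)))))) .nil)))))) (.cons (.leaf 1 [(8,2),(7,1)]) (.cons (.keep [5,6,7,8,9] (.node (.cons (.leaf 1 [(7,1),(2,2)]) (.cons (.leaf 1 [(2,2),(9,2),(8,1),(5,1)]) (.cons (.leaf 1 [(7,1)]) (.cons (.keep [5,6,7,8,9] (.node (.cons (.leaf 2 [(2,3),(8,1)]) (.cons (.leaf 1 [(2,1),(7,1),(8,1)]) (.cons (.leaf 1 [(5,1),(8,1)]) (.cons (.keep [0,5,6,7,8,9] (.node (.cons (.leaf 1 [(2,1)]) (.cons (.leaf 1 [(2,1)]) (.cons (.leaf 1 [(9,2),(8,1),(5,2)]) (.cons (.leaf 1 [(0,2),(8,1),(9,2)]) .nil)))))) .nil)))))) .nil)))))) .nil)))))) (.cons (.keep [4,5,7,9] (.node (.cons (.leaf 1 [(2,1),(5,1),(8,2)])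 (.cons (.keep [0,2,6,7,8] (.node (.cons (.leaf 1 [(8,1),(2,2)]) (.cons (.keep [0,2,6,8,9] (.node (.cons (.leaf 2 [(2,4),(7,1)]) (.cons (.leaf 1 [(8,3),(2,2),(7,2)]) (.cons (.keep [0,6,7,8,9] (.node (.cons (.leaf 1 [(2,1),(7,1)]) (.cons (.keep [0,2,7,8,9] (.node (.cons (.keep [2,4,6,7,8] (.node (.cons (.keep [2,4,5,7,8] (.node (.cons (.leaf 4 [(6,2),(9,3),(8,4)]) (.cons (.keep [0,5,6,8,9] (.node (.cons (.leaf 3 [(9,2),(8,2)]) (.cons (.leaf 4 [(9,3),(8,4),(2,2)]) (.cons (.leaf 2 [(9,1)]) (.cons (.leaf 2 [(3,2),(9,1)]) .nil)))))) (.cons (.leaf 4 [(9,1),(6,2),(1,2)]) (.cons (.leaf 4 [(9,1),(6,2),(3,2),(1,2)]) .nil)))))) (.cons (.keep [3,5,7,8,9] (.node (.cons (.leaf 4 [(7,4),(8,3)]) (.cons (.keep [0,5,7,8,9] (.node (.cons (.leaf 3 [(6,1),(8,2),(7,2)]) (.cons (.leaf 4 [(6,2),(8,3),(7,4),(2,2)])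 (.cons (.leaf 2 [(8,1)]) (.cons (.leaf 2 [(3,2),(8,1)]) .nil)))))) (.cons (.leaf 4 [(8,1),(1,2)]) (.cons (.leaf 4 [(8,1),(1,2),(3,2)]) .nil)))))) (.cons (.leaf 1 []) (.cons (.leaf 1 [(3,1)]) .nil)))))) (.cons (.keep [0,3,6,7,8] (.node (.cons (.leaf 2 [(7,1),(8,1),(6,1)]) (.cons (.leaf 2 [(7,1),(8,1),(6,1),(3,1)]) (.cons (.leaf 1 []) (.cons (.leaf 1 [(3,1)]) .nil)))))) (.cons (.keep [1,4,5,6,8] (.node (.cons (.keep [2,4,5,7,8] (.node (.cons (.leaf 2 [(6,1),(7,1),(9,2)]) (.cons (.keep [0,5,6,7,9] (.node (.cons (.leaf 3 [(8,2),(9,2)]) (.cons (.leaf 2 [(8,1),(9,2),(2,1)]) (.cons (.leaf 1 [(8,1)]) (.cons (.leaf 1 [(3,1),(8,1)]) .nil)))))) (.cons (.leaf 2 [(7,1),(6,1),(1,1)]) (.cons (.leaf 2 [(7,1),(6,1),(3,1),(1,1)]) .nil)))))) (.cons (.keep [3,5,7,8,9] (.node (.cons (.leaf 2 [(8,2),(6,1)])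 (.cons (.keep [0,5,6,8,9] (.node (.cons (.leaf 3 [(6,1),(7,2),(8,2)]) (.cons (.leaf 2 [(6,1),(7,1),(8,2),(2,1)]) (.cons (.leaf 1 [(7,1)]) (.cons (.leaf 1 [(3,1),(7,1)]) .nil)))))) (.cons (.leaf 2 [(6,1),(1,1)]) (.cons (.leaf 2 [(6,1),(1,1),(3,1)]) .nil)))))) (.cons (.leaf 1 []) (.cons (.leaf 1 [(3,1)]) .nil)))))) (.cons (.keep [5,6,7,8,9] (.node (.cons (.leaf 2 [(5,1),(6,1),(7,2)]) (.cons (.leaf 2 [(5,1),(6,1),(7,2),(3,1)]) (.cons (.leaf 1 []) (.cons (.leaf 1 [(3,1)]) .nil)))))) .nil)))))) (.cons (.leaf 1 [(7,1)]) (.cons (.keep [0,1,7,8,9] (.node (.cons (.keep [2,4,6,7,8] (.node (.cons (.keep [4,5,6,7,8] (.node (.cons (.leaf 2 [(6,1),(5,1),(9,2)]) (.cons (.keep [5,6,7,8,9] (.node (.cons (.leaf 3 [(9,2)]) (.cons (.leaf 3 [(9,2),(3,1)]) (.cons (.leaf 1 [(8,2),(1,1)]) (.cons (.leaf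 1 [(3,3),(8,2),(1,1)]) .nil)))))) (.cons (.leaf 2 [(8,1),(5,1),(1,1)]) (.cons (.leaf 2 [(8,1),(5,1),(3,2),(1,1)]) .nil)))))) (.cons (.keep [3,5,7,8,9] (.node (.cons (.leaf 2 [(6,1),(8,2)]) (.cons (.keep [5,6,7,8,9] (.node (.cons (.leaf 3 [(5,1),(8,2)]) (.cons (.leaf 3 [(5,1),(8,2),(3,1)]) (.cons (.leaf 2 [(7,1),(8,1)]) (.cons (.leaf 2 [(3,2),(7,1),(8,1)]) .nil)))))) (.cons (.leaf 2 [(7,1),(1,1)]) (.cons (.leaf 2 [(7,1),(1,1),(3,2)]) .nil)))))) (.cons (.leaf 1 []) (.cons (.leaf 1 [(3,1)]) .nil)))))) (.cons (.keep [0,3,6,7,8] (.node (.cons (.leaf 2 [(8,1),(6,1)]) (.cons (.leaf 2 [(8,1),(6,1),(3,1)]) (.cons (.leaf 1 []) (.cons (.leaf 1 [(3,1)]) .nil)))))) (.cons (.keep [4,5,6,7,8] (.node (.cons (.keep [4,5,6,7,8] (.node (.cons (.leaf 2 [(7,1),(5,1),(9,2)]) (.cons (.keep [5,6,7,8,9]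 (.node (.cons (.leaf 3 [(9,2)]) (.cons (.leaf 3 [(9,2),(3,1)]) (.cons (.leaf 1 [(8,1),(9,1)]) (.cons (.leaf 1 [(8,1),(9,1),(3,1)]) .nil)))))) (.cons (.leaf 2 [(9,1),(5,1),(1,1)]) (.cons (.leaf 2 [(9,1),(5,1),(1,1)]) .nil)))))) (.cons (.keep [3,6,7,8,9] (.node (.cons (.leaf 2 [(6,1),(8,2)]) (.cons (.keep [5,6,7,8,9] (.node (.cons (.leaf 3 [(5,1),(8,2)]) (.cons (.leaf 3 [(5,1),(8,2),(3,1)]) (.cons (.leaf 1 [(7,1),(8,1)]) (.cons (.leaf 1 [(7,1),(8,1),(3,1)]) .nil)))))) (.cons (.leaf 2 [(8,1),(1,1)]) (.cons (.leaf 2 [(8,1),(1,1)]) .nil)))))) (.cons (.leaf 1 []) (.cons (.leaf 1 [(3,1)]) .nil)))))) (.cons (.keep [5,6,7,8,9] (.node (.cons (.leaf 2 [(5,1),(7,2),(6,1)]) (.cons (.leaf 1 [(5,1),(7,2),(6,1),(2,1)]) (.cons (.leaf 1 []) (.cons (.leaf 1 [(3,1)]) .nil)))))) .nil)))))) .nil))))))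 (.cons (.keep [0,6,7,8,9] (.node (.cons (.leaf 1 [(2,1),(6,1)]) (.cons (.leaf 1 [(2,1),(6,1)]) (.cons (.leaf 1 [(8,1),(7,2)]) (.cons (.leaf 1 [(9,2),(6,2),(0,1),(7,1)]) .nil)))))) .nil)))))) (.cons (.leaf 1 [(8,1)]) (.cons (.keep [0,6,8,9] (.node (.cons (.leaf 2 [(2,3),(8,1),(6,1)]) (.cons (.leaf 1 [(2,1),(8,1),(6,1),(7,1)]) (.cons (.keep [4,5,6,7,8] (.node (.cons (.leaf 1 [(2,1),(7,1)]) (.cons (.keep [0,2,7,8,9] (.node (.cons (.keep [0,2,6,7,8] (.node (.cons (.keep [4,6,7,8,9] (.node (.cons (.leaf 2 [(5,1),(8,1),(7,2)]) (.cons (.keep [0,5,7,8,9] (.node (.cons (.leaf 3 [(7,2),(8,1)]) (.cons (.leaf 2 [(7,2),(8,1),(2,1)]) (.cons (.leaf 1 []) (.cons (.leaf 1 [(3,1)]) .nil)))))) (.cons (.leaf 2 [(6,1),(5,1),(1,1)]) (.cons (.leaf 2 [(6,1),(5,1),(1,1),(3,1)]) .nil)))))) (.cons (.keep [3,6,7,8,9]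 (.node (.cons (.leaf 2 [(7,2),(8,1)]) (.cons (.keep [0,5,7,8,9] (.node (.cons (.leaf 3 [(7,2),(6,1),(8,1)]) (.cons (.leaf 2 [(7,2),(6,1),(8,1),(2,1)]) (.cons (.leaf 1 []) (.cons (.leaf 1 [(3,1)]) .nil)))))) (.cons (.leaf 2 [(6,1),(1,1)]) (.cons (.leaf 2 [(6,1),(1,1),(3,1)]) .nil)))))) (.cons (.leaf 1 [(6,1)]) (.cons (.leaf 1 [(3,1),(6,1)]) .nil)))))) (.cons (.keep [3,6,7,8,9] (.node (.cons (.leaf 2 [(6,1)]) (.cons (.leaf 2 [(6,1),(3,1)]) (.cons (.leaf 1 [(9,1)]) (.cons (.leaf 1 [(9,1),(3,1)]) .nil)))))) (.cons (.keep [1,4,5,6,8] (.node (.cons (.keep [2,4,5,7,8] (.node (.cons (.leaf 2 [(6,1),(7,1),(9,2)]) (.cons (.keep [0,5,6,7,9] (.node (.cons (.leaf 3 [(8,2),(9,2)]) (.cons (.leaf 2 [(8,1),(9,2),(2,1)]) (.cons (.leaf 1 [(8,1)]) (.cons (.leaf 1 [(3,1),(8,1)]) .nil)))))) (.cons (.leaf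 2 [(7,1),(6,1),(1,1)]) (.cons (.leaf 2 [(7,1),(6,1),(3,1),(1,1)]) .nil)))))) (.cons (.keep [3,5,7,8,9] (.node (.cons (.leaf 2 [(8,2),(6,1)]) (.cons (.keep [0,5,6,8,9] (.node (.cons (.leaf 3 [(6,1),(7,2),(8,2)]) (.cons (.leaf 2 [(6,1),(7,1),(8,2),(2,1)]) (.cons (.leaf 1 [(7,1)]) (.cons (.leaf 1 [(3,1),(7,1)]) .nil)))))) (.cons (.leaf 2 [(6,1),(1,1)]) (.cons (.leaf 2 [(6,1),(1,1),(3,1)]) .nil)))))) (.cons (.leaf 1 []) (.cons (.leaf 1 [(3,1)]) .nil)))))) (.cons (.keep [1,5,6,8,9] (.node (.cons (.leaf 2 [(7,1),(5,1)]) (.cons (.leaf 2 [(7,1),(3,1),(5,1)]) (.cons (.leaf 1 [(9,1)]) (.cons (.leaf 1 [(9,1),(3,1)]) .nil)))))) .nil)))))) (.cons (.leaf 1 [(7,1)]) (.cons (.keep [0,1,7,8,9] (.node (.cons (.keep [0,2,6,7,8] (.node (.cons (.keep [4,6,7,8,9] (.node (.cons (.leaf 2 [(6,1),(5,1),(8,2)])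 (.cons (.keep [5,6,7,8,9] (.node (.cons (.leaf 3 [(6,1),(8,2)]) (.cons (.leaf 3 [(6,1),(8,2),(3,1)]) (.cons (.leaf 1 []) (.cons (.leaf 1 [(3,1)]) .nil)))))) (.cons (.leaf 2 [(6,1),(5,1),(1,1)]) (.cons (.leaf 2 [(6,1),(5,1),(1,1),(3,1)]) .nil)))))) (.cons (.keep [3,6,7,8,9] (.node (.cons (.leaf 2 [(6,1),(8,2)]) (.cons (.keep [5,6,7,8,9] (.node (.cons (.leaf 3 [(6,1),(5,1),(8,2)]) (.cons (.leaf 3 [(6,1),(5,1),(8,2),(3,1)]) (.cons (.leaf 1 []) (.cons (.leaf 1 [(3,1)]) .nil)))))) (.cons (.leaf 2 [(6,1),(1,1)]) (.cons (.leaf 2 [(6,1),(1,1),(3,1)]) .nil)))))) (.cons (.leaf 1 [(6,1)]) (.cons (.leaf 1 [(3,1),(6,1)]) .nil)))))) (.cons (.keep [3,6,7,8,9] (.node (.cons (.leaf 1 [(2,1),(7,1),(5,1)]) (.cons (.leaf 1 [(2,1),(7,1),(5,1)]) (.cons (.leaf 1 [(9,1)]) (.cons (.leaf 1 [(9,1),(3,1)])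 .nil)))))) (.cons (.keep [4,5,6,7,8] (.node (.cons (.keep [4,5,6,7,8] (.node (.cons (.leaf 2 [(7,1),(5,1),(9,2)]) (.cons (.keep [5,6,7,8,9] (.node (.cons (.leaf 3 [(9,2)]) (.cons (.leaf 3 [(9,2),(3,1)]) (.cons (.leaf 1 [(8,1),(9,1)]) (.cons (.leaf 1 [(8,1),(9,1),(3,1)]) .nil)))))) (.cons (.leaf 2 [(9,1),(5,1),(1,1)]) (.cons (.leaf 2 [(9,1),(5,1),(1,1)]) .nil)))))) (.cons (.keep [3,6,7,8,9] (.node (.cons (.leaf 2 [(6,1),(8,2)]) (.cons (.keep [5,6,7,8,9] (.node (.cons (.leaf 3 [(5,1),(8,2)]) (.cons (.leaf 3 [(5,1),(8,2),(3,1)]) (.cons (.leaf 1 [(7,1),(8,1)]) (.cons (.leaf 1 [(7,1),(8,1),(3,1)]) .nil)))))) (.cons (.leaf 2 [(8,1),(1,1)]) (.cons (.leaf 2 [(8,1),(1,1)]) .nil)))))) (.cons (.leaf 1 []) (.cons (.leaf 1 [(3,1)]) .nil)))))) (.cons (.keep [5,6,7,8,9] (.node (.cons (.leaf 2 [(7,1)])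 (.cons (.leaf 2 [(7,1),(3,1)]) (.cons (.leaf 1 [(9,1)]) (.cons (.leaf 1 [(9,1),(3,1)]) .nil)))))) .nil)))))) .nil)))))) (.cons (.keep [0,5,6,7,8] (.node (.cons (.leaf 1 [(2,1)]) (.cons (.leaf 1 [(2,1)]) (.cons (.leaf 1 [(7,2),(8,1)]) (.cons (.leaf 1 [(9,2),(8,1),(0,2),(7,2)]) .nil)))))) .nil)))))) .nil)))))) (.cons (.leaf 1 [(8,2),(5,1),(1,1)]) (.cons (.keep [0,1,5,6,8] (.leaf 0 [(0,0)])) .nil)))))) (.cons (.keep [0,3,6,7,9] (.node (.cons (.leaf 1 [(2,2),(7,1),(9,3)]) (.cons (.keep [0,2,6,8,9] (.node (.cons (.leaf 1 [(8,1),(2,2)]) (.cons (.leaf 1 [(2,2),(7,1),(9,2),(6,1)]) (.cons (.leaf 1 [(8,1)]) (.cons (.keep [0,6,7,8,9] (.node (.cons (.leaf 1 [(2,2),(7,1),(6,1)]) (.cons (.leaf 1 [(2,1),(9,1),(6,1),(8,1)]) (.cons (.leaf 1 [(7,1),(6,1)]) (.cons (.keep [0,5,6,7,8,9] (.node (.cons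 (.leaf 1 [(2,1)]) (.cons (.leaf 1 [(2,1)]) (.cons (.leaf 1 [(7,2),(9,1)]) (.cons (.leaf 1 [(10,2),(9,1),(0,2),(7,2)]) .nil)))))) .nil)))))) .nil)))))) (.cons (.leaf 1 [(9,3),(7,1),(1,1)]) (.cons (.keep [0,6,7,8,9] (.node (.cons (.leaf 1 [(8,1),(2,2)]) (.cons (.leaf 1 [(2,2),(8,1),(9,2),(6,2)]) (.cons (.leaf 1 [(8,1)]) (.cons (.keep [0,6,8,9] (.node (.cons (.leaf 2 [(2,3),(8,1)]) (.cons (.leaf 1 [(2,1),(7,1),(8,1)]) (.cons (.leaf 1 [(6,1),(8,1),(5,1)]) (.cons (.keep [0,5,6,7,8] (.node (.cons (.leaf 1 [(2,1)]) (.cons (.leaf 1 [(2,1)]) (.cons (.leaf 1 [(9,2),(8,1),(5,2)]) (.cons (.leaf 1 [(0,2),(8,1),(9,2)]) .nil)))))) .nil)))))) .nil)))))) .nil)))))) .nil)))))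

theorem c_10_24_7 : Concl 10 24 z_10_24_7 h_10_24_7 .nd := piece _ (hP_cons E28.c_10_24_5 hP_nil)
  t_10_24_7 _ _ (by decide +kernel)

def z_10_24_8 : F := ⟨1, -1, 0, -1, 2⟩

def h_10_24_8 : List F := [⟨1, -1, 0, -2, 2⟩, ⟨1, 0, -1, 0, 0⟩, ⟨0, 0, -1, 1, 0⟩, ⟨1, -1, 0, -1,
  1⟩, ⟨0, 1, -1, 0, 0⟩, ⟨0, -1, 0, 0, 1⟩, ⟨0, -1, 0, -1, 2⟩]

def t_10_24_8 : T := (.node (.cons (.keep [2,4,7,10] (.node (.cons (.keep [2,4,5,7,8] (.node (.cons (.leaf 1 [(2,2),(8,2)]) (.cons (.keep [0,5,6,8,9] (.node (.cons (.leaf 1 [(2,2)]) (.cons (.leaf 1 [(2,2),(8,4),(6,2)]) (.cons (.leaf 1 []) (.cons (.keep [0,6,7,8,9] (.node (.cons (.leaf 1 [(2,2),(8,2),(6,2)]) (.cons (.leaf 1 [(2,1),(8,2),(7,1),(6,1)]) (.cons (.leaf 1 [(8,2),(6,2)]) (.cons (.keep [0,5,6,7,8] (.node (.cons (.leaf 1 [(9,1),(2,1),(7,1)]) (.cons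 (.leaf 1 [(9,1),(2,1),(7,1)]) (.cons (.leaf 1 [(9,2),(8,2),(7,2)]) (.cons (.leaf 1 [(9,6),(0,2),(7,4),(8,2)]) .nil)))))) .nil)))))) .nil)))))) (.cons (.leaf 1 [(8,2)]) (.cons (.keep [1,5,6,7,8] (.node (.cons (.leaf 1 [(2,2)]) (.cons (.leaf 1 [(2,2),(5,2),(9,4),(6,2)]) (.cons (.leaf 1 []) (.cons (.keep [5,6,7,8,9] (.node (.cons (.leaf 1 [(2,1),(9,1)]) (.cons (.leaf 1 [(2,1),(9,1)]) (.cons (.leaf 1 [(6,2),(9,2)]) (.cons (.keep [5,6,7,8,9] (.node (.cons (.leaf 1 [(2,1),(6,1),(9,1)]) (.cons (.leaf 1 [(2,1),(6,1),(9,1)]) (.cons (.leaf 1 [(9,2),(7,2),(6,2)]) (.cons (.leaf 1 [(0,2),(6,2),(9,4)]) .nil)))))) .nil)))))) .nil)))))) .nil)))))) (.cons (.keep [2,5,7,8] (.node (.cons (.leaf 1 [(2,2),(7,2)]) (.cons (.keep [0,2,5,6,8] (.node (.cons (.leaf 1 [(2,2)]) (.cons (.leaf 1 [(6,4),(2,2),(9,4),(7,2)])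 (.cons (.leaf 1 []) (.cons (.keep [0,6,7,9] (.node (.cons (.leaf 1 [(2,1),(8,1),(6,2)]) (.cons (.leaf 1 [(2,1),(8,1),(6,2)]) (.cons (.leaf 1 [(8,2),(6,2),(7,2)]) (.cons (.keep [0,5,6,7,8] (.node (.cons (.leaf 1 [(2,2),(7,2)]) (.cons (.leaf 1 [(9,1),(2,1),(8,1),(7,1)]) (.cons (.leaf 1 [(7,2)]) (.cons (.leaf 1 [(9,4),(0,2),(8,2),(7,6)]) .nil)))))) .nil)))))) .nil)))))) (.cons (.leaf 1 [(7,2)]) (.cons (.keep [1,5,6,7] (.node (.cons (.leaf 1 [(2,2)]) (.cons (.leaf 1 [(2,2),(5,2),(8,4),(6,2)]) (.cons (.leaf 1 []) (.cons (.keep [0,5,6,8] (.node (.cons (.leaf 1 [(2,1),(8,1)]) (.cons (.leaf 1 [(2,1),(8,1)]) (.cons (.leaf 1 [(7,2),(8,2)]) (.cons (.keep [0,5,6,7,8] (.node (.cons (.leaf 1 [(2,1),(8,1),(9,1)]) (.cons (.leaf 1 [(2,1),(8,1),(9,1)]) (.cons (.leaf 1 [(9,4),(5,2),(8,2)]) (.cons (.leaf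 1 [(0,2),(8,2),(9,4)]) .nil)))))) .nil)))))) .nil)))))) .nil)))))) (.cons (.keep [1,4,5,6] (.node (.cons (.leaf 1 [(2,2),(5,2),(8,2)]) (.cons (.keep [0,5,6,8] (.node (.cons (.leaf 1 [(2,2)]) (.cons (.leaf 1 [(2,2),(6,2),(8,4)]) (.cons (.leaf 1 []) (.cons (.keep [0,6,7,8] (.node (.cons (.leaf 1 [(2,2),(8,2)]) (.cons (.leaf 1 [(2,1),(6,1),(7,1),(8,2)]) (.cons (.leaf 1 [(8,2)]) (.cons (.keep [0,5,6,7,8] (.node (.cons (.leaf 1 [(2,1),(9,1)]) (.cons (.leaf 1 [(2,1),(9,1)]) (.cons (.leaf 1 [(8,2),(9,2)]) (.cons (.leaf 1 [(7,2),(0,2),(9,6),(8,2)]) .nil)))))) .nil)))))) .nil)))))) (.cons (.leaf 1 [(8,2),(5,2)]) (.cons (.keep [0,1,5,6,8] (.node (.cons (.leaf 1 [(2,2)]) (.cons (.leaf 1 [(2,2),(6,2),(7,2),(9,4)]) (.cons (.leaf 1 []) (.cons (.keep [0,6,7,8,9] (.node (.cons (.leaf 1 [(7,2)])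 (.cons (.leaf 1 [(7,2),(3,2)]) (.cons (.leaf 1 [(9,2)]) (.cons (.keep [0,5,6,7,9] (.node (.cons (.leaf 1 [(2,1),(9,1)]) (.cons (.leaf 1 [(2,1),(9,1)]) (.cons (.leaf 1 [(8,2),(5,2),(9,4)]) (.cons (.leaf 1 [(0,2),(9,4),(8,2)]) .nil)))))) .nil)))))) .nil)))))) .nil)))))) (.cons (.keep [1,3,5,6] (.node (.cons (.leaf 1 [(2,4),(5,2),(6,2)]) (.cons (.keep [0,2,5,6,7] (.node (.cons (.leaf 1 [(2,2)]) (.cons (.leaf 1 [(6,4),(2,2),(7,2),(8,4)]) (.cons (.leaf 1 []) (.cons (.keep [0,6,7,8] (.node (.cons (.leaf 1 [(7,2),(6,2)]) (.cons (.leaf 1 [(7,2),(6,2),(3,2)]) (.cons (.leaf 1 [(8,2),(6,2)]) (.cons (.keep [0,5,6,7,8] (.node (.cons (.leaf 1 [(2,2),(7,2)]) (.cons (.leaf 1 [(2,1),(9,1),(7,1)]) (.cons (.leaf 1 [(7,2)]) (.cons (.leaf 1 [(8,2),(0,2),(9,4),(7,6)]) .nil)))))) .nil)))))) .nil))))))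 (.cons (.leaf 1 [(8,2),(5,2)]) (.cons (.keep [0,1,5,7,8] (.node (.cons (.leaf 1 [(2,2)]) (.cons (.leaf 1 [(2,2),(6,2),(7,2),(9,4)]) (.cons (.leaf 1 []) (.cons (.keep [0,6,7,9] (.node (.cons (.leaf 1 [(7,2)]) (.cons (.leaf 1 [(7,2),(3,2)]) (.cons (.leaf 1 [(8,2)]) (.cons (.keep [0,5,6,7,8] (.node (.cons (.leaf 1 [(2,1),(9,1)]) (.cons (.leaf 1 [(2,1),(9,1)]) (.cons (.leaf 1 [(8,2),(5,2),(9,4)]) (.cons (.leaf 1 [(0,2),(9,4),(8,2)]) .nil)))))) .nil)))))) .nil)))))) .nil)))))) .nil)))))) (.cons (.keep [0,2,3,6,7,10] (.leaf 0 [(0,0)])) (.cons (.keep [1,4,5,9] (.node (.cons (.leaf 1 [(2,2),(5,1)]) (.cons (.keep [2,5,7,8] (.node (.cons (.leaf 1 [(2,2)]) (.cons (.keep [0,2,5,6] (.node (.cons (.leaf 2 [(2,2),(6,2),(7,1)]) (.cons (.leaf 3 [(6,4),(7,2),(2,2),(8,1)]) (.cons (.keep [4,5,6,7,8]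 (.node (.cons (.leaf 1 [(7,1),(2,1),(8,1)]) (.cons (.keep [0,2,6,7,8,9] (.node (.cons (.keep [2,4,6,8,10] (.node (.cons (.keep [4,5,7,8,9] (.node (.cons (.leaf 2 [(5,1),(8,5),(7,2)]) (.cons (.keep [0,5,7,8,9] (.node (.cons (.leaf 3 [(8,7),(7,2)]) (.cons (.leaf 2 [(8,5),(7,2),(2,1)]) (.cons (.leaf 1 [(8,2)]) (.cons (.leaf 1 [(3,1),(8,2)]) .nil)))))) (.cons (.leaf 2 [(8,3),(5,1),(1,1)]) (.cons (.leaf 2 [(8,3),(5,1),(3,1),(1,1)]) .nil)))))) (.cons (.keep [3,5,7,8,9] (.node (.cons (.leaf 2 [(7,2),(8,5)]) (.cons (.keep [0,5,7,8,9] (.node (.cons (.leaf 3 [(6,1),(8,7),(7,2)]) (.cons (.leaf 2 [(6,1),(8,5),(7,2),(2,1)]) (.cons (.leaf 1 [(8,2)]) (.cons (.leaf 1 [(3,1),(8,2)]) .nil)))))) (.cons (.leaf 2 [(8,3),(1,1)]) (.cons (.leaf 2 [(8,3),(1,1),(3,1)]) .nil)))))) (.cons (.leaf 1 [(8,1)])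 (.cons (.leaf 1 [(8,1),(3,1)]) .nil)))))) (.cons (.keep [0,5,6,8,9,10] (.node (.cons (.leaf 2 [(7,1),(8,4)]) (.cons (.leaf 2 [(7,1),(8,4),(3,1)]) (.cons (.leaf 1 [(8,1)]) (.cons (.leaf 1 [(3,1),(8,1)]) .nil)))))) (.cons (.keep [1,4,5,6,10] (.node (.cons (.keep [2,4,5,7,8] (.node (.cons (.leaf 2 [(6,1),(7,1),(9,2)]) (.cons (.keep [0,5,6,7,9] (.node (.cons (.leaf 3 [(8,2),(9,2)]) (.cons (.leaf 2 [(8,1),(9,2),(2,1)]) (.cons (.leaf 1 [(8,1)]) (.cons (.leaf 1 [(3,1),(8,1)]) .nil)))))) (.cons (.leaf 2 [(7,1),(6,1),(1,1)]) (.cons (.leaf 2 [(7,1),(6,1),(3,1),(1,1)]) .nil)))))) (.cons (.keep [3,5,7,8,9] (.node (.cons (.leaf 2 [(8,2),(6,1)]) (.cons (.keep [0,5,6,8,9] (.node (.cons (.leaf 3 [(6,1),(7,2),(8,2)]) (.cons (.leaf 2 [(6,1),(7,1),(8,2),(2,1)]) (.cons (.leaf 1 [(7,1)]) (.cons (.leaf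 1 [(3,1),(7,1)]) .nil)))))) (.cons (.leaf 2 [(6,1),(1,1)]) (.cons (.leaf 2 [(6,1),(1,1),(3,1)]) .nil)))))) (.cons (.leaf 1 []) (.cons (.leaf 1 [(3,1)]) .nil)))))) (.cons (.keep [3,5,6,7,9,10] (.node (.cons (.leaf 2 [(7,1),(5,3),(9,1)]) (.cons (.leaf 1 [(7,1),(5,2),(9,1),(2,1)]) (.cons (.leaf 1 [(5,1)]) (.cons (.leaf 1 [(3,1),(5,1)]) .nil)))))) .nil)))))) (.cons (.leaf 1 [(7,1),(8,1)]) (.cons (.keep [0,1,6,7,8,9] (.node (.cons (.keep [2,4,6,9,10] (.node (.cons (.keep [4,5,7,8,9] (.node (.cons (.leaf 2 [(8,3),(5,1),(2,1)]) (.cons (.keep [5,6,7,8,9] (.node (.cons (.leaf 6 [(7,3),(8,7)]) (.cons (.leaf 4 [(7,1),(8,5),(2,2)]) (.cons (.leaf 1 [(7,4),(1,2)]) (.cons (.leaf 1 [(3,5),(7,4),(1,2)]) .nil)))))) (.cons (.leaf 2 [(7,3),(5,1),(1,1)]) (.cons (.leaf 2 [(7,3),(5,1),(3,4),(1,1)]) .nil))))))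 (.cons (.keep [3,5,7,8,9] (.node (.cons (.leaf 2 [(8,3),(2,1)]) (.cons (.keep [5,6,7,8,9] (.node (.cons (.leaf 6 [(5,2),(7,3),(8,7)]) (.cons (.leaf 4 [(5,2),(7,1),(8,5),(2,2)]) (.cons (.leaf 1 [(7,1),(8,1)]) (.cons (.leaf 1 [(3,1),(7,1),(8,1)]) .nil)))))) (.cons (.leaf 2 [(7,3),(1,1)]) (.cons (.leaf 2 [(3,4),(7,3),(1,1)]) .nil)))))) (.cons (.leaf 2 [(7,1),(6,1),(1,1)]) (.cons (.leaf 2 [(7,1),(6,1),(3,3),(1,1)]) .nil)))))) (.cons (.keep [0,5,6,8,9,10] (.node (.cons (.leaf 2 [(6,1),(9,1),(8,4)]) (.cons (.leaf 2 [(6,1),(9,1),(8,4),(3,1)]) (.cons (.leaf 2 [(7,1),(1,1)]) (.cons (.leaf 2 [(7,1),(3,3),(1,1)]) .nil)))))) (.cons (.keep [4,5,6,9,10] (.node (.cons (.keep [4,5,6,7,8] (.node (.cons (.leaf 2 [(7,1),(5,1),(9,2)]) (.cons (.keep [5,6,7,8,9] (.node (.cons (.leaf 3 [(9,2)]) (.cons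 (.leaf 3 [(9,2),(3,1)]) (.cons (.leaf 1 [(8,1),(9,1)]) (.cons (.leaf 1 [(8,1),(9,1),(3,1)]) .nil)))))) (.cons (.leaf 2 [(9,1),(5,1),(1,1)]) (.cons (.leaf 2 [(9,1),(5,1),(1,1)]) .nil)))))) (.cons (.keep [3,6,7,8,9] (.node (.cons (.leaf 2 [(6,1),(8,2)]) (.cons (.keep [5,6,7,8,9] (.node (.cons (.leaf 3 [(5,1),(8,2)]) (.cons (.leaf 3 [(5,1),(8,2),(3,1)]) (.cons (.leaf 1 [(7,1),(8,1)]) (.cons (.leaf 1 [(7,1),(8,1),(3,1)]) .nil)))))) (.cons (.leaf 2 [(8,1),(1,1)]) (.cons (.leaf 2 [(8,1),(1,1)]) .nil)))))) (.cons (.leaf 1 []) (.cons (.leaf 1 [(3,1)]) .nil)))))) (.cons (.keep [3,5,6,7,9,10] (.node (.cons (.leaf 2 [(9,1),(5,3)]) (.cons (.leaf 1 [(2,1),(5,2),(9,1)]) (.cons (.leaf 1 [(5,1)]) (.cons (.leaf 1 [(3,1),(5,1)]) .nil)))))) .nil)))))) .nil)))))) (.cons (.keep [0,5,6,7,8] (.node (.cons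 (.leaf 1 [(7,3),(2,1),(6,1)]) (.cons (.leaf 1 [(7,3),(2,1),(6,1)]) (.cons (.leaf 1 [(7,1),(8,1)]) (.cons (.leaf 1 [(7,2),(0,1),(8,1)]) .nil)))))) .nil)))))) (.cons (.leaf 1 [(6,1),(8,2)]) (.cons (.keep [1,5,6,8] (.node (.cons (.leaf 2 [(2,3),(6,1),(8,1)]) (.cons (.leaf 1 [(2,1),(6,1),(8,1),(7,1)]) (.cons (.keep [0,5,6,7,8] (.node (.cons (.leaf 1 [(2,1),(9,1),(7,1)]) (.cons (.keep [0,2,6,7,8,9] (.node (.cons (.keep [2,4,6,8,9] (.node (.cons (.keep [2,4,5,7,8] (.node (.cons (.leaf 2 [(6,1),(9,3),(8,2)]) (.cons (.keep [0,5,6,8,9] (.node (.cons (.leaf 3 [(9,4),(8,2)]) (.cons (.leaf 2 [(9,3),(8,2),(2,1)]) (.cons (.leaf 1 [(9,1)]) (.cons (.leaf 1 [(3,1),(9,1)]) .nil)))))) (.cons (.leaf 2 [(9,1),(6,1),(1,1)]) (.cons (.leaf 2 [(9,1),(6,1),(3,1),(1,1)]) .nil)))))) (.cons (.keep [3,5,7,8,9]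 (.node (.cons (.leaf 2 [(7,2),(8,3)]) (.cons (.keep [0,5,7,8,9] (.node (.cons (.leaf 3 [(6,1),(8,4),(7,2)]) (.cons (.leaf 2 [(6,1),(8,3),(7,2),(2,1)]) (.cons (.leaf 1 [(8,1)]) (.cons (.leaf 1 [(3,1),(8,1)]) .nil)))))) (.cons (.leaf 2 [(8,1),(1,1)]) (.cons (.leaf 2 [(8,1),(1,1),(3,1)]) .nil)))))) (.cons (.leaf 1 []) (.cons (.leaf 1 [(3,1)]) .nil)))))) (.cons (.keep [0,3,6,8,9] (.node (.cons (.leaf 2 [(7,1),(8,2),(6,2)]) (.cons (.leaf 2 [(7,1),(8,2),(6,2),(3,1)]) (.cons (.leaf 1 []) (.cons (.leaf 1 [(3,1)]) .nil)))))) (.cons (.keep [1,4,5,6,9] (.node (.cons (.keep [2,4,5,7,8] (.node (.cons (.leaf 2 [(6,1),(7,1),(9,2)]) (.cons (.keep [0,5,6,7,9] (.node (.cons (.leaf 3 [(8,2),(9,2)]) (.cons (.leaf 2 [(8,1),(9,2),(2,1)]) (.cons (.leaf 1 [(8,1)]) (.cons (.leaf 1 [(3,1),(8,1)]) .nil))))))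 (.cons (.leaf 2 [(7,1),(6,1),(1,1)]) (.cons (.leaf 2 [(7,1),(6,1),(3,1),(1,1)]) .nil)))))) (.cons (.keep [3,5,7,8,9] (.node (.cons (.leaf 2 [(8,2),(6,1)]) (.cons (.keep [0,5,6,8,9] (.node (.cons (.leaf 3 [(6,1),(7,2),(8,2)]) (.cons (.leaf 2 [(6,1),(7,1),(8,2),(2,1)]) (.cons (.leaf 1 [(7,1)]) (.cons (.leaf 1 [(3,1),(7,1)]) .nil)))))) (.cons (.leaf 2 [(6,1),(1,1)]) (.cons (.leaf 2 [(6,1),(1,1),(3,1)]) .nil)))))) (.cons (.leaf 1 []) (.cons (.leaf 1 [(3,1)]) .nil)))))) (.cons (.keep [1,3,5,6,7,9] (.node (.cons (.leaf 2 [(8,1),(5,1),(6,2)]) (.cons (.leaf 2 [(8,1),(5,1),(6,2),(3,1)]) (.cons (.leaf 1 []) (.cons (.leaf 1 [(3,1)]) .nil)))))) .nil)))))) (.cons (.leaf 1 [(7,1),(9,1)]) (.cons (.keep [0,1,6,7,8,9] (.node (.cons (.keep [2,4,6,8,9] (.node (.cons (.keep [4,5,6,7,8] (.node (.cons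 (.leaf 2 [(9,3),(5,1),(8,1)]) (.cons (.keep [5,6,7,8,9] (.node (.cons (.leaf 3 [(8,2),(9,4)]) (.cons (.leaf 2 [(8,1),(9,3),(2,1)]) (.cons (.leaf 1 [(8,2),(1,1)]) (.cons (.leaf 1 [(3,3),(8,2),(1,1)]) .nil)))))) (.cons (.leaf 2 [(8,1),(5,1),(1,1)]) (.cons (.leaf 2 [(8,1),(5,1),(3,2),(1,1)]) .nil)))))) (.cons (.keep [3,5,7,8,9] (.node (.cons (.leaf 2 [(8,3),(7,1)]) (.cons (.keep [5,6,7,8,9] (.node (.cons (.leaf 3 [(5,1),(7,2),(8,4)]) (.cons (.leaf 2 [(5,1),(7,1),(8,3),(2,1)]) (.cons (.leaf 1 [(7,1),(8,1)]) (.cons (.leaf 1 [(3,1),(7,1),(8,1)]) .nil)))))) (.cons (.leaf 2 [(7,1),(1,1)]) (.cons (.leaf 2 [(7,1),(1,1),(3,2)]) .nil)))))) (.cons (.leaf 1 []) (.cons (.leaf 1 [(3,1)]) .nil)))))) (.cons (.keep [0,3,6,8,9] (.node (.cons (.leaf 2 [(6,2),(8,2),(7,1)]) (.cons (.leaf 2 [(6,2),(8,2),(7,1),(3,1)])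 (.cons (.leaf 1 []) (.cons (.leaf 1 [(3,1)]) .nil)))))) (.cons (.keep [4,5,6,8,9] (.node (.cons (.keep [4,5,6,7,8] (.node (.cons (.leaf 2 [(7,1),(5,1),(9,2)]) (.cons (.keep [5,6,7,8,9] (.node (.cons (.leaf 3 [(9,2)]) (.cons (.leaf 3 [(9,2),(3,1)]) (.cons (.leaf 1 [(8,1),(9,1)]) (.cons (.leaf 1 [(8,1),(9,1),(3,1)]) .nil)))))) (.cons (.leaf 2 [(9,1),(5,1),(1,1)]) (.cons (.leaf 2 [(9,1),(5,1),(1,1)]) .nil)))))) (.cons (.keep [3,6,7,8,9] (.node (.cons (.leaf 2 [(6,1),(8,2)]) (.cons (.keep [5,6,7,8,9] (.node (.cons (.leaf 3 [(5,1),(8,2)]) (.cons (.leaf 3 [(5,1),(8,2),(3,1)]) (.cons (.leaf 1 [(7,1),(8,1)]) (.cons (.leaf 1 [(7,1),(8,1),(3,1)]) .nil)))))) (.cons (.leaf 2 [(8,1),(1,1)]) (.cons (.leaf 2 [(8,1),(1,1)]) .nil)))))) (.cons (.leaf 1 []) (.cons (.leaf 1 [(3,1)]) .nil)))))) (.cons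 (.keep [3,5,6,7,8,9] (.node (.cons (.leaf 2 [(5,2),(9,1)]) (.cons (.leaf 1 [(2,1),(9,1),(5,2)]) (.cons (.leaf 1 []) (.cons (.leaf 1 [(3,1)]) .nil)))))) .nil)))))) .nil)))))) (.cons (.keep [5,6,7,8] (.node (.cons (.leaf 1 [(2,1),(8,1)]) (.cons (.leaf 1 [(2,1),(8,1)]) (.cons (.leaf 1 [(6,2),(7,1),(8,2)]) (.cons (.leaf 1 [(0,2),(7,1),(8,2),(6,2)]) .nil)))))) .nil)))))) .nil)))))) (.cons (.leaf 1 [(5,1)]) (.cons (.keep [0,1,5,6,7,8] (.leaf 0 [(1,0)])) .nil)))))) (.cons (.keep [0,1,3,6,9] (.node (.cons (.leaf 1 [(2,2),(6,1),(7,1)]) (.cons (.keep [2,6,7,8,9] (.node (.cons (.leaf 1 [(2,2),(7,1)]) (.cons (.leaf 1 [(2,2),(6,1),(7,3),(5,2)]) (.cons (.leaf 1 [(6,1),(7,1),(9,2)]) (.cons (.keep [5,6,7,8,9] (.node (.cons (.leaf 1 [(2,1)]) (.cons (.leaf 1 [(2,1)]) (.cons (.leaf 1 [(7,2),(5,1),(9,1)])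 (.cons (.keep [5,6,7,8,9] (.node (.cons (.leaf 1 [(2,2),(5,1),(9,1)]) (.cons (.leaf 1 [(2,1),(9,1),(7,1)]) (.cons (.leaf 1 [(5,1),(9,1)]) (.cons (.leaf 1 [(5,1),(9,1),(7,2),(0,2)]) .nil)))))) .nil)))))) .nil)))))) (.cons (.leaf 1 [(6,1),(7,1)]) (.cons (.keep [0,6,7,9] (.node (.cons (.leaf 1 [(2,2),(6,1),(7,3)]) (.cons (.leaf 1 [(2,2),(6,1),(7,3)]) (.cons (.leaf 1 [(6,1),(1,1),(8,3)]) (.cons (.keep [0,6,7,8] (.node (.cons (.leaf 2 [(2,3),(8,1),(7,2)]) (.cons (.leaf 1 [(6,1),(2,1),(8,1),(7,1)]) (.cons (.leaf 1 [(7,3),(5,1),(8,1)]) (.cons (.keep [0,5,6,7,8] (.node (.cons (.leaf 1 [(2,3),(9,1),(6,1)]) (.cons (.leaf 1 [(2,1),(9,1),(8,1)]) (.cons (.leaf 1 [(6,1),(9,1)]) (.cons (.leaf 1 [(9,2),(7,1),(8,3),(0,2)]) .nil)))))) .nil)))))) .nil)))))) .nil)))))) .nil)))))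

theorem c_10_24_8 : Concl 10 24 z_10_24_8 h_10_24_8 .nd := piece _ (hP_cons c_10_24_7 (hP_cons
  E28.c_10_24_6 hP_nil)) t_10_24_8 _ _ (by decide +kernel)

def z_10_24_9 : F := ⟨1, -1, -1, 0, 2⟩

def h_10_24_9 : List F := [⟨1, 0, -1, 0, 0⟩, ⟨0, 0, 1, -1, 0⟩, ⟨0, 1, -1, 0, 0⟩, ⟨0, -1, 0, 0, 1⟩]

def t_10_24_9 : T := (.node (.cons (.keep [4,6,7,8] (.leaf 0 [(0,0)])) (.cons (.keep [0,3,5,6,7,8] (.node (.cons (.keep [2,4,7,8,10] (.node (.cons (.leaf 1 [(2,2),(9,1)]) (.cons (.keep [2,5,7,8,9] (.node (.cons (.leaf 1 [(2,2)]) (.cons (.keep [0,2,5,6,9] (.node (.cons (.leaf 2 [(2,2),(6,2),(7,1)]) (.cons (.leaf 3 [(6,4),(7,2),(2,2),(9,1)]) (.cons (.leaf 1 [(8,1)]) (.cons (.keep [0,5,6,7,8,9] (.node (.cons (.leaf 1 [(7,3),(2,1),(6,1)]) (.cons (.leaf 1 [(7,3),(2,1),(6,1)]) (.cons (.leaf 1 [(7,1),(8,1)])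 (.cons (.leaf 1 [(7,2),(0,1),(8,1)]) .nil)))))) .nil)))))) (.cons (.leaf 1 [(9,1),(8,2)]) (.cons (.keep [1,5,6,8,9] (.node (.cons (.leaf 1 [(2,2),(7,1)]) (.cons (.leaf 1 [(2,1),(6,1),(8,1),(9,1)]) (.cons (.leaf 1 [(7,1)]) (.cons (.keep [5,6,7,8,9] (.node (.cons (.leaf 1 [(2,1),(8,1)]) (.cons (.leaf 1 [(2,1),(8,1)]) (.cons (.leaf 1 [(6,2),(9,1),(8,2)]) (.cons (.leaf 1 [(0,2),(9,1),(8,2),(6,2)]) .nil)))))) .nil)))))) .nil)))))) (.cons (.leaf 1 [(9,1)]) (.cons (.keep [1,5,6,7,9] (.node (.cons (.leaf 1 [(2,2),(5,1)]) (.cons (.keep [0,2,5,6,9] (.node (.cons (.leaf 2 [(2,2),(7,1),(6,2)]) (.cons (.leaf 3 [(2,2),(6,4),(7,2),(9,1)]) (.cons (.leaf 1 [(8,1)]) (.cons (.keep [0,5,6,7,8,9] (.node (.cons (.leaf 1 [(2,1),(7,1)]) (.cons (.leaf 1 [(2,1),(8,1),(7,2),(0,1)]) (.cons (.leaf 1 [(7,1)])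 (.cons (.leaf 1 [(7,2),(8,1),(0,1)]) .nil)))))) .nil)))))) (.cons (.leaf 1 [(7,2),(5,2),(6,1)]) (.cons (.keep [0,1,5,6,7,9] (.node (.cons (.leaf 1 [(8,1),(2,2)]) (.cons (.leaf 1 [(2,1),(7,1),(9,1)]) (.cons (.leaf 1 [(8,1)]) (.cons (.keep [0,6,7,8,9,10] (.node (.cons (.leaf 1 [(7,2),(8,1)]) (.cons (.leaf 1 [(7,2),(3,2),(8,1)]) (.cons (.leaf 1 [(8,1),(9,2)]) (.cons (.leaf 1 [(8,1),(9,2),(7,2),(0,2)]) .nil)))))) .nil)))))) .nil)))))) .nil)))))) (.cons (.keep [2,6,9,10] (.leaf 0 [(1,0)])) (.cons (.keep [1,4,5,8] (.node (.cons (.leaf 1 [(2,2),(5,1)]) (.cons (.keep [2,5,7,8] (.node (.cons (.leaf 1 [(2,2)]) (.cons (.keep [0,2,5,6] (.node (.cons (.leaf 2 [(2,2),(6,2),(7,1)]) (.cons (.leaf 3 [(6,4),(7,2),(2,2),(8,1)]) (.cons (.keep [4,5,6,7,8] (.node (.cons (.leaf 1 [(7,1),(2,1),(8,1)]) (.cons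 (.keep [0,2,6,7,8,9] (.node (.cons (.keep [2,4,6,8,10] (.node (.cons (.keep [4,5,7,8,9] (.node (.cons (.leaf 2 [(5,1),(8,5),(7,2)]) (.cons (.keep [0,5,7,8,9] (.node (.cons (.leaf 3 [(8,7),(7,2)]) (.cons (.leaf 2 [(8,5),(7,2),(2,1)]) (.cons (.leaf 1 [(8,2)]) (.cons (.leaf 1 [(3,1),(8,2)]) .nil)))))) (.cons (.leaf 2 [(8,3),(5,1),(1,1)]) (.cons (.leaf 2 [(8,3),(5,1),(3,1),(1,1)]) .nil)))))) (.cons (.keep [3,5,7,8,9] (.node (.cons (.leaf 2 [(7,2),(8,5)]) (.cons (.keep [0,5,7,8,9] (.node (.cons (.leaf 3 [(6,1),(8,7),(7,2)]) (.cons (.leaf 2 [(6,1),(8,5),(7,2),(2,1)]) (.cons (.leaf 1 [(8,2)]) (.cons (.leaf 1 [(3,1),(8,2)]) .nil)))))) (.cons (.leaf 2 [(8,3),(1,1)]) (.cons (.leaf 2 [(8,3),(1,1),(3,1)]) .nil)))))) (.cons (.leaf 1 [(8,1)]) (.cons (.leaf 1 [(8,1),(3,1)]) .nil)))))) (.cons (.keep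 [0,5,6,8,9,10] (.node (.cons (.leaf 2 [(7,1),(8,4)]) (.cons (.leaf 2 [(7,1),(8,4),(3,1)]) (.cons (.leaf 1 [(8,1)]) (.cons (.leaf 1 [(3,1),(8,1)]) .nil)))))) (.cons (.keep [1,4,5,6,10] (.node (.cons (.keep [2,4,5,7,8] (.node (.cons (.leaf 2 [(6,1),(7,1),(9,2)]) (.cons (.keep [0,5,6,7,9] (.node (.cons (.leaf 3 [(8,2),(9,2)]) (.cons (.leaf 2 [(8,1),(9,2),(2,1)]) (.cons (.leaf 1 [(8,1)]) (.cons (.leaf 1 [(3,1),(8,1)]) .nil)))))) (.cons (.leaf 2 [(7,1),(6,1),(1,1)]) (.cons (.leaf 2 [(7,1),(6,1),(3,1),(1,1)]) .nil)))))) (.cons (.keep [3,5,7,8,9] (.node (.cons (.leaf 2 [(8,2),(6,1)]) (.cons (.keep [0,5,6,8,9] (.node (.cons (.leaf 3 [(6,1),(7,2),(8,2)]) (.cons (.leaf 2 [(6,1),(7,1),(8,2),(2,1)]) (.cons (.leaf 1 [(7,1)]) (.cons (.leaf 1 [(3,1),(7,1)]) .nil)))))) (.cons (.leaf 2 [(6,1),(1,1)])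 (.cons (.leaf 2 [(6,1),(1,1),(3,1)]) .nil)))))) (.cons (.leaf 1 []) (.cons (.leaf 1 [(3,1)]) .nil)))))) (.cons (.keep [3,5,6,7,9,10] (.node (.cons (.leaf 2 [(7,1),(5,3),(9,1)]) (.cons (.leaf 1 [(7,1),(5,2),(9,1),(2,1)]) (.cons (.leaf 1 [(5,1)]) (.cons (.leaf 1 [(3,1),(5,1)]) .nil)))))) .nil)))))) (.cons (.leaf 1 [(7,1),(8,1)]) (.cons (.keep [0,1,6,7,8,9] (.node (.cons (.keep [2,4,6,9,10] (.node (.cons (.keep [4,5,7,8,9] (.node (.cons (.leaf 2 [(8,3),(5,1),(2,1)]) (.cons (.keep [5,6,7,8,9] (.node (.cons (.leaf 6 [(7,3),(8,7)]) (.cons (.leaf 4 [(7,1),(8,5),(2,2)]) (.cons (.leaf 1 [(7,4),(1,2)]) (.cons (.leaf 1 [(3,5),(7,4),(1,2)]) .nil)))))) (.cons (.leaf 2 [(7,3),(5,1),(1,1)]) (.cons (.leaf 2 [(7,3),(5,1),(3,4),(1,1)]) .nil)))))) (.cons (.keep [3,5,7,8,9] (.node (.cons (.leaf 2 [(8,3),(2,1)])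 (.cons (.keep [5,6,7,8,9] (.node (.cons (.leaf 6 [(5,2),(7,3),(8,7)]) (.cons (.leaf 4 [(5,2),(7,1),(8,5),(2,2)]) (.cons (.leaf 1 [(7,1),(8,1)]) (.cons (.leaf 1 [(3,1),(7,1),(8,1)]) .nil)))))) (.cons (.leaf 2 [(7,3),(1,1)]) (.cons (.leaf 2 [(3,4),(7,3),(1,1)]) .nil)))))) (.cons (.leaf 2 [(7,1),(6,1),(1,1)]) (.cons (.leaf 2 [(7,1),(6,1),(3,3),(1,1)]) .nil)))))) (.cons (.keep [0,5,6,8,9,10] (.node (.cons (.leaf 2 [(6,1),(9,1),(8,4)]) (.cons (.leaf 2 [(6,1),(9,1),(8,4),(3,1)]) (.cons (.leaf 2 [(7,1),(1,1)]) (.cons (.leaf 2 [(7,1),(3,3),(1,1)]) .nil)))))) (.cons (.keep [4,5,6,9,10] (.node (.cons (.keep [4,5,6,7,8] (.node (.cons (.leaf 2 [(7,1),(5,1),(9,2)]) (.cons (.keep [5,6,7,8,9] (.node (.cons (.leaf 3 [(9,2)]) (.cons (.leaf 3 [(9,2),(3,1)]) (.cons (.leaf 1 [(8,1),(9,1)]) (.cons (.leaf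 1 [(8,1),(9,1),(3,1)]) .nil)))))) (.cons (.leaf 2 [(9,1),(5,1),(1,1)]) (.cons (.leaf 2 [(9,1),(5,1),(1,1)]) .nil)))))) (.cons (.keep [3,6,7,8,9] (.node (.cons (.leaf 2 [(6,1),(8,2)]) (.cons (.keep [5,6,7,8,9] (.node (.cons (.leaf 3 [(5,1),(8,2)]) (.cons (.leaf 3 [(5,1),(8,2),(3,1)]) (.cons (.leaf 1 [(7,1),(8,1)]) (.cons (.leaf 1 [(7,1),(8,1),(3,1)]) .nil)))))) (.cons (.leaf 2 [(8,1),(1,1)]) (.cons (.leaf 2 [(8,1),(1,1)]) .nil)))))) (.cons (.leaf 1 []) (.cons (.leaf 1 [(3,1)]) .nil)))))) (.cons (.keep [3,5,6,7,9,10] (.node (.cons (.leaf 2 [(9,1),(5,3)]) (.cons (.leaf 1 [(2,1),(5,2),(9,1)]) (.cons (.leaf 1 [(5,1)]) (.cons (.leaf 1 [(3,1),(5,1)]) .nil)))))) .nil)))))) .nil)))))) (.cons (.keep [0,5,6,7,8] (.node (.cons (.leaf 1 [(7,3),(2,1),(6,1)]) (.cons (.leaf 1 [(7,3),(2,1),(6,1)])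 (.cons (.leaf 1 [(7,1),(8,1)]) (.cons (.leaf 1 [(7,2),(0,1),(8,1)]) .nil)))))) .nil)))))) (.cons (.leaf 1 [(6,1),(8,2)]) (.cons (.keep [1,5,6,8] (.node (.cons (.leaf 2 [(2,3),(6,1),(8,1)]) (.cons (.leaf 1 [(2,1),(6,1),(8,1),(7,1)]) (.cons (.keep [0,5,6,7,8] (.node (.cons (.leaf 1 [(2,1),(9,1),(7,1)]) (.cons (.keep [0,2,6,7,8,9] (.node (.cons (.keep [2,4,6,8,9] (.node (.cons (.keep [2,4,5,7,8] (.node (.cons (.leaf 2 [(6,1),(9,3),(8,2)]) (.cons (.keep [0,5,6,8,9] (.node (.cons (.leaf 3 [(9,4),(8,2)]) (.cons (.leaf 2 [(9,3),(8,2),(2,1)]) (.cons (.leaf 1 [(9,1)]) (.cons (.leaf 1 [(3,1),(9,1)]) .nil)))))) (.cons (.leaf 2 [(9,1),(6,1),(1,1)]) (.cons (.leaf 2 [(9,1),(6,1),(3,1),(1,1)]) .nil)))))) (.cons (.keep [3,5,7,8,9] (.node (.cons (.leaf 2 [(7,2),(8,3)]) (.cons (.keep [0,5,7,8,9] (.node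 (.cons (.leaf 3 [(6,1),(8,4),(7,2)]) (.cons (.leaf 2 [(6,1),(8,3),(7,2),(2,1)]) (.cons (.leaf 1 [(8,1)]) (.cons (.leaf 1 [(3,1),(8,1)]) .nil)))))) (.cons (.leaf 2 [(8,1),(1,1)]) (.cons (.leaf 2 [(8,1),(1,1),(3,1)]) .nil)))))) (.cons (.leaf 1 []) (.cons (.leaf 1 [(3,1)]) .nil)))))) (.cons (.keep [0,3,6,8,9] (.node (.cons (.leaf 2 [(7,1),(8,2),(6,2)]) (.cons (.leaf 2 [(7,1),(8,2),(6,2),(3,1)]) (.cons (.leaf 1 []) (.cons (.leaf 1 [(3,1)]) .nil)))))) (.cons (.keep [1,4,5,6,9] (.node (.cons (.keep [2,4,5,7,8] (.node (.cons (.leaf 2 [(6,1),(7,1),(9,2)]) (.cons (.keep [0,5,6,7,9] (.node (.cons (.leaf 3 [(8,2),(9,2)]) (.cons (.leaf 2 [(8,1),(9,2),(2,1)]) (.cons (.leaf 1 [(8,1)]) (.cons (.leaf 1 [(3,1),(8,1)]) .nil)))))) (.cons (.leaf 2 [(7,1),(6,1),(1,1)]) (.cons (.leaf 2 [(7,1),(6,1),(3,1),(1,1)])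 .nil)))))) (.cons (.keep [3,5,7,8,9] (.node (.cons (.leaf 2 [(8,2),(6,1)]) (.cons (.keep [0,5,6,8,9] (.node (.cons (.leaf 3 [(6,1),(7,2),(8,2)]) (.cons (.leaf 2 [(6,1),(7,1),(8,2),(2,1)]) (.cons (.leaf 1 [(7,1)]) (.cons (.leaf 1 [(3,1),(7,1)]) .nil)))))) (.cons (.leaf 2 [(6,1),(1,1)]) (.cons (.leaf 2 [(6,1),(1,1),(3,1)]) .nil)))))) (.cons (.leaf 1 []) (.cons (.leaf 1 [(3,1)]) .nil)))))) (.cons (.keep [1,3,5,6,7,9] (.node (.cons (.leaf 2 [(8,1),(5,1),(6,2)]) (.cons (.leaf 2 [(8,1),(5,1),(6,2),(3,1)]) (.cons (.leaf 1 []) (.cons (.leaf 1 [(3,1)]) .nil)))))) .nil)))))) (.cons (.leaf 1 [(7,1),(9,1)]) (.cons (.keep [0,1,6,7,8,9] (.node (.cons (.keep [2,4,6,8,9] (.node (.cons (.keep [4,5,6,7,8] (.node (.cons (.leaf 2 [(9,3),(5,1),(8,1)]) (.cons (.keep [5,6,7,8,9] (.node (.cons (.leaf 3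 [(8,2),(9,4)]) (.cons (.leaf 2 [(8,1),(9,3),(2,1)]) (.cons (.leaf 1 [(8,2),(1,1)]) (.cons (.leaf 1 [(3,3),(8,2),(1,1)]) .nil)))))) (.cons (.leaf 2 [(8,1),(5,1),(1,1)]) (.cons (.leaf 2 [(8,1),(5,1),(3,2),(1,1)]) .nil)))))) (.cons (.keep [3,5,7,8,9] (.node (.cons (.leaf 2 [(8,3),(7,1)]) (.cons (.keep [5,6,7,8,9] (.node (.cons (.leaf 3 [(5,1),(7,2),(8,4)]) (.cons (.leaf 2 [(5,1),(7,1),(8,3),(2,1)]) (.cons (.leaf 1 [(7,1),(8,1)]) (.cons (.leaf 1 [(3,1),(7,1),(8,1)]) .nil)))))) (.cons (.leaf 2 [(7,1),(1,1)]) (.cons (.leaf 2 [(7,1),(1,1),(3,2)]) .nil)))))) (.cons (.leaf 1 []) (.cons (.leaf 1 [(3,1)]) .nil)))))) (.cons (.keep [0,3,6,8,9] (.node (.cons (.leaf 2 [(6,2),(8,2),(7,1)]) (.cons (.leaf 2 [(6,2),(8,2),(7,1),(3,1)]) (.cons (.leaf 1 []) (.cons (.leaf 1 [(3,1)]) .nil)))))) (.cons (.keep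 [4,5,6,8,9] (.node (.cons (.keep [4,5,6,7,8] (.node (.cons (.leaf 2 [(7,1),(5,1),(9,2)]) (.cons (.keep [5,6,7,8,9] (.node (.cons (.leaf 3 [(9,2)]) (.cons (.leaf 3 [(9,2),(3,1)]) (.cons (.leaf 1 [(8,1),(9,1)]) (.cons (.leaf 1 [(8,1),(9,1),(3,1)]) .nil)))))) (.cons (.leaf 2 [(9,1),(5,1),(1,1)]) (.cons (.leaf 2 [(9,1),(5,1),(1,1)]) .nil)))))) (.cons (.keep [3,6,7,8,9] (.node (.cons (.leaf 2 [(6,1),(8,2)]) (.cons (.keep [5,6,7,8,9] (.node (.cons (.leaf 3 [(5,1),(8,2)]) (.cons (.leaf 3 [(5,1),(8,2),(3,1)]) (.cons (.leaf 1 [(7,1),(8,1)]) (.cons (.leaf 1 [(7,1),(8,1),(3,1)]) .nil)))))) (.cons (.leaf 2 [(8,1),(1,1)]) (.cons (.leaf 2 [(8,1),(1,1)]) .nil)))))) (.cons (.leaf 1 []) (.cons (.leaf 1 [(3,1)]) .nil)))))) (.cons (.keep [3,5,6,7,8,9] (.node (.cons (.leaf 2 [(5,2),(9,1)]) (.cons (.leaf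 1 [(2,1),(9,1),(5,2)]) (.cons (.leaf 1 []) (.cons (.leaf 1 [(3,1)]) .nil)))))) .nil)))))) .nil)))))) (.cons (.keep [5,6,7,8] (.node (.cons (.leaf 1 [(2,1),(8,1)]) (.cons (.leaf 1 [(2,1),(8,1)]) (.cons (.leaf 1 [(6,2),(7,1),(8,2)]) (.cons (.leaf 1 [(0,2),(7,1),(8,2),(6,2)]) .nil)))))) .nil)))))) .nil)))))) (.cons (.leaf 1 [(5,1)]) (.cons (.keep [0,1,5,6,7,8] (.leaf 0 [(2,0)])) .nil)))))) (.cons (.keep [0,1,3,8,9] (.node (.cons (.leaf 1 [(2,2),(6,1)]) (.cons (.keep [2,6,7,8,9] (.node (.cons (.leaf 1 [(2,2)]) (.cons (.leaf 1 [(5,2),(6,1),(2,2),(7,2)]) (.cons (.leaf 1 [(6,1),(8,2)]) (.cons (.keep [5,6,7,8,9] (.node (.cons (.leaf 2 [(2,3),(5,1),(8,1)]) (.cons (.leaf 1 [(2,1),(5,1),(8,1),(6,1)]) (.cons (.leaf 1 [(7,1),(5,1),(8,1)]) (.cons (.keep [5,6,7,8,9] (.node (.cons (.leaf 1 [(2,1),(8,1)])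 (.cons (.leaf 1 [(2,1),(8,1)]) (.cons (.leaf 1 [(5,2),(6,1),(8,2)]) (.cons (.leaf 1 [(0,2),(6,1),(8,2),(5,2)]) .nil)))))) .nil)))))) .nil)))))) (.cons (.leaf 1 [(6,1)]) (.cons (.keep [0,6,7,8,9] (.node (.cons (.leaf 1 [(2,2),(6,1),(7,2)]) (.cons (.leaf 1 [(2,2),(7,2),(6,1)]) (.cons (.leaf 1 [(6,1),(8,2)]) (.cons (.keep [0,6,7,8] (.node (.cons (.leaf 2 [(8,1),(2,3)]) (.cons (.leaf 1 [(6,1),(2,1),(8,1)]) (.cons (.leaf 1 [(7,1),(5,1),(8,1)]) (.cons (.keep [0,5,6,7,8] (.node (.cons (.leaf 1 [(2,1),(9,1)]) (.cons (.leaf 1 [(2,1),(9,1)]) (.cons (.leaf 1 [(9,2),(7,1),(5,2)]) (.cons (.leaf 1 [(7,1),(9,2),(0,2)]) .nil)))))) .nil)))))) .nil)))))) .nil)))))) .nil)))))) (.cons (.keep [1,4,6,7,8] (.node (.cons (.leaf 1 [(7,1),(5,1),(2,2)]) (.cons (.keep [5,6,7,8,9] (.node (.cons (.leaf 1 [(2,2),(7,1)])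 (.cons (.leaf 1 [(5,1),(2,2),(7,3)]) (.cons (.leaf 1 [(8,1)]) (.cons (.keep [5,6,7,8,9] (.node (.cons (.leaf 1 [(2,1),(7,1),(6,1)]) (.cons (.leaf 1 [(2,1),(6,1),(7,1)]) (.cons (.leaf 1 [(7,2),(8,1)]) (.cons (.keep [5,6,7,8,9] (.node (.cons (.leaf 1 [(2,1),(8,1),(7,1)]) (.cons (.leaf 1 [(2,1),(8,1),(7,1)]) (.cons (.leaf 1 [(6,2),(8,1),(7,2)]) (.cons (.leaf 1 [(0,2),(8,1),(7,4),(6,2)]) .nil)))))) .nil)))))) .nil)))))) (.cons (.leaf 1 [(7,1),(5,1)]) (.cons (.keep [1,3,5,6,7,8] (.node (.cons (.leaf 1 [(2,2),(5,1),(9,1)]) (.cons (.leaf 1 [(2,2),(7,1),(5,2),(9,3)]) (.cons (.leaf 1 [(10,1)]) (.cons (.keep [5,6,7,8,9,10] (.node (.cons (.leaf 1 [(2,1)]) (.cons (.leaf 1 [(2,1)]) (.cons (.leaf 1 [(10,1),(9,2)]) (.cons (.keep [0,5,6,7,9,10] (.node (.cons (.leaf 1 [(2,1),(9,1),(10,1)]) (.cons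 (.leaf 1 [(2,1),(9,1),(10,1)]) (.cons (.leaf 1 [(5,2),(10,1),(9,2)]) (.cons (.leaf 1 [(9,2),(10,1),(0,2)]) .nil)))))) .nil)))))) .nil)))))) .nil)))))) (.cons (.keep [1,3,5,6,7] (.node (.cons (.leaf 1 [(5,1),(2,3),(6,2)]) (.cons (.keep [2,5,6,7,9] (.node (.cons (.leaf 1 [(2,2),(7,2),(5,1)]) (.cons (.leaf 1 [(2,2),(6,1),(7,4),(5,3)]) (.cons (.leaf 1 [(7,1),(9,1)]) (.cons (.keep [3,5,6,7,9] (.node (.cons (.leaf 1 [(7,1),(6,1)]) (.cons (.leaf 1 [(7,1),(6,1),(3,2)]) (.cons (.leaf 1 [(8,3),(6,2),(9,1)]) (.cons (.keep [5,6,7,8,9] (.node (.cons (.leaf 1 [(2,3),(9,1),(6,3)]) (.cons (.leaf 1 [(3,2),(9,1),(8,3)]) (.cons (.leaf 1 [(6,3),(9,1),(1,1)]) (.cons (.leaf 1 [(6,4),(9,1),(8,5),(0,2)]) .nil)))))) .nil)))))) .nil)))))) (.cons (.leaf 1 [(8,1),(6,1),(5,1)]) (.cons (.keep [5,6,7,8,9] (.node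 (.cons (.leaf 1 [(2,2),(6,2)]) (.cons (.leaf 1 [(2,2),(5,1),(6,3),(8,1)]) (.cons (.leaf 1 [(6,1),(9,1)]) (.cons (.keep [0,5,6,8,9] (.node (.cons (.leaf 1 [(2,1),(7,1)]) (.cons (.leaf 1 [(2,1),(7,1)]) (.cons (.leaf 1 [(7,1),(8,2),(9,1)]) (.cons (.keep [0,5,6,7,8,9] (.node (.cons (.leaf 1 [(8,3),(10,1)]) (.cons (.leaf 1 [(3,2),(8,3),(10,1)]) (.cons (.leaf 2 [(9,4),(5,1),(10,2)]) (.cons (.leaf 1 [(9,2),(10,1),(8,3),(0,2)]) .nil)))))) .nil)))))) .nil)))))) .nil)))))) .nil)))))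

theorem c_10_24_9 : Concl 10 24 z_10_24_9 h_10_24_9 .nd := piece _ (hP_cons c_10_24_4 (hP_cons
  c_10_24_3 (hP_cons E28.c_10_24_2 hP_nil))) t_10_24_9 _ _ (by decide +kernel)

def z_10_24_12 : F := ⟨1, -2, -1, 0, 3⟩

def h_10_24_12 : List F := [⟨1, 0, -1, 0, 0⟩, ⟨0, 0, 1, -1, 0⟩, ⟨-1, 1, 0, 0, 0⟩, ⟨0, -1, 0, 0,
  1⟩]

def t_10_24_12 : T := (.node (.cons (.leaf 1 [(2,1),(6,1),(7,3)]) (.cons (.keep [0,5,6,7,8] (.node (.cons (.leaf 1 [(2,2),(8,2)]) (.cons (.leaf 1 [(2,2),(8,4),(6,1)]) (.cons (.keep [4,5,7,8] (.node (.cons (.leaf 1 [(2,1),(8,1)]) (.cons (.keep [2,6,7,8] (.leaf 0 [(0,0)])) (.cons (.leaf 1 [(8,1)]) (.cons (.keep [0,1,6,7,8] (.node (.cons (.leaf 1 [(2,2),(6,1)]) (.cons (.keep [0,2,6,7,9] (.node (.cons (.leaf 2 [(2,2),(7,1),(6,2)]) (.cons (.leaf 2 [(2,1),(6,2),(7,1),(9,1)])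 (.cons (.keep [4,5,6,7,8] (.node (.cons (.leaf 1 [(2,1),(7,1)]) (.cons (.keep [2,6,7,8,9] (.node (.cons (.keep [0,2,5,6,9] (.node (.cons (.keep [4,6,7,8,9] (.node (.cons (.leaf 2 [(5,1),(8,1),(7,2)]) (.cons (.keep [0,5,7,8,9] (.node (.cons (.leaf 3 [(7,2),(8,1)]) (.cons (.leaf 2 [(7,2),(8,1),(2,1)]) (.cons (.leaf 1 []) (.cons (.leaf 1 [(3,1)]) .nil)))))) (.cons (.leaf 2 [(6,1),(5,1),(1,1)]) (.cons (.leaf 2 [(6,1),(5,1),(1,1),(3,1)]) .nil)))))) (.cons (.keep [3,6,7,8,9] (.node (.cons (.leaf 2 [(7,2),(8,1)]) (.cons (.keep [0,5,7,8,9] (.node (.cons (.leaf 3 [(7,2),(6,1),(8,1)]) (.cons (.leaf 2 [(7,2),(6,1),(8,1),(2,1)]) (.cons (.leaf 1 []) (.cons (.leaf 1 [(3,1)]) .nil)))))) (.cons (.leaf 2 [(6,1),(1,1)]) (.cons (.leaf 2 [(6,1),(1,1),(3,1)]) .nil)))))) (.cons (.leaf 1 [(6,1)]) (.cons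 (.leaf 1 [(3,1),(6,1)]) .nil)))))) (.cons (.keep [5,6,7,8,9] (.node (.cons (.leaf 2 [(8,2),(5,1),(7,4)]) (.cons (.leaf 2 [(8,2),(5,1),(7,4),(3,1)]) (.cons (.leaf 1 [(8,1),(7,1)]) (.cons (.leaf 1 [(3,1),(8,1),(7,1)]) .nil)))))) (.cons (.keep [0,1,5,8,9] (.node (.cons (.keep [4,6,7,8,9] (.node (.cons (.leaf 2 [(8,1),(5,1),(7,2)]) (.cons (.keep [0,5,6,7,8,9] (.node (.cons (.leaf 3 [(9,1),(8,2)]) (.cons (.leaf 3 [(9,1),(8,2),(3,1)]) (.cons (.leaf 1 []) (.cons (.leaf 1 [(3,1)]) .nil)))))) (.cons (.leaf 2 [(8,1),(5,1),(1,1)]) (.cons (.leaf 2 [(8,1),(5,1),(1,1),(3,1)]) .nil)))))) (.cons (.keep [3,6,7,8,9] (.node (.cons (.leaf 2 [(8,1),(7,2)]) (.cons (.keep [0,5,6,7,8,9] (.node (.cons (.leaf 3 [(9,1),(6,1),(8,2)]) (.cons (.leaf 3 [(9,1),(6,1),(8,2),(3,1)]) (.cons (.leaf 1 []) (.cons (.leaf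 1 [(3,1)]) .nil)))))) (.cons (.leaf 2 [(8,1),(1,1)]) (.cons (.leaf 2 [(8,1),(1,1),(3,1)]) .nil)))))) (.cons (.leaf 1 [(8,1)]) (.cons (.leaf 1 [(3,1),(8,1)]) .nil)))))) (.cons (.keep [1,3,5,8,9] (.node (.cons (.leaf 1 [(2,1),(7,1),(6,2)]) (.cons (.leaf 1 [(2,1),(7,1),(6,2)]) (.cons (.leaf 1 [(8,1),(6,1)]) (.cons (.leaf 1 [(8,1),(6,1),(3,1)]) .nil)))))) .nil)))))) (.cons (.leaf 1 [(7,1)]) (.cons (.keep [0,1,6,7,8,9] (.node (.cons (.keep [4,7,8,9,10] (.node (.cons (.keep [4,6,7,8,9] (.node (.cons (.leaf 2 [(5,1),(7,1)]) (.cons (.keep [5,6,7,8,9] (.node (.cons (.leaf 1 [(2,2),(6,1)]) (.cons (.leaf 2 [(7,1),(2,1)]) (.cons (.leaf 1 [(8,1),(7,2)]) (.cons (.leaf 1 [(8,1),(7,2),(3,1)]) .nil)))))) (.cons (.leaf 2 [(7,1),(5,1),(1,1)]) (.cons (.leaf 2 [(7,2),(5,1),(8,1),(1,1)]) .nil)))))) (.cons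 (.keep [0,3,6,7,8] (.node (.cons (.leaf 2 [(8,1)]) (.cons (.keep [5,6,7,8,9] (.node (.cons (.leaf 1 [(2,2),(6,1),(7,1)]) (.cons (.leaf 2 [(8,1),(2,1),(6,1)]) (.cons (.leaf 1 [(9,1),(8,2)]) (.cons (.leaf 1 [(9,1),(8,2),(3,1)]) .nil)))))) (.cons (.leaf 2 [(8,1),(1,1)]) (.cons (.leaf 2 [(8,2),(9,1),(1,1)]) .nil)))))) (.cons (.leaf 1 [(8,1),(7,1)]) (.cons (.leaf 1 [(8,1),(7,1),(3,1)]) .nil)))))) (.cons (.keep [5,6,7,8,9,10] (.node (.cons (.leaf 2 [(9,2),(5,1),(8,4)]) (.cons (.leaf 2 [(9,2),(5,1),(8,4),(3,1)]) (.cons (.leaf 2 [(6,1),(9,2),(1,1)]) (.cons (.leaf 2 [(6,1),(9,2),(1,1),(3,3)]) .nil)))))) (.cons (.keep [4,5,6,7,9,10] (.node (.cons (.keep [4,6,7,8,9,10] (.node (.cons (.leaf 2 [(9,1),(5,1),(6,1)]) (.cons (.keep [5,6,7,8,9,10] (.node (.cons (.leaf 3 [(9,1)]) (.cons (.leaf 3 [(9,1),(3,1)])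 (.cons (.leaf 1 [(7,1)]) (.cons (.leaf 1 [(7,1),(3,1)]) .nil)))))) (.cons (.leaf 2 [(9,1),(5,1),(1,1)]) (.cons (.leaf 2 [(1,1),(5,1),(9,1)]) .nil)))))) (.cons (.keep [3,6,7,8,9,10] (.node (.cons (.leaf 2 [(9,1),(6,1)]) (.cons (.keep [5,6,7,8,9,10] (.node (.cons (.leaf 3 [(5,1),(9,1)]) (.cons (.leaf 3 [(5,1),(9,1),(3,1)]) (.cons (.leaf 1 [(7,1)]) (.cons (.leaf 1 [(7,1),(3,1)]) .nil)))))) (.cons (.leaf 2 [(9,1),(1,1)]) (.cons (.leaf 2 [(1,1),(9,1)]) .nil)))))) (.cons (.leaf 1 [(9,1)]) (.cons (.leaf 1 [(9,1),(3,1)]) .nil)))))) (.cons (.keep [3,5,6,7,9,10] (.node (.cons (.leaf 1 [(2,1),(5,2)]) (.cons (.leaf 1 [(2,1),(5,2)]) (.cons (.leaf 1 [(9,2),(1,1)]) (.cons (.leaf 1 [(9,2),(1,1),(3,2)]) .nil)))))) .nil)))))) .nil)))))) (.cons (.keep [5,6,7,8,9] (.node (.cons (.leaf 1 [(2,1),(6,1)])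 (.cons (.leaf 1 [(2,1),(7,1),(6,2),(0,1)]) (.cons (.leaf 1 [(6,1)]) (.cons (.leaf 1 [(6,2),(7,1),(0,1)]) .nil)))))) .nil)))))) (.cons (.leaf 1 [(9,1),(8,1)]) (.cons (.keep [0,1,7,8,9] (.node (.cons (.leaf 2 [(8,1),(2,3)]) (.cons (.leaf 2 [(9,2),(2,1),(8,1)]) (.cons (.keep [4,5,6,7,8] (.node (.cons (.leaf 1 [(2,1),(9,1),(6,1)]) (.cons (.keep [2,6,7,8,9] (.node (.cons (.keep [0,2,5,6,8] (.node (.cons (.keep [4,6,7,8,9] (.node (.cons (.leaf 2 [(5,1),(8,1),(7,2)]) (.cons (.keep [0,5,7,8,9] (.node (.cons (.leaf 3 [(7,2),(8,1)]) (.cons (.leaf 2 [(7,2),(8,1),(2,1)]) (.cons (.leaf 1 []) (.cons (.leaf 1 [(3,1)]) .nil)))))) (.cons (.leaf 2 [(6,1),(5,1),(1,1)]) (.cons (.leaf 2 [(6,1),(5,1),(1,1),(3,1)]) .nil)))))) (.cons (.keep [3,6,7,8,9] (.node (.cons (.leaf 2 [(7,2),(8,1)]) (.cons (.keep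 [0,5,7,8,9] (.node (.cons (.leaf 3 [(7,2),(6,1),(8,1)]) (.cons (.leaf 2 [(7,2),(6,1),(8,1),(2,1)]) (.cons (.leaf 1 []) (.cons (.leaf 1 [(3,1)]) .nil)))))) (.cons (.leaf 2 [(6,1),(1,1)]) (.cons (.leaf 2 [(6,1),(1,1),(3,1)]) .nil)))))) (.cons (.leaf 1 [(6,1)]) (.cons (.leaf 1 [(3,1),(6,1)]) .nil)))))) (.cons (.keep [3,5,6,7,8] (.node (.cons (.leaf 2 [(6,1),(5,2)]) (.cons (.leaf 2 [(6,1),(5,2),(3,1)]) (.cons (.leaf 1 [(8,1),(5,1)]) (.cons (.leaf 1 [(8,1),(5,1),(3,1)]) .nil)))))) (.cons (.keep [0,1,5,8,9] (.node (.cons (.keep [4,6,7,8,9] (.node (.cons (.leaf 2 [(9,1),(5,1),(7,2)]) (.cons (.keep [0,5,6,7,8,9] (.node (.cons (.leaf 3 [(10,1),(8,2)]) (.cons (.leaf 3 [(10,1),(8,2),(3,1)]) (.cons (.leaf 1 []) (.cons (.leaf 1 [(3,1)]) .nil)))))) (.cons (.leaf 2 [(9,1),(5,1),(1,1)]) (.cons (.leaf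 2 [(9,1),(5,1),(1,1),(3,1)]) .nil)))))) (.cons (.keep [3,6,7,8,9] (.node (.cons (.leaf 2 [(9,1),(7,2)]) (.cons (.keep [0,5,6,7,8,9] (.node (.cons (.leaf 3 [(10,1),(6,1),(8,2)]) (.cons (.leaf 3 [(10,1),(6,1),(8,2),(3,1)]) (.cons (.leaf 1 []) (.cons (.leaf 1 [(3,1)]) .nil)))))) (.cons (.leaf 2 [(9,1),(1,1)]) (.cons (.leaf 2 [(9,1),(1,1),(3,1)]) .nil)))))) (.cons (.leaf 1 [(9,1)]) (.cons (.leaf 1 [(3,1),(9,1)]) .nil)))))) (.cons (.keep [0,1,5,8,9] (.node (.cons (.leaf 2 [(9,2),(7,1),(6,1)]) (.cons (.leaf 2 [(9,2),(7,1),(6,1),(3,1)]) (.cons (.leaf 1 [(5,1),(9,1)]) (.cons (.leaf 1 [(0,1),(9,1),(3,2)]) .nil)))))) .nil)))))) (.cons (.leaf 1 [(6,1),(9,1)]) (.cons (.keep [0,1,6,7,8,9] (.node (.cons (.keep [2,4,6,7,9] (.node (.cons (.keep [4,5,7,8,9] (.node (.cons (.leaf 2 [(7,1),(5,1),(8,1)])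 (.cons (.keep [0,5,7,8,9] (.node (.cons (.leaf 3 [(7,2),(8,1)]) (.cons (.leaf 2 [(7,1),(8,1),(2,1)]) (.cons (.leaf 1 [(7,1)]) (.cons (.leaf 1 [(3,1),(7,1)]) .nil)))))) (.cons (.leaf 2 [(7,1),(5,1),(1,1)]) (.cons (.leaf 2 [(7,1),(5,1),(1,1)]) .nil)))))) (.cons (.keep [0,3,5,7,8] (.node (.cons (.leaf 2 [(8,1),(9,1)]) (.cons (.keep [0,5,6,8,9] (.node (.cons (.leaf 3 [(8,2),(7,1),(9,1)]) (.cons (.leaf 2 [(8,1),(7,1),(9,1),(2,1)]) (.cons (.leaf 1 [(8,1)]) (.cons (.leaf 1 [(3,1),(8,1)]) .nil)))))) (.cons (.leaf 2 [(8,1),(1,1)]) (.cons (.leaf 2 [(8,1),(1,1)]) .nil)))))) (.cons (.leaf 1 [(5,1),(7,1)]) (.cons (.leaf 1 [(5,1),(7,1),(3,1)]) .nil)))))) (.cons (.keep [5,6,7,8,9,10] (.node (.cons (.leaf 2 [(5,1),(10,2)]) (.cons (.leaf 2 [(5,1),(10,2),(3,1)]) (.cons (.leaf 1 [(8,1),(10,1)]) (.cons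 (.leaf 1 [(8,1),(10,1),(3,1)]) .nil)))))) (.cons (.keep [4,5,6,7,9,10] (.node (.cons (.keep [4,6,7,8,9,10] (.node (.cons (.leaf 2 [(10,1),(5,1),(6,1)]) (.cons (.keep [5,6,7,8,9,10] (.node (.cons (.leaf 3 [(10,1)]) (.cons (.leaf 3 [(10,1),(3,1)]) (.cons (.leaf 1 [(7,1)]) (.cons (.leaf 1 [(7,1),(3,1)]) .nil)))))) (.cons (.leaf 2 [(10,1),(5,1),(1,1)]) (.cons (.leaf 2 [(1,1),(5,1),(10,1)]) .nil)))))) (.cons (.keep [3,6,7,8,9,10] (.node (.cons (.leaf 2 [(10,1),(6,1)]) (.cons (.keep [5,6,7,8,9,10] (.node (.cons (.leaf 3 [(5,1),(10,1)]) (.cons (.leaf 3 [(5,1),(10,1),(3,1)]) (.cons (.leaf 1 [(7,1)]) (.cons (.leaf 1 [(7,1),(3,1)]) .nil)))))) (.cons (.leaf 2 [(10,1),(1,1)]) (.cons (.leaf 2 [(1,1),(10,1)]) .nil)))))) (.cons (.leaf 1 [(10,1)]) (.cons (.leaf 1 [(10,1),(3,1)]) .nil)))))) (.cons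 (.keep [5,6,7,8,9,10] (.node (.cons (.leaf 2 [(10,2),(7,1)]) (.cons (.leaf 2 [(10,2),(7,1),(3,1)]) (.cons (.leaf 1 [(8,1),(10,1)]) (.cons (.leaf 1 [(6,1),(0,1),(10,1),(3,2)]) .nil)))))) .nil)))))) .nil)))))) (.cons (.keep [5,6,7,8,9] (.node (.cons (.leaf 1 [(2,1),(8,1)]) (.cons (.leaf 1 [(2,1),(8,1)]) (.cons (.leaf 1 [(8,1),(9,2),(5,1)]) (.cons (.leaf 1 [(9,1),(8,1),(0,1)]) .nil)))))) .nil)))))) .nil)))))) .nil)))))) (.cons (.keep [0,3,6,7,8] (.node (.cons (.leaf 1 [(2,2),(9,2),(7,1)]) (.cons (.leaf 1 [(2,1),(9,2),(8,1)]) (.cons (.leaf 1 [(9,2),(7,1)]) (.cons (.keep [0,6,7,8,9] (.node (.cons (.leaf 1 [(9,1),(2,1)]) (.cons (.leaf 1 [(9,1),(2,1)]) (.cons (.leaf 1 [(9,2),(8,2),(7,1)]) (.cons (.leaf 1 [(9,6),(0,2),(7,1),(8,2)]) .nil)))))) .nil)))))) .nil)))))) (.cons (.leaf 1 [(7,3),(6,1),(1,1)])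 (.cons (.keep [1,5,6,7,8] (.node (.cons (.leaf 1 [(5,1),(7,2),(2,2)]) (.cons (.leaf 1 [(2,2),(8,4),(5,2),(6,1)]) (.cons (.leaf 1 [(7,2),(1,1),(5,1)]) (.cons (.keep [3,5,6,7,8] (.node (.cons (.leaf 2 [(2,3),(9,3)]) (.cons (.leaf 1 [(2,1),(6,1),(9,2),(8,1)]) (.cons (.leaf 1 [(9,2),(7,1)]) (.cons (.keep [5,6,7,8,9] (.node (.cons (.leaf 1 [(2,1),(9,1)]) (.cons (.leaf 1 [(9,1),(2,1)]) (.cons (.leaf 1 [(8,2),(9,2),(7,1)]) (.cons (.leaf 1 [(6,1),(0,2),(8,1),(9,5)]) .nil)))))) .nil)))))) .nil)))))) .nil)))))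

theorem c_10_24_12 : Concl 10 24 z_10_24_12 h_10_24_12 .nd := piece _ (hP_cons E28.c_10_24_10
  hP_nil) t_10_24_12 _ _ (by decide +kernel)

end Pool.Agent.H4.RD4.E29
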