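import Pool.Agent.H4.RD4.E28
import Pool.Agent.H4.RD4.E29

/-! # Certificates for special cases of order four -/

set_option maxRecDepth 20000

namespace Pool.Agent.H4.RD4.E30

open Pool.Agent.H50.Rdb
open Pool.Agent.H81.RDE (ESB caseOf)

def z_10_24_14 : F := ⟨1, 0, -1, -1, 2⟩

def h_10_24_14 : List F := [⟨1, 0, -1, -2, 2⟩, ⟨1, 0, -1, 0, 0⟩, ⟨0, 0, -1, 1, 0⟩, ⟨0, -1, 1, 0,
  0⟩, ⟨0, 0, -1, -1, 2⟩]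

def t_10_24_14 : T := (.node (.cons (.keep [2,4,7,8,9] (.node (.cons (.leaf 1 [(6,2),(8,3)]) (.cons (.keep [5,6,7,8,9] (.node (.cons (.leaf 1 [(2,2),(7,3)]) (.cons (.leaf 1 [(2,2),(8,3)]) (.cons (.leaf 1 [(7,3),(1,1)]) (.cons (.keep [5,6,7,8,9] (.node (.cons (.leaf 1 [(2,2),(8,1)]) (.cons (.leaf 1 [(2,1),(8,2),(7,1),(6,1)]) (.cons (.leaf 1 [(8,1)]) (.cons (.keep [5,6,7,8,9] (.node (.cons (.leaf 1 [(2,2),(8,1),(6,2)]) (.cons (.leaf 1 [(2,1),(8,1),(7,1)]) (.cons (.leaf 1 [(8,1),(6,2)]) (.cons (.leaf 1 [(8,5),(7,2),(0,2),(6,2)]) .nil)))))) .nil)))))) .nil)))))) (.cons (.leaf 1 [(8,3),(6,2),(1,2)]) (.cons (.keep [1,5,6,8,9] (.node (.cons (.leaf 1 [(2,2),(7,3),(5,2)]) (.cons (.leaf 1 [(2,2),(8,3),(5,2)]) (.cons (.leaf 1 [(5,2),(7,3),(1,1)]) (.cons (.keep [5,6,7,8,9] (.node (.cons (.leaf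 1 [(2,2),(8,1)]) (.cons (.leaf 1 [(2,1),(5,2),(8,2),(7,2)]) (.cons (.leaf 1 [(8,1)]) (.cons (.keep [5,6,7,8,9] (.node (.cons (.leaf 1 [(8,1),(5,2)]) (.cons (.leaf 1 [(5,2),(3,2),(8,1)]) (.cons (.leaf 1 [(8,1),(7,2)]) (.cons (.leaf 1 [(8,5),(5,4),(0,2),(7,4)]) .nil)))))) .nil)))))) .nil)))))) .nil)))))) (.cons (.keep [2,3,6,7,8] (.node (.cons (.leaf 1 [(2,1),(8,1),(9,3)]) (.cons (.keep [2,5,6,7,8,9] (.node (.cons (.leaf 1 [(2,2),(7,1),(9,3)]) (.cons (.leaf 1 [(2,2),(7,1),(10,3)]) (.cons (.leaf 1 [(9,3),(7,1),(1,1)]) (.cons (.keep [5,6,7,8,9,10] (.node (.cons (.leaf 1 [(7,3),(5,1),(2,3)]) (.cons (.leaf 1 [(2,1),(10,2),(9,1)]) (.cons (.leaf 1 [(7,3),(5,1),(1,1)]) (.cons (.keep [5,6,7,8,9,10] (.node (.cons (.leaf 2 [(2,3),(10,2),(9,1)]) (.cons (.leaf 1 [(7,1),(10,1),(2,1),(9,1)]) (.cons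 (.leaf 1 [(10,1),(9,1),(5,1)]) (.cons (.leaf 1 [(10,5),(9,2),(7,1),(0,2)]) .nil)))))) .nil)))))) .nil)))))) (.cons (.leaf 1 [(9,3),(8,1),(1,1)]) (.cons (.keep [5,6,7,8,9] (.node (.cons (.leaf 1 [(2,2),(8,2)]) (.cons (.leaf 1 [(8,2),(6,3),(9,3),(2,2)]) (.cons (.leaf 1 [(8,2),(1,1)]) (.cons (.keep [0,5,6,8,9] (.node (.cons (.leaf 1 [(2,2),(7,1),(9,1)]) (.cons (.leaf 1 [(2,1),(7,1),(9,2),(8,2)]) (.cons (.leaf 1 [(7,1),(9,1)]) (.cons (.keep [0,5,7,8,9] (.node (.cons (.leaf 2 [(9,2),(8,1),(2,3)]) (.cons (.leaf 1 [(7,1),(8,1),(2,1),(9,1)]) (.cons (.leaf 2 [(9,4),(8,2),(5,1)]) (.cons (.leaf 1 [(7,3),(8,4),(0,2),(9,5)]) .nil)))))) .nil)))))) .nil)))))) .nil)))))) (.cons (.keep [4,5,7,8] (.node (.cons (.leaf 1 [(2,1),(5,1),(8,2)]) (.cons (.keep [0,2,6,7,8] (.node (.cons (.leaf 1 [(8,1),(2,2)])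 (.cons (.keep [0,2,6,8,9] (.node (.cons (.leaf 2 [(2,4),(7,1)]) (.cons (.leaf 1 [(8,3),(2,2),(7,2)]) (.cons (.keep [0,6,7,8,9] (.node (.cons (.leaf 1 [(2,1),(7,1)]) (.cons (.keep [0,2,7,8,9] (.node (.cons (.keep [2,4,6,7,8] (.node (.cons (.keep [2,4,5,7,8] (.node (.cons (.leaf 4 [(6,2),(9,3),(8,4)]) (.cons (.keep [0,5,6,8,9] (.node (.cons (.leaf 3 [(9,2),(8,2)]) (.cons (.leaf 4 [(9,3),(8,4),(2,2)]) (.cons (.leaf 2 [(9,1)]) (.cons (.leaf 2 [(3,2),(9,1)]) .nil)))))) (.cons (.leaf 4 [(9,1),(6,2),(1,2)]) (.cons (.leaf 4 [(9,1),(6,2),(3,2),(1,2)]) .nil)))))) (.cons (.keep [3,5,7,8,9] (.node (.cons (.leaf 4 [(7,4),(8,3)]) (.cons (.keep [0,5,7,8,9] (.node (.cons (.leaf 3 [(6,1),(8,2),(7,2)]) (.cons (.leaf 4 [(6,2),(8,3),(7,4),(2,2)]) (.cons (.leaf 2 [(8,1)]) (.cons (.leaf 2 [(3,2),(8,1)])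 .nil)))))) (.cons (.leaf 4 [(8,1),(1,2)]) (.cons (.leaf 4 [(8,1),(1,2),(3,2)]) .nil)))))) (.cons (.leaf 1 []) (.cons (.leaf 1 [(3,1)]) .nil)))))) (.cons (.keep [0,3,6,7,8] (.node (.cons (.leaf 2 [(7,1),(8,1),(6,1)]) (.cons (.leaf 2 [(7,1),(8,1),(6,1),(3,1)]) (.cons (.leaf 1 []) (.cons (.leaf 1 [(3,1)]) .nil)))))) (.cons (.keep [1,4,5,6,8] (.node (.cons (.keep [2,4,5,7,8] (.node (.cons (.leaf 2 [(6,1),(7,1),(9,2)]) (.cons (.keep [0,5,6,7,9] (.node (.cons (.leaf 3 [(8,2),(9,2)]) (.cons (.leaf 2 [(8,1),(9,2),(2,1)]) (.cons (.leaf 1 [(8,1)]) (.cons (.leaf 1 [(3,1),(8,1)]) .nil)))))) (.cons (.leaf 2 [(7,1),(6,1),(1,1)]) (.cons (.leaf 2 [(7,1),(6,1),(3,1),(1,1)]) .nil)))))) (.cons (.keep [3,5,7,8,9] (.node (.cons (.leaf 2 [(8,2),(6,1)]) (.cons (.keep [0,5,6,8,9] (.node (.cons (.leaf 3 [(6,1),(7,2),(8,2)])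 (.cons (.leaf 2 [(6,1),(7,1),(8,2),(2,1)]) (.cons (.leaf 1 [(7,1)]) (.cons (.leaf 1 [(3,1),(7,1)]) .nil)))))) (.cons (.leaf 2 [(6,1),(1,1)]) (.cons (.leaf 2 [(6,1),(1,1),(3,1)]) .nil)))))) (.cons (.leaf 1 []) (.cons (.leaf 1 [(3,1)]) .nil)))))) (.cons (.keep [5,6,7,8,9] (.node (.cons (.leaf 2 [(5,1),(6,1),(7,2)]) (.cons (.leaf 2 [(5,1),(6,1),(7,2),(3,1)]) (.cons (.leaf 1 []) (.cons (.leaf 1 [(3,1)]) .nil)))))) .nil)))))) (.cons (.leaf 1 [(7,1)]) (.cons (.keep [0,1,7,8,9] (.node (.cons (.keep [2,4,6,7,8] (.node (.cons (.keep [4,5,6,7,8] (.node (.cons (.leaf 2 [(6,1),(5,1),(9,2)]) (.cons (.keep [5,6,7,8,9] (.node (.cons (.leaf 3 [(9,2)]) (.cons (.leaf 3 [(9,2),(3,1)]) (.cons (.leaf 1 [(8,2),(1,1)]) (.cons (.leaf 1 [(3,3),(8,2),(1,1)]) .nil)))))) (.cons (.leaf 2 [(8,1),(5,1),(1,1)]) (.cons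 (.leaf 2 [(8,1),(5,1),(3,2),(1,1)]) .nil)))))) (.cons (.keep [3,5,7,8,9] (.node (.cons (.leaf 2 [(6,1),(8,2)]) (.cons (.keep [5,6,7,8,9] (.node (.cons (.leaf 3 [(5,1),(8,2)]) (.cons (.leaf 3 [(5,1),(8,2),(3,1)]) (.cons (.leaf 2 [(7,1),(8,1)]) (.cons (.leaf 2 [(3,2),(7,1),(8,1)]) .nil)))))) (.cons (.leaf 2 [(7,1),(1,1)]) (.cons (.leaf 2 [(7,1),(1,1),(3,2)]) .nil)))))) (.cons (.leaf 1 []) (.cons (.leaf 1 [(3,1)]) .nil)))))) (.cons (.keep [0,3,6,7,8] (.node (.cons (.leaf 2 [(8,1),(6,1)]) (.cons (.leaf 2 [(8,1),(6,1),(3,1)]) (.cons (.leaf 1 []) (.cons (.leaf 1 [(3,1)]) .nil)))))) (.cons (.keep [4,5,6,7,8] (.node (.cons (.keep [4,5,6,7,8] (.node (.cons (.leaf 2 [(7,1),(5,1),(9,2)]) (.cons (.keep [5,6,7,8,9] (.node (.cons (.leaf 3 [(9,2)]) (.cons (.leaf 3 [(9,2),(3,1)]) (.cons (.leaf 1 [(8,1),(9,1)])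 (.cons (.leaf 1 [(8,1),(9,1),(3,1)]) .nil)))))) (.cons (.leaf 2 [(9,1),(5,1),(1,1)]) (.cons (.leaf 2 [(9,1),(5,1),(1,1)]) .nil)))))) (.cons (.keep [3,6,7,8,9] (.node (.cons (.leaf 2 [(6,1),(8,2)]) (.cons (.keep [5,6,7,8,9] (.node (.cons (.leaf 3 [(5,1),(8,2)]) (.cons (.leaf 3 [(5,1),(8,2),(3,1)]) (.cons (.leaf 1 [(7,1),(8,1)]) (.cons (.leaf 1 [(7,1),(8,1),(3,1)]) .nil)))))) (.cons (.leaf 2 [(8,1),(1,1)]) (.cons (.leaf 2 [(8,1),(1,1)]) .nil)))))) (.cons (.leaf 1 []) (.cons (.leaf 1 [(3,1)]) .nil)))))) (.cons (.keep [5,6,7,8,9] (.node (.cons (.leaf 2 [(5,1),(7,2),(6,1)]) (.cons (.leaf 1 [(5,1),(7,2),(6,1),(2,1)]) (.cons (.leaf 1 []) (.cons (.leaf 1 [(3,1)]) .nil)))))) .nil)))))) .nil)))))) (.cons (.keep [0,6,7,8,9] (.node (.cons (.leaf 1 [(2,1),(6,1)]) (.cons (.leaf 1 [(2,1),(6,1)]) (.cons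 (.leaf 1 [(8,1),(7,2)]) (.cons (.leaf 1 [(9,2),(6,2),(0,1),(7,1)]) .nil)))))) .nil)))))) (.cons (.leaf 1 [(8,1)]) (.cons (.keep [0,6,8,9] (.node (.cons (.leaf 2 [(2,3),(8,1),(6,1)]) (.cons (.leaf 1 [(2,1),(8,1),(6,1),(7,1)]) (.cons (.keep [4,5,6,7,8] (.node (.cons (.leaf 1 [(2,1),(7,1)]) (.cons (.keep [0,2,7,8,9] (.node (.cons (.keep [0,2,6,7,8] (.node (.cons (.keep [4,6,7,8,9] (.node (.cons (.leaf 2 [(5,1),(8,1),(7,2)]) (.cons (.keep [0,5,7,8,9] (.node (.cons (.leaf 3 [(7,2),(8,1)]) (.cons (.leaf 2 [(7,2),(8,1),(2,1)]) (.cons (.leaf 1 []) (.cons (.leaf 1 [(3,1)]) .nil)))))) (.cons (.leaf 2 [(6,1),(5,1),(1,1)]) (.cons (.leaf 2 [(6,1),(5,1),(1,1),(3,1)]) .nil)))))) (.cons (.keep [3,6,7,8,9] (.node (.cons (.leaf 2 [(7,2),(8,1)]) (.cons (.keep [0,5,7,8,9] (.node (.cons (.leaf 3 [(7,2),(6,1),(8,1)])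 (.cons (.leaf 2 [(7,2),(6,1),(8,1),(2,1)]) (.cons (.leaf 1 []) (.cons (.leaf 1 [(3,1)]) .nil)))))) (.cons (.leaf 2 [(6,1),(1,1)]) (.cons (.leaf 2 [(6,1),(1,1),(3,1)]) .nil)))))) (.cons (.leaf 1 [(6,1)]) (.cons (.leaf 1 [(3,1),(6,1)]) .nil)))))) (.cons (.keep [3,6,7,8,9] (.node (.cons (.leaf 2 [(6,1)]) (.cons (.leaf 2 [(6,1),(3,1)]) (.cons (.leaf 1 [(9,1)]) (.cons (.leaf 1 [(9,1),(3,1)]) .nil)))))) (.cons (.keep [1,4,5,6,8] (.node (.cons (.keep [2,4,5,7,8] (.node (.cons (.leaf 2 [(6,1),(7,1),(9,2)]) (.cons (.keep [0,5,6,7,9] (.node (.cons (.leaf 3 [(8,2),(9,2)]) (.cons (.leaf 2 [(8,1),(9,2),(2,1)]) (.cons (.leaf 1 [(8,1)]) (.cons (.leaf 1 [(3,1),(8,1)]) .nil)))))) (.cons (.leaf 2 [(7,1),(6,1),(1,1)]) (.cons (.leaf 2 [(7,1),(6,1),(3,1),(1,1)]) .nil)))))) (.cons (.keep [3,5,7,8,9] (.node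 (.cons (.leaf 2 [(8,2),(6,1)]) (.cons (.keep [0,5,6,8,9] (.node (.cons (.leaf 3 [(6,1),(7,2),(8,2)]) (.cons (.leaf 2 [(6,1),(7,1),(8,2),(2,1)]) (.cons (.leaf 1 [(7,1)]) (.cons (.leaf 1 [(3,1),(7,1)]) .nil)))))) (.cons (.leaf 2 [(6,1),(1,1)]) (.cons (.leaf 2 [(6,1),(1,1),(3,1)]) .nil)))))) (.cons (.leaf 1 []) (.cons (.leaf 1 [(3,1)]) .nil)))))) (.cons (.keep [1,5,6,8,9] (.node (.cons (.leaf 2 [(7,1),(5,1)]) (.cons (.leaf 2 [(7,1),(3,1),(5,1)]) (.cons (.leaf 1 [(9,1)]) (.cons (.leaf 1 [(9,1),(3,1)]) .nil)))))) .nil)))))) (.cons (.leaf 1 [(7,1)]) (.cons (.keep [0,1,7,8,9] (.node (.cons (.keep [0,2,6,7,8] (.node (.cons (.keep [4,6,7,8,9] (.node (.cons (.leaf 2 [(6,1),(5,1),(8,2)]) (.cons (.keep [5,6,7,8,9] (.node (.cons (.leaf 3 [(6,1),(8,2)]) (.cons (.leaf 3 [(6,1),(8,2),(3,1)]) (.cons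 (.leaf 1 []) (.cons (.leaf 1 [(3,1)]) .nil)))))) (.cons (.leaf 2 [(6,1),(5,1),(1,1)]) (.cons (.leaf 2 [(6,1),(5,1),(1,1),(3,1)]) .nil)))))) (.cons (.keep [3,6,7,8,9] (.node (.cons (.leaf 2 [(6,1),(8,2)]) (.cons (.keep [5,6,7,8,9] (.node (.cons (.leaf 3 [(6,1),(5,1),(8,2)]) (.cons (.leaf 3 [(6,1),(5,1),(8,2),(3,1)]) (.cons (.leaf 1 []) (.cons (.leaf 1 [(3,1)]) .nil)))))) (.cons (.leaf 2 [(6,1),(1,1)]) (.cons (.leaf 2 [(6,1),(1,1),(3,1)]) .nil)))))) (.cons (.leaf 1 [(6,1)]) (.cons (.leaf 1 [(3,1),(6,1)]) .nil)))))) (.cons (.keep [3,6,7,8,9] (.node (.cons (.leaf 1 [(2,1),(7,1),(5,1)]) (.cons (.leaf 1 [(2,1),(7,1),(5,1)]) (.cons (.leaf 1 [(9,1)]) (.cons (.leaf 1 [(9,1),(3,1)]) .nil)))))) (.cons (.keep [4,5,6,7,8] (.node (.cons (.keep [4,5,6,7,8] (.node (.cons (.leaf 2 [(7,1),(5,1),(9,2)])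 (.cons (.keep [5,6,7,8,9] (.node (.cons (.leaf 3 [(9,2)]) (.cons (.leaf 3 [(9,2),(3,1)]) (.cons (.leaf 1 [(8,1),(9,1)]) (.cons (.leaf 1 [(8,1),(9,1),(3,1)]) .nil)))))) (.cons (.leaf 2 [(9,1),(5,1),(1,1)]) (.cons (.leaf 2 [(9,1),(5,1),(1,1)]) .nil)))))) (.cons (.keep [3,6,7,8,9] (.node (.cons (.leaf 2 [(6,1),(8,2)]) (.cons (.keep [5,6,7,8,9] (.node (.cons (.leaf 3 [(5,1),(8,2)]) (.cons (.leaf 3 [(5,1),(8,2),(3,1)]) (.cons (.leaf 1 [(7,1),(8,1)]) (.cons (.leaf 1 [(7,1),(8,1),(3,1)]) .nil)))))) (.cons (.leaf 2 [(8,1),(1,1)]) (.cons (.leaf 2 [(8,1),(1,1)]) .nil)))))) (.cons (.leaf 1 []) (.cons (.leaf 1 [(3,1)]) .nil)))))) (.cons (.keep [5,6,7,8,9] (.node (.cons (.leaf 2 [(7,1)]) (.cons (.leaf 2 [(7,1),(3,1)]) (.cons (.leaf 1 [(9,1)]) (.cons (.leaf 1 [(9,1),(3,1)]) .nil)))))) .nil))))))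 .nil)))))) (.cons (.keep [0,5,6,7,8] (.node (.cons (.leaf 1 [(2,1)]) (.cons (.leaf 1 [(2,1)]) (.cons (.leaf 1 [(7,2),(8,1)]) (.cons (.leaf 1 [(9,2),(8,1),(0,2),(7,2)]) .nil)))))) .nil)))))) .nil)))))) (.cons (.leaf 1 [(8,2),(5,1),(1,1)]) (.cons (.keep [0,1,5,6,8] (.leaf 0 [(0,0)])) .nil)))))) (.cons (.keep [0,3,6,7,8] (.node (.cons (.leaf 1 [(2,1),(9,2)]) (.cons (.keep [0,2,6,8,9] (.node (.cons (.leaf 1 [(2,2),(8,1),(7,1)]) (.cons (.leaf 1 [(6,1),(2,2),(9,2),(7,2)]) (.cons (.leaf 1 [(8,1),(7,1)]) (.cons (.keep [0,6,7,8,9] (.node (.cons (.leaf 1 [(2,2),(7,2),(6,1)]) (.cons (.leaf 1 [(2,1),(9,1)]) (.cons (.leaf 1 [(7,2),(6,1)]) (.cons (.keep [0,5,6,7,8,9] (.node (.cons (.leaf 1 [(7,1),(2,2)]) (.cons (.leaf 1 [(2,1),(8,1)]) (.cons (.leaf 1 [(7,1)]) (.cons (.leaf 1 [(10,2),(7,1),(8,2),(0,2)])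 .nil)))))) .nil)))))) .nil)))))) (.cons (.leaf 1 [(9,2),(1,1)]) (.cons (.keep [0,6,8,9] (.node (.cons (.leaf 1 [(2,2),(7,1),(6,1)]) (.cons (.leaf 1 [(2,2),(7,1),(8,2),(6,3)]) (.cons (.leaf 1 [(7,1),(6,1)]) (.cons (.keep [0,6,7,8] (.node (.cons (.leaf 2 [(2,3),(6,2),(8,1)]) (.cons (.leaf 1 [(2,1),(7,1),(8,1),(6,1)]) (.cons (.leaf 1 [(6,3),(8,1),(5,1)]) (.cons (.keep [0,5,6,7,8] (.node (.cons (.leaf 1 [(7,1),(2,1)]) (.cons (.leaf 1 [(2,1),(7,1)]) (.cons (.leaf 1 [(9,1),(5,1),(7,1)]) (.cons (.leaf 1 [(8,1),(9,2),(7,3),(0,2)]) .nil)))))) .nil)))))) .nil)))))) .nil)))))) .nil)))))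

theorem c_10_24_14 : Concl 10 24 z_10_24_14 h_10_24_14 .nd := piece _ (hP_cons E28.c_10_24_13
  hP_nil) t_10_24_14 _ _ (by decide +kernel)

def z_10_24_15 : F := ⟨1, 0, 0, -1, 1⟩

def h_10_24_15 : List F := [⟨1, 0, 0, -2, 1⟩, ⟨1, 0, -1, 0, 0⟩, ⟨0, 0, -1, 1, 0⟩, ⟨0, 0, 0, -1,
  1⟩, ⟨1, -1, 0, -1, 1⟩]

def t_10_24_15 : T := (.node (.cons (.keep [2,4,7,8] (.node (.cons (.keep [2,4,7,8] (.leaf 0 [(0,0)])) (.cons (.keep [2,3,5,7,8] (.node (.cons (.leaf 1 [(2,1),(8,3)]) (.cons (.keep [0,2,5,6,8,9] (.node (.cons (.leaf 1 [(2,2),(8,1),(9,2)]) (.cons (.leaf 1 [(6,1),(2,2),(9,3),(8,2)]) (.cons (.keep [4,5,8,9] (.node (.cons (.leaf 1 [(2,1),(5,1),(7,2)]) (.cons (.keep [0,2,6,7,8] (.node (.cons (.leaf 1 [(8,1),(2,2)]) (.cons (.keep [0,2,6,7,8] (.node (.cons (.leaf 2 [(2,4),(7,1)]) (.cons (.leaf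 2 [(6,3),(9,3),(2,1),(7,1)]) (.cons (.keep [0,6,7,8,9] (.node (.cons (.leaf 1 [(2,1),(7,1)]) (.cons (.keep [0,2,7,8,9] (.node (.cons (.keep [2,4,6,7,8] (.node (.cons (.keep [2,4,5,7,8] (.node (.cons (.leaf 4 [(6,2),(9,3),(8,4)]) (.cons (.keep [0,5,6,8,9] (.node (.cons (.leaf 3 [(9,2),(8,2)]) (.cons (.leaf 4 [(9,3),(8,4),(2,2)]) (.cons (.leaf 2 [(9,1)]) (.cons (.leaf 2 [(3,2),(9,1)]) .nil)))))) (.cons (.leaf 4 [(9,1),(6,2),(1,2)]) (.cons (.leaf 4 [(9,1),(6,2),(3,2),(1,2)]) .nil)))))) (.cons (.keep [3,5,7,8,9] (.node (.cons (.leaf 4 [(7,4),(8,3)]) (.cons (.keep [0,5,7,8,9] (.node (.cons (.leaf 3 [(6,1),(8,2),(7,2)]) (.cons (.leaf 4 [(6,2),(8,3),(7,4),(2,2)]) (.cons (.leaf 2 [(8,1)]) (.cons (.leaf 2 [(3,2),(8,1)]) .nil)))))) (.cons (.leaf 4 [(8,1),(1,2)]) (.cons (.leaf 4 [(8,1),(1,2),(3,2)])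 .nil)))))) (.cons (.leaf 1 []) (.cons (.leaf 1 [(3,1)]) .nil)))))) (.cons (.keep [0,3,6,7,8] (.node (.cons (.leaf 2 [(7,1),(8,1),(6,1)]) (.cons (.leaf 2 [(7,1),(8,1),(6,1),(3,1)]) (.cons (.leaf 1 []) (.cons (.leaf 1 [(3,1)]) .nil)))))) (.cons (.keep [1,4,5,6,8] (.node (.cons (.keep [2,4,5,7,8] (.node (.cons (.leaf 2 [(6,1),(7,1),(9,2)]) (.cons (.keep [0,5,6,7,9] (.node (.cons (.leaf 3 [(8,2),(9,2)]) (.cons (.leaf 2 [(8,1),(9,2),(2,1)]) (.cons (.leaf 1 [(8,1)]) (.cons (.leaf 1 [(3,1),(8,1)]) .nil)))))) (.cons (.leaf 2 [(7,1),(6,1),(1,1)]) (.cons (.leaf 2 [(7,1),(6,1),(3,1),(1,1)]) .nil)))))) (.cons (.keep [3,5,7,8,9] (.node (.cons (.leaf 2 [(8,2),(6,1)]) (.cons (.keep [0,5,6,8,9] (.node (.cons (.leaf 3 [(6,1),(7,2),(8,2)]) (.cons (.leaf 2 [(6,1),(7,1),(8,2),(2,1)]) (.cons (.leaf 1 [(7,1)])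 (.cons (.leaf 1 [(3,1),(7,1)]) .nil)))))) (.cons (.leaf 2 [(6,1),(1,1)]) (.cons (.leaf 2 [(6,1),(1,1),(3,1)]) .nil)))))) (.cons (.leaf 1 []) (.cons (.leaf 1 [(3,1)]) .nil)))))) (.cons (.keep [5,6,7,8,9] (.node (.cons (.leaf 2 [(5,1),(6,1),(7,2)]) (.cons (.leaf 2 [(5,1),(6,1),(7,2),(3,1)]) (.cons (.leaf 1 []) (.cons (.leaf 1 [(3,1)]) .nil)))))) .nil)))))) (.cons (.leaf 1 [(7,1)]) (.cons (.keep [0,1,7,8,9] (.node (.cons (.keep [2,4,6,7,8] (.node (.cons (.keep [4,5,6,7,8] (.node (.cons (.leaf 2 [(6,1),(5,1),(9,2)]) (.cons (.keep [5,6,7,8,9] (.node (.cons (.leaf 3 [(9,2)]) (.cons (.leaf 3 [(9,2),(3,1)]) (.cons (.leaf 1 [(8,2),(1,1)]) (.cons (.leaf 1 [(3,3),(8,2),(1,1)]) .nil)))))) (.cons (.leaf 2 [(8,1),(5,1),(1,1)]) (.cons (.leaf 2 [(8,1),(5,1),(3,2),(1,1)]) .nil)))))) (.cons (.keep [3,5,7,8,9]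 (.node (.cons (.leaf 2 [(6,1),(8,2)]) (.cons (.keep [5,6,7,8,9] (.node (.cons (.leaf 3 [(5,1),(8,2)]) (.cons (.leaf 3 [(5,1),(8,2),(3,1)]) (.cons (.leaf 2 [(7,1),(8,1)]) (.cons (.leaf 2 [(3,2),(7,1),(8,1)]) .nil)))))) (.cons (.leaf 2 [(7,1),(1,1)]) (.cons (.leaf 2 [(7,1),(1,1),(3,2)]) .nil)))))) (.cons (.leaf 1 []) (.cons (.leaf 1 [(3,1)]) .nil)))))) (.cons (.keep [0,3,6,7,8] (.node (.cons (.leaf 2 [(8,1),(6,1)]) (.cons (.leaf 2 [(8,1),(6,1),(3,1)]) (.cons (.leaf 1 []) (.cons (.leaf 1 [(3,1)]) .nil)))))) (.cons (.keep [4,5,6,7,8] (.node (.cons (.keep [4,5,6,7,8] (.node (.cons (.leaf 2 [(7,1),(5,1),(9,2)]) (.cons (.keep [5,6,7,8,9] (.node (.cons (.leaf 3 [(9,2)]) (.cons (.leaf 3 [(9,2),(3,1)]) (.cons (.leaf 1 [(8,1),(9,1)]) (.cons (.leaf 1 [(8,1),(9,1),(3,1)]) .nil)))))) (.cons (.leaf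 2 [(9,1),(5,1),(1,1)]) (.cons (.leaf 2 [(9,1),(5,1),(1,1)]) .nil)))))) (.cons (.keep [3,6,7,8,9] (.node (.cons (.leaf 2 [(6,1),(8,2)]) (.cons (.keep [5,6,7,8,9] (.node (.cons (.leaf 3 [(5,1),(8,2)]) (.cons (.leaf 3 [(5,1),(8,2),(3,1)]) (.cons (.leaf 1 [(7,1),(8,1)]) (.cons (.leaf 1 [(7,1),(8,1),(3,1)]) .nil)))))) (.cons (.leaf 2 [(8,1),(1,1)]) (.cons (.leaf 2 [(8,1),(1,1)]) .nil)))))) (.cons (.leaf 1 []) (.cons (.leaf 1 [(3,1)]) .nil)))))) (.cons (.keep [5,6,7,8,9] (.node (.cons (.leaf 2 [(5,1),(7,2),(6,1)]) (.cons (.leaf 1 [(5,1),(7,2),(6,1),(2,1)]) (.cons (.leaf 1 []) (.cons (.leaf 1 [(3,1)]) .nil)))))) .nil)))))) .nil)))))) (.cons (.keep [0,6,7,8,9] (.node (.cons (.leaf 1 [(2,1),(6,1)]) (.cons (.leaf 1 [(2,1),(6,1)]) (.cons (.leaf 1 [(9,1),(6,1),(7,1)]) (.cons (.leaf 1 [(9,2),(6,2),(0,1),(7,1)])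 .nil)))))) .nil)))))) (.cons (.leaf 1 [(9,1)]) (.cons (.keep [0,6,7,8,9] (.node (.cons (.leaf 2 [(2,3),(8,1),(6,1)]) (.cons (.leaf 2 [(2,1),(8,1),(6,1),(9,2)]) (.cons (.keep [4,5,6,7,8] (.node (.cons (.leaf 1 [(2,1),(7,1)]) (.cons (.keep [0,2,7,8,9] (.node (.cons (.keep [0,2,6,7,8] (.node (.cons (.keep [4,6,7,8,9] (.node (.cons (.leaf 2 [(5,1),(8,1),(7,2)]) (.cons (.keep [0,5,7,8,9] (.node (.cons (.leaf 3 [(7,2),(8,1)]) (.cons (.leaf 2 [(7,2),(8,1),(2,1)]) (.cons (.leaf 1 []) (.cons (.leaf 1 [(3,1)]) .nil)))))) (.cons (.leaf 2 [(6,1),(5,1),(1,1)]) (.cons (.leaf 2 [(6,1),(5,1),(1,1),(3,1)]) .nil)))))) (.cons (.keep [3,6,7,8,9] (.node (.cons (.leaf 2 [(7,2),(8,1)]) (.cons (.keep [0,5,7,8,9] (.node (.cons (.leaf 3 [(7,2),(6,1),(8,1)]) (.cons (.leaf 2 [(7,2),(6,1),(8,1),(2,1)]) (.cons (.leaf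 1 []) (.cons (.leaf 1 [(3,1)]) .nil)))))) (.cons (.leaf 2 [(6,1),(1,1)]) (.cons (.leaf 2 [(6,1),(1,1),(3,1)]) .nil)))))) (.cons (.leaf 1 [(6,1)]) (.cons (.leaf 1 [(3,1),(6,1)]) .nil)))))) (.cons (.keep [3,6,7,8,9] (.node (.cons (.leaf 2 [(6,1)]) (.cons (.leaf 2 [(6,1),(3,1)]) (.cons (.leaf 1 [(9,1)]) (.cons (.leaf 1 [(9,1),(3,1)]) .nil)))))) (.cons (.keep [1,4,5,6,8] (.node (.cons (.keep [2,4,5,7,8] (.node (.cons (.leaf 2 [(6,1),(7,1),(9,2)]) (.cons (.keep [0,5,6,7,9] (.node (.cons (.leaf 3 [(8,2),(9,2)]) (.cons (.leaf 2 [(8,1),(9,2),(2,1)]) (.cons (.leaf 1 [(8,1)]) (.cons (.leaf 1 [(3,1),(8,1)]) .nil)))))) (.cons (.leaf 2 [(7,1),(6,1),(1,1)]) (.cons (.leaf 2 [(7,1),(6,1),(3,1),(1,1)]) .nil)))))) (.cons (.keep [3,5,7,8,9] (.node (.cons (.leaf 2 [(8,2),(6,1)]) (.cons (.keep [0,5,6,8,9]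 (.node (.cons (.leaf 3 [(6,1),(7,2),(8,2)]) (.cons (.leaf 2 [(6,1),(7,1),(8,2),(2,1)]) (.cons (.leaf 1 [(7,1)]) (.cons (.leaf 1 [(3,1),(7,1)]) .nil)))))) (.cons (.leaf 2 [(6,1),(1,1)]) (.cons (.leaf 2 [(6,1),(1,1),(3,1)]) .nil)))))) (.cons (.leaf 1 []) (.cons (.leaf 1 [(3,1)]) .nil)))))) (.cons (.keep [1,5,6,8,9] (.node (.cons (.leaf 2 [(7,1),(5,1)]) (.cons (.leaf 2 [(7,1),(3,1),(5,1)]) (.cons (.leaf 1 [(9,1)]) (.cons (.leaf 1 [(9,1),(3,1)]) .nil)))))) .nil)))))) (.cons (.leaf 1 [(7,1)]) (.cons (.keep [0,1,7,8,9] (.node (.cons (.keep [0,2,6,7,8] (.node (.cons (.keep [4,6,7,8,9] (.node (.cons (.leaf 2 [(6,1),(5,1),(8,2)]) (.cons (.keep [5,6,7,8,9] (.node (.cons (.leaf 3 [(6,1),(8,2)]) (.cons (.leaf 3 [(6,1),(8,2),(3,1)]) (.cons (.leaf 1 []) (.cons (.leaf 1 [(3,1)]) .nil)))))) (.cons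 (.leaf 2 [(6,1),(5,1),(1,1)]) (.cons (.leaf 2 [(6,1),(5,1),(1,1),(3,1)]) .nil)))))) (.cons (.keep [3,6,7,8,9] (.node (.cons (.leaf 2 [(6,1),(8,2)]) (.cons (.keep [5,6,7,8,9] (.node (.cons (.leaf 3 [(6,1),(5,1),(8,2)]) (.cons (.leaf 3 [(6,1),(5,1),(8,2),(3,1)]) (.cons (.leaf 1 []) (.cons (.leaf 1 [(3,1)]) .nil)))))) (.cons (.leaf 2 [(6,1),(1,1)]) (.cons (.leaf 2 [(6,1),(1,1),(3,1)]) .nil)))))) (.cons (.leaf 1 [(6,1)]) (.cons (.leaf 1 [(3,1),(6,1)]) .nil)))))) (.cons (.keep [3,6,7,8,9] (.node (.cons (.leaf 1 [(2,1),(7,1),(5,1)]) (.cons (.leaf 1 [(2,1),(7,1),(5,1)]) (.cons (.leaf 1 [(9,1)]) (.cons (.leaf 1 [(9,1),(3,1)]) .nil)))))) (.cons (.keep [4,5,6,7,8] (.node (.cons (.keep [4,5,6,7,8] (.node (.cons (.leaf 2 [(7,1),(5,1),(9,2)]) (.cons (.keep [5,6,7,8,9] (.node (.cons (.leaf 3 [(9,2)])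 (.cons (.leaf 3 [(9,2),(3,1)]) (.cons (.leaf 1 [(8,1),(9,1)]) (.cons (.leaf 1 [(8,1),(9,1),(3,1)]) .nil)))))) (.cons (.leaf 2 [(9,1),(5,1),(1,1)]) (.cons (.leaf 2 [(9,1),(5,1),(1,1)]) .nil)))))) (.cons (.keep [3,6,7,8,9] (.node (.cons (.leaf 2 [(6,1),(8,2)]) (.cons (.keep [5,6,7,8,9] (.node (.cons (.leaf 3 [(5,1),(8,2)]) (.cons (.leaf 3 [(5,1),(8,2),(3,1)]) (.cons (.leaf 1 [(7,1),(8,1)]) (.cons (.leaf 1 [(7,1),(8,1),(3,1)]) .nil)))))) (.cons (.leaf 2 [(8,1),(1,1)]) (.cons (.leaf 2 [(8,1),(1,1)]) .nil)))))) (.cons (.leaf 1 []) (.cons (.leaf 1 [(3,1)]) .nil)))))) (.cons (.keep [5,6,7,8,9] (.node (.cons (.leaf 2 [(7,1)]) (.cons (.leaf 2 [(7,1),(3,1)]) (.cons (.leaf 1 [(9,1)]) (.cons (.leaf 1 [(9,1),(3,1)]) .nil)))))) .nil)))))) .nil)))))) (.cons (.keep [5,6,7,8,9] (.node (.cons (.leaf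 1 [(2,1)]) (.cons (.leaf 1 [(2,1)]) (.cons (.leaf 1 [(6,1),(9,1)]) (.cons (.leaf 1 [(8,1),(9,1),(0,1),(6,1)]) .nil)))))) .nil)))))) .nil)))))) (.cons (.leaf 1 [(7,2),(5,1),(1,1)]) (.cons (.keep [0,1,6,7,8] (.leaf 0 [(1,0)])) .nil)))))) (.cons (.keep [0,3,6,7,8,9] (.node (.cons (.leaf 1 [(2,3),(9,4),(7,2)]) (.cons (.leaf 1 [(2,1),(10,2)]) (.cons (.leaf 1 [(9,4),(1,1),(7,2)]) (.cons (.keep [0,6,8,9,10] (.node (.cons (.leaf 1 [(9,1),(8,1),(2,1)]) (.cons (.leaf 1 [(9,1),(2,1),(8,1)]) (.cons (.leaf 1 [(9,4),(5,1),(7,1)]) (.cons (.leaf 1 [(9,6),(7,1),(8,1),(0,2)]) .nil)))))) .nil)))))) .nil)))))) (.cons (.leaf 1 [(8,3),(1,1)]) (.cons (.keep [0,1,5,8] (.node (.cons (.leaf 1 [(8,1),(6,1),(2,2)]) (.cons (.leaf 1 [(2,2),(6,3),(8,5),(7,2)]) (.cons (.leaf 1 [(6,1),(8,1)]) (.cons (.keep [0,6,7,8]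 (.node (.cons (.leaf 1 [(2,1),(6,1),(8,2)]) (.cons (.leaf 1 [(2,1),(6,1),(8,2)]) (.cons (.leaf 1 [(6,1),(8,3),(7,2)]) (.cons (.keep [0,5,6,7,8] (.node (.cons (.leaf 2 [(2,3),(8,1),(9,3)]) (.cons (.leaf 1 [(7,1),(2,1),(8,1),(9,2)]) (.cons (.leaf 2 [(9,5),(5,1),(8,1)]) (.cons (.leaf 1 [(7,3),(0,2),(8,2),(9,7)]) .nil)))))) .nil)))))) .nil)))))) .nil)))))) (.cons (.keep [1,4,5,6] (.node (.cons (.leaf 1 [(2,2),(5,2),(8,2)]) (.cons (.keep [0,5,6,8] (.node (.cons (.leaf 1 [(2,2)]) (.cons (.leaf 1 [(2,2),(6,2),(8,4)]) (.cons (.leaf 1 []) (.cons (.keep [0,6,7,8] (.node (.cons (.leaf 1 [(2,2),(8,2)]) (.cons (.leaf 1 [(2,1),(6,1),(7,1),(8,2)]) (.cons (.leaf 1 [(8,2)]) (.cons (.keep [0,5,6,7,8] (.node (.cons (.leaf 1 [(2,1),(9,1)]) (.cons (.leaf 1 [(2,1),(9,1)]) (.cons (.leaf 1 [(8,2),(9,2)]) (.cons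 (.leaf 1 [(7,2),(0,2),(9,6),(8,2)]) .nil)))))) .nil)))))) .nil)))))) (.cons (.leaf 1 [(8,2),(5,2)]) (.cons (.keep [0,1,5,6,8] (.node (.cons (.leaf 1 [(2,2)]) (.cons (.leaf 1 [(2,2),(6,2),(7,2),(9,4)]) (.cons (.leaf 1 []) (.cons (.keep [0,6,7,8,9] (.node (.cons (.leaf 1 [(7,2)]) (.cons (.leaf 1 [(7,2),(3,2)]) (.cons (.leaf 1 [(9,2)]) (.cons (.keep [0,5,6,7,9] (.node (.cons (.leaf 1 [(2,1),(9,1)]) (.cons (.leaf 1 [(2,1),(9,1)]) (.cons (.leaf 1 [(8,2),(5,2),(9,4)]) (.cons (.leaf 1 [(0,2),(9,4),(8,2)]) .nil)))))) .nil)))))) .nil)))))) .nil)))))) (.cons (.keep [1,3,5,6] (.node (.cons (.leaf 1 [(2,4),(6,3),(5,2)]) (.cons (.keep [0,2,5,6] (.node (.cons (.leaf 1 [(2,2),(8,1)]) (.cons (.leaf 1 [(6,4),(2,2),(7,2),(8,5)]) (.cons (.leaf 1 [(8,1)]) (.cons (.keep [0,6,7,8] (.node (.cons (.leaf 1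 [(7,2),(8,1),(6,2)]) (.cons (.leaf 1 [(7,2),(8,1),(6,2),(3,2)]) (.cons (.leaf 1 [(8,3),(6,2)]) (.cons (.keep [0,5,6,7,8] (.node (.cons (.leaf 1 [(2,3),(7,3)]) (.cons (.leaf 1 [(3,2),(9,3)]) (.cons (.leaf 1 [(7,3),(1,1)]) (.cons (.leaf 1 [(8,2),(7,6),(9,7),(0,2)]) .nil)))))) .nil)))))) .nil)))))) (.cons (.leaf 1 [(8,2),(6,1),(5,2)]) (.cons (.keep [0,1,5,8] (.node (.cons (.leaf 1 [(2,2),(6,1),(8,1)]) (.cons (.leaf 1 [(2,2),(6,3),(7,2),(8,5)]) (.cons (.leaf 1 [(8,1),(6,1)]) (.cons (.keep [0,6,7,8] (.node (.cons (.leaf 1 [(6,1),(8,1),(7,2)]) (.cons (.leaf 1 [(6,1),(8,1),(7,2),(3,2)]) (.cons (.leaf 1 [(6,1),(8,3)]) (.cons (.keep [0,5,6,7,8] (.node (.cons (.leaf 2 [(2,3),(9,3)]) (.cons (.leaf 1 [(7,1),(2,1),(9,2)]) (.cons (.leaf 2 [(8,1),(5,1),(9,5)]) (.cons (.leaf 1 [(8,2),(9,7),(7,3),(0,2)])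 .nil)))))) .nil)))))) .nil)))))) .nil)))))) .nil)))))) (.cons (.keep [0,2,3,7,9] (.leaf 0 [(2,0)])) (.cons (.keep [1,4,5,7] (.node (.cons (.leaf 1 [(2,1),(5,1)]) (.cons (.keep [0,2,5,7,8] (.node (.cons (.leaf 2 [(2,2),(7,1)]) (.cons (.keep [0,2,6,7,9] (.node (.cons (.leaf 1 [(2,1)]) (.cons (.leaf 1 [(6,1),(2,1),(8,1),(0,1)]) (.cons (.leaf 1 []) (.cons (.leaf 1 [(8,1),(6,1),(0,1)]) .nil)))))) (.cons (.leaf 1 [(9,1)]) (.cons (.keep [0,1,6,7,9] (.node (.cons (.leaf 1 [(2,1)]) (.cons (.leaf 1 [(2,1),(8,1),(0,1)]) (.cons (.leaf 1 []) (.cons (.leaf 1 [(8,1),(0,1)]) .nil)))))) .nil)))))) (.cons (.leaf 1 [(5,1)]) (.cons (.keep [0,1,5,6,7] (.node (.cons (.leaf 2 [(2,2),(6,1),(7,1)]) (.cons (.keep [0,2,6,7,9] (.node (.cons (.leaf 1 [(2,1)]) (.cons (.leaf 3 [(6,2),(2,1),(7,1),(8,2)]) (.cons (.leaf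 1 []) (.cons (.leaf 1 [(7,1),(8,1),(6,1),(0,1)]) .nil)))))) (.cons (.leaf 1 [(8,1),(6,1)]) (.cons (.keep [0,1,6,7,8] (.node (.cons (.leaf 1 [(2,1)]) (.cons (.leaf 1 [(2,1),(8,1),(7,1),(0,1)]) (.cons (.leaf 1 []) (.cons (.leaf 1 [(7,1),(8,1),(0,1)]) .nil)))))) .nil)))))) .nil)))))) (.cons (.keep [0,1,3,7] (.node (.cons (.leaf 1 [(2,1),(6,1),(7,1)]) (.cons (.keep [0,2,6,7,8] (.node (.cons (.leaf 2 [(2,2),(8,2),(7,1)]) (.cons (.leaf 1 [(2,1),(6,1),(7,1),(8,2)]) (.cons (.leaf 1 [(9,1),(8,1)]) (.cons (.keep [0,5,6,7,8,9] (.node (.cons (.leaf 1 [(8,1)]) (.cons (.leaf 1 [(3,1),(8,1)]) (.cons (.leaf 1 [(9,1)]) (.cons (.leaf 1 [(0,1),(8,1),(9,2)]) .nil)))))) .nil)))))) (.cons (.leaf 1 [(6,1),(7,1)]) (.cons (.keep [0,6,7,8] (.node (.cons (.leaf 1 [(6,1),(2,1),(7,2)]) (.cons (.leaf 1 [(6,1),(2,1),(7,2)])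 (.cons (.leaf 1 [(8,1),(7,1)]) (.cons (.keep [0,5,6,7,8] (.node (.cons (.leaf 1 [(2,1),(8,1)]) (.cons (.leaf 2 [(2,1),(7,1),(9,1),(8,2)]) (.cons (.leaf 1 [(8,1)]) (.cons (.leaf 1 [(0,1),(7,1),(9,1),(8,3)]) .nil)))))) .nil)))))) .nil)))))) .nil)))))

theorem c_10_24_15 : Concl 10 24 z_10_24_15 h_10_24_15 .nd := piece _ (hP_cons E29.c_10_24_12
  (hP_cons E28.c_10_24_11 (hP_cons c_10_24_14 hP_nil))) t_10_24_15 _ _ (by decide +kernel)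

def t_10_24 : T := (.keep [0,1,2] (.node (.cons (.keep [2,4,5,6] (.node (.cons (.keep [2,4,6,7] (.leaf 0 [(0,0)])) (.cons (.keep [0,2,3,5,6,7,8] (.leaf 0 [(1,0)])) (.cons (.keep [1,4,5,6] (.node (.cons (.leaf 1 [(2,1),(5,1),(8,1)]) (.cons (.keep [0,5,6,8] (.node (.cons (.leaf 1 [(2,1)]) (.cons (.leaf 1 [(2,1),(6,1),(8,2)]) (.cons (.leaf 1 []) (.cons (.keep [0,5,6,7,8] (.node (.cons (.leaf 1 [(2,1),(9,1)]) (.cons (.leaf 2 [(2,1),(7,1),(8,1),(9,2)]) (.cons (.leaf 1 [(9,1)]) (.cons (.leaf 1 [(7,1),(0,1),(9,2)]) .nil)))))) .nil)))))) (.cons (.leaf 1 [(8,1),(5,1)]) (.cons (.keep [0,1,5,6,8] (.node (.cons (.leaf 1 [(2,1)]) (.cons (.leaf 1 [(2,1),(6,1),(7,1),(9,2)]) (.cons (.leaf 1 []) (.cons (.keep [0,5,6,7,9] (.node (.cons (.leaf 1 [(8,1)]) (.cons (.leaf 1 [(8,1),(3,1)]) (.cons (.leaf 1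 [(9,1)]) (.cons (.leaf 1 [(7,1),(8,1),(0,1),(9,2)]) .nil)))))) .nil)))))) .nil)))))) (.cons (.keep [1,3,5,6] (.node (.cons (.leaf 1 [(2,2),(6,2),(5,1)]) (.cons (.keep [0,2,5,6] (.node (.cons (.leaf 1 [(2,1),(8,1)]) (.cons (.leaf 1 [(6,2),(2,1),(7,1),(8,3)]) (.cons (.leaf 1 [(8,1)]) (.cons (.keep [0,5,6,7,8] (.node (.cons (.leaf 1 [(8,1),(7,1),(9,1)]) (.cons (.leaf 1 [(8,1),(7,1),(3,1),(9,1)]) (.cons (.leaf 1 [(9,2),(7,1)]) (.cons (.leaf 1 [(8,1),(7,2),(0,1),(9,4)]) .nil)))))) .nil)))))) (.cons (.leaf 1 [(8,1),(6,1),(5,1)]) (.cons (.keep [0,1,5,8] (.node (.cons (.leaf 1 [(2,1),(6,1),(8,1)]) (.cons (.leaf 1 [(7,1),(2,1),(6,2),(8,3)]) (.cons (.leaf 1 [(8,1),(6,1)]) (.cons (.keep [0,5,6,7,8] (.node (.cons (.leaf 1 [(7,1),(2,1),(9,2)]) (.cons (.leaf 2 [(7,2),(8,1),(2,1),(9,3)]) (.cons (.leaf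 1 [(7,1),(9,2)]) (.cons (.leaf 1 [(8,1),(0,1),(7,3),(9,4)]) .nil)))))) .nil)))))) .nil)))))) .nil)))))) (.cons (.keep [0,2,3,5,6] (.leaf 0 [(2,0)])) (.cons (.leaf 1 []) (.cons (.leaf 1 [(3,1)]) .nil))))))

theorem e_10_24 : ESB (caseOf 4 10 24) := esb_of_pieces _ (hP_cons E29.c_10_24_9 (hP_cons
  E29.c_10_24_8 (hP_cons c_10_24_15 hP_nil))) t_10_24 (by decide +kernel)

def ks : List (ℕ × ℕ) := [(10, 24)]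

theorem ks_ok : ∀ p ∈ ks, ESB (caseOf 4 p.1 p.2) := ks_cons e_10_24 <| ks_nil

end Pool.Agent.H4.RD4.E30
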