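import Pool.Agent.H4.RD4.E31

/-! # Certificates for special cases of order four -/

set_option maxRecDepth 20000

namespace Pool.Agent.H4.RD4.E32

open Pool.Agent.H50.Rdb
open Pool.Agent.H81.RDE (ESB caseOf)

def z_11_24_2 : F := ⟨1, -1, -1, 0, 2⟩

def h_11_24_2 : List F := [⟨1, 0, 0, 0, 0⟩, ⟨0, 0, 1, -1, 0⟩, ⟨0, 1, -1, 0, 0⟩, ⟨0, -1, 0, 0, 1⟩]

def t_11_24_2 : T := (.node (.cons (.keep [2,5,7,8] (.node (.cons (.leaf 1 [(8,1),(6,1),(7,2)]) (.cons (.keep [6,7,8,9] (.node (.cons (.keep [3,5,6,7,8] (.node (.cons (.leaf 1 [(6,2),(3,1)]) (.cons (.keep [0,6,7,9,10] (.node (.cons (.leaf 1 [(2,2),(3,1)]) (.cons (.leaf 1 [(2,2),(3,1)]) (.cons (.leaf 1 [(7,3),(3,1)]) (.cons (.leaf 1 [(7,3),(3,1)]) (.cons (.leaf 1 [(7,2),(9,1)]) (.cons (.leaf 1 [(7,4),(0,1),(9,1)]) .nil)))))))) (.cons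 (.leaf 1 [(3,1),(6,2)]) (.cons (.leaf 1 [(1,1),(6,2),(9,1)]) (.cons (.leaf 1 [(6,2)]) (.cons (.keep [1,6,7,9,10] (.node (.cons (.leaf 1 [(2,2),(6,1),(3,1)]) (.cons (.leaf 1 [(2,2),(6,1),(3,1)]) (.cons (.leaf 1 [(7,3),(6,1),(3,1)]) (.cons (.leaf 1 [(7,3),(6,1),(3,1)]) (.cons (.leaf 1 [(7,2),(9,1)]) (.cons (.leaf 1 [(7,4),(6,1),(0,1),(9,1)]) .nil)))))))) .nil)))))))) (.cons (.keep [3,4,6,7,8] (.node (.cons (.leaf 1 [(6,1),(3,2)]) (.cons (.keep [3,4,7,8,9] (.node (.cons (.leaf 1 [(2,1),(6,1),(3,1)]) (.cons (.leaf 1 [(2,1),(6,1),(3,1)]) (.cons (.leaf 1 [(8,2),(6,3),(3,1)]) (.cons (.leaf 1 [(8,2),(6,3),(3,1)]) (.cons (.leaf 1 [(8,1),(6,2),(10,1)]) (.cons (.leaf 1 [(8,2),(6,4),(0,1),(10,1)]) .nil)))))))) (.cons (.leaf 1 [(3,1),(6,1),(9,1)]) (.cons (.leaf 1 [(3,1),(6,1),(9,1)]) (.cons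 (.leaf 1 [(6,1),(10,1)]) (.cons (.keep [0,6,7,9,10] (.node (.cons (.leaf 1 [(2,1),(3,1)]) (.cons (.leaf 1 [(2,1),(3,1)]) (.cons (.leaf 1 [(7,2),(3,1)]) (.cons (.leaf 1 [(7,2),(3,1)]) (.cons (.leaf 1 [(7,1),(9,2),(10,1)]) (.cons (.leaf 1 [(7,3),(0,2),(10,1),(9,2)]) .nil)))))))) .nil)))))))) (.cons (.leaf 1 [(3,2)]) (.cons (.leaf 1 [(1,1),(3,1),(8,1)]) (.cons (.keep [1,5,7,8,9] (.node (.cons (.leaf 1 [(10,1),(3,1)]) (.cons (.keep [0,7,8,9,10] (.node (.cons (.leaf 1 [(2,1),(3,1)]) (.cons (.leaf 1 [(2,1),(3,1)]) (.cons (.leaf 1 [(8,2),(3,1)]) (.cons (.leaf 1 [(10,2),(3,1)]) (.cons (.leaf 1 [(2,1),(8,2)]) (.cons (.leaf 1 [(10,2),(0,1),(8,1)]) .nil)))))))) (.cons (.leaf 1 [(3,1),(10,1)]) (.cons (.leaf 1 [(1,1),(10,1),(8,1)]) (.cons (.leaf 1 [(10,1)]) (.cons (.keep [0,1,4,8,10] (.node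 (.cons (.leaf 1 [(2,1),(7,1),(3,1)]) (.cons (.leaf 1 [(2,1),(7,1),(3,1)]) (.cons (.leaf 1 [(10,1),(9,1),(3,1)]) (.cons (.leaf 1 [(10,2),(7,1),(3,1)]) (.cons (.leaf 1 [(10,1),(9,1)]) (.cons (.leaf 1 [(10,2),(7,1),(0,1),(9,1)]) .nil)))))))) .nil)))))))) (.cons (.keep [1,7,8,9] (.node (.cons (.leaf 1 [(3,2)]) (.cons (.keep [3,6,7,8,9] (.node (.cons (.leaf 1 [(6,1),(3,1)]) (.cons (.leaf 1 [(6,1),(3,1)]) (.cons (.leaf 1 [(3,1),(6,1),(8,1)]) (.cons (.leaf 1 [(3,1),(6,2),(0,1),(8,1)]) (.cons (.leaf 1 [(6,1),(8,1)]) (.cons (.leaf 1 [(6,2),(0,1),(8,1)]) .nil)))))))) (.cons (.leaf 1 [(3,1),(7,1)]) (.cons (.leaf 1 [(3,1),(7,1)]) (.cons (.leaf 1 [(8,2),(9,1)]) (.cons (.keep [6,7,8,9] (.node (.cons (.leaf 1 [(3,1)]) (.cons (.leaf 1 [(3,1)]) (.cons (.leaf 2 [(3,3),(9,2),(8,1)]) (.cons (.leaf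 2 [(3,3),(9,2),(8,1)]) (.cons (.leaf 1 [(8,2),(7,3),(9,1)]) (.cons (.leaf 1 [(8,2),(0,3),(9,1),(7,3)]) .nil)))))))) .nil)))))))) .nil)))))))) (.cons (.leaf 1 [(1,2),(7,1)]) (.cons (.keep [1,6,7,8,9] (.node (.cons (.keep [3,5,7,8,9] (.node (.cons (.leaf 1 [(6,3),(3,1)]) (.cons (.keep [0,6,7,9,10] (.node (.cons (.leaf 1 [(2,3),(3,1)]) (.cons (.leaf 1 [(2,3),(3,1)]) (.cons (.leaf 1 [(7,4),(3,1)]) (.cons (.leaf 1 [(7,4),(3,1)]) (.cons (.leaf 1 [(7,3),(9,1)]) (.cons (.leaf 1 [(7,6),(0,1),(9,1)]) .nil)))))))) (.cons (.leaf 1 [(3,1),(6,3)]) (.cons (.leaf 1 [(1,1),(6,3),(9,1)]) (.cons (.leaf 1 [(6,3)]) (.cons (.keep [1,6,7,9,10] (.node (.cons (.leaf 1 [(2,3),(6,1),(3,1)]) (.cons (.leaf 1 [(2,3),(6,1),(3,1)]) (.cons (.leaf 1 [(7,4),(6,1),(3,1)]) (.cons (.leaf 1 [(7,4),(6,1),(3,1)]) (.cons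 (.leaf 1 [(7,3),(9,1)]) (.cons (.leaf 1 [(7,6),(6,1),(0,1),(9,1)]) .nil)))))))) .nil)))))))) (.cons (.keep [4,6,7,8,9] (.node (.cons (.leaf 1 [(6,1),(3,4)]) (.cons (.keep [3,4,6,8,9] (.node (.cons (.leaf 1 [(2,1),(6,2),(3,1)]) (.cons (.leaf 1 [(2,1),(6,2),(3,1)]) (.cons (.leaf 1 [(8,2),(6,4),(3,1)]) (.cons (.leaf 1 [(8,2),(6,4),(3,1)]) (.cons (.leaf 1 [(8,1),(6,3),(10,1)]) (.cons (.leaf 1 [(8,2),(6,6),(0,1),(10,1)]) .nil)))))))) (.cons (.leaf 1 [(3,1),(6,1),(7,3)]) (.cons (.leaf 1 [(3,1),(6,1),(7,2),(9,1)]) (.cons (.leaf 1 [(6,1),(7,3)]) (.cons (.keep [0,6,7,9,10] (.node (.cons (.leaf 1 [(2,1),(8,1),(3,1)]) (.cons (.leaf 1 [(2,1),(8,1),(3,1)]) (.cons (.leaf 1 [(7,2),(8,3),(3,1)]) (.cons (.leaf 1 [(7,2),(8,3),(3,1)]) (.cons (.leaf 1 [(7,1),(8,3),(9,1)]) (.cons (.leaf 1 [(7,2),(8,5),(0,1),(9,1)])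 .nil)))))))) .nil)))))))) (.cons (.leaf 1 [(3,3)]) (.cons (.leaf 1 [(6,2),(3,1)]) (.cons (.keep [1,5,8,9,10] (.node (.cons (.leaf 1 [(10,1),(3,1)]) (.cons (.keep [0,7,8,9,10] (.node (.cons (.leaf 1 [(2,1),(3,1)]) (.cons (.leaf 1 [(2,1),(3,1)]) (.cons (.leaf 1 [(8,2),(3,1)]) (.cons (.leaf 1 [(10,2),(3,1)]) (.cons (.leaf 1 [(2,1),(8,2)]) (.cons (.leaf 1 [(10,2),(0,1),(8,1)]) .nil)))))))) (.cons (.leaf 1 [(3,1),(10,1)]) (.cons (.leaf 1 [(1,1),(10,1),(8,1)]) (.cons (.leaf 1 [(10,1)]) (.cons (.keep [0,1,4,8,10] (.node (.cons (.leaf 1 [(2,1),(7,1),(3,1)]) (.cons (.leaf 1 [(2,1),(7,1),(3,1)]) (.cons (.leaf 1 [(10,1),(9,1),(3,1)]) (.cons (.leaf 1 [(10,2),(7,1),(3,1)]) (.cons (.leaf 1 [(10,1),(9,1)]) (.cons (.leaf 1 [(10,2),(7,1),(0,1),(9,1)]) .nil)))))))) .nil)))))))) (.cons (.keep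 [6,7,8,9,10] (.node (.cons (.leaf 1 [(6,1),(3,2)]) (.cons (.keep [6,7,8,9,10] (.node (.cons (.leaf 1 [(6,2),(2,1),(3,1)]) (.cons (.leaf 1 [(6,2),(2,1),(3,1)]) (.cons (.leaf 1 [(3,1),(6,2),(8,2)]) (.cons (.leaf 1 [(3,1),(10,2),(6,2)]) (.cons (.leaf 1 [(6,2),(2,1),(8,2)]) (.cons (.leaf 1 [(6,4),(10,2),(0,1),(8,1)]) .nil)))))))) (.cons (.leaf 1 [(3,1),(6,1),(8,1)]) (.cons (.leaf 1 [(3,1),(6,1),(8,1)]) (.cons (.leaf 1 [(6,2),(10,1)]) (.cons (.keep [1,6,8,9,10] (.node (.cons (.leaf 1 [(7,1),(3,1)]) (.cons (.leaf 1 [(7,1),(3,1)]) (.cons (.leaf 1 [(3,1),(7,1),(10,1)]) (.cons (.leaf 1 [(3,1),(10,1),(7,1)]) (.cons (.leaf 1 [(7,2),(10,1),(8,1)]) (.cons (.leaf 1 [(7,3),(10,1),(0,1),(8,1)]) .nil)))))))) .nil)))))))) .nil)))))))) (.cons (.leaf 1 [(8,1),(7,2),(1,2)]) (.cons (.leaf 1 [(8,2),(7,3),(1,3),(9,1)])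 .nil)))))))) (.cons (.keep [2,4,6,7,8] (.leaf 0 [(0,0)])) (.cons (.keep [1,5,7,8,9] (.node (.cons (.leaf 1 [(8,1),(7,2),(10,2)]) (.cons (.keep [6,7,8,9,10] (.node (.cons (.keep [3,5,7,8,10] (.node (.cons (.leaf 1 [(6,1),(3,1)]) (.cons (.keep [0,6,7,8,9] (.node (.cons (.leaf 1 [(2,1),(3,1)]) (.cons (.leaf 1 [(2,1),(3,1)]) (.cons (.leaf 1 [(7,2),(3,1)]) (.cons (.leaf 1 [(7,2),(3,1)]) (.cons (.leaf 1 [(7,1),(9,1)]) (.cons (.leaf 1 [(7,2),(0,1),(9,1)]) .nil)))))))) (.cons (.leaf 1 [(3,1),(6,1)]) (.cons (.leaf 1 [(1,1),(6,1),(8,1)]) (.cons (.leaf 1 [(6,1)]) (.cons (.keep [0,1,6,8,9] (.node (.cons (.leaf 1 [(2,1),(7,1),(3,1)]) (.cons (.leaf 1 [(2,1),(7,1),(3,1)]) (.cons (.leaf 1 [(8,2),(7,1),(3,1)]) (.cons (.leaf 1 [(8,2),(7,1),(3,1)]) (.cons (.leaf 1 [(8,1),(9,1)]) (.cons (.leaf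 1 [(8,2),(7,1),(0,1),(9,1)]) .nil)))))))) .nil)))))))) (.cons (.keep [3,4,7,8,10] (.node (.cons (.leaf 1 [(3,2)]) (.cons (.keep [3,4,7,8,10] (.node (.cons (.leaf 1 [(6,1),(3,1)]) (.cons (.leaf 1 [(6,1),(3,1)]) (.cons (.leaf 1 [(3,1),(6,2),(8,1)]) (.cons (.leaf 1 [(3,1),(6,2),(8,1)]) (.cons (.leaf 1 [(6,1),(9,1)]) (.cons (.leaf 1 [(6,2),(0,1),(9,1)]) .nil)))))))) (.cons (.leaf 1 [(3,1),(8,1)]) (.cons (.leaf 1 [(3,1),(8,1)]) (.cons (.leaf 1 [(9,1)]) (.cons (.keep [6,7,8,9,10] (.node (.cons (.leaf 1 [(3,1)]) (.cons (.leaf 1 [(3,1)]) (.cons (.leaf 1 [(3,1),(6,1)]) (.cons (.leaf 1 [(3,1),(6,1)]) (.cons (.leaf 1 [(8,2),(9,1)]) (.cons (.leaf 1 [(0,2),(9,1),(8,2)]) .nil)))))))) .nil)))))))) (.cons (.leaf 1 [(1,1),(3,1)]) (.cons (.leaf 1 [(1,2),(8,1)]) (.cons (.keep [1,5,6,7,8] (.node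 (.cons (.leaf 1 [(3,1)]) (.cons (.keep [6,7,8,9,10] (.node (.cons (.leaf 1 [(3,1)]) (.cons (.leaf 1 [(3,1)]) (.cons (.leaf 1 [(3,1),(8,1)]) (.cons (.leaf 1 [(3,1),(8,1)]) (.cons (.leaf 1 [(9,1)]) (.cons (.leaf 1 [(0,1),(9,1)]) .nil)))))))) (.cons (.leaf 1 [(3,1)]) (.cons (.leaf 1 [(1,1),(9,1)]) (.cons (.leaf 1 []) (.cons (.keep [1,4,7,8,9] (.node (.cons (.leaf 1 [(6,1),(3,1)]) (.cons (.leaf 1 [(6,1),(3,1)]) (.cons (.leaf 1 [(3,1),(6,1),(9,1)]) (.cons (.leaf 1 [(3,1),(6,1),(9,1)]) (.cons (.leaf 1 [(10,1)]) (.cons (.leaf 1 [(6,1),(0,1),(10,1)]) .nil)))))))) .nil)))))))) (.cons (.keep [1,6,7,8,9] (.node (.cons (.leaf 1 [(6,1),(3,2)]) (.cons (.keep [3,6,8,9,10] (.node (.cons (.leaf 1 [(7,1),(6,1),(3,1)]) (.cons (.leaf 1 [(7,1),(6,1),(3,1)]) (.cons (.leaf 1 [(3,1),(6,1)]) (.cons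 (.leaf 1 [(3,1),(6,1)]) (.cons (.leaf 1 [(7,1),(6,1),(8,1)]) (.cons (.leaf 1 [(7,2),(6,2),(0,1),(8,1)]) .nil)))))))) (.cons (.leaf 1 [(3,1),(6,1),(8,1)]) (.cons (.leaf 1 [(3,1),(6,1),(8,1)]) (.cons (.leaf 1 [(9,1)]) (.cons (.keep [0,6,8,9,10] (.node (.cons (.leaf 1 [(7,1),(3,1)]) (.cons (.leaf 1 [(7,1),(3,1)]) (.cons (.leaf 1 [(3,1)]) (.cons (.leaf 1 [(3,1)]) (.cons (.leaf 1 [(9,1),(8,2)]) (.cons (.leaf 1 [(7,2),(0,2),(9,1),(8,2)]) .nil)))))))) .nil)))))))) .nil)))))))) (.cons (.leaf 1 [(1,2),(7,1),(10,1)]) (.cons (.keep [1,7,8,9,10] (.node (.cons (.keep [3,5,7,8,10] (.node (.cons (.leaf 1 [(6,1),(3,1)]) (.cons (.keep [0,6,7,8,9] (.node (.cons (.leaf 1 [(2,1),(3,1)]) (.cons (.leaf 1 [(2,1),(3,1)]) (.cons (.leaf 1 [(7,2),(3,1)]) (.cons (.leaf 1 [(7,2),(3,1)]) (.cons (.leaf 1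 [(7,1),(9,1)]) (.cons (.leaf 1 [(7,2),(0,1),(9,1)]) .nil)))))))) (.cons (.leaf 1 [(3,1),(6,1)]) (.cons (.leaf 1 [(1,1),(6,1),(8,1)]) (.cons (.leaf 1 [(6,1)]) (.cons (.keep [0,1,6,8,9] (.node (.cons (.leaf 1 [(2,1),(7,1),(3,1)]) (.cons (.leaf 1 [(2,1),(7,1),(3,1)]) (.cons (.leaf 1 [(8,2),(7,1),(3,1)]) (.cons (.leaf 1 [(8,2),(7,1),(3,1)]) (.cons (.leaf 1 [(8,1),(9,1)]) (.cons (.leaf 1 [(8,2),(7,1),(0,1),(9,1)]) .nil)))))))) .nil)))))))) (.cons (.keep [4,6,7,8,10] (.node (.cons (.leaf 1 [(3,2)]) (.cons (.keep [3,4,6,8,10] (.node (.cons (.leaf 1 [(6,1),(3,1)]) (.cons (.leaf 1 [(6,1),(3,1)]) (.cons (.leaf 1 [(3,1),(6,2),(8,1)]) (.cons (.leaf 1 [(3,1),(6,2),(8,1)]) (.cons (.leaf 1 [(6,1),(9,1)]) (.cons (.leaf 1 [(6,2),(0,1),(9,1)]) .nil)))))))) (.cons (.leaf 1 [(3,1),(7,1)]) (.cons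 (.leaf 1 [(3,1),(8,1)]) (.cons (.leaf 1 [(7,1)]) (.cons (.keep [6,7,8,9,10] (.node (.cons (.leaf 1 [(3,1)]) (.cons (.leaf 1 [(3,1)]) (.cons (.leaf 1 [(3,1),(6,1),(7,1)]) (.cons (.leaf 1 [(3,1),(6,1),(7,1)]) (.cons (.leaf 1 [(8,1),(7,1)]) (.cons (.leaf 1 [(0,1),(7,1),(8,1)]) .nil)))))))) .nil)))))))) (.cons (.leaf 1 [(1,1),(3,1)]) (.cons (.leaf 1 [(1,1),(6,1)]) (.cons (.keep [1,5,7,8,9] (.node (.cons (.leaf 1 [(3,1)]) (.cons (.keep [6,7,8,9,10] (.node (.cons (.leaf 1 [(3,1)]) (.cons (.leaf 1 [(3,1)]) (.cons (.leaf 1 [(3,1),(8,1)]) (.cons (.leaf 1 [(3,1),(0,1),(8,1)]) (.cons (.leaf 1 [(8,1)]) (.cons (.leaf 1 [(0,1),(8,1)]) .nil)))))))) (.cons (.leaf 1 [(3,1)]) (.cons (.leaf 1 [(1,1),(8,1)]) (.cons (.leaf 1 []) (.cons (.keep [1,4,7,8,10] (.node (.cons (.leaf 1 [(6,1),(3,1)]) (.cons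 (.leaf 1 [(6,1),(3,1)]) (.cons (.leaf 1 [(3,1),(9,1)]) (.cons (.leaf 1 [(3,1),(6,1),(0,1),(9,1)]) (.cons (.leaf 1 [(9,1)]) (.cons (.leaf 1 [(6,1),(0,1),(9,1)]) .nil)))))))) .nil)))))))) (.cons (.keep [6,7,8,9,10] (.node (.cons (.leaf 1 [(6,1),(3,1)]) (.cons (.keep [6,7,8,9,10] (.node (.cons (.leaf 1 [(6,1),(3,1)]) (.cons (.leaf 1 [(6,1),(3,1)]) (.cons (.leaf 1 [(3,1),(6,1),(7,1)]) (.cons (.leaf 1 [(3,1),(0,1),(7,1),(6,2)]) (.cons (.leaf 1 [(6,1),(7,1)]) (.cons (.leaf 1 [(6,2),(0,1),(7,1)]) .nil)))))))) (.cons (.leaf 1 [(3,1),(6,1)]) (.cons (.leaf 1 [(1,1),(6,1),(7,1)]) (.cons (.leaf 1 [(6,1)]) (.cons (.keep [0,1,6,7,8] (.node (.cons (.leaf 1 [(8,1),(7,1),(3,1)]) (.cons (.leaf 1 [(8,1),(7,1),(3,1)]) (.cons (.leaf 1 [(3,1)]) (.cons (.leaf 1 [(3,1)]) (.cons (.leaf 1 [(8,1),(9,1)])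 (.cons (.leaf 1 [(8,2),(7,1),(0,1),(9,1)]) .nil)))))))) .nil)))))))) .nil)))))))) (.cons (.leaf 1 [(8,1),(7,2),(1,2)]) (.cons (.leaf 1 [(8,1),(7,2),(1,2)]) .nil)))))))) (.cons (.keep [1,4,6,7,8,9] (.leaf 0 [(1,0)])) (.cons (.leaf 1 [(8,1),(7,2),(1,2)]) (.cons (.leaf 1 [(8,1),(7,2),(4,1),(1,2)]) .nil)))))))

theorem c_11_24_2 : Concl 11 24 z_11_24_2 h_11_24_2 .nd := piece _ (hP_cons E31.c_11_24_0 (hP_cons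
  E31.c_11_24_1 hP_nil)) t_11_24_2 _ _ (by decide +kernel)

def z_11_24_6 : F := ⟨1, 0, -2, 0, 2⟩

def h_11_24_6 : List F := [⟨1, 0, 0, 0, 0⟩, ⟨0, 0, 1, -1, 0⟩, ⟨0, -1, 1, 0, 0⟩, ⟨0, 0, -1, 0, 1⟩]

def t_11_24_6 : T := (.node (.cons (.keep [5,7,8,9] (.node (.cons (.leaf 1 [(3,1),(6,1),(8,2)]) (.cons (.keep [0,2,6,7,8] (.node (.cons (.keep [3,5,7,8,9] (.node (.cons (.leaf 1 [(6,2),(3,1)]) (.cons (.keep [0,6,7,9,10] (.node (.cons (.leaf 1 [(2,2),(3,1)]) (.cons (.leaf 1 [(2,2),(3,1)]) (.cons (.leaf 1 [(7,3),(3,1)]) (.cons (.leaf 1 [(7,3),(3,1)]) (.cons (.leaf 1 [(7,2),(9,1)]) (.cons (.leaf 1 [(7,4),(0,1),(9,1)]) .nil)))))))) (.cons (.leaf 1 [(3,1),(6,2)]) (.cons (.leaf 1 [(1,1),(6,2),(9,1)]) (.cons (.leaf 1 [(6,2)]) (.cons (.keep [1,6,7,9,10] (.node (.cons (.leaf 1 [(2,2),(6,1),(3,1)])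 (.cons (.leaf 1 [(2,2),(6,1),(3,1)]) (.cons (.leaf 1 [(7,3),(6,1),(3,1)]) (.cons (.leaf 1 [(7,3),(6,1),(3,1)]) (.cons (.leaf 1 [(7,2),(9,1)]) (.cons (.leaf 1 [(7,4),(6,1),(0,1),(9,1)]) .nil)))))))) .nil)))))))) (.cons (.keep [3,7,8,9,10] (.node (.cons (.leaf 1 [(3,3)]) (.cons (.keep [0,4,6,8,10] (.node (.cons (.leaf 1 [(7,2),(3,3)]) (.cons (.leaf 1 [(7,2),(3,3)]) (.cons (.leaf 1 [(3,3),(7,2),(8,3)]) (.cons (.leaf 1 [(3,3),(7,2),(8,3)]) (.cons (.leaf 1 [(7,2),(9,3)]) (.cons (.leaf 1 [(10,4),(8,4),(0,1),(9,1)]) .nil)))))))) (.cons (.leaf 1 [(3,1),(8,2)]) (.cons (.leaf 1 [(3,1),(4,1),(8,2)]) (.cons (.leaf 1 [(9,2)]) (.cons (.keep [0,6,8,9,10] (.node (.cons (.leaf 2 [(9,1),(3,3)]) (.cons (.leaf 2 [(9,1),(3,3)]) (.cons (.leaf 2 [(3,3),(9,1),(7,3)]) (.cons (.leaf 2 [(3,3),(9,1),(7,3)])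 (.cons (.leaf 1 [(9,2),(8,3)]) (.cons (.leaf 1 [(10,3),(7,3),(0,1),(8,1)]) .nil)))))))) .nil)))))))) (.cons (.leaf 1 [(1,1),(3,2)]) (.cons (.leaf 1 [(1,3),(9,2)]) (.cons (.keep [1,5,6,8] (.node (.cons (.leaf 1 [(3,1)]) (.cons (.keep [3,6,8,9] (.node (.cons (.leaf 1 [(3,1)]) (.cons (.leaf 1 [(3,1)]) (.cons (.leaf 1 [(3,1),(9,1)]) (.cons (.leaf 1 [(3,1),(0,1),(9,1)]) (.cons (.leaf 1 [(9,1)]) (.cons (.leaf 1 [(0,1),(9,1)]) .nil)))))))) (.cons (.leaf 1 [(3,1)]) (.cons (.leaf 1 [(1,1),(9,1)]) (.cons (.leaf 1 []) (.cons (.keep [0,1,7,8,9] (.node (.cons (.leaf 1 [(7,1),(3,1)]) (.cons (.leaf 1 [(7,1),(3,1)]) (.cons (.leaf 1 [(3,1),(10,1)]) (.cons (.leaf 1 [(3,1),(7,1),(0,1),(10,1)]) (.cons (.leaf 1 [(10,1)]) (.cons (.leaf 1 [(7,1),(0,1),(10,1)]) .nil)))))))) .nil)))))))) (.cons (.keep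 [0,4,8,9,10] (.node (.cons (.leaf 1 [(9,2),(3,3)]) (.cons (.keep [0,3,8,9,10] (.node (.cons (.leaf 1 [(9,2),(3,3)]) (.cons (.leaf 1 [(9,2),(3,3)]) (.cons (.leaf 1 [(1,1),(7,2),(3,1)]) (.cons (.leaf 1 [(1,1),(7,2),(3,1)]) (.cons (.leaf 1 [(9,2),(8,3)]) (.cons (.leaf 1 [(10,2),(7,2),(0,1),(8,1)]) .nil)))))))) (.cons (.leaf 1 [(3,3),(9,2)]) (.cons (.leaf 1 [(1,3),(9,2),(8,3)]) (.cons (.leaf 1 [(9,2)]) (.cons (.keep [0,7,8,9,10] (.node (.cons (.leaf 1 [(8,3),(9,2),(3,3)]) (.cons (.leaf 1 [(10,1),(3,1)]) (.cons (.leaf 2 [(9,1),(3,3)]) (.cons (.leaf 2 [(9,1),(3,3)]) (.cons (.leaf 1 [(8,3),(9,2)]) (.cons (.leaf 1 [(0,3),(10,3),(9,2),(8,3)]) .nil)))))))) .nil)))))))) .nil)))))))) (.cons (.leaf 1 [(1,2),(6,1),(8,1)]) (.cons (.keep [0,1,6,8,9] (.node (.cons (.keep [3,5,6,8,9] (.node (.cons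 (.leaf 1 [(6,2),(3,1)]) (.cons (.keep [0,6,7,8,9] (.node (.cons (.leaf 1 [(2,2),(3,1)]) (.cons (.leaf 1 [(2,2),(3,1)]) (.cons (.leaf 1 [(7,3),(3,1)]) (.cons (.leaf 1 [(7,3),(3,1)]) (.cons (.leaf 1 [(7,2),(10,1)]) (.cons (.leaf 1 [(7,4),(0,1),(10,1)]) .nil)))))))) (.cons (.leaf 1 [(3,1),(6,2)]) (.cons (.leaf 1 [(1,1),(6,2),(9,1)]) (.cons (.leaf 1 [(6,2)]) (.cons (.keep [1,6,7,8,9] (.node (.cons (.leaf 1 [(2,2),(6,1),(3,1)]) (.cons (.leaf 1 [(2,2),(6,1),(3,1)]) (.cons (.leaf 1 [(7,3),(6,1),(3,1)]) (.cons (.leaf 1 [(7,3),(6,1),(3,1)]) (.cons (.leaf 1 [(7,2),(10,1)]) (.cons (.leaf 1 [(7,4),(6,1),(0,1),(10,1)]) .nil)))))))) .nil)))))))) (.cons (.keep [4,6,7,8,9] (.node (.cons (.leaf 1 [(3,3)]) (.cons (.keep [3,6,7,9,10] (.node (.cons (.leaf 1 [(6,2),(3,1)]) (.cons (.leaf 1 [(6,2),(3,1)])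 (.cons (.leaf 1 [(3,1),(6,3),(7,1)]) (.cons (.leaf 1 [(3,1),(6,3),(7,1)]) (.cons (.leaf 1 [(6,2),(9,1)]) (.cons (.leaf 1 [(6,4),(0,1),(9,1)]) .nil)))))))) (.cons (.leaf 1 [(3,1),(8,2)]) (.cons (.leaf 1 [(3,1),(8,1),(9,1)]) (.cons (.leaf 1 [(8,2)]) (.cons (.keep [6,7,8,9,10] (.node (.cons (.leaf 1 [(8,1),(3,1)]) (.cons (.leaf 1 [(8,1),(3,1)]) (.cons (.leaf 1 [(3,1),(8,2),(6,1)]) (.cons (.leaf 1 [(3,1),(8,2),(6,1)]) (.cons (.leaf 1 [(8,2),(9,1)]) (.cons (.leaf 1 [(8,3),(0,1),(9,1)]) .nil)))))))) .nil)))))))) (.cons (.leaf 1 [(1,1),(3,2)]) (.cons (.leaf 1 [(1,1),(7,2)]) (.cons (.keep [1,5,6,8] (.node (.cons (.leaf 1 [(3,1)]) (.cons (.keep [3,6,8,9] (.node (.cons (.leaf 1 [(3,1)]) (.cons (.leaf 1 [(3,1)]) (.cons (.leaf 1 [(3,1),(9,1)]) (.cons (.leaf 1 [(3,1),(0,1),(9,1)]) (.cons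 (.leaf 1 [(9,1)]) (.cons (.leaf 1 [(0,1),(9,1)]) .nil)))))))) (.cons (.leaf 1 [(3,1)]) (.cons (.leaf 1 [(1,1),(9,1)]) (.cons (.leaf 1 []) (.cons (.keep [0,1,7,8,9] (.node (.cons (.leaf 1 [(7,1),(3,1)]) (.cons (.leaf 1 [(7,1),(3,1)]) (.cons (.leaf 1 [(3,1),(10,1)]) (.cons (.leaf 1 [(3,1),(7,1),(0,1),(10,1)]) (.cons (.leaf 1 [(10,1)]) (.cons (.leaf 1 [(7,1),(0,1),(10,1)]) .nil)))))))) .nil)))))))) (.cons (.keep [1,4,6,7,8] (.node (.cons (.leaf 1 [(6,2),(3,3)]) (.cons (.keep [0,3,6,8,10] (.node (.cons (.leaf 1 [(8,2),(7,2),(3,1)]) (.cons (.leaf 1 [(8,2),(7,2),(3,1)]) (.cons (.leaf 1 [(1,1),(7,2),(3,1)]) (.cons (.leaf 1 [(1,1),(7,2),(3,1)]) (.cons (.leaf 1 [(8,2),(7,2),(10,1)]) (.cons (.leaf 1 [(8,4),(7,4),(0,1),(10,1)]) .nil)))))))) (.cons (.leaf 1 [(3,1),(9,2)]) (.cons (.leaf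 1 [(3,1),(6,1),(9,1),(10,1)]) (.cons (.leaf 1 [(9,2)]) (.cons (.keep [0,6,8,9,10] (.node (.cons (.leaf 1 [(7,1),(9,1),(3,1)]) (.cons (.leaf 1 [(7,1),(9,1),(3,1)]) (.cons (.leaf 1 [(9,1),(3,1)]) (.cons (.leaf 1 [(9,1),(3,1)]) (.cons (.leaf 1 [(10,1),(9,2)]) (.cons (.leaf 1 [(7,1),(9,3),(0,1),(10,1)]) .nil)))))))) .nil)))))))) .nil)))))))) (.cons (.leaf 1 [(7,2),(6,3),(1,3)]) (.cons (.leaf 1 [(7,2),(6,3),(1,3)]) .nil)))))))) (.cons (.keep [4,6,7,8,9] (.leaf 0 [(0,0)])) (.cons (.keep [1,5,7,8,9] (.node (.cons (.leaf 1 [(7,1),(9,2)]) (.cons (.keep [2,6,7,8,9] (.node (.cons (.keep [3,5,6,8,9] (.node (.cons (.leaf 1 [(6,1),(3,1)]) (.cons (.keep [0,6,7,9,10] (.node (.cons (.leaf 1 [(2,1),(3,1)]) (.cons (.leaf 1 [(2,1),(3,1)]) (.cons (.leaf 1 [(7,2),(3,1)]) (.cons (.leaf 1 [(7,2),(3,1)])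 (.cons (.leaf 1 [(7,1),(9,1)]) (.cons (.leaf 1 [(7,2),(0,1),(9,1)]) .nil)))))))) (.cons (.leaf 1 [(3,1),(6,1)]) (.cons (.leaf 1 [(1,1),(6,1),(9,1)]) (.cons (.leaf 1 [(6,1)]) (.cons (.keep [0,1,6,9,10] (.node (.cons (.leaf 1 [(2,1),(7,1),(3,1)]) (.cons (.leaf 1 [(2,1),(7,1),(3,1)]) (.cons (.leaf 1 [(8,2),(7,1),(3,1)]) (.cons (.leaf 1 [(8,2),(7,1),(3,1)]) (.cons (.leaf 1 [(8,1),(9,1)]) (.cons (.leaf 1 [(8,2),(7,1),(0,1),(9,1)]) .nil)))))))) .nil)))))))) (.cons (.keep [3,6,8,9,10] (.node (.cons (.leaf 1 [(10,1),(3,2)]) (.cons (.keep [4,6,7,8,10] (.node (.cons (.leaf 1 [(10,1),(6,1),(3,2)]) (.cons (.leaf 1 [(10,1),(6,1),(3,2)]) (.cons (.leaf 1 [(3,3),(6,2),(7,2)]) (.cons (.leaf 1 [(3,3),(7,2),(6,2)]) (.cons (.leaf 1 [(10,1),(6,1),(9,2)]) (.cons (.leaf 1 [(10,4),(7,2),(0,1),(9,1)])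 .nil)))))))) (.cons (.leaf 1 [(3,1),(10,1),(8,1)]) (.cons (.leaf 1 [(3,1),(10,1),(8,1)]) (.cons (.leaf 1 [(10,1),(9,1)]) (.cons (.keep [1,6,8,9,10] (.node (.cons (.leaf 1 [(10,1),(3,1)]) (.cons (.leaf 1 [(10,1),(3,1)]) (.cons (.leaf 2 [(3,3),(9,1),(7,1)]) (.cons (.leaf 1 [(3,2),(0,1),(4,1),(9,1)]) (.cons (.leaf 1 [(10,1),(9,1),(8,2)]) (.cons (.leaf 1 [(0,1),(10,3),(7,1),(8,1)]) .nil)))))))) .nil)))))))) (.cons (.leaf 1 [(1,2),(3,1)]) (.cons (.leaf 1 [(1,2),(10,1),(9,1)]) (.cons (.keep [1,5,7,8,9] (.node (.cons (.leaf 1 [(6,1),(3,1)]) (.cons (.keep [0,6,7,9,10] (.node (.cons (.leaf 1 [(7,1),(3,1)]) (.cons (.leaf 1 [(7,1),(3,1)]) (.cons (.leaf 1 [(3,1)]) (.cons (.leaf 1 [(3,1)]) (.cons (.leaf 1 [(7,1),(9,1)]) (.cons (.leaf 1 [(7,2),(0,1),(9,1)]) .nil)))))))) (.cons (.leaf 1 [(3,1),(6,1)])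 (.cons (.leaf 1 [(1,1),(6,1),(9,1)]) (.cons (.leaf 1 [(6,1)]) (.cons (.keep [1,4,7,8,9] (.node (.cons (.leaf 1 [(8,1),(6,2),(3,1)]) (.cons (.leaf 1 [(8,1),(6,2),(3,1)]) (.cons (.leaf 1 [(3,1),(6,1)]) (.cons (.leaf 1 [(3,1),(6,1)]) (.cons (.leaf 1 [(8,1),(6,1),(10,1)]) (.cons (.leaf 1 [(8,2),(6,3),(0,1),(10,1)]) .nil)))))))) .nil)))))))) (.cons (.keep [4,7,8,9,10] (.node (.cons (.leaf 1 [(9,3),(3,3)]) (.cons (.keep [6,7,8,9,10] (.node (.cons (.leaf 1 [(10,1),(9,1),(3,2)]) (.cons (.leaf 1 [(10,1),(9,1),(3,2)]) (.cons (.leaf 1 [(9,2),(7,2),(3,3)]) (.cons (.leaf 1 [(9,2),(7,2),(3,3)]) (.cons (.leaf 1 [(10,1),(9,1),(8,2)]) (.cons (.leaf 1 [(10,4),(7,2),(0,1),(8,1)]) .nil)))))))) (.cons (.leaf 1 [(3,3),(1,1),(9,3)]) (.cons (.leaf 1 [(1,2),(10,1),(9,1),(8,2)]) (.cons (.leaf 1 [(1,1),(9,3)])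 (.cons (.keep [6,7,8,9,10] (.node (.cons (.leaf 1 [(8,5),(9,3),(3,4)]) (.cons (.leaf 1 [(0,1),(10,3),(3,1),(8,1)]) (.cons (.leaf 2 [(1,2),(9,1),(3,3)]) (.cons (.leaf 2 [(1,2),(9,1),(3,3)]) (.cons (.leaf 1 [(1,1),(9,3),(8,5)]) (.cons (.leaf 1 [(0,1),(10,3),(8,1)]) .nil)))))))) .nil)))))))) .nil)))))))) (.cons (.leaf 1 [(1,1),(7,1),(9,2)]) (.cons (.keep [6,7,8,9,10] (.node (.cons (.keep [3,5,7,8,9] (.node (.cons (.leaf 1 [(3,1)]) (.cons (.keep [6,7,8,9,10] (.node (.cons (.leaf 1 [(3,1)]) (.cons (.leaf 1 [(3,1)]) (.cons (.leaf 1 [(3,1),(6,1)]) (.cons (.leaf 1 [(3,1),(6,1)]) (.cons (.leaf 1 [(8,1)]) (.cons (.leaf 1 [(0,1),(8,1)]) .nil)))))))) (.cons (.leaf 1 [(3,1)]) (.cons (.leaf 1 [(1,1),(8,1)]) (.cons (.leaf 1 []) (.cons (.keep [1,6,7,8,9] (.node (.cons (.leaf 1 [(6,1),(3,1)])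 (.cons (.leaf 1 [(6,1),(3,1)]) (.cons (.leaf 1 [(3,1),(6,1),(7,1)]) (.cons (.leaf 1 [(3,1),(6,1),(7,1)]) (.cons (.leaf 1 [(9,1)]) (.cons (.leaf 1 [(6,1),(0,1),(9,1)]) .nil)))))))) .nil)))))))) (.cons (.keep [6,7,8,9,10] (.node (.cons (.leaf 1 [(9,1),(3,2)]) (.cons (.keep [4,6,7,9,10] (.node (.cons (.leaf 1 [(9,1),(6,1),(3,2)]) (.cons (.leaf 1 [(9,1),(6,1),(3,2)]) (.cons (.leaf 1 [(3,1),(1,1),(7,1)]) (.cons (.leaf 2 [(3,3),(7,1),(6,1)]) (.cons (.leaf 1 [(9,1),(6,1),(8,2)]) (.cons (.leaf 1 [(9,4),(7,2),(0,1),(8,1)]) .nil)))))))) (.cons (.leaf 1 [(3,1),(9,1),(7,1)]) (.cons (.leaf 1 [(3,1),(9,1),(7,1)]) (.cons (.leaf 1 [(9,1),(8,1)]) (.cons (.keep [1,6,7,8,9] (.node (.cons (.leaf 1 [(10,1),(3,1)]) (.cons (.leaf 1 [(10,1),(3,1)]) (.cons (.leaf 1 [(3,1)]) (.cons (.leaf 1 [(3,1)])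 (.cons (.leaf 1 [(10,1),(8,2),(9,1)]) (.cons (.leaf 1 [(10,3),(0,1),(7,1),(8,1)]) .nil)))))))) .nil)))))))) (.cons (.leaf 1 [(1,2)]) (.cons (.leaf 1 [(1,2),(9,1),(8,1)]) (.cons (.keep [1,5,6,7,8] (.node (.cons (.leaf 1 [(6,1),(3,1)]) (.cons (.keep [0,6,7,9,10] (.node (.cons (.leaf 1 [(7,1),(3,1)]) (.cons (.leaf 1 [(7,1),(3,1)]) (.cons (.leaf 1 [(3,1)]) (.cons (.leaf 1 [(3,1)]) (.cons (.leaf 1 [(7,1),(9,1)]) (.cons (.leaf 1 [(7,2),(0,1),(9,1)]) .nil)))))))) (.cons (.leaf 1 [(3,1),(6,1)]) (.cons (.leaf 1 [(1,1),(6,1),(9,1)]) (.cons (.leaf 1 [(6,1)]) (.cons (.keep [1,4,7,8,9] (.node (.cons (.leaf 1 [(8,1),(6,2),(3,1)]) (.cons (.leaf 1 [(8,1),(6,2),(3,1)]) (.cons (.leaf 1 [(3,1),(6,1)]) (.cons (.leaf 1 [(3,1),(6,1)]) (.cons (.leaf 1 [(8,1),(6,1),(10,1)]) (.cons (.leaf 1 [(8,2),(6,3),(0,1),(10,1)])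 .nil)))))))) .nil)))))))) (.cons (.keep [1,4,6,7,8] (.node (.cons (.leaf 1 [(6,2),(3,2)]) (.cons (.keep [3,6,7,9,10] (.node (.cons (.leaf 1 [(7,2),(6,1),(3,1)]) (.cons (.leaf 1 [(7,2),(6,1),(3,1)]) (.cons (.leaf 1 [(1,1),(6,1),(3,1)]) (.cons (.leaf 1 [(1,1),(6,1),(3,1)]) (.cons (.leaf 1 [(7,2),(6,1),(9,1)]) (.cons (.leaf 1 [(7,4),(6,2),(0,1),(9,1)]) .nil)))))))) (.cons (.leaf 1 [(3,1),(6,2),(8,1)]) (.cons (.leaf 1 [(3,1),(6,2),(9,1)]) (.cons (.leaf 1 [(6,2),(8,1)]) (.cons (.keep [6,7,8,9,10] (.node (.cons (.leaf 1 [(6,2),(3,1)]) (.cons (.leaf 1 [(6,2),(3,1)]) (.cons (.leaf 1 [(1,1),(3,1)]) (.cons (.leaf 1 [(1,1),(3,1)]) (.cons (.leaf 1 [(6,2),(9,1),(8,1)]) (.cons (.leaf 1 [(6,4),(0,1),(8,1),(9,1)]) .nil)))))))) .nil)))))))) .nil)))))))) (.cons (.leaf 1 [(8,2),(7,3),(1,3)]) (.cons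 (.leaf 1 [(8,2),(7,3),(4,1),(1,3)]) .nil)))))))) (.cons (.keep [1,4,6,8,9] (.leaf 0 [(1,0)])) (.cons (.leaf 1 [(7,2),(1,2)]) (.cons (.leaf 1 [(7,2),(4,1),(1,2)]) .nil)))))))

theorem c_11_24_6 : Concl 11 24 z_11_24_6 h_11_24_6 .nd := piece _ (hP_cons E31.c_11_24_4 (hP_cons
  E31.c_11_24_5 hP_nil)) t_11_24_6 _ _ (by decide +kernel)

def z_11_24_7 : F := ⟨1, 0, -1, 0, 1⟩

def h_11_24_7 : List F := [⟨1, 0, 0, 0, 0⟩, ⟨0, 0, 1, -1, 0⟩, ⟨0, 0, -1, 0, 1⟩, ⟨1, -1, -1, 0, 1⟩]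

def t_11_24_7 : T := (.node (.cons (.keep [2,5,7,8] (.node (.cons (.leaf 1 [(8,1),(7,2),(6,2)]) (.cons (.keep [0,2,6,7,8] (.node (.cons (.keep [3,5,7,9,10] (.node (.cons (.leaf 1 [(6,1),(3,1)]) (.cons (.keep [0,6,7,9,10] (.node (.cons (.leaf 1 [(2,1),(3,1)]) (.cons (.leaf 1 [(2,1),(3,1)]) (.cons (.leaf 1 [(7,2),(3,1)]) (.cons (.leaf 1 [(7,2),(3,1)]) (.cons (.leaf 1 [(7,1),(9,1)]) (.cons (.leaf 1 [(7,2),(0,1),(9,1)]) .nil)))))))) (.cons (.leaf 1 [(3,1),(6,1)]) (.cons (.leaf 1 [(1,1),(6,1),(9,1)]) (.cons (.leaf 1 [(6,1)]) (.cons (.keep [0,1,6,9,10] (.node (.cons (.leaf 1 [(2,1),(7,1),(3,1)]) (.cons (.leaf 1 [(2,1),(7,1),(3,1)]) (.cons (.leaf 1 [(8,2),(7,1),(3,1)]) (.cons (.leaf 1 [(8,2),(7,1),(3,1)]) (.cons (.leaf 1 [(8,1),(9,1)]) (.cons (.leaf 1 [(8,2),(7,1),(0,1),(9,1)]) .nil))))))))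 .nil)))))))) (.cons (.keep [3,7,8,9,10] (.node (.cons (.leaf 1 [(3,2)]) (.cons (.keep [0,3,4,6,8,9] (.node (.cons (.leaf 1 [(7,1),(3,1)]) (.cons (.leaf 1 [(7,1),(3,1)]) (.cons (.leaf 1 [(3,1),(7,1),(9,1)]) (.cons (.leaf 1 [(3,1),(7,1),(9,1)]) (.cons (.leaf 1 [(7,1),(11,1)]) (.cons (.leaf 1 [(7,2),(0,1),(11,1)]) .nil)))))))) (.cons (.leaf 1 [(3,1),(9,1)]) (.cons (.leaf 1 [(3,1),(9,1)]) (.cons (.leaf 1 [(10,1)]) (.cons (.keep [1,6,8,9,10] (.node (.cons (.leaf 1 [(3,1)]) (.cons (.leaf 1 [(3,1)]) (.cons (.leaf 1 [(3,1),(7,1)]) (.cons (.leaf 1 [(3,1),(7,1)]) (.cons (.leaf 1 [(9,2),(10,1)]) (.cons (.leaf 1 [(0,2),(10,1),(9,2)]) .nil)))))))) .nil)))))))) (.cons (.leaf 1 [(1,1),(3,1)]) (.cons (.leaf 1 [(1,2),(10,1)]) (.cons (.keep [1,5,6,9] (.node (.cons (.leaf 1 [(3,1)]) (.cons (.keep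 [3,6,8,9] (.node (.cons (.leaf 1 [(3,1)]) (.cons (.leaf 1 [(3,1)]) (.cons (.leaf 1 [(3,1),(9,1)]) (.cons (.leaf 1 [(3,1),(0,1),(9,1)]) (.cons (.leaf 1 [(9,1)]) (.cons (.leaf 1 [(0,1),(9,1)]) .nil)))))))) (.cons (.leaf 1 [(3,1)]) (.cons (.leaf 1 [(1,1),(9,1)]) (.cons (.leaf 1 []) (.cons (.keep [0,1,7,8,9] (.node (.cons (.leaf 1 [(7,1),(3,1)]) (.cons (.leaf 1 [(7,1),(3,1)]) (.cons (.leaf 1 [(3,1),(10,1)]) (.cons (.leaf 1 [(3,1),(7,1),(0,1),(10,1)]) (.cons (.leaf 1 [(10,1)]) (.cons (.leaf 1 [(7,1),(0,1),(10,1)]) .nil)))))))) .nil)))))))) (.cons (.keep [0,1,4,9,10] (.node (.cons (.leaf 1 [(7,1),(3,2)]) (.cons (.keep [0,3,7,9,10] (.node (.cons (.leaf 1 [(8,1),(7,1),(3,1)]) (.cons (.leaf 1 [(8,1),(7,1),(3,1)]) (.cons (.leaf 1 [(3,1),(7,1)]) (.cons (.leaf 1 [(3,1),(7,1)]) (.cons (.leaf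 1 [(8,1),(7,1),(9,1)]) (.cons (.leaf 1 [(8,2),(7,2),(0,1),(9,1)]) .nil)))))))) (.cons (.leaf 1 [(3,1),(7,1),(9,1)]) (.cons (.leaf 1 [(3,1),(7,1),(9,1)]) (.cons (.leaf 1 [(10,1)]) (.cons (.keep [0,7,8,9,10] (.node (.cons (.leaf 1 [(7,1),(3,1)]) (.cons (.leaf 1 [(7,1),(3,1)]) (.cons (.leaf 1 [(3,1)]) (.cons (.leaf 1 [(3,1)]) (.cons (.leaf 1 [(10,1),(9,2)]) (.cons (.leaf 1 [(7,2),(0,2),(10,1),(9,2)]) .nil)))))))) .nil)))))))) .nil)))))))) (.cons (.leaf 1 [(1,2),(7,1),(6,1)]) (.cons (.keep [0,1,6,7,9] (.node (.cons (.keep [2,3,5,8,9] (.node (.cons (.leaf 1 [(7,1),(3,1)]) (.cons (.keep [0,6,7,8,10] (.node (.cons (.leaf 1 [(2,1),(3,1)]) (.cons (.leaf 1 [(2,1),(3,1)]) (.cons (.leaf 1 [(8,2),(3,1)]) (.cons (.leaf 1 [(8,2),(3,1)]) (.cons (.leaf 1 [(8,1),(10,1)]) (.cons (.leaf 1 [(8,2),(0,1),(10,1)])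 .nil)))))))) (.cons (.leaf 1 [(3,1),(7,1)]) (.cons (.leaf 1 [(1,1),(7,1),(10,1)]) (.cons (.leaf 1 [(7,1)]) (.cons (.keep [0,1,4,7,10] (.node (.cons (.leaf 1 [(2,1),(7,1),(3,1)]) (.cons (.leaf 1 [(2,1),(7,1),(3,1)]) (.cons (.leaf 1 [(9,2),(7,1),(3,1)]) (.cons (.leaf 1 [(9,2),(7,1),(3,1)]) (.cons (.leaf 1 [(9,1),(10,1)]) (.cons (.leaf 1 [(9,2),(7,1),(0,1),(10,1)]) .nil)))))))) .nil)))))))) (.cons (.keep [4,6,7,8,9] (.node (.cons (.leaf 1 [(3,2)]) (.cons (.keep [3,6,7,9,10] (.node (.cons (.leaf 1 [(6,1),(3,1)]) (.cons (.leaf 1 [(6,1),(3,1)]) (.cons (.leaf 1 [(3,1),(6,2),(7,1)]) (.cons (.leaf 1 [(3,1),(6,2),(7,1)]) (.cons (.leaf 1 [(6,1),(10,1)]) (.cons (.leaf 1 [(6,2),(0,1),(10,1)]) .nil)))))))) (.cons (.leaf 1 [(3,1),(8,1)]) (.cons (.leaf 1 [(3,1),(10,1)]) (.cons (.leaf 1 [(8,1)])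 (.cons (.keep [6,7,8,9,10] (.node (.cons (.leaf 1 [(3,1)]) (.cons (.leaf 1 [(3,1)]) (.cons (.leaf 1 [(3,1),(6,1),(8,1)]) (.cons (.leaf 1 [(3,1),(6,1),(8,1)]) (.cons (.leaf 1 [(10,1),(8,1)]) (.cons (.leaf 1 [(0,1),(8,1),(10,1)]) .nil)))))))) .nil)))))))) (.cons (.leaf 1 [(1,1),(3,1)]) (.cons (.leaf 1 [(1,1),(7,1)]) (.cons (.keep [1,5,6,9] (.node (.cons (.leaf 1 [(3,1)]) (.cons (.keep [3,6,8,9] (.node (.cons (.leaf 1 [(3,1)]) (.cons (.leaf 1 [(3,1)]) (.cons (.leaf 1 [(3,1),(9,1)]) (.cons (.leaf 1 [(3,1),(0,1),(9,1)]) (.cons (.leaf 1 [(9,1)]) (.cons (.leaf 1 [(0,1),(9,1)]) .nil)))))))) (.cons (.leaf 1 [(3,1)]) (.cons (.leaf 1 [(1,1),(9,1)]) (.cons (.leaf 1 []) (.cons (.keep [0,1,7,8,9] (.node (.cons (.leaf 1 [(7,1),(3,1)]) (.cons (.leaf 1 [(7,1),(3,1)]) (.cons (.leaf 1 [(3,1),(10,1)])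 (.cons (.leaf 1 [(3,1),(7,1),(0,1),(10,1)]) (.cons (.leaf 1 [(10,1)]) (.cons (.leaf 1 [(7,1),(0,1),(10,1)]) .nil)))))))) .nil)))))))) (.cons (.keep [4,6,7,8,9] (.node (.cons (.leaf 1 [(8,1),(3,1)]) (.cons (.keep [0,3,7,8,9,10] (.node (.cons (.leaf 1 [(9,1),(3,1)]) (.cons (.leaf 1 [(9,1),(3,1)]) (.cons (.leaf 1 [(3,1),(7,1)]) (.cons (.leaf 1 [(3,1),(7,1)]) (.cons (.leaf 1 [(9,1),(11,1)]) (.cons (.leaf 1 [(9,2),(0,1),(11,1)]) .nil)))))))) (.cons (.leaf 1 [(3,1),(8,1)]) (.cons (.leaf 1 [(1,1),(8,1),(10,1)]) (.cons (.leaf 1 [(8,1)]) (.cons (.keep [0,1,7,8,10] (.node (.cons (.leaf 1 [(9,1),(7,1),(3,1)]) (.cons (.leaf 1 [(9,1),(7,1),(3,1)]) (.cons (.leaf 1 [(3,1)]) (.cons (.leaf 1 [(3,1)]) (.cons (.leaf 1 [(9,1),(10,1)]) (.cons (.leaf 1 [(9,2),(7,1),(0,1),(10,1)]) .nil)))))))) .nil))))))))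 .nil)))))))) (.cons (.leaf 1 [(8,1),(7,2),(1,2)]) (.cons (.leaf 1 [(8,1),(7,2),(1,2)]) .nil)))))))) (.cons (.keep [2,4,6,7,8] (.node (.cons (.keep [2,3,5,6,9] (.node (.cons (.leaf 1 [(8,1)]) (.cons (.keep [0,6,8,9,10] (.node (.cons (.leaf 1 [(9,1),(3,1)]) (.cons (.leaf 1 [(9,1),(3,1)]) (.cons (.leaf 1 [(3,1)]) (.cons (.leaf 1 [(3,1)]) (.cons (.leaf 1 [(9,1),(10,1)]) (.cons (.leaf 1 [(9,2),(0,1),(10,1)]) .nil)))))))) (.cons (.leaf 1 [(1,1),(8,1)]) (.cons (.leaf 1 [(1,1),(9,1),(10,1)]) (.cons (.leaf 1 [(8,1),(1,1)]) (.cons (.keep [1,4,7,8,10] (.node (.cons (.leaf 1 [(9,1),(6,2),(3,1)]) (.cons (.leaf 1 [(9,1),(6,2),(3,1)]) (.cons (.leaf 1 [(3,1),(6,1)]) (.cons (.leaf 1 [(3,1),(6,1)]) (.cons (.leaf 1 [(9,1),(6,1),(10,1)]) (.cons (.leaf 1 [(9,2),(6,3),(0,1),(10,1)]) .nil))))))))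 .nil)))))))) (.cons (.keep [0,2,3,6,7,9] (.node (.cons (.keep [3,5,6,7,10] (.node (.cons (.leaf 1 [(3,1),(6,1),(10,1)]) (.cons (.keep [0,2,6,7,10] (.node (.cons (.leaf 1 [(2,1),(3,1)]) (.cons (.leaf 1 [(2,1),(10,1),(3,1)]) (.cons (.leaf 1 [(3,1),(8,1)]) (.cons (.leaf 1 [(10,1),(8,2),(3,1)]) (.cons (.leaf 1 [(8,1)]) (.cons (.leaf 1 [(8,2),(10,1),(0,1)]) .nil)))))))) (.cons (.leaf 1 [(1,1),(6,1)]) (.cons (.leaf 1 [(1,1),(6,1)]) (.cons (.leaf 1 [(10,1),(6,1)]) (.cons (.keep [0,1,6,8,10] (.node (.cons (.leaf 1 [(2,1),(3,1)]) (.cons (.leaf 1 [(2,1),(7,1),(10,1),(3,1)]) (.cons (.leaf 1 [(3,1),(8,1)]) (.cons (.leaf 1 [(10,1),(7,1),(8,2),(3,1)]) (.cons (.leaf 1 [(8,1)]) (.cons (.leaf 1 [(8,2),(7,1),(10,1),(0,1)]) .nil)))))))) .nil)))))))) (.cons (.keep [0,3,7,9,10,11] (.node (.cons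 (.leaf 1 [(10,1),(3,2)]) (.cons (.keep [0,3,4,7,9,10] (.node (.cons (.leaf 1 [(7,1),(3,1)]) (.cons (.leaf 1 [(7,1),(11,1),(3,1)]) (.cons (.leaf 1 [(3,1),(7,1)]) (.cons (.leaf 1 [(3,1),(7,2),(11,1),(0,1)]) (.cons (.leaf 1 [(7,1)]) (.cons (.leaf 1 [(7,2),(11,1),(0,1)]) .nil)))))))) (.cons (.leaf 1 [(3,1)]) (.cons (.leaf 1 [(3,1)]) (.cons (.leaf 1 [(10,1),(11,1)]) (.cons (.keep [0,1,7,9,10,11] (.node (.cons (.leaf 1 [(10,1),(3,1)]) (.cons (.leaf 1 [(3,1),(10,1)]) (.cons (.leaf 1 [(3,1),(10,1),(8,1)]) (.cons (.leaf 1 [(3,1),(8,1),(10,1)]) (.cons (.leaf 1 [(6,1),(11,1)]) (.cons (.leaf 1 [(11,1),(10,1),(0,2)]) .nil)))))))) .nil)))))))) (.cons (.leaf 1 [(3,1),(1,1),(10,1)]) (.cons (.leaf 1 [(1,2),(10,1),(11,1)]) (.cons (.keep [1,5,6,10] (.node (.cons (.leaf 1 [(3,1),(9,1)]) (.cons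 (.keep [0,3,6,8,9] (.node (.cons (.leaf 1 [(3,1)]) (.cons (.leaf 1 [(10,1),(3,1)]) (.cons (.leaf 1 [(3,1)]) (.cons (.leaf 1 [(3,1),(10,1),(0,1)]) (.cons (.leaf 1 []) (.cons (.leaf 1 [(10,1),(0,1)]) .nil)))))))) (.cons (.leaf 1 [(1,1)]) (.cons (.leaf 1 [(1,1)]) (.cons (.leaf 1 [(9,1)]) (.cons (.keep [0,1,7,8,9] (.node (.cons (.leaf 1 [(3,1)]) (.cons (.leaf 1 [(7,1),(10,1),(3,1)]) (.cons (.leaf 1 [(3,1)]) (.cons (.leaf 1 [(3,1),(7,1),(10,1),(0,1)]) (.cons (.leaf 1 []) (.cons (.leaf 1 [(7,1),(10,1),(0,1)]) .nil)))))))) .nil)))))))) (.cons (.keep [0,1,4,10,11] (.node (.cons (.leaf 1 [(9,1),(7,1),(3,2)]) (.cons (.keep [0,3,7,9,10] (.node (.cons (.leaf 1 [(8,1),(7,1),(3,1)]) (.cons (.leaf 1 [(8,1),(7,1),(9,1),(3,1)]) (.cons (.leaf 1 [(1,1),(7,1),(3,1)]) (.cons (.leaf 1 [(3,1),(7,1),(9,1)])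 (.cons (.leaf 1 [(8,1),(7,1)]) (.cons (.leaf 1 [(8,2),(7,2),(9,1),(0,1)]) .nil)))))))) (.cons (.leaf 1 [(3,1),(7,1)]) (.cons (.leaf 1 [(3,1),(7,1)]) (.cons (.leaf 1 [(9,1),(10,1)]) (.cons (.keep [0,7,8,9,10] (.node (.cons (.leaf 1 [(7,1),(9,1),(3,1)]) (.cons (.leaf 1 [(7,1),(3,1),(9,1)]) (.cons (.leaf 1 [(9,1),(3,1)]) (.cons (.leaf 1 [(3,1),(9,1)]) (.cons (.leaf 1 [(7,1),(6,1),(10,1)]) (.cons (.leaf 1 [(7,2),(10,1),(9,1),(0,2)]) .nil)))))))) .nil)))))))) .nil)))))))) (.cons (.leaf 1 [(1,2),(6,1)]) (.cons (.keep [0,1,6,7,10] (.node (.cons (.keep [3,5,6,8,9] (.node (.cons (.leaf 1 [(3,1),(6,1),(10,1)]) (.cons (.keep [0,2,6,7,10] (.node (.cons (.leaf 1 [(2,1),(3,1)]) (.cons (.leaf 1 [(2,1),(10,1),(3,1)]) (.cons (.leaf 1 [(3,1),(8,1)]) (.cons (.leaf 1 [(10,1),(8,2),(3,1)]) (.cons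 (.leaf 1 [(8,1)]) (.cons (.leaf 1 [(8,2),(10,1),(0,1)]) .nil)))))))) (.cons (.leaf 1 [(1,1),(6,1)]) (.cons (.leaf 1 [(1,1),(6,1)]) (.cons (.leaf 1 [(10,1),(6,1)]) (.cons (.keep [0,1,6,8,10] (.node (.cons (.leaf 1 [(2,1),(3,1)]) (.cons (.leaf 1 [(2,1),(7,1),(10,1),(3,1)]) (.cons (.leaf 1 [(3,1),(8,1)]) (.cons (.leaf 1 [(10,1),(7,1),(8,2),(3,1)]) (.cons (.leaf 1 [(8,1)]) (.cons (.leaf 1 [(8,2),(7,1),(10,1),(0,1)]) .nil)))))))) .nil)))))))) (.cons (.keep [4,6,7,8,9] (.node (.cons (.leaf 1 [(10,1),(3,2)]) (.cons (.keep [0,3,6,7,9,10] (.node (.cons (.leaf 1 [(7,1),(3,1)]) (.cons (.leaf 1 [(7,1),(11,1),(3,1)]) (.cons (.leaf 1 [(3,1),(7,1)]) (.cons (.leaf 1 [(3,1),(7,2),(11,1),(0,1)]) (.cons (.leaf 1 [(7,1)]) (.cons (.leaf 1 [(7,2),(11,1),(0,1)]) .nil)))))))) (.cons (.leaf 1 [(3,1)])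 (.cons (.leaf 1 [(3,1)]) (.cons (.leaf 1 [(10,1),(8,1)]) (.cons (.keep [0,6,7,8,9,10] (.node (.cons (.leaf 1 [(9,1),(3,1)]) (.cons (.leaf 1 [(3,1),(11,1)]) (.cons (.leaf 1 [(3,1),(9,1)]) (.cons (.leaf 1 [(3,1),(9,1),(11,1),(0,1)]) (.cons (.leaf 1 [(9,1)]) (.cons (.leaf 1 [(9,1),(11,1),(0,1)]) .nil)))))))) .nil)))))))) (.cons (.leaf 1 [(3,1),(1,1),(9,1)]) (.cons (.leaf 1 [(7,1),(1,1),(9,1)]) (.cons (.keep [1,5,6,9] (.node (.cons (.leaf 1 [(3,1),(9,1)]) (.cons (.keep [0,3,6,8,9] (.node (.cons (.leaf 1 [(3,1)]) (.cons (.leaf 1 [(10,1),(3,1)]) (.cons (.leaf 1 [(3,1)]) (.cons (.leaf 1 [(3,1),(10,1),(0,1)]) (.cons (.leaf 1 []) (.cons (.leaf 1 [(10,1),(0,1)]) .nil)))))))) (.cons (.leaf 1 [(1,1)]) (.cons (.leaf 1 [(1,1)]) (.cons (.leaf 1 [(9,1)]) (.cons (.keep [0,1,7,8,9] (.node (.cons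 (.leaf 1 [(3,1)]) (.cons (.leaf 1 [(7,1),(10,1),(3,1)]) (.cons (.leaf 1 [(3,1)]) (.cons (.leaf 1 [(3,1),(7,1),(10,1),(0,1)]) (.cons (.leaf 1 []) (.cons (.leaf 1 [(7,1),(10,1),(0,1)]) .nil)))))))) .nil)))))))) (.cons (.keep [4,6,7,8,9] (.node (.cons (.leaf 1 [(3,1),(10,1),(8,1)]) (.cons (.keep [0,3,7,8,9,10] (.node (.cons (.leaf 1 [(9,1),(3,1)]) (.cons (.leaf 1 [(9,1),(11,1),(3,1)]) (.cons (.leaf 1 [(1,1),(7,1),(3,1)]) (.cons (.leaf 1 [(3,1),(7,1),(11,1)]) (.cons (.leaf 1 [(9,1)]) (.cons (.leaf 1 [(9,2),(11,1),(0,1)]) .nil)))))))) (.cons (.leaf 1 [(1,1),(8,1)]) (.cons (.leaf 1 [(8,1),(1,1)]) (.cons (.leaf 1 [(10,1),(8,1)]) (.cons (.keep [0,1,7,8,10] (.node (.cons (.leaf 1 [(9,1),(3,1)]) (.cons (.leaf 1 [(9,1),(10,1),(7,1),(3,1)]) (.cons (.leaf 1 [(9,1),(3,1)]) (.cons (.leaf 1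 [(3,1),(10,1)]) (.cons (.leaf 1 [(9,1)]) (.cons (.leaf 1 [(9,2),(10,1),(7,1),(0,1)]) .nil)))))))) .nil)))))))) .nil)))))))) (.cons (.keep [1,5,8,9,10] (.node (.cons (.leaf 1 [(6,1),(3,1)]) (.cons (.keep [0,6,7,9,10] (.node (.cons (.leaf 1 [(7,1),(3,1)]) (.cons (.leaf 1 [(7,1),(3,1)]) (.cons (.leaf 1 [(3,1)]) (.cons (.leaf 1 [(3,1)]) (.cons (.leaf 1 [(7,1),(9,1)]) (.cons (.leaf 1 [(7,2),(0,1),(9,1)]) .nil)))))))) (.cons (.leaf 1 [(3,1),(6,1)]) (.cons (.leaf 1 [(1,1),(6,1),(9,1)]) (.cons (.leaf 1 [(6,1)]) (.cons (.keep [1,4,7,8,9] (.node (.cons (.leaf 1 [(8,1),(6,2),(3,1)]) (.cons (.leaf 1 [(8,1),(6,2),(3,1)]) (.cons (.leaf 1 [(3,1),(6,1)]) (.cons (.leaf 1 [(3,1),(6,1)]) (.cons (.leaf 1 [(8,1),(6,1),(10,1)]) (.cons (.leaf 1 [(8,2),(6,3),(0,1),(10,1)]) .nil)))))))) .nil))))))))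 (.cons (.keep [0,1,4,8,9] (.node (.cons (.leaf 1 [(7,1),(3,1)]) (.cons (.keep [3,6,7,8,10] (.node (.cons (.leaf 1 [(8,1),(3,1)]) (.cons (.leaf 1 [(8,1),(3,1)]) (.cons (.leaf 1 [(3,1)]) (.cons (.leaf 1 [(3,1)]) (.cons (.leaf 1 [(8,1),(10,1)]) (.cons (.leaf 1 [(8,2),(0,1),(10,1)]) .nil)))))))) (.cons (.leaf 1 [(3,1),(7,1)]) (.cons (.leaf 1 [(1,1),(7,1),(10,1)]) (.cons (.leaf 1 [(7,1)]) (.cons (.keep [0,6,7,8,10] (.node (.cons (.leaf 1 [(8,2),(9,1),(3,1)]) (.cons (.leaf 1 [(8,2),(9,1),(3,1)]) (.cons (.leaf 1 [(3,1),(1,1),(9,1)]) (.cons (.leaf 1 [(3,1),(9,1),(1,1)]) (.cons (.leaf 1 [(8,1),(10,1)]) (.cons (.leaf 1 [(8,3),(9,1),(0,1),(10,1)]) .nil)))))))) .nil)))))))) .nil)))))))) (.cons (.keep [1,5,7,8] (.leaf 0 [(0,0)])) (.cons (.keep [1,4,6,7,8,9] (.leaf 0 [(1,0)])) (.cons (.leaf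 1 [(7,1),(1,1)]) (.cons (.leaf 1 [(7,1),(4,1),(1,1)]) .nil)))))))

theorem c_11_24_7 : Concl 11 24 z_11_24_7 h_11_24_7 .nd := piece _ (hP_cons c_11_24_2 (hP_cons
  E31.c_11_24_3 hP_nil)) t_11_24_7 _ _ (by decide +kernel)

def z_11_24_8 : F := ⟨1, 0, 0, -1, 1⟩

def h_11_24_8 : List F := [⟨1, 0, 0, 0, 0⟩, ⟨0, 0, -1, 1, 0⟩, ⟨0, 0, 0, -1, 1⟩, ⟨1, -1, 0, -1, 1⟩]

def t_11_24_8 : T := (.node (.cons (.keep [2,3,5,7] (.node (.cons (.leaf 1 [(8,2),(6,2)]) (.cons (.keep [0,6,8,9] (.node (.cons (.leaf 1 [(3,2),(9,2)]) (.cons (.keep [0,3,7,8,9] (.node (.cons (.leaf 1 [(3,2)]) (.cons (.leaf 1 [(10,2),(3,2)]) (.cons (.leaf 1 [(3,2)]) (.cons (.leaf 1 [(1,2),(9,2)]) (.cons (.leaf 1 []) (.cons (.keep [0,6,7,8,9,10] (.node (.cons (.leaf 1 [(10,2),(3,2)]) (.cons (.leaf 1 [(11,1),(3,1)]) (.cons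 (.leaf 1 [(3,2),(10,2)]) (.cons (.leaf 1 [(3,1),(11,1),(8,1)]) (.cons (.leaf 1 [(10,2)]) (.cons (.leaf 1 [(11,2),(0,2),(10,2)]) .nil)))))))) .nil)))))))) (.cons (.leaf 1 [(1,2)]) (.cons (.leaf 1 [(1,2)]) (.cons (.leaf 1 [(9,2)]) (.cons (.keep [0,1,8,9] (.node (.cons (.leaf 1 [(3,2)]) (.cons (.leaf 1 [(7,2),(9,2),(3,2)]) (.cons (.leaf 1 [(3,2)]) (.cons (.leaf 1 [(1,2),(8,2)]) (.cons (.leaf 1 []) (.cons (.keep [0,6,7,8,9] (.node (.cons (.leaf 1 [(9,2),(3,2)]) (.cons (.leaf 1 [(8,1),(10,1),(3,1)]) (.cons (.leaf 1 [(3,2),(9,2)]) (.cons (.leaf 1 [(3,1),(10,1)]) (.cons (.leaf 1 [(9,2)]) (.cons (.leaf 1 [(8,2),(10,2),(0,2),(9,2)]) .nil)))))))) .nil)))))))) .nil)))))))) (.cons (.leaf 1 [(1,2),(8,2),(6,2)]) (.cons (.leaf 1 [(1,2),(9,2)]) (.cons (.leaf 1 [(8,2),(1,2)]) (.cons (.leaf 1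 [(8,2),(1,2)]) .nil)))))))) (.cons (.keep [2,4,6,7] (.node (.cons (.keep [3,5,6,7,9] (.node (.cons (.leaf 1 [(3,1),(8,1),(10,1)]) (.cons (.keep [0,7,8,9,10] (.node (.cons (.leaf 1 [(8,1),(3,1)]) (.cons (.leaf 1 [(8,1),(10,1),(3,1)]) (.cons (.leaf 1 [(1,1),(3,1)]) (.cons (.leaf 1 [(3,1),(10,1)]) (.cons (.leaf 1 [(8,1)]) (.cons (.leaf 1 [(8,2),(10,1),(0,1)]) .nil)))))))) (.cons (.leaf 1 [(1,1),(8,1)]) (.cons (.leaf 1 [(1,1),(8,1)]) (.cons (.leaf 1 [(10,1),(7,1),(1,1)]) (.cons (.keep [0,1,8,9,10] (.node (.cons (.leaf 1 [(8,1),(3,1)]) (.cons (.leaf 1 [(8,1),(7,1),(10,1),(3,1)]) (.cons (.leaf 1 [(1,1),(3,1)]) (.cons (.leaf 1 [(3,1),(7,1),(10,1)]) (.cons (.leaf 1 [(8,1)]) (.cons (.leaf 1 [(8,2),(7,1),(10,1),(0,1)]) .nil)))))))) .nil)))))))) (.cons (.keep [0,3,6,7,9] (.node (.cons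 (.leaf 1 [(3,2),(9,1),(10,2)]) (.cons (.keep [0,3,8,9,10] (.node (.cons (.leaf 1 [(9,1),(3,2)]) (.cons (.leaf 1 [(9,1),(10,2),(3,2)]) (.cons (.leaf 1 [(1,1),(3,1)]) (.cons (.leaf 1 [(3,1),(10,1)]) (.cons (.leaf 1 [(9,1)]) (.cons (.keep [0,6,7,8,9,10] (.node (.cons (.leaf 2 [(11,1),(3,3)]) (.cons (.leaf 1 [(11,1),(3,1),(10,1)]) (.cons (.leaf 2 [(3,3),(11,1),(8,1)]) (.cons (.leaf 1 [(3,2),(10,1),(11,2),(0,2)]) (.cons (.leaf 1 [(11,1),(6,1)]) (.cons (.leaf 1 [(11,2),(10,1),(0,2)]) .nil)))))))) .nil)))))))) (.cons (.leaf 1 [(1,2),(9,1)]) (.cons (.leaf 1 [(1,2),(9,1)]) (.cons (.leaf 1 [(10,2),(9,1)]) (.cons (.keep [0,1,9,10] (.node (.cons (.leaf 1 [(8,1),(3,2)]) (.cons (.leaf 1 [(8,1),(7,2),(9,2),(3,2)]) (.cons (.leaf 1 [(1,1),(3,1)]) (.cons (.leaf 1 [(3,1),(7,1),(9,1)]) (.cons (.leaf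 1 [(8,1)]) (.cons (.keep [0,6,7,8,9] (.node (.cons (.leaf 2 [(8,1),(10,1),(3,3)]) (.cons (.leaf 1 [(8,1),(10,1),(3,1),(9,1)]) (.cons (.leaf 2 [(3,3),(10,1)]) (.cons (.leaf 1 [(3,1),(9,1),(10,1)]) (.cons (.leaf 1 [(8,1),(10,1),(6,1)]) (.cons (.leaf 1 [(8,2),(10,2),(9,1),(0,2)]) .nil)))))))) .nil)))))))) .nil)))))))) (.cons (.leaf 1 [(1,2),(9,1),(6,1)]) (.cons (.leaf 1 [(1,2),(9,2),(7,1)]) (.cons (.keep [1,5,7,8,9] (.node (.cons (.leaf 1 [(3,1),(6,1),(10,1)]) (.cons (.keep [0,6,7,8,10] (.node (.cons (.leaf 1 [(7,1),(3,1)]) (.cons (.leaf 1 [(7,1),(10,1),(3,1)]) (.cons (.leaf 1 [(1,1),(3,1)]) (.cons (.leaf 1 [(3,1),(10,1)]) (.cons (.leaf 1 [(7,1)]) (.cons (.leaf 1 [(7,2),(10,1),(0,1)]) .nil)))))))) (.cons (.leaf 1 [(1,1),(6,1)]) (.cons (.leaf 1 [(1,1),(6,1)]) (.cons (.leaf 1 [(10,1),(6,1)])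 (.cons (.keep [0,1,7,8,10] (.node (.cons (.leaf 1 [(8,1),(7,1),(3,1)]) (.cons (.leaf 1 [(8,1),(7,2),(10,1),(3,1)]) (.cons (.leaf 1 [(1,1),(3,1)]) (.cons (.leaf 1 [(3,1),(7,1),(10,1)]) (.cons (.leaf 1 [(8,1),(7,1)]) (.cons (.leaf 1 [(8,2),(7,3),(10,1),(0,1)]) .nil)))))))) .nil)))))))) (.cons (.keep [0,1,4,8,9] (.node (.cons (.leaf 1 [(3,1),(7,1),(10,1)]) (.cons (.keep [0,3,6,7,8,10] (.node (.cons (.leaf 1 [(9,1),(3,1)]) (.cons (.leaf 1 [(9,1),(11,1),(3,1)]) (.cons (.leaf 1 [(1,1),(3,1)]) (.cons (.leaf 1 [(3,1),(11,1)]) (.cons (.leaf 1 [(9,1)]) (.cons (.leaf 1 [(9,2),(11,1),(0,1)]) .nil)))))))) (.cons (.leaf 1 [(1,1),(7,1)]) (.cons (.leaf 1 [(1,1),(7,1)]) (.cons (.leaf 1 [(10,1),(7,1)]) (.cons (.keep [0,6,7,8,10] (.node (.cons (.leaf 1 [(8,1),(3,1)]) (.cons (.leaf 1 [(8,2),(9,1),(10,1),(3,1)])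 (.cons (.leaf 1 [(1,1),(3,1)]) (.cons (.leaf 1 [(1,1),(9,1),(10,1),(3,1)]) (.cons (.leaf 1 [(8,1)]) (.cons (.leaf 1 [(8,3),(9,1),(10,1),(0,1)]) .nil)))))))) .nil)))))))) .nil)))))))) (.cons (.keep [1,5,7,8] (.leaf 0 [(0,0)])) (.cons (.keep [1,4,6,7,9] (.node (.cons (.keep [3,5,7,9] (.node (.cons (.leaf 1 [(7,2),(2,1),(9,2)]) (.cons (.keep [0,7,8,9] (.node (.cons (.leaf 1 [(8,2),(3,3)]) (.cons (.leaf 1 [(8,2),(9,3),(3,3)]) (.cons (.leaf 1 [(1,2),(3,1)]) (.cons (.leaf 1 [(1,1),(9,1),(3,1)]) (.cons (.leaf 1 [(8,2)]) (.cons (.keep [0,7,8,9] (.node (.cons (.leaf 2 [(9,1),(3,5)]) (.cons (.leaf 2 [(9,3),(3,3),(8,4)]) (.cons (.leaf 2 [(3,4),(9,1),(7,1)]) (.cons (.leaf 2 [(1,3),(9,1),(3,1),(7,4)]) (.cons (.leaf 1 [(9,1),(6,1)]) (.cons (.keep [0,6,7,8,9] (.node (.cons (.leaf 2 [(10,1),(8,3),(3,4)])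 (.cons (.leaf 1 [(10,1),(9,1),(3,1)]) (.cons (.leaf 1 [(3,2),(8,1)]) (.cons (.leaf 2 [(3,3),(9,1)]) (.cons (.leaf 1 [(10,1),(8,3),(6,1)]) (.cons (.leaf 1 [(10,3),(9,2),(0,3),(8,3)]) .nil)))))))) .nil)))))))) .nil)))))))) (.cons (.leaf 1 [(1,3),(8,2)]) (.cons (.leaf 1 [(1,3),(8,2)]) (.cons (.leaf 1 [(9,1),(7,2),(1,2)]) (.cons (.keep [0,1,7,8,9] (.node (.cons (.leaf 1 [(8,2),(7,2),(3,1)]) (.cons (.leaf 1 [(8,2),(7,3),(10,1),(3,1)]) (.cons (.leaf 1 [(1,2),(3,1)]) (.cons (.leaf 1 [(1,1),(7,1),(10,1),(3,1)]) (.cons (.leaf 1 [(8,2),(7,2)]) (.cons (.leaf 1 [(8,4),(7,5),(10,1),(0,1)]) .nil)))))))) .nil)))))))) (.cons (.keep [4,6,7,9] (.node (.cons (.leaf 1 [(9,2),(3,1),(8,1)]) (.cons (.keep [0,3,6,8,9] (.node (.cons (.leaf 1 [(9,2),(8,1),(3,3)]) (.cons (.leaf 1 [(9,2),(8,1),(10,3),(3,3)])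 (.cons (.leaf 1 [(1,2),(8,1),(3,1)]) (.cons (.leaf 1 [(1,1),(8,1),(10,1),(3,1)]) (.cons (.leaf 1 [(9,2),(8,1)]) (.cons (.keep [0,8,9,10] (.node (.cons (.leaf 2 [(7,2),(9,1),(3,5)]) (.cons (.leaf 2 [(7,2),(9,3),(3,3),(8,4)]) (.cons (.leaf 2 [(3,3),(1,1),(9,1)]) (.cons (.leaf 1 [(8,1),(9,1),(3,1)]) (.cons (.leaf 1 [(7,2),(9,1),(6,1)]) (.cons (.keep [0,6,7,8,9] (.node (.cons (.leaf 3 [(10,2),(9,1),(3,5)]) (.cons (.leaf 1 [(10,1),(9,1),(3,1),(8,1)]) (.cons (.leaf 1 [(3,2)]) (.cons (.leaf 2 [(8,2),(9,1),(3,3)]) (.cons (.leaf 1 [(10,2),(9,1),(6,2)]) (.cons (.leaf 1 [(10,3),(9,2),(8,1),(0,3)]) .nil)))))))) .nil)))))))) .nil)))))))) (.cons (.leaf 1 [(1,3),(8,2),(6,1)]) (.cons (.leaf 1 [(1,3),(8,2),(6,1)]) (.cons (.leaf 1 [(9,2),(8,1),(1,1)]) (.cons (.keep [0,1,7,8,9] (.node (.cons (.leaf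 1 [(9,1),(7,1),(3,2)]) (.cons (.leaf 1 [(9,1),(7,3),(10,2),(3,2)]) (.cons (.leaf 1 [(1,1),(7,1),(3,1)]) (.cons (.leaf 1 [(3,1),(7,2),(10,1)]) (.cons (.leaf 1 [(9,1),(7,1)]) (.cons (.keep [0,6,7,9,10] (.node (.cons (.leaf 2 [(8,3),(10,1),(3,3)]) (.cons (.leaf 1 [(8,2),(10,1),(3,1),(9,1)]) (.cons (.leaf 2 [(3,3),(1,2),(10,1)]) (.cons (.leaf 1 [(1,1),(10,1),(3,1),(9,1)]) (.cons (.leaf 1 [(8,3),(10,1),(6,1)]) (.cons (.leaf 1 [(8,5),(10,2),(9,1),(0,2)]) .nil)))))))) .nil)))))))) .nil)))))))) (.cons (.leaf 1 [(9,3),(1,2),(7,2)]) (.cons (.leaf 1 [(9,3),(1,2),(7,2),(4,1)]) (.cons (.keep [1,5,8,9,10] (.node (.cons (.leaf 1 [(3,1),(6,1),(9,1)]) (.cons (.keep [0,6,7,9,10] (.node (.cons (.leaf 1 [(7,1),(3,1)]) (.cons (.leaf 1 [(7,1),(9,1),(3,1)]) (.cons (.leaf 1 [(1,1),(3,1)]) (.cons (.leaf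 1 [(3,1),(9,1)]) (.cons (.leaf 1 [(7,1)]) (.cons (.leaf 1 [(7,2),(9,1),(0,1)]) .nil)))))))) (.cons (.leaf 1 [(1,1),(6,1)]) (.cons (.leaf 1 [(1,1),(6,1)]) (.cons (.leaf 1 [(9,1),(6,1)]) (.cons (.keep [0,1,7,9,10] (.node (.cons (.leaf 1 [(8,1),(7,1),(3,1)]) (.cons (.leaf 1 [(8,1),(7,2),(9,1),(3,1)]) (.cons (.leaf 1 [(1,1),(3,1)]) (.cons (.leaf 1 [(3,1),(7,1),(9,1)]) (.cons (.leaf 1 [(8,1),(7,1)]) (.cons (.leaf 1 [(8,2),(7,3),(9,1),(0,1)]) .nil)))))))) .nil)))))))) (.cons (.keep [1,4,8,9,10] (.node (.cons (.leaf 1 [(9,1)]) (.cons (.keep [0,6,7,9,10] (.node (.cons (.leaf 1 [(7,1),(8,1),(3,1)]) (.cons (.leaf 1 [(7,1),(8,1),(9,1),(3,1)]) (.cons (.leaf 1 [(3,1),(1,1),(8,1)]) (.cons (.leaf 1 [(3,1),(8,1),(9,1)]) (.cons (.leaf 1 [(7,1),(8,1)]) (.cons (.leaf 1 [(7,2),(8,2),(9,1),(0,1)])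 .nil)))))))) (.cons (.leaf 1 [(1,1),(6,1),(7,1)]) (.cons (.leaf 1 [(1,1),(6,1),(7,1)]) (.cons (.leaf 1 [(9,1),(1,1)]) (.cons (.keep [0,6,7,9,10] (.node (.cons (.leaf 1 [(7,1),(8,1),(3,1)]) (.cons (.leaf 1 [(7,2),(8,2),(9,1),(3,1)]) (.cons (.leaf 1 [(3,1),(1,1),(8,1)]) (.cons (.leaf 1 [(1,1),(8,2),(9,1),(3,1)]) (.cons (.leaf 1 [(7,1),(8,1)]) (.cons (.leaf 1 [(7,3),(8,3),(9,1),(0,1)]) .nil)))))))) .nil)))))))) .nil)))))))) (.cons (.leaf 1 [(1,1)]) (.cons (.leaf 1 [(1,1),(4,1)]) .nil)))))))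

theorem c_11_24_8 : Concl 11 24 z_11_24_8 h_11_24_8 .nd := piece _ (hP_cons c_11_24_6 hP_nil)
  t_11_24_8 _ _ (by decide +kernel)

def t_11_24 : T := (.keep [0,1,2] (.node (.cons (.keep [2,3,5,7] (.node (.cons (.leaf 1 [(8,1),(6,1)]) (.cons (.keep [0,2,6,8] (.node (.cons (.keep [3,5,6,7,9] (.node (.cons (.leaf 1 [(3,1)]) (.cons (.keep [6,7,8,9,10] (.node (.cons (.leaf 1 [(3,1)]) (.cons (.leaf 1 [(3,1)]) (.cons (.leaf 1 [(3,1),(6,1)]) (.cons (.leaf 1 [(3,1),(6,1)]) (.cons (.leaf 1 [(10,1)]) (.cons (.leaf 1 [(0,1),(10,1)]) .nil)))))))) (.cons (.leaf 1 [(3,1)]) (.cons (.leaf 1 [(1,1),(10,1)]) (.cons (.leaf 1 []) (.cons (.keep [1,6,7,8,10] (.node (.cons (.leaf 1 [(6,1),(3,1)]) (.cons (.leaf 1 [(6,1),(3,1)]) (.cons (.leaf 1 [(3,1),(6,1),(7,1)]) (.cons (.leaf 1 [(3,1),(6,1),(7,1)])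 (.cons (.leaf 1 [(10,1)]) (.cons (.leaf 1 [(6,1),(0,1),(10,1)]) .nil)))))))) .nil)))))))) (.cons (.keep [0,3,7,8,9] (.node (.cons (.leaf 1 [(3,1)]) (.cons (.keep [3,4,7,8,9,10] (.node (.cons (.leaf 1 [(3,1)]) (.cons (.leaf 1 [(3,1)]) (.cons (.leaf 1 [(3,1),(8,1)]) (.cons (.leaf 1 [(3,1),(8,1)]) (.cons (.leaf 1 [(11,1)]) (.cons (.leaf 1 [(0,1),(11,1)]) .nil)))))))) (.cons (.leaf 1 [(3,1)]) (.cons (.leaf 1 [(1,1),(10,1)]) (.cons (.leaf 1 []) (.cons (.keep [0,1,6,7,9,10] (.node (.cons (.leaf 1 [(7,1),(3,1)]) (.cons (.leaf 1 [(7,1),(3,1)]) (.cons (.leaf 1 [(3,1),(7,1),(9,1)]) (.cons (.leaf 1 [(3,1),(7,1),(9,1)]) (.cons (.leaf 1 [(11,1)]) (.cons (.leaf 1 [(7,1),(0,1),(11,1)]) .nil)))))))) .nil)))))))) (.cons (.leaf 1 [(1,1)]) (.cons (.leaf 1 [(1,1)]) (.cons (.keep [1,5,6,9] (.node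 (.cons (.leaf 1 [(3,1)]) (.cons (.keep [3,6,8,9] (.node (.cons (.leaf 1 [(3,1)]) (.cons (.leaf 1 [(3,1)]) (.cons (.leaf 1 [(3,1),(9,1)]) (.cons (.leaf 1 [(3,1),(0,1),(9,1)]) (.cons (.leaf 1 [(9,1)]) (.cons (.leaf 1 [(0,1),(9,1)]) .nil)))))))) (.cons (.leaf 1 [(3,1)]) (.cons (.leaf 1 [(1,1),(9,1)]) (.cons (.leaf 1 []) (.cons (.keep [0,1,7,8,9] (.node (.cons (.leaf 1 [(7,1),(3,1)]) (.cons (.leaf 1 [(7,1),(3,1)]) (.cons (.leaf 1 [(3,1),(10,1)]) (.cons (.leaf 1 [(3,1),(7,1),(0,1),(10,1)]) (.cons (.leaf 1 [(10,1)]) (.cons (.leaf 1 [(7,1),(0,1),(10,1)]) .nil)))))))) .nil)))))))) (.cons (.keep [0,1,4,9] (.node (.cons (.leaf 1 [(3,1)]) (.cons (.keep [3,4,7,8,9] (.node (.cons (.leaf 1 [(3,1)]) (.cons (.leaf 1 [(3,1)]) (.cons (.leaf 1 [(3,1),(9,1),(6,1)]) (.cons (.leaf 1 [(3,1),(9,1),(6,1)])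 (.cons (.leaf 1 [(10,1)]) (.cons (.leaf 1 [(0,1),(10,1)]) .nil)))))))) (.cons (.leaf 1 [(3,1)]) (.cons (.leaf 1 [(1,1),(9,1)]) (.cons (.leaf 1 []) (.cons (.keep [0,6,7,8,9] (.node (.cons (.leaf 1 [(8,1),(9,1),(3,1)]) (.cons (.leaf 1 [(8,1),(9,1),(3,1)]) (.cons (.leaf 1 [(3,1),(9,1)]) (.cons (.leaf 1 [(3,1),(9,1)]) (.cons (.leaf 1 [(10,1)]) (.cons (.leaf 1 [(8,1),(9,1),(0,1),(10,1)]) .nil)))))))) .nil)))))))) .nil)))))))) (.cons (.leaf 1 [(1,1),(8,1),(6,1)]) (.cons (.keep [0,1,6,8] (.node (.cons (.keep [3,5,6,8,9] (.node (.cons (.leaf 1 [(3,1)]) (.cons (.keep [6,7,8,9,10] (.node (.cons (.leaf 1 [(3,1)]) (.cons (.leaf 1 [(3,1)]) (.cons (.leaf 1 [(3,1),(6,1)]) (.cons (.leaf 1 [(3,1),(6,1)]) (.cons (.leaf 1 [(10,1)]) (.cons (.leaf 1 [(0,1),(10,1)]) .nil)))))))) (.cons (.leaf 1 [(3,1)])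 (.cons (.leaf 1 [(1,1),(10,1)]) (.cons (.leaf 1 []) (.cons (.keep [1,6,7,8,10] (.node (.cons (.leaf 1 [(6,1),(3,1)]) (.cons (.leaf 1 [(6,1),(3,1)]) (.cons (.leaf 1 [(3,1),(6,1),(7,1)]) (.cons (.leaf 1 [(3,1),(6,1),(7,1)]) (.cons (.leaf 1 [(10,1)]) (.cons (.leaf 1 [(6,1),(0,1),(10,1)]) .nil)))))))) .nil)))))))) (.cons (.keep [4,6,7,8,9] (.node (.cons (.leaf 1 [(3,1)]) (.cons (.keep [3,6,7,9,10] (.node (.cons (.leaf 1 [(3,1)]) (.cons (.leaf 1 [(3,1)]) (.cons (.leaf 1 [(3,1),(7,1),(6,1)]) (.cons (.leaf 1 [(3,1),(7,1),(6,1)]) (.cons (.leaf 1 [(10,1)]) (.cons (.leaf 1 [(0,1),(10,1)]) .nil)))))))) (.cons (.leaf 1 [(3,1)]) (.cons (.leaf 1 [(1,1),(10,1)]) (.cons (.leaf 1 []) (.cons (.keep [0,6,7,9,10] (.node (.cons (.leaf 1 [(9,1),(2,1),(3,1)]) (.cons (.leaf 1 [(9,1),(2,1),(3,1)]) (.cons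 (.leaf 1 [(3,1),(7,1)]) (.cons (.leaf 1 [(3,1),(7,1)]) (.cons (.leaf 1 [(10,1)]) (.cons (.leaf 2 [(9,1),(7,1),(0,2),(10,2)]) .nil)))))))) .nil)))))))) (.cons (.leaf 1 [(1,1)]) (.cons (.leaf 1 [(1,1)]) (.cons (.keep [1,5,6,9] (.node (.cons (.leaf 1 [(3,1)]) (.cons (.keep [3,6,8,9] (.node (.cons (.leaf 1 [(3,1)]) (.cons (.leaf 1 [(3,1)]) (.cons (.leaf 1 [(3,1),(9,1)]) (.cons (.leaf 1 [(3,1),(0,1),(9,1)]) (.cons (.leaf 1 [(9,1)]) (.cons (.leaf 1 [(0,1),(9,1)]) .nil)))))))) (.cons (.leaf 1 [(3,1)]) (.cons (.leaf 1 [(1,1),(9,1)]) (.cons (.leaf 1 []) (.cons (.keep [0,1,7,8,9] (.node (.cons (.leaf 1 [(7,1),(3,1)]) (.cons (.leaf 1 [(7,1),(3,1)]) (.cons (.leaf 1 [(3,1),(10,1)]) (.cons (.leaf 1 [(3,1),(7,1),(0,1),(10,1)]) (.cons (.leaf 1 [(10,1)]) (.cons (.leaf 1 [(7,1),(0,1),(10,1)])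 .nil)))))))) .nil)))))))) (.cons (.keep [4,6,7,8,9] (.node (.cons (.leaf 1 [(3,1)]) (.cons (.keep [3,6,7,8,9,10] (.node (.cons (.leaf 1 [(3,1)]) (.cons (.leaf 1 [(3,1)]) (.cons (.leaf 1 [(3,1),(7,1),(6,1)]) (.cons (.leaf 1 [(3,1),(7,1),(6,1)]) (.cons (.leaf 1 [(11,1)]) (.cons (.leaf 1 [(0,1),(11,1)]) .nil)))))))) (.cons (.leaf 1 [(3,1)]) (.cons (.leaf 1 [(1,1),(10,1)]) (.cons (.leaf 1 []) (.cons (.keep [0,1,6,7,8,10] (.node (.cons (.leaf 1 [(7,1),(3,1)]) (.cons (.leaf 1 [(7,1),(3,1)]) (.cons (.leaf 1 [(3,1),(8,1)]) (.cons (.leaf 1 [(3,1),(8,1)]) (.cons (.leaf 1 [(11,1)]) (.cons (.leaf 1 [(7,1),(0,1),(11,1)]) .nil)))))))) .nil)))))))) .nil)))))))) (.cons (.leaf 1 [(8,1),(1,1)]) (.cons (.leaf 1 [(8,1),(1,1)]) .nil)))))))) (.cons (.keep [0,2,4,7] (.node (.cons (.leaf 1 [(7,1)])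 (.cons (.keep [0,2,7,8] (.node (.cons (.keep [3,5,6,7,9] (.node (.cons (.leaf 1 [(3,1),(10,1)]) (.cons (.keep [0,6,7,8,9,10] (.node (.cons (.leaf 1 [(3,1)]) (.cons (.leaf 1 [(11,1),(3,1)]) (.cons (.leaf 1 [(3,1)]) (.cons (.leaf 1 [(3,1),(11,1),(0,1)]) (.cons (.leaf 1 []) (.cons (.leaf 1 [(11,1),(0,1)]) .nil)))))))) (.cons (.leaf 1 [(1,1)]) (.cons (.leaf 1 [(1,1)]) (.cons (.leaf 1 [(10,1)]) (.cons (.keep [0,1,6,8,9,10] (.node (.cons (.leaf 1 [(3,1)]) (.cons (.leaf 1 [(7,1),(11,1),(3,1)]) (.cons (.leaf 1 [(3,1)]) (.cons (.leaf 1 [(3,1),(7,1),(11,1),(0,1)]) (.cons (.leaf 1 []) (.cons (.leaf 1 [(7,1),(11,1),(0,1)]) .nil)))))))) .nil)))))))) (.cons (.keep [0,3,7,8,9] (.node (.cons (.leaf 1 [(3,1),(10,1)]) (.cons (.keep [0,3,6,7,8,9,10] (.node (.cons (.leaf 1 [(3,1)]) (.cons (.leaf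 1 [(12,1),(3,1)]) (.cons (.leaf 1 [(3,1)]) (.cons (.leaf 1 [(3,1),(12,1),(0,1)]) (.cons (.leaf 1 []) (.cons (.leaf 1 [(12,1),(0,1)]) .nil)))))))) (.cons (.leaf 1 [(1,1)]) (.cons (.leaf 1 [(1,1)]) (.cons (.leaf 1 [(10,1)]) (.cons (.keep [0,1,6,7,9,10] (.node (.cons (.leaf 1 [(3,1)]) (.cons (.leaf 1 [(7,1),(11,1),(3,1)]) (.cons (.leaf 1 [(3,1)]) (.cons (.leaf 1 [(3,1),(7,1),(11,1),(0,1)]) (.cons (.leaf 1 []) (.cons (.leaf 1 [(7,1),(11,1),(0,1)]) .nil)))))))) .nil)))))))) (.cons (.leaf 1 [(1,1),(9,1)]) (.cons (.leaf 1 [(1,1),(9,1)]) (.cons (.keep [1,5,6,9] (.node (.cons (.leaf 1 [(3,1),(9,1)]) (.cons (.keep [0,3,6,8,9] (.node (.cons (.leaf 1 [(3,1)]) (.cons (.leaf 1 [(10,1),(3,1)]) (.cons (.leaf 1 [(3,1)]) (.cons (.leaf 1 [(3,1),(10,1),(0,1)]) (.cons (.leaf 1 []) (.cons (.leaf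 1 [(10,1),(0,1)]) .nil)))))))) (.cons (.leaf 1 [(1,1)]) (.cons (.leaf 1 [(1,1)]) (.cons (.leaf 1 [(9,1)]) (.cons (.keep [0,1,7,8,9] (.node (.cons (.leaf 1 [(3,1)]) (.cons (.leaf 1 [(7,1),(10,1),(3,1)]) (.cons (.leaf 1 [(3,1)]) (.cons (.leaf 1 [(3,1),(7,1),(10,1),(0,1)]) (.cons (.leaf 1 []) (.cons (.leaf 1 [(7,1),(10,1),(0,1)]) .nil)))))))) .nil)))))))) (.cons (.keep [0,1,4,9] (.node (.cons (.leaf 1 [(3,1),(9,1)]) (.cons (.keep [0,3,6,7,8,9] (.node (.cons (.leaf 1 [(3,1)]) (.cons (.leaf 1 [(11,1),(3,1)]) (.cons (.leaf 1 [(3,1)]) (.cons (.leaf 1 [(3,1),(11,1),(0,1)]) (.cons (.leaf 1 []) (.cons (.leaf 1 [(11,1),(0,1)]) .nil)))))))) (.cons (.leaf 1 [(1,1)]) (.cons (.leaf 1 [(1,1)]) (.cons (.leaf 1 [(9,1)]) (.cons (.keep [0,6,7,8,9] (.node (.cons (.leaf 1 [(3,1)]) (.cons (.leaf 1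 [(8,1),(9,1),(10,1),(3,1)]) (.cons (.leaf 1 [(3,1)]) (.cons (.leaf 1 [(3,1),(9,1),(10,1)]) (.cons (.leaf 1 []) (.cons (.leaf 1 [(8,1),(9,1),(10,1),(0,1)]) .nil)))))))) .nil)))))))) .nil)))))))) (.cons (.leaf 1 [(1,1),(7,1)]) (.cons (.keep [0,1,7,8] (.node (.cons (.keep [3,5,6,8,9] (.node (.cons (.leaf 1 [(3,1),(10,1)]) (.cons (.keep [0,6,7,8,9,10] (.node (.cons (.leaf 1 [(3,1)]) (.cons (.leaf 1 [(11,1),(3,1)]) (.cons (.leaf 1 [(3,1)]) (.cons (.leaf 1 [(3,1),(11,1),(0,1)]) (.cons (.leaf 1 []) (.cons (.leaf 1 [(11,1),(0,1)]) .nil)))))))) (.cons (.leaf 1 [(1,1)]) (.cons (.leaf 1 [(1,1)]) (.cons (.leaf 1 [(10,1)]) (.cons (.keep [0,1,6,8,9,10] (.node (.cons (.leaf 1 [(3,1)]) (.cons (.leaf 1 [(7,1),(11,1),(3,1)]) (.cons (.leaf 1 [(3,1)]) (.cons (.leaf 1 [(3,1),(7,1),(11,1),(0,1)])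 (.cons (.leaf 1 []) (.cons (.leaf 1 [(7,1),(11,1),(0,1)]) .nil)))))))) .nil)))))))) (.cons (.keep [4,6,7,8,9] (.node (.cons (.leaf 1 [(3,1),(10,1)]) (.cons (.keep [0,3,6,7,9,10] (.node (.cons (.leaf 1 [(3,1)]) (.cons (.leaf 1 [(11,1),(3,1)]) (.cons (.leaf 1 [(3,1)]) (.cons (.leaf 1 [(3,1),(11,1),(0,1)]) (.cons (.leaf 1 []) (.cons (.leaf 1 [(11,1),(0,1)]) .nil)))))))) (.cons (.leaf 1 [(1,1)]) (.cons (.leaf 1 [(1,1)]) (.cons (.leaf 1 [(10,1)]) (.cons (.keep [0,6,7,9,10] (.node (.cons (.leaf 1 [(3,1)]) (.cons (.leaf 1 [(9,1),(2,1),(10,1),(3,1)]) (.cons (.leaf 1 [(3,1)]) (.cons (.leaf 1 [(3,1),(7,1),(10,1)]) (.cons (.leaf 1 []) (.cons (.leaf 1 [(9,1),(2,1),(10,1),(0,2)]) .nil)))))))) .nil)))))))) (.cons (.leaf 1 [(1,1),(9,1)]) (.cons (.leaf 1 [(1,1),(9,1)]) (.cons (.keep [1,5,6,9]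 (.node (.cons (.leaf 1 [(3,1),(9,1)]) (.cons (.keep [0,3,6,8,9] (.node (.cons (.leaf 1 [(3,1)]) (.cons (.leaf 1 [(10,1),(3,1)]) (.cons (.leaf 1 [(3,1)]) (.cons (.leaf 1 [(3,1),(10,1),(0,1)]) (.cons (.leaf 1 []) (.cons (.leaf 1 [(10,1),(0,1)]) .nil)))))))) (.cons (.leaf 1 [(1,1)]) (.cons (.leaf 1 [(1,1)]) (.cons (.leaf 1 [(9,1)]) (.cons (.keep [0,1,7,8,9] (.node (.cons (.leaf 1 [(3,1)]) (.cons (.leaf 1 [(7,1),(10,1),(3,1)]) (.cons (.leaf 1 [(3,1)]) (.cons (.leaf 1 [(3,1),(7,1),(10,1),(0,1)]) (.cons (.leaf 1 []) (.cons (.leaf 1 [(7,1),(10,1),(0,1)]) .nil)))))))) .nil)))))))) (.cons (.keep [4,6,7,8,9] (.node (.cons (.leaf 1 [(3,1),(10,1)]) (.cons (.keep [0,3,6,7,8,9,10] (.node (.cons (.leaf 1 [(3,1)]) (.cons (.leaf 1 [(12,1),(3,1)]) (.cons (.leaf 1 [(3,1)]) (.cons (.leaf 1 [(3,1),(12,1),(0,1)])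 (.cons (.leaf 1 []) (.cons (.leaf 1 [(12,1),(0,1)]) .nil)))))))) (.cons (.leaf 1 [(1,1)]) (.cons (.leaf 1 [(1,1)]) (.cons (.leaf 1 [(10,1)]) (.cons (.keep [0,1,6,7,8,10] (.node (.cons (.leaf 1 [(3,1)]) (.cons (.leaf 1 [(7,1),(11,1),(3,1)]) (.cons (.leaf 1 [(3,1)]) (.cons (.leaf 1 [(3,1),(7,1),(11,1),(0,1)]) (.cons (.leaf 1 []) (.cons (.leaf 1 [(7,1),(11,1),(0,1)]) .nil)))))))) .nil)))))))) .nil)))))))) (.cons (.leaf 1 [(1,1)]) (.cons (.leaf 1 [(1,1)]) .nil)))))))) (.cons (.keep [1,5,6,7] (.leaf 0 [(0,0)])) (.cons (.keep [1,4,6,7] (.leaf 0 [(1,0)])) (.cons (.leaf 1 []) (.cons (.leaf 1 [(4,1)]) .nil))))))))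

theorem e_11_24 : ESB (caseOf 4 11 24) := esb_of_pieces _ (hP_cons c_11_24_7 (hP_cons c_11_24_8
  hP_nil)) t_11_24 (by decide +kernel)

def ks : List (ℕ × ℕ) := [(11, 24)]

theorem ks_ok : ∀ p ∈ ks, ESB (caseOf 4 p.1 p.2) := ks_cons e_11_24 <| ks_nil

end Pool.Agent.H4.RD4.E32
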