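import Pool.Agent.H4.RD4.E33

/-! # Certificates for special cases of order four -/

set_option maxRecDepth 20000

namespace Pool.Agent.H4.RD4.E34

open Pool.Agent.H50.Rdb
open Pool.Agent.H81.RDE (ESB caseOf)

def z_12_24_2 : F := ⟨1, -1, 0, 0, 1⟩

def h_12_24_2 : List F := [⟨0, -1, 1, 0, 0⟩, ⟨0, 0, 1, -1, 0⟩, ⟨1, -1, 0, 0, 0⟩, ⟨0, 1, -1, 0, 0⟩,
  ⟨0, -1, 0, 0, 1⟩]

def t_12_24_2 : T := (.node (.cons (.keep [2,4,5,8,9] (.leaf 0 [(0,0)])) (.cons (.keep [2,3,5,7,8,9] (.node (.cons (.keep [2,4,5,6,7,9] (.node (.cons (.keep [4,5,7,8,9,10] (.node (.cons (.leaf 1 [(10,1),(8,1),(2,1)]) (.cons (.keep [2,6,7,8,9,10] (.node (.cons (.leaf 1 [(2,1),(10,1)]) (.cons (.leaf 1 [(8,1),(5,1),(2,1),(10,1)]) (.cons (.leaf 1 [(10,1)]) (.cons (.keep [5,6,7,8,9,10] (.node (.cons (.leaf 1 [(2,1),(6,1)]) (.cons (.leaf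 1 [(10,1),(2,1)]) (.cons (.leaf 1 [(6,1)]) (.cons (.leaf 1 [(10,2),(8,1),(0,1)]) .nil)))))) .nil)))))) (.cons (.leaf 1 [(10,1),(8,1)]) (.cons (.keep [1,5,6,7,8,9,10] (.node (.cons (.leaf 1 [(2,1),(11,1)]) (.cons (.leaf 1 [(9,1),(2,1),(11,1)]) (.cons (.leaf 1 [(11,1)]) (.cons (.keep [5,6,7,8,9,10,11] (.node (.cons (.leaf 1 [(2,1),(7,1)]) (.cons (.leaf 1 [(2,1),(11,1)]) (.cons (.leaf 1 [(7,1)]) (.cons (.leaf 1 [(9,1),(5,1),(11,2),(0,1)]) .nil)))))) .nil)))))) .nil)))))) (.cons (.keep [3,5,7,8,9,10] (.node (.cons (.leaf 1 [(10,1),(2,1),(8,1)]) (.cons (.keep [2,5,6,7,8,9,10] (.node (.cons (.leaf 1 [(2,1),(11,1)]) (.cons (.leaf 1 [(5,1),(2,1),(11,1),(9,1)]) (.cons (.leaf 1 [(11,1)]) (.cons (.keep [5,6,7,8,9,10,11] (.node (.cons (.leaf 1 [(2,1),(7,1),(6,1)]) (.cons (.leaf 1 [(11,1),(2,1)]) (.cons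 (.leaf 1 [(6,1),(7,1)]) (.cons (.leaf 1 [(9,1),(11,2),(0,1)]) .nil)))))) .nil)))))) (.cons (.leaf 1 [(10,1),(8,1)]) (.cons (.keep [1,6,7,8,9,10] (.node (.cons (.leaf 1 [(2,1),(10,1)]) (.cons (.leaf 1 [(2,1),(10,1),(8,1)]) (.cons (.leaf 1 [(10,1)]) (.cons (.keep [5,6,7,8,9,10] (.node (.cons (.leaf 1 [(2,1),(6,1),(5,1)]) (.cons (.leaf 1 [(2,1),(10,1)]) (.cons (.leaf 1 [(5,1),(6,1)]) (.cons (.leaf 1 [(8,1),(0,1),(10,2),(5,1)]) .nil)))))) .nil)))))) .nil)))))) (.cons (.keep [1,4,5,6,7,8] (.node (.cons (.leaf 1 [(2,1)]) (.cons (.keep [2,5,7,8,9,10] (.node (.cons (.leaf 1 [(5,1),(2,1)]) (.cons (.leaf 1 [(5,1),(2,1)]) (.cons (.leaf 1 [(7,1)]) (.cons (.keep [0,5,6,7,9,10] (.node (.cons (.leaf 1 [(2,1),(8,1)]) (.cons (.leaf 1 [(2,1),(8,1)]) (.cons (.leaf 1 [(5,1),(8,1)]) (.cons (.leaf 1 [(8,1),(0,1)])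 .nil)))))) .nil)))))) (.cons (.leaf 1 []) (.cons (.keep [1,3,5,6,7,8,10] (.node (.cons (.leaf 1 [(2,1)]) (.cons (.leaf 1 [(2,1)]) (.cons (.leaf 1 [(9,1)]) (.cons (.keep [3,5,7,8,9,10,11] (.node (.cons (.leaf 1 [(2,1),(9,1)]) (.cons (.leaf 1 [(2,1),(9,1)]) (.cons (.leaf 1 [(10,1),(9,1)]) (.cons (.leaf 1 [(0,1),(9,1),(6,1)]) .nil)))))) .nil)))))) .nil)))))) (.cons (.keep [1,5,6,7,8,9,10] (.node (.cons (.leaf 1 []) (.cons (.keep [3,5,6,7,9,10,11] (.node (.cons (.leaf 1 [(2,1)]) (.cons (.leaf 1 [(2,1)]) (.cons (.leaf 1 [(11,1)]) (.cons (.keep [3,6,7,8,9,10,11] (.node (.cons (.leaf 1 [(2,1),(11,1)]) (.cons (.leaf 1 [(11,1),(2,1)]) (.cons (.leaf 1 [(8,1),(11,1)]) (.cons (.leaf 1 [(9,1),(0,1),(11,2)]) .nil)))))) .nil)))))) (.cons (.leaf 1 [(1,1)]) (.cons (.keep [5,6,7,8,9,10,11] (.node (.cons (.leaf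 1 [(11,1),(2,1)]) (.cons (.leaf 1 [(9,1),(2,1),(11,1)]) (.cons (.leaf 1 [(11,1)]) (.cons (.keep [5,6,7,8,9,10,11] (.node (.cons (.leaf 1 [(2,1),(11,1)]) (.cons (.leaf 1 [(2,1),(11,1)]) (.cons (.leaf 1 [(7,1),(11,1)]) (.cons (.leaf 1 [(0,1),(9,2),(11,3)]) .nil)))))) .nil)))))) .nil)))))) .nil)))))) (.cons (.keep [2,5,6,7,9,10] (.node (.cons (.keep [2,4,5,6,10] (.node (.cons (.leaf 1 [(2,1)]) (.cons (.keep [2,5,7,8,9] (.node (.cons (.leaf 1 [(5,1),(2,1)]) (.cons (.leaf 1 [(5,1),(2,1)]) (.cons (.leaf 1 [(7,1)]) (.cons (.keep [0,5,7,8,9] (.node (.cons (.leaf 1 [(2,1),(7,1)]) (.cons (.leaf 1 [(7,1),(2,1)]) (.cons (.leaf 1 [(5,1),(7,1)]) (.cons (.leaf 1 [(7,1),(0,1)]) .nil)))))) .nil)))))) (.cons (.leaf 1 []) (.cons (.keep [1,5,6,7,8,9] (.node (.cons (.leaf 1 [(2,1)]) (.cons (.leaf 1 [(2,1)])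 (.cons (.leaf 1 [(8,1)]) (.cons (.keep [5,6,7,8,9,10] (.node (.cons (.leaf 1 [(2,1),(8,1)]) (.cons (.leaf 1 [(2,1),(8,1)]) (.cons (.leaf 1 [(6,1),(8,1)]) (.cons (.leaf 1 [(0,1),(8,1),(5,1)]) .nil)))))) .nil)))))) .nil)))))) (.cons (.keep [2,5,6,8,9,10] (.node (.cons (.leaf 1 []) (.cons (.keep [5,6,7,8,9,10] (.node (.cons (.leaf 1 [(2,1)]) (.cons (.leaf 1 [(2,1)]) (.cons (.leaf 1 [(9,1)]) (.cons (.keep [5,6,7,8,9,10] (.node (.cons (.leaf 1 [(2,1),(9,1)]) (.cons (.leaf 1 [(2,1),(9,1)]) (.cons (.leaf 1 [(5,1),(9,1)]) (.cons (.leaf 1 [(10,1),(5,1),(0,1),(9,2)]) .nil)))))) .nil)))))) (.cons (.leaf 1 [(1,1)]) (.cons (.keep [5,6,7,8,9,10] (.node (.cons (.leaf 1 [(9,1),(2,1)]) (.cons (.leaf 1 [(5,1),(10,1),(2,1),(9,1)]) (.cons (.leaf 1 [(9,1)]) (.cons (.keep [5,6,7,8,9,10] (.node (.cons (.leaf 1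 [(2,1),(9,1)]) (.cons (.leaf 1 [(2,1),(9,1)]) (.cons (.leaf 1 [(5,1),(9,1)]) (.cons (.leaf 1 [(10,2),(0,1),(5,2),(9,3)]) .nil)))))) .nil)))))) .nil)))))) (.cons (.keep [4,5,6,7,8,9] (.node (.cons (.leaf 1 [(8,1),(2,1),(10,1)]) (.cons (.keep [2,6,7,8,9,10] (.node (.cons (.leaf 1 [(2,1),(10,1)]) (.cons (.leaf 1 [(5,1),(2,1),(10,1),(8,1)]) (.cons (.leaf 1 [(10,1)]) (.cons (.keep [5,6,7,8,9,10] (.node (.cons (.leaf 1 [(2,1),(6,1)]) (.cons (.leaf 1 [(2,1),(6,1),(3,1)]) (.cons (.leaf 1 [(8,1),(10,2)]) (.cons (.leaf 1 [(8,1),(0,1),(10,2)]) .nil)))))) .nil)))))) (.cons (.leaf 1 [(8,1),(10,1)]) (.cons (.keep [1,3,5,6,8,9,10] (.node (.cons (.leaf 1 [(11,1),(2,1)]) (.cons (.leaf 1 [(11,1),(9,1),(2,1)]) (.cons (.leaf 1 [(11,1)]) (.cons (.keep [0,3,5,8,9,10,11] (.node (.cons (.leaf 1 [(2,1),(8,1)]) (.cons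 (.leaf 1 [(8,1),(2,1),(3,1)]) (.cons (.leaf 1 [(11,2),(9,1)]) (.cons (.leaf 1 [(0,1),(9,1),(11,2),(7,1)]) .nil)))))) .nil)))))) .nil)))))) (.cons (.keep [5,6,7,8,9,10] (.node (.cons (.leaf 1 [(2,1),(9,1),(7,1)]) (.cons (.keep [2,3,5,7,9,10] (.node (.cons (.leaf 1 [(9,1),(2,1)]) (.cons (.leaf 1 [(9,1),(8,1),(2,2),(0,1)]) (.cons (.leaf 1 [(9,1)]) (.cons (.keep [0,3,7,8,9,10] (.node (.cons (.leaf 1 [(2,1),(9,1)]) (.cons (.leaf 1 [(2,1),(9,1)]) (.cons (.leaf 1 [(9,2),(8,1),(5,1)]) (.cons (.leaf 1 [(0,1),(8,1),(9,2)]) .nil)))))) .nil)))))) (.cons (.leaf 1 [(7,1),(9,1)]) (.cons (.keep [0,5,7,8,9,10] (.node (.cons (.leaf 1 [(9,1),(2,1)]) (.cons (.leaf 1 [(9,1),(2,1),(7,1)]) (.cons (.leaf 1 [(9,1)]) (.cons (.keep [0,5,6,7,9,10] (.node (.cons (.leaf 1 [(2,1),(9,1)]) (.cons (.leaf 1 [(2,1),(9,1)])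 (.cons (.leaf 2 [(9,4),(8,2),(5,1)]) (.cons (.leaf 1 [(10,1),(8,1),(0,1),(9,3)]) .nil)))))) .nil)))))) .nil)))))) .nil)))))) (.cons (.keep [1,4,7,8,9] (.node (.cons (.keep [2,4,5,8,9] (.node (.cons (.leaf 1 [(7,1),(2,1),(9,1)]) (.cons (.keep [0,2,5,7,9] (.node (.cons (.leaf 1 [(2,1),(9,1)]) (.cons (.leaf 1 [(6,1),(2,1),(8,1),(9,1)]) (.cons (.leaf 1 [(9,1)]) (.cons (.keep [0,5,6,8,9] (.node (.cons (.leaf 1 [(2,1)]) (.cons (.leaf 1 [(2,1),(9,1)]) (.cons (.leaf 1 []) (.cons (.leaf 1 [(8,1),(9,2),(0,1)]) .nil)))))) .nil)))))) (.cons (.leaf 1 [(7,1),(9,1)]) (.cons (.keep [0,1,5,6,7,9] (.node (.cons (.leaf 1 [(2,1),(10,1)]) (.cons (.leaf 1 [(2,1),(9,1),(10,1)]) (.cons (.leaf 1 [(10,1)]) (.cons (.keep [0,5,6,9,10] (.node (.cons (.leaf 1 [(2,1)]) (.cons (.leaf 1 [(2,1),(9,1)]) (.cons (.leaf 1 [])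 (.cons (.leaf 1 [(7,1),(8,1),(9,2),(0,1)]) .nil)))))) .nil)))))) .nil)))))) (.cons (.keep [0,3,5,7,9] (.node (.cons (.leaf 1 [(7,1),(2,1),(9,1)]) (.cons (.keep [0,2,6,7,8,9] (.node (.cons (.leaf 1 [(2,1),(10,1)]) (.cons (.leaf 1 [(6,1),(2,1),(8,1),(10,1)]) (.cons (.leaf 1 [(10,1)]) (.cons (.keep [0,5,6,8,10] (.node (.cons (.leaf 1 [(2,1),(9,1)]) (.cons (.leaf 1 [(2,1),(9,1)]) (.cons (.leaf 1 [(5,1),(8,1),(9,2)]) (.cons (.leaf 1 [(0,1),(8,1),(9,2)]) .nil)))))) .nil)))))) (.cons (.leaf 1 [(7,1),(9,1)]) (.cons (.keep [0,1,7,8,9] (.node (.cons (.leaf 1 [(2,1),(9,1)]) (.cons (.leaf 1 [(2,1),(7,1),(9,1)]) (.cons (.leaf 1 [(9,1)]) (.cons (.keep [0,5,6,7,9] (.node (.cons (.leaf 1 [(2,1),(7,1)]) (.cons (.leaf 1 [(2,1),(9,1)]) (.cons (.leaf 1 [(7,1)]) (.cons (.leaf 1 [(0,1),(8,1),(9,2),(7,1)]) .nil))))))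 .nil)))))) .nil)))))) (.cons (.keep [1,4,5,6,8] (.node (.cons (.leaf 1 [(2,1),(7,1)]) (.cons (.keep [0,2,5,7,8] (.node (.cons (.leaf 1 [(2,1)]) (.cons (.leaf 1 [(6,1),(2,1),(8,1)]) (.cons (.leaf 1 []) (.cons (.keep [0,5,6,7,8] (.node (.cons (.leaf 1 [(2,1)]) (.cons (.leaf 1 [(2,1)]) (.cons (.leaf 1 [(9,1),(5,1)]) (.cons (.leaf 1 [(0,1),(9,1)]) .nil)))))) .nil)))))) (.cons (.leaf 1 [(7,1)]) (.cons (.keep [0,1,5,6,7,8] (.node (.cons (.leaf 1 [(2,1)]) (.cons (.leaf 1 [(2,1),(9,1)]) (.cons (.leaf 1 []) (.cons (.keep [0,5,6,7,9] (.node (.cons (.leaf 1 [(2,1)]) (.cons (.leaf 1 [(2,1)]) (.cons (.leaf 1 [(7,1),(9,1),(5,1)]) (.cons (.leaf 1 [(0,1),(9,1),(7,1)]) .nil)))))) .nil)))))) .nil)))))) (.cons (.keep [1,3,5,6,7,8] (.node (.cons (.leaf 1 [(7,1)]) (.cons (.keep [0,2,5,6,7,8] (.node (.cons (.leaf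 1 [(8,1),(2,1)]) (.cons (.leaf 1 [(2,1),(9,1)]) (.cons (.leaf 1 [(8,1)]) (.cons (.keep [0,5,7,8,9] (.node (.cons (.leaf 1 [(2,1),(8,1)]) (.cons (.leaf 1 [(2,1),(8,1)]) (.cons (.leaf 1 [(8,2),(9,1),(5,1)]) (.cons (.leaf 1 [(0,1),(9,1),(8,2)]) .nil)))))) .nil)))))) (.cons (.leaf 1 [(7,1),(1,1)]) (.cons (.keep [0,1,5,7,8,9] (.node (.cons (.leaf 1 [(6,1),(2,1)]) (.cons (.leaf 1 [(6,1),(2,1),(8,1)]) (.cons (.leaf 1 [(6,1)]) (.cons (.keep [0,5,6,7,8] (.node (.cons (.leaf 1 [(2,1),(7,1)]) (.cons (.leaf 1 [(2,1),(7,1)]) (.cons (.leaf 1 [(7,3),(9,1),(5,1)]) (.cons (.leaf 1 [(0,1),(9,1),(7,3)]) .nil)))))) .nil)))))) .nil)))))) .nil)))))) (.cons (.keep [0,1,3,5,7,9] (.node (.cons (.keep [2,4,5,6,7] (.node (.cons (.leaf 1 [(2,1),(8,1)]) (.cons (.keep [0,2,5,8,9] (.node (.cons (.leaf 1 [(2,1)]) (.cons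 (.leaf 1 [(2,1),(8,1),(6,1)]) (.cons (.leaf 1 []) (.cons (.keep [0,5,6,8,9] (.node (.cons (.leaf 1 [(2,1)]) (.cons (.leaf 1 [(2,1)]) (.cons (.leaf 1 [(8,1),(5,1)]) (.cons (.leaf 1 [(0,1),(8,1)]) .nil)))))) .nil)))))) (.cons (.leaf 1 [(8,1)]) (.cons (.keep [0,1,5,6,8,9] (.node (.cons (.leaf 1 [(2,1)]) (.cons (.leaf 1 [(2,1),(9,1)]) (.cons (.leaf 1 []) (.cons (.keep [0,5,6,9,10] (.node (.cons (.leaf 1 [(2,1)]) (.cons (.leaf 1 [(2,1)]) (.cons (.leaf 1 [(7,1),(8,1),(5,1)]) (.cons (.leaf 1 [(0,1),(8,1),(7,1)]) .nil)))))) .nil)))))) .nil)))))) (.cons (.keep [2,3,5,6,7,9] (.node (.cons (.leaf 1 [(8,1)]) (.cons (.keep [0,2,5,6,8,9] (.node (.cons (.leaf 1 [(8,1),(2,1)]) (.cons (.leaf 1 [(2,1),(9,1)]) (.cons (.leaf 1 [(8,1)]) (.cons (.keep [0,5,8,9,10] (.node (.cons (.leaf 1 [(2,1),(7,1)]) (.cons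 (.leaf 1 [(2,1),(7,1)]) (.cons (.leaf 1 [(7,2),(8,1),(5,1)]) (.cons (.leaf 1 [(0,1),(8,1),(7,2)]) .nil)))))) .nil)))))) (.cons (.leaf 1 [(8,1),(1,1)]) (.cons (.keep [0,1,5,8,9,10] (.node (.cons (.leaf 1 [(6,1),(2,1)]) (.cons (.leaf 1 [(6,1),(8,1),(2,1)]) (.cons (.leaf 1 [(6,1)]) (.cons (.keep [0,5,6,8,9] (.node (.cons (.leaf 1 [(2,1),(7,1)]) (.cons (.leaf 1 [(2,1),(7,1)]) (.cons (.leaf 1 [(7,3),(8,1),(5,1)]) (.cons (.leaf 1 [(0,1),(8,1),(7,3)]) .nil)))))) .nil)))))) .nil)))))) (.cons (.keep [1,4,5,6,10] (.node (.cons (.leaf 1 [(2,1),(9,1),(8,1)]) (.cons (.keep [0,2,5,8,9] (.node (.cons (.leaf 1 [(9,1),(2,1)]) (.cons (.leaf 1 [(2,1),(6,1),(8,1),(9,1)]) (.cons (.leaf 1 [(9,1)]) (.cons (.keep [0,5,6,7,8,9] (.node (.cons (.leaf 1 [(2,1)]) (.cons (.leaf 1 [(2,1),(3,1)]) (.cons (.leaf 1 [(10,2)])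 (.cons (.leaf 1 [(0,1),(10,2),(9,1)]) .nil)))))) .nil)))))) (.cons (.leaf 1 [(8,1),(9,1)]) (.cons (.keep [0,1,5,6,8,9] (.node (.cons (.leaf 1 [(10,1),(2,1)]) (.cons (.leaf 1 [(10,1),(2,1),(9,1)]) (.cons (.leaf 1 [(10,1)]) (.cons (.keep [0,5,6,7,9,10] (.node (.cons (.leaf 1 [(2,1)]) (.cons (.leaf 1 [(2,1),(3,1)]) (.cons (.leaf 1 [(10,2)]) (.cons (.leaf 1 [(7,1),(0,1),(10,2),(9,1)]) .nil)))))) .nil)))))) .nil)))))) (.cons (.keep [0,3,6,9,10] (.node (.cons (.leaf 1 [(2,1),(9,1),(7,1)]) (.cons (.keep [0,2,6,7,8,9] (.node (.cons (.leaf 1 [(10,1),(2,1)]) (.cons (.leaf 1 [(10,1),(2,2),(8,2),(0,1)]) (.cons (.leaf 1 [(10,1)]) (.cons (.keep [0,5,7,8,9,10] (.node (.cons (.leaf 1 [(2,1),(7,1)]) (.cons (.leaf 1 [(7,1),(2,1),(3,1)]) (.cons (.leaf 1 [(10,2),(8,1),(5,1)]) (.cons (.leaf 1 [(10,2),(0,1),(8,1)])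 .nil)))))) .nil)))))) (.cons (.leaf 1 [(7,1),(9,1)]) (.cons (.keep [0,1,7,8,9] (.node (.cons (.leaf 1 [(9,1),(2,1)]) (.cons (.leaf 1 [(9,1),(2,1),(7,1)]) (.cons (.leaf 1 [(9,1)]) (.cons (.keep [0,5,6,7,8,9] (.node (.cons (.leaf 1 [(2,1),(7,1)]) (.cons (.leaf 1 [(7,1),(2,1),(3,1)]) (.cons (.leaf 2 [(10,4),(8,1),(5,1)]) (.cons (.leaf 1 [(7,1),(0,1),(10,2),(8,1)]) .nil)))))) .nil)))))) .nil)))))) .nil)))))) .nil)))))) (.cons (.keep [1,4,5,6,7,8] (.node (.cons (.leaf 1 [(2,1)]) (.cons (.keep [2,5,7,8,9,10] (.node (.cons (.leaf 1 [(5,1),(2,1)]) (.cons (.leaf 1 [(5,1),(2,1)]) (.cons (.leaf 1 [(10,1)]) (.cons (.keep [0,5,6,7,9,10] (.node (.cons (.leaf 1 [(2,1),(10,1)]) (.cons (.leaf 1 [(2,1),(10,1)]) (.cons (.leaf 1 [(5,1),(10,1)]) (.cons (.leaf 1 [(10,1),(0,1)]) .nil)))))) .nil)))))) (.cons (.leaf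 1 []) (.cons (.keep [1,3,5,6,7,8,10] (.node (.cons (.leaf 1 [(2,1)]) (.cons (.leaf 1 [(2,1)]) (.cons (.leaf 1 [(11,1)]) (.cons (.keep [3,5,7,8,9,10,11] (.node (.cons (.leaf 1 [(2,1),(11,1)]) (.cons (.leaf 1 [(2,1),(11,1)]) (.cons (.leaf 1 [(10,1),(11,1)]) (.cons (.leaf 1 [(0,1),(11,1),(6,1)]) .nil)))))) .nil)))))) .nil)))))) (.cons (.keep [1,3,5,6,7,8] (.node (.cons (.leaf 1 []) (.cons (.keep [2,3,5,6,7,8,10] (.node (.cons (.leaf 1 [(2,1)]) (.cons (.leaf 1 [(2,1)]) (.cons (.leaf 1 [(11,1),(8,1)]) (.cons (.keep [3,5,7,8,9,10,11] (.node (.cons (.leaf 1 [(2,1),(11,1),(8,1)]) (.cons (.leaf 1 [(2,1),(11,1),(8,1)]) (.cons (.leaf 1 [(8,1),(10,1),(11,1)]) (.cons (.leaf 1 [(0,1),(11,1),(8,2)]) .nil)))))) .nil)))))) (.cons (.leaf 1 [(1,1)]) (.cons (.keep [0,1,5,7,8,10] (.node (.cons (.leaf 1 [(6,1),(2,1)])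 (.cons (.leaf 1 [(6,1),(2,1)]) (.cons (.leaf 1 [(6,1),(10,1)]) (.cons (.keep [0,5,6,7,8,10] (.node (.cons (.leaf 1 [(2,1),(10,1),(7,1)]) (.cons (.leaf 1 [(2,1),(10,1),(7,1)]) (.cons (.leaf 1 [(7,3),(5,1),(10,1)]) (.cons (.leaf 1 [(0,1),(7,3),(10,1)]) .nil)))))) .nil)))))) .nil)))))) .nil)))))

theorem c_12_24_2 : Concl 12 24 z_12_24_2 h_12_24_2 .nd := piece _ (hP_cons E33.c_12_24_1 hP_nil)
  t_12_24_2 _ _ (by decide +kernel)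

def z_12_24_3 : F := ⟨1, -1, 0, 0, 1⟩

def h_12_24_3 : List F := [⟨0, 1, -1, 0, 0⟩, ⟨0, 0, 1, -1, 0⟩, ⟨1, -2, 1, 0, 2⟩, ⟨0, -1, 0, 0, 1⟩]

def t_12_24_3 : T := (.node (.cons (.keep [2,4,5,7,8] (.leaf 0 [(0,0)])) (.cons (.keep [2,3,5,7,8] (.node (.cons (.keep [2,4,6,7,8] (.node (.cons (.keep [2,4,7,8,9] (.node (.cons (.leaf 1 [(8,1),(7,1),(2,1)]) (.cons (.keep [2,5,7,8,9] (.node (.cons (.leaf 1 [(2,1),(8,1)]) (.cons (.leaf 1 [(7,1),(5,1),(2,1),(8,1)]) (.cons (.leaf 1 [(8,1)]) (.cons (.keep [0,5,7,8,9] (.node (.cons (.leaf 1 [(2,1),(8,1)]) (.cons (.leaf 1 [(2,1),(8,1)]) (.cons (.leaf 2 [(5,1),(8,2)]) (.cons (.leaf 1 [(8,2),(7,1),(0,1)]) .nil)))))) .nil)))))) (.cons (.leaf 1 [(8,1),(7,1)]) (.cons (.keep [1,5,6,7,8,9] (.node (.cons (.leaf 1 [(2,1),(9,1)]) (.cons (.leaf 1 [(8,1),(2,1),(9,1)])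 (.cons (.leaf 1 [(9,1)]) (.cons (.keep [5,6,7,8,9,10] (.node (.cons (.leaf 1 [(2,1),(9,1)]) (.cons (.leaf 1 [(2,1),(9,1)]) (.cons (.leaf 1 [(6,1),(9,1)]) (.cons (.leaf 1 [(5,1),(9,2),(8,1),(0,1)]) .nil)))))) .nil)))))) .nil)))))) (.cons (.keep [2,5,7,8,9] (.node (.cons (.leaf 1 [(8,1),(2,1),(7,1)]) (.cons (.keep [2,5,7,8,9] (.node (.cons (.leaf 1 [(2,1),(8,1)]) (.cons (.leaf 1 [(5,1),(2,1),(8,1),(7,1)]) (.cons (.leaf 1 [(8,1)]) (.cons (.keep [5,6,7,8,9] (.node (.cons (.leaf 1 [(2,1),(8,1)]) (.cons (.leaf 1 [(2,1),(8,1)]) (.cons (.leaf 1 [(6,1),(8,1)]) (.cons (.leaf 1 [(7,1),(8,2),(0,1)]) .nil)))))) .nil)))))) (.cons (.leaf 1 [(8,1),(7,1)]) (.cons (.keep [5,6,7,8,9] (.node (.cons (.leaf 1 [(2,1),(8,1)]) (.cons (.leaf 1 [(2,1),(8,1),(7,1)]) (.cons (.leaf 1 [(8,1)]) (.cons (.keep [0,5,7,8,9]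 (.node (.cons (.leaf 1 [(2,1),(8,1)]) (.cons (.leaf 1 [(2,1),(8,1)]) (.cons (.leaf 1 [(6,1),(8,1)]) (.cons (.leaf 1 [(7,2),(0,1),(8,3),(6,1)]) .nil)))))) .nil)))))) .nil)))))) (.cons (.keep [1,4,5,6,7,9] (.node (.cons (.leaf 1 [(2,1)]) (.cons (.keep [2,5,7,8,9,10] (.node (.cons (.leaf 1 [(5,1),(2,1)]) (.cons (.leaf 1 [(5,1),(2,1)]) (.cons (.leaf 1 [(7,1)]) (.cons (.keep [0,5,6,7,9,10] (.node (.cons (.leaf 1 [(2,1),(8,1)]) (.cons (.leaf 1 [(2,1),(8,1)]) (.cons (.leaf 1 [(5,1),(8,1)]) (.cons (.leaf 1 [(8,1),(0,1)]) .nil)))))) .nil)))))) (.cons (.leaf 1 []) (.cons (.keep [1,5,6,7,8,9,10] (.node (.cons (.leaf 1 [(2,1)]) (.cons (.leaf 1 [(2,1)]) (.cons (.leaf 1 [(8,1)]) (.cons (.keep [5,6,7,8,9,10,11] (.node (.cons (.leaf 1 [(2,1),(8,1)]) (.cons (.leaf 1 [(2,1),(8,1)]) (.cons (.leaf 1 [(9,1),(8,1)])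 (.cons (.leaf 1 [(0,1),(8,1),(5,1)]) .nil)))))) .nil)))))) .nil)))))) (.cons (.keep [1,5,6,7,8,9] (.node (.cons (.leaf 1 []) (.cons (.keep [2,5,7,8,9,10] (.node (.cons (.leaf 1 [(2,1)]) (.cons (.leaf 1 [(2,1)]) (.cons (.leaf 1 [(9,1)]) (.cons (.keep [5,6,7,8,9,10] (.node (.cons (.leaf 1 [(2,1),(9,1)]) (.cons (.leaf 1 [(2,1),(9,1)]) (.cons (.leaf 1 [(7,1),(9,1)]) (.cons (.leaf 1 [(0,1),(9,2),(8,1)]) .nil)))))) .nil)))))) (.cons (.leaf 1 [(1,1)]) (.cons (.keep [5,6,7,8,9,10] (.node (.cons (.leaf 1 [(9,1),(2,1)]) (.cons (.leaf 1 [(8,1),(2,1),(9,1)]) (.cons (.leaf 1 [(9,1)]) (.cons (.keep [0,5,8,9,10] (.node (.cons (.leaf 1 [(2,1),(8,1)]) (.cons (.leaf 1 [(2,1),(8,1)]) (.cons (.leaf 1 [(7,2),(5,1),(8,3)]) (.cons (.leaf 1 [(0,1),(7,2),(8,3)]) .nil)))))) .nil)))))) .nil)))))) .nil)))))) (.cons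 (.keep [2,5,6,7,8,9] (.node (.cons (.keep [2,4,5,9,10] (.node (.cons (.leaf 1 [(2,1)]) (.cons (.keep [2,5,7,8,9] (.node (.cons (.leaf 1 [(5,1),(2,1)]) (.cons (.leaf 1 [(5,1),(2,1)]) (.cons (.leaf 1 [(7,1)]) (.cons (.keep [0,5,7,8,9] (.node (.cons (.leaf 1 [(2,1),(7,1)]) (.cons (.leaf 1 [(7,1),(2,1)]) (.cons (.leaf 1 [(5,1),(7,1)]) (.cons (.leaf 1 [(7,1),(0,1)]) .nil)))))) .nil)))))) (.cons (.leaf 1 []) (.cons (.keep [1,5,6,7,8,9] (.node (.cons (.leaf 1 [(2,1)]) (.cons (.leaf 1 [(2,1)]) (.cons (.leaf 1 [(8,1)]) (.cons (.keep [5,6,7,8,9,10] (.node (.cons (.leaf 1 [(2,1),(8,1)]) (.cons (.leaf 1 [(2,1),(8,1)]) (.cons (.leaf 1 [(6,1),(8,1)]) (.cons (.leaf 1 [(0,1),(8,1),(5,1)]) .nil)))))) .nil)))))) .nil)))))) (.cons (.keep [2,5,8,9,10] (.node (.cons (.leaf 1 []) (.cons (.keep [2,5,7,8,9] (.node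 (.cons (.leaf 1 [(2,1)]) (.cons (.leaf 1 [(2,1)]) (.cons (.leaf 1 [(7,1)]) (.cons (.keep [5,6,7,8,9] (.node (.cons (.leaf 1 [(2,1),(7,1)]) (.cons (.leaf 1 [(2,1),(7,1)]) (.cons (.leaf 1 [(6,1),(7,1)]) (.cons (.leaf 1 [(9,1),(0,1),(7,2),(6,1)]) .nil)))))) .nil)))))) (.cons (.leaf 1 [(1,1)]) (.cons (.keep [5,6,7,8,9] (.node (.cons (.leaf 1 [(7,1),(2,1)]) (.cons (.leaf 1 [(5,1),(9,1),(2,1),(7,1)]) (.cons (.leaf 1 [(7,1)]) (.cons (.keep [0,5,7,8,9] (.node (.cons (.leaf 1 [(2,1),(7,1)]) (.cons (.leaf 1 [(2,1),(7,1)]) (.cons (.leaf 1 [(6,1),(7,1)]) (.cons (.leaf 1 [(9,2),(0,1),(6,2),(7,3)]) .nil)))))) .nil)))))) .nil)))))) (.cons (.keep [4,5,7,8,9,10] (.node (.cons (.leaf 1 [(7,1),(2,1),(8,1)]) (.cons (.keep [2,6,7,8,9,10] (.node (.cons (.leaf 1 [(2,1),(8,1)]) (.cons (.leaf 1 [(5,1),(2,1),(8,1),(7,1)])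 (.cons (.leaf 1 [(8,1)]) (.cons (.keep [5,6,7,8,9,10] (.node (.cons (.leaf 1 [(2,1),(6,1)]) (.cons (.leaf 1 [(2,1),(6,1),(3,1)]) (.cons (.leaf 1 [(7,1),(8,2)]) (.cons (.leaf 1 [(0,1),(8,2),(7,1)]) .nil)))))) .nil)))))) (.cons (.leaf 1 [(7,1),(8,1)]) (.cons (.keep [1,5,6,7,8,9,10] (.node (.cons (.leaf 1 [(9,1),(2,1)]) (.cons (.leaf 1 [(9,1),(8,1),(2,1)]) (.cons (.leaf 1 [(9,1)]) (.cons (.keep [0,5,7,8,9,10,11] (.node (.cons (.leaf 1 [(2,1),(7,1)]) (.cons (.leaf 1 [(7,1),(2,1),(3,1)]) (.cons (.leaf 1 [(9,2),(8,1)]) (.cons (.leaf 1 [(0,1),(8,1),(9,2),(6,1)]) .nil)))))) .nil)))))) .nil)))))) (.cons (.keep [5,6,7,8,9,10] (.node (.cons (.leaf 1 [(2,1),(8,1),(7,1)]) (.cons (.keep [2,5,7,8,9,10] (.node (.cons (.leaf 1 [(8,1),(2,1)]) (.cons (.leaf 1 [(8,1),(7,1),(2,2),(0,1)]) (.cons (.leaf 1 [(8,1)])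 (.cons (.keep [0,6,7,8,9,10] (.node (.cons (.leaf 1 [(2,1),(8,1)]) (.cons (.leaf 1 [(2,1),(8,1)]) (.cons (.leaf 1 [(8,2),(7,1),(5,1)]) (.cons (.leaf 1 [(0,1),(7,1),(8,2)]) .nil)))))) .nil)))))) (.cons (.leaf 1 [(7,1),(8,1)]) (.cons (.keep [0,5,7,8,10] (.node (.cons (.leaf 1 [(8,1),(2,1)]) (.cons (.leaf 1 [(8,1),(2,1),(7,1)]) (.cons (.leaf 1 [(8,1)]) (.cons (.keep [0,5,6,7,8,9] (.node (.cons (.leaf 1 [(2,1),(9,1)]) (.cons (.leaf 1 [(2,1),(9,1)]) (.cons (.leaf 2 [(9,4),(8,2),(5,1)]) (.cons (.leaf 1 [(10,1),(8,1),(0,1),(9,3)]) .nil)))))) .nil)))))) .nil)))))) .nil)))))) (.cons (.keep [1,4,7,8] (.node (.cons (.keep [2,4,5,7,8] (.node (.cons (.leaf 1 [(7,1),(2,1),(8,1)]) (.cons (.keep [0,2,5,7,8] (.node (.cons (.leaf 1 [(2,1),(9,1)]) (.cons (.leaf 1 [(6,1),(2,1),(8,1),(9,1)]) (.cons (.leaf 1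 [(9,1)]) (.cons (.keep [0,5,6,8,9] (.node (.cons (.leaf 1 [(2,1)]) (.cons (.leaf 1 [(2,1),(9,1)]) (.cons (.leaf 1 []) (.cons (.leaf 1 [(8,1),(9,2),(0,1)]) .nil)))))) .nil)))))) (.cons (.leaf 1 [(7,1),(8,1)]) (.cons (.keep [0,1,5,6,7,8] (.node (.cons (.leaf 1 [(2,1),(10,1)]) (.cons (.leaf 1 [(2,1),(9,1),(10,1)]) (.cons (.leaf 1 [(10,1)]) (.cons (.keep [0,5,6,9,10] (.node (.cons (.leaf 1 [(2,1)]) (.cons (.leaf 1 [(2,1),(9,1)]) (.cons (.leaf 1 []) (.cons (.leaf 1 [(7,1),(8,1),(9,2),(0,1)]) .nil)))))) .nil)))))) .nil)))))) (.cons (.keep [2,5,7,8] (.node (.cons (.leaf 1 [(6,1),(2,1),(7,1)]) (.cons (.keep [0,2,5,6,7] (.node (.cons (.leaf 1 [(2,1),(9,1)]) (.cons (.leaf 1 [(6,1),(2,1),(8,1),(9,1)]) (.cons (.leaf 1 [(9,1)]) (.cons (.keep [0,5,6,8,9] (.node (.cons (.leaf 1 [(2,1),(9,1)]) (.cons (.leaf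 1 [(2,1),(9,1)]) (.cons (.leaf 1 [(5,1),(8,1),(9,2)]) (.cons (.leaf 1 [(0,1),(8,1),(9,2)]) .nil)))))) .nil)))))) (.cons (.leaf 1 [(6,1),(7,1)]) (.cons (.keep [0,5,6,7] (.node (.cons (.leaf 1 [(2,1),(8,1)]) (.cons (.leaf 1 [(2,1),(7,1),(8,1)]) (.cons (.leaf 1 [(8,1)]) (.cons (.keep [0,5,6,7,8] (.node (.cons (.leaf 1 [(2,1),(9,1)]) (.cons (.leaf 1 [(2,1),(9,1)]) (.cons (.leaf 1 [(7,1),(9,1)]) (.cons (.leaf 1 [(0,1),(8,1),(9,3),(7,1)]) .nil)))))) .nil)))))) .nil)))))) (.cons (.keep [1,4,5,6,8] (.node (.cons (.leaf 1 [(2,1),(7,1)]) (.cons (.keep [0,2,5,7,8] (.node (.cons (.leaf 1 [(2,1)]) (.cons (.leaf 1 [(6,1),(2,1),(8,1)]) (.cons (.leaf 1 []) (.cons (.keep [0,5,6,7,8] (.node (.cons (.leaf 1 [(2,1)]) (.cons (.leaf 1 [(2,1)]) (.cons (.leaf 1 [(9,1),(5,1)]) (.cons (.leaf 1 [(0,1),(9,1)]) .nil))))))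 .nil)))))) (.cons (.leaf 1 [(7,1)]) (.cons (.keep [0,1,5,6,7,8] (.node (.cons (.leaf 1 [(2,1)]) (.cons (.leaf 1 [(2,1),(9,1)]) (.cons (.leaf 1 []) (.cons (.keep [0,5,6,7,9] (.node (.cons (.leaf 1 [(2,1)]) (.cons (.leaf 1 [(2,1)]) (.cons (.leaf 1 [(7,1),(9,1),(5,1)]) (.cons (.leaf 1 [(0,1),(9,1),(7,1)]) .nil)))))) .nil)))))) .nil)))))) (.cons (.keep [1,3,5,6,8] (.node (.cons (.leaf 1 [(7,1)]) (.cons (.keep [0,2,5,6,7,8] (.node (.cons (.leaf 1 [(8,1),(2,1)]) (.cons (.leaf 1 [(2,1),(9,1)]) (.cons (.leaf 1 [(8,1)]) (.cons (.keep [0,5,7,8,9] (.node (.cons (.leaf 1 [(2,1),(8,1)]) (.cons (.leaf 1 [(2,1),(8,1)]) (.cons (.leaf 1 [(8,2),(9,1),(5,1)]) (.cons (.leaf 1 [(0,1),(9,1),(8,2)]) .nil)))))) .nil)))))) (.cons (.leaf 1 [(7,1),(1,1)]) (.cons (.keep [0,1,5,7,8] (.node (.cons (.leaf 1 [(6,1),(2,1)])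 (.cons (.leaf 1 [(6,1),(2,1),(8,1)]) (.cons (.leaf 1 [(6,1)]) (.cons (.keep [0,5,6,7,8] (.node (.cons (.leaf 1 [(2,1),(7,1)]) (.cons (.leaf 1 [(2,1),(7,1)]) (.cons (.leaf 1 [(7,3),(9,1),(5,1)]) (.cons (.leaf 1 [(0,1),(9,1),(7,3)]) .nil)))))) .nil)))))) .nil)))))) .nil)))))) (.cons (.keep [0,1,3,5,7,8] (.node (.cons (.keep [2,4,6,7,10] (.node (.cons (.leaf 1 [(2,1),(7,1)]) (.cons (.keep [0,2,5,7,8] (.node (.cons (.leaf 1 [(2,1)]) (.cons (.leaf 1 [(2,1),(8,1),(6,1)]) (.cons (.leaf 1 []) (.cons (.keep [0,5,6,8,9] (.node (.cons (.leaf 1 [(2,1)]) (.cons (.leaf 1 [(2,1)]) (.cons (.leaf 1 [(8,1),(5,1)]) (.cons (.leaf 1 [(0,1),(8,1)]) .nil)))))) .nil)))))) (.cons (.leaf 1 [(7,1)]) (.cons (.keep [0,1,5,6,7,8] (.node (.cons (.leaf 1 [(2,1)]) (.cons (.leaf 1 [(2,1),(9,1)]) (.cons (.leaf 1 []) (.cons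 (.keep [0,5,6,9,10] (.node (.cons (.leaf 1 [(2,1)]) (.cons (.leaf 1 [(2,1)]) (.cons (.leaf 1 [(7,1),(8,1),(5,1)]) (.cons (.leaf 1 [(0,1),(8,1),(7,1)]) .nil)))))) .nil)))))) .nil)))))) (.cons (.keep [2,3,6,7,10] (.node (.cons (.leaf 1 [(7,1)]) (.cons (.keep [0,2,5,6,7,8] (.node (.cons (.leaf 1 [(8,1),(2,1)]) (.cons (.leaf 1 [(2,1),(9,1)]) (.cons (.leaf 1 [(8,1)]) (.cons (.keep [0,5,8,9,10] (.node (.cons (.leaf 1 [(2,1),(7,1)]) (.cons (.leaf 1 [(2,1),(7,1)]) (.cons (.leaf 1 [(7,2),(8,1),(5,1)]) (.cons (.leaf 1 [(0,1),(8,1),(7,2)]) .nil)))))) .nil)))))) (.cons (.leaf 1 [(7,1),(1,1)]) (.cons (.keep [0,1,5,7,8] (.node (.cons (.leaf 1 [(6,1),(2,1)]) (.cons (.leaf 1 [(6,1),(8,1),(2,1)]) (.cons (.leaf 1 [(6,1)]) (.cons (.keep [0,5,6,8,9] (.node (.cons (.leaf 1 [(2,1),(7,1)]) (.cons (.leaf 1 [(2,1),(7,1)])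 (.cons (.leaf 1 [(7,3),(8,1),(5,1)]) (.cons (.leaf 1 [(0,1),(8,1),(7,3)]) .nil)))))) .nil)))))) .nil)))))) (.cons (.keep [1,4,6,9,10] (.node (.cons (.leaf 1 [(2,1),(8,1),(7,1)]) (.cons (.keep [0,2,5,7,8] (.node (.cons (.leaf 1 [(9,1),(2,1)]) (.cons (.leaf 1 [(2,1),(6,1),(8,1),(9,1)]) (.cons (.leaf 1 [(9,1)]) (.cons (.keep [0,5,6,7,8,9] (.node (.cons (.leaf 1 [(2,1)]) (.cons (.leaf 1 [(2,1),(3,1)]) (.cons (.leaf 1 [(10,2)]) (.cons (.leaf 1 [(0,1),(10,2),(9,1)]) .nil)))))) .nil)))))) (.cons (.leaf 1 [(7,1),(8,1)]) (.cons (.keep [0,1,5,6,7,8] (.node (.cons (.leaf 1 [(10,1),(2,1)]) (.cons (.leaf 1 [(10,1),(2,1),(9,1)]) (.cons (.leaf 1 [(10,1)]) (.cons (.keep [0,5,6,7,9,10] (.node (.cons (.leaf 1 [(2,1)]) (.cons (.leaf 1 [(2,1),(3,1)]) (.cons (.leaf 1 [(10,2)]) (.cons (.leaf 1 [(7,1),(0,1),(10,2),(9,1)])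 .nil)))))) .nil)))))) .nil)))))) (.cons (.keep [0,1,6,9,10] (.node (.cons (.leaf 1 [(2,1),(8,1),(7,1)]) (.cons (.keep [0,2,6,7,8] (.node (.cons (.leaf 1 [(9,1),(2,1)]) (.cons (.leaf 1 [(9,1),(2,2),(8,2),(0,1)]) (.cons (.leaf 1 [(9,1)]) (.cons (.keep [0,5,7,8,9] (.node (.cons (.leaf 1 [(2,1),(9,1)]) (.cons (.leaf 1 [(2,1),(9,1)]) (.cons (.leaf 1 [(9,2),(8,1),(5,1)]) (.cons (.leaf 1 [(0,1),(8,1),(9,2)]) .nil)))))) .nil)))))) (.cons (.leaf 1 [(7,1),(8,1)]) (.cons (.keep [0,6,7,8] (.node (.cons (.leaf 1 [(8,1),(2,1)]) (.cons (.leaf 1 [(8,1),(7,1),(2,1)]) (.cons (.leaf 1 [(8,1)]) (.cons (.keep [0,5,6,7,8] (.node (.cons (.leaf 1 [(2,1),(9,1)]) (.cons (.leaf 1 [(2,1),(9,1)]) (.cons (.leaf 2 [(9,4),(8,1),(5,1)]) (.cons (.leaf 1 [(7,1),(8,1),(0,1),(9,3)]) .nil)))))) .nil)))))) .nil)))))) .nil))))))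 .nil)))))) (.cons (.keep [1,4,5,6,7] (.node (.cons (.leaf 1 [(2,1)]) (.cons (.keep [2,5,7,8,9] (.node (.cons (.leaf 1 [(5,1),(2,1)]) (.cons (.leaf 1 [(5,1),(2,1)]) (.cons (.leaf 1 [(7,1)]) (.cons (.keep [0,5,6,7,9] (.node (.cons (.leaf 1 [(2,1),(8,1)]) (.cons (.leaf 1 [(2,1),(8,1)]) (.cons (.leaf 1 [(5,1),(8,1)]) (.cons (.leaf 1 [(8,1),(0,1)]) .nil)))))) .nil)))))) (.cons (.leaf 1 []) (.cons (.keep [1,5,6,7,8,9] (.node (.cons (.leaf 1 [(2,1)]) (.cons (.leaf 1 [(2,1)]) (.cons (.leaf 1 [(8,1)]) (.cons (.keep [5,6,7,8,9,10] (.node (.cons (.leaf 1 [(2,1),(8,1)]) (.cons (.leaf 1 [(2,1),(8,1)]) (.cons (.leaf 1 [(9,1),(8,1)]) (.cons (.leaf 1 [(0,1),(8,1),(5,1)]) .nil)))))) .nil)))))) .nil)))))) (.cons (.keep [1,3,5,6,7] (.node (.cons (.leaf 1 []) (.cons (.keep [2,5,6,7,8,9] (.node (.cons (.leaf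 1 [(2,1)]) (.cons (.leaf 1 [(2,1)]) (.cons (.leaf 1 [(8,1),(7,1)]) (.cons (.keep [5,6,7,8,9,10] (.node (.cons (.leaf 1 [(2,1),(8,1),(7,1)]) (.cons (.leaf 1 [(2,1),(8,1),(7,1)]) (.cons (.leaf 1 [(7,1),(9,1),(8,1)]) (.cons (.leaf 1 [(0,1),(8,1),(7,2)]) .nil)))))) .nil)))))) (.cons (.leaf 1 [(1,1)]) (.cons (.keep [0,1,5,7,8,9] (.node (.cons (.leaf 1 [(6,1),(2,1)]) (.cons (.leaf 1 [(6,1),(2,1)]) (.cons (.leaf 1 [(6,1),(8,1)]) (.cons (.keep [0,6,7,8,10] (.node (.cons (.leaf 1 [(2,1),(8,1),(6,1)]) (.cons (.leaf 1 [(2,1),(8,1),(6,1)]) (.cons (.leaf 1 [(6,3),(5,1),(8,1)]) (.cons (.leaf 1 [(0,1),(6,3),(8,1)]) .nil)))))) .nil)))))) .nil)))))) .nil)))))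

theorem c_12_24_3 : Concl 12 24 z_12_24_3 h_12_24_3 .nd := piece _ (hP_cons E33.c_12_24_0 hP_nil)
  t_12_24_3 _ _ (by decide +kernel)

def z_12_24_6 : F := ⟨1, 0, -1, 0, 1⟩

def h_12_24_6 : List F := [⟨0, 1, -1, 0, 0⟩, ⟨0, 0, 1, -1, 0⟩, ⟨1, -1, 0, 0, 0⟩, ⟨0, -1, 1, 0, 0⟩,
  ⟨0, 0, -1, 0, 1⟩]

def t_12_24_6 : T := (.node (.cons (.keep [2,4,5,8,9] (.leaf 0 [(0,0)])) (.cons (.keep [2,3,5,7,8,9] (.node (.cons (.keep [2,4,5,9,10] (.node (.cons (.keep [4,5,7,8,9] (.node (.cons (.leaf 1 [(2,1),(9,1),(8,1)]) (.cons (.keep [2,6,7,8,9] (.node (.cons (.leaf 1 [(2,1)]) (.cons (.leaf 1 [(9,1),(2,1),(8,1),(5,1)]) (.cons (.leaf 1 []) (.cons (.keep [5,6,7,8,9] (.node (.cons (.leaf 1 [(2,1)]) (.cons (.leaf 1 [(2,1)]) (.cons (.leaf 1 [(8,1),(6,1)]) (.cons (.leaf 1 [(9,1),(0,1),(8,1)]) .nil)))))) .nil))))))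 (.cons (.leaf 1 [(8,1),(9,1)]) (.cons (.keep [1,5,6,7,8,9] (.node (.cons (.leaf 1 [(2,1)]) (.cons (.leaf 1 [(10,1),(2,1),(9,1)]) (.cons (.leaf 1 []) (.cons (.keep [5,6,7,8,9,10] (.node (.cons (.leaf 1 [(2,1)]) (.cons (.leaf 1 [(2,1)]) (.cons (.leaf 1 [(7,1),(9,1)]) (.cons (.leaf 1 [(10,1),(0,1),(5,1),(9,1)]) .nil)))))) .nil)))))) .nil)))))) (.cons (.keep [3,5,7,8,9] (.node (.cons (.leaf 1 [(8,1),(2,1),(9,1)]) (.cons (.keep [2,5,6,7,8,9] (.node (.cons (.leaf 1 [(2,1)]) (.cons (.leaf 1 [(10,1),(2,1),(9,1),(5,1)]) (.cons (.leaf 1 []) (.cons (.keep [5,6,7,8,9,10] (.node (.cons (.leaf 1 [(2,1)]) (.cons (.leaf 1 [(2,1)]) (.cons (.leaf 1 [(6,1),(9,1),(7,1)]) (.cons (.leaf 1 [(10,1),(0,1),(9,1)]) .nil)))))) .nil)))))) (.cons (.leaf 1 [(8,1),(9,1)]) (.cons (.keep [1,6,7,8,9] (.node (.cons (.leaf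 1 [(2,1)]) (.cons (.leaf 1 [(9,1),(8,1),(2,1)]) (.cons (.leaf 1 []) (.cons (.keep [5,6,7,8,9] (.node (.cons (.leaf 1 [(2,1)]) (.cons (.leaf 1 [(2,1)]) (.cons (.leaf 1 [(5,1),(8,1),(6,1)]) (.cons (.leaf 1 [(9,1),(8,1),(0,1),(5,1)]) .nil)))))) .nil)))))) .nil)))))) (.cons (.keep [1,4,5,6,7,8] (.node (.cons (.leaf 1 [(2,1),(10,1)]) (.cons (.keep [2,5,7,8,9,10] (.node (.cons (.leaf 1 [(2,1)]) (.cons (.leaf 1 [(2,1),(10,1),(5,1)]) (.cons (.leaf 1 []) (.cons (.keep [5,6,7,8,9,10] (.node (.cons (.leaf 1 [(2,1)]) (.cons (.leaf 1 [(2,1)]) (.cons (.leaf 1 [(8,1)]) (.cons (.leaf 1 [(0,1),(10,1)]) .nil)))))) .nil)))))) (.cons (.leaf 1 [(10,1)]) (.cons (.keep [1,3,5,6,7,8,10] (.node (.cons (.leaf 1 [(2,1)]) (.cons (.leaf 1 [(2,1),(11,1)]) (.cons (.leaf 1 []) (.cons (.keep [3,5,7,8,9,10,11] (.node (.cons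 (.leaf 1 [(2,1)]) (.cons (.leaf 1 [(2,1)]) (.cons (.leaf 1 [(10,1)]) (.cons (.leaf 1 [(11,1),(0,1),(6,1)]) .nil)))))) .nil)))))) .nil)))))) (.cons (.keep [1,3,5,6,7,8] (.node (.cons (.leaf 1 [(10,1)]) (.cons (.keep [3,5,6,7,8,10] (.node (.cons (.leaf 1 [(2,1)]) (.cons (.leaf 1 [(2,1),(10,1)]) (.cons (.leaf 1 []) (.cons (.keep [3,6,7,8,9,10] (.node (.cons (.leaf 1 [(2,1)]) (.cons (.leaf 1 [(2,1)]) (.cons (.leaf 1 [(9,1)]) (.cons (.leaf 1 [(10,1),(0,1),(7,1)]) .nil)))))) .nil)))))) (.cons (.leaf 1 [(1,1),(10,1)]) (.cons (.keep [1,5,7,8,9,10] (.node (.cons (.leaf 1 [(2,1)]) (.cons (.leaf 1 [(5,1),(10,1),(2,1)]) (.cons (.leaf 1 []) (.cons (.keep [5,6,7,8,9,10] (.node (.cons (.leaf 1 [(2,1)]) (.cons (.leaf 1 [(2,1)]) (.cons (.leaf 1 [(8,1)]) (.cons (.leaf 1 [(10,1),(0,1),(5,2)]) .nil)))))) .nil))))))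 .nil)))))) .nil)))))) (.cons (.keep [2,5,6,7,9,10] (.node (.cons (.keep [2,4,5,6,7,10] (.node (.cons (.leaf 1 [(2,1),(9,1)]) (.cons (.keep [2,5,7,8,9,10] (.node (.cons (.leaf 1 [(2,1)]) (.cons (.leaf 1 [(2,1),(9,1),(5,1)]) (.cons (.leaf 1 []) (.cons (.keep [5,6,7,8,9,10] (.node (.cons (.leaf 1 [(2,1)]) (.cons (.leaf 1 [(2,1)]) (.cons (.leaf 1 [(6,1)]) (.cons (.leaf 1 [(0,1),(9,1)]) .nil)))))) .nil)))))) (.cons (.leaf 1 [(9,1)]) (.cons (.keep [1,5,6,7,8,9,10] (.node (.cons (.leaf 1 [(2,1)]) (.cons (.leaf 1 [(2,1),(10,1)]) (.cons (.leaf 1 []) (.cons (.keep [5,6,7,8,9,10,11] (.node (.cons (.leaf 1 [(2,1)]) (.cons (.leaf 1 [(2,1)]) (.cons (.leaf 1 [(6,1)]) (.cons (.leaf 1 [(10,1),(0,1),(5,1)]) .nil)))))) .nil)))))) .nil)))))) (.cons (.keep [2,5,6,9,10] (.node (.cons (.leaf 1 [(8,1)]) (.cons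 (.keep [5,6,7,8,9] (.node (.cons (.leaf 1 [(2,1)]) (.cons (.leaf 1 [(2,1),(8,1)]) (.cons (.leaf 1 []) (.cons (.keep [5,6,7,8,9] (.node (.cons (.leaf 1 [(2,1)]) (.cons (.leaf 1 [(2,1)]) (.cons (.leaf 1 [(5,1)]) (.cons (.leaf 1 [(9,1),(8,1),(0,1),(5,1)]) .nil)))))) .nil)))))) (.cons (.leaf 1 [(1,1),(8,1)]) (.cons (.keep [5,6,7,8,9] (.node (.cons (.leaf 1 [(2,1)]) (.cons (.leaf 1 [(9,1),(5,1),(8,1),(2,1)]) (.cons (.leaf 1 []) (.cons (.keep [5,6,7,8,9] (.node (.cons (.leaf 1 [(2,1)]) (.cons (.leaf 1 [(2,1)]) (.cons (.leaf 1 [(5,1)]) (.cons (.leaf 1 [(9,2),(8,1),(0,1),(5,2)]) .nil)))))) .nil)))))) .nil)))))) (.cons (.keep [4,5,6,7,8,9] (.node (.cons (.leaf 1 [(2,1),(8,1)]) (.cons (.keep [2,6,7,8,9,10] (.node (.cons (.leaf 1 [(2,1)]) (.cons (.leaf 1 [(5,1),(2,1),(8,1)]) (.cons (.leaf 1 []) (.cons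 (.keep [0,5,6,7,8,10] (.node (.cons (.leaf 1 [(2,1)]) (.cons (.leaf 1 [(2,1)]) (.cons (.leaf 1 [(9,1),(5,1)]) (.cons (.leaf 1 [(0,1),(9,1)]) .nil)))))) .nil)))))) (.cons (.leaf 1 [(8,1)]) (.cons (.keep [1,3,5,6,8,9,10] (.node (.cons (.leaf 1 [(2,1)]) (.cons (.leaf 1 [(2,1),(9,1)]) (.cons (.leaf 1 []) (.cons (.keep [3,5,7,8,9,10,11] (.node (.cons (.leaf 1 [(2,1)]) (.cons (.leaf 1 [(2,1)]) (.cons (.leaf 1 [(10,1),(9,1)]) (.cons (.leaf 1 [(0,1),(9,1),(6,1)]) .nil)))))) .nil)))))) .nil)))))) (.cons (.keep [3,5,6,7,8,9] (.node (.cons (.leaf 1 [(2,1),(8,1)]) (.cons (.keep [2,3,5,6,8,9,10] (.node (.cons (.leaf 1 [(2,1)]) (.cons (.leaf 1 [(5,1),(2,1),(9,1)]) (.cons (.leaf 1 []) (.cons (.keep [3,5,7,8,9,10,11] (.node (.cons (.leaf 1 [(2,1)]) (.cons (.leaf 1 [(2,1)]) (.cons (.leaf 1 [(10,1),(9,1),(6,1)])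 (.cons (.leaf 1 [(0,1),(9,1)]) .nil)))))) .nil)))))) (.cons (.leaf 1 [(8,1)]) (.cons (.keep [0,1,6,8,9,10] (.node (.cons (.leaf 1 [(2,1)]) (.cons (.leaf 1 [(2,1),(8,1)]) (.cons (.leaf 1 []) (.cons (.keep [0,5,6,7,8,10] (.node (.cons (.leaf 1 [(2,1)]) (.cons (.leaf 1 [(2,1)]) (.cons (.leaf 1 [(7,1),(9,1),(5,1)]) (.cons (.leaf 1 [(0,1),(9,1),(7,1)]) .nil)))))) .nil)))))) .nil)))))) .nil)))))) (.cons (.keep [1,4,7,8,9] (.node (.cons (.keep [2,4,5,7,8] (.node (.cons (.leaf 1 [(2,1),(7,1)]) (.cons (.keep [0,2,5,7,8] (.node (.cons (.leaf 1 [(2,1)]) (.cons (.leaf 1 [(2,1),(8,1),(6,1)]) (.cons (.leaf 1 []) (.cons (.keep [0,5,6,8,9] (.node (.cons (.leaf 1 [(2,1)]) (.cons (.leaf 1 [(2,1)]) (.cons (.leaf 1 [(8,1),(5,1)]) (.cons (.leaf 1 [(0,1),(8,1)]) .nil)))))) .nil)))))) (.cons (.leaf 1 [(7,1)])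 (.cons (.keep [0,1,5,6,7,8] (.node (.cons (.leaf 1 [(2,1)]) (.cons (.leaf 1 [(2,1),(9,1)]) (.cons (.leaf 1 []) (.cons (.keep [0,5,6,9,10] (.node (.cons (.leaf 1 [(2,1)]) (.cons (.leaf 1 [(2,1)]) (.cons (.leaf 1 [(7,1),(8,1),(5,1)]) (.cons (.leaf 1 [(0,1),(8,1),(7,1)]) .nil)))))) .nil)))))) .nil)))))) (.cons (.keep [3,5,7,8,9] (.node (.cons (.leaf 1 [(2,1),(6,1)]) (.cons (.keep [0,2,5,6,7,9] (.node (.cons (.leaf 1 [(2,1)]) (.cons (.leaf 1 [(6,1),(2,1),(8,1)]) (.cons (.leaf 1 []) (.cons (.keep [0,5,6,8,9] (.node (.cons (.leaf 1 [(2,1)]) (.cons (.leaf 1 [(2,1)]) (.cons (.leaf 1 [(8,1),(5,1)]) (.cons (.leaf 1 [(0,1),(8,1)]) .nil)))))) .nil)))))) (.cons (.leaf 1 [(6,1)]) (.cons (.keep [0,1,6,7,9] (.node (.cons (.leaf 1 [(2,1)]) (.cons (.leaf 1 [(2,1),(7,1)]) (.cons (.leaf 1 []) (.cons (.keep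 [0,5,6,7,8] (.node (.cons (.leaf 1 [(2,1)]) (.cons (.leaf 1 [(2,1)]) (.cons (.leaf 1 [(7,1),(8,1),(5,1)]) (.cons (.leaf 1 [(0,1),(8,1),(7,1)]) .nil)))))) .nil)))))) .nil)))))) (.cons (.keep [1,4,5,6,8] (.node (.cons (.leaf 1 [(2,1),(7,1)]) (.cons (.keep [0,2,5,7,8] (.node (.cons (.leaf 1 [(2,1)]) (.cons (.leaf 1 [(6,1),(2,1),(8,1)]) (.cons (.leaf 1 []) (.cons (.keep [0,5,6,7,8] (.node (.cons (.leaf 1 [(2,1)]) (.cons (.leaf 1 [(2,1)]) (.cons (.leaf 1 [(9,1),(5,1)]) (.cons (.leaf 1 [(0,1),(9,1)]) .nil)))))) .nil)))))) (.cons (.leaf 1 [(7,1)]) (.cons (.keep [0,1,5,6,7,8] (.node (.cons (.leaf 1 [(2,1)]) (.cons (.leaf 1 [(2,1),(9,1)]) (.cons (.leaf 1 []) (.cons (.keep [0,5,6,7,9] (.node (.cons (.leaf 1 [(2,1)]) (.cons (.leaf 1 [(2,1)]) (.cons (.leaf 1 [(7,1),(9,1),(5,1)]) (.cons (.leaf 1 [(0,1),(9,1),(7,1)])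 .nil)))))) .nil)))))) .nil)))))) (.cons (.keep [1,3,5,6,8,9] (.node (.cons (.leaf 1 [(2,1),(7,1)]) (.cons (.keep [0,2,5,6,7,8] (.node (.cons (.leaf 1 [(2,1)]) (.cons (.leaf 1 [(6,1),(2,1),(9,1)]) (.cons (.leaf 1 []) (.cons (.keep [0,5,6,7,8,9] (.node (.cons (.leaf 1 [(2,1)]) (.cons (.leaf 1 [(2,1)]) (.cons (.leaf 1 [(10,1),(5,1)]) (.cons (.leaf 1 [(0,1),(10,1)]) .nil)))))) .nil)))))) (.cons (.leaf 1 [(7,1)]) (.cons (.keep [0,1,5,7,8,10] (.node (.cons (.leaf 1 [(2,1)]) (.cons (.leaf 1 [(2,1),(8,1)]) (.cons (.leaf 1 []) (.cons (.keep [0,5,6,7,8] (.node (.cons (.leaf 1 [(2,1)]) (.cons (.leaf 1 [(2,1)]) (.cons (.leaf 1 [(7,1),(9,1),(5,1)]) (.cons (.leaf 1 [(0,1),(9,1),(7,1)]) .nil)))))) .nil)))))) .nil)))))) .nil)))))) (.cons (.keep [0,1,5,7,9,10] (.node (.cons (.keep [2,4,5,6,10] (.node (.cons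 (.leaf 1 [(2,1),(8,1)]) (.cons (.keep [0,2,5,8,9] (.node (.cons (.leaf 1 [(2,1)]) (.cons (.leaf 1 [(2,1),(8,1),(6,1)]) (.cons (.leaf 1 []) (.cons (.keep [0,5,6,8,9] (.node (.cons (.leaf 1 [(2,1)]) (.cons (.leaf 1 [(2,1)]) (.cons (.leaf 1 [(8,1),(5,1)]) (.cons (.leaf 1 [(0,1),(8,1)]) .nil)))))) .nil)))))) (.cons (.leaf 1 [(8,1)]) (.cons (.keep [0,1,5,6,8,9] (.node (.cons (.leaf 1 [(2,1)]) (.cons (.leaf 1 [(2,1),(9,1)]) (.cons (.leaf 1 []) (.cons (.keep [0,5,6,9,10] (.node (.cons (.leaf 1 [(2,1)]) (.cons (.leaf 1 [(2,1)]) (.cons (.leaf 1 [(7,1),(8,1),(5,1)]) (.cons (.leaf 1 [(0,1),(8,1),(7,1)]) .nil)))))) .nil)))))) .nil)))))) (.cons (.keep [2,5,6,9,10] (.node (.cons (.leaf 1 [(2,1),(7,1)]) (.cons (.keep [0,2,5,7,9] (.node (.cons (.leaf 1 [(2,1)]) (.cons (.leaf 1 [(2,1),(8,1),(6,1)]) (.cons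 (.leaf 1 []) (.cons (.keep [0,5,6,8,9] (.node (.cons (.leaf 1 [(2,1)]) (.cons (.leaf 1 [(2,1)]) (.cons (.leaf 1 [(8,1),(5,1)]) (.cons (.leaf 1 [(0,1),(8,1)]) .nil)))))) .nil)))))) (.cons (.leaf 1 [(7,1)]) (.cons (.keep [0,5,7,8,9] (.node (.cons (.leaf 1 [(2,1)]) (.cons (.leaf 1 [(2,1),(7,1)]) (.cons (.leaf 1 []) (.cons (.keep [0,5,6,7,8,9] (.node (.cons (.leaf 1 [(2,1)]) (.cons (.leaf 1 [(2,1)]) (.cons (.leaf 1 [(7,1)]) (.cons (.leaf 1 [(10,1),(8,1),(0,1),(7,1)]) .nil)))))) .nil)))))) .nil)))))) (.cons (.keep [1,4,5,6,8] (.node (.cons (.leaf 1 [(2,1),(8,1)]) (.cons (.keep [0,2,5,8,9] (.node (.cons (.leaf 1 [(2,1)]) (.cons (.leaf 1 [(6,1),(2,1),(8,1)]) (.cons (.leaf 1 []) (.cons (.keep [0,5,6,7,8] (.node (.cons (.leaf 1 [(2,1)]) (.cons (.leaf 1 [(2,1)]) (.cons (.leaf 1 [(9,1),(5,1)]) (.cons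 (.leaf 1 [(0,1),(9,1)]) .nil)))))) .nil)))))) (.cons (.leaf 1 [(8,1)]) (.cons (.keep [0,1,5,6,8,9] (.node (.cons (.leaf 1 [(2,1)]) (.cons (.leaf 1 [(2,1),(9,1)]) (.cons (.leaf 1 []) (.cons (.keep [0,5,6,7,9] (.node (.cons (.leaf 1 [(2,1)]) (.cons (.leaf 1 [(2,1)]) (.cons (.leaf 1 [(7,1),(9,1),(5,1)]) (.cons (.leaf 1 [(0,1),(9,1),(7,1)]) .nil)))))) .nil)))))) .nil)))))) (.cons (.keep [0,3,6,8,9] (.node (.cons (.leaf 1 [(2,1),(7,1)]) (.cons (.keep [0,2,6,7,8,9] (.node (.cons (.leaf 1 [(2,1)]) (.cons (.leaf 1 [(6,1),(2,1),(8,1)]) (.cons (.leaf 1 []) (.cons (.keep [0,5,7,8,10] (.node (.cons (.leaf 1 [(2,1)]) (.cons (.leaf 1 [(2,1)]) (.cons (.leaf 1 [(8,1),(5,1)]) (.cons (.leaf 1 [(0,1),(8,1)]) .nil)))))) .nil)))))) (.cons (.leaf 1 [(7,1)]) (.cons (.keep [0,1,7,8,9] (.node (.cons (.leaf 1 [(2,1)])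 (.cons (.leaf 1 [(2,1),(7,1)]) (.cons (.leaf 1 []) (.cons (.keep [0,5,6,7,9] (.node (.cons (.leaf 1 [(2,1)]) (.cons (.leaf 1 [(2,1)]) (.cons (.leaf 1 [(7,1),(8,1),(5,1)]) (.cons (.leaf 1 [(0,1),(8,1),(7,1)]) .nil)))))) .nil)))))) .nil)))))) .nil)))))) .nil)))))) (.cons (.keep [1,4,5,6,8,9] (.node (.cons (.leaf 1 [(2,1),(9,1)]) (.cons (.keep [2,5,7,8,9,10] (.node (.cons (.leaf 1 [(2,1)]) (.cons (.leaf 1 [(2,1),(9,1),(5,1)]) (.cons (.leaf 1 []) (.cons (.keep [3,5,6,7,8,9] (.node (.cons (.leaf 1 [(2,1)]) (.cons (.leaf 1 [(2,1)]) (.cons (.leaf 1 [(9,1)]) (.cons (.leaf 1 [(0,1),(10,1)]) .nil)))))) .nil)))))) (.cons (.leaf 1 [(9,1)]) (.cons (.keep [1,5,6,7,8,9,10] (.node (.cons (.leaf 1 [(2,1)]) (.cons (.leaf 1 [(2,1),(10,1)]) (.cons (.leaf 1 []) (.cons (.keep [3,5,6,7,8,9,10] (.node (.cons (.leaf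 1 [(2,1)]) (.cons (.leaf 1 [(2,1)]) (.cons (.leaf 1 [(10,1)]) (.cons (.leaf 1 [(11,1),(0,1),(6,1)]) .nil)))))) .nil)))))) .nil)))))) (.cons (.keep [1,3,5,6,7,8] (.node (.cons (.leaf 1 [(10,1)]) (.cons (.keep [2,3,5,6,7,8,10] (.node (.cons (.leaf 1 [(8,1),(2,1)]) (.cons (.leaf 1 [(2,1),(11,1)]) (.cons (.leaf 1 [(8,1)]) (.cons (.keep [3,5,7,8,9,10,11] (.node (.cons (.leaf 1 [(2,1),(8,1)]) (.cons (.leaf 1 [(2,1),(8,1)]) (.cons (.leaf 1 [(8,1),(10,1)]) (.cons (.leaf 1 [(0,1),(8,2),(11,1)]) .nil)))))) .nil)))))) (.cons (.leaf 1 [(10,1),(1,1)]) (.cons (.keep [0,1,5,7,8,10] (.node (.cons (.leaf 1 [(6,1),(2,1)]) (.cons (.leaf 1 [(6,1),(10,1),(2,1)]) (.cons (.leaf 1 [(6,1)]) (.cons (.keep [0,5,6,7,10] (.node (.cons (.leaf 1 [(2,1),(7,1)]) (.cons (.leaf 1 [(2,1),(7,1)]) (.cons (.leaf 1 [(7,3),(9,1),(5,1)])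 (.cons (.leaf 1 [(0,1),(9,1),(7,3)]) .nil)))))) .nil)))))) .nil)))))) .nil)))))

theorem c_12_24_6 : Concl 12 24 z_12_24_6 h_12_24_6 .nd := piece _ (hP_cons E33.c_12_24_4 hP_nil)
  t_12_24_6 _ _ (by decide +kernel)

def z_12_24_7 : F := ⟨1, 0, -1, 0, 1⟩

def h_12_24_7 : List F := [⟨0, -1, 1, 0, 0⟩, ⟨0, 0, 1, -1, 0⟩, ⟨1, 0, -1, 0, 2⟩, ⟨0, 0, -1, 0, 1⟩]

def t_12_24_7 : T := (.node (.cons (.keep [2,4,5,8] (.leaf 0 [(0,0)])) (.cons (.keep [0,2,3,5,8] (.node (.cons (.keep [2,4,6,8,9] (.node (.cons (.keep [4,5,7,8,9] (.node (.cons (.leaf 1 [(2,1),(9,1),(8,1)]) (.cons (.keep [2,6,7,8,9] (.node (.cons (.leaf 1 [(2,1)]) (.cons (.leaf 1 [(9,1),(2,1),(8,1),(5,1)]) (.cons (.leaf 1 []) (.cons (.keep [5,6,7,8,9] (.node (.cons (.leaf 1 [(2,1)]) (.cons (.leaf 1 [(2,1)]) (.cons (.leaf 1 [(8,1),(6,1)]) (.cons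 (.leaf 1 [(9,1),(0,1),(8,1)]) .nil)))))) .nil)))))) (.cons (.leaf 1 [(8,1),(9,1)]) (.cons (.keep [1,5,6,7,8,9] (.node (.cons (.leaf 1 [(2,1)]) (.cons (.leaf 1 [(10,1),(2,1),(9,1)]) (.cons (.leaf 1 []) (.cons (.keep [5,6,7,8,9,10] (.node (.cons (.leaf 1 [(2,1)]) (.cons (.leaf 1 [(2,1)]) (.cons (.leaf 1 [(7,1),(9,1)]) (.cons (.leaf 1 [(10,1),(0,1),(5,1),(9,1)]) .nil)))))) .nil)))))) .nil)))))) (.cons (.keep [3,5,7,8,9] (.node (.cons (.leaf 1 [(8,1),(2,1),(9,1)]) (.cons (.keep [2,5,6,7,8,9] (.node (.cons (.leaf 1 [(2,1)]) (.cons (.leaf 1 [(10,1),(2,1),(9,1),(5,1)]) (.cons (.leaf 1 []) (.cons (.keep [5,6,7,8,9,10] (.node (.cons (.leaf 1 [(2,1)]) (.cons (.leaf 1 [(2,1)]) (.cons (.leaf 1 [(6,1),(9,1),(7,1)]) (.cons (.leaf 1 [(10,1),(0,1),(9,1)]) .nil)))))) .nil)))))) (.cons (.leaf 1 [(8,1),(9,1)])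 (.cons (.keep [1,6,7,8,9] (.node (.cons (.leaf 1 [(2,1)]) (.cons (.leaf 1 [(9,1),(8,1),(2,1)]) (.cons (.leaf 1 []) (.cons (.keep [5,6,7,8,9] (.node (.cons (.leaf 1 [(2,1)]) (.cons (.leaf 1 [(2,1)]) (.cons (.leaf 1 [(5,1),(8,1),(6,1)]) (.cons (.leaf 1 [(9,1),(8,1),(0,1),(5,1)]) .nil)))))) .nil)))))) .nil)))))) (.cons (.keep [1,4,5,6,7,8] (.node (.cons (.leaf 1 [(2,1),(10,1)]) (.cons (.keep [2,5,7,8,9,10] (.node (.cons (.leaf 1 [(2,1)]) (.cons (.leaf 1 [(2,1),(10,1),(5,1)]) (.cons (.leaf 1 []) (.cons (.keep [5,6,7,8,9,10] (.node (.cons (.leaf 1 [(2,1)]) (.cons (.leaf 1 [(2,1)]) (.cons (.leaf 1 [(8,1)]) (.cons (.leaf 1 [(0,1),(10,1)]) .nil)))))) .nil)))))) (.cons (.leaf 1 [(10,1)]) (.cons (.keep [1,3,5,6,7,8,10] (.node (.cons (.leaf 1 [(2,1)]) (.cons (.leaf 1 [(2,1),(11,1)]) (.cons (.leaf 1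 []) (.cons (.keep [3,5,7,8,9,10,11] (.node (.cons (.leaf 1 [(2,1)]) (.cons (.leaf 1 [(2,1)]) (.cons (.leaf 1 [(10,1)]) (.cons (.leaf 1 [(11,1),(0,1),(6,1)]) .nil)))))) .nil)))))) .nil)))))) (.cons (.keep [1,3,5,6,7,8] (.node (.cons (.leaf 1 [(10,1)]) (.cons (.keep [3,5,6,7,8,10] (.node (.cons (.leaf 1 [(2,1)]) (.cons (.leaf 1 [(2,1),(10,1)]) (.cons (.leaf 1 []) (.cons (.keep [3,6,7,8,9,10] (.node (.cons (.leaf 1 [(2,1)]) (.cons (.leaf 1 [(2,1)]) (.cons (.leaf 1 [(9,1)]) (.cons (.leaf 1 [(10,1),(0,1),(7,1)]) .nil)))))) .nil)))))) (.cons (.leaf 1 [(1,1),(10,1)]) (.cons (.keep [1,5,7,8,9,10] (.node (.cons (.leaf 1 [(2,1)]) (.cons (.leaf 1 [(5,1),(10,1),(2,1)]) (.cons (.leaf 1 []) (.cons (.keep [5,6,7,8,9,10] (.node (.cons (.leaf 1 [(2,1)]) (.cons (.leaf 1 [(2,1)]) (.cons (.leaf 1 [(8,1)]) (.cons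 (.leaf 1 [(10,1),(0,1),(5,2)]) .nil)))))) .nil)))))) .nil)))))) .nil)))))) (.cons (.keep [0,2,6,7,8,9] (.node (.cons (.keep [2,4,6,7,8,10] (.node (.cons (.leaf 1 [(2,1),(9,1)]) (.cons (.keep [2,5,7,8,9,10] (.node (.cons (.leaf 1 [(2,1)]) (.cons (.leaf 1 [(2,1),(9,1),(5,1)]) (.cons (.leaf 1 []) (.cons (.keep [5,6,7,8,9,10] (.node (.cons (.leaf 1 [(2,1)]) (.cons (.leaf 1 [(2,1)]) (.cons (.leaf 1 [(6,1)]) (.cons (.leaf 1 [(0,1),(9,1)]) .nil)))))) .nil)))))) (.cons (.leaf 1 [(9,1)]) (.cons (.keep [1,5,6,7,8,9,10] (.node (.cons (.leaf 1 [(2,1)]) (.cons (.leaf 1 [(2,1),(10,1)]) (.cons (.leaf 1 []) (.cons (.keep [5,6,7,8,9,10,11] (.node (.cons (.leaf 1 [(2,1)]) (.cons (.leaf 1 [(2,1)]) (.cons (.leaf 1 [(6,1)]) (.cons (.leaf 1 [(10,1),(0,1),(5,1)]) .nil)))))) .nil)))))) .nil)))))) (.cons (.keep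 [2,6,7,9,10] (.node (.cons (.leaf 1 [(8,1)]) (.cons (.keep [5,6,7,8,9] (.node (.cons (.leaf 1 [(2,1)]) (.cons (.leaf 1 [(2,1),(8,1)]) (.cons (.leaf 1 []) (.cons (.keep [5,6,7,8,9] (.node (.cons (.leaf 1 [(2,1)]) (.cons (.leaf 1 [(2,1)]) (.cons (.leaf 1 [(5,1)]) (.cons (.leaf 1 [(9,1),(8,1),(0,1),(5,1)]) .nil)))))) .nil)))))) (.cons (.leaf 1 [(1,1),(8,1)]) (.cons (.keep [5,6,7,8,9] (.node (.cons (.leaf 1 [(2,1)]) (.cons (.leaf 1 [(9,1),(5,1),(8,1),(2,1)]) (.cons (.leaf 1 []) (.cons (.keep [5,6,7,8,9] (.node (.cons (.leaf 1 [(2,1)]) (.cons (.leaf 1 [(2,1)]) (.cons (.leaf 1 [(5,1)]) (.cons (.leaf 1 [(9,2),(8,1),(0,1),(5,2)]) .nil)))))) .nil)))))) .nil)))))) (.cons (.keep [4,5,6,8,9] (.node (.cons (.leaf 1 [(2,1),(8,1)]) (.cons (.keep [0,2,7,8,9] (.node (.cons (.leaf 1 [(2,1)]) (.cons (.leaf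 1 [(6,1),(2,1),(8,1)]) (.cons (.leaf 1 []) (.cons (.keep [0,5,6,7,8,9] (.node (.cons (.leaf 1 [(2,1)]) (.cons (.leaf 1 [(2,1)]) (.cons (.leaf 1 [(9,1),(5,1)]) (.cons (.leaf 1 [(0,1),(9,1)]) .nil)))))) .nil)))))) (.cons (.leaf 1 [(8,1)]) (.cons (.keep [0,1,5,7,8,9] (.node (.cons (.leaf 1 [(2,1)]) (.cons (.leaf 1 [(2,1),(9,1)]) (.cons (.leaf 1 []) (.cons (.keep [0,5,6,8,9,10] (.node (.cons (.leaf 1 [(2,1)]) (.cons (.leaf 1 [(2,1)]) (.cons (.leaf 1 [(7,1),(9,1),(5,1)]) (.cons (.leaf 1 [(0,1),(9,1),(7,1)]) .nil)))))) .nil)))))) .nil)))))) (.cons (.keep [0,3,6,8,9] (.node (.cons (.leaf 1 [(2,1),(8,1)]) (.cons (.keep [0,2,6,7,8,9] (.node (.cons (.leaf 1 [(2,1)]) (.cons (.leaf 1 [(6,1),(2,1),(9,1)]) (.cons (.leaf 1 []) (.cons (.keep [0,5,7,8,9,10] (.node (.cons (.leaf 1 [(2,1)]) (.cons (.leaf 1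 [(2,1)]) (.cons (.leaf 1 [(9,1),(5,1)]) (.cons (.leaf 1 [(0,1),(9,1)]) .nil)))))) .nil)))))) (.cons (.leaf 1 [(8,1)]) (.cons (.keep [0,1,7,8,9] (.node (.cons (.leaf 1 [(2,1)]) (.cons (.leaf 1 [(2,1),(8,1)]) (.cons (.leaf 1 []) (.cons (.keep [0,5,6,7,8,9] (.node (.cons (.leaf 1 [(2,1)]) (.cons (.leaf 1 [(2,1)]) (.cons (.leaf 1 [(7,1),(9,1),(5,1)]) (.cons (.leaf 1 [(0,1),(9,1),(7,1)]) .nil)))))) .nil)))))) .nil)))))) .nil)))))) (.cons (.keep [1,4,5,8,9] (.node (.cons (.keep [2,4,5,7,9] (.node (.cons (.leaf 1 [(2,1),(7,1)]) (.cons (.keep [0,2,5,7,9] (.node (.cons (.leaf 1 [(2,1)]) (.cons (.leaf 1 [(2,1),(8,1),(6,1)]) (.cons (.leaf 1 []) (.cons (.keep [0,5,6,8,9] (.node (.cons (.leaf 1 [(2,1)]) (.cons (.leaf 1 [(2,1)]) (.cons (.leaf 1 [(8,1),(5,1)]) (.cons (.leaf 1 [(0,1),(8,1)]) .nil))))))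 .nil)))))) (.cons (.leaf 1 [(7,1)]) (.cons (.keep [0,1,5,6,7,9] (.node (.cons (.leaf 1 [(2,1)]) (.cons (.leaf 1 [(2,1),(9,1)]) (.cons (.leaf 1 []) (.cons (.keep [0,5,6,9,10] (.node (.cons (.leaf 1 [(2,1)]) (.cons (.leaf 1 [(2,1)]) (.cons (.leaf 1 [(7,1),(8,1),(5,1)]) (.cons (.leaf 1 [(0,1),(8,1),(7,1)]) .nil)))))) .nil)))))) .nil)))))) (.cons (.keep [3,5,7,8,9] (.node (.cons (.leaf 1 [(2,1),(6,1)]) (.cons (.keep [0,2,5,6,8,9] (.node (.cons (.leaf 1 [(2,1)]) (.cons (.leaf 1 [(6,1),(2,1),(8,1)]) (.cons (.leaf 1 []) (.cons (.keep [0,5,6,8,10] (.node (.cons (.leaf 1 [(2,1)]) (.cons (.leaf 1 [(2,1)]) (.cons (.leaf 1 [(8,1),(5,1)]) (.cons (.leaf 1 [(0,1),(8,1)]) .nil)))))) .nil)))))) (.cons (.leaf 1 [(6,1)]) (.cons (.keep [0,1,6,8,9] (.node (.cons (.leaf 1 [(2,1)]) (.cons (.leaf 1 [(2,1),(7,1)])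 (.cons (.leaf 1 []) (.cons (.keep [0,5,6,7,9] (.node (.cons (.leaf 1 [(2,1)]) (.cons (.leaf 1 [(2,1)]) (.cons (.leaf 1 [(7,1),(8,1),(5,1)]) (.cons (.leaf 1 [(0,1),(8,1),(7,1)]) .nil)))))) .nil)))))) .nil)))))) (.cons (.keep [1,4,5,6,7] (.node (.cons (.leaf 1 [(2,1),(7,1)]) (.cons (.keep [0,2,5,7,8] (.node (.cons (.leaf 1 [(2,1)]) (.cons (.leaf 1 [(6,1),(2,1),(8,1)]) (.cons (.leaf 1 []) (.cons (.keep [0,5,6,7,8] (.node (.cons (.leaf 1 [(2,1)]) (.cons (.leaf 1 [(2,1)]) (.cons (.leaf 1 [(9,1),(5,1)]) (.cons (.leaf 1 [(0,1),(9,1)]) .nil)))))) .nil)))))) (.cons (.leaf 1 [(7,1)]) (.cons (.keep [0,1,5,6,7,8] (.node (.cons (.leaf 1 [(2,1)]) (.cons (.leaf 1 [(2,1),(9,1)]) (.cons (.leaf 1 []) (.cons (.keep [0,5,6,7,9] (.node (.cons (.leaf 1 [(2,1)]) (.cons (.leaf 1 [(2,1)]) (.cons (.leaf 1 [(7,1),(9,1),(5,1)])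 (.cons (.leaf 1 [(0,1),(9,1),(7,1)]) .nil)))))) .nil)))))) .nil)))))) (.cons (.keep [1,3,5,6,7,8] (.node (.cons (.leaf 1 [(2,1),(7,1)]) (.cons (.keep [0,2,5,6,7,8] (.node (.cons (.leaf 1 [(2,1)]) (.cons (.leaf 1 [(6,1),(2,1),(9,1)]) (.cons (.leaf 1 []) (.cons (.keep [0,5,6,7,8,9] (.node (.cons (.leaf 1 [(2,1)]) (.cons (.leaf 1 [(2,1)]) (.cons (.leaf 1 [(10,1),(5,1)]) (.cons (.leaf 1 [(0,1),(10,1)]) .nil)))))) .nil)))))) (.cons (.leaf 1 [(7,1)]) (.cons (.keep [0,1,5,7,8,10] (.node (.cons (.leaf 1 [(2,1)]) (.cons (.leaf 1 [(2,1),(8,1)]) (.cons (.leaf 1 []) (.cons (.keep [0,5,6,7,8] (.node (.cons (.leaf 1 [(2,1)]) (.cons (.leaf 1 [(2,1)]) (.cons (.leaf 1 [(7,1),(9,1),(5,1)]) (.cons (.leaf 1 [(0,1),(9,1),(7,1)]) .nil)))))) .nil)))))) .nil)))))) .nil)))))) (.cons (.keep [0,1,6,8,9] (.node (.cons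 (.keep [2,4,5,6,9] (.node (.cons (.leaf 1 [(2,1),(8,1)]) (.cons (.keep [0,2,5,8,9] (.node (.cons (.leaf 1 [(2,1)]) (.cons (.leaf 1 [(2,1),(8,1),(6,1)]) (.cons (.leaf 1 []) (.cons (.keep [0,5,6,8,9] (.node (.cons (.leaf 1 [(2,1)]) (.cons (.leaf 1 [(2,1)]) (.cons (.leaf 1 [(8,1),(5,1)]) (.cons (.leaf 1 [(0,1),(8,1)]) .nil)))))) .nil)))))) (.cons (.leaf 1 [(8,1)]) (.cons (.keep [0,1,5,6,8,9] (.node (.cons (.leaf 1 [(2,1)]) (.cons (.leaf 1 [(2,1),(9,1)]) (.cons (.leaf 1 []) (.cons (.keep [0,5,6,9,10] (.node (.cons (.leaf 1 [(2,1)]) (.cons (.leaf 1 [(2,1)]) (.cons (.leaf 1 [(7,1),(8,1),(5,1)]) (.cons (.leaf 1 [(0,1),(8,1),(7,1)]) .nil)))))) .nil)))))) .nil)))))) (.cons (.keep [2,5,6,8,9] (.node (.cons (.leaf 1 [(2,1),(7,1)]) (.cons (.keep [0,2,5,7,9] (.node (.cons (.leaf 1 [(2,1)]) (.cons (.leaf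 1 [(2,1),(8,1),(6,1)]) (.cons (.leaf 1 []) (.cons (.keep [0,5,6,8,9] (.node (.cons (.leaf 1 [(2,1)]) (.cons (.leaf 1 [(2,1)]) (.cons (.leaf 1 [(8,1),(5,1)]) (.cons (.leaf 1 [(0,1),(8,1)]) .nil)))))) .nil)))))) (.cons (.leaf 1 [(7,1)]) (.cons (.keep [0,5,7,8,9] (.node (.cons (.leaf 1 [(2,1)]) (.cons (.leaf 1 [(2,1),(7,1)]) (.cons (.leaf 1 []) (.cons (.keep [0,5,6,7,8,9] (.node (.cons (.leaf 1 [(2,1)]) (.cons (.leaf 1 [(2,1)]) (.cons (.leaf 1 [(7,1)]) (.cons (.leaf 1 [(10,1),(8,1),(0,1),(7,1)]) .nil)))))) .nil)))))) .nil)))))) (.cons (.keep [1,4,5,6] (.node (.cons (.leaf 1 [(2,1),(8,1)]) (.cons (.keep [0,2,5,8] (.node (.cons (.leaf 1 [(2,1)]) (.cons (.leaf 1 [(6,1),(2,1),(8,1)]) (.cons (.leaf 1 []) (.cons (.keep [0,5,6,7,8] (.node (.cons (.leaf 1 [(2,1)]) (.cons (.leaf 1 [(2,1)]) (.cons (.leaf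 1 [(9,1),(5,1)]) (.cons (.leaf 1 [(0,1),(9,1)]) .nil)))))) .nil)))))) (.cons (.leaf 1 [(8,1)]) (.cons (.keep [0,1,5,6,8] (.node (.cons (.leaf 1 [(2,1)]) (.cons (.leaf 1 [(2,1),(9,1)]) (.cons (.leaf 1 []) (.cons (.keep [0,5,6,7,9] (.node (.cons (.leaf 1 [(2,1)]) (.cons (.leaf 1 [(2,1)]) (.cons (.leaf 1 [(7,1),(9,1),(5,1)]) (.cons (.leaf 1 [(0,1),(9,1),(7,1)]) .nil)))))) .nil)))))) .nil)))))) (.cons (.keep [0,3,6,8] (.node (.cons (.leaf 1 [(2,1),(7,1)]) (.cons (.keep [0,2,6,7,8] (.node (.cons (.leaf 1 [(2,1)]) (.cons (.leaf 1 [(6,1),(2,1),(8,1)]) (.cons (.leaf 1 []) (.cons (.keep [0,5,7,8,9] (.node (.cons (.leaf 1 [(2,1)]) (.cons (.leaf 1 [(2,1)]) (.cons (.leaf 1 [(8,1),(5,1)]) (.cons (.leaf 1 [(0,1),(8,1)]) .nil)))))) .nil)))))) (.cons (.leaf 1 [(7,1)]) (.cons (.keep [0,1,7,8] (.node (.cons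 (.leaf 1 [(2,1)]) (.cons (.leaf 1 [(2,1),(7,1)]) (.cons (.leaf 1 []) (.cons (.keep [0,5,6,7,8] (.node (.cons (.leaf 1 [(2,1)]) (.cons (.leaf 1 [(2,1)]) (.cons (.leaf 1 [(7,1),(8,1),(5,1)]) (.cons (.leaf 1 [(0,1),(8,1),(7,1)]) .nil)))))) .nil)))))) .nil)))))) .nil)))))) .nil)))))) (.cons (.keep [1,4,5,6,7] (.node (.cons (.leaf 1 [(2,1),(7,1)]) (.cons (.keep [0,2,5,7,8] (.node (.cons (.leaf 1 [(2,1)]) (.cons (.leaf 1 [(6,1),(2,1),(8,1)]) (.cons (.leaf 1 []) (.cons (.keep [0,5,6,7,8] (.node (.cons (.leaf 1 [(2,1)]) (.cons (.leaf 1 [(2,1)]) (.cons (.leaf 1 [(9,1),(5,1)]) (.cons (.leaf 1 [(0,1),(9,1)]) .nil)))))) .nil)))))) (.cons (.leaf 1 [(7,1)]) (.cons (.keep [0,1,5,6,7,8] (.node (.cons (.leaf 1 [(2,1)]) (.cons (.leaf 1 [(2,1),(9,1)]) (.cons (.leaf 1 []) (.cons (.keep [0,5,6,7,9] (.node (.cons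 (.leaf 1 [(2,1)]) (.cons (.leaf 1 [(2,1)]) (.cons (.leaf 1 [(7,1),(9,1),(5,1)]) (.cons (.leaf 1 [(0,1),(9,1),(7,1)]) .nil)))))) .nil)))))) .nil)))))) (.cons (.keep [1,3,5,6,7] (.node (.cons (.leaf 1 [(7,1)]) (.cons (.keep [0,2,5,6,7,8] (.node (.cons (.leaf 1 [(8,1),(2,1)]) (.cons (.leaf 1 [(2,1),(9,1)]) (.cons (.leaf 1 [(8,1)]) (.cons (.keep [0,5,7,8,9] (.node (.cons (.leaf 1 [(2,1),(8,1)]) (.cons (.leaf 1 [(2,1),(8,1)]) (.cons (.leaf 1 [(8,2),(9,1),(5,1)]) (.cons (.leaf 1 [(0,1),(9,1),(8,2)]) .nil)))))) .nil)))))) (.cons (.leaf 1 [(7,1),(1,1)]) (.cons (.keep [0,1,5,7,8] (.node (.cons (.leaf 1 [(6,1),(2,1)]) (.cons (.leaf 1 [(6,1),(2,1),(8,1)]) (.cons (.leaf 1 [(6,1)]) (.cons (.keep [0,5,6,7,8] (.node (.cons (.leaf 1 [(2,1),(7,1)]) (.cons (.leaf 1 [(2,1),(7,1)]) (.cons (.leaf 1 [(7,3),(9,1),(5,1)])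 (.cons (.leaf 1 [(0,1),(9,1),(7,3)]) .nil)))))) .nil)))))) .nil)))))) .nil)))))

theorem c_12_24_7 : Concl 12 24 z_12_24_7 h_12_24_7 .nd := piece _ (hP_cons E33.c_12_24_5 hP_nil)
  t_12_24_7 _ _ (by decide +kernel)

def t_12_24 : T := (.keep [0,1,2] (.node (.cons (.keep [2,4,5,6] (.node (.cons (.keep [2,4,7,8] (.leaf 0 [(0,0)])) (.cons (.keep [0,2,3,5,7,8] (.node (.cons (.keep [2,4,6,7,9] (.node (.cons (.leaf 1 [(8,1),(2,1)]) (.cons (.keep [2,5,7,8,9] (.node (.cons (.leaf 1 [(2,1),(5,1),(8,1)]) (.cons (.leaf 1 [(5,1),(2,1),(8,1)]) (.cons (.leaf 1 [(8,1),(7,1)]) (.cons (.keep [0,5,7,8,9] (.node (.cons (.leaf 1 [(2,1),(7,1)]) (.cons (.leaf 1 [(8,1),(7,1),(2,1)]) (.cons (.leaf 1 [(7,1)]) (.cons (.leaf 1 [(7,1),(8,2),(0,1)]) .nil)))))) .nil)))))) (.cons (.leaf 1 [(8,1)]) (.cons (.keep [1,5,6,7,8,9]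 (.node (.cons (.leaf 1 [(2,1),(9,1)]) (.cons (.leaf 1 [(2,1),(9,1)]) (.cons (.leaf 1 [(9,1),(8,1)]) (.cons (.keep [5,6,7,8,9,10] (.node (.cons (.leaf 1 [(2,1),(8,1)]) (.cons (.leaf 1 [(2,1),(8,1),(9,1)]) (.cons (.leaf 1 [(8,1)]) (.cons (.leaf 1 [(5,1),(8,1),(9,2),(0,1)]) .nil)))))) .nil)))))) .nil)))))) (.cons (.keep [2,3,6,7,9] (.node (.cons (.leaf 1 [(8,1)]) (.cons (.keep [2,5,6,7,8,9] (.node (.cons (.leaf 1 [(2,1),(9,1)]) (.cons (.leaf 1 [(2,1),(9,1)]) (.cons (.leaf 1 [(8,1),(9,1),(7,1)]) (.cons (.keep [5,6,7,8,9,10] (.node (.cons (.leaf 1 [(2,1),(8,1),(7,1)]) (.cons (.leaf 1 [(7,1),(8,1),(9,1),(2,1)]) (.cons (.leaf 1 [(7,1),(8,1)]) (.cons (.leaf 1 [(7,2),(8,1),(9,2),(0,1)]) .nil)))))) .nil)))))) (.cons (.leaf 1 [(1,1),(8,1)]) (.cons (.keep [0,1,5,7,8,9] (.node (.cons (.leaf 1 [(9,1),(2,1),(6,1)])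 (.cons (.leaf 1 [(2,1),(9,1),(6,1)]) (.cons (.leaf 1 [(9,1),(6,1),(8,1)]) (.cons (.keep [0,6,8,9,10] (.node (.cons (.leaf 1 [(2,1),(7,1),(6,1)]) (.cons (.leaf 1 [(2,1),(7,1),(8,1),(6,1)]) (.cons (.leaf 1 [(6,1),(7,1)]) (.cons (.leaf 1 [(8,2),(0,1),(7,1),(6,3)]) .nil)))))) .nil)))))) .nil)))))) (.cons (.keep [1,4,5,6,9] (.node (.cons (.leaf 1 [(2,1)]) (.cons (.keep [0,2,5,8,9] (.node (.cons (.leaf 1 [(6,1),(2,1)]) (.cons (.leaf 1 [(6,1),(2,1)]) (.cons (.leaf 1 [(8,1)]) (.cons (.keep [0,6,7,8,9] (.node (.cons (.leaf 1 [(2,1),(8,1)]) (.cons (.leaf 1 [(2,1),(8,1)]) (.cons (.leaf 1 [(5,1),(8,1)]) (.cons (.leaf 1 [(8,1),(0,1)]) .nil)))))) .nil)))))) (.cons (.leaf 1 []) (.cons (.keep [0,1,5,6,8,9] (.node (.cons (.leaf 1 [(2,1)]) (.cons (.leaf 1 [(2,1)]) (.cons (.leaf 1 [(9,1)]) (.cons (.keep [0,6,7,9,10]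 (.node (.cons (.leaf 1 [(2,1),(8,1)]) (.cons (.leaf 1 [(2,1),(8,1)]) (.cons (.leaf 1 [(6,1),(5,1),(8,1)]) (.cons (.leaf 1 [(0,1),(8,1),(6,1)]) .nil)))))) .nil)))))) .nil)))))) (.cons (.keep [0,1,3,6,9] (.node (.cons (.leaf 1 []) (.cons (.keep [0,2,6,7,8,9] (.node (.cons (.leaf 1 [(2,1)]) (.cons (.leaf 1 [(2,1)]) (.cons (.leaf 1 [(9,1),(8,1)]) (.cons (.keep [0,7,8,9,10] (.node (.cons (.leaf 1 [(2,1),(8,1),(7,1)]) (.cons (.leaf 1 [(2,1),(8,1),(7,1)]) (.cons (.leaf 1 [(7,2),(5,1),(8,1)]) (.cons (.leaf 1 [(0,1),(8,1),(7,2)]) .nil)))))) .nil)))))) (.cons (.leaf 1 [(1,1)]) (.cons (.keep [0,1,6,8,9] (.node (.cons (.leaf 1 [(6,1),(2,1)]) (.cons (.leaf 1 [(6,1),(2,1)]) (.cons (.leaf 1 [(6,1),(8,1)]) (.cons (.keep [0,6,7,8,9] (.node (.cons (.leaf 1 [(2,1),(8,1),(6,1)]) (.cons (.leaf 1 [(2,1),(8,1),(6,1)])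 (.cons (.leaf 1 [(6,3),(5,1),(8,1)]) (.cons (.leaf 1 [(0,1),(6,3),(8,1)]) .nil)))))) .nil)))))) .nil)))))) .nil)))))) (.cons (.keep [1,4,5,6,8] (.leaf 0 [(1,0)])) (.cons (.keep [0,1,3,5,6,8] (.node (.cons (.keep [2,4,6,7,9,10] (.node (.cons (.leaf 1 [(8,1),(2,1)]) (.cons (.keep [2,5,7,8,9,10] (.node (.cons (.leaf 1 [(2,1),(5,1),(8,1)]) (.cons (.leaf 1 [(5,1),(2,1),(8,1)]) (.cons (.leaf 1 [(8,1),(9,1)]) (.cons (.keep [0,5,7,8,9,10] (.node (.cons (.leaf 1 [(2,1),(9,1)]) (.cons (.leaf 1 [(2,1),(8,1),(9,1)]) (.cons (.leaf 1 [(9,1)]) (.cons (.leaf 1 [(9,1),(8,2),(0,1)]) .nil)))))) .nil)))))) (.cons (.leaf 1 [(8,1)]) (.cons (.keep [1,3,5,6,7,8,9] (.node (.cons (.leaf 1 [(2,1),(10,1)]) (.cons (.leaf 1 [(2,1),(10,1)]) (.cons (.leaf 1 [(10,1),(11,1)]) (.cons (.keep [3,5,7,8,9,10,11] (.node (.cons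 (.leaf 1 [(2,1),(11,1)]) (.cons (.leaf 1 [(2,1),(11,1),(10,1)]) (.cons (.leaf 1 [(11,1)]) (.cons (.leaf 1 [(6,1),(11,1),(10,2),(0,1)]) .nil)))))) .nil)))))) .nil)))))) (.cons (.keep [2,3,6,7,8,9] (.node (.cons (.leaf 1 [(8,1)]) (.cons (.keep [2,5,6,7,8,9,10] (.node (.cons (.leaf 1 [(2,1),(9,1)]) (.cons (.leaf 1 [(2,1),(9,1)]) (.cons (.leaf 1 [(9,1),(7,1),(11,1)]) (.cons (.keep [5,6,7,8,9,10,11] (.node (.cons (.leaf 1 [(2,1),(11,1),(7,1)]) (.cons (.leaf 1 [(7,1),(11,1),(9,1),(2,1)]) (.cons (.leaf 1 [(7,1),(11,1)]) (.cons (.leaf 1 [(7,2),(11,1),(9,2),(0,1)]) .nil)))))) .nil)))))) (.cons (.leaf 1 [(1,1),(8,1)]) (.cons (.keep [0,1,5,7,8,10] (.node (.cons (.leaf 1 [(9,1),(2,1),(6,1)]) (.cons (.leaf 1 [(2,1),(9,1),(6,1)]) (.cons (.leaf 1 [(9,1),(6,1),(10,1)]) (.cons (.keep [0,5,6,8,9,10] (.node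 (.cons (.leaf 1 [(2,1),(10,1),(7,1)]) (.cons (.leaf 1 [(2,1),(10,1),(9,1),(7,1)]) (.cons (.leaf 1 [(7,1),(10,1)]) (.cons (.leaf 1 [(0,1),(10,1),(9,2),(7,3)]) .nil)))))) .nil)))))) .nil)))))) (.cons (.keep [1,4,5,6,9] (.node (.cons (.leaf 1 [(2,1)]) (.cons (.keep [0,2,5,8,9] (.node (.cons (.leaf 1 [(6,1),(2,1)]) (.cons (.leaf 1 [(6,1),(2,1)]) (.cons (.leaf 1 [(9,1)]) (.cons (.keep [0,5,6,7,8,9] (.node (.cons (.leaf 1 [(2,1),(10,1)]) (.cons (.leaf 1 [(2,1),(10,1)]) (.cons (.leaf 1 [(5,1),(10,1)]) (.cons (.leaf 1 [(10,1),(0,1)]) .nil)))))) .nil)))))) (.cons (.leaf 1 []) (.cons (.keep [0,1,5,6,8,9] (.node (.cons (.leaf 1 [(2,1)]) (.cons (.leaf 1 [(2,1)]) (.cons (.leaf 1 [(10,1)]) (.cons (.keep [0,5,6,7,9,10] (.node (.cons (.leaf 1 [(2,1),(10,1)]) (.cons (.leaf 1 [(2,1),(10,1)]) (.cons (.leaf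 1 [(7,1),(5,1),(10,1)]) (.cons (.leaf 1 [(0,1),(10,1),(7,1)]) .nil)))))) .nil)))))) .nil)))))) (.cons (.keep [0,1,3,6,9] (.node (.cons (.leaf 1 []) (.cons (.keep [0,2,6,7,8,9] (.node (.cons (.leaf 1 [(2,1)]) (.cons (.leaf 1 [(2,1)]) (.cons (.leaf 1 [(10,1),(8,1)]) (.cons (.keep [0,5,7,8,9,10] (.node (.cons (.leaf 1 [(2,1),(10,1),(8,1)]) (.cons (.leaf 1 [(2,1),(10,1),(8,1)]) (.cons (.leaf 1 [(8,2),(5,1),(10,1)]) (.cons (.leaf 1 [(0,1),(10,1),(8,2)]) .nil)))))) .nil)))))) (.cons (.leaf 1 [(1,1)]) (.cons (.keep [0,1,6,8,9] (.node (.cons (.leaf 1 [(6,1),(2,1)]) (.cons (.leaf 1 [(6,1),(2,1)]) (.cons (.leaf 1 [(6,1),(9,1)]) (.cons (.keep [0,5,6,7,8,9] (.node (.cons (.leaf 1 [(2,1),(10,1),(7,1)]) (.cons (.leaf 1 [(2,1),(10,1),(7,1)]) (.cons (.leaf 1 [(7,3),(5,1),(10,1)]) (.cons (.leaf 1 [(0,1),(7,3),(10,1)])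 .nil)))))) .nil)))))) .nil)))))) .nil)))))) .nil)))))) (.cons (.keep [0,2,3,5,6] (.node (.cons (.keep [2,4,6,7,9] (.leaf 0 [(2,0)])) (.cons (.keep [0,2,3,6,7,9] (.node (.cons (.keep [2,4,6,7,9,10] (.node (.cons (.leaf 1 [(9,1),(2,1),(8,1)]) (.cons (.keep [2,5,7,8,9,10] (.node (.cons (.leaf 1 [(2,1),(8,1)]) (.cons (.leaf 1 [(5,1),(2,1),(9,1),(8,1)]) (.cons (.leaf 1 [(8,1)]) (.cons (.keep [3,5,6,7,8,9] (.node (.cons (.leaf 1 [(2,1)]) (.cons (.leaf 1 [(9,1),(2,1)]) (.cons (.leaf 1 []) (.cons (.leaf 1 [(10,1),(9,2),(0,1)]) .nil)))))) .nil)))))) (.cons (.leaf 1 [(9,1),(8,1)]) (.cons (.keep [1,5,6,7,8,9,10] (.node (.cons (.leaf 1 [(2,1),(9,1)]) (.cons (.leaf 1 [(2,1),(10,1),(9,1)]) (.cons (.leaf 1 [(9,1)]) (.cons (.keep [3,5,6,7,8,9,10] (.node (.cons (.leaf 1 [(2,1)]) (.cons (.leaf 1 [(10,1),(2,1)])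 (.cons (.leaf 1 []) (.cons (.leaf 1 [(6,1),(11,1),(10,2),(0,1)]) .nil)))))) .nil)))))) .nil)))))) (.cons (.keep [2,3,6,7,8,9] (.node (.cons (.leaf 1 [(10,1),(8,1)]) (.cons (.keep [2,5,6,7,8,9,10] (.node (.cons (.leaf 1 [(9,1),(2,1),(7,1)]) (.cons (.leaf 1 [(9,1),(2,1),(11,1)]) (.cons (.leaf 1 [(9,1),(7,1)]) (.cons (.keep [5,6,7,8,9,10,11] (.node (.cons (.leaf 1 [(2,1),(7,1)]) (.cons (.leaf 1 [(2,1),(9,1),(7,1)]) (.cons (.leaf 1 [(7,1)]) (.cons (.leaf 1 [(0,1),(11,1),(9,2),(7,2)]) .nil)))))) .nil)))))) (.cons (.leaf 1 [(10,1),(8,1),(1,1)]) (.cons (.keep [0,1,5,7,8,10] (.node (.cons (.leaf 1 [(9,1),(2,1),(6,1)]) (.cons (.leaf 1 [(9,1),(2,1),(10,1),(6,1)]) (.cons (.leaf 1 [(9,1),(6,1)]) (.cons (.keep [0,5,6,9,10] (.node (.cons (.leaf 1 [(2,1),(7,1)]) (.cons (.leaf 1 [(2,1),(8,1),(7,1)]) (.cons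 (.leaf 1 [(7,1)]) (.cons (.leaf 1 [(0,1),(9,1),(8,2),(7,3)]) .nil)))))) .nil)))))) .nil)))))) (.cons (.keep [1,4,5,6,9] (.node (.cons (.leaf 1 [(2,1),(9,1)]) (.cons (.keep [0,2,5,8,9] (.node (.cons (.leaf 1 [(2,1)]) (.cons (.leaf 1 [(6,1),(2,1),(9,1)]) (.cons (.leaf 1 []) (.cons (.keep [0,5,6,7,9] (.node (.cons (.leaf 1 [(2,1)]) (.cons (.leaf 1 [(2,1)]) (.cons (.leaf 1 [(9,1),(5,1)]) (.cons (.leaf 1 [(0,1),(9,1)]) .nil)))))) .nil)))))) (.cons (.leaf 1 [(9,1)]) (.cons (.keep [0,1,5,6,8,9] (.node (.cons (.leaf 1 [(2,1)]) (.cons (.leaf 1 [(2,1),(10,1)]) (.cons (.leaf 1 []) (.cons (.keep [0,5,6,7,10] (.node (.cons (.leaf 1 [(2,1)]) (.cons (.leaf 1 [(2,1)]) (.cons (.leaf 1 [(7,1),(9,1),(5,1)]) (.cons (.leaf 1 [(0,1),(9,1),(7,1)]) .nil)))))) .nil)))))) .nil)))))) (.cons (.keep [0,1,3,6,9] (.node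 (.cons (.leaf 1 [(9,1)]) (.cons (.keep [0,2,6,7,8,9] (.node (.cons (.leaf 1 [(8,1),(2,1)]) (.cons (.leaf 1 [(2,1),(10,1)]) (.cons (.leaf 1 [(8,1)]) (.cons (.keep [0,5,7,8,10] (.node (.cons (.leaf 1 [(2,1),(8,1)]) (.cons (.leaf 1 [(2,1),(8,1)]) (.cons (.leaf 1 [(8,2),(9,1),(5,1)]) (.cons (.leaf 1 [(0,1),(9,1),(8,2)]) .nil)))))) .nil)))))) (.cons (.leaf 1 [(9,1),(1,1)]) (.cons (.keep [0,1,6,8,9] (.node (.cons (.leaf 1 [(6,1),(2,1)]) (.cons (.leaf 1 [(6,1),(2,1),(9,1)]) (.cons (.leaf 1 [(6,1)]) (.cons (.keep [0,5,6,7,9] (.node (.cons (.leaf 1 [(2,1),(7,1)]) (.cons (.leaf 1 [(2,1),(7,1)]) (.cons (.leaf 1 [(7,3),(9,1),(5,1)]) (.cons (.leaf 1 [(0,1),(9,1),(7,3)]) .nil)))))) .nil)))))) .nil)))))) .nil)))))) (.cons (.keep [1,4,8,9] (.leaf 0 [(3,0)])) (.cons (.keep [0,1,3,6,8,9] (.node (.cons (.keep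 [2,4,6,7,9] (.node (.cons (.leaf 1 [(7,1),(2,1),(8,1)]) (.cons (.keep [0,2,5,7,8] (.node (.cons (.leaf 1 [(2,1),(9,1)]) (.cons (.leaf 1 [(6,1),(2,1),(8,1),(9,1)]) (.cons (.leaf 1 [(9,1)]) (.cons (.keep [0,5,6,8,9] (.node (.cons (.leaf 1 [(2,1)]) (.cons (.leaf 1 [(2,1),(9,1)]) (.cons (.leaf 1 []) (.cons (.leaf 1 [(8,1),(9,2),(0,1)]) .nil)))))) .nil)))))) (.cons (.leaf 1 [(7,1),(8,1)]) (.cons (.keep [0,1,5,6,7,8] (.node (.cons (.leaf 1 [(2,1),(10,1)]) (.cons (.leaf 1 [(2,1),(9,1),(10,1)]) (.cons (.leaf 1 [(10,1)]) (.cons (.keep [0,5,6,9,10] (.node (.cons (.leaf 1 [(2,1)]) (.cons (.leaf 1 [(2,1),(9,1)]) (.cons (.leaf 1 []) (.cons (.leaf 1 [(7,1),(8,1),(9,2),(0,1)]) .nil)))))) .nil)))))) .nil)))))) (.cons (.keep [2,3,6,7,9] (.node (.cons (.leaf 1 [(7,1),(8,1)]) (.cons (.keep [0,2,5,6,7,8] (.node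 (.cons (.leaf 1 [(10,1),(2,1),(8,1)]) (.cons (.leaf 1 [(10,1),(2,1),(9,1)]) (.cons (.leaf 1 [(10,1),(8,1)]) (.cons (.keep [0,5,8,9,10] (.node (.cons (.leaf 1 [(2,1),(7,1)]) (.cons (.leaf 1 [(2,1),(9,1),(7,1)]) (.cons (.leaf 1 [(7,1)]) (.cons (.leaf 1 [(0,1),(8,1),(9,2),(7,2)]) .nil)))))) .nil)))))) (.cons (.leaf 1 [(7,1),(8,1),(1,1)]) (.cons (.keep [0,1,5,7,8] (.node (.cons (.leaf 1 [(9,1),(2,1),(6,1)]) (.cons (.leaf 1 [(9,1),(2,1),(8,1),(6,1)]) (.cons (.leaf 1 [(9,1),(6,1)]) (.cons (.keep [0,5,6,8,9] (.node (.cons (.leaf 1 [(2,1),(7,1)]) (.cons (.leaf 1 [(2,1),(9,1),(7,1)]) (.cons (.leaf 1 [(7,1)]) (.cons (.leaf 1 [(0,1),(8,1),(9,2),(7,3)]) .nil)))))) .nil)))))) .nil)))))) (.cons (.keep [1,4,5,6] (.node (.cons (.leaf 1 [(2,1),(8,1)]) (.cons (.keep [0,2,5,8] (.node (.cons (.leaf 1 [(2,1)])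 (.cons (.leaf 1 [(6,1),(2,1),(8,1)]) (.cons (.leaf 1 []) (.cons (.keep [0,5,6,7,8] (.node (.cons (.leaf 1 [(2,1)]) (.cons (.leaf 1 [(2,1)]) (.cons (.leaf 1 [(9,1),(5,1)]) (.cons (.leaf 1 [(0,1),(9,1)]) .nil)))))) .nil)))))) (.cons (.leaf 1 [(8,1)]) (.cons (.keep [0,1,5,6,8] (.node (.cons (.leaf 1 [(2,1)]) (.cons (.leaf 1 [(2,1),(9,1)]) (.cons (.leaf 1 []) (.cons (.keep [0,5,6,7,9] (.node (.cons (.leaf 1 [(2,1)]) (.cons (.leaf 1 [(2,1)]) (.cons (.leaf 1 [(7,1),(9,1),(5,1)]) (.cons (.leaf 1 [(0,1),(9,1),(7,1)]) .nil)))))) .nil)))))) .nil)))))) (.cons (.keep [0,1,3,6] (.node (.cons (.leaf 1 [(8,1)]) (.cons (.keep [0,2,6,7,8] (.node (.cons (.leaf 1 [(8,1),(2,1)]) (.cons (.leaf 1 [(2,1),(9,1)]) (.cons (.leaf 1 [(8,1)]) (.cons (.keep [0,5,7,8,9] (.node (.cons (.leaf 1 [(2,1),(8,1)]) (.cons (.leaf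 1 [(2,1),(8,1)]) (.cons (.leaf 1 [(8,2),(9,1),(5,1)]) (.cons (.leaf 1 [(0,1),(9,1),(8,2)]) .nil)))))) .nil)))))) (.cons (.leaf 1 [(8,1),(1,1)]) (.cons (.keep [0,1,6,8] (.node (.cons (.leaf 1 [(6,1),(2,1)]) (.cons (.leaf 1 [(6,1),(2,1),(8,1)]) (.cons (.leaf 1 [(6,1)]) (.cons (.keep [0,5,6,7,8] (.node (.cons (.leaf 1 [(2,1),(7,1)]) (.cons (.leaf 1 [(2,1),(7,1)]) (.cons (.leaf 1 [(7,3),(9,1),(5,1)]) (.cons (.leaf 1 [(0,1),(9,1),(7,3)]) .nil)))))) .nil)))))) .nil)))))) .nil)))))) .nil)))))) (.cons (.leaf 1 []) (.cons (.leaf 1 [(3,1)]) .nil))))))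

theorem e_12_24 : ESB (caseOf 4 12 24) := esb_of_pieces _ (hP_cons c_12_24_3 (hP_cons c_12_24_2
  (hP_cons c_12_24_6 (hP_cons c_12_24_7 hP_nil)))) t_12_24 (by decide +kernel)

def ks : List (ℕ × ℕ) := [(12, 24)]

theorem ks_ok : ∀ p ∈ ks, ESB (caseOf 4 p.1 p.2) := ks_cons e_12_24 <| ks_nil

end Pool.Agent.H4.RD4.E34
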