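import Pool.Agent.H4.RD4.E37

/-! # Certificates for special cases of order four -/

set_option maxRecDepth 20000

namespace Pool.Agent.H4.RD4.E38

open Pool.Agent.H50.Rdb
open Pool.Agent.H81.RDE (ESB caseOf)

def z_14_24_9 : F := ⟨0, 1, 0, -1, 1⟩

def h_14_24_9 : List F := [⟨0, 1, 0, -2, 1⟩, ⟨-1, 1, 0, 0, 0⟩, ⟨0, 1, -1, 0, 0⟩, ⟨0, 0, -1, 1, 0⟩,
  ⟨0, 0, 0, -1, 1⟩]

def t_14_24_9 : T := (.node (.cons (.keep [5,6,7,9,10] (.node (.cons (.keep [2,5,7,8,9,10] (.node (.cons (.leaf 1 [(7,1),(10,2)]) (.cons (.keep [6,7,8,9,10,11] (.node (.cons (.leaf 1 [(3,1),(10,2)]) (.cons (.leaf 1 [(3,1),(10,2)]) (.cons (.leaf 1 [(7,1),(3,1),(10,2)]) (.cons (.leaf 1 [(7,1),(3,1),(10,2)]) (.cons (.keep [5,6,7,8,10] (.node (.cons (.leaf 1 [(3,1),(10,1)]) (.cons (.leaf 1 [(2,1),(10,2),(8,1)]) (.cons (.leaf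 1 [(10,1),(3,1)]) (.cons (.keep [0,3,8,9,10] (.node (.cons (.leaf 1 [(10,1),(3,1)]) (.cons (.leaf 1 [(10,1),(3,1)]) (.cons (.leaf 1 [(10,1),(3,1),(7,1)]) (.cons (.leaf 1 [(10,1),(3,1),(7,1)]) (.cons (.leaf 1 [(10,1),(8,1)]) (.cons (.leaf 1 [(10,3),(0,1),(8,1)]) .nil)))))))) (.cons (.leaf 1 [(10,1)]) (.cons (.keep [2,6,7,8,9,10] (.node (.cons (.leaf 1 [(3,1),(11,1),(6,1)]) (.cons (.leaf 1 [(3,1),(6,1),(11,1)]) (.cons (.leaf 1 [(11,1),(3,1)]) (.cons (.leaf 1 [(11,1),(3,1)]) (.cons (.leaf 1 [(11,1),(9,1)]) (.cons (.leaf 1 [(11,3),(6,1),(0,1),(9,1)]) .nil)))))))) .nil)))))))) (.cons (.keep [4,6,7,8,9,10] (.node (.cons (.leaf 1 [(3,1),(11,1)]) (.cons (.leaf 1 [(2,1),(11,2),(8,1)]) (.cons (.leaf 1 [(11,1),(3,1)]) (.cons (.keep [0,3,6,8,9,11] (.node (.cons (.leaf 1 [(11,1),(3,1)]) (.cons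 (.leaf 1 [(11,1),(3,1)]) (.cons (.leaf 1 [(11,1),(3,1),(7,1)]) (.cons (.leaf 1 [(11,1),(3,1),(7,1)]) (.cons (.leaf 1 [(11,1),(9,1)]) (.cons (.leaf 1 [(11,3),(0,1),(9,1)]) .nil)))))))) (.cons (.leaf 1 [(11,1)]) (.cons (.keep [2,7,8,9,10,11] (.node (.cons (.leaf 1 [(3,1),(11,1),(6,1)]) (.cons (.leaf 1 [(3,1),(6,1),(11,1)]) (.cons (.leaf 1 [(11,1),(3,1)]) (.cons (.leaf 1 [(11,1),(3,1)]) (.cons (.leaf 1 [(11,1),(8,1)]) (.cons (.leaf 1 [(11,3),(6,1),(0,1),(8,1)]) .nil)))))))) .nil)))))))) .nil)))))))) (.cons (.leaf 1 [(9,1),(1,1),(10,1)]) (.cons (.leaf 1 [(9,1),(1,1),(10,1)]) (.cons (.leaf 1 [(9,2),(7,1),(1,1)]) (.cons (.leaf 1 [(9,2),(7,1),(4,1),(1,1)]) .nil)))))))) (.cons (.keep [2,4,7,8,9,10] (.node (.cons (.leaf 1 [(10,2)]) (.cons (.keep [6,7,8,9,10,11] (.node (.cons (.leaf 1 [(3,1),(7,1),(10,2)])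 (.cons (.leaf 1 [(3,1),(7,1),(10,2)]) (.cons (.leaf 1 [(3,1),(10,2)]) (.cons (.leaf 1 [(3,1),(10,2)]) (.cons (.keep [5,6,7,8,10] (.node (.cons (.leaf 1 [(3,1),(6,1),(8,2)]) (.cons (.leaf 1 [(2,1),(10,2)]) (.cons (.leaf 1 [(3,2),(1,1),(8,2)]) (.cons (.keep [0,3,8,9,10] (.node (.cons (.leaf 1 [(10,1),(3,1)]) (.cons (.leaf 1 [(10,1),(8,1),(3,1)]) (.cons (.leaf 1 [(10,1),(3,1)]) (.cons (.leaf 1 [(10,1),(3,1),(8,1),(7,1)]) (.cons (.leaf 1 [(10,1)]) (.cons (.leaf 1 [(10,3),(8,1),(0,1)]) .nil)))))))) (.cons (.leaf 1 [(8,2),(6,1),(1,1)]) (.cons (.keep [0,2,8,9,10] (.node (.cons (.leaf 1 [(10,1),(3,1)]) (.cons (.leaf 1 [(3,1),(10,1),(8,1),(7,1)]) (.cons (.leaf 1 [(10,1),(3,1)]) (.cons (.leaf 1 [(10,1),(3,1),(8,1)]) (.cons (.leaf 1 [(10,1)]) (.cons (.leaf 1 [(10,3),(7,1),(8,1),(0,1)]) .nil))))))))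 .nil)))))))) (.cons (.keep [4,6,7,8,9,10] (.node (.cons (.leaf 1 [(3,1),(10,1),(8,2)]) (.cons (.leaf 1 [(2,1),(11,2)]) (.cons (.leaf 1 [(3,2),(1,1),(8,2)]) (.cons (.keep [0,3,6,8,9,11] (.node (.cons (.leaf 1 [(11,1),(3,1)]) (.cons (.leaf 1 [(11,1),(9,1),(3,1)]) (.cons (.leaf 1 [(11,1),(3,1)]) (.cons (.leaf 1 [(11,1),(3,1),(9,1),(7,1)]) (.cons (.leaf 1 [(11,1)]) (.cons (.leaf 1 [(11,3),(9,1),(0,1)]) .nil)))))))) (.cons (.leaf 1 [(8,2),(10,1),(1,1)]) (.cons (.keep [0,2,8,9,11] (.node (.cons (.leaf 1 [(10,1),(3,1)]) (.cons (.leaf 1 [(3,1),(10,1),(8,1),(7,1)]) (.cons (.leaf 1 [(10,1),(3,1)]) (.cons (.leaf 1 [(10,1),(3,1),(8,1)]) (.cons (.leaf 1 [(10,1)]) (.cons (.leaf 1 [(10,3),(7,1),(8,1),(0,1)]) .nil)))))))) .nil)))))))) .nil)))))))) (.cons (.leaf 1 [(9,2),(7,2),(1,1)]) (.cons (.leaf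 1 [(9,2),(7,2),(1,1),(4,1)]) (.cons (.leaf 1 [(9,2),(1,1)]) (.cons (.leaf 1 [(9,2),(1,1),(4,1)]) .nil)))))))) (.cons (.keep [1,5,7,8,10] (.node (.cons (.leaf 1 [(7,1),(6,1)]) (.cons (.keep [0,6,7,9,10] (.node (.cons (.leaf 1 [(3,1),(7,1)]) (.cons (.leaf 1 [(3,1),(7,1)]) (.cons (.leaf 1 [(8,1),(3,1),(7,1)]) (.cons (.leaf 1 [(8,1),(3,1),(7,1)]) (.cons (.keep [5,6,7,8] (.node (.cons (.leaf 1 [(3,1)]) (.cons (.leaf 1 [(2,1),(8,1),(9,1)]) (.cons (.leaf 1 [(3,1)]) (.cons (.keep [0,3,7,8,9] (.node (.cons (.leaf 1 [(3,1)]) (.cons (.leaf 1 [(3,1)]) (.cons (.leaf 1 [(7,1),(3,1)]) (.cons (.leaf 1 [(7,1),(3,1)]) (.cons (.leaf 1 [(10,1)]) (.cons (.leaf 1 [(9,1),(0,1),(10,1)]) .nil)))))))) (.cons (.leaf 1 []) (.cons (.keep [0,2,7,8,9] (.node (.cons (.leaf 1 [(3,1),(7,1)]) (.cons (.leaf 1 [(3,1),(7,1)])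 (.cons (.leaf 1 [(3,1)]) (.cons (.leaf 1 [(3,1)]) (.cons (.leaf 1 [(10,1)]) (.cons (.leaf 1 [(9,1),(7,1),(0,1),(10,1)]) .nil)))))))) .nil)))))))) (.cons (.keep [4,6,7,8,9] (.node (.cons (.leaf 1 [(3,1)]) (.cons (.leaf 1 [(2,1),(8,1),(9,1)]) (.cons (.leaf 1 [(3,1)]) (.cons (.keep [0,3,6,7,8,9] (.node (.cons (.leaf 1 [(3,1)]) (.cons (.leaf 1 [(3,1)]) (.cons (.leaf 1 [(7,1),(3,1)]) (.cons (.leaf 1 [(7,1),(3,1)]) (.cons (.leaf 1 [(11,1)]) (.cons (.leaf 1 [(10,1),(0,1),(11,1)]) .nil)))))))) (.cons (.leaf 1 []) (.cons (.keep [0,2,7,8,9] (.node (.cons (.leaf 1 [(3,1),(7,1)]) (.cons (.leaf 1 [(3,1),(7,1)]) (.cons (.leaf 1 [(3,1)]) (.cons (.leaf 1 [(3,1)]) (.cons (.leaf 1 [(10,1)]) (.cons (.leaf 1 [(9,1),(7,1),(0,1),(10,1)]) .nil)))))))) .nil)))))))) .nil)))))))) (.cons (.leaf 1 [(6,1),(3,1),(1,1)])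 (.cons (.leaf 1 [(9,1),(1,1)]) (.cons (.leaf 1 [(6,1),(7,1),(1,1)]) (.cons (.leaf 1 [(7,1),(9,1),(1,1)]) .nil)))))))) (.cons (.keep [1,4,7,8,10] (.node (.cons (.leaf 1 [(6,1)]) (.cons (.keep [0,6,7,9,10] (.node (.cons (.leaf 1 [(3,1),(8,1),(7,1)]) (.cons (.leaf 1 [(3,1),(8,1),(7,1)]) (.cons (.leaf 1 [(3,1),(7,1)]) (.cons (.leaf 1 [(3,1),(7,1)]) (.cons (.keep [5,6,7,8] (.node (.cons (.leaf 1 [(2,1),(8,1)]) (.cons (.leaf 1 [(2,1),(8,1)]) (.cons (.leaf 1 [(3,1),(9,1)]) (.cons (.keep [0,3,7,8,9] (.node (.cons (.leaf 1 [(3,1)]) (.cons (.leaf 1 [(3,1),(10,1)]) (.cons (.leaf 1 [(3,1)]) (.cons (.leaf 1 [(9,1),(3,1),(10,1),(0,1)]) (.cons (.leaf 1 []) (.cons (.leaf 1 [(9,1),(10,1),(0,1)]) .nil)))))))) (.cons (.leaf 1 [(9,1)]) (.cons (.keep [0,2,7,8,9] (.node (.cons (.leaf 1 [(3,1)]) (.cons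 (.leaf 1 [(3,1),(7,1),(10,1)]) (.cons (.leaf 1 [(3,1)]) (.cons (.leaf 1 [(3,1),(10,1)]) (.cons (.leaf 1 []) (.cons (.leaf 1 [(9,1),(7,1),(10,1),(0,1)]) .nil)))))))) .nil)))))))) (.cons (.keep [4,6,7,8,9] (.node (.cons (.leaf 1 [(2,1),(8,1)]) (.cons (.leaf 1 [(2,1),(8,1)]) (.cons (.leaf 1 [(3,1),(9,1)]) (.cons (.keep [0,3,6,7,8,9] (.node (.cons (.leaf 1 [(3,1)]) (.cons (.leaf 1 [(3,1),(11,1)]) (.cons (.leaf 1 [(3,1)]) (.cons (.leaf 1 [(10,1),(3,1),(11,1),(0,1)]) (.cons (.leaf 1 []) (.cons (.leaf 1 [(10,1),(11,1),(0,1)]) .nil)))))))) (.cons (.leaf 1 [(9,1)]) (.cons (.keep [0,2,7,8,9] (.node (.cons (.leaf 1 [(3,1)]) (.cons (.leaf 1 [(3,1),(7,1),(10,1)]) (.cons (.leaf 1 [(3,1)]) (.cons (.leaf 1 [(3,1),(10,1)]) (.cons (.leaf 1 []) (.cons (.leaf 1 [(9,1),(7,1),(10,1),(0,1)]) .nil))))))))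 .nil)))))))) .nil)))))))) (.cons (.leaf 1 [(6,1),(1,1)]) (.cons (.leaf 1 [(9,1),(7,1),(1,1)]) (.cons (.leaf 1 [(6,1),(1,1)]) (.cons (.leaf 1 [(9,1),(1,1)]) .nil)))))))) (.cons (.leaf 1 [(8,1)]) (.cons (.leaf 1 [(8,1),(4,1)]) .nil)))))))) (.cons (.keep [0,7,9,10] (.node (.cons (.leaf 1 [(8,1),(7,1)]) (.cons (.leaf 1 [(8,1),(7,1),(4,1)]) (.cons (.leaf 1 [(7,1)]) (.cons (.leaf 1 [(7,1),(4,1)]) (.cons (.keep [5,6,7,8] (.node (.cons (.leaf 1 [(2,1),(8,1)]) (.cons (.leaf 1 [(2,1),(8,1)]) (.cons (.leaf 1 [(3,1),(9,1)]) (.cons (.keep [0,3,7,8,9] (.node (.cons (.leaf 1 [(3,1)]) (.cons (.leaf 1 [(3,1),(10,1)]) (.cons (.leaf 1 [(3,1)]) (.cons (.leaf 1 [(9,1),(3,1),(10,1),(0,1)]) (.cons (.leaf 1 []) (.cons (.leaf 1 [(9,1),(10,1),(0,1)]) .nil)))))))) (.cons (.leaf 1 [(9,1)]) (.cons (.keep [0,2,7,8,9]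 (.node (.cons (.leaf 1 [(3,1)]) (.cons (.leaf 1 [(3,1),(7,1),(10,1)]) (.cons (.leaf 1 [(3,1)]) (.cons (.leaf 1 [(3,1),(10,1)]) (.cons (.leaf 1 []) (.cons (.leaf 1 [(9,1),(7,1),(10,1),(0,1)]) .nil)))))))) .nil)))))))) (.cons (.keep [0,4,7,8] (.node (.cons (.leaf 1 [(2,1),(7,1),(8,1)]) (.cons (.leaf 1 [(2,1),(7,1),(8,1)]) (.cons (.leaf 1 [(9,1)]) (.cons (.keep [0,6,7,8,9] (.node (.cons (.leaf 1 [(3,1),(8,1)]) (.cons (.leaf 1 [(3,1),(8,1),(10,1)]) (.cons (.leaf 1 [(1,1),(3,1)]) (.cons (.leaf 1 [(3,1),(10,1)]) (.cons (.leaf 1 [(8,1)]) (.cons (.leaf 1 [(10,1),(8,2),(9,1),(0,1)]) .nil)))))))) (.cons (.leaf 1 [(9,1),(2,1)]) (.cons (.keep [0,2,6,8,9] (.node (.cons (.leaf 1 [(3,1),(7,1)]) (.cons (.leaf 1 [(3,1),(7,2),(10,1)]) (.cons (.leaf 1 [(1,1),(3,1)]) (.cons (.leaf 1 [(1,1),(3,1),(10,1)])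 (.cons (.leaf 1 [(7,1)]) (.cons (.leaf 1 [(10,1),(7,3),(9,1),(0,1)]) .nil)))))))) .nil)))))))) .nil)))))))) (.cons (.leaf 1 [(1,1),(9,1)]) (.cons (.leaf 1 [(9,1),(1,1)]) (.cons (.leaf 1 [(1,1)]) (.cons (.leaf 1 [(1,1)]) .nil)))))))

theorem c_14_24_9 : Concl 14 24 z_14_24_9 h_14_24_9 .nd := piece _ hP_nil t_14_24_9 _ _ (by
  decide +kernel)

def z_14_24_10 : F := ⟨0, 1, -1, 0, 1⟩

def h_14_24_10 : List F := [⟨-1, 1, 0, 0, 0⟩, ⟨0, 1, -1, 0, 0⟩, ⟨0, 0, 1, -1, 0⟩, ⟨0, 0, -1, 0,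
  1⟩]

def t_14_24_10 : T := (.node (.cons (.keep [3,5,6,8,9] (.node (.cons (.keep [2,5,7,8,10] (.node (.cons (.leaf 1 [(9,1),(7,1),(10,1)]) (.cons (.keep [2,6,7,9,10] (.node (.cons (.leaf 1 [(3,2),(10,1)]) (.cons (.leaf 1 [(9,1),(10,1),(3,1)]) (.cons (.leaf 1 [(8,1),(3,2),(10,1)]) (.cons (.leaf 1 [(8,1),(9,1),(10,1),(3,1)]) (.cons (.keep [5,6,7,8,10] (.node (.cons (.leaf 1 [(3,1)]) (.cons (.leaf 1 [(2,1),(10,1),(9,1)]) (.cons (.leaf 1 [(3,1)]) (.cons (.keep [0,3,7,9,10] (.node (.cons (.leaf 1 [(3,1)]) (.cons (.leaf 1 [(3,1)]) (.cons (.leaf 1 [(7,1),(3,1)]) (.cons (.leaf 1 [(7,1),(3,1)]) (.cons (.leaf 1 [(9,1)]) (.cons (.leaf 1 [(10,1),(0,1),(9,1)]) .nil)))))))) (.cons (.leaf 1 []) (.cons (.keep [2,4,6,8,9,10] (.node (.cons (.leaf 1 [(3,1),(6,1)]) (.cons (.leaf 1 [(3,1),(6,1)])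 (.cons (.leaf 1 [(3,1)]) (.cons (.leaf 1 [(3,1)]) (.cons (.leaf 1 [(10,1)]) (.cons (.leaf 1 [(11,1),(6,1),(0,1),(10,1)]) .nil)))))))) .nil)))))))) (.cons (.keep [6,7,8,9,10] (.node (.cons (.leaf 1 [(3,1)]) (.cons (.leaf 1 [(3,1),(10,1),(8,1)]) (.cons (.leaf 1 [(3,1)]) (.cons (.keep [0,3,4,8,10] (.node (.cons (.leaf 1 [(3,1)]) (.cons (.leaf 1 [(3,1)]) (.cons (.leaf 1 [(7,1),(3,1)]) (.cons (.leaf 1 [(7,1),(3,1)]) (.cons (.leaf 1 [(9,1)]) (.cons (.leaf 1 [(7,1),(10,1),(0,1),(9,1)]) .nil)))))))) (.cons (.leaf 1 []) (.cons (.keep [6,7,8,9,10] (.node (.cons (.leaf 1 [(3,1),(8,1)]) (.cons (.leaf 1 [(3,1),(10,1),(7,1)]) (.cons (.leaf 1 [(3,1)]) (.cons (.leaf 1 [(3,1)]) (.cons (.leaf 1 [(8,1)]) (.cons (.leaf 1 [(10,1),(0,1),(8,1)]) .nil)))))))) .nil)))))))) .nil)))))))) (.cons (.leaf 1 [(9,1),(1,1)])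 (.cons (.leaf 1 [(9,1),(1,1)]) (.cons (.leaf 1 [(9,1),(7,1),(1,1)]) (.cons (.leaf 1 [(9,1),(7,1),(1,1)]) .nil)))))))) (.cons (.keep [2,4,6,8,10] (.node (.cons (.leaf 1 [(9,1),(10,1)]) (.cons (.keep [4,6,7,9,10] (.node (.cons (.leaf 1 [(3,2),(8,1),(10,1)]) (.cons (.leaf 1 [(9,1),(8,1),(10,1),(3,1)]) (.cons (.leaf 1 [(3,2),(10,1)]) (.cons (.leaf 1 [(9,1),(10,1),(3,1)]) (.cons (.keep [2,5,7,8,10] (.node (.cons (.leaf 1 [(3,1),(9,1)]) (.cons (.leaf 1 [(2,1),(10,1)]) (.cons (.leaf 1 [(3,1),(9,1)]) (.cons (.keep [0,1,3,9,10] (.node (.cons (.leaf 1 [(3,1)]) (.cons (.leaf 1 [(3,1),(9,1)]) (.cons (.leaf 1 [(3,1)]) (.cons (.leaf 1 [(8,1),(3,1),(9,1)]) (.cons (.leaf 1 []) (.cons (.leaf 1 [(10,1),(9,1),(0,1)]) .nil)))))))) (.cons (.leaf 1 [(9,1)]) (.cons (.keep [0,2,6,9,10] (.node (.cons (.leaf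 1 [(3,1)]) (.cons (.leaf 1 [(3,1),(7,1),(9,1)]) (.cons (.leaf 1 [(3,1)]) (.cons (.leaf 1 [(3,1),(9,1)]) (.cons (.leaf 1 []) (.cons (.leaf 1 [(10,1),(7,1),(9,1),(0,1)]) .nil)))))))) .nil)))))))) (.cons (.keep [2,7,8,9,10] (.node (.cons (.leaf 1 [(3,1),(8,1)]) (.cons (.leaf 1 [(3,1),(10,1)]) (.cons (.leaf 1 [(3,1),(8,1)]) (.cons (.keep [0,3,4,8,10] (.node (.cons (.leaf 1 [(3,1)]) (.cons (.leaf 1 [(3,1),(9,1)]) (.cons (.leaf 1 [(3,1)]) (.cons (.leaf 1 [(7,1),(3,1),(9,1)]) (.cons (.leaf 1 []) (.cons (.leaf 1 [(7,1),(10,1),(9,1),(0,1)]) .nil)))))))) (.cons (.leaf 1 [(8,1)]) (.cons (.keep [0,6,7,8,9,10] (.node (.cons (.leaf 1 [(3,1)]) (.cons (.leaf 1 [(3,1),(11,1),(9,1),(0,1)]) (.cons (.leaf 1 [(3,1)]) (.cons (.leaf 1 [(3,1),(9,1)]) (.cons (.leaf 1 []) (.cons (.leaf 1 [(11,1),(9,1),(0,1)])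 .nil)))))))) .nil)))))))) .nil)))))))) (.cons (.leaf 1 [(9,1),(1,1),(7,1)]) (.cons (.leaf 1 [(9,1),(1,1),(7,1)]) (.cons (.leaf 1 [(9,1),(1,1)]) (.cons (.leaf 1 [(9,1),(1,1)]) .nil)))))))) (.cons (.keep [5,6,8,9,10] (.node (.cons (.leaf 1 [(6,1)]) (.cons (.keep [2,6,8,9,10] (.node (.cons (.leaf 1 [(3,1)]) (.cons (.leaf 1 [(3,1)]) (.cons (.leaf 1 [(7,1),(3,1)]) (.cons (.leaf 1 [(7,1),(3,1)]) (.cons (.keep [5,6,7,9,10] (.node (.cons (.leaf 1 [(2,1),(8,1)]) (.cons (.leaf 1 [(2,1),(8,1)]) (.cons (.leaf 1 [(3,1),(9,1)]) (.cons (.keep [3,7,8,9,10] (.node (.cons (.leaf 1 [(3,1),(9,1)]) (.cons (.leaf 1 [(3,1),(9,1)]) (.cons (.leaf 1 [(6,1),(3,1),(9,1)]) (.cons (.leaf 1 [(6,1),(3,1),(9,1)]) (.cons (.leaf 1 [(8,1),(9,1)]) (.cons (.leaf 1 [(0,1),(9,1),(8,1)]) .nil)))))))) (.cons (.leaf 1 [(9,1)])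 (.cons (.keep [0,2,4,8,9,10] (.node (.cons (.leaf 1 [(7,1),(3,1),(10,1)]) (.cons (.leaf 1 [(7,1),(3,1),(10,1)]) (.cons (.leaf 1 [(10,1),(3,1)]) (.cons (.leaf 1 [(10,1),(3,1)]) (.cons (.leaf 1 [(10,1),(9,1)]) (.cons (.leaf 1 [(7,1),(0,1),(10,1),(9,1)]) .nil)))))))) .nil)))))))) (.cons (.keep [1,7,8,9,10] (.node (.cons (.leaf 1 [(2,1),(7,1)]) (.cons (.leaf 1 [(2,1),(7,1)]) (.cons (.leaf 1 [(3,1),(9,1)]) (.cons (.keep [3,6,7,9,10] (.node (.cons (.leaf 1 [(3,1),(9,1)]) (.cons (.leaf 1 [(3,1),(9,1)]) (.cons (.leaf 1 [(6,1),(3,1),(9,1)]) (.cons (.leaf 1 [(6,1),(3,1),(9,1)]) (.cons (.leaf 1 [(8,1),(9,1)]) (.cons (.leaf 1 [(0,1),(9,1),(8,1)]) .nil)))))))) (.cons (.leaf 1 [(9,1)]) (.cons (.keep [0,6,7,9,10] (.node (.cons (.leaf 1 [(8,1),(3,1),(9,1)]) (.cons (.leaf 1 [(9,2),(10,1),(3,1)])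 (.cons (.leaf 1 [(9,1),(3,1)]) (.cons (.leaf 1 [(9,1),(3,1)]) (.cons (.leaf 1 [(9,1),(8,1)]) (.cons (.leaf 1 [(9,2),(10,1),(0,1),(8,1)]) .nil)))))))) .nil)))))))) .nil)))))))) (.cons (.leaf 1 [(1,1),(3,1)]) (.cons (.leaf 1 [(1,1),(8,1),(9,1)]) (.cons (.leaf 1 [(6,1),(1,1)]) (.cons (.leaf 1 [(1,1),(6,1),(8,1),(9,1)]) .nil)))))))) (.cons (.keep [4,6,8,9,10] (.node (.cons (.leaf 1 []) (.cons (.keep [4,6,8,9,10] (.node (.cons (.leaf 1 [(3,1),(7,1)]) (.cons (.leaf 1 [(3,1),(7,1)]) (.cons (.leaf 1 [(3,1)]) (.cons (.leaf 1 [(3,1)]) (.cons (.keep [2,5,7,9,10] (.node (.cons (.leaf 1 [(2,1)]) (.cons (.leaf 1 [(2,1)]) (.cons (.leaf 1 [(3,1),(9,1),(8,1)]) (.cons (.keep [0,1,3,8,9,10] (.node (.cons (.leaf 1 [(3,1),(10,1)]) (.cons (.leaf 1 [(3,1),(9,1),(10,1)]) (.cons (.leaf 1 [(10,1),(3,1)])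 (.cons (.leaf 1 [(10,1),(3,1),(9,1),(0,1)]) (.cons (.leaf 1 [(10,1)]) (.cons (.leaf 1 [(10,1),(9,1),(0,1)]) .nil)))))))) (.cons (.leaf 1 [(8,1),(9,1)]) (.cons (.keep [0,2,6,8,9,10] (.node (.cons (.leaf 1 [(3,1),(10,1)]) (.cons (.leaf 1 [(9,1),(3,1),(7,1),(10,1)]) (.cons (.leaf 1 [(10,1),(3,1)]) (.cons (.leaf 1 [(10,1),(3,1),(9,1)]) (.cons (.leaf 1 [(10,1)]) (.cons (.leaf 1 [(10,1),(7,1),(9,1),(0,1)]) .nil)))))))) .nil)))))))) (.cons (.keep [2,7,8,9,10] (.node (.cons (.leaf 1 [(2,1)]) (.cons (.leaf 1 [(2,1)]) (.cons (.leaf 1 [(3,1),(9,1),(7,1)]) (.cons (.keep [0,3,4,7,9,10] (.node (.cons (.leaf 1 [(3,1),(10,1)]) (.cons (.leaf 1 [(3,1),(9,1),(10,1)]) (.cons (.leaf 1 [(10,1),(3,1)]) (.cons (.leaf 1 [(10,1),(3,1),(9,1),(0,1)]) (.cons (.leaf 1 [(10,1)]) (.cons (.leaf 1 [(10,1),(9,1),(0,1)])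 .nil)))))))) (.cons (.leaf 1 [(7,1),(9,1)]) (.cons (.keep [0,6,7,9,10] (.node (.cons (.leaf 1 [(3,1),(9,1)]) (.cons (.leaf 1 [(8,1),(10,1),(9,2),(3,1)]) (.cons (.leaf 1 [(9,1),(3,1)]) (.cons (.leaf 1 [(9,1),(3,1),(8,1)]) (.cons (.leaf 1 [(9,1)]) (.cons (.leaf 1 [(9,2),(10,1),(8,1),(0,1)]) .nil)))))))) .nil)))))))) .nil)))))))) (.cons (.leaf 1 [(1,1)]) (.cons (.leaf 1 [(1,1),(8,1),(6,1),(9,1)]) (.cons (.leaf 1 [(1,1)]) (.cons (.leaf 1 [(1,1),(8,1),(9,1)]) .nil)))))))) (.cons (.leaf 1 [(9,1),(8,1)]) (.cons (.leaf 1 [(9,1),(8,1),(4,1)]) .nil)))))))) (.cons (.keep [0,6,8,9] (.node (.cons (.leaf 1 [(7,1)]) (.cons (.leaf 1 [(7,1),(4,1)]) (.cons (.leaf 1 [(8,1),(7,1)]) (.cons (.leaf 1 [(8,1),(7,1),(4,1)]) (.cons (.keep [5,6,7,8] (.node (.cons (.leaf 1 [(3,1)]) (.cons (.leaf 1 [(2,1),(8,1),(9,1)])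 (.cons (.leaf 1 [(3,1)]) (.cons (.keep [0,3,7,8,9] (.node (.cons (.leaf 1 [(3,1)]) (.cons (.leaf 1 [(3,1)]) (.cons (.leaf 1 [(7,1),(3,1)]) (.cons (.leaf 1 [(7,1),(3,1)]) (.cons (.leaf 1 [(10,1)]) (.cons (.leaf 1 [(9,1),(0,1),(10,1)]) .nil)))))))) (.cons (.leaf 1 []) (.cons (.keep [0,2,7,8,9] (.node (.cons (.leaf 1 [(3,1),(7,1)]) (.cons (.leaf 1 [(3,1),(7,1)]) (.cons (.leaf 1 [(3,1)]) (.cons (.leaf 1 [(3,1)]) (.cons (.leaf 1 [(10,1)]) (.cons (.leaf 1 [(9,1),(7,1),(0,1),(10,1)]) .nil)))))))) .nil)))))))) (.cons (.keep [0,4,7,8] (.node (.cons (.leaf 1 [(2,1)]) (.cons (.leaf 1 [(2,1),(7,1),(8,1),(9,1)]) (.cons (.leaf 1 []) (.cons (.keep [0,6,7,8,9] (.node (.cons (.leaf 1 [(3,1),(8,1)]) (.cons (.leaf 1 [(3,1),(8,1)]) (.cons (.leaf 1 [(3,1)]) (.cons (.leaf 1 [(3,1)]) (.cons (.leaf 1 [(10,1),(8,1)])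 (.cons (.leaf 1 [(9,1),(8,2),(0,1),(10,1)]) .nil)))))))) (.cons (.leaf 1 [(2,1)]) (.cons (.keep [0,2,6,8,9] (.node (.cons (.leaf 1 [(7,2),(3,1)]) (.cons (.leaf 1 [(7,2),(3,1)]) (.cons (.leaf 1 [(1,1),(3,1)]) (.cons (.leaf 1 [(1,1),(3,1)]) (.cons (.leaf 1 [(7,1),(10,1)]) (.cons (.leaf 1 [(7,3),(9,1),(0,1),(10,1)]) .nil)))))))) .nil)))))))) .nil)))))))) (.cons (.leaf 1 [(1,1)]) (.cons (.leaf 1 [(1,1)]) (.cons (.leaf 1 [(8,1),(1,1)]) (.cons (.leaf 1 [(8,1),(1,1)]) .nil)))))))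

theorem c_14_24_10 : Concl 14 24 z_14_24_10 h_14_24_10 .nd := piece _ hP_nil t_14_24_10 _ _ (by
  decide +kernel)

def z_14_24_4 : F := ⟨1, -1, -1, 0, 2⟩

def h_14_24_4 : List F := [⟨1, -1, 0, 0, 0⟩, ⟨0, 0, 1, -1, 0⟩, ⟨0, 1, -1, 0, 0⟩, ⟨0, -1, 0, 0, 1⟩]

def t_14_24_4 : T := (.node (.cons (.keep [2,5,7,9] (.leaf 0 [(0,0)])) (.cons (.keep [2,4,6,7,9] (.leaf 0 [(1,0)])) (.cons (.keep [1,3,5,8,9] (.node (.cons (.leaf 1 [(3,1),(6,1),(8,1)]) (.cons (.keep [2,6,8,9,10] (.node (.cons (.leaf 1 [(3,2)]) (.cons (.leaf 1 [(7,1),(3,2),(6,1)]) (.cons (.leaf 1 [(8,1),(3,2)]) (.cons (.leaf 1 [(7,1),(3,2),(8,2),(6,1)]) (.cons (.keep [5,6,7,8,9] (.node (.cons (.leaf 1 [(2,1),(9,1)]) (.cons (.leaf 1 [(2,1),(9,1)]) (.cons (.leaf 1 [(3,1),(10,1)]) (.cons (.keep [3,7,8,9,10] (.node (.cons (.leaf 1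 [(3,1),(10,1)]) (.cons (.leaf 1 [(3,1),(10,1)]) (.cons (.leaf 1 [(6,1),(3,1),(10,1)]) (.cons (.leaf 1 [(6,1),(3,1),(10,1)]) (.cons (.leaf 1 [(9,1),(10,1)]) (.cons (.leaf 1 [(0,1),(10,1),(9,1)]) .nil)))))))) (.cons (.leaf 1 [(10,1)]) (.cons (.keep [0,2,4,8,9,10] (.node (.cons (.leaf 1 [(7,1),(3,1),(11,1)]) (.cons (.leaf 1 [(7,1),(3,1),(11,1)]) (.cons (.leaf 1 [(11,1),(3,1)]) (.cons (.leaf 1 [(11,1),(3,1)]) (.cons (.leaf 1 [(11,1),(10,1)]) (.cons (.leaf 1 [(7,1),(0,1),(11,1),(10,1)]) .nil)))))))) .nil)))))))) (.cons (.keep [6,7,8,9,10] (.node (.cons (.leaf 1 [(3,1),(8,1)]) (.cons (.leaf 1 [(3,1),(8,1)]) (.cons (.leaf 1 [(3,2),(9,1)]) (.cons (.keep [3,4,8,9,10] (.node (.cons (.leaf 1 [(2,1),(9,1),(3,1)]) (.cons (.leaf 1 [(2,1),(9,1),(3,1)]) (.cons (.leaf 1 [(6,2),(9,1),(3,1)]) (.cons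 (.leaf 1 [(6,2),(9,1),(3,1)]) (.cons (.leaf 1 [(6,1),(9,1),(8,1)]) (.cons (.leaf 1 [(6,2),(9,1),(0,1),(8,1)]) .nil)))))))) (.cons (.leaf 1 [(6,1),(9,1)]) (.cons (.keep [6,7,8,9,10] (.node (.cons (.leaf 1 [(3,1),(9,1)]) (.cons (.leaf 1 [(3,1),(9,1)]) (.cons (.leaf 1 [(6,1),(3,2),(9,1)]) (.cons (.leaf 1 [(6,1),(3,2),(9,1)]) (.cons (.leaf 1 [(6,1),(8,2),(9,1)]) (.cons (.leaf 1 [(6,1),(0,2),(9,1),(8,2)]) .nil)))))))) .nil)))))))) .nil)))))))) (.cons (.leaf 1 [(6,1),(1,1),(3,2)]) (.cons (.keep [1,3,6,7,9,10] (.node (.cons (.leaf 1 [(6,1),(3,2)]) (.cons (.leaf 1 [(8,1),(3,2),(6,1)]) (.cons (.leaf 1 [(6,1),(3,2),(7,1)]) (.cons (.leaf 1 [(8,1),(3,2),(7,2),(6,1)]) (.cons (.leaf 1 [(6,1),(10,1)]) (.cons (.keep [4,6,7,8,9,10] (.node (.cons (.leaf 1 [(3,1),(2,1),(8,1)]) (.cons (.leaf 1 [(3,1),(7,1),(8,1)])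 (.cons (.leaf 1 [(3,2),(11,1)]) (.cons (.leaf 1 [(3,2),(7,1),(11,1)]) (.cons (.leaf 1 [(10,1),(11,1)]) (.cons (.keep [0,4,7,8,9,11] (.node (.cons (.leaf 1 [(8,1),(2,2),(11,1)]) (.cons (.leaf 1 [(8,1),(2,2),(11,1)]) (.cons (.leaf 1 [(11,1),(3,2),(6,1)]) (.cons (.leaf 1 [(11,1),(3,2),(0,1),(4,1)]) (.cons (.leaf 1 [(11,1),(9,2),(6,1)]) (.cons (.leaf 1 [(8,1),(0,2),(11,1),(9,2)]) .nil)))))))) .nil)))))))) .nil)))))))) (.cons (.leaf 1 [(6,1),(8,1),(1,1)]) (.cons (.keep [1,4,6,7,8,9] (.node (.cons (.leaf 1 [(3,2),(6,1)]) (.cons (.leaf 1 [(3,2),(9,1),(6,2),(8,1)]) (.cons (.leaf 1 [(6,1),(3,2),(10,1)]) (.cons (.leaf 1 [(8,1),(3,2),(10,1),(6,1)]) (.cons (.leaf 1 [(10,1),(6,1),(11,1)]) (.cons (.keep [4,6,8,9,10,11] (.node (.cons (.leaf 1 [(3,1),(2,1)]) (.cons (.leaf 1 [(3,1),(7,1),(10,1)])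 (.cons (.leaf 1 [(11,1),(3,2)]) (.cons (.leaf 1 [(3,2),(10,1),(7,1),(11,1)]) (.cons (.leaf 1 [(9,1),(11,1)]) (.cons (.keep [4,7,8,9,10,11] (.node (.cons (.leaf 1 [(3,1),(11,1)]) (.cons (.leaf 1 [(3,1),(11,1)]) (.cons (.leaf 1 [(11,1),(3,2),(9,1)]) (.cons (.leaf 1 [(11,1),(3,2),(0,1)]) (.cons (.leaf 1 [(11,1),(10,2),(9,1)]) (.cons (.leaf 1 [(11,1),(10,1),(7,1),(0,2)]) .nil)))))))) .nil)))))))) .nil)))))))) .nil)))))))) (.cons (.keep [1,3,4,6,8,9] (.node (.cons (.leaf 1 [(3,1),(6,1)]) (.cons (.keep [3,6,8,10,11] (.node (.cons (.leaf 1 [(3,2),(8,1)]) (.cons (.leaf 1 [(3,2),(7,1),(8,2),(6,1)]) (.cons (.leaf 1 [(3,2)]) (.cons (.leaf 1 [(7,1),(3,2),(6,1)]) (.cons (.keep [5,6,7,8,9] (.node (.cons (.leaf 1 [(2,1)]) (.cons (.leaf 1 [(2,1)]) (.cons (.leaf 1 [(3,1),(10,1),(9,1)]) (.cons (.keep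 [0,3,7,8,9,10] (.node (.cons (.leaf 1 [(3,1),(11,1)]) (.cons (.leaf 1 [(3,1),(10,1),(11,1)]) (.cons (.leaf 1 [(11,1),(3,1)]) (.cons (.leaf 1 [(11,1),(3,1),(10,1),(0,1)]) (.cons (.leaf 1 [(11,1)]) (.cons (.leaf 1 [(11,1),(10,1),(0,1)]) .nil)))))))) (.cons (.leaf 1 [(9,1),(10,1)]) (.cons (.keep [0,2,7,8,9,10] (.node (.cons (.leaf 1 [(3,1),(11,1)]) (.cons (.leaf 1 [(3,1),(7,1),(10,1),(11,1)]) (.cons (.leaf 1 [(11,1),(3,1)]) (.cons (.leaf 1 [(11,1),(3,1),(10,1)]) (.cons (.leaf 1 [(11,1)]) (.cons (.leaf 1 [(11,1),(7,1),(10,1),(0,1)]) .nil)))))))) .nil)))))))) (.cons (.keep [6,7,8,9,10] (.node (.cons (.leaf 1 [(3,1)]) (.cons (.leaf 1 [(3,1)]) (.cons (.leaf 1 [(8,1),(3,2),(9,1)]) (.cons (.keep [0,3,6,8,9,10] (.node (.cons (.leaf 1 [(2,1),(10,1),(3,1)]) (.cons (.leaf 1 [(2,1),(10,1),(9,1),(3,1)])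 (.cons (.leaf 1 [(7,1),(3,1),(10,1)]) (.cons (.leaf 1 [(3,1),(9,1),(7,2),(10,1)]) (.cons (.leaf 1 [(7,1),(10,1)]) (.cons (.leaf 1 [(7,2),(10,1),(9,1),(0,1)]) .nil)))))))) (.cons (.leaf 1 [(8,2),(6,1),(9,1)]) (.cons (.keep [0,6,7,8,9,10] (.node (.cons (.leaf 1 [(2,1),(10,1),(3,1)]) (.cons (.leaf 1 [(3,1),(10,1),(9,1)]) (.cons (.leaf 1 [(7,1),(3,2),(10,1)]) (.cons (.leaf 1 [(7,1),(3,2),(9,2),(10,1)]) (.cons (.leaf 1 [(7,1),(10,1)]) (.cons (.leaf 1 [(7,1),(10,1),(9,2),(0,2)]) .nil)))))))) .nil)))))))) .nil)))))))) (.cons (.leaf 1 [(6,1),(3,1),(1,1)]) (.cons (.keep [1,3,6,7,8,10,11] (.node (.cons (.leaf 1 [(3,2),(6,1),(10,1)]) (.cons (.leaf 1 [(3,2),(8,1),(10,1),(6,1)]) (.cons (.leaf 1 [(6,1),(3,2)]) (.cons (.leaf 1 [(7,1),(3,2),(6,1),(8,1)]) (.cons (.leaf 1 [(6,1),(10,1),(11,1)]) (.cons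 (.keep [4,6,7,8,9,10,11] (.node (.cons (.leaf 1 [(3,1),(2,1)]) (.cons (.leaf 1 [(3,1),(7,1)]) (.cons (.leaf 1 [(11,1),(3,2),(12,1)]) (.cons (.leaf 1 [(11,1),(3,2),(7,1),(12,1)]) (.cons (.leaf 1 [(11,1),(10,1),(12,1)]) (.cons (.keep [4,7,8,9,10,11,12] (.node (.cons (.leaf 1 [(3,1),(12,1),(2,1)]) (.cons (.leaf 1 [(3,1),(11,1),(12,1)]) (.cons (.leaf 1 [(12,1),(3,2),(10,1)]) (.cons (.leaf 1 [(11,1),(3,2),(12,1),(0,1)]) (.cons (.leaf 1 [(10,1),(12,1),(8,1)]) (.cons (.leaf 1 [(7,1),(11,1),(12,1),(0,2)]) .nil)))))))) .nil)))))))) .nil)))))))) (.cons (.leaf 1 [(6,1),(1,1)]) (.cons (.keep [1,6,7,9,10] (.node (.cons (.leaf 1 [(3,2),(6,2),(8,1)]) (.cons (.leaf 1 [(3,2),(7,1),(8,2),(6,3)]) (.cons (.leaf 1 [(6,1),(3,2)]) (.cons (.leaf 1 [(7,1),(3,2),(6,1)]) (.cons (.leaf 1 [(6,1),(10,1)]) (.cons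 (.keep [0,6,7,8,10] (.node (.cons (.leaf 1 [(3,1),(7,1)]) (.cons (.leaf 1 [(3,1),(7,1)]) (.cons (.leaf 1 [(3,2),(10,1),(7,1)]) (.cons (.leaf 1 [(3,2),(10,1),(7,1)]) (.cons (.leaf 1 [(9,2),(10,1),(7,1)]) (.cons (.keep [0,6,7,8,9,10] (.node (.cons (.leaf 1 [(3,1),(11,1),(2,1)]) (.cons (.leaf 1 [(2,2),(8,1),(11,1)]) (.cons (.leaf 1 [(11,1),(3,2),(6,1)]) (.cons (.leaf 1 [(8,1),(3,2),(10,2),(11,1)]) (.cons (.leaf 1 [(6,1),(11,1),(2,1)]) (.cons (.leaf 1 [(11,1),(8,3),(10,2),(0,2)]) .nil)))))))) .nil)))))))) .nil)))))))) .nil)))))))) (.cons (.keep [1,5,6,7,8] (.node (.cons (.leaf 1 [(2,1),(6,1),(3,2)]) (.cons (.keep [2,6,7,8,10] (.node (.cons (.leaf 1 [(3,2),(6,1)]) (.cons (.leaf 1 [(7,1),(3,2),(6,3)]) (.cons (.leaf 1 [(8,1),(3,2),(6,1)]) (.cons (.leaf 1 [(7,1),(6,3),(3,2),(8,2)]) (.cons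 (.leaf 1 [(10,1)]) (.cons (.keep [6,7,8,9,10] (.node (.cons (.leaf 1 [(3,1),(6,1),(8,1)]) (.cons (.leaf 1 [(3,1),(8,1),(6,1)]) (.cons (.leaf 1 [(3,2),(10,1)]) (.cons (.leaf 1 [(3,2),(10,1)]) (.cons (.leaf 1 [(6,2),(10,1)]) (.cons (.keep [6,7,8,9,10] (.node (.cons (.leaf 1 [(2,2),(10,1)]) (.cons (.leaf 1 [(2,2),(10,1)]) (.cons (.leaf 1 [(3,2),(10,1),(6,2)]) (.cons (.leaf 1 [(3,2),(10,1),(6,2)]) (.cons (.leaf 1 [(8,2),(10,1),(6,2)]) (.cons (.leaf 1 [(0,2),(10,1),(6,4),(8,2)]) .nil)))))))) .nil)))))))) .nil)))))))) (.cons (.leaf 1 [(6,1),(3,2),(9,1)]) (.cons (.keep [3,6,8,9,10] (.node (.cons (.leaf 1 [(3,2)]) (.cons (.leaf 1 [(7,1),(3,2),(9,1)]) (.cons (.leaf 1 [(6,1),(3,2)]) (.cons (.leaf 1 [(7,1),(3,2),(6,2),(9,1)]) (.cons (.leaf 1 [(10,1)]) (.cons (.keep [4,6,7,9,10] (.node (.cons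 (.leaf 1 [(3,1),(7,1)]) (.cons (.leaf 1 [(3,1),(7,1)]) (.cons (.leaf 1 [(3,2),(10,1)]) (.cons (.leaf 1 [(3,2),(10,1)]) (.cons (.leaf 1 [(9,2),(10,1)]) (.cons (.keep [4,7,8,9,10] (.node (.cons (.leaf 1 [(10,1),(2,2)]) (.cons (.leaf 1 [(10,1),(2,2)]) (.cons (.leaf 1 [(9,2),(3,2),(10,1)]) (.cons (.leaf 1 [(9,2),(3,2),(10,1)]) (.cons (.leaf 1 [(9,2),(7,2),(10,1)]) (.cons (.leaf 1 [(9,2),(0,2),(10,1),(7,2)]) .nil)))))))) .nil)))))))) .nil)))))))) (.cons (.leaf 1 [(9,1),(6,1)]) (.cons (.keep [2,4,6,7,9,10] (.node (.cons (.leaf 1 [(3,2),(6,1)]) (.cons (.leaf 1 [(3,2),(8,1),(6,2),(10,1)]) (.cons (.leaf 1 [(3,2)]) (.cons (.leaf 1 [(8,1),(10,1),(3,2)]) (.cons (.leaf 1 [(11,1)]) (.cons (.keep [4,6,8,9,10,11] (.node (.cons (.leaf 1 [(3,1)]) (.cons (.leaf 1 [(3,1)]) (.cons (.leaf 1 [(11,1),(3,2)])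 (.cons (.leaf 1 [(11,1),(3,2)]) (.cons (.leaf 1 [(11,1),(10,2)]) (.cons (.keep [0,4,7,8,10,11] (.node (.cons (.leaf 1 [(2,2),(11,1)]) (.cons (.leaf 1 [(2,2),(11,1)]) (.cons (.leaf 1 [(10,2),(3,2),(11,1)]) (.cons (.leaf 1 [(10,2),(3,2),(11,1)]) (.cons (.leaf 1 [(6,2),(11,1),(10,2)]) (.cons (.leaf 1 [(10,2),(11,1),(0,2)]) .nil)))))))) .nil)))))))) .nil)))))))) .nil)))))))) (.cons (.keep [1,4,6,7,8] (.node (.cons (.leaf 1 [(3,1),(2,2),(6,1)]) (.cons (.keep [3,6,7,8,10] (.node (.cons (.leaf 1 [(3,2),(8,2),(6,1)]) (.cons (.leaf 1 [(3,2),(7,1),(8,4),(6,3)]) (.cons (.leaf 1 [(1,1),(3,2),(6,1)]) (.cons (.leaf 1 [(1,2),(7,1),(3,2),(6,3)]) (.cons (.leaf 1 [(8,1),(10,1)]) (.cons (.keep [6,7,8,9,10] (.node (.cons (.leaf 1 [(7,1),(6,1)]) (.cons (.leaf 1 [(7,1),(6,1),(4,2)]) (.cons (.leaf 1 [(8,1),(3,2),(10,1)])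 (.cons (.leaf 1 [(3,2),(10,1),(8,1)]) (.cons (.leaf 1 [(8,3),(6,2),(10,1)]) (.cons (.keep [6,7,8,9,10] (.node (.cons (.leaf 1 [(2,3),(10,1)]) (.cons (.leaf 1 [(2,2),(10,1),(8,1)]) (.cons (.leaf 1 [(3,2),(10,1),(6,2)]) (.cons (.leaf 1 [(6,2),(10,1),(8,3),(3,2)]) (.cons (.leaf 1 [(6,2),(10,1),(2,1)]) (.cons (.leaf 1 [(8,5),(6,4),(10,1),(0,2)]) .nil)))))))) .nil)))))))) .nil)))))))) (.cons (.leaf 1 [(9,1),(3,1),(6,1)]) (.cons (.keep [3,4,6,7,9,10] (.node (.cons (.leaf 1 [(3,2),(9,1)]) (.cons (.leaf 1 [(3,2),(8,1),(9,1),(10,1)]) (.cons (.leaf 1 [(3,2)]) (.cons (.leaf 1 [(6,1),(8,1),(3,2),(10,1)]) (.cons (.leaf 1 [(11,1),(9,1)]) (.cons (.keep [4,6,8,9,10,11] (.node (.cons (.leaf 1 [(3,1)]) (.cons (.leaf 1 [(3,1)]) (.cons (.leaf 1 [(9,1),(3,2),(11,1)]) (.cons (.leaf 1 [(11,1),(3,2),(9,1)])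 (.cons (.leaf 1 [(9,1),(10,2),(11,1)]) (.cons (.keep [0,4,8,9,10,11] (.node (.cons (.leaf 1 [(2,3),(11,1)]) (.cons (.leaf 1 [(2,2),(9,1),(11,1)]) (.cons (.leaf 1 [(10,2),(3,2),(11,1)]) (.cons (.leaf 1 [(3,2),(9,1),(10,2),(11,1)]) (.cons (.leaf 1 [(6,1),(11,1),(10,2)]) (.cons (.leaf 1 [(10,2),(11,1),(9,1),(0,2)]) .nil)))))))) .nil)))))))) .nil)))))))) (.cons (.leaf 1 [(9,1),(2,1),(6,1)]) (.cons (.keep [2,6,8,9,10] (.node (.cons (.leaf 1 [(3,2),(6,2)]) (.cons (.leaf 1 [(3,2),(7,1),(6,3),(9,1)]) (.cons (.leaf 1 [(1,1),(3,2)]) (.cons (.leaf 1 [(1,1),(7,1),(3,2),(9,1)]) (.cons (.leaf 1 [(6,1),(10,1)]) (.cons (.keep [0,6,7,9,10] (.node (.cons (.leaf 1 [(3,1),(7,1)]) (.cons (.leaf 1 [(3,1),(7,1)]) (.cons (.leaf 1 [(3,2),(10,1),(7,1)]) (.cons (.leaf 1 [(10,1),(3,2),(7,1)]) (.cons (.leaf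 1 [(7,1),(9,2),(10,1)]) (.cons (.keep [0,6,7,8,9,10] (.node (.cons (.leaf 1 [(2,3),(11,1)]) (.cons (.leaf 1 [(2,2),(8,1),(11,1)]) (.cons (.leaf 1 [(10,2),(3,2),(11,1)]) (.cons (.leaf 1 [(10,2),(3,2),(8,1),(11,1)]) (.cons (.leaf 2 [(10,4),(6,1),(11,2)]) (.cons (.leaf 1 [(10,2),(11,1),(8,3),(0,2)]) .nil)))))))) .nil)))))))) .nil)))))))) .nil)))))))) .nil)))))))

theorem c_14_24_4 : Concl 14 24 z_14_24_4 h_14_24_4 .nd := piece _ (hP_cons E37.c_14_24_1 (hP_cons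
  E37.c_14_24_0 hP_nil)) t_14_24_4 _ _ (by decide +kernel)

def z_14_24_5 : F := ⟨1, -1, 0, -1, 2⟩

def h_14_24_5 : List F := [⟨1, -1, 0, 0, 0⟩, ⟨0, 0, -1, 1, 0⟩, ⟨0, 0, 0, -1, 1⟩, ⟨0, 1, -1, 0, 0⟩,
  ⟨0, -1, 0, 0, 1⟩]

def t_14_24_5 : T := (.node (.cons (.keep [3,5,7,10] (.leaf 0 [(0,0)])) (.cons (.keep [3,4,6,7,10] (.leaf 0 [(1,0)])) (.cons (.keep [1,3,5,7,9,10] (.node (.cons (.leaf 1 [(6,1),(8,2)]) (.cons (.keep [2,6,8,9,10,11] (.node (.cons (.leaf 1 [(7,1),(3,2)]) (.cons (.leaf 1 [(7,1),(3,2)]) (.cons (.leaf 1 [(7,1),(3,2),(8,2)]) (.cons (.leaf 1 [(7,1),(3,2),(8,2)]) (.cons (.leaf 1 [(9,2),(10,1)]) (.cons (.keep [6,7,8,9,10,11] (.node (.cons (.leaf 1 [(3,1),(2,1),(8,1)]) (.cons (.leaf 1 [(7,1),(2,2),(8,2)]) (.cons (.leaf 1 [(3,2),(10,1)]) (.cons (.leaf 1 [(3,2),(9,2),(10,1)])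 (.cons (.leaf 1 [(10,1)]) (.cons (.keep [0,7,8,9,10,11] (.node (.cons (.leaf 1 [(8,2),(3,2),(10,1)]) (.cons (.leaf 1 [(9,2),(2,2),(10,1)]) (.cons (.leaf 1 [(10,1),(3,2)]) (.cons (.leaf 1 [(10,1),(3,2)]) (.cons (.leaf 1 [(10,1),(8,2)]) (.cons (.leaf 1 [(9,2),(0,2),(10,1),(8,2)]) .nil)))))))) .nil)))))))) .nil)))))))) (.cons (.leaf 1 [(1,2),(6,1),(3,2)]) (.cons (.keep [1,3,6,7,10,11] (.node (.cons (.leaf 1 [(3,2),(6,2)]) (.cons (.leaf 1 [(8,1),(3,2),(6,2)]) (.cons (.leaf 1 [(3,2),(7,1),(6,2)]) (.cons (.leaf 1 [(8,1),(7,2),(3,2),(6,2)]) (.cons (.leaf 1 [(6,2),(10,1)]) (.cons (.keep [4,6,7,8,9,10] (.node (.cons (.leaf 1 [(3,1),(2,2),(8,1)]) (.cons (.leaf 1 [(3,1),(7,2),(8,1)]) (.cons (.leaf 1 [(3,2),(11,1)]) (.cons (.leaf 1 [(3,2),(7,2),(11,1)]) (.cons (.leaf 1 [(11,1)]) (.cons (.keep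 [0,4,7,8,9,11] (.node (.cons (.leaf 1 [(8,2),(2,2),(11,1)]) (.cons (.leaf 1 [(8,2),(2,2),(11,1)]) (.cons (.leaf 1 [(11,1),(3,2)]) (.cons (.leaf 1 [(11,1),(3,2)]) (.cons (.leaf 1 [(11,1),(9,2)]) (.cons (.leaf 1 [(8,4),(0,2),(11,1),(9,2)]) .nil)))))))) .nil)))))))) .nil)))))))) (.cons (.leaf 1 [(8,2),(6,1),(1,2)]) (.cons (.keep [2,4,6,7,8,9,10] (.node (.cons (.leaf 1 [(3,2),(6,1),(11,2)]) (.cons (.leaf 1 [(3,2),(8,1),(6,2),(11,2)]) (.cons (.leaf 1 [(3,2),(11,2)]) (.cons (.leaf 1 [(8,1),(3,2),(11,2)]) (.cons (.leaf 1 [(11,2),(12,1)]) (.cons (.keep [4,6,8,9,10,11,12] (.node (.cons (.leaf 1 [(3,1),(2,2)]) (.cons (.leaf 1 [(3,1),(11,2)]) (.cons (.leaf 1 [(12,1),(3,2)]) (.cons (.leaf 1 [(12,1),(3,2),(11,2)]) (.cons (.leaf 1 [(12,1)]) (.cons (.keep [4,7,8,9,10,11,12] (.node (.cons (.leaf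 1 [(10,2),(3,2),(12,1)]) (.cons (.leaf 1 [(11,1),(3,1),(12,1)]) (.cons (.leaf 1 [(12,1),(3,2)]) (.cons (.leaf 1 [(12,1),(3,2)]) (.cons (.leaf 1 [(12,1),(10,2)]) (.cons (.leaf 1 [(12,1),(11,4),(0,2)]) .nil)))))))) .nil)))))))) .nil)))))))) .nil)))))))) (.cons (.keep [1,3,4,6,7,9] (.node (.cons (.leaf 1 [(3,1),(10,1),(6,1)]) (.cons (.keep [3,4,6,8,10,11] (.node (.cons (.leaf 1 [(3,2),(8,1),(9,1)]) (.cons (.leaf 1 [(3,2),(9,1),(8,1)]) (.cons (.leaf 1 [(10,1),(3,2)]) (.cons (.leaf 1 [(6,1),(3,2),(10,1),(8,1)]) (.cons (.leaf 1 [(10,2),(9,1),(11,1)]) (.cons (.keep [4,6,8,9,10,11] (.node (.cons (.leaf 1 [(3,1),(2,1)]) (.cons (.leaf 1 [(3,1),(10,1)]) (.cons (.leaf 1 [(9,1),(3,2),(11,1)]) (.cons (.leaf 1 [(9,1),(3,2),(10,2),(11,1)]) (.cons (.leaf 1 [(9,1),(11,1)]) (.cons (.keep [0,4,8,9,10,11]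 (.node (.cons (.leaf 2 [(3,3),(10,1),(11,2)]) (.cons (.leaf 1 [(3,1),(10,1),(11,1),(9,1)]) (.cons (.leaf 1 [(11,1),(3,2)]) (.cons (.leaf 1 [(9,1),(3,2),(11,1)]) (.cons (.leaf 1 [(11,1),(10,1),(6,1)]) (.cons (.leaf 1 [(10,2),(9,1),(11,1),(0,2)]) .nil)))))))) .nil)))))))) .nil)))))))) (.cons (.leaf 1 [(1,2),(3,1),(6,1)]) (.cons (.keep [1,3,6,7,8,9,11] (.node (.cons (.leaf 1 [(3,2),(10,1),(6,2)]) (.cons (.leaf 1 [(3,2),(8,1),(10,1),(6,2)]) (.cons (.leaf 1 [(3,2),(6,2)]) (.cons (.leaf 1 [(7,1),(3,2),(6,2),(8,1)]) (.cons (.leaf 1 [(6,2),(10,1),(12,1)]) (.cons (.keep [6,7,8,9,10,11,12] (.node (.cons (.leaf 1 [(3,1),(2,2)]) (.cons (.leaf 1 [(3,1),(6,2)]) (.cons (.leaf 1 [(10,1),(3,2),(12,1)]) (.cons (.leaf 1 [(10,1),(3,2),(6,2),(12,1)]) (.cons (.leaf 1 [(10,1),(12,1)]) (.cons (.keep [6,7,8,9,10,11,12]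 (.node (.cons (.leaf 1 [(6,2),(2,3),(12,1)]) (.cons (.leaf 1 [(6,2),(2,2),(12,1),(10,1)]) (.cons (.leaf 1 [(12,1),(3,2)]) (.cons (.leaf 1 [(10,1),(3,2),(12,1)]) (.cons (.leaf 1 [(12,1),(7,1)]) (.cons (.leaf 1 [(12,1),(10,1),(6,4),(0,2)]) .nil)))))))) .nil)))))))) .nil)))))))) (.cons (.leaf 1 [(1,1),(10,1),(6,1)]) (.cons (.keep [2,6,7,9,10,11] (.node (.cons (.leaf 1 [(3,2),(6,2),(10,2)]) (.cons (.leaf 1 [(3,2),(7,1),(6,3),(10,2)]) (.cons (.leaf 1 [(3,2),(1,1),(10,2)]) (.cons (.leaf 1 [(7,1),(3,2),(10,2),(1,1)]) (.cons (.leaf 1 [(10,2),(6,1),(11,1)]) (.cons (.keep [0,6,7,8,10,11] (.node (.cons (.leaf 1 [(3,1),(2,2),(7,1)]) (.cons (.leaf 1 [(7,1),(10,2),(3,1)]) (.cons (.leaf 1 [(3,2),(11,1),(7,1)]) (.cons (.leaf 1 [(3,2),(7,1),(10,2),(11,1)]) (.cons (.leaf 1 [(7,1),(11,1)]) (.cons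 (.keep [0,6,7,8,10,11] (.node (.cons (.leaf 2 [(3,3),(10,1),(11,2)]) (.cons (.leaf 1 [(3,1),(8,1),(10,1),(11,1)]) (.cons (.leaf 1 [(11,1),(3,2)]) (.cons (.leaf 1 [(11,1),(8,1),(3,2)]) (.cons (.leaf 2 [(11,2),(10,2),(6,1)]) (.cons (.leaf 1 [(10,4),(8,3),(11,1),(0,2)]) .nil)))))))) .nil)))))))) .nil)))))))) .nil)))))))) (.cons (.keep [1,5,8,9] (.node (.cons (.leaf 1 [(3,2),(6,1)]) (.cons (.keep [2,6,7,8,9] (.node (.cons (.leaf 1 [(3,2)]) (.cons (.leaf 1 [(7,1),(3,2),(6,2)]) (.cons (.leaf 1 [(8,1),(3,2)]) (.cons (.leaf 1 [(7,1),(3,2),(8,2),(6,2)]) (.cons (.leaf 1 [(7,1),(10,2)]) (.cons (.keep [4,6,7,8,10] (.node (.cons (.leaf 1 [(3,1),(9,1)]) (.cons (.leaf 1 [(3,1),(9,1)]) (.cons (.leaf 1 [(3,2),(10,1)]) (.cons (.leaf 1 [(3,2),(10,2),(8,1)]) (.cons (.leaf 1 [(7,1),(10,1)]) (.cons (.keep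 [4,7,8,9,10] (.node (.cons (.leaf 1 [(3,1),(10,1)]) (.cons (.leaf 1 [(3,1),(10,1)]) (.cons (.leaf 1 [(7,1),(3,2),(10,1)]) (.cons (.leaf 1 [(7,1),(3,2),(10,1)]) (.cons (.leaf 1 [(7,1),(9,2),(10,1)]) (.cons (.leaf 1 [(7,1),(0,2),(10,1),(9,2)]) .nil)))))))) .nil)))))))) .nil)))))))) (.cons (.leaf 1 [(6,1),(3,2)]) (.cons (.keep [0,3,6,9] (.node (.cons (.leaf 1 [(8,1),(3,2)]) (.cons (.leaf 1 [(8,1),(3,2)]) (.cons (.leaf 1 [(8,1),(3,2),(7,2)]) (.cons (.leaf 1 [(8,1),(3,2),(7,2)]) (.cons (.leaf 1 [(8,1),(9,2)]) (.cons (.keep [0,7,8,9] (.node (.cons (.leaf 1 [(3,1),(2,1),(7,1)]) (.cons (.leaf 1 [(8,1),(2,2),(7,2)]) (.cons (.leaf 1 [(3,2),(9,1)]) (.cons (.leaf 1 [(8,1),(9,2),(3,2)]) (.cons (.leaf 1 [(6,1),(9,1)]) (.cons (.keep [0,6,7,8,9] (.node (.cons (.leaf 1 [(10,1),(3,1)]) (.cons (.leaf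 1 [(10,1),(3,1)]) (.cons (.leaf 1 [(10,1),(3,2),(6,1)]) (.cons (.leaf 1 [(10,1),(3,2),(0,1),(4,1)]) (.cons (.leaf 1 [(10,1),(8,2),(6,1)]) (.cons (.leaf 1 [(10,2),(9,1),(0,2),(8,2)]) .nil)))))))) .nil)))))))) .nil)))))))) (.cons (.leaf 1 [(6,1)]) (.cons (.keep [2,6,7,8,9] (.node (.cons (.leaf 1 [(3,2),(7,1),(6,2)]) (.cons (.leaf 1 [(3,2),(6,2),(7,1)]) (.cons (.leaf 1 [(7,1),(3,2)]) (.cons (.leaf 1 [(7,1),(3,2)]) (.cons (.leaf 1 [(7,1),(10,2)]) (.cons (.keep [0,6,7,8,10] (.node (.cons (.leaf 1 [(3,1),(2,1)]) (.cons (.leaf 1 [(8,1),(2,2)]) (.cons (.leaf 1 [(10,1),(3,2)]) (.cons (.leaf 1 [(3,2),(8,1),(10,2)]) (.cons (.leaf 1 [(7,1),(6,1),(10,1)]) (.cons (.keep [0,6,7,8,10] (.node (.cons (.leaf 1 [(3,1),(10,1)]) (.cons (.leaf 1 [(3,1),(10,1)]) (.cons (.leaf 1 [(10,1),(3,2),(6,1)]) (.cons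 (.leaf 1 [(10,1),(3,2),(0,1)]) (.cons (.leaf 1 [(10,2),(9,1),(6,2)]) (.cons (.leaf 1 [(9,1),(10,2),(0,2)]) .nil)))))))) .nil)))))))) .nil)))))))) .nil)))))))) (.cons (.keep [0,1,4,6,8,9] (.node (.cons (.leaf 1 [(3,1),(7,1),(2,1)]) (.cons (.keep [3,7,8,10,11] (.node (.cons (.leaf 1 [(3,2),(8,1)]) (.cons (.leaf 1 [(3,2),(7,1),(8,3),(6,2)]) (.cons (.leaf 1 [(3,2)]) (.cons (.leaf 1 [(7,1),(1,1),(3,2),(6,2)]) (.cons (.leaf 1 [(7,1),(8,1),(10,2)]) (.cons (.keep [6,7,8,9,10] (.node (.cons (.leaf 1 [(3,1)]) (.cons (.leaf 1 [(3,1)]) (.cons (.leaf 1 [(8,1),(3,2),(10,1)]) (.cons (.leaf 1 [(7,1),(3,2),(10,2),(8,1)]) (.cons (.leaf 1 [(8,2),(6,1),(10,1)]) (.cons (.keep [4,6,7,8,10] (.node (.cons (.leaf 1 [(2,1),(10,1),(3,1)]) (.cons (.leaf 1 [(10,1),(9,1),(3,1)]) (.cons (.leaf 1 [(7,1),(3,2),(10,1)])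 (.cons (.leaf 1 [(7,1),(3,2),(9,2),(10,1)]) (.cons (.leaf 1 [(7,1),(10,1)]) (.cons (.leaf 1 [(7,1),(10,1),(9,2),(0,2)]) .nil)))))))) .nil)))))))) .nil)))))))) (.cons (.leaf 1 [(3,1),(7,1)]) (.cons (.keep [3,7,8,10,11] (.node (.cons (.leaf 1 [(3,2),(7,1),(8,1)]) (.cons (.leaf 1 [(3,2),(8,1),(7,1)]) (.cons (.leaf 1 [(7,1),(3,2),(6,1)]) (.cons (.leaf 1 [(6,1),(3,2),(7,1)]) (.cons (.leaf 1 [(10,2),(7,1),(8,1)]) (.cons (.keep [0,6,7,8,10] (.node (.cons (.leaf 1 [(3,1),(2,1)]) (.cons (.leaf 1 [(8,1),(2,2),(7,1)]) (.cons (.leaf 1 [(9,1),(3,2),(10,1)]) (.cons (.leaf 1 [(9,1),(8,1),(10,2),(3,2)]) (.cons (.leaf 1 [(9,2),(6,1),(10,1)]) (.cons (.keep [0,6,8,9,10] (.node (.cons (.leaf 1 [(3,1),(10,1),(2,1)]) (.cons (.leaf 1 [(3,1),(9,1),(10,1)]) (.cons (.leaf 1 [(10,1),(3,2),(6,1)]) (.cons (.leaf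 1 [(9,1),(3,2),(10,1),(0,1)]) (.cons (.leaf 1 [(10,1),(6,1)]) (.cons (.leaf 1 [(10,2),(8,1),(9,1),(0,2)]) .nil)))))))) .nil)))))))) .nil)))))))) (.cons (.leaf 1 [(7,1),(2,1)]) (.cons (.keep [0,2,7,11] (.node (.cons (.leaf 1 [(3,2),(8,1),(7,3)]) (.cons (.leaf 1 [(3,2),(8,1),(7,3)]) (.cons (.leaf 1 [(8,1),(1,1),(3,2)]) (.cons (.leaf 1 [(8,1),(1,1),(3,2)]) (.cons (.leaf 1 [(8,1),(1,1),(9,3)]) (.cons (.keep [0,7,8,9] (.node (.cons (.leaf 1 [(3,1),(2,1),(7,1)]) (.cons (.leaf 1 [(8,1),(2,2),(7,1)]) (.cons (.leaf 1 [(3,2),(9,1),(7,1)]) (.cons (.leaf 1 [(8,1),(3,2),(9,2),(7,1)]) (.cons (.leaf 1 [(7,3),(6,1),(9,1)]) (.cons (.keep [0,6,7,8,9] (.node (.cons (.leaf 1 [(3,1),(10,1),(2,1)]) (.cons (.leaf 1 [(3,1),(10,1),(8,1)]) (.cons (.leaf 1 [(10,1),(3,2),(6,1)]) (.cons (.leaf 1 [(10,1),(3,2),(8,2),(0,1)])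 (.cons (.leaf 1 [(2,1),(6,1),(10,1)]) (.cons (.leaf 1 [(10,2),(9,1),(8,3),(0,2)]) .nil)))))))) .nil)))))))) .nil)))))))) .nil)))))))) .nil)))))))

theorem c_14_24_5 : Concl 14 24 z_14_24_5 h_14_24_5 .nd := piece _ (hP_cons E37.c_14_24_3 (hP_cons
  E37.c_14_24_2 hP_nil)) t_14_24_5 _ _ (by decide +kernel)

def z_14_24_7 : F := ⟨1, 0, -2, 0, 2⟩

def h_14_24_7 : List F := [⟨1, 0, -1, 0, 0⟩, ⟨0, 0, 1, -1, 0⟩, ⟨0, 0, -1, 0, 1⟩, ⟨0, -1, 1, 0, 0⟩]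

def t_14_24_7 : T := (.node (.cons (.keep [2,5,7,8,9] (.node (.cons (.leaf 1 [(3,1),(7,1),(10,3)]) (.cons (.keep [2,6,7,9,10] (.node (.cons (.leaf 1 [(3,2),(10,2)]) (.cons (.leaf 1 [(3,2),(10,3),(6,1)]) (.cons (.leaf 1 [(8,1),(3,2),(10,2)]) (.cons (.leaf 1 [(3,2),(6,1),(10,3),(8,2)]) (.cons (.keep [5,6,7,8,10] (.node (.cons (.leaf 1 [(3,1),(10,1)]) (.cons (.leaf 1 [(2,1),(10,2),(9,1)]) (.cons (.leaf 1 [(10,1),(3,1)]) (.cons (.keep [0,3,7,9,10] (.node (.cons (.leaf 1 [(10,1),(3,1)]) (.cons (.leaf 1 [(10,1),(3,1)]) (.cons (.leaf 1 [(10,1),(3,1),(7,1)]) (.cons (.leaf 1 [(10,1),(3,1),(7,1)]) (.cons (.leaf 1 [(10,1),(9,1)]) (.cons (.leaf 1 [(10,3),(0,1),(9,1)]) .nil)))))))) (.cons (.leaf 1 [(10,1)]) (.cons (.keep [2,4,6,8,9,10] (.node (.cons (.leaf 1 [(3,1),(11,1),(6,1)]) (.cons (.leaf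 1 [(3,1),(6,1),(11,1)]) (.cons (.leaf 1 [(11,1),(3,1)]) (.cons (.leaf 1 [(11,1),(3,1)]) (.cons (.leaf 1 [(11,1),(10,1)]) (.cons (.leaf 1 [(11,3),(6,1),(0,1),(10,1)]) .nil)))))))) .nil)))))))) (.cons (.keep [4,6,7,8,10] (.node (.cons (.leaf 1 [(3,2),(10,1),(7,1)]) (.cons (.leaf 1 [(3,1),(10,2),(9,1)]) (.cons (.leaf 1 [(10,1),(3,2)]) (.cons (.keep [3,4,6,8,9,10] (.node (.cons (.leaf 1 [(11,1),(2,1),(3,1)]) (.cons (.leaf 1 [(11,1),(2,1),(3,1)]) (.cons (.leaf 1 [(11,1),(6,2),(3,1)]) (.cons (.leaf 1 [(11,1),(6,2),(3,1)]) (.cons (.leaf 1 [(11,1),(6,1),(10,1)]) (.cons (.leaf 1 [(11,3),(6,2),(0,1),(10,1)]) .nil)))))))) (.cons (.leaf 1 [(10,1),(7,1)]) (.cons (.keep [0,2,7,9,10] (.node (.cons (.leaf 1 [(10,1),(3,1)]) (.cons (.leaf 1 [(10,1),(3,1)]) (.cons (.leaf 1 [(10,1),(3,2),(8,1)]) (.cons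 (.leaf 1 [(10,1),(3,2),(8,1)]) (.cons (.leaf 1 [(10,1),(9,2),(8,1)]) (.cons (.leaf 1 [(10,5),(0,2),(8,1),(9,2)]) .nil)))))))) .nil)))))))) .nil)))))))) (.cons (.leaf 1 [(3,2),(1,1),(10,3)]) (.cons (.keep [1,3,6,8,9,10] (.node (.cons (.leaf 1 [(6,1),(3,2)]) (.cons (.leaf 1 [(6,1),(11,3),(3,2)]) (.cons (.leaf 1 [(6,1),(1,1),(3,2)]) (.cons (.leaf 1 [(6,1),(3,2),(11,3),(7,2)]) (.cons (.leaf 1 [(6,1),(1,1)]) (.cons (.keep [4,6,7,8,9,11] (.node (.cons (.leaf 1 [(3,2),(11,1),(10,1)]) (.cons (.leaf 1 [(3,1),(7,1),(8,1),(11,2)]) (.cons (.leaf 1 [(11,1),(3,2)]) (.cons (.leaf 1 [(7,1),(3,2),(11,1)]) (.cons (.leaf 1 [(11,1),(10,1)]) (.cons (.keep [4,7,8,9,10,11] (.node (.cons (.leaf 1 [(3,1),(11,1)]) (.cons (.leaf 1 [(3,1),(11,1)]) (.cons (.leaf 1 [(11,1),(3,2),(10,1)]) (.cons (.leaf 1 [(11,1),(3,2),(10,1)])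 (.cons (.leaf 1 [(11,1),(8,2),(10,1)]) (.cons (.leaf 1 [(7,1),(0,2),(11,5),(8,2)]) .nil)))))))) .nil)))))))) .nil)))))))) (.cons (.leaf 1 [(10,3),(7,1),(1,1)]) (.cons (.keep [1,6,7,8,9,10] (.node (.cons (.leaf 1 [(6,1),(2,2),(3,2)]) (.cons (.leaf 1 [(3,2),(11,3),(6,2),(9,1)]) (.cons (.leaf 1 [(6,1),(3,2),(8,1)]) (.cons (.leaf 1 [(8,1),(3,2),(6,1),(11,3)]) (.cons (.leaf 1 [(8,1),(2,1),(6,1)]) (.cons (.keep [4,6,7,8,9,11] (.node (.cons (.leaf 1 [(3,3),(10,3)]) (.cons (.leaf 1 [(3,1),(7,1),(11,2),(9,1)]) (.cons (.leaf 1 [(1,1),(3,3)]) (.cons (.leaf 1 [(1,1),(7,1),(3,3),(9,1)]) (.cons (.leaf 1 [(1,1),(10,3)]) (.cons (.keep [4,7,8,9,10,11] (.node (.cons (.leaf 1 [(3,1),(11,1)]) (.cons (.leaf 1 [(3,1),(11,1)]) (.cons (.leaf 1 [(11,1),(3,2),(10,1)]) (.cons (.leaf 1 [(3,2),(11,1),(10,1)])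 (.cons (.leaf 1 [(11,1),(10,1),(9,2)]) (.cons (.leaf 1 [(7,1),(0,2),(9,1),(11,5)]) .nil)))))))) .nil)))))))) .nil)))))))) .nil)))))))) (.cons (.keep [2,4,6,7,8,9] (.leaf 0 [(0,0)])) (.cons (.keep [1,3,5,8] (.node (.cons (.leaf 1 [(3,1),(8,1),(6,2)]) (.cons (.keep [0,2,6,8,9] (.node (.cons (.leaf 1 [(8,1),(3,2)]) (.cons (.leaf 1 [(3,2),(8,2),(7,1)]) (.cons (.leaf 1 [(8,1),(3,2),(9,1)]) (.cons (.leaf 1 [(3,2),(7,1),(8,2),(9,2)]) (.cons (.keep [5,6,8,9] (.node (.cons (.leaf 1 [(3,1)]) (.cons (.leaf 1 [(2,1),(8,1),(9,1)]) (.cons (.leaf 1 [(3,1)]) (.cons (.keep [0,3,7,8,9] (.node (.cons (.leaf 1 [(3,1)]) (.cons (.leaf 1 [(3,1)]) (.cons (.leaf 1 [(7,1),(3,1)]) (.cons (.leaf 1 [(7,1),(3,1)]) (.cons (.leaf 1 [(10,1)]) (.cons (.leaf 1 [(9,1),(0,1),(10,1)]) .nil)))))))) (.cons (.leaf 1 [])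 (.cons (.keep [0,2,7,8,9] (.node (.cons (.leaf 1 [(3,1),(7,1)]) (.cons (.leaf 1 [(3,1),(7,1)]) (.cons (.leaf 1 [(3,1)]) (.cons (.leaf 1 [(3,1)]) (.cons (.leaf 1 [(10,1)]) (.cons (.leaf 1 [(9,1),(7,1),(0,1),(10,1)]) .nil)))))))) .nil)))))))) (.cons (.keep [0,4,7,8,9] (.node (.cons (.leaf 1 [(3,2),(8,1)]) (.cons (.leaf 1 [(3,1),(9,1),(10,1)]) (.cons (.leaf 1 [(3,2)]) (.cons (.keep [0,3,6,9,10] (.node (.cons (.leaf 1 [(3,1),(2,1)]) (.cons (.leaf 1 [(3,1),(2,1)]) (.cons (.leaf 1 [(3,1),(7,2)]) (.cons (.leaf 1 [(3,1),(7,2)]) (.cons (.leaf 1 [(10,1),(7,1)]) (.cons (.leaf 1 [(9,1),(7,2),(0,1),(10,1)]) .nil)))))))) (.cons (.leaf 1 [(8,1)]) (.cons (.keep [0,2,8,9,10] (.node (.cons (.leaf 1 [(3,1)]) (.cons (.leaf 1 [(3,1)]) (.cons (.leaf 1 [(8,1),(3,2)]) (.cons (.leaf 1 [(8,1),(3,2)]) (.cons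 (.leaf 1 [(8,1),(10,2)]) (.cons (.leaf 1 [(9,2),(0,2),(8,1),(10,2)]) .nil)))))))) .nil)))))))) .nil)))))))) (.cons (.leaf 1 [(3,2),(1,1),(6,2)]) (.cons (.keep [0,1,3,6,7] (.node (.cons (.leaf 1 [(7,1),(3,2)]) (.cons (.leaf 1 [(7,1),(9,2),(3,2)]) (.cons (.leaf 1 [(7,1),(3,2)]) (.cons (.leaf 1 [(7,1),(3,2),(9,2),(8,2)]) (.cons (.leaf 1 [(7,1)]) (.cons (.keep [0,7,8,9,10] (.node (.cons (.leaf 2 [(3,3),(9,1),(8,1)]) (.cons (.leaf 1 [(3,1),(7,1),(9,1),(8,1)]) (.cons (.leaf 1 [(3,2)]) (.cons (.leaf 1 [(7,1),(3,2)]) (.cons (.leaf 1 [(9,1),(6,1)]) (.cons (.keep [0,6,7,8,9] (.node (.cons (.leaf 1 [(3,1)]) (.cons (.leaf 1 [(3,1)]) (.cons (.leaf 1 [(10,1),(3,2),(6,1)]) (.cons (.leaf 1 [(10,1),(3,2),(0,1),(4,1)]) (.cons (.leaf 1 [(10,1),(9,2),(6,1)]) (.cons (.leaf 1 [(10,2),(8,1),(0,2),(9,2)])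 .nil)))))))) .nil)))))))) .nil)))))))) (.cons (.leaf 1 [(6,2),(8,1),(1,1)]) (.cons (.keep [0,1,6,7,8] (.node (.cons (.leaf 1 [(2,1),(7,1),(3,2)]) (.cons (.leaf 1 [(3,2),(7,2),(8,2),(9,1)]) (.cons (.leaf 1 [(7,1),(3,2),(10,1)]) (.cons (.leaf 1 [(7,1),(3,2),(8,2),(10,1)]) (.cons (.leaf 1 [(10,1),(7,1)]) (.cons (.keep [0,7,8,9,10] (.node (.cons (.leaf 2 [(3,3),(8,1)]) (.cons (.leaf 1 [(3,1),(7,1),(8,1),(10,1)]) (.cons (.leaf 1 [(3,2)]) (.cons (.leaf 1 [(7,1),(10,1),(3,2)]) (.cons (.leaf 1 [(9,1)]) (.cons (.keep [0,6,7,8,9,10] (.node (.cons (.leaf 1 [(3,1)]) (.cons (.leaf 1 [(3,1)]) (.cons (.leaf 1 [(9,1),(3,2),(6,1)]) (.cons (.leaf 1 [(0,1),(3,2),(9,1)]) (.cons (.leaf 1 [(9,1),(11,1),(6,1)]) (.cons (.leaf 1 [(8,1),(11,1),(0,2),(9,2)]) .nil)))))))) .nil)))))))) .nil)))))))) .nil))))))))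 (.cons (.keep [1,3,4,6,8] (.node (.cons (.leaf 1 [(3,1),(6,2)]) (.cons (.keep [0,3,6,8,10] (.node (.cons (.leaf 1 [(3,2),(8,1),(9,1)]) (.cons (.leaf 1 [(7,1),(3,2),(8,2),(9,2)]) (.cons (.leaf 1 [(8,1),(3,2)]) (.cons (.leaf 1 [(3,2),(8,2),(7,1)]) (.cons (.keep [5,6,8,9] (.node (.cons (.leaf 1 [(2,1),(8,1)]) (.cons (.leaf 1 [(2,1),(8,1)]) (.cons (.leaf 1 [(3,1),(9,1)]) (.cons (.keep [0,3,7,8,9] (.node (.cons (.leaf 1 [(3,1)]) (.cons (.leaf 1 [(3,1),(10,1)]) (.cons (.leaf 1 [(3,1)]) (.cons (.leaf 1 [(9,1),(3,1),(10,1),(0,1)]) (.cons (.leaf 1 []) (.cons (.leaf 1 [(9,1),(10,1),(0,1)]) .nil)))))))) (.cons (.leaf 1 [(9,1)]) (.cons (.keep [0,2,7,8,9] (.node (.cons (.leaf 1 [(3,1)]) (.cons (.leaf 1 [(3,1),(7,1),(10,1)]) (.cons (.leaf 1 [(3,1)]) (.cons (.leaf 1 [(3,1),(10,1)]) (.cons (.leaf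 1 []) (.cons (.leaf 1 [(9,1),(7,1),(10,1),(0,1)]) .nil)))))))) .nil)))))))) (.cons (.keep [0,4,7,8,9] (.node (.cons (.leaf 1 [(3,1),(9,1)]) (.cons (.leaf 1 [(3,1),(9,1)]) (.cons (.leaf 1 [(10,1),(3,2)]) (.cons (.keep [0,3,8,9,10] (.node (.cons (.leaf 1 [(3,1),(2,1)]) (.cons (.leaf 1 [(3,1),(2,1),(10,1)]) (.cons (.leaf 1 [(7,1),(3,1)]) (.cons (.leaf 1 [(3,1),(10,1),(7,2)]) (.cons (.leaf 1 [(7,1)]) (.cons (.leaf 1 [(9,1),(7,2),(10,1),(0,1)]) .nil)))))))) (.cons (.leaf 1 [(10,2),(8,1)]) (.cons (.keep [0,2,8,9,10] (.node (.cons (.leaf 1 [(3,1),(2,1)]) (.cons (.leaf 1 [(3,1),(10,1)]) (.cons (.leaf 1 [(8,1),(3,2)]) (.cons (.leaf 1 [(8,1),(3,2),(10,2)]) (.cons (.leaf 1 [(8,1)]) (.cons (.leaf 1 [(9,2),(8,1),(10,2),(0,2)]) .nil)))))))) .nil)))))))) .nil)))))))) (.cons (.leaf 1 [(6,2),(3,1),(1,1)])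 (.cons (.keep [0,1,3,6,7,8] (.node (.cons (.leaf 1 [(3,2),(7,1),(11,1)]) (.cons (.leaf 1 [(3,2),(7,1),(9,2),(11,1)]) (.cons (.leaf 1 [(7,1),(1,1),(3,2)]) (.cons (.leaf 1 [(7,1),(3,2),(9,2),(8,1)]) (.cons (.leaf 1 [(7,1),(11,1)]) (.cons (.keep [0,7,8,9,10,11] (.node (.cons (.leaf 1 [(3,1),(2,1),(9,1)]) (.cons (.leaf 1 [(3,1),(7,1),(9,1)]) (.cons (.leaf 1 [(11,1),(3,2)]) (.cons (.leaf 1 [(7,1),(3,2),(11,1)]) (.cons (.leaf 1 [(11,1),(10,1)]) (.cons (.keep [0,6,7,9,11] (.node (.cons (.leaf 1 [(3,1),(2,1)]) (.cons (.leaf 1 [(10,1),(3,1)]) (.cons (.leaf 1 [(9,1),(3,2),(6,1)]) (.cons (.leaf 1 [(3,2),(10,1),(9,1),(0,1)]) (.cons (.leaf 1 [(6,1),(9,1)]) (.cons (.leaf 1 [(8,1),(9,2),(10,1),(0,2)]) .nil)))))))) .nil)))))))) .nil)))))))) (.cons (.leaf 1 [(6,2),(1,1)]) (.cons (.keep [0,1,6,7]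 (.node (.cons (.leaf 1 [(3,2),(7,1)]) (.cons (.leaf 1 [(3,2),(7,3),(8,2),(9,2)]) (.cons (.leaf 1 [(7,1),(3,2)]) (.cons (.leaf 1 [(7,1),(8,2),(3,2)]) (.cons (.leaf 1 [(7,1)]) (.cons (.keep [0,7,8,9] (.node (.cons (.leaf 1 [(3,1),(7,1),(8,1)]) (.cons (.leaf 1 [(3,1),(8,1),(7,1)]) (.cons (.leaf 1 [(7,1),(3,2)]) (.cons (.leaf 1 [(7,1),(3,2)]) (.cons (.leaf 1 [(7,1),(9,2)]) (.cons (.keep [0,6,7,8,9] (.node (.cons (.leaf 1 [(3,1),(2,1)]) (.cons (.leaf 1 [(8,1),(2,2)]) (.cons (.leaf 1 [(9,1),(3,2),(6,1)]) (.cons (.leaf 1 [(3,2),(8,1),(10,2)]) (.cons (.leaf 1 [(9,1),(6,1),(2,1)]) (.cons (.leaf 1 [(9,2),(10,2),(8,3),(0,2)]) .nil)))))))) .nil)))))))) .nil)))))))) .nil)))))))) (.cons (.keep [2,5,6,7,9] (.node (.cons (.leaf 1 [(3,2),(10,2)]) (.cons (.keep [0,2,6,7,10] (.node (.cons (.leaf 1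 [(3,2)]) (.cons (.leaf 1 [(3,2),(10,2),(7,2)]) (.cons (.leaf 1 [(3,2)]) (.cons (.leaf 1 [(3,2),(7,2),(10,2),(9,2)]) (.cons (.leaf 1 []) (.cons (.keep [0,7,8,9,10] (.node (.cons (.leaf 1 [(3,2),(7,2)]) (.cons (.leaf 1 [(3,1),(10,1),(9,1),(7,1)]) (.cons (.leaf 1 [(3,2)]) (.cons (.leaf 1 [(3,2)]) (.cons (.leaf 1 [(7,2)]) (.cons (.keep [0,6,7,9,10] (.node (.cons (.leaf 1 [(2,2)]) (.cons (.leaf 1 [(2,2)]) (.cons (.leaf 1 [(3,2),(8,2)]) (.cons (.leaf 1 [(3,2),(8,2)]) (.cons (.leaf 1 [(9,2),(8,2)]) (.cons (.leaf 1 [(10,2),(0,2),(8,4),(9,2)]) .nil)))))))) .nil)))))))) .nil)))))))) (.cons (.leaf 1 [(3,2),(10,2)]) (.cons (.keep [0,1,3,9,10] (.node (.cons (.leaf 1 [(3,2)]) (.cons (.leaf 1 [(10,2),(3,2)]) (.cons (.leaf 1 [(3,2)]) (.cons (.leaf 1 [(3,2),(10,2),(8,2)]) (.cons (.leaf 1 []) (.cons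 (.keep [0,7,8,9,10] (.node (.cons (.leaf 1 [(3,2),(9,2)]) (.cons (.leaf 1 [(3,1),(8,1),(10,1)]) (.cons (.leaf 1 [(3,2)]) (.cons (.leaf 1 [(3,2)]) (.cons (.leaf 1 [(9,2)]) (.cons (.keep [0,6,7,8,9,10] (.node (.cons (.leaf 1 [(2,2)]) (.cons (.leaf 1 [(2,2)]) (.cons (.leaf 1 [(3,2),(10,2)]) (.cons (.leaf 1 [(3,2),(10,2)]) (.cons (.leaf 1 [(9,2),(10,2)]) (.cons (.leaf 1 [(11,2),(0,2),(10,2),(9,2)]) .nil)))))))) .nil)))))))) .nil)))))))) (.cons (.leaf 1 [(10,2)]) (.cons (.keep [0,2,6,7,9,10] (.node (.cons (.leaf 1 [(3,2)]) (.cons (.leaf 1 [(3,2),(11,2),(7,2)]) (.cons (.leaf 1 [(3,2)]) (.cons (.leaf 1 [(3,2),(11,2)]) (.cons (.leaf 1 []) (.cons (.keep [0,7,8,9,10,11] (.node (.cons (.leaf 1 [(3,2),(10,2)]) (.cons (.leaf 1 [(3,1),(11,1)]) (.cons (.leaf 1 [(3,2)]) (.cons (.leaf 1 [(3,2)])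 (.cons (.leaf 1 [(10,2)]) (.cons (.keep [0,6,7,8,10,11] (.node (.cons (.leaf 1 [(2,2)]) (.cons (.leaf 1 [(2,2)]) (.cons (.leaf 1 [(3,2),(10,2)]) (.cons (.leaf 1 [(3,2),(10,2)]) (.cons (.leaf 1 [(11,2),(6,2),(10,2)]) (.cons (.leaf 1 [(0,2),(10,2),(11,2)]) .nil)))))))) .nil)))))))) .nil)))))))) .nil)))))))) (.cons (.keep [2,4,6,7,9] (.node (.cons (.leaf 1 [(3,1),(2,1),(10,2)]) (.cons (.keep [0,3,6,7,10] (.node (.cons (.leaf 1 [(3,2),(9,1)]) (.cons (.leaf 1 [(7,2),(3,2),(10,2),(9,3)]) (.cons (.leaf 1 [(1,1),(3,2)]) (.cons (.leaf 1 [(1,1),(3,2),(10,2),(7,2)]) (.cons (.leaf 1 [(9,1)]) (.cons (.keep [0,7,8,9,10] (.node (.cons (.leaf 1 [(3,2),(9,3),(7,2)]) (.cons (.leaf 1 [(3,1),(10,1),(7,1),(9,1)]) (.cons (.leaf 1 [(9,1),(3,2)]) (.cons (.leaf 1 [(3,2),(9,1)]) (.cons (.leaf 1 [(9,3),(7,2)])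 (.cons (.keep [0,6,7,9,10] (.node (.cons (.leaf 1 [(2,3)]) (.cons (.leaf 1 [(2,2),(9,1)]) (.cons (.leaf 1 [(3,2),(8,2)]) (.cons (.leaf 1 [(3,2),(8,2),(9,3)]) (.cons (.leaf 1 [(8,2),(2,1)]) (.cons (.leaf 1 [(10,2),(8,4),(9,5),(0,2)]) .nil)))))))) .nil)))))))) .nil)))))))) (.cons (.leaf 1 [(3,1),(10,2)]) (.cons (.keep [0,1,3,7,9,10] (.node (.cons (.leaf 1 [(3,2),(9,1)]) (.cons (.leaf 1 [(3,2),(11,2),(9,1)]) (.cons (.leaf 1 [(1,1),(3,2)]) (.cons (.leaf 1 [(3,2),(11,2),(8,1)]) (.cons (.leaf 1 [(9,1)]) (.cons (.keep [0,7,8,9,10,11] (.node (.cons (.leaf 1 [(3,2),(9,1),(10,2)]) (.cons (.leaf 1 [(3,1),(11,1)]) (.cons (.leaf 1 [(9,1),(3,2)]) (.cons (.leaf 1 [(3,2),(9,1)]) (.cons (.leaf 1 [(9,1),(10,2)]) (.cons (.keep [0,6,7,9,10,11] (.node (.cons (.leaf 1 [(2,3)]) (.cons (.leaf 1 [(2,2),(9,1)])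 (.cons (.leaf 1 [(3,2),(10,2)]) (.cons (.leaf 1 [(9,1),(3,2),(10,2)]) (.cons (.leaf 1 [(11,1),(6,1),(10,2)]) (.cons (.leaf 1 [(11,2),(10,2),(9,1),(0,2)]) .nil)))))))) .nil)))))))) .nil)))))))) (.cons (.leaf 1 [(10,2),(2,1)]) (.cons (.keep [0,2,6,9,10] (.node (.cons (.leaf 1 [(3,2),(7,1)]) (.cons (.leaf 1 [(3,2),(10,2),(7,3)]) (.cons (.leaf 1 [(1,1),(3,2)]) (.cons (.leaf 1 [(1,1),(10,2),(3,2)]) (.cons (.leaf 1 [(7,1)]) (.cons (.keep [0,7,8,9,10] (.node (.cons (.leaf 1 [(3,2),(7,1),(9,2)]) (.cons (.leaf 1 [(3,1),(10,1),(7,1)]) (.cons (.leaf 1 [(7,1),(3,2)]) (.cons (.leaf 1 [(3,2),(7,1)]) (.cons (.leaf 1 [(7,1),(9,2)]) (.cons (.keep [0,6,7,8,9,10] (.node (.cons (.leaf 1 [(2,3)]) (.cons (.leaf 1 [(2,2),(8,1)]) (.cons (.leaf 1 [(3,2),(10,2)]) (.cons (.leaf 1 [(8,1),(3,2),(10,2)]) (.cons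 (.leaf 2 [(11,1),(6,1),(10,4)]) (.cons (.leaf 1 [(11,2),(10,2),(8,3),(0,2)]) .nil)))))))) .nil)))))))) .nil)))))))) .nil)))))))) .nil)))))))

theorem c_14_24_7 : Concl 14 24 z_14_24_7 h_14_24_7 .nd := piece _ (hP_cons E37.c_14_24_6 hP_nil)
  t_14_24_7 _ _ (by decide +kernel)

def t_14_24 : T := (.keep [0,1,2] (.node (.cons (.keep [2,3,5,6] (.node (.cons (.keep [2,5,8,9] (.leaf 0 [(0,0)])) (.cons (.keep [2,4,6,8,9] (.leaf 0 [(1,0)])) (.cons (.keep [1,3,5,9] (.node (.cons (.leaf 1 [(8,1),(6,1)]) (.cons (.keep [0,2,6,8,9] (.node (.cons (.leaf 1 [(3,1),(8,1)]) (.cons (.leaf 1 [(3,1),(8,1)]) (.cons (.leaf 1 [(9,1),(3,1),(8,1)]) (.cons (.leaf 1 [(9,1),(3,1),(8,1)]) (.cons (.keep [5,6,8,9] (.node (.cons (.leaf 1 [(3,1)]) (.cons (.leaf 1 [(2,1),(8,1),(9,1)]) (.cons (.leaf 1 [(3,1)]) (.cons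 (.keep [0,3,7,8,9] (.node (.cons (.leaf 1 [(3,1)]) (.cons (.leaf 1 [(3,1)]) (.cons (.leaf 1 [(7,1),(3,1)]) (.cons (.leaf 1 [(7,1),(3,1)]) (.cons (.leaf 1 [(10,1)]) (.cons (.leaf 1 [(9,1),(0,1),(10,1)]) .nil)))))))) (.cons (.leaf 1 []) (.cons (.keep [0,2,7,8,9] (.node (.cons (.leaf 1 [(3,1),(7,1)]) (.cons (.leaf 1 [(3,1),(7,1)]) (.cons (.leaf 1 [(3,1)]) (.cons (.leaf 1 [(3,1)]) (.cons (.leaf 1 [(10,1)]) (.cons (.leaf 1 [(9,1),(7,1),(0,1),(10,1)]) .nil)))))))) .nil)))))))) (.cons (.keep [0,4,8,9] (.node (.cons (.leaf 1 [(3,1)]) (.cons (.leaf 1 [(2,1),(8,1),(9,1)]) (.cons (.leaf 1 [(3,1)]) (.cons (.keep [0,3,6,7,8,9] (.node (.cons (.leaf 1 [(3,1)]) (.cons (.leaf 1 [(3,1)]) (.cons (.leaf 1 [(7,1),(3,1)]) (.cons (.leaf 1 [(7,1),(3,1)]) (.cons (.leaf 1 [(11,1)]) (.cons (.leaf 1 [(10,1),(0,1),(11,1)])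 .nil)))))))) (.cons (.leaf 1 []) (.cons (.keep [0,2,6,8,9] (.node (.cons (.leaf 1 [(3,1),(7,1)]) (.cons (.leaf 1 [(3,1),(7,1)]) (.cons (.leaf 1 [(3,1)]) (.cons (.leaf 1 [(3,1)]) (.cons (.leaf 1 [(10,1)]) (.cons (.leaf 1 [(9,1),(7,1),(0,1),(10,1)]) .nil)))))))) .nil)))))))) .nil)))))))) (.cons (.leaf 1 [(6,1),(3,1),(1,1)]) (.cons (.keep [0,1,3,6,7] (.node (.cons (.leaf 1 [(3,1),(7,1)]) (.cons (.leaf 1 [(3,1),(9,1),(7,1)]) (.cons (.leaf 1 [(3,1),(7,1)]) (.cons (.leaf 1 [(8,1),(3,1),(9,1),(7,1)]) (.cons (.leaf 1 [(7,1)]) (.cons (.keep [0,6,7,8,9] (.node (.cons (.leaf 1 [(3,1)]) (.cons (.leaf 2 [(3,1),(10,1),(8,2),(9,1)]) (.cons (.leaf 1 [(3,1)]) (.cons (.leaf 1 [(3,1),(8,1)]) (.cons (.leaf 1 []) (.cons (.leaf 1 [(10,1),(8,2),(0,1)]) .nil)))))))) .nil)))))))) (.cons (.leaf 1 [(6,1),(8,1),(1,1)])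 (.cons (.keep [0,1,6,7,8] (.node (.cons (.leaf 1 [(3,1),(7,1),(2,1)]) (.cons (.leaf 1 [(3,1),(7,1),(8,1)]) (.cons (.leaf 1 [(10,1),(3,1),(7,1)]) (.cons (.leaf 1 [(10,1),(3,1),(8,1),(7,1)]) (.cons (.leaf 1 [(10,1),(7,1)]) (.cons (.keep [0,6,7,8,10] (.node (.cons (.leaf 1 [(3,1)]) (.cons (.leaf 2 [(3,1),(9,1),(8,2),(10,2)]) (.cons (.leaf 1 [(3,1)]) (.cons (.leaf 1 [(8,1),(3,1),(10,1)]) (.cons (.leaf 1 []) (.cons (.leaf 1 [(8,2),(9,1),(10,1),(0,1)]) .nil)))))))) .nil)))))))) .nil)))))))) (.cons (.keep [0,1,3,4,9] (.node (.cons (.leaf 1 [(7,1)]) (.cons (.keep [0,3,7,9,10] (.node (.cons (.leaf 1 [(3,1),(9,1),(8,1)]) (.cons (.leaf 1 [(3,1),(9,1),(8,1)]) (.cons (.leaf 1 [(3,1),(8,1)]) (.cons (.leaf 1 [(3,1),(8,1)]) (.cons (.keep [5,6,8,9] (.node (.cons (.leaf 1 [(2,1),(8,1)]) (.cons (.leaf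 1 [(2,1),(8,1)]) (.cons (.leaf 1 [(3,1),(9,1)]) (.cons (.keep [0,3,7,8,9] (.node (.cons (.leaf 1 [(3,1)]) (.cons (.leaf 1 [(3,1),(10,1)]) (.cons (.leaf 1 [(3,1)]) (.cons (.leaf 1 [(9,1),(3,1),(10,1),(0,1)]) (.cons (.leaf 1 []) (.cons (.leaf 1 [(9,1),(10,1),(0,1)]) .nil)))))))) (.cons (.leaf 1 [(9,1)]) (.cons (.keep [0,2,7,8,9] (.node (.cons (.leaf 1 [(3,1)]) (.cons (.leaf 1 [(3,1),(7,1),(10,1)]) (.cons (.leaf 1 [(3,1)]) (.cons (.leaf 1 [(3,1),(10,1)]) (.cons (.leaf 1 []) (.cons (.leaf 1 [(9,1),(7,1),(10,1),(0,1)]) .nil)))))))) .nil)))))))) (.cons (.keep [0,4,8,9] (.node (.cons (.leaf 1 [(2,1),(8,1)]) (.cons (.leaf 1 [(2,1),(8,1)]) (.cons (.leaf 1 [(3,1),(9,1)]) (.cons (.keep [0,3,6,7,8,9] (.node (.cons (.leaf 1 [(3,1)]) (.cons (.leaf 1 [(3,1),(11,1)]) (.cons (.leaf 1 [(3,1)]) (.cons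 (.leaf 1 [(10,1),(3,1),(11,1),(0,1)]) (.cons (.leaf 1 []) (.cons (.leaf 1 [(10,1),(11,1),(0,1)]) .nil)))))))) (.cons (.leaf 1 [(9,1)]) (.cons (.keep [0,2,6,8,9] (.node (.cons (.leaf 1 [(3,1)]) (.cons (.leaf 1 [(3,1),(7,1),(10,1)]) (.cons (.leaf 1 [(3,1)]) (.cons (.leaf 1 [(3,1),(10,1)]) (.cons (.leaf 1 []) (.cons (.leaf 1 [(9,1),(7,1),(10,1),(0,1)]) .nil)))))))) .nil)))))))) .nil)))))))) (.cons (.leaf 1 [(7,1),(1,1)]) (.cons (.keep [0,1,3,7,8,9] (.node (.cons (.leaf 1 [(3,1),(11,1),(7,1)]) (.cons (.leaf 1 [(3,1),(11,1),(9,1),(7,1)]) (.cons (.leaf 1 [(7,1),(3,1),(1,1)]) (.cons (.leaf 1 [(7,1),(3,1),(9,1)]) (.cons (.leaf 1 [(7,1),(11,1)]) (.cons (.keep [0,6,7,9,11] (.node (.cons (.leaf 1 [(2,2),(9,1)]) (.cons (.leaf 1 [(8,1),(9,1),(2,1)]) (.cons (.leaf 1 [(3,1),(10,1)]) (.cons (.leaf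 1 [(3,1),(8,1),(10,1)]) (.cons (.leaf 1 [(10,1)]) (.cons (.leaf 1 [(0,1),(9,1),(8,2),(10,2)]) .nil)))))))) .nil)))))))) (.cons (.leaf 1 [(7,1),(1,1)]) (.cons (.keep [0,1,7,8] (.node (.cons (.leaf 1 [(3,1),(7,1)]) (.cons (.leaf 1 [(3,1),(9,1),(8,1),(7,2)]) (.cons (.leaf 1 [(3,1),(7,1)]) (.cons (.leaf 1 [(3,1),(8,1),(7,1)]) (.cons (.leaf 1 [(7,1)]) (.cons (.keep [0,6,7,8,9] (.node (.cons (.leaf 2 [(3,1),(9,1),(8,2)]) (.cons (.leaf 2 [(3,1),(9,1),(8,2)]) (.cons (.leaf 1 [(3,1),(8,1)]) (.cons (.leaf 1 [(3,1),(8,1)]) (.cons (.leaf 1 [(10,1),(8,1)]) (.cons (.leaf 1 [(0,1),(9,1),(8,3),(10,1)]) .nil)))))))) .nil)))))))) .nil)))))))) (.cons (.keep [1,2,5,7,8] (.node (.cons (.leaf 1 [(3,1),(6,1),(2,1)]) (.cons (.keep [0,2,6,7,8] (.node (.cons (.leaf 1 [(3,1)]) (.cons (.leaf 1 [(3,1),(8,1),(7,2)])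 (.cons (.leaf 1 [(3,1)]) (.cons (.leaf 1 [(3,1),(7,2),(8,1),(10,1)]) (.cons (.leaf 1 []) (.cons (.keep [0,6,7,8,10] (.node (.cons (.leaf 1 [(3,1),(8,1)]) (.cons (.leaf 1 [(3,1),(9,1),(0,1),(8,2)]) (.cons (.leaf 1 [(3,1)]) (.cons (.leaf 1 [(3,1)]) (.cons (.leaf 1 [(8,1)]) (.cons (.leaf 1 [(9,1),(0,1),(8,2)]) .nil)))))))) .nil)))))))) (.cons (.leaf 1 [(10,1),(3,1),(6,1)]) (.cons (.keep [0,1,3,6,10] (.node (.cons (.leaf 1 [(3,1)]) (.cons (.leaf 1 [(3,1),(9,1),(10,1)]) (.cons (.leaf 1 [(3,1)]) (.cons (.leaf 1 [(8,1),(3,1),(9,1),(10,1)]) (.cons (.leaf 1 []) (.cons (.keep [0,6,7,8,9,10] (.node (.cons (.leaf 1 [(10,1),(9,1)]) (.cons (.leaf 1 [(10,1),(9,1),(4,1)]) (.cons (.leaf 1 [(3,1)]) (.cons (.leaf 1 [(3,1)]) (.cons (.leaf 1 [(11,1)]) (.cons (.leaf 1 [(10,1),(0,1),(11,1)]) .nil))))))))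 .nil)))))))) (.cons (.leaf 1 [(10,1),(6,1)]) (.cons (.keep [0,2,6,7,8,10] (.node (.cons (.leaf 1 [(3,1)]) (.cons (.leaf 1 [(3,1),(7,1),(8,1),(11,1)]) (.cons (.leaf 1 [(3,1)]) (.cons (.leaf 1 [(8,1),(3,1),(11,1)]) (.cons (.leaf 1 []) (.cons (.keep [0,6,7,8,9,11] (.node (.cons (.leaf 1 [(9,1)]) (.cons (.leaf 1 [(9,1),(4,1)]) (.cons (.leaf 1 [(3,1)]) (.cons (.leaf 1 [(3,1)]) (.cons (.leaf 1 [(11,1)]) (.cons (.leaf 1 [(0,1),(9,1),(11,1),(8,1)]) .nil)))))))) .nil)))))))) .nil)))))))) (.cons (.keep [1,2,4,7,8] (.node (.cons (.leaf 1 [(2,2),(6,1)]) (.cons (.keep [0,3,6,7,8] (.node (.cons (.leaf 1 [(3,1),(10,1)]) (.cons (.leaf 1 [(7,2),(3,1),(8,1),(10,3)]) (.cons (.leaf 1 [(1,1),(3,1)]) (.cons (.leaf 1 [(1,2),(3,1),(8,1),(7,2)]) (.cons (.leaf 1 [(10,1)]) (.cons (.keep [0,6,7,8,10] (.node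 (.cons (.leaf 1 [(9,1),(8,1),(10,1)]) (.cons (.leaf 1 [(9,1),(8,1),(4,1),(10,1)]) (.cons (.leaf 1 [(3,1),(10,1)]) (.cons (.leaf 1 [(3,1),(10,1)]) (.cons (.leaf 1 [(10,2),(8,1)]) (.cons (.leaf 1 [(9,1),(8,2),(0,1),(10,4)]) .nil)))))))) .nil)))))))) (.cons (.leaf 1 [(10,1),(6,1)]) (.cons (.keep [0,1,3,6,8,10] (.node (.cons (.leaf 1 [(3,1),(10,1)]) (.cons (.leaf 1 [(3,1),(10,1),(9,1),(11,1)]) (.cons (.leaf 1 [(1,1),(3,1)]) (.cons (.leaf 1 [(11,1),(3,1),(9,1)]) (.cons (.leaf 1 [(10,1)]) (.cons (.keep [0,6,7,9,10,11] (.node (.cons (.leaf 1 [(9,1)]) (.cons (.leaf 1 [(9,1),(4,1)]) (.cons (.leaf 1 [(3,1),(10,1)]) (.cons (.leaf 1 [(3,1),(10,1)]) (.cons (.leaf 1 [(10,1),(11,1)]) (.cons (.leaf 1 [(0,1),(9,1),(11,1),(10,2)]) .nil)))))))) .nil)))))))) (.cons (.leaf 1 [(10,1),(2,1),(6,1)]) (.cons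 (.keep [0,2,6,7,10] (.node (.cons (.leaf 1 [(3,1),(7,1)]) (.cons (.leaf 1 [(8,1),(3,1),(7,2),(10,1)]) (.cons (.leaf 1 [(1,1),(3,1)]) (.cons (.leaf 1 [(1,1),(3,1),(8,1),(10,1)]) (.cons (.leaf 1 [(7,1)]) (.cons (.keep [0,6,7,8,9,10] (.node (.cons (.leaf 1 [(9,1),(8,1)]) (.cons (.leaf 1 [(9,1),(4,1),(8,1)]) (.cons (.leaf 1 [(3,1),(8,1)]) (.cons (.leaf 1 [(3,1),(8,1)]) (.cons (.leaf 1 [(8,1),(11,1)]) (.cons (.leaf 1 [(0,1),(9,1),(11,1),(8,3)]) .nil)))))))) .nil)))))))) .nil)))))))) .nil)))))))) (.cons (.keep [0,2,3,4,6] (.node (.cons (.keep [3,5,7,9] (.leaf 0 [(2,0)])) (.cons (.keep [3,4,7,9] (.leaf 0 [(3,0)])) (.cons (.keep [1,3,5,8,9] (.node (.cons (.leaf 1 [(10,1),(8,1),(6,1)]) (.cons (.keep [0,2,6,8,10] (.node (.cons (.leaf 1 [(3,1),(8,2)]) (.cons (.leaf 1 [(3,1),(8,2),(4,1)]) (.cons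 (.leaf 1 [(3,1),(9,2),(8,2)]) (.cons (.leaf 1 [(3,1),(9,2),(8,2),(4,1)]) (.cons (.leaf 1 [(10,2)]) (.cons (.keep [0,6,8,9,10] (.node (.cons (.leaf 1 [(3,1),(2,1)]) (.cons (.leaf 1 [(8,1),(2,1),(10,1),(9,1)]) (.cons (.leaf 1 [(3,1)]) (.cons (.leaf 1 [(3,1),(10,2)]) (.cons (.leaf 1 [(2,1)]) (.cons (.leaf 1 [(10,3),(8,1),(0,1)]) .nil)))))))) .nil)))))))) (.cons (.leaf 1 [(1,2),(3,1),(6,1)]) (.cons (.keep [0,1,3,6,7] (.node (.cons (.leaf 1 [(3,1),(7,2)]) (.cons (.leaf 1 [(3,1),(9,1),(7,2)]) (.cons (.leaf 1 [(3,1),(7,2)]) (.cons (.leaf 1 [(8,1),(7,2),(9,1),(3,1)]) (.cons (.leaf 1 [(7,2)]) (.cons (.keep [0,6,7,8,9] (.node (.cons (.leaf 1 [(3,1),(2,1)]) (.cons (.leaf 1 [(2,1),(8,2),(10,1),(9,1)]) (.cons (.leaf 1 [(3,1)]) (.cons (.leaf 1 [(3,1),(8,2)]) (.cons (.leaf 1 [(2,1)]) (.cons (.leaf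 1 [(8,4),(10,1),(0,1)]) .nil)))))))) .nil)))))))) (.cons (.leaf 1 [(8,2),(6,1),(1,2)]) (.cons (.keep [0,2,6,7,8,10] (.node (.cons (.leaf 1 [(3,1),(11,2)]) (.cons (.leaf 1 [(3,1),(7,1),(8,1),(11,2)]) (.cons (.leaf 1 [(3,1),(11,2)]) (.cons (.leaf 1 [(3,1),(11,2),(8,1)]) (.cons (.leaf 1 [(11,2)]) (.cons (.keep [0,6,7,8,11] (.node (.cons (.leaf 1 [(3,1),(2,1)]) (.cons (.leaf 1 [(2,1),(10,2),(9,1)]) (.cons (.leaf 1 [(3,1)]) (.cons (.leaf 1 [(3,1),(10,2)]) (.cons (.leaf 1 [(2,1)]) (.cons (.leaf 1 [(8,1),(10,4),(9,1),(0,1)]) .nil)))))))) .nil)))))))) .nil)))))))) (.cons (.keep [1,3,4,8,9] (.node (.cons (.leaf 1 [(10,1),(6,1)]) (.cons (.keep [0,3,6,8,10] (.node (.cons (.leaf 1 [(3,1),(9,1),(8,2)]) (.cons (.leaf 1 [(3,1),(9,1),(8,2),(4,1)]) (.cons (.leaf 1 [(10,1),(3,1),(8,1)]) (.cons (.leaf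 1 [(3,1),(8,1),(10,1)]) (.cons (.leaf 1 [(10,2),(9,1)]) (.cons (.keep [0,6,8,9,10] (.node (.cons (.leaf 1 [(8,1),(2,2)]) (.cons (.leaf 1 [(8,1),(2,1),(10,1)]) (.cons (.leaf 1 [(3,1),(9,1)]) (.cons (.leaf 1 [(9,1),(3,1),(10,2)]) (.cons (.leaf 1 [(9,1),(2,1)]) (.cons (.leaf 1 [(9,2),(10,3),(8,1),(0,1)]) .nil)))))))) .nil)))))))) (.cons (.leaf 1 [(1,2),(6,1)]) (.cons (.keep [0,1,3,6,7,8] (.node (.cons (.leaf 1 [(3,1),(11,1),(7,2)]) (.cons (.leaf 1 [(3,1),(11,1),(9,1),(7,2)]) (.cons (.leaf 1 [(7,2),(3,1),(1,1)]) (.cons (.leaf 1 [(7,2),(3,1),(9,1)]) (.cons (.leaf 1 [(7,2),(11,1)]) (.cons (.keep [0,6,7,9,11] (.node (.cons (.leaf 1 [(9,1),(2,3)]) (.cons (.leaf 1 [(2,1),(8,2),(9,1)]) (.cons (.leaf 1 [(3,1),(10,1)]) (.cons (.leaf 1 [(10,1),(3,1),(8,2)]) (.cons (.leaf 1 [(10,1),(2,1)]) (.cons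 (.leaf 1 [(10,2),(8,4),(9,1),(0,1)]) .nil)))))))) .nil)))))))) (.cons (.leaf 1 [(1,1),(10,1),(6,1)]) (.cons (.keep [0,2,6,7,10] (.node (.cons (.leaf 1 [(3,1),(7,1),(10,2)]) (.cons (.leaf 1 [(8,1),(3,1),(7,2),(10,2)]) (.cons (.leaf 1 [(10,2),(3,1),(1,1)]) (.cons (.leaf 1 [(10,2),(3,1),(8,1),(1,1)]) (.cons (.leaf 1 [(10,2),(7,1)]) (.cons (.keep [0,6,7,8,10] (.node (.cons (.leaf 1 [(3,1),(2,1),(8,1)]) (.cons (.leaf 1 [(8,1),(10,2),(9,1),(2,1)]) (.cons (.leaf 1 [(3,1),(8,1)]) (.cons (.leaf 1 [(8,1),(3,1),(10,2)]) (.cons (.leaf 1 [(8,1),(2,1)]) (.cons (.leaf 1 [(8,3),(10,4),(9,1),(0,1)]) .nil)))))))) .nil)))))))) .nil)))))))) (.cons (.keep [1,2,5,6] (.node (.cons (.leaf 1 [(3,1),(6,1)]) (.cons (.keep [0,2,6,7,8] (.node (.cons (.leaf 2 [(3,2),(8,1)]) (.cons (.leaf 1 [(7,1),(8,1),(3,1)])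 (.cons (.leaf 1 [(9,1),(3,1)]) (.cons (.leaf 1 [(10,1),(7,1),(8,1),(3,1)]) (.cons (.leaf 1 [(9,1)]) (.cons (.keep [0,6,7,8,9,10] (.node (.cons (.leaf 1 [(3,1)]) (.cons (.leaf 1 [(3,1),(9,1),(0,1)]) (.cons (.leaf 1 [(3,1)]) (.cons (.leaf 1 [(3,1),(9,1),(0,1)]) (.cons (.leaf 1 []) (.cons (.leaf 1 [(9,1),(0,1)]) .nil)))))))) .nil)))))))) (.cons (.leaf 1 [(3,1),(6,1)]) (.cons (.keep [0,1,3,6] (.node (.cons (.leaf 1 [(3,1),(7,1)]) (.cons (.leaf 1 [(3,1),(9,1)]) (.cons (.leaf 1 [(3,1),(7,1)]) (.cons (.leaf 1 [(8,1),(3,1),(9,1)]) (.cons (.leaf 1 [(7,1)]) (.cons (.keep [0,6,7,8,9] (.node (.cons (.leaf 1 [(3,1)]) (.cons (.leaf 2 [(3,1),(10,1),(8,1),(9,1)]) (.cons (.leaf 1 [(3,1)]) (.cons (.leaf 1 [(3,1),(8,1)]) (.cons (.leaf 1 []) (.cons (.leaf 1 [(10,1),(8,1),(0,1)]) .nil)))))))) .nil))))))))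 (.cons (.leaf 1 [(6,1)]) (.cons (.keep [0,2,6,7,8] (.node (.cons (.leaf 1 [(3,1),(7,1),(8,1)]) (.cons (.leaf 1 [(3,1),(7,1),(8,1)]) (.cons (.leaf 1 [(3,1),(8,1)]) (.cons (.leaf 1 [(3,1),(8,1)]) (.cons (.leaf 1 [(9,1)]) (.cons (.keep [0,6,7,8,9] (.node (.cons (.leaf 1 [(3,1)]) (.cons (.leaf 1 [(2,1),(9,1)]) (.cons (.leaf 1 [(3,1)]) (.cons (.leaf 1 [(3,1),(10,1)]) (.cons (.leaf 1 []) (.cons (.leaf 1 [(8,1),(9,1),(10,1),(0,1)]) .nil)))))))) .nil)))))))) .nil)))))))) (.cons (.keep [0,1,2,4] (.node (.cons (.leaf 1 [(7,1),(2,1)]) (.cons (.keep [0,3,7,8,9] (.node (.cons (.leaf 2 [(3,2),(10,2),(8,1)]) (.cons (.leaf 1 [(3,1),(7,1),(8,1),(10,2)]) (.cons (.leaf 2 [(8,1),(3,2),(1,1)]) (.cons (.leaf 1 [(8,1),(7,1),(1,1),(3,1)]) (.cons (.leaf 1 [(9,1),(10,1)]) (.cons (.keep [0,6,7,8,9,10] (.node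 (.cons (.leaf 1 [(9,1)]) (.cons (.leaf 1 [(4,1),(9,1)]) (.cons (.leaf 1 [(3,1),(11,1)]) (.cons (.leaf 1 [(0,1),(9,1),(11,2),(3,1)]) (.cons (.leaf 1 [(11,1)]) (.cons (.leaf 1 [(0,1),(9,1),(11,2)]) .nil)))))))) .nil)))))))) (.cons (.leaf 1 [(7,1)]) (.cons (.keep [0,1,3,7,9] (.node (.cons (.leaf 1 [(3,1),(10,1),(7,1)]) (.cons (.leaf 1 [(3,1),(10,1),(9,1)]) (.cons (.leaf 1 [(7,1),(3,1),(1,1)]) (.cons (.leaf 1 [(3,1),(9,1)]) (.cons (.leaf 1 [(7,1),(10,1)]) (.cons (.keep [0,6,7,9,10] (.node (.cons (.leaf 1 [(2,1),(9,1)]) (.cons (.leaf 1 [(2,1),(9,1)]) (.cons (.leaf 1 [(3,1),(10,1)]) (.cons (.leaf 1 [(3,1),(8,1),(10,1)]) (.cons (.leaf 1 [(10,1)]) (.cons (.leaf 1 [(0,1),(9,1),(8,1),(10,2)]) .nil)))))))) .nil)))))))) (.cons (.leaf 1 [(7,1),(2,1)]) (.cons (.keep [0,2,7,8] (.node (.cons (.leaf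 1 [(8,1),(3,1),(7,2)]) (.cons (.leaf 1 [(8,1),(3,1),(7,2)]) (.cons (.leaf 1 [(8,1),(3,1),(1,1)]) (.cons (.leaf 1 [(8,1),(3,1),(1,1)]) (.cons (.leaf 1 [(9,1),(7,1)]) (.cons (.keep [0,6,7,8,9] (.node (.cons (.leaf 1 [(3,1),(8,1)]) (.cons (.leaf 1 [(2,1),(9,1),(8,1)]) (.cons (.leaf 1 [(3,1),(8,1)]) (.cons (.leaf 1 [(3,1),(10,1),(8,1)]) (.cons (.leaf 1 [(8,1)]) (.cons (.leaf 1 [(0,1),(9,1),(10,1),(8,3)]) .nil)))))))) .nil)))))))) .nil)))))))) .nil)))))))) (.cons (.keep [1,3,5,7] (.leaf 0 [(4,0)])) (.cons (.keep [0,1,3,4,7] (.leaf 0 [(5,0)])) (.cons (.leaf 1 []) (.cons (.leaf 1 [(4,1)]) .nil))))))))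

theorem e_14_24 : ESB (caseOf 4 14 24) := esb_of_pieces _ (hP_cons c_14_24_4 (hP_cons c_14_24_5
  (hP_cons c_14_24_7 (hP_cons E37.c_14_24_8 (hP_cons c_14_24_10 (hP_cons c_14_24_9 hP_nil))))))
  t_14_24 (by decide +kernel)

def ks : List (ℕ × ℕ) := [(14, 24)]

theorem ks_ok : ∀ p ∈ ks, ESB (caseOf 4 p.1 p.2) := ks_cons e_14_24 <| ks_nil

end Pool.Agent.H4.RD4.E38
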