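import Pool.Agent.H4.RD4.E39

/-! # Certificates for special cases of order four -/

set_option maxRecDepth 20000

namespace Pool.Agent.H4.RD4.E40

open Pool.Agent.H50.Rdb
open Pool.Agent.H81.RDE (ESB caseOf)

def z_14_28_15 : F := ⟨1, -1, 0, 0, 1⟩

def h_14_28_15 : List F := [⟨1, -1, 0, 0, 0⟩, ⟨0, 1, -1, 0, 0⟩, ⟨0, 1, 0, -1, 0⟩, ⟨0, -1, 0, 0,
  1⟩]

def t_14_28_15 : T := (.node (.cons (.keep [2,5,6,10] (.leaf 0 [(0,0)])) (.cons (.keep [3,4,6,10] (.leaf 0 [(1,0)])) (.cons (.keep [0,2,3,4,5,10] (.leaf 0 [(2,0)])) (.cons (.keep [1,6,7,8,9] (.node (.cons (.leaf 1 [(2,1)]) (.cons (.leaf 1 [(3,1)]) (.cons (.keep [3,7,9,10,11] (.node (.cons (.leaf 1 [(5,1),(7,1)]) (.cons (.leaf 1 [(3,1),(10,1)]) (.cons (.leaf 1 [(3,1),(11,1),(8,1)]) (.cons (.leaf 1 [(3,1),(7,1)]) (.cons (.leaf 1 [(3,1),(7,1)])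 (.cons (.leaf 1 [(3,1),(7,1)]) (.cons (.leaf 1 [(5,1),(7,1)]) (.cons (.leaf 1 [(10,1)]) (.cons (.keep [7,8,9,10,11] (.node (.cons (.leaf 1 [(7,1),(2,1)]) (.cons (.leaf 1 [(7,1),(2,1)]) (.cons (.leaf 1 [(7,1),(2,1)]) (.cons (.leaf 1 [(3,1),(10,1)]) (.cons (.leaf 1 [(3,1),(10,1)]) (.cons (.leaf 1 [(3,1),(10,1)]) (.cons (.leaf 1 [(5,1),(10,1)]) (.cons (.leaf 1 [(11,1)]) (.cons (.leaf 1 [(0,1),(11,1)]) .nil))))))))))) .nil))))))))))) (.cons (.leaf 1 []) (.cons (.leaf 1 [(3,1)]) (.cons (.keep [1,4,7,8,11] (.node (.cons (.leaf 1 [(3,1)]) (.cons (.leaf 1 [(3,1)]) (.cons (.leaf 1 [(3,1)]) (.cons (.leaf 1 [(7,1),(3,1),(10,1)]) (.cons (.leaf 1 [(7,1),(3,1),(10,1)]) (.cons (.leaf 1 [(10,1),(3,1),(7,1)]) (.cons (.leaf 1 [(10,1),(7,1),(5,1)]) (.cons (.leaf 1 [(7,1),(11,1)]) (.cons (.keep [5,7,9,10,11]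 (.node (.cons (.leaf 1 [(2,2),(10,1),(7,1)]) (.cons (.leaf 1 [(2,2),(10,1)]) (.cons (.leaf 1 [(2,1),(8,1),(10,1)]) (.cons (.leaf 1 [(11,1)]) (.cons (.leaf 1 [(3,1),(11,1)]) (.cons (.leaf 1 [(3,1),(8,1),(11,1)]) (.cons (.leaf 1 [(11,1),(2,1)]) (.cons (.leaf 1 [(11,1)]) (.cons (.leaf 1 [(11,1),(8,1),(0,1)]) .nil))))))))))) .nil))))))))))) (.cons (.leaf 1 [(2,1)]) (.cons (.leaf 1 []) (.cons (.keep [1,5,7,8,10,11] (.node (.cons (.leaf 1 [(5,1)]) (.cons (.leaf 1 [(3,1),(11,1)]) (.cons (.leaf 1 [(3,1),(9,1),(12,1),(7,1)]) (.cons (.leaf 1 [(3,1)]) (.cons (.leaf 1 [(3,1)]) (.cons (.leaf 1 [(3,1)]) (.cons (.leaf 1 [(5,1)]) (.cons (.leaf 1 [(11,1)]) (.cons (.keep [0,5,7,9,11,12] (.node (.cons (.leaf 1 [(2,1)]) (.cons (.leaf 1 [(2,1)]) (.cons (.leaf 1 [(2,1)]) (.cons (.leaf 1 [(3,1),(11,1)])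 (.cons (.leaf 1 [(3,1),(11,1)]) (.cons (.leaf 1 [(3,1),(11,1)]) (.cons (.leaf 1 [(5,1),(11,1)]) (.cons (.leaf 1 [(12,1)]) (.cons (.leaf 1 [(0,1),(9,1),(12,1)]) .nil))))))))))) .nil))))))))))) .nil))))))))))) (.cons (.keep [1,4,6,9,10] (.node (.cons (.leaf 1 []) (.cons (.leaf 1 [(3,1),(8,1)]) (.cons (.keep [7,8,9,10,11] (.node (.cons (.leaf 1 [(3,1)]) (.cons (.leaf 1 [(3,1)]) (.cons (.leaf 1 [(3,1)]) (.cons (.leaf 1 [(9,1),(3,1)]) (.cons (.leaf 1 [(9,1),(3,1)]) (.cons (.leaf 1 [(9,1),(3,1)]) (.cons (.leaf 1 [(9,1),(5,1)]) (.cons (.leaf 1 [(8,2),(10,1)]) (.cons (.keep [7,8,9,10,11] (.node (.cons (.leaf 1 [(2,1),(9,1)]) (.cons (.leaf 1 [(2,1),(9,1)]) (.cons (.leaf 1 [(2,1),(9,1)]) (.cons (.leaf 1 [(10,1),(8,1)]) (.cons (.leaf 1 [(3,1),(10,1)]) (.cons (.leaf 1 [(3,1),(8,2),(10,1)]) (.cons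 (.leaf 1 [(10,1),(2,3)]) (.cons (.leaf 1 [(10,1),(2,1)]) (.cons (.leaf 1 [(10,1),(8,2),(0,1)]) .nil))))))))))) .nil))))))))))) (.cons (.leaf 1 [(1,1)]) (.cons (.leaf 1 [(1,1),(3,1)]) (.cons (.keep [1,3,4,7,10] (.node (.cons (.leaf 1 [(3,1),(7,1)]) (.cons (.leaf 1 [(3,1),(7,1)]) (.cons (.leaf 1 [(3,1),(7,1)]) (.cons (.leaf 1 [(7,1),(3,1),(8,1)]) (.cons (.leaf 1 [(3,1),(8,1),(7,1)]) (.cons (.leaf 1 [(8,1),(7,1),(3,1)]) (.cons (.leaf 1 [(8,1),(7,1),(5,1)]) (.cons (.leaf 1 [(7,2),(11,1)]) (.cons (.keep [5,7,8,10,11] (.node (.cons (.leaf 1 [(2,2),(9,1),(7,1)]) (.cons (.leaf 1 [(2,2),(9,1)]) (.cons (.leaf 1 [(2,1),(8,1),(9,1)]) (.cons (.leaf 1 [(11,1),(7,1)]) (.cons (.leaf 1 [(3,1),(11,1)]) (.cons (.leaf 1 [(3,1),(8,2),(11,1)]) (.cons (.leaf 1 [(11,1),(2,3)]) (.cons (.leaf 1 [(11,1),(2,1)])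 (.cons (.leaf 1 [(11,1),(8,3),(0,1)]) .nil))))))))))) .nil))))))))))) (.cons (.leaf 1 [(1,1)]) (.cons (.leaf 1 [(8,1)]) (.cons (.keep [2,5,7,8,9,10] (.node (.cons (.leaf 1 [(10,1),(5,1)]) (.cons (.leaf 1 [(3,1),(7,1),(10,1)]) (.cons (.leaf 1 [(3,1),(7,1),(10,1)]) (.cons (.leaf 1 [(10,1),(3,1)]) (.cons (.leaf 1 [(3,1),(10,1)]) (.cons (.leaf 1 [(3,1),(10,1)]) (.cons (.leaf 1 [(10,1),(5,1)]) (.cons (.leaf 1 [(10,2),(12,1)]) (.cons (.keep [5,7,9,10,11,12] (.node (.cons (.leaf 1 [(2,2),(7,1)]) (.cons (.leaf 1 [(2,2)]) (.cons (.leaf 1 [(2,1),(10,1)]) (.cons (.leaf 1 [(12,1),(7,1)]) (.cons (.leaf 1 [(3,1),(12,1)]) (.cons (.leaf 1 [(3,1),(12,1),(10,2)]) (.cons (.leaf 1 [(12,1),(2,3)]) (.cons (.leaf 1 [(12,1),(2,1)]) (.cons (.leaf 1 [(8,1),(12,1),(10,3),(0,1)]) .nil))))))))))) .nil)))))))))))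 .nil))))))))))) (.cons (.keep [1,4,7,8,9] (.node (.cons (.leaf 1 [(2,1),(8,1)]) (.cons (.leaf 1 []) (.cons (.keep [3,5,7,8,10,11] (.node (.cons (.leaf 1 [(5,1)]) (.cons (.leaf 1 [(3,1),(10,1),(11,1)]) (.cons (.leaf 1 [(3,1),(9,1),(12,1),(10,1)]) (.cons (.leaf 1 [(3,1)]) (.cons (.leaf 1 [(3,1)]) (.cons (.leaf 1 [(3,1)]) (.cons (.leaf 1 [(5,1)]) (.cons (.leaf 1 [(10,1),(11,1)]) (.cons (.keep [0,5,9,10,11,12] (.node (.cons (.leaf 1 [(2,1)]) (.cons (.leaf 1 [(2,1)]) (.cons (.leaf 1 [(2,1)]) (.cons (.leaf 1 [(3,1),(11,1),(10,1)]) (.cons (.leaf 1 [(3,1),(11,1),(10,1)]) (.cons (.leaf 1 [(3,1),(11,1),(10,1)]) (.cons (.leaf 1 [(5,1),(11,1),(10,1)]) (.cons (.leaf 1 [(12,1),(10,1)]) (.cons (.leaf 1 [(0,1),(10,2),(12,1)]) .nil))))))))))) .nil))))))))))) (.cons (.leaf 1 [(8,1)]) (.cons (.leaf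 1 [(1,1)]) (.cons (.keep [3,7,8,9,11] (.node (.cons (.leaf 1 [(3,1),(9,1)]) (.cons (.leaf 1 [(3,1),(9,1)]) (.cons (.leaf 1 [(3,1),(9,1)]) (.cons (.leaf 1 [(9,1),(3,1),(7,1)]) (.cons (.leaf 1 [(7,1),(3,1),(9,1)]) (.cons (.leaf 1 [(3,1),(7,1),(9,1)]) (.cons (.leaf 1 [(9,1),(5,1),(7,1)]) (.cons (.leaf 1 [(7,1),(9,2),(11,1)]) (.cons (.keep [7,8,9,10,11] (.node (.cons (.leaf 1 [(2,1),(7,1),(9,1)]) (.cons (.leaf 1 [(2,2)]) (.cons (.leaf 1 [(2,1),(9,1),(7,1)]) (.cons (.leaf 1 [(9,1),(11,1)]) (.cons (.leaf 1 [(3,1),(11,1),(9,1)]) (.cons (.leaf 1 [(9,2),(11,1),(7,1),(3,1)]) (.cons (.leaf 1 [(9,1),(11,1),(2,1)]) (.cons (.leaf 1 [(11,1),(9,1)]) (.cons (.leaf 1 [(9,3),(11,1),(7,1),(0,1)]) .nil))))))))))) .nil))))))))))) (.cons (.leaf 1 [(1,1),(2,1)]) (.cons (.leaf 1 [(1,1)]) (.cons (.keep [0,1,7,10,11]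 (.node (.cons (.leaf 1 [(8,1),(5,1)]) (.cons (.leaf 1 [(10,1),(3,1),(8,1)]) (.cons (.leaf 1 [(11,1),(9,1),(3,1),(8,2)]) (.cons (.leaf 1 [(8,1),(3,1)]) (.cons (.leaf 1 [(3,1),(8,1)]) (.cons (.leaf 1 [(3,1),(8,1)]) (.cons (.leaf 1 [(8,1),(5,1)]) (.cons (.leaf 1 [(8,1),(10,1)]) (.cons (.keep [0,7,8,9,10,11] (.node (.cons (.leaf 1 [(2,1),(9,1)]) (.cons (.leaf 1 [(2,1),(9,1)]) (.cons (.leaf 1 [(2,1),(9,1)]) (.cons (.leaf 1 [(3,1),(11,1),(9,1)]) (.cons (.leaf 1 [(3,1),(11,1),(9,1)]) (.cons (.leaf 1 [(3,1),(11,1),(9,1)]) (.cons (.leaf 1 [(5,1),(11,1),(9,1)]) (.cons (.leaf 1 [(12,1),(9,1)]) (.cons (.leaf 1 [(12,1),(0,1),(9,3)]) .nil))))))))))) .nil))))))))))) .nil))))))))))) (.cons (.keep [1,5,6,8,10] (.node (.cons (.leaf 1 [(2,2)]) (.cons (.leaf 1 [(3,1),(2,1)]) (.cons (.keep [2,3,7,10,11]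 (.node (.cons (.leaf 1 [(3,1),(7,2)]) (.cons (.leaf 1 [(3,1),(7,2)]) (.cons (.leaf 1 [(3,1),(7,2)]) (.cons (.leaf 1 [(7,1),(3,1),(8,1)]) (.cons (.leaf 1 [(7,1),(3,1),(8,1)]) (.cons (.leaf 1 [(7,1),(3,1),(8,1)]) (.cons (.leaf 1 [(7,1),(5,1),(8,1)]) (.cons (.leaf 1 [(7,1),(10,1)]) (.cons (.keep [7,8,9,10,11] (.node (.cons (.leaf 1 [(8,1),(5,1)]) (.cons (.leaf 1 [(8,1)]) (.cons (.leaf 1 [(8,1),(2,1),(7,1)]) (.cons (.leaf 1 [(3,2),(10,1)]) (.cons (.leaf 1 [(3,1),(10,1)]) (.cons (.leaf 1 [(3,2),(10,1),(4,1)]) (.cons (.leaf 1 [(5,3),(10,1)]) (.cons (.leaf 1 [(7,2),(10,1)]) (.cons (.leaf 1 [(0,1),(10,1),(7,3)]) .nil))))))))))) .nil))))))))))) (.cons (.leaf 1 [(8,1)]) (.cons (.leaf 1 [(8,1),(3,1)]) (.cons (.keep [4,7,8,9,10] (.node (.cons (.leaf 1 [(3,1),(9,1)]) (.cons (.leaf 1 [(3,1),(9,1)])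 (.cons (.leaf 1 [(3,1),(9,1)]) (.cons (.leaf 1 [(3,1),(10,1)]) (.cons (.leaf 1 [(3,1),(10,1)]) (.cons (.leaf 1 [(3,1),(10,1)]) (.cons (.leaf 1 [(5,1),(10,1)]) (.cons (.leaf 1 [(11,1),(9,1)]) (.cons (.keep [5,8,9,10,11] (.node (.cons (.leaf 1 [(10,1),(2,1)]) (.cons (.leaf 1 [(10,1),(2,1)]) (.cons (.leaf 1 [(10,1),(2,1)]) (.cons (.leaf 1 [(3,2),(11,1)]) (.cons (.leaf 1 [(3,1),(11,1)]) (.cons (.leaf 1 [(3,2),(11,1),(4,1)]) (.cons (.leaf 1 [(5,3),(11,1)]) (.cons (.leaf 1 [(9,2),(11,1)]) (.cons (.leaf 1 [(0,1),(11,1),(9,2)]) .nil))))))))))) .nil))))))))))) (.cons (.leaf 1 [(8,1),(2,1)]) (.cons (.leaf 1 [(8,1)]) (.cons (.keep [2,5,7,9,10] (.node (.cons (.leaf 1 [(10,1),(5,1),(7,1)]) (.cons (.leaf 1 [(3,1),(7,2),(10,1)]) (.cons (.leaf 1 [(3,1),(7,2),(10,1)]) (.cons (.leaf 1 [(1,1),(3,1),(10,1)])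 (.cons (.leaf 1 [(1,1),(3,1),(10,1)]) (.cons (.leaf 1 [(1,1),(3,1),(10,1)]) (.cons (.leaf 1 [(10,1),(5,2),(1,1)]) (.cons (.leaf 1 [(7,1),(11,1),(10,1)]) (.cons (.keep [5,7,9,10,11] (.node (.cons (.leaf 1 [(5,1)]) (.cons (.leaf 1 []) (.cons (.leaf 1 [(5,1)]) (.cons (.leaf 1 [(11,1),(3,2)]) (.cons (.leaf 1 [(3,1),(11,1)]) (.cons (.leaf 1 [(11,1),(4,1),(3,2)]) (.cons (.leaf 1 [(11,1),(5,3)]) (.cons (.leaf 1 [(8,2),(10,2),(11,1)]) (.cons (.leaf 1 [(0,1),(10,2),(11,1),(8,3)]) .nil))))))))))) .nil))))))))))) .nil))))))))))) (.cons (.keep [1,6,7,8,9] (.node (.cons (.leaf 1 [(2,1)]) (.cons (.leaf 1 [(3,1)]) (.cons (.keep [2,7,8,9,10] (.node (.cons (.leaf 1 [(3,1),(7,1)]) (.cons (.leaf 1 [(3,1),(7,1)]) (.cons (.leaf 1 [(3,1),(7,1)]) (.cons (.leaf 1 [(9,1),(3,1),(7,1)]) (.cons (.leaf 1 [(9,1),(3,1),(7,1)])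 (.cons (.leaf 1 [(9,1),(3,1),(7,1)]) (.cons (.leaf 1 [(9,1),(5,1),(7,1)]) (.cons (.leaf 1 [(11,1)]) (.cons (.keep [7,8,9,10,11] (.node (.cons (.leaf 1 [(5,1),(9,1)]) (.cons (.leaf 1 [(9,1)]) (.cons (.leaf 1 [(9,1),(2,1),(7,1)]) (.cons (.leaf 1 [(3,1),(11,1)]) (.cons (.leaf 1 [(3,1),(11,1)]) (.cons (.leaf 1 [(3,1),(11,1)]) (.cons (.leaf 1 [(5,1),(11,1)]) (.cons (.leaf 1 [(7,1),(11,1)]) (.cons (.leaf 1 [(0,1),(11,1),(7,1)]) .nil))))))))))) .nil))))))))))) (.cons (.leaf 1 []) (.cons (.leaf 1 [(3,1)]) (.cons (.keep [3,4,7,10,11] (.node (.cons (.leaf 1 [(3,1)]) (.cons (.leaf 1 [(3,1)]) (.cons (.leaf 1 [(3,1)]) (.cons (.leaf 1 [(7,1),(3,1)]) (.cons (.leaf 1 [(7,1),(3,1)]) (.cons (.leaf 1 [(7,1),(3,1)]) (.cons (.leaf 1 [(7,1),(5,1)]) (.cons (.leaf 1 [(10,1)]) (.cons (.keep [0,5,7,9,10] (.node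 (.cons (.leaf 1 [(2,1),(9,1)]) (.cons (.leaf 1 [(2,1),(9,1)]) (.cons (.leaf 1 [(2,1),(9,1)]) (.cons (.leaf 1 [(3,1),(11,1)]) (.cons (.leaf 1 [(3,1),(11,1)]) (.cons (.leaf 1 [(11,1),(3,1)]) (.cons (.leaf 1 [(5,1),(11,1)]) (.cons (.leaf 1 [(7,1),(11,1)]) (.cons (.leaf 1 [(11,1),(0,1)]) .nil))))))))))) .nil))))))))))) (.cons (.leaf 1 [(2,1)]) (.cons (.leaf 1 []) (.cons (.keep [2,5,7,8,10,11] (.node (.cons (.leaf 1 [(5,1)]) (.cons (.leaf 1 [(3,1),(7,1)]) (.cons (.leaf 1 [(3,1),(7,1)]) (.cons (.leaf 1 [(3,1)]) (.cons (.leaf 1 [(3,1)]) (.cons (.leaf 1 [(3,1)]) (.cons (.leaf 1 [(5,1)]) (.cons (.leaf 1 [(11,1)]) (.cons (.keep [0,5,7,9,11] (.node (.cons (.leaf 1 [(2,1)]) (.cons (.leaf 1 [(2,1)]) (.cons (.leaf 1 [(2,1)]) (.cons (.leaf 1 [(3,1),(11,1)]) (.cons (.leaf 1 [(3,1),(11,1)]) (.cons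 (.leaf 1 [(3,1),(11,1)]) (.cons (.leaf 1 [(5,1),(11,1)]) (.cons (.leaf 1 [(9,1),(7,1),(11,1)]) (.cons (.leaf 1 [(0,1),(11,1),(9,1)]) .nil))))))))))) .nil))))))))))) .nil))))))))))) (.cons (.keep [1,5,7,8,9] (.node (.cons (.leaf 1 [(2,1),(8,1)]) (.cons (.leaf 1 [(2,1)]) (.cons (.keep [3,7,8,9,10] (.node (.cons (.leaf 1 [(7,1),(5,1),(9,1)]) (.cons (.leaf 1 [(3,1),(9,2),(7,1)]) (.cons (.leaf 1 [(3,1),(9,2),(7,1)]) (.cons (.leaf 1 [(1,1),(3,1),(7,1)]) (.cons (.leaf 1 [(1,1),(3,1),(7,1)]) (.cons (.leaf 1 [(1,1),(3,1),(7,1)]) (.cons (.leaf 1 [(7,1),(5,2),(1,1)]) (.cons (.leaf 1 [(9,1),(11,1)]) (.cons (.keep [7,8,9,10,11] (.node (.cons (.leaf 1 [(5,1)]) (.cons (.leaf 1 []) (.cons (.leaf 1 [(5,1)]) (.cons (.leaf 1 [(9,1),(3,1),(11,1)]) (.cons (.leaf 1 [(3,1),(11,1),(9,1)]) (.cons (.leaf 1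 [(9,1),(11,1),(3,1)]) (.cons (.leaf 1 [(11,1),(9,1),(5,1)]) (.cons (.leaf 1 [(9,2),(7,1),(11,1)]) (.cons (.leaf 1 [(0,1),(7,1),(11,1),(9,3)]) .nil))))))))))) .nil))))))))))) (.cons (.leaf 1 [(8,1)]) (.cons (.leaf 1 []) (.cons (.keep [3,5,7,8,10,11] (.node (.cons (.leaf 1 [(5,1)]) (.cons (.leaf 1 [(3,1),(10,1)]) (.cons (.leaf 1 [(3,1),(10,1)]) (.cons (.leaf 1 [(3,1)]) (.cons (.leaf 1 [(3,1)]) (.cons (.leaf 1 [(3,1)]) (.cons (.leaf 1 [(5,1)]) (.cons (.leaf 1 [(11,1),(10,1)]) (.cons (.keep [0,5,9,10,11] (.node (.cons (.leaf 1 [(2,1)]) (.cons (.leaf 1 [(2,1)]) (.cons (.leaf 1 [(2,1)]) (.cons (.leaf 1 [(10,1),(3,1),(11,1)]) (.cons (.leaf 1 [(3,1),(11,1),(10,1)]) (.cons (.leaf 1 [(3,1),(11,1),(10,1)]) (.cons (.leaf 1 [(10,1),(5,1),(11,1)]) (.cons (.leaf 1 [(10,2),(7,1),(11,1)]) (.cons (.leaf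 1 [(0,1),(11,1),(10,2)]) .nil))))))))))) .nil))))))))))) (.cons (.leaf 1 [(2,2)]) (.cons (.leaf 1 [(2,1)]) (.cons (.keep [0,2,7,10,11] (.node (.cons (.leaf 1 [(8,1),(5,1)]) (.cons (.leaf 1 [(8,2),(3,1)]) (.cons (.leaf 1 [(8,2),(3,1)]) (.cons (.leaf 1 [(1,1),(3,1)]) (.cons (.leaf 1 [(1,1),(3,1)]) (.cons (.leaf 1 [(1,1),(3,1)]) (.cons (.leaf 1 [(1,1),(5,2)]) (.cons (.leaf 1 [(8,1),(10,1)]) (.cons (.keep [0,7,8,9,10] (.node (.cons (.leaf 1 [(2,1),(9,1)]) (.cons (.leaf 1 [(2,1),(9,1)]) (.cons (.leaf 1 [(2,1),(9,1)]) (.cons (.leaf 1 [(9,1),(3,1),(11,1)]) (.cons (.leaf 1 [(3,1),(11,1),(9,1)]) (.cons (.leaf 1 [(3,1),(11,1),(9,1)]) (.cons (.leaf 1 [(11,1),(9,1),(5,1)]) (.cons (.leaf 1 [(9,3),(7,1),(11,1)]) (.cons (.leaf 1 [(0,1),(11,1),(9,3)]) .nil))))))))))) .nil))))))))))) .nil)))))))))))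 .nil))))))))))

theorem c_14_28_15 : Concl 14 28 z_14_28_15 h_14_28_15 .nd := piece _ (hP_cons E39.c_14_28_6
  (hP_cons E39.c_14_28_8 (hP_cons E39.c_14_28_7 hP_nil))) t_14_28_15 _ _ (by decide +kernel)

def z_14_28_16 : F := ⟨1, 0, 0, -1, 1⟩

def h_14_28_16 : List F := [⟨1, 0, 0, -2, 1⟩, ⟨1, -1, 0, 0, 0⟩, ⟨1, 0, -1, 0, 0⟩, ⟨0, -1, 0, 1,
  0⟩, ⟨0, 0, -1, 1, 0⟩, ⟨0, 0, 0, -1, 1⟩]

def t_14_28_16 : T := (.node (.cons (.keep [3,5,6,10,11,12] (.leaf 0 [(0,0)])) (.cons (.keep [3,4,6,8,10] (.node (.cons (.leaf 1 [(11,2),(2,1)]) (.cons (.leaf 1 [(11,2),(3,1)]) (.cons (.keep [2,7,8,9,10,11] (.node (.cons (.leaf 1 [(2,1),(9,1),(12,1)]) (.cons (.leaf 1 [(3,1),(9,3)]) (.cons (.leaf 1 [(3,1),(7,1),(12,2)]) (.cons (.leaf 1 [(9,1),(12,1)]) (.cons (.leaf 1 [(3,1),(9,3),(1,1)]) (.cons (.leaf 1 [(10,1),(12,2),(7,1),(3,1)])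 (.cons (.leaf 1 [(2,2),(9,3),(1,1)]) (.cons (.leaf 1 [(9,3),(1,1)]) (.cons (.keep [0,7,9,10,11,12] (.node (.cons (.leaf 1 [(2,1),(12,1)]) (.cons (.leaf 1 [(12,1),(3,1)]) (.cons (.leaf 2 [(3,1),(12,3),(10,1)]) (.cons (.leaf 1 [(12,1)]) (.cons (.leaf 1 [(12,1),(3,1)]) (.cons (.leaf 1 [(12,1),(9,1),(3,1)]) (.cons (.leaf 1 [(2,1),(12,1)]) (.cons (.leaf 1 [(12,1)]) (.cons (.leaf 1 [(12,3),(0,1)]) .nil))))))))))) .nil))))))))))) (.cons (.leaf 1 [(11,2)]) (.cons (.leaf 1 [(3,1),(11,2)]) (.cons (.keep [1,3,7,10,11] (.node (.cons (.leaf 1 [(2,1),(7,1),(11,1)]) (.cons (.leaf 1 [(3,1),(7,2)]) (.cons (.leaf 1 [(3,1),(11,2)]) (.cons (.leaf 1 [(7,1),(11,1)]) (.cons (.leaf 1 [(7,2),(3,1),(1,1)]) (.cons (.leaf 1 [(8,1),(3,1),(11,2)]) (.cons (.leaf 1 [(2,2),(7,2),(1,1)]) (.cons (.leaf 1 [(7,2),(1,1)])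 (.cons (.keep [0,7,8,10,11] (.node (.cons (.leaf 1 [(2,1),(11,1)]) (.cons (.leaf 1 [(3,1),(11,1)]) (.cons (.leaf 2 [(3,1),(11,3),(8,1),(9,1)]) (.cons (.leaf 1 [(11,1)]) (.cons (.leaf 1 [(11,1),(3,1)]) (.cons (.leaf 1 [(11,1),(8,1),(3,1)]) (.cons (.leaf 1 [(11,1),(2,1)]) (.cons (.leaf 1 [(11,1)]) (.cons (.leaf 1 [(11,3),(8,1),(0,1)]) .nil))))))))))) .nil))))))))))) (.cons (.leaf 1 [(2,1),(11,2)]) (.cons (.leaf 1 [(11,2)]) (.cons (.keep [2,7,8,9,10,11] (.node (.cons (.leaf 1 [(9,1),(2,1),(12,1)]) (.cons (.leaf 1 [(3,1),(2,1),(9,2)]) (.cons (.leaf 1 [(3,1),(12,2),(7,1)]) (.cons (.leaf 1 [(9,1),(12,1)]) (.cons (.leaf 1 [(3,1),(9,2)]) (.cons (.leaf 1 [(3,1),(12,2)]) (.cons (.leaf 1 [(9,2),(2,3)]) (.cons (.leaf 1 [(9,2),(2,1)]) (.cons (.keep [0,7,9,11,12] (.node (.cons (.leaf 1 [(2,1)])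 (.cons (.leaf 1 [(3,1),(11,1)]) (.cons (.leaf 2 [(3,1),(11,3),(9,1)]) (.cons (.leaf 1 [(1,1)]) (.cons (.leaf 1 [(1,1),(3,2)]) (.cons (.leaf 1 [(1,1),(3,2),(9,2)]) (.cons (.leaf 1 [(1,1),(2,1)]) (.cons (.leaf 1 [(11,1)]) (.cons (.leaf 1 [(11,3),(8,1),(9,1),(0,1)]) .nil))))))))))) .nil))))))))))) .nil))))))))))) (.cons (.keep [3,5,8,10,11] (.leaf 0 [(1,0)])) (.cons (.keep [3,6,9,10,11] (.node (.cons (.leaf 1 [(2,1),(10,1)]) (.cons (.leaf 1 [(3,1),(10,1)]) (.cons (.keep [0,2,3,10,11] (.node (.cons (.leaf 2 [(3,1),(10,1),(2,1)]) (.cons (.leaf 2 [(3,2),(10,1)]) (.cons (.leaf 1 [(8,1),(10,1),(3,1)]) (.cons (.leaf 1 [(9,1),(3,1),(10,1)]) (.cons (.leaf 1 [(9,1),(3,1),(10,1)]) (.cons (.leaf 1 [(9,1),(10,1),(3,1)]) (.cons (.leaf 1 [(5,1),(10,1),(9,1)]) (.cons (.leaf 1 [(11,1)]) (.cons (.keep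 [0,7,8,9,10,11] (.node (.cons (.leaf 1 [(2,1)]) (.cons (.leaf 1 [(3,1)]) (.cons (.leaf 1 [(3,1),(11,1),(0,1)]) (.cons (.leaf 1 []) (.cons (.leaf 1 [(3,1)]) (.cons (.leaf 1 [(3,1),(11,1),(0,1)]) (.cons (.leaf 1 [(2,1)]) (.cons (.leaf 1 []) (.cons (.leaf 1 [(11,1),(0,1)]) .nil))))))))))) .nil))))))))))) (.cons (.leaf 1 [(10,1)]) (.cons (.leaf 1 [(3,1),(10,1)]) (.cons (.keep [0,1,7,8,10] (.node (.cons (.leaf 1 [(2,1),(8,1)]) (.cons (.leaf 1 [(3,1),(8,1)]) (.cons (.leaf 1 [(3,1),(11,1)]) (.cons (.leaf 1 [(8,1)]) (.cons (.leaf 1 [(3,1),(8,1)]) (.cons (.leaf 1 [(10,1),(3,1),(11,1),(8,1)]) (.cons (.leaf 1 [(2,1),(8,1)]) (.cons (.leaf 1 [(8,1)]) (.cons (.keep [0,7,8,10,11] (.node (.cons (.leaf 1 [(2,1)]) (.cons (.leaf 1 [(3,1)]) (.cons (.leaf 2 [(3,1),(11,1),(9,2),(10,1)]) (.cons (.leaf 1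 []) (.cons (.leaf 1 [(3,1)]) (.cons (.leaf 1 [(3,1),(9,1)]) (.cons (.leaf 1 [(2,1)]) (.cons (.leaf 1 []) (.cons (.leaf 1 [(11,1),(9,1),(0,1)]) .nil))))))))))) .nil))))))))))) (.cons (.leaf 1 [(10,1),(2,1)]) (.cons (.leaf 1 [(10,1)]) (.cons (.keep [0,2,8,10,11] (.node (.cons (.leaf 1 [(5,1),(10,1)]) (.cons (.leaf 1 [(3,1),(8,1),(10,1)]) (.cons (.leaf 1 [(3,1),(8,1),(10,1)]) (.cons (.leaf 1 [(3,1),(10,1)]) (.cons (.leaf 1 [(3,1),(10,1)]) (.cons (.leaf 1 [(3,1),(10,1)]) (.cons (.leaf 1 [(5,1),(10,1)]) (.cons (.leaf 1 [(11,1)]) (.cons (.keep [0,7,8,10,11] (.node (.cons (.leaf 1 [(2,1)]) (.cons (.leaf 1 [(3,1)]) (.cons (.leaf 1 [(2,1),(10,1)]) (.cons (.leaf 1 []) (.cons (.leaf 1 [(3,1)]) (.cons (.leaf 1 [(3,1),(11,1)]) (.cons (.leaf 1 [(2,1)]) (.cons (.leaf 1 []) (.cons (.leaf 1 [(9,1),(10,1),(11,1),(0,1)])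 .nil))))))))))) .nil))))))))))) .nil))))))))))) (.cons (.keep [3,4,6,9,10] (.node (.cons (.leaf 1 [(11,1)]) (.cons (.leaf 1 [(8,1),(3,1),(11,1)]) (.cons (.keep [0,2,8,9,11] (.node (.cons (.leaf 1 [(2,1),(9,2)]) (.cons (.leaf 1 [(3,1),(9,2)]) (.cons (.leaf 1 [(11,1),(3,1)]) (.cons (.leaf 1 [(9,2)]) (.cons (.leaf 1 [(3,1),(9,2)]) (.cons (.leaf 1 [(10,1),(11,1),(3,1)]) (.cons (.leaf 1 [(2,1),(9,2)]) (.cons (.leaf 1 [(9,2)]) (.cons (.keep [0,7,9,10,11] (.node (.cons (.leaf 1 [(2,1),(9,1)]) (.cons (.leaf 1 [(3,1),(2,1)]) (.cons (.leaf 1 [(2,1),(11,1),(10,1)]) (.cons (.leaf 1 [(9,1)]) (.cons (.leaf 1 [(3,1)]) (.cons (.leaf 1 [(3,1),(9,2)]) (.cons (.leaf 1 [(2,3)]) (.cons (.leaf 1 [(2,1)]) (.cons (.leaf 1 [(9,2),(11,1),(0,1)]) .nil))))))))))) .nil))))))))))) (.cons (.leaf 1 [(1,1),(11,1)])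 (.cons (.leaf 1 [(1,1),(3,1),(11,1)]) (.cons (.keep [0,1,3,7,11] (.node (.cons (.leaf 1 [(2,1),(8,2)]) (.cons (.leaf 1 [(3,1),(8,2)]) (.cons (.leaf 1 [(3,1),(11,1),(8,1)]) (.cons (.leaf 1 [(8,2)]) (.cons (.leaf 1 [(3,1),(8,2)]) (.cons (.leaf 1 [(9,1),(8,1),(11,1),(3,1)]) (.cons (.leaf 1 [(2,1),(8,2)]) (.cons (.leaf 1 [(8,2)]) (.cons (.keep [0,7,8,9,11] (.node (.cons (.leaf 1 [(2,1),(9,1)]) (.cons (.leaf 1 [(3,1),(2,1)]) (.cons (.leaf 1 [(2,1),(9,1),(11,1),(10,1)]) (.cons (.leaf 1 [(9,1)]) (.cons (.leaf 1 [(3,1)]) (.cons (.leaf 1 [(3,1),(9,2)]) (.cons (.leaf 1 [(2,3)]) (.cons (.leaf 1 [(2,1)]) (.cons (.leaf 1 [(9,3),(11,1),(0,1)]) .nil))))))))))) .nil))))))))))) (.cons (.leaf 1 [(11,1),(1,1)]) (.cons (.leaf 1 [(8,1),(11,1)]) (.cons (.keep [0,2,7,8,9,11] (.node (.cons (.leaf 1 [(2,1),(10,2)])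 (.cons (.leaf 1 [(3,1),(10,2)]) (.cons (.leaf 1 [(3,1),(8,1),(12,1),(10,1)]) (.cons (.leaf 1 [(10,2)]) (.cons (.leaf 1 [(3,1),(10,2)]) (.cons (.leaf 1 [(3,1),(10,1),(12,1)]) (.cons (.leaf 1 [(2,1),(10,2)]) (.cons (.leaf 1 [(10,2)]) (.cons (.keep [0,7,8,10,12] (.node (.cons (.leaf 1 [(2,1),(10,1)]) (.cons (.leaf 1 [(3,1),(2,1)]) (.cons (.leaf 1 [(2,1),(10,1),(11,1)]) (.cons (.leaf 1 [(10,1)]) (.cons (.leaf 1 [(3,1)]) (.cons (.leaf 1 [(3,1),(10,2)]) (.cons (.leaf 1 [(2,3)]) (.cons (.leaf 1 [(2,1)]) (.cons (.leaf 1 [(9,1),(10,3),(11,1),(0,1)]) .nil))))))))))) .nil))))))))))) .nil))))))))))) (.cons (.keep [3,5,9,10,11] (.leaf 0 [(2,0)])) (.cons (.keep [1,2,5,6,12] (.node (.cons (.leaf 1 [(2,2),(7,1)]) (.cons (.leaf 1 [(3,1),(7,1),(2,1)]) (.cons (.keep [0,2,3,7,8] (.node (.cons (.leaf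 1 [(2,1)]) (.cons (.leaf 1 [(3,1)]) (.cons (.leaf 1 [(3,1),(10,1),(8,2)]) (.cons (.leaf 1 []) (.cons (.leaf 1 [(3,1)]) (.cons (.leaf 1 [(3,1),(8,1),(10,1),(9,1)]) (.cons (.leaf 1 [(2,1)]) (.cons (.leaf 1 []) (.cons (.keep [0,7,8,9,10] (.node (.cons (.leaf 1 [(5,1)]) (.cons (.leaf 1 [(3,1),(9,1)]) (.cons (.leaf 2 [(3,1),(11,1),(10,1),(9,1)]) (.cons (.leaf 1 [(3,1)]) (.cons (.leaf 1 [(3,1)]) (.cons (.leaf 1 [(3,1)]) (.cons (.leaf 1 [(5,1)]) (.cons (.leaf 1 [(9,1)]) (.cons (.leaf 1 [(11,1),(0,1),(9,2)]) .nil))))))))))) .nil))))))))))) (.cons (.leaf 1 [(9,1),(7,1)]) (.cons (.leaf 1 [(9,1),(3,1),(7,1)]) (.cons (.keep [0,1,7,9,10] (.node (.cons (.leaf 1 [(2,1)]) (.cons (.leaf 1 [(3,1)]) (.cons (.leaf 1 [(3,1),(9,1),(10,1)]) (.cons (.leaf 1 []) (.cons (.leaf 1 [(3,1)]) (.cons (.leaf 1 [(3,1),(9,1),(11,1)])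 (.cons (.leaf 1 [(2,1)]) (.cons (.leaf 1 []) (.cons (.keep [0,7,8,9,10,11] (.node (.cons (.leaf 1 [(5,1)]) (.cons (.leaf 1 [(3,1),(11,1)]) (.cons (.leaf 1 [(3,1),(10,1),(0,1),(11,1)]) (.cons (.leaf 1 [(3,1)]) (.cons (.leaf 1 [(3,1)]) (.cons (.leaf 1 [(3,1)]) (.cons (.leaf 1 [(5,1)]) (.cons (.leaf 1 [(11,1)]) (.cons (.leaf 1 [(10,1),(0,1),(11,1)]) .nil))))))))))) .nil))))))))))) (.cons (.leaf 1 [(9,1),(7,1),(2,1)]) (.cons (.leaf 1 [(9,1),(7,1)]) (.cons (.keep [0,2,7,8,10] (.node (.cons (.leaf 1 [(2,1)]) (.cons (.leaf 1 [(3,1)]) (.cons (.leaf 1 [(3,1),(8,2),(9,1),(11,1)]) (.cons (.leaf 1 []) (.cons (.leaf 1 [(3,1)]) (.cons (.leaf 1 [(9,1),(3,1),(1,1),(11,1)]) (.cons (.leaf 1 [(2,1)]) (.cons (.leaf 1 []) (.cons (.keep [0,7,8,9,10,11] (.node (.cons (.leaf 1 [(5,1)]) (.cons (.leaf 1 [(10,1)])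 (.cons (.leaf 1 [(10,1),(5,1)]) (.cons (.leaf 1 [(3,1)]) (.cons (.leaf 1 [(3,1)]) (.cons (.leaf 1 [(3,1)]) (.cons (.leaf 1 [(5,1)]) (.cons (.leaf 1 [(9,1),(12,1)]) (.cons (.leaf 1 [(0,1),(10,1),(12,1),(9,2)]) .nil))))))))))) .nil))))))))))) .nil))))))))))) (.cons (.keep [1,2,6,7] (.node (.cons (.leaf 1 [(2,1),(7,1)]) (.cons (.leaf 1 [(3,1),(7,1)]) (.cons (.keep [0,2,7,8,9] (.node (.cons (.leaf 2 [(3,1),(9,1),(2,1)]) (.cons (.leaf 2 [(3,2),(9,1)]) (.cons (.leaf 1 [(8,1),(9,1),(3,1)]) (.cons (.leaf 1 [(10,1)]) (.cons (.leaf 1 [(10,1),(3,1)]) (.cons (.leaf 1 [(11,1),(8,1),(9,1),(3,1)]) (.cons (.leaf 1 [(10,1),(2,1)]) (.cons (.leaf 1 [(10,1)]) (.cons (.keep [0,7,8,9,10,11] (.node (.cons (.leaf 1 [(2,1)]) (.cons (.leaf 1 [(3,1)]) (.cons (.leaf 1 [(3,1),(10,1),(0,1)]) (.cons (.leaf 1 [])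 (.cons (.leaf 1 [(3,1)]) (.cons (.leaf 1 [(3,1),(10,1),(0,1)]) (.cons (.leaf 1 [(2,1)]) (.cons (.leaf 1 []) (.cons (.leaf 1 [(10,1),(0,1)]) .nil))))))))))) .nil))))))))))) (.cons (.leaf 1 [(7,1)]) (.cons (.leaf 1 [(3,1),(7,1)]) (.cons (.keep [0,1,3,7] (.node (.cons (.leaf 1 [(2,1),(8,1)]) (.cons (.leaf 1 [(3,1),(8,1)]) (.cons (.leaf 1 [(3,1),(10,1)]) (.cons (.leaf 1 [(8,1)]) (.cons (.leaf 1 [(3,1),(8,1)]) (.cons (.leaf 1 [(9,1),(3,1),(10,1)]) (.cons (.leaf 1 [(2,1),(8,1)]) (.cons (.leaf 1 [(8,1)]) (.cons (.keep [0,7,8,9,10] (.node (.cons (.leaf 1 [(2,1)]) (.cons (.leaf 1 [(3,1)]) (.cons (.leaf 2 [(3,1),(11,1),(9,1),(10,1)]) (.cons (.leaf 1 []) (.cons (.leaf 1 [(3,1)]) (.cons (.leaf 1 [(3,1),(9,1)]) (.cons (.leaf 1 [(2,1)]) (.cons (.leaf 1 []) (.cons (.leaf 1 [(11,1),(9,1),(0,1)])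 .nil))))))))))) .nil))))))))))) (.cons (.leaf 1 [(7,1),(2,1)]) (.cons (.leaf 1 [(7,1)]) (.cons (.keep [0,2,7,8,9] (.node (.cons (.leaf 1 [(5,1),(9,1)]) (.cons (.leaf 1 [(3,1),(8,1),(9,1)]) (.cons (.leaf 1 [(3,1),(8,1),(9,1)]) (.cons (.leaf 1 [(3,1),(9,1)]) (.cons (.leaf 1 [(3,1),(9,1)]) (.cons (.leaf 1 [(3,1),(9,1)]) (.cons (.leaf 1 [(5,1),(9,1)]) (.cons (.leaf 1 [(10,1)]) (.cons (.keep [0,7,8,9,10] (.node (.cons (.leaf 1 [(2,1)]) (.cons (.leaf 1 [(3,1)]) (.cons (.leaf 1 [(2,1),(10,1)]) (.cons (.leaf 1 []) (.cons (.leaf 1 [(3,1)]) (.cons (.leaf 1 [(3,1),(11,1)]) (.cons (.leaf 1 [(2,1)]) (.cons (.leaf 1 []) (.cons (.leaf 1 [(9,1),(10,1),(11,1),(0,1)]) .nil))))))))))) .nil))))))))))) .nil))))))))))) (.cons (.keep [0,1,2,5] (.node (.cons (.leaf 1 [(2,1),(8,1),(10,1)]) (.cons (.leaf 1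 [(8,1),(2,1)]) (.cons (.keep [0,3,8,9,10] (.node (.cons (.leaf 2 [(5,1),(9,1)]) (.cons (.leaf 2 [(3,2),(11,2),(9,1)]) (.cons (.leaf 1 [(3,1),(8,1),(9,1),(11,2)]) (.cons (.leaf 2 [(9,1),(3,1),(1,1)]) (.cons (.leaf 2 [(9,1),(3,2),(1,1)]) (.cons (.leaf 1 [(9,1),(8,1),(1,1),(3,1)]) (.cons (.leaf 2 [(9,1),(5,1),(1,1)]) (.cons (.leaf 1 [(10,1),(11,1)]) (.cons (.keep [0,7,8,9,10,11] (.node (.cons (.leaf 1 [(5,1),(10,1)]) (.cons (.leaf 1 [(10,1)]) (.cons (.leaf 1 [(5,1),(10,1)]) (.cons (.leaf 1 [(12,1)]) (.cons (.leaf 1 [(3,1),(12,1)]) (.cons (.leaf 1 [(0,1),(10,1),(12,2),(3,1)]) (.cons (.leaf 1 [(2,1),(12,1)]) (.cons (.leaf 1 [(12,1)]) (.cons (.leaf 1 [(0,1),(10,1),(12,2)]) .nil))))))))))) .nil))))))))))) (.cons (.leaf 1 [(8,1),(10,1)]) (.cons (.leaf 1 [(8,1)]) (.cons (.keep [0,1,3,8,10]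 (.node (.cons (.leaf 1 [(8,1)]) (.cons (.leaf 1 [(3,1),(11,1),(8,1)]) (.cons (.leaf 1 [(3,1),(11,1),(10,1)]) (.cons (.leaf 1 [(8,1),(1,1)]) (.cons (.leaf 1 [(8,1),(3,1),(1,1)]) (.cons (.leaf 1 [(3,1),(10,1)]) (.cons (.leaf 1 [(8,1),(1,1)]) (.cons (.leaf 1 [(8,1),(11,1)]) (.cons (.keep [0,7,8,10,11] (.node (.cons (.leaf 1 [(2,1),(10,1)]) (.cons (.leaf 1 [(2,1),(10,1)]) (.cons (.leaf 1 [(2,1),(10,1)]) (.cons (.leaf 1 [(11,1)]) (.cons (.leaf 1 [(3,1),(11,1)]) (.cons (.leaf 1 [(3,1),(9,1),(11,1)]) (.cons (.leaf 1 [(11,1),(2,1)]) (.cons (.leaf 1 [(11,1)]) (.cons (.leaf 1 [(0,1),(10,1),(9,1),(11,2)]) .nil))))))))))) .nil))))))))))) (.cons (.leaf 1 [(8,1),(2,2)]) (.cons (.leaf 1 [(8,1),(2,1)]) (.cons (.keep [0,2,8,9] (.node (.cons (.leaf 1 [(9,1),(3,1),(8,2)]) (.cons (.leaf 1 [(9,1),(3,1),(8,2)])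 (.cons (.leaf 1 [(9,1),(3,1),(8,2)]) (.cons (.leaf 1 [(9,1),(3,1),(1,1)]) (.cons (.leaf 1 [(9,1),(3,1),(1,1)]) (.cons (.leaf 1 [(9,1),(3,1),(1,1)]) (.cons (.leaf 1 [(9,1),(5,2),(1,1)]) (.cons (.leaf 1 [(10,1),(8,1)]) (.cons (.keep [0,7,8,9,10] (.node (.cons (.leaf 1 [(2,1),(9,1)]) (.cons (.leaf 1 [(3,1),(9,1)]) (.cons (.leaf 1 [(2,1),(10,1),(9,1)]) (.cons (.leaf 1 [(9,1)]) (.cons (.leaf 1 [(3,1),(9,1)]) (.cons (.leaf 1 [(3,1),(11,1),(9,1)]) (.cons (.leaf 1 [(2,1),(9,1)]) (.cons (.leaf 1 [(9,1)]) (.cons (.leaf 1 [(0,1),(10,1),(11,1),(9,3)]) .nil))))))))))) .nil))))))))))) .nil))))))))))) .nil))))))))))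

theorem c_14_28_16 : Concl 14 28 z_14_28_16 h_14_28_16 .nd := piece _ (hP_cons E39.c_14_28_14
  (hP_cons E39.c_14_28_12 (hP_cons E39.c_14_28_13 hP_nil))) t_14_28_16 _ _ (by decide +kernel)

def t_14_28 : T := (.keep [0,1,2] (.node (.cons (.keep [2,5,6,7] (.leaf 0 [(0,0)])) (.cons (.keep [3,4,6,7] (.node (.cons (.keep [2,5,6,8,10] (.node (.cons (.leaf 1 [(2,1),(10,2)]) (.cons (.leaf 1 [(3,1),(10,2)]) (.cons (.keep [2,3,7,10,11] (.node (.cons (.leaf 1 [(2,1),(10,1)]) (.cons (.leaf 1 [(3,1),(10,1)]) (.cons (.leaf 1 [(3,1),(10,2),(7,1)]) (.cons (.leaf 1 [(10,1)]) (.cons (.leaf 1 [(3,1),(10,1)]) (.cons (.leaf 1 [(3,1),(10,2),(8,1)]) (.cons (.leaf 1 [(2,1),(10,1)]) (.cons (.leaf 1 [(10,1)]) (.cons (.keep [0,5,7,8,10] (.node (.cons (.leaf 1 [(11,1),(5,1)]) (.cons (.leaf 1 [(3,1),(11,1),(9,1)])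 (.cons (.leaf 2 [(3,1),(11,3),(10,1)]) (.cons (.leaf 1 [(11,1),(3,1)]) (.cons (.leaf 1 [(11,1),(3,1)]) (.cons (.leaf 1 [(11,1),(3,1)]) (.cons (.leaf 1 [(11,1),(5,1)]) (.cons (.leaf 1 [(11,1),(9,1)]) (.cons (.leaf 1 [(11,3),(0,1),(9,1)]) .nil))))))))))) .nil))))))))))) (.cons (.leaf 1 [(10,2)]) (.cons (.leaf 1 [(3,1),(10,2)]) (.cons (.keep [1,7,8,9,10,11] (.node (.cons (.leaf 1 [(2,1),(11,1)]) (.cons (.leaf 1 [(3,1)]) (.cons (.leaf 1 [(11,2),(3,1)]) (.cons (.leaf 1 [(11,1)]) (.cons (.leaf 1 [(1,1),(3,1)]) (.cons (.leaf 1 [(11,2),(3,1),(7,1),(10,1)]) (.cons (.leaf 1 [(1,1),(2,2)]) (.cons (.leaf 1 [(1,1)]) (.cons (.keep [5,7,8,9,10,11] (.node (.cons (.leaf 1 [(12,1),(5,1)]) (.cons (.leaf 1 [(10,1),(12,1),(3,1)]) (.cons (.leaf 1 [(0,1),(3,1),(12,3)]) (.cons (.leaf 1 [(12,1),(3,1)]) (.cons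 (.leaf 1 [(12,1),(3,1)]) (.cons (.leaf 1 [(3,1),(12,1)]) (.cons (.leaf 1 [(12,1),(5,1)]) (.cons (.leaf 1 [(12,1),(10,1)]) (.cons (.leaf 1 [(0,1),(12,3)]) .nil))))))))))) .nil))))))))))) (.cons (.leaf 1 [(1,1),(10,2),(8,1)]) (.cons (.leaf 1 [(10,2)]) (.cons (.keep [1,7,8,9,10,11] (.node (.cons (.leaf 1 [(2,1),(11,1)]) (.cons (.leaf 1 [(3,1),(2,1)]) (.cons (.leaf 1 [(3,1),(11,2),(7,1),(9,1)]) (.cons (.leaf 1 [(11,1)]) (.cons (.leaf 1 [(3,1)]) (.cons (.leaf 1 [(3,1),(11,2)]) (.cons (.leaf 1 [(2,3)]) (.cons (.leaf 1 [(2,1)]) (.cons (.keep [5,7,8,9,10,11] (.node (.cons (.leaf 1 [(10,1),(5,1)]) (.cons (.leaf 1 [(10,3),(3,2)]) (.cons (.leaf 2 [(12,3),(3,1)]) (.cons (.leaf 1 [(1,1),(3,2)]) (.cons (.leaf 1 [(1,1),(3,2)]) (.cons (.leaf 1 [(1,1),(3,2)]) (.cons (.leaf 1 [(1,1),(5,3)]) (.cons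 (.leaf 1 [(1,1),(10,3)]) (.cons (.leaf 1 [(12,3),(8,1),(0,1),(10,1)]) .nil))))))))))) .nil))))))))))) .nil))))))))))) (.cons (.keep [3,4,6,8,10] (.leaf 0 [(1,0)])) (.cons (.keep [2,4,7,8,9] (.leaf 0 [(2,0)])) (.cons (.keep [1,3,6,7] (.node (.cons (.leaf 1 [(2,1),(7,1)]) (.cons (.leaf 1 [(3,1),(7,1)]) (.cons (.keep [0,2,3,7] (.node (.cons (.leaf 1 [(2,1)]) (.cons (.leaf 1 [(3,1)]) (.cons (.leaf 1 [(3,1),(10,1),(8,1)]) (.cons (.leaf 1 []) (.cons (.leaf 1 [(3,1)]) (.cons (.leaf 1 [(3,1),(10,1),(9,1)]) (.cons (.leaf 1 [(2,1)]) (.cons (.leaf 1 []) (.cons (.keep [0,7,8,9,10] (.node (.cons (.leaf 1 [(5,1)]) (.cons (.leaf 1 [(3,1),(9,1)]) (.cons (.leaf 2 [(3,1),(11,1),(10,1)]) (.cons (.leaf 1 [(3,1)]) (.cons (.leaf 1 [(3,1)]) (.cons (.leaf 1 [(3,1)]) (.cons (.leaf 1 [(5,1)]) (.cons (.leaf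 1 [(9,1)]) (.cons (.leaf 1 [(11,1),(0,1),(9,1)]) .nil))))))))))) .nil))))))))))) (.cons (.leaf 1 [(7,1)]) (.cons (.leaf 1 [(3,1),(7,1)]) (.cons (.keep [0,1,7,8,9] (.node (.cons (.leaf 1 [(2,1)]) (.cons (.leaf 1 [(3,1)]) (.cons (.leaf 1 [(3,1),(9,1)]) (.cons (.leaf 1 []) (.cons (.leaf 1 [(3,1)]) (.cons (.leaf 1 [(8,1),(3,1),(9,1),(11,1)]) (.cons (.leaf 1 [(2,1)]) (.cons (.leaf 1 []) (.cons (.keep [0,7,8,9,11] (.node (.cons (.leaf 1 [(5,1)]) (.cons (.leaf 1 [(3,1),(10,1),(7,1)]) (.cons (.leaf 1 [(3,1),(0,1),(10,1)]) (.cons (.leaf 1 [(3,1)]) (.cons (.leaf 1 [(3,1)]) (.cons (.leaf 1 [(3,1)]) (.cons (.leaf 1 [(5,1)]) (.cons (.leaf 1 [(10,1),(7,1)]) (.cons (.leaf 1 [(0,1),(10,1)]) .nil))))))))))) .nil))))))))))) (.cons (.leaf 1 [(2,1),(7,1)]) (.cons (.leaf 1 [(7,1)]) (.cons (.keep [0,1,7,8,9]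 (.node (.cons (.leaf 1 [(2,1)]) (.cons (.leaf 1 [(3,1)]) (.cons (.leaf 1 [(3,1),(8,1),(9,1),(10,1)]) (.cons (.leaf 1 []) (.cons (.leaf 1 [(3,1)]) (.cons (.leaf 1 [(3,1),(9,1)]) (.cons (.leaf 1 [(2,1)]) (.cons (.leaf 1 []) (.cons (.keep [0,7,8,9,10] (.node (.cons (.leaf 1 [(5,1)]) (.cons (.leaf 2 [(3,1),(10,1)]) (.cons (.leaf 2 [(3,1),(10,1)]) (.cons (.leaf 1 [(3,1)]) (.cons (.leaf 1 [(3,1)]) (.cons (.leaf 1 [(3,1)]) (.cons (.leaf 1 [(5,1)]) (.cons (.leaf 1 [(11,1)]) (.cons (.leaf 1 [(9,1),(10,1),(0,1),(11,1)]) .nil))))))))))) .nil))))))))))) .nil))))))))))) (.cons (.keep [1,3,4,6,10] (.node (.cons (.leaf 1 [(7,1)]) (.cons (.leaf 1 [(3,1),(9,1),(7,1)]) (.cons (.keep [0,2,7,9,10] (.node (.cons (.leaf 1 [(3,1),(9,1)]) (.cons (.leaf 1 [(3,1),(9,1)]) (.cons (.leaf 1 [(3,1),(9,1)]) (.cons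 (.leaf 1 [(10,1)]) (.cons (.leaf 1 [(10,1),(3,1)]) (.cons (.leaf 1 [(11,1),(3,1),(9,1)]) (.cons (.leaf 1 [(2,1),(10,1)]) (.cons (.leaf 1 [(10,1)]) (.cons (.keep [0,7,9,10,11] (.node (.cons (.leaf 1 [(2,1)]) (.cons (.leaf 1 [(3,1)]) (.cons (.leaf 1 [(3,1),(9,1),(10,1),(0,1)]) (.cons (.leaf 1 []) (.cons (.leaf 1 [(3,1)]) (.cons (.leaf 1 [(3,1),(10,1)]) (.cons (.leaf 1 [(2,1)]) (.cons (.leaf 1 []) (.cons (.leaf 1 [(9,1),(10,1),(0,1)]) .nil))))))))))) .nil))))))))))) (.cons (.leaf 1 [(7,1),(1,1)]) (.cons (.leaf 1 [(7,1),(3,1),(1,1)]) (.cons (.keep [0,1,3,7,8] (.node (.cons (.leaf 1 [(2,1),(8,1)]) (.cons (.leaf 1 [(3,1),(8,1)]) (.cons (.leaf 1 [(3,1),(10,1),(8,1)]) (.cons (.leaf 1 [(8,1)]) (.cons (.leaf 1 [(3,1),(8,1)]) (.cons (.leaf 1 [(9,1),(3,1),(10,1),(8,1)]) (.cons (.leaf 1 [(2,1),(8,1)])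 (.cons (.leaf 1 [(8,1)]) (.cons (.keep [0,7,8,9,10] (.node (.cons (.leaf 1 [(2,1)]) (.cons (.leaf 1 [(3,1)]) (.cons (.leaf 2 [(3,1),(11,1),(9,2),(10,1)]) (.cons (.leaf 1 []) (.cons (.leaf 1 [(3,1)]) (.cons (.leaf 1 [(3,1),(9,1)]) (.cons (.leaf 1 [(2,1)]) (.cons (.leaf 1 []) (.cons (.leaf 1 [(11,1),(9,2),(0,1)]) .nil))))))))))) .nil))))))))))) (.cons (.leaf 1 [(7,1),(1,1)]) (.cons (.leaf 1 [(7,1),(9,1)]) (.cons (.keep [0,2,7,8,9,10] (.node (.cons (.leaf 1 [(2,1),(11,1)]) (.cons (.leaf 1 [(3,1),(11,1)]) (.cons (.leaf 1 [(3,1),(8,1),(9,1),(11,1)]) (.cons (.leaf 1 [(11,1)]) (.cons (.leaf 1 [(3,1),(11,1)]) (.cons (.leaf 1 [(3,1),(9,1),(11,1)]) (.cons (.leaf 1 [(2,1),(11,1)]) (.cons (.leaf 1 [(11,1)]) (.cons (.keep [0,7,8,9,11] (.node (.cons (.leaf 1 [(2,1)]) (.cons (.leaf 1 [(3,1)]) (.cons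 (.leaf 2 [(3,1),(10,1),(11,2)]) (.cons (.leaf 1 []) (.cons (.leaf 1 [(3,1)]) (.cons (.leaf 1 [(3,1),(11,1)]) (.cons (.leaf 1 [(2,1)]) (.cons (.leaf 1 []) (.cons (.leaf 1 [(9,1),(10,1),(11,2),(0,1)]) .nil))))))))))) .nil))))))))))) .nil))))))))))) (.cons (.keep [0,1,3,4] (.leaf 0 [(3,0)])) (.cons (.keep [2,5,6,8,10] (.node (.cons (.leaf 1 [(10,1),(2,2)]) (.cons (.leaf 1 [(3,1),(2,1),(10,1)]) (.cons (.keep [0,2,3,7,10] (.node (.cons (.leaf 1 [(2,1),(8,1)]) (.cons (.leaf 1 [(3,1),(8,1)]) (.cons (.leaf 1 [(3,1),(11,1),(8,2)]) (.cons (.leaf 1 [(8,1)]) (.cons (.leaf 1 [(8,1),(3,1)]) (.cons (.leaf 1 [(8,1),(3,1),(11,1),(9,1)]) (.cons (.leaf 1 [(8,1),(2,1)]) (.cons (.leaf 1 [(8,1)]) (.cons (.keep [0,7,8,9,11] (.node (.cons (.leaf 1 [(9,1),(5,1)]) (.cons (.leaf 1 [(9,2),(3,1)]) (.cons (.leaf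 2 [(10,1),(11,1),(3,1),(9,2)]) (.cons (.leaf 1 [(3,2)]) (.cons (.leaf 1 [(3,1)]) (.cons (.leaf 1 [(3,2),(4,1)]) (.cons (.leaf 1 [(5,3)]) (.cons (.leaf 1 [(9,2)]) (.cons (.leaf 1 [(11,1),(0,1),(9,3)]) .nil))))))))))) .nil))))))))))) (.cons (.leaf 1 [(10,1),(8,1)]) (.cons (.leaf 1 [(3,1),(8,1),(10,1)]) (.cons (.keep [0,1,8,9,10] (.node (.cons (.leaf 1 [(2,1),(9,1)]) (.cons (.leaf 1 [(3,1),(9,1)]) (.cons (.leaf 1 [(3,1),(11,1),(9,1)]) (.cons (.leaf 1 [(9,1)]) (.cons (.leaf 1 [(9,1),(3,1)]) (.cons (.leaf 1 [(3,1),(11,1),(10,1)]) (.cons (.leaf 1 [(9,1),(2,1)]) (.cons (.leaf 1 [(9,1)]) (.cons (.keep [0,7,8,9,10,11] (.node (.cons (.leaf 1 [(10,1),(5,1)]) (.cons (.leaf 1 [(10,2),(3,1)]) (.cons (.leaf 2 [(11,1),(12,1),(3,1),(10,1)]) (.cons (.leaf 1 [(3,2)]) (.cons (.leaf 1 [(3,1)]) (.cons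 (.leaf 1 [(3,2),(4,1)]) (.cons (.leaf 1 [(5,3)]) (.cons (.leaf 1 [(10,2)]) (.cons (.leaf 1 [(12,1),(0,1),(10,2)]) .nil))))))))))) .nil))))))))))) (.cons (.leaf 1 [(10,1),(8,1),(2,1)]) (.cons (.leaf 1 [(10,1),(8,1)]) (.cons (.keep [0,2,7,9,10] (.node (.cons (.leaf 1 [(10,1)]) (.cons (.leaf 1 [(3,1),(8,1),(10,1)]) (.cons (.leaf 1 [(10,1),(3,1),(11,1),(8,2)]) (.cons (.leaf 1 [(10,1),(1,1)]) (.cons (.leaf 1 [(1,1),(3,1),(10,1)]) (.cons (.leaf 1 [(1,1),(3,1),(11,1),(10,1)]) (.cons (.leaf 1 [(1,1),(10,1)]) (.cons (.leaf 1 [(10,1),(8,1)]) (.cons (.keep [0,7,8,9,10,11] (.node (.cons (.leaf 1 [(11,1),(9,1),(5,1)]) (.cons (.leaf 1 [(11,2),(9,2),(3,1)]) (.cons (.leaf 2 [(11,2),(12,1),(3,1),(9,2)]) (.cons (.leaf 1 [(3,2)]) (.cons (.leaf 1 [(3,1)]) (.cons (.leaf 1 [(3,2),(4,1)]) (.cons (.leaf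 1 [(5,3)]) (.cons (.leaf 1 [(9,2),(11,2)]) (.cons (.leaf 1 [(9,3),(12,1),(0,1),(11,2)]) .nil))))))))))) .nil))))))))))) .nil))))))))))) (.cons (.keep [2,6,7,8,9] (.node (.cons (.leaf 1 [(2,1),(10,1)]) (.cons (.leaf 1 [(3,1),(10,1)]) (.cons (.keep [0,2,7,8,10] (.node (.cons (.leaf 1 [(2,1)]) (.cons (.leaf 1 [(3,1)]) (.cons (.leaf 1 [(3,1),(11,1),(8,1)]) (.cons (.leaf 1 []) (.cons (.leaf 1 [(3,1)]) (.cons (.leaf 1 [(3,1),(8,1),(11,1),(10,1)]) (.cons (.leaf 1 [(2,1)]) (.cons (.leaf 1 []) (.cons (.keep [0,7,8,9,10,11] (.node (.cons (.leaf 1 [(5,1)]) (.cons (.leaf 1 [(3,1),(9,1)]) (.cons (.leaf 2 [(3,1),(12,1),(11,1),(9,1)]) (.cons (.leaf 1 [(3,1)]) (.cons (.leaf 1 [(3,1)]) (.cons (.leaf 1 [(3,1)]) (.cons (.leaf 1 [(5,1)]) (.cons (.leaf 1 [(9,1)]) (.cons (.leaf 1 [(12,1),(0,1),(9,1)])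 .nil))))))))))) .nil))))))))))) (.cons (.leaf 1 [(10,1)]) (.cons (.leaf 1 [(3,1),(10,1)]) (.cons (.keep [0,1,3,10,11] (.node (.cons (.leaf 1 [(2,1)]) (.cons (.leaf 1 [(3,1)]) (.cons (.leaf 1 [(3,1),(10,1)]) (.cons (.leaf 1 []) (.cons (.leaf 1 [(3,1)]) (.cons (.leaf 1 [(9,1),(3,1),(10,1)]) (.cons (.leaf 1 [(2,1)]) (.cons (.leaf 1 []) (.cons (.keep [0,7,8,9,10] (.node (.cons (.leaf 1 [(5,1)]) (.cons (.leaf 2 [(3,1),(11,1),(10,1)]) (.cons (.leaf 2 [(3,1),(10,1),(11,1)]) (.cons (.leaf 1 [(3,1)]) (.cons (.leaf 1 [(3,1)]) (.cons (.leaf 1 [(3,1)]) (.cons (.leaf 1 [(5,1)]) (.cons (.leaf 1 [(11,1),(7,1)]) (.cons (.leaf 1 [(0,1),(11,1)]) .nil))))))))))) .nil))))))))))) (.cons (.leaf 1 [(2,1),(10,1)]) (.cons (.leaf 1 [(10,1)]) (.cons (.keep [0,2,7,8,10,11] (.node (.cons (.leaf 1 [(2,1)]) (.cons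 (.leaf 1 [(3,1)]) (.cons (.leaf 1 [(3,1),(8,1),(11,1)]) (.cons (.leaf 1 []) (.cons (.leaf 1 [(3,1)]) (.cons (.leaf 1 [(3,1),(11,1)]) (.cons (.leaf 1 [(2,1)]) (.cons (.leaf 1 []) (.cons (.keep [0,7,8,9,11] (.node (.cons (.leaf 1 [(5,1)]) (.cons (.leaf 2 [(3,1),(11,1)]) (.cons (.leaf 2 [(3,1),(11,1)]) (.cons (.leaf 1 [(3,1)]) (.cons (.leaf 1 [(3,1)]) (.cons (.leaf 1 [(3,1)]) (.cons (.leaf 1 [(5,1)]) (.cons (.leaf 1 [(9,1),(11,1),(7,1)]) (.cons (.leaf 1 [(0,1),(11,1),(9,1)]) .nil))))))))))) .nil))))))))))) .nil))))))))))) (.cons (.keep [2,5,7,8,9] (.node (.cons (.leaf 1 [(2,1),(8,1),(10,1)]) (.cons (.leaf 1 [(2,1),(10,1)]) (.cons (.keep [0,3,7,8,10] (.node (.cons (.leaf 1 []) (.cons (.leaf 1 [(3,1),(10,1)]) (.cons (.leaf 1 [(8,1),(3,1),(11,1),(10,2)]) (.cons (.leaf 1 [(1,1)]) (.cons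 (.leaf 1 [(1,1),(3,1)]) (.cons (.leaf 1 [(1,1),(3,1),(11,1),(8,1)]) (.cons (.leaf 1 [(1,1)]) (.cons (.leaf 1 [(10,1)]) (.cons (.keep [0,7,8,9,10,11] (.node (.cons (.leaf 1 [(11,1),(5,1)]) (.cons (.leaf 1 [(3,1),(9,1),(11,2)]) (.cons (.leaf 2 [(3,1),(12,1),(9,1),(11,2)]) (.cons (.leaf 1 [(11,1),(3,1)]) (.cons (.leaf 1 [(3,1),(11,1)]) (.cons (.leaf 1 [(3,1),(11,1)]) (.cons (.leaf 1 [(11,1),(5,1)]) (.cons (.leaf 1 [(11,2),(9,1)]) (.cons (.leaf 1 [(12,1),(9,1),(0,1),(11,3)]) .nil))))))))))) .nil))))))))))) (.cons (.leaf 1 [(10,1),(8,1)]) (.cons (.leaf 1 [(10,1)]) (.cons (.keep [0,1,3,8,10,11] (.node (.cons (.leaf 1 []) (.cons (.leaf 1 [(3,1),(10,1)]) (.cons (.leaf 1 [(3,1),(10,1),(11,1)]) (.cons (.leaf 1 [(1,1)]) (.cons (.leaf 1 [(1,1),(3,1)]) (.cons (.leaf 1 [(3,1),(11,1)]) (.cons (.leaf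 1 [(1,1)]) (.cons (.leaf 1 [(10,1)]) (.cons (.keep [0,7,8,10,11] (.node (.cons (.leaf 1 [(10,1),(5,1)]) (.cons (.leaf 2 [(3,1),(11,1),(10,1)]) (.cons (.leaf 2 [(3,1),(11,1),(10,1)]) (.cons (.leaf 1 [(10,1),(3,1)]) (.cons (.leaf 1 [(3,1),(10,1)]) (.cons (.leaf 1 [(3,1),(10,1)]) (.cons (.leaf 1 [(10,1),(5,1)]) (.cons (.leaf 1 [(10,2),(11,1),(7,1)]) (.cons (.leaf 1 [(0,1),(11,1),(10,2)]) .nil))))))))))) .nil))))))))))) (.cons (.leaf 1 [(10,1),(2,2)]) (.cons (.leaf 1 [(10,1),(2,1)]) (.cons (.keep [0,2,7,10,11] (.node (.cons (.leaf 1 []) (.cons (.leaf 1 [(3,1),(8,1)]) (.cons (.leaf 1 [(10,1),(3,1),(8,2)]) (.cons (.leaf 1 [(1,1)]) (.cons (.leaf 1 [(1,1),(3,1)]) (.cons (.leaf 1 [(1,1),(3,1),(10,1)]) (.cons (.leaf 1 [(1,1)]) (.cons (.leaf 1 [(8,1)]) (.cons (.keep [0,7,8,9,10] (.node (.cons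 (.leaf 1 [(9,1),(5,1)]) (.cons (.leaf 2 [(3,1),(11,1),(9,2)]) (.cons (.leaf 2 [(3,1),(11,1),(9,2)]) (.cons (.leaf 1 [(9,1),(3,1)]) (.cons (.leaf 1 [(3,1),(9,1)]) (.cons (.leaf 1 [(3,1),(9,1)]) (.cons (.leaf 1 [(9,1),(5,1)]) (.cons (.leaf 1 [(9,3),(11,1),(7,1)]) (.cons (.leaf 1 [(0,1),(11,1),(9,3)]) .nil))))))))))) .nil))))))))))) .nil))))))))))) .nil))))))))))) (.cons (.keep [0,2,3,4,5,7] (.leaf 0 [(4,0)])) (.cons (.leaf 1 []) (.cons (.leaf 1 [(4,1)]) (.cons (.leaf 1 [(4,1)]) (.cons (.leaf 1 [(5,1)]) (.cons (.leaf 1 []) (.cons (.leaf 1 [(5,1)]) .nil)))))))))))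

theorem e_14_28 : ESB (caseOf 4 14 28) := esb_of_pieces _ (hP_cons c_14_28_15 (hP_cons
  E39.c_14_28_10 (hP_cons E39.c_14_28_9 (hP_cons E39.c_14_28_11 (hP_cons c_14_28_16 hP_nil)))))
  t_14_28 (by decide +kernel)

def ks : List (ℕ × ℕ) := [(14, 28)]

theorem ks_ok : ∀ p ∈ ks, ESB (caseOf 4 p.1 p.2) := ks_cons e_14_28 <| ks_nil

end Pool.Agent.H4.RD4.E40
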