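import Pool.Agent.H4.RD4.E48
import Pool.Agent.H4.RD4.E49

/-! # Certificates for special cases of order four -/

set_option maxRecDepth 20000

namespace Pool.Agent.H4.RD4.E50

open Pool.Agent.H50.Rdb
open Pool.Agent.H81.RDE (ESB caseOf)

def z_23_16_14 : F := ⟨-1, 1, -1, -1, 3⟩

def h_23_16_14 : List F := [⟨0, 0, 1, 0, 1⟩, ⟨0, 0, 0, -1, 1⟩, ⟨0, 1, -1, 0, 2⟩, ⟨-1, 0, -1, 0,
  2⟩]

def t_23_16_14 : T := (.node (.cons (.keep [2,4,6,7,8,9] (.node (.cons (.keep [3,6,7,8,10,11] (.node (.cons (.keep [2,3,4,7,10,11] (.node (.cons (.leaf 1 [(2,1),(9,1),(8,1),(4,1)]) (.cons (.leaf 1 [(4,1),(9,1),(8,1),(7,1)]) (.cons (.leaf 1 [(2,1),(4,1),(8,1)]) (.cons (.leaf 1 [(7,1),(9,1),(8,1)]) .nil)))))) (.cons (.leaf 1 [(4,1),(3,1),(7,1)]) (.cons (.keep [4,6,7,8,10,11] (.node (.cons (.leaf 1 [(6,1),(8,1),(2,1),(4,1)])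 (.cons (.leaf 1 [(4,1),(8,1),(6,1),(9,1)]) (.cons (.leaf 1 [(6,1),(2,1),(4,1)]) (.cons (.leaf 1 [(6,1),(8,1),(9,1)]) .nil)))))) (.cons (.keep [0,3,7,8,10,11] (.node (.cons (.leaf 1 [(2,1),(8,1),(4,1)]) (.cons (.leaf 1 [(4,1),(8,1),(9,1)]) (.cons (.leaf 1 [(2,1),(4,1)]) (.cons (.leaf 1 [(9,1),(8,1)]) .nil)))))) .nil)))))) (.cons (.keep [1,6,7,9,10,11] (.node (.cons (.keep [2,3,4,7,10,11] (.node (.cons (.leaf 1 [(2,1),(8,1),(9,1),(4,1)]) (.cons (.leaf 1 [(4,1),(8,1),(9,1),(7,1)]) (.cons (.leaf 1 [(2,1),(4,1)]) (.cons (.leaf 1 [(7,1),(8,1),(9,1)]) .nil)))))) (.cons (.leaf 1 [(3,1),(7,1),(4,1)]) (.cons (.keep [4,7,8,9,10,11] (.node (.cons (.leaf 1 [(2,1),(6,1),(7,1),(4,1)]) (.cons (.leaf 1 [(4,1),(6,1),(7,1),(8,1)]) (.cons (.leaf 1 [(2,1),(4,1)]) (.cons (.leaf 1 [(8,1),(6,1),(7,1)]) .nil)))))) (.cons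 (.keep [0,3,7,8,10,11] (.node (.cons (.leaf 1 [(2,1),(8,1),(4,1)]) (.cons (.leaf 1 [(4,1),(8,1),(9,1)]) (.cons (.leaf 1 [(2,1),(4,1)]) (.cons (.leaf 1 [(9,1),(8,1)]) .nil)))))) .nil)))))) (.cons (.leaf 1 [(8,1),(1,1),(7,1),(6,1)]) (.cons (.keep [0,2,7,8,11] (.node (.cons (.keep [3,4,6,7,10] (.node (.cons (.leaf 1 [(2,1),(7,1),(4,1)]) (.cons (.leaf 1 [(4,1),(7,1),(6,1)]) (.cons (.leaf 1 [(6,1),(4,1),(7,1)]) (.cons (.leaf 1 [(6,1),(7,1)]) .nil)))))) (.cons (.leaf 1 [(4,1),(3,1)]) (.cons (.keep [4,6,7,8,10] (.node (.cons (.leaf 1 [(6,1),(2,1),(4,1)]) (.cons (.leaf 1 [(4,1),(6,1),(9,1)]) (.cons (.leaf 1 [(6,1),(4,1),(9,1)]) (.cons (.leaf 1 [(6,1),(9,1)]) .nil)))))) (.cons (.keep [0,3,6,7,8,10] (.node (.cons (.leaf 1 [(2,1),(4,1)]) (.cons (.leaf 1 [(4,1),(10,1)]) (.cons (.leaf 1 [(10,1),(4,1)]) (.cons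 (.leaf 1 [(10,1)]) .nil)))))) .nil)))))) .nil)))))) (.cons (.keep [3,4,6,7,9] (.leaf 0 [(0,0)])) (.cons (.keep [1,2,4,7,8,9] (.node (.cons (.keep [3,6,7,8,10,11] (.node (.cons (.keep [2,4,8,9,10,11] (.node (.cons (.leaf 1 [(2,1),(8,1),(7,1),(4,1)]) (.cons (.leaf 1 [(4,1),(8,1),(9,1)]) (.cons (.leaf 1 [(2,1),(4,1),(7,2)]) (.cons (.leaf 1 [(8,1),(9,1)]) .nil)))))) (.cons (.leaf 1 [(4,1),(3,1),(8,1)]) (.cons (.keep [4,6,8,9,10,11] (.node (.cons (.leaf 1 [(6,1),(8,1),(2,1),(4,1)]) (.cons (.leaf 1 [(8,1),(9,1),(4,1)]) (.cons (.leaf 1 [(6,2),(2,1),(4,1)]) (.cons (.leaf 1 [(8,1),(9,1)]) .nil)))))) (.cons (.keep [0,3,8,9,10,11] (.node (.cons (.leaf 1 [(2,1),(8,1),(4,1)]) (.cons (.leaf 1 [(4,1),(8,1),(9,1)]) (.cons (.leaf 1 [(2,1),(4,1)]) (.cons (.leaf 1 [(9,1),(8,1)]) .nil)))))) .nil)))))) (.cons (.keep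 [4,7,8,9,11] (.node (.cons (.keep [2,6,7,8,10] (.node (.cons (.leaf 1 [(2,1),(8,2),(7,1),(4,1)]) (.cons (.leaf 1 [(4,1),(8,1),(9,1)]) (.cons (.leaf 1 [(2,1),(4,1),(1,1),(7,1)]) (.cons (.leaf 1 [(8,1),(9,1)]) .nil)))))) (.cons (.leaf 1 [(4,1),(3,1),(7,1)]) (.cons (.keep [6,7,8,9,10] (.node (.cons (.leaf 1 [(6,1),(7,2),(2,1),(4,1)]) (.cons (.leaf 1 [(4,1),(7,1),(8,1)]) (.cons (.leaf 1 [(6,1),(1,1),(2,1),(4,1)]) (.cons (.leaf 1 [(7,1),(8,1)]) .nil)))))) (.cons (.keep [0,3,6,7,8,10] (.node (.cons (.leaf 1 [(2,1),(9,1),(4,1)]) (.cons (.leaf 1 [(4,1),(9,1),(10,1)]) (.cons (.leaf 1 [(2,1),(4,1)]) (.cons (.leaf 1 [(10,1),(9,1)]) .nil)))))) .nil)))))) (.cons (.leaf 1 [(8,1),(1,1),(7,1)]) (.cons (.keep [0,2,6,8,11] (.node (.cons (.keep [4,6,7,9,10] (.node (.cons (.leaf 1 [(2,1),(6,2),(4,1)]) (.cons (.leaf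 1 [(4,1),(6,1),(9,1)]) (.cons (.leaf 1 [(9,1),(4,1),(6,1)]) (.cons (.leaf 1 [(9,1),(6,1)]) .nil)))))) (.cons (.leaf 1 [(4,2),(3,1)]) (.cons (.keep [4,6,7,9,10] (.node (.cons (.leaf 1 [(6,2),(2,1),(4,1)]) (.cons (.leaf 1 [(6,1),(9,1),(4,1)]) (.cons (.leaf 1 [(6,1),(4,1),(9,1)]) (.cons (.leaf 1 [(6,1),(9,1)]) .nil)))))) (.cons (.keep [0,3,6,7,9,10] (.node (.cons (.leaf 1 [(2,1),(4,1)]) (.cons (.leaf 1 [(4,1),(10,1)]) (.cons (.leaf 1 [(10,1),(4,1)]) (.cons (.leaf 1 [(10,1)]) .nil)))))) .nil)))))) .nil)))))) (.cons (.keep [0,2,6,8,9] (.node (.cons (.keep [2,6,7,8,9] (.node (.cons (.keep [3,4,7,8,10] (.node (.cons (.leaf 1 [(9,1),(2,1),(7,1),(4,1)]) (.cons (.leaf 1 [(4,1),(9,1),(7,1),(6,1)]) (.cons (.leaf 1 [(1,1),(7,1),(4,1)]) (.cons (.leaf 1 [(9,1),(6,1),(7,1)]) .nil)))))) (.cons (.leaf 1 [(3,1),(8,1),(4,1)])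 (.cons (.keep [4,6,7,8,10] (.node (.cons (.leaf 1 [(6,1),(9,1),(2,1),(4,1)]) (.cons (.keep [4,6,8,9,10] (.node (.cons (.leaf 1 [(3,1),(6,1),(9,1)]) (.cons (.leaf 1 [(4,1),(3,1),(6,1)]) (.cons (.keep [6,7,8,9,10] (.node (.cons (.leaf 1 [(6,1),(7,1),(4,1)]) (.cons (.leaf 1 [(4,1),(6,1),(7,1)]) (.cons (.leaf 1 [(6,2),(4,1),(2,1)]) (.cons (.leaf 1 [(6,1),(7,1)]) .nil)))))) (.cons (.leaf 1 [(9,1),(7,1),(6,1)]) .nil)))))) (.cons (.leaf 1 [(6,1),(1,1),(4,1)]) (.cons (.keep [0,2,6,9,10] (.node (.cons (.leaf 1 [(3,1),(9,1)]) (.cons (.leaf 1 [(4,1),(3,1)]) (.cons (.keep [6,7,8,9,10] (.node (.cons (.leaf 1 [(8,1),(4,1)]) (.cons (.leaf 1 [(4,1),(8,1)]) (.cons (.leaf 1 [(4,1),(8,1)]) (.cons (.leaf 1 [(8,1)]) .nil)))))) (.cons (.leaf 1 [(9,1),(8,1)]) .nil)))))) .nil)))))) (.cons (.keep [0,3,8,10] (.node (.cons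 (.leaf 1 [(8,1),(2,1),(4,1)]) (.cons (.keep [4,6,7,8,9] (.node (.cons (.leaf 1 [(9,1),(8,1),(3,1),(6,1)]) (.cons (.leaf 1 [(1,1),(6,1)]) (.cons (.keep [6,7,8,9,10] (.node (.cons (.leaf 1 [(6,1),(4,1)]) (.cons (.leaf 1 [(4,1),(6,1)]) (.cons (.leaf 1 [(6,1),(4,1)]) (.cons (.leaf 1 [(6,1)]) .nil)))))) (.cons (.leaf 1 [(9,1),(6,1)]) .nil)))))) (.cons (.leaf 1 [(1,1),(4,1)]) (.cons (.keep [0,2,6,7,8,9] (.node (.cons (.leaf 1 [(10,1),(9,1),(3,1)]) (.cons (.leaf 1 [(1,1)]) (.cons (.keep [6,7,8,9,10,11] (.node (.cons (.leaf 1 [(4,1)]) (.cons (.leaf 1 [(4,1)]) (.cons (.leaf 1 [(4,1)]) (.cons (.leaf 1 []) .nil)))))) (.cons (.leaf 1 [(10,1)]) .nil)))))) .nil)))))) .nil)))))) (.cons (.keep [1,6,7,9,10] (.node (.cons (.keep [3,4,7,8,9] (.node (.cons (.leaf 1 [(9,1),(7,1),(2,1),(4,1)]) (.cons (.leaf 1 [(4,1),(7,1),(9,1),(6,1)])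 (.cons (.leaf 1 [(1,1),(4,1)]) (.cons (.leaf 1 [(9,1),(7,1),(6,1)]) .nil)))))) (.cons (.leaf 1 [(4,1),(8,1),(3,1)]) (.cons (.keep [4,7,8,9,10] (.node (.cons (.leaf 1 [(6,1),(2,1),(8,1),(4,1)]) (.cons (.keep [4,6,7,8,9] (.node (.cons (.leaf 1 [(3,1),(9,1),(6,1)]) (.cons (.leaf 1 [(1,1),(6,1)]) (.cons (.keep [6,7,8,9,10] (.node (.cons (.leaf 1 [(6,1),(4,1)]) (.cons (.leaf 1 [(4,1),(6,1)]) (.cons (.leaf 1 [(6,1),(4,1)]) (.cons (.leaf 1 [(6,1)]) .nil)))))) (.cons (.leaf 1 [(7,1),(9,1),(6,1)]) .nil)))))) (.cons (.leaf 1 [(1,1),(4,1)]) (.cons (.keep [0,2,6,8,9] (.node (.cons (.leaf 1 [(3,1),(9,1)]) (.cons (.leaf 1 [(1,1)]) (.cons (.keep [6,7,8,9,10] (.node (.cons (.leaf 1 [(4,1)]) (.cons (.leaf 1 [(4,1)]) (.cons (.leaf 1 [(4,1)]) (.cons (.leaf 1 []) .nil)))))) (.cons (.leaf 1 [(8,1),(9,1)]) .nil))))))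 .nil)))))) (.cons (.keep [0,3,8,9] (.node (.cons (.leaf 1 [(8,1),(2,1),(4,1)]) (.cons (.keep [4,6,7,8,9] (.node (.cons (.leaf 1 [(9,1),(8,1),(3,1),(6,1)]) (.cons (.leaf 1 [(1,1),(6,1)]) (.cons (.keep [6,7,8,9,10] (.node (.cons (.leaf 1 [(6,1),(4,1)]) (.cons (.leaf 1 [(4,1),(6,1)]) (.cons (.leaf 1 [(6,1),(4,1)]) (.cons (.leaf 1 [(6,1)]) .nil)))))) (.cons (.leaf 1 [(9,1),(6,1)]) .nil)))))) (.cons (.leaf 1 [(1,1),(4,1)]) (.cons (.keep [0,2,6,7,8,9] (.node (.cons (.leaf 1 [(10,1),(9,1),(3,1)]) (.cons (.leaf 1 [(1,1)]) (.cons (.keep [6,7,8,9,10,11] (.node (.cons (.leaf 1 [(4,1)]) (.cons (.leaf 1 [(4,1)]) (.cons (.leaf 1 [(4,1)]) (.cons (.leaf 1 []) .nil)))))) (.cons (.leaf 1 [(10,1)]) .nil)))))) .nil)))))) .nil)))))) (.cons (.keep [2,6,7,8,9] (.node (.cons (.leaf 1 [(6,1),(8,1),(3,1),(4,2)]) (.cons (.leaf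 1 [(4,1),(8,1),(3,1)]) (.cons (.keep [4,6,7,8,10] (.node (.cons (.leaf 1 [(6,1),(4,1),(2,1),(9,1)]) (.cons (.keep [6,7,8,9,10] (.node (.cons (.leaf 1 [(7,1),(3,2),(9,1),(4,1)]) (.cons (.leaf 1 [(4,1),(3,1)]) (.cons (.keep [6,7,8,9,10] (.node (.cons (.leaf 1 [(6,1),(4,1)]) (.cons (.leaf 1 [(4,1),(6,1)]) (.cons (.leaf 1 [(4,1),(6,1)]) (.cons (.leaf 1 [(6,1)]) .nil)))))) (.cons (.leaf 1 [(7,1),(6,2),(9,1)]) .nil)))))) (.cons (.leaf 1 [(6,1),(1,1)]) (.cons (.keep [0,2,6,9,10] (.node (.cons (.leaf 1 [(3,1),(9,1)]) (.cons (.leaf 1 [(4,1),(3,1)]) (.cons (.keep [6,7,8,9,10] (.node (.cons (.leaf 1 [(8,1),(4,1)]) (.cons (.leaf 1 [(4,1),(8,1)]) (.cons (.leaf 1 [(4,1),(8,1)]) (.cons (.leaf 1 [(8,1)]) .nil)))))) (.cons (.leaf 1 [(9,1),(8,1)]) .nil)))))) .nil)))))) (.cons (.keep [0,3,6,8,10] (.node (.cons (.leaf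 1 [(9,1),(4,1),(2,1)]) (.cons (.keep [4,6,7,9,10] (.node (.cons (.leaf 1 [(6,1),(8,1),(9,1),(3,1)]) (.cons (.leaf 1 [(1,1)]) (.cons (.keep [6,7,8,9,10] (.node (.cons (.leaf 1 [(4,1)]) (.cons (.leaf 1 [(4,1)]) (.cons (.leaf 1 [(4,1)]) (.cons (.leaf 1 []) .nil)))))) (.cons (.leaf 1 [(6,1),(9,1)]) .nil)))))) (.cons (.leaf 1 [(1,1)]) (.cons (.keep [0,2,6,7,9,10] (.node (.cons (.leaf 1 [(10,1),(9,1),(3,1)]) (.cons (.leaf 1 [(1,1)]) (.cons (.keep [6,7,8,9,10,11] (.node (.cons (.leaf 1 [(4,1)]) (.cons (.leaf 1 [(4,1)]) (.cons (.leaf 1 [(4,1)]) (.cons (.leaf 1 []) .nil)))))) (.cons (.leaf 1 [(10,1)]) .nil)))))) .nil)))))) .nil)))))) (.cons (.keep [0,2,6,7,8,9] (.node (.cons (.keep [3,4,6,7,9,11] (.node (.cons (.leaf 1 [(7,1),(4,1)]) (.cons (.leaf 1 [(4,1),(7,1)]) (.cons (.leaf 1 [(4,1),(7,1)]) (.cons (.leaf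 1 [(7,1)]) .nil)))))) (.cons (.leaf 1 [(1,1),(4,1)]) (.cons (.keep [1,4,6,7,8,11] (.node (.cons (.leaf 1 [(7,1),(4,1)]) (.cons (.leaf 1 [(7,1),(4,1)]) (.cons (.leaf 1 [(7,1),(4,1)]) (.cons (.leaf 1 [(7,1)]) .nil)))))) (.cons (.keep [0,3,6,7,9] (.node (.cons (.leaf 1 [(4,1)]) (.cons (.leaf 1 [(4,1)]) (.cons (.leaf 1 [(4,1)]) (.cons (.leaf 1 []) .nil)))))) .nil)))))) .nil)))))) .nil)))))

theorem c_23_16_14 : Concl 23 16 z_23_16_14 h_23_16_14 .nd := piece _ (hP_cons E48.c_23_16_13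
  hP_nil) t_23_16_14 _ _ (by decide +kernel)

def z_23_16_17 : F := ⟨1, 0, -1, 0, 1⟩

def h_23_16_17 : List F := [⟨1, -1, 0, 0, 0⟩, ⟨1, 0, 0, -1, 0⟩, ⟨0, 0, 0, 1, 1⟩, ⟨0, 0, -1, 0, 1⟩]

def t_23_16_17 : T := (.node (.cons (.keep [2,3,7,8] (.node (.cons (.keep [2,3,4,6,8,9] (.node (.cons (.keep [2,4,6,8,9,10,11] (.node (.cons (.keep [3,4,6,7,8,10,11] (.node (.cons (.leaf 1 [(3,1),(4,1)]) (.cons (.leaf 1 [(3,1),(6,1),(4,1)]) (.cons (.leaf 1 [(4,1),(9,1)]) (.cons (.leaf 1 [(9,1)]) .nil)))))) (.cons (.leaf 1 [(1,1),(7,1)]) (.cons (.keep [1,4,6,7,8,9,11] (.node (.cons (.leaf 1 [(3,1),(4,1)]) (.cons (.leaf 1 [(9,1),(4,1)]) (.cons (.leaf 1 [(4,1),(9,1)]) (.cons (.leaf 1 [(9,1)]) .nil)))))) (.cons (.keep [0,3,7,8,9,10] (.node (.cons (.leaf 1 [(3,1),(4,1)]) (.cons (.leaf 1 [(8,1),(4,1)]) (.cons (.leaf 1 [(4,1),(8,1)])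 (.cons (.leaf 1 [(8,1)]) .nil)))))) .nil)))))) (.cons (.keep [1,3,4,6,7,8,9] (.node (.cons (.keep [3,4,7,8,9,10,12] (.node (.cons (.leaf 1 [(3,1),(7,1),(4,1)]) (.cons (.leaf 1 [(3,1),(6,1),(7,1),(4,1)]) (.cons (.leaf 1 [(4,1),(9,1)]) (.cons (.leaf 1 [(9,1)]) .nil)))))) (.cons (.leaf 1 [(1,1),(8,1)]) (.cons (.keep [1,4,7,8,9,10,11] (.node (.cons (.leaf 1 [(7,1),(3,1),(4,1)]) (.cons (.leaf 1 [(4,1),(9,1)]) (.cons (.leaf 1 [(9,1),(4,1)]) (.cons (.leaf 1 [(9,1)]) .nil)))))) (.cons (.keep [0,3,8,9,11,12] (.node (.cons (.leaf 1 [(3,1),(4,1)]) (.cons (.leaf 1 [(8,1),(4,1)]) (.cons (.leaf 1 [(4,1),(8,1)]) (.cons (.leaf 1 [(8,1)]) .nil)))))) .nil)))))) (.cons (.leaf 1 [(1,1),(4,1)]) (.cons (.keep [0,2,7,8,9,11] (.node (.cons (.keep [3,4,6,7,8,10] (.node (.cons (.leaf 1 [(4,1)]) (.cons (.leaf 1 [(4,1)]) (.cons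 (.leaf 1 [(4,1)]) (.cons (.leaf 1 []) .nil)))))) (.cons (.leaf 1 [(1,1)]) (.cons (.keep [1,4,6,7,8,9] (.node (.cons (.leaf 1 [(4,1)]) (.cons (.leaf 1 [(4,1)]) (.cons (.leaf 1 [(4,1)]) (.cons (.leaf 1 []) .nil)))))) (.cons (.keep [0,3,6,7,9,10] (.node (.cons (.leaf 1 [(4,1)]) (.cons (.leaf 1 [(4,1)]) (.cons (.leaf 1 [(4,1)]) (.cons (.leaf 1 []) .nil)))))) .nil)))))) .nil)))))) (.cons (.keep [3,4,6,7,8,9] (.node (.cons (.keep [6,7,8,9,10,11] (.node (.cons (.keep [4,6,7,8,9,10] (.node (.cons (.leaf 1 [(3,1),(4,1)]) (.cons (.leaf 1 [(6,1),(7,1),(4,1)]) (.cons (.leaf 1 [(4,1),(7,1),(6,1)]) (.cons (.leaf 1 [(6,1),(7,1)]) .nil)))))) (.cons (.leaf 1 [(1,1),(4,1),(6,1)]) (.cons (.keep [4,6,7,8,9,10] (.node (.cons (.leaf 1 [(3,1),(4,1)]) (.cons (.leaf 1 [(6,1),(7,1),(4,1)]) (.cons (.leaf 1 [(4,1),(7,1),(6,1)])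 (.cons (.leaf 1 [(6,1),(7,1)]) .nil)))))) (.cons (.keep [0,3,6,7,8,9] (.node (.cons (.leaf 1 [(3,1),(4,1)]) (.cons (.leaf 1 [(8,1),(4,1)]) (.cons (.leaf 1 [(4,1),(8,1)]) (.cons (.leaf 1 [(8,1)]) .nil)))))) .nil)))))) (.cons (.keep [1,3,6,7,8,9] (.node (.cons (.keep [4,7,8,9,10,11] (.node (.cons (.leaf 1 [(3,1),(6,1),(4,1)]) (.cons (.leaf 1 [(4,1),(8,1),(6,1)]) (.cons (.leaf 1 [(4,1),(6,1),(8,1)]) (.cons (.leaf 1 [(8,1),(6,1)]) .nil)))))) (.cons (.leaf 1 [(1,1),(8,1),(4,1)]) (.cons (.keep [4,7,8,9,10,11] (.node (.cons (.leaf 1 [(6,1),(3,1),(4,1)]) (.cons (.leaf 1 [(4,1),(6,1),(8,1)]) (.cons (.leaf 1 [(6,1),(4,1),(8,1)]) (.cons (.leaf 1 [(6,1),(8,1)]) .nil)))))) (.cons (.keep [0,3,8,9,10,11] (.node (.cons (.leaf 1 [(3,1),(4,1)]) (.cons (.leaf 1 [(8,1),(4,1)]) (.cons (.leaf 1 [(4,1),(8,1)]) (.cons (.leaf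 1 [(8,1)]) .nil)))))) .nil)))))) (.cons (.leaf 1 [(1,1),(4,1)]) (.cons (.keep [0,2,6,7,8,11] (.node (.cons (.keep [3,4,6,7,8,10] (.node (.cons (.leaf 1 [(4,1)]) (.cons (.leaf 1 [(4,1)]) (.cons (.leaf 1 [(4,1)]) (.cons (.leaf 1 []) .nil)))))) (.cons (.leaf 1 [(1,1)]) (.cons (.keep [1,4,6,7,8,9] (.node (.cons (.leaf 1 [(4,1)]) (.cons (.leaf 1 [(4,1)]) (.cons (.leaf 1 [(4,1)]) (.cons (.leaf 1 []) .nil)))))) (.cons (.keep [0,3,6,7,9,10] (.node (.cons (.leaf 1 [(4,1)]) (.cons (.leaf 1 [(4,1)]) (.cons (.leaf 1 [(4,1)]) (.cons (.leaf 1 []) .nil)))))) .nil)))))) .nil)))))) (.cons (.keep [1,4,6,7,8] (.node (.cons (.keep [2,4,6,7,8,9,10] (.node (.cons (.keep [4,6,7,9,10,11,12] (.node (.cons (.leaf 1 [(3,1),(4,1)]) (.cons (.leaf 1 [(4,1),(8,1)]) (.cons (.leaf 1 [(4,1),(8,1)]) (.cons (.leaf 1 [(8,1)]) .nil))))))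 (.cons (.leaf 1 [(1,1),(7,1)]) (.cons (.keep [4,6,7,9,10,11,12] (.node (.cons (.leaf 1 [(3,1),(4,1)]) (.cons (.leaf 1 [(8,1),(4,1)]) (.cons (.leaf 1 [(4,1),(8,1)]) (.cons (.leaf 1 [(8,1)]) .nil)))))) (.cons (.keep [0,3,7,9,10,11] (.node (.cons (.leaf 1 [(3,1),(4,1)]) (.cons (.leaf 1 [(8,1),(4,1)]) (.cons (.leaf 1 [(4,1),(8,1)]) (.cons (.leaf 1 [(8,1)]) .nil)))))) .nil)))))) (.cons (.keep [0,1,4,7,8,9] (.node (.cons (.keep [3,4,6,8,10,11] (.node (.cons (.leaf 1 [(3,1),(7,1),(4,1)]) (.cons (.leaf 1 [(3,1),(6,1),(7,1),(4,1)]) (.cons (.leaf 1 [(4,1),(9,1)]) (.cons (.leaf 1 [(9,1)]) .nil)))))) (.cons (.leaf 1 [(1,1),(8,1)]) (.cons (.keep [4,6,8,9,10,11] (.node (.cons (.leaf 1 [(6,1),(3,1),(4,1)]) (.cons (.leaf 1 [(4,1),(8,1)]) (.cons (.leaf 1 [(8,1),(4,1)]) (.cons (.leaf 1 [(8,1)]) .nil)))))) (.cons (.keep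 [0,3,8,9,10,11] (.node (.cons (.leaf 1 [(3,1),(4,1)]) (.cons (.leaf 1 [(8,1),(4,1)]) (.cons (.leaf 1 [(4,1),(8,1)]) (.cons (.leaf 1 [(8,1)]) .nil)))))) .nil)))))) (.cons (.leaf 1 [(1,1),(4,1)]) (.cons (.keep [0,2,6,7,8] (.node (.cons (.keep [3,4,6,7,10] (.node (.cons (.leaf 1 [(4,1)]) (.cons (.leaf 1 [(4,1)]) (.cons (.leaf 1 [(4,1)]) (.cons (.leaf 1 []) .nil)))))) (.cons (.leaf 1 [(1,1)]) (.cons (.keep [4,6,7,9,10] (.node (.cons (.leaf 1 [(4,1)]) (.cons (.leaf 1 [(4,1)]) (.cons (.leaf 1 [(4,1)]) (.cons (.leaf 1 []) .nil)))))) (.cons (.keep [0,3,6,7,9,10] (.node (.cons (.leaf 1 [(4,1)]) (.cons (.leaf 1 [(4,1)]) (.cons (.leaf 1 [(4,1)]) (.cons (.leaf 1 []) .nil)))))) .nil)))))) .nil)))))) (.cons (.keep [0,3,7,8,9] (.node (.cons (.keep [2,4,6,7,8,10] (.node (.cons (.keep [3,4,7,8,9,10] (.node (.cons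 (.leaf 1 [(3,1),(4,1)]) (.cons (.leaf 1 [(3,1),(6,1),(4,1)]) (.cons (.leaf 1 [(4,1),(8,1)]) (.cons (.leaf 1 [(8,1)]) .nil)))))) (.cons (.leaf 1 [(1,1),(7,1)]) (.cons (.keep [4,6,7,8,9,10] (.node (.cons (.leaf 1 [(3,1),(4,1)]) (.cons (.leaf 1 [(8,1),(4,1)]) (.cons (.leaf 1 [(4,1),(8,1)]) (.cons (.leaf 1 [(8,1)]) .nil)))))) (.cons (.keep [0,3,7,9,10] (.node (.cons (.leaf 1 [(3,1),(4,1)]) (.cons (.leaf 1 [(8,1),(4,1)]) (.cons (.leaf 1 [(4,1),(8,1)]) (.cons (.leaf 1 [(8,1)]) .nil)))))) .nil)))))) (.cons (.keep [1,4,6,7,8] (.node (.cons (.keep [3,4,7,8,9,10] (.node (.cons (.leaf 1 [(3,1),(7,1),(4,1)]) (.cons (.leaf 1 [(3,1),(6,1),(7,1),(4,1)]) (.cons (.leaf 1 [(4,1),(8,1)]) (.cons (.leaf 1 [(8,1)]) .nil)))))) (.cons (.leaf 1 [(1,1),(7,1)]) (.cons (.keep [4,7,8,9,10] (.node (.cons (.leaf 1 [(6,1),(3,1),(4,1)])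 (.cons (.leaf 1 [(4,1),(7,1)]) (.cons (.leaf 1 [(7,1),(4,1)]) (.cons (.leaf 1 [(7,1)]) .nil)))))) (.cons (.keep [0,3,7,9,10] (.node (.cons (.leaf 1 [(3,1),(4,1)]) (.cons (.leaf 1 [(8,1),(4,1)]) (.cons (.leaf 1 [(4,1),(8,1)]) (.cons (.leaf 1 [(8,1)]) .nil)))))) .nil)))))) (.cons (.leaf 1 [(1,1),(4,1)]) (.cons (.keep [0,2,6,7,10] (.node (.cons (.keep [3,4,6,7,9] (.node (.cons (.leaf 1 [(4,1)]) (.cons (.leaf 1 [(4,1)]) (.cons (.leaf 1 [(4,1)]) (.cons (.leaf 1 []) .nil)))))) (.cons (.leaf 1 [(1,1)]) (.cons (.keep [4,6,7,8,9] (.node (.cons (.leaf 1 [(4,1)]) (.cons (.leaf 1 [(4,1)]) (.cons (.leaf 1 [(4,1)]) (.cons (.leaf 1 []) .nil)))))) (.cons (.keep [0,3,6,7,9] (.node (.cons (.leaf 1 [(4,1)]) (.cons (.leaf 1 [(4,1)]) (.cons (.leaf 1 [(4,1)]) (.cons (.leaf 1 []) .nil)))))) .nil)))))) .nil)))))) .nil))))))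 (.cons (.keep [1,6,7,8,9] (.leaf 0 [(0,0)])) (.cons (.keep [1,2,7,8,9] (.node (.cons (.keep [2,3,4,7,8,9] (.node (.cons (.keep [2,6,8,9,10,11] (.node (.cons (.keep [3,4,6,7,9,10] (.node (.cons (.leaf 1 [(4,1)]) (.cons (.leaf 1 [(4,1)]) (.cons (.leaf 1 [(4,1)]) (.cons (.leaf 1 []) .nil)))))) (.cons (.leaf 1 [(1,1)]) (.cons (.keep [4,6,7,8,9,10] (.node (.cons (.leaf 1 [(4,1)]) (.cons (.leaf 1 [(4,1)]) (.cons (.leaf 1 [(4,1)]) (.cons (.leaf 1 []) .nil)))))) (.cons (.keep [0,3,7,8,9] (.node (.cons (.leaf 1 [(4,1)]) (.cons (.leaf 1 [(4,1)]) (.cons (.leaf 1 [(4,1)]) (.cons (.leaf 1 []) .nil)))))) .nil)))))) (.cons (.keep [1,3,6,7,8,9] (.node (.cons (.keep [2,3,4,8,9,11] (.node (.cons (.leaf 1 [(4,1)]) (.cons (.leaf 1 [(4,1)]) (.cons (.leaf 1 [(4,1)]) (.cons (.leaf 1 []) .nil)))))) (.cons (.leaf 1 [(1,1)])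 (.cons (.keep [4,7,8,9,10,11] (.node (.cons (.leaf 1 [(4,1)]) (.cons (.leaf 1 [(4,1)]) (.cons (.leaf 1 [(4,1)]) (.cons (.leaf 1 []) .nil)))))) (.cons (.keep [0,3,8,10,11] (.node (.cons (.leaf 1 [(4,1)]) (.cons (.leaf 1 [(4,1)]) (.cons (.leaf 1 [(4,1)]) (.cons (.leaf 1 []) .nil)))))) .nil)))))) (.cons (.leaf 1 [(1,1)]) (.cons (.keep [0,2,7,8,9,11] (.node (.cons (.keep [3,4,6,7,8,10] (.node (.cons (.leaf 1 [(4,1)]) (.cons (.leaf 1 [(4,1)]) (.cons (.leaf 1 [(4,1)]) (.cons (.leaf 1 []) .nil)))))) (.cons (.leaf 1 [(1,1)]) (.cons (.keep [1,4,6,7,8,9] (.node (.cons (.leaf 1 [(4,1)]) (.cons (.leaf 1 [(4,1)]) (.cons (.leaf 1 [(4,1)]) (.cons (.leaf 1 []) .nil)))))) (.cons (.keep [0,3,6,7,9,10] (.node (.cons (.leaf 1 [(4,1)]) (.cons (.leaf 1 [(4,1)]) (.cons (.leaf 1 [(4,1)]) (.cons (.leaf 1 []) .nil)))))) .nil))))))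 .nil)))))) (.cons (.keep [3,4,7,8,9,10] (.node (.cons (.keep [6,7,8,9,10,11] (.node (.cons (.keep [4,6,7,8,9,11] (.node (.cons (.leaf 1 [(4,1)]) (.cons (.leaf 1 [(4,1)]) (.cons (.leaf 1 [(4,1)]) (.cons (.leaf 1 []) .nil)))))) (.cons (.leaf 1 [(1,1)]) (.cons (.keep [1,4,6,7,9,11] (.node (.cons (.leaf 1 [(4,1)]) (.cons (.leaf 1 [(4,1)]) (.cons (.leaf 1 [(4,1)]) (.cons (.leaf 1 []) .nil)))))) (.cons (.keep [0,3,7,8,11] (.node (.cons (.leaf 1 [(4,1)]) (.cons (.leaf 1 [(4,1)]) (.cons (.leaf 1 [(4,1)]) (.cons (.leaf 1 []) .nil)))))) .nil)))))) (.cons (.keep [1,3,6,7,8,11] (.node (.cons (.keep [2,4,8,9,10,11] (.node (.cons (.leaf 1 [(4,1)]) (.cons (.leaf 1 [(4,1)]) (.cons (.leaf 1 [(4,1)]) (.cons (.leaf 1 []) .nil)))))) (.cons (.leaf 1 [(1,1)]) (.cons (.keep [1,4,7,8,9,11] (.node (.cons (.leaf 1 [(4,1)])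 (.cons (.leaf 1 [(4,1)]) (.cons (.leaf 1 [(4,1)]) (.cons (.leaf 1 []) .nil)))))) (.cons (.keep [0,3,9,10,11] (.node (.cons (.leaf 1 [(4,1)]) (.cons (.leaf 1 [(4,1)]) (.cons (.leaf 1 [(4,1)]) (.cons (.leaf 1 []) .nil)))))) .nil)))))) (.cons (.leaf 1 [(1,1)]) (.cons (.keep [0,2,6,7,8,10] (.node (.cons (.keep [3,4,6,7,8,10] (.node (.cons (.leaf 1 [(4,1)]) (.cons (.leaf 1 [(4,1)]) (.cons (.leaf 1 [(4,1)]) (.cons (.leaf 1 []) .nil)))))) (.cons (.leaf 1 [(1,1)]) (.cons (.keep [1,4,6,7,8,9] (.node (.cons (.leaf 1 [(4,1)]) (.cons (.leaf 1 [(4,1)]) (.cons (.leaf 1 [(4,1)]) (.cons (.leaf 1 []) .nil)))))) (.cons (.keep [0,3,6,7,9,10] (.node (.cons (.leaf 1 [(4,1)]) (.cons (.leaf 1 [(4,1)]) (.cons (.leaf 1 [(4,1)]) (.cons (.leaf 1 []) .nil)))))) .nil)))))) .nil)))))) (.cons (.keep [2,4,7,8,10] (.node (.cons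 (.keep [2,6,7,8,9] (.node (.cons (.keep [6,7,8,9,10] (.node (.cons (.leaf 1 [(4,1)]) (.cons (.leaf 1 [(4,1)]) (.cons (.leaf 1 [(4,1)]) (.cons (.leaf 1 []) .nil)))))) (.cons (.leaf 1 [(1,1)]) (.cons (.keep [6,7,8,9,10] (.node (.cons (.leaf 1 [(4,1)]) (.cons (.leaf 1 [(4,1)]) (.cons (.leaf 1 [(4,1)]) (.cons (.leaf 1 []) .nil)))))) (.cons (.keep [0,3,7,8,9] (.node (.cons (.leaf 1 [(4,1)]) (.cons (.leaf 1 [(4,1)]) (.cons (.leaf 1 [(4,1)]) (.cons (.leaf 1 []) .nil)))))) .nil)))))) (.cons (.keep [0,6,7,8,10] (.node (.cons (.keep [3,6,7,8,9,10] (.node (.cons (.leaf 1 [(4,1)]) (.cons (.leaf 1 [(4,1)]) (.cons (.leaf 1 [(4,1)]) (.cons (.leaf 1 []) .nil)))))) (.cons (.leaf 1 [(1,1)]) (.cons (.keep [6,7,8,9,10] (.node (.cons (.leaf 1 [(4,1)]) (.cons (.leaf 1 [(4,1)]) (.cons (.leaf 1 [(4,1)]) (.cons (.leaf 1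 []) .nil)))))) (.cons (.keep [0,3,7,8,9] (.node (.cons (.leaf 1 [(4,1)]) (.cons (.leaf 1 [(4,1)]) (.cons (.leaf 1 [(4,1)]) (.cons (.leaf 1 []) .nil)))))) .nil)))))) (.cons (.leaf 1 [(1,1)]) (.cons (.keep [0,2,6,7,8] (.node (.cons (.keep [3,4,6,7,10] (.node (.cons (.leaf 1 [(4,1)]) (.cons (.leaf 1 [(4,1)]) (.cons (.leaf 1 [(4,1)]) (.cons (.leaf 1 []) .nil)))))) (.cons (.leaf 1 [(1,1)]) (.cons (.keep [4,6,7,9,10] (.node (.cons (.leaf 1 [(4,1)]) (.cons (.leaf 1 [(4,1)]) (.cons (.leaf 1 [(4,1)]) (.cons (.leaf 1 []) .nil)))))) (.cons (.keep [0,3,6,7,9,10] (.node (.cons (.leaf 1 [(4,1)]) (.cons (.leaf 1 [(4,1)]) (.cons (.leaf 1 [(4,1)]) (.cons (.leaf 1 []) .nil)))))) .nil)))))) .nil)))))) (.cons (.keep [0,3,6,9,10] (.node (.cons (.keep [2,4,6,7,9,10] (.node (.cons (.keep [3,4,7,8,9,11] (.node (.cons (.leaf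 1 [(4,1)]) (.cons (.leaf 1 [(4,1)]) (.cons (.leaf 1 [(4,1)]) (.cons (.leaf 1 []) .nil)))))) (.cons (.leaf 1 [(1,1)]) (.cons (.keep [4,6,7,8,9,11] (.node (.cons (.leaf 1 [(4,1)]) (.cons (.leaf 1 [(4,1)]) (.cons (.leaf 1 [(4,1)]) (.cons (.leaf 1 []) .nil)))))) (.cons (.keep [0,3,7,9,11] (.node (.cons (.leaf 1 [(4,1)]) (.cons (.leaf 1 [(4,1)]) (.cons (.leaf 1 [(4,1)]) (.cons (.leaf 1 []) .nil)))))) .nil)))))) (.cons (.keep [1,4,6,7,10] (.node (.cons (.keep [3,4,7,8,9,10] (.node (.cons (.leaf 1 [(4,1)]) (.cons (.leaf 1 [(4,1)]) (.cons (.leaf 1 [(4,1)]) (.cons (.leaf 1 []) .nil)))))) (.cons (.leaf 1 [(1,1)]) (.cons (.keep [4,7,8,9,10] (.node (.cons (.leaf 1 [(4,1)]) (.cons (.leaf 1 [(4,1)]) (.cons (.leaf 1 [(4,1)]) (.cons (.leaf 1 []) .nil)))))) (.cons (.keep [0,3,7,9,10] (.node (.cons (.leaf 1 [(4,1)])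 (.cons (.leaf 1 [(4,1)]) (.cons (.leaf 1 [(4,1)]) (.cons (.leaf 1 []) .nil)))))) .nil)))))) (.cons (.leaf 1 [(1,1)]) (.cons (.keep [0,2,6,7,9] (.node (.cons (.keep [3,4,6,7,9] (.node (.cons (.leaf 1 [(4,1)]) (.cons (.leaf 1 [(4,1)]) (.cons (.leaf 1 [(4,1)]) (.cons (.leaf 1 []) .nil)))))) (.cons (.leaf 1 [(1,1)]) (.cons (.keep [4,6,7,8,9] (.node (.cons (.leaf 1 [(4,1)]) (.cons (.leaf 1 [(4,1)]) (.cons (.leaf 1 [(4,1)]) (.cons (.leaf 1 []) .nil)))))) (.cons (.keep [0,3,6,7,9] (.node (.cons (.leaf 1 [(4,1)]) (.cons (.leaf 1 [(4,1)]) (.cons (.leaf 1 [(4,1)]) (.cons (.leaf 1 []) .nil)))))) .nil)))))) .nil)))))) .nil)))))) (.cons (.keep [0,1,6,7,8] (.node (.cons (.keep [3,4,6,7,8,10] (.node (.cons (.leaf 1 [(4,1)]) (.cons (.leaf 1 [(4,1)]) (.cons (.leaf 1 [(4,1)]) (.cons (.leaf 1 []) .nil)))))) (.cons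 (.leaf 1 [(1,1)]) (.cons (.keep [1,4,6,7,8,9] (.node (.cons (.leaf 1 [(4,1)]) (.cons (.leaf 1 [(4,1)]) (.cons (.leaf 1 [(4,1)]) (.cons (.leaf 1 []) .nil)))))) (.cons (.keep [0,3,6,7,9,10] (.node (.cons (.leaf 1 [(4,1)]) (.cons (.leaf 1 [(4,1)]) (.cons (.leaf 1 [(4,1)]) (.cons (.leaf 1 []) .nil)))))) .nil)))))) .nil)))))

theorem c_23_16_17 : Concl 23 16 z_23_16_17 h_23_16_17 .nd := piece _ (hP_cons E49.c_23_16_12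
  hP_nil) t_23_16_17 _ _ (by decide +kernel)

def z_23_16_18 : F := ⟨0, 1, 0, -1, 1⟩

def h_23_16_18 : List F := [⟨0, 1, 0, 0, 0⟩, ⟨-1, 1, 0, 0, 0⟩, ⟨0, 0, 0, -1, 1⟩, ⟨0, 1, -1, -1,
  1⟩]

def t_23_16_18 : T := (.node (.cons (.keep [2,3,4,7,8] (.node (.cons (.keep [2,3,6,8,9] (.node (.cons (.keep [2,3,4,6,8,10] (.node (.cons (.leaf 1 [(10,1),(4,1)]) (.cons (.leaf 1 [(4,1),(10,1)]) (.cons (.leaf 1 [(1,1),(4,1)]) (.cons (.leaf 1 [(10,1)]) .nil)))))) (.cons (.leaf 1 [(1,1),(8,1)]) (.cons (.keep [4,6,7,8,9,10] (.node (.cons (.leaf 1 [(9,1),(4,1)]) (.cons (.leaf 1 [(4,1),(9,1)]) (.cons (.leaf 1 [(1,1),(4,1)]) (.cons (.leaf 1 [(9,1)]) .nil)))))) (.cons (.keep [0,3,8,9,10] (.node (.cons (.leaf 1 [(8,1),(4,1)]) (.cons (.leaf 1 [(4,1),(8,1)]) (.cons (.leaf 1 [(1,1),(4,1)]) (.cons (.leaf 1 [(8,1)]) .nil))))))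 .nil)))))) (.cons (.keep [1,6,7,8,9,10] (.node (.cons (.keep [2,3,4,7,8,10] (.node (.cons (.leaf 1 [(9,1),(4,1)]) (.cons (.leaf 1 [(4,1),(9,1)]) (.cons (.leaf 1 [(9,1),(4,1)]) (.cons (.leaf 1 [(9,1)]) .nil)))))) (.cons (.leaf 1 [(1,1),(7,1)]) (.cons (.keep [4,7,8,9,10,11] (.node (.cons (.leaf 1 [(7,1),(4,1)]) (.cons (.leaf 1 [(4,1),(7,1)]) (.cons (.leaf 1 [(7,1),(4,1)]) (.cons (.leaf 1 [(7,1)]) .nil)))))) (.cons (.keep [0,3,7,9,10] (.node (.cons (.leaf 1 [(8,1),(4,1)]) (.cons (.leaf 1 [(4,1),(8,1)]) (.cons (.leaf 1 [(1,1),(4,1)]) (.cons (.leaf 1 [(8,1)]) .nil)))))) .nil)))))) (.cons (.leaf 1 [(1,1),(6,1)]) (.cons (.keep [0,1,7,8,9] (.node (.cons (.keep [3,4,6,7,8,10] (.node (.cons (.leaf 1 [(4,1)]) (.cons (.leaf 1 [(4,1)]) (.cons (.leaf 1 [(4,1)]) (.cons (.leaf 1 []) .nil)))))) (.cons (.leaf 1 [(1,1)])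 (.cons (.keep [1,4,6,7,8,9] (.node (.cons (.leaf 1 [(4,1)]) (.cons (.leaf 1 [(4,1)]) (.cons (.leaf 1 [(4,1)]) (.cons (.leaf 1 []) .nil)))))) (.cons (.keep [0,3,6,7,9,10] (.node (.cons (.leaf 1 [(4,1)]) (.cons (.leaf 1 [(4,1)]) (.cons (.leaf 1 [(4,1)]) (.cons (.leaf 1 []) .nil)))))) .nil)))))) .nil)))))) (.cons (.keep [3,4,7,8] (.leaf 0 [(0,0)])) (.cons (.keep [2,4,7,9] (.node (.cons (.keep [2,6,7,8,9] (.node (.cons (.keep [6,7,8,9,10] (.node (.cons (.leaf 1 [(7,1),(6,1),(4,1)]) (.cons (.leaf 1 [(4,1),(7,1),(6,1)]) (.cons (.leaf 1 [(1,1),(4,1)]) (.cons (.leaf 1 [(7,1),(6,1)]) .nil)))))) (.cons (.leaf 1 [(1,1),(7,1),(6,1)]) (.cons (.keep [6,7,8,9,10] (.node (.cons (.leaf 1 [(7,1),(6,1),(4,1)]) (.cons (.leaf 1 [(4,1),(7,1),(6,1)]) (.cons (.leaf 1 [(1,1),(4,1)]) (.cons (.leaf 1 [(7,1),(6,1)]) .nil))))))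 (.cons (.keep [0,3,7,8,9] (.node (.cons (.leaf 1 [(8,1),(4,1)]) (.cons (.leaf 1 [(4,1),(8,1)]) (.cons (.leaf 1 [(1,1),(4,1)]) (.cons (.leaf 1 [(8,1)]) .nil)))))) .nil)))))) (.cons (.keep [6,7,8,9] (.node (.cons (.keep [3,6,7,8,9] (.leaf 0 [(1,0)])) (.cons (.keep [3,6,7,8,9] (.node (.cons (.keep [6,7,8,9,10] (.node (.cons (.keep [6,7,8,9,10] (.node (.cons (.keep [4,6,8,9,10] (.node (.cons (.leaf 1 [(6,1),(4,1)]) (.cons (.leaf 1 [(4,1),(6,1)]) (.cons (.leaf 1 [(4,1),(6,1)]) (.cons (.leaf 1 [(6,1)]) .nil)))))) (.cons (.leaf 1 [(1,1),(4,1)]) (.cons (.keep [4,6,8,9,10] (.node (.cons (.leaf 1 [(6,1),(4,1)]) (.cons (.leaf 1 [(6,1),(4,1)]) (.cons (.leaf 1 [(6,1),(4,1)]) (.cons (.leaf 1 [(6,1)]) .nil)))))) (.cons (.keep [0,3,6,9,10] (.node (.cons (.leaf 1 [(4,1)]) (.cons (.leaf 1 [(4,1)]) (.cons (.leaf 1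 [(4,1)]) (.cons (.leaf 1 []) .nil)))))) .nil)))))) (.cons (.keep [1,6,8,9,10] (.node (.cons (.keep [4,7,8,9,10] (.node (.cons (.leaf 1 [(6,1),(4,1)]) (.cons (.leaf 1 [(4,1),(6,1)]) (.cons (.leaf 1 [(4,1),(6,1)]) (.cons (.leaf 1 [(6,1)]) .nil)))))) (.cons (.leaf 1 [(1,1),(4,1)]) (.cons (.keep [4,7,8,9,10] (.node (.cons (.leaf 1 [(6,1),(4,1)]) (.cons (.leaf 1 [(6,1),(4,1)]) (.cons (.leaf 1 [(6,1),(4,1)]) (.cons (.leaf 1 [(6,1)]) .nil)))))) (.cons (.keep [0,3,7,9,10] (.node (.cons (.leaf 1 [(4,1)]) (.cons (.leaf 1 [(4,1)]) (.cons (.leaf 1 [(4,1)]) (.cons (.leaf 1 []) .nil)))))) .nil)))))) (.cons (.leaf 1 [(7,1),(1,1)]) (.cons (.keep [0,2,6,7,10] (.node (.cons (.keep [3,4,6,7,10] (.node (.cons (.leaf 1 [(7,1),(4,1)]) (.cons (.leaf 1 [(4,1),(7,1)]) (.cons (.leaf 1 [(4,1),(7,1)]) (.cons (.leaf 1 [(7,1)])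 .nil)))))) (.cons (.leaf 1 [(1,1),(4,1)]) (.cons (.keep [4,6,7,8,10] (.node (.cons (.leaf 1 [(6,1),(4,1)]) (.cons (.leaf 1 [(6,1),(4,1)]) (.cons (.leaf 1 [(6,1),(4,1)]) (.cons (.leaf 1 [(6,1)]) .nil)))))) (.cons (.keep [0,3,6,7,8,10] (.node (.cons (.leaf 1 [(4,1)]) (.cons (.leaf 1 [(4,1)]) (.cons (.leaf 1 [(4,1)]) (.cons (.leaf 1 []) .nil)))))) .nil)))))) .nil)))))) (.cons (.keep [3,6,7,8,10] (.node (.cons (.keep [6,7,8,9,10] (.node (.cons (.keep [3,4,6,9,10] (.node (.cons (.leaf 1 [(7,1),(4,1)]) (.cons (.leaf 1 [(4,1),(7,1)]) (.cons (.leaf 1 [(4,1),(7,1)]) (.cons (.leaf 1 [(7,1)]) .nil)))))) (.cons (.leaf 1 [(1,1),(4,1)]) (.cons (.keep [2,4,6,7,10] (.node (.cons (.leaf 1 [(7,1),(4,1)]) (.cons (.leaf 1 [(7,1),(4,1)]) (.cons (.leaf 1 [(7,1),(4,1)]) (.cons (.leaf 1 [(7,1)]) .nil)))))) (.cons (.keep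 [0,3,6,7,10] (.node (.cons (.leaf 1 [(4,1)]) (.cons (.leaf 1 [(4,1)]) (.cons (.leaf 1 [(4,1)]) (.cons (.leaf 1 []) .nil)))))) .nil)))))) (.cons (.keep [1,6,7,9,10] (.node (.cons (.keep [3,4,7,9,10] (.node (.cons (.leaf 1 [(7,1),(4,1)]) (.cons (.leaf 1 [(4,1),(7,1)]) (.cons (.leaf 1 [(4,1),(7,1)]) (.cons (.leaf 1 [(7,1)]) .nil)))))) (.cons (.leaf 1 [(1,1),(4,1)]) (.cons (.keep [2,4,7,8,10] (.node (.cons (.leaf 1 [(7,1),(4,1)]) (.cons (.leaf 1 [(7,1),(4,1)]) (.cons (.leaf 1 [(7,1),(4,1)]) (.cons (.leaf 1 [(7,1)]) .nil)))))) (.cons (.keep [0,3,7,8,10] (.node (.cons (.leaf 1 [(4,1)]) (.cons (.leaf 1 [(4,1)]) (.cons (.leaf 1 [(4,1)]) (.cons (.leaf 1 []) .nil)))))) .nil)))))) (.cons (.leaf 1 [(8,1),(1,1)]) (.cons (.keep [0,2,7,8,10] (.node (.cons (.keep [3,4,6,7,10] (.node (.cons (.leaf 1 [(7,1),(4,1)])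 (.cons (.leaf 1 [(4,1),(7,1)]) (.cons (.leaf 1 [(4,1),(7,1)]) (.cons (.leaf 1 [(7,1)]) .nil)))))) (.cons (.leaf 1 [(1,1),(4,1)]) (.cons (.keep [4,6,7,8,10] (.node (.cons (.leaf 1 [(6,1),(4,1)]) (.cons (.leaf 1 [(6,1),(4,1)]) (.cons (.leaf 1 [(6,1),(4,1)]) (.cons (.leaf 1 [(6,1)]) .nil)))))) (.cons (.keep [0,3,6,7,8,10] (.node (.cons (.leaf 1 [(4,1)]) (.cons (.leaf 1 [(4,1)]) (.cons (.leaf 1 [(4,1)]) (.cons (.leaf 1 []) .nil)))))) .nil)))))) .nil)))))) (.cons (.keep [1,6,8,9,10] (.node (.cons (.keep [6,7,8,9,10] (.node (.cons (.keep [4,7,8,9,10] (.node (.cons (.leaf 1 [(6,1),(4,1)]) (.cons (.leaf 1 [(4,1),(6,1)]) (.cons (.leaf 1 [(4,1),(6,1)]) (.cons (.leaf 1 [(6,1)]) .nil)))))) (.cons (.leaf 1 [(1,1),(4,1)]) (.cons (.keep [4,7,8,9,10] (.node (.cons (.leaf 1 [(6,1),(4,1)]) (.cons (.leaf 1 [(6,1),(4,1)])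 (.cons (.leaf 1 [(6,1),(4,1)]) (.cons (.leaf 1 [(6,1)]) .nil)))))) (.cons (.keep [0,3,7,9,10] (.node (.cons (.leaf 1 [(4,1)]) (.cons (.leaf 1 [(4,1)]) (.cons (.leaf 1 [(4,1)]) (.cons (.leaf 1 []) .nil)))))) .nil)))))) (.cons (.keep [1,7,8,9,10] (.node (.cons (.keep [4,7,8,9,10] (.node (.cons (.leaf 1 [(6,1),(4,1)]) (.cons (.leaf 1 [(4,1),(6,1)]) (.cons (.leaf 1 [(4,1),(6,1)]) (.cons (.leaf 1 [(6,1)]) .nil)))))) (.cons (.leaf 1 [(1,1),(4,1)]) (.cons (.keep [4,7,8,9,10] (.node (.cons (.leaf 1 [(6,1),(4,1)]) (.cons (.leaf 1 [(6,1),(4,1)]) (.cons (.leaf 1 [(6,1),(4,1)]) (.cons (.leaf 1 [(6,1)]) .nil)))))) (.cons (.keep [0,3,7,9,10] (.node (.cons (.leaf 1 [(4,1)]) (.cons (.leaf 1 [(4,1)]) (.cons (.leaf 1 [(4,1)]) (.cons (.leaf 1 []) .nil)))))) .nil)))))) (.cons (.leaf 1 [(6,1),(1,1)]) (.cons (.keep [0,2,6,7,10]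 (.node (.cons (.keep [4,6,7,9,10] (.node (.cons (.leaf 1 [(6,1),(4,1)]) (.cons (.leaf 1 [(4,1),(6,1)]) (.cons (.leaf 1 [(4,1),(6,1)]) (.cons (.leaf 1 [(6,1)]) .nil)))))) (.cons (.leaf 1 [(1,1),(4,1)]) (.cons (.keep [4,6,7,9,10] (.node (.cons (.leaf 1 [(6,1),(4,1)]) (.cons (.leaf 1 [(6,1),(4,1)]) (.cons (.leaf 1 [(6,1),(4,1)]) (.cons (.leaf 1 [(6,1)]) .nil)))))) (.cons (.keep [0,3,6,7,9,10] (.node (.cons (.leaf 1 [(4,1)]) (.cons (.leaf 1 [(4,1)]) (.cons (.leaf 1 [(4,1)]) (.cons (.leaf 1 []) .nil)))))) .nil)))))) .nil)))))) (.cons (.keep [0,3,6,7,9] (.node (.cons (.keep [6,7,8,9,10] (.node (.cons (.keep [3,4,6,7,8,10] (.node (.cons (.leaf 1 [(7,1),(4,1)]) (.cons (.leaf 1 [(4,1),(7,1)]) (.cons (.leaf 1 [(4,1),(7,1)]) (.cons (.leaf 1 [(7,1)]) .nil)))))) (.cons (.leaf 1 [(1,1),(4,1)]) (.cons (.keep [4,6,7,8,10]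 (.node (.cons (.leaf 1 [(6,1),(4,1)]) (.cons (.leaf 1 [(6,1),(4,1)]) (.cons (.leaf 1 [(6,1),(4,1)]) (.cons (.leaf 1 [(6,1)]) .nil)))))) (.cons (.keep [0,3,7,8,10] (.node (.cons (.leaf 1 [(4,1)]) (.cons (.leaf 1 [(4,1)]) (.cons (.leaf 1 [(4,1)]) (.cons (.leaf 1 []) .nil)))))) .nil)))))) (.cons (.keep [1,6,7,8,10] (.node (.cons (.keep [3,4,7,8,9,10] (.node (.cons (.leaf 1 [(7,1),(4,1)]) (.cons (.leaf 1 [(4,1),(7,1)]) (.cons (.leaf 1 [(4,1),(7,1)]) (.cons (.leaf 1 [(7,1)]) .nil)))))) (.cons (.leaf 1 [(1,1),(4,1)]) (.cons (.keep [4,7,8,9,10] (.node (.cons (.leaf 1 [(6,1),(4,1)]) (.cons (.leaf 1 [(6,1),(4,1)]) (.cons (.leaf 1 [(6,1),(4,1)]) (.cons (.leaf 1 [(6,1)]) .nil)))))) (.cons (.keep [0,3,8,9,10] (.node (.cons (.leaf 1 [(4,1)]) (.cons (.leaf 1 [(4,1)]) (.cons (.leaf 1 [(4,1)]) (.cons (.leaf 1 [])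 .nil)))))) .nil)))))) (.cons (.leaf 1 [(9,1),(1,1)]) (.cons (.keep [0,2,6,7,9,10] (.node (.cons (.keep [3,4,6,7,9] (.node (.cons (.leaf 1 [(7,1),(4,1)]) (.cons (.leaf 1 [(4,1),(7,1)]) (.cons (.leaf 1 [(4,1),(7,1)]) (.cons (.leaf 1 [(7,1)]) .nil)))))) (.cons (.leaf 1 [(1,1),(4,1)]) (.cons (.keep [4,6,7,8,9,11] (.node (.cons (.leaf 1 [(6,1),(4,1)]) (.cons (.leaf 1 [(6,1),(4,1)]) (.cons (.leaf 1 [(6,1),(4,1)]) (.cons (.leaf 1 [(6,1)]) .nil)))))) (.cons (.keep [0,3,6,7,9] (.node (.cons (.leaf 1 [(4,1)]) (.cons (.leaf 1 [(4,1)]) (.cons (.leaf 1 [(4,1)]) (.cons (.leaf 1 []) .nil)))))) .nil)))))) .nil)))))) .nil)))))) (.cons (.keep [6,7,8,9] (.leaf 0 [(2,0)])) (.cons (.keep [0,3,6,7,8] (.node (.cons (.leaf 1 [(8,1),(4,1)]) (.cons (.leaf 1 [(4,1),(8,1)]) (.cons (.leaf 1 [(1,1),(4,1)]) (.cons (.leaf 1 [(8,1)])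 .nil)))))) .nil)))))) (.cons (.leaf 1 [(6,1),(2,1)]) (.cons (.keep [0,2,6,7,8] (.node (.cons (.keep [3,4,6,7,10] (.node (.cons (.leaf 1 [(4,1)]) (.cons (.leaf 1 [(4,1)]) (.cons (.leaf 1 [(4,1)]) (.cons (.leaf 1 []) .nil)))))) (.cons (.leaf 1 [(1,1)]) (.cons (.keep [4,6,7,9,10] (.node (.cons (.leaf 1 [(4,1)]) (.cons (.leaf 1 [(4,1)]) (.cons (.leaf 1 [(4,1)]) (.cons (.leaf 1 []) .nil)))))) (.cons (.keep [0,3,6,7,9,10] (.node (.cons (.leaf 1 [(4,1)]) (.cons (.leaf 1 [(4,1)]) (.cons (.leaf 1 [(4,1)]) (.cons (.leaf 1 []) .nil)))))) .nil)))))) .nil)))))) (.cons (.keep [0,2,3,6] (.leaf 0 [(3,0)])) .nil)))))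

theorem c_23_16_18 : Concl 23 16 z_23_16_18 h_23_16_18 .nd := piece _ (hP_cons c_23_16_17 (hP_cons
  E48.c_23_16_15 (hP_cons c_23_16_14 (hP_cons E49.c_23_16_16 hP_nil)))) t_23_16_18 _ _ (by
  decide +kernel)

def z_23_16_19 : F := ⟨1, 0, 0, -1, 1⟩

def h_23_16_19 : List F := [⟨1, 0, 0, 0, 0⟩, ⟨1, -1, 0, 0, 0⟩, ⟨0, 0, 0, -1, 1⟩, ⟨1, 0, -1, -1,
  1⟩]

def t_23_16_19 : T := (.node (.cons (.keep [2,3,4,8] (.node (.cons (.keep [2,3,4,6,8] (.node (.cons (.keep [2,3,4,6,8,9] (.node (.cons (.keep [0,3,4,6,8,9,11] (.node (.cons (.leaf 1 [(8,1),(4,1)]) (.cons (.leaf 1 [(4,1),(8,1)]) (.cons (.leaf 1 [(4,1),(8,1)]) (.cons (.leaf 1 [(8,1)]) .nil)))))) (.cons (.leaf 1 [(1,1),(4,1)]) (.cons (.keep [1,4,6,7,8,9,10] (.node (.cons (.leaf 1 [(7,1),(4,1)]) (.cons (.leaf 1 [(7,1),(4,1)]) (.cons (.leaf 1 [(7,1),(4,1)])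 (.cons (.leaf 1 [(7,1)]) .nil)))))) (.cons (.keep [0,3,8,9,10,11] (.node (.cons (.leaf 1 [(4,1)]) (.cons (.leaf 1 [(4,1)]) (.cons (.leaf 1 [(4,1)]) (.cons (.leaf 1 []) .nil)))))) .nil)))))) (.cons (.keep [1,4,6,7,8,9,10] (.node (.cons (.keep [0,3,4,7,8,9,11] (.node (.cons (.leaf 1 [(8,1),(4,1)]) (.cons (.leaf 1 [(4,1),(8,1)]) (.cons (.leaf 1 [(4,1),(8,1)]) (.cons (.leaf 1 [(8,1)]) .nil)))))) (.cons (.leaf 1 [(1,1),(4,1)]) (.cons (.keep [1,4,7,8,9,10,12] (.node (.cons (.leaf 1 [(7,1),(4,1)]) (.cons (.leaf 1 [(7,1),(4,1)]) (.cons (.leaf 1 [(7,1),(4,1)]) (.cons (.leaf 1 [(7,1)]) .nil)))))) (.cons (.keep [0,3,7,8,10,11] (.node (.cons (.leaf 1 [(4,1)]) (.cons (.leaf 1 [(4,1)]) (.cons (.leaf 1 [(4,1)]) (.cons (.leaf 1 []) .nil)))))) .nil)))))) (.cons (.keep [1,4,6,7,8,9,10] (.node (.cons (.leaf 1 [(6,1),(4,1)])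 (.cons (.leaf 1 [(1,1),(4,1)]) (.cons (.leaf 1 [(6,1),(4,1)]) (.cons (.leaf 1 [(6,1)]) .nil)))))) (.cons (.keep [0,1,7,8,9,10] (.node (.cons (.keep [3,4,6,7,8,10] (.node (.cons (.leaf 1 [(7,1),(4,1)]) (.cons (.leaf 1 [(4,1),(7,1)]) (.cons (.leaf 1 [(4,1),(7,1)]) (.cons (.leaf 1 [(7,1)]) .nil)))))) (.cons (.leaf 1 [(1,1),(4,1)]) (.cons (.keep [1,4,6,7,8,9] (.node (.cons (.leaf 1 [(7,1),(4,1)]) (.cons (.leaf 1 [(7,1),(4,1)]) (.cons (.leaf 1 [(7,1),(4,1)]) (.cons (.leaf 1 [(7,1)]) .nil)))))) (.cons (.keep [0,3,6,7,9,10] (.node (.cons (.leaf 1 [(4,1)]) (.cons (.leaf 1 [(4,1)]) (.cons (.leaf 1 [(4,1)]) (.cons (.leaf 1 []) .nil)))))) .nil)))))) .nil)))))) (.cons (.keep [1,4,6,7,8,9] (.node (.cons (.keep [2,3,4,7,8,9] (.node (.cons (.keep [0,4,6,8,9,10,11] (.node (.cons (.leaf 1 [(7,1),(4,1)]) (.cons (.leaf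 1 [(4,1),(7,1)]) (.cons (.leaf 1 [(4,1),(7,1)]) (.cons (.leaf 1 [(7,1)]) .nil)))))) (.cons (.leaf 1 [(1,1),(4,1)]) (.cons (.keep [4,6,7,8,9,10,11] (.node (.cons (.leaf 1 [(6,1),(4,1)]) (.cons (.leaf 1 [(6,1),(4,1)]) (.cons (.leaf 1 [(6,1),(4,1)]) (.cons (.leaf 1 [(6,1)]) .nil)))))) (.cons (.keep [0,3,8,9,10,11] (.node (.cons (.leaf 1 [(4,1)]) (.cons (.leaf 1 [(4,1)]) (.cons (.leaf 1 [(4,1)]) (.cons (.leaf 1 []) .nil)))))) .nil)))))) (.cons (.keep [1,4,7,8,9,10,11] (.node (.cons (.keep [0,4,7,8,9,10,12] (.node (.cons (.leaf 1 [(7,1),(4,1)]) (.cons (.leaf 1 [(4,1),(7,1)]) (.cons (.leaf 1 [(4,1),(7,1)]) (.cons (.leaf 1 [(7,1)]) .nil)))))) (.cons (.leaf 1 [(1,1),(4,1)]) (.cons (.keep [4,7,8,9,10,11,12] (.node (.cons (.leaf 1 [(6,1),(4,1)]) (.cons (.leaf 1 [(6,1),(4,1)]) (.cons (.leaf 1 [(6,1),(4,1)])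 (.cons (.leaf 1 [(6,1)]) .nil)))))) (.cons (.keep [0,3,7,8,9,10] (.node (.cons (.leaf 1 [(4,1)]) (.cons (.leaf 1 [(4,1)]) (.cons (.leaf 1 [(4,1)]) (.cons (.leaf 1 []) .nil)))))) .nil)))))) (.cons (.keep [1,4,7,8,9,10,11] (.node (.cons (.leaf 1 [(6,1),(4,1)]) (.cons (.leaf 1 [(1,1),(4,1)]) (.cons (.leaf 1 [(6,1),(4,1)]) (.cons (.leaf 1 [(6,1)]) .nil)))))) (.cons (.keep [0,1,7,8,10,11] (.node (.cons (.keep [3,4,6,7,9,11] (.node (.cons (.leaf 1 [(7,1),(4,1)]) (.cons (.leaf 1 [(4,1),(7,1)]) (.cons (.leaf 1 [(4,1),(7,1)]) (.cons (.leaf 1 [(7,1)]) .nil)))))) (.cons (.leaf 1 [(1,1),(4,1)]) (.cons (.keep [1,4,6,7,8,11] (.node (.cons (.leaf 1 [(7,1),(4,1)]) (.cons (.leaf 1 [(7,1),(4,1)]) (.cons (.leaf 1 [(7,1),(4,1)]) (.cons (.leaf 1 [(7,1)]) .nil)))))) (.cons (.keep [0,3,6,7,8,9] (.node (.cons (.leaf 1 [(4,1)])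 (.cons (.leaf 1 [(4,1)]) (.cons (.leaf 1 [(4,1)]) (.cons (.leaf 1 []) .nil)))))) .nil)))))) .nil)))))) (.cons (.keep [1,4,6,7,8,9] (.node (.cons (.keep [2,3,4,6,7,8,9] (.node (.cons (.keep [0,4,6,8,10,11,12] (.node (.cons (.leaf 1 [(7,1),(4,1)]) (.cons (.leaf 1 [(4,1),(7,1)]) (.cons (.leaf 1 [(4,1),(7,1)]) (.cons (.leaf 1 [(7,1)]) .nil)))))) (.cons (.leaf 1 [(1,1),(4,1)]) (.cons (.keep [4,6,7,8,10,11,12] (.node (.cons (.leaf 1 [(6,1),(4,1)]) (.cons (.leaf 1 [(6,1),(4,1)]) (.cons (.leaf 1 [(6,1),(4,1)]) (.cons (.leaf 1 [(6,1)]) .nil)))))) (.cons (.keep [0,3,8,10,11,12] (.node (.cons (.leaf 1 [(4,1)]) (.cons (.leaf 1 [(4,1)]) (.cons (.leaf 1 [(4,1)]) (.cons (.leaf 1 []) .nil)))))) .nil)))))) (.cons (.keep [1,4,7,8,9,10,11] (.node (.cons (.keep [0,4,7,8,9,10,12] (.node (.cons (.leaf 1 [(7,1),(4,1)])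 (.cons (.leaf 1 [(4,1),(7,1)]) (.cons (.leaf 1 [(4,1),(7,1)]) (.cons (.leaf 1 [(7,1)]) .nil)))))) (.cons (.leaf 1 [(1,1),(4,1)]) (.cons (.keep [4,7,8,9,10,11,12] (.node (.cons (.leaf 1 [(6,1),(4,1)]) (.cons (.leaf 1 [(6,1),(4,1)]) (.cons (.leaf 1 [(6,1),(4,1)]) (.cons (.leaf 1 [(6,1)]) .nil)))))) (.cons (.keep [0,3,7,8,9,10] (.node (.cons (.leaf 1 [(4,1)]) (.cons (.leaf 1 [(4,1)]) (.cons (.leaf 1 [(4,1)]) (.cons (.leaf 1 []) .nil)))))) .nil)))))) (.cons (.leaf 1 [(6,1),(1,1)]) (.cons (.keep [0,2,6,7,8,11] (.node (.cons (.keep [4,6,7,9,10,11] (.node (.cons (.leaf 1 [(6,1),(4,1)]) (.cons (.leaf 1 [(4,1),(6,1)]) (.cons (.leaf 1 [(4,1),(6,1)]) (.cons (.leaf 1 [(6,1)]) .nil)))))) (.cons (.leaf 1 [(1,1),(4,1)]) (.cons (.keep [4,6,7,9,10,11] (.node (.cons (.leaf 1 [(6,1),(4,1)]) (.cons (.leaf 1 [(6,1),(4,1)])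 (.cons (.leaf 1 [(6,1),(4,1)]) (.cons (.leaf 1 [(6,1)]) .nil)))))) (.cons (.keep [0,3,6,7,9,10] (.node (.cons (.leaf 1 [(4,1)]) (.cons (.leaf 1 [(4,1)]) (.cons (.leaf 1 [(4,1)]) (.cons (.leaf 1 []) .nil)))))) .nil)))))) .nil)))))) (.cons (.keep [0,1,7,8,9] (.node (.cons (.keep [2,3,4,6,7,8] (.node (.cons (.keep [3,4,6,8,9,10,11] (.node (.cons (.leaf 1 [(7,1),(4,1)]) (.cons (.leaf 1 [(4,1),(7,1)]) (.cons (.leaf 1 [(4,1),(7,1)]) (.cons (.leaf 1 [(7,1)]) .nil)))))) (.cons (.leaf 1 [(1,1),(4,1)]) (.cons (.keep [1,4,6,8,9,11] (.node (.cons (.leaf 1 [(7,1),(4,1)]) (.cons (.leaf 1 [(7,1),(4,1)]) (.cons (.leaf 1 [(7,1),(4,1)]) (.cons (.leaf 1 [(7,1)]) .nil)))))) (.cons (.keep [0,3,8,10,11] (.node (.cons (.leaf 1 [(4,1)]) (.cons (.leaf 1 [(4,1)]) (.cons (.leaf 1 [(4,1)]) (.cons (.leaf 1 []) .nil)))))) .nil))))))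 (.cons (.keep [1,4,6,7,8,10] (.node (.cons (.keep [3,4,7,8,9,10,11] (.node (.cons (.leaf 1 [(7,1),(4,1)]) (.cons (.leaf 1 [(4,1),(7,1)]) (.cons (.leaf 1 [(4,1),(7,1)]) (.cons (.leaf 1 [(7,1)]) .nil)))))) (.cons (.leaf 1 [(1,1),(4,1)]) (.cons (.keep [1,4,7,8,10,11] (.node (.cons (.leaf 1 [(7,1),(4,1)]) (.cons (.leaf 1 [(7,1),(4,1)]) (.cons (.leaf 1 [(7,1),(4,1)]) (.cons (.leaf 1 [(7,1)]) .nil)))))) (.cons (.keep [0,3,7,9,10] (.node (.cons (.leaf 1 [(4,1)]) (.cons (.leaf 1 [(4,1)]) (.cons (.leaf 1 [(4,1)]) (.cons (.leaf 1 []) .nil)))))) .nil)))))) (.cons (.keep [1,4,6,7,8,9] (.node (.cons (.leaf 1 [(6,1),(4,1)]) (.cons (.leaf 1 [(1,1),(4,1)]) (.cons (.leaf 1 [(6,1),(4,1)]) (.cons (.leaf 1 [(6,1)]) .nil)))))) (.cons (.keep [0,1,6,7,9,10] (.node (.cons (.keep [3,4,6,7,9,11] (.node (.cons (.leaf 1 [(7,1),(4,1)])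 (.cons (.leaf 1 [(4,1),(7,1)]) (.cons (.leaf 1 [(4,1),(7,1)]) (.cons (.leaf 1 [(7,1)]) .nil)))))) (.cons (.leaf 1 [(1,1),(4,1)]) (.cons (.keep [1,4,6,7,8,11] (.node (.cons (.leaf 1 [(7,1),(4,1)]) (.cons (.leaf 1 [(7,1),(4,1)]) (.cons (.leaf 1 [(7,1),(4,1)]) (.cons (.leaf 1 [(7,1)]) .nil)))))) (.cons (.keep [0,3,6,7,9] (.node (.cons (.leaf 1 [(4,1)]) (.cons (.leaf 1 [(4,1)]) (.cons (.leaf 1 [(4,1)]) (.cons (.leaf 1 []) .nil)))))) .nil)))))) .nil)))))) .nil)))))) (.cons (.keep [1,3,7,8] (.leaf 0 [(0,0)])) (.cons (.keep [1,2,4,7,8,9] (.leaf 0 [(1,0)])) (.cons (.keep [0,1,3,7] (.node (.cons (.keep [2,4,6,7,9] (.node (.cons (.keep [3,4,6,7,8,9,10] (.node (.cons (.leaf 1 [(4,1)]) (.cons (.leaf 1 [(4,1)]) (.cons (.leaf 1 [(4,1)]) (.cons (.leaf 1 []) .nil)))))) (.cons (.leaf 1 [(1,1)]) (.cons (.keep [1,4,6,7,8,10]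 (.node (.cons (.leaf 1 [(4,1)]) (.cons (.leaf 1 [(4,1)]) (.cons (.leaf 1 [(4,1)]) (.cons (.leaf 1 []) .nil)))))) (.cons (.keep [0,3,7,9,10] (.node (.cons (.leaf 1 [(4,1)]) (.cons (.leaf 1 [(4,1)]) (.cons (.leaf 1 [(4,1)]) (.cons (.leaf 1 []) .nil)))))) .nil)))))) (.cons (.keep [1,4,6,8,9] (.node (.cons (.keep [3,4,7,8,9,10] (.node (.cons (.leaf 1 [(4,1)]) (.cons (.leaf 1 [(4,1)]) (.cons (.leaf 1 [(4,1)]) (.cons (.leaf 1 []) .nil)))))) (.cons (.leaf 1 [(1,1)]) (.cons (.keep [4,7,8,9,10] (.node (.cons (.leaf 1 [(4,1)]) (.cons (.leaf 1 [(4,1)]) (.cons (.leaf 1 [(4,1)]) (.cons (.leaf 1 []) .nil)))))) (.cons (.keep [0,3,7,9,10] (.node (.cons (.leaf 1 [(4,1)]) (.cons (.leaf 1 [(4,1)]) (.cons (.leaf 1 [(4,1)]) (.cons (.leaf 1 []) .nil)))))) .nil)))))) (.cons (.leaf 1 [(1,1)]) (.cons (.keep [0,1,2,6,7,8]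 (.node (.cons (.keep [3,4,6,8,11] (.node (.cons (.leaf 1 [(4,1)]) (.cons (.leaf 1 [(4,1)]) (.cons (.leaf 1 [(4,1)]) (.cons (.leaf 1 []) .nil)))))) (.cons (.leaf 1 [(1,1)]) (.cons (.keep [4,6,8,9,11] (.node (.cons (.leaf 1 [(4,1)]) (.cons (.leaf 1 [(4,1)]) (.cons (.leaf 1 [(4,1)]) (.cons (.leaf 1 []) .nil)))))) (.cons (.keep [0,3,6,7,10] (.node (.cons (.leaf 1 [(4,1)]) (.cons (.leaf 1 [(4,1)]) (.cons (.leaf 1 [(4,1)]) (.cons (.leaf 1 []) .nil)))))) .nil)))))) .nil)))))) .nil)))))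

theorem c_23_16_19 : Concl 23 16 z_23_16_19 h_23_16_19 .nd := piece _ (hP_cons E49.c_23_16_7
  (hP_cons E49.c_23_16_8 hP_nil)) t_23_16_19 _ _ (by decide +kernel)

def t_23_16 : T := (.keep [0,1,2] (.node (.cons (.keep [0,2,3,8] (.node (.cons (.keep [2,3,4,6,7] (.node (.cons (.keep [2,3,4,6,8,10] (.node (.cons (.keep [2,3,4,6,8,9,11] (.node (.cons (.leaf 1 [(4,1)]) (.cons (.leaf 1 [(4,1)]) (.cons (.leaf 1 [(4,1)]) (.cons (.leaf 1 []) .nil)))))) (.cons (.leaf 1 [(1,1)]) (.cons (.keep [1,4,6,7,8,9,10] (.node (.cons (.leaf 1 [(4,1)]) (.cons (.leaf 1 [(4,1)]) (.cons (.leaf 1 [(4,1)]) (.cons (.leaf 1 []) .nil)))))) (.cons (.keep [0,3,8,9,10,11] (.node (.cons (.leaf 1 [(4,1)]) (.cons (.leaf 1 [(4,1)]) (.cons (.leaf 1 [(4,1)]) (.cons (.leaf 1 []) .nil)))))) .nil)))))) (.cons (.keep [1,4,6,7,8,9,10] (.node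 (.cons (.keep [2,3,4,7,8,9,12] (.node (.cons (.leaf 1 [(4,1)]) (.cons (.leaf 1 [(4,1)]) (.cons (.leaf 1 [(4,1)]) (.cons (.leaf 1 []) .nil)))))) (.cons (.leaf 1 [(1,1)]) (.cons (.keep [1,4,7,8,9,10,11] (.node (.cons (.leaf 1 [(4,1)]) (.cons (.leaf 1 [(4,1)]) (.cons (.leaf 1 [(4,1)]) (.cons (.leaf 1 []) .nil)))))) (.cons (.keep [0,3,7,8,10,12] (.node (.cons (.leaf 1 [(4,1)]) (.cons (.leaf 1 [(4,1)]) (.cons (.leaf 1 [(4,1)]) (.cons (.leaf 1 []) .nil)))))) .nil)))))) (.cons (.leaf 1 [(1,1)]) (.cons (.keep [0,1,7,8,10] (.node (.cons (.keep [3,4,6,7,8,10] (.node (.cons (.leaf 1 [(4,1)]) (.cons (.leaf 1 [(4,1)]) (.cons (.leaf 1 [(4,1)]) (.cons (.leaf 1 []) .nil)))))) (.cons (.leaf 1 [(1,1)]) (.cons (.keep [1,4,6,7,8,9] (.node (.cons (.leaf 1 [(4,1)]) (.cons (.leaf 1 [(4,1)]) (.cons (.leaf 1 [(4,1)]) (.cons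 (.leaf 1 []) .nil)))))) (.cons (.keep [0,3,6,7,9,10] (.node (.cons (.leaf 1 [(4,1)]) (.cons (.leaf 1 [(4,1)]) (.cons (.leaf 1 [(4,1)]) (.cons (.leaf 1 []) .nil)))))) .nil)))))) .nil)))))) (.cons (.keep [1,3,4,6,7,8] (.node (.cons (.keep [3,4,7,8,10,11] (.node (.cons (.keep [2,4,8,9,10,11] (.node (.cons (.leaf 1 [(4,1)]) (.cons (.leaf 1 [(4,1)]) (.cons (.leaf 1 [(4,1)]) (.cons (.leaf 1 []) .nil)))))) (.cons (.leaf 1 [(1,1)]) (.cons (.keep [4,6,8,9,10,11] (.node (.cons (.leaf 1 [(4,1)]) (.cons (.leaf 1 [(4,1)]) (.cons (.leaf 1 [(4,1)]) (.cons (.leaf 1 []) .nil)))))) (.cons (.keep [0,3,7,9,10,11] (.node (.cons (.leaf 1 [(4,1)]) (.cons (.leaf 1 [(4,1)]) (.cons (.leaf 1 [(4,1)]) (.cons (.leaf 1 []) .nil)))))) .nil)))))) (.cons (.keep [1,7,8,9,10,11] (.node (.cons (.keep [2,4,7,8,10,11] (.node (.cons (.leaf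 1 [(4,1)]) (.cons (.leaf 1 [(4,1)]) (.cons (.leaf 1 [(4,1)]) (.cons (.leaf 1 []) .nil)))))) (.cons (.leaf 1 [(1,1)]) (.cons (.keep [4,7,8,9,10,11] (.node (.cons (.leaf 1 [(4,1)]) (.cons (.leaf 1 [(4,1)]) (.cons (.leaf 1 [(4,1)]) (.cons (.leaf 1 []) .nil)))))) (.cons (.keep [0,3,7,8,10,11] (.node (.cons (.leaf 1 [(4,1)]) (.cons (.leaf 1 [(4,1)]) (.cons (.leaf 1 [(4,1)]) (.cons (.leaf 1 []) .nil)))))) .nil)))))) (.cons (.leaf 1 [(1,1)]) (.cons (.keep [0,1,7,8,10] (.node (.cons (.keep [3,4,6,7,8,10] (.node (.cons (.leaf 1 [(4,1)]) (.cons (.leaf 1 [(4,1)]) (.cons (.leaf 1 [(4,1)]) (.cons (.leaf 1 []) .nil)))))) (.cons (.leaf 1 [(1,1)]) (.cons (.keep [1,4,6,7,8,9] (.node (.cons (.leaf 1 [(4,1)]) (.cons (.leaf 1 [(4,1)]) (.cons (.leaf 1 [(4,1)]) (.cons (.leaf 1 []) .nil)))))) (.cons (.keep [0,3,6,7,9,10]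 (.node (.cons (.leaf 1 [(4,1)]) (.cons (.leaf 1 [(4,1)]) (.cons (.leaf 1 [(4,1)]) (.cons (.leaf 1 []) .nil)))))) .nil)))))) .nil)))))) (.cons (.keep [1,4,7,8,9] (.node (.cons (.keep [2,4,6,7,8,9,10] (.node (.cons (.keep [4,6,7,9,10,11,12] (.node (.cons (.leaf 1 [(4,1)]) (.cons (.leaf 1 [(4,1)]) (.cons (.leaf 1 [(4,1)]) (.cons (.leaf 1 []) .nil)))))) (.cons (.leaf 1 [(1,1)]) (.cons (.keep [4,6,7,9,10,11,12] (.node (.cons (.leaf 1 [(4,1)]) (.cons (.leaf 1 [(4,1)]) (.cons (.leaf 1 [(4,1)]) (.cons (.leaf 1 []) .nil)))))) (.cons (.keep [0,3,7,9,10,11] (.node (.cons (.leaf 1 [(4,1)]) (.cons (.leaf 1 [(4,1)]) (.cons (.leaf 1 [(4,1)]) (.cons (.leaf 1 []) .nil)))))) .nil)))))) (.cons (.keep [1,4,7,8,9,10] (.node (.cons (.keep [3,4,7,9,10,11] (.node (.cons (.leaf 1 [(4,1)]) (.cons (.leaf 1 [(4,1)]) (.cons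 (.leaf 1 [(4,1)]) (.cons (.leaf 1 []) .nil)))))) (.cons (.leaf 1 [(1,1)]) (.cons (.keep [4,7,8,9,10,11] (.node (.cons (.leaf 1 [(4,1)]) (.cons (.leaf 1 [(4,1)]) (.cons (.leaf 1 [(4,1)]) (.cons (.leaf 1 []) .nil)))))) (.cons (.keep [0,3,7,8,9,10] (.node (.cons (.leaf 1 [(4,1)]) (.cons (.leaf 1 [(4,1)]) (.cons (.leaf 1 [(4,1)]) (.cons (.leaf 1 []) .nil)))))) .nil)))))) (.cons (.leaf 1 [(1,1)]) (.cons (.keep [0,2,6,7,8] (.node (.cons (.keep [3,4,6,7,10] (.node (.cons (.leaf 1 [(4,1)]) (.cons (.leaf 1 [(4,1)]) (.cons (.leaf 1 [(4,1)]) (.cons (.leaf 1 []) .nil)))))) (.cons (.leaf 1 [(1,1)]) (.cons (.keep [4,6,7,9,10] (.node (.cons (.leaf 1 [(4,1)]) (.cons (.leaf 1 [(4,1)]) (.cons (.leaf 1 [(4,1)]) (.cons (.leaf 1 []) .nil)))))) (.cons (.keep [0,3,6,7,9,10] (.node (.cons (.leaf 1 [(4,1)]) (.cons (.leaf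 1 [(4,1)]) (.cons (.leaf 1 [(4,1)]) (.cons (.leaf 1 []) .nil)))))) .nil)))))) .nil)))))) (.cons (.keep [0,1,3,8] (.node (.cons (.keep [2,4,6,7,9] (.node (.cons (.keep [3,4,6,7,8,9,10] (.node (.cons (.leaf 1 [(4,1)]) (.cons (.leaf 1 [(4,1)]) (.cons (.leaf 1 [(4,1)]) (.cons (.leaf 1 []) .nil)))))) (.cons (.leaf 1 [(1,1)]) (.cons (.keep [1,4,6,7,8,10] (.node (.cons (.leaf 1 [(4,1)]) (.cons (.leaf 1 [(4,1)]) (.cons (.leaf 1 [(4,1)]) (.cons (.leaf 1 []) .nil)))))) (.cons (.keep [0,3,7,9,10] (.node (.cons (.leaf 1 [(4,1)]) (.cons (.leaf 1 [(4,1)]) (.cons (.leaf 1 [(4,1)]) (.cons (.leaf 1 []) .nil)))))) .nil)))))) (.cons (.keep [1,4,6,8,9] (.node (.cons (.keep [3,4,7,8,9,10] (.node (.cons (.leaf 1 [(4,1)]) (.cons (.leaf 1 [(4,1)]) (.cons (.leaf 1 [(4,1)]) (.cons (.leaf 1 []) .nil)))))) (.cons (.leaf 1 [(1,1)])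 (.cons (.keep [4,7,8,9,10] (.node (.cons (.leaf 1 [(4,1)]) (.cons (.leaf 1 [(4,1)]) (.cons (.leaf 1 [(4,1)]) (.cons (.leaf 1 []) .nil)))))) (.cons (.keep [0,3,7,9,10] (.node (.cons (.leaf 1 [(4,1)]) (.cons (.leaf 1 [(4,1)]) (.cons (.leaf 1 [(4,1)]) (.cons (.leaf 1 []) .nil)))))) .nil)))))) (.cons (.leaf 1 [(1,1)]) (.cons (.keep [0,1,2,6,7,8] (.node (.cons (.keep [3,4,6,8,11] (.node (.cons (.leaf 1 [(4,1)]) (.cons (.leaf 1 [(4,1)]) (.cons (.leaf 1 [(4,1)]) (.cons (.leaf 1 []) .nil)))))) (.cons (.leaf 1 [(1,1)]) (.cons (.keep [4,6,8,9,11] (.node (.cons (.leaf 1 [(4,1)]) (.cons (.leaf 1 [(4,1)]) (.cons (.leaf 1 [(4,1)]) (.cons (.leaf 1 []) .nil)))))) (.cons (.keep [0,3,6,7,10] (.node (.cons (.leaf 1 [(4,1)]) (.cons (.leaf 1 [(4,1)]) (.cons (.leaf 1 [(4,1)]) (.cons (.leaf 1 []) .nil)))))) .nil))))))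 .nil)))))) .nil)))))) (.cons (.keep [1,3,6,8] (.leaf 0 [(0,0)])) (.cons (.keep [1,2,7,8] (.leaf 0 [(1,0)])) (.cons (.leaf 1 []) .nil))))))

theorem e_23_16 : ESB (caseOf 4 23 16) := esb_of_pieces _ (hP_cons c_23_16_19 (hP_cons c_23_16_18
  hP_nil)) t_23_16 (by decide +kernel)

def ks : List (ℕ × ℕ) := [(23, 16)]

theorem ks_ok : ∀ p ∈ ks, ESB (caseOf 4 p.1 p.2) := ks_cons e_23_16 <| ks_nil

end Pool.Agent.H4.RD4.E50
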