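import Pool.Agent.H4.RD4.E51
import Pool.Agent.H4.RD4.E52

/-! # Certificates for special cases of order four -/

set_option maxRecDepth 20000

namespace Pool.Agent.H4.RD4.E53

open Pool.Agent.H50.Rdb
open Pool.Agent.H81.RDE (ESB caseOf)

def z_23_24_6 : F := ⟨1, -1, -1, 0, 2⟩

def h_23_24_6 : List F := [⟨1, 0, 0, 0, 0⟩, ⟨0, 0, 1, -1, 0⟩, ⟨0, 1, -1, 0, 0⟩, ⟨0, -1, 0, 0, 1⟩]

def t_23_24_6 : T := (.node (.cons (.keep [2,6,8,9] (.leaf 0 [(0,0)])) (.cons (.keep [2,4,5,8,9] (.leaf 0 [(1,0)])) (.cons (.keep [1,3,6,8,10] (.node (.cons (.leaf 1 [(10,1),(9,2),(11,2)]) (.cons (.keep [4,8,9,10,11] (.node (.cons (.keep [6,7,9,10,11] (.node (.cons (.leaf 1 [(3,2),(7,1)]) (.cons (.leaf 1 [(3,1),(4,1)]) (.cons (.leaf 1 [(3,1),(8,1),(7,1)]) (.cons (.leaf 1 [(4,1),(8,1)]) (.cons (.leaf 1 [(7,1),(8,1)])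 (.cons (.leaf 1 [(4,1),(8,1)]) (.cons (.leaf 1 [(8,1),(7,1),(3,1)]) (.cons (.leaf 1 [(8,1)]) .nil)))))))))) (.cons (.keep [4,5,9,10,11] (.node (.cons (.leaf 1 [(7,2)]) (.cons (.leaf 1 [(5,1),(4,2)]) (.cons (.leaf 1 [(1,1),(7,2)]) (.cons (.leaf 1 [(4,1),(7,1)]) (.cons (.leaf 1 [(1,1),(7,2)]) (.cons (.leaf 1 [(4,1),(7,1)]) (.cons (.leaf 1 [(7,2),(1,1)]) (.cons (.leaf 1 [(7,1)]) .nil)))))))))) (.cons (.leaf 1 [(1,2),(7,1)]) (.cons (.leaf 1 [(1,1),(4,1)]) (.cons (.leaf 1 [(9,1),(1,2),(7,1)]) (.cons (.leaf 1 [(1,1),(4,1),(9,1)]) (.cons (.keep [1,7,8,9,10,11] (.node (.cons (.leaf 1 [(3,1)]) (.cons (.leaf 1 [(3,1),(7,1),(4,1)]) (.cons (.leaf 1 [(3,1)]) (.cons (.leaf 1 [(4,1),(8,1),(7,1)]) (.cons (.leaf 1 []) (.cons (.leaf 1 [(4,1),(7,1),(8,1)]) (.cons (.leaf 1 [(3,1)]) (.cons (.leaf 1 [(8,1),(7,1)])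 .nil)))))))))) (.cons (.keep [0,5,7,9,11] (.node (.cons (.keep [3,4,8,10,11] (.node (.cons (.leaf 1 [(3,1)]) (.cons (.leaf 1 [(3,1)]) (.cons (.leaf 1 [(3,1),(7,1)]) (.cons (.leaf 1 [(3,1),(7,1)]) (.cons (.leaf 2 [(8,1),(10,1)]) (.cons (.leaf 1 [(0,1),(10,1)]) (.cons (.leaf 1 [(8,1),(6,1),(3,1)]) (.cons (.leaf 1 [(10,1)]) .nil)))))))))) (.cons (.leaf 1 [(4,1)]) (.cons (.leaf 1 [(1,1),(10,1)]) (.cons (.leaf 1 [(4,1)]) (.cons (.keep [1,4,7,8,10] (.node (.cons (.leaf 1 [(7,1),(3,1)]) (.cons (.leaf 1 [(7,1),(3,1)]) (.cons (.leaf 1 [(3,1)]) (.cons (.leaf 1 [(3,1)]) (.cons (.leaf 2 [(8,1),(11,1)]) (.cons (.leaf 1 [(7,1),(0,1),(11,1)]) (.cons (.leaf 1 [(8,1),(6,1),(3,1)]) (.cons (.leaf 1 [(11,1)]) .nil)))))))))) (.cons (.leaf 1 [(4,1)]) (.cons (.keep [3,7,8,10,11] (.node (.cons (.leaf 2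 [(3,1),(10,1)]) (.cons (.leaf 1 [(4,1),(10,1)]) (.cons (.leaf 1 [(3,1),(7,1)]) (.cons (.leaf 1 [(3,1),(7,1)]) (.cons (.leaf 2 [(10,1)]) (.cons (.leaf 1 [(4,1),(10,1)]) (.cons (.leaf 1 [(6,1),(3,1)]) (.cons (.leaf 1 [(10,1)]) .nil)))))))))) (.cons (.leaf 1 []) .nil)))))))))) .nil)))))))))) (.cons (.leaf 1 [(1,2),(9,1),(11,1)]) (.cons (.keep [1,3,8,9,11] (.node (.cons (.keep [6,7,8,10,11] (.node (.cons (.leaf 1 [(3,2),(7,1)]) (.cons (.leaf 1 [(3,1),(4,1)]) (.cons (.leaf 1 [(3,1),(8,1),(7,1)]) (.cons (.leaf 1 [(4,1),(8,1)]) (.cons (.leaf 1 [(7,1),(8,1)]) (.cons (.leaf 1 [(4,1),(8,1)]) (.cons (.leaf 1 [(8,1),(7,1),(3,1)]) (.cons (.leaf 1 [(8,1)]) .nil)))))))))) (.cons (.keep [4,8,9,10,11] (.node (.cons (.leaf 1 [(7,2)]) (.cons (.leaf 1 [(5,1),(4,2)]) (.cons (.leaf 1 [(1,1),(7,2)]) (.cons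 (.leaf 1 [(4,1),(7,1)]) (.cons (.leaf 1 [(1,1),(7,2)]) (.cons (.leaf 1 [(4,1),(7,1)]) (.cons (.leaf 1 [(7,2),(1,1)]) (.cons (.leaf 1 [(7,1)]) .nil)))))))))) (.cons (.leaf 1 [(1,1),(7,1)]) (.cons (.leaf 1 [(1,1),(4,1)]) (.cons (.leaf 1 [(1,1),(7,1),(10,1)]) (.cons (.leaf 1 [(1,1),(4,1),(10,1)]) (.cons (.keep [7,8,9,10,11] (.node (.cons (.leaf 1 [(3,1)]) (.cons (.leaf 1 [(7,1),(4,1)]) (.cons (.leaf 1 [(3,1)]) (.cons (.leaf 1 [(4,1),(7,1)]) (.cons (.leaf 1 []) (.cons (.leaf 1 [(4,1),(7,1)]) (.cons (.leaf 1 [(3,1)]) (.cons (.leaf 1 [(7,1)]) .nil)))))))))) (.cons (.keep [0,5,9,10,11] (.node (.cons (.keep [3,4,8,10,11] (.node (.cons (.leaf 1 [(3,1)]) (.cons (.leaf 1 [(3,1)]) (.cons (.leaf 1 [(3,1),(7,1)]) (.cons (.leaf 1 [(3,1),(7,1)]) (.cons (.leaf 2 [(8,1),(10,1)]) (.cons (.leaf 1 [(0,1),(10,1)])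 (.cons (.leaf 1 [(8,1),(6,1),(3,1)]) (.cons (.leaf 1 [(10,1)]) .nil)))))))))) (.cons (.leaf 1 [(4,1)]) (.cons (.leaf 1 [(1,1),(10,1)]) (.cons (.leaf 1 [(4,1)]) (.cons (.keep [1,4,7,8,10] (.node (.cons (.leaf 1 [(7,1),(3,1)]) (.cons (.leaf 1 [(7,1),(3,1)]) (.cons (.leaf 1 [(3,1)]) (.cons (.leaf 1 [(3,1)]) (.cons (.leaf 2 [(8,1),(11,1)]) (.cons (.leaf 1 [(7,1),(0,1),(11,1)]) (.cons (.leaf 1 [(8,1),(6,1),(3,1)]) (.cons (.leaf 1 [(11,1)]) .nil)))))))))) (.cons (.leaf 1 [(4,1)]) (.cons (.keep [3,7,8,10,11] (.node (.cons (.leaf 2 [(3,1),(10,1)]) (.cons (.leaf 1 [(4,1),(10,1)]) (.cons (.leaf 1 [(3,1),(7,1)]) (.cons (.leaf 1 [(3,1),(7,1)]) (.cons (.leaf 2 [(10,1)]) (.cons (.leaf 1 [(4,1),(10,1)]) (.cons (.leaf 1 [(6,1),(3,1)]) (.cons (.leaf 1 [(10,1)]) .nil)))))))))) (.cons (.leaf 1 [])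 .nil)))))))))) .nil)))))))))) (.cons (.leaf 1 [(10,1),(1,2)]) (.cons (.leaf 1 [(10,1),(1,2)]) (.cons (.leaf 1 [(10,1),(9,2),(6,2),(1,2)]) (.cons (.keep [0,1,8,9,10] (.node (.cons (.keep [4,8,10,11] (.node (.cons (.leaf 1 [(3,1),(7,1)]) (.cons (.leaf 1 [(3,1),(4,1)]) (.cons (.leaf 1 [(3,1),(7,1)]) (.cons (.leaf 1 [(3,1),(9,1)]) (.cons (.leaf 1 [(7,1)]) (.cons (.leaf 1 [(4,2),(10,1)]) (.cons (.leaf 1 [(7,1),(3,1)]) (.cons (.leaf 1 [(10,1)]) .nil)))))))))) (.cons (.keep [4,5,8,10,11] (.node (.cons (.leaf 1 [(7,2)]) (.cons (.leaf 1 [(5,1),(4,2)]) (.cons (.leaf 1 [(1,1),(7,2)]) (.cons (.leaf 1 [(4,1),(7,1)]) (.cons (.leaf 1 [(1,1),(7,2)]) (.cons (.leaf 1 [(4,1),(7,1)]) (.cons (.leaf 1 [(7,2),(1,1)]) (.cons (.leaf 1 [(7,1)]) .nil)))))))))) (.cons (.leaf 1 [(1,2),(11,1)]) (.cons (.leaf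 1 [(1,1),(4,1)]) (.cons (.leaf 1 [(10,2),(1,2),(11,1)]) (.cons (.leaf 1 [(1,1),(4,1),(10,1)]) (.cons (.keep [1,6,7,10,11] (.node (.cons (.leaf 1 [(3,1)]) (.cons (.leaf 1 [(3,1),(7,1),(4,1)]) (.cons (.leaf 1 [(3,1)]) (.cons (.leaf 1 [(3,1),(7,1),(10,1)]) (.cons (.leaf 1 []) (.cons (.leaf 1 [(4,2),(11,1)]) (.cons (.leaf 1 [(3,1)]) (.cons (.leaf 1 [(11,1)]) .nil)))))))))) (.cons (.keep [0,5,8,10] (.node (.cons (.keep [3,4,8,9,10] (.node (.cons (.leaf 1 [(3,1)]) (.cons (.leaf 1 [(3,1)]) (.cons (.leaf 1 [(3,1),(7,1)]) (.cons (.leaf 1 [(3,1),(7,1)]) (.cons (.leaf 2 [(8,1),(11,1)]) (.cons (.leaf 1 [(0,1),(11,1)]) (.cons (.leaf 1 [(8,1),(6,1),(3,1)]) (.cons (.leaf 1 [(11,1)]) .nil)))))))))) (.cons (.leaf 1 [(4,1)]) (.cons (.leaf 1 [(1,1),(10,1)]) (.cons (.leaf 1 [(4,1)]) (.cons (.keep [1,4,7,8,10]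 (.node (.cons (.leaf 1 [(7,1),(3,1)]) (.cons (.leaf 1 [(7,1),(3,1)]) (.cons (.leaf 1 [(3,1)]) (.cons (.leaf 1 [(3,1)]) (.cons (.leaf 2 [(8,1),(11,1)]) (.cons (.leaf 1 [(7,1),(0,1),(11,1)]) (.cons (.leaf 1 [(8,1),(6,1),(3,1)]) (.cons (.leaf 1 [(11,1)]) .nil)))))))))) (.cons (.leaf 1 [(4,1)]) (.cons (.keep [3,7,8,9,10] (.node (.cons (.leaf 1 [(10,1),(3,1),(7,1)]) (.cons (.leaf 1 [(10,1),(3,1),(7,1)]) (.cons (.leaf 1 [(3,1),(7,1)]) (.cons (.leaf 1 [(3,1),(7,1)]) (.cons (.leaf 2 [(11,1)]) (.cons (.leaf 1 [(10,1),(0,1),(7,1),(11,1)]) (.cons (.leaf 1 [(6,1),(3,1)]) (.cons (.leaf 1 [(11,1)]) .nil)))))))))) (.cons (.leaf 1 []) .nil)))))))))) .nil)))))))))) .nil)))))))))) (.cons (.keep [1,3,4,5,8,10] (.leaf 0 [(2,0)])) (.cons (.keep [1,6,7,9,10] (.leaf 0 [(3,0)])) (.cons (.keep [1,4,5,9,10]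 (.leaf 0 [(4,0)])) (.cons (.leaf 1 [(9,1),(1,2),(6,3),(8,2)]) (.cons (.keep [0,1,8,9,10] (.node (.cons (.keep [4,8,9,10] (.node (.cons (.leaf 1 [(3,1),(7,1)]) (.cons (.leaf 1 [(3,1),(4,1)]) (.cons (.leaf 1 [(3,1),(7,1)]) (.cons (.leaf 1 [(3,1),(9,1)]) (.cons (.leaf 1 [(7,1)]) (.cons (.leaf 1 [(4,2),(10,1)]) (.cons (.leaf 1 [(7,1),(3,1)]) (.cons (.leaf 1 [(10,1)]) .nil)))))))))) (.cons (.keep [4,5,8,9,10] (.node (.cons (.leaf 1 [(7,2)]) (.cons (.leaf 1 [(5,1),(4,2)]) (.cons (.leaf 1 [(1,1),(7,2)]) (.cons (.leaf 1 [(4,1),(7,1)]) (.cons (.leaf 1 [(1,1),(7,2)]) (.cons (.leaf 1 [(4,1),(7,1)]) (.cons (.leaf 1 [(7,2),(1,1)]) (.cons (.leaf 1 [(7,1)]) .nil)))))))))) (.cons (.leaf 1 [(1,2),(10,1)]) (.cons (.leaf 1 [(1,1),(4,1)]) (.cons (.leaf 1 [(9,2),(1,2),(10,1)]) (.cons (.leaf 1 [(1,1),(4,1),(9,1)])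 (.cons (.keep [1,6,7,9,10] (.node (.cons (.leaf 1 [(3,1)]) (.cons (.leaf 1 [(3,1),(7,1),(4,1)]) (.cons (.leaf 1 [(3,1)]) (.cons (.leaf 1 [(3,1),(7,1),(10,1)]) (.cons (.leaf 1 []) (.cons (.leaf 1 [(4,2),(11,1)]) (.cons (.leaf 1 [(3,1)]) (.cons (.leaf 1 [(11,1)]) .nil)))))))))) (.cons (.keep [0,5,8,9] (.node (.cons (.keep [3,4,8,9,10] (.node (.cons (.leaf 1 [(3,1)]) (.cons (.leaf 1 [(3,1)]) (.cons (.leaf 1 [(3,1),(7,1)]) (.cons (.leaf 1 [(3,1),(7,1)]) (.cons (.leaf 2 [(8,1),(11,1)]) (.cons (.leaf 1 [(0,1),(11,1)]) (.cons (.leaf 1 [(8,1),(6,1),(3,1)]) (.cons (.leaf 1 [(11,1)]) .nil)))))))))) (.cons (.leaf 1 [(4,1)]) (.cons (.leaf 1 [(1,1),(10,1)]) (.cons (.leaf 1 [(4,1)]) (.cons (.keep [1,4,7,8,10] (.node (.cons (.leaf 1 [(7,1),(3,1)]) (.cons (.leaf 1 [(7,1),(3,1)]) (.cons (.leaf 1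 [(3,1)]) (.cons (.leaf 1 [(3,1)]) (.cons (.leaf 2 [(8,1),(11,1)]) (.cons (.leaf 1 [(7,1),(0,1),(11,1)]) (.cons (.leaf 1 [(8,1),(6,1),(3,1)]) (.cons (.leaf 1 [(11,1)]) .nil)))))))))) (.cons (.leaf 1 [(4,1)]) (.cons (.keep [3,7,8,9,10] (.node (.cons (.leaf 1 [(10,1),(3,1),(7,1)]) (.cons (.leaf 1 [(10,1),(3,1),(7,1)]) (.cons (.leaf 1 [(3,1),(7,1)]) (.cons (.leaf 1 [(3,1),(7,1)]) (.cons (.leaf 2 [(11,1)]) (.cons (.leaf 1 [(10,1),(0,1),(7,1),(11,1)]) (.cons (.leaf 1 [(6,1),(3,1)]) (.cons (.leaf 1 [(11,1)]) .nil)))))))))) (.cons (.leaf 1 []) .nil)))))))))) .nil)))))))))) .nil)))))))))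

theorem c_23_24_6 : Concl 23 24 z_23_24_6 h_23_24_6 .nd := piece _ (hP_cons E51.c_23_24_2 (hP_cons
  E51.c_23_24_0 (hP_cons E51.c_23_24_1 (hP_cons E51.c_23_24_4 (hP_cons E51.c_23_24_3 hP_nil)))))
  t_23_24_6 _ _ (by decide +kernel)

def z_23_24_14 : F := ⟨1, 0, -2, 0, 2⟩

def h_23_24_14 : List F := [⟨1, 0, 0, 0, 0⟩, ⟨0, 0, 1, -1, 0⟩, ⟨0, 0, -1, 0, 1⟩, ⟨0, -1, 1, 0, 0⟩]

def t_23_24_14 : T := (.node (.cons (.keep [3,6,8,10] (.node (.cons (.leaf 1 [(3,1),(8,2),(10,2)]) (.cons (.keep [2,4,8,9,10] (.node (.cons (.keep [6,7,8,9,10] (.node (.cons (.leaf 1 [(3,3),(7,1)]) (.cons (.leaf 1 [(3,2),(4,1)]) (.cons (.leaf 1 [(3,1),(9,2),(7,1)]) (.cons (.leaf 1 [(4,1),(9,2)]) (.cons (.leaf 1 [(9,2),(7,1)]) (.cons (.leaf 1 [(9,2),(4,1)]) (.cons (.leaf 1 [(9,2),(7,1),(3,1)]) (.cons (.leaf 1 [(9,2)])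 .nil)))))))))) (.cons (.keep [7,8,9,10,11] (.node (.cons (.leaf 1 [(11,3),(3,3)]) (.cons (.leaf 1 [(5,2),(4,3)]) (.cons (.leaf 1 [(1,1),(9,3)]) (.cons (.leaf 1 [(4,1),(5,2),(9,2)]) (.cons (.leaf 1 [(11,3),(8,2)]) (.cons (.leaf 1 [(4,3),(5,2),(8,2)]) (.cons (.leaf 1 [(11,3),(8,2),(3,1)]) (.cons (.leaf 1 [(10,2)]) .nil)))))))))) (.cons (.leaf 1 [(1,3),(8,2)]) (.cons (.leaf 1 [(1,1),(4,2)]) (.cons (.leaf 1 [(9,1),(1,3),(8,2)]) (.cons (.leaf 1 [(1,1),(4,2),(9,1)]) (.cons (.keep [1,6,8,9,10] (.node (.cons (.leaf 1 [(3,2),(7,1)]) (.cons (.leaf 1 [(3,2),(7,2),(4,1)]) (.cons (.leaf 1 [(3,1),(9,1),(7,1)]) (.cons (.leaf 1 [(4,1),(9,2),(7,2)]) (.cons (.leaf 1 [(9,1),(7,1)]) (.cons (.leaf 1 [(9,2),(7,2),(4,1)]) (.cons (.leaf 1 [(6,1),(3,2)]) (.cons (.leaf 1 [(9,2),(7,2)]) .nil)))))))))) (.cons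 (.keep [0,5,8,9,11] (.node (.cons (.keep [3,4,8,10,11] (.node (.cons (.leaf 1 [(3,1)]) (.cons (.leaf 1 [(3,1)]) (.cons (.leaf 1 [(3,1),(7,1)]) (.cons (.leaf 1 [(3,1),(7,1)]) (.cons (.leaf 2 [(8,1),(10,1)]) (.cons (.leaf 1 [(0,1),(10,1)]) (.cons (.leaf 1 [(8,1),(6,1),(3,1)]) (.cons (.leaf 1 [(10,1)]) .nil)))))))))) (.cons (.leaf 1 [(4,1)]) (.cons (.leaf 1 [(1,1),(10,1)]) (.cons (.leaf 1 [(4,1)]) (.cons (.keep [1,4,7,8,10] (.node (.cons (.leaf 1 [(7,1),(3,1)]) (.cons (.leaf 1 [(7,1),(3,1)]) (.cons (.leaf 1 [(3,1)]) (.cons (.leaf 1 [(3,1)]) (.cons (.leaf 2 [(8,1),(11,1)]) (.cons (.leaf 1 [(7,1),(0,1),(11,1)]) (.cons (.leaf 1 [(8,1),(6,1),(3,1)]) (.cons (.leaf 1 [(11,1)]) .nil)))))))))) (.cons (.leaf 1 [(4,1)]) (.cons (.keep [3,7,8,10,11] (.node (.cons (.leaf 2 [(3,1),(10,1)]) (.cons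 (.leaf 1 [(4,1),(10,1)]) (.cons (.leaf 1 [(3,1),(7,1)]) (.cons (.leaf 1 [(3,1),(7,1)]) (.cons (.leaf 2 [(10,1)]) (.cons (.leaf 1 [(4,1),(10,1)]) (.cons (.leaf 1 [(6,1),(3,1)]) (.cons (.leaf 1 [(10,1)]) .nil)))))))))) (.cons (.leaf 1 []) .nil)))))))))) .nil)))))))))) (.cons (.leaf 1 [(1,2),(8,1),(10,1)]) (.cons (.keep [3,4,7,8,10] (.node (.cons (.keep [6,7,8,9,10] (.node (.cons (.leaf 1 [(3,3),(7,1)]) (.cons (.leaf 1 [(3,2),(4,1)]) (.cons (.leaf 1 [(3,3),(8,2),(7,3)]) (.cons (.leaf 1 [(4,3),(8,2)]) (.cons (.leaf 1 [(8,2),(7,3)]) (.cons (.leaf 1 [(8,2),(4,3)]) (.cons (.leaf 1 [(8,2),(7,3),(3,3)]) (.cons (.leaf 1 [(8,2)]) .nil)))))))))) (.cons (.keep [7,8,9,10,11] (.node (.cons (.leaf 1 [(11,3),(8,3)]) (.cons (.leaf 1 [(5,2),(4,3)]) (.cons (.leaf 1 [(1,1),(10,3)]) (.cons (.leaf 1 [(4,3),(7,2)])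 (.cons (.leaf 1 [(1,4),(8,3)]) (.cons (.leaf 1 [(4,3),(7,2)]) (.cons (.leaf 1 [(11,3),(8,3),(1,1)]) (.cons (.leaf 1 [(7,2)]) .nil)))))))))) (.cons (.leaf 1 [(1,3),(7,2)]) (.cons (.leaf 1 [(1,1),(4,2)]) (.cons (.leaf 1 [(10,1),(1,2),(8,1)]) (.cons (.leaf 1 [(1,1),(4,2),(10,1)]) (.cons (.keep [6,7,8,10,11] (.node (.cons (.leaf 2 [(3,3),(8,1)]) (.cons (.leaf 1 [(8,2),(4,3)]) (.cons (.leaf 2 [(3,3),(8,1)]) (.cons (.leaf 1 [(4,3),(8,2)]) (.cons (.leaf 2 [(8,1)]) (.cons (.leaf 1 [(8,2),(4,3)]) (.cons (.leaf 1 [(6,1),(3,2)]) (.cons (.leaf 1 [(8,2)]) .nil)))))))))) (.cons (.keep [0,5,8,10,11] (.node (.cons (.keep [3,4,8,10,11] (.node (.cons (.leaf 1 [(3,1)]) (.cons (.leaf 1 [(3,1)]) (.cons (.leaf 1 [(3,1),(7,1)]) (.cons (.leaf 1 [(3,1),(7,1)]) (.cons (.leaf 2 [(8,1),(10,1)]) (.cons (.leaf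 1 [(0,1),(10,1)]) (.cons (.leaf 1 [(8,1),(6,1),(3,1)]) (.cons (.leaf 1 [(10,1)]) .nil)))))))))) (.cons (.leaf 1 [(4,1)]) (.cons (.leaf 1 [(1,1),(10,1)]) (.cons (.leaf 1 [(4,1)]) (.cons (.keep [1,4,7,8,10] (.node (.cons (.leaf 1 [(7,1),(3,1)]) (.cons (.leaf 1 [(7,1),(3,1)]) (.cons (.leaf 1 [(3,1)]) (.cons (.leaf 1 [(3,1)]) (.cons (.leaf 2 [(8,1),(11,1)]) (.cons (.leaf 1 [(7,1),(0,1),(11,1)]) (.cons (.leaf 1 [(8,1),(6,1),(3,1)]) (.cons (.leaf 1 [(11,1)]) .nil)))))))))) (.cons (.leaf 1 [(4,1)]) (.cons (.keep [3,7,8,10,11] (.node (.cons (.leaf 2 [(3,1),(10,1)]) (.cons (.leaf 1 [(4,1),(10,1)]) (.cons (.leaf 1 [(3,1),(7,1)]) (.cons (.leaf 1 [(3,1),(7,1)]) (.cons (.leaf 2 [(10,1)]) (.cons (.leaf 1 [(4,1),(10,1)]) (.cons (.leaf 1 [(6,1),(3,1)]) (.cons (.leaf 1 [(10,1)]) .nil)))))))))) (.cons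 (.leaf 1 []) .nil)))))))))) .nil)))))))))) (.cons (.leaf 1 [(9,2),(1,3)]) (.cons (.leaf 1 [(9,2),(1,3)]) (.cons (.leaf 1 [(9,2),(8,3),(6,3),(1,3)]) (.cons (.keep [0,2,7,8,10] (.node (.cons (.keep [6,7,8,10,11] (.node (.cons (.leaf 1 [(3,3),(7,1)]) (.cons (.leaf 1 [(3,2),(4,1)]) (.cons (.leaf 1 [(3,1),(11,1),(10,1)]) (.cons (.leaf 1 [(3,1),(11,1),(10,1)]) (.cons (.leaf 1 [(11,2),(7,1)]) (.cons (.leaf 1 [(11,2),(4,1)]) (.cons (.leaf 1 [(11,2),(7,1),(3,1)]) (.cons (.leaf 1 [(11,2)]) .nil)))))))))) (.cons (.keep [4,5,7,8,10] (.node (.cons (.leaf 1 [(7,3)]) (.cons (.leaf 1 [(5,2),(4,3)]) (.cons (.leaf 1 [(1,1),(7,3)]) (.cons (.leaf 1 [(4,1),(7,2)]) (.cons (.leaf 1 [(1,1),(7,3)]) (.cons (.leaf 1 [(4,1),(7,2)]) (.cons (.leaf 1 [(7,3),(1,1)]) (.cons (.leaf 1 [(7,2)]) .nil)))))))))) (.cons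 (.leaf 1 [(1,1),(11,2)]) (.cons (.leaf 1 [(1,1),(4,2)]) (.cons (.leaf 1 [(10,1),(1,1),(11,2)]) (.cons (.leaf 1 [(1,1),(4,2),(10,1)]) (.cons (.keep [6,7,8,10,11] (.node (.cons (.leaf 1 [(3,1),(11,1)]) (.cons (.leaf 1 [(11,2),(4,1)]) (.cons (.leaf 1 [(3,1),(11,1)]) (.cons (.leaf 1 [(1,1),(11,2),(10,1)]) (.cons (.leaf 1 [(11,1)]) (.cons (.leaf 1 [(11,2),(4,1)]) (.cons (.leaf 1 [(6,1),(3,2)]) (.cons (.leaf 1 [(11,2)]) .nil)))))))))) (.cons (.keep [0,5,8,10] (.node (.cons (.keep [3,4,8,9,10] (.node (.cons (.leaf 1 [(3,1)]) (.cons (.leaf 1 [(3,1)]) (.cons (.leaf 1 [(3,1),(7,1)]) (.cons (.leaf 1 [(3,1),(7,1)]) (.cons (.leaf 2 [(8,1),(11,1)]) (.cons (.leaf 1 [(0,1),(11,1)]) (.cons (.leaf 1 [(8,1),(6,1),(3,1)]) (.cons (.leaf 1 [(11,1)]) .nil)))))))))) (.cons (.leaf 1 [(4,1)]) (.cons (.leaf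 1 [(1,1),(10,1)]) (.cons (.leaf 1 [(4,1)]) (.cons (.keep [1,4,7,8,10] (.node (.cons (.leaf 1 [(7,1),(3,1)]) (.cons (.leaf 1 [(7,1),(3,1)]) (.cons (.leaf 1 [(3,1)]) (.cons (.leaf 1 [(3,1)]) (.cons (.leaf 2 [(8,1),(11,1)]) (.cons (.leaf 1 [(7,1),(0,1),(11,1)]) (.cons (.leaf 1 [(8,1),(6,1),(3,1)]) (.cons (.leaf 1 [(11,1)]) .nil)))))))))) (.cons (.leaf 1 [(4,1)]) (.cons (.keep [3,7,8,9,10] (.node (.cons (.leaf 1 [(10,1),(3,1),(7,1)]) (.cons (.leaf 1 [(10,1),(3,1),(7,1)]) (.cons (.leaf 1 [(3,1),(7,1)]) (.cons (.leaf 1 [(3,1),(7,1)]) (.cons (.leaf 2 [(11,1)]) (.cons (.leaf 1 [(10,1),(0,1),(7,1),(11,1)]) (.cons (.leaf 1 [(6,1),(3,1)]) (.cons (.leaf 1 [(11,1)]) .nil)))))))))) (.cons (.leaf 1 []) .nil)))))))))) .nil)))))))))) .nil)))))))))) (.cons (.keep [3,4,5,8,10] (.leaf 0 [(0,0)])) (.cons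 (.keep [1,6,8,9,10] (.leaf 0 [(1,0)])) (.cons (.keep [1,4,5,9,10] (.leaf 0 [(2,0)])) (.cons (.keep [1,2,6,7,9] (.node (.cons (.leaf 1 [(9,1),(8,1)]) (.cons (.keep [2,4,8,9,10] (.node (.cons (.keep [6,7,8,10,11] (.node (.cons (.leaf 1 [(3,2),(7,1)]) (.cons (.leaf 1 [(3,1),(4,1)]) (.cons (.leaf 1 [(3,1),(9,1),(7,1)]) (.cons (.leaf 1 [(4,1),(9,1)]) (.cons (.leaf 1 [(7,1),(9,1)]) (.cons (.leaf 1 [(4,1),(9,1)]) (.cons (.leaf 1 [(9,1),(7,1),(3,1)]) (.cons (.leaf 1 [(9,1)]) .nil)))))))))) (.cons (.keep [7,8,9,10,11] (.node (.cons (.leaf 1 [(9,2),(3,2)]) (.cons (.leaf 1 [(5,1),(4,2)]) (.cons (.leaf 1 [(3,1),(9,2),(8,1)]) (.cons (.leaf 1 [(4,1),(9,1),(8,1)]) (.cons (.leaf 1 [(9,2),(8,1)]) (.cons (.leaf 1 [(4,2),(5,1),(8,1)]) (.cons (.leaf 1 [(9,2),(8,1),(3,1)]) (.cons (.leaf 1 [(9,1),(8,1)])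 .nil)))))))))) (.cons (.leaf 1 [(1,2),(8,1)]) (.cons (.leaf 1 [(1,1),(4,1)]) (.cons (.leaf 1 [(10,1),(1,2),(8,1)]) (.cons (.leaf 1 [(1,1),(4,1),(10,1)]) (.cons (.keep [1,6,8,10,11] (.node (.cons (.leaf 1 [(3,1)]) (.cons (.leaf 1 [(3,1),(7,1),(4,1)]) (.cons (.leaf 1 [(3,1)]) (.cons (.leaf 1 [(4,1),(9,1),(7,1)]) (.cons (.leaf 1 []) (.cons (.leaf 1 [(4,1),(7,1),(9,1)]) (.cons (.leaf 1 [(3,1)]) (.cons (.leaf 1 [(9,1),(7,1)]) .nil)))))))))) (.cons (.keep [0,5,8,9,10] (.node (.cons (.keep [3,4,8,10,11] (.node (.cons (.leaf 1 [(3,1)]) (.cons (.leaf 1 [(3,1)]) (.cons (.leaf 1 [(3,1),(7,1)]) (.cons (.leaf 1 [(3,1),(7,1)]) (.cons (.leaf 2 [(8,1),(11,1)]) (.cons (.leaf 1 [(0,1),(11,1)]) (.cons (.leaf 1 [(8,1),(6,1),(3,1)]) (.cons (.leaf 1 [(11,1)]) .nil)))))))))) (.cons (.leaf 1 [(4,1)]) (.cons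 (.leaf 1 [(1,1),(11,1)]) (.cons (.leaf 1 [(4,1)]) (.cons (.keep [1,4,7,8,11] (.node (.cons (.leaf 1 [(7,1),(3,1)]) (.cons (.leaf 1 [(7,1),(3,1)]) (.cons (.leaf 1 [(3,1)]) (.cons (.leaf 1 [(3,1)]) (.cons (.leaf 2 [(8,1),(11,1)]) (.cons (.leaf 1 [(7,1),(0,1),(11,1)]) (.cons (.leaf 1 [(8,1),(6,1),(3,1)]) (.cons (.leaf 1 [(11,1)]) .nil)))))))))) (.cons (.leaf 1 [(4,1)]) (.cons (.keep [3,7,8,10,11] (.node (.cons (.leaf 1 [(10,1),(3,1),(7,1)]) (.cons (.leaf 1 [(10,1),(3,1),(7,1)]) (.cons (.leaf 1 [(3,1),(7,1)]) (.cons (.leaf 1 [(3,1),(7,1)]) (.cons (.leaf 2 [(11,1)]) (.cons (.leaf 1 [(10,1),(0,1),(7,1),(11,1)]) (.cons (.leaf 1 [(6,1),(3,1)]) (.cons (.leaf 1 [(11,1)]) .nil)))))))))) (.cons (.leaf 1 []) .nil)))))))))) .nil)))))))))) (.cons (.leaf 1 [(1,1),(9,1),(8,1)]) (.cons (.keep [3,4,8,9,11]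 (.node (.cons (.keep [6,7,8,9,10] (.node (.cons (.leaf 1 [(3,2),(7,1)]) (.cons (.leaf 1 [(3,1),(4,1)]) (.cons (.leaf 1 [(3,2),(8,1),(7,2)]) (.cons (.leaf 1 [(4,2),(8,1)]) (.cons (.leaf 1 [(7,2),(8,1)]) (.cons (.leaf 1 [(4,2),(8,1)]) (.cons (.leaf 1 [(8,1),(7,2),(3,2)]) (.cons (.leaf 1 [(8,1)]) .nil)))))))))) (.cons (.keep [7,8,9,10,11] (.node (.cons (.leaf 1 [(9,2),(8,2)]) (.cons (.leaf 1 [(5,1),(4,2)]) (.cons (.leaf 1 [(1,1),(9,2),(8,2)]) (.cons (.leaf 1 [(4,2),(7,1)]) (.cons (.leaf 1 [(1,3),(8,2)]) (.cons (.leaf 1 [(4,2),(7,1)]) (.cons (.leaf 1 [(9,2),(8,2),(1,1)]) (.cons (.leaf 1 [(7,1)]) .nil)))))))))) (.cons (.leaf 1 [(1,2),(7,1)]) (.cons (.leaf 1 [(1,1),(4,1)]) (.cons (.leaf 2 [(10,2),(1,3),(8,1)]) (.cons (.leaf 1 [(1,1),(4,1),(10,1)]) (.cons (.keep [6,7,8,9,10] (.node (.cons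 (.leaf 1 [(3,1)]) (.cons (.leaf 1 [(8,1),(4,2)]) (.cons (.leaf 1 [(3,1)]) (.cons (.leaf 1 [(4,2),(8,1)]) (.cons (.leaf 1 []) (.cons (.leaf 1 [(4,2),(8,1)]) (.cons (.leaf 1 [(3,1)]) (.cons (.leaf 1 [(8,1)]) .nil)))))))))) (.cons (.keep [0,5,8,9,10] (.node (.cons (.keep [3,4,8,10,11] (.node (.cons (.leaf 1 [(3,1)]) (.cons (.leaf 1 [(3,1)]) (.cons (.leaf 1 [(3,1),(7,1)]) (.cons (.leaf 1 [(3,1),(7,1)]) (.cons (.leaf 2 [(8,1),(11,1)]) (.cons (.leaf 1 [(0,1),(11,1)]) (.cons (.leaf 1 [(8,1),(6,1),(3,1)]) (.cons (.leaf 1 [(11,1)]) .nil)))))))))) (.cons (.leaf 1 [(4,1)]) (.cons (.leaf 1 [(1,1),(11,1)]) (.cons (.leaf 1 [(4,1)]) (.cons (.keep [1,4,7,8,11] (.node (.cons (.leaf 1 [(7,1),(3,1)]) (.cons (.leaf 1 [(7,1),(3,1)]) (.cons (.leaf 1 [(3,1)]) (.cons (.leaf 1 [(3,1)]) (.cons (.leaf 2 [(8,1),(11,1)])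 (.cons (.leaf 1 [(7,1),(0,1),(11,1)]) (.cons (.leaf 1 [(8,1),(6,1),(3,1)]) (.cons (.leaf 1 [(11,1)]) .nil)))))))))) (.cons (.leaf 1 [(4,1)]) (.cons (.keep [3,7,8,10,11] (.node (.cons (.leaf 1 [(10,1),(3,1),(7,1)]) (.cons (.leaf 1 [(10,1),(3,1),(7,1)]) (.cons (.leaf 1 [(3,1),(7,1)]) (.cons (.leaf 1 [(3,1),(7,1)]) (.cons (.leaf 2 [(11,1)]) (.cons (.leaf 1 [(10,1),(0,1),(7,1),(11,1)]) (.cons (.leaf 1 [(6,1),(3,1)]) (.cons (.leaf 1 [(11,1)]) .nil)))))))))) (.cons (.leaf 1 []) .nil)))))))))) .nil)))))))))) (.cons (.leaf 1 [(7,1),(1,1)]) (.cons (.leaf 1 [(7,1),(1,1)]) (.cons (.leaf 1 [(7,1),(9,1),(6,1),(1,1)]) (.cons (.keep [0,2,7,9,11] (.node (.cons (.keep [2,6,8,9,10] (.node (.cons (.leaf 1 [(3,2),(8,1)]) (.cons (.leaf 1 [(3,1),(4,1)]) (.cons (.leaf 1 [(3,1),(10,1),(8,1)]) (.cons (.leaf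 1 [(4,1),(10,1)]) (.cons (.leaf 1 [(8,1),(10,1)]) (.cons (.leaf 1 [(4,1),(10,1)]) (.cons (.leaf 1 [(10,1),(8,1),(3,1)]) (.cons (.leaf 1 [(10,1)]) .nil)))))))))) (.cons (.keep [4,5,7,8,10] (.node (.cons (.leaf 1 [(7,2)]) (.cons (.leaf 1 [(5,1),(4,2)]) (.cons (.leaf 1 [(1,1),(7,2)]) (.cons (.leaf 1 [(4,1),(7,1)]) (.cons (.leaf 1 [(1,1),(7,2)]) (.cons (.leaf 1 [(4,1),(7,1)]) (.cons (.leaf 1 [(7,2),(1,1)]) (.cons (.leaf 1 [(7,1)]) .nil)))))))))) (.cons (.leaf 1 [(1,1),(9,1)]) (.cons (.leaf 1 [(1,1),(4,1)]) (.cons (.leaf 1 [(1,1),(9,1),(10,1)]) (.cons (.leaf 1 [(1,1),(4,1),(10,1)]) (.cons (.keep [6,7,8,9,10] (.node (.cons (.leaf 1 [(3,1)]) (.cons (.leaf 1 [(10,1),(4,1)]) (.cons (.leaf 1 [(3,1)]) (.cons (.leaf 1 [(4,1),(10,1)]) (.cons (.leaf 1 []) (.cons (.leaf 1 [(4,1),(10,1)]) (.cons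 (.leaf 1 [(3,1)]) (.cons (.leaf 1 [(10,1)]) .nil)))))))))) (.cons (.keep [0,5,8,10] (.node (.cons (.keep [3,4,8,9,10] (.node (.cons (.leaf 1 [(3,1)]) (.cons (.leaf 1 [(3,1)]) (.cons (.leaf 1 [(3,1),(7,1)]) (.cons (.leaf 1 [(3,1),(7,1)]) (.cons (.leaf 2 [(8,1),(11,1)]) (.cons (.leaf 1 [(0,1),(11,1)]) (.cons (.leaf 1 [(8,1),(6,1),(3,1)]) (.cons (.leaf 1 [(11,1)]) .nil)))))))))) (.cons (.leaf 1 [(4,1)]) (.cons (.leaf 1 [(1,1),(10,1)]) (.cons (.leaf 1 [(4,1)]) (.cons (.keep [1,4,7,8,10] (.node (.cons (.leaf 1 [(7,1),(3,1)]) (.cons (.leaf 1 [(7,1),(3,1)]) (.cons (.leaf 1 [(3,1)]) (.cons (.leaf 1 [(3,1)]) (.cons (.leaf 2 [(8,1),(11,1)]) (.cons (.leaf 1 [(7,1),(0,1),(11,1)]) (.cons (.leaf 1 [(8,1),(6,1),(3,1)]) (.cons (.leaf 1 [(11,1)]) .nil)))))))))) (.cons (.leaf 1 [(4,1)]) (.cons (.keep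 [3,7,8,9,10] (.node (.cons (.leaf 1 [(10,1),(3,1),(7,1)]) (.cons (.leaf 1 [(10,1),(3,1),(7,1)]) (.cons (.leaf 1 [(3,1),(7,1)]) (.cons (.leaf 1 [(3,1),(7,1)]) (.cons (.leaf 2 [(11,1)]) (.cons (.leaf 1 [(10,1),(0,1),(7,1),(11,1)]) (.cons (.leaf 1 [(6,1),(3,1)]) (.cons (.leaf 1 [(11,1)]) .nil)))))))))) (.cons (.leaf 1 []) .nil)))))))))) .nil)))))))))) .nil)))))))))) (.cons (.keep [1,2,4,5,9] (.leaf 0 [(3,0)])) (.cons (.leaf 1 [(1,2),(6,3),(8,2)]) (.cons (.keep [0,1,8,10] (.node (.cons (.keep [4,7,9,10] (.node (.cons (.leaf 1 [(7,2)]) (.cons (.leaf 1 [(4,2)]) (.cons (.leaf 1 [(1,2),(7,2)]) (.cons (.leaf 1 [(4,2)]) (.cons (.leaf 1 [(1,2),(7,2)]) (.cons (.leaf 1 [(4,2)]) (.cons (.leaf 1 [(7,2),(1,2)]) (.cons (.leaf 1 []) .nil)))))))))) (.cons (.leaf 1 [(4,2),(10,2)]) (.cons (.leaf 1 [(1,2)])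 (.cons (.leaf 1 [(1,2)]) (.cons (.leaf 1 [(9,2),(1,2)]) (.cons (.leaf 1 [(9,2),(1,2)]) (.cons (.keep [1,7,9,10] (.node (.cons (.leaf 1 [(10,1),(3,1)]) (.cons (.leaf 1 [(4,2)]) (.cons (.leaf 1 [(1,2),(9,2)]) (.cons (.leaf 1 [(4,2)]) (.cons (.leaf 1 [(10,1)]) (.cons (.leaf 1 [(4,2)]) (.cons (.leaf 1 [(10,1),(3,1)]) (.cons (.leaf 1 []) .nil)))))))))) (.cons (.leaf 1 [(10,2)]) .nil)))))))))) .nil)))))))))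

theorem c_23_24_14 : Concl 23 24 z_23_24_14 h_23_24_14 .nd := piece _ (hP_cons E52.c_23_24_12
  (hP_cons E52.c_23_24_11 (hP_cons E51.c_23_24_10 (hP_cons E52.c_23_24_13 hP_nil)))) t_23_24_14 _
  _ (by decide +kernel)

def z_23_24_19 : F := ⟨1, -1, 0, 0, 1⟩

def h_23_24_19 : List F := [⟨1, -1, 0, 0, 0⟩, ⟨0, 0, 1, -1, 0⟩, ⟨0, 0, 1, 0, 1⟩, ⟨0, 1, -1, 0, 0⟩,
  ⟨0, -1, 0, 0, 1⟩]

def t_23_24_19 : T := (.node (.cons (.keep [2,6,8,9,10] (.leaf 0 [(0,0)])) (.cons (.keep [2,5,7,9,10] (.leaf 0 [(1,0)])) (.cons (.keep [3,6,8,9,11] (.node (.cons (.leaf 1 [(8,1),(11,1)]) (.cons (.keep [7,8,9,10,11] (.node (.cons (.keep [6,8,9,10,11] (.node (.cons (.leaf 1 [(7,1),(3,1)]) (.cons (.leaf 1 [(4,1)]) (.cons (.leaf 1 [(3,1),(7,1)]) (.cons (.leaf 1 [(4,1)]) (.cons (.leaf 1 [(7,1)]) (.cons (.leaf 1 [(4,1)])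 (.cons (.leaf 1 [(7,1),(3,1)]) (.cons (.leaf 1 []) .nil)))))))))) (.cons (.keep [2,4,5,8,11] (.node (.cons (.leaf 1 [(8,1)]) (.cons (.leaf 1 [(4,1)]) (.cons (.leaf 1 [(1,1),(8,1)]) (.cons (.leaf 1 [(4,1)]) (.cons (.leaf 1 [(1,1),(8,1)]) (.cons (.leaf 1 [(4,1)]) (.cons (.leaf 1 [(8,1),(1,1)]) (.cons (.leaf 1 []) .nil)))))))))) (.cons (.leaf 1 [(1,1)]) (.cons (.leaf 1 [(1,1)]) (.cons (.leaf 1 [(8,1),(1,1)]) (.cons (.leaf 1 [(8,1),(1,1)]) (.cons (.keep [7,8,9,10,11] (.node (.cons (.leaf 1 [(7,1)]) (.cons (.leaf 1 [(4,1)]) (.cons (.leaf 1 [(1,1),(7,1)]) (.cons (.leaf 1 [(4,1)]) (.cons (.leaf 1 [(1,1),(7,1)]) (.cons (.leaf 1 [(4,1)]) (.cons (.leaf 1 [(7,1),(1,1)]) (.cons (.leaf 1 []) .nil)))))))))) (.cons (.keep [0,5,7,8,11] (.node (.cons (.keep [3,4,8,10,11] (.node (.cons (.leaf 1 [(3,1)])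 (.cons (.leaf 1 [(3,1)]) (.cons (.leaf 1 [(3,1),(7,1)]) (.cons (.leaf 1 [(3,1),(7,1)]) (.cons (.leaf 2 [(8,1),(10,1)]) (.cons (.leaf 1 [(0,1),(10,1)]) (.cons (.leaf 1 [(8,1),(6,1),(3,1)]) (.cons (.leaf 1 [(10,1)]) .nil)))))))))) (.cons (.leaf 1 [(4,1)]) (.cons (.leaf 1 [(1,1),(10,1)]) (.cons (.leaf 1 [(4,1)]) (.cons (.keep [1,4,7,8,10] (.node (.cons (.leaf 1 [(7,1),(3,1)]) (.cons (.leaf 1 [(7,1),(3,1)]) (.cons (.leaf 1 [(3,1)]) (.cons (.leaf 1 [(3,1)]) (.cons (.leaf 2 [(8,1),(11,1)]) (.cons (.leaf 1 [(7,1),(0,1),(11,1)]) (.cons (.leaf 1 [(8,1),(6,1),(3,1)]) (.cons (.leaf 1 [(11,1)]) .nil)))))))))) (.cons (.leaf 1 [(4,1)]) (.cons (.keep [3,7,8,10,11] (.node (.cons (.leaf 2 [(3,1),(10,1)]) (.cons (.leaf 1 [(4,1),(10,1)]) (.cons (.leaf 1 [(3,1),(7,1)]) (.cons (.leaf 1 [(3,1),(7,1)])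 (.cons (.leaf 2 [(10,1)]) (.cons (.leaf 1 [(4,1),(10,1)]) (.cons (.leaf 1 [(6,1),(3,1)]) (.cons (.leaf 1 [(10,1)]) .nil)))))))))) (.cons (.leaf 1 []) .nil)))))))))) .nil)))))))))) (.cons (.leaf 1 [(1,1),(8,1),(11,1)]) (.cons (.keep [1,3,7,8,11] (.node (.cons (.keep [6,7,8,10,11] (.node (.cons (.leaf 1 [(7,1),(3,1)]) (.cons (.leaf 1 [(4,1)]) (.cons (.leaf 1 [(3,1),(7,1)]) (.cons (.leaf 1 [(4,1)]) (.cons (.leaf 1 [(7,1)]) (.cons (.leaf 1 [(4,1)]) (.cons (.leaf 1 [(7,1),(3,1)]) (.cons (.leaf 1 []) .nil)))))))))) (.cons (.keep [2,4,9,10,11] (.node (.cons (.leaf 1 [(8,1)]) (.cons (.leaf 1 [(4,1)]) (.cons (.leaf 1 [(1,1),(8,1)]) (.cons (.leaf 1 [(4,1)]) (.cons (.leaf 1 [(1,1),(8,1)]) (.cons (.leaf 1 [(4,1)]) (.cons (.leaf 1 [(8,1),(1,1)]) (.cons (.leaf 1 []) .nil)))))))))) (.cons (.leaf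 1 [(1,1)]) (.cons (.leaf 1 [(1,1)]) (.cons (.leaf 1 [(10,1),(1,1)]) (.cons (.leaf 1 [(10,1),(1,1)]) (.cons (.keep [7,8,9,10,11] (.node (.cons (.leaf 1 [(11,1),(3,2)]) (.cons (.leaf 1 [(4,1)]) (.cons (.leaf 1 [(1,1),(10,1)]) (.cons (.leaf 1 [(4,1)]) (.cons (.leaf 1 [(11,1),(9,1)]) (.cons (.leaf 1 [(4,1)]) (.cons (.leaf 1 [(11,1),(9,1),(3,1)]) (.cons (.leaf 1 []) .nil)))))))))) (.cons (.keep [0,5,9,10,11] (.node (.cons (.keep [3,4,8,10,11] (.node (.cons (.leaf 1 [(3,1)]) (.cons (.leaf 1 [(3,1)]) (.cons (.leaf 1 [(3,1),(7,1)]) (.cons (.leaf 1 [(3,1),(7,1)]) (.cons (.leaf 2 [(8,1),(10,1)]) (.cons (.leaf 1 [(0,1),(10,1)]) (.cons (.leaf 1 [(8,1),(6,1),(3,1)]) (.cons (.leaf 1 [(10,1)]) .nil)))))))))) (.cons (.leaf 1 [(4,1)]) (.cons (.leaf 1 [(1,1),(10,1)]) (.cons (.leaf 1 [(4,1)]) (.cons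 (.keep [1,4,7,8,10] (.node (.cons (.leaf 1 [(7,1),(3,1)]) (.cons (.leaf 1 [(7,1),(3,1)]) (.cons (.leaf 1 [(3,1)]) (.cons (.leaf 1 [(3,1)]) (.cons (.leaf 2 [(8,1),(11,1)]) (.cons (.leaf 1 [(7,1),(0,1),(11,1)]) (.cons (.leaf 1 [(8,1),(6,1),(3,1)]) (.cons (.leaf 1 [(11,1)]) .nil)))))))))) (.cons (.leaf 1 [(4,1)]) (.cons (.keep [3,7,8,10,11] (.node (.cons (.leaf 2 [(3,1),(10,1)]) (.cons (.leaf 1 [(4,1),(10,1)]) (.cons (.leaf 1 [(3,1),(7,1)]) (.cons (.leaf 1 [(3,1),(7,1)]) (.cons (.leaf 2 [(10,1)]) (.cons (.leaf 1 [(4,1),(10,1)]) (.cons (.leaf 1 [(6,1),(3,1)]) (.cons (.leaf 1 [(10,1)]) .nil)))))))))) (.cons (.leaf 1 []) .nil)))))))))) .nil)))))))))) (.cons (.leaf 1 [(1,1)]) (.cons (.leaf 1 [(1,1)]) (.cons (.leaf 1 [(8,1),(6,1),(1,1)]) (.cons (.keep [0,2,7,8,10] (.node (.cons (.keep [6,7,8,10,11]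 (.node (.cons (.leaf 1 [(7,1),(3,1)]) (.cons (.leaf 1 [(4,1)]) (.cons (.leaf 1 [(3,1),(7,1)]) (.cons (.leaf 1 [(4,1)]) (.cons (.leaf 1 [(7,1)]) (.cons (.leaf 1 [(4,1)]) (.cons (.leaf 1 [(7,1),(3,1)]) (.cons (.leaf 1 []) .nil)))))))))) (.cons (.keep [4,5,7,8,10] (.node (.cons (.leaf 1 [(7,1)]) (.cons (.leaf 1 [(4,1)]) (.cons (.leaf 1 [(1,1),(7,1)]) (.cons (.leaf 1 [(4,1)]) (.cons (.leaf 1 [(1,1),(7,1)]) (.cons (.leaf 1 [(4,1)]) (.cons (.leaf 1 [(7,1),(1,1)]) (.cons (.leaf 1 []) .nil)))))))))) (.cons (.leaf 1 [(1,1)]) (.cons (.leaf 1 [(1,1)]) (.cons (.leaf 1 [(10,1),(1,1)]) (.cons (.leaf 1 [(10,1),(1,1)]) (.cons (.keep [6,7,8,10,11] (.node (.cons (.leaf 1 [(7,1),(3,1)]) (.cons (.leaf 1 [(4,1)]) (.cons (.leaf 1 [(3,1),(7,1)]) (.cons (.leaf 1 [(4,1)]) (.cons (.leaf 1 [(7,1)]) (.cons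 (.leaf 1 [(4,1)]) (.cons (.leaf 1 [(7,1),(3,1)]) (.cons (.leaf 1 []) .nil)))))))))) (.cons (.keep [0,5,8,10] (.node (.cons (.keep [3,4,8,9,10] (.node (.cons (.leaf 1 [(3,1)]) (.cons (.leaf 1 [(3,1)]) (.cons (.leaf 1 [(3,1),(7,1)]) (.cons (.leaf 1 [(3,1),(7,1)]) (.cons (.leaf 2 [(8,1),(11,1)]) (.cons (.leaf 1 [(0,1),(11,1)]) (.cons (.leaf 1 [(8,1),(6,1),(3,1)]) (.cons (.leaf 1 [(11,1)]) .nil)))))))))) (.cons (.leaf 1 [(4,1)]) (.cons (.leaf 1 [(1,1),(10,1)]) (.cons (.leaf 1 [(4,1)]) (.cons (.keep [1,4,7,8,10] (.node (.cons (.leaf 1 [(7,1),(3,1)]) (.cons (.leaf 1 [(7,1),(3,1)]) (.cons (.leaf 1 [(3,1)]) (.cons (.leaf 1 [(3,1)]) (.cons (.leaf 2 [(8,1),(11,1)]) (.cons (.leaf 1 [(7,1),(0,1),(11,1)]) (.cons (.leaf 1 [(8,1),(6,1),(3,1)]) (.cons (.leaf 1 [(11,1)]) .nil)))))))))) (.cons (.leaf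 1 [(4,1)]) (.cons (.keep [3,7,8,9,10] (.node (.cons (.leaf 1 [(10,1),(3,1),(7,1)]) (.cons (.leaf 1 [(10,1),(3,1),(7,1)]) (.cons (.leaf 1 [(3,1),(7,1)]) (.cons (.leaf 1 [(3,1),(7,1)]) (.cons (.leaf 2 [(11,1)]) (.cons (.leaf 1 [(10,1),(0,1),(7,1),(11,1)]) (.cons (.leaf 1 [(6,1),(3,1)]) (.cons (.leaf 1 [(11,1)]) .nil)))))))))) (.cons (.leaf 1 []) .nil)))))))))) .nil)))))))))) .nil)))))))))) (.cons (.keep [3,4,5,9,11] (.node (.cons (.leaf 1 [(11,1)]) (.cons (.keep [5,7,9,10,11] (.node (.cons (.keep [6,7,9,10,11] (.node (.cons (.leaf 1 [(3,1),(7,1),(9,1)]) (.cons (.leaf 1 [(4,1),(9,1)]) (.cons (.leaf 1 [(1,1)]) (.cons (.leaf 1 [(1,1)]) (.cons (.leaf 1 [(7,1),(9,1)]) (.cons (.leaf 1 [(4,1),(9,1)]) (.cons (.leaf 1 [(3,1),(7,1),(9,1)]) (.cons (.leaf 1 [(9,1)]) .nil)))))))))) (.cons (.keep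 [4,5,7,9,11] (.node (.cons (.leaf 1 [(7,1),(10,1)]) (.cons (.leaf 1 [(4,1),(10,1)]) (.cons (.leaf 1 [(1,1)]) (.cons (.leaf 1 [(1,1)]) (.cons (.leaf 1 [(7,1),(1,1),(10,1)]) (.cons (.leaf 1 [(4,1),(10,1)]) (.cons (.leaf 1 [(7,1),(10,1),(1,1)]) (.cons (.leaf 1 [(10,1)]) .nil)))))))))) (.cons (.leaf 1 [(1,1),(9,1)]) (.cons (.leaf 1 [(1,1),(9,1)]) (.cons (.leaf 1 [(1,1)]) (.cons (.leaf 1 [(1,1)]) (.cons (.keep [7,8,9,10,11] (.node (.cons (.leaf 1 [(8,1),(9,1)]) (.cons (.leaf 1 [(4,1),(9,1)]) (.cons (.leaf 1 [(1,1)]) (.cons (.leaf 1 [(1,1)]) (.cons (.leaf 1 [(8,1),(1,1),(9,1)]) (.cons (.leaf 1 [(4,1),(9,1)]) (.cons (.leaf 1 [(8,1),(9,1),(1,1)]) (.cons (.leaf 1 [(9,1)]) .nil)))))))))) (.cons (.keep [0,5,8,9,11] (.node (.cons (.keep [3,4,7,8,10,11] (.node (.cons (.leaf 1 [(8,1)]) (.cons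 (.leaf 1 [(4,1)]) (.cons (.leaf 1 [(1,1),(8,1)]) (.cons (.leaf 1 [(4,1)]) (.cons (.leaf 1 [(1,1),(8,1)]) (.cons (.leaf 1 [(4,1)]) (.cons (.leaf 1 [(8,1),(1,1)]) (.cons (.leaf 1 []) .nil)))))))))) (.cons (.leaf 1 [(4,1),(10,1)]) (.cons (.leaf 1 [(1,1)]) (.cons (.leaf 1 [(1,1)]) (.cons (.keep [1,4,7,8,10] (.node (.cons (.leaf 1 [(8,1),(2,1)]) (.cons (.leaf 1 [(4,1)]) (.cons (.leaf 1 [(8,1)]) (.cons (.leaf 1 [(4,1)]) (.cons (.leaf 1 [(8,1),(2,1)]) (.cons (.leaf 1 [(4,1)]) (.cons (.leaf 1 [(8,1),(2,1)]) (.cons (.leaf 1 []) .nil)))))))))) (.cons (.leaf 1 [(4,1),(10,1)]) (.cons (.keep [3,7,8,10,11] (.node (.cons (.leaf 2 [(10,1),(3,1)]) (.cons (.leaf 1 [(4,1)]) (.cons (.leaf 2 [(3,1),(10,1)]) (.cons (.leaf 1 [(4,1)]) (.cons (.leaf 2 [(10,1)]) (.cons (.leaf 1 [(4,1)]) (.cons (.leaf 2 [(10,1),(3,1)])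 (.cons (.leaf 1 []) .nil)))))))))) (.cons (.leaf 1 [(10,1)]) .nil)))))))))) .nil)))))))))) (.cons (.leaf 1 [(1,1),(11,1)]) (.cons (.keep [1,7,8,9,11] (.node (.cons (.keep [6,7,9,10,11] (.node (.cons (.leaf 1 [(3,1),(7,1),(10,1)]) (.cons (.leaf 1 [(4,1),(10,1)]) (.cons (.leaf 1 [(1,1)]) (.cons (.leaf 1 [(1,1)]) (.cons (.leaf 1 [(7,1),(10,1)]) (.cons (.leaf 1 [(4,1),(10,1)]) (.cons (.leaf 1 [(3,1),(7,1),(10,1)]) (.cons (.leaf 1 [(10,1)]) .nil)))))))))) (.cons (.keep [4,8,9,10,11] (.node (.cons (.leaf 1 [(7,1),(10,1)]) (.cons (.leaf 1 [(4,1),(10,1)]) (.cons (.leaf 1 [(1,1)]) (.cons (.leaf 1 [(1,1)]) (.cons (.leaf 1 [(7,1),(1,1),(10,1)]) (.cons (.leaf 1 [(4,1),(10,1)]) (.cons (.leaf 1 [(7,1),(10,1),(1,1)]) (.cons (.leaf 1 [(10,1)]) .nil)))))))))) (.cons (.leaf 1 [(1,1),(10,1)]) (.cons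 (.leaf 1 [(1,1),(10,1)]) (.cons (.leaf 1 [(1,1)]) (.cons (.leaf 1 [(1,1)]) (.cons (.keep [7,8,9,10,11] (.node (.cons (.leaf 1 [(3,2),(11,1),(10,1)]) (.cons (.leaf 1 [(4,1),(10,1)]) (.cons (.leaf 1 [(1,1)]) (.cons (.leaf 1 [(1,1)]) (.cons (.leaf 1 [(8,1),(11,1),(10,1)]) (.cons (.leaf 1 [(4,1),(10,1)]) (.cons (.leaf 1 [(8,1),(11,1),(10,1),(3,1)]) (.cons (.leaf 1 [(10,1)]) .nil)))))))))) (.cons (.keep [0,5,8,10,11] (.node (.cons (.keep [3,4,7,8,10,11] (.node (.cons (.leaf 1 [(8,1)]) (.cons (.leaf 1 [(4,1)]) (.cons (.leaf 1 [(1,1),(8,1)]) (.cons (.leaf 1 [(4,1)]) (.cons (.leaf 1 [(1,1),(8,1)]) (.cons (.leaf 1 [(4,1)]) (.cons (.leaf 1 [(8,1),(1,1)]) (.cons (.leaf 1 []) .nil)))))))))) (.cons (.leaf 1 [(4,1),(10,1)]) (.cons (.leaf 1 [(1,1)]) (.cons (.leaf 1 [(1,1)]) (.cons (.keep [1,4,7,8,10]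 (.node (.cons (.leaf 1 [(8,1),(2,1)]) (.cons (.leaf 1 [(4,1)]) (.cons (.leaf 1 [(8,1)]) (.cons (.leaf 1 [(4,1)]) (.cons (.leaf 1 [(8,1),(2,1)]) (.cons (.leaf 1 [(4,1)]) (.cons (.leaf 1 [(8,1),(2,1)]) (.cons (.leaf 1 []) .nil)))))))))) (.cons (.leaf 1 [(4,1),(10,1)]) (.cons (.keep [3,7,8,10,11] (.node (.cons (.leaf 2 [(10,1),(3,1)]) (.cons (.leaf 1 [(4,1)]) (.cons (.leaf 2 [(3,1),(10,1)]) (.cons (.leaf 1 [(4,1)]) (.cons (.leaf 2 [(10,1)]) (.cons (.leaf 1 [(4,1)]) (.cons (.leaf 2 [(10,1),(3,1)]) (.cons (.leaf 1 []) .nil)))))))))) (.cons (.leaf 1 [(10,1)]) .nil)))))))))) .nil)))))))))) (.cons (.leaf 1 [(1,1),(9,1)]) (.cons (.leaf 1 [(1,1),(9,1)]) (.cons (.leaf 1 [(6,1),(1,1)]) (.cons (.keep [0,2,7,9,10] (.node (.cons (.keep [6,7,8,10,11] (.node (.cons (.leaf 1 [(3,1),(7,1),(10,1)])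 (.cons (.leaf 1 [(4,1),(10,1)]) (.cons (.leaf 1 [(1,1)]) (.cons (.leaf 1 [(1,1)]) (.cons (.leaf 1 [(7,1),(10,1)]) (.cons (.leaf 1 [(4,1),(10,1)]) (.cons (.leaf 1 [(3,1),(7,1),(10,1)]) (.cons (.leaf 1 [(10,1)]) .nil)))))))))) (.cons (.keep [4,5,7,8,10] (.node (.cons (.leaf 1 [(7,1),(11,1)]) (.cons (.leaf 1 [(4,1),(11,1)]) (.cons (.leaf 1 [(1,1)]) (.cons (.leaf 1 [(1,1)]) (.cons (.leaf 1 [(7,1),(1,1),(11,1)]) (.cons (.leaf 1 [(4,1),(11,1)]) (.cons (.leaf 1 [(1,1),(7,1),(11,1)]) (.cons (.leaf 1 [(11,1)]) .nil)))))))))) (.cons (.leaf 1 [(1,1),(10,1)]) (.cons (.leaf 1 [(1,1),(10,1)]) (.cons (.leaf 1 [(1,1)]) (.cons (.leaf 1 [(1,1)]) (.cons (.keep [6,7,8,10,11] (.node (.cons (.leaf 1 [(3,2),(9,1),(10,1)]) (.cons (.leaf 1 [(4,1),(10,1)]) (.cons (.leaf 1 [(1,1)]) (.cons (.leaf 1 [(1,1)])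 (.cons (.leaf 1 [(7,1),(10,1)]) (.cons (.leaf 1 [(4,1),(10,1)]) (.cons (.leaf 1 [(3,1),(7,1),(10,1)]) (.cons (.leaf 1 [(10,1)]) .nil)))))))))) (.cons (.keep [0,5,8,10] (.node (.cons (.keep [3,4,7,8,9,10] (.node (.cons (.leaf 1 [(8,1)]) (.cons (.leaf 1 [(4,1)]) (.cons (.leaf 1 [(1,1),(8,1)]) (.cons (.leaf 1 [(4,1)]) (.cons (.leaf 1 [(1,1),(8,1)]) (.cons (.leaf 1 [(4,1)]) (.cons (.leaf 1 [(8,1),(1,1)]) (.cons (.leaf 1 []) .nil)))))))))) (.cons (.leaf 1 [(4,1),(10,1)]) (.cons (.leaf 1 [(1,1)]) (.cons (.leaf 1 [(1,1)]) (.cons (.keep [1,4,7,8,10] (.node (.cons (.leaf 1 [(8,1),(2,1)]) (.cons (.leaf 1 [(4,1)]) (.cons (.leaf 1 [(8,1)]) (.cons (.leaf 1 [(4,1)]) (.cons (.leaf 1 [(8,1),(2,1)]) (.cons (.leaf 1 [(4,1)]) (.cons (.leaf 1 [(8,1),(2,1)]) (.cons (.leaf 1 []) .nil)))))))))) (.cons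 (.leaf 1 [(4,1),(10,1)]) (.cons (.keep [3,7,8,9,10] (.node (.cons (.leaf 2 [(11,1),(3,1)]) (.cons (.leaf 1 [(4,1)]) (.cons (.leaf 2 [(3,1),(11,1)]) (.cons (.leaf 1 [(4,1)]) (.cons (.leaf 2 [(11,1)]) (.cons (.leaf 1 [(4,1)]) (.cons (.leaf 2 [(11,1),(3,1)]) (.cons (.leaf 1 []) .nil)))))))))) (.cons (.leaf 1 [(10,1)]) .nil)))))))))) .nil)))))))))) .nil)))))))))) (.cons (.keep [1,6,8,10,11] (.leaf 0 [(2,0)])) (.cons (.keep [1,5,7,10,11] (.leaf 0 [(3,0)])) (.cons (.leaf 1 [(1,1),(8,1),(6,2),(10,1)]) (.cons (.leaf 1 [(10,1),(9,1)]) .nil)))))))))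

theorem c_23_24_19 : Concl 23 24 z_23_24_19 h_23_24_19 .nd := piece _ (hP_cons E52.c_23_24_17
  (hP_cons E52.c_23_24_15 (hP_cons E52.c_23_24_18 (hP_cons E52.c_23_24_16 hP_nil)))) t_23_24_19 _
  _ (by decide +kernel)

def z_23_24_24 : F := ⟨1, 0, -1, 0, 1⟩

def h_23_24_24 : List F := [⟨1, 0, 0, 0, 0⟩, ⟨0, 0, 1, -1, 0⟩, ⟨0, 0, 1, 0, 1⟩, ⟨0, -1, 1, 0, 0⟩,
  ⟨0, 0, -1, 0, 1⟩]

def t_23_24_24 : T := (.node (.cons (.keep [3,6,8,9,10] (.leaf 0 [(0,0)])) (.cons (.keep [3,4,5,9,10] (.leaf 0 [(1,0)])) (.cons (.keep [3,6,8,9,10,11] (.leaf 0 [(2,0)])) (.cons (.keep [3,4,5,9,10,11] (.leaf 0 [(3,0)])) (.cons (.keep [1,2,6,7,11] (.node (.cons (.leaf 1 [(8,1),(9,1),(2,1)]) (.cons (.keep [2,4,8,9,10] (.node (.cons (.keep [6,7,8,10,11] (.node (.cons (.leaf 1 [(7,1),(3,1)]) (.cons (.leaf 1 [(4,1)])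 (.cons (.leaf 1 [(3,1),(7,1)]) (.cons (.leaf 1 [(4,1)]) (.cons (.leaf 1 [(7,1)]) (.cons (.leaf 1 [(4,1)]) (.cons (.leaf 1 [(7,1),(3,1)]) (.cons (.leaf 1 []) .nil)))))))))) (.cons (.keep [2,7,8,9,10] (.node (.cons (.leaf 1 [(10,1),(3,1)]) (.cons (.leaf 1 [(4,1)]) (.cons (.leaf 1 [(3,1),(10,1)]) (.cons (.leaf 1 [(4,1)]) (.cons (.leaf 1 [(10,1)]) (.cons (.leaf 1 [(4,1)]) (.cons (.leaf 1 [(10,1),(3,1)]) (.cons (.leaf 1 []) .nil)))))))))) (.cons (.leaf 1 [(1,1)]) (.cons (.leaf 1 [(1,1)]) (.cons (.leaf 1 [(10,1),(1,1)]) (.cons (.leaf 1 [(10,1),(1,1)]) (.cons (.keep [1,6,8,10,11] (.node (.cons (.leaf 1 [(8,1),(3,1)]) (.cons (.leaf 1 [(4,1)]) (.cons (.leaf 1 [(3,1),(8,1)]) (.cons (.leaf 1 [(4,1)]) (.cons (.leaf 1 [(8,1)]) (.cons (.leaf 1 [(4,1)]) (.cons (.leaf 1 [(8,1),(3,1)]) (.cons (.leaf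 1 []) .nil)))))))))) (.cons (.keep [0,5,8,9,10] (.node (.cons (.keep [3,4,8,10,11] (.node (.cons (.leaf 1 [(3,1)]) (.cons (.leaf 1 [(3,1)]) (.cons (.leaf 1 [(3,1),(7,1)]) (.cons (.leaf 1 [(3,1),(7,1)]) (.cons (.leaf 2 [(8,1),(11,1)]) (.cons (.leaf 1 [(0,1),(11,1)]) (.cons (.leaf 1 [(8,1),(6,1),(3,1)]) (.cons (.leaf 1 [(11,1)]) .nil)))))))))) (.cons (.leaf 1 [(4,1)]) (.cons (.leaf 1 [(1,1),(11,1)]) (.cons (.leaf 1 [(4,1)]) (.cons (.keep [1,4,7,8,11] (.node (.cons (.leaf 1 [(7,1),(3,1)]) (.cons (.leaf 1 [(7,1),(3,1)]) (.cons (.leaf 1 [(3,1)]) (.cons (.leaf 1 [(3,1)]) (.cons (.leaf 2 [(8,1),(11,1)]) (.cons (.leaf 1 [(7,1),(0,1),(11,1)]) (.cons (.leaf 1 [(8,1),(6,1),(3,1)]) (.cons (.leaf 1 [(11,1)]) .nil)))))))))) (.cons (.leaf 1 [(4,1)]) (.cons (.keep [3,7,8,10,11] (.node (.cons (.leaf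 1 [(10,1),(3,1),(7,1)]) (.cons (.leaf 1 [(10,1),(3,1),(7,1)]) (.cons (.leaf 1 [(3,1),(7,1)]) (.cons (.leaf 1 [(3,1),(7,1)]) (.cons (.leaf 2 [(11,1)]) (.cons (.leaf 1 [(10,1),(0,1),(7,1),(11,1)]) (.cons (.leaf 1 [(6,1),(3,1)]) (.cons (.leaf 1 [(11,1)]) .nil)))))))))) (.cons (.leaf 1 []) .nil)))))))))) .nil)))))))))) (.cons (.leaf 1 [(9,1),(8,1)]) (.cons (.keep [3,4,8,9,11] (.node (.cons (.keep [6,7,8,9,10] (.node (.cons (.leaf 1 [(7,1),(3,1)]) (.cons (.leaf 1 [(4,1)]) (.cons (.leaf 1 [(3,1),(7,1)]) (.cons (.leaf 1 [(4,1)]) (.cons (.leaf 1 [(7,1)]) (.cons (.leaf 1 [(4,1)]) (.cons (.leaf 1 [(7,1),(3,1)]) (.cons (.leaf 1 []) .nil)))))))))) (.cons (.keep [2,8,9,10,11] (.node (.cons (.leaf 1 [(9,1),(8,1)]) (.cons (.leaf 1 [(4,1)]) (.cons (.leaf 1 [(1,1),(9,1),(8,1)]) (.cons (.leaf 1 [(4,1)])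 (.cons (.leaf 1 [(1,2),(8,1)]) (.cons (.leaf 1 [(4,1)]) (.cons (.leaf 1 [(9,1),(8,1),(1,1)]) (.cons (.leaf 1 []) .nil)))))))))) (.cons (.leaf 1 [(1,1)]) (.cons (.leaf 1 [(1,1)]) (.cons (.leaf 1 [(10,1),(1,1)]) (.cons (.leaf 1 [(10,1),(1,1)]) (.cons (.keep [6,7,8,9,10] (.node (.cons (.leaf 1 [(7,1),(3,1)]) (.cons (.leaf 1 [(4,1)]) (.cons (.leaf 1 [(3,1),(7,1)]) (.cons (.leaf 1 [(4,1)]) (.cons (.leaf 1 [(7,1)]) (.cons (.leaf 1 [(4,1)]) (.cons (.leaf 1 [(7,1),(3,1)]) (.cons (.leaf 1 []) .nil)))))))))) (.cons (.keep [0,5,8,9,10] (.node (.cons (.keep [3,4,8,10,11] (.node (.cons (.leaf 1 [(3,1)]) (.cons (.leaf 1 [(3,1)]) (.cons (.leaf 1 [(3,1),(7,1)]) (.cons (.leaf 1 [(3,1),(7,1)]) (.cons (.leaf 2 [(8,1),(11,1)]) (.cons (.leaf 1 [(0,1),(11,1)]) (.cons (.leaf 1 [(8,1),(6,1),(3,1)]) (.cons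 (.leaf 1 [(11,1)]) .nil)))))))))) (.cons (.leaf 1 [(4,1)]) (.cons (.leaf 1 [(1,1),(11,1)]) (.cons (.leaf 1 [(4,1)]) (.cons (.keep [1,4,7,8,11] (.node (.cons (.leaf 1 [(7,1),(3,1)]) (.cons (.leaf 1 [(7,1),(3,1)]) (.cons (.leaf 1 [(3,1)]) (.cons (.leaf 1 [(3,1)]) (.cons (.leaf 2 [(8,1),(11,1)]) (.cons (.leaf 1 [(7,1),(0,1),(11,1)]) (.cons (.leaf 1 [(8,1),(6,1),(3,1)]) (.cons (.leaf 1 [(11,1)]) .nil)))))))))) (.cons (.leaf 1 [(4,1)]) (.cons (.keep [3,7,8,10,11] (.node (.cons (.leaf 1 [(10,1),(3,1),(7,1)]) (.cons (.leaf 1 [(10,1),(3,1),(7,1)]) (.cons (.leaf 1 [(3,1),(7,1)]) (.cons (.leaf 1 [(3,1),(7,1)]) (.cons (.leaf 2 [(11,1)]) (.cons (.leaf 1 [(10,1),(0,1),(7,1),(11,1)]) (.cons (.leaf 1 [(6,1),(3,1)]) (.cons (.leaf 1 [(11,1)]) .nil)))))))))) (.cons (.leaf 1 []) .nil)))))))))) .nil))))))))))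 (.cons (.leaf 1 [(1,1)]) (.cons (.leaf 1 [(1,1)]) (.cons (.leaf 1 [(9,1),(6,1),(1,1)]) (.cons (.keep [0,2,7,9,11] (.node (.cons (.keep [6,7,8,9,10] (.node (.cons (.leaf 1 [(7,1),(3,1)]) (.cons (.leaf 1 [(4,1)]) (.cons (.leaf 1 [(3,1),(7,1)]) (.cons (.leaf 1 [(4,1)]) (.cons (.leaf 1 [(7,1)]) (.cons (.leaf 1 [(4,1)]) (.cons (.leaf 1 [(7,1),(3,1)]) (.cons (.leaf 1 []) .nil)))))))))) (.cons (.keep [4,5,7,8,10] (.node (.cons (.leaf 1 [(7,1)]) (.cons (.leaf 1 [(4,1)]) (.cons (.leaf 1 [(1,1),(7,1)]) (.cons (.leaf 1 [(4,1)]) (.cons (.leaf 1 [(1,1),(7,1)]) (.cons (.leaf 1 [(4,1)]) (.cons (.leaf 1 [(7,1),(1,1)]) (.cons (.leaf 1 []) .nil)))))))))) (.cons (.leaf 1 [(1,1)]) (.cons (.leaf 1 [(1,1)]) (.cons (.leaf 1 [(10,1),(1,1)]) (.cons (.leaf 1 [(10,1),(1,1)]) (.cons (.keep [6,7,8,9,10] (.node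 (.cons (.leaf 1 [(7,1),(3,1)]) (.cons (.leaf 1 [(4,1)]) (.cons (.leaf 1 [(3,1),(7,1)]) (.cons (.leaf 1 [(4,1)]) (.cons (.leaf 1 [(7,1)]) (.cons (.leaf 1 [(4,1)]) (.cons (.leaf 1 [(7,1),(3,1)]) (.cons (.leaf 1 []) .nil)))))))))) (.cons (.keep [0,5,8,10] (.node (.cons (.keep [3,4,8,9,10] (.node (.cons (.leaf 1 [(3,1)]) (.cons (.leaf 1 [(3,1)]) (.cons (.leaf 1 [(3,1),(7,1)]) (.cons (.leaf 1 [(3,1),(7,1)]) (.cons (.leaf 2 [(8,1),(11,1)]) (.cons (.leaf 1 [(0,1),(11,1)]) (.cons (.leaf 1 [(8,1),(6,1),(3,1)]) (.cons (.leaf 1 [(11,1)]) .nil)))))))))) (.cons (.leaf 1 [(4,1)]) (.cons (.leaf 1 [(1,1),(10,1)]) (.cons (.leaf 1 [(4,1)]) (.cons (.keep [1,4,7,8,10] (.node (.cons (.leaf 1 [(7,1),(3,1)]) (.cons (.leaf 1 [(7,1),(3,1)]) (.cons (.leaf 1 [(3,1)]) (.cons (.leaf 1 [(3,1)]) (.cons (.leaf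 2 [(8,1),(11,1)]) (.cons (.leaf 1 [(7,1),(0,1),(11,1)]) (.cons (.leaf 1 [(8,1),(6,1),(3,1)]) (.cons (.leaf 1 [(11,1)]) .nil)))))))))) (.cons (.leaf 1 [(4,1)]) (.cons (.keep [3,7,8,9,10] (.node (.cons (.leaf 1 [(10,1),(3,1),(7,1)]) (.cons (.leaf 1 [(10,1),(3,1),(7,1)]) (.cons (.leaf 1 [(3,1),(7,1)]) (.cons (.leaf 1 [(3,1),(7,1)]) (.cons (.leaf 2 [(11,1)]) (.cons (.leaf 1 [(10,1),(0,1),(7,1),(11,1)]) (.cons (.leaf 1 [(6,1),(3,1)]) (.cons (.leaf 1 [(11,1)]) .nil)))))))))) (.cons (.leaf 1 []) .nil)))))))))) .nil)))))))))) .nil)))))))))) (.cons (.keep [1,2,4,5,11] (.node (.cons (.leaf 1 [(8,1),(2,1)]) (.cons (.keep [2,4,8,9,10] (.node (.cons (.keep [6,7,8,10,11] (.node (.cons (.leaf 1 [(3,1),(7,1),(11,1)]) (.cons (.leaf 1 [(4,1),(11,1)]) (.cons (.leaf 1 [(1,1)]) (.cons (.leaf 1 [(1,1)])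 (.cons (.leaf 1 [(7,1),(11,1)]) (.cons (.leaf 1 [(4,1),(11,1)]) (.cons (.leaf 1 [(3,1),(7,1),(11,1)]) (.cons (.leaf 1 [(11,1)]) .nil)))))))))) (.cons (.keep [3,7,8,9,11] (.node (.cons (.leaf 1 [(3,1),(10,1),(11,1)]) (.cons (.leaf 1 [(4,1),(11,1)]) (.cons (.leaf 1 [(1,1)]) (.cons (.leaf 1 [(1,1)]) (.cons (.leaf 1 [(10,1),(11,1)]) (.cons (.leaf 1 [(4,1),(11,1)]) (.cons (.leaf 1 [(3,1),(10,1),(11,1)]) (.cons (.leaf 1 [(11,1)]) .nil)))))))))) (.cons (.leaf 1 [(1,1),(11,1)]) (.cons (.leaf 1 [(1,1),(11,1)]) (.cons (.leaf 1 [(1,1)]) (.cons (.leaf 1 [(1,1)]) (.cons (.keep [1,6,8,10,11] (.node (.cons (.leaf 1 [(3,1),(8,1),(11,1)]) (.cons (.leaf 1 [(4,1),(11,1)]) (.cons (.leaf 1 [(1,1)]) (.cons (.leaf 1 [(1,1)]) (.cons (.leaf 1 [(8,1),(11,1)]) (.cons (.leaf 1 [(4,1),(11,1)]) (.cons (.leaf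 1 [(3,1),(8,1),(11,1)]) (.cons (.leaf 1 [(11,1)]) .nil)))))))))) (.cons (.keep [0,5,8,9,11] (.node (.cons (.keep [3,4,7,8,10,11] (.node (.cons (.leaf 1 [(8,1)]) (.cons (.leaf 1 [(4,1)]) (.cons (.leaf 1 [(1,1),(8,1)]) (.cons (.leaf 1 [(4,1)]) (.cons (.leaf 1 [(1,1),(8,1)]) (.cons (.leaf 1 [(4,1)]) (.cons (.leaf 1 [(8,1),(1,1)]) (.cons (.leaf 1 []) .nil)))))))))) (.cons (.leaf 1 [(4,1),(11,1)]) (.cons (.leaf 1 [(1,1)]) (.cons (.leaf 1 [(1,1)]) (.cons (.keep [1,4,7,8,11] (.node (.cons (.leaf 1 [(8,1),(2,1)]) (.cons (.leaf 1 [(4,1)]) (.cons (.leaf 1 [(8,1)]) (.cons (.leaf 1 [(4,1)]) (.cons (.leaf 1 [(8,1),(2,1)]) (.cons (.leaf 1 [(4,1)]) (.cons (.leaf 1 [(8,1),(2,1)]) (.cons (.leaf 1 []) .nil)))))))))) (.cons (.leaf 1 [(4,1),(11,1)]) (.cons (.keep [3,7,8,10,11] (.node (.cons (.leaf 2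 [(11,1),(3,1)]) (.cons (.leaf 1 [(4,1)]) (.cons (.leaf 2 [(3,1),(11,1)]) (.cons (.leaf 1 [(4,1)]) (.cons (.leaf 2 [(11,1)]) (.cons (.leaf 1 [(4,1)]) (.cons (.leaf 2 [(11,1),(3,1)]) (.cons (.leaf 1 []) .nil)))))))))) (.cons (.leaf 1 [(11,1)]) .nil)))))))))) .nil)))))))))) (.cons (.leaf 1 [(8,1)]) (.cons (.keep [4,8,9,10,11] (.node (.cons (.keep [6,7,8,9,10] (.node (.cons (.leaf 1 [(3,1),(7,1),(11,1)]) (.cons (.leaf 1 [(4,1),(11,1)]) (.cons (.leaf 1 [(1,1)]) (.cons (.leaf 1 [(1,1)]) (.cons (.leaf 1 [(7,1),(11,1)]) (.cons (.leaf 1 [(4,1),(11,1)]) (.cons (.leaf 1 [(3,1),(7,1),(11,1)]) (.cons (.leaf 1 [(11,1)]) .nil)))))))))) (.cons (.keep [3,7,8,10,11] (.node (.cons (.leaf 1 [(8,1),(9,1),(10,1)]) (.cons (.leaf 1 [(4,1),(10,1)]) (.cons (.leaf 1 [(1,1)]) (.cons (.leaf 1 [(1,1)]) (.cons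 (.leaf 1 [(8,1),(1,2),(10,1)]) (.cons (.leaf 1 [(4,1),(10,1)]) (.cons (.leaf 1 [(8,1),(9,1),(10,1),(1,1)]) (.cons (.leaf 1 [(10,1)]) .nil)))))))))) (.cons (.leaf 1 [(1,1),(10,1)]) (.cons (.leaf 1 [(1,1),(10,1)]) (.cons (.leaf 1 [(1,1)]) (.cons (.leaf 1 [(1,1)]) (.cons (.keep [6,7,8,9,10] (.node (.cons (.leaf 1 [(3,1),(7,1),(11,1)]) (.cons (.leaf 1 [(4,1),(11,1)]) (.cons (.leaf 1 [(1,1)]) (.cons (.leaf 1 [(1,1)]) (.cons (.leaf 1 [(7,1),(11,1)]) (.cons (.leaf 1 [(4,1),(11,1)]) (.cons (.leaf 1 [(3,1),(7,1),(11,1)]) (.cons (.leaf 1 [(11,1)]) .nil)))))))))) (.cons (.keep [0,5,7,8,10] (.node (.cons (.keep [3,4,7,8,10,11] (.node (.cons (.leaf 1 [(8,1)]) (.cons (.leaf 1 [(4,1)]) (.cons (.leaf 1 [(1,1),(8,1)]) (.cons (.leaf 1 [(4,1)]) (.cons (.leaf 1 [(1,1),(8,1)]) (.cons (.leaf 1 [(4,1)])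 (.cons (.leaf 1 [(8,1),(1,1)]) (.cons (.leaf 1 []) .nil)))))))))) (.cons (.leaf 1 [(4,1),(11,1)]) (.cons (.leaf 1 [(1,1)]) (.cons (.leaf 1 [(1,1)]) (.cons (.keep [1,4,7,8,11] (.node (.cons (.leaf 1 [(8,1),(2,1)]) (.cons (.leaf 1 [(4,1)]) (.cons (.leaf 1 [(8,1)]) (.cons (.leaf 1 [(4,1)]) (.cons (.leaf 1 [(8,1),(2,1)]) (.cons (.leaf 1 [(4,1)]) (.cons (.leaf 1 [(8,1),(2,1)]) (.cons (.leaf 1 []) .nil)))))))))) (.cons (.leaf 1 [(4,1),(11,1)]) (.cons (.keep [3,7,8,10,11] (.node (.cons (.leaf 2 [(11,1),(3,1)]) (.cons (.leaf 1 [(4,1)]) (.cons (.leaf 2 [(3,1),(11,1)]) (.cons (.leaf 1 [(4,1)]) (.cons (.leaf 2 [(11,1)]) (.cons (.leaf 1 [(4,1)]) (.cons (.leaf 2 [(11,1),(3,1)]) (.cons (.leaf 1 []) .nil)))))))))) (.cons (.leaf 1 [(11,1)]) .nil)))))))))) .nil)))))))))) (.cons (.leaf 1 [(8,1),(2,1)])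 (.cons (.leaf 1 [(1,1),(10,1)]) (.cons (.leaf 1 [(6,1),(1,1)]) (.cons (.keep [0,2,7,10,11] (.node (.cons (.keep [6,7,8,9,10] (.node (.cons (.leaf 1 [(3,1),(7,1),(11,1)]) (.cons (.leaf 1 [(4,1),(11,1)]) (.cons (.leaf 1 [(1,1)]) (.cons (.leaf 1 [(1,1)]) (.cons (.leaf 1 [(7,1),(11,1)]) (.cons (.leaf 1 [(4,1),(11,1)]) (.cons (.leaf 1 [(3,1),(7,1),(11,1)]) (.cons (.leaf 1 [(11,1)]) .nil)))))))))) (.cons (.keep [4,5,7,8,10] (.node (.cons (.leaf 1 [(7,1),(11,1)]) (.cons (.leaf 1 [(4,1),(11,1)]) (.cons (.leaf 1 [(1,1)]) (.cons (.leaf 1 [(1,1)]) (.cons (.leaf 1 [(7,1),(1,1),(11,1)]) (.cons (.leaf 1 [(4,1),(11,1)]) (.cons (.leaf 1 [(1,1),(7,1),(11,1)]) (.cons (.leaf 1 [(11,1)]) .nil)))))))))) (.cons (.leaf 1 [(1,1),(10,1)]) (.cons (.leaf 1 [(1,1),(10,1)]) (.cons (.leaf 1 [(1,1)]) (.cons (.leaf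 1 [(1,1)]) (.cons (.keep [6,7,8,9,10] (.node (.cons (.leaf 1 [(7,1),(11,1),(3,1)]) (.cons (.leaf 1 [(4,1),(11,1)]) (.cons (.leaf 1 [(1,1)]) (.cons (.leaf 1 [(1,1)]) (.cons (.leaf 1 [(7,1),(11,1)]) (.cons (.leaf 1 [(4,1),(11,1)]) (.cons (.leaf 1 [(3,1),(7,1),(11,1)]) (.cons (.leaf 1 [(11,1)]) .nil)))))))))) (.cons (.keep [0,5,8,10] (.node (.cons (.keep [3,4,7,8,9,10] (.node (.cons (.leaf 1 [(8,1)]) (.cons (.leaf 1 [(4,1)]) (.cons (.leaf 1 [(1,1),(8,1)]) (.cons (.leaf 1 [(4,1)]) (.cons (.leaf 1 [(1,1),(8,1)]) (.cons (.leaf 1 [(4,1)]) (.cons (.leaf 1 [(8,1),(1,1)]) (.cons (.leaf 1 []) .nil)))))))))) (.cons (.leaf 1 [(4,1),(10,1)]) (.cons (.leaf 1 [(1,1)]) (.cons (.leaf 1 [(1,1)]) (.cons (.keep [1,4,7,8,10] (.node (.cons (.leaf 1 [(8,1),(2,1)]) (.cons (.leaf 1 [(4,1)]) (.cons (.leaf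 1 [(8,1)]) (.cons (.leaf 1 [(4,1)]) (.cons (.leaf 1 [(8,1),(2,1)]) (.cons (.leaf 1 [(4,1)]) (.cons (.leaf 1 [(8,1),(2,1)]) (.cons (.leaf 1 []) .nil)))))))))) (.cons (.leaf 1 [(4,1),(10,1)]) (.cons (.keep [3,7,8,9,10] (.node (.cons (.leaf 2 [(11,1),(3,1)]) (.cons (.leaf 1 [(4,1)]) (.cons (.leaf 2 [(3,1),(11,1)]) (.cons (.leaf 1 [(4,1)]) (.cons (.leaf 2 [(11,1)]) (.cons (.leaf 1 [(4,1)]) (.cons (.leaf 2 [(11,1),(3,1)]) (.cons (.leaf 1 []) .nil)))))))))) (.cons (.leaf 1 [(10,1)]) .nil)))))))))) .nil)))))))))) .nil)))))))))) (.cons (.leaf 1 [(1,1),(6,2),(8,1)]) (.cons (.leaf 1 [(9,1)]) .nil)))))))))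

theorem c_23_24_24 : Concl 23 24 z_23_24_24 h_23_24_24 .nd := piece _ (hP_cons E52.c_23_24_23
  (hP_cons E52.c_23_24_22 (hP_cons E52.c_23_24_21 (hP_cons E52.c_23_24_20 hP_nil)))) t_23_24_24 _
  _ (by decide +kernel)

def z_23_24_25 : F := ⟨1, 0, -1, 0, 1⟩

def h_23_24_25 : List F := [⟨1, 0, 0, 0, 0⟩, ⟨1, -1, 0, 0, 0⟩, ⟨0, 0, 1, -1, 0⟩, ⟨0, 0, -1, 0, 1⟩]

def t_23_24_25 : T := (.node (.cons (.keep [2,3,6,9] (.leaf 0 [(0,0)])) (.cons (.keep [2,3,4,5,9] (.leaf 0 [(1,0)])) (.cons (.keep [1,6,9,10] (.leaf 0 [(2,0)])) (.cons (.keep [1,5,8,9,10] (.leaf 0 [(3,0)])) (.cons (.keep [1,2,6,7,10] (.leaf 0 [(4,0)])) (.cons (.keep [1,2,4,5,10] (.node (.cons (.leaf 1 [(8,1),(2,1)]) (.cons (.keep [2,4,8,9,10] (.node (.cons (.keep [6,7,8,10,11] (.node (.cons (.leaf 1 [(3,1),(7,1),(11,1)]) (.cons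 (.leaf 1 [(4,1),(11,1)]) (.cons (.leaf 1 [(1,1)]) (.cons (.leaf 1 [(1,1)]) (.cons (.leaf 1 [(7,1),(11,1)]) (.cons (.leaf 1 [(4,1),(11,1)]) (.cons (.leaf 1 [(3,1),(7,1),(11,1)]) (.cons (.leaf 1 [(11,1)]) .nil)))))))))) (.cons (.keep [3,7,8,9,11] (.node (.cons (.leaf 1 [(3,1),(10,1),(11,1)]) (.cons (.leaf 1 [(4,1),(11,1)]) (.cons (.leaf 1 [(1,1)]) (.cons (.leaf 1 [(1,1)]) (.cons (.leaf 1 [(10,1),(11,1)]) (.cons (.leaf 1 [(4,1),(11,1)]) (.cons (.leaf 1 [(3,1),(10,1),(11,1)]) (.cons (.leaf 1 [(11,1)]) .nil)))))))))) (.cons (.leaf 1 [(1,1),(11,1)]) (.cons (.leaf 1 [(1,1),(11,1)]) (.cons (.leaf 1 [(1,1)]) (.cons (.leaf 1 [(1,1)]) (.cons (.keep [1,6,8,10,11] (.node (.cons (.leaf 1 [(3,1),(8,1),(11,1)]) (.cons (.leaf 1 [(4,1),(11,1)]) (.cons (.leaf 1 [(1,1)]) (.cons (.leaf 1 [(1,1)]) (.cons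 (.leaf 1 [(8,1),(11,1)]) (.cons (.leaf 1 [(4,1),(11,1)]) (.cons (.leaf 1 [(3,1),(8,1),(11,1)]) (.cons (.leaf 1 [(11,1)]) .nil)))))))))) (.cons (.keep [0,5,8,9,11] (.node (.cons (.keep [3,4,7,8,10,11] (.node (.cons (.leaf 1 [(8,1)]) (.cons (.leaf 1 [(4,1)]) (.cons (.leaf 1 [(1,1),(8,1)]) (.cons (.leaf 1 [(4,1)]) (.cons (.leaf 1 [(1,1),(8,1)]) (.cons (.leaf 1 [(4,1)]) (.cons (.leaf 1 [(8,1),(1,1)]) (.cons (.leaf 1 []) .nil)))))))))) (.cons (.leaf 1 [(4,1),(11,1)]) (.cons (.leaf 1 [(1,1)]) (.cons (.leaf 1 [(1,1)]) (.cons (.keep [1,4,7,8,11] (.node (.cons (.leaf 1 [(8,1),(2,1)]) (.cons (.leaf 1 [(4,1)]) (.cons (.leaf 1 [(8,1)]) (.cons (.leaf 1 [(4,1)]) (.cons (.leaf 1 [(8,1),(2,1)]) (.cons (.leaf 1 [(4,1)]) (.cons (.leaf 1 [(8,1),(2,1)]) (.cons (.leaf 1 []) .nil)))))))))) (.cons (.leaf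 1 [(4,1),(11,1)]) (.cons (.keep [3,7,8,10,11] (.node (.cons (.leaf 2 [(11,1),(3,1)]) (.cons (.leaf 1 [(4,1)]) (.cons (.leaf 2 [(3,1),(11,1)]) (.cons (.leaf 1 [(4,1)]) (.cons (.leaf 2 [(11,1)]) (.cons (.leaf 1 [(4,1)]) (.cons (.leaf 2 [(11,1),(3,1)]) (.cons (.leaf 1 []) .nil)))))))))) (.cons (.leaf 1 [(11,1)]) .nil)))))))))) .nil)))))))))) (.cons (.leaf 1 [(8,1)]) (.cons (.keep [4,8,9,10,11] (.node (.cons (.keep [6,7,8,9,10] (.node (.cons (.leaf 1 [(3,1),(7,1),(11,1)]) (.cons (.leaf 1 [(4,1),(11,1)]) (.cons (.leaf 1 [(1,1)]) (.cons (.leaf 1 [(1,1)]) (.cons (.leaf 1 [(7,1),(11,1)]) (.cons (.leaf 1 [(4,1),(11,1)]) (.cons (.leaf 1 [(3,1),(7,1),(11,1)]) (.cons (.leaf 1 [(11,1)]) .nil)))))))))) (.cons (.keep [3,7,8,10,11] (.node (.cons (.leaf 1 [(8,1),(9,1),(10,1)]) (.cons (.leaf 1 [(4,1),(10,1)])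 (.cons (.leaf 1 [(1,1)]) (.cons (.leaf 1 [(1,1)]) (.cons (.leaf 1 [(8,1),(1,2),(10,1)]) (.cons (.leaf 1 [(4,1),(10,1)]) (.cons (.leaf 1 [(8,1),(9,1),(10,1),(1,1)]) (.cons (.leaf 1 [(10,1)]) .nil)))))))))) (.cons (.leaf 1 [(1,1),(10,1)]) (.cons (.leaf 1 [(1,1),(10,1)]) (.cons (.leaf 1 [(1,1)]) (.cons (.leaf 1 [(1,1)]) (.cons (.keep [6,7,8,9,10] (.node (.cons (.leaf 1 [(3,1),(7,1),(11,1)]) (.cons (.leaf 1 [(4,1),(11,1)]) (.cons (.leaf 1 [(1,1)]) (.cons (.leaf 1 [(1,1)]) (.cons (.leaf 1 [(7,1),(11,1)]) (.cons (.leaf 1 [(4,1),(11,1)]) (.cons (.leaf 1 [(3,1),(7,1),(11,1)]) (.cons (.leaf 1 [(11,1)]) .nil)))))))))) (.cons (.keep [0,5,7,8,10] (.node (.cons (.keep [3,4,7,8,10,11] (.node (.cons (.leaf 1 [(8,1)]) (.cons (.leaf 1 [(4,1)]) (.cons (.leaf 1 [(1,1),(8,1)]) (.cons (.leaf 1 [(4,1)])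 (.cons (.leaf 1 [(1,1),(8,1)]) (.cons (.leaf 1 [(4,1)]) (.cons (.leaf 1 [(8,1),(1,1)]) (.cons (.leaf 1 []) .nil)))))))))) (.cons (.leaf 1 [(4,1),(11,1)]) (.cons (.leaf 1 [(1,1)]) (.cons (.leaf 1 [(1,1)]) (.cons (.keep [1,4,7,8,11] (.node (.cons (.leaf 1 [(8,1),(2,1)]) (.cons (.leaf 1 [(4,1)]) (.cons (.leaf 1 [(8,1)]) (.cons (.leaf 1 [(4,1)]) (.cons (.leaf 1 [(8,1),(2,1)]) (.cons (.leaf 1 [(4,1)]) (.cons (.leaf 1 [(8,1),(2,1)]) (.cons (.leaf 1 []) .nil)))))))))) (.cons (.leaf 1 [(4,1),(11,1)]) (.cons (.keep [3,7,8,10,11] (.node (.cons (.leaf 2 [(11,1),(3,1)]) (.cons (.leaf 1 [(4,1)]) (.cons (.leaf 2 [(3,1),(11,1)]) (.cons (.leaf 1 [(4,1)]) (.cons (.leaf 2 [(11,1)]) (.cons (.leaf 1 [(4,1)]) (.cons (.leaf 2 [(11,1),(3,1)]) (.cons (.leaf 1 []) .nil)))))))))) (.cons (.leaf 1 [(11,1)])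 .nil)))))))))) .nil)))))))))) (.cons (.leaf 1 [(8,1),(2,1)]) (.cons (.leaf 1 [(1,1),(10,1)]) (.cons (.leaf 1 [(6,1),(1,1)]) (.cons (.keep [0,2,7,10,11] (.node (.cons (.keep [6,7,8,9,10] (.node (.cons (.leaf 1 [(3,1),(7,1),(11,1)]) (.cons (.leaf 1 [(4,1),(11,1)]) (.cons (.leaf 1 [(1,1)]) (.cons (.leaf 1 [(1,1)]) (.cons (.leaf 1 [(7,1),(11,1)]) (.cons (.leaf 1 [(4,1),(11,1)]) (.cons (.leaf 1 [(3,1),(7,1),(11,1)]) (.cons (.leaf 1 [(11,1)]) .nil)))))))))) (.cons (.keep [4,5,7,8,10] (.node (.cons (.leaf 1 [(7,1),(11,1)]) (.cons (.leaf 1 [(4,1),(11,1)]) (.cons (.leaf 1 [(1,1)]) (.cons (.leaf 1 [(1,1)]) (.cons (.leaf 1 [(7,1),(1,1),(11,1)]) (.cons (.leaf 1 [(4,1),(11,1)]) (.cons (.leaf 1 [(1,1),(7,1),(11,1)]) (.cons (.leaf 1 [(11,1)]) .nil)))))))))) (.cons (.leaf 1 [(1,1),(10,1)]) (.cons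 (.leaf 1 [(1,1),(10,1)]) (.cons (.leaf 1 [(1,1)]) (.cons (.leaf 1 [(1,1)]) (.cons (.keep [6,7,8,9,10] (.node (.cons (.leaf 1 [(7,1),(11,1),(3,1)]) (.cons (.leaf 1 [(4,1),(11,1)]) (.cons (.leaf 1 [(1,1)]) (.cons (.leaf 1 [(1,1)]) (.cons (.leaf 1 [(7,1),(11,1)]) (.cons (.leaf 1 [(4,1),(11,1)]) (.cons (.leaf 1 [(3,1),(7,1),(11,1)]) (.cons (.leaf 1 [(11,1)]) .nil)))))))))) (.cons (.keep [0,5,8,10] (.node (.cons (.keep [3,4,7,8,9,10] (.node (.cons (.leaf 1 [(8,1)]) (.cons (.leaf 1 [(4,1)]) (.cons (.leaf 1 [(1,1),(8,1)]) (.cons (.leaf 1 [(4,1)]) (.cons (.leaf 1 [(1,1),(8,1)]) (.cons (.leaf 1 [(4,1)]) (.cons (.leaf 1 [(8,1),(1,1)]) (.cons (.leaf 1 []) .nil)))))))))) (.cons (.leaf 1 [(4,1),(10,1)]) (.cons (.leaf 1 [(1,1)]) (.cons (.leaf 1 [(1,1)]) (.cons (.keep [1,4,7,8,10] (.node (.cons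 (.leaf 1 [(8,1),(2,1)]) (.cons (.leaf 1 [(4,1)]) (.cons (.leaf 1 [(8,1)]) (.cons (.leaf 1 [(4,1)]) (.cons (.leaf 1 [(8,1),(2,1)]) (.cons (.leaf 1 [(4,1)]) (.cons (.leaf 1 [(8,1),(2,1)]) (.cons (.leaf 1 []) .nil)))))))))) (.cons (.leaf 1 [(4,1),(10,1)]) (.cons (.keep [3,7,8,9,10] (.node (.cons (.leaf 2 [(11,1),(3,1)]) (.cons (.leaf 1 [(4,1)]) (.cons (.leaf 2 [(3,1),(11,1)]) (.cons (.leaf 1 [(4,1)]) (.cons (.leaf 2 [(11,1)]) (.cons (.leaf 1 [(4,1)]) (.cons (.leaf 2 [(11,1),(3,1)]) (.cons (.leaf 1 []) .nil)))))))))) (.cons (.leaf 1 [(10,1)]) .nil)))))))))) .nil)))))))))) .nil)))))))))) (.cons (.leaf 1 [(1,1),(6,2),(9,1)]) (.cons (.keep [0,1,8,9] (.node (.cons (.keep [4,7,8,10] (.node (.cons (.leaf 1 [(7,1)]) (.cons (.leaf 1 [(4,1)]) (.cons (.leaf 1 [(1,1),(7,1)]) (.cons (.leaf 1 [(4,1)])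 (.cons (.leaf 1 [(1,1),(7,1)]) (.cons (.leaf 1 [(4,1)]) (.cons (.leaf 1 [(7,1),(1,1)]) (.cons (.leaf 1 []) .nil)))))))))) (.cons (.keep [4,5,7,8,10] (.node (.cons (.leaf 1 [(7,1)]) (.cons (.leaf 1 [(4,1)]) (.cons (.leaf 1 [(1,1),(7,1)]) (.cons (.leaf 1 [(4,1)]) (.cons (.leaf 1 [(1,1),(7,1)]) (.cons (.leaf 1 [(4,1)]) (.cons (.leaf 1 [(7,1),(1,1)]) (.cons (.leaf 1 []) .nil)))))))))) (.cons (.leaf 1 [(1,1)]) (.cons (.leaf 1 [(1,1)]) (.cons (.leaf 1 [(10,1),(1,1)]) (.cons (.leaf 1 [(10,1),(1,1)]) (.cons (.keep [1,6,7,10] (.node (.cons (.leaf 1 [(8,1),(3,1)]) (.cons (.leaf 1 [(4,1)]) (.cons (.leaf 1 [(3,1),(8,1)]) (.cons (.leaf 1 [(4,1)]) (.cons (.leaf 1 [(8,1)]) (.cons (.leaf 1 [(4,1)]) (.cons (.leaf 1 [(8,1),(3,1)]) (.cons (.leaf 1 []) .nil)))))))))) (.cons (.keep [0,5,8,10] (.node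 (.cons (.keep [3,4,8,9,10] (.node (.cons (.leaf 1 [(3,1)]) (.cons (.leaf 1 [(3,1)]) (.cons (.leaf 1 [(3,1),(7,1)]) (.cons (.leaf 1 [(3,1),(7,1)]) (.cons (.leaf 2 [(8,1),(11,1)]) (.cons (.leaf 1 [(0,1),(11,1)]) (.cons (.leaf 1 [(8,1),(6,1),(3,1)]) (.cons (.leaf 1 [(11,1)]) .nil)))))))))) (.cons (.leaf 1 [(4,1)]) (.cons (.leaf 1 [(1,1),(10,1)]) (.cons (.leaf 1 [(4,1)]) (.cons (.keep [1,4,7,8,10] (.node (.cons (.leaf 1 [(7,1),(3,1)]) (.cons (.leaf 1 [(7,1),(3,1)]) (.cons (.leaf 1 [(3,1)]) (.cons (.leaf 1 [(3,1)]) (.cons (.leaf 2 [(8,1),(11,1)]) (.cons (.leaf 1 [(7,1),(0,1),(11,1)]) (.cons (.leaf 1 [(8,1),(6,1),(3,1)]) (.cons (.leaf 1 [(11,1)]) .nil)))))))))) (.cons (.leaf 1 [(4,1)]) (.cons (.keep [3,7,8,9,10] (.node (.cons (.leaf 1 [(10,1),(3,1),(7,1)]) (.cons (.leaf 1 [(10,1),(3,1),(7,1)])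 (.cons (.leaf 1 [(3,1),(7,1)]) (.cons (.leaf 1 [(3,1),(7,1)]) (.cons (.leaf 2 [(11,1)]) (.cons (.leaf 1 [(10,1),(0,1),(7,1),(11,1)]) (.cons (.leaf 1 [(6,1),(3,1)]) (.cons (.leaf 1 [(11,1)]) .nil)))))))))) (.cons (.leaf 1 []) .nil)))))))))) .nil)))))))))) .nil)))))))))

theorem c_23_24_25 : Concl 23 24 z_23_24_25 h_23_24_25 .nd := piece _ (hP_cons E51.c_23_24_8
  (hP_cons E51.c_23_24_7 (hP_cons c_23_24_6 (hP_cons E51.c_23_24_5 (hP_cons E51.c_23_24_9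
  hP_nil))))) t_23_24_25 _ _ (by decide +kernel)

def z_23_24_26 : F := ⟨1, 0, 0, -1, 1⟩

def h_23_24_26 : List F := [⟨1, 0, 0, 0, 0⟩, ⟨1, -1, 0, 0, 0⟩, ⟨0, 0, -1, 1, 0⟩, ⟨0, 0, 0, -1, 1⟩]

def t_23_24_26 : T := (.node (.cons (.keep [2,6,7,9] (.node (.cons (.leaf 1 [(8,2),(7,2)]) (.cons (.keep [3,4,7,8,10] (.node (.cons (.leaf 1 [(8,2),(11,2)]) (.cons (.leaf 1 [(4,2),(11,2)]) (.cons (.leaf 1 [(1,2)]) (.cons (.leaf 1 [(1,2)]) (.cons (.leaf 1 [(10,2),(1,2)]) (.cons (.leaf 1 [(10,2),(1,2)]) (.cons (.leaf 1 [(8,2),(11,2),(1,2)]) (.cons (.leaf 1 [(11,2)]) .nil)))))))))) (.cons (.leaf 1 [(1,2),(8,2),(7,2)]) (.cons (.leaf 1 [(1,2),(10,2)]) (.cons (.leaf 1 [(1,2)]) (.cons (.leaf 1 [(1,2)]) (.cons (.leaf 1 [(8,2),(6,2),(1,2)]) (.cons (.keep [0,1,8,10] (.node (.cons (.keep [4,7,9,10] (.node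 (.cons (.leaf 1 [(7,2)]) (.cons (.leaf 1 [(4,2)]) (.cons (.leaf 1 [(1,2),(7,2)]) (.cons (.leaf 1 [(4,2)]) (.cons (.leaf 1 [(1,2),(7,2)]) (.cons (.leaf 1 [(4,2)]) (.cons (.leaf 1 [(7,2),(1,2)]) (.cons (.leaf 1 []) .nil)))))))))) (.cons (.leaf 1 [(4,2),(10,2)]) (.cons (.leaf 1 [(1,2)]) (.cons (.leaf 1 [(1,2)]) (.cons (.leaf 1 [(9,2),(1,2)]) (.cons (.leaf 1 [(9,2),(1,2)]) (.cons (.keep [1,7,9,10] (.node (.cons (.leaf 1 [(10,1),(3,1)]) (.cons (.leaf 1 [(4,2)]) (.cons (.leaf 1 [(1,2),(9,2)]) (.cons (.leaf 1 [(4,2)]) (.cons (.leaf 1 [(10,1)]) (.cons (.leaf 1 [(4,2)]) (.cons (.leaf 1 [(10,1),(3,1)]) (.cons (.leaf 1 []) .nil)))))))))) (.cons (.leaf 1 [(10,2)]) .nil)))))))))) .nil)))))))))) (.cons (.keep [2,4,5,9] (.node (.cons (.keep [6,7,8,9,10] (.node (.cons (.leaf 1 [(7,1),(11,1)]) (.cons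 (.leaf 1 [(4,1),(8,1),(11,1)]) (.cons (.leaf 1 [(1,1),(8,1)]) (.cons (.leaf 1 [(1,1),(8,1)]) (.cons (.leaf 1 [(7,1),(1,1),(11,1)]) (.cons (.leaf 1 [(4,1),(1,1),(11,1)]) (.cons (.leaf 1 [(7,1),(11,1),(1,1)]) (.cons (.leaf 1 [(11,1),(8,1)]) .nil)))))))))) (.cons (.keep [4,7,8,9,10] (.node (.cons (.leaf 1 [(7,2),(10,1),(11,2)]) (.cons (.leaf 1 [(4,2),(10,1),(11,2)]) (.cons (.leaf 1 [(1,2),(10,1)]) (.cons (.leaf 1 [(1,2),(10,1)]) (.cons (.leaf 1 [(7,1),(1,2),(11,1)]) (.cons (.leaf 1 [(4,1),(1,1),(11,1)]) (.cons (.leaf 1 [(7,2),(10,1),(11,2),(1,2)]) (.cons (.leaf 1 [(11,2),(10,1)]) .nil)))))))))) (.cons (.leaf 1 [(1,2),(10,1),(7,1)]) (.cons (.leaf 1 [(1,2),(10,2),(9,1)]) (.cons (.leaf 1 [(1,2),(7,1)]) (.cons (.leaf 1 [(1,2),(9,1)]) (.cons (.keep [1,6,8,9,10] (.node (.cons (.leaf 1 [(8,1),(11,1)])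 (.cons (.leaf 1 [(4,1),(8,1),(7,1),(11,1)]) (.cons (.leaf 1 [(1,1),(8,1),(7,1)]) (.cons (.leaf 1 [(1,1),(8,1),(7,1)]) (.cons (.leaf 1 [(8,1),(1,1),(11,1)]) (.cons (.leaf 1 [(4,1),(1,1),(11,1)]) (.cons (.leaf 1 [(8,1),(11,1),(1,1)]) (.cons (.leaf 1 [(11,1),(8,1),(7,1)]) .nil)))))))))) (.cons (.keep [0,1,8,9,10] (.node (.cons (.keep [4,7,10,11] (.node (.cons (.leaf 1 [(9,1),(7,2)]) (.cons (.leaf 1 [(9,1),(4,2)]) (.cons (.leaf 1 [(1,2),(7,1)]) (.cons (.leaf 1 [(1,1),(4,1)]) (.cons (.leaf 1 [(9,1),(1,2),(7,2)]) (.cons (.leaf 1 [(9,1),(4,2)]) (.cons (.leaf 1 [(9,1),(7,2),(1,2)]) (.cons (.leaf 1 [(9,1)]) .nil)))))))))) (.cons (.leaf 1 [(4,2),(10,1),(11,2)]) (.cons (.leaf 1 [(1,2),(10,1)]) (.cons (.leaf 1 [(1,2),(10,1)]) (.cons (.keep [1,4,7,8,11] (.node (.cons (.leaf 1 [(8,1)]) (.cons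 (.leaf 1 [(7,1),(4,1)]) (.cons (.leaf 1 [(1,1),(8,1)]) (.cons (.leaf 1 [(1,1),(4,1)]) (.cons (.leaf 1 [(8,1),(1,1)]) (.cons (.leaf 1 [(7,1),(4,1)]) (.cons (.leaf 1 [(8,1),(1,1)]) (.cons (.leaf 1 [(7,1)]) .nil)))))))))) (.cons (.leaf 1 [(4,1),(1,1),(11,1)]) (.cons (.keep [1,7,10,11] (.node (.cons (.leaf 1 [(9,1),(10,1),(3,1)]) (.cons (.leaf 1 [(9,1),(4,2)]) (.cons (.leaf 2 [(1,2),(10,1),(3,1)]) (.cons (.leaf 1 [(1,1),(4,1)]) (.cons (.leaf 1 [(9,1),(10,1)]) (.cons (.leaf 1 [(9,1),(4,2)]) (.cons (.leaf 1 [(9,1),(10,1),(3,1)]) (.cons (.leaf 1 [(9,1)]) .nil)))))))))) (.cons (.leaf 1 [(11,2),(10,1)]) .nil)))))))))) .nil)))))))))) (.cons (.keep [1,6,8,9] (.leaf 0 [(0,0)])) (.cons (.keep [1,5,8,9] (.node (.cons (.keep [6,7,8,10] (.node (.cons (.leaf 1 [(7,2),(2,1),(10,2)]) (.cons (.leaf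 1 [(4,3),(9,2),(10,3)]) (.cons (.leaf 1 [(1,3),(9,2)]) (.cons (.leaf 1 [(1,3),(9,2)]) (.cons (.leaf 1 [(7,1),(1,2),(10,1)]) (.cons (.leaf 1 [(4,1),(1,2),(10,1)]) (.cons (.leaf 1 [(10,1),(7,2),(6,1),(1,2)]) (.cons (.leaf 1 [(10,3),(9,2)]) .nil)))))))))) (.cons (.keep [4,5,8,10] (.node (.cons (.leaf 1 [(10,2),(7,1),(9,1)]) (.cons (.leaf 1 [(4,3),(9,2),(8,1),(10,3)]) (.cons (.leaf 1 [(1,3),(9,2),(8,1)]) (.cons (.leaf 1 [(1,3),(9,2),(8,1)]) (.cons (.leaf 1 [(1,2),(10,1)]) (.cons (.leaf 1 [(4,1),(1,2),(8,1),(10,1)]) (.cons (.leaf 1 [(7,1),(9,1),(10,2),(1,2)]) (.cons (.leaf 1 [(10,3),(9,2),(8,1)]) .nil)))))))))) (.cons (.leaf 1 [(10,3),(1,2),(8,2)]) (.cons (.leaf 1 [(10,3),(1,2),(8,2),(5,1)]) (.cons (.leaf 1 [(1,2),(8,2)]) (.cons (.leaf 1 [(1,2),(8,2),(5,1)]) (.cons (.keep [1,6,8,9,10]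 (.node (.cons (.leaf 1 [(11,1),(8,2)]) (.cons (.leaf 1 [(4,1),(7,1),(8,2),(11,1)]) (.cons (.leaf 1 [(1,1),(7,1),(8,2)]) (.cons (.leaf 1 [(1,1),(7,1),(8,2)]) (.cons (.leaf 1 [(11,1),(1,1),(8,2)]) (.cons (.leaf 1 [(11,1),(1,1),(4,2),(5,1)]) (.cons (.leaf 1 [(11,1),(8,2),(1,1)]) (.cons (.leaf 1 [(11,1),(7,1),(8,2)]) .nil)))))))))) (.cons (.keep [0,1,8,9,10] (.node (.cons (.keep [4,7,9,11] (.node (.cons (.leaf 1 [(9,1),(7,2)]) (.cons (.leaf 1 [(9,1),(4,2)]) (.cons (.leaf 1 [(1,2),(7,1)]) (.cons (.leaf 1 [(1,1),(4,1)]) (.cons (.leaf 1 [(9,1),(1,2),(7,2)]) (.cons (.leaf 1 [(9,1),(4,2)]) (.cons (.leaf 1 [(9,1),(7,2),(1,2)]) (.cons (.leaf 1 [(9,1)]) .nil)))))))))) (.cons (.leaf 1 [(4,2),(9,1),(11,2)]) (.cons (.leaf 1 [(1,2),(9,1)]) (.cons (.leaf 1 [(1,2),(9,1)]) (.cons (.keep [1,4,7,8,11]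 (.node (.cons (.leaf 1 [(8,1)]) (.cons (.leaf 1 [(7,1),(4,1)]) (.cons (.leaf 1 [(1,1),(8,1)]) (.cons (.leaf 1 [(1,1),(4,1)]) (.cons (.leaf 1 [(8,1),(1,1)]) (.cons (.leaf 1 [(7,1),(4,1)]) (.cons (.leaf 1 [(8,1),(1,1)]) (.cons (.leaf 1 [(7,1)]) .nil)))))))))) (.cons (.leaf 1 [(4,1),(1,1),(11,1)]) (.cons (.keep [1,7,9,11] (.node (.cons (.leaf 1 [(9,1),(10,1),(3,1)]) (.cons (.leaf 1 [(9,1),(4,2)]) (.cons (.leaf 2 [(1,2),(10,1),(3,1)]) (.cons (.leaf 1 [(1,1),(4,1)]) (.cons (.leaf 1 [(9,1),(10,1)]) (.cons (.leaf 1 [(9,1),(4,2)]) (.cons (.leaf 1 [(9,1),(10,1),(3,1)]) (.cons (.leaf 1 [(9,1)]) .nil)))))))))) (.cons (.leaf 1 [(11,2),(9,1)]) .nil)))))))))) .nil)))))))))) (.cons (.leaf 1 [(9,2),(1,1)]) (.cons (.leaf 1 [(9,2),(1,1),(5,1)]) (.cons (.leaf 1 [(1,1),(6,2)]) (.cons (.keep [0,1,8,9]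 (.node (.cons (.keep [4,7,8,10] (.node (.cons (.leaf 1 [(7,1),(10,1)]) (.cons (.leaf 1 [(4,1),(10,1)]) (.cons (.leaf 1 [(1,1)]) (.cons (.leaf 1 [(1,1)]) (.cons (.leaf 1 [(7,1),(1,1),(10,1)]) (.cons (.leaf 1 [(4,1),(10,1)]) (.cons (.leaf 1 [(7,1),(10,1),(1,1)]) (.cons (.leaf 1 [(10,1)]) .nil)))))))))) (.cons (.keep [4,5,7,8,10] (.node (.cons (.leaf 1 [(7,1),(11,1)]) (.cons (.leaf 1 [(4,1),(11,1)]) (.cons (.leaf 1 [(1,1)]) (.cons (.leaf 1 [(1,1)]) (.cons (.leaf 1 [(7,1),(1,1),(11,1)]) (.cons (.leaf 1 [(4,1),(11,1)]) (.cons (.leaf 1 [(7,1),(11,1),(1,1)]) (.cons (.leaf 1 [(11,1)]) .nil)))))))))) (.cons (.leaf 1 [(1,1),(10,1)]) (.cons (.leaf 1 [(1,1),(10,1)]) (.cons (.leaf 1 [(1,1)]) (.cons (.leaf 1 [(1,1)]) (.cons (.keep [1,6,7,10] (.node (.cons (.leaf 1 [(3,1),(8,1),(10,1)]) (.cons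 (.leaf 1 [(4,1),(10,1)]) (.cons (.leaf 1 [(1,1)]) (.cons (.leaf 1 [(1,1)]) (.cons (.leaf 1 [(8,1),(10,1)]) (.cons (.leaf 1 [(4,1),(10,1)]) (.cons (.leaf 1 [(3,1),(8,1),(10,1)]) (.cons (.leaf 1 [(10,1)]) .nil)))))))))) (.cons (.keep [0,5,8,10] (.node (.cons (.keep [3,4,7,8,9,10] (.node (.cons (.leaf 1 [(8,1)]) (.cons (.leaf 1 [(4,1)]) (.cons (.leaf 1 [(1,1),(8,1)]) (.cons (.leaf 1 [(4,1)]) (.cons (.leaf 1 [(1,1),(8,1)]) (.cons (.leaf 1 [(4,1)]) (.cons (.leaf 1 [(8,1),(1,1)]) (.cons (.leaf 1 []) .nil)))))))))) (.cons (.leaf 1 [(4,1),(10,1)]) (.cons (.leaf 1 [(1,1)]) (.cons (.leaf 1 [(1,1)]) (.cons (.keep [1,4,7,8,10] (.node (.cons (.leaf 1 [(8,1),(2,1)]) (.cons (.leaf 1 [(4,1)]) (.cons (.leaf 1 [(8,1)]) (.cons (.leaf 1 [(4,1)]) (.cons (.leaf 1 [(8,1),(2,1)]) (.cons (.leaf 1 [(4,1)])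 (.cons (.leaf 1 [(8,1),(2,1)]) (.cons (.leaf 1 []) .nil)))))))))) (.cons (.leaf 1 [(4,1),(10,1)]) (.cons (.keep [3,7,8,9,10] (.node (.cons (.leaf 2 [(11,1),(3,1)]) (.cons (.leaf 1 [(4,1)]) (.cons (.leaf 2 [(3,1),(11,1)]) (.cons (.leaf 1 [(4,1)]) (.cons (.leaf 2 [(11,1)]) (.cons (.leaf 1 [(4,1)]) (.cons (.leaf 2 [(11,1),(3,1)]) (.cons (.leaf 1 []) .nil)))))))))) (.cons (.leaf 1 [(10,1)]) .nil)))))))))) .nil)))))))))) .nil)))))))))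

theorem c_23_24_26 : Concl 23 24 z_23_24_26 h_23_24_26 .nd := piece _ (hP_cons c_23_24_14 hP_nil)
  t_23_24_26 _ _ (by decide +kernel)

def z_23_24_27 : F := ⟨0, 1, 0, -1, 1⟩

def h_23_24_27 : List F := [⟨0, 1, 0, 0, 0⟩, ⟨-1, 1, 0, 0, 0⟩, ⟨0, 0, -1, 1, 0⟩, ⟨0, 0, 0, -1, 1⟩]

def t_23_24_27 : T := (.node (.cons (.leaf 1 [(2,2),(8,1)]) (.cons (.keep [2,4,8,9,10] (.node (.cons (.keep [3,6,7,8,10] (.node (.cons (.leaf 1 [(8,1),(11,1)]) (.cons (.leaf 1 [(4,1),(9,1),(11,1)]) (.cons (.leaf 1 [(1,1),(9,1)]) (.cons (.leaf 1 [(1,1),(9,1)]) (.cons (.leaf 1 [(8,1),(1,1),(11,1)]) (.cons (.leaf 1 [(4,1),(1,1),(11,1)]) (.cons (.leaf 1 [(8,1),(11,1),(1,1)]) (.cons (.leaf 1 [(11,1),(9,1)]) .nil)))))))))) (.cons (.keep [3,7,8,9,10] (.node (.cons (.leaf 1 [(11,1)]) (.cons (.leaf 1 [(4,1),(8,1),(11,1)])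 (.cons (.leaf 1 [(1,1),(8,1)]) (.cons (.leaf 1 [(1,1),(8,1)]) (.cons (.leaf 1 [(1,1),(11,1)]) (.cons (.leaf 1 [(4,1),(8,1),(11,1)]) (.cons (.leaf 1 [(11,1),(1,1)]) (.cons (.leaf 1 [(11,1),(8,1)]) .nil)))))))))) (.cons (.leaf 1 [(7,1),(10,1),(1,1)]) (.cons (.leaf 1 [(7,1),(10,1),(1,1)]) (.cons (.leaf 1 [(1,1),(7,1)]) (.cons (.leaf 1 [(1,1),(7,1)]) (.cons (.keep [1,6,8,10,11] (.node (.cons (.leaf 1 [(10,1),(8,2),(3,1)]) (.cons (.leaf 1 [(4,1),(8,1),(10,1)]) (.cons (.leaf 1 [(1,1),(8,1)]) (.cons (.leaf 1 [(1,1),(8,1)]) (.cons (.leaf 1 [(10,1),(8,2)]) (.cons (.leaf 1 [(10,1),(4,2),(5,1)]) (.cons (.leaf 1 [(10,1),(8,2),(3,1)]) (.cons (.leaf 1 [(10,1),(8,1)]) .nil)))))))))) (.cons (.keep [0,5,8,9,10] (.node (.cons (.keep [3,4,7,8,10,11] (.node (.cons (.leaf 1 [(8,1)]) (.cons (.leaf 1 [(4,1)])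 (.cons (.leaf 1 [(1,1),(8,1)]) (.cons (.leaf 1 [(4,1)]) (.cons (.leaf 1 [(1,1),(8,1)]) (.cons (.leaf 1 [(4,1)]) (.cons (.leaf 1 [(8,1),(1,1)]) (.cons (.leaf 1 []) .nil)))))))))) (.cons (.leaf 1 [(4,1),(11,1)]) (.cons (.leaf 1 [(1,1)]) (.cons (.leaf 1 [(1,1)]) (.cons (.keep [1,4,7,8,11] (.node (.cons (.leaf 1 [(8,1),(2,1)]) (.cons (.leaf 1 [(4,1)]) (.cons (.leaf 1 [(8,1)]) (.cons (.leaf 1 [(4,1)]) (.cons (.leaf 1 [(8,1),(2,1)]) (.cons (.leaf 1 [(4,1)]) (.cons (.leaf 1 [(8,1),(2,1)]) (.cons (.leaf 1 []) .nil)))))))))) (.cons (.leaf 1 [(4,1),(11,1)]) (.cons (.keep [3,7,8,10,11] (.node (.cons (.leaf 2 [(11,1),(3,1)]) (.cons (.leaf 1 [(4,1)]) (.cons (.leaf 2 [(3,1),(11,1)]) (.cons (.leaf 1 [(4,1)]) (.cons (.leaf 2 [(11,1)]) (.cons (.leaf 1 [(4,1)]) (.cons (.leaf 2 [(11,1),(3,1)]) (.cons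 (.leaf 1 []) .nil)))))))))) (.cons (.leaf 1 [(11,1)]) .nil)))))))))) .nil)))))))))) (.cons (.keep [1,6,8,9,10] (.leaf 0 [(0,0)])) (.cons (.keep [4,8,9,10] (.node (.cons (.keep [3,6,7,8,9] (.node (.cons (.leaf 1 [(8,1),(11,1)]) (.cons (.leaf 1 [(4,1),(10,1),(11,1)]) (.cons (.leaf 1 [(1,1),(10,1)]) (.cons (.leaf 1 [(1,1),(10,1)]) (.cons (.leaf 1 [(8,1),(1,1),(11,1)]) (.cons (.leaf 1 [(4,1),(1,1),(11,1)]) (.cons (.leaf 1 [(8,1),(11,1),(1,1)]) (.cons (.leaf 1 [(11,1),(10,1)]) .nil)))))))))) (.cons (.keep [3,5,7,8,9] (.node (.cons (.leaf 1 [(11,1)]) (.cons (.leaf 1 [(4,1),(10,1),(8,1),(11,1)]) (.cons (.leaf 1 [(1,1),(10,1),(8,1)]) (.cons (.leaf 1 [(1,1),(10,1),(8,1)]) (.cons (.leaf 1 [(1,1),(11,1)]) (.cons (.leaf 1 [(4,1),(1,1),(8,1),(11,1)]) (.cons (.leaf 1 [(11,1),(1,1)]) (.cons (.leaf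 1 [(11,1),(10,1),(8,1)]) .nil)))))))))) (.cons (.leaf 1 [(9,1),(8,1)]) (.cons (.leaf 1 [(9,1),(8,1),(5,1)]) (.cons (.leaf 1 [(8,1)]) (.cons (.leaf 1 [(8,1),(5,1)]) (.cons (.keep [6,7,8,9,10] (.node (.cons (.leaf 1 [(10,1),(7,2),(3,1)]) (.cons (.leaf 1 [(4,1),(7,1),(10,1)]) (.cons (.leaf 1 [(1,1),(7,1)]) (.cons (.leaf 1 [(1,1),(7,1)]) (.cons (.leaf 1 [(10,1),(7,2)]) (.cons (.leaf 1 [(10,1),(4,2),(5,1)]) (.cons (.leaf 1 [(10,1),(7,2),(3,1)]) (.cons (.leaf 1 [(10,1),(7,1)]) .nil)))))))))) (.cons (.keep [0,5,7,8,9] (.node (.cons (.keep [3,4,7,8,10,11] (.node (.cons (.leaf 1 [(8,1)]) (.cons (.leaf 1 [(4,1)]) (.cons (.leaf 1 [(1,1),(8,1)]) (.cons (.leaf 1 [(4,1)]) (.cons (.leaf 1 [(1,1),(8,1)]) (.cons (.leaf 1 [(4,1)]) (.cons (.leaf 1 [(8,1),(1,1)]) (.cons (.leaf 1 []) .nil)))))))))) (.cons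 (.leaf 1 [(4,1),(11,1)]) (.cons (.leaf 1 [(1,1)]) (.cons (.leaf 1 [(1,1)]) (.cons (.keep [1,4,7,8,11] (.node (.cons (.leaf 1 [(8,1),(2,1)]) (.cons (.leaf 1 [(4,1)]) (.cons (.leaf 1 [(8,1)]) (.cons (.leaf 1 [(4,1)]) (.cons (.leaf 1 [(8,1),(2,1)]) (.cons (.leaf 1 [(4,1)]) (.cons (.leaf 1 [(8,1),(2,1)]) (.cons (.leaf 1 []) .nil)))))))))) (.cons (.leaf 1 [(4,1),(11,1)]) (.cons (.keep [3,7,8,10,11] (.node (.cons (.leaf 2 [(11,1),(3,1)]) (.cons (.leaf 1 [(4,1)]) (.cons (.leaf 2 [(3,1),(11,1)]) (.cons (.leaf 1 [(4,1)]) (.cons (.leaf 2 [(11,1)]) (.cons (.leaf 1 [(4,1)]) (.cons (.leaf 2 [(11,1),(3,1)]) (.cons (.leaf 1 []) .nil)))))))))) (.cons (.leaf 1 [(11,1)]) .nil)))))))))) .nil)))))))))) (.cons (.leaf 1 [(2,1),(9,1)]) (.cons (.leaf 1 [(9,1),(2,1)]) (.cons (.leaf 1 [(6,1),(2,1)]) (.cons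 (.keep [0,2,7,9] (.node (.cons (.keep [6,7,8,9,10] (.node (.cons (.leaf 1 [(7,1),(11,1)]) (.cons (.leaf 2 [(4,2),(9,1),(11,2)]) (.cons (.leaf 2 [(1,2),(9,1)]) (.cons (.leaf 2 [(1,2),(9,1)]) (.cons (.leaf 1 [(7,1),(1,1),(11,1)]) (.cons (.leaf 1 [(4,1),(1,1),(11,1)]) (.cons (.leaf 1 [(7,1),(11,1),(1,1)]) (.cons (.leaf 2 [(11,2),(9,1)]) .nil)))))))))) (.cons (.keep [4,5,7,8,10] (.node (.cons (.leaf 1 [(11,1)]) (.cons (.leaf 1 [(4,1),(10,1),(3,1),(11,1)]) (.cons (.leaf 1 [(3,1),(10,1)]) (.cons (.leaf 1 [(3,1),(10,1)]) (.cons (.leaf 1 [(1,1),(11,1)]) (.cons (.leaf 1 [(4,1),(1,1),(8,1),(11,1)]) (.cons (.leaf 1 [(11,1),(1,1)]) (.cons (.leaf 2 [(11,2),(10,1),(8,1)]) .nil)))))))))) (.cons (.leaf 2 [(10,2),(1,1),(8,1)]) (.cons (.leaf 2 [(10,2),(1,1),(8,1),(5,1)]) (.cons (.leaf 2 [(1,1),(8,1)])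 (.cons (.leaf 2 [(1,1),(8,1),(5,1)]) (.cons (.keep [6,7,8,9,10] (.node (.cons (.leaf 1 [(11,1),(7,2),(3,1)]) (.cons (.leaf 1 [(4,1),(7,1),(11,1)]) (.cons (.leaf 1 [(1,1),(7,1)]) (.cons (.leaf 1 [(1,1),(7,1)]) (.cons (.leaf 1 [(11,1),(7,2)]) (.cons (.leaf 1 [(11,1),(4,2),(5,1)]) (.cons (.leaf 1 [(11,1),(7,2),(3,1)]) (.cons (.leaf 1 [(11,1),(7,1)]) .nil)))))))))) (.cons (.keep [0,5,8,10] (.node (.cons (.keep [3,4,7,8,9,10] (.node (.cons (.leaf 1 [(8,1)]) (.cons (.leaf 1 [(4,1)]) (.cons (.leaf 1 [(1,1),(8,1)]) (.cons (.leaf 1 [(4,1)]) (.cons (.leaf 1 [(1,1),(8,1)]) (.cons (.leaf 1 [(4,1)]) (.cons (.leaf 1 [(8,1),(1,1)]) (.cons (.leaf 1 []) .nil)))))))))) (.cons (.leaf 1 [(4,1),(10,1)]) (.cons (.leaf 1 [(1,1)]) (.cons (.leaf 1 [(1,1)]) (.cons (.keep [1,4,7,8,10] (.node (.cons (.leaf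 1 [(8,1),(2,1)]) (.cons (.leaf 1 [(4,1)]) (.cons (.leaf 1 [(8,1)]) (.cons (.leaf 1 [(4,1)]) (.cons (.leaf 1 [(8,1),(2,1)]) (.cons (.leaf 1 [(4,1)]) (.cons (.leaf 1 [(8,1),(2,1)]) (.cons (.leaf 1 []) .nil)))))))))) (.cons (.leaf 1 [(4,1),(10,1)]) (.cons (.keep [3,7,8,9,10] (.node (.cons (.leaf 2 [(11,1),(3,1)]) (.cons (.leaf 1 [(4,1)]) (.cons (.leaf 2 [(3,1),(11,1)]) (.cons (.leaf 1 [(4,1)]) (.cons (.leaf 2 [(11,1)]) (.cons (.leaf 1 [(4,1)]) (.cons (.leaf 2 [(11,1),(3,1)]) (.cons (.leaf 1 []) .nil)))))))))) (.cons (.leaf 1 [(10,1)]) .nil)))))))))) .nil)))))))))) .nil)))))))))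

theorem c_23_24_27 : Concl 23 24 z_23_24_27 h_23_24_27 .nd := piece _ (hP_cons c_23_24_24 hP_nil)
  t_23_24_27 _ _ (by decide +kernel)

end Pool.Agent.H4.RD4.E53
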