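import Pool.Agent.H4.RD4.E51
import Pool.Agent.H4.RD4.E52
import Pool.Agent.H4.RD4.E53

/-! # Certificates for special cases of order four -/

set_option maxRecDepth 20000

namespace Pool.Agent.H4.RD4.E54

open Pool.Agent.H50.Rdb
open Pool.Agent.H81.RDE (ESB caseOf)

def z_23_24_28 : F := ⟨0, 1, -1, 0, 1⟩

def h_23_24_28 : List F := [⟨0, 1, 0, 0, 0⟩, ⟨-1, 1, 0, 0, 0⟩, ⟨0, 0, 1, -1, 0⟩, ⟨0, 0, -1, 0, 1⟩]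

def t_23_24_28 : T := (.node (.cons (.leaf 1 [(2,2),(9,1),(8,1)]) (.cons (.keep [2,3,4,8,9] (.node (.cons (.keep [2,6,7,9,11] (.node (.cons (.leaf 1 [(8,1)]) (.cons (.leaf 1 [(9,1),(4,1)]) (.cons (.leaf 1 [(1,1),(8,1)]) (.cons (.leaf 1 [(4,1),(9,1)]) (.cons (.leaf 1 [(1,1),(8,1)]) (.cons (.leaf 1 [(1,1),(4,1)]) (.cons (.leaf 1 [(8,1),(1,1)]) (.cons (.leaf 1 [(9,1)]) .nil)))))))))) (.cons (.keep [2,7,9,10,11] (.node (.cons (.leaf 1 []) (.cons (.leaf 1 [(8,1),(4,1)]) (.cons (.leaf 1 [(1,1)]) (.cons (.leaf 1 [(4,1),(8,1)]) (.cons (.leaf 1 [(1,1)]) (.cons (.leaf 1 [(4,1),(8,1)]) (.cons (.leaf 1 [(1,1)]) (.cons (.leaf 1 [(8,1)]) .nil)))))))))) (.cons (.leaf 1 [(1,1),(7,1)]) (.cons (.leaf 1 [(1,1),(7,1)]) (.cons (.leaf 1 [(11,1),(7,1),(1,1)]) (.cons (.leaf 1 [(11,1),(7,1),(1,1)]) (.cons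 (.keep [1,6,8,9,11] (.node (.cons (.leaf 1 [(8,2),(3,1)]) (.cons (.leaf 1 [(8,1),(4,1)]) (.cons (.leaf 1 [(3,1),(8,2)]) (.cons (.leaf 1 [(4,1),(8,1)]) (.cons (.leaf 1 [(8,2)]) (.cons (.leaf 1 [(5,1),(4,2)]) (.cons (.leaf 1 [(8,2),(3,1)]) (.cons (.leaf 1 [(8,1)]) .nil)))))))))) (.cons (.keep [0,5,9,10,11] (.node (.cons (.keep [3,4,8,10,11] (.node (.cons (.leaf 1 [(3,1)]) (.cons (.leaf 1 [(3,1)]) (.cons (.leaf 1 [(3,1),(7,1)]) (.cons (.leaf 1 [(3,1),(7,1)]) (.cons (.leaf 2 [(8,1),(11,1)]) (.cons (.leaf 1 [(0,1),(11,1)]) (.cons (.leaf 1 [(8,1),(6,1),(3,1)]) (.cons (.leaf 1 [(11,1)]) .nil)))))))))) (.cons (.leaf 1 [(4,1)]) (.cons (.leaf 1 [(1,1),(11,1)]) (.cons (.leaf 1 [(4,1)]) (.cons (.keep [1,4,7,8,11] (.node (.cons (.leaf 1 [(7,1),(3,1)]) (.cons (.leaf 1 [(7,1),(3,1)]) (.cons (.leaf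 1 [(3,1)]) (.cons (.leaf 1 [(3,1)]) (.cons (.leaf 2 [(8,1),(11,1)]) (.cons (.leaf 1 [(7,1),(0,1),(11,1)]) (.cons (.leaf 1 [(8,1),(6,1),(3,1)]) (.cons (.leaf 1 [(11,1)]) .nil)))))))))) (.cons (.leaf 1 [(4,1)]) (.cons (.keep [3,7,8,10,11] (.node (.cons (.leaf 1 [(10,1),(3,1),(7,1)]) (.cons (.leaf 1 [(10,1),(3,1),(7,1)]) (.cons (.leaf 1 [(3,1),(7,1)]) (.cons (.leaf 1 [(3,1),(7,1)]) (.cons (.leaf 2 [(11,1)]) (.cons (.leaf 1 [(10,1),(0,1),(7,1),(11,1)]) (.cons (.leaf 1 [(6,1),(3,1)]) (.cons (.leaf 1 [(11,1)]) .nil)))))))))) (.cons (.leaf 1 []) .nil)))))))))) .nil)))))))))) (.cons (.keep [3,6,8,9,10] (.leaf 0 [(0,0)])) (.cons (.keep [4,8,9,10] (.node (.cons (.keep [2,6,7,8,9] (.node (.cons (.leaf 1 [(8,1)]) (.cons (.leaf 1 [(10,1),(4,1)]) (.cons (.leaf 1 [(1,1),(8,1)]) (.cons (.leaf 1 [(4,1),(10,1)])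 (.cons (.leaf 1 [(1,1),(8,1)]) (.cons (.leaf 1 [(1,1),(4,1)]) (.cons (.leaf 1 [(8,1),(1,1)]) (.cons (.leaf 1 [(10,1)]) .nil)))))))))) (.cons (.keep [2,5,7,8,9] (.node (.cons (.leaf 1 []) (.cons (.leaf 1 [(10,1),(8,1),(4,1)]) (.cons (.leaf 1 [(1,1)]) (.cons (.leaf 1 [(4,1),(10,1),(8,1)]) (.cons (.leaf 1 [(1,1)]) (.cons (.leaf 1 [(4,1),(1,1),(8,1)]) (.cons (.leaf 1 [(1,1)]) (.cons (.leaf 1 [(10,1),(8,1)]) .nil)))))))))) (.cons (.leaf 1 [(8,1)]) (.cons (.leaf 1 [(8,1),(5,1)]) (.cons (.leaf 1 [(9,1),(8,1)]) (.cons (.leaf 1 [(9,1),(8,1),(5,1)]) (.cons (.keep [6,7,8,9,10] (.node (.cons (.leaf 1 [(7,2),(3,1)]) (.cons (.leaf 1 [(7,1),(4,1)]) (.cons (.leaf 1 [(3,1),(7,2)]) (.cons (.leaf 1 [(4,1),(7,1)]) (.cons (.leaf 1 [(7,2)]) (.cons (.leaf 1 [(5,1),(4,2)]) (.cons (.leaf 1 [(7,2),(3,1)]) (.cons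 (.leaf 1 [(7,1)]) .nil)))))))))) (.cons (.keep [0,5,7,8,9] (.node (.cons (.keep [3,4,8,10,11] (.node (.cons (.leaf 1 [(3,1)]) (.cons (.leaf 1 [(3,1)]) (.cons (.leaf 1 [(3,1),(7,1)]) (.cons (.leaf 1 [(3,1),(7,1)]) (.cons (.leaf 2 [(8,1),(11,1)]) (.cons (.leaf 1 [(0,1),(11,1)]) (.cons (.leaf 1 [(8,1),(6,1),(3,1)]) (.cons (.leaf 1 [(11,1)]) .nil)))))))))) (.cons (.leaf 1 [(4,1)]) (.cons (.leaf 1 [(1,1),(11,1)]) (.cons (.leaf 1 [(4,1)]) (.cons (.keep [1,4,7,8,11] (.node (.cons (.leaf 1 [(7,1),(3,1)]) (.cons (.leaf 1 [(7,1),(3,1)]) (.cons (.leaf 1 [(3,1)]) (.cons (.leaf 1 [(3,1)]) (.cons (.leaf 2 [(8,1),(11,1)]) (.cons (.leaf 1 [(7,1),(0,1),(11,1)]) (.cons (.leaf 1 [(8,1),(6,1),(3,1)]) (.cons (.leaf 1 [(11,1)]) .nil)))))))))) (.cons (.leaf 1 [(4,1)]) (.cons (.keep [3,7,8,10,11] (.node (.cons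 (.leaf 1 [(10,1),(3,1),(7,1)]) (.cons (.leaf 1 [(10,1),(3,1),(7,1)]) (.cons (.leaf 1 [(3,1),(7,1)]) (.cons (.leaf 1 [(3,1),(7,1)]) (.cons (.leaf 2 [(11,1)]) (.cons (.leaf 1 [(10,1),(0,1),(7,1),(11,1)]) (.cons (.leaf 1 [(6,1),(3,1)]) (.cons (.leaf 1 [(11,1)]) .nil)))))))))) (.cons (.leaf 1 []) .nil)))))))))) .nil)))))))))) (.cons (.leaf 1 [(2,1)]) (.cons (.leaf 1 [(2,1)]) (.cons (.leaf 1 [(9,1),(6,1),(2,1)]) (.cons (.keep [0,2,7,9] (.node (.cons (.keep [6,7,8,9,10] (.node (.cons (.leaf 1 [(7,1)]) (.cons (.leaf 2 [(9,1),(4,2)]) (.cons (.leaf 1 [(1,1),(7,1)]) (.cons (.leaf 2 [(4,2),(9,1)]) (.cons (.leaf 1 [(1,1),(7,1)]) (.cons (.leaf 1 [(1,1),(4,1)]) (.cons (.leaf 1 [(7,1),(1,1)]) (.cons (.leaf 2 [(9,1)]) .nil)))))))))) (.cons (.keep [4,5,7,8,10] (.node (.cons (.leaf 1 []) (.cons (.leaf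 1 [(10,1),(3,1),(4,1)]) (.cons (.leaf 1 [(1,1)]) (.cons (.leaf 2 [(4,2),(10,1),(8,1)]) (.cons (.leaf 1 [(1,1)]) (.cons (.leaf 1 [(4,1),(1,1),(8,1)]) (.cons (.leaf 1 [(1,1)]) (.cons (.leaf 2 [(10,1),(8,1)]) .nil)))))))))) (.cons (.leaf 2 [(1,1),(8,1)]) (.cons (.leaf 2 [(1,1),(8,1),(5,1)]) (.cons (.leaf 2 [(1,1),(10,2),(8,1)]) (.cons (.leaf 2 [(1,1),(10,2),(8,1),(5,1)]) (.cons (.keep [6,7,8,9,10] (.node (.cons (.leaf 1 [(7,2),(3,1)]) (.cons (.leaf 1 [(7,1),(4,1)]) (.cons (.leaf 1 [(3,1),(7,2)]) (.cons (.leaf 1 [(4,1),(7,1)]) (.cons (.leaf 1 [(7,2)]) (.cons (.leaf 1 [(5,1),(4,2)]) (.cons (.leaf 1 [(7,2),(3,1)]) (.cons (.leaf 1 [(7,1)]) .nil)))))))))) (.cons (.keep [0,5,8,10] (.node (.cons (.keep [3,4,8,9,10] (.node (.cons (.leaf 1 [(3,1)]) (.cons (.leaf 1 [(3,1)]) (.cons (.leaf 1 [(3,1),(7,1)])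 (.cons (.leaf 1 [(3,1),(7,1)]) (.cons (.leaf 2 [(8,1),(11,1)]) (.cons (.leaf 1 [(0,1),(11,1)]) (.cons (.leaf 1 [(8,1),(6,1),(3,1)]) (.cons (.leaf 1 [(11,1)]) .nil)))))))))) (.cons (.leaf 1 [(4,1)]) (.cons (.leaf 1 [(1,1),(10,1)]) (.cons (.leaf 1 [(4,1)]) (.cons (.keep [1,4,7,8,10] (.node (.cons (.leaf 1 [(7,1),(3,1)]) (.cons (.leaf 1 [(7,1),(3,1)]) (.cons (.leaf 1 [(3,1)]) (.cons (.leaf 1 [(3,1)]) (.cons (.leaf 2 [(8,1),(11,1)]) (.cons (.leaf 1 [(7,1),(0,1),(11,1)]) (.cons (.leaf 1 [(8,1),(6,1),(3,1)]) (.cons (.leaf 1 [(11,1)]) .nil)))))))))) (.cons (.leaf 1 [(4,1)]) (.cons (.keep [3,7,8,9,10] (.node (.cons (.leaf 1 [(10,1),(3,1),(7,1)]) (.cons (.leaf 1 [(10,1),(3,1),(7,1)]) (.cons (.leaf 1 [(3,1),(7,1)]) (.cons (.leaf 1 [(3,1),(7,1)]) (.cons (.leaf 2 [(11,1)]) (.cons (.leaf 1 [(10,1),(0,1),(7,1),(11,1)])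 (.cons (.leaf 1 [(6,1),(3,1)]) (.cons (.leaf 1 [(11,1)]) .nil)))))))))) (.cons (.leaf 1 []) .nil)))))))))) .nil)))))))))) .nil)))))))))

theorem c_23_24_28 : Concl 23 24 z_23_24_28 h_23_24_28 .nd := piece _ (hP_cons E53.c_23_24_19
  hP_nil) t_23_24_28 _ _ (by decide +kernel)

def t_23_24 : T := (.keep [0,1,2] (.node (.cons (.keep [2,3,6,9] (.node (.cons (.leaf 1 [(9,1),(7,1)]) (.cons (.keep [2,3,4,7,9] (.node (.cons (.keep [2,6,7,9,11] (.node (.cons (.leaf 1 [(8,1),(3,1)]) (.cons (.leaf 1 [(4,1)]) (.cons (.leaf 1 [(3,1),(8,1)]) (.cons (.leaf 1 [(4,1)]) (.cons (.leaf 1 [(8,1)]) (.cons (.leaf 1 [(4,1)]) (.cons (.leaf 1 [(8,1),(3,1)]) (.cons (.leaf 1 []) .nil)))))))))) (.cons (.keep [2,4,7,9,10,11] (.node (.cons (.leaf 1 [(8,1)]) (.cons (.leaf 1 [(4,1)]) (.cons (.leaf 1 [(1,1),(8,1)])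 (.cons (.leaf 1 [(4,1)]) (.cons (.leaf 1 [(1,1),(8,1)]) (.cons (.leaf 1 [(4,1)]) (.cons (.leaf 1 [(8,1),(1,1)]) (.cons (.leaf 1 []) .nil)))))))))) (.cons (.leaf 1 [(1,1)]) (.cons (.leaf 1 [(1,1)]) (.cons (.leaf 1 [(11,1),(1,1)]) (.cons (.leaf 1 [(11,1),(1,1)]) (.cons (.keep [1,6,8,9,11] (.node (.cons (.leaf 1 [(8,1),(3,1)]) (.cons (.leaf 1 [(4,1)]) (.cons (.leaf 1 [(3,1),(8,1)]) (.cons (.leaf 1 [(4,1)]) (.cons (.leaf 1 [(8,1)]) (.cons (.leaf 1 [(4,1)]) (.cons (.leaf 1 [(8,1),(3,1)]) (.cons (.leaf 1 []) .nil)))))))))) (.cons (.keep [0,5,9,10,11] (.node (.cons (.keep [3,4,8,10,11] (.node (.cons (.leaf 1 [(3,1)]) (.cons (.leaf 1 [(3,1)]) (.cons (.leaf 1 [(3,1),(7,1)]) (.cons (.leaf 1 [(3,1),(7,1)]) (.cons (.leaf 2 [(8,1),(11,1)]) (.cons (.leaf 1 [(0,1),(11,1)]) (.cons (.leaf 1 [(8,1),(6,1),(3,1)])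 (.cons (.leaf 1 [(11,1)]) .nil)))))))))) (.cons (.leaf 1 [(4,1)]) (.cons (.leaf 1 [(1,1),(11,1)]) (.cons (.leaf 1 [(4,1)]) (.cons (.keep [1,4,7,8,11] (.node (.cons (.leaf 1 [(7,1),(3,1)]) (.cons (.leaf 1 [(7,1),(3,1)]) (.cons (.leaf 1 [(3,1)]) (.cons (.leaf 1 [(3,1)]) (.cons (.leaf 2 [(8,1),(11,1)]) (.cons (.leaf 1 [(7,1),(0,1),(11,1)]) (.cons (.leaf 1 [(8,1),(6,1),(3,1)]) (.cons (.leaf 1 [(11,1)]) .nil)))))))))) (.cons (.leaf 1 [(4,1)]) (.cons (.keep [3,7,8,10,11] (.node (.cons (.leaf 1 [(10,1),(3,1),(7,1)]) (.cons (.leaf 1 [(10,1),(3,1),(7,1)]) (.cons (.leaf 1 [(3,1),(7,1)]) (.cons (.leaf 1 [(3,1),(7,1)]) (.cons (.leaf 2 [(11,1)]) (.cons (.leaf 1 [(10,1),(0,1),(7,1),(11,1)]) (.cons (.leaf 1 [(6,1),(3,1)]) (.cons (.leaf 1 [(11,1)]) .nil)))))))))) (.cons (.leaf 1 []) .nil))))))))))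 .nil)))))))))) (.cons (.leaf 1 [(1,1),(9,1),(7,1)]) (.cons (.keep [1,4,7,8,9,10] (.node (.cons (.keep [2,6,7,9,11] (.node (.cons (.leaf 1 [(8,1),(3,1)]) (.cons (.leaf 1 [(4,1)]) (.cons (.leaf 1 [(3,1),(8,1)]) (.cons (.leaf 1 [(4,1)]) (.cons (.leaf 1 [(8,1)]) (.cons (.leaf 1 [(4,1)]) (.cons (.leaf 1 [(8,1),(3,1)]) (.cons (.leaf 1 []) .nil)))))))))) (.cons (.keep [2,4,8,9,10,11] (.node (.cons (.leaf 1 [(8,1)]) (.cons (.leaf 1 [(4,1)]) (.cons (.leaf 1 [(1,1),(8,1)]) (.cons (.leaf 1 [(4,1)]) (.cons (.leaf 1 [(1,1),(8,1)]) (.cons (.leaf 1 [(4,1)]) (.cons (.leaf 1 [(8,1),(1,1)]) (.cons (.leaf 1 []) .nil)))))))))) (.cons (.leaf 1 [(1,1)]) (.cons (.leaf 1 [(1,1)]) (.cons (.leaf 1 [(11,1),(1,1)]) (.cons (.leaf 1 [(11,1),(1,1)]) (.cons (.keep [6,7,8,9,11,12] (.node (.cons (.leaf 1 [(7,1),(3,1)])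 (.cons (.leaf 1 [(4,1)]) (.cons (.leaf 1 [(3,1),(7,1)]) (.cons (.leaf 1 [(4,1)]) (.cons (.leaf 1 [(7,1)]) (.cons (.leaf 1 [(4,1)]) (.cons (.leaf 1 [(7,1),(3,1)]) (.cons (.leaf 1 []) .nil)))))))))) (.cons (.keep [0,5,8,9,11] (.node (.cons (.keep [3,4,8,10,11] (.node (.cons (.leaf 1 [(3,1)]) (.cons (.leaf 1 [(3,1)]) (.cons (.leaf 1 [(3,1),(7,1)]) (.cons (.leaf 1 [(3,1),(7,1)]) (.cons (.leaf 2 [(8,1),(11,1)]) (.cons (.leaf 1 [(0,1),(11,1)]) (.cons (.leaf 1 [(8,1),(6,1),(3,1)]) (.cons (.leaf 1 [(11,1)]) .nil)))))))))) (.cons (.leaf 1 [(4,1)]) (.cons (.leaf 1 [(1,1),(11,1)]) (.cons (.leaf 1 [(4,1)]) (.cons (.keep [1,4,7,8,11] (.node (.cons (.leaf 1 [(7,1),(3,1)]) (.cons (.leaf 1 [(7,1),(3,1)]) (.cons (.leaf 1 [(3,1)]) (.cons (.leaf 1 [(3,1)]) (.cons (.leaf 2 [(8,1),(11,1)]) (.cons (.leaf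 1 [(7,1),(0,1),(11,1)]) (.cons (.leaf 1 [(8,1),(6,1),(3,1)]) (.cons (.leaf 1 [(11,1)]) .nil)))))))))) (.cons (.leaf 1 [(4,1)]) (.cons (.keep [3,7,8,10,11] (.node (.cons (.leaf 1 [(10,1),(3,1),(7,1)]) (.cons (.leaf 1 [(10,1),(3,1),(7,1)]) (.cons (.leaf 1 [(3,1),(7,1)]) (.cons (.leaf 1 [(3,1),(7,1)]) (.cons (.leaf 2 [(11,1)]) (.cons (.leaf 1 [(10,1),(0,1),(7,1),(11,1)]) (.cons (.leaf 1 [(6,1),(3,1)]) (.cons (.leaf 1 [(11,1)]) .nil)))))))))) (.cons (.leaf 1 []) .nil)))))))))) .nil)))))))))) (.cons (.leaf 1 [(1,1)]) (.cons (.leaf 1 [(1,1)]) (.cons (.leaf 1 [(9,1),(6,1),(1,1)]) (.cons (.keep [0,1,8,9] (.node (.cons (.keep [4,7,8,10] (.node (.cons (.leaf 1 [(7,1)]) (.cons (.leaf 1 [(4,1)]) (.cons (.leaf 1 [(1,1),(7,1)]) (.cons (.leaf 1 [(4,1)]) (.cons (.leaf 1 [(1,1),(7,1)]) (.cons (.leaf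 1 [(4,1)]) (.cons (.leaf 1 [(7,1),(1,1)]) (.cons (.leaf 1 []) .nil)))))))))) (.cons (.keep [4,5,7,8,10] (.node (.cons (.leaf 1 [(7,1)]) (.cons (.leaf 1 [(4,1)]) (.cons (.leaf 1 [(1,1),(7,1)]) (.cons (.leaf 1 [(4,1)]) (.cons (.leaf 1 [(1,1),(7,1)]) (.cons (.leaf 1 [(4,1)]) (.cons (.leaf 1 [(7,1),(1,1)]) (.cons (.leaf 1 []) .nil)))))))))) (.cons (.leaf 1 [(1,1)]) (.cons (.leaf 1 [(1,1)]) (.cons (.leaf 1 [(10,1),(1,1)]) (.cons (.leaf 1 [(10,1),(1,1)]) (.cons (.keep [1,6,7,10] (.node (.cons (.leaf 1 [(8,1),(3,1)]) (.cons (.leaf 1 [(4,1)]) (.cons (.leaf 1 [(3,1),(8,1)]) (.cons (.leaf 1 [(4,1)]) (.cons (.leaf 1 [(8,1)]) (.cons (.leaf 1 [(4,1)]) (.cons (.leaf 1 [(8,1),(3,1)]) (.cons (.leaf 1 []) .nil)))))))))) (.cons (.keep [0,5,8,10] (.node (.cons (.keep [3,4,8,9,10] (.node (.cons (.leaf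 1 [(3,1)]) (.cons (.leaf 1 [(3,1)]) (.cons (.leaf 1 [(3,1),(7,1)]) (.cons (.leaf 1 [(3,1),(7,1)]) (.cons (.leaf 2 [(8,1),(11,1)]) (.cons (.leaf 1 [(0,1),(11,1)]) (.cons (.leaf 1 [(8,1),(6,1),(3,1)]) (.cons (.leaf 1 [(11,1)]) .nil)))))))))) (.cons (.leaf 1 [(4,1)]) (.cons (.leaf 1 [(1,1),(10,1)]) (.cons (.leaf 1 [(4,1)]) (.cons (.keep [1,4,7,8,10] (.node (.cons (.leaf 1 [(7,1),(3,1)]) (.cons (.leaf 1 [(7,1),(3,1)]) (.cons (.leaf 1 [(3,1)]) (.cons (.leaf 1 [(3,1)]) (.cons (.leaf 2 [(8,1),(11,1)]) (.cons (.leaf 1 [(7,1),(0,1),(11,1)]) (.cons (.leaf 1 [(8,1),(6,1),(3,1)]) (.cons (.leaf 1 [(11,1)]) .nil)))))))))) (.cons (.leaf 1 [(4,1)]) (.cons (.keep [3,7,8,9,10] (.node (.cons (.leaf 1 [(10,1),(3,1),(7,1)]) (.cons (.leaf 1 [(10,1),(3,1),(7,1)]) (.cons (.leaf 1 [(3,1),(7,1)]) (.cons (.leaf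 1 [(3,1),(7,1)]) (.cons (.leaf 2 [(11,1)]) (.cons (.leaf 1 [(10,1),(0,1),(7,1),(11,1)]) (.cons (.leaf 1 [(6,1),(3,1)]) (.cons (.leaf 1 [(11,1)]) .nil)))))))))) (.cons (.leaf 1 []) .nil)))))))))) .nil)))))))))) .nil)))))))))) (.cons (.keep [0,2,3,5] (.node (.cons (.leaf 1 [(8,1)]) (.cons (.keep [2,4,7,8,10] (.node (.cons (.keep [3,6,7,8,11] (.node (.cons (.leaf 1 [(3,1),(8,1),(11,1)]) (.cons (.leaf 1 [(4,1),(11,1)]) (.cons (.leaf 1 [(1,1)]) (.cons (.leaf 1 [(1,1)]) (.cons (.leaf 1 [(8,1),(11,1)]) (.cons (.leaf 1 [(4,1),(11,1)]) (.cons (.leaf 1 [(3,1),(8,1),(11,1)]) (.cons (.leaf 1 [(11,1)]) .nil)))))))))) (.cons (.keep [3,4,7,8,10,11] (.node (.cons (.leaf 1 [(8,1),(12,1)]) (.cons (.leaf 1 [(4,1),(12,1)]) (.cons (.leaf 1 [(1,1)]) (.cons (.leaf 1 [(1,1)]) (.cons (.leaf 1 [(8,1),(1,1),(12,1)])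 (.cons (.leaf 1 [(4,1),(12,1)]) (.cons (.leaf 1 [(8,1),(12,1),(1,1)]) (.cons (.leaf 1 [(12,1)]) .nil)))))))))) (.cons (.leaf 1 [(1,1),(11,1)]) (.cons (.leaf 1 [(1,1),(11,1)]) (.cons (.leaf 1 [(1,1)]) (.cons (.leaf 1 [(1,1)]) (.cons (.keep [1,6,8,9,11] (.node (.cons (.leaf 1 [(3,1),(8,1),(11,1)]) (.cons (.leaf 1 [(4,1),(11,1)]) (.cons (.leaf 1 [(1,1)]) (.cons (.leaf 1 [(1,1)]) (.cons (.leaf 1 [(8,1),(11,1)]) (.cons (.leaf 1 [(4,1),(11,1)]) (.cons (.leaf 1 [(3,1),(8,1),(11,1)]) (.cons (.leaf 1 [(11,1)]) .nil)))))))))) (.cons (.keep [0,5,8,10,11] (.node (.cons (.keep [3,4,7,8,10,11] (.node (.cons (.leaf 1 [(8,1)]) (.cons (.leaf 1 [(4,1)]) (.cons (.leaf 1 [(1,1),(8,1)]) (.cons (.leaf 1 [(4,1)]) (.cons (.leaf 1 [(1,1),(8,1)]) (.cons (.leaf 1 [(4,1)]) (.cons (.leaf 1 [(8,1),(1,1)]) (.cons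 (.leaf 1 []) .nil)))))))))) (.cons (.leaf 1 [(4,1),(11,1)]) (.cons (.leaf 1 [(1,1)]) (.cons (.leaf 1 [(1,1)]) (.cons (.keep [1,4,7,8,11] (.node (.cons (.leaf 1 [(8,1),(2,1)]) (.cons (.leaf 1 [(4,1)]) (.cons (.leaf 1 [(8,1)]) (.cons (.leaf 1 [(4,1)]) (.cons (.leaf 1 [(8,1),(2,1)]) (.cons (.leaf 1 [(4,1)]) (.cons (.leaf 1 [(8,1),(2,1)]) (.cons (.leaf 1 []) .nil)))))))))) (.cons (.leaf 1 [(4,1),(11,1)]) (.cons (.keep [3,7,8,10,11] (.node (.cons (.leaf 2 [(11,1),(3,1)]) (.cons (.leaf 1 [(4,1)]) (.cons (.leaf 2 [(3,1),(11,1)]) (.cons (.leaf 1 [(4,1)]) (.cons (.leaf 2 [(11,1)]) (.cons (.leaf 1 [(4,1)]) (.cons (.leaf 2 [(11,1),(3,1)]) (.cons (.leaf 1 []) .nil)))))))))) (.cons (.leaf 1 [(11,1)]) .nil)))))))))) .nil)))))))))) (.cons (.leaf 1 [(1,1),(8,1)]) (.cons (.keep [1,4,7,8,9,10] (.node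 (.cons (.keep [3,6,7,10,12] (.node (.cons (.leaf 1 [(3,1),(8,1),(11,1)]) (.cons (.leaf 1 [(4,1),(11,1)]) (.cons (.leaf 1 [(1,1)]) (.cons (.leaf 1 [(1,1)]) (.cons (.leaf 1 [(8,1),(11,1)]) (.cons (.leaf 1 [(4,1),(11,1)]) (.cons (.leaf 1 [(3,1),(8,1),(11,1)]) (.cons (.leaf 1 [(11,1)]) .nil)))))))))) (.cons (.keep [3,4,8,10,11,12] (.node (.cons (.leaf 1 [(8,1),(12,1)]) (.cons (.leaf 1 [(4,1),(12,1)]) (.cons (.leaf 1 [(1,1)]) (.cons (.leaf 1 [(1,1)]) (.cons (.leaf 1 [(8,1),(1,1),(12,1)]) (.cons (.leaf 1 [(4,1),(12,1)]) (.cons (.leaf 1 [(1,1),(8,1),(12,1)]) (.cons (.leaf 1 [(12,1)]) .nil)))))))))) (.cons (.leaf 1 [(1,1),(12,1)]) (.cons (.leaf 1 [(1,1),(12,1)]) (.cons (.leaf 1 [(1,1)]) (.cons (.leaf 1 [(1,1)]) (.cons (.keep [6,7,8,9,10,12] (.node (.cons (.leaf 1 [(3,2),(11,1),(12,1)]) (.cons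 (.leaf 1 [(4,1),(12,1)]) (.cons (.leaf 1 [(1,1)]) (.cons (.leaf 1 [(1,1)]) (.cons (.leaf 1 [(7,1),(12,1)]) (.cons (.leaf 1 [(4,1),(12,1)]) (.cons (.leaf 1 [(3,1),(7,1),(12,1)]) (.cons (.leaf 1 [(12,1)]) .nil)))))))))) (.cons (.keep [0,5,8,10,12] (.node (.cons (.keep [3,4,7,8,10,11] (.node (.cons (.leaf 1 [(8,1)]) (.cons (.leaf 1 [(4,1)]) (.cons (.leaf 1 [(1,1),(8,1)]) (.cons (.leaf 1 [(4,1)]) (.cons (.leaf 1 [(1,1),(8,1)]) (.cons (.leaf 1 [(4,1)]) (.cons (.leaf 1 [(8,1),(1,1)]) (.cons (.leaf 1 []) .nil)))))))))) (.cons (.leaf 1 [(4,1),(11,1)]) (.cons (.leaf 1 [(1,1)]) (.cons (.leaf 1 [(1,1)]) (.cons (.keep [1,4,7,8,11] (.node (.cons (.leaf 1 [(8,1),(2,1)]) (.cons (.leaf 1 [(4,1)]) (.cons (.leaf 1 [(8,1)]) (.cons (.leaf 1 [(4,1)]) (.cons (.leaf 1 [(8,1),(2,1)]) (.cons (.leaf 1 [(4,1)])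 (.cons (.leaf 1 [(8,1),(2,1)]) (.cons (.leaf 1 []) .nil)))))))))) (.cons (.leaf 1 [(4,1),(11,1)]) (.cons (.keep [3,7,8,10,11] (.node (.cons (.leaf 2 [(11,1),(3,1)]) (.cons (.leaf 1 [(4,1)]) (.cons (.leaf 2 [(3,1),(11,1)]) (.cons (.leaf 1 [(4,1)]) (.cons (.leaf 2 [(11,1)]) (.cons (.leaf 1 [(4,1)]) (.cons (.leaf 2 [(11,1),(3,1)]) (.cons (.leaf 1 []) .nil)))))))))) (.cons (.leaf 1 [(11,1)]) .nil)))))))))) .nil)))))))))) (.cons (.leaf 1 [(1,1),(8,1)]) (.cons (.leaf 1 [(1,1),(10,1)]) (.cons (.leaf 1 [(6,1),(1,1)]) (.cons (.keep [0,1,9,10] (.node (.cons (.keep [4,7,8,10] (.node (.cons (.leaf 1 [(7,1),(10,1)]) (.cons (.leaf 1 [(4,1),(10,1)]) (.cons (.leaf 1 [(1,1)]) (.cons (.leaf 1 [(1,1)]) (.cons (.leaf 1 [(7,1),(1,1),(10,1)]) (.cons (.leaf 1 [(4,1),(10,1)]) (.cons (.leaf 1 [(7,1),(10,1),(1,1)])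 (.cons (.leaf 1 [(10,1)]) .nil)))))))))) (.cons (.keep [4,5,7,8,10] (.node (.cons (.leaf 1 [(7,1),(11,1)]) (.cons (.leaf 1 [(4,1),(11,1)]) (.cons (.leaf 1 [(1,1)]) (.cons (.leaf 1 [(1,1)]) (.cons (.leaf 1 [(7,1),(1,1),(11,1)]) (.cons (.leaf 1 [(4,1),(11,1)]) (.cons (.leaf 1 [(7,1),(11,1),(1,1)]) (.cons (.leaf 1 [(11,1)]) .nil)))))))))) (.cons (.leaf 1 [(1,1),(10,1)]) (.cons (.leaf 1 [(1,1),(10,1)]) (.cons (.leaf 1 [(1,1)]) (.cons (.leaf 1 [(1,1)]) (.cons (.keep [1,6,7,10] (.node (.cons (.leaf 1 [(3,1),(8,1),(10,1)]) (.cons (.leaf 1 [(4,1),(10,1)]) (.cons (.leaf 1 [(1,1)]) (.cons (.leaf 1 [(1,1)]) (.cons (.leaf 1 [(8,1),(10,1)]) (.cons (.leaf 1 [(4,1),(10,1)]) (.cons (.leaf 1 [(3,1),(8,1),(10,1)]) (.cons (.leaf 1 [(10,1)]) .nil)))))))))) (.cons (.keep [0,5,8,10] (.node (.cons (.keep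 [3,4,7,8,9,10] (.node (.cons (.leaf 1 [(8,1)]) (.cons (.leaf 1 [(4,1)]) (.cons (.leaf 1 [(1,1),(8,1)]) (.cons (.leaf 1 [(4,1)]) (.cons (.leaf 1 [(1,1),(8,1)]) (.cons (.leaf 1 [(4,1)]) (.cons (.leaf 1 [(8,1),(1,1)]) (.cons (.leaf 1 []) .nil)))))))))) (.cons (.leaf 1 [(4,1),(10,1)]) (.cons (.leaf 1 [(1,1)]) (.cons (.leaf 1 [(1,1)]) (.cons (.keep [1,4,7,8,10] (.node (.cons (.leaf 1 [(8,1),(2,1)]) (.cons (.leaf 1 [(4,1)]) (.cons (.leaf 1 [(8,1)]) (.cons (.leaf 1 [(4,1)]) (.cons (.leaf 1 [(8,1),(2,1)]) (.cons (.leaf 1 [(4,1)]) (.cons (.leaf 1 [(8,1),(2,1)]) (.cons (.leaf 1 []) .nil)))))))))) (.cons (.leaf 1 [(4,1),(10,1)]) (.cons (.keep [3,7,8,9,10] (.node (.cons (.leaf 2 [(11,1),(3,1)]) (.cons (.leaf 1 [(4,1)]) (.cons (.leaf 2 [(3,1),(11,1)]) (.cons (.leaf 1 [(4,1)]) (.cons (.leaf 2 [(11,1)])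 (.cons (.leaf 1 [(4,1)]) (.cons (.leaf 2 [(11,1),(3,1)]) (.cons (.leaf 1 []) .nil)))))))))) (.cons (.leaf 1 [(10,1)]) .nil)))))))))) .nil)))))))))) .nil)))))))))) (.cons (.keep [1,3,6,7] (.leaf 0 [(0,0)])) (.cons (.keep [1,3,5,7] (.leaf 0 [(1,0)])) (.cons (.keep [1,2,6,8] (.leaf 0 [(2,0)])) (.cons (.keep [1,2,5,8] (.leaf 0 [(3,0)])) (.cons (.leaf 1 [(6,1)]) (.cons (.leaf 1 []) .nil))))))))))

theorem e_23_24 : ESB (caseOf 4 23 24) := esb_of_pieces _ (hP_cons E53.c_23_24_25 (hP_cons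
  E53.c_23_24_26 (hP_cons c_23_24_28 (hP_cons E53.c_23_24_27 hP_nil)))) t_23_24 (by
  decide +kernel)

def ks : List (ℕ × ℕ) := [(23, 24)]

theorem ks_ok : ∀ p ∈ ks, ESB (caseOf 4 p.1 p.2) := ks_cons e_23_24 <| ks_nil

end Pool.Agent.H4.RD4.E54
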