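import Pool.Agent.H4.RD4.E60

/-! # Certificates for special cases of order four -/

set_option maxRecDepth 20000

namespace Pool.Agent.H4.RD4.E61

open Pool.Agent.H50.Rdb
open Pool.Agent.H81.RDE (ESB caseOf)

def z_30_24_1 : F := ⟨1, -1, -1, 0, 2⟩

def h_30_24_1 : List F := [⟨1, -1, 0, 0, 0⟩, ⟨0, 0, 1, -1, 0⟩, ⟨0, 1, -1, 0, 0⟩, ⟨0, -1, 0, 0, 1⟩]

def t_30_24_1 : T := (.node (.cons (.keep [2,6,8,10] (.node (.cons (.keep [2,6,7,8,10] (.node (.cons (.leaf 1 [(2,1),(11,1),(3,2)]) (.cons (.leaf 1 [(2,1),(11,1),(4,2)]) (.cons (.leaf 1 [(11,1),(3,2),(10,1)]) (.cons (.leaf 1 [(11,1),(4,2),(10,1)]) (.cons (.leaf 1 [(10,1),(11,1)]) (.cons (.leaf 1 [(11,1),(4,2),(10,1)]) (.cons (.leaf 1 [(10,1),(11,1),(3,2)]) (.cons (.leaf 1 [(10,1),(11,1)]) .nil)))))))))) (.cons (.keep [2,4,7,8,10] (.node (.cons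 (.leaf 1 [(11,1),(3,3)]) (.cons (.leaf 1 [(3,1),(11,1),(4,2)]) (.cons (.leaf 1 [(11,1),(3,3),(10,1)]) (.cons (.leaf 1 [(3,1),(4,2),(11,1),(10,1)]) (.cons (.keep [4,7,8,10,11] (.node (.cons (.leaf 1 [(3,1)]) (.cons (.leaf 1 [(4,1)]) (.cons (.leaf 1 [(3,1)]) (.cons (.leaf 1 [(4,1)]) (.cons (.leaf 1 []) (.cons (.leaf 1 [(4,1)]) (.cons (.leaf 1 [(3,1)]) (.cons (.leaf 1 []) .nil)))))))))) (.cons (.keep [4,7,9,10,11] (.node (.cons (.leaf 1 [(3,1),(7,1)]) (.cons (.leaf 1 [(4,1),(7,1)]) (.cons (.leaf 1 [(3,2)]) (.cons (.leaf 1 [(4,1),(3,1)]) (.cons (.leaf 1 [(7,1)]) (.cons (.leaf 1 [(7,1),(4,1)]) (.cons (.leaf 1 [(7,1),(3,1)]) (.cons (.leaf 1 [(7,1)]) .nil)))))))))) (.cons (.keep [3,7,9,10,11] (.node (.cons (.leaf 1 [(2,1)]) (.cons (.leaf 1 [(4,1),(7,1)]) (.cons (.leaf 1 []) (.cons (.leaf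 1 [(4,1),(7,1)]) (.cons (.leaf 1 [(2,1)]) (.cons (.leaf 1 [(2,1),(4,1)]) (.cons (.leaf 1 [(2,1)]) (.cons (.leaf 1 [(7,1)]) .nil)))))))))) (.cons (.keep [0,3,8,10,11] (.node (.cons (.leaf 1 [(3,1)]) (.cons (.leaf 1 [(4,1)]) (.cons (.leaf 1 [(3,1)]) (.cons (.leaf 1 [(4,1)]) (.cons (.leaf 1 []) (.cons (.leaf 1 [(4,1)]) (.cons (.leaf 1 [(3,1)]) (.cons (.leaf 1 []) .nil)))))))))) .nil)))))))))) (.cons (.keep [1,3,6,7,9,10] (.node (.cons (.leaf 1 [(7,1),(3,2)]) (.cons (.leaf 1 [(7,1),(4,2)]) (.cons (.leaf 1 [(7,1),(3,2)]) (.cons (.leaf 1 [(7,1),(4,2)]) (.cons (.leaf 1 [(7,1)]) (.cons (.leaf 1 [(7,1),(4,2)]) (.cons (.leaf 1 [(7,1),(3,2)]) (.cons (.leaf 1 [(7,1)]) .nil)))))))))) (.cons (.keep [1,4,5,7,9,10] (.node (.cons (.leaf 1 [(7,1),(3,2)]) (.cons (.leaf 1 [(7,1),(4,2)]) (.cons (.leaf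 1 [(7,1),(3,2)]) (.cons (.leaf 1 [(7,1),(4,2)]) (.cons (.leaf 1 [(7,1)]) (.cons (.leaf 1 [(7,1),(4,2)]) (.cons (.leaf 1 [(7,1),(3,2)]) (.cons (.leaf 1 [(7,1)]) .nil)))))))))) (.cons (.keep [1,4,7,8,9] (.node (.cons (.leaf 1 [(2,1),(7,1),(3,2)]) (.cons (.leaf 1 [(2,1),(7,1),(4,2)]) (.cons (.leaf 1 [(7,1),(3,2),(10,1)]) (.cons (.leaf 1 [(7,1),(4,2),(10,1)]) (.cons (.leaf 1 [(10,1),(7,1)]) (.cons (.leaf 1 [(7,1),(4,2),(10,1)]) (.cons (.leaf 1 [(10,1),(7,1),(3,2)]) (.cons (.leaf 1 [(10,1),(7,1)]) .nil)))))))))) (.cons (.keep [1,4,5,7,8,9] (.node (.cons (.leaf 1 [(2,1),(7,1),(3,2)]) (.cons (.leaf 1 [(2,1),(7,1),(4,2)]) (.cons (.leaf 1 [(7,1),(3,2),(11,1)]) (.cons (.leaf 1 [(7,1),(4,2),(11,1)]) (.cons (.leaf 1 [(11,1),(7,1)]) (.cons (.leaf 1 [(7,1),(4,2),(11,1)]) (.cons (.leaf 1 [(11,1),(7,1),(3,2)])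 (.cons (.leaf 1 [(11,1),(7,1)]) .nil)))))))))) (.cons (.keep [1,6,7,8,9] (.node (.cons (.leaf 1 [(7,1),(3,3)]) (.cons (.leaf 1 [(3,1),(7,1),(4,2)]) (.cons (.leaf 1 [(7,1),(3,3),(10,1)]) (.cons (.leaf 1 [(3,1),(4,2),(7,1),(10,1)]) (.cons (.leaf 1 [(10,1),(8,1),(7,1)]) (.cons (.leaf 1 [(7,1),(8,1),(4,2),(10,1)]) (.cons (.leaf 1 [(10,1),(8,1),(3,2),(7,1)]) (.cons (.leaf 1 [(10,1),(8,1),(7,1)]) .nil)))))))))) (.cons (.keep [0,1,7,8,9] (.node (.cons (.leaf 1 [(8,1),(3,3)]) (.cons (.leaf 1 [(3,1),(8,1),(4,2)]) (.cons (.leaf 1 [(8,1),(3,3),(10,1)]) (.cons (.leaf 1 [(3,1),(4,2),(8,1),(10,1)]) (.cons (.keep [4,7,8,10] (.node (.cons (.leaf 1 [(3,1)]) (.cons (.leaf 1 [(4,1)]) (.cons (.leaf 1 [(3,1)]) (.cons (.leaf 1 [(4,1)]) (.cons (.leaf 1 []) (.cons (.leaf 1 [(4,1)]) (.cons (.leaf 1 [(3,1)])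 (.cons (.leaf 1 []) .nil)))))))))) (.cons (.keep [4,5,7,8,10] (.node (.cons (.leaf 1 [(3,1),(7,1)]) (.cons (.leaf 1 [(4,1),(7,1)]) (.cons (.leaf 1 [(3,2)]) (.cons (.leaf 1 [(4,1),(3,1)]) (.cons (.leaf 1 [(7,1)]) (.cons (.leaf 1 [(7,1),(4,1)]) (.cons (.leaf 1 [(7,1),(3,1)]) (.cons (.leaf 1 [(7,1)]) .nil)))))))))) (.cons (.keep [3,6,7,8,10] (.node (.cons (.leaf 1 [(2,1)]) (.cons (.leaf 1 [(4,1),(7,1)]) (.cons (.leaf 1 []) (.cons (.leaf 1 [(4,1),(7,1)]) (.cons (.leaf 1 [(2,1)]) (.cons (.leaf 1 [(2,1),(4,1)]) (.cons (.leaf 1 [(2,1)]) (.cons (.leaf 1 [(7,1)]) .nil)))))))))) (.cons (.keep [0,3,8,10] (.node (.cons (.leaf 1 [(3,1)]) (.cons (.leaf 1 [(4,1)]) (.cons (.leaf 1 [(3,1)]) (.cons (.leaf 1 [(4,1)]) (.cons (.leaf 1 []) (.cons (.leaf 1 [(4,1)]) (.cons (.leaf 1 [(3,1)]) (.cons (.leaf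 1 []) .nil)))))))))) .nil)))))))))) .nil)))))))))) (.cons (.keep [2,4,5,8,10] (.leaf 0 [(0,0)])) (.cons (.keep [1,3,6,9,10] (.node (.cons (.leaf 1 [(3,1),(7,1),(9,1)]) (.cons (.keep [2,4,7,9,10,11] (.node (.cons (.leaf 1 [(3,2)]) (.cons (.leaf 1 [(4,1),(3,1)]) (.cons (.leaf 1 [(3,2),(10,1)]) (.cons (.leaf 1 [(3,1),(10,1),(4,1)]) (.cons (.keep [4,7,8,9,10] (.node (.cons (.leaf 1 [(3,1),(9,1)]) (.cons (.leaf 1 [(4,1),(9,1)]) (.cons (.leaf 1 [(3,1),(9,1)]) (.cons (.leaf 1 [(4,1),(9,1)]) (.cons (.leaf 1 [(9,1)]) (.cons (.leaf 1 [(9,1),(4,1)]) (.cons (.leaf 1 [(9,1),(3,1)]) (.cons (.leaf 1 [(9,1)]) .nil)))))))))) (.cons (.keep [7,8,9,10,11,12] (.node (.cons (.leaf 1 [(3,1),(8,1)]) (.cons (.leaf 1 [(4,1),(8,1)]) (.cons (.leaf 1 [(3,1),(8,1)]) (.cons (.leaf 1 [(4,1),(8,1)]) (.cons (.leaf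 1 [(8,1)]) (.cons (.leaf 1 [(4,1),(8,1)]) (.cons (.leaf 1 [(8,1),(3,1)]) (.cons (.leaf 1 [(8,1)]) .nil)))))))))) (.cons (.keep [7,8,9,10,11,12] (.node (.cons (.leaf 1 [(3,1),(8,1)]) (.cons (.leaf 1 [(8,1),(4,1)]) (.cons (.leaf 1 [(3,1),(8,1)]) (.cons (.leaf 1 [(8,1),(4,1)]) (.cons (.leaf 1 [(8,1)]) (.cons (.leaf 1 [(8,1),(4,1)]) (.cons (.leaf 1 [(8,1),(3,1)]) (.cons (.leaf 1 [(8,1)]) .nil)))))))))) (.cons (.keep [0,3,8,9,10] (.node (.cons (.leaf 1 [(3,1),(9,1)]) (.cons (.leaf 1 [(9,1),(4,1)]) (.cons (.leaf 1 [(3,1),(9,1)]) (.cons (.leaf 1 [(4,1),(9,1)]) (.cons (.leaf 1 [(9,1)]) (.cons (.leaf 1 [(9,1),(4,1)]) (.cons (.leaf 1 [(9,1),(3,1)]) (.cons (.leaf 1 [(9,1)]) .nil)))))))))) .nil)))))))))) (.cons (.leaf 1 [(7,1),(1,1),(3,2)]) (.cons (.leaf 1 [(7,1),(1,1),(4,2)]) (.cons (.leaf 1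 [(7,1),(9,1),(1,1)]) (.cons (.leaf 1 [(7,1),(1,1),(4,2),(9,1)]) (.cons (.leaf 1 [(7,1),(9,1),(3,1),(1,1)]) (.cons (.keep [0,1,7,9,10] (.node (.cons (.leaf 1 [(3,2),(8,1)]) (.cons (.leaf 1 [(4,1),(8,1),(3,1)]) (.cons (.leaf 1 [(10,1),(3,2),(8,1)]) (.cons (.leaf 1 [(10,1),(4,1),(8,1),(3,1)]) (.cons (.keep [4,7,8,10] (.node (.cons (.leaf 1 [(3,1)]) (.cons (.leaf 1 [(4,1)]) (.cons (.leaf 1 [(3,1)]) (.cons (.leaf 1 [(4,1)]) (.cons (.leaf 1 []) (.cons (.leaf 1 [(4,1)]) (.cons (.leaf 1 [(3,1)]) (.cons (.leaf 1 []) .nil)))))))))) (.cons (.keep [4,5,7,8,10] (.node (.cons (.leaf 1 [(3,1)]) (.cons (.leaf 1 [(4,1)]) (.cons (.leaf 1 [(3,1)]) (.cons (.leaf 1 [(4,1)]) (.cons (.leaf 1 []) (.cons (.leaf 1 [(4,1)]) (.cons (.leaf 1 [(3,1)]) (.cons (.leaf 1 []) .nil)))))))))) (.cons (.keep [3,6,7,8,10]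 (.node (.cons (.leaf 1 [(3,1)]) (.cons (.leaf 1 [(4,1)]) (.cons (.leaf 1 [(3,1)]) (.cons (.leaf 1 [(4,1)]) (.cons (.leaf 1 []) (.cons (.leaf 1 [(4,1)]) (.cons (.leaf 1 [(3,1)]) (.cons (.leaf 1 []) .nil)))))))))) (.cons (.keep [0,3,8,10] (.node (.cons (.leaf 1 [(3,1)]) (.cons (.leaf 1 [(4,1)]) (.cons (.leaf 1 [(3,1)]) (.cons (.leaf 1 [(4,1)]) (.cons (.leaf 1 []) (.cons (.leaf 1 [(4,1)]) (.cons (.leaf 1 [(3,1)]) (.cons (.leaf 1 []) .nil)))))))))) .nil)))))))))) .nil)))))))))) (.cons (.keep [1,4,5,9,10] (.node (.cons (.leaf 1 [(3,1),(7,1)]) (.cons (.keep [4,5,7,9,10,11] (.node (.cons (.leaf 1 [(3,2),(10,1)]) (.cons (.leaf 1 [(3,1),(10,1),(4,1)]) (.cons (.leaf 1 [(3,2)]) (.cons (.leaf 1 [(4,1),(3,1)]) (.cons (.keep [2,4,7,9,10] (.node (.cons (.leaf 1 [(2,1)]) (.cons (.leaf 1 [(2,1)])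 (.cons (.leaf 1 [(3,1),(9,1),(11,1)]) (.cons (.leaf 1 [(4,1),(9,1),(11,1)]) (.cons (.leaf 1 [(11,1),(9,1)]) (.cons (.leaf 1 [(4,1),(9,1),(11,1)]) (.cons (.leaf 1 [(3,1),(9,1),(11,1)]) (.cons (.leaf 1 [(11,1),(9,1)]) .nil)))))))))) (.cons (.keep [2,7,9,10,11,12] (.node (.cons (.leaf 1 [(3,1)]) (.cons (.leaf 1 [(3,1)]) (.cons (.leaf 1 [(10,1),(3,1),(8,1)]) (.cons (.leaf 1 [(4,1),(8,1),(10,1)]) (.cons (.leaf 1 [(10,1),(8,1)]) (.cons (.leaf 1 [(4,1),(8,1),(10,1)]) (.cons (.leaf 1 [(10,1),(8,1),(3,1)]) (.cons (.leaf 1 [(10,1),(8,1)]) .nil)))))))))) (.cons (.keep [7,8,9,10,11,12] (.node (.cons (.leaf 1 [(2,1),(7,1),(9,1)]) (.cons (.leaf 1 [(2,1),(7,1),(9,1)]) (.cons (.leaf 1 [(3,1),(7,1),(10,1)]) (.cons (.leaf 1 [(4,1),(7,1),(10,1)]) (.cons (.leaf 1 [(10,1),(7,1)]) (.cons (.leaf 1 [(4,1),(7,1),(10,1)])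 (.cons (.leaf 1 [(10,1),(3,1),(7,1)]) (.cons (.leaf 1 [(10,1),(7,1)]) .nil)))))))))) (.cons (.keep [0,3,7,9,10] (.node (.cons (.leaf 1 [(2,1)]) (.cons (.leaf 1 [(2,1)]) (.cons (.leaf 1 [(3,1),(9,1),(11,1)]) (.cons (.leaf 1 [(4,1),(9,1),(11,1)]) (.cons (.leaf 1 [(11,1),(9,1)]) (.cons (.leaf 1 [(4,1),(9,1),(11,1)]) (.cons (.leaf 1 [(3,1),(9,1),(11,1)]) (.cons (.leaf 1 [(11,1),(9,1)]) .nil)))))))))) .nil)))))))))) (.cons (.leaf 1 [(7,1),(3,1),(1,1)]) (.cons (.leaf 1 [(7,1),(4,2),(1,1),(9,1)]) (.cons (.leaf 1 [(7,1),(1,1)]) (.cons (.leaf 1 [(7,1),(1,1),(4,2)]) (.cons (.leaf 1 [(7,1),(1,1),(3,1)]) (.cons (.keep [0,1,7,9,10] (.node (.cons (.leaf 1 [(3,2),(10,1),(8,1)]) (.cons (.leaf 1 [(4,1),(10,1),(8,1),(3,1)]) (.cons (.leaf 1 [(3,2),(8,1)]) (.cons (.leaf 1 [(4,1),(8,1),(3,1)]) (.cons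 (.keep [4,7,8,10] (.node (.cons (.leaf 1 [(2,1),(9,1)]) (.cons (.leaf 1 [(2,1),(9,1)]) (.cons (.leaf 1 [(3,1),(10,1)]) (.cons (.leaf 1 [(4,1),(10,1)]) (.cons (.leaf 1 [(10,1)]) (.cons (.leaf 1 [(4,1),(10,1)]) (.cons (.leaf 1 [(3,1),(10,1)]) (.cons (.leaf 1 [(10,1)]) .nil)))))))))) (.cons (.keep [4,5,7,8,10] (.node (.cons (.leaf 1 [(3,1),(10,1)]) (.cons (.leaf 1 [(3,1),(10,1)]) (.cons (.leaf 1 [(11,1),(3,1)]) (.cons (.leaf 1 [(4,1),(11,1)]) (.cons (.leaf 1 [(11,1)]) (.cons (.leaf 1 [(4,1),(11,1)]) (.cons (.leaf 1 [(11,1),(3,1)]) (.cons (.leaf 1 [(11,1)]) .nil)))))))))) (.cons (.keep [3,6,7,8,10] (.node (.cons (.leaf 1 [(2,1),(10,1),(7,1)]) (.cons (.leaf 1 [(2,1),(10,1),(7,1)]) (.cons (.leaf 1 [(3,1),(11,1)]) (.cons (.leaf 1 [(4,1),(11,1)]) (.cons (.leaf 1 [(11,1)]) (.cons (.leaf 1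 [(4,1),(11,1)]) (.cons (.leaf 1 [(3,1),(11,1)]) (.cons (.leaf 1 [(11,1)]) .nil)))))))))) (.cons (.keep [0,3,8,10] (.node (.cons (.leaf 1 [(2,1),(9,1)]) (.cons (.leaf 1 [(2,1),(9,1)]) (.cons (.leaf 1 [(3,1),(10,1)]) (.cons (.leaf 1 [(4,1),(10,1)]) (.cons (.leaf 1 [(10,1)]) (.cons (.leaf 1 [(4,1),(10,1)]) (.cons (.leaf 1 [(3,1),(10,1)]) (.cons (.leaf 1 [(10,1)]) .nil)))))))))) .nil)))))))))) .nil)))))))))) (.cons (.keep [1,4,7,8,9] (.node (.cons (.leaf 1 [(2,1),(7,1),(3,2)]) (.cons (.leaf 1 [(2,1),(7,1),(4,2)]) (.cons (.leaf 1 [(7,1),(3,2),(10,1)]) (.cons (.leaf 1 [(7,1),(4,2),(10,1)]) (.cons (.leaf 1 [(10,1),(7,1)]) (.cons (.leaf 1 [(7,1),(4,2),(10,1)]) (.cons (.leaf 1 [(10,1),(7,1),(3,2)]) (.cons (.leaf 1 [(10,1),(7,1)]) .nil)))))))))) (.cons (.keep [1,4,5,8,9,10] (.node (.cons (.leaf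 1 [(3,1),(2,2),(7,1)]) (.cons (.leaf 1 [(4,2),(2,1),(7,1),(9,1)]) (.cons (.leaf 1 [(10,1),(3,1),(7,1)]) (.cons (.leaf 1 [(7,1),(4,2),(9,1),(10,1)]) (.cons (.leaf 1 [(10,1),(2,1),(7,1)]) (.cons (.leaf 1 [(7,1),(2,1),(4,2),(10,1)]) (.cons (.leaf 1 [(10,1),(2,1),(7,1),(3,1)]) (.cons (.leaf 1 [(10,1),(9,1),(7,1)]) .nil)))))))))) (.cons (.keep [1,6,8,9,10] (.node (.cons (.leaf 1 [(3,3),(7,1),(8,1)]) (.cons (.leaf 1 [(4,2),(7,1),(3,1),(8,1)]) (.cons (.leaf 1 [(7,1),(3,4),(9,1)]) (.cons (.leaf 1 [(7,1),(4,2),(3,2),(9,1)]) (.cons (.leaf 1 [(7,1),(8,2),(9,1)]) (.cons (.leaf 1 [(7,1),(8,2),(4,2),(9,1)]) (.cons (.leaf 1 [(7,1),(8,2),(9,1),(3,2)]) (.cons (.leaf 1 [(7,1),(8,2),(9,1)]) .nil)))))))))) (.cons (.keep [0,1,7,8,9] (.node (.cons (.leaf 1 [(8,1),(3,3)]) (.cons (.leaf 1 [(3,1),(8,1),(4,2)])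 (.cons (.leaf 1 [(8,1),(3,3),(10,1)]) (.cons (.leaf 1 [(3,1),(4,2),(8,1),(10,1)]) (.cons (.keep [4,7,8,10] (.node (.cons (.leaf 1 [(3,1)]) (.cons (.leaf 1 [(4,1)]) (.cons (.leaf 1 [(3,1)]) (.cons (.leaf 1 [(4,1)]) (.cons (.leaf 1 []) (.cons (.leaf 1 [(4,1)]) (.cons (.leaf 1 [(3,1)]) (.cons (.leaf 1 []) .nil)))))))))) (.cons (.keep [4,5,7,8,10] (.node (.cons (.leaf 1 [(3,1),(7,1)]) (.cons (.leaf 1 [(4,1),(7,1)]) (.cons (.leaf 1 [(3,2)]) (.cons (.leaf 1 [(4,1),(3,1)]) (.cons (.leaf 1 [(7,1)]) (.cons (.leaf 1 [(7,1),(4,1)]) (.cons (.leaf 1 [(7,1),(3,1)]) (.cons (.leaf 1 [(7,1)]) .nil)))))))))) (.cons (.keep [3,6,7,8,10] (.node (.cons (.leaf 1 [(2,1)]) (.cons (.leaf 1 [(4,1),(7,1)]) (.cons (.leaf 1 []) (.cons (.leaf 1 [(4,1),(7,1)]) (.cons (.leaf 1 [(2,1)]) (.cons (.leaf 1 [(2,1),(4,1)])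 (.cons (.leaf 1 [(2,1)]) (.cons (.leaf 1 [(7,1)]) .nil)))))))))) (.cons (.keep [0,3,8,10] (.node (.cons (.leaf 1 [(3,1)]) (.cons (.leaf 1 [(4,1)]) (.cons (.leaf 1 [(3,1)]) (.cons (.leaf 1 [(4,1)]) (.cons (.leaf 1 []) (.cons (.leaf 1 [(4,1)]) (.cons (.leaf 1 [(3,1)]) (.cons (.leaf 1 []) .nil)))))))))) .nil)))))))))) .nil)))))))))

theorem c_30_24_1 : Concl 30 24 z_30_24_1 h_30_24_1 .nd := piece _ (hP_cons E60.c_30_24_0 hP_nil)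
  t_30_24_1 _ _ (by decide +kernel)

def t_30_24 : T := (.keep [0,1,2] (.node (.cons (.keep [2,3,6,7] (.node (.cons (.keep [2,6,9,10] (.leaf 0 [(0,0)])) (.cons (.keep [2,4,5,7,9,10] (.leaf 0 [(1,0)])) (.cons (.keep [1,3,6,10] (.node (.cons (.leaf 1 [(9,1),(7,1)]) (.cons (.keep [2,4,7,9,10] (.node (.cons (.leaf 1 [(3,1),(9,1)]) (.cons (.leaf 1 [(3,1),(9,1)]) (.cons (.leaf 1 [(10,1),(3,1),(9,1)]) (.cons (.leaf 1 [(10,1),(3,1),(9,1)]) (.cons (.keep [4,7,8,9,10] (.node (.cons (.leaf 1 [(3,1)]) (.cons (.leaf 1 [(4,1)]) (.cons (.leaf 1 [(3,1)]) (.cons (.leaf 1 [(4,1)]) (.cons (.leaf 1 []) (.cons (.leaf 1 [(4,1)]) (.cons (.leaf 1 [(3,1)]) (.cons (.leaf 1 []) .nil)))))))))) (.cons (.keep [5,7,8,9,10] (.node (.cons (.leaf 1 [(3,1)]) (.cons (.leaf 1 [(4,1)]) (.cons (.leaf 1 [(3,1)]) (.cons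 (.leaf 1 [(4,1)]) (.cons (.leaf 1 []) (.cons (.leaf 1 [(4,1)]) (.cons (.leaf 1 [(3,1)]) (.cons (.leaf 1 []) .nil)))))))))) (.cons (.keep [6,7,8,9,10] (.node (.cons (.leaf 1 [(3,1)]) (.cons (.leaf 1 [(4,1)]) (.cons (.leaf 1 [(3,1)]) (.cons (.leaf 1 [(4,1)]) (.cons (.leaf 1 []) (.cons (.leaf 1 [(4,1)]) (.cons (.leaf 1 [(3,1)]) (.cons (.leaf 1 []) .nil)))))))))) (.cons (.keep [0,3,8,9,10] (.node (.cons (.leaf 1 [(3,1)]) (.cons (.leaf 1 [(4,1)]) (.cons (.leaf 1 [(3,1)]) (.cons (.leaf 1 [(4,1)]) (.cons (.leaf 1 []) (.cons (.leaf 1 [(4,1)]) (.cons (.leaf 1 [(3,1)]) (.cons (.leaf 1 []) .nil)))))))))) .nil)))))))))) (.cons (.leaf 1 [(7,1),(3,1),(1,1)]) (.cons (.leaf 1 [(7,1),(4,1),(1,1)]) (.cons (.leaf 1 [(7,1),(9,1),(1,1)]) (.cons (.leaf 1 [(7,1),(9,1),(4,1),(1,1)]) (.cons (.leaf 1 [(7,1),(9,1),(1,1)])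 (.cons (.keep [0,1,7,9,10] (.node (.cons (.leaf 1 [(3,2),(8,1)]) (.cons (.leaf 1 [(4,1),(8,1),(3,1)]) (.cons (.leaf 1 [(10,1),(3,2),(8,1)]) (.cons (.leaf 1 [(10,1),(4,1),(8,1),(3,1)]) (.cons (.keep [4,7,8,10] (.node (.cons (.leaf 1 [(3,1)]) (.cons (.leaf 1 [(4,1)]) (.cons (.leaf 1 [(3,1)]) (.cons (.leaf 1 [(4,1)]) (.cons (.leaf 1 []) (.cons (.leaf 1 [(4,1)]) (.cons (.leaf 1 [(3,1)]) (.cons (.leaf 1 []) .nil)))))))))) (.cons (.keep [4,5,7,8,10] (.node (.cons (.leaf 1 [(3,1)]) (.cons (.leaf 1 [(4,1)]) (.cons (.leaf 1 [(3,1)]) (.cons (.leaf 1 [(4,1)]) (.cons (.leaf 1 []) (.cons (.leaf 1 [(4,1)]) (.cons (.leaf 1 [(3,1)]) (.cons (.leaf 1 []) .nil)))))))))) (.cons (.keep [3,6,7,8,10] (.node (.cons (.leaf 1 [(3,1)]) (.cons (.leaf 1 [(4,1)]) (.cons (.leaf 1 [(3,1)]) (.cons (.leaf 1 [(4,1)])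 (.cons (.leaf 1 []) (.cons (.leaf 1 [(4,1)]) (.cons (.leaf 1 [(3,1)]) (.cons (.leaf 1 []) .nil)))))))))) (.cons (.keep [0,3,8,10] (.node (.cons (.leaf 1 [(3,1)]) (.cons (.leaf 1 [(4,1)]) (.cons (.leaf 1 [(3,1)]) (.cons (.leaf 1 [(4,1)]) (.cons (.leaf 1 []) (.cons (.leaf 1 [(4,1)]) (.cons (.leaf 1 [(3,1)]) (.cons (.leaf 1 []) .nil)))))))))) .nil)))))))))) .nil)))))))))) (.cons (.keep [1,4,5,10] (.node (.cons (.leaf 1 [(7,1)]) (.cons (.keep [4,5,7,9,10] (.node (.cons (.leaf 1 [(3,1),(10,1),(9,1)]) (.cons (.leaf 1 [(3,1),(10,1),(9,1)]) (.cons (.leaf 1 [(3,1),(9,1)]) (.cons (.leaf 1 [(3,1),(9,1)]) (.cons (.keep [2,4,7,9,10] (.node (.cons (.leaf 1 [(2,1),(10,1)]) (.cons (.leaf 1 [(2,1),(10,1)]) (.cons (.leaf 1 [(3,1),(11,1)]) (.cons (.leaf 1 [(4,1),(11,1)]) (.cons (.leaf 1 [(11,1)]) (.cons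 (.leaf 1 [(4,1),(11,1)]) (.cons (.leaf 1 [(3,1),(11,1)]) (.cons (.leaf 1 [(11,1)]) .nil)))))))))) (.cons (.keep [2,5,7,9,10] (.node (.cons (.leaf 1 [(2,1),(10,1)]) (.cons (.leaf 1 [(2,1),(10,1)]) (.cons (.leaf 1 [(3,1),(11,1)]) (.cons (.leaf 1 [(4,1),(11,1)]) (.cons (.leaf 1 [(11,1)]) (.cons (.leaf 1 [(4,1),(11,1)]) (.cons (.leaf 1 [(3,1),(11,1)]) (.cons (.leaf 1 [(11,1)]) .nil)))))))))) (.cons (.keep [6,7,8,9,10] (.node (.cons (.leaf 1 [(2,1),(10,1)]) (.cons (.leaf 1 [(2,1),(10,1)]) (.cons (.leaf 1 [(3,1),(11,1)]) (.cons (.leaf 1 [(4,1),(11,1)]) (.cons (.leaf 1 [(11,1)]) (.cons (.leaf 1 [(4,1),(11,1)]) (.cons (.leaf 1 [(3,1),(11,1)]) (.cons (.leaf 1 [(11,1)]) .nil)))))))))) (.cons (.keep [0,3,7,9,10] (.node (.cons (.leaf 1 [(2,1),(10,1)]) (.cons (.leaf 1 [(2,1),(10,1)]) (.cons (.leaf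 1 [(3,1),(11,1)]) (.cons (.leaf 1 [(4,1),(11,1)]) (.cons (.leaf 1 [(11,1)]) (.cons (.leaf 1 [(4,1),(11,1)]) (.cons (.leaf 1 [(3,1),(11,1)]) (.cons (.leaf 1 [(11,1)]) .nil)))))))))) .nil)))))))))) (.cons (.leaf 1 [(7,1),(1,1)]) (.cons (.leaf 1 [(7,1),(4,1),(9,1),(1,1)]) (.cons (.leaf 1 [(7,1),(1,1)]) (.cons (.leaf 1 [(7,1),(4,1),(1,1)]) (.cons (.leaf 1 [(7,1),(1,1)]) (.cons (.keep [0,1,7,9,10] (.node (.cons (.leaf 1 [(3,2),(10,1),(8,1)]) (.cons (.leaf 1 [(4,1),(10,1),(8,1),(3,1)]) (.cons (.leaf 1 [(3,2),(8,1)]) (.cons (.leaf 1 [(4,1),(8,1),(3,1)]) (.cons (.keep [4,7,8,10] (.node (.cons (.leaf 1 [(2,1),(9,1)]) (.cons (.leaf 1 [(2,1),(9,1)]) (.cons (.leaf 1 [(3,1),(10,1)]) (.cons (.leaf 1 [(4,1),(10,1)]) (.cons (.leaf 1 [(10,1)]) (.cons (.leaf 1 [(4,1),(10,1)]) (.cons (.leaf 1 [(3,1),(10,1)])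 (.cons (.leaf 1 [(10,1)]) .nil)))))))))) (.cons (.keep [4,5,7,8,10] (.node (.cons (.leaf 1 [(3,1),(10,1)]) (.cons (.leaf 1 [(3,1),(10,1)]) (.cons (.leaf 1 [(11,1),(3,1)]) (.cons (.leaf 1 [(4,1),(11,1)]) (.cons (.leaf 1 [(11,1)]) (.cons (.leaf 1 [(4,1),(11,1)]) (.cons (.leaf 1 [(11,1),(3,1)]) (.cons (.leaf 1 [(11,1)]) .nil)))))))))) (.cons (.keep [3,6,7,8,10] (.node (.cons (.leaf 1 [(2,1),(10,1),(7,1)]) (.cons (.leaf 1 [(2,1),(10,1),(7,1)]) (.cons (.leaf 1 [(3,1),(11,1)]) (.cons (.leaf 1 [(4,1),(11,1)]) (.cons (.leaf 1 [(11,1)]) (.cons (.leaf 1 [(4,1),(11,1)]) (.cons (.leaf 1 [(3,1),(11,1)]) (.cons (.leaf 1 [(11,1)]) .nil)))))))))) (.cons (.keep [0,3,8,10] (.node (.cons (.leaf 1 [(2,1),(9,1)]) (.cons (.leaf 1 [(2,1),(9,1)]) (.cons (.leaf 1 [(3,1),(10,1)]) (.cons (.leaf 1 [(4,1),(10,1)])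 (.cons (.leaf 1 [(10,1)]) (.cons (.leaf 1 [(4,1),(10,1)]) (.cons (.leaf 1 [(3,1),(10,1)]) (.cons (.leaf 1 [(10,1)]) .nil)))))))))) .nil)))))))))) .nil)))))))))) (.cons (.keep [1,2,4,8,9] (.node (.cons (.leaf 1 [(3,1),(7,1),(2,1)]) (.cons (.leaf 1 [(4,1),(7,1),(2,1)]) (.cons (.leaf 1 [(11,1),(3,1),(7,1)]) (.cons (.leaf 1 [(11,1),(4,1),(7,1)]) (.cons (.leaf 1 [(11,1),(7,1)]) (.cons (.leaf 1 [(11,1),(7,1),(4,1)]) (.cons (.leaf 1 [(11,1),(7,1),(3,1)]) (.cons (.leaf 1 [(11,1),(7,1)]) .nil)))))))))) (.cons (.keep [1,2,4,5,9,10] (.node (.cons (.leaf 1 [(2,2),(7,1)]) (.cons (.leaf 1 [(2,1),(10,1),(4,1),(7,1)]) (.cons (.leaf 1 [(11,1),(7,1)]) (.cons (.leaf 1 [(11,1),(10,1),(4,1),(7,1)]) (.cons (.leaf 1 [(11,1),(2,1),(7,1)]) (.cons (.leaf 1 [(11,1),(2,1),(4,1),(7,1)]) (.cons (.leaf 1 [(11,1),(7,1),(2,1)])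 (.cons (.leaf 1 [(11,1),(10,1),(7,1)]) .nil)))))))))) (.cons (.keep [1,2,6,9,10] (.node (.cons (.leaf 1 [(3,2),(7,1),(9,1)]) (.cons (.leaf 1 [(3,1),(4,1),(9,1),(7,1)]) (.cons (.leaf 1 [(7,1),(3,3),(10,1)]) (.cons (.leaf 1 [(4,1),(3,2),(10,1),(7,1)]) (.cons (.leaf 1 [(7,1),(9,2),(10,1)]) (.cons (.leaf 1 [(4,1),(9,2),(10,1),(7,1)]) (.cons (.leaf 1 [(7,1),(9,2),(10,1),(3,1)]) (.cons (.leaf 1 [(7,1),(9,2),(10,1)]) .nil)))))))))) (.cons (.keep [0,1,2,7,9] (.node (.cons (.leaf 1 [(3,2),(8,1)]) (.cons (.leaf 1 [(4,1),(8,1),(3,1)]) (.cons (.leaf 1 [(11,1),(3,2),(8,1)]) (.cons (.leaf 1 [(11,1),(4,1),(8,1),(3,1)]) (.cons (.keep [4,7,8,11] (.node (.cons (.leaf 1 [(3,1)]) (.cons (.leaf 1 [(4,1)]) (.cons (.leaf 1 [(3,1)]) (.cons (.leaf 1 [(4,1)]) (.cons (.leaf 1 []) (.cons (.leaf 1 [(4,1)]) (.cons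 (.leaf 1 [(3,1)]) (.cons (.leaf 1 []) .nil)))))))))) (.cons (.keep [4,5,7,8,11] (.node (.cons (.leaf 1 [(3,1)]) (.cons (.leaf 1 [(4,1)]) (.cons (.leaf 1 [(3,1)]) (.cons (.leaf 1 [(4,1)]) (.cons (.leaf 1 []) (.cons (.leaf 1 [(4,1)]) (.cons (.leaf 1 [(3,1)]) (.cons (.leaf 1 []) .nil)))))))))) (.cons (.keep [3,6,7,8,11] (.node (.cons (.leaf 1 [(3,1)]) (.cons (.leaf 1 [(4,1)]) (.cons (.leaf 1 [(3,1)]) (.cons (.leaf 1 [(4,1)]) (.cons (.leaf 1 []) (.cons (.leaf 1 [(4,1)]) (.cons (.leaf 1 [(3,1)]) (.cons (.leaf 1 []) .nil)))))))))) (.cons (.keep [0,3,8,11] (.node (.cons (.leaf 1 [(3,1)]) (.cons (.leaf 1 [(4,1)]) (.cons (.leaf 1 [(3,1)]) (.cons (.leaf 1 [(4,1)]) (.cons (.leaf 1 []) (.cons (.leaf 1 [(4,1)]) (.cons (.leaf 1 [(3,1)]) (.cons (.leaf 1 []) .nil)))))))))) .nil)))))))))) .nil))))))))))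 (.cons (.keep [2,4,5,7] (.node (.cons (.keep [3,6,7,9] (.leaf 0 [(2,0)])) (.cons (.keep [4,5,7,9] (.node (.cons (.keep [3,6,8,9,10] (.node (.cons (.leaf 1 [(8,2),(11,3)]) (.cons (.leaf 1 [(4,2),(9,2),(11,3)]) (.cons (.leaf 1 [(11,3),(3,2),(1,2)]) (.cons (.leaf 1 [(11,3),(4,2),(1,2)]) (.cons (.leaf 1 [(11,3),(8,2),(1,2)]) (.cons (.leaf 1 [(4,2),(8,2),(11,3),(1,2)]) (.cons (.leaf 1 [(1,2),(11,3),(8,2)]) (.cons (.leaf 1 [(11,3),(9,2)]) .nil)))))))))) (.cons (.keep [4,5,8,9,10] (.node (.cons (.leaf 1 [(3,1),(9,1),(11,3)]) (.cons (.leaf 1 [(4,2),(9,2),(8,1),(11,3)]) (.cons (.leaf 1 [(11,3),(3,1),(1,2)]) (.cons (.leaf 1 [(11,3),(4,2),(8,1),(1,2)]) (.cons (.leaf 1 [(11,3),(9,1),(1,1)]) (.cons (.leaf 1 [(11,3),(9,1),(4,2),(1,1)]) (.cons (.leaf 1 [(3,1),(9,1),(1,1),(11,3)]) (.cons (.leaf 1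 [(11,3),(9,2),(8,1)]) .nil)))))))))) (.cons (.keep [1,3,6,8,9] (.node (.cons (.leaf 1 [(9,2),(7,2)]) (.cons (.leaf 1 [(4,2),(10,2),(7,2)]) (.cons (.leaf 1 [(7,2),(3,2),(1,2)]) (.cons (.leaf 1 [(7,2),(4,2),(1,2)]) (.cons (.leaf 1 [(7,2),(9,2),(1,2)]) (.cons (.leaf 1 [(7,2),(9,2),(4,2),(1,2)]) (.cons (.leaf 1 [(7,2),(9,2),(1,2)]) (.cons (.leaf 1 [(7,2),(10,2)]) .nil)))))))))) (.cons (.keep [1,4,5,8,9] (.node (.cons (.leaf 1 [(3,1),(10,1),(7,2)]) (.cons (.leaf 1 [(4,2),(10,2),(9,1),(7,2)]) (.cons (.leaf 1 [(7,2),(3,1),(1,2)]) (.cons (.leaf 1 [(7,2),(4,2),(9,1),(1,2)]) (.cons (.leaf 1 [(7,2),(10,1),(1,1)]) (.cons (.leaf 1 [(7,2),(10,1),(4,2),(1,1)]) (.cons (.leaf 1 [(7,2),(10,1),(1,1),(3,1)]) (.cons (.leaf 1 [(7,2),(10,2),(9,1)]) .nil)))))))))) (.cons (.keep [2,4,7,10] (.node (.cons (.leaf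 1 [(3,2),(7,1),(10,2)]) (.cons (.leaf 1 [(4,2),(7,1),(10,2)]) (.cons (.leaf 1 [(3,2),(1,1),(10,2)]) (.cons (.leaf 1 [(4,2),(1,1),(10,2)]) (.cons (.leaf 1 [(10,2),(7,1)]) (.cons (.leaf 1 [(4,2),(7,1),(10,2)]) (.cons (.leaf 1 [(3,2),(7,1),(10,2)]) (.cons (.leaf 1 [(10,2),(7,1)]) .nil)))))))))) (.cons (.keep [2,4,5,9,10] (.node (.cons (.leaf 1 [(3,1),(11,2)]) (.cons (.leaf 1 [(4,2),(7,1),(9,1),(11,2)]) (.cons (.leaf 1 [(11,2),(3,1),(1,1)]) (.cons (.leaf 1 [(4,2),(1,1),(9,1),(11,2)]) (.cons (.leaf 1 [(11,2),(1,1)]) (.cons (.leaf 1 [(4,2),(1,1),(11,2)]) (.cons (.leaf 1 [(11,2),(1,1),(3,1)]) (.cons (.leaf 1 [(11,2),(7,1),(9,1)]) .nil)))))))))) (.cons (.keep [3,6,8,9,10] (.node (.cons (.leaf 1 [(3,1),(11,2),(8,2)]) (.cons (.leaf 1 [(4,2),(9,1),(8,1),(11,2)]) (.cons (.leaf 1 [(11,2),(1,1),(3,3)])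 (.cons (.leaf 1 [(4,2),(1,1),(3,1),(11,2)]) (.cons (.leaf 1 [(11,2),(1,1),(8,2)]) (.cons (.leaf 1 [(4,2),(1,1),(8,2),(11,2)]) (.cons (.leaf 1 [(11,2),(1,1),(8,2),(3,1)]) (.cons (.leaf 1 [(11,2),(9,1),(8,1)]) .nil)))))))))) (.cons (.keep [0,3,7,8,10] (.node (.cons (.leaf 1 [(3,2),(10,1),(11,2)]) (.cons (.leaf 1 [(4,2),(10,1),(11,2)]) (.cons (.leaf 1 [(3,2),(1,1),(11,2)]) (.cons (.leaf 1 [(4,2),(1,1),(11,2)]) (.cons (.leaf 1 [(11,2),(10,1)]) (.cons (.leaf 1 [(4,2),(10,1),(11,2)]) (.cons (.leaf 1 [(3,2),(10,1),(11,2)]) (.cons (.leaf 1 [(11,2),(10,1)]) .nil)))))))))) .nil)))))))))) (.cons (.keep [1,3,6,9,10] (.node (.cons (.leaf 1 [(10,1),(9,1),(7,1)]) (.cons (.leaf 1 [(10,2),(4,1),(7,1)]) (.cons (.leaf 1 [(1,2),(3,1),(7,1)]) (.cons (.leaf 1 [(1,2),(4,1),(7,1)]) (.cons (.leaf 1 [(9,2),(7,1),(1,2)])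 (.cons (.leaf 1 [(9,2),(4,1),(1,2),(7,1)]) (.cons (.leaf 1 [(9,2),(7,1),(6,1),(1,2)]) (.cons (.leaf 1 [(10,2),(7,1)]) .nil)))))))))) (.cons (.keep [1,4,5,9,10] (.node (.cons (.leaf 1 [(10,1),(7,1)]) (.cons (.leaf 1 [(10,2),(4,1),(9,1),(7,1)]) (.cons (.leaf 1 [(1,2),(7,1)]) (.cons (.leaf 1 [(1,2),(4,1),(9,1),(7,1)]) (.cons (.leaf 1 [(1,1),(10,1),(7,1)]) (.cons (.leaf 1 [(1,1),(10,1),(4,1),(7,1)]) (.cons (.leaf 1 [(10,1),(7,1),(1,1)]) (.cons (.leaf 1 [(10,2),(7,1),(9,1)]) .nil)))))))))) (.cons (.keep [1,2,4,8] (.node (.cons (.leaf 1 [(3,1),(7,1)]) (.cons (.leaf 1 [(4,1),(7,1)]) (.cons (.leaf 1 [(3,1),(7,1)]) (.cons (.leaf 1 [(4,1),(7,1)]) (.cons (.leaf 1 [(7,1)]) (.cons (.leaf 1 [(4,1),(7,1)]) (.cons (.leaf 1 [(3,1),(7,1)]) (.cons (.leaf 1 [(7,1)]) .nil)))))))))) (.cons (.keep [1,2,4,5,10]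 (.node (.cons (.leaf 1 [(7,1),(2,1)]) (.cons (.leaf 1 [(4,1),(7,1),(10,1)]) (.cons (.leaf 1 [(7,1)]) (.cons (.leaf 1 [(4,1),(10,1),(7,1)]) (.cons (.leaf 1 [(7,1),(2,1)]) (.cons (.leaf 1 [(7,1),(4,1),(2,1)]) (.cons (.leaf 1 [(7,1),(2,1)]) (.cons (.leaf 1 [(7,1),(10,1)]) .nil)))))))))) (.cons (.keep [1,3,6,8,9] (.node (.cons (.leaf 1 [(3,1),(7,1),(9,2)]) (.cons (.leaf 1 [(4,1),(9,2),(7,1)]) (.cons (.leaf 1 [(7,1),(3,3)]) (.cons (.leaf 1 [(4,1),(3,2),(7,1)]) (.cons (.leaf 1 [(7,1),(9,2)]) (.cons (.leaf 1 [(4,1),(9,2),(7,1)]) (.cons (.leaf 1 [(7,1),(9,2),(3,1)]) (.cons (.leaf 1 [(7,1),(9,2)]) .nil)))))))))) (.cons (.keep [0,1,3,7,9] (.node (.cons (.leaf 1 [(3,2),(11,1),(8,1)]) (.cons (.leaf 1 [(4,1),(11,1),(8,1),(3,1)]) (.cons (.leaf 1 [(3,2),(8,1)]) (.cons (.leaf 1 [(4,1),(8,1),(3,1)])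 (.cons (.keep [4,7,8,11] (.node (.cons (.leaf 1 [(2,1),(9,1)]) (.cons (.leaf 1 [(2,1),(9,1)]) (.cons (.leaf 1 [(3,1),(10,1)]) (.cons (.leaf 1 [(4,1),(10,1)]) (.cons (.leaf 1 [(10,1)]) (.cons (.leaf 1 [(4,1),(10,1)]) (.cons (.leaf 1 [(3,1),(10,1)]) (.cons (.leaf 1 [(10,1)]) .nil)))))))))) (.cons (.keep [4,5,7,8,11] (.node (.cons (.leaf 1 [(3,1),(10,1)]) (.cons (.leaf 1 [(3,1),(10,1)]) (.cons (.leaf 1 [(11,1),(3,1)]) (.cons (.leaf 1 [(4,1),(11,1)]) (.cons (.leaf 1 [(11,1)]) (.cons (.leaf 1 [(4,1),(11,1)]) (.cons (.leaf 1 [(11,1),(3,1)]) (.cons (.leaf 1 [(11,1)]) .nil)))))))))) (.cons (.keep [3,6,7,8,11] (.node (.cons (.leaf 1 [(2,1),(10,1),(7,1)]) (.cons (.leaf 1 [(2,1),(10,1),(7,1)]) (.cons (.leaf 1 [(3,1),(11,1)]) (.cons (.leaf 1 [(4,1),(11,1)]) (.cons (.leaf 1 [(11,1)]) (.cons (.leaf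 1 [(4,1),(11,1)]) (.cons (.leaf 1 [(3,1),(11,1)]) (.cons (.leaf 1 [(11,1)]) .nil)))))))))) (.cons (.keep [0,3,8,11] (.node (.cons (.leaf 1 [(2,1),(9,1)]) (.cons (.leaf 1 [(2,1),(9,1)]) (.cons (.leaf 1 [(3,1),(10,1)]) (.cons (.leaf 1 [(4,1),(10,1)]) (.cons (.leaf 1 [(10,1)]) (.cons (.leaf 1 [(4,1),(10,1)]) (.cons (.leaf 1 [(3,1),(10,1)]) (.cons (.leaf 1 [(10,1)]) .nil)))))))))) .nil)))))))))) .nil)))))))))) (.cons (.keep [1,3,6,8] (.leaf 0 [(3,0)])) (.cons (.keep [1,4,5,8] (.leaf 0 [(4,0)])) (.cons (.leaf 1 []) (.cons (.leaf 1 [(5,1)]) (.cons (.leaf 1 [(6,1)]) (.cons (.leaf 1 []) .nil))))))))))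

theorem e_30_24 : ESB (caseOf 4 30 24) := esb_of_pieces _ (hP_cons c_30_24_1 (hP_cons
  E60.c_30_24_2 (hP_cons E60.c_30_24_3 (hP_cons E60.c_30_24_5 (hP_cons E60.c_30_24_4 hP_nil)))))
  t_30_24 (by decide +kernel)

def ks : List (ℕ × ℕ) := [(30, 24)]

theorem ks_ok : ∀ p ∈ ks, ESB (caseOf 4 p.1 p.2) := ks_cons e_30_24 <| ks_nil

end Pool.Agent.H4.RD4.E61
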