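import Pool.Agent.H4.RD4.Chk

/-! # Certificates for special cases of order four -/

set_option maxRecDepth 20000

namespace Pool.Agent.H4.RD4.E63

open Pool.Agent.H50.Rdb
open Pool.Agent.H81.RDE (ESB caseOf)

def z_31_24_10 : F := ⟨1, -2, 0, -1, 3⟩

def h_31_24_10 : List F := [⟨1, 0, 0, 0, 0⟩, ⟨1, 0, 0, -1, 0⟩, ⟨0, 0, -1, 1, 0⟩, ⟨0, -1, 0, 0, 1⟩,
  ⟨-1, 1, 0, 0, 0⟩]

def t_31_24_10 : T := (.node (.cons (.leaf 1 [(12,2)]) (.cons (.keep [2,5,9,10,12] (.node (.cons (.keep [4,7,8,10,11] (.node (.cons (.leaf 1 [(4,1),(3,1),(12,1)]) (.cons (.leaf 1 [(5,1),(3,1),(12,1)]) (.cons (.leaf 1 [(3,1)]) (.cons (.leaf 1 [(3,1)]) (.cons (.leaf 1 [(4,1),(8,1),(12,1)]) (.cons (.leaf 1 [(5,1),(8,1),(12,1)]) (.cons (.leaf 1 [(12,1),(8,1)]) (.cons (.leaf 1 [(5,1),(8,1),(12,1)]) (.cons (.leaf 1 [(4,1),(8,1),(12,1)])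 (.cons (.leaf 1 [(12,1),(8,1)]) .nil)))))))))))) (.cons (.keep [5,6,8,10,11,12] (.node (.cons (.leaf 1 [(12,1),(13,1),(4,2)]) (.cons (.leaf 1 [(5,1),(13,1),(4,1),(12,1)]) (.cons (.leaf 1 [(4,1),(13,1)]) (.cons (.leaf 1 [(4,1),(13,1)]) (.cons (.leaf 1 [(12,1),(4,2),(8,1)]) (.cons (.leaf 1 [(5,1),(4,1),(8,1),(12,1)]) (.cons (.leaf 1 [(12,1),(13,1),(8,1)]) (.cons (.leaf 1 [(5,1),(13,1),(8,1),(12,1)]) (.cons (.leaf 1 [(12,1),(13,1),(8,1),(4,1)]) (.cons (.leaf 1 [(12,1),(13,1),(8,1)]) .nil)))))))))))) (.cons (.leaf 1 [(1,2),(11,1),(4,1)]) (.cons (.leaf 1 [(5,1),(1,1),(12,1),(11,1)]) (.cons (.leaf 1 [(1,2),(4,1)]) (.cons (.leaf 1 [(1,1),(12,1),(5,1)]) (.cons (.keep [1,5,9,10,11] (.node (.cons (.leaf 1 [(4,1),(8,1),(12,1)]) (.cons (.leaf 1 [(5,1),(8,1),(12,1)]) (.cons (.leaf 1 [(1,1),(8,1)])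 (.cons (.leaf 1 [(1,1),(8,1)]) (.cons (.leaf 1 [(4,1),(1,1),(12,1)]) (.cons (.leaf 1 [(5,1),(1,1),(12,1)]) (.cons (.leaf 1 [(12,1),(8,1)]) (.cons (.leaf 1 [(5,1),(8,1),(12,1)]) (.cons (.leaf 1 [(4,1),(8,1),(12,1)]) (.cons (.leaf 1 [(12,1),(8,1)]) .nil)))))))))))) (.cons (.keep [6,9,10,11,12] (.node (.cons (.leaf 2 [(11,2),(12,3),(4,3)]) (.cons (.leaf 2 [(5,2),(12,3),(4,1),(11,2)]) (.cons (.leaf 2 [(4,1),(1,1),(12,3)]) (.cons (.leaf 2 [(4,1),(1,1),(12,3)]) (.cons (.leaf 1 [(11,1),(1,1),(4,3)]) (.cons (.leaf 1 [(5,1),(1,1),(4,2),(11,1)]) (.cons (.leaf 1 [(11,1),(12,2),(9,1)]) (.cons (.leaf 1 [(5,1),(12,3),(0,1),(11,2)]) (.cons (.leaf 1 [(11,2),(12,3),(0,1),(4,3)]) (.cons (.leaf 1 [(11,2),(12,3),(0,1),(4,1)]) .nil)))))))))))) (.cons (.keep [1,7,9,10,11] (.node (.cons (.leaf 1 [(12,1),(3,1),(8,1)])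 (.cons (.leaf 1 [(5,1),(3,1),(8,2),(12,1)]) (.cons (.leaf 1 [(3,1),(8,2)]) (.cons (.leaf 1 [(3,1),(8,2)]) (.cons (.leaf 1 [(12,1),(8,1)]) (.cons (.leaf 1 [(5,1),(10,1),(8,2),(12,1)]) (.cons (.leaf 1 [(12,1),(3,1),(1,1)]) (.cons (.leaf 1 [(5,1),(3,1),(1,1),(12,1)]) (.cons (.leaf 1 [(12,1),(7,1),(1,1),(3,1)]) (.cons (.leaf 1 [(12,1),(10,1),(8,2)]) .nil)))))))))))) (.cons (.keep [0,4,9,11,12] (.node (.cons (.leaf 1 [(4,1),(12,1),(11,1)]) (.cons (.leaf 1 [(5,1),(12,1),(11,1)]) (.cons (.leaf 1 [(1,1),(12,1)]) (.cons (.leaf 1 [(1,1),(12,1)]) (.cons (.leaf 1 [(4,1),(1,1),(11,1)]) (.cons (.leaf 1 [(5,1),(1,1),(11,1)]) (.cons (.leaf 1 [(11,1),(12,1)]) (.cons (.leaf 1 [(5,1),(12,1),(11,1)]) (.cons (.leaf 1 [(4,1),(12,1),(11,1)]) (.cons (.leaf 1 [(11,1),(12,1)]) .nil)))))))))))) .nil))))))))))))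 (.cons (.leaf 1 [(1,1),(12,2)]) (.cons (.keep [5,9,10,11,12] (.node (.cons (.keep [4,7,9,10,11] (.node (.cons (.leaf 1 [(4,1),(11,1)]) (.cons (.leaf 1 [(5,1),(11,1)]) (.cons (.leaf 1 [(1,1)]) (.cons (.leaf 1 [(1,1)]) (.cons (.leaf 1 [(4,1),(11,1)]) (.cons (.leaf 1 [(5,1),(11,1)]) (.cons (.leaf 1 [(11,1)]) (.cons (.leaf 1 [(5,1),(11,1)]) (.cons (.leaf 1 [(3,1),(9,1),(11,1)]) (.cons (.leaf 1 [(11,1)]) .nil)))))))))))) (.cons (.keep [8,9,10,11,12] (.node (.cons (.leaf 1 [(10,1),(12,1),(4,2)]) (.cons (.leaf 1 [(5,1),(12,1),(4,1),(10,1)]) (.cons (.leaf 1 [(4,1),(12,1)]) (.cons (.leaf 1 [(4,1),(12,1)]) (.cons (.leaf 1 [(10,1),(4,2)]) (.cons (.leaf 1 [(5,1),(4,1),(10,1)]) (.cons (.leaf 1 [(10,1),(12,2),(8,1)]) (.cons (.leaf 1 [(5,1),(12,2),(8,1),(10,1)]) (.cons (.leaf 1 [(10,1),(12,2),(8,1),(4,1)])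 (.cons (.leaf 1 [(10,1),(12,2),(8,1)]) .nil)))))))))))) (.cons (.leaf 1 [(1,2),(10,1)]) (.cons (.leaf 1 [(5,1),(1,1),(12,1),(10,1)]) (.cons (.leaf 1 [(1,2)]) (.cons (.leaf 1 [(1,1),(12,1),(5,1)]) (.cons (.keep [1,5,8,9,10] (.node (.cons (.leaf 1 [(4,1),(8,1),(12,1)]) (.cons (.leaf 1 [(5,1),(8,1),(12,1)]) (.cons (.leaf 1 [(1,1),(8,1)]) (.cons (.leaf 1 [(1,1),(8,1)]) (.cons (.leaf 1 [(4,1),(1,1),(12,1)]) (.cons (.leaf 1 [(5,1),(1,1),(12,1)]) (.cons (.leaf 1 [(12,1),(8,1)]) (.cons (.leaf 1 [(5,1),(8,1),(12,1)]) (.cons (.leaf 1 [(4,1),(8,1),(12,1)]) (.cons (.leaf 1 [(12,1),(8,1)]) .nil)))))))))))) (.cons (.keep [1,6,8,9,10] (.node (.cons (.leaf 1 [(12,1),(8,2),(4,2)]) (.cons (.leaf 1 [(5,1),(8,2),(4,1),(12,1)]) (.cons (.leaf 1 [(4,1),(8,2)]) (.cons (.leaf 1 [(4,1),(8,2)]) (.cons (.leaf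 1 [(12,1),(1,1),(4,2)]) (.cons (.leaf 1 [(5,1),(1,1),(4,1),(12,1)]) (.cons (.leaf 1 [(12,1),(8,2),(10,1)]) (.cons (.leaf 1 [(5,1),(8,2),(10,1),(12,1)]) (.cons (.leaf 1 [(12,1),(8,2),(10,1),(4,1)]) (.cons (.leaf 1 [(12,1),(8,2),(10,1)]) .nil)))))))))))) (.cons (.keep [7,8,9,10,12] (.node (.cons (.leaf 1 [(11,1)]) (.cons (.leaf 1 [(5,1),(12,2),(9,1),(11,1)]) (.cons (.leaf 1 [(1,1),(11,1)]) (.cons (.leaf 1 [(1,1),(12,2),(9,1)]) (.cons (.leaf 1 [(1,1),(11,1)]) (.cons (.leaf 1 [(5,1),(1,2),(9,1),(11,1)]) (.cons (.leaf 1 [(11,1),(1,1)]) (.cons (.leaf 1 [(5,1),(1,1),(11,1)]) (.cons (.leaf 1 [(11,1),(1,1)]) (.cons (.leaf 1 [(11,1),(12,2),(9,1)]) .nil)))))))))))) (.cons (.keep [0,4,8,10,12] (.node (.cons (.leaf 1 [(4,1),(12,1),(11,1)]) (.cons (.leaf 1 [(5,1),(12,1),(11,1)]) (.cons (.leaf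 1 [(1,1),(12,1)]) (.cons (.leaf 1 [(1,1),(12,1)]) (.cons (.leaf 1 [(4,1),(1,1),(11,1)]) (.cons (.leaf 1 [(5,1),(1,1),(11,1)]) (.cons (.leaf 1 [(11,1),(12,1)]) (.cons (.leaf 1 [(5,1),(12,1),(11,1)]) (.cons (.leaf 1 [(4,1),(12,1),(11,1)]) (.cons (.leaf 1 [(11,1),(12,1)]) .nil)))))))))))) .nil)))))))))))) (.cons (.leaf 1 [(12,2),(1,1)]) (.cons (.leaf 1 [(5,1),(10,1),(1,1),(12,2)]) (.cons (.leaf 1 [(12,2),(1,1)]) (.cons (.leaf 1 [(5,1),(1,1),(12,2)]) (.cons (.leaf 1 [(1,1),(12,2)]) (.cons (.keep [0,2,10,11,12] (.node (.cons (.keep [4,7,8,9,10] (.node (.cons (.leaf 1 [(4,1),(3,2),(12,1)]) (.cons (.leaf 1 [(5,1),(3,2),(12,1)]) (.cons (.leaf 1 [(3,1),(8,1)]) (.cons (.leaf 1 [(3,1),(8,1)]) (.cons (.leaf 1 [(4,1),(8,2),(12,1)]) (.cons (.leaf 1 [(5,1),(8,2),(12,1)]) (.cons (.leaf 1 [(12,1),(8,2)])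 (.cons (.leaf 1 [(5,1),(8,2),(12,1)]) (.cons (.leaf 1 [(4,1),(8,2),(12,1)]) (.cons (.leaf 1 [(12,1),(8,2)]) .nil)))))))))))) (.cons (.keep [5,6,8,9,10] (.node (.cons (.leaf 1 [(12,1),(4,3)]) (.cons (.leaf 1 [(5,1),(4,2),(12,1)]) (.cons (.leaf 1 [(4,1),(8,1)]) (.cons (.leaf 1 [(4,1),(8,1)]) (.cons (.leaf 1 [(12,1),(4,1),(8,2)]) (.cons (.leaf 1 [(5,1),(8,2),(12,1)]) (.cons (.leaf 1 [(12,1),(8,2)]) (.cons (.leaf 1 [(5,1),(8,2),(12,1)]) (.cons (.leaf 1 [(12,1),(8,2),(4,1)]) (.cons (.leaf 1 [(12,1),(8,2)]) .nil)))))))))))) (.cons (.leaf 1 [(4,2),(1,1),(10,1)]) (.cons (.leaf 1 [(5,2),(1,1),(10,1)]) (.cons (.leaf 1 [(1,1),(4,2)]) (.cons (.leaf 1 [(1,1),(5,2)]) (.cons (.keep [1,5,8,10] (.node (.cons (.leaf 1 [(4,1),(11,1)]) (.cons (.leaf 1 [(5,1),(11,1)]) (.cons (.leaf 1 [(1,1)]) (.cons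 (.leaf 1 [(1,1)]) (.cons (.leaf 1 [(4,1),(11,1)]) (.cons (.leaf 1 [(5,1),(11,1)]) (.cons (.leaf 1 [(11,1)]) (.cons (.leaf 1 [(5,1),(11,1)]) (.cons (.leaf 1 [(4,1),(11,1)]) (.cons (.leaf 1 [(11,1)]) .nil)))))))))))) (.cons (.keep [5,6,8,9,10] (.node (.cons (.leaf 1 [(3,1),(12,1),(8,3)]) (.cons (.leaf 1 [(5,1),(8,2),(12,1)]) (.cons (.leaf 1 [(1,1),(8,2)]) (.cons (.leaf 1 [(1,1),(8,2)]) (.cons (.leaf 1 [(12,1),(4,3)]) (.cons (.leaf 1 [(5,1),(4,2),(12,1)]) (.cons (.leaf 1 [(12,1),(8,2)]) (.cons (.leaf 1 [(5,1),(8,2),(12,1)]) (.cons (.leaf 1 [(12,1),(8,2),(4,1)]) (.cons (.leaf 1 [(12,1),(8,2)]) .nil)))))))))))) (.cons (.keep [4,7,8,9,10] (.node (.cons (.leaf 1 [(3,1),(8,1),(12,1)]) (.cons (.leaf 1 [(5,1),(8,2),(12,1)]) (.cons (.leaf 1 [(1,1),(8,2)]) (.cons (.leaf 1 [(1,1),(8,2)]) (.cons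 (.leaf 1 [(12,1),(8,1)]) (.cons (.leaf 1 [(5,1),(8,2),(12,1)]) (.cons (.leaf 1 [(12,1),(3,2)]) (.cons (.leaf 1 [(5,1),(12,1),(3,2)]) (.cons (.leaf 1 [(12,1),(7,1),(3,2)]) (.cons (.leaf 1 [(12,1),(8,2)]) .nil)))))))))))) (.cons (.keep [0,4,9,10] (.node (.cons (.leaf 1 [(4,1),(11,1)]) (.cons (.leaf 1 [(5,1),(11,1)]) (.cons (.leaf 1 [(1,1)]) (.cons (.leaf 1 [(1,1)]) (.cons (.leaf 1 [(4,1),(11,1)]) (.cons (.leaf 1 [(5,1),(11,1)]) (.cons (.leaf 1 [(11,1)]) (.cons (.leaf 1 [(5,1),(11,1)]) (.cons (.leaf 1 [(4,1),(11,1)]) (.cons (.leaf 1 [(11,1)]) .nil)))))))))))) .nil)))))))))))) .nil)))))))))))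

theorem c_31_24_10 : Concl 31 24 z_31_24_10 h_31_24_10 .nd := piece _ hP_nil t_31_24_10 _ _ (by
  decide +kernel)

def z_31_24_11 : F := ⟨0, -2, 0, -1, 3⟩

def h_31_24_11 : List F := [⟨0, -1, 0, 0, 0⟩, ⟨0, 0, 0, -1, 0⟩, ⟨0, 0, -1, 1, 0⟩, ⟨0, 1, -1, 0,
  0⟩, ⟨-1, 1, 0, 0, 0⟩]

def t_31_24_11 : T := (.node (.cons (.leaf 1 [(4,1),(12,2)]) (.cons (.keep [2,5,6,10,12] (.node (.cons (.keep [4,7,8,10,11] (.node (.cons (.leaf 1 [(4,1),(3,2),(12,1)]) (.cons (.leaf 1 [(5,1),(3,2),(12,1)]) (.cons (.leaf 1 [(3,1),(8,1)]) (.cons (.leaf 1 [(3,1),(8,1)]) (.cons (.leaf 1 [(4,1),(8,2),(12,1)]) (.cons (.leaf 1 [(5,1),(8,2),(12,1)]) (.cons (.leaf 1 [(12,1),(8,2)]) (.cons (.leaf 1 [(5,1),(8,2),(12,1)]) (.cons (.leaf 1 [(4,1),(8,2),(12,1)]) (.cons (.leaf 1 [(12,1),(8,2)]) .nil)))))))))))) (.cons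 (.keep [5,6,8,10,11,12] (.node (.cons (.leaf 1 [(12,1),(4,3)]) (.cons (.leaf 1 [(5,1),(4,2),(12,1)]) (.cons (.leaf 1 [(4,1),(8,1)]) (.cons (.leaf 1 [(4,1),(8,1)]) (.cons (.leaf 1 [(12,1),(4,1),(8,2)]) (.cons (.leaf 1 [(5,1),(8,2),(12,1)]) (.cons (.leaf 1 [(12,1),(8,2)]) (.cons (.leaf 1 [(5,1),(8,2),(12,1)]) (.cons (.leaf 1 [(12,1),(8,2),(4,1)]) (.cons (.leaf 1 [(12,1),(8,2)]) .nil)))))))))))) (.cons (.leaf 1 [(4,2),(1,1),(11,1)]) (.cons (.leaf 1 [(5,2),(1,1),(11,1)]) (.cons (.leaf 1 [(1,1),(4,2)]) (.cons (.leaf 1 [(1,1),(5,2)]) (.cons (.keep [1,3,5,9,11] (.node (.cons (.leaf 1 [(4,1),(12,1)]) (.cons (.leaf 1 [(5,1),(12,1)]) (.cons (.leaf 1 [(1,1)]) (.cons (.leaf 1 [(1,1)]) (.cons (.leaf 1 [(4,1),(12,1)]) (.cons (.leaf 1 [(5,1),(12,1)]) (.cons (.leaf 1 [(12,1)]) (.cons (.leaf 1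 [(5,1),(12,1)]) (.cons (.leaf 1 [(4,1),(12,1)]) (.cons (.leaf 1 [(12,1)]) .nil)))))))))))) (.cons (.keep [3,6,9,11,12] (.node (.cons (.leaf 1 [(11,3),(8,2),(4,5)]) (.cons (.leaf 1 [(5,3),(8,2),(4,2),(11,3)]) (.cons (.leaf 1 [(4,2),(1,1),(8,2)]) (.cons (.leaf 1 [(4,2),(1,1),(8,2)]) (.cons (.leaf 1 [(11,1),(4,3)]) (.cons (.leaf 1 [(5,1),(4,2),(11,1)]) (.cons (.leaf 1 [(11,1),(12,2),(10,2)]) (.cons (.leaf 1 [(5,1),(12,2),(10,2),(11,1)]) (.cons (.leaf 1 [(11,1),(12,2),(10,2),(4,1)]) (.cons (.leaf 1 [(11,1),(12,2),(10,2)]) .nil)))))))))))) (.cons (.keep [1,7,9,10,11] (.node (.cons (.leaf 1 [(12,1),(3,2),(8,1)]) (.cons (.leaf 1 [(5,1),(3,2),(8,2),(12,1)]) (.cons (.leaf 1 [(3,1),(10,1),(8,2)]) (.cons (.leaf 1 [(3,1),(10,1),(8,2)]) (.cons (.leaf 1 [(12,1),(10,1),(8,1)]) (.cons (.leaf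 1 [(5,1),(10,2),(8,2),(12,1)]) (.cons (.leaf 1 [(12,1),(3,2)]) (.cons (.leaf 1 [(5,1),(12,1),(3,2)]) (.cons (.leaf 1 [(12,1),(7,1),(3,2)]) (.cons (.leaf 1 [(12,1),(10,2),(8,2)]) .nil)))))))))))) (.cons (.keep [0,4,9,11,12] (.node (.cons (.leaf 1 [(4,1),(11,1)]) (.cons (.leaf 1 [(5,1),(11,1)]) (.cons (.leaf 1 [(1,1)]) (.cons (.leaf 1 [(1,1)]) (.cons (.leaf 1 [(4,1),(11,1)]) (.cons (.leaf 1 [(5,1),(11,1)]) (.cons (.leaf 1 [(11,1)]) (.cons (.leaf 1 [(5,1),(11,1)]) (.cons (.leaf 1 [(4,1),(11,1)]) (.cons (.leaf 1 [(11,1)]) .nil)))))))))))) .nil)))))))))))) (.cons (.leaf 1 [(1,2),(12,1)]) (.cons (.keep [5,8,9,10,12] (.node (.cons (.keep [3,4,7,9,11] (.node (.cons (.leaf 1 [(4,1),(3,2),(12,1)]) (.cons (.leaf 1 [(5,1),(3,2),(12,1)]) (.cons (.leaf 1 [(3,2),(8,1)]) (.cons (.leaf 1 [(3,2),(8,1)])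 (.cons (.leaf 1 [(4,1),(9,2),(12,1)]) (.cons (.leaf 1 [(5,1),(9,2),(12,1)]) (.cons (.leaf 1 [(12,1),(9,2)]) (.cons (.leaf 1 [(5,1),(9,2),(12,1)]) (.cons (.leaf 1 [(4,1),(9,2),(12,1)]) (.cons (.leaf 1 [(12,1),(9,2)]) .nil)))))))))))) (.cons (.keep [3,8,9,11,12] (.node (.cons (.leaf 1 [(11,1),(4,3)]) (.cons (.leaf 1 [(5,1),(4,2),(11,1)]) (.cons (.leaf 1 [(4,2),(8,1)]) (.cons (.leaf 1 [(4,2),(8,1)]) (.cons (.leaf 1 [(11,1),(4,2),(9,1)]) (.cons (.leaf 1 [(5,1),(4,1),(9,1),(11,1)]) (.cons (.leaf 1 [(11,1),(12,2),(9,2)]) (.cons (.leaf 1 [(5,1),(12,2),(9,2),(11,1)]) (.cons (.leaf 1 [(11,1),(12,2),(9,2),(4,1)]) (.cons (.leaf 1 [(11,1),(12,2),(9,2)]) .nil)))))))))))) (.cons (.leaf 1 [(4,2),(1,1),(11,1)]) (.cons (.leaf 1 [(5,2),(1,1),(11,1)]) (.cons (.leaf 1 [(1,1),(4,2)]) (.cons (.leaf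 1 [(1,1),(5,2)]) (.cons (.keep [1,5,8,10,11] (.node (.cons (.leaf 1 [(4,1),(12,1)]) (.cons (.leaf 1 [(5,1),(12,1)]) (.cons (.leaf 1 [(1,1)]) (.cons (.leaf 1 [(1,1)]) (.cons (.leaf 1 [(4,1),(12,1)]) (.cons (.leaf 1 [(5,1),(12,1)]) (.cons (.leaf 1 [(12,1)]) (.cons (.leaf 1 [(5,1),(12,1)]) (.cons (.leaf 1 [(4,1),(12,1)]) (.cons (.leaf 1 [(12,1)]) .nil)))))))))))) (.cons (.keep [1,6,8,10,11] (.node (.cons (.leaf 1 [(12,1),(8,2),(4,3)]) (.cons (.leaf 1 [(5,1),(8,2),(4,2),(12,1)]) (.cons (.leaf 1 [(4,1),(8,2),(10,1)]) (.cons (.leaf 1 [(4,1),(8,2),(10,1)]) (.cons (.leaf 1 [(12,1),(4,3)]) (.cons (.leaf 1 [(5,1),(4,2),(12,1)]) (.cons (.leaf 1 [(12,1),(8,2),(10,2)]) (.cons (.leaf 1 [(5,1),(8,2),(10,2),(12,1)]) (.cons (.leaf 1 [(12,1),(8,2),(10,2),(4,1)]) (.cons (.leaf 1 [(12,1),(8,2),(10,2)])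 .nil)))))))))))) (.cons (.keep [7,8,10,11,12] (.node (.cons (.leaf 1 [(11,1),(9,1)]) (.cons (.leaf 1 [(5,1),(9,2),(12,2),(11,1)]) (.cons (.leaf 1 [(1,1),(9,1),(11,1)]) (.cons (.leaf 1 [(1,1),(9,2),(12,2)]) (.cons (.leaf 1 [(11,1),(9,1),(1,1)]) (.cons (.leaf 1 [(5,1),(9,2),(1,2),(11,1)]) (.cons (.leaf 1 [(11,1),(3,2)]) (.cons (.leaf 1 [(5,1),(11,1),(3,2)]) (.cons (.leaf 1 [(11,1),(7,1),(3,2)]) (.cons (.leaf 1 [(11,1),(9,2),(12,2)]) .nil)))))))))))) (.cons (.keep [0,4,8,11,12] (.node (.cons (.leaf 1 [(4,1),(11,1)]) (.cons (.leaf 1 [(5,1),(11,1)]) (.cons (.leaf 1 [(1,1)]) (.cons (.leaf 1 [(1,1)]) (.cons (.leaf 1 [(4,1),(11,1)]) (.cons (.leaf 1 [(5,1),(11,1)]) (.cons (.leaf 1 [(11,1)]) (.cons (.leaf 1 [(5,1),(11,1)]) (.cons (.leaf 1 [(4,1),(11,1)]) (.cons (.leaf 1 [(11,1)]) .nil))))))))))))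 .nil)))))))))))) (.cons (.leaf 1 [(11,2),(1,3),(10,1)]) (.cons (.leaf 1 [(11,2),(1,3),(10,1)]) (.cons (.leaf 1 [(12,2),(1,1)]) (.cons (.leaf 1 [(5,2),(1,1),(12,2)]) (.cons (.leaf 1 [(4,1),(12,2),(1,1)]) (.cons (.keep [0,2,8,10,12] (.node (.cons (.keep [4,7,8,9,11] (.node (.cons (.leaf 1 [(4,1),(3,2),(12,1)]) (.cons (.leaf 1 [(5,1),(3,2),(12,1)]) (.cons (.leaf 1 [(3,1),(8,1)]) (.cons (.leaf 1 [(3,1),(8,1)]) (.cons (.leaf 1 [(4,1),(8,2),(12,1)]) (.cons (.leaf 1 [(5,1),(8,2),(12,1)]) (.cons (.leaf 1 [(12,1),(8,2)]) (.cons (.leaf 1 [(5,1),(8,2),(12,1)]) (.cons (.leaf 1 [(4,1),(8,2),(12,1)]) (.cons (.leaf 1 [(12,1),(8,2)]) .nil)))))))))))) (.cons (.keep [5,6,8,9,11] (.node (.cons (.leaf 1 [(12,1),(4,3)]) (.cons (.leaf 1 [(5,1),(4,2),(12,1)]) (.cons (.leaf 1 [(4,1),(8,1)]) (.cons (.leaf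 1 [(4,1),(8,1)]) (.cons (.leaf 1 [(12,1),(4,1),(8,2)]) (.cons (.leaf 1 [(5,1),(8,2),(12,1)]) (.cons (.leaf 1 [(12,1),(8,2)]) (.cons (.leaf 1 [(5,1),(8,2),(12,1)]) (.cons (.leaf 1 [(12,1),(8,2),(4,1)]) (.cons (.leaf 1 [(12,1),(8,2)]) .nil)))))))))))) (.cons (.leaf 1 [(4,2),(1,1),(11,1)]) (.cons (.leaf 1 [(5,2),(1,1),(11,1)]) (.cons (.leaf 1 [(1,1),(4,2)]) (.cons (.leaf 1 [(1,1),(5,2)]) (.cons (.keep [1,5,8,11] (.node (.cons (.leaf 1 [(4,1),(11,1)]) (.cons (.leaf 1 [(5,1),(11,1)]) (.cons (.leaf 1 [(1,1)]) (.cons (.leaf 1 [(1,1)]) (.cons (.leaf 1 [(4,1),(11,1)]) (.cons (.leaf 1 [(5,1),(11,1)]) (.cons (.leaf 1 [(11,1)]) (.cons (.leaf 1 [(5,1),(11,1)]) (.cons (.leaf 1 [(4,1),(11,1)]) (.cons (.leaf 1 [(11,1)]) .nil)))))))))))) (.cons (.keep [5,6,8,9,11] (.node (.cons (.leaf 1 [(3,1),(12,1),(8,3)])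 (.cons (.leaf 1 [(5,1),(8,2),(12,1)]) (.cons (.leaf 1 [(1,1),(8,2)]) (.cons (.leaf 1 [(1,1),(8,2)]) (.cons (.leaf 1 [(12,1),(4,3)]) (.cons (.leaf 1 [(5,1),(4,2),(12,1)]) (.cons (.leaf 1 [(12,1),(8,2)]) (.cons (.leaf 1 [(5,1),(8,2),(12,1)]) (.cons (.leaf 1 [(12,1),(8,2),(4,1)]) (.cons (.leaf 1 [(12,1),(8,2)]) .nil)))))))))))) (.cons (.keep [4,7,8,9,11] (.node (.cons (.leaf 1 [(3,1),(8,1),(12,1)]) (.cons (.leaf 1 [(5,1),(8,2),(12,1)]) (.cons (.leaf 1 [(1,1),(8,2)]) (.cons (.leaf 1 [(1,1),(8,2)]) (.cons (.leaf 1 [(12,1),(8,1)]) (.cons (.leaf 1 [(5,1),(8,2),(12,1)]) (.cons (.leaf 1 [(12,1),(3,2)]) (.cons (.leaf 1 [(5,1),(12,1),(3,2)]) (.cons (.leaf 1 [(12,1),(7,1),(3,2)]) (.cons (.leaf 1 [(12,1),(8,2)]) .nil)))))))))))) (.cons (.keep [0,4,9,11] (.node (.cons (.leaf 1 [(4,1),(11,1)])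 (.cons (.leaf 1 [(5,1),(11,1)]) (.cons (.leaf 1 [(1,1)]) (.cons (.leaf 1 [(1,1)]) (.cons (.leaf 1 [(4,1),(11,1)]) (.cons (.leaf 1 [(5,1),(11,1)]) (.cons (.leaf 1 [(11,1)]) (.cons (.leaf 1 [(5,1),(11,1)]) (.cons (.leaf 1 [(4,1),(11,1)]) (.cons (.leaf 1 [(11,1)]) .nil)))))))))))) .nil)))))))))))) .nil)))))))))))

theorem c_31_24_11 : Concl 31 24 z_31_24_11 h_31_24_11 .nd := piece _ hP_nil t_31_24_11 _ _ (by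
  decide +kernel)

def z_31_24_12 : F := ⟨0, -1, 0, -1, 3⟩

def h_31_24_12 : List F := [⟨0, 1, 0, 0, 0⟩, ⟨-1, 1, 0, 0, 0⟩, ⟨0, 1, 0, -1, 0⟩, ⟨0, 0, -1, 1, 0⟩,
  ⟨0, -1, 0, 0, 1⟩]

def t_31_24_12 : T := (.node (.cons (.leaf 1 [(9,1)]) (.cons (.keep [2,5,9,10,11] (.node (.cons (.keep [4,7,8,11,12] (.node (.cons (.leaf 1 [(4,1),(3,1),(12,1)]) (.cons (.leaf 1 [(5,1),(3,1),(12,1)]) (.cons (.leaf 1 [(3,1)]) (.cons (.leaf 1 [(3,1)]) (.cons (.leaf 1 [(4,1),(8,1),(12,1)]) (.cons (.leaf 1 [(5,1),(8,1),(12,1)]) (.cons (.leaf 1 [(12,1),(8,1)]) (.cons (.leaf 1 [(5,1),(8,1),(12,1)]) (.cons (.leaf 1 [(4,1),(8,1),(12,1)]) (.cons (.leaf 1 [(12,1),(8,1)]) .nil)))))))))))) (.cons (.keep [5,6,8,10,11,12] (.node (.cons (.leaf 1 [(13,1),(4,2)]) (.cons (.leaf 1 [(5,1),(4,1),(13,1)]) (.cons (.leaf 1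 [(4,1)]) (.cons (.leaf 1 [(4,1)]) (.cons (.leaf 1 [(13,1),(4,1),(8,1)]) (.cons (.leaf 1 [(5,1),(8,1),(13,1)]) (.cons (.leaf 1 [(13,1),(8,1)]) (.cons (.leaf 1 [(5,1),(8,1),(13,1)]) (.cons (.leaf 1 [(13,1),(8,1),(4,1)]) (.cons (.leaf 1 [(13,1),(8,1)]) .nil)))))))))))) (.cons (.leaf 1 [(4,1),(1,1),(12,1)]) (.cons (.leaf 1 [(5,1),(1,1),(12,1)]) (.cons (.leaf 1 [(1,1),(4,1)]) (.cons (.leaf 1 [(1,1),(5,1)]) (.cons (.keep [1,5,9,11,12] (.node (.cons (.leaf 1 [(4,1),(12,1)]) (.cons (.leaf 1 [(5,1),(12,1)]) (.cons (.leaf 1 [(1,1)]) (.cons (.leaf 1 [(1,1)]) (.cons (.leaf 1 [(4,1),(12,1)]) (.cons (.leaf 1 [(5,1),(12,1)]) (.cons (.leaf 1 [(12,1)]) (.cons (.leaf 1 [(5,1),(12,1)]) (.cons (.leaf 1 [(4,1),(12,1)]) (.cons (.leaf 1 [(12,1)]) .nil)))))))))))) (.cons (.keep [6,9,10,11,12] (.node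 (.cons (.leaf 2 [(12,2),(10,1),(4,3)]) (.cons (.leaf 2 [(5,2),(10,1),(4,1),(12,2)]) (.cons (.leaf 2 [(4,1),(1,1),(10,1)]) (.cons (.leaf 2 [(4,1),(10,1),(1,1)]) (.cons (.leaf 1 [(12,1),(4,2)]) (.cons (.leaf 1 [(5,1),(4,1),(12,1)]) (.cons (.leaf 1 [(12,1),(10,1),(9,1)]) (.cons (.leaf 1 [(5,1),(10,1),(9,1),(12,1)]) (.cons (.leaf 1 [(12,1),(10,1),(9,1),(4,1)]) (.cons (.leaf 1 [(12,1),(10,1),(9,1)]) .nil)))))))))))) (.cons (.keep [1,7,9,11,12] (.node (.cons (.leaf 1 [(3,1),(12,1)]) (.cons (.leaf 1 [(5,1),(3,1),(8,1),(12,1)]) (.cons (.leaf 1 [(3,1),(8,1)]) (.cons (.leaf 1 [(3,1),(8,1)]) (.cons (.leaf 1 [(12,1)]) (.cons (.leaf 1 [(5,1),(10,1),(8,1),(12,1)]) (.cons (.leaf 1 [(12,1),(3,1)]) (.cons (.leaf 1 [(5,1),(12,1),(3,1)]) (.cons (.leaf 1 [(12,1),(3,1)]) (.cons (.leaf 1 [(12,1),(10,1),(8,1)])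 .nil)))))))))))) (.cons (.keep [0,4,9,10,12] (.node (.cons (.leaf 1 [(4,1),(12,1)]) (.cons (.leaf 1 [(5,1),(12,1)]) (.cons (.leaf 1 [(1,1)]) (.cons (.leaf 1 [(1,1)]) (.cons (.leaf 1 [(4,1),(12,1)]) (.cons (.leaf 1 [(5,1),(12,1)]) (.cons (.leaf 1 [(12,1)]) (.cons (.leaf 1 [(5,1),(12,1)]) (.cons (.leaf 1 [(4,1),(12,1)]) (.cons (.leaf 1 [(12,1)]) .nil)))))))))))) .nil)))))))))))) (.cons (.leaf 1 [(1,1),(9,1)]) (.cons (.keep [5,6,9,11,12] (.node (.cons (.keep [4,7,9,10,11] (.node (.cons (.leaf 1 [(4,1),(3,1),(12,1)]) (.cons (.leaf 1 [(5,1),(3,1),(12,1)]) (.cons (.leaf 1 [(3,1)]) (.cons (.leaf 1 [(3,1)]) (.cons (.leaf 1 [(4,1),(8,1),(12,1)]) (.cons (.leaf 1 [(5,1),(8,1),(12,1)]) (.cons (.leaf 1 [(12,1),(8,1)]) (.cons (.leaf 1 [(5,1),(8,1),(12,1)]) (.cons (.leaf 1 [(4,1),(8,1),(12,1)])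 (.cons (.leaf 1 [(12,1),(8,1)]) .nil)))))))))))) (.cons (.keep [8,9,10,11,12] (.node (.cons (.leaf 1 [(11,1),(4,2)]) (.cons (.leaf 1 [(5,1),(4,1),(11,1)]) (.cons (.leaf 1 [(4,1)]) (.cons (.leaf 1 [(4,1)]) (.cons (.leaf 2 [(11,2),(4,3),(8,1)]) (.cons (.leaf 2 [(5,2),(4,1),(8,1),(11,2)]) (.cons (.leaf 1 [(11,1),(10,1),(8,1)]) (.cons (.leaf 1 [(5,1),(10,1),(8,1),(11,1)]) (.cons (.leaf 1 [(11,1),(10,1),(8,1),(4,1)]) (.cons (.leaf 1 [(11,1),(10,1),(8,1)]) .nil)))))))))))) (.cons (.leaf 1 [(4,1),(1,1),(11,1)]) (.cons (.leaf 1 [(5,1),(1,1),(11,1)]) (.cons (.leaf 1 [(1,1),(4,1)]) (.cons (.leaf 1 [(1,1),(5,1)]) (.cons (.keep [1,3,5,8,11] (.node (.cons (.leaf 1 [(4,1),(12,1)]) (.cons (.leaf 1 [(5,1),(12,1)]) (.cons (.leaf 1 [(1,1)]) (.cons (.leaf 1 [(1,1)]) (.cons (.leaf 1 [(4,1),(12,1)])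 (.cons (.leaf 1 [(5,1),(12,1)]) (.cons (.leaf 1 [(12,1)]) (.cons (.leaf 1 [(5,1),(12,1)]) (.cons (.leaf 1 [(4,1),(12,1)]) (.cons (.leaf 1 [(12,1)]) .nil)))))))))))) (.cons (.keep [1,3,6,8,11] (.node (.cons (.leaf 1 [(12,1),(8,1),(4,2)]) (.cons (.leaf 1 [(5,1),(8,1),(4,1),(12,1)]) (.cons (.leaf 1 [(4,1),(8,1)]) (.cons (.leaf 1 [(4,1),(8,1)]) (.cons (.leaf 1 [(12,1),(4,2)]) (.cons (.leaf 1 [(5,1),(4,1),(12,1)]) (.cons (.leaf 1 [(12,1),(8,1),(11,1)]) (.cons (.leaf 1 [(5,1),(8,1),(11,1),(12,1)]) (.cons (.leaf 1 [(12,1),(8,1),(11,1),(4,1)]) (.cons (.leaf 1 [(12,1),(8,1),(11,1)]) .nil)))))))))))) (.cons (.keep [7,8,9,10,11] (.node (.cons (.leaf 1 [(3,1),(12,1)]) (.cons (.leaf 1 [(5,1),(9,1),(11,1),(12,1)]) (.cons (.leaf 1 [(1,2),(9,1),(10,1)]) (.cons (.leaf 1 [(1,2),(9,1),(10,1)]) (.cons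 (.leaf 1 [(12,1)]) (.cons (.leaf 1 [(5,1),(9,1),(1,1),(12,1)]) (.cons (.leaf 1 [(12,1),(3,1)]) (.cons (.leaf 1 [(5,1),(12,1),(3,1)]) (.cons (.leaf 1 [(12,1),(3,1)]) (.cons (.leaf 1 [(12,1),(9,1),(11,1)]) .nil)))))))))))) (.cons (.keep [0,4,8,10,11] (.node (.cons (.leaf 1 [(4,1),(12,1)]) (.cons (.leaf 1 [(5,1),(12,1)]) (.cons (.leaf 1 [(1,1)]) (.cons (.leaf 1 [(1,1)]) (.cons (.leaf 1 [(4,1),(12,1)]) (.cons (.leaf 1 [(5,1),(12,1)]) (.cons (.leaf 1 [(12,1)]) (.cons (.leaf 1 [(5,1),(12,1)]) (.cons (.leaf 1 [(4,1),(12,1)]) (.cons (.leaf 1 [(12,1)]) .nil)))))))))))) .nil)))))))))))) (.cons (.leaf 1 [(9,1),(1,1)]) (.cons (.leaf 1 [(8,1),(1,1),(11,1)]) (.cons (.leaf 1 [(8,1),(1,1)]) (.cons (.leaf 1 [(8,1),(1,1)]) (.cons (.leaf 1 [(8,1),(7,1),(1,1)]) (.cons (.keep [0,2,8,11,12] (.node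 (.cons (.keep [3,4,7,9,11] (.node (.cons (.leaf 1 [(4,1),(3,1),(12,1)]) (.cons (.leaf 1 [(5,1),(3,1),(12,1)]) (.cons (.leaf 1 [(3,1)]) (.cons (.leaf 1 [(3,1)]) (.cons (.leaf 1 [(4,1),(9,1),(12,1)]) (.cons (.leaf 1 [(5,1),(9,1),(12,1)]) (.cons (.leaf 1 [(12,1),(9,1)]) (.cons (.leaf 1 [(5,1),(9,1),(12,1)]) (.cons (.leaf 1 [(4,1),(9,1),(12,1)]) (.cons (.leaf 1 [(12,1),(9,1)]) .nil)))))))))))) (.cons (.keep [5,6,8,9,11] (.node (.cons (.leaf 1 [(12,1),(4,2)]) (.cons (.leaf 1 [(5,1),(4,1),(12,1)]) (.cons (.leaf 1 [(4,1)]) (.cons (.leaf 1 [(4,1)]) (.cons (.leaf 1 [(12,1),(4,1),(8,1)]) (.cons (.leaf 1 [(5,1),(8,1),(12,1)]) (.cons (.leaf 1 [(12,1),(8,1)]) (.cons (.leaf 1 [(5,1),(8,1),(12,1)]) (.cons (.leaf 1 [(12,1),(8,1),(4,1)]) (.cons (.leaf 1 [(12,1),(8,1)]) .nil)))))))))))) (.cons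 (.leaf 1 [(4,1),(1,1),(11,1)]) (.cons (.leaf 1 [(5,1),(1,1),(11,1)]) (.cons (.leaf 1 [(1,1),(4,1)]) (.cons (.leaf 1 [(1,1),(5,1)]) (.cons (.keep [1,5,8,11] (.node (.cons (.leaf 1 [(4,1),(11,1)]) (.cons (.leaf 1 [(5,1),(11,1)]) (.cons (.leaf 1 [(1,1)]) (.cons (.leaf 1 [(1,1)]) (.cons (.leaf 1 [(4,1),(11,1)]) (.cons (.leaf 1 [(5,1),(11,1)]) (.cons (.leaf 1 [(11,1)]) (.cons (.leaf 1 [(5,1),(11,1)]) (.cons (.leaf 1 [(4,1),(11,1)]) (.cons (.leaf 1 [(11,1)]) .nil)))))))))))) (.cons (.keep [5,6,8,9,11] (.node (.cons (.leaf 1 [(3,1),(12,1),(8,2)]) (.cons (.leaf 1 [(5,1),(8,1),(12,1)]) (.cons (.leaf 1 [(1,1),(8,1)]) (.cons (.leaf 1 [(8,1),(1,1)]) (.cons (.leaf 1 [(12,1),(4,2)]) (.cons (.leaf 1 [(5,1),(4,1),(12,1)]) (.cons (.leaf 1 [(12,1),(8,1)]) (.cons (.leaf 1 [(5,1),(8,1),(12,1)]) (.cons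 (.leaf 1 [(12,1),(8,1),(4,1)]) (.cons (.leaf 1 [(12,1),(8,1)]) .nil)))))))))))) (.cons (.keep [4,7,8,9,11] (.node (.cons (.leaf 1 [(3,1),(12,1)]) (.cons (.leaf 1 [(5,1),(8,1),(12,1)]) (.cons (.leaf 1 [(1,1),(8,1)]) (.cons (.leaf 1 [(1,1),(8,1)]) (.cons (.leaf 1 [(12,1)]) (.cons (.leaf 1 [(5,1),(8,1),(12,1)]) (.cons (.leaf 1 [(12,1),(3,1)]) (.cons (.leaf 1 [(5,1),(12,1),(3,1)]) (.cons (.leaf 1 [(12,1),(3,1)]) (.cons (.leaf 1 [(12,1),(8,1)]) .nil)))))))))))) (.cons (.keep [0,4,9,11] (.node (.cons (.leaf 1 [(4,1),(11,1)]) (.cons (.leaf 1 [(5,1),(11,1)]) (.cons (.leaf 1 [(1,1)]) (.cons (.leaf 1 [(1,1)]) (.cons (.leaf 1 [(4,1),(11,1)]) (.cons (.leaf 1 [(5,1),(11,1)]) (.cons (.leaf 1 [(11,1)]) (.cons (.leaf 1 [(5,1),(11,1)]) (.cons (.leaf 1 [(4,1),(11,1)]) (.cons (.leaf 1 [(11,1)])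 .nil)))))))))))) .nil)))))))))))) .nil)))))))))))

theorem c_31_24_12 : Concl 31 24 z_31_24_12 h_31_24_12 .nd := piece _ hP_nil t_31_24_12 _ _ (by
  decide +kernel)

def z_31_24_13 : F := ⟨1, -2, -1, 0, 3⟩

def h_31_24_13 : List F := [⟨1, 0, 0, 0, 0⟩, ⟨0, 0, 1, -1, 0⟩, ⟨0, 1, -1, 0, 0⟩, ⟨0, -1, 0, 0, 1⟩,
  ⟨-1, 1, 0, 0, 0⟩]

def t_31_24_13 : T := (.node (.cons (.leaf 1 [(9,1),(12,2)]) (.cons (.keep [2,5,9,10,12] (.node (.cons (.keep [4,7,8,10,11] (.node (.cons (.leaf 1 [(3,1),(4,1)]) (.cons (.leaf 1 [(3,1),(5,1)]) (.cons (.leaf 1 [(4,1),(8,1)]) (.cons (.leaf 1 [(5,1),(8,1)]) (.cons (.leaf 1 [(4,1),(8,1)]) (.cons (.leaf 1 [(5,1),(8,1)]) (.cons (.leaf 1 [(8,1)]) (.cons (.leaf 1 [(8,1),(5,1)]) (.cons (.leaf 1 [(8,1),(4,1)]) (.cons (.leaf 1 [(8,1)]) .nil)))))))))))) (.cons (.keep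 [5,6,8,10,11,12] (.node (.cons (.leaf 1 [(13,1),(4,2)]) (.cons (.leaf 1 [(13,1),(4,1),(5,1)]) (.cons (.leaf 1 [(4,1),(13,1),(8,1)]) (.cons (.leaf 1 [(5,1),(13,1),(8,1)]) (.cons (.leaf 1 [(4,2),(8,1)]) (.cons (.leaf 1 [(4,1),(8,1),(5,1)]) (.cons (.leaf 1 [(13,1),(8,1)]) (.cons (.leaf 1 [(13,1),(8,1),(5,1)]) (.cons (.leaf 1 [(13,1),(8,1),(4,1)]) (.cons (.leaf 1 [(13,1),(8,1)]) .nil)))))))))))) (.cons (.leaf 1 [(1,2),(4,1)]) (.cons (.leaf 1 [(1,1),(12,1),(5,1)]) (.cons (.leaf 1 [(10,1),(1,2),(4,1)]) (.cons (.leaf 1 [(1,1),(5,1),(12,1),(10,1)]) (.cons (.keep [1,5,9,10,11] (.node (.cons (.leaf 1 [(8,1),(4,1)]) (.cons (.leaf 1 [(8,1),(5,1)]) (.cons (.leaf 1 [(4,1),(8,1)]) (.cons (.leaf 1 [(5,1),(8,1)]) (.cons (.leaf 1 [(1,1),(4,1)]) (.cons (.leaf 1 [(1,1),(5,1)]) (.cons (.leaf 1 [(8,1)])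 (.cons (.leaf 1 [(8,1),(5,1)]) (.cons (.leaf 1 [(8,1),(4,1)]) (.cons (.leaf 1 [(8,1)]) .nil)))))))))))) (.cons (.keep [6,9,10,11,12] (.node (.cons (.leaf 1 [(11,3),(4,3)]) (.cons (.leaf 1 [(12,1),(11,1),(5,2)]) (.cons (.leaf 1 [(4,3),(1,1),(11,3)]) (.cons (.leaf 1 [(1,2),(12,1),(11,1),(10,2)]) (.cons (.leaf 1 [(1,1),(4,3)]) (.cons (.leaf 1 [(1,1),(4,2),(5,1)]) (.cons (.leaf 1 [(1,1),(11,3)]) (.cons (.leaf 1 [(1,1),(11,3),(5,4)]) (.cons (.leaf 1 [(1,1),(11,3),(4,3)]) (.cons (.leaf 1 [(12,1),(11,1)]) .nil)))))))))))) (.cons (.keep [1,7,9,10,11] (.node (.cons (.leaf 1 [(3,1),(8,1)]) (.cons (.leaf 1 [(3,1),(8,2),(5,1)]) (.cons (.leaf 1 [(3,1),(8,1)]) (.cons (.leaf 1 [(5,1),(10,1),(8,2)]) (.cons (.leaf 1 [(8,1)]) (.cons (.leaf 1 [(5,1),(8,2),(10,1)]) (.cons (.leaf 1 [(3,1),(1,1)])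 (.cons (.leaf 1 [(3,1),(1,1),(5,1)]) (.cons (.leaf 1 [(7,1),(1,1),(3,1)]) (.cons (.leaf 1 [(10,1),(8,2)]) .nil)))))))))))) (.cons (.keep [0,4,9,10,12] (.node (.cons (.leaf 1 [(12,1),(4,1)]) (.cons (.leaf 1 [(12,1),(5,1)]) (.cons (.leaf 1 [(4,1),(12,1)]) (.cons (.leaf 1 [(5,1),(12,1)]) (.cons (.leaf 1 [(1,1),(4,1)]) (.cons (.leaf 1 [(1,1),(5,1)]) (.cons (.leaf 1 [(12,1)]) (.cons (.leaf 1 [(12,1),(5,1)]) (.cons (.leaf 1 [(12,1),(4,1)]) (.cons (.leaf 1 [(12,1)]) .nil)))))))))))) .nil)))))))))))) (.cons (.leaf 1 [(1,1),(9,1),(12,2)]) (.cons (.keep [3,5,9,11,12] (.node (.cons (.keep [4,7,8,10,11] (.node (.cons (.leaf 1 [(4,1)]) (.cons (.leaf 1 [(5,1)]) (.cons (.leaf 1 [(4,1)]) (.cons (.leaf 1 [(5,1)]) (.cons (.leaf 1 [(4,1)]) (.cons (.leaf 1 [(5,1)]) (.cons (.leaf 1 []) (.cons (.leaf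 1 [(5,1)]) (.cons (.leaf 1 [(4,1)]) (.cons (.leaf 1 []) .nil)))))))))))) (.cons (.keep [8,9,10,11,12] (.node (.cons (.leaf 1 [(12,1),(4,2)]) (.cons (.leaf 1 [(12,1),(4,1),(5,1)]) (.cons (.leaf 1 [(4,2),(12,1),(8,1)]) (.cons (.leaf 1 [(5,2),(12,1),(8,1)]) (.cons (.leaf 1 [(4,2)]) (.cons (.leaf 1 [(5,1),(4,1)]) (.cons (.leaf 1 [(12,1),(8,1)]) (.cons (.leaf 1 [(12,1),(5,2),(8,1)]) (.cons (.leaf 1 [(12,1),(8,1),(4,2)]) (.cons (.leaf 1 [(12,1),(8,1)]) .nil)))))))))))) (.cons (.leaf 1 [(1,2)]) (.cons (.leaf 1 [(1,1),(12,1),(5,1)]) (.cons (.leaf 1 [(10,1),(1,2)]) (.cons (.leaf 1 [(1,1),(5,1),(12,1),(10,1)]) (.cons (.keep [1,5,8,9,10] (.node (.cons (.leaf 1 [(8,1),(4,1)]) (.cons (.leaf 1 [(8,1),(5,1)]) (.cons (.leaf 1 [(4,1),(8,1)]) (.cons (.leaf 1 [(5,1),(8,1)]) (.cons (.leaf 1 [(1,1),(4,1)])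 (.cons (.leaf 1 [(1,1),(5,1)]) (.cons (.leaf 1 [(8,1)]) (.cons (.leaf 1 [(8,1),(5,1)]) (.cons (.leaf 1 [(8,1),(4,1)]) (.cons (.leaf 1 [(8,1)]) .nil)))))))))))) (.cons (.keep [1,6,8,9,10] (.node (.cons (.leaf 1 [(8,2),(4,2)]) (.cons (.leaf 1 [(8,2),(4,1),(5,1)]) (.cons (.leaf 1 [(4,2),(8,1),(10,1)]) (.cons (.leaf 1 [(5,2),(8,1),(10,1)]) (.cons (.leaf 1 [(1,1),(4,2)]) (.cons (.leaf 1 [(1,1),(4,1),(5,1)]) (.cons (.leaf 1 [(8,1),(10,1)]) (.cons (.leaf 1 [(8,1),(5,2),(10,1)]) (.cons (.leaf 1 [(8,1),(10,1),(4,2)]) (.cons (.leaf 1 [(8,1),(10,1)]) .nil)))))))))))) (.cons (.keep [7,8,9,10,12] (.node (.cons (.leaf 1 []) (.cons (.leaf 1 [(12,1),(9,1),(5,2)]) (.cons (.leaf 1 [(1,1)]) (.cons (.leaf 1 [(5,2),(12,1),(9,1)]) (.cons (.leaf 1 [(1,1)]) (.cons (.leaf 1 [(5,2),(1,1),(9,1)]) (.cons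 (.leaf 1 [(1,1)]) (.cons (.leaf 1 [(1,1),(5,1)]) (.cons (.leaf 1 [(1,1)]) (.cons (.leaf 1 [(12,1),(9,1)]) .nil)))))))))))) (.cons (.keep [0,4,9,10,12] (.node (.cons (.leaf 1 [(12,1),(4,1)]) (.cons (.leaf 1 [(12,1),(5,1)]) (.cons (.leaf 1 [(4,1),(12,1)]) (.cons (.leaf 1 [(5,1),(12,1)]) (.cons (.leaf 1 [(1,1),(4,1)]) (.cons (.leaf 1 [(1,1),(5,1)]) (.cons (.leaf 1 [(12,1)]) (.cons (.leaf 1 [(12,1),(5,1)]) (.cons (.leaf 1 [(12,1),(4,1)]) (.cons (.leaf 1 [(12,1)]) .nil)))))))))))) .nil)))))))))))) (.cons (.leaf 1 [(10,1),(1,2),(12,1)]) (.cons (.leaf 1 [(10,1),(1,2),(12,1)]) (.cons (.leaf 1 [(10,2),(9,3),(1,3)]) (.cons (.leaf 1 [(10,2),(9,3),(6,1),(1,3)]) (.cons (.leaf 1 [(10,2),(1,3),(7,4),(9,3)]) (.cons (.keep [0,2,9,11,12] (.node (.cons (.keep [4,7,8,9,10] (.node (.cons (.leaf 1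 [(3,2),(4,1)]) (.cons (.leaf 1 [(3,2),(5,1)]) (.cons (.leaf 1 [(4,1),(8,2)]) (.cons (.leaf 1 [(5,1),(8,2)]) (.cons (.leaf 1 [(8,2),(4,1)]) (.cons (.leaf 1 [(8,2),(5,1)]) (.cons (.leaf 1 [(8,2)]) (.cons (.leaf 1 [(8,2),(5,1)]) (.cons (.leaf 1 [(8,2),(4,1)]) (.cons (.leaf 1 [(8,2)]) .nil)))))))))))) (.cons (.keep [5,6,8,9,10] (.node (.cons (.leaf 1 [(4,3)]) (.cons (.leaf 1 [(4,2),(5,1)]) (.cons (.leaf 1 [(4,1),(8,2)]) (.cons (.leaf 1 [(5,1),(8,2)]) (.cons (.leaf 1 [(4,1),(8,2)]) (.cons (.leaf 1 [(5,1),(8,2)]) (.cons (.leaf 1 [(8,2)]) (.cons (.leaf 1 [(8,2),(5,1)]) (.cons (.leaf 1 [(8,2),(4,1)]) (.cons (.leaf 1 [(8,2)]) .nil)))))))))))) (.cons (.leaf 1 [(1,1),(4,2)]) (.cons (.leaf 1 [(1,1),(5,2)]) (.cons (.leaf 1 [(1,1),(4,2),(10,1)]) (.cons (.leaf 1 [(1,1),(5,2),(10,1)]) (.cons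 (.keep [1,5,8,10] (.node (.cons (.leaf 1 [(4,1)]) (.cons (.leaf 1 [(5,1)]) (.cons (.leaf 1 [(4,1)]) (.cons (.leaf 1 [(5,1)]) (.cons (.leaf 1 [(4,1)]) (.cons (.leaf 1 [(5,1)]) (.cons (.leaf 1 []) (.cons (.leaf 1 [(5,1)]) (.cons (.leaf 1 [(4,1)]) (.cons (.leaf 1 []) .nil)))))))))))) (.cons (.keep [5,6,8,9,10] (.node (.cons (.leaf 1 [(8,2),(4,1)]) (.cons (.leaf 1 [(8,2),(5,1)]) (.cons (.leaf 1 [(4,1),(8,2)]) (.cons (.leaf 1 [(5,1),(8,2)]) (.cons (.leaf 1 [(4,3)]) (.cons (.leaf 1 [(5,1),(4,2)]) (.cons (.leaf 1 [(8,2)]) (.cons (.leaf 1 [(5,1),(8,2)]) (.cons (.leaf 1 [(8,2),(4,1)]) (.cons (.leaf 1 [(8,2)]) .nil)))))))))))) (.cons (.keep [4,7,8,9,10] (.node (.cons (.leaf 1 [(3,1),(8,1)]) (.cons (.leaf 1 [(8,2),(5,1)]) (.cons (.leaf 1 [(3,1),(8,1)]) (.cons (.leaf 1 [(5,1),(8,2)]) (.cons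 (.leaf 1 [(8,1)]) (.cons (.leaf 1 [(8,2),(5,1)]) (.cons (.leaf 1 [(3,2)]) (.cons (.leaf 1 [(3,2),(5,1)]) (.cons (.leaf 1 [(7,1),(3,2)]) (.cons (.leaf 1 [(8,2)]) .nil)))))))))))) (.cons (.keep [0,4,9,10] (.node (.cons (.leaf 1 [(4,1)]) (.cons (.leaf 1 [(5,1)]) (.cons (.leaf 1 [(4,1)]) (.cons (.leaf 1 [(5,1)]) (.cons (.leaf 1 [(4,1)]) (.cons (.leaf 1 [(5,1)]) (.cons (.leaf 1 []) (.cons (.leaf 1 [(5,1)]) (.cons (.leaf 1 [(4,1)]) (.cons (.leaf 1 []) .nil)))))))))))) .nil)))))))))))) .nil)))))))))))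

theorem c_31_24_13 : Concl 31 24 z_31_24_13 h_31_24_13 .nd := piece _ hP_nil t_31_24_13 _ _ (by
  decide +kernel)

def z_31_24_15 : F := ⟨-1, 0, 0, -1, 2⟩

def h_31_24_15 : List F := [⟨-1, 0, 0, 0, 0⟩, ⟨0, 0, -1, 1, 0⟩, ⟨0, -1, 0, -1, 1⟩, ⟨0, 1, 0, 0,
  1⟩, ⟨1, -1, 0, 0, 0⟩]

def t_31_24_15 : T := (.node (.cons (.leaf 1 []) (.cons (.keep [8,9,10,11,12] (.node (.cons (.keep [4,7,8,9,10] (.node (.cons (.leaf 1 [(4,1),(3,1),(11,1)]) (.cons (.leaf 1 [(5,1),(3,1),(11,1)]) (.cons (.leaf 1 [(3,1)]) (.cons (.leaf 1 [(3,1)]) (.cons (.leaf 1 [(4,1),(8,1),(11,1)]) (.cons (.leaf 1 [(5,1),(8,1),(11,1)]) (.cons (.leaf 1 [(11,1),(8,1)]) (.cons (.leaf 1 [(5,1),(8,1),(11,1)]) (.cons (.leaf 1 [(4,1),(8,1),(11,1)]) (.cons (.leaf 1 [(11,1),(8,1)]) .nil)))))))))))) (.cons (.keep [5,6,8,9,10] (.node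 (.cons (.leaf 1 [(4,1),(3,1),(11,1)]) (.cons (.leaf 1 [(5,1),(3,1),(11,1)]) (.cons (.leaf 1 [(3,1)]) (.cons (.leaf 1 [(3,1)]) (.cons (.leaf 1 [(8,1),(11,1)]) (.cons (.leaf 1 [(5,1),(8,1),(9,1),(11,1)]) (.cons (.leaf 1 [(11,1),(8,1),(3,1)]) (.cons (.leaf 1 [(5,1),(8,1),(3,1),(11,1)]) (.cons (.leaf 1 [(8,1),(11,1),(3,1)]) (.cons (.leaf 1 [(11,1),(8,1),(9,1)]) .nil)))))))))))) (.cons (.leaf 1 [(4,1),(9,1)]) (.cons (.leaf 1 [(4,1),(9,1)]) (.cons (.leaf 1 [(4,1)]) (.cons (.leaf 1 [(4,1)]) (.cons (.keep [1,5,9,10,12] (.node (.cons (.leaf 1 [(4,1),(3,1),(10,1)]) (.cons (.leaf 1 [(5,1),(3,1),(10,1)]) (.cons (.leaf 1 [(3,1)]) (.cons (.leaf 1 [(3,1)]) (.cons (.leaf 1 [(4,1),(12,1),(10,1)]) (.cons (.leaf 1 [(5,1),(12,1),(10,1)]) (.cons (.leaf 1 [(10,1),(12,1)]) (.cons (.leaf 1 [(5,1),(12,1),(10,1)])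 (.cons (.leaf 1 [(4,1),(12,1),(10,1)]) (.cons (.leaf 1 [(10,1),(12,1)]) .nil)))))))))))) (.cons (.keep [1,5,9,10,12] (.node (.cons (.leaf 1 [(4,1),(3,1),(10,1)]) (.cons (.leaf 1 [(5,1),(3,1),(10,1)]) (.cons (.leaf 1 [(3,1)]) (.cons (.leaf 1 [(3,1)]) (.cons (.leaf 1 [(4,2),(12,1),(10,1)]) (.cons (.leaf 1 [(5,1),(4,1),(12,1),(10,1)]) (.cons (.leaf 1 [(10,1),(9,1),(12,1)]) (.cons (.leaf 1 [(5,1),(0,1),(12,1),(10,2)]) (.cons (.leaf 1 [(4,3),(0,1),(10,2),(12,1)]) (.cons (.leaf 1 [(10,2),(0,1),(12,1),(4,1)]) .nil)))))))))))) (.cons (.keep [3,4,8,9,12] (.node (.cons (.leaf 1 [(4,1),(3,1),(11,1)]) (.cons (.leaf 1 [(5,1),(3,1),(11,1)]) (.cons (.leaf 1 [(3,1)]) (.cons (.leaf 1 [(3,1)]) (.cons (.leaf 1 [(12,1),(11,1)]) (.cons (.leaf 1 [(5,1),(12,1),(9,1),(11,1)]) (.cons (.leaf 1 [(11,1),(12,1),(3,1)])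 (.cons (.leaf 1 [(5,1),(12,1),(3,1),(11,1)]) (.cons (.leaf 1 [(12,1),(11,1),(3,1)]) (.cons (.leaf 1 [(11,1),(12,1),(9,1)]) .nil)))))))))))) (.cons (.keep [0,4,8,9,12] (.node (.cons (.leaf 1 [(4,1),(3,1),(11,1)]) (.cons (.leaf 1 [(5,1),(3,1),(11,1)]) (.cons (.leaf 1 [(3,1)]) (.cons (.leaf 1 [(3,1)]) (.cons (.leaf 1 [(4,1),(12,1),(11,1)]) (.cons (.leaf 1 [(5,1),(12,1),(11,1)]) (.cons (.leaf 1 [(11,1),(12,1)]) (.cons (.leaf 1 [(5,1),(12,1),(11,1)]) (.cons (.leaf 1 [(4,1),(12,1),(11,1)]) (.cons (.leaf 1 [(11,1),(12,1)]) .nil)))))))))))) .nil)))))))))))) (.cons (.leaf 1 [(1,1)]) (.cons (.keep [1,6,8,9,12] (.node (.cons (.keep [4,7,9,10,11] (.node (.cons (.leaf 1 [(4,1),(3,2),(12,1)]) (.cons (.leaf 1 [(5,1),(3,2),(12,1)]) (.cons (.leaf 1 [(3,1),(8,1)]) (.cons (.leaf 1 [(3,1),(8,1)])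 (.cons (.leaf 1 [(4,1),(8,2),(12,1)]) (.cons (.leaf 1 [(5,1),(8,2),(12,1)]) (.cons (.leaf 1 [(12,1),(8,2)]) (.cons (.leaf 1 [(5,1),(8,2),(12,1)]) (.cons (.leaf 1 [(4,1),(8,2),(12,1)]) (.cons (.leaf 1 [(12,1),(8,2)]) .nil)))))))))))) (.cons (.keep [3,5,6,10,11] (.node (.cons (.leaf 1 [(12,1),(3,1),(4,2)]) (.cons (.leaf 1 [(5,1),(3,1),(4,1),(12,1)]) (.cons (.leaf 1 [(3,1),(8,1),(4,1)]) (.cons (.leaf 1 [(3,1),(8,1),(4,1)]) (.cons (.leaf 1 [(12,1),(9,2)]) (.cons (.leaf 1 [(5,1),(10,1),(9,2),(12,1)]) (.cons (.leaf 1 [(12,1),(3,1),(9,2)]) (.cons (.leaf 1 [(5,1),(3,1),(9,2),(12,1)]) (.cons (.leaf 1 [(12,1),(9,2),(3,1)]) (.cons (.leaf 1 [(12,1),(10,1),(9,2)]) .nil)))))))))))) (.cons (.leaf 1 [(4,2),(11,1)]) (.cons (.leaf 1 [(4,1),(5,1),(11,1)]) (.cons (.leaf 1 [(4,2)]) (.cons (.leaf 1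 [(5,1),(4,1)]) (.cons (.keep [1,3,5,11,12] (.node (.cons (.leaf 1 [(4,1),(3,1),(11,1)]) (.cons (.leaf 1 [(5,1),(3,1),(11,1)]) (.cons (.leaf 1 [(3,1)]) (.cons (.leaf 1 [(3,1)]) (.cons (.leaf 1 [(4,1),(12,1),(11,1)]) (.cons (.leaf 1 [(5,1),(12,1),(11,1)]) (.cons (.leaf 1 [(11,1),(12,1)]) (.cons (.leaf 1 [(5,1),(12,1),(11,1)]) (.cons (.leaf 1 [(4,1),(12,1),(11,1)]) (.cons (.leaf 1 [(11,1),(12,1)]) .nil)))))))))))) (.cons (.keep [3,5,10,11,12] (.node (.cons (.leaf 1 [(11,1),(4,2)]) (.cons (.leaf 1 [(5,1),(4,1),(11,1)]) (.cons (.leaf 1 [(4,1)]) (.cons (.leaf 1 [(4,1)]) (.cons (.leaf 1 [(11,1),(4,2),(12,1)]) (.cons (.leaf 1 [(5,1),(4,1),(12,1),(11,1)]) (.cons (.leaf 1 [(11,1),(9,1),(12,1)]) (.cons (.leaf 1 [(5,1),(9,1),(12,1),(11,1)]) (.cons (.leaf 1 [(11,1),(9,1),(12,1),(4,1)]) (.cons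 (.leaf 1 [(11,1),(9,1),(12,1)]) .nil)))))))))))) (.cons (.keep [4,9,10,11,12] (.node (.cons (.leaf 1 [(3,2),(11,1)]) (.cons (.leaf 1 [(5,1),(3,1),(8,1),(11,1)]) (.cons (.leaf 1 [(3,1),(8,1)]) (.cons (.leaf 1 [(3,1),(8,1)]) (.cons (.leaf 1 [(12,1),(11,1)]) (.cons (.leaf 1 [(5,1),(12,1),(8,1),(11,1)]) (.cons (.leaf 1 [(11,1),(12,1),(3,1)]) (.cons (.leaf 1 [(5,1),(12,1),(3,1),(11,1)]) (.cons (.leaf 1 [(12,1),(11,1),(3,1)]) (.cons (.leaf 1 [(11,1),(12,1),(8,1)]) .nil)))))))))))) (.cons (.keep [0,4,10,11,12] (.node (.cons (.leaf 1 [(4,1),(3,1),(11,1)]) (.cons (.leaf 1 [(5,1),(3,1),(11,1)]) (.cons (.leaf 1 [(3,1)]) (.cons (.leaf 1 [(3,1)]) (.cons (.leaf 1 [(4,1),(12,1),(11,1)]) (.cons (.leaf 1 [(5,1),(12,1),(11,1)]) (.cons (.leaf 1 [(11,1),(12,1)]) (.cons (.leaf 1 [(5,1),(12,1),(11,1)])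 (.cons (.leaf 1 [(4,1),(12,1),(11,1)]) (.cons (.leaf 1 [(11,1),(12,1)]) .nil)))))))))))) .nil)))))))))))) (.cons (.leaf 1 [(1,1)]) (.cons (.leaf 1 [(5,1),(1,1),(9,1)]) (.cons (.leaf 1 [(1,1)]) (.cons (.leaf 1 [(1,1),(5,1)]) (.cons (.leaf 1 [(1,1)]) (.cons (.keep [0,2,9,11,12] (.node (.cons (.keep [4,7,8,9,10] (.node (.cons (.leaf 1 [(4,1),(12,1)]) (.cons (.leaf 1 [(5,1),(12,1)]) (.cons (.leaf 1 [(1,1)]) (.cons (.leaf 1 [(1,1)]) (.cons (.leaf 1 [(4,1),(12,1)]) (.cons (.leaf 1 [(5,1),(12,1)]) (.cons (.leaf 1 [(12,1)]) (.cons (.leaf 1 [(5,1),(12,1)]) (.cons (.leaf 1 [(3,1),(9,1),(12,1)]) (.cons (.leaf 1 [(12,1)]) .nil)))))))))))) (.cons (.keep [5,6,8,9,10] (.node (.cons (.leaf 1 [(4,1),(12,1)]) (.cons (.leaf 1 [(5,1),(12,1)]) (.cons (.leaf 1 [(1,1)]) (.cons (.leaf 1 [(1,1)]) (.cons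 (.leaf 1 [(4,1),(12,1)]) (.cons (.leaf 1 [(5,1),(12,1)]) (.cons (.leaf 1 [(12,1)]) (.cons (.leaf 1 [(5,1),(12,1)]) (.cons (.leaf 1 [(1,1),(8,1),(12,1)]) (.cons (.leaf 1 [(12,1)]) .nil)))))))))))) (.cons (.leaf 1 [(1,1),(10,1)]) (.cons (.leaf 1 [(1,1),(10,1)]) (.cons (.leaf 1 [(1,1)]) (.cons (.leaf 1 [(1,1)]) (.cons (.keep [1,5,8,10] (.node (.cons (.leaf 1 [(4,1),(11,1)]) (.cons (.leaf 1 [(5,1),(11,1)]) (.cons (.leaf 1 [(1,1)]) (.cons (.leaf 1 [(1,1)]) (.cons (.leaf 1 [(4,1),(11,1)]) (.cons (.leaf 1 [(5,1),(11,1)]) (.cons (.leaf 1 [(11,1)]) (.cons (.leaf 1 [(5,1),(11,1)]) (.cons (.leaf 1 [(4,1),(11,1)]) (.cons (.leaf 1 [(11,1)]) .nil)))))))))))) (.cons (.keep [5,6,8,9,10] (.node (.cons (.leaf 1 [(3,1),(8,1),(12,1)]) (.cons (.leaf 1 [(5,1),(12,1)]) (.cons (.leaf 1 [(1,1)]) (.cons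 (.leaf 1 [(1,1)]) (.cons (.leaf 1 [(4,1),(12,1)]) (.cons (.leaf 1 [(5,1),(12,1)]) (.cons (.leaf 1 [(12,1)]) (.cons (.leaf 1 [(5,1),(12,1)]) (.cons (.leaf 1 [(3,1),(8,1),(12,1)]) (.cons (.leaf 1 [(12,1)]) .nil)))))))))))) (.cons (.keep [4,7,8,9,10] (.node (.cons (.leaf 1 [(3,2),(11,1),(12,1)]) (.cons (.leaf 1 [(5,1),(12,1)]) (.cons (.leaf 1 [(1,1)]) (.cons (.leaf 1 [(1,1)]) (.cons (.leaf 1 [(4,1),(12,1)]) (.cons (.leaf 1 [(5,1),(12,1)]) (.cons (.leaf 1 [(12,1)]) (.cons (.leaf 1 [(5,1),(12,1)]) (.cons (.leaf 1 [(3,1),(9,1),(12,1)]) (.cons (.leaf 1 [(12,1)]) .nil)))))))))))) (.cons (.keep [0,4,9,10] (.node (.cons (.leaf 1 [(4,1),(11,1)]) (.cons (.leaf 1 [(5,1),(11,1)]) (.cons (.leaf 1 [(1,1)]) (.cons (.leaf 1 [(1,1)]) (.cons (.leaf 1 [(4,1),(11,1)]) (.cons (.leaf 1 [(5,1),(11,1)])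 (.cons (.leaf 1 [(11,1)]) (.cons (.leaf 1 [(5,1),(11,1)]) (.cons (.leaf 1 [(4,1),(11,1)]) (.cons (.leaf 1 [(11,1)]) .nil)))))))))))) .nil)))))))))))) .nil)))))))))))

theorem c_31_24_15 : Concl 31 24 z_31_24_15 h_31_24_15 .nd := piece _ hP_nil t_31_24_15 _ _ (by
  decide +kernel)

def z_31_24_16 : F := ⟨-1, 1, 0, -1, 2⟩

def h_31_24_16 : List F := [⟨0, 1, 0, 0, 0⟩, ⟨0, 0, -1, 1, 0⟩, ⟨0, 0, 0, -1, 1⟩, ⟨1, -1, 0, 0, 0⟩,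
  ⟨-1, 0, 0, 0, 1⟩]

def t_31_24_16 : T := (.node (.cons (.leaf 1 [(2,1)]) (.cons (.keep [6,8,9,11,12] (.node (.cons (.keep [4,7,8,10,12] (.node (.cons (.leaf 1 [(4,1),(11,1)]) (.cons (.leaf 1 [(5,1),(11,1)]) (.cons (.leaf 1 [(1,1)]) (.cons (.leaf 1 [(1,1)]) (.cons (.leaf 1 [(4,1),(11,1)]) (.cons (.leaf 1 [(5,1),(11,1)]) (.cons (.leaf 1 [(11,1)]) (.cons (.leaf 1 [(5,1),(11,1)]) (.cons (.leaf 1 [(3,1),(9,1),(11,1)]) (.cons (.leaf 1 [(11,1)]) .nil)))))))))))) (.cons (.keep [5,6,8,10,12] (.node (.cons (.leaf 1 [(3,1),(11,1)]) (.cons (.leaf 1 [(5,1),(9,1),(11,1)]) (.cons (.leaf 1 [(1,1),(9,1)]) (.cons (.leaf 1 [(1,1),(9,1)]) (.cons (.leaf 1 [(11,1)]) (.cons (.leaf 1 [(5,1),(9,1),(11,1)]) (.cons (.leaf 1 [(11,1),(3,1)]) (.cons (.leaf 1 [(5,1),(11,1),(3,1)]) (.cons (.leaf 1 [(11,1),(3,1)])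 (.cons (.leaf 1 [(11,1),(9,1)]) .nil)))))))))))) (.cons (.leaf 1 [(10,1)]) (.cons (.leaf 1 [(10,1),(6,1)]) (.cons (.leaf 1 []) (.cons (.leaf 1 [(6,1)]) (.cons (.keep [1,3,5,10,11] (.node (.cons (.leaf 1 [(4,1),(3,1),(11,1)]) (.cons (.leaf 1 [(5,1),(3,1),(11,1)]) (.cons (.leaf 1 [(3,1)]) (.cons (.leaf 1 [(3,1)]) (.cons (.leaf 1 [(4,1),(12,1),(11,1)]) (.cons (.leaf 1 [(5,1),(12,1),(11,1)]) (.cons (.leaf 1 [(11,1),(12,1)]) (.cons (.leaf 1 [(5,1),(12,1),(11,1)]) (.cons (.leaf 1 [(4,1),(12,1),(11,1)]) (.cons (.leaf 1 [(11,1),(12,1)]) .nil)))))))))))) (.cons (.keep [1,3,5,10,11] (.node (.cons (.leaf 1 [(11,1),(3,2)]) (.cons (.leaf 1 [(5,1),(12,1),(11,1)]) (.cons (.leaf 2 [(3,2),(12,1),(11,1)]) (.cons (.leaf 1 [(1,1),(12,1)]) (.cons (.leaf 1 [(11,1),(4,1),(12,1)]) (.cons (.leaf 1 [(5,1),(12,1),(11,1)])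 (.cons (.leaf 1 [(11,1),(12,1)]) (.cons (.leaf 1 [(5,1),(12,1),(11,1)]) (.cons (.leaf 1 [(4,1),(11,1),(12,1)]) (.cons (.leaf 1 [(11,1),(12,1)]) .nil)))))))))))) (.cons (.keep [4,8,10,11,12] (.node (.cons (.leaf 1 [(10,1),(4,2)]) (.cons (.leaf 1 [(5,1),(4,1),(10,1)]) (.cons (.leaf 1 [(4,1)]) (.cons (.leaf 1 [(4,1)]) (.cons (.leaf 1 [(10,1),(4,1),(11,1)]) (.cons (.leaf 1 [(5,1),(11,1),(10,1)]) (.cons (.leaf 1 [(10,1),(11,1)]) (.cons (.leaf 1 [(5,1),(11,1),(10,1)]) (.cons (.leaf 1 [(10,1),(11,1),(4,1)]) (.cons (.leaf 1 [(10,1),(11,1)]) .nil)))))))))))) (.cons (.keep [0,4,10,11,12] (.node (.cons (.leaf 1 [(4,1),(3,1),(10,1)]) (.cons (.leaf 1 [(5,1),(3,1),(10,1)]) (.cons (.leaf 1 [(3,1)]) (.cons (.leaf 1 [(3,1)]) (.cons (.leaf 1 [(4,1),(11,1),(10,1)]) (.cons (.leaf 1 [(5,1),(11,1),(10,1)])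 (.cons (.leaf 1 [(10,1),(11,1)]) (.cons (.leaf 1 [(5,1),(11,1),(10,1)]) (.cons (.leaf 1 [(4,1),(11,1),(10,1)]) (.cons (.leaf 1 [(10,1),(11,1)]) .nil)))))))))))) .nil)))))))))))) (.cons (.leaf 1 []) (.cons (.keep [1,6,9,11,12] (.node (.cons (.keep [4,7,9,10,12] (.node (.cons (.leaf 1 [(4,1),(3,1),(11,1)]) (.cons (.leaf 1 [(5,1),(3,1),(11,1)]) (.cons (.leaf 1 [(3,1)]) (.cons (.leaf 1 [(3,1)]) (.cons (.leaf 1 [(4,1),(8,1),(11,1)]) (.cons (.leaf 1 [(5,1),(8,1),(11,1)]) (.cons (.leaf 1 [(11,1),(8,1)]) (.cons (.leaf 1 [(5,1),(8,1),(11,1)]) (.cons (.leaf 1 [(4,1),(8,1),(11,1)]) (.cons (.leaf 1 [(11,1),(8,1)]) .nil)))))))))))) (.cons (.keep [5,6,9,10,12] (.node (.cons (.leaf 1 [(4,1),(3,1),(11,1)]) (.cons (.leaf 1 [(5,1),(3,1),(11,1)]) (.cons (.leaf 1 [(3,1)]) (.cons (.leaf 1 [(3,1)])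 (.cons (.leaf 1 [(8,1),(11,1)]) (.cons (.leaf 1 [(5,1),(8,1),(9,1),(11,1)]) (.cons (.leaf 1 [(11,1),(8,1),(3,1)]) (.cons (.leaf 1 [(5,1),(8,1),(3,1),(11,1)]) (.cons (.leaf 1 [(8,1),(11,1),(3,1)]) (.cons (.leaf 1 [(11,1),(8,1),(9,1)]) .nil)))))))))))) (.cons (.leaf 1 [(4,1),(10,1)]) (.cons (.leaf 1 [(4,1),(10,1)]) (.cons (.leaf 1 [(4,1)]) (.cons (.leaf 1 [(4,1)]) (.cons (.keep [1,3,5,10,11] (.node (.cons (.leaf 1 [(4,1),(3,1),(11,1)]) (.cons (.leaf 1 [(5,1),(3,1),(11,1)]) (.cons (.leaf 1 [(3,1)]) (.cons (.leaf 1 [(3,1)]) (.cons (.leaf 1 [(4,1),(12,1),(11,1)]) (.cons (.leaf 1 [(5,1),(12,1),(11,1)]) (.cons (.leaf 1 [(11,1),(12,1)]) (.cons (.leaf 1 [(5,1),(12,1),(11,1)]) (.cons (.leaf 1 [(4,1),(12,1),(11,1)]) (.cons (.leaf 1 [(11,1),(12,1)]) .nil)))))))))))) (.cons (.keep [3,5,10,11,12]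 (.node (.cons (.leaf 1 [(4,1),(3,1),(10,1)]) (.cons (.leaf 1 [(5,1),(3,1),(10,1)]) (.cons (.leaf 1 [(3,1)]) (.cons (.leaf 1 [(3,1)]) (.cons (.leaf 1 [(4,1),(11,1),(10,1)]) (.cons (.leaf 1 [(5,1),(11,1),(10,1)]) (.cons (.leaf 1 [(10,1),(11,1)]) (.cons (.leaf 1 [(5,1),(11,1),(10,1)]) (.cons (.leaf 1 [(4,1),(11,1),(10,1)]) (.cons (.leaf 1 [(10,1),(11,1)]) .nil)))))))))))) (.cons (.keep [4,9,10,11,12] (.node (.cons (.leaf 1 [(4,1),(3,1),(10,1)]) (.cons (.leaf 1 [(5,1),(3,1),(10,1)]) (.cons (.leaf 1 [(3,1)]) (.cons (.leaf 1 [(3,1)]) (.cons (.leaf 1 [(4,1),(11,1),(10,1)]) (.cons (.leaf 1 [(5,1),(11,1),(10,1)]) (.cons (.leaf 1 [(10,1),(11,1)]) (.cons (.leaf 1 [(5,1),(11,1),(10,1)]) (.cons (.leaf 1 [(4,1),(11,1),(10,1)]) (.cons (.leaf 1 [(10,1),(11,1)]) .nil)))))))))))) (.cons (.keep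 [0,4,10,11,12] (.node (.cons (.leaf 1 [(4,1),(3,1),(10,1)]) (.cons (.leaf 1 [(5,1),(3,1),(10,1)]) (.cons (.leaf 1 [(3,1)]) (.cons (.leaf 1 [(3,1)]) (.cons (.leaf 1 [(4,1),(11,1),(10,1)]) (.cons (.leaf 1 [(5,1),(11,1),(10,1)]) (.cons (.leaf 1 [(10,1),(11,1)]) (.cons (.leaf 1 [(5,1),(11,1),(10,1)]) (.cons (.leaf 1 [(4,1),(11,1),(10,1)]) (.cons (.leaf 1 [(10,1),(11,1)]) .nil)))))))))))) .nil)))))))))))) (.cons (.leaf 1 [(2,1)]) (.cons (.leaf 1 [(9,1),(2,1),(5,1)]) (.cons (.leaf 1 [(2,1)]) (.cons (.leaf 1 [(2,1),(5,1)]) (.cons (.leaf 1 [(2,1)]) (.cons (.keep [0,2,8,9,11] (.node (.cons (.keep [4,7,8,9,11] (.node (.cons (.leaf 2 [(4,2),(11,1),(12,2)]) (.cons (.leaf 2 [(5,2),(11,1),(12,2)]) (.cons (.leaf 2 [(1,2),(11,1)]) (.cons (.leaf 2 [(1,2),(11,1)]) (.cons (.leaf 1 [(4,1),(1,1),(12,1)])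 (.cons (.leaf 1 [(5,1),(1,1),(12,1)]) (.cons (.leaf 1 [(12,1),(9,1),(1,1)]) (.cons (.leaf 1 [(5,1),(9,1),(1,1),(12,1)]) (.cons (.leaf 1 [(9,1),(12,1),(1,1)]) (.cons (.leaf 2 [(12,2),(11,1)]) .nil)))))))))))) (.cons (.keep [5,6,8,9,11] (.node (.cons (.leaf 1 [(12,1)]) (.cons (.leaf 1 [(5,1),(11,1),(3,1),(12,1)]) (.cons (.leaf 1 [(3,1),(11,1)]) (.cons (.leaf 1 [(3,1),(11,1)]) (.cons (.leaf 1 [(1,1),(12,1)]) (.cons (.leaf 1 [(5,1),(1,1),(9,1),(12,1)]) (.cons (.leaf 1 [(12,1),(1,1)]) (.cons (.leaf 1 [(5,1),(1,1),(12,1)]) (.cons (.leaf 1 [(12,1),(1,1)]) (.cons (.leaf 2 [(12,2),(11,1),(9,1)]) .nil)))))))))))) (.cons (.leaf 2 [(11,2),(1,1),(9,1)]) (.cons (.leaf 2 [(11,2),(1,1),(9,1),(6,1)]) (.cons (.leaf 2 [(1,1),(9,1)]) (.cons (.leaf 1 [(9,1),(4,1)]) (.cons (.keep [1,5,8,11] (.node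 (.cons (.leaf 1 [(4,1),(11,1)]) (.cons (.leaf 1 [(5,1),(11,1)]) (.cons (.leaf 1 [(1,1)]) (.cons (.leaf 1 [(1,1)]) (.cons (.leaf 1 [(4,1),(11,1)]) (.cons (.leaf 1 [(5,1),(11,1)]) (.cons (.leaf 1 [(11,1)]) (.cons (.leaf 1 [(5,1),(11,1)]) (.cons (.leaf 1 [(4,1),(11,1)]) (.cons (.leaf 1 [(11,1)]) .nil)))))))))))) (.cons (.keep [5,6,8,9,11] (.node (.cons (.leaf 1 [(3,1),(12,1)]) (.cons (.leaf 1 [(5,1),(9,1),(12,1)]) (.cons (.leaf 1 [(1,1),(9,1)]) (.cons (.leaf 1 [(1,1),(9,1)]) (.cons (.leaf 1 [(12,1)]) (.cons (.leaf 1 [(5,1),(9,1),(12,1)]) (.cons (.leaf 1 [(12,1),(3,1)]) (.cons (.leaf 1 [(5,1),(12,1),(3,1)]) (.cons (.leaf 1 [(12,1),(3,1)]) (.cons (.leaf 1 [(12,1),(9,1)]) .nil)))))))))))) (.cons (.keep [4,7,8,9,11] (.node (.cons (.leaf 1 [(3,1),(12,1),(9,2)]) (.cons (.leaf 1 [(5,1),(9,1),(12,1)])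 (.cons (.leaf 1 [(1,1),(9,1)]) (.cons (.leaf 1 [(9,1),(1,1)]) (.cons (.leaf 1 [(12,1),(4,2)]) (.cons (.leaf 1 [(5,1),(4,1),(12,1)]) (.cons (.leaf 1 [(12,1),(9,1)]) (.cons (.leaf 1 [(5,1),(9,1),(12,1)]) (.cons (.leaf 1 [(12,1),(9,1),(4,1)]) (.cons (.leaf 1 [(12,1),(9,1)]) .nil)))))))))))) (.cons (.keep [0,4,9,11] (.node (.cons (.leaf 1 [(4,1),(11,1)]) (.cons (.leaf 1 [(5,1),(11,1)]) (.cons (.leaf 1 [(1,1)]) (.cons (.leaf 1 [(1,1)]) (.cons (.leaf 1 [(4,1),(11,1)]) (.cons (.leaf 1 [(5,1),(11,1)]) (.cons (.leaf 1 [(11,1)]) (.cons (.leaf 1 [(5,1),(11,1)]) (.cons (.leaf 1 [(4,1),(11,1)]) (.cons (.leaf 1 [(11,1)]) .nil)))))))))))) .nil)))))))))))) .nil)))))))))))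

theorem c_31_24_16 : Concl 31 24 z_31_24_16 h_31_24_16 .nd := piece _ hP_nil t_31_24_16 _ _ (by
  decide +kernel)

def z_31_24_17 : F := ⟨0, 0, 0, -1, 2⟩

def h_31_24_17 : List F := [⟨1, -1, 0, 0, 0⟩, ⟨0, 0, -1, 1, 0⟩, ⟨1, -1, 0, -1, 1⟩, ⟨0, 1, 0, 0,
  1⟩, ⟨-1, 0, 0, 0, 1⟩]

def t_31_24_17 : T := (.node (.cons (.leaf 1 [(12,1)]) (.cons (.keep [8,9,10,11,12] (.node (.cons (.keep [3,4,7,9,12] (.node (.cons (.leaf 1 [(4,1),(11,1)]) (.cons (.leaf 1 [(5,1),(11,1)]) (.cons (.leaf 1 [(1,1)]) (.cons (.leaf 1 [(1,1)]) (.cons (.leaf 1 [(4,1),(11,1)]) (.cons (.leaf 1 [(5,1),(11,1)]) (.cons (.leaf 1 [(11,1)]) (.cons (.leaf 1 [(5,1),(11,1)]) (.cons (.leaf 1 [(3,1),(10,1),(11,1)]) (.cons (.leaf 1 [(11,1)]) .nil)))))))))))) (.cons (.keep [5,6,9,10,12] (.node (.cons (.leaf 1 [(4,1),(10,1)])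 (.cons (.leaf 1 [(5,1),(10,1)]) (.cons (.leaf 1 [(1,1)]) (.cons (.leaf 1 [(1,1)]) (.cons (.leaf 1 [(4,1),(10,1)]) (.cons (.leaf 1 [(5,1),(10,1)]) (.cons (.leaf 1 [(10,1)]) (.cons (.leaf 1 [(5,1),(10,1)]) (.cons (.leaf 1 [(4,1),(10,1)]) (.cons (.leaf 1 [(10,1)]) .nil)))))))))))) (.cons (.leaf 1 [(1,1),(9,1)]) (.cons (.leaf 1 [(1,1),(9,1)]) (.cons (.leaf 1 [(1,1)]) (.cons (.leaf 1 [(1,1)]) (.cons (.keep [1,5,8,9,10] (.node (.cons (.leaf 1 [(4,1),(11,1)]) (.cons (.leaf 1 [(5,1),(11,1)]) (.cons (.leaf 1 [(1,1)]) (.cons (.leaf 1 [(1,1)]) (.cons (.leaf 1 [(4,1),(11,1)]) (.cons (.leaf 1 [(5,1),(11,1)]) (.cons (.leaf 1 [(11,1)]) (.cons (.leaf 1 [(5,1),(11,1)]) (.cons (.leaf 1 [(4,1),(11,1)]) (.cons (.leaf 1 [(11,1)]) .nil)))))))))))) (.cons (.keep [1,5,8,9,10] (.node (.cons (.leaf 1 [(4,1),(11,1)])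 (.cons (.leaf 1 [(5,1),(11,1)]) (.cons (.leaf 1 [(1,1)]) (.cons (.leaf 1 [(1,1)]) (.cons (.leaf 1 [(4,1),(11,1)]) (.cons (.leaf 1 [(5,1),(11,1)]) (.cons (.leaf 1 [(11,1)]) (.cons (.leaf 1 [(5,1),(11,1)]) (.cons (.leaf 1 [(4,1),(11,1)]) (.cons (.leaf 1 [(11,1)]) .nil)))))))))))) (.cons (.keep [3,4,8,9,12] (.node (.cons (.leaf 1 [(4,1),(11,1)]) (.cons (.leaf 1 [(5,1),(11,1)]) (.cons (.leaf 1 [(1,1)]) (.cons (.leaf 1 [(1,1)]) (.cons (.leaf 1 [(4,1),(11,1)]) (.cons (.leaf 1 [(5,1),(11,1)]) (.cons (.leaf 1 [(11,1)]) (.cons (.leaf 1 [(5,1),(11,1)]) (.cons (.leaf 1 [(4,1),(11,1)]) (.cons (.leaf 1 [(11,1)]) .nil)))))))))))) (.cons (.keep [0,4,8,9,12] (.node (.cons (.leaf 1 [(4,1),(11,1)]) (.cons (.leaf 1 [(5,1),(11,1)]) (.cons (.leaf 1 [(1,1)]) (.cons (.leaf 1 [(1,1)]) (.cons (.leaf 1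 [(4,1),(11,1)]) (.cons (.leaf 1 [(5,1),(11,1)]) (.cons (.leaf 1 [(11,1)]) (.cons (.leaf 1 [(5,1),(11,1)]) (.cons (.leaf 1 [(4,1),(11,1)]) (.cons (.leaf 1 [(11,1)]) .nil)))))))))))) .nil)))))))))))) (.cons (.leaf 1 [(1,1),(12,1)]) (.cons (.keep [1,6,8,9,12] (.node (.cons (.keep [4,7,9,11,12] (.node (.cons (.leaf 1 [(4,1),(11,1)]) (.cons (.leaf 1 [(5,1),(11,1)]) (.cons (.leaf 1 [(1,1)]) (.cons (.leaf 1 [(1,1)]) (.cons (.leaf 1 [(4,1),(11,1)]) (.cons (.leaf 1 [(5,1),(11,1)]) (.cons (.leaf 1 [(11,1)]) (.cons (.leaf 1 [(5,1),(11,1)]) (.cons (.leaf 1 [(3,1),(9,1),(11,1)]) (.cons (.leaf 1 [(11,1)]) .nil)))))))))))) (.cons (.keep [5,6,9,11,12] (.node (.cons (.leaf 1 [(4,1),(11,1)]) (.cons (.leaf 1 [(5,1),(11,1)]) (.cons (.leaf 1 [(1,1)]) (.cons (.leaf 1 [(1,1)]) (.cons (.leaf 1 [(4,1),(11,1)])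 (.cons (.leaf 1 [(5,1),(11,1)]) (.cons (.leaf 1 [(11,1)]) (.cons (.leaf 1 [(5,1),(11,1)]) (.cons (.leaf 1 [(4,1),(11,1)]) (.cons (.leaf 1 [(11,1)]) .nil)))))))))))) (.cons (.leaf 1 [(1,1),(11,1)]) (.cons (.leaf 1 [(1,1),(11,1)]) (.cons (.leaf 1 [(1,1)]) (.cons (.leaf 1 [(1,1)]) (.cons (.keep [1,3,5,10,11] (.node (.cons (.leaf 1 [(4,1),(12,1)]) (.cons (.leaf 1 [(5,1),(12,1)]) (.cons (.leaf 1 [(1,1)]) (.cons (.leaf 1 [(1,1)]) (.cons (.leaf 1 [(4,1),(12,1)]) (.cons (.leaf 1 [(5,1),(12,1)]) (.cons (.leaf 1 [(12,1)]) (.cons (.leaf 1 [(5,1),(12,1)]) (.cons (.leaf 1 [(4,1),(12,1)]) (.cons (.leaf 1 [(12,1)]) .nil)))))))))))) (.cons (.keep [3,5,10,11,12] (.node (.cons (.leaf 1 [(4,1),(11,1)]) (.cons (.leaf 1 [(5,1),(11,1)]) (.cons (.leaf 1 [(1,1)]) (.cons (.leaf 1 [(1,1)]) (.cons (.leaf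 1 [(4,1),(11,1)]) (.cons (.leaf 1 [(5,1),(11,1)]) (.cons (.leaf 1 [(11,1)]) (.cons (.leaf 1 [(5,1),(11,1)]) (.cons (.leaf 1 [(3,1),(9,1),(11,1)]) (.cons (.leaf 1 [(11,1)]) .nil)))))))))))) (.cons (.keep [4,9,10,11,12] (.node (.cons (.leaf 1 [(4,1),(11,1)]) (.cons (.leaf 1 [(5,1),(11,1)]) (.cons (.leaf 1 [(1,1)]) (.cons (.leaf 1 [(1,1)]) (.cons (.leaf 1 [(4,1),(11,1)]) (.cons (.leaf 1 [(5,1),(11,1)]) (.cons (.leaf 1 [(11,1)]) (.cons (.leaf 1 [(5,1),(11,1)]) (.cons (.leaf 1 [(4,1),(11,1)]) (.cons (.leaf 1 [(11,1)]) .nil)))))))))))) (.cons (.keep [0,4,10,11,12] (.node (.cons (.leaf 1 [(4,1),(11,1)]) (.cons (.leaf 1 [(5,1),(11,1)]) (.cons (.leaf 1 [(1,1)]) (.cons (.leaf 1 [(1,1)]) (.cons (.leaf 1 [(4,1),(11,1)]) (.cons (.leaf 1 [(5,1),(11,1)]) (.cons (.leaf 1 [(11,1)]) (.cons (.leaf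 1 [(5,1),(11,1)]) (.cons (.leaf 1 [(4,1),(11,1)]) (.cons (.leaf 1 [(11,1)]) .nil)))))))))))) .nil)))))))))))) (.cons (.leaf 1 [(1,1),(9,1)]) (.cons (.leaf 1 [(1,1),(9,1)]) (.cons (.leaf 1 [(1,1)]) (.cons (.leaf 1 [(1,1)]) (.cons (.leaf 1 [(7,1),(1,1)]) (.cons (.keep [0,2,8,9,11] (.node (.cons (.keep [4,7,8,9,11] (.node (.cons (.leaf 1 [(4,1),(12,1)]) (.cons (.leaf 1 [(5,1),(12,1)]) (.cons (.leaf 1 [(1,1)]) (.cons (.leaf 1 [(1,1)]) (.cons (.leaf 1 [(4,1),(12,1)]) (.cons (.leaf 1 [(5,1),(12,1)]) (.cons (.leaf 1 [(12,1)]) (.cons (.leaf 1 [(5,1),(12,1)]) (.cons (.leaf 1 [(3,1),(9,1),(12,1)]) (.cons (.leaf 1 [(12,1)]) .nil)))))))))))) (.cons (.keep [5,6,8,9,11] (.node (.cons (.leaf 1 [(4,1),(12,1)]) (.cons (.leaf 1 [(5,1),(12,1)]) (.cons (.leaf 1 [(1,1)]) (.cons (.leaf 1 [(1,1)]) (.cons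 (.leaf 1 [(4,1),(12,1)]) (.cons (.leaf 1 [(5,1),(12,1)]) (.cons (.leaf 1 [(12,1)]) (.cons (.leaf 1 [(5,1),(12,1)]) (.cons (.leaf 1 [(1,1),(8,1),(12,1)]) (.cons (.leaf 1 [(12,1)]) .nil)))))))))))) (.cons (.leaf 1 [(1,1),(11,1)]) (.cons (.leaf 1 [(1,1),(11,1)]) (.cons (.leaf 1 [(1,1)]) (.cons (.leaf 1 [(1,1)]) (.cons (.keep [1,5,8,11] (.node (.cons (.leaf 1 [(4,1),(11,1)]) (.cons (.leaf 1 [(5,1),(11,1)]) (.cons (.leaf 1 [(1,1)]) (.cons (.leaf 1 [(1,1)]) (.cons (.leaf 1 [(4,1),(11,1)]) (.cons (.leaf 1 [(5,1),(11,1)]) (.cons (.leaf 1 [(11,1)]) (.cons (.leaf 1 [(5,1),(11,1)]) (.cons (.leaf 1 [(4,1),(11,1)]) (.cons (.leaf 1 [(11,1)]) .nil)))))))))))) (.cons (.keep [5,6,8,9,11] (.node (.cons (.leaf 1 [(3,1),(8,1),(12,1)]) (.cons (.leaf 1 [(5,1),(12,1)]) (.cons (.leaf 1 [(1,1)]) (.cons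 (.leaf 1 [(1,1)]) (.cons (.leaf 1 [(4,1),(12,1)]) (.cons (.leaf 1 [(5,1),(12,1)]) (.cons (.leaf 1 [(12,1)]) (.cons (.leaf 1 [(5,1),(12,1)]) (.cons (.leaf 1 [(3,1),(8,1),(12,1)]) (.cons (.leaf 1 [(12,1)]) .nil)))))))))))) (.cons (.keep [4,7,8,9,11] (.node (.cons (.leaf 1 [(3,2),(11,1),(12,1)]) (.cons (.leaf 1 [(5,1),(12,1)]) (.cons (.leaf 1 [(1,1)]) (.cons (.leaf 1 [(1,1)]) (.cons (.leaf 1 [(4,1),(12,1)]) (.cons (.leaf 1 [(5,1),(12,1)]) (.cons (.leaf 1 [(12,1)]) (.cons (.leaf 1 [(5,1),(12,1)]) (.cons (.leaf 1 [(3,1),(9,1),(12,1)]) (.cons (.leaf 1 [(12,1)]) .nil)))))))))))) (.cons (.keep [0,4,9,11] (.node (.cons (.leaf 1 [(4,1),(11,1)]) (.cons (.leaf 1 [(5,1),(11,1)]) (.cons (.leaf 1 [(1,1)]) (.cons (.leaf 1 [(1,1)]) (.cons (.leaf 1 [(4,1),(11,1)]) (.cons (.leaf 1 [(5,1),(11,1)])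 (.cons (.leaf 1 [(11,1)]) (.cons (.leaf 1 [(5,1),(11,1)]) (.cons (.leaf 1 [(4,1),(11,1)]) (.cons (.leaf 1 [(11,1)]) .nil)))))))))))) .nil)))))))))))) .nil)))))))))))

theorem c_31_24_17 : Concl 31 24 z_31_24_17 h_31_24_17 .nd := piece _ hP_nil t_31_24_17 _ _ (by
  decide +kernel)

def z_31_24_18 : F := ⟨-1, 0, -1, 0, 2⟩

def h_31_24_18 : List F := [⟨-1, 0, 0, 0, 0⟩, ⟨0, 0, 1, -1, 0⟩, ⟨0, 1, -1, 0, 0⟩, ⟨0, 1, 0, 0, 1⟩,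
  ⟨1, -1, 0, 0, 0⟩]

def t_31_24_18 : T := (.node (.cons (.leaf 1 [(9,1)]) (.cons (.keep [8,9,10,11,12] (.node (.cons (.keep [4,7,8,9,10] (.node (.cons (.leaf 1 [(3,1),(4,1)]) (.cons (.leaf 1 [(3,1),(5,1)]) (.cons (.leaf 1 [(4,1),(8,1)]) (.cons (.leaf 1 [(5,1),(8,1)]) (.cons (.leaf 1 [(4,1),(8,1)]) (.cons (.leaf 1 [(5,1),(8,1)]) (.cons (.leaf 1 [(8,1)]) (.cons (.leaf 1 [(8,1),(5,1)]) (.cons (.leaf 1 [(8,1),(4,1)]) (.cons (.leaf 1 [(8,1)]) .nil)))))))))))) (.cons (.keep [5,6,8,9,10] (.node (.cons (.leaf 1 [(3,1),(4,1)]) (.cons (.leaf 1 [(3,1),(5,1)]) (.cons (.leaf 1 [(3,1),(8,1)]) (.cons (.leaf 1 [(8,1),(9,1),(5,1)]) (.cons (.leaf 1 [(8,1)]) (.cons (.leaf 1 [(5,1),(9,1),(8,1)]) (.cons (.leaf 1 [(8,1),(3,1)]) (.cons (.leaf 1 [(8,1),(3,1),(5,1)]) (.cons (.leaf 1 [(8,1),(3,1)]) (.cons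 (.leaf 1 [(8,1),(9,1)]) .nil)))))))))))) (.cons (.leaf 1 [(4,1)]) (.cons (.leaf 1 [(4,1)]) (.cons (.leaf 1 [(9,1),(4,1)]) (.cons (.leaf 1 [(9,1),(4,1)]) (.cons (.keep [1,5,9,10,12] (.node (.cons (.leaf 1 [(3,1),(4,1)]) (.cons (.leaf 1 [(3,1),(5,1)]) (.cons (.leaf 1 [(3,1),(10,1)]) (.cons (.leaf 1 [(3,1),(10,1)]) (.cons (.leaf 1 [(4,1),(12,1)]) (.cons (.leaf 1 [(5,1),(12,1)]) (.cons (.leaf 1 [(12,1)]) (.cons (.leaf 1 [(12,1),(5,1)]) (.cons (.leaf 1 [(12,1),(4,1)]) (.cons (.leaf 1 [(12,1)]) .nil)))))))))))) (.cons (.keep [1,2,5,9,12] (.node (.cons (.leaf 1 [(3,1),(4,1)]) (.cons (.leaf 1 [(3,1),(5,1)]) (.cons (.leaf 1 [(3,1),(11,1)]) (.cons (.leaf 1 [(3,1),(11,1)]) (.cons (.leaf 1 [(4,2),(12,1)]) (.cons (.leaf 1 [(5,1),(12,1),(4,1)]) (.cons (.leaf 1 [(10,1),(12,1)]) (.cons (.leaf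 1 [(12,1),(5,1),(0,1)]) (.cons (.leaf 1 [(12,1),(0,1),(4,3)]) (.cons (.leaf 1 [(0,1),(12,1),(4,1)]) .nil)))))))))))) (.cons (.keep [4,8,9,10,12] (.node (.cons (.leaf 1 [(3,1),(4,1)]) (.cons (.leaf 1 [(3,1),(5,1)]) (.cons (.leaf 1 [(3,1),(10,1)]) (.cons (.leaf 1 [(3,1),(10,1)]) (.cons (.leaf 1 [(12,1)]) (.cons (.leaf 1 [(5,1),(8,1),(12,1)]) (.cons (.leaf 1 [(12,1),(3,1)]) (.cons (.leaf 1 [(12,1),(3,1),(5,1)]) (.cons (.leaf 1 [(12,1),(3,1)]) (.cons (.leaf 1 [(12,1),(8,1)]) .nil)))))))))))) (.cons (.keep [0,4,8,9,12] (.node (.cons (.leaf 1 [(3,1),(4,1)]) (.cons (.leaf 1 [(3,1),(5,1)]) (.cons (.leaf 1 [(3,1),(11,1)]) (.cons (.leaf 1 [(3,1),(11,1)]) (.cons (.leaf 1 [(4,1),(12,1)]) (.cons (.leaf 1 [(5,1),(12,1)]) (.cons (.leaf 1 [(12,1)]) (.cons (.leaf 1 [(12,1),(5,1)]) (.cons (.leaf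 1 [(12,1),(4,1)]) (.cons (.leaf 1 [(12,1)]) .nil)))))))))))) .nil)))))))))))) (.cons (.leaf 1 [(1,1),(9,1)]) (.cons (.keep [1,3,8,9,12] (.node (.cons (.keep [4,7,9,10,11] (.node (.cons (.leaf 1 [(3,2),(4,1)]) (.cons (.leaf 1 [(3,2),(5,1)]) (.cons (.leaf 1 [(4,1),(8,2)]) (.cons (.leaf 1 [(5,1),(8,2)]) (.cons (.leaf 1 [(8,2),(4,1)]) (.cons (.leaf 1 [(8,2),(5,1)]) (.cons (.leaf 1 [(8,2)]) (.cons (.leaf 1 [(8,2),(5,1)]) (.cons (.leaf 1 [(8,2),(4,1)]) (.cons (.leaf 1 [(8,2)]) .nil)))))))))))) (.cons (.keep [5,6,9,10,11] (.node (.cons (.leaf 1 [(3,1),(4,2)]) (.cons (.leaf 1 [(3,1),(4,1),(5,1)]) (.cons (.leaf 1 [(3,1),(8,2)]) (.cons (.leaf 1 [(5,1),(9,1),(8,2)]) (.cons (.leaf 1 [(8,2)]) (.cons (.leaf 1 [(5,1),(8,2),(9,1)]) (.cons (.leaf 1 [(3,1),(8,2)]) (.cons (.leaf 1 [(8,2),(3,1),(5,1)])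 (.cons (.leaf 1 [(8,2),(3,1)]) (.cons (.leaf 1 [(9,1),(8,2)]) .nil)))))))))))) (.cons (.leaf 1 [(4,2)]) (.cons (.leaf 1 [(5,1),(4,1)]) (.cons (.leaf 1 [(11,1),(4,2)]) (.cons (.leaf 1 [(5,1),(4,1),(11,1)]) (.cons (.keep [1,5,9,11,12] (.node (.cons (.leaf 1 [(3,1),(4,1)]) (.cons (.leaf 1 [(3,1),(5,1)]) (.cons (.leaf 1 [(3,1),(11,1)]) (.cons (.leaf 1 [(3,1),(11,1)]) (.cons (.leaf 1 [(4,1),(12,1)]) (.cons (.leaf 1 [(5,1),(12,1)]) (.cons (.leaf 1 [(12,1)]) (.cons (.leaf 1 [(12,1),(5,1)]) (.cons (.leaf 1 [(12,1),(4,1)]) (.cons (.leaf 1 [(12,1)]) .nil)))))))))))) (.cons (.keep [5,9,10,11,12] (.node (.cons (.leaf 1 [(4,2)]) (.cons (.leaf 1 [(4,1),(5,1)]) (.cons (.leaf 1 [(4,1),(11,1)]) (.cons (.leaf 1 [(4,1),(11,1)]) (.cons (.leaf 1 [(4,2),(12,1)]) (.cons (.leaf 1 [(4,1),(12,1),(5,1)])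 (.cons (.leaf 1 [(8,1),(12,1)]) (.cons (.leaf 1 [(8,1),(5,1),(12,1)]) (.cons (.leaf 1 [(8,1),(12,1),(4,1)]) (.cons (.leaf 1 [(8,1),(12,1)]) .nil)))))))))))) (.cons (.keep [4,9,10,11,12] (.node (.cons (.leaf 1 [(3,2)]) (.cons (.leaf 1 [(3,1),(8,1),(5,1)]) (.cons (.leaf 1 [(3,1),(11,1),(8,1)]) (.cons (.leaf 1 [(3,1),(8,1),(11,1)]) (.cons (.leaf 1 [(12,1)]) (.cons (.leaf 1 [(8,1),(5,1),(12,1)]) (.cons (.leaf 1 [(12,1),(3,1)]) (.cons (.leaf 1 [(12,1),(3,1),(5,1)]) (.cons (.leaf 1 [(12,1),(3,1)]) (.cons (.leaf 1 [(12,1),(8,1)]) .nil)))))))))))) (.cons (.keep [0,4,10,11,12] (.node (.cons (.leaf 1 [(3,1),(4,1)]) (.cons (.leaf 1 [(3,1),(5,1)]) (.cons (.leaf 1 [(3,1),(11,1)]) (.cons (.leaf 1 [(3,1),(11,1)]) (.cons (.leaf 1 [(4,1),(12,1)]) (.cons (.leaf 1 [(5,1),(12,1)]) (.cons (.leaf 1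 [(12,1)]) (.cons (.leaf 1 [(12,1),(5,1)]) (.cons (.leaf 1 [(12,1),(4,1)]) (.cons (.leaf 1 [(12,1)]) .nil)))))))))))) .nil)))))))))))) (.cons (.leaf 1 [(1,1),(4,1)]) (.cons (.leaf 1 [(1,1),(5,1)]) (.cons (.leaf 1 [(9,1),(1,1)]) (.cons (.leaf 1 [(1,1),(5,1),(9,1)]) (.cons (.leaf 1 [(9,1),(1,1)]) (.cons (.keep [0,2,9,11,12] (.node (.cons (.keep [4,7,8,9,10] (.node (.cons (.leaf 1 [(4,1)]) (.cons (.leaf 1 [(5,1)]) (.cons (.leaf 1 [(4,1)]) (.cons (.leaf 1 [(5,1)]) (.cons (.leaf 1 [(4,1)]) (.cons (.leaf 1 [(5,1)]) (.cons (.leaf 1 []) (.cons (.leaf 1 [(5,1)]) (.cons (.leaf 1 [(4,1)]) (.cons (.leaf 1 []) .nil)))))))))))) (.cons (.keep [5,6,8,9,10] (.node (.cons (.leaf 1 [(4,1)]) (.cons (.leaf 1 [(5,1)]) (.cons (.leaf 1 [(4,1)]) (.cons (.leaf 1 [(5,1)]) (.cons (.leaf 1 [(4,1)]) (.cons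 (.leaf 1 [(5,1)]) (.cons (.leaf 1 []) (.cons (.leaf 1 [(5,1)]) (.cons (.leaf 1 [(4,1)]) (.cons (.leaf 1 []) .nil)))))))))))) (.cons (.leaf 1 [(1,1)]) (.cons (.leaf 1 [(1,1)]) (.cons (.leaf 1 [(10,1),(1,1)]) (.cons (.leaf 1 [(10,1),(1,1)]) (.cons (.keep [1,5,8,10] (.node (.cons (.leaf 1 [(4,1)]) (.cons (.leaf 1 [(5,1)]) (.cons (.leaf 1 [(4,1)]) (.cons (.leaf 1 [(5,1)]) (.cons (.leaf 1 [(4,1)]) (.cons (.leaf 1 [(5,1)]) (.cons (.leaf 1 []) (.cons (.leaf 1 [(5,1)]) (.cons (.leaf 1 [(4,1)]) (.cons (.leaf 1 []) .nil)))))))))))) (.cons (.keep [5,6,8,9,10] (.node (.cons (.leaf 1 [(4,1)]) (.cons (.leaf 1 [(5,1)]) (.cons (.leaf 1 [(4,1)]) (.cons (.leaf 1 [(5,1)]) (.cons (.leaf 1 [(4,1)]) (.cons (.leaf 1 [(5,1)]) (.cons (.leaf 1 []) (.cons (.leaf 1 [(5,1)]) (.cons (.leaf 1 [(4,1)]) (.cons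 (.leaf 1 []) .nil)))))))))))) (.cons (.keep [4,7,8,9,10] (.node (.cons (.leaf 1 [(4,1)]) (.cons (.leaf 1 [(5,1)]) (.cons (.leaf 1 [(4,1)]) (.cons (.leaf 1 [(5,1)]) (.cons (.leaf 1 [(4,1)]) (.cons (.leaf 1 [(5,1)]) (.cons (.leaf 1 []) (.cons (.leaf 1 [(5,1)]) (.cons (.leaf 1 [(4,1)]) (.cons (.leaf 1 []) .nil)))))))))))) (.cons (.keep [0,4,9,10] (.node (.cons (.leaf 1 [(4,1)]) (.cons (.leaf 1 [(5,1)]) (.cons (.leaf 1 [(4,1)]) (.cons (.leaf 1 [(5,1)]) (.cons (.leaf 1 [(4,1)]) (.cons (.leaf 1 [(5,1)]) (.cons (.leaf 1 []) (.cons (.leaf 1 [(5,1)]) (.cons (.leaf 1 [(4,1)]) (.cons (.leaf 1 []) .nil)))))))))))) .nil)))))))))))) .nil)))))))))))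

theorem c_31_24_18 : Concl 31 24 z_31_24_18 h_31_24_18 .nd := piece _ hP_nil t_31_24_18 _ _ (by
  decide +kernel)

def z_31_24_20 : F := ⟨1, -1, 0, -1, 2⟩

def h_31_24_20 : List F := [⟨1, -1, 0, 0, 0⟩, ⟨0, 0, -1, 1, 0⟩, ⟨1, -1, 0, -1, 1⟩, ⟨0, 1, 0, 0,
  1⟩, ⟨-1, 1, 0, 0, 0⟩, ⟨0, -1, 0, 0, 1⟩]

def t_31_24_20 : T := (.node (.cons (.leaf 1 [(12,2),(2,1)]) (.cons (.keep [2,8,9,10,11,12] (.node (.cons (.keep [3,4,7,8,10] (.node (.cons (.leaf 1 [(4,1),(12,1)]) (.cons (.leaf 1 [(5,1),(12,1)]) (.cons (.leaf 1 [(1,1)]) (.cons (.leaf 1 [(1,1)]) (.cons (.leaf 1 [(4,1),(12,1)]) (.cons (.leaf 1 [(5,1),(12,1)]) (.cons (.leaf 1 [(12,1)]) (.cons (.leaf 1 [(5,1),(12,1)]) (.cons (.leaf 1 [(3,1),(10,1),(12,1)]) (.cons (.leaf 1 [(12,1)]) .nil)))))))))))) (.cons (.keep [5,6,8,10,11,13] (.node (.cons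 (.leaf 1 [(11,1),(13,1),(4,1)]) (.cons (.leaf 1 [(5,1),(13,1),(11,1)]) (.cons (.leaf 1 [(1,1),(13,1)]) (.cons (.leaf 1 [(13,1),(1,1)]) (.cons (.leaf 1 [(11,1),(4,2)]) (.cons (.leaf 1 [(5,1),(4,1),(11,1)]) (.cons (.leaf 1 [(11,1),(13,1)]) (.cons (.leaf 1 [(5,1),(13,1),(11,1)]) (.cons (.leaf 1 [(11,1),(13,1),(4,1)]) (.cons (.leaf 1 [(11,1),(13,1)]) .nil)))))))))))) (.cons (.leaf 1 [(1,2),(10,1)]) (.cons (.leaf 1 [(13,1),(1,1),(10,1)]) (.cons (.leaf 1 [(1,2)]) (.cons (.leaf 1 [(1,1),(13,1)]) (.cons (.keep [1,5,9,10,11] (.node (.cons (.leaf 1 [(4,1),(8,1),(11,1)]) (.cons (.leaf 1 [(5,1),(8,1),(11,1)]) (.cons (.leaf 1 [(1,1),(8,1)]) (.cons (.leaf 1 [(1,1),(8,1)]) (.cons (.leaf 1 [(4,1),(1,1),(11,1)]) (.cons (.leaf 1 [(5,1),(1,1),(11,1)]) (.cons (.leaf 1 [(11,1),(8,1)]) (.cons (.leaf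 1 [(5,1),(8,1),(11,1)]) (.cons (.leaf 1 [(4,1),(8,1),(11,1)]) (.cons (.leaf 1 [(11,1),(8,1)]) .nil)))))))))))) (.cons (.keep [5,6,9,10,11,13] (.node (.cons (.leaf 1 [(11,1),(8,2)]) (.cons (.leaf 1 [(5,1),(13,1),(11,1)]) (.cons (.leaf 1 [(1,1),(11,1),(8,2)]) (.cons (.leaf 1 [(13,1),(1,1)]) (.cons (.leaf 1 [(11,1),(1,1),(4,2)]) (.cons (.leaf 1 [(5,1),(1,1),(4,1),(11,1)]) (.cons (.leaf 1 [(11,1),(1,1),(8,2)]) (.cons (.leaf 1 [(5,1),(1,1),(8,2),(11,1)]) (.cons (.leaf 1 [(11,1),(8,2),(1,1)]) (.cons (.leaf 1 [(11,1),(13,1)]) .nil)))))))))))) (.cons (.keep [1,4,7,9,10,11] (.node (.cons (.leaf 1 [(12,1)]) (.cons (.leaf 1 [(5,1),(8,1),(12,1)]) (.cons (.leaf 1 [(1,1),(8,1)]) (.cons (.leaf 1 [(1,1),(8,1)]) (.cons (.leaf 1 [(1,1),(12,1)]) (.cons (.leaf 1 [(5,1),(8,1),(12,1)]) (.cons (.leaf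 1 [(12,1),(1,1)]) (.cons (.leaf 1 [(5,1),(1,1),(12,1)]) (.cons (.leaf 1 [(12,1),(1,1)]) (.cons (.leaf 1 [(12,1),(8,1)]) .nil)))))))))))) (.cons (.keep [0,4,9,10,13] (.node (.cons (.leaf 1 [(4,1),(12,1),(11,1)]) (.cons (.leaf 1 [(5,1),(12,1),(11,1)]) (.cons (.leaf 1 [(1,1),(12,1)]) (.cons (.leaf 1 [(1,1),(12,1)]) (.cons (.leaf 1 [(4,1),(1,1),(11,1)]) (.cons (.leaf 1 [(5,1),(1,1),(11,1)]) (.cons (.leaf 1 [(11,1),(12,1)]) (.cons (.leaf 1 [(5,1),(12,1),(11,1)]) (.cons (.leaf 1 [(4,1),(12,1),(11,1)]) (.cons (.leaf 1 [(11,1),(12,1)]) .nil)))))))))))) .nil)))))))))))) (.cons (.leaf 1 [(12,2)]) (.cons (.keep [5,9,10,12,13] (.node (.cons (.keep [4,7,9,10,11] (.node (.cons (.leaf 1 [(9,1),(10,1)]) (.cons (.leaf 1 [(5,1),(12,1),(10,1)]) (.cons (.leaf 1 [(1,1),(9,1),(10,1)]) (.cons (.leaf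 1 [(1,1),(12,1)]) (.cons (.leaf 1 [(4,1),(1,1),(10,1)]) (.cons (.leaf 1 [(5,1),(1,1),(10,1)]) (.cons (.leaf 1 [(10,1),(9,1),(1,1)]) (.cons (.leaf 1 [(5,1),(9,1),(1,1),(10,1)]) (.cons (.leaf 1 [(9,1),(10,1),(1,1)]) (.cons (.leaf 1 [(10,1),(12,1)]) .nil)))))))))))) (.cons (.keep [8,9,10,11,12] (.node (.cons (.leaf 1 [(4,1),(11,1),(9,1)]) (.cons (.leaf 1 [(5,1),(11,1),(9,1)]) (.cons (.leaf 1 [(1,1),(11,1)]) (.cons (.leaf 1 [(1,1),(11,1)]) (.cons (.leaf 1 [(4,1),(1,1),(9,1)]) (.cons (.leaf 1 [(5,1),(1,1),(9,1)]) (.cons (.leaf 1 [(9,1),(11,1)]) (.cons (.leaf 1 [(5,1),(11,1),(9,1)]) (.cons (.leaf 1 [(4,1),(11,1),(9,1)]) (.cons (.leaf 1 [(9,1),(11,1)]) .nil)))))))))))) (.cons (.leaf 1 [(1,1),(9,1),(11,1)]) (.cons (.leaf 1 [(1,1),(9,1),(11,1)]) (.cons (.leaf 1 [(1,1),(11,1)]) (.cons (.leaf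 1 [(1,1),(11,1)]) (.cons (.keep [1,5,8,9,10] (.node (.cons (.leaf 1 [(4,1),(8,1),(11,1)]) (.cons (.leaf 1 [(5,1),(8,1),(11,1)]) (.cons (.leaf 1 [(1,1),(8,1)]) (.cons (.leaf 1 [(1,1),(8,1)]) (.cons (.leaf 1 [(4,1),(1,1),(11,1)]) (.cons (.leaf 1 [(5,1),(1,1),(11,1)]) (.cons (.leaf 1 [(11,1),(8,1)]) (.cons (.leaf 1 [(5,1),(8,1),(11,1)]) (.cons (.leaf 1 [(4,1),(8,1),(11,1)]) (.cons (.leaf 1 [(11,1),(8,1)]) .nil)))))))))))) (.cons (.keep [1,6,8,9,10] (.node (.cons (.leaf 1 [(4,1),(8,1),(11,1)]) (.cons (.leaf 1 [(5,1),(8,1),(11,1)]) (.cons (.leaf 1 [(1,1),(8,1)]) (.cons (.leaf 1 [(1,1),(8,1)]) (.cons (.leaf 1 [(4,1),(1,1),(11,1)]) (.cons (.leaf 1 [(5,1),(1,1),(11,1)]) (.cons (.leaf 1 [(11,1),(8,1)]) (.cons (.leaf 1 [(5,1),(8,1),(11,1)]) (.cons (.leaf 1 [(4,1),(8,1),(11,1)]) (.cons (.leaf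 1 [(11,1),(8,1)]) .nil)))))))))))) (.cons (.keep [7,8,9,10,11] (.node (.cons (.leaf 1 [(8,1),(10,1)]) (.cons (.leaf 1 [(5,1),(12,1),(10,1)]) (.cons (.leaf 1 [(1,1),(8,1),(10,1)]) (.cons (.leaf 1 [(1,1),(12,1)]) (.cons (.leaf 1 [(4,1),(1,1),(10,1)]) (.cons (.leaf 1 [(5,1),(1,1),(10,1)]) (.cons (.leaf 1 [(10,1),(8,1),(1,1)]) (.cons (.leaf 1 [(5,1),(8,1),(1,1),(10,1)]) (.cons (.leaf 1 [(8,1),(10,1),(1,1)]) (.cons (.leaf 1 [(10,1),(12,1)]) .nil)))))))))))) (.cons (.keep [0,4,8,9,11] (.node (.cons (.leaf 1 [(4,1),(12,1),(11,1)]) (.cons (.leaf 1 [(5,1),(12,1),(11,1)]) (.cons (.leaf 1 [(1,1),(12,1)]) (.cons (.leaf 1 [(1,1),(12,1)]) (.cons (.leaf 1 [(4,1),(1,1),(11,1)]) (.cons (.leaf 1 [(5,1),(1,1),(11,1)]) (.cons (.leaf 1 [(11,1),(12,1)]) (.cons (.leaf 1 [(5,1),(12,1),(11,1)]) (.cons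 (.leaf 1 [(4,1),(12,1),(11,1)]) (.cons (.leaf 1 [(11,1),(12,1)]) .nil)))))))))))) .nil)))))))))))) (.cons (.leaf 1 [(11,1),(9,2),(1,1)]) (.cons (.leaf 1 [(11,1),(9,2),(1,1),(6,1)]) (.cons (.leaf 1 [(11,1),(1,1)]) (.cons (.leaf 1 [(11,1),(1,1),(6,1)]) (.cons (.leaf 1 [(11,1),(1,1),(7,2)]) (.cons (.keep [0,2,8,9,11] (.node (.cons (.keep [3,4,7,9,11] (.node (.cons (.leaf 1 [(4,1),(3,1),(12,1)]) (.cons (.leaf 1 [(5,1),(3,1),(12,1)]) (.cons (.leaf 1 [(3,1)]) (.cons (.leaf 1 [(3,1)]) (.cons (.leaf 1 [(4,1),(9,1),(12,1)]) (.cons (.leaf 1 [(5,1),(9,1),(12,1)]) (.cons (.leaf 1 [(12,1),(9,1)]) (.cons (.leaf 1 [(5,1),(9,1),(12,1)]) (.cons (.leaf 1 [(4,1),(9,1),(12,1)]) (.cons (.leaf 1 [(12,1),(9,1)]) .nil)))))))))))) (.cons (.keep [5,6,8,9,11] (.node (.cons (.leaf 1 [(12,1),(4,2)]) (.cons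 (.leaf 1 [(5,1),(4,1),(12,1)]) (.cons (.leaf 1 [(4,1)]) (.cons (.leaf 1 [(4,1)]) (.cons (.leaf 1 [(12,1),(4,1),(8,1)]) (.cons (.leaf 1 [(5,1),(8,1),(12,1)]) (.cons (.leaf 1 [(12,1),(8,1)]) (.cons (.leaf 1 [(5,1),(8,1),(12,1)]) (.cons (.leaf 1 [(12,1),(8,1),(4,1)]) (.cons (.leaf 1 [(12,1),(8,1)]) .nil)))))))))))) (.cons (.leaf 1 [(4,1),(1,1),(11,1)]) (.cons (.leaf 1 [(5,1),(1,1),(11,1)]) (.cons (.leaf 1 [(1,1),(4,1)]) (.cons (.leaf 1 [(1,1),(5,1)]) (.cons (.keep [1,5,8,11] (.node (.cons (.leaf 1 [(4,1),(11,1)]) (.cons (.leaf 1 [(5,1),(11,1)]) (.cons (.leaf 1 [(1,1)]) (.cons (.leaf 1 [(1,1)]) (.cons (.leaf 1 [(4,1),(11,1)]) (.cons (.leaf 1 [(5,1),(11,1)]) (.cons (.leaf 1 [(11,1)]) (.cons (.leaf 1 [(5,1),(11,1)]) (.cons (.leaf 1 [(4,1),(11,1)]) (.cons (.leaf 1 [(11,1)]) .nil))))))))))))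 (.cons (.keep [5,6,8,9,11] (.node (.cons (.leaf 1 [(3,1),(12,1),(8,2)]) (.cons (.leaf 1 [(5,1),(8,1),(12,1)]) (.cons (.leaf 1 [(1,1),(8,1)]) (.cons (.leaf 1 [(8,1),(1,1)]) (.cons (.leaf 1 [(12,1),(4,2)]) (.cons (.leaf 1 [(5,1),(4,1),(12,1)]) (.cons (.leaf 1 [(12,1),(8,1)]) (.cons (.leaf 1 [(5,1),(8,1),(12,1)]) (.cons (.leaf 1 [(12,1),(8,1),(4,1)]) (.cons (.leaf 1 [(12,1),(8,1)]) .nil)))))))))))) (.cons (.keep [4,7,8,9,11] (.node (.cons (.leaf 1 [(3,1),(12,1)]) (.cons (.leaf 1 [(5,1),(8,1),(12,1)]) (.cons (.leaf 1 [(1,1),(8,1)]) (.cons (.leaf 1 [(1,1),(8,1)]) (.cons (.leaf 1 [(12,1)]) (.cons (.leaf 1 [(5,1),(8,1),(12,1)]) (.cons (.leaf 1 [(12,1),(3,1)]) (.cons (.leaf 1 [(5,1),(12,1),(3,1)]) (.cons (.leaf 1 [(12,1),(3,1)]) (.cons (.leaf 1 [(12,1),(8,1)]) .nil)))))))))))) (.cons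 (.keep [0,4,9,11] (.node (.cons (.leaf 1 [(4,1),(11,1)]) (.cons (.leaf 1 [(5,1),(11,1)]) (.cons (.leaf 1 [(1,1)]) (.cons (.leaf 1 [(1,1)]) (.cons (.leaf 1 [(4,1),(11,1)]) (.cons (.leaf 1 [(5,1),(11,1)]) (.cons (.leaf 1 [(11,1)]) (.cons (.leaf 1 [(5,1),(11,1)]) (.cons (.leaf 1 [(4,1),(11,1)]) (.cons (.leaf 1 [(11,1)]) .nil)))))))))))) .nil)))))))))))) .nil)))))))))))

theorem c_31_24_20 : Concl 31 24 z_31_24_20 h_31_24_20 .nd := piece _ hP_nil t_31_24_20 _ _ (by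
  decide +kernel)

def z_31_24_21 : F := ⟨0, -1, 0, -1, 2⟩

def h_31_24_21 : List F := [⟨0, -1, 0, 0, 0⟩, ⟨0, 0, -1, 1, 0⟩, ⟨0, -1, 0, -1, 1⟩, ⟨0, 1, 0, 0,
  1⟩, ⟨-1, 1, 0, 0, 0⟩]

def t_31_24_21 : T := (.node (.cons (.leaf 1 [(12,1)]) (.cons (.keep [2,5,9,10,12] (.node (.cons (.keep [4,7,8,10,11] (.node (.cons (.leaf 1 [(4,1),(3,1),(11,1)]) (.cons (.leaf 1 [(5,1),(3,1),(11,1)]) (.cons (.leaf 1 [(3,1)]) (.cons (.leaf 1 [(3,1)]) (.cons (.leaf 1 [(4,1),(8,1),(11,1)]) (.cons (.leaf 1 [(5,1),(8,1),(11,1)]) (.cons (.leaf 1 [(11,1),(8,1)]) (.cons (.leaf 1 [(5,1),(8,1),(11,1)]) (.cons (.leaf 1 [(4,1),(8,1),(11,1)]) (.cons (.leaf 1 [(11,1),(8,1)]) .nil)))))))))))) (.cons (.keep [5,6,8,10,11,12] (.node (.cons (.leaf 1 [(11,1),(4,2)]) (.cons (.leaf 1 [(5,1),(4,1),(11,1)]) (.cons (.leaf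 1 [(4,1)]) (.cons (.leaf 1 [(4,1)]) (.cons (.leaf 1 [(11,1),(4,1),(8,1)]) (.cons (.leaf 1 [(5,1),(8,1),(11,1)]) (.cons (.leaf 1 [(11,1),(8,1)]) (.cons (.leaf 1 [(5,1),(8,1),(11,1)]) (.cons (.leaf 1 [(11,1),(8,1),(4,1)]) (.cons (.leaf 1 [(11,1),(8,1)]) .nil)))))))))))) (.cons (.leaf 1 [(4,1),(1,1),(10,1)]) (.cons (.leaf 1 [(5,1),(1,1),(10,1)]) (.cons (.leaf 1 [(1,1),(4,1)]) (.cons (.leaf 1 [(1,1),(5,1)]) (.cons (.keep [1,5,9,10,11] (.node (.cons (.leaf 1 [(4,1),(11,1)]) (.cons (.leaf 1 [(5,1),(11,1)]) (.cons (.leaf 1 [(1,1)]) (.cons (.leaf 1 [(1,1)]) (.cons (.leaf 1 [(4,1),(11,1)]) (.cons (.leaf 1 [(5,1),(11,1)]) (.cons (.leaf 1 [(11,1)]) (.cons (.leaf 1 [(5,1),(11,1)]) (.cons (.leaf 1 [(4,1),(11,1)]) (.cons (.leaf 1 [(11,1)]) .nil)))))))))))) (.cons (.keep [6,9,10,11,12] (.node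 (.cons (.leaf 2 [(10,2),(12,1),(4,3)]) (.cons (.leaf 2 [(5,2),(12,1),(4,1),(10,2)]) (.cons (.leaf 2 [(4,1),(1,1),(12,1)]) (.cons (.leaf 2 [(4,1),(12,1),(1,1)]) (.cons (.leaf 1 [(10,1),(4,2)]) (.cons (.leaf 1 [(5,1),(4,1),(10,1)]) (.cons (.leaf 1 [(10,1),(12,1),(9,1)]) (.cons (.leaf 1 [(5,1),(12,1),(0,1),(10,2)]) (.cons (.leaf 1 [(10,2),(12,1),(0,1),(4,3)]) (.cons (.leaf 1 [(10,2),(12,1),(0,1),(4,1)]) .nil)))))))))))) (.cons (.keep [1,7,9,10,11] (.node (.cons (.leaf 1 [(3,1),(11,1)]) (.cons (.leaf 1 [(5,1),(3,1),(8,1),(11,1)]) (.cons (.leaf 1 [(3,1),(8,1)]) (.cons (.leaf 1 [(3,1),(8,1)]) (.cons (.leaf 1 [(11,1)]) (.cons (.leaf 1 [(5,1),(10,1),(8,1),(11,1)]) (.cons (.leaf 1 [(11,1),(3,1)]) (.cons (.leaf 1 [(5,1),(11,1),(3,1)]) (.cons (.leaf 1 [(11,1),(3,1)]) (.cons (.leaf 1 [(11,1),(10,1),(8,1)])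 .nil)))))))))))) (.cons (.keep [0,4,9,10,12] (.node (.cons (.leaf 1 [(4,1),(11,1)]) (.cons (.leaf 1 [(5,1),(11,1)]) (.cons (.leaf 1 [(1,1)]) (.cons (.leaf 1 [(1,1)]) (.cons (.leaf 1 [(4,1),(11,1)]) (.cons (.leaf 1 [(5,1),(11,1)]) (.cons (.leaf 1 [(11,1)]) (.cons (.leaf 1 [(5,1),(11,1)]) (.cons (.leaf 1 [(4,1),(11,1)]) (.cons (.leaf 1 [(11,1)]) .nil)))))))))))) .nil)))))))))))) (.cons (.leaf 1 [(1,1),(12,1)]) (.cons (.keep [5,8,9,10,12] (.node (.cons (.keep [4,7,9,10,11] (.node (.cons (.leaf 1 [(4,1),(3,1),(11,1)]) (.cons (.leaf 1 [(5,1),(3,1),(11,1)]) (.cons (.leaf 1 [(3,1)]) (.cons (.leaf 1 [(3,1)]) (.cons (.leaf 1 [(4,1),(8,1),(11,1)]) (.cons (.leaf 1 [(5,1),(8,1),(11,1)]) (.cons (.leaf 1 [(11,1),(8,1)]) (.cons (.leaf 1 [(5,1),(8,1),(11,1)]) (.cons (.leaf 1 [(4,1),(8,1),(11,1)])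 (.cons (.leaf 1 [(11,1),(8,1)]) .nil)))))))))))) (.cons (.keep [8,9,10,11,12] (.node (.cons (.leaf 1 [(10,1),(4,2)]) (.cons (.leaf 1 [(5,1),(4,1),(10,1)]) (.cons (.leaf 1 [(4,1)]) (.cons (.leaf 1 [(4,1)]) (.cons (.leaf 2 [(10,2),(4,3),(8,1)]) (.cons (.leaf 2 [(5,2),(4,1),(8,1),(10,2)]) (.cons (.leaf 1 [(10,1),(12,1),(8,1)]) (.cons (.leaf 1 [(5,1),(12,1),(8,1),(10,1)]) (.cons (.leaf 1 [(10,1),(12,1),(8,1),(4,1)]) (.cons (.leaf 1 [(10,1),(12,1),(8,1)]) .nil)))))))))))) (.cons (.leaf 1 [(4,1),(1,1),(10,1)]) (.cons (.leaf 1 [(5,1),(1,1),(10,1)]) (.cons (.leaf 1 [(1,1),(4,1)]) (.cons (.leaf 1 [(1,1),(5,1)]) (.cons (.keep [1,5,8,10,11] (.node (.cons (.leaf 1 [(4,1),(11,1)]) (.cons (.leaf 1 [(5,1),(11,1)]) (.cons (.leaf 1 [(1,1)]) (.cons (.leaf 1 [(1,1)]) (.cons (.leaf 1 [(4,1),(11,1)])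 (.cons (.leaf 1 [(5,1),(11,1)]) (.cons (.leaf 1 [(11,1)]) (.cons (.leaf 1 [(5,1),(11,1)]) (.cons (.leaf 1 [(4,1),(11,1)]) (.cons (.leaf 1 [(11,1)]) .nil)))))))))))) (.cons (.keep [1,6,8,10,11] (.node (.cons (.leaf 1 [(11,1),(8,1),(4,2)]) (.cons (.leaf 1 [(5,1),(8,1),(4,1),(11,1)]) (.cons (.leaf 1 [(4,1),(8,1)]) (.cons (.leaf 1 [(4,1),(8,1)]) (.cons (.leaf 1 [(11,1),(4,2)]) (.cons (.leaf 1 [(5,1),(4,1),(11,1)]) (.cons (.leaf 1 [(11,1),(8,1),(10,1)]) (.cons (.leaf 1 [(5,1),(8,1),(10,1),(11,1)]) (.cons (.leaf 1 [(11,1),(8,1),(10,1),(4,1)]) (.cons (.leaf 1 [(11,1),(8,1),(10,1)]) .nil)))))))))))) (.cons (.keep [7,8,10,11,12] (.node (.cons (.leaf 1 [(3,1),(10,1)]) (.cons (.leaf 1 [(5,1),(9,1),(12,1),(10,1)]) (.cons (.leaf 2 [(1,2),(9,1),(10,1)]) (.cons (.leaf 1 [(1,1),(9,1),(12,1)])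 (.cons (.leaf 1 [(10,1)]) (.cons (.leaf 1 [(5,1),(9,1),(1,1),(10,1)]) (.cons (.leaf 1 [(10,1),(3,1)]) (.cons (.leaf 1 [(5,1),(10,1),(3,1)]) (.cons (.leaf 1 [(10,1),(3,1)]) (.cons (.leaf 1 [(10,1),(9,1),(12,1)]) .nil)))))))))))) (.cons (.keep [0,4,8,10,12] (.node (.cons (.leaf 1 [(4,1),(11,1)]) (.cons (.leaf 1 [(5,1),(11,1)]) (.cons (.leaf 1 [(1,1)]) (.cons (.leaf 1 [(1,1)]) (.cons (.leaf 1 [(4,1),(11,1)]) (.cons (.leaf 1 [(5,1),(11,1)]) (.cons (.leaf 1 [(11,1)]) (.cons (.leaf 1 [(5,1),(11,1)]) (.cons (.leaf 1 [(4,1),(11,1)]) (.cons (.leaf 1 [(11,1)]) .nil)))))))))))) .nil)))))))))))) (.cons (.leaf 1 [(11,1),(1,1),(9,1)]) (.cons (.leaf 1 [(11,1),(1,1),(9,1)]) (.cons (.leaf 1 [(11,1),(1,1)]) (.cons (.leaf 1 [(11,1),(1,1)]) (.cons (.leaf 1 [(11,1),(7,1),(1,1)]) (.cons (.keep [0,2,8,9,11]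 (.node (.cons (.keep [3,4,7,9,11] (.node (.cons (.leaf 1 [(4,1),(3,1),(12,1)]) (.cons (.leaf 1 [(5,1),(3,1),(12,1)]) (.cons (.leaf 1 [(3,1)]) (.cons (.leaf 1 [(3,1)]) (.cons (.leaf 1 [(4,1),(9,1),(12,1)]) (.cons (.leaf 1 [(5,1),(9,1),(12,1)]) (.cons (.leaf 1 [(12,1),(9,1)]) (.cons (.leaf 1 [(5,1),(9,1),(12,1)]) (.cons (.leaf 1 [(4,1),(9,1),(12,1)]) (.cons (.leaf 1 [(12,1),(9,1)]) .nil)))))))))))) (.cons (.keep [5,6,8,9,11] (.node (.cons (.leaf 1 [(12,1),(4,2)]) (.cons (.leaf 1 [(5,1),(4,1),(12,1)]) (.cons (.leaf 1 [(4,1)]) (.cons (.leaf 1 [(4,1)]) (.cons (.leaf 1 [(12,1),(4,1),(8,1)]) (.cons (.leaf 1 [(5,1),(8,1),(12,1)]) (.cons (.leaf 1 [(12,1),(8,1)]) (.cons (.leaf 1 [(5,1),(8,1),(12,1)]) (.cons (.leaf 1 [(12,1),(8,1),(4,1)]) (.cons (.leaf 1 [(12,1),(8,1)]) .nil))))))))))))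 (.cons (.leaf 1 [(4,1),(1,1),(11,1)]) (.cons (.leaf 1 [(5,1),(1,1),(11,1)]) (.cons (.leaf 1 [(1,1),(4,1)]) (.cons (.leaf 1 [(1,1),(5,1)]) (.cons (.keep [1,5,8,11] (.node (.cons (.leaf 1 [(4,1),(11,1)]) (.cons (.leaf 1 [(5,1),(11,1)]) (.cons (.leaf 1 [(1,1)]) (.cons (.leaf 1 [(1,1)]) (.cons (.leaf 1 [(4,1),(11,1)]) (.cons (.leaf 1 [(5,1),(11,1)]) (.cons (.leaf 1 [(11,1)]) (.cons (.leaf 1 [(5,1),(11,1)]) (.cons (.leaf 1 [(4,1),(11,1)]) (.cons (.leaf 1 [(11,1)]) .nil)))))))))))) (.cons (.keep [5,6,8,9,11] (.node (.cons (.leaf 1 [(3,1),(12,1),(8,2)]) (.cons (.leaf 1 [(5,1),(8,1),(12,1)]) (.cons (.leaf 1 [(1,1),(8,1)]) (.cons (.leaf 1 [(8,1),(1,1)]) (.cons (.leaf 1 [(12,1),(4,2)]) (.cons (.leaf 1 [(5,1),(4,1),(12,1)]) (.cons (.leaf 1 [(12,1),(8,1)]) (.cons (.leaf 1 [(5,1),(8,1),(12,1)])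 (.cons (.leaf 1 [(12,1),(8,1),(4,1)]) (.cons (.leaf 1 [(12,1),(8,1)]) .nil)))))))))))) (.cons (.keep [4,7,8,9,11] (.node (.cons (.leaf 1 [(3,1),(12,1)]) (.cons (.leaf 1 [(5,1),(8,1),(12,1)]) (.cons (.leaf 1 [(1,1),(8,1)]) (.cons (.leaf 1 [(1,1),(8,1)]) (.cons (.leaf 1 [(12,1)]) (.cons (.leaf 1 [(5,1),(8,1),(12,1)]) (.cons (.leaf 1 [(12,1),(3,1)]) (.cons (.leaf 1 [(5,1),(12,1),(3,1)]) (.cons (.leaf 1 [(12,1),(3,1)]) (.cons (.leaf 1 [(12,1),(8,1)]) .nil)))))))))))) (.cons (.keep [0,4,9,11] (.node (.cons (.leaf 1 [(4,1),(11,1)]) (.cons (.leaf 1 [(5,1),(11,1)]) (.cons (.leaf 1 [(1,1)]) (.cons (.leaf 1 [(1,1)]) (.cons (.leaf 1 [(4,1),(11,1)]) (.cons (.leaf 1 [(5,1),(11,1)]) (.cons (.leaf 1 [(11,1)]) (.cons (.leaf 1 [(5,1),(11,1)]) (.cons (.leaf 1 [(4,1),(11,1)]) (.cons (.leaf 1 [(11,1)])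 .nil)))))))))))) .nil)))))))))))) .nil)))))))))))

theorem c_31_24_21 : Concl 31 24 z_31_24_21 h_31_24_21 .nd := piece _ hP_nil t_31_24_21 _ _ (by
  decide +kernel)

end Pool.Agent.H4.RD4.E63
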