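import Pool.Agent.H4.RD4.E62
import Pool.Agent.H4.RD4.E63

/-! # Certificates for special cases of order four -/

set_option maxRecDepth 20000

namespace Pool.Agent.H4.RD4.E64

open Pool.Agent.H50.Rdb
open Pool.Agent.H81.RDE (ESB caseOf)

def z_31_24_22 : F := ⟨1, -1, -1, 0, 2⟩

def h_31_24_22 : List F := [⟨1, -1, 0, 0, 0⟩, ⟨0, 0, 1, -1, 0⟩, ⟨0, 1, -1, 0, 0⟩, ⟨0, 1, 0, 0, 1⟩,
  ⟨-1, 1, 0, 0, 0⟩, ⟨0, -1, 0, 0, 1⟩]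

def t_31_24_22 : T := (.node (.cons (.leaf 1 [(12,2),(9,1),(2,1)]) (.cons (.keep [2,8,9,10,11,12] (.node (.cons (.keep [4,7,8,10,11] (.node (.cons (.leaf 1 [(4,1)]) (.cons (.leaf 1 [(5,1)]) (.cons (.leaf 1 [(4,1)]) (.cons (.leaf 1 [(5,1)]) (.cons (.leaf 1 [(4,1)]) (.cons (.leaf 1 [(5,1)]) (.cons (.leaf 1 []) (.cons (.leaf 1 [(5,1)]) (.cons (.leaf 1 [(4,1)]) (.cons (.leaf 1 []) .nil)))))))))))) (.cons (.keep [5,6,8,10,11,13] (.node (.cons (.leaf 1 [(13,1),(4,1)]) (.cons (.leaf 1 [(13,1),(5,1)]) (.cons (.leaf 1 [(4,1),(13,1)]) (.cons (.leaf 1 [(5,1),(13,1)]) (.cons (.leaf 1 [(4,2)]) (.cons (.leaf 1 [(5,1),(4,1)]) (.cons (.leaf 1 [(13,1)]) (.cons (.leaf 1 [(5,1),(13,1)]) (.cons (.leaf 1 [(13,1),(4,1)]) (.cons (.leaf 1 [(13,1)]) .nil)))))))))))) (.cons (.leaf 1 [(1,2)]) (.cons (.leaf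 1 [(1,1),(13,1)]) (.cons (.leaf 1 [(10,1),(1,2)]) (.cons (.leaf 1 [(1,1),(13,1),(10,1)]) (.cons (.keep [1,5,9,10,11] (.node (.cons (.leaf 1 [(8,1),(4,1)]) (.cons (.leaf 1 [(8,1),(5,1)]) (.cons (.leaf 1 [(4,1),(8,1)]) (.cons (.leaf 1 [(5,1),(8,1)]) (.cons (.leaf 1 [(1,1),(4,1)]) (.cons (.leaf 1 [(1,1),(5,1)]) (.cons (.leaf 1 [(8,1)]) (.cons (.leaf 1 [(8,1),(5,1)]) (.cons (.leaf 1 [(8,1),(4,1)]) (.cons (.leaf 1 [(8,1)]) .nil)))))))))))) (.cons (.keep [5,6,9,10,11,13] (.node (.cons (.leaf 1 [(8,2)]) (.cons (.leaf 1 [(13,1),(5,1)]) (.cons (.leaf 1 [(1,1),(8,2)]) (.cons (.leaf 1 [(5,1),(13,1)]) (.cons (.leaf 1 [(1,1),(4,2)]) (.cons (.leaf 1 [(1,1),(4,1),(5,1)]) (.cons (.leaf 1 [(1,1),(8,2)]) (.cons (.leaf 1 [(1,1),(5,1),(8,2)]) (.cons (.leaf 1 [(8,2),(1,1)]) (.cons (.leaf 1 [(13,1)])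 .nil)))))))))))) (.cons (.keep [1,4,7,9,10,11] (.node (.cons (.leaf 1 []) (.cons (.leaf 1 [(8,1),(5,1)]) (.cons (.leaf 1 [(1,1)]) (.cons (.leaf 1 [(5,1),(8,1)]) (.cons (.leaf 1 [(1,1)]) (.cons (.leaf 1 [(5,1),(8,1)]) (.cons (.leaf 1 [(1,1)]) (.cons (.leaf 1 [(1,1),(5,1)]) (.cons (.leaf 1 [(1,1)]) (.cons (.leaf 1 [(8,1)]) .nil)))))))))))) (.cons (.keep [0,4,9,10,13] (.node (.cons (.leaf 1 [(12,1),(4,1)]) (.cons (.leaf 1 [(12,1),(5,1)]) (.cons (.leaf 1 [(4,1),(12,1)]) (.cons (.leaf 1 [(5,1),(12,1)]) (.cons (.leaf 1 [(1,1),(4,1)]) (.cons (.leaf 1 [(1,1),(5,1)]) (.cons (.leaf 1 [(12,1)]) (.cons (.leaf 1 [(12,1),(5,1)]) (.cons (.leaf 1 [(12,1),(4,1)]) (.cons (.leaf 1 [(12,1)]) .nil)))))))))))) .nil)))))))))))) (.cons (.leaf 1 [(9,1),(12,2)]) (.cons (.keep [3,5,9,12,13] (.node (.cons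 (.keep [4,7,8,10,11] (.node (.cons (.leaf 1 [(9,1)]) (.cons (.leaf 1 [(12,1),(5,1)]) (.cons (.leaf 1 [(1,1),(9,1)]) (.cons (.leaf 1 [(5,1),(12,1)]) (.cons (.leaf 1 [(1,1),(4,1)]) (.cons (.leaf 1 [(1,1),(5,1)]) (.cons (.leaf 1 [(9,1),(1,1)]) (.cons (.leaf 1 [(1,1),(5,1),(9,1)]) (.cons (.leaf 1 [(9,1),(1,1)]) (.cons (.leaf 1 [(12,1)]) .nil)))))))))))) (.cons (.keep [8,9,10,11,12] (.node (.cons (.leaf 1 [(11,1),(4,1)]) (.cons (.leaf 1 [(11,1),(5,1)]) (.cons (.leaf 1 [(4,1),(11,1)]) (.cons (.leaf 1 [(5,1),(11,1)]) (.cons (.leaf 1 [(1,1),(4,1)]) (.cons (.leaf 1 [(1,1),(5,1)]) (.cons (.leaf 1 [(11,1)]) (.cons (.leaf 1 [(11,1),(5,1)]) (.cons (.leaf 1 [(11,1),(4,1)]) (.cons (.leaf 1 [(11,1)]) .nil)))))))))))) (.cons (.leaf 1 [(1,1),(11,1)]) (.cons (.leaf 1 [(1,1),(11,1)]) (.cons (.leaf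 1 [(10,1),(1,1),(11,1)]) (.cons (.leaf 1 [(10,1),(1,1),(11,1)]) (.cons (.keep [1,5,8,9,10] (.node (.cons (.leaf 1 [(8,1),(4,1)]) (.cons (.leaf 1 [(8,1),(5,1)]) (.cons (.leaf 1 [(4,1),(8,1)]) (.cons (.leaf 1 [(5,1),(8,1)]) (.cons (.leaf 1 [(1,1),(4,1)]) (.cons (.leaf 1 [(1,1),(5,1)]) (.cons (.leaf 1 [(8,1)]) (.cons (.leaf 1 [(8,1),(5,1)]) (.cons (.leaf 1 [(8,1),(4,1)]) (.cons (.leaf 1 [(8,1)]) .nil)))))))))))) (.cons (.keep [1,6,8,9,10] (.node (.cons (.leaf 1 [(8,1),(4,1)]) (.cons (.leaf 1 [(8,1),(5,1)]) (.cons (.leaf 1 [(4,1),(8,1)]) (.cons (.leaf 1 [(5,1),(8,1)]) (.cons (.leaf 1 [(1,1),(4,1)]) (.cons (.leaf 1 [(1,1),(5,1)]) (.cons (.leaf 1 [(8,1)]) (.cons (.leaf 1 [(8,1),(5,1)]) (.cons (.leaf 1 [(8,1),(4,1)]) (.cons (.leaf 1 [(8,1)]) .nil)))))))))))) (.cons (.keep [7,8,9,10,11]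 (.node (.cons (.leaf 1 [(8,1)]) (.cons (.leaf 1 [(12,1),(5,1)]) (.cons (.leaf 1 [(1,1),(8,1)]) (.cons (.leaf 1 [(5,1),(12,1)]) (.cons (.leaf 1 [(1,1),(4,1)]) (.cons (.leaf 1 [(1,1),(5,1)]) (.cons (.leaf 1 [(8,1),(1,1)]) (.cons (.leaf 1 [(1,1),(5,1),(8,1)]) (.cons (.leaf 1 [(8,1),(1,1)]) (.cons (.leaf 1 [(12,1)]) .nil)))))))))))) (.cons (.keep [0,4,9,10,11] (.node (.cons (.leaf 1 [(12,1),(4,1)]) (.cons (.leaf 1 [(12,1),(5,1)]) (.cons (.leaf 1 [(4,1),(12,1)]) (.cons (.leaf 1 [(5,1),(12,1)]) (.cons (.leaf 1 [(1,1),(4,1)]) (.cons (.leaf 1 [(1,1),(5,1)]) (.cons (.leaf 1 [(12,1)]) (.cons (.leaf 1 [(12,1),(5,1)]) (.cons (.leaf 1 [(12,1),(4,1)]) (.cons (.leaf 1 [(12,1)]) .nil)))))))))))) .nil)))))))))))) (.cons (.leaf 1 [(12,1),(1,1)]) (.cons (.leaf 1 [(12,1),(1,1)]) (.cons (.leaf 1 [(10,1),(9,2),(1,2)])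 (.cons (.leaf 1 [(10,1),(9,2),(6,1),(1,2)]) (.cons (.leaf 1 [(10,1),(1,2),(7,3),(9,2)]) (.cons (.keep [0,2,8,9,11] (.node (.cons (.keep [2,4,7,9,11] (.node (.cons (.leaf 1 [(3,1),(4,1)]) (.cons (.leaf 1 [(3,1),(5,1)]) (.cons (.leaf 1 [(4,1),(9,1)]) (.cons (.leaf 1 [(5,1),(9,1)]) (.cons (.leaf 1 [(4,1),(9,1)]) (.cons (.leaf 1 [(5,1),(9,1)]) (.cons (.leaf 1 [(9,1)]) (.cons (.leaf 1 [(9,1),(5,1)]) (.cons (.leaf 1 [(9,1),(4,1)]) (.cons (.leaf 1 [(9,1)]) .nil)))))))))))) (.cons (.keep [5,6,8,9,11] (.node (.cons (.leaf 1 [(4,2)]) (.cons (.leaf 1 [(4,1),(5,1)]) (.cons (.leaf 1 [(4,1),(8,1)]) (.cons (.leaf 1 [(5,1),(8,1)]) (.cons (.leaf 1 [(4,1),(8,1)]) (.cons (.leaf 1 [(5,1),(8,1)]) (.cons (.leaf 1 [(8,1)]) (.cons (.leaf 1 [(5,1),(8,1)]) (.cons (.leaf 1 [(8,1),(4,1)]) (.cons (.leaf 1 [(8,1)])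 .nil)))))))))))) (.cons (.leaf 1 [(1,1),(4,1)]) (.cons (.leaf 1 [(1,1),(5,1)]) (.cons (.leaf 1 [(1,1),(4,1),(11,1)]) (.cons (.leaf 1 [(1,1),(5,1),(11,1)]) (.cons (.keep [1,5,8,11] (.node (.cons (.leaf 1 [(4,1)]) (.cons (.leaf 1 [(5,1)]) (.cons (.leaf 1 [(4,1)]) (.cons (.leaf 1 [(5,1)]) (.cons (.leaf 1 [(4,1)]) (.cons (.leaf 1 [(5,1)]) (.cons (.leaf 1 []) (.cons (.leaf 1 [(5,1)]) (.cons (.leaf 1 [(4,1)]) (.cons (.leaf 1 []) .nil)))))))))))) (.cons (.keep [5,6,8,9,11] (.node (.cons (.leaf 1 [(8,1),(4,1)]) (.cons (.leaf 1 [(8,1),(5,1)]) (.cons (.leaf 1 [(4,1),(8,1)]) (.cons (.leaf 1 [(5,1),(8,1)]) (.cons (.leaf 1 [(4,2)]) (.cons (.leaf 1 [(5,1),(4,1)]) (.cons (.leaf 1 [(8,1)]) (.cons (.leaf 1 [(8,1),(5,1)]) (.cons (.leaf 1 [(8,1),(4,1)]) (.cons (.leaf 1 [(8,1)]) .nil)))))))))))) (.cons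 (.keep [4,7,8,9,11] (.node (.cons (.leaf 1 [(3,1)]) (.cons (.leaf 1 [(8,1),(5,1)]) (.cons (.leaf 1 [(3,1)]) (.cons (.leaf 1 [(5,1),(8,1)]) (.cons (.leaf 1 []) (.cons (.leaf 1 [(5,1),(8,1)]) (.cons (.leaf 1 [(3,1)]) (.cons (.leaf 1 [(3,1),(5,1)]) (.cons (.leaf 1 [(3,1)]) (.cons (.leaf 1 [(8,1)]) .nil)))))))))))) (.cons (.keep [0,4,9,11] (.node (.cons (.leaf 1 [(4,1)]) (.cons (.leaf 1 [(5,1)]) (.cons (.leaf 1 [(4,1)]) (.cons (.leaf 1 [(5,1)]) (.cons (.leaf 1 [(4,1)]) (.cons (.leaf 1 [(5,1)]) (.cons (.leaf 1 []) (.cons (.leaf 1 [(5,1)]) (.cons (.leaf 1 [(4,1)]) (.cons (.leaf 1 []) .nil)))))))))))) .nil)))))))))))) .nil)))))))))))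

theorem c_31_24_22 : Concl 31 24 z_31_24_22 h_31_24_22 .nd := piece _ hP_nil t_31_24_22 _ _ (by
  decide +kernel)

def z_31_24_23 : F := ⟨0, 0, 0, -1, 2⟩

def h_31_24_23 : List F := [⟨0, 1, 0, 0, 0⟩, ⟨-1, 1, 0, 0, 0⟩, ⟨0, 1, 0, -1, 0⟩, ⟨0, 0, -1, 1, 0⟩,
  ⟨0, -1, 0, 0, 1⟩]

def t_31_24_23 : T := (.node (.cons (.leaf 1 [(9,1),(2,1)]) (.cons (.keep [2,5,9,10,11] (.node (.cons (.keep [4,7,8,11,12] (.node (.cons (.leaf 1 [(4,1),(12,1)]) (.cons (.leaf 1 [(5,1),(12,1)]) (.cons (.leaf 1 [(1,1)]) (.cons (.leaf 1 [(1,1)]) (.cons (.leaf 1 [(4,1),(12,1)]) (.cons (.leaf 1 [(5,1),(12,1)]) (.cons (.leaf 1 [(12,1)]) (.cons (.leaf 1 [(5,1),(12,1)]) (.cons (.leaf 1 [(3,1),(9,1),(12,1)]) (.cons (.leaf 1 [(12,1)]) .nil)))))))))))) (.cons (.keep [3,5,6,8,10,12] (.node (.cons (.leaf 1 [(3,1),(12,1),(13,1)])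 (.cons (.leaf 1 [(5,1),(13,1)]) (.cons (.leaf 1 [(1,1)]) (.cons (.leaf 1 [(1,1)]) (.cons (.leaf 1 [(4,1),(13,1)]) (.cons (.leaf 1 [(5,1),(13,1)]) (.cons (.leaf 1 [(13,1)]) (.cons (.leaf 1 [(5,1),(13,1)]) (.cons (.leaf 1 [(3,1),(12,1),(13,1)]) (.cons (.leaf 1 [(13,1)]) .nil)))))))))))) (.cons (.leaf 1 [(1,1),(12,1)]) (.cons (.leaf 1 [(1,1),(12,1)]) (.cons (.leaf 1 [(1,1)]) (.cons (.leaf 1 [(1,1)]) (.cons (.keep [1,5,9,11,12] (.node (.cons (.leaf 1 [(4,1),(12,1)]) (.cons (.leaf 1 [(5,1),(12,1)]) (.cons (.leaf 1 [(1,1)]) (.cons (.leaf 1 [(1,1)]) (.cons (.leaf 1 [(4,1),(12,1)]) (.cons (.leaf 1 [(5,1),(12,1)]) (.cons (.leaf 1 [(12,1)]) (.cons (.leaf 1 [(5,1),(12,1)]) (.cons (.leaf 1 [(4,1),(12,1)]) (.cons (.leaf 1 [(12,1)]) .nil)))))))))))) (.cons (.keep [6,9,10,11,12] (.node (.cons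 (.leaf 1 [(3,2),(10,1),(12,1)]) (.cons (.leaf 1 [(5,1),(12,1)]) (.cons (.leaf 1 [(1,1)]) (.cons (.leaf 1 [(1,1)]) (.cons (.leaf 1 [(4,1),(12,1)]) (.cons (.leaf 1 [(5,1),(12,1)]) (.cons (.leaf 1 [(12,1)]) (.cons (.leaf 1 [(5,1),(12,1)]) (.cons (.leaf 1 [(4,1),(12,1)]) (.cons (.leaf 1 [(12,1)]) .nil)))))))))))) (.cons (.keep [1,7,9,11,12] (.node (.cons (.leaf 1 [(3,1),(9,1),(12,1)]) (.cons (.leaf 1 [(5,1),(12,1)]) (.cons (.leaf 1 [(1,1)]) (.cons (.leaf 1 [(1,1)]) (.cons (.leaf 1 [(4,1),(12,1)]) (.cons (.leaf 1 [(5,1),(12,1)]) (.cons (.leaf 1 [(12,1)]) (.cons (.leaf 1 [(5,1),(12,1)]) (.cons (.leaf 1 [(3,1),(9,1),(12,1)]) (.cons (.leaf 1 [(12,1)]) .nil)))))))))))) (.cons (.keep [0,4,9,10,12] (.node (.cons (.leaf 1 [(4,1),(12,1)]) (.cons (.leaf 1 [(5,1),(12,1)]) (.cons (.leaf 1 [(1,1)])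 (.cons (.leaf 1 [(1,1)]) (.cons (.leaf 1 [(4,1),(12,1)]) (.cons (.leaf 1 [(5,1),(12,1)]) (.cons (.leaf 1 [(12,1)]) (.cons (.leaf 1 [(5,1),(12,1)]) (.cons (.leaf 1 [(4,1),(12,1)]) (.cons (.leaf 1 [(12,1)]) .nil)))))))))))) .nil)))))))))))) (.cons (.leaf 1 [(9,1)]) (.cons (.keep [5,6,9,11,12] (.node (.cons (.keep [4,7,9,10,11] (.node (.cons (.leaf 1 [(4,1),(12,1)]) (.cons (.leaf 1 [(5,1),(12,1)]) (.cons (.leaf 1 [(1,1)]) (.cons (.leaf 1 [(1,1)]) (.cons (.leaf 1 [(4,1),(12,1)]) (.cons (.leaf 1 [(5,1),(12,1)]) (.cons (.leaf 1 [(12,1)]) (.cons (.leaf 1 [(5,1),(12,1)]) (.cons (.leaf 1 [(3,1),(9,1),(12,1)]) (.cons (.leaf 1 [(12,1)]) .nil)))))))))))) (.cons (.keep [8,9,10,11,12] (.node (.cons (.leaf 1 [(4,1),(11,1)]) (.cons (.leaf 1 [(5,1),(11,1)]) (.cons (.leaf 1 [(1,1)]) (.cons (.leaf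 1 [(1,1)]) (.cons (.leaf 1 [(4,1),(11,1)]) (.cons (.leaf 1 [(5,1),(11,1)]) (.cons (.leaf 1 [(11,1)]) (.cons (.leaf 1 [(5,1),(11,1)]) (.cons (.leaf 1 [(4,1),(11,1)]) (.cons (.leaf 1 [(11,1)]) .nil)))))))))))) (.cons (.leaf 1 [(1,1),(11,1)]) (.cons (.leaf 1 [(1,1),(11,1)]) (.cons (.leaf 1 [(1,1)]) (.cons (.leaf 1 [(1,1)]) (.cons (.keep [1,3,5,8,11] (.node (.cons (.leaf 1 [(4,1),(12,1)]) (.cons (.leaf 1 [(5,1),(12,1)]) (.cons (.leaf 1 [(1,1)]) (.cons (.leaf 1 [(1,1)]) (.cons (.leaf 1 [(4,1),(12,1)]) (.cons (.leaf 1 [(5,1),(12,1)]) (.cons (.leaf 1 [(12,1)]) (.cons (.leaf 1 [(5,1),(12,1)]) (.cons (.leaf 1 [(4,1),(12,1)]) (.cons (.leaf 1 [(12,1)]) .nil)))))))))))) (.cons (.keep [1,3,6,8,11] (.node (.cons (.leaf 1 [(4,1),(12,1)]) (.cons (.leaf 1 [(5,1),(12,1)]) (.cons (.leaf 1 [(1,1)])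 (.cons (.leaf 1 [(1,1)]) (.cons (.leaf 1 [(4,1),(12,1)]) (.cons (.leaf 1 [(5,1),(12,1)]) (.cons (.leaf 1 [(12,1)]) (.cons (.leaf 1 [(5,1),(12,1)]) (.cons (.leaf 1 [(4,1),(12,1)]) (.cons (.leaf 1 [(12,1)]) .nil)))))))))))) (.cons (.keep [7,8,9,10,11] (.node (.cons (.leaf 1 [(4,1),(12,1)]) (.cons (.leaf 1 [(5,1),(12,1)]) (.cons (.leaf 1 [(1,1)]) (.cons (.leaf 1 [(1,1)]) (.cons (.leaf 1 [(4,1),(12,1)]) (.cons (.leaf 1 [(5,1),(12,1)]) (.cons (.leaf 1 [(12,1)]) (.cons (.leaf 1 [(5,1),(12,1)]) (.cons (.leaf 1 [(3,1),(8,1),(12,1)]) (.cons (.leaf 1 [(12,1)]) .nil)))))))))))) (.cons (.keep [0,4,8,10,11] (.node (.cons (.leaf 1 [(4,1),(12,1)]) (.cons (.leaf 1 [(5,1),(12,1)]) (.cons (.leaf 1 [(1,1)]) (.cons (.leaf 1 [(1,1)]) (.cons (.leaf 1 [(4,1),(12,1)]) (.cons (.leaf 1 [(5,1),(12,1)]) (.cons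 (.leaf 1 [(12,1)]) (.cons (.leaf 1 [(5,1),(12,1)]) (.cons (.leaf 1 [(4,1),(12,1)]) (.cons (.leaf 1 [(12,1)]) .nil)))))))))))) .nil)))))))))))) (.cons (.leaf 1 [(9,1),(2,1)]) (.cons (.leaf 1 [(1,1),(11,1)]) (.cons (.leaf 1 [(1,1)]) (.cons (.leaf 1 [(1,1)]) (.cons (.leaf 1 [(7,1),(1,1)]) (.cons (.keep [0,2,8,11,12] (.node (.cons (.keep [4,7,8,9,11] (.node (.cons (.leaf 1 [(4,1),(12,1)]) (.cons (.leaf 1 [(5,1),(12,1)]) (.cons (.leaf 1 [(1,1)]) (.cons (.leaf 1 [(1,1)]) (.cons (.leaf 1 [(4,1),(12,1)]) (.cons (.leaf 1 [(5,1),(12,1)]) (.cons (.leaf 1 [(12,1)]) (.cons (.leaf 1 [(5,1),(12,1)]) (.cons (.leaf 1 [(3,1),(9,1),(12,1)]) (.cons (.leaf 1 [(12,1)]) .nil)))))))))))) (.cons (.keep [5,6,8,9,11] (.node (.cons (.leaf 1 [(4,1),(12,1)]) (.cons (.leaf 1 [(5,1),(12,1)]) (.cons (.leaf 1 [(1,1)])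 (.cons (.leaf 1 [(1,1)]) (.cons (.leaf 1 [(4,1),(12,1)]) (.cons (.leaf 1 [(5,1),(12,1)]) (.cons (.leaf 1 [(12,1)]) (.cons (.leaf 1 [(5,1),(12,1)]) (.cons (.leaf 1 [(1,1),(8,1),(12,1)]) (.cons (.leaf 1 [(12,1)]) .nil)))))))))))) (.cons (.leaf 1 [(1,1),(11,1)]) (.cons (.leaf 1 [(1,1),(11,1)]) (.cons (.leaf 1 [(1,1)]) (.cons (.leaf 1 [(1,1)]) (.cons (.keep [1,5,8,11] (.node (.cons (.leaf 1 [(4,1),(11,1)]) (.cons (.leaf 1 [(5,1),(11,1)]) (.cons (.leaf 1 [(1,1)]) (.cons (.leaf 1 [(1,1)]) (.cons (.leaf 1 [(4,1),(11,1)]) (.cons (.leaf 1 [(5,1),(11,1)]) (.cons (.leaf 1 [(11,1)]) (.cons (.leaf 1 [(5,1),(11,1)]) (.cons (.leaf 1 [(4,1),(11,1)]) (.cons (.leaf 1 [(11,1)]) .nil)))))))))))) (.cons (.keep [5,6,8,9,11] (.node (.cons (.leaf 1 [(3,1),(8,1),(12,1)]) (.cons (.leaf 1 [(5,1),(12,1)])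 (.cons (.leaf 1 [(1,1)]) (.cons (.leaf 1 [(1,1)]) (.cons (.leaf 1 [(4,1),(12,1)]) (.cons (.leaf 1 [(5,1),(12,1)]) (.cons (.leaf 1 [(12,1)]) (.cons (.leaf 1 [(5,1),(12,1)]) (.cons (.leaf 1 [(3,1),(8,1),(12,1)]) (.cons (.leaf 1 [(12,1)]) .nil)))))))))))) (.cons (.keep [4,7,8,9,11] (.node (.cons (.leaf 1 [(3,2),(11,1),(12,1)]) (.cons (.leaf 1 [(5,1),(12,1)]) (.cons (.leaf 1 [(1,1)]) (.cons (.leaf 1 [(1,1)]) (.cons (.leaf 1 [(4,1),(12,1)]) (.cons (.leaf 1 [(5,1),(12,1)]) (.cons (.leaf 1 [(12,1)]) (.cons (.leaf 1 [(5,1),(12,1)]) (.cons (.leaf 1 [(3,1),(9,1),(12,1)]) (.cons (.leaf 1 [(12,1)]) .nil)))))))))))) (.cons (.keep [0,4,9,11] (.node (.cons (.leaf 1 [(4,1),(11,1)]) (.cons (.leaf 1 [(5,1),(11,1)]) (.cons (.leaf 1 [(1,1)]) (.cons (.leaf 1 [(1,1)]) (.cons (.leaf 1 [(4,1),(11,1)])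 (.cons (.leaf 1 [(5,1),(11,1)]) (.cons (.leaf 1 [(11,1)]) (.cons (.leaf 1 [(5,1),(11,1)]) (.cons (.leaf 1 [(4,1),(11,1)]) (.cons (.leaf 1 [(11,1)]) .nil)))))))))))) .nil)))))))))))) .nil)))))))))))

theorem c_31_24_23 : Concl 31 24 z_31_24_23 h_31_24_23 .nd := piece _ hP_nil t_31_24_23 _ _ (by
  decide +kernel)

def z_31_24_28 : F := ⟨0, 0, 0, -1, 1⟩

def h_31_24_28 : List F := [⟨0, 0, 0, -2, 1⟩, ⟨-1, 0, 0, 0, 0⟩, ⟨0, -1, 0, 0, 0⟩, ⟨0, 0, -1, 1,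
  0⟩]

def t_31_24_28 : T := (.node (.cons (.leaf 1 [(9,1)]) (.cons (.keep [2,5,6,9,11] (.node (.cons (.keep [4,7,8,10,12] (.node (.cons (.leaf 1 [(4,1),(12,1)]) (.cons (.leaf 1 [(5,1),(12,1)]) (.cons (.leaf 1 [(1,1)]) (.cons (.leaf 1 [(1,1)]) (.cons (.leaf 1 [(4,1),(12,1)]) (.cons (.leaf 1 [(5,1),(12,1)]) (.cons (.leaf 1 [(12,1)]) (.cons (.leaf 1 [(5,1),(12,1)]) (.cons (.leaf 1 [(3,1),(9,1),(12,1)]) (.cons (.leaf 1 [(12,1)]) .nil)))))))))))) (.cons (.keep [5,6,10,11,12] (.node (.cons (.leaf 1 [(4,1),(12,1)]) (.cons (.leaf 1 [(5,1),(12,1)]) (.cons (.leaf 1 [(1,1)]) (.cons (.leaf 1 [(1,1)]) (.cons (.leaf 1 [(4,1),(12,1)]) (.cons (.leaf 1 [(5,1),(12,1)]) (.cons (.leaf 1 [(12,1)]) (.cons (.leaf 1 [(5,1),(12,1)]) (.cons (.leaf 1 [(4,1),(12,1)]) (.cons (.leaf 1 [(12,1)]) .nil))))))))))))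 (.cons (.leaf 1 [(1,1),(12,1)]) (.cons (.leaf 1 [(1,1),(12,1)]) (.cons (.leaf 1 [(1,1)]) (.cons (.leaf 1 [(1,1)]) (.cons (.keep [1,3,5,9,12] (.node (.cons (.leaf 1 [(4,1),(12,1)]) (.cons (.leaf 1 [(5,1),(12,1)]) (.cons (.leaf 1 [(1,1)]) (.cons (.leaf 1 [(1,1)]) (.cons (.leaf 1 [(4,1),(12,1)]) (.cons (.leaf 1 [(5,1),(12,1)]) (.cons (.leaf 1 [(12,1)]) (.cons (.leaf 1 [(5,1),(12,1)]) (.cons (.leaf 1 [(4,1),(12,1)]) (.cons (.leaf 1 [(12,1)]) .nil)))))))))))) (.cons (.keep [1,3,5,6,9,12] (.node (.cons (.leaf 1 [(4,1),(13,1)]) (.cons (.leaf 1 [(5,1),(13,1)]) (.cons (.leaf 1 [(1,1)]) (.cons (.leaf 1 [(1,1)]) (.cons (.leaf 1 [(4,1),(13,1)]) (.cons (.leaf 1 [(5,1),(13,1)]) (.cons (.leaf 1 [(13,1)]) (.cons (.leaf 1 [(5,1),(13,1)]) (.cons (.leaf 1 [(4,1),(13,1)]) (.cons (.leaf 1 [(13,1)])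 .nil)))))))))))) (.cons (.keep [4,7,9,10,11,12] (.node (.cons (.leaf 1 [(4,1),(13,1)]) (.cons (.leaf 1 [(5,1),(13,1)]) (.cons (.leaf 1 [(1,1)]) (.cons (.leaf 1 [(1,1)]) (.cons (.leaf 1 [(4,1),(13,1)]) (.cons (.leaf 1 [(5,1),(13,1)]) (.cons (.leaf 1 [(13,1)]) (.cons (.leaf 1 [(5,1),(13,1)]) (.cons (.leaf 1 [(3,1),(9,1),(13,1)]) (.cons (.leaf 1 [(13,1)]) .nil)))))))))))) (.cons (.keep [0,4,9,11,12] (.node (.cons (.leaf 1 [(4,1),(12,1)]) (.cons (.leaf 1 [(5,1),(12,1)]) (.cons (.leaf 1 [(1,1)]) (.cons (.leaf 1 [(1,1)]) (.cons (.leaf 1 [(4,1),(12,1)]) (.cons (.leaf 1 [(5,1),(12,1)]) (.cons (.leaf 1 [(12,1)]) (.cons (.leaf 1 [(5,1),(12,1)]) (.cons (.leaf 1 [(4,1),(12,1)]) (.cons (.leaf 1 [(12,1)]) .nil)))))))))))) .nil)))))))))))) (.cons (.leaf 1 [(1,1),(9,1)]) (.cons (.keep [1,5,8,9,10,11]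 (.node (.cons (.keep [3,4,7,11,13] (.node (.cons (.leaf 1 [(4,1),(12,1)]) (.cons (.leaf 1 [(5,1),(12,1)]) (.cons (.leaf 1 [(1,1)]) (.cons (.leaf 1 [(1,1)]) (.cons (.leaf 1 [(4,1),(12,1)]) (.cons (.leaf 1 [(5,1),(12,1)]) (.cons (.leaf 1 [(12,1)]) (.cons (.leaf 1 [(5,1),(12,1)]) (.cons (.leaf 1 [(3,1),(10,1),(12,1)]) (.cons (.leaf 1 [(12,1)]) .nil)))))))))))) (.cons (.keep [3,5,9,11,12,13] (.node (.cons (.leaf 1 [(4,1),(13,1)]) (.cons (.leaf 1 [(5,1),(13,1)]) (.cons (.leaf 1 [(1,1)]) (.cons (.leaf 1 [(1,1)]) (.cons (.leaf 1 [(4,1),(13,1)]) (.cons (.leaf 1 [(5,1),(13,1)]) (.cons (.leaf 1 [(13,1)]) (.cons (.leaf 1 [(5,1),(13,1)]) (.cons (.leaf 1 [(1,1),(9,1),(13,1)]) (.cons (.leaf 1 [(13,1)]) .nil)))))))))))) (.cons (.leaf 1 [(1,1),(13,1)]) (.cons (.leaf 1 [(1,1),(13,1)]) (.cons (.leaf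 1 [(1,1)]) (.cons (.leaf 1 [(1,1)]) (.cons (.keep [1,5,9,10,13] (.node (.cons (.leaf 1 [(4,1),(12,1)]) (.cons (.leaf 1 [(5,1),(12,1)]) (.cons (.leaf 1 [(1,1)]) (.cons (.leaf 1 [(1,1)]) (.cons (.leaf 1 [(4,1),(12,1)]) (.cons (.leaf 1 [(5,1),(12,1)]) (.cons (.leaf 1 [(12,1)]) (.cons (.leaf 1 [(5,1),(12,1)]) (.cons (.leaf 1 [(4,1),(12,1)]) (.cons (.leaf 1 [(12,1)]) .nil)))))))))))) (.cons (.keep [5,6,9,10,11,13] (.node (.cons (.leaf 1 [(3,1),(8,1),(13,1)]) (.cons (.leaf 1 [(5,1),(13,1)]) (.cons (.leaf 1 [(1,1)]) (.cons (.leaf 1 [(1,1)]) (.cons (.leaf 1 [(4,1),(13,1)]) (.cons (.leaf 1 [(5,1),(13,1)]) (.cons (.leaf 1 [(13,1)]) (.cons (.leaf 1 [(5,1),(13,1)]) (.cons (.leaf 1 [(3,1),(8,1),(13,1)]) (.cons (.leaf 1 [(13,1)]) .nil)))))))))))) (.cons (.keep [4,7,9,10,11,13] (.node (.cons (.leaf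 1 [(3,2),(12,1),(13,1)]) (.cons (.leaf 1 [(5,1),(13,1)]) (.cons (.leaf 1 [(1,1)]) (.cons (.leaf 1 [(1,1)]) (.cons (.leaf 1 [(4,1),(13,1)]) (.cons (.leaf 1 [(5,1),(13,1)]) (.cons (.leaf 1 [(13,1)]) (.cons (.leaf 1 [(5,1),(13,1)]) (.cons (.leaf 1 [(3,1),(9,1),(13,1)]) (.cons (.leaf 1 [(13,1)]) .nil)))))))))))) (.cons (.keep [0,4,9,11,13] (.node (.cons (.leaf 1 [(4,1),(12,1)]) (.cons (.leaf 1 [(5,1),(12,1)]) (.cons (.leaf 1 [(1,1)]) (.cons (.leaf 1 [(1,1)]) (.cons (.leaf 1 [(4,1),(12,1)]) (.cons (.leaf 1 [(5,1),(12,1)]) (.cons (.leaf 1 [(12,1)]) (.cons (.leaf 1 [(5,1),(12,1)]) (.cons (.leaf 1 [(4,1),(12,1)]) (.cons (.leaf 1 [(12,1)]) .nil)))))))))))) .nil)))))))))))) (.cons (.leaf 1 [(1,1),(9,1)]) (.cons (.leaf 1 [(1,1),(11,1)]) (.cons (.leaf 1 [(1,1)]) (.cons (.leaf 1 [(1,1)]) (.cons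 (.leaf 1 [(7,1),(1,1)]) (.cons (.keep [0,1,10,11] (.node (.cons (.keep [4,7,8,9,11] (.node (.cons (.leaf 1 [(4,1),(12,1)]) (.cons (.leaf 1 [(5,1),(12,1)]) (.cons (.leaf 1 [(1,1)]) (.cons (.leaf 1 [(1,1)]) (.cons (.leaf 1 [(4,1),(12,1)]) (.cons (.leaf 1 [(5,1),(12,1)]) (.cons (.leaf 1 [(12,1)]) (.cons (.leaf 1 [(5,1),(12,1)]) (.cons (.leaf 1 [(3,1),(9,1),(12,1)]) (.cons (.leaf 1 [(12,1)]) .nil)))))))))))) (.cons (.keep [5,6,8,9,11] (.node (.cons (.leaf 1 [(4,1),(12,1)]) (.cons (.leaf 1 [(5,1),(12,1)]) (.cons (.leaf 1 [(1,1)]) (.cons (.leaf 1 [(1,1)]) (.cons (.leaf 1 [(4,1),(12,1)]) (.cons (.leaf 1 [(5,1),(12,1)]) (.cons (.leaf 1 [(12,1)]) (.cons (.leaf 1 [(5,1),(12,1)]) (.cons (.leaf 1 [(4,1),(12,1)]) (.cons (.leaf 1 [(12,1)]) .nil)))))))))))) (.cons (.leaf 1 [(1,1),(11,1)]) (.cons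 (.leaf 1 [(1,1),(11,1)]) (.cons (.leaf 1 [(1,1)]) (.cons (.leaf 1 [(1,1)]) (.cons (.keep [1,5,8,11] (.node (.cons (.leaf 1 [(4,1),(11,1)]) (.cons (.leaf 1 [(5,1),(11,1)]) (.cons (.leaf 1 [(1,1)]) (.cons (.leaf 1 [(1,1)]) (.cons (.leaf 1 [(4,1),(11,1)]) (.cons (.leaf 1 [(5,1),(11,1)]) (.cons (.leaf 1 [(11,1)]) (.cons (.leaf 1 [(5,1),(11,1)]) (.cons (.leaf 1 [(4,1),(11,1)]) (.cons (.leaf 1 [(11,1)]) .nil)))))))))))) (.cons (.keep [1,5,6,8,11] (.node (.cons (.leaf 1 [(4,1),(12,1)]) (.cons (.leaf 1 [(5,1),(12,1)]) (.cons (.leaf 1 [(1,1)]) (.cons (.leaf 1 [(1,1)]) (.cons (.leaf 1 [(4,1),(12,1)]) (.cons (.leaf 1 [(5,1),(12,1)]) (.cons (.leaf 1 [(12,1)]) (.cons (.leaf 1 [(5,1),(12,1)]) (.cons (.leaf 1 [(4,1),(12,1)]) (.cons (.leaf 1 [(12,1)]) .nil)))))))))))) (.cons (.keep [4,7,8,9,11]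 (.node (.cons (.leaf 1 [(4,1),(12,1)]) (.cons (.leaf 1 [(5,1),(12,1)]) (.cons (.leaf 1 [(1,1)]) (.cons (.leaf 1 [(1,1)]) (.cons (.leaf 1 [(4,1),(12,1)]) (.cons (.leaf 1 [(5,1),(12,1)]) (.cons (.leaf 1 [(12,1)]) (.cons (.leaf 1 [(5,1),(12,1)]) (.cons (.leaf 1 [(3,1),(9,1),(12,1)]) (.cons (.leaf 1 [(12,1)]) .nil)))))))))))) (.cons (.keep [0,4,9,11] (.node (.cons (.leaf 1 [(4,1),(11,1)]) (.cons (.leaf 1 [(5,1),(11,1)]) (.cons (.leaf 1 [(1,1)]) (.cons (.leaf 1 [(1,1)]) (.cons (.leaf 1 [(4,1),(11,1)]) (.cons (.leaf 1 [(5,1),(11,1)]) (.cons (.leaf 1 [(11,1)]) (.cons (.leaf 1 [(5,1),(11,1)]) (.cons (.leaf 1 [(4,1),(11,1)]) (.cons (.leaf 1 [(11,1)]) .nil)))))))))))) .nil)))))))))))) .nil)))))))))))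

theorem c_31_24_28 : Concl 31 24 z_31_24_28 h_31_24_28 .nd := piece _ hP_nil t_31_24_28 _ _ (by
  decide +kernel)

def z_31_24_6 : F := ⟨1, -1, -1, 0, 2⟩

def h_31_24_6 : List F := [⟨1, 0, 0, 0, 0⟩, ⟨0, 0, 1, -1, 0⟩, ⟨0, 1, -1, 0, 0⟩, ⟨0, -1, 0, 0, 1⟩]

def t_31_24_6 : T := (.node (.cons (.keep [2,7,9,10] (.leaf 0 [(0,0)])) (.cons (.keep [2,5,6,9,10] (.leaf 0 [(1,0)])) (.cons (.keep [1,3,7,9,11] (.node (.cons (.leaf 1 [(11,1),(10,2),(12,2)]) (.cons (.keep [5,9,10,11,12] (.node (.cons (.keep [4,7,10,11,12] (.node (.cons (.leaf 1 [(3,1),(4,1)]) (.cons (.leaf 1 [(3,1),(5,1)]) (.cons (.leaf 1 [(4,1),(8,1)]) (.cons (.leaf 1 [(5,1),(8,1)]) (.cons (.leaf 1 [(4,1),(8,1)]) (.cons (.leaf 1 [(5,1),(8,1)]) (.cons (.leaf 1 [(8,1)]) (.cons (.leaf 1 [(8,1),(5,1)]) (.cons (.leaf 1 [(8,1),(4,1)])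 (.cons (.leaf 1 [(8,1)]) .nil)))))))))))) (.cons (.keep [5,6,10,11,12] (.node (.cons (.leaf 1 [(4,2)]) (.cons (.leaf 1 [(4,1),(5,1)]) (.cons (.leaf 1 [(4,1),(8,1)]) (.cons (.leaf 1 [(5,1),(8,1)]) (.cons (.leaf 1 [(4,1),(8,1)]) (.cons (.leaf 1 [(5,1),(8,1)]) (.cons (.leaf 1 [(8,1)]) (.cons (.leaf 1 [(5,1),(8,1)]) (.cons (.leaf 1 [(8,1),(4,1)]) (.cons (.leaf 1 [(8,1)]) .nil)))))))))))) (.cons (.leaf 1 [(1,1),(4,1)]) (.cons (.leaf 1 [(1,1),(5,1)]) (.cons (.leaf 1 [(1,1),(4,1),(10,1)]) (.cons (.leaf 1 [(1,1),(5,1),(10,1)]) (.cons (.keep [1,5,8,10,11] (.node (.cons (.leaf 1 [(4,1)]) (.cons (.leaf 1 [(5,1)]) (.cons (.leaf 1 [(4,1)]) (.cons (.leaf 1 [(5,1)]) (.cons (.leaf 1 [(4,1)]) (.cons (.leaf 1 [(5,1)]) (.cons (.leaf 1 []) (.cons (.leaf 1 [(5,1)]) (.cons (.leaf 1 [(4,1)]) (.cons (.leaf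 1 []) .nil)))))))))))) (.cons (.keep [1,5,9,10,11] (.node (.cons (.leaf 1 [(8,1),(4,2)]) (.cons (.leaf 1 [(8,1),(4,1),(5,1)]) (.cons (.leaf 1 [(4,1),(9,1)]) (.cons (.leaf 1 [(5,1),(9,1)]) (.cons (.leaf 1 [(4,2)]) (.cons (.leaf 1 [(5,1),(4,1)]) (.cons (.leaf 1 [(9,1)]) (.cons (.leaf 1 [(9,1),(5,1)]) (.cons (.leaf 1 [(9,1),(4,1)]) (.cons (.leaf 1 [(9,1)]) .nil)))))))))))) (.cons (.keep [4,9,10,11,12] (.node (.cons (.leaf 1 [(3,1)]) (.cons (.leaf 1 [(8,1),(5,1)]) (.cons (.leaf 1 [(3,1)]) (.cons (.leaf 1 [(5,1),(8,1)]) (.cons (.leaf 1 []) (.cons (.leaf 1 [(5,1),(8,1)]) (.cons (.leaf 1 [(3,1)]) (.cons (.leaf 1 [(3,1),(5,1)]) (.cons (.leaf 1 [(3,1)]) (.cons (.leaf 1 [(8,1)]) .nil)))))))))))) (.cons (.keep [0,4,8,10,12] (.node (.cons (.leaf 1 [(4,1)]) (.cons (.leaf 1 [(5,1)]) (.cons (.leaf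 1 [(4,1)]) (.cons (.leaf 1 [(5,1)]) (.cons (.leaf 1 [(4,1)]) (.cons (.leaf 1 [(5,1)]) (.cons (.leaf 1 []) (.cons (.leaf 1 [(5,1)]) (.cons (.leaf 1 [(4,1)]) (.cons (.leaf 1 []) .nil)))))))))))) .nil)))))))))))) (.cons (.leaf 1 [(1,2),(10,1),(12,1)]) (.cons (.keep [1,3,9,10,12] (.node (.cons (.keep [4,7,9,11,12] (.node (.cons (.leaf 1 [(3,1),(4,1)]) (.cons (.leaf 1 [(3,1),(5,1)]) (.cons (.leaf 1 [(4,1),(8,1)]) (.cons (.leaf 1 [(5,1),(8,1)]) (.cons (.leaf 1 [(4,1),(8,1)]) (.cons (.leaf 1 [(5,1),(8,1)]) (.cons (.leaf 1 [(8,1)]) (.cons (.leaf 1 [(8,1),(5,1)]) (.cons (.leaf 1 [(8,1),(4,1)]) (.cons (.leaf 1 [(8,1)]) .nil)))))))))))) (.cons (.keep [5,6,9,11,12] (.node (.cons (.leaf 1 [(4,2)]) (.cons (.leaf 1 [(4,1),(5,1)]) (.cons (.leaf 1 [(4,1),(8,1)]) (.cons (.leaf 1 [(5,1),(8,1)]) (.cons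 (.leaf 1 [(4,1),(8,1)]) (.cons (.leaf 1 [(5,1),(8,1)]) (.cons (.leaf 1 [(8,1)]) (.cons (.leaf 1 [(5,1),(8,1)]) (.cons (.leaf 1 [(8,1),(4,1)]) (.cons (.leaf 1 [(8,1)]) .nil)))))))))))) (.cons (.leaf 1 [(1,1),(4,1)]) (.cons (.leaf 1 [(1,1),(5,1)]) (.cons (.leaf 1 [(1,1),(4,1),(11,1)]) (.cons (.leaf 1 [(1,1),(5,1),(11,1)]) (.cons (.keep [1,5,9,10,11] (.node (.cons (.leaf 1 [(4,1)]) (.cons (.leaf 1 [(5,1)]) (.cons (.leaf 1 [(4,1)]) (.cons (.leaf 1 [(5,1)]) (.cons (.leaf 1 [(4,1)]) (.cons (.leaf 1 [(5,1)]) (.cons (.leaf 1 []) (.cons (.leaf 1 [(5,1)]) (.cons (.leaf 1 [(4,1)]) (.cons (.leaf 1 []) .nil)))))))))))) (.cons (.keep [5,9,10,11,12] (.node (.cons (.leaf 1 [(8,1),(4,1)]) (.cons (.leaf 1 [(8,1),(5,1)]) (.cons (.leaf 1 [(4,1),(8,1)]) (.cons (.leaf 1 [(5,1),(8,1)]) (.cons (.leaf 1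 [(4,2)]) (.cons (.leaf 1 [(5,1),(4,1)]) (.cons (.leaf 1 [(8,1)]) (.cons (.leaf 1 [(8,1),(5,1)]) (.cons (.leaf 1 [(8,1),(4,1)]) (.cons (.leaf 1 [(8,1)]) .nil)))))))))))) (.cons (.keep [4,9,10,11,12] (.node (.cons (.leaf 1 [(3,1)]) (.cons (.leaf 1 [(8,1),(5,1)]) (.cons (.leaf 1 [(3,1)]) (.cons (.leaf 1 [(5,1),(8,1)]) (.cons (.leaf 1 []) (.cons (.leaf 1 [(5,1),(8,1)]) (.cons (.leaf 1 [(3,1)]) (.cons (.leaf 1 [(3,1),(5,1)]) (.cons (.leaf 1 [(3,1)]) (.cons (.leaf 1 [(8,1)]) .nil)))))))))))) (.cons (.keep [0,4,10,11,12] (.node (.cons (.leaf 1 [(4,1)]) (.cons (.leaf 1 [(5,1)]) (.cons (.leaf 1 [(4,1)]) (.cons (.leaf 1 [(5,1)]) (.cons (.leaf 1 [(4,1)]) (.cons (.leaf 1 [(5,1)]) (.cons (.leaf 1 []) (.cons (.leaf 1 [(5,1)]) (.cons (.leaf 1 [(4,1)]) (.cons (.leaf 1 []) .nil)))))))))))) .nil))))))))))))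 (.cons (.leaf 1 [(11,1),(1,2)]) (.cons (.leaf 1 [(11,1),(1,2)]) (.cons (.leaf 1 [(11,1),(10,2),(1,2)]) (.cons (.leaf 1 [(11,1),(10,2),(1,2)]) (.cons (.leaf 1 [(11,1),(10,2),(7,2),(1,2)]) (.cons (.keep [0,1,9,10,11] (.node (.cons (.keep [4,7,9,11,12] (.node (.cons (.leaf 1 [(3,1),(4,1)]) (.cons (.leaf 1 [(3,1),(5,1)]) (.cons (.leaf 1 [(4,1),(8,1)]) (.cons (.leaf 1 [(5,1),(8,1)]) (.cons (.leaf 1 [(4,1),(8,1)]) (.cons (.leaf 1 [(5,1),(8,1)]) (.cons (.leaf 1 [(8,1)]) (.cons (.leaf 1 [(8,1),(5,1)]) (.cons (.leaf 1 [(8,1),(4,1)]) (.cons (.leaf 1 [(8,1)]) .nil)))))))))))) (.cons (.keep [5,6,9,11,12] (.node (.cons (.leaf 1 [(4,2)]) (.cons (.leaf 1 [(4,1),(5,1)]) (.cons (.leaf 1 [(4,1),(8,1)]) (.cons (.leaf 1 [(5,1),(8,1)]) (.cons (.leaf 1 [(4,1),(8,1)]) (.cons (.leaf 1 [(5,1),(8,1)]) (.cons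 (.leaf 1 [(8,1)]) (.cons (.leaf 1 [(5,1),(8,1)]) (.cons (.leaf 1 [(8,1),(4,1)]) (.cons (.leaf 1 [(8,1)]) .nil)))))))))))) (.cons (.leaf 1 [(1,1),(4,1)]) (.cons (.leaf 1 [(1,1),(5,1)]) (.cons (.leaf 1 [(1,1),(4,1),(11,1)]) (.cons (.leaf 1 [(1,1),(5,1),(11,1)]) (.cons (.keep [1,5,8,11] (.node (.cons (.leaf 1 [(4,1)]) (.cons (.leaf 1 [(5,1)]) (.cons (.leaf 1 [(4,1)]) (.cons (.leaf 1 [(5,1)]) (.cons (.leaf 1 [(4,1)]) (.cons (.leaf 1 [(5,1)]) (.cons (.leaf 1 []) (.cons (.leaf 1 [(5,1)]) (.cons (.leaf 1 [(4,1)]) (.cons (.leaf 1 []) .nil)))))))))))) (.cons (.keep [1,5,6,8,11] (.node (.cons (.leaf 1 [(8,1),(4,2)]) (.cons (.leaf 1 [(8,1),(4,1),(5,1)]) (.cons (.leaf 1 [(4,1),(9,1)]) (.cons (.leaf 1 [(5,1),(9,1)]) (.cons (.leaf 1 [(4,2)]) (.cons (.leaf 1 [(5,1),(4,1)]) (.cons (.leaf 1 [(9,1)])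 (.cons (.leaf 1 [(9,1),(5,1)]) (.cons (.leaf 1 [(9,1),(4,1)]) (.cons (.leaf 1 [(9,1)]) .nil)))))))))))) (.cons (.keep [4,7,8,9,11] (.node (.cons (.leaf 1 [(3,1)]) (.cons (.leaf 1 [(8,1),(5,1)]) (.cons (.leaf 1 [(3,1)]) (.cons (.leaf 1 [(5,1),(8,1)]) (.cons (.leaf 1 []) (.cons (.leaf 1 [(5,1),(8,1)]) (.cons (.leaf 1 [(3,1)]) (.cons (.leaf 1 [(3,1),(5,1)]) (.cons (.leaf 1 [(3,1)]) (.cons (.leaf 1 [(8,1)]) .nil)))))))))))) (.cons (.keep [0,4,9,11] (.node (.cons (.leaf 1 [(4,1)]) (.cons (.leaf 1 [(5,1)]) (.cons (.leaf 1 [(4,1)]) (.cons (.leaf 1 [(5,1)]) (.cons (.leaf 1 [(4,1)]) (.cons (.leaf 1 [(5,1)]) (.cons (.leaf 1 []) (.cons (.leaf 1 [(5,1)]) (.cons (.leaf 1 [(4,1)]) (.cons (.leaf 1 []) .nil)))))))))))) .nil)))))))))))) .nil)))))))))))) (.cons (.keep [1,3,5,6,9,11] (.leaf 0 [(2,0)]))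 (.cons (.keep [1,4,7,10,11] (.leaf 0 [(3,0)])) (.cons (.keep [1,5,6,10,11] (.leaf 0 [(4,0)])) (.cons (.leaf 1 [(10,1),(9,2),(1,2)]) (.cons (.leaf 1 [(10,1),(9,2),(6,1),(1,2)]) (.cons (.leaf 1 [(10,1),(1,2),(7,3),(9,2)]) (.cons (.keep [0,1,9,10,11] (.node (.cons (.keep [4,7,9,10,11] (.node (.cons (.leaf 1 [(3,1),(4,1)]) (.cons (.leaf 1 [(3,1),(5,1)]) (.cons (.leaf 1 [(4,1),(8,1)]) (.cons (.leaf 1 [(5,1),(8,1)]) (.cons (.leaf 1 [(4,1),(8,1)]) (.cons (.leaf 1 [(5,1),(8,1)]) (.cons (.leaf 1 [(8,1)]) (.cons (.leaf 1 [(8,1),(5,1)]) (.cons (.leaf 1 [(8,1),(4,1)]) (.cons (.leaf 1 [(8,1)]) .nil)))))))))))) (.cons (.keep [5,6,9,10,11] (.node (.cons (.leaf 1 [(4,2)]) (.cons (.leaf 1 [(4,1),(5,1)]) (.cons (.leaf 1 [(4,1),(8,1)]) (.cons (.leaf 1 [(5,1),(8,1)]) (.cons (.leaf 1 [(4,1),(8,1)])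 (.cons (.leaf 1 [(5,1),(8,1)]) (.cons (.leaf 1 [(8,1)]) (.cons (.leaf 1 [(5,1),(8,1)]) (.cons (.leaf 1 [(8,1),(4,1)]) (.cons (.leaf 1 [(8,1)]) .nil)))))))))))) (.cons (.leaf 1 [(1,1),(4,1)]) (.cons (.leaf 1 [(1,1),(5,1)]) (.cons (.leaf 1 [(1,1),(4,1),(10,1)]) (.cons (.leaf 1 [(1,1),(5,1),(10,1)]) (.cons (.keep [1,5,8,10] (.node (.cons (.leaf 1 [(4,1)]) (.cons (.leaf 1 [(5,1)]) (.cons (.leaf 1 [(4,1)]) (.cons (.leaf 1 [(5,1)]) (.cons (.leaf 1 [(4,1)]) (.cons (.leaf 1 [(5,1)]) (.cons (.leaf 1 []) (.cons (.leaf 1 [(5,1)]) (.cons (.leaf 1 [(4,1)]) (.cons (.leaf 1 []) .nil)))))))))))) (.cons (.keep [1,5,6,8,10] (.node (.cons (.leaf 1 [(8,1),(4,2)]) (.cons (.leaf 1 [(8,1),(4,1),(5,1)]) (.cons (.leaf 1 [(4,1),(9,1)]) (.cons (.leaf 1 [(5,1),(9,1)]) (.cons (.leaf 1 [(4,2)]) (.cons (.leaf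 1 [(5,1),(4,1)]) (.cons (.leaf 1 [(9,1)]) (.cons (.leaf 1 [(9,1),(5,1)]) (.cons (.leaf 1 [(9,1),(4,1)]) (.cons (.leaf 1 [(9,1)]) .nil)))))))))))) (.cons (.keep [4,7,8,9,10] (.node (.cons (.leaf 1 [(3,1)]) (.cons (.leaf 1 [(8,1),(5,1)]) (.cons (.leaf 1 [(3,1)]) (.cons (.leaf 1 [(5,1),(8,1)]) (.cons (.leaf 1 []) (.cons (.leaf 1 [(5,1),(8,1)]) (.cons (.leaf 1 [(3,1)]) (.cons (.leaf 1 [(3,1),(5,1)]) (.cons (.leaf 1 [(3,1)]) (.cons (.leaf 1 [(8,1)]) .nil)))))))))))) (.cons (.keep [0,4,9,10] (.node (.cons (.leaf 1 [(4,1)]) (.cons (.leaf 1 [(5,1)]) (.cons (.leaf 1 [(4,1)]) (.cons (.leaf 1 [(5,1)]) (.cons (.leaf 1 [(4,1)]) (.cons (.leaf 1 [(5,1)]) (.cons (.leaf 1 []) (.cons (.leaf 1 [(5,1)]) (.cons (.leaf 1 [(4,1)]) (.cons (.leaf 1 []) .nil)))))))))))) .nil)))))))))))) .nil)))))))))))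

theorem c_31_24_6 : Concl 31 24 z_31_24_6 h_31_24_6 .nd := piece _ (hP_cons E62.c_31_24_3 (hP_cons
  E62.c_31_24_0 (hP_cons E62.c_31_24_1 (hP_cons E62.c_31_24_4 (hP_cons E62.c_31_24_2 hP_nil)))))
  t_31_24_6 _ _ (by decide +kernel)

def z_31_24_14 : F := ⟨1, 0, -2, 0, 2⟩

def h_31_24_14 : List F := [⟨1, 0, 0, 0, 0⟩, ⟨0, 0, 1, -1, 0⟩, ⟨0, 0, -1, 0, 1⟩, ⟨0, -1, 1, 0, 0⟩]

def t_31_24_14 : T := (.node (.cons (.keep [3,7,9,11] (.node (.cons (.leaf 1 [(4,1),(9,1),(11,2)]) (.cons (.keep [2,5,9,10,11] (.node (.cons (.keep [4,7,8,10,11] (.node (.cons (.leaf 1 [(3,2),(4,1)]) (.cons (.leaf 1 [(3,2),(5,1)]) (.cons (.leaf 1 [(4,1),(8,2)]) (.cons (.leaf 1 [(5,1),(8,2)]) (.cons (.leaf 1 [(8,2),(4,1)]) (.cons (.leaf 1 [(8,2),(5,1)]) (.cons (.leaf 1 [(8,2)]) (.cons (.leaf 1 [(8,2),(5,1)]) (.cons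 (.leaf 1 [(8,2),(4,1)]) (.cons (.leaf 1 [(8,2)]) .nil)))))))))))) (.cons (.keep [5,6,8,10,11,12] (.node (.cons (.leaf 1 [(4,3)]) (.cons (.leaf 1 [(4,2),(5,1)]) (.cons (.leaf 1 [(4,1),(8,2)]) (.cons (.leaf 1 [(5,1),(8,2)]) (.cons (.leaf 1 [(4,1),(8,2)]) (.cons (.leaf 1 [(5,1),(8,2)]) (.cons (.leaf 1 [(8,2)]) (.cons (.leaf 1 [(8,2),(5,1)]) (.cons (.leaf 1 [(8,2),(4,1)]) (.cons (.leaf 1 [(8,2)]) .nil)))))))))))) (.cons (.leaf 1 [(1,1),(4,2)]) (.cons (.leaf 1 [(1,1),(5,2)]) (.cons (.leaf 1 [(1,1),(4,2),(10,1)]) (.cons (.leaf 1 [(1,1),(5,2),(10,1)]) (.cons (.keep [1,5,9,10,11] (.node (.cons (.leaf 1 [(4,1)]) (.cons (.leaf 1 [(5,1)]) (.cons (.leaf 1 [(4,1)]) (.cons (.leaf 1 [(5,1)]) (.cons (.leaf 1 [(4,1)]) (.cons (.leaf 1 [(5,1)]) (.cons (.leaf 1 []) (.cons (.leaf 1 [(5,1)]) (.cons (.leaf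 1 [(4,1)]) (.cons (.leaf 1 []) .nil)))))))))))) (.cons (.keep [6,9,10,11,12] (.node (.cons (.leaf 1 [(11,2),(4,3)]) (.cons (.leaf 1 [(11,2),(5,3)]) (.cons (.leaf 1 [(4,3),(11,2)]) (.cons (.leaf 1 [(1,3),(11,2),(10,3)]) (.cons (.leaf 1 [(4,3)]) (.cons (.leaf 1 [(5,1),(4,2)]) (.cons (.leaf 1 [(11,2)]) (.cons (.leaf 1 [(5,3),(11,2)]) (.cons (.leaf 1 [(11,2),(4,3)]) (.cons (.leaf 1 [(11,2)]) .nil)))))))))))) (.cons (.keep [1,7,9,10,11] (.node (.cons (.leaf 1 [(3,2),(8,1)]) (.cons (.leaf 1 [(3,2),(8,2),(5,1)]) (.cons (.leaf 1 [(3,1),(10,1),(8,1)]) (.cons (.leaf 1 [(5,1),(10,2),(8,2)]) (.cons (.leaf 1 [(10,1),(8,1)]) (.cons (.leaf 1 [(10,2),(8,2),(5,1)]) (.cons (.leaf 1 [(3,2)]) (.cons (.leaf 1 [(3,2),(5,1)]) (.cons (.leaf 1 [(7,1),(3,2)]) (.cons (.leaf 1 [(10,2),(8,2)]) .nil))))))))))))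 (.cons (.keep [0,4,9,10,12] (.node (.cons (.leaf 1 [(4,1)]) (.cons (.leaf 1 [(5,1)]) (.cons (.leaf 1 [(4,1)]) (.cons (.leaf 1 [(5,1)]) (.cons (.leaf 1 [(4,1)]) (.cons (.leaf 1 [(5,1)]) (.cons (.leaf 1 []) (.cons (.leaf 1 [(5,1)]) (.cons (.leaf 1 [(4,1)]) (.cons (.leaf 1 []) .nil)))))))))))) .nil)))))))))))) (.cons (.leaf 1 [(1,2),(9,1),(11,1)]) (.cons (.keep [3,5,8,9,11] (.node (.cons (.keep [4,7,8,10,11] (.node (.cons (.leaf 1 [(3,2),(4,1)]) (.cons (.leaf 1 [(3,2),(5,1)]) (.cons (.leaf 1 [(4,1),(8,2)]) (.cons (.leaf 1 [(5,1),(8,2)]) (.cons (.leaf 1 [(8,2),(4,1)]) (.cons (.leaf 1 [(8,2),(5,1)]) (.cons (.leaf 1 [(8,2)]) (.cons (.leaf 1 [(8,2),(5,1)]) (.cons (.leaf 1 [(8,2),(4,1)]) (.cons (.leaf 1 [(8,2)]) .nil)))))))))))) (.cons (.keep [8,9,10,11,12] (.node (.cons (.leaf 1 [(4,3)])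 (.cons (.leaf 1 [(4,2),(5,1)]) (.cons (.leaf 1 [(4,3),(8,2)]) (.cons (.leaf 1 [(5,3),(8,2)]) (.cons (.leaf 1 [(4,3),(8,2)]) (.cons (.leaf 1 [(5,3),(8,2)]) (.cons (.leaf 1 [(8,2)]) (.cons (.leaf 1 [(8,2),(5,3)]) (.cons (.leaf 1 [(8,2),(4,3)]) (.cons (.leaf 1 [(8,2)]) .nil)))))))))))) (.cons (.leaf 1 [(1,1),(4,2)]) (.cons (.leaf 1 [(1,1),(5,2)]) (.cons (.leaf 1 [(1,1),(4,2),(11,1)]) (.cons (.leaf 1 [(1,1),(5,2),(11,1)]) (.cons (.keep [1,5,8,9,11] (.node (.cons (.leaf 1 [(4,1)]) (.cons (.leaf 1 [(5,1)]) (.cons (.leaf 1 [(4,1)]) (.cons (.leaf 1 [(5,1)]) (.cons (.leaf 1 [(4,1)]) (.cons (.leaf 1 [(5,1)]) (.cons (.leaf 1 []) (.cons (.leaf 1 [(5,1)]) (.cons (.leaf 1 [(4,1)]) (.cons (.leaf 1 []) .nil)))))))))))) (.cons (.keep [1,6,8,9,11] (.node (.cons (.leaf 1 [(8,2),(4,3)]) (.cons (.leaf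 1 [(8,2),(4,2),(5,1)]) (.cons (.leaf 1 [(4,3),(10,2)]) (.cons (.leaf 1 [(5,3),(10,2)]) (.cons (.leaf 1 [(4,3)]) (.cons (.leaf 1 [(5,1),(4,2)]) (.cons (.leaf 1 [(10,2)]) (.cons (.leaf 1 [(5,3),(10,2)]) (.cons (.leaf 1 [(10,2),(4,3)]) (.cons (.leaf 1 [(10,2)]) .nil)))))))))))) (.cons (.keep [7,8,9,11,12] (.node (.cons (.leaf 2 [(3,3),(9,1)]) (.cons (.leaf 1 [(9,2),(5,3)]) (.cons (.leaf 2 [(3,3),(9,1)]) (.cons (.leaf 1 [(5,3),(9,2)]) (.cons (.leaf 2 [(9,1)]) (.cons (.leaf 1 [(9,2),(5,3)]) (.cons (.leaf 1 [(3,2)]) (.cons (.leaf 1 [(3,2),(5,1)]) (.cons (.leaf 1 [(7,1),(3,2)]) (.cons (.leaf 1 [(9,2)]) .nil)))))))))))) (.cons (.keep [0,4,9,11,12] (.node (.cons (.leaf 1 [(4,1)]) (.cons (.leaf 1 [(5,1)]) (.cons (.leaf 1 [(4,1)]) (.cons (.leaf 1 [(5,1)]) (.cons (.leaf 1 [(4,1)]) (.cons (.leaf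 1 [(5,1)]) (.cons (.leaf 1 []) (.cons (.leaf 1 [(5,1)]) (.cons (.leaf 1 [(4,1)]) (.cons (.leaf 1 []) .nil)))))))))))) .nil)))))))))))) (.cons (.leaf 1 [(10,2),(1,3)]) (.cons (.leaf 1 [(10,2),(1,3)]) (.cons (.leaf 1 [(10,2),(9,3),(1,3)]) (.cons (.leaf 1 [(10,2),(9,3),(1,3)]) (.cons (.leaf 1 [(10,2),(9,3),(7,3),(1,3)]) (.cons (.keep [0,2,8,9,11] (.node (.cons (.keep [4,7,8,9,11] (.node (.cons (.leaf 1 [(3,2),(4,1)]) (.cons (.leaf 1 [(3,2),(5,1)]) (.cons (.leaf 1 [(4,1),(8,2)]) (.cons (.leaf 1 [(5,1),(8,2)]) (.cons (.leaf 1 [(8,2),(4,1)]) (.cons (.leaf 1 [(8,2),(5,1)]) (.cons (.leaf 1 [(8,2)]) (.cons (.leaf 1 [(8,2),(5,1)]) (.cons (.leaf 1 [(8,2),(4,1)]) (.cons (.leaf 1 [(8,2)]) .nil)))))))))))) (.cons (.keep [5,6,8,9,11] (.node (.cons (.leaf 1 [(4,3)]) (.cons (.leaf 1 [(4,2),(5,1)])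 (.cons (.leaf 1 [(4,1),(8,2)]) (.cons (.leaf 1 [(5,1),(8,2)]) (.cons (.leaf 1 [(4,1),(8,2)]) (.cons (.leaf 1 [(5,1),(8,2)]) (.cons (.leaf 1 [(8,2)]) (.cons (.leaf 1 [(8,2),(5,1)]) (.cons (.leaf 1 [(8,2),(4,1)]) (.cons (.leaf 1 [(8,2)]) .nil)))))))))))) (.cons (.leaf 1 [(1,1),(4,2)]) (.cons (.leaf 1 [(1,1),(5,2)]) (.cons (.leaf 1 [(1,1),(4,2),(11,1)]) (.cons (.leaf 1 [(1,1),(5,2),(11,1)]) (.cons (.keep [1,5,8,11] (.node (.cons (.leaf 1 [(4,1)]) (.cons (.leaf 1 [(5,1)]) (.cons (.leaf 1 [(4,1)]) (.cons (.leaf 1 [(5,1)]) (.cons (.leaf 1 [(4,1)]) (.cons (.leaf 1 [(5,1)]) (.cons (.leaf 1 []) (.cons (.leaf 1 [(5,1)]) (.cons (.leaf 1 [(4,1)]) (.cons (.leaf 1 []) .nil)))))))))))) (.cons (.keep [5,6,8,9,11] (.node (.cons (.leaf 1 [(8,2),(4,1)]) (.cons (.leaf 1 [(8,2),(5,1)]) (.cons (.leaf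 1 [(4,1),(8,2)]) (.cons (.leaf 1 [(5,1),(8,2)]) (.cons (.leaf 1 [(4,3)]) (.cons (.leaf 1 [(5,1),(4,2)]) (.cons (.leaf 1 [(8,2)]) (.cons (.leaf 1 [(5,1),(8,2)]) (.cons (.leaf 1 [(8,2),(4,1)]) (.cons (.leaf 1 [(8,2)]) .nil)))))))))))) (.cons (.keep [4,7,8,9,11] (.node (.cons (.leaf 1 [(3,1),(8,1)]) (.cons (.leaf 1 [(8,2),(5,1)]) (.cons (.leaf 1 [(3,1),(8,1)]) (.cons (.leaf 1 [(5,1),(8,2)]) (.cons (.leaf 1 [(8,1)]) (.cons (.leaf 1 [(8,2),(5,1)]) (.cons (.leaf 1 [(3,2)]) (.cons (.leaf 1 [(3,2),(5,1)]) (.cons (.leaf 1 [(7,1),(3,2)]) (.cons (.leaf 1 [(8,2)]) .nil)))))))))))) (.cons (.keep [0,4,9,11] (.node (.cons (.leaf 1 [(4,1)]) (.cons (.leaf 1 [(5,1)]) (.cons (.leaf 1 [(4,1)]) (.cons (.leaf 1 [(5,1)]) (.cons (.leaf 1 [(4,1)]) (.cons (.leaf 1 [(5,1)]) (.cons (.leaf 1 []) (.cons (.leaf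 1 [(5,1)]) (.cons (.leaf 1 [(4,1)]) (.cons (.leaf 1 []) .nil)))))))))))) .nil)))))))))))) .nil)))))))))))) (.cons (.keep [3,5,6,9,11] (.leaf 0 [(0,0)])) (.cons (.keep [1,7,9,10,11] (.leaf 0 [(1,0)])) (.cons (.keep [1,5,6,10,11] (.leaf 0 [(2,0)])) (.cons (.keep [1,2,4,7,10] (.node (.cons (.leaf 1 [(11,1),(9,1)]) (.cons (.keep [2,5,9,10,11] (.node (.cons (.keep [4,7,8,11,12] (.node (.cons (.leaf 1 [(3,1),(4,1)]) (.cons (.leaf 1 [(3,1),(5,1)]) (.cons (.leaf 1 [(4,1),(8,1)]) (.cons (.leaf 1 [(5,1),(8,1)]) (.cons (.leaf 1 [(4,1),(8,1)]) (.cons (.leaf 1 [(5,1),(8,1)]) (.cons (.leaf 1 [(8,1)]) (.cons (.leaf 1 [(8,1),(5,1)]) (.cons (.leaf 1 [(8,1),(4,1)]) (.cons (.leaf 1 [(8,1)]) .nil)))))))))))) (.cons (.keep [5,6,8,10,11,12] (.node (.cons (.leaf 1 [(4,2)]) (.cons (.leaf 1 [(4,1),(5,1)])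 (.cons (.leaf 1 [(4,1),(8,1)]) (.cons (.leaf 1 [(5,1),(8,1)]) (.cons (.leaf 1 [(4,1),(8,1)]) (.cons (.leaf 1 [(5,1),(8,1)]) (.cons (.leaf 1 [(8,1)]) (.cons (.leaf 1 [(5,1),(8,1)]) (.cons (.leaf 1 [(8,1),(4,1)]) (.cons (.leaf 1 [(8,1)]) .nil)))))))))))) (.cons (.leaf 1 [(1,1),(4,1)]) (.cons (.leaf 1 [(1,1),(5,1)]) (.cons (.leaf 1 [(1,1),(4,1),(12,1)]) (.cons (.leaf 1 [(1,1),(5,1),(12,1)]) (.cons (.keep [1,5,9,11,12] (.node (.cons (.leaf 1 [(4,1)]) (.cons (.leaf 1 [(5,1)]) (.cons (.leaf 1 [(4,1)]) (.cons (.leaf 1 [(5,1)]) (.cons (.leaf 1 [(4,1)]) (.cons (.leaf 1 [(5,1)]) (.cons (.leaf 1 []) (.cons (.leaf 1 [(5,1)]) (.cons (.leaf 1 [(4,1)]) (.cons (.leaf 1 []) .nil)))))))))))) (.cons (.keep [6,9,10,11,12] (.node (.cons (.leaf 2 [(10,1),(4,3)]) (.cons (.leaf 2 [(10,1),(4,1),(5,2)])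 (.cons (.leaf 1 [(4,1),(10,1),(9,1)]) (.cons (.leaf 1 [(4,1),(5,1),(10,1),(0,1)]) (.cons (.leaf 1 [(4,2)]) (.cons (.leaf 1 [(5,1),(4,1)]) (.cons (.leaf 1 [(10,1),(9,1)]) (.cons (.leaf 1 [(10,1),(5,1),(0,1)]) (.cons (.leaf 1 [(10,1),(0,1),(4,3)]) (.cons (.leaf 1 [(10,1),(0,1),(4,1)]) .nil)))))))))))) (.cons (.keep [1,7,9,11,12] (.node (.cons (.leaf 1 [(3,1)]) (.cons (.leaf 1 [(3,1),(8,1),(5,1)]) (.cons (.leaf 1 [(3,1)]) (.cons (.leaf 1 [(5,1),(10,1),(8,1)]) (.cons (.leaf 1 []) (.cons (.leaf 1 [(5,1),(8,1),(10,1)]) (.cons (.leaf 1 [(3,1)]) (.cons (.leaf 1 [(3,1),(5,1)]) (.cons (.leaf 1 [(3,1)]) (.cons (.leaf 1 [(10,1),(8,1)]) .nil)))))))))))) (.cons (.keep [0,4,9,10,12] (.node (.cons (.leaf 1 [(4,1)]) (.cons (.leaf 1 [(5,1)]) (.cons (.leaf 1 [(4,1)]) (.cons (.leaf 1 [(5,1)]) (.cons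 (.leaf 1 [(4,1)]) (.cons (.leaf 1 [(5,1)]) (.cons (.leaf 1 []) (.cons (.leaf 1 [(5,1)]) (.cons (.leaf 1 [(4,1)]) (.cons (.leaf 1 []) .nil)))))))))))) .nil)))))))))))) (.cons (.leaf 1 [(1,1),(11,1),(9,1)]) (.cons (.keep [3,5,9,11,12] (.node (.cons (.keep [4,7,8,10,11] (.node (.cons (.leaf 1 [(3,1),(4,1)]) (.cons (.leaf 1 [(3,1),(5,1)]) (.cons (.leaf 1 [(4,1),(8,1)]) (.cons (.leaf 1 [(5,1),(8,1)]) (.cons (.leaf 1 [(4,1),(8,1)]) (.cons (.leaf 1 [(5,1),(8,1)]) (.cons (.leaf 1 [(8,1)]) (.cons (.leaf 1 [(8,1),(5,1)]) (.cons (.leaf 1 [(8,1),(4,1)]) (.cons (.leaf 1 [(8,1)]) .nil)))))))))))) (.cons (.keep [8,9,10,11,12] (.node (.cons (.leaf 1 [(4,2)]) (.cons (.leaf 1 [(4,1),(5,1)]) (.cons (.leaf 1 [(4,2),(8,1)]) (.cons (.leaf 1 [(5,2),(8,1)]) (.cons (.leaf 1 [(4,2),(8,1)]) (.cons (.leaf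 1 [(5,2),(8,1)]) (.cons (.leaf 1 [(8,1)]) (.cons (.leaf 1 [(5,2),(8,1)]) (.cons (.leaf 1 [(8,1),(4,2)]) (.cons (.leaf 1 [(8,1)]) .nil)))))))))))) (.cons (.leaf 1 [(1,1),(4,1)]) (.cons (.leaf 1 [(1,1),(5,1)]) (.cons (.leaf 1 [(1,1),(4,1),(11,1)]) (.cons (.leaf 1 [(1,1),(5,1),(11,1)]) (.cons (.keep [1,5,8,9,11] (.node (.cons (.leaf 1 [(4,1)]) (.cons (.leaf 1 [(5,1)]) (.cons (.leaf 1 [(4,1)]) (.cons (.leaf 1 [(5,1)]) (.cons (.leaf 1 [(4,1)]) (.cons (.leaf 1 [(5,1)]) (.cons (.leaf 1 []) (.cons (.leaf 1 [(5,1)]) (.cons (.leaf 1 [(4,1)]) (.cons (.leaf 1 []) .nil)))))))))))) (.cons (.keep [1,6,8,9,11] (.node (.cons (.leaf 1 [(8,1),(4,2)]) (.cons (.leaf 1 [(8,1),(4,1),(5,1)]) (.cons (.leaf 1 [(4,2),(10,1)]) (.cons (.leaf 1 [(5,2),(10,1)]) (.cons (.leaf 1 [(4,2)]) (.cons (.leaf 1 [(5,1),(4,1)])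 (.cons (.leaf 1 [(10,1)]) (.cons (.leaf 1 [(10,1),(5,2)]) (.cons (.leaf 1 [(10,1),(4,2)]) (.cons (.leaf 1 [(10,1)]) .nil)))))))))))) (.cons (.keep [7,8,9,10,11] (.node (.cons (.leaf 1 [(3,1)]) (.cons (.leaf 1 [(9,1),(5,2)]) (.cons (.leaf 1 [(3,1)]) (.cons (.leaf 1 [(5,2),(9,1)]) (.cons (.leaf 1 []) (.cons (.leaf 1 [(5,2),(9,1)]) (.cons (.leaf 1 [(3,1)]) (.cons (.leaf 1 [(3,1),(5,1)]) (.cons (.leaf 1 [(3,1)]) (.cons (.leaf 1 [(9,1)]) .nil)))))))))))) (.cons (.keep [0,4,9,10,11] (.node (.cons (.leaf 1 [(4,1)]) (.cons (.leaf 1 [(5,1)]) (.cons (.leaf 1 [(4,1)]) (.cons (.leaf 1 [(5,1)]) (.cons (.leaf 1 [(4,1)]) (.cons (.leaf 1 [(5,1)]) (.cons (.leaf 1 []) (.cons (.leaf 1 [(5,1)]) (.cons (.leaf 1 [(4,1)]) (.cons (.leaf 1 []) .nil)))))))))))) .nil)))))))))))) (.cons (.leaf 1 [(8,1),(1,1)])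 (.cons (.leaf 1 [(8,1),(1,1)]) (.cons (.leaf 1 [(8,1),(11,1),(1,1)]) (.cons (.leaf 1 [(8,1),(11,1),(1,1)]) (.cons (.leaf 1 [(8,1),(11,1),(7,1),(1,1)]) (.cons (.keep [0,2,8,11,12] (.node (.cons (.keep [2,4,7,9,11] (.node (.cons (.leaf 1 [(3,1),(4,1)]) (.cons (.leaf 1 [(3,1),(5,1)]) (.cons (.leaf 1 [(4,1),(9,1)]) (.cons (.leaf 1 [(5,1),(9,1)]) (.cons (.leaf 1 [(4,1),(9,1)]) (.cons (.leaf 1 [(5,1),(9,1)]) (.cons (.leaf 1 [(9,1)]) (.cons (.leaf 1 [(9,1),(5,1)]) (.cons (.leaf 1 [(9,1),(4,1)]) (.cons (.leaf 1 [(9,1)]) .nil)))))))))))) (.cons (.keep [5,6,8,9,11] (.node (.cons (.leaf 1 [(4,2)]) (.cons (.leaf 1 [(4,1),(5,1)]) (.cons (.leaf 1 [(4,1),(8,1)]) (.cons (.leaf 1 [(5,1),(8,1)]) (.cons (.leaf 1 [(4,1),(8,1)]) (.cons (.leaf 1 [(5,1),(8,1)]) (.cons (.leaf 1 [(8,1)]) (.cons (.leaf 1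 [(5,1),(8,1)]) (.cons (.leaf 1 [(8,1),(4,1)]) (.cons (.leaf 1 [(8,1)]) .nil)))))))))))) (.cons (.leaf 1 [(1,1),(4,1)]) (.cons (.leaf 1 [(1,1),(5,1)]) (.cons (.leaf 1 [(1,1),(4,1),(11,1)]) (.cons (.leaf 1 [(1,1),(5,1),(11,1)]) (.cons (.keep [1,5,8,11] (.node (.cons (.leaf 1 [(4,1)]) (.cons (.leaf 1 [(5,1)]) (.cons (.leaf 1 [(4,1)]) (.cons (.leaf 1 [(5,1)]) (.cons (.leaf 1 [(4,1)]) (.cons (.leaf 1 [(5,1)]) (.cons (.leaf 1 []) (.cons (.leaf 1 [(5,1)]) (.cons (.leaf 1 [(4,1)]) (.cons (.leaf 1 []) .nil)))))))))))) (.cons (.keep [5,6,8,9,11] (.node (.cons (.leaf 1 [(8,1),(4,1)]) (.cons (.leaf 1 [(8,1),(5,1)]) (.cons (.leaf 1 [(4,1),(8,1)]) (.cons (.leaf 1 [(5,1),(8,1)]) (.cons (.leaf 1 [(4,2)]) (.cons (.leaf 1 [(5,1),(4,1)]) (.cons (.leaf 1 [(8,1)]) (.cons (.leaf 1 [(8,1),(5,1)]) (.cons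 (.leaf 1 [(8,1),(4,1)]) (.cons (.leaf 1 [(8,1)]) .nil)))))))))))) (.cons (.keep [4,7,8,9,11] (.node (.cons (.leaf 1 [(3,1)]) (.cons (.leaf 1 [(8,1),(5,1)]) (.cons (.leaf 1 [(3,1)]) (.cons (.leaf 1 [(5,1),(8,1)]) (.cons (.leaf 1 []) (.cons (.leaf 1 [(5,1),(8,1)]) (.cons (.leaf 1 [(3,1)]) (.cons (.leaf 1 [(3,1),(5,1)]) (.cons (.leaf 1 [(3,1)]) (.cons (.leaf 1 [(8,1)]) .nil)))))))))))) (.cons (.keep [0,4,9,11] (.node (.cons (.leaf 1 [(4,1)]) (.cons (.leaf 1 [(5,1)]) (.cons (.leaf 1 [(4,1)]) (.cons (.leaf 1 [(5,1)]) (.cons (.leaf 1 [(4,1)]) (.cons (.leaf 1 [(5,1)]) (.cons (.leaf 1 []) (.cons (.leaf 1 [(5,1)]) (.cons (.leaf 1 [(4,1)]) (.cons (.leaf 1 []) .nil)))))))))))) .nil)))))))))))) .nil)))))))))))) (.cons (.keep [1,2,5,6,10] (.leaf 0 [(3,0)])) (.cons (.leaf 1 [(9,2),(1,2)]) (.cons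 (.leaf 1 [(9,2),(6,1),(1,2)]) (.cons (.leaf 1 [(1,2),(7,3),(9,2)]) (.cons (.keep [0,1,9,11] (.node (.cons (.leaf 1 [(4,2),(11,2)]) (.cons (.leaf 1 [(5,2),(11,2)]) (.cons (.leaf 1 [(1,2)]) (.cons (.leaf 1 [(1,2)]) (.cons (.leaf 1 [(10,2),(1,2)]) (.cons (.leaf 1 [(10,2),(1,2)]) (.cons (.leaf 1 [(11,2)]) (.cons (.leaf 1 [(5,2),(11,2)]) (.cons (.leaf 1 [(4,2),(11,2)]) (.cons (.leaf 1 [(11,2)]) .nil)))))))))))) .nil)))))))))))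

theorem c_31_24_14 : Concl 31 24 z_31_24_14 h_31_24_14 .nd := piece _ (hP_cons E63.c_31_24_11
  (hP_cons E63.c_31_24_13 (hP_cons E63.c_31_24_10 (hP_cons E63.c_31_24_12 hP_nil)))) t_31_24_14 _
  _ (by decide +kernel)

def z_31_24_19 : F := ⟨1, -1, 0, 0, 1⟩

def h_31_24_19 : List F := [⟨1, 0, -1, 0, 0⟩, ⟨0, 0, 1, -1, 0⟩, ⟨0, 0, 1, 0, 1⟩, ⟨0, 1, -1, 0, 0⟩,
  ⟨0, -1, 0, 0, 1⟩]

def t_31_24_19 : T := (.node (.cons (.keep [2,7,9,10,11] (.leaf 0 [(0,0)])) (.cons (.keep [2,6,8,10,11] (.leaf 0 [(1,0)])) (.cons (.keep [3,7,9,10,12] (.node (.cons (.leaf 1 [(9,1),(12,1)]) (.cons (.keep [8,9,10,11,12] (.node (.cons (.keep [4,7,9,10,12] (.node (.cons (.leaf 1 [(4,1)]) (.cons (.leaf 1 [(5,1)]) (.cons (.leaf 1 [(4,1)]) (.cons (.leaf 1 [(5,1)]) (.cons (.leaf 1 [(4,1)]) (.cons (.leaf 1 [(5,1)])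 (.cons (.leaf 1 []) (.cons (.leaf 1 [(5,1)]) (.cons (.leaf 1 [(4,1)]) (.cons (.leaf 1 []) .nil)))))))))))) (.cons (.keep [2,5,6,9,12] (.node (.cons (.leaf 1 [(4,1)]) (.cons (.leaf 1 [(5,1)]) (.cons (.leaf 1 [(4,1)]) (.cons (.leaf 1 [(5,1)]) (.cons (.leaf 1 [(4,1)]) (.cons (.leaf 1 [(5,1)]) (.cons (.leaf 1 []) (.cons (.leaf 1 [(5,1)]) (.cons (.leaf 1 [(4,1)]) (.cons (.leaf 1 []) .nil)))))))))))) (.cons (.leaf 1 [(1,1)]) (.cons (.leaf 1 [(1,1)]) (.cons (.leaf 1 [(9,1),(1,1)]) (.cons (.leaf 1 [(9,1),(1,1)]) (.cons (.keep [1,5,8,9,10] (.node (.cons (.leaf 1 [(4,1)]) (.cons (.leaf 1 [(5,1)]) (.cons (.leaf 1 [(4,1)]) (.cons (.leaf 1 [(5,1)]) (.cons (.leaf 1 [(4,1)]) (.cons (.leaf 1 [(5,1)]) (.cons (.leaf 1 []) (.cons (.leaf 1 [(5,1)]) (.cons (.leaf 1 [(4,1)]) (.cons (.leaf 1 []) .nil))))))))))))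 (.cons (.keep [1,5,8,9,10] (.node (.cons (.leaf 1 [(4,1)]) (.cons (.leaf 1 [(5,1)]) (.cons (.leaf 1 [(4,1)]) (.cons (.leaf 1 [(5,1)]) (.cons (.leaf 1 [(4,1)]) (.cons (.leaf 1 [(5,1)]) (.cons (.leaf 1 []) (.cons (.leaf 1 [(5,1)]) (.cons (.leaf 1 [(4,1)]) (.cons (.leaf 1 []) .nil)))))))))))) (.cons (.keep [4,8,9,10,12] (.node (.cons (.leaf 1 [(4,1)]) (.cons (.leaf 1 [(5,1)]) (.cons (.leaf 1 [(4,1)]) (.cons (.leaf 1 [(5,1)]) (.cons (.leaf 1 [(4,1)]) (.cons (.leaf 1 [(5,1)]) (.cons (.leaf 1 []) (.cons (.leaf 1 [(5,1)]) (.cons (.leaf 1 [(4,1)]) (.cons (.leaf 1 []) .nil)))))))))))) (.cons (.keep [0,4,8,9,12] (.node (.cons (.leaf 1 [(4,1)]) (.cons (.leaf 1 [(5,1)]) (.cons (.leaf 1 [(4,1)]) (.cons (.leaf 1 [(5,1)]) (.cons (.leaf 1 [(4,1)]) (.cons (.leaf 1 [(5,1)]) (.cons (.leaf 1 []) (.cons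 (.leaf 1 [(5,1)]) (.cons (.leaf 1 [(4,1)]) (.cons (.leaf 1 []) .nil)))))))))))) .nil)))))))))))) (.cons (.leaf 1 [(1,1),(9,1),(12,1)]) (.cons (.keep [1,3,8,9,12] (.node (.cons (.keep [4,7,9,11,12] (.node (.cons (.leaf 1 [(4,1)]) (.cons (.leaf 1 [(5,1)]) (.cons (.leaf 1 [(4,1)]) (.cons (.leaf 1 [(5,1)]) (.cons (.leaf 1 [(4,1)]) (.cons (.leaf 1 [(5,1)]) (.cons (.leaf 1 []) (.cons (.leaf 1 [(5,1)]) (.cons (.leaf 1 [(4,1)]) (.cons (.leaf 1 []) .nil)))))))))))) (.cons (.keep [2,5,6,11,12] (.node (.cons (.leaf 1 [(4,1)]) (.cons (.leaf 1 [(5,1)]) (.cons (.leaf 1 [(4,1)]) (.cons (.leaf 1 [(5,1)]) (.cons (.leaf 1 [(4,1)]) (.cons (.leaf 1 [(5,1)]) (.cons (.leaf 1 []) (.cons (.leaf 1 [(5,1)]) (.cons (.leaf 1 [(4,1)]) (.cons (.leaf 1 []) .nil)))))))))))) (.cons (.leaf 1 [(1,1)]) (.cons (.leaf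 1 [(1,1)]) (.cons (.leaf 1 [(11,1),(1,1)]) (.cons (.leaf 1 [(11,1),(1,1)]) (.cons (.keep [1,5,9,10,11] (.node (.cons (.leaf 1 [(4,1)]) (.cons (.leaf 1 [(5,1)]) (.cons (.leaf 1 [(4,1)]) (.cons (.leaf 1 [(5,1)]) (.cons (.leaf 1 [(4,1)]) (.cons (.leaf 1 [(5,1)]) (.cons (.leaf 1 []) (.cons (.leaf 1 [(5,1)]) (.cons (.leaf 1 [(4,1)]) (.cons (.leaf 1 []) .nil)))))))))))) (.cons (.keep [5,9,10,11,12] (.node (.cons (.leaf 1 [(4,1)]) (.cons (.leaf 1 [(5,1)]) (.cons (.leaf 1 [(4,1)]) (.cons (.leaf 1 [(5,1)]) (.cons (.leaf 1 [(4,1)]) (.cons (.leaf 1 [(5,1)]) (.cons (.leaf 1 []) (.cons (.leaf 1 [(5,1)]) (.cons (.leaf 1 [(4,1)]) (.cons (.leaf 1 []) .nil)))))))))))) (.cons (.keep [4,9,10,11,12] (.node (.cons (.leaf 1 [(4,1)]) (.cons (.leaf 1 [(5,1)]) (.cons (.leaf 1 [(4,1)]) (.cons (.leaf 1 [(5,1)])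 (.cons (.leaf 1 [(4,1)]) (.cons (.leaf 1 [(5,1)]) (.cons (.leaf 1 []) (.cons (.leaf 1 [(5,1)]) (.cons (.leaf 1 [(4,1)]) (.cons (.leaf 1 []) .nil)))))))))))) (.cons (.keep [0,4,10,11,12] (.node (.cons (.leaf 1 [(4,1)]) (.cons (.leaf 1 [(5,1)]) (.cons (.leaf 1 [(4,1)]) (.cons (.leaf 1 [(5,1)]) (.cons (.leaf 1 [(4,1)]) (.cons (.leaf 1 [(5,1)]) (.cons (.leaf 1 []) (.cons (.leaf 1 [(5,1)]) (.cons (.leaf 1 [(4,1)]) (.cons (.leaf 1 []) .nil)))))))))))) .nil)))))))))))) (.cons (.leaf 1 [(1,1)]) (.cons (.leaf 1 [(1,1)]) (.cons (.leaf 1 [(9,1),(1,1)]) (.cons (.leaf 1 [(9,1),(1,1)]) (.cons (.leaf 1 [(9,1),(7,1),(1,1)]) (.cons (.keep [0,2,8,9,11] (.node (.cons (.keep [4,7,8,9,11] (.node (.cons (.leaf 1 [(4,1)]) (.cons (.leaf 1 [(5,1)]) (.cons (.leaf 1 [(4,1)]) (.cons (.leaf 1 [(5,1)]) (.cons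 (.leaf 1 [(4,1)]) (.cons (.leaf 1 [(5,1)]) (.cons (.leaf 1 []) (.cons (.leaf 1 [(5,1)]) (.cons (.leaf 1 [(4,1)]) (.cons (.leaf 1 []) .nil)))))))))))) (.cons (.keep [5,6,8,9,11] (.node (.cons (.leaf 1 [(4,1)]) (.cons (.leaf 1 [(5,1)]) (.cons (.leaf 1 [(4,1)]) (.cons (.leaf 1 [(5,1)]) (.cons (.leaf 1 [(4,1)]) (.cons (.leaf 1 [(5,1)]) (.cons (.leaf 1 []) (.cons (.leaf 1 [(5,1)]) (.cons (.leaf 1 [(4,1)]) (.cons (.leaf 1 []) .nil)))))))))))) (.cons (.leaf 1 [(1,1)]) (.cons (.leaf 1 [(1,1)]) (.cons (.leaf 1 [(11,1),(1,1)]) (.cons (.leaf 1 [(11,1),(1,1)]) (.cons (.keep [1,5,8,11] (.node (.cons (.leaf 1 [(4,1)]) (.cons (.leaf 1 [(5,1)]) (.cons (.leaf 1 [(4,1)]) (.cons (.leaf 1 [(5,1)]) (.cons (.leaf 1 [(4,1)]) (.cons (.leaf 1 [(5,1)]) (.cons (.leaf 1 []) (.cons (.leaf 1 [(5,1)]) (.cons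 (.leaf 1 [(4,1)]) (.cons (.leaf 1 []) .nil)))))))))))) (.cons (.keep [5,6,8,9,11] (.node (.cons (.leaf 1 [(4,1)]) (.cons (.leaf 1 [(5,1)]) (.cons (.leaf 1 [(4,1)]) (.cons (.leaf 1 [(5,1)]) (.cons (.leaf 1 [(4,1)]) (.cons (.leaf 1 [(5,1)]) (.cons (.leaf 1 []) (.cons (.leaf 1 [(5,1)]) (.cons (.leaf 1 [(4,1)]) (.cons (.leaf 1 []) .nil)))))))))))) (.cons (.keep [4,7,8,9,11] (.node (.cons (.leaf 1 [(4,1)]) (.cons (.leaf 1 [(5,1)]) (.cons (.leaf 1 [(4,1)]) (.cons (.leaf 1 [(5,1)]) (.cons (.leaf 1 [(4,1)]) (.cons (.leaf 1 [(5,1)]) (.cons (.leaf 1 []) (.cons (.leaf 1 [(5,1)]) (.cons (.leaf 1 [(4,1)]) (.cons (.leaf 1 []) .nil)))))))))))) (.cons (.keep [0,4,9,11] (.node (.cons (.leaf 1 [(4,1)]) (.cons (.leaf 1 [(5,1)]) (.cons (.leaf 1 [(4,1)]) (.cons (.leaf 1 [(5,1)]) (.cons (.leaf 1 [(4,1)])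 (.cons (.leaf 1 [(5,1)]) (.cons (.leaf 1 []) (.cons (.leaf 1 [(5,1)]) (.cons (.leaf 1 [(4,1)]) (.cons (.leaf 1 []) .nil)))))))))))) .nil)))))))))))) .nil)))))))))))) (.cons (.keep [3,6,8,10,12] (.leaf 0 [(2,0)])) (.cons (.keep [1,7,8,11,12] (.node (.cons (.leaf 1 [(2,1),(9,1)]) (.cons (.keep [3,8,9,11,12] (.node (.cons (.keep [2,4,7,10,12] (.node (.cons (.leaf 1 [(4,1)]) (.cons (.leaf 1 [(5,1)]) (.cons (.leaf 1 [(4,1)]) (.cons (.leaf 1 [(5,1)]) (.cons (.leaf 1 [(4,1)]) (.cons (.leaf 1 [(5,1)]) (.cons (.leaf 1 []) (.cons (.leaf 1 [(5,1)]) (.cons (.leaf 1 [(4,1)]) (.cons (.leaf 1 []) .nil)))))))))))) (.cons (.keep [2,5,6,10,12] (.node (.cons (.leaf 1 [(3,1)]) (.cons (.leaf 1 [(10,1),(5,1)]) (.cons (.leaf 1 [(3,1)]) (.cons (.leaf 1 [(5,1),(10,1)]) (.cons (.leaf 1 []) (.cons (.leaf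 1 [(5,1),(10,1)]) (.cons (.leaf 1 [(3,1)]) (.cons (.leaf 1 [(3,1),(5,1)]) (.cons (.leaf 1 [(3,1)]) (.cons (.leaf 1 [(10,1)]) .nil)))))))))))) (.cons (.leaf 1 []) (.cons (.leaf 1 [(6,1)]) (.cons (.leaf 1 [(10,1)]) (.cons (.leaf 1 [(10,1),(6,1)]) (.cons (.keep [1,5,8,10,11] (.node (.cons (.leaf 1 [(3,1),(4,1)]) (.cons (.leaf 1 [(3,1),(5,1)]) (.cons (.leaf 1 [(3,1),(11,1)]) (.cons (.leaf 1 [(3,1),(11,1)]) (.cons (.leaf 1 [(4,1),(12,1)]) (.cons (.leaf 1 [(5,1),(12,1)]) (.cons (.leaf 1 [(12,1)]) (.cons (.leaf 1 [(12,1),(5,1)]) (.cons (.leaf 1 [(12,1),(4,1)]) (.cons (.leaf 1 [(12,1)]) .nil)))))))))))) (.cons (.keep [1,5,8,10,11] (.node (.cons (.leaf 1 [(3,2)]) (.cons (.leaf 1 [(12,1),(5,1)]) (.cons (.leaf 1 [(3,2),(11,1),(10,1)]) (.cons (.leaf 1 [(1,1),(12,1),(11,1)]) (.cons (.leaf 1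 [(4,1),(12,1)]) (.cons (.leaf 1 [(12,1),(5,1)]) (.cons (.leaf 1 [(12,1)]) (.cons (.leaf 1 [(12,1),(5,1)]) (.cons (.leaf 1 [(12,1),(4,1)]) (.cons (.leaf 1 [(12,1)]) .nil)))))))))))) (.cons (.keep [2,4,10,11,12] (.node (.cons (.leaf 1 [(4,2)]) (.cons (.leaf 1 [(4,1),(5,1)]) (.cons (.leaf 1 [(4,1),(10,1)]) (.cons (.leaf 1 [(4,1),(10,1)]) (.cons (.leaf 1 [(4,1),(11,1)]) (.cons (.leaf 1 [(5,1),(11,1)]) (.cons (.leaf 1 [(11,1)]) (.cons (.leaf 1 [(5,1),(11,1)]) (.cons (.leaf 1 [(11,1),(4,1)]) (.cons (.leaf 1 [(11,1)]) .nil)))))))))))) (.cons (.keep [0,4,10,11,12] (.node (.cons (.leaf 1 [(3,1),(4,1)]) (.cons (.leaf 1 [(3,1),(5,1)]) (.cons (.leaf 1 [(3,1),(10,1)]) (.cons (.leaf 1 [(3,1),(10,1)]) (.cons (.leaf 1 [(4,1),(11,1)]) (.cons (.leaf 1 [(5,1),(11,1)]) (.cons (.leaf 1 [(11,1)]) (.cons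 (.leaf 1 [(11,1),(5,1)]) (.cons (.leaf 1 [(11,1),(4,1)]) (.cons (.leaf 1 [(11,1)]) .nil)))))))))))) .nil)))))))))))) (.cons (.leaf 1 [(9,1)]) (.cons (.keep [1,3,9,11,12] (.node (.cons (.keep [4,7,9,10,12] (.node (.cons (.leaf 1 [(3,1),(4,1)]) (.cons (.leaf 1 [(3,1),(5,1)]) (.cons (.leaf 1 [(4,1),(8,1)]) (.cons (.leaf 1 [(5,1),(8,1)]) (.cons (.leaf 1 [(4,1),(8,1)]) (.cons (.leaf 1 [(5,1),(8,1)]) (.cons (.leaf 1 [(8,1)]) (.cons (.leaf 1 [(8,1),(5,1)]) (.cons (.leaf 1 [(8,1),(4,1)]) (.cons (.leaf 1 [(8,1)]) .nil)))))))))))) (.cons (.keep [5,6,9,10,12] (.node (.cons (.leaf 1 [(3,1),(4,1)]) (.cons (.leaf 1 [(3,1),(5,1)]) (.cons (.leaf 1 [(3,1),(8,1)]) (.cons (.leaf 1 [(8,1),(9,1),(5,1)]) (.cons (.leaf 1 [(8,1)]) (.cons (.leaf 1 [(5,1),(9,1),(8,1)]) (.cons (.leaf 1 [(8,1),(3,1)]) (.cons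 (.leaf 1 [(8,1),(3,1),(5,1)]) (.cons (.leaf 1 [(8,1),(3,1)]) (.cons (.leaf 1 [(8,1),(9,1)]) .nil)))))))))))) (.cons (.leaf 1 [(4,1)]) (.cons (.leaf 1 [(4,1)]) (.cons (.leaf 1 [(10,1),(4,1)]) (.cons (.leaf 1 [(10,1),(4,1)]) (.cons (.keep [1,5,9,10,11] (.node (.cons (.leaf 1 [(3,1),(4,1)]) (.cons (.leaf 1 [(3,1),(5,1)]) (.cons (.leaf 1 [(3,1),(11,1)]) (.cons (.leaf 1 [(3,1),(11,1)]) (.cons (.leaf 1 [(4,1),(12,1)]) (.cons (.leaf 1 [(5,1),(12,1)]) (.cons (.leaf 1 [(12,1)]) (.cons (.leaf 1 [(12,1),(5,1)]) (.cons (.leaf 1 [(12,1),(4,1)]) (.cons (.leaf 1 [(12,1)]) .nil)))))))))))) (.cons (.keep [2,5,10,11,12] (.node (.cons (.leaf 1 [(3,1),(4,1)]) (.cons (.leaf 1 [(3,1),(5,1)]) (.cons (.leaf 1 [(3,1),(10,1)]) (.cons (.leaf 1 [(3,1),(10,1)]) (.cons (.leaf 1 [(4,1),(11,1)]) (.cons (.leaf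 1 [(5,1),(11,1)]) (.cons (.leaf 1 [(11,1)]) (.cons (.leaf 1 [(11,1),(5,1)]) (.cons (.leaf 1 [(11,1),(4,1)]) (.cons (.leaf 1 [(11,1)]) .nil)))))))))))) (.cons (.keep [4,9,10,11,12] (.node (.cons (.leaf 1 [(3,1),(4,1)]) (.cons (.leaf 1 [(3,1),(5,1)]) (.cons (.leaf 1 [(3,1),(10,1)]) (.cons (.leaf 1 [(3,1),(10,1)]) (.cons (.leaf 1 [(4,1),(11,1)]) (.cons (.leaf 1 [(5,1),(11,1)]) (.cons (.leaf 1 [(11,1)]) (.cons (.leaf 1 [(11,1),(5,1)]) (.cons (.leaf 1 [(11,1),(4,1)]) (.cons (.leaf 1 [(11,1)]) .nil)))))))))))) (.cons (.keep [0,4,10,11,12] (.node (.cons (.leaf 1 [(3,1),(4,1)]) (.cons (.leaf 1 [(3,1),(5,1)]) (.cons (.leaf 1 [(3,1),(10,1)]) (.cons (.leaf 1 [(3,1),(10,1)]) (.cons (.leaf 1 [(4,1),(11,1)]) (.cons (.leaf 1 [(5,1),(11,1)]) (.cons (.leaf 1 [(11,1)]) (.cons (.leaf 1 [(11,1),(5,1)])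 (.cons (.leaf 1 [(11,1),(4,1)]) (.cons (.leaf 1 [(11,1)]) .nil)))))))))))) .nil)))))))))))) (.cons (.leaf 1 [(2,1),(4,1)]) (.cons (.leaf 1 [(2,1),(5,1)]) (.cons (.leaf 1 [(9,1),(2,1)]) (.cons (.leaf 1 [(9,1),(5,1),(2,1)]) (.cons (.leaf 1 [(9,1),(2,1)]) (.cons (.keep [0,2,8,9,11] (.node (.cons (.keep [4,7,8,9,11] (.node (.cons (.leaf 1 [(9,1)]) (.cons (.leaf 2 [(11,1),(5,2)]) (.cons (.leaf 1 [(1,1),(9,1)]) (.cons (.leaf 2 [(5,2),(11,1)]) (.cons (.leaf 1 [(1,1),(4,1)]) (.cons (.leaf 1 [(1,1),(5,1)]) (.cons (.leaf 1 [(9,1),(1,1)]) (.cons (.leaf 1 [(1,1),(5,1),(9,1)]) (.cons (.leaf 1 [(9,1),(1,1)]) (.cons (.leaf 2 [(11,1)]) .nil)))))))))))) (.cons (.keep [5,6,8,9,11] (.node (.cons (.leaf 1 []) (.cons (.leaf 1 [(11,1),(3,1),(5,1)]) (.cons (.leaf 1 [(1,1)]) (.cons (.leaf 2 [(5,2),(11,1),(9,1)])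 (.cons (.leaf 1 [(1,1)]) (.cons (.leaf 1 [(5,1),(1,1),(9,1)]) (.cons (.leaf 1 [(1,1)]) (.cons (.leaf 1 [(1,1),(5,1)]) (.cons (.leaf 1 [(1,1)]) (.cons (.leaf 2 [(11,1),(9,1)]) .nil)))))))))))) (.cons (.leaf 2 [(1,1),(9,1)]) (.cons (.leaf 1 [(9,1),(4,1)]) (.cons (.leaf 2 [(1,1),(11,2),(9,1)]) (.cons (.leaf 2 [(1,1),(11,2),(9,1),(6,1)]) (.cons (.keep [1,5,8,11] (.node (.cons (.leaf 1 [(4,1)]) (.cons (.leaf 1 [(5,1)]) (.cons (.leaf 1 [(4,1)]) (.cons (.leaf 1 [(5,1)]) (.cons (.leaf 1 [(4,1)]) (.cons (.leaf 1 [(5,1)]) (.cons (.leaf 1 []) (.cons (.leaf 1 [(5,1)]) (.cons (.leaf 1 [(4,1)]) (.cons (.leaf 1 []) .nil)))))))))))) (.cons (.keep [5,6,8,9,11] (.node (.cons (.leaf 1 [(3,1)]) (.cons (.leaf 1 [(9,1),(5,1)]) (.cons (.leaf 1 [(3,1)]) (.cons (.leaf 1 [(5,1),(9,1)]) (.cons (.leaf 1 [])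 (.cons (.leaf 1 [(5,1),(9,1)]) (.cons (.leaf 1 [(3,1)]) (.cons (.leaf 1 [(3,1),(5,1)]) (.cons (.leaf 1 [(3,1)]) (.cons (.leaf 1 [(9,1)]) .nil)))))))))))) (.cons (.keep [4,7,8,9,11] (.node (.cons (.leaf 1 [(9,1),(4,1)]) (.cons (.leaf 1 [(9,1),(5,1)]) (.cons (.leaf 1 [(4,1),(9,1)]) (.cons (.leaf 1 [(5,1),(9,1)]) (.cons (.leaf 1 [(4,2)]) (.cons (.leaf 1 [(5,1),(4,1)]) (.cons (.leaf 1 [(9,1)]) (.cons (.leaf 1 [(9,1),(5,1)]) (.cons (.leaf 1 [(9,1),(4,1)]) (.cons (.leaf 1 [(9,1)]) .nil)))))))))))) (.cons (.keep [0,4,9,11] (.node (.cons (.leaf 1 [(4,1)]) (.cons (.leaf 1 [(5,1)]) (.cons (.leaf 1 [(4,1)]) (.cons (.leaf 1 [(5,1)]) (.cons (.leaf 1 [(4,1)]) (.cons (.leaf 1 [(5,1)]) (.cons (.leaf 1 []) (.cons (.leaf 1 [(5,1)]) (.cons (.leaf 1 [(4,1)]) (.cons (.leaf 1 []) .nil)))))))))))) .nil))))))))))))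 .nil)))))))))))) (.cons (.keep [1,6,8,11,12] (.leaf 0 [(3,0)])) (.cons (.leaf 1 [(11,1),(9,1),(1,1)]) (.cons (.leaf 1 [(11,1),(9,1),(6,1),(1,1)]) (.cons (.leaf 1 [(1,1),(9,1),(7,2),(11,1)]) (.cons (.leaf 1 [(11,1),(10,1)]) .nil)))))))))))

theorem c_31_24_19 : Concl 31 24 z_31_24_19 h_31_24_19 .nd := piece _ (hP_cons E63.c_31_24_18
  (hP_cons E63.c_31_24_15 (hP_cons E63.c_31_24_17 (hP_cons E63.c_31_24_16 hP_nil)))) t_31_24_19 _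
  _ (by decide +kernel)

def z_31_24_24 : F := ⟨1, 0, -1, 0, 1⟩

def h_31_24_24 : List F := [⟨1, 0, -1, 0, 0⟩, ⟨0, 0, 1, -1, 0⟩, ⟨0, 0, 1, 0, 1⟩, ⟨0, -1, 1, 0, 0⟩,
  ⟨0, 0, -1, 0, 1⟩]

def t_31_24_24 : T := (.node (.cons (.keep [3,7,9,10,11] (.node (.cons (.leaf 1 [(9,1),(12,1)]) (.cons (.keep [2,5,9,10,12] (.node (.cons (.keep [4,7,8,10,11] (.node (.cons (.leaf 1 [(3,1),(4,1)]) (.cons (.leaf 1 [(3,1),(5,1)]) (.cons (.leaf 1 [(4,1),(8,1)]) (.cons (.leaf 1 [(5,1),(8,1)]) (.cons (.leaf 1 [(4,1),(8,1)]) (.cons (.leaf 1 [(5,1),(8,1)]) (.cons (.leaf 1 [(8,1)]) (.cons (.leaf 1 [(8,1),(5,1)]) (.cons (.leaf 1 [(8,1),(4,1)]) (.cons (.leaf 1 [(8,1)]) .nil)))))))))))) (.cons (.keep [5,6,8,10,11,12] (.node (.cons (.leaf 1 [(4,2)]) (.cons (.leaf 1 [(4,1),(5,1)]) (.cons (.leaf 1 [(4,1),(8,1)])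 (.cons (.leaf 1 [(5,1),(8,1)]) (.cons (.leaf 1 [(4,1),(8,1)]) (.cons (.leaf 1 [(5,1),(8,1)]) (.cons (.leaf 1 [(8,1)]) (.cons (.leaf 1 [(5,1),(8,1)]) (.cons (.leaf 1 [(8,1),(4,1)]) (.cons (.leaf 1 [(8,1)]) .nil)))))))))))) (.cons (.leaf 1 [(1,1),(4,1)]) (.cons (.leaf 1 [(1,1),(5,1)]) (.cons (.leaf 1 [(1,1),(4,1),(10,1)]) (.cons (.leaf 1 [(1,1),(5,1),(10,1)]) (.cons (.keep [1,5,9,10,11] (.node (.cons (.leaf 1 [(4,1)]) (.cons (.leaf 1 [(5,1)]) (.cons (.leaf 1 [(4,1)]) (.cons (.leaf 1 [(5,1)]) (.cons (.leaf 1 [(4,1)]) (.cons (.leaf 1 [(5,1)]) (.cons (.leaf 1 []) (.cons (.leaf 1 [(5,1)]) (.cons (.leaf 1 [(4,1)]) (.cons (.leaf 1 []) .nil)))))))))))) (.cons (.keep [6,9,10,11,12] (.node (.cons (.leaf 1 [(11,1),(4,2)]) (.cons (.leaf 1 [(11,1),(5,2)]) (.cons (.leaf 1 [(4,2),(11,1)]) (.cons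 (.leaf 1 [(1,2),(11,1),(10,2)]) (.cons (.leaf 1 [(4,2)]) (.cons (.leaf 1 [(5,1),(4,1)]) (.cons (.leaf 1 [(11,1)]) (.cons (.leaf 1 [(11,1),(5,2)]) (.cons (.leaf 1 [(11,1),(4,2)]) (.cons (.leaf 1 [(11,1)]) .nil)))))))))))) (.cons (.keep [1,7,9,10,11] (.node (.cons (.leaf 1 [(3,1)]) (.cons (.leaf 1 [(3,1),(8,1),(5,1)]) (.cons (.leaf 1 [(3,1)]) (.cons (.leaf 1 [(5,1),(10,1),(8,1)]) (.cons (.leaf 1 []) (.cons (.leaf 1 [(5,1),(8,1),(10,1)]) (.cons (.leaf 1 [(3,1)]) (.cons (.leaf 1 [(3,1),(5,1)]) (.cons (.leaf 1 [(3,1)]) (.cons (.leaf 1 [(10,1),(8,1)]) .nil)))))))))))) (.cons (.keep [0,4,9,10,12] (.node (.cons (.leaf 1 [(4,1)]) (.cons (.leaf 1 [(5,1)]) (.cons (.leaf 1 [(4,1)]) (.cons (.leaf 1 [(5,1)]) (.cons (.leaf 1 [(4,1)]) (.cons (.leaf 1 [(5,1)]) (.cons (.leaf 1 []) (.cons (.leaf 1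 [(5,1)]) (.cons (.leaf 1 [(4,1)]) (.cons (.leaf 1 []) .nil)))))))))))) .nil)))))))))))) (.cons (.leaf 1 [(1,1),(9,1),(12,1)]) (.cons (.keep [3,5,8,9,12] (.node (.cons (.keep [4,7,8,10,11] (.node (.cons (.leaf 1 [(3,1),(4,1)]) (.cons (.leaf 1 [(3,1),(5,1)]) (.cons (.leaf 1 [(4,1),(8,1)]) (.cons (.leaf 1 [(5,1),(8,1)]) (.cons (.leaf 1 [(4,1),(8,1)]) (.cons (.leaf 1 [(5,1),(8,1)]) (.cons (.leaf 1 [(8,1)]) (.cons (.leaf 1 [(8,1),(5,1)]) (.cons (.leaf 1 [(8,1),(4,1)]) (.cons (.leaf 1 [(8,1)]) .nil)))))))))))) (.cons (.keep [8,9,10,11,12] (.node (.cons (.leaf 1 [(4,2)]) (.cons (.leaf 1 [(4,1),(5,1)]) (.cons (.leaf 1 [(4,2),(8,1)]) (.cons (.leaf 1 [(5,2),(8,1)]) (.cons (.leaf 1 [(4,2),(8,1)]) (.cons (.leaf 1 [(5,2),(8,1)]) (.cons (.leaf 1 [(8,1)]) (.cons (.leaf 1 [(5,2),(8,1)]) (.cons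 (.leaf 1 [(8,1),(4,2)]) (.cons (.leaf 1 [(8,1)]) .nil)))))))))))) (.cons (.leaf 1 [(1,1),(4,1)]) (.cons (.leaf 1 [(1,1),(5,1)]) (.cons (.leaf 1 [(1,1),(4,1),(11,1)]) (.cons (.leaf 1 [(1,1),(5,1),(11,1)]) (.cons (.keep [1,5,8,9,11] (.node (.cons (.leaf 1 [(4,1)]) (.cons (.leaf 1 [(5,1)]) (.cons (.leaf 1 [(4,1)]) (.cons (.leaf 1 [(5,1)]) (.cons (.leaf 1 [(4,1)]) (.cons (.leaf 1 [(5,1)]) (.cons (.leaf 1 []) (.cons (.leaf 1 [(5,1)]) (.cons (.leaf 1 [(4,1)]) (.cons (.leaf 1 []) .nil)))))))))))) (.cons (.keep [1,6,8,9,11] (.node (.cons (.leaf 1 [(8,1),(4,2)]) (.cons (.leaf 1 [(8,1),(4,1),(5,1)]) (.cons (.leaf 1 [(4,2),(10,1)]) (.cons (.leaf 1 [(5,2),(10,1)]) (.cons (.leaf 1 [(4,2)]) (.cons (.leaf 1 [(5,1),(4,1)]) (.cons (.leaf 1 [(10,1)]) (.cons (.leaf 1 [(10,1),(5,2)]) (.cons (.leaf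 1 [(10,1),(4,2)]) (.cons (.leaf 1 [(10,1)]) .nil)))))))))))) (.cons (.keep [7,8,9,11,12] (.node (.cons (.leaf 1 [(3,1)]) (.cons (.leaf 1 [(9,1),(5,2)]) (.cons (.leaf 1 [(3,1)]) (.cons (.leaf 1 [(5,2),(9,1)]) (.cons (.leaf 1 []) (.cons (.leaf 1 [(5,2),(9,1)]) (.cons (.leaf 1 [(3,1)]) (.cons (.leaf 1 [(3,1),(5,1)]) (.cons (.leaf 1 [(3,1)]) (.cons (.leaf 1 [(9,1)]) .nil)))))))))))) (.cons (.keep [0,4,9,11,12] (.node (.cons (.leaf 1 [(4,1)]) (.cons (.leaf 1 [(5,1)]) (.cons (.leaf 1 [(4,1)]) (.cons (.leaf 1 [(5,1)]) (.cons (.leaf 1 [(4,1)]) (.cons (.leaf 1 [(5,1)]) (.cons (.leaf 1 []) (.cons (.leaf 1 [(5,1)]) (.cons (.leaf 1 [(4,1)]) (.cons (.leaf 1 []) .nil)))))))))))) .nil)))))))))))) (.cons (.leaf 1 [(10,1),(1,2)]) (.cons (.leaf 1 [(10,1),(1,2)]) (.cons (.leaf 1 [(10,1),(9,2),(1,2)])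 (.cons (.leaf 1 [(10,1),(9,2),(1,2)]) (.cons (.leaf 1 [(10,1),(9,2),(7,2),(1,2)]) (.cons (.keep [0,2,8,9,11] (.node (.cons (.keep [2,4,7,9,11] (.node (.cons (.leaf 1 [(3,1),(4,1)]) (.cons (.leaf 1 [(3,1),(5,1)]) (.cons (.leaf 1 [(4,1),(9,1)]) (.cons (.leaf 1 [(5,1),(9,1)]) (.cons (.leaf 1 [(4,1),(9,1)]) (.cons (.leaf 1 [(5,1),(9,1)]) (.cons (.leaf 1 [(9,1)]) (.cons (.leaf 1 [(9,1),(5,1)]) (.cons (.leaf 1 [(9,1),(4,1)]) (.cons (.leaf 1 [(9,1)]) .nil)))))))))))) (.cons (.keep [5,6,8,9,11] (.node (.cons (.leaf 1 [(4,2)]) (.cons (.leaf 1 [(4,1),(5,1)]) (.cons (.leaf 1 [(4,1),(8,1)]) (.cons (.leaf 1 [(5,1),(8,1)]) (.cons (.leaf 1 [(4,1),(8,1)]) (.cons (.leaf 1 [(5,1),(8,1)]) (.cons (.leaf 1 [(8,1)]) (.cons (.leaf 1 [(5,1),(8,1)]) (.cons (.leaf 1 [(8,1),(4,1)]) (.cons (.leaf 1 [(8,1)])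 .nil)))))))))))) (.cons (.leaf 1 [(1,1),(4,1)]) (.cons (.leaf 1 [(1,1),(5,1)]) (.cons (.leaf 1 [(1,1),(4,1),(11,1)]) (.cons (.leaf 1 [(1,1),(5,1),(11,1)]) (.cons (.keep [1,5,8,11] (.node (.cons (.leaf 1 [(4,1)]) (.cons (.leaf 1 [(5,1)]) (.cons (.leaf 1 [(4,1)]) (.cons (.leaf 1 [(5,1)]) (.cons (.leaf 1 [(4,1)]) (.cons (.leaf 1 [(5,1)]) (.cons (.leaf 1 []) (.cons (.leaf 1 [(5,1)]) (.cons (.leaf 1 [(4,1)]) (.cons (.leaf 1 []) .nil)))))))))))) (.cons (.keep [5,6,8,9,11] (.node (.cons (.leaf 1 [(8,1),(4,1)]) (.cons (.leaf 1 [(8,1),(5,1)]) (.cons (.leaf 1 [(4,1),(8,1)]) (.cons (.leaf 1 [(5,1),(8,1)]) (.cons (.leaf 1 [(4,2)]) (.cons (.leaf 1 [(5,1),(4,1)]) (.cons (.leaf 1 [(8,1)]) (.cons (.leaf 1 [(8,1),(5,1)]) (.cons (.leaf 1 [(8,1),(4,1)]) (.cons (.leaf 1 [(8,1)]) .nil)))))))))))) (.cons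 (.keep [4,7,8,9,11] (.node (.cons (.leaf 1 [(3,1)]) (.cons (.leaf 1 [(8,1),(5,1)]) (.cons (.leaf 1 [(3,1)]) (.cons (.leaf 1 [(5,1),(8,1)]) (.cons (.leaf 1 []) (.cons (.leaf 1 [(5,1),(8,1)]) (.cons (.leaf 1 [(3,1)]) (.cons (.leaf 1 [(3,1),(5,1)]) (.cons (.leaf 1 [(3,1)]) (.cons (.leaf 1 [(8,1)]) .nil)))))))))))) (.cons (.keep [0,4,9,11] (.node (.cons (.leaf 1 [(4,1)]) (.cons (.leaf 1 [(5,1)]) (.cons (.leaf 1 [(4,1)]) (.cons (.leaf 1 [(5,1)]) (.cons (.leaf 1 [(4,1)]) (.cons (.leaf 1 [(5,1)]) (.cons (.leaf 1 []) (.cons (.leaf 1 [(5,1)]) (.cons (.leaf 1 [(4,1)]) (.cons (.leaf 1 []) .nil)))))))))))) .nil)))))))))))) .nil)))))))))))) (.cons (.keep [3,6,8,10,11] (.leaf 0 [(0,0)])) (.cons (.keep [3,7,9,10,11,12] (.leaf 0 [(1,0)])) (.cons (.keep [3,6,8,10,11,12] (.leaf 0 [(2,0)])) (.cons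 (.keep [1,2,7,8,12] (.node (.cons (.leaf 1 [(9,1),(10,1),(2,1)]) (.cons (.keep [2,3,5,9,10] (.node (.cons (.keep [2,4,7,8,12] (.node (.cons (.leaf 1 [(4,1)]) (.cons (.leaf 1 [(5,1)]) (.cons (.leaf 1 [(4,1)]) (.cons (.leaf 1 [(5,1)]) (.cons (.leaf 1 [(4,1)]) (.cons (.leaf 1 [(5,1)]) (.cons (.leaf 1 []) (.cons (.leaf 1 [(5,1)]) (.cons (.leaf 1 [(4,1)]) (.cons (.leaf 1 []) .nil)))))))))))) (.cons (.keep [2,5,6,8,11,12] (.node (.cons (.leaf 1 [(4,1)]) (.cons (.leaf 1 [(5,1)]) (.cons (.leaf 1 [(4,1)]) (.cons (.leaf 1 [(5,1)]) (.cons (.leaf 1 [(4,1)]) (.cons (.leaf 1 [(5,1)]) (.cons (.leaf 1 []) (.cons (.leaf 1 [(5,1)]) (.cons (.leaf 1 [(4,1)]) (.cons (.leaf 1 []) .nil)))))))))))) (.cons (.leaf 1 [(1,1)]) (.cons (.leaf 1 [(1,1)]) (.cons (.leaf 1 [(12,1),(1,1)]) (.cons (.leaf 1 [(12,1),(1,1)])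 (.cons (.keep [1,5,9,10,12] (.node (.cons (.leaf 1 [(4,1)]) (.cons (.leaf 1 [(5,1)]) (.cons (.leaf 1 [(4,1)]) (.cons (.leaf 1 [(5,1)]) (.cons (.leaf 1 [(4,1)]) (.cons (.leaf 1 [(5,1)]) (.cons (.leaf 1 []) (.cons (.leaf 1 [(5,1)]) (.cons (.leaf 1 [(4,1)]) (.cons (.leaf 1 []) .nil)))))))))))) (.cons (.keep [6,9,10,11,12] (.node (.cons (.leaf 1 [(4,1)]) (.cons (.leaf 1 [(5,1)]) (.cons (.leaf 1 [(4,1)]) (.cons (.leaf 1 [(5,1)]) (.cons (.leaf 1 [(4,1)]) (.cons (.leaf 1 [(5,1)]) (.cons (.leaf 1 []) (.cons (.leaf 1 [(5,1)]) (.cons (.leaf 1 [(4,1)]) (.cons (.leaf 1 []) .nil)))))))))))) (.cons (.keep [1,7,9,10,12] (.node (.cons (.leaf 1 [(4,1)]) (.cons (.leaf 1 [(5,1)]) (.cons (.leaf 1 [(4,1)]) (.cons (.leaf 1 [(5,1)]) (.cons (.leaf 1 [(4,1)]) (.cons (.leaf 1 [(5,1)]) (.cons (.leaf 1 [])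 (.cons (.leaf 1 [(5,1)]) (.cons (.leaf 1 [(4,1)]) (.cons (.leaf 1 []) .nil)))))))))))) (.cons (.keep [0,4,10,11,12] (.node (.cons (.leaf 1 [(4,1)]) (.cons (.leaf 1 [(5,1)]) (.cons (.leaf 1 [(4,1)]) (.cons (.leaf 1 [(5,1)]) (.cons (.leaf 1 [(4,1)]) (.cons (.leaf 1 [(5,1)]) (.cons (.leaf 1 []) (.cons (.leaf 1 [(5,1)]) (.cons (.leaf 1 [(4,1)]) (.cons (.leaf 1 []) .nil)))))))))))) .nil)))))))))))) (.cons (.leaf 1 [(10,1),(9,1)]) (.cons (.keep [5,9,10,11,12] (.node (.cons (.keep [2,4,7,9,10] (.node (.cons (.leaf 1 [(4,1)]) (.cons (.leaf 1 [(5,1)]) (.cons (.leaf 1 [(4,1)]) (.cons (.leaf 1 [(5,1)]) (.cons (.leaf 1 [(4,1)]) (.cons (.leaf 1 [(5,1)]) (.cons (.leaf 1 []) (.cons (.leaf 1 [(5,1)]) (.cons (.leaf 1 [(4,1)]) (.cons (.leaf 1 []) .nil)))))))))))) (.cons (.keep [2,8,9,10,12] (.node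 (.cons (.leaf 1 [(4,1)]) (.cons (.leaf 1 [(5,1)]) (.cons (.leaf 1 [(4,1)]) (.cons (.leaf 1 [(5,1)]) (.cons (.leaf 1 [(4,1)]) (.cons (.leaf 1 [(5,1)]) (.cons (.leaf 1 []) (.cons (.leaf 1 [(5,1)]) (.cons (.leaf 1 [(4,1)]) (.cons (.leaf 1 []) .nil)))))))))))) (.cons (.leaf 1 [(1,1)]) (.cons (.leaf 1 [(1,1)]) (.cons (.leaf 1 [(10,1),(1,1)]) (.cons (.leaf 1 [(10,1),(1,1)]) (.cons (.keep [1,5,8,10,11] (.node (.cons (.leaf 1 [(4,1)]) (.cons (.leaf 1 [(5,1)]) (.cons (.leaf 1 [(4,1)]) (.cons (.leaf 1 [(5,1)]) (.cons (.leaf 1 [(4,1)]) (.cons (.leaf 1 [(5,1)]) (.cons (.leaf 1 []) (.cons (.leaf 1 [(5,1)]) (.cons (.leaf 1 [(4,1)]) (.cons (.leaf 1 []) .nil)))))))))))) (.cons (.keep [1,6,8,10,11] (.node (.cons (.leaf 1 [(4,1)]) (.cons (.leaf 1 [(5,1)]) (.cons (.leaf 1 [(4,1)]) (.cons (.leaf 1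 [(5,1)]) (.cons (.leaf 1 [(4,1)]) (.cons (.leaf 1 [(5,1)]) (.cons (.leaf 1 []) (.cons (.leaf 1 [(5,1)]) (.cons (.leaf 1 [(4,1)]) (.cons (.leaf 1 []) .nil)))))))))))) (.cons (.keep [7,8,9,10,11] (.node (.cons (.leaf 1 [(4,1)]) (.cons (.leaf 1 [(5,1)]) (.cons (.leaf 1 [(4,1)]) (.cons (.leaf 1 [(5,1)]) (.cons (.leaf 1 [(4,1)]) (.cons (.leaf 1 [(5,1)]) (.cons (.leaf 1 []) (.cons (.leaf 1 [(5,1)]) (.cons (.leaf 1 [(4,1)]) (.cons (.leaf 1 []) .nil)))))))))))) (.cons (.keep [0,4,8,9,10] (.node (.cons (.leaf 1 [(4,1)]) (.cons (.leaf 1 [(5,1)]) (.cons (.leaf 1 [(4,1)]) (.cons (.leaf 1 [(5,1)]) (.cons (.leaf 1 [(4,1)]) (.cons (.leaf 1 [(5,1)]) (.cons (.leaf 1 []) (.cons (.leaf 1 [(5,1)]) (.cons (.leaf 1 [(4,1)]) (.cons (.leaf 1 []) .nil)))))))))))) .nil)))))))))))) (.cons (.leaf 1 [(1,1)])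 (.cons (.leaf 1 [(1,1)]) (.cons (.leaf 1 [(10,1),(1,1)]) (.cons (.leaf 1 [(10,1),(1,1)]) (.cons (.leaf 1 [(10,1),(7,1),(1,1)]) (.cons (.keep [0,2,8,10,12] (.node (.cons (.keep [4,7,8,9,11] (.node (.cons (.leaf 1 [(4,1)]) (.cons (.leaf 1 [(5,1)]) (.cons (.leaf 1 [(4,1)]) (.cons (.leaf 1 [(5,1)]) (.cons (.leaf 1 [(4,1)]) (.cons (.leaf 1 [(5,1)]) (.cons (.leaf 1 []) (.cons (.leaf 1 [(5,1)]) (.cons (.leaf 1 [(4,1)]) (.cons (.leaf 1 []) .nil)))))))))))) (.cons (.keep [5,6,8,9,11] (.node (.cons (.leaf 1 [(4,1)]) (.cons (.leaf 1 [(5,1)]) (.cons (.leaf 1 [(4,1)]) (.cons (.leaf 1 [(5,1)]) (.cons (.leaf 1 [(4,1)]) (.cons (.leaf 1 [(5,1)]) (.cons (.leaf 1 []) (.cons (.leaf 1 [(5,1)]) (.cons (.leaf 1 [(4,1)]) (.cons (.leaf 1 []) .nil)))))))))))) (.cons (.leaf 1 [(1,1)]) (.cons (.leaf 1 [(1,1)])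 (.cons (.leaf 1 [(11,1),(1,1)]) (.cons (.leaf 1 [(11,1),(1,1)]) (.cons (.keep [1,5,8,11] (.node (.cons (.leaf 1 [(4,1)]) (.cons (.leaf 1 [(5,1)]) (.cons (.leaf 1 [(4,1)]) (.cons (.leaf 1 [(5,1)]) (.cons (.leaf 1 [(4,1)]) (.cons (.leaf 1 [(5,1)]) (.cons (.leaf 1 []) (.cons (.leaf 1 [(5,1)]) (.cons (.leaf 1 [(4,1)]) (.cons (.leaf 1 []) .nil)))))))))))) (.cons (.keep [5,6,8,9,11] (.node (.cons (.leaf 1 [(4,1)]) (.cons (.leaf 1 [(5,1)]) (.cons (.leaf 1 [(4,1)]) (.cons (.leaf 1 [(5,1)]) (.cons (.leaf 1 [(4,1)]) (.cons (.leaf 1 [(5,1)]) (.cons (.leaf 1 []) (.cons (.leaf 1 [(5,1)]) (.cons (.leaf 1 [(4,1)]) (.cons (.leaf 1 []) .nil)))))))))))) (.cons (.keep [4,7,8,9,11] (.node (.cons (.leaf 1 [(4,1)]) (.cons (.leaf 1 [(5,1)]) (.cons (.leaf 1 [(4,1)]) (.cons (.leaf 1 [(5,1)]) (.cons (.leaf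 1 [(4,1)]) (.cons (.leaf 1 [(5,1)]) (.cons (.leaf 1 []) (.cons (.leaf 1 [(5,1)]) (.cons (.leaf 1 [(4,1)]) (.cons (.leaf 1 []) .nil)))))))))))) (.cons (.keep [0,4,9,11] (.node (.cons (.leaf 1 [(4,1)]) (.cons (.leaf 1 [(5,1)]) (.cons (.leaf 1 [(4,1)]) (.cons (.leaf 1 [(5,1)]) (.cons (.leaf 1 [(4,1)]) (.cons (.leaf 1 [(5,1)]) (.cons (.leaf 1 []) (.cons (.leaf 1 [(5,1)]) (.cons (.leaf 1 [(4,1)]) (.cons (.leaf 1 []) .nil)))))))))))) .nil)))))))))))) .nil)))))))))))) (.cons (.keep [1,2,5,6,12] (.leaf 0 [(3,0)])) (.cons (.leaf 1 [(9,1),(1,1)]) (.cons (.leaf 1 [(9,1),(6,1),(1,1)]) (.cons (.leaf 1 [(1,1),(7,2),(9,1)]) (.cons (.leaf 1 [(10,1)]) .nil)))))))))))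

theorem c_31_24_24 : Concl 31 24 z_31_24_24 h_31_24_24 .nd := piece _ (hP_cons E63.c_31_24_21
  (hP_cons c_31_24_22 (hP_cons E63.c_31_24_20 (hP_cons c_31_24_23 hP_nil)))) t_31_24_24 _ _ (by
  decide +kernel)

end Pool.Agent.H4.RD4.E64
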