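import Pool.Agent.H4.RD4.E62
import Pool.Agent.H4.RD4.E63
import Pool.Agent.H4.RD4.E64

/-! # Certificates for special cases of order four -/

set_option maxRecDepth 20000

namespace Pool.Agent.H4.RD4.E65

open Pool.Agent.H50.Rdb
open Pool.Agent.H81.RDE (ESB caseOf)

def z_31_24_25 : F := ⟨1, 0, 0, -1, 1⟩

def h_31_24_25 : List F := [⟨1, 0, 0, 0, 0⟩, ⟨1, -1, 0, 0, 0⟩, ⟨0, 0, -1, 1, 0⟩, ⟨0, 0, 0, -1, 1⟩]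

def t_31_24_25 : T := (.node (.cons (.keep [2,4,7,10] (.node (.cons (.leaf 1 [(10,2),(8,2)]) (.cons (.keep [3,5,8,10,11] (.node (.cons (.leaf 1 [(4,2),(12,2)]) (.cons (.leaf 1 [(5,2),(12,2)]) (.cons (.leaf 1 [(1,2)]) (.cons (.leaf 1 [(1,2)]) (.cons (.leaf 1 [(11,2),(1,2)]) (.cons (.leaf 1 [(11,2),(1,2)]) (.cons (.leaf 1 [(12,2)]) (.cons (.leaf 1 [(5,2),(12,2)]) (.cons (.leaf 1 [(4,2),(12,2)]) (.cons (.leaf 1 [(12,2)]) .nil)))))))))))) (.cons (.leaf 1 [(1,2),(10,2),(8,2)]) (.cons (.leaf 1 [(1,2),(11,2)]) (.cons (.leaf 1 [(1,2)]) (.cons (.leaf 1 [(1,2)]) (.cons (.leaf 1 [(10,2),(1,2)]) (.cons (.leaf 1 [(10,2),(1,2)]) (.cons (.leaf 1 [(10,2),(7,2),(1,2)]) (.cons (.keep [0,1,10,11] (.node (.cons (.leaf 1 [(4,2),(11,2)]) (.cons (.leaf 1 [(5,2),(11,2)]) (.cons (.leaf 1 [(1,2)]) (.cons (.leaf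 1 [(1,2)]) (.cons (.leaf 1 [(10,2),(1,2)]) (.cons (.leaf 1 [(10,2),(1,2)]) (.cons (.leaf 1 [(11,2)]) (.cons (.leaf 1 [(5,2),(11,2)]) (.cons (.leaf 1 [(4,2),(11,2)]) (.cons (.leaf 1 [(11,2)]) .nil)))))))))))) .nil)))))))))))) (.cons (.keep [2,5,6,10] (.node (.cons (.keep [4,7,8,10,11] (.node (.cons (.leaf 1 [(4,1),(10,1),(12,1)]) (.cons (.leaf 1 [(5,1),(10,1),(12,1)]) (.cons (.leaf 1 [(1,1),(10,1)]) (.cons (.leaf 1 [(1,1),(10,1)]) (.cons (.leaf 1 [(4,1),(1,1),(12,1)]) (.cons (.leaf 1 [(5,1),(1,1),(12,1)]) (.cons (.leaf 1 [(12,1),(9,1),(1,1)]) (.cons (.leaf 1 [(5,1),(9,1),(1,1),(12,1)]) (.cons (.leaf 1 [(9,1),(12,1),(1,1)]) (.cons (.leaf 1 [(12,1),(10,1)]) .nil)))))))))))) (.cons (.keep [5,6,8,10,11] (.node (.cons (.leaf 1 [(4,2),(11,1),(12,2)]) (.cons (.leaf 1 [(5,2),(11,1),(12,2)]) (.cons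 (.leaf 1 [(1,2),(11,1)]) (.cons (.leaf 1 [(1,2),(11,1)]) (.cons (.leaf 1 [(4,1),(1,1),(12,1)]) (.cons (.leaf 1 [(5,1),(1,1),(12,1)]) (.cons (.leaf 1 [(12,2),(11,1)]) (.cons (.leaf 1 [(5,2),(11,1),(12,2)]) (.cons (.leaf 1 [(4,2),(11,1),(12,2)]) (.cons (.leaf 1 [(12,2),(11,1)]) .nil)))))))))))) (.cons (.leaf 1 [(1,2),(11,1),(8,1)]) (.cons (.leaf 1 [(1,2),(11,2),(10,1)]) (.cons (.leaf 1 [(1,2),(8,1)]) (.cons (.leaf 1 [(1,2),(10,1)]) (.cons (.keep [1,3,5,9,11] (.node (.cons (.leaf 1 [(4,1),(8,1),(12,1)]) (.cons (.leaf 1 [(5,1),(8,1),(12,1)]) (.cons (.leaf 1 [(1,1),(8,1)]) (.cons (.leaf 1 [(1,1),(8,1)]) (.cons (.leaf 1 [(4,1),(1,1),(12,1)]) (.cons (.leaf 1 [(5,1),(1,1),(12,1)]) (.cons (.leaf 1 [(12,1),(8,1)]) (.cons (.leaf 1 [(5,1),(8,1),(12,1)]) (.cons (.leaf 1 [(4,1),(8,1),(12,1)]) (.cons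 (.leaf 1 [(12,1),(8,1)]) .nil)))))))))))) (.cons (.keep [1,3,5,6,9,11] (.node (.cons (.leaf 1 [(4,1),(8,1),(13,1)]) (.cons (.leaf 1 [(5,1),(8,1),(13,1)]) (.cons (.leaf 1 [(1,1),(8,1)]) (.cons (.leaf 1 [(1,1),(8,1)]) (.cons (.leaf 1 [(4,1),(1,1),(13,1)]) (.cons (.leaf 1 [(5,1),(1,1),(13,1)]) (.cons (.leaf 1 [(13,1),(8,1)]) (.cons (.leaf 1 [(5,1),(8,1),(13,1)]) (.cons (.leaf 1 [(4,1),(8,1),(13,1)]) (.cons (.leaf 1 [(13,1),(8,1)]) .nil)))))))))))) (.cons (.keep [1,7,9,10,11] (.node (.cons (.leaf 1 [(9,1),(12,1)]) (.cons (.leaf 1 [(5,1),(9,1),(8,1),(12,1)]) (.cons (.leaf 1 [(1,1),(9,1),(8,1)]) (.cons (.leaf 1 [(1,1),(9,1),(8,1)]) (.cons (.leaf 1 [(4,1),(1,1),(12,1)]) (.cons (.leaf 1 [(5,1),(1,1),(12,1)]) (.cons (.leaf 1 [(12,1),(9,1),(1,1)]) (.cons (.leaf 1 [(5,1),(9,1),(1,1),(12,1)]) (.cons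 (.leaf 1 [(9,1),(12,1),(1,1)]) (.cons (.leaf 1 [(12,1),(9,1),(8,1)]) .nil)))))))))))) (.cons (.keep [0,1,9,10,11] (.node (.cons (.leaf 1 [(4,2),(11,1),(12,2)]) (.cons (.leaf 1 [(5,2),(11,1),(12,2)]) (.cons (.leaf 1 [(1,2),(11,1)]) (.cons (.leaf 1 [(1,2),(11,1)]) (.cons (.leaf 1 [(4,1),(1,1),(12,1)]) (.cons (.leaf 1 [(5,1),(1,1),(12,1)]) (.cons (.leaf 1 [(12,2),(11,1)]) (.cons (.leaf 1 [(5,2),(11,1),(12,2)]) (.cons (.leaf 1 [(4,2),(11,1),(12,2)]) (.cons (.leaf 1 [(12,2),(11,1)]) .nil)))))))))))) .nil)))))))))))) (.cons (.keep [1,7,9,10] (.leaf 0 [(0,0)])) (.cons (.keep [1,6,9,10] (.node (.cons (.keep [4,7,9,11] (.node (.cons (.leaf 1 [(9,2),(2,1),(11,2)]) (.cons (.leaf 1 [(5,3),(10,2),(11,3)]) (.cons (.leaf 1 [(1,3),(10,2)]) (.cons (.leaf 1 [(1,3),(10,2)]) (.cons (.leaf 1 [(4,1),(1,2),(11,1)])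 (.cons (.leaf 1 [(5,1),(1,2),(11,1)]) (.cons (.leaf 1 [(11,1),(9,2),(1,2)]) (.cons (.leaf 1 [(5,1),(9,2),(1,2),(11,1)]) (.cons (.leaf 1 [(11,1),(9,2),(7,1),(1,2)]) (.cons (.leaf 1 [(11,3),(10,2)]) .nil)))))))))))) (.cons (.keep [5,6,9,11] (.node (.cons (.leaf 1 [(11,2),(4,1),(10,1)]) (.cons (.leaf 1 [(5,3),(10,2),(9,1),(11,3)]) (.cons (.leaf 1 [(1,3),(10,2),(9,1)]) (.cons (.leaf 1 [(1,3),(10,2),(9,1)]) (.cons (.leaf 1 [(1,2),(11,1)]) (.cons (.leaf 1 [(5,1),(1,2),(9,1),(11,1)]) (.cons (.leaf 1 [(11,2),(10,1),(1,1)]) (.cons (.leaf 1 [(5,2),(10,1),(1,1),(11,2)]) (.cons (.leaf 1 [(4,1),(10,1),(11,2),(1,1)]) (.cons (.leaf 1 [(11,3),(10,2),(9,1)]) .nil)))))))))))) (.cons (.leaf 1 [(11,3),(1,2),(9,2)]) (.cons (.leaf 1 [(11,3),(1,2),(9,2),(6,1)]) (.cons (.leaf 1 [(1,2),(9,2)]) (.cons (.leaf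 1 [(1,2),(9,2),(6,1)]) (.cons (.keep [1,3,5,10,11] (.node (.cons (.leaf 1 [(4,1),(8,1),(12,1)]) (.cons (.leaf 1 [(5,1),(8,1),(12,1)]) (.cons (.leaf 1 [(1,1),(8,1)]) (.cons (.leaf 1 [(1,1),(8,1)]) (.cons (.leaf 1 [(4,1),(1,1),(12,1)]) (.cons (.leaf 1 [(5,1),(1,1),(12,1)]) (.cons (.leaf 1 [(12,1),(8,1)]) (.cons (.leaf 1 [(5,1),(8,1),(12,1)]) (.cons (.leaf 1 [(4,1),(8,1),(12,1)]) (.cons (.leaf 1 [(12,1),(8,1)]) .nil)))))))))))) (.cons (.keep [1,3,5,6,10,11] (.node (.cons (.leaf 1 [(13,1)]) (.cons (.leaf 1 [(5,1),(8,1),(11,1),(13,1)]) (.cons (.leaf 1 [(1,1),(8,1),(11,1)]) (.cons (.leaf 1 [(1,1),(8,1),(11,1)]) (.cons (.leaf 1 [(1,1),(13,1)]) (.cons (.leaf 1 [(5,1),(1,1),(11,1),(13,1)]) (.cons (.leaf 1 [(13,1),(1,1)]) (.cons (.leaf 1 [(5,1),(1,1),(13,1)]) (.cons (.leaf 1 [(13,1),(1,1)]) (.cons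 (.leaf 1 [(13,1),(8,1),(11,1)]) .nil)))))))))))) (.cons (.keep [1,7,9,10,11] (.node (.cons (.leaf 1 [(12,1),(9,2)]) (.cons (.leaf 1 [(5,1),(8,1),(9,2),(12,1)]) (.cons (.leaf 1 [(1,1),(8,1),(9,2)]) (.cons (.leaf 1 [(9,2),(8,1),(1,1)]) (.cons (.leaf 1 [(12,1),(1,1),(4,2)]) (.cons (.leaf 1 [(5,1),(1,1),(4,1),(12,1)]) (.cons (.leaf 1 [(12,1),(1,1),(9,2)]) (.cons (.leaf 1 [(5,1),(1,1),(9,2),(12,1)]) (.cons (.leaf 1 [(12,1),(9,2),(1,1)]) (.cons (.leaf 1 [(12,1),(8,1),(9,2)]) .nil)))))))))))) (.cons (.keep [0,1,9,10,11] (.node (.cons (.leaf 1 [(4,2),(10,1),(12,2)]) (.cons (.leaf 1 [(5,2),(10,1),(12,2)]) (.cons (.leaf 1 [(1,2),(10,1)]) (.cons (.leaf 1 [(1,2),(10,1)]) (.cons (.leaf 1 [(4,1),(1,1),(12,1)]) (.cons (.leaf 1 [(5,1),(1,1),(12,1)]) (.cons (.leaf 1 [(12,2),(10,1)]) (.cons (.leaf 1 [(5,2),(10,1),(12,2)])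 (.cons (.leaf 1 [(4,2),(10,1),(12,2)]) (.cons (.leaf 1 [(12,2),(10,1)]) .nil)))))))))))) .nil)))))))))))) (.cons (.leaf 1 [(10,2),(1,1)]) (.cons (.leaf 1 [(10,2),(1,1),(6,1)]) (.cons (.leaf 1 [(1,1)]) (.cons (.leaf 1 [(1,1),(6,1)]) (.cons (.leaf 1 [(1,1),(7,2)]) (.cons (.keep [0,1,9,10] (.node (.cons (.keep [4,7,8,9,11] (.node (.cons (.leaf 1 [(4,1),(12,1)]) (.cons (.leaf 1 [(5,1),(12,1)]) (.cons (.leaf 1 [(1,1)]) (.cons (.leaf 1 [(1,1)]) (.cons (.leaf 1 [(4,1),(12,1)]) (.cons (.leaf 1 [(5,1),(12,1)]) (.cons (.leaf 1 [(12,1)]) (.cons (.leaf 1 [(5,1),(12,1)]) (.cons (.leaf 1 [(3,1),(9,1),(12,1)]) (.cons (.leaf 1 [(12,1)]) .nil)))))))))))) (.cons (.keep [5,6,8,9,11] (.node (.cons (.leaf 1 [(4,1),(12,1)]) (.cons (.leaf 1 [(5,1),(12,1)]) (.cons (.leaf 1 [(1,1)]) (.cons (.leaf 1 [(1,1)])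 (.cons (.leaf 1 [(4,1),(12,1)]) (.cons (.leaf 1 [(5,1),(12,1)]) (.cons (.leaf 1 [(12,1)]) (.cons (.leaf 1 [(5,1),(12,1)]) (.cons (.leaf 1 [(4,1),(12,1)]) (.cons (.leaf 1 [(12,1)]) .nil)))))))))))) (.cons (.leaf 1 [(1,1),(11,1)]) (.cons (.leaf 1 [(1,1),(11,1)]) (.cons (.leaf 1 [(1,1)]) (.cons (.leaf 1 [(1,1)]) (.cons (.keep [1,5,8,11] (.node (.cons (.leaf 1 [(4,1),(11,1)]) (.cons (.leaf 1 [(5,1),(11,1)]) (.cons (.leaf 1 [(1,1)]) (.cons (.leaf 1 [(1,1)]) (.cons (.leaf 1 [(4,1),(11,1)]) (.cons (.leaf 1 [(5,1),(11,1)]) (.cons (.leaf 1 [(11,1)]) (.cons (.leaf 1 [(5,1),(11,1)]) (.cons (.leaf 1 [(4,1),(11,1)]) (.cons (.leaf 1 [(11,1)]) .nil)))))))))))) (.cons (.keep [1,5,6,8,11] (.node (.cons (.leaf 1 [(4,1),(12,1)]) (.cons (.leaf 1 [(5,1),(12,1)]) (.cons (.leaf 1 [(1,1)]) (.cons (.leaf 1 [(1,1)])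 (.cons (.leaf 1 [(4,1),(12,1)]) (.cons (.leaf 1 [(5,1),(12,1)]) (.cons (.leaf 1 [(12,1)]) (.cons (.leaf 1 [(5,1),(12,1)]) (.cons (.leaf 1 [(4,1),(12,1)]) (.cons (.leaf 1 [(12,1)]) .nil)))))))))))) (.cons (.keep [4,7,8,9,11] (.node (.cons (.leaf 1 [(4,1),(12,1)]) (.cons (.leaf 1 [(5,1),(12,1)]) (.cons (.leaf 1 [(1,1)]) (.cons (.leaf 1 [(1,1)]) (.cons (.leaf 1 [(4,1),(12,1)]) (.cons (.leaf 1 [(5,1),(12,1)]) (.cons (.leaf 1 [(12,1)]) (.cons (.leaf 1 [(5,1),(12,1)]) (.cons (.leaf 1 [(3,1),(9,1),(12,1)]) (.cons (.leaf 1 [(12,1)]) .nil)))))))))))) (.cons (.keep [0,4,9,11] (.node (.cons (.leaf 1 [(4,1),(11,1)]) (.cons (.leaf 1 [(5,1),(11,1)]) (.cons (.leaf 1 [(1,1)]) (.cons (.leaf 1 [(1,1)]) (.cons (.leaf 1 [(4,1),(11,1)]) (.cons (.leaf 1 [(5,1),(11,1)]) (.cons (.leaf 1 [(11,1)]) (.cons (.leaf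 1 [(5,1),(11,1)]) (.cons (.leaf 1 [(4,1),(11,1)]) (.cons (.leaf 1 [(11,1)]) .nil)))))))))))) .nil)))))))))))) .nil)))))))))))

theorem c_31_24_25 : Concl 31 24 z_31_24_25 h_31_24_25 .nd := piece _ (hP_cons E64.c_31_24_14
  hP_nil) t_31_24_25 _ _ (by decide +kernel)

def z_31_24_26 : F := ⟨1, 0, -1, 0, 1⟩

def h_31_24_26 : List F := [⟨1, 0, 0, 0, 0⟩, ⟨1, -1, 0, 0, 0⟩, ⟨0, 0, 1, -1, 0⟩, ⟨0, 0, -1, 0, 1⟩]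

def t_31_24_26 : T := (.node (.cons (.keep [2,3,7,10] (.leaf 0 [(0,0)])) (.cons (.keep [2,3,5,6,10] (.leaf 0 [(1,0)])) (.cons (.keep [1,7,10,11] (.leaf 0 [(2,0)])) (.cons (.keep [1,6,9,10,11] (.leaf 0 [(3,0)])) (.cons (.keep [1,2,4,7,11] (.node (.cons (.leaf 1 [(9,1),(11,1),(2,1)]) (.cons (.keep [2,5,9,10,11] (.node (.cons (.keep [4,7,8,11,12] (.node (.cons (.leaf 1 [(4,1)]) (.cons (.leaf 1 [(5,1)]) (.cons (.leaf 1 [(4,1)]) (.cons (.leaf 1 [(5,1)]) (.cons (.leaf 1 [(4,1)]) (.cons (.leaf 1 [(5,1)]) (.cons (.leaf 1 []) (.cons (.leaf 1 [(5,1)]) (.cons (.leaf 1 [(4,1)]) (.cons (.leaf 1 []) .nil)))))))))))) (.cons (.keep [2,5,6,8,10,12] (.node (.cons (.leaf 1 [(4,1)]) (.cons (.leaf 1 [(5,1)]) (.cons (.leaf 1 [(4,1)]) (.cons (.leaf 1 [(5,1)]) (.cons (.leaf 1 [(4,1)]) (.cons (.leaf 1 [(5,1)])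 (.cons (.leaf 1 []) (.cons (.leaf 1 [(5,1)]) (.cons (.leaf 1 [(4,1)]) (.cons (.leaf 1 []) .nil)))))))))))) (.cons (.leaf 1 [(1,1)]) (.cons (.leaf 1 [(1,1)]) (.cons (.leaf 1 [(12,1),(1,1)]) (.cons (.leaf 1 [(12,1),(1,1)]) (.cons (.keep [1,5,9,11,12] (.node (.cons (.leaf 1 [(4,1)]) (.cons (.leaf 1 [(5,1)]) (.cons (.leaf 1 [(4,1)]) (.cons (.leaf 1 [(5,1)]) (.cons (.leaf 1 [(4,1)]) (.cons (.leaf 1 [(5,1)]) (.cons (.leaf 1 []) (.cons (.leaf 1 [(5,1)]) (.cons (.leaf 1 [(4,1)]) (.cons (.leaf 1 []) .nil)))))))))))) (.cons (.keep [6,9,10,11,12] (.node (.cons (.leaf 1 [(4,1)]) (.cons (.leaf 1 [(5,1)]) (.cons (.leaf 1 [(4,1)]) (.cons (.leaf 1 [(5,1)]) (.cons (.leaf 1 [(4,1)]) (.cons (.leaf 1 [(5,1)]) (.cons (.leaf 1 []) (.cons (.leaf 1 [(5,1)]) (.cons (.leaf 1 [(4,1)]) (.cons (.leaf 1 []) .nil))))))))))))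 (.cons (.keep [1,7,9,11,12] (.node (.cons (.leaf 1 [(4,1)]) (.cons (.leaf 1 [(5,1)]) (.cons (.leaf 1 [(4,1)]) (.cons (.leaf 1 [(5,1)]) (.cons (.leaf 1 [(4,1)]) (.cons (.leaf 1 [(5,1)]) (.cons (.leaf 1 []) (.cons (.leaf 1 [(5,1)]) (.cons (.leaf 1 [(4,1)]) (.cons (.leaf 1 []) .nil)))))))))))) (.cons (.keep [0,4,9,10,12] (.node (.cons (.leaf 1 [(4,1)]) (.cons (.leaf 1 [(5,1)]) (.cons (.leaf 1 [(4,1)]) (.cons (.leaf 1 [(5,1)]) (.cons (.leaf 1 [(4,1)]) (.cons (.leaf 1 [(5,1)]) (.cons (.leaf 1 []) (.cons (.leaf 1 [(5,1)]) (.cons (.leaf 1 [(4,1)]) (.cons (.leaf 1 []) .nil)))))))))))) .nil)))))))))))) (.cons (.leaf 1 [(11,1),(9,1)]) (.cons (.keep [3,5,9,11,12] (.node (.cons (.keep [4,7,8,10,11] (.node (.cons (.leaf 1 [(4,1)]) (.cons (.leaf 1 [(5,1)]) (.cons (.leaf 1 [(4,1)]) (.cons (.leaf 1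 [(5,1)]) (.cons (.leaf 1 [(4,1)]) (.cons (.leaf 1 [(5,1)]) (.cons (.leaf 1 []) (.cons (.leaf 1 [(5,1)]) (.cons (.leaf 1 [(4,1)]) (.cons (.leaf 1 []) .nil)))))))))))) (.cons (.keep [2,9,10,11,12] (.node (.cons (.leaf 1 [(4,1)]) (.cons (.leaf 1 [(5,1)]) (.cons (.leaf 1 [(4,1)]) (.cons (.leaf 1 [(5,1)]) (.cons (.leaf 1 [(4,1)]) (.cons (.leaf 1 [(5,1)]) (.cons (.leaf 1 []) (.cons (.leaf 1 [(5,1)]) (.cons (.leaf 1 [(4,1)]) (.cons (.leaf 1 []) .nil)))))))))))) (.cons (.leaf 1 [(1,1)]) (.cons (.leaf 1 [(1,1)]) (.cons (.leaf 1 [(11,1),(1,1)]) (.cons (.leaf 1 [(11,1),(1,1)]) (.cons (.keep [1,5,8,9,11] (.node (.cons (.leaf 1 [(4,1)]) (.cons (.leaf 1 [(5,1)]) (.cons (.leaf 1 [(4,1)]) (.cons (.leaf 1 [(5,1)]) (.cons (.leaf 1 [(4,1)]) (.cons (.leaf 1 [(5,1)]) (.cons (.leaf 1 []) (.cons (.leaf 1 [(5,1)])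 (.cons (.leaf 1 [(4,1)]) (.cons (.leaf 1 []) .nil)))))))))))) (.cons (.keep [1,6,8,9,11] (.node (.cons (.leaf 1 [(4,1)]) (.cons (.leaf 1 [(5,1)]) (.cons (.leaf 1 [(4,1)]) (.cons (.leaf 1 [(5,1)]) (.cons (.leaf 1 [(4,1)]) (.cons (.leaf 1 [(5,1)]) (.cons (.leaf 1 []) (.cons (.leaf 1 [(5,1)]) (.cons (.leaf 1 [(4,1)]) (.cons (.leaf 1 []) .nil)))))))))))) (.cons (.keep [7,8,9,10,11] (.node (.cons (.leaf 1 [(4,1)]) (.cons (.leaf 1 [(5,1)]) (.cons (.leaf 1 [(4,1)]) (.cons (.leaf 1 [(5,1)]) (.cons (.leaf 1 [(4,1)]) (.cons (.leaf 1 [(5,1)]) (.cons (.leaf 1 []) (.cons (.leaf 1 [(5,1)]) (.cons (.leaf 1 [(4,1)]) (.cons (.leaf 1 []) .nil)))))))))))) (.cons (.keep [0,4,9,10,11] (.node (.cons (.leaf 1 [(4,1)]) (.cons (.leaf 1 [(5,1)]) (.cons (.leaf 1 [(4,1)]) (.cons (.leaf 1 [(5,1)]) (.cons (.leaf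 1 [(4,1)]) (.cons (.leaf 1 [(5,1)]) (.cons (.leaf 1 []) (.cons (.leaf 1 [(5,1)]) (.cons (.leaf 1 [(4,1)]) (.cons (.leaf 1 []) .nil)))))))))))) .nil)))))))))))) (.cons (.leaf 1 [(1,1)]) (.cons (.leaf 1 [(1,1)]) (.cons (.leaf 1 [(11,1),(1,1)]) (.cons (.leaf 1 [(11,1),(1,1)]) (.cons (.leaf 1 [(11,1),(7,1),(1,1)]) (.cons (.keep [0,2,8,11,12] (.node (.cons (.keep [4,7,8,9,11] (.node (.cons (.leaf 1 [(4,1)]) (.cons (.leaf 1 [(5,1)]) (.cons (.leaf 1 [(4,1)]) (.cons (.leaf 1 [(5,1)]) (.cons (.leaf 1 [(4,1)]) (.cons (.leaf 1 [(5,1)]) (.cons (.leaf 1 []) (.cons (.leaf 1 [(5,1)]) (.cons (.leaf 1 [(4,1)]) (.cons (.leaf 1 []) .nil)))))))))))) (.cons (.keep [5,6,8,9,11] (.node (.cons (.leaf 1 [(4,1)]) (.cons (.leaf 1 [(5,1)]) (.cons (.leaf 1 [(4,1)]) (.cons (.leaf 1 [(5,1)]) (.cons (.leaf 1 [(4,1)])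 (.cons (.leaf 1 [(5,1)]) (.cons (.leaf 1 []) (.cons (.leaf 1 [(5,1)]) (.cons (.leaf 1 [(4,1)]) (.cons (.leaf 1 []) .nil)))))))))))) (.cons (.leaf 1 [(1,1)]) (.cons (.leaf 1 [(1,1)]) (.cons (.leaf 1 [(11,1),(1,1)]) (.cons (.leaf 1 [(11,1),(1,1)]) (.cons (.keep [1,5,8,11] (.node (.cons (.leaf 1 [(4,1)]) (.cons (.leaf 1 [(5,1)]) (.cons (.leaf 1 [(4,1)]) (.cons (.leaf 1 [(5,1)]) (.cons (.leaf 1 [(4,1)]) (.cons (.leaf 1 [(5,1)]) (.cons (.leaf 1 []) (.cons (.leaf 1 [(5,1)]) (.cons (.leaf 1 [(4,1)]) (.cons (.leaf 1 []) .nil)))))))))))) (.cons (.keep [5,6,8,9,11] (.node (.cons (.leaf 1 [(4,1)]) (.cons (.leaf 1 [(5,1)]) (.cons (.leaf 1 [(4,1)]) (.cons (.leaf 1 [(5,1)]) (.cons (.leaf 1 [(4,1)]) (.cons (.leaf 1 [(5,1)]) (.cons (.leaf 1 []) (.cons (.leaf 1 [(5,1)]) (.cons (.leaf 1 [(4,1)]) (.cons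 (.leaf 1 []) .nil)))))))))))) (.cons (.keep [4,7,8,9,11] (.node (.cons (.leaf 1 [(4,1)]) (.cons (.leaf 1 [(5,1)]) (.cons (.leaf 1 [(4,1)]) (.cons (.leaf 1 [(5,1)]) (.cons (.leaf 1 [(4,1)]) (.cons (.leaf 1 [(5,1)]) (.cons (.leaf 1 []) (.cons (.leaf 1 [(5,1)]) (.cons (.leaf 1 [(4,1)]) (.cons (.leaf 1 []) .nil)))))))))))) (.cons (.keep [0,4,9,11] (.node (.cons (.leaf 1 [(4,1)]) (.cons (.leaf 1 [(5,1)]) (.cons (.leaf 1 [(4,1)]) (.cons (.leaf 1 [(5,1)]) (.cons (.leaf 1 [(4,1)]) (.cons (.leaf 1 [(5,1)]) (.cons (.leaf 1 []) (.cons (.leaf 1 [(5,1)]) (.cons (.leaf 1 [(4,1)]) (.cons (.leaf 1 []) .nil)))))))))))) .nil)))))))))))) .nil)))))))))))) (.cons (.keep [1,2,5,6,11] (.leaf 0 [(4,0)])) (.cons (.leaf 1 [(10,1),(1,1)]) (.cons (.leaf 1 [(10,1),(6,1),(1,1)]) (.cons (.leaf 1 [(1,1),(7,2),(10,1)])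 (.cons (.keep [0,1,9,10] (.node (.cons (.keep [4,7,8,9,11] (.node (.cons (.leaf 1 [(4,1)]) (.cons (.leaf 1 [(5,1)]) (.cons (.leaf 1 [(4,1)]) (.cons (.leaf 1 [(5,1)]) (.cons (.leaf 1 [(4,1)]) (.cons (.leaf 1 [(5,1)]) (.cons (.leaf 1 []) (.cons (.leaf 1 [(5,1)]) (.cons (.leaf 1 [(4,1)]) (.cons (.leaf 1 []) .nil)))))))))))) (.cons (.keep [5,6,8,9,11] (.node (.cons (.leaf 1 [(4,1)]) (.cons (.leaf 1 [(5,1)]) (.cons (.leaf 1 [(4,1)]) (.cons (.leaf 1 [(5,1)]) (.cons (.leaf 1 [(4,1)]) (.cons (.leaf 1 [(5,1)]) (.cons (.leaf 1 []) (.cons (.leaf 1 [(5,1)]) (.cons (.leaf 1 [(4,1)]) (.cons (.leaf 1 []) .nil)))))))))))) (.cons (.leaf 1 [(1,1)]) (.cons (.leaf 1 [(1,1)]) (.cons (.leaf 1 [(11,1),(1,1)]) (.cons (.leaf 1 [(11,1),(1,1)]) (.cons (.keep [1,5,8,11] (.node (.cons (.leaf 1 [(4,1)]) (.cons (.leaf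 1 [(5,1)]) (.cons (.leaf 1 [(4,1)]) (.cons (.leaf 1 [(5,1)]) (.cons (.leaf 1 [(4,1)]) (.cons (.leaf 1 [(5,1)]) (.cons (.leaf 1 []) (.cons (.leaf 1 [(5,1)]) (.cons (.leaf 1 [(4,1)]) (.cons (.leaf 1 []) .nil)))))))))))) (.cons (.keep [1,5,6,8,11] (.node (.cons (.leaf 1 [(4,1)]) (.cons (.leaf 1 [(5,1)]) (.cons (.leaf 1 [(4,1)]) (.cons (.leaf 1 [(5,1)]) (.cons (.leaf 1 [(4,1)]) (.cons (.leaf 1 [(5,1)]) (.cons (.leaf 1 []) (.cons (.leaf 1 [(5,1)]) (.cons (.leaf 1 [(4,1)]) (.cons (.leaf 1 []) .nil)))))))))))) (.cons (.keep [4,7,8,9,11] (.node (.cons (.leaf 1 [(4,1)]) (.cons (.leaf 1 [(5,1)]) (.cons (.leaf 1 [(4,1)]) (.cons (.leaf 1 [(5,1)]) (.cons (.leaf 1 [(4,1)]) (.cons (.leaf 1 [(5,1)]) (.cons (.leaf 1 []) (.cons (.leaf 1 [(5,1)]) (.cons (.leaf 1 [(4,1)]) (.cons (.leaf 1 []) .nil))))))))))))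 (.cons (.keep [0,4,9,11] (.node (.cons (.leaf 1 [(4,1)]) (.cons (.leaf 1 [(5,1)]) (.cons (.leaf 1 [(4,1)]) (.cons (.leaf 1 [(5,1)]) (.cons (.leaf 1 [(4,1)]) (.cons (.leaf 1 [(5,1)]) (.cons (.leaf 1 []) (.cons (.leaf 1 [(5,1)]) (.cons (.leaf 1 [(4,1)]) (.cons (.leaf 1 []) .nil)))))))))))) .nil)))))))))))) .nil)))))))))))

theorem c_31_24_26 : Concl 31 24 z_31_24_26 h_31_24_26 .nd := piece _ (hP_cons E62.c_31_24_9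
  (hP_cons E62.c_31_24_7 (hP_cons E64.c_31_24_6 (hP_cons E62.c_31_24_5 (hP_cons E62.c_31_24_8
  hP_nil))))) t_31_24_26 _ _ (by decide +kernel)

def z_31_24_27 : F := ⟨0, 1, 0, -1, 1⟩

def h_31_24_27 : List F := [⟨0, 1, 0, 0, 0⟩, ⟨-1, 1, 0, 0, 0⟩, ⟨0, 0, -1, 1, 0⟩, ⟨0, 0, 0, -1, 1⟩]

def t_31_24_27 : T := (.node (.cons (.leaf 1 [(2,2),(9,1)]) (.cons (.keep [2,5,6,9,10] (.node (.cons (.keep [4,7,8,10,12] (.node (.cons (.leaf 1 [(4,1),(10,1),(12,1)]) (.cons (.leaf 1 [(5,1),(10,1),(12,1)]) (.cons (.leaf 1 [(1,1),(10,1)]) (.cons (.leaf 1 [(1,1),(10,1)]) (.cons (.leaf 1 [(4,1),(1,1),(12,1)]) (.cons (.leaf 1 [(5,1),(1,1),(12,1)]) (.cons (.leaf 1 [(12,1),(9,1),(1,1)]) (.cons (.leaf 1 [(5,1),(9,1),(1,1),(12,1)]) (.cons (.leaf 1 [(9,1),(12,1),(1,1)]) (.cons (.leaf 1 [(12,1),(10,1)]) .nil))))))))))))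 (.cons (.keep [5,6,8,10,11,12] (.node (.cons (.leaf 1 [(13,1)]) (.cons (.leaf 1 [(5,1),(10,1),(13,1)]) (.cons (.leaf 1 [(1,1),(10,1)]) (.cons (.leaf 1 [(1,1),(10,1)]) (.cons (.leaf 1 [(1,1),(13,1)]) (.cons (.leaf 1 [(5,1),(1,1),(9,1),(13,1)]) (.cons (.leaf 1 [(13,1),(1,1)]) (.cons (.leaf 1 [(5,1),(1,1),(13,1)]) (.cons (.leaf 1 [(13,1),(1,1)]) (.cons (.leaf 1 [(13,1),(10,1)]) .nil)))))))))))) (.cons (.leaf 1 [(8,1),(12,1),(1,1)]) (.cons (.leaf 1 [(8,1),(12,1),(1,1)]) (.cons (.leaf 1 [(1,1),(8,1)]) (.cons (.leaf 1 [(1,1),(8,1)]) (.cons (.keep [1,3,5,9,12] (.node (.cons (.leaf 1 [(4,1),(12,1)]) (.cons (.leaf 1 [(5,1),(12,1)]) (.cons (.leaf 1 [(1,1)]) (.cons (.leaf 1 [(1,1)]) (.cons (.leaf 1 [(4,1),(12,1)]) (.cons (.leaf 1 [(5,1),(12,1)]) (.cons (.leaf 1 [(12,1)]) (.cons (.leaf 1 [(5,1),(12,1)])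 (.cons (.leaf 1 [(4,1),(12,1)]) (.cons (.leaf 1 [(12,1)]) .nil)))))))))))) (.cons (.keep [3,6,9,11,12] (.node (.cons (.leaf 1 [(3,1),(12,1)]) (.cons (.leaf 1 [(5,1),(9,1),(12,1)]) (.cons (.leaf 1 [(1,1),(9,1)]) (.cons (.leaf 1 [(1,1),(9,1)]) (.cons (.leaf 1 [(12,1)]) (.cons (.leaf 1 [(5,1),(9,1),(12,1)]) (.cons (.leaf 1 [(12,1),(3,1)]) (.cons (.leaf 1 [(5,1),(12,1),(3,1)]) (.cons (.leaf 1 [(12,1),(3,1)]) (.cons (.leaf 1 [(12,1),(9,1)]) .nil)))))))))))) (.cons (.keep [1,7,9,10,12] (.node (.cons (.leaf 1 [(3,1),(12,1),(9,2)]) (.cons (.leaf 1 [(5,1),(9,1),(12,1)]) (.cons (.leaf 1 [(1,1),(9,1)]) (.cons (.leaf 1 [(9,1),(1,1)]) (.cons (.leaf 1 [(12,1),(4,2)]) (.cons (.leaf 1 [(5,1),(4,1),(12,1)]) (.cons (.leaf 1 [(12,1),(9,1)]) (.cons (.leaf 1 [(5,1),(9,1),(12,1)]) (.cons (.leaf 1 [(12,1),(9,1),(4,1)])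 (.cons (.leaf 1 [(12,1),(9,1)]) .nil)))))))))))) (.cons (.keep [0,4,9,11,12] (.node (.cons (.leaf 1 [(4,1),(12,1)]) (.cons (.leaf 1 [(5,1),(12,1)]) (.cons (.leaf 1 [(1,1)]) (.cons (.leaf 1 [(1,1)]) (.cons (.leaf 1 [(4,1),(12,1)]) (.cons (.leaf 1 [(5,1),(12,1)]) (.cons (.leaf 1 [(12,1)]) (.cons (.leaf 1 [(5,1),(12,1)]) (.cons (.leaf 1 [(4,1),(12,1)]) (.cons (.leaf 1 [(12,1)]) .nil)))))))))))) .nil)))))))))))) (.cons (.keep [4,7,9,10,11] (.leaf 0 [(0,0)])) (.cons (.keep [5,9,10,11] (.node (.cons (.keep [3,4,7,9,10] (.node (.cons (.leaf 1 [(4,1),(11,1),(12,1)]) (.cons (.leaf 1 [(5,1),(11,1),(12,1)]) (.cons (.leaf 1 [(1,1),(11,1)]) (.cons (.leaf 1 [(1,1),(11,1)]) (.cons (.leaf 1 [(4,1),(1,1),(12,1)]) (.cons (.leaf 1 [(5,1),(1,1),(12,1)]) (.cons (.leaf 1 [(12,1),(10,1),(1,1)]) (.cons (.leaf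 1 [(5,1),(10,1),(1,1),(12,1)]) (.cons (.leaf 1 [(10,1),(12,1),(1,1)]) (.cons (.leaf 1 [(12,1),(11,1)]) .nil)))))))))))) (.cons (.keep [3,6,8,9,10] (.node (.cons (.leaf 1 [(12,1)]) (.cons (.leaf 1 [(5,1),(11,1),(9,1),(12,1)]) (.cons (.leaf 1 [(1,1),(11,1),(9,1)]) (.cons (.leaf 1 [(1,1),(11,1),(9,1)]) (.cons (.leaf 1 [(1,1),(12,1)]) (.cons (.leaf 1 [(5,1),(1,1),(9,1),(12,1)]) (.cons (.leaf 1 [(12,1),(1,1)]) (.cons (.leaf 1 [(5,1),(1,1),(12,1)]) (.cons (.leaf 1 [(12,1),(1,1)]) (.cons (.leaf 1 [(12,1),(11,1),(9,1)]) .nil)))))))))))) (.cons (.leaf 1 [(10,1),(9,1)]) (.cons (.leaf 1 [(10,1),(9,1),(6,1)]) (.cons (.leaf 1 [(9,1)]) (.cons (.leaf 1 [(9,1),(6,1)]) (.cons (.keep [1,5,8,10,11] (.node (.cons (.leaf 1 [(4,1),(11,1)]) (.cons (.leaf 1 [(5,1),(11,1)]) (.cons (.leaf 1 [(1,1)]) (.cons (.leaf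 1 [(1,1)]) (.cons (.leaf 1 [(4,1),(11,1)]) (.cons (.leaf 1 [(5,1),(11,1)]) (.cons (.leaf 1 [(11,1)]) (.cons (.leaf 1 [(5,1),(11,1)]) (.cons (.leaf 1 [(4,1),(11,1)]) (.cons (.leaf 1 [(11,1)]) .nil)))))))))))) (.cons (.keep [1,6,8,10,11] (.node (.cons (.leaf 1 [(3,1),(11,1)]) (.cons (.leaf 1 [(5,1),(9,1),(11,1)]) (.cons (.leaf 1 [(1,1),(9,1)]) (.cons (.leaf 1 [(1,1),(9,1)]) (.cons (.leaf 1 [(11,1)]) (.cons (.leaf 1 [(5,1),(9,1),(11,1)]) (.cons (.leaf 1 [(11,1),(3,1)]) (.cons (.leaf 1 [(5,1),(11,1),(3,1)]) (.cons (.leaf 1 [(11,1),(3,1)]) (.cons (.leaf 1 [(11,1),(9,1)]) .nil)))))))))))) (.cons (.keep [7,8,9,10,11] (.node (.cons (.leaf 1 [(3,1),(11,1),(8,2)]) (.cons (.leaf 1 [(5,1),(8,1),(11,1)]) (.cons (.leaf 1 [(1,1),(8,1)]) (.cons (.leaf 1 [(8,1),(1,1)]) (.cons (.leaf 1 [(11,1),(4,2)])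 (.cons (.leaf 1 [(5,1),(4,1),(11,1)]) (.cons (.leaf 1 [(11,1),(8,1)]) (.cons (.leaf 1 [(5,1),(8,1),(11,1)]) (.cons (.leaf 1 [(11,1),(8,1),(4,1)]) (.cons (.leaf 1 [(11,1),(8,1)]) .nil)))))))))))) (.cons (.keep [0,4,8,9,10] (.node (.cons (.leaf 1 [(4,1),(12,1)]) (.cons (.leaf 1 [(5,1),(12,1)]) (.cons (.leaf 1 [(1,1)]) (.cons (.leaf 1 [(1,1)]) (.cons (.leaf 1 [(4,1),(12,1)]) (.cons (.leaf 1 [(5,1),(12,1)]) (.cons (.leaf 1 [(12,1)]) (.cons (.leaf 1 [(5,1),(12,1)]) (.cons (.leaf 1 [(4,1),(12,1)]) (.cons (.leaf 1 [(12,1)]) .nil)))))))))))) .nil)))))))))))) (.cons (.leaf 1 [(2,1),(10,1)]) (.cons (.leaf 1 [(10,1),(2,1)]) (.cons (.leaf 1 [(2,1)]) (.cons (.leaf 1 [(2,1)]) (.cons (.leaf 1 [(7,1),(2,1)]) (.cons (.keep [0,2,8,10] (.node (.cons (.keep [4,7,8,9,11] (.node (.cons (.leaf 2 [(4,2),(11,1),(12,2)])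 (.cons (.leaf 2 [(5,2),(11,1),(12,2)]) (.cons (.leaf 2 [(1,2),(11,1)]) (.cons (.leaf 2 [(1,2),(11,1)]) (.cons (.leaf 1 [(4,1),(1,1),(12,1)]) (.cons (.leaf 1 [(5,1),(1,1),(12,1)]) (.cons (.leaf 1 [(12,1),(9,1),(1,1)]) (.cons (.leaf 1 [(5,1),(9,1),(1,1),(12,1)]) (.cons (.leaf 1 [(9,1),(12,1),(1,1)]) (.cons (.leaf 2 [(12,2),(11,1)]) .nil)))))))))))) (.cons (.keep [5,6,8,9,11] (.node (.cons (.leaf 1 [(12,1)]) (.cons (.leaf 1 [(5,1),(11,1),(3,1),(12,1)]) (.cons (.leaf 1 [(3,1),(11,1)]) (.cons (.leaf 1 [(3,1),(11,1)]) (.cons (.leaf 1 [(1,1),(12,1)]) (.cons (.leaf 1 [(5,1),(1,1),(9,1),(12,1)]) (.cons (.leaf 1 [(12,1),(1,1)]) (.cons (.leaf 1 [(5,1),(1,1),(12,1)]) (.cons (.leaf 1 [(12,1),(1,1)]) (.cons (.leaf 2 [(12,2),(11,1),(9,1)]) .nil)))))))))))) (.cons (.leaf 2 [(11,2),(1,1),(9,1)]) (.cons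 (.leaf 2 [(11,2),(1,1),(9,1),(6,1)]) (.cons (.leaf 2 [(1,1),(9,1)]) (.cons (.leaf 1 [(9,1),(4,1)]) (.cons (.keep [1,5,8,11] (.node (.cons (.leaf 1 [(4,1),(11,1)]) (.cons (.leaf 1 [(5,1),(11,1)]) (.cons (.leaf 1 [(1,1)]) (.cons (.leaf 1 [(1,1)]) (.cons (.leaf 1 [(4,1),(11,1)]) (.cons (.leaf 1 [(5,1),(11,1)]) (.cons (.leaf 1 [(11,1)]) (.cons (.leaf 1 [(5,1),(11,1)]) (.cons (.leaf 1 [(4,1),(11,1)]) (.cons (.leaf 1 [(11,1)]) .nil)))))))))))) (.cons (.keep [5,6,8,9,11] (.node (.cons (.leaf 1 [(3,1),(12,1)]) (.cons (.leaf 1 [(5,1),(9,1),(12,1)]) (.cons (.leaf 1 [(1,1),(9,1)]) (.cons (.leaf 1 [(1,1),(9,1)]) (.cons (.leaf 1 [(12,1)]) (.cons (.leaf 1 [(5,1),(9,1),(12,1)]) (.cons (.leaf 1 [(12,1),(3,1)]) (.cons (.leaf 1 [(5,1),(12,1),(3,1)]) (.cons (.leaf 1 [(12,1),(3,1)]) (.cons (.leaf 1 [(12,1),(9,1)])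 .nil)))))))))))) (.cons (.keep [4,7,8,9,11] (.node (.cons (.leaf 1 [(3,1),(12,1),(9,2)]) (.cons (.leaf 1 [(5,1),(9,1),(12,1)]) (.cons (.leaf 1 [(1,1),(9,1)]) (.cons (.leaf 1 [(9,1),(1,1)]) (.cons (.leaf 1 [(12,1),(4,2)]) (.cons (.leaf 1 [(5,1),(4,1),(12,1)]) (.cons (.leaf 1 [(12,1),(9,1)]) (.cons (.leaf 1 [(5,1),(9,1),(12,1)]) (.cons (.leaf 1 [(12,1),(9,1),(4,1)]) (.cons (.leaf 1 [(12,1),(9,1)]) .nil)))))))))))) (.cons (.keep [0,4,9,11] (.node (.cons (.leaf 1 [(4,1),(11,1)]) (.cons (.leaf 1 [(5,1),(11,1)]) (.cons (.leaf 1 [(1,1)]) (.cons (.leaf 1 [(1,1)]) (.cons (.leaf 1 [(4,1),(11,1)]) (.cons (.leaf 1 [(5,1),(11,1)]) (.cons (.leaf 1 [(11,1)]) (.cons (.leaf 1 [(5,1),(11,1)]) (.cons (.leaf 1 [(4,1),(11,1)]) (.cons (.leaf 1 [(11,1)]) .nil)))))))))))) .nil)))))))))))) .nil)))))))))))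

theorem c_31_24_27 : Concl 31 24 z_31_24_27 h_31_24_27 .nd := piece _ (hP_cons E64.c_31_24_24
  hP_nil) t_31_24_27 _ _ (by decide +kernel)

def t_31_24 : T := (.keep [0,1,2] (.node (.cons (.keep [2,3,4,7] (.node (.cons (.leaf 1 [(11,1),(8,1)]) (.cons (.keep [2,3,5,8,11] (.node (.cons (.keep [2,4,7,8,12] (.node (.cons (.leaf 1 [(4,1)]) (.cons (.leaf 1 [(5,1)]) (.cons (.leaf 1 [(4,1)]) (.cons (.leaf 1 [(5,1)]) (.cons (.leaf 1 [(4,1)]) (.cons (.leaf 1 [(5,1)]) (.cons (.leaf 1 []) (.cons (.leaf 1 [(5,1)]) (.cons (.leaf 1 [(4,1)]) (.cons (.leaf 1 []) .nil)))))))))))) (.cons (.keep [2,5,6,11,12] (.node (.cons (.leaf 1 [(4,1)]) (.cons (.leaf 1 [(5,1)]) (.cons (.leaf 1 [(4,1)]) (.cons (.leaf 1 [(5,1)]) (.cons (.leaf 1 [(4,1)]) (.cons (.leaf 1 [(5,1)]) (.cons (.leaf 1 []) (.cons (.leaf 1 [(5,1)])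 (.cons (.leaf 1 [(4,1)]) (.cons (.leaf 1 []) .nil)))))))))))) (.cons (.leaf 1 [(1,1)]) (.cons (.leaf 1 [(1,1)]) (.cons (.leaf 1 [(12,1),(1,1)]) (.cons (.leaf 1 [(12,1),(1,1)]) (.cons (.keep [1,5,9,10,12] (.node (.cons (.leaf 1 [(4,1)]) (.cons (.leaf 1 [(5,1)]) (.cons (.leaf 1 [(4,1)]) (.cons (.leaf 1 [(5,1)]) (.cons (.leaf 1 [(4,1)]) (.cons (.leaf 1 [(5,1)]) (.cons (.leaf 1 []) (.cons (.leaf 1 [(5,1)]) (.cons (.leaf 1 [(4,1)]) (.cons (.leaf 1 []) .nil)))))))))))) (.cons (.keep [1,5,6,9,10,12] (.node (.cons (.leaf 1 [(4,1)]) (.cons (.leaf 1 [(5,1)]) (.cons (.leaf 1 [(4,1)]) (.cons (.leaf 1 [(5,1)]) (.cons (.leaf 1 [(4,1)]) (.cons (.leaf 1 [(5,1)]) (.cons (.leaf 1 []) (.cons (.leaf 1 [(5,1)]) (.cons (.leaf 1 [(4,1)]) (.cons (.leaf 1 []) .nil)))))))))))) (.cons (.keep [4,7,9,10,11,12] (.node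 (.cons (.leaf 1 [(4,1)]) (.cons (.leaf 1 [(5,1)]) (.cons (.leaf 1 [(4,1)]) (.cons (.leaf 1 [(5,1)]) (.cons (.leaf 1 [(4,1)]) (.cons (.leaf 1 [(5,1)]) (.cons (.leaf 1 []) (.cons (.leaf 1 [(5,1)]) (.cons (.leaf 1 [(4,1)]) (.cons (.leaf 1 []) .nil)))))))))))) (.cons (.keep [0,4,10,11,12] (.node (.cons (.leaf 1 [(4,1)]) (.cons (.leaf 1 [(5,1)]) (.cons (.leaf 1 [(4,1)]) (.cons (.leaf 1 [(5,1)]) (.cons (.leaf 1 [(4,1)]) (.cons (.leaf 1 [(5,1)]) (.cons (.leaf 1 []) (.cons (.leaf 1 [(5,1)]) (.cons (.leaf 1 [(4,1)]) (.cons (.leaf 1 []) .nil)))))))))))) .nil)))))))))))) (.cons (.leaf 1 [(1,1),(11,1),(8,1)]) (.cons (.keep [1,5,8,9,10,11] (.node (.cons (.keep [2,4,7,10,13] (.node (.cons (.leaf 1 [(4,1)]) (.cons (.leaf 1 [(5,1)]) (.cons (.leaf 1 [(4,1)]) (.cons (.leaf 1 [(5,1)]) (.cons (.leaf 1 [(4,1)])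 (.cons (.leaf 1 [(5,1)]) (.cons (.leaf 1 []) (.cons (.leaf 1 [(5,1)]) (.cons (.leaf 1 [(4,1)]) (.cons (.leaf 1 []) .nil)))))))))))) (.cons (.keep [2,5,9,10,11,13] (.node (.cons (.leaf 1 [(4,1)]) (.cons (.leaf 1 [(5,1)]) (.cons (.leaf 1 [(4,1)]) (.cons (.leaf 1 [(5,1)]) (.cons (.leaf 1 [(4,1)]) (.cons (.leaf 1 [(5,1)]) (.cons (.leaf 1 []) (.cons (.leaf 1 [(5,1)]) (.cons (.leaf 1 [(4,1)]) (.cons (.leaf 1 []) .nil)))))))))))) (.cons (.leaf 1 [(1,1)]) (.cons (.leaf 1 [(1,1)]) (.cons (.leaf 1 [(13,1),(1,1)]) (.cons (.leaf 1 [(13,1),(1,1)]) (.cons (.keep [1,5,9,12,13] (.node (.cons (.leaf 1 [(4,1)]) (.cons (.leaf 1 [(5,1)]) (.cons (.leaf 1 [(4,1)]) (.cons (.leaf 1 [(5,1)]) (.cons (.leaf 1 [(4,1)]) (.cons (.leaf 1 [(5,1)]) (.cons (.leaf 1 []) (.cons (.leaf 1 [(5,1)]) (.cons (.leaf 1 [(4,1)])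 (.cons (.leaf 1 []) .nil)))))))))))) (.cons (.keep [5,6,9,10,12,13] (.node (.cons (.leaf 1 [(4,1)]) (.cons (.leaf 1 [(5,1)]) (.cons (.leaf 1 [(4,1)]) (.cons (.leaf 1 [(5,1)]) (.cons (.leaf 1 [(4,1)]) (.cons (.leaf 1 [(5,1)]) (.cons (.leaf 1 []) (.cons (.leaf 1 [(5,1)]) (.cons (.leaf 1 [(4,1)]) (.cons (.leaf 1 []) .nil)))))))))))) (.cons (.keep [4,7,9,10,12,13] (.node (.cons (.leaf 1 [(4,1)]) (.cons (.leaf 1 [(5,1)]) (.cons (.leaf 1 [(4,1)]) (.cons (.leaf 1 [(5,1)]) (.cons (.leaf 1 [(4,1)]) (.cons (.leaf 1 [(5,1)]) (.cons (.leaf 1 []) (.cons (.leaf 1 [(5,1)]) (.cons (.leaf 1 [(4,1)]) (.cons (.leaf 1 []) .nil)))))))))))) (.cons (.keep [0,4,9,10,13] (.node (.cons (.leaf 1 [(4,1)]) (.cons (.leaf 1 [(5,1)]) (.cons (.leaf 1 [(4,1)]) (.cons (.leaf 1 [(5,1)]) (.cons (.leaf 1 [(4,1)]) (.cons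 (.leaf 1 [(5,1)]) (.cons (.leaf 1 []) (.cons (.leaf 1 [(5,1)]) (.cons (.leaf 1 [(4,1)]) (.cons (.leaf 1 []) .nil)))))))))))) .nil)))))))))))) (.cons (.leaf 1 [(1,1)]) (.cons (.leaf 1 [(1,1)]) (.cons (.leaf 1 [(11,1),(1,1)]) (.cons (.leaf 1 [(11,1),(1,1)]) (.cons (.leaf 1 [(11,1),(7,1),(1,1)]) (.cons (.keep [0,1,9,11] (.node (.cons (.keep [4,7,8,9,11] (.node (.cons (.leaf 1 [(4,1)]) (.cons (.leaf 1 [(5,1)]) (.cons (.leaf 1 [(4,1)]) (.cons (.leaf 1 [(5,1)]) (.cons (.leaf 1 [(4,1)]) (.cons (.leaf 1 [(5,1)]) (.cons (.leaf 1 []) (.cons (.leaf 1 [(5,1)]) (.cons (.leaf 1 [(4,1)]) (.cons (.leaf 1 []) .nil)))))))))))) (.cons (.keep [5,6,8,9,11] (.node (.cons (.leaf 1 [(4,1)]) (.cons (.leaf 1 [(5,1)]) (.cons (.leaf 1 [(4,1)]) (.cons (.leaf 1 [(5,1)]) (.cons (.leaf 1 [(4,1)]) (.cons (.leaf 1 [(5,1)])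 (.cons (.leaf 1 []) (.cons (.leaf 1 [(5,1)]) (.cons (.leaf 1 [(4,1)]) (.cons (.leaf 1 []) .nil)))))))))))) (.cons (.leaf 1 [(1,1)]) (.cons (.leaf 1 [(1,1)]) (.cons (.leaf 1 [(11,1),(1,1)]) (.cons (.leaf 1 [(11,1),(1,1)]) (.cons (.keep [1,5,8,11] (.node (.cons (.leaf 1 [(4,1)]) (.cons (.leaf 1 [(5,1)]) (.cons (.leaf 1 [(4,1)]) (.cons (.leaf 1 [(5,1)]) (.cons (.leaf 1 [(4,1)]) (.cons (.leaf 1 [(5,1)]) (.cons (.leaf 1 []) (.cons (.leaf 1 [(5,1)]) (.cons (.leaf 1 [(4,1)]) (.cons (.leaf 1 []) .nil)))))))))))) (.cons (.keep [1,5,6,8,11] (.node (.cons (.leaf 1 [(4,1)]) (.cons (.leaf 1 [(5,1)]) (.cons (.leaf 1 [(4,1)]) (.cons (.leaf 1 [(5,1)]) (.cons (.leaf 1 [(4,1)]) (.cons (.leaf 1 [(5,1)]) (.cons (.leaf 1 []) (.cons (.leaf 1 [(5,1)]) (.cons (.leaf 1 [(4,1)]) (.cons (.leaf 1 []) .nil))))))))))))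 (.cons (.keep [4,7,8,9,11] (.node (.cons (.leaf 1 [(4,1)]) (.cons (.leaf 1 [(5,1)]) (.cons (.leaf 1 [(4,1)]) (.cons (.leaf 1 [(5,1)]) (.cons (.leaf 1 [(4,1)]) (.cons (.leaf 1 [(5,1)]) (.cons (.leaf 1 []) (.cons (.leaf 1 [(5,1)]) (.cons (.leaf 1 [(4,1)]) (.cons (.leaf 1 []) .nil)))))))))))) (.cons (.keep [0,4,9,11] (.node (.cons (.leaf 1 [(4,1)]) (.cons (.leaf 1 [(5,1)]) (.cons (.leaf 1 [(4,1)]) (.cons (.leaf 1 [(5,1)]) (.cons (.leaf 1 [(4,1)]) (.cons (.leaf 1 [(5,1)]) (.cons (.leaf 1 []) (.cons (.leaf 1 [(5,1)]) (.cons (.leaf 1 [(4,1)]) (.cons (.leaf 1 []) .nil)))))))))))) .nil)))))))))))) .nil)))))))))))) (.cons (.keep [0,2,3,6] (.leaf 0 [(0,0)])) (.cons (.keep [1,3,7,8] (.leaf 0 [(1,0)])) (.cons (.keep [1,3,6,8] (.leaf 0 [(2,0)])) (.cons (.keep [1,2,7,9] (.node (.cons (.leaf 1 [(2,2),(10,1),(9,1)])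 (.cons (.keep [2,3,5,9,10] (.node (.cons (.keep [2,4,7,8,12] (.node (.cons (.leaf 1 [(10,1)]) (.cons (.leaf 1 [(11,1),(5,1)]) (.cons (.leaf 1 [(1,1),(10,1)]) (.cons (.leaf 1 [(5,1),(11,1)]) (.cons (.leaf 1 [(1,1),(4,1)]) (.cons (.leaf 1 [(1,1),(5,1)]) (.cons (.leaf 1 [(10,1),(1,1)]) (.cons (.leaf 1 [(1,1),(5,1),(10,1)]) (.cons (.leaf 1 [(10,1),(1,1)]) (.cons (.leaf 1 [(11,1)]) .nil)))))))))))) (.cons (.keep [2,5,6,8,11,12] (.node (.cons (.leaf 1 []) (.cons (.leaf 1 [(11,1),(5,1)]) (.cons (.leaf 1 [(1,1)]) (.cons (.leaf 1 [(5,1),(11,1)]) (.cons (.leaf 1 [(1,1)]) (.cons (.leaf 1 [(5,1),(1,1),(10,1)]) (.cons (.leaf 1 [(1,1)]) (.cons (.leaf 1 [(1,1),(5,1)]) (.cons (.leaf 1 [(1,1)]) (.cons (.leaf 1 [(11,1)]) .nil)))))))))))) (.cons (.leaf 1 [(1,1),(8,1)]) (.cons (.leaf 1 [(1,1),(8,1)]) (.cons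 (.leaf 1 [(12,1),(8,1),(1,1)]) (.cons (.leaf 1 [(12,1),(8,1),(1,1)]) (.cons (.keep [1,5,9,10,12] (.node (.cons (.leaf 1 [(4,1)]) (.cons (.leaf 1 [(5,1)]) (.cons (.leaf 1 [(4,1)]) (.cons (.leaf 1 [(5,1)]) (.cons (.leaf 1 [(4,1)]) (.cons (.leaf 1 [(5,1)]) (.cons (.leaf 1 []) (.cons (.leaf 1 [(5,1)]) (.cons (.leaf 1 [(4,1)]) (.cons (.leaf 1 []) .nil)))))))))))) (.cons (.keep [6,9,10,11,12] (.node (.cons (.leaf 1 [(3,1)]) (.cons (.leaf 1 [(8,1),(5,1)]) (.cons (.leaf 1 [(3,1)]) (.cons (.leaf 1 [(5,1),(8,1)]) (.cons (.leaf 1 []) (.cons (.leaf 1 [(5,1),(8,1)]) (.cons (.leaf 1 [(3,1)]) (.cons (.leaf 1 [(3,1),(5,1)]) (.cons (.leaf 1 [(3,1)]) (.cons (.leaf 1 [(8,1)]) .nil)))))))))))) (.cons (.keep [1,7,9,10,12] (.node (.cons (.leaf 1 [(9,1),(4,1)]) (.cons (.leaf 1 [(9,1),(5,1)]) (.cons (.leaf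 1 [(4,1),(9,1)]) (.cons (.leaf 1 [(5,1),(9,1)]) (.cons (.leaf 1 [(4,2)]) (.cons (.leaf 1 [(5,1),(4,1)]) (.cons (.leaf 1 [(9,1)]) (.cons (.leaf 1 [(9,1),(5,1)]) (.cons (.leaf 1 [(9,1),(4,1)]) (.cons (.leaf 1 [(9,1)]) .nil)))))))))))) (.cons (.keep [0,4,10,11,12] (.node (.cons (.leaf 1 [(4,1)]) (.cons (.leaf 1 [(5,1)]) (.cons (.leaf 1 [(4,1)]) (.cons (.leaf 1 [(5,1)]) (.cons (.leaf 1 [(4,1)]) (.cons (.leaf 1 [(5,1)]) (.cons (.leaf 1 []) (.cons (.leaf 1 [(5,1)]) (.cons (.leaf 1 [(4,1)]) (.cons (.leaf 1 []) .nil)))))))))))) .nil)))))))))))) (.cons (.keep [4,7,9,10,11] (.leaf 0 [(3,0)])) (.cons (.keep [5,9,10,11] (.node (.cons (.keep [2,4,7,9,10] (.node (.cons (.leaf 1 [(10,1)]) (.cons (.leaf 1 [(11,1),(5,1)]) (.cons (.leaf 1 [(1,1),(10,1)]) (.cons (.leaf 1 [(5,1),(11,1)]) (.cons (.leaf 1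 [(1,1),(4,1)]) (.cons (.leaf 1 [(1,1),(5,1)]) (.cons (.leaf 1 [(10,1),(1,1)]) (.cons (.leaf 1 [(1,1),(5,1),(10,1)]) (.cons (.leaf 1 [(10,1),(1,1)]) (.cons (.leaf 1 [(11,1)]) .nil)))))))))))) (.cons (.keep [2,6,8,9,10] (.node (.cons (.leaf 1 []) (.cons (.leaf 1 [(11,1),(9,1),(5,1)]) (.cons (.leaf 1 [(1,1)]) (.cons (.leaf 1 [(5,1),(11,1),(9,1)]) (.cons (.leaf 1 [(1,1)]) (.cons (.leaf 1 [(5,1),(1,1),(9,1)]) (.cons (.leaf 1 [(1,1)]) (.cons (.leaf 1 [(1,1),(5,1)]) (.cons (.leaf 1 [(1,1)]) (.cons (.leaf 1 [(11,1),(9,1)]) .nil)))))))))))) (.cons (.leaf 1 [(9,1)]) (.cons (.leaf 1 [(9,1),(6,1)]) (.cons (.leaf 1 [(10,1),(9,1)]) (.cons (.leaf 1 [(10,1),(9,1),(6,1)]) (.cons (.keep [1,5,8,10,11] (.node (.cons (.leaf 1 [(4,1)]) (.cons (.leaf 1 [(5,1)]) (.cons (.leaf 1 [(4,1)]) (.cons (.leaf 1 [(5,1)])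 (.cons (.leaf 1 [(4,1)]) (.cons (.leaf 1 [(5,1)]) (.cons (.leaf 1 []) (.cons (.leaf 1 [(5,1)]) (.cons (.leaf 1 [(4,1)]) (.cons (.leaf 1 []) .nil)))))))))))) (.cons (.keep [1,6,8,10,11] (.node (.cons (.leaf 1 [(3,1)]) (.cons (.leaf 1 [(9,1),(5,1)]) (.cons (.leaf 1 [(3,1)]) (.cons (.leaf 1 [(5,1),(9,1)]) (.cons (.leaf 1 []) (.cons (.leaf 1 [(5,1),(9,1)]) (.cons (.leaf 1 [(3,1)]) (.cons (.leaf 1 [(3,1),(5,1)]) (.cons (.leaf 1 [(3,1)]) (.cons (.leaf 1 [(9,1)]) .nil)))))))))))) (.cons (.keep [7,8,9,10,11] (.node (.cons (.leaf 1 [(8,1),(4,1)]) (.cons (.leaf 1 [(8,1),(5,1)]) (.cons (.leaf 1 [(4,1),(8,1)]) (.cons (.leaf 1 [(5,1),(8,1)]) (.cons (.leaf 1 [(4,2)]) (.cons (.leaf 1 [(5,1),(4,1)]) (.cons (.leaf 1 [(8,1)]) (.cons (.leaf 1 [(8,1),(5,1)]) (.cons (.leaf 1 [(8,1),(4,1)]) (.cons (.leaf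 1 [(8,1)]) .nil)))))))))))) (.cons (.keep [0,4,8,9,10] (.node (.cons (.leaf 1 [(4,1)]) (.cons (.leaf 1 [(5,1)]) (.cons (.leaf 1 [(4,1)]) (.cons (.leaf 1 [(5,1)]) (.cons (.leaf 1 [(4,1)]) (.cons (.leaf 1 [(5,1)]) (.cons (.leaf 1 []) (.cons (.leaf 1 [(5,1)]) (.cons (.leaf 1 [(4,1)]) (.cons (.leaf 1 []) .nil)))))))))))) .nil)))))))))))) (.cons (.leaf 1 [(2,1)]) (.cons (.leaf 1 [(2,1)]) (.cons (.leaf 1 [(10,1),(2,1)]) (.cons (.leaf 1 [(10,1),(2,1)]) (.cons (.leaf 1 [(10,1),(7,1),(2,1)]) (.cons (.keep [0,2,8,10] (.node (.cons (.keep [4,7,8,9,11] (.node (.cons (.leaf 1 [(9,1)]) (.cons (.leaf 2 [(11,1),(5,2)]) (.cons (.leaf 1 [(1,1),(9,1)]) (.cons (.leaf 2 [(5,2),(11,1)]) (.cons (.leaf 1 [(1,1),(4,1)]) (.cons (.leaf 1 [(1,1),(5,1)]) (.cons (.leaf 1 [(9,1),(1,1)]) (.cons (.leaf 1 [(1,1),(5,1),(9,1)])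 (.cons (.leaf 1 [(9,1),(1,1)]) (.cons (.leaf 2 [(11,1)]) .nil)))))))))))) (.cons (.keep [5,6,8,9,11] (.node (.cons (.leaf 1 []) (.cons (.leaf 1 [(11,1),(3,1),(5,1)]) (.cons (.leaf 1 [(1,1)]) (.cons (.leaf 2 [(5,2),(11,1),(9,1)]) (.cons (.leaf 1 [(1,1)]) (.cons (.leaf 1 [(5,1),(1,1),(9,1)]) (.cons (.leaf 1 [(1,1)]) (.cons (.leaf 1 [(1,1),(5,1)]) (.cons (.leaf 1 [(1,1)]) (.cons (.leaf 2 [(11,1),(9,1)]) .nil)))))))))))) (.cons (.leaf 2 [(1,1),(9,1)]) (.cons (.leaf 1 [(9,1),(4,1)]) (.cons (.leaf 2 [(1,1),(11,2),(9,1)]) (.cons (.leaf 2 [(1,1),(11,2),(9,1),(6,1)]) (.cons (.keep [1,5,8,11] (.node (.cons (.leaf 1 [(4,1)]) (.cons (.leaf 1 [(5,1)]) (.cons (.leaf 1 [(4,1)]) (.cons (.leaf 1 [(5,1)]) (.cons (.leaf 1 [(4,1)]) (.cons (.leaf 1 [(5,1)]) (.cons (.leaf 1 []) (.cons (.leaf 1 [(5,1)]) (.cons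 (.leaf 1 [(4,1)]) (.cons (.leaf 1 []) .nil)))))))))))) (.cons (.keep [5,6,8,9,11] (.node (.cons (.leaf 1 [(3,1)]) (.cons (.leaf 1 [(9,1),(5,1)]) (.cons (.leaf 1 [(3,1)]) (.cons (.leaf 1 [(5,1),(9,1)]) (.cons (.leaf 1 []) (.cons (.leaf 1 [(5,1),(9,1)]) (.cons (.leaf 1 [(3,1)]) (.cons (.leaf 1 [(3,1),(5,1)]) (.cons (.leaf 1 [(3,1)]) (.cons (.leaf 1 [(9,1)]) .nil)))))))))))) (.cons (.keep [4,7,8,9,11] (.node (.cons (.leaf 1 [(9,1),(4,1)]) (.cons (.leaf 1 [(9,1),(5,1)]) (.cons (.leaf 1 [(4,1),(9,1)]) (.cons (.leaf 1 [(5,1),(9,1)]) (.cons (.leaf 1 [(4,2)]) (.cons (.leaf 1 [(5,1),(4,1)]) (.cons (.leaf 1 [(9,1)]) (.cons (.leaf 1 [(9,1),(5,1)]) (.cons (.leaf 1 [(9,1),(4,1)]) (.cons (.leaf 1 [(9,1)]) .nil)))))))))))) (.cons (.keep [0,4,9,11] (.node (.cons (.leaf 1 [(4,1)]) (.cons (.leaf 1 [(5,1)])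 (.cons (.leaf 1 [(4,1)]) (.cons (.leaf 1 [(5,1)]) (.cons (.leaf 1 [(4,1)]) (.cons (.leaf 1 [(5,1)]) (.cons (.leaf 1 []) (.cons (.leaf 1 [(5,1)]) (.cons (.leaf 1 [(4,1)]) (.cons (.leaf 1 []) .nil)))))))))))) .nil)))))))))))) .nil)))))))))))) (.cons (.keep [1,2,6,9] (.leaf 0 [(4,0)])) (.cons (.leaf 1 []) (.cons (.leaf 1 [(6,1)]) (.cons (.leaf 1 [(7,1)]) (.cons (.leaf 1 []) .nil))))))))))))

theorem e_31_24 : ESB (caseOf 4 31 24) := esb_of_pieces _ (hP_cons E64.c_31_24_28 (hP_cons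
  c_31_24_26 (hP_cons c_31_24_25 (hP_cons E64.c_31_24_19 (hP_cons c_31_24_27 hP_nil))))) t_31_24
  (by decide +kernel)

def ks : List (ℕ × ℕ) := [(31, 24)]

theorem ks_ok : ∀ p ∈ ks, ESB (caseOf 4 p.1 p.2) := ks_cons e_31_24 <| ks_nil

end Pool.Agent.H4.RD4.E65
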