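import Pool.Agent.H4.RD4.E00
import Pool.Agent.H4.RD4.E01
import Pool.Agent.H4.RD4.E02
import Pool.Agent.H4.RD4.E03
import Pool.Agent.H4.RD4.E04
import Pool.Agent.H4.RD4.E05
import Pool.Agent.H4.RD4.E06
import Pool.Agent.H4.RD4.E07
import Pool.Agent.H4.RD4.E08
import Pool.Agent.H4.RD4.E09
import Pool.Agent.H4.RD4.E10
import Pool.Agent.H4.RD4.E11
import Pool.Agent.H4.RD4.E12
import Pool.Agent.H4.RD4.E13
import Pool.Agent.H4.RD4.E14
import Pool.Agent.H4.RD4.E15
import Pool.Agent.H4.RD4.E16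
import Pool.Agent.H4.RD4.E17
import Pool.Agent.H4.RD4.E18
import Pool.Agent.H4.RD4.E19
import Pool.Agent.H4.RD4.E20
import Pool.Agent.H4.RD4.E21
import Pool.Agent.H4.RD4.E22
import Pool.Agent.H4.RD4.E23
import Pool.Agent.H4.RD4.E24
import Pool.Agent.H4.RD4.E25
import Pool.Agent.H4.RD4.E27
import Pool.Agent.H4.RD4.E30
import Pool.Agent.H4.RD4.E32
import Pool.Agent.H4.RD4.E34
import Pool.Agent.H4.RD4.E36
import Pool.Agent.H4.RD4.E38
import Pool.Agent.H4.RD4.E40
import Pool.Agent.H4.RD4.E46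
import Pool.Agent.H4.RD4.E47
import Pool.Agent.H4.RD4.E50
import Pool.Agent.H4.RD4.E54
import Pool.Agent.H4.RD4.E56
import Pool.Agent.H4.RD4.E57
import Pool.Agent.H4.RD4.E59
import Pool.Agent.H4.RD4.E61
import Pool.Agent.H4.RD4.E65

/-! # The special cases of order four with a finite certificate (334 cases) -/

set_option maxRecDepth 20000

namespace Pool.Agent.H4.RD4

open Pool.Agent.H50.Rdb
open Pool.Agent.H81.RDE (ESB caseOf)

/-- the certified cases (masks of the numerator and of the denominator, bit `i` is the coefficient with index `i`) -/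
def cert4 : List (ℕ × ℕ) := [(1, 17), (1, 19), (1, 21), (1, 23), (1, 25), (1, 27), (1, 29), (1,
  31), (2, 17), (2, 18), (2, 19), (2, 21), (2, 22), (2, 23), (2, 25), (2, 26), (2, 27), (2, 29),
  (2, 30), (2, 31), (3, 17), (3, 18), (3, 19), (3, 21), (3, 22), (3, 23), (3, 25), (3, 26), (3,
  27), (3, 29), (3, 30), (3, 31), (4, 17), (4, 19), (4, 20), (4, 21), (4, 22), (4, 23), (4, 25),
  (4, 27), (4, 28), (4, 29), (4, 30), (4, 31), (5, 17), (5, 19), (5, 20), (5, 21), (5, 22), (5,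
  23), (5, 25), (5, 27), (5, 28), (5, 29), (5, 30), (5, 31), (6, 17), (6, 18), (6, 19), (6, 21),
  (6, 22), (6, 23), (6, 25), (6, 26), (6, 27), (6, 29), (6, 30), (6, 31), (7, 17), (7, 18), (7,
  19), (7, 20), (7, 21), (7, 22), (7, 23), (7, 25), (7, 26), (7, 27), (7, 28), (7, 29), (7, 30),
  (7, 31), (8, 24), (8, 25), (8, 26), (8, 27), (8, 28), (8, 29), (8, 30), (8, 31), (9, 24), (9,
  25), (9, 26), (9, 27), (9, 28), (9, 29), (9, 30), (9, 31), (10, 24), (10, 25), (10, 26), (10,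
  27), (10, 28), (10, 29), (10, 30), (10, 31), (11, 24), (11, 25), (11, 26), (11, 27), (11, 28),
  (11, 29), (11, 30), (11, 31), (12, 24), (12, 25), (12, 27), (12, 28), (12, 29), (12, 30), (12,
  31), (13, 24), (13, 25), (13, 26), (13, 27), (13, 28), (13, 29), (13, 30), (13, 31), (14, 24),
  (14, 25), (14, 26), (14, 27), (14, 28), (14, 29), (14, 30), (14, 31), (15, 24), (15, 25), (15,
  26), (15, 27), (15, 28), (15, 29), (15, 30), (15, 31), (16, 16), (16, 17), (16, 18), (16, 19),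
  (16, 20), (16, 21), (16, 22), (16, 23), (16, 24), (16, 25), (16, 26), (16, 27), (16, 28), (16,
  29), (16, 30), (16, 31), (17, 16), (17, 17), (17, 18), (17, 19), (17, 20), (17, 21), (17, 22),
  (17, 23), (17, 24), (17, 25), (17, 26), (17, 27), (17, 28), (17, 29), (17, 30), (17, 31), (18,
  16), (18, 17), (18, 18), (18, 19), (18, 20), (18, 21), (18, 22), (18, 23), (18, 24), (18, 25),
  (18, 26), (18, 27), (18, 28), (18, 29), (18, 30), (18, 31), (19, 16), (19, 17), (19, 18), (19,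
  19), (19, 20), (19, 21), (19, 22), (19, 23), (19, 24), (19, 25), (19, 26), (19, 27), (19, 28),
  (19, 29), (19, 30), (19, 31), (20, 16), (20, 17), (20, 19), (20, 20), (20, 21), (20, 22), (20,
  23), (20, 24), (20, 25), (20, 27), (20, 28), (20, 29), (20, 30), (20, 31), (21, 16), (21, 17),
  (21, 18), (21, 19), (21, 20), (21, 21), (21, 22), (21, 23), (21, 24), (21, 25), (21, 26), (21,
  27), (21, 28), (21, 29), (21, 30), (21, 31), (22, 16), (22, 17), (22, 18), (22, 19), (22, 20),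
  (22, 21), (22, 22), (22, 23), (22, 24), (22, 25), (22, 26), (22, 27), (22, 28), (22, 29), (22,
  30), (22, 31), (23, 16), (23, 17), (23, 18), (23, 19), (23, 20), (23, 21), (23, 22), (23, 23),
  (23, 24), (23, 25), (23, 26), (23, 27), (23, 28), (23, 29), (23, 30), (23, 31), (24, 24), (24,
  25), (24, 26), (24, 27), (24, 28), (24, 29), (24, 30), (24, 31), (25, 24), (25, 25), (25, 26),
  (25, 27), (25, 28), (25, 29), (25, 30), (25, 31), (26, 24), (26, 25), (26, 26), (26, 27), (26,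
  28), (26, 29), (26, 30), (26, 31), (27, 24), (27, 25), (27, 26), (27, 27), (27, 28), (27, 29),
  (27, 30), (27, 31), (28, 24), (28, 25), (28, 27), (28, 28), (28, 29), (28, 30), (28, 31), (29,
  24), (29, 25), (29, 26), (29, 27), (29, 28), (29, 29), (29, 30), (29, 31), (30, 24), (30, 25),
  (30, 26), (30, 27), (30, 28), (30, 29), (30, 30), (30, 31), (31, 24), (31, 25), (31, 26), (31,
  27), (31, 28), (31, 29), (31, 30), (31, 31)]

/-- the same cases, ordered as in the files -/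
def cert4L : List (ℕ × ℕ) :=
E00.ks ++ (E01.ks ++ (E02.ks ++ (E03.ks ++ (E04.ks ++ (E05.ks ++ (E06.ks ++ (E07.ks ++ (E08.ks ++
  (E09.ks ++ (E10.ks ++ (E11.ks ++ (E12.ks ++ (E13.ks ++ (E14.ks ++ (E15.ks ++ (E16.ks ++ (E17.ks
  ++ (E18.ks ++ (E19.ks ++ (E20.ks ++ (E21.ks ++ (E22.ks ++ (E23.ks ++ (E24.ks ++ (E25.ks ++
  (E27.ks ++ (E30.ks ++ (E32.ks ++ (E34.ks ++ (E36.ks ++ (E38.ks ++ (E40.ks ++ (E46.ks ++ (E47.ks
  ++ (E50.ks ++ (E54.ks ++ (E56.ks ++ (E57.ks ++ (E59.ks ++ (E61.ks ++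
  (E65.ks)))))))))))))))))))))))))))))))))))))))))

theorem cert4_sub : (cert4.all fun p => cert4L.any fun q => Nat.beq p.1 q.1 && Nat.beq p.2 q.2) = true := by
  decide +kernel

theorem esb_cert4L : ∀ p ∈ cert4L, ESB (caseOf 4 p.1 p.2) := by
  intro p hp
  unfold cert4L at hp
  simp only [List.mem_append] at hp
  rcases hp with hp | hp | hp | hp | hp | hp | hp | hp | hp | hp | hp | hp | hp | hp | hp | hp | hp | hp | hp | hp | hp | hp | hp | hp | hp | hp | hp | hp | hp | hp | hp | hp | hp | hp | hp | hp | hp | hp | hp | hp | hp | hp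
  · exact E00.ks_ok p hp
  · exact E01.ks_ok p hp
  · exact E02.ks_ok p hp
  · exact E03.ks_ok p hp
  · exact E04.ks_ok p hp
  · exact E05.ks_ok p hp
  · exact E06.ks_ok p hp
  · exact E07.ks_ok p hp
  · exact E08.ks_ok p hp
  · exact E09.ks_ok p hp
  · exact E10.ks_ok p hp
  · exact E11.ks_ok p hp
  · exact E12.ks_ok p hp
  · exact E13.ks_ok p hp
  · exact E14.ks_ok p hp
  · exact E15.ks_ok p hp
  · exact E16.ks_ok p hp
  · exact E17.ks_ok p hp
  · exact E18.ks_ok p hp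
  · exact E19.ks_ok p hp
  · exact E20.ks_ok p hp
  · exact E21.ks_ok p hp
  · exact E22.ks_ok p hp
  · exact E23.ks_ok p hp
  · exact E24.ks_ok p hp
  · exact E25.ks_ok p hp
  · exact E27.ks_ok p hp
  · exact E30.ks_ok p hp
  · exact E32.ks_ok p hp
  · exact E34.ks_ok p hp
  · exact E36.ks_ok p hp
  · exact E38.ks_ok p hp
  · exact E40.ks_ok p hp
  · exact E46.ks_ok p hp
  · exact E47.ks_ok p hp
  · exact E50.ks_ok p hp
  · exact E54.ks_ok p hp
  · exact E56.ks_ok p hp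
  · exact E57.ks_ok p hp
  · exact E59.ks_ok p hp
  · exact E61.ks_ok p hp
  · exact E65.ks_ok p hp

theorem esb_cert4 : ∀ p ∈ cert4, ESB (caseOf 4 p.1 p.2) := by
  intro p hp
  have h := List.all_eq_true.1 cert4_sub p hp
  obtain ⟨q, hq, h1⟩ := List.any_eq_true.1 h
  rw [Bool.and_eq_true] at h1
  have h2 := Nat.eq_of_beq_eq_true h1.1
  have h3 := Nat.eq_of_beq_eq_true h1.2
  have h4 : p = q := Prod.ext h2 h3
  rw [h4]
  exact esb_cert4L q hq

theorem esb_cert (N D : ℕ) (h : (N, D) ∈ cert4) : ESB (caseOf 4 N D) := esb_cert4 (N, D) h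

end Pool.Agent.H4.RD4
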