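import Pool.Agent.H50.Rdb.Check

/-!
# Finite certificates in pieces

`check2` is `check` of `Pool/Agent/H50/Rdb/Check.lean` with references: `.leaf 0 [(k, _)]` is accepted in the state `P k`, for which
`Concl` is known. So the certificate tree may be cut in pieces.
-/

namespace Pool.Agent.H4.RD4

open Filter Topology Real
open Pool.Agent.H50.Rdb
open Pool.Agent.H81.RDE (bitsL ESB caseOf)

def eqF (x y : F) : Bool :=
  isZ (x.a - y.a) && isZ (x.b - y.b) && isZ (x.c - y.c) && isZ (x.d - y.d) && Nat.beq x.s y.s

def eqL : List F → List F → Bool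
  | [], [] => true
  | x :: xs, y :: ys => eqF x y && eqL xs ys
  | _, _ => false

def getP : List (F × List F) → ℕ → F × List F
  | [], _ => (zeroF, [])
  | h :: _, 0 => h
  | _ :: hs, k + 1 => getP hs k

def hd1 : List (ℕ × ℕ) → ℕ
  | [] => 0
  | p :: _ => p.1

/-- the states for which the claim is known -/
def inP (P : List (F × List F)) (k : ℕ) (Z : F) (H : List F) : Bool :=
  Nat.blt k P.length && eqF (getP P k).1 Z && eqL (getP P k).2 H

def check2 (N D : ℕ) (prs : List (ℕ × ℕ)) (P : List (F × List F)) : T → F → List F → Mode → Bool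
  | .leaf n l, Z, H, .nd =>
    let r := combF H l
    (Nat.blt 0 n && isZ (n * Z.a + r.a) && isZ (n * Z.b + r.b) && isZ (n * Z.c + r.c) &&
      isZ (n * Z.d + r.d)) || (Nat.beq n 0 && inP P (hd1 l) Z H)
  | .keep l t, Z, H, .nd => check2 N D prs P t Z (l.map (getF H)) .nd
  | .node cs, Z, H, .nd => check2 N D prs P cs Z H (.ch prs)
  | .cons t rest, Z, H, .ch ((s, u) :: todo) =>
    check2 N D prs P t (Z.tr s u) (newH N D s u Z H) .nd && check2 N D prs P rest Z H (.ch todo)
  | .nil, _, _, .ch [] => true
  | _, _, _, _ => false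

theorem eqF_iff {x y : F} (h : eqF x y = true) : x = y := by
  simp only [eqF, Bool.and_eq_true] at h
  obtain ⟨⟨⟨⟨ha, hb⟩, hc⟩, hd⟩, hs⟩ := h
  have ha := isZ_iff ha
  have hb := isZ_iff hb
  have hc := isZ_iff hc
  have hd := isZ_iff hd
  have hs := Nat.eq_of_beq_eq_true hs
  cases x
  cases y
  simp only [F.mk.injEq]
  simp only at ha hb hc hd hs
  exact ⟨by omega, by omega, by omega, by omega, hs⟩

theorem eqL_iff : ∀ {x y : List F}, eqL x y = true → x = y
  | [], [], _ => rfl
  | x :: xs, y :: ys, h => by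
    simp only [eqL, Bool.and_eq_true] at h
    rw [eqF_iff h.1, eqL_iff h.2]
  | [], _ :: _, h => by simp [eqL] at h
  | _ :: _, [], h => by simp [eqL] at h

theorem getP_mem : ∀ {P : List (F × List F)} {k : ℕ}, k < P.length → getP P k ∈ P
  | [], k, h => by simp at h
  | p :: P, 0, _ => by simp [getP]
  | p :: P, k + 1, h => by
    have : k < P.length := by simpa using h
    simp only [getP]
    exact List.mem_cons_of_mem _ (getP_mem this)

theorem inP_iff {P : List (F × List F)} {k : ℕ} {Z : F} {H : List F} (h : inP P k Z H = true) : (Z, H) ∈ P := by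
  simp only [inP, Bool.and_eq_true, Nat.blt_eq] at h
  have h1 := getP_mem h.1.1
  have h2 := eqF_iff h.1.2
  have h3 := eqL_iff h.2
  have h4 : getP P k = (Z, H) := Prod.ext h2 h3
  rw [← h4]
  exact h1

theorem check2_sound (N D : ℕ) {P : List (F × List F)} (hP : ∀ p ∈ P, Concl N D p.1 p.2 .nd) :
    ∀ (t : T) (Z : F) (H : List F) (m : Mode), check2 N D (pairs N D) P t Z H m = true → Concl N D Z H m := by
  intro t
  induction t with
  | leaf n l =>
    intro Z H m h
    cases m with
    | nd =>
      simp only [check2, Bool.or_eq_true] at h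
      rcases h with h | h
      · exact concl_leaf (l := l) (n := n) (by simpa only [check] using h)
      · rw [Bool.and_eq_true] at h
        exact hP _ (inP_iff h.2)
    | ch todo => simp [check2] at h
  | keep l t ih =>
    intro Z H m h
    cases m with
    | ch todo => simp [check2] at h
    | nd =>
      simp only [check2] at h
      obtain ⟨Q, L, hQ⟩ := ih Z _ .nd h
      refine ⟨Q, L, fun C w j hC hr hst hZ hH hm => hQ C w j hC hr hst hZ ?_ hm⟩
      intro f hf
      obtain ⟨i, -, rfl⟩ := List.mem_map.1 hf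
      exact holds_getF H hH i
  | node cs ih =>
    intro Z H m h
    cases m with
    | ch todo => simp [check2] at h
    | nd =>
      simp only [check2] at h
      obtain ⟨Q, L, hQ⟩ := ih Z H _ h
      refine ⟨Q, L + 1, fun C w j hC hr hst hZ hH _ => hQ C w j hC hr
        (fun i h1 h2 => hst i h1 (by omega)) hZ hH ?_⟩
      obtain ⟨s, hs, t, ht, h1, h2, h3⟩ := hst j le_rfl (by omega)
      refine ⟨(s, t), ?_, hs, ht, h1, h2, h3⟩
      unfold pairs
      rw [List.mem_flatMap]
      exact ⟨s, hs, List.mem_map.2 ⟨t, ht, rfl⟩⟩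
  | cons t rest iht ihr =>
    intro Z H m h
    cases m with
    | nd => simp [check2] at h
    | ch todo =>
      cases todo with
      | nil => simp [check2] at h
      | cons p todo =>
        obtain ⟨s, u⟩ := p
        simp only [check2, Bool.and_eq_true] at h
        obtain ⟨Q1, L1, h1⟩ := iht _ _ _ h.1
        obtain ⟨Q2, L2, h2⟩ := ihr _ _ _ h.2
        refine ⟨Q1 + Q2, L1 + L2 + 1, fun C w j hC hr hst hZ hH hm => ?_⟩
        obtain ⟨p, hp, hp1, hp2, hp3, hp4, hp5⟩ := hm
        rcases List.mem_cons.1 hp with rfl | hp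
        · have hs5 := (mem_bitsL.1 hp1).1
          have hu5 := (mem_bitsL.1 hp2).1
          have hZ' : w 0 ≤ (Z.tr s u).ev w (j + 1) + (Z.tr s u).s * C := by
            have := ev_tr Z hs5 hu5 hp5
            have e : ((Z.tr s u).s : ℝ) = Z.s + Z.a.natAbs := by simp [F.tr]
            rw [e]
            linarith
          have := h1 C w (j + 1) hC hr (fun i h1 h2 => hst i (by omega) (by omega)) hZ' (by
            intro f hf
            unfold newH at hf
            simp only [List.mem_append, List.mem_cons, List.mem_map] at hf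
            rcases hf with (rfl | ⟨s', hs', rfl⟩) | ⟨t', ht', rfl⟩ | ⟨g, hg, rfl⟩
            · have h4 := hr (j + 1 + 3)
              unfold F.Holds
              have e : (recF (Z.tr s u)).ev w (j + 1) = (Z.tr s u).ev w (j + 1) - w (j + 1 + 3) := by
                simp only [recF, F.ev]
                push_cast
                ring
              have e2 : (recF (Z.tr s u)).s = (Z.tr s u).s := rfl
              rw [e, e2]
              linarith
            · unfold F.Holds
              rw [ev_dif s s' w j hs5 (mem_bitsL.1 hs').1]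
              have := hp3 s' hs'
              have e2 : (dif s s').s = 0 := rfl
              rw [e2]
              push_cast
              linarith
            · unfold F.Holds
              rw [ev_dif u t' w j hu5 (mem_bitsL.1 ht').1]
              have := hp4 t' ht'
              have e2 : (dif u t').s = 0 := rfl
              rw [e2]
              push_cast
              linarith
            · exact holds_tr hs5 hu5 hp5 (hH g hg)) trivial
          have h0 : 0 ≤ (Q2 : ℝ) * C := mul_nonneg (Nat.cast_nonneg _) hC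
          push_cast
          linarith
        · have := h2 C w j hC hr (fun i h1 h2 => hst i h1 (by omega)) hZ hH
            ⟨p, hp, hp1, hp2, hp3, hp4, hp5⟩
          have h0 : 0 ≤ (Q1 : ℝ) * C := mul_nonneg (Nat.cast_nonneg _) hC
          push_cast
          linarith
  | nil =>
    intro Z H m h
    cases m with
    | nd => simp [check2] at h
    | ch todo =>
      cases todo with
      | nil =>
        refine ⟨0, 0, fun C w j hC hr hst hZ hH hm => ?_⟩
        obtain ⟨p, hp, -⟩ := hm
        simp at hp
      | cons p todo => simp [check2] at h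

/-- a piece -/
theorem piece {N D : ℕ} (P : List (F × List F)) (hP : ∀ p ∈ P, Concl N D p.1 p.2 .nd) (t : T) (Z : F) (H : List F)
    (h : check2 N D (pairs N D) P t Z H .nd = true) : Concl N D Z H .nd :=
  check2_sound N D hP t Z H .nd h

theorem esb_of_concl {N D : ℕ} (hN : N < 32) (hN0 : N ≠ 0) (hD : D < 32) (hD0 : D ≠ 0)
    (hc : Concl N D Z0 H0 .nd) : ESB (caseOf 4 N D) := by
  refine esb_of_noBack hN hN0 hD hD0 ?_
  intro a b ha hb l X hX
  obtain ⟨C, hC, hstep⟩ := exists_stepAt hN hN0 hD hD0 ha hb
  obtain ⟨Q, L, hQ⟩ := hc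
  have e1 : ∀ᶠ i in (l : Filter ℕ), ∀ j ∈ Finset.range L,
      X i j * lin b (X i (j + 1)) (X i (j + 2)) (X i (j + 3)) (X i (j + 4)) =
        lin a (X i (j + 1)) (X i (j + 2)) (X i (j + 3)) (X i (j + 4)) :=
    (Finset.eventually_all _).2 fun j _ => hX.step j
  have e2 : ∀ᶠ i in (l : Filter ℕ), exp (Q * C) < X i 0 := hX.top.eventually_gt_atTop _
  obtain ⟨i, h1, h2⟩ := (e1.and e2).exists
  have h3 := hQ C (fun n => log (X i n)) 0 hC (fun n => log_le_log (hX.pos i n) (hX.le i n))
    (fun j _ hj => hstep (X i) j (hX.pos i) (h1 j (Finset.mem_range.2 (by omega))))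
    (by simp [Z0, F.ev]) (by
      intro f hf
      have hle : ∀ n, log (X i n) ≤ log (X i 0) := fun n => log_le_log (hX.pos i n) (hX.le i n)
      unfold H0 at hf
      simp only [List.mem_cons, List.not_mem_nil, or_false] at hf
      rcases hf with rfl | rfl | rfl
      · have := hle 1; simp [F.Holds, F.ev]; linarith
      · have := hle 2; simp [F.Holds, F.ev]; linarith
      · have := hle 3; simp [F.Holds, F.ev]; linarith) trivial
  have h4 : (Q : ℝ) * C < log (X i 0) := by
    rw [lt_log_iff_exp_lt (hX.pos i 0)]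
    exact h2
  linarith

theorem hP_nil {N D : ℕ} : ∀ p ∈ ([] : List (F × List F)), Concl N D p.1 p.2 .nd := by
  intro p hp
  simp at hp

theorem hP_cons {N D : ℕ} {Z : F} {H : List F} {P : List (F × List F)} (h : Concl N D Z H .nd)
    (hP : ∀ p ∈ P, Concl N D p.1 p.2 .nd) : ∀ p ∈ (Z, H) :: P, Concl N D p.1 p.2 .nd := by
  intro p hp
  rcases List.mem_cons.1 hp with rfl | hp
  · exact h
  · exact hP p hp

theorem ks_nil : ∀ p ∈ ([] : List (ℕ × ℕ)), ESB (caseOf 4 p.1 p.2) := by
  intro p hp
  simp at hp

theorem ks_cons {N D : ℕ} {ks : List (ℕ × ℕ)} (h : ESB (caseOf 4 N D)) (hk : ∀ p ∈ ks, ESB (caseOf 4 p.1 p.2)) :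
    ∀ p ∈ (N, D) :: ks, ESB (caseOf 4 p.1 p.2) := by
  intro p hp
  rcases List.mem_cons.1 hp with rfl | hp
  · exact h
  · exact hk p hp

/-- the last step: the whole tree with references -/
theorem esb_of_pieces {N D : ℕ} (P : List (F × List F)) (hP : ∀ p ∈ P, Concl N D p.1 p.2 .nd) (t : T)
    (h : (Nat.blt N 32 && Nat.blt D 32 && Nat.blt 0 N && Nat.blt 0 D && check2 N D (pairs N D) P t Z0 H0 .nd) = true) :
    ESB (caseOf 4 N D) := by
  simp only [Bool.and_eq_true, Nat.blt_eq] at h
  obtain ⟨⟨⟨⟨hN, hD⟩, hN1⟩, hD1⟩, hc⟩ := h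
  exact esb_of_concl hN hN1.ne' hD hD1.ne' (check2_sound N D hP t _ _ _ hc)

end Pool.Agent.H4.RD4
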