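import Pool.Agent.H4.RD4.Chk

/-! # Certificates for special cases of order four -/

set_option maxRecDepth 20000

namespace Pool.Agent.H4.RD4.E00

open Pool.Agent.H50.Rdb
open Pool.Agent.H81.RDE (ESB caseOf)

def t_1_17 : T := (.keep [0,1,2] (.node (.cons (.leaf 1 []) (.cons (.leaf 1 [(2,1)]) .nil))))

theorem e_1_17 : ESB (caseOf 4 1 17) := esb_of_ok (t := t_1_17) (by decide +kernel)

def t_1_19 : T := (.keep [0,1,2] (.node (.cons (.leaf 1 []) (.cons (.leaf 1 [(2,1)]) (.cons (.leaf 1 [(2,1)]) .nil)))))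

theorem e_1_19 : ESB (caseOf 4 1 19) := esb_of_ok (t := t_1_19) (by decide +kernel)

def t_1_21 : T := (.keep [0,1,2] (.node (.cons (.leaf 1 []) (.cons (.leaf 1 [(2,1)]) (.cons (.leaf 1 [(2,1)]) .nil)))))

theorem e_1_21 : ESB (caseOf 4 1 21) := esb_of_ok (t := t_1_21) (by decide +kernel)

def t_1_23 : T := (.keep [0,1,2] (.node (.cons (.leaf 1 []) (.cons (.leaf 1 [(2,1)]) (.cons (.leaf 1 [(2,1)]) (.cons (.leaf 1 [(2,1)]) .nil))))))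

theorem e_1_23 : ESB (caseOf 4 1 23) := esb_of_ok (t := t_1_23) (by decide +kernel)

def t_1_25 : T := (.keep [0,1,2] (.node (.cons (.leaf 1 []) (.cons (.leaf 1 [(2,1)]) (.cons (.leaf 1 [(2,1)]) .nil)))))

theorem e_1_25 : ESB (caseOf 4 1 25) := esb_of_ok (t := t_1_25) (by decide +kernel)

def t_1_27 : T := (.keep [0,1,2] (.node (.cons (.leaf 1 []) (.cons (.leaf 1 [(2,1)]) (.cons (.leaf 1 [(2,1)]) (.cons (.leaf 1 [(2,1)]) .nil))))))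

theorem e_1_27 : ESB (caseOf 4 1 27) := esb_of_ok (t := t_1_27) (by decide +kernel)

def t_1_29 : T := (.keep [0,1,2] (.node (.cons (.leaf 1 []) (.cons (.leaf 1 [(2,1)]) (.cons (.leaf 1 [(2,1)]) (.cons (.leaf 1 [(2,1)]) .nil))))))

theorem e_1_29 : ESB (caseOf 4 1 29) := esb_of_ok (t := t_1_29) (by decide +kernel)

def t_1_31 : T := (.keep [0,1,2] (.node (.cons (.leaf 1 []) (.cons (.leaf 1 [(2,1)]) (.cons (.leaf 1 [(2,1)]) (.cons (.leaf 1 [(2,1)]) (.cons (.leaf 1 [(2,1)]) .nil)))))))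

theorem e_1_31 : ESB (caseOf 4 1 31) := esb_of_ok (t := t_1_31) (by decide +kernel)

def t_2_17 : T := (.keep [0,1,2] (.node (.cons (.keep [0,3,5,6] (.node (.cons (.keep [0,3,4,5,7] (.node (.cons (.keep [0,3,4,5,6,7] (.node (.cons (.leaf 1 [(9,1)]) (.cons (.leaf 1 [(9,1),(2,1)]) .nil)))) (.cons (.keep [0,2,5,7,8] (.node (.cons (.leaf 1 [(7,1),(5,1)]) (.cons (.leaf 1 [(7,1),(5,1),(2,1)]) .nil)))) .nil)))) (.cons (.keep [0,2,5,6,7] (.node (.cons (.keep [3,4,5,6,7] (.node (.cons (.leaf 1 [(7,1),(6,1)]) (.cons (.leaf 1 [(7,1),(6,1),(2,1)]) .nil)))) (.cons (.keep [2,4,5,6,8] (.node (.cons (.leaf 1 [(7,1),(6,1),(4,1)]) (.cons (.leaf 1 [(7,1),(6,1),(4,1),(2,1)]) .nil)))) .nil)))) .nil)))) (.cons (.keep [0,2,4,5,6] (.node (.cons (.keep [3,4,5,6,8] (.node (.cons (.keep [3,4,5,6,7] (.node (.cons (.leaf 1 []) (.cons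 (.leaf 1 [(2,1)]) .nil)))) (.cons (.keep [2,4,5,6,8] (.node (.cons (.leaf 1 [(4,1)]) (.cons (.leaf 1 [(4,1),(2,1)]) .nil)))) .nil)))) (.cons (.keep [2,4,5,7,8] (.node (.cons (.keep [3,4,5,6,7] (.node (.cons (.leaf 1 [(5,1)]) (.cons (.leaf 1 [(5,1),(2,1)]) .nil)))) (.cons (.keep [2,4,5,6,8] (.node (.cons (.leaf 1 [(5,1),(4,1)]) (.cons (.leaf 1 [(5,1),(4,1),(2,1)]) .nil)))) .nil)))) .nil)))) .nil))))

theorem e_2_17 : ESB (caseOf 4 2 17) := esb_of_ok (t := t_2_17) (by decide +kernel)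

def t_2_18 : T := (.keep [0,1,2] (.node (.cons (.leaf 1 []) (.cons (.leaf 1 [(2,1)]) .nil))))

theorem e_2_18 : ESB (caseOf 4 2 18) := esb_of_ok (t := t_2_18) (by decide +kernel)

def t_2_19 : T := (.keep [0,1,2] (.node (.cons (.leaf 1 [(3,1)]) (.cons (.leaf 1 []) (.cons (.leaf 1 [(3,1)]) .nil)))))

theorem e_2_19 : ESB (caseOf 4 2 19) := esb_of_ok (t := t_2_19) (by decide +kernel)

def t_2_21 : T := (.keep [0,1,2] (.node (.cons (.keep [0,3,4,6,7] (.node (.cons (.leaf 1 [(6,1)]) (.cons (.leaf 1 [(6,1),(2,1)]) (.cons (.leaf 1 [(6,1),(2,1)]) .nil))))) (.cons (.keep [2,4,5,6,7] (.node (.cons (.leaf 1 []) (.cons (.leaf 1 [(2,1)]) (.cons (.leaf 1 [(2,1)]) .nil))))) (.cons (.keep [0,2,3,5,7] (.node (.cons (.leaf 1 [(7,1)]) (.cons (.leaf 1 [(2,1),(7,1)]) (.cons (.leaf 1 [(7,1),(2,1)]) .nil))))) .nil)))))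

theorem e_2_21 : ESB (caseOf 4 2 21) := esb_of_ok (t := t_2_21) (by decide +kernel)

def t_2_22 : T := (.keep [0,1,2] (.node (.cons (.leaf 1 []) (.cons (.leaf 1 [(2,1)]) (.cons (.leaf 1 [(2,1)]) .nil)))))

theorem e_2_22 : ESB (caseOf 4 2 22) := esb_of_ok (t := t_2_22) (by decide +kernel)

def t_2_23 : T := (.keep [0,1,2] (.node (.cons (.leaf 1 [(3,1)]) (.cons (.leaf 1 []) (.cons (.leaf 1 [(3,1)]) (.cons (.leaf 1 [(3,1)]) .nil))))))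

theorem e_2_23 : ESB (caseOf 4 2 23) := esb_of_ok (t := t_2_23) (by decide +kernel)

def t_2_25 : T := (.keep [0,1,2] (.node (.cons (.keep [0,3,4,6,7] (.node (.cons (.keep [0,3,4,5,6,9] (.node (.cons (.leaf 1 [(9,1)]) (.cons (.leaf 1 [(9,1),(2,1)]) (.cons (.leaf 1 [(9,1),(2,1)]) .nil))))) (.cons (.keep [2,4,5,6,7] (.node (.cons (.leaf 1 [(8,1),(5,1)]) (.cons (.leaf 1 [(8,1),(5,1),(2,1)]) (.cons (.leaf 1 [(8,1),(5,1),(2,1)]) .nil))))) (.cons (.keep [0,2,6,7,8] (.node (.cons (.leaf 1 [(7,1),(6,1)]) (.cons (.leaf 1 [(7,1),(2,2)]) (.cons (.leaf 1 [(7,1),(6,1),(2,1)]) .nil))))) .nil))))) (.cons (.keep [2,4,5,6,7] (.node (.cons (.keep [4,5,6,7,9] (.node (.cons (.leaf 1 []) (.cons (.leaf 1 [(2,1)]) (.cons (.leaf 1 [(2,1)]) .nil))))) (.cons (.keep [2,4,6,8,9] (.node (.cons (.leaf 1 [(5,1)]) (.cons (.leaf 1 [(5,1),(2,1)])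 (.cons (.leaf 1 [(5,1),(2,1)]) .nil))))) (.cons (.keep [2,5,6,8,9] (.node (.cons (.leaf 1 [(5,1)]) (.cons (.leaf 1 [(2,2)]) (.cons (.leaf 1 [(5,1),(2,1)]) .nil))))) .nil))))) (.cons (.keep [0,2,3,5,6] (.node (.cons (.keep [3,4,5,6,7] (.node (.cons (.leaf 1 [(9,1)]) (.cons (.leaf 1 [(9,1),(2,1)]) (.cons (.leaf 1 [(9,1),(2,1)]) .nil))))) (.cons (.keep [2,4,5,7,8] (.node (.cons (.leaf 1 [(8,1),(5,1)]) (.cons (.leaf 1 [(8,1),(5,1),(2,1)]) (.cons (.leaf 1 [(8,1),(5,1),(2,1)]) .nil))))) (.cons (.keep [3,5,6,7,9] (.node (.cons (.leaf 1 [(8,1),(7,1),(5,1)]) (.cons (.leaf 1 [(8,1),(2,2)]) (.cons (.leaf 1 [(8,1),(7,1),(5,1),(2,1)]) .nil))))) .nil))))) .nil)))))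

theorem e_2_25 : ESB (caseOf 4 2 25) := esb_of_ok (t := t_2_25) (by decide +kernel)

def t_2_26 : T := (.keep [0,1,2] (.node (.cons (.leaf 1 []) (.cons (.leaf 1 [(2,1)]) (.cons (.leaf 1 [(2,1)]) .nil)))))

theorem e_2_26 : ESB (caseOf 4 2 26) := esb_of_ok (t := t_2_26) (by decide +kernel)

def t_2_27 : T := (.keep [0,1,2] (.node (.cons (.leaf 1 [(3,1)]) (.cons (.leaf 1 []) (.cons (.leaf 1 [(3,1)]) (.cons (.leaf 1 [(3,1)]) .nil))))))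

theorem e_2_27 : ESB (caseOf 4 2 27) := esb_of_ok (t := t_2_27) (by decide +kernel)

def t_2_29 : T := (.keep [0,1,2] (.node (.cons (.keep [0,3,4,5,7,8] (.node (.cons (.leaf 1 [(7,1)]) (.cons (.leaf 1 [(7,1),(2,1)]) (.cons (.leaf 1 [(7,1),(2,1)]) (.cons (.leaf 1 [(7,1),(2,1)]) .nil)))))) (.cons (.keep [2,4,5,6,7] (.node (.cons (.leaf 1 []) (.cons (.leaf 1 [(2,1)]) (.cons (.leaf 1 [(2,1)]) (.cons (.leaf 1 [(2,1)]) .nil)))))) (.cons (.keep [2,3,5,6,8] (.node (.cons (.leaf 1 [(7,1)]) (.cons (.leaf 1 [(7,1),(2,1)]) (.cons (.leaf 1 [(7,1),(2,1)]) (.cons (.leaf 1 [(7,1),(2,1)]) .nil)))))) (.cons (.keep [0,2,3,4,6] (.node (.cons (.leaf 1 [(8,1)]) (.cons (.leaf 1 [(2,1),(8,1)]) (.cons (.leaf 1 [(8,1),(2,1)]) (.cons (.leaf 1 [(8,1),(2,1)]) .nil)))))) .nil))))))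

theorem e_2_29 : ESB (caseOf 4 2 29) := esb_of_ok (t := t_2_29) (by decide +kernel)

def t_2_30 : T := (.keep [0,1,2] (.node (.cons (.leaf 1 []) (.cons (.leaf 1 [(2,1)]) (.cons (.leaf 1 [(2,1)]) (.cons (.leaf 1 [(2,1)]) .nil))))))

theorem e_2_30 : ESB (caseOf 4 2 30) := esb_of_ok (t := t_2_30) (by decide +kernel)

def t_2_31 : T := (.keep [0,1,2] (.node (.cons (.leaf 1 [(3,1)]) (.cons (.leaf 1 []) (.cons (.leaf 1 [(3,1)]) (.cons (.leaf 1 [(3,1)]) (.cons (.leaf 1 [(3,1)]) .nil)))))))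

theorem e_2_31 : ESB (caseOf 4 2 31) := esb_of_ok (t := t_2_31) (by decide +kernel)

def t_3_17 : T := (.keep [0,1,2] (.node (.cons (.leaf 1 []) (.cons (.leaf 1 [(3,1)]) (.cons (.keep [1,4,6,7] (.node (.cons (.leaf 1 []) (.cons (.leaf 1 [(3,1)]) (.cons (.keep [1,4,6,8] (.node (.cons (.leaf 1 []) (.cons (.leaf 1 [(3,1)]) (.cons (.keep [1,4,6,7] (.node (.cons (.leaf 1 []) (.cons (.leaf 1 [(3,1)]) (.cons (.leaf 1 [(8,1)]) (.cons (.leaf 1 [(8,1),(3,1)]) .nil)))))) (.cons (.keep [3,5,6,7,8] (.node (.cons (.leaf 1 [(5,1)]) (.cons (.leaf 1 [(5,1),(3,1)]) (.cons (.leaf 1 [(8,1),(5,1)]) (.cons (.leaf 1 [(8,1),(5,1),(3,1)]) .nil)))))) .nil)))))) (.cons (.keep [3,5,6,7,8] (.node (.cons (.leaf 1 [(5,1)]) (.cons (.leaf 1 [(5,1),(3,1)]) (.cons (.keep [4,5,6,7,8] (.node (.cons (.leaf 1 [(6,1)]) (.cons (.leaf 1 [(6,1),(3,1)])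 (.cons (.leaf 1 [(8,1),(6,1)]) (.cons (.leaf 1 [(8,1),(6,1),(3,1)]) .nil)))))) (.cons (.keep [3,5,6,7,9] (.node (.cons (.leaf 1 [(6,1),(5,1)]) (.cons (.leaf 1 [(6,1),(5,1),(3,1)]) (.cons (.leaf 1 [(8,1),(6,1),(5,1)]) (.cons (.leaf 1 [(8,1),(6,1),(5,1),(3,1)]) .nil)))))) .nil)))))) .nil)))))) (.cons (.keep [1,3,5,6,7] (.node (.cons (.leaf 1 [(6,1)]) (.cons (.leaf 1 [(6,1),(3,1)]) (.cons (.keep [1,4,6,7,9] (.node (.cons (.leaf 1 [(7,1)]) (.cons (.leaf 1 [(7,1),(3,1)]) (.cons (.keep [1,4,6,7,8] (.node (.cons (.leaf 1 [(8,1)]) (.cons (.leaf 1 [(8,1),(3,1)]) (.cons (.leaf 1 []) (.cons (.leaf 1 [(3,1)]) .nil)))))) (.cons (.keep [3,5,6,7,9] (.node (.cons (.leaf 1 [(8,1),(5,1)]) (.cons (.leaf 1 [(8,1),(5,1),(3,1)]) (.cons (.leaf 1 [(5,1)]) (.cons (.leaf 1 [(5,1),(3,1)]) .nil)))))) .nil)))))) (.cons (.keep [3,5,6,8,9]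 (.node (.cons (.leaf 1 [(7,1),(5,1)]) (.cons (.leaf 1 [(7,1),(5,1),(3,1)]) (.cons (.keep [4,5,6,7,8] (.node (.cons (.leaf 1 [(8,1),(6,1)]) (.cons (.leaf 1 [(8,1),(6,1),(3,1)]) (.cons (.leaf 1 [(6,1)]) (.cons (.leaf 1 [(6,1),(3,1)]) .nil)))))) (.cons (.keep [3,5,6,7,9] (.node (.cons (.leaf 1 [(8,1),(6,1),(5,1)]) (.cons (.leaf 1 [(8,1),(6,1),(5,1),(3,1)]) (.cons (.leaf 1 [(6,1),(5,1)]) (.cons (.leaf 1 [(6,1),(5,1),(3,1)]) .nil)))))) .nil)))))) .nil)))))) .nil))))))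

theorem e_3_17 : ESB (caseOf 4 3 17) := esb_of_ok (t := t_3_17) (by decide +kernel)

def t_3_18 : T := (.keep [0,1,2] (.node (.cons (.keep [2,4,6,7] (.node (.cons (.leaf 1 [(2,1)]) (.cons (.keep [2,5,6,8] (.node (.cons (.keep [2,4,5,7,8] (.node (.cons (.leaf 1 [(5,1),(8,1)]) (.cons (.keep [5,6,7,8,9] (.node (.cons (.leaf 1 [(2,1)]) (.cons (.leaf 1 [(2,1)]) (.cons (.leaf 1 [(8,1)]) (.cons (.leaf 1 [(0,1),(8,1)]) .nil)))))) (.cons (.leaf 1 [(1,1),(8,1)]) (.cons (.leaf 1 [(1,1),(8,1)]) .nil)))))) (.cons (.keep [0,2,5,7] (.node (.cons (.leaf 1 [(6,1),(8,1)]) (.cons (.keep [0,5,6,7,8] (.node (.cons (.leaf 1 [(2,1)]) (.cons (.leaf 1 [(2,1)]) (.cons (.leaf 1 [(9,1)]) (.cons (.leaf 1 [(0,1),(9,1)]) .nil)))))) (.cons (.leaf 1 [(1,1),(8,1)]) (.cons (.leaf 1 [(1,1),(8,1)]) .nil)))))) (.cons (.keep [1,4,7,8] (.node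 (.cons (.keep [2,4,6,7,8] (.node (.cons (.leaf 1 [(2,1)]) (.cons (.leaf 1 [(2,1)]) (.cons (.leaf 1 [(8,1)]) (.cons (.leaf 1 [(0,1),(8,1)]) .nil)))))) (.cons (.keep [5,6,7,8] (.node (.cons (.leaf 1 [(2,1)]) (.cons (.leaf 1 [(2,1)]) (.cons (.leaf 1 [(7,1)]) (.cons (.leaf 1 [(0,1),(7,1)]) .nil)))))) (.cons (.leaf 1 [(1,1),(7,1)]) (.cons (.leaf 1 [(1,1),(7,1)]) .nil)))))) (.cons (.keep [0,1,3,7] (.node (.cons (.keep [2,4,5,7,8] (.node (.cons (.leaf 1 [(2,1)]) (.cons (.leaf 1 [(2,1)]) (.cons (.leaf 1 [(9,1)]) (.cons (.leaf 1 [(0,1),(9,1)]) .nil)))))) (.cons (.keep [5,6,7,8] (.node (.cons (.leaf 1 [(2,1)]) (.cons (.leaf 1 [(2,1)]) (.cons (.leaf 1 [(8,1)]) (.cons (.leaf 1 [(0,1),(8,1)]) .nil)))))) (.cons (.leaf 1 [(1,1),(8,1)]) (.cons (.leaf 1 [(1,1),(8,1)]) .nil)))))) .nil)))))) (.cons (.leaf 1 []) (.cons (.keep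 [0,1,6,7,8] (.node (.cons (.keep [2,4,5,7,9] (.node (.cons (.leaf 1 [(5,1),(8,1)]) (.cons (.keep [5,6,7,8,9] (.node (.cons (.leaf 1 [(2,1),(5,1)]) (.cons (.leaf 1 [(2,1),(5,1)]) (.cons (.leaf 1 [(8,1)]) (.cons (.leaf 1 [(0,1),(5,1),(8,1)]) .nil)))))) (.cons (.leaf 1 [(1,1),(8,1)]) (.cons (.leaf 1 [(8,1),(1,1)]) .nil)))))) (.cons (.keep [3,5,6,7,8] (.node (.cons (.leaf 1 [(5,1),(8,1),(7,1)]) (.cons (.keep [0,5,6,7,8] (.node (.cons (.leaf 1 [(2,1),(8,1)]) (.cons (.leaf 1 [(2,1),(8,1)]) (.cons (.leaf 1 [(9,1)]) (.cons (.leaf 1 [(0,1),(8,1),(9,1)]) .nil)))))) (.cons (.leaf 1 [(1,1),(8,1)]) (.cons (.leaf 1 [(1,1),(8,1)]) .nil)))))) (.cons (.keep [1,4,7,9] (.node (.cons (.keep [2,4,6,7,8] (.node (.cons (.leaf 1 [(2,1)]) (.cons (.leaf 1 [(2,1)]) (.cons (.leaf 1 [(8,1)]) (.cons (.leaf 1 [(0,1),(8,1)]) .nil))))))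 (.cons (.keep [5,6,7,8] (.node (.cons (.leaf 1 [(2,1)]) (.cons (.leaf 1 [(2,1)]) (.cons (.leaf 1 [(7,1)]) (.cons (.leaf 1 [(0,1),(7,1)]) .nil)))))) (.cons (.leaf 1 [(1,1),(7,1)]) (.cons (.leaf 1 [(1,1),(7,1)]) .nil)))))) (.cons (.keep [1,3,6,7,9] (.node (.cons (.keep [2,4,6,7,8,9] (.node (.cons (.leaf 1 [(8,1),(2,1)]) (.cons (.leaf 1 [(2,1),(8,1)]) (.cons (.leaf 1 [(9,1)]) (.cons (.leaf 1 [(9,1),(0,1),(8,1)]) .nil)))))) (.cons (.keep [5,6,7,8,9] (.node (.cons (.leaf 1 [(2,1),(7,1)]) (.cons (.leaf 1 [(2,1),(7,1)]) (.cons (.leaf 1 [(8,1)]) (.cons (.leaf 1 [(0,1),(7,1),(8,1)]) .nil)))))) (.cons (.leaf 1 [(1,1),(8,1)]) (.cons (.leaf 1 [(1,1),(8,1)]) .nil)))))) .nil)))))) .nil)))))) (.cons (.keep [0,3,6,7] (.node (.cons (.leaf 1 [(6,1),(2,1)]) (.cons (.keep [0,2,5,6,8] (.node (.cons (.keep [2,4,5,6,8,9] (.node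 (.cons (.leaf 1 [(5,1)]) (.cons (.keep [3,5,6,7,8,9] (.node (.cons (.leaf 1 [(2,1)]) (.cons (.leaf 1 [(10,1),(2,1)]) (.cons (.leaf 1 []) (.cons (.leaf 1 [(10,1),(0,1)]) .nil)))))) (.cons (.leaf 1 [(1,1)]) (.cons (.leaf 1 [(1,1)]) .nil)))))) (.cons (.keep [0,2,5,6,8] (.node (.cons (.leaf 1 [(6,1)]) (.cons (.keep [0,5,6,7,8,9] (.node (.cons (.leaf 1 [(2,1)]) (.cons (.leaf 1 [(10,1),(2,1)]) (.cons (.leaf 1 []) (.cons (.leaf 1 [(10,1),(0,1)]) .nil)))))) (.cons (.leaf 1 [(1,1)]) (.cons (.leaf 1 [(1,1)]) .nil)))))) (.cons (.keep [1,4,5,8,9] (.node (.cons (.keep [2,4,6,7,8] (.node (.cons (.leaf 1 [(2,1)]) (.cons (.leaf 1 [(9,1),(2,1)]) (.cons (.leaf 1 []) (.cons (.leaf 1 [(9,1),(0,1)]) .nil)))))) (.cons (.keep [3,5,6,7,8] (.node (.cons (.leaf 1 [(2,1)]) (.cons (.leaf 1 [(9,1),(2,1)]) (.cons (.leaf 1 []) (.cons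 (.leaf 1 [(9,1),(0,1)]) .nil)))))) (.cons (.leaf 1 [(1,1)]) (.cons (.leaf 1 [(1,1)]) .nil)))))) (.cons (.keep [0,1,3,5,8] (.node (.cons (.keep [2,4,5,7,8,9] (.node (.cons (.leaf 1 [(2,1)]) (.cons (.leaf 1 [(10,1),(2,1)]) (.cons (.leaf 1 []) (.cons (.leaf 1 [(10,1),(0,1)]) .nil)))))) (.cons (.keep [5,6,7,8,9] (.node (.cons (.leaf 1 [(2,1)]) (.cons (.leaf 1 [(9,1),(2,1)]) (.cons (.leaf 1 []) (.cons (.leaf 1 [(9,1),(0,1)]) .nil)))))) (.cons (.leaf 1 [(1,1)]) (.cons (.leaf 1 [(1,1)]) .nil)))))) .nil)))))) (.cons (.leaf 1 [(6,1)]) (.cons (.keep [0,1,6,7,8] (.node (.cons (.keep [2,4,5,7,9] (.node (.cons (.leaf 1 [(5,1)]) (.cons (.keep [3,5,6,7,8] (.node (.cons (.leaf 1 [(2,1)]) (.cons (.leaf 1 [(9,1),(6,1),(2,1)]) (.cons (.leaf 1 []) (.cons (.leaf 1 [(9,1),(6,1),(0,1)]) .nil)))))) (.cons (.leaf 1 [(1,1)]) (.cons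 (.leaf 1 [(1,1)]) .nil)))))) (.cons (.keep [3,5,6,7,8] (.node (.cons (.leaf 1 [(7,1),(5,1)]) (.cons (.keep [0,5,6,7,8] (.node (.cons (.leaf 1 [(2,1)]) (.cons (.leaf 1 [(9,1),(8,1),(2,1)]) (.cons (.leaf 1 []) (.cons (.leaf 1 [(9,1),(8,1),(0,1)]) .nil)))))) (.cons (.leaf 1 [(1,1)]) (.cons (.leaf 1 [(1,1)]) .nil)))))) (.cons (.keep [1,4,5,7,9] (.node (.cons (.keep [2,4,6,7,8] (.node (.cons (.leaf 1 [(2,1)]) (.cons (.leaf 1 [(9,1),(2,1)]) (.cons (.leaf 1 []) (.cons (.leaf 1 [(9,1),(0,1)]) .nil)))))) (.cons (.keep [3,5,6,7,8] (.node (.cons (.leaf 1 [(2,1)]) (.cons (.leaf 1 [(9,1),(2,1)]) (.cons (.leaf 1 []) (.cons (.leaf 1 [(9,1),(0,1)]) .nil)))))) (.cons (.leaf 1 [(1,1)]) (.cons (.leaf 1 [(1,1)]) .nil)))))) (.cons (.keep [1,5,6,7,9] (.node (.cons (.keep [2,4,6,7,8] (.node (.cons (.leaf 1 [(2,1)]) (.cons (.leaf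 1 [(9,1),(2,1),(8,1)]) (.cons (.leaf 1 []) (.cons (.leaf 1 [(8,1),(9,1),(0,1)]) .nil)))))) (.cons (.keep [3,5,6,7,8] (.node (.cons (.leaf 1 [(2,1)]) (.cons (.leaf 1 [(9,1),(2,1),(8,1)]) (.cons (.leaf 1 []) (.cons (.leaf 1 [(8,1),(9,1),(0,1)]) .nil)))))) (.cons (.leaf 1 [(1,1)]) (.cons (.leaf 1 [(1,1)]) .nil)))))) .nil)))))) .nil)))))) (.cons (.leaf 1 []) (.cons (.leaf 1 [(3,1)]) .nil))))))

theorem e_3_18 : ESB (caseOf 4 3 18) := esb_of_ok (t := t_3_18) (by decide +kernel)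

def t_3_19 : T := (.keep [0,1,2] (.node (.cons (.leaf 1 []) (.cons (.leaf 1 [(3,1)]) (.cons (.leaf 1 [(3,1)]) (.cons (.leaf 1 [(4,1)]) (.cons (.leaf 1 []) (.cons (.leaf 1 [(4,1)]) .nil))))))))

theorem e_3_19 : ESB (caseOf 4 3 19) := esb_of_ok (t := t_3_19) (by decide +kernel)

def t_3_21 : T := (.keep [0,1,2] (.node (.cons (.leaf 1 []) (.cons (.leaf 1 [(3,1)]) (.cons (.leaf 1 [(3,1)]) (.cons (.keep [1,4,5,8] (.node (.cons (.leaf 1 []) (.cons (.leaf 1 [(3,1)]) (.cons (.leaf 1 [(3,1)]) (.cons (.leaf 1 [(7,1)]) (.cons (.leaf 1 [(7,1),(3,1)]) (.cons (.leaf 1 [(7,1),(3,1)]) .nil)))))))) (.cons (.keep [3,5,6,7,8] (.node (.cons (.leaf 1 [(6,1)]) (.cons (.leaf 1 [(6,1),(3,1)]) (.cons (.leaf 1 [(6,1),(3,1)]) (.cons (.leaf 1 []) (.cons (.leaf 1 [(3,1)]) (.cons (.leaf 1 [(3,1)]) .nil)))))))) (.cons (.keep [1,3,4,6,8]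 (.node (.cons (.leaf 1 [(7,1)]) (.cons (.leaf 1 [(3,1),(7,1)]) (.cons (.leaf 1 [(7,1),(3,1)]) (.cons (.leaf 1 [(8,1)]) (.cons (.leaf 1 [(3,1),(8,1)]) (.cons (.leaf 1 [(8,1),(3,1)]) .nil)))))))) .nil))))))))

theorem e_3_21 : ESB (caseOf 4 3 21) := esb_of_ok (t := t_3_21) (by decide +kernel)

def t_3_22 : T := (.keep [0,1,2] (.node (.cons (.keep [2,4,5,8] (.node (.cons (.leaf 1 [(2,1)]) (.cons (.keep [0,6,7,8] (.node (.cons (.leaf 1 [(2,1)]) (.cons (.leaf 1 [(2,1)]) (.cons (.leaf 1 [(2,1)]) (.cons (.leaf 1 [(8,1)]) (.cons (.leaf 3 [(9,1),(8,1)]) (.cons (.leaf 1 [(0,1),(8,1)]) .nil)))))))) (.cons (.keep [4,6,7,8] (.node (.cons (.leaf 1 [(8,1),(2,1)]) (.cons (.leaf 2 [(8,1),(9,1)]) (.cons (.keep [0,2,7,8,9] (.node (.cons (.leaf 1 [(4,1),(2,1)]) (.cons (.keep [0,6,7,9,10] (.node (.cons (.leaf 1 [(2,1)]) (.cons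 (.leaf 1 [(2,1)]) (.cons (.leaf 1 [(2,1)]) (.cons (.leaf 1 [(10,1)]) (.cons (.leaf 1 [(7,1),(10,1)]) (.cons (.leaf 1 [(0,1),(10,1)]) .nil)))))))) (.cons (.keep [0,4,6,8,9,10] (.node (.cons (.leaf 1 [(2,1)]) (.cons (.leaf 1 [(2,1)]) (.cons (.leaf 1 [(2,1)]) (.cons (.leaf 1 [(11,1)]) (.cons (.leaf 1 [(8,1),(11,1)]) (.cons (.leaf 1 [(0,1),(11,1)]) .nil)))))))) (.cons (.leaf 2 [(4,1),(10,1)]) (.cons (.leaf 1 [(1,1),(10,1)]) (.cons (.leaf 1 [(1,1),(10,1)]) .nil)))))))) (.cons (.leaf 1 [(8,1)]) (.cons (.leaf 2 [(1,1),(8,1),(9,1)]) (.cons (.keep [0,1,7,8,9] (.node (.cons (.leaf 1 [(4,1),(2,1)]) (.cons (.leaf 1 [(7,1)]) (.cons (.leaf 1 [(7,1),(4,1)]) (.cons (.leaf 2 [(4,1),(10,1)]) (.cons (.leaf 2 [(7,1),(10,1)]) (.cons (.leaf 2 [(4,1),(10,1),(7,1)]) .nil)))))))) .nil)))))))) (.cons (.leaf 1 []) (.cons (.leaf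 1 [(1,1),(7,1)]) (.cons (.leaf 1 [(1,1),(7,1)]) .nil)))))))) (.cons (.keep [3,5,7,8] (.node (.cons (.leaf 2 [(6,1)]) (.cons (.keep [3,5,6,7,9] (.node (.cons (.leaf 1 [(2,1)]) (.cons (.leaf 1 [(8,1),(2,1)]) (.cons (.leaf 1 [(8,1),(2,1)]) (.cons (.leaf 1 []) (.cons (.leaf 3 [(8,1),(9,1)]) (.cons (.leaf 1 [(8,1),(0,1)]) .nil)))))))) (.cons (.keep [0,3,6,7,9] (.node (.cons (.leaf 1 [(2,1)]) (.cons (.leaf 2 [(9,1)]) (.cons (.keep [2,6,7,8,9] (.node (.cons (.leaf 1 [(4,1),(9,1),(2,1)]) (.cons (.keep [5,7,8,9,10] (.node (.cons (.leaf 1 [(4,1),(2,1)]) (.cons (.leaf 1 [(9,1),(2,1)]) (.cons (.leaf 1 [(9,1),(2,1)]) (.cons (.leaf 1 [(10,1)]) (.cons (.leaf 1 [(9,1),(10,1)]) (.cons (.leaf 1 [(9,1),(0,1),(10,1)]) .nil)))))))) (.cons (.keep [0,4,8,9,10] (.node (.cons (.leaf 1 [(4,1),(2,1)]) (.cons (.leaf 1 [(9,1),(2,1)])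 (.cons (.leaf 1 [(9,1),(2,1)]) (.cons (.leaf 1 [(10,1)]) (.cons (.leaf 1 [(9,1),(10,1)]) (.cons (.leaf 1 [(10,1),(0,1),(9,1)]) .nil)))))))) (.cons (.leaf 2 [(4,1),(9,1),(10,1)]) (.cons (.leaf 1 [(10,1),(1,1)]) (.cons (.leaf 1 [(1,1),(10,1)]) .nil)))))))) (.cons (.leaf 1 []) (.cons (.leaf 2 [(1,1),(9,1)]) (.cons (.keep [0,1,6,8,9,10] (.node (.cons (.leaf 1 [(2,1),(9,1),(4,1)]) (.cons (.leaf 1 [(7,1),(9,1)]) (.cons (.leaf 1 [(9,1),(4,1),(7,1)]) (.cons (.leaf 2 [(4,1),(9,1),(10,1)]) (.cons (.leaf 1 [(1,1),(10,1)]) (.cons (.leaf 1 [(1,1),(10,1)]) .nil)))))))) .nil)))))))) (.cons (.leaf 1 [(1,1)]) (.cons (.leaf 1 [(1,1)]) (.cons (.leaf 1 [(1,1)]) .nil)))))))) (.cons (.keep [0,3,4,8] (.node (.cons (.leaf 1 [(7,1),(2,1)]) (.cons (.keep [5,6,7,8,9] (.node (.cons (.leaf 1 [(8,1),(2,1)]) (.cons (.leaf 1 [(8,1),(2,1)])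 (.cons (.leaf 1 [(8,1),(2,1)]) (.cons (.leaf 1 [(9,1)]) (.cons (.leaf 1 [(1,1),(3,1)]) (.cons (.leaf 1 [(8,1),(0,1),(9,1)]) .nil)))))))) (.cons (.keep [0,6,7,8,9] (.node (.cons (.leaf 1 [(9,1),(2,1)]) (.cons (.leaf 2 [(9,1)]) (.cons (.keep [0,2,6,7,8,9] (.node (.cons (.leaf 1 [(7,1)]) (.cons (.keep [5,6,7,8,10,11] (.node (.cons (.leaf 1 [(2,1)]) (.cons (.leaf 1 [(10,1),(2,1)]) (.cons (.leaf 1 [(10,1),(2,1)]) (.cons (.leaf 1 []) (.cons (.leaf 1 [(10,1),(7,1)]) (.cons (.leaf 1 [(10,1),(0,1)]) .nil)))))))) (.cons (.keep [0,4,6,7,10,11] (.node (.cons (.leaf 1 [(2,1)]) (.cons (.leaf 1 [(10,1),(2,1)]) (.cons (.leaf 1 [(10,1),(2,1)]) (.cons (.leaf 1 []) (.cons (.leaf 1 [(10,1),(8,1)]) (.cons (.leaf 1 [(10,1),(0,1)]) .nil)))))))) (.cons (.leaf 1 [(1,1)]) (.cons (.leaf 1 [(1,1)]) (.cons (.leaf 1 [(1,1)]) .nil))))))))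 (.cons (.leaf 1 [(9,1)]) (.cons (.leaf 1 [(1,1),(3,1)]) (.cons (.keep [0,1,6,8,9,10] (.node (.cons (.leaf 2 [(4,1),(9,1)]) (.cons (.leaf 1 [(7,1),(9,1)]) (.cons (.leaf 1 [(7,1),(9,1),(4,1)]) (.cons (.leaf 1 [(1,1)]) (.cons (.leaf 1 [(1,1)]) (.cons (.leaf 1 [(1,1)]) .nil)))))))) .nil)))))))) (.cons (.leaf 1 [(7,1)]) (.cons (.leaf 1 [(1,1),(8,1)]) (.cons (.leaf 1 [(1,1),(8,1)]) .nil)))))))) (.cons (.leaf 1 []) (.cons (.leaf 1 [(3,1)]) (.cons (.leaf 1 [(3,1)]) .nil))))))))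

theorem e_3_22 : ESB (caseOf 4 3 22) := esb_of_ok (t := t_3_22) (by decide +kernel)

def t_3_23 : T := (.keep [0,1,2] (.node (.cons (.leaf 1 []) (.cons (.leaf 1 [(3,1)]) (.cons (.leaf 1 [(3,1)]) (.cons (.leaf 1 [(3,1)]) (.cons (.leaf 1 [(4,1)]) (.cons (.leaf 1 []) (.cons (.leaf 1 [(4,1)]) (.cons (.leaf 1 [(4,1)]) .nil))))))))))

theorem e_3_23 : ESB (caseOf 4 3 23) := esb_of_ok (t := t_3_23) (by decide +kernel)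

def t_3_25 : T := (.keep [0,1,2] (.node (.cons (.leaf 1 []) (.cons (.leaf 1 [(3,1)]) (.cons (.leaf 1 [(3,1)]) (.cons (.keep [1,4,5,7] (.node (.cons (.leaf 1 []) (.cons (.leaf 1 [(3,1)]) (.cons (.leaf 1 [(3,1)]) (.cons (.keep [1,4,5,7] (.node (.cons (.leaf 1 []) (.cons (.leaf 1 [(3,1)]) (.cons (.leaf 1 [(3,1)]) (.cons (.leaf 1 [(9,1)]) (.cons (.leaf 1 [(9,1),(3,1)]) (.cons (.leaf 1 [(9,1),(3,1)]) .nil)))))))) (.cons (.keep [3,5,6,7,8] (.node (.cons (.leaf 1 [(6,1)]) (.cons (.leaf 1 [(6,1),(3,1)]) (.cons (.leaf 1 [(6,1),(3,1)]) (.cons (.leaf 1 [(9,1),(6,1)]) (.cons (.leaf 1 [(9,1),(6,1),(3,1)]) (.cons (.leaf 1 [(9,1),(6,1),(3,1)]) .nil)))))))) (.cons (.keep [3,6,7,8,9] (.node (.cons (.leaf 1 [(6,1)]) (.cons (.leaf 1 [(3,2)]) (.cons (.leaf 1 [(6,1),(3,1)]) (.cons (.leaf 1 [(8,1),(6,1)]) (.cons (.leaf 1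 [(8,1),(3,2)]) (.cons (.leaf 1 [(8,1),(6,1),(3,1)]) .nil)))))))) .nil)))))))) (.cons (.keep [3,5,6,7,8] (.node (.cons (.leaf 1 [(6,1)]) (.cons (.leaf 1 [(6,1),(3,1)]) (.cons (.leaf 1 [(6,1),(3,1)]) (.cons (.keep [5,6,7,8,10] (.node (.cons (.leaf 1 [(7,1)]) (.cons (.leaf 1 [(7,1),(3,1)]) (.cons (.leaf 1 [(7,1),(3,1)]) (.cons (.leaf 1 []) (.cons (.leaf 1 [(3,1)]) (.cons (.leaf 1 [(3,1)]) .nil)))))))) (.cons (.keep [3,5,7,9,10] (.node (.cons (.leaf 1 [(8,1),(6,2)]) (.cons (.leaf 1 [(8,1),(6,2),(3,1)]) (.cons (.leaf 1 [(8,1),(6,2),(3,1)]) (.cons (.leaf 1 [(6,1)]) (.cons (.leaf 1 [(6,1),(3,1)]) (.cons (.leaf 1 [(6,1),(3,1)]) .nil)))))))) (.cons (.keep [3,6,7,9,10] (.node (.cons (.leaf 1 [(7,1),(6,1)]) (.cons (.leaf 1 [(7,1),(3,2)]) (.cons (.leaf 1 [(7,1),(6,1),(3,1)]) (.cons (.leaf 1 [(6,1)]) (.cons (.leaf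 1 [(3,2)]) (.cons (.leaf 1 [(6,1),(3,1)]) .nil)))))))) .nil)))))))) (.cons (.keep [1,3,4,6,7] (.node (.cons (.leaf 1 [(7,1)]) (.cons (.leaf 1 [(3,2)]) (.cons (.leaf 1 [(7,1),(3,1)]) (.cons (.keep [1,4,5,7,8] (.node (.cons (.leaf 1 [(9,1)]) (.cons (.leaf 1 [(9,1),(3,1)]) (.cons (.leaf 1 [(9,1),(3,1)]) (.cons (.leaf 1 [(10,1)]) (.cons (.leaf 1 [(10,1),(3,1)]) (.cons (.leaf 1 [(10,1),(3,1)]) .nil)))))))) (.cons (.keep [3,5,6,8,9] (.node (.cons (.leaf 1 [(6,2)]) (.cons (.leaf 1 [(6,2),(3,1)]) (.cons (.leaf 1 [(6,2),(3,1)]) (.cons (.leaf 1 [(9,1),(6,1)]) (.cons (.leaf 1 [(9,1),(6,1),(3,1)]) (.cons (.leaf 1 [(9,1),(6,1),(3,1)]) .nil)))))))) (.cons (.keep [4,6,7,8,10] (.node (.cons (.leaf 1 [(8,2),(6,1)]) (.cons (.leaf 1 [(8,1),(3,2)]) (.cons (.leaf 1 [(8,2),(6,1),(3,1)]) (.cons (.leaf 1 [(9,1),(8,1),(6,1)])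 (.cons (.leaf 1 [(9,1),(3,2)]) (.cons (.leaf 1 [(9,1),(8,1),(6,1),(3,1)]) .nil)))))))) .nil)))))))) .nil))))))))

theorem e_3_25 : ESB (caseOf 4 3 25) := esb_of_ok (t := t_3_25) (by decide +kernel)

def t_3_26 : T := (.keep [0,1,2] (.node (.cons (.keep [2,4,5,7] (.node (.cons (.leaf 1 [(2,1)]) (.cons (.leaf 2 [(8,1)]) (.cons (.keep [2,6,7,8] (.node (.cons (.leaf 1 [(4,1),(2,1)]) (.cons (.keep [0,6,8,9] (.node (.cons (.leaf 1 [(8,1),(2,1)]) (.cons (.keep [5,6,7,8,9] (.node (.cons (.leaf 1 [(2,1)]) (.cons (.leaf 1 [(2,1)]) (.cons (.leaf 1 [(2,1)]) (.cons (.leaf 1 [(10,1)]) (.cons (.leaf 1 [(7,1),(6,1),(10,1)]) (.cons (.leaf 1 [(0,1),(10,1)]) .nil)))))))) (.cons (.keep [0,6,7,8,9] (.node (.cons (.leaf 1 [(2,1)]) (.cons (.leaf 1 [(2,1)]) (.cons (.leaf 1 [(2,1)]) (.cons (.leaf 1 [(10,1)]) (.cons (.leaf 1 [(6,1),(10,1)])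 (.cons (.leaf 1 [(0,1),(10,1)]) .nil)))))))) (.cons (.leaf 1 [(8,1)]) (.cons (.leaf 1 [(1,1),(9,1)]) (.cons (.leaf 1 [(1,1),(9,1)]) .nil)))))))) (.cons (.keep [0,4,7,8,9] (.node (.cons (.leaf 1 [(4,1),(2,1),(7,1)]) (.cons (.keep [5,6,7,8,10] (.node (.cons (.leaf 1 [(2,1)]) (.cons (.leaf 1 [(2,1)]) (.cons (.leaf 1 [(2,1)]) (.cons (.leaf 1 [(10,1)]) (.cons (.leaf 1 [(7,1),(6,1),(10,1)]) (.cons (.leaf 1 [(0,1),(10,1)]) .nil)))))))) (.cons (.keep [0,6,7,8,9,10] (.node (.cons (.leaf 1 [(2,1)]) (.cons (.leaf 1 [(2,1)]) (.cons (.leaf 1 [(2,1)]) (.cons (.leaf 1 [(11,1)]) (.cons (.leaf 1 [(6,1),(11,1)]) (.cons (.leaf 1 [(0,1),(11,1)]) .nil)))))))) (.cons (.leaf 1 [(9,1)]) (.cons (.leaf 1 [(1,1),(10,1)]) (.cons (.leaf 1 [(1,1),(10,1)]) .nil)))))))) (.cons (.leaf 2 [(4,1),(8,1)]) (.cons (.leaf 1 [(1,1),(8,1)]) (.cons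 (.leaf 1 [(1,1),(8,1)]) .nil)))))))) (.cons (.leaf 1 []) (.cons (.leaf 2 [(1,1),(8,1)]) (.cons (.keep [0,1,7,8,9] (.node (.cons (.leaf 1 [(2,2),(4,1)]) (.cons (.leaf 1 [(7,2)]) (.cons (.leaf 1 [(4,1),(7,2)]) (.cons (.leaf 2 [(4,1),(8,1)]) (.cons (.leaf 2 [(7,2),(8,1)]) (.cons (.leaf 1 [(1,1),(8,1)]) .nil)))))))) .nil)))))))) (.cons (.keep [3,5,7,8] (.node (.cons (.leaf 1 [(6,1),(2,1)]) (.cons (.leaf 2 [(7,1),(6,1)]) (.cons (.keep [0,2,6,7,9] (.node (.cons (.leaf 1 [(7,1)]) (.cons (.keep [5,6,7,8,9] (.node (.cons (.leaf 1 [(2,1)]) (.cons (.keep [0,6,7,8,10] (.node (.cons (.leaf 1 [(7,1),(2,1)]) (.cons (.leaf 1 [(7,1),(2,1)]) (.cons (.leaf 1 [(7,1),(2,1)]) (.cons (.leaf 1 [(10,1)]) (.cons (.leaf 1 [(7,1),(6,1),(10,1)]) (.cons (.leaf 1 [(7,1),(0,1),(10,1)]) .nil)))))))) (.cons (.keep [6,7,8,9,10] (.node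 (.cons (.leaf 1 [(4,1),(2,1)]) (.cons (.leaf 1 [(9,1),(2,1)]) (.cons (.leaf 1 [(9,1),(2,1)]) (.cons (.leaf 1 [(10,1)]) (.cons (.leaf 1 [(9,1),(10,1)]) (.cons (.leaf 1 [(9,1),(0,1),(10,1)]) .nil)))))))) (.cons (.leaf 1 []) (.cons (.leaf 1 [(1,1),(10,1)]) (.cons (.leaf 1 [(1,1),(10,1)]) .nil)))))))) (.cons (.keep [0,4,7,8,9] (.node (.cons (.leaf 1 [(2,1)]) (.cons (.keep [0,7,8,9,10] (.node (.cons (.leaf 1 [(9,1),(2,1)]) (.cons (.leaf 1 [(9,1),(2,1)]) (.cons (.leaf 1 [(9,1),(2,1)]) (.cons (.leaf 1 [(10,1)]) (.cons (.leaf 1 [(9,1),(6,1),(10,1)]) (.cons (.leaf 1 [(9,1),(0,1),(10,1)]) .nil)))))))) (.cons (.keep [4,7,8,9,10] (.node (.cons (.leaf 1 [(4,1),(2,1)]) (.cons (.leaf 1 [(9,1),(2,1)]) (.cons (.leaf 1 [(9,1),(2,1)]) (.cons (.leaf 1 [(10,1)]) (.cons (.leaf 1 [(9,1),(10,1)]) (.cons (.leaf 1 [(10,1),(9,1),(0,1)])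 .nil)))))))) (.cons (.leaf 1 []) (.cons (.leaf 1 [(1,1),(10,1)]) (.cons (.leaf 1 [(1,1),(10,1)]) .nil)))))))) (.cons (.leaf 1 [(1,1)]) (.cons (.leaf 1 [(1,1)]) (.cons (.leaf 1 [(1,1)]) .nil)))))))) (.cons (.leaf 1 [(6,1)]) (.cons (.leaf 2 [(1,1),(7,1),(6,1)]) (.cons (.keep [0,1,6,7,9] (.node (.cons (.leaf 3 [(4,1),(8,1)]) (.cons (.leaf 1 [(7,2),(8,1)]) (.cons (.leaf 1 [(7,2),(8,1),(4,1)]) (.cons (.leaf 1 [(1,1)]) (.cons (.leaf 1 [(1,1)]) (.cons (.leaf 1 [(1,1)]) .nil)))))))) .nil)))))))) (.cons (.keep [0,3,4,7] (.node (.cons (.leaf 1 [(7,1),(2,1)]) (.cons (.leaf 2 [(7,1)]) (.cons (.keep [0,2,6,7,8] (.node (.cons (.leaf 1 [(4,1),(2,1),(9,1)]) (.cons (.keep [5,6,8,9,10] (.node (.cons (.leaf 2 [(10,1)]) (.cons (.keep [3,5,6,7,10] (.node (.cons (.leaf 1 [(2,1)]) (.cons (.leaf 1 [(8,1),(7,1),(2,1)]) (.cons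 (.leaf 1 [(8,1),(10,1),(2,1)]) (.cons (.leaf 1 []) (.cons (.leaf 1 [(8,1),(7,1)]) (.cons (.leaf 1 [(8,1),(10,1),(0,1)]) .nil)))))))) (.cons (.keep [0,3,6,7,9,10] (.node (.cons (.leaf 1 [(2,1)]) (.cons (.leaf 1 [(10,1),(2,1)]) (.cons (.leaf 1 [(10,1),(2,1)]) (.cons (.leaf 1 []) (.cons (.leaf 1 [(10,1),(6,1)]) (.cons (.leaf 1 [(10,1),(0,1)]) .nil)))))))) (.cons (.leaf 1 [(1,1)]) (.cons (.leaf 1 [(1,1)]) (.cons (.leaf 1 [(1,1)]) .nil)))))))) (.cons (.keep [0,4,8,9,10] (.node (.cons (.leaf 2 [(4,1),(9,1),(7,1)]) (.cons (.keep [3,5,6,7,9] (.node (.cons (.leaf 1 [(2,1)]) (.cons (.leaf 1 [(10,1),(2,1)]) (.cons (.leaf 1 [(10,1),(2,1)]) (.cons (.leaf 1 []) (.cons (.leaf 1 [(10,1),(7,1),(8,1)]) (.cons (.leaf 1 [(10,1),(0,1)]) .nil)))))))) (.cons (.keep [0,3,6,7,9,10] (.node (.cons (.leaf 1 [(2,1)]) (.cons (.leaf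 1 [(10,1),(2,1)]) (.cons (.leaf 1 [(10,1),(2,1)]) (.cons (.leaf 1 []) (.cons (.leaf 1 [(10,1),(6,1)]) (.cons (.leaf 1 [(10,1),(0,1)]) .nil)))))))) (.cons (.leaf 1 [(1,1)]) (.cons (.leaf 1 [(1,1)]) (.cons (.leaf 1 [(1,1)]) .nil)))))))) (.cons (.leaf 2 [(4,1),(10,1),(9,1)]) (.cons (.leaf 1 [(1,1),(10,1)]) (.cons (.leaf 1 [(1,1),(10,1)]) .nil)))))))) (.cons (.leaf 1 [(7,1)]) (.cons (.leaf 1 [(1,1),(3,1)]) (.cons (.keep [0,1,7,8,9] (.node (.cons (.leaf 1 [(8,1),(4,1),(2,2)]) (.cons (.leaf 1 [(7,2),(8,1)]) (.cons (.leaf 1 [(7,2),(8,1),(4,1)]) (.cons (.leaf 2 [(4,1),(9,1),(8,1)]) (.cons (.leaf 1 [(1,1),(9,1)]) (.cons (.leaf 2 [(4,1),(9,1),(7,2),(8,1)]) .nil)))))))) .nil)))))))) (.cons (.leaf 1 []) (.cons (.leaf 1 [(3,1)]) (.cons (.leaf 1 [(3,1)]) .nil))))))))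

theorem e_3_26 : ESB (caseOf 4 3 26) := esb_of_ok (t := t_3_26) (by decide +kernel)

def t_3_27 : T := (.keep [0,1,2] (.node (.cons (.leaf 1 []) (.cons (.leaf 1 [(3,1)]) (.cons (.leaf 1 [(3,1)]) (.cons (.leaf 1 [(3,1)]) (.cons (.leaf 1 [(4,1)]) (.cons (.leaf 1 []) (.cons (.leaf 1 [(4,1)]) (.cons (.leaf 1 [(4,1)]) .nil))))))))))

theorem e_3_27 : ESB (caseOf 4 3 27) := esb_of_ok (t := t_3_27) (by decide +kernel)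

def t_3_29 : T := (.keep [0,1,2] (.node (.cons (.leaf 1 []) (.cons (.leaf 1 [(3,1)]) (.cons (.leaf 1 [(3,1)]) (.cons (.leaf 1 [(3,1)]) (.cons (.keep [1,4,5,6] (.node (.cons (.leaf 1 []) (.cons (.leaf 1 [(3,1)]) (.cons (.leaf 1 [(3,1)]) (.cons (.leaf 1 [(3,1)]) (.cons (.leaf 1 [(8,1)]) (.cons (.leaf 1 [(8,1),(3,1)]) (.cons (.leaf 1 [(8,1),(3,1)]) (.cons (.leaf 1 [(8,1),(3,1)]) .nil)))))))))) (.cons (.keep [3,5,6,7,8] (.node (.cons (.leaf 1 [(7,1)]) (.cons (.leaf 1 [(7,1),(3,1)]) (.cons (.leaf 1 [(7,1),(3,1)]) (.cons (.leaf 1 [(7,1),(3,1)]) (.cons (.leaf 1 []) (.cons (.leaf 1 [(3,1)]) (.cons (.leaf 1 [(3,1)]) (.cons (.leaf 1 [(3,1)]) .nil)))))))))) (.cons (.keep [3,4,6,7,9] (.node (.cons (.leaf 1 [(7,1)]) (.cons (.leaf 1 [(3,2)]) (.cons (.leaf 1 [(7,1),(3,1)]) (.cons (.leaf 1 [(7,1),(3,1)]) (.cons (.leaf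 1 [(8,1)]) (.cons (.leaf 1 [(8,1),(3,1)]) (.cons (.leaf 1 [(8,1),(3,1)]) (.cons (.leaf 1 [(8,1),(3,1)]) .nil)))))))))) (.cons (.keep [1,3,4,5,7] (.node (.cons (.leaf 1 [(8,1)]) (.cons (.leaf 1 [(3,1),(8,1)]) (.cons (.leaf 1 [(3,2)]) (.cons (.leaf 1 [(8,1),(3,1)]) (.cons (.leaf 1 [(9,1)]) (.cons (.leaf 1 [(3,1),(9,1)]) (.cons (.leaf 1 [(9,1),(3,1)]) (.cons (.leaf 1 [(9,1),(3,1)]) .nil)))))))))) .nil))))))))))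

theorem e_3_29 : ESB (caseOf 4 3 29) := esb_of_ok (t := t_3_29) (by decide +kernel)

def t_3_30 : T := (.keep [0,1,2] (.node (.cons (.keep [2,4,5,6] (.node (.cons (.leaf 1 [(2,1)]) (.cons (.leaf 2 [(9,1)]) (.cons (.leaf 2 [(10,1)]) (.cons (.keep [7,8,9,10] (.node (.cons (.leaf 1 [(5,1),(2,1)]) (.cons (.leaf 2 [(5,1),(10,1)]) (.cons (.keep [0,7,9,10] (.node (.cons (.leaf 1 [(4,1),(2,1)]) (.cons (.keep [0,5,8,10] (.node (.cons (.leaf 1 [(2,1)]) (.cons (.leaf 1 [(2,1)]) (.cons (.leaf 1 [(2,1)]) (.cons (.leaf 1 [(2,1)]) (.cons (.leaf 1 [(10,1)]) (.cons (.leaf 1 [(8,1),(10,1)]) (.cons (.leaf 1 [(7,1),(10,1)]) (.cons (.leaf 1 [(0,1),(10,1)]) .nil)))))))))) (.cons (.keep [4,6,7,8,10] (.node (.cons (.leaf 1 [(2,1)]) (.cons (.leaf 1 [(2,1)]) (.cons (.leaf 1 [(2,1)]) (.cons (.leaf 1 [(2,1)]) (.cons (.leaf 1 [(11,1)])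 (.cons (.leaf 1 [(9,1),(11,1)]) (.cons (.leaf 1 [(9,1),(8,1),(11,1)]) (.cons (.leaf 1 [(0,1),(11,1)]) .nil)))))))))) (.cons (.keep [0,4,7,8,10] (.node (.cons (.leaf 1 [(2,1)]) (.cons (.leaf 1 [(2,1)]) (.cons (.leaf 1 [(2,1)]) (.cons (.leaf 1 [(2,1)]) (.cons (.leaf 1 [(11,1)]) (.cons (.leaf 1 [(9,1),(11,1)]) (.cons (.leaf 1 [(7,1),(11,1)]) (.cons (.leaf 1 [(0,1),(11,1)]) .nil)))))))))) (.cons (.leaf 1 [(9,1)]) (.cons (.leaf 1 [(1,1),(10,1)]) (.cons (.leaf 1 [(1,1),(10,1)]) (.cons (.leaf 1 [(1,1),(10,1)]) .nil)))))))))) (.cons (.keep [0,5,7,9,10] (.node (.cons (.leaf 1 [(4,1),(2,1)]) (.cons (.keep [0,5,8,9,11] (.node (.cons (.leaf 1 [(2,1)]) (.cons (.leaf 1 [(2,1)]) (.cons (.leaf 1 [(2,1)]) (.cons (.leaf 1 [(2,1)]) (.cons (.leaf 1 [(11,1)]) (.cons (.leaf 1 [(8,1),(11,1)]) (.cons (.leaf 1 [(7,1),(11,1)])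 (.cons (.leaf 1 [(0,1),(11,1)]) .nil)))))))))) (.cons (.keep [4,6,7,9,11] (.node (.cons (.leaf 1 [(2,1)]) (.cons (.leaf 1 [(2,1)]) (.cons (.leaf 1 [(2,1)]) (.cons (.leaf 1 [(2,1)]) (.cons (.leaf 1 [(11,1)]) (.cons (.leaf 1 [(9,1),(11,1)]) (.cons (.leaf 1 [(9,1),(8,1),(11,1)]) (.cons (.leaf 1 [(0,1),(11,1)]) .nil)))))))))) (.cons (.keep [0,5,8,9,11] (.node (.cons (.leaf 1 [(2,1)]) (.cons (.leaf 1 [(2,1)]) (.cons (.leaf 1 [(2,1)]) (.cons (.leaf 1 [(2,1)]) (.cons (.leaf 1 [(11,1)]) (.cons (.leaf 1 [(7,1),(11,1),(8,1)]) (.cons (.leaf 1 [(7,1),(11,1)]) (.cons (.leaf 1 [(0,1),(11,1)]) .nil)))))))))) (.cons (.leaf 1 [(10,1)]) (.cons (.leaf 1 [(1,1),(11,1)]) (.cons (.leaf 1 [(1,1),(11,1)]) (.cons (.leaf 1 [(1,1),(11,1)]) .nil)))))))))) (.cons (.leaf 1 [(8,1)]) (.cons (.leaf 1 [(9,1),(1,1)]) (.cons (.leaf 1 [(1,1),(9,1)])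 (.cons (.leaf 1 [(1,1),(9,1)]) .nil)))))))))) (.cons (.leaf 1 []) (.cons (.leaf 1 [(1,1),(8,1)]) (.cons (.leaf 1 [(1,1),(8,1)]) (.cons (.leaf 1 [(1,1),(8,1)]) .nil)))))))))) (.cons (.keep [3,5,6,8] (.node (.cons (.leaf 2 [(7,1)]) (.cons (.leaf 2 [(8,1),(7,1)]) (.cons (.leaf 2 [(9,1),(7,1)]) (.cons (.keep [0,3,7,8,9] (.node (.cons (.leaf 1 [(2,1)]) (.cons (.leaf 2 [(11,1)]) (.cons (.keep [0,8,10,11] (.node (.cons (.leaf 1 [(4,1),(2,1)]) (.cons (.keep [0,5,8,10] (.node (.cons (.leaf 1 [(2,1)]) (.cons (.leaf 1 [(2,1)]) (.cons (.leaf 1 [(2,1)]) (.cons (.leaf 1 [(2,1)]) (.cons (.leaf 1 [(10,1)]) (.cons (.leaf 1 [(8,1),(10,1)]) (.cons (.leaf 1 [(7,1),(10,1)]) (.cons (.leaf 1 [(0,1),(10,1)]) .nil)))))))))) (.cons (.keep [4,6,7,8,10] (.node (.cons (.leaf 1 [(2,1)]) (.cons (.leaf 1 [(2,1)]) (.cons (.leaf 1 [(2,1)])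 (.cons (.leaf 1 [(2,1)]) (.cons (.leaf 1 [(11,1)]) (.cons (.leaf 1 [(9,1),(11,1)]) (.cons (.leaf 1 [(9,1),(8,1),(11,1)]) (.cons (.leaf 1 [(0,1),(11,1)]) .nil)))))))))) (.cons (.keep [0,4,7,8,10] (.node (.cons (.leaf 1 [(2,1)]) (.cons (.leaf 1 [(2,1)]) (.cons (.leaf 1 [(2,1)]) (.cons (.leaf 1 [(2,1)]) (.cons (.leaf 1 [(11,1)]) (.cons (.leaf 1 [(9,1),(11,1)]) (.cons (.leaf 1 [(7,1),(11,1)]) (.cons (.leaf 1 [(0,1),(11,1)]) .nil)))))))))) (.cons (.leaf 1 [(9,1)]) (.cons (.leaf 1 [(1,1),(10,1)]) (.cons (.leaf 1 [(1,1),(10,1)]) (.cons (.leaf 1 [(1,1),(10,1)]) .nil)))))))))) (.cons (.keep [5,8,9,10,11] (.node (.cons (.leaf 1 [(5,1),(2,1)]) (.cons (.keep [5,6,7,8,11] (.node (.cons (.leaf 1 [(4,1),(2,1)]) (.cons (.leaf 1 [(7,1),(2,1)]) (.cons (.leaf 1 [(7,1),(2,1)]) (.cons (.leaf 1 [(7,1),(2,1)]) (.cons (.leaf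 1 [(11,1)]) (.cons (.leaf 1 [(7,1),(11,1)]) (.cons (.leaf 1 [(8,1),(11,1)]) (.cons (.leaf 1 [(7,1),(0,1),(11,1)]) .nil)))))))))) (.cons (.keep [0,4,8,9,11] (.node (.cons (.leaf 1 [(4,1),(2,1)]) (.cons (.leaf 1 [(10,1),(2,1)]) (.cons (.leaf 1 [(10,1),(2,1)]) (.cons (.leaf 1 [(10,1),(2,1)]) (.cons (.leaf 1 [(11,1)]) (.cons (.leaf 1 [(10,1),(11,1)]) (.cons (.leaf 1 [(10,1),(7,1),(11,1)]) (.cons (.leaf 1 [(10,1),(0,1),(11,1)]) .nil)))))))))) (.cons (.keep [0,5,7,8,9,11] (.node (.cons (.leaf 1 [(4,1),(2,1)]) (.cons (.leaf 1 [(11,1),(2,1)]) (.cons (.leaf 1 [(11,1),(2,1)]) (.cons (.leaf 1 [(11,1),(2,1)]) (.cons (.leaf 1 [(12,1)]) (.cons (.leaf 1 [(11,1),(12,1)]) (.cons (.leaf 1 [(11,1),(7,1),(12,1)]) (.cons (.leaf 1 [(11,1),(0,1),(12,1)]) .nil)))))))))) (.cons (.leaf 1 [(10,1)]) (.cons (.leaf 1 [(11,1),(1,1)])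 (.cons (.leaf 1 [(1,1),(11,1)]) (.cons (.leaf 1 [(1,1),(11,1)]) .nil)))))))))) (.cons (.leaf 1 []) (.cons (.leaf 1 [(1,1),(10,1)]) (.cons (.leaf 1 [(1,1),(10,1)]) (.cons (.leaf 1 [(1,1),(10,1)]) .nil)))))))))) (.cons (.leaf 1 [(1,1)]) (.cons (.leaf 1 [(1,1)]) (.cons (.leaf 1 [(1,1)]) (.cons (.leaf 1 [(1,1)]) .nil)))))))))) (.cons (.keep [3,4,6,9] (.node (.cons (.leaf 1 [(7,1),(2,1)]) (.cons (.leaf 2 [(7,1)]) (.cons (.leaf 2 [(9,1),(7,1)]) (.cons (.keep [0,7,8,9,10] (.node (.cons (.leaf 2 [(5,1),(8,1)]) (.cons (.leaf 2 [(10,1),(5,1),(8,1)]) (.cons (.keep [3,6,7,8,10] (.node (.cons (.leaf 1 [(2,1)]) (.cons (.keep [0,5,7,11] (.node (.cons (.leaf 1 [(2,1)]) (.cons (.leaf 1 [(2,1)]) (.cons (.leaf 1 [(2,1)]) (.cons (.leaf 1 [(2,1)]) (.cons (.leaf 1 [(10,1)]) (.cons (.leaf 1 [(8,1),(10,1)]) (.cons (.leaf 1 [(7,1),(10,1)])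 (.cons (.leaf 1 [(0,1),(10,1)]) .nil)))))))))) (.cons (.keep [0,4,7,8,11] (.node (.cons (.leaf 1 [(4,1),(2,1)]) (.cons (.leaf 1 [(10,1),(2,1)]) (.cons (.leaf 1 [(10,1),(2,1)]) (.cons (.leaf 1 [(10,1),(2,1)]) (.cons (.leaf 1 [(11,1)]) (.cons (.leaf 1 [(10,1),(11,1)]) (.cons (.leaf 1 [(10,1),(7,1),(11,1)]) (.cons (.leaf 1 [(10,1),(0,1),(11,1)]) .nil)))))))))) (.cons (.keep [4,7,8,10,11] (.node (.cons (.leaf 1 [(5,1),(2,1)]) (.cons (.leaf 1 [(9,1),(5,1),(2,1)]) (.cons (.leaf 1 [(10,1),(2,1)]) (.cons (.leaf 1 [(10,1),(2,1)]) (.cons (.leaf 1 [(11,1)]) (.cons (.leaf 1 [(11,1),(9,1)]) (.cons (.leaf 1 [(10,1),(11,1)]) (.cons (.leaf 1 [(10,1),(0,1),(11,1)]) .nil)))))))))) (.cons (.leaf 1 []) (.cons (.leaf 1 [(1,1),(11,1)]) (.cons (.leaf 1 [(1,1),(11,1)]) (.cons (.leaf 1 [(1,1),(11,1)]) .nil)))))))))) (.cons (.keep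 [0,3,7,8,9,10] (.node (.cons (.leaf 1 [(2,1)]) (.cons (.keep [0,5,8,11,12] (.node (.cons (.leaf 1 [(2,1)]) (.cons (.leaf 1 [(2,1)]) (.cons (.leaf 1 [(2,1)]) (.cons (.leaf 1 [(2,1)]) (.cons (.leaf 1 [(11,1)]) (.cons (.leaf 1 [(8,1),(11,1)]) (.cons (.leaf 1 [(7,1),(11,1)]) (.cons (.leaf 1 [(0,1),(11,1)]) .nil)))))))))) (.cons (.keep [0,4,8,10,12] (.node (.cons (.leaf 1 [(4,1),(2,1)]) (.cons (.leaf 1 [(10,1),(2,1)]) (.cons (.leaf 1 [(10,1),(2,1)]) (.cons (.leaf 1 [(10,1),(2,1)]) (.cons (.leaf 1 [(11,1)]) (.cons (.leaf 1 [(10,1),(11,1)]) (.cons (.leaf 1 [(10,1),(7,1),(11,1)]) (.cons (.leaf 1 [(10,1),(0,1),(11,1)]) .nil)))))))))) (.cons (.keep [4,5,8,10,11,12] (.node (.cons (.leaf 1 [(5,1),(2,1)]) (.cons (.leaf 1 [(10,1),(2,1)]) (.cons (.leaf 1 [(10,1),(2,1)]) (.cons (.leaf 1 [(10,1),(2,1)]) (.cons (.leaf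 1 [(12,1)]) (.cons (.leaf 1 [(10,1),(12,1),(8,1)]) (.cons (.leaf 1 [(10,1),(12,1)]) (.cons (.leaf 1 [(10,1),(0,1),(12,1)]) .nil)))))))))) (.cons (.leaf 1 []) (.cons (.leaf 1 [(1,1),(12,1)]) (.cons (.leaf 1 [(1,1),(12,1)]) (.cons (.leaf 1 [(1,1),(12,1)]) .nil)))))))))) (.cons (.leaf 1 [(1,1)]) (.cons (.leaf 1 [(1,1)]) (.cons (.leaf 1 [(1,1)]) (.cons (.leaf 1 [(1,1)]) .nil)))))))))) (.cons (.leaf 1 [(7,1)]) (.cons (.leaf 1 [(1,1),(3,1)]) (.cons (.leaf 1 [(1,1),(8,1)]) (.cons (.leaf 1 [(1,1),(8,1)]) .nil)))))))))) (.cons (.keep [0,3,4,5] (.node (.cons (.leaf 1 [(8,1),(2,1)]) (.cons (.leaf 2 [(8,1),(10,1)]) (.cons (.leaf 2 [(8,1)]) (.cons (.keep [0,7,8,9,10] (.node (.cons (.leaf 1 [(5,1),(2,1),(9,1)]) (.cons (.leaf 2 [(5,1),(9,1)]) (.cons (.keep [6,7,8,9,11] (.node (.cons (.leaf 2 [(4,1),(10,1)]) (.cons (.keep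 [3,5,6,8,10] (.node (.cons (.leaf 1 [(2,1)]) (.cons (.leaf 1 [(8,1),(2,1)]) (.cons (.leaf 1 [(9,1),(2,1)]) (.cons (.leaf 1 [(11,1),(2,1)]) (.cons (.leaf 1 []) (.cons (.leaf 1 [(8,1)]) (.cons (.leaf 1 [(9,1)]) (.cons (.leaf 1 [(11,1),(0,1)]) .nil)))))))))) (.cons (.keep [3,6,7,8,11] (.node (.cons (.leaf 1 [(2,1)]) (.cons (.leaf 1 [(9,1),(2,1)]) (.cons (.leaf 1 [(9,1),(8,1),(2,1)]) (.cons (.leaf 1 [(9,1),(11,1),(2,1)]) (.cons (.leaf 1 []) (.cons (.leaf 1 [(9,1)]) (.cons (.leaf 1 [(9,1),(8,1)]) (.cons (.leaf 1 [(9,1),(11,1),(0,1)]) .nil)))))))))) (.cons (.keep [0,3,7,8,10,11] (.node (.cons (.leaf 1 [(2,1)]) (.cons (.leaf 1 [(9,1),(2,1)]) (.cons (.leaf 1 [(11,1),(2,1)]) (.cons (.leaf 1 [(11,1),(2,1)]) (.cons (.leaf 1 []) (.cons (.leaf 1 [(9,1)]) (.cons (.leaf 1 [(11,1),(7,1)]) (.cons (.leaf 1 [(11,1),(0,1)])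 .nil)))))))))) (.cons (.leaf 1 [(1,1)]) (.cons (.leaf 1 [(1,1)]) (.cons (.leaf 1 [(1,1)]) (.cons (.leaf 1 [(1,1)]) .nil)))))))))) (.cons (.keep [0,7,8,9,10,11] (.node (.cons (.leaf 2 [(4,1),(10,1)]) (.cons (.keep [3,6,7,8,10,11] (.node (.cons (.leaf 1 [(2,1)]) (.cons (.leaf 1 [(11,1),(2,1)]) (.cons (.leaf 1 [(8,1),(2,1)]) (.cons (.leaf 1 [(11,1),(2,1)]) (.cons (.leaf 1 []) (.cons (.leaf 1 [(11,1),(9,1)]) (.cons (.leaf 1 [(8,1)]) (.cons (.leaf 1 [(11,1),(0,1)]) .nil)))))))))) (.cons (.keep [3,6,7,8,10,11] (.node (.cons (.leaf 1 [(2,1)]) (.cons (.leaf 1 [(11,1),(2,1)]) (.cons (.leaf 1 [(11,1),(2,1)]) (.cons (.leaf 1 [(11,1),(2,1)]) (.cons (.leaf 1 []) (.cons (.leaf 1 [(11,1),(9,1)]) (.cons (.leaf 1 [(11,1),(8,1),(9,1)]) (.cons (.leaf 1 [(11,1),(0,1)]) .nil)))))))))) (.cons (.keep [0,3,7,8,10,11,12] (.node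 (.cons (.leaf 1 [(2,1)]) (.cons (.leaf 1 [(11,1),(2,1)]) (.cons (.leaf 1 [(11,1),(2,1)]) (.cons (.leaf 1 [(11,1),(2,1)]) (.cons (.leaf 1 []) (.cons (.leaf 1 [(11,1),(9,1)]) (.cons (.leaf 1 [(11,1),(7,1)]) (.cons (.leaf 1 [(11,1),(0,1)]) .nil)))))))))) (.cons (.leaf 1 [(1,1)]) (.cons (.leaf 1 [(1,1)]) (.cons (.leaf 1 [(1,1)]) (.cons (.leaf 1 [(1,1)]) .nil)))))))))) (.cons (.leaf 1 [(10,1)]) (.cons (.leaf 1 [(1,1),(3,1)]) (.cons (.leaf 1 [(1,1),(11,1)]) (.cons (.leaf 1 [(1,1),(11,1)]) .nil)))))))))) (.cons (.leaf 1 [(8,1)]) (.cons (.leaf 1 [(1,1),(9,1)]) (.cons (.leaf 1 [(1,1),(3,1)]) (.cons (.leaf 1 [(1,1),(9,1)]) .nil)))))))))) (.cons (.leaf 1 []) (.cons (.leaf 1 [(3,1)]) (.cons (.leaf 1 [(3,1)]) (.cons (.leaf 1 [(3,1)]) .nil))))))))))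

theorem e_3_30 : ESB (caseOf 4 3 30) := esb_of_ok (t := t_3_30) (by decide +kernel)

def t_3_31 : T := (.keep [0,1,2] (.node (.cons (.leaf 1 []) (.cons (.leaf 1 [(3,1)]) (.cons (.leaf 1 [(3,1)]) (.cons (.leaf 1 [(3,1)]) (.cons (.leaf 1 [(3,1)]) (.cons (.leaf 1 [(4,1)]) (.cons (.leaf 1 []) (.cons (.leaf 1 [(4,1)]) (.cons (.leaf 1 [(4,1)]) (.cons (.leaf 1 [(4,1)]) .nil))))))))))))

theorem e_3_31 : ESB (caseOf 4 3 31) := esb_of_ok (t := t_3_31) (by decide +kernel)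

def t_4_17 : T := (.keep [0,1,2] (.node (.cons (.keep [0,3,4,6] (.node (.cons (.keep [0,3,4,5,6] (.node (.cons (.leaf 1 [(7,1)]) (.cons (.leaf 1 [(7,1),(2,1)]) .nil)))) (.cons (.keep [0,2,5,7] (.node (.cons (.leaf 1 [(6,1)]) (.cons (.leaf 1 [(6,1),(2,1)]) .nil)))) .nil)))) (.cons (.keep [0,2,4,5,6] (.node (.cons (.keep [3,4,5,6,7] (.node (.cons (.leaf 1 []) (.cons (.leaf 1 [(2,1)]) .nil)))) (.cons (.keep [0,2,5,7,8] (.node (.cons (.leaf 1 []) (.cons (.leaf 1 [(2,1)]) .nil)))) .nil)))) .nil))))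

theorem e_4_17 : ESB (caseOf 4 4 17) := esb_of_ok (t := t_4_17) (by decide +kernel)

def t_4_19 : T := (.keep [0,1,2] (.node (.cons (.keep [0,3,4,5,7] (.node (.cons (.leaf 1 [(3,1)]) (.cons (.keep [0,2,6,7] (.node (.cons (.leaf 1 [(8,1)]) (.cons (.leaf 1 [(2,1),(8,1)]) (.cons (.leaf 1 [(8,1),(2,1)]) .nil))))) (.cons (.keep [0,2,3,7,9] (.node (.cons (.leaf 1 [(8,1)]) (.cons (.leaf 1 [(2,1),(8,1)]) (.cons (.leaf 1 [(8,1),(2,1)]) .nil))))) .nil))))) (.cons (.keep [2,4,5,6,7] (.node (.cons (.leaf 1 [(3,1),(5,1)]) (.cons (.keep [4,5,6,7,8] (.node (.cons (.leaf 1 [(6,2),(3,1)]) (.cons (.leaf 2 [(6,2),(7,1)]) (.cons (.leaf 2 [(6,2),(7,1),(3,1)]) .nil))))) (.cons (.keep [3,5,6,7,9] (.node (.cons (.leaf 1 [(6,2),(5,1),(3,1)]) (.cons (.leaf 2 [(5,1),(7,1),(6,2)]) (.cons (.leaf 2 [(6,2),(7,1),(3,1),(5,1)]) .nil)))))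 .nil))))) (.cons (.keep [0,2,3,6,7] (.node (.cons (.leaf 1 [(3,1),(6,1)]) (.cons (.keep [4,5,6,8,9] (.node (.cons (.leaf 1 []) (.cons (.leaf 1 [(2,1)]) (.cons (.leaf 1 [(2,1)]) .nil))))) (.cons (.keep [0,3,5,6,9] (.node (.cons (.leaf 1 []) (.cons (.leaf 1 [(2,1)]) (.cons (.leaf 1 [(2,1)]) .nil))))) .nil))))) .nil)))))

theorem e_4_19 : ESB (caseOf 4 4 19) := esb_of_ok (t := t_4_19) (by decide +kernel)

def t_4_20 : T := (.keep [0,1,2] (.node (.cons (.leaf 1 []) (.cons (.leaf 1 [(2,1)]) .nil))))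

theorem e_4_20 : ESB (caseOf 4 4 20) := esb_of_ok (t := t_4_20) (by decide +kernel)

def t_4_21 : T := (.keep [0,1,2] (.node (.cons (.leaf 1 [(3,1)]) (.cons (.leaf 1 []) (.cons (.leaf 1 [(3,1)]) .nil)))))

theorem e_4_21 : ESB (caseOf 4 4 21) := esb_of_ok (t := t_4_21) (by decide +kernel)

def t_4_22 : T := (.keep [0,1,2] (.node (.cons (.leaf 1 [(3,1)]) (.cons (.leaf 1 []) (.cons (.leaf 1 [(3,1)]) .nil)))))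

theorem e_4_22 : ESB (caseOf 4 4 22) := esb_of_ok (t := t_4_22) (by decide +kernel)

def t_4_23 : T := (.keep [0,1,2] (.node (.cons (.leaf 1 [(4,1)]) (.cons (.leaf 1 [(4,1)]) (.cons (.leaf 1 []) (.cons (.leaf 1 [(4,1)]) .nil))))))

theorem e_4_23 : ESB (caseOf 4 4 23) := esb_of_ok (t := t_4_23) (by decide +kernel)

def t_4_25 : T := (.keep [0,1,2] (.node (.cons (.keep [0,3,4,5,7] (.node (.cons (.keep [0,3,4,5,6,8] (.node (.cons (.leaf 1 [(6,1)]) (.cons (.leaf 1 [(6,1),(2,1)]) (.cons (.leaf 1 [(6,1),(2,1)]) .nil))))) (.cons (.keep [2,4,5,6,7] (.node (.cons (.leaf 1 [(9,1)]) (.cons (.leaf 1 [(9,1),(2,1)]) (.cons (.leaf 1 [(9,1),(2,1)]) .nil))))) (.cons (.keep [0,2,6,7] (.node (.cons (.leaf 1 [(8,1)]) (.cons (.leaf 1 [(8,1),(2,1)]) (.cons (.leaf 1 [(8,1),(2,1)]) .nil))))) .nil))))) (.cons (.keep [2,4,5,6,7]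 (.node (.cons (.keep [4,5,6,7,8] (.node (.cons (.leaf 1 [(7,1)]) (.cons (.leaf 1 [(7,1),(2,1)]) (.cons (.leaf 1 [(7,1),(2,1)]) .nil))))) (.cons (.keep [2,4,6,8,9] (.node (.cons (.leaf 1 [(7,1)]) (.cons (.leaf 1 [(7,1),(2,1)]) (.cons (.leaf 1 [(7,1),(2,1)]) .nil))))) (.cons (.keep [0,2,5,6,8] (.node (.cons (.leaf 1 [(8,1)]) (.cons (.leaf 1 [(8,1),(2,1)]) (.cons (.leaf 1 [(8,1),(2,1)]) .nil))))) .nil))))) (.cons (.keep [0,2,3,5,6] (.node (.cons (.keep [3,4,5,6,7] (.node (.cons (.leaf 1 []) (.cons (.leaf 1 [(2,1)]) (.cons (.leaf 1 [(2,1)]) .nil))))) (.cons (.keep [2,4,5,7,9] (.node (.cons (.leaf 1 []) (.cons (.leaf 1 [(2,1)]) (.cons (.leaf 1 [(2,1)]) .nil))))) (.cons (.keep [0,3,6,7,9] (.node (.cons (.leaf 1 []) (.cons (.leaf 1 [(2,1)]) (.cons (.leaf 1 [(2,1)]) .nil))))) .nil))))) .nil)))))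

theorem e_4_25 : ESB (caseOf 4 4 25) := esb_of_ok (t := t_4_25) (by decide +kernel)

def t_4_27 : T := (.keep [0,1,2] (.node (.cons (.keep [0,3,4,5,6,8] (.node (.cons (.leaf 1 [(3,1)]) (.cons (.keep [0,2,8,9] (.node (.cons (.leaf 1 [(9,1)]) (.cons (.leaf 1 [(2,1),(9,1)]) (.cons (.leaf 1 [(9,1),(2,1)]) (.cons (.leaf 1 [(9,1),(2,1)]) .nil)))))) (.cons (.leaf 1 [(9,1),(3,1)]) (.cons (.keep [0,2,3,8,9] (.node (.cons (.leaf 1 [(4,1),(8,1)]) (.cons (.leaf 1 [(4,1),(9,1),(8,1)]) (.cons (.leaf 2 [(10,1),(8,1)]) (.cons (.leaf 2 [(10,1),(8,1),(4,1)]) .nil)))))) .nil)))))) (.cons (.keep [2,4,5,6,7] (.node (.cons (.leaf 1 [(3,1),(6,1)]) (.cons (.leaf 1 [(7,1),(6,1)]) (.cons (.leaf 1 [(3,1),(6,1),(7,1)]) (.cons (.leaf 1 [(3,1),(6,1),(7,1)]) .nil)))))) (.cons (.keep [2,3,5,7,8] (.node (.cons (.leaf 1 [(3,1),(6,1)])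 (.cons (.keep [5,6,8,9,10] (.node (.cons (.leaf 1 [(8,1)]) (.cons (.leaf 1 [(2,1),(8,1)]) (.cons (.leaf 1 [(8,1),(2,1)]) (.cons (.leaf 1 [(8,1),(2,1)]) .nil)))))) (.cons (.leaf 1 [(8,1),(3,1)]) (.cons (.keep [0,3,6,8,10] (.node (.cons (.leaf 1 [(8,1),(4,1),(7,1)]) (.cons (.leaf 1 [(4,1),(7,1)]) (.cons (.leaf 2 [(8,1),(9,1),(7,1)]) (.cons (.leaf 2 [(8,1),(9,1),(7,1),(4,1)]) .nil)))))) .nil)))))) (.cons (.keep [0,2,3,4,7] (.node (.cons (.leaf 1 [(3,1),(7,1)]) (.cons (.keep [5,6,7,9,10] (.node (.cons (.leaf 1 []) (.cons (.leaf 1 [(2,1)]) (.cons (.leaf 1 [(2,1)]) (.cons (.leaf 1 [(2,1)]) .nil)))))) (.cons (.leaf 1 [(3,1)]) (.cons (.keep [0,3,6,7,9] (.node (.cons (.leaf 1 []) (.cons (.leaf 1 [(2,1)]) (.cons (.leaf 1 [(2,1)]) (.cons (.leaf 1 [(2,1)]) .nil)))))) .nil)))))) .nil))))))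

theorem e_4_27 : ESB (caseOf 4 4 27) := esb_of_ok (t := t_4_27) (by decide +kernel)

def t_4_28 : T := (.keep [0,1,2] (.node (.cons (.leaf 1 []) (.cons (.leaf 1 [(2,1)]) (.cons (.leaf 1 [(2,1)]) .nil)))))

theorem e_4_28 : ESB (caseOf 4 4 28) := esb_of_ok (t := t_4_28) (by decide +kernel)

def t_4_29 : T := (.keep [0,1,2] (.node (.cons (.leaf 1 [(3,1)]) (.cons (.leaf 1 []) (.cons (.leaf 1 [(3,1)]) (.cons (.leaf 1 [(3,1)]) .nil))))))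

theorem e_4_29 : ESB (caseOf 4 4 29) := esb_of_ok (t := t_4_29) (by decide +kernel)

def t_4_30 : T := (.keep [0,1,2] (.node (.cons (.leaf 1 [(3,1)]) (.cons (.leaf 1 []) (.cons (.leaf 1 [(3,1)]) (.cons (.leaf 1 [(3,1)]) .nil))))))

theorem e_4_30 : ESB (caseOf 4 4 30) := esb_of_ok (t := t_4_30) (by decide +kernel)

def t_4_31 : T := (.keep [0,1,2] (.node (.cons (.leaf 1 [(4,1)]) (.cons (.leaf 1 [(4,1)]) (.cons (.leaf 1 []) (.cons (.leaf 1 [(4,1)]) (.cons (.leaf 1 [(4,1)]) .nil)))))))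

theorem e_4_31 : ESB (caseOf 4 4 31) := esb_of_ok (t := t_4_31) (by decide +kernel)

def t_5_17 : T := (.keep [0,1,2] (.node (.cons (.leaf 1 []) (.cons (.leaf 1 [(3,1)]) (.cons (.keep [1,4,5,7] (.node (.cons (.keep [2,4,5,6] (.node (.cons (.leaf 1 []) (.cons (.leaf 1 [(3,1)]) (.cons (.leaf 1 [(8,1)]) (.cons (.leaf 1 [(8,1),(3,1)]) .nil)))))) (.cons (.keep [0,2,3,6] (.node (.cons (.leaf 1 []) (.cons (.leaf 1 [(3,1)]) (.cons (.leaf 1 [(8,1)]) (.cons (.leaf 1 [(8,1),(3,1)]) .nil)))))) (.cons (.keep [1,4,6,7] (.node (.cons (.leaf 1 []) (.cons (.leaf 1 [(3,1)]) (.cons (.leaf 1 [(7,1)]) (.cons (.leaf 1 [(7,1),(3,1)]) .nil)))))) (.cons (.keep [0,1,3,6,8] (.node (.cons (.leaf 1 []) (.cons (.leaf 1 [(3,1)]) (.cons (.leaf 1 [(8,1)]) (.cons (.leaf 1 [(8,1),(3,1)]) .nil)))))) .nil)))))) (.cons (.keep [1,3,5,6,7]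 (.node (.cons (.keep [2,4,6,7,8] (.node (.cons (.leaf 1 [(7,1)]) (.cons (.leaf 1 [(7,1),(3,1)]) (.cons (.leaf 1 []) (.cons (.leaf 1 [(3,1)]) .nil)))))) (.cons (.keep [0,2,3,6,8] (.node (.cons (.leaf 1 [(8,1)]) (.cons (.leaf 1 [(8,1),(3,1)]) (.cons (.leaf 1 []) (.cons (.leaf 1 [(3,1)]) .nil)))))) (.cons (.keep [1,4,6,7,8] (.node (.cons (.leaf 1 [(7,1)]) (.cons (.leaf 1 [(7,1),(3,1)]) (.cons (.leaf 1 []) (.cons (.leaf 1 [(3,1)]) .nil)))))) (.cons (.keep [0,1,3,6,8,9] (.node (.cons (.leaf 1 [(8,1)]) (.cons (.leaf 1 [(8,1),(3,1)]) (.cons (.leaf 1 []) (.cons (.leaf 1 [(3,1)]) .nil)))))) .nil)))))) .nil))))))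

theorem e_5_17 : ESB (caseOf 4 5 17) := esb_of_ok (t := t_5_17) (by decide +kernel)

def t_5_19 : T := (.keep [0,1,2] (.node (.cons (.leaf 1 []) (.cons (.leaf 1 [(3,1)]) (.cons (.leaf 1 [(3,1)]) (.cons (.keep [1,4,5,8] (.node (.cons (.leaf 1 [(4,1)]) (.cons (.keep [0,2,3,8] (.node (.cons (.leaf 1 []) (.cons (.leaf 1 [(3,1)]) (.cons (.leaf 1 [(3,1)]) (.cons (.leaf 1 [(9,1)]) (.cons (.leaf 1 [(3,1),(9,1)]) (.cons (.leaf 1 [(9,1),(3,1)]) .nil)))))))) (.cons (.keep [0,2,4,6,8] (.node (.cons (.leaf 1 []) (.cons (.leaf 1 [(3,1)]) (.cons (.leaf 1 [(3,1)]) (.cons (.leaf 1 [(10,1)]) (.cons (.leaf 1 [(3,1),(10,1)]) (.cons (.leaf 1 [(10,1),(3,1)]) .nil)))))))) (.cons (.leaf 1 [(4,1)]) (.cons (.keep [0,1,7,8] (.node (.cons (.leaf 1 []) (.cons (.leaf 1 [(3,1)]) (.cons (.leaf 1 [(3,1)]) (.cons (.leaf 1 [(9,1)]) (.cons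 (.leaf 1 [(3,1),(9,1)]) (.cons (.leaf 1 [(9,1),(3,1)]) .nil)))))))) (.cons (.keep [0,1,4,8,9] (.node (.cons (.leaf 1 []) (.cons (.leaf 1 [(3,1)]) (.cons (.leaf 1 [(3,1)]) (.cons (.leaf 1 [(9,1)]) (.cons (.leaf 1 [(3,1),(9,1)]) (.cons (.leaf 1 [(9,1),(3,1)]) .nil)))))))) .nil)))))))) (.cons (.keep [3,5,6,7,8] (.node (.cons (.leaf 1 [(4,1)]) (.cons (.leaf 1 [(6,2)]) (.cons (.leaf 1 [(4,1),(6,2)]) (.cons (.leaf 1 [(4,1),(1,1)]) (.cons (.keep [5,6,7,8,9] (.node (.cons (.leaf 1 [(7,1)]) (.cons (.leaf 1 [(3,3)]) (.cons (.leaf 1 [(7,1),(3,1)]) (.cons (.leaf 1 [(7,2),(4,1)]) (.cons (.leaf 2 [(7,2),(8,1)]) (.cons (.leaf 2 [(7,2),(8,1),(4,1)]) .nil)))))))) (.cons (.keep [4,6,7,8,10] (.node (.cons (.leaf 1 [(7,1)]) (.cons (.leaf 1 [(3,1),(7,1)]) (.cons (.leaf 1 [(7,1),(3,1)]) (.cons (.leaf 1 [(7,2),(6,1),(4,1)])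 (.cons (.leaf 2 [(6,1),(8,1),(7,2)]) (.cons (.leaf 2 [(7,2),(8,1),(4,1),(6,1)]) .nil)))))))) .nil)))))))) (.cons (.keep [1,3,4,7,8] (.node (.cons (.leaf 1 [(4,1),(7,1)]) (.cons (.keep [2,5,7,8,9] (.node (.cons (.leaf 1 [(8,1)]) (.cons (.leaf 1 [(3,1),(8,1)]) (.cons (.leaf 1 [(8,1),(3,1)]) (.cons (.leaf 1 []) (.cons (.leaf 1 [(3,1)]) (.cons (.leaf 1 [(3,1)]) .nil)))))))) (.cons (.keep [0,2,4,7,8] (.node (.cons (.leaf 1 [(9,1)]) (.cons (.leaf 1 [(3,1),(9,1)]) (.cons (.leaf 1 [(9,1),(3,1)]) (.cons (.leaf 1 []) (.cons (.leaf 1 [(3,1)]) (.cons (.leaf 1 [(3,1)]) .nil)))))))) (.cons (.leaf 1 [(4,1),(7,1)]) (.cons (.keep [1,5,7,9,10] (.node (.cons (.leaf 1 [(8,1)]) (.cons (.leaf 1 [(3,1),(8,1)]) (.cons (.leaf 1 [(8,1),(3,1)]) (.cons (.leaf 1 []) (.cons (.leaf 1 [(3,1)]) (.cons (.leaf 1 [(3,1)]) .nil)))))))) (.cons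 (.keep [0,1,4,7,10] (.node (.cons (.leaf 1 [(9,1)]) (.cons (.leaf 1 [(3,1),(9,1)]) (.cons (.leaf 1 [(9,1),(3,1)]) (.cons (.leaf 1 []) (.cons (.leaf 1 [(3,1)]) (.cons (.leaf 1 [(3,1)]) .nil)))))))) .nil)))))))) .nil))))))))

theorem e_5_19 : ESB (caseOf 4 5 19) := esb_of_ok (t := t_5_19) (by decide +kernel)

def t_5_20 : T := (.keep [0,1,2] (.node (.cons (.keep [2,4,5,7] (.node (.cons (.keep [2,4,6,7] (.node (.cons (.leaf 1 [(2,1)]) (.cons (.keep [5,6,7,8] (.node (.cons (.keep [2,4,5,7,8] (.node (.cons (.leaf 1 [(2,1)]) (.cons (.leaf 1 [(2,1)]) (.cons (.leaf 1 [(8,1)]) (.cons (.leaf 1 [(0,1),(8,1)]) .nil)))))) (.cons (.keep [0,5,6,7] (.node (.cons (.leaf 1 [(2,1)]) (.cons (.leaf 1 [(2,1)]) (.cons (.leaf 1 [(8,1)]) (.cons (.leaf 1 [(0,1),(8,1)]) .nil)))))) (.cons (.keep [1,4,6,7,8] (.node (.cons (.leaf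 1 [(2,1)]) (.cons (.leaf 1 [(2,1)]) (.cons (.leaf 1 [(8,1)]) (.cons (.leaf 1 [(0,1),(8,1)]) .nil)))))) (.cons (.keep [1,3,6,7,8] (.node (.cons (.leaf 1 [(2,1)]) (.cons (.leaf 1 [(2,1)]) (.cons (.leaf 1 [(8,1)]) (.cons (.leaf 1 [(0,1),(8,1)]) .nil)))))) .nil)))))) (.cons (.leaf 1 []) (.cons (.leaf 1 [(1,1),(7,1)]) .nil)))))) (.cons (.keep [0,2,3,6,7] (.node (.cons (.leaf 1 [(2,1)]) (.cons (.keep [5,6,7,8,9] (.node (.cons (.keep [2,4,6,8,9] (.node (.cons (.leaf 1 [(2,1)]) (.cons (.leaf 1 [(2,1)]) (.cons (.leaf 1 [(8,1)]) (.cons (.leaf 1 [(0,1),(8,1)]) .nil)))))) (.cons (.keep [0,2,7,8] (.node (.cons (.leaf 1 [(2,1)]) (.cons (.leaf 1 [(2,1)]) (.cons (.leaf 1 [(8,1)]) (.cons (.leaf 1 [(0,1),(8,1)]) .nil)))))) (.cons (.keep [1,4,5,8] (.node (.cons (.leaf 1 [(2,1)]) (.cons (.leaf 1 [(2,1)]) (.cons (.leaf 1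 [(8,1)]) (.cons (.leaf 1 [(0,1),(8,1)]) .nil)))))) (.cons (.keep [0,1,3,8] (.node (.cons (.leaf 1 [(2,1)]) (.cons (.leaf 1 [(2,1)]) (.cons (.leaf 1 [(8,1)]) (.cons (.leaf 1 [(0,1),(8,1)]) .nil)))))) .nil)))))) (.cons (.leaf 1 []) (.cons (.leaf 1 [(1,1),(8,1)]) .nil)))))) (.cons (.keep [1,4,6,8] (.node (.cons (.leaf 1 [(2,1)]) (.cons (.keep [5,6,7,8] (.node (.cons (.keep [2,4,7,8] (.node (.cons (.leaf 1 [(2,1)]) (.cons (.leaf 1 [(2,1)]) (.cons (.leaf 1 [(7,1)]) (.cons (.leaf 1 [(0,1),(7,1)]) .nil)))))) (.cons (.keep [3,5,7,8] (.node (.cons (.leaf 1 [(2,1)]) (.cons (.leaf 1 [(2,1)]) (.cons (.leaf 1 [(7,1)]) (.cons (.leaf 1 [(0,1),(7,1)]) .nil)))))) (.cons (.keep [1,4,6,7,8] (.node (.cons (.leaf 1 [(2,1)]) (.cons (.leaf 1 [(2,1)]) (.cons (.leaf 1 [(8,1)]) (.cons (.leaf 1 [(0,1),(8,1)]) .nil)))))) (.cons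 (.keep [1,3,6,7,8] (.node (.cons (.leaf 1 [(2,1)]) (.cons (.leaf 1 [(2,1)]) (.cons (.leaf 1 [(8,1)]) (.cons (.leaf 1 [(0,1),(8,1)]) .nil)))))) .nil)))))) (.cons (.leaf 1 []) (.cons (.leaf 1 [(1,1),(7,1)]) .nil)))))) (.cons (.keep [0,1,3,6] (.node (.cons (.leaf 1 [(2,1)]) (.cons (.keep [5,6,7,8] (.node (.cons (.keep [2,4,5,7,8] (.node (.cons (.leaf 1 [(2,1)]) (.cons (.leaf 1 [(2,1)]) (.cons (.leaf 1 [(9,1)]) (.cons (.leaf 1 [(0,1),(9,1)]) .nil)))))) (.cons (.keep [3,5,6,7,8] (.node (.cons (.leaf 1 [(2,1)]) (.cons (.leaf 1 [(2,1)]) (.cons (.leaf 1 [(9,1)]) (.cons (.leaf 1 [(0,1),(9,1)]) .nil)))))) (.cons (.keep [1,4,5,8] (.node (.cons (.leaf 1 [(2,1)]) (.cons (.leaf 1 [(2,1)]) (.cons (.leaf 1 [(8,1)]) (.cons (.leaf 1 [(0,1),(8,1)]) .nil)))))) (.cons (.keep [3,5,6,7,8] (.node (.cons (.leaf 1 [(2,1)]) (.cons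 (.leaf 1 [(2,1)]) (.cons (.leaf 1 [(9,1)]) (.cons (.leaf 1 [(0,1),(9,1)]) .nil)))))) .nil)))))) (.cons (.leaf 1 []) (.cons (.leaf 1 [(1,1),(8,1)]) .nil)))))) .nil)))))) (.cons (.keep [0,3,5,7] (.node (.cons (.keep [2,4,6,7] (.node (.cons (.leaf 2 [(7,1)]) (.cons (.keep [0,5,6,7,8] (.node (.cons (.keep [2,4,5,6,8,9] (.node (.cons (.leaf 1 [(2,1)]) (.cons (.leaf 1 [(9,1),(2,1)]) (.cons (.leaf 1 []) (.cons (.leaf 1 [(9,1),(0,1)]) .nil)))))) (.cons (.keep [0,5,6,7,8] (.node (.cons (.leaf 1 [(2,1)]) (.cons (.leaf 1 [(9,1),(2,1)]) (.cons (.leaf 1 []) (.cons (.leaf 1 [(9,1),(0,1)]) .nil)))))) (.cons (.keep [1,4,5,7,8,9] (.node (.cons (.leaf 1 [(2,1)]) (.cons (.leaf 1 [(9,1),(2,1)]) (.cons (.leaf 1 []) (.cons (.leaf 1 [(9,1),(0,1)]) .nil)))))) (.cons (.keep [1,3,5,7,8,9] (.node (.cons (.leaf 1 [(2,1)]) (.cons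 (.leaf 1 [(9,1),(2,1)]) (.cons (.leaf 1 []) (.cons (.leaf 1 [(9,1),(0,1)]) .nil)))))) .nil)))))) (.cons (.leaf 1 [(1,1)]) (.cons (.leaf 1 [(1,1)]) .nil)))))) (.cons (.keep [0,2,3,6,7] (.node (.cons (.leaf 2 [(8,1)]) (.cons (.keep [0,5,6,7,8,9] (.node (.cons (.keep [2,4,5,7,9,10] (.node (.cons (.leaf 1 [(2,1)]) (.cons (.leaf 1 [(9,1),(2,1)]) (.cons (.leaf 1 []) (.cons (.leaf 1 [(9,1),(0,1)]) .nil)))))) (.cons (.keep [0,2,5,8,9] (.node (.cons (.leaf 1 [(2,1)]) (.cons (.leaf 1 [(9,1),(2,1)]) (.cons (.leaf 1 []) (.cons (.leaf 1 [(9,1),(0,1)]) .nil)))))) (.cons (.keep [1,4,5,6,9] (.node (.cons (.leaf 1 [(2,1)]) (.cons (.leaf 1 [(9,1),(2,1)]) (.cons (.leaf 1 []) (.cons (.leaf 1 [(9,1),(0,1)]) .nil)))))) (.cons (.keep [0,1,3,5,9] (.node (.cons (.leaf 1 [(2,1)]) (.cons (.leaf 1 [(9,1),(2,1)]) (.cons (.leaf 1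 []) (.cons (.leaf 1 [(9,1),(0,1)]) .nil)))))) .nil)))))) (.cons (.leaf 1 [(1,1)]) (.cons (.leaf 1 [(1,1)]) .nil)))))) (.cons (.keep [1,4,6,8] (.node (.cons (.leaf 2 [(7,1)]) (.cons (.keep [0,5,6,7,8] (.node (.cons (.keep [2,4,5,8,9] (.node (.cons (.leaf 1 [(2,1)]) (.cons (.leaf 1 [(8,1),(2,1)]) (.cons (.leaf 1 []) (.cons (.leaf 1 [(8,1),(0,1)]) .nil)))))) (.cons (.keep [3,5,6,8,9] (.node (.cons (.leaf 1 [(2,1)]) (.cons (.leaf 1 [(8,1),(2,1)]) (.cons (.leaf 1 []) (.cons (.leaf 1 [(8,1),(0,1)]) .nil)))))) (.cons (.keep [1,4,5,7,8,9] (.node (.cons (.leaf 1 [(2,1)]) (.cons (.leaf 1 [(9,1),(2,1)]) (.cons (.leaf 1 []) (.cons (.leaf 1 [(9,1),(0,1)]) .nil)))))) (.cons (.keep [1,3,5,7,8,9] (.node (.cons (.leaf 1 [(2,1)]) (.cons (.leaf 1 [(9,1),(2,1)]) (.cons (.leaf 1 []) (.cons (.leaf 1 [(9,1),(0,1)]) .nil))))))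 .nil)))))) (.cons (.leaf 1 [(1,1)]) (.cons (.leaf 1 [(1,1)]) .nil)))))) (.cons (.keep [0,1,3,6] (.node (.cons (.leaf 2 [(8,1)]) (.cons (.keep [0,5,6,7,8] (.node (.cons (.keep [2,4,5,6,8,9] (.node (.cons (.leaf 1 [(2,1)]) (.cons (.leaf 1 [(10,1),(2,1)]) (.cons (.leaf 1 []) (.cons (.leaf 1 [(10,1),(0,1)]) .nil)))))) (.cons (.keep [3,5,6,7,8,9] (.node (.cons (.leaf 1 [(2,1)]) (.cons (.leaf 1 [(10,1),(2,1)]) (.cons (.leaf 1 []) (.cons (.leaf 1 [(10,1),(0,1)]) .nil)))))) (.cons (.keep [1,4,5,6,9] (.node (.cons (.leaf 1 [(2,1)]) (.cons (.leaf 1 [(9,1),(2,1)]) (.cons (.leaf 1 []) (.cons (.leaf 1 [(9,1),(0,1)]) .nil)))))) (.cons (.keep [3,5,6,7,8,9] (.node (.cons (.leaf 1 [(2,1)]) (.cons (.leaf 1 [(10,1),(2,1)]) (.cons (.leaf 1 []) (.cons (.leaf 1 [(10,1),(0,1)]) .nil)))))) .nil)))))) (.cons (.leaf 1 [(1,1)])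 (.cons (.leaf 1 [(1,1)]) .nil)))))) .nil)))))) (.cons (.leaf 1 []) (.cons (.leaf 1 [(3,1)]) .nil))))))

theorem e_5_20 : ESB (caseOf 4 5 20) := esb_of_ok (t := t_5_20) (by decide +kernel)

def t_5_21 : T := (.keep [0,1,2] (.node (.cons (.leaf 1 []) (.cons (.leaf 1 [(3,1)]) (.cons (.leaf 1 [(3,1)]) (.cons (.leaf 1 [(4,1)]) (.cons (.leaf 1 []) (.cons (.leaf 1 [(4,1)]) .nil))))))))

theorem e_5_21 : ESB (caseOf 4 5 21) := esb_of_ok (t := t_5_21) (by decide +kernel)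

def t_5_22 : T := (.keep [0,1,2] (.node (.cons (.keep [4,5,6,8] (.node (.cons (.leaf 2 [(6,1)]) (.cons (.leaf 1 [(2,1)]) (.cons (.keep [2,6,7,8] (.node (.cons (.leaf 1 [(7,1),(6,1)]) (.cons (.leaf 1 [(7,1),(2,1)]) (.cons (.keep [0,6,7,8,9] (.node (.cons (.leaf 1 [(2,1)]) (.cons (.leaf 1 [(2,1)]) (.cons (.leaf 1 [(2,1)]) (.cons (.leaf 2 [(4,1),(9,1)]) (.cons (.keep [0,1,6,8,9] (.node (.cons (.leaf 1 [(2,1),(9,1)]) (.cons (.leaf 1 [(2,1),(3,1)]) (.cons (.leaf 1 [(2,1),(9,1)]) (.cons (.leaf 1 [(10,1),(9,1)]) (.cons (.leaf 1 [(10,1)]) (.cons (.leaf 1 [(0,1),(9,1),(10,1)]) .nil)))))))) (.cons (.keep [0,1,4,6,8,9] (.node (.cons (.leaf 1 [(2,1),(10,1)]) (.cons (.leaf 1 [(2,1),(3,1)]) (.cons (.leaf 1 [(2,1),(10,1)]) (.cons (.leaf 1 [(11,1),(10,1)]) (.cons (.leaf 1 [(11,1)]) (.cons (.leaf 1 [(0,1),(10,1),(11,1)])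 .nil)))))))) .nil)))))))) (.cons (.leaf 1 [(7,1),(1,1),(6,1)]) (.cons (.leaf 1 [(7,1)]) (.cons (.leaf 1 [(1,1),(8,1)]) .nil)))))))) (.cons (.leaf 2 [(6,1),(1,1)]) (.cons (.leaf 1 []) (.cons (.keep [0,1,6,7,9] (.node (.cons (.leaf 1 [(8,1),(6,1)]) (.cons (.leaf 1 [(2,1),(8,1)]) (.cons (.keep [0,6,7,8,9,10] (.node (.cons (.leaf 1 [(8,1),(2,1)]) (.cons (.leaf 1 [(2,2)]) (.cons (.leaf 1 [(2,1),(8,1)]) (.cons (.leaf 2 [(10,1)]) (.cons (.keep [0,1,6,9,10] (.node (.cons (.leaf 1 [(2,1),(9,1)]) (.cons (.leaf 1 [(2,1),(3,1)]) (.cons (.leaf 1 [(2,1),(9,1)]) (.cons (.leaf 1 [(10,1),(9,1)]) (.cons (.leaf 1 [(10,1)]) (.cons (.leaf 1 [(0,1),(9,1),(10,1)]) .nil)))))))) (.cons (.keep [4,6,8,9,10,11] (.node (.cons (.leaf 1 [(9,1),(2,1)]) (.cons (.leaf 1 [(8,1),(3,1),(2,1)]) (.cons (.leaf 1 [(9,1),(2,1)]) (.cons (.leaf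 1 [(10,1),(9,1),(6,1)]) (.cons (.leaf 1 [(10,1)]) (.cons (.leaf 1 [(9,1),(0,1),(10,1)]) .nil)))))))) .nil)))))))) (.cons (.leaf 1 [(8,1),(1,1),(6,1)]) (.cons (.leaf 1 [(8,1)]) (.cons (.leaf 1 [(9,1),(1,1)]) .nil)))))))) .nil)))))))) (.cons (.keep [2,3,5,8] (.node (.cons (.leaf 2 [(7,1)]) (.cons (.leaf 1 [(2,1),(7,1)]) (.cons (.keep [0,2,6,7,8] (.node (.cons (.leaf 1 [(7,1)]) (.cons (.leaf 1 [(2,1)]) (.cons (.keep [6,7,8,9,10] (.node (.cons (.leaf 1 [(9,1),(2,1)]) (.cons (.leaf 1 [(9,1),(2,1)]) (.cons (.leaf 1 [(9,1),(2,1)]) (.cons (.leaf 2 [(4,1),(9,1),(10,1)]) (.cons (.keep [5,6,8,9,10] (.node (.cons (.leaf 1 [(2,1)]) (.cons (.leaf 1 [(2,1)]) (.cons (.leaf 1 [(2,1)]) (.cons (.leaf 1 [(10,1),(7,1)]) (.cons (.leaf 1 [(10,1)]) (.cons (.leaf 1 [(0,1),(10,1)]) .nil)))))))) (.cons (.keep [0,4,8,9,10] (.node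 (.cons (.leaf 1 [(2,1)]) (.cons (.leaf 1 [(2,1)]) (.cons (.leaf 1 [(2,1)]) (.cons (.leaf 1 [(10,1),(6,1),(7,1)]) (.cons (.leaf 1 [(10,1)]) (.cons (.leaf 1 [(0,1),(10,1)]) .nil)))))))) .nil)))))))) (.cons (.leaf 1 [(7,1),(1,1)]) (.cons (.leaf 1 []) (.cons (.leaf 1 [(1,1),(10,1)]) .nil)))))))) (.cons (.leaf 1 [(4,1),(1,1)]) (.cons (.leaf 1 [(7,1)]) (.cons (.keep [0,1,7,8,9] (.node (.cons (.leaf 1 [(6,1),(8,1)]) (.cons (.leaf 1 [(2,1)]) (.cons (.keep [3,6,7,8,9] (.node (.cons (.leaf 1 [(9,1),(8,1),(2,1)]) (.cons (.leaf 1 [(9,1),(2,2)]) (.cons (.leaf 1 [(9,1),(8,1),(2,1)]) (.cons (.leaf 2 [(9,1),(10,1)]) (.cons (.keep [5,6,7,9,10] (.node (.cons (.leaf 1 [(2,1)]) (.cons (.leaf 1 [(2,1)]) (.cons (.leaf 1 [(2,1)]) (.cons (.leaf 1 [(10,1),(8,1)]) (.cons (.leaf 1 [(10,1)]) (.cons (.leaf 1 [(0,1),(10,1)]) .nil))))))))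 (.cons (.keep [6,7,8,9,10] (.node (.cons (.leaf 1 [(2,1)]) (.cons (.leaf 1 [(2,1)]) (.cons (.leaf 1 [(2,1)]) (.cons (.leaf 1 [(10,1),(7,1)]) (.cons (.leaf 1 [(10,1)]) (.cons (.leaf 1 [(0,1),(10,1)]) .nil)))))))) .nil)))))))) (.cons (.leaf 1 [(6,1),(1,1),(8,1)]) (.cons (.leaf 1 []) (.cons (.leaf 1 [(1,1),(9,1)]) .nil)))))))) .nil)))))))) (.cons (.keep [0,3,4,8] (.node (.cons (.leaf 2 [(7,1),(8,1)]) (.cons (.leaf 1 [(7,1),(2,1)]) (.cons (.keep [0,2,6,7,8] (.node (.cons (.leaf 1 [(10,1),(7,1)]) (.cons (.leaf 2 [(10,1)]) (.cons (.keep [0,4,6,7,9,10] (.node (.cons (.leaf 1 [(9,1)]) (.cons (.leaf 1 [(2,1),(10,1)]) (.cons (.leaf 1 [(2,1),(10,1)]) (.cons (.leaf 1 [(4,1),(1,1)]) (.cons (.keep [5,6,7,8,10,11] (.node (.cons (.leaf 1 [(2,1),(11,1)]) (.cons (.leaf 1 [(2,1)]) (.cons (.leaf 1 [(11,1),(2,1)]) (.cons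 (.leaf 1 [(9,1),(11,1)]) (.cons (.leaf 1 []) (.cons (.leaf 1 [(11,1),(0,1)]) .nil)))))))) (.cons (.keep [0,4,6,7,10,11] (.node (.cons (.leaf 1 [(2,1),(11,1)]) (.cons (.leaf 1 [(2,1)]) (.cons (.leaf 1 [(11,1),(2,1)]) (.cons (.leaf 1 [(6,1),(11,1),(7,1)]) (.cons (.leaf 1 []) (.cons (.leaf 1 [(11,1),(0,1)]) .nil)))))))) .nil)))))))) (.cons (.leaf 1 [(1,1)]) (.cons (.leaf 1 [(1,1)]) (.cons (.leaf 1 [(1,1)]) .nil)))))))) (.cons (.leaf 2 [(7,1),(1,1),(8,1)]) (.cons (.leaf 1 [(7,1)]) (.cons (.keep [0,1,7,8,9] (.node (.cons (.leaf 1 [(9,1),(6,1),(8,1)]) (.cons (.leaf 1 [(7,1),(3,1)]) (.cons (.keep [0,6,7,8,9,10] (.node (.cons (.leaf 2 [(2,1),(9,1)]) (.cons (.leaf 1 [(2,2),(9,1)]) (.cons (.leaf 1 [(8,1),(9,1),(2,1)]) (.cons (.leaf 1 [(4,1),(1,1)]) (.cons (.keep [5,6,7,9,10,11] (.node (.cons (.leaf 1 [(2,1),(10,1)])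 (.cons (.leaf 1 [(2,1)]) (.cons (.leaf 1 [(10,1),(2,1)]) (.cons (.leaf 1 [(8,1),(10,1)]) (.cons (.leaf 1 []) (.cons (.leaf 1 [(10,1),(0,1)]) .nil)))))))) (.cons (.keep [6,7,8,9,10,11] (.node (.cons (.leaf 1 [(2,1),(10,1)]) (.cons (.leaf 1 [(2,1)]) (.cons (.leaf 1 [(10,1),(2,1)]) (.cons (.leaf 1 [(7,1),(10,1)]) (.cons (.leaf 1 []) (.cons (.leaf 1 [(10,1),(0,1)]) .nil)))))))) .nil)))))))) (.cons (.leaf 1 [(1,1)]) (.cons (.leaf 1 [(1,1)]) (.cons (.leaf 1 [(1,1)]) .nil)))))))) .nil)))))))) (.cons (.leaf 1 [(4,1)]) (.cons (.leaf 1 []) (.cons (.leaf 1 [(4,1)]) .nil))))))))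

theorem e_5_22 : ESB (caseOf 4 5 22) := esb_of_ok (t := t_5_22) (by decide +kernel)

def t_5_23 : T := (.keep [0,1,2] (.node (.cons (.leaf 1 []) (.cons (.leaf 1 [(3,1)]) (.cons (.leaf 1 [(3,1)]) (.cons (.leaf 1 [(3,1)]) (.cons (.leaf 1 [(5,1)]) (.cons (.leaf 1 [(5,1)]) (.cons (.leaf 1 []) (.cons (.leaf 1 [(5,1)]) .nil))))))))))

theorem e_5_23 : ESB (caseOf 4 5 23) := esb_of_ok (t := t_5_23) (by decide +kernel)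

def t_5_25 : T := (.keep [0,1,2] (.node (.cons (.leaf 1 []) (.cons (.leaf 1 [(3,1)]) (.cons (.leaf 1 [(3,1)]) (.cons (.keep [1,4,5,6] (.node (.cons (.keep [2,4,5,6] (.node (.cons (.leaf 1 []) (.cons (.leaf 1 [(3,1)]) (.cons (.leaf 1 [(3,1)]) (.cons (.leaf 1 [(7,1)]) (.cons (.leaf 1 [(7,1),(3,1)]) (.cons (.leaf 1 [(7,1),(3,1)]) .nil)))))))) (.cons (.keep [2,3,5,8,9] (.node (.cons (.leaf 1 []) (.cons (.leaf 1 [(3,1)]) (.cons (.leaf 1 [(3,1)]) (.cons (.leaf 1 [(9,1)]) (.cons (.leaf 1 [(9,1),(3,1)]) (.cons (.leaf 1 [(9,1),(3,1)]) .nil)))))))) (.cons (.keep [0,2,3,8] (.node (.cons (.leaf 1 []) (.cons (.leaf 1 [(3,1)]) (.cons (.leaf 1 [(3,1)]) (.cons (.leaf 1 [(9,1)]) (.cons (.leaf 1 [(9,1),(3,1)]) (.cons (.leaf 1 [(9,1),(3,1)]) .nil)))))))) (.cons (.keep [1,4,5,7,9] (.node (.cons (.leaf 1 []) (.cons (.leaf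 1 [(3,1)]) (.cons (.leaf 1 [(3,1)]) (.cons (.leaf 1 [(7,1)]) (.cons (.leaf 1 [(7,1),(3,1)]) (.cons (.leaf 1 [(7,1),(3,1)]) .nil)))))))) (.cons (.keep [1,3,5,7,8,9] (.node (.cons (.leaf 1 []) (.cons (.leaf 1 [(3,1)]) (.cons (.leaf 1 [(3,1)]) (.cons (.leaf 1 [(10,1)]) (.cons (.leaf 1 [(10,1),(3,1)]) (.cons (.leaf 1 [(10,1),(3,1)]) .nil)))))))) (.cons (.keep [0,1,3,7,8] (.node (.cons (.leaf 1 []) (.cons (.leaf 1 [(3,1)]) (.cons (.leaf 1 [(3,1)]) (.cons (.leaf 1 [(10,1)]) (.cons (.leaf 1 [(10,1),(3,1)]) (.cons (.leaf 1 [(10,1),(3,1)]) .nil)))))))) .nil)))))))) (.cons (.keep [3,5,6,7,8] (.node (.cons (.keep [2,5,6,7,10] (.node (.cons (.leaf 1 [(8,1)]) (.cons (.leaf 1 [(8,1),(3,1)]) (.cons (.leaf 1 [(8,1),(3,1)]) (.cons (.leaf 1 [(9,1)]) (.cons (.leaf 1 [(9,1),(3,1)]) (.cons (.leaf 1 [(9,1),(3,1)]) .nil))))))))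 (.cons (.keep [2,3,5,7,10] (.node (.cons (.leaf 1 [(9,1),(7,1)]) (.cons (.leaf 1 [(9,1),(7,1),(3,1)]) (.cons (.leaf 1 [(9,1),(7,1),(3,1)]) (.cons (.leaf 1 [(9,1)]) (.cons (.leaf 1 [(9,1),(3,1)]) (.cons (.leaf 1 [(9,1),(3,1)]) .nil)))))))) (.cons (.keep [0,2,3,6,7] (.node (.cons (.leaf 1 [(9,1)]) (.cons (.leaf 1 [(9,1),(3,1)]) (.cons (.leaf 1 [(9,1),(3,1)]) (.cons (.leaf 1 [(10,1)]) (.cons (.leaf 1 [(10,1),(3,1)]) (.cons (.leaf 1 [(10,1),(3,1)]) .nil)))))))) (.cons (.keep [1,5,7,8,9] (.node (.cons (.leaf 1 [(6,1)]) (.cons (.leaf 1 [(6,1),(3,1)]) (.cons (.leaf 1 [(6,1),(3,1)]) (.cons (.leaf 1 [(8,1)]) (.cons (.leaf 1 [(8,1),(3,1)]) (.cons (.leaf 1 [(8,1),(3,1)]) .nil)))))))) (.cons (.keep [3,5,7,9,10] (.node (.cons (.leaf 1 [(8,1),(6,1)]) (.cons (.leaf 1 [(8,1),(6,1),(3,1)]) (.cons (.leaf 1 [(8,1),(6,1),(3,1)])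 (.cons (.leaf 1 [(8,1)]) (.cons (.leaf 1 [(8,1),(3,1)]) (.cons (.leaf 1 [(8,1),(3,1)]) .nil)))))))) (.cons (.keep [0,1,3,7,9] (.node (.cons (.leaf 1 [(7,1)]) (.cons (.leaf 1 [(7,1),(3,1)]) (.cons (.leaf 1 [(7,1),(3,1)]) (.cons (.leaf 1 [(9,1)]) (.cons (.leaf 1 [(9,1),(3,1)]) (.cons (.leaf 1 [(9,1),(3,1)]) .nil)))))))) .nil)))))))) (.cons (.keep [1,3,4,6,7] (.node (.cons (.keep [4,5,7,8,9] (.node (.cons (.leaf 1 [(8,1)]) (.cons (.leaf 1 [(8,1),(3,1)]) (.cons (.leaf 1 [(8,1),(3,1)]) (.cons (.leaf 1 []) (.cons (.leaf 1 [(3,1)]) (.cons (.leaf 1 [(3,1)]) .nil)))))))) (.cons (.keep [3,5,6,8,10] (.node (.cons (.leaf 1 [(6,1)]) (.cons (.leaf 1 [(6,1),(3,1)]) (.cons (.leaf 1 [(6,1),(3,1)]) (.cons (.leaf 1 []) (.cons (.leaf 1 [(3,1)]) (.cons (.leaf 1 [(3,1)]) .nil)))))))) (.cons (.keep [0,4,7,8,10] (.node (.cons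 (.leaf 1 [(8,1)]) (.cons (.leaf 1 [(8,1),(3,1)]) (.cons (.leaf 1 [(8,1),(3,1)]) (.cons (.leaf 1 []) (.cons (.leaf 1 [(3,1)]) (.cons (.leaf 1 [(3,1)]) .nil)))))))) (.cons (.keep [1,4,5,8,9] (.node (.cons (.leaf 1 [(6,1),(9,1)]) (.cons (.leaf 1 [(6,1),(9,1),(3,1)]) (.cons (.leaf 1 [(6,1),(9,1),(3,1)]) (.cons (.leaf 1 []) (.cons (.leaf 1 [(3,1)]) (.cons (.leaf 1 [(3,1)]) .nil)))))))) (.cons (.keep [1,5,8,9,10] (.node (.cons (.leaf 1 [(6,1),(8,1)]) (.cons (.leaf 1 [(7,1),(3,2)]) (.cons (.leaf 1 [(6,1),(8,1),(3,1)]) (.cons (.leaf 1 []) (.cons (.leaf 1 [(3,1)]) (.cons (.leaf 1 [(3,1)]) .nil)))))))) (.cons (.keep [0,1,4,8,10] (.node (.cons (.leaf 1 [(7,1),(9,1)]) (.cons (.leaf 1 [(7,1),(9,1),(3,1)]) (.cons (.leaf 1 [(7,1),(9,1),(3,1)]) (.cons (.leaf 1 []) (.cons (.leaf 1 [(3,1)]) (.cons (.leaf 1 [(3,1)]) .nil))))))))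 .nil)))))))) .nil))))))))

theorem e_5_25 : ESB (caseOf 4 5 25) := esb_of_ok (t := t_5_25) (by decide +kernel)

def t_5_27 : T := (.keep [0,1,2] (.node (.cons (.leaf 1 []) (.cons (.leaf 1 [(3,1)]) (.cons (.leaf 1 [(3,1)]) (.cons (.leaf 1 [(3,1)]) (.cons (.keep [1,4,5,6] (.node (.cons (.leaf 1 [(4,1)]) (.cons (.keep [0,2,3,10] (.node (.cons (.leaf 1 []) (.cons (.leaf 1 [(3,1)]) (.cons (.leaf 1 [(3,1)]) (.cons (.leaf 1 [(3,1)]) (.cons (.leaf 1 [(10,1)]) (.cons (.leaf 1 [(3,1),(10,1)]) (.cons (.leaf 1 [(10,1),(3,1)]) (.cons (.leaf 1 [(10,1),(3,1)]) .nil)))))))))) (.cons (.leaf 1 [(10,1),(4,1)]) (.cons (.keep [0,2,4,7,10] (.node (.cons (.leaf 1 []) (.cons (.leaf 1 [(3,1)]) (.cons (.leaf 1 [(3,1)]) (.cons (.leaf 1 [(3,1)]) (.cons (.leaf 1 [(5,1),(9,1)]) (.cons (.leaf 1 [(5,1),(8,1),(9,1)]) (.cons (.leaf 2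 [(11,1),(9,1)]) (.cons (.leaf 2 [(11,1),(9,1),(5,1)]) .nil)))))))))) (.cons (.leaf 1 [(4,1)]) (.cons (.keep [0,1,8,9,10] (.node (.cons (.leaf 1 []) (.cons (.leaf 1 [(3,1)]) (.cons (.leaf 1 [(3,1)]) (.cons (.leaf 1 [(3,1)]) (.cons (.leaf 1 [(11,1)]) (.cons (.leaf 1 [(3,1),(11,1)]) (.cons (.leaf 1 [(11,1),(3,1)]) (.cons (.leaf 1 [(11,1),(3,1)]) .nil)))))))))) (.cons (.leaf 1 [(10,1),(4,1)]) (.cons (.keep [0,1,4,8,9,10] (.node (.cons (.leaf 1 []) (.cons (.leaf 1 [(3,1)]) (.cons (.leaf 1 [(3,1)]) (.cons (.leaf 1 [(3,1)]) (.cons (.leaf 1 [(5,1),(9,1)]) (.cons (.leaf 1 [(5,1),(11,1),(9,1)]) (.cons (.leaf 2 [(12,1),(9,1)]) (.cons (.leaf 2 [(12,1),(9,1),(5,1)]) .nil)))))))))) .nil)))))))))) (.cons (.keep [3,5,6,7,8] (.node (.cons (.leaf 1 [(4,1)]) (.cons (.leaf 1 [(7,2)]) (.cons (.leaf 1 [(4,1),(7,2)]) (.cons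 (.leaf 1 [(4,1),(7,2)]) (.cons (.leaf 1 [(4,1),(1,1)]) (.cons (.leaf 1 [(8,1),(7,1)]) (.cons (.leaf 1 [(4,1),(7,1),(8,1)]) (.cons (.leaf 1 [(4,1),(7,1),(8,1)]) .nil)))))))))) (.cons (.keep [3,4,6,8,9] (.node (.cons (.leaf 1 [(4,1),(7,1)]) (.cons (.keep [2,6,7,9,11] (.node (.cons (.leaf 1 [(9,1)]) (.cons (.leaf 1 [(3,2)]) (.cons (.leaf 1 [(9,1),(3,1)]) (.cons (.leaf 1 [(9,1),(3,1)]) (.cons (.leaf 1 [(10,1)]) (.cons (.leaf 1 [(3,1),(10,1)]) (.cons (.leaf 1 [(10,1),(3,1)]) (.cons (.leaf 1 [(10,1),(3,1)]) .nil)))))))))) (.cons (.leaf 1 [(9,1),(4,1)]) (.cons (.keep [0,4,7,9,11] (.node (.cons (.leaf 1 [(9,1)]) (.cons (.leaf 1 [(3,2)]) (.cons (.leaf 1 [(9,1),(3,1)]) (.cons (.leaf 1 [(9,1),(3,1)]) (.cons (.leaf 1 [(9,1),(5,1),(8,1)]) (.cons (.leaf 1 [(5,1),(8,1)]) (.cons (.leaf 2 [(9,1),(10,1),(8,1)]) (.cons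 (.leaf 2 [(9,1),(10,1),(8,1),(5,1)]) .nil)))))))))) (.cons (.leaf 1 [(4,1),(1,1)]) (.cons (.keep [1,6,9,10,11] (.node (.cons (.leaf 1 [(7,1)]) (.cons (.leaf 1 [(3,2)]) (.cons (.leaf 1 [(7,1),(3,1)]) (.cons (.leaf 1 [(7,1),(3,1)]) (.cons (.leaf 1 [(9,1)]) (.cons (.leaf 1 [(3,1),(9,1)]) (.cons (.leaf 1 [(9,1),(3,1)]) (.cons (.leaf 1 [(9,1),(3,1)]) .nil)))))))))) (.cons (.leaf 1 [(9,1),(4,1)]) (.cons (.keep [0,1,4,9,11] (.node (.cons (.leaf 1 [(8,1)]) (.cons (.leaf 1 [(3,2)]) (.cons (.leaf 1 [(8,1),(3,1)]) (.cons (.leaf 1 [(8,1),(3,1)]) (.cons (.leaf 1 [(8,1),(5,1),(9,1)]) (.cons (.leaf 1 [(5,1),(9,1)]) (.cons (.leaf 2 [(8,1),(10,1),(9,1)]) (.cons (.leaf 2 [(8,1),(10,1),(9,1),(5,1)]) .nil)))))))))) .nil)))))))))) (.cons (.keep [1,3,4,5,8] (.node (.cons (.leaf 1 [(4,1),(8,1)]) (.cons (.keep [6,8,9,10,11]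 (.node (.cons (.leaf 1 [(8,1)]) (.cons (.leaf 1 [(3,1),(8,1)]) (.cons (.leaf 1 [(8,1),(3,1)]) (.cons (.leaf 1 [(8,1),(3,1)]) (.cons (.leaf 1 []) (.cons (.leaf 1 [(3,1)]) (.cons (.leaf 1 [(3,1)]) (.cons (.leaf 1 [(3,1)]) .nil)))))))))) (.cons (.leaf 1 [(4,1)]) (.cons (.keep [0,4,8,9,10] (.node (.cons (.leaf 1 [(9,1)]) (.cons (.leaf 1 [(3,1),(9,1)]) (.cons (.leaf 1 [(9,1),(3,1)]) (.cons (.leaf 1 [(9,1),(3,1)]) (.cons (.leaf 1 []) (.cons (.leaf 1 [(3,1)]) (.cons (.leaf 1 [(3,1)]) (.cons (.leaf 1 [(3,1)]) .nil)))))))))) (.cons (.leaf 1 [(4,1),(8,1)]) (.cons (.keep [1,6,9,10,11] (.node (.cons (.leaf 1 [(7,1),(9,1)]) (.cons (.leaf 1 [(3,3),(9,1)]) (.cons (.leaf 1 [(7,1),(9,1),(3,2)]) (.cons (.leaf 1 [(7,1),(9,1),(3,2)]) (.cons (.leaf 1 []) (.cons (.leaf 1 [(3,1)]) (.cons (.leaf 1 [(3,1)]) (.cons (.leaf 1 [(3,1)])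 .nil)))))))))) (.cons (.leaf 1 [(4,1)]) (.cons (.keep [0,1,4,9,10] (.node (.cons (.leaf 1 [(8,1),(5,1),(10,1)]) (.cons (.leaf 1 [(3,1),(5,1),(10,1)]) (.cons (.leaf 1 [(8,1),(10,1)]) (.cons (.leaf 1 [(8,1),(10,1),(5,1)]) (.cons (.leaf 1 []) (.cons (.leaf 1 [(3,1)]) (.cons (.leaf 1 [(3,1)]) (.cons (.leaf 1 [(3,1)]) .nil)))))))))) .nil)))))))))) .nil))))))))))

theorem e_5_27 : ESB (caseOf 4 5 27) := esb_of_ok (t := t_5_27) (by decide +kernel)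

def ks : List (ℕ × ℕ) := [(1, 17), (1, 19), (1, 21), (1, 23), (1, 25), (1, 27), (1, 29), (1, 31),
  (2, 17), (2, 18), (2, 19), (2, 21), (2, 22), (2, 23), (2, 25), (2, 26), (2, 27), (2, 29), (2,
  30), (2, 31), (3, 17), (3, 18), (3, 19), (3, 21), (3, 22), (3, 23), (3, 25), (3, 26), (3, 27),
  (3, 29), (3, 30), (3, 31), (4, 17), (4, 19), (4, 20), (4, 21), (4, 22), (4, 23), (4, 25), (4,
  27), (4, 28), (4, 29), (4, 30), (4, 31), (5, 17), (5, 19), (5, 20), (5, 21), (5, 22), (5, 23),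
  (5, 25), (5, 27)]

theorem ks_ok : ∀ p ∈ ks, ESB (caseOf 4 p.1 p.2) := ks_cons e_1_17 <| ks_cons e_1_19 <| ks_cons
  e_1_21 <| ks_cons e_1_23 <| ks_cons e_1_25 <| ks_cons e_1_27 <| ks_cons e_1_29 <| ks_cons e_1_31
  <| ks_cons e_2_17 <| ks_cons e_2_18 <| ks_cons e_2_19 <| ks_cons e_2_21 <| ks_cons e_2_22 <|
  ks_cons e_2_23 <| ks_cons e_2_25 <| ks_cons e_2_26 <| ks_cons e_2_27 <| ks_cons e_2_29 <|
  ks_cons e_2_30 <| ks_cons e_2_31 <| ks_cons e_3_17 <| ks_cons e_3_18 <| ks_cons e_3_19 <|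
  ks_cons e_3_21 <| ks_cons e_3_22 <| ks_cons e_3_23 <| ks_cons e_3_25 <| ks_cons e_3_26 <|
  ks_cons e_3_27 <| ks_cons e_3_29 <| ks_cons e_3_30 <| ks_cons e_3_31 <| ks_cons e_4_17 <|
  ks_cons e_4_19 <| ks_cons e_4_20 <| ks_cons e_4_21 <| ks_cons e_4_22 <| ks_cons e_4_23 <|
  ks_cons e_4_25 <| ks_cons e_4_27 <| ks_cons e_4_28 <| ks_cons e_4_29 <| ks_cons e_4_30 <|
  ks_cons e_4_31 <| ks_cons e_5_17 <| ks_cons e_5_19 <| ks_cons e_5_20 <| ks_cons e_5_21 <|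
  ks_cons e_5_22 <| ks_cons e_5_23 <| ks_cons e_5_25 <| ks_cons e_5_27 <| ks_nil

end Pool.Agent.H4.RD4.E00
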