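import Pool.Agent.H4.RD4.Chk

/-! # Certificates for special cases of order four -/

set_option maxRecDepth 20000

namespace Pool.Agent.H4.RD4.E16

open Pool.Agent.H50.Rdb
open Pool.Agent.H81.RDE (ESB caseOf)

def z_22_16_0 : F := ⟨1, 0, -1, -1, 2⟩

def h_22_16_0 : List F := [⟨1, -1, 0, 0, 0⟩, ⟨1, 0, 0, -1, 0⟩, ⟨0, 0, 0, -1, 1⟩, ⟨0, 0, -1, 0, 1⟩]

def t_22_16_0 : T := (.node (.cons (.keep [2,3,5,7,8] (.node (.cons (.keep [2,3,7,9] (.node (.cons (.keep [2,3,5,6,8] (.node (.cons (.keep [2,3,5,7,9] (.node (.cons (.leaf 1 [(2,1),(9,1),(6,2),(3,1)]) (.cons (.keep [3,5,7,8,9] (.node (.cons (.leaf 1 [(5,2),(7,1),(3,1)]) (.cons (.leaf 1 [(5,2),(3,1),(7,1)]) (.cons (.leaf 1 [(5,2),(7,1)]) .nil))))) (.cons (.keep [0,2,6,8,9] (.node (.cons (.leaf 1 [(7,1),(3,1)]) (.cons (.leaf 1 [(3,1),(7,1)]) (.cons (.leaf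 1 [(7,1)]) .nil))))) .nil))))) (.cons (.keep [1,3,7,8,9] (.node (.cons (.leaf 1 [(5,1),(6,1),(3,2)]) (.cons (.leaf 1 [(5,1),(3,2),(6,1)]) (.cons (.leaf 1 [(5,1),(6,1)]) .nil))))) (.cons (.keep [0,1,2,5,6,8,9] (.node (.cons (.leaf 1 [(2,1),(11,1),(3,1)]) (.cons (.keep [3,5,6,8,9,11] (.node (.cons (.leaf 1 [(5,1),(3,1)]) (.cons (.leaf 1 [(5,1),(3,1)]) (.cons (.leaf 1 [(5,1)]) .nil))))) (.cons (.keep [0,2,5,6,9,11] (.node (.cons (.leaf 1 [(3,1)]) (.cons (.leaf 1 [(3,1)]) (.cons (.leaf 1 []) .nil))))) .nil))))) .nil))))) (.cons (.keep [1,3,6,7,8] (.node (.cons (.keep [3,5,6,7,8,9] (.node (.cons (.leaf 1 [(2,1),(10,1),(5,1),(3,2)]) (.cons (.keep [5,6,7,8,9,10] (.node (.cons (.leaf 1 [(6,1),(5,2),(3,1)]) (.cons (.leaf 1 [(3,1),(6,1),(5,2)]) (.cons (.leaf 1 [(6,1),(5,2)]) .nil))))) (.cons (.keep [0,2,5,6,7,10]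 (.node (.cons (.leaf 1 [(7,1),(3,1)]) (.cons (.leaf 1 [(3,1),(7,1)]) (.cons (.leaf 1 [(7,1)]) .nil))))) .nil))))) (.cons (.leaf 1 [(5,2),(1,1),(3,3)]) (.cons (.keep [0,1,5,6,8,9] (.node (.cons (.leaf 1 [(2,1),(10,1),(3,2)]) (.cons (.keep [3,5,6,8,9,10] (.node (.cons (.leaf 1 [(5,1),(3,1)]) (.cons (.leaf 1 [(5,1),(3,1)]) (.cons (.leaf 1 [(5,1)]) .nil))))) (.cons (.keep [0,2,5,6,8,10] (.node (.cons (.leaf 1 [(3,1)]) (.cons (.leaf 1 [(3,1)]) (.cons (.leaf 1 []) .nil))))) .nil))))) .nil))))) (.cons (.keep [0,1,2,5,6,7] (.node (.cons (.keep [2,3,5,6,8,10] (.node (.cons (.leaf 1 [(2,1),(8,1),(6,2),(3,1)]) (.cons (.keep [3,6,7,8,9,10] (.node (.cons (.leaf 1 [(5,1),(6,1),(3,1)]) (.cons (.leaf 1 [(5,1),(3,1),(6,1)]) (.cons (.leaf 1 [(5,1),(6,1)]) .nil))))) (.cons (.keep [0,2,6,8,9] (.node (.cons (.leaf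 1 [(7,1),(3,1)]) (.cons (.leaf 1 [(3,1),(7,1)]) (.cons (.leaf 1 [(7,1)]) .nil))))) .nil))))) (.cons (.keep [1,3,5,6,8,9] (.node (.cons (.leaf 1 [(5,1),(6,1),(3,2)]) (.cons (.leaf 1 [(5,1),(3,2),(6,1)]) (.cons (.leaf 1 [(5,1),(6,1)]) .nil))))) (.cons (.keep [0,1,2,5,6,9,10] (.node (.cons (.leaf 1 [(2,1),(9,1),(3,1)]) (.cons (.keep [3,5,6,8,9,11] (.node (.cons (.leaf 1 [(5,1),(3,1)]) (.cons (.leaf 1 [(5,1),(3,1)]) (.cons (.leaf 1 [(5,1)]) .nil))))) (.cons (.keep [0,2,5,6,9] (.node (.cons (.leaf 1 [(3,1)]) (.cons (.leaf 1 [(3,1)]) (.cons (.leaf 1 []) .nil))))) .nil))))) .nil))))) .nil))))) (.cons (.keep [1,3,7,8] (.node (.cons (.keep [3,5,6,7,8] (.node (.cons (.keep [2,5,6,8,9] (.node (.cons (.leaf 1 [(3,1),(2,1),(7,1),(6,1)]) (.cons (.keep [3,5,6,7,8,9] (.node (.cons (.leaf 1 [(3,1),(5,1),(7,1)])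 (.cons (.leaf 1 [(5,1),(3,1),(7,1)]) (.cons (.leaf 1 [(5,1),(7,1)]) .nil))))) (.cons (.keep [0,2,6,7,9] (.node (.cons (.leaf 1 [(3,1),(7,1)]) (.cons (.leaf 1 [(7,1),(3,1)]) (.cons (.leaf 1 [(7,1)]) .nil))))) .nil))))) (.cons (.keep [1,5,6,7,9] (.node (.cons (.leaf 1 [(5,1),(6,1),(3,2)]) (.cons (.leaf 1 [(5,1),(3,2),(6,1)]) (.cons (.leaf 1 [(5,1),(6,1)]) .nil))))) (.cons (.keep [0,1,2,5,6,7,8] (.node (.cons (.leaf 1 [(3,1),(2,1)]) (.cons (.keep [3,5,6,8,9,11] (.node (.cons (.leaf 1 [(3,1),(5,1),(8,1)]) (.cons (.leaf 1 [(5,1),(3,1),(8,1)]) (.cons (.leaf 1 [(5,1),(8,1)]) .nil))))) (.cons (.keep [0,2,5,6,8,9] (.node (.cons (.leaf 1 [(3,1),(9,1)]) (.cons (.leaf 1 [(9,1),(3,1)]) (.cons (.leaf 1 [(9,1)]) .nil))))) .nil))))) .nil))))) (.cons (.keep [1,3,5,6,7] (.node (.cons (.keep [5,6,7,8,9] (.node (.cons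 (.leaf 1 [(3,2),(2,1)]) (.cons (.keep [5,6,7,8,9] (.node (.cons (.leaf 1 [(2,1),(5,1),(6,2),(3,1)]) (.cons (.leaf 1 [(5,1),(3,1),(6,2),(7,1)]) (.cons (.leaf 1 [(7,1),(5,1),(6,2)]) .nil))))) (.cons (.keep [0,2,5,6,7] (.node (.cons (.leaf 1 [(3,1),(8,1)]) (.cons (.leaf 1 [(8,1),(3,1)]) (.cons (.leaf 1 [(8,1)]) .nil))))) .nil))))) (.cons (.leaf 1 [(3,2),(1,1),(6,1),(5,2)]) (.cons (.keep [0,1,5,6,7,9] (.node (.cons (.leaf 1 [(3,2),(2,1)]) (.cons (.keep [3,5,6,8,9,10] (.node (.cons (.leaf 1 [(5,1),(8,1),(3,1)]) (.cons (.leaf 1 [(5,1),(3,1),(8,1)]) (.cons (.leaf 1 [(5,1),(8,1)]) .nil))))) (.cons (.keep [0,2,5,6,8,9] (.node (.cons (.leaf 1 [(3,1),(9,1)]) (.cons (.leaf 1 [(9,1),(3,1)]) (.cons (.leaf 1 [(9,1)]) .nil))))) .nil))))) .nil))))) (.cons (.keep [0,1,5,6,7,8] (.node (.cons (.keep [2,3,5,6,9,10]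 (.node (.cons (.leaf 1 [(6,1),(8,1),(2,1),(3,1)]) (.cons (.keep [3,6,7,8,9,10] (.node (.cons (.leaf 1 [(5,1),(3,1)]) (.cons (.leaf 1 [(5,1),(3,1)]) (.cons (.leaf 1 [(5,1)]) .nil))))) (.cons (.keep [0,2,6,8,10] (.node (.cons (.leaf 1 [(3,1)]) (.cons (.leaf 1 [(3,1)]) (.cons (.leaf 1 []) .nil))))) .nil))))) (.cons (.keep [1,3,5,6,8,10] (.node (.cons (.leaf 1 [(5,1),(3,2)]) (.cons (.leaf 1 [(5,1),(3,2)]) (.cons (.leaf 1 [(5,1)]) .nil))))) (.cons (.keep [0,1,2,5,6,8,9] (.node (.cons (.leaf 1 [(2,1),(9,1),(3,1)]) (.cons (.keep [3,5,6,8,9,11] (.node (.cons (.leaf 1 [(5,1),(3,1)]) (.cons (.leaf 1 [(5,1),(3,1)]) (.cons (.leaf 1 [(5,1)]) .nil))))) (.cons (.keep [0,2,5,6,9] (.node (.cons (.leaf 1 [(3,1)]) (.cons (.leaf 1 [(3,1)]) (.cons (.leaf 1 []) .nil))))) .nil))))) .nil))))) .nil))))) (.cons (.keep [0,1,2,5,6,8]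 (.node (.cons (.keep [2,3,5,6,8,10] (.node (.cons (.leaf 1 [(2,1),(8,1),(6,2),(3,1)]) (.cons (.keep [3,6,7,8,9,10] (.node (.cons (.leaf 1 [(5,1),(6,1),(3,1)]) (.cons (.leaf 1 [(5,1),(3,1),(6,1)]) (.cons (.leaf 1 [(5,1),(6,1)]) .nil))))) (.cons (.keep [0,2,6,8,9] (.node (.cons (.leaf 1 [(7,1),(3,1)]) (.cons (.leaf 1 [(3,1),(7,1)]) (.cons (.leaf 1 [(7,1)]) .nil))))) .nil))))) (.cons (.keep [1,3,5,6,8,9] (.node (.cons (.leaf 1 [(5,1),(6,1),(3,2)]) (.cons (.leaf 1 [(5,1),(3,2),(6,1)]) (.cons (.leaf 1 [(5,1),(6,1)]) .nil))))) (.cons (.keep [0,1,2,5,6,9,10] (.node (.cons (.leaf 1 [(2,1),(9,1),(3,1)]) (.cons (.keep [3,5,6,8,9,11] (.node (.cons (.leaf 1 [(5,1),(3,1)]) (.cons (.leaf 1 [(5,1),(3,1)]) (.cons (.leaf 1 [(5,1)]) .nil))))) (.cons (.keep [0,2,5,6,9] (.node (.cons (.leaf 1 [(3,1)]) (.cons (.leaf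 1 [(3,1)]) (.cons (.leaf 1 []) .nil))))) .nil))))) .nil))))) .nil))))) (.cons (.keep [1,3,7,8] (.node (.cons (.keep [3,5,6,7,8] (.node (.cons (.keep [2,5,6,8,9] (.node (.cons (.leaf 1 [(2,1),(7,1),(3,1)]) (.cons (.keep [3,5,6,7,8,9] (.node (.cons (.leaf 1 [(5,1),(3,1)]) (.cons (.leaf 1 [(5,1),(3,1)]) (.cons (.leaf 1 [(5,1)]) .nil))))) (.cons (.keep [0,2,6,7,9] (.node (.cons (.leaf 1 [(3,1)]) (.cons (.leaf 1 [(3,1)]) (.cons (.leaf 1 []) .nil))))) .nil))))) (.cons (.keep [1,5,6,7,9] (.node (.cons (.leaf 1 [(5,1),(3,2)]) (.cons (.leaf 1 [(5,1),(3,2)]) (.cons (.leaf 1 [(5,1)]) .nil))))) (.cons (.keep [0,1,2,5,6,7,8] (.node (.cons (.leaf 1 [(2,1),(9,1),(3,1)]) (.cons (.keep [3,5,6,8,9,11] (.node (.cons (.leaf 1 [(5,1),(3,1)]) (.cons (.leaf 1 [(5,1),(3,1)]) (.cons (.leaf 1 [(5,1)]) .nil))))) (.cons (.keep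 [0,2,5,6,8,9] (.node (.cons (.leaf 1 [(3,1)]) (.cons (.leaf 1 [(3,1)]) (.cons (.leaf 1 []) .nil))))) .nil))))) .nil))))) (.cons (.keep [1,3,5,6,7] (.node (.cons (.keep [5,6,7,8,9] (.node (.cons (.leaf 1 [(2,1),(7,1),(5,1),(3,1)]) (.cons (.keep [5,6,7,8,9] (.node (.cons (.leaf 1 [(2,1),(5,1),(6,1),(3,1)]) (.cons (.leaf 1 [(5,1),(3,1),(6,1),(7,1)]) (.cons (.leaf 1 [(7,1),(5,1),(6,1)]) .nil))))) (.cons (.keep [0,2,5,6,7] (.node (.cons (.leaf 1 [(3,1)]) (.cons (.leaf 1 [(3,1)]) (.cons (.leaf 1 []) .nil))))) .nil))))) (.cons (.leaf 1 [(3,2),(1,1),(5,2)]) (.cons (.keep [0,1,5,6,7,9] (.node (.cons (.leaf 1 [(2,1),(9,1),(3,2)]) (.cons (.keep [3,5,6,8,9,10] (.node (.cons (.leaf 1 [(5,1),(3,1)]) (.cons (.leaf 1 [(5,1),(3,1)]) (.cons (.leaf 1 [(5,1)]) .nil))))) (.cons (.keep [0,2,5,6,8,9] (.node (.cons (.leaf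 1 [(3,1)]) (.cons (.leaf 1 [(3,1)]) (.cons (.leaf 1 []) .nil))))) .nil))))) .nil))))) (.cons (.keep [0,1,5,6,7,8] (.node (.cons (.keep [2,3,5,6,9,10] (.node (.cons (.leaf 1 [(6,1),(8,1),(2,1),(3,1)]) (.cons (.keep [3,6,7,8,9,10] (.node (.cons (.leaf 1 [(5,1),(3,1)]) (.cons (.leaf 1 [(5,1),(3,1)]) (.cons (.leaf 1 [(5,1)]) .nil))))) (.cons (.keep [0,2,6,8,10] (.node (.cons (.leaf 1 [(3,1)]) (.cons (.leaf 1 [(3,1)]) (.cons (.leaf 1 []) .nil))))) .nil))))) (.cons (.keep [1,3,5,6,8,10] (.node (.cons (.leaf 1 [(5,1),(3,2)]) (.cons (.leaf 1 [(5,1),(3,2)]) (.cons (.leaf 1 [(5,1)]) .nil))))) (.cons (.keep [0,1,2,5,6,8,9] (.node (.cons (.leaf 1 [(2,1),(9,1),(3,1)]) (.cons (.keep [3,5,6,8,9,11] (.node (.cons (.leaf 1 [(5,1),(3,1)]) (.cons (.leaf 1 [(5,1),(3,1)]) (.cons (.leaf 1 [(5,1)]) .nil))))) (.cons (.keep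 [0,2,5,6,9] (.node (.cons (.leaf 1 [(3,1)]) (.cons (.leaf 1 [(3,1)]) (.cons (.leaf 1 []) .nil))))) .nil))))) .nil))))) .nil))))) (.cons (.keep [0,1,2,5,6,8] (.node (.cons (.keep [2,3,5,6,8,10] (.node (.cons (.leaf 1 [(6,1),(8,1),(2,1),(3,1)]) (.cons (.keep [3,6,7,8,9,10] (.node (.cons (.leaf 1 [(5,1),(3,1)]) (.cons (.leaf 1 [(5,1),(3,1)]) (.cons (.leaf 1 [(5,1)]) .nil))))) (.cons (.keep [0,2,6,8,9] (.node (.cons (.leaf 1 [(3,1)]) (.cons (.leaf 1 [(3,1)]) (.cons (.leaf 1 []) .nil))))) .nil))))) (.cons (.keep [1,3,5,6,8,9] (.node (.cons (.leaf 1 [(5,1),(3,2)]) (.cons (.leaf 1 [(5,1),(3,2)]) (.cons (.leaf 1 [(5,1)]) .nil))))) (.cons (.keep [0,1,2,5,6,9,10] (.node (.cons (.leaf 1 [(2,1),(9,1),(3,1)]) (.cons (.keep [3,5,6,8,9,11] (.node (.cons (.leaf 1 [(5,1),(3,1)]) (.cons (.leaf 1 [(5,1),(3,1)]) (.cons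 (.leaf 1 [(5,1)]) .nil))))) (.cons (.keep [0,2,5,6,9] (.node (.cons (.leaf 1 [(3,1)]) (.cons (.leaf 1 [(3,1)]) (.cons (.leaf 1 []) .nil))))) .nil))))) .nil))))) .nil))))

theorem c_22_16_0 : Concl 22 16 z_22_16_0 h_22_16_0 .nd := piece _ hP_nil t_22_16_0 _ _ (by
  decide +kernel)

def z_22_16_1 : F := ⟨1, 0, -1, 0, 1⟩

def h_22_16_1 : List F := [⟨1, -1, 0, 0, 0⟩, ⟨1, 0, 0, -1, 0⟩, ⟨0, 0, 0, 1, 1⟩, ⟨0, 0, -1, 0, 1⟩]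

def t_22_16_1 : T := (.node (.cons (.keep [2,5,6,7,8] (.node (.cons (.keep [2,5,6,8,9] (.node (.cons (.keep [5,6,7,8,9] (.node (.cons (.keep [2,3,5,7,9] (.node (.cons (.leaf 1 [(6,1),(9,1),(2,1),(3,1)]) (.cons (.keep [3,5,6,7,8,9] (.node (.cons (.leaf 1 [(5,1),(3,1)]) (.cons (.leaf 1 [(5,1),(3,1)]) (.cons (.leaf 1 [(5,1)]) .nil))))) (.cons (.keep [0,2,6,7,9] (.node (.cons (.leaf 1 [(3,1)]) (.cons (.leaf 1 [(3,1)]) (.cons (.leaf 1 []) .nil))))) .nil))))) (.cons (.keep [1,3,5,6,9] (.node (.cons (.leaf 1 [(5,1),(3,2)]) (.cons (.leaf 1 [(5,1),(3,2)]) (.cons (.leaf 1 [(5,1)]) .nil))))) (.cons (.keep [0,1,2,5,6,7,9] (.node (.cons (.leaf 1 [(2,1),(11,1),(3,1)]) (.cons (.keep [3,5,6,8,10,11] (.node (.cons (.leaf 1 [(5,1),(3,1)]) (.cons (.leaf 1 [(5,1),(3,1)]) (.cons (.leaf 1 [(5,1)]) .nil))))) (.cons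 (.keep [0,2,5,6,8,11] (.node (.cons (.leaf 1 [(3,1)]) (.cons (.leaf 1 [(3,1)]) (.cons (.leaf 1 []) .nil))))) .nil))))) .nil))))) (.cons (.keep [1,5,6,7,8,9] (.node (.cons (.keep [3,5,6,7,8,10] (.node (.cons (.leaf 1 [(2,1),(10,1),(3,2)]) (.cons (.keep [5,6,7,8,9,10] (.node (.cons (.leaf 1 [(5,1),(6,1),(3,1)]) (.cons (.leaf 1 [(3,1),(6,1),(5,1)]) (.cons (.leaf 1 [(5,1),(6,1)]) .nil))))) (.cons (.keep [0,2,5,7,10] (.node (.cons (.leaf 1 [(3,1)]) (.cons (.leaf 1 [(3,1)]) (.cons (.leaf 1 []) .nil))))) .nil))))) (.cons (.leaf 1 [(3,2),(1,1),(5,2)]) (.cons (.keep [0,1,5,6,8,10] (.node (.cons (.leaf 1 [(2,1),(10,1),(3,2)]) (.cons (.keep [3,5,6,8,9,10] (.node (.cons (.leaf 1 [(5,1),(3,1)]) (.cons (.leaf 1 [(5,1),(3,1)]) (.cons (.leaf 1 [(5,1)]) .nil))))) (.cons (.keep [0,2,5,6,8,10] (.node (.cons (.leaf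 1 [(3,1)]) (.cons (.leaf 1 [(3,1)]) (.cons (.leaf 1 []) .nil))))) .nil))))) .nil))))) (.cons (.keep [0,1,5,6,7,8] (.node (.cons (.keep [2,3,5,6,7,9] (.node (.cons (.leaf 1 [(6,1),(8,1),(2,1),(3,1)]) (.cons (.keep [3,6,7,8,9,10] (.node (.cons (.leaf 1 [(5,1),(3,1)]) (.cons (.leaf 1 [(5,1),(3,1)]) (.cons (.leaf 1 [(5,1)]) .nil))))) (.cons (.keep [0,2,6,8,9] (.node (.cons (.leaf 1 [(3,1)]) (.cons (.leaf 1 [(3,1)]) (.cons (.leaf 1 []) .nil))))) .nil))))) (.cons (.keep [1,3,5,6,7,8] (.node (.cons (.leaf 1 [(5,1),(3,2)]) (.cons (.leaf 1 [(5,1),(3,2)]) (.cons (.leaf 1 [(5,1)]) .nil))))) (.cons (.keep [0,1,2,5,6,8,9] (.node (.cons (.leaf 1 [(2,1),(9,1),(3,1)]) (.cons (.keep [3,5,6,8,9,11] (.node (.cons (.leaf 1 [(5,1),(3,1)]) (.cons (.leaf 1 [(5,1),(3,1)]) (.cons (.leaf 1 [(5,1)]) .nil))))) (.cons (.keep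 [0,2,5,6,9] (.node (.cons (.leaf 1 [(3,1)]) (.cons (.leaf 1 [(3,1)]) (.cons (.leaf 1 []) .nil))))) .nil))))) .nil))))) .nil))))) (.cons (.keep [3,6,7,8,9] (.node (.cons (.keep [0,3,5,6,8,9] (.node (.cons (.keep [2,3,6,8,10] (.node (.cons (.leaf 1 [(3,1),(2,1)]) (.cons (.keep [3,5,6,7,8,9] (.node (.cons (.keep [0,3,6,7,8,10] (.node (.cons (.leaf 1 [(6,1),(2,1),(5,1),(8,1)]) (.cons (.keep [5,6,7,8,9,10] (.node (.cons (.leaf 1 [(6,2),(0,1),(9,1)]) (.cons (.leaf 1 [(6,2),(0,1),(1,1),(9,1)]) (.cons (.leaf 1 [(6,1),(9,1)]) .nil))))) (.cons (.leaf 1 [(7,1),(6,2)]) .nil))))) (.cons (.leaf 1 [(7,1),(3,1),(1,1)]) (.cons (.keep [0,1,5,7,8,10] (.node (.cons (.leaf 1 [(2,1),(8,1),(6,1),(5,1)]) (.cons (.keep [5,6,7,8,9,10] (.node (.cons (.leaf 1 [(0,1),(9,1)]) (.cons (.leaf 1 [(0,1),(1,1),(9,1)]) (.cons (.leaf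 1 [(9,1)]) .nil))))) (.cons (.leaf 1 [(7,1)]) .nil))))) .nil))))) (.cons (.keep [0,2,6,7,9] (.node (.cons (.keep [3,5,6,7,8,9] (.node (.cons (.leaf 1 [(5,1),(7,1),(8,1),(2,1)]) (.cons (.keep [5,6,7,8,9,10] (.node (.cons (.leaf 1 [(2,1),(0,1),(9,1),(5,1)]) (.cons (.leaf 1 [(5,1),(0,1),(9,1)]) (.cons (.leaf 1 [(5,1),(9,1)]) .nil))))) (.cons (.leaf 1 [(5,1)]) .nil))))) (.cons (.leaf 1 [(1,1),(3,1),(7,1)]) (.cons (.keep [0,1,5,6,7,8,9] (.node (.cons (.leaf 1 [(9,1),(8,1),(2,1)]) (.cons (.keep [5,6,7,8,9,10,11] (.node (.cons (.leaf 1 [(0,1),(6,1),(2,1),(10,1)]) (.cons (.leaf 1 [(6,1),(0,1),(10,1)]) (.cons (.leaf 1 [(10,1)]) .nil))))) (.cons (.leaf 1 []) .nil))))) .nil))))) .nil))))) (.cons (.keep [1,3,5,6,7,10] (.node (.cons (.leaf 1 [(3,1),(2,1)]) (.cons (.keep [3,5,7,8,9,10] (.node (.cons (.keep [5,6,7,8,9,10]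 (.node (.cons (.leaf 1 [(2,1),(8,1),(3,1)]) (.cons (.keep [5,6,7,8,9,10] (.node (.cons (.leaf 1 [(2,1),(0,1),(5,2),(8,1)]) (.cons (.leaf 1 [(0,1),(5,2),(8,1)]) (.cons (.leaf 1 [(8,1),(5,1)]) .nil))))) (.cons (.leaf 1 [(5,2),(6,1)]) .nil))))) (.cons (.leaf 2 [(5,2),(3,1),(1,1),(8,1)]) (.cons (.keep [0,1,5,8,9,10] (.node (.cons (.leaf 1 [(2,2),(0,1),(8,1)]) (.cons (.keep [5,6,7,8,9,10] (.node (.cons (.leaf 1 [(0,1),(8,1),(7,1)]) (.cons (.leaf 1 [(0,1),(1,1),(8,1),(7,1)]) (.cons (.leaf 1 [(7,1),(8,1)]) .nil))))) (.cons (.leaf 1 [(7,1)]) .nil))))) .nil))))) (.cons (.keep [0,2,5,8,9,10] (.node (.cons (.keep [3,5,6,8,9,10] (.node (.cons (.leaf 2 [(5,1),(7,1),(8,1),(2,1)]) (.cons (.keep [5,6,7,8,9,10] (.node (.cons (.leaf 1 [(2,1),(0,1),(8,1)]) (.cons (.leaf 1 [(0,1),(8,1)]) (.cons (.leaf 1 [(8,1)]) .nil)))))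 (.cons (.leaf 1 [(5,1)]) .nil))))) (.cons (.leaf 2 [(1,1),(3,1),(8,1)]) (.cons (.keep [0,1,5,6,8,9,10] (.node (.cons (.leaf 2 [(9,1),(8,1),(2,1)]) (.cons (.keep [5,6,7,8,9,10,11] (.node (.cons (.leaf 1 [(0,1),(6,1),(2,1),(9,1)]) (.cons (.leaf 1 [(6,1),(0,1),(9,1)]) (.cons (.leaf 1 [(9,1)]) .nil))))) (.cons (.leaf 1 []) .nil))))) .nil))))) .nil))))) (.cons (.keep [0,1,2,6,7,8,10] (.node (.cons (.leaf 1 [(3,1),(2,1)]) (.cons (.keep [3,5,6,8,10,11] (.node (.cons (.leaf 1 [(3,1),(5,1),(8,1)]) (.cons (.leaf 1 [(5,1),(3,1),(8,1)]) (.cons (.leaf 1 [(5,1),(8,1)]) .nil))))) (.cons (.keep [0,2,5,6,8,11] (.node (.cons (.leaf 1 [(3,1),(9,1)]) (.cons (.leaf 1 [(9,1),(3,1)]) (.cons (.leaf 1 [(9,1)]) .nil))))) .nil))))) .nil))))) (.cons (.keep [1,3,6,7,8,9] (.node (.cons (.keep [3,5,6,7,8,10] (.node (.cons (.leaf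 1 [(3,1),(2,1),(6,1)]) (.cons (.keep [5,6,7,8,9,10] (.node (.cons (.leaf 1 [(3,1),(6,1),(7,1)]) (.cons (.leaf 1 [(5,1),(6,1),(1,1),(3,1)]) (.cons (.leaf 1 [(6,1),(7,1)]) .nil))))) (.cons (.keep [0,2,5,6,7,10] (.node (.cons (.leaf 1 [(3,1),(8,1),(9,1)]) (.cons (.leaf 1 [(1,1),(3,1)]) (.cons (.leaf 1 [(9,1),(8,1)]) .nil))))) .nil))))) (.cons (.leaf 1 [(3,1),(1,1),(6,1),(5,2)]) (.cons (.keep [0,1,5,6,7,10] (.node (.cons (.leaf 1 [(3,2),(2,1)]) (.cons (.keep [3,5,6,8,9,10] (.node (.cons (.leaf 1 [(5,1),(8,1),(3,1)]) (.cons (.leaf 1 [(5,1),(3,1),(8,1)]) (.cons (.leaf 1 [(5,1),(8,1)]) .nil))))) (.cons (.keep [0,2,5,6,8,10] (.node (.cons (.leaf 1 [(3,1),(9,1)]) (.cons (.leaf 1 [(9,1),(3,1)]) (.cons (.leaf 1 [(9,1)]) .nil))))) .nil))))) .nil))))) (.cons (.keep [0,1,5,6,8] (.node (.cons (.keep [2,3,5,6,8]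 (.node (.cons (.leaf 1 [(3,1),(8,1),(2,1)]) (.cons (.keep [3,6,7,8,9] (.node (.cons (.keep [3,5,6,7,8] (.node (.cons (.leaf 2 [(2,1),(9,1),(5,2)]) (.cons (.keep [5,6,7,8,9] (.node (.cons (.leaf 1 [(3,1),(5,1)]) (.cons (.leaf 1 [(5,1),(3,1)]) (.cons (.leaf 1 [(5,1)]) .nil))))) (.cons (.leaf 1 [(6,1),(9,1),(5,1)]) .nil))))) (.cons (.leaf 2 [(5,1),(1,1),(8,1),(3,2)]) (.cons (.keep [0,1,5,6,8] (.node (.cons (.leaf 2 [(2,1),(9,1)]) (.cons (.keep [3,5,6,7,9] (.node (.cons (.leaf 1 [(3,1)]) (.cons (.leaf 1 [(3,1)]) (.cons (.leaf 1 []) .nil))))) (.cons (.leaf 1 [(7,1),(9,1)]) .nil))))) .nil))))) (.cons (.keep [0,2,6,8] (.node (.cons (.keep [3,5,6,7,8] (.node (.cons (.leaf 1 [(3,1),(7,1),(2,1),(5,1)]) (.cons (.keep [5,6,7,8,9] (.node (.cons (.leaf 1 [(3,1),(5,1)]) (.cons (.leaf 1 [(5,1),(3,1)]) (.cons (.leaf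 1 [(5,1)]) .nil))))) (.cons (.leaf 1 [(9,1),(5,1)]) .nil))))) (.cons (.leaf 2 [(8,1),(1,1),(3,2)]) (.cons (.keep [0,1,5,6,7,8] (.node (.cons (.leaf 1 [(3,1),(8,1),(2,1)]) (.cons (.keep [5,6,7,8,9,10] (.node (.cons (.leaf 1 [(3,1)]) (.cons (.leaf 1 [(3,1)]) (.cons (.leaf 1 []) .nil))))) (.cons (.leaf 1 [(10,1)]) .nil))))) .nil))))) .nil))))) (.cons (.keep [1,3,5,6,7] (.node (.cons (.leaf 1 [(3,1),(8,1),(2,1)]) (.cons (.keep [3,5,7,8,9] (.node (.cons (.keep [5,6,7,8,9] (.node (.cons (.leaf 1 [(3,1),(2,1)]) (.cons (.keep [3,5,6,7,8] (.node (.cons (.leaf 1 [(3,1),(6,1)]) (.cons (.leaf 1 [(3,1),(6,1)]) (.cons (.leaf 1 [(6,1)]) .nil))))) (.cons (.leaf 1 [(6,1),(5,2),(8,1)]) .nil))))) (.cons (.leaf 2 [(5,2),(3,1),(1,1),(8,1)]) (.cons (.keep [0,1,5,8,9] (.node (.cons (.leaf 1 [(3,1),(2,1)]) (.cons (.keep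 [3,5,6,7,8] (.node (.cons (.leaf 1 [(3,1),(8,1)]) (.cons (.leaf 1 [(3,1),(8,1)]) (.cons (.leaf 1 [(8,1)]) .nil))))) (.cons (.leaf 1 [(8,1),(7,1)]) .nil))))) .nil))))) (.cons (.keep [0,2,5,8,9] (.node (.cons (.keep [3,5,6,8,9] (.node (.cons (.leaf 1 [(3,1),(7,1),(2,1)]) (.cons (.keep [5,6,7,8,9] (.node (.cons (.leaf 1 [(3,1)]) (.cons (.leaf 1 [(3,1)]) (.cons (.leaf 1 []) .nil))))) (.cons (.leaf 1 [(5,1),(8,1)]) .nil))))) (.cons (.leaf 2 [(8,1),(3,1),(1,1)]) (.cons (.keep [0,1,5,6,8,9] (.node (.cons (.leaf 1 [(3,1),(8,1),(2,1)]) (.cons (.keep [5,6,7,8,9,10] (.node (.cons (.leaf 1 [(3,1)]) (.cons (.leaf 1 [(3,1)]) (.cons (.leaf 1 []) .nil))))) (.cons (.leaf 1 [(9,1)]) .nil))))) .nil))))) .nil))))) (.cons (.keep [0,1,2,5,6,7,8] (.node (.cons (.leaf 1 [(2,1),(9,1),(3,1)]) (.cons (.keep [3,5,6,8,9,11]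 (.node (.cons (.leaf 1 [(5,1),(3,1)]) (.cons (.leaf 1 [(5,1),(3,1)]) (.cons (.leaf 1 [(5,1)]) .nil))))) (.cons (.keep [0,2,5,6,9] (.node (.cons (.leaf 1 [(3,1)]) (.cons (.leaf 1 [(3,1)]) (.cons (.leaf 1 []) .nil))))) .nil))))) .nil))))) .nil))))) (.cons (.keep [0,2,5,7,8] (.node (.cons (.keep [3,5,6,7,9] (.node (.cons (.leaf 1 [(3,1),(7,1),(2,1),(5,1)]) (.cons (.keep [3,5,6,7,8] (.node (.cons (.leaf 1 [(3,1),(6,1)]) (.cons (.leaf 1 [(6,1),(3,1)]) (.cons (.leaf 1 [(6,1)]) .nil))))) (.cons (.keep [0,2,5,7,8] (.node (.cons (.leaf 1 [(7,1),(3,1)]) (.cons (.leaf 1 [(3,1),(7,1)]) (.cons (.leaf 1 [(7,1)]) .nil))))) .nil))))) (.cons (.leaf 1 [(9,1),(1,1),(3,1)]) (.cons (.keep [0,1,5,6,9] (.node (.cons (.leaf 1 [(3,1),(8,1),(2,1)]) (.cons (.keep [3,5,6,7,8] (.node (.cons (.leaf 1 [(3,1)]) (.cons (.leaf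 1 [(3,1)]) (.cons (.leaf 1 []) .nil))))) (.cons (.keep [0,2,5,6,8] (.node (.cons (.leaf 1 [(3,1)]) (.cons (.leaf 1 [(3,1)]) (.cons (.leaf 1 []) .nil))))) .nil))))) .nil))))) .nil))))) (.cons (.keep [1,6,7,8] (.node (.cons (.keep [2,3,5,6,7,8] (.node (.cons (.keep [2,5,6,7,9,10] (.node (.cons (.leaf 1 [(2,1),(8,1)]) (.cons (.keep [3,5,6,7,8,10] (.node (.cons (.leaf 1 [(3,1)]) (.cons (.leaf 1 [(3,1)]) (.cons (.leaf 1 []) .nil))))) (.cons (.keep [0,2,7,8,10] (.node (.cons (.leaf 1 [(3,1)]) (.cons (.leaf 1 [(3,1)]) (.cons (.leaf 1 []) .nil))))) .nil))))) (.cons (.leaf 1 [(9,1),(1,1)]) (.cons (.keep [0,1,5,6,7,9] (.node (.cons (.leaf 1 [(2,1),(9,1)]) (.cons (.keep [3,5,6,7,8,9] (.node (.cons (.leaf 1 [(3,1)]) (.cons (.leaf 1 [(3,1)]) (.cons (.leaf 1 []) .nil))))) (.cons (.keep [0,2,5,6,8,9] (.node (.cons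 (.leaf 1 [(3,1)]) (.cons (.leaf 1 [(3,1)]) (.cons (.leaf 1 []) .nil))))) .nil))))) .nil))))) (.cons (.keep [3,5,6,7,8] (.node (.cons (.keep [0,5,6,8,9] (.node (.cons (.leaf 1 [(3,1),(7,1),(9,1),(2,1)]) (.cons (.keep [3,5,6,7,9] (.node (.cons (.leaf 1 [(3,1)]) (.cons (.leaf 1 [(3,1)]) (.cons (.leaf 1 []) .nil))))) (.cons (.keep [0,2,6,7,9] (.node (.cons (.leaf 1 [(3,1)]) (.cons (.leaf 1 [(3,1)]) (.cons (.leaf 1 []) .nil))))) .nil))))) (.cons (.leaf 1 [(8,1),(1,1)]) (.cons (.keep [0,1,5,6,8] (.node (.cons (.leaf 1 [(3,1),(8,1),(2,1)]) (.cons (.keep [3,5,6,7,8] (.node (.cons (.leaf 1 [(3,1)]) (.cons (.leaf 1 [(3,1)]) (.cons (.leaf 1 []) .nil))))) (.cons (.keep [0,2,5,6,7,8] (.node (.cons (.leaf 1 [(3,1)]) (.cons (.leaf 1 [(3,1)]) (.cons (.leaf 1 []) .nil))))) .nil))))) .nil))))) (.cons (.keep [0,2,5,7,8]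 (.node (.cons (.keep [3,5,6,8,9] (.node (.cons (.leaf 1 [(3,1),(7,1),(2,1)]) (.cons (.keep [3,5,6,7,9] (.node (.cons (.leaf 1 [(3,1)]) (.cons (.leaf 1 [(3,1)]) (.cons (.leaf 1 []) .nil))))) (.cons (.keep [0,2,5,7,9] (.node (.cons (.leaf 1 [(3,1)]) (.cons (.leaf 1 [(3,1)]) (.cons (.leaf 1 []) .nil))))) .nil))))) (.cons (.leaf 1 [(8,1),(1,1)]) (.cons (.keep [0,1,5,6,8] (.node (.cons (.leaf 1 [(3,1),(8,1),(2,1)]) (.cons (.keep [3,5,6,7,8] (.node (.cons (.leaf 1 [(3,1)]) (.cons (.leaf 1 [(3,1)]) (.cons (.leaf 1 []) .nil))))) (.cons (.keep [0,2,5,6,8] (.node (.cons (.leaf 1 [(3,1)]) (.cons (.leaf 1 [(3,1)]) (.cons (.leaf 1 []) .nil))))) .nil))))) .nil))))) .nil))))) (.cons (.keep [0,1,2,5,6,7] (.node (.cons (.leaf 1 [(2,1),(10,1)]) (.cons (.keep [3,5,6,8,9,10] (.node (.cons (.leaf 1 [(3,1)]) (.cons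 (.leaf 1 [(3,1)]) (.cons (.leaf 1 []) .nil))))) (.cons (.keep [0,2,5,6,9,10] (.node (.cons (.leaf 1 [(3,1)]) (.cons (.leaf 1 [(3,1)]) (.cons (.leaf 1 []) .nil))))) .nil))))) .nil))))

theorem c_22_16_1 : Concl 22 16 z_22_16_1 h_22_16_1 .nd := piece _ hP_nil t_22_16_1 _ _ (by
  decide +kernel)

def z_22_16_2 : F := ⟨1, 0, -1, 0, 1⟩

def h_22_16_2 : List F := [⟨-1, 1, 0, 0, 0⟩, ⟨0, 1, 0, -1, 0⟩, ⟨1, -1, 0, 1, 1⟩, ⟨1, -1, -1, 0,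
  1⟩]

def t_22_16_2 : T := (.node (.cons (.keep [5,6,7,8] (.node (.cons (.keep [2,5,6,7,8] (.node (.cons (.keep [2,5,6,7,9] (.node (.cons (.keep [5,6,7,8,9] (.node (.cons (.leaf 1 [(5,1),(9,1),(2,1),(3,3)]) (.cons (.keep [1,3,5,6,9] (.node (.cons (.leaf 1 [(6,1),(3,1)]) (.cons (.leaf 1 [(6,1),(3,1)]) (.cons (.leaf 1 [(6,1)]) .nil))))) (.cons (.keep [0,2,5,6,9] (.node (.cons (.leaf 1 [(3,1)]) (.cons (.leaf 1 [(3,1)]) (.cons (.leaf 1 []) .nil))))) .nil))))) (.cons (.leaf 1 [(7,2),(1,1)]) (.cons (.keep [0,1,6,7,9] (.node (.cons (.leaf 1 [(2,1),(9,1),(3,2)]) (.cons (.keep [3,5,6,7,9] (.node (.cons (.leaf 1 [(5,1),(3,1)]) (.cons (.leaf 1 [(5,1),(3,1)]) (.cons (.leaf 1 [(5,1)]) .nil))))) (.cons (.keep [0,2,5,6,7,9] (.node (.cons (.leaf 1 [(3,1)]) (.cons (.leaf 1 [(3,1)]) (.cons (.leaf 1 []) .nil)))))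 .nil))))) .nil))))) (.cons (.keep [5,6,7,8,9] (.node (.cons (.keep [5,6,7,8,9] (.node (.cons (.leaf 1 [(2,1),(9,1),(3,3)]) (.cons (.keep [3,5,7,8,9] (.node (.cons (.leaf 1 [(5,1),(3,1)]) (.cons (.leaf 1 [(5,1),(3,1)]) (.cons (.leaf 1 [(5,1)]) .nil))))) (.cons (.keep [0,2,5,8,9] (.node (.cons (.leaf 1 [(3,1)]) (.cons (.leaf 1 [(3,1)]) (.cons (.leaf 1 []) .nil))))) .nil))))) (.cons (.leaf 1 [(6,2),(1,1)]) (.cons (.keep [0,1,5,6,9] (.node (.cons (.leaf 1 [(2,1),(9,1),(3,3)]) (.cons (.keep [3,5,6,7,9] (.node (.cons (.leaf 1 [(5,1),(3,1)]) (.cons (.leaf 1 [(5,1),(3,1)]) (.cons (.leaf 1 [(5,1)]) .nil))))) (.cons (.keep [0,2,5,6,7,9] (.node (.cons (.leaf 1 [(3,1)]) (.cons (.leaf 1 [(3,1)]) (.cons (.leaf 1 []) .nil))))) .nil))))) .nil))))) (.cons (.keep [0,2,5,6,8] (.node (.cons (.keep [5,6,7,8,9] (.node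 (.cons (.leaf 1 [(2,1),(6,1),(3,2)]) (.cons (.keep [3,5,6,7,9] (.node (.cons (.leaf 1 [(5,1),(3,1)]) (.cons (.leaf 1 [(5,1),(3,1)]) (.cons (.leaf 1 [(5,1)]) .nil))))) (.cons (.keep [0,2,6,7,9] (.node (.cons (.leaf 1 [(3,1)]) (.cons (.leaf 1 [(3,1)]) (.cons (.leaf 1 []) .nil))))) .nil))))) (.cons (.leaf 1 [(8,2),(1,1)]) (.cons (.keep [0,1,5,6,8,9] (.node (.cons (.leaf 1 [(2,1),(8,1),(3,2)]) (.cons (.keep [3,5,6,7,8,10] (.node (.cons (.leaf 1 [(5,1),(3,1)]) (.cons (.leaf 1 [(5,1),(3,1)]) (.cons (.leaf 1 [(5,1)]) .nil))))) (.cons (.keep [0,2,5,6,8] (.node (.cons (.leaf 1 [(3,1)]) (.cons (.leaf 1 [(3,1)]) (.cons (.leaf 1 []) .nil))))) .nil))))) .nil))))) .nil))))) (.cons (.keep [5,6,7,8] (.node (.cons (.keep [2,3,5,6,8] (.node (.cons (.keep [5,6,7,8,9] (.node (.cons (.leaf 1 [(3,1),(2,1)]) (.cons (.keep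 [0,3,5,6,9] (.node (.cons (.keep [3,5,6,7,8,9] (.node (.cons (.leaf 1 [(5,1),(2,1),(8,1)]) (.cons (.keep [5,6,7,8,9,10] (.node (.cons (.leaf 1 [(5,2),(0,1),(9,1)]) (.cons (.leaf 1 [(5,2),(0,1),(1,1),(9,1)]) (.cons (.leaf 1 [(5,1),(9,1)]) .nil))))) (.cons (.leaf 1 [(7,1),(5,1)]) .nil))))) (.cons (.leaf 1 [(6,1),(3,1),(1,1),(7,1)]) (.cons (.keep [0,1,6,7,8,9] (.node (.cons (.leaf 1 [(2,1),(8,1)]) (.cons (.keep [5,6,7,8,9,10] (.node (.cons (.leaf 1 [(0,1),(9,1)]) (.cons (.leaf 1 [(0,1),(9,1),(1,1)]) (.cons (.leaf 1 [(9,1)]) .nil))))) (.cons (.leaf 1 [(7,1)]) .nil))))) .nil))))) (.cons (.keep [0,2,5,6,9] (.node (.cons (.keep [3,5,6,7,8,9] (.node (.cons (.leaf 1 [(5,1),(7,1),(8,1),(2,1)]) (.cons (.keep [5,6,7,8,9,10] (.node (.cons (.leaf 1 [(2,1),(0,1),(9,1),(5,1)]) (.cons (.leaf 1 [(5,1),(0,1),(9,1)])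 (.cons (.leaf 1 [(5,1),(9,1)]) .nil))))) (.cons (.leaf 1 [(5,1)]) .nil))))) (.cons (.leaf 1 [(1,1),(3,1),(7,1)]) (.cons (.keep [0,1,5,6,7,8,9] (.node (.cons (.leaf 1 [(9,1),(8,1),(2,1)]) (.cons (.keep [5,6,7,8,9,10,11] (.node (.cons (.leaf 1 [(0,1),(6,1),(2,1),(10,1)]) (.cons (.leaf 1 [(6,1),(0,1),(10,1)]) (.cons (.leaf 1 [(10,1)]) .nil))))) (.cons (.leaf 1 []) .nil))))) .nil))))) .nil))))) (.cons (.keep [1,5,6,7,8,9] (.node (.cons (.leaf 1 [(3,1),(2,1)]) (.cons (.keep [0,3,5,6,7,10] (.node (.cons (.keep [5,6,7,8,9,10] (.node (.cons (.leaf 1 [(6,1),(2,1),(8,1)]) (.cons (.keep [5,6,7,8,9,10] (.node (.cons (.leaf 1 [(2,1),(0,1),(6,2),(9,1)]) (.cons (.leaf 1 [(0,1),(6,2),(9,1)]) (.cons (.leaf 1 [(9,1),(6,1)]) .nil))))) (.cons (.leaf 1 [(6,2),(7,1)]) .nil))))) (.cons (.leaf 1 [(6,2),(1,1),(8,1)]) (.cons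 (.keep [0,1,6,8,9,10] (.node (.cons (.leaf 1 [(2,1),(7,1),(8,1)]) (.cons (.keep [5,6,7,8,9,10] (.node (.cons (.leaf 1 [(0,1),(9,1),(7,1)]) (.cons (.leaf 1 [(0,1),(1,1),(9,1),(7,1)]) (.cons (.leaf 1 [(7,1),(9,1)]) .nil))))) (.cons (.leaf 1 [(7,1)]) .nil))))) .nil))))) (.cons (.keep [0,2,5,6,7,10] (.node (.cons (.keep [3,5,6,8,9,10] (.node (.cons (.leaf 1 [(7,1),(8,1),(2,1)]) (.cons (.keep [5,6,7,8,9,10] (.node (.cons (.leaf 1 [(2,1),(0,1),(9,1)]) (.cons (.leaf 1 [(0,1),(9,1)]) (.cons (.leaf 1 [(9,1)]) .nil))))) (.cons (.leaf 1 [(5,1)]) .nil))))) (.cons (.leaf 1 [(1,1),(8,1)]) (.cons (.keep [0,1,5,6,8,9,10] (.node (.cons (.leaf 1 [(9,1),(8,1),(2,1)]) (.cons (.keep [5,6,7,8,9,10,11] (.node (.cons (.leaf 1 [(0,1),(6,1),(2,1),(10,1)]) (.cons (.leaf 1 [(6,1),(0,1),(10,1)]) (.cons (.leaf 1 [(10,1)]) .nil)))))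 (.cons (.leaf 1 []) .nil))))) .nil))))) .nil))))) (.cons (.keep [0,1,6,7,9] (.node (.cons (.leaf 1 [(3,1),(2,1)]) (.cons (.keep [3,5,6,7,9] (.node (.cons (.leaf 1 [(3,1),(5,1),(8,1)]) (.cons (.leaf 1 [(5,1),(3,1),(8,1)]) (.cons (.leaf 1 [(5,1),(8,1)]) .nil))))) (.cons (.keep [0,2,5,6,7,9] (.node (.cons (.leaf 1 [(3,1),(9,1)]) (.cons (.leaf 1 [(9,1),(3,1)]) (.cons (.leaf 1 [(9,1)]) .nil))))) .nil))))) .nil))))) (.cons (.keep [1,3,5,6,7,8] (.node (.cons (.keep [5,6,7,8,9,10] (.node (.cons (.leaf 1 [(3,1),(2,1),(5,1)]) (.cons (.keep [3,5,6,8,9,10] (.node (.cons (.leaf 1 [(3,1),(6,1),(7,1)]) (.cons (.leaf 1 [(5,1),(1,1),(3,1)]) (.cons (.leaf 1 [(6,1),(7,1)]) .nil))))) (.cons (.keep [0,2,5,6,9,10] (.node (.cons (.leaf 1 [(3,1),(7,1),(8,1)]) (.cons (.leaf 1 [(1,1),(3,1)]) (.cons (.leaf 1 [(8,1),(7,1)])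 .nil))))) .nil))))) (.cons (.leaf 1 [(3,1),(1,1),(6,1),(5,2)]) (.cons (.keep [0,1,5,6,10] (.node (.cons (.leaf 1 [(3,2),(2,1)]) (.cons (.keep [3,5,6,8,9] (.node (.cons (.leaf 1 [(5,1),(8,1),(3,1)]) (.cons (.leaf 1 [(5,1),(3,1),(8,1)]) (.cons (.leaf 1 [(5,1),(8,1)]) .nil))))) (.cons (.keep [0,2,5,6,8,9] (.node (.cons (.leaf 1 [(3,1),(9,1)]) (.cons (.leaf 1 [(9,1),(3,1)]) (.cons (.leaf 1 [(9,1)]) .nil))))) .nil))))) .nil))))) (.cons (.keep [0,1,5,7,8] (.node (.cons (.keep [5,6,7,8,9] (.node (.cons (.leaf 1 [(3,1),(6,1),(2,1)]) (.cons (.keep [3,5,6,8,9] (.node (.cons (.keep [3,5,6,7,8] (.node (.cons (.leaf 2 [(2,1),(8,1),(5,2)]) (.cons (.keep [5,6,7,8,9] (.node (.cons (.leaf 1 [(3,1),(5,1)]) (.cons (.leaf 1 [(5,1),(3,1)]) (.cons (.leaf 1 [(5,1)]) .nil))))) (.cons (.leaf 1 [(6,1),(8,1),(5,1)]) .nil)))))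 (.cons (.leaf 2 [(5,1),(1,1),(7,1),(3,2)]) (.cons (.keep [0,1,5,7,8] (.node (.cons (.leaf 2 [(2,1),(8,1)]) (.cons (.keep [5,6,7,8,9] (.node (.cons (.leaf 1 [(3,1)]) (.cons (.leaf 1 [(3,1)]) (.cons (.leaf 1 []) .nil))))) (.cons (.leaf 1 [(7,1),(8,1)]) .nil))))) .nil))))) (.cons (.keep [0,2,6,8] (.node (.cons (.keep [3,5,6,7,8] (.node (.cons (.leaf 1 [(3,1),(7,1),(2,1),(5,1)]) (.cons (.keep [5,6,7,8,9] (.node (.cons (.leaf 1 [(3,1),(5,1)]) (.cons (.leaf 1 [(5,1),(3,1)]) (.cons (.leaf 1 [(5,1)]) .nil))))) (.cons (.leaf 1 [(8,1),(5,1)]) .nil))))) (.cons (.leaf 2 [(7,1),(1,1),(3,2)]) (.cons (.keep [0,1,5,6,7,8] (.node (.cons (.leaf 1 [(3,1),(8,1),(2,1)]) (.cons (.keep [5,6,7,8,9,10] (.node (.cons (.leaf 1 [(3,1)]) (.cons (.leaf 1 [(3,1)]) (.cons (.leaf 1 []) .nil))))) (.cons (.leaf 1 [(9,1)]) .nil)))))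 .nil))))) .nil))))) (.cons (.keep [1,5,6,7,8] (.node (.cons (.leaf 1 [(3,1),(7,1),(2,1)]) (.cons (.keep [3,5,6,7,9] (.node (.cons (.keep [5,6,7,8,9] (.node (.cons (.leaf 1 [(3,1),(2,1)]) (.cons (.keep [5,6,7,8,9] (.node (.cons (.leaf 1 [(3,1),(5,1)]) (.cons (.leaf 1 [(3,1),(5,1)]) (.cons (.leaf 1 [(5,1)]) .nil))))) (.cons (.leaf 1 [(6,1),(5,2),(8,1)]) .nil))))) (.cons (.leaf 2 [(5,2),(3,1),(1,1),(8,1)]) (.cons (.keep [0,1,5,8,9] (.node (.cons (.leaf 1 [(3,1),(2,1)]) (.cons (.keep [5,6,7,8,9] (.node (.cons (.leaf 1 [(3,1),(7,1)]) (.cons (.leaf 1 [(3,1),(7,1)]) (.cons (.leaf 1 [(7,1)]) .nil))))) (.cons (.leaf 1 [(8,1),(7,1)]) .nil))))) .nil))))) (.cons (.keep [0,2,5,7,9] (.node (.cons (.keep [3,5,6,8,9] (.node (.cons (.leaf 1 [(3,1),(7,1),(2,1)]) (.cons (.keep [5,6,7,8,9] (.node (.cons (.leaf 1 [(3,1)])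 (.cons (.leaf 1 [(3,1)]) (.cons (.leaf 1 []) .nil))))) (.cons (.leaf 1 [(5,1),(8,1)]) .nil))))) (.cons (.leaf 2 [(8,1),(3,1),(1,1)]) (.cons (.keep [0,1,5,6,8,9] (.node (.cons (.leaf 1 [(3,1),(8,1),(2,1)]) (.cons (.keep [5,6,7,8,9,10] (.node (.cons (.leaf 1 [(3,1)]) (.cons (.leaf 1 [(3,1)]) (.cons (.leaf 1 []) .nil))))) (.cons (.leaf 1 [(9,1)]) .nil))))) .nil))))) .nil))))) (.cons (.keep [0,1,5,6,7,8] (.node (.cons (.leaf 1 [(2,1),(8,1),(3,1)]) (.cons (.keep [3,5,6,7,8,10] (.node (.cons (.leaf 1 [(5,1),(3,1)]) (.cons (.leaf 1 [(5,1),(3,1)]) (.cons (.leaf 1 [(5,1)]) .nil))))) (.cons (.keep [0,2,5,6,8] (.node (.cons (.leaf 1 [(3,1)]) (.cons (.leaf 1 [(3,1)]) (.cons (.leaf 1 []) .nil))))) .nil))))) .nil))))) .nil))))) (.cons (.keep [0,2,5,6,7] (.node (.cons (.leaf 1 [(3,1),(7,1)]) (.cons (.leaf 1 [(7,1),(3,1)])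 (.cons (.leaf 1 [(7,1)]) .nil))))) .nil))))) (.cons (.leaf 1 [(5,1),(1,1)]) (.cons (.keep [0,1,5,6,7] (.node (.cons (.leaf 1 [(3,1),(9,1),(2,1)]) (.cons (.keep [3,5,6,8,9] (.node (.cons (.leaf 1 [(3,1)]) (.cons (.leaf 1 [(3,1)]) (.cons (.leaf 1 []) .nil))))) (.cons (.keep [0,2,5,6,8,9] (.node (.cons (.leaf 1 [(3,1)]) (.cons (.leaf 1 [(3,1)]) (.cons (.leaf 1 []) .nil))))) .nil))))) .nil))))

theorem c_22_16_2 : Concl 22 16 z_22_16_2 h_22_16_2 .nd := piece _ hP_nil t_22_16_2 _ _ (by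
  decide +kernel)

def z_22_16_3 : F := ⟨1, 0, 0, -1, 1⟩

def h_22_16_3 : List F := [⟨1, -1, 0, 0, 0⟩, ⟨1, 0, 0, -1, 0⟩, ⟨0, 0, 0, -1, 1⟩, ⟨1, 0, -1, -1,
  1⟩]

def t_22_16_3 : T := (.node (.cons (.keep [2,3,5,7] (.leaf 0 [(0,0)])) (.cons (.keep [1,3,5,7,8] (.node (.cons (.keep [3,5,7,8,9] (.node (.cons (.keep [2,5,6,8] (.node (.cons (.keep [2,5,6,7,8] (.node (.cons (.keep [5,6,7,8,9] (.node (.cons (.leaf 1 [(2,1),(9,1),(5,2),(3,2)]) (.cons (.keep [3,5,6,7,9] (.node (.cons (.leaf 1 [(3,1),(5,1),(6,1)]) (.cons (.leaf 1 [(5,1),(3,1),(6,1)]) (.cons (.leaf 1 [(5,1),(6,1)]) .nil))))) (.cons (.keep [0,2,5,6,9] (.node (.cons (.leaf 1 [(7,1),(3,1)]) (.cons (.leaf 1 [(3,1),(7,1)]) (.cons (.leaf 1 [(7,1)]) .nil))))) .nil))))) (.cons (.leaf 1 [(8,1),(1,1),(3,1)]) (.cons (.keep [0,1,5,6,8,9] (.node (.cons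 (.leaf 1 [(2,1),(10,1)]) (.cons (.keep [3,5,6,7,8,10] (.node (.cons (.leaf 1 [(3,1)]) (.cons (.leaf 1 [(3,1)]) (.cons (.leaf 1 []) .nil))))) (.cons (.keep [0,2,5,6,8,10] (.node (.cons (.leaf 1 [(3,1)]) (.cons (.leaf 1 [(3,1)]) (.cons (.leaf 1 []) .nil))))) .nil))))) .nil))))) (.cons (.keep [3,5,6,7,8] (.node (.cons (.keep [3,6,7,8,9] (.node (.cons (.leaf 1 [(3,1),(9,1),(2,1),(5,1)]) (.cons (.keep [3,5,6,7,9] (.node (.cons (.leaf 1 [(3,1),(6,1)]) (.cons (.leaf 1 [(6,1),(3,1)]) (.cons (.leaf 1 [(6,1)]) .nil))))) (.cons (.keep [0,2,5,6,9] (.node (.cons (.leaf 1 [(7,1),(3,1)]) (.cons (.leaf 1 [(3,1),(7,1)]) (.cons (.leaf 1 [(7,1)]) .nil))))) .nil))))) (.cons (.leaf 1 [(8,1),(1,1),(3,1)]) (.cons (.keep [0,1,5,8,9] (.node (.cons (.leaf 1 [(3,1),(9,1),(2,1)]) (.cons (.keep [3,5,6,7,9] (.node (.cons (.leaf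 1 [(3,1)]) (.cons (.leaf 1 [(3,1)]) (.cons (.leaf 1 []) .nil))))) (.cons (.keep [0,2,5,6,7,9] (.node (.cons (.leaf 1 [(3,1)]) (.cons (.leaf 1 [(3,1)]) (.cons (.leaf 1 []) .nil))))) .nil))))) .nil))))) (.cons (.keep [0,2,5,6,7] (.node (.cons (.keep [3,5,6,7,9] (.node (.cons (.leaf 1 [(3,1),(7,1),(2,1),(5,1)]) (.cons (.keep [3,5,6,7,8] (.node (.cons (.leaf 1 [(3,1),(6,1)]) (.cons (.leaf 1 [(6,1),(3,1)]) (.cons (.leaf 1 [(6,1)]) .nil))))) (.cons (.keep [0,2,5,7,8] (.node (.cons (.leaf 1 [(7,1),(3,1)]) (.cons (.leaf 1 [(3,1),(7,1)]) (.cons (.leaf 1 [(7,1)]) .nil))))) .nil))))) (.cons (.leaf 1 [(9,1),(1,1),(3,1)]) (.cons (.keep [0,1,5,6,9] (.node (.cons (.leaf 1 [(3,1),(8,1),(2,1)]) (.cons (.keep [3,5,6,7,8] (.node (.cons (.leaf 1 [(3,1)]) (.cons (.leaf 1 [(3,1)]) (.cons (.leaf 1 []) .nil))))) (.cons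 (.keep [0,2,5,6,8] (.node (.cons (.leaf 1 [(3,1)]) (.cons (.leaf 1 [(3,1)]) (.cons (.leaf 1 []) .nil))))) .nil))))) .nil))))) .nil))))) (.cons (.keep [1,5,6,7,9] (.node (.cons (.keep [2,3,6,7,9] (.node (.cons (.keep [5,6,7,8,9] (.node (.cons (.leaf 1 [(3,1),(2,1),(5,1)]) (.cons (.keep [3,5,6,7,9] (.node (.cons (.leaf 1 [(3,1),(7,1)]) (.cons (.leaf 1 [(5,1),(3,1),(1,1),(6,2)]) (.cons (.leaf 1 [(7,1)]) .nil))))) (.cons (.keep [0,2,5,6,9] (.node (.cons (.leaf 1 [(3,1),(8,1)]) (.cons (.leaf 1 [(7,2),(1,1),(3,1)]) (.cons (.leaf 1 [(8,1)]) .nil))))) .nil))))) (.cons (.leaf 1 [(8,1),(1,1),(6,1)]) (.cons (.keep [0,1,5,6,8,9] (.node (.cons (.leaf 1 [(2,1)]) (.cons (.keep [3,5,6,7,8,10] (.node (.cons (.leaf 1 [(3,1),(9,1)]) (.cons (.leaf 1 [(9,1),(3,1)]) (.cons (.leaf 1 [(9,1)]) .nil))))) (.cons (.keep [0,2,5,6,8,10]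 (.node (.cons (.leaf 1 [(3,1),(9,1)]) (.cons (.leaf 1 [(9,1),(3,1)]) (.cons (.leaf 1 [(9,1)]) .nil))))) .nil))))) .nil))))) (.cons (.keep [3,5,6,7,9] (.node (.cons (.keep [5,6,7,8,9] (.node (.cons (.leaf 1 [(3,1),(2,1)]) (.cons (.keep [3,5,6,7,9] (.node (.cons (.leaf 1 [(3,1),(6,1)]) (.cons (.leaf 1 [(3,1),(6,1)]) (.cons (.leaf 1 [(6,1)]) .nil))))) (.cons (.keep [0,2,5,6,9] (.node (.cons (.leaf 1 [(3,1),(7,1)]) (.cons (.leaf 1 [(7,1),(3,1)]) (.cons (.leaf 1 [(7,1)]) .nil))))) .nil))))) (.cons (.leaf 1 [(5,1),(8,1),(1,1)]) (.cons (.keep [0,1,5,6,8] (.node (.cons (.leaf 1 [(3,1),(2,1)]) (.cons (.keep [3,5,6,7,8] (.node (.cons (.leaf 1 [(3,1),(8,1)]) (.cons (.leaf 1 [(3,1),(8,1)]) (.cons (.leaf 1 [(8,1)]) .nil))))) (.cons (.keep [0,2,5,6,7,8] (.node (.cons (.leaf 1 [(3,1),(9,1)]) (.cons (.leaf 1 [(9,1),(3,1)])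 (.cons (.leaf 1 [(9,1)]) .nil))))) .nil))))) .nil))))) (.cons (.keep [0,2,5,8,9] (.node (.cons (.keep [3,5,6,8,9] (.node (.cons (.leaf 1 [(3,1),(7,1),(2,1)]) (.cons (.keep [5,6,7,8,9] (.node (.cons (.leaf 1 [(3,1)]) (.cons (.leaf 1 [(3,1)]) (.cons (.leaf 1 []) .nil))))) (.cons (.keep [0,2,5,7,8] (.node (.cons (.leaf 1 [(3,1)]) (.cons (.leaf 1 [(3,1)]) (.cons (.leaf 1 []) .nil))))) .nil))))) (.cons (.leaf 1 [(8,1),(3,1),(1,1)]) (.cons (.keep [0,1,5,6,8] (.node (.cons (.leaf 1 [(3,1),(8,1),(2,1)]) (.cons (.keep [3,5,6,7,8] (.node (.cons (.leaf 1 [(3,1)]) (.cons (.leaf 1 [(3,1)]) (.cons (.leaf 1 []) .nil))))) (.cons (.keep [0,2,5,6,8] (.node (.cons (.leaf 1 [(3,1)]) (.cons (.leaf 1 [(3,1)]) (.cons (.leaf 1 []) .nil))))) .nil))))) .nil))))) .nil))))) (.cons (.keep [0,1,2,5,6,7,8] (.node (.cons (.leaf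 1 [(2,1),(9,1),(3,1)]) (.cons (.keep [3,5,6,8,9,11] (.node (.cons (.leaf 1 [(5,1),(3,1)]) (.cons (.leaf 1 [(5,1),(3,1)]) (.cons (.leaf 1 [(5,1)]) .nil))))) (.cons (.keep [0,2,5,6,8,9] (.node (.cons (.leaf 1 [(3,1)]) (.cons (.leaf 1 [(3,1)]) (.cons (.leaf 1 []) .nil))))) .nil))))) .nil))))) (.cons (.keep [1,3,5,8,9] (.node (.cons (.keep [5,6,7,8,9] (.node (.cons (.leaf 1 [(2,1),(7,1),(5,2)]) (.cons (.keep [5,6,7,8,9] (.node (.cons (.leaf 1 [(3,1),(5,1)]) (.cons (.leaf 1 [(5,1),(3,1)]) (.cons (.leaf 1 [(5,1)]) .nil))))) (.cons (.keep [0,2,5,6,7] (.node (.cons (.leaf 1 [(3,1),(7,1)]) (.cons (.leaf 1 [(7,1),(3,1)]) (.cons (.leaf 1 [(7,1)]) .nil))))) .nil))))) (.cons (.leaf 1 [(5,2),(3,1),(1,1)]) (.cons (.keep [0,1,5,6,7,8] (.node (.cons (.leaf 1 [(2,1),(9,1),(3,2)]) (.cons (.keep [3,5,6,8,9,10] (.node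 (.cons (.leaf 1 [(5,1),(3,1)]) (.cons (.leaf 1 [(5,1),(3,1)]) (.cons (.leaf 1 [(5,1)]) .nil))))) (.cons (.keep [0,2,5,6,8,9] (.node (.cons (.leaf 1 [(3,1)]) (.cons (.leaf 1 [(3,1)]) (.cons (.leaf 1 []) .nil))))) .nil))))) .nil))))) (.cons (.keep [0,1,5,6,8] (.node (.cons (.keep [2,3,5,6,9] (.node (.cons (.leaf 1 [(3,1),(8,1),(2,1)]) (.cons (.keep [3,6,7,8,9] (.node (.cons (.keep [3,5,6,7,8] (.node (.cons (.leaf 2 [(2,1),(9,1),(5,2)]) (.cons (.keep [5,6,7,8,9] (.node (.cons (.leaf 1 [(3,1),(5,1)]) (.cons (.leaf 1 [(5,1),(3,1)]) (.cons (.leaf 1 [(5,1)]) .nil))))) (.cons (.leaf 1 [(6,1),(9,1),(5,1)]) .nil))))) (.cons (.leaf 2 [(5,1),(1,1),(8,1),(3,2)]) (.cons (.keep [0,1,5,6,8] (.node (.cons (.leaf 2 [(2,1),(9,1)]) (.cons (.keep [3,5,6,7,9] (.node (.cons (.leaf 1 [(3,1)]) (.cons (.leaf 1 [(3,1)])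 (.cons (.leaf 1 []) .nil))))) (.cons (.leaf 1 [(7,1),(9,1)]) .nil))))) .nil))))) (.cons (.keep [0,2,6,8] (.node (.cons (.keep [3,5,6,7,8] (.node (.cons (.leaf 1 [(3,1),(7,1),(2,1),(5,1)]) (.cons (.keep [5,6,7,8,9] (.node (.cons (.leaf 1 [(3,1),(5,1)]) (.cons (.leaf 1 [(5,1),(3,1)]) (.cons (.leaf 1 [(5,1)]) .nil))))) (.cons (.leaf 1 [(9,1),(5,1)]) .nil))))) (.cons (.leaf 2 [(8,1),(1,1),(3,2)]) (.cons (.keep [0,1,5,6,7,8] (.node (.cons (.leaf 1 [(3,1),(8,1),(2,1)]) (.cons (.keep [5,6,7,8,9,10] (.node (.cons (.leaf 1 [(3,1)]) (.cons (.leaf 1 [(3,1)]) (.cons (.leaf 1 []) .nil))))) (.cons (.leaf 1 [(10,1)]) .nil))))) .nil))))) .nil))))) (.cons (.keep [1,3,5,6,8] (.node (.cons (.leaf 1 [(3,1),(8,1),(2,1)]) (.cons (.keep [3,5,7,8,9] (.node (.cons (.keep [5,6,7,8,9] (.node (.cons (.leaf 1 [(3,1),(2,1)])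 (.cons (.keep [3,5,6,7,8] (.node (.cons (.leaf 1 [(3,1),(6,1)]) (.cons (.leaf 1 [(3,1),(6,1)]) (.cons (.leaf 1 [(6,1)]) .nil))))) (.cons (.leaf 1 [(6,1),(5,2),(8,1)]) .nil))))) (.cons (.leaf 2 [(5,2),(3,1),(1,1),(8,1)]) (.cons (.keep [0,1,5,8,9] (.node (.cons (.leaf 1 [(3,1),(2,1)]) (.cons (.keep [3,5,6,7,8] (.node (.cons (.leaf 1 [(3,1),(8,1)]) (.cons (.leaf 1 [(3,1),(8,1)]) (.cons (.leaf 1 [(8,1)]) .nil))))) (.cons (.leaf 1 [(8,1),(7,1)]) .nil))))) .nil))))) (.cons (.keep [0,2,5,8,9] (.node (.cons (.keep [3,5,6,8,9] (.node (.cons (.leaf 1 [(3,1),(7,1),(2,1)]) (.cons (.keep [5,6,7,8,9] (.node (.cons (.leaf 1 [(3,1)]) (.cons (.leaf 1 [(3,1)]) (.cons (.leaf 1 []) .nil))))) (.cons (.leaf 1 [(5,1),(8,1)]) .nil))))) (.cons (.leaf 2 [(8,1),(3,1),(1,1)]) (.cons (.keep [0,1,5,6,8,9] (.node (.cons (.leaf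 1 [(3,1),(8,1),(2,1)]) (.cons (.keep [5,6,7,8,9,10] (.node (.cons (.leaf 1 [(3,1)]) (.cons (.leaf 1 [(3,1)]) (.cons (.leaf 1 []) .nil))))) (.cons (.leaf 1 [(9,1)]) .nil))))) .nil))))) .nil))))) (.cons (.keep [0,1,2,5,6,8,9] (.node (.cons (.leaf 1 [(2,1),(9,1),(3,1)]) (.cons (.keep [3,5,6,8,9,11] (.node (.cons (.leaf 1 [(5,1),(3,1)]) (.cons (.leaf 1 [(5,1),(3,1)]) (.cons (.leaf 1 [(5,1)]) .nil))))) (.cons (.keep [0,2,5,6,9] (.node (.cons (.leaf 1 [(3,1)]) (.cons (.leaf 1 [(3,1)]) (.cons (.leaf 1 []) .nil))))) .nil))))) .nil))))) .nil))))) (.cons (.keep [0,1,2,5,6] (.node (.cons (.keep [2,3,5,6,7,8] (.node (.cons (.leaf 1 [(6,1),(8,1),(2,1)]) (.cons (.keep [3,6,7,9,10] (.node (.cons (.leaf 1 [(3,1)]) (.cons (.leaf 1 [(3,1)]) (.cons (.leaf 1 []) .nil))))) (.cons (.keep [0,2,6,9,10] (.node (.cons (.leaf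 1 [(3,1)]) (.cons (.leaf 1 [(3,1)]) (.cons (.leaf 1 []) .nil))))) .nil))))) (.cons (.keep [1,3,5,6,8] (.node (.cons (.leaf 1 [(3,1),(5,1)]) (.cons (.leaf 1 [(3,1),(5,1)]) (.cons (.leaf 1 [(5,1)]) .nil))))) (.cons (.keep [0,1,2,5,6,7] (.node (.cons (.leaf 1 [(2,1),(9,1)]) (.cons (.keep [3,5,6,8,10] (.node (.cons (.leaf 1 [(3,1)]) (.cons (.leaf 1 [(3,1)]) (.cons (.leaf 1 []) .nil))))) (.cons (.keep [0,2,5,6,9] (.node (.cons (.leaf 1 [(3,1)]) (.cons (.leaf 1 [(3,1)]) (.cons (.leaf 1 []) .nil))))) .nil))))) .nil))))) .nil))))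

theorem c_22_16_3 : Concl 22 16 z_22_16_3 h_22_16_3 .nd := piece _ (hP_cons c_22_16_0 hP_nil)
  t_22_16_3 _ _ (by decide +kernel)

def t_22_16 : T := (.keep [0,1,2] (.node (.cons (.keep [2,3,5,7] (.leaf 0 [(0,0)])) (.cons (.keep [1,3,6,7] (.node (.cons (.keep [2,3,5,7] (.leaf 0 [(1,0)])) (.cons (.keep [1,3,5,8] (.leaf 0 [(2,0)])) (.cons (.keep [0,1,2,5] (.node (.cons (.keep [2,3,5,6,7] (.node (.cons (.leaf 1 [(8,1),(2,1)]) (.cons (.keep [3,6,7,8,9] (.node (.cons (.keep [3,5,7,8,9] (.node (.cons (.keep [2,5,6,7,9] (.node (.cons (.leaf 1 [(3,1),(2,1)]) (.cons (.keep [5,6,7,8,9] (.node (.cons (.keep [3,5,6,7,8] (.node (.cons (.leaf 2 [(5,2),(2,1),(7,1)]) (.cons (.keep [5,6,7,8,9] (.node (.cons (.leaf 1 [(5,2),(0,1),(7,1)]) (.cons (.leaf 1 [(5,2),(0,1),(1,1),(7,1)]) (.cons (.leaf 1 [(5,1),(7,1)])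 .nil))))) (.cons (.leaf 1 [(6,1),(5,2)]) .nil))))) (.cons (.leaf 2 [(5,1),(3,3),(1,1),(6,1)]) (.cons (.keep [0,1,5,6,7,8] (.node (.cons (.leaf 2 [(2,1),(8,1)]) (.cons (.keep [5,6,7,8,9,10] (.node (.cons (.leaf 1 [(0,1),(8,1)]) (.cons (.leaf 1 [(0,1),(8,1),(1,1)]) (.cons (.leaf 1 [(8,1)]) .nil))))) (.cons (.leaf 1 [(7,1)]) .nil))))) .nil))))) (.cons (.keep [0,2,6,7,8,9] (.node (.cons (.keep [3,5,6,7,8,9] (.node (.cons (.leaf 2 [(5,2),(7,1),(8,1),(2,1)]) (.cons (.keep [5,6,7,8,9,10] (.node (.cons (.leaf 1 [(2,1),(0,1),(8,1),(5,1)]) (.cons (.leaf 1 [(5,1),(0,1),(8,1)]) (.cons (.leaf 1 [(5,1),(8,1)]) .nil))))) (.cons (.leaf 1 [(5,1)]) .nil))))) (.cons (.leaf 2 [(1,1),(3,2),(7,1)]) (.cons (.keep [0,1,5,6,7,8,9] (.node (.cons (.leaf 2 [(9,1),(8,1),(2,1)]) (.cons (.keep [5,6,7,8,9,10,11] (.node (.cons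 (.leaf 1 [(0,1),(6,1),(2,1),(9,1)]) (.cons (.leaf 1 [(6,1),(0,1),(9,1)]) (.cons (.leaf 1 [(9,1)]) .nil))))) (.cons (.leaf 1 []) .nil))))) .nil))))) .nil))))) (.cons (.keep [5,6,7,8,9] (.node (.cons (.leaf 1 [(3,1),(2,1)]) (.cons (.keep [3,5,6,7,9] (.node (.cons (.keep [3,5,6,7,8] (.node (.cons (.leaf 1 [(5,1),(2,2),(7,1),(0,1)]) (.cons (.keep [5,6,7,8,9] (.node (.cons (.leaf 1 [(5,1),(0,1),(6,1),(7,1)]) (.cons (.leaf 1 [(5,2),(0,1),(1,2),(7,1)]) (.cons (.leaf 1 [(7,1),(6,1)]) .nil))))) (.cons (.leaf 1 [(6,1),(5,1)]) .nil))))) (.cons (.leaf 2 [(5,2),(3,1),(1,1),(6,1)]) (.cons (.keep [0,1,5,6,7,8] (.node (.cons (.leaf 1 [(2,2),(0,1),(8,1)]) (.cons (.keep [5,6,7,8,9,10] (.node (.cons (.leaf 1 [(0,1),(8,1),(7,1)]) (.cons (.leaf 1 [(0,1),(1,1),(8,1),(7,1)]) (.cons (.leaf 1 [(7,1),(8,1)]) .nil))))) (.cons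 (.leaf 1 [(7,1)]) .nil))))) .nil))))) (.cons (.keep [0,2,5,6,7,8] (.node (.cons (.keep [3,5,6,7,8,9] (.node (.cons (.leaf 2 [(5,1),(7,1),(8,1),(2,1)]) (.cons (.keep [5,6,7,8,9,10] (.node (.cons (.leaf 1 [(2,1),(0,1),(8,1)]) (.cons (.leaf 1 [(0,1),(8,1)]) (.cons (.leaf 1 [(8,1)]) .nil))))) (.cons (.leaf 1 [(5,1)]) .nil))))) (.cons (.leaf 2 [(1,1),(3,1),(7,1)]) (.cons (.keep [0,1,5,6,7,8,9] (.node (.cons (.leaf 2 [(9,1),(8,1),(2,1)]) (.cons (.keep [5,6,7,8,9,10,11] (.node (.cons (.leaf 1 [(0,1),(6,1),(2,1),(9,1)]) (.cons (.leaf 1 [(6,1),(0,1),(9,1)]) (.cons (.leaf 1 [(9,1)]) .nil))))) (.cons (.leaf 1 []) .nil))))) .nil))))) .nil))))) (.cons (.leaf 1 [(8,1),(5,1)]) .nil))))) (.cons (.leaf 1 [(1,1),(3,1),(9,1)]) (.cons (.keep [0,1,5,8,9] (.node (.cons (.keep [2,5,6,7,9] (.node (.cons (.leaf 1 [(3,1),(7,1),(2,1)])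 (.cons (.keep [5,6,7,8,9] (.node (.cons (.keep [3,5,6,7,8] (.node (.cons (.leaf 2 [(2,1),(8,1),(5,2)]) (.cons (.keep [3,5,6,7,8] (.node (.cons (.leaf 1 [(3,1),(6,1)]) (.cons (.leaf 1 [(6,1),(3,1)]) (.cons (.leaf 1 [(6,1)]) .nil))))) (.cons (.leaf 1 [(6,1),(8,1),(5,2)]) .nil))))) (.cons (.leaf 2 [(5,1),(1,1),(7,1),(3,3)]) (.cons (.keep [0,1,5,7,8] (.node (.cons (.leaf 2 [(2,1),(8,1)]) (.cons (.keep [3,5,6,7,8] (.node (.cons (.leaf 1 [(3,1)]) (.cons (.leaf 1 [(3,1)]) (.cons (.leaf 1 []) .nil))))) (.cons (.leaf 1 [(7,1),(8,1)]) .nil))))) .nil))))) (.cons (.keep [0,2,7,8,9] (.node (.cons (.keep [3,5,6,7,8] (.node (.cons (.leaf 1 [(3,1),(7,1),(2,1),(5,1)]) (.cons (.keep [5,6,7,8,9] (.node (.cons (.leaf 1 [(3,1),(5,1)]) (.cons (.leaf 1 [(5,1),(3,1)]) (.cons (.leaf 1 [(5,1)]) .nil))))) (.cons (.leaf 1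 [(8,1),(5,1)]) .nil))))) (.cons (.leaf 2 [(7,1),(1,1),(3,2)]) (.cons (.keep [0,1,5,6,7,8] (.node (.cons (.leaf 1 [(3,1),(8,1),(2,1)]) (.cons (.keep [5,6,7,8,9,10] (.node (.cons (.leaf 1 [(3,1)]) (.cons (.leaf 1 [(3,1)]) (.cons (.leaf 1 []) .nil))))) (.cons (.leaf 1 [(9,1)]) .nil))))) .nil))))) .nil))))) (.cons (.keep [5,6,7,8,9] (.node (.cons (.leaf 1 [(3,1),(6,1),(2,1)]) (.cons (.keep [3,5,6,7,9] (.node (.cons (.keep [3,5,6,7,8] (.node (.cons (.leaf 1 [(3,1),(2,1)]) (.cons (.keep [3,5,6,7,8] (.node (.cons (.leaf 1 [(3,1),(7,1)]) (.cons (.leaf 1 [(6,1),(3,1),(1,1)]) (.cons (.leaf 1 [(7,1)]) .nil))))) (.cons (.leaf 1 [(5,1),(6,1),(8,1)]) .nil))))) (.cons (.leaf 2 [(5,2),(3,1),(1,1),(7,1)]) (.cons (.keep [0,1,5,7,8] (.node (.cons (.leaf 1 [(3,1),(2,1)]) (.cons (.keep [3,5,6,7,8] (.node (.cons (.leaf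 1 [(3,1),(8,1)]) (.cons (.leaf 1 [(3,1),(8,1)]) (.cons (.leaf 1 [(8,1)]) .nil))))) (.cons (.leaf 1 [(8,1),(7,1)]) .nil))))) .nil))))) (.cons (.keep [0,2,6,7,8] (.node (.cons (.keep [3,5,6,7,8] (.node (.cons (.leaf 1 [(3,1),(7,1),(2,1)]) (.cons (.keep [5,6,7,8,9] (.node (.cons (.leaf 1 [(3,1)]) (.cons (.leaf 1 [(3,1)]) (.cons (.leaf 1 []) .nil))))) (.cons (.leaf 1 [(5,1),(8,1)]) .nil))))) (.cons (.leaf 2 [(7,1),(3,1),(1,1)]) (.cons (.keep [0,1,5,6,7,8] (.node (.cons (.leaf 1 [(3,1),(8,1),(2,1)]) (.cons (.keep [5,6,7,8,9,10] (.node (.cons (.leaf 1 [(3,1)]) (.cons (.leaf 1 [(3,1)]) (.cons (.leaf 1 []) .nil))))) (.cons (.leaf 1 [(9,1)]) .nil))))) .nil))))) .nil))))) (.cons (.leaf 1 [(8,1)]) .nil))))) .nil))))) (.cons (.keep [0,2,6,8] (.node (.cons (.keep [3,5,6,7,8] (.node (.cons (.leaf 1 [(3,1),(7,1),(2,1),(5,1)])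 (.cons (.keep [5,6,7,8,9] (.node (.cons (.leaf 1 [(3,1),(5,1)]) (.cons (.leaf 1 [(5,1),(3,1)]) (.cons (.leaf 1 [(5,1)]) .nil))))) (.cons (.leaf 1 [(9,1),(5,1)]) .nil))))) (.cons (.leaf 2 [(8,1),(1,1),(3,2)]) (.cons (.keep [0,1,5,6,7,8] (.node (.cons (.leaf 1 [(3,1),(8,1),(2,1)]) (.cons (.keep [5,6,7,8,9,10] (.node (.cons (.leaf 1 [(3,1)]) (.cons (.leaf 1 [(3,1)]) (.cons (.leaf 1 []) .nil))))) (.cons (.leaf 1 [(10,1)]) .nil))))) .nil))))) .nil))))) (.cons (.keep [1,3,5,6] (.node (.cons (.leaf 1 [(8,1),(2,1)]) (.cons (.keep [3,5,6,7,8] (.node (.cons (.keep [5,6,7,8,9] (.node (.cons (.leaf 2 [(2,1),(6,1),(9,1)]) (.cons (.keep [5,6,7,8,9] (.node (.cons (.leaf 1 [(3,1)]) (.cons (.leaf 1 [(3,1)]) (.cons (.leaf 1 []) .nil))))) (.cons (.leaf 1 [(5,1),(6,1),(9,1)]) .nil))))) (.cons (.leaf 2 [(9,1),(3,1),(1,1)])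 (.cons (.keep [0,1,5,6,7,9] (.node (.cons (.leaf 1 [(3,1),(8,1),(2,1)]) (.cons (.keep [5,6,7,8,9,10] (.node (.cons (.leaf 1 [(3,1)]) (.cons (.leaf 1 [(3,1)]) (.cons (.leaf 1 []) .nil))))) (.cons (.leaf 1 [(10,1)]) .nil))))) .nil))))) (.cons (.keep [0,2,5,6,8] (.node (.cons (.keep [3,5,6,8,9] (.node (.cons (.leaf 1 [(3,1),(7,1),(2,1)]) (.cons (.keep [5,6,7,8,9] (.node (.cons (.leaf 1 [(3,1)]) (.cons (.leaf 1 [(3,1)]) (.cons (.leaf 1 []) .nil))))) (.cons (.leaf 1 [(5,1),(9,1)]) .nil))))) (.cons (.leaf 2 [(9,1),(3,1),(1,1)]) (.cons (.keep [0,1,5,6,8,9] (.node (.cons (.leaf 1 [(3,1),(8,1),(2,1)]) (.cons (.keep [5,6,7,8,9,10] (.node (.cons (.leaf 1 [(3,1)]) (.cons (.leaf 1 [(3,1)]) (.cons (.leaf 1 []) .nil))))) (.cons (.leaf 1 [(10,1)]) .nil))))) .nil))))) .nil))))) (.cons (.keep [0,1,2,5,6,7] (.node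 (.cons (.leaf 1 [(2,1),(9,1)]) (.cons (.keep [3,5,6,8,10] (.node (.cons (.leaf 1 [(3,1)]) (.cons (.leaf 1 [(3,1)]) (.cons (.leaf 1 []) .nil))))) (.cons (.keep [0,2,5,6,9] (.node (.cons (.leaf 1 [(3,1)]) (.cons (.leaf 1 [(3,1)]) (.cons (.leaf 1 []) .nil))))) .nil))))) .nil))))) .nil))))) (.cons (.leaf 1 []) .nil)))))

theorem e_22_16 : ESB (caseOf 4 22 16) := esb_of_pieces _ (hP_cons c_22_16_3 (hP_cons c_22_16_1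
  (hP_cons c_22_16_2 hP_nil))) t_22_16 (by decide +kernel)

def z_22_17_0 : F := ⟨0, 1, 0, -1, 1⟩

def h_22_17_0 : List F := [⟨0, 1, 0, -1, 0⟩, ⟨0, 0, 0, 1, 0⟩, ⟨-1, 1, 0, -1, 1⟩, ⟨0, 0, 0, -1, 1⟩,
  ⟨0, 1, -1, -1, 1⟩]

def t_22_17_0 : T := (.node (.cons (.keep [5,6,7,8,10] (.node (.cons (.keep [2,5,6,8,9] (.node (.cons (.leaf 1 []) (.cons (.leaf 1 [(4,1)]) (.cons (.leaf 1 [(9,1),(8,1)]) (.cons (.leaf 1 [(9,1),(8,1),(4,1)]) (.cons (.leaf 1 [(9,1),(5,1)]) (.cons (.leaf 1 [(9,1)]) .nil)))))))) (.cons (.keep [4,6,7,8,10] (.node (.cons (.leaf 1 [(6,1)]) (.cons (.leaf 1 [(6,1),(4,1)]) (.cons (.leaf 1 [(9,1),(7,1),(6,1)]) (.cons (.leaf 1 [(9,1),(7,1),(6,1),(4,1)]) (.cons (.leaf 1 [(9,1),(6,1),(5,1)]) (.cons (.leaf 1 [(9,1),(6,1)]) .nil)))))))) (.cons (.leaf 1 []) (.cons (.leaf 1 [(4,1)]) (.cons (.leaf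 1 [(8,1),(5,1)]) (.cons (.leaf 1 [(8,1)]) .nil)))))))) (.cons (.keep [3,7,8,9,10] (.node (.cons (.keep [5,6,7,8,9] (.node (.cons (.leaf 1 []) (.cons (.leaf 1 [(4,1)]) (.cons (.keep [1,5,6,8,10] (.node (.cons (.leaf 1 []) (.cons (.keep [3,4,7,8,10] (.node (.cons (.leaf 1 [(6,1),(9,1)]) (.cons (.leaf 1 [(6,1),(9,1),(4,1)]) (.cons (.leaf 1 [(6,1),(8,1)]) (.cons (.leaf 1 [(6,1),(8,1),(4,1)]) (.cons (.leaf 1 [(5,1),(6,1)]) (.cons (.leaf 1 [(6,1)]) .nil)))))))) (.cons (.leaf 1 [(1,1)]) (.cons (.leaf 1 [(1,1),(3,1),(8,1)]) (.cons (.leaf 1 [(1,1)]) (.cons (.keep [0,1,6,7,8] (.node (.cons (.leaf 1 [(10,1)]) (.cons (.leaf 1 [(10,1),(4,1)]) (.cons (.leaf 1 [(9,1)]) (.cons (.leaf 1 [(9,1),(4,1)]) (.cons (.leaf 1 [(5,1)]) (.cons (.leaf 1 []) .nil)))))))) .nil)))))))) (.cons (.keep [3,4,6,7,8,10] (.node (.cons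 (.leaf 1 [(7,1)]) (.cons (.keep [0,3,6,7,8,11] (.node (.cons (.leaf 1 [(7,1),(9,1),(10,1)]) (.cons (.leaf 1 [(7,1),(9,1),(10,1),(4,1)]) (.cons (.leaf 1 [(7,1)]) (.cons (.leaf 1 [(7,1),(4,1)]) (.cons (.leaf 1 [(9,1),(5,1),(7,1)]) (.cons (.leaf 1 [(9,1),(7,1)]) .nil)))))))) (.cons (.leaf 1 [(1,1),(7,1)]) (.cons (.leaf 1 [(1,1),(3,1),(7,1),(8,1)]) (.cons (.leaf 1 [(1,1),(7,1)]) (.cons (.keep [0,1,6,7,8] (.node (.cons (.leaf 1 [(10,1),(9,1)]) (.cons (.leaf 1 [(10,1),(9,1),(4,1)]) (.cons (.leaf 1 []) (.cons (.leaf 1 [(4,1)]) (.cons (.leaf 1 [(9,1),(5,1)]) (.cons (.leaf 1 [(9,1)]) .nil)))))))) .nil)))))))) (.cons (.leaf 1 [(8,1),(5,1)]) (.cons (.leaf 1 [(8,1)]) .nil)))))))) (.cons (.keep [4,6,7,8,10] (.node (.cons (.leaf 1 [(6,1)]) (.cons (.leaf 1 [(6,1),(4,1)]) (.cons (.keep [1,5,6,8,10] (.node (.cons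 (.leaf 1 [(8,1)]) (.cons (.keep [3,4,7,8,10] (.node (.cons (.leaf 1 [(6,1)]) (.cons (.leaf 1 [(6,1),(4,1)]) (.cons (.leaf 1 [(9,1),(6,1),(8,1)]) (.cons (.leaf 1 [(9,1),(6,1),(8,1),(4,1)]) (.cons (.leaf 1 [(9,1),(5,1),(6,1)]) (.cons (.leaf 1 [(9,1),(6,1)]) .nil)))))))) (.cons (.leaf 1 [(1,1),(8,1)]) (.cons (.leaf 1 [(1,1),(3,1)]) (.cons (.leaf 1 [(1,1),(8,1)]) (.cons (.keep [0,1,6,7,8] (.node (.cons (.leaf 1 []) (.cons (.leaf 1 [(4,1)]) (.cons (.leaf 1 [(10,1),(9,1)]) (.cons (.leaf 1 [(10,1),(9,1),(4,1)]) (.cons (.leaf 1 [(10,1),(5,1)]) (.cons (.leaf 1 [(10,1)]) .nil)))))))) .nil)))))))) (.cons (.keep [3,4,6,7,8,10] (.node (.cons (.leaf 1 [(8,1),(7,1)]) (.cons (.keep [0,3,6,7,8,11] (.node (.cons (.leaf 1 [(7,1),(9,1)]) (.cons (.leaf 1 [(7,1),(9,1),(4,1)]) (.cons (.leaf 1 [(10,1),(7,1)]) (.cons (.leaf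 1 [(10,1),(7,1),(4,1)]) (.cons (.leaf 1 [(10,1),(9,1),(5,1),(7,1)]) (.cons (.leaf 1 [(10,1),(9,1),(7,1)]) .nil)))))))) (.cons (.leaf 1 [(1,2),(6,1),(7,2)]) (.cons (.leaf 1 [(1,1),(3,1),(7,1)]) (.cons (.leaf 1 [(1,1),(8,1),(7,1)]) (.cons (.keep [0,1,6,7,8] (.node (.cons (.leaf 1 [(9,1)]) (.cons (.leaf 1 [(9,1),(4,1)]) (.cons (.leaf 1 [(10,1)]) (.cons (.leaf 1 [(10,1),(4,1)]) (.cons (.leaf 1 [(10,1),(9,1),(5,1)]) (.cons (.leaf 1 [(10,1),(9,1)]) .nil)))))))) .nil)))))))) (.cons (.leaf 1 [(8,1),(6,1),(5,1)]) (.cons (.leaf 1 [(8,1),(6,1)]) .nil)))))))) (.cons (.leaf 1 []) (.cons (.leaf 1 [(4,1)]) (.cons (.leaf 1 [(7,1),(5,1)]) (.cons (.leaf 1 [(7,1)]) .nil)))))))) (.cons (.keep [1,5,6,7,8] (.node (.cons (.keep [2,5,7,9,10] (.node (.cons (.leaf 1 []) (.cons (.leaf 1 [(4,1)]) (.cons (.leaf 1 [(9,1),(8,1)])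 (.cons (.leaf 1 [(9,1),(8,1),(4,1)]) (.cons (.leaf 1 [(9,1),(5,1)]) (.cons (.leaf 1 [(9,1)]) .nil)))))))) (.cons (.keep [4,7,8,9,10] (.node (.cons (.leaf 1 [(6,1)]) (.cons (.leaf 1 [(6,1),(4,1)]) (.cons (.leaf 1 [(9,1),(7,1),(6,1)]) (.cons (.leaf 1 [(9,1),(7,1),(6,1),(4,1)]) (.cons (.leaf 1 [(9,1),(6,1),(5,1)]) (.cons (.leaf 1 [(9,1),(6,1)]) .nil)))))))) (.cons (.leaf 1 []) (.cons (.leaf 1 [(4,1)]) (.cons (.leaf 1 [(9,1),(5,1)]) (.cons (.leaf 1 [(9,1)]) .nil)))))))) (.cons (.keep [1,3,7,8,10] (.node (.cons (.keep [5,7,8,9,10] (.node (.cons (.leaf 1 []) (.cons (.leaf 1 [(4,1)]) (.cons (.keep [1,5,6,8,10] (.node (.cons (.leaf 1 []) (.cons (.keep [3,4,7,8,10] (.node (.cons (.leaf 1 [(6,1),(9,1)]) (.cons (.leaf 1 [(6,1),(9,1),(4,1)]) (.cons (.leaf 1 [(6,1),(8,1)]) (.cons (.leaf 1 [(6,1),(8,1),(4,1)])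 (.cons (.leaf 1 [(5,1),(6,1)]) (.cons (.leaf 1 [(6,1)]) .nil)))))))) (.cons (.leaf 1 [(1,1)]) (.cons (.leaf 1 [(1,1),(3,1),(8,1)]) (.cons (.leaf 1 [(1,1)]) (.cons (.keep [0,1,6,7,8] (.node (.cons (.leaf 1 [(10,1)]) (.cons (.leaf 1 [(10,1),(4,1)]) (.cons (.leaf 1 [(9,1)]) (.cons (.leaf 1 [(9,1),(4,1)]) (.cons (.leaf 1 [(5,1)]) (.cons (.leaf 1 []) .nil)))))))) .nil)))))))) (.cons (.keep [3,4,6,7,8,10] (.node (.cons (.leaf 1 [(7,1)]) (.cons (.keep [0,3,6,7,8,11] (.node (.cons (.leaf 1 [(7,1),(9,1),(10,1)]) (.cons (.leaf 1 [(7,1),(9,1),(10,1),(4,1)]) (.cons (.leaf 1 [(7,1)]) (.cons (.leaf 1 [(7,1),(4,1)]) (.cons (.leaf 1 [(9,1),(5,1),(7,1)]) (.cons (.leaf 1 [(9,1),(7,1)]) .nil)))))))) (.cons (.leaf 1 [(1,1),(7,1)]) (.cons (.leaf 1 [(1,1),(3,1),(7,1),(8,1)]) (.cons (.leaf 1 [(1,1),(7,1)]) (.cons (.keep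 [0,1,6,7,8] (.node (.cons (.leaf 1 [(10,1),(9,1)]) (.cons (.leaf 1 [(10,1),(9,1),(4,1)]) (.cons (.leaf 1 []) (.cons (.leaf 1 [(4,1)]) (.cons (.leaf 1 [(9,1),(5,1)]) (.cons (.leaf 1 [(9,1)]) .nil)))))))) .nil)))))))) (.cons (.leaf 1 [(8,1),(5,1)]) (.cons (.leaf 1 [(8,1)]) .nil)))))))) (.cons (.keep [4,7,8,9,10] (.node (.cons (.leaf 1 [(6,1)]) (.cons (.leaf 1 [(6,1),(4,1)]) (.cons (.keep [5,6,8,9,10] (.node (.cons (.leaf 1 [(7,1)]) (.cons (.keep [3,6,7,9,10] (.node (.cons (.leaf 1 [(6,1)]) (.cons (.leaf 1 [(6,1),(4,1)]) (.cons (.leaf 1 [(8,1),(6,1),(7,1)]) (.cons (.leaf 1 [(8,1),(6,1),(7,1),(4,1)]) (.cons (.leaf 1 [(8,1),(5,1),(6,1)]) (.cons (.leaf 1 [(8,1),(6,1)]) .nil)))))))) (.cons (.leaf 1 [(1,1),(7,1)]) (.cons (.leaf 1 [(1,1),(3,1)]) (.cons (.leaf 1 [(1,1),(7,1)]) (.cons (.keep [0,1,6,7,9] (.node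 (.cons (.leaf 1 []) (.cons (.leaf 1 [(4,1)]) (.cons (.leaf 1 [(9,1),(8,1)]) (.cons (.leaf 1 [(9,1),(8,1),(4,1)]) (.cons (.leaf 1 [(9,1),(5,1)]) (.cons (.leaf 1 [(9,1)]) .nil)))))))) .nil)))))))) (.cons (.keep [4,6,7,8,9,10] (.node (.cons (.leaf 1 [(7,1),(6,1)]) (.cons (.keep [3,6,7,8,10,11] (.node (.cons (.leaf 1 [(6,1),(7,1)]) (.cons (.leaf 1 [(6,1),(7,1),(4,1)]) (.cons (.leaf 1 [(8,1),(6,1)]) (.cons (.leaf 1 [(8,1),(6,1),(4,1)]) (.cons (.leaf 1 [(8,1),(7,1),(5,1),(6,1)]) (.cons (.leaf 1 [(8,1),(7,1),(6,1)]) .nil)))))))) (.cons (.leaf 1 [(1,1),(7,1),(6,1)]) (.cons (.leaf 1 [(1,1),(3,1),(6,1)]) (.cons (.leaf 1 [(1,1),(7,1),(6,1)]) (.cons (.keep [0,1,6,7,10] (.node (.cons (.leaf 1 [(8,1)]) (.cons (.leaf 1 [(8,1),(4,1)]) (.cons (.leaf 1 [(9,1)]) (.cons (.leaf 1 [(9,1),(4,1)]) (.cons (.leaf 1 [(9,1),(8,1),(5,1)])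 (.cons (.leaf 1 [(9,1),(8,1)]) .nil)))))))) .nil)))))))) (.cons (.leaf 1 [(8,1),(6,1),(5,1)]) (.cons (.leaf 1 [(8,1),(6,1)]) .nil)))))))) (.cons (.leaf 1 []) (.cons (.leaf 1 [(4,1)]) (.cons (.leaf 1 [(8,1),(5,1)]) (.cons (.leaf 1 [(8,1)]) .nil)))))))) (.cons (.leaf 1 [(5,1),(7,1),(1,1)]) (.cons (.keep [0,1,6,7,10] (.node (.cons (.keep [2,5,6,7,9] (.node (.cons (.leaf 1 []) (.cons (.leaf 1 [(4,1)]) (.cons (.keep [1,5,7,8,10] (.node (.cons (.leaf 1 []) (.cons (.keep [3,4,7,8,9] (.node (.cons (.leaf 1 [(6,1),(9,1)]) (.cons (.leaf 1 [(6,1),(9,1),(4,1)]) (.cons (.leaf 1 [(6,1),(8,1)]) (.cons (.leaf 1 [(6,1),(8,1),(4,1)]) (.cons (.leaf 1 [(5,1),(6,1)]) (.cons (.leaf 1 [(6,1)]) .nil)))))))) (.cons (.leaf 1 [(1,1)]) (.cons (.leaf 1 [(1,1),(3,1),(8,1)]) (.cons (.leaf 1 [(1,1)]) (.cons (.keep [0,1,6,7,8]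 (.node (.cons (.leaf 1 [(10,1)]) (.cons (.leaf 1 [(10,1),(4,1)]) (.cons (.leaf 1 [(9,1)]) (.cons (.leaf 1 [(9,1),(4,1)]) (.cons (.leaf 1 [(5,1)]) (.cons (.leaf 1 []) .nil)))))))) .nil)))))))) (.cons (.keep [4,6,7,8,10] (.node (.cons (.leaf 1 [(6,1)]) (.cons (.keep [3,6,7,8,9] (.node (.cons (.leaf 1 [(6,1),(7,1),(9,1)]) (.cons (.leaf 1 [(6,1),(7,1),(9,1),(4,1)]) (.cons (.leaf 1 [(6,1)]) (.cons (.leaf 1 [(6,1),(4,1)]) (.cons (.leaf 1 [(7,1),(5,1),(6,1)]) (.cons (.leaf 1 [(7,1),(6,1)]) .nil)))))))) (.cons (.leaf 1 [(1,1),(6,1)]) (.cons (.leaf 1 [(1,1),(3,1),(6,1),(8,1)]) (.cons (.leaf 1 [(1,1),(6,1)]) (.cons (.keep [0,1,6,7,8] (.node (.cons (.leaf 1 [(10,1),(8,1)]) (.cons (.leaf 1 [(10,1),(8,1),(4,1)]) (.cons (.leaf 1 []) (.cons (.leaf 1 [(4,1)]) (.cons (.leaf 1 [(8,1),(5,1)]) (.cons (.leaf 1 [(8,1)])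 .nil)))))))) .nil)))))))) (.cons (.leaf 1 [(10,1),(5,1)]) (.cons (.leaf 1 [(10,1)]) .nil)))))))) (.cons (.keep [4,6,7,8,9,10] (.node (.cons (.leaf 1 [(6,1)]) (.cons (.leaf 1 [(6,1),(4,1)]) (.cons (.keep [5,6,7,9,10] (.node (.cons (.leaf 1 [(7,1)]) (.cons (.keep [3,6,7,8,9] (.node (.cons (.leaf 1 [(6,1)]) (.cons (.leaf 1 [(6,1),(4,1)]) (.cons (.leaf 1 [(8,1),(6,1),(7,1)]) (.cons (.leaf 1 [(8,1),(6,1),(7,1),(4,1)]) (.cons (.leaf 1 [(8,1),(5,1),(6,1)]) (.cons (.leaf 1 [(8,1),(6,1)]) .nil)))))))) (.cons (.leaf 1 [(1,1),(7,1)]) (.cons (.leaf 1 [(1,1),(3,1)]) (.cons (.leaf 1 [(1,1),(7,1)]) (.cons (.keep [0,1,6,7,9] (.node (.cons (.leaf 1 []) (.cons (.leaf 1 [(4,1)]) (.cons (.leaf 1 [(9,1),(8,1)]) (.cons (.leaf 1 [(9,1),(8,1),(4,1)]) (.cons (.leaf 1 [(9,1),(5,1)]) (.cons (.leaf 1 [(9,1)]) .nil))))))))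 .nil)))))))) (.cons (.keep [6,7,8,9,10,11] (.node (.cons (.leaf 1 [(8,1)]) (.cons (.keep [3,6,7,8,9,11] (.node (.cons (.leaf 1 [(6,2),(9,1),(11,1)]) (.cons (.leaf 1 [(6,2),(9,1),(11,1),(4,1)]) (.cons (.leaf 1 [(7,1),(6,1)]) (.cons (.leaf 1 [(7,1),(6,1),(4,1)]) (.cons (.leaf 1 [(9,1),(5,1),(6,1)]) (.cons (.leaf 1 [(9,1),(6,1)]) .nil)))))))) (.cons (.leaf 1 [(1,1),(8,1)]) (.cons (.leaf 1 [(1,1),(3,2),(8,1),(11,1)]) (.cons (.leaf 1 [(1,1),(8,1)]) (.cons (.keep [0,1,6,8,9,11] (.node (.cons (.leaf 1 [(9,1),(11,1)]) (.cons (.leaf 1 [(9,1),(11,1),(4,1)]) (.cons (.leaf 1 [(8,1)]) (.cons (.leaf 1 [(8,1),(4,1)]) (.cons (.leaf 1 [(9,1),(5,1)]) (.cons (.leaf 1 [(9,1)]) .nil)))))))) .nil)))))))) (.cons (.leaf 1 [(10,1),(6,1),(5,1)]) (.cons (.leaf 1 [(10,1),(6,1)]) .nil)))))))) (.cons (.leaf 1 []) (.cons (.leaf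 1 [(4,1)]) (.cons (.leaf 1 [(9,1),(5,1)]) (.cons (.leaf 1 [(9,1)]) .nil)))))))) .nil)))))))

theorem c_22_17_0 : Concl 22 17 z_22_17_0 h_22_17_0 .nd := piece _ hP_nil t_22_17_0 _ _ (by
  decide +kernel)

def z_22_17_1 : F := ⟨0, 1, 0, 0, 1⟩

def h_22_17_1 : List F := [⟨0, 1, 0, -1, 1⟩, ⟨-1, 1, 0, 0, 0⟩, ⟨0, 0, 0, -1, 0⟩, ⟨0, 1, -1, 0, 1⟩]

def t_22_17_1 : T := (.node (.cons (.keep [0,2,5,6,8] (.node (.cons (.keep [0,2,5,6,8,10] (.node (.cons (.leaf 1 [(11,1)]) (.cons (.leaf 1 [(11,1),(4,1)]) (.cons (.leaf 1 [(10,1)]) (.cons (.leaf 1 [(10,1),(4,1)]) (.cons (.leaf 1 [(5,1)]) (.cons (.leaf 1 []) .nil)))))))) (.cons (.keep [3,4,7,8,10] (.node (.cons (.leaf 1 [(10,1),(7,1)]) (.cons (.leaf 1 [(10,1),(7,1),(4,1)]) (.cons (.leaf 1 [(9,1),(7,1)]) (.cons (.leaf 1 [(9,1),(7,1),(4,1)]) (.cons (.leaf 1 [(7,1),(5,1)])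 (.cons (.leaf 1 [(7,1)]) .nil)))))))) (.cons (.leaf 1 [(10,1)]) (.cons (.leaf 1 [(10,1),(4,1)]) (.cons (.leaf 1 [(5,1)]) (.cons (.leaf 1 []) .nil)))))))) (.cons (.keep [0,2,4,8] (.node (.cons (.keep [5,6,8,9] (.node (.cons (.leaf 1 [(9,1)]) (.cons (.leaf 1 [(9,1),(4,1)]) (.cons (.keep [5,6,8,9] (.node (.cons (.leaf 1 [(9,1)]) (.cons (.keep [0,6,7,8,9] (.node (.cons (.leaf 1 [(8,1)]) (.cons (.leaf 1 [(8,1),(4,1)]) (.cons (.leaf 1 [(7,1)]) (.cons (.leaf 1 [(7,1),(4,1)]) (.cons (.leaf 1 [(5,1)]) (.cons (.leaf 1 []) .nil)))))))) (.cons (.leaf 1 [(7,1),(1,1)]) (.cons (.leaf 1 [(7,1),(1,1)]) (.cons (.leaf 1 [(5,1),(1,1)]) (.cons (.keep [0,1,6,7,8] (.node (.cons (.leaf 1 [(9,1)]) (.cons (.leaf 1 [(9,1),(4,1)]) (.cons (.leaf 1 [(8,1)]) (.cons (.leaf 1 [(8,1),(4,1)]) (.cons (.leaf 1 [(5,1)]) (.cons (.leaf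 1 []) .nil)))))))) .nil)))))))) (.cons (.keep [4,6,7,8,9] (.node (.cons (.leaf 1 [(10,1),(6,1)]) (.cons (.keep [3,6,7,8,9,10] (.node (.cons (.leaf 1 [(8,1),(7,1)]) (.cons (.leaf 1 [(8,1),(7,1),(4,1)]) (.cons (.leaf 1 []) (.cons (.leaf 1 [(4,1)]) (.cons (.leaf 1 [(7,1),(5,1)]) (.cons (.leaf 1 [(7,1)]) .nil)))))))) (.cons (.leaf 1 [(7,1),(1,1),(6,1)]) (.cons (.leaf 1 [(7,1),(1,1),(6,1)]) (.cons (.leaf 1 [(5,1),(6,1),(1,1)]) (.cons (.keep [0,1,6,7,9] (.node (.cons (.leaf 1 [(9,1),(8,1)]) (.cons (.leaf 1 [(9,1),(8,1),(4,1)]) (.cons (.leaf 1 []) (.cons (.leaf 1 [(4,1)]) (.cons (.leaf 1 [(8,1),(5,1)]) (.cons (.leaf 1 [(8,1)]) .nil)))))))) .nil)))))))) (.cons (.leaf 1 [(5,1)]) (.cons (.leaf 1 []) .nil)))))))) (.cons (.keep [4,6,7,8,9] (.node (.cons (.leaf 1 [(10,1),(6,1)]) (.cons (.leaf 1 [(10,1),(6,1),(4,1)])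 (.cons (.keep [5,6,7,9,10] (.node (.cons (.leaf 1 [(10,1),(7,1)]) (.cons (.keep [3,6,7,8,9,10] (.node (.cons (.leaf 1 []) (.cons (.leaf 1 [(4,1)]) (.cons (.leaf 1 [(8,1),(7,1)]) (.cons (.leaf 1 [(8,1),(7,1),(4,1)]) (.cons (.leaf 1 [(8,1),(5,1)]) (.cons (.leaf 1 [(8,1)]) .nil)))))))) (.cons (.leaf 1 [(1,1)]) (.cons (.leaf 1 [(1,1)]) (.cons (.leaf 1 [(5,1),(7,1),(1,1)]) (.cons (.keep [0,1,6,7,9] (.node (.cons (.leaf 1 []) (.cons (.leaf 1 [(4,1)]) (.cons (.leaf 1 [(9,1),(8,1)]) (.cons (.leaf 1 [(9,1),(8,1),(4,1)]) (.cons (.leaf 1 [(9,1),(5,1)]) (.cons (.leaf 1 [(9,1)]) .nil)))))))) .nil)))))))) (.cons (.keep [4,6,7,9,10] (.node (.cons (.leaf 1 [(10,1),(7,1),(6,1)]) (.cons (.keep [3,6,7,8,9,10] (.node (.cons (.leaf 1 [(7,1)]) (.cons (.leaf 1 [(7,1),(4,1)]) (.cons (.leaf 1 [(8,1)]) (.cons (.leaf 1 [(8,1),(4,1)])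 (.cons (.leaf 1 [(8,1),(7,1),(5,1)]) (.cons (.leaf 1 [(8,1),(7,1)]) .nil)))))))) (.cons (.leaf 1 [(1,1),(6,1)]) (.cons (.leaf 1 [(1,1),(6,1)]) (.cons (.leaf 1 [(5,1),(7,1),(6,1),(1,1)]) (.cons (.keep [0,1,6,7,9] (.node (.cons (.leaf 1 [(8,1)]) (.cons (.leaf 1 [(8,1),(4,1)]) (.cons (.leaf 1 [(9,1)]) (.cons (.leaf 1 [(9,1),(4,1)]) (.cons (.leaf 1 [(9,1),(8,1),(5,1)]) (.cons (.leaf 1 [(9,1),(8,1)]) .nil)))))))) .nil)))))))) (.cons (.leaf 1 [(6,1),(5,1)]) (.cons (.leaf 1 [(6,1)]) .nil)))))))) (.cons (.leaf 1 [(9,1)]) (.cons (.leaf 1 [(9,1),(4,1)]) (.cons (.leaf 1 [(5,1)]) (.cons (.leaf 1 []) .nil)))))))) (.cons (.keep [1,3,5,6,7,8] (.node (.cons (.keep [0,2,5,7,8,11] (.node (.cons (.leaf 1 [(11,1)]) (.cons (.leaf 1 [(11,1),(4,1)]) (.cons (.leaf 1 [(10,1)]) (.cons (.leaf 1 [(10,1),(4,1)]) (.cons (.leaf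 1 [(5,1)]) (.cons (.leaf 1 []) .nil)))))))) (.cons (.keep [3,4,8,10,11] (.node (.cons (.leaf 1 [(10,1),(7,1)]) (.cons (.leaf 1 [(10,1),(7,1),(4,1)]) (.cons (.leaf 1 [(8,1),(7,1)]) (.cons (.leaf 1 [(8,1),(7,1),(4,1)]) (.cons (.leaf 1 [(7,1),(5,1)]) (.cons (.leaf 1 [(7,1)]) .nil)))))))) (.cons (.leaf 1 [(11,1)]) (.cons (.leaf 1 [(11,1),(4,1)]) (.cons (.leaf 1 [(5,1)]) (.cons (.leaf 1 []) .nil)))))))) (.cons (.keep [1,3,7,8,9] (.node (.cons (.keep [5,7,8,9] (.node (.cons (.leaf 1 [(9,1)]) (.cons (.leaf 1 [(9,1),(4,1)]) (.cons (.keep [5,6,8,9] (.node (.cons (.leaf 1 [(9,1)]) (.cons (.keep [0,6,7,8,9] (.node (.cons (.leaf 1 [(8,1)]) (.cons (.leaf 1 [(8,1),(4,1)]) (.cons (.leaf 1 [(7,1)]) (.cons (.leaf 1 [(7,1),(4,1)]) (.cons (.leaf 1 [(5,1)]) (.cons (.leaf 1 []) .nil)))))))) (.cons (.leaf 1 [(7,1),(1,1)])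 (.cons (.leaf 1 [(7,1),(1,1)]) (.cons (.leaf 1 [(5,1),(1,1)]) (.cons (.keep [0,1,6,7,8] (.node (.cons (.leaf 1 [(9,1)]) (.cons (.leaf 1 [(9,1),(4,1)]) (.cons (.leaf 1 [(8,1)]) (.cons (.leaf 1 [(8,1),(4,1)]) (.cons (.leaf 1 [(5,1)]) (.cons (.leaf 1 []) .nil)))))))) .nil)))))))) (.cons (.keep [4,6,7,8,9] (.node (.cons (.leaf 1 [(10,1),(6,1)]) (.cons (.keep [3,6,7,8,9,10] (.node (.cons (.leaf 1 [(8,1),(7,1)]) (.cons (.leaf 1 [(8,1),(7,1),(4,1)]) (.cons (.leaf 1 []) (.cons (.leaf 1 [(4,1)]) (.cons (.leaf 1 [(7,1),(5,1)]) (.cons (.leaf 1 [(7,1)]) .nil)))))))) (.cons (.leaf 1 [(7,1),(1,1),(6,1)]) (.cons (.leaf 1 [(7,1),(1,1),(6,1)]) (.cons (.leaf 1 [(5,1),(6,1),(1,1)]) (.cons (.keep [0,1,6,7,9] (.node (.cons (.leaf 1 [(9,1),(8,1)]) (.cons (.leaf 1 [(9,1),(8,1),(4,1)]) (.cons (.leaf 1 []) (.cons (.leaf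 1 [(4,1)]) (.cons (.leaf 1 [(8,1),(5,1)]) (.cons (.leaf 1 [(8,1)]) .nil)))))))) .nil)))))))) (.cons (.leaf 1 [(5,1)]) (.cons (.leaf 1 []) .nil)))))))) (.cons (.keep [4,7,8,9,10] (.node (.cons (.leaf 1 [(9,1),(6,1)]) (.cons (.leaf 1 [(9,1),(6,1),(4,1)]) (.cons (.keep [5,6,8,9,10] (.node (.cons (.leaf 1 [(9,1),(7,1)]) (.cons (.keep [3,4,6,7,9,10] (.node (.cons (.leaf 1 []) (.cons (.leaf 1 [(4,1)]) (.cons (.leaf 1 [(9,1),(8,1)]) (.cons (.leaf 1 [(9,1),(8,1),(4,1)]) (.cons (.leaf 1 [(9,1),(5,1)]) (.cons (.leaf 1 [(9,1)]) .nil)))))))) (.cons (.leaf 1 [(1,1)]) (.cons (.leaf 1 [(1,1)]) (.cons (.leaf 1 [(5,1),(7,1),(1,1)]) (.cons (.keep [0,1,6,7,8] (.node (.cons (.leaf 1 []) (.cons (.leaf 1 [(4,1)]) (.cons (.leaf 1 [(9,1),(8,1)]) (.cons (.leaf 1 [(9,1),(8,1),(4,1)]) (.cons (.leaf 1 [(9,1),(5,1)]) (.cons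 (.leaf 1 [(9,1)]) .nil)))))))) .nil)))))))) (.cons (.keep [4,6,7,8,9,10] (.node (.cons (.leaf 1 [(10,1),(7,1),(6,1)]) (.cons (.keep [3,4,6,7,8,10,11] (.node (.cons (.leaf 1 [(8,1)]) (.cons (.leaf 1 [(8,1),(4,1)]) (.cons (.leaf 1 [(9,1)]) (.cons (.leaf 1 [(9,1),(4,1)]) (.cons (.leaf 1 [(9,1),(8,1),(5,1)]) (.cons (.leaf 1 [(9,1),(8,1)]) .nil)))))))) (.cons (.leaf 1 [(1,1),(6,1)]) (.cons (.leaf 1 [(1,1),(6,1)]) (.cons (.leaf 1 [(5,1),(7,1),(6,1),(1,1)]) (.cons (.keep [0,1,6,7,9] (.node (.cons (.leaf 1 [(8,1)]) (.cons (.leaf 1 [(8,1),(4,1)]) (.cons (.leaf 1 [(9,1)]) (.cons (.leaf 1 [(9,1),(4,1)]) (.cons (.leaf 1 [(9,1),(8,1),(5,1)]) (.cons (.leaf 1 [(9,1),(8,1)]) .nil)))))))) .nil)))))))) (.cons (.leaf 1 [(6,1),(5,1)]) (.cons (.leaf 1 [(6,1)]) .nil)))))))) (.cons (.leaf 1 [(9,1)]) (.cons (.leaf 1 [(9,1),(4,1)])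 (.cons (.leaf 1 [(5,1)]) (.cons (.leaf 1 []) .nil)))))))) (.cons (.leaf 1 [(5,1),(1,1)]) (.cons (.keep [0,1,7,8,9] (.node (.cons (.keep [5,6,7,8,9] (.node (.cons (.leaf 1 [(10,1)]) (.cons (.leaf 1 [(10,1),(4,1)]) (.cons (.keep [5,6,9,10] (.node (.cons (.leaf 1 [(9,1)]) (.cons (.keep [0,6,7,8,9] (.node (.cons (.leaf 1 [(8,1)]) (.cons (.leaf 1 [(8,1),(4,1)]) (.cons (.leaf 1 [(7,1)]) (.cons (.leaf 1 [(7,1),(4,1)]) (.cons (.leaf 1 [(5,1)]) (.cons (.leaf 1 []) .nil)))))))) (.cons (.leaf 1 [(7,1),(1,1)]) (.cons (.leaf 1 [(7,1),(1,1)]) (.cons (.leaf 1 [(5,1),(1,1)]) (.cons (.keep [0,1,6,7,8] (.node (.cons (.leaf 1 [(9,1)]) (.cons (.leaf 1 [(9,1),(4,1)]) (.cons (.leaf 1 [(8,1)]) (.cons (.leaf 1 [(8,1),(4,1)]) (.cons (.leaf 1 [(5,1)]) (.cons (.leaf 1 []) .nil)))))))) .nil)))))))) (.cons (.keep [3,4,6,7,10]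 (.node (.cons (.leaf 1 [(10,1),(7,1)]) (.cons (.keep [3,6,7,8,9,10] (.node (.cons (.leaf 1 [(9,1),(8,1)]) (.cons (.leaf 1 [(9,1),(8,1),(4,1)]) (.cons (.leaf 1 []) (.cons (.leaf 1 [(4,1)]) (.cons (.leaf 1 [(8,1),(5,1)]) (.cons (.leaf 1 [(8,1)]) .nil)))))))) (.cons (.leaf 1 [(8,1),(1,1),(7,1)]) (.cons (.leaf 1 [(8,1),(1,1),(7,1)]) (.cons (.leaf 1 [(5,1),(7,1),(1,1)]) (.cons (.keep [0,1,6,7,8] (.node (.cons (.leaf 1 [(10,1),(9,1)]) (.cons (.leaf 1 [(10,1),(9,1),(4,1)]) (.cons (.leaf 1 []) (.cons (.leaf 1 [(4,1)]) (.cons (.leaf 1 [(9,1),(5,1)]) (.cons (.leaf 1 [(9,1)]) .nil)))))))) .nil)))))))) (.cons (.leaf 1 [(5,1)]) (.cons (.leaf 1 []) .nil)))))))) (.cons (.keep [3,4,6,7,9,10] (.node (.cons (.leaf 1 [(10,1),(7,1)]) (.cons (.leaf 1 [(10,1),(7,1),(4,1)]) (.cons (.keep [5,6,7,8,10] (.node (.cons (.leaf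 1 [(10,1),(8,1)]) (.cons (.keep [3,4,6,8,9,10] (.node (.cons (.leaf 1 []) (.cons (.leaf 1 [(4,1)]) (.cons (.leaf 1 [(9,1),(8,1)]) (.cons (.leaf 1 [(9,1),(8,1),(4,1)]) (.cons (.leaf 1 [(9,1),(5,1)]) (.cons (.leaf 1 [(9,1)]) .nil)))))))) (.cons (.leaf 1 [(1,1)]) (.cons (.leaf 1 [(1,1)]) (.cons (.leaf 1 [(5,1),(8,1),(1,1)]) (.cons (.keep [0,1,6,7,8] (.node (.cons (.leaf 1 []) (.cons (.leaf 1 [(4,1)]) (.cons (.leaf 1 [(10,1),(8,1)]) (.cons (.leaf 1 [(10,1),(8,1),(4,1)]) (.cons (.leaf 1 [(10,1),(5,1)]) (.cons (.leaf 1 [(10,1)]) .nil)))))))) .nil)))))))) (.cons (.keep [6,7,8,9,10,11] (.node (.cons (.leaf 1 [(10,1),(9,1)]) (.cons (.keep [3,6,7,8,9,10,11] (.node (.cons (.leaf 1 [(10,1),(12,1)]) (.cons (.leaf 1 [(10,1),(12,1),(4,1)]) (.cons (.leaf 1 [(8,1)]) (.cons (.leaf 1 [(8,1),(4,1)]) (.cons (.leaf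 1 [(10,1),(5,1)]) (.cons (.leaf 1 [(10,1)]) .nil)))))))) (.cons (.leaf 1 [(1,1),(9,1),(10,1)]) (.cons (.leaf 1 [(1,1),(9,1),(11,1)]) (.cons (.leaf 1 [(5,1),(9,1),(1,1)]) (.cons (.keep [0,1,6,7,9,11] (.node (.cons (.leaf 1 [(10,1),(11,1)]) (.cons (.leaf 1 [(10,1),(11,1),(4,1)]) (.cons (.leaf 1 [(9,1)]) (.cons (.leaf 1 [(9,1),(4,1)]) (.cons (.leaf 1 [(10,1),(5,1)]) (.cons (.leaf 1 [(10,1)]) .nil)))))))) .nil)))))))) (.cons (.leaf 1 [(7,1),(5,1)]) (.cons (.leaf 1 [(7,1)]) .nil)))))))) (.cons (.leaf 1 [(9,1)]) (.cons (.leaf 1 [(9,1),(4,1)]) (.cons (.leaf 1 [(5,1)]) (.cons (.leaf 1 []) .nil)))))))) .nil)))))))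

theorem c_22_17_1 : Concl 22 17 z_22_17_1 h_22_17_1 .nd := piece _ hP_nil t_22_17_1 _ _ (by
  decide +kernel)

def t_22_17 : T := (.keep [0,1,2] (.node (.cons (.keep [0,2,5,8] (.node (.cons (.keep [0,2,5,6,8] (.node (.cons (.keep [0,2,5,6,8,10] (.node (.cons (.leaf 1 [(11,1)]) (.cons (.leaf 1 [(11,1),(4,1)]) (.cons (.leaf 1 [(10,1)]) (.cons (.leaf 1 [(10,1),(4,1)]) (.cons (.leaf 1 [(5,1)]) (.cons (.leaf 1 []) .nil)))))))) (.cons (.keep [3,4,7,8,10] (.node (.cons (.leaf 1 [(10,1),(7,1)]) (.cons (.leaf 1 [(10,1),(7,1),(4,1)]) (.cons (.leaf 1 [(9,1),(7,1)]) (.cons (.leaf 1 [(9,1),(7,1),(4,1)]) (.cons (.leaf 1 [(7,1),(5,1)]) (.cons (.leaf 1 [(7,1)]) .nil)))))))) (.cons (.leaf 1 [(10,1)]) (.cons (.leaf 1 [(10,1),(4,1)]) (.cons (.leaf 1 [(5,1)]) (.cons (.leaf 1 []) .nil)))))))) (.cons (.keep [3,4,7,8,9]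 (.node (.cons (.keep [5,6,7,8,9] (.node (.cons (.leaf 1 [(10,1),(8,1)]) (.cons (.leaf 1 [(10,1),(8,1),(4,1)]) (.cons (.leaf 1 []) (.cons (.leaf 1 [(4,1)]) (.cons (.leaf 1 [(8,1),(5,1)]) (.cons (.leaf 1 [(8,1)]) .nil)))))))) (.cons (.keep [4,6,7,9,10] (.node (.cons (.leaf 1 [(9,1),(8,1),(6,1)]) (.cons (.leaf 1 [(9,1),(8,1),(6,1),(4,1)]) (.cons (.leaf 1 [(6,1)]) (.cons (.leaf 1 [(6,1),(4,1)]) (.cons (.leaf 1 [(8,1),(6,1),(5,1)]) (.cons (.leaf 1 [(8,1),(6,1)]) .nil)))))))) (.cons (.leaf 1 [(9,1),(7,1)]) (.cons (.leaf 1 [(9,1),(7,1),(4,1)]) (.cons (.leaf 1 [(7,1),(5,1)]) (.cons (.leaf 1 [(7,1)]) .nil)))))))) (.cons (.keep [0,1,5,6,8] (.node (.cons (.keep [0,2,5,6,8,10] (.node (.cons (.leaf 1 [(11,1)]) (.cons (.leaf 1 [(11,1),(4,1)]) (.cons (.leaf 1 [(10,1)]) (.cons (.leaf 1 [(10,1),(4,1)]) (.cons (.leaf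 1 [(5,1)]) (.cons (.leaf 1 []) .nil)))))))) (.cons (.keep [0,4,8,10] (.node (.cons (.leaf 1 [(9,1)]) (.cons (.leaf 1 [(9,1),(4,1)]) (.cons (.leaf 1 [(8,1)]) (.cons (.leaf 1 [(8,1),(4,1)]) (.cons (.leaf 1 [(5,1)]) (.cons (.leaf 1 []) .nil)))))))) (.cons (.leaf 1 [(10,1),(1,1)]) (.cons (.leaf 1 [(10,1),(1,1)]) (.cons (.leaf 1 [(5,1),(1,1)]) (.cons (.keep [0,1,7,8,10] (.node (.cons (.leaf 1 [(10,1)]) (.cons (.leaf 1 [(10,1),(4,1)]) (.cons (.leaf 1 [(9,1)]) (.cons (.leaf 1 [(9,1),(4,1)]) (.cons (.leaf 1 [(5,1)]) (.cons (.leaf 1 []) .nil)))))))) .nil)))))))) (.cons (.keep [3,4,7,8,9] (.node (.cons (.keep [5,6,7,8,9] (.node (.cons (.leaf 1 [(10,1),(8,1)]) (.cons (.leaf 1 [(10,1),(8,1),(4,1)]) (.cons (.leaf 1 []) (.cons (.leaf 1 [(4,1)]) (.cons (.leaf 1 [(8,1),(5,1)]) (.cons (.leaf 1 [(8,1)]) .nil))))))))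 (.cons (.keep [3,7,8,9,10] (.node (.cons (.leaf 1 [(9,1),(7,1)]) (.cons (.leaf 1 [(9,1),(7,1),(4,1)]) (.cons (.leaf 1 []) (.cons (.leaf 1 [(4,1)]) (.cons (.leaf 1 [(7,1),(5,1)]) (.cons (.leaf 1 [(7,1)]) .nil)))))))) (.cons (.leaf 1 [(9,1),(1,1),(7,1)]) (.cons (.leaf 1 [(9,1),(1,1),(7,1)]) (.cons (.leaf 1 [(5,1),(7,1),(1,1)]) (.cons (.keep [0,1,6,7,9] (.node (.cons (.leaf 1 [(10,1),(9,1)]) (.cons (.leaf 1 [(10,1),(9,1),(4,1)]) (.cons (.leaf 1 []) (.cons (.leaf 1 [(4,1)]) (.cons (.leaf 1 [(9,1),(5,1)]) (.cons (.leaf 1 [(9,1)]) .nil)))))))) .nil)))))))) (.cons (.leaf 1 [(5,1)]) (.cons (.leaf 1 []) .nil)))))))) (.cons (.keep [3,4,6,7,8] (.node (.cons (.keep [5,6,7,8,10] (.node (.cons (.keep [2,5,6,8,9] (.node (.cons (.leaf 1 []) (.cons (.leaf 1 [(4,1)]) (.cons (.leaf 1 [(9,1),(8,1)]) (.cons (.leaf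 1 [(9,1),(8,1),(4,1)]) (.cons (.leaf 1 [(9,1),(5,1)]) (.cons (.leaf 1 [(9,1)]) .nil)))))))) (.cons (.keep [4,6,7,8,10] (.node (.cons (.leaf 1 [(6,1)]) (.cons (.leaf 1 [(6,1),(4,1)]) (.cons (.leaf 1 [(9,1),(7,1),(6,1)]) (.cons (.leaf 1 [(9,1),(7,1),(6,1),(4,1)]) (.cons (.leaf 1 [(9,1),(6,1),(5,1)]) (.cons (.leaf 1 [(9,1),(6,1)]) .nil)))))))) (.cons (.leaf 1 []) (.cons (.leaf 1 [(4,1)]) (.cons (.leaf 1 [(8,1),(5,1)]) (.cons (.leaf 1 [(8,1)]) .nil)))))))) (.cons (.keep [4,6,7,9,10] (.node (.cons (.keep [5,6,7,8,9] (.node (.cons (.leaf 1 [(7,1)]) (.cons (.leaf 1 [(7,1),(4,1)]) (.cons (.leaf 1 [(9,1)]) (.cons (.leaf 1 [(9,1),(4,1)]) (.cons (.leaf 1 [(9,1),(7,1),(5,1)]) (.cons (.leaf 1 [(9,1),(7,1)]) .nil)))))))) (.cons (.keep [4,6,7,8,10] (.node (.cons (.leaf 1 [(7,1),(6,1)]) (.cons (.leaf 1 [(7,1),(6,1),(4,1)])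 (.cons (.leaf 1 [(9,1),(6,1)]) (.cons (.leaf 1 [(9,1),(6,1),(4,1)]) (.cons (.leaf 1 [(9,1),(7,1),(6,1),(5,1)]) (.cons (.leaf 1 [(9,1),(7,1),(6,1)]) .nil)))))))) (.cons (.leaf 1 [(6,1)]) (.cons (.leaf 1 [(6,1),(4,1)]) (.cons (.leaf 1 [(8,1),(6,1),(5,1)]) (.cons (.leaf 1 [(8,1),(6,1)]) .nil)))))))) (.cons (.keep [5,6,7,8,9] (.node (.cons (.keep [2,5,6,8,9] (.node (.cons (.leaf 1 []) (.cons (.leaf 1 [(4,1)]) (.cons (.leaf 1 [(9,1),(8,1)]) (.cons (.leaf 1 [(9,1),(8,1),(4,1)]) (.cons (.leaf 1 [(9,1),(5,1)]) (.cons (.leaf 1 [(9,1)]) .nil)))))))) (.cons (.keep [3,6,8,9,10] (.node (.cons (.leaf 1 []) (.cons (.leaf 1 [(4,1)]) (.cons (.leaf 1 [(8,1),(7,1)]) (.cons (.leaf 1 [(8,1),(7,1),(4,1)]) (.cons (.leaf 1 [(8,1),(5,1)]) (.cons (.leaf 1 [(8,1)]) .nil)))))))) (.cons (.leaf 1 [(1,1)]) (.cons (.leaf 1 [(1,1)])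 (.cons (.leaf 1 [(5,1),(8,1),(1,1)]) (.cons (.keep [0,1,6,7,8] (.node (.cons (.leaf 1 []) (.cons (.leaf 1 [(4,1)]) (.cons (.leaf 1 [(10,1),(8,1)]) (.cons (.leaf 1 [(10,1),(8,1),(4,1)]) (.cons (.leaf 1 [(10,1),(5,1)]) (.cons (.leaf 1 [(10,1)]) .nil)))))))) .nil)))))))) (.cons (.keep [4,6,7,9,10] (.node (.cons (.keep [5,6,7,8,9] (.node (.cons (.leaf 1 [(7,1)]) (.cons (.leaf 1 [(7,1),(4,1)]) (.cons (.leaf 1 [(9,1)]) (.cons (.leaf 1 [(9,1),(4,1)]) (.cons (.leaf 1 [(9,1),(7,1),(5,1)]) (.cons (.leaf 1 [(9,1),(7,1)]) .nil)))))))) (.cons (.keep [3,6,8,9,10] (.node (.cons (.leaf 1 [(7,1)]) (.cons (.leaf 1 [(7,1),(4,1)]) (.cons (.leaf 1 [(8,1)]) (.cons (.leaf 1 [(8,1),(4,1)]) (.cons (.leaf 1 [(8,1),(7,1),(5,1)]) (.cons (.leaf 1 [(8,1),(7,1)]) .nil)))))))) (.cons (.leaf 1 [(1,1),(6,1)]) (.cons (.leaf 1 [(1,1),(6,1)])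 (.cons (.leaf 1 [(5,1),(8,1),(6,1),(1,1)]) (.cons (.keep [0,1,6,7,8] (.node (.cons (.leaf 1 [(8,1)]) (.cons (.leaf 1 [(8,1),(4,1)]) (.cons (.leaf 1 [(10,1)]) (.cons (.leaf 1 [(10,1),(4,1)]) (.cons (.leaf 1 [(10,1),(8,1),(5,1)]) (.cons (.leaf 1 [(10,1),(8,1)]) .nil)))))))) .nil)))))))) (.cons (.leaf 1 [(7,1),(5,1)]) (.cons (.leaf 1 [(7,1)]) .nil)))))))) (.cons (.keep [0,1,5,8] (.leaf 0 [(0,0)])) (.cons (.keep [3,4,6,7,8] (.leaf 0 [(1,0)])) (.cons (.leaf 1 [(5,1)]) (.cons (.leaf 1 []) .nil))))))))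

theorem e_22_17 : ESB (caseOf 4 22 17) := esb_of_pieces _ (hP_cons c_22_17_1 (hP_cons c_22_17_0
  hP_nil)) t_22_17 (by decide +kernel)

def ks : List (ℕ × ℕ) := [(22, 16), (22, 17)]

theorem ks_ok : ∀ p ∈ ks, ESB (caseOf 4 p.1 p.2) := ks_cons e_22_16 <| ks_cons e_22_17 <| ks_nil

end Pool.Agent.H4.RD4.E16
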