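import Pool.Agent.H4.RD4.Chk

/-! # Certificates for special cases of order four -/

set_option maxRecDepth 20000

namespace Pool.Agent.H4.RD4.E28

open Pool.Agent.H50.Rdb
open Pool.Agent.H81.RDE (ESB caseOf)

def z_10_24_0 : F := ⟨0, 0, -1, 1, 5⟩

def h_10_24_0 : List F := [⟨-1, 0, 1, 0, 0⟩, ⟨0, 0, -1, 1, 0⟩, ⟨0, 1, -1, 0, 0⟩, ⟨-1, 0, 1, -1,
  1⟩, ⟨0, -1, 0, 0, 1⟩, ⟨0, 1, 0, 0, 3⟩]

def t_10_24_0 : T := (.node (.cons (.leaf 1 [(2,1),(8,1)]) (.cons (.keep [0,2,5,7,9,10] (.node (.cons (.leaf 2 [(6,2),(7,1)]) (.cons (.leaf 2 [(6,2),(7,1),(3,1)]) (.cons (.keep [4,5,6,7,8] (.node (.cons (.leaf 1 [(2,1),(7,1)]) (.cons (.keep [2,6,7,8,9] (.node (.cons (.keep [0,2,5,6,9] (.node (.cons (.keep [4,6,7,8,9] (.node (.cons (.leaf 2 [(5,1),(8,1),(7,2)]) (.cons (.keep [0,5,7,8,9] (.node (.cons (.leaf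 3 [(7,2),(8,1)]) (.cons (.leaf 2 [(7,2),(8,1),(2,1)]) (.cons (.leaf 1 []) (.cons (.leaf 1 [(3,1)]) .nil)))))) (.cons (.leaf 2 [(6,1),(5,1),(1,1)]) (.cons (.leaf 2 [(6,1),(5,1),(1,1),(3,1)]) .nil)))))) (.cons (.keep [3,6,7,8,9] (.node (.cons (.leaf 2 [(7,2),(8,1)]) (.cons (.keep [0,5,7,8,9] (.node (.cons (.leaf 3 [(7,2),(6,1),(8,1)]) (.cons (.leaf 2 [(7,2),(6,1),(8,1),(2,1)]) (.cons (.leaf 1 []) (.cons (.leaf 1 [(3,1)]) .nil)))))) (.cons (.leaf 2 [(6,1),(1,1)]) (.cons (.leaf 2 [(6,1),(1,1),(3,1)]) .nil)))))) (.cons (.leaf 1 [(6,1)]) (.cons (.leaf 1 [(3,1),(6,1)]) .nil)))))) (.cons (.keep [5,6,7,8,9] (.node (.cons (.leaf 2 [(8,2),(5,1),(7,4)]) (.cons (.leaf 2 [(8,2),(5,1),(7,4),(3,1)]) (.cons (.leaf 1 [(8,1),(7,1)]) (.cons (.leaf 1 [(3,1),(8,1),(7,1)]) .nil)))))) (.cons (.keep [0,1,5,8,9]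 (.node (.cons (.keep [4,6,7,8,9] (.node (.cons (.leaf 2 [(8,1),(5,1),(7,2)]) (.cons (.keep [0,5,6,7,8,9] (.node (.cons (.leaf 3 [(9,1),(8,2)]) (.cons (.leaf 3 [(9,1),(8,2),(3,1)]) (.cons (.leaf 1 []) (.cons (.leaf 1 [(3,1)]) .nil)))))) (.cons (.leaf 2 [(8,1),(5,1),(1,1)]) (.cons (.leaf 2 [(8,1),(5,1),(1,1),(3,1)]) .nil)))))) (.cons (.keep [3,6,7,8,9] (.node (.cons (.leaf 2 [(8,1),(7,2)]) (.cons (.keep [0,5,6,7,8,9] (.node (.cons (.leaf 3 [(9,1),(6,1),(8,2)]) (.cons (.leaf 3 [(9,1),(6,1),(8,2),(3,1)]) (.cons (.leaf 1 []) (.cons (.leaf 1 [(3,1)]) .nil)))))) (.cons (.leaf 2 [(8,1),(1,1)]) (.cons (.leaf 2 [(8,1),(1,1),(3,1)]) .nil)))))) (.cons (.leaf 1 [(8,1)]) (.cons (.leaf 1 [(3,1),(8,1)]) .nil)))))) (.cons (.keep [1,3,5,8,9] (.node (.cons (.leaf 1 [(2,1),(7,1),(6,2)]) (.cons (.leaf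 1 [(2,1),(7,1),(6,2)]) (.cons (.leaf 1 [(8,1),(6,1)]) (.cons (.leaf 1 [(8,1),(6,1),(3,1)]) .nil)))))) .nil)))))) (.cons (.leaf 1 [(7,1)]) (.cons (.keep [0,1,5,6,7,8] (.node (.cons (.keep [4,7,8,9,10] (.node (.cons (.keep [4,6,7,8,9] (.node (.cons (.leaf 2 [(5,1),(8,1)]) (.cons (.keep [5,6,7,8,9] (.node (.cons (.leaf 1 [(2,2),(7,1)]) (.cons (.leaf 2 [(8,1),(2,1)]) (.cons (.leaf 1 [(9,1),(8,2)]) (.cons (.leaf 1 [(9,1),(8,2),(3,1)]) .nil)))))) (.cons (.leaf 2 [(8,1),(5,1),(1,1)]) (.cons (.leaf 2 [(8,2),(5,1),(9,1),(1,1)]) .nil)))))) (.cons (.keep [0,3,7,8,9] (.node (.cons (.leaf 2 [(8,1)]) (.cons (.keep [5,6,7,8,9] (.node (.cons (.leaf 1 [(2,2),(6,1),(7,1)]) (.cons (.leaf 2 [(8,1),(2,1),(6,1)]) (.cons (.leaf 1 [(9,1),(8,2)]) (.cons (.leaf 1 [(9,1),(8,2),(3,1)]) .nil)))))) (.cons (.leaf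 2 [(8,1),(1,1)]) (.cons (.leaf 2 [(8,2),(9,1),(1,1)]) .nil)))))) (.cons (.leaf 1 [(9,1),(8,1)]) (.cons (.leaf 1 [(9,1),(8,1),(3,1)]) .nil)))))) (.cons (.keep [5,6,7,8,9,10] (.node (.cons (.leaf 2 [(10,2),(5,1),(9,4)]) (.cons (.leaf 2 [(10,2),(5,1),(9,4),(3,1)]) (.cons (.leaf 2 [(6,1),(10,2),(1,1)]) (.cons (.leaf 2 [(6,1),(10,2),(1,1),(3,3)]) .nil)))))) (.cons (.keep [4,5,6,7,8,10] (.node (.cons (.keep [4,6,7,8,9,10] (.node (.cons (.leaf 1 [(5,1),(8,1)]) (.cons (.keep [5,6,7,8,9,10] (.node (.cons (.leaf 2 [(7,1),(8,1)]) (.cons (.leaf 2 [(7,1),(8,1),(3,1)]) (.cons (.leaf 1 [(7,1)]) (.cons (.leaf 1 [(7,1),(3,1)]) .nil)))))) (.cons (.leaf 1 [(8,1),(5,1),(1,1)]) (.cons (.leaf 1 [(1,1),(5,1),(7,1),(8,1)]) .nil)))))) (.cons (.keep [3,6,7,8,9,10] (.node (.cons (.leaf 1 [(8,1)]) (.cons (.keep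 [5,6,7,8,9,10] (.node (.cons (.leaf 2 [(7,1),(5,1),(8,1)]) (.cons (.leaf 2 [(7,1),(5,1),(8,1),(3,1)]) (.cons (.leaf 1 [(7,1)]) (.cons (.leaf 1 [(7,1),(3,1)]) .nil)))))) (.cons (.leaf 1 [(8,1),(1,1)]) (.cons (.leaf 1 [(1,1),(7,1),(8,1)]) .nil)))))) (.cons (.leaf 1 [(10,1)]) (.cons (.leaf 1 [(10,1),(3,1)]) .nil)))))) (.cons (.keep [3,5,6,7,8,10] (.node (.cons (.leaf 1 [(2,1),(5,2)]) (.cons (.leaf 1 [(2,1),(5,2)]) (.cons (.leaf 1 [(10,2),(1,1)]) (.cons (.leaf 1 [(10,2),(1,1),(3,2)]) .nil)))))) .nil)))))) .nil)))))) (.cons (.keep [3,5,6,7,8,10] (.node (.cons (.leaf 1 [(2,1),(7,1),(5,1)]) (.cons (.leaf 1 [(8,1),(7,2),(5,2),(2,1)]) (.cons (.leaf 1 [(5,1),(7,1)]) (.cons (.leaf 1 [(5,2),(7,2),(8,1),(0,1)]) .nil)))))) .nil)))))) (.cons (.leaf 1 [(8,1)]) (.cons (.keep [0,1,7,8,10] (.node (.cons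 (.leaf 2 [(2,1),(8,1)]) (.cons (.leaf 2 [(2,1),(8,1)]) (.cons (.keep [4,5,6,7,8] (.node (.cons (.leaf 1 [(2,1),(9,1),(6,1)]) (.cons (.keep [2,6,7,8,9] (.node (.cons (.keep [0,2,5,6,8] (.node (.cons (.keep [4,6,7,8,9] (.node (.cons (.leaf 2 [(5,1),(8,1),(7,2)]) (.cons (.keep [0,5,7,8,9] (.node (.cons (.leaf 3 [(7,2),(8,1)]) (.cons (.leaf 2 [(7,2),(8,1),(2,1)]) (.cons (.leaf 1 []) (.cons (.leaf 1 [(3,1)]) .nil)))))) (.cons (.leaf 2 [(6,1),(5,1),(1,1)]) (.cons (.leaf 2 [(6,1),(5,1),(1,1),(3,1)]) .nil)))))) (.cons (.keep [3,6,7,8,9] (.node (.cons (.leaf 2 [(7,2),(8,1)]) (.cons (.keep [0,5,7,8,9] (.node (.cons (.leaf 3 [(7,2),(6,1),(8,1)]) (.cons (.leaf 2 [(7,2),(6,1),(8,1),(2,1)]) (.cons (.leaf 1 []) (.cons (.leaf 1 [(3,1)]) .nil)))))) (.cons (.leaf 2 [(6,1),(1,1)]) (.cons (.leaf 2 [(6,1),(1,1),(3,1)])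 .nil)))))) (.cons (.leaf 1 [(6,1)]) (.cons (.leaf 1 [(3,1),(6,1)]) .nil)))))) (.cons (.keep [3,5,6,7,8] (.node (.cons (.leaf 2 [(6,1),(5,2)]) (.cons (.leaf 2 [(6,1),(5,2),(3,1)]) (.cons (.leaf 1 [(8,1),(5,1)]) (.cons (.leaf 1 [(8,1),(5,1),(3,1)]) .nil)))))) (.cons (.keep [0,1,5,8,9] (.node (.cons (.keep [4,6,7,8,9] (.node (.cons (.leaf 2 [(9,1),(5,1),(7,2)]) (.cons (.keep [0,5,6,7,8,9] (.node (.cons (.leaf 3 [(10,1),(8,2)]) (.cons (.leaf 3 [(10,1),(8,2),(3,1)]) (.cons (.leaf 1 []) (.cons (.leaf 1 [(3,1)]) .nil)))))) (.cons (.leaf 2 [(9,1),(5,1),(1,1)]) (.cons (.leaf 2 [(9,1),(5,1),(1,1),(3,1)]) .nil)))))) (.cons (.keep [3,6,7,8,9] (.node (.cons (.leaf 2 [(9,1),(7,2)]) (.cons (.keep [0,5,6,7,8,9] (.node (.cons (.leaf 3 [(10,1),(6,1),(8,2)]) (.cons (.leaf 3 [(10,1),(6,1),(8,2),(3,1)])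 (.cons (.leaf 1 []) (.cons (.leaf 1 [(3,1)]) .nil)))))) (.cons (.leaf 2 [(9,1),(1,1)]) (.cons (.leaf 2 [(9,1),(1,1),(3,1)]) .nil)))))) (.cons (.leaf 1 [(9,1)]) (.cons (.leaf 1 [(3,1),(9,1)]) .nil)))))) (.cons (.keep [0,1,5,8,9] (.node (.cons (.leaf 2 [(9,2),(7,1),(6,1)]) (.cons (.leaf 2 [(9,2),(7,1),(6,1),(3,1)]) (.cons (.leaf 1 [(5,1),(9,1)]) (.cons (.leaf 1 [(0,1),(9,1),(3,2)]) .nil)))))) .nil)))))) (.cons (.leaf 1 [(6,1),(9,1)]) (.cons (.keep [0,1,5,6,7,9] (.node (.cons (.keep [2,4,6,7,8] (.node (.cons (.keep [4,5,7,8,9] (.node (.cons (.leaf 2 [(7,1),(5,1),(9,1)]) (.cons (.keep [0,5,7,8,9] (.node (.cons (.leaf 3 [(7,2),(9,1)]) (.cons (.leaf 2 [(7,1),(9,1),(2,1)]) (.cons (.leaf 1 [(7,1)]) (.cons (.leaf 1 [(3,1),(7,1)]) .nil)))))) (.cons (.leaf 2 [(7,1),(5,1),(1,1)]) (.cons (.leaf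 2 [(7,1),(5,1),(1,1)]) .nil)))))) (.cons (.keep [0,3,5,7,9] (.node (.cons (.leaf 2 [(8,1),(9,1)]) (.cons (.keep [0,5,6,8,9] (.node (.cons (.leaf 3 [(8,2),(7,1),(9,1)]) (.cons (.leaf 2 [(8,1),(7,1),(9,1),(2,1)]) (.cons (.leaf 1 [(8,1)]) (.cons (.leaf 1 [(3,1),(8,1)]) .nil)))))) (.cons (.leaf 2 [(8,1),(1,1)]) (.cons (.leaf 2 [(8,1),(1,1)]) .nil)))))) (.cons (.leaf 1 [(5,1),(7,1)]) (.cons (.leaf 1 [(5,1),(7,1),(3,1)]) .nil)))))) (.cons (.keep [5,6,7,8,9,10] (.node (.cons (.leaf 2 [(5,1),(10,2)]) (.cons (.leaf 2 [(5,1),(10,2),(3,1)]) (.cons (.leaf 1 [(9,1),(10,1)]) (.cons (.leaf 1 [(9,1),(10,1),(3,1)]) .nil)))))) (.cons (.keep [4,5,6,7,8,10] (.node (.cons (.keep [4,6,7,8,9,10] (.node (.cons (.leaf 1 [(5,1),(8,1)]) (.cons (.keep [5,6,7,8,9,10] (.node (.cons (.leaf 2 [(7,1),(8,1)]) (.cons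 (.leaf 2 [(7,1),(8,1),(3,1)]) (.cons (.leaf 1 [(7,1)]) (.cons (.leaf 1 [(7,1),(3,1)]) .nil)))))) (.cons (.leaf 1 [(8,1),(5,1),(1,1)]) (.cons (.leaf 1 [(1,1),(5,1),(7,1),(8,1)]) .nil)))))) (.cons (.keep [3,6,7,8,9,10] (.node (.cons (.leaf 1 [(8,1)]) (.cons (.keep [5,6,7,8,9,10] (.node (.cons (.leaf 2 [(7,1),(5,1),(8,1)]) (.cons (.leaf 2 [(7,1),(5,1),(8,1),(3,1)]) (.cons (.leaf 1 [(7,1)]) (.cons (.leaf 1 [(7,1),(3,1)]) .nil)))))) (.cons (.leaf 1 [(8,1),(1,1)]) (.cons (.leaf 1 [(1,1),(7,1),(8,1)]) .nil)))))) (.cons (.leaf 1 [(10,1)]) (.cons (.leaf 1 [(10,1),(3,1)]) .nil)))))) (.cons (.keep [5,6,7,8,9,10] (.node (.cons (.leaf 2 [(10,2),(8,1)]) (.cons (.leaf 2 [(10,2),(8,1),(3,1)]) (.cons (.leaf 1 [(9,1),(10,1)]) (.cons (.leaf 1 [(6,1),(0,1),(10,1),(3,2)]) .nil)))))) .nil)))))) .nil))))))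 (.cons (.keep [5,6,7,8,9] (.node (.cons (.leaf 1 [(2,1),(8,1),(5,1)]) (.cons (.leaf 1 [(6,1),(2,1),(8,2),(5,1)]) (.cons (.leaf 1 [(5,1),(8,1)]) (.cons (.leaf 1 [(5,1),(8,2),(6,1),(0,1)]) .nil)))))) .nil)))))) .nil)))))

theorem c_10_24_0 : Concl 10 24 z_10_24_0 h_10_24_0 .nd := piece _ hP_nil t_10_24_0 _ _ (by
  decide +kernel)

def z_10_24_1 : F := ⟨-1, 0, 0, 0, 4⟩

def h_10_24_1 : List F := [⟨-1, 0, 0, -1, 4⟩, ⟨-1, 0, 1, 0, 0⟩, ⟨1, 0, -1, 1, 1⟩, ⟨0, -1, 0, 0,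
  1⟩, ⟨0, 1, 0, 0, 3⟩]

def t_10_24_1 : T := (.node (.cons (.leaf 1 [(2,1)]) (.cons (.keep [0,2,5,6,7] (.node (.cons (.leaf 2 [(2,1),(9,1),(6,1)]) (.cons (.leaf 2 [(2,1),(9,1),(6,1)]) (.cons (.keep [0,6,7,8,9] (.node (.cons (.leaf 1 [(2,1),(6,1),(9,1)]) (.cons (.keep [2,6,7,8,9] (.node (.cons (.keep [2,4,5,6,7] (.node (.cons (.keep [4,5,7,8,9] (.node (.cons (.leaf 2 [(5,1),(8,3),(7,2)]) (.cons (.keep [0,5,7,8,9] (.node (.cons (.leaf 3 [(8,4),(7,2)]) (.cons (.leaf 2 [(8,3),(7,2),(2,1)]) (.cons (.leaf 1 [(8,1)]) (.cons (.leaf 1 [(3,1),(8,1)]) .nil)))))) (.cons (.leaf 2 [(8,1),(5,1),(1,1)]) (.cons (.leaf 2 [(8,1),(5,1),(3,1),(1,1)]) .nil)))))) (.cons (.keep [3,5,7,8,9] (.node (.cons (.leaf 2 [(7,2),(8,3)]) (.cons (.keep [0,5,7,8,9] (.node (.cons (.leaf 3 [(6,1),(8,4),(7,2)]) (.cons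 (.leaf 2 [(6,1),(8,3),(7,2),(2,1)]) (.cons (.leaf 1 [(8,1)]) (.cons (.leaf 1 [(3,1),(8,1)]) .nil)))))) (.cons (.leaf 2 [(8,1),(1,1)]) (.cons (.leaf 2 [(8,1),(1,1),(3,1)]) .nil)))))) (.cons (.leaf 1 []) (.cons (.leaf 1 [(3,1)]) .nil)))))) (.cons (.keep [5,6,7,8,9] (.node (.cons (.leaf 2 [(5,1),(6,2)]) (.cons (.leaf 2 [(5,1),(6,2),(3,1)]) (.cons (.leaf 1 []) (.cons (.leaf 1 [(3,1)]) .nil)))))) (.cons (.keep [1,4,5,7,8] (.node (.cons (.keep [2,4,5,7,9] (.node (.cons (.leaf 2 [(6,1),(7,1),(8,2)]) (.cons (.keep [0,5,6,7,8] (.node (.cons (.leaf 3 [(8,2),(9,2)]) (.cons (.leaf 2 [(8,1),(9,2),(2,1)]) (.cons (.leaf 1 [(8,1)]) (.cons (.leaf 1 [(3,1),(8,1)]) .nil)))))) (.cons (.leaf 2 [(7,1),(6,1),(1,1)]) (.cons (.leaf 2 [(7,1),(6,1),(3,1),(1,1)]) .nil)))))) (.cons (.keep [3,5,7,8,9] (.node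 (.cons (.leaf 2 [(7,2),(6,1)]) (.cons (.keep [0,5,6,7,8] (.node (.cons (.leaf 3 [(6,1),(7,2),(8,2)]) (.cons (.leaf 2 [(6,1),(7,1),(8,2),(2,1)]) (.cons (.leaf 1 [(7,1)]) (.cons (.leaf 1 [(3,1),(7,1)]) .nil)))))) (.cons (.leaf 2 [(6,1),(1,1)]) (.cons (.leaf 2 [(6,1),(1,1),(3,1)]) .nil)))))) (.cons (.leaf 1 []) (.cons (.leaf 1 [(3,1)]) .nil)))))) (.cons (.keep [0,1,3,5,7] (.node (.cons (.leaf 2 [(8,1),(6,1),(7,2)]) (.cons (.leaf 2 [(8,1),(6,1),(7,2),(3,1)]) (.cons (.leaf 1 []) (.cons (.leaf 1 [(3,1)]) .nil)))))) .nil)))))) (.cons (.leaf 1 [(9,1),(6,1)]) (.cons (.keep [0,1,6,7,8,9] (.node (.cons (.keep [4,7,8,9,10] (.node (.cons (.keep [4,6,7,8,9] (.node (.cons (.leaf 2 [(5,1),(6,1),(9,2)]) (.cons (.keep [0,5,6,7,9] (.node (.cons (.leaf 3 [(7,2),(9,2)]) (.cons (.leaf 2 [(7,1),(9,2),(2,1)])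 (.cons (.leaf 1 [(7,1)]) (.cons (.leaf 1 [(3,1),(7,1)]) .nil)))))) (.cons (.leaf 2 [(6,1),(5,1),(1,1)]) (.cons (.leaf 2 [(6,1),(5,1),(3,1),(1,1)]) .nil)))))) (.cons (.keep [3,6,7,8,9] (.node (.cons (.leaf 2 [(9,2),(6,1)]) (.cons (.keep [0,5,6,7,9] (.node (.cons (.leaf 3 [(6,1),(7,2),(9,2)]) (.cons (.leaf 2 [(6,1),(7,1),(9,2),(2,1)]) (.cons (.leaf 1 [(7,1)]) (.cons (.leaf 1 [(3,1),(7,1)]) .nil)))))) (.cons (.leaf 2 [(6,1),(1,1)]) (.cons (.leaf 2 [(6,1),(1,1),(3,1)]) .nil)))))) (.cons (.leaf 1 []) (.cons (.leaf 1 [(3,1)]) .nil)))))) (.cons (.keep [3,6,8,9,10] (.node (.cons (.leaf 2 [(5,2),(9,2),(6,1)]) (.cons (.leaf 2 [(5,2),(9,2),(6,1),(3,1)]) (.cons (.leaf 1 []) (.cons (.leaf 1 [(3,1)]) .nil)))))) (.cons (.keep [4,5,6,8,10] (.node (.cons (.keep [4,5,6,7,9] (.node (.cons (.leaf 2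 [(7,1),(5,1),(9,2)]) (.cons (.keep [5,6,7,8,9] (.node (.cons (.leaf 3 [(9,2)]) (.cons (.leaf 3 [(9,2),(3,1)]) (.cons (.leaf 1 [(8,1),(9,1)]) (.cons (.leaf 1 [(8,1),(9,1),(3,1)]) .nil)))))) (.cons (.leaf 2 [(9,1),(5,1),(1,1)]) (.cons (.leaf 2 [(9,1),(5,1),(1,1)]) .nil)))))) (.cons (.keep [3,6,7,8,9] (.node (.cons (.leaf 2 [(6,1),(9,2)]) (.cons (.keep [5,6,7,8,9] (.node (.cons (.leaf 3 [(5,1),(9,2)]) (.cons (.leaf 3 [(5,1),(9,2),(3,1)]) (.cons (.leaf 1 [(7,1),(9,1)]) (.cons (.leaf 1 [(7,1),(9,1),(3,1)]) .nil)))))) (.cons (.leaf 2 [(9,1),(1,1)]) (.cons (.leaf 2 [(9,1),(1,1)]) .nil)))))) (.cons (.leaf 1 []) (.cons (.leaf 1 [(3,1)]) .nil)))))) (.cons (.keep [3,5,6,8,9,10] (.node (.cons (.leaf 2 [(5,2),(10,1)]) (.cons (.leaf 1 [(2,1),(10,1),(5,2)]) (.cons (.leaf 1 []) (.cons (.leaf 1 [(3,1)])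 .nil)))))) .nil)))))) .nil)))))) (.cons (.keep [3,6,7,8,9] (.node (.cons (.leaf 1 [(2,1),(6,1),(5,1)]) (.cons (.leaf 1 [(2,1),(6,1),(5,1)]) (.cons (.leaf 1 [(9,1),(6,1),(5,1)]) (.cons (.leaf 1 [(0,1),(6,1),(5,1),(9,1)]) .nil)))))) .nil)))))) (.cons (.leaf 1 []) (.cons (.keep [0,5,6,7,8,9] (.node (.cons (.leaf 2 [(2,1),(8,1)]) (.cons (.leaf 2 [(2,1),(8,1)]) (.cons (.keep [4,5,6,7,8] (.node (.cons (.leaf 1 [(2,1),(6,1),(9,1)]) (.cons (.keep [2,6,7,8,9] (.node (.cons (.keep [0,2,5,6,7] (.node (.cons (.keep [4,6,7,8,9] (.node (.cons (.leaf 2 [(5,1),(8,1),(7,2)]) (.cons (.keep [0,5,7,8,9] (.node (.cons (.leaf 3 [(7,2),(8,1)]) (.cons (.leaf 2 [(7,2),(8,1),(2,1)]) (.cons (.leaf 1 []) (.cons (.leaf 1 [(3,1)]) .nil)))))) (.cons (.leaf 2 [(6,1),(5,1),(1,1)]) (.cons (.leaf 2 [(6,1),(5,1),(1,1),(3,1)])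 .nil)))))) (.cons (.keep [3,6,7,8,9] (.node (.cons (.leaf 2 [(7,2),(8,1)]) (.cons (.keep [0,5,7,8,9] (.node (.cons (.leaf 3 [(7,2),(6,1),(8,1)]) (.cons (.leaf 2 [(7,2),(6,1),(8,1),(2,1)]) (.cons (.leaf 1 []) (.cons (.leaf 1 [(3,1)]) .nil)))))) (.cons (.leaf 2 [(6,1),(1,1)]) (.cons (.leaf 2 [(6,1),(1,1),(3,1)]) .nil)))))) (.cons (.leaf 1 [(6,1)]) (.cons (.leaf 1 [(3,1),(6,1)]) .nil)))))) (.cons (.keep [2,5,6,7,9] (.node (.cons (.leaf 2 [(6,1)]) (.cons (.leaf 2 [(6,1),(3,1)]) (.cons (.leaf 1 [(9,1),(5,1)]) (.cons (.leaf 1 [(9,1),(5,1),(3,1)]) .nil)))))) (.cons (.keep [1,4,5,7,8] (.node (.cons (.keep [2,4,5,7,9] (.node (.cons (.leaf 2 [(6,1),(7,1),(8,2)]) (.cons (.keep [0,5,6,7,8] (.node (.cons (.leaf 3 [(8,2),(9,2)]) (.cons (.leaf 2 [(8,1),(9,2),(2,1)]) (.cons (.leaf 1 [(8,1)]) (.cons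 (.leaf 1 [(3,1),(8,1)]) .nil)))))) (.cons (.leaf 2 [(7,1),(6,1),(1,1)]) (.cons (.leaf 2 [(7,1),(6,1),(3,1),(1,1)]) .nil)))))) (.cons (.keep [3,5,7,8,9] (.node (.cons (.leaf 2 [(7,2),(6,1)]) (.cons (.keep [0,5,6,7,8] (.node (.cons (.leaf 3 [(6,1),(7,2),(8,2)]) (.cons (.leaf 2 [(6,1),(7,1),(8,2),(2,1)]) (.cons (.leaf 1 [(7,1)]) (.cons (.leaf 1 [(3,1),(7,1)]) .nil)))))) (.cons (.leaf 2 [(6,1),(1,1)]) (.cons (.leaf 2 [(6,1),(1,1),(3,1)]) .nil)))))) (.cons (.leaf 1 []) (.cons (.leaf 1 [(3,1)]) .nil)))))) (.cons (.keep [0,3,5,7,9] (.node (.cons (.leaf 2 [(7,1),(9,1),(6,1)]) (.cons (.leaf 1 [(6,2),(9,1),(7,1),(2,1)]) (.cons (.leaf 1 [(9,1),(5,1)]) (.cons (.leaf 1 [(9,1),(0,1),(3,2)]) .nil)))))) .nil)))))) (.cons (.leaf 1 [(9,1),(6,1)]) (.cons (.keep [0,1,6,7,8,9] (.node (.cons (.keep [0,7,8,9,10]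 (.node (.cons (.keep [4,6,7,8,9] (.node (.cons (.leaf 2 [(5,1),(6,1),(9,2)]) (.cons (.keep [0,5,6,7,9] (.node (.cons (.leaf 3 [(9,2),(7,1)]) (.cons (.leaf 2 [(9,2),(7,1),(2,1)]) (.cons (.leaf 1 []) (.cons (.leaf 1 [(3,1)]) .nil)))))) (.cons (.leaf 2 [(9,1),(5,1),(1,1)]) (.cons (.leaf 2 [(9,1),(5,1),(1,1)]) .nil)))))) (.cons (.keep [3,6,7,8,9] (.node (.cons (.leaf 2 [(9,2),(6,1)]) (.cons (.keep [0,5,6,7,9] (.node (.cons (.leaf 3 [(9,2),(6,1),(7,1)]) (.cons (.leaf 2 [(9,2),(6,1),(7,1),(2,1)]) (.cons (.leaf 1 []) (.cons (.leaf 1 [(3,1)]) .nil)))))) (.cons (.leaf 2 [(9,1),(1,1)]) (.cons (.leaf 2 [(9,1),(1,1)]) .nil)))))) (.cons (.leaf 1 [(8,1),(9,1)]) (.cons (.leaf 1 [(8,1),(9,1),(3,1)]) .nil)))))) (.cons (.keep [3,6,7,8,9,10] (.node (.cons (.leaf 2 [(10,1),(5,1)]) (.cons (.leaf 2 [(10,1),(5,1),(3,1)])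 (.cons (.leaf 1 [(10,1),(9,1)]) (.cons (.leaf 1 [(10,1),(9,1),(3,1)]) .nil)))))) (.cons (.keep [4,5,6,8,10] (.node (.cons (.keep [4,5,6,7,9] (.node (.cons (.leaf 2 [(7,1),(5,1),(9,2)]) (.cons (.keep [5,6,7,8,9] (.node (.cons (.leaf 3 [(9,2)]) (.cons (.leaf 3 [(9,2),(3,1)]) (.cons (.leaf 1 [(8,1),(9,1)]) (.cons (.leaf 1 [(8,1),(9,1),(3,1)]) .nil)))))) (.cons (.leaf 2 [(9,1),(5,1),(1,1)]) (.cons (.leaf 2 [(9,1),(5,1),(1,1)]) .nil)))))) (.cons (.keep [3,6,7,8,9] (.node (.cons (.leaf 2 [(6,1),(9,2)]) (.cons (.keep [5,6,7,8,9] (.node (.cons (.leaf 3 [(5,1),(9,2)]) (.cons (.leaf 3 [(5,1),(9,2),(3,1)]) (.cons (.leaf 1 [(7,1),(9,1)]) (.cons (.leaf 1 [(7,1),(9,1),(3,1)]) .nil)))))) (.cons (.leaf 2 [(9,1),(1,1)]) (.cons (.leaf 2 [(9,1),(1,1)]) .nil)))))) (.cons (.leaf 1 []) (.cons (.leaf 1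 [(3,1)]) .nil)))))) (.cons (.keep [3,5,6,8,9,10] (.node (.cons (.leaf 2 [(5,1),(10,1)]) (.cons (.leaf 2 [(5,1),(10,1),(3,1)]) (.cons (.leaf 1 [(9,1),(10,1)]) (.cons (.leaf 1 [(7,1),(10,1),(0,1),(3,2)]) .nil)))))) .nil)))))) .nil)))))) (.cons (.keep [3,5,6,7,8,10] (.node (.cons (.leaf 1 [(2,1),(5,1)]) (.cons (.leaf 1 [(2,1),(5,1)]) (.cons (.leaf 1 [(9,1),(6,1)]) (.cons (.leaf 1 [(0,1),(5,1),(9,1)]) .nil)))))) .nil)))))) .nil)))))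

theorem c_10_24_1 : Concl 10 24 z_10_24_1 h_10_24_1 .nd := piece _ hP_nil t_10_24_1 _ _ (by
  decide +kernel)

def z_10_24_2 : F := ⟨0, -1, -1, 1, 4⟩

def h_10_24_2 : List F := [⟨0, -1, -1, 0, 4⟩, ⟨-1, 0, 1, 0, 0⟩, ⟨0, 1, -1, 1, 1⟩, ⟨0, 1, -1, 0,
  0⟩, ⟨0, -2, -1, 1, 4⟩, ⟨-1, 0, 1, -1, 1⟩]

def t_10_24_2 : T := (.node (.cons (.leaf 1 [(2,2),(6,1)]) (.cons (.keep [0,2,6,7] (.node (.cons (.leaf 2 [(2,2),(7,1),(6,2)]) (.cons (.leaf 3 [(2,2),(6,4),(7,2),(8,1)]) (.cons (.keep [4,5,6,7,8] (.node (.cons (.leaf 1 [(2,1),(7,1)]) (.cons (.keep [2,6,7,8,9] (.node (.cons (.keep [0,2,5,6,9] (.node (.cons (.keep [4,6,7,8,9] (.node (.cons (.leaf 2 [(5,1),(8,1),(7,2)]) (.cons (.keep [0,5,7,8,9] (.node (.cons (.leaf 3 [(7,2),(8,1)]) (.cons (.leaf 2 [(7,2),(8,1),(2,1)]) (.cons (.leaf 1 []) (.cons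 (.leaf 1 [(3,1)]) .nil)))))) (.cons (.leaf 2 [(6,1),(5,1),(1,1)]) (.cons (.leaf 2 [(6,1),(5,1),(1,1),(3,1)]) .nil)))))) (.cons (.keep [3,6,7,8,9] (.node (.cons (.leaf 2 [(7,2),(8,1)]) (.cons (.keep [0,5,7,8,9] (.node (.cons (.leaf 3 [(7,2),(6,1),(8,1)]) (.cons (.leaf 2 [(7,2),(6,1),(8,1),(2,1)]) (.cons (.leaf 1 []) (.cons (.leaf 1 [(3,1)]) .nil)))))) (.cons (.leaf 2 [(6,1),(1,1)]) (.cons (.leaf 2 [(6,1),(1,1),(3,1)]) .nil)))))) (.cons (.leaf 1 [(6,1)]) (.cons (.leaf 1 [(3,1),(6,1)]) .nil)))))) (.cons (.keep [5,6,7,8,9] (.node (.cons (.leaf 2 [(8,2),(5,1),(7,4)]) (.cons (.leaf 2 [(8,2),(5,1),(7,4),(3,1)]) (.cons (.leaf 1 [(8,1),(7,1)]) (.cons (.leaf 1 [(3,1),(8,1),(7,1)]) .nil)))))) (.cons (.keep [0,1,5,8,9] (.node (.cons (.keep [4,6,7,8,9] (.node (.cons (.leaf 2 [(8,1),(5,1),(7,2)])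 (.cons (.keep [0,5,6,7,8,9] (.node (.cons (.leaf 3 [(9,1),(8,2)]) (.cons (.leaf 3 [(9,1),(8,2),(3,1)]) (.cons (.leaf 1 []) (.cons (.leaf 1 [(3,1)]) .nil)))))) (.cons (.leaf 2 [(8,1),(5,1),(1,1)]) (.cons (.leaf 2 [(8,1),(5,1),(1,1),(3,1)]) .nil)))))) (.cons (.keep [3,6,7,8,9] (.node (.cons (.leaf 2 [(8,1),(7,2)]) (.cons (.keep [0,5,6,7,8,9] (.node (.cons (.leaf 3 [(9,1),(6,1),(8,2)]) (.cons (.leaf 3 [(9,1),(6,1),(8,2),(3,1)]) (.cons (.leaf 1 []) (.cons (.leaf 1 [(3,1)]) .nil)))))) (.cons (.leaf 2 [(8,1),(1,1)]) (.cons (.leaf 2 [(8,1),(1,1),(3,1)]) .nil)))))) (.cons (.leaf 1 [(8,1)]) (.cons (.leaf 1 [(3,1),(8,1)]) .nil)))))) (.cons (.keep [1,3,5,8,9] (.node (.cons (.leaf 1 [(2,1),(7,1),(6,2)]) (.cons (.leaf 1 [(2,1),(7,1),(6,2)]) (.cons (.leaf 1 [(8,1),(6,1)]) (.cons (.leaf 1 [(8,1),(6,1),(3,1)])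 .nil)))))) .nil)))))) (.cons (.leaf 1 [(7,1)]) (.cons (.keep [0,1,6,7,8,9] (.node (.cons (.keep [4,7,8,9,10] (.node (.cons (.keep [4,6,7,8,9] (.node (.cons (.leaf 2 [(5,1),(7,1)]) (.cons (.keep [5,6,7,8,9] (.node (.cons (.leaf 1 [(2,2),(6,1)]) (.cons (.leaf 2 [(7,1),(2,1)]) (.cons (.leaf 1 [(8,1),(7,2)]) (.cons (.leaf 1 [(8,1),(7,2),(3,1)]) .nil)))))) (.cons (.leaf 2 [(7,1),(5,1),(1,1)]) (.cons (.leaf 2 [(7,2),(5,1),(8,1),(1,1)]) .nil)))))) (.cons (.keep [0,3,6,7,8] (.node (.cons (.leaf 2 [(8,1)]) (.cons (.keep [5,6,7,8,9] (.node (.cons (.leaf 1 [(2,2),(6,1),(7,1)]) (.cons (.leaf 2 [(8,1),(2,1),(6,1)]) (.cons (.leaf 1 [(9,1),(8,2)]) (.cons (.leaf 1 [(9,1),(8,2),(3,1)]) .nil)))))) (.cons (.leaf 2 [(8,1),(1,1)]) (.cons (.leaf 2 [(8,2),(9,1),(1,1)]) .nil)))))) (.cons (.leaf 1 [(8,1),(7,1)])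 (.cons (.leaf 1 [(8,1),(7,1),(3,1)]) .nil)))))) (.cons (.keep [5,6,7,8,9,10] (.node (.cons (.leaf 2 [(9,2),(5,1),(8,4)]) (.cons (.leaf 2 [(9,2),(5,1),(8,4),(3,1)]) (.cons (.leaf 2 [(6,1),(9,2),(1,1)]) (.cons (.leaf 2 [(6,1),(9,2),(1,1),(3,3)]) .nil)))))) (.cons (.keep [4,5,6,7,9,10] (.node (.cons (.keep [4,6,7,8,9,10] (.node (.cons (.leaf 2 [(9,1),(5,1),(6,1)]) (.cons (.keep [5,6,7,8,9,10] (.node (.cons (.leaf 3 [(9,1)]) (.cons (.leaf 3 [(9,1),(3,1)]) (.cons (.leaf 1 [(7,1)]) (.cons (.leaf 1 [(7,1),(3,1)]) .nil)))))) (.cons (.leaf 2 [(9,1),(5,1),(1,1)]) (.cons (.leaf 2 [(1,1),(5,1),(9,1)]) .nil)))))) (.cons (.keep [3,6,7,8,9,10] (.node (.cons (.leaf 2 [(9,1),(6,1)]) (.cons (.keep [5,6,7,8,9,10] (.node (.cons (.leaf 3 [(5,1),(9,1)]) (.cons (.leaf 3 [(5,1),(9,1),(3,1)]) (.cons (.leaf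 1 [(7,1)]) (.cons (.leaf 1 [(7,1),(3,1)]) .nil)))))) (.cons (.leaf 2 [(9,1),(1,1)]) (.cons (.leaf 2 [(1,1),(9,1)]) .nil)))))) (.cons (.leaf 1 [(9,1)]) (.cons (.leaf 1 [(9,1),(3,1)]) .nil)))))) (.cons (.keep [3,5,6,7,9,10] (.node (.cons (.leaf 1 [(2,1),(5,2)]) (.cons (.leaf 1 [(2,1),(5,2)]) (.cons (.leaf 1 [(9,2),(1,1)]) (.cons (.leaf 1 [(9,2),(1,1),(3,2)]) .nil)))))) .nil)))))) .nil)))))) (.cons (.keep [0,5,6,7,8] (.node (.cons (.leaf 1 [(2,1),(7,1)]) (.cons (.leaf 1 [(2,1),(8,1),(7,2),(0,1)]) (.cons (.leaf 1 [(7,1)]) (.cons (.leaf 1 [(7,2),(8,1),(0,1)]) .nil)))))) .nil)))))) (.cons (.leaf 1 [(8,1),(6,1),(10,1)]) (.cons (.keep [0,1,6,7,8,10] (.node (.cons (.leaf 1 [(7,1),(9,1),(2,1)]) (.cons (.leaf 1 [(2,1),(7,1),(9,1)]) (.cons (.keep [4,5,6,9,10] (.node (.cons (.leaf 1 [(2,1),(9,1),(6,1)])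 (.cons (.keep [2,6,7,8,9] (.node (.cons (.keep [0,2,5,6,8] (.node (.cons (.keep [4,6,7,8,9] (.node (.cons (.leaf 2 [(5,1),(8,1),(7,2)]) (.cons (.keep [0,5,7,8,9] (.node (.cons (.leaf 3 [(7,2),(8,1)]) (.cons (.leaf 2 [(7,2),(8,1),(2,1)]) (.cons (.leaf 1 []) (.cons (.leaf 1 [(3,1)]) .nil)))))) (.cons (.leaf 2 [(6,1),(5,1),(1,1)]) (.cons (.leaf 2 [(6,1),(5,1),(1,1),(3,1)]) .nil)))))) (.cons (.keep [3,6,7,8,9] (.node (.cons (.leaf 2 [(7,2),(8,1)]) (.cons (.keep [0,5,7,8,9] (.node (.cons (.leaf 3 [(7,2),(6,1),(8,1)]) (.cons (.leaf 2 [(7,2),(6,1),(8,1),(2,1)]) (.cons (.leaf 1 []) (.cons (.leaf 1 [(3,1)]) .nil)))))) (.cons (.leaf 2 [(6,1),(1,1)]) (.cons (.leaf 2 [(6,1),(1,1),(3,1)]) .nil)))))) (.cons (.leaf 1 [(6,1)]) (.cons (.leaf 1 [(3,1),(6,1)]) .nil)))))) (.cons (.keep [3,5,6,7,8] (.node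 (.cons (.leaf 2 [(6,1),(5,2)]) (.cons (.leaf 2 [(6,1),(5,2),(3,1)]) (.cons (.leaf 1 [(8,1),(5,1)]) (.cons (.leaf 1 [(8,1),(5,1),(3,1)]) .nil)))))) (.cons (.keep [0,1,5,8,9] (.node (.cons (.keep [4,6,7,8,9] (.node (.cons (.leaf 2 [(9,1),(5,1),(7,2)]) (.cons (.keep [0,5,6,7,8,9] (.node (.cons (.leaf 3 [(10,1),(8,2)]) (.cons (.leaf 3 [(10,1),(8,2),(3,1)]) (.cons (.leaf 1 []) (.cons (.leaf 1 [(3,1)]) .nil)))))) (.cons (.leaf 2 [(9,1),(5,1),(1,1)]) (.cons (.leaf 2 [(9,1),(5,1),(1,1),(3,1)]) .nil)))))) (.cons (.keep [3,6,7,8,9] (.node (.cons (.leaf 2 [(9,1),(7,2)]) (.cons (.keep [0,5,6,7,8,9] (.node (.cons (.leaf 3 [(10,1),(6,1),(8,2)]) (.cons (.leaf 3 [(10,1),(6,1),(8,2),(3,1)]) (.cons (.leaf 1 []) (.cons (.leaf 1 [(3,1)]) .nil)))))) (.cons (.leaf 2 [(9,1),(1,1)]) (.cons (.leaf 2 [(9,1),(1,1),(3,1)])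 .nil)))))) (.cons (.leaf 1 [(9,1)]) (.cons (.leaf 1 [(3,1),(9,1)]) .nil)))))) (.cons (.keep [0,1,5,8,9] (.node (.cons (.leaf 2 [(9,2),(7,1),(6,1)]) (.cons (.leaf 2 [(9,2),(7,1),(6,1),(3,1)]) (.cons (.leaf 1 [(5,1),(9,1)]) (.cons (.leaf 1 [(0,1),(9,1),(3,2)]) .nil)))))) .nil)))))) (.cons (.leaf 1 [(6,1),(9,1)]) (.cons (.keep [0,1,5,6,7,9] (.node (.cons (.keep [2,4,6,7,8] (.node (.cons (.keep [4,5,7,8,9] (.node (.cons (.leaf 2 [(7,1),(5,1),(9,1)]) (.cons (.keep [0,5,7,8,9] (.node (.cons (.leaf 3 [(7,2),(9,1)]) (.cons (.leaf 2 [(7,1),(9,1),(2,1)]) (.cons (.leaf 1 [(7,1)]) (.cons (.leaf 1 [(3,1),(7,1)]) .nil)))))) (.cons (.leaf 2 [(7,1),(5,1),(1,1)]) (.cons (.leaf 2 [(7,1),(5,1),(1,1)]) .nil)))))) (.cons (.keep [0,3,5,7,9] (.node (.cons (.leaf 2 [(8,1),(9,1)]) (.cons (.keep [0,5,6,8,9]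 (.node (.cons (.leaf 3 [(8,2),(7,1),(9,1)]) (.cons (.leaf 2 [(8,1),(7,1),(9,1),(2,1)]) (.cons (.leaf 1 [(8,1)]) (.cons (.leaf 1 [(3,1),(8,1)]) .nil)))))) (.cons (.leaf 2 [(8,1),(1,1)]) (.cons (.leaf 2 [(8,1),(1,1)]) .nil)))))) (.cons (.leaf 1 [(5,1),(7,1)]) (.cons (.leaf 1 [(5,1),(7,1),(3,1)]) .nil)))))) (.cons (.keep [5,6,7,8,9,10] (.node (.cons (.leaf 2 [(5,1),(10,2)]) (.cons (.leaf 2 [(5,1),(10,2),(3,1)]) (.cons (.leaf 1 [(9,1),(10,1)]) (.cons (.leaf 1 [(9,1),(10,1),(3,1)]) .nil)))))) (.cons (.keep [4,5,6,7,8,10] (.node (.cons (.keep [4,6,7,8,9,10] (.node (.cons (.leaf 1 [(5,1),(8,1)]) (.cons (.keep [5,6,7,8,9,10] (.node (.cons (.leaf 2 [(7,1),(8,1)]) (.cons (.leaf 2 [(7,1),(8,1),(3,1)]) (.cons (.leaf 1 [(7,1)]) (.cons (.leaf 1 [(7,1),(3,1)]) .nil)))))) (.cons (.leaf 1 [(8,1),(5,1),(1,1)])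 (.cons (.leaf 1 [(1,1),(5,1),(7,1),(8,1)]) .nil)))))) (.cons (.keep [3,6,7,8,9,10] (.node (.cons (.leaf 1 [(8,1)]) (.cons (.keep [5,6,7,8,9,10] (.node (.cons (.leaf 2 [(7,1),(5,1),(8,1)]) (.cons (.leaf 2 [(7,1),(5,1),(8,1),(3,1)]) (.cons (.leaf 1 [(7,1)]) (.cons (.leaf 1 [(7,1),(3,1)]) .nil)))))) (.cons (.leaf 1 [(8,1),(1,1)]) (.cons (.leaf 1 [(1,1),(7,1),(8,1)]) .nil)))))) (.cons (.leaf 1 [(10,1)]) (.cons (.leaf 1 [(10,1),(3,1)]) .nil)))))) (.cons (.keep [5,6,7,8,9,10] (.node (.cons (.leaf 2 [(10,2),(8,1)]) (.cons (.leaf 2 [(10,2),(8,1),(3,1)]) (.cons (.leaf 1 [(9,1),(10,1)]) (.cons (.leaf 1 [(6,1),(0,1),(10,1),(3,2)]) .nil)))))) .nil)))))) .nil)))))) (.cons (.keep [0,6,7,8,10] (.node (.cons (.leaf 1 [(2,1),(9,1)]) (.cons (.leaf 1 [(2,1),(9,1)]) (.cons (.leaf 1 [(9,2),(8,1),(5,2)])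 (.cons (.leaf 1 [(9,2),(8,1),(0,2)]) .nil)))))) .nil)))))) .nil)))))

theorem c_10_24_2 : Concl 10 24 z_10_24_2 h_10_24_2 .nd := piece _ hP_nil t_10_24_2 _ _ (by
  decide +kernel)

def z_10_24_5 : F := ⟨-1, -1, 0, 0, 3⟩

def h_10_24_5 : List F := [⟨-1, -1, 0, -1, 3⟩, ⟨-1, 0, 1, 0, 0⟩, ⟨0, 1, -1, 0, 0⟩, ⟨-1, -2, 0, 0,
  3⟩, ⟨1, 0, -1, 1, 1⟩]

def t_10_24_5 : T := (.node (.cons (.leaf 1 [(7,1),(6,1),(2,2)]) (.cons (.keep [0,2,6,8,9] (.node (.cons (.leaf 2 [(2,3),(9,1),(6,1)]) (.cons (.leaf 2 [(6,3),(7,2),(2,1),(9,3)]) (.cons (.keep [0,6,7,8,9] (.node (.cons (.leaf 1 [(2,1),(6,1),(9,1)]) (.cons (.keep [2,6,7,8,9] (.node (.cons (.keep [2,4,5,6,8] (.node (.cons (.keep [2,4,5,7,8] (.node (.cons (.leaf 2 [(6,1),(9,3),(8,2)]) (.cons (.keep [0,5,6,8,9] (.node (.cons (.leaf 3 [(9,4),(8,2)])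 (.cons (.leaf 2 [(9,3),(8,2),(2,1)]) (.cons (.leaf 1 [(9,1)]) (.cons (.leaf 1 [(3,1),(9,1)]) .nil)))))) (.cons (.leaf 2 [(9,1),(6,1),(1,1)]) (.cons (.leaf 2 [(9,1),(6,1),(3,1),(1,1)]) .nil)))))) (.cons (.keep [3,5,7,8,9] (.node (.cons (.leaf 2 [(7,2),(8,3)]) (.cons (.keep [0,5,7,8,9] (.node (.cons (.leaf 3 [(6,1),(8,4),(7,2)]) (.cons (.leaf 2 [(6,1),(8,3),(7,2),(2,1)]) (.cons (.leaf 1 [(8,1)]) (.cons (.leaf 1 [(3,1),(8,1)]) .nil)))))) (.cons (.leaf 2 [(8,1),(1,1)]) (.cons (.leaf 2 [(8,1),(1,1),(3,1)]) .nil)))))) (.cons (.leaf 1 []) (.cons (.leaf 1 [(3,1)]) .nil)))))) (.cons (.keep [5,6,7,8,9] (.node (.cons (.leaf 2 [(5,1),(6,2)]) (.cons (.leaf 2 [(5,1),(6,2),(3,1)]) (.cons (.leaf 1 []) (.cons (.leaf 1 [(3,1)]) .nil)))))) (.cons (.keep [1,4,5,7,8] (.node (.cons (.keep [2,4,5,7,8]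 (.node (.cons (.leaf 2 [(6,1),(7,1),(8,2)]) (.cons (.keep [0,5,6,7,8] (.node (.cons (.leaf 3 [(8,2),(9,2)]) (.cons (.leaf 2 [(8,1),(9,2),(2,1)]) (.cons (.leaf 1 [(8,1)]) (.cons (.leaf 1 [(3,1),(8,1)]) .nil)))))) (.cons (.leaf 2 [(7,1),(6,1),(1,1)]) (.cons (.leaf 2 [(7,1),(6,1),(3,1),(1,1)]) .nil)))))) (.cons (.keep [3,5,7,8,9] (.node (.cons (.leaf 2 [(7,2),(6,1)]) (.cons (.keep [0,5,6,7,9] (.node (.cons (.leaf 3 [(6,1),(7,2),(8,2)]) (.cons (.leaf 2 [(6,1),(7,1),(8,2),(2,1)]) (.cons (.leaf 1 [(7,1)]) (.cons (.leaf 1 [(3,1),(7,1)]) .nil)))))) (.cons (.leaf 2 [(6,1),(1,1)]) (.cons (.leaf 2 [(6,1),(1,1),(3,1)]) .nil)))))) (.cons (.leaf 1 []) (.cons (.leaf 1 [(3,1)]) .nil)))))) (.cons (.keep [0,1,3,5,8] (.node (.cons (.leaf 2 [(8,1),(6,1),(7,2)]) (.cons (.leaf 2 [(8,1),(6,1),(7,2),(3,1)])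 (.cons (.leaf 1 []) (.cons (.leaf 1 [(3,1)]) .nil)))))) .nil)))))) (.cons (.leaf 1 [(9,1),(6,1)]) (.cons (.keep [0,1,6,7,8,9] (.node (.cons (.keep [4,7,8,9,10] (.node (.cons (.keep [4,5,6,7,9] (.node (.cons (.leaf 2 [(5,1),(7,1),(9,2)]) (.cons (.keep [0,5,6,7,9] (.node (.cons (.leaf 3 [(8,2),(9,2)]) (.cons (.leaf 2 [(8,1),(9,2),(2,1)]) (.cons (.leaf 1 [(8,1)]) (.cons (.leaf 1 [(3,1),(8,1)]) .nil)))))) (.cons (.leaf 2 [(7,1),(5,1),(1,1)]) (.cons (.leaf 2 [(7,1),(5,1),(3,1),(1,1)]) .nil)))))) (.cons (.keep [3,6,7,8,9] (.node (.cons (.leaf 2 [(9,2),(6,1)]) (.cons (.keep [0,5,6,8,9] (.node (.cons (.leaf 3 [(6,1),(7,2),(9,2)]) (.cons (.leaf 2 [(6,1),(7,1),(9,2),(2,1)]) (.cons (.leaf 1 [(7,1)]) (.cons (.leaf 1 [(3,1),(7,1)]) .nil)))))) (.cons (.leaf 2 [(6,1),(1,1)]) (.cons (.leaf 2 [(6,1),(1,1),(3,1)])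 .nil)))))) (.cons (.leaf 1 []) (.cons (.leaf 1 [(3,1)]) .nil)))))) (.cons (.keep [3,6,8,9,10] (.node (.cons (.leaf 2 [(5,2),(9,2),(6,1)]) (.cons (.leaf 2 [(5,2),(9,2),(6,1),(3,1)]) (.cons (.leaf 1 []) (.cons (.leaf 1 [(3,1)]) .nil)))))) (.cons (.keep [4,5,6,9,10] (.node (.cons (.keep [4,5,6,7,9] (.node (.cons (.leaf 2 [(7,1),(5,1),(9,2)]) (.cons (.keep [5,6,7,8,9] (.node (.cons (.leaf 3 [(9,2)]) (.cons (.leaf 3 [(9,2),(3,1)]) (.cons (.leaf 1 [(8,1),(9,1)]) (.cons (.leaf 1 [(8,1),(9,1),(3,1)]) .nil)))))) (.cons (.leaf 2 [(9,1),(5,1),(1,1)]) (.cons (.leaf 2 [(9,1),(5,1),(1,1)]) .nil)))))) (.cons (.keep [3,6,7,8,9] (.node (.cons (.leaf 2 [(6,1),(9,2)]) (.cons (.keep [5,6,7,8,9] (.node (.cons (.leaf 3 [(5,1),(9,2)]) (.cons (.leaf 3 [(5,1),(9,2),(3,1)]) (.cons (.leaf 1 [(7,1),(9,1)])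 (.cons (.leaf 1 [(7,1),(9,1),(3,1)]) .nil)))))) (.cons (.leaf 2 [(9,1),(1,1)]) (.cons (.leaf 2 [(9,1),(1,1)]) .nil)))))) (.cons (.leaf 1 []) (.cons (.leaf 1 [(3,1)]) .nil)))))) (.cons (.keep [3,5,6,8,9,10] (.node (.cons (.leaf 2 [(5,2),(10,1)]) (.cons (.leaf 1 [(2,1),(10,1),(5,2)]) (.cons (.leaf 1 []) (.cons (.leaf 1 [(3,1)]) .nil)))))) .nil)))))) .nil)))))) (.cons (.keep [0,6,7,8,9] (.node (.cons (.leaf 1 [(2,1),(6,1)]) (.cons (.leaf 1 [(2,1),(6,1)]) (.cons (.leaf 1 [(9,1),(6,1)]) (.cons (.leaf 1 [(7,1),(6,2),(0,1),(9,2)]) .nil)))))) .nil)))))) (.cons (.leaf 1 [(7,1),(6,1)]) (.cons (.keep [0,6,7,9] (.node (.cons (.leaf 2 [(2,3),(8,1)]) (.cons (.leaf 1 [(2,1),(6,1),(8,1),(7,1)]) (.cons (.keep [4,5,6,7,8] (.node (.cons (.leaf 1 [(2,1),(6,1),(9,1)]) (.cons (.keep [2,6,7,8,9] (.node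 (.cons (.keep [0,2,5,6,8] (.node (.cons (.keep [4,6,7,8,9] (.node (.cons (.leaf 2 [(5,1),(8,1),(7,2)]) (.cons (.keep [0,5,7,8,9] (.node (.cons (.leaf 3 [(7,2),(8,1)]) (.cons (.leaf 2 [(7,2),(8,1),(2,1)]) (.cons (.leaf 1 []) (.cons (.leaf 1 [(3,1)]) .nil)))))) (.cons (.leaf 2 [(6,1),(5,1),(1,1)]) (.cons (.leaf 2 [(6,1),(5,1),(1,1),(3,1)]) .nil)))))) (.cons (.keep [3,6,7,8,9] (.node (.cons (.leaf 2 [(7,2),(8,1)]) (.cons (.keep [0,5,7,8,9] (.node (.cons (.leaf 3 [(7,2),(6,1),(8,1)]) (.cons (.leaf 2 [(7,2),(6,1),(8,1),(2,1)]) (.cons (.leaf 1 []) (.cons (.leaf 1 [(3,1)]) .nil)))))) (.cons (.leaf 2 [(6,1),(1,1)]) (.cons (.leaf 2 [(6,1),(1,1),(3,1)]) .nil)))))) (.cons (.leaf 1 [(6,1)]) (.cons (.leaf 1 [(3,1),(6,1)]) .nil)))))) (.cons (.keep [2,5,6,8,9] (.node (.cons (.leaf 2 [(6,1)]) (.cons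 (.leaf 2 [(6,1),(3,1)]) (.cons (.leaf 1 [(9,1),(5,1)]) (.cons (.leaf 1 [(9,1),(5,1),(3,1)]) .nil)))))) (.cons (.keep [1,4,5,7,8] (.node (.cons (.keep [4,5,7,8,9] (.node (.cons (.leaf 2 [(5,1),(6,1),(7,2)]) (.cons (.keep [0,5,6,7,9] (.node (.cons (.leaf 3 [(7,2),(8,2)]) (.cons (.leaf 2 [(7,1),(8,2),(2,1)]) (.cons (.leaf 1 [(7,1)]) (.cons (.leaf 1 [(3,1),(7,1)]) .nil)))))) (.cons (.leaf 2 [(6,1),(5,1),(1,1)]) (.cons (.leaf 2 [(6,1),(5,1),(3,1),(1,1)]) .nil)))))) (.cons (.keep [3,5,7,8,9] (.node (.cons (.leaf 2 [(7,2),(6,1)]) (.cons (.keep [0,5,6,7,9] (.node (.cons (.leaf 3 [(6,1),(7,2),(8,2)]) (.cons (.leaf 2 [(6,1),(7,1),(8,2),(2,1)]) (.cons (.leaf 1 [(7,1)]) (.cons (.leaf 1 [(3,1),(7,1)]) .nil)))))) (.cons (.leaf 2 [(6,1),(1,1)]) (.cons (.leaf 2 [(6,1),(1,1),(3,1)]) .nil)))))) (.cons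 (.leaf 1 []) (.cons (.leaf 1 [(3,1)]) .nil)))))) (.cons (.keep [0,3,5,8,9] (.node (.cons (.leaf 1 [(7,1),(8,1)]) (.cons (.leaf 1 [(8,1),(7,1),(3,1)]) (.cons (.leaf 1 [(9,1),(5,1)]) (.cons (.leaf 1 [(9,1),(0,1),(3,2)]) .nil)))))) .nil)))))) (.cons (.leaf 1 [(9,1),(6,1)]) (.cons (.keep [0,1,5,6,7,9] (.node (.cons (.keep [0,7,8,9,10] (.node (.cons (.keep [4,6,7,8,9] (.node (.cons (.leaf 2 [(5,1),(7,1),(9,2)]) (.cons (.keep [0,5,6,7,9] (.node (.cons (.leaf 1 [(7,2),(8,1)]) (.cons (.leaf 1 [(7,2),(8,1),(3,1)]) (.cons (.leaf 1 []) (.cons (.leaf 1 [(3,1)]) .nil)))))) (.cons (.leaf 1 [(6,1),(5,1),(1,1)]) (.cons (.leaf 1 [(6,1),(5,1),(1,1)]) .nil)))))) (.cons (.keep [3,6,7,8,9] (.node (.cons (.leaf 2 [(9,2),(7,1)]) (.cons (.keep [0,5,6,7,9] (.node (.cons (.leaf 1 [(7,2),(6,1),(8,1)]) (.cons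 (.leaf 1 [(7,2),(6,1),(8,1),(3,1)]) (.cons (.leaf 1 []) (.cons (.leaf 1 [(3,1)]) .nil)))))) (.cons (.leaf 1 [(6,1),(1,1)]) (.cons (.leaf 1 [(6,1),(1,1)]) .nil)))))) (.cons (.leaf 1 [(8,1),(9,1)]) (.cons (.leaf 1 [(8,1),(9,1),(3,1)]) .nil)))))) (.cons (.keep [3,6,7,8,9,10] (.node (.cons (.leaf 1 [(7,1)]) (.cons (.leaf 1 [(7,1),(3,1)]) (.cons (.leaf 1 [(10,1),(9,1)]) (.cons (.leaf 1 [(10,1),(9,1),(3,1)]) .nil)))))) (.cons (.keep [4,5,6,7,10] (.node (.cons (.keep [4,6,7,8,9] (.node (.cons (.leaf 2 [(6,1),(5,1),(9,2)]) (.cons (.keep [5,6,7,8,9] (.node (.cons (.leaf 3 [(9,2)]) (.cons (.leaf 3 [(9,2),(3,1)]) (.cons (.leaf 1 [(7,1),(9,1)]) (.cons (.leaf 1 [(7,1),(9,1),(3,1)]) .nil)))))) (.cons (.leaf 2 [(9,1),(5,1),(1,1)]) (.cons (.leaf 2 [(9,1),(5,1),(1,1)]) .nil)))))) (.cons (.keep [3,6,7,8,9]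 (.node (.cons (.leaf 2 [(6,1),(9,2)]) (.cons (.keep [5,6,7,8,9] (.node (.cons (.leaf 3 [(5,1),(9,2)]) (.cons (.leaf 3 [(5,1),(9,2),(3,1)]) (.cons (.leaf 1 [(7,1),(9,1)]) (.cons (.leaf 1 [(7,1),(9,1),(3,1)]) .nil)))))) (.cons (.leaf 2 [(9,1),(1,1)]) (.cons (.leaf 2 [(9,1),(1,1)]) .nil)))))) (.cons (.leaf 1 []) (.cons (.leaf 1 [(3,1)]) .nil)))))) (.cons (.keep [3,5,6,7,9,10] (.node (.cons (.leaf 2 [(5,1),(10,1)]) (.cons (.leaf 2 [(5,1),(10,1),(3,1)]) (.cons (.leaf 1 [(9,1),(10,1)]) (.cons (.leaf 1 [(7,1),(10,1),(0,1),(3,2)]) .nil)))))) .nil)))))) .nil)))))) (.cons (.keep [0,5,6,7,8] (.node (.cons (.leaf 1 [(2,1)]) (.cons (.leaf 1 [(2,1)]) (.cons (.leaf 1 [(9,1),(8,1),(5,1)]) (.cons (.leaf 1 [(7,1),(0,2),(9,2),(8,1)]) .nil)))))) .nil)))))) .nil)))))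

theorem c_10_24_5 : Concl 10 24 z_10_24_5 h_10_24_5 .nd := piece _ hP_nil t_10_24_5 _ _ (by
  decide +kernel)

def z_10_24_6 : F := ⟨0, -1, -1, 1, 4⟩

def h_10_24_6 : List F := [⟨0, -1, -1, 0, 4⟩, ⟨-1, 0, 1, 0, 0⟩, ⟨0, 1, -1, 1, 1⟩, ⟨0, 1, -1, 0,
  0⟩, ⟨0, -2, -1, 1, 4⟩, ⟨-1, 0, 1, -1, 1⟩]

def t_10_24_6 : T := (.node (.cons (.leaf 1 [(2,2),(6,1)]) (.cons (.keep [0,2,6,7] (.node (.cons (.leaf 2 [(2,2),(7,1),(6,2)]) (.cons (.leaf 3 [(2,2),(6,4),(7,2),(8,1)]) (.cons (.keep [4,5,6,7,8] (.node (.cons (.leaf 1 [(2,1),(7,1)]) (.cons (.keep [2,6,7,8,9] (.node (.cons (.keep [0,2,5,6,9] (.node (.cons (.keep [4,6,7,8,9] (.node (.cons (.leaf 2 [(5,1),(8,1),(7,2)]) (.cons (.keep [0,5,7,8,9] (.node (.cons (.leaf 3 [(7,2),(8,1)]) (.cons (.leaf 2 [(7,2),(8,1),(2,1)]) (.cons (.leaf 1 []) (.cons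 (.leaf 1 [(3,1)]) .nil)))))) (.cons (.leaf 2 [(6,1),(5,1),(1,1)]) (.cons (.leaf 2 [(6,1),(5,1),(1,1),(3,1)]) .nil)))))) (.cons (.keep [3,6,7,8,9] (.node (.cons (.leaf 2 [(7,2),(8,1)]) (.cons (.keep [0,5,7,8,9] (.node (.cons (.leaf 3 [(7,2),(6,1),(8,1)]) (.cons (.leaf 2 [(7,2),(6,1),(8,1),(2,1)]) (.cons (.leaf 1 []) (.cons (.leaf 1 [(3,1)]) .nil)))))) (.cons (.leaf 2 [(6,1),(1,1)]) (.cons (.leaf 2 [(6,1),(1,1),(3,1)]) .nil)))))) (.cons (.leaf 1 [(6,1)]) (.cons (.leaf 1 [(3,1),(6,1)]) .nil)))))) (.cons (.keep [5,6,7,8,9] (.node (.cons (.leaf 2 [(8,2),(5,1),(7,4)]) (.cons (.leaf 2 [(8,2),(5,1),(7,4),(3,1)]) (.cons (.leaf 1 [(8,1),(7,1)]) (.cons (.leaf 1 [(3,1),(8,1),(7,1)]) .nil)))))) (.cons (.keep [0,1,5,8,9] (.node (.cons (.keep [4,6,7,8,9] (.node (.cons (.leaf 2 [(8,1),(5,1),(7,2)])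 (.cons (.keep [0,5,6,7,8,9] (.node (.cons (.leaf 3 [(9,1),(8,2)]) (.cons (.leaf 3 [(9,1),(8,2),(3,1)]) (.cons (.leaf 1 []) (.cons (.leaf 1 [(3,1)]) .nil)))))) (.cons (.leaf 2 [(8,1),(5,1),(1,1)]) (.cons (.leaf 2 [(8,1),(5,1),(1,1),(3,1)]) .nil)))))) (.cons (.keep [3,6,7,8,9] (.node (.cons (.leaf 2 [(8,1),(7,2)]) (.cons (.keep [0,5,6,7,8,9] (.node (.cons (.leaf 3 [(9,1),(6,1),(8,2)]) (.cons (.leaf 3 [(9,1),(6,1),(8,2),(3,1)]) (.cons (.leaf 1 []) (.cons (.leaf 1 [(3,1)]) .nil)))))) (.cons (.leaf 2 [(8,1),(1,1)]) (.cons (.leaf 2 [(8,1),(1,1),(3,1)]) .nil)))))) (.cons (.leaf 1 [(8,1)]) (.cons (.leaf 1 [(3,1),(8,1)]) .nil)))))) (.cons (.keep [1,3,5,8,9] (.node (.cons (.leaf 1 [(2,1),(7,1),(6,2)]) (.cons (.leaf 1 [(2,1),(7,1),(6,2)]) (.cons (.leaf 1 [(8,1),(6,1)]) (.cons (.leaf 1 [(8,1),(6,1),(3,1)])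 .nil)))))) .nil)))))) (.cons (.leaf 1 [(7,1)]) (.cons (.keep [0,1,6,7,8,9] (.node (.cons (.keep [4,7,8,9,10] (.node (.cons (.keep [4,6,7,8,9] (.node (.cons (.leaf 2 [(5,1),(7,1)]) (.cons (.keep [5,6,7,8,9] (.node (.cons (.leaf 1 [(2,2),(6,1)]) (.cons (.leaf 2 [(7,1),(2,1)]) (.cons (.leaf 1 [(8,1),(7,2)]) (.cons (.leaf 1 [(8,1),(7,2),(3,1)]) .nil)))))) (.cons (.leaf 2 [(7,1),(5,1),(1,1)]) (.cons (.leaf 2 [(7,2),(5,1),(8,1),(1,1)]) .nil)))))) (.cons (.keep [0,3,6,7,8] (.node (.cons (.leaf 2 [(8,1)]) (.cons (.keep [5,6,7,8,9] (.node (.cons (.leaf 1 [(2,2),(6,1),(7,1)]) (.cons (.leaf 2 [(8,1),(2,1),(6,1)]) (.cons (.leaf 1 [(9,1),(8,2)]) (.cons (.leaf 1 [(9,1),(8,2),(3,1)]) .nil)))))) (.cons (.leaf 2 [(8,1),(1,1)]) (.cons (.leaf 2 [(8,2),(9,1),(1,1)]) .nil)))))) (.cons (.leaf 1 [(8,1),(7,1)])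 (.cons (.leaf 1 [(8,1),(7,1),(3,1)]) .nil)))))) (.cons (.keep [5,6,7,8,9,10] (.node (.cons (.leaf 2 [(9,2),(5,1),(8,4)]) (.cons (.leaf 2 [(9,2),(5,1),(8,4),(3,1)]) (.cons (.leaf 2 [(6,1),(9,2),(1,1)]) (.cons (.leaf 2 [(6,1),(9,2),(1,1),(3,3)]) .nil)))))) (.cons (.keep [4,5,6,7,9,10] (.node (.cons (.keep [4,6,7,8,9,10] (.node (.cons (.leaf 2 [(9,1),(5,1),(6,1)]) (.cons (.keep [5,6,7,8,9,10] (.node (.cons (.leaf 3 [(9,1)]) (.cons (.leaf 3 [(9,1),(3,1)]) (.cons (.leaf 1 [(7,1)]) (.cons (.leaf 1 [(7,1),(3,1)]) .nil)))))) (.cons (.leaf 2 [(9,1),(5,1),(1,1)]) (.cons (.leaf 2 [(1,1),(5,1),(9,1)]) .nil)))))) (.cons (.keep [3,6,7,8,9,10] (.node (.cons (.leaf 2 [(9,1),(6,1)]) (.cons (.keep [5,6,7,8,9,10] (.node (.cons (.leaf 3 [(5,1),(9,1)]) (.cons (.leaf 3 [(5,1),(9,1),(3,1)]) (.cons (.leaf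 1 [(7,1)]) (.cons (.leaf 1 [(7,1),(3,1)]) .nil)))))) (.cons (.leaf 2 [(9,1),(1,1)]) (.cons (.leaf 2 [(1,1),(9,1)]) .nil)))))) (.cons (.leaf 1 [(9,1)]) (.cons (.leaf 1 [(9,1),(3,1)]) .nil)))))) (.cons (.keep [3,5,6,7,9,10] (.node (.cons (.leaf 1 [(2,1),(5,2)]) (.cons (.leaf 1 [(2,1),(5,2)]) (.cons (.leaf 1 [(9,2),(1,1)]) (.cons (.leaf 1 [(9,2),(1,1),(3,2)]) .nil)))))) .nil)))))) .nil)))))) (.cons (.keep [0,5,6,7,8] (.node (.cons (.leaf 1 [(2,1),(7,1)]) (.cons (.leaf 1 [(2,1),(8,1),(7,2),(0,1)]) (.cons (.leaf 1 [(7,1)]) (.cons (.leaf 1 [(7,2),(8,1),(0,1)]) .nil)))))) .nil)))))) (.cons (.leaf 1 [(8,1),(6,1),(10,1)]) (.cons (.keep [0,1,6,7,8,10] (.node (.cons (.leaf 1 [(7,1),(9,1),(2,1)]) (.cons (.leaf 1 [(2,1),(7,1),(9,1)]) (.cons (.keep [4,5,6,9,10] (.node (.cons (.leaf 1 [(2,1),(9,1),(6,1)])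 (.cons (.keep [2,6,7,8,9] (.node (.cons (.keep [0,2,5,6,8] (.node (.cons (.keep [4,6,7,8,9] (.node (.cons (.leaf 2 [(5,1),(8,1),(7,2)]) (.cons (.keep [0,5,7,8,9] (.node (.cons (.leaf 3 [(7,2),(8,1)]) (.cons (.leaf 2 [(7,2),(8,1),(2,1)]) (.cons (.leaf 1 []) (.cons (.leaf 1 [(3,1)]) .nil)))))) (.cons (.leaf 2 [(6,1),(5,1),(1,1)]) (.cons (.leaf 2 [(6,1),(5,1),(1,1),(3,1)]) .nil)))))) (.cons (.keep [3,6,7,8,9] (.node (.cons (.leaf 2 [(7,2),(8,1)]) (.cons (.keep [0,5,7,8,9] (.node (.cons (.leaf 3 [(7,2),(6,1),(8,1)]) (.cons (.leaf 2 [(7,2),(6,1),(8,1),(2,1)]) (.cons (.leaf 1 []) (.cons (.leaf 1 [(3,1)]) .nil)))))) (.cons (.leaf 2 [(6,1),(1,1)]) (.cons (.leaf 2 [(6,1),(1,1),(3,1)]) .nil)))))) (.cons (.leaf 1 [(6,1)]) (.cons (.leaf 1 [(3,1),(6,1)]) .nil)))))) (.cons (.keep [3,5,6,7,8] (.node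 (.cons (.leaf 2 [(6,1),(5,2)]) (.cons (.leaf 2 [(6,1),(5,2),(3,1)]) (.cons (.leaf 1 [(8,1),(5,1)]) (.cons (.leaf 1 [(8,1),(5,1),(3,1)]) .nil)))))) (.cons (.keep [0,1,5,8,9] (.node (.cons (.keep [4,6,7,8,9] (.node (.cons (.leaf 2 [(9,1),(5,1),(7,2)]) (.cons (.keep [0,5,6,7,8,9] (.node (.cons (.leaf 3 [(10,1),(8,2)]) (.cons (.leaf 3 [(10,1),(8,2),(3,1)]) (.cons (.leaf 1 []) (.cons (.leaf 1 [(3,1)]) .nil)))))) (.cons (.leaf 2 [(9,1),(5,1),(1,1)]) (.cons (.leaf 2 [(9,1),(5,1),(1,1),(3,1)]) .nil)))))) (.cons (.keep [3,6,7,8,9] (.node (.cons (.leaf 2 [(9,1),(7,2)]) (.cons (.keep [0,5,6,7,8,9] (.node (.cons (.leaf 3 [(10,1),(6,1),(8,2)]) (.cons (.leaf 3 [(10,1),(6,1),(8,2),(3,1)]) (.cons (.leaf 1 []) (.cons (.leaf 1 [(3,1)]) .nil)))))) (.cons (.leaf 2 [(9,1),(1,1)]) (.cons (.leaf 2 [(9,1),(1,1),(3,1)])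 .nil)))))) (.cons (.leaf 1 [(9,1)]) (.cons (.leaf 1 [(3,1),(9,1)]) .nil)))))) (.cons (.keep [0,1,5,8,9] (.node (.cons (.leaf 2 [(9,2),(7,1),(6,1)]) (.cons (.leaf 2 [(9,2),(7,1),(6,1),(3,1)]) (.cons (.leaf 1 [(5,1),(9,1)]) (.cons (.leaf 1 [(0,1),(9,1),(3,2)]) .nil)))))) .nil)))))) (.cons (.leaf 1 [(6,1),(9,1)]) (.cons (.keep [0,1,5,6,7,9] (.node (.cons (.keep [2,4,6,7,8] (.node (.cons (.keep [4,5,7,8,9] (.node (.cons (.leaf 2 [(7,1),(5,1),(9,1)]) (.cons (.keep [0,5,7,8,9] (.node (.cons (.leaf 3 [(7,2),(9,1)]) (.cons (.leaf 2 [(7,1),(9,1),(2,1)]) (.cons (.leaf 1 [(7,1)]) (.cons (.leaf 1 [(3,1),(7,1)]) .nil)))))) (.cons (.leaf 2 [(7,1),(5,1),(1,1)]) (.cons (.leaf 2 [(7,1),(5,1),(1,1)]) .nil)))))) (.cons (.keep [0,3,5,7,9] (.node (.cons (.leaf 2 [(8,1),(9,1)]) (.cons (.keep [0,5,6,8,9]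 (.node (.cons (.leaf 3 [(8,2),(7,1),(9,1)]) (.cons (.leaf 2 [(8,1),(7,1),(9,1),(2,1)]) (.cons (.leaf 1 [(8,1)]) (.cons (.leaf 1 [(3,1),(8,1)]) .nil)))))) (.cons (.leaf 2 [(8,1),(1,1)]) (.cons (.leaf 2 [(8,1),(1,1)]) .nil)))))) (.cons (.leaf 1 [(5,1),(7,1)]) (.cons (.leaf 1 [(5,1),(7,1),(3,1)]) .nil)))))) (.cons (.keep [5,6,7,8,9,10] (.node (.cons (.leaf 2 [(5,1),(10,2)]) (.cons (.leaf 2 [(5,1),(10,2),(3,1)]) (.cons (.leaf 1 [(9,1),(10,1)]) (.cons (.leaf 1 [(9,1),(10,1),(3,1)]) .nil)))))) (.cons (.keep [4,5,6,7,8,10] (.node (.cons (.keep [4,6,7,8,9,10] (.node (.cons (.leaf 1 [(5,1),(8,1)]) (.cons (.keep [5,6,7,8,9,10] (.node (.cons (.leaf 2 [(7,1),(8,1)]) (.cons (.leaf 2 [(7,1),(8,1),(3,1)]) (.cons (.leaf 1 [(7,1)]) (.cons (.leaf 1 [(7,1),(3,1)]) .nil)))))) (.cons (.leaf 1 [(8,1),(5,1),(1,1)])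 (.cons (.leaf 1 [(1,1),(5,1),(7,1),(8,1)]) .nil)))))) (.cons (.keep [3,6,7,8,9,10] (.node (.cons (.leaf 1 [(8,1)]) (.cons (.keep [5,6,7,8,9,10] (.node (.cons (.leaf 2 [(7,1),(5,1),(8,1)]) (.cons (.leaf 2 [(7,1),(5,1),(8,1),(3,1)]) (.cons (.leaf 1 [(7,1)]) (.cons (.leaf 1 [(7,1),(3,1)]) .nil)))))) (.cons (.leaf 1 [(8,1),(1,1)]) (.cons (.leaf 1 [(1,1),(7,1),(8,1)]) .nil)))))) (.cons (.leaf 1 [(10,1)]) (.cons (.leaf 1 [(10,1),(3,1)]) .nil)))))) (.cons (.keep [5,6,7,8,9,10] (.node (.cons (.leaf 2 [(10,2),(8,1)]) (.cons (.leaf 2 [(10,2),(8,1),(3,1)]) (.cons (.leaf 1 [(9,1),(10,1)]) (.cons (.leaf 1 [(6,1),(0,1),(10,1),(3,2)]) .nil)))))) .nil)))))) .nil)))))) (.cons (.keep [0,6,7,8,10] (.node (.cons (.leaf 1 [(2,1),(9,1)]) (.cons (.leaf 1 [(2,1),(9,1)]) (.cons (.leaf 1 [(9,2),(8,1),(5,2)])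 (.cons (.leaf 1 [(9,2),(8,1),(0,2)]) .nil)))))) .nil)))))) .nil)))))

theorem c_10_24_6 : Concl 10 24 z_10_24_6 h_10_24_6 .nd := piece _ hP_nil t_10_24_6 _ _ (by
  decide +kernel)

def z_10_24_10 : F := ⟨-1, -1, 0, 1, 6⟩

def h_10_24_10 : List F := [⟨1, 0, -1, 0, 0⟩, ⟨-1, -2, 0, 1, 6⟩, ⟨0, 0, 0, -1, 1⟩, ⟨0, 1, 0, 0,
  1⟩]

def t_10_24_10 : T := (.node (.cons (.leaf 1 [(2,2)]) (.cons (.keep [0,5,6,7,8] (.node (.cons (.leaf 2 [(2,4),(8,2),(6,1)]) (.cons (.leaf 2 [(9,3),(8,2),(2,1),(6,1)]) (.cons (.keep [4,5,6,7,8] (.node (.cons (.leaf 1 [(5,1),(2,1),(7,2)]) (.cons (.keep [0,2,6,7,8,9] (.node (.cons (.keep [2,4,6,8,9] (.node (.cons (.keep [4,5,7,8,9] (.node (.cons (.leaf 4 [(5,2),(8,5),(7,4)]) (.cons (.keep [0,5,7,8,9] (.node (.cons (.leaf 6 [(8,7),(7,4)]) (.cons (.leaf 4 [(8,5),(7,4),(2,2)])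 (.cons (.leaf 1 [(8,1)]) (.cons (.leaf 1 [(3,1),(8,1)]) .nil)))))) (.cons (.leaf 4 [(8,3),(5,2),(1,2)]) (.cons (.leaf 4 [(8,3),(5,2),(3,2),(1,2)]) .nil)))))) (.cons (.keep [3,5,7,8,9] (.node (.cons (.leaf 4 [(7,4),(8,5)]) (.cons (.keep [0,5,7,8,9] (.node (.cons (.leaf 6 [(6,2),(8,7),(7,4)]) (.cons (.leaf 4 [(6,2),(8,5),(7,4),(2,2)]) (.cons (.leaf 1 [(8,1)]) (.cons (.leaf 1 [(3,1),(8,1)]) .nil)))))) (.cons (.leaf 4 [(8,3),(1,2)]) (.cons (.leaf 4 [(8,3),(1,2),(3,2)]) .nil)))))) (.cons (.leaf 2 [(8,1)]) (.cons (.leaf 2 [(8,1),(3,2)]) .nil)))))) (.cons (.keep [0,5,6,8,9,10] (.node (.cons (.leaf 2 [(7,1),(10,4)]) (.cons (.leaf 2 [(7,1),(10,4),(3,1)]) (.cons (.leaf 1 [(10,1)]) (.cons (.leaf 1 [(3,1),(10,1)]) .nil)))))) (.cons (.keep [1,4,5,6,9] (.node (.cons (.keep [2,4,5,7,8] (.node (.cons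 (.leaf 2 [(6,1),(7,1),(9,2)]) (.cons (.keep [0,5,6,7,9] (.node (.cons (.leaf 3 [(8,2),(9,2)]) (.cons (.leaf 2 [(8,1),(9,2),(2,1)]) (.cons (.leaf 1 [(8,1)]) (.cons (.leaf 1 [(3,1),(8,1)]) .nil)))))) (.cons (.leaf 2 [(7,1),(6,1),(1,1)]) (.cons (.leaf 2 [(7,1),(6,1),(3,1),(1,1)]) .nil)))))) (.cons (.keep [3,5,7,8,9] (.node (.cons (.leaf 2 [(8,2),(6,1)]) (.cons (.keep [0,5,6,8,9] (.node (.cons (.leaf 3 [(6,1),(7,2),(8,2)]) (.cons (.leaf 2 [(6,1),(7,1),(8,2),(2,1)]) (.cons (.leaf 1 [(7,1)]) (.cons (.leaf 1 [(3,1),(7,1)]) .nil)))))) (.cons (.leaf 2 [(6,1),(1,1)]) (.cons (.leaf 2 [(6,1),(1,1),(3,1)]) .nil)))))) (.cons (.leaf 1 []) (.cons (.leaf 1 [(3,1)]) .nil)))))) (.cons (.keep [3,5,6,7,8,9] (.node (.cons (.leaf 2 [(7,1),(5,3),(9,1)]) (.cons (.leaf 1 [(7,1),(5,2),(9,1),(2,1)]) (.cons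 (.leaf 1 [(5,1)]) (.cons (.leaf 1 [(3,1),(5,1)]) .nil)))))) .nil)))))) (.cons (.leaf 1 [(5,1),(7,2),(1,1)]) (.cons (.keep [0,1,6,7,8,9] (.node (.cons (.keep [2,4,6,8,9] (.node (.cons (.keep [4,5,7,8,9] (.node (.cons (.leaf 2 [(8,3),(5,1),(2,1)]) (.cons (.keep [5,6,7,8,9] (.node (.cons (.leaf 6 [(7,3),(8,7)]) (.cons (.leaf 4 [(7,1),(8,5),(2,2)]) (.cons (.leaf 1 [(7,4),(1,2)]) (.cons (.leaf 1 [(3,5),(7,4),(1,2)]) .nil)))))) (.cons (.leaf 2 [(7,3),(5,1),(1,1)]) (.cons (.leaf 2 [(7,3),(5,1),(3,4),(1,1)]) .nil)))))) (.cons (.keep [3,5,7,8,9] (.node (.cons (.leaf 2 [(8,3),(2,1)]) (.cons (.keep [5,6,7,8,9] (.node (.cons (.leaf 6 [(5,2),(7,3),(8,7)]) (.cons (.leaf 4 [(5,2),(7,1),(8,5),(2,2)]) (.cons (.leaf 1 [(7,1),(8,1)]) (.cons (.leaf 1 [(3,1),(7,1),(8,1)]) .nil)))))) (.cons (.leaf 2 [(7,3),(1,1)])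 (.cons (.leaf 2 [(3,4),(7,3),(1,1)]) .nil)))))) (.cons (.leaf 2 [(7,1),(6,1),(1,1)]) (.cons (.leaf 2 [(7,1),(6,1),(3,3),(1,1)]) .nil)))))) (.cons (.keep [0,5,6,8,9,10] (.node (.cons (.leaf 2 [(6,1),(8,1),(10,4)]) (.cons (.leaf 2 [(6,1),(8,1),(10,4),(3,1)]) (.cons (.leaf 2 [(7,1),(1,1)]) (.cons (.leaf 2 [(7,1),(3,3),(1,1)]) .nil)))))) (.cons (.keep [4,5,6,8,9] (.node (.cons (.keep [4,5,6,7,8] (.node (.cons (.leaf 2 [(7,1),(5,1),(9,2)]) (.cons (.keep [5,6,7,8,9] (.node (.cons (.leaf 3 [(9,2)]) (.cons (.leaf 3 [(9,2),(3,1)]) (.cons (.leaf 1 [(8,1),(9,1)]) (.cons (.leaf 1 [(8,1),(9,1),(3,1)]) .nil)))))) (.cons (.leaf 2 [(9,1),(5,1),(1,1)]) (.cons (.leaf 2 [(9,1),(5,1),(1,1)]) .nil)))))) (.cons (.keep [3,6,7,8,9] (.node (.cons (.leaf 2 [(6,1),(8,2)]) (.cons (.keep [5,6,7,8,9] (.node (.cons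 (.leaf 3 [(5,1),(8,2)]) (.cons (.leaf 3 [(5,1),(8,2),(3,1)]) (.cons (.leaf 1 [(7,1),(8,1)]) (.cons (.leaf 1 [(7,1),(8,1),(3,1)]) .nil)))))) (.cons (.leaf 2 [(8,1),(1,1)]) (.cons (.leaf 2 [(8,1),(1,1)]) .nil)))))) (.cons (.leaf 1 []) (.cons (.leaf 1 [(3,1)]) .nil)))))) (.cons (.keep [3,5,6,7,8,9] (.node (.cons (.leaf 2 [(9,1),(5,3)]) (.cons (.leaf 1 [(2,1),(5,2),(9,1)]) (.cons (.leaf 1 [(5,1)]) (.cons (.leaf 1 [(3,1),(5,1)]) .nil)))))) .nil)))))) .nil)))))) (.cons (.keep [5,6,7,8,9] (.node (.cons (.leaf 1 [(6,2),(9,1),(2,1)]) (.cons (.leaf 1 [(8,2),(9,1),(2,1)]) (.cons (.leaf 1 [(1,1),(9,1),(6,2)]) (.cons (.leaf 1 [(8,2),(9,2),(0,1),(6,1)]) .nil)))))) .nil)))))) (.cons (.leaf 1 [(8,1),(7,1)]) (.cons (.keep [1,5,6,7,8] (.node (.cons (.leaf 2 [(2,3),(6,1),(8,1)]) (.cons (.leaf 2 [(2,1),(6,1),(8,1),(9,2)])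 (.cons (.keep [0,5,6,7,8] (.node (.cons (.leaf 1 [(2,1),(9,1),(7,1)]) (.cons (.keep [0,2,6,7,8,9] (.node (.cons (.keep [2,4,6,8,9] (.node (.cons (.keep [2,4,5,7,8] (.node (.cons (.leaf 2 [(6,1),(9,3),(8,2)]) (.cons (.keep [0,5,6,8,9] (.node (.cons (.leaf 3 [(9,4),(8,2)]) (.cons (.leaf 2 [(9,3),(8,2),(2,1)]) (.cons (.leaf 1 [(9,1)]) (.cons (.leaf 1 [(3,1),(9,1)]) .nil)))))) (.cons (.leaf 2 [(9,1),(6,1),(1,1)]) (.cons (.leaf 2 [(9,1),(6,1),(3,1),(1,1)]) .nil)))))) (.cons (.keep [3,5,7,8,9] (.node (.cons (.leaf 2 [(7,2),(8,3)]) (.cons (.keep [0,5,7,8,9] (.node (.cons (.leaf 3 [(6,1),(8,4),(7,2)]) (.cons (.leaf 2 [(6,1),(8,3),(7,2),(2,1)]) (.cons (.leaf 1 [(8,1)]) (.cons (.leaf 1 [(3,1),(8,1)]) .nil)))))) (.cons (.leaf 2 [(8,1),(1,1)]) (.cons (.leaf 2 [(8,1),(1,1),(3,1)]) .nil))))))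 (.cons (.leaf 1 []) (.cons (.leaf 1 [(3,1)]) .nil)))))) (.cons (.keep [0,3,6,8,9] (.node (.cons (.leaf 2 [(7,1),(8,2),(6,2)]) (.cons (.leaf 2 [(7,1),(8,2),(6,2),(3,1)]) (.cons (.leaf 1 []) (.cons (.leaf 1 [(3,1)]) .nil)))))) (.cons (.keep [1,4,5,6,9] (.node (.cons (.keep [2,4,5,7,8] (.node (.cons (.leaf 2 [(6,1),(7,1),(9,2)]) (.cons (.keep [0,5,6,7,9] (.node (.cons (.leaf 3 [(8,2),(9,2)]) (.cons (.leaf 2 [(8,1),(9,2),(2,1)]) (.cons (.leaf 1 [(8,1)]) (.cons (.leaf 1 [(3,1),(8,1)]) .nil)))))) (.cons (.leaf 2 [(7,1),(6,1),(1,1)]) (.cons (.leaf 2 [(7,1),(6,1),(3,1),(1,1)]) .nil)))))) (.cons (.keep [3,5,7,8,9] (.node (.cons (.leaf 2 [(8,2),(6,1)]) (.cons (.keep [0,5,6,8,9] (.node (.cons (.leaf 3 [(6,1),(7,2),(8,2)]) (.cons (.leaf 2 [(6,1),(7,1),(8,2),(2,1)]) (.cons (.leaf 1 [(7,1)]) (.cons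 (.leaf 1 [(3,1),(7,1)]) .nil)))))) (.cons (.leaf 2 [(6,1),(1,1)]) (.cons (.leaf 2 [(6,1),(1,1),(3,1)]) .nil)))))) (.cons (.leaf 1 []) (.cons (.leaf 1 [(3,1)]) .nil)))))) (.cons (.keep [1,3,5,6,7,9] (.node (.cons (.leaf 2 [(8,1),(5,1),(6,2)]) (.cons (.leaf 2 [(8,1),(5,1),(6,2),(3,1)]) (.cons (.leaf 1 []) (.cons (.leaf 1 [(3,1)]) .nil)))))) .nil)))))) (.cons (.leaf 1 [(7,1),(9,1)]) (.cons (.keep [0,1,6,7,8,9] (.node (.cons (.keep [2,4,6,8,9] (.node (.cons (.keep [4,5,6,7,8] (.node (.cons (.leaf 2 [(9,3),(5,1),(8,1)]) (.cons (.keep [5,6,7,8,9] (.node (.cons (.leaf 3 [(8,2),(9,4)]) (.cons (.leaf 2 [(8,1),(9,3),(2,1)]) (.cons (.leaf 1 [(8,2),(1,1)]) (.cons (.leaf 1 [(3,3),(8,2),(1,1)]) .nil)))))) (.cons (.leaf 2 [(8,1),(5,1),(1,1)]) (.cons (.leaf 2 [(8,1),(5,1),(3,2),(1,1)]) .nil))))))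 (.cons (.keep [3,5,7,8,9] (.node (.cons (.leaf 2 [(8,3),(7,1)]) (.cons (.keep [5,6,7,8,9] (.node (.cons (.leaf 3 [(5,1),(7,2),(8,4)]) (.cons (.leaf 2 [(5,1),(7,1),(8,3),(2,1)]) (.cons (.leaf 1 [(7,1),(8,1)]) (.cons (.leaf 1 [(3,1),(7,1),(8,1)]) .nil)))))) (.cons (.leaf 2 [(7,1),(1,1)]) (.cons (.leaf 2 [(7,1),(1,1),(3,2)]) .nil)))))) (.cons (.leaf 1 []) (.cons (.leaf 1 [(3,1)]) .nil)))))) (.cons (.keep [0,3,6,8,9] (.node (.cons (.leaf 2 [(6,2),(8,2),(7,1)]) (.cons (.leaf 2 [(6,2),(8,2),(7,1),(3,1)]) (.cons (.leaf 1 []) (.cons (.leaf 1 [(3,1)]) .nil)))))) (.cons (.keep [4,5,6,8,9] (.node (.cons (.keep [4,5,6,7,8] (.node (.cons (.leaf 2 [(7,1),(5,1),(9,2)]) (.cons (.keep [5,6,7,8,9] (.node (.cons (.leaf 3 [(9,2)]) (.cons (.leaf 3 [(9,2),(3,1)]) (.cons (.leaf 1 [(8,1),(9,1)]) (.cons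 (.leaf 1 [(8,1),(9,1),(3,1)]) .nil)))))) (.cons (.leaf 2 [(9,1),(5,1),(1,1)]) (.cons (.leaf 2 [(9,1),(5,1),(1,1)]) .nil)))))) (.cons (.keep [3,6,7,8,9] (.node (.cons (.leaf 2 [(6,1),(8,2)]) (.cons (.keep [5,6,7,8,9] (.node (.cons (.leaf 3 [(5,1),(8,2)]) (.cons (.leaf 3 [(5,1),(8,2),(3,1)]) (.cons (.leaf 1 [(7,1),(8,1)]) (.cons (.leaf 1 [(7,1),(8,1),(3,1)]) .nil)))))) (.cons (.leaf 2 [(8,1),(1,1)]) (.cons (.leaf 2 [(8,1),(1,1)]) .nil)))))) (.cons (.leaf 1 []) (.cons (.leaf 1 [(3,1)]) .nil)))))) (.cons (.keep [3,5,6,7,8,9] (.node (.cons (.leaf 2 [(5,2),(9,1)]) (.cons (.leaf 1 [(2,1),(9,1),(5,2)]) (.cons (.leaf 1 []) (.cons (.leaf 1 [(3,1)]) .nil)))))) .nil)))))) .nil)))))) (.cons (.keep [5,6,7,8,9] (.node (.cons (.leaf 1 [(2,1),(8,1)]) (.cons (.leaf 1 [(2,1),(8,1)]) (.cons (.leaf 1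 [(6,1),(9,1),(8,1)]) (.cons (.leaf 1 [(0,1),(9,1),(8,1),(6,1)]) .nil)))))) .nil)))))) .nil)))))

theorem c_10_24_10 : Concl 10 24 z_10_24_10 h_10_24_10 .nd := piece _ hP_nil t_10_24_10 _ _ (by
  decide +kernel)

def z_10_24_11 : F := ⟨-1, -1, 0, 0, 5⟩

def h_10_24_11 : List F := [⟨-1, -1, 0, -1, 5⟩, ⟨-1, 0, 1, 0, 0⟩, ⟨-1, -2, 0, 0, 5⟩, ⟨1, 0, -1, 1,
  1⟩, ⟨0, 1, 0, 0, 1⟩]

def t_10_24_11 : T := (.node (.cons (.leaf 1 [(8,1),(6,1),(2,2)]) (.cons (.keep [0,2,6,7,8] (.node (.cons (.leaf 2 [(2,3),(9,1),(6,1)]) (.cons (.leaf 2 [(6,3),(7,2),(2,1),(9,3)]) (.cons (.keep [0,6,7,8,9] (.node (.cons (.leaf 1 [(2,1),(6,1),(9,1)]) (.cons (.keep [2,6,7,8,9] (.node (.cons (.keep [2,4,5,6,8] (.node (.cons (.keep [2,4,5,7,8] (.node (.cons (.leaf 2 [(6,1),(9,3),(8,2)]) (.cons (.keep [0,5,6,8,9] (.node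 (.cons (.leaf 3 [(9,4),(8,2)]) (.cons (.leaf 2 [(9,3),(8,2),(2,1)]) (.cons (.leaf 1 [(9,1)]) (.cons (.leaf 1 [(3,1),(9,1)]) .nil)))))) (.cons (.leaf 2 [(9,1),(6,1),(1,1)]) (.cons (.leaf 2 [(9,1),(6,1),(3,1),(1,1)]) .nil)))))) (.cons (.keep [3,5,7,8,9] (.node (.cons (.leaf 2 [(7,2),(8,3)]) (.cons (.keep [0,5,7,8,9] (.node (.cons (.leaf 3 [(6,1),(8,4),(7,2)]) (.cons (.leaf 2 [(6,1),(8,3),(7,2),(2,1)]) (.cons (.leaf 1 [(8,1)]) (.cons (.leaf 1 [(3,1),(8,1)]) .nil)))))) (.cons (.leaf 2 [(8,1),(1,1)]) (.cons (.leaf 2 [(8,1),(1,1),(3,1)]) .nil)))))) (.cons (.leaf 1 []) (.cons (.leaf 1 [(3,1)]) .nil)))))) (.cons (.keep [5,6,7,8,9] (.node (.cons (.leaf 2 [(5,1),(6,2)]) (.cons (.leaf 2 [(5,1),(6,2),(3,1)]) (.cons (.leaf 1 []) (.cons (.leaf 1 [(3,1)]) .nil)))))) (.cons (.keep [1,4,5,7,8] (.node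 (.cons (.keep [2,4,5,7,8] (.node (.cons (.leaf 2 [(6,1),(7,1),(8,2)]) (.cons (.keep [0,5,6,7,8] (.node (.cons (.leaf 3 [(8,2),(9,2)]) (.cons (.leaf 2 [(8,1),(9,2),(2,1)]) (.cons (.leaf 1 [(8,1)]) (.cons (.leaf 1 [(3,1),(8,1)]) .nil)))))) (.cons (.leaf 2 [(7,1),(6,1),(1,1)]) (.cons (.leaf 2 [(7,1),(6,1),(3,1),(1,1)]) .nil)))))) (.cons (.keep [3,5,7,8,9] (.node (.cons (.leaf 2 [(7,2),(6,1)]) (.cons (.keep [0,5,6,7,9] (.node (.cons (.leaf 3 [(6,1),(7,2),(8,2)]) (.cons (.leaf 2 [(6,1),(7,1),(8,2),(2,1)]) (.cons (.leaf 1 [(7,1)]) (.cons (.leaf 1 [(3,1),(7,1)]) .nil)))))) (.cons (.leaf 2 [(6,1),(1,1)]) (.cons (.leaf 2 [(6,1),(1,1),(3,1)]) .nil)))))) (.cons (.leaf 1 []) (.cons (.leaf 1 [(3,1)]) .nil)))))) (.cons (.keep [0,1,3,5,8] (.node (.cons (.leaf 2 [(8,1),(6,1),(7,2)]) (.cons (.leaf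 2 [(8,1),(6,1),(7,2),(3,1)]) (.cons (.leaf 1 []) (.cons (.leaf 1 [(3,1)]) .nil)))))) .nil)))))) (.cons (.leaf 1 [(9,1),(6,1)]) (.cons (.keep [0,1,6,7,8,9] (.node (.cons (.keep [4,7,8,9,10] (.node (.cons (.keep [4,5,6,7,9] (.node (.cons (.leaf 2 [(5,1),(7,1),(9,2)]) (.cons (.keep [0,5,6,7,9] (.node (.cons (.leaf 3 [(8,2),(9,2)]) (.cons (.leaf 2 [(8,1),(9,2),(2,1)]) (.cons (.leaf 1 [(8,1)]) (.cons (.leaf 1 [(3,1),(8,1)]) .nil)))))) (.cons (.leaf 2 [(7,1),(5,1),(1,1)]) (.cons (.leaf 2 [(7,1),(5,1),(3,1),(1,1)]) .nil)))))) (.cons (.keep [3,6,7,8,9] (.node (.cons (.leaf 2 [(9,2),(6,1)]) (.cons (.keep [0,5,6,8,9] (.node (.cons (.leaf 3 [(6,1),(7,2),(9,2)]) (.cons (.leaf 2 [(6,1),(7,1),(9,2),(2,1)]) (.cons (.leaf 1 [(7,1)]) (.cons (.leaf 1 [(3,1),(7,1)]) .nil)))))) (.cons (.leaf 2 [(6,1),(1,1)])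 (.cons (.leaf 2 [(6,1),(1,1),(3,1)]) .nil)))))) (.cons (.leaf 1 []) (.cons (.leaf 1 [(3,1)]) .nil)))))) (.cons (.keep [3,6,8,9,10] (.node (.cons (.leaf 2 [(5,2),(9,2),(6,1)]) (.cons (.leaf 2 [(5,2),(9,2),(6,1),(3,1)]) (.cons (.leaf 1 []) (.cons (.leaf 1 [(3,1)]) .nil)))))) (.cons (.keep [4,5,6,9,10] (.node (.cons (.keep [4,5,6,7,9] (.node (.cons (.leaf 2 [(7,1),(5,1),(9,2)]) (.cons (.keep [5,6,7,8,9] (.node (.cons (.leaf 3 [(9,2)]) (.cons (.leaf 3 [(9,2),(3,1)]) (.cons (.leaf 1 [(8,1),(9,1)]) (.cons (.leaf 1 [(8,1),(9,1),(3,1)]) .nil)))))) (.cons (.leaf 2 [(9,1),(5,1),(1,1)]) (.cons (.leaf 2 [(9,1),(5,1),(1,1)]) .nil)))))) (.cons (.keep [3,6,7,8,9] (.node (.cons (.leaf 2 [(6,1),(9,2)]) (.cons (.keep [5,6,7,8,9] (.node (.cons (.leaf 3 [(5,1),(9,2)]) (.cons (.leaf 3 [(5,1),(9,2),(3,1)])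 (.cons (.leaf 1 [(7,1),(9,1)]) (.cons (.leaf 1 [(7,1),(9,1),(3,1)]) .nil)))))) (.cons (.leaf 2 [(9,1),(1,1)]) (.cons (.leaf 2 [(9,1),(1,1)]) .nil)))))) (.cons (.leaf 1 []) (.cons (.leaf 1 [(3,1)]) .nil)))))) (.cons (.keep [3,5,6,8,9,10] (.node (.cons (.leaf 2 [(5,2),(10,1)]) (.cons (.leaf 1 [(2,1),(10,1),(5,2)]) (.cons (.leaf 1 []) (.cons (.leaf 1 [(3,1)]) .nil)))))) .nil)))))) .nil)))))) (.cons (.keep [0,6,7,8,9] (.node (.cons (.leaf 1 [(2,1),(6,1)]) (.cons (.leaf 1 [(2,1),(6,1)]) (.cons (.leaf 1 [(9,1),(6,1)]) (.cons (.leaf 1 [(7,1),(6,2),(0,1),(9,2)]) .nil)))))) .nil)))))) (.cons (.leaf 1 [(9,1)]) (.cons (.keep [0,6,7,8,9] (.node (.cons (.leaf 2 [(2,3),(8,1)]) (.cons (.leaf 2 [(2,1),(9,2),(8,1)]) (.cons (.keep [4,5,6,7,8] (.node (.cons (.leaf 1 [(2,1),(6,1),(9,1)]) (.cons (.keep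 [2,6,7,8,9] (.node (.cons (.keep [0,2,5,6,8] (.node (.cons (.keep [4,6,7,8,9] (.node (.cons (.leaf 2 [(5,1),(8,1),(7,2)]) (.cons (.keep [0,5,7,8,9] (.node (.cons (.leaf 3 [(7,2),(8,1)]) (.cons (.leaf 2 [(7,2),(8,1),(2,1)]) (.cons (.leaf 1 []) (.cons (.leaf 1 [(3,1)]) .nil)))))) (.cons (.leaf 2 [(6,1),(5,1),(1,1)]) (.cons (.leaf 2 [(6,1),(5,1),(1,1),(3,1)]) .nil)))))) (.cons (.keep [3,6,7,8,9] (.node (.cons (.leaf 2 [(7,2),(8,1)]) (.cons (.keep [0,5,7,8,9] (.node (.cons (.leaf 3 [(7,2),(6,1),(8,1)]) (.cons (.leaf 2 [(7,2),(6,1),(8,1),(2,1)]) (.cons (.leaf 1 []) (.cons (.leaf 1 [(3,1)]) .nil)))))) (.cons (.leaf 2 [(6,1),(1,1)]) (.cons (.leaf 2 [(6,1),(1,1),(3,1)]) .nil)))))) (.cons (.leaf 1 [(6,1)]) (.cons (.leaf 1 [(3,1),(6,1)]) .nil)))))) (.cons (.keep [2,5,6,8,9] (.node (.cons (.leaf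 2 [(6,1)]) (.cons (.leaf 2 [(6,1),(3,1)]) (.cons (.leaf 1 [(9,1),(5,1)]) (.cons (.leaf 1 [(9,1),(5,1),(3,1)]) .nil)))))) (.cons (.keep [1,4,5,7,8] (.node (.cons (.keep [2,4,5,7,8] (.node (.cons (.leaf 2 [(6,1),(7,1),(8,2)]) (.cons (.keep [0,5,6,7,8] (.node (.cons (.leaf 3 [(8,2),(9,2)]) (.cons (.leaf 2 [(8,1),(9,2),(2,1)]) (.cons (.leaf 1 [(8,1)]) (.cons (.leaf 1 [(3,1),(8,1)]) .nil)))))) (.cons (.leaf 2 [(7,1),(6,1),(1,1)]) (.cons (.leaf 2 [(7,1),(6,1),(3,1),(1,1)]) .nil)))))) (.cons (.keep [3,5,7,8,9] (.node (.cons (.leaf 2 [(7,2),(6,1)]) (.cons (.keep [0,5,6,7,9] (.node (.cons (.leaf 3 [(6,1),(7,2),(8,2)]) (.cons (.leaf 2 [(6,1),(7,1),(8,2),(2,1)]) (.cons (.leaf 1 [(7,1)]) (.cons (.leaf 1 [(3,1),(7,1)]) .nil)))))) (.cons (.leaf 2 [(6,1),(1,1)]) (.cons (.leaf 2 [(6,1),(1,1),(3,1)])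 .nil)))))) (.cons (.leaf 1 []) (.cons (.leaf 1 [(3,1)]) .nil)))))) (.cons (.keep [0,3,5,8,9] (.node (.cons (.leaf 2 [(7,1),(9,1),(6,1)]) (.cons (.leaf 1 [(6,2),(9,1),(7,1),(2,1)]) (.cons (.leaf 1 [(9,1),(5,1)]) (.cons (.leaf 1 [(9,1),(0,1),(3,2)]) .nil)))))) .nil)))))) (.cons (.leaf 1 [(9,1),(6,1)]) (.cons (.keep [0,1,6,7,8,9] (.node (.cons (.keep [0,7,8,9,10] (.node (.cons (.keep [4,6,7,8,9] (.node (.cons (.leaf 2 [(5,1),(6,1),(9,2)]) (.cons (.keep [0,5,6,8,9] (.node (.cons (.leaf 3 [(9,2),(7,1)]) (.cons (.leaf 2 [(9,2),(7,1),(2,1)]) (.cons (.leaf 1 []) (.cons (.leaf 1 [(3,1)]) .nil)))))) (.cons (.leaf 2 [(9,1),(5,1),(1,1)]) (.cons (.leaf 2 [(9,1),(5,1),(1,1)]) .nil)))))) (.cons (.keep [3,6,7,8,9] (.node (.cons (.leaf 2 [(9,2),(6,1)]) (.cons (.keep [0,5,6,8,9] (.node (.cons (.leaf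 3 [(9,2),(6,1),(7,1)]) (.cons (.leaf 2 [(9,2),(6,1),(7,1),(2,1)]) (.cons (.leaf 1 []) (.cons (.leaf 1 [(3,1)]) .nil)))))) (.cons (.leaf 2 [(9,1),(1,1)]) (.cons (.leaf 2 [(9,1),(1,1)]) .nil)))))) (.cons (.leaf 1 [(7,1),(9,1)]) (.cons (.leaf 1 [(7,1),(9,1),(3,1)]) .nil)))))) (.cons (.keep [3,6,7,8,9,10] (.node (.cons (.leaf 2 [(10,1),(5,1)]) (.cons (.leaf 2 [(10,1),(5,1),(3,1)]) (.cons (.leaf 1 [(10,1),(8,1)]) (.cons (.leaf 1 [(10,1),(8,1),(3,1)]) .nil)))))) (.cons (.keep [4,5,6,9,10] (.node (.cons (.keep [4,5,6,7,9] (.node (.cons (.leaf 2 [(7,1),(5,1),(9,2)]) (.cons (.keep [5,6,7,8,9] (.node (.cons (.leaf 3 [(9,2)]) (.cons (.leaf 3 [(9,2),(3,1)]) (.cons (.leaf 1 [(8,1),(9,1)]) (.cons (.leaf 1 [(8,1),(9,1),(3,1)]) .nil)))))) (.cons (.leaf 2 [(9,1),(5,1),(1,1)]) (.cons (.leaf 2 [(9,1),(5,1),(1,1)])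 .nil)))))) (.cons (.keep [3,6,7,8,9] (.node (.cons (.leaf 2 [(6,1),(9,2)]) (.cons (.keep [5,6,7,8,9] (.node (.cons (.leaf 3 [(5,1),(9,2)]) (.cons (.leaf 3 [(5,1),(9,2),(3,1)]) (.cons (.leaf 1 [(7,1),(9,1)]) (.cons (.leaf 1 [(7,1),(9,1),(3,1)]) .nil)))))) (.cons (.leaf 2 [(9,1),(1,1)]) (.cons (.leaf 2 [(9,1),(1,1)]) .nil)))))) (.cons (.leaf 1 []) (.cons (.leaf 1 [(3,1)]) .nil)))))) (.cons (.keep [3,5,6,8,9,10] (.node (.cons (.leaf 2 [(5,1),(10,1)]) (.cons (.leaf 2 [(5,1),(10,1),(3,1)]) (.cons (.leaf 1 [(8,1),(10,1)]) (.cons (.leaf 1 [(7,1),(10,1),(0,1),(3,2)]) .nil)))))) .nil)))))) .nil)))))) (.cons (.keep [5,6,7,8,9] (.node (.cons (.leaf 1 [(2,1)]) (.cons (.leaf 1 [(2,1)]) (.cons (.leaf 1 [(8,1),(9,2),(5,1)]) (.cons (.leaf 1 [(0,1),(9,1),(8,1)]) .nil)))))) .nil)))))) .nil)))))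

theorem c_10_24_11 : Concl 10 24 z_10_24_11 h_10_24_11 .nd := piece _ hP_nil t_10_24_11 _ _ (by
  decide +kernel)

def z_10_24_13 : F := ⟨-1, -1, 0, 0, 3⟩

def h_10_24_13 : List F := [⟨-1, -1, 0, -1, 3⟩, ⟨-1, 0, 1, 0, 0⟩, ⟨0, 1, -1, 0, 0⟩, ⟨-1, -2, 0, 0,
  3⟩, ⟨1, 0, -1, 1, 1⟩]

def t_10_24_13 : T := (.node (.cons (.leaf 1 [(7,1),(6,1),(2,2)]) (.cons (.keep [0,2,6,8,9] (.node (.cons (.leaf 2 [(2,3),(9,1),(6,1)]) (.cons (.leaf 2 [(6,3),(7,2),(2,1),(9,3)]) (.cons (.keep [0,6,7,8,9] (.node (.cons (.leaf 1 [(2,1),(6,1),(9,1)]) (.cons (.keep [2,6,7,8,9] (.node (.cons (.keep [2,4,5,6,8] (.node (.cons (.keep [2,4,5,7,8] (.node (.cons (.leaf 2 [(6,1),(9,3),(8,2)]) (.cons (.keep [0,5,6,8,9] (.node (.cons (.leaf 3 [(9,4),(8,2)]) (.cons (.leaf 2 [(9,3),(8,2),(2,1)]) (.cons (.leaf 1 [(9,1)])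 (.cons (.leaf 1 [(3,1),(9,1)]) .nil)))))) (.cons (.leaf 2 [(9,1),(6,1),(1,1)]) (.cons (.leaf 2 [(9,1),(6,1),(3,1),(1,1)]) .nil)))))) (.cons (.keep [3,5,7,8,9] (.node (.cons (.leaf 2 [(7,2),(8,3)]) (.cons (.keep [0,5,7,8,9] (.node (.cons (.leaf 3 [(6,1),(8,4),(7,2)]) (.cons (.leaf 2 [(6,1),(8,3),(7,2),(2,1)]) (.cons (.leaf 1 [(8,1)]) (.cons (.leaf 1 [(3,1),(8,1)]) .nil)))))) (.cons (.leaf 2 [(8,1),(1,1)]) (.cons (.leaf 2 [(8,1),(1,1),(3,1)]) .nil)))))) (.cons (.leaf 1 []) (.cons (.leaf 1 [(3,1)]) .nil)))))) (.cons (.keep [5,6,7,8,9] (.node (.cons (.leaf 2 [(5,1),(6,2)]) (.cons (.leaf 2 [(5,1),(6,2),(3,1)]) (.cons (.leaf 1 []) (.cons (.leaf 1 [(3,1)]) .nil)))))) (.cons (.keep [1,4,5,7,8] (.node (.cons (.keep [2,4,5,7,8] (.node (.cons (.leaf 2 [(6,1),(7,1),(8,2)]) (.cons (.keep [0,5,6,7,8]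 (.node (.cons (.leaf 3 [(8,2),(9,2)]) (.cons (.leaf 2 [(8,1),(9,2),(2,1)]) (.cons (.leaf 1 [(8,1)]) (.cons (.leaf 1 [(3,1),(8,1)]) .nil)))))) (.cons (.leaf 2 [(7,1),(6,1),(1,1)]) (.cons (.leaf 2 [(7,1),(6,1),(3,1),(1,1)]) .nil)))))) (.cons (.keep [3,5,7,8,9] (.node (.cons (.leaf 2 [(7,2),(6,1)]) (.cons (.keep [0,5,6,7,9] (.node (.cons (.leaf 3 [(6,1),(7,2),(8,2)]) (.cons (.leaf 2 [(6,1),(7,1),(8,2),(2,1)]) (.cons (.leaf 1 [(7,1)]) (.cons (.leaf 1 [(3,1),(7,1)]) .nil)))))) (.cons (.leaf 2 [(6,1),(1,1)]) (.cons (.leaf 2 [(6,1),(1,1),(3,1)]) .nil)))))) (.cons (.leaf 1 []) (.cons (.leaf 1 [(3,1)]) .nil)))))) (.cons (.keep [0,1,3,5,8] (.node (.cons (.leaf 2 [(8,1),(6,1),(7,2)]) (.cons (.leaf 2 [(8,1),(6,1),(7,2),(3,1)]) (.cons (.leaf 1 []) (.cons (.leaf 1 [(3,1)]) .nil)))))) .nil))))))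 (.cons (.leaf 1 [(9,1),(6,1)]) (.cons (.keep [0,1,6,7,8,9] (.node (.cons (.keep [4,7,8,9,10] (.node (.cons (.keep [4,5,6,7,9] (.node (.cons (.leaf 2 [(5,1),(7,1),(9,2)]) (.cons (.keep [0,5,6,7,9] (.node (.cons (.leaf 3 [(8,2),(9,2)]) (.cons (.leaf 2 [(8,1),(9,2),(2,1)]) (.cons (.leaf 1 [(8,1)]) (.cons (.leaf 1 [(3,1),(8,1)]) .nil)))))) (.cons (.leaf 2 [(7,1),(5,1),(1,1)]) (.cons (.leaf 2 [(7,1),(5,1),(3,1),(1,1)]) .nil)))))) (.cons (.keep [3,6,7,8,9] (.node (.cons (.leaf 2 [(9,2),(6,1)]) (.cons (.keep [0,5,6,8,9] (.node (.cons (.leaf 3 [(6,1),(7,2),(9,2)]) (.cons (.leaf 2 [(6,1),(7,1),(9,2),(2,1)]) (.cons (.leaf 1 [(7,1)]) (.cons (.leaf 1 [(3,1),(7,1)]) .nil)))))) (.cons (.leaf 2 [(6,1),(1,1)]) (.cons (.leaf 2 [(6,1),(1,1),(3,1)]) .nil)))))) (.cons (.leaf 1 []) (.cons (.leaf 1 [(3,1)])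 .nil)))))) (.cons (.keep [3,6,8,9,10] (.node (.cons (.leaf 2 [(5,2),(9,2),(6,1)]) (.cons (.leaf 2 [(5,2),(9,2),(6,1),(3,1)]) (.cons (.leaf 1 []) (.cons (.leaf 1 [(3,1)]) .nil)))))) (.cons (.keep [4,5,6,9,10] (.node (.cons (.keep [4,5,6,7,9] (.node (.cons (.leaf 2 [(7,1),(5,1),(9,2)]) (.cons (.keep [5,6,7,8,9] (.node (.cons (.leaf 3 [(9,2)]) (.cons (.leaf 3 [(9,2),(3,1)]) (.cons (.leaf 1 [(8,1),(9,1)]) (.cons (.leaf 1 [(8,1),(9,1),(3,1)]) .nil)))))) (.cons (.leaf 2 [(9,1),(5,1),(1,1)]) (.cons (.leaf 2 [(9,1),(5,1),(1,1)]) .nil)))))) (.cons (.keep [3,6,7,8,9] (.node (.cons (.leaf 2 [(6,1),(9,2)]) (.cons (.keep [5,6,7,8,9] (.node (.cons (.leaf 3 [(5,1),(9,2)]) (.cons (.leaf 3 [(5,1),(9,2),(3,1)]) (.cons (.leaf 1 [(7,1),(9,1)]) (.cons (.leaf 1 [(7,1),(9,1),(3,1)]) .nil)))))) (.cons (.leaf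 2 [(9,1),(1,1)]) (.cons (.leaf 2 [(9,1),(1,1)]) .nil)))))) (.cons (.leaf 1 []) (.cons (.leaf 1 [(3,1)]) .nil)))))) (.cons (.keep [3,5,6,8,9,10] (.node (.cons (.leaf 2 [(5,2),(10,1)]) (.cons (.leaf 1 [(2,1),(10,1),(5,2)]) (.cons (.leaf 1 []) (.cons (.leaf 1 [(3,1)]) .nil)))))) .nil)))))) .nil)))))) (.cons (.keep [0,6,7,8,9] (.node (.cons (.leaf 1 [(2,1),(6,1)]) (.cons (.leaf 1 [(2,1),(6,1)]) (.cons (.leaf 1 [(9,1),(6,1)]) (.cons (.leaf 1 [(7,1),(6,2),(0,1),(9,2)]) .nil)))))) .nil)))))) (.cons (.leaf 1 [(7,1),(6,1)]) (.cons (.keep [0,6,7,9] (.node (.cons (.leaf 2 [(2,3),(8,1)]) (.cons (.leaf 1 [(2,1),(6,1),(8,1),(7,1)]) (.cons (.keep [4,5,6,7,8] (.node (.cons (.leaf 1 [(2,1),(6,1),(9,1)]) (.cons (.keep [2,6,7,8,9] (.node (.cons (.keep [0,2,5,6,8] (.node (.cons (.keep [4,6,7,8,9] (.node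 (.cons (.leaf 2 [(5,1),(8,1),(7,2)]) (.cons (.keep [0,5,7,8,9] (.node (.cons (.leaf 3 [(7,2),(8,1)]) (.cons (.leaf 2 [(7,2),(8,1),(2,1)]) (.cons (.leaf 1 []) (.cons (.leaf 1 [(3,1)]) .nil)))))) (.cons (.leaf 2 [(6,1),(5,1),(1,1)]) (.cons (.leaf 2 [(6,1),(5,1),(1,1),(3,1)]) .nil)))))) (.cons (.keep [3,6,7,8,9] (.node (.cons (.leaf 2 [(7,2),(8,1)]) (.cons (.keep [0,5,7,8,9] (.node (.cons (.leaf 3 [(7,2),(6,1),(8,1)]) (.cons (.leaf 2 [(7,2),(6,1),(8,1),(2,1)]) (.cons (.leaf 1 []) (.cons (.leaf 1 [(3,1)]) .nil)))))) (.cons (.leaf 2 [(6,1),(1,1)]) (.cons (.leaf 2 [(6,1),(1,1),(3,1)]) .nil)))))) (.cons (.leaf 1 [(6,1)]) (.cons (.leaf 1 [(3,1),(6,1)]) .nil)))))) (.cons (.keep [2,5,6,8,9] (.node (.cons (.leaf 2 [(6,1)]) (.cons (.leaf 2 [(6,1),(3,1)]) (.cons (.leaf 1 [(9,1),(5,1)]) (.cons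 (.leaf 1 [(9,1),(5,1),(3,1)]) .nil)))))) (.cons (.keep [1,4,5,7,8] (.node (.cons (.keep [4,5,7,8,9] (.node (.cons (.leaf 2 [(5,1),(6,1),(7,2)]) (.cons (.keep [0,5,6,7,9] (.node (.cons (.leaf 3 [(7,2),(8,2)]) (.cons (.leaf 2 [(7,1),(8,2),(2,1)]) (.cons (.leaf 1 [(7,1)]) (.cons (.leaf 1 [(3,1),(7,1)]) .nil)))))) (.cons (.leaf 2 [(6,1),(5,1),(1,1)]) (.cons (.leaf 2 [(6,1),(5,1),(3,1),(1,1)]) .nil)))))) (.cons (.keep [3,5,7,8,9] (.node (.cons (.leaf 2 [(7,2),(6,1)]) (.cons (.keep [0,5,6,7,9] (.node (.cons (.leaf 3 [(6,1),(7,2),(8,2)]) (.cons (.leaf 2 [(6,1),(7,1),(8,2),(2,1)]) (.cons (.leaf 1 [(7,1)]) (.cons (.leaf 1 [(3,1),(7,1)]) .nil)))))) (.cons (.leaf 2 [(6,1),(1,1)]) (.cons (.leaf 2 [(6,1),(1,1),(3,1)]) .nil)))))) (.cons (.leaf 1 []) (.cons (.leaf 1 [(3,1)]) .nil)))))) (.cons (.keep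 [0,3,5,8,9] (.node (.cons (.leaf 1 [(7,1),(8,1)]) (.cons (.leaf 1 [(8,1),(7,1),(3,1)]) (.cons (.leaf 1 [(9,1),(5,1)]) (.cons (.leaf 1 [(9,1),(0,1),(3,2)]) .nil)))))) .nil)))))) (.cons (.leaf 1 [(9,1),(6,1)]) (.cons (.keep [0,1,5,6,7,9] (.node (.cons (.keep [0,7,8,9,10] (.node (.cons (.keep [4,6,7,8,9] (.node (.cons (.leaf 2 [(5,1),(7,1),(9,2)]) (.cons (.keep [0,5,6,7,9] (.node (.cons (.leaf 1 [(7,2),(8,1)]) (.cons (.leaf 1 [(7,2),(8,1),(3,1)]) (.cons (.leaf 1 []) (.cons (.leaf 1 [(3,1)]) .nil)))))) (.cons (.leaf 1 [(6,1),(5,1),(1,1)]) (.cons (.leaf 1 [(6,1),(5,1),(1,1)]) .nil)))))) (.cons (.keep [3,6,7,8,9] (.node (.cons (.leaf 2 [(9,2),(7,1)]) (.cons (.keep [0,5,6,7,9] (.node (.cons (.leaf 1 [(7,2),(6,1),(8,1)]) (.cons (.leaf 1 [(7,2),(6,1),(8,1),(3,1)]) (.cons (.leaf 1 []) (.cons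 (.leaf 1 [(3,1)]) .nil)))))) (.cons (.leaf 1 [(6,1),(1,1)]) (.cons (.leaf 1 [(6,1),(1,1)]) .nil)))))) (.cons (.leaf 1 [(8,1),(9,1)]) (.cons (.leaf 1 [(8,1),(9,1),(3,1)]) .nil)))))) (.cons (.keep [3,6,7,8,9,10] (.node (.cons (.leaf 1 [(7,1)]) (.cons (.leaf 1 [(7,1),(3,1)]) (.cons (.leaf 1 [(10,1),(9,1)]) (.cons (.leaf 1 [(10,1),(9,1),(3,1)]) .nil)))))) (.cons (.keep [4,5,6,7,10] (.node (.cons (.keep [4,6,7,8,9] (.node (.cons (.leaf 2 [(6,1),(5,1),(9,2)]) (.cons (.keep [5,6,7,8,9] (.node (.cons (.leaf 3 [(9,2)]) (.cons (.leaf 3 [(9,2),(3,1)]) (.cons (.leaf 1 [(7,1),(9,1)]) (.cons (.leaf 1 [(7,1),(9,1),(3,1)]) .nil)))))) (.cons (.leaf 2 [(9,1),(5,1),(1,1)]) (.cons (.leaf 2 [(9,1),(5,1),(1,1)]) .nil)))))) (.cons (.keep [3,6,7,8,9] (.node (.cons (.leaf 2 [(6,1),(9,2)]) (.cons (.keep [5,6,7,8,9]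 (.node (.cons (.leaf 3 [(5,1),(9,2)]) (.cons (.leaf 3 [(5,1),(9,2),(3,1)]) (.cons (.leaf 1 [(7,1),(9,1)]) (.cons (.leaf 1 [(7,1),(9,1),(3,1)]) .nil)))))) (.cons (.leaf 2 [(9,1),(1,1)]) (.cons (.leaf 2 [(9,1),(1,1)]) .nil)))))) (.cons (.leaf 1 []) (.cons (.leaf 1 [(3,1)]) .nil)))))) (.cons (.keep [3,5,6,7,9,10] (.node (.cons (.leaf 2 [(5,1),(10,1)]) (.cons (.leaf 2 [(5,1),(10,1),(3,1)]) (.cons (.leaf 1 [(9,1),(10,1)]) (.cons (.leaf 1 [(7,1),(10,1),(0,1),(3,2)]) .nil)))))) .nil)))))) .nil)))))) (.cons (.keep [0,5,6,7,8] (.node (.cons (.leaf 1 [(2,1)]) (.cons (.leaf 1 [(2,1)]) (.cons (.leaf 1 [(9,1),(8,1),(5,1)]) (.cons (.leaf 1 [(7,1),(0,2),(9,2),(8,1)]) .nil)))))) .nil)))))) .nil)))))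

theorem c_10_24_13 : Concl 10 24 z_10_24_13 h_10_24_13 .nd := piece _ hP_nil t_10_24_13 _ _ (by
  decide +kernel)

end Pool.Agent.H4.RD4.E28
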