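import Pool.Agent.H4.RD4.Chk

/-! # Certificates for special cases of order four -/

set_option maxRecDepth 20000

namespace Pool.Agent.H4.RD4.E33

open Pool.Agent.H50.Rdb
open Pool.Agent.H81.RDE (ESB caseOf)

def z_12_24_0 : F := ⟨-1, 1, -1, 0, 2⟩

def h_12_24_0 : List F := [⟨0, 1, -1, 0, 0⟩, ⟨0, 0, 1, -1, 0⟩, ⟨1, -1, 0, 0, 0⟩, ⟨-2, 2, -1, 0,
  3⟩, ⟨-1, 0, 0, 0, 1⟩]

def t_12_24_0 : T := (.node (.cons (.keep [2,4,7,8,9] (.node (.cons (.keep [2,4,7,8,9] (.node (.cons (.leaf 1 [(7,1),(2,1)]) (.cons (.keep [2,5,7,8,9] (.node (.cons (.leaf 1 [(2,1),(5,1),(7,1)]) (.cons (.leaf 1 [(5,1),(2,1),(7,1)]) (.cons (.leaf 1 [(7,2),(6,1)]) (.cons (.keep [5,6,7,8,9] (.node (.cons (.leaf 1 [(7,2),(2,1)]) (.cons (.leaf 1 [(7,2),(2,1),(3,1)]) (.cons (.leaf 1 [(6,2),(7,2)]) (.cons (.leaf 1 [(3,1),(7,4),(0,2)])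 .nil)))))) .nil)))))) (.cons (.leaf 1 [(7,1)]) (.cons (.keep [1,5,6,7,8,9] (.node (.cons (.leaf 1 [(2,1),(8,1)]) (.cons (.leaf 1 [(2,1),(8,1)]) (.cons (.leaf 1 [(8,2),(6,1)]) (.cons (.keep [5,6,7,8,9,10] (.node (.cons (.leaf 1 [(2,1),(8,2)]) (.cons (.leaf 1 [(3,1),(8,2),(2,1)]) (.cons (.leaf 1 [(6,2),(8,2)]) (.cons (.leaf 1 [(8,4),(5,2),(3,1),(0,2)]) .nil)))))) .nil)))))) .nil)))))) (.cons (.keep [2,5,7,8,9] (.node (.cons (.leaf 1 [(7,1),(2,1)]) (.cons (.keep [2,5,7,8,9] (.node (.cons (.leaf 1 [(2,1),(5,1),(7,1)]) (.cons (.leaf 1 [(5,1),(2,1),(7,1)]) (.cons (.leaf 1 [(5,1),(7,2),(6,1)]) (.cons (.keep [5,6,7,8,9] (.node (.cons (.leaf 1 [(2,1),(5,1),(7,2)]) (.cons (.leaf 1 [(7,2),(5,1),(2,1),(3,1)]) (.cons (.leaf 1 [(6,2),(5,1),(7,2)]) (.cons (.leaf 1 [(7,4),(3,1),(5,1),(0,2)]) .nil))))))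 .nil)))))) (.cons (.leaf 1 [(7,1)]) (.cons (.keep [5,6,7,8,9] (.node (.cons (.leaf 1 [(2,1),(7,1)]) (.cons (.leaf 1 [(2,1),(7,1)]) (.cons (.leaf 1 [(7,1),(6,1)]) (.cons (.keep [0,5,7,8,9] (.node (.cons (.leaf 1 [(2,1),(5,1),(7,3)]) (.cons (.leaf 1 [(2,1),(0,1),(7,3),(3,1)]) (.cons (.leaf 1 [(6,1),(5,1),(7,3)]) (.cons (.leaf 1 [(0,1),(7,3),(6,1)]) .nil)))))) .nil)))))) .nil)))))) (.cons (.keep [1,4,5,6,8,9] (.node (.cons (.leaf 1 [(7,1),(2,1)]) (.cons (.keep [2,5,7,8,9,10] (.node (.cons (.leaf 1 [(2,1),(5,2)]) (.cons (.leaf 1 [(2,1),(5,2),(3,1)]) (.cons (.leaf 1 [(7,2)]) (.cons (.keep [5,6,7,8,9,10] (.node (.cons (.leaf 1 [(7,2),(2,1)]) (.cons (.leaf 1 [(7,2),(2,1)]) (.cons (.leaf 1 [(8,1),(7,2)]) (.cons (.leaf 1 [(7,3),(0,1)]) .nil)))))) .nil)))))) (.cons (.leaf 1 [(7,1)]) (.cons (.keep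 [1,5,6,7,8,9,10] (.node (.cons (.leaf 1 [(2,1)]) (.cons (.leaf 1 [(2,1),(3,1)]) (.cons (.leaf 1 [(8,2)]) (.cons (.keep [5,6,7,8,9,10,11] (.node (.cons (.leaf 1 [(2,1),(8,2)]) (.cons (.leaf 1 [(2,1),(8,2)]) (.cons (.leaf 1 [(9,1),(8,2)]) (.cons (.leaf 1 [(5,1),(0,1),(8,3)]) .nil)))))) .nil)))))) .nil)))))) (.cons (.keep [1,5,6,7,8,9] (.node (.cons (.leaf 1 [(6,1)]) (.cons (.keep [2,5,7,8,9,10] (.node (.cons (.leaf 1 [(5,1),(2,1)]) (.cons (.leaf 1 [(5,1),(2,1),(3,1)]) (.cons (.leaf 1 [(5,1),(8,2)]) (.cons (.keep [5,6,7,8,9,10] (.node (.cons (.leaf 1 [(2,1),(5,1),(8,2)]) (.cons (.leaf 1 [(2,1),(8,2),(5,1)]) (.cons (.leaf 1 [(7,1),(5,1),(8,2)]) (.cons (.leaf 1 [(8,3),(5,1),(0,1)]) .nil)))))) .nil)))))) (.cons (.leaf 1 [(6,1),(1,1)]) (.cons (.keep [5,6,7,8,9,10] (.node (.cons (.leaf 1 [(8,1),(2,1)])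 (.cons (.leaf 1 [(2,1),(8,1)]) (.cons (.leaf 1 [(8,1),(6,1)]) (.cons (.keep [0,5,8,9,10] (.node (.cons (.leaf 1 [(2,1),(5,1),(7,3)]) (.cons (.leaf 1 [(0,1),(7,3),(2,1)]) (.cons (.leaf 1 [(5,1),(7,3)]) (.cons (.leaf 1 [(0,1),(7,3)]) .nil)))))) .nil)))))) .nil)))))) .nil)))))) (.cons (.keep [2,5,7,8,9] (.node (.cons (.keep [2,4,5,8,9] (.node (.cons (.leaf 1 [(7,1),(2,1)]) (.cons (.keep [2,5,7,8,9] (.node (.cons (.leaf 1 [(2,1),(5,2)]) (.cons (.leaf 1 [(2,1),(5,2),(3,1)]) (.cons (.leaf 1 [(7,2)]) (.cons (.keep [5,6,7,8,9] (.node (.cons (.leaf 1 [(7,2),(2,1)]) (.cons (.leaf 1 [(7,2),(2,1)]) (.cons (.leaf 1 [(6,1),(7,2)]) (.cons (.leaf 1 [(7,3),(0,1)]) .nil)))))) .nil)))))) (.cons (.leaf 1 [(7,1)]) (.cons (.keep [1,5,6,7,8,9] (.node (.cons (.leaf 1 [(2,1)]) (.cons (.leaf 1 [(2,1),(3,1)]) (.cons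 (.leaf 1 [(8,2)]) (.cons (.keep [5,6,7,8,9,10] (.node (.cons (.leaf 1 [(2,1),(8,2)]) (.cons (.leaf 1 [(2,1),(8,2)]) (.cons (.leaf 1 [(6,1),(8,2)]) (.cons (.leaf 1 [(0,1),(8,3),(5,1)]) .nil)))))) .nil)))))) .nil)))))) (.cons (.keep [2,5,7,8,9] (.node (.cons (.leaf 1 [(6,1)]) (.cons (.keep [2,5,7,8,9] (.node (.cons (.leaf 1 [(5,1),(2,1)]) (.cons (.leaf 1 [(5,1),(2,1),(3,1)]) (.cons (.leaf 1 [(5,1),(7,2)]) (.cons (.keep [5,6,7,8,9] (.node (.cons (.leaf 1 [(2,1),(5,1),(7,2)]) (.cons (.leaf 1 [(7,2),(5,1),(2,1)]) (.cons (.leaf 1 [(6,1),(5,1),(7,2)]) (.cons (.leaf 1 [(7,3),(5,1),(0,1)]) .nil)))))) .nil)))))) (.cons (.leaf 1 [(6,1),(1,1)]) (.cons (.keep [5,6,7,8,9] (.node (.cons (.leaf 1 [(7,1),(2,1)]) (.cons (.leaf 1 [(2,1),(7,1)]) (.cons (.leaf 1 [(7,1),(6,1)]) (.cons (.keep [0,5,6,7,8,9] (.node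 (.cons (.leaf 1 [(2,1),(7,1),(8,1)]) (.cons (.leaf 1 [(2,1),(7,1),(8,1)]) (.cons (.leaf 1 [(8,1),(6,1),(7,1)]) (.cons (.leaf 1 [(0,1),(8,3)]) .nil)))))) .nil)))))) .nil)))))) (.cons (.keep [4,5,7,8,9] (.node (.cons (.leaf 1 [(2,1),(7,1)]) (.cons (.keep [2,6,7,8,9] (.node (.cons (.leaf 1 [(5,1),(2,1),(7,1)]) (.cons (.leaf 1 [(5,1),(2,1),(7,1)]) (.cons (.leaf 1 [(6,1),(7,1)]) (.cons (.keep [0,5,6,7,8,9] (.node (.cons (.leaf 1 [(7,2),(2,1)]) (.cons (.leaf 1 [(3,1),(7,2),(2,1)]) (.cons (.leaf 1 [(8,2)]) (.cons (.leaf 1 [(8,2),(7,1),(0,1)]) .nil)))))) .nil)))))) (.cons (.leaf 1 [(7,1)]) (.cons (.keep [1,5,6,7,8,9] (.node (.cons (.leaf 1 [(8,1),(2,1)]) (.cons (.leaf 1 [(8,1),(2,1)]) (.cons (.leaf 1 [(8,1),(7,1)]) (.cons (.keep [0,5,7,8,9,10] (.node (.cons (.leaf 1 [(2,1),(7,2)]) (.cons (.leaf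 1 [(2,1),(7,2),(3,1)]) (.cons (.leaf 1 [(8,2)]) (.cons (.leaf 1 [(0,1),(8,2),(6,1),(7,1)]) .nil)))))) .nil)))))) .nil)))))) (.cons (.keep [0,5,7,8,9] (.node (.cons (.leaf 1 [(2,1),(7,1)]) (.cons (.keep [2,6,7,8,9] (.node (.cons (.leaf 1 [(5,1),(2,1),(7,1)]) (.cons (.leaf 1 [(5,1),(2,1),(7,1)]) (.cons (.leaf 1 [(6,1),(7,1)]) (.cons (.keep [0,6,7,8,9] (.node (.cons (.leaf 1 [(2,1),(6,1),(7,1)]) (.cons (.leaf 1 [(2,1),(6,1),(7,1)]) (.cons (.leaf 1 [(7,2),(5,1),(6,1)]) (.cons (.leaf 1 [(0,1),(6,1),(7,2)]) .nil)))))) .nil)))))) (.cons (.leaf 1 [(7,1)]) (.cons (.keep [0,6,7,9] (.node (.cons (.leaf 1 [(7,1),(2,1)]) (.cons (.leaf 1 [(7,1),(2,1)]) (.cons (.leaf 1 [(7,1),(6,1)]) (.cons (.keep [0,5,6,7,8] (.node (.cons (.leaf 1 [(2,1),(7,1),(8,1)]) (.cons (.leaf 1 [(2,1),(8,1),(7,1)]) (.cons (.leaf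 2 [(8,4),(5,1),(7,1)]) (.cons (.leaf 1 [(9,1),(0,1),(8,3),(7,1)]) .nil)))))) .nil)))))) .nil)))))) .nil)))))) (.cons (.keep [1,4,6,7,8] (.node (.cons (.keep [2,4,5,7,8,9] (.node (.cons (.leaf 1 [(9,1),(2,1)]) (.cons (.keep [2,5,7,8,9,10] (.node (.cons (.leaf 1 [(2,1),(5,1),(9,1)]) (.cons (.leaf 1 [(5,1),(2,1),(9,1)]) (.cons (.leaf 1 [(9,1),(8,1)]) (.cons (.keep [0,5,7,8,9,10] (.node (.cons (.leaf 1 [(2,1),(8,1)]) (.cons (.leaf 1 [(9,1),(8,1),(2,1)]) (.cons (.leaf 1 [(8,1)]) (.cons (.leaf 1 [(8,1),(9,2),(0,1)]) .nil)))))) .nil)))))) (.cons (.leaf 1 [(9,1)]) (.cons (.keep [1,5,6,7,8,9,10] (.node (.cons (.leaf 1 [(2,1),(10,1)]) (.cons (.leaf 1 [(2,1),(10,1)]) (.cons (.leaf 1 [(10,1),(9,1)]) (.cons (.keep [5,6,7,8,9,10,11] (.node (.cons (.leaf 1 [(2,1),(9,1)]) (.cons (.leaf 1 [(2,1),(9,1),(10,1)])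 (.cons (.leaf 1 [(9,1)]) (.cons (.leaf 1 [(5,1),(9,1),(10,2),(0,1)]) .nil)))))) .nil)))))) .nil)))))) (.cons (.keep [2,5,7,8,9] (.node (.cons (.leaf 1 [(2,1),(8,1)]) (.cons (.keep [2,5,6,7,8,9] (.node (.cons (.leaf 1 [(5,1),(2,1),(9,1)]) (.cons (.leaf 1 [(2,1),(5,1),(9,1)]) (.cons (.leaf 1 [(8,1),(9,1)]) (.cons (.keep [5,6,7,8,9,10] (.node (.cons (.leaf 1 [(2,1),(8,1),(9,1)]) (.cons (.leaf 1 [(9,1),(8,1),(2,1)]) (.cons (.leaf 1 [(9,1),(6,1),(8,1)]) (.cons (.leaf 1 [(9,2),(8,1),(0,1)]) .nil)))))) .nil)))))) (.cons (.leaf 1 [(8,1)]) (.cons (.keep [5,6,7,8,9] (.node (.cons (.leaf 1 [(2,1),(8,1)]) (.cons (.leaf 1 [(2,1),(8,1)]) (.cons (.leaf 1 [(8,1),(7,1)]) (.cons (.keep [0,5,6,7,8,9] (.node (.cons (.leaf 1 [(2,1),(8,1),(9,1)]) (.cons (.leaf 1 [(2,1),(8,1),(9,1)]) (.cons (.leaf 1 [(9,1),(6,1),(8,1)])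 (.cons (.leaf 1 [(0,1),(6,1),(8,1),(9,3)]) .nil)))))) .nil)))))) .nil)))))) (.cons (.keep [1,4,5,6,7,9] (.node (.cons (.leaf 1 [(2,1)]) (.cons (.keep [2,5,7,8,9,10] (.node (.cons (.leaf 1 [(5,1),(2,1)]) (.cons (.leaf 1 [(5,1),(2,1)]) (.cons (.leaf 1 [(9,1)]) (.cons (.keep [0,5,6,7,9,10] (.node (.cons (.leaf 1 [(2,1),(9,1)]) (.cons (.leaf 1 [(2,1),(9,1)]) (.cons (.leaf 1 [(5,1),(9,1)]) (.cons (.leaf 1 [(9,1),(0,1)]) .nil)))))) .nil)))))) (.cons (.leaf 1 []) (.cons (.keep [1,3,5,6,7,8,9] (.node (.cons (.leaf 1 [(2,1)]) (.cons (.leaf 1 [(2,1)]) (.cons (.leaf 1 [(11,1)]) (.cons (.keep [3,5,7,8,9,10,11] (.node (.cons (.leaf 1 [(2,1),(11,1)]) (.cons (.leaf 1 [(2,1),(11,1)]) (.cons (.leaf 1 [(10,1),(11,1)]) (.cons (.leaf 1 [(0,1),(11,1),(6,1)]) .nil)))))) .nil)))))) .nil)))))) (.cons (.keep [1,3,5,6,7,9]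 (.node (.cons (.leaf 1 []) (.cons (.keep [2,5,6,7,8,9,10] (.node (.cons (.leaf 1 [(2,1)]) (.cons (.leaf 1 [(2,1)]) (.cons (.leaf 1 [(10,1),(7,1)]) (.cons (.keep [5,6,7,8,9,10,11] (.node (.cons (.leaf 1 [(2,1),(10,1),(7,1)]) (.cons (.leaf 1 [(2,1),(10,1),(7,1)]) (.cons (.leaf 1 [(7,1),(9,1),(10,1)]) (.cons (.leaf 1 [(0,1),(10,1),(7,2)]) .nil)))))) .nil)))))) (.cons (.leaf 1 [(1,1)]) (.cons (.keep [1,5,7,8,9,10] (.node (.cons (.leaf 1 [(5,1),(2,1)]) (.cons (.leaf 1 [(5,1),(2,1)]) (.cons (.leaf 1 [(5,1),(9,1)]) (.cons (.keep [0,5,6,7,9,10] (.node (.cons (.leaf 1 [(2,1),(9,1),(6,1)]) (.cons (.leaf 1 [(2,1),(9,1),(6,1)]) (.cons (.leaf 1 [(6,3),(5,1),(9,1)]) (.cons (.leaf 1 [(0,1),(6,3),(9,1)]) .nil)))))) .nil)))))) .nil)))))) .nil)))))) (.cons (.keep [1,3,5,6,7,8] (.node (.cons (.keep [2,4,5,6,8,10]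 (.node (.cons (.leaf 1 [(2,1)]) (.cons (.keep [2,5,7,8,9,10] (.node (.cons (.leaf 1 [(5,1),(2,1)]) (.cons (.leaf 1 [(5,1),(2,1)]) (.cons (.leaf 1 [(9,1)]) (.cons (.keep [0,5,7,8,9,10] (.node (.cons (.leaf 1 [(2,1),(9,1)]) (.cons (.leaf 1 [(2,1),(9,1)]) (.cons (.leaf 1 [(5,1),(9,1)]) (.cons (.leaf 1 [(9,1),(0,1)]) .nil)))))) .nil)))))) (.cons (.leaf 1 []) (.cons (.keep [1,3,5,6,7,8,9] (.node (.cons (.leaf 1 [(2,1)]) (.cons (.leaf 1 [(2,1)]) (.cons (.leaf 1 [(11,1)]) (.cons (.keep [3,5,7,8,9,10,11] (.node (.cons (.leaf 1 [(2,1),(11,1)]) (.cons (.leaf 1 [(2,1),(11,1)]) (.cons (.leaf 1 [(7,1),(11,1)]) (.cons (.leaf 1 [(0,1),(11,1),(6,1)]) .nil)))))) .nil)))))) .nil)))))) (.cons (.keep [2,3,5,6,8,10] (.node (.cons (.leaf 1 []) (.cons (.keep [2,5,6,7,8,9,10] (.node (.cons (.leaf 1 [(2,1)]) (.cons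 (.leaf 1 [(2,1)]) (.cons (.leaf 1 [(10,1),(7,1)]) (.cons (.keep [5,6,7,8,9,10,11] (.node (.cons (.leaf 1 [(2,1),(10,1),(7,1)]) (.cons (.leaf 1 [(2,1),(10,1),(7,1)]) (.cons (.leaf 1 [(7,1),(6,1),(10,1)]) (.cons (.leaf 1 [(0,1),(10,1),(7,2)]) .nil)))))) .nil)))))) (.cons (.leaf 1 [(1,1)]) (.cons (.keep [1,5,7,8,9,10] (.node (.cons (.leaf 1 [(5,1),(2,1)]) (.cons (.leaf 1 [(5,1),(2,1)]) (.cons (.leaf 1 [(5,1),(9,1)]) (.cons (.keep [0,5,7,8,9,10] (.node (.cons (.leaf 1 [(2,1),(9,1),(6,1)]) (.cons (.leaf 1 [(2,1),(9,1),(6,1)]) (.cons (.leaf 1 [(6,3),(5,1),(9,1)]) (.cons (.leaf 1 [(0,1),(6,3),(9,1)]) .nil)))))) .nil)))))) .nil)))))) (.cons (.keep [1,4,5,8,9,10] (.node (.cons (.leaf 1 [(9,1),(2,1)]) (.cons (.keep [2,5,7,8,9,10] (.node (.cons (.leaf 1 [(5,1),(2,1),(9,1)]) (.cons (.leaf 1 [(5,1),(2,1),(9,1)])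 (.cons (.leaf 1 [(8,1),(9,1)]) (.cons (.keep [5,6,7,8,9,10] (.node (.cons (.leaf 1 [(2,1),(8,1)]) (.cons (.leaf 1 [(2,1),(8,1),(3,1)]) (.cons (.leaf 1 [(9,2),(8,1)]) (.cons (.leaf 1 [(0,1),(8,1),(9,2)]) .nil)))))) .nil)))))) (.cons (.leaf 1 [(9,1)]) (.cons (.keep [1,5,6,7,8,9,10] (.node (.cons (.leaf 1 [(10,1),(2,1)]) (.cons (.leaf 1 [(10,1),(2,1)]) (.cons (.leaf 1 [(10,1),(9,1)]) (.cons (.keep [0,5,6,8,9,10,11] (.node (.cons (.leaf 1 [(2,1),(9,1)]) (.cons (.leaf 1 [(9,1),(2,1),(3,1)]) (.cons (.leaf 1 [(9,1),(10,2)]) (.cons (.leaf 1 [(0,1),(10,2),(9,1),(6,1)]) .nil)))))) .nil)))))) .nil)))))) (.cons (.keep [1,5,7,8,9,10] (.node (.cons (.leaf 1 [(2,1),(9,1)]) (.cons (.keep [2,5,6,8,9,10] (.node (.cons (.leaf 1 [(9,1),(2,1),(5,1)]) (.cons (.leaf 1 [(9,1),(2,2),(0,1)]) (.cons (.leaf 1 [(9,1),(8,1)])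 (.cons (.keep [0,6,7,8,9,10] (.node (.cons (.leaf 1 [(2,1),(8,1),(9,1)]) (.cons (.leaf 1 [(8,1),(2,1),(9,1)]) (.cons (.leaf 1 [(8,1),(9,2),(5,1)]) (.cons (.leaf 1 [(0,1),(9,2),(8,1)]) .nil)))))) .nil)))))) (.cons (.leaf 1 [(9,1)]) (.cons (.keep [0,5,6,8,9] (.node (.cons (.leaf 1 [(9,1),(2,1)]) (.cons (.leaf 1 [(2,1),(9,1)]) (.cons (.leaf 1 [(9,1),(8,1)]) (.cons (.keep [0,5,6,7,8,9] (.node (.cons (.leaf 1 [(2,1),(9,1),(10,1)]) (.cons (.leaf 1 [(9,1),(2,1),(10,1)]) (.cons (.leaf 2 [(9,2),(10,4),(5,1)]) (.cons (.leaf 1 [(0,1),(10,3),(9,1),(7,1)]) .nil)))))) .nil)))))) .nil)))))) .nil)))))) .nil)))))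

theorem c_12_24_0 : Concl 12 24 z_12_24_0 h_12_24_0 .nd := piece _ hP_nil t_12_24_0 _ _ (by
  decide +kernel)

def z_12_24_1 : F := ⟨-1, 1, -1, 0, 2⟩

def h_12_24_1 : List F := [⟨0, 1, -1, 0, 0⟩, ⟨0, 0, 1, -1, 0⟩, ⟨-1, 1, 0, 0, 0⟩, ⟨1, -1, 0, 0, 0⟩,
  ⟨-1, 0, 0, 0, 1⟩]

def t_12_24_1 : T := (.node (.cons (.keep [2,4,5,7,8,9] (.node (.cons (.keep [4,5,7,8,9,10] (.node (.cons (.leaf 1 [(9,1),(2,1)]) (.cons (.keep [2,6,7,8,9,10] (.node (.cons (.leaf 1 [(2,1),(5,1),(9,1)]) (.cons (.leaf 1 [(5,1),(2,1),(9,1)]) (.cons (.leaf 1 [(9,1),(6,1)]) (.cons (.keep [5,6,7,8,9,10] (.node (.cons (.leaf 1 [(6,2),(2,1)]) (.cons (.leaf 1 [(6,1),(9,1),(2,1)]) (.cons (.leaf 1 [(6,2)]) (.cons (.leaf 1 [(6,1),(9,2),(0,1)]) .nil)))))) .nil)))))) (.cons (.leaf 1 [(9,1)]) (.cons (.keep [1,5,6,7,8,9,10] (.node (.cons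 (.leaf 1 [(2,1),(10,1)]) (.cons (.leaf 1 [(2,1),(10,1)]) (.cons (.leaf 1 [(10,1),(7,1)]) (.cons (.keep [5,6,7,8,9,10,11] (.node (.cons (.leaf 1 [(2,1),(7,2)]) (.cons (.leaf 1 [(2,1),(7,1),(10,1)]) (.cons (.leaf 1 [(7,2)]) (.cons (.leaf 1 [(5,1),(7,1),(10,2),(0,1)]) .nil)))))) .nil)))))) .nil)))))) (.cons (.keep [0,3,5,8,9,10] (.node (.cons (.leaf 1 [(9,1),(2,1)]) (.cons (.keep [2,5,6,7,8,9,10] (.node (.cons (.leaf 1 [(2,1),(5,1),(10,1)]) (.cons (.leaf 1 [(5,1),(2,1),(10,1)]) (.cons (.leaf 1 [(8,1),(10,1)]) (.cons (.keep [5,6,7,8,9,10,11] (.node (.cons (.leaf 1 [(2,1),(8,2),(7,1)]) (.cons (.leaf 1 [(10,1),(8,1),(2,1)]) (.cons (.leaf 1 [(7,1),(8,2)]) (.cons (.leaf 1 [(10,2),(8,1),(0,1)]) .nil)))))) .nil)))))) (.cons (.leaf 1 [(9,1)]) (.cons (.keep [1,5,7,8,9,10] (.node (.cons (.leaf 1 [(2,1),(9,1)])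 (.cons (.leaf 1 [(2,1),(9,1)]) (.cons (.leaf 1 [(9,1),(7,1)]) (.cons (.keep [5,6,7,8,9,10] (.node (.cons (.leaf 1 [(2,1),(7,2),(5,1)]) (.cons (.leaf 1 [(2,1),(7,1),(9,1)]) (.cons (.leaf 1 [(5,1),(7,2)]) (.cons (.leaf 1 [(9,2),(0,1),(7,1),(5,1)]) .nil)))))) .nil)))))) .nil)))))) (.cons (.keep [1,4,5,6,7,8] (.node (.cons (.leaf 1 [(7,1),(2,1)]) (.cons (.keep [2,5,7,8,9,10] (.node (.cons (.leaf 1 [(2,1),(5,2)]) (.cons (.leaf 1 [(2,1),(5,2),(3,1)]) (.cons (.leaf 1 [(7,2)]) (.cons (.keep [5,6,7,8,9,10] (.node (.cons (.leaf 1 [(7,2),(2,1)]) (.cons (.leaf 1 [(7,2),(2,1)]) (.cons (.leaf 1 [(8,1),(7,2)]) (.cons (.leaf 1 [(7,3),(0,1)]) .nil)))))) .nil)))))) (.cons (.leaf 1 [(7,1)]) (.cons (.keep [1,3,5,6,7,8,10] (.node (.cons (.leaf 1 [(2,1)]) (.cons (.leaf 1 [(2,1),(3,1)]) (.cons (.leaf 1 [(9,2)])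 (.cons (.keep [3,5,7,8,9,10,11] (.node (.cons (.leaf 1 [(2,1),(9,2)]) (.cons (.leaf 1 [(2,1),(9,2)]) (.cons (.leaf 1 [(10,1),(9,2)]) (.cons (.leaf 1 [(6,1),(0,1),(9,3)]) .nil)))))) .nil)))))) .nil)))))) (.cons (.keep [1,5,6,7,8,9,10] (.node (.cons (.leaf 1 [(6,1)]) (.cons (.keep [3,5,6,7,9,10,11] (.node (.cons (.leaf 1 [(7,1),(2,1)]) (.cons (.leaf 1 [(2,1),(7,1)]) (.cons (.leaf 1 [(7,1),(10,1)]) (.cons (.keep [3,6,7,8,9,10,11] (.node (.cons (.leaf 1 [(2,1),(7,1),(10,1)]) (.cons (.leaf 1 [(10,1),(7,1),(2,1)]) (.cons (.leaf 1 [(10,1),(8,1),(7,1)]) (.cons (.leaf 1 [(10,2),(7,1),(0,1)]) .nil)))))) .nil)))))) (.cons (.leaf 1 [(6,1),(1,1)]) (.cons (.keep [5,6,7,8,9,10,11] (.node (.cons (.leaf 1 [(10,1),(2,1)]) (.cons (.leaf 1 [(2,1),(10,1)]) (.cons (.leaf 1 [(10,1),(6,1)]) (.cons (.keep [5,6,7,8,9,10,11]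 (.node (.cons (.leaf 1 [(2,1),(6,1),(10,1)]) (.cons (.leaf 1 [(2,1),(6,1),(10,1)]) (.cons (.leaf 1 [(10,1),(7,1),(6,1)]) (.cons (.leaf 1 [(0,1),(10,3)]) .nil)))))) .nil)))))) .nil)))))) .nil)))))) (.cons (.keep [2,5,7,8,9] (.node (.cons (.keep [2,4,5,6,9] (.node (.cons (.leaf 1 [(7,1),(2,1)]) (.cons (.keep [0,2,5,7,9] (.node (.cons (.leaf 1 [(2,1),(6,2)]) (.cons (.leaf 1 [(2,1),(6,2),(3,1)]) (.cons (.leaf 1 [(8,2)]) (.cons (.keep [5,6,7,8,9] (.node (.cons (.leaf 1 [(8,2),(2,1)]) (.cons (.leaf 1 [(8,2),(2,1)]) (.cons (.leaf 1 [(7,1),(8,2)]) (.cons (.leaf 1 [(8,3),(0,1)]) .nil)))))) .nil)))))) (.cons (.leaf 1 [(7,1)]) (.cons (.keep [1,5,6,7,8,9] (.node (.cons (.leaf 1 [(2,1)]) (.cons (.leaf 1 [(2,1),(3,1)]) (.cons (.leaf 1 [(8,2)]) (.cons (.keep [5,6,7,8,9,10] (.node (.cons (.leaf 1 [(2,1),(8,2)])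 (.cons (.leaf 1 [(2,1),(8,2)]) (.cons (.leaf 1 [(6,1),(8,2)]) (.cons (.leaf 1 [(0,1),(8,3),(5,1)]) .nil)))))) .nil)))))) .nil)))))) (.cons (.keep [2,5,6,7,8,9] (.node (.cons (.leaf 1 [(6,1)]) (.cons (.keep [3,5,6,8,9,10] (.node (.cons (.leaf 1 [(7,1),(2,1)]) (.cons (.leaf 1 [(2,1),(7,1)]) (.cons (.leaf 1 [(7,1),(9,1)]) (.cons (.keep [3,6,7,8,9,10] (.node (.cons (.leaf 1 [(2,1),(7,1),(9,1)]) (.cons (.leaf 1 [(9,1),(7,1),(2,1)]) (.cons (.leaf 1 [(9,1),(6,1),(7,1)]) (.cons (.leaf 1 [(9,2),(7,1),(0,1)]) .nil)))))) .nil)))))) (.cons (.leaf 1 [(6,1),(1,1)]) (.cons (.keep [5,6,7,8,9,10] (.node (.cons (.leaf 1 [(9,1),(2,1)]) (.cons (.leaf 1 [(2,1),(9,1)]) (.cons (.leaf 1 [(9,1),(6,1)]) (.cons (.keep [5,6,7,8,9,10] (.node (.cons (.leaf 1 [(2,1),(6,1),(9,1)]) (.cons (.leaf 1 [(2,1),(6,1),(9,1)])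 (.cons (.leaf 1 [(9,1),(5,1),(6,1)]) (.cons (.leaf 1 [(0,1),(9,3)]) .nil)))))) .nil)))))) .nil)))))) (.cons (.keep [4,5,6,7,8] (.node (.cons (.leaf 1 [(2,1),(9,1)]) (.cons (.keep [0,2,6,8,9] (.node (.cons (.leaf 1 [(6,1),(2,1),(9,1)]) (.cons (.leaf 1 [(6,1),(2,1),(9,1)]) (.cons (.leaf 1 [(7,1),(9,1)]) (.cons (.keep [0,5,6,7,8,9] (.node (.cons (.leaf 1 [(8,2),(2,1)]) (.cons (.leaf 1 [(3,1),(8,2),(2,1)]) (.cons (.leaf 1 [(10,2)]) (.cons (.leaf 1 [(10,2),(8,1),(0,1)]) .nil)))))) .nil)))))) (.cons (.leaf 1 [(9,1)]) (.cons (.keep [1,3,5,6,8,9] (.node (.cons (.leaf 1 [(10,1),(2,1)]) (.cons (.leaf 1 [(10,1),(2,1)]) (.cons (.leaf 1 [(10,1),(8,1)]) (.cons (.keep [0,3,5,8,9,10] (.node (.cons (.leaf 1 [(2,1),(8,2)]) (.cons (.leaf 1 [(2,1),(8,2),(3,1)]) (.cons (.leaf 1 [(10,2)]) (.cons (.leaf 1 [(0,1),(10,2),(7,1),(8,1)])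 .nil)))))) .nil)))))) .nil)))))) (.cons (.keep [0,5,7,8,9] (.node (.cons (.leaf 1 [(2,1),(8,1)]) (.cons (.keep [0,2,6,8,9] (.node (.cons (.leaf 1 [(6,1),(2,1),(8,1)]) (.cons (.leaf 1 [(6,1),(2,1),(8,1)]) (.cons (.leaf 1 [(7,1),(8,1)]) (.cons (.keep [0,3,7,8,9] (.node (.cons (.leaf 1 [(2,1),(7,1),(8,1)]) (.cons (.leaf 1 [(7,1),(8,1),(2,1)]) (.cons (.leaf 1 [(8,2),(5,1),(7,1)]) (.cons (.leaf 1 [(0,1),(7,1),(8,2)]) .nil)))))) .nil)))))) (.cons (.leaf 1 [(8,1)]) (.cons (.keep [0,6,7,8,9] (.node (.cons (.leaf 1 [(8,1),(2,1)]) (.cons (.leaf 1 [(8,1),(2,1)]) (.cons (.leaf 1 [(8,1),(6,1)]) (.cons (.keep [0,5,6,8,9] (.node (.cons (.leaf 1 [(2,1),(7,1),(8,1)]) (.cons (.leaf 1 [(2,1),(8,1),(7,1)]) (.cons (.leaf 2 [(8,4),(5,1),(7,1)]) (.cons (.leaf 1 [(9,1),(0,1),(8,3),(7,1)]) .nil)))))) .nil))))))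 .nil)))))) .nil)))))) (.cons (.keep [1,4,5,6,7,8] (.node (.cons (.keep [2,4,5,7,8,10] (.node (.cons (.leaf 1 [(10,1),(2,1)]) (.cons (.keep [2,5,7,8,9,10] (.node (.cons (.leaf 1 [(2,1),(5,1),(10,1)]) (.cons (.leaf 1 [(5,1),(2,1),(10,1)]) (.cons (.leaf 1 [(10,1),(9,1)]) (.cons (.keep [0,5,7,8,9,10] (.node (.cons (.leaf 1 [(2,1),(9,1)]) (.cons (.leaf 1 [(10,1),(9,1),(2,1)]) (.cons (.leaf 1 [(9,1)]) (.cons (.leaf 1 [(9,1),(10,2),(0,1)]) .nil)))))) .nil)))))) (.cons (.leaf 1 [(10,1)]) (.cons (.keep [1,5,6,7,8,9,10] (.node (.cons (.leaf 1 [(2,1),(11,1)]) (.cons (.leaf 1 [(2,1),(11,1)]) (.cons (.leaf 1 [(11,1),(10,1)]) (.cons (.keep [5,6,7,8,9,10,11] (.node (.cons (.leaf 1 [(2,1),(10,1)]) (.cons (.leaf 1 [(2,1),(10,1),(11,1)]) (.cons (.leaf 1 [(10,1)]) (.cons (.leaf 1 [(5,1),(10,1),(11,2),(0,1)])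 .nil)))))) .nil)))))) .nil)))))) (.cons (.keep [3,5,7,8,9,10] (.node (.cons (.leaf 1 [(2,1),(10,1)]) (.cons (.keep [2,5,6,7,8,9,10] (.node (.cons (.leaf 1 [(5,1),(2,1),(11,1)]) (.cons (.leaf 1 [(2,1),(5,1),(11,1)]) (.cons (.leaf 1 [(9,1),(11,1)]) (.cons (.keep [5,6,7,8,9,10,11] (.node (.cons (.leaf 1 [(2,1),(9,1),(6,1)]) (.cons (.leaf 1 [(11,1),(9,1),(2,1)]) (.cons (.leaf 1 [(6,1),(9,1)]) (.cons (.leaf 1 [(11,2),(9,1),(0,1)]) .nil)))))) .nil)))))) (.cons (.leaf 1 [(10,1)]) (.cons (.keep [1,6,7,8,9,10] (.node (.cons (.leaf 1 [(2,1),(10,1)]) (.cons (.leaf 1 [(2,1),(10,1)]) (.cons (.leaf 1 [(10,1),(8,1)]) (.cons (.keep [0,5,6,7,8,10] (.node (.cons (.leaf 1 [(2,1),(9,1),(6,1)]) (.cons (.leaf 1 [(2,1),(9,1),(10,1)]) (.cons (.leaf 1 [(6,1),(9,1)]) (.cons (.leaf 1 [(10,2),(0,1),(9,1),(6,1)]) .nil))))))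 .nil)))))) .nil)))))) (.cons (.keep [1,4,5,6,7,8] (.node (.cons (.leaf 1 [(2,1)]) (.cons (.keep [2,5,7,8,9,10] (.node (.cons (.leaf 1 [(5,1),(2,1)]) (.cons (.leaf 1 [(5,1),(2,1)]) (.cons (.leaf 1 [(10,1)]) (.cons (.keep [0,5,6,7,9,10] (.node (.cons (.leaf 1 [(2,1),(10,1)]) (.cons (.leaf 1 [(2,1),(10,1)]) (.cons (.leaf 1 [(5,1),(10,1)]) (.cons (.leaf 1 [(10,1),(0,1)]) .nil)))))) .nil)))))) (.cons (.leaf 1 []) (.cons (.keep [1,3,5,6,7,8,10] (.node (.cons (.leaf 1 [(2,1)]) (.cons (.leaf 1 [(2,1)]) (.cons (.leaf 1 [(11,1)]) (.cons (.keep [3,5,7,8,9,10,11] (.node (.cons (.leaf 1 [(2,1),(11,1)]) (.cons (.leaf 1 [(2,1),(11,1)]) (.cons (.leaf 1 [(10,1),(11,1)]) (.cons (.leaf 1 [(0,1),(11,1),(6,1)]) .nil)))))) .nil)))))) .nil)))))) (.cons (.keep [1,3,5,6,7,8,9] (.node (.cons (.leaf 1 []) (.cons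 (.keep [2,3,5,6,7,8,10] (.node (.cons (.leaf 1 [(2,1)]) (.cons (.leaf 1 [(2,1)]) (.cons (.leaf 1 [(11,1),(8,1)]) (.cons (.keep [3,5,7,8,9,10,11] (.node (.cons (.leaf 1 [(2,1),(11,1),(8,1)]) (.cons (.leaf 1 [(2,1),(11,1),(8,1)]) (.cons (.leaf 1 [(8,1),(10,1),(11,1)]) (.cons (.leaf 1 [(0,1),(11,1),(8,2)]) .nil)))))) .nil)))))) (.cons (.leaf 1 [(1,1)]) (.cons (.keep [1,5,7,8,9,10,11] (.node (.cons (.leaf 1 [(5,1),(2,1)]) (.cons (.leaf 1 [(5,1),(2,1)]) (.cons (.leaf 1 [(5,1),(10,1)]) (.cons (.keep [5,6,7,8,9,10,11] (.node (.cons (.leaf 1 [(2,1),(10,1),(5,1)]) (.cons (.leaf 1 [(2,1),(10,1),(5,1)]) (.cons (.leaf 1 [(5,1),(8,1),(10,1)]) (.cons (.leaf 1 [(0,1),(5,3),(10,1)]) .nil)))))) .nil)))))) .nil)))))) .nil)))))) (.cons (.keep [1,3,5,6,7,8] (.node (.cons (.keep [2,4,5,6,7,8] (.node (.cons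 (.leaf 1 [(2,1)]) (.cons (.keep [2,5,7,8,9,10] (.node (.cons (.leaf 1 [(5,1),(2,1)]) (.cons (.leaf 1 [(5,1),(2,1)]) (.cons (.leaf 1 [(10,1)]) (.cons (.keep [0,5,7,8,9,10] (.node (.cons (.leaf 1 [(2,1),(10,1)]) (.cons (.leaf 1 [(2,1),(10,1)]) (.cons (.leaf 1 [(5,1),(10,1)]) (.cons (.leaf 1 [(10,1),(0,1)]) .nil)))))) .nil)))))) (.cons (.leaf 1 []) (.cons (.keep [1,5,6,7,8,9,10] (.node (.cons (.leaf 1 [(2,1)]) (.cons (.leaf 1 [(2,1)]) (.cons (.leaf 1 [(11,1)]) (.cons (.keep [5,6,7,8,9,10,11] (.node (.cons (.leaf 1 [(2,1),(11,1)]) (.cons (.leaf 1 [(2,1),(11,1)]) (.cons (.leaf 1 [(6,1),(11,1)]) (.cons (.leaf 1 [(0,1),(11,1),(5,1)]) .nil)))))) .nil)))))) .nil)))))) (.cons (.keep [2,3,5,6,7,8,9] (.node (.cons (.leaf 1 []) (.cons (.keep [2,5,6,7,8,9,10] (.node (.cons (.leaf 1 [(2,1)]) (.cons (.leaf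 1 [(2,1)]) (.cons (.leaf 1 [(11,1),(7,1)]) (.cons (.keep [5,6,7,8,9,10,11] (.node (.cons (.leaf 1 [(2,1),(11,1),(7,1)]) (.cons (.leaf 1 [(2,1),(11,1),(7,1)]) (.cons (.leaf 1 [(7,1),(6,1),(11,1)]) (.cons (.leaf 1 [(0,1),(11,1),(7,2)]) .nil)))))) .nil)))))) (.cons (.leaf 1 [(1,1)]) (.cons (.keep [1,5,7,8,9,10,11] (.node (.cons (.leaf 1 [(5,1),(2,1)]) (.cons (.leaf 1 [(5,1),(2,1)]) (.cons (.leaf 1 [(5,1),(10,1)]) (.cons (.keep [5,6,7,8,9,10,11] (.node (.cons (.leaf 1 [(2,1),(10,1),(5,1)]) (.cons (.leaf 1 [(2,1),(10,1),(5,1)]) (.cons (.leaf 1 [(5,1),(6,1),(10,1)]) (.cons (.leaf 1 [(0,1),(5,3),(10,1)]) .nil)))))) .nil)))))) .nil)))))) (.cons (.keep [1,4,5,7,8,10] (.node (.cons (.leaf 1 [(10,1),(2,1)]) (.cons (.keep [2,5,7,8,9,10] (.node (.cons (.leaf 1 [(5,1),(2,1),(10,1)]) (.cons (.leaf 1 [(5,1),(2,1),(10,1)])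 (.cons (.leaf 1 [(9,1),(10,1)]) (.cons (.keep [5,6,7,8,9,10] (.node (.cons (.leaf 1 [(2,1),(9,1)]) (.cons (.leaf 1 [(2,1),(9,1),(3,1)]) (.cons (.leaf 1 [(10,2),(9,1)]) (.cons (.leaf 1 [(0,1),(9,1),(10,2)]) .nil)))))) .nil)))))) (.cons (.leaf 1 [(10,1)]) (.cons (.keep [1,3,5,6,7,9,10] (.node (.cons (.leaf 1 [(11,1),(2,1)]) (.cons (.leaf 1 [(11,1),(2,1)]) (.cons (.leaf 1 [(11,1),(10,1)]) (.cons (.keep [0,3,5,7,9,10,11] (.node (.cons (.leaf 1 [(2,1),(10,1)]) (.cons (.leaf 1 [(10,1),(2,1),(3,1)]) (.cons (.leaf 1 [(10,1),(11,2)]) (.cons (.leaf 1 [(0,1),(11,2),(10,1),(7,1)]) .nil)))))) .nil)))))) .nil)))))) (.cons (.keep [3,5,7,8,9,10] (.node (.cons (.leaf 1 [(2,1),(10,1)]) (.cons (.keep [2,3,5,6,8,9,10] (.node (.cons (.leaf 1 [(11,1),(2,1),(5,1)]) (.cons (.leaf 1 [(11,1),(2,2),(0,1)]) (.cons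 (.leaf 1 [(11,1),(9,1)]) (.cons (.keep [0,3,7,8,9,10,11] (.node (.cons (.leaf 1 [(2,1),(9,1),(7,1)]) (.cons (.leaf 1 [(9,1),(3,1),(2,1),(7,1)]) (.cons (.leaf 1 [(9,1),(11,2),(5,1)]) (.cons (.leaf 1 [(0,1),(11,2),(9,1)]) .nil)))))) .nil)))))) (.cons (.leaf 1 [(10,1)]) (.cons (.keep [0,1,6,8,9,10] (.node (.cons (.leaf 1 [(10,1),(2,1)]) (.cons (.leaf 1 [(10,1),(2,1)]) (.cons (.leaf 1 [(10,1),(8,1)]) (.cons (.keep [0,5,6,7,8,9,10] (.node (.cons (.leaf 1 [(2,1),(9,1),(7,1)]) (.cons (.leaf 1 [(9,1),(3,1),(2,1),(7,1)]) (.cons (.leaf 2 [(9,2),(11,4),(5,1)]) (.cons (.leaf 1 [(0,1),(11,2),(9,1),(7,1)]) .nil)))))) .nil)))))) .nil)))))) .nil)))))) .nil)))))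

theorem c_12_24_1 : Concl 12 24 z_12_24_1 h_12_24_1 .nd := piece _ hP_nil t_12_24_1 _ _ (by
  decide +kernel)

def z_12_24_4 : F := ⟨0, 0, -1, 0, 2⟩

def h_12_24_4 : List F := [⟨0, 1, -1, 0, 0⟩, ⟨0, 0, 1, -1, 0⟩, ⟨1, -1, 0, 0, 0⟩, ⟨-1, 1, 0, 0, 0⟩,
  ⟨0, -1, 0, 0, 1⟩]

def t_12_24_4 : T := (.node (.cons (.keep [2,4,5,8,9] (.node (.cons (.keep [4,5,7,8,9] (.node (.cons (.leaf 1 [(2,1)]) (.cons (.keep [2,6,7,8,9] (.node (.cons (.leaf 1 [(5,1),(2,1)]) (.cons (.leaf 1 [(5,1),(2,1)]) (.cons (.leaf 1 [(6,1)]) (.cons (.keep [5,6,7,8,9] (.node (.cons (.leaf 1 [(2,1),(6,1)]) (.cons (.leaf 1 [(6,1),(2,1)]) (.cons (.leaf 1 [(8,1),(6,2)]) (.cons (.leaf 1 [(6,1),(0,1)]) .nil)))))) .nil)))))) (.cons (.leaf 1 []) (.cons (.keep [1,5,6,7,8,9] (.node (.cons (.leaf 1 [(2,1)]) (.cons (.leaf 1 [(2,1)]) (.cons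 (.leaf 1 [(7,1)]) (.cons (.keep [5,6,7,8,9,10] (.node (.cons (.leaf 1 [(2,1),(7,1)]) (.cons (.leaf 1 [(2,1),(7,1)]) (.cons (.leaf 1 [(9,1),(7,2)]) (.cons (.leaf 1 [(0,1),(7,1),(5,1)]) .nil)))))) .nil)))))) .nil)))))) (.cons (.keep [3,5,7,8,9] (.node (.cons (.leaf 1 [(2,1)]) (.cons (.keep [2,5,6,7,8,9] (.node (.cons (.leaf 1 [(5,1),(2,1)]) (.cons (.leaf 1 [(5,1),(2,1)]) (.cons (.leaf 1 [(7,1)]) (.cons (.keep [5,6,7,8,9,10] (.node (.cons (.leaf 1 [(2,1),(7,1)]) (.cons (.leaf 1 [(7,1),(2,1)]) (.cons (.leaf 1 [(6,1),(9,1),(7,2)]) (.cons (.leaf 1 [(7,1),(0,1)]) .nil)))))) .nil)))))) (.cons (.leaf 1 []) (.cons (.keep [1,6,7,8,9] (.node (.cons (.leaf 1 [(2,1)]) (.cons (.leaf 1 [(2,1)]) (.cons (.leaf 1 [(6,1)]) (.cons (.keep [5,6,7,8,9] (.node (.cons (.leaf 1 [(2,1),(6,1)]) (.cons (.leaf 1 [(2,1),(6,1)])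 (.cons (.leaf 1 [(5,1),(8,1),(6,2)]) (.cons (.leaf 1 [(0,1),(6,1),(5,1)]) .nil)))))) .nil)))))) .nil)))))) (.cons (.keep [1,4,5,6,7,8] (.node (.cons (.leaf 1 [(2,1)]) (.cons (.keep [2,5,7,8,9,10] (.node (.cons (.leaf 1 [(5,1),(2,1)]) (.cons (.leaf 1 [(5,1),(2,1)]) (.cons (.leaf 1 [(7,1)]) (.cons (.keep [0,5,6,7,9,10] (.node (.cons (.leaf 1 [(2,1),(8,1)]) (.cons (.leaf 1 [(2,1),(8,1)]) (.cons (.leaf 1 [(5,1),(8,1)]) (.cons (.leaf 1 [(8,1),(0,1)]) .nil)))))) .nil)))))) (.cons (.leaf 1 []) (.cons (.keep [1,3,5,6,7,8,10] (.node (.cons (.leaf 1 [(2,1)]) (.cons (.leaf 1 [(2,1)]) (.cons (.leaf 1 [(9,1)]) (.cons (.keep [3,5,7,8,9,10,11] (.node (.cons (.leaf 1 [(2,1),(9,1)]) (.cons (.leaf 1 [(2,1),(9,1)]) (.cons (.leaf 1 [(10,1),(9,1)]) (.cons (.leaf 1 [(0,1),(9,1),(6,1)]) .nil)))))) .nil))))))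 .nil)))))) (.cons (.keep [1,3,5,6,7,8] (.node (.cons (.leaf 1 [(2,1)]) (.cons (.keep [3,5,6,7,8,10] (.node (.cons (.leaf 1 [(8,1),(2,1)]) (.cons (.leaf 1 [(2,1),(10,1),(8,1)]) (.cons (.leaf 1 [(8,1)]) (.cons (.keep [0,3,6,7,8,10] (.node (.cons (.leaf 1 [(2,1),(9,1)]) (.cons (.leaf 1 [(2,1),(9,1)]) (.cons (.leaf 1 [(5,1),(9,1)]) (.cons (.leaf 1 [(9,1),(0,1)]) .nil)))))) .nil)))))) (.cons (.leaf 1 []) (.cons (.keep [1,5,7,8,9,10] (.node (.cons (.leaf 1 [(2,1)]) (.cons (.leaf 1 [(2,1)]) (.cons (.leaf 1 [(7,1)]) (.cons (.keep [5,6,7,8,9,10] (.node (.cons (.leaf 1 [(2,1),(7,1)]) (.cons (.leaf 1 [(2,1),(7,1)]) (.cons (.leaf 1 [(8,1),(7,1)]) (.cons (.leaf 1 [(0,1),(7,1),(5,1)]) .nil)))))) .nil)))))) .nil)))))) .nil)))))) (.cons (.keep [2,5,7,8,9] (.node (.cons (.keep [2,4,5,6,8,9] (.node (.cons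 (.leaf 1 [(2,1)]) (.cons (.keep [2,5,7,8,9,10] (.node (.cons (.leaf 1 [(5,1),(2,1)]) (.cons (.leaf 1 [(5,1),(2,1)]) (.cons (.leaf 1 [(7,1)]) (.cons (.keep [0,5,7,8,9,10] (.node (.cons (.leaf 1 [(2,1),(7,1)]) (.cons (.leaf 1 [(7,1),(2,1)]) (.cons (.leaf 1 [(5,1),(7,1)]) (.cons (.leaf 1 [(7,1),(0,1)]) .nil)))))) .nil)))))) (.cons (.leaf 1 []) (.cons (.keep [1,5,6,7,8,9,10] (.node (.cons (.leaf 1 [(2,1)]) (.cons (.leaf 1 [(2,1)]) (.cons (.leaf 1 [(8,1)]) (.cons (.keep [5,6,7,8,9,10,11] (.node (.cons (.leaf 1 [(2,1),(8,1)]) (.cons (.leaf 1 [(2,1),(8,1)]) (.cons (.leaf 1 [(6,1),(8,1)]) (.cons (.leaf 1 [(0,1),(8,1),(5,1)]) .nil)))))) .nil)))))) .nil)))))) (.cons (.keep [2,5,6,8,9] (.node (.cons (.leaf 1 [(2,1)]) (.cons (.keep [5,6,7,8,9] (.node (.cons (.leaf 1 [(6,1),(2,1)]) (.cons (.leaf 1 [(2,1),(8,1),(6,1)])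 (.cons (.leaf 1 [(6,1)]) (.cons (.keep [0,6,7,8,9] (.node (.cons (.leaf 1 [(2,1),(6,1)]) (.cons (.leaf 1 [(6,1),(2,1)]) (.cons (.leaf 1 [(5,1),(6,1)]) (.cons (.leaf 1 [(6,1),(0,1)]) .nil)))))) .nil)))))) (.cons (.leaf 1 []) (.cons (.keep [5,6,7,8,9] (.node (.cons (.leaf 1 [(2,1)]) (.cons (.leaf 1 [(2,1)]) (.cons (.leaf 1 [(6,1)]) (.cons (.keep [5,6,7,8,9] (.node (.cons (.leaf 1 [(2,1),(6,1)]) (.cons (.leaf 1 [(2,1),(6,1)]) (.cons (.leaf 1 [(5,1),(6,1)]) (.cons (.leaf 1 [(9,1),(0,1),(6,1),(5,1)]) .nil)))))) .nil)))))) .nil)))))) (.cons (.keep [4,5,6,7,8] (.node (.cons (.leaf 1 [(2,1)]) (.cons (.keep [2,6,7,8,9] (.node (.cons (.leaf 1 [(5,1),(2,1)]) (.cons (.leaf 1 [(5,1),(2,1)]) (.cons (.leaf 1 [(6,1)]) (.cons (.keep [0,5,6,7,9] (.node (.cons (.leaf 1 [(2,1),(7,1)]) (.cons (.leaf 1 [(7,1),(2,1)])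 (.cons (.leaf 1 [(5,1),(7,1)]) (.cons (.leaf 1 [(7,1),(0,1)]) .nil)))))) .nil)))))) (.cons (.leaf 1 []) (.cons (.keep [1,3,5,6,8,9] (.node (.cons (.leaf 1 [(2,1)]) (.cons (.leaf 1 [(2,1)]) (.cons (.leaf 1 [(8,1)]) (.cons (.keep [0,3,5,8,10] (.node (.cons (.leaf 1 [(2,1),(8,1)]) (.cons (.leaf 1 [(2,1),(8,1)]) (.cons (.leaf 1 [(7,1),(5,1),(8,1)]) (.cons (.leaf 1 [(0,1),(8,1),(7,1)]) .nil)))))) .nil)))))) .nil)))))) (.cons (.keep [3,5,6,7,8] (.node (.cons (.leaf 1 [(2,1)]) (.cons (.keep [2,3,5,6,8,9] (.node (.cons (.leaf 1 [(5,1),(2,1)]) (.cons (.leaf 1 [(5,1),(2,1)]) (.cons (.leaf 1 [(8,1)]) (.cons (.keep [0,3,7,8,10] (.node (.cons (.leaf 1 [(2,1),(8,1)]) (.cons (.leaf 1 [(8,1),(2,1)]) (.cons (.leaf 1 [(5,1),(8,1)]) (.cons (.leaf 1 [(8,1),(0,1)]) .nil)))))) .nil)))))) (.cons (.leaf 1 [])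 (.cons (.keep [0,1,6,8,9] (.node (.cons (.leaf 1 [(2,1)]) (.cons (.leaf 1 [(2,1)]) (.cons (.leaf 1 [(7,1)]) (.cons (.keep [0,5,6,7,9] (.node (.cons (.leaf 1 [(2,1),(8,1)]) (.cons (.leaf 1 [(2,1),(8,1)]) (.cons (.leaf 1 [(7,1),(5,1),(8,1)]) (.cons (.leaf 1 [(0,1),(8,1),(7,1)]) .nil)))))) .nil)))))) .nil)))))) .nil)))))) (.cons (.keep [1,4,5,6,7,8] (.node (.cons (.keep [2,4,5,7,8,9] (.node (.cons (.leaf 1 [(2,1)]) (.cons (.keep [2,5,7,8,9,10] (.node (.cons (.leaf 1 [(5,1),(2,1)]) (.cons (.leaf 1 [(5,1),(2,1)]) (.cons (.leaf 1 [(9,1)]) (.cons (.keep [0,5,7,8,9,10] (.node (.cons (.leaf 1 [(2,1),(9,1)]) (.cons (.leaf 1 [(9,1),(2,1)]) (.cons (.leaf 1 [(5,1),(9,1)]) (.cons (.leaf 1 [(9,1),(0,1)]) .nil)))))) .nil)))))) (.cons (.leaf 1 []) (.cons (.keep [1,5,6,7,8,9,10] (.node (.cons (.leaf 1 [(2,1)])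 (.cons (.leaf 1 [(2,1)]) (.cons (.leaf 1 [(10,1)]) (.cons (.keep [5,6,7,8,9,10,11] (.node (.cons (.leaf 1 [(2,1),(10,1)]) (.cons (.leaf 1 [(2,1),(10,1)]) (.cons (.leaf 1 [(6,1),(10,1)]) (.cons (.leaf 1 [(0,1),(10,1),(5,1)]) .nil)))))) .nil)))))) .nil)))))) (.cons (.keep [3,5,7,8,9,10] (.node (.cons (.leaf 1 [(2,1)]) (.cons (.keep [2,5,6,7,8,9,10] (.node (.cons (.leaf 1 [(5,1),(2,1)]) (.cons (.leaf 1 [(5,1),(2,1)]) (.cons (.leaf 1 [(9,1)]) (.cons (.keep [5,6,7,8,9,10,11] (.node (.cons (.leaf 1 [(2,1),(9,1)]) (.cons (.leaf 1 [(9,1),(2,1)]) (.cons (.leaf 1 [(6,1),(11,1),(9,1)]) (.cons (.leaf 1 [(9,1),(0,1)]) .nil)))))) .nil)))))) (.cons (.leaf 1 []) (.cons (.keep [1,6,7,8,9,10] (.node (.cons (.leaf 1 [(2,1)]) (.cons (.leaf 1 [(2,1)]) (.cons (.leaf 1 [(8,1)]) (.cons (.keep [0,5,6,7,8,9] (.node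 (.cons (.leaf 1 [(2,1),(9,1)]) (.cons (.leaf 1 [(2,1),(9,1)]) (.cons (.leaf 1 [(6,1),(5,1),(9,1)]) (.cons (.leaf 1 [(0,1),(9,1),(6,1)]) .nil)))))) .nil)))))) .nil)))))) (.cons (.keep [1,4,5,6,7,8] (.node (.cons (.leaf 1 [(2,1)]) (.cons (.keep [2,5,7,8,9,10] (.node (.cons (.leaf 1 [(5,1),(2,1)]) (.cons (.leaf 1 [(5,1),(2,1)]) (.cons (.leaf 1 [(10,1)]) (.cons (.keep [0,5,6,7,9,10] (.node (.cons (.leaf 1 [(2,1),(10,1)]) (.cons (.leaf 1 [(2,1),(10,1)]) (.cons (.leaf 1 [(5,1),(10,1)]) (.cons (.leaf 1 [(10,1),(0,1)]) .nil)))))) .nil)))))) (.cons (.leaf 1 []) (.cons (.keep [1,3,5,6,7,8,10] (.node (.cons (.leaf 1 [(2,1)]) (.cons (.leaf 1 [(2,1)]) (.cons (.leaf 1 [(11,1)]) (.cons (.keep [3,5,7,8,9,10,11] (.node (.cons (.leaf 1 [(2,1),(11,1)]) (.cons (.leaf 1 [(2,1),(11,1)]) (.cons (.leaf 1 [(10,1),(11,1)])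 (.cons (.leaf 1 [(0,1),(11,1),(6,1)]) .nil)))))) .nil)))))) .nil)))))) (.cons (.keep [1,3,5,6,7,8,10] (.node (.cons (.leaf 1 [(2,1)]) (.cons (.keep [2,3,5,6,7,8,10] (.node (.cons (.leaf 1 [(5,1),(2,1)]) (.cons (.leaf 1 [(5,1),(2,1)]) (.cons (.leaf 1 [(11,1)]) (.cons (.keep [0,3,5,7,8,9,11] (.node (.cons (.leaf 1 [(2,1),(11,1)]) (.cons (.leaf 1 [(2,1),(11,1)]) (.cons (.leaf 1 [(5,1),(11,1)]) (.cons (.leaf 1 [(11,1),(0,1)]) .nil)))))) .nil)))))) (.cons (.leaf 1 []) (.cons (.keep [1,5,7,8,9,10,11] (.node (.cons (.leaf 1 [(2,1)]) (.cons (.leaf 1 [(2,1)]) (.cons (.leaf 1 [(10,1)]) (.cons (.keep [5,6,7,8,9,10,11] (.node (.cons (.leaf 1 [(2,1),(10,1)]) (.cons (.leaf 1 [(2,1),(10,1)]) (.cons (.leaf 1 [(8,1),(10,1)]) (.cons (.leaf 1 [(0,1),(10,1),(5,1)]) .nil)))))) .nil)))))) .nil)))))) .nil))))))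 (.cons (.keep [1,5,6,7,8,9] (.node (.cons (.keep [2,4,5,6,7,10] (.node (.cons (.leaf 1 [(2,1)]) (.cons (.keep [2,5,7,8,9,10] (.node (.cons (.leaf 1 [(5,1),(2,1)]) (.cons (.leaf 1 [(5,1),(2,1)]) (.cons (.leaf 1 [(9,1)]) (.cons (.keep [0,5,7,8,9,10] (.node (.cons (.leaf 1 [(2,1),(9,1)]) (.cons (.leaf 1 [(9,1),(2,1)]) (.cons (.leaf 1 [(5,1),(9,1)]) (.cons (.leaf 1 [(9,1),(0,1)]) .nil)))))) .nil)))))) (.cons (.leaf 1 []) (.cons (.keep [1,5,6,7,8,9,10] (.node (.cons (.leaf 1 [(2,1)]) (.cons (.leaf 1 [(2,1)]) (.cons (.leaf 1 [(10,1)]) (.cons (.keep [5,6,7,8,9,10,11] (.node (.cons (.leaf 1 [(2,1),(10,1)]) (.cons (.leaf 1 [(2,1),(10,1)]) (.cons (.leaf 1 [(6,1),(10,1)]) (.cons (.leaf 1 [(0,1),(10,1),(5,1)]) .nil)))))) .nil)))))) .nil)))))) (.cons (.keep [2,5,6,7,9,10] (.node (.cons (.leaf 1 [(2,1)])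 (.cons (.keep [2,5,6,7,8,10] (.node (.cons (.leaf 1 [(5,1),(2,1)]) (.cons (.leaf 1 [(5,1),(2,1)]) (.cons (.leaf 1 [(9,1)]) (.cons (.keep [0,5,7,8,9,10] (.node (.cons (.leaf 1 [(2,1),(9,1)]) (.cons (.leaf 1 [(9,1),(2,1)]) (.cons (.leaf 1 [(5,1),(9,1)]) (.cons (.leaf 1 [(9,1),(0,1)]) .nil)))))) .nil)))))) (.cons (.leaf 1 []) (.cons (.keep [5,6,7,8,9,10] (.node (.cons (.leaf 1 [(2,1)]) (.cons (.leaf 1 [(2,1)]) (.cons (.leaf 1 [(8,1)]) (.cons (.keep [5,6,7,8,9,10] (.node (.cons (.leaf 1 [(2,1),(8,1)]) (.cons (.leaf 1 [(2,1),(8,1)]) (.cons (.leaf 1 [(5,1),(8,1)]) (.cons (.leaf 1 [(10,1),(0,1),(8,1),(5,1)]) .nil)))))) .nil)))))) .nil)))))) (.cons (.keep [1,4,5,6,7,8] (.node (.cons (.leaf 1 [(2,1)]) (.cons (.keep [2,5,7,8,9,10] (.node (.cons (.leaf 1 [(5,1),(2,1)]) (.cons (.leaf 1 [(5,1),(2,1)])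 (.cons (.leaf 1 [(9,1)]) (.cons (.keep [0,5,6,7,8,9] (.node (.cons (.leaf 1 [(2,1),(10,1)]) (.cons (.leaf 1 [(2,1),(10,1)]) (.cons (.leaf 1 [(5,1),(10,1)]) (.cons (.leaf 1 [(10,1),(0,1)]) .nil)))))) .nil)))))) (.cons (.leaf 1 []) (.cons (.keep [1,3,5,6,7,9,10] (.node (.cons (.leaf 1 [(2,1)]) (.cons (.leaf 1 [(2,1)]) (.cons (.leaf 1 [(10,1)]) (.cons (.keep [3,5,7,8,9,10,11] (.node (.cons (.leaf 1 [(2,1),(10,1)]) (.cons (.leaf 1 [(2,1),(10,1)]) (.cons (.leaf 1 [(11,1),(10,1)]) (.cons (.leaf 1 [(0,1),(10,1),(6,1)]) .nil)))))) .nil)))))) .nil)))))) (.cons (.keep [3,5,6,7,8,9] (.node (.cons (.leaf 1 [(2,1)]) (.cons (.keep [2,3,5,6,8,9,10] (.node (.cons (.leaf 1 [(5,1),(2,1)]) (.cons (.leaf 1 [(5,1),(2,1)]) (.cons (.leaf 1 [(9,1)]) (.cons (.keep [3,5,7,8,9,10,11] (.node (.cons (.leaf 1 [(2,1),(9,1)])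 (.cons (.leaf 1 [(9,1),(2,1)]) (.cons (.leaf 1 [(10,1),(6,1),(9,1)]) (.cons (.leaf 1 [(9,1),(0,1)]) .nil)))))) .nil)))))) (.cons (.leaf 1 []) (.cons (.keep [0,1,6,8,9,10] (.node (.cons (.leaf 1 [(2,1)]) (.cons (.leaf 1 [(2,1)]) (.cons (.leaf 1 [(8,1)]) (.cons (.keep [0,5,6,7,8,10] (.node (.cons (.leaf 1 [(2,1),(9,1)]) (.cons (.leaf 1 [(2,1),(9,1)]) (.cons (.leaf 1 [(7,1),(5,1),(9,1)]) (.cons (.leaf 1 [(0,1),(9,1),(7,1)]) .nil)))))) .nil)))))) .nil)))))) .nil)))))) .nil)))))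

theorem c_12_24_4 : Concl 12 24 z_12_24_4 h_12_24_4 .nd := piece _ hP_nil t_12_24_4 _ _ (by
  decide +kernel)

def z_12_24_5 : F := ⟨0, 0, -1, 0, 2⟩

def h_12_24_5 : List F := [⟨0, 1, -1, 0, 0⟩, ⟨0, 0, 1, -1, 0⟩, ⟨-1, 1, 0, 0, 0⟩, ⟨0, -1, 0, 0, 1⟩]

def t_12_24_5 : T := (.node (.cons (.keep [2,4,5,7,8] (.node (.cons (.keep [4,5,7,8,9] (.node (.cons (.leaf 1 [(2,1)]) (.cons (.keep [2,6,7,8,9] (.node (.cons (.leaf 1 [(5,1),(2,1)]) (.cons (.leaf 1 [(5,1),(2,1)]) (.cons (.leaf 1 [(6,1)]) (.cons (.keep [5,6,7,8,9] (.node (.cons (.leaf 1 [(2,1),(6,1)]) (.cons (.leaf 1 [(6,1),(2,1)]) (.cons (.leaf 1 [(8,1),(6,2)]) (.cons (.leaf 1 [(6,1),(0,1)]) .nil)))))) .nil)))))) (.cons (.leaf 1 []) (.cons (.keep [1,5,6,7,8,9] (.node (.cons (.leaf 1 [(2,1)]) (.cons (.leaf 1 [(2,1)]) (.cons (.leaf 1 [(7,1)])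 (.cons (.keep [5,6,7,8,9,10] (.node (.cons (.leaf 1 [(2,1),(7,1)]) (.cons (.leaf 1 [(2,1),(7,1)]) (.cons (.leaf 1 [(9,1),(7,2)]) (.cons (.leaf 1 [(0,1),(7,1),(5,1)]) .nil)))))) .nil)))))) .nil)))))) (.cons (.keep [3,5,7,8,9] (.node (.cons (.leaf 1 [(2,1)]) (.cons (.keep [2,5,6,7,8,9] (.node (.cons (.leaf 1 [(5,1),(2,1)]) (.cons (.leaf 1 [(5,1),(2,1)]) (.cons (.leaf 1 [(7,1)]) (.cons (.keep [5,6,7,8,9,10] (.node (.cons (.leaf 1 [(2,1),(7,1)]) (.cons (.leaf 1 [(7,1),(2,1)]) (.cons (.leaf 1 [(6,1),(9,1),(7,2)]) (.cons (.leaf 1 [(7,1),(0,1)]) .nil)))))) .nil)))))) (.cons (.leaf 1 []) (.cons (.keep [1,6,7,8,9] (.node (.cons (.leaf 1 [(2,1)]) (.cons (.leaf 1 [(2,1)]) (.cons (.leaf 1 [(6,1)]) (.cons (.keep [5,6,7,8,9] (.node (.cons (.leaf 1 [(2,1),(6,1)]) (.cons (.leaf 1 [(2,1),(6,1)]) (.cons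 (.leaf 1 [(5,1),(8,1),(6,2)]) (.cons (.leaf 1 [(0,1),(6,1),(5,1)]) .nil)))))) .nil)))))) .nil)))))) (.cons (.keep [1,4,5,6,7,8] (.node (.cons (.leaf 1 [(2,1)]) (.cons (.keep [2,5,7,8,9,10] (.node (.cons (.leaf 1 [(5,1),(2,1)]) (.cons (.leaf 1 [(5,1),(2,1)]) (.cons (.leaf 1 [(7,1)]) (.cons (.keep [0,5,6,7,9,10] (.node (.cons (.leaf 1 [(2,1),(8,1)]) (.cons (.leaf 1 [(2,1),(8,1)]) (.cons (.leaf 1 [(5,1),(8,1)]) (.cons (.leaf 1 [(8,1),(0,1)]) .nil)))))) .nil)))))) (.cons (.leaf 1 []) (.cons (.keep [1,3,5,6,7,8,10] (.node (.cons (.leaf 1 [(2,1)]) (.cons (.leaf 1 [(2,1)]) (.cons (.leaf 1 [(9,1)]) (.cons (.keep [3,5,7,8,9,10,11] (.node (.cons (.leaf 1 [(2,1),(9,1)]) (.cons (.leaf 1 [(2,1),(9,1)]) (.cons (.leaf 1 [(10,1),(9,1)]) (.cons (.leaf 1 [(0,1),(9,1),(6,1)]) .nil)))))) .nil)))))) .nil))))))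 (.cons (.keep [1,3,5,6,7,8] (.node (.cons (.leaf 1 [(2,1)]) (.cons (.keep [3,5,6,7,8,10] (.node (.cons (.leaf 1 [(8,1),(2,1)]) (.cons (.leaf 1 [(2,1),(10,1),(8,1)]) (.cons (.leaf 1 [(8,1)]) (.cons (.keep [0,3,6,7,8,10] (.node (.cons (.leaf 1 [(2,1),(9,1)]) (.cons (.leaf 1 [(2,1),(9,1)]) (.cons (.leaf 1 [(5,1),(9,1)]) (.cons (.leaf 1 [(9,1),(0,1)]) .nil)))))) .nil)))))) (.cons (.leaf 1 []) (.cons (.keep [1,5,7,8,9,10] (.node (.cons (.leaf 1 [(2,1)]) (.cons (.leaf 1 [(2,1)]) (.cons (.leaf 1 [(7,1)]) (.cons (.keep [5,6,7,8,9,10] (.node (.cons (.leaf 1 [(2,1),(7,1)]) (.cons (.leaf 1 [(2,1),(7,1)]) (.cons (.leaf 1 [(8,1),(7,1)]) (.cons (.leaf 1 [(0,1),(7,1),(5,1)]) .nil)))))) .nil)))))) .nil)))))) .nil)))))) (.cons (.keep [0,2,5,7,8] (.node (.cons (.keep [2,4,6,7,8,9] (.node (.cons (.leaf 1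 [(2,1)]) (.cons (.keep [2,5,7,8,9,10] (.node (.cons (.leaf 1 [(5,1),(2,1)]) (.cons (.leaf 1 [(5,1),(2,1)]) (.cons (.leaf 1 [(7,1)]) (.cons (.keep [0,5,7,8,9,10] (.node (.cons (.leaf 1 [(2,1),(7,1)]) (.cons (.leaf 1 [(7,1),(2,1)]) (.cons (.leaf 1 [(5,1),(7,1)]) (.cons (.leaf 1 [(7,1),(0,1)]) .nil)))))) .nil)))))) (.cons (.leaf 1 []) (.cons (.keep [1,5,6,7,8,9,10] (.node (.cons (.leaf 1 [(2,1)]) (.cons (.leaf 1 [(2,1)]) (.cons (.leaf 1 [(8,1)]) (.cons (.keep [5,6,7,8,9,10,11] (.node (.cons (.leaf 1 [(2,1),(8,1)]) (.cons (.leaf 1 [(2,1),(8,1)]) (.cons (.leaf 1 [(6,1),(8,1)]) (.cons (.leaf 1 [(0,1),(8,1),(5,1)]) .nil)))))) .nil)))))) .nil)))))) (.cons (.keep [2,6,7,8,9] (.node (.cons (.leaf 1 [(2,1)]) (.cons (.keep [5,6,7,8,9] (.node (.cons (.leaf 1 [(6,1),(2,1)]) (.cons (.leaf 1 [(2,1),(8,1),(6,1)])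 (.cons (.leaf 1 [(6,1)]) (.cons (.keep [0,6,7,8,9] (.node (.cons (.leaf 1 [(2,1),(6,1)]) (.cons (.leaf 1 [(6,1),(2,1)]) (.cons (.leaf 1 [(5,1),(6,1)]) (.cons (.leaf 1 [(6,1),(0,1)]) .nil)))))) .nil)))))) (.cons (.leaf 1 []) (.cons (.keep [5,6,7,8,9] (.node (.cons (.leaf 1 [(2,1)]) (.cons (.leaf 1 [(2,1)]) (.cons (.leaf 1 [(6,1)]) (.cons (.keep [5,6,7,8,9] (.node (.cons (.leaf 1 [(2,1),(6,1)]) (.cons (.leaf 1 [(2,1),(6,1)]) (.cons (.leaf 1 [(5,1),(6,1)]) (.cons (.leaf 1 [(9,1),(0,1),(6,1),(5,1)]) .nil)))))) .nil)))))) .nil)))))) (.cons (.keep [4,5,6,8] (.node (.cons (.leaf 1 [(2,1)]) (.cons (.keep [0,2,7,8] (.node (.cons (.leaf 1 [(6,1),(2,1)]) (.cons (.leaf 1 [(6,1),(2,1)]) (.cons (.leaf 1 [(7,1)]) (.cons (.keep [0,5,6,7,8] (.node (.cons (.leaf 1 [(2,1),(8,1)]) (.cons (.leaf 1 [(8,1),(2,1)])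 (.cons (.leaf 1 [(5,1),(8,1)]) (.cons (.leaf 1 [(8,1),(0,1)]) .nil)))))) .nil)))))) (.cons (.leaf 1 []) (.cons (.keep [0,1,5,7,8] (.node (.cons (.leaf 1 [(2,1)]) (.cons (.leaf 1 [(2,1)]) (.cons (.leaf 1 [(8,1)]) (.cons (.keep [0,5,6,8,9] (.node (.cons (.leaf 1 [(2,1),(8,1)]) (.cons (.leaf 1 [(2,1),(8,1)]) (.cons (.leaf 1 [(7,1),(5,1),(8,1)]) (.cons (.leaf 1 [(0,1),(8,1),(7,1)]) .nil)))))) .nil)))))) .nil)))))) (.cons (.keep [0,3,6,8] (.node (.cons (.leaf 1 [(2,1)]) (.cons (.keep [0,2,6,7,8] (.node (.cons (.leaf 1 [(6,1),(2,1)]) (.cons (.leaf 1 [(6,1),(2,1)]) (.cons (.leaf 1 [(8,1)]) (.cons (.keep [0,5,7,8,9] (.node (.cons (.leaf 1 [(2,1),(8,1)]) (.cons (.leaf 1 [(8,1),(2,1)]) (.cons (.leaf 1 [(5,1),(8,1)]) (.cons (.leaf 1 [(8,1),(0,1)]) .nil)))))) .nil)))))) (.cons (.leaf 1 []) (.cons (.keep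 [0,1,7,8] (.node (.cons (.leaf 1 [(2,1)]) (.cons (.leaf 1 [(2,1)]) (.cons (.leaf 1 [(7,1)]) (.cons (.keep [0,5,6,7,8] (.node (.cons (.leaf 1 [(2,1),(8,1)]) (.cons (.leaf 1 [(2,1),(8,1)]) (.cons (.leaf 1 [(7,1),(5,1),(8,1)]) (.cons (.leaf 1 [(0,1),(8,1),(7,1)]) .nil)))))) .nil)))))) .nil)))))) .nil)))))) (.cons (.keep [1,4,5,6,7,8] (.node (.cons (.keep [2,4,5,7,8,10] (.node (.cons (.leaf 1 [(2,1)]) (.cons (.keep [2,5,7,8,9,10] (.node (.cons (.leaf 1 [(5,1),(2,1)]) (.cons (.leaf 1 [(5,1),(2,1)]) (.cons (.leaf 1 [(9,1)]) (.cons (.keep [0,5,7,8,9,10] (.node (.cons (.leaf 1 [(2,1),(9,1)]) (.cons (.leaf 1 [(9,1),(2,1)]) (.cons (.leaf 1 [(5,1),(9,1)]) (.cons (.leaf 1 [(9,1),(0,1)]) .nil)))))) .nil)))))) (.cons (.leaf 1 []) (.cons (.keep [1,5,6,7,8,9,10] (.node (.cons (.leaf 1 [(2,1)]) (.cons (.leaf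 1 [(2,1)]) (.cons (.leaf 1 [(10,1)]) (.cons (.keep [5,6,7,8,9,10,11] (.node (.cons (.leaf 1 [(2,1),(10,1)]) (.cons (.leaf 1 [(2,1),(10,1)]) (.cons (.leaf 1 [(6,1),(10,1)]) (.cons (.leaf 1 [(0,1),(10,1),(5,1)]) .nil)))))) .nil)))))) .nil)))))) (.cons (.keep [3,5,7,8,9,10] (.node (.cons (.leaf 1 [(2,1)]) (.cons (.keep [2,5,6,7,8,9,10] (.node (.cons (.leaf 1 [(5,1),(2,1)]) (.cons (.leaf 1 [(5,1),(2,1)]) (.cons (.leaf 1 [(9,1)]) (.cons (.keep [5,6,7,8,9,10,11] (.node (.cons (.leaf 1 [(2,1),(9,1)]) (.cons (.leaf 1 [(9,1),(2,1)]) (.cons (.leaf 1 [(6,1),(10,1),(9,1)]) (.cons (.leaf 1 [(9,1),(0,1)]) .nil)))))) .nil)))))) (.cons (.leaf 1 []) (.cons (.keep [1,6,7,8,9,10] (.node (.cons (.leaf 1 [(2,1)]) (.cons (.leaf 1 [(2,1)]) (.cons (.leaf 1 [(8,1)]) (.cons (.keep [0,5,6,7,8,10] (.node (.cons (.leaf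 1 [(2,1),(9,1)]) (.cons (.leaf 1 [(2,1),(9,1)]) (.cons (.leaf 1 [(6,1),(5,1),(9,1)]) (.cons (.leaf 1 [(0,1),(9,1),(6,1)]) .nil)))))) .nil)))))) .nil)))))) (.cons (.keep [1,4,5,6,7,8] (.node (.cons (.leaf 1 [(2,1)]) (.cons (.keep [2,5,7,8,9,10] (.node (.cons (.leaf 1 [(5,1),(2,1)]) (.cons (.leaf 1 [(5,1),(2,1)]) (.cons (.leaf 1 [(10,1)]) (.cons (.keep [0,5,6,7,9,10] (.node (.cons (.leaf 1 [(2,1),(10,1)]) (.cons (.leaf 1 [(2,1),(10,1)]) (.cons (.leaf 1 [(5,1),(10,1)]) (.cons (.leaf 1 [(10,1),(0,1)]) .nil)))))) .nil)))))) (.cons (.leaf 1 []) (.cons (.keep [1,3,5,6,7,8,10] (.node (.cons (.leaf 1 [(2,1)]) (.cons (.leaf 1 [(2,1)]) (.cons (.leaf 1 [(11,1)]) (.cons (.keep [3,5,7,8,9,10,11] (.node (.cons (.leaf 1 [(2,1),(11,1)]) (.cons (.leaf 1 [(2,1),(11,1)]) (.cons (.leaf 1 [(10,1),(11,1)]) (.cons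 (.leaf 1 [(0,1),(11,1),(6,1)]) .nil)))))) .nil)))))) .nil)))))) (.cons (.keep [1,3,5,6,7,8,9] (.node (.cons (.leaf 1 [(2,1)]) (.cons (.keep [2,3,5,6,7,8,10] (.node (.cons (.leaf 1 [(5,1),(2,1)]) (.cons (.leaf 1 [(5,1),(2,1)]) (.cons (.leaf 1 [(11,1)]) (.cons (.keep [0,3,5,7,8,9,11] (.node (.cons (.leaf 1 [(2,1),(11,1)]) (.cons (.leaf 1 [(2,1),(11,1)]) (.cons (.leaf 1 [(5,1),(11,1)]) (.cons (.leaf 1 [(11,1),(0,1)]) .nil)))))) .nil)))))) (.cons (.leaf 1 []) (.cons (.keep [1,5,7,8,9,10,11] (.node (.cons (.leaf 1 [(2,1)]) (.cons (.leaf 1 [(2,1)]) (.cons (.leaf 1 [(10,1)]) (.cons (.keep [5,6,7,8,9,10,11] (.node (.cons (.leaf 1 [(2,1),(10,1)]) (.cons (.leaf 1 [(2,1),(10,1)]) (.cons (.leaf 1 [(8,1),(10,1)]) (.cons (.leaf 1 [(0,1),(10,1),(5,1)]) .nil)))))) .nil)))))) .nil)))))) .nil)))))) (.cons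 (.keep [0,1,5,6,7,8] (.node (.cons (.keep [2,4,6,7,8,10] (.node (.cons (.leaf 1 [(2,1)]) (.cons (.keep [2,5,7,8,9,10] (.node (.cons (.leaf 1 [(5,1),(2,1)]) (.cons (.leaf 1 [(5,1),(2,1)]) (.cons (.leaf 1 [(9,1)]) (.cons (.keep [0,5,7,8,9,10] (.node (.cons (.leaf 1 [(2,1),(9,1)]) (.cons (.leaf 1 [(9,1),(2,1)]) (.cons (.leaf 1 [(5,1),(9,1)]) (.cons (.leaf 1 [(9,1),(0,1)]) .nil)))))) .nil)))))) (.cons (.leaf 1 []) (.cons (.keep [1,5,6,7,8,9,10] (.node (.cons (.leaf 1 [(2,1)]) (.cons (.leaf 1 [(2,1)]) (.cons (.leaf 1 [(10,1)]) (.cons (.keep [5,6,7,8,9,10,11] (.node (.cons (.leaf 1 [(2,1),(10,1)]) (.cons (.leaf 1 [(2,1),(10,1)]) (.cons (.leaf 1 [(6,1),(10,1)]) (.cons (.leaf 1 [(0,1),(10,1),(5,1)]) .nil)))))) .nil)))))) .nil)))))) (.cons (.keep [2,6,7,8,9,10] (.node (.cons (.leaf 1 [(2,1)]) (.cons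 (.keep [2,5,6,7,8,10] (.node (.cons (.leaf 1 [(5,1),(2,1)]) (.cons (.leaf 1 [(5,1),(2,1)]) (.cons (.leaf 1 [(9,1)]) (.cons (.keep [0,5,7,8,9,10] (.node (.cons (.leaf 1 [(2,1),(9,1)]) (.cons (.leaf 1 [(9,1),(2,1)]) (.cons (.leaf 1 [(5,1),(9,1)]) (.cons (.leaf 1 [(9,1),(0,1)]) .nil)))))) .nil)))))) (.cons (.leaf 1 []) (.cons (.keep [5,6,7,8,9,10] (.node (.cons (.leaf 1 [(2,1)]) (.cons (.leaf 1 [(2,1)]) (.cons (.leaf 1 [(8,1)]) (.cons (.keep [5,6,7,8,9,10] (.node (.cons (.leaf 1 [(2,1),(8,1)]) (.cons (.leaf 1 [(2,1),(8,1)]) (.cons (.leaf 1 [(5,1),(8,1)]) (.cons (.leaf 1 [(10,1),(0,1),(8,1),(5,1)]) .nil)))))) .nil)))))) .nil)))))) (.cons (.keep [1,4,5,6,8] (.node (.cons (.leaf 1 [(2,1)]) (.cons (.keep [0,2,5,8,9] (.node (.cons (.leaf 1 [(6,1),(2,1)]) (.cons (.leaf 1 [(6,1),(2,1)]) (.cons (.leaf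 1 [(9,1)]) (.cons (.keep [0,5,6,7,8,9] (.node (.cons (.leaf 1 [(2,1),(10,1)]) (.cons (.leaf 1 [(2,1),(10,1)]) (.cons (.leaf 1 [(5,1),(10,1)]) (.cons (.leaf 1 [(10,1),(0,1)]) .nil)))))) .nil)))))) (.cons (.leaf 1 []) (.cons (.keep [0,1,5,6,8,9] (.node (.cons (.leaf 1 [(2,1)]) (.cons (.leaf 1 [(2,1)]) (.cons (.leaf 1 [(10,1)]) (.cons (.keep [0,5,6,7,9,10] (.node (.cons (.leaf 1 [(2,1),(10,1)]) (.cons (.leaf 1 [(2,1),(10,1)]) (.cons (.leaf 1 [(7,1),(5,1),(10,1)]) (.cons (.leaf 1 [(0,1),(10,1),(7,1)]) .nil)))))) .nil)))))) .nil)))))) (.cons (.keep [0,3,6,8,9] (.node (.cons (.leaf 1 [(2,1)]) (.cons (.keep [0,2,6,7,8,9] (.node (.cons (.leaf 1 [(6,1),(2,1)]) (.cons (.leaf 1 [(6,1),(2,1)]) (.cons (.leaf 1 [(9,1)]) (.cons (.keep [0,5,7,8,9,10] (.node (.cons (.leaf 1 [(2,1),(9,1)]) (.cons (.leaf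 1 [(9,1),(2,1)]) (.cons (.leaf 1 [(5,1),(9,1)]) (.cons (.leaf 1 [(9,1),(0,1)]) .nil)))))) .nil)))))) (.cons (.leaf 1 []) (.cons (.keep [0,1,7,8,9] (.node (.cons (.leaf 1 [(2,1)]) (.cons (.leaf 1 [(2,1)]) (.cons (.leaf 1 [(8,1)]) (.cons (.keep [0,5,6,7,8,9] (.node (.cons (.leaf 1 [(2,1),(9,1)]) (.cons (.leaf 1 [(2,1),(9,1)]) (.cons (.leaf 1 [(7,1),(5,1),(9,1)]) (.cons (.leaf 1 [(0,1),(9,1),(7,1)]) .nil)))))) .nil)))))) .nil)))))) .nil)))))) .nil)))))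

theorem c_12_24_5 : Concl 12 24 z_12_24_5 h_12_24_5 .nd := piece _ hP_nil t_12_24_5 _ _ (by
  decide +kernel)

end Pool.Agent.H4.RD4.E33
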