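import Pool.Agent.H4.RD4.Chk

/-! # Certificates for special cases of order four -/

set_option maxRecDepth 20000

namespace Pool.Agent.H4.RD4.E37

open Pool.Agent.H50.Rdb
open Pool.Agent.H81.RDE (ESB caseOf)

def z_14_24_0 : F := ⟨0, -1, 0, -1, 3⟩

def h_14_24_0 : List F := [⟨1, -1, 0, 0, 0⟩, ⟨0, 0, -1, 1, 0⟩, ⟨0, 0, 0, -1, 1⟩, ⟨0, 1, -1, 0, 0⟩,
  ⟨-1, 0, 0, 0, 1⟩]

def t_14_24_0 : T := (.node (.cons (.keep [3,5,6,7,10] (.node (.cons (.leaf 1 [(3,2),(10,1)]) (.cons (.keep [2,6,7,8,9,10] (.node (.cons (.leaf 1 [(3,2)]) (.cons (.leaf 1 [(11,1),(3,2),(6,2)]) (.cons (.leaf 1 [(8,1),(3,2)]) (.cons (.leaf 1 [(11,1),(3,2),(8,2),(6,2)]) (.cons (.leaf 1 [(10,2),(7,1)]) (.cons (.keep [4,6,7,8,10,11] (.node (.cons (.leaf 1 [(3,2),(8,1)]) (.cons (.leaf 1 [(3,1),(9,1)]) (.cons (.leaf 1 [(3,2),(8,1)])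 (.cons (.leaf 1 [(3,2),(8,1),(10,2)]) (.cons (.leaf 1 [(8,1)]) (.cons (.keep [4,7,8,9,10,11] (.node (.cons (.leaf 1 [(3,2),(9,2),(8,1)]) (.cons (.leaf 1 [(3,2),(0,2),(8,1),(9,2)]) (.cons (.leaf 1 [(3,2),(8,1)]) (.cons (.leaf 1 [(3,2),(8,1)]) (.cons (.leaf 1 [(9,2),(8,1)]) (.cons (.leaf 1 [(0,2),(8,1),(9,2)]) .nil)))))))) .nil)))))))) .nil)))))))) (.cons (.leaf 1 [(10,1),(3,2)]) (.cons (.keep [0,1,3,6,10] (.node (.cons (.leaf 1 [(7,1),(3,2)]) (.cons (.leaf 1 [(10,1),(3,2)]) (.cons (.leaf 1 [(7,1),(3,2),(8,1)]) (.cons (.leaf 1 [(10,1),(3,2),(8,2)]) (.cons (.leaf 1 [(7,2),(9,1)]) (.cons (.keep [0,7,8,9,10] (.node (.cons (.leaf 1 [(3,1),(2,1),(8,1)]) (.cons (.leaf 1 [(3,1),(7,1),(8,1)]) (.cons (.leaf 1 [(3,2),(9,1)]) (.cons (.leaf 1 [(3,2),(7,2),(9,1)]) (.cons (.leaf 1 [(9,1)]) (.cons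 (.keep [0,6,7,8,9,10] (.node (.cons (.leaf 1 [(8,2),(2,2),(10,1)]) (.cons (.leaf 1 [(8,2),(2,2),(10,1)]) (.cons (.leaf 1 [(10,1),(3,2)]) (.cons (.leaf 1 [(10,1),(3,2)]) (.cons (.leaf 1 [(10,1),(9,2)]) (.cons (.leaf 1 [(8,2),(0,2),(10,1),(9,2)]) .nil)))))))) .nil)))))))) .nil)))))))) (.cons (.leaf 1 [(10,1)]) (.cons (.keep [2,6,7,8,9,10] (.node (.cons (.leaf 1 [(3,2),(10,1),(6,1)]) (.cons (.leaf 1 [(3,2),(11,1),(6,2)]) (.cons (.leaf 1 [(10,1),(3,2)]) (.cons (.leaf 1 [(11,1),(3,2)]) (.cons (.leaf 1 [(10,2),(7,1)]) (.cons (.keep [0,6,7,8,10,11] (.node (.cons (.leaf 1 [(3,1),(2,1)]) (.cons (.leaf 1 [(3,1),(10,1)]) (.cons (.leaf 1 [(8,1),(3,2)]) (.cons (.leaf 1 [(8,1),(3,2),(10,2)]) (.cons (.leaf 1 [(8,1)]) (.cons (.keep [0,6,7,8,10,11] (.node (.cons (.leaf 1 [(3,1),(10,1),(9,1)])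 (.cons (.leaf 1 [(3,1),(10,1),(9,1)]) (.cons (.leaf 1 [(9,1),(3,2)]) (.cons (.leaf 1 [(9,1),(3,2)]) (.cons (.leaf 1 [(9,1),(10,2),(6,2)]) (.cons (.leaf 1 [(10,2),(9,1),(0,2)]) .nil)))))))) .nil)))))))) .nil)))))))) .nil)))))))) (.cons (.keep [3,6,7,10] (.node (.cons (.leaf 1 [(3,3),(9,1),(8,1)]) (.cons (.keep [3,6,7,8,9] (.node (.cons (.leaf 1 [(3,2)]) (.cons (.leaf 1 [(6,2),(10,2),(3,2),(7,1)]) (.cons (.leaf 1 [(9,1),(3,2),(6,1)]) (.cons (.leaf 1 [(10,1),(3,2),(9,1),(6,3)]) (.cons (.leaf 1 [(9,2),(7,1)]) (.cons (.keep [6,7,8,9,10] (.node (.cons (.leaf 1 [(3,1),(6,1),(2,1)]) (.cons (.leaf 1 [(3,1),(6,1),(9,1)]) (.cons (.leaf 1 [(3,2),(7,1)]) (.cons (.leaf 1 [(3,2),(7,1),(9,2)]) (.cons (.leaf 1 [(7,1)]) (.cons (.keep [6,7,8,9,10] (.node (.cons (.leaf 1 [(3,1),(9,1),(7,1)]) (.cons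 (.leaf 1 [(3,1),(9,1),(7,1)]) (.cons (.leaf 1 [(3,2),(7,1)]) (.cons (.leaf 1 [(3,2),(7,1)]) (.cons (.leaf 1 [(6,2),(9,2),(7,1)]) (.cons (.leaf 1 [(0,2),(9,2),(7,1),(6,2)]) .nil)))))))) .nil)))))))) .nil)))))))) (.cons (.leaf 1 [(9,1),(3,3)]) (.cons (.keep [1,3,6,7,9] (.node (.cons (.leaf 1 [(6,1),(3,2)]) (.cons (.leaf 1 [(2,1),(10,1),(3,2)]) (.cons (.leaf 1 [(6,1),(3,2),(7,1)]) (.cons (.leaf 1 [(10,1),(3,2),(7,3)]) (.cons (.leaf 1 [(6,2),(8,1)]) (.cons (.keep [0,6,7,8,10] (.node (.cons (.leaf 1 [(3,1),(2,1),(8,1)]) (.cons (.leaf 1 [(3,1),(7,1),(8,1)]) (.cons (.leaf 1 [(3,2),(9,1)]) (.cons (.leaf 1 [(3,2),(7,2),(9,1)]) (.cons (.leaf 1 [(9,1)]) (.cons (.keep [0,6,7,8,9,10] (.node (.cons (.leaf 1 [(8,2),(2,2),(10,1)]) (.cons (.leaf 1 [(8,2),(2,2),(10,1)]) (.cons (.leaf 1 [(10,1),(3,2)])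 (.cons (.leaf 1 [(10,1),(3,2)]) (.cons (.leaf 1 [(10,1),(9,2)]) (.cons (.leaf 1 [(8,2),(0,2),(10,1),(9,2)]) .nil)))))))) .nil)))))))) .nil)))))))) (.cons (.keep [5,6,7,8,9] (.node (.cons (.leaf 1 [(3,1),(9,1)]) (.cons (.leaf 1 [(2,1),(10,1)]) (.cons (.leaf 1 [(3,1),(9,1)]) (.cons (.keep [0,3,7,9,10] (.node (.cons (.leaf 1 [(3,1)]) (.cons (.leaf 1 [(3,1),(9,1)]) (.cons (.leaf 1 [(3,1)]) (.cons (.leaf 1 [(7,1),(3,1),(9,1)]) (.cons (.leaf 1 []) (.cons (.leaf 1 [(10,1),(9,1),(0,1)]) .nil)))))))) (.cons (.leaf 1 [(9,1)]) (.cons (.keep [0,2,7,9,10] (.node (.cons (.leaf 1 [(3,1)]) (.cons (.leaf 1 [(3,1),(7,1),(9,1)]) (.cons (.leaf 1 [(3,1)]) (.cons (.leaf 1 [(3,1),(9,1)]) (.cons (.leaf 1 []) (.cons (.leaf 1 [(10,1),(7,1),(9,1),(0,1)]) .nil)))))))) .nil)))))))) (.cons (.keep [6,7,8,9]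 (.node (.cons (.leaf 1 [(3,2),(8,2),(6,1)]) (.cons (.leaf 1 [(3,2),(9,2),(6,1)]) (.cons (.leaf 1 [(8,1),(3,2)]) (.cons (.keep [0,3,6,8,9] (.node (.cons (.leaf 1 [(3,1),(2,1)]) (.cons (.leaf 1 [(3,1),(2,1),(9,1)]) (.cons (.leaf 1 [(7,1),(3,1)]) (.cons (.leaf 1 [(3,1),(9,1),(7,2)]) (.cons (.leaf 1 [(7,1)]) (.cons (.leaf 1 [(10,1),(7,3),(9,1),(0,1)]) .nil)))))))) (.cons (.leaf 1 [(8,2),(6,1)]) (.cons (.keep [0,6,8,9] (.node (.cons (.leaf 1 [(3,1),(2,1)]) (.cons (.leaf 1 [(3,1),(8,1)]) (.cons (.leaf 1 [(7,1),(3,2)]) (.cons (.leaf 1 [(7,1),(3,2),(8,2)]) (.cons (.leaf 1 [(7,1)]) (.cons (.keep [0,6,7,8,9] (.node (.cons (.leaf 1 [(3,1),(9,1),(8,1)]) (.cons (.leaf 1 [(3,1),(9,1),(8,1)]) (.cons (.leaf 1 [(8,1),(3,2)]) (.cons (.leaf 1 [(8,1),(3,2)]) (.cons (.leaf 1 [(8,1),(9,2),(6,2)]) (.cons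 (.leaf 1 [(9,2),(8,1),(0,2)]) .nil)))))))) .nil)))))))) .nil)))))))) .nil)))))))) (.cons (.keep [1,3,5,7,8,9] (.node (.cons (.leaf 1 [(3,1),(6,1),(8,1)]) (.cons (.keep [2,6,8,9,10,11] (.node (.cons (.leaf 1 [(3,2)]) (.cons (.leaf 1 [(7,1),(3,2),(6,1)]) (.cons (.leaf 1 [(8,1),(3,2)]) (.cons (.leaf 1 [(7,1),(3,2),(8,2),(6,1)]) (.cons (.leaf 1 [(9,1),(11,1)]) (.cons (.keep [4,6,7,8,9,11] (.node (.cons (.leaf 1 [(3,1),(9,1)]) (.cons (.leaf 1 [(3,1),(9,1)]) (.cons (.leaf 1 [(3,2),(11,1)]) (.cons (.leaf 1 [(3,2),(11,1),(10,1)]) (.cons (.leaf 1 [(7,1),(11,1)]) (.cons (.keep [4,7,8,9,10,11] (.node (.cons (.leaf 1 [(3,1),(11,1)]) (.cons (.leaf 1 [(3,1),(11,1)]) (.cons (.leaf 1 [(7,1),(3,2),(11,1)]) (.cons (.leaf 1 [(7,1),(3,2),(11,1)]) (.cons (.leaf 1 [(7,1),(9,2),(11,1)]) (.cons (.leaf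 1 [(7,1),(0,2),(11,1),(9,2)]) .nil)))))))) .nil)))))))) .nil)))))))) (.cons (.leaf 1 [(6,1),(1,1),(3,2)]) (.cons (.keep [0,1,3,6,7,11] (.node (.cons (.leaf 1 [(7,1),(3,2)]) (.cons (.leaf 1 [(9,1),(3,2),(7,1)]) (.cons (.leaf 1 [(7,1),(3,2),(8,1)]) (.cons (.leaf 1 [(9,1),(3,2),(8,2),(7,1)]) (.cons (.leaf 1 [(7,1),(11,1)]) (.cons (.keep [6,7,8,9,10,11] (.node (.cons (.leaf 1 [(3,1),(2,1),(8,1)]) (.cons (.leaf 1 [(3,1),(7,1),(8,1)]) (.cons (.leaf 1 [(3,2),(11,1)]) (.cons (.leaf 1 [(3,2),(7,1),(11,1)]) (.cons (.leaf 1 [(10,1),(11,1)]) (.cons (.keep [0,4,7,8,9,11] (.node (.cons (.leaf 1 [(8,1),(2,2),(11,1)]) (.cons (.leaf 1 [(8,1),(2,2),(11,1)]) (.cons (.leaf 1 [(11,1),(3,2),(6,1)]) (.cons (.leaf 1 [(11,1),(3,2),(0,1),(4,1)]) (.cons (.leaf 1 [(11,1),(9,2),(6,1)]) (.cons (.leaf 1 [(8,1),(0,2),(11,1),(9,2)])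 .nil)))))))) .nil)))))))) .nil)))))))) (.cons (.leaf 1 [(6,1),(8,1),(1,1)]) (.cons (.keep [2,6,7,8,9,10,11] (.node (.cons (.leaf 1 [(3,2),(10,1),(6,1)]) (.cons (.leaf 1 [(3,2),(7,1),(6,2),(10,1)]) (.cons (.leaf 1 [(10,1),(3,2)]) (.cons (.leaf 1 [(7,1),(3,2),(10,1)]) (.cons (.leaf 1 [(10,1),(12,1)]) (.cons (.keep [6,7,8,9,10,11,12] (.node (.cons (.leaf 1 [(3,1),(2,1)]) (.cons (.leaf 1 [(3,1),(10,1)]) (.cons (.leaf 1 [(12,1),(3,2)]) (.cons (.leaf 1 [(12,1),(3,2),(10,1)]) (.cons (.leaf 1 [(8,1),(12,1)]) (.cons (.keep [4,6,7,8,9,10,12] (.node (.cons (.leaf 1 [(3,1),(12,1)]) (.cons (.leaf 1 [(3,1),(12,1)]) (.cons (.leaf 1 [(12,1),(3,2),(9,1)]) (.cons (.leaf 1 [(12,1),(3,2),(0,1)]) (.cons (.leaf 1 [(12,1),(10,2),(9,1)]) (.cons (.leaf 1 [(11,1),(12,1),(0,2)]) .nil)))))))) .nil))))))))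 .nil)))))))) .nil)))))))) (.cons (.keep [1,3,6,7,9,10] (.node (.cons (.leaf 1 [(3,2),(6,1),(9,1)]) (.cons (.keep [2,3,4,6,9,10,11] (.node (.cons (.leaf 1 [(3,2)]) (.cons (.leaf 1 [(9,1),(3,2),(6,1)]) (.cons (.leaf 1 [(10,1),(3,2),(7,1)]) (.cons (.leaf 1 [(9,1),(3,2),(10,1),(7,2)]) (.cons (.leaf 1 [(10,1),(11,1)]) (.cons (.keep [4,6,7,9,10,11,12] (.node (.cons (.leaf 1 [(3,1),(8,1),(2,1)]) (.cons (.leaf 1 [(3,1),(8,1),(10,1)]) (.cons (.leaf 1 [(3,2),(11,1)]) (.cons (.leaf 1 [(3,2),(11,1),(10,1)]) (.cons (.leaf 1 [(7,1),(11,1)]) (.cons (.keep [4,7,8,9,10,11,12] (.node (.cons (.leaf 1 [(3,1),(11,1)]) (.cons (.leaf 1 [(3,1),(11,1)]) (.cons (.leaf 1 [(7,1),(3,2),(11,1)]) (.cons (.leaf 1 [(7,1),(3,2),(11,1)]) (.cons (.leaf 1 [(8,2),(10,1),(11,1)]) (.cons (.leaf 1 [(0,2),(10,1),(11,1),(8,2)])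 .nil)))))))) .nil)))))))) .nil)))))))) (.cons (.leaf 1 [(6,1),(1,1),(3,2)]) (.cons (.keep [3,6,7,8,10,11] (.node (.cons (.leaf 1 [(2,1),(11,1),(3,2)]) (.cons (.leaf 1 [(7,1),(11,1),(3,2),(2,1)]) (.cons (.leaf 1 [(11,1),(3,2),(6,2)]) (.cons (.leaf 1 [(7,1),(3,2),(6,3),(11,1)]) (.cons (.leaf 1 [(2,1),(11,1),(10,2)]) (.cons (.keep [6,7,8,9,10,11] (.node (.cons (.leaf 1 [(3,1),(2,1),(6,1)]) (.cons (.leaf 1 [(3,1),(11,1),(6,2)]) (.cons (.leaf 1 [(3,2),(10,1)]) (.cons (.leaf 1 [(11,1),(6,1),(10,1),(3,2)]) (.cons (.leaf 1 [(8,1),(10,1)]) (.cons (.keep [0,6,7,9,10,11] (.node (.cons (.leaf 1 [(10,1),(3,1)]) (.cons (.leaf 1 [(10,1),(3,1)]) (.cons (.leaf 1 [(10,1),(3,2),(6,1)]) (.cons (.leaf 1 [(10,1),(3,2),(0,1),(4,1)]) (.cons (.leaf 1 [(10,1),(7,2),(6,1)]) (.cons (.leaf 1 [(10,1),(11,1),(0,2),(7,3)])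 .nil)))))))) .nil)))))))) .nil)))))))) (.cons (.leaf 1 [(6,1),(9,1)]) (.cons (.keep [2,6,7,8,9,10] (.node (.cons (.leaf 1 [(3,2),(10,1),(6,1)]) (.cons (.leaf 1 [(3,2),(7,1),(6,2),(10,1)]) (.cons (.leaf 1 [(10,1),(3,2)]) (.cons (.leaf 1 [(7,1),(3,2),(10,1)]) (.cons (.leaf 1 [(10,1),(11,1)]) (.cons (.keep [6,7,8,9,10,11] (.node (.cons (.leaf 1 [(3,1),(2,1)]) (.cons (.leaf 1 [(3,1),(10,1)]) (.cons (.leaf 1 [(11,1),(3,2)]) (.cons (.leaf 1 [(11,1),(3,2),(10,1)]) (.cons (.leaf 1 [(8,1),(11,1)]) (.cons (.keep [0,6,7,9,10,11] (.node (.cons (.leaf 1 [(3,1),(11,1)]) (.cons (.leaf 1 [(3,1),(11,1)]) (.cons (.leaf 1 [(11,1),(3,2),(6,1)]) (.cons (.leaf 1 [(11,1),(3,2),(0,1)]) (.cons (.leaf 1 [(11,1),(10,1),(6,2)]) (.cons (.leaf 1 [(10,1),(11,1),(0,2)]) .nil)))))))) .nil)))))))) .nil))))))))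 .nil)))))))) (.cons (.keep [1,5,8,9] (.node (.cons (.leaf 1 [(3,2),(6,1)]) (.cons (.keep [2,6,7,8,9] (.node (.cons (.leaf 1 [(3,2)]) (.cons (.leaf 1 [(7,1),(3,2),(6,2)]) (.cons (.leaf 1 [(8,1),(3,2)]) (.cons (.leaf 1 [(7,1),(3,2),(8,2),(6,2)]) (.cons (.leaf 1 [(7,1),(10,2)]) (.cons (.keep [4,6,7,8,10] (.node (.cons (.leaf 1 [(3,1),(9,1)]) (.cons (.leaf 1 [(3,1),(9,1)]) (.cons (.leaf 1 [(3,2),(10,1)]) (.cons (.leaf 1 [(3,2),(10,2),(8,1)]) (.cons (.leaf 1 [(7,1),(10,1)]) (.cons (.keep [4,7,8,9,10] (.node (.cons (.leaf 1 [(3,1),(10,1)]) (.cons (.leaf 1 [(3,1),(10,1)]) (.cons (.leaf 1 [(7,1),(3,2),(10,1)]) (.cons (.leaf 1 [(7,1),(3,2),(10,1)]) (.cons (.leaf 1 [(7,1),(9,2),(10,1)]) (.cons (.leaf 1 [(7,1),(0,2),(10,1),(9,2)]) .nil)))))))) .nil)))))))) .nil)))))))) (.cons (.leaf 1 [(6,1),(3,2)])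 (.cons (.keep [0,3,6,9] (.node (.cons (.leaf 1 [(8,1),(3,2)]) (.cons (.leaf 1 [(8,1),(3,2)]) (.cons (.leaf 1 [(8,1),(3,2),(7,2)]) (.cons (.leaf 1 [(8,1),(3,2),(7,2)]) (.cons (.leaf 1 [(8,1),(9,2)]) (.cons (.keep [0,7,8,9] (.node (.cons (.leaf 1 [(3,1),(2,1),(7,1)]) (.cons (.leaf 1 [(8,1),(2,2),(7,2)]) (.cons (.leaf 1 [(3,2),(9,1)]) (.cons (.leaf 1 [(8,1),(9,2),(3,2)]) (.cons (.leaf 1 [(6,1),(9,1)]) (.cons (.keep [0,6,7,8,9] (.node (.cons (.leaf 1 [(10,1),(3,1)]) (.cons (.leaf 1 [(10,1),(3,1)]) (.cons (.leaf 1 [(10,1),(3,2),(6,1)]) (.cons (.leaf 1 [(10,1),(3,2),(0,1),(4,1)]) (.cons (.leaf 1 [(10,1),(8,2),(6,1)]) (.cons (.leaf 1 [(10,2),(9,1),(0,2),(8,2)]) .nil)))))))) .nil)))))))) .nil)))))))) (.cons (.leaf 1 [(6,1)]) (.cons (.keep [2,6,7,8,9] (.node (.cons (.leaf 1 [(3,2),(7,1),(6,2)])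 (.cons (.leaf 1 [(3,2),(6,2),(7,1)]) (.cons (.leaf 1 [(7,1),(3,2)]) (.cons (.leaf 1 [(7,1),(3,2)]) (.cons (.leaf 1 [(7,1),(10,2)]) (.cons (.keep [0,6,7,8,10] (.node (.cons (.leaf 1 [(3,1),(2,1)]) (.cons (.leaf 1 [(8,1),(2,2)]) (.cons (.leaf 1 [(10,1),(3,2)]) (.cons (.leaf 1 [(3,2),(8,1),(10,2)]) (.cons (.leaf 1 [(7,1),(6,1),(10,1)]) (.cons (.keep [0,6,7,8,10] (.node (.cons (.leaf 1 [(3,1),(10,1)]) (.cons (.leaf 1 [(3,1),(10,1)]) (.cons (.leaf 1 [(10,1),(3,2),(6,1)]) (.cons (.leaf 1 [(10,1),(3,2),(0,1)]) (.cons (.leaf 1 [(10,2),(9,1),(6,2)]) (.cons (.leaf 1 [(9,1),(10,2),(0,2)]) .nil)))))))) .nil)))))))) .nil)))))))) .nil)))))))) (.cons (.keep [1,4,6,8,9] (.node (.cons (.leaf 1 [(3,2),(6,1)]) (.cons (.keep [3,6,7,9,10] (.node (.cons (.leaf 1 [(3,2)]) (.cons (.leaf 1 [(6,2),(7,1),(3,2),(8,2)])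 (.cons (.leaf 1 [(7,1),(3,2),(6,2)]) (.cons (.leaf 1 [(7,1),(3,2),(6,2)]) (.cons (.leaf 1 [(7,1),(10,2)]) (.cons (.keep [4,6,7,8,10] (.node (.cons (.leaf 1 [(3,1),(7,1),(2,1)]) (.cons (.leaf 1 [(8,1),(7,2),(2,2)]) (.cons (.leaf 1 [(3,2),(10,1)]) (.cons (.leaf 1 [(3,2),(10,2),(8,1)]) (.cons (.leaf 1 [(9,1),(7,1),(10,1)]) (.cons (.keep [4,7,8,9,10] (.node (.cons (.leaf 1 [(3,1),(10,1)]) (.cons (.leaf 1 [(3,1),(10,1)]) (.cons (.leaf 1 [(7,1),(3,2),(10,1)]) (.cons (.leaf 1 [(0,1),(3,2),(10,1),(7,1)]) (.cons (.leaf 1 [(7,2),(8,1),(10,2)]) (.cons (.leaf 1 [(0,2),(8,1),(10,2),(7,2)]) .nil)))))))) .nil)))))))) .nil)))))))) (.cons (.leaf 1 [(6,1),(3,2)]) (.cons (.keep [0,3,6,7,10] (.node (.cons (.leaf 1 [(8,1),(3,2)]) (.cons (.leaf 1 [(8,1),(3,2)]) (.cons (.leaf 1 [(8,1),(3,2),(7,2)])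 (.cons (.leaf 1 [(8,1),(3,2),(7,2)]) (.cons (.leaf 1 [(8,1),(10,2)]) (.cons (.keep [0,7,8,9,10] (.node (.cons (.leaf 1 [(3,1),(2,1),(7,1)]) (.cons (.leaf 1 [(8,1),(2,2),(7,2)]) (.cons (.leaf 1 [(3,2),(10,1)]) (.cons (.leaf 1 [(8,1),(10,2),(3,2)]) (.cons (.leaf 1 [(6,1),(10,1)]) (.cons (.keep [0,6,7,8,9,10] (.node (.cons (.leaf 1 [(11,1),(3,1)]) (.cons (.leaf 1 [(11,1),(3,1)]) (.cons (.leaf 1 [(11,1),(3,2),(6,1)]) (.cons (.leaf 1 [(11,1),(3,2),(0,1),(4,1)]) (.cons (.leaf 1 [(11,1),(8,2),(6,1)]) (.cons (.leaf 1 [(11,2),(9,1),(0,2),(8,2)]) .nil)))))))) .nil)))))))) .nil)))))))) (.cons (.leaf 1 [(6,1)]) (.cons (.keep [0,2,6,8,10] (.node (.cons (.leaf 1 [(3,2),(8,1),(7,2)]) (.cons (.leaf 1 [(3,2),(7,2),(8,1)]) (.cons (.leaf 1 [(8,1),(3,2)]) (.cons (.leaf 1 [(8,1),(3,2)]) (.cons (.leaf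 1 [(8,1),(10,2)]) (.cons (.keep [0,7,8,10] (.node (.cons (.leaf 1 [(3,1),(2,1)]) (.cons (.leaf 1 [(8,1),(2,2)]) (.cons (.leaf 1 [(9,1),(3,2)]) (.cons (.leaf 1 [(3,2),(8,1),(9,2)]) (.cons (.leaf 1 [(7,1),(6,1),(9,1)]) (.cons (.keep [0,6,7,8,9] (.node (.cons (.leaf 1 [(3,1),(10,1)]) (.cons (.leaf 1 [(3,1),(10,1)]) (.cons (.leaf 1 [(10,1),(3,2),(6,1)]) (.cons (.leaf 1 [(10,1),(3,2),(0,1)]) (.cons (.leaf 1 [(10,2),(9,1),(6,2)]) (.cons (.leaf 1 [(9,1),(10,2),(0,2)]) .nil)))))))) .nil)))))))) .nil)))))))) .nil)))))))) .nil)))))))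

theorem c_14_24_0 : Concl 14 24 z_14_24_0 h_14_24_0 .nd := piece _ hP_nil t_14_24_0 _ _ (by
  decide +kernel)

def z_14_24_1 : F := ⟨0, -1, -1, 0, 3⟩

def h_14_24_1 : List F := [⟨1, -1, 0, 0, 0⟩, ⟨0, 0, 1, -1, 0⟩, ⟨0, 1, -1, 0, 0⟩, ⟨-1, 0, 0, 0, 1⟩]

def t_14_24_1 : T := (.node (.cons (.keep [2,5,6,7,9] (.node (.cons (.leaf 1 [(2,1),(10,1),(3,2)]) (.cons (.keep [2,6,7,8,10] (.node (.cons (.leaf 1 [(3,2),(6,1)]) (.cons (.leaf 1 [(10,1),(3,2),(6,3)]) (.cons (.leaf 1 [(3,2),(7,1)]) (.cons (.leaf 1 [(10,1),(6,3),(3,2),(8,2)]) (.cons (.leaf 1 [(7,1)]) (.cons (.keep [6,7,8,9,10] (.node (.cons (.leaf 1 [(3,2),(6,2),(7,1)]) (.cons (.leaf 1 [(3,1),(8,1),(6,1)]) (.cons (.leaf 1 [(3,2),(7,1)]) (.cons (.leaf 1 [(3,2),(7,1)]) (.cons (.leaf 1 [(6,2),(7,1)]) (.cons (.keep [4,6,7,8,10] (.node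 (.cons (.leaf 1 [(2,2),(8,1)]) (.cons (.leaf 1 [(2,2),(8,1)]) (.cons (.leaf 1 [(3,2),(8,1),(7,2)]) (.cons (.leaf 1 [(3,2),(8,1),(7,2)]) (.cons (.leaf 1 [(9,2),(8,1),(7,2)]) (.cons (.leaf 1 [(0,2),(8,1),(7,4),(9,2)]) .nil)))))))) .nil)))))))) .nil)))))))) (.cons (.leaf 1 [(10,1),(3,2),(9,1)]) (.cons (.keep [3,6,8,9,10] (.node (.cons (.leaf 1 [(3,2)]) (.cons (.leaf 1 [(10,1),(3,2),(9,1)]) (.cons (.leaf 1 [(6,1),(3,2)]) (.cons (.leaf 1 [(10,1),(3,2),(6,2),(9,1)]) (.cons (.leaf 1 [(7,1)]) (.cons (.keep [4,6,7,9,10] (.node (.cons (.leaf 1 [(3,1),(7,1)]) (.cons (.leaf 1 [(3,1),(7,1)]) (.cons (.leaf 1 [(3,2),(8,1)]) (.cons (.leaf 1 [(3,2),(8,1)]) (.cons (.leaf 1 [(9,2),(8,1)]) (.cons (.keep [4,7,8,9,10] (.node (.cons (.leaf 1 [(8,1),(2,2)]) (.cons (.leaf 1 [(8,1),(2,2)]) (.cons (.leaf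 1 [(9,2),(3,2),(8,1)]) (.cons (.leaf 1 [(9,2),(3,2),(8,1)]) (.cons (.leaf 1 [(9,2),(7,2),(8,1)]) (.cons (.leaf 1 [(9,2),(0,2),(8,1),(7,2)]) .nil)))))))) .nil)))))))) .nil)))))))) (.cons (.leaf 1 [(9,1),(10,1)]) (.cons (.keep [2,6,7,8,9,10] (.node (.cons (.leaf 1 [(3,2),(6,1)]) (.cons (.leaf 1 [(3,2),(11,1),(6,2),(10,1)]) (.cons (.leaf 1 [(3,2)]) (.cons (.leaf 1 [(11,1),(10,1),(3,2)]) (.cons (.leaf 1 [(7,1)]) (.cons (.keep [6,7,8,9,10,11] (.node (.cons (.leaf 1 [(3,1)]) (.cons (.leaf 1 [(3,1)]) (.cons (.leaf 1 [(7,1),(3,2)]) (.cons (.leaf 1 [(7,1),(3,2)]) (.cons (.leaf 1 [(7,1),(10,2)]) (.cons (.keep [0,4,6,7,10,11] (.node (.cons (.leaf 1 [(2,2),(9,1)]) (.cons (.leaf 1 [(2,2),(9,1)]) (.cons (.leaf 1 [(10,2),(3,2),(9,1)]) (.cons (.leaf 1 [(10,2),(3,2),(9,1)]) (.cons (.leaf 1 [(6,2),(9,1),(10,2)])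 (.cons (.leaf 1 [(10,2),(9,1),(0,2)]) .nil)))))))) .nil)))))))) .nil)))))))) .nil)))))))) (.cons (.keep [2,6,7,9] (.node (.cons (.leaf 1 [(9,1),(3,3)]) (.cons (.keep [2,3,6,7,9] (.node (.cons (.leaf 1 [(3,2),(6,1)]) (.cons (.leaf 1 [(2,1),(10,1),(3,2),(6,3)]) (.cons (.leaf 1 [(3,2),(7,1)]) (.cons (.leaf 1 [(10,1),(3,2),(7,3)]) (.cons (.leaf 1 [(8,1)]) (.cons (.keep [6,7,8,9,10] (.node (.cons (.leaf 1 [(3,1),(7,1)]) (.cons (.leaf 1 [(3,1),(7,1)]) (.cons (.leaf 1 [(3,2),(8,1)]) (.cons (.leaf 1 [(3,2),(8,1)]) (.cons (.leaf 1 [(6,2),(8,1)]) (.cons (.keep [0,6,7,8,9,10] (.node (.cons (.leaf 1 [(2,2),(9,1)]) (.cons (.leaf 1 [(2,2),(9,1)]) (.cons (.leaf 1 [(3,2),(9,1),(7,2)]) (.cons (.leaf 1 [(3,2),(9,1),(7,2)]) (.cons (.leaf 1 [(8,2),(9,1)]) (.cons (.leaf 1 [(0,2),(9,1),(7,2),(8,2)])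 .nil)))))))) .nil)))))))) .nil)))))))) (.cons (.leaf 1 [(9,1),(3,3),(8,1)]) (.cons (.keep [3,6,7,8,9] (.node (.cons (.leaf 1 [(3,2)]) (.cons (.leaf 1 [(2,1),(10,1),(3,2),(9,1)]) (.cons (.leaf 1 [(6,1),(3,2)]) (.cons (.leaf 1 [(10,1),(3,2),(6,3),(9,1)]) (.cons (.leaf 1 [(7,1)]) (.cons (.keep [6,7,8,9,10] (.node (.cons (.leaf 1 [(3,1),(6,1)]) (.cons (.leaf 1 [(3,1),(6,1)]) (.cons (.leaf 1 [(3,2),(7,1)]) (.cons (.leaf 1 [(3,2),(7,1)]) (.cons (.leaf 1 [(9,2),(7,1)]) (.cons (.keep [6,7,8,9,10] (.node (.cons (.leaf 1 [(7,1),(2,2)]) (.cons (.leaf 1 [(7,1),(2,2)]) (.cons (.leaf 1 [(9,2),(3,2),(7,1)]) (.cons (.leaf 1 [(9,2),(3,2),(7,1)]) (.cons (.leaf 1 [(9,2),(6,2),(7,1)]) (.cons (.leaf 1 [(9,2),(0,2),(7,1),(6,2)]) .nil)))))))) .nil)))))))) .nil)))))))) (.cons (.keep [5,6,7,8,9] (.node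 (.cons (.leaf 1 [(3,1)]) (.cons (.leaf 1 [(2,1),(10,1),(9,1)]) (.cons (.leaf 1 [(3,1)]) (.cons (.keep [0,3,7,9,10] (.node (.cons (.leaf 1 [(3,1)]) (.cons (.leaf 1 [(3,1)]) (.cons (.leaf 1 [(7,1),(3,1)]) (.cons (.leaf 1 [(7,1),(3,1)]) (.cons (.leaf 1 [(9,1)]) (.cons (.leaf 1 [(10,1),(0,1),(9,1)]) .nil)))))))) (.cons (.leaf 1 []) (.cons (.keep [2,4,6,8,9,10] (.node (.cons (.leaf 1 [(3,1),(6,1)]) (.cons (.leaf 1 [(3,1),(6,1)]) (.cons (.leaf 1 [(3,1)]) (.cons (.leaf 1 [(3,1)]) (.cons (.leaf 1 [(10,1)]) (.cons (.leaf 1 [(11,1),(6,1),(0,1),(10,1)]) .nil)))))))) .nil)))))))) (.cons (.keep [6,7,8,9] (.node (.cons (.leaf 1 [(3,2),(6,1)]) (.cons (.leaf 1 [(3,2),(9,2),(6,1),(8,2)]) (.cons (.leaf 1 [(3,2)]) (.cons (.keep [3,4,7,8,9] (.node (.cons (.leaf 1 [(3,1),(2,1)]) (.cons (.leaf 1 [(3,1),(2,1)])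 (.cons (.leaf 1 [(3,1),(6,2)]) (.cons (.leaf 1 [(3,1),(6,2)]) (.cons (.leaf 1 [(9,1),(6,1)]) (.cons (.leaf 1 [(10,1),(6,3),(0,1),(9,1)]) .nil)))))))) (.cons (.leaf 1 [(6,1)]) (.cons (.keep [0,6,8,9] (.node (.cons (.leaf 1 [(3,1)]) (.cons (.leaf 1 [(3,1)]) (.cons (.leaf 1 [(7,1),(3,2)]) (.cons (.leaf 1 [(7,1),(3,2)]) (.cons (.leaf 1 [(7,1),(8,2)]) (.cons (.keep [0,6,7,8,9] (.node (.cons (.leaf 1 [(2,2),(8,1)]) (.cons (.leaf 1 [(2,2),(8,1)]) (.cons (.leaf 1 [(9,2),(3,2),(8,1)]) (.cons (.leaf 1 [(8,1),(9,2),(3,2)]) (.cons (.leaf 1 [(6,2),(8,1),(9,2)]) (.cons (.leaf 1 [(9,2),(8,1),(0,2)]) .nil)))))))) .nil)))))))) .nil)))))))) .nil)))))))) (.cons (.keep [1,3,5,6,8,9] (.node (.cons (.leaf 1 [(6,1),(3,2)]) (.cons (.keep [2,6,8,9,10,11] (.node (.cons (.leaf 1 [(3,2),(6,1)]) (.cons (.leaf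 1 [(7,1),(3,2),(6,2)]) (.cons (.leaf 1 [(8,1),(3,2),(6,1)]) (.cons (.leaf 1 [(7,1),(6,2),(3,2),(8,2)]) (.cons (.leaf 1 [(10,1)]) (.cons (.keep [1,6,7,8,10,11] (.node (.cons (.leaf 1 [(3,1),(7,1),(9,1)]) (.cons (.leaf 1 [(3,1),(9,1),(7,1)]) (.cons (.leaf 1 [(3,2),(10,1)]) (.cons (.leaf 1 [(3,2),(10,1)]) (.cons (.leaf 1 [(7,2),(10,1)]) (.cons (.keep [0,6,7,8,9,10] (.node (.cons (.leaf 1 [(2,2),(11,1)]) (.cons (.leaf 1 [(2,2),(11,1)]) (.cons (.leaf 1 [(3,2),(11,1),(8,2)]) (.cons (.leaf 1 [(3,2),(11,1),(8,2)]) (.cons (.leaf 1 [(10,2),(11,1),(8,2)]) (.cons (.leaf 1 [(0,2),(11,1),(8,4),(10,2)]) .nil)))))))) .nil)))))))) .nil)))))))) (.cons (.leaf 1 [(6,1),(3,2)]) (.cons (.keep [1,3,6,7,9,10] (.node (.cons (.leaf 1 [(3,2)]) (.cons (.leaf 1 [(8,1),(3,2)]) (.cons (.leaf 1 [(7,1),(3,2)])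 (.cons (.leaf 1 [(8,1),(3,2),(7,2)]) (.cons (.leaf 1 [(11,1)]) (.cons (.keep [6,7,8,9,10,11] (.node (.cons (.leaf 1 [(3,1),(7,1)]) (.cons (.leaf 1 [(3,1),(7,1)]) (.cons (.leaf 1 [(3,2),(11,1)]) (.cons (.leaf 1 [(3,2),(11,1)]) (.cons (.leaf 1 [(9,2),(11,1)]) (.cons (.keep [6,7,8,9,10,11] (.node (.cons (.leaf 1 [(11,1),(2,2)]) (.cons (.leaf 1 [(11,1),(2,2)]) (.cons (.leaf 1 [(9,2),(3,2),(11,1)]) (.cons (.leaf 1 [(9,2),(3,2),(11,1)]) (.cons (.leaf 1 [(9,2),(7,2),(11,1)]) (.cons (.leaf 1 [(9,2),(0,2),(11,1),(7,2)]) .nil)))))))) .nil)))))))) .nil)))))))) (.cons (.leaf 1 [(6,1)]) (.cons (.keep [2,6,7,8,9,10,11] (.node (.cons (.leaf 1 [(3,2),(6,1)]) (.cons (.leaf 1 [(3,2),(7,1),(6,2)]) (.cons (.leaf 1 [(3,2)]) (.cons (.leaf 1 [(7,1),(3,2)]) (.cons (.leaf 1 [(11,1)]) (.cons (.keep [6,7,8,9,10,11,12]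 (.node (.cons (.leaf 1 [(3,1)]) (.cons (.leaf 1 [(3,1)]) (.cons (.leaf 1 [(11,1),(3,2)]) (.cons (.leaf 1 [(11,1),(3,2)]) (.cons (.leaf 1 [(11,1),(8,2)]) (.cons (.keep [0,6,7,8,10,11,12] (.node (.cons (.leaf 1 [(2,2),(11,1)]) (.cons (.leaf 1 [(2,2),(11,1)]) (.cons (.leaf 1 [(9,2),(3,2),(11,1)]) (.cons (.leaf 1 [(9,2),(3,2),(11,1)]) (.cons (.leaf 1 [(6,2),(11,1),(9,2)]) (.cons (.leaf 1 [(9,2),(11,1),(0,2)]) .nil)))))))) .nil)))))))) .nil)))))))) .nil)))))))) (.cons (.keep [1,3,6,8,9] (.node (.cons (.leaf 1 [(6,1),(3,2)]) (.cons (.keep [2,3,4,6,9,10] (.node (.cons (.leaf 1 [(3,2),(6,1)]) (.cons (.leaf 1 [(9,1),(3,2),(6,2)]) (.cons (.leaf 1 [(3,2),(7,1)]) (.cons (.leaf 1 [(9,1),(3,2),(7,2)]) (.cons (.leaf 1 [(10,1)]) (.cons (.keep [2,6,7,9,10,11] (.node (.cons (.leaf 1 [(3,1),(8,1)])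 (.cons (.leaf 1 [(3,1),(8,1)]) (.cons (.leaf 1 [(3,2),(10,1)]) (.cons (.leaf 1 [(3,2),(10,1)]) (.cons (.leaf 1 [(7,2),(10,1)]) (.cons (.keep [0,6,7,8,9,10,11] (.node (.cons (.leaf 1 [(2,2),(11,1)]) (.cons (.leaf 1 [(2,2),(11,1)]) (.cons (.leaf 1 [(3,2),(11,1),(8,2)]) (.cons (.leaf 1 [(3,2),(11,1),(8,2)]) (.cons (.leaf 1 [(9,2),(11,1)]) (.cons (.leaf 1 [(0,2),(11,1),(8,2),(9,2)]) .nil)))))))) .nil)))))))) .nil)))))))) (.cons (.leaf 1 [(6,1),(3,2)]) (.cons (.keep [3,6,7,8,9,10] (.node (.cons (.leaf 1 [(3,2)]) (.cons (.leaf 1 [(7,1),(3,2)]) (.cons (.leaf 1 [(6,1),(3,2)]) (.cons (.leaf 1 [(7,1),(3,2),(6,2)]) (.cons (.leaf 1 [(10,1)]) (.cons (.keep [6,7,8,9,10,11] (.node (.cons (.leaf 1 [(3,1),(6,1)]) (.cons (.leaf 1 [(3,1),(6,1)]) (.cons (.leaf 1 [(3,2),(10,1)]) (.cons (.leaf 1 [(3,2),(10,1)])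 (.cons (.leaf 1 [(8,2),(10,1)]) (.cons (.keep [6,7,8,9,10,11] (.node (.cons (.leaf 1 [(10,1),(2,2)]) (.cons (.leaf 1 [(10,1),(2,2)]) (.cons (.leaf 1 [(8,2),(3,2),(10,1)]) (.cons (.leaf 1 [(8,2),(3,2),(10,1)]) (.cons (.leaf 1 [(8,2),(6,2),(10,1)]) (.cons (.leaf 1 [(8,2),(0,2),(10,1),(6,2)]) .nil)))))))) .nil)))))))) .nil)))))))) (.cons (.leaf 1 [(6,1)]) (.cons (.keep [1,6,7,8,9] (.node (.cons (.leaf 1 [(3,2),(6,1),(8,1)]) (.cons (.leaf 1 [(3,2),(7,1),(6,2),(8,2)]) (.cons (.leaf 1 [(3,2)]) (.cons (.leaf 1 [(7,1),(3,2)]) (.cons (.leaf 1 [(10,1)]) (.cons (.keep [6,7,8,9,10] (.node (.cons (.leaf 1 [(3,1)]) (.cons (.leaf 1 [(3,1)]) (.cons (.leaf 1 [(10,1),(3,2)]) (.cons (.leaf 1 [(10,1),(3,2)]) (.cons (.leaf 1 [(10,1),(8,2)]) (.cons (.keep [0,6,7,8,9,10] (.node (.cons (.leaf 1 [(2,2),(11,1)])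 (.cons (.leaf 1 [(2,2),(11,1)]) (.cons (.leaf 1 [(9,2),(3,2),(11,1)]) (.cons (.leaf 1 [(3,2),(9,2),(11,1)]) (.cons (.leaf 1 [(6,2),(11,1),(9,2)]) (.cons (.leaf 1 [(9,2),(11,1),(0,2)]) .nil)))))))) .nil)))))))) .nil)))))))) .nil)))))))) (.cons (.keep [1,5,6,7,8] (.node (.cons (.leaf 1 [(2,1),(6,1),(3,2)]) (.cons (.keep [2,6,7,8,10] (.node (.cons (.leaf 1 [(3,2),(6,1)]) (.cons (.leaf 1 [(7,1),(3,2),(6,3)]) (.cons (.leaf 1 [(8,1),(3,2),(6,1)]) (.cons (.leaf 1 [(7,1),(6,3),(3,2),(8,2)]) (.cons (.leaf 1 [(10,1)]) (.cons (.keep [6,7,8,9,10] (.node (.cons (.leaf 1 [(3,1),(6,1),(8,1)]) (.cons (.leaf 1 [(3,1),(8,1),(6,1)]) (.cons (.leaf 1 [(3,2),(10,1)]) (.cons (.leaf 1 [(3,2),(10,1)]) (.cons (.leaf 1 [(6,2),(10,1)]) (.cons (.keep [6,7,8,9,10] (.node (.cons (.leaf 1 [(2,2),(10,1)]) (.cons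 (.leaf 1 [(2,2),(10,1)]) (.cons (.leaf 1 [(3,2),(10,1),(6,2)]) (.cons (.leaf 1 [(3,2),(10,1),(6,2)]) (.cons (.leaf 1 [(8,2),(10,1),(6,2)]) (.cons (.leaf 1 [(0,2),(10,1),(6,4),(8,2)]) .nil)))))))) .nil)))))))) .nil)))))))) (.cons (.leaf 1 [(6,1),(3,2),(9,1)]) (.cons (.keep [3,6,8,9,10] (.node (.cons (.leaf 1 [(3,2)]) (.cons (.leaf 1 [(7,1),(3,2),(9,1)]) (.cons (.leaf 1 [(6,1),(3,2)]) (.cons (.leaf 1 [(7,1),(3,2),(6,2),(9,1)]) (.cons (.leaf 1 [(10,1)]) (.cons (.keep [4,6,7,9,10] (.node (.cons (.leaf 1 [(3,1),(7,1)]) (.cons (.leaf 1 [(3,1),(7,1)]) (.cons (.leaf 1 [(3,2),(10,1)]) (.cons (.leaf 1 [(3,2),(10,1)]) (.cons (.leaf 1 [(9,2),(10,1)]) (.cons (.keep [4,7,8,9,10] (.node (.cons (.leaf 1 [(10,1),(2,2)]) (.cons (.leaf 1 [(10,1),(2,2)]) (.cons (.leaf 1 [(9,2),(3,2),(10,1)]) (.cons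 (.leaf 1 [(9,2),(3,2),(10,1)]) (.cons (.leaf 1 [(9,2),(7,2),(10,1)]) (.cons (.leaf 1 [(9,2),(0,2),(10,1),(7,2)]) .nil)))))))) .nil)))))))) .nil)))))))) (.cons (.leaf 1 [(9,1),(6,1)]) (.cons (.keep [2,4,6,7,9,10] (.node (.cons (.leaf 1 [(3,2),(6,1)]) (.cons (.leaf 1 [(3,2),(8,1),(6,2),(10,1)]) (.cons (.leaf 1 [(3,2)]) (.cons (.leaf 1 [(8,1),(10,1),(3,2)]) (.cons (.leaf 1 [(11,1)]) (.cons (.keep [4,6,8,9,10,11] (.node (.cons (.leaf 1 [(3,1)]) (.cons (.leaf 1 [(3,1)]) (.cons (.leaf 1 [(11,1),(3,2)]) (.cons (.leaf 1 [(11,1),(3,2)]) (.cons (.leaf 1 [(11,1),(10,2)]) (.cons (.keep [0,4,7,8,10,11] (.node (.cons (.leaf 1 [(2,2),(11,1)]) (.cons (.leaf 1 [(2,2),(11,1)]) (.cons (.leaf 1 [(10,2),(3,2),(11,1)]) (.cons (.leaf 1 [(10,2),(3,2),(11,1)]) (.cons (.leaf 1 [(6,2),(11,1),(10,2)]) (.cons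 (.leaf 1 [(10,2),(11,1),(0,2)]) .nil)))))))) .nil)))))))) .nil)))))))) .nil)))))))) (.cons (.keep [1,4,6,7,8] (.node (.cons (.leaf 1 [(2,1),(6,1),(3,2)]) (.cons (.keep [3,6,7,8,10] (.node (.cons (.leaf 1 [(3,2),(8,1),(6,1)]) (.cons (.leaf 1 [(6,3),(7,1),(3,2),(8,3)]) (.cons (.leaf 1 [(3,2),(6,1)]) (.cons (.leaf 1 [(7,1),(1,1),(3,2),(6,3)]) (.cons (.leaf 1 [(10,1)]) (.cons (.keep [6,7,8,9,10] (.node (.cons (.leaf 1 [(3,1),(6,1)]) (.cons (.leaf 1 [(3,1),(6,1)]) (.cons (.leaf 1 [(3,2),(10,1)]) (.cons (.leaf 1 [(3,2),(10,1)]) (.cons (.leaf 1 [(8,2),(6,2),(10,1)]) (.cons (.keep [6,7,8,9,10] (.node (.cons (.leaf 1 [(2,2),(10,1)]) (.cons (.leaf 1 [(2,2),(10,1)]) (.cons (.leaf 1 [(3,2),(10,1),(6,2)]) (.cons (.leaf 1 [(3,2),(10,1),(8,2),(6,2)]) (.cons (.leaf 1 [(6,2),(10,1)]) (.cons (.leaf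 1 [(0,2),(10,1),(8,2),(6,4)]) .nil)))))))) .nil)))))))) .nil)))))))) (.cons (.leaf 1 [(6,1),(3,2),(9,1)]) (.cons (.keep [3,4,6,7,9,10] (.node (.cons (.leaf 1 [(3,2)]) (.cons (.leaf 1 [(8,1),(3,2),(10,1)]) (.cons (.leaf 1 [(6,1),(3,2)]) (.cons (.leaf 1 [(8,1),(3,2),(6,2),(10,1)]) (.cons (.leaf 1 [(11,1)]) (.cons (.keep [4,6,8,9,10,11] (.node (.cons (.leaf 1 [(3,1),(7,1)]) (.cons (.leaf 1 [(3,1),(7,1)]) (.cons (.leaf 1 [(3,2),(11,1)]) (.cons (.leaf 1 [(3,2),(11,1)]) (.cons (.leaf 1 [(10,2),(11,1)]) (.cons (.keep [4,7,8,9,10,11] (.node (.cons (.leaf 1 [(11,1),(2,2)]) (.cons (.leaf 1 [(11,1),(2,2)]) (.cons (.leaf 1 [(10,2),(3,2),(11,1)]) (.cons (.leaf 1 [(10,2),(3,2),(11,1)]) (.cons (.leaf 1 [(10,2),(7,2),(11,1)]) (.cons (.leaf 1 [(10,2),(0,2),(11,1),(7,2)]) .nil)))))))) .nil))))))))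 .nil)))))))) (.cons (.leaf 1 [(9,1),(6,1)]) (.cons (.keep [2,6,8,9,10] (.node (.cons (.leaf 1 [(3,2),(6,1)]) (.cons (.leaf 1 [(3,2),(7,1),(6,2),(9,1)]) (.cons (.leaf 1 [(3,2)]) (.cons (.leaf 1 [(7,1),(9,1),(3,2)]) (.cons (.leaf 1 [(10,1)]) (.cons (.keep [6,7,8,9,10] (.node (.cons (.leaf 1 [(3,1)]) (.cons (.leaf 1 [(3,1)]) (.cons (.leaf 1 [(10,1),(3,2)]) (.cons (.leaf 1 [(10,1),(3,2)]) (.cons (.leaf 1 [(10,1),(9,2)]) (.cons (.keep [0,6,7,8,9,10] (.node (.cons (.leaf 1 [(2,2),(11,1)]) (.cons (.leaf 1 [(2,2),(11,1)]) (.cons (.leaf 1 [(10,2),(3,2),(11,1)]) (.cons (.leaf 1 [(10,2),(3,2),(11,1)]) (.cons (.leaf 1 [(6,2),(11,1),(10,2)]) (.cons (.leaf 1 [(10,2),(11,1),(0,2)]) .nil)))))))) .nil)))))))) .nil)))))))) .nil)))))))) .nil)))))))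

theorem c_14_24_1 : Concl 14 24 z_14_24_1 h_14_24_1 .nd := piece _ hP_nil t_14_24_1 _ _ (by
  decide +kernel)

def z_14_24_2 : F := ⟨0, 0, -1, -1, 3⟩

def h_14_24_2 : List F := [⟨1, 0, -1, 0, 0⟩, ⟨0, 0, -1, 1, 0⟩, ⟨0, 0, 0, -1, 1⟩, ⟨0, -1, 1, 0, 0⟩,
  ⟨-1, 0, 0, 0, 1⟩]

def t_14_24_2 : T := (.node (.cons (.keep [3,5,7,8,9] (.node (.cons (.leaf 1 [(3,1),(7,1),(10,2)]) (.cons (.keep [6,7,8,9,10] (.node (.cons (.leaf 1 [(8,1),(3,2)]) (.cons (.leaf 1 [(3,2),(10,3),(6,1)]) (.cons (.leaf 1 [(8,1),(3,2)]) (.cons (.leaf 1 [(7,2),(3,2),(10,3),(6,1)]) (.cons (.leaf 1 [(8,1)]) (.cons (.keep [6,7,8,9,10] (.node (.cons (.leaf 1 [(3,2),(10,1),(6,1)]) (.cons (.leaf 1 [(3,1),(10,1),(7,1)]) (.cons (.leaf 1 [(3,2)]) (.cons (.leaf 1 [(8,1),(3,2)]) (.cons (.leaf 1 [(10,1),(6,1)]) (.cons (.keep [4,6,7,8,10]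 (.node (.cons (.leaf 1 [(3,1)]) (.cons (.leaf 1 [(3,1)]) (.cons (.leaf 1 [(10,1),(3,2),(7,1)]) (.cons (.leaf 1 [(10,1),(3,2),(7,1)]) (.cons (.leaf 1 [(10,1),(8,2),(7,1)]) (.cons (.leaf 1 [(10,3),(0,2),(7,1),(8,2)]) .nil)))))))) .nil)))))))) .nil)))))))) (.cons (.leaf 1 [(3,2),(1,1),(10,2)]) (.cons (.keep [1,3,6,9,10] (.node (.cons (.leaf 1 [(6,1),(3,2)]) (.cons (.leaf 1 [(6,1),(10,2),(3,2)]) (.cons (.leaf 1 [(6,1),(3,2)]) (.cons (.leaf 1 [(6,1),(3,2),(10,2),(7,2)]) (.cons (.leaf 1 [(6,1)]) (.cons (.keep [6,7,8,9,10] (.node (.cons (.leaf 2 [(3,3),(10,1),(7,1)]) (.cons (.leaf 1 [(3,1),(6,1),(10,1),(7,1)]) (.cons (.leaf 1 [(3,2)]) (.cons (.leaf 1 [(6,1),(3,2)]) (.cons (.leaf 1 [(10,1),(8,1)]) (.cons (.keep [0,4,6,7,10] (.node (.cons (.leaf 1 [(3,1)]) (.cons (.leaf 1 [(3,1)]) (.cons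 (.leaf 1 [(10,1),(3,2),(6,1)]) (.cons (.leaf 1 [(10,1),(3,2),(0,1),(4,1)]) (.cons (.leaf 1 [(10,1),(9,2),(6,1)]) (.cons (.leaf 1 [(10,2),(8,1),(0,2),(9,2)]) .nil)))))))) .nil)))))))) .nil)))))))) (.cons (.leaf 1 [(10,2),(7,1),(1,1)]) (.cons (.keep [2,6,7,8,9,10] (.node (.cons (.leaf 1 [(9,1),(3,2)]) (.cons (.leaf 1 [(3,2),(9,1),(11,2),(6,2)]) (.cons (.leaf 1 [(9,1),(3,2)]) (.cons (.leaf 1 [(9,1),(3,2),(11,2)]) (.cons (.leaf 1 [(9,1)]) (.cons (.keep [6,7,8,9,10,11] (.node (.cons (.leaf 2 [(3,3),(11,1)]) (.cons (.leaf 1 [(3,1),(11,1),(9,1)]) (.cons (.leaf 1 [(3,2)]) (.cons (.leaf 1 [(9,1),(3,2)]) (.cons (.leaf 1 [(7,1),(11,1)]) (.cons (.keep [4,6,7,8,9,11] (.node (.cons (.leaf 1 [(3,1)]) (.cons (.leaf 1 [(3,1)]) (.cons (.leaf 1 [(11,1),(3,2),(8,1)]) (.cons (.leaf 1 [(0,1),(3,2),(11,1)])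 (.cons (.leaf 1 [(11,1),(9,2),(8,1)]) (.cons (.leaf 1 [(0,2),(11,2),(10,1)]) .nil)))))))) .nil)))))))) .nil)))))))) .nil)))))))) (.cons (.keep [3,6,7,9,10] (.node (.cons (.leaf 1 [(3,2),(8,1),(9,2)]) (.cons (.keep [3,6,7,8,10] (.node (.cons (.leaf 1 [(9,1),(3,2)]) (.cons (.leaf 1 [(3,2),(7,1),(10,3),(6,3)]) (.cons (.leaf 1 [(9,1),(3,2)]) (.cons (.leaf 1 [(9,1),(3,2),(10,2),(6,4)]) (.cons (.leaf 1 [(9,1)]) (.cons (.keep [6,7,8,9,10] (.node (.cons (.leaf 2 [(3,3),(10,1),(6,2)]) (.cons (.leaf 1 [(3,1),(10,1),(6,2),(9,1)]) (.cons (.leaf 1 [(3,2)]) (.cons (.leaf 1 [(9,1),(3,2)]) (.cons (.leaf 1 [(10,1),(6,1),(7,1)]) (.cons (.keep [6,7,8,9,10] (.node (.cons (.leaf 1 [(3,1)]) (.cons (.leaf 1 [(3,1)]) (.cons (.leaf 1 [(6,1),(3,2)]) (.cons (.leaf 1 [(10,1),(3,2),(0,1),(6,2)]) (.cons (.leaf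 1 [(6,2),(9,1)]) (.cons (.leaf 1 [(10,2),(9,1),(0,2),(6,4)]) .nil)))))))) .nil)))))))) .nil)))))))) (.cons (.leaf 1 [(3,2),(1,1),(9,2)]) (.cons (.keep [1,3,6,7,9,10] (.node (.cons (.leaf 1 [(6,1),(3,2)]) (.cons (.leaf 1 [(6,1),(10,2),(3,2)]) (.cons (.leaf 1 [(6,1),(3,2)]) (.cons (.leaf 1 [(6,1),(3,2),(10,2),(7,2)]) (.cons (.leaf 1 [(6,1)]) (.cons (.keep [6,7,8,9,10,11] (.node (.cons (.leaf 2 [(3,3),(10,1),(7,1)]) (.cons (.leaf 1 [(3,1),(6,1),(10,1),(7,1)]) (.cons (.leaf 1 [(3,2)]) (.cons (.leaf 1 [(6,1),(3,2)]) (.cons (.leaf 1 [(10,1),(8,1)]) (.cons (.keep [0,6,7,9,10,11] (.node (.cons (.leaf 1 [(3,1)]) (.cons (.leaf 1 [(3,1)]) (.cons (.leaf 1 [(10,1),(3,2),(6,1)]) (.cons (.leaf 1 [(10,1),(3,2),(0,1),(4,1)]) (.cons (.leaf 1 [(10,1),(8,2),(6,1)]) (.cons (.leaf 1 [(10,2),(7,1),(0,2),(8,2)])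 .nil)))))))) .nil)))))))) .nil)))))))) (.cons (.leaf 1 [(9,2),(8,1)]) (.cons (.keep [6,7,8,9,10] (.node (.cons (.leaf 1 [(8,1),(3,2)]) (.cons (.leaf 1 [(3,2),(10,2),(9,1),(6,1)]) (.cons (.leaf 1 [(8,1),(3,2)]) (.cons (.leaf 1 [(8,1),(3,2),(9,2)]) (.cons (.leaf 1 [(8,1)]) (.cons (.keep [6,7,8,9,10] (.node (.cons (.leaf 2 [(3,3),(9,1)]) (.cons (.leaf 1 [(3,1),(8,1),(9,1)]) (.cons (.leaf 1 [(3,2)]) (.cons (.leaf 1 [(8,1),(3,2)]) (.cons (.leaf 1 [(6,1),(9,1)]) (.cons (.keep [0,6,7,8,9,10] (.node (.cons (.leaf 1 [(3,1)]) (.cons (.leaf 1 [(3,1)]) (.cons (.leaf 1 [(10,1),(3,2),(6,1)]) (.cons (.leaf 1 [(0,1),(3,2),(10,1)]) (.cons (.leaf 1 [(10,2),(9,1),(6,2)]) (.cons (.leaf 1 [(0,2),(9,1),(10,2)]) .nil)))))))) .nil)))))))) .nil)))))))) .nil)))))))) (.cons (.keep [1,3,5,6,7] (.node (.cons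 (.leaf 1 [(3,1),(8,1),(6,2)]) (.cons (.keep [0,2,6,8,10] (.node (.cons (.leaf 1 [(8,1),(3,2)]) (.cons (.leaf 1 [(3,2),(8,2),(7,1)]) (.cons (.leaf 1 [(8,1),(3,2),(9,1)]) (.cons (.leaf 1 [(3,2),(7,1),(8,2),(9,2)]) (.cons (.leaf 1 [(10,1)]) (.cons (.keep [0,7,8,9,10] (.node (.cons (.leaf 1 [(3,2),(7,1)]) (.cons (.leaf 1 [(3,1),(8,1),(9,1)]) (.cons (.leaf 1 [(3,2)]) (.cons (.leaf 1 [(10,1),(3,2)]) (.cons (.leaf 1 [(7,1)]) (.cons (.keep [0,6,7,8,9,10] (.node (.cons (.leaf 1 [(3,1)]) (.cons (.leaf 1 [(3,1)]) (.cons (.leaf 1 [(8,1),(3,2)]) (.cons (.leaf 1 [(8,1),(3,2)]) (.cons (.leaf 1 [(8,1),(10,2)]) (.cons (.leaf 1 [(9,2),(0,2),(8,1),(10,2)]) .nil)))))))) .nil)))))))) .nil)))))))) (.cons (.leaf 1 [(3,2),(1,1),(6,2)]) (.cons (.keep [0,1,3,6,7] (.node (.cons (.leaf 1 [(7,1),(3,2)]) (.cons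 (.leaf 1 [(7,1),(9,2),(3,2)]) (.cons (.leaf 1 [(7,1),(3,2)]) (.cons (.leaf 1 [(7,1),(3,2),(9,2),(8,2)]) (.cons (.leaf 1 [(7,1)]) (.cons (.keep [0,7,8,9,10] (.node (.cons (.leaf 2 [(3,3),(9,1),(8,1)]) (.cons (.leaf 1 [(3,1),(7,1),(9,1),(8,1)]) (.cons (.leaf 1 [(3,2)]) (.cons (.leaf 1 [(7,1),(3,2)]) (.cons (.leaf 1 [(9,1),(6,1)]) (.cons (.keep [0,6,7,8,9] (.node (.cons (.leaf 1 [(3,1)]) (.cons (.leaf 1 [(3,1)]) (.cons (.leaf 1 [(10,1),(3,2),(6,1)]) (.cons (.leaf 1 [(10,1),(3,2),(0,1),(4,1)]) (.cons (.leaf 1 [(10,1),(9,2),(6,1)]) (.cons (.leaf 1 [(10,2),(8,1),(0,2),(9,2)]) .nil)))))))) .nil)))))))) .nil)))))))) (.cons (.leaf 1 [(6,2),(8,1),(1,1)]) (.cons (.keep [0,2,6,7,8,10] (.node (.cons (.leaf 1 [(11,1),(3,2)]) (.cons (.leaf 1 [(3,2),(11,1),(8,2),(7,2)]) (.cons (.leaf 1 [(11,1),(3,2)])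 (.cons (.leaf 1 [(11,1),(3,2),(8,2)]) (.cons (.leaf 1 [(11,1)]) (.cons (.keep [0,7,8,9,10,11] (.node (.cons (.leaf 2 [(3,3),(8,1)]) (.cons (.leaf 1 [(3,1),(8,1),(11,1)]) (.cons (.leaf 1 [(3,2)]) (.cons (.leaf 1 [(11,1),(3,2)]) (.cons (.leaf 1 [(7,1),(8,1),(6,1)]) (.cons (.keep [0,6,7,8,11] (.node (.cons (.leaf 1 [(3,1)]) (.cons (.leaf 1 [(3,1)]) (.cons (.leaf 1 [(9,1),(3,2),(6,1)]) (.cons (.leaf 1 [(0,1),(3,2),(9,1)]) (.cons (.leaf 1 [(9,2),(10,1),(6,2)]) (.cons (.leaf 1 [(0,2),(10,1),(9,2)]) .nil)))))))) .nil)))))))) .nil)))))))) .nil)))))))) (.cons (.keep [1,3,6,7,10] (.node (.cons (.leaf 1 [(3,2),(9,1),(6,2)]) (.cons (.keep [0,2,3,6,9,10] (.node (.cons (.leaf 1 [(9,1),(3,2)]) (.cons (.leaf 1 [(3,2),(9,2),(7,1)]) (.cons (.leaf 1 [(10,1),(3,2)]) (.cons (.leaf 1 [(10,1),(3,2),(9,2),(8,2)])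 (.cons (.leaf 1 [(10,1)]) (.cons (.keep [0,7,8,9,10,11] (.node (.cons (.leaf 1 [(3,2),(7,1)]) (.cons (.leaf 1 [(3,1),(9,1),(8,1),(10,1)]) (.cons (.leaf 1 [(3,2)]) (.cons (.leaf 1 [(10,1),(3,2)]) (.cons (.leaf 1 [(7,1)]) (.cons (.keep [0,6,7,8,9,10,11] (.node (.cons (.leaf 1 [(3,1)]) (.cons (.leaf 1 [(3,1)]) (.cons (.leaf 1 [(8,1),(3,2)]) (.cons (.leaf 1 [(8,1),(3,2)]) (.cons (.leaf 1 [(9,2),(11,1)]) (.cons (.leaf 1 [(10,2),(11,1),(0,2),(9,2)]) .nil)))))))) .nil)))))))) .nil)))))))) (.cons (.leaf 1 [(3,2),(1,1),(6,2)]) (.cons (.keep [0,3,6,7,10] (.node (.cons (.leaf 1 [(2,1),(10,1),(3,2)]) (.cons (.leaf 1 [(2,1),(10,1),(8,2),(3,2)]) (.cons (.leaf 1 [(10,1),(3,2),(7,1)]) (.cons (.leaf 1 [(10,1),(3,2),(8,2),(7,3)]) (.cons (.leaf 1 [(7,1),(10,1)]) (.cons (.keep [0,7,8,9,10] (.node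 (.cons (.leaf 2 [(3,3),(8,1),(7,1)]) (.cons (.leaf 1 [(3,1),(10,1),(8,1),(7,2)]) (.cons (.leaf 1 [(3,2)]) (.cons (.leaf 1 [(10,1),(7,1),(3,2)]) (.cons (.leaf 1 [(8,1),(6,1)]) (.cons (.keep [0,6,7,8,10] (.node (.cons (.leaf 1 [(3,1)]) (.cons (.leaf 1 [(3,1)]) (.cons (.leaf 1 [(9,1),(3,2),(6,1)]) (.cons (.leaf 1 [(9,1),(3,2),(0,1),(4,1)]) (.cons (.leaf 1 [(9,1),(8,2),(6,1)]) (.cons (.leaf 1 [(10,1),(0,2),(9,2),(8,3)]) .nil)))))))) .nil)))))))) .nil)))))))) (.cons (.leaf 1 [(6,2),(9,1)]) (.cons (.keep [0,2,6,7,8,9] (.node (.cons (.leaf 1 [(11,1),(3,2)]) (.cons (.leaf 1 [(3,2),(11,1),(8,2),(7,2)]) (.cons (.leaf 1 [(11,1),(3,2)]) (.cons (.leaf 1 [(11,1),(3,2),(8,2)]) (.cons (.leaf 1 [(11,1)]) (.cons (.keep [0,7,8,9,11] (.node (.cons (.leaf 2 [(3,3),(8,1)]) (.cons (.leaf 1 [(3,1),(10,1),(8,1)])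 (.cons (.leaf 1 [(3,2)]) (.cons (.leaf 1 [(10,1),(3,2)]) (.cons (.leaf 1 [(7,1),(8,1),(6,1)]) (.cons (.keep [0,6,7,8,10] (.node (.cons (.leaf 1 [(3,1)]) (.cons (.leaf 1 [(3,1)]) (.cons (.leaf 1 [(9,1),(3,2),(6,1)]) (.cons (.leaf 1 [(0,1),(3,2),(9,1)]) (.cons (.leaf 1 [(9,2),(10,1),(6,2)]) (.cons (.leaf 1 [(0,2),(10,1),(9,2)]) .nil)))))))) .nil)))))))) .nil)))))))) .nil)))))))) (.cons (.keep [2,5,8,9] (.node (.cons (.leaf 1 [(3,2),(6,1),(9,2)]) (.cons (.keep [0,2,6,7,9] (.node (.cons (.leaf 1 [(8,1),(3,2)]) (.cons (.leaf 1 [(3,2),(10,2),(7,1)]) (.cons (.leaf 1 [(8,1),(3,2)]) (.cons (.leaf 1 [(3,2),(7,1),(10,2),(9,2)]) (.cons (.leaf 1 [(8,1)]) (.cons (.keep [0,7,8,9,10] (.node (.cons (.leaf 1 [(3,2),(7,1)]) (.cons (.leaf 1 [(3,1),(10,1),(9,1)]) (.cons (.leaf 1 [(3,2)]) (.cons (.leaf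 1 [(8,1),(3,2)]) (.cons (.leaf 1 [(7,1)]) (.cons (.keep [0,6,7,8,9,10] (.node (.cons (.leaf 1 [(3,1)]) (.cons (.leaf 1 [(3,1)]) (.cons (.leaf 1 [(8,1),(3,2)]) (.cons (.leaf 1 [(8,1),(3,2)]) (.cons (.leaf 1 [(8,1),(10,2)]) (.cons (.leaf 1 [(11,2),(0,2),(8,1),(10,2)]) .nil)))))))) .nil)))))))) .nil)))))))) (.cons (.leaf 1 [(3,2),(1,1),(9,2)]) (.cons (.keep [0,1,3,9] (.node (.cons (.leaf 1 [(7,1),(3,2)]) (.cons (.leaf 1 [(7,1),(9,2),(3,2)]) (.cons (.leaf 1 [(7,1),(3,2)]) (.cons (.leaf 1 [(7,1),(3,2),(9,2),(8,2)]) (.cons (.leaf 1 [(7,1)]) (.cons (.keep [0,7,8,9] (.node (.cons (.leaf 2 [(3,3),(9,1),(8,1)]) (.cons (.leaf 1 [(3,1),(7,1),(9,1),(8,1)]) (.cons (.leaf 1 [(3,2)]) (.cons (.leaf 1 [(7,1),(3,2)]) (.cons (.leaf 1 [(9,1),(6,1)]) (.cons (.keep [0,6,7,8,9] (.node (.cons (.leaf 1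 [(3,1)]) (.cons (.leaf 1 [(3,1)]) (.cons (.leaf 1 [(10,1),(3,2),(6,1)]) (.cons (.leaf 1 [(10,1),(3,2),(0,1),(4,1)]) (.cons (.leaf 1 [(10,1),(9,2),(6,1)]) (.cons (.leaf 1 [(10,2),(8,1),(0,2),(9,2)]) .nil)))))))) .nil)))))))) .nil)))))))) (.cons (.leaf 1 [(9,2),(6,1)]) (.cons (.keep [0,2,6,7,9] (.node (.cons (.leaf 1 [(8,1),(3,2)]) (.cons (.leaf 1 [(3,2),(8,1),(10,2),(7,2)]) (.cons (.leaf 1 [(8,1),(3,2)]) (.cons (.leaf 1 [(8,1),(3,2),(10,2)]) (.cons (.leaf 1 [(8,1)]) (.cons (.keep [0,7,8,9,10] (.node (.cons (.leaf 2 [(3,3),(10,1)]) (.cons (.leaf 1 [(3,1),(10,1),(8,1)]) (.cons (.leaf 1 [(3,2)]) (.cons (.leaf 1 [(8,1),(3,2)]) (.cons (.leaf 1 [(7,1),(10,1),(6,1)]) (.cons (.keep [0,6,7,8,10] (.node (.cons (.leaf 1 [(3,1)]) (.cons (.leaf 1 [(3,1)]) (.cons (.leaf 1 [(10,1),(3,2),(6,1)])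 (.cons (.leaf 1 [(0,1),(3,2),(10,1)]) (.cons (.leaf 1 [(10,2),(9,1),(6,2)]) (.cons (.leaf 1 [(0,2),(9,1),(10,2)]) .nil)))))))) .nil)))))))) .nil)))))))) .nil)))))))) (.cons (.keep [2,4,6,8,9] (.node (.cons (.leaf 1 [(3,2),(6,1),(10,2)]) (.cons (.keep [0,3,6,7,10] (.node (.cons (.leaf 1 [(8,1),(3,2)]) (.cons (.leaf 1 [(3,2),(9,1),(10,2),(7,1)]) (.cons (.leaf 1 [(8,1),(3,2)]) (.cons (.leaf 1 [(8,1),(3,2),(10,2),(7,2)]) (.cons (.leaf 1 [(8,1)]) (.cons (.keep [0,7,8,9,10] (.node (.cons (.leaf 1 [(3,2),(9,1),(7,1)]) (.cons (.leaf 1 [(3,1),(10,1),(7,1),(8,1)]) (.cons (.leaf 1 [(3,2)]) (.cons (.leaf 1 [(8,1),(3,2)]) (.cons (.leaf 1 [(9,1),(7,1)]) (.cons (.keep [0,6,7,8,9,10] (.node (.cons (.leaf 1 [(3,1)]) (.cons (.leaf 1 [(3,1)]) (.cons (.leaf 1 [(8,1),(3,2)]) (.cons (.leaf 1 [(3,2),(10,1),(8,1)])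 (.cons (.leaf 1 [(8,2),(9,1)]) (.cons (.leaf 1 [(11,2),(9,1),(0,2),(8,2)]) .nil)))))))) .nil)))))))) .nil)))))))) (.cons (.leaf 1 [(3,2),(1,1),(10,2)]) (.cons (.keep [0,1,3,7,10] (.node (.cons (.leaf 1 [(7,1),(3,2)]) (.cons (.leaf 1 [(7,1),(10,2),(3,2)]) (.cons (.leaf 1 [(7,1),(3,2)]) (.cons (.leaf 1 [(7,1),(3,2),(10,2),(8,2)]) (.cons (.leaf 1 [(7,1)]) (.cons (.keep [0,7,8,9,10] (.node (.cons (.leaf 2 [(3,3),(10,1),(8,1)]) (.cons (.leaf 1 [(3,1),(7,1),(10,1),(8,1)]) (.cons (.leaf 1 [(3,2)]) (.cons (.leaf 1 [(7,1),(3,2)]) (.cons (.leaf 1 [(10,1),(6,1)]) (.cons (.keep [0,6,7,8,9,10] (.node (.cons (.leaf 1 [(3,1)]) (.cons (.leaf 1 [(3,1)]) (.cons (.leaf 1 [(11,1),(3,2),(6,1)]) (.cons (.leaf 1 [(11,1),(3,2),(0,1),(4,1)]) (.cons (.leaf 1 [(11,1),(9,2),(6,1)]) (.cons (.leaf 1 [(11,2),(8,1),(0,2),(9,2)])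 .nil)))))))) .nil)))))))) .nil)))))))) (.cons (.leaf 1 [(10,2),(6,1)]) (.cons (.keep [0,2,6,8,10] (.node (.cons (.leaf 1 [(8,1),(3,2)]) (.cons (.leaf 1 [(3,2),(8,1),(10,2),(7,2)]) (.cons (.leaf 1 [(8,1),(3,2)]) (.cons (.leaf 1 [(8,1),(3,2),(10,2)]) (.cons (.leaf 1 [(8,1)]) (.cons (.keep [0,7,8,10] (.node (.cons (.leaf 2 [(3,3),(9,1)]) (.cons (.leaf 1 [(3,1),(8,1),(9,1)]) (.cons (.leaf 1 [(3,2)]) (.cons (.leaf 1 [(8,1),(3,2)]) (.cons (.leaf 1 [(7,1),(9,1),(6,1)]) (.cons (.keep [0,6,7,8,9] (.node (.cons (.leaf 1 [(3,1)]) (.cons (.leaf 1 [(3,1)]) (.cons (.leaf 1 [(10,1),(3,2),(6,1)]) (.cons (.leaf 1 [(0,1),(3,2),(10,1)]) (.cons (.leaf 1 [(10,2),(9,1),(6,2)]) (.cons (.leaf 1 [(0,2),(9,1),(10,2)]) .nil)))))))) .nil)))))))) .nil)))))))) .nil)))))))) .nil)))))))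

theorem c_14_24_2 : Concl 14 24 z_14_24_2 h_14_24_2 .nd := piece _ hP_nil t_14_24_2 _ _ (by
  decide +kernel)

def z_14_24_3 : F := ⟨0, 0, -2, 0, 3⟩

def h_14_24_3 : List F := [⟨1, 0, -1, 0, 0⟩, ⟨0, 0, 1, -1, 0⟩, ⟨0, -1, 1, 0, 0⟩, ⟨-1, 0, 0, 0, 1⟩]

def t_14_24_3 : T := (.node (.cons (.keep [2,5,6,7,9] (.node (.cons (.leaf 1 [(3,2),(10,2),(2,2)]) (.cons (.keep [2,6,7,8,10] (.node (.cons (.leaf 1 [(3,2)]) (.cons (.leaf 1 [(3,2),(10,2),(6,4)]) (.cons (.leaf 1 [(3,2)]) (.cons (.leaf 1 [(3,2),(6,4),(10,2),(8,2)]) (.cons (.leaf 1 []) (.cons (.keep [6,7,8,9,10] (.node (.cons (.leaf 1 [(3,2),(6,2)]) (.cons (.leaf 1 [(3,1),(10,1),(8,1),(6,2)]) (.cons (.leaf 1 [(3,2)]) (.cons (.leaf 1 [(3,2)]) (.cons (.leaf 1 [(6,2)]) (.cons (.keep [6,7,8,9,10] (.node (.cons (.leaf 1 [(2,2)]) (.cons (.leaf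 1 [(2,2)]) (.cons (.leaf 1 [(3,2),(6,2)]) (.cons (.leaf 1 [(3,2),(6,2)]) (.cons (.leaf 1 [(8,2),(6,2)]) (.cons (.leaf 1 [(10,2),(0,2),(6,6),(8,2)]) .nil)))))))) .nil)))))))) .nil)))))))) (.cons (.leaf 1 [(9,2),(3,2),(10,2)]) (.cons (.keep [3,6,8,9,10] (.node (.cons (.leaf 1 [(3,2)]) (.cons (.leaf 1 [(3,2),(10,2),(9,2)]) (.cons (.leaf 1 [(3,2)]) (.cons (.leaf 1 [(3,2),(9,2),(10,2),(6,2)]) (.cons (.leaf 1 []) (.cons (.keep [4,6,7,9,10] (.node (.cons (.leaf 1 [(3,2),(9,2)]) (.cons (.leaf 1 [(3,1),(10,1),(7,1),(9,1)]) (.cons (.leaf 1 [(3,2)]) (.cons (.leaf 1 [(3,2)]) (.cons (.leaf 1 [(9,2)]) (.cons (.keep [0,4,7,9,10] (.node (.cons (.leaf 1 [(2,2)]) (.cons (.leaf 1 [(2,2)]) (.cons (.leaf 1 [(3,2),(9,2)]) (.cons (.leaf 1 [(3,2),(9,2)]) (.cons (.leaf 1 [(8,2),(9,2)]) (.cons (.leaf 1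 [(10,2),(0,2),(9,4),(8,2)]) .nil)))))))) .nil)))))))) .nil)))))))) (.cons (.leaf 1 [(9,2),(10,2)]) (.cons (.keep [2,6,7,8,9,10] (.node (.cons (.leaf 1 [(3,2)]) (.cons (.leaf 1 [(3,2),(6,2),(11,2),(10,2)]) (.cons (.leaf 1 [(3,2)]) (.cons (.leaf 1 [(3,2),(10,2),(11,2)]) (.cons (.leaf 1 []) (.cons (.keep [6,7,8,9,10,11] (.node (.cons (.leaf 1 [(3,2),(10,2)]) (.cons (.leaf 1 [(3,1),(11,1),(10,1)]) (.cons (.leaf 1 [(3,2)]) (.cons (.leaf 1 [(3,2)]) (.cons (.leaf 1 [(10,2)]) (.cons (.keep [6,7,8,9,10,11] (.node (.cons (.leaf 1 [(2,2)]) (.cons (.leaf 1 [(2,2)]) (.cons (.leaf 1 [(3,2),(10,2)]) (.cons (.leaf 1 [(3,2),(10,2)]) (.cons (.leaf 1 [(8,2),(10,2)]) (.cons (.leaf 1 [(0,2),(10,4),(11,2)]) .nil)))))))) .nil)))))))) .nil)))))))) .nil)))))))) (.cons (.keep [2,6,7,8,9] (.node (.cons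 (.leaf 1 [(3,2),(9,2)]) (.cons (.keep [2,3,6,7,10] (.node (.cons (.leaf 1 [(3,2)]) (.cons (.leaf 1 [(3,2),(10,2),(2,2),(6,4)]) (.cons (.leaf 1 [(3,2)]) (.cons (.leaf 1 [(3,2),(10,2),(7,4)]) (.cons (.leaf 1 []) (.cons (.keep [6,7,8,9,10] (.node (.cons (.leaf 1 [(3,2),(6,2)]) (.cons (.leaf 1 [(3,1),(10,1),(7,2)]) (.cons (.leaf 1 [(3,2)]) (.cons (.leaf 1 [(3,2)]) (.cons (.leaf 1 [(6,2)]) (.cons (.keep [0,6,7,9,10] (.node (.cons (.leaf 1 [(2,2)]) (.cons (.leaf 1 [(2,2)]) (.cons (.leaf 1 [(3,2),(7,2)]) (.cons (.leaf 1 [(3,2),(7,2)]) (.cons (.leaf 1 [(8,2)]) (.cons (.leaf 1 [(10,2),(0,2),(7,2),(8,4)]) .nil)))))))) .nil)))))))) .nil)))))))) (.cons (.leaf 1 [(3,2),(9,2)]) (.cons (.keep [3,6,7,8,10] (.node (.cons (.leaf 1 [(3,2)]) (.cons (.leaf 1 [(3,2),(10,2),(2,2),(9,2)]) (.cons (.leaf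 1 [(3,2)]) (.cons (.leaf 1 [(3,2),(9,2),(10,2),(6,4)]) (.cons (.leaf 1 []) (.cons (.keep [6,7,8,9,10] (.node (.cons (.leaf 1 [(3,2),(9,2)]) (.cons (.leaf 1 [(3,1),(10,1),(6,2),(9,1)]) (.cons (.leaf 1 [(3,2)]) (.cons (.leaf 1 [(3,2)]) (.cons (.leaf 1 [(9,2)]) (.cons (.keep [0,6,8,9,10] (.node (.cons (.leaf 1 [(2,2)]) (.cons (.leaf 1 [(2,2)]) (.cons (.leaf 1 [(3,2),(9,2)]) (.cons (.leaf 1 [(3,2),(9,2)]) (.cons (.leaf 1 [(7,2),(9,2)]) (.cons (.leaf 1 [(10,2),(0,2),(9,4),(7,4)]) .nil)))))))) .nil)))))))) .nil)))))))) (.cons (.leaf 1 [(9,2)]) (.cons (.keep [6,7,8,9,10] (.node (.cons (.leaf 1 [(3,2)]) (.cons (.leaf 1 [(3,2),(10,2),(8,2)]) (.cons (.leaf 1 [(3,2)]) (.cons (.leaf 1 [(3,2),(9,2)]) (.cons (.leaf 1 []) (.cons (.keep [0,6,8,9,10] (.node (.cons (.leaf 1 [(3,2),(8,2)]) (.cons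 (.leaf 1 [(3,1),(9,1)]) (.cons (.leaf 1 [(3,2)]) (.cons (.leaf 1 [(3,2)]) (.cons (.leaf 1 [(8,2)]) (.cons (.keep [0,6,7,8,9,10] (.node (.cons (.leaf 1 [(2,2)]) (.cons (.leaf 1 [(2,2)]) (.cons (.leaf 1 [(3,2),(9,2)]) (.cons (.leaf 1 [(3,2),(9,2)]) (.cons (.leaf 1 [(10,2),(6,2),(9,2)]) (.cons (.leaf 1 [(0,2),(9,2),(10,2)]) .nil)))))))) .nil)))))))) .nil)))))))) .nil)))))))) (.cons (.keep [1,3,5,6,9] (.node (.cons (.leaf 1 [(3,2),(6,2)]) (.cons (.keep [0,2,6,8,10] (.node (.cons (.leaf 1 [(3,2)]) (.cons (.leaf 1 [(3,2),(8,2),(7,2)]) (.cons (.leaf 1 [(3,2)]) (.cons (.leaf 1 [(3,2),(7,2),(8,2),(9,2)]) (.cons (.leaf 1 []) (.cons (.keep [0,7,8,9,10] (.node (.cons (.leaf 1 [(3,2),(7,2)]) (.cons (.leaf 1 [(3,1),(8,1),(9,1),(7,1)]) (.cons (.leaf 1 [(3,2)]) (.cons (.leaf 1 [(3,2)]) (.cons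 (.leaf 1 [(7,2)]) (.cons (.keep [0,6,7,8,9] (.node (.cons (.leaf 1 [(2,2)]) (.cons (.leaf 1 [(2,2)]) (.cons (.leaf 1 [(3,2),(8,2)]) (.cons (.leaf 1 [(3,2),(8,2)]) (.cons (.leaf 1 [(10,2),(8,2)]) (.cons (.leaf 1 [(9,2),(0,2),(8,4),(10,2)]) .nil)))))))) .nil)))))))) .nil)))))))) (.cons (.leaf 1 [(3,2),(6,2)]) (.cons (.keep [0,1,3,6,7] (.node (.cons (.leaf 1 [(3,2)]) (.cons (.leaf 1 [(3,2),(9,2)]) (.cons (.leaf 1 [(3,2)]) (.cons (.leaf 1 [(8,2),(3,2),(9,2)]) (.cons (.leaf 1 []) (.cons (.keep [0,7,8,9,10] (.node (.cons (.leaf 1 [(3,1),(9,1),(8,1)]) (.cons (.leaf 1 [(3,1),(8,1),(9,1)]) (.cons (.leaf 1 [(3,2)]) (.cons (.leaf 1 [(3,2)]) (.cons (.leaf 1 [(10,2)]) (.cons (.keep [0,6,7,8,9,10] (.node (.cons (.leaf 1 [(2,2)]) (.cons (.leaf 1 [(2,2)]) (.cons (.leaf 1 [(3,2),(11,2)]) (.cons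 (.leaf 1 [(3,2),(11,2)]) (.cons (.leaf 1 [(9,2),(11,2)]) (.cons (.leaf 1 [(0,2),(11,2),(10,2),(9,2)]) .nil)))))))) .nil)))))))) .nil)))))))) (.cons (.leaf 1 [(6,2)]) (.cons (.keep [0,2,6,7,8,10] (.node (.cons (.leaf 1 [(3,2)]) (.cons (.leaf 1 [(3,2),(7,2),(8,2)]) (.cons (.leaf 1 [(3,2)]) (.cons (.leaf 1 [(3,2),(8,2)]) (.cons (.leaf 1 []) (.cons (.keep [0,7,8,9,10,11] (.node (.cons (.leaf 1 [(3,1),(8,1)]) (.cons (.leaf 1 [(3,1),(8,1)]) (.cons (.leaf 1 [(3,2)]) (.cons (.leaf 1 [(3,2)]) (.cons (.leaf 1 [(9,2)]) (.cons (.keep [0,6,7,8,9,11] (.node (.cons (.leaf 1 [(2,2)]) (.cons (.leaf 1 [(2,2)]) (.cons (.leaf 1 [(3,2),(10,2)]) (.cons (.leaf 1 [(3,2),(10,2)]) (.cons (.leaf 1 [(9,2),(6,2),(10,2)]) (.cons (.leaf 1 [(0,2),(10,2),(9,2)]) .nil)))))))) .nil)))))))) .nil)))))))) .nil))))))))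 (.cons (.keep [1,3,6,9] (.node (.cons (.leaf 1 [(3,2),(6,2)]) (.cons (.keep [0,2,3,6,9] (.node (.cons (.leaf 1 [(3,2)]) (.cons (.leaf 1 [(3,2),(9,2),(7,2)]) (.cons (.leaf 1 [(3,2)]) (.cons (.leaf 1 [(3,2),(9,2),(8,2)]) (.cons (.leaf 1 []) (.cons (.keep [0,7,8,9,10] (.node (.cons (.leaf 1 [(3,2),(7,2)]) (.cons (.leaf 1 [(3,1),(9,1),(8,1)]) (.cons (.leaf 1 [(3,2)]) (.cons (.leaf 1 [(3,2)]) (.cons (.leaf 1 [(7,2)]) (.cons (.keep [0,6,7,8,9,10] (.node (.cons (.leaf 1 [(2,2)]) (.cons (.leaf 1 [(2,2)]) (.cons (.leaf 1 [(3,2),(8,2)]) (.cons (.leaf 1 [(3,2),(8,2)]) (.cons (.leaf 1 [(9,2)]) (.cons (.leaf 1 [(10,2),(0,2),(8,2),(9,2)]) .nil)))))))) .nil)))))))) .nil)))))))) (.cons (.leaf 1 [(3,2),(6,2)]) (.cons (.keep [0,3,6,7,9] (.node (.cons (.leaf 1 [(3,2)]) (.cons (.leaf 1 [(3,2),(8,2)])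 (.cons (.leaf 1 [(3,2)]) (.cons (.leaf 1 [(7,2),(3,2),(8,2)]) (.cons (.leaf 1 []) (.cons (.keep [0,7,8,9,10] (.node (.cons (.leaf 1 [(3,1),(8,1),(7,1)]) (.cons (.leaf 1 [(3,1),(7,1),(8,1)]) (.cons (.leaf 1 [(3,2)]) (.cons (.leaf 1 [(3,2)]) (.cons (.leaf 1 [(9,2)]) (.cons (.keep [0,6,7,8,9,10] (.node (.cons (.leaf 1 [(2,2)]) (.cons (.leaf 1 [(2,2)]) (.cons (.leaf 1 [(3,2),(10,2)]) (.cons (.leaf 1 [(3,2),(10,2)]) (.cons (.leaf 1 [(8,2),(10,2)]) (.cons (.leaf 1 [(0,2),(10,2),(9,2),(8,2)]) .nil)))))))) .nil)))))))) .nil)))))))) (.cons (.leaf 1 [(6,2)]) (.cons (.keep [0,1,6,7,8] (.node (.cons (.leaf 1 [(3,2)]) (.cons (.leaf 1 [(3,2),(7,2),(8,2),(9,2)]) (.cons (.leaf 1 [(3,2)]) (.cons (.leaf 1 [(3,2),(8,2)]) (.cons (.leaf 1 []) (.cons (.keep [0,7,8,9] (.node (.cons (.leaf 1 [(3,1),(8,1)])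 (.cons (.leaf 1 [(3,1),(8,1)]) (.cons (.leaf 1 [(3,2)]) (.cons (.leaf 1 [(3,2)]) (.cons (.leaf 1 [(9,2)]) (.cons (.keep [0,6,7,8,9] (.node (.cons (.leaf 1 [(2,2)]) (.cons (.leaf 1 [(2,2)]) (.cons (.leaf 1 [(3,2),(10,2)]) (.cons (.leaf 1 [(3,2),(10,2)]) (.cons (.leaf 1 [(9,2),(6,2),(10,2)]) (.cons (.leaf 1 [(0,2),(10,2),(9,2)]) .nil)))))))) .nil)))))))) .nil)))))))) .nil)))))))) (.cons (.keep [2,5,6,7,8] (.node (.cons (.leaf 1 [(3,2),(10,2)]) (.cons (.keep [0,2,6,7,10] (.node (.cons (.leaf 1 [(3,2)]) (.cons (.leaf 1 [(3,2),(10,2),(7,2)]) (.cons (.leaf 1 [(3,2)]) (.cons (.leaf 1 [(3,2),(7,2),(10,2),(9,2)]) (.cons (.leaf 1 []) (.cons (.keep [0,7,8,9,10] (.node (.cons (.leaf 1 [(3,2),(7,2)]) (.cons (.leaf 1 [(3,1),(10,1),(9,1),(7,1)]) (.cons (.leaf 1 [(3,2)]) (.cons (.leaf 1 [(3,2)])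 (.cons (.leaf 1 [(7,2)]) (.cons (.keep [0,6,7,9,10] (.node (.cons (.leaf 1 [(2,2)]) (.cons (.leaf 1 [(2,2)]) (.cons (.leaf 1 [(3,2),(8,2)]) (.cons (.leaf 1 [(3,2),(8,2)]) (.cons (.leaf 1 [(9,2),(8,2)]) (.cons (.leaf 1 [(10,2),(0,2),(8,4),(9,2)]) .nil)))))))) .nil)))))))) .nil)))))))) (.cons (.leaf 1 [(3,2),(10,2)]) (.cons (.keep [0,1,3,9,10] (.node (.cons (.leaf 1 [(3,2)]) (.cons (.leaf 1 [(10,2),(3,2)]) (.cons (.leaf 1 [(3,2)]) (.cons (.leaf 1 [(3,2),(10,2),(8,2)]) (.cons (.leaf 1 []) (.cons (.keep [0,7,8,9,10] (.node (.cons (.leaf 1 [(3,2),(9,2)]) (.cons (.leaf 1 [(3,1),(8,1),(10,1)]) (.cons (.leaf 1 [(3,2)]) (.cons (.leaf 1 [(3,2)]) (.cons (.leaf 1 [(9,2)]) (.cons (.keep [0,6,7,8,9,10] (.node (.cons (.leaf 1 [(2,2)]) (.cons (.leaf 1 [(2,2)]) (.cons (.leaf 1 [(3,2),(10,2)])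 (.cons (.leaf 1 [(3,2),(10,2)]) (.cons (.leaf 1 [(9,2),(10,2)]) (.cons (.leaf 1 [(11,2),(0,2),(10,2),(9,2)]) .nil)))))))) .nil)))))))) .nil)))))))) (.cons (.leaf 1 [(10,2)]) (.cons (.keep [0,2,6,7,9,10] (.node (.cons (.leaf 1 [(3,2)]) (.cons (.leaf 1 [(3,2),(11,2),(7,2)]) (.cons (.leaf 1 [(3,2)]) (.cons (.leaf 1 [(3,2),(11,2)]) (.cons (.leaf 1 []) (.cons (.keep [0,7,8,9,10,11] (.node (.cons (.leaf 1 [(3,2),(10,2)]) (.cons (.leaf 1 [(3,1),(11,1)]) (.cons (.leaf 1 [(3,2)]) (.cons (.leaf 1 [(3,2)]) (.cons (.leaf 1 [(10,2)]) (.cons (.keep [0,6,7,8,10,11] (.node (.cons (.leaf 1 [(2,2)]) (.cons (.leaf 1 [(2,2)]) (.cons (.leaf 1 [(3,2),(10,2)]) (.cons (.leaf 1 [(3,2),(10,2)]) (.cons (.leaf 1 [(11,2),(6,2),(10,2)]) (.cons (.leaf 1 [(0,2),(10,2),(11,2)]) .nil)))))))) .nil)))))))) .nil))))))))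 .nil)))))))) (.cons (.keep [2,4,6,7,8] (.node (.cons (.leaf 1 [(3,2),(10,2)]) (.cons (.keep [0,3,6,7,10] (.node (.cons (.leaf 1 [(3,2)]) (.cons (.leaf 1 [(7,2),(3,2),(10,2),(9,2)]) (.cons (.leaf 1 [(3,2)]) (.cons (.leaf 1 [(3,2),(10,2),(7,2)]) (.cons (.leaf 1 []) (.cons (.keep [0,7,8,9,10] (.node (.cons (.leaf 1 [(3,2),(9,2),(7,2)]) (.cons (.leaf 1 [(3,1),(10,1),(7,1)]) (.cons (.leaf 1 [(3,2)]) (.cons (.leaf 1 [(3,2)]) (.cons (.leaf 1 [(9,2),(7,2)]) (.cons (.keep [0,6,7,9,10] (.node (.cons (.leaf 1 [(2,2)]) (.cons (.leaf 1 [(2,2)]) (.cons (.leaf 1 [(3,2),(8,2)]) (.cons (.leaf 1 [(3,2),(9,2),(8,2)]) (.cons (.leaf 1 [(8,2)]) (.cons (.leaf 1 [(10,2),(0,2),(9,2),(8,4)]) .nil)))))))) .nil)))))))) .nil)))))))) (.cons (.leaf 1 [(3,2),(10,2)]) (.cons (.keep [0,1,3,7,9,10] (.node (.cons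 (.leaf 1 [(3,2)]) (.cons (.leaf 1 [(11,2),(3,2)]) (.cons (.leaf 1 [(3,2)]) (.cons (.leaf 1 [(3,2),(11,2),(8,2)]) (.cons (.leaf 1 []) (.cons (.keep [0,7,8,9,10,11] (.node (.cons (.leaf 1 [(3,2),(10,2)]) (.cons (.leaf 1 [(3,1),(8,1),(11,1)]) (.cons (.leaf 1 [(3,2)]) (.cons (.leaf 1 [(3,2)]) (.cons (.leaf 1 [(10,2)]) (.cons (.keep [0,6,7,8,9,10,11] (.node (.cons (.leaf 1 [(2,2)]) (.cons (.leaf 1 [(2,2)]) (.cons (.leaf 1 [(3,2),(11,2)]) (.cons (.leaf 1 [(3,2),(11,2)]) (.cons (.leaf 1 [(9,2),(11,2)]) (.cons (.leaf 1 [(12,2),(0,2),(11,2),(9,2)]) .nil)))))))) .nil)))))))) .nil)))))))) (.cons (.leaf 1 [(10,2)]) (.cons (.keep [0,2,6,8,9,10] (.node (.cons (.leaf 1 [(3,2)]) (.cons (.leaf 1 [(3,2),(11,2),(7,2)]) (.cons (.leaf 1 [(3,2)]) (.cons (.leaf 1 [(3,2),(11,2)]) (.cons (.leaf 1 [])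 (.cons (.keep [0,7,8,10,11] (.node (.cons (.leaf 1 [(3,2),(9,2)]) (.cons (.leaf 1 [(3,1),(10,1)]) (.cons (.leaf 1 [(3,2)]) (.cons (.leaf 1 [(3,2)]) (.cons (.leaf 1 [(9,2)]) (.cons (.keep [0,6,7,8,9,10] (.node (.cons (.leaf 1 [(2,2)]) (.cons (.leaf 1 [(2,2)]) (.cons (.leaf 1 [(3,2),(10,2)]) (.cons (.leaf 1 [(3,2),(10,2)]) (.cons (.leaf 1 [(11,2),(6,2),(10,2)]) (.cons (.leaf 1 [(0,2),(10,2),(11,2)]) .nil)))))))) .nil)))))))) .nil)))))))) .nil)))))))) .nil)))))))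

theorem c_14_24_3 : Concl 14 24 z_14_24_3 h_14_24_3 .nd := piece _ hP_nil t_14_24_3 _ _ (by
  decide +kernel)

def z_14_24_6 : F := ⟨1, -2, 0, -1, 3⟩

def h_14_24_6 : List F := [⟨1, -1, 0, 0, 0⟩, ⟨0, 0, -1, 1, 0⟩, ⟨1, -1, 0, -1, 1⟩, ⟨0, 1, -1, 0,
  0⟩, ⟨0, -1, 0, 0, 1⟩, ⟨-1, 1, 0, 0, 0⟩]

def t_14_24_6 : T := (.node (.cons (.leaf 1 [(3,1),(11,3)]) (.cons (.keep [3,6,7,10,11] (.node (.cons (.leaf 1 [(3,2),(8,1),(10,2)]) (.cons (.leaf 1 [(6,1),(3,2),(10,3),(8,2)]) (.cons (.leaf 1 [(3,2),(10,2)]) (.cons (.leaf 1 [(3,2),(10,3),(6,1)]) (.cons (.keep [5,6,7,8,10] (.node (.cons (.leaf 1 [(3,1),(6,1),(9,2)]) (.cons (.leaf 1 [(2,1),(10,2)]) (.cons (.leaf 1 [(3,2),(1,1),(9,2)]) (.cons (.keep [0,3,7,9,10] (.node (.cons (.leaf 1 [(10,1),(3,1)]) (.cons (.leaf 1 [(10,1),(9,1),(3,1)]) (.cons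 (.leaf 1 [(10,1),(3,1)]) (.cons (.leaf 1 [(10,1),(3,1),(9,1),(7,1)]) (.cons (.leaf 1 [(10,1)]) (.cons (.leaf 1 [(10,3),(9,1),(0,1)]) .nil)))))))) (.cons (.leaf 1 [(9,2),(6,1),(1,1)]) (.cons (.keep [0,2,7,9,10] (.node (.cons (.leaf 1 [(10,1),(3,1)]) (.cons (.leaf 1 [(3,1),(10,1),(9,1),(7,1)]) (.cons (.leaf 1 [(10,1),(3,1)]) (.cons (.leaf 1 [(10,1),(3,1),(9,1)]) (.cons (.leaf 1 [(10,1)]) (.cons (.leaf 1 [(10,3),(7,1),(9,1),(0,1)]) .nil)))))))) .nil)))))))) (.cons (.keep [4,6,7,8,10] (.node (.cons (.leaf 1 [(3,3),(9,4),(7,2)]) (.cons (.leaf 1 [(3,1),(10,2)]) (.cons (.leaf 1 [(9,2),(1,1),(3,3)]) (.cons (.keep [0,3,7,9,10] (.node (.cons (.leaf 1 [(10,1),(2,1),(3,1)]) (.cons (.leaf 1 [(10,1),(2,1),(9,1),(3,1)]) (.cons (.leaf 1 [(10,1),(3,1),(7,1)]) (.cons (.leaf 1 [(10,1),(9,1),(7,2),(3,1)])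 (.cons (.leaf 1 [(10,1),(7,1)]) (.cons (.leaf 1 [(10,3),(7,2),(9,1),(0,1)]) .nil)))))))) (.cons (.leaf 1 [(9,4),(1,1),(7,2)]) (.cons (.keep [0,2,7,9,10] (.node (.cons (.leaf 1 [(10,1),(2,1),(3,1)]) (.cons (.leaf 1 [(10,1),(3,1),(9,1)]) (.cons (.leaf 1 [(10,1),(3,2),(8,1)]) (.cons (.leaf 1 [(10,1),(3,2),(9,2),(8,1)]) (.cons (.leaf 1 [(10,1),(8,1)]) (.cons (.leaf 1 [(10,5),(8,1),(9,2),(0,2)]) .nil)))))))) .nil)))))))) .nil)))))))) (.cons (.leaf 1 [(3,1),(11,3),(1,1)]) (.cons (.keep [1,3,6,7,9,10,11] (.node (.cons (.leaf 1 [(3,2),(6,1),(9,1)]) (.cons (.leaf 1 [(6,1),(9,1),(12,3),(3,2)]) (.cons (.leaf 1 [(1,2),(6,1),(3,2)]) (.cons (.leaf 1 [(3,2),(6,1),(12,3),(7,1)]) (.cons (.leaf 1 [(1,1),(9,1),(6,1)]) (.cons (.keep [4,6,7,8,9,10,12] (.node (.cons (.leaf 1 [(3,3),(10,2),(11,3)])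 (.cons (.leaf 1 [(3,1),(7,1),(12,2)]) (.cons (.leaf 1 [(10,2),(1,1),(3,3)]) (.cons (.leaf 1 [(7,1),(3,3),(10,2),(1,1)]) (.cons (.leaf 1 [(10,2),(1,1),(11,3)]) (.cons (.keep [4,7,8,9,10,11,12] (.node (.cons (.leaf 1 [(3,1),(2,1),(12,1)]) (.cons (.leaf 1 [(12,1),(10,1),(3,1)]) (.cons (.leaf 1 [(12,1),(3,2),(11,1)]) (.cons (.leaf 1 [(12,1),(3,2),(11,1),(10,1)]) (.cons (.leaf 1 [(12,1),(8,1),(11,1)]) (.cons (.leaf 1 [(7,1),(12,5),(10,1),(0,2)]) .nil)))))))) .nil)))))))) .nil)))))))) (.cons (.leaf 1 [(11,3),(1,1)]) (.cons (.keep [0,1,6,9,11] (.node (.cons (.leaf 1 [(2,1),(7,1),(3,2)]) (.cons (.leaf 1 [(3,2),(7,3),(10,3),(9,2)]) (.cons (.leaf 1 [(7,1),(3,2)]) (.cons (.leaf 1 [(3,2),(7,1),(10,3)]) (.cons (.leaf 1 [(7,1),(2,1)]) (.cons (.keep [0,7,8,9,10] (.node (.cons (.leaf 1 [(3,3),(7,1),(9,4)])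 (.cons (.leaf 1 [(3,1),(7,1),(10,2)]) (.cons (.leaf 1 [(7,1),(1,1),(3,3)]) (.cons (.leaf 1 [(7,1),(1,1),(3,3)]) (.cons (.leaf 1 [(7,1),(1,1),(9,4)]) (.cons (.keep [0,6,7,9,10] (.node (.cons (.leaf 1 [(3,1),(2,1),(10,1)]) (.cons (.leaf 1 [(8,1),(2,2),(10,1)]) (.cons (.leaf 1 [(10,1),(3,2),(9,1)]) (.cons (.leaf 1 [(8,1),(3,2),(9,2),(10,1)]) (.cons (.leaf 2 [(10,4),(6,1),(9,1)]) (.cons (.leaf 1 [(8,3),(0,2),(9,2),(10,5)]) .nil)))))))) .nil)))))))) .nil)))))))) .nil)))))))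

theorem c_14_24_6 : Concl 14 24 z_14_24_6 h_14_24_6 .nd := piece _ hP_nil t_14_24_6 _ _ (by
  decide +kernel)

def z_14_24_8 : F := ⟨1, 0, -1, -1, 2⟩

def h_14_24_8 : List F := [⟨1, 0, -1, 0, 0⟩, ⟨0, 0, -1, 1, 0⟩, ⟨0, 0, 0, -1, 1⟩, ⟨0, -1, 1, 0, 0⟩]

def t_14_24_8 : T := (.node (.cons (.keep [3,5,7,8,9] (.node (.cons (.leaf 1 [(7,2),(10,3)]) (.cons (.keep [6,7,8,9,10] (.node (.cons (.leaf 1 [(3,2),(8,3)]) (.cons (.leaf 1 [(3,2),(10,3)]) (.cons (.leaf 1 [(3,2),(1,1),(8,3)]) (.cons (.leaf 1 [(7,2),(3,2),(10,3)]) (.cons (.leaf 1 [(8,3),(1,1)]) (.cons (.keep [6,7,8,9,10] (.node (.cons (.leaf 1 [(3,2),(10,1)]) (.cons (.leaf 1 [(3,1),(10,2),(8,1),(7,1)]) (.cons (.leaf 1 [(10,1),(3,2)]) (.cons (.leaf 1 [(10,1),(8,2),(3,2)]) (.cons (.leaf 1 [(10,1)]) (.cons (.keep [4,6,7,8,10] (.node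 (.cons (.leaf 1 [(3,2),(10,1),(8,2)]) (.cons (.leaf 1 [(3,1),(10,1),(9,1)]) (.cons (.leaf 1 [(10,1),(3,2)]) (.cons (.leaf 1 [(10,1),(3,2)]) (.cons (.leaf 1 [(10,1),(8,2)]) (.cons (.leaf 1 [(10,5),(9,2),(0,2),(8,2)]) .nil)))))))) .nil)))))))) .nil)))))))) (.cons (.leaf 1 [(10,3),(3,2),(1,2)]) (.cons (.keep [1,3,6,9,10] (.node (.cons (.leaf 1 [(3,2),(6,2)]) (.cons (.leaf 1 [(6,2),(10,3),(3,2)]) (.cons (.leaf 1 [(3,2),(1,1),(6,2)]) (.cons (.leaf 1 [(6,2),(10,3),(7,2),(3,2)]) (.cons (.leaf 1 [(6,2),(1,1)]) (.cons (.keep [6,7,8,9,10] (.node (.cons (.leaf 1 [(3,2),(10,1)]) (.cons (.leaf 1 [(3,1),(6,2),(10,2),(7,1)]) (.cons (.leaf 1 [(10,1),(3,2)]) (.cons (.leaf 1 [(10,1),(3,2),(6,2)]) (.cons (.leaf 1 [(10,1)]) (.cons (.keep [0,4,6,7,10] (.node (.cons (.leaf 1 [(10,1),(8,1),(3,1)]) (.cons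 (.leaf 1 [(10,1),(8,1),(3,1)]) (.cons (.leaf 1 [(10,1),(3,2)]) (.cons (.leaf 1 [(10,1),(3,2)]) (.cons (.leaf 1 [(10,1),(9,2)]) (.cons (.leaf 1 [(10,5),(8,4),(0,2),(9,2)]) .nil)))))))) .nil)))))))) .nil)))))))) (.cons (.leaf 1 [(10,3),(7,2),(1,2)]) (.cons (.keep [2,6,7,8,9,10] (.node (.cons (.leaf 1 [(3,2),(2,1),(9,2)]) (.cons (.leaf 1 [(9,2),(11,3),(6,2),(3,2)]) (.cons (.leaf 1 [(3,2),(9,2)]) (.cons (.leaf 1 [(9,2),(3,2),(11,3)]) (.cons (.leaf 1 [(9,2),(2,1)]) (.cons (.keep [6,7,8,9,10,11] (.node (.cons (.leaf 1 [(3,2),(11,1)]) (.cons (.leaf 1 [(3,1),(11,2),(9,2)]) (.cons (.leaf 1 [(1,1),(3,3)]) (.cons (.leaf 1 [(1,1),(3,3),(9,2)]) (.cons (.leaf 1 [(11,1)]) (.cons (.keep [4,6,7,8,9,11] (.node (.cons (.leaf 1 [(3,2),(11,1),(9,2)]) (.cons (.leaf 1 [(3,1),(10,1),(11,1)]) (.cons (.leaf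 1 [(11,1),(3,2)]) (.cons (.leaf 1 [(3,2),(11,1)]) (.cons (.leaf 1 [(11,1),(9,2)]) (.cons (.leaf 1 [(0,2),(10,4),(11,5)]) .nil)))))))) .nil)))))))) .nil)))))))) .nil)))))))) (.cons (.keep [3,4,6,7,9] (.node (.cons (.leaf 1 [(3,1),(9,1),(10,3)]) (.cons (.keep [3,6,7,8,9,10] (.node (.cons (.leaf 1 [(3,2),(8,1),(10,3)]) (.cons (.leaf 1 [(3,2),(8,1),(11,3)]) (.cons (.leaf 1 [(10,3),(3,2),(1,2)]) (.cons (.leaf 1 [(6,1),(3,2),(11,3),(10,1)]) (.cons (.leaf 1 [(10,3),(8,1),(1,1)]) (.cons (.keep [6,7,8,9,10,11] (.node (.cons (.leaf 1 [(8,3),(6,1),(3,3)]) (.cons (.leaf 1 [(3,1),(11,2),(10,1)]) (.cons (.leaf 1 [(8,2),(1,1),(3,3)]) (.cons (.leaf 1 [(8,2),(1,1),(10,3),(3,3)]) (.cons (.leaf 1 [(8,3),(6,1),(1,1)]) (.cons (.keep [6,7,8,9,10,11] (.node (.cons (.leaf 2 [(3,3),(11,2),(10,1)]) (.cons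 (.leaf 1 [(8,1),(11,1),(3,1),(10,1)]) (.cons (.leaf 1 [(11,1),(3,2)]) (.cons (.leaf 1 [(11,1),(8,1),(3,2)]) (.cons (.leaf 1 [(11,1),(10,1),(6,1)]) (.cons (.leaf 1 [(11,5),(10,2),(8,1),(0,2)]) .nil)))))))) .nil)))))))) .nil)))))))) (.cons (.leaf 1 [(10,3),(3,1),(1,2)]) (.cons (.keep [1,3,6,7,8,10] (.node (.cons (.leaf 1 [(3,2),(9,1),(6,2)]) (.cons (.leaf 1 [(6,2),(9,1),(11,3),(3,2)]) (.cons (.leaf 1 [(6,2),(3,2),(1,2)]) (.cons (.leaf 1 [(7,1),(6,2),(11,3),(3,2)]) (.cons (.leaf 1 [(6,2),(9,1),(1,1)]) (.cons (.keep [6,7,8,9,10,11] (.node (.cons (.leaf 1 [(3,1),(2,2),(11,2)]) (.cons (.leaf 1 [(3,1),(6,2),(11,2)]) (.cons (.leaf 1 [(9,2),(1,1),(3,3)]) (.cons (.leaf 1 [(6,2),(1,1),(3,3),(9,2)]) (.cons (.leaf 1 [(9,1),(11,1)]) (.cons (.keep [6,7,8,9,10,11] (.node (.cons (.leaf 2 [(6,1),(11,2),(3,3)])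 (.cons (.leaf 1 [(11,1),(3,1),(9,1),(6,1)]) (.cons (.leaf 1 [(11,1),(3,2)]) (.cons (.leaf 1 [(11,1),(3,2),(9,1)]) (.cons (.leaf 1 [(7,1),(11,1)]) (.cons (.leaf 1 [(6,4),(11,5),(9,1),(0,2)]) .nil)))))))) .nil)))))))) .nil)))))))) (.cons (.leaf 1 [(10,3),(9,1),(1,1)]) (.cons (.keep [2,6,8,9,10] (.node (.cons (.leaf 1 [(3,2),(9,2)]) (.cons (.leaf 1 [(9,2),(6,3),(10,3),(3,2)]) (.cons (.leaf 1 [(3,2),(1,1),(9,2)]) (.cons (.leaf 1 [(9,2),(1,1),(10,3),(3,2)]) (.cons (.leaf 1 [(9,2),(1,1)]) (.cons (.keep [0,6,7,9,10] (.node (.cons (.leaf 1 [(3,2),(7,1),(10,1)]) (.cons (.leaf 1 [(3,1),(7,1),(10,2),(9,2)]) (.cons (.leaf 1 [(7,1),(1,1),(3,3)]) (.cons (.leaf 1 [(7,1),(1,1),(3,3),(9,2)]) (.cons (.leaf 1 [(7,1),(10,1)]) (.cons (.keep [0,6,7,9,10] (.node (.cons (.leaf 2 [(10,2),(9,1),(3,3)])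 (.cons (.leaf 1 [(8,1),(9,1),(3,1),(10,1)]) (.cons (.leaf 1 [(10,1),(3,2)]) (.cons (.leaf 1 [(3,2),(8,1),(10,1)]) (.cons (.leaf 2 [(10,4),(9,2),(6,1)]) (.cons (.leaf 1 [(8,3),(9,4),(0,2),(10,5)]) .nil)))))))) .nil)))))))) .nil)))))))) .nil)))))))) (.cons (.keep [1,3,5,6,7] (.node (.cons (.leaf 1 [(8,2),(6,2)]) (.cons (.keep [0,2,6,8,10] (.node (.cons (.leaf 1 [(3,2),(8,2)]) (.cons (.leaf 1 [(3,2),(8,2)]) (.cons (.leaf 1 [(9,2),(3,2),(8,2)]) (.cons (.leaf 1 [(9,2),(3,2),(8,2)]) (.cons (.leaf 1 [(10,2)]) (.cons (.keep [0,7,8,9,10] (.node (.cons (.leaf 1 [(3,2)]) (.cons (.leaf 1 [(2,2),(8,2),(9,2)]) (.cons (.leaf 1 [(3,2)]) (.cons (.leaf 1 [(3,2),(10,2)]) (.cons (.leaf 1 []) (.cons (.keep [0,6,8,9,10] (.node (.cons (.leaf 1 [(3,2),(9,2)]) (.cons (.leaf 1 [(3,1),(10,1)]) (.cons (.leaf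 1 [(3,2)]) (.cons (.leaf 1 [(3,2)]) (.cons (.leaf 1 [(9,2)]) (.cons (.leaf 1 [(8,2),(10,2),(0,2),(9,2)]) .nil)))))))) .nil)))))))) .nil)))))))) (.cons (.leaf 1 [(6,2),(3,2),(1,2)]) (.cons (.keep [0,1,3,6,7] (.node (.cons (.leaf 1 [(3,2),(7,2)]) (.cons (.leaf 1 [(3,2),(9,2),(7,2)]) (.cons (.leaf 1 [(3,2),(7,2)]) (.cons (.leaf 1 [(8,2),(3,2),(9,2),(7,2)]) (.cons (.leaf 1 [(7,2)]) (.cons (.keep [0,7,8,9,10] (.node (.cons (.leaf 1 [(3,2)]) (.cons (.leaf 1 [(3,1),(9,1),(7,2),(8,1)]) (.cons (.leaf 1 [(3,2)]) (.cons (.leaf 1 [(3,2),(7,2)]) (.cons (.leaf 1 []) (.cons (.keep [0,6,7,8,9] (.node (.cons (.leaf 1 [(3,1),(8,1)]) (.cons (.leaf 1 [(3,1),(8,1)]) (.cons (.leaf 1 [(3,2)]) (.cons (.leaf 1 [(3,2)]) (.cons (.leaf 1 [(9,2)]) (.cons (.leaf 1 [(10,2),(8,4),(0,2),(9,2)]) .nil)))))))) .nil))))))))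 .nil)))))))) (.cons (.leaf 1 [(6,2),(8,2),(1,2)]) (.cons (.keep [0,2,6,7,8,10] (.node (.cons (.leaf 1 [(3,2),(11,2)]) (.cons (.leaf 1 [(3,2),(7,2),(8,2),(11,2)]) (.cons (.leaf 1 [(3,2),(11,2)]) (.cons (.leaf 1 [(3,2),(8,2),(11,2)]) (.cons (.leaf 1 [(11,2)]) (.cons (.keep [0,7,8,9,10,11] (.node (.cons (.leaf 1 [(3,2)]) (.cons (.leaf 1 [(3,1),(11,2),(8,1)]) (.cons (.leaf 1 [(3,2)]) (.cons (.leaf 1 [(3,2),(11,2)]) (.cons (.leaf 1 []) (.cons (.keep [0,6,7,8,11] (.node (.cons (.leaf 1 [(3,1),(10,1)]) (.cons (.leaf 1 [(3,1),(10,1)]) (.cons (.leaf 1 [(3,2)]) (.cons (.leaf 1 [(3,2)]) (.cons (.leaf 1 [(9,2),(10,4),(6,2)]) (.cons (.leaf 1 [(0,2),(10,4),(9,2)]) .nil)))))))) .nil)))))))) .nil)))))))) .nil)))))))) (.cons (.keep [1,3,4,6,7] (.node (.cons (.leaf 1 [(3,1),(10,1),(6,2)]) (.cons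 (.keep [0,3,6,8,10] (.node (.cons (.leaf 1 [(3,2),(9,1),(8,2)]) (.cons (.leaf 1 [(3,2),(9,1),(8,2)]) (.cons (.leaf 1 [(10,1),(3,2),(8,1)]) (.cons (.leaf 1 [(7,1),(3,2),(8,2),(10,1)]) (.cons (.leaf 1 [(10,2),(9,1)]) (.cons (.keep [0,7,8,9,10] (.node (.cons (.leaf 1 [(2,1),(8,1),(3,1)]) (.cons (.leaf 1 [(3,1),(8,1),(10,1)]) (.cons (.leaf 1 [(9,1),(3,2)]) (.cons (.leaf 1 [(9,1),(3,2),(10,2)]) (.cons (.leaf 1 [(9,1)]) (.cons (.keep [0,6,8,9,10] (.node (.cons (.leaf 2 [(3,3),(10,1)]) (.cons (.leaf 1 [(3,1),(9,1),(10,1)]) (.cons (.leaf 1 [(3,2)]) (.cons (.leaf 1 [(9,1),(3,2)]) (.cons (.leaf 1 [(8,1),(10,1),(6,1)]) (.cons (.leaf 1 [(8,2),(10,2),(9,1),(0,2)]) .nil)))))))) .nil)))))))) .nil)))))))) (.cons (.leaf 1 [(6,2),(3,1),(1,2)]) (.cons (.keep [0,1,3,6,7,8] (.node (.cons (.leaf 1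 [(3,2),(11,1),(7,2)]) (.cons (.leaf 1 [(3,2),(11,1),(9,2),(7,2)]) (.cons (.leaf 1 [(3,2),(1,1),(7,2)]) (.cons (.leaf 1 [(8,1),(3,2),(9,2),(7,2)]) (.cons (.leaf 1 [(7,2),(11,1)]) (.cons (.keep [0,7,8,9,10,11] (.node (.cons (.leaf 1 [(2,2),(9,1),(3,1)]) (.cons (.leaf 1 [(3,1),(9,1),(7,2)]) (.cons (.leaf 1 [(11,1),(3,2)]) (.cons (.leaf 1 [(11,1),(3,2),(7,2)]) (.cons (.leaf 1 [(11,1)]) (.cons (.keep [0,6,7,9,11] (.node (.cons (.leaf 2 [(3,3),(8,1)]) (.cons (.leaf 1 [(3,1),(10,1),(8,1)]) (.cons (.leaf 1 [(3,2)]) (.cons (.leaf 1 [(10,1),(3,2)]) (.cons (.leaf 1 [(9,1),(8,2),(6,1)]) (.cons (.leaf 1 [(9,2),(8,4),(10,1),(0,2)]) .nil)))))))) .nil)))))))) .nil)))))))) (.cons (.leaf 1 [(6,2),(10,1),(1,1)]) (.cons (.keep [0,2,6,7,10] (.node (.cons (.leaf 1 [(3,2),(7,1),(10,2)]) (.cons (.leaf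 1 [(3,2),(7,3),(8,2),(10,2)]) (.cons (.leaf 1 [(3,2),(1,1),(10,2)]) (.cons (.leaf 1 [(3,2),(1,1),(8,2),(10,2)]) (.cons (.leaf 1 [(10,2),(7,1)]) (.cons (.keep [0,7,8,9,10] (.node (.cons (.leaf 1 [(7,1),(3,2)]) (.cons (.leaf 1 [(3,1),(7,1),(10,2),(8,1)]) (.cons (.leaf 1 [(7,1),(3,2)]) (.cons (.leaf 1 [(7,1),(3,2),(10,2)]) (.cons (.leaf 1 [(7,1)]) (.cons (.keep [0,6,7,8,10] (.node (.cons (.leaf 2 [(3,3),(10,1)]) (.cons (.leaf 1 [(3,1),(8,1),(10,1)]) (.cons (.leaf 1 [(3,2)]) (.cons (.leaf 1 [(8,1),(3,2)]) (.cons (.leaf 2 [(9,1),(10,2),(6,1)]) (.cons (.leaf 1 [(9,2),(10,4),(8,3),(0,2)]) .nil)))))))) .nil)))))))) .nil)))))))) .nil)))))))) (.cons (.keep [2,5,8,9] (.node (.cons (.leaf 1 [(3,2),(6,1),(9,2)]) (.cons (.keep [0,2,6,7,9] (.node (.cons (.leaf 1 [(8,1),(3,2)]) (.cons (.leaf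 1 [(3,2),(10,2),(7,1)]) (.cons (.leaf 1 [(8,1),(3,2)]) (.cons (.leaf 1 [(3,2),(7,1),(10,2),(9,2)]) (.cons (.leaf 1 [(8,1)]) (.cons (.keep [0,7,8,9,10] (.node (.cons (.leaf 1 [(3,2),(7,1)]) (.cons (.leaf 1 [(3,1),(10,1),(9,1)]) (.cons (.leaf 1 [(3,2)]) (.cons (.leaf 1 [(8,1),(3,2)]) (.cons (.leaf 1 [(7,1)]) (.cons (.keep [0,6,7,8,9,10] (.node (.cons (.leaf 1 [(3,1)]) (.cons (.leaf 1 [(3,1)]) (.cons (.leaf 1 [(8,1),(3,2)]) (.cons (.leaf 1 [(8,1),(3,2)]) (.cons (.leaf 1 [(8,1),(10,2)]) (.cons (.leaf 1 [(11,2),(0,2),(8,1),(10,2)]) .nil)))))))) .nil)))))))) .nil)))))))) (.cons (.leaf 1 [(3,2),(1,1),(9,2)]) (.cons (.keep [0,1,3,9] (.node (.cons (.leaf 1 [(7,1),(3,2)]) (.cons (.leaf 1 [(7,1),(9,2),(3,2)]) (.cons (.leaf 1 [(7,1),(3,2)]) (.cons (.leaf 1 [(7,1),(3,2),(9,2),(8,2)]) (.cons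 (.leaf 1 [(7,1)]) (.cons (.keep [0,7,8,9] (.node (.cons (.leaf 2 [(3,3),(9,1),(8,1)]) (.cons (.leaf 1 [(3,1),(7,1),(9,1),(8,1)]) (.cons (.leaf 1 [(3,2)]) (.cons (.leaf 1 [(7,1),(3,2)]) (.cons (.leaf 1 [(9,1),(6,1)]) (.cons (.keep [0,6,7,8,9] (.node (.cons (.leaf 1 [(3,1)]) (.cons (.leaf 1 [(3,1)]) (.cons (.leaf 1 [(10,1),(3,2),(6,1)]) (.cons (.leaf 1 [(10,1),(3,2),(0,1),(4,1)]) (.cons (.leaf 1 [(10,1),(9,2),(6,1)]) (.cons (.leaf 1 [(10,2),(8,1),(0,2),(9,2)]) .nil)))))))) .nil)))))))) .nil)))))))) (.cons (.leaf 1 [(9,2),(6,1)]) (.cons (.keep [0,2,6,7,9] (.node (.cons (.leaf 1 [(8,1),(3,2)]) (.cons (.leaf 1 [(3,2),(8,1),(10,2),(7,2)]) (.cons (.leaf 1 [(8,1),(3,2)]) (.cons (.leaf 1 [(8,1),(3,2),(10,2)]) (.cons (.leaf 1 [(8,1)]) (.cons (.keep [0,7,8,9,10] (.node (.cons (.leaf 2 [(3,3),(10,1)])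 (.cons (.leaf 1 [(3,1),(10,1),(8,1)]) (.cons (.leaf 1 [(3,2)]) (.cons (.leaf 1 [(8,1),(3,2)]) (.cons (.leaf 1 [(7,1),(10,1),(6,1)]) (.cons (.keep [0,6,7,8,10] (.node (.cons (.leaf 1 [(3,1)]) (.cons (.leaf 1 [(3,1)]) (.cons (.leaf 1 [(10,1),(3,2),(6,1)]) (.cons (.leaf 1 [(0,1),(3,2),(10,1)]) (.cons (.leaf 1 [(10,2),(9,1),(6,2)]) (.cons (.leaf 1 [(0,2),(9,1),(10,2)]) .nil)))))))) .nil)))))))) .nil)))))))) .nil)))))))) (.cons (.keep [0,2,4,6,8,9] (.node (.cons (.leaf 1 [(3,1),(11,2)]) (.cons (.keep [0,3,7,8,11] (.node (.cons (.leaf 1 [(3,2),(8,1),(9,1)]) (.cons (.leaf 1 [(7,1),(3,2),(10,2),(9,2)]) (.cons (.leaf 1 [(8,1),(1,1),(3,2)]) (.cons (.leaf 1 [(3,2),(10,2),(7,1)]) (.cons (.leaf 1 [(8,1),(9,1)]) (.cons (.keep [0,7,8,9,10] (.node (.cons (.leaf 1 [(3,2),(9,2),(7,1)]) (.cons (.leaf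 1 [(3,1),(10,1)]) (.cons (.leaf 1 [(9,1),(3,2)]) (.cons (.leaf 1 [(8,1),(3,2),(9,1)]) (.cons (.leaf 1 [(9,2),(7,1)]) (.cons (.keep [0,6,7,8,9,10] (.node (.cons (.leaf 1 [(3,1),(2,1)]) (.cons (.leaf 1 [(3,1),(10,1)]) (.cons (.leaf 1 [(8,1),(3,2)]) (.cons (.leaf 1 [(8,1),(3,2),(10,2)]) (.cons (.leaf 1 [(8,1)]) (.cons (.leaf 1 [(11,2),(8,1),(10,2),(0,2)]) .nil)))))))) .nil)))))))) .nil)))))))) (.cons (.leaf 1 [(11,2),(3,1),(1,1)]) (.cons (.keep [0,1,3,8,11] (.node (.cons (.leaf 1 [(3,2),(7,1),(9,1)]) (.cons (.leaf 1 [(3,2),(7,1),(10,2),(9,1)]) (.cons (.leaf 1 [(7,1),(1,1),(3,2)]) (.cons (.leaf 1 [(7,1),(3,2),(10,2),(8,1)]) (.cons (.leaf 1 [(7,1),(9,1)]) (.cons (.keep [0,7,8,9,10] (.node (.cons (.leaf 1 [(3,1),(2,1),(10,1)]) (.cons (.leaf 1 [(3,1),(7,1),(10,1)]) (.cons (.leaf 1 [(9,1),(3,2)])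 (.cons (.leaf 1 [(7,1),(3,2),(9,1)]) (.cons (.leaf 1 [(9,2),(10,1),(6,1)]) (.cons (.keep [0,6,7,9,10] (.node (.cons (.leaf 1 [(3,1),(2,1)]) (.cons (.leaf 1 [(3,1),(9,1)]) (.cons (.leaf 1 [(10,1),(3,2),(6,1)]) (.cons (.leaf 1 [(10,1),(3,2),(9,1),(0,1)]) (.cons (.leaf 1 [(6,1),(10,1)]) (.cons (.leaf 1 [(8,1),(10,2),(9,1),(0,2)]) .nil)))))))) .nil)))))))) .nil)))))))) (.cons (.leaf 1 [(11,2),(1,1)]) (.cons (.keep [0,2,7,11] (.node (.cons (.leaf 1 [(3,2),(8,1),(7,1)]) (.cons (.leaf 1 [(3,2),(8,1),(9,2),(7,3)]) (.cons (.leaf 1 [(8,1),(1,1),(3,2)]) (.cons (.leaf 1 [(8,1),(1,1),(9,2),(3,2)]) (.cons (.leaf 1 [(8,1),(7,1)]) (.cons (.keep [0,7,8,9] (.node (.cons (.leaf 2 [(3,3),(7,2),(9,1)]) (.cons (.leaf 1 [(3,1),(8,1),(9,1),(7,1)]) (.cons (.leaf 1 [(7,1),(3,2)]) (.cons (.leaf 1 [(8,1),(3,2),(7,1)])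 (.cons (.leaf 1 [(7,3),(9,1),(6,1)]) (.cons (.keep [0,6,7,8,9] (.node (.cons (.leaf 1 [(3,1),(2,1)]) (.cons (.leaf 1 [(3,1),(8,1)]) (.cons (.leaf 1 [(10,1),(3,2),(6,1)]) (.cons (.leaf 1 [(10,1),(3,2),(8,2),(0,1)]) (.cons (.leaf 1 [(10,1),(6,1),(2,1)]) (.cons (.leaf 1 [(9,1),(10,2),(8,3),(0,2)]) .nil)))))))) .nil)))))))) .nil)))))))) .nil)))))))) .nil)))))))

theorem c_14_24_8 : Concl 14 24 z_14_24_8 h_14_24_8 .nd := piece _ hP_nil t_14_24_8 _ _ (by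
  decide +kernel)

end Pool.Agent.H4.RD4.E37
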