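import Pool.Agent.H4.RD4.Chk

/-! # Certificates for special cases of order four -/

set_option maxRecDepth 20000

namespace Pool.Agent.H4.RD4.E39

open Pool.Agent.H50.Rdb
open Pool.Agent.H81.RDE (ESB caseOf)

def z_14_28_0 : F := ⟨-1, 0, 0, 0, 2⟩

def h_14_28_0 : List F := [⟨-1, 1, 0, 0, 0⟩, ⟨0, 1, 0, -1, 0⟩, ⟨-1, 0, 0, 0, 1⟩, ⟨1, -1, 0, 0, 0⟩,
  ⟨1, 0, -1, 0, 0⟩]

def t_14_28_0 : T := (.node (.cons (.leaf 1 [(2,1)]) (.cons (.leaf 1 [(3,1)]) (.cons (.keep [3,7,9,10,11] (.node (.cons (.leaf 1 [(5,1),(7,1)]) (.cons (.leaf 1 [(3,1),(10,1)]) (.cons (.leaf 1 [(3,1),(11,1),(8,1)]) (.cons (.leaf 1 [(3,1),(7,1)]) (.cons (.leaf 1 [(3,1),(7,1)]) (.cons (.leaf 1 [(3,1),(7,1)]) (.cons (.leaf 1 [(5,1),(7,1)]) (.cons (.leaf 1 [(10,1)]) (.cons (.keep [7,8,9,10,11] (.node (.cons (.leaf 1 [(7,1),(2,1)])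 (.cons (.leaf 1 [(7,1),(2,1)]) (.cons (.leaf 1 [(7,1),(2,1)]) (.cons (.leaf 1 [(3,1),(10,1)]) (.cons (.leaf 1 [(3,1),(10,1)]) (.cons (.leaf 1 [(3,1),(10,1)]) (.cons (.leaf 1 [(5,1),(10,1)]) (.cons (.leaf 1 [(11,1)]) (.cons (.leaf 1 [(0,1),(11,1)]) .nil))))))))))) .nil))))))))))) (.cons (.leaf 1 []) (.cons (.leaf 1 [(3,1)]) (.cons (.keep [1,4,7,8,11] (.node (.cons (.leaf 1 [(3,1)]) (.cons (.leaf 1 [(3,1)]) (.cons (.leaf 1 [(3,1)]) (.cons (.leaf 1 [(7,1),(3,1),(10,1)]) (.cons (.leaf 1 [(7,1),(3,1),(10,1)]) (.cons (.leaf 1 [(10,1),(3,1),(7,1)]) (.cons (.leaf 1 [(10,1),(7,1),(5,1)]) (.cons (.leaf 1 [(7,1),(11,1)]) (.cons (.keep [5,7,9,10,11] (.node (.cons (.leaf 1 [(2,2),(10,1),(7,1)]) (.cons (.leaf 1 [(2,2),(10,1)]) (.cons (.leaf 1 [(2,1),(8,1),(10,1)]) (.cons (.leaf 1 [(11,1)]) (.cons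 (.leaf 1 [(3,1),(11,1)]) (.cons (.leaf 1 [(3,1),(8,1),(11,1)]) (.cons (.leaf 1 [(11,1),(2,1)]) (.cons (.leaf 1 [(11,1)]) (.cons (.leaf 1 [(11,1),(8,1),(0,1)]) .nil))))))))))) .nil))))))))))) (.cons (.leaf 1 [(2,1)]) (.cons (.leaf 1 []) (.cons (.keep [1,5,7,8,10,11] (.node (.cons (.leaf 1 [(5,1)]) (.cons (.leaf 1 [(3,1),(11,1)]) (.cons (.leaf 1 [(3,1),(9,1),(12,1),(7,1)]) (.cons (.leaf 1 [(3,1)]) (.cons (.leaf 1 [(3,1)]) (.cons (.leaf 1 [(3,1)]) (.cons (.leaf 1 [(5,1)]) (.cons (.leaf 1 [(11,1)]) (.cons (.keep [0,5,7,9,11,12] (.node (.cons (.leaf 1 [(2,1)]) (.cons (.leaf 1 [(2,1)]) (.cons (.leaf 1 [(2,1)]) (.cons (.leaf 1 [(3,1),(11,1)]) (.cons (.leaf 1 [(3,1),(11,1)]) (.cons (.leaf 1 [(3,1),(11,1)]) (.cons (.leaf 1 [(5,1),(11,1)]) (.cons (.leaf 1 [(12,1)]) (.cons (.leaf 1 [(0,1),(9,1),(12,1)])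 .nil))))))))))) .nil))))))))))) .nil))))))))))

theorem c_14_28_0 : Concl 14 28 z_14_28_0 h_14_28_0 .nd := piece _ hP_nil t_14_28_0 _ _ (by
  decide +kernel)

def z_14_28_1 : F := ⟨-1, 0, 0, 0, 2⟩

def h_14_28_1 : List F := [⟨1, 0, -1, 0, 0⟩, ⟨0, -1, 1, 0, 0⟩, ⟨0, 0, 1, -1, 0⟩, ⟨0, 0, -1, 0, 1⟩,
  ⟨-1, 0, 1, 0, 2⟩]

def t_14_28_1 : T := (.node (.cons (.leaf 1 [(2,1)]) (.cons (.leaf 1 [(3,1)]) (.cons (.keep [2,7,8,9,10,11] (.node (.cons (.leaf 1 [(3,1),(7,1)]) (.cons (.leaf 1 [(3,1),(7,1)]) (.cons (.leaf 1 [(3,1),(7,1)]) (.cons (.leaf 1 [(9,1),(8,1)]) (.cons (.leaf 1 [(9,1),(3,1),(8,1)]) (.cons (.leaf 1 [(10,1),(3,1),(7,1)]) (.cons (.leaf 1 [(9,1),(8,1),(2,1)]) (.cons (.leaf 1 [(9,1),(8,1)]) (.cons (.keep [7,8,9,10,11,12] (.node (.cons (.leaf 1 [(8,1),(2,1)]) (.cons (.leaf 1 [(3,1),(8,1)])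 (.cons (.leaf 1 [(3,1),(0,1),(8,1)]) (.cons (.leaf 1 [(8,1)]) (.cons (.leaf 1 [(3,1),(8,1)]) (.cons (.leaf 1 [(3,1),(0,1),(8,1)]) (.cons (.leaf 1 [(8,1),(2,1)]) (.cons (.leaf 1 [(8,1)]) (.cons (.leaf 1 [(0,1),(8,1)]) .nil))))))))))) .nil))))))))))) (.cons (.leaf 1 []) (.cons (.leaf 1 [(3,1)]) (.cons (.keep [1,3,4,7,11] (.node (.cons (.leaf 1 [(3,1)]) (.cons (.leaf 1 [(3,1)]) (.cons (.leaf 1 [(3,1)]) (.cons (.leaf 1 [(8,1),(3,1)]) (.cons (.leaf 1 [(8,1),(3,1)]) (.cons (.leaf 1 [(8,1),(3,1)]) (.cons (.leaf 1 [(8,1),(5,1)]) (.cons (.leaf 1 [(7,1),(10,1)]) (.cons (.keep [0,5,7,8,10,11] (.node (.cons (.leaf 1 [(2,1),(10,1)]) (.cons (.leaf 1 [(2,1),(10,1)]) (.cons (.leaf 1 [(2,1),(10,1)]) (.cons (.leaf 1 [(11,1)]) (.cons (.leaf 1 [(3,1),(11,1)]) (.cons (.leaf 1 [(3,1),(9,1),(11,1)])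 (.cons (.leaf 1 [(11,1),(2,1)]) (.cons (.leaf 1 [(11,1)]) (.cons (.leaf 1 [(11,1),(9,1),(0,1)]) .nil))))))))))) .nil))))))))))) (.cons (.leaf 1 [(2,1)]) (.cons (.leaf 1 []) (.cons (.keep [2,7,8,9,10,11] (.node (.cons (.leaf 1 [(5,1)]) (.cons (.leaf 1 [(3,1),(7,1)]) (.cons (.leaf 1 [(3,1),(7,1)]) (.cons (.leaf 1 [(3,1)]) (.cons (.leaf 1 [(3,1)]) (.cons (.leaf 1 [(3,1)]) (.cons (.leaf 1 [(5,1)]) (.cons (.leaf 1 [(9,1),(8,1)]) (.cons (.keep [0,7,8,9,11,12] (.node (.cons (.leaf 1 [(2,1)]) (.cons (.leaf 1 [(2,1)]) (.cons (.leaf 1 [(2,1)]) (.cons (.leaf 1 [(9,1)]) (.cons (.leaf 1 [(3,1),(9,1)]) (.cons (.leaf 1 [(3,1),(10,1),(9,1)]) (.cons (.leaf 1 [(9,1),(2,1)]) (.cons (.leaf 1 [(9,1)]) (.cons (.leaf 1 [(8,1),(0,1),(10,1),(9,1)]) .nil))))))))))) .nil))))))))))) .nil))))))))))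

theorem c_14_28_1 : Concl 14 28 z_14_28_1 h_14_28_1 .nd := piece _ hP_nil t_14_28_1 _ _ (by
  decide +kernel)

def z_14_28_2 : F := ⟨0, -1, 0, 0, 2⟩

def h_14_28_2 : List F := [⟨1, 0, -1, 0, 0⟩, ⟨0, -1, 1, 0, 0⟩, ⟨0, 0, 1, -1, 0⟩, ⟨1, -1, -1, 0,
  1⟩, ⟨0, 1, -1, 0, 0⟩, ⟨-1, 0, 1, 0, 2⟩]

def t_14_28_2 : T := (.node (.cons (.leaf 1 [(2,2),(12,1)]) (.cons (.leaf 1 [(3,1),(12,1),(2,1)]) (.cons (.keep [2,7,8,9,10,12] (.node (.cons (.leaf 1 [(2,1)]) (.cons (.leaf 1 [(3,1)]) (.cons (.leaf 1 [(3,1),(12,1),(7,2)]) (.cons (.leaf 1 []) (.cons (.leaf 1 [(3,1)]) (.cons (.leaf 1 [(3,1),(7,2),(12,1),(10,1)]) (.cons (.leaf 1 [(2,1)]) (.cons (.leaf 1 []) (.cons (.keep [7,8,9,10,11,12] (.node (.cons (.leaf 1 [(5,1)]) (.cons (.leaf 1 [(3,1),(7,1)]) (.cons (.leaf 2 [(3,1),(12,1),(10,1),(7,2)]) (.cons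 (.leaf 1 [(3,1)]) (.cons (.leaf 1 [(3,1)]) (.cons (.leaf 1 [(3,1)]) (.cons (.leaf 1 [(5,1)]) (.cons (.leaf 1 [(7,1)]) (.cons (.leaf 1 [(12,1),(0,1),(7,2)]) .nil))))))))))) .nil))))))))))) (.cons (.leaf 1 [(11,1),(12,1)]) (.cons (.leaf 1 [(11,1),(3,1),(12,1)]) (.cons (.keep [1,3,4,7,11,12] (.node (.cons (.leaf 1 [(2,1)]) (.cons (.leaf 1 [(3,1)]) (.cons (.leaf 1 [(3,1),(12,1),(11,1)]) (.cons (.leaf 1 []) (.cons (.leaf 1 [(3,1)]) (.cons (.leaf 1 [(3,1),(11,1),(12,1),(8,1)]) (.cons (.leaf 1 [(2,1)]) (.cons (.leaf 1 []) (.cons (.keep [0,5,7,8,11,12] (.node (.cons (.leaf 1 [(5,1)]) (.cons (.leaf 1 [(3,1),(11,1)]) (.cons (.leaf 2 [(3,1),(12,1),(10,1),(11,1)]) (.cons (.leaf 1 [(3,1)]) (.cons (.leaf 1 [(3,1)]) (.cons (.leaf 1 [(3,1)]) (.cons (.leaf 1 [(5,1)]) (.cons (.leaf 1 [(11,1)]) (.cons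 (.leaf 1 [(12,1),(0,1),(11,1)]) .nil))))))))))) .nil))))))))))) (.cons (.leaf 1 [(11,1),(12,1),(2,1)]) (.cons (.leaf 1 [(11,1),(12,1)]) (.cons (.keep [2,7,8,9,10,11,12] (.node (.cons (.leaf 1 [(2,1)]) (.cons (.leaf 1 [(3,1)]) (.cons (.leaf 1 [(3,1),(7,1),(13,1),(12,1)]) (.cons (.leaf 1 []) (.cons (.leaf 1 [(3,1)]) (.cons (.leaf 1 [(3,1),(12,1),(13,1)]) (.cons (.leaf 1 [(2,1)]) (.cons (.leaf 1 []) (.cons (.keep [7,8,9,10,11,12,13] (.node (.cons (.leaf 1 [(5,1)]) (.cons (.leaf 1 [(3,1),(12,1)]) (.cons (.leaf 2 [(3,1),(13,1),(12,1)]) (.cons (.leaf 1 [(3,1)]) (.cons (.leaf 1 [(3,1)]) (.cons (.leaf 1 [(3,1)]) (.cons (.leaf 1 [(5,1)]) (.cons (.leaf 1 [(12,1)]) (.cons (.leaf 1 [(7,1),(13,1),(0,1),(12,1)]) .nil))))))))))) .nil))))))))))) .nil))))))))))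

theorem c_14_28_2 : Concl 14 28 z_14_28_2 h_14_28_2 .nd := piece _ hP_nil t_14_28_2 _ _ (by
  decide +kernel)

def z_14_28_3 : F := ⟨0, -1, 0, 0, 2⟩

def h_14_28_3 : List F := [⟨0, -1, 1, 0, 0⟩, ⟨0, 0, -1, 1, 0⟩, ⟨0, -1, 1, -1, 1⟩, ⟨-1, 1, 0, 0,
  0⟩, ⟨0, 1, -1, 0, 0⟩]

def t_14_28_3 : T := (.node (.cons (.leaf 1 [(2,1),(10,1)]) (.cons (.leaf 1 [(3,1),(10,1)]) (.cons (.keep [0,3,7,8,10] (.node (.cons (.leaf 1 [(2,1)]) (.cons (.leaf 1 [(3,1)]) (.cons (.leaf 1 [(8,1),(3,1),(11,1),(10,1)]) (.cons (.leaf 1 []) (.cons (.leaf 1 [(3,1)]) (.cons (.leaf 1 [(3,1),(11,1),(8,1)]) (.cons (.leaf 1 [(2,1)]) (.cons (.leaf 1 []) (.cons (.keep [0,7,8,9,10,11] (.node (.cons (.leaf 1 [(5,1)]) (.cons (.leaf 1 [(3,1),(11,1),(9,1)]) (.cons (.leaf 2 [(3,1),(12,1),(9,1)]) (.cons (.leaf 1 [(3,1)]) (.cons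 (.leaf 1 [(3,1)]) (.cons (.leaf 1 [(3,1)]) (.cons (.leaf 1 [(5,1)]) (.cons (.leaf 1 [(11,1),(9,1)]) (.cons (.leaf 1 [(12,1),(9,1),(0,1),(11,1)]) .nil))))))))))) .nil))))))))))) (.cons (.leaf 1 [(10,1)]) (.cons (.leaf 1 [(3,1),(10,1)]) (.cons (.keep [0,1,3,8,10,11] (.node (.cons (.leaf 1 [(2,1)]) (.cons (.leaf 1 [(3,1)]) (.cons (.leaf 1 [(3,1),(11,1)]) (.cons (.leaf 1 []) (.cons (.leaf 1 [(3,1)]) (.cons (.leaf 1 [(9,1),(3,1),(11,1)]) (.cons (.leaf 1 [(2,1)]) (.cons (.leaf 1 []) (.cons (.keep [0,7,8,9,10,11] (.node (.cons (.leaf 1 [(5,1)]) (.cons (.leaf 2 [(3,1),(12,1),(10,1)]) (.cons (.leaf 2 [(3,1),(10,1),(12,1)]) (.cons (.leaf 1 [(3,1)]) (.cons (.leaf 1 [(3,1)]) (.cons (.leaf 1 [(3,1)]) (.cons (.leaf 1 [(5,1)]) (.cons (.leaf 1 [(12,1),(7,1)]) (.cons (.leaf 1 [(0,1),(12,1)]) .nil)))))))))))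 .nil))))))))))) (.cons (.leaf 1 [(2,1),(10,1)]) (.cons (.leaf 1 [(10,1)]) (.cons (.keep [0,2,7,10,11] (.node (.cons (.leaf 1 [(2,1)]) (.cons (.leaf 1 [(3,1)]) (.cons (.leaf 1 [(3,1),(8,1),(10,1)]) (.cons (.leaf 1 []) (.cons (.leaf 1 [(3,1)]) (.cons (.leaf 1 [(3,1),(10,1)]) (.cons (.leaf 1 [(2,1)]) (.cons (.leaf 1 []) (.cons (.keep [0,7,8,9,10] (.node (.cons (.leaf 1 [(5,1)]) (.cons (.leaf 2 [(3,1),(11,1)]) (.cons (.leaf 2 [(3,1),(11,1)]) (.cons (.leaf 1 [(3,1)]) (.cons (.leaf 1 [(3,1)]) (.cons (.leaf 1 [(3,1)]) (.cons (.leaf 1 [(5,1)]) (.cons (.leaf 1 [(9,1),(11,1),(7,1)]) (.cons (.leaf 1 [(0,1),(11,1),(9,1)]) .nil))))))))))) .nil))))))))))) .nil))))))))))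

theorem c_14_28_3 : Concl 14 28 z_14_28_3 h_14_28_3 .nd := piece _ hP_nil t_14_28_3 _ _ (by
  decide +kernel)

def z_14_28_4 : F := ⟨0, 0, -1, 0, 2⟩

def h_14_28_4 : List F := [⟨1, 0, -1, 0, 0⟩, ⟨0, 1, 0, -1, 0⟩, ⟨1, -2, 0, 0, 1⟩, ⟨0, -1, 1, 0, 0⟩,
  ⟨-1, 1, 0, 0, 2⟩]

def t_14_28_4 : T := (.node (.cons (.leaf 1 [(11,1)]) (.cons (.leaf 1 [(3,1),(10,1),(11,1)]) (.cons (.keep [3,7,9,10,11] (.node (.cons (.leaf 1 [(2,1),(10,1)]) (.cons (.leaf 1 [(3,1),(10,1)]) (.cons (.leaf 1 [(3,1),(11,1)]) (.cons (.leaf 1 [(10,1)]) (.cons (.leaf 1 [(3,1),(10,1)]) (.cons (.leaf 1 [(7,1),(3,1),(11,1),(10,1)]) (.cons (.leaf 1 [(2,1),(10,1)]) (.cons (.leaf 1 [(10,1)]) (.cons (.keep [0,7,9,10,11] (.node (.cons (.leaf 1 [(2,1)]) (.cons (.leaf 1 [(3,1)]) (.cons (.leaf 2 [(3,1),(11,1),(10,2),(8,1)]) (.cons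 (.leaf 1 []) (.cons (.leaf 1 [(3,1)]) (.cons (.leaf 1 [(3,1),(10,1)]) (.cons (.leaf 1 [(2,1)]) (.cons (.leaf 1 []) (.cons (.leaf 1 [(11,1),(10,1),(0,1)]) .nil))))))))))) .nil))))))))))) (.cons (.leaf 1 [(11,1),(1,1)]) (.cons (.leaf 1 [(11,1),(3,1),(1,1)]) (.cons (.keep [1,7,8,9,11] (.node (.cons (.leaf 1 [(2,1),(7,1)]) (.cons (.leaf 1 [(3,1),(7,1)]) (.cons (.leaf 1 [(3,1),(11,1),(7,1)]) (.cons (.leaf 1 [(7,1)]) (.cons (.leaf 1 [(3,1),(7,1)]) (.cons (.leaf 1 [(9,1),(3,1),(11,1),(7,2)]) (.cons (.leaf 1 [(2,1),(7,1)]) (.cons (.leaf 1 [(7,1)]) (.cons (.keep [7,8,9,10,11] (.node (.cons (.leaf 1 [(2,1)]) (.cons (.leaf 1 [(3,1)]) (.cons (.leaf 2 [(3,1),(11,1),(7,3),(9,1)]) (.cons (.leaf 1 []) (.cons (.leaf 1 [(3,1)]) (.cons (.leaf 1 [(3,1),(7,1)]) (.cons (.leaf 1 [(2,1)]) (.cons (.leaf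 1 []) (.cons (.leaf 1 [(11,1),(7,2),(0,1)]) .nil))))))))))) .nil))))))))))) (.cons (.leaf 1 [(11,1),(1,1)]) (.cons (.leaf 1 [(11,1),(10,1)]) (.cons (.keep [2,7,8,9,10,11] (.node (.cons (.leaf 1 [(2,1),(11,1)]) (.cons (.leaf 1 [(3,1),(11,1)]) (.cons (.leaf 1 [(3,1),(7,1),(12,1),(11,1)]) (.cons (.leaf 1 [(11,1)]) (.cons (.leaf 1 [(3,1),(11,1)]) (.cons (.leaf 1 [(3,1),(12,1),(11,1)]) (.cons (.leaf 1 [(2,1),(11,1)]) (.cons (.leaf 1 [(11,1)]) (.cons (.keep [7,8,9,10,11,12] (.node (.cons (.leaf 1 [(2,1)]) (.cons (.leaf 1 [(3,1)]) (.cons (.leaf 2 [(3,1),(11,2),(12,1)]) (.cons (.leaf 1 []) (.cons (.leaf 1 [(3,1)]) (.cons (.leaf 1 [(3,1),(11,1)]) (.cons (.leaf 1 [(2,1)]) (.cons (.leaf 1 []) (.cons (.leaf 1 [(7,1),(12,1),(11,2),(0,1)]) .nil))))))))))) .nil))))))))))) .nil))))))))))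

theorem c_14_28_4 : Concl 14 28 z_14_28_4 h_14_28_4 .nd := piece _ hP_nil t_14_28_4 _ _ (by
  decide +kernel)

def z_14_28_5 : F := ⟨0, 0, -1, 0, 2⟩

def h_14_28_5 : List F := [⟨0, 1, -1, 0, 0⟩, ⟨0, 0, -1, 1, 0⟩, ⟨0, 0, 0, -1, 1⟩, ⟨-1, 0, 1, 0, 0⟩,
  ⟨0, -1, 1, 0, 0⟩]

def t_14_28_5 : T := (.node (.cons (.leaf 1 [(2,1),(10,1)]) (.cons (.leaf 1 [(3,1),(10,1)]) (.cons (.keep [0,3,8,10,11] (.node (.cons (.leaf 2 [(3,1),(10,1),(2,1)]) (.cons (.leaf 2 [(3,2),(10,1)]) (.cons (.leaf 1 [(8,1),(9,1),(10,1),(3,1)]) (.cons (.leaf 1 [(8,1),(3,1),(10,1)]) (.cons (.leaf 1 [(8,1),(3,1),(10,1)]) (.cons (.leaf 1 [(8,1),(10,1),(3,1)]) (.cons (.leaf 1 [(5,1),(10,1),(8,1)]) (.cons (.leaf 1 [(11,1)]) (.cons (.keep [0,7,8,9,10,11] (.node (.cons (.leaf 1 [(2,1)]) (.cons (.leaf 1 [(3,1)]) (.cons (.leaf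 1 [(3,1),(11,1),(0,1)]) (.cons (.leaf 1 []) (.cons (.leaf 1 [(3,1)]) (.cons (.leaf 1 [(3,1),(11,1),(0,1)]) (.cons (.leaf 1 [(2,1)]) (.cons (.leaf 1 []) (.cons (.leaf 1 [(11,1),(0,1)]) .nil))))))))))) .nil))))))))))) (.cons (.leaf 1 [(10,1)]) (.cons (.leaf 1 [(3,1),(10,1)]) (.cons (.keep [0,1,3,7,8,10] (.node (.cons (.leaf 1 [(2,1),(8,1)]) (.cons (.leaf 1 [(3,1),(8,1)]) (.cons (.leaf 1 [(3,1),(12,1)]) (.cons (.leaf 1 [(8,1)]) (.cons (.leaf 1 [(3,1),(8,1)]) (.cons (.leaf 1 [(9,1),(3,1),(12,1)]) (.cons (.leaf 1 [(2,1),(8,1)]) (.cons (.leaf 1 [(8,1)]) (.cons (.keep [0,7,8,9,11,12] (.node (.cons (.leaf 1 [(2,1)]) (.cons (.leaf 1 [(3,1)]) (.cons (.leaf 2 [(3,1),(12,1),(9,1),(10,1)]) (.cons (.leaf 1 []) (.cons (.leaf 1 [(3,1)]) (.cons (.leaf 1 [(3,1),(9,1)]) (.cons (.leaf 1 [(2,1)]) (.cons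 (.leaf 1 []) (.cons (.leaf 1 [(12,1),(9,1),(0,1)]) .nil))))))))))) .nil))))))))))) (.cons (.leaf 1 [(10,1),(2,1)]) (.cons (.leaf 1 [(10,1)]) (.cons (.keep [0,2,7,10,11] (.node (.cons (.leaf 1 [(5,1),(10,1)]) (.cons (.leaf 1 [(3,1),(8,1),(10,1)]) (.cons (.leaf 1 [(3,1),(8,1),(10,1)]) (.cons (.leaf 1 [(3,1),(10,1)]) (.cons (.leaf 1 [(3,1),(10,1)]) (.cons (.leaf 1 [(3,1),(10,1)]) (.cons (.leaf 1 [(5,1),(10,1)]) (.cons (.leaf 1 [(11,1)]) (.cons (.keep [0,7,8,10,11] (.node (.cons (.leaf 1 [(2,1)]) (.cons (.leaf 1 [(3,1)]) (.cons (.leaf 1 [(2,1),(10,1)]) (.cons (.leaf 1 []) (.cons (.leaf 1 [(3,1)]) (.cons (.leaf 1 [(3,1),(11,1)]) (.cons (.leaf 1 [(2,1)]) (.cons (.leaf 1 []) (.cons (.leaf 1 [(9,1),(10,1),(11,1),(0,1)]) .nil))))))))))) .nil))))))))))) .nil))))))))))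

theorem c_14_28_5 : Concl 14 28 z_14_28_5 h_14_28_5 .nd := piece _ hP_nil t_14_28_5 _ _ (by
  decide +kernel)

def z_14_28_9 : F := ⟨1, -1, 0, -1, 2⟩

def h_14_28_9 : List F := [⟨1, -1, 0, 0, 0⟩, ⟨0, -1, 0, 1, 0⟩, ⟨1, -1, 0, -1, 1⟩, ⟨-1, 1, 0, 0,
  0⟩, ⟨0, 1, -1, 0, 0⟩]

def t_14_28_9 : T := (.node (.cons (.leaf 1 [(2,1),(10,2),(8,1)]) (.cons (.leaf 1 [(10,2)]) (.cons (.keep [2,3,7,8,9,10] (.node (.cons (.leaf 1 [(2,1),(10,1),(12,1)]) (.cons (.leaf 1 [(3,1),(10,2),(2,1)]) (.cons (.leaf 1 [(3,1),(7,1),(12,2),(10,1)]) (.cons (.leaf 1 [(10,1),(12,1)]) (.cons (.leaf 1 [(3,1),(10,2)]) (.cons (.leaf 1 [(3,1),(12,2)]) (.cons (.leaf 1 [(10,2),(2,3)]) (.cons (.leaf 1 [(10,2),(2,1)]) (.cons (.keep [7,8,9,10,11,12] (.node (.cons (.leaf 1 [(5,1),(7,1),(10,2)]) (.cons (.leaf 1 [(3,2),(7,3),(10,2)])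 (.cons (.leaf 2 [(3,1),(12,3),(10,1)]) (.cons (.leaf 1 [(3,2),(1,1),(10,2)]) (.cons (.leaf 1 [(3,2),(1,1),(10,2)]) (.cons (.leaf 1 [(3,2),(1,1),(10,2)]) (.cons (.leaf 1 [(5,3),(1,1),(10,2)]) (.cons (.leaf 1 [(7,3),(1,1),(10,2)]) (.cons (.leaf 1 [(0,1),(12,3),(10,2),(7,1)]) .nil))))))))))) .nil))))))))))) (.cons (.leaf 1 [(10,2),(8,1)]) (.cons (.leaf 1 [(10,2),(1,1)]) (.cons (.keep [3,7,8,9,10,11] (.node (.cons (.leaf 1 [(2,1),(9,1),(11,1)]) (.cons (.leaf 1 [(3,1),(9,1)]) (.cons (.leaf 1 [(3,1),(9,1),(11,2)]) (.cons (.leaf 1 [(11,1),(9,1)]) (.cons (.leaf 1 [(1,1),(3,1),(9,1)]) (.cons (.leaf 1 [(11,2),(9,1),(7,1),(3,1)]) (.cons (.leaf 1 [(1,1),(9,1),(2,2)]) (.cons (.leaf 1 [(1,1),(9,1)]) (.cons (.keep [7,8,9,10,11,12] (.node (.cons (.leaf 1 [(9,1),(11,1),(5,1)]) (.cons (.leaf 1 [(2,2),(11,2)])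 (.cons (.leaf 1 [(9,2),(0,1),(3,1),(11,3)]) (.cons (.leaf 1 [(9,2),(1,1),(3,3)]) (.cons (.leaf 1 [(3,2),(1,1),(9,2)]) (.cons (.leaf 1 [(9,2),(3,3),(4,1),(1,1)]) (.cons (.leaf 1 [(9,2),(1,1),(5,5)]) (.cons (.leaf 1 [(9,1),(11,1),(12,1)]) (.cons (.leaf 1 [(9,2),(0,1),(11,3)]) .nil))))))))))) .nil))))))))))) (.cons (.leaf 1 [(10,2),(1,1),(2,1)]) (.cons (.leaf 1 [(10,2),(1,1)]) (.cons (.keep [0,1,7,10,11] (.node (.cons (.leaf 1 [(2,1),(10,1),(8,1)]) (.cons (.leaf 1 [(3,1),(8,1),(2,1)]) (.cons (.leaf 1 [(10,2),(3,1),(8,2),(11,1)]) (.cons (.leaf 1 [(8,1),(10,1)]) (.cons (.leaf 1 [(3,1),(8,1)]) (.cons (.leaf 1 [(8,1),(10,2),(3,1)]) (.cons (.leaf 1 [(2,3),(8,1)]) (.cons (.leaf 1 [(8,1),(2,1)]) (.cons (.keep [0,7,8,10,11] (.node (.cons (.leaf 1 [(9,1),(10,1),(5,1)]) (.cons (.leaf 2 [(3,1),(9,2),(10,3)])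 (.cons (.leaf 2 [(3,1),(9,2),(10,3)]) (.cons (.leaf 1 [(9,1),(1,1),(3,2)]) (.cons (.leaf 1 [(9,1),(1,1),(3,2)]) (.cons (.leaf 1 [(9,1),(1,1),(3,2)]) (.cons (.leaf 1 [(9,1),(1,1),(5,3)]) (.cons (.leaf 1 [(9,1),(10,1),(11,1)]) (.cons (.leaf 1 [(9,3),(10,3),(0,1),(11,1)]) .nil))))))))))) .nil))))))))))) .nil))))))))))

theorem c_14_28_9 : Concl 14 28 z_14_28_9 h_14_28_9 .nd := piece _ hP_nil t_14_28_9 _ _ (by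
  decide +kernel)

def z_14_28_10 : F := ⟨1, -1, -1, 0, 2⟩

def h_14_28_10 : List F := [⟨1, 0, -1, 0, 0⟩, ⟨0, -1, 1, 0, 0⟩, ⟨0, 0, 1, -1, 0⟩, ⟨-1, 1, 0, 0,
  0⟩, ⟨0, -1, 0, 0, 1⟩]

def t_14_28_10 : T := (.node (.cons (.leaf 1 [(10,2)]) (.cons (.leaf 1 [(3,1),(8,1),(10,2)]) (.cons (.keep [7,8,9,10,11] (.node (.cons (.leaf 1 [(2,1),(8,1),(10,1)]) (.cons (.leaf 1 [(3,1),(8,2)]) (.cons (.leaf 1 [(3,1),(10,2)]) (.cons (.leaf 1 [(8,1),(10,1)]) (.cons (.leaf 1 [(8,2),(3,1),(1,1)]) (.cons (.leaf 1 [(9,1),(3,1),(10,2)]) (.cons (.leaf 1 [(2,2),(8,2),(1,1)]) (.cons (.leaf 1 [(8,2),(1,1)]) (.cons (.keep [5,7,8,9,10] (.node (.cons (.leaf 1 [(2,1),(11,1)]) (.cons (.leaf 1 [(3,1),(11,1)]) (.cons (.leaf 2 [(3,1),(11,3),(9,1),(10,1)]) (.cons (.leaf 1 [(11,1)]) (.cons (.leaf 1 [(11,1),(3,1)]) (.cons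 (.leaf 1 [(11,1),(9,1),(3,1)]) (.cons (.leaf 1 [(11,1),(2,1)]) (.cons (.leaf 1 [(11,1)]) (.cons (.leaf 1 [(11,3),(9,1),(0,1)]) .nil))))))))))) .nil))))))))))) (.cons (.leaf 1 [(10,2),(1,1)]) (.cons (.leaf 1 [(10,2),(3,1),(1,1)]) (.cons (.keep [1,3,7,10,11] (.node (.cons (.leaf 1 [(2,1),(10,1),(7,1)]) (.cons (.leaf 1 [(3,1),(7,1)]) (.cons (.leaf 1 [(7,1),(10,2),(3,1)]) (.cons (.leaf 1 [(7,1),(10,1)]) (.cons (.leaf 1 [(7,1),(3,1),(1,1)]) (.cons (.leaf 1 [(7,1),(10,2),(8,1),(3,1)]) (.cons (.leaf 1 [(7,1),(2,2),(1,1)]) (.cons (.leaf 1 [(7,1),(1,1)]) (.cons (.keep [0,5,7,8,10] (.node (.cons (.leaf 1 [(2,1),(11,1)]) (.cons (.leaf 1 [(3,1),(11,1)]) (.cons (.leaf 2 [(3,1),(9,2),(10,1),(11,3)]) (.cons (.leaf 1 [(11,1)]) (.cons (.leaf 1 [(11,1),(3,1)]) (.cons (.leaf 1 [(9,1),(3,1),(11,1)])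 (.cons (.leaf 1 [(2,1),(11,1)]) (.cons (.leaf 1 [(11,1)]) (.cons (.leaf 1 [(9,2),(0,1),(11,3)]) .nil))))))))))) .nil))))))))))) (.cons (.leaf 1 [(1,1),(10,2)]) (.cons (.leaf 1 [(10,2),(8,1)]) (.cons (.keep [2,7,8,9,10,11] (.node (.cons (.leaf 1 [(2,1),(11,1),(9,1)]) (.cons (.leaf 1 [(3,1),(2,1),(9,1)]) (.cons (.leaf 1 [(9,1),(11,2),(7,1),(3,1)]) (.cons (.leaf 1 [(9,1),(11,1)]) (.cons (.leaf 1 [(3,1),(9,1)]) (.cons (.leaf 1 [(9,1),(3,1),(11,2)]) (.cons (.leaf 1 [(9,1),(2,3)]) (.cons (.leaf 1 [(9,1),(2,1)]) (.cons (.keep [5,7,8,9,10,11] (.node (.cons (.leaf 1 [(5,1)]) (.cons (.leaf 1 [(3,1),(12,1)]) (.cons (.leaf 2 [(3,1),(12,3),(10,2)]) (.cons (.leaf 1 [(1,1),(3,1)]) (.cons (.leaf 1 [(1,1),(3,2)]) (.cons (.leaf 1 [(1,1),(10,1),(3,2)]) (.cons (.leaf 1 [(5,1),(1,1)]) (.cons (.leaf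 1 [(12,1)]) (.cons (.leaf 1 [(12,3),(8,1),(10,2),(0,1)]) .nil))))))))))) .nil))))))))))) .nil))))))))))

theorem c_14_28_10 : Concl 14 28 z_14_28_10 h_14_28_10 .nd := piece _ hP_nil t_14_28_10 _ _ (by
  decide +kernel)

def z_14_28_11 : F := ⟨0, 0, 0, -1, 2⟩

def h_14_28_11 : List F := [⟨0, 0, 0, -2, 2⟩, ⟨-1, 1, 0, 0, 0⟩, ⟨0, 1, -1, 0, 0⟩, ⟨0, -1, 0, 1,
  0⟩]

def t_14_28_11 : T := (.node (.cons (.leaf 1 [(2,1),(8,1),(10,1)]) (.cons (.leaf 1 [(8,1)]) (.cons (.keep [0,2,3,8,10] (.node (.cons (.leaf 1 [(5,1),(10,1)]) (.cons (.leaf 1 [(3,1),(11,1)]) (.cons (.leaf 1 [(3,1),(8,1),(10,1),(11,1)]) (.cons (.leaf 1 [(3,1),(10,1)]) (.cons (.leaf 1 [(3,1),(10,1)]) (.cons (.leaf 1 [(3,1),(10,1)]) (.cons (.leaf 1 [(5,1),(10,1)]) (.cons (.leaf 1 [(11,1)]) (.cons (.keep [0,7,8,10,11] (.node (.cons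 (.leaf 1 [(2,1),(10,1)]) (.cons (.leaf 1 [(2,1),(10,1)]) (.cons (.leaf 1 [(2,1),(10,1)]) (.cons (.leaf 1 [(3,1),(11,1)]) (.cons (.leaf 1 [(3,1),(11,1)]) (.cons (.leaf 1 [(3,1),(11,1)]) (.cons (.leaf 1 [(5,1),(11,1)]) (.cons (.leaf 1 [(9,1),(11,1)]) (.cons (.leaf 1 [(0,1),(10,1),(11,2),(9,1)]) .nil))))))))))) .nil))))))))))) (.cons (.leaf 1 [(8,1),(10,1)]) (.cons (.leaf 1 [(8,1),(1,1)]) (.cons (.keep [0,3,8,9,10] (.node (.cons (.leaf 1 [(2,1),(11,1)]) (.cons (.leaf 1 [(3,1),(11,1)]) (.cons (.leaf 1 [(3,1),(9,1),(11,1)]) (.cons (.leaf 1 [(11,1)]) (.cons (.leaf 1 [(3,1),(11,1)]) (.cons (.leaf 1 [(8,1),(3,1),(9,1),(11,1)]) (.cons (.leaf 1 [(11,1),(2,1)]) (.cons (.leaf 1 [(11,1)]) (.cons (.keep [0,7,8,9,11] (.node (.cons (.leaf 2 [(2,2),(10,1),(11,1)]) (.cons (.leaf 1 [(2,2),(10,1)])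 (.cons (.leaf 1 [(3,1),(10,1),(0,1),(11,2)]) (.cons (.leaf 1 [(3,1),(11,1)]) (.cons (.leaf 1 [(3,1),(11,1)]) (.cons (.leaf 1 [(3,1),(11,1)]) (.cons (.leaf 1 [(5,1),(11,1)]) (.cons (.leaf 1 [(7,1),(10,1),(11,2)]) (.cons (.leaf 1 [(0,1),(10,1),(11,2)]) .nil))))))))))) .nil))))))))))) (.cons (.leaf 1 [(8,1),(1,1),(2,1)]) (.cons (.leaf 1 [(8,1),(1,1)]) (.cons (.keep [0,1,8,9] (.node (.cons (.leaf 1 [(2,1),(8,1)]) (.cons (.leaf 1 [(3,1),(8,1)]) (.cons (.leaf 1 [(3,1),(10,1),(9,1),(8,2)]) (.cons (.leaf 1 [(8,1)]) (.cons (.leaf 1 [(3,1),(8,1)]) (.cons (.leaf 1 [(3,1),(9,1),(8,1)]) (.cons (.leaf 1 [(8,1),(2,1)]) (.cons (.leaf 1 [(8,1)]) (.cons (.keep [0,7,8,9,10] (.node (.cons (.leaf 1 [(5,1),(9,1)]) (.cons (.leaf 2 [(3,1),(10,1),(9,2)]) (.cons (.leaf 2 [(3,1),(10,1),(9,2)]) (.cons (.leaf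 1 [(3,1),(9,1)]) (.cons (.leaf 1 [(3,1),(9,1)]) (.cons (.leaf 1 [(3,1),(9,1)]) (.cons (.leaf 1 [(5,1),(9,1)]) (.cons (.leaf 1 [(11,1),(9,1)]) (.cons (.leaf 1 [(0,1),(10,1),(9,3),(11,1)]) .nil))))))))))) .nil))))))))))) .nil))))))))))

theorem c_14_28_11 : Concl 14 28 z_14_28_11 h_14_28_11 .nd := piece _ hP_nil t_14_28_11 _ _ (by
  decide +kernel)

def z_14_28_12 : F := ⟨1, 0, -1, -1, 2⟩

def h_14_28_12 : List F := [⟨1, 0, -1, 0, 0⟩, ⟨0, 0, -1, 1, 0⟩, ⟨0, 0, 0, -1, 1⟩, ⟨-1, 0, 1, 0,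
  0⟩, ⟨0, -1, 1, 0, 0⟩]

def t_14_28_12 : T := (.node (.cons (.leaf 1 [(10,2),(2,1),(8,1)]) (.cons (.leaf 1 [(10,2),(2,1)]) (.cons (.keep [3,7,8,9,10,11] (.node (.cons (.leaf 2 [(5,1),(11,3)]) (.cons (.leaf 2 [(3,2),(9,2),(11,3)]) (.cons (.leaf 1 [(3,1),(7,1),(11,2),(9,2)]) (.cons (.leaf 2 [(11,3),(3,1),(1,1)]) (.cons (.leaf 2 [(11,3),(3,2),(1,1)]) (.cons (.leaf 1 [(11,2),(7,1),(1,1),(3,1)]) (.cons (.leaf 2 [(11,3),(5,1),(1,1)]) (.cons (.leaf 1 [(11,1),(12,1),(9,1)]) (.cons (.keep [7,8,9,10,11,12] (.node (.cons (.leaf 1 [(9,1),(2,1),(11,1)]) (.cons (.leaf 1 [(3,2),(9,2)]) (.cons (.leaf 1 [(11,2),(5,1)]) (.cons (.leaf 1 [(9,1),(11,1)]) (.cons (.leaf 1 [(3,2),(1,1),(9,2)]) (.cons (.leaf 1 [(3,1),(11,3),(9,2),(0,1)]) (.cons (.leaf 1 [(9,2),(2,3),(1,1)]) (.cons (.leaf 1 [(9,2),(1,1)])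 (.cons (.leaf 1 [(9,2),(11,3),(0,1)]) .nil))))))))))) .nil))))))))))) (.cons (.leaf 1 [(10,2),(8,1)]) (.cons (.leaf 1 [(10,2)]) (.cons (.keep [1,3,7,8,9,10] (.node (.cons (.leaf 1 [(7,1),(12,1)]) (.cons (.leaf 1 [(3,1),(10,1),(7,2)]) (.cons (.leaf 1 [(3,1),(10,1),(12,2)]) (.cons (.leaf 1 [(7,1),(1,1),(12,1)]) (.cons (.leaf 1 [(7,2),(3,1),(1,2)]) (.cons (.leaf 1 [(3,1),(12,2)]) (.cons (.leaf 1 [(7,2),(1,2),(2,1)]) (.cons (.leaf 1 [(7,2),(10,1),(1,1)]) (.cons (.keep [0,7,10,11,12] (.node (.cons (.leaf 1 [(2,1),(9,2)]) (.cons (.leaf 1 [(3,1),(11,1),(9,1)]) (.cons (.leaf 2 [(3,1),(11,3),(8,1),(9,1)]) (.cons (.leaf 1 [(9,2),(1,1)]) (.cons (.leaf 1 [(3,2),(1,1),(9,2)]) (.cons (.leaf 1 [(3,2),(1,1),(8,2),(9,2)]) (.cons (.leaf 1 [(9,2),(1,1),(2,1)]) (.cons (.leaf 1 [(9,1),(11,1)]) (.cons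 (.leaf 1 [(0,1),(11,3),(8,1),(9,2)]) .nil))))))))))) .nil))))))))))) (.cons (.leaf 1 [(10,2),(2,2)]) (.cons (.leaf 1 [(10,2),(2,1)]) (.cons (.keep [0,2,7,10,11] (.node (.cons (.leaf 1 [(10,2),(3,1),(8,2)]) (.cons (.leaf 1 [(10,2),(3,1),(8,2)]) (.cons (.leaf 1 [(10,2),(3,1),(8,2)]) (.cons (.leaf 1 [(10,2),(3,1),(1,1)]) (.cons (.leaf 1 [(10,2),(3,1),(1,1)]) (.cons (.leaf 1 [(10,2),(3,1),(1,1)]) (.cons (.leaf 1 [(10,2),(5,2),(1,1)]) (.cons (.leaf 1 [(10,1),(11,1),(8,1)]) (.cons (.keep [0,7,8,10,11] (.node (.cons (.leaf 1 [(2,1),(9,1)]) (.cons (.leaf 1 [(3,1),(9,1),(10,1)]) (.cons (.leaf 1 [(9,1),(10,2),(2,1)]) (.cons (.leaf 1 [(9,1),(1,1)]) (.cons (.leaf 1 [(9,1),(1,1),(3,2)]) (.cons (.leaf 1 [(9,1),(10,1),(11,1),(3,1)]) (.cons (.leaf 1 [(9,1),(1,1),(2,1)]) (.cons (.leaf 1 [(9,1),(10,1)])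 (.cons (.leaf 1 [(9,3),(10,3),(11,1),(0,1)]) .nil))))))))))) .nil))))))))))) .nil))))))))))

theorem c_14_28_12 : Concl 14 28 z_14_28_12 h_14_28_12 .nd := piece _ hP_nil t_14_28_12 _ _ (by
  decide +kernel)

def z_14_28_13 : F := ⟨0, 1, -1, -1, 2⟩

def h_14_28_13 : List F := [⟨0, 1, -1, 0, 0⟩, ⟨0, 0, -1, 1, 0⟩, ⟨0, 0, 0, -1, 1⟩, ⟨-1, 0, 1, 0,
  0⟩, ⟨0, -1, 1, 0, 0⟩]

def t_14_28_13 : T := (.node (.cons (.leaf 1 [(8,1),(10,1)]) (.cons (.leaf 1 [(10,1)]) (.cons (.keep [0,3,8,10,11] (.node (.cons (.leaf 1 [(5,1),(10,1)]) (.cons (.leaf 1 [(3,1),(9,1),(10,1)]) (.cons (.leaf 1 [(3,1),(10,1),(9,1)]) (.cons (.leaf 1 [(3,1),(10,1)]) (.cons (.leaf 1 [(3,1),(10,1)]) (.cons (.leaf 1 [(3,1),(10,1)]) (.cons (.leaf 1 [(10,1),(5,1)]) (.cons (.leaf 1 [(11,2),(9,1)]) (.cons (.keep [0,7,9,10,11]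 (.node (.cons (.leaf 1 [(2,1),(10,1)]) (.cons (.leaf 1 [(3,1),(2,1),(9,1)]) (.cons (.leaf 1 [(10,1),(2,1)]) (.cons (.leaf 1 [(9,1),(11,1)]) (.cons (.leaf 1 [(3,1),(9,1)]) (.cons (.leaf 1 [(3,1),(11,2),(9,1)]) (.cons (.leaf 1 [(9,1),(2,3)]) (.cons (.leaf 1 [(9,1),(2,1)]) (.cons (.leaf 1 [(9,2),(11,2),(10,1),(0,1)]) .nil))))))))))) .nil))))))))))) (.cons (.leaf 1 [(1,1),(10,1),(8,1)]) (.cons (.leaf 1 [(1,1),(10,1)]) (.cons (.keep [0,1,3,7,8,10] (.node (.cons (.leaf 1 [(8,2)]) (.cons (.leaf 1 [(3,1),(11,1),(8,2)]) (.cons (.leaf 1 [(3,1),(11,1),(12,1),(8,1)]) (.cons (.leaf 1 [(8,2),(1,1)]) (.cons (.leaf 1 [(8,2),(3,1),(1,1)]) (.cons (.leaf 1 [(8,1),(3,1),(12,1)]) (.cons (.leaf 1 [(1,1),(8,2)]) (.cons (.leaf 1 [(8,2),(11,1)]) (.cons (.keep [0,7,8,11,12] (.node (.cons (.leaf 1 [(2,1),(9,1),(10,1)])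 (.cons (.leaf 1 [(3,1),(2,1),(10,1)]) (.cons (.leaf 1 [(2,1),(9,1),(11,1)]) (.cons (.leaf 1 [(10,1),(9,1)]) (.cons (.leaf 1 [(3,1),(10,1)]) (.cons (.leaf 1 [(10,1),(3,1),(9,2)]) (.cons (.leaf 1 [(10,1),(2,3)]) (.cons (.leaf 1 [(10,1),(2,1)]) (.cons (.leaf 1 [(10,2),(9,3),(11,1),(0,1)]) .nil))))))))))) .nil))))))))))) (.cons (.leaf 1 [(1,1),(10,1),(2,1)]) (.cons (.leaf 1 [(1,1),(10,1)]) (.cons (.keep [0,2,7,10,11] (.node (.cons (.leaf 1 [(10,2),(3,2),(8,4)]) (.cons (.leaf 1 [(10,2),(3,1),(8,3)]) (.cons (.leaf 1 [(10,2),(3,2),(8,4),(4,1)]) (.cons (.leaf 1 [(3,2),(1,1),(10,2)]) (.cons (.leaf 1 [(10,2),(3,1),(1,1)]) (.cons (.leaf 1 [(3,2),(1,1),(10,2),(4,1)]) (.cons (.leaf 1 [(10,2),(1,1),(5,4)]) (.cons (.leaf 1 [(11,2),(8,1)]) (.cons (.keep [0,7,8,10,11] (.node (.cons (.leaf 1 [(2,1),(11,1),(9,1)])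 (.cons (.leaf 1 [(3,1),(2,1),(9,1)]) (.cons (.leaf 1 [(10,1),(2,1),(9,1),(11,1)]) (.cons (.leaf 1 [(9,1),(11,1)]) (.cons (.leaf 1 [(3,1),(9,1)]) (.cons (.leaf 1 [(9,1),(3,1),(11,2)]) (.cons (.leaf 1 [(9,1),(2,3)]) (.cons (.leaf 1 [(9,1),(2,1)]) (.cons (.leaf 1 [(9,3),(11,3),(10,1),(0,1)]) .nil))))))))))) .nil))))))))))) .nil))))))))))

theorem c_14_28_13 : Concl 14 28 z_14_28_13 h_14_28_13 .nd := piece _ hP_nil t_14_28_13 _ _ (by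
  decide +kernel)

def z_14_28_14 : F := ⟨1, -1, -1, 0, 2⟩

def h_14_28_14 : List F := [⟨1, 0, -1, 0, 0⟩, ⟨0, 1, -1, 0, 0⟩, ⟨0, 1, 0, -1, 0⟩, ⟨-1, 0, 1, 0,
  0⟩, ⟨0, -1, 1, 0, 0⟩, ⟨0, 0, -1, 0, 1⟩]

def t_14_28_14 : T := (.node (.cons (.leaf 1 [(2,2),(10,2)]) (.cons (.leaf 1 [(3,1),(10,2),(2,1)]) (.cons (.keep [2,3,7,10,11,12] (.node (.cons (.leaf 1 [(2,1),(10,1)]) (.cons (.leaf 1 [(3,1),(10,1)]) (.cons (.leaf 1 [(3,1),(7,2),(10,2)]) (.cons (.leaf 1 [(10,1)]) (.cons (.leaf 1 [(3,1),(10,1)]) (.cons (.leaf 1 [(8,1),(3,1),(7,1),(10,2)]) (.cons (.leaf 1 [(2,1),(10,1)]) (.cons (.leaf 1 [(10,1)]) (.cons (.keep [7,8,9,10,11,12] (.node (.cons (.leaf 1 [(5,1),(10,1)]) (.cons (.leaf 1 [(3,1),(10,1),(7,1)]) (.cons (.leaf 1 [(3,1),(7,2),(10,3),(0,1)]) (.cons (.leaf 1 [(3,1),(10,1)]) (.cons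 (.leaf 1 [(10,1),(3,1)]) (.cons (.leaf 1 [(3,1),(10,1)]) (.cons (.leaf 1 [(5,1),(10,1)]) (.cons (.leaf 1 [(7,1),(10,1)]) (.cons (.leaf 1 [(7,2),(10,3),(0,1)]) .nil))))))))))) .nil))))))))))) (.cons (.leaf 1 [(8,1),(10,2)]) (.cons (.leaf 1 [(8,1),(3,1),(10,2)]) (.cons (.keep [1,7,8,9,10,12] (.node (.cons (.leaf 1 [(2,1),(11,1)]) (.cons (.leaf 1 [(3,1),(7,1)]) (.cons (.leaf 1 [(3,1),(11,2),(9,1)]) (.cons (.leaf 1 [(11,1)]) (.cons (.leaf 1 [(7,1),(3,1),(1,1)]) (.cons (.leaf 1 [(3,1),(11,2),(10,1)]) (.cons (.leaf 1 [(7,1),(2,2),(1,1)]) (.cons (.leaf 1 [(7,1),(1,1)]) (.cons (.keep [0,7,9,10,11,12] (.node (.cons (.leaf 1 [(11,1),(5,1)]) (.cons (.leaf 1 [(3,1),(11,1),(9,1)]) (.cons (.leaf 2 [(3,1),(11,3),(10,1)]) (.cons (.leaf 1 [(11,1),(3,1)]) (.cons (.leaf 1 [(11,1),(3,1)]) (.cons (.leaf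 1 [(11,1),(3,1)]) (.cons (.leaf 1 [(11,1),(5,1)]) (.cons (.leaf 1 [(11,1),(9,1)]) (.cons (.leaf 1 [(11,3),(0,1),(9,1)]) .nil))))))))))) .nil))))))))))) (.cons (.leaf 1 [(8,1),(2,1),(10,2)]) (.cons (.leaf 1 [(8,1),(10,2)]) (.cons (.keep [2,7,9,10,11,12] (.node (.cons (.leaf 1 [(2,1),(10,1)]) (.cons (.leaf 1 [(3,1),(10,1)]) (.cons (.leaf 1 [(3,1),(9,1),(10,2),(7,2)]) (.cons (.leaf 1 [(10,1)]) (.cons (.leaf 1 [(3,1),(10,1)]) (.cons (.leaf 1 [(10,2),(3,1),(1,1),(9,1)]) (.cons (.leaf 1 [(10,1),(2,1)]) (.cons (.leaf 1 [(10,1)]) (.cons (.keep [7,8,9,10,11,12] (.node (.cons (.leaf 1 [(5,1)]) (.cons (.leaf 1 [(3,2),(7,2),(9,2)]) (.cons (.leaf 1 [(5,1),(10,2)]) (.cons (.leaf 1 [(1,1),(3,1)]) (.cons (.leaf 1 [(1,1),(3,2)]) (.cons (.leaf 1 [(10,1),(3,1)]) (.cons (.leaf 1 [(5,1),(1,1)]) (.cons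 (.leaf 1 [(9,2),(1,1),(7,2)]) (.cons (.leaf 1 [(9,1),(7,2),(10,3),(0,1)]) .nil))))))))))) .nil))))))))))) .nil))))))))))

theorem c_14_28_14 : Concl 14 28 z_14_28_14 h_14_28_14 .nd := piece _ hP_nil t_14_28_14 _ _ (by
  decide +kernel)

def z_14_28_6 : F := ⟨0, -1, 0, 0, 2⟩

def h_14_28_6 : List F := [⟨1, -1, 0, 0, 0⟩, ⟨0, 1, -1, 0, 0⟩, ⟨0, 1, 0, -1, 0⟩, ⟨-1, 0, 0, 0, 1⟩]

def t_14_28_6 : T := (.node (.cons (.keep [2,5,6,7,10] (.node (.cons (.leaf 1 [(2,1)]) (.cons (.leaf 1 [(3,1)]) (.cons (.keep [0,2,3,7,11] (.node (.cons (.leaf 1 [(3,1),(8,1)]) (.cons (.leaf 1 [(3,1),(8,1)]) (.cons (.leaf 1 [(3,1),(8,1)]) (.cons (.leaf 1 [(3,1),(9,1)]) (.cons (.leaf 1 [(3,1),(9,1)]) (.cons (.leaf 1 [(3,1),(9,1)]) (.cons (.leaf 1 [(5,1),(9,1)]) (.cons (.leaf 1 [(10,1)]) (.cons (.keep [5,8,9,10,11]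 (.node (.cons (.leaf 1 [(9,1),(2,1)]) (.cons (.leaf 1 [(9,1),(2,1)]) (.cons (.leaf 1 [(9,1),(2,1)]) (.cons (.leaf 1 [(3,1),(10,1)]) (.cons (.leaf 1 [(3,1),(10,1)]) (.cons (.leaf 1 [(3,1),(10,1)]) (.cons (.leaf 1 [(5,1),(10,1)]) (.cons (.leaf 1 [(8,1),(10,1)]) (.cons (.leaf 1 [(0,1),(10,1),(8,1)]) .nil))))))))))) .nil))))))))))) (.cons (.leaf 1 []) (.cons (.leaf 1 [(3,1)]) (.cons (.keep [1,7,8,9,10,11] (.node (.cons (.leaf 1 [(3,1)]) (.cons (.leaf 1 [(3,1)]) (.cons (.leaf 1 [(3,1)]) (.cons (.leaf 1 [(8,1)]) (.cons (.leaf 1 [(8,1),(3,1)]) (.cons (.leaf 1 [(3,1),(10,1),(7,1)]) (.cons (.leaf 1 [(2,1),(8,1)]) (.cons (.leaf 1 [(8,1)]) (.cons (.keep [0,5,7,8,10,12] (.node (.cons (.leaf 1 [(5,1),(10,1)]) (.cons (.leaf 1 [(3,1),(10,1),(7,1)]) (.cons (.leaf 1 [(3,1),(10,1),(0,1)]) (.cons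 (.leaf 1 [(3,1),(10,1)]) (.cons (.leaf 1 [(3,1),(10,1)]) (.cons (.leaf 1 [(3,1),(10,1)]) (.cons (.leaf 1 [(5,1),(10,1)]) (.cons (.leaf 1 [(7,1),(10,1)]) (.cons (.leaf 1 [(10,1),(0,1)]) .nil))))))))))) .nil))))))))))) (.cons (.leaf 1 [(2,1)]) (.cons (.leaf 1 []) (.cons (.keep [1,7,8,9,10,11] (.node (.cons (.leaf 1 [(5,1)]) (.cons (.leaf 1 [(3,1),(8,1)]) (.cons (.leaf 1 [(3,1),(9,1),(7,1)]) (.cons (.leaf 1 [(3,1)]) (.cons (.leaf 1 [(3,1)]) (.cons (.leaf 1 [(3,1)]) (.cons (.leaf 1 [(5,1)]) (.cons (.leaf 1 [(8,1)]) (.cons (.keep [0,5,7,8,9,12] (.node (.cons (.leaf 1 [(2,1)]) (.cons (.leaf 1 [(2,1)]) (.cons (.leaf 1 [(2,1)]) (.cons (.leaf 1 [(3,1),(10,1)]) (.cons (.leaf 1 [(3,1),(10,1)]) (.cons (.leaf 1 [(3,1),(10,1)]) (.cons (.leaf 1 [(5,1),(10,1)]) (.cons (.leaf 1 [(11,1),(10,1)])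 (.cons (.leaf 1 [(9,1),(0,1),(10,1),(11,1)]) .nil))))))))))) .nil))))))))))) .nil))))))))))) (.cons (.keep [3,4,6,7,10] (.leaf 0 [(0,0)])) (.cons (.keep [2,3,7,10] (.node (.cons (.leaf 1 [(2,1)]) (.cons (.leaf 1 [(3,1)]) (.cons (.keep [3,7,8,9,10] (.node (.cons (.leaf 1 [(5,1),(7,1)]) (.cons (.leaf 1 [(3,1),(8,1)]) (.cons (.leaf 1 [(3,1),(11,1),(9,1),(7,1)]) (.cons (.leaf 1 [(3,1),(7,1)]) (.cons (.leaf 1 [(3,1),(7,1)]) (.cons (.leaf 1 [(3,1),(7,1)]) (.cons (.leaf 1 [(5,1),(7,1)]) (.cons (.leaf 1 [(8,1)]) (.cons (.keep [7,8,9,10,11] (.node (.cons (.leaf 1 [(7,1),(2,1)]) (.cons (.leaf 1 [(7,1),(2,1)]) (.cons (.leaf 1 [(7,1),(2,1)]) (.cons (.leaf 1 [(3,1),(8,1)]) (.cons (.leaf 1 [(3,1),(8,1)]) (.cons (.leaf 1 [(3,1),(8,1)]) (.cons (.leaf 1 [(5,1),(8,1)]) (.cons (.leaf 1 [(9,1)]) (.cons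 (.leaf 1 [(0,1),(9,1)]) .nil))))))))))) .nil))))))))))) (.cons (.leaf 1 []) (.cons (.leaf 1 [(3,1)]) (.cons (.keep [3,7,8,9,10] (.node (.cons (.leaf 1 [(3,1)]) (.cons (.leaf 1 [(3,1)]) (.cons (.leaf 1 [(3,1)]) (.cons (.leaf 1 [(7,1),(3,1)]) (.cons (.leaf 1 [(7,1),(3,1)]) (.cons (.leaf 1 [(7,1),(3,1)]) (.cons (.leaf 1 [(7,1),(5,1)]) (.cons (.leaf 1 [(8,1)]) (.cons (.keep [0,7,8,10,11] (.node (.cons (.leaf 1 [(2,1),(8,1)]) (.cons (.leaf 1 [(2,1),(8,1)]) (.cons (.leaf 1 [(2,1),(8,1)]) (.cons (.leaf 1 [(3,1),(9,1)]) (.cons (.leaf 1 [(3,1),(9,1)]) (.cons (.leaf 1 [(9,1),(3,1)]) (.cons (.leaf 1 [(5,1),(9,1)]) (.cons (.leaf 1 [(7,1),(9,1)]) (.cons (.leaf 1 [(9,1),(0,1)]) .nil))))))))))) .nil))))))))))) (.cons (.leaf 1 [(2,1)]) (.cons (.leaf 1 []) (.cons (.keep [0,7,8,10] (.node (.cons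 (.leaf 1 [(5,1)]) (.cons (.leaf 1 [(3,1),(8,1)]) (.cons (.leaf 1 [(3,1),(10,1),(9,1)]) (.cons (.leaf 1 [(3,1)]) (.cons (.leaf 1 [(3,1)]) (.cons (.leaf 1 [(3,1)]) (.cons (.leaf 1 [(5,1)]) (.cons (.leaf 1 [(8,1)]) (.cons (.keep [0,7,8,9,10] (.node (.cons (.leaf 1 [(2,1)]) (.cons (.leaf 1 [(2,1)]) (.cons (.leaf 1 [(2,1)]) (.cons (.leaf 1 [(3,1),(9,1)]) (.cons (.leaf 1 [(3,1),(9,1)]) (.cons (.leaf 1 [(3,1),(9,1)]) (.cons (.leaf 1 [(5,1),(9,1)]) (.cons (.leaf 1 [(10,1)]) (.cons (.leaf 1 [(11,1),(0,1),(9,1),(10,1)]) .nil))))))))))) .nil))))))))))) .nil))))))))))) (.cons (.keep [1,6,7,8,9] (.leaf 0 [(1,0)])) (.cons (.keep [1,4,6,7,9] (.node (.cons (.leaf 1 [(2,1)]) (.cons (.leaf 1 [(3,1)]) (.cons (.keep [4,7,8,9,11] (.node (.cons (.leaf 2 [(2,1),(11,1),(3,1)]) (.cons (.leaf 2 [(3,2),(11,1)])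 (.cons (.leaf 1 [(3,1),(11,1),(8,1)]) (.cons (.leaf 2 [(10,1),(3,1),(11,1)]) (.cons (.leaf 2 [(10,1),(3,2),(11,1)]) (.cons (.leaf 1 [(10,1),(3,1),(11,1),(8,1)]) (.cons (.leaf 2 [(11,1),(10,1)]) (.cons (.leaf 1 [(9,1),(11,1)]) (.cons (.keep [5,8,9,10,11] (.node (.cons (.leaf 1 [(5,1),(10,1)]) (.cons (.leaf 1 [(10,1)]) (.cons (.leaf 1 [(10,1),(5,1)]) (.cons (.leaf 1 [(11,1)]) (.cons (.leaf 1 [(3,1),(11,1)]) (.cons (.leaf 1 [(3,1),(0,1),(11,1)]) (.cons (.leaf 1 [(11,1),(2,1)]) (.cons (.leaf 1 [(11,1)]) (.cons (.leaf 1 [(0,1),(11,1)]) .nil))))))))))) .nil))))))))))) (.cons (.leaf 1 []) (.cons (.leaf 1 [(3,1)]) (.cons (.keep [1,3,7,10,11] (.node (.cons (.leaf 1 [(3,1)]) (.cons (.leaf 1 [(3,1)]) (.cons (.leaf 1 [(3,1)]) (.cons (.leaf 1 [(8,1),(3,1)]) (.cons (.leaf 1 [(8,1),(3,1)]) (.cons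 (.leaf 1 [(8,1),(3,1)]) (.cons (.leaf 1 [(8,1),(5,1)]) (.cons (.leaf 1 [(7,1),(11,1)]) (.cons (.keep [7,8,9,10,11] (.node (.cons (.leaf 1 [(2,1),(8,1)]) (.cons (.leaf 1 [(2,1),(8,1)]) (.cons (.leaf 1 [(2,1),(8,1)]) (.cons (.leaf 1 [(11,1)]) (.cons (.leaf 1 [(3,1),(11,1)]) (.cons (.leaf 1 [(3,1),(7,1),(11,1)]) (.cons (.leaf 1 [(11,1),(2,1)]) (.cons (.leaf 1 [(11,1)]) (.cons (.leaf 1 [(11,1),(7,1),(0,1)]) .nil))))))))))) .nil))))))))))) (.cons (.leaf 1 [(2,1)]) (.cons (.leaf 1 []) (.cons (.keep [2,7,8,9,10,11] (.node (.cons (.leaf 1 [(5,1)]) (.cons (.leaf 1 [(3,1),(7,1)]) (.cons (.leaf 1 [(3,1),(7,1)]) (.cons (.leaf 1 [(3,1)]) (.cons (.leaf 1 [(3,1)]) (.cons (.leaf 1 [(3,1)]) (.cons (.leaf 1 [(5,1)]) (.cons (.leaf 1 [(9,1),(12,1)]) (.cons (.keep [7,8,9,10,11,12] (.node (.cons (.leaf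 1 [(2,1)]) (.cons (.leaf 1 [(2,1)]) (.cons (.leaf 1 [(2,1)]) (.cons (.leaf 1 [(12,1)]) (.cons (.leaf 1 [(3,1),(12,1)]) (.cons (.leaf 1 [(3,1),(9,1),(12,1)]) (.cons (.leaf 1 [(12,1),(2,1)]) (.cons (.leaf 1 [(12,1)]) (.cons (.leaf 1 [(0,1),(12,1),(9,1),(7,1)]) .nil))))))))))) .nil))))))))))) .nil))))))))))) (.cons (.keep [1,4,7,8,9] (.node (.cons (.leaf 1 [(2,1)]) (.cons (.leaf 1 [(3,1)]) (.cons (.keep [3,5,7,8,10,11] (.node (.cons (.leaf 1 [(5,1),(7,1)]) (.cons (.leaf 1 [(3,1),(11,1)]) (.cons (.leaf 1 [(3,1),(12,1),(9,1)]) (.cons (.leaf 1 [(3,1),(7,1)]) (.cons (.leaf 1 [(3,1),(7,1)]) (.cons (.leaf 1 [(3,1),(7,1)]) (.cons (.leaf 1 [(5,1),(7,1)]) (.cons (.leaf 1 [(11,1)]) (.cons (.keep [5,7,9,10,11,12] (.node (.cons (.leaf 1 [(8,1),(2,1)]) (.cons (.leaf 1 [(8,1),(2,1)]) (.cons (.leaf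 1 [(8,1),(2,1)]) (.cons (.leaf 1 [(3,1),(11,1)]) (.cons (.leaf 1 [(3,1),(11,1)]) (.cons (.leaf 1 [(3,1),(11,1)]) (.cons (.leaf 1 [(5,1),(11,1)]) (.cons (.leaf 1 [(12,1)]) (.cons (.leaf 1 [(0,1),(12,1)]) .nil))))))))))) .nil))))))))))) (.cons (.leaf 1 []) (.cons (.leaf 1 [(3,1)]) (.cons (.keep [3,7,8,9,11] (.node (.cons (.leaf 1 [(3,1)]) (.cons (.leaf 1 [(3,1)]) (.cons (.leaf 1 [(3,1)]) (.cons (.leaf 1 [(7,1),(3,1)]) (.cons (.leaf 1 [(7,1),(3,1)]) (.cons (.leaf 1 [(7,1),(3,1)]) (.cons (.leaf 1 [(7,1),(5,1)]) (.cons (.leaf 1 [(7,1),(9,1),(11,1)]) (.cons (.keep [7,8,9,10,11] (.node (.cons (.leaf 1 [(2,1),(7,1)]) (.cons (.leaf 1 [(2,1),(7,1)]) (.cons (.leaf 1 [(2,1),(7,1)]) (.cons (.leaf 1 [(11,1)]) (.cons (.leaf 1 [(3,1),(11,1)]) (.cons (.leaf 1 [(3,1),(7,1),(9,1),(11,1)]) (.cons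 (.leaf 1 [(11,1),(2,1)]) (.cons (.leaf 1 [(11,1)]) (.cons (.leaf 1 [(9,1),(11,1),(7,1),(0,1)]) .nil))))))))))) .nil))))))))))) (.cons (.leaf 1 [(2,1)]) (.cons (.leaf 1 []) (.cons (.keep [1,7,9,10,11] (.node (.cons (.leaf 1 [(5,1)]) (.cons (.leaf 1 [(3,1),(10,1)]) (.cons (.leaf 1 [(3,1),(8,1),(11,1),(7,1)]) (.cons (.leaf 1 [(3,1)]) (.cons (.leaf 1 [(3,1)]) (.cons (.leaf 1 [(3,1)]) (.cons (.leaf 1 [(5,1)]) (.cons (.leaf 1 [(10,1)]) (.cons (.keep [0,7,8,9,10,11] (.node (.cons (.leaf 1 [(2,1)]) (.cons (.leaf 1 [(2,1)]) (.cons (.leaf 1 [(2,1)]) (.cons (.leaf 1 [(3,1),(11,1)]) (.cons (.leaf 1 [(3,1),(11,1)]) (.cons (.leaf 1 [(3,1),(11,1)]) (.cons (.leaf 1 [(5,1),(11,1)]) (.cons (.leaf 1 [(12,1)]) (.cons (.leaf 1 [(0,1),(8,1),(12,1)]) .nil))))))))))) .nil))))))))))) .nil))))))))))) (.cons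 (.keep [1,5,6,7,8] (.node (.cons (.leaf 1 [(2,1)]) (.cons (.leaf 1 [(3,1)]) (.cons (.keep [2,3,7,10,11] (.node (.cons (.leaf 1 [(3,1),(7,1)]) (.cons (.leaf 1 [(3,1),(7,1)]) (.cons (.leaf 1 [(3,1),(7,1)]) (.cons (.leaf 1 [(3,1),(8,1)]) (.cons (.leaf 1 [(3,1),(8,1)]) (.cons (.leaf 1 [(3,1),(8,1)]) (.cons (.leaf 1 [(5,1),(8,1)]) (.cons (.leaf 1 [(11,1)]) (.cons (.keep [7,8,9,10,11] (.node (.cons (.leaf 1 [(8,1),(2,1)]) (.cons (.leaf 1 [(8,1),(2,1)]) (.cons (.leaf 1 [(8,1),(2,1)]) (.cons (.leaf 1 [(3,1),(11,1)]) (.cons (.leaf 1 [(3,1),(11,1)]) (.cons (.leaf 1 [(3,1),(11,1)]) (.cons (.leaf 1 [(5,1),(11,1)]) (.cons (.leaf 1 [(7,1),(11,1)]) (.cons (.leaf 1 [(0,1),(11,1),(7,1)]) .nil))))))))))) .nil))))))))))) (.cons (.leaf 1 []) (.cons (.leaf 1 [(3,1)]) (.cons (.keep [7,8,9,10,11] (.node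 (.cons (.leaf 1 [(3,1)]) (.cons (.leaf 1 [(3,1)]) (.cons (.leaf 1 [(3,1)]) (.cons (.leaf 1 [(11,1)]) (.cons (.leaf 1 [(3,1),(11,1)]) (.cons (.leaf 1 [(7,1),(3,1),(9,1),(11,1)]) (.cons (.leaf 1 [(11,1),(2,1)]) (.cons (.leaf 1 [(11,1)]) (.cons (.keep [0,7,9,10,11] (.node (.cons (.leaf 1 [(5,1),(11,1)]) (.cons (.leaf 1 [(2,2),(9,1)]) (.cons (.leaf 1 [(3,1),(11,1),(0,1)]) (.cons (.leaf 1 [(3,1),(11,1)]) (.cons (.leaf 1 [(3,1),(11,1)]) (.cons (.leaf 1 [(11,1),(3,1)]) (.cons (.leaf 1 [(5,1),(11,1)]) (.cons (.leaf 1 [(7,1),(11,1)]) (.cons (.leaf 1 [(11,1),(0,1)]) .nil))))))))))) .nil))))))))))) (.cons (.leaf 1 [(2,1)]) (.cons (.leaf 1 []) (.cons (.keep [2,7,9,10,11] (.node (.cons (.leaf 1 [(5,1)]) (.cons (.leaf 1 [(3,1),(7,1)]) (.cons (.leaf 1 [(3,1),(7,1)]) (.cons (.leaf 1 [(3,1)]) (.cons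 (.leaf 1 [(3,1)]) (.cons (.leaf 1 [(3,1)]) (.cons (.leaf 1 [(5,1)]) (.cons (.leaf 1 [(11,1)]) (.cons (.keep [0,7,8,10,11] (.node (.cons (.leaf 1 [(2,1)]) (.cons (.leaf 1 [(2,1)]) (.cons (.leaf 1 [(2,1)]) (.cons (.leaf 1 [(3,1),(11,1)]) (.cons (.leaf 1 [(3,1),(11,1)]) (.cons (.leaf 1 [(3,1),(11,1)]) (.cons (.leaf 1 [(5,1),(11,1)]) (.cons (.leaf 1 [(8,1),(7,1),(11,1)]) (.cons (.leaf 1 [(0,1),(11,1),(8,1)]) .nil))))))))))) .nil))))))))))) .nil))))))))))) (.cons (.keep [1,6,7,8,9] (.node (.cons (.leaf 1 [(2,1)]) (.cons (.leaf 1 [(3,1)]) (.cons (.keep [2,7,8,9,10] (.node (.cons (.leaf 1 [(3,1),(7,1)]) (.cons (.leaf 1 [(3,1),(7,1)]) (.cons (.leaf 1 [(3,1),(7,1)]) (.cons (.leaf 1 [(9,1),(3,1),(7,1)]) (.cons (.leaf 1 [(9,1),(3,1),(7,1)]) (.cons (.leaf 1 [(9,1),(3,1),(7,1)]) (.cons (.leaf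 1 [(9,1),(5,1),(7,1)]) (.cons (.leaf 1 [(11,1)]) (.cons (.keep [7,8,9,10,11] (.node (.cons (.leaf 1 [(5,1),(9,1)]) (.cons (.leaf 1 [(9,1)]) (.cons (.leaf 1 [(9,1),(2,1),(7,1)]) (.cons (.leaf 1 [(3,1),(11,1)]) (.cons (.leaf 1 [(3,1),(11,1)]) (.cons (.leaf 1 [(3,1),(11,1)]) (.cons (.leaf 1 [(5,1),(11,1)]) (.cons (.leaf 1 [(7,1),(11,1)]) (.cons (.leaf 1 [(0,1),(11,1),(7,1)]) .nil))))))))))) .nil))))))))))) (.cons (.leaf 1 []) (.cons (.leaf 1 [(3,1)]) (.cons (.keep [3,4,7,10,11] (.node (.cons (.leaf 1 [(3,1)]) (.cons (.leaf 1 [(3,1)]) (.cons (.leaf 1 [(3,1)]) (.cons (.leaf 1 [(7,1),(3,1)]) (.cons (.leaf 1 [(7,1),(3,1)]) (.cons (.leaf 1 [(7,1),(3,1)]) (.cons (.leaf 1 [(7,1),(5,1)]) (.cons (.leaf 1 [(10,1)]) (.cons (.keep [0,5,7,9,10] (.node (.cons (.leaf 1 [(2,1),(9,1)]) (.cons (.leaf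 1 [(2,1),(9,1)]) (.cons (.leaf 1 [(2,1),(9,1)]) (.cons (.leaf 1 [(3,1),(11,1)]) (.cons (.leaf 1 [(3,1),(11,1)]) (.cons (.leaf 1 [(11,1),(3,1)]) (.cons (.leaf 1 [(5,1),(11,1)]) (.cons (.leaf 1 [(7,1),(11,1)]) (.cons (.leaf 1 [(11,1),(0,1)]) .nil))))))))))) .nil))))))))))) (.cons (.leaf 1 [(2,1)]) (.cons (.leaf 1 []) (.cons (.keep [2,5,7,8,10,11] (.node (.cons (.leaf 1 [(5,1)]) (.cons (.leaf 1 [(3,1),(7,1)]) (.cons (.leaf 1 [(3,1),(7,1)]) (.cons (.leaf 1 [(3,1)]) (.cons (.leaf 1 [(3,1)]) (.cons (.leaf 1 [(3,1)]) (.cons (.leaf 1 [(5,1)]) (.cons (.leaf 1 [(11,1)]) (.cons (.keep [0,5,7,9,11] (.node (.cons (.leaf 1 [(2,1)]) (.cons (.leaf 1 [(2,1)]) (.cons (.leaf 1 [(2,1)]) (.cons (.leaf 1 [(3,1),(11,1)]) (.cons (.leaf 1 [(3,1),(11,1)]) (.cons (.leaf 1 [(3,1),(11,1)]) (.cons (.leaf 1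 [(5,1),(11,1)]) (.cons (.leaf 1 [(9,1),(7,1),(11,1)]) (.cons (.leaf 1 [(0,1),(11,1),(9,1)]) .nil))))))))))) .nil))))))))))) .nil))))))))))) (.cons (.keep [1,5,7,8,9] (.node (.cons (.leaf 1 [(2,1)]) (.cons (.leaf 1 [(3,1)]) (.cons (.keep [3,7,8,9,10] (.node (.cons (.leaf 1 [(5,1),(7,1)]) (.cons (.leaf 1 [(3,1),(9,1),(7,1)]) (.cons (.leaf 1 [(3,1),(9,1),(7,1)]) (.cons (.leaf 1 [(3,1),(7,1)]) (.cons (.leaf 1 [(3,1),(7,1)]) (.cons (.leaf 1 [(3,1),(7,1)]) (.cons (.leaf 1 [(5,1),(7,1)]) (.cons (.leaf 1 [(11,1)]) (.cons (.keep [7,8,9,10,11] (.node (.cons (.leaf 1 [(7,1),(2,1)]) (.cons (.leaf 1 [(7,1),(2,1)]) (.cons (.leaf 1 [(7,1),(2,1)]) (.cons (.leaf 1 [(3,1),(11,1)]) (.cons (.leaf 1 [(3,1),(11,1)]) (.cons (.leaf 1 [(3,1),(11,1)]) (.cons (.leaf 1 [(11,1),(5,1)]) (.cons (.leaf 1 [(9,1),(7,1),(11,1)])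 (.cons (.leaf 1 [(0,1),(7,1),(11,1),(9,1)]) .nil))))))))))) .nil))))))))))) (.cons (.leaf 1 []) (.cons (.leaf 1 [(3,1)]) (.cons (.keep [3,5,7,8,10,11] (.node (.cons (.leaf 1 [(3,1)]) (.cons (.leaf 1 [(3,1)]) (.cons (.leaf 1 [(3,1)]) (.cons (.leaf 1 [(7,1),(3,1)]) (.cons (.leaf 1 [(7,1),(3,1)]) (.cons (.leaf 1 [(7,1),(3,1)]) (.cons (.leaf 1 [(7,1),(5,1)]) (.cons (.leaf 1 [(11,1)]) (.cons (.keep [0,5,7,9,10,11] (.node (.cons (.leaf 1 [(2,1),(9,1)]) (.cons (.leaf 1 [(2,1),(9,1)]) (.cons (.leaf 1 [(2,1),(9,1)]) (.cons (.leaf 1 [(3,1),(12,1)]) (.cons (.leaf 1 [(3,1),(12,1)]) (.cons (.leaf 1 [(12,1),(3,1)]) (.cons (.leaf 1 [(5,1),(12,1)]) (.cons (.leaf 1 [(7,1),(12,1)]) (.cons (.leaf 1 [(12,1),(0,1)]) .nil))))))))))) .nil))))))))))) (.cons (.leaf 1 [(2,1)]) (.cons (.leaf 1 []) (.cons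 (.keep [2,7,9,10,11] (.node (.cons (.leaf 1 [(5,1)]) (.cons (.leaf 1 [(3,1),(7,1)]) (.cons (.leaf 1 [(3,1),(7,1)]) (.cons (.leaf 1 [(3,1)]) (.cons (.leaf 1 [(3,1)]) (.cons (.leaf 1 [(3,1)]) (.cons (.leaf 1 [(5,1)]) (.cons (.leaf 1 [(10,1)]) (.cons (.keep [0,7,8,9,10] (.node (.cons (.leaf 1 [(2,1)]) (.cons (.leaf 1 [(2,1)]) (.cons (.leaf 1 [(2,1)]) (.cons (.leaf 1 [(3,1),(11,1)]) (.cons (.leaf 1 [(3,1),(11,1)]) (.cons (.leaf 1 [(3,1),(11,1)]) (.cons (.leaf 1 [(5,1),(11,1)]) (.cons (.leaf 1 [(8,1),(7,1),(11,1)]) (.cons (.leaf 1 [(0,1),(11,1),(8,1)]) .nil))))))))))) .nil))))))))))) .nil))))))))))) .nil))))))))))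

theorem c_14_28_6 : Concl 14 28 z_14_28_6 h_14_28_6 .nd := piece _ (hP_cons c_14_28_1 (hP_cons
  c_14_28_0 hP_nil)) t_14_28_6 _ _ (by decide +kernel)

def z_14_28_7 : F := ⟨0, 0, 0, -1, 2⟩

def h_14_28_7 : List F := [⟨0, 0, 0, -2, 2⟩, ⟨1, -1, 0, 0, 0⟩, ⟨1, 0, -1, 0, 0⟩, ⟨0, -1, 0, 1, 0⟩,
  ⟨0, 0, -1, 1, 0⟩, ⟨-1, 0, 0, 0, 1⟩]

def t_14_28_7 : T := (.node (.cons (.keep [3,6,9,11,12] (.leaf 0 [(0,0)])) (.cons (.keep [3,4,6,7,10] (.node (.cons (.leaf 1 [(2,1),(11,1)]) (.cons (.leaf 1 [(3,1),(11,1)]) (.cons (.keep [2,7,8,9,10,11] (.node (.cons (.leaf 1 [(2,1),(9,1)]) (.cons (.leaf 1 [(3,1),(9,1)]) (.cons (.leaf 1 [(3,1),(7,1),(12,1)]) (.cons (.leaf 1 [(9,1)]) (.cons (.leaf 1 [(3,1),(9,1)]) (.cons (.leaf 1 [(10,1),(3,1),(7,1),(12,1)]) (.cons (.leaf 1 [(2,1),(9,1)]) (.cons (.leaf 1 [(9,1)])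 (.cons (.keep [0,7,9,10,11,12] (.node (.cons (.leaf 1 [(2,1)]) (.cons (.leaf 1 [(3,1)]) (.cons (.leaf 2 [(3,1),(12,1),(10,1)]) (.cons (.leaf 1 []) (.cons (.leaf 1 [(3,1)]) (.cons (.leaf 1 [(3,1),(9,1)]) (.cons (.leaf 1 [(2,1)]) (.cons (.leaf 1 []) (.cons (.leaf 1 [(12,1),(0,1)]) .nil))))))))))) .nil))))))))))) (.cons (.leaf 1 [(11,1)]) (.cons (.leaf 1 [(3,1),(11,1)]) (.cons (.keep [1,3,7,10,11] (.node (.cons (.leaf 1 [(2,1),(7,1)]) (.cons (.leaf 1 [(3,1),(7,1)]) (.cons (.leaf 1 [(3,1),(11,1)]) (.cons (.leaf 1 [(7,1)]) (.cons (.leaf 1 [(3,1),(7,1)]) (.cons (.leaf 1 [(8,1),(3,1),(11,1)]) (.cons (.leaf 1 [(2,1),(7,1)]) (.cons (.leaf 1 [(7,1)]) (.cons (.keep [0,7,8,10,11] (.node (.cons (.leaf 1 [(2,1)]) (.cons (.leaf 1 [(3,1)]) (.cons (.leaf 2 [(3,1),(11,1),(8,1),(9,1)]) (.cons (.leaf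 1 []) (.cons (.leaf 1 [(3,1)]) (.cons (.leaf 1 [(3,1),(8,1)]) (.cons (.leaf 1 [(2,1)]) (.cons (.leaf 1 []) (.cons (.leaf 1 [(11,1),(8,1),(0,1)]) .nil))))))))))) .nil))))))))))) (.cons (.leaf 1 [(11,1),(2,1)]) (.cons (.leaf 1 [(11,1)]) (.cons (.keep [2,7,8,9,10,11] (.node (.cons (.leaf 1 [(2,1),(9,1)]) (.cons (.leaf 1 [(3,1),(9,1)]) (.cons (.leaf 1 [(3,1),(7,1),(12,1)]) (.cons (.leaf 1 [(9,1)]) (.cons (.leaf 1 [(3,1),(9,1)]) (.cons (.leaf 1 [(3,1),(12,1)]) (.cons (.leaf 1 [(2,1),(9,1)]) (.cons (.leaf 1 [(9,1)]) (.cons (.keep [0,7,9,11,12] (.node (.cons (.leaf 1 [(2,1)]) (.cons (.leaf 1 [(3,1)]) (.cons (.leaf 2 [(3,1),(11,1),(9,1)]) (.cons (.leaf 1 []) (.cons (.leaf 1 [(3,1)]) (.cons (.leaf 1 [(3,1),(9,1)]) (.cons (.leaf 1 [(2,1)]) (.cons (.leaf 1 []) (.cons (.leaf 1 [(8,1),(11,1),(9,1),(0,1)])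 .nil))))))))))) .nil))))))))))) .nil))))))))))) (.cons (.keep [3,8,10,11,12] (.node (.cons (.leaf 1 [(2,1),(9,1)]) (.cons (.leaf 1 [(3,1),(9,1)]) (.cons (.keep [3,7,8,10,11] (.node (.cons (.leaf 1 [(2,1),(10,1)]) (.cons (.leaf 1 [(3,1),(10,1)]) (.cons (.leaf 1 [(3,1),(7,1),(11,1)]) (.cons (.leaf 1 [(10,1)]) (.cons (.leaf 1 [(3,1),(10,1)]) (.cons (.leaf 1 [(10,1),(3,1),(7,2),(11,1)]) (.cons (.leaf 1 [(2,1),(10,1)]) (.cons (.leaf 1 [(10,1)]) (.cons (.keep [0,7,9,10,11] (.node (.cons (.leaf 1 [(2,1)]) (.cons (.leaf 1 [(3,1)]) (.cons (.leaf 2 [(3,1),(11,1),(10,2),(8,2)]) (.cons (.leaf 1 []) (.cons (.leaf 1 [(3,1)]) (.cons (.leaf 1 [(3,1),(10,1)]) (.cons (.leaf 1 [(2,1)]) (.cons (.leaf 1 []) (.cons (.leaf 1 [(11,1),(8,1),(10,1),(0,1)]) .nil))))))))))) .nil))))))))))) (.cons (.leaf 1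 [(9,1)]) (.cons (.leaf 1 [(3,1),(9,1)]) (.cons (.keep [1,3,7,8,11] (.node (.cons (.leaf 1 [(2,1),(7,1)]) (.cons (.leaf 1 [(3,1),(7,1)]) (.cons (.leaf 1 [(3,1),(11,1),(2,1)]) (.cons (.leaf 1 [(7,1)]) (.cons (.leaf 1 [(3,1),(7,1)]) (.cons (.leaf 1 [(3,1),(11,1),(8,2)]) (.cons (.leaf 1 [(2,1),(7,1)]) (.cons (.leaf 1 [(7,1)]) (.cons (.keep [0,7,8,10,11] (.node (.cons (.leaf 1 [(2,1)]) (.cons (.leaf 1 [(3,1)]) (.cons (.leaf 2 [(3,1),(11,1),(8,1),(9,2)]) (.cons (.leaf 1 []) (.cons (.leaf 1 [(3,1)]) (.cons (.leaf 1 [(3,1),(8,1)]) (.cons (.leaf 1 [(2,1)]) (.cons (.leaf 1 []) (.cons (.leaf 1 [(11,1),(9,1),(8,1),(0,1)]) .nil))))))))))) .nil))))))))))) (.cons (.leaf 1 [(9,1),(2,1)]) (.cons (.leaf 1 [(9,1)]) (.cons (.keep [7,8,9,10,11] (.node (.cons (.leaf 1 [(5,1),(9,1)]) (.cons (.leaf 1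 [(3,1),(10,1)]) (.cons (.leaf 1 [(3,1),(11,1)]) (.cons (.leaf 1 [(3,1),(9,1)]) (.cons (.leaf 1 [(3,1),(9,1)]) (.cons (.leaf 1 [(3,1),(9,1)]) (.cons (.leaf 1 [(5,1),(9,1)]) (.cons (.leaf 1 [(10,1)]) (.cons (.keep [0,7,8,9,10,11] (.node (.cons (.leaf 1 [(2,1)]) (.cons (.leaf 1 [(3,1)]) (.cons (.leaf 1 [(2,1),(10,1)]) (.cons (.leaf 1 []) (.cons (.leaf 1 [(3,1)]) (.cons (.leaf 1 [(3,1),(11,1)]) (.cons (.leaf 1 [(2,1)]) (.cons (.leaf 1 []) (.cons (.leaf 1 [(12,1),(11,1),(0,1)]) .nil))))))))))) .nil))))))))))) .nil))))))))))) (.cons (.keep [3,6,9,10,11] (.node (.cons (.leaf 1 [(2,1),(10,1)]) (.cons (.leaf 1 [(3,1),(10,1)]) (.cons (.keep [0,2,3,10,11] (.node (.cons (.leaf 2 [(3,1),(10,1),(2,1)]) (.cons (.leaf 2 [(3,2),(10,1)]) (.cons (.leaf 1 [(8,1),(10,1),(3,1)]) (.cons (.leaf 1 [(9,1),(3,1),(10,1)])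 (.cons (.leaf 1 [(9,1),(3,1),(10,1)]) (.cons (.leaf 1 [(9,1),(10,1),(3,1)]) (.cons (.leaf 1 [(5,1),(10,1),(9,1)]) (.cons (.leaf 1 [(11,1)]) (.cons (.keep [0,7,8,9,10,11] (.node (.cons (.leaf 1 [(2,1)]) (.cons (.leaf 1 [(3,1)]) (.cons (.leaf 1 [(3,1),(11,1),(0,1)]) (.cons (.leaf 1 []) (.cons (.leaf 1 [(3,1)]) (.cons (.leaf 1 [(3,1),(11,1),(0,1)]) (.cons (.leaf 1 [(2,1)]) (.cons (.leaf 1 []) (.cons (.leaf 1 [(11,1),(0,1)]) .nil))))))))))) .nil))))))))))) (.cons (.leaf 1 [(10,1)]) (.cons (.leaf 1 [(3,1),(10,1)]) (.cons (.keep [0,1,7,8,10] (.node (.cons (.leaf 1 [(2,1),(8,1)]) (.cons (.leaf 1 [(3,1),(8,1)]) (.cons (.leaf 1 [(3,1),(11,1)]) (.cons (.leaf 1 [(8,1)]) (.cons (.leaf 1 [(3,1),(8,1)]) (.cons (.leaf 1 [(10,1),(3,1),(11,1),(8,1)]) (.cons (.leaf 1 [(2,1),(8,1)]) (.cons (.leaf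 1 [(8,1)]) (.cons (.keep [0,7,8,10,11] (.node (.cons (.leaf 1 [(2,1)]) (.cons (.leaf 1 [(3,1)]) (.cons (.leaf 2 [(3,1),(11,1),(9,2),(10,1)]) (.cons (.leaf 1 []) (.cons (.leaf 1 [(3,1)]) (.cons (.leaf 1 [(3,1),(9,1)]) (.cons (.leaf 1 [(2,1)]) (.cons (.leaf 1 []) (.cons (.leaf 1 [(11,1),(9,1),(0,1)]) .nil))))))))))) .nil))))))))))) (.cons (.leaf 1 [(10,1),(2,1)]) (.cons (.leaf 1 [(10,1)]) (.cons (.keep [0,2,8,10,11] (.node (.cons (.leaf 1 [(5,1),(10,1)]) (.cons (.leaf 1 [(3,1),(8,1),(10,1)]) (.cons (.leaf 1 [(3,1),(8,1),(10,1)]) (.cons (.leaf 1 [(3,1),(10,1)]) (.cons (.leaf 1 [(3,1),(10,1)]) (.cons (.leaf 1 [(3,1),(10,1)]) (.cons (.leaf 1 [(5,1),(10,1)]) (.cons (.leaf 1 [(11,1)]) (.cons (.keep [0,7,8,10,11] (.node (.cons (.leaf 1 [(2,1)]) (.cons (.leaf 1 [(3,1)]) (.cons (.leaf 1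 [(2,1),(10,1)]) (.cons (.leaf 1 []) (.cons (.leaf 1 [(3,1)]) (.cons (.leaf 1 [(3,1),(11,1)]) (.cons (.leaf 1 [(2,1)]) (.cons (.leaf 1 []) (.cons (.leaf 1 [(9,1),(10,1),(11,1),(0,1)]) .nil))))))))))) .nil))))))))))) .nil))))))))))) (.cons (.keep [3,4,6,7,10] (.node (.cons (.leaf 1 [(2,1),(11,1)]) (.cons (.leaf 1 [(3,1),(11,1)]) (.cons (.keep [0,2,8,9,11] (.node (.cons (.leaf 1 [(2,1),(9,1)]) (.cons (.leaf 1 [(3,1),(9,1)]) (.cons (.leaf 1 [(3,1),(8,1),(11,1)]) (.cons (.leaf 1 [(9,1)]) (.cons (.leaf 1 [(3,1),(9,1)]) (.cons (.leaf 1 [(10,1),(3,1),(8,1),(11,1)]) (.cons (.leaf 1 [(2,1),(9,1)]) (.cons (.leaf 1 [(9,1)]) (.cons (.keep [0,7,8,9,10,11] (.node (.cons (.leaf 1 [(2,1)]) (.cons (.leaf 1 [(3,1)]) (.cons (.leaf 2 [(3,1),(12,1),(11,1)]) (.cons (.leaf 1 []) (.cons (.leaf 1 [(3,1)])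 (.cons (.leaf 1 [(3,1),(10,1)]) (.cons (.leaf 1 [(2,1)]) (.cons (.leaf 1 []) (.cons (.leaf 1 [(12,1),(0,1)]) .nil))))))))))) .nil))))))))))) (.cons (.leaf 1 [(11,1)]) (.cons (.leaf 1 [(3,1),(11,1)]) (.cons (.keep [0,1,3,7,11] (.node (.cons (.leaf 1 [(2,1),(8,1)]) (.cons (.leaf 1 [(3,1),(8,1)]) (.cons (.leaf 1 [(3,1),(11,1)]) (.cons (.leaf 1 [(8,1)]) (.cons (.leaf 1 [(3,1),(8,1)]) (.cons (.leaf 1 [(9,1),(3,1),(11,1)]) (.cons (.leaf 1 [(2,1),(8,1)]) (.cons (.leaf 1 [(8,1)]) (.cons (.keep [0,7,8,9,11] (.node (.cons (.leaf 1 [(2,1)]) (.cons (.leaf 1 [(3,1)]) (.cons (.leaf 2 [(3,1),(11,1),(9,1),(10,1)]) (.cons (.leaf 1 []) (.cons (.leaf 1 [(3,1)]) (.cons (.leaf 1 [(3,1),(9,1)]) (.cons (.leaf 1 [(2,1)]) (.cons (.leaf 1 []) (.cons (.leaf 1 [(11,1),(9,1),(0,1)]) .nil))))))))))) .nil)))))))))))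 (.cons (.leaf 1 [(11,1),(2,1)]) (.cons (.leaf 1 [(11,1)]) (.cons (.keep [0,2,7,8,9,11] (.node (.cons (.leaf 1 [(2,1),(10,1)]) (.cons (.leaf 1 [(3,1),(10,1)]) (.cons (.leaf 1 [(3,1),(8,1),(12,1)]) (.cons (.leaf 1 [(10,1)]) (.cons (.leaf 1 [(3,1),(10,1)]) (.cons (.leaf 1 [(3,1),(12,1)]) (.cons (.leaf 1 [(2,1),(10,1)]) (.cons (.leaf 1 [(10,1)]) (.cons (.keep [0,7,8,10,12] (.node (.cons (.leaf 1 [(2,1)]) (.cons (.leaf 1 [(3,1)]) (.cons (.leaf 2 [(3,1),(11,1),(10,1)]) (.cons (.leaf 1 []) (.cons (.leaf 1 [(3,1)]) (.cons (.leaf 1 [(3,1),(10,1)]) (.cons (.leaf 1 [(2,1)]) (.cons (.leaf 1 []) (.cons (.leaf 1 [(9,1),(11,1),(10,1),(0,1)]) .nil))))))))))) .nil))))))))))) .nil))))))))))) (.cons (.keep [3,5,9,10,11] (.leaf 0 [(1,0)])) (.cons (.keep [1,2,5,6,9] (.node (.cons (.leaf 1 [(2,1),(7,1)])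 (.cons (.leaf 1 [(3,1),(7,1)]) (.cons (.keep [0,2,3,7,8] (.node (.cons (.leaf 2 [(3,1),(10,1),(2,1)]) (.cons (.leaf 2 [(3,2),(10,1)]) (.cons (.leaf 1 [(8,1),(10,1),(3,1)]) (.cons (.leaf 1 [(9,1),(3,1),(10,1)]) (.cons (.leaf 1 [(9,1),(3,1),(10,1)]) (.cons (.leaf 1 [(9,1),(10,1),(3,1)]) (.cons (.leaf 1 [(5,1),(10,1),(9,1)]) (.cons (.leaf 1 [(11,1)]) (.cons (.keep [0,7,8,9,10,11] (.node (.cons (.leaf 1 [(2,1)]) (.cons (.leaf 1 [(3,1)]) (.cons (.leaf 1 [(3,1),(11,1),(0,1)]) (.cons (.leaf 1 []) (.cons (.leaf 1 [(3,1)]) (.cons (.leaf 1 [(3,1),(11,1),(0,1)]) (.cons (.leaf 1 [(2,1)]) (.cons (.leaf 1 []) (.cons (.leaf 1 [(11,1),(0,1)]) .nil))))))))))) .nil))))))))))) (.cons (.leaf 1 [(7,1)]) (.cons (.leaf 1 [(3,1),(7,1)]) (.cons (.keep [0,1,7,9,10] (.node (.cons (.leaf 1 [(2,1),(8,1)])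 (.cons (.leaf 1 [(3,1),(8,1)]) (.cons (.leaf 1 [(3,1),(9,1)]) (.cons (.leaf 1 [(8,1)]) (.cons (.leaf 1 [(3,1),(8,1)]) (.cons (.leaf 1 [(11,1),(3,1),(9,1),(8,1)]) (.cons (.leaf 1 [(2,1),(8,1)]) (.cons (.leaf 1 [(8,1)]) (.cons (.keep [0,7,8,9,11] (.node (.cons (.leaf 1 [(2,1)]) (.cons (.leaf 1 [(3,1)]) (.cons (.leaf 1 [(3,1),(10,1),(9,1),(0,1)]) (.cons (.leaf 1 []) (.cons (.leaf 1 [(3,1)]) (.cons (.leaf 1 [(3,1),(9,1)]) (.cons (.leaf 1 [(2,1)]) (.cons (.leaf 1 []) (.cons (.leaf 1 [(10,1),(9,1),(0,1)]) .nil))))))))))) .nil))))))))))) (.cons (.leaf 1 [(7,1),(2,1)]) (.cons (.leaf 1 [(7,1)]) (.cons (.keep [0,2,7,8,10] (.node (.cons (.leaf 1 [(5,1),(9,1)]) (.cons (.leaf 1 [(3,1),(8,1),(9,1)]) (.cons (.leaf 1 [(3,1),(8,1),(9,1)]) (.cons (.leaf 1 [(3,1),(9,1)]) (.cons (.leaf 1 [(3,1),(9,1)])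 (.cons (.leaf 1 [(3,1),(9,1)]) (.cons (.leaf 1 [(5,1),(9,1)]) (.cons (.leaf 1 [(10,1)]) (.cons (.keep [0,7,8,9,10] (.node (.cons (.leaf 1 [(2,1)]) (.cons (.leaf 1 [(3,1)]) (.cons (.leaf 1 [(2,1),(10,1)]) (.cons (.leaf 1 []) (.cons (.leaf 1 [(3,1)]) (.cons (.leaf 1 [(3,1),(11,1)]) (.cons (.leaf 1 [(2,1)]) (.cons (.leaf 1 []) (.cons (.leaf 1 [(9,1),(10,1),(11,1),(0,1)]) .nil))))))))))) .nil))))))))))) .nil))))))))))) (.cons (.keep [1,2,6,7] (.node (.cons (.leaf 1 [(2,1),(7,1)]) (.cons (.leaf 1 [(3,1),(7,1)]) (.cons (.keep [0,2,7,8,9] (.node (.cons (.leaf 2 [(3,1),(9,1),(2,1)]) (.cons (.leaf 2 [(3,2),(9,1)]) (.cons (.leaf 1 [(8,1),(9,1),(3,1)]) (.cons (.leaf 1 [(10,1)]) (.cons (.leaf 1 [(10,1),(3,1)]) (.cons (.leaf 1 [(11,1),(8,1),(9,1),(3,1)]) (.cons (.leaf 1 [(10,1),(2,1)]) (.cons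 (.leaf 1 [(10,1)]) (.cons (.keep [0,7,8,9,10,11] (.node (.cons (.leaf 1 [(2,1)]) (.cons (.leaf 1 [(3,1)]) (.cons (.leaf 1 [(3,1),(10,1),(0,1)]) (.cons (.leaf 1 []) (.cons (.leaf 1 [(3,1)]) (.cons (.leaf 1 [(3,1),(10,1),(0,1)]) (.cons (.leaf 1 [(2,1)]) (.cons (.leaf 1 []) (.cons (.leaf 1 [(10,1),(0,1)]) .nil))))))))))) .nil))))))))))) (.cons (.leaf 1 [(7,1)]) (.cons (.leaf 1 [(3,1),(7,1)]) (.cons (.keep [0,1,3,7] (.node (.cons (.leaf 1 [(2,1),(8,1)]) (.cons (.leaf 1 [(3,1),(8,1)]) (.cons (.leaf 1 [(3,1),(10,1)]) (.cons (.leaf 1 [(8,1)]) (.cons (.leaf 1 [(3,1),(8,1)]) (.cons (.leaf 1 [(9,1),(3,1),(10,1)]) (.cons (.leaf 1 [(2,1),(8,1)]) (.cons (.leaf 1 [(8,1)]) (.cons (.keep [0,7,8,9,10] (.node (.cons (.leaf 1 [(2,1)]) (.cons (.leaf 1 [(3,1)]) (.cons (.leaf 2 [(3,1),(11,1),(9,1),(10,1)])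 (.cons (.leaf 1 []) (.cons (.leaf 1 [(3,1)]) (.cons (.leaf 1 [(3,1),(9,1)]) (.cons (.leaf 1 [(2,1)]) (.cons (.leaf 1 []) (.cons (.leaf 1 [(11,1),(9,1),(0,1)]) .nil))))))))))) .nil))))))))))) (.cons (.leaf 1 [(7,1),(2,1)]) (.cons (.leaf 1 [(7,1)]) (.cons (.keep [0,2,7,8,9] (.node (.cons (.leaf 1 [(5,1),(9,1)]) (.cons (.leaf 1 [(3,1),(8,1),(9,1)]) (.cons (.leaf 1 [(3,1),(8,1),(9,1)]) (.cons (.leaf 1 [(3,1),(9,1)]) (.cons (.leaf 1 [(3,1),(9,1)]) (.cons (.leaf 1 [(3,1),(9,1)]) (.cons (.leaf 1 [(5,1),(9,1)]) (.cons (.leaf 1 [(10,1)]) (.cons (.keep [0,7,8,9,10] (.node (.cons (.leaf 1 [(2,1)]) (.cons (.leaf 1 [(3,1)]) (.cons (.leaf 1 [(2,1),(10,1)]) (.cons (.leaf 1 []) (.cons (.leaf 1 [(3,1)]) (.cons (.leaf 1 [(3,1),(11,1)]) (.cons (.leaf 1 [(2,1)]) (.cons (.leaf 1 []) (.cons (.leaf 1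 [(9,1),(10,1),(11,1),(0,1)]) .nil))))))))))) .nil))))))))))) .nil))))))))))) (.cons (.keep [0,1,2,5,8,9] (.node (.cons (.leaf 1 [(2,1),(8,1)]) (.cons (.leaf 1 [(3,1),(8,1)]) (.cons (.keep [0,3,8,9,10] (.node (.cons (.leaf 2 [(3,1),(9,1),(2,1)]) (.cons (.leaf 2 [(3,2),(9,1)]) (.cons (.leaf 1 [(8,1),(11,1),(9,1),(3,1)]) (.cons (.leaf 1 [(8,1),(3,1),(9,1)]) (.cons (.leaf 1 [(8,1),(3,1),(9,1)]) (.cons (.leaf 1 [(8,1),(9,1),(3,1)]) (.cons (.leaf 1 [(5,1),(9,1),(8,1)]) (.cons (.leaf 1 [(10,1)]) (.cons (.keep [0,7,8,9,10,11] (.node (.cons (.leaf 1 [(2,1)]) (.cons (.leaf 1 [(3,1)]) (.cons (.leaf 1 [(3,1),(10,1),(0,1)]) (.cons (.leaf 1 []) (.cons (.leaf 1 [(3,1)]) (.cons (.leaf 1 [(3,1),(10,1),(0,1)]) (.cons (.leaf 1 [(2,1)]) (.cons (.leaf 1 []) (.cons (.leaf 1 [(10,1),(0,1)]) .nil)))))))))))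 .nil))))))))))) (.cons (.leaf 1 [(8,1)]) (.cons (.leaf 1 [(3,1),(8,1)]) (.cons (.keep [0,1,3,8,10] (.node (.cons (.leaf 1 [(2,1),(8,1)]) (.cons (.leaf 1 [(3,1),(8,1)]) (.cons (.leaf 1 [(3,1),(10,1)]) (.cons (.leaf 1 [(8,1)]) (.cons (.leaf 1 [(3,1),(8,1)]) (.cons (.leaf 1 [(9,1),(3,1),(10,1)]) (.cons (.leaf 1 [(2,1),(8,1)]) (.cons (.leaf 1 [(8,1)]) (.cons (.keep [0,7,8,9,10,11] (.node (.cons (.leaf 1 [(2,1)]) (.cons (.leaf 1 [(3,1)]) (.cons (.leaf 2 [(3,1),(11,1),(9,1),(10,1)]) (.cons (.leaf 1 []) (.cons (.leaf 1 [(3,1)]) (.cons (.leaf 1 [(3,1),(9,1)]) (.cons (.leaf 1 [(2,1)]) (.cons (.leaf 1 []) (.cons (.leaf 1 [(11,1),(9,1),(0,1)]) .nil))))))))))) .nil))))))))))) (.cons (.leaf 1 [(8,1),(2,1)]) (.cons (.leaf 1 [(8,1)]) (.cons (.keep [0,2,8,9] (.node (.cons (.leaf 1 [(5,1),(9,1)])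 (.cons (.leaf 1 [(3,1),(8,1),(9,1)]) (.cons (.leaf 1 [(3,1),(8,1),(9,1)]) (.cons (.leaf 1 [(3,1),(9,1)]) (.cons (.leaf 1 [(3,1),(9,1)]) (.cons (.leaf 1 [(3,1),(9,1)]) (.cons (.leaf 1 [(5,1),(9,1)]) (.cons (.leaf 1 [(10,1)]) (.cons (.keep [0,7,8,9,10] (.node (.cons (.leaf 1 [(2,1)]) (.cons (.leaf 1 [(3,1)]) (.cons (.leaf 1 [(2,1),(10,1)]) (.cons (.leaf 1 []) (.cons (.leaf 1 [(3,1)]) (.cons (.leaf 1 [(3,1),(11,1)]) (.cons (.leaf 1 [(2,1)]) (.cons (.leaf 1 []) (.cons (.leaf 1 [(9,1),(10,1),(11,1),(0,1)]) .nil))))))))))) .nil))))))))))) .nil))))))))))) .nil))))))))))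

theorem c_14_28_7 : Concl 14 28 z_14_28_7 h_14_28_7 .nd := piece _ (hP_cons c_14_28_4 (hP_cons
  c_14_28_5 hP_nil)) t_14_28_7 _ _ (by decide +kernel)

def z_14_28_8 : F := ⟨0, 0, -1, 0, 2⟩

def h_14_28_8 : List F := [⟨1, 0, -1, 0, 0⟩, ⟨0, -1, 1, 0, 0⟩, ⟨0, 0, 1, -1, 0⟩, ⟨-1, 0, 0, 0, 1⟩]

def t_14_28_8 : T := (.node (.cons (.keep [2,5,6,7,8] (.node (.cons (.leaf 1 [(2,1),(11,1)]) (.cons (.leaf 1 [(3,1),(11,1)]) (.cons (.keep [0,2,3,7,11] (.node (.cons (.leaf 1 [(2,1)]) (.cons (.leaf 1 [(3,1)]) (.cons (.leaf 1 [(3,1),(11,1),(8,1)]) (.cons (.leaf 1 []) (.cons (.leaf 1 [(3,1)]) (.cons (.leaf 1 [(3,1),(11,1),(9,1)]) (.cons (.leaf 1 [(2,1)]) (.cons (.leaf 1 []) (.cons (.keep [0,7,8,9,11] (.node (.cons (.leaf 1 [(5,1)]) (.cons (.leaf 1 [(3,1),(9,1)]) (.cons (.leaf 2 [(3,1),(11,1),(10,1)])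 (.cons (.leaf 1 [(3,1)]) (.cons (.leaf 1 [(3,1)]) (.cons (.leaf 1 [(3,1)]) (.cons (.leaf 1 [(5,1)]) (.cons (.leaf 1 [(9,1)]) (.cons (.leaf 1 [(11,1),(0,1),(9,1)]) .nil))))))))))) .nil))))))))))) (.cons (.leaf 1 [(11,1)]) (.cons (.leaf 1 [(3,1),(11,1)]) (.cons (.keep [1,7,8,9,10,11] (.node (.cons (.leaf 1 [(2,1)]) (.cons (.leaf 1 [(3,1)]) (.cons (.leaf 1 [(12,1),(3,1)]) (.cons (.leaf 1 []) (.cons (.leaf 1 [(3,1)]) (.cons (.leaf 1 [(7,1),(3,1),(12,1),(10,1)]) (.cons (.leaf 1 [(2,1)]) (.cons (.leaf 1 []) (.cons (.keep [7,8,9,10,11,12] (.node (.cons (.leaf 1 [(5,1)]) (.cons (.leaf 1 [(3,1),(9,1)]) (.cons (.leaf 1 [(3,1),(0,1),(12,1)]) (.cons (.leaf 1 [(3,1)]) (.cons (.leaf 1 [(3,1)]) (.cons (.leaf 1 [(3,1)]) (.cons (.leaf 1 [(5,1)]) (.cons (.leaf 1 [(9,1)]) (.cons (.leaf 1 [(0,1),(12,1)])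 .nil))))))))))) .nil))))))))))) (.cons (.leaf 1 [(2,1),(11,1)]) (.cons (.leaf 1 [(11,1)]) (.cons (.keep [1,7,8,9,10,11] (.node (.cons (.leaf 1 [(2,1)]) (.cons (.leaf 1 [(3,1)]) (.cons (.leaf 1 [(3,1),(7,1),(12,1),(9,1)]) (.cons (.leaf 1 []) (.cons (.leaf 1 [(3,1)]) (.cons (.leaf 1 [(3,1),(12,1)]) (.cons (.leaf 1 [(2,1)]) (.cons (.leaf 1 []) (.cons (.keep [7,8,9,10,11,12] (.node (.cons (.leaf 1 [(5,1)]) (.cons (.leaf 1 [(3,1),(9,1)]) (.cons (.leaf 2 [(3,1),(12,1)]) (.cons (.leaf 1 [(3,1)]) (.cons (.leaf 1 [(3,1)]) (.cons (.leaf 1 [(3,1)]) (.cons (.leaf 1 [(5,1)]) (.cons (.leaf 1 [(9,1)]) (.cons (.leaf 1 [(7,1),(12,1),(0,1),(9,1)]) .nil))))))))))) .nil))))))))))) .nil))))))))))) (.cons (.keep [3,4,6,7,9,10] (.leaf 0 [(0,0)])) (.cons (.keep [2,7,8,9,10] (.node (.cons (.leaf 1 [(2,1),(9,1)])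 (.cons (.leaf 1 [(3,1),(9,1)]) (.cons (.keep [2,3,7,8,11] (.node (.cons (.leaf 1 [(2,1)]) (.cons (.leaf 1 [(3,1)]) (.cons (.leaf 1 [(3,1),(11,1),(2,1),(7,2)]) (.cons (.leaf 1 []) (.cons (.leaf 1 [(3,1)]) (.cons (.leaf 1 [(3,1),(11,1),(8,2)]) (.cons (.leaf 1 [(2,1)]) (.cons (.leaf 1 []) (.cons (.keep [0,7,8,10,11] (.node (.cons (.leaf 1 [(5,1)]) (.cons (.leaf 1 [(3,1),(8,1)]) (.cons (.leaf 2 [(3,1),(11,1),(9,2)]) (.cons (.leaf 1 [(3,1)]) (.cons (.leaf 1 [(3,1)]) (.cons (.leaf 1 [(3,1)]) (.cons (.leaf 1 [(5,1)]) (.cons (.leaf 1 [(8,1)]) (.cons (.leaf 1 [(11,1),(9,1),(0,1),(8,1)]) .nil))))))))))) .nil))))))))))) (.cons (.leaf 1 [(9,1)]) (.cons (.leaf 1 [(3,1),(9,1)]) (.cons (.keep [3,7,8,10,11] (.node (.cons (.leaf 1 [(2,1)]) (.cons (.leaf 1 [(3,1)]) (.cons (.leaf 1 [(3,1),(11,1),(2,1),(10,1)])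 (.cons (.leaf 1 []) (.cons (.leaf 1 [(3,1)]) (.cons (.leaf 1 [(3,1),(10,1),(11,1),(7,2)]) (.cons (.leaf 1 [(2,1)]) (.cons (.leaf 1 []) (.cons (.keep [7,8,9,10,11] (.node (.cons (.leaf 1 [(5,1)]) (.cons (.leaf 1 [(3,1),(10,1)]) (.cons (.leaf 2 [(3,1),(11,1),(7,2),(10,1)]) (.cons (.leaf 1 [(3,1)]) (.cons (.leaf 1 [(3,1)]) (.cons (.leaf 1 [(3,1)]) (.cons (.leaf 1 [(5,1)]) (.cons (.leaf 1 [(10,1)]) (.cons (.leaf 1 [(11,1),(7,1),(0,1),(10,1)]) .nil))))))))))) .nil))))))))))) (.cons (.leaf 1 [(2,1),(9,1)]) (.cons (.leaf 1 [(9,1)]) (.cons (.keep [0,7,9,10,11] (.node (.cons (.leaf 1 [(2,1)]) (.cons (.leaf 1 [(3,1)]) (.cons (.leaf 1 [(3,1),(11,1),(10,1)]) (.cons (.leaf 1 []) (.cons (.leaf 1 [(3,1)]) (.cons (.leaf 1 [(3,1),(9,1)]) (.cons (.leaf 1 [(2,1)]) (.cons (.leaf 1 []) (.cons (.keep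 [0,7,8,9,10,11] (.node (.cons (.leaf 1 [(5,1)]) (.cons (.leaf 2 [(3,1),(10,1)]) (.cons (.leaf 2 [(3,1),(10,1)]) (.cons (.leaf 1 [(3,1)]) (.cons (.leaf 1 [(3,1)]) (.cons (.leaf 1 [(3,1)]) (.cons (.leaf 1 [(5,1)]) (.cons (.leaf 1 [(11,1)]) (.cons (.leaf 1 [(12,1),(0,1),(11,1)]) .nil))))))))))) .nil))))))))))) .nil))))))))))) (.cons (.keep [1,3,6,7] (.node (.cons (.leaf 1 [(2,1),(7,1)]) (.cons (.leaf 1 [(3,1),(7,1)]) (.cons (.keep [0,2,3,7] (.node (.cons (.leaf 1 [(2,1)]) (.cons (.leaf 1 [(3,1)]) (.cons (.leaf 1 [(3,1),(10,1),(8,1)]) (.cons (.leaf 1 []) (.cons (.leaf 1 [(3,1)]) (.cons (.leaf 1 [(3,1),(10,1),(9,1)]) (.cons (.leaf 1 [(2,1)]) (.cons (.leaf 1 []) (.cons (.keep [0,7,8,9,10] (.node (.cons (.leaf 1 [(5,1)]) (.cons (.leaf 1 [(3,1),(9,1)]) (.cons (.leaf 2 [(3,1),(11,1),(10,1)])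 (.cons (.leaf 1 [(3,1)]) (.cons (.leaf 1 [(3,1)]) (.cons (.leaf 1 [(3,1)]) (.cons (.leaf 1 [(5,1)]) (.cons (.leaf 1 [(9,1)]) (.cons (.leaf 1 [(11,1),(0,1),(9,1)]) .nil))))))))))) .nil))))))))))) (.cons (.leaf 1 [(7,1)]) (.cons (.leaf 1 [(3,1),(7,1)]) (.cons (.keep [0,1,7,8,9] (.node (.cons (.leaf 1 [(2,1)]) (.cons (.leaf 1 [(3,1)]) (.cons (.leaf 1 [(3,1),(9,1)]) (.cons (.leaf 1 []) (.cons (.leaf 1 [(3,1)]) (.cons (.leaf 1 [(8,1),(3,1),(9,1),(11,1)]) (.cons (.leaf 1 [(2,1)]) (.cons (.leaf 1 []) (.cons (.keep [0,7,8,9,11] (.node (.cons (.leaf 1 [(5,1)]) (.cons (.leaf 1 [(3,1),(10,1),(7,1)]) (.cons (.leaf 1 [(3,1),(0,1),(10,1)]) (.cons (.leaf 1 [(3,1)]) (.cons (.leaf 1 [(3,1)]) (.cons (.leaf 1 [(3,1)]) (.cons (.leaf 1 [(5,1)]) (.cons (.leaf 1 [(10,1),(7,1)]) (.cons (.leaf 1 [(0,1),(10,1)])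 .nil))))))))))) .nil))))))))))) (.cons (.leaf 1 [(2,1),(7,1)]) (.cons (.leaf 1 [(7,1)]) (.cons (.keep [0,1,7,8,9] (.node (.cons (.leaf 1 [(2,1)]) (.cons (.leaf 1 [(3,1)]) (.cons (.leaf 1 [(3,1),(8,1),(9,1),(10,1)]) (.cons (.leaf 1 []) (.cons (.leaf 1 [(3,1)]) (.cons (.leaf 1 [(3,1),(9,1)]) (.cons (.leaf 1 [(2,1)]) (.cons (.leaf 1 []) (.cons (.keep [0,7,8,9,10] (.node (.cons (.leaf 1 [(5,1)]) (.cons (.leaf 2 [(3,1),(10,1)]) (.cons (.leaf 2 [(3,1),(10,1)]) (.cons (.leaf 1 [(3,1)]) (.cons (.leaf 1 [(3,1)]) (.cons (.leaf 1 [(3,1)]) (.cons (.leaf 1 [(5,1)]) (.cons (.leaf 1 [(11,1)]) (.cons (.leaf 1 [(9,1),(10,1),(0,1),(11,1)]) .nil))))))))))) .nil))))))))))) .nil))))))))))) (.cons (.keep [1,3,4,6,7] (.node (.cons (.leaf 1 [(2,1),(7,1)]) (.cons (.leaf 1 [(3,1),(7,1)]) (.cons (.keep [0,2,7,9,10]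 (.node (.cons (.leaf 1 [(2,1)]) (.cons (.leaf 1 [(3,1)]) (.cons (.leaf 1 [(3,1),(9,1),(8,1)]) (.cons (.leaf 1 []) (.cons (.leaf 1 [(3,1)]) (.cons (.leaf 1 [(3,1),(8,1),(9,1),(11,1)]) (.cons (.leaf 1 [(2,1)]) (.cons (.leaf 1 []) (.cons (.keep [0,7,8,9,10,11] (.node (.cons (.leaf 1 [(5,1)]) (.cons (.leaf 1 [(3,1),(9,1)]) (.cons (.leaf 1 [(3,1),(10,1),(0,1),(9,1)]) (.cons (.leaf 1 [(3,1)]) (.cons (.leaf 1 [(3,1)]) (.cons (.leaf 1 [(3,1)]) (.cons (.leaf 1 [(5,1)]) (.cons (.leaf 1 [(9,1)]) (.cons (.leaf 1 [(10,1),(0,1),(9,1)]) .nil))))))))))) .nil))))))))))) (.cons (.leaf 1 [(7,1)]) (.cons (.leaf 1 [(3,1),(7,1)]) (.cons (.keep [0,1,3,7,8] (.node (.cons (.leaf 1 [(2,1)]) (.cons (.leaf 1 [(3,1)]) (.cons (.leaf 1 [(3,1),(10,1)]) (.cons (.leaf 1 []) (.cons (.leaf 1 [(3,1)]) (.cons (.leaf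 1 [(9,1),(3,1),(10,1)]) (.cons (.leaf 1 [(2,1)]) (.cons (.leaf 1 []) (.cons (.keep [0,7,8,9,10] (.node (.cons (.leaf 1 [(5,1)]) (.cons (.leaf 2 [(3,1),(11,1),(10,1)]) (.cons (.leaf 2 [(3,1),(10,1),(11,1)]) (.cons (.leaf 1 [(3,1)]) (.cons (.leaf 1 [(3,1)]) (.cons (.leaf 1 [(3,1)]) (.cons (.leaf 1 [(5,1)]) (.cons (.leaf 1 [(11,1),(7,1)]) (.cons (.leaf 1 [(0,1),(11,1)]) .nil))))))))))) .nil))))))))))) (.cons (.leaf 1 [(2,1),(7,1)]) (.cons (.leaf 1 [(7,1)]) (.cons (.keep [0,2,7,8,9,10] (.node (.cons (.leaf 1 [(2,1)]) (.cons (.leaf 1 [(3,1)]) (.cons (.leaf 1 [(3,1),(8,1),(9,1)]) (.cons (.leaf 1 []) (.cons (.leaf 1 [(3,1)]) (.cons (.leaf 1 [(3,1),(9,1)]) (.cons (.leaf 1 [(2,1)]) (.cons (.leaf 1 []) (.cons (.keep [0,7,8,9,11] (.node (.cons (.leaf 1 [(5,1)]) (.cons (.leaf 2 [(3,1),(10,1)])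 (.cons (.leaf 2 [(3,1),(10,1)]) (.cons (.leaf 1 [(3,1)]) (.cons (.leaf 1 [(3,1)]) (.cons (.leaf 1 [(3,1)]) (.cons (.leaf 1 [(5,1)]) (.cons (.leaf 1 [(9,1),(10,1),(7,1)]) (.cons (.leaf 1 [(0,1),(10,1),(9,1)]) .nil))))))))))) .nil))))))))))) .nil))))))))))) (.cons (.keep [1,3,4,7] (.node (.cons (.leaf 1 [(2,1),(7,1)]) (.cons (.leaf 1 [(3,1),(7,1)]) (.cons (.keep [0,2,3,7,9] (.node (.cons (.leaf 1 [(2,1)]) (.cons (.leaf 1 [(3,1)]) (.cons (.leaf 1 [(3,1),(10,1),(8,1)]) (.cons (.leaf 1 []) (.cons (.leaf 1 [(3,1)]) (.cons (.leaf 1 [(3,1),(10,1),(9,1)]) (.cons (.leaf 1 [(2,1)]) (.cons (.leaf 1 []) (.cons (.keep [0,7,8,9,10,11] (.node (.cons (.leaf 1 [(5,1)]) (.cons (.leaf 1 [(3,1),(9,1)]) (.cons (.leaf 2 [(3,1),(11,1),(10,1)]) (.cons (.leaf 1 [(3,1)]) (.cons (.leaf 1 [(3,1)]) (.cons (.leaf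 1 [(3,1)]) (.cons (.leaf 1 [(5,1)]) (.cons (.leaf 1 [(9,1)]) (.cons (.leaf 1 [(11,1),(0,1),(9,1)]) .nil))))))))))) .nil))))))))))) (.cons (.leaf 1 [(7,1)]) (.cons (.leaf 1 [(3,1),(7,1)]) (.cons (.keep [0,3,7,8,9] (.node (.cons (.leaf 1 [(2,1)]) (.cons (.leaf 1 [(3,1)]) (.cons (.leaf 1 [(3,1),(9,1)]) (.cons (.leaf 1 []) (.cons (.leaf 1 [(3,1)]) (.cons (.leaf 1 [(8,1),(3,1),(9,1)]) (.cons (.leaf 1 [(2,1)]) (.cons (.leaf 1 []) (.cons (.keep [0,7,8,9,11] (.node (.cons (.leaf 1 [(5,1)]) (.cons (.leaf 2 [(3,1),(10,1),(9,1)]) (.cons (.leaf 2 [(3,1),(9,1),(10,1)]) (.cons (.leaf 1 [(3,1)]) (.cons (.leaf 1 [(3,1)]) (.cons (.leaf 1 [(3,1)]) (.cons (.leaf 1 [(5,1)]) (.cons (.leaf 1 [(10,1),(7,1)]) (.cons (.leaf 1 [(0,1),(10,1)]) .nil))))))))))) .nil))))))))))) (.cons (.leaf 1 [(2,1),(7,1)])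 (.cons (.leaf 1 [(7,1)]) (.cons (.keep [0,1,7,8] (.node (.cons (.leaf 1 [(2,1)]) (.cons (.leaf 1 [(3,1)]) (.cons (.leaf 1 [(3,1),(8,1),(9,1),(10,1)]) (.cons (.leaf 1 []) (.cons (.leaf 1 [(3,1)]) (.cons (.leaf 1 [(3,1),(9,1)]) (.cons (.leaf 1 [(2,1)]) (.cons (.leaf 1 []) (.cons (.keep [0,7,8,9,10] (.node (.cons (.leaf 1 [(5,1)]) (.cons (.leaf 2 [(3,1),(10,1)]) (.cons (.leaf 2 [(3,1),(10,1)]) (.cons (.leaf 1 [(3,1)]) (.cons (.leaf 1 [(3,1)]) (.cons (.leaf 1 [(3,1)]) (.cons (.leaf 1 [(5,1)]) (.cons (.leaf 1 [(11,1)]) (.cons (.leaf 1 [(9,1),(10,1),(0,1),(11,1)]) .nil))))))))))) .nil))))))))))) .nil))))))))))) (.cons (.keep [2,5,6,7,8] (.node (.cons (.leaf 1 [(2,1),(11,1)]) (.cons (.leaf 1 [(3,1),(11,1)]) (.cons (.keep [0,2,3,7,11] (.node (.cons (.leaf 1 [(2,1)]) (.cons (.leaf 1 [(3,1)])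 (.cons (.leaf 1 [(3,1),(11,1),(8,1)]) (.cons (.leaf 1 []) (.cons (.leaf 1 [(3,1)]) (.cons (.leaf 1 [(3,1),(11,1),(9,1)]) (.cons (.leaf 1 [(2,1)]) (.cons (.leaf 1 []) (.cons (.keep [0,7,8,9,10,11] (.node (.cons (.leaf 1 [(5,1)]) (.cons (.leaf 1 [(3,1),(9,1)]) (.cons (.leaf 2 [(3,1),(12,1),(10,1)]) (.cons (.leaf 1 [(3,1)]) (.cons (.leaf 1 [(3,1)]) (.cons (.leaf 1 [(3,1)]) (.cons (.leaf 1 [(5,1)]) (.cons (.leaf 1 [(9,1)]) (.cons (.leaf 1 [(12,1),(0,1),(9,1)]) .nil))))))))))) .nil))))))))))) (.cons (.leaf 1 [(11,1)]) (.cons (.leaf 1 [(3,1),(11,1)]) (.cons (.keep [0,1,8,9,11] (.node (.cons (.leaf 1 [(2,1)]) (.cons (.leaf 1 [(3,1)]) (.cons (.leaf 1 [(11,1),(3,1)]) (.cons (.leaf 1 []) (.cons (.leaf 1 [(3,1)]) (.cons (.leaf 1 [(8,1),(3,1),(11,1),(10,1)]) (.cons (.leaf 1 [(2,1)]) (.cons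 (.leaf 1 []) (.cons (.keep [0,7,8,10,11] (.node (.cons (.leaf 1 [(5,1)]) (.cons (.leaf 3 [(3,2),(11,1),(10,1)]) (.cons (.leaf 1 [(3,1),(0,1),(11,1)]) (.cons (.leaf 1 [(3,1)]) (.cons (.leaf 1 [(3,1)]) (.cons (.leaf 1 [(3,1)]) (.cons (.leaf 1 [(5,1)]) (.cons (.leaf 1 [(11,1),(7,1)]) (.cons (.leaf 1 [(0,1),(11,1)]) .nil))))))))))) .nil))))))))))) (.cons (.leaf 1 [(2,1),(11,1)]) (.cons (.leaf 1 [(11,1)]) (.cons (.keep [0,2,7,9,11] (.node (.cons (.leaf 1 [(2,1)]) (.cons (.leaf 1 [(3,1)]) (.cons (.leaf 1 [(3,1),(11,1),(8,1)]) (.cons (.leaf 1 []) (.cons (.leaf 1 [(3,1)]) (.cons (.leaf 1 [(11,1),(3,1)]) (.cons (.leaf 1 [(2,1)]) (.cons (.leaf 1 []) (.cons (.keep [0,7,8,9,11] (.node (.cons (.leaf 1 [(5,1)]) (.cons (.leaf 2 [(3,1),(11,1)]) (.cons (.leaf 2 [(3,1),(11,1)]) (.cons (.leaf 1 [(3,1)])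 (.cons (.leaf 1 [(3,1)]) (.cons (.leaf 1 [(3,1)]) (.cons (.leaf 1 [(5,1)]) (.cons (.leaf 1 [(9,1),(11,1),(7,1)]) (.cons (.leaf 1 [(0,1),(11,1),(9,1)]) .nil))))))))))) .nil))))))))))) .nil))))))))))) (.cons (.keep [2,6,7,8,9] (.node (.cons (.leaf 1 [(2,1),(10,1)]) (.cons (.leaf 1 [(3,1),(10,1)]) (.cons (.keep [0,2,7,8,10] (.node (.cons (.leaf 1 [(2,1)]) (.cons (.leaf 1 [(3,1)]) (.cons (.leaf 1 [(3,1),(11,1),(8,1)]) (.cons (.leaf 1 []) (.cons (.leaf 1 [(3,1)]) (.cons (.leaf 1 [(3,1),(8,1),(11,1),(10,1)]) (.cons (.leaf 1 [(2,1)]) (.cons (.leaf 1 []) (.cons (.keep [0,7,8,9,10,11] (.node (.cons (.leaf 1 [(5,1)]) (.cons (.leaf 1 [(3,1),(9,1)]) (.cons (.leaf 2 [(3,1),(12,1),(11,1),(9,1)]) (.cons (.leaf 1 [(3,1)]) (.cons (.leaf 1 [(3,1)]) (.cons (.leaf 1 [(3,1)]) (.cons (.leaf 1 [(5,1)])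 (.cons (.leaf 1 [(9,1)]) (.cons (.leaf 1 [(12,1),(0,1),(9,1)]) .nil))))))))))) .nil))))))))))) (.cons (.leaf 1 [(10,1)]) (.cons (.leaf 1 [(3,1),(10,1)]) (.cons (.keep [0,1,3,10,11] (.node (.cons (.leaf 1 [(2,1)]) (.cons (.leaf 1 [(3,1)]) (.cons (.leaf 1 [(3,1),(10,1)]) (.cons (.leaf 1 []) (.cons (.leaf 1 [(3,1)]) (.cons (.leaf 1 [(9,1),(3,1),(10,1)]) (.cons (.leaf 1 [(2,1)]) (.cons (.leaf 1 []) (.cons (.keep [0,7,8,9,10] (.node (.cons (.leaf 1 [(5,1)]) (.cons (.leaf 2 [(3,1),(11,1),(10,1)]) (.cons (.leaf 2 [(3,1),(10,1),(11,1)]) (.cons (.leaf 1 [(3,1)]) (.cons (.leaf 1 [(3,1)]) (.cons (.leaf 1 [(3,1)]) (.cons (.leaf 1 [(5,1)]) (.cons (.leaf 1 [(11,1),(7,1)]) (.cons (.leaf 1 [(0,1),(11,1)]) .nil))))))))))) .nil))))))))))) (.cons (.leaf 1 [(2,1),(10,1)]) (.cons (.leaf 1 [(10,1)])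 (.cons (.keep [0,2,7,8,10,11] (.node (.cons (.leaf 1 [(2,1)]) (.cons (.leaf 1 [(3,1)]) (.cons (.leaf 1 [(3,1),(8,1),(11,1)]) (.cons (.leaf 1 []) (.cons (.leaf 1 [(3,1)]) (.cons (.leaf 1 [(3,1),(11,1)]) (.cons (.leaf 1 [(2,1)]) (.cons (.leaf 1 []) (.cons (.keep [0,7,8,9,11] (.node (.cons (.leaf 1 [(5,1)]) (.cons (.leaf 2 [(3,1),(11,1)]) (.cons (.leaf 2 [(3,1),(11,1)]) (.cons (.leaf 1 [(3,1)]) (.cons (.leaf 1 [(3,1)]) (.cons (.leaf 1 [(3,1)]) (.cons (.leaf 1 [(5,1)]) (.cons (.leaf 1 [(9,1),(11,1),(7,1)]) (.cons (.leaf 1 [(0,1),(11,1),(9,1)]) .nil))))))))))) .nil))))))))))) .nil))))))))))) (.cons (.keep [2,5,7,8,9] (.leaf 0 [(1,0)])) .nil))))))))))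

theorem c_14_28_8 : Concl 14 28 z_14_28_8 h_14_28_8 .nd := piece _ (hP_cons c_14_28_2 (hP_cons
  c_14_28_3 hP_nil)) t_14_28_8 _ _ (by decide +kernel)

end Pool.Agent.H4.RD4.E39
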