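import Pool.Agent.H4.RD4.Chk

/-! # Certificates for special cases of order four -/

set_option maxRecDepth 20000

namespace Pool.Agent.H4.RD4.E41

open Pool.Agent.H50.Rdb
open Pool.Agent.H81.RDE (ESB caseOf)

def z_15_24_0 : F := ⟨-1, -1, 0, -1, 3⟩

def h_15_24_0 : List F := [⟨-1, 0, 0, 0, 0⟩, ⟨0, 0, -1, 1, 0⟩, ⟨0, 0, 0, -1, 1⟩, ⟨0, 1, -1, 0, 0⟩,
  ⟨1, -1, 0, 0, 0⟩]

def t_15_24_0 : T := (.node (.cons (.keep [4,6,7,10,11] (.node (.cons (.leaf 1 [(4,1)]) (.cons (.keep [3,8,9,10,11] (.node (.cons (.leaf 1 [(4,1)]) (.cons (.leaf 1 [(4,1)]) (.cons (.leaf 1 [(4,1),(7,1)]) (.cons (.leaf 1 [(4,1),(7,1)]) (.cons (.leaf 1 [(8,1),(4,1),(7,1)]) (.cons (.leaf 1 [(8,1),(4,1),(7,1)]) (.cons (.leaf 1 [(10,1)]) (.cons (.leaf 1 [(0,1),(10,1)]) .nil)))))))))) (.cons (.leaf 1 [(4,1)]) (.cons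 (.leaf 1 [(1,1),(10,1)]) (.cons (.leaf 1 [(4,1)]) (.cons (.keep [0,1,4,10,11] (.node (.cons (.leaf 1 [(8,1),(4,1)]) (.cons (.leaf 1 [(8,1),(4,1)]) (.cons (.leaf 1 [(4,1)]) (.cons (.leaf 1 [(4,1)]) (.cons (.leaf 1 [(9,1),(4,1)]) (.cons (.leaf 1 [(9,1),(4,1)]) (.cons (.leaf 1 [(10,1)]) (.cons (.leaf 1 [(8,1),(0,1),(10,1)]) .nil)))))))))) (.cons (.leaf 1 []) (.cons (.keep [3,7,8,9,10,11] (.node (.cons (.leaf 1 [(10,1),(7,1),(4,1)]) (.cons (.leaf 1 [(10,1),(7,1),(4,1)]) (.cons (.leaf 1 [(4,1),(7,1)]) (.cons (.leaf 1 [(4,1),(7,1)]) (.cons (.leaf 1 [(4,1)]) (.cons (.leaf 1 [(4,1)]) (.cons (.leaf 1 [(11,1)]) (.cons (.leaf 1 [(10,1),(7,1),(0,1),(11,1)]) .nil)))))))))) .nil)))))))))) (.cons (.keep [4,7,8,10,11] (.node (.cons (.keep [3,4,6,8,9] (.node (.cons (.leaf 1 [(4,1),(3,2),(11,1)])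 (.cons (.keep [0,2,3,9,11] (.node (.cons (.leaf 1 [(2,2),(4,1)]) (.cons (.leaf 1 [(2,2),(11,1),(4,1)]) (.cons (.leaf 1 [(9,2),(4,1)]) (.cons (.leaf 1 [(9,3),(11,1),(4,1)]) (.cons (.leaf 1 [(9,2),(4,1)]) (.cons (.leaf 1 [(9,4),(4,1),(11,1),(0,1)]) (.cons (.leaf 1 [(9,2)]) (.cons (.leaf 1 [(9,4),(11,1),(0,1)]) .nil)))))))))) (.cons (.leaf 1 [(3,2),(7,1)]) (.cons (.leaf 1 [(3,2),(7,1)]) (.cons (.leaf 1 [(4,1),(8,2),(11,1)]) (.cons (.keep [0,4,7,8,11] (.node (.cons (.leaf 1 [(2,2),(4,1)]) (.cons (.leaf 1 [(2,1),(11,1),(4,1)]) (.cons (.leaf 1 [(10,2),(4,1)]) (.cons (.leaf 1 [(10,2),(11,1),(4,1)]) (.cons (.leaf 1 [(10,2),(4,1)]) (.cons (.leaf 1 [(10,3),(4,1),(11,1),(0,1)]) (.cons (.leaf 1 [(10,2)]) (.cons (.leaf 1 [(10,3),(11,1),(0,1)]) .nil)))))))))) (.cons (.leaf 1 [(11,1),(8,2)])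 (.cons (.keep [0,3,7,8,11] (.node (.cons (.leaf 1 [(2,2),(4,1)]) (.cons (.leaf 1 [(2,1),(8,1),(11,1),(4,1)]) (.cons (.leaf 1 [(10,2),(4,1)]) (.cons (.leaf 1 [(10,2),(8,1),(11,1),(4,1)]) (.cons (.leaf 1 [(10,2),(4,1)]) (.cons (.leaf 1 [(10,2),(4,1),(11,1)]) (.cons (.leaf 1 [(10,2)]) (.cons (.leaf 1 [(10,3),(8,1),(11,1),(0,1)]) .nil)))))))))) .nil)))))))))) (.cons (.keep [3,4,5,8,9,10] (.node (.cons (.leaf 1 [(11,1),(3,1),(4,2)]) (.cons (.keep [0,4,5,9,11] (.node (.cons (.leaf 1 [(2,1),(3,1),(4,1)]) (.cons (.leaf 1 [(2,1),(3,1),(11,1),(4,1)]) (.cons (.leaf 1 [(4,1),(8,2),(10,1)]) (.cons (.leaf 1 [(11,1),(8,3),(10,2),(4,1)]) (.cons (.leaf 1 [(8,2),(2,1),(4,1)]) (.cons (.leaf 1 [(8,3),(2,1),(11,1),(4,1)]) (.cons (.leaf 1 [(10,1),(8,2)]) (.cons (.leaf 1 [(10,2),(8,4),(11,1),(0,1)])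 .nil)))))))))) (.cons (.leaf 1 [(3,1),(7,1),(4,1)]) (.cons (.leaf 1 [(3,1),(7,1),(4,1)]) (.cons (.leaf 1 [(11,1),(8,2),(4,2)]) (.cons (.keep [0,4,8,11,12] (.node (.cons (.leaf 1 [(2,1),(3,1),(4,1)]) (.cons (.leaf 1 [(4,1),(3,1),(10,1)]) (.cons (.leaf 1 [(3,1),(9,2),(4,1)]) (.cons (.leaf 1 [(3,1),(9,2),(10,1),(4,1)]) (.cons (.leaf 1 [(9,2),(4,1),(8,1)]) (.cons (.leaf 1 [(9,2),(10,1),(8,2),(4,1)]) (.cons (.leaf 1 [(9,2),(8,1)]) (.cons (.leaf 1 [(9,3),(8,2),(10,1),(0,1)]) .nil)))))))))) (.cons (.leaf 1 [(11,1),(8,1),(12,1)]) (.cons (.keep [0,3,8,11,12] (.node (.cons (.leaf 1 [(2,1),(3,1),(4,1)]) (.cons (.leaf 1 [(2,1),(4,1),(10,1)]) (.cons (.leaf 1 [(3,1),(9,2),(4,1)]) (.cons (.leaf 1 [(4,1),(9,2),(10,1)]) (.cons (.leaf 1 [(9,1),(4,2),(11,1)]) (.cons (.leaf 1 [(9,1),(4,2),(10,1),(11,1)])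 (.cons (.leaf 1 [(9,2),(7,1),(11,1)]) (.cons (.leaf 1 [(9,3),(11,1),(10,1),(0,2)]) .nil)))))))))) .nil)))))))))) (.cons (.leaf 1 [(4,2),(9,1)]) (.cons (.leaf 1 [(4,1),(1,1),(9,1),(10,1)]) (.cons (.leaf 1 [(4,2)]) (.cons (.keep [4,7,8,10,11] (.node (.cons (.leaf 1 [(9,1),(7,2),(4,1)]) (.cons (.leaf 1 [(9,1),(7,2),(4,1)]) (.cons (.leaf 1 [(4,1),(3,1)]) (.cons (.leaf 1 [(4,1),(3,1)]) (.cons (.leaf 1 [(4,1),(7,2)]) (.cons (.leaf 1 [(4,1),(7,2)]) (.cons (.leaf 1 [(10,1),(7,1)]) (.cons (.leaf 1 [(9,1),(7,3),(0,1),(10,1)]) .nil)))))))))) (.cons (.keep [1,6,7,9,11] (.node (.cons (.leaf 1 [(4,1),(3,1),(10,1)]) (.cons (.keep [0,2,3,8,10] (.node (.cons (.leaf 1 [(2,1),(4,1)]) (.cons (.leaf 1 [(2,1),(11,1),(4,1)]) (.cons (.leaf 1 [(4,1),(9,1)]) (.cons (.leaf 1 [(11,1),(9,2),(4,1)]) (.cons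 (.leaf 1 [(9,1),(4,1)]) (.cons (.leaf 1 [(9,2),(4,1),(11,1),(0,1)]) (.cons (.leaf 1 [(9,1)]) (.cons (.leaf 1 [(9,2),(11,1),(0,1)]) .nil)))))))))) (.cons (.leaf 1 [(3,1)]) (.cons (.leaf 1 [(3,1)]) (.cons (.leaf 1 [(4,1),(11,1),(10,1)]) (.cons (.keep [0,1,4,9,10,11] (.node (.cons (.leaf 1 [(2,1),(4,1)]) (.cons (.leaf 1 [(4,1),(11,1)]) (.cons (.leaf 1 [(4,1),(12,1)]) (.cons (.leaf 1 [(4,1),(11,1),(12,1)]) (.cons (.leaf 1 [(12,1),(4,1)]) (.cons (.leaf 1 [(12,1),(4,1),(11,1),(0,1)]) (.cons (.leaf 1 [(12,1)]) (.cons (.leaf 1 [(12,1),(11,1),(0,1)]) .nil)))))))))) (.cons (.leaf 1 [(10,1),(11,1)]) (.cons (.keep [0,3,7,9,10,11] (.node (.cons (.leaf 1 [(2,1),(4,1)]) (.cons (.leaf 1 [(4,1),(8,1),(11,1)]) (.cons (.leaf 1 [(4,1),(12,1)]) (.cons (.leaf 1 [(4,1),(8,1),(11,1),(12,1)]) (.cons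 (.leaf 1 [(12,1),(4,1)]) (.cons (.leaf 1 [(12,1),(4,1),(11,1)]) (.cons (.leaf 1 [(12,1)]) (.cons (.leaf 1 [(8,1),(11,1),(12,1),(0,1)]) .nil)))))))))) .nil)))))))))) (.cons (.keep [0,1,9,10,11] (.node (.cons (.leaf 1 [(9,1),(4,2)]) (.cons (.keep [0,4,8,9,10,11] (.node (.cons (.leaf 1 [(3,1),(4,1)]) (.cons (.leaf 1 [(3,1),(10,1),(4,1)]) (.cons (.leaf 1 [(4,1),(8,1)]) (.cons (.leaf 1 [(4,1),(8,2),(10,1),(0,1)]) (.cons (.leaf 1 [(4,1),(8,1)]) (.cons (.leaf 1 [(10,1),(8,2),(4,1)]) (.cons (.leaf 1 [(8,1)]) (.cons (.leaf 1 [(8,2),(10,1),(0,1)]) .nil)))))))))) (.cons (.leaf 1 [(4,1)]) (.cons (.leaf 1 [(4,1)]) (.cons (.leaf 1 [(9,1),(4,3),(11,1)]) (.cons (.keep [0,1,4,7,9,11] (.node (.cons (.leaf 1 [(3,1),(4,1)]) (.cons (.leaf 1 [(8,1),(3,1),(11,1),(4,1)]) (.cons (.leaf 1 [(3,2),(12,1),(4,1)])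 (.cons (.leaf 1 [(3,2),(12,1),(11,1),(4,1)]) (.cons (.leaf 1 [(9,2),(4,1),(12,1)]) (.cons (.leaf 1 [(4,1),(11,1),(9,3),(12,1)]) (.cons (.leaf 1 [(9,2),(12,1)]) (.cons (.leaf 1 [(9,3),(12,1),(11,1),(0,1)]) .nil)))))))))) (.cons (.leaf 1 [(9,1),(10,2),(11,1)]) (.cons (.keep [0,8,9,10,11] (.node (.cons (.leaf 1 [(3,1),(4,1)]) (.cons (.leaf 1 [(4,1),(9,1)]) (.cons (.leaf 1 [(3,2),(11,1),(4,1)]) (.cons (.leaf 1 [(3,1),(11,1),(9,1),(4,1)]) (.cons (.leaf 1 [(10,2),(4,3),(11,1)]) (.cons (.leaf 1 [(10,2),(4,3),(9,1),(11,1)]) (.cons (.leaf 1 [(7,2),(11,1),(10,2)]) (.cons (.leaf 1 [(10,2),(11,1),(9,1),(0,3)]) .nil)))))))))) .nil)))))))))) .nil)))))))))) (.cons (.leaf 1 [(1,2)]) (.cons (.keep [1,7,8,9,11] (.node (.cons (.keep [3,4,6,8,9] (.node (.cons (.leaf 1 [(4,1),(3,3),(11,1)]) (.cons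 (.keep [0,2,3,9,11] (.node (.cons (.leaf 1 [(2,3),(4,1)]) (.cons (.leaf 1 [(2,3),(11,1),(4,1)]) (.cons (.leaf 1 [(9,3),(4,1)]) (.cons (.leaf 1 [(9,4),(11,1),(4,1)]) (.cons (.leaf 1 [(9,3),(4,1)]) (.cons (.leaf 1 [(9,6),(4,1),(11,1),(0,1)]) (.cons (.leaf 1 [(9,3)]) (.cons (.leaf 1 [(9,6),(11,1),(0,1)]) .nil)))))))))) (.cons (.leaf 1 [(3,3),(7,2)]) (.cons (.leaf 1 [(3,3),(7,2)]) (.cons (.leaf 1 [(4,1),(8,3),(11,1)]) (.cons (.keep [0,4,7,8,11] (.node (.cons (.leaf 1 [(2,3),(4,1)]) (.cons (.leaf 1 [(2,2),(11,1),(4,1)]) (.cons (.leaf 1 [(10,3),(4,1)]) (.cons (.leaf 1 [(10,3),(11,1),(4,1)]) (.cons (.leaf 1 [(10,3),(4,1)]) (.cons (.leaf 1 [(10,5),(4,1),(11,1),(0,1)]) (.cons (.leaf 1 [(10,3)]) (.cons (.leaf 1 [(10,5),(11,1),(0,1)]) .nil)))))))))) (.cons (.leaf 1 [(11,1),(8,3)]) (.cons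 (.keep [0,3,7,8,11] (.node (.cons (.leaf 1 [(2,3),(4,1)]) (.cons (.leaf 1 [(2,2),(8,1),(11,1),(4,1)]) (.cons (.leaf 1 [(10,3),(4,1)]) (.cons (.leaf 1 [(10,3),(8,1),(11,1),(4,1)]) (.cons (.leaf 1 [(10,3),(4,1)]) (.cons (.leaf 1 [(10,3),(4,1),(11,1)]) (.cons (.leaf 1 [(10,3)]) (.cons (.leaf 1 [(10,5),(8,1),(11,1),(0,1)]) .nil)))))))))) .nil)))))))))) (.cons (.keep [3,5,7,8,9] (.node (.cons (.leaf 1 [(11,1),(3,1),(4,3)]) (.cons (.keep [0,4,5,8,11] (.node (.cons (.leaf 1 [(2,1),(3,2),(4,1)]) (.cons (.leaf 1 [(2,1),(3,2),(11,1),(4,1)]) (.cons (.leaf 1 [(4,1),(8,3),(10,1)]) (.cons (.leaf 1 [(11,1),(8,4),(10,2),(4,1)]) (.cons (.leaf 1 [(2,1),(8,3),(4,1)]) (.cons (.leaf 1 [(2,1),(8,4),(11,1),(4,1)]) (.cons (.leaf 1 [(10,1),(8,3)]) (.cons (.leaf 1 [(10,2),(8,6),(11,1),(0,1)]) .nil))))))))))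 (.cons (.leaf 1 [(3,1),(7,2),(4,2)]) (.cons (.leaf 1 [(3,1),(7,2),(4,2)]) (.cons (.leaf 1 [(11,1),(9,3)]) (.cons (.keep [0,7,8,9,10,11] (.node (.cons (.leaf 1 [(2,1),(3,2),(4,1)]) (.cons (.leaf 1 [(4,1),(3,2),(12,1)]) (.cons (.leaf 1 [(4,1),(10,3),(9,1)]) (.cons (.leaf 1 [(4,1),(10,3),(12,1),(9,1)]) (.cons (.leaf 1 [(2,1),(10,3),(4,1)]) (.cons (.leaf 1 [(4,1),(10,3),(12,1)]) (.cons (.leaf 1 [(9,1),(10,3)]) (.cons (.leaf 1 [(9,1),(10,5),(12,1),(0,1)]) .nil)))))))))) (.cons (.leaf 1 [(11,1),(3,1),(9,3)]) (.cons (.keep [0,3,7,9,11] (.node (.cons (.leaf 1 [(2,1),(3,2),(4,1)]) (.cons (.leaf 1 [(2,1),(3,1),(11,1),(4,1)]) (.cons (.leaf 1 [(4,1),(10,3),(8,1)]) (.cons (.leaf 1 [(11,1),(10,3),(8,2),(4,1)]) (.cons (.leaf 1 [(2,1),(10,3),(4,1)]) (.cons (.leaf 1 [(2,1),(10,3),(11,1),(4,1)])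 (.cons (.leaf 1 [(8,1),(10,3)]) (.cons (.leaf 1 [(8,2),(10,5),(11,1),(0,1)]) .nil)))))))))) .nil)))))))))) (.cons (.leaf 1 [(4,3),(9,1)]) (.cons (.leaf 1 [(7,2),(9,1),(4,1)]) (.cons (.leaf 1 [(4,3)]) (.cons (.leaf 1 [(7,2),(4,1)]) (.cons (.keep [1,6,9,10,11] (.node (.cons (.leaf 1 [(4,1),(3,1),(9,1)]) (.cons (.keep [0,2,3,8,9] (.node (.cons (.leaf 1 [(2,1),(4,1)]) (.cons (.leaf 1 [(2,1),(11,1),(4,1)]) (.cons (.leaf 1 [(4,1),(9,1)]) (.cons (.leaf 1 [(11,1),(9,2),(4,1)]) (.cons (.leaf 1 [(9,1),(4,1)]) (.cons (.leaf 1 [(9,2),(4,1),(11,1),(0,1)]) (.cons (.leaf 1 [(9,1)]) (.cons (.leaf 1 [(9,2),(11,1),(0,1)]) .nil)))))))))) (.cons (.leaf 1 [(3,1)]) (.cons (.leaf 1 [(3,1)]) (.cons (.leaf 1 [(4,1),(11,1),(9,1)]) (.cons (.keep [0,1,4,9,10,11] (.node (.cons (.leaf 1 [(2,1),(4,1)])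 (.cons (.leaf 1 [(4,1),(10,1)]) (.cons (.leaf 1 [(4,1),(12,1)]) (.cons (.leaf 1 [(4,1),(10,1),(12,1)]) (.cons (.leaf 1 [(12,1),(4,1)]) (.cons (.leaf 1 [(12,1),(4,1),(10,1),(0,1)]) (.cons (.leaf 1 [(12,1)]) (.cons (.leaf 1 [(12,1),(10,1),(0,1)]) .nil)))))))))) (.cons (.leaf 1 [(9,1),(11,1)]) (.cons (.keep [0,3,7,9,10,11] (.node (.cons (.leaf 1 [(2,1),(4,1)]) (.cons (.leaf 1 [(4,1),(8,1),(10,1)]) (.cons (.leaf 1 [(4,1),(12,1)]) (.cons (.leaf 1 [(4,1),(8,1),(10,1),(12,1)]) (.cons (.leaf 1 [(12,1),(4,1)]) (.cons (.leaf 1 [(12,1),(4,1),(10,1)]) (.cons (.leaf 1 [(12,1)]) (.cons (.leaf 1 [(8,1),(10,1),(12,1),(0,1)]) .nil)))))))))) .nil)))))))))) (.cons (.keep [7,8,9,10,11] (.node (.cons (.leaf 1 [(9,1),(7,1),(4,2)]) (.cons (.keep [0,4,5,7,9] (.node (.cons (.leaf 1 [(10,1),(3,1),(4,1)])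 (.cons (.leaf 1 [(10,1),(3,1),(11,1),(4,1)]) (.cons (.leaf 1 [(3,1),(8,1),(4,1)]) (.cons (.leaf 1 [(4,1),(8,2),(11,1)]) (.cons (.leaf 1 [(10,1),(8,1),(4,1)]) (.cons (.leaf 1 [(11,1),(10,1),(8,2),(4,1)]) (.cons (.leaf 1 [(10,1),(8,1)]) (.cons (.leaf 1 [(11,1),(10,2),(8,2),(0,1)]) .nil)))))))))) (.cons (.leaf 1 [(4,1),(7,1)]) (.cons (.leaf 1 [(4,1),(7,1)]) (.cons (.leaf 1 [(9,1),(4,3),(11,1)]) (.cons (.keep [0,4,8,9,10,11] (.node (.cons (.leaf 1 [(8,1),(3,1),(4,1)]) (.cons (.leaf 1 [(8,2),(4,1),(10,1)]) (.cons (.leaf 1 [(3,2),(12,1),(4,1)]) (.cons (.leaf 1 [(3,2),(12,1),(10,1),(4,1)]) (.cons (.leaf 1 [(8,2),(12,1),(4,1)]) (.cons (.leaf 1 [(8,3),(12,1),(10,1),(4,1)]) (.cons (.leaf 1 [(8,2),(12,1)]) (.cons (.leaf 1 [(8,4),(12,1),(10,1),(0,1)]) .nil)))))))))) (.cons (.leaf 1 [(9,1),(7,2),(11,1)])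 (.cons (.keep [0,1,7,9,10,11] (.node (.cons (.leaf 1 [(9,1),(3,1),(4,1)]) (.cons (.leaf 1 [(9,1),(4,1),(10,1)]) (.cons (.leaf 1 [(3,2),(12,1),(4,1)]) (.cons (.leaf 1 [(3,1),(12,1),(10,1),(4,1)]) (.cons (.leaf 1 [(9,2),(12,1),(4,1)]) (.cons (.leaf 1 [(9,2),(12,1),(10,1),(4,1)]) (.cons (.leaf 1 [(9,2),(12,1)]) (.cons (.leaf 1 [(9,3),(12,1),(10,1),(0,1)]) .nil)))))))))) .nil)))))))))) .nil)))))))))) (.cons (.leaf 1 [(10,1),(1,2)]) (.cons (.leaf 1 [(10,2),(1,3),(8,1),(11,1)]) (.cons (.keep [1,6,9,10,11] (.node (.cons (.leaf 1 [(7,1),(4,1)]) (.cons (.keep [0,7,8,10,11] (.node (.cons (.leaf 1 [(8,1),(4,1)]) (.cons (.leaf 1 [(8,1),(4,1)]) (.cons (.leaf 1 [(4,1)]) (.cons (.leaf 1 [(4,1)]) (.cons (.leaf 1 [(9,1),(4,1)]) (.cons (.leaf 1 [(9,1),(4,1)]) (.cons (.leaf 1 [(8,1),(10,1)])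 (.cons (.leaf 1 [(8,2),(0,1),(10,1)]) .nil)))))))))) (.cons (.leaf 1 [(4,1),(7,1)]) (.cons (.leaf 1 [(1,1),(7,1),(10,1)]) (.cons (.leaf 1 [(1,1),(4,1)]) (.cons (.keep [0,1,4,10,11] (.node (.cons (.leaf 1 [(8,2),(4,1)]) (.cons (.leaf 1 [(8,2),(4,1)]) (.cons (.leaf 1 [(1,1),(4,1)]) (.cons (.leaf 1 [(1,1),(4,1)]) (.cons (.leaf 1 [(8,1),(4,1),(9,1)]) (.cons (.leaf 1 [(8,1),(4,1),(9,1)]) (.cons (.leaf 1 [(8,1),(10,1)]) (.cons (.leaf 1 [(8,3),(0,1),(10,1)]) .nil)))))))))) (.cons (.leaf 1 [(7,1)]) (.cons (.keep [3,5,7,8,9,10] (.node (.cons (.leaf 1 [(9,2),(7,1),(4,1)]) (.cons (.leaf 1 [(9,2),(7,1),(4,1)]) (.cons (.leaf 1 [(4,1),(1,1),(7,1)]) (.cons (.leaf 1 [(4,1),(7,1),(1,1)]) (.cons (.leaf 1 [(9,1),(4,1)]) (.cons (.leaf 1 [(9,1),(4,1)]) (.cons (.leaf 1 [(9,1),(12,1)]) (.cons (.leaf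 1 [(9,3),(7,1),(0,1),(12,1)]) .nil)))))))))) .nil)))))))))) (.cons (.keep [1,5,9,10,11] (.node (.cons (.leaf 1 [(7,2),(4,2)]) (.cons (.keep [4,7,8,10,11] (.node (.cons (.leaf 1 [(8,2),(3,1),(4,1)]) (.cons (.leaf 1 [(8,2),(3,1),(4,1)]) (.cons (.leaf 1 [(4,1),(3,1)]) (.cons (.leaf 1 [(4,1),(3,1)]) (.cons (.leaf 1 [(8,2),(7,2),(4,1)]) (.cons (.leaf 1 [(8,2),(7,2),(4,1)]) (.cons (.leaf 1 [(8,2),(7,1),(10,1)]) (.cons (.leaf 1 [(8,4),(7,2),(0,1),(10,1)]) .nil)))))))))) (.cons (.leaf 1 [(4,1),(7,2),(10,1)]) (.cons (.leaf 1 [(4,1),(7,2),(10,1)]) (.cons (.leaf 1 [(1,1),(4,2)]) (.cons (.keep [1,4,5,8,9,10] (.node (.cons (.leaf 1 [(7,3),(3,1),(4,1)]) (.cons (.leaf 1 [(7,3),(3,1),(4,1)]) (.cons (.leaf 1 [(1,1),(3,1),(4,1)]) (.cons (.leaf 1 [(1,1),(3,1),(4,1)]) (.cons (.leaf 1 [(7,1),(8,2),(4,1)])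 (.cons (.leaf 1 [(7,1),(8,2),(4,1)]) (.cons (.leaf 1 [(7,1),(8,1),(12,1)]) (.cons (.leaf 1 [(7,3),(8,2),(0,1),(12,1)]) .nil)))))))))) (.cons (.leaf 1 [(7,1),(11,1)]) (.cons (.keep [0,3,7,10,11] (.node (.cons (.leaf 1 [(9,2),(4,1)]) (.cons (.leaf 1 [(9,2),(4,1)]) (.cons (.leaf 1 [(1,1),(4,1)]) (.cons (.leaf 1 [(1,1),(4,1)]) (.cons (.leaf 1 [(9,1),(4,2),(11,1)]) (.cons (.leaf 1 [(9,1),(4,2),(11,1)]) (.cons (.leaf 1 [(9,1),(10,2),(11,1)]) (.cons (.leaf 1 [(9,5),(0,2),(11,1),(10,2)]) .nil)))))))))) .nil)))))))))) .nil)))))))))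

theorem c_15_24_0 : Concl 15 24 z_15_24_0 h_15_24_0 .nd := piece _ hP_nil t_15_24_0 _ _ (by
  decide +kernel)

def z_15_24_1 : F := ⟨0, -1, 0, -1, 3⟩

def h_15_24_1 : List F := [⟨1, 0, 0, 0, 0⟩, ⟨1, -1, 0, 0, 0⟩, ⟨0, 0, -1, 1, 0⟩, ⟨1, 0, 0, -1, 1⟩,
  ⟨0, 1, -1, 0, 0⟩, ⟨-1, 0, 0, 0, 1⟩]

def t_15_24_1 : T := (.node (.cons (.keep [4,6,8,11,12] (.node (.cons (.leaf 1 [(8,1)]) (.cons (.keep [0,8,9,10,11] (.node (.cons (.leaf 1 [(11,1),(4,1)]) (.cons (.leaf 1 [(11,1),(4,1)]) (.cons (.leaf 1 [(4,1)]) (.cons (.leaf 1 [(4,1)]) (.cons (.leaf 1 [(8,1),(4,1)]) (.cons (.leaf 1 [(8,1),(4,1)]) (.cons (.leaf 1 [(11,1),(10,1)]) (.cons (.leaf 1 [(11,2),(0,1),(10,1)]) .nil)))))))))) (.cons (.leaf 1 [(1,1),(8,1)]) (.cons (.leaf 1 [(1,1),(11,1),(10,1)]) (.cons (.leaf 1 [(1,1),(4,1)]) (.cons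 (.keep [0,1,4,9,10] (.node (.cons (.leaf 1 [(8,2),(4,1)]) (.cons (.leaf 1 [(8,2),(4,1)]) (.cons (.leaf 1 [(1,1),(4,1)]) (.cons (.leaf 1 [(1,1),(4,1)]) (.cons (.leaf 1 [(8,1),(4,1),(9,1)]) (.cons (.leaf 1 [(8,1),(4,1),(9,1)]) (.cons (.leaf 1 [(8,1),(11,1)]) (.cons (.leaf 1 [(8,3),(0,1),(11,1)]) .nil)))))))))) (.cons (.leaf 1 [(8,1),(1,1)]) (.cons (.keep [3,7,8,9,10,11] (.node (.cons (.leaf 1 [(9,1),(11,2),(4,1)]) (.cons (.leaf 1 [(12,2),(7,1),(4,1)]) (.cons (.leaf 1 [(4,1),(1,1),(7,1)]) (.cons (.leaf 1 [(4,1),(7,1),(1,1)]) (.cons (.leaf 1 [(1,1),(4,1),(9,1)]) (.cons (.leaf 1 [(9,1),(4,1),(1,1)]) (.cons (.leaf 1 [(1,1),(11,2),(9,1)]) (.cons (.leaf 1 [(12,3),(7,1),(0,1),(11,1)]) .nil)))))))))) .nil)))))))))) (.cons (.keep [7,8,9,10,11,12] (.node (.cons (.keep [4,6,9,10,12] (.node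 (.cons (.leaf 1 [(4,1),(3,1),(9,1)]) (.cons (.keep [0,3,8,9,10] (.node (.cons (.leaf 1 [(2,1),(4,1)]) (.cons (.leaf 1 [(2,1),(10,1),(4,1)]) (.cons (.leaf 1 [(4,1),(8,1)]) (.cons (.leaf 1 [(10,1),(8,2),(4,1)]) (.cons (.leaf 1 [(8,1),(4,1)]) (.cons (.leaf 1 [(8,2),(4,1),(10,1),(0,1)]) (.cons (.leaf 1 [(8,1)]) (.cons (.leaf 1 [(8,2),(10,1),(0,1)]) .nil)))))))))) (.cons (.leaf 1 [(3,1)]) (.cons (.leaf 1 [(3,1)]) (.cons (.leaf 1 [(4,1),(7,1),(9,1)]) (.cons (.keep [0,1,4,7,9,10] (.node (.cons (.leaf 1 [(2,1),(4,1)]) (.cons (.leaf 1 [(4,1),(11,1)]) (.cons (.leaf 1 [(4,1),(10,1)]) (.cons (.leaf 1 [(4,1),(11,1),(10,1)]) (.cons (.leaf 1 [(10,1),(4,1)]) (.cons (.leaf 1 [(10,1),(4,1),(11,1),(0,1)]) (.cons (.leaf 1 [(10,1)]) (.cons (.leaf 1 [(10,1),(11,1),(0,1)]) .nil)))))))))) (.cons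 (.leaf 1 [(9,1),(7,1)]) (.cons (.keep [0,3,7,9,10,11] (.node (.cons (.leaf 1 [(2,1),(4,1)]) (.cons (.leaf 1 [(4,1),(8,1),(10,1)]) (.cons (.leaf 1 [(4,1),(9,1)]) (.cons (.leaf 1 [(4,1),(8,1),(10,1),(9,1)]) (.cons (.leaf 1 [(9,1),(4,1)]) (.cons (.leaf 1 [(9,1),(4,1),(10,1)]) (.cons (.leaf 1 [(9,1)]) (.cons (.leaf 1 [(8,1),(10,1),(9,1),(0,1)]) .nil)))))))))) .nil)))))))))) (.cons (.keep [4,5,9,10,11,12] (.node (.cons (.leaf 1 [(9,1),(4,2)]) (.cons (.keep [0,4,8,9,10,12] (.node (.cons (.leaf 1 [(3,1),(4,1)]) (.cons (.leaf 1 [(3,1),(10,1),(4,1)]) (.cons (.leaf 1 [(4,1),(8,1)]) (.cons (.leaf 1 [(4,1),(8,2),(10,1),(0,1)]) (.cons (.leaf 1 [(4,1),(8,1)]) (.cons (.leaf 1 [(10,1),(8,2),(4,1)]) (.cons (.leaf 1 [(8,1)]) (.cons (.leaf 1 [(8,2),(10,1),(0,1)]) .nil)))))))))) (.cons (.leaf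 1 [(4,1)]) (.cons (.leaf 1 [(4,1)]) (.cons (.leaf 1 [(9,1),(4,2),(7,1)]) (.cons (.keep [0,1,4,7,9,11] (.node (.cons (.leaf 1 [(3,1),(4,1)]) (.cons (.leaf 1 [(8,1),(3,1),(11,1),(4,1)]) (.cons (.leaf 1 [(3,1),(10,1),(4,1)]) (.cons (.leaf 1 [(3,1),(10,1),(11,1),(4,1)]) (.cons (.leaf 1 [(9,1),(4,1),(10,1)]) (.cons (.leaf 1 [(4,1),(11,1),(9,2),(10,1)]) (.cons (.leaf 1 [(9,1),(10,1)]) (.cons (.leaf 1 [(9,2),(10,1),(11,1),(0,1)]) .nil)))))))))) (.cons (.leaf 1 [(9,1),(11,1)]) (.cons (.keep [0,3,7,9,11,12] (.node (.cons (.leaf 1 [(3,1),(4,1)]) (.cons (.leaf 1 [(4,1),(10,1)]) (.cons (.leaf 1 [(3,1),(9,1),(4,1)]) (.cons (.leaf 1 [(4,1),(9,1),(10,1)]) (.cons (.leaf 1 [(4,2),(11,1)]) (.cons (.leaf 1 [(4,2),(10,1),(11,1)]) (.cons (.leaf 1 [(7,1),(11,1)]) (.cons (.leaf 1 [(11,1),(10,1),(0,2)])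 .nil)))))))))) .nil)))))))))) (.cons (.leaf 1 [(4,1),(1,1),(9,1)]) (.cons (.leaf 1 [(1,2),(9,1),(11,1)]) (.cons (.leaf 1 [(1,1),(4,1)]) (.cons (.keep [4,8,10,11,12] (.node (.cons (.leaf 1 [(10,2),(4,1)]) (.cons (.leaf 1 [(7,2),(11,2),(4,1)]) (.cons (.leaf 1 [(1,1),(4,1)]) (.cons (.leaf 1 [(1,1),(4,1)]) (.cons (.leaf 1 [(1,1),(4,1),(7,2)]) (.cons (.leaf 1 [(1,1),(4,1),(7,2)]) (.cons (.leaf 1 [(1,1),(10,2)]) (.cons (.leaf 1 [(7,3),(11,3),(0,1),(10,1)]) .nil)))))))))) (.cons (.keep [1,6,7,9,10] (.node (.cons (.leaf 1 [(4,1),(10,1)]) (.cons (.keep [0,3,7,8,10,11] (.node (.cons (.leaf 1 [(4,1)]) (.cons (.leaf 1 [(11,1),(4,1)]) (.cons (.leaf 1 [(4,1)]) (.cons (.leaf 1 [(4,1),(11,1),(0,1)]) (.cons (.leaf 1 [(4,1)]) (.cons (.leaf 1 [(4,1),(11,1),(0,1)]) (.cons (.leaf 1 []) (.cons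 (.leaf 1 [(11,1),(0,1)]) .nil)))))))))) (.cons (.leaf 1 [(1,1)]) (.cons (.leaf 1 [(1,1)]) (.cons (.leaf 1 [(4,1),(10,1)]) (.cons (.keep [0,1,4,10,11] (.node (.cons (.leaf 1 [(4,1)]) (.cons (.leaf 1 [(8,1),(10,1),(4,1)]) (.cons (.leaf 1 [(4,1)]) (.cons (.leaf 1 [(4,1),(10,1)]) (.cons (.leaf 1 [(4,1)]) (.cons (.leaf 1 [(8,1),(4,1),(10,1),(0,1)]) (.cons (.leaf 1 []) (.cons (.leaf 1 [(8,1),(10,1),(0,1)]) .nil)))))))))) (.cons (.leaf 1 [(10,1)]) (.cons (.keep [0,3,7,10,11] (.node (.cons (.leaf 1 [(4,1)]) (.cons (.leaf 1 [(9,1),(8,1),(10,1),(4,1)]) (.cons (.leaf 1 [(4,1)]) (.cons (.leaf 1 [(4,1),(8,1),(10,1)]) (.cons (.leaf 1 [(4,1)]) (.cons (.leaf 1 [(4,1),(10,1)]) (.cons (.leaf 1 []) (.cons (.leaf 1 [(9,1),(8,1),(10,1),(0,1)]) .nil)))))))))) .nil)))))))))) (.cons (.keep [1,3,7,8,9,11]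 (.node (.cons (.leaf 1 [(11,1),(7,1),(4,2)]) (.cons (.keep [0,4,7,11,12] (.node (.cons (.leaf 1 [(9,1),(3,1),(4,1)]) (.cons (.leaf 1 [(9,1),(3,1),(10,1),(4,1)]) (.cons (.leaf 1 [(4,1),(3,1)]) (.cons (.leaf 1 [(4,1),(3,2),(10,1),(0,1)]) (.cons (.leaf 1 [(9,1),(4,1),(8,1)]) (.cons (.leaf 1 [(9,1),(10,1),(8,2),(4,1)]) (.cons (.leaf 1 [(9,1),(8,1)]) (.cons (.leaf 1 [(9,2),(8,2),(10,1),(0,1)]) .nil)))))))))) (.cons (.leaf 1 [(4,1),(7,1)]) (.cons (.leaf 1 [(4,1),(7,1)]) (.cons (.leaf 1 [(11,1),(4,2)]) (.cons (.keep [0,1,4,5,11] (.node (.cons (.leaf 1 [(8,1),(3,1),(4,1)]) (.cons (.leaf 1 [(8,2),(3,1),(11,1),(4,1)]) (.cons (.leaf 1 [(4,1),(3,1)]) (.cons (.leaf 1 [(4,1),(3,1),(11,1)]) (.cons (.leaf 1 [(9,1),(4,1)]) (.cons (.leaf 1 [(4,1),(11,1),(9,2)]) (.cons (.leaf 1 [(9,1)]) (.cons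 (.leaf 1 [(8,1),(9,2),(11,1),(0,1)]) .nil)))))))))) (.cons (.leaf 1 [(11,1),(12,1)]) (.cons (.keep [0,7,10,11,12] (.node (.cons (.leaf 1 [(8,1),(3,1),(4,1)]) (.cons (.leaf 1 [(8,1),(4,1),(10,1)]) (.cons (.leaf 1 [(4,1),(3,1)]) (.cons (.leaf 1 [(4,1),(10,1)]) (.cons (.leaf 1 [(11,1),(4,2)]) (.cons (.leaf 1 [(11,1),(4,2),(10,1)]) (.cons (.leaf 1 [(8,1),(7,1),(11,1)]) (.cons (.leaf 1 [(8,2),(11,1),(10,1),(0,2)]) .nil)))))))))) .nil)))))))))) .nil)))))))))) (.cons (.leaf 1 [(1,2),(12,1)]) (.cons (.keep [1,8,9,10,12] (.node (.cons (.keep [4,6,9,10,11] (.node (.cons (.leaf 1 [(4,1),(3,1),(9,1)]) (.cons (.keep [0,3,8,9,10] (.node (.cons (.leaf 1 [(2,1),(4,1)]) (.cons (.leaf 1 [(2,1),(10,1),(4,1)]) (.cons (.leaf 1 [(4,1),(8,1)]) (.cons (.leaf 1 [(10,1),(8,2),(4,1)]) (.cons (.leaf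 1 [(8,1),(4,1)]) (.cons (.leaf 1 [(8,2),(4,1),(10,1),(0,1)]) (.cons (.leaf 1 [(8,1)]) (.cons (.leaf 1 [(8,2),(10,1),(0,1)]) .nil)))))))))) (.cons (.leaf 1 [(3,1)]) (.cons (.leaf 1 [(3,1)]) (.cons (.leaf 1 [(4,1),(7,1),(9,1)]) (.cons (.keep [0,1,4,7,9,10] (.node (.cons (.leaf 1 [(2,1),(4,1)]) (.cons (.leaf 1 [(4,1),(11,1)]) (.cons (.leaf 1 [(4,1),(10,1)]) (.cons (.leaf 1 [(4,1),(11,1),(10,1)]) (.cons (.leaf 1 [(10,1),(4,1)]) (.cons (.leaf 1 [(10,1),(4,1),(11,1),(0,1)]) (.cons (.leaf 1 [(10,1)]) (.cons (.leaf 1 [(10,1),(11,1),(0,1)]) .nil)))))))))) (.cons (.leaf 1 [(9,1),(7,1)]) (.cons (.keep [0,3,7,9,10,11] (.node (.cons (.leaf 1 [(2,1),(4,1)]) (.cons (.leaf 1 [(4,1),(8,1),(10,1)]) (.cons (.leaf 1 [(4,1),(9,1)]) (.cons (.leaf 1 [(4,1),(8,1),(10,1),(9,1)]) (.cons (.leaf 1 [(9,1),(4,1)])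 (.cons (.leaf 1 [(9,1),(4,1),(10,1)]) (.cons (.leaf 1 [(9,1)]) (.cons (.leaf 1 [(8,1),(10,1),(9,1),(0,1)]) .nil)))))))))) .nil)))))))))) (.cons (.keep [5,7,9,10,11] (.node (.cons (.leaf 1 [(9,1),(4,2)]) (.cons (.keep [0,4,7,9,10,11] (.node (.cons (.leaf 1 [(3,1),(4,1)]) (.cons (.leaf 1 [(3,1),(10,1),(4,1)]) (.cons (.leaf 1 [(4,1),(8,1)]) (.cons (.leaf 1 [(4,1),(8,2),(10,1),(0,1)]) (.cons (.leaf 1 [(4,1),(8,1)]) (.cons (.leaf 1 [(10,1),(8,2),(4,1)]) (.cons (.leaf 1 [(8,1)]) (.cons (.leaf 1 [(8,2),(10,1),(0,1)]) .nil)))))))))) (.cons (.leaf 1 [(4,1)]) (.cons (.leaf 1 [(4,1)]) (.cons (.leaf 1 [(9,1),(4,1),(8,1)]) (.cons (.keep [0,8,9,10,11] (.node (.cons (.leaf 1 [(3,1),(4,1)]) (.cons (.leaf 1 [(11,1),(3,2),(9,1),(4,1)]) (.cons (.leaf 1 [(4,1),(8,1)]) (.cons (.leaf 1 [(4,1),(8,1),(9,1)])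 (.cons (.leaf 1 [(4,1),(8,1)]) (.cons (.leaf 1 [(11,1),(9,1),(8,3),(4,1)]) (.cons (.leaf 1 [(8,1)]) (.cons (.leaf 1 [(11,1),(8,3),(9,1),(0,1)]) .nil)))))))))) (.cons (.leaf 1 [(9,1),(8,1)]) (.cons (.keep [0,3,8,9,10,11] (.node (.cons (.leaf 1 [(3,1),(4,1)]) (.cons (.leaf 1 [(4,1),(10,1)]) (.cons (.leaf 1 [(4,1),(9,1)]) (.cons (.leaf 1 [(4,1),(9,1),(10,1),(0,1)]) (.cons (.leaf 1 [(4,1),(9,1)]) (.cons (.leaf 1 [(4,1),(10,1),(9,1)]) (.cons (.leaf 1 [(9,1)]) (.cons (.leaf 1 [(9,1),(10,1),(0,1)]) .nil)))))))))) .nil)))))))))) (.cons (.leaf 1 [(4,1),(1,1),(9,1)]) (.cons (.leaf 1 [(7,1),(1,1),(9,1)]) (.cons (.leaf 1 [(1,1),(4,1)]) (.cons (.leaf 1 [(1,1),(7,1)]) (.cons (.keep [1,6,8,9,10] (.node (.cons (.leaf 1 [(4,1),(10,1)]) (.cons (.keep [0,3,7,8,10,11] (.node (.cons (.leaf 1 [(4,1)])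 (.cons (.leaf 1 [(11,1),(4,1)]) (.cons (.leaf 1 [(4,1)]) (.cons (.leaf 1 [(4,1),(11,1),(0,1)]) (.cons (.leaf 1 [(4,1)]) (.cons (.leaf 1 [(4,1),(11,1),(0,1)]) (.cons (.leaf 1 []) (.cons (.leaf 1 [(11,1),(0,1)]) .nil)))))))))) (.cons (.leaf 1 [(1,1)]) (.cons (.leaf 1 [(1,1)]) (.cons (.leaf 1 [(4,1),(10,1)]) (.cons (.keep [0,1,4,10,11] (.node (.cons (.leaf 1 [(4,1)]) (.cons (.leaf 1 [(8,1),(10,1),(4,1)]) (.cons (.leaf 1 [(4,1)]) (.cons (.leaf 1 [(4,1),(10,1)]) (.cons (.leaf 1 [(4,1)]) (.cons (.leaf 1 [(8,1),(4,1),(10,1),(0,1)]) (.cons (.leaf 1 []) (.cons (.leaf 1 [(8,1),(10,1),(0,1)]) .nil)))))))))) (.cons (.leaf 1 [(10,1)]) (.cons (.keep [0,3,7,10,11] (.node (.cons (.leaf 1 [(4,1)]) (.cons (.leaf 1 [(9,1),(8,1),(10,1),(4,1)]) (.cons (.leaf 1 [(4,1)]) (.cons (.leaf 1 [(4,1),(8,1),(10,1)])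 (.cons (.leaf 1 [(4,1)]) (.cons (.leaf 1 [(4,1),(10,1)]) (.cons (.leaf 1 []) (.cons (.leaf 1 [(9,1),(8,1),(10,1),(0,1)]) .nil)))))))))) .nil)))))))))) (.cons (.keep [7,8,9,10,11] (.node (.cons (.leaf 1 [(3,1),(9,1),(7,2)]) (.cons (.keep [0,4,7,9,10,11] (.node (.cons (.leaf 1 [(9,1),(4,1)]) (.cons (.leaf 1 [(9,1),(10,1),(4,1)]) (.cons (.leaf 1 [(4,1),(3,1)]) (.cons (.leaf 1 [(4,1),(3,2),(10,1),(0,1)]) (.cons (.leaf 1 [(4,1),(9,1)]) (.cons (.leaf 1 [(9,2),(4,1),(10,1),(0,1)]) (.cons (.leaf 1 [(9,1)]) (.cons (.leaf 1 [(9,2),(10,1),(0,1)]) .nil)))))))))) (.cons (.leaf 1 [(1,1),(7,1)]) (.cons (.leaf 1 [(7,1),(1,1)]) (.cons (.leaf 1 [(9,1),(4,2)]) (.cons (.keep [0,4,9,10,11] (.node (.cons (.leaf 1 [(8,1),(4,1)]) (.cons (.leaf 1 [(11,1),(8,2),(9,1),(4,1)]) (.cons (.leaf 1 [(4,1),(3,1)])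 (.cons (.leaf 1 [(4,1),(3,1),(9,1)]) (.cons (.leaf 1 [(8,1),(4,1)]) (.cons (.leaf 1 [(8,2),(4,1),(9,1)]) (.cons (.leaf 1 [(8,1)]) (.cons (.leaf 1 [(11,1),(8,3),(9,1),(0,1)]) .nil)))))))))) (.cons (.leaf 1 [(9,1),(7,1)]) (.cons (.keep [0,1,7,9,10] (.node (.cons (.leaf 1 [(9,1),(4,1)]) (.cons (.leaf 1 [(8,1),(9,1),(10,1),(4,1)]) (.cons (.leaf 1 [(4,1),(3,1)]) (.cons (.leaf 1 [(4,1),(10,1)]) (.cons (.leaf 1 [(9,1),(4,1)]) (.cons (.leaf 1 [(9,1),(4,1),(10,1)]) (.cons (.leaf 1 [(9,1)]) (.cons (.leaf 1 [(8,1),(9,2),(10,1),(0,1)]) .nil)))))))))) .nil)))))))))) .nil)))))))))) (.cons (.leaf 1 [(11,1),(1,2),(9,1)]) (.cons (.leaf 1 [(11,1),(1,2),(9,1)]) (.cons (.keep [1,6,8,10,11] (.node (.cons (.leaf 1 [(7,1),(4,1)]) (.cons (.keep [0,7,8,9,11] (.node (.cons (.leaf 1 [(8,1),(4,1)]) (.cons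 (.leaf 1 [(8,1),(4,1)]) (.cons (.leaf 1 [(4,1)]) (.cons (.leaf 1 [(4,1)]) (.cons (.leaf 1 [(9,1),(4,1)]) (.cons (.leaf 1 [(9,1),(4,1)]) (.cons (.leaf 1 [(8,1),(11,1)]) (.cons (.leaf 1 [(8,2),(0,1),(11,1)]) .nil)))))))))) (.cons (.leaf 1 [(4,1),(7,1)]) (.cons (.leaf 1 [(1,1),(7,1),(11,1)]) (.cons (.leaf 1 [(1,1),(4,1)]) (.cons (.keep [0,1,4,9,11] (.node (.cons (.leaf 1 [(8,2),(4,1)]) (.cons (.leaf 1 [(8,2),(4,1)]) (.cons (.leaf 1 [(1,1),(4,1)]) (.cons (.leaf 1 [(1,1),(4,1)]) (.cons (.leaf 1 [(8,1),(4,1),(9,1)]) (.cons (.leaf 1 [(8,1),(4,1),(9,1)]) (.cons (.leaf 1 [(8,1),(11,1)]) (.cons (.leaf 1 [(8,3),(0,1),(11,1)]) .nil)))))))))) (.cons (.leaf 1 [(7,1)]) (.cons (.keep [3,5,7,8,10,11] (.node (.cons (.leaf 1 [(9,2),(7,1),(4,1)]) (.cons (.leaf 1 [(9,2),(7,1),(4,1)]) (.cons (.leaf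 1 [(4,1),(1,1),(7,1)]) (.cons (.leaf 1 [(4,1),(7,1),(1,1)]) (.cons (.leaf 1 [(9,1),(4,1)]) (.cons (.leaf 1 [(9,1),(4,1)]) (.cons (.leaf 1 [(9,1),(12,1)]) (.cons (.leaf 1 [(9,3),(7,1),(0,1),(12,1)]) .nil)))))))))) .nil)))))))))) (.cons (.keep [1,5,8,10,11] (.node (.cons (.leaf 1 [(7,1),(4,1)]) (.cons (.keep [4,7,8,9,11] (.node (.cons (.leaf 1 [(8,1),(4,1)]) (.cons (.leaf 1 [(8,1),(4,1)]) (.cons (.leaf 1 [(4,1)]) (.cons (.leaf 1 [(4,1)]) (.cons (.leaf 1 [(8,1),(4,1),(7,1)]) (.cons (.leaf 1 [(8,1),(4,1),(7,1)]) (.cons (.leaf 1 [(8,1),(11,1)]) (.cons (.leaf 1 [(8,2),(0,1),(11,1)]) .nil)))))))))) (.cons (.leaf 1 [(4,1),(7,1)]) (.cons (.leaf 1 [(1,1),(7,1),(11,1)]) (.cons (.leaf 1 [(1,1),(4,1)]) (.cons (.keep [1,5,8,10,11] (.node (.cons (.leaf 1 [(7,2),(4,1)]) (.cons (.leaf 1 [(7,2),(4,1)])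 (.cons (.leaf 1 [(1,1),(4,1)]) (.cons (.leaf 1 [(1,1),(4,1)]) (.cons (.leaf 1 [(7,2),(4,1),(10,1)]) (.cons (.leaf 1 [(7,2),(4,1),(10,1)]) (.cons (.leaf 1 [(7,1),(11,1)]) (.cons (.leaf 1 [(7,3),(0,1),(11,1)]) .nil)))))))))) (.cons (.leaf 1 [(7,1)]) (.cons (.keep [3,7,9,10,11] (.node (.cons (.leaf 1 [(8,2),(7,1),(4,1)]) (.cons (.leaf 1 [(8,2),(7,1),(4,1)]) (.cons (.leaf 1 [(4,1),(1,1),(7,1)]) (.cons (.leaf 1 [(4,1),(7,1),(1,1)]) (.cons (.leaf 1 [(8,1),(4,1)]) (.cons (.leaf 1 [(8,1),(4,1)]) (.cons (.leaf 1 [(8,1),(11,1)]) (.cons (.leaf 1 [(8,3),(7,1),(0,1),(11,1)]) .nil)))))))))) .nil)))))))))) .nil)))))))))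

theorem c_15_24_1 : Concl 15 24 z_15_24_1 h_15_24_1 .nd := piece _ hP_nil t_15_24_1 _ _ (by
  decide +kernel)

def z_15_24_2 : F := ⟨-1, 0, 0, -1, 3⟩

def h_15_24_2 : List F := [⟨0, 1, 0, 0, 0⟩, ⟨0, 0, -1, 1, 0⟩, ⟨0, 1, 0, -1, 1⟩, ⟨1, -1, 0, 0, 0⟩,
  ⟨-1, 0, 0, 0, 1⟩]

def t_15_24_2 : T := (.node (.cons (.leaf 1 []) (.cons (.keep [7,8,9,10,11] (.node (.cons (.keep [4,6,8,9,11] (.node (.cons (.leaf 1 [(4,1),(3,1),(9,1)]) (.cons (.keep [0,3,8,9,10] (.node (.cons (.leaf 1 [(2,1),(4,1)]) (.cons (.leaf 1 [(2,1),(10,1),(4,1)]) (.cons (.leaf 1 [(4,1),(8,1)]) (.cons (.leaf 1 [(10,1),(8,2),(4,1)]) (.cons (.leaf 1 [(8,1),(4,1)]) (.cons (.leaf 1 [(8,2),(4,1),(10,1),(0,1)]) (.cons (.leaf 1 [(8,1)]) (.cons (.leaf 1 [(8,2),(10,1),(0,1)]) .nil)))))))))) (.cons (.leaf 1 [(3,1)]) (.cons (.leaf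 1 [(3,1)]) (.cons (.leaf 1 [(4,1),(7,1),(9,1)]) (.cons (.keep [0,1,4,7,9,10] (.node (.cons (.leaf 1 [(2,1),(4,1)]) (.cons (.leaf 1 [(4,1),(11,1)]) (.cons (.leaf 1 [(4,1),(10,1)]) (.cons (.leaf 1 [(4,1),(11,1),(10,1)]) (.cons (.leaf 1 [(10,1),(4,1)]) (.cons (.leaf 1 [(10,1),(4,1),(11,1),(0,1)]) (.cons (.leaf 1 [(10,1)]) (.cons (.leaf 1 [(10,1),(11,1),(0,1)]) .nil)))))))))) (.cons (.leaf 1 [(9,1),(7,1)]) (.cons (.keep [0,3,7,9,10,11] (.node (.cons (.leaf 1 [(2,1),(4,1)]) (.cons (.leaf 1 [(4,1),(8,1),(10,1)]) (.cons (.leaf 1 [(4,1),(9,1)]) (.cons (.leaf 1 [(4,1),(8,1),(10,1),(9,1)]) (.cons (.leaf 1 [(9,1),(4,1)]) (.cons (.leaf 1 [(9,1),(4,1),(10,1)]) (.cons (.leaf 1 [(9,1)]) (.cons (.leaf 1 [(8,1),(10,1),(9,1),(0,1)]) .nil)))))))))) .nil)))))))))) (.cons (.keep [5,7,8,9,11] (.node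 (.cons (.leaf 1 [(4,1),(3,1),(9,1)]) (.cons (.keep [0,4,7,9,10] (.node (.cons (.leaf 1 [(2,1),(4,1)]) (.cons (.leaf 1 [(2,1),(10,1),(4,1)]) (.cons (.leaf 1 [(4,1),(9,1),(8,1)]) (.cons (.leaf 1 [(10,1),(9,2),(8,2),(4,1)]) (.cons (.leaf 1 [(8,1),(2,1),(4,1)]) (.cons (.leaf 1 [(8,2),(2,1),(10,1),(4,1)]) (.cons (.leaf 1 [(8,1),(9,1)]) (.cons (.leaf 1 [(9,2),(10,1),(8,2),(0,1)]) .nil)))))))))) (.cons (.leaf 1 [(3,1)]) (.cons (.leaf 1 [(3,1)]) (.cons (.leaf 1 [(8,1),(9,1)]) (.cons (.keep [0,1,7,8,9,10] (.node (.cons (.leaf 1 [(2,1),(4,1)]) (.cons (.leaf 1 [(4,1),(11,1)]) (.cons (.leaf 1 [(4,1),(9,1),(10,1)]) (.cons (.leaf 1 [(4,1),(9,1),(11,1),(10,1)]) (.cons (.leaf 1 [(10,1),(2,1),(4,1)]) (.cons (.leaf 1 [(10,1),(4,1),(11,1)]) (.cons (.leaf 1 [(10,1),(9,1)]) (.cons (.leaf 1 [(9,1),(11,1),(10,1),(0,1)])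 .nil)))))))))) (.cons (.leaf 1 [(9,1),(8,1),(3,1)]) (.cons (.keep [0,3,8,9,10,11] (.node (.cons (.leaf 1 [(2,1),(4,1)]) (.cons (.leaf 1 [(4,1),(8,1),(10,1)]) (.cons (.leaf 1 [(4,1),(8,1),(9,1)]) (.cons (.leaf 1 [(4,1),(8,2),(10,1),(9,1)]) (.cons (.leaf 1 [(9,1),(2,1),(4,1)]) (.cons (.leaf 1 [(9,1),(2,1),(10,1),(4,1)]) (.cons (.leaf 1 [(9,1),(8,1)]) (.cons (.leaf 1 [(8,2),(10,1),(9,1),(0,1)]) .nil)))))))))) .nil)))))))))) (.cons (.leaf 1 [(4,1),(8,1)]) (.cons (.leaf 1 [(4,1),(8,1)]) (.cons (.leaf 1 [(4,1)]) (.cons (.leaf 1 [(4,1)]) (.cons (.keep [1,6,8,9,10] (.node (.cons (.leaf 1 [(4,1),(3,1),(9,1)]) (.cons (.keep [0,2,3,8,9] (.node (.cons (.leaf 1 [(2,1),(4,1)]) (.cons (.leaf 1 [(2,1),(11,1),(4,1)]) (.cons (.leaf 1 [(4,1),(9,1)]) (.cons (.leaf 1 [(11,1),(9,2),(4,1)]) (.cons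 (.leaf 1 [(9,1),(4,1)]) (.cons (.leaf 1 [(9,2),(4,1),(11,1),(0,1)]) (.cons (.leaf 1 [(9,1)]) (.cons (.leaf 1 [(9,2),(11,1),(0,1)]) .nil)))))))))) (.cons (.leaf 1 [(3,1)]) (.cons (.leaf 1 [(3,1)]) (.cons (.leaf 1 [(4,1),(11,1),(9,1)]) (.cons (.keep [0,1,4,9,10,11] (.node (.cons (.leaf 1 [(2,1),(4,1)]) (.cons (.leaf 1 [(4,1),(10,1)]) (.cons (.leaf 1 [(4,1),(12,1)]) (.cons (.leaf 1 [(4,1),(10,1),(12,1)]) (.cons (.leaf 1 [(12,1),(4,1)]) (.cons (.leaf 1 [(12,1),(4,1),(10,1),(0,1)]) (.cons (.leaf 1 [(12,1)]) (.cons (.leaf 1 [(12,1),(10,1),(0,1)]) .nil)))))))))) (.cons (.leaf 1 [(9,1),(11,1)]) (.cons (.keep [0,3,7,9,10,11] (.node (.cons (.leaf 1 [(2,1),(4,1)]) (.cons (.leaf 1 [(4,1),(8,1),(10,1)]) (.cons (.leaf 1 [(4,1),(12,1)]) (.cons (.leaf 1 [(4,1),(8,1),(10,1),(12,1)]) (.cons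 (.leaf 1 [(12,1),(4,1)]) (.cons (.leaf 1 [(12,1),(4,1),(10,1)]) (.cons (.leaf 1 [(12,1)]) (.cons (.leaf 1 [(8,1),(10,1),(12,1),(0,1)]) .nil)))))))))) .nil)))))))))) (.cons (.keep [1,3,7,8,10] (.node (.cons (.leaf 1 [(4,1),(3,1),(10,1)]) (.cons (.keep [0,8,9,10,11] (.node (.cons (.leaf 1 [(2,1),(4,1)]) (.cons (.leaf 1 [(2,1),(10,1),(4,1)]) (.cons (.leaf 1 [(4,1),(11,1),(3,1)]) (.cons (.leaf 1 [(10,1),(11,2),(3,2),(4,1)]) (.cons (.leaf 1 [(11,1),(4,1),(7,1)]) (.cons (.leaf 1 [(11,2),(4,1),(10,1),(0,3)]) (.cons (.leaf 1 [(7,1),(11,1),(3,1)]) (.cons (.leaf 1 [(11,2),(10,1),(3,2),(0,3)]) .nil)))))))))) (.cons (.leaf 1 [(3,1)]) (.cons (.leaf 1 [(3,1)]) (.cons (.leaf 1 [(4,2),(11,1),(10,1)]) (.cons (.keep [0,1,4,5,10,11] (.node (.cons (.leaf 1 [(2,1),(4,1)]) (.cons (.leaf 1 [(4,1),(11,1)])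 (.cons (.leaf 1 [(4,1),(12,1),(3,1)]) (.cons (.leaf 1 [(4,1),(12,1),(11,1),(3,1)]) (.cons (.leaf 1 [(12,1),(4,1),(7,1)]) (.cons (.leaf 1 [(12,1),(4,1),(11,1),(0,2)]) (.cons (.leaf 1 [(7,1),(12,1),(3,1)]) (.cons (.leaf 1 [(12,1),(11,1),(3,1),(0,2)]) .nil)))))))))) (.cons (.leaf 1 [(10,1),(9,1),(11,1)]) (.cons (.keep [0,7,8,10,11] (.node (.cons (.leaf 1 [(2,1),(4,1)]) (.cons (.leaf 1 [(4,1),(11,1),(10,1),(0,1)]) (.cons (.leaf 1 [(4,1),(11,1),(3,1)]) (.cons (.leaf 1 [(10,1),(11,1),(4,1)]) (.cons (.leaf 1 [(11,1),(4,1),(7,1)]) (.cons (.leaf 1 [(11,1),(4,1),(10,1),(0,1)]) (.cons (.leaf 1 [(7,1),(11,1),(3,1)]) (.cons (.leaf 1 [(11,1),(10,1),(0,1)]) .nil)))))))))) .nil)))))))))) .nil)))))))))) (.cons (.leaf 1 [(1,1)]) (.cons (.keep [1,5,8,10,11] (.node (.cons (.keep [4,6,8,9,11]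 (.node (.cons (.leaf 1 [(4,1),(3,2),(10,1)]) (.cons (.keep [0,3,8,9,10] (.node (.cons (.leaf 1 [(2,2),(4,1)]) (.cons (.leaf 1 [(2,2),(11,1),(4,1)]) (.cons (.leaf 1 [(8,2),(4,1)]) (.cons (.leaf 1 [(8,3),(11,1),(4,1)]) (.cons (.leaf 1 [(8,2),(4,1)]) (.cons (.leaf 1 [(8,4),(4,1),(11,1),(0,1)]) (.cons (.leaf 1 [(8,2)]) (.cons (.leaf 1 [(8,4),(11,1),(0,1)]) .nil)))))))))) (.cons (.leaf 1 [(3,1),(7,1)]) (.cons (.leaf 1 [(3,1),(7,1)]) (.cons (.leaf 1 [(4,1),(7,2),(10,1)]) (.cons (.keep [0,2,4,7,10] (.node (.cons (.leaf 1 [(2,2),(4,1)]) (.cons (.leaf 1 [(2,1),(11,1),(4,1)]) (.cons (.leaf 1 [(10,2),(4,1)]) (.cons (.leaf 1 [(10,2),(11,1),(4,1)]) (.cons (.leaf 1 [(10,2),(4,1)]) (.cons (.leaf 1 [(10,3),(4,1),(11,1),(0,1)]) (.cons (.leaf 1 [(10,2)]) (.cons (.leaf 1 [(10,3),(11,1),(0,1)])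 .nil)))))))))) (.cons (.leaf 1 [(10,1),(7,2)]) (.cons (.keep [0,3,7,9,10] (.node (.cons (.leaf 1 [(2,2),(4,1)]) (.cons (.leaf 1 [(2,1),(8,1),(11,1),(4,1)]) (.cons (.leaf 1 [(9,2),(4,1)]) (.cons (.leaf 1 [(9,2),(8,1),(11,1),(4,1)]) (.cons (.leaf 1 [(9,2),(4,1)]) (.cons (.leaf 1 [(9,2),(4,1),(11,1)]) (.cons (.leaf 1 [(9,2)]) (.cons (.leaf 1 [(9,3),(8,1),(11,1),(0,1)]) .nil)))))))))) .nil)))))))))) (.cons (.keep [3,5,7,9,11] (.node (.cons (.leaf 1 [(10,1),(3,1),(4,2)]) (.cons (.keep [0,4,5,8,10] (.node (.cons (.leaf 1 [(2,1),(3,1),(4,1)]) (.cons (.leaf 1 [(2,1),(3,1),(11,1),(4,1)]) (.cons (.leaf 1 [(4,1),(8,2),(10,1)]) (.cons (.leaf 1 [(11,1),(8,3),(10,2),(4,1)]) (.cons (.leaf 1 [(8,2),(2,1),(4,1)]) (.cons (.leaf 1 [(8,3),(2,1),(11,1),(4,1)]) (.cons (.leaf 1 [(10,1),(8,2)]) (.cons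 (.leaf 1 [(10,2),(8,4),(11,1),(0,1)]) .nil)))))))))) (.cons (.leaf 1 [(3,1),(7,1),(4,1)]) (.cons (.leaf 1 [(3,1),(7,1),(4,1)]) (.cons (.leaf 1 [(10,1),(9,2)]) (.cons (.keep [0,7,8,9,10,11] (.node (.cons (.leaf 1 [(2,1),(3,1),(4,1)]) (.cons (.leaf 1 [(4,1),(3,1),(11,1)]) (.cons (.leaf 1 [(4,1),(10,2),(9,1)]) (.cons (.leaf 1 [(4,1),(10,2),(11,1),(9,1)]) (.cons (.leaf 1 [(10,2),(2,1),(4,1)]) (.cons (.leaf 1 [(10,2),(4,1),(11,1)]) (.cons (.leaf 1 [(9,1),(10,2)]) (.cons (.leaf 1 [(9,1),(10,3),(11,1),(0,1)]) .nil)))))))))) (.cons (.leaf 1 [(10,1),(3,1),(9,2)]) (.cons (.keep [0,3,7,9,10] (.node (.cons (.leaf 1 [(2,1),(3,1),(4,1)]) (.cons (.leaf 1 [(2,1),(4,1),(11,1)]) (.cons (.leaf 1 [(4,1),(10,2),(8,1)]) (.cons (.leaf 1 [(11,1),(10,2),(8,2),(4,1)]) (.cons (.leaf 1 [(10,2),(2,1),(4,1)])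 (.cons (.leaf 1 [(10,2),(2,1),(11,1),(4,1)]) (.cons (.leaf 1 [(8,1),(10,2)]) (.cons (.leaf 1 [(8,2),(10,3),(11,1),(0,1)]) .nil)))))))))) .nil)))))))))) (.cons (.leaf 1 [(4,2),(9,1)]) (.cons (.leaf 1 [(4,1),(7,1),(9,1)]) (.cons (.leaf 1 [(4,2)]) (.cons (.leaf 1 [(7,1),(4,1)]) (.cons (.keep [1,3,6,9,10] (.node (.cons (.leaf 1 [(4,1),(3,1),(10,1)]) (.cons (.keep [0,3,8,9,10] (.node (.cons (.leaf 1 [(2,1),(4,1)]) (.cons (.leaf 1 [(2,1),(11,1),(4,1)]) (.cons (.leaf 1 [(4,1),(8,1)]) (.cons (.leaf 1 [(11,1),(8,2),(4,1)]) (.cons (.leaf 1 [(8,1),(4,1)]) (.cons (.leaf 1 [(8,2),(4,1),(11,1),(0,1)]) (.cons (.leaf 1 [(8,1)]) (.cons (.leaf 1 [(8,2),(11,1),(0,1)]) .nil)))))))))) (.cons (.leaf 1 [(3,1)]) (.cons (.leaf 1 [(3,1)]) (.cons (.leaf 1 [(4,1),(11,1),(10,1)]) (.cons (.keep [0,1,2,4,10,11]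 (.node (.cons (.leaf 1 [(2,1),(4,1)]) (.cons (.leaf 1 [(4,1),(11,1)]) (.cons (.leaf 1 [(4,1),(12,1)]) (.cons (.leaf 1 [(4,1),(11,1),(12,1)]) (.cons (.leaf 1 [(12,1),(4,1)]) (.cons (.leaf 1 [(12,1),(4,1),(11,1),(0,1)]) (.cons (.leaf 1 [(12,1)]) (.cons (.leaf 1 [(12,1),(11,1),(0,1)]) .nil)))))))))) (.cons (.leaf 1 [(10,1),(11,1)]) (.cons (.keep [0,3,7,8,10,11] (.node (.cons (.leaf 1 [(2,1),(4,1)]) (.cons (.leaf 1 [(4,1),(8,1),(11,1)]) (.cons (.leaf 1 [(4,1),(12,1)]) (.cons (.leaf 1 [(4,1),(8,1),(11,1),(12,1)]) (.cons (.leaf 1 [(12,1),(4,1)]) (.cons (.leaf 1 [(12,1),(4,1),(11,1)]) (.cons (.leaf 1 [(12,1)]) (.cons (.leaf 1 [(8,1),(11,1),(12,1),(0,1)]) .nil)))))))))) .nil)))))))))) (.cons (.keep [3,7,9,10,11] (.node (.cons (.leaf 1 [(9,1),(4,2)]) (.cons (.keep [0,3,7,8,9] (.node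 (.cons (.leaf 1 [(3,1),(4,1)]) (.cons (.leaf 1 [(3,1),(11,1),(4,1)]) (.cons (.leaf 1 [(3,1),(8,1),(4,1)]) (.cons (.leaf 1 [(3,1),(8,2),(11,1),(4,1)]) (.cons (.leaf 1 [(10,1),(4,1),(8,1)]) (.cons (.leaf 1 [(10,2),(11,1),(8,2),(4,1)]) (.cons (.leaf 1 [(10,1),(8,1)]) (.cons (.leaf 1 [(10,2),(8,2),(11,1),(0,1)]) .nil)))))))))) (.cons (.leaf 1 [(4,1)]) (.cons (.leaf 1 [(4,1)]) (.cons (.leaf 1 [(9,1),(4,2),(10,1)]) (.cons (.keep [0,4,5,9,10,11] (.node (.cons (.leaf 1 [(3,1),(4,1)]) (.cons (.leaf 1 [(8,1),(4,1),(10,1)]) (.cons (.leaf 1 [(3,1),(11,1),(4,1)]) (.cons (.leaf 1 [(3,1),(11,1),(10,1),(4,1)]) (.cons (.leaf 1 [(8,1),(4,1),(11,1)]) (.cons (.leaf 1 [(8,2),(10,1),(11,1),(4,1)]) (.cons (.leaf 1 [(8,1),(11,1)]) (.cons (.leaf 1 [(8,2),(11,1),(10,1),(0,1)]) .nil)))))))))) (.cons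 (.leaf 1 [(9,1),(8,1),(10,1)]) (.cons (.keep [0,1,7,8,9,10] (.node (.cons (.leaf 1 [(3,1),(4,1)]) (.cons (.leaf 1 [(4,1),(11,1)]) (.cons (.leaf 1 [(3,1),(12,1),(4,1)]) (.cons (.leaf 1 [(4,1),(12,1),(11,1)]) (.cons (.leaf 1 [(10,1),(4,1),(12,1)]) (.cons (.leaf 1 [(10,1),(4,1),(11,1),(12,1)]) (.cons (.leaf 1 [(10,1),(12,1)]) (.cons (.leaf 1 [(10,1),(12,1),(11,1),(0,1)]) .nil)))))))))) .nil)))))))))) .nil)))))))))) (.cons (.leaf 1 [(1,1)]) (.cons (.leaf 1 [(7,1),(1,1),(8,1),(10,1)]) (.cons (.leaf 1 [(1,1)]) (.cons (.leaf 1 [(7,1),(1,1),(10,1)]) .nil)))))))))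

theorem c_15_24_2 : Concl 15 24 z_15_24_2 h_15_24_2 .nd := piece _ hP_nil t_15_24_2 _ _ (by
  decide +kernel)

def z_15_24_3 : F := ⟨-1, -1, -1, 0, 3⟩

def h_15_24_3 : List F := [⟨-1, 0, 0, 0, 0⟩, ⟨0, 0, 1, -1, 0⟩, ⟨0, 1, -1, 0, 0⟩, ⟨1, -1, 0, 0, 0⟩]

def t_15_24_3 : T := (.node (.cons (.leaf 1 [(9,1),(7,1),(8,2)]) (.cons (.keep [7,8,9,10] (.node (.cons (.keep [4,6,7,8,9] (.node (.cons (.leaf 1 [(3,2),(4,1)]) (.cons (.keep [0,3,8,10,11] (.node (.cons (.leaf 1 [(2,2),(4,1)]) (.cons (.leaf 1 [(2,2),(4,1)]) (.cons (.leaf 1 [(8,3),(4,1)]) (.cons (.leaf 1 [(8,3),(4,1)]) (.cons (.leaf 1 [(8,3),(4,1),(9,1)]) (.cons (.leaf 1 [(8,3),(4,1),(9,1)]) (.cons (.leaf 1 [(8,2),(10,1)]) (.cons (.leaf 1 [(8,4),(0,1),(10,1)]) .nil)))))))))) (.cons (.leaf 1 [(4,1),(7,2)]) (.cons (.leaf 1 [(3,1),(7,1),(10,1)])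 (.cons (.leaf 1 [(7,2),(4,1)]) (.cons (.keep [0,4,7,10,11] (.node (.cons (.leaf 1 [(2,1),(4,1)]) (.cons (.leaf 1 [(2,1),(4,1)]) (.cons (.leaf 1 [(9,2),(4,1)]) (.cons (.leaf 1 [(9,2),(4,1)]) (.cons (.leaf 1 [(9,2),(4,1),(8,1)]) (.cons (.leaf 1 [(9,2),(4,1),(8,1)]) (.cons (.leaf 1 [(9,2),(10,1)]) (.cons (.leaf 1 [(9,3),(0,1),(10,1)]) .nil)))))))))) (.cons (.leaf 1 [(7,2)]) (.cons (.keep [3,7,8,9,10,11] (.node (.cons (.leaf 1 [(2,1),(7,1),(4,1)]) (.cons (.leaf 1 [(2,1),(7,1),(4,1)]) (.cons (.leaf 1 [(8,2),(7,1),(4,1)]) (.cons (.leaf 1 [(8,2),(7,1),(4,1)]) (.cons (.leaf 1 [(8,2),(4,1)]) (.cons (.leaf 1 [(8,2),(4,1)]) (.cons (.leaf 1 [(8,2),(11,1)]) (.cons (.leaf 1 [(8,3),(7,1),(0,1),(11,1)]) .nil)))))))))) .nil)))))))))) (.cons (.keep [4,5,7,8,9] (.node (.cons (.leaf 1 [(3,1),(4,2)])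 (.cons (.keep [4,5,8,9,10] (.node (.cons (.leaf 1 [(2,1),(3,1),(4,1)]) (.cons (.leaf 1 [(2,1),(3,1),(4,1)]) (.cons (.leaf 1 [(9,2),(7,3),(4,1)]) (.cons (.leaf 1 [(9,2),(7,3),(4,1)]) (.cons (.leaf 1 [(2,1),(7,3),(4,1)]) (.cons (.leaf 1 [(2,1),(7,3),(4,1)]) (.cons (.leaf 1 [(9,1),(7,2),(11,1)]) (.cons (.leaf 1 [(9,2),(7,4),(0,1),(11,1)]) .nil)))))))))) (.cons (.leaf 1 [(4,1),(7,1),(10,1)]) (.cons (.leaf 1 [(4,1),(7,1),(10,1)]) (.cons (.leaf 1 [(4,2),(7,2)]) (.cons (.keep [1,4,7,8,10,11] (.node (.cons (.leaf 1 [(3,1),(4,1)]) (.cons (.leaf 1 [(3,1),(4,1)]) (.cons (.leaf 1 [(3,1),(9,2),(4,1)]) (.cons (.leaf 1 [(3,1),(9,2),(4,1)]) (.cons (.leaf 1 [(8,2),(9,2),(4,1)]) (.cons (.leaf 1 [(8,2),(9,2),(4,1)]) (.cons (.leaf 1 [(8,1),(9,2),(11,1)]) (.cons (.leaf 1 [(8,2),(9,3),(0,1),(11,1)])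 .nil)))))))))) (.cons (.leaf 1 [(7,1),(11,1)]) (.cons (.keep [0,3,7,10,11] (.node (.cons (.leaf 1 [(2,1),(4,1)]) (.cons (.leaf 1 [(2,1),(4,1)]) (.cons (.leaf 1 [(9,2),(4,1)]) (.cons (.leaf 1 [(9,2),(4,1)]) (.cons (.leaf 1 [(9,1),(4,2),(11,1)]) (.cons (.leaf 1 [(9,1),(4,2),(11,1)]) (.cons (.leaf 1 [(9,1),(10,2),(11,1)]) (.cons (.leaf 1 [(9,3),(0,2),(11,1),(10,2)]) .nil)))))))))) .nil)))))))))) (.cons (.leaf 1 [(4,2)]) (.cons (.leaf 1 [(1,1),(4,1),(9,1)]) (.cons (.leaf 1 [(8,1),(4,2)]) (.cons (.leaf 1 [(1,1),(4,1),(8,2),(9,1)]) (.cons (.keep [1,6,8,9,10] (.node (.cons (.leaf 1 [(3,1),(4,1)]) (.cons (.keep [0,3,8,9,10] (.node (.cons (.leaf 1 [(2,1),(4,1)]) (.cons (.leaf 1 [(2,1),(4,1)]) (.cons (.leaf 1 [(8,2),(4,1)]) (.cons (.leaf 1 [(8,2),(4,1)]) (.cons (.leaf 1 [(8,2),(4,1),(9,1)])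 (.cons (.leaf 1 [(8,2),(4,1),(9,1)]) (.cons (.leaf 1 [(8,1),(10,1)]) (.cons (.leaf 1 [(8,2),(0,1),(10,1)]) .nil)))))))))) (.cons (.leaf 1 [(3,1),(9,1)]) (.cons (.leaf 1 [(3,1),(9,1)]) (.cons (.leaf 1 [(4,1),(11,1)]) (.cons (.keep [1,4,9,10,11] (.node (.cons (.leaf 1 [(4,1)]) (.cons (.leaf 1 [(4,1)]) (.cons (.leaf 1 [(4,1),(11,1)]) (.cons (.leaf 1 [(4,1),(11,1)]) (.cons (.leaf 1 [(8,1),(4,1),(11,1)]) (.cons (.leaf 1 [(8,1),(4,1),(11,1)]) (.cons (.leaf 1 [(9,1),(11,1)]) (.cons (.leaf 1 [(0,1),(11,1),(9,1)]) .nil)))))))))) (.cons (.leaf 1 [(11,1)]) (.cons (.keep [0,3,5,7,9,11] (.node (.cons (.leaf 1 [(8,1),(4,1)]) (.cons (.leaf 1 [(8,1),(4,1)]) (.cons (.leaf 1 [(8,1),(4,1),(12,1)]) (.cons (.leaf 1 [(8,1),(4,1),(12,1)]) (.cons (.leaf 1 [(12,1),(4,1)]) (.cons (.leaf 1 [(12,1),(4,1)])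 (.cons (.leaf 1 [(12,1),(11,1)]) (.cons (.leaf 1 [(8,1),(0,1),(12,1),(11,1)]) .nil)))))))))) .nil)))))))))) (.cons (.keep [1,8,9,10] (.node (.cons (.leaf 1 [(4,2)]) (.cons (.keep [4,7,8,9,10] (.node (.cons (.leaf 1 [(3,1),(4,1)]) (.cons (.leaf 1 [(3,1),(4,1)]) (.cons (.leaf 1 [(4,1),(7,1),(9,1)]) (.cons (.leaf 1 [(4,1),(7,2),(0,1),(9,1)]) (.cons (.leaf 1 [(7,2),(4,1)]) (.cons (.leaf 1 [(7,2),(4,1)]) (.cons (.leaf 1 [(7,1),(9,1)]) (.cons (.leaf 1 [(7,2),(0,1),(9,1)]) .nil)))))))))) (.cons (.leaf 1 [(4,1),(8,1)]) (.cons (.leaf 1 [(4,1),(8,1)]) (.cons (.leaf 1 [(4,3),(10,1)]) (.cons (.keep [1,4,5,8,10] (.node (.cons (.leaf 1 [(7,1),(3,1),(4,1)]) (.cons (.leaf 1 [(7,1),(3,1),(4,1)]) (.cons (.leaf 1 [(3,2),(11,1),(4,1)]) (.cons (.leaf 1 [(3,2),(11,1),(4,1)]) (.cons (.leaf 1 [(8,3),(11,1),(4,1)])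 (.cons (.leaf 1 [(8,3),(11,1),(4,1)]) (.cons (.leaf 1 [(8,2),(11,1),(10,1)]) (.cons (.leaf 1 [(8,3),(11,1),(0,1),(10,1)]) .nil)))))))))) (.cons (.leaf 1 [(9,2),(10,1)]) (.cons (.keep [7,8,9,10] (.node (.cons (.leaf 1 [(4,1)]) (.cons (.leaf 1 [(4,1)]) (.cons (.leaf 1 [(4,1),(10,1),(3,1)]) (.cons (.leaf 1 [(4,1),(10,1),(3,1)]) (.cons (.leaf 1 [(9,2),(4,3),(10,1)]) (.cons (.leaf 1 [(9,2),(4,3),(10,1)]) (.cons (.leaf 1 [(9,2),(8,3),(10,1)]) (.cons (.leaf 1 [(9,2),(0,3),(10,1),(8,3)]) .nil)))))))))) .nil)))))))))) .nil)))))))))) (.cons (.leaf 1 [(1,2),(8,1)]) (.cons (.keep [1,3,7,8,10] (.node (.cons (.keep [4,6,8,9,10] (.node (.cons (.leaf 1 [(3,3),(4,1)]) (.cons (.keep [0,3,8,9,11] (.node (.cons (.leaf 1 [(2,3),(4,1)]) (.cons (.leaf 1 [(2,3),(4,1)]) (.cons (.leaf 1 [(8,4),(4,1)])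 (.cons (.leaf 1 [(8,4),(4,1)]) (.cons (.leaf 1 [(8,4),(4,1),(9,1)]) (.cons (.leaf 1 [(8,4),(4,1),(9,1)]) (.cons (.leaf 1 [(8,3),(11,1)]) (.cons (.leaf 1 [(8,6),(0,1),(11,1)]) .nil)))))))))) (.cons (.leaf 1 [(4,1),(7,3)]) (.cons (.leaf 1 [(3,1),(7,2),(11,1)]) (.cons (.leaf 1 [(7,3),(4,1)]) (.cons (.keep [0,4,7,9,11] (.node (.cons (.leaf 1 [(2,2),(4,1)]) (.cons (.leaf 1 [(2,2),(4,1)]) (.cons (.leaf 1 [(9,3),(4,1)]) (.cons (.leaf 1 [(9,3),(4,1)]) (.cons (.leaf 1 [(9,3),(4,1),(8,1)]) (.cons (.leaf 1 [(9,3),(4,1),(8,1)]) (.cons (.leaf 1 [(9,3),(11,1)]) (.cons (.leaf 1 [(9,5),(0,1),(11,1)]) .nil)))))))))) (.cons (.leaf 1 [(7,3)]) (.cons (.keep [3,7,8,9,10,11] (.node (.cons (.leaf 1 [(2,2),(7,1),(4,1)]) (.cons (.leaf 1 [(2,2),(7,1),(4,1)]) (.cons (.leaf 1 [(8,3),(7,1),(4,1)]) (.cons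 (.leaf 1 [(8,3),(7,1),(4,1)]) (.cons (.leaf 1 [(8,3),(4,1)]) (.cons (.leaf 1 [(8,3),(4,1)]) (.cons (.leaf 1 [(8,3),(12,1)]) (.cons (.leaf 1 [(8,5),(7,1),(0,1),(12,1)]) .nil)))))))))) .nil)))))))))) (.cons (.keep [5,7,8,9,10] (.node (.cons (.leaf 1 [(3,1),(4,3)]) (.cons (.keep [4,5,7,10,11] (.node (.cons (.leaf 1 [(2,1),(3,2),(4,1)]) (.cons (.leaf 1 [(2,1),(3,2),(4,1)]) (.cons (.leaf 1 [(9,2),(7,4),(4,1)]) (.cons (.leaf 1 [(9,2),(7,4),(4,1)]) (.cons (.leaf 1 [(2,1),(7,4),(4,1)]) (.cons (.leaf 1 [(2,1),(7,4),(4,1)]) (.cons (.leaf 1 [(9,1),(7,3),(11,1)]) (.cons (.leaf 1 [(9,2),(7,6),(0,1),(11,1)]) .nil)))))))))) (.cons (.leaf 1 [(3,1),(8,3)]) (.cons (.leaf 1 [(3,1),(8,2),(11,1)]) (.cons (.leaf 1 [(8,3)]) (.cons (.keep [7,8,9,10,11] (.node (.cons (.leaf 1 [(3,2),(4,1)]) (.cons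 (.leaf 1 [(3,2),(4,1)]) (.cons (.leaf 1 [(4,1),(8,3),(7,1)]) (.cons (.leaf 1 [(4,1),(8,3),(7,1)]) (.cons (.leaf 1 [(8,3),(4,1)]) (.cons (.leaf 1 [(8,3),(4,1)]) (.cons (.leaf 1 [(11,1),(8,3),(7,1)]) (.cons (.leaf 1 [(0,1),(8,5),(7,1),(11,1)]) .nil)))))))))) (.cons (.leaf 1 [(3,1),(8,3)]) (.cons (.keep [0,3,8,9,11] (.node (.cons (.leaf 1 [(2,1),(3,1),(4,1)]) (.cons (.leaf 1 [(2,1),(3,1),(4,1)]) (.cons (.leaf 1 [(8,2),(9,3),(4,1)]) (.cons (.leaf 1 [(8,2),(9,3),(4,1)]) (.cons (.leaf 1 [(2,1),(9,3),(4,1)]) (.cons (.leaf 1 [(2,1),(9,3),(4,1)]) (.cons (.leaf 1 [(8,1),(9,3),(11,1)]) (.cons (.leaf 1 [(8,2),(9,5),(0,1),(11,1)]) .nil)))))))))) .nil)))))))))) (.cons (.leaf 1 [(4,3)]) (.cons (.leaf 1 [(7,2),(4,1)]) (.cons (.leaf 1 [(10,1),(4,3)]) (.cons (.leaf 1 [(10,1),(7,2),(4,1)]) (.cons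 (.keep [1,6,8,10,11] (.node (.cons (.leaf 1 [(3,1),(4,1)]) (.cons (.keep [0,3,8,9,10] (.node (.cons (.leaf 1 [(2,1),(4,1)]) (.cons (.leaf 1 [(2,1),(4,1)]) (.cons (.leaf 1 [(8,2),(4,1)]) (.cons (.leaf 1 [(8,2),(4,1)]) (.cons (.leaf 1 [(8,2),(4,1),(9,1)]) (.cons (.leaf 1 [(8,2),(4,1),(9,1)]) (.cons (.leaf 1 [(8,1),(11,1)]) (.cons (.leaf 1 [(8,2),(0,1),(11,1)]) .nil)))))))))) (.cons (.leaf 1 [(3,1),(10,1)]) (.cons (.leaf 1 [(3,1),(10,1)]) (.cons (.leaf 1 [(4,1),(11,1)]) (.cons (.keep [1,4,9,10,11] (.node (.cons (.leaf 1 [(4,1)]) (.cons (.leaf 1 [(4,1)]) (.cons (.leaf 1 [(4,1),(11,1)]) (.cons (.leaf 1 [(4,1),(11,1)]) (.cons (.leaf 1 [(8,1),(4,1),(11,1)]) (.cons (.leaf 1 [(8,1),(4,1),(11,1)]) (.cons (.leaf 1 [(10,1),(11,1)]) (.cons (.leaf 1 [(0,1),(11,1),(10,1)]) .nil))))))))))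 (.cons (.leaf 1 [(11,1)]) (.cons (.keep [0,3,5,7,10,11] (.node (.cons (.leaf 1 [(8,1),(4,1)]) (.cons (.leaf 1 [(8,1),(4,1)]) (.cons (.leaf 1 [(8,1),(4,1),(12,1)]) (.cons (.leaf 1 [(8,1),(4,1),(12,1)]) (.cons (.leaf 1 [(12,1),(4,1)]) (.cons (.leaf 1 [(12,1),(4,1)]) (.cons (.leaf 1 [(12,1),(11,1)]) (.cons (.leaf 1 [(8,1),(0,1),(12,1),(11,1)]) .nil)))))))))) .nil)))))))))) (.cons (.keep [7,8,9,10,11] (.node (.cons (.leaf 1 [(7,1),(4,2)]) (.cons (.keep [3,7,8,9,10] (.node (.cons (.leaf 1 [(8,1),(3,1),(4,1)]) (.cons (.leaf 1 [(8,1),(3,1),(4,1)]) (.cons (.leaf 1 [(3,2),(7,2),(4,1)]) (.cons (.leaf 1 [(3,2),(7,2),(4,1)]) (.cons (.leaf 1 [(8,3),(7,2),(4,1)]) (.cons (.leaf 1 [(8,3),(7,2),(4,1)]) (.cons (.leaf 1 [(8,2),(7,1),(11,1)]) (.cons (.leaf 1 [(8,4),(7,2),(0,1),(11,1)]) .nil))))))))))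 (.cons (.leaf 1 [(4,1),(7,1),(10,1)]) (.cons (.leaf 1 [(4,1),(7,1),(10,1)]) (.cons (.leaf 1 [(4,3),(11,1)]) (.cons (.keep [4,5,9,10,11] (.node (.cons (.leaf 1 [(7,2),(4,1)]) (.cons (.leaf 1 [(7,2),(4,1)]) (.cons (.leaf 1 [(3,2),(11,1),(4,1)]) (.cons (.leaf 1 [(3,2),(11,1),(4,1)]) (.cons (.leaf 1 [(7,3),(11,1),(4,1)]) (.cons (.leaf 1 [(7,3),(11,1),(4,1)]) (.cons (.leaf 1 [(7,2),(11,1),(10,1)]) (.cons (.leaf 1 [(7,4),(11,1),(0,1),(10,1)]) .nil)))))))))) (.cons (.leaf 1 [(7,2),(11,1)]) (.cons (.keep [1,7,8,10,11] (.node (.cons (.leaf 1 [(8,1),(4,1)]) (.cons (.leaf 1 [(8,1),(4,1)]) (.cons (.leaf 1 [(3,1),(11,1),(4,1)]) (.cons (.leaf 1 [(3,1),(11,1),(4,1)]) (.cons (.leaf 1 [(8,2),(11,1),(4,1)]) (.cons (.leaf 1 [(8,2),(11,1),(4,1)]) (.cons (.leaf 1 [(8,2),(11,1),(10,1)]) (.cons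 (.leaf 1 [(8,3),(11,1),(0,1),(10,1)]) .nil)))))))))) .nil)))))))))) .nil)))))))))) (.cons (.leaf 1 [(9,1),(1,2),(4,1)]) (.cons (.leaf 1 [(9,2),(1,3),(10,1)]) (.cons (.leaf 1 [(9,1),(8,2),(1,2)]) (.cons (.leaf 1 [(9,2),(8,3),(1,3),(10,1)]) .nil)))))))))

theorem c_15_24_3 : Concl 15 24 z_15_24_3 h_15_24_3 .nd := piece _ hP_nil t_15_24_3 _ _ (by
  decide +kernel)

def z_15_24_4 : F := ⟨-1, 0, -1, 0, 3⟩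

def h_15_24_4 : List F := [⟨0, 1, 0, 0, 0⟩, ⟨0, 1, -1, 0, 0⟩, ⟨0, 0, 1, -1, 0⟩, ⟨1, -1, 0, 0, 0⟩,
  ⟨-1, 0, 0, 0, 1⟩]

def t_15_24_4 : T := (.node (.cons (.leaf 1 [(9,1)]) (.cons (.keep [7,8,9,10,11] (.node (.cons (.keep [4,6,8,9,11] (.node (.cons (.leaf 1 [(3,1),(4,1)]) (.cons (.keep [0,3,8,9,10] (.node (.cons (.leaf 1 [(2,1),(4,1)]) (.cons (.leaf 1 [(2,1),(4,1)]) (.cons (.leaf 1 [(8,2),(4,1)]) (.cons (.leaf 1 [(8,2),(4,1)]) (.cons (.leaf 1 [(8,2),(4,1),(9,1)]) (.cons (.leaf 1 [(8,2),(4,1),(9,1)]) (.cons (.leaf 1 [(8,1),(11,1)]) (.cons (.leaf 1 [(8,2),(0,1),(11,1)]) .nil)))))))))) (.cons (.leaf 1 [(4,1),(7,1)]) (.cons (.leaf 1 [(3,1),(10,1)]) (.cons (.leaf 1 [(4,1),(7,1)]) (.cons (.keep [1,4,7,9,10] (.node (.cons (.leaf 1 [(4,1)]) (.cons (.leaf 1 [(4,1)]) (.cons (.leaf 1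 [(4,1),(9,1)]) (.cons (.leaf 1 [(4,1),(9,1)]) (.cons (.leaf 1 [(8,1),(4,1),(9,1)]) (.cons (.leaf 1 [(8,1),(4,1),(9,1)]) (.cons (.leaf 1 [(11,1),(9,1)]) (.cons (.leaf 1 [(0,1),(9,1),(11,1)]) .nil)))))))))) (.cons (.leaf 1 [(7,1)]) (.cons (.keep [0,3,7,9,10,11] (.node (.cons (.leaf 1 [(8,1),(4,1)]) (.cons (.leaf 1 [(8,1),(4,1)]) (.cons (.leaf 1 [(8,1),(4,1),(9,1)]) (.cons (.leaf 1 [(8,1),(4,1),(9,1)]) (.cons (.leaf 1 [(9,1),(4,1)]) (.cons (.leaf 1 [(9,1),(4,1)]) (.cons (.leaf 1 [(9,1),(11,1)]) (.cons (.leaf 1 [(8,1),(0,1),(9,1),(11,1)]) .nil)))))))))) .nil)))))))))) (.cons (.keep [5,7,8,9,11] (.node (.cons (.leaf 1 [(3,1),(4,1)]) (.cons (.keep [0,4,5,7,10] (.node (.cons (.leaf 1 [(2,1),(4,1)]) (.cons (.leaf 1 [(2,1),(4,1)]) (.cons (.leaf 1 [(8,2),(10,2),(4,1)]) (.cons (.leaf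 1 [(8,2),(10,2),(4,1)]) (.cons (.leaf 1 [(8,2),(2,1),(4,1)]) (.cons (.leaf 1 [(8,2),(2,1),(4,1)]) (.cons (.leaf 1 [(8,1),(10,1),(11,1)]) (.cons (.leaf 1 [(8,2),(10,2),(0,1),(11,1)]) .nil)))))))))) (.cons (.leaf 1 [(3,1),(8,1)]) (.cons (.leaf 1 [(3,1),(10,1)]) (.cons (.leaf 1 [(8,1)]) (.cons (.keep [1,7,8,9,10] (.node (.cons (.leaf 1 [(4,1)]) (.cons (.leaf 1 [(4,1)]) (.cons (.leaf 1 [(4,1),(8,1),(9,1)]) (.cons (.leaf 1 [(4,1),(8,1),(9,1)]) (.cons (.leaf 1 [(4,1),(9,1)]) (.cons (.leaf 1 [(4,1),(9,1)]) (.cons (.leaf 1 [(11,1),(8,1),(9,1)]) (.cons (.leaf 1 [(0,1),(8,1),(9,1),(11,1)]) .nil)))))))))) (.cons (.leaf 1 [(8,1),(3,1)]) (.cons (.keep [3,8,9,10,11] (.node (.cons (.leaf 1 [(7,1),(4,1)]) (.cons (.leaf 1 [(7,1),(4,1)]) (.cons (.leaf 1 [(7,2),(4,1),(8,1)]) (.cons (.leaf 1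 [(7,2),(4,1),(8,1)]) (.cons (.leaf 1 [(8,1),(2,1),(4,1)]) (.cons (.leaf 1 [(8,1),(2,1),(4,1)]) (.cons (.leaf 1 [(7,1),(10,1),(8,1)]) (.cons (.leaf 1 [(7,2),(0,1),(8,1),(10,1)]) .nil)))))))))) .nil)))))))))) (.cons (.leaf 1 [(4,1)]) (.cons (.leaf 1 [(4,1)]) (.cons (.leaf 1 [(9,1),(4,1)]) (.cons (.leaf 1 [(9,1),(4,1)]) (.cons (.keep [1,6,8,9,10] (.node (.cons (.leaf 1 [(3,1),(4,1)]) (.cons (.keep [0,3,8,9,10] (.node (.cons (.leaf 1 [(2,1),(4,1)]) (.cons (.leaf 1 [(2,1),(4,1)]) (.cons (.leaf 1 [(8,2),(4,1)]) (.cons (.leaf 1 [(8,2),(4,1)]) (.cons (.leaf 1 [(8,2),(4,1),(9,1)]) (.cons (.leaf 1 [(8,2),(4,1),(9,1)]) (.cons (.leaf 1 [(8,1),(11,1)]) (.cons (.leaf 1 [(8,2),(0,1),(11,1)]) .nil)))))))))) (.cons (.leaf 1 [(3,1),(10,1)]) (.cons (.leaf 1 [(3,1),(10,1)]) (.cons (.leaf 1 [(4,1),(11,1)])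 (.cons (.keep [1,4,9,10,11] (.node (.cons (.leaf 1 [(4,1)]) (.cons (.leaf 1 [(4,1)]) (.cons (.leaf 1 [(4,1),(11,1)]) (.cons (.leaf 1 [(4,1),(11,1)]) (.cons (.leaf 1 [(8,1),(4,1),(11,1)]) (.cons (.leaf 1 [(8,1),(4,1),(11,1)]) (.cons (.leaf 1 [(10,1),(11,1)]) (.cons (.leaf 1 [(0,1),(11,1),(10,1)]) .nil)))))))))) (.cons (.leaf 1 [(11,1)]) (.cons (.keep [0,3,5,7,10,11] (.node (.cons (.leaf 1 [(8,1),(4,1)]) (.cons (.leaf 1 [(8,1),(4,1)]) (.cons (.leaf 1 [(8,1),(4,1),(12,1)]) (.cons (.leaf 1 [(8,1),(4,1),(12,1)]) (.cons (.leaf 1 [(12,1),(4,1)]) (.cons (.leaf 1 [(12,1),(4,1)]) (.cons (.leaf 1 [(12,1),(11,1)]) (.cons (.leaf 1 [(8,1),(0,1),(12,1),(11,1)]) .nil)))))))))) .nil)))))))))) (.cons (.keep [1,2,7,9,10] (.node (.cons (.leaf 1 [(3,1),(4,1)]) (.cons (.keep [0,8,9,10,11] (.node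 (.cons (.leaf 1 [(2,1),(4,1)]) (.cons (.leaf 1 [(2,1),(4,1)]) (.cons (.leaf 1 [(10,2),(4,1)]) (.cons (.leaf 1 [(3,2),(11,2),(4,1)]) (.cons (.leaf 1 [(10,2),(2,1),(4,1)]) (.cons (.leaf 1 [(0,3),(11,2),(4,1),(10,3)]) (.cons (.leaf 1 [(2,1),(10,2)]) (.cons (.leaf 1 [(3,2),(11,2),(0,3),(10,3)]) .nil)))))))))) (.cons (.leaf 1 [(3,1),(10,1)]) (.cons (.leaf 1 [(3,1),(10,1)]) (.cons (.leaf 1 [(4,2),(11,1)]) (.cons (.keep [1,4,8,10,11] (.node (.cons (.leaf 1 [(4,1)]) (.cons (.leaf 1 [(4,1)]) (.cons (.leaf 1 [(4,1),(11,1),(3,1)]) (.cons (.leaf 1 [(4,1),(11,1),(3,1)]) (.cons (.leaf 1 [(8,2),(4,1),(11,1)]) (.cons (.leaf 1 [(8,2),(4,1),(11,1)]) (.cons (.leaf 1 [(10,2),(11,1),(3,1)]) (.cons (.leaf 1 [(0,2),(11,1),(3,1),(10,2)]) .nil)))))))))) (.cons (.leaf 1 [(9,1),(11,1)]) (.cons (.keep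 [0,7,8,10,11] (.node (.cons (.leaf 1 [(2,1),(10,1),(4,1)]) (.cons (.leaf 1 [(11,1),(0,1),(4,1),(10,1)]) (.cons (.leaf 1 [(11,1),(4,1)]) (.cons (.leaf 1 [(11,1),(4,1)]) (.cons (.leaf 1 [(11,1),(4,1),(7,1)]) (.cons (.leaf 1 [(11,1),(4,1),(0,1),(5,1)]) (.cons (.leaf 1 [(11,1),(10,1),(7,1)]) (.cons (.leaf 1 [(11,1),(0,1),(10,1)]) .nil)))))))))) .nil)))))))))) .nil)))))))))) (.cons (.leaf 1 [(1,1),(9,1)]) (.cons (.keep [1,3,9,10,11] (.node (.cons (.keep [4,6,8,9,11] (.node (.cons (.leaf 1 [(3,2),(4,1)]) (.cons (.keep [0,3,8,9,10] (.node (.cons (.leaf 1 [(2,2),(4,1)]) (.cons (.leaf 1 [(2,2),(4,1)]) (.cons (.leaf 1 [(8,3),(4,1)]) (.cons (.leaf 1 [(8,3),(4,1)]) (.cons (.leaf 1 [(8,3),(4,1),(9,1)]) (.cons (.leaf 1 [(8,3),(4,1),(9,1)]) (.cons (.leaf 1 [(8,2),(11,1)]) (.cons (.leaf 1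 [(8,4),(0,1),(11,1)]) .nil)))))))))) (.cons (.leaf 1 [(4,1),(7,2)]) (.cons (.leaf 1 [(3,1),(7,1),(10,1)]) (.cons (.leaf 1 [(7,2),(4,1)]) (.cons (.keep [0,4,7,9,10] (.node (.cons (.leaf 1 [(2,1),(4,1)]) (.cons (.leaf 1 [(2,1),(4,1)]) (.cons (.leaf 1 [(9,2),(4,1)]) (.cons (.leaf 1 [(9,2),(4,1)]) (.cons (.leaf 1 [(9,2),(4,1),(8,1)]) (.cons (.leaf 1 [(9,2),(4,1),(8,1)]) (.cons (.leaf 1 [(9,2),(11,1)]) (.cons (.leaf 1 [(9,3),(0,1),(11,1)]) .nil)))))))))) (.cons (.leaf 1 [(7,2)]) (.cons (.keep [3,7,8,9,10,11] (.node (.cons (.leaf 1 [(2,1),(7,1),(4,1)]) (.cons (.leaf 1 [(2,1),(7,1),(4,1)]) (.cons (.leaf 1 [(8,2),(7,1),(4,1)]) (.cons (.leaf 1 [(8,2),(7,1),(4,1)]) (.cons (.leaf 1 [(8,2),(4,1)]) (.cons (.leaf 1 [(8,2),(4,1)]) (.cons (.leaf 1 [(8,2),(11,1)]) (.cons (.leaf 1 [(8,3),(7,1),(0,1),(11,1)])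 .nil)))))))))) .nil)))))))))) (.cons (.keep [5,7,8,9,11] (.node (.cons (.leaf 1 [(3,1),(4,2)]) (.cons (.keep [0,4,5,7,10] (.node (.cons (.leaf 1 [(2,1),(3,1),(4,1)]) (.cons (.leaf 1 [(2,1),(3,1),(4,1)]) (.cons (.leaf 1 [(10,2),(8,3),(4,1)]) (.cons (.leaf 1 [(10,2),(8,3),(4,1)]) (.cons (.leaf 1 [(2,1),(8,3),(4,1)]) (.cons (.leaf 1 [(2,1),(8,3),(4,1)]) (.cons (.leaf 1 [(10,1),(8,2),(11,1)]) (.cons (.leaf 1 [(10,2),(8,4),(0,1),(11,1)]) .nil)))))))))) (.cons (.leaf 1 [(3,1),(8,2)]) (.cons (.leaf 1 [(3,1),(8,1),(10,1)]) (.cons (.leaf 1 [(8,2)]) (.cons (.keep [7,8,9,10,11] (.node (.cons (.leaf 1 [(3,1),(4,1)]) (.cons (.leaf 1 [(3,1),(4,1)]) (.cons (.leaf 1 [(4,1),(8,2),(7,1)]) (.cons (.leaf 1 [(4,1),(8,2),(7,1)]) (.cons (.leaf 1 [(8,2),(4,1)]) (.cons (.leaf 1 [(8,2),(4,1)]) (.cons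 (.leaf 1 [(10,1),(8,2),(7,1)]) (.cons (.leaf 1 [(0,1),(8,3),(7,1),(10,1)]) .nil)))))))))) (.cons (.leaf 1 [(3,1),(8,2)]) (.cons (.keep [3,8,9,10,11] (.node (.cons (.leaf 1 [(2,1),(4,1)]) (.cons (.leaf 1 [(2,1),(4,1)]) (.cons (.leaf 1 [(8,2),(7,2),(4,1)]) (.cons (.leaf 1 [(8,2),(7,2),(4,1)]) (.cons (.leaf 1 [(8,2),(2,1),(4,1)]) (.cons (.leaf 1 [(8,2),(2,1),(4,1)]) (.cons (.leaf 1 [(8,2),(7,1),(10,1)]) (.cons (.leaf 1 [(8,3),(7,2),(0,1),(10,1)]) .nil)))))))))) .nil)))))))))) (.cons (.leaf 1 [(4,2)]) (.cons (.leaf 1 [(7,1),(4,1)]) (.cons (.leaf 1 [(9,1),(4,2)]) (.cons (.leaf 1 [(7,1),(4,1),(9,1)]) (.cons (.keep [1,6,8,9,10] (.node (.cons (.leaf 1 [(3,1),(4,1)]) (.cons (.keep [0,3,8,9,10] (.node (.cons (.leaf 1 [(2,1),(4,1)]) (.cons (.leaf 1 [(2,1),(4,1)]) (.cons (.leaf 1 [(8,2),(4,1)])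 (.cons (.leaf 1 [(8,2),(4,1)]) (.cons (.leaf 1 [(8,2),(4,1),(9,1)]) (.cons (.leaf 1 [(8,2),(4,1),(9,1)]) (.cons (.leaf 1 [(8,1),(11,1)]) (.cons (.leaf 1 [(8,2),(0,1),(11,1)]) .nil)))))))))) (.cons (.leaf 1 [(3,1),(10,1)]) (.cons (.leaf 1 [(3,1),(10,1)]) (.cons (.leaf 1 [(4,1),(11,1)]) (.cons (.keep [1,4,9,10,11] (.node (.cons (.leaf 1 [(4,1)]) (.cons (.leaf 1 [(4,1)]) (.cons (.leaf 1 [(4,1),(11,1)]) (.cons (.leaf 1 [(4,1),(11,1)]) (.cons (.leaf 1 [(8,1),(4,1),(11,1)]) (.cons (.leaf 1 [(8,1),(4,1),(11,1)]) (.cons (.leaf 1 [(10,1),(11,1)]) (.cons (.leaf 1 [(0,1),(11,1),(10,1)]) .nil)))))))))) (.cons (.leaf 1 [(11,1)]) (.cons (.keep [0,3,5,7,10,11] (.node (.cons (.leaf 1 [(8,1),(4,1)]) (.cons (.leaf 1 [(8,1),(4,1)]) (.cons (.leaf 1 [(8,1),(4,1),(12,1)]) (.cons (.leaf 1 [(8,1),(4,1),(12,1)])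 (.cons (.leaf 1 [(12,1),(4,1)]) (.cons (.leaf 1 [(12,1),(4,1)]) (.cons (.leaf 1 [(12,1),(11,1)]) (.cons (.leaf 1 [(8,1),(0,1),(12,1),(11,1)]) .nil)))))))))) .nil)))))))))) (.cons (.keep [7,8,9,10,11] (.node (.cons (.leaf 1 [(4,2)]) (.cons (.keep [0,3,7,8,9] (.node (.cons (.leaf 1 [(3,1),(4,1)]) (.cons (.leaf 1 [(3,1),(4,1)]) (.cons (.leaf 1 [(3,1),(8,2),(4,1)]) (.cons (.leaf 1 [(3,1),(8,2),(4,1)]) (.cons (.leaf 1 [(9,2),(8,2),(4,1)]) (.cons (.leaf 1 [(9,2),(8,2),(4,1)]) (.cons (.leaf 1 [(9,1),(8,1),(11,1)]) (.cons (.leaf 1 [(9,2),(8,2),(0,1),(11,1)]) .nil)))))))))) (.cons (.leaf 1 [(4,1),(9,1)]) (.cons (.leaf 1 [(4,1),(9,1)]) (.cons (.leaf 1 [(4,2),(10,1)]) (.cons (.keep [4,5,9,10,11] (.node (.cons (.leaf 1 [(7,1),(4,1)]) (.cons (.leaf 1 [(7,1),(4,1)]) (.cons (.leaf 1 [(3,1),(10,1),(4,1)])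 (.cons (.leaf 1 [(3,1),(10,1),(4,1)]) (.cons (.leaf 1 [(7,2),(10,1),(4,1)]) (.cons (.leaf 1 [(7,2),(10,1),(4,1)]) (.cons (.leaf 1 [(7,1),(10,1),(9,1)]) (.cons (.leaf 1 [(7,2),(10,1),(0,1),(9,1)]) .nil)))))))))) (.cons (.leaf 1 [(7,1),(10,1)]) (.cons (.keep [1,7,8,9,10] (.node (.cons (.leaf 1 [(4,1)]) (.cons (.leaf 1 [(4,1)]) (.cons (.leaf 1 [(4,1),(11,1)]) (.cons (.leaf 1 [(4,1),(11,1)]) (.cons (.leaf 1 [(8,1),(4,1),(11,1)]) (.cons (.leaf 1 [(8,1),(4,1),(11,1)]) (.cons (.leaf 1 [(8,1),(10,1),(11,1)]) (.cons (.leaf 1 [(8,1),(0,1),(11,1),(10,1)]) .nil)))))))))) .nil)))))))))) .nil)))))))))) (.cons (.leaf 1 [(1,1),(4,1)]) (.cons (.leaf 1 [(7,1),(1,1),(10,1)]) (.cons (.leaf 1 [(9,1),(1,1)]) (.cons (.leaf 1 [(7,1),(9,1),(1,1),(10,1)]) .nil)))))))))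

theorem c_15_24_4 : Concl 15 24 z_15_24_4 h_15_24_4 .nd := piece _ hP_nil t_15_24_4 _ _ (by
  decide +kernel)

def z_15_24_5 : F := ⟨-1, 0, -1, -1, 3⟩

def h_15_24_5 : List F := [⟨-1, 0, 0, 0, 0⟩, ⟨0, 0, -1, 1, 0⟩, ⟨0, 0, 0, -1, 1⟩, ⟨0, -1, 1, 0, 0⟩,
  ⟨1, -1, 0, 0, 0⟩]

def t_15_24_5 : T := (.node (.cons (.keep [4,6,7,8,10] (.node (.cons (.leaf 1 [(4,1),(11,1)]) (.cons (.keep [0,3,8,9,10,11] (.node (.cons (.leaf 1 [(4,1)]) (.cons (.leaf 1 [(12,1),(4,1)]) (.cons (.leaf 1 [(4,1)]) (.cons (.leaf 1 [(4,1),(12,1),(0,1)]) (.cons (.leaf 1 [(4,1)]) (.cons (.leaf 1 [(4,1),(12,1),(0,1)]) (.cons (.leaf 1 []) (.cons (.leaf 1 [(12,1),(0,1)]) .nil)))))))))) (.cons (.leaf 1 [(1,1)]) (.cons (.leaf 1 [(1,1)]) (.cons (.leaf 1 [(4,1),(11,1)]) (.cons (.keep [0,1,2,4,11] (.node (.cons (.leaf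 1 [(4,1)]) (.cons (.leaf 1 [(8,1),(11,1),(4,1)]) (.cons (.leaf 1 [(4,1)]) (.cons (.leaf 1 [(4,1),(11,1)]) (.cons (.leaf 1 [(4,1)]) (.cons (.leaf 1 [(8,1),(4,1),(11,1),(0,1)]) (.cons (.leaf 1 []) (.cons (.leaf 1 [(8,1),(11,1),(0,1)]) .nil)))))))))) (.cons (.leaf 1 [(11,1)]) (.cons (.keep [0,3,9,10,11] (.node (.cons (.leaf 1 [(4,1)]) (.cons (.leaf 1 [(9,1),(8,1),(11,1),(4,1)]) (.cons (.leaf 1 [(4,1)]) (.cons (.leaf 1 [(4,1),(8,1),(11,1)]) (.cons (.leaf 1 [(4,1)]) (.cons (.leaf 1 [(4,1),(11,1)]) (.cons (.leaf 1 []) (.cons (.leaf 1 [(9,1),(8,1),(11,1),(0,1)]) .nil)))))))))) .nil)))))))))) (.cons (.keep [4,7,8,10,11] (.node (.cons (.leaf 1 [(10,2),(9,1),(4,3)]) (.cons (.keep [0,4,8,9,10] (.node (.cons (.leaf 1 [(10,1),(3,1),(4,2)]) (.cons (.leaf 1 [(10,1),(3,1),(11,2),(4,2)]) (.cons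 (.leaf 1 [(4,1),(3,1)]) (.cons (.leaf 1 [(4,1),(3,2),(11,1),(0,1)]) (.cons (.leaf 1 [(10,1),(4,2),(8,1)]) (.cons (.leaf 1 [(10,1),(11,2),(8,3),(4,2)]) (.cons (.leaf 1 [(10,1),(8,1)]) (.cons (.keep [0,7,8,10,11] (.node (.cons (.leaf 2 [(2,2),(11,1),(4,3)]) (.cons (.leaf 1 [(2,1),(11,1),(4,1),(10,1)]) (.cons (.leaf 2 [(4,3),(11,1),(9,3)]) (.cons (.leaf 1 [(4,1),(11,1),(9,2),(10,1)]) (.cons (.leaf 1 [(9,1),(4,2)]) (.cons (.leaf 1 [(10,1),(4,2),(9,1)]) (.cons (.leaf 1 [(9,2),(11,1),(7,1)]) (.cons (.leaf 1 [(9,3),(11,2),(10,1),(0,2)]) .nil)))))))))) .nil)))))))))) (.cons (.leaf 1 [(4,1),(1,1),(9,1)]) (.cons (.leaf 1 [(4,1),(9,1),(1,1)]) (.cons (.leaf 1 [(10,1),(4,2)]) (.cons (.keep [0,4,8,10,11] (.node (.cons (.leaf 1 [(8,1),(4,1)]) (.cons (.leaf 1 [(9,1),(8,2),(10,1),(4,1)]) (.cons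 (.leaf 1 [(4,1),(3,1)]) (.cons (.leaf 1 [(4,1),(3,1),(10,1)]) (.cons (.leaf 1 [(8,1),(4,1)]) (.cons (.leaf 1 [(8,2),(4,1),(10,1)]) (.cons (.leaf 1 [(8,1)]) (.cons (.leaf 1 [(9,1),(8,3),(10,1),(0,1)]) .nil)))))))))) (.cons (.leaf 1 [(10,2),(9,1),(11,1)]) (.cons (.keep [0,1,9,10,11] (.node (.cons (.leaf 1 [(9,1),(3,1),(4,2)]) (.cons (.leaf 1 [(9,1),(4,2),(10,2),(8,1)]) (.cons (.leaf 1 [(4,1),(3,1)]) (.cons (.leaf 1 [(4,1),(10,1)]) (.cons (.leaf 1 [(9,1),(4,3),(11,1)]) (.cons (.leaf 1 [(9,1),(4,3),(10,2),(11,1)]) (.cons (.leaf 1 [(9,2),(7,1),(11,1)]) (.cons (.keep [0,8,9,10,11] (.node (.cons (.leaf 2 [(2,1),(10,1),(4,3)]) (.cons (.leaf 1 [(9,1),(10,1),(4,1)]) (.cons (.leaf 1 [(4,2),(11,1)]) (.cons (.leaf 2 [(4,3),(10,1),(11,2),(9,2)]) (.cons (.leaf 1 [(11,1),(4,3),(7,1)]) (.cons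 (.leaf 1 [(9,1),(4,3),(11,1),(0,1)]) (.cons (.leaf 1 [(11,1),(10,1),(7,2)]) (.cons (.leaf 1 [(10,2),(9,1),(11,1),(0,3)]) .nil)))))))))) .nil)))))))))) .nil)))))))))) (.cons (.leaf 1 [(1,2),(10,1)]) (.cons (.leaf 1 [(1,3),(10,2),(8,1),(11,1)]) (.cons (.leaf 1 [(1,2)]) (.cons (.keep [1,7,8,9,11] (.node (.cons (.leaf 1 [(7,3),(9,1),(4,1)]) (.cons (.leaf 1 [(7,3),(9,1),(4,1)]) (.cons (.leaf 1 [(1,2),(9,1),(4,1)]) (.cons (.leaf 1 [(1,2),(9,1),(4,1)]) (.cons (.leaf 1 [(7,2),(4,1)]) (.cons (.leaf 1 [(7,2),(4,1)]) (.cons (.leaf 1 [(7,2),(9,1),(11,1)]) (.cons (.leaf 1 [(7,5),(9,2),(0,1),(11,1)]) .nil)))))))))) (.cons (.keep [1,3,6,9,10] (.node (.cons (.leaf 1 [(4,1),(7,1),(11,1)]) (.cons (.keep [0,7,8,9,11] (.node (.cons (.leaf 1 [(8,1),(4,1)]) (.cons (.leaf 1 [(8,1),(11,1),(4,1)])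 (.cons (.leaf 1 [(1,1),(4,1)]) (.cons (.leaf 1 [(4,1),(11,1)]) (.cons (.leaf 1 [(8,1),(4,1)]) (.cons (.leaf 1 [(8,2),(4,1),(11,1),(0,1)]) (.cons (.leaf 1 [(8,1)]) (.cons (.leaf 1 [(8,2),(11,1),(0,1)]) .nil)))))))))) (.cons (.leaf 1 [(1,1),(7,1)]) (.cons (.leaf 1 [(1,1),(7,1)]) (.cons (.leaf 1 [(4,1),(1,1),(11,1)]) (.cons (.keep [0,1,2,4,11] (.node (.cons (.leaf 1 [(8,1),(4,1)]) (.cons (.leaf 1 [(8,2),(11,1),(4,1)]) (.cons (.leaf 1 [(1,1),(4,1)]) (.cons (.leaf 1 [(1,1),(11,1),(4,1)]) (.cons (.leaf 1 [(8,1),(4,1)]) (.cons (.leaf 1 [(8,3),(4,1),(11,1),(0,1)]) (.cons (.leaf 1 [(8,1)]) (.cons (.leaf 1 [(8,3),(11,1),(0,1)]) .nil)))))))))) (.cons (.leaf 1 [(11,1),(7,1)]) (.cons (.keep [0,3,7,8,11] (.node (.cons (.leaf 1 [(9,1),(4,1)]) (.cons (.leaf 1 [(9,2),(8,1),(11,1),(4,1)]) (.cons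 (.leaf 1 [(1,1),(4,1)]) (.cons (.leaf 1 [(1,1),(8,1),(11,1),(4,1)]) (.cons (.leaf 1 [(9,1),(4,1)]) (.cons (.leaf 1 [(9,1),(4,1),(11,1)]) (.cons (.leaf 1 [(9,1)]) (.cons (.leaf 1 [(9,3),(8,1),(11,1),(0,1)]) .nil)))))))))) .nil)))))))))) (.cons (.keep [1,3,5,9,10,11] (.node (.cons (.leaf 1 [(11,1),(7,2),(4,2)]) (.cons (.keep [0,4,7,11,12] (.node (.cons (.leaf 1 [(9,2),(3,1),(4,1)]) (.cons (.leaf 1 [(9,2),(3,1),(10,1),(4,1)]) (.cons (.leaf 1 [(1,1),(3,1),(4,1)]) (.cons (.leaf 1 [(4,1),(3,1),(10,1)]) (.cons (.leaf 1 [(9,2),(4,1),(8,1)]) (.cons (.leaf 1 [(9,2),(10,1),(8,2),(4,1)]) (.cons (.leaf 1 [(9,2),(8,1)]) (.cons (.leaf 1 [(9,4),(8,2),(10,1),(0,1)]) .nil)))))))))) (.cons (.leaf 1 [(4,1),(7,2)]) (.cons (.leaf 1 [(4,1),(7,2)]) (.cons (.leaf 1 [(11,1),(1,1),(4,2)]) (.cons (.keep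 [0,1,4,5,11] (.node (.cons (.leaf 1 [(8,2),(3,1),(4,1)]) (.cons (.leaf 1 [(8,3),(3,1),(11,1),(4,1)]) (.cons (.leaf 1 [(1,1),(3,1),(4,1)]) (.cons (.leaf 1 [(1,1),(3,1),(11,1),(4,1)]) (.cons (.leaf 1 [(8,1),(4,1),(9,1)]) (.cons (.leaf 1 [(8,1),(11,1),(9,2),(4,1)]) (.cons (.leaf 1 [(8,1),(9,1)]) (.cons (.leaf 1 [(8,3),(9,2),(11,1),(0,1)]) .nil)))))))))) (.cons (.leaf 1 [(11,1),(7,1),(12,1)]) (.cons (.keep [0,3,7,11,12] (.node (.cons (.leaf 1 [(9,2),(3,1),(4,1)]) (.cons (.leaf 1 [(9,2),(4,1),(10,1)]) (.cons (.leaf 1 [(1,1),(3,1),(4,1)]) (.cons (.leaf 1 [(1,1),(4,1),(10,1)]) (.cons (.leaf 1 [(9,1),(4,2),(11,1)]) (.cons (.leaf 1 [(9,1),(4,2),(10,1),(11,1)]) (.cons (.leaf 1 [(9,3),(7,1),(11,1)]) (.cons (.leaf 1 [(9,5),(11,1),(10,1),(0,2)]) .nil)))))))))) .nil)))))))))) .nil)))))))))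

theorem c_15_24_5 : Concl 15 24 z_15_24_5 h_15_24_5 .nd := piece _ hP_nil t_15_24_5 _ _ (by
  decide +kernel)

end Pool.Agent.H4.RD4.E41
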