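import Pool.Agent.H4.RD4.Chk

/-! # Certificates for special cases of order four -/

set_option maxRecDepth 20000

namespace Pool.Agent.H4.RD4.E44

open Pool.Agent.H50.Rdb
open Pool.Agent.H81.RDE (ESB caseOf)

def z_15_24_24 : F := ⟨0, -1, 0, -1, 2⟩

def h_15_24_24 : List F := [⟨0, -1, 0, 0, 0⟩, ⟨0, 0, -1, 1, 0⟩, ⟨0, -1, 0, -1, 1⟩, ⟨0, 1, 0, 0,
  1⟩, ⟨-1, 1, 0, 0, 0⟩]

def t_15_24_24 : T := (.node (.cons (.leaf 1 [(11,1)]) (.cons (.keep [0,2,8,10,11] (.node (.cons (.keep [3,4,6,8,9] (.node (.cons (.leaf 1 [(4,1),(3,1),(11,1)]) (.cons (.keep [0,2,3,9,11] (.node (.cons (.leaf 1 [(2,1),(4,1)]) (.cons (.leaf 1 [(2,1),(11,1),(4,1)]) (.cons (.leaf 1 [(4,1),(9,1)]) (.cons (.leaf 1 [(11,1),(9,2),(4,1)]) (.cons (.leaf 1 [(9,1),(4,1)]) (.cons (.leaf 1 [(9,2),(4,1),(11,1),(0,1)]) (.cons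 (.leaf 1 [(9,1)]) (.cons (.leaf 1 [(9,2),(11,1),(0,1)]) .nil)))))))))) (.cons (.leaf 1 [(3,1)]) (.cons (.leaf 1 [(3,1)]) (.cons (.leaf 1 [(4,1),(8,1),(11,1)]) (.cons (.keep [0,1,4,7,8,11] (.node (.cons (.leaf 1 [(2,1),(4,1)]) (.cons (.leaf 1 [(4,1),(12,1)]) (.cons (.leaf 1 [(4,1),(11,1)]) (.cons (.leaf 1 [(4,1),(12,1),(11,1)]) (.cons (.leaf 1 [(11,1),(4,1)]) (.cons (.leaf 1 [(11,1),(4,1),(12,1),(0,1)]) (.cons (.leaf 1 [(11,1)]) (.cons (.leaf 1 [(11,1),(12,1),(0,1)]) .nil)))))))))) (.cons (.leaf 1 [(11,1),(8,1)]) (.cons (.keep [0,3,7,8,10,11] (.node (.cons (.leaf 1 [(2,1),(4,1)]) (.cons (.leaf 1 [(4,1),(8,1),(12,1)]) (.cons (.leaf 1 [(4,1),(10,1)]) (.cons (.leaf 1 [(4,1),(8,1),(12,1),(10,1)]) (.cons (.leaf 1 [(10,1),(4,1)]) (.cons (.leaf 1 [(10,1),(4,1),(12,1)]) (.cons (.leaf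 1 [(10,1)]) (.cons (.leaf 1 [(8,1),(12,1),(10,1),(0,1)]) .nil)))))))))) .nil)))))))))) (.cons (.keep [5,7,8,9,10,11] (.node (.cons (.leaf 1 [(10,1),(4,2)]) (.cons (.keep [0,4,7,8,10,12] (.node (.cons (.leaf 1 [(3,1),(4,1)]) (.cons (.leaf 1 [(3,1),(11,1),(4,1)]) (.cons (.leaf 1 [(4,1),(8,1)]) (.cons (.leaf 1 [(4,1),(8,2),(11,1),(0,1)]) (.cons (.leaf 1 [(4,1),(8,1)]) (.cons (.leaf 1 [(11,1),(8,2),(4,1)]) (.cons (.leaf 1 [(8,1)]) (.cons (.leaf 1 [(8,2),(11,1),(0,1)]) .nil)))))))))) (.cons (.leaf 1 [(4,1)]) (.cons (.leaf 1 [(4,1)]) (.cons (.leaf 1 [(10,1),(4,1),(11,1)]) (.cons (.keep [0,4,8,9,10,11] (.node (.cons (.leaf 1 [(3,1),(4,1)]) (.cons (.leaf 1 [(8,1),(4,1),(11,1)]) (.cons (.leaf 1 [(4,1),(12,1)]) (.cons (.leaf 1 [(4,1),(12,1),(11,1)]) (.cons (.leaf 1 [(4,1),(12,1)]) (.cons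 (.leaf 1 [(8,1),(4,1),(11,1),(12,1)]) (.cons (.leaf 1 [(12,1)]) (.cons (.leaf 1 [(8,1),(12,1),(11,1),(0,1)]) .nil)))))))))) (.cons (.leaf 1 [(10,1),(11,1)]) (.cons (.keep [0,1,3,8,10,11,12] (.node (.cons (.leaf 1 [(3,1),(4,1)]) (.cons (.leaf 1 [(4,1),(11,1)]) (.cons (.leaf 1 [(4,1),(12,1)]) (.cons (.leaf 1 [(4,1),(12,1),(11,1),(0,1)]) (.cons (.leaf 1 [(4,1),(12,1)]) (.cons (.leaf 1 [(4,1),(11,1),(12,1)]) (.cons (.leaf 1 [(12,1)]) (.cons (.leaf 1 [(12,1),(11,1),(0,1)]) .nil)))))))))) .nil)))))))))) (.cons (.leaf 1 [(4,1),(1,1),(9,1)]) (.cons (.leaf 1 [(1,1),(9,1),(10,1)]) (.cons (.leaf 1 [(1,1),(4,1)]) (.cons (.leaf 1 [(1,1),(10,1)]) (.cons (.keep [1,6,7,9] (.node (.cons (.leaf 1 [(4,1),(10,1)]) (.cons (.keep [0,3,7,8,9,10] (.node (.cons (.leaf 1 [(4,1)]) (.cons (.leaf 1 [(12,1),(4,1)])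 (.cons (.leaf 1 [(4,1)]) (.cons (.leaf 1 [(4,1),(12,1),(0,1)]) (.cons (.leaf 1 [(4,1)]) (.cons (.leaf 1 [(4,1),(12,1),(0,1)]) (.cons (.leaf 1 []) (.cons (.leaf 1 [(12,1),(0,1)]) .nil)))))))))) (.cons (.leaf 1 [(1,1)]) (.cons (.leaf 1 [(1,1)]) (.cons (.leaf 1 [(4,1),(10,1)]) (.cons (.keep [0,1,4,9,10] (.node (.cons (.leaf 1 [(4,1)]) (.cons (.leaf 1 [(8,1),(11,1),(4,1)]) (.cons (.leaf 1 [(4,1)]) (.cons (.leaf 1 [(4,1),(11,1)]) (.cons (.leaf 1 [(4,1)]) (.cons (.leaf 1 [(8,1),(4,1),(11,1),(0,1)]) (.cons (.leaf 1 []) (.cons (.leaf 1 [(8,1),(11,1),(0,1)]) .nil)))))))))) (.cons (.leaf 1 [(10,1)]) (.cons (.keep [0,3,7,9,10] (.node (.cons (.leaf 1 [(4,1)]) (.cons (.leaf 1 [(9,1),(8,1),(11,1),(4,1)]) (.cons (.leaf 1 [(4,1)]) (.cons (.leaf 1 [(4,1),(8,1),(11,1)]) (.cons (.leaf 1 [(4,1)])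 (.cons (.leaf 1 [(4,1),(11,1)]) (.cons (.leaf 1 []) (.cons (.leaf 1 [(9,1),(8,1),(11,1),(0,1)]) .nil)))))))))) .nil)))))))))) (.cons (.keep [5,7,9,10,11] (.node (.cons (.leaf 1 [(9,1),(10,1),(4,1)]) (.cons (.keep [0,4,8,9,11] (.node (.cons (.leaf 2 [(11,1),(3,1),(4,2)]) (.cons (.leaf 2 [(11,1),(3,1),(10,2),(4,2)]) (.cons (.leaf 1 [(4,1),(3,1)]) (.cons (.leaf 1 [(4,1),(3,2),(10,1),(0,1)]) (.cons (.leaf 2 [(11,1),(4,2),(8,1)]) (.cons (.leaf 2 [(11,1),(10,2),(8,3),(4,2)]) (.cons (.leaf 2 [(11,1),(8,1)]) (.cons (.leaf 1 [(11,1),(8,1),(10,1),(0,1)]) .nil)))))))))) (.cons (.leaf 1 [(1,1),(10,1)]) (.cons (.leaf 1 [(10,1),(1,1)]) (.cons (.leaf 1 [(9,1),(4,2)]) (.cons (.keep [0,4,7,8,9,11] (.node (.cons (.leaf 1 [(8,1),(4,1)]) (.cons (.leaf 1 [(12,1),(4,1),(11,1)]) (.cons (.leaf 1 [(4,1),(3,1)])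 (.cons (.leaf 1 [(4,1),(3,1),(11,1)]) (.cons (.leaf 1 [(8,1),(4,1)]) (.cons (.leaf 1 [(8,2),(4,1),(11,1)]) (.cons (.leaf 1 [(8,1)]) (.cons (.leaf 1 [(12,1),(8,1),(11,1),(0,1)]) .nil)))))))))) (.cons (.leaf 1 [(9,1),(10,1)]) (.cons (.keep [0,3,8,9,11] (.node (.cons (.leaf 2 [(11,1),(3,1),(4,2)]) (.cons (.leaf 1 [(11,1),(4,1),(10,1),(0,1)]) (.cons (.leaf 1 [(4,1),(3,1)]) (.cons (.leaf 1 [(4,1),(10,1)]) (.cons (.leaf 1 [(11,1),(4,1),(7,1)]) (.cons (.leaf 1 [(11,1),(4,1),(10,1),(0,1)]) (.cons (.leaf 1 [(11,1),(7,1),(3,1)]) (.cons (.leaf 1 [(10,1),(11,1),(0,1)]) .nil)))))))))) .nil)))))))))) .nil)))))))))) (.cons (.leaf 1 [(1,1),(11,1)]) (.cons (.keep [0,1,7,8,11] (.node (.cons (.keep [3,4,6,9,10] (.node (.cons (.leaf 1 [(4,1),(3,1),(11,1)]) (.cons (.keep [0,2,3,9,11] (.node (.cons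 (.leaf 1 [(2,1),(4,1)]) (.cons (.leaf 1 [(2,1),(11,1),(4,1)]) (.cons (.leaf 1 [(4,1),(9,1)]) (.cons (.leaf 1 [(11,1),(9,2),(4,1)]) (.cons (.leaf 1 [(9,1),(4,1)]) (.cons (.leaf 1 [(9,2),(4,1),(11,1),(0,1)]) (.cons (.leaf 1 [(9,1)]) (.cons (.leaf 1 [(9,2),(11,1),(0,1)]) .nil)))))))))) (.cons (.leaf 1 [(3,1)]) (.cons (.leaf 1 [(3,1)]) (.cons (.leaf 1 [(4,1),(8,1),(11,1)]) (.cons (.keep [0,1,4,7,8,11] (.node (.cons (.leaf 1 [(2,1),(4,1)]) (.cons (.leaf 1 [(4,1),(12,1)]) (.cons (.leaf 1 [(4,1),(11,1)]) (.cons (.leaf 1 [(4,1),(12,1),(11,1)]) (.cons (.leaf 1 [(11,1),(4,1)]) (.cons (.leaf 1 [(11,1),(4,1),(12,1),(0,1)]) (.cons (.leaf 1 [(11,1)]) (.cons (.leaf 1 [(11,1),(12,1),(0,1)]) .nil)))))))))) (.cons (.leaf 1 [(11,1),(8,1)]) (.cons (.keep [0,3,7,8,10,11] (.node (.cons (.leaf 1 [(2,1),(4,1)])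 (.cons (.leaf 1 [(4,1),(8,1),(12,1)]) (.cons (.leaf 1 [(4,1),(10,1)]) (.cons (.leaf 1 [(4,1),(8,1),(12,1),(10,1)]) (.cons (.leaf 1 [(10,1),(4,1)]) (.cons (.leaf 1 [(10,1),(4,1),(12,1)]) (.cons (.leaf 1 [(10,1)]) (.cons (.leaf 1 [(8,1),(12,1),(10,1),(0,1)]) .nil)))))))))) .nil)))))))))) (.cons (.keep [5,7,8,10,11] (.node (.cons (.leaf 1 [(10,1),(4,2)]) (.cons (.keep [0,4,7,8,10,11] (.node (.cons (.leaf 1 [(3,1),(4,1)]) (.cons (.leaf 1 [(3,1),(11,1),(4,1)]) (.cons (.leaf 1 [(4,1),(8,1)]) (.cons (.leaf 1 [(4,1),(8,2),(11,1),(0,1)]) (.cons (.leaf 1 [(4,1),(8,1)]) (.cons (.leaf 1 [(11,1),(8,2),(4,1)]) (.cons (.leaf 1 [(8,1)]) (.cons (.leaf 1 [(8,2),(11,1),(0,1)]) .nil)))))))))) (.cons (.leaf 1 [(4,1)]) (.cons (.leaf 1 [(4,1)]) (.cons (.leaf 1 [(10,1),(4,1),(9,1)]) (.cons (.keep [0,1,8,9,10]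 (.node (.cons (.leaf 1 [(3,1),(4,1)]) (.cons (.leaf 1 [(8,1),(3,1),(11,1),(4,1)]) (.cons (.leaf 1 [(4,1),(10,1)]) (.cons (.leaf 1 [(4,1),(10,1),(11,1)]) (.cons (.leaf 1 [(4,1),(10,1)]) (.cons (.leaf 1 [(8,1),(11,1),(10,2),(4,1)]) (.cons (.leaf 1 [(10,1)]) (.cons (.leaf 1 [(8,1),(10,2),(11,1),(0,1)]) .nil)))))))))) (.cons (.leaf 1 [(10,1),(9,1)]) (.cons (.keep [0,3,8,9,10,11] (.node (.cons (.leaf 1 [(3,1),(4,1)]) (.cons (.leaf 1 [(4,1),(11,1)]) (.cons (.leaf 1 [(4,1),(10,1)]) (.cons (.leaf 1 [(4,1),(10,1),(11,1),(0,1)]) (.cons (.leaf 1 [(4,1),(10,1)]) (.cons (.leaf 1 [(4,1),(11,1),(10,1)]) (.cons (.leaf 1 [(10,1)]) (.cons (.leaf 1 [(10,1),(11,1),(0,1)]) .nil)))))))))) .nil)))))))))) (.cons (.leaf 1 [(4,1),(1,1),(10,1)]) (.cons (.leaf 1 [(8,1),(1,1),(10,1)]) (.cons (.leaf 1 [(1,1),(4,1)])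 (.cons (.leaf 1 [(1,1),(8,1)]) (.cons (.keep [1,6,7,10] (.node (.cons (.leaf 1 [(4,1),(10,1)]) (.cons (.keep [0,3,7,8,9,10] (.node (.cons (.leaf 1 [(4,1)]) (.cons (.leaf 1 [(12,1),(4,1)]) (.cons (.leaf 1 [(4,1)]) (.cons (.leaf 1 [(4,1),(12,1),(0,1)]) (.cons (.leaf 1 [(4,1)]) (.cons (.leaf 1 [(4,1),(12,1),(0,1)]) (.cons (.leaf 1 []) (.cons (.leaf 1 [(12,1),(0,1)]) .nil)))))))))) (.cons (.leaf 1 [(1,1)]) (.cons (.leaf 1 [(1,1)]) (.cons (.leaf 1 [(4,1),(10,1)]) (.cons (.keep [0,1,4,9,10] (.node (.cons (.leaf 1 [(4,1)]) (.cons (.leaf 1 [(8,1),(11,1),(4,1)]) (.cons (.leaf 1 [(4,1)]) (.cons (.leaf 1 [(4,1),(11,1)]) (.cons (.leaf 1 [(4,1)]) (.cons (.leaf 1 [(8,1),(4,1),(11,1),(0,1)]) (.cons (.leaf 1 []) (.cons (.leaf 1 [(8,1),(11,1),(0,1)]) .nil)))))))))) (.cons (.leaf 1 [(10,1)]) (.cons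 (.keep [0,3,7,9,10] (.node (.cons (.leaf 1 [(4,1)]) (.cons (.leaf 1 [(9,1),(8,1),(11,1),(4,1)]) (.cons (.leaf 1 [(4,1)]) (.cons (.leaf 1 [(4,1),(8,1),(11,1)]) (.cons (.leaf 1 [(4,1)]) (.cons (.leaf 1 [(4,1),(11,1)]) (.cons (.leaf 1 []) (.cons (.leaf 1 [(9,1),(8,1),(11,1),(0,1)]) .nil)))))))))) .nil)))))))))) (.cons (.keep [1,5,7,8,10] (.node (.cons (.leaf 1 [(11,1),(7,1),(4,2)]) (.cons (.keep [0,4,7,9,11] (.node (.cons (.leaf 1 [(9,1),(3,1),(4,1)]) (.cons (.leaf 1 [(9,1),(3,1),(11,1),(4,1)]) (.cons (.leaf 1 [(4,1),(3,1)]) (.cons (.leaf 1 [(4,1),(3,2),(11,1),(0,1)]) (.cons (.leaf 1 [(9,1),(4,1),(8,1)]) (.cons (.leaf 1 [(9,1),(11,1),(8,2),(4,1)]) (.cons (.leaf 1 [(9,1),(8,1)]) (.cons (.leaf 1 [(9,2),(8,2),(11,1),(0,1)]) .nil)))))))))) (.cons (.leaf 1 [(4,1),(7,1)]) (.cons (.leaf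 1 [(4,1),(7,1)]) (.cons (.leaf 1 [(11,1),(4,2)]) (.cons (.keep [0,1,4,9,11] (.node (.cons (.leaf 1 [(8,1),(3,1),(4,1)]) (.cons (.leaf 1 [(8,2),(3,1),(11,1),(4,1)]) (.cons (.leaf 1 [(4,1),(3,1)]) (.cons (.leaf 1 [(4,1),(3,1),(11,1)]) (.cons (.leaf 1 [(9,1),(4,1)]) (.cons (.leaf 1 [(4,1),(11,1),(9,2)]) (.cons (.leaf 1 [(9,1)]) (.cons (.leaf 1 [(8,1),(9,2),(11,1),(0,1)]) .nil)))))))))) (.cons (.leaf 1 [(11,1),(10,1)]) (.cons (.keep [0,3,7,9,10,11] (.node (.cons (.leaf 1 [(9,1),(3,1),(4,1)]) (.cons (.leaf 1 [(9,1),(4,1),(12,1)]) (.cons (.leaf 1 [(4,1),(3,1)]) (.cons (.leaf 1 [(4,1),(12,1)]) (.cons (.leaf 1 [(11,1),(4,1)]) (.cons (.leaf 1 [(11,1),(4,1),(12,1)]) (.cons (.leaf 1 [(11,1)]) (.cons (.leaf 1 [(9,1),(11,1),(12,1),(0,1)]) .nil)))))))))) .nil)))))))))) .nil)))))))))) (.cons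 (.leaf 1 [(10,1),(1,1),(8,1)]) (.cons (.leaf 1 [(10,1),(1,1),(8,1)]) (.cons (.leaf 1 [(10,1),(1,1)]) (.cons (.leaf 1 [(10,1),(1,1)]) .nil)))))))))

theorem c_15_24_24 : Concl 15 24 z_15_24_24 h_15_24_24 .nd := piece _ hP_nil t_15_24_24 _ _ (by
  decide +kernel)

def z_15_24_25 : F := ⟨1, -1, -1, 0, 2⟩

def h_15_24_25 : List F := [⟨1, -1, 0, 0, 0⟩, ⟨0, 0, 1, -1, 0⟩, ⟨0, 1, -1, 0, 0⟩, ⟨0, 1, 0, 0, 1⟩,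
  ⟨-1, 1, 0, 0, 0⟩, ⟨0, -1, 0, 0, 1⟩]

def t_15_24_25 : T := (.node (.cons (.leaf 1 [(11,2),(8,1),(2,1)]) (.cons (.keep [2,7,8,9,10,11] (.node (.cons (.keep [4,6,7,9,10] (.node (.cons (.leaf 1 [(4,1)]) (.cons (.keep [3,8,9,10,11] (.node (.cons (.leaf 1 [(4,1)]) (.cons (.leaf 1 [(4,1)]) (.cons (.leaf 1 [(4,1),(7,1)]) (.cons (.leaf 1 [(4,1),(7,1)]) (.cons (.leaf 1 [(8,1),(4,1),(7,1)]) (.cons (.leaf 1 [(8,1),(4,1),(7,1)]) (.cons (.leaf 1 [(10,1)]) (.cons (.leaf 1 [(0,1),(10,1)]) .nil)))))))))) (.cons (.leaf 1 [(4,1)]) (.cons (.leaf 1 [(1,1),(10,1)]) (.cons (.leaf 1 [(4,1)]) (.cons (.keep [0,1,4,10,11] (.node (.cons (.leaf 1 [(8,1),(4,1)]) (.cons (.leaf 1 [(8,1),(4,1)]) (.cons (.leaf 1 [(4,1)]) (.cons (.leaf 1 [(4,1)]) (.cons (.leaf 1 [(9,1),(4,1)]) (.cons (.leaf 1 [(9,1),(4,1)])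 (.cons (.leaf 1 [(10,1)]) (.cons (.leaf 1 [(8,1),(0,1),(10,1)]) .nil)))))))))) (.cons (.leaf 1 []) (.cons (.keep [3,7,8,9,10,11] (.node (.cons (.leaf 1 [(10,1),(7,1),(4,1)]) (.cons (.leaf 1 [(10,1),(7,1),(4,1)]) (.cons (.leaf 1 [(4,1),(7,1)]) (.cons (.leaf 1 [(4,1),(7,1)]) (.cons (.leaf 1 [(4,1)]) (.cons (.leaf 1 [(4,1)]) (.cons (.leaf 1 [(11,1)]) (.cons (.leaf 1 [(10,1),(7,1),(0,1),(11,1)]) .nil)))))))))) .nil)))))))))) (.cons (.keep [5,7,9,10,11,12] (.node (.cons (.leaf 1 [(12,1),(4,1)]) (.cons (.keep [3,5,8,9,12] (.node (.cons (.leaf 1 [(11,1),(4,1)]) (.cons (.leaf 1 [(11,1),(4,1)]) (.cons (.leaf 1 [(3,1),(7,1),(4,1)]) (.cons (.leaf 1 [(3,1),(7,1),(4,1)]) (.cons (.leaf 1 [(11,1),(10,1),(4,1)]) (.cons (.leaf 1 [(11,2),(0,1),(4,1),(10,1)]) (.cons (.leaf 1 [(11,1),(10,1)]) (.cons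 (.leaf 1 [(11,2),(0,1),(10,1)]) .nil)))))))))) (.cons (.leaf 1 [(4,1),(12,1)]) (.cons (.leaf 1 [(1,1),(12,1),(9,1)]) (.cons (.leaf 1 [(4,2)]) (.cons (.keep [4,7,8,9,10,11] (.node (.cons (.leaf 1 [(9,1),(7,2),(4,1)]) (.cons (.leaf 1 [(9,1),(7,2),(4,1)]) (.cons (.leaf 1 [(4,1),(3,1)]) (.cons (.leaf 1 [(4,1),(3,1)]) (.cons (.leaf 1 [(4,1),(7,2)]) (.cons (.leaf 1 [(4,1),(7,2)]) (.cons (.leaf 1 [(10,1),(7,1)]) (.cons (.leaf 1 [(9,1),(7,3),(0,1),(10,1)]) .nil)))))))))) (.cons (.leaf 1 [(12,1)]) (.cons (.keep [1,3,9,10,11,12] (.node (.cons (.leaf 1 [(12,1),(7,1),(4,1)]) (.cons (.leaf 1 [(12,1),(7,1),(4,1)]) (.cons (.leaf 1 [(4,1)]) (.cons (.leaf 1 [(4,1)]) (.cons (.leaf 1 [(4,1),(12,1)]) (.cons (.leaf 1 [(4,1),(12,1)]) (.cons (.leaf 1 [(9,1),(12,1)]) (.cons (.leaf 1 [(12,2),(7,1),(0,1),(9,1)])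 .nil)))))))))) .nil)))))))))) (.cons (.leaf 1 [(1,2)]) (.cons (.leaf 1 [(1,1),(12,1)]) (.cons (.leaf 1 [(9,1),(1,2)]) (.cons (.leaf 1 [(9,1),(1,1),(12,1)]) (.cons (.keep [1,6,8,9,10] (.node (.cons (.leaf 1 [(7,1),(4,1)]) (.cons (.keep [0,7,8,10,11] (.node (.cons (.leaf 1 [(8,1),(4,1)]) (.cons (.leaf 1 [(8,1),(4,1)]) (.cons (.leaf 1 [(4,1)]) (.cons (.leaf 1 [(4,1)]) (.cons (.leaf 1 [(9,1),(4,1)]) (.cons (.leaf 1 [(9,1),(4,1)]) (.cons (.leaf 1 [(8,1),(10,1)]) (.cons (.leaf 1 [(8,2),(0,1),(10,1)]) .nil)))))))))) (.cons (.leaf 1 [(4,1),(7,1)]) (.cons (.leaf 1 [(1,1),(7,1),(10,1)]) (.cons (.leaf 1 [(1,1),(4,1)]) (.cons (.keep [0,1,4,10,11] (.node (.cons (.leaf 1 [(8,2),(4,1)]) (.cons (.leaf 1 [(8,2),(4,1)]) (.cons (.leaf 1 [(1,1),(4,1)]) (.cons (.leaf 1 [(1,1),(4,1)]) (.cons (.leaf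 1 [(8,1),(4,1),(9,1)]) (.cons (.leaf 1 [(8,1),(4,1),(9,1)]) (.cons (.leaf 1 [(8,1),(10,1)]) (.cons (.leaf 1 [(8,3),(0,1),(10,1)]) .nil)))))))))) (.cons (.leaf 1 [(7,1)]) (.cons (.keep [3,5,7,8,9,10] (.node (.cons (.leaf 1 [(9,2),(7,1),(4,1)]) (.cons (.leaf 1 [(9,2),(7,1),(4,1)]) (.cons (.leaf 1 [(4,1),(1,1),(7,1)]) (.cons (.leaf 1 [(4,1),(7,1),(1,1)]) (.cons (.leaf 1 [(9,1),(4,1)]) (.cons (.leaf 1 [(9,1),(4,1)]) (.cons (.leaf 1 [(9,1),(12,1)]) (.cons (.leaf 1 [(9,3),(7,1),(0,1),(12,1)]) .nil)))))))))) .nil)))))))))) (.cons (.keep [5,8,9,10,11,12] (.node (.cons (.leaf 1 [(10,2),(4,2)]) (.cons (.keep [4,7,9,10,12] (.node (.cons (.leaf 1 [(11,1),(4,1)]) (.cons (.leaf 1 [(11,1),(4,1)]) (.cons (.leaf 1 [(4,1),(3,1)]) (.cons (.leaf 1 [(4,1),(3,1)]) (.cons (.leaf 1 [(10,2),(7,2),(4,3)])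 (.cons (.leaf 1 [(10,2),(7,2),(4,3)]) (.cons (.leaf 1 [(11,1),(9,1)]) (.cons (.leaf 1 [(11,2),(0,1),(9,1)]) .nil)))))))))) (.cons (.leaf 1 [(4,2),(1,1),(10,2)]) (.cons (.leaf 1 [(1,1),(12,1),(9,1)]) (.cons (.leaf 1 [(1,1),(4,2)]) (.cons (.keep [4,5,7,8,9,12] (.node (.cons (.leaf 1 [(11,2),(7,1),(4,1)]) (.cons (.leaf 1 [(9,1),(12,2),(4,1)]) (.cons (.leaf 1 [(1,1),(3,1),(4,1)]) (.cons (.leaf 1 [(1,1),(3,1),(4,1)]) (.cons (.leaf 1 [(1,1),(7,3),(4,1)]) (.cons (.leaf 1 [(1,1),(7,3),(4,1)]) (.cons (.leaf 1 [(1,1),(7,1),(11,2)]) (.cons (.leaf 1 [(9,1),(12,3),(0,1),(11,1)]) .nil)))))))))) (.cons (.leaf 1 [(1,1),(10,2)]) (.cons (.keep [3,8,9,10,11,12] (.node (.cons (.leaf 1 [(10,2),(9,4),(4,3)]) (.cons (.leaf 1 [(12,2),(7,2),(4,1)]) (.cons (.leaf 1 [(1,1),(4,1)]) (.cons (.leaf 1 [(1,1),(4,1)])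 (.cons (.leaf 1 [(1,1),(4,3),(10,2)]) (.cons (.leaf 1 [(1,1),(4,3),(10,2)]) (.cons (.leaf 1 [(1,1),(9,4),(10,2)]) (.cons (.leaf 1 [(12,3),(7,2),(0,1),(9,1)]) .nil)))))))))) .nil)))))))))) .nil)))))))))) (.cons (.leaf 1 [(8,1),(11,2)]) (.cons (.keep [1,3,7,8,11,12] (.node (.cons (.keep [4,6,8,10,11] (.node (.cons (.leaf 1 [(8,1)]) (.cons (.keep [0,8,9,10,11] (.node (.cons (.leaf 1 [(11,1),(4,1)]) (.cons (.leaf 1 [(11,1),(4,1)]) (.cons (.leaf 1 [(4,1)]) (.cons (.leaf 1 [(4,1)]) (.cons (.leaf 1 [(8,1),(4,1)]) (.cons (.leaf 1 [(8,1),(4,1)]) (.cons (.leaf 1 [(11,1),(10,1)]) (.cons (.leaf 1 [(11,2),(0,1),(10,1)]) .nil)))))))))) (.cons (.leaf 1 [(1,1),(8,1)]) (.cons (.leaf 1 [(1,1),(11,1),(10,1)]) (.cons (.leaf 1 [(1,1),(4,1)]) (.cons (.keep [0,1,4,9,10] (.node (.cons (.leaf 1 [(8,2),(4,1)])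 (.cons (.leaf 1 [(8,2),(4,1)]) (.cons (.leaf 1 [(1,1),(4,1)]) (.cons (.leaf 1 [(1,1),(4,1)]) (.cons (.leaf 1 [(8,1),(4,1),(9,1)]) (.cons (.leaf 1 [(8,1),(4,1),(9,1)]) (.cons (.leaf 1 [(8,1),(11,1)]) (.cons (.leaf 1 [(8,3),(0,1),(11,1)]) .nil)))))))))) (.cons (.leaf 1 [(8,1),(1,1)]) (.cons (.keep [3,7,8,9,10,11] (.node (.cons (.leaf 1 [(9,1),(11,2),(4,1)]) (.cons (.leaf 1 [(12,2),(7,1),(4,1)]) (.cons (.leaf 1 [(4,1),(1,1),(7,1)]) (.cons (.leaf 1 [(4,1),(7,1),(1,1)]) (.cons (.leaf 1 [(1,1),(4,1),(9,1)]) (.cons (.leaf 1 [(9,1),(4,1),(1,1)]) (.cons (.leaf 1 [(1,1),(11,2),(9,1)]) (.cons (.leaf 1 [(12,3),(7,1),(0,1),(11,1)]) .nil)))))))))) .nil)))))))))) (.cons (.keep [5,7,8,10,11] (.node (.cons (.leaf 1 [(11,1),(4,1)]) (.cons (.keep [4,5,7,10,11] (.node (.cons (.leaf 1 [(11,1),(4,1)])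 (.cons (.leaf 1 [(11,1),(4,1)]) (.cons (.leaf 1 [(4,1)]) (.cons (.leaf 1 [(4,1)]) (.cons (.leaf 1 [(11,1),(4,1),(7,1)]) (.cons (.leaf 1 [(11,1),(4,1),(7,1)]) (.cons (.leaf 1 [(11,1),(10,1)]) (.cons (.leaf 1 [(11,2),(0,1),(10,1)]) .nil)))))))))) (.cons (.leaf 1 [(4,1),(11,1)]) (.cons (.leaf 1 [(1,1),(11,1),(10,1)]) (.cons (.leaf 1 [(1,1),(4,1)]) (.cons (.keep [1,7,8,9,10] (.node (.cons (.leaf 1 [(7,2),(4,1)]) (.cons (.leaf 1 [(7,2),(4,1)]) (.cons (.leaf 1 [(1,1),(4,1)]) (.cons (.leaf 1 [(1,1),(4,1)]) (.cons (.leaf 1 [(7,2),(4,1),(9,1)]) (.cons (.leaf 1 [(7,2),(4,1),(9,1)]) (.cons (.leaf 1 [(7,1),(11,1)]) (.cons (.leaf 1 [(7,3),(0,1),(11,1)]) .nil)))))))))) (.cons (.leaf 1 [(11,1)]) (.cons (.keep [3,8,9,10,11] (.node (.cons (.leaf 1 [(11,1),(10,1),(4,1)]) (.cons (.leaf 1 [(11,2),(7,1),(4,1)])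 (.cons (.leaf 1 [(4,1),(1,1),(7,1)]) (.cons (.leaf 1 [(4,1),(7,1),(1,1)]) (.cons (.leaf 1 [(11,1),(4,1)]) (.cons (.leaf 1 [(11,1),(4,1)]) (.cons (.leaf 1 [(11,1),(10,1)]) (.cons (.leaf 1 [(11,3),(7,1),(0,1),(10,1)]) .nil)))))))))) .nil)))))))))) (.cons (.leaf 1 [(1,1),(11,1)]) (.cons (.leaf 1 [(1,1),(11,1)]) (.cons (.leaf 1 [(10,1),(1,1),(11,1)]) (.cons (.leaf 1 [(10,1),(1,1),(11,1)]) (.cons (.keep [1,6,8,9,10] (.node (.cons (.leaf 1 [(7,1),(4,1)]) (.cons (.keep [0,7,8,9,11] (.node (.cons (.leaf 1 [(8,1),(4,1)]) (.cons (.leaf 1 [(8,1),(4,1)]) (.cons (.leaf 1 [(4,1)]) (.cons (.leaf 1 [(4,1)]) (.cons (.leaf 1 [(9,1),(4,1)]) (.cons (.leaf 1 [(9,1),(4,1)]) (.cons (.leaf 1 [(8,1),(11,1)]) (.cons (.leaf 1 [(8,2),(0,1),(11,1)]) .nil)))))))))) (.cons (.leaf 1 [(4,1),(7,1)]) (.cons (.leaf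 1 [(1,1),(7,1),(11,1)]) (.cons (.leaf 1 [(1,1),(4,1)]) (.cons (.keep [0,1,4,9,11] (.node (.cons (.leaf 1 [(8,2),(4,1)]) (.cons (.leaf 1 [(8,2),(4,1)]) (.cons (.leaf 1 [(1,1),(4,1)]) (.cons (.leaf 1 [(1,1),(4,1)]) (.cons (.leaf 1 [(8,1),(4,1),(9,1)]) (.cons (.leaf 1 [(8,1),(4,1),(9,1)]) (.cons (.leaf 1 [(8,1),(11,1)]) (.cons (.leaf 1 [(8,3),(0,1),(11,1)]) .nil)))))))))) (.cons (.leaf 1 [(7,1)]) (.cons (.keep [3,5,7,8,10,11] (.node (.cons (.leaf 1 [(9,2),(7,1),(4,1)]) (.cons (.leaf 1 [(9,2),(7,1),(4,1)]) (.cons (.leaf 1 [(4,1),(1,1),(7,1)]) (.cons (.leaf 1 [(4,1),(7,1),(1,1)]) (.cons (.leaf 1 [(9,1),(4,1)]) (.cons (.leaf 1 [(9,1),(4,1)]) (.cons (.leaf 1 [(9,1),(12,1)]) (.cons (.leaf 1 [(9,3),(7,1),(0,1),(12,1)]) .nil)))))))))) .nil)))))))))) (.cons (.keep [1,5,7,8,9,10] (.node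 (.cons (.leaf 1 [(7,1),(4,1)]) (.cons (.keep [4,7,8,10,12] (.node (.cons (.leaf 1 [(8,1),(4,1)]) (.cons (.leaf 1 [(8,1),(4,1)]) (.cons (.leaf 1 [(4,1)]) (.cons (.leaf 1 [(4,1)]) (.cons (.leaf 1 [(8,1),(4,1),(7,1)]) (.cons (.leaf 1 [(8,1),(4,1),(7,1)]) (.cons (.leaf 1 [(8,1),(11,1)]) (.cons (.leaf 1 [(8,2),(0,1),(11,1)]) .nil)))))))))) (.cons (.leaf 1 [(4,1),(7,1)]) (.cons (.leaf 1 [(1,1),(7,1),(12,1)]) (.cons (.leaf 1 [(1,1),(4,1)]) (.cons (.keep [0,1,4,5,8,12] (.node (.cons (.leaf 1 [(8,2),(4,1)]) (.cons (.leaf 1 [(8,2),(4,1)]) (.cons (.leaf 1 [(1,1),(4,1)]) (.cons (.leaf 1 [(1,1),(4,1)]) (.cons (.leaf 1 [(8,1),(4,1),(9,1)]) (.cons (.leaf 1 [(8,1),(4,1),(9,1)]) (.cons (.leaf 1 [(8,1),(12,1)]) (.cons (.leaf 1 [(8,3),(0,1),(12,1)]) .nil)))))))))) (.cons (.leaf 1 [(7,1)]) (.cons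 (.keep [3,7,9,10,11,12] (.node (.cons (.leaf 1 [(8,2),(7,1),(4,1)]) (.cons (.leaf 1 [(8,2),(7,1),(4,1)]) (.cons (.leaf 1 [(4,1),(1,1),(7,1)]) (.cons (.leaf 1 [(4,1),(7,1),(1,1)]) (.cons (.leaf 1 [(8,1),(4,1)]) (.cons (.leaf 1 [(8,1),(4,1)]) (.cons (.leaf 1 [(8,1),(12,1)]) (.cons (.leaf 1 [(8,3),(7,1),(0,1),(12,1)]) .nil)))))))))) .nil)))))))))) .nil)))))))))) (.cons (.leaf 1 [(11,1),(1,1)]) (.cons (.leaf 1 [(11,1),(1,1)]) (.cons (.leaf 1 [(9,1),(8,2),(1,2)]) (.cons (.leaf 1 [(9,1),(8,2),(5,1),(1,2)]) .nil)))))))))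

theorem c_15_24_25 : Concl 15 24 z_15_24_25 h_15_24_25 .nd := piece _ hP_nil t_15_24_25 _ _ (by
  decide +kernel)

def z_15_24_26 : F := ⟨0, -1, -1, 0, 2⟩

def h_15_24_26 : List F := [⟨0, -1, 0, 0, 0⟩, ⟨0, 0, 1, -1, 0⟩, ⟨0, 1, -1, 0, 0⟩, ⟨0, 1, 0, 0, 1⟩,
  ⟨-1, 1, 0, 0, 0⟩]

def t_15_24_26 : T := (.node (.cons (.leaf 1 [(8,1),(11,1)]) (.cons (.keep [0,2,8,10,11] (.node (.cons (.keep [2,4,6,8,9] (.node (.cons (.leaf 1 [(3,1),(4,1)]) (.cons (.keep [0,3,7,9,11] (.node (.cons (.leaf 1 [(2,1),(4,1)]) (.cons (.leaf 1 [(2,1),(4,1)]) (.cons (.leaf 1 [(8,2),(4,1)]) (.cons (.leaf 1 [(8,2),(4,1)]) (.cons (.leaf 1 [(8,2),(4,1),(10,1)]) (.cons (.leaf 1 [(8,2),(4,1),(10,1)]) (.cons (.leaf 1 [(8,1),(11,1)]) (.cons (.leaf 1 [(8,2),(0,1),(11,1)]) .nil)))))))))) (.cons (.leaf 1 [(4,1),(8,1)])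 (.cons (.leaf 1 [(3,1),(11,1)]) (.cons (.leaf 1 [(4,1),(8,1)]) (.cons (.keep [1,4,7,8,11] (.node (.cons (.leaf 1 [(4,1)]) (.cons (.leaf 1 [(4,1)]) (.cons (.leaf 1 [(4,1),(10,1)]) (.cons (.leaf 1 [(4,1),(10,1)]) (.cons (.leaf 1 [(8,1),(4,1),(10,1)]) (.cons (.leaf 1 [(8,1),(4,1),(10,1)]) (.cons (.leaf 1 [(11,1),(10,1)]) (.cons (.leaf 1 [(0,1),(10,1),(11,1)]) .nil)))))))))) (.cons (.leaf 1 [(8,1)]) (.cons (.keep [0,3,5,8,10,11] (.node (.cons (.leaf 1 [(8,1),(4,1)]) (.cons (.leaf 1 [(8,1),(4,1)]) (.cons (.leaf 1 [(8,1),(4,1),(10,1)]) (.cons (.leaf 1 [(8,1),(4,1),(10,1)]) (.cons (.leaf 1 [(10,1),(4,1)]) (.cons (.leaf 1 [(10,1),(4,1)]) (.cons (.leaf 1 [(10,1),(12,1)]) (.cons (.leaf 1 [(8,1),(0,1),(10,1),(12,1)]) .nil)))))))))) .nil)))))))))) (.cons (.keep [5,7,8,9,10,11] (.node (.cons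 (.leaf 1 [(4,2)]) (.cons (.keep [0,4,7,8,10,12] (.node (.cons (.leaf 1 [(3,1),(4,1)]) (.cons (.leaf 1 [(3,1),(4,1)]) (.cons (.leaf 1 [(4,1),(8,2),(9,1)]) (.cons (.leaf 1 [(4,1),(8,2),(9,1)]) (.cons (.leaf 1 [(8,2),(4,1)]) (.cons (.leaf 1 [(8,2),(4,1)]) (.cons (.leaf 1 [(8,1),(11,1)]) (.cons (.leaf 1 [(8,2),(0,1),(11,1)]) .nil)))))))))) (.cons (.leaf 1 [(4,1),(10,1)]) (.cons (.leaf 1 [(4,1),(10,1)]) (.cons (.leaf 1 [(4,1),(11,1)]) (.cons (.keep [0,4,8,9,10,11] (.node (.cons (.leaf 1 [(8,1),(4,1)]) (.cons (.leaf 1 [(8,1),(4,1)]) (.cons (.leaf 1 [(4,1),(12,1)]) (.cons (.leaf 1 [(4,1),(12,1)]) (.cons (.leaf 1 [(8,1),(12,1),(4,1)]) (.cons (.leaf 1 [(8,1),(12,1),(4,1)]) (.cons (.leaf 1 [(11,1),(12,1)]) (.cons (.leaf 1 [(8,1),(12,1),(0,1),(11,1)]) .nil)))))))))) (.cons (.leaf 1 [(11,1)])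 (.cons (.keep [1,3,8,10,11,12] (.node (.cons (.leaf 1 [(4,1)]) (.cons (.leaf 1 [(4,1)]) (.cons (.leaf 1 [(4,1),(8,1),(11,1)]) (.cons (.leaf 1 [(4,1),(8,1),(11,1)]) (.cons (.leaf 1 [(4,1),(11,1)]) (.cons (.leaf 1 [(4,1),(11,1)]) (.cons (.leaf 1 [(10,1),(11,1)]) (.cons (.leaf 1 [(0,1),(11,1),(10,1)]) .nil)))))))))) .nil)))))))))) (.cons (.leaf 1 [(1,1),(4,1)]) (.cons (.leaf 1 [(1,1),(10,1)]) (.cons (.leaf 1 [(1,1),(4,1),(9,1)]) (.cons (.leaf 1 [(9,1),(1,1),(10,1)]) (.cons (.keep [1,6,7,9] (.node (.cons (.leaf 1 [(4,1)]) (.cons (.keep [3,7,8,9,10] (.node (.cons (.leaf 1 [(4,1)]) (.cons (.leaf 1 [(4,1)]) (.cons (.leaf 1 [(4,1),(7,1)]) (.cons (.leaf 1 [(4,1),(7,1)]) (.cons (.leaf 1 [(9,1),(4,1),(7,1)]) (.cons (.leaf 1 [(9,1),(4,1),(7,1)]) (.cons (.leaf 1 [(11,1)]) (.cons (.leaf 1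 [(0,1),(11,1)]) .nil)))))))))) (.cons (.leaf 1 [(4,1)]) (.cons (.leaf 1 [(1,1),(10,1)]) (.cons (.leaf 1 [(4,1)]) (.cons (.keep [0,1,4,9,10] (.node (.cons (.leaf 1 [(8,1),(4,1)]) (.cons (.leaf 1 [(8,1),(4,1)]) (.cons (.leaf 1 [(4,1)]) (.cons (.leaf 1 [(4,1)]) (.cons (.leaf 1 [(9,1),(4,1)]) (.cons (.leaf 1 [(9,1),(4,1)]) (.cons (.leaf 1 [(11,1)]) (.cons (.leaf 1 [(8,1),(0,1),(11,1)]) .nil)))))))))) (.cons (.leaf 1 []) (.cons (.keep [0,3,7,9,10] (.node (.cons (.leaf 1 [(9,1),(8,1),(4,1)]) (.cons (.leaf 1 [(9,1),(8,1),(4,1)]) (.cons (.leaf 1 [(4,1),(8,1)]) (.cons (.leaf 1 [(4,1),(8,1)]) (.cons (.leaf 1 [(4,1)]) (.cons (.leaf 1 [(4,1)]) (.cons (.leaf 1 [(11,1)]) (.cons (.leaf 1 [(9,1),(8,1),(0,1),(11,1)]) .nil)))))))))) .nil)))))))))) (.cons (.keep [5,7,9,10,11] (.node (.cons (.leaf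 1 [(10,1),(4,1)]) (.cons (.keep [0,4,8,9,11] (.node (.cons (.leaf 2 [(11,1),(3,1),(4,2)]) (.cons (.leaf 2 [(11,1),(3,1),(4,2)]) (.cons (.leaf 1 [(4,1),(8,1)]) (.cons (.leaf 1 [(4,1),(8,1)]) (.cons (.leaf 2 [(11,1),(8,3),(4,2)]) (.cons (.leaf 2 [(11,1),(8,3),(4,2)]) (.cons (.leaf 2 [(11,1),(8,1),(10,2)]) (.cons (.leaf 1 [(11,1),(8,1),(0,1),(10,1)]) .nil)))))))))) (.cons (.leaf 1 [(4,1),(10,1)]) (.cons (.leaf 1 [(1,1),(10,1),(9,1)]) (.cons (.leaf 1 [(4,2)]) (.cons (.keep [0,4,7,8,9,11] (.node (.cons (.leaf 1 [(11,1),(8,1),(4,1)]) (.cons (.leaf 1 [(12,1),(4,1)]) (.cons (.leaf 1 [(4,1),(3,1)]) (.cons (.leaf 1 [(4,1),(3,1)]) (.cons (.leaf 1 [(4,1),(8,2)]) (.cons (.leaf 1 [(4,1),(8,2)]) (.cons (.leaf 1 [(11,1),(8,1)]) (.cons (.leaf 1 [(12,1),(8,1),(0,1),(11,1)]) .nil)))))))))) (.cons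 (.leaf 1 [(10,1)]) (.cons (.keep [0,3,8,9,11] (.node (.cons (.leaf 2 [(11,1),(10,1),(4,2)]) (.cons (.leaf 1 [(11,1),(0,1),(4,1),(10,1)]) (.cons (.leaf 1 [(4,1)]) (.cons (.leaf 1 [(4,1)]) (.cons (.leaf 1 [(11,1),(4,1),(7,1)]) (.cons (.leaf 1 [(11,1),(4,1),(0,1),(5,1)]) (.cons (.leaf 1 [(11,1),(10,1),(7,1)]) (.cons (.leaf 1 [(11,1),(0,1),(10,1)]) .nil)))))))))) .nil)))))))))) .nil)))))))))) (.cons (.leaf 1 [(1,1),(8,1),(11,1)]) (.cons (.keep [0,1,7,8,11] (.node (.cons (.keep [2,4,6,9,10] (.node (.cons (.leaf 1 [(3,1),(4,1)]) (.cons (.keep [0,3,7,9,11] (.node (.cons (.leaf 1 [(2,1),(4,1)]) (.cons (.leaf 1 [(2,1),(4,1)]) (.cons (.leaf 1 [(8,2),(4,1)]) (.cons (.leaf 1 [(8,2),(4,1)]) (.cons (.leaf 1 [(8,2),(4,1),(10,1)]) (.cons (.leaf 1 [(8,2),(4,1),(10,1)]) (.cons (.leaf 1 [(8,1),(11,1)])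 (.cons (.leaf 1 [(8,2),(0,1),(11,1)]) .nil)))))))))) (.cons (.leaf 1 [(4,1),(8,1)]) (.cons (.leaf 1 [(3,1),(11,1)]) (.cons (.leaf 1 [(4,1),(8,1)]) (.cons (.keep [1,4,7,8,11] (.node (.cons (.leaf 1 [(4,1)]) (.cons (.leaf 1 [(4,1)]) (.cons (.leaf 1 [(4,1),(10,1)]) (.cons (.leaf 1 [(4,1),(10,1)]) (.cons (.leaf 1 [(8,1),(4,1),(10,1)]) (.cons (.leaf 1 [(8,1),(4,1),(10,1)]) (.cons (.leaf 1 [(11,1),(10,1)]) (.cons (.leaf 1 [(0,1),(10,1),(11,1)]) .nil)))))))))) (.cons (.leaf 1 [(8,1)]) (.cons (.keep [0,3,5,8,10,11] (.node (.cons (.leaf 1 [(8,1),(4,1)]) (.cons (.leaf 1 [(8,1),(4,1)]) (.cons (.leaf 1 [(8,1),(4,1),(10,1)]) (.cons (.leaf 1 [(8,1),(4,1),(10,1)]) (.cons (.leaf 1 [(10,1),(4,1)]) (.cons (.leaf 1 [(10,1),(4,1)]) (.cons (.leaf 1 [(10,1),(12,1)]) (.cons (.leaf 1 [(8,1),(0,1),(10,1),(12,1)])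 .nil)))))))))) .nil)))))))))) (.cons (.keep [5,7,8,10,11] (.node (.cons (.leaf 1 [(4,2)]) (.cons (.keep [4,7,8,10,11] (.node (.cons (.leaf 1 [(3,1),(4,1)]) (.cons (.leaf 1 [(3,1),(4,1)]) (.cons (.leaf 1 [(4,1),(7,2),(8,1)]) (.cons (.leaf 1 [(4,1),(7,2),(8,1)]) (.cons (.leaf 1 [(7,2),(4,1)]) (.cons (.leaf 1 [(7,2),(4,1)]) (.cons (.leaf 1 [(7,1),(10,1)]) (.cons (.leaf 1 [(7,2),(0,1),(10,1)]) .nil)))))))))) (.cons (.leaf 1 [(4,1),(9,1)]) (.cons (.leaf 1 [(4,1),(10,1)]) (.cons (.leaf 1 [(4,1),(9,1)]) (.cons (.keep [0,1,8,9,10] (.node (.cons (.leaf 1 [(8,1),(3,1),(4,1)]) (.cons (.leaf 1 [(8,1),(3,1),(4,1)]) (.cons (.leaf 1 [(4,1),(10,1)]) (.cons (.leaf 1 [(4,1),(10,1)]) (.cons (.leaf 1 [(8,1),(10,2),(4,1)]) (.cons (.leaf 1 [(8,1),(10,2),(4,1)]) (.cons (.leaf 1 [(11,1),(10,1)]) (.cons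 (.leaf 1 [(8,1),(10,2),(0,1),(11,1)]) .nil)))))))))) (.cons (.leaf 1 [(9,1)]) (.cons (.keep [3,8,9,10,11] (.node (.cons (.leaf 1 [(4,1)]) (.cons (.leaf 1 [(4,1)]) (.cons (.leaf 1 [(4,1),(7,1),(9,1)]) (.cons (.leaf 1 [(4,1),(7,1),(9,1)]) (.cons (.leaf 1 [(4,1),(9,1)]) (.cons (.leaf 1 [(4,1),(9,1)]) (.cons (.leaf 1 [(10,1),(9,1)]) (.cons (.leaf 1 [(0,1),(9,1),(10,1)]) .nil)))))))))) .nil)))))))))) (.cons (.leaf 1 [(1,1),(4,1)]) (.cons (.leaf 1 [(1,1),(8,1)]) (.cons (.leaf 1 [(1,1),(4,1),(10,1)]) (.cons (.leaf 1 [(1,1),(8,1),(10,1)]) (.cons (.keep [1,6,7,10] (.node (.cons (.leaf 1 [(4,1)]) (.cons (.keep [3,7,8,9,10] (.node (.cons (.leaf 1 [(4,1)]) (.cons (.leaf 1 [(4,1)]) (.cons (.leaf 1 [(4,1),(7,1)]) (.cons (.leaf 1 [(4,1),(7,1)]) (.cons (.leaf 1 [(9,1),(4,1),(7,1)]) (.cons (.leaf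 1 [(9,1),(4,1),(7,1)]) (.cons (.leaf 1 [(11,1)]) (.cons (.leaf 1 [(0,1),(11,1)]) .nil)))))))))) (.cons (.leaf 1 [(4,1)]) (.cons (.leaf 1 [(1,1),(10,1)]) (.cons (.leaf 1 [(4,1)]) (.cons (.keep [0,1,4,9,10] (.node (.cons (.leaf 1 [(8,1),(4,1)]) (.cons (.leaf 1 [(8,1),(4,1)]) (.cons (.leaf 1 [(4,1)]) (.cons (.leaf 1 [(4,1)]) (.cons (.leaf 1 [(9,1),(4,1)]) (.cons (.leaf 1 [(9,1),(4,1)]) (.cons (.leaf 1 [(11,1)]) (.cons (.leaf 1 [(8,1),(0,1),(11,1)]) .nil)))))))))) (.cons (.leaf 1 []) (.cons (.keep [0,3,7,9,10] (.node (.cons (.leaf 1 [(9,1),(8,1),(4,1)]) (.cons (.leaf 1 [(9,1),(8,1),(4,1)]) (.cons (.leaf 1 [(4,1),(8,1)]) (.cons (.leaf 1 [(4,1),(8,1)]) (.cons (.leaf 1 [(4,1)]) (.cons (.leaf 1 [(4,1)]) (.cons (.leaf 1 [(11,1)]) (.cons (.leaf 1 [(9,1),(8,1),(0,1),(11,1)]) .nil))))))))))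 .nil)))))))))) (.cons (.keep [1,5,7,8,10] (.node (.cons (.leaf 1 [(7,1),(4,2)]) (.cons (.keep [0,4,7,9,11] (.node (.cons (.leaf 1 [(9,1),(3,1),(4,1)]) (.cons (.leaf 1 [(9,1),(3,1),(4,1)]) (.cons (.leaf 1 [(4,1),(8,1)]) (.cons (.leaf 1 [(4,1),(8,1)]) (.cons (.leaf 1 [(9,1),(8,2),(4,1)]) (.cons (.leaf 1 [(9,1),(8,2),(4,1)]) (.cons (.leaf 1 [(9,1),(8,1),(11,1)]) (.cons (.leaf 1 [(9,2),(8,2),(0,1),(11,1)]) .nil)))))))))) (.cons (.leaf 1 [(4,1),(10,1)]) (.cons (.leaf 1 [(4,1),(7,1),(11,1)]) (.cons (.leaf 1 [(4,2)]) (.cons (.keep [0,1,4,9,11] (.node (.cons (.leaf 1 [(8,2),(3,1),(4,1)]) (.cons (.leaf 1 [(8,2),(3,1),(4,1)]) (.cons (.leaf 1 [(4,1),(3,1)]) (.cons (.leaf 1 [(4,1),(3,1)]) (.cons (.leaf 1 [(4,1),(9,2)]) (.cons (.leaf 1 [(4,1),(9,2)]) (.cons (.leaf 1 [(11,1),(9,1)]) (.cons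 (.leaf 1 [(8,1),(9,2),(0,1),(11,1)]) .nil)))))))))) (.cons (.leaf 1 [(10,1)]) (.cons (.keep [0,3,7,9,10,11] (.node (.cons (.leaf 1 [(9,1),(4,1)]) (.cons (.leaf 1 [(9,1),(4,1)]) (.cons (.leaf 1 [(4,1)]) (.cons (.leaf 1 [(4,1)]) (.cons (.leaf 1 [(11,1),(4,1)]) (.cons (.leaf 1 [(11,1),(4,1)]) (.cons (.leaf 1 [(11,1),(12,1)]) (.cons (.leaf 1 [(9,1),(0,1),(11,1),(12,1)]) .nil)))))))))) .nil)))))))))) .nil)))))))))) (.cons (.leaf 1 [(9,1),(1,2)]) (.cons (.leaf 1 [(9,1),(1,2)]) (.cons (.leaf 1 [(9,1),(8,2),(1,2)]) (.cons (.leaf 1 [(9,1),(8,2),(1,2)]) .nil)))))))))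

theorem c_15_24_26 : Concl 15 24 z_15_24_26 h_15_24_26 .nd := piece _ hP_nil t_15_24_26 _ _ (by
  decide +kernel)

def z_15_24_27 : F := ⟨0, 0, -1, 0, 2⟩

def h_15_24_27 : List F := [⟨0, 1, 0, 0, 0⟩, ⟨-1, 1, 0, 0, 0⟩, ⟨0, 0, 1, -1, 0⟩, ⟨0, 0, -1, 0, 1⟩,
  ⟨0, -1, 0, 0, 1⟩]

def t_15_24_27 : T := (.node (.cons (.leaf 1 [(8,1),(9,1),(2,1)]) (.cons (.keep [0,2,7,8,9] (.node (.cons (.keep [4,6,7,8,11] (.node (.cons (.leaf 1 [(4,1)]) (.cons (.keep [3,8,9,10,11] (.node (.cons (.leaf 1 [(4,1)]) (.cons (.leaf 1 [(4,1)]) (.cons (.leaf 1 [(4,1),(7,1)]) (.cons (.leaf 1 [(4,1),(7,1)]) (.cons (.leaf 1 [(8,1),(4,1),(7,1)]) (.cons (.leaf 1 [(8,1),(4,1),(7,1)]) (.cons (.leaf 1 [(11,1)]) (.cons (.leaf 1 [(0,1),(11,1)]) .nil)))))))))) (.cons (.leaf 1 [(4,1)]) (.cons (.leaf 1 [(1,1),(11,1)]) (.cons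 (.leaf 1 [(4,1)]) (.cons (.keep [0,1,4,9,11] (.node (.cons (.leaf 1 [(8,1),(4,1)]) (.cons (.leaf 1 [(8,1),(4,1)]) (.cons (.leaf 1 [(4,1)]) (.cons (.leaf 1 [(4,1)]) (.cons (.leaf 1 [(9,1),(4,1)]) (.cons (.leaf 1 [(9,1),(4,1)]) (.cons (.leaf 1 [(11,1)]) (.cons (.leaf 1 [(8,1),(0,1),(11,1)]) .nil)))))))))) (.cons (.leaf 1 []) (.cons (.keep [3,7,8,9,10,11] (.node (.cons (.leaf 1 [(11,1),(7,1),(4,1)]) (.cons (.leaf 1 [(11,1),(7,1),(4,1)]) (.cons (.leaf 1 [(4,1),(7,1)]) (.cons (.leaf 1 [(4,1),(7,1)]) (.cons (.leaf 1 [(4,1)]) (.cons (.leaf 1 [(4,1)]) (.cons (.leaf 1 [(12,1)]) (.cons (.leaf 1 [(11,1),(7,1),(0,1),(12,1)]) .nil)))))))))) .nil)))))))))) (.cons (.keep [5,7,8,9,10,11] (.node (.cons (.leaf 1 [(4,1)]) (.cons (.keep [4,7,8,9,11,12] (.node (.cons (.leaf 1 [(4,1)]) (.cons (.leaf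 1 [(4,1)]) (.cons (.leaf 1 [(4,1),(8,1),(7,1)]) (.cons (.leaf 1 [(4,1),(8,1),(7,1)]) (.cons (.leaf 1 [(4,1),(7,1)]) (.cons (.leaf 1 [(4,1),(7,1)]) (.cons (.leaf 1 [(12,1)]) (.cons (.leaf 1 [(0,1),(12,1)]) .nil)))))))))) (.cons (.leaf 1 [(4,1)]) (.cons (.leaf 1 [(1,1),(12,1)]) (.cons (.leaf 1 [(4,1)]) (.cons (.keep [4,7,8,9,10,12] (.node (.cons (.leaf 1 [(7,1),(10,1),(4,1)]) (.cons (.leaf 1 [(7,1),(10,1),(4,1)]) (.cons (.leaf 1 [(4,1)]) (.cons (.leaf 1 [(4,1)]) (.cons (.leaf 1 [(7,1),(4,1)]) (.cons (.leaf 1 [(7,1),(4,1)]) (.cons (.leaf 1 [(12,1)]) (.cons (.leaf 1 [(7,1),(10,1),(0,1),(12,1)]) .nil)))))))))) (.cons (.leaf 1 []) (.cons (.keep [0,1,3,8,11,12] (.node (.cons (.leaf 1 [(8,1),(4,1)]) (.cons (.leaf 1 [(8,1),(4,1)]) (.cons (.leaf 1 [(4,1),(9,1)]) (.cons (.leaf 1 [(4,1),(9,1)])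 (.cons (.leaf 1 [(4,1)]) (.cons (.leaf 1 [(4,1)]) (.cons (.leaf 1 [(12,1)]) (.cons (.leaf 1 [(8,1),(0,1),(12,1)]) .nil)))))))))) .nil)))))))))) (.cons (.leaf 1 [(1,1)]) (.cons (.leaf 1 [(1,1)]) (.cons (.leaf 1 [(11,1),(1,1)]) (.cons (.leaf 1 [(11,1),(1,1)]) (.cons (.keep [1,6,7,11] (.node (.cons (.leaf 1 [(4,1)]) (.cons (.keep [3,7,8,9,10] (.node (.cons (.leaf 1 [(4,1)]) (.cons (.leaf 1 [(4,1)]) (.cons (.leaf 1 [(4,1),(7,1)]) (.cons (.leaf 1 [(4,1),(7,1)]) (.cons (.leaf 1 [(9,1),(4,1),(7,1)]) (.cons (.leaf 1 [(9,1),(4,1),(7,1)]) (.cons (.leaf 1 [(11,1)]) (.cons (.leaf 1 [(0,1),(11,1)]) .nil)))))))))) (.cons (.leaf 1 [(4,1)]) (.cons (.leaf 1 [(1,1),(10,1)]) (.cons (.leaf 1 [(4,1)]) (.cons (.keep [0,1,4,9,10] (.node (.cons (.leaf 1 [(8,1),(4,1)]) (.cons (.leaf 1 [(8,1),(4,1)])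 (.cons (.leaf 1 [(4,1)]) (.cons (.leaf 1 [(4,1)]) (.cons (.leaf 1 [(9,1),(4,1)]) (.cons (.leaf 1 [(9,1),(4,1)]) (.cons (.leaf 1 [(11,1)]) (.cons (.leaf 1 [(8,1),(0,1),(11,1)]) .nil)))))))))) (.cons (.leaf 1 []) (.cons (.keep [0,3,7,9,10] (.node (.cons (.leaf 1 [(9,1),(8,1),(4,1)]) (.cons (.leaf 1 [(9,1),(8,1),(4,1)]) (.cons (.leaf 1 [(4,1),(8,1)]) (.cons (.leaf 1 [(4,1),(8,1)]) (.cons (.leaf 1 [(4,1)]) (.cons (.leaf 1 [(4,1)]) (.cons (.leaf 1 [(11,1)]) (.cons (.leaf 1 [(9,1),(8,1),(0,1),(11,1)]) .nil)))))))))) .nil)))))))))) (.cons (.keep [5,7,9,10,11] (.node (.cons (.leaf 1 [(4,1)]) (.cons (.keep [4,7,8,10,11] (.node (.cons (.leaf 1 [(4,1)]) (.cons (.leaf 1 [(4,1)]) (.cons (.leaf 1 [(4,1),(8,1),(7,1)]) (.cons (.leaf 1 [(4,1),(8,1),(7,1)]) (.cons (.leaf 1 [(4,1),(7,1)]) (.cons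 (.leaf 1 [(4,1),(7,1)]) (.cons (.leaf 1 [(11,1)]) (.cons (.leaf 1 [(0,1),(11,1)]) .nil)))))))))) (.cons (.leaf 1 [(4,1)]) (.cons (.leaf 1 [(1,1),(11,1)]) (.cons (.leaf 1 [(4,1)]) (.cons (.keep [0,7,8,10,11] (.node (.cons (.leaf 1 [(10,1),(8,1),(4,1)]) (.cons (.leaf 1 [(10,1),(8,1),(4,1)]) (.cons (.leaf 1 [(4,1)]) (.cons (.leaf 1 [(4,1)]) (.cons (.leaf 1 [(10,1),(4,1),(7,1)]) (.cons (.leaf 1 [(10,1),(4,1),(0,1),(5,1)]) (.cons (.leaf 1 [(11,1)]) (.cons (.leaf 1 [(10,1),(8,1),(0,1),(11,1)]) .nil)))))))))) (.cons (.leaf 1 []) (.cons (.keep [0,3,8,10,11] (.node (.cons (.leaf 1 [(10,1),(8,2),(4,1)]) (.cons (.leaf 1 [(10,1),(8,2),(4,1)]) (.cons (.leaf 1 [(4,1),(8,1)]) (.cons (.leaf 1 [(4,1),(8,1)]) (.cons (.leaf 1 [(4,1)]) (.cons (.leaf 1 [(4,1)]) (.cons (.leaf 1 [(11,1)]) (.cons (.leaf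 1 [(10,1),(8,2),(0,1),(11,1)]) .nil)))))))))) .nil)))))))))) .nil)))))))))) (.cons (.leaf 1 [(9,1),(8,1)]) (.cons (.keep [0,1,8,9,11] (.node (.cons (.keep [4,6,7,9,10] (.node (.cons (.leaf 1 [(4,1)]) (.cons (.keep [3,8,9,10,11] (.node (.cons (.leaf 1 [(4,1)]) (.cons (.leaf 1 [(4,1)]) (.cons (.leaf 1 [(4,1),(7,1)]) (.cons (.leaf 1 [(4,1),(7,1)]) (.cons (.leaf 1 [(8,1),(4,1),(7,1)]) (.cons (.leaf 1 [(8,1),(4,1),(7,1)]) (.cons (.leaf 1 [(11,1)]) (.cons (.leaf 1 [(0,1),(11,1)]) .nil)))))))))) (.cons (.leaf 1 [(4,1)]) (.cons (.leaf 1 [(1,1),(11,1)]) (.cons (.leaf 1 [(4,1)]) (.cons (.keep [0,1,4,9,11] (.node (.cons (.leaf 1 [(8,1),(4,1)]) (.cons (.leaf 1 [(8,1),(4,1)]) (.cons (.leaf 1 [(4,1)]) (.cons (.leaf 1 [(4,1)]) (.cons (.leaf 1 [(9,1),(4,1)]) (.cons (.leaf 1 [(9,1),(4,1)]) (.cons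 (.leaf 1 [(11,1)]) (.cons (.leaf 1 [(8,1),(0,1),(11,1)]) .nil)))))))))) (.cons (.leaf 1 []) (.cons (.keep [3,7,8,9,10,11] (.node (.cons (.leaf 1 [(11,1),(7,1),(4,1)]) (.cons (.leaf 1 [(11,1),(7,1),(4,1)]) (.cons (.leaf 1 [(4,1),(7,1)]) (.cons (.leaf 1 [(4,1),(7,1)]) (.cons (.leaf 1 [(4,1)]) (.cons (.leaf 1 [(4,1)]) (.cons (.leaf 1 [(12,1)]) (.cons (.leaf 1 [(11,1),(7,1),(0,1),(12,1)]) .nil)))))))))) .nil)))))))))) (.cons (.keep [5,7,8,9,10] (.node (.cons (.leaf 1 [(4,1)]) (.cons (.keep [4,7,8,10,11] (.node (.cons (.leaf 1 [(4,1)]) (.cons (.leaf 1 [(4,1)]) (.cons (.leaf 1 [(4,1),(8,1),(7,1)]) (.cons (.leaf 1 [(4,1),(8,1),(7,1)]) (.cons (.leaf 1 [(4,1),(7,1)]) (.cons (.leaf 1 [(4,1),(7,1)]) (.cons (.leaf 1 [(11,1)]) (.cons (.leaf 1 [(0,1),(11,1)]) .nil)))))))))) (.cons (.leaf 1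 [(4,1)]) (.cons (.leaf 1 [(1,1),(11,1)]) (.cons (.leaf 1 [(4,1)]) (.cons (.keep [1,7,8,9,11] (.node (.cons (.leaf 1 [(7,1),(4,1)]) (.cons (.leaf 1 [(7,1),(4,1)]) (.cons (.leaf 1 [(4,1)]) (.cons (.leaf 1 [(4,1)]) (.cons (.leaf 1 [(7,1),(4,1),(10,1)]) (.cons (.leaf 1 [(7,1),(4,1),(10,1)]) (.cons (.leaf 1 [(11,1)]) (.cons (.leaf 1 [(7,1),(0,1),(11,1)]) .nil)))))))))) (.cons (.leaf 1 []) (.cons (.keep [0,3,8,10,11] (.node (.cons (.leaf 1 [(10,1),(8,1),(4,1)]) (.cons (.leaf 1 [(10,1),(8,1),(4,1)]) (.cons (.leaf 1 [(4,1),(8,1)]) (.cons (.leaf 1 [(4,1),(8,1)]) (.cons (.leaf 1 [(4,1)]) (.cons (.leaf 1 [(4,1)]) (.cons (.leaf 1 [(11,1)]) (.cons (.leaf 1 [(10,1),(8,1),(0,1),(11,1)]) .nil)))))))))) .nil)))))))))) (.cons (.leaf 1 [(1,1)]) (.cons (.leaf 1 [(1,1)]) (.cons (.leaf 1 [(10,1),(1,1)])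 (.cons (.leaf 1 [(10,1),(1,1)]) (.cons (.keep [1,6,7,10] (.node (.cons (.leaf 1 [(4,1)]) (.cons (.keep [3,7,8,9,10] (.node (.cons (.leaf 1 [(4,1)]) (.cons (.leaf 1 [(4,1)]) (.cons (.leaf 1 [(4,1),(7,1)]) (.cons (.leaf 1 [(4,1),(7,1)]) (.cons (.leaf 1 [(9,1),(4,1),(7,1)]) (.cons (.leaf 1 [(9,1),(4,1),(7,1)]) (.cons (.leaf 1 [(11,1)]) (.cons (.leaf 1 [(0,1),(11,1)]) .nil)))))))))) (.cons (.leaf 1 [(4,1)]) (.cons (.leaf 1 [(1,1),(10,1)]) (.cons (.leaf 1 [(4,1)]) (.cons (.keep [0,1,4,9,10] (.node (.cons (.leaf 1 [(8,1),(4,1)]) (.cons (.leaf 1 [(8,1),(4,1)]) (.cons (.leaf 1 [(4,1)]) (.cons (.leaf 1 [(4,1)]) (.cons (.leaf 1 [(9,1),(4,1)]) (.cons (.leaf 1 [(9,1),(4,1)]) (.cons (.leaf 1 [(11,1)]) (.cons (.leaf 1 [(8,1),(0,1),(11,1)]) .nil)))))))))) (.cons (.leaf 1 []) (.cons (.keep [0,3,7,9,10]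 (.node (.cons (.leaf 1 [(9,1),(8,1),(4,1)]) (.cons (.leaf 1 [(9,1),(8,1),(4,1)]) (.cons (.leaf 1 [(4,1),(8,1)]) (.cons (.leaf 1 [(4,1),(8,1)]) (.cons (.leaf 1 [(4,1)]) (.cons (.leaf 1 [(4,1)]) (.cons (.leaf 1 [(11,1)]) (.cons (.leaf 1 [(9,1),(8,1),(0,1),(11,1)]) .nil)))))))))) .nil)))))))))) (.cons (.keep [1,5,7,8,10] (.node (.cons (.leaf 1 [(4,1)]) (.cons (.keep [4,7,8,9,11] (.node (.cons (.leaf 1 [(4,1)]) (.cons (.leaf 1 [(4,1)]) (.cons (.leaf 1 [(4,1),(9,1),(7,1)]) (.cons (.leaf 1 [(4,1),(9,1),(7,1)]) (.cons (.leaf 1 [(4,1),(7,1)]) (.cons (.leaf 1 [(4,1),(7,1)]) (.cons (.leaf 1 [(11,1)]) (.cons (.leaf 1 [(0,1),(11,1)]) .nil)))))))))) (.cons (.leaf 1 [(4,1)]) (.cons (.leaf 1 [(1,1),(11,1)]) (.cons (.leaf 1 [(4,1)]) (.cons (.keep [0,1,4,8,9,11] (.node (.cons (.leaf 1 [(8,1),(4,1)])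 (.cons (.leaf 1 [(8,1),(4,1)]) (.cons (.leaf 1 [(4,1)]) (.cons (.leaf 1 [(4,1)]) (.cons (.leaf 1 [(9,1),(4,1)]) (.cons (.leaf 1 [(9,1),(4,1)]) (.cons (.leaf 1 [(12,1)]) (.cons (.leaf 1 [(8,1),(0,1),(12,1)]) .nil)))))))))) (.cons (.leaf 1 []) (.cons (.keep [0,3,7,9,11] (.node (.cons (.leaf 1 [(9,1),(8,1),(4,1)]) (.cons (.leaf 1 [(9,1),(8,1),(4,1)]) (.cons (.leaf 1 [(4,1),(8,1)]) (.cons (.leaf 1 [(4,1),(8,1)]) (.cons (.leaf 1 [(4,1)]) (.cons (.leaf 1 [(4,1)]) (.cons (.leaf 1 [(11,1)]) (.cons (.leaf 1 [(9,1),(8,1),(0,1),(11,1)]) .nil)))))))))) .nil)))))))))) .nil)))))))))) (.cons (.leaf 1 [(1,1)]) (.cons (.leaf 1 [(1,1)]) (.cons (.leaf 1 [(9,1),(1,1)]) (.cons (.leaf 1 [(9,1),(1,1)]) .nil)))))))))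

theorem c_15_24_27 : Concl 15 24 z_15_24_27 h_15_24_27 .nd := piece _ hP_nil t_15_24_27 _ _ (by
  decide +kernel)

def z_15_24_33 : F := ⟨0, 0, -1, 0, 1⟩

def h_15_24_33 : List F := [⟨-1, 0, 0, 0, 0⟩, ⟨0, -1, 0, 0, 0⟩, ⟨0, 0, -1, 0, 0⟩, ⟨0, 0, 1, -1,
  0⟩]

def t_15_24_33 : T := (.node (.cons (.leaf 1 [(10,1),(7,1)]) (.cons (.keep [0,2,7,10] (.node (.cons (.keep [4,6,7,8,10] (.node (.cons (.leaf 1 [(4,1)]) (.cons (.keep [3,8,9,10,11] (.node (.cons (.leaf 1 [(4,1)]) (.cons (.leaf 1 [(4,1)]) (.cons (.leaf 1 [(4,1),(7,1)]) (.cons (.leaf 1 [(4,1),(7,1)]) (.cons (.leaf 1 [(8,1),(4,1),(7,1)]) (.cons (.leaf 1 [(8,1),(4,1),(7,1)]) (.cons (.leaf 1 [(11,1)]) (.cons (.leaf 1 [(0,1),(11,1)]) .nil)))))))))) (.cons (.leaf 1 [(4,1)]) (.cons (.leaf 1 [(1,1),(11,1)]) (.cons (.leaf 1 [(4,1)])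 (.cons (.keep [0,1,4,9,11] (.node (.cons (.leaf 1 [(8,1),(4,1)]) (.cons (.leaf 1 [(8,1),(4,1)]) (.cons (.leaf 1 [(4,1)]) (.cons (.leaf 1 [(4,1)]) (.cons (.leaf 1 [(9,1),(4,1)]) (.cons (.leaf 1 [(9,1),(4,1)]) (.cons (.leaf 1 [(11,1)]) (.cons (.leaf 1 [(8,1),(0,1),(11,1)]) .nil)))))))))) (.cons (.leaf 1 []) (.cons (.keep [3,7,8,9,10,11] (.node (.cons (.leaf 1 [(11,1),(7,1),(4,1)]) (.cons (.leaf 1 [(11,1),(7,1),(4,1)]) (.cons (.leaf 1 [(4,1),(7,1)]) (.cons (.leaf 1 [(4,1),(7,1)]) (.cons (.leaf 1 [(4,1)]) (.cons (.leaf 1 [(4,1)]) (.cons (.leaf 1 [(12,1)]) (.cons (.leaf 1 [(11,1),(7,1),(0,1),(12,1)]) .nil)))))))))) .nil)))))))))) (.cons (.keep [0,4,8,9,10] (.node (.cons (.leaf 1 [(4,1)]) (.cons (.keep [3,4,5,9,10,11] (.node (.cons (.leaf 1 [(4,1)]) (.cons (.leaf 1 [(4,1)]) (.cons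 (.leaf 1 [(4,1),(7,1)]) (.cons (.leaf 1 [(4,1),(7,1)]) (.cons (.leaf 1 [(4,1),(8,1)]) (.cons (.leaf 1 [(4,1),(8,1)]) (.cons (.leaf 1 [(12,1)]) (.cons (.leaf 1 [(0,1),(12,1)]) .nil)))))))))) (.cons (.leaf 1 [(4,1)]) (.cons (.leaf 1 [(1,1),(11,1)]) (.cons (.leaf 1 [(4,1)]) (.cons (.keep [0,4,7,9,11] (.node (.cons (.leaf 1 [(8,1),(10,1),(4,1)]) (.cons (.leaf 1 [(8,1),(10,1),(4,1)]) (.cons (.leaf 1 [(4,1)]) (.cons (.leaf 1 [(4,1)]) (.cons (.leaf 1 [(8,1),(4,1)]) (.cons (.leaf 1 [(8,1),(4,1)]) (.cons (.leaf 1 [(11,1)]) (.cons (.leaf 1 [(8,1),(10,1),(0,1),(11,1)]) .nil)))))))))) (.cons (.leaf 1 []) (.cons (.keep [0,3,7,10,11] (.node (.cons (.leaf 1 [(10,1),(8,1),(4,1)]) (.cons (.leaf 1 [(10,1),(8,1),(4,1)]) (.cons (.leaf 1 [(4,1),(8,1)]) (.cons (.leaf 1 [(4,1),(8,1)]) (.cons (.leaf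 1 [(4,1)]) (.cons (.leaf 1 [(4,1)]) (.cons (.leaf 1 [(11,1)]) (.cons (.leaf 1 [(10,1),(8,1),(0,1),(11,1)]) .nil)))))))))) .nil)))))))))) (.cons (.leaf 1 [(1,1)]) (.cons (.leaf 1 [(1,1)]) (.cons (.leaf 1 [(10,1),(1,1)]) (.cons (.leaf 1 [(10,1),(1,1)]) (.cons (.keep [1,6,7,10] (.node (.cons (.leaf 1 [(4,1)]) (.cons (.keep [3,7,8,9,10] (.node (.cons (.leaf 1 [(4,1)]) (.cons (.leaf 1 [(4,1)]) (.cons (.leaf 1 [(4,1),(7,1)]) (.cons (.leaf 1 [(4,1),(7,1)]) (.cons (.leaf 1 [(9,1),(4,1),(7,1)]) (.cons (.leaf 1 [(9,1),(4,1),(7,1)]) (.cons (.leaf 1 [(11,1)]) (.cons (.leaf 1 [(0,1),(11,1)]) .nil)))))))))) (.cons (.leaf 1 [(4,1)]) (.cons (.leaf 1 [(1,1),(10,1)]) (.cons (.leaf 1 [(4,1)]) (.cons (.keep [0,1,4,9,10] (.node (.cons (.leaf 1 [(8,1),(4,1)]) (.cons (.leaf 1 [(8,1),(4,1)]) (.cons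 (.leaf 1 [(4,1)]) (.cons (.leaf 1 [(4,1)]) (.cons (.leaf 1 [(9,1),(4,1)]) (.cons (.leaf 1 [(9,1),(4,1)]) (.cons (.leaf 1 [(11,1)]) (.cons (.leaf 1 [(8,1),(0,1),(11,1)]) .nil)))))))))) (.cons (.leaf 1 []) (.cons (.keep [0,3,7,9,10] (.node (.cons (.leaf 1 [(9,1),(8,1),(4,1)]) (.cons (.leaf 1 [(9,1),(8,1),(4,1)]) (.cons (.leaf 1 [(4,1),(8,1)]) (.cons (.leaf 1 [(4,1),(8,1)]) (.cons (.leaf 1 [(4,1)]) (.cons (.leaf 1 [(4,1)]) (.cons (.leaf 1 [(11,1)]) (.cons (.leaf 1 [(9,1),(8,1),(0,1),(11,1)]) .nil)))))))))) .nil)))))))))) (.cons (.keep [0,1,5,10] (.node (.cons (.leaf 1 [(4,1)]) (.cons (.keep [4,5,8,9,10] (.node (.cons (.leaf 1 [(4,1)]) (.cons (.leaf 1 [(4,1)]) (.cons (.leaf 1 [(4,1),(10,1),(7,1)]) (.cons (.leaf 1 [(4,1),(10,1),(7,1)]) (.cons (.leaf 1 [(4,1),(7,1)]) (.cons (.leaf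 1 [(4,1),(7,1)]) (.cons (.leaf 1 [(11,1)]) (.cons (.leaf 1 [(0,1),(11,1)]) .nil)))))))))) (.cons (.leaf 1 [(4,1)]) (.cons (.leaf 1 [(1,1),(10,1)]) (.cons (.leaf 1 [(4,1)]) (.cons (.keep [0,1,4,7,9,10] (.node (.cons (.leaf 1 [(8,1),(4,1)]) (.cons (.leaf 1 [(8,1),(4,1)]) (.cons (.leaf 1 [(4,1)]) (.cons (.leaf 1 [(4,1)]) (.cons (.leaf 1 [(9,1),(4,1)]) (.cons (.leaf 1 [(9,1),(4,1)]) (.cons (.leaf 1 [(12,1)]) (.cons (.leaf 1 [(8,1),(0,1),(12,1)]) .nil)))))))))) (.cons (.leaf 1 []) (.cons (.keep [0,3,7,8,10] (.node (.cons (.leaf 1 [(10,1),(8,1),(4,1)]) (.cons (.leaf 1 [(10,1),(8,1),(4,1)]) (.cons (.leaf 1 [(4,1),(8,1)]) (.cons (.leaf 1 [(4,1),(8,1)]) (.cons (.leaf 1 [(4,1)]) (.cons (.leaf 1 [(4,1)]) (.cons (.leaf 1 [(11,1)]) (.cons (.leaf 1 [(10,1),(8,1),(0,1),(11,1)]) .nil))))))))))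 .nil)))))))))) .nil)))))))))) (.cons (.leaf 1 [(1,1),(10,1),(7,1)]) (.cons (.keep [0,1,7,8,10] (.node (.cons (.keep [4,6,7,9,11] (.node (.cons (.leaf 1 [(4,1)]) (.cons (.keep [3,8,9,10,11] (.node (.cons (.leaf 1 [(4,1)]) (.cons (.leaf 1 [(4,1)]) (.cons (.leaf 1 [(4,1),(7,1)]) (.cons (.leaf 1 [(4,1),(7,1)]) (.cons (.leaf 1 [(8,1),(4,1),(7,1)]) (.cons (.leaf 1 [(8,1),(4,1),(7,1)]) (.cons (.leaf 1 [(11,1)]) (.cons (.leaf 1 [(0,1),(11,1)]) .nil)))))))))) (.cons (.leaf 1 [(4,1)]) (.cons (.leaf 1 [(1,1),(11,1)]) (.cons (.leaf 1 [(4,1)]) (.cons (.keep [0,1,4,9,11] (.node (.cons (.leaf 1 [(8,1),(4,1)]) (.cons (.leaf 1 [(8,1),(4,1)]) (.cons (.leaf 1 [(4,1)]) (.cons (.leaf 1 [(4,1)]) (.cons (.leaf 1 [(9,1),(4,1)]) (.cons (.leaf 1 [(9,1),(4,1)]) (.cons (.leaf 1 [(11,1)]) (.cons (.leaf 1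 [(8,1),(0,1),(11,1)]) .nil)))))))))) (.cons (.leaf 1 []) (.cons (.keep [3,7,8,9,10,11] (.node (.cons (.leaf 2 [(11,1),(7,2),(4,2)]) (.cons (.leaf 2 [(11,1),(7,2),(4,2)]) (.cons (.leaf 1 [(4,1),(7,1)]) (.cons (.leaf 1 [(4,1),(7,1)]) (.cons (.leaf 1 [(4,1)]) (.cons (.leaf 1 [(4,1)]) (.cons (.leaf 1 [(12,1)]) (.cons (.leaf 2 [(11,1),(7,2),(0,2),(12,2)]) .nil)))))))))) .nil)))))))))) (.cons (.keep [5,7,8,9,11] (.node (.cons (.leaf 1 [(4,1)]) (.cons (.keep [4,7,8,10,11] (.node (.cons (.leaf 1 [(4,1)]) (.cons (.leaf 1 [(4,1)]) (.cons (.leaf 1 [(4,1),(8,1),(7,1)]) (.cons (.leaf 1 [(4,1),(8,1),(7,1)]) (.cons (.leaf 1 [(4,1),(7,1)]) (.cons (.leaf 1 [(4,1),(7,1)]) (.cons (.leaf 1 [(11,1)]) (.cons (.leaf 1 [(0,1),(11,1)]) .nil)))))))))) (.cons (.leaf 1 [(4,1)]) (.cons (.leaf 1 [(1,1),(11,1)])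 (.cons (.leaf 1 [(4,1)]) (.cons (.keep [7,8,9,10,11] (.node (.cons (.leaf 1 [(3,1),(10,1),(4,1)]) (.cons (.leaf 1 [(3,1),(10,1),(4,1)]) (.cons (.leaf 1 [(4,1)]) (.cons (.leaf 1 [(4,1)]) (.cons (.leaf 1 [(10,1),(4,1),(9,2)]) (.cons (.leaf 1 [(10,1),(4,1),(9,2)]) (.cons (.leaf 1 [(11,1)]) (.cons (.leaf 1 [(9,1),(10,1),(0,1),(11,1)]) .nil)))))))))) (.cons (.leaf 1 []) (.cons (.keep [0,3,8,10,11] (.node (.cons (.leaf 1 [(10,1),(2,1),(4,1)]) (.cons (.leaf 1 [(10,1),(2,1),(4,1)]) (.cons (.leaf 1 [(4,1),(8,1)]) (.cons (.leaf 1 [(4,1),(8,1)]) (.cons (.leaf 1 [(4,1)]) (.cons (.leaf 1 [(4,1)]) (.cons (.leaf 1 [(11,1)]) (.cons (.leaf 2 [(10,1),(8,1),(0,2),(11,2)]) .nil)))))))))) .nil)))))))))) (.cons (.leaf 1 [(1,1)]) (.cons (.leaf 1 [(1,1)]) (.cons (.leaf 1 [(11,1),(1,1)]) (.cons (.leaf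 1 [(11,1),(1,1)]) (.cons (.keep [1,6,7,11] (.node (.cons (.leaf 1 [(4,1)]) (.cons (.keep [3,7,8,9,10] (.node (.cons (.leaf 1 [(4,1)]) (.cons (.leaf 1 [(4,1)]) (.cons (.leaf 1 [(4,1),(7,1)]) (.cons (.leaf 1 [(4,1),(7,1)]) (.cons (.leaf 1 [(9,1),(4,1),(7,1)]) (.cons (.leaf 1 [(9,1),(4,1),(7,1)]) (.cons (.leaf 1 [(11,1)]) (.cons (.leaf 1 [(0,1),(11,1)]) .nil)))))))))) (.cons (.leaf 1 [(4,1)]) (.cons (.leaf 1 [(1,1),(10,1)]) (.cons (.leaf 1 [(4,1)]) (.cons (.keep [0,1,4,9,10] (.node (.cons (.leaf 1 [(8,1),(4,1)]) (.cons (.leaf 1 [(8,1),(4,1)]) (.cons (.leaf 1 [(4,1)]) (.cons (.leaf 1 [(4,1)]) (.cons (.leaf 1 [(9,1),(4,1)]) (.cons (.leaf 1 [(9,1),(4,1)]) (.cons (.leaf 1 [(11,1)]) (.cons (.leaf 1 [(8,1),(0,1),(11,1)]) .nil)))))))))) (.cons (.leaf 1 []) (.cons (.keep [0,3,7,9,10] (.node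 (.cons (.leaf 1 [(9,1),(8,1),(4,1)]) (.cons (.leaf 1 [(9,1),(8,1),(4,1)]) (.cons (.leaf 1 [(4,1),(8,1)]) (.cons (.leaf 1 [(4,1),(8,1)]) (.cons (.leaf 1 [(4,1)]) (.cons (.leaf 1 [(4,1)]) (.cons (.leaf 1 [(11,1)]) (.cons (.leaf 1 [(9,1),(8,1),(0,1),(11,1)]) .nil)))))))))) .nil)))))))))) (.cons (.keep [5,7,8,9,11] (.node (.cons (.leaf 1 [(4,1)]) (.cons (.keep [4,7,8,9,10,11] (.node (.cons (.leaf 1 [(4,1)]) (.cons (.leaf 1 [(4,1)]) (.cons (.leaf 1 [(4,1),(8,1),(7,1)]) (.cons (.leaf 1 [(4,1),(8,1),(7,1)]) (.cons (.leaf 1 [(4,1),(7,1)]) (.cons (.leaf 1 [(4,1),(7,1)]) (.cons (.leaf 1 [(12,1)]) (.cons (.leaf 1 [(0,1),(12,1)]) .nil)))))))))) (.cons (.leaf 1 [(4,1)]) (.cons (.leaf 1 [(1,1),(11,1)]) (.cons (.leaf 1 [(4,1)]) (.cons (.keep [0,4,8,10,11] (.node (.cons (.leaf 1 [(8,1),(10,1),(4,1)])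 (.cons (.leaf 1 [(8,1),(10,1),(4,1)]) (.cons (.leaf 1 [(4,1)]) (.cons (.leaf 1 [(4,1)]) (.cons (.leaf 1 [(8,1),(4,1)]) (.cons (.leaf 1 [(8,1),(4,1)]) (.cons (.leaf 1 [(11,1)]) (.cons (.leaf 1 [(8,1),(10,1),(0,1),(11,1)]) .nil)))))))))) (.cons (.leaf 1 []) (.cons (.keep [0,1,3,8,9,11] (.node (.cons (.leaf 1 [(8,1),(4,1)]) (.cons (.leaf 1 [(8,1),(4,1)]) (.cons (.leaf 1 [(4,1),(9,1)]) (.cons (.leaf 1 [(4,1),(9,1)]) (.cons (.leaf 1 [(4,1)]) (.cons (.leaf 1 [(4,1)]) (.cons (.leaf 1 [(12,1)]) (.cons (.leaf 1 [(8,1),(0,1),(12,1)]) .nil)))))))))) .nil)))))))))) .nil)))))))))) (.cons (.leaf 1 [(1,1)]) (.cons (.leaf 1 [(1,1)]) (.cons (.leaf 1 [(10,1),(1,1)]) (.cons (.leaf 1 [(10,1),(1,1)]) .nil)))))))))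

theorem c_15_24_33 : Concl 15 24 z_15_24_33 h_15_24_33 .nd := piece _ hP_nil t_15_24_33 _ _ (by
  decide +kernel)

end Pool.Agent.H4.RD4.E44
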