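import Pool.Agent.H4.RD4.E41
import Pool.Agent.H4.RD4.E42
import Pool.Agent.H4.RD4.E43
import Pool.Agent.H4.RD4.E44

/-! # Certificates for special cases of order four -/

set_option maxRecDepth 20000

namespace Pool.Agent.H4.RD4.E45

open Pool.Agent.H50.Rdb
open Pool.Agent.H81.RDE (ESB caseOf)

def z_15_24_7 : F := ⟨1, -1, 0, -1, 2⟩

def h_15_24_7 : List F := [⟨1, 0, 0, 0, 0⟩, ⟨0, 0, -1, 1, 0⟩, ⟨0, 0, 0, -1, 1⟩, ⟨0, 1, -1, 0, 0⟩,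
  ⟨0, -1, 0, 0, 1⟩]

def t_15_24_7 : T := (.node (.cons (.keep [2,4,6,8,10] (.node (.cons (.leaf 1 [(7,1),(9,2)]) (.cons (.keep [0,7,9,10,11] (.node (.cons (.leaf 1 [(10,2),(4,3)]) (.cons (.keep [0,4,8,9,10] (.node (.cons (.leaf 1 [(3,1),(4,2)]) (.cons (.leaf 1 [(3,1),(11,2),(4,2)]) (.cons (.leaf 1 [(4,2),(8,1)]) (.cons (.leaf 1 [(1,1),(3,1),(10,2)]) (.cons (.leaf 1 [(4,2),(8,1)]) (.cons (.leaf 1 [(4,2),(11,2),(8,3)]) (.cons (.leaf 1 [(8,1)]) (.cons (.keep [0,7,8,10,11] (.node (.cons (.leaf 1 [(2,1),(10,2),(4,2)]) (.cons (.leaf 1 [(2,1),(11,1),(4,1)]) (.cons (.leaf 1 [(9,1),(10,2),(4,2)]) (.cons (.leaf 1 [(9,2),(11,1),(4,1)]) (.cons (.leaf 1 [(9,1),(4,2)]) (.cons (.leaf 1 [(9,1),(4,2)]) (.cons (.leaf 1 [(9,1),(10,2)]) (.cons (.leaf 1 [(9,3),(11,2),(0,2),(10,2)]) .nil))))))))))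 .nil)))))))))) (.cons (.leaf 1 [(1,1),(4,1)]) (.cons (.leaf 1 [(1,1),(4,1)]) (.cons (.leaf 1 [(1,1),(4,1),(9,2)]) (.cons (.leaf 1 [(1,1),(4,1),(9,2)]) (.cons (.leaf 1 [(10,2),(11,1)]) (.cons (.keep [0,1,9,10,11] (.node (.cons (.leaf 1 [(3,1),(4,2)]) (.cons (.leaf 1 [(4,2),(10,2),(8,1)]) (.cons (.leaf 1 [(4,1),(3,1),(9,1)]) (.cons (.leaf 1 [(1,1),(3,1),(9,2)]) (.cons (.leaf 1 [(4,3),(11,1)]) (.cons (.leaf 1 [(4,3),(10,2),(11,1)]) (.cons (.leaf 1 [(7,1),(11,1)]) (.cons (.keep [0,8,9,10,11] (.node (.cons (.leaf 1 [(2,1),(9,2),(4,2)]) (.cons (.leaf 1 [(10,1),(4,1)]) (.cons (.leaf 1 [(9,1),(4,2),(11,1)]) (.cons (.leaf 1 [(10,2),(3,3),(11,1)]) (.cons (.leaf 1 [(11,1),(4,3),(7,1)]) (.cons (.leaf 1 [(11,1),(4,3),(0,1),(5,1)]) (.cons (.leaf 1 [(11,1),(9,3),(7,1)]) (.cons (.leaf 1 [(10,2),(0,3),(11,1),(9,3)])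 .nil)))))))))) .nil)))))))))) .nil)))))))))) (.cons (.leaf 1 [(1,2),(7,1),(9,2)]) (.cons (.leaf 1 [(1,3),(10,2),(11,1)]) (.cons (.leaf 1 [(1,2),(4,1)]) (.cons (.keep [0,1,4,7,11] (.node (.cons (.leaf 1 [(8,3),(4,1)]) (.cons (.leaf 1 [(8,3),(4,1)]) (.cons (.leaf 1 [(1,2),(4,1)]) (.cons (.leaf 1 [(1,2),(4,1)]) (.cons (.leaf 1 [(8,2),(4,1),(9,1)]) (.cons (.leaf 1 [(8,2),(4,1),(9,1)]) (.cons (.leaf 1 [(8,2),(11,1)]) (.cons (.leaf 1 [(8,5),(0,1),(11,1)]) .nil)))))))))) (.cons (.leaf 1 [(9,2),(1,2)]) (.cons (.keep [1,5,8,9,11] (.node (.cons (.leaf 1 [(10,2),(7,3),(4,1)]) (.cons (.leaf 1 [(10,2),(7,3),(4,1)]) (.cons (.leaf 1 [(1,1),(7,1),(4,1)]) (.cons (.leaf 1 [(1,1),(7,1),(4,1)]) (.cons (.leaf 1 [(1,2),(4,1),(10,2)]) (.cons (.leaf 1 [(10,2),(4,1),(1,2)]) (.cons (.leaf 1 [(10,2),(7,2),(11,1)])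 (.cons (.leaf 1 [(10,4),(7,5),(0,1),(11,1)]) .nil)))))))))) .nil)))))))))) (.cons (.keep [2,5,7,8,10] (.leaf 0 [(0,0)])) (.cons (.keep [1,6,8,9,11] (.node (.cons (.leaf 1 [(8,2),(11,2)]) (.cons (.keep [3,7,8,9,11] (.node (.cons (.leaf 1 [(4,2),(10,2)]) (.cons (.keep [0,4,9,10,11] (.node (.cons (.leaf 1 [(4,2)]) (.cons (.leaf 1 [(10,2),(4,2)]) (.cons (.leaf 1 [(4,2)]) (.cons (.leaf 1 [(1,2),(9,2)]) (.cons (.leaf 1 [(4,2)]) (.cons (.leaf 1 [(4,2),(10,2),(8,2)]) (.cons (.leaf 1 []) (.cons (.keep [0,7,8,9,10,11] (.node (.cons (.leaf 1 [(10,2),(4,2)]) (.cons (.leaf 1 [(11,1),(4,1)]) (.cons (.leaf 1 [(4,2),(10,2)]) (.cons (.leaf 1 [(4,1),(11,1),(9,1)]) (.cons (.leaf 1 [(4,2)]) (.cons (.leaf 1 [(4,2)]) (.cons (.leaf 1 [(10,2)]) (.cons (.leaf 1 [(11,2),(0,2),(10,2)]) .nil)))))))))) .nil))))))))))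 (.cons (.leaf 1 [(1,2)]) (.cons (.leaf 1 [(1,2)]) (.cons (.leaf 1 [(9,2),(1,2)]) (.cons (.leaf 1 [(9,2),(1,2)]) (.cons (.leaf 1 [(10,2)]) (.cons (.keep [0,1,8,9,10] (.node (.cons (.leaf 1 [(4,2)]) (.cons (.leaf 1 [(8,2),(11,2),(4,2)]) (.cons (.leaf 1 [(4,2)]) (.cons (.leaf 1 [(1,2),(10,2)]) (.cons (.leaf 1 [(4,2)]) (.cons (.leaf 1 [(4,2),(11,2)]) (.cons (.leaf 1 []) (.cons (.keep [0,7,8,10,11] (.node (.cons (.leaf 1 [(10,2),(4,2)]) (.cons (.leaf 1 [(9,1),(11,1),(4,1)]) (.cons (.leaf 1 [(4,2),(10,2)]) (.cons (.leaf 1 [(4,1),(11,1)]) (.cons (.leaf 1 [(4,2)]) (.cons (.leaf 1 [(4,2)]) (.cons (.leaf 1 [(10,2)]) (.cons (.leaf 1 [(9,2),(11,2),(0,2),(10,2)]) .nil)))))))))) .nil)))))))))) .nil)))))))))) (.cons (.leaf 1 [(1,2),(9,2)]) (.cons (.leaf 1 [(1,2),(9,2)]) (.cons (.leaf 1 [(1,2)])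 (.cons (.leaf 1 [(1,2)]) (.cons (.leaf 1 [(8,2),(1,2)]) (.cons (.leaf 1 [(8,2),(1,2)]) .nil)))))))))) (.cons (.keep [1,5,7,8,11] (.node (.cons (.keep [4,6,8,10,11] (.node (.cons (.leaf 1 [(8,1),(10,1)]) (.cons (.keep [0,8,9,10,11] (.node (.cons (.leaf 1 [(9,1),(4,2)]) (.cons (.leaf 1 [(9,1),(10,2),(4,2)]) (.cons (.leaf 1 [(1,1),(4,1)]) (.cons (.leaf 1 [(4,1),(10,1)]) (.cons (.leaf 1 [(1,1),(4,1),(8,1)]) (.cons (.leaf 1 [(8,1),(4,1),(10,1)]) (.cons (.leaf 1 [(9,1)]) (.cons (.leaf 1 [(11,2),(10,1),(0,1)]) .nil)))))))))) (.cons (.leaf 1 [(1,2),(9,1)]) (.cons (.leaf 1 [(1,2),(9,1)]) (.cons (.leaf 1 [(4,1),(1,1),(10,1)]) (.cons (.keep [0,1,2,4,10] (.node (.cons (.leaf 1 [(8,1),(4,1)]) (.cons (.leaf 1 [(8,2),(11,1),(4,1)]) (.cons (.leaf 1 [(1,1),(4,1)]) (.cons (.leaf 1 [(1,1),(11,1),(4,1)])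 (.cons (.leaf 1 [(8,1),(4,1)]) (.cons (.leaf 1 [(8,3),(4,1),(11,1),(0,1)]) (.cons (.leaf 1 [(8,1)]) (.cons (.leaf 1 [(8,3),(11,1),(0,1)]) .nil)))))))))) (.cons (.leaf 1 [(10,1),(8,1),(1,1)]) (.cons (.keep [0,3,9,10,11] (.node (.cons (.leaf 1 [(9,1),(4,2)]) (.cons (.leaf 1 [(11,2),(8,1),(10,1),(4,1)]) (.cons (.leaf 1 [(1,1),(4,1)]) (.cons (.leaf 1 [(1,1),(8,1),(10,1),(4,1)]) (.cons (.leaf 1 [(9,1),(4,2)]) (.cons (.leaf 1 [(9,1),(4,2),(10,2)]) (.cons (.leaf 1 [(9,1)]) (.cons (.leaf 1 [(11,3),(8,1),(10,1),(0,1)]) .nil)))))))))) .nil)))))))))) (.cons (.keep [7,8,9,10,11] (.node (.cons (.leaf 1 [(4,2),(8,1),(10,2)]) (.cons (.keep [0,4,8,10,11] (.node (.cons (.leaf 1 [(9,1),(4,2)]) (.cons (.leaf 1 [(9,1),(10,2),(4,2)]) (.cons (.leaf 1 [(1,1),(4,1)]) (.cons (.leaf 1 [(4,1),(10,1)]) (.cons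 (.leaf 1 [(9,1),(4,2)]) (.cons (.leaf 1 [(9,1),(4,2),(10,2),(8,2)]) (.cons (.leaf 1 [(9,1)]) (.cons (.keep [0,7,8,9,10,11] (.node (.cons (.leaf 2 [(11,1),(4,3)]) (.cons (.leaf 1 [(11,1),(4,1),(10,1)]) (.cons (.leaf 2 [(4,3),(11,1),(9,1)]) (.cons (.leaf 1 [(4,2),(10,1),(11,2),(0,2)]) (.cons (.leaf 1 [(4,2)]) (.cons (.leaf 1 [(10,1),(4,2)]) (.cons (.leaf 1 [(11,1),(7,1)]) (.cons (.leaf 1 [(11,2),(10,1),(0,2)]) .nil)))))))))) .nil)))))))))) (.cons (.leaf 1 [(1,2),(8,1)]) (.cons (.leaf 1 [(1,2),(8,1)]) (.cons (.leaf 1 [(4,1),(1,1),(10,1)]) (.cons (.keep [0,4,5,10,11] (.node (.cons (.leaf 1 [(8,1),(11,1),(4,1)]) (.cons (.leaf 1 [(8,2),(11,2),(10,1),(4,1)]) (.cons (.leaf 1 [(1,1),(4,1)]) (.cons (.leaf 1 [(1,1),(10,1),(4,1)]) (.cons (.leaf 1 [(1,1),(4,1),(8,1)]) (.cons (.leaf 1 [(8,2),(1,1),(10,1),(4,1)])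 (.cons (.leaf 1 [(8,1),(11,1)]) (.cons (.leaf 1 [(8,3),(11,3),(10,1),(0,1)]) .nil)))))))))) (.cons (.leaf 1 [(10,2),(8,1)]) (.cons (.keep [0,1,7,8,10] (.node (.cons (.leaf 1 [(10,1),(4,2)]) (.cons (.leaf 1 [(10,1),(8,2),(11,2),(4,2)]) (.cons (.leaf 1 [(1,1),(4,1)]) (.cons (.leaf 1 [(4,1),(8,1),(11,1)]) (.cons (.leaf 1 [(10,1),(4,2)]) (.cons (.leaf 1 [(10,1),(4,2),(11,2)]) (.cons (.leaf 1 [(10,1)]) (.cons (.keep [0,7,8,10,11] (.node (.cons (.leaf 2 [(9,1),(11,1),(4,3)]) (.cons (.leaf 1 [(9,1),(11,1),(4,1),(10,1)]) (.cons (.leaf 2 [(4,3),(11,1)]) (.cons (.leaf 1 [(4,1),(10,1),(11,1)]) (.cons (.leaf 1 [(4,2)]) (.cons (.leaf 1 [(10,1),(4,2)]) (.cons (.leaf 1 [(9,1),(11,1),(7,1)]) (.cons (.leaf 1 [(9,2),(11,2),(10,1),(0,2)]) .nil)))))))))) .nil)))))))))) .nil)))))))))) (.cons (.leaf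 1 [(1,2),(10,2),(8,1)]) (.cons (.leaf 1 [(1,2),(10,2),(8,1)]) (.cons (.leaf 1 [(1,2),(8,1)]) (.cons (.leaf 1 [(1,2),(8,1)]) (.cons (.keep [1,3,6,9,10] (.node (.cons (.leaf 1 [(4,1),(7,1),(11,1)]) (.cons (.keep [0,7,8,9,11] (.node (.cons (.leaf 1 [(8,1),(4,1)]) (.cons (.leaf 1 [(8,1),(11,1),(4,1)]) (.cons (.leaf 1 [(1,1),(4,1)]) (.cons (.leaf 1 [(4,1),(11,1)]) (.cons (.leaf 1 [(8,1),(4,1)]) (.cons (.leaf 1 [(8,2),(4,1),(11,1),(0,1)]) (.cons (.leaf 1 [(8,1)]) (.cons (.leaf 1 [(8,2),(11,1),(0,1)]) .nil)))))))))) (.cons (.leaf 1 [(1,1),(7,1)]) (.cons (.leaf 1 [(1,1),(7,1)]) (.cons (.leaf 1 [(4,1),(1,1),(11,1)]) (.cons (.keep [0,1,2,4,11] (.node (.cons (.leaf 1 [(8,1),(4,1)]) (.cons (.leaf 1 [(8,2),(11,1),(4,1)]) (.cons (.leaf 1 [(1,1),(4,1)]) (.cons (.leaf 1 [(1,1),(11,1),(4,1)]) (.cons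 (.leaf 1 [(8,1),(4,1)]) (.cons (.leaf 1 [(8,3),(4,1),(11,1),(0,1)]) (.cons (.leaf 1 [(8,1)]) (.cons (.leaf 1 [(8,3),(11,1),(0,1)]) .nil)))))))))) (.cons (.leaf 1 [(11,1),(7,1)]) (.cons (.keep [0,3,7,8,11] (.node (.cons (.leaf 1 [(9,1),(4,1)]) (.cons (.leaf 1 [(9,2),(8,1),(11,1),(4,1)]) (.cons (.leaf 1 [(1,1),(4,1)]) (.cons (.leaf 1 [(1,1),(8,1),(11,1),(4,1)]) (.cons (.leaf 1 [(9,1),(4,1)]) (.cons (.leaf 1 [(9,1),(4,1),(11,1)]) (.cons (.leaf 1 [(9,1)]) (.cons (.leaf 1 [(9,3),(8,1),(11,1),(0,1)]) .nil)))))))))) .nil)))))))))) (.cons (.keep [1,3,5,9,10] (.node (.cons (.leaf 1 [(4,1),(7,1),(11,1)]) (.cons (.keep [0,4,7,8,9,11] (.node (.cons (.leaf 1 [(9,1),(4,1)]) (.cons (.leaf 1 [(9,1),(12,1),(4,1)]) (.cons (.leaf 1 [(1,1),(4,1)]) (.cons (.leaf 1 [(4,1),(12,1)]) (.cons (.leaf 1 [(9,1),(4,1)])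 (.cons (.leaf 1 [(9,2),(4,1),(12,1),(0,1)]) (.cons (.leaf 1 [(9,1)]) (.cons (.leaf 1 [(9,2),(12,1),(0,1)]) .nil)))))))))) (.cons (.leaf 1 [(1,1),(7,1)]) (.cons (.leaf 1 [(1,1),(7,1)]) (.cons (.leaf 1 [(4,1),(1,1),(11,1)]) (.cons (.keep [0,1,5,9,10,11] (.node (.cons (.leaf 1 [(8,1),(4,1)]) (.cons (.leaf 1 [(8,2),(12,1),(4,1)]) (.cons (.leaf 1 [(1,1),(4,1)]) (.cons (.leaf 1 [(1,1),(12,1),(4,1)]) (.cons (.leaf 1 [(8,1),(4,1)]) (.cons (.leaf 1 [(8,3),(4,1),(12,1),(0,1)]) (.cons (.leaf 1 [(8,1)]) (.cons (.leaf 1 [(8,3),(12,1),(0,1)]) .nil)))))))))) (.cons (.leaf 1 [(11,1),(7,1)]) (.cons (.keep [0,3,7,8,11] (.node (.cons (.leaf 1 [(9,1),(4,1)]) (.cons (.leaf 1 [(9,2),(8,1),(11,1),(4,1)]) (.cons (.leaf 1 [(1,1),(4,1)]) (.cons (.leaf 1 [(1,1),(8,1),(11,1),(4,1)]) (.cons (.leaf 1 [(9,1),(4,1)])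 (.cons (.leaf 1 [(9,1),(4,1),(11,1)]) (.cons (.leaf 1 [(9,1)]) (.cons (.leaf 1 [(9,3),(8,1),(11,1),(0,1)]) .nil)))))))))) .nil)))))))))) .nil)))))))))) (.cons (.leaf 1 [(10,1),(8,2),(1,2)]) (.cons (.leaf 1 [(10,1),(8,2),(1,2),(5,1)]) (.cons (.keep [1,6,9,10,11] (.node (.cons (.leaf 1 [(7,1),(4,1)]) (.cons (.keep [0,7,8,10,11] (.node (.cons (.leaf 1 [(8,1),(4,1)]) (.cons (.leaf 1 [(8,1),(4,1)]) (.cons (.leaf 1 [(4,1)]) (.cons (.leaf 1 [(4,1)]) (.cons (.leaf 1 [(9,1),(4,1)]) (.cons (.leaf 1 [(9,1),(4,1)]) (.cons (.leaf 1 [(8,1),(10,1)]) (.cons (.leaf 1 [(8,2),(0,1),(10,1)]) .nil)))))))))) (.cons (.leaf 1 [(4,1),(7,1)]) (.cons (.leaf 1 [(1,1),(7,1),(10,1)]) (.cons (.leaf 1 [(1,1),(4,1)]) (.cons (.keep [0,1,4,10,11] (.node (.cons (.leaf 1 [(8,2),(4,1)]) (.cons (.leaf 1 [(8,2),(4,1)])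 (.cons (.leaf 1 [(1,1),(4,1)]) (.cons (.leaf 1 [(1,1),(4,1)]) (.cons (.leaf 1 [(8,1),(4,1),(9,1)]) (.cons (.leaf 1 [(8,1),(4,1),(9,1)]) (.cons (.leaf 1 [(8,1),(10,1)]) (.cons (.leaf 1 [(8,3),(0,1),(10,1)]) .nil)))))))))) (.cons (.leaf 1 [(7,1)]) (.cons (.keep [3,5,7,8,9,10] (.node (.cons (.leaf 1 [(9,2),(7,1),(4,1)]) (.cons (.leaf 1 [(9,2),(7,1),(4,1)]) (.cons (.leaf 1 [(4,1),(1,1),(7,1)]) (.cons (.leaf 1 [(4,1),(7,1),(1,1)]) (.cons (.leaf 1 [(9,1),(4,1)]) (.cons (.leaf 1 [(9,1),(4,1)]) (.cons (.leaf 1 [(9,1),(12,1)]) (.cons (.leaf 1 [(9,3),(7,1),(0,1),(12,1)]) .nil)))))))))) .nil)))))))))) (.cons (.keep [1,5,7,9,10,11] (.node (.cons (.leaf 1 []) (.cons (.keep [3,7,8,9,11,12] (.node (.cons (.leaf 1 [(8,1),(9,1),(4,1)]) (.cons (.leaf 1 [(8,1),(9,1),(4,1)]) (.cons (.leaf 1 [(4,1),(9,1)])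 (.cons (.leaf 1 [(4,1),(9,1)]) (.cons (.leaf 1 [(4,1)]) (.cons (.leaf 1 [(4,1)]) (.cons (.leaf 1 [(8,1),(9,1),(11,1)]) (.cons (.leaf 1 [(8,2),(9,2),(0,1),(11,1)]) .nil)))))))))) (.cons (.leaf 1 [(1,1)]) (.cons (.leaf 1 [(1,1),(7,1),(8,1),(11,1)]) (.cons (.leaf 1 [(1,1)]) (.cons (.keep [1,4,8,10,11,12] (.node (.cons (.leaf 1 [(7,2),(9,1),(4,1)]) (.cons (.leaf 1 [(7,2),(9,1),(4,1)]) (.cons (.leaf 1 [(4,1),(1,1),(9,1)]) (.cons (.leaf 1 [(4,1),(9,1),(1,1)]) (.cons (.leaf 1 [(7,1),(4,1)]) (.cons (.leaf 1 [(7,1),(4,1)]) (.cons (.leaf 1 [(7,1),(9,1),(11,1)]) (.cons (.leaf 1 [(7,3),(9,2),(0,1),(11,1)]) .nil)))))))))) (.cons (.leaf 1 [(1,1)]) (.cons (.keep [3,5,7,9,10,11] (.node (.cons (.leaf 1 [(9,2),(7,2),(4,1)]) (.cons (.leaf 1 [(9,2),(7,2),(4,1)]) (.cons (.leaf 1 [(4,1),(1,1),(7,2)])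 (.cons (.leaf 1 [(4,1),(1,1),(7,2)]) (.cons (.leaf 1 [(1,1),(4,1)]) (.cons (.leaf 1 [(1,1),(4,1)]) (.cons (.leaf 1 [(9,1),(7,1),(12,1)]) (.cons (.leaf 1 [(9,3),(7,3),(0,1),(12,1)]) .nil)))))))))) .nil)))))))))) .nil)))))))))

theorem c_15_24_7 : Concl 15 24 z_15_24_7 h_15_24_7 .nd := piece _ (hP_cons E41.c_15_24_5 hP_nil)
  t_15_24_7 _ _ (by decide +kernel)

def z_15_24_8 : F := ⟨1, -1, -1, 0, 2⟩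

def h_15_24_8 : List F := [⟨1, 0, 0, 0, 0⟩, ⟨0, 0, 1, -1, 0⟩, ⟨0, 1, -1, 0, 0⟩, ⟨0, -1, 0, 0, 1⟩]

def t_15_24_8 : T := (.node (.cons (.keep [2,6,8,9] (.leaf 0 [(0,0)])) (.cons (.keep [2,5,7,8,9] (.leaf 0 [(1,0)])) (.cons (.keep [1,3,6,8,10] (.node (.cons (.leaf 1 [(10,1),(9,2),(11,2)]) (.cons (.keep [7,8,9,10,11] (.node (.cons (.keep [4,6,9,10,11] (.node (.cons (.leaf 1 [(3,1),(4,1)]) (.cons (.keep [0,3,8,9,10] (.node (.cons (.leaf 1 [(2,1),(4,1)]) (.cons (.leaf 1 [(2,1),(4,1)]) (.cons (.leaf 1 [(8,2),(4,1)]) (.cons (.leaf 1 [(8,2),(4,1)]) (.cons (.leaf 1 [(8,2),(4,1),(9,1)]) (.cons (.leaf 1 [(8,2),(4,1),(9,1)]) (.cons (.leaf 1 [(8,1),(10,1)]) (.cons (.leaf 1 [(8,2),(0,1),(10,1)]) .nil)))))))))) (.cons (.leaf 1 [(4,1),(7,1)]) (.cons (.leaf 1 [(3,1),(9,1)]) (.cons (.leaf 1 [(4,1),(7,1)])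 (.cons (.keep [1,4,7,9,10] (.node (.cons (.leaf 1 [(4,1)]) (.cons (.leaf 1 [(4,1)]) (.cons (.leaf 1 [(4,1),(9,1)]) (.cons (.leaf 1 [(4,1),(9,1)]) (.cons (.leaf 1 [(8,1),(4,1),(9,1)]) (.cons (.leaf 1 [(8,1),(4,1),(9,1)]) (.cons (.leaf 1 [(10,1),(9,1)]) (.cons (.leaf 1 [(0,1),(9,1),(10,1)]) .nil)))))))))) (.cons (.leaf 1 [(7,1)]) (.cons (.keep [0,3,7,9,10,11] (.node (.cons (.leaf 1 [(8,1),(4,1)]) (.cons (.leaf 1 [(8,1),(4,1)]) (.cons (.leaf 1 [(8,1),(4,1),(9,1)]) (.cons (.leaf 1 [(8,1),(4,1),(9,1)]) (.cons (.leaf 1 [(9,1),(4,1)]) (.cons (.leaf 1 [(9,1),(4,1)]) (.cons (.leaf 1 [(9,1),(10,1)]) (.cons (.leaf 1 [(8,1),(0,1),(9,1),(10,1)]) .nil)))))))))) .nil)))))))))) (.cons (.keep [4,5,9,10,11] (.node (.cons (.leaf 1 [(4,2)]) (.cons (.keep [4,5,8,9,11] (.node (.cons (.leaf 1 [(3,1),(4,1)])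 (.cons (.leaf 1 [(3,1),(4,1)]) (.cons (.leaf 1 [(4,1),(7,2),(9,1)]) (.cons (.leaf 1 [(4,1),(7,2),(9,1)]) (.cons (.leaf 1 [(7,2),(4,1)]) (.cons (.leaf 1 [(7,2),(4,1)]) (.cons (.leaf 1 [(7,1),(10,1)]) (.cons (.leaf 1 [(7,2),(0,1),(10,1)]) .nil)))))))))) (.cons (.leaf 1 [(4,1),(9,1)]) (.cons (.leaf 1 [(4,1),(9,1)]) (.cons (.leaf 1 [(4,2),(7,1)]) (.cons (.keep [0,1,4,7,9,10] (.node (.cons (.leaf 1 [(8,1),(3,1),(4,1)]) (.cons (.leaf 1 [(8,1),(3,1),(4,1)]) (.cons (.leaf 1 [(3,1),(10,1),(4,1)]) (.cons (.leaf 1 [(3,1),(10,1),(4,1)]) (.cons (.leaf 1 [(9,2),(10,1),(4,1)]) (.cons (.leaf 1 [(9,2),(10,1),(4,1)]) (.cons (.leaf 1 [(9,1),(10,1),(11,1)]) (.cons (.leaf 1 [(9,2),(10,1),(0,1),(11,1)]) .nil)))))))))) (.cons (.leaf 1 [(10,1)]) (.cons (.keep [3,7,9,10,11] (.node (.cons (.leaf 1 [(4,1)])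 (.cons (.leaf 1 [(4,1)]) (.cons (.leaf 1 [(4,1),(8,1)]) (.cons (.leaf 1 [(4,1),(8,1)]) (.cons (.leaf 1 [(4,2),(10,1)]) (.cons (.leaf 1 [(4,2),(10,1)]) (.cons (.leaf 1 [(9,2),(10,1)]) (.cons (.leaf 1 [(0,2),(10,1),(9,2)]) .nil)))))))))) .nil)))))))))) (.cons (.leaf 1 [(1,1),(4,1)]) (.cons (.leaf 1 [(1,2),(10,1)]) (.cons (.leaf 1 [(1,1),(4,1),(9,1)]) (.cons (.leaf 1 [(9,2),(1,2),(10,1)]) (.cons (.keep [1,6,7,9,10] (.node (.cons (.leaf 1 [(4,1)]) (.cons (.keep [3,7,8,10,11] (.node (.cons (.leaf 1 [(4,1)]) (.cons (.leaf 1 [(4,1)]) (.cons (.leaf 1 [(4,1),(7,1)]) (.cons (.leaf 1 [(4,1),(7,1)]) (.cons (.leaf 1 [(9,1),(4,1),(7,1)]) (.cons (.leaf 1 [(9,1),(4,1),(7,1)]) (.cons (.leaf 1 [(10,1)]) (.cons (.leaf 1 [(0,1),(10,1)]) .nil)))))))))) (.cons (.leaf 1 [(4,1)]) (.cons (.leaf 1 [(1,1),(10,1)])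 (.cons (.leaf 1 [(4,1)]) (.cons (.keep [0,1,4,10,11] (.node (.cons (.leaf 1 [(8,1),(4,1)]) (.cons (.leaf 1 [(8,1),(4,1)]) (.cons (.leaf 1 [(4,1)]) (.cons (.leaf 1 [(4,1)]) (.cons (.leaf 1 [(9,1),(4,1)]) (.cons (.leaf 1 [(9,1),(4,1)]) (.cons (.leaf 1 [(10,1)]) (.cons (.leaf 1 [(8,1),(0,1),(10,1)]) .nil)))))))))) (.cons (.leaf 1 []) (.cons (.keep [3,5,7,8,9,10] (.node (.cons (.leaf 1 [(9,1),(7,1),(4,1)]) (.cons (.leaf 1 [(9,1),(7,1),(4,1)]) (.cons (.leaf 1 [(4,1),(7,1)]) (.cons (.leaf 1 [(4,1),(7,1)]) (.cons (.leaf 1 [(4,1)]) (.cons (.leaf 1 [(4,1)]) (.cons (.leaf 1 [(12,1)]) (.cons (.leaf 1 [(9,1),(7,1),(0,1),(12,1)]) .nil)))))))))) .nil)))))))))) (.cons (.keep [1,7,8,9,10] (.node (.cons (.leaf 1 [(7,1),(4,2)]) (.cons (.keep [4,7,9,10,11] (.node (.cons (.leaf 1 [(8,1),(3,1),(4,1)])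 (.cons (.leaf 1 [(8,1),(3,1),(4,1)]) (.cons (.leaf 1 [(4,1),(7,1)]) (.cons (.leaf 1 [(4,1),(7,1)]) (.cons (.leaf 1 [(8,1),(7,2),(4,1)]) (.cons (.leaf 1 [(8,1),(7,2),(4,1)]) (.cons (.leaf 1 [(8,1),(7,1),(10,1)]) (.cons (.leaf 1 [(8,2),(7,2),(0,1),(10,1)]) .nil)))))))))) (.cons (.leaf 1 [(4,1),(7,1),(10,1)]) (.cons (.leaf 1 [(4,1),(7,1),(10,1)]) (.cons (.leaf 1 [(4,2)]) (.cons (.keep [0,1,4,5,10] (.node (.cons (.leaf 1 [(8,2),(3,1),(4,1)]) (.cons (.leaf 1 [(8,2),(3,1),(4,1)]) (.cons (.leaf 1 [(4,1),(3,1)]) (.cons (.leaf 1 [(4,1),(3,1)]) (.cons (.leaf 1 [(4,1),(9,2)]) (.cons (.leaf 1 [(4,1),(9,2)]) (.cons (.leaf 1 [(11,1),(9,1)]) (.cons (.leaf 1 [(8,1),(9,2),(0,1),(11,1)]) .nil)))))))))) (.cons (.leaf 1 [(11,1)]) (.cons (.keep [0,7,9,10,11] (.node (.cons (.leaf 1 [(8,1),(4,1)]) (.cons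 (.leaf 1 [(8,1),(4,1)]) (.cons (.leaf 1 [(4,1)]) (.cons (.leaf 1 [(4,1)]) (.cons (.leaf 1 [(11,1),(4,2)]) (.cons (.leaf 1 [(11,1),(4,2)]) (.cons (.leaf 1 [(11,1),(10,2)]) (.cons (.leaf 1 [(8,2),(0,2),(11,1),(10,2)]) .nil)))))))))) .nil)))))))))) .nil)))))))))) (.cons (.leaf 1 [(1,2),(9,1),(11,1)]) (.cons (.keep [1,3,8,9,11] (.node (.cons (.keep [4,6,8,10,11] (.node (.cons (.leaf 1 [(3,1),(4,1)]) (.cons (.keep [0,3,8,9,10] (.node (.cons (.leaf 1 [(2,1),(4,1)]) (.cons (.leaf 1 [(2,1),(4,1)]) (.cons (.leaf 1 [(8,2),(4,1)]) (.cons (.leaf 1 [(8,2),(4,1)]) (.cons (.leaf 1 [(8,2),(4,1),(9,1)]) (.cons (.leaf 1 [(8,2),(4,1),(9,1)]) (.cons (.leaf 1 [(8,1),(11,1)]) (.cons (.leaf 1 [(8,2),(0,1),(11,1)]) .nil)))))))))) (.cons (.leaf 1 [(4,1),(7,1)]) (.cons (.leaf 1 [(3,1),(10,1)]) (.cons (.leaf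 1 [(4,1),(7,1)]) (.cons (.keep [1,4,7,9,10] (.node (.cons (.leaf 1 [(4,1)]) (.cons (.leaf 1 [(4,1)]) (.cons (.leaf 1 [(4,1),(9,1)]) (.cons (.leaf 1 [(4,1),(9,1)]) (.cons (.leaf 1 [(8,1),(4,1),(9,1)]) (.cons (.leaf 1 [(8,1),(4,1),(9,1)]) (.cons (.leaf 1 [(11,1),(9,1)]) (.cons (.leaf 1 [(0,1),(9,1),(11,1)]) .nil)))))))))) (.cons (.leaf 1 [(7,1)]) (.cons (.keep [0,3,7,9,10,11] (.node (.cons (.leaf 1 [(8,1),(4,1)]) (.cons (.leaf 1 [(8,1),(4,1)]) (.cons (.leaf 1 [(8,1),(4,1),(9,1)]) (.cons (.leaf 1 [(8,1),(4,1),(9,1)]) (.cons (.leaf 1 [(9,1),(4,1)]) (.cons (.leaf 1 [(9,1),(4,1)]) (.cons (.leaf 1 [(9,1),(11,1)]) (.cons (.leaf 1 [(8,1),(0,1),(9,1),(11,1)]) .nil)))))))))) .nil)))))))))) (.cons (.keep [5,7,8,10,11] (.node (.cons (.leaf 1 [(4,2)]) (.cons (.keep [4,5,7,10,11] (.node (.cons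 (.leaf 1 [(3,1),(4,1)]) (.cons (.leaf 1 [(3,1),(4,1)]) (.cons (.leaf 1 [(4,1),(7,2),(9,1)]) (.cons (.leaf 1 [(4,1),(7,2),(9,1)]) (.cons (.leaf 1 [(7,2),(4,1)]) (.cons (.leaf 1 [(7,2),(4,1)]) (.cons (.leaf 1 [(7,1),(10,1)]) (.cons (.leaf 1 [(7,2),(0,1),(10,1)]) .nil)))))))))) (.cons (.leaf 1 [(4,1),(8,1)]) (.cons (.leaf 1 [(4,1),(10,1)]) (.cons (.leaf 1 [(4,1),(8,1)]) (.cons (.keep [0,8,9,10,11] (.node (.cons (.leaf 1 [(10,1),(3,1),(4,1)]) (.cons (.leaf 1 [(11,1),(3,2),(4,1)]) (.cons (.leaf 1 [(4,1),(8,1)]) (.cons (.leaf 1 [(4,1),(8,1)]) (.cons (.leaf 1 [(10,1),(8,1),(4,1)]) (.cons (.leaf 1 [(11,1),(8,3),(4,1)]) (.cons (.leaf 1 [(10,1),(8,1)]) (.cons (.leaf 1 [(11,1),(8,3),(0,1),(10,1)]) .nil)))))))))) (.cons (.leaf 1 [(8,1)]) (.cons (.keep [3,8,9,10,11] (.node (.cons (.leaf 1 [(4,1)])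 (.cons (.leaf 1 [(4,1)]) (.cons (.leaf 1 [(4,1),(7,1),(8,1)]) (.cons (.leaf 1 [(4,1),(7,1),(8,1)]) (.cons (.leaf 1 [(4,1),(8,1)]) (.cons (.leaf 1 [(4,1),(8,1)]) (.cons (.leaf 1 [(10,1),(8,1)]) (.cons (.leaf 1 [(0,1),(8,1),(10,1)]) .nil)))))))))) .nil)))))))))) (.cons (.leaf 1 [(1,1),(4,1)]) (.cons (.leaf 1 [(1,1),(7,1)]) (.cons (.leaf 1 [(1,1),(4,1),(10,1)]) (.cons (.leaf 1 [(1,1),(7,1),(10,1)]) (.cons (.keep [1,6,8,9,10] (.node (.cons (.leaf 1 [(4,1)]) (.cons (.keep [3,7,8,9,11] (.node (.cons (.leaf 1 [(4,1)]) (.cons (.leaf 1 [(4,1)]) (.cons (.leaf 1 [(4,1),(7,1)]) (.cons (.leaf 1 [(4,1),(7,1)]) (.cons (.leaf 1 [(9,1),(4,1),(7,1)]) (.cons (.leaf 1 [(9,1),(4,1),(7,1)]) (.cons (.leaf 1 [(11,1)]) (.cons (.leaf 1 [(0,1),(11,1)]) .nil)))))))))) (.cons (.leaf 1 [(4,1)]) (.cons (.leaf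 1 [(1,1),(11,1)]) (.cons (.leaf 1 [(4,1)]) (.cons (.keep [0,1,4,9,11] (.node (.cons (.leaf 1 [(8,1),(4,1)]) (.cons (.leaf 1 [(8,1),(4,1)]) (.cons (.leaf 1 [(4,1)]) (.cons (.leaf 1 [(4,1)]) (.cons (.leaf 1 [(9,1),(4,1)]) (.cons (.leaf 1 [(9,1),(4,1)]) (.cons (.leaf 1 [(11,1)]) (.cons (.leaf 1 [(8,1),(0,1),(11,1)]) .nil)))))))))) (.cons (.leaf 1 []) (.cons (.keep [3,5,7,8,10,11] (.node (.cons (.leaf 1 [(9,1),(7,1),(4,1)]) (.cons (.leaf 1 [(9,1),(7,1),(4,1)]) (.cons (.leaf 1 [(4,1),(7,1)]) (.cons (.leaf 1 [(4,1),(7,1)]) (.cons (.leaf 1 [(4,1)]) (.cons (.leaf 1 [(4,1)]) (.cons (.leaf 1 [(12,1)]) (.cons (.leaf 1 [(9,1),(7,1),(0,1),(12,1)]) .nil)))))))))) .nil)))))))))) (.cons (.keep [7,8,9,10,11] (.node (.cons (.leaf 1 [(7,1),(4,1)]) (.cons (.keep [3,7,8,10,11] (.node (.cons (.leaf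 1 [(8,1),(4,1)]) (.cons (.leaf 1 [(8,1),(4,1)]) (.cons (.leaf 1 [(3,1),(7,1),(4,1)]) (.cons (.leaf 1 [(3,1),(7,1),(4,1)]) (.cons (.leaf 1 [(8,2),(7,1),(4,1)]) (.cons (.leaf 1 [(8,2),(7,1),(4,1)]) (.cons (.leaf 1 [(8,1),(10,1)]) (.cons (.leaf 1 [(8,2),(0,1),(10,1)]) .nil)))))))))) (.cons (.leaf 1 [(4,1),(7,1)]) (.cons (.leaf 1 [(1,1),(7,1),(10,1)]) (.cons (.leaf 1 [(4,2)]) (.cons (.keep [4,5,9,10,11] (.node (.cons (.leaf 1 [(10,1),(7,1),(4,1)]) (.cons (.leaf 1 [(11,1),(7,2),(4,1)]) (.cons (.leaf 1 [(4,1),(3,1)]) (.cons (.leaf 1 [(4,1),(3,1)]) (.cons (.leaf 1 [(4,1),(7,2)]) (.cons (.leaf 1 [(4,1),(7,2)]) (.cons (.leaf 1 [(10,1),(7,1)]) (.cons (.leaf 1 [(11,1),(7,3),(0,1),(10,1)]) .nil)))))))))) (.cons (.leaf 1 [(7,1)]) (.cons (.keep [0,1,7,8,10] (.node (.cons (.leaf 1 [(9,1),(8,1),(4,1)])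 (.cons (.leaf 1 [(9,1),(8,1),(4,1)]) (.cons (.leaf 1 [(4,1)]) (.cons (.leaf 1 [(4,1)]) (.cons (.leaf 1 [(9,1),(4,1)]) (.cons (.leaf 1 [(9,1),(4,1)]) (.cons (.leaf 1 [(9,1),(11,1)]) (.cons (.leaf 1 [(9,2),(8,1),(0,1),(11,1)]) .nil)))))))))) .nil)))))))))) .nil)))))))))) (.cons (.leaf 1 [(10,1),(1,2)]) (.cons (.leaf 1 [(10,1),(1,2)]) (.cons (.leaf 1 [(10,1),(9,2),(1,2)]) (.cons (.leaf 1 [(10,1),(9,2),(1,2)]) .nil)))))))))) (.cons (.keep [1,3,5,7,8,10] (.leaf 0 [(2,0)])) (.cons (.keep [1,4,6,9,10] (.leaf 0 [(3,0)])) (.cons (.keep [1,5,7,9,10] (.leaf 0 [(4,0)])) (.cons (.leaf 1 [(9,1),(8,2),(1,2)]) (.cons (.leaf 1 [(9,1),(8,2),(5,1),(1,2)]) .nil)))))))))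

theorem c_15_24_8 : Concl 15 24 z_15_24_8 h_15_24_8 .nd := piece _ (hP_cons E41.c_15_24_3 (hP_cons
  E41.c_15_24_0 (hP_cons E41.c_15_24_1 (hP_cons E41.c_15_24_4 (hP_cons E41.c_15_24_2 hP_nil)))))
  t_15_24_8 _ _ (by decide +kernel)

def z_15_24_16 : F := ⟨1, 0, -2, 0, 2⟩

def h_15_24_16 : List F := [⟨1, 0, 0, 0, 0⟩, ⟨0, 0, 1, -1, 0⟩, ⟨0, 0, -1, 0, 1⟩, ⟨0, -1, 1, 0, 0⟩]

def t_15_24_16 : T := (.node (.cons (.keep [3,6,8,10] (.leaf 0 [(0,0)])) (.cons (.keep [3,5,7,8,10] (.leaf 0 [(1,0)])) (.cons (.keep [1,6,8,9,10] (.leaf 0 [(2,0)])) (.cons (.keep [1,5,7,9,10] (.leaf 0 [(3,0)])) (.cons (.keep [1,2,4,6,9] (.node (.cons (.leaf 1 [(10,1),(8,1)]) (.cons (.keep [0,2,7,8,10] (.node (.cons (.keep [2,4,6,8,11] (.node (.cons (.leaf 1 [(3,1),(4,1)]) (.cons (.keep [0,3,7,9,11] (.node (.cons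 (.leaf 1 [(2,1),(4,1)]) (.cons (.leaf 1 [(2,1),(4,1)]) (.cons (.leaf 1 [(8,2),(4,1)]) (.cons (.leaf 1 [(8,2),(4,1)]) (.cons (.leaf 1 [(8,2),(4,1),(10,1)]) (.cons (.leaf 1 [(8,2),(4,1),(10,1)]) (.cons (.leaf 1 [(8,1),(11,1)]) (.cons (.leaf 1 [(8,2),(0,1),(11,1)]) .nil)))))))))) (.cons (.leaf 1 [(4,1),(8,1)]) (.cons (.leaf 1 [(3,1),(11,1)]) (.cons (.leaf 1 [(4,1),(8,1)]) (.cons (.keep [1,4,7,8,11] (.node (.cons (.leaf 1 [(4,1)]) (.cons (.leaf 1 [(4,1)]) (.cons (.leaf 1 [(4,1),(10,1)]) (.cons (.leaf 1 [(4,1),(10,1)]) (.cons (.leaf 1 [(8,1),(4,1),(10,1)]) (.cons (.leaf 1 [(8,1),(4,1),(10,1)]) (.cons (.leaf 1 [(11,1),(10,1)]) (.cons (.leaf 1 [(0,1),(10,1),(11,1)]) .nil)))))))))) (.cons (.leaf 1 [(8,1)]) (.cons (.keep [0,3,5,8,10,11] (.node (.cons (.leaf 1 [(8,1),(4,1)]) (.cons (.leaf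 1 [(8,1),(4,1)]) (.cons (.leaf 1 [(8,1),(4,1),(10,1)]) (.cons (.leaf 1 [(8,1),(4,1),(10,1)]) (.cons (.leaf 1 [(10,1),(4,1)]) (.cons (.leaf 1 [(10,1),(4,1)]) (.cons (.leaf 1 [(10,1),(12,1)]) (.cons (.leaf 1 [(8,1),(0,1),(10,1),(12,1)]) .nil)))))))))) .nil)))))))))) (.cons (.keep [5,7,8,9,10,11] (.node (.cons (.leaf 1 [(4,2)]) (.cons (.keep [0,4,7,8,11,12] (.node (.cons (.leaf 1 [(3,1),(4,1)]) (.cons (.leaf 1 [(3,1),(4,1)]) (.cons (.leaf 1 [(4,1),(8,2),(9,1)]) (.cons (.leaf 1 [(4,1),(8,2),(9,1)]) (.cons (.leaf 1 [(8,2),(4,1)]) (.cons (.leaf 1 [(8,2),(4,1)]) (.cons (.leaf 1 [(8,1),(12,1)]) (.cons (.leaf 1 [(8,2),(0,1),(12,1)]) .nil)))))))))) (.cons (.leaf 1 [(4,1),(10,1)]) (.cons (.leaf 1 [(4,1),(12,1)]) (.cons (.leaf 1 [(4,1),(10,1)]) (.cons (.keep [0,4,8,9,10,12] (.node (.cons (.leaf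 1 [(8,1),(4,1)]) (.cons (.leaf 1 [(8,1),(4,1)]) (.cons (.leaf 1 [(4,1),(11,1)]) (.cons (.leaf 1 [(4,1),(11,1)]) (.cons (.leaf 1 [(8,1),(11,1),(4,1)]) (.cons (.leaf 1 [(8,1),(11,1),(4,1)]) (.cons (.leaf 1 [(12,1),(11,1)]) (.cons (.leaf 1 [(8,1),(11,1),(0,1),(12,1)]) .nil)))))))))) (.cons (.leaf 1 [(10,1)]) (.cons (.keep [1,3,8,10,11,12] (.node (.cons (.leaf 1 [(4,1)]) (.cons (.leaf 1 [(4,1)]) (.cons (.leaf 1 [(4,1),(8,1),(10,1)]) (.cons (.leaf 1 [(4,1),(8,1),(10,1)]) (.cons (.leaf 1 [(4,1),(10,1)]) (.cons (.leaf 1 [(4,1),(10,1)]) (.cons (.leaf 1 [(12,1),(10,1)]) (.cons (.leaf 1 [(0,1),(10,1),(12,1)]) .nil)))))))))) .nil)))))))))) (.cons (.leaf 1 [(1,1),(4,1)]) (.cons (.leaf 1 [(1,1),(9,1)]) (.cons (.leaf 1 [(1,1),(4,1),(11,1)]) (.cons (.leaf 1 [(1,1),(9,1),(11,1)]) (.cons (.keep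 [1,6,7,11] (.node (.cons (.leaf 1 [(4,1)]) (.cons (.keep [3,7,8,9,10] (.node (.cons (.leaf 1 [(4,1)]) (.cons (.leaf 1 [(4,1)]) (.cons (.leaf 1 [(4,1),(7,1)]) (.cons (.leaf 1 [(4,1),(7,1)]) (.cons (.leaf 1 [(9,1),(4,1),(7,1)]) (.cons (.leaf 1 [(9,1),(4,1),(7,1)]) (.cons (.leaf 1 [(11,1)]) (.cons (.leaf 1 [(0,1),(11,1)]) .nil)))))))))) (.cons (.leaf 1 [(4,1)]) (.cons (.leaf 1 [(1,1),(10,1)]) (.cons (.leaf 1 [(4,1)]) (.cons (.keep [0,1,4,9,10] (.node (.cons (.leaf 1 [(8,1),(4,1)]) (.cons (.leaf 1 [(8,1),(4,1)]) (.cons (.leaf 1 [(4,1)]) (.cons (.leaf 1 [(4,1)]) (.cons (.leaf 1 [(9,1),(4,1)]) (.cons (.leaf 1 [(9,1),(4,1)]) (.cons (.leaf 1 [(11,1)]) (.cons (.leaf 1 [(8,1),(0,1),(11,1)]) .nil)))))))))) (.cons (.leaf 1 []) (.cons (.keep [0,3,7,9,10] (.node (.cons (.leaf 1 [(9,1),(8,1),(4,1)])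 (.cons (.leaf 1 [(9,1),(8,1),(4,1)]) (.cons (.leaf 1 [(4,1),(8,1)]) (.cons (.leaf 1 [(4,1),(8,1)]) (.cons (.leaf 1 [(4,1)]) (.cons (.leaf 1 [(4,1)]) (.cons (.leaf 1 [(11,1)]) (.cons (.leaf 1 [(9,1),(8,1),(0,1),(11,1)]) .nil)))))))))) .nil)))))))))) (.cons (.keep [5,7,9,10,11] (.node (.cons (.leaf 1 [(9,1),(4,1)]) (.cons (.keep [0,4,8,10,11] (.node (.cons (.leaf 2 [(10,1),(3,1),(4,2)]) (.cons (.leaf 2 [(10,1),(3,1),(4,2)]) (.cons (.leaf 1 [(4,1),(8,1)]) (.cons (.leaf 1 [(4,1),(8,1)]) (.cons (.leaf 2 [(10,1),(8,3),(4,2)]) (.cons (.leaf 2 [(10,1),(8,3),(4,2)]) (.cons (.leaf 2 [(10,1),(8,1),(11,2)]) (.cons (.leaf 1 [(10,1),(8,1),(0,1),(11,1)]) .nil)))))))))) (.cons (.leaf 1 [(4,1),(9,1)]) (.cons (.leaf 1 [(1,1),(9,1),(11,1)]) (.cons (.leaf 1 [(4,2)]) (.cons (.keep [0,4,7,8,10,11] (.node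 (.cons (.leaf 1 [(11,1),(4,1)]) (.cons (.leaf 1 [(11,1),(4,1)]) (.cons (.leaf 1 [(4,1),(3,1)]) (.cons (.leaf 1 [(4,1),(3,1)]) (.cons (.leaf 1 [(4,1),(8,2)]) (.cons (.leaf 1 [(4,1),(8,2)]) (.cons (.leaf 1 [(12,2),(3,1)]) (.cons (.leaf 1 [(0,2),(11,2),(3,1),(12,2)]) .nil)))))))))) (.cons (.leaf 1 [(9,1)]) (.cons (.keep [0,3,8,10,11] (.node (.cons (.leaf 1 [(10,1),(8,1),(4,1)]) (.cons (.leaf 1 [(10,1),(8,1),(4,1)]) (.cons (.leaf 1 [(4,1)]) (.cons (.leaf 1 [(4,1)]) (.cons (.leaf 1 [(10,1),(4,1),(7,1)]) (.cons (.leaf 1 [(10,1),(4,1),(0,1),(5,1)]) (.cons (.leaf 1 [(10,1),(11,1),(7,1)]) (.cons (.leaf 1 [(10,1),(0,1),(11,1)]) .nil)))))))))) .nil)))))))))) .nil)))))))))) (.cons (.leaf 1 [(1,1),(10,1),(8,1)]) (.cons (.keep [0,1,8,10,11] (.node (.cons (.keep [2,4,6,9,10] (.node (.cons (.leaf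 1 [(3,1),(4,1)]) (.cons (.keep [0,3,7,9,11] (.node (.cons (.leaf 1 [(2,1),(4,1)]) (.cons (.leaf 1 [(2,1),(4,1)]) (.cons (.leaf 1 [(8,2),(4,1)]) (.cons (.leaf 1 [(8,2),(4,1)]) (.cons (.leaf 1 [(8,2),(4,1),(10,1)]) (.cons (.leaf 1 [(8,2),(4,1),(10,1)]) (.cons (.leaf 1 [(8,1),(11,1)]) (.cons (.leaf 1 [(8,2),(0,1),(11,1)]) .nil)))))))))) (.cons (.leaf 1 [(4,1),(8,1)]) (.cons (.leaf 1 [(3,1),(11,1)]) (.cons (.leaf 1 [(4,1),(8,1)]) (.cons (.keep [1,4,7,8,11] (.node (.cons (.leaf 1 [(4,1)]) (.cons (.leaf 1 [(4,1)]) (.cons (.leaf 1 [(4,1),(10,1)]) (.cons (.leaf 1 [(4,1),(10,1)]) (.cons (.leaf 1 [(8,1),(4,1),(10,1)]) (.cons (.leaf 1 [(8,1),(4,1),(10,1)]) (.cons (.leaf 1 [(11,1),(10,1)]) (.cons (.leaf 1 [(0,1),(10,1),(11,1)]) .nil)))))))))) (.cons (.leaf 1 [(8,1)]) (.cons (.keep [0,3,5,8,10,11]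 (.node (.cons (.leaf 1 [(8,1),(4,1)]) (.cons (.leaf 1 [(8,1),(4,1)]) (.cons (.leaf 1 [(8,1),(4,1),(10,1)]) (.cons (.leaf 1 [(8,1),(4,1),(10,1)]) (.cons (.leaf 1 [(10,1),(4,1)]) (.cons (.leaf 1 [(10,1),(4,1)]) (.cons (.leaf 1 [(10,1),(12,1)]) (.cons (.leaf 1 [(8,1),(0,1),(10,1),(12,1)]) .nil)))))))))) .nil)))))))))) (.cons (.keep [5,7,8,9,10] (.node (.cons (.leaf 1 [(4,2)]) (.cons (.keep [4,7,8,10,11] (.node (.cons (.leaf 1 [(3,1),(4,1)]) (.cons (.leaf 1 [(3,1),(4,1)]) (.cons (.leaf 1 [(4,1),(7,2),(8,1)]) (.cons (.leaf 1 [(4,1),(7,2),(8,1)]) (.cons (.leaf 1 [(7,2),(4,1)]) (.cons (.leaf 1 [(7,2),(4,1)]) (.cons (.leaf 1 [(7,1),(11,1)]) (.cons (.leaf 1 [(7,2),(0,1),(11,1)]) .nil)))))))))) (.cons (.leaf 1 [(4,1),(9,1)]) (.cons (.leaf 1 [(4,1),(11,1)]) (.cons (.leaf 1 [(4,1),(9,1)])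 (.cons (.keep [0,1,8,9,11] (.node (.cons (.leaf 1 [(8,1),(3,1),(4,1)]) (.cons (.leaf 1 [(8,1),(3,1),(4,1)]) (.cons (.leaf 1 [(4,1),(10,1)]) (.cons (.leaf 1 [(4,1),(10,1)]) (.cons (.leaf 1 [(8,1),(10,2),(4,1)]) (.cons (.leaf 1 [(8,1),(10,2),(4,1)]) (.cons (.leaf 1 [(11,1),(10,1)]) (.cons (.leaf 1 [(8,1),(10,2),(0,1),(11,1)]) .nil)))))))))) (.cons (.leaf 1 [(9,1)]) (.cons (.keep [3,8,9,10,11] (.node (.cons (.leaf 1 [(4,1)]) (.cons (.leaf 1 [(4,1)]) (.cons (.leaf 1 [(4,1),(7,1),(9,1)]) (.cons (.leaf 1 [(4,1),(7,1),(9,1)]) (.cons (.leaf 1 [(4,1),(9,1)]) (.cons (.leaf 1 [(4,1),(9,1)]) (.cons (.leaf 1 [(11,1),(9,1)]) (.cons (.leaf 1 [(0,1),(9,1),(11,1)]) .nil)))))))))) .nil)))))))))) (.cons (.leaf 1 [(1,1),(4,1)]) (.cons (.leaf 1 [(1,1),(8,1)]) (.cons (.leaf 1 [(1,1),(4,1),(10,1)]) (.cons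 (.leaf 1 [(1,1),(8,1),(10,1)]) (.cons (.keep [1,6,7,10] (.node (.cons (.leaf 1 [(4,1)]) (.cons (.keep [3,7,8,9,10] (.node (.cons (.leaf 1 [(4,1)]) (.cons (.leaf 1 [(4,1)]) (.cons (.leaf 1 [(4,1),(7,1)]) (.cons (.leaf 1 [(4,1),(7,1)]) (.cons (.leaf 1 [(9,1),(4,1),(7,1)]) (.cons (.leaf 1 [(9,1),(4,1),(7,1)]) (.cons (.leaf 1 [(11,1)]) (.cons (.leaf 1 [(0,1),(11,1)]) .nil)))))))))) (.cons (.leaf 1 [(4,1)]) (.cons (.leaf 1 [(1,1),(10,1)]) (.cons (.leaf 1 [(4,1)]) (.cons (.keep [0,1,4,9,10] (.node (.cons (.leaf 1 [(8,1),(4,1)]) (.cons (.leaf 1 [(8,1),(4,1)]) (.cons (.leaf 1 [(4,1)]) (.cons (.leaf 1 [(4,1)]) (.cons (.leaf 1 [(9,1),(4,1)]) (.cons (.leaf 1 [(9,1),(4,1)]) (.cons (.leaf 1 [(11,1)]) (.cons (.leaf 1 [(8,1),(0,1),(11,1)]) .nil)))))))))) (.cons (.leaf 1 []) (.cons (.keep [0,3,7,9,10]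 (.node (.cons (.leaf 1 [(9,1),(8,1),(4,1)]) (.cons (.leaf 1 [(9,1),(8,1),(4,1)]) (.cons (.leaf 1 [(4,1),(8,1)]) (.cons (.leaf 1 [(4,1),(8,1)]) (.cons (.leaf 1 [(4,1)]) (.cons (.leaf 1 [(4,1)]) (.cons (.leaf 1 [(11,1)]) (.cons (.leaf 1 [(9,1),(8,1),(0,1),(11,1)]) .nil)))))))))) .nil)))))))))) (.cons (.keep [1,5,7,8,10] (.node (.cons (.leaf 1 [(7,1),(4,2)]) (.cons (.keep [0,4,7,9,11] (.node (.cons (.leaf 1 [(9,1),(3,1),(4,1)]) (.cons (.leaf 1 [(9,1),(3,1),(4,1)]) (.cons (.leaf 1 [(4,1),(8,1)]) (.cons (.leaf 1 [(4,1),(8,1)]) (.cons (.leaf 1 [(9,1),(8,2),(4,1)]) (.cons (.leaf 1 [(9,1),(8,2),(4,1)]) (.cons (.leaf 1 [(9,1),(8,1),(11,1)]) (.cons (.leaf 1 [(9,2),(8,2),(0,1),(11,1)]) .nil)))))))))) (.cons (.leaf 1 [(4,1),(10,1)]) (.cons (.leaf 1 [(4,1),(7,1),(11,1)]) (.cons (.leaf 1 [(4,2)])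 (.cons (.keep [0,1,4,9,11] (.node (.cons (.leaf 1 [(8,2),(3,1),(4,1)]) (.cons (.leaf 1 [(8,2),(3,1),(4,1)]) (.cons (.leaf 1 [(4,1),(3,1)]) (.cons (.leaf 1 [(4,1),(3,1)]) (.cons (.leaf 1 [(4,1),(9,2)]) (.cons (.leaf 1 [(4,1),(9,2)]) (.cons (.leaf 1 [(11,1),(9,1)]) (.cons (.leaf 1 [(8,1),(9,2),(0,1),(11,1)]) .nil)))))))))) (.cons (.leaf 1 [(10,1)]) (.cons (.keep [0,3,7,9,10,11] (.node (.cons (.leaf 1 [(9,1),(4,1)]) (.cons (.leaf 1 [(9,1),(4,1)]) (.cons (.leaf 1 [(4,1)]) (.cons (.leaf 1 [(4,1)]) (.cons (.leaf 1 [(11,1),(4,1)]) (.cons (.leaf 1 [(11,1),(4,1)]) (.cons (.leaf 1 [(11,1),(12,1)]) (.cons (.leaf 1 [(9,1),(0,1),(11,1),(12,1)]) .nil)))))))))) .nil)))))))))) .nil)))))))))) (.cons (.leaf 1 [(7,1),(1,1)]) (.cons (.leaf 1 [(7,1),(1,1)]) (.cons (.leaf 1 [(7,1),(10,1),(1,1)]) (.cons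 (.leaf 1 [(7,1),(10,1),(1,1)]) .nil)))))))))) (.cons (.keep [1,2,5,7,9] (.leaf 0 [(4,0)])) (.cons (.leaf 1 [(8,2),(1,2)]) (.cons (.leaf 1 [(8,2),(5,1),(1,2)]) .nil)))))))))

theorem c_15_24_16 : Concl 15 24 z_15_24_16 h_15_24_16 .nd := piece _ (hP_cons E43.c_15_24_15
  (hP_cons E42.c_15_24_11 (hP_cons E42.c_15_24_13 (hP_cons E42.c_15_24_12 (hP_cons E42.c_15_24_14
  hP_nil))))) t_15_24_16 _ _ (by decide +kernel)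

def z_15_24_22 : F := ⟨1, -1, 0, 0, 1⟩

def h_15_24_22 : List F := [⟨1, 0, -1, 0, 0⟩, ⟨0, 0, 1, -1, 0⟩, ⟨0, 0, 1, 0, 1⟩, ⟨0, 1, -1, 0, 0⟩,
  ⟨0, -1, 0, 0, 1⟩]

def t_15_24_22 : T := (.node (.cons (.keep [2,6,8,9,10] (.leaf 0 [(0,0)])) (.cons (.keep [2,5,7,9,10] (.leaf 0 [(1,0)])) (.cons (.keep [3,6,8,9,11] (.leaf 0 [(2,0)])) (.cons (.keep [3,5,7,9,11] (.node (.cons (.leaf 1 [(11,1)]) (.cons (.keep [7,8,9,10,11] (.node (.cons (.keep [3,4,6,8,11] (.node (.cons (.leaf 1 [(4,1),(10,1)]) (.cons (.keep [0,2,3,9,10,11] (.node (.cons (.leaf 1 [(4,1)]) (.cons (.leaf 1 [(11,1),(4,1)]) (.cons (.leaf 1 [(4,1)]) (.cons (.leaf 1 [(4,1),(11,1),(0,1)]) (.cons (.leaf 1 [(4,1)]) (.cons (.leaf 1 [(4,1),(11,1),(0,1)]) (.cons (.leaf 1 []) (.cons (.leaf 1 [(11,1),(0,1)]) .nil)))))))))) (.cons (.leaf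 1 [(1,1)]) (.cons (.leaf 1 [(1,1)]) (.cons (.leaf 1 [(4,1),(10,1)]) (.cons (.keep [0,1,4,7,10] (.node (.cons (.leaf 1 [(4,1)]) (.cons (.leaf 1 [(8,1),(11,1),(4,1)]) (.cons (.leaf 1 [(4,1)]) (.cons (.leaf 1 [(4,1),(11,1)]) (.cons (.leaf 1 [(4,1)]) (.cons (.leaf 1 [(8,1),(4,1),(11,1),(0,1)]) (.cons (.leaf 1 []) (.cons (.leaf 1 [(8,1),(11,1),(0,1)]) .nil)))))))))) (.cons (.leaf 1 [(10,1)]) (.cons (.keep [0,3,7,10,11] (.node (.cons (.leaf 1 [(4,1)]) (.cons (.leaf 1 [(11,1),(8,1),(10,1),(4,1)]) (.cons (.leaf 1 [(4,1)]) (.cons (.leaf 1 [(4,1),(8,1),(10,1)]) (.cons (.leaf 1 [(4,1)]) (.cons (.leaf 1 [(4,1),(10,1)]) (.cons (.leaf 1 []) (.cons (.leaf 1 [(11,1),(8,1),(10,1),(0,1)]) .nil)))))))))) .nil)))))))))) (.cons (.keep [5,8,9,10,11] (.node (.cons (.leaf 1 [(4,1),(8,1)]) (.cons (.keep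 [0,4,7,8,9,11] (.node (.cons (.leaf 1 [(4,1)]) (.cons (.leaf 1 [(10,1),(4,1)]) (.cons (.leaf 1 [(4,1)]) (.cons (.leaf 1 [(4,1),(10,1),(0,1)]) (.cons (.leaf 1 [(4,1)]) (.cons (.leaf 1 [(4,1),(10,1),(0,1)]) (.cons (.leaf 1 []) (.cons (.leaf 1 [(10,1),(0,1)]) .nil)))))))))) (.cons (.leaf 1 [(1,1)]) (.cons (.leaf 1 [(1,1)]) (.cons (.leaf 1 [(4,1),(8,1)]) (.cons (.keep [0,1,7,8,9,10] (.node (.cons (.leaf 1 [(4,1)]) (.cons (.leaf 1 [(8,1),(10,1),(4,1)]) (.cons (.leaf 1 [(4,1)]) (.cons (.leaf 1 [(4,1),(10,1)]) (.cons (.leaf 1 [(4,1)]) (.cons (.leaf 1 [(8,1),(4,1),(10,1),(0,1)]) (.cons (.leaf 1 []) (.cons (.leaf 1 [(8,1),(10,1),(0,1)]) .nil)))))))))) (.cons (.leaf 1 [(8,1)]) (.cons (.keep [0,3,8,9,11] (.node (.cons (.leaf 1 [(4,1)]) (.cons (.leaf 1 [(11,1),(8,1),(9,1),(4,1)]) (.cons (.leaf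 1 [(4,1)]) (.cons (.leaf 1 [(4,1),(8,1),(9,1)]) (.cons (.leaf 1 [(4,1)]) (.cons (.leaf 1 [(4,1),(9,1)]) (.cons (.leaf 1 []) (.cons (.leaf 1 [(11,1),(8,1),(9,1),(0,1)]) .nil)))))))))) .nil)))))))))) (.cons (.leaf 1 [(1,1),(8,1)]) (.cons (.leaf 1 [(1,1),(8,1)]) (.cons (.leaf 1 [(1,1)]) (.cons (.leaf 1 [(1,1)]) (.cons (.keep [1,6,7,8,9] (.node (.cons (.leaf 1 [(4,1),(10,1)]) (.cons (.keep [0,3,7,8,10,11] (.node (.cons (.leaf 1 [(4,1)]) (.cons (.leaf 1 [(11,1),(4,1)]) (.cons (.leaf 1 [(4,1)]) (.cons (.leaf 1 [(4,1),(11,1),(0,1)]) (.cons (.leaf 1 [(4,1)]) (.cons (.leaf 1 [(4,1),(11,1),(0,1)]) (.cons (.leaf 1 []) (.cons (.leaf 1 [(11,1),(0,1)]) .nil)))))))))) (.cons (.leaf 1 [(1,1)]) (.cons (.leaf 1 [(1,1)]) (.cons (.leaf 1 [(4,1),(10,1)]) (.cons (.keep [0,1,4,10,11] (.node (.cons (.leaf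 1 [(4,1)]) (.cons (.leaf 1 [(8,1),(10,1),(4,1)]) (.cons (.leaf 1 [(4,1)]) (.cons (.leaf 1 [(4,1),(10,1)]) (.cons (.leaf 1 [(4,1)]) (.cons (.leaf 1 [(8,1),(4,1),(10,1),(0,1)]) (.cons (.leaf 1 []) (.cons (.leaf 1 [(8,1),(10,1),(0,1)]) .nil)))))))))) (.cons (.leaf 1 [(10,1)]) (.cons (.keep [0,3,7,10,11] (.node (.cons (.leaf 1 [(4,1)]) (.cons (.leaf 1 [(9,1),(8,1),(10,1),(4,1)]) (.cons (.leaf 1 [(4,1)]) (.cons (.leaf 1 [(4,1),(8,1),(10,1)]) (.cons (.leaf 1 [(4,1)]) (.cons (.leaf 1 [(4,1),(10,1)]) (.cons (.leaf 1 []) (.cons (.leaf 1 [(9,1),(8,1),(10,1),(0,1)]) .nil)))))))))) .nil)))))))))) (.cons (.keep [1,7,8,9,10] (.node (.cons (.leaf 1 [(4,1),(9,1)]) (.cons (.keep [0,7,8,9,10,11] (.node (.cons (.leaf 1 [(4,1)]) (.cons (.leaf 1 [(10,1),(4,1)]) (.cons (.leaf 1 [(4,1)]) (.cons (.leaf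 1 [(4,1),(10,1),(0,1)]) (.cons (.leaf 1 [(4,1)]) (.cons (.leaf 1 [(4,1),(10,1),(0,1)]) (.cons (.leaf 1 []) (.cons (.leaf 1 [(10,1),(0,1)]) .nil)))))))))) (.cons (.leaf 1 [(1,1)]) (.cons (.leaf 1 [(1,1)]) (.cons (.leaf 1 [(4,1),(9,1)]) (.cons (.keep [0,1,4,8,9,10] (.node (.cons (.leaf 1 [(4,1)]) (.cons (.leaf 1 [(8,1),(11,1),(4,1)]) (.cons (.leaf 1 [(4,1)]) (.cons (.leaf 1 [(4,1),(11,1)]) (.cons (.leaf 1 [(4,1)]) (.cons (.leaf 1 [(8,1),(4,1),(11,1),(0,1)]) (.cons (.leaf 1 []) (.cons (.leaf 1 [(8,1),(11,1),(0,1)]) .nil)))))))))) (.cons (.leaf 1 [(9,1)]) (.cons (.keep [0,7,8,9,10] (.node (.cons (.leaf 1 [(4,1)]) (.cons (.leaf 1 [(8,2),(9,1),(10,1),(4,1)]) (.cons (.leaf 1 [(4,1)]) (.cons (.leaf 1 [(1,1),(9,1),(10,1),(4,1)]) (.cons (.leaf 1 [(4,1)]) (.cons (.leaf 1 [(4,1),(10,1)]) (.cons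 (.leaf 1 []) (.cons (.leaf 1 [(8,2),(9,1),(10,1),(0,1)]) .nil)))))))))) .nil)))))))))) .nil)))))))))) (.cons (.leaf 1 [(1,1),(11,1)]) (.cons (.keep [1,5,7,8,11] (.node (.cons (.keep [4,6,8,10,11] (.node (.cons (.leaf 1 [(4,1),(10,1)]) (.cons (.keep [0,3,8,9,10,11] (.node (.cons (.leaf 1 [(4,1)]) (.cons (.leaf 1 [(11,1),(4,1)]) (.cons (.leaf 1 [(4,1)]) (.cons (.leaf 1 [(4,1),(11,1),(0,1)]) (.cons (.leaf 1 [(4,1)]) (.cons (.leaf 1 [(4,1),(11,1),(0,1)]) (.cons (.leaf 1 []) (.cons (.leaf 1 [(11,1),(0,1)]) .nil)))))))))) (.cons (.leaf 1 [(1,1)]) (.cons (.leaf 1 [(1,1)]) (.cons (.leaf 1 [(4,1),(10,1)]) (.cons (.keep [0,1,2,4,10] (.node (.cons (.leaf 1 [(4,1)]) (.cons (.leaf 1 [(8,1),(11,1),(4,1)]) (.cons (.leaf 1 [(4,1)]) (.cons (.leaf 1 [(4,1),(11,1)]) (.cons (.leaf 1 [(4,1)]) (.cons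 (.leaf 1 [(8,1),(4,1),(11,1),(0,1)]) (.cons (.leaf 1 []) (.cons (.leaf 1 [(8,1),(11,1),(0,1)]) .nil)))))))))) (.cons (.leaf 1 [(10,1)]) (.cons (.keep [0,3,9,10,11] (.node (.cons (.leaf 1 [(4,1)]) (.cons (.leaf 2 [(11,1),(8,2),(10,2),(4,2)]) (.cons (.leaf 1 [(4,1)]) (.cons (.leaf 1 [(4,1),(8,1),(10,1)]) (.cons (.leaf 1 [(4,1)]) (.cons (.leaf 1 [(4,1),(10,1)]) (.cons (.leaf 1 []) (.cons (.leaf 2 [(11,1),(8,2),(10,2),(0,2)]) .nil)))))))))) .nil)))))))))) (.cons (.keep [5,7,8,10,11] (.node (.cons (.leaf 1 [(4,1),(10,1)]) (.cons (.keep [0,4,7,9,10,11] (.node (.cons (.leaf 1 [(4,1)]) (.cons (.leaf 1 [(11,1),(4,1)]) (.cons (.leaf 1 [(4,1)]) (.cons (.leaf 1 [(4,1),(11,1),(0,1)]) (.cons (.leaf 1 [(4,1)]) (.cons (.leaf 1 [(4,1),(11,1),(0,1)]) (.cons (.leaf 1 []) (.cons (.leaf 1 [(11,1),(0,1)])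 .nil)))))))))) (.cons (.leaf 1 [(1,1)]) (.cons (.leaf 1 [(1,1)]) (.cons (.leaf 1 [(4,1),(10,1)]) (.cons (.keep [0,5,8,10,11] (.node (.cons (.leaf 1 [(4,1)]) (.cons (.leaf 1 [(11,1),(4,1),(10,1),(3,1)]) (.cons (.leaf 1 [(4,1)]) (.cons (.leaf 1 [(4,1),(10,1)]) (.cons (.leaf 1 [(4,1)]) (.cons (.leaf 1 [(11,1),(4,1),(10,1),(0,2)]) (.cons (.leaf 1 []) (.cons (.leaf 1 [(11,1),(10,1),(3,1),(0,2)]) .nil)))))))))) (.cons (.leaf 1 [(10,1)]) (.cons (.keep [0,3,9,10,11] (.node (.cons (.leaf 1 [(4,1)]) (.cons (.leaf 1 [(11,1),(2,1),(10,1),(4,1)]) (.cons (.leaf 1 [(4,1)]) (.cons (.leaf 1 [(4,1),(8,1),(10,1)]) (.cons (.leaf 1 [(4,1)]) (.cons (.leaf 1 [(4,1),(10,1)]) (.cons (.leaf 1 []) (.cons (.leaf 1 [(11,1),(2,1),(10,1),(0,2)]) .nil)))))))))) .nil)))))))))) (.cons (.leaf 1 [(1,1),(10,1)]) (.cons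 (.leaf 1 [(1,1),(10,1)]) (.cons (.leaf 1 [(1,1)]) (.cons (.leaf 1 [(1,1)]) (.cons (.keep [1,3,6,9,10] (.node (.cons (.leaf 1 [(4,1),(11,1)]) (.cons (.keep [0,3,7,8,9,11] (.node (.cons (.leaf 1 [(4,1)]) (.cons (.leaf 1 [(12,1),(4,1)]) (.cons (.leaf 1 [(4,1)]) (.cons (.leaf 1 [(4,1),(12,1),(0,1)]) (.cons (.leaf 1 [(4,1)]) (.cons (.leaf 1 [(4,1),(12,1),(0,1)]) (.cons (.leaf 1 []) (.cons (.leaf 1 [(12,1),(0,1)]) .nil)))))))))) (.cons (.leaf 1 [(1,1)]) (.cons (.leaf 1 [(1,1)]) (.cons (.leaf 1 [(4,1),(11,1)]) (.cons (.keep [0,1,2,4,11] (.node (.cons (.leaf 1 [(4,1)]) (.cons (.leaf 1 [(8,1),(11,1),(4,1)]) (.cons (.leaf 1 [(4,1)]) (.cons (.leaf 1 [(4,1),(11,1)]) (.cons (.leaf 1 [(4,1)]) (.cons (.leaf 1 [(8,1),(4,1),(11,1),(0,1)]) (.cons (.leaf 1 []) (.cons (.leaf 1 [(8,1),(11,1),(0,1)])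 .nil)))))))))) (.cons (.leaf 1 [(11,1)]) (.cons (.keep [0,3,7,8,11] (.node (.cons (.leaf 1 [(4,1)]) (.cons (.leaf 1 [(9,1),(8,1),(11,1),(4,1)]) (.cons (.leaf 1 [(4,1)]) (.cons (.leaf 1 [(4,1),(8,1),(11,1)]) (.cons (.leaf 1 [(4,1)]) (.cons (.leaf 1 [(4,1),(11,1)]) (.cons (.leaf 1 []) (.cons (.leaf 1 [(9,1),(8,1),(11,1),(0,1)]) .nil)))))))))) .nil)))))))))) (.cons (.keep [3,7,9,10,11] (.node (.cons (.leaf 1 [(4,1),(10,1)]) (.cons (.keep [0,3,7,8,10,11] (.node (.cons (.leaf 1 [(4,1)]) (.cons (.leaf 1 [(11,1),(4,1)]) (.cons (.leaf 1 [(4,1)]) (.cons (.leaf 1 [(4,1),(11,1),(0,1)]) (.cons (.leaf 1 [(4,1)]) (.cons (.leaf 1 [(4,1),(11,1),(0,1)]) (.cons (.leaf 1 []) (.cons (.leaf 1 [(11,1),(0,1)]) .nil)))))))))) (.cons (.leaf 1 [(1,1)]) (.cons (.leaf 1 [(1,1)]) (.cons (.leaf 1 [(4,1),(10,1)])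 (.cons (.keep [0,4,5,10,11] (.node (.cons (.leaf 1 [(4,1)]) (.cons (.leaf 1 [(8,1),(11,1),(10,1),(4,1)]) (.cons (.leaf 1 [(4,1)]) (.cons (.leaf 1 [(4,1),(10,1)]) (.cons (.leaf 1 [(4,1)]) (.cons (.leaf 1 [(8,1),(4,1),(10,1)]) (.cons (.leaf 1 []) (.cons (.leaf 1 [(8,1),(11,1),(10,1),(0,1)]) .nil)))))))))) (.cons (.leaf 1 [(10,1)]) (.cons (.keep [0,1,7,8,9,10] (.node (.cons (.leaf 1 [(4,1)]) (.cons (.leaf 1 [(8,1),(12,1),(4,1)]) (.cons (.leaf 1 [(4,1)]) (.cons (.leaf 1 [(4,1),(8,1),(12,1),(0,1)]) (.cons (.leaf 1 [(4,1)]) (.cons (.leaf 1 [(4,1),(12,1)]) (.cons (.leaf 1 []) (.cons (.leaf 1 [(8,1),(12,1),(0,1)]) .nil)))))))))) .nil)))))))))) .nil)))))))))) (.cons (.leaf 1 [(1,1),(8,1)]) (.cons (.leaf 1 [(1,1),(8,1)]) (.cons (.leaf 1 [(1,1)]) (.cons (.leaf 1 [(1,1)]) .nil)))))))))) (.cons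 (.keep [1,6,7,10,11] (.leaf 0 [(3,0)])) (.cons (.keep [1,5,7,10,11] (.leaf 0 [(4,0)])) (.cons (.leaf 1 [(10,1),(8,1),(1,1)]) (.cons (.leaf 1 [(10,1),(8,1),(5,1),(1,1)]) .nil)))))))))

theorem c_15_24_22 : Concl 15 24 z_15_24_22 h_15_24_22 .nd := piece _ (hP_cons E43.c_15_24_18
  (hP_cons E43.c_15_24_17 (hP_cons E43.c_15_24_21 (hP_cons E43.c_15_24_20 (hP_cons E43.c_15_24_19
  hP_nil))))) t_15_24_22 _ _ (by decide +kernel)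

def z_15_24_28 : F := ⟨1, 0, -1, 0, 1⟩

def h_15_24_28 : List F := [⟨1, 0, -1, 0, 0⟩, ⟨0, 0, 1, -1, 0⟩, ⟨0, 0, 1, 0, 1⟩, ⟨0, -1, 1, 0, 0⟩,
  ⟨0, 0, -1, 0, 1⟩]

def t_15_24_28 : T := (.node (.cons (.keep [3,6,8,9,10] (.leaf 0 [(0,0)])) (.cons (.keep [3,5,7,9,10] (.leaf 0 [(1,0)])) (.cons (.keep [3,6,8,9,10,11] (.leaf 0 [(2,0)])) (.cons (.keep [3,5,7,9,10,11] (.leaf 0 [(3,0)])) (.cons (.keep [1,2,6,7,11] (.leaf 0 [(4,0)])) (.cons (.keep [0,1,2,5,11] (.node (.cons (.leaf 1 [(9,1),(2,1)]) (.cons (.keep [0,2,8,9,10] (.node (.cons (.keep [4,6,7,8,11] (.node (.cons (.leaf 1 [(4,1),(11,1)]) (.cons (.keep [0,3,8,9,10,11] (.node (.cons (.leaf 1 [(4,1)]) (.cons (.leaf 1 [(12,1),(4,1)]) (.cons (.leaf 1 [(4,1)]) (.cons (.leaf 1 [(4,1),(12,1),(0,1)]) (.cons (.leaf 1 [(4,1)]) (.cons (.leaf 1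 [(4,1),(12,1),(0,1)]) (.cons (.leaf 1 []) (.cons (.leaf 1 [(12,1),(0,1)]) .nil)))))))))) (.cons (.leaf 1 [(1,1)]) (.cons (.leaf 1 [(1,1)]) (.cons (.leaf 1 [(4,1),(11,1)]) (.cons (.keep [0,1,4,9,11] (.node (.cons (.leaf 1 [(4,1)]) (.cons (.leaf 1 [(8,1),(11,1),(4,1)]) (.cons (.leaf 1 [(4,1)]) (.cons (.leaf 1 [(4,1),(11,1)]) (.cons (.leaf 1 [(4,1)]) (.cons (.leaf 1 [(8,1),(4,1),(11,1),(0,1)]) (.cons (.leaf 1 []) (.cons (.leaf 1 [(8,1),(11,1),(0,1)]) .nil)))))))))) (.cons (.leaf 1 [(11,1)]) (.cons (.keep [0,3,9,10,11] (.node (.cons (.leaf 1 [(4,1)]) (.cons (.leaf 1 [(10,1),(8,1),(11,1),(4,1)]) (.cons (.leaf 1 [(4,1)]) (.cons (.leaf 1 [(4,1),(8,1),(11,1)]) (.cons (.leaf 1 [(4,1)]) (.cons (.leaf 1 [(4,1),(11,1)]) (.cons (.leaf 1 []) (.cons (.leaf 1 [(10,1),(8,1),(11,1),(0,1)]) .nil))))))))))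 .nil)))))))))) (.cons (.keep [5,7,8,9,10,11] (.node (.cons (.leaf 1 [(3,1),(11,1),(12,1)]) (.cons (.keep [0,4,7,8,9,11,12] (.node (.cons (.leaf 1 [(4,1)]) (.cons (.leaf 1 [(13,1),(4,1)]) (.cons (.leaf 1 [(4,1)]) (.cons (.leaf 1 [(4,1),(13,1),(0,1)]) (.cons (.leaf 1 [(4,1)]) (.cons (.leaf 1 [(4,1),(13,1),(0,1)]) (.cons (.leaf 1 []) (.cons (.leaf 1 [(13,1),(0,1)]) .nil)))))))))) (.cons (.leaf 1 [(1,1)]) (.cons (.leaf 1 [(1,1)]) (.cons (.leaf 1 [(4,1),(12,1)]) (.cons (.keep [0,4,8,9,12] (.node (.cons (.leaf 1 [(4,1)]) (.cons (.leaf 1 [(8,1),(10,1),(11,1),(4,1)]) (.cons (.leaf 1 [(4,1)]) (.cons (.leaf 1 [(4,1),(11,1)]) (.cons (.leaf 1 [(4,1)]) (.cons (.leaf 1 [(8,1),(4,1),(11,1)]) (.cons (.leaf 1 []) (.cons (.leaf 1 [(8,1),(10,1),(11,1),(0,1)]) .nil)))))))))) (.cons (.leaf 1 [(12,1)])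 (.cons (.keep [0,1,3,8,11,12] (.node (.cons (.leaf 1 [(4,1)]) (.cons (.leaf 1 [(8,1),(12,1),(4,1)]) (.cons (.leaf 1 [(4,1)]) (.cons (.leaf 1 [(4,1),(8,1),(12,1),(0,1)]) (.cons (.leaf 1 [(4,1)]) (.cons (.leaf 1 [(4,1),(12,1)]) (.cons (.leaf 1 []) (.cons (.leaf 1 [(8,1),(12,1),(0,1)]) .nil)))))))))) .nil)))))))))) (.cons (.leaf 1 [(1,1),(11,1)]) (.cons (.leaf 1 [(1,1),(11,1)]) (.cons (.leaf 1 [(1,1)]) (.cons (.leaf 1 [(1,1)]) (.cons (.keep [1,6,7,11] (.node (.cons (.leaf 1 [(4,1),(10,1)]) (.cons (.keep [0,3,7,8,9,10] (.node (.cons (.leaf 1 [(4,1)]) (.cons (.leaf 1 [(12,1),(4,1)]) (.cons (.leaf 1 [(4,1)]) (.cons (.leaf 1 [(4,1),(12,1),(0,1)]) (.cons (.leaf 1 [(4,1)]) (.cons (.leaf 1 [(4,1),(12,1),(0,1)]) (.cons (.leaf 1 []) (.cons (.leaf 1 [(12,1),(0,1)]) .nil)))))))))) (.cons (.leaf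 1 [(1,1)]) (.cons (.leaf 1 [(1,1)]) (.cons (.leaf 1 [(4,1),(10,1)]) (.cons (.keep [0,1,4,9,10] (.node (.cons (.leaf 1 [(4,1)]) (.cons (.leaf 1 [(8,1),(11,1),(4,1)]) (.cons (.leaf 1 [(4,1)]) (.cons (.leaf 1 [(4,1),(11,1)]) (.cons (.leaf 1 [(4,1)]) (.cons (.leaf 1 [(8,1),(4,1),(11,1),(0,1)]) (.cons (.leaf 1 []) (.cons (.leaf 1 [(8,1),(11,1),(0,1)]) .nil)))))))))) (.cons (.leaf 1 [(10,1)]) (.cons (.keep [0,3,7,9,10] (.node (.cons (.leaf 1 [(4,1)]) (.cons (.leaf 1 [(9,1),(8,1),(11,1),(4,1)]) (.cons (.leaf 1 [(4,1)]) (.cons (.leaf 1 [(4,1),(8,1),(11,1)]) (.cons (.leaf 1 [(4,1)]) (.cons (.leaf 1 [(4,1),(11,1)]) (.cons (.leaf 1 []) (.cons (.leaf 1 [(9,1),(8,1),(11,1),(0,1)]) .nil)))))))))) .nil)))))))))) (.cons (.keep [5,7,9,10,11] (.node (.cons (.leaf 1 [(3,2),(10,1),(11,1)]) (.cons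 (.keep [0,4,7,8,10,11] (.node (.cons (.leaf 1 [(4,1)]) (.cons (.leaf 1 [(12,1),(4,1)]) (.cons (.leaf 1 [(4,1)]) (.cons (.leaf 1 [(4,1),(12,1),(0,1)]) (.cons (.leaf 1 [(4,1)]) (.cons (.leaf 1 [(4,1),(12,1),(0,1)]) (.cons (.leaf 1 []) (.cons (.leaf 1 [(12,1),(0,1)]) .nil)))))))))) (.cons (.leaf 1 [(1,1)]) (.cons (.leaf 1 [(1,1)]) (.cons (.leaf 1 [(4,1),(11,1)]) (.cons (.keep [0,7,8,10,11] (.node (.cons (.leaf 1 [(4,1)]) (.cons (.leaf 1 [(10,1),(8,1),(11,1),(4,1)]) (.cons (.leaf 1 [(4,1)]) (.cons (.leaf 1 [(4,1),(11,1)]) (.cons (.leaf 1 [(4,1)]) (.cons (.leaf 2 [(10,1),(4,2),(11,2),(0,1)]) (.cons (.leaf 1 []) (.cons (.leaf 1 [(10,1),(8,1),(11,1),(0,1)]) .nil)))))))))) (.cons (.leaf 1 [(11,1)]) (.cons (.keep [0,3,8,10,11] (.node (.cons (.leaf 1 [(4,1)]) (.cons (.leaf 1 [(10,1),(8,2),(11,1),(4,1)])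 (.cons (.leaf 1 [(4,1)]) (.cons (.leaf 1 [(4,1),(8,1),(11,1)]) (.cons (.leaf 1 [(4,1)]) (.cons (.leaf 1 [(4,1),(11,1)]) (.cons (.leaf 1 []) (.cons (.leaf 1 [(10,1),(8,2),(11,1),(0,1)]) .nil)))))))))) .nil)))))))))) .nil)))))))))) (.cons (.leaf 1 [(9,1)]) (.cons (.keep [0,1,9,10,11] (.node (.cons (.keep [4,6,7,9,10] (.node (.cons (.leaf 1 [(4,1),(11,1)]) (.cons (.keep [0,3,8,9,10,11] (.node (.cons (.leaf 1 [(4,1)]) (.cons (.leaf 1 [(12,1),(4,1)]) (.cons (.leaf 1 [(4,1)]) (.cons (.leaf 1 [(4,1),(12,1),(0,1)]) (.cons (.leaf 1 [(4,1)]) (.cons (.leaf 1 [(4,1),(12,1),(0,1)]) (.cons (.leaf 1 []) (.cons (.leaf 1 [(12,1),(0,1)]) .nil)))))))))) (.cons (.leaf 1 [(1,1)]) (.cons (.leaf 1 [(1,1)]) (.cons (.leaf 1 [(4,1),(11,1)]) (.cons (.keep [0,1,4,9,11] (.node (.cons (.leaf 1 [(4,1)]) (.cons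 (.leaf 1 [(8,1),(11,1),(4,1)]) (.cons (.leaf 1 [(4,1)]) (.cons (.leaf 1 [(4,1),(11,1)]) (.cons (.leaf 1 [(4,1)]) (.cons (.leaf 1 [(8,1),(4,1),(11,1),(0,1)]) (.cons (.leaf 1 []) (.cons (.leaf 1 [(8,1),(11,1),(0,1)]) .nil)))))))))) (.cons (.leaf 1 [(11,1)]) (.cons (.keep [0,3,9,10,11] (.node (.cons (.leaf 1 [(4,1)]) (.cons (.leaf 1 [(10,1),(8,1),(11,1),(4,1)]) (.cons (.leaf 1 [(4,1)]) (.cons (.leaf 1 [(4,1),(8,1),(11,1)]) (.cons (.leaf 1 [(4,1)]) (.cons (.leaf 1 [(4,1),(11,1)]) (.cons (.leaf 1 []) (.cons (.leaf 1 [(10,1),(8,1),(11,1),(0,1)]) .nil)))))))))) .nil)))))))))) (.cons (.keep [5,7,8,9,10] (.node (.cons (.leaf 1 [(4,1),(11,1)]) (.cons (.keep [0,4,7,8,10,11] (.node (.cons (.leaf 1 [(4,1)]) (.cons (.leaf 1 [(12,1),(4,1)]) (.cons (.leaf 1 [(4,1)]) (.cons (.leaf 1 [(4,1),(12,1),(0,1)])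 (.cons (.leaf 1 [(4,1)]) (.cons (.leaf 1 [(4,1),(12,1),(0,1)]) (.cons (.leaf 1 []) (.cons (.leaf 1 [(12,1),(0,1)]) .nil)))))))))) (.cons (.leaf 1 [(1,1)]) (.cons (.leaf 1 [(1,1)]) (.cons (.leaf 1 [(4,1),(11,1)]) (.cons (.keep [0,1,7,8,9,11] (.node (.cons (.leaf 1 [(4,1)]) (.cons (.leaf 1 [(8,1),(12,1),(4,1)]) (.cons (.leaf 1 [(4,1)]) (.cons (.leaf 1 [(4,1),(12,1)]) (.cons (.leaf 1 [(4,1)]) (.cons (.leaf 1 [(8,1),(4,1),(12,1),(0,1)]) (.cons (.leaf 1 []) (.cons (.leaf 1 [(8,1),(12,1),(0,1)]) .nil)))))))))) (.cons (.leaf 1 [(11,1)]) (.cons (.keep [0,3,8,10,11] (.node (.cons (.leaf 1 [(4,1)]) (.cons (.leaf 1 [(10,1),(8,1),(11,1),(4,1)]) (.cons (.leaf 1 [(4,1)]) (.cons (.leaf 1 [(4,1),(8,1),(11,1)]) (.cons (.leaf 1 [(4,1)]) (.cons (.leaf 1 [(4,1),(11,1)]) (.cons (.leaf 1 []) (.cons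 (.leaf 1 [(10,1),(8,1),(11,1),(0,1)]) .nil)))))))))) .nil)))))))))) (.cons (.leaf 1 [(1,1),(10,1)]) (.cons (.leaf 1 [(1,1),(10,1)]) (.cons (.leaf 1 [(1,1)]) (.cons (.leaf 1 [(1,1)]) (.cons (.keep [1,6,7,10] (.node (.cons (.leaf 1 [(4,1),(10,1)]) (.cons (.keep [0,3,7,8,9,10] (.node (.cons (.leaf 1 [(4,1)]) (.cons (.leaf 1 [(12,1),(4,1)]) (.cons (.leaf 1 [(4,1)]) (.cons (.leaf 1 [(4,1),(12,1),(0,1)]) (.cons (.leaf 1 [(4,1)]) (.cons (.leaf 1 [(4,1),(12,1),(0,1)]) (.cons (.leaf 1 []) (.cons (.leaf 1 [(12,1),(0,1)]) .nil)))))))))) (.cons (.leaf 1 [(1,1)]) (.cons (.leaf 1 [(1,1)]) (.cons (.leaf 1 [(4,1),(10,1)]) (.cons (.keep [0,1,4,9,10] (.node (.cons (.leaf 1 [(4,1)]) (.cons (.leaf 1 [(8,1),(11,1),(4,1)]) (.cons (.leaf 1 [(4,1)]) (.cons (.leaf 1 [(4,1),(11,1)]) (.cons (.leaf 1 [(4,1)])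 (.cons (.leaf 1 [(8,1),(4,1),(11,1),(0,1)]) (.cons (.leaf 1 []) (.cons (.leaf 1 [(8,1),(11,1),(0,1)]) .nil)))))))))) (.cons (.leaf 1 [(10,1)]) (.cons (.keep [0,3,7,9,10] (.node (.cons (.leaf 1 [(4,1)]) (.cons (.leaf 1 [(9,1),(8,1),(11,1),(4,1)]) (.cons (.leaf 1 [(4,1)]) (.cons (.leaf 1 [(4,1),(8,1),(11,1)]) (.cons (.leaf 1 [(4,1)]) (.cons (.leaf 1 [(4,1),(11,1)]) (.cons (.leaf 1 []) (.cons (.leaf 1 [(9,1),(8,1),(11,1),(0,1)]) .nil)))))))))) .nil)))))))))) (.cons (.keep [1,5,7,8,10] (.node (.cons (.leaf 1 [(4,1),(11,1)]) (.cons (.keep [0,4,7,8,9,11] (.node (.cons (.leaf 1 [(4,1)]) (.cons (.leaf 1 [(12,1),(4,1)]) (.cons (.leaf 1 [(4,1)]) (.cons (.leaf 1 [(4,1),(12,1),(0,1)]) (.cons (.leaf 1 [(4,1)]) (.cons (.leaf 1 [(4,1),(12,1),(0,1)]) (.cons (.leaf 1 []) (.cons (.leaf 1 [(12,1),(0,1)])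 .nil)))))))))) (.cons (.leaf 1 [(1,1)]) (.cons (.leaf 1 [(1,1)]) (.cons (.leaf 1 [(4,1),(11,1)]) (.cons (.keep [0,1,4,8,9,11] (.node (.cons (.leaf 1 [(4,1)]) (.cons (.leaf 1 [(8,1),(12,1),(4,1)]) (.cons (.leaf 1 [(4,1)]) (.cons (.leaf 1 [(4,1),(12,1)]) (.cons (.leaf 1 [(4,1)]) (.cons (.leaf 1 [(8,1),(4,1),(12,1),(0,1)]) (.cons (.leaf 1 []) (.cons (.leaf 1 [(8,1),(12,1),(0,1)]) .nil)))))))))) (.cons (.leaf 1 [(11,1)]) (.cons (.keep [0,3,7,9,11] (.node (.cons (.leaf 1 [(4,1)]) (.cons (.leaf 1 [(9,1),(8,1),(11,1),(4,1)]) (.cons (.leaf 1 [(4,1)]) (.cons (.leaf 1 [(4,1),(8,1),(11,1)]) (.cons (.leaf 1 [(4,1)]) (.cons (.leaf 1 [(4,1),(11,1)]) (.cons (.leaf 1 []) (.cons (.leaf 1 [(9,1),(8,1),(11,1),(0,1)]) .nil)))))))))) .nil)))))))))) .nil)))))))))) (.cons (.leaf 1 [(9,1),(2,1)]) (.cons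 (.leaf 1 [(1,1),(10,1)]) (.cons (.leaf 1 [(1,1)]) (.cons (.leaf 1 [(1,1)]) .nil)))))))))) (.cons (.leaf 1 [(8,1),(1,1)]) (.cons (.leaf 1 [(8,1),(5,1),(1,1)]) .nil)))))))))

theorem c_15_24_28 : Concl 15 24 z_15_24_28 h_15_24_28 .nd := piece _ (hP_cons E44.c_15_24_26
  (hP_cons E44.c_15_24_24 (hP_cons E44.c_15_24_25 (hP_cons E43.c_15_24_23 (hP_cons E44.c_15_24_27
  hP_nil))))) t_15_24_28 _ _ (by decide +kernel)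

def z_15_24_29 : F := ⟨1, 0, 0, -1, 1⟩

def h_15_24_29 : List F := [⟨1, 0, 0, 0, 0⟩, ⟨1, -1, 0, 0, 0⟩, ⟨0, 0, -1, 1, 0⟩, ⟨0, 0, 0, -1, 1⟩]

def t_15_24_29 : T := (.node (.cons (.keep [2,4,6,9] (.node (.cons (.leaf 1 [(9,2),(7,2)]) (.cons (.keep [0,7,9,10] (.node (.cons (.leaf 1 [(4,2),(10,2)]) (.cons (.keep [0,4,8,9,10] (.node (.cons (.leaf 1 [(4,2)]) (.cons (.leaf 1 [(11,2),(4,2)]) (.cons (.leaf 1 [(4,2)]) (.cons (.leaf 1 [(1,2),(10,2)]) (.cons (.leaf 1 [(4,2)]) (.cons (.leaf 1 [(4,2),(11,2),(8,2)]) (.cons (.leaf 1 []) (.cons (.keep [0,7,8,9,10,11] (.node (.cons (.leaf 1 [(11,2),(4,2)]) (.cons (.leaf 1 [(12,1),(4,1)]) (.cons (.leaf 1 [(4,2),(11,2)]) (.cons (.leaf 1 [(4,1),(12,1),(9,1)]) (.cons (.leaf 1 [(4,2)]) (.cons (.leaf 1 [(4,2)]) (.cons (.leaf 1 [(11,2)]) (.cons (.leaf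 1 [(12,2),(0,2),(11,2)]) .nil)))))))))) .nil)))))))))) (.cons (.leaf 1 [(1,2)]) (.cons (.leaf 1 [(1,2)]) (.cons (.leaf 1 [(9,2),(1,2)]) (.cons (.leaf 1 [(9,2),(1,2)]) (.cons (.leaf 1 [(10,2)]) (.cons (.keep [0,1,9,10] (.node (.cons (.leaf 1 [(4,2)]) (.cons (.leaf 1 [(8,2),(10,2),(4,2)]) (.cons (.leaf 1 [(4,2)]) (.cons (.leaf 1 [(1,2),(9,2)]) (.cons (.leaf 1 [(4,2)]) (.cons (.leaf 1 [(4,2),(10,2)]) (.cons (.leaf 1 []) (.cons (.keep [0,7,8,9,10] (.node (.cons (.leaf 1 [(10,2),(4,2)]) (.cons (.leaf 1 [(9,1),(11,1),(4,1)]) (.cons (.leaf 1 [(4,2),(10,2)]) (.cons (.leaf 1 [(4,1),(11,1)]) (.cons (.leaf 1 [(4,2)]) (.cons (.leaf 1 [(4,2)]) (.cons (.leaf 1 [(10,2)]) (.cons (.leaf 1 [(9,2),(11,2),(0,2),(10,2)]) .nil)))))))))) .nil)))))))))) .nil)))))))))) (.cons (.leaf 1 [(1,2),(9,2),(7,2)])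 (.cons (.leaf 1 [(1,2),(10,2)]) (.cons (.leaf 1 [(1,2)]) (.cons (.leaf 1 [(1,2)]) (.cons (.leaf 1 [(9,2),(1,2)]) (.cons (.leaf 1 [(9,2),(1,2)]) .nil)))))))))) (.cons (.keep [2,5,7,9] (.node (.cons (.keep [4,6,7,8,10] (.node (.cons (.leaf 1 [(4,1),(9,1),(11,1)]) (.cons (.keep [0,8,9,10,11] (.node (.cons (.leaf 1 [(9,1),(4,1)]) (.cons (.leaf 1 [(9,1),(11,1),(4,1)]) (.cons (.leaf 1 [(1,1),(4,1)]) (.cons (.leaf 1 [(4,1),(11,1)]) (.cons (.leaf 1 [(1,1),(4,1),(8,1)]) (.cons (.leaf 1 [(8,1),(4,1),(11,1)]) (.cons (.leaf 1 [(9,1)]) (.cons (.leaf 1 [(9,2),(11,1),(0,1)]) .nil)))))))))) (.cons (.leaf 1 [(1,1),(9,1)]) (.cons (.leaf 1 [(1,1),(9,1)]) (.cons (.leaf 1 [(4,1),(1,1),(11,1)]) (.cons (.keep [0,1,2,4,11] (.node (.cons (.leaf 1 [(8,1),(4,1)]) (.cons (.leaf 1 [(8,2),(11,1),(4,1)]) (.cons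 (.leaf 1 [(1,1),(4,1)]) (.cons (.leaf 1 [(1,1),(11,1),(4,1)]) (.cons (.leaf 1 [(8,1),(4,1)]) (.cons (.leaf 1 [(8,3),(4,1),(11,1),(0,1)]) (.cons (.leaf 1 [(8,1)]) (.cons (.leaf 1 [(8,3),(11,1),(0,1)]) .nil)))))))))) (.cons (.leaf 1 [(11,1),(8,1),(1,1)]) (.cons (.keep [0,3,9,10,11] (.node (.cons (.leaf 1 [(9,1),(4,1)]) (.cons (.leaf 1 [(9,2),(8,1),(11,1),(4,1)]) (.cons (.leaf 1 [(1,1),(4,1)]) (.cons (.leaf 1 [(1,1),(8,1),(11,1),(4,1)]) (.cons (.leaf 1 [(9,1),(4,1)]) (.cons (.leaf 1 [(9,1),(4,1),(11,1)]) (.cons (.leaf 1 [(9,1)]) (.cons (.leaf 1 [(9,3),(8,1),(11,1),(0,1)]) .nil)))))))))) .nil)))))))))) (.cons (.keep [0,4,7,8,10] (.node (.cons (.leaf 1 [(4,2),(10,1),(11,2)]) (.cons (.keep [0,4,9,10,11] (.node (.cons (.leaf 1 [(10,1),(4,2)]) (.cons (.leaf 1 [(10,1),(11,2),(4,2)]) (.cons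 (.leaf 1 [(1,1),(4,1)]) (.cons (.leaf 1 [(4,1),(11,1)]) (.cons (.leaf 1 [(10,1),(4,2)]) (.cons (.leaf 1 [(10,1),(4,2),(11,2),(8,2)]) (.cons (.leaf 1 [(10,1)]) (.cons (.keep [0,7,8,9,10,11] (.node (.cons (.leaf 2 [(12,1),(4,3)]) (.cons (.leaf 1 [(12,1),(4,1),(11,1)]) (.cons (.leaf 2 [(4,3),(12,1),(9,1)]) (.cons (.leaf 1 [(4,2),(11,1),(12,2),(0,2)]) (.cons (.leaf 1 [(4,2)]) (.cons (.leaf 1 [(11,1),(4,2)]) (.cons (.leaf 1 [(12,1),(7,1)]) (.cons (.leaf 1 [(12,2),(11,1),(0,2)]) .nil)))))))))) .nil)))))))))) (.cons (.leaf 1 [(1,2),(10,1)]) (.cons (.leaf 1 [(1,2),(10,1)]) (.cons (.leaf 1 [(4,1),(1,1),(11,1)]) (.cons (.keep [0,4,7,9,11] (.node (.cons (.leaf 1 [(8,1),(10,1),(4,1)]) (.cons (.leaf 1 [(8,2),(10,2),(11,1),(4,1)]) (.cons (.leaf 1 [(1,1),(4,1)]) (.cons (.leaf 1 [(1,1),(11,1),(4,1)])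 (.cons (.leaf 1 [(1,1),(4,1),(8,1)]) (.cons (.leaf 1 [(8,2),(1,1),(11,1),(4,1)]) (.cons (.leaf 1 [(8,1),(10,1)]) (.cons (.leaf 1 [(8,3),(10,3),(11,1),(0,1)]) .nil)))))))))) (.cons (.leaf 1 [(11,2),(10,1)]) (.cons (.keep [0,1,10,11] (.node (.cons (.leaf 1 [(9,1),(4,2)]) (.cons (.leaf 1 [(9,1),(8,2),(10,2),(4,2)]) (.cons (.leaf 1 [(1,1),(4,1)]) (.cons (.leaf 1 [(4,1),(8,1),(10,1)]) (.cons (.leaf 1 [(9,1),(4,2)]) (.cons (.leaf 1 [(9,1),(4,2),(10,2)]) (.cons (.leaf 1 [(9,1)]) (.cons (.keep [0,7,8,9,10] (.node (.cons (.leaf 2 [(9,1),(11,1),(4,3)]) (.cons (.leaf 1 [(9,1),(11,1),(4,1),(10,1)]) (.cons (.leaf 2 [(4,3),(11,1)]) (.cons (.leaf 1 [(4,1),(10,1),(11,1)]) (.cons (.leaf 1 [(4,2)]) (.cons (.leaf 1 [(10,1),(4,2)]) (.cons (.leaf 1 [(9,1),(11,1),(7,1)]) (.cons (.leaf 1 [(9,2),(11,2),(10,1),(0,2)])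 .nil)))))))))) .nil)))))))))) .nil)))))))))) (.cons (.leaf 1 [(1,2),(10,1),(7,1)]) (.cons (.leaf 1 [(1,2),(10,2),(8,1)]) (.cons (.leaf 1 [(1,2),(7,1)]) (.cons (.leaf 1 [(1,2),(8,1)]) (.cons (.keep [1,3,6,9,10] (.node (.cons (.leaf 1 [(4,1),(7,1),(11,1)]) (.cons (.keep [0,7,8,9,11] (.node (.cons (.leaf 1 [(8,1),(4,1)]) (.cons (.leaf 1 [(8,1),(11,1),(4,1)]) (.cons (.leaf 1 [(1,1),(4,1)]) (.cons (.leaf 1 [(4,1),(11,1)]) (.cons (.leaf 1 [(8,1),(4,1)]) (.cons (.leaf 1 [(8,2),(4,1),(11,1),(0,1)]) (.cons (.leaf 1 [(8,1)]) (.cons (.leaf 1 [(8,2),(11,1),(0,1)]) .nil)))))))))) (.cons (.leaf 1 [(1,1),(7,1)]) (.cons (.leaf 1 [(1,1),(7,1)]) (.cons (.leaf 1 [(4,1),(1,1),(11,1)]) (.cons (.keep [0,1,2,4,11] (.node (.cons (.leaf 1 [(8,1),(4,1)]) (.cons (.leaf 1 [(8,2),(11,1),(4,1)]) (.cons (.leaf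 1 [(1,1),(4,1)]) (.cons (.leaf 1 [(1,1),(11,1),(4,1)]) (.cons (.leaf 1 [(8,1),(4,1)]) (.cons (.leaf 1 [(8,3),(4,1),(11,1),(0,1)]) (.cons (.leaf 1 [(8,1)]) (.cons (.leaf 1 [(8,3),(11,1),(0,1)]) .nil)))))))))) (.cons (.leaf 1 [(11,1),(7,1)]) (.cons (.keep [0,3,7,8,11] (.node (.cons (.leaf 1 [(9,1),(4,1)]) (.cons (.leaf 1 [(9,2),(8,1),(11,1),(4,1)]) (.cons (.leaf 1 [(1,1),(4,1)]) (.cons (.leaf 1 [(1,1),(8,1),(11,1),(4,1)]) (.cons (.leaf 1 [(9,1),(4,1)]) (.cons (.leaf 1 [(9,1),(4,1),(11,1)]) (.cons (.leaf 1 [(9,1)]) (.cons (.leaf 1 [(9,3),(8,1),(11,1),(0,1)]) .nil)))))))))) .nil)))))))))) (.cons (.keep [0,1,5,9,10] (.node (.cons (.leaf 1 [(4,1),(8,1),(11,1)]) (.cons (.keep [0,4,7,8,9,11] (.node (.cons (.leaf 1 [(10,1),(4,1)]) (.cons (.leaf 1 [(10,1),(12,1),(4,1)]) (.cons (.leaf 1 [(1,1),(4,1)])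 (.cons (.leaf 1 [(4,1),(12,1)]) (.cons (.leaf 1 [(10,1),(4,1)]) (.cons (.leaf 1 [(10,2),(4,1),(12,1),(0,1)]) (.cons (.leaf 1 [(10,1)]) (.cons (.leaf 1 [(10,2),(12,1),(0,1)]) .nil)))))))))) (.cons (.leaf 1 [(1,1),(8,1)]) (.cons (.leaf 1 [(1,1),(8,1)]) (.cons (.leaf 1 [(4,1),(1,1),(11,1)]) (.cons (.keep [0,1,4,7,9,11] (.node (.cons (.leaf 1 [(8,1),(4,1)]) (.cons (.leaf 1 [(8,2),(12,1),(4,1)]) (.cons (.leaf 1 [(1,1),(4,1)]) (.cons (.leaf 1 [(1,1),(12,1),(4,1)]) (.cons (.leaf 1 [(8,1),(4,1)]) (.cons (.leaf 1 [(8,3),(4,1),(12,1),(0,1)]) (.cons (.leaf 1 [(8,1)]) (.cons (.leaf 1 [(8,3),(12,1),(0,1)]) .nil)))))))))) (.cons (.leaf 1 [(11,1),(8,1)]) (.cons (.keep [0,3,7,8,11] (.node (.cons (.leaf 1 [(10,1),(4,1)]) (.cons (.leaf 1 [(10,2),(8,1),(11,1),(4,1)]) (.cons (.leaf 1 [(1,1),(4,1)])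 (.cons (.leaf 1 [(1,1),(8,1),(11,1),(4,1)]) (.cons (.leaf 1 [(10,1),(4,1)]) (.cons (.leaf 1 [(10,1),(4,1),(11,1)]) (.cons (.leaf 1 [(10,1)]) (.cons (.leaf 1 [(10,3),(8,1),(11,1),(0,1)]) .nil)))))))))) .nil)))))))))) .nil)))))))))) (.cons (.keep [1,6,8,9] (.leaf 0 [(0,0)])) (.cons (.keep [1,5,8,9] (.node (.cons (.keep [4,6,8,10] (.node (.cons (.leaf 1 [(8,2),(2,1),(10,2)]) (.cons (.keep [0,8,9,10] (.node (.cons (.leaf 1 [(9,2),(4,3)]) (.cons (.leaf 1 [(9,2),(10,3),(4,3)]) (.cons (.leaf 1 [(1,2),(4,1)]) (.cons (.leaf 1 [(1,1),(10,1),(4,1)]) (.cons (.leaf 1 [(1,2),(4,1),(8,2)]) (.cons (.leaf 1 [(8,2),(1,1),(10,1),(4,1)]) (.cons (.leaf 1 [(9,2)]) (.cons (.keep [0,8,9,10] (.node (.cons (.leaf 2 [(10,1),(4,5)]) (.cons (.leaf 2 [(10,3),(4,3),(9,4)]) (.cons (.leaf 2 [(4,4),(10,1),(8,1)])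 (.cons (.leaf 2 [(1,3),(10,1),(4,1),(8,4)]) (.cons (.leaf 1 [(4,3)]) (.cons (.leaf 1 [(9,2),(4,3)]) (.cons (.leaf 1 [(10,1),(7,1)]) (.cons (.keep [0,7,8,9,10] (.node (.cons (.leaf 2 [(11,1),(9,3),(4,4)]) (.cons (.leaf 1 [(11,1),(10,1),(4,1)]) (.cons (.leaf 1 [(4,2),(9,1)]) (.cons (.leaf 2 [(4,3),(10,1)]) (.cons (.leaf 1 [(11,1),(4,3),(7,1)]) (.cons (.leaf 1 [(11,1),(4,3),(0,1),(5,1)]) (.cons (.leaf 1 [(11,1),(9,3),(7,1)]) (.cons (.leaf 1 [(11,3),(10,2),(0,3),(9,3)]) .nil)))))))))) .nil)))))))))) .nil)))))))))) (.cons (.leaf 1 [(1,3),(9,2)]) (.cons (.leaf 1 [(1,3),(9,2)]) (.cons (.leaf 1 [(4,1),(1,2),(10,1)]) (.cons (.keep [0,1,2,4,10] (.node (.cons (.leaf 1 [(8,2),(4,1)]) (.cons (.leaf 1 [(8,3),(11,1),(4,1)]) (.cons (.leaf 1 [(1,2),(4,1)]) (.cons (.leaf 1 [(1,2),(11,1),(4,1)])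 (.cons (.leaf 1 [(8,2),(4,1)]) (.cons (.leaf 1 [(8,5),(4,1),(11,1),(0,1)]) (.cons (.leaf 1 [(8,2)]) (.cons (.leaf 1 [(8,5),(11,1),(0,1)]) .nil)))))))))) (.cons (.leaf 1 [(10,1),(8,2),(1,2)]) (.cons (.keep [0,1,8,9,10] (.node (.cons (.leaf 1 [(9,2),(8,2),(4,1)]) (.cons (.leaf 1 [(9,2),(8,3),(11,1),(4,1)]) (.cons (.leaf 1 [(1,2),(4,1)]) (.cons (.leaf 1 [(1,1),(8,1),(11,1),(4,1)]) (.cons (.leaf 1 [(1,2),(4,1),(9,2)]) (.cons (.leaf 1 [(9,2),(1,2),(11,1),(4,1)]) (.cons (.leaf 1 [(9,2),(8,2)]) (.cons (.leaf 1 [(9,4),(8,5),(11,1),(0,1)]) .nil)))))))))) .nil)))))))))) (.cons (.keep [5,7,8,10] (.node (.cons (.leaf 1 [(10,2),(4,1),(9,1)]) (.cons (.keep [0,4,7,9,10] (.node (.cons (.leaf 1 [(10,2),(9,1),(4,3)]) (.cons (.leaf 1 [(10,2),(9,1),(11,3),(4,3)]) (.cons (.leaf 1 [(1,2),(9,1),(4,1)])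 (.cons (.leaf 1 [(1,1),(9,1),(11,1),(4,1)]) (.cons (.leaf 1 [(10,1),(1,1),(4,2)]) (.cons (.leaf 1 [(10,1),(4,2),(11,2),(8,1)]) (.cons (.leaf 1 [(10,2),(9,1)]) (.cons (.keep [0,9,10,11] (.node (.cons (.leaf 2 [(8,2),(10,1),(4,5)]) (.cons (.leaf 2 [(8,2),(10,3),(4,3),(9,4)]) (.cons (.leaf 2 [(4,3),(1,1),(10,1)]) (.cons (.leaf 1 [(9,1),(10,1),(4,1)]) (.cons (.leaf 1 [(8,1),(4,3)]) (.cons (.leaf 1 [(8,1),(9,2),(4,3)]) (.cons (.leaf 1 [(8,2),(10,1),(7,1)]) (.cons (.keep [0,7,8,9,10] (.node (.cons (.leaf 3 [(11,2),(10,1),(4,5)]) (.cons (.leaf 1 [(11,1),(10,1),(4,1),(9,1)]) (.cons (.leaf 1 [(4,2)]) (.cons (.leaf 2 [(9,2),(10,1),(4,3)]) (.cons (.leaf 1 [(11,1),(4,3),(7,1)]) (.cons (.leaf 1 [(9,1),(4,3),(11,1),(0,1)]) (.cons (.leaf 1 [(11,2),(10,1),(7,2)]) (.cons (.leaf 1 [(11,3),(10,2),(9,1),(0,3)])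 .nil)))))))))) .nil)))))))))) .nil)))))))))) (.cons (.leaf 1 [(1,3),(9,2),(7,1)]) (.cons (.leaf 1 [(1,3),(9,2),(7,1)]) (.cons (.leaf 1 [(1,2),(10,1)]) (.cons (.keep [0,1,5,7,10] (.node (.cons (.leaf 1 [(8,2),(10,1),(4,1)]) (.cons (.leaf 1 [(8,3),(10,1),(11,1),(4,1)]) (.cons (.leaf 1 [(1,2),(10,1),(4,1)]) (.cons (.leaf 1 [(1,2),(10,1),(11,1),(4,1)]) (.cons (.leaf 1 [(8,1),(1,1),(4,1)]) (.cons (.leaf 1 [(8,2),(4,1),(11,1)]) (.cons (.leaf 1 [(8,2),(10,1)]) (.cons (.leaf 1 [(8,5),(10,2),(11,1),(0,1)]) .nil)))))))))) (.cons (.leaf 1 [(10,2),(9,1),(1,1)]) (.cons (.keep [0,1,8,9,10] (.node (.cons (.leaf 1 [(10,1),(8,1),(4,2)]) (.cons (.leaf 1 [(10,1),(8,3),(11,2),(4,2)]) (.cons (.leaf 1 [(1,1),(8,1),(4,1)]) (.cons (.leaf 1 [(4,1),(8,2),(11,1)]) (.cons (.leaf 1 [(10,1),(1,1),(4,2)]) (.cons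 (.leaf 1 [(10,1),(1,1),(11,2),(4,2)]) (.cons (.leaf 1 [(10,1),(8,1)]) (.cons (.keep [0,7,8,10,11] (.node (.cons (.leaf 2 [(9,3),(11,1),(4,3)]) (.cons (.leaf 1 [(9,2),(11,1),(4,1),(10,1)]) (.cons (.leaf 2 [(4,3),(1,2),(11,1)]) (.cons (.leaf 1 [(1,1),(11,1),(4,1),(10,1)]) (.cons (.leaf 1 [(9,1),(4,2)]) (.cons (.leaf 1 [(9,1),(10,1),(4,2)]) (.cons (.leaf 1 [(9,3),(11,1),(7,1)]) (.cons (.leaf 1 [(9,5),(11,2),(10,1),(0,2)]) .nil)))))))))) .nil)))))))))) .nil)))))))))) (.cons (.leaf 1 [(10,3),(1,2),(8,2)]) (.cons (.leaf 1 [(10,3),(1,2),(8,2),(5,1)]) (.cons (.leaf 1 [(1,2),(8,2)]) (.cons (.leaf 1 [(1,2),(8,2),(5,1)]) (.cons (.keep [1,3,6,9,10] (.node (.cons (.leaf 1 [(4,1),(7,1),(11,1)]) (.cons (.keep [0,7,8,9,11] (.node (.cons (.leaf 1 [(8,1),(4,1)]) (.cons (.leaf 1 [(8,1),(11,1),(4,1)])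 (.cons (.leaf 1 [(1,1),(4,1)]) (.cons (.leaf 1 [(4,1),(11,1)]) (.cons (.leaf 1 [(8,1),(4,1)]) (.cons (.leaf 1 [(8,2),(4,1),(11,1),(0,1)]) (.cons (.leaf 1 [(8,1)]) (.cons (.leaf 1 [(8,2),(11,1),(0,1)]) .nil)))))))))) (.cons (.leaf 1 [(1,1),(7,1)]) (.cons (.leaf 1 [(1,1),(7,1)]) (.cons (.leaf 1 [(4,1),(1,1),(11,1)]) (.cons (.keep [0,1,2,4,11] (.node (.cons (.leaf 1 [(8,1),(4,1)]) (.cons (.leaf 1 [(8,2),(11,1),(4,1)]) (.cons (.leaf 1 [(1,1),(4,1)]) (.cons (.leaf 1 [(1,1),(11,1),(4,1)]) (.cons (.leaf 1 [(8,1),(4,1)]) (.cons (.leaf 1 [(8,3),(4,1),(11,1),(0,1)]) (.cons (.leaf 1 [(8,1)]) (.cons (.leaf 1 [(8,3),(11,1),(0,1)]) .nil)))))))))) (.cons (.leaf 1 [(11,1),(7,1)]) (.cons (.keep [0,3,7,8,11] (.node (.cons (.leaf 1 [(9,1),(4,1)]) (.cons (.leaf 1 [(9,2),(8,1),(11,1),(4,1)]) (.cons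 (.leaf 1 [(1,1),(4,1)]) (.cons (.leaf 1 [(1,1),(8,1),(11,1),(4,1)]) (.cons (.leaf 1 [(9,1),(4,1)]) (.cons (.leaf 1 [(9,1),(4,1),(11,1)]) (.cons (.leaf 1 [(9,1)]) (.cons (.leaf 1 [(9,3),(8,1),(11,1),(0,1)]) .nil)))))))))) .nil)))))))))) (.cons (.keep [1,3,5,7,9,10] (.node (.cons (.leaf 1 [(12,1)]) (.cons (.keep [0,7,8,9,12] (.node (.cons (.leaf 1 [(8,1),(10,1),(4,1)]) (.cons (.leaf 1 [(8,1),(10,1),(11,1),(4,1)]) (.cons (.leaf 1 [(4,1),(1,1),(10,1)]) (.cons (.leaf 1 [(4,1),(10,1),(11,1)]) (.cons (.leaf 1 [(1,1),(4,1)]) (.cons (.leaf 1 [(4,1),(11,1)]) (.cons (.leaf 1 [(8,1),(10,1)]) (.cons (.leaf 1 [(8,2),(10,2),(11,1),(0,1)]) .nil)))))))))) (.cons (.leaf 1 [(1,1),(7,1),(9,1)]) (.cons (.leaf 1 [(1,1),(7,1),(9,1)]) (.cons (.leaf 1 [(1,1),(12,1)]) (.cons (.keep [0,1,5,9,12] (.node (.cons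 (.leaf 1 [(8,1),(10,1),(4,1)]) (.cons (.leaf 1 [(8,2),(10,1),(11,1),(4,1)]) (.cons (.leaf 1 [(4,1),(1,1),(10,1)]) (.cons (.leaf 1 [(1,1),(10,1),(11,1),(4,1)]) (.cons (.leaf 1 [(1,1),(4,1)]) (.cons (.leaf 1 [(8,1),(4,1),(11,1)]) (.cons (.leaf 1 [(8,1),(10,1)]) (.cons (.leaf 1 [(8,3),(10,2),(11,1),(0,1)]) .nil)))))))))) (.cons (.leaf 1 [(12,1),(1,1)]) (.cons (.keep [0,3,7,8,12] (.node (.cons (.leaf 1 [(9,1),(8,1),(4,1)]) (.cons (.leaf 1 [(9,2),(8,2),(11,1),(4,1)]) (.cons (.leaf 1 [(4,1),(1,1),(8,1)]) (.cons (.leaf 1 [(1,1),(8,2),(11,1),(4,1)]) (.cons (.leaf 1 [(1,1),(4,1)]) (.cons (.leaf 1 [(1,1),(11,1),(4,1)]) (.cons (.leaf 1 [(9,1),(8,1)]) (.cons (.leaf 1 [(9,3),(8,3),(11,1),(0,1)]) .nil)))))))))) .nil)))))))))) .nil)))))))))) (.cons (.leaf 1 [(9,2),(1,1)]) (.cons (.leaf 1 [(9,2),(1,1),(5,1)])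 (.cons (.leaf 1 [(1,1)]) (.cons (.leaf 1 [(1,1),(5,1)]) .nil)))))))))

theorem c_15_24_29 : Concl 15 24 z_15_24_29 h_15_24_29 .nd := piece _ (hP_cons c_15_24_16 hP_nil)
  t_15_24_29 _ _ (by decide +kernel)

def z_15_24_30 : F := ⟨0, 1, 0, -1, 1⟩

def h_15_24_30 : List F := [⟨0, 1, 0, 0, 0⟩, ⟨-1, 1, 0, 0, 0⟩, ⟨0, 0, -1, 1, 0⟩, ⟨0, 0, 0, -1, 1⟩]

def t_15_24_30 : T := (.node (.cons (.leaf 1 [(2,2),(8,1)]) (.cons (.keep [0,2,7,8,9] (.node (.cons (.keep [4,6,7,8,11] (.node (.cons (.leaf 1 [(4,1),(10,1),(11,1)]) (.cons (.keep [0,8,9,10,11] (.node (.cons (.leaf 1 [(10,1),(4,1)]) (.cons (.leaf 1 [(10,1),(11,1),(4,1)]) (.cons (.leaf 1 [(1,1),(4,1)]) (.cons (.leaf 1 [(4,1),(11,1)]) (.cons (.leaf 1 [(1,1),(4,1),(8,1)]) (.cons (.leaf 1 [(8,1),(4,1),(11,1)]) (.cons (.leaf 1 [(10,1)]) (.cons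 (.leaf 1 [(10,2),(11,1),(0,1)]) .nil)))))))))) (.cons (.leaf 1 [(1,1),(10,1)]) (.cons (.leaf 1 [(1,1),(10,1)]) (.cons (.leaf 1 [(4,1),(1,1),(11,1)]) (.cons (.keep [0,1,4,9,11] (.node (.cons (.leaf 1 [(8,1),(4,1)]) (.cons (.leaf 1 [(8,2),(11,1),(4,1)]) (.cons (.leaf 1 [(1,1),(4,1)]) (.cons (.leaf 1 [(1,1),(11,1),(4,1)]) (.cons (.leaf 1 [(8,1),(4,1)]) (.cons (.leaf 1 [(8,3),(4,1),(11,1),(0,1)]) (.cons (.leaf 1 [(8,1)]) (.cons (.leaf 1 [(8,3),(11,1),(0,1)]) .nil)))))))))) (.cons (.leaf 1 [(11,1),(8,1),(1,1)]) (.cons (.keep [0,3,9,10,11] (.node (.cons (.leaf 1 [(10,1),(4,1)]) (.cons (.leaf 1 [(10,2),(8,1),(11,1),(4,1)]) (.cons (.leaf 1 [(1,1),(4,1)]) (.cons (.leaf 1 [(1,1),(8,1),(11,1),(4,1)]) (.cons (.leaf 1 [(10,1),(4,1)]) (.cons (.leaf 1 [(10,1),(4,1),(11,1)]) (.cons (.leaf 1 [(10,1)])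 (.cons (.leaf 1 [(10,3),(8,1),(11,1),(0,1)]) .nil)))))))))) .nil)))))))))) (.cons (.keep [5,7,8,9,10,11] (.node (.cons (.leaf 1 [(12,1)]) (.cons (.keep [0,7,8,9,11,12] (.node (.cons (.leaf 1 [(10,1),(4,1)]) (.cons (.leaf 1 [(10,1),(12,1),(4,1)]) (.cons (.leaf 1 [(4,1),(1,1),(8,1)]) (.cons (.leaf 1 [(4,1),(8,1),(12,1)]) (.cons (.leaf 1 [(1,1),(4,1)]) (.cons (.leaf 1 [(4,1),(12,1)]) (.cons (.leaf 1 [(10,1)]) (.cons (.leaf 1 [(10,2),(12,1),(0,1)]) .nil)))))))))) (.cons (.leaf 1 [(1,1),(9,1)]) (.cons (.leaf 1 [(1,1),(9,1)]) (.cons (.leaf 1 [(1,1),(12,1)]) (.cons (.keep [0,4,8,9,12] (.node (.cons (.leaf 1 [(10,1),(4,1)]) (.cons (.leaf 1 [(8,1),(10,2),(11,1),(4,1)]) (.cons (.leaf 1 [(4,1),(10,1)]) (.cons (.leaf 1 [(4,1),(10,1),(11,1)]) (.cons (.leaf 1 [(1,1),(4,1)]) (.cons (.leaf 1 [(8,1),(1,1),(11,1),(4,1)])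 (.cons (.leaf 1 [(10,1)]) (.cons (.leaf 1 [(8,1),(10,3),(11,1),(0,1)]) .nil)))))))))) (.cons (.leaf 1 [(12,1),(1,1)]) (.cons (.keep [0,1,3,8,11,12] (.node (.cons (.leaf 1 [(8,1),(4,1)]) (.cons (.leaf 1 [(8,2),(12,1),(4,1)]) (.cons (.leaf 1 [(4,1),(8,1)]) (.cons (.leaf 1 [(4,1),(8,3),(12,1),(0,1)]) (.cons (.leaf 1 [(1,1),(4,1)]) (.cons (.leaf 1 [(1,1),(12,1),(4,1)]) (.cons (.leaf 1 [(8,1)]) (.cons (.leaf 1 [(8,3),(12,1),(0,1)]) .nil)))))))))) .nil)))))))))) (.cons (.leaf 1 [(8,1),(11,1),(1,1)]) (.cons (.leaf 1 [(8,1),(11,1),(1,1)]) (.cons (.leaf 1 [(1,1),(8,1)]) (.cons (.leaf 1 [(1,1),(8,1)]) (.cons (.keep [1,6,7,11] (.node (.cons (.leaf 1 [(4,1),(10,1)]) (.cons (.keep [0,3,7,8,9,10] (.node (.cons (.leaf 1 [(4,1)]) (.cons (.leaf 1 [(12,1),(4,1)]) (.cons (.leaf 1 [(4,1)]) (.cons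 (.leaf 1 [(4,1),(12,1),(0,1)]) (.cons (.leaf 1 [(4,1)]) (.cons (.leaf 1 [(4,1),(12,1),(0,1)]) (.cons (.leaf 1 []) (.cons (.leaf 1 [(12,1),(0,1)]) .nil)))))))))) (.cons (.leaf 1 [(1,1)]) (.cons (.leaf 1 [(1,1)]) (.cons (.leaf 1 [(4,1),(10,1)]) (.cons (.keep [0,1,4,9,10] (.node (.cons (.leaf 1 [(4,1)]) (.cons (.leaf 1 [(8,1),(11,1),(4,1)]) (.cons (.leaf 1 [(4,1)]) (.cons (.leaf 1 [(4,1),(11,1)]) (.cons (.leaf 1 [(4,1)]) (.cons (.leaf 1 [(8,1),(4,1),(11,1),(0,1)]) (.cons (.leaf 1 []) (.cons (.leaf 1 [(8,1),(11,1),(0,1)]) .nil)))))))))) (.cons (.leaf 1 [(10,1)]) (.cons (.keep [0,3,7,9,10] (.node (.cons (.leaf 1 [(4,1)]) (.cons (.leaf 1 [(9,1),(8,1),(11,1),(4,1)]) (.cons (.leaf 1 [(4,1)]) (.cons (.leaf 1 [(4,1),(8,1),(11,1)]) (.cons (.leaf 1 [(4,1)]) (.cons (.leaf 1 [(4,1),(11,1)])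 (.cons (.leaf 1 []) (.cons (.leaf 1 [(9,1),(8,1),(11,1),(0,1)]) .nil)))))))))) .nil)))))))))) (.cons (.keep [5,7,9,10,11] (.node (.cons (.leaf 1 [(3,1),(11,1)]) (.cons (.keep [0,4,7,8,10,11] (.node (.cons (.leaf 1 [(9,1),(4,1)]) (.cons (.leaf 1 [(9,1),(12,1),(4,1)]) (.cons (.leaf 1 [(4,1),(9,1)]) (.cons (.leaf 1 [(4,1),(9,2),(12,1),(0,1)]) (.cons (.leaf 1 [(2,1),(4,1)]) (.cons (.leaf 1 [(2,2),(4,1),(12,1),(0,1)]) (.cons (.leaf 1 [(9,1)]) (.cons (.leaf 1 [(9,2),(12,1),(0,1)]) .nil)))))))))) (.cons (.leaf 1 [(1,1),(7,1)]) (.cons (.leaf 1 [(1,1),(7,1)]) (.cons (.leaf 1 [(11,1)]) (.cons (.keep [0,7,8,10,11] (.node (.cons (.leaf 1 [(8,1),(4,1)]) (.cons (.leaf 1 [(8,2),(10,1),(11,1),(4,1)]) (.cons (.leaf 1 [(4,1),(8,1)]) (.cons (.leaf 1 [(4,1),(8,1),(11,1)]) (.cons (.leaf 1 [(2,1),(4,1)])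 (.cons (.leaf 1 [(4,1),(11,1)]) (.cons (.leaf 1 [(8,1)]) (.cons (.leaf 1 [(8,3),(10,1),(11,1),(0,1)]) .nil)))))))))) (.cons (.leaf 1 [(11,1),(3,1)]) (.cons (.keep [0,3,8,10,11] (.node (.cons (.leaf 1 [(8,1),(4,1)]) (.cons (.leaf 1 [(8,3),(10,1),(11,1),(4,1)]) (.cons (.leaf 1 [(4,1),(8,1)]) (.cons (.leaf 1 [(4,1),(8,2),(11,1)]) (.cons (.leaf 1 [(2,1),(4,1)]) (.cons (.leaf 1 [(2,1),(4,1),(11,1)]) (.cons (.leaf 1 [(8,1)]) (.cons (.leaf 1 [(8,4),(10,1),(11,1),(0,1)]) .nil)))))))))) .nil)))))))))) .nil)))))))))) (.cons (.keep [4,6,8,9,10] (.leaf 0 [(0,0)])) (.cons (.keep [0,1,8,9,10] (.node (.cons (.keep [4,6,7,9,10] (.node (.cons (.leaf 1 [(4,1),(10,1),(11,1)]) (.cons (.keep [0,8,9,10,11] (.node (.cons (.leaf 1 [(10,1),(4,1)]) (.cons (.leaf 1 [(10,1),(11,1),(4,1)]) (.cons (.leaf 1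 [(1,1),(4,1)]) (.cons (.leaf 1 [(4,1),(11,1)]) (.cons (.leaf 1 [(1,1),(4,1),(8,1)]) (.cons (.leaf 1 [(8,1),(4,1),(11,1)]) (.cons (.leaf 1 [(10,1)]) (.cons (.leaf 1 [(10,2),(11,1),(0,1)]) .nil)))))))))) (.cons (.leaf 1 [(1,1),(10,1)]) (.cons (.leaf 1 [(1,1),(10,1)]) (.cons (.leaf 1 [(4,1),(1,1),(11,1)]) (.cons (.keep [0,1,4,9,11] (.node (.cons (.leaf 1 [(8,1),(4,1)]) (.cons (.leaf 1 [(8,2),(11,1),(4,1)]) (.cons (.leaf 1 [(1,1),(4,1)]) (.cons (.leaf 1 [(1,1),(11,1),(4,1)]) (.cons (.leaf 1 [(8,1),(4,1)]) (.cons (.leaf 1 [(8,3),(4,1),(11,1),(0,1)]) (.cons (.leaf 1 [(8,1)]) (.cons (.leaf 1 [(8,3),(11,1),(0,1)]) .nil)))))))))) (.cons (.leaf 1 [(11,1),(8,1),(1,1)]) (.cons (.keep [0,3,9,10,11] (.node (.cons (.leaf 1 [(10,1),(4,1)]) (.cons (.leaf 1 [(10,2),(8,1),(11,1),(4,1)]) (.cons (.leaf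 1 [(1,1),(4,1)]) (.cons (.leaf 1 [(1,1),(8,1),(11,1),(4,1)]) (.cons (.leaf 1 [(10,1),(4,1)]) (.cons (.leaf 1 [(10,1),(4,1),(11,1)]) (.cons (.leaf 1 [(10,1)]) (.cons (.leaf 1 [(10,3),(8,1),(11,1),(0,1)]) .nil)))))))))) .nil)))))))))) (.cons (.keep [5,7,8,9,10] (.node (.cons (.leaf 1 [(11,1)]) (.cons (.keep [0,7,8,10,11] (.node (.cons (.leaf 1 [(10,1),(8,1),(4,1)]) (.cons (.leaf 1 [(10,1),(8,1),(11,1),(4,1)]) (.cons (.leaf 1 [(4,1),(1,1),(8,1)]) (.cons (.leaf 1 [(4,1),(8,1),(11,1)]) (.cons (.leaf 1 [(1,1),(4,1)]) (.cons (.leaf 1 [(4,1),(11,1)]) (.cons (.leaf 1 [(10,1),(8,1)]) (.cons (.leaf 1 [(10,2),(8,2),(11,1),(0,1)]) .nil)))))))))) (.cons (.leaf 1 [(1,1),(10,1),(7,1)]) (.cons (.leaf 1 [(1,1),(10,1),(7,1)]) (.cons (.leaf 1 [(1,1),(11,1)]) (.cons (.keep [0,1,7,8,11] (.node (.cons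 (.leaf 1 [(8,1),(9,1),(4,1)]) (.cons (.leaf 1 [(8,2),(9,1),(11,1),(4,1)]) (.cons (.leaf 1 [(4,1),(1,1),(9,1)]) (.cons (.leaf 1 [(1,1),(9,1),(11,1),(4,1)]) (.cons (.leaf 1 [(1,1),(4,1)]) (.cons (.leaf 1 [(8,1),(4,1),(11,1)]) (.cons (.leaf 1 [(8,1),(9,1)]) (.cons (.leaf 1 [(8,3),(9,2),(11,1),(0,1)]) .nil)))))))))) (.cons (.leaf 1 [(11,1),(1,1)]) (.cons (.keep [0,3,8,10,11] (.node (.cons (.leaf 1 [(10,1),(8,1),(4,1)]) (.cons (.leaf 1 [(10,2),(8,2),(11,1),(4,1)]) (.cons (.leaf 1 [(4,1),(1,1),(8,1)]) (.cons (.leaf 1 [(1,1),(8,2),(11,1),(4,1)]) (.cons (.leaf 1 [(1,1),(4,1)]) (.cons (.leaf 1 [(1,1),(11,1),(4,1)]) (.cons (.leaf 1 [(10,1),(8,1)]) (.cons (.leaf 1 [(10,3),(8,3),(11,1),(0,1)]) .nil)))))))))) .nil)))))))))) (.cons (.leaf 1 [(10,1),(9,1)]) (.cons (.leaf 1 [(10,1),(9,1),(5,1)])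 (.cons (.leaf 1 [(9,1)]) (.cons (.leaf 1 [(9,1),(5,1)]) (.cons (.keep [1,6,7,10] (.node (.cons (.leaf 1 [(4,1),(10,1)]) (.cons (.keep [0,3,7,8,9,10] (.node (.cons (.leaf 1 [(4,1)]) (.cons (.leaf 1 [(12,1),(4,1)]) (.cons (.leaf 1 [(4,1)]) (.cons (.leaf 1 [(4,1),(12,1),(0,1)]) (.cons (.leaf 1 [(4,1)]) (.cons (.leaf 1 [(4,1),(12,1),(0,1)]) (.cons (.leaf 1 []) (.cons (.leaf 1 [(12,1),(0,1)]) .nil)))))))))) (.cons (.leaf 1 [(1,1)]) (.cons (.leaf 1 [(1,1)]) (.cons (.leaf 1 [(4,1),(10,1)]) (.cons (.keep [0,1,4,9,10] (.node (.cons (.leaf 1 [(4,1)]) (.cons (.leaf 1 [(8,1),(11,1),(4,1)]) (.cons (.leaf 1 [(4,1)]) (.cons (.leaf 1 [(4,1),(11,1)]) (.cons (.leaf 1 [(4,1)]) (.cons (.leaf 1 [(8,1),(4,1),(11,1),(0,1)]) (.cons (.leaf 1 []) (.cons (.leaf 1 [(8,1),(11,1),(0,1)]) .nil)))))))))) (.cons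 (.leaf 1 [(10,1)]) (.cons (.keep [0,3,7,9,10] (.node (.cons (.leaf 1 [(4,1)]) (.cons (.leaf 1 [(9,1),(8,1),(11,1),(4,1)]) (.cons (.leaf 1 [(4,1)]) (.cons (.leaf 1 [(4,1),(8,1),(11,1)]) (.cons (.leaf 1 [(4,1)]) (.cons (.leaf 1 [(4,1),(11,1)]) (.cons (.leaf 1 []) (.cons (.leaf 1 [(9,1),(8,1),(11,1),(0,1)]) .nil)))))))))) .nil)))))))))) (.cons (.keep [1,5,7,8,10] (.node (.cons (.leaf 1 [(3,1),(11,1)]) (.cons (.keep [0,4,7,8,9,11] (.node (.cons (.leaf 1 [(10,1),(4,1)]) (.cons (.leaf 1 [(10,1),(12,1),(4,1)]) (.cons (.leaf 1 [(4,1),(10,1)]) (.cons (.leaf 1 [(4,1),(10,2),(12,1),(0,1)]) (.cons (.leaf 1 [(2,1),(4,1)]) (.cons (.leaf 1 [(2,2),(4,1),(12,1),(0,1)]) (.cons (.leaf 1 [(10,1)]) (.cons (.leaf 1 [(10,2),(12,1),(0,1)]) .nil)))))))))) (.cons (.leaf 1 [(1,1),(8,1)]) (.cons (.leaf 1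 [(1,1),(8,1)]) (.cons (.leaf 1 [(11,1)]) (.cons (.keep [0,1,8,9,11] (.node (.cons (.leaf 1 [(9,1),(4,1)]) (.cons (.leaf 1 [(9,1),(8,1),(11,1),(4,1)]) (.cons (.leaf 1 [(4,1),(9,1)]) (.cons (.leaf 1 [(4,1),(9,1),(11,1)]) (.cons (.leaf 1 [(2,1),(4,1)]) (.cons (.leaf 1 [(4,1),(11,1)]) (.cons (.leaf 1 [(9,1)]) (.cons (.leaf 1 [(9,2),(8,1),(11,1),(0,1)]) .nil)))))))))) (.cons (.leaf 1 [(11,1),(3,1)]) (.cons (.keep [0,3,7,9,11] (.node (.cons (.leaf 1 [(8,1),(4,1)]) (.cons (.leaf 1 [(8,2),(9,1),(11,1),(4,1)]) (.cons (.leaf 1 [(4,1),(8,1)]) (.cons (.leaf 1 [(4,1),(8,2),(11,1)]) (.cons (.leaf 1 [(2,1),(4,1)]) (.cons (.leaf 1 [(2,1),(4,1),(11,1)]) (.cons (.leaf 1 [(8,1)]) (.cons (.leaf 1 [(8,3),(9,1),(11,1),(0,1)]) .nil)))))))))) .nil)))))))))) .nil)))))))))) (.cons (.leaf 1 [(2,1),(9,1)])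 (.cons (.leaf 1 [(9,1),(2,1)]) (.cons (.leaf 1 [(2,1)]) (.cons (.leaf 1 [(2,1)]) .nil)))))))))

theorem c_15_24_30 : Concl 15 24 z_15_24_30 h_15_24_30 .nd := piece _ (hP_cons c_15_24_28 hP_nil)
  t_15_24_30 _ _ (by decide +kernel)

end Pool.Agent.H4.RD4.E45
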