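import Pool.Agent.H4.RD4.E41
import Pool.Agent.H4.RD4.E42
import Pool.Agent.H4.RD4.E43
import Pool.Agent.H4.RD4.E44
import Pool.Agent.H4.RD4.E45

/-! # Certificates for special cases of order four -/

set_option maxRecDepth 20000

namespace Pool.Agent.H4.RD4.E46

open Pool.Agent.H50.Rdb
open Pool.Agent.H81.RDE (ESB caseOf)

def z_15_24_31 : F := ⟨0, 1, -1, 0, 1⟩

def h_15_24_31 : List F := [⟨0, 1, 0, 0, 0⟩, ⟨-1, 1, 0, 0, 0⟩, ⟨0, 0, 1, -1, 0⟩, ⟨0, 0, -1, 0, 1⟩]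

def t_15_24_31 : T := (.node (.cons (.leaf 1 [(2,2),(9,1),(8,1)]) (.cons (.keep [0,2,7,8,9] (.node (.cons (.keep [4,6,7,8,11] (.node (.cons (.leaf 1 [(8,1)]) (.cons (.keep [0,8,9,10,11] (.node (.cons (.leaf 1 [(10,1),(4,1)]) (.cons (.leaf 1 [(10,1),(4,1)]) (.cons (.leaf 1 [(4,1)]) (.cons (.leaf 1 [(4,1)]) (.cons (.leaf 1 [(8,1),(4,1)]) (.cons (.leaf 1 [(8,1),(4,1)]) (.cons (.leaf 1 [(10,1),(11,1)]) (.cons (.leaf 1 [(10,2),(0,1),(11,1)]) .nil)))))))))) (.cons (.leaf 1 [(1,1),(8,1)]) (.cons (.leaf 1 [(1,1),(10,1),(11,1)]) (.cons (.leaf 1 [(1,1),(4,1)]) (.cons (.keep [0,1,4,9,11] (.node (.cons (.leaf 1 [(8,2),(4,1)]) (.cons (.leaf 1 [(8,2),(4,1)]) (.cons (.leaf 1 [(1,1),(4,1)]) (.cons (.leaf 1 [(1,1),(4,1)]) (.cons (.leaf 1 [(8,1),(4,1),(9,1)]) (.cons (.leaf 1 [(8,1),(4,1),(9,1)]) (.cons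 (.leaf 1 [(8,1),(11,1)]) (.cons (.leaf 1 [(8,3),(0,1),(11,1)]) .nil)))))))))) (.cons (.leaf 1 [(8,1),(1,1)]) (.cons (.keep [3,7,8,9,10,11] (.node (.cons (.leaf 1 [(11,2),(7,1),(4,1)]) (.cons (.leaf 1 [(11,2),(7,1),(4,1)]) (.cons (.leaf 1 [(4,1),(1,1),(7,1)]) (.cons (.leaf 1 [(4,1),(7,1),(1,1)]) (.cons (.leaf 1 [(1,1),(4,1),(9,1)]) (.cons (.leaf 1 [(9,1),(4,1),(1,1)]) (.cons (.leaf 1 [(11,1),(12,1)]) (.cons (.leaf 1 [(11,3),(7,1),(0,1),(12,1)]) .nil)))))))))) .nil)))))))))) (.cons (.keep [5,7,8,9,10,11] (.node (.cons (.leaf 1 []) (.cons (.keep [3,8,9,11,12] (.node (.cons (.leaf 1 [(9,1),(4,1)]) (.cons (.leaf 1 [(9,1),(4,1)]) (.cons (.leaf 1 [(4,1),(9,1),(7,1)]) (.cons (.leaf 1 [(4,1),(9,1),(7,1)]) (.cons (.leaf 1 [(4,1)]) (.cons (.leaf 1 [(4,1)]) (.cons (.leaf 1 [(9,1),(11,1)]) (.cons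 (.leaf 1 [(9,2),(0,1),(11,1)]) .nil)))))))))) (.cons (.leaf 1 [(1,1)]) (.cons (.leaf 1 [(1,1),(9,1),(12,1)]) (.cons (.leaf 1 [(1,1)]) (.cons (.keep [4,7,8,9,10,12] (.node (.cons (.leaf 1 [(7,1),(10,2),(4,1)]) (.cons (.leaf 1 [(7,1),(10,2),(4,1)]) (.cons (.leaf 1 [(4,1),(1,1),(8,1)]) (.cons (.leaf 1 [(4,1),(8,1),(1,1)]) (.cons (.leaf 1 [(1,1),(4,1),(7,1)]) (.cons (.leaf 1 [(7,1),(4,1),(1,1)]) (.cons (.leaf 1 [(12,1),(10,1)]) (.cons (.leaf 1 [(7,1),(10,3),(0,1),(12,1)]) .nil)))))))))) (.cons (.leaf 1 [(1,1)]) (.cons (.keep [0,1,3,8,11,12] (.node (.cons (.leaf 1 [(8,2),(4,1)]) (.cons (.leaf 1 [(8,2),(4,1)]) (.cons (.leaf 1 [(4,1),(8,1),(9,1)]) (.cons (.leaf 1 [(4,1),(8,1),(9,1)]) (.cons (.leaf 1 [(1,1),(4,1)]) (.cons (.leaf 1 [(1,1),(4,1)]) (.cons (.leaf 1 [(8,1),(12,1)]) (.cons (.leaf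 1 [(8,3),(0,1),(12,1)]) .nil)))))))))) .nil)))))))))) (.cons (.leaf 1 [(1,1),(8,1)]) (.cons (.leaf 1 [(1,1),(8,1)]) (.cons (.leaf 1 [(11,1),(8,1),(1,1)]) (.cons (.leaf 1 [(11,1),(8,1),(1,1)]) (.cons (.keep [1,6,7,11] (.node (.cons (.leaf 1 [(4,1)]) (.cons (.keep [3,7,8,9,10] (.node (.cons (.leaf 1 [(4,1)]) (.cons (.leaf 1 [(4,1)]) (.cons (.leaf 1 [(4,1),(7,1)]) (.cons (.leaf 1 [(4,1),(7,1)]) (.cons (.leaf 1 [(9,1),(4,1),(7,1)]) (.cons (.leaf 1 [(9,1),(4,1),(7,1)]) (.cons (.leaf 1 [(11,1)]) (.cons (.leaf 1 [(0,1),(11,1)]) .nil)))))))))) (.cons (.leaf 1 [(4,1)]) (.cons (.leaf 1 [(1,1),(10,1)]) (.cons (.leaf 1 [(4,1)]) (.cons (.keep [0,1,4,9,10] (.node (.cons (.leaf 1 [(8,1),(4,1)]) (.cons (.leaf 1 [(8,1),(4,1)]) (.cons (.leaf 1 [(4,1)]) (.cons (.leaf 1 [(4,1)]) (.cons (.leaf 1 [(9,1),(4,1)])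 (.cons (.leaf 1 [(9,1),(4,1)]) (.cons (.leaf 1 [(11,1)]) (.cons (.leaf 1 [(8,1),(0,1),(11,1)]) .nil)))))))))) (.cons (.leaf 1 []) (.cons (.keep [0,3,7,9,10] (.node (.cons (.leaf 1 [(9,1),(8,1),(4,1)]) (.cons (.leaf 1 [(9,1),(8,1),(4,1)]) (.cons (.leaf 1 [(4,1),(8,1)]) (.cons (.leaf 1 [(4,1),(8,1)]) (.cons (.leaf 1 [(4,1)]) (.cons (.leaf 1 [(4,1)]) (.cons (.leaf 1 [(11,1)]) (.cons (.leaf 1 [(9,1),(8,1),(0,1),(11,1)]) .nil)))))))))) .nil)))))))))) (.cons (.keep [5,7,9,10,11] (.node (.cons (.leaf 1 [(3,1)]) (.cons (.keep [4,5,7,10,11] (.node (.cons (.leaf 1 [(9,1),(4,1)]) (.cons (.leaf 1 [(9,1),(4,1)]) (.cons (.leaf 1 [(9,2),(4,1),(7,1)]) (.cons (.leaf 1 [(9,2),(4,1),(7,1)]) (.cons (.leaf 1 [(7,1),(2,1),(4,1)]) (.cons (.leaf 1 [(7,1),(2,1),(4,1)]) (.cons (.leaf 1 [(9,1),(11,1)]) (.cons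 (.leaf 1 [(9,2),(0,1),(11,1)]) .nil)))))))))) (.cons (.leaf 1 [(3,1)]) (.cons (.leaf 1 [(1,1),(7,1),(11,1)]) (.cons (.leaf 1 []) (.cons (.keep [0,7,8,10,11] (.node (.cons (.leaf 1 [(10,1),(8,2),(4,1)]) (.cons (.leaf 1 [(10,1),(8,2),(4,1)]) (.cons (.leaf 1 [(4,1),(8,1)]) (.cons (.leaf 1 [(4,1),(8,1)]) (.cons (.leaf 1 [(4,1)]) (.cons (.leaf 1 [(4,1)]) (.cons (.leaf 1 [(11,1),(8,1)]) (.cons (.leaf 1 [(10,1),(8,3),(0,1),(11,1)]) .nil)))))))))) (.cons (.leaf 1 [(3,1)]) (.cons (.keep [0,3,8,10,11] (.node (.cons (.leaf 1 [(8,3),(10,1),(4,1)]) (.cons (.leaf 1 [(8,3),(10,1),(4,1)]) (.cons (.leaf 1 [(8,2),(4,1)]) (.cons (.leaf 1 [(8,2),(4,1)]) (.cons (.leaf 1 [(2,1),(4,1)]) (.cons (.leaf 1 [(2,1),(4,1)]) (.cons (.leaf 1 [(8,1),(11,1)]) (.cons (.leaf 1 [(8,4),(10,1),(0,1),(11,1)]) .nil))))))))))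 .nil)))))))))) .nil)))))))))) (.cons (.keep [4,6,8,9,10] (.leaf 0 [(0,0)])) (.cons (.keep [0,1,8,9,10] (.node (.cons (.keep [4,6,7,9,10] (.node (.cons (.leaf 1 [(8,1)]) (.cons (.keep [0,8,9,10,11] (.node (.cons (.leaf 1 [(10,1),(4,1)]) (.cons (.leaf 1 [(10,1),(4,1)]) (.cons (.leaf 1 [(4,1)]) (.cons (.leaf 1 [(4,1)]) (.cons (.leaf 1 [(8,1),(4,1)]) (.cons (.leaf 1 [(8,1),(4,1)]) (.cons (.leaf 1 [(10,1),(11,1)]) (.cons (.leaf 1 [(10,2),(0,1),(11,1)]) .nil)))))))))) (.cons (.leaf 1 [(1,1),(8,1)]) (.cons (.leaf 1 [(1,1),(10,1),(11,1)]) (.cons (.leaf 1 [(1,1),(4,1)]) (.cons (.keep [0,1,4,9,11] (.node (.cons (.leaf 1 [(8,2),(4,1)]) (.cons (.leaf 1 [(8,2),(4,1)]) (.cons (.leaf 1 [(1,1),(4,1)]) (.cons (.leaf 1 [(1,1),(4,1)]) (.cons (.leaf 1 [(8,1),(4,1),(9,1)]) (.cons (.leaf 1 [(8,1),(4,1),(9,1)])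 (.cons (.leaf 1 [(8,1),(11,1)]) (.cons (.leaf 1 [(8,3),(0,1),(11,1)]) .nil)))))))))) (.cons (.leaf 1 [(8,1),(1,1)]) (.cons (.keep [3,7,8,9,10,11] (.node (.cons (.leaf 1 [(11,2),(7,1),(4,1)]) (.cons (.leaf 1 [(11,2),(7,1),(4,1)]) (.cons (.leaf 1 [(4,1),(1,1),(7,1)]) (.cons (.leaf 1 [(4,1),(7,1),(1,1)]) (.cons (.leaf 1 [(1,1),(4,1),(9,1)]) (.cons (.leaf 1 [(9,1),(4,1),(1,1)]) (.cons (.leaf 1 [(11,1),(12,1)]) (.cons (.leaf 1 [(11,3),(7,1),(0,1),(12,1)]) .nil)))))))))) .nil)))))))))) (.cons (.keep [5,7,8,9,10] (.node (.cons (.leaf 1 []) (.cons (.keep [0,7,8,10,11] (.node (.cons (.leaf 1 [(10,1),(8,1),(4,1)]) (.cons (.leaf 1 [(10,1),(8,1),(4,1)]) (.cons (.leaf 1 [(4,1),(8,1)]) (.cons (.leaf 1 [(4,1),(8,1)]) (.cons (.leaf 1 [(4,1)]) (.cons (.leaf 1 [(4,1)]) (.cons (.leaf 1 [(10,1),(8,1),(11,1)])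 (.cons (.leaf 1 [(10,2),(8,2),(0,1),(11,1)]) .nil)))))))))) (.cons (.leaf 1 [(1,1)]) (.cons (.leaf 1 [(1,1),(10,1),(7,1),(11,1)]) (.cons (.leaf 1 [(1,1)]) (.cons (.keep [1,7,8,9,11] (.node (.cons (.leaf 1 [(7,2),(8,1),(4,1)]) (.cons (.leaf 1 [(7,2),(8,1),(4,1)]) (.cons (.leaf 1 [(4,1),(1,1),(8,1)]) (.cons (.leaf 1 [(4,1),(8,1),(1,1)]) (.cons (.leaf 1 [(7,1),(4,1)]) (.cons (.leaf 1 [(7,1),(4,1)]) (.cons (.leaf 1 [(7,1),(8,1),(11,1)]) (.cons (.leaf 1 [(7,3),(8,2),(0,1),(11,1)]) .nil)))))))))) (.cons (.leaf 1 [(1,1)]) (.cons (.keep [0,3,8,10,11] (.node (.cons (.leaf 1 [(10,2),(8,2),(4,1)]) (.cons (.leaf 1 [(10,2),(8,2),(4,1)]) (.cons (.leaf 1 [(4,1),(1,1),(8,2)]) (.cons (.leaf 1 [(4,1),(1,1),(8,2)]) (.cons (.leaf 1 [(1,1),(4,1)]) (.cons (.leaf 1 [(1,1),(4,1)]) (.cons (.leaf 1 [(10,1),(8,1),(11,1)])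 (.cons (.leaf 1 [(10,3),(8,3),(0,1),(11,1)]) .nil)))))))))) .nil)))))))))) (.cons (.leaf 1 [(9,1)]) (.cons (.leaf 1 [(9,1),(5,1)]) (.cons (.leaf 1 [(10,1),(9,1)]) (.cons (.leaf 1 [(10,1),(9,1),(5,1)]) (.cons (.keep [1,6,7,10] (.node (.cons (.leaf 1 [(4,1)]) (.cons (.keep [3,7,8,9,10] (.node (.cons (.leaf 1 [(4,1)]) (.cons (.leaf 1 [(4,1)]) (.cons (.leaf 1 [(4,1),(7,1)]) (.cons (.leaf 1 [(4,1),(7,1)]) (.cons (.leaf 1 [(9,1),(4,1),(7,1)]) (.cons (.leaf 1 [(9,1),(4,1),(7,1)]) (.cons (.leaf 1 [(11,1)]) (.cons (.leaf 1 [(0,1),(11,1)]) .nil)))))))))) (.cons (.leaf 1 [(4,1)]) (.cons (.leaf 1 [(1,1),(10,1)]) (.cons (.leaf 1 [(4,1)]) (.cons (.keep [0,1,4,9,10] (.node (.cons (.leaf 1 [(8,1),(4,1)]) (.cons (.leaf 1 [(8,1),(4,1)]) (.cons (.leaf 1 [(4,1)]) (.cons (.leaf 1 [(4,1)]) (.cons (.leaf 1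 [(9,1),(4,1)]) (.cons (.leaf 1 [(9,1),(4,1)]) (.cons (.leaf 1 [(11,1)]) (.cons (.leaf 1 [(8,1),(0,1),(11,1)]) .nil)))))))))) (.cons (.leaf 1 []) (.cons (.keep [0,3,7,9,10] (.node (.cons (.leaf 1 [(9,1),(8,1),(4,1)]) (.cons (.leaf 1 [(9,1),(8,1),(4,1)]) (.cons (.leaf 1 [(4,1),(8,1)]) (.cons (.leaf 1 [(4,1),(8,1)]) (.cons (.leaf 1 [(4,1)]) (.cons (.leaf 1 [(4,1)]) (.cons (.leaf 1 [(11,1)]) (.cons (.leaf 1 [(9,1),(8,1),(0,1),(11,1)]) .nil)))))))))) .nil)))))))))) (.cons (.keep [1,5,7,8,10] (.node (.cons (.leaf 1 [(3,1)]) (.cons (.keep [4,5,7,8,11] (.node (.cons (.leaf 1 [(10,1),(4,1)]) (.cons (.leaf 1 [(10,1),(4,1)]) (.cons (.leaf 1 [(10,2),(4,1),(7,1)]) (.cons (.leaf 1 [(10,2),(4,1),(7,1)]) (.cons (.leaf 1 [(7,1),(2,1),(4,1)]) (.cons (.leaf 1 [(7,1),(2,1),(4,1)]) (.cons (.leaf 1 [(10,1),(11,1)])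 (.cons (.leaf 1 [(10,2),(0,1),(11,1)]) .nil)))))))))) (.cons (.leaf 1 [(3,1)]) (.cons (.leaf 1 [(1,1),(8,1),(11,1)]) (.cons (.leaf 1 []) (.cons (.keep [0,1,8,9,11] (.node (.cons (.leaf 1 [(8,1),(9,1),(4,1)]) (.cons (.leaf 1 [(8,1),(9,1),(4,1)]) (.cons (.leaf 1 [(4,1),(9,1)]) (.cons (.leaf 1 [(4,1),(9,1)]) (.cons (.leaf 1 [(4,1)]) (.cons (.leaf 1 [(4,1)]) (.cons (.leaf 1 [(11,1),(9,1)]) (.cons (.leaf 1 [(8,1),(9,2),(0,1),(11,1)]) .nil)))))))))) (.cons (.leaf 1 [(3,1)]) (.cons (.keep [0,3,7,9,11] (.node (.cons (.leaf 1 [(8,2),(9,1),(4,1)]) (.cons (.leaf 1 [(8,2),(9,1),(4,1)]) (.cons (.leaf 1 [(8,2),(4,1)]) (.cons (.leaf 1 [(8,2),(4,1)]) (.cons (.leaf 1 [(2,1),(4,1)]) (.cons (.leaf 1 [(2,1),(4,1)]) (.cons (.leaf 1 [(8,1),(11,1)]) (.cons (.leaf 1 [(8,3),(9,1),(0,1),(11,1)]) .nil))))))))))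 .nil)))))))))) .nil)))))))))) (.cons (.leaf 1 [(2,1)]) (.cons (.leaf 1 [(2,1)]) (.cons (.leaf 1 [(9,1),(2,1)]) (.cons (.leaf 1 [(9,1),(2,1)]) .nil)))))))))

theorem c_15_24_31 : Concl 15 24 z_15_24_31 h_15_24_31 .nd := piece _ (hP_cons E45.c_15_24_22
  hP_nil) t_15_24_31 _ _ (by decide +kernel)

def z_15_24_32 : F := ⟨1, 0, -1, 0, 1⟩

def h_15_24_32 : List F := [⟨1, 0, 0, 0, 0⟩, ⟨1, -1, 0, 0, 0⟩, ⟨0, 0, 1, -1, 0⟩, ⟨0, 0, -1, 0, 1⟩]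

def t_15_24_32 : T := (.node (.cons (.keep [2,3,6,9] (.leaf 0 [(0,0)])) (.cons (.keep [2,3,5,7,9] (.leaf 0 [(1,0)])) (.cons (.keep [1,6,9,10] (.leaf 0 [(2,0)])) (.cons (.keep [1,5,8,9,10] (.leaf 0 [(3,0)])) (.cons (.keep [1,2,4,6,10] (.leaf 0 [(4,0)])) (.cons (.keep [1,2,5,7,10] (.node (.cons (.leaf 1 [(8,1),(2,1)]) (.cons (.keep [0,2,7,8,9] (.node (.cons (.keep [4,6,7,8,11] (.node (.cons (.leaf 1 [(4,1),(11,1)]) (.cons (.keep [0,3,8,9,10,11] (.node (.cons (.leaf 1 [(4,1)]) (.cons (.leaf 1 [(12,1),(4,1)]) (.cons (.leaf 1 [(4,1)]) (.cons (.leaf 1 [(4,1),(12,1),(0,1)]) (.cons (.leaf 1 [(4,1)]) (.cons (.leaf 1 [(4,1),(12,1),(0,1)]) (.cons (.leaf 1 []) (.cons (.leaf 1 [(12,1),(0,1)]) .nil)))))))))) (.cons (.leaf 1 [(1,1)]) (.cons (.leaf 1 [(1,1)]) (.cons (.leaf 1 [(4,1),(11,1)]) (.cons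 (.keep [0,1,4,9,11] (.node (.cons (.leaf 1 [(4,1)]) (.cons (.leaf 1 [(8,1),(11,1),(4,1)]) (.cons (.leaf 1 [(4,1)]) (.cons (.leaf 1 [(4,1),(11,1)]) (.cons (.leaf 1 [(4,1)]) (.cons (.leaf 1 [(8,1),(4,1),(11,1),(0,1)]) (.cons (.leaf 1 []) (.cons (.leaf 1 [(8,1),(11,1),(0,1)]) .nil)))))))))) (.cons (.leaf 1 [(11,1)]) (.cons (.keep [0,3,9,10,11] (.node (.cons (.leaf 1 [(4,1)]) (.cons (.leaf 1 [(10,1),(8,1),(11,1),(4,1)]) (.cons (.leaf 1 [(4,1)]) (.cons (.leaf 1 [(4,1),(8,1),(11,1)]) (.cons (.leaf 1 [(4,1)]) (.cons (.leaf 1 [(4,1),(11,1)]) (.cons (.leaf 1 []) (.cons (.leaf 1 [(10,1),(8,1),(11,1),(0,1)]) .nil)))))))))) .nil)))))))))) (.cons (.keep [5,7,8,9,10,11] (.node (.cons (.leaf 1 [(3,1),(11,1),(12,1)]) (.cons (.keep [0,4,7,8,9,11,12] (.node (.cons (.leaf 1 [(4,1)]) (.cons (.leaf 1 [(13,1),(4,1)])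 (.cons (.leaf 1 [(4,1)]) (.cons (.leaf 1 [(4,1),(13,1),(0,1)]) (.cons (.leaf 1 [(4,1)]) (.cons (.leaf 1 [(4,1),(13,1),(0,1)]) (.cons (.leaf 1 []) (.cons (.leaf 1 [(13,1),(0,1)]) .nil)))))))))) (.cons (.leaf 1 [(1,1)]) (.cons (.leaf 1 [(1,1)]) (.cons (.leaf 1 [(4,1),(12,1)]) (.cons (.keep [0,4,8,9,12] (.node (.cons (.leaf 1 [(4,1)]) (.cons (.leaf 1 [(8,1),(10,1),(11,1),(4,1)]) (.cons (.leaf 1 [(4,1)]) (.cons (.leaf 1 [(4,1),(11,1)]) (.cons (.leaf 1 [(4,1)]) (.cons (.leaf 1 [(8,1),(4,1),(11,1)]) (.cons (.leaf 1 []) (.cons (.leaf 1 [(8,1),(10,1),(11,1),(0,1)]) .nil)))))))))) (.cons (.leaf 1 [(12,1)]) (.cons (.keep [0,1,3,8,11,12] (.node (.cons (.leaf 1 [(4,1)]) (.cons (.leaf 1 [(8,1),(12,1),(4,1)]) (.cons (.leaf 1 [(4,1)]) (.cons (.leaf 1 [(4,1),(8,1),(12,1),(0,1)]) (.cons (.leaf 1 [(4,1)])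 (.cons (.leaf 1 [(4,1),(12,1)]) (.cons (.leaf 1 []) (.cons (.leaf 1 [(8,1),(12,1),(0,1)]) .nil)))))))))) .nil)))))))))) (.cons (.leaf 1 [(1,1),(11,1)]) (.cons (.leaf 1 [(1,1),(11,1)]) (.cons (.leaf 1 [(1,1)]) (.cons (.leaf 1 [(1,1)]) (.cons (.keep [1,6,7,11] (.node (.cons (.leaf 1 [(4,1),(10,1)]) (.cons (.keep [0,3,7,8,9,10] (.node (.cons (.leaf 1 [(4,1)]) (.cons (.leaf 1 [(12,1),(4,1)]) (.cons (.leaf 1 [(4,1)]) (.cons (.leaf 1 [(4,1),(12,1),(0,1)]) (.cons (.leaf 1 [(4,1)]) (.cons (.leaf 1 [(4,1),(12,1),(0,1)]) (.cons (.leaf 1 []) (.cons (.leaf 1 [(12,1),(0,1)]) .nil)))))))))) (.cons (.leaf 1 [(1,1)]) (.cons (.leaf 1 [(1,1)]) (.cons (.leaf 1 [(4,1),(10,1)]) (.cons (.keep [0,1,4,9,10] (.node (.cons (.leaf 1 [(4,1)]) (.cons (.leaf 1 [(8,1),(11,1),(4,1)]) (.cons (.leaf 1 [(4,1)]) (.cons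 (.leaf 1 [(4,1),(11,1)]) (.cons (.leaf 1 [(4,1)]) (.cons (.leaf 1 [(8,1),(4,1),(11,1),(0,1)]) (.cons (.leaf 1 []) (.cons (.leaf 1 [(8,1),(11,1),(0,1)]) .nil)))))))))) (.cons (.leaf 1 [(10,1)]) (.cons (.keep [0,3,7,9,10] (.node (.cons (.leaf 1 [(4,1)]) (.cons (.leaf 1 [(9,1),(8,1),(11,1),(4,1)]) (.cons (.leaf 1 [(4,1)]) (.cons (.leaf 1 [(4,1),(8,1),(11,1)]) (.cons (.leaf 1 [(4,1)]) (.cons (.leaf 1 [(4,1),(11,1)]) (.cons (.leaf 1 []) (.cons (.leaf 1 [(9,1),(8,1),(11,1),(0,1)]) .nil)))))))))) .nil)))))))))) (.cons (.keep [5,7,9,10,11] (.node (.cons (.leaf 1 [(3,2),(10,1),(11,1)]) (.cons (.keep [0,4,7,8,10,11] (.node (.cons (.leaf 1 [(4,1)]) (.cons (.leaf 1 [(12,1),(4,1)]) (.cons (.leaf 1 [(4,1)]) (.cons (.leaf 1 [(4,1),(12,1),(0,1)]) (.cons (.leaf 1 [(4,1)]) (.cons (.leaf 1 [(4,1),(12,1),(0,1)])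 (.cons (.leaf 1 []) (.cons (.leaf 1 [(12,1),(0,1)]) .nil)))))))))) (.cons (.leaf 1 [(1,1)]) (.cons (.leaf 1 [(1,1)]) (.cons (.leaf 1 [(4,1),(11,1)]) (.cons (.keep [0,7,8,10,11] (.node (.cons (.leaf 1 [(4,1)]) (.cons (.leaf 1 [(10,1),(8,1),(11,1),(4,1)]) (.cons (.leaf 1 [(4,1)]) (.cons (.leaf 1 [(4,1),(11,1)]) (.cons (.leaf 1 [(4,1)]) (.cons (.leaf 2 [(10,1),(4,2),(11,2),(0,1)]) (.cons (.leaf 1 []) (.cons (.leaf 1 [(10,1),(8,1),(11,1),(0,1)]) .nil)))))))))) (.cons (.leaf 1 [(11,1)]) (.cons (.keep [0,3,8,10,11] (.node (.cons (.leaf 1 [(4,1)]) (.cons (.leaf 1 [(10,1),(8,2),(11,1),(4,1)]) (.cons (.leaf 1 [(4,1)]) (.cons (.leaf 1 [(4,1),(8,1),(11,1)]) (.cons (.leaf 1 [(4,1)]) (.cons (.leaf 1 [(4,1),(11,1)]) (.cons (.leaf 1 []) (.cons (.leaf 1 [(10,1),(8,2),(11,1),(0,1)]) .nil)))))))))) .nil))))))))))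 .nil)))))))))) (.cons (.leaf 1 [(8,1)]) (.cons (.keep [0,1,8,9,11] (.node (.cons (.keep [4,6,7,9,10] (.node (.cons (.leaf 1 [(4,1),(11,1)]) (.cons (.keep [0,3,8,9,10,11] (.node (.cons (.leaf 1 [(4,1)]) (.cons (.leaf 1 [(12,1),(4,1)]) (.cons (.leaf 1 [(4,1)]) (.cons (.leaf 1 [(4,1),(12,1),(0,1)]) (.cons (.leaf 1 [(4,1)]) (.cons (.leaf 1 [(4,1),(12,1),(0,1)]) (.cons (.leaf 1 []) (.cons (.leaf 1 [(12,1),(0,1)]) .nil)))))))))) (.cons (.leaf 1 [(1,1)]) (.cons (.leaf 1 [(1,1)]) (.cons (.leaf 1 [(4,1),(11,1)]) (.cons (.keep [0,1,4,9,11] (.node (.cons (.leaf 1 [(4,1)]) (.cons (.leaf 1 [(8,1),(11,1),(4,1)]) (.cons (.leaf 1 [(4,1)]) (.cons (.leaf 1 [(4,1),(11,1)]) (.cons (.leaf 1 [(4,1)]) (.cons (.leaf 1 [(8,1),(4,1),(11,1),(0,1)]) (.cons (.leaf 1 []) (.cons (.leaf 1 [(8,1),(11,1),(0,1)]) .nil))))))))))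 (.cons (.leaf 1 [(11,1)]) (.cons (.keep [0,3,9,10,11] (.node (.cons (.leaf 1 [(4,1)]) (.cons (.leaf 1 [(10,1),(8,1),(11,1),(4,1)]) (.cons (.leaf 1 [(4,1)]) (.cons (.leaf 1 [(4,1),(8,1),(11,1)]) (.cons (.leaf 1 [(4,1)]) (.cons (.leaf 1 [(4,1),(11,1)]) (.cons (.leaf 1 []) (.cons (.leaf 1 [(10,1),(8,1),(11,1),(0,1)]) .nil)))))))))) .nil)))))))))) (.cons (.keep [5,7,8,9,10] (.node (.cons (.leaf 1 [(4,1),(11,1)]) (.cons (.keep [0,4,7,8,10,11] (.node (.cons (.leaf 1 [(4,1)]) (.cons (.leaf 1 [(12,1),(4,1)]) (.cons (.leaf 1 [(4,1)]) (.cons (.leaf 1 [(4,1),(12,1),(0,1)]) (.cons (.leaf 1 [(4,1)]) (.cons (.leaf 1 [(4,1),(12,1),(0,1)]) (.cons (.leaf 1 []) (.cons (.leaf 1 [(12,1),(0,1)]) .nil)))))))))) (.cons (.leaf 1 [(1,1)]) (.cons (.leaf 1 [(1,1)]) (.cons (.leaf 1 [(4,1),(11,1)]) (.cons (.keep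 [0,1,7,8,9,11] (.node (.cons (.leaf 1 [(4,1)]) (.cons (.leaf 1 [(8,1),(12,1),(4,1)]) (.cons (.leaf 1 [(4,1)]) (.cons (.leaf 1 [(4,1),(12,1)]) (.cons (.leaf 1 [(4,1)]) (.cons (.leaf 1 [(8,1),(4,1),(12,1),(0,1)]) (.cons (.leaf 1 []) (.cons (.leaf 1 [(8,1),(12,1),(0,1)]) .nil)))))))))) (.cons (.leaf 1 [(11,1)]) (.cons (.keep [0,3,8,10,11] (.node (.cons (.leaf 1 [(4,1)]) (.cons (.leaf 1 [(10,1),(8,1),(11,1),(4,1)]) (.cons (.leaf 1 [(4,1)]) (.cons (.leaf 1 [(4,1),(8,1),(11,1)]) (.cons (.leaf 1 [(4,1)]) (.cons (.leaf 1 [(4,1),(11,1)]) (.cons (.leaf 1 []) (.cons (.leaf 1 [(10,1),(8,1),(11,1),(0,1)]) .nil)))))))))) .nil)))))))))) (.cons (.leaf 1 [(1,1),(10,1)]) (.cons (.leaf 1 [(1,1),(10,1)]) (.cons (.leaf 1 [(1,1)]) (.cons (.leaf 1 [(1,1)]) (.cons (.keep [1,6,7,10] (.node (.cons (.leaf 1 [(4,1),(10,1)])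 (.cons (.keep [0,3,7,8,9,10] (.node (.cons (.leaf 1 [(4,1)]) (.cons (.leaf 1 [(12,1),(4,1)]) (.cons (.leaf 1 [(4,1)]) (.cons (.leaf 1 [(4,1),(12,1),(0,1)]) (.cons (.leaf 1 [(4,1)]) (.cons (.leaf 1 [(4,1),(12,1),(0,1)]) (.cons (.leaf 1 []) (.cons (.leaf 1 [(12,1),(0,1)]) .nil)))))))))) (.cons (.leaf 1 [(1,1)]) (.cons (.leaf 1 [(1,1)]) (.cons (.leaf 1 [(4,1),(10,1)]) (.cons (.keep [0,1,4,9,10] (.node (.cons (.leaf 1 [(4,1)]) (.cons (.leaf 1 [(8,1),(11,1),(4,1)]) (.cons (.leaf 1 [(4,1)]) (.cons (.leaf 1 [(4,1),(11,1)]) (.cons (.leaf 1 [(4,1)]) (.cons (.leaf 1 [(8,1),(4,1),(11,1),(0,1)]) (.cons (.leaf 1 []) (.cons (.leaf 1 [(8,1),(11,1),(0,1)]) .nil)))))))))) (.cons (.leaf 1 [(10,1)]) (.cons (.keep [0,3,7,9,10] (.node (.cons (.leaf 1 [(4,1)]) (.cons (.leaf 1 [(9,1),(8,1),(11,1),(4,1)]) (.cons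 (.leaf 1 [(4,1)]) (.cons (.leaf 1 [(4,1),(8,1),(11,1)]) (.cons (.leaf 1 [(4,1)]) (.cons (.leaf 1 [(4,1),(11,1)]) (.cons (.leaf 1 []) (.cons (.leaf 1 [(9,1),(8,1),(11,1),(0,1)]) .nil)))))))))) .nil)))))))))) (.cons (.keep [1,5,7,8,10] (.node (.cons (.leaf 1 [(4,1),(11,1)]) (.cons (.keep [0,4,7,8,9,11] (.node (.cons (.leaf 1 [(4,1)]) (.cons (.leaf 1 [(12,1),(4,1)]) (.cons (.leaf 1 [(4,1)]) (.cons (.leaf 1 [(4,1),(12,1),(0,1)]) (.cons (.leaf 1 [(4,1)]) (.cons (.leaf 1 [(4,1),(12,1),(0,1)]) (.cons (.leaf 1 []) (.cons (.leaf 1 [(12,1),(0,1)]) .nil)))))))))) (.cons (.leaf 1 [(1,1)]) (.cons (.leaf 1 [(1,1)]) (.cons (.leaf 1 [(4,1),(11,1)]) (.cons (.keep [0,1,4,8,9,11] (.node (.cons (.leaf 1 [(4,1)]) (.cons (.leaf 1 [(8,1),(12,1),(4,1)]) (.cons (.leaf 1 [(4,1)]) (.cons (.leaf 1 [(4,1),(12,1)])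 (.cons (.leaf 1 [(4,1)]) (.cons (.leaf 1 [(8,1),(4,1),(12,1),(0,1)]) (.cons (.leaf 1 []) (.cons (.leaf 1 [(8,1),(12,1),(0,1)]) .nil)))))))))) (.cons (.leaf 1 [(11,1)]) (.cons (.keep [0,3,7,9,11] (.node (.cons (.leaf 1 [(4,1)]) (.cons (.leaf 1 [(9,1),(8,1),(11,1),(4,1)]) (.cons (.leaf 1 [(4,1)]) (.cons (.leaf 1 [(4,1),(8,1),(11,1)]) (.cons (.leaf 1 [(4,1)]) (.cons (.leaf 1 [(4,1),(11,1)]) (.cons (.leaf 1 []) (.cons (.leaf 1 [(9,1),(8,1),(11,1),(0,1)]) .nil)))))))))) .nil)))))))))) .nil)))))))))) (.cons (.leaf 1 [(8,1),(2,1)]) (.cons (.leaf 1 [(1,1),(9,1)]) (.cons (.leaf 1 [(1,1)]) (.cons (.leaf 1 [(1,1)]) .nil)))))))))) (.cons (.leaf 1 [(9,1),(1,1)]) (.cons (.leaf 1 [(9,1),(5,1),(1,1)]) .nil)))))))))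

theorem c_15_24_32 : Concl 15 24 z_15_24_32 h_15_24_32 .nd := piece _ (hP_cons E42.c_15_24_9
  (hP_cons E42.c_15_24_6 (hP_cons E45.c_15_24_8 (hP_cons E45.c_15_24_7 (hP_cons E42.c_15_24_10
  hP_nil))))) t_15_24_32 _ _ (by decide +kernel)

def t_15_24 : T := (.keep [0,1,2] (.node (.cons (.keep [2,3,4,6] (.leaf 0 [(0,0)])) (.cons (.keep [0,2,3,5] (.node (.cons (.leaf 1 [(8,1)]) (.cons (.keep [0,2,8,10] (.node (.cons (.keep [4,6,7,8,10] (.node (.cons (.leaf 1 [(4,1),(11,1)]) (.cons (.keep [0,3,8,9,10,11] (.node (.cons (.leaf 1 [(4,1)]) (.cons (.leaf 1 [(12,1),(4,1)]) (.cons (.leaf 1 [(4,1)]) (.cons (.leaf 1 [(4,1),(12,1),(0,1)]) (.cons (.leaf 1 [(4,1)]) (.cons (.leaf 1 [(4,1),(12,1),(0,1)]) (.cons (.leaf 1 []) (.cons (.leaf 1 [(12,1),(0,1)]) .nil)))))))))) (.cons (.leaf 1 [(1,1)]) (.cons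 (.leaf 1 [(1,1)]) (.cons (.leaf 1 [(4,1),(11,1)]) (.cons (.keep [0,1,4,9,11] (.node (.cons (.leaf 1 [(4,1)]) (.cons (.leaf 1 [(8,1),(11,1),(4,1)]) (.cons (.leaf 1 [(4,1)]) (.cons (.leaf 1 [(4,1),(11,1)]) (.cons (.leaf 1 [(4,1)]) (.cons (.leaf 1 [(8,1),(4,1),(11,1),(0,1)]) (.cons (.leaf 1 []) (.cons (.leaf 1 [(8,1),(11,1),(0,1)]) .nil)))))))))) (.cons (.leaf 1 [(11,1)]) (.cons (.keep [0,3,9,10,11] (.node (.cons (.leaf 1 [(4,1)]) (.cons (.leaf 1 [(10,1),(8,1),(11,1),(4,1)]) (.cons (.leaf 1 [(4,1)]) (.cons (.leaf 1 [(4,1),(8,1),(11,1)]) (.cons (.leaf 1 [(4,1)]) (.cons (.leaf 1 [(4,1),(11,1)]) (.cons (.leaf 1 []) (.cons (.leaf 1 [(10,1),(8,1),(11,1),(0,1)]) .nil)))))))))) .nil)))))))))) (.cons (.keep [0,4,8,9,10] (.node (.cons (.leaf 1 [(4,1),(11,1)]) (.cons (.keep [0,3,4,7,9,10,11] (.node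 (.cons (.leaf 1 [(4,1)]) (.cons (.leaf 1 [(13,1),(4,1)]) (.cons (.leaf 1 [(4,1)]) (.cons (.leaf 1 [(4,1),(13,1),(0,1)]) (.cons (.leaf 1 [(4,1)]) (.cons (.leaf 1 [(4,1),(13,1),(0,1)]) (.cons (.leaf 1 []) (.cons (.leaf 1 [(13,1),(0,1)]) .nil)))))))))) (.cons (.leaf 1 [(1,1)]) (.cons (.leaf 1 [(1,1)]) (.cons (.leaf 1 [(4,1),(11,1)]) (.cons (.keep [0,4,7,9,11] (.node (.cons (.leaf 1 [(4,1)]) (.cons (.leaf 1 [(8,1),(10,1),(11,1),(4,1)]) (.cons (.leaf 1 [(4,1)]) (.cons (.leaf 1 [(4,1),(11,1)]) (.cons (.leaf 1 [(4,1)]) (.cons (.leaf 1 [(8,1),(4,1),(11,1)]) (.cons (.leaf 1 []) (.cons (.leaf 1 [(8,1),(10,1),(11,1),(0,1)]) .nil)))))))))) (.cons (.leaf 1 [(11,1)]) (.cons (.keep [0,3,7,10,11] (.node (.cons (.leaf 1 [(4,1)]) (.cons (.leaf 1 [(10,1),(8,1),(11,1),(4,1)]) (.cons (.leaf 1 [(4,1)]) (.cons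 (.leaf 1 [(4,1),(8,1),(11,1)]) (.cons (.leaf 1 [(4,1)]) (.cons (.leaf 1 [(4,1),(11,1)]) (.cons (.leaf 1 []) (.cons (.leaf 1 [(10,1),(8,1),(11,1),(0,1)]) .nil)))))))))) .nil)))))))))) (.cons (.leaf 1 [(1,1),(10,1)]) (.cons (.leaf 1 [(1,1),(10,1)]) (.cons (.leaf 1 [(1,1)]) (.cons (.leaf 1 [(1,1)]) (.cons (.keep [1,6,7,10] (.node (.cons (.leaf 1 [(4,1),(10,1)]) (.cons (.keep [0,3,7,8,9,10] (.node (.cons (.leaf 1 [(4,1)]) (.cons (.leaf 1 [(12,1),(4,1)]) (.cons (.leaf 1 [(4,1)]) (.cons (.leaf 1 [(4,1),(12,1),(0,1)]) (.cons (.leaf 1 [(4,1)]) (.cons (.leaf 1 [(4,1),(12,1),(0,1)]) (.cons (.leaf 1 []) (.cons (.leaf 1 [(12,1),(0,1)]) .nil)))))))))) (.cons (.leaf 1 [(1,1)]) (.cons (.leaf 1 [(1,1)]) (.cons (.leaf 1 [(4,1),(10,1)]) (.cons (.keep [0,1,4,9,10] (.node (.cons (.leaf 1 [(4,1)]) (.cons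 (.leaf 1 [(8,1),(11,1),(4,1)]) (.cons (.leaf 1 [(4,1)]) (.cons (.leaf 1 [(4,1),(11,1)]) (.cons (.leaf 1 [(4,1)]) (.cons (.leaf 1 [(8,1),(4,1),(11,1),(0,1)]) (.cons (.leaf 1 []) (.cons (.leaf 1 [(8,1),(11,1),(0,1)]) .nil)))))))))) (.cons (.leaf 1 [(10,1)]) (.cons (.keep [0,3,7,9,10] (.node (.cons (.leaf 1 [(4,1)]) (.cons (.leaf 1 [(9,1),(8,1),(11,1),(4,1)]) (.cons (.leaf 1 [(4,1)]) (.cons (.leaf 1 [(4,1),(8,1),(11,1)]) (.cons (.leaf 1 [(4,1)]) (.cons (.leaf 1 [(4,1),(11,1)]) (.cons (.leaf 1 []) (.cons (.leaf 1 [(9,1),(8,1),(11,1),(0,1)]) .nil)))))))))) .nil)))))))))) (.cons (.keep [0,1,5,10] (.node (.cons (.leaf 1 [(4,1),(10,1)]) (.cons (.keep [0,4,7,8,9,10] (.node (.cons (.leaf 1 [(4,1)]) (.cons (.leaf 1 [(12,1),(4,1)]) (.cons (.leaf 1 [(4,1)]) (.cons (.leaf 1 [(4,1),(12,1),(0,1)]) (.cons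 (.leaf 1 [(4,1)]) (.cons (.leaf 1 [(4,1),(12,1),(0,1)]) (.cons (.leaf 1 []) (.cons (.leaf 1 [(12,1),(0,1)]) .nil)))))))))) (.cons (.leaf 1 [(1,1)]) (.cons (.leaf 1 [(1,1)]) (.cons (.leaf 1 [(4,1),(10,1)]) (.cons (.keep [0,1,4,7,9,10] (.node (.cons (.leaf 1 [(4,1)]) (.cons (.leaf 1 [(8,1),(12,1),(4,1)]) (.cons (.leaf 1 [(4,1)]) (.cons (.leaf 1 [(4,1),(12,1)]) (.cons (.leaf 1 [(4,1)]) (.cons (.leaf 1 [(8,1),(4,1),(12,1),(0,1)]) (.cons (.leaf 1 []) (.cons (.leaf 1 [(8,1),(12,1),(0,1)]) .nil)))))))))) (.cons (.leaf 1 [(10,1)]) (.cons (.keep [0,3,7,8,10] (.node (.cons (.leaf 1 [(4,1)]) (.cons (.leaf 1 [(10,1),(8,1),(11,1),(4,1)]) (.cons (.leaf 1 [(4,1)]) (.cons (.leaf 1 [(4,1),(8,1),(11,1)]) (.cons (.leaf 1 [(4,1)]) (.cons (.leaf 1 [(4,1),(11,1)]) (.cons (.leaf 1 []) (.cons (.leaf 1 [(10,1),(8,1),(11,1),(0,1)])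 .nil)))))))))) .nil)))))))))) .nil)))))))))) (.cons (.leaf 1 [(1,1),(8,1)]) (.cons (.keep [0,1,8,9,10] (.node (.cons (.keep [4,6,7,9,11] (.node (.cons (.leaf 1 [(4,1),(11,1)]) (.cons (.keep [0,3,8,9,10,11] (.node (.cons (.leaf 1 [(4,1)]) (.cons (.leaf 1 [(12,1),(4,1)]) (.cons (.leaf 1 [(4,1)]) (.cons (.leaf 1 [(4,1),(12,1),(0,1)]) (.cons (.leaf 1 [(4,1)]) (.cons (.leaf 1 [(4,1),(12,1),(0,1)]) (.cons (.leaf 1 []) (.cons (.leaf 1 [(12,1),(0,1)]) .nil)))))))))) (.cons (.leaf 1 [(1,1)]) (.cons (.leaf 1 [(1,1)]) (.cons (.leaf 1 [(4,1),(11,1)]) (.cons (.keep [0,1,4,9,11] (.node (.cons (.leaf 1 [(4,1)]) (.cons (.leaf 1 [(8,1),(11,1),(4,1)]) (.cons (.leaf 1 [(4,1)]) (.cons (.leaf 1 [(4,1),(11,1)]) (.cons (.leaf 1 [(4,1)]) (.cons (.leaf 1 [(8,1),(4,1),(11,1),(0,1)]) (.cons (.leaf 1 []) (.cons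 (.leaf 1 [(8,1),(11,1),(0,1)]) .nil)))))))))) (.cons (.leaf 1 [(11,1)]) (.cons (.keep [0,3,9,10,11] (.node (.cons (.leaf 1 [(4,1)]) (.cons (.leaf 2 [(10,1),(8,2),(11,2),(4,2)]) (.cons (.leaf 1 [(4,1)]) (.cons (.leaf 1 [(4,1),(8,1),(11,1)]) (.cons (.leaf 1 [(4,1)]) (.cons (.leaf 1 [(4,1),(11,1)]) (.cons (.leaf 1 []) (.cons (.leaf 2 [(10,1),(8,2),(11,2),(0,2)]) .nil)))))))))) .nil)))))))))) (.cons (.keep [5,7,8,9,11] (.node (.cons (.leaf 1 [(4,1),(11,1)]) (.cons (.keep [0,4,7,8,10,11] (.node (.cons (.leaf 1 [(4,1)]) (.cons (.leaf 1 [(12,1),(4,1)]) (.cons (.leaf 1 [(4,1)]) (.cons (.leaf 1 [(4,1),(12,1),(0,1)]) (.cons (.leaf 1 [(4,1)]) (.cons (.leaf 1 [(4,1),(12,1),(0,1)]) (.cons (.leaf 1 []) (.cons (.leaf 1 [(12,1),(0,1)]) .nil)))))))))) (.cons (.leaf 1 [(1,1)]) (.cons (.leaf 1 [(1,1)])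 (.cons (.leaf 1 [(4,1),(11,1)]) (.cons (.keep [0,8,9,10,11] (.node (.cons (.leaf 1 [(4,1)]) (.cons (.leaf 1 [(10,1),(11,1),(3,1),(4,1)]) (.cons (.leaf 1 [(4,1)]) (.cons (.leaf 1 [(4,1),(11,1)]) (.cons (.leaf 1 [(4,1)]) (.cons (.leaf 1 [(10,1),(4,1),(11,1),(0,2)]) (.cons (.leaf 1 []) (.cons (.leaf 1 [(10,1),(11,1),(3,1),(0,2)]) .nil)))))))))) (.cons (.leaf 1 [(11,1)]) (.cons (.keep [0,3,8,10,11] (.node (.cons (.leaf 1 [(4,1)]) (.cons (.leaf 1 [(10,1),(2,1),(11,1),(4,1)]) (.cons (.leaf 1 [(4,1)]) (.cons (.leaf 1 [(4,1),(8,1),(11,1)]) (.cons (.leaf 1 [(4,1)]) (.cons (.leaf 1 [(4,1),(11,1)]) (.cons (.leaf 1 []) (.cons (.leaf 1 [(10,1),(2,1),(11,1),(0,2)]) .nil)))))))))) .nil)))))))))) (.cons (.leaf 1 [(1,1),(11,1)]) (.cons (.leaf 1 [(1,1),(11,1)]) (.cons (.leaf 1 [(1,1)]) (.cons (.leaf 1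 [(1,1)]) (.cons (.keep [1,6,7,11] (.node (.cons (.leaf 1 [(4,1),(10,1)]) (.cons (.keep [0,3,7,8,9,10] (.node (.cons (.leaf 1 [(4,1)]) (.cons (.leaf 1 [(12,1),(4,1)]) (.cons (.leaf 1 [(4,1)]) (.cons (.leaf 1 [(4,1),(12,1),(0,1)]) (.cons (.leaf 1 [(4,1)]) (.cons (.leaf 1 [(4,1),(12,1),(0,1)]) (.cons (.leaf 1 []) (.cons (.leaf 1 [(12,1),(0,1)]) .nil)))))))))) (.cons (.leaf 1 [(1,1)]) (.cons (.leaf 1 [(1,1)]) (.cons (.leaf 1 [(4,1),(10,1)]) (.cons (.keep [0,1,4,9,10] (.node (.cons (.leaf 1 [(4,1)]) (.cons (.leaf 1 [(8,1),(11,1),(4,1)]) (.cons (.leaf 1 [(4,1)]) (.cons (.leaf 1 [(4,1),(11,1)]) (.cons (.leaf 1 [(4,1)]) (.cons (.leaf 1 [(8,1),(4,1),(11,1),(0,1)]) (.cons (.leaf 1 []) (.cons (.leaf 1 [(8,1),(11,1),(0,1)]) .nil)))))))))) (.cons (.leaf 1 [(10,1)]) (.cons (.keep [0,3,7,9,10] (.node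 (.cons (.leaf 1 [(4,1)]) (.cons (.leaf 1 [(9,1),(8,1),(11,1),(4,1)]) (.cons (.leaf 1 [(4,1)]) (.cons (.leaf 1 [(4,1),(8,1),(11,1)]) (.cons (.leaf 1 [(4,1)]) (.cons (.leaf 1 [(4,1),(11,1)]) (.cons (.leaf 1 []) (.cons (.leaf 1 [(9,1),(8,1),(11,1),(0,1)]) .nil)))))))))) .nil)))))))))) (.cons (.keep [5,7,8,9,11] (.node (.cons (.leaf 1 [(3,1),(9,1),(11,1)]) (.cons (.keep [0,4,7,8,9,10,11] (.node (.cons (.leaf 1 [(4,1)]) (.cons (.leaf 1 [(13,1),(4,1)]) (.cons (.leaf 1 [(4,1)]) (.cons (.leaf 1 [(4,1),(13,1),(0,1)]) (.cons (.leaf 1 [(4,1)]) (.cons (.leaf 1 [(4,1),(13,1),(0,1)]) (.cons (.leaf 1 []) (.cons (.leaf 1 [(13,1),(0,1)]) .nil)))))))))) (.cons (.leaf 1 [(1,1)]) (.cons (.leaf 1 [(1,1)]) (.cons (.leaf 1 [(4,1),(11,1)]) (.cons (.keep [0,4,8,10,11] (.node (.cons (.leaf 1 [(4,1)]) (.cons (.leaf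 1 [(8,1),(10,1),(11,1),(4,1)]) (.cons (.leaf 1 [(4,1)]) (.cons (.leaf 1 [(4,1),(11,1)]) (.cons (.leaf 1 [(4,1)]) (.cons (.leaf 1 [(8,1),(4,1),(11,1)]) (.cons (.leaf 1 []) (.cons (.leaf 1 [(8,1),(10,1),(11,1),(0,1)]) .nil)))))))))) (.cons (.leaf 1 [(11,1)]) (.cons (.keep [0,1,3,8,9,11] (.node (.cons (.leaf 1 [(4,1)]) (.cons (.leaf 1 [(8,1),(12,1),(4,1)]) (.cons (.leaf 1 [(4,1)]) (.cons (.leaf 1 [(4,1),(8,1),(12,1),(0,1)]) (.cons (.leaf 1 [(4,1)]) (.cons (.leaf 1 [(4,1),(12,1)]) (.cons (.leaf 1 []) (.cons (.leaf 1 [(8,1),(12,1),(0,1)]) .nil)))))))))) .nil)))))))))) .nil)))))))))) (.cons (.leaf 1 [(1,1),(8,1)]) (.cons (.leaf 1 [(1,1),(10,1)]) (.cons (.leaf 1 [(1,1)]) (.cons (.leaf 1 [(1,1)]) .nil)))))))))) (.cons (.keep [1,3,6,7] (.leaf 0 [(1,0)])) (.cons (.keep [1,3,5,7] (.leaf 0 [(2,0)]))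 (.cons (.keep [1,2,6,8] (.leaf 0 [(3,0)])) (.cons (.keep [1,2,5,8] (.leaf 0 [(4,0)])) (.cons (.leaf 1 []) (.cons (.leaf 1 [(5,1)]) .nil))))))))))

theorem e_15_24 : ESB (caseOf 4 15 24) := esb_of_pieces _ (hP_cons E44.c_15_24_33 (hP_cons
  c_15_24_32 (hP_cons E45.c_15_24_29 (hP_cons c_15_24_31 (hP_cons E45.c_15_24_30 hP_nil)))))
  t_15_24 (by decide +kernel)

def ks : List (ℕ × ℕ) := [(15, 24)]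

theorem ks_ok : ∀ p ∈ ks, ESB (caseOf 4 p.1 p.2) := ks_cons e_15_24 <| ks_nil

end Pool.Agent.H4.RD4.E46
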