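import Pool.Agent.H4.RD4.Chk

/-! # Certificates for special cases of order four -/

set_option maxRecDepth 20000

namespace Pool.Agent.H4.RD4.E48

open Pool.Agent.H50.Rdb
open Pool.Agent.H81.RDE (ESB caseOf)

def z_23_16_0 : F := ⟨-1, -1, -1, -1, 4⟩

def h_23_16_0 : List F := [⟨-1, 0, 0, 0, 0⟩, ⟨0, -1, 0, 0, 0⟩, ⟨0, 0, 0, -1, 0⟩, ⟨0, 0, -1, 0, 1⟩]

def t_23_16_0 : T := (.node (.cons (.keep [2,3,4,6,8] (.node (.cons (.keep [2,3,4,6,8,9] (.node (.cons (.keep [2,3,4,6,8,9,11] (.node (.cons (.leaf 1 [(2,1),(3,1),(8,1),(4,1)]) (.cons (.leaf 1 [(3,1),(7,2),(8,1),(4,1)]) (.cons (.leaf 1 [(7,1),(4,1),(8,1),(10,1)]) (.cons (.leaf 1 [(7,1),(10,1),(8,1)]) .nil)))))) (.cons (.leaf 1 [(4,1),(3,1),(8,1)]) (.cons (.keep [1,4,6,7,8,9,10] (.node (.cons (.leaf 1 [(7,1),(3,1),(2,1),(4,1)]) (.cons (.leaf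 1 [(4,1),(10,1),(7,1),(12,1)]) (.cons (.leaf 1 [(7,1),(4,1),(2,1),(10,2)]) (.cons (.leaf 1 [(7,1),(10,1),(12,1)]) .nil)))))) (.cons (.keep [0,3,8,9,10,11] (.node (.cons (.leaf 1 [(2,1),(3,1),(4,1)]) (.cons (.leaf 1 [(4,1),(8,1),(10,1)]) (.cons (.leaf 1 [(8,2),(2,1),(4,1)]) (.cons (.leaf 1 [(10,1),(8,1)]) .nil)))))) .nil)))))) (.cons (.keep [1,4,6,7,8,9,10] (.node (.cons (.keep [2,3,4,7,8,9,11] (.node (.cons (.leaf 1 [(2,1),(3,1),(8,2),(4,1)]) (.cons (.leaf 1 [(3,1),(7,2),(8,2),(4,1)]) (.cons (.leaf 1 [(7,1),(4,1),(8,1),(9,1)]) (.cons (.leaf 1 [(7,1),(9,1),(8,1)]) .nil)))))) (.cons (.leaf 1 [(4,1),(3,1),(7,1)]) (.cons (.keep [1,4,7,8,9,10,12] (.node (.cons (.leaf 1 [(7,2),(3,1),(2,1),(4,1)]) (.cons (.leaf 1 [(4,1),(8,1),(7,1),(11,1)]) (.cons (.leaf 1 [(8,2),(4,1),(2,1)]) (.cons (.leaf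 1 [(8,1),(11,1),(7,1)]) .nil)))))) (.cons (.keep [0,3,7,8,10,11] (.node (.cons (.leaf 1 [(2,1),(3,1),(4,1)]) (.cons (.leaf 1 [(4,1),(8,1),(10,1)]) (.cons (.leaf 1 [(8,2),(2,1),(4,1)]) (.cons (.leaf 1 [(10,1),(8,1)]) .nil)))))) .nil)))))) (.cons (.keep [1,4,6,7,8,9,10] (.node (.cons (.leaf 1 [(6,1),(3,1),(7,1),(4,1)]) (.cons (.leaf 1 [(7,1),(3,1),(4,1)]) (.cons (.leaf 1 [(6,1),(4,1),(7,1),(10,1)]) (.cons (.leaf 1 [(6,1),(10,1),(7,1)]) .nil)))))) (.cons (.keep [0,1,7,8,9,10] (.node (.cons (.keep [3,4,6,7,8,10] (.node (.cons (.leaf 1 [(2,1),(7,1),(4,1)]) (.cons (.leaf 1 [(4,1),(7,1),(6,1)]) (.cons (.leaf 1 [(6,1),(4,1),(7,1)]) (.cons (.leaf 1 [(6,1),(7,1)]) .nil)))))) (.cons (.leaf 1 [(4,1),(3,1)]) (.cons (.keep [1,4,6,7,8,9] (.node (.cons (.leaf 1 [(7,1),(2,1),(4,1)]) (.cons (.leaf 1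 [(4,1),(7,1),(11,1)]) (.cons (.leaf 1 [(7,1),(4,1),(11,1)]) (.cons (.leaf 1 [(7,1),(11,1)]) .nil)))))) (.cons (.keep [0,3,6,7,9,10] (.node (.cons (.leaf 1 [(2,1),(4,1)]) (.cons (.leaf 1 [(4,1),(10,1)]) (.cons (.leaf 1 [(10,1),(4,1)]) (.cons (.leaf 1 [(10,1)]) .nil)))))) .nil)))))) .nil)))))) (.cons (.keep [1,4,6,7,8,9] (.node (.cons (.keep [2,3,4,7,8,9] (.node (.cons (.keep [2,4,6,8,9,10,11] (.node (.cons (.leaf 1 [(2,1),(3,2),(7,1),(4,1)]) (.cons (.leaf 1 [(4,1),(9,1),(7,1),(10,1)]) (.cons (.leaf 1 [(2,1),(9,3),(7,1),(4,1)]) (.cons (.leaf 1 [(10,1),(9,1),(7,1)]) .nil)))))) (.cons (.leaf 1 [(4,1),(3,1),(8,2)]) (.cons (.keep [4,6,7,8,9,10,11] (.node (.cons (.leaf 1 [(6,1),(3,2),(2,1),(4,1)]) (.cons (.leaf 1 [(4,1),(9,1),(6,1),(10,1)]) (.cons (.leaf 1 [(6,1),(9,3),(2,1),(4,1)]) (.cons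 (.leaf 1 [(6,1),(9,1),(10,1)]) .nil)))))) (.cons (.keep [0,3,8,9,10,11] (.node (.cons (.leaf 1 [(2,1),(3,2),(4,1)]) (.cons (.leaf 1 [(4,1),(8,1),(9,1)]) (.cons (.leaf 1 [(2,1),(8,3),(4,1)]) (.cons (.leaf 1 [(9,1),(8,1)]) .nil)))))) .nil)))))) (.cons (.keep [1,4,7,8,9,10,11] (.node (.cons (.keep [2,4,7,8,9,10,12] (.node (.cons (.leaf 1 [(2,1),(3,2),(7,3),(4,1)]) (.cons (.leaf 1 [(4,1),(8,1),(7,1),(9,1)]) (.cons (.leaf 1 [(2,1),(8,3),(4,1)]) (.cons (.leaf 1 [(9,1),(8,1),(7,1)]) .nil)))))) (.cons (.leaf 1 [(4,1),(3,1),(7,2)]) (.cons (.keep [4,7,8,9,10,11,12] (.node (.cons (.leaf 1 [(6,3),(3,2),(2,1),(4,1)]) (.cons (.leaf 1 [(4,1),(7,1),(6,1),(8,1)]) (.cons (.leaf 1 [(4,1),(7,3),(2,1)]) (.cons (.leaf 1 [(7,1),(8,1),(6,1)]) .nil)))))) (.cons (.keep [0,3,7,8,9,10] (.node (.cons (.leaf 1 [(2,1),(3,2),(4,1)])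 (.cons (.leaf 1 [(4,1),(8,1),(9,1)]) (.cons (.leaf 1 [(2,1),(8,3),(4,1)]) (.cons (.leaf 1 [(9,1),(8,1)]) .nil)))))) .nil)))))) (.cons (.keep [1,4,7,8,9,10,11] (.node (.cons (.leaf 1 [(6,1),(3,1),(7,2),(4,1)]) (.cons (.leaf 1 [(7,2),(3,1),(4,1)]) (.cons (.leaf 1 [(6,1),(4,1),(7,1),(8,1)]) (.cons (.leaf 1 [(6,1),(8,1),(7,1)]) .nil)))))) (.cons (.keep [0,1,7,8,10,11] (.node (.cons (.keep [3,4,6,7,9,11] (.node (.cons (.leaf 1 [(2,1),(7,1),(4,1)]) (.cons (.leaf 1 [(4,1),(7,1),(6,1)]) (.cons (.leaf 1 [(6,1),(4,1),(7,1)]) (.cons (.leaf 1 [(6,1),(7,1)]) .nil)))))) (.cons (.leaf 1 [(4,1),(3,1)]) (.cons (.keep [1,4,6,7,8,11] (.node (.cons (.leaf 1 [(7,1),(2,1),(4,1)]) (.cons (.leaf 1 [(4,1),(7,1),(10,1)]) (.cons (.leaf 1 [(7,1),(4,1),(10,1)]) (.cons (.leaf 1 [(7,1),(10,1)]) .nil)))))) (.cons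 (.keep [0,3,6,7,8,9] (.node (.cons (.leaf 1 [(2,1),(4,1)]) (.cons (.leaf 1 [(4,1),(10,1)]) (.cons (.leaf 1 [(10,1),(4,1)]) (.cons (.leaf 1 [(10,1)]) .nil)))))) .nil)))))) .nil)))))) (.cons (.keep [1,4,6,7,8,9] (.node (.cons (.keep [2,3,4,6,7,8,9] (.node (.cons (.keep [2,4,6,8,10,11,12] (.node (.cons (.leaf 1 [(2,1),(3,1),(7,2),(4,1)]) (.cons (.leaf 1 [(4,1),(9,1),(7,1),(10,1)]) (.cons (.leaf 1 [(9,2),(2,1),(7,2),(4,1)]) (.cons (.leaf 1 [(10,1),(9,1),(7,1)]) .nil)))))) (.cons (.leaf 1 [(4,2),(3,1),(8,1)]) (.cons (.keep [4,6,7,8,10,11,12] (.node (.cons (.leaf 1 [(6,2),(3,1),(2,1),(4,1)]) (.cons (.leaf 1 [(4,1),(6,1),(10,1),(9,1)]) (.cons (.leaf 1 [(6,2),(4,1),(2,1),(9,2)]) (.cons (.leaf 1 [(6,1),(9,1),(10,1)]) .nil)))))) (.cons (.keep [0,3,8,10,11,12] (.node (.cons (.leaf 1 [(2,1),(3,1),(4,1)])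 (.cons (.leaf 1 [(4,1),(8,1),(9,1)]) (.cons (.leaf 1 [(8,2),(2,1),(4,1)]) (.cons (.leaf 1 [(9,1),(8,1)]) .nil)))))) .nil)))))) (.cons (.keep [1,4,7,8,9,10,11] (.node (.cons (.keep [2,4,7,8,9,10,12] (.node (.cons (.leaf 1 [(2,1),(3,1),(7,3),(4,1)]) (.cons (.leaf 1 [(4,1),(8,1),(7,1),(9,1)]) (.cons (.leaf 1 [(8,2),(2,1),(7,1),(4,1)]) (.cons (.leaf 1 [(9,1),(8,1),(7,1)]) .nil)))))) (.cons (.leaf 1 [(4,2),(3,1),(7,1)]) (.cons (.keep [4,7,8,9,10,11,12] (.node (.cons (.leaf 1 [(6,3),(3,1),(2,1),(4,1)]) (.cons (.leaf 1 [(6,1),(7,1),(8,1),(4,1)]) (.cons (.leaf 1 [(6,1),(4,1),(2,1),(7,2)]) (.cons (.leaf 1 [(6,1),(7,1),(8,1)]) .nil)))))) (.cons (.keep [0,3,7,8,9,10] (.node (.cons (.leaf 1 [(2,1),(3,1),(4,1)]) (.cons (.leaf 1 [(4,1),(8,1),(9,1)]) (.cons (.leaf 1 [(8,2),(2,1),(4,1)]) (.cons (.leaf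 1 [(9,1),(8,1)]) .nil)))))) .nil)))))) (.cons (.leaf 1 [(6,1),(1,1),(7,1),(4,1)]) (.cons (.keep [0,2,6,7,8,11] (.node (.cons (.keep [4,6,7,9,10,11] (.node (.cons (.leaf 1 [(2,1),(6,2),(4,1)]) (.cons (.leaf 1 [(4,1),(6,1),(9,1)]) (.cons (.leaf 1 [(9,1),(4,1),(6,1)]) (.cons (.leaf 1 [(9,1),(6,1)]) .nil)))))) (.cons (.leaf 1 [(4,2),(3,1)]) (.cons (.keep [4,6,7,9,10,11] (.node (.cons (.leaf 1 [(6,2),(2,1),(4,1)]) (.cons (.leaf 1 [(6,1),(9,1),(4,1)]) (.cons (.leaf 1 [(6,1),(4,1),(9,1)]) (.cons (.leaf 1 [(6,1),(9,1)]) .nil)))))) (.cons (.keep [0,3,6,7,9,10] (.node (.cons (.leaf 1 [(2,1),(4,1)]) (.cons (.leaf 1 [(4,1),(10,1)]) (.cons (.leaf 1 [(10,1),(4,1)]) (.cons (.leaf 1 [(10,1)]) .nil)))))) .nil)))))) .nil)))))) (.cons (.keep [0,1,7,8,9] (.node (.cons (.keep [2,3,4,6,7,8] (.node (.cons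 (.keep [3,4,6,8,9,10,11] (.node (.cons (.leaf 1 [(3,1),(7,1),(4,1)]) (.cons (.leaf 1 [(3,1),(6,1),(7,1),(4,1)]) (.cons (.leaf 1 [(4,1),(7,1),(9,1)]) (.cons (.leaf 1 [(9,1),(7,1)]) .nil)))))) (.cons (.leaf 1 [(1,1),(8,1),(4,1)]) (.cons (.keep [1,4,6,8,9,11] (.node (.cons (.leaf 1 [(7,1),(3,1),(4,1)]) (.cons (.leaf 1 [(4,1),(7,1),(9,1)]) (.cons (.leaf 1 [(7,1),(4,1),(9,1)]) (.cons (.leaf 1 [(7,1),(9,1)]) .nil)))))) (.cons (.keep [0,3,8,10,11] (.node (.cons (.leaf 1 [(3,1),(4,1)]) (.cons (.leaf 1 [(8,1),(4,1)]) (.cons (.leaf 1 [(4,1),(8,1)]) (.cons (.leaf 1 [(8,1)]) .nil)))))) .nil)))))) (.cons (.keep [1,4,6,7,8,10] (.node (.cons (.keep [3,4,7,8,9,10,11] (.node (.cons (.leaf 1 [(3,1),(7,2),(4,1)]) (.cons (.leaf 1 [(3,1),(6,1),(7,2),(4,1)]) (.cons (.leaf 1 [(4,1),(7,1),(8,1)]) (.cons (.leaf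 1 [(8,1),(7,1)]) .nil)))))) (.cons (.leaf 1 [(1,1),(7,1),(4,1)]) (.cons (.keep [1,4,7,8,10,11] (.node (.cons (.leaf 1 [(7,2),(3,1),(4,1)]) (.cons (.leaf 1 [(7,1),(8,1),(4,1)]) (.cons (.leaf 1 [(7,1),(4,1),(8,1)]) (.cons (.leaf 1 [(7,1),(8,1)]) .nil)))))) (.cons (.keep [0,3,7,9,10] (.node (.cons (.leaf 1 [(3,1),(4,1)]) (.cons (.leaf 1 [(8,1),(4,1)]) (.cons (.leaf 1 [(4,1),(8,1)]) (.cons (.leaf 1 [(8,1)]) .nil)))))) .nil)))))) (.cons (.keep [1,4,6,7,8,9] (.node (.cons (.leaf 1 [(6,1),(7,1),(4,1)]) (.cons (.leaf 1 [(1,1),(7,1),(4,1)]) (.cons (.leaf 1 [(6,1),(4,1),(7,1)]) (.cons (.leaf 1 [(6,1),(7,1)]) .nil)))))) (.cons (.keep [0,1,6,7,9,10] (.node (.cons (.keep [3,4,6,7,9,11] (.node (.cons (.leaf 1 [(7,1),(4,1)]) (.cons (.leaf 1 [(4,1),(7,1)]) (.cons (.leaf 1 [(4,1),(7,1)]) (.cons (.leaf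 1 [(7,1)]) .nil)))))) (.cons (.leaf 1 [(1,1),(4,1)]) (.cons (.keep [1,4,6,7,8,11] (.node (.cons (.leaf 1 [(7,1),(4,1)]) (.cons (.leaf 1 [(7,1),(4,1)]) (.cons (.leaf 1 [(7,1),(4,1)]) (.cons (.leaf 1 [(7,1)]) .nil)))))) (.cons (.keep [0,3,6,7,9] (.node (.cons (.leaf 1 [(4,1)]) (.cons (.leaf 1 [(4,1)]) (.cons (.leaf 1 [(4,1)]) (.cons (.leaf 1 []) .nil)))))) .nil)))))) .nil)))))) .nil)))))

theorem c_23_16_0 : Concl 23 16 z_23_16_0 h_23_16_0 .nd := piece _ hP_nil t_23_16_0 _ _ (by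
  decide +kernel)

def z_23_16_1 : F := ⟨-1, 0, -1, -1, 4⟩

def h_23_16_1 : List F := [⟨0, 1, 0, 0, 0⟩, ⟨0, 1, 0, -1, 0⟩, ⟨0, 0, -1, 0, 1⟩, ⟨0, -1, 0, 0, 1⟩,
  ⟨-1, 0, 0, 0, 1⟩]

def t_23_16_1 : T := (.node (.cons (.keep [2,3,4,6,7,10] (.node (.cons (.keep [2,4,6,8,10,11] (.node (.cons (.keep [3,4,6,7,8,10,11] (.node (.cons (.leaf 1 [(2,1),(7,1),(4,1)]) (.cons (.leaf 1 [(4,1),(7,1),(6,1)]) (.cons (.leaf 1 [(6,1),(4,1),(7,1)]) (.cons (.leaf 1 [(6,1),(7,1)]) .nil)))))) (.cons (.leaf 1 [(4,1),(3,1)]) (.cons (.keep [1,4,6,7,8,9,10] (.node (.cons (.leaf 1 [(7,1),(2,1),(4,1)]) (.cons (.leaf 1 [(4,1),(7,1),(11,1)]) (.cons (.leaf 1 [(7,1),(4,1),(2,1),(9,1)]) (.cons (.leaf 1 [(7,1),(11,1)]) .nil)))))) (.cons (.keep [0,3,7,8,9,11] (.node (.cons (.leaf 1 [(2,1),(4,1)]) (.cons (.leaf 1 [(4,1),(10,1)])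 (.cons (.leaf 1 [(2,1),(4,1),(8,1)]) (.cons (.leaf 1 [(10,1)]) .nil)))))) .nil)))))) (.cons (.keep [1,4,6,7,8,10,11] (.node (.cons (.keep [3,4,7,8,9,11,12] (.node (.cons (.leaf 1 [(2,1),(7,1),(4,1)]) (.cons (.leaf 1 [(4,1),(7,1),(6,1)]) (.cons (.leaf 1 [(6,1),(4,1),(7,1)]) (.cons (.leaf 1 [(6,1),(7,1)]) .nil)))))) (.cons (.leaf 1 [(4,1),(3,1)]) (.cons (.keep [1,4,7,8,9,10,11] (.node (.cons (.leaf 1 [(7,1),(2,1),(4,1)]) (.cons (.leaf 1 [(4,1),(7,1),(11,1)]) (.cons (.leaf 1 [(8,1),(4,1),(2,1)]) (.cons (.leaf 1 [(7,1),(11,1)]) .nil)))))) (.cons (.keep [0,3,7,8,10,12] (.node (.cons (.leaf 1 [(2,1),(4,1)]) (.cons (.leaf 1 [(4,1),(10,1)]) (.cons (.leaf 1 [(2,1),(4,1),(8,1)]) (.cons (.leaf 1 [(10,1)]) .nil)))))) .nil)))))) (.cons (.keep [1,6,7,8,10,11] (.node (.cons (.leaf 1 [(6,1),(3,1),(4,1)])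 (.cons (.leaf 1 [(4,1),(3,1)]) (.cons (.leaf 1 [(6,1),(4,1),(9,1)]) (.cons (.leaf 1 [(6,1),(9,1)]) .nil)))))) (.cons (.keep [0,1,7,8,10,11] (.node (.cons (.keep [3,4,6,7,8,11] (.node (.cons (.leaf 1 [(2,1),(7,1),(4,1)]) (.cons (.leaf 1 [(4,1),(7,1),(6,1)]) (.cons (.leaf 1 [(6,1),(4,1),(7,1)]) (.cons (.leaf 1 [(6,1),(7,1)]) .nil)))))) (.cons (.leaf 1 [(4,1),(3,1)]) (.cons (.keep [1,4,6,7,8,9] (.node (.cons (.leaf 1 [(7,1),(2,1),(4,1)]) (.cons (.leaf 1 [(4,1),(7,1),(11,1)]) (.cons (.leaf 1 [(7,1),(4,1),(11,1)]) (.cons (.leaf 1 [(7,1),(11,1)]) .nil)))))) (.cons (.keep [0,3,6,7,9,11] (.node (.cons (.leaf 1 [(2,1),(4,1)]) (.cons (.leaf 1 [(4,1),(10,1)]) (.cons (.leaf 1 [(10,1),(4,1)]) (.cons (.leaf 1 [(10,1)]) .nil)))))) .nil)))))) .nil)))))) (.cons (.keep [1,4,7,8,9,10] (.node (.cons (.keep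 [2,4,7,8,10,11] (.node (.cons (.keep [4,6,7,8,9,10,11] (.node (.cons (.leaf 1 [(2,1),(3,1),(6,1),(4,1)]) (.cons (.leaf 1 [(4,1),(9,1),(6,1)]) (.cons (.leaf 1 [(8,2),(2,1),(6,1),(4,1)]) (.cons (.leaf 1 [(9,1),(6,1)]) .nil)))))) (.cons (.leaf 1 [(4,1),(3,1),(7,1)]) (.cons (.keep [4,6,7,8,9,10,11] (.node (.cons (.leaf 1 [(6,1),(3,1),(2,1),(4,1)]) (.cons (.leaf 1 [(4,1),(6,1),(9,1)]) (.cons (.leaf 1 [(6,1),(4,1),(2,1),(8,2)]) (.cons (.leaf 1 [(6,1),(9,1)]) .nil)))))) (.cons (.keep [0,3,7,8,10,11] (.node (.cons (.leaf 1 [(2,1),(3,1),(4,1)]) (.cons (.leaf 1 [(4,1),(9,1)]) (.cons (.leaf 1 [(8,2),(2,1),(4,1)]) (.cons (.leaf 1 [(9,1)]) .nil)))))) .nil)))))) (.cons (.keep [1,4,7,8,9,10,11] (.node (.cons (.keep [4,7,8,9,10,11,12] (.node (.cons (.leaf 1 [(2,1),(3,1),(6,2),(4,1)]) (.cons (.leaf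 1 [(4,1),(8,1),(6,1)]) (.cons (.leaf 1 [(7,2),(2,1),(4,1)]) (.cons (.leaf 1 [(8,1),(6,1)]) .nil)))))) (.cons (.leaf 1 [(4,1),(3,1),(7,1)]) (.cons (.keep [4,7,8,9,10,11,12] (.node (.cons (.leaf 1 [(6,2),(3,1),(2,1),(4,1)]) (.cons (.leaf 1 [(4,1),(6,1),(8,1)]) (.cons (.leaf 1 [(7,2),(4,1),(2,1)]) (.cons (.leaf 1 [(6,1),(8,1)]) .nil)))))) (.cons (.keep [0,3,7,8,11,12] (.node (.cons (.leaf 1 [(2,1),(3,1),(4,1)]) (.cons (.leaf 1 [(4,1),(9,1)]) (.cons (.leaf 1 [(8,2),(2,1),(4,1)]) (.cons (.leaf 1 [(9,1)]) .nil)))))) .nil)))))) (.cons (.keep [1,7,8,9,10,11] (.node (.cons (.leaf 1 [(6,1),(7,1),(4,1)]) (.cons (.leaf 1 [(1,1),(7,1),(4,1)]) (.cons (.leaf 1 [(6,1),(4,1),(7,1)]) (.cons (.leaf 1 [(6,1),(7,1)]) .nil)))))) (.cons (.keep [0,1,7,8,9,11] (.node (.cons (.keep [3,4,6,7,10,11] (.node (.cons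 (.leaf 1 [(2,1),(7,1),(4,1)]) (.cons (.leaf 1 [(4,1),(7,1),(6,1)]) (.cons (.leaf 1 [(6,1),(4,1),(7,1)]) (.cons (.leaf 1 [(6,1),(7,1)]) .nil)))))) (.cons (.leaf 1 [(4,1),(3,1)]) (.cons (.keep [1,4,6,7,8,10] (.node (.cons (.leaf 1 [(7,1),(2,1),(4,1)]) (.cons (.leaf 1 [(4,1),(7,1),(10,1)]) (.cons (.leaf 1 [(7,1),(4,1),(10,1)]) (.cons (.leaf 1 [(7,1),(10,1)]) .nil)))))) (.cons (.keep [0,3,6,7,8,11] (.node (.cons (.leaf 1 [(2,1),(4,1)]) (.cons (.leaf 1 [(4,1),(10,1)]) (.cons (.leaf 1 [(10,1),(4,1)]) (.cons (.leaf 1 [(10,1)]) .nil)))))) .nil)))))) .nil)))))) (.cons (.keep [2,4,6,7,8,10] (.node (.cons (.keep [2,4,6,7,9,11] (.node (.cons (.keep [6,7,8,9,10,11] (.node (.cons (.leaf 1 [(2,1),(8,2),(3,2),(4,1)]) (.cons (.leaf 1 [(4,1),(8,1),(7,1),(9,1)]) (.cons (.leaf 1 [(7,3),(2,1),(8,2),(4,1)])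 (.cons (.leaf 1 [(9,1),(8,1),(7,1)]) .nil)))))) (.cons (.leaf 1 [(4,2),(3,1)]) (.cons (.keep [6,7,8,9,10,11] (.node (.cons (.leaf 1 [(3,2),(8,2),(2,1),(4,1)]) (.cons (.leaf 1 [(7,1),(8,1),(9,1),(4,1)]) (.cons (.leaf 1 [(8,2),(4,1),(2,1),(7,3)]) (.cons (.leaf 1 [(7,1),(8,1),(9,1)]) .nil)))))) (.cons (.keep [0,3,7,8,9,11] (.node (.cons (.leaf 1 [(2,1),(4,1)]) (.cons (.leaf 1 [(4,1),(10,1)]) (.cons (.leaf 1 [(2,1),(4,1),(8,1)]) (.cons (.leaf 1 [(10,1)]) .nil)))))) .nil)))))) (.cons (.keep [4,6,7,9,10,11] (.node (.cons (.keep [6,7,8,9,10,11] (.node (.cons (.leaf 1 [(2,1),(7,2),(6,2),(4,1)]) (.cons (.leaf 1 [(4,1),(7,1),(6,1),(8,1)]) (.cons (.leaf 1 [(6,2),(2,1),(1,1),(4,1)]) (.cons (.leaf 1 [(8,1),(7,1),(6,1)]) .nil)))))) (.cons (.leaf 1 [(4,2),(3,1)]) (.cons (.keep [6,7,8,9,10,11] (.node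 (.cons (.leaf 1 [(6,2),(7,2),(2,1),(4,1)]) (.cons (.leaf 1 [(6,1),(7,1),(8,1),(4,1)]) (.cons (.leaf 1 [(1,1),(4,1),(2,1),(6,2)]) (.cons (.leaf 1 [(6,1),(7,1),(8,1)]) .nil)))))) (.cons (.keep [0,3,6,7,8,11] (.node (.cons (.leaf 1 [(2,1),(4,1)]) (.cons (.leaf 1 [(4,1),(10,1)]) (.cons (.leaf 1 [(2,1),(4,1),(8,1)]) (.cons (.leaf 1 [(10,1)]) .nil)))))) .nil)))))) (.cons (.leaf 1 [(4,1),(1,1),(7,1),(6,1)]) (.cons (.keep [0,2,6,7,10,11] (.node (.cons (.keep [4,6,7,9,10,11] (.node (.cons (.leaf 1 [(2,1),(6,2),(4,1)]) (.cons (.leaf 1 [(4,1),(6,1),(9,1)]) (.cons (.leaf 1 [(9,1),(4,1),(6,1)]) (.cons (.leaf 1 [(9,1),(6,1)]) .nil)))))) (.cons (.leaf 1 [(4,2),(3,1)]) (.cons (.keep [4,6,7,9,10,11] (.node (.cons (.leaf 1 [(6,2),(2,1),(4,1)]) (.cons (.leaf 1 [(6,1),(9,1),(4,1)]) (.cons (.leaf 1 [(6,1),(4,1),(9,1)])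 (.cons (.leaf 1 [(6,1),(9,1)]) .nil)))))) (.cons (.keep [0,3,6,7,9,11] (.node (.cons (.leaf 1 [(2,1),(4,1)]) (.cons (.leaf 1 [(4,1),(10,1)]) (.cons (.leaf 1 [(10,1),(4,1)]) (.cons (.leaf 1 [(10,1)]) .nil)))))) .nil)))))) .nil)))))) (.cons (.keep [0,2,6,7,8,9] (.node (.cons (.keep [2,4,6,7,9,11] (.node (.cons (.keep [3,4,6,7,9,10] (.node (.cons (.leaf 1 [(7,1),(4,1)]) (.cons (.leaf 1 [(4,1),(7,1)]) (.cons (.leaf 1 [(4,1),(7,1)]) (.cons (.leaf 1 [(7,1)]) .nil)))))) (.cons (.leaf 1 [(1,1),(4,1)]) (.cons (.keep [4,6,7,8,9,11] (.node (.cons (.leaf 1 [(6,1),(4,1)]) (.cons (.leaf 1 [(6,1),(4,1)]) (.cons (.leaf 1 [(6,1),(4,1)]) (.cons (.leaf 1 [(6,1)]) .nil)))))) (.cons (.keep [0,3,7,9,11] (.node (.cons (.leaf 1 [(4,1)]) (.cons (.leaf 1 [(4,1)]) (.cons (.leaf 1 [(4,1)]) (.cons (.leaf 1 [])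 .nil)))))) .nil)))))) (.cons (.keep [1,4,6,7,10,11] (.node (.cons (.keep [3,4,7,8,9,10] (.node (.cons (.leaf 1 [(7,1),(4,1)]) (.cons (.leaf 1 [(4,1),(7,1)]) (.cons (.leaf 1 [(4,1),(7,1)]) (.cons (.leaf 1 [(7,1)]) .nil)))))) (.cons (.leaf 1 [(1,1),(4,1)]) (.cons (.keep [4,7,8,9,10,11] (.node (.cons (.leaf 1 [(6,1),(4,1)]) (.cons (.leaf 1 [(6,1),(4,1)]) (.cons (.leaf 1 [(6,1),(4,1)]) (.cons (.leaf 1 [(6,1)]) .nil)))))) (.cons (.keep [0,3,7,9,11] (.node (.cons (.leaf 1 [(4,1)]) (.cons (.leaf 1 [(4,1)]) (.cons (.leaf 1 [(4,1)]) (.cons (.leaf 1 []) .nil)))))) .nil)))))) (.cons (.keep [1,6,7,9,11] (.node (.cons (.leaf 1 [(6,1),(4,1)]) (.cons (.leaf 1 [(1,1),(4,1)]) (.cons (.leaf 1 [(6,1),(4,1)]) (.cons (.leaf 1 [(6,1)]) .nil)))))) (.cons (.keep [0,1,6,7,9,10] (.node (.cons (.keep [3,4,6,7,9,11]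 (.node (.cons (.leaf 1 [(7,1),(4,1)]) (.cons (.leaf 1 [(4,1),(7,1)]) (.cons (.leaf 1 [(4,1),(7,1)]) (.cons (.leaf 1 [(7,1)]) .nil)))))) (.cons (.leaf 1 [(1,1),(4,1)]) (.cons (.keep [1,4,6,7,8,11] (.node (.cons (.leaf 1 [(7,1),(4,1)]) (.cons (.leaf 1 [(7,1),(4,1)]) (.cons (.leaf 1 [(7,1),(4,1)]) (.cons (.leaf 1 [(7,1)]) .nil)))))) (.cons (.keep [0,3,6,7,9] (.node (.cons (.leaf 1 [(4,1)]) (.cons (.leaf 1 [(4,1)]) (.cons (.leaf 1 [(4,1)]) (.cons (.leaf 1 []) .nil)))))) .nil)))))) .nil)))))) .nil)))))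

theorem c_23_16_1 : Concl 23 16 z_23_16_1 h_23_16_1 .nd := piece _ hP_nil t_23_16_1 _ _ (by
  decide +kernel)

def z_23_16_3 : F := ⟨0, -1, -1, -1, 3⟩

def h_23_16_3 : List F := [⟨-1, 0, 0, 0, 0⟩, ⟨0, -1, 0, 0, 0⟩, ⟨0, 0, 0, -1, 0⟩, ⟨0, 0, -1, 0, 1⟩]

def t_23_16_3 : T := (.node (.cons (.keep [2,3,4,6,8] (.node (.cons (.keep [2,3,4,6,8,9] (.node (.cons (.keep [2,3,4,6,8,9,11] (.node (.cons (.leaf 1 [(3,1),(8,1),(4,1)]) (.cons (.leaf 1 [(3,1),(7,1),(8,1),(4,1)]) (.cons (.leaf 1 [(4,1),(8,1),(10,1)]) (.cons (.leaf 1 [(10,1),(8,1)]) .nil)))))) (.cons (.leaf 1 [(1,1),(8,1),(4,1)]) (.cons (.keep [1,4,6,7,8,9,10] (.node (.cons (.leaf 1 [(7,1),(3,1),(4,1)]) (.cons (.leaf 1 [(4,1),(7,1),(10,1)]) (.cons (.leaf 1 [(7,1),(4,1),(10,1)]) (.cons (.leaf 1 [(7,1),(10,1)]) .nil)))))) (.cons (.keep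 [0,3,8,9,10,11] (.node (.cons (.leaf 1 [(3,1),(4,1)]) (.cons (.leaf 1 [(8,1),(4,1)]) (.cons (.leaf 1 [(4,1),(8,1)]) (.cons (.leaf 1 [(8,1)]) .nil)))))) .nil)))))) (.cons (.keep [1,4,6,7,8,9,10] (.node (.cons (.keep [2,3,4,7,8,9,11] (.node (.cons (.leaf 1 [(3,1),(8,2),(4,1)]) (.cons (.leaf 1 [(3,1),(7,1),(8,2),(4,1)]) (.cons (.leaf 1 [(4,1),(8,1),(9,1)]) (.cons (.leaf 1 [(9,1),(8,1)]) .nil)))))) (.cons (.leaf 1 [(1,1),(7,1),(4,1)]) (.cons (.keep [1,4,7,8,9,10,12] (.node (.cons (.leaf 1 [(7,2),(3,1),(4,1)]) (.cons (.leaf 1 [(7,1),(8,1),(4,1)]) (.cons (.leaf 1 [(7,1),(4,1),(8,1)]) (.cons (.leaf 1 [(7,1),(8,1)]) .nil)))))) (.cons (.keep [0,3,7,8,10,11] (.node (.cons (.leaf 1 [(3,1),(4,1)]) (.cons (.leaf 1 [(8,1),(4,1)]) (.cons (.leaf 1 [(4,1),(8,1)]) (.cons (.leaf 1 [(8,1)]) .nil))))))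 .nil)))))) (.cons (.keep [1,4,6,7,8,9,10] (.node (.cons (.leaf 1 [(6,1),(7,1),(4,1)]) (.cons (.leaf 1 [(1,1),(7,1),(4,1)]) (.cons (.leaf 1 [(6,1),(4,1),(7,1)]) (.cons (.leaf 1 [(6,1),(7,1)]) .nil)))))) (.cons (.keep [0,1,7,8,9,10] (.node (.cons (.keep [3,4,6,7,8,10] (.node (.cons (.leaf 1 [(7,1),(4,1)]) (.cons (.leaf 1 [(4,1),(7,1)]) (.cons (.leaf 1 [(4,1),(7,1)]) (.cons (.leaf 1 [(7,1)]) .nil)))))) (.cons (.leaf 1 [(1,1),(4,1)]) (.cons (.keep [1,4,6,7,8,9] (.node (.cons (.leaf 1 [(7,1),(4,1)]) (.cons (.leaf 1 [(7,1),(4,1)]) (.cons (.leaf 1 [(7,1),(4,1)]) (.cons (.leaf 1 [(7,1)]) .nil)))))) (.cons (.keep [0,3,6,7,9,10] (.node (.cons (.leaf 1 [(4,1)]) (.cons (.leaf 1 [(4,1)]) (.cons (.leaf 1 [(4,1)]) (.cons (.leaf 1 []) .nil)))))) .nil)))))) .nil)))))) (.cons (.keep [1,4,6,7,8,9] (.node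 (.cons (.keep [2,3,4,7,8,9] (.node (.cons (.keep [2,4,6,8,9,10,11] (.node (.cons (.leaf 1 [(3,1),(7,1),(4,1)]) (.cons (.leaf 1 [(4,1),(9,1),(7,1)]) (.cons (.leaf 1 [(4,1),(7,1),(9,1)]) (.cons (.leaf 1 [(9,1),(7,1)]) .nil)))))) (.cons (.leaf 1 [(1,1),(8,1),(4,1)]) (.cons (.keep [4,6,7,8,9,10,11] (.node (.cons (.leaf 1 [(6,1),(3,1),(4,1)]) (.cons (.leaf 1 [(4,1),(6,1),(9,1)]) (.cons (.leaf 1 [(6,1),(4,1),(9,1)]) (.cons (.leaf 1 [(6,1),(9,1)]) .nil)))))) (.cons (.keep [0,3,8,9,10,11] (.node (.cons (.leaf 1 [(3,1),(4,1)]) (.cons (.leaf 1 [(8,1),(4,1)]) (.cons (.leaf 1 [(4,1),(8,1)]) (.cons (.leaf 1 [(8,1)]) .nil)))))) .nil)))))) (.cons (.keep [1,4,7,8,9,10,11] (.node (.cons (.keep [2,4,7,8,9,10,12] (.node (.cons (.leaf 1 [(3,1),(7,2),(4,1)]) (.cons (.leaf 1 [(4,1),(8,1),(7,1)]) (.cons (.leaf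 1 [(4,1),(7,1),(8,1)]) (.cons (.leaf 1 [(8,1),(7,1)]) .nil)))))) (.cons (.leaf 1 [(1,1),(7,1),(4,1)]) (.cons (.keep [4,7,8,9,10,11,12] (.node (.cons (.leaf 1 [(6,2),(3,1),(4,1)]) (.cons (.leaf 1 [(6,1),(7,1),(4,1)]) (.cons (.leaf 1 [(6,1),(4,1),(7,1)]) (.cons (.leaf 1 [(6,1),(7,1)]) .nil)))))) (.cons (.keep [0,3,7,8,9,10] (.node (.cons (.leaf 1 [(3,1),(4,1)]) (.cons (.leaf 1 [(8,1),(4,1)]) (.cons (.leaf 1 [(4,1),(8,1)]) (.cons (.leaf 1 [(8,1)]) .nil)))))) .nil)))))) (.cons (.keep [1,4,7,8,9,10,11] (.node (.cons (.leaf 1 [(6,1),(7,1),(4,1)]) (.cons (.leaf 1 [(1,1),(7,1),(4,1)]) (.cons (.leaf 1 [(6,1),(4,1),(7,1)]) (.cons (.leaf 1 [(6,1),(7,1)]) .nil)))))) (.cons (.keep [0,1,7,8,10,11] (.node (.cons (.keep [3,4,6,7,9,11] (.node (.cons (.leaf 1 [(7,1),(4,1)]) (.cons (.leaf 1 [(4,1),(7,1)])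 (.cons (.leaf 1 [(4,1),(7,1)]) (.cons (.leaf 1 [(7,1)]) .nil)))))) (.cons (.leaf 1 [(1,1),(4,1)]) (.cons (.keep [1,4,6,7,8,11] (.node (.cons (.leaf 1 [(7,1),(4,1)]) (.cons (.leaf 1 [(7,1),(4,1)]) (.cons (.leaf 1 [(7,1),(4,1)]) (.cons (.leaf 1 [(7,1)]) .nil)))))) (.cons (.keep [0,3,6,7,8,9] (.node (.cons (.leaf 1 [(4,1)]) (.cons (.leaf 1 [(4,1)]) (.cons (.leaf 1 [(4,1)]) (.cons (.leaf 1 []) .nil)))))) .nil)))))) .nil)))))) (.cons (.keep [1,4,6,7,8,9] (.node (.cons (.keep [2,3,4,6,7,8,9] (.node (.cons (.keep [2,4,6,8,10,11,12] (.node (.cons (.leaf 1 [(3,1),(7,1),(4,1)]) (.cons (.leaf 1 [(4,1),(9,1),(7,1)]) (.cons (.leaf 1 [(4,1),(7,1),(9,1)]) (.cons (.leaf 1 [(9,1),(7,1)]) .nil)))))) (.cons (.leaf 1 [(1,1),(8,1),(4,1)]) (.cons (.keep [4,6,7,8,10,11,12] (.node (.cons (.leaf 1 [(6,1),(3,1),(4,1)])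 (.cons (.leaf 1 [(4,1),(6,1),(9,1)]) (.cons (.leaf 1 [(6,1),(4,1),(9,1)]) (.cons (.leaf 1 [(6,1),(9,1)]) .nil)))))) (.cons (.keep [0,3,8,10,11,12] (.node (.cons (.leaf 1 [(3,1),(4,1)]) (.cons (.leaf 1 [(8,1),(4,1)]) (.cons (.leaf 1 [(4,1),(8,1)]) (.cons (.leaf 1 [(8,1)]) .nil)))))) .nil)))))) (.cons (.keep [1,4,7,8,9,10,11] (.node (.cons (.keep [2,4,7,8,9,10,12] (.node (.cons (.leaf 1 [(3,1),(7,2),(4,1)]) (.cons (.leaf 1 [(4,1),(8,1),(7,1)]) (.cons (.leaf 1 [(4,1),(7,1),(8,1)]) (.cons (.leaf 1 [(8,1),(7,1)]) .nil)))))) (.cons (.leaf 1 [(1,1),(7,1),(4,1)]) (.cons (.keep [4,7,8,9,10,11,12] (.node (.cons (.leaf 1 [(6,2),(3,1),(4,1)]) (.cons (.leaf 1 [(6,1),(7,1),(4,1)]) (.cons (.leaf 1 [(6,1),(4,1),(7,1)]) (.cons (.leaf 1 [(6,1),(7,1)]) .nil)))))) (.cons (.keep [0,3,7,8,9,10] (.node (.cons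 (.leaf 1 [(3,1),(4,1)]) (.cons (.leaf 1 [(8,1),(4,1)]) (.cons (.leaf 1 [(4,1),(8,1)]) (.cons (.leaf 1 [(8,1)]) .nil)))))) .nil)))))) (.cons (.leaf 1 [(6,1),(1,1),(4,1)]) (.cons (.keep [0,2,6,7,8,11] (.node (.cons (.keep [4,6,7,9,10,11] (.node (.cons (.leaf 1 [(6,1),(4,1)]) (.cons (.leaf 1 [(4,1),(6,1)]) (.cons (.leaf 1 [(4,1),(6,1)]) (.cons (.leaf 1 [(6,1)]) .nil)))))) (.cons (.leaf 1 [(1,1),(4,1)]) (.cons (.keep [4,6,7,9,10,11] (.node (.cons (.leaf 1 [(6,1),(4,1)]) (.cons (.leaf 1 [(6,1),(4,1)]) (.cons (.leaf 1 [(6,1),(4,1)]) (.cons (.leaf 1 [(6,1)]) .nil)))))) (.cons (.keep [0,3,6,7,9,10] (.node (.cons (.leaf 1 [(4,1)]) (.cons (.leaf 1 [(4,1)]) (.cons (.leaf 1 [(4,1)]) (.cons (.leaf 1 []) .nil)))))) .nil)))))) .nil)))))) (.cons (.keep [0,1,7,8,9] (.node (.cons (.keep [2,3,4,6,7,8]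 (.node (.cons (.keep [3,4,6,8,9,10,11] (.node (.cons (.leaf 1 [(3,1),(7,1),(4,1)]) (.cons (.leaf 1 [(3,1),(6,1),(7,1),(4,1)]) (.cons (.leaf 1 [(4,1),(7,1),(9,1)]) (.cons (.leaf 1 [(9,1),(7,1)]) .nil)))))) (.cons (.leaf 1 [(1,1),(8,1),(4,1)]) (.cons (.keep [1,4,6,8,9,11] (.node (.cons (.leaf 1 [(7,1),(3,1),(4,1)]) (.cons (.leaf 1 [(4,1),(7,1),(9,1)]) (.cons (.leaf 1 [(7,1),(4,1),(9,1)]) (.cons (.leaf 1 [(7,1),(9,1)]) .nil)))))) (.cons (.keep [0,3,8,10,11] (.node (.cons (.leaf 1 [(3,1),(4,1)]) (.cons (.leaf 1 [(8,1),(4,1)]) (.cons (.leaf 1 [(4,1),(8,1)]) (.cons (.leaf 1 [(8,1)]) .nil)))))) .nil)))))) (.cons (.keep [1,4,6,7,8,10] (.node (.cons (.keep [3,4,7,8,9,10,11] (.node (.cons (.leaf 1 [(3,1),(7,2),(4,1)]) (.cons (.leaf 1 [(3,1),(6,1),(7,2),(4,1)]) (.cons (.leaf 1 [(4,1),(7,1),(8,1)])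 (.cons (.leaf 1 [(8,1),(7,1)]) .nil)))))) (.cons (.leaf 1 [(1,1),(7,1),(4,1)]) (.cons (.keep [1,4,7,8,10,11] (.node (.cons (.leaf 1 [(7,2),(3,1),(4,1)]) (.cons (.leaf 1 [(7,1),(8,1),(4,1)]) (.cons (.leaf 1 [(7,1),(4,1),(8,1)]) (.cons (.leaf 1 [(7,1),(8,1)]) .nil)))))) (.cons (.keep [0,3,7,9,10] (.node (.cons (.leaf 1 [(3,1),(4,1)]) (.cons (.leaf 1 [(8,1),(4,1)]) (.cons (.leaf 1 [(4,1),(8,1)]) (.cons (.leaf 1 [(8,1)]) .nil)))))) .nil)))))) (.cons (.keep [1,4,6,7,8,9] (.node (.cons (.leaf 1 [(6,1),(7,1),(4,1)]) (.cons (.leaf 1 [(1,1),(7,1),(4,1)]) (.cons (.leaf 1 [(6,1),(4,1),(7,1)]) (.cons (.leaf 1 [(6,1),(7,1)]) .nil)))))) (.cons (.keep [0,1,6,7,9,10] (.node (.cons (.keep [3,4,6,7,9,11] (.node (.cons (.leaf 1 [(7,1),(4,1)]) (.cons (.leaf 1 [(4,1),(7,1)]) (.cons (.leaf 1 [(4,1),(7,1)])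 (.cons (.leaf 1 [(7,1)]) .nil)))))) (.cons (.leaf 1 [(1,1),(4,1)]) (.cons (.keep [1,4,6,7,8,11] (.node (.cons (.leaf 1 [(7,1),(4,1)]) (.cons (.leaf 1 [(7,1),(4,1)]) (.cons (.leaf 1 [(7,1),(4,1)]) (.cons (.leaf 1 [(7,1)]) .nil)))))) (.cons (.keep [0,3,6,7,9] (.node (.cons (.leaf 1 [(4,1)]) (.cons (.leaf 1 [(4,1)]) (.cons (.leaf 1 [(4,1)]) (.cons (.leaf 1 []) .nil)))))) .nil)))))) .nil)))))) .nil)))))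

theorem c_23_16_3 : Concl 23 16 z_23_16_3 h_23_16_3 .nd := piece _ hP_nil t_23_16_3 _ _ (by
  decide +kernel)

def z_23_16_4 : F := ⟨-1, -1, 0, -1, 3⟩

def h_23_16_4 : List F := [⟨-1, 0, 0, 0, 0⟩, ⟨0, -1, 0, 0, 0⟩, ⟨0, 0, -1, -1, 1⟩, ⟨0, 0, 1, 0, 1⟩]

def t_23_16_4 : T := (.node (.cons (.keep [2,3,4,6,8,9] (.node (.cons (.keep [2,4,6,8,9,10,11] (.node (.cons (.keep [3,4,6,7,8,10,11] (.node (.cons (.leaf 1 [(2,1),(3,1),(4,1)]) (.cons (.leaf 1 [(3,1),(6,2),(4,1)]) (.cons (.leaf 1 [(6,1),(4,1),(9,1)]) (.cons (.leaf 1 [(6,1),(9,1)]) .nil)))))) (.cons (.leaf 1 [(3,1),(7,1)]) (.cons (.keep [1,4,6,7,8,9,11] (.node (.cons (.leaf 1 [(2,1),(3,1),(4,1)]) (.cons (.leaf 1 [(4,1),(9,1),(11,1)]) (.cons (.leaf 1 [(9,2),(2,1),(4,1)]) (.cons (.leaf 1 [(11,1),(9,1)]) .nil)))))) (.cons (.keep [0,3,7,8,9,10]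 (.node (.cons (.leaf 1 [(2,1),(3,1),(4,1)]) (.cons (.leaf 1 [(4,1),(8,1),(10,1)]) (.cons (.leaf 1 [(8,2),(2,1),(4,1)]) (.cons (.leaf 1 [(10,1),(8,1)]) .nil)))))) .nil)))))) (.cons (.keep [1,4,6,7,8,9,10] (.node (.cons (.keep [3,4,7,8,9,11,12] (.node (.cons (.leaf 1 [(2,1),(3,1),(7,1),(4,1)]) (.cons (.leaf 1 [(3,1),(6,2),(7,1),(4,1)]) (.cons (.leaf 1 [(6,1),(4,1),(8,1)]) (.cons (.leaf 1 [(6,1),(8,1)]) .nil)))))) (.cons (.leaf 1 [(7,1),(3,1)]) (.cons (.keep [1,4,7,8,9,10,12] (.node (.cons (.leaf 1 [(7,1),(3,1),(2,1),(4,1)]) (.cons (.leaf 1 [(8,1),(11,1),(4,1)]) (.cons (.leaf 1 [(8,2),(4,1),(2,1),(10,1)]) (.cons (.leaf 1 [(8,1),(11,1)]) .nil)))))) (.cons (.keep [0,3,7,8,10,11] (.node (.cons (.leaf 1 [(2,1),(3,1),(4,1)]) (.cons (.leaf 1 [(4,1),(8,1),(10,1)]) (.cons (.leaf 1 [(8,2),(2,1),(4,1)])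 (.cons (.leaf 1 [(10,1),(8,1)]) .nil)))))) .nil)))))) (.cons (.leaf 1 [(1,1),(8,1),(4,1)]) (.cons (.keep [0,2,7,8,9,11] (.node (.cons (.keep [3,4,6,7,8,10] (.node (.cons (.leaf 1 [(2,1),(4,1)]) (.cons (.leaf 1 [(4,1),(6,1)]) (.cons (.leaf 1 [(6,1),(4,1)]) (.cons (.leaf 1 [(6,1)]) .nil)))))) (.cons (.leaf 1 [(3,1)]) (.cons (.keep [1,4,6,7,8,9] (.node (.cons (.leaf 1 [(2,1),(4,1)]) (.cons (.leaf 1 [(4,1),(11,1)]) (.cons (.leaf 1 [(11,1),(4,1)]) (.cons (.leaf 1 [(11,1)]) .nil)))))) (.cons (.keep [0,3,6,7,9,10] (.node (.cons (.leaf 1 [(2,1),(4,1)]) (.cons (.leaf 1 [(4,1),(10,1)]) (.cons (.leaf 1 [(10,1),(4,1)]) (.cons (.leaf 1 [(10,1)]) .nil)))))) .nil)))))) .nil)))))) (.cons (.keep [3,4,6,7,8,9] (.node (.cons (.keep [6,7,8,9,10,11] (.node (.cons (.keep [4,6,7,8,9,10] (.node (.cons (.leaf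 1 [(2,1),(3,2),(4,1)]) (.cons (.leaf 1 [(4,1),(6,1),(7,1),(8,1)]) (.cons (.leaf 1 [(2,1),(6,3),(7,3),(4,1)]) (.cons (.leaf 1 [(8,1),(6,1),(7,1)]) .nil)))))) (.cons (.leaf 1 [(3,1),(6,2),(4,2)]) (.cons (.keep [4,6,7,8,9,10] (.node (.cons (.leaf 1 [(2,1),(3,2),(4,1)]) (.cons (.leaf 1 [(4,1),(6,1),(7,1),(8,1)]) (.cons (.leaf 1 [(2,1),(6,3),(7,3),(4,1)]) (.cons (.leaf 1 [(8,1),(6,1),(7,1)]) .nil)))))) (.cons (.keep [0,3,6,7,8,9] (.node (.cons (.leaf 1 [(2,1),(3,2),(4,1)]) (.cons (.leaf 1 [(4,1),(8,1),(9,1)]) (.cons (.leaf 1 [(2,1),(8,3),(4,1)]) (.cons (.leaf 1 [(9,1),(8,1)]) .nil)))))) .nil)))))) (.cons (.keep [1,6,7,8,9,10] (.node (.cons (.keep [4,7,8,9,10,11] (.node (.cons (.leaf 1 [(2,1),(3,2),(6,2),(4,1)]) (.cons (.leaf 1 [(4,1),(7,1),(6,1),(8,1)]) (.cons (.leaf 1 [(2,1),(7,3),(6,2),(4,1)])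 (.cons (.leaf 1 [(8,1),(7,1),(6,1)]) .nil)))))) (.cons (.leaf 1 [(4,2),(3,1),(7,2)]) (.cons (.keep [4,7,8,9,10,11] (.node (.cons (.leaf 1 [(6,2),(3,2),(2,1),(4,1)]) (.cons (.leaf 1 [(6,1),(7,1),(8,1),(4,1)]) (.cons (.leaf 1 [(6,2),(7,3),(2,1),(4,1)]) (.cons (.leaf 1 [(6,1),(7,1),(8,1)]) .nil)))))) (.cons (.keep [0,3,7,8,9,10] (.node (.cons (.leaf 1 [(2,1),(3,2),(4,1)]) (.cons (.leaf 1 [(4,1),(8,1),(9,1)]) (.cons (.leaf 1 [(2,1),(8,3),(4,1)]) (.cons (.leaf 1 [(9,1),(8,1)]) .nil)))))) .nil)))))) (.cons (.leaf 1 [(1,1),(7,1),(4,1)]) (.cons (.keep [0,2,6,7,8,11] (.node (.cons (.keep [3,4,6,7,8,10] (.node (.cons (.leaf 1 [(2,1),(4,1)]) (.cons (.leaf 1 [(4,1),(6,1)]) (.cons (.leaf 1 [(6,1),(4,1)]) (.cons (.leaf 1 [(6,1)]) .nil)))))) (.cons (.leaf 1 [(3,1)]) (.cons (.keep [1,4,6,7,8,9] (.node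 (.cons (.leaf 1 [(2,1),(4,1)]) (.cons (.leaf 1 [(4,1),(11,1)]) (.cons (.leaf 1 [(11,1),(4,1)]) (.cons (.leaf 1 [(11,1)]) .nil)))))) (.cons (.keep [0,3,6,7,9,10] (.node (.cons (.leaf 1 [(2,1),(4,1)]) (.cons (.leaf 1 [(4,1),(10,1)]) (.cons (.leaf 1 [(10,1),(4,1)]) (.cons (.leaf 1 [(10,1)]) .nil)))))) .nil)))))) .nil)))))) (.cons (.keep [1,4,6,7,8] (.node (.cons (.keep [2,4,6,7,8,9,10] (.node (.cons (.keep [4,6,7,9,10,11,12] (.node (.cons (.leaf 1 [(2,1),(3,1),(6,1),(4,1)]) (.cons (.leaf 1 [(4,1),(8,1),(9,1)]) (.cons (.leaf 1 [(8,2),(2,1),(6,1),(4,1)]) (.cons (.leaf 1 [(8,1),(9,1)]) .nil)))))) (.cons (.leaf 1 [(4,1),(3,1),(7,1)]) (.cons (.keep [4,6,7,9,10,11,12] (.node (.cons (.leaf 1 [(6,1),(3,1),(2,1),(4,1)]) (.cons (.leaf 1 [(4,1),(8,1),(9,1)]) (.cons (.leaf 1 [(6,1),(4,1),(2,1),(8,2)])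 (.cons (.leaf 1 [(8,1),(9,1)]) .nil)))))) (.cons (.keep [0,3,7,9,10,11] (.node (.cons (.leaf 1 [(2,1),(3,1),(4,1)]) (.cons (.leaf 1 [(4,1),(8,1),(9,1)]) (.cons (.leaf 1 [(8,2),(2,1),(4,1)]) (.cons (.leaf 1 [(9,1),(8,1)]) .nil)))))) .nil)))))) (.cons (.keep [1,4,7,8,9,10] (.node (.cons (.keep [3,4,7,9,10,11] (.node (.cons (.leaf 1 [(2,1),(3,1),(7,2),(4,1)]) (.cons (.leaf 1 [(3,1),(6,2),(7,2),(4,1)]) (.cons (.leaf 1 [(6,1),(4,1),(7,1),(8,1)]) (.cons (.leaf 1 [(6,1),(8,1),(7,1)]) .nil)))))) (.cons (.leaf 1 [(4,1),(3,1),(7,1)]) (.cons (.keep [4,7,8,9,10,11] (.node (.cons (.leaf 1 [(6,2),(3,1),(2,1),(4,1)]) (.cons (.leaf 1 [(4,1),(7,1),(8,1)]) (.cons (.leaf 1 [(7,2),(4,1),(2,1)]) (.cons (.leaf 1 [(7,1),(8,1)]) .nil)))))) (.cons (.keep [0,3,7,8,9,10] (.node (.cons (.leaf 1 [(2,1),(3,1),(4,1)])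 (.cons (.leaf 1 [(4,1),(8,1),(9,1)]) (.cons (.leaf 1 [(8,2),(2,1),(4,1)]) (.cons (.leaf 1 [(9,1),(8,1)]) .nil)))))) .nil)))))) (.cons (.leaf 1 [(7,1),(1,1),(4,1)]) (.cons (.keep [0,2,6,7,8] (.node (.cons (.keep [3,4,6,7,10] (.node (.cons (.leaf 1 [(2,1),(7,1),(4,1)]) (.cons (.leaf 1 [(4,1),(7,1),(6,1)]) (.cons (.leaf 1 [(6,1),(4,1),(7,1)]) (.cons (.leaf 1 [(6,1),(7,1)]) .nil)))))) (.cons (.leaf 1 [(4,1),(3,1)]) (.cons (.keep [4,6,7,9,10] (.node (.cons (.leaf 1 [(6,1),(2,1),(4,1)]) (.cons (.leaf 1 [(4,1),(9,1)]) (.cons (.leaf 1 [(4,1),(9,1)]) (.cons (.leaf 1 [(9,1)]) .nil)))))) (.cons (.keep [0,3,6,7,9,10] (.node (.cons (.leaf 1 [(2,1),(4,1)]) (.cons (.leaf 1 [(4,1),(10,1)]) (.cons (.leaf 1 [(10,1),(4,1)]) (.cons (.leaf 1 [(10,1)]) .nil)))))) .nil)))))) .nil)))))) (.cons (.keep [0,3,7,8,9]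 (.node (.cons (.keep [2,4,6,7,8,10] (.node (.cons (.keep [3,4,7,8,9,10] (.node (.cons (.leaf 1 [(3,1),(4,1)]) (.cons (.leaf 1 [(3,1),(6,1),(4,1)]) (.cons (.leaf 1 [(4,1),(8,1)]) (.cons (.leaf 1 [(8,1)]) .nil)))))) (.cons (.leaf 1 [(1,1),(7,1)]) (.cons (.keep [4,6,7,8,9,10] (.node (.cons (.leaf 1 [(3,1),(4,1)]) (.cons (.leaf 1 [(8,1),(4,1)]) (.cons (.leaf 1 [(4,1),(8,1)]) (.cons (.leaf 1 [(8,1)]) .nil)))))) (.cons (.keep [0,3,7,9,10] (.node (.cons (.leaf 1 [(3,1),(4,1)]) (.cons (.leaf 1 [(8,1),(4,1)]) (.cons (.leaf 1 [(4,1),(8,1)]) (.cons (.leaf 1 [(8,1)]) .nil)))))) .nil)))))) (.cons (.keep [1,4,6,7,8] (.node (.cons (.keep [3,4,7,8,9,10] (.node (.cons (.leaf 1 [(3,1),(7,1),(4,1)]) (.cons (.leaf 1 [(3,1),(6,1),(7,1),(4,1)]) (.cons (.leaf 1 [(4,1),(8,1)]) (.cons (.leaf 1 [(8,1)]) .nil))))))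 (.cons (.leaf 1 [(1,1),(7,1)]) (.cons (.keep [4,7,8,9,10] (.node (.cons (.leaf 1 [(6,1),(3,1),(4,1)]) (.cons (.leaf 1 [(4,1),(7,1)]) (.cons (.leaf 1 [(7,1),(4,1)]) (.cons (.leaf 1 [(7,1)]) .nil)))))) (.cons (.keep [0,3,7,9,10] (.node (.cons (.leaf 1 [(3,1),(4,1)]) (.cons (.leaf 1 [(8,1),(4,1)]) (.cons (.leaf 1 [(4,1),(8,1)]) (.cons (.leaf 1 [(8,1)]) .nil)))))) .nil)))))) (.cons (.leaf 1 [(1,1),(4,1)]) (.cons (.keep [0,2,6,7,10] (.node (.cons (.keep [3,4,6,7,9] (.node (.cons (.leaf 1 [(4,1)]) (.cons (.leaf 1 [(4,1)]) (.cons (.leaf 1 [(4,1)]) (.cons (.leaf 1 []) .nil)))))) (.cons (.leaf 1 [(1,1)]) (.cons (.keep [4,6,7,8,9] (.node (.cons (.leaf 1 [(4,1)]) (.cons (.leaf 1 [(4,1)]) (.cons (.leaf 1 [(4,1)]) (.cons (.leaf 1 []) .nil)))))) (.cons (.keep [0,3,6,7,9] (.node (.cons (.leaf 1 [(4,1)])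 (.cons (.leaf 1 [(4,1)]) (.cons (.leaf 1 [(4,1)]) (.cons (.leaf 1 []) .nil)))))) .nil)))))) .nil)))))) .nil)))))

theorem c_23_16_4 : Concl 23 16 z_23_16_4 h_23_16_4 .nd := piece _ hP_nil t_23_16_4 _ _ (by
  decide +kernel)

def z_23_16_5 : F := ⟨-1, 0, 0, -1, 3⟩

def h_23_16_5 : List F := [⟨0, 1, 0, 0, 0⟩, ⟨0, 1, -1, -1, 1⟩, ⟨0, -1, 1, 0, 2⟩, ⟨-1, -1, 0, 0,
  2⟩]

def t_23_16_5 : T := (.node (.cons (.keep [3,4,6,7,8,9] (.node (.cons (.keep [2,4,7,9,10,11] (.node (.cons (.keep [3,6,7,9,10,11] (.node (.cons (.leaf 1 [(2,1),(4,1)]) (.cons (.leaf 1 [(4,1),(6,1)]) (.cons (.leaf 1 [(6,1),(4,1)]) (.cons (.leaf 1 [(6,1)]) .nil)))))) (.cons (.leaf 1 [(3,1)]) (.cons (.keep [6,7,8,9,10,11] (.node (.cons (.leaf 1 [(2,1),(4,1)]) (.cons (.leaf 1 [(4,1),(8,1)]) (.cons (.leaf 1 [(2,1),(4,1),(7,1)])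 (.cons (.leaf 1 [(8,1)]) .nil)))))) (.cons (.keep [0,3,7,8,11] (.node (.cons (.leaf 1 [(2,1),(4,1)]) (.cons (.leaf 1 [(4,1),(9,1)]) (.cons (.leaf 1 [(2,1),(4,1),(8,1)]) (.cons (.leaf 1 [(9,1)]) .nil)))))) .nil)))))) (.cons (.keep [4,6,7,9,10,11] (.node (.cons (.keep [3,6,7,9,10,11] (.node (.cons (.leaf 1 [(2,1),(4,1)]) (.cons (.leaf 1 [(4,1),(6,1)]) (.cons (.leaf 1 [(6,1),(4,1)]) (.cons (.leaf 1 [(6,1)]) .nil)))))) (.cons (.leaf 1 [(3,1)]) (.cons (.keep [6,7,8,9,10,11] (.node (.cons (.leaf 1 [(2,1),(4,1)]) (.cons (.leaf 1 [(4,1),(8,1)]) (.cons (.leaf 1 [(7,1),(2,1),(4,1),(6,1)]) (.cons (.leaf 1 [(8,1)]) .nil)))))) (.cons (.keep [0,3,6,8,11] (.node (.cons (.leaf 1 [(2,1),(4,1)]) (.cons (.leaf 1 [(4,1),(9,1)]) (.cons (.leaf 1 [(2,1),(4,1),(8,1)]) (.cons (.leaf 1 [(9,1)]) .nil)))))) .nil))))))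 (.cons (.leaf 1 [(1,1),(7,1)]) (.cons (.keep [0,2,6,7,10,11] (.node (.cons (.keep [3,4,6,7,8,11] (.node (.cons (.leaf 1 [(2,1),(4,1)]) (.cons (.leaf 1 [(4,1),(6,1)]) (.cons (.leaf 1 [(6,1),(4,1)]) (.cons (.leaf 1 [(6,1)]) .nil)))))) (.cons (.leaf 1 [(3,1)]) (.cons (.keep [1,4,6,7,8,9] (.node (.cons (.leaf 1 [(2,1),(4,1)]) (.cons (.leaf 1 [(4,1),(11,1)]) (.cons (.leaf 1 [(11,1),(4,1)]) (.cons (.leaf 1 [(11,1)]) .nil)))))) (.cons (.keep [0,3,6,7,9,11] (.node (.cons (.leaf 1 [(2,1),(4,1)]) (.cons (.leaf 1 [(4,1),(10,1)]) (.cons (.leaf 1 [(10,1),(4,1)]) (.cons (.leaf 1 [(10,1)]) .nil)))))) .nil)))))) .nil)))))) (.cons (.keep [1,3,4,7,8,9] (.node (.cons (.keep [4,7,8,9,10,11] (.node (.cons (.keep [6,7,8,9,10,11] (.node (.cons (.leaf 1 [(2,1),(3,1),(4,1)]) (.cons (.leaf 1 [(4,1),(8,1)]) (.cons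 (.leaf 1 [(6,2),(2,1),(4,1)]) (.cons (.leaf 1 [(8,1)]) .nil)))))) (.cons (.leaf 1 [(3,1),(6,1)]) (.cons (.keep [6,7,8,9,10,11] (.node (.cons (.leaf 1 [(2,1),(3,1),(4,1)]) (.cons (.leaf 1 [(4,1),(8,1)]) (.cons (.leaf 1 [(6,2),(2,1),(4,1)]) (.cons (.leaf 1 [(8,1)]) .nil)))))) (.cons (.keep [0,3,6,8,11] (.node (.cons (.leaf 1 [(2,1),(3,1),(4,1)]) (.cons (.leaf 1 [(4,1),(9,1)]) (.cons (.leaf 1 [(8,2),(2,1),(4,1)]) (.cons (.leaf 1 [(9,1)]) .nil)))))) .nil)))))) (.cons (.keep [4,7,8,9,10,11] (.node (.cons (.keep [6,7,8,9,10,11] (.node (.cons (.leaf 1 [(2,1),(6,1),(4,1)]) (.cons (.leaf 1 [(4,1),(8,1)]) (.cons (.leaf 1 [(6,1),(2,1),(4,1),(7,1)]) (.cons (.leaf 1 [(8,1)]) .nil)))))) (.cons (.leaf 1 [(6,1),(3,1)]) (.cons (.keep [6,7,8,9,10,11] (.node (.cons (.leaf 1 [(6,1),(2,1),(4,1)]) (.cons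 (.leaf 1 [(4,1),(8,1)]) (.cons (.leaf 1 [(6,1),(4,1),(2,1),(7,1)]) (.cons (.leaf 1 [(8,1)]) .nil)))))) (.cons (.keep [0,3,6,8,11] (.node (.cons (.leaf 1 [(2,1),(3,1),(4,1)]) (.cons (.leaf 1 [(4,1),(9,1)]) (.cons (.leaf 1 [(8,2),(2,1),(4,1)]) (.cons (.leaf 1 [(9,1)]) .nil)))))) .nil)))))) (.cons (.leaf 1 [(1,1),(8,1)]) (.cons (.keep [0,2,7,8,10,11] (.node (.cons (.keep [3,4,6,7,8,11] (.node (.cons (.leaf 1 [(2,1),(4,1)]) (.cons (.leaf 1 [(4,1),(6,1)]) (.cons (.leaf 1 [(6,1),(4,1)]) (.cons (.leaf 1 [(6,1)]) .nil)))))) (.cons (.leaf 1 [(3,1)]) (.cons (.keep [1,4,6,7,8,9] (.node (.cons (.leaf 1 [(2,1),(4,1)]) (.cons (.leaf 1 [(4,1),(11,1)]) (.cons (.leaf 1 [(11,1),(4,1)]) (.cons (.leaf 1 [(11,1)]) .nil)))))) (.cons (.keep [0,3,6,7,9,11] (.node (.cons (.leaf 1 [(2,1),(4,1)]) (.cons (.leaf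 1 [(4,1),(10,1)]) (.cons (.leaf 1 [(10,1),(4,1)]) (.cons (.leaf 1 [(10,1)]) .nil)))))) .nil)))))) .nil)))))) (.cons (.keep [2,4,6,7,9] (.node (.cons (.keep [2,4,6,7,9,10] (.node (.cons (.keep [6,7,8,9,10,11] (.node (.cons (.leaf 1 [(2,1),(8,1),(3,1),(4,1)]) (.cons (.leaf 1 [(4,1),(9,1)]) (.cons (.leaf 1 [(7,2),(2,1),(8,1),(4,1)]) (.cons (.leaf 1 [(9,1)]) .nil)))))) (.cons (.leaf 1 [(4,1),(3,1)]) (.cons (.keep [6,7,8,9,10,11] (.node (.cons (.leaf 1 [(8,1),(2,1),(3,1),(4,1)]) (.cons (.leaf 1 [(4,1),(9,1)]) (.cons (.leaf 1 [(8,1),(4,1),(2,1),(7,2)]) (.cons (.leaf 1 [(9,1)]) .nil)))))) (.cons (.keep [0,3,7,9,11] (.node (.cons (.leaf 1 [(2,1),(4,1)]) (.cons (.leaf 1 [(4,1),(9,1)]) (.cons (.leaf 1 [(2,1),(4,1),(8,1)]) (.cons (.leaf 1 [(9,1)]) .nil)))))) .nil)))))) (.cons (.keep [4,6,7,9,10]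 (.node (.cons (.keep [3,6,7,9,10] (.node (.cons (.leaf 1 [(2,1),(8,1),(7,1),(4,1)]) (.cons (.leaf 1 [(4,1),(8,1),(7,1),(6,1)]) (.cons (.leaf 1 [(6,1),(4,1),(1,1),(7,1)]) (.cons (.leaf 1 [(6,1),(8,1),(7,1)]) .nil)))))) (.cons (.leaf 1 [(4,1),(3,1)]) (.cons (.keep [6,7,8,9,10] (.node (.cons (.leaf 1 [(6,1),(7,1),(2,1),(4,1)]) (.cons (.leaf 1 [(4,1),(8,1)]) (.cons (.leaf 1 [(6,1),(4,1),(2,1)]) (.cons (.leaf 1 [(8,1)]) .nil)))))) (.cons (.keep [0,3,6,8,10] (.node (.cons (.leaf 1 [(2,1),(4,1)]) (.cons (.leaf 1 [(4,1),(9,1)]) (.cons (.leaf 1 [(2,1),(4,1),(8,1)]) (.cons (.leaf 1 [(9,1)]) .nil)))))) .nil)))))) (.cons (.leaf 1 [(7,1),(1,1)]) (.cons (.keep [0,2,6,7,10] (.node (.cons (.keep [3,4,6,7,10] (.node (.cons (.leaf 1 [(2,1),(7,1),(4,1)]) (.cons (.leaf 1 [(4,1),(7,1),(6,1)]) (.cons (.leaf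 1 [(6,1),(4,1),(7,1)]) (.cons (.leaf 1 [(6,1),(7,1)]) .nil)))))) (.cons (.leaf 1 [(4,1),(3,1)]) (.cons (.keep [4,6,7,9,10] (.node (.cons (.leaf 1 [(6,1),(2,1),(4,1)]) (.cons (.leaf 1 [(4,1),(9,1)]) (.cons (.leaf 1 [(4,1),(9,1)]) (.cons (.leaf 1 [(9,1)]) .nil)))))) (.cons (.keep [0,3,6,7,9,10] (.node (.cons (.leaf 1 [(2,1),(4,1)]) (.cons (.leaf 1 [(4,1),(10,1)]) (.cons (.leaf 1 [(10,1),(4,1)]) (.cons (.leaf 1 [(10,1)]) .nil)))))) .nil)))))) .nil)))))) (.cons (.keep [0,3,6,8,9] (.node (.cons (.keep [2,4,6,7,9] (.node (.cons (.keep [3,7,8,9,10] (.node (.cons (.leaf 1 [(4,1)]) (.cons (.leaf 1 [(4,1)]) (.cons (.leaf 1 [(4,1)]) (.cons (.leaf 1 []) .nil)))))) (.cons (.leaf 1 [(1,1)]) (.cons (.keep [6,7,8,9,10] (.node (.cons (.leaf 1 [(4,1)]) (.cons (.leaf 1 [(4,1)]) (.cons (.leaf 1 [(4,1)])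 (.cons (.leaf 1 []) .nil)))))) (.cons (.keep [0,3,7,9,10] (.node (.cons (.leaf 1 [(4,1)]) (.cons (.leaf 1 [(4,1)]) (.cons (.leaf 1 [(4,1)]) (.cons (.leaf 1 []) .nil)))))) .nil)))))) (.cons (.keep [4,6,7,9,10] (.node (.cons (.keep [3,6,7,8,9] (.node (.cons (.leaf 1 [(4,1)]) (.cons (.leaf 1 [(4,1)]) (.cons (.leaf 1 [(4,1)]) (.cons (.leaf 1 []) .nil)))))) (.cons (.leaf 1 [(1,1)]) (.cons (.keep [6,7,8,9,10] (.node (.cons (.leaf 1 [(4,1)]) (.cons (.leaf 1 [(4,1)]) (.cons (.leaf 1 [(4,1)]) (.cons (.leaf 1 []) .nil)))))) (.cons (.keep [0,3,6,8,9] (.node (.cons (.leaf 1 [(4,1)]) (.cons (.leaf 1 [(4,1)]) (.cons (.leaf 1 [(4,1)]) (.cons (.leaf 1 []) .nil)))))) .nil)))))) (.cons (.leaf 1 [(1,1)]) (.cons (.keep [0,2,6,7,9] (.node (.cons (.keep [3,4,6,7,9] (.node (.cons (.leaf 1 [(4,1)]) (.cons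 (.leaf 1 [(4,1)]) (.cons (.leaf 1 [(4,1)]) (.cons (.leaf 1 []) .nil)))))) (.cons (.leaf 1 [(1,1)]) (.cons (.keep [4,6,7,8,9] (.node (.cons (.leaf 1 [(4,1)]) (.cons (.leaf 1 [(4,1)]) (.cons (.leaf 1 [(4,1)]) (.cons (.leaf 1 []) .nil)))))) (.cons (.keep [0,3,6,7,9] (.node (.cons (.leaf 1 [(4,1)]) (.cons (.leaf 1 [(4,1)]) (.cons (.leaf 1 [(4,1)]) (.cons (.leaf 1 []) .nil)))))) .nil)))))) .nil)))))) .nil)))))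

theorem c_23_16_5 : Concl 23 16 z_23_16_5 h_23_16_5 .nd := piece _ hP_nil t_23_16_5 _ _ (by
  decide +kernel)

def z_23_16_9 : F := ⟨0, -1, -1, 1, 4⟩

def h_23_16_9 : List F := [⟨0, -1, -1, 0, 4⟩, ⟨1, 0, 0, 0, 0⟩, ⟨1, 0, 0, -1, 0⟩, ⟨1, 0, -1, 0, 0⟩,
  ⟨0, -1, 0, 0, 1⟩, ⟨-1, 0, 0, 1, 2⟩]

def t_23_16_9 : T := (.node (.cons (.keep [2,3,4,8,11] (.node (.cons (.keep [2,3,4,6,8,10] (.node (.cons (.leaf 1 [(2,1),(8,1),(4,1)]) (.cons (.leaf 1 [(4,1),(8,1),(7,1)]) (.cons (.leaf 1 [(7,1),(4,1),(8,1)]) (.cons (.leaf 1 [(7,1),(8,1)]) .nil)))))) (.cons (.leaf 1 [(4,1),(3,1)]) (.cons (.keep [0,4,6,8,9,10] (.node (.cons (.leaf 1 [(7,1),(2,1),(4,1)]) (.cons (.keep [0,4,6,7,9,10,11] (.node (.cons (.leaf 1 [(3,1),(7,1)]) (.cons (.leaf 1 [(7,1),(3,1),(10,1)]) (.cons (.keep [6,7,8,9,10,11,12] (.node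 (.cons (.leaf 1 [(7,1),(2,1)]) (.cons (.leaf 1 [(7,2),(0,1),(9,1),(11,1)]) (.cons (.leaf 1 [(7,3),(0,1),(2,2),(11,1)]) (.cons (.leaf 1 [(7,1),(11,1),(9,1)]) .nil)))))) (.cons (.leaf 1 [(9,1),(7,1)]) .nil)))))) (.cons (.leaf 1 [(7,1),(4,1),(2,1),(9,1)]) (.cons (.keep [0,2,7,9,10,11] (.node (.cons (.leaf 1 [(3,1)]) (.cons (.leaf 1 [(3,1),(9,1)]) (.cons (.keep [6,7,8,9,10,11] (.node (.cons (.leaf 1 [(2,1)]) (.cons (.leaf 1 [(0,1),(10,1),(8,1)]) (.cons (.leaf 1 [(0,1),(10,1),(8,1),(2,1)]) (.cons (.leaf 1 [(8,1),(10,1)]) .nil)))))) (.cons (.leaf 1 [(8,1)]) .nil)))))) .nil)))))) (.cons (.keep [0,3,8,9,10] (.node (.cons (.leaf 1 [(2,1),(4,1)]) (.cons (.keep [4,6,7,8,9,10] (.node (.cons (.leaf 1 [(8,1),(6,1),(3,1)]) (.cons (.leaf 1 [(6,1),(8,1),(9,1),(3,1)]) (.cons (.keep [6,7,8,9,10,11] (.node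 (.cons (.leaf 1 [(3,1)]) (.cons (.leaf 1 [(3,1),(0,1),(10,1),(6,1)]) (.cons (.leaf 1 [(6,1),(0,1),(10,1)]) (.cons (.leaf 1 [(6,1),(10,1)]) .nil)))))) (.cons (.leaf 1 [(6,1)]) .nil)))))) (.cons (.leaf 1 [(2,1),(4,1),(8,1)]) (.cons (.keep [0,2,6,7,8,9,10] (.node (.cons (.leaf 1 [(9,1),(3,1)]) (.cons (.leaf 1 [(10,1),(9,1),(3,1)]) (.cons (.keep [6,7,8,9,10,11,12] (.node (.cons (.leaf 1 [(3,1),(7,1)]) (.cons (.leaf 1 [(0,1),(7,1),(3,1),(11,1)]) (.cons (.leaf 1 [(7,1),(0,1),(11,1)]) (.cons (.leaf 1 [(11,1)]) .nil)))))) (.cons (.leaf 1 []) .nil)))))) .nil)))))) .nil)))))) (.cons (.keep [1,4,6,8,10,11] (.node (.cons (.keep [3,4,7,8,10,11] (.node (.cons (.leaf 1 [(2,1),(7,1),(4,1)]) (.cons (.leaf 1 [(4,1),(7,1),(6,1)]) (.cons (.leaf 1 [(6,1),(4,1),(7,1)]) (.cons (.leaf 1 [(6,1),(7,1)]) .nil))))))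 (.cons (.leaf 1 [(4,1),(3,1)]) (.cons (.keep [4,7,8,9,10,11] (.node (.cons (.leaf 1 [(6,1),(2,1),(4,1)]) (.cons (.keep [4,6,7,8,9,11] (.node (.cons (.leaf 1 [(3,1),(6,1)]) (.cons (.leaf 1 [(6,2),(3,1),(9,1),(8,1)]) (.cons (.keep [6,7,8,9,10,11] (.node (.cons (.leaf 1 [(6,1),(2,1)]) (.cons (.leaf 1 [(6,2),(0,1),(10,1)]) (.cons (.leaf 1 [(6,2),(0,1),(2,1),(10,1)]) (.cons (.leaf 1 [(6,1),(10,1)]) .nil)))))) (.cons (.leaf 1 [(7,1),(6,1)]) .nil)))))) (.cons (.leaf 1 [(7,1),(4,1),(2,1)]) (.cons (.keep [0,2,6,7,9,11] (.node (.cons (.leaf 1 [(3,1)]) (.cons (.leaf 1 [(3,1),(9,1),(7,1),(6,1)]) (.cons (.keep [6,7,8,9,10,11] (.node (.cons (.leaf 1 [(2,1)]) (.cons (.leaf 1 [(0,1),(10,1)]) (.cons (.leaf 1 [(0,1),(2,1),(10,1)]) (.cons (.leaf 1 [(10,1)]) .nil)))))) (.cons (.leaf 1 [(8,1)]) .nil))))))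 .nil)))))) (.cons (.keep [0,3,7,9,11] (.node (.cons (.leaf 1 [(2,1),(4,1)]) (.cons (.keep [4,6,7,8,9,10] (.node (.cons (.leaf 1 [(8,1),(6,1),(3,1)]) (.cons (.leaf 1 [(6,1),(8,1),(9,1),(3,1)]) (.cons (.keep [6,7,8,9,10,11] (.node (.cons (.leaf 1 [(3,1)]) (.cons (.leaf 1 [(3,1),(0,1),(10,1),(6,1)]) (.cons (.leaf 1 [(6,1),(0,1),(10,1)]) (.cons (.leaf 1 [(6,1),(10,1)]) .nil)))))) (.cons (.leaf 1 [(6,1)]) .nil)))))) (.cons (.leaf 1 [(2,1),(4,1),(8,1)]) (.cons (.keep [0,2,6,7,8,9,10] (.node (.cons (.leaf 1 [(9,1),(3,1)]) (.cons (.leaf 1 [(10,1),(9,1),(3,1)]) (.cons (.keep [6,7,8,9,10,11,12] (.node (.cons (.leaf 1 [(3,1),(7,1)]) (.cons (.leaf 1 [(0,1),(7,1),(3,1),(11,1)]) (.cons (.leaf 1 [(7,1),(0,1),(11,1)]) (.cons (.leaf 1 [(11,1)]) .nil)))))) (.cons (.leaf 1 []) .nil)))))) .nil)))))) .nil))))))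 (.cons (.keep [1,6,8,9,11] (.node (.cons (.leaf 1 [(6,1),(3,1),(4,1)]) (.cons (.leaf 1 [(4,1),(3,1)]) (.cons (.keep [4,6,7,8,9,10] (.node (.cons (.leaf 1 [(6,1),(2,1),(4,1)]) (.cons (.keep [4,6,8,9,10,11] (.node (.cons (.leaf 1 [(3,1),(6,1)]) (.cons (.leaf 1 [(6,1),(3,2),(9,1),(0,1)]) (.cons (.keep [6,7,8,9,10,11] (.node (.cons (.leaf 1 [(6,1),(2,1)]) (.cons (.leaf 1 [(6,1),(0,1),(7,1),(9,1)]) (.cons (.leaf 1 [(6,2),(0,1),(2,2),(9,1)]) (.cons (.leaf 1 [(9,1),(7,1)]) .nil)))))) (.cons (.leaf 1 [(7,1),(6,1)]) .nil)))))) (.cons (.leaf 1 [(6,1),(1,1),(9,1)]) (.cons (.keep [0,2,6,9,10,11] (.node (.cons (.leaf 1 [(3,1)]) (.cons (.leaf 1 [(3,2),(0,1),(9,1)]) (.cons (.keep [6,7,8,9,10,11] (.node (.cons (.leaf 1 [(2,1)]) (.cons (.leaf 1 [(0,1),(9,1),(8,1)]) (.cons (.leaf 1 [(0,1),(2,1),(9,1),(8,1)])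 (.cons (.leaf 1 [(8,1),(9,1)]) .nil)))))) (.cons (.leaf 1 [(8,1)]) .nil)))))) .nil)))))) (.cons (.keep [0,3,6,8,9,10] (.node (.cons (.leaf 1 [(2,1),(4,1)]) (.cons (.keep [4,6,7,9,10,11] (.node (.cons (.leaf 1 [(8,1),(6,1),(3,1)]) (.cons (.leaf 2 [(6,1),(8,1),(9,1),(3,1)]) (.cons (.keep [6,7,8,9,10,11] (.node (.cons (.leaf 1 [(3,1)]) (.cons (.leaf 1 [(3,1),(0,1),(9,1)]) (.cons (.leaf 1 [(0,1),(9,1)]) (.cons (.leaf 1 [(9,1)]) .nil)))))) (.cons (.leaf 1 [(6,1)]) .nil)))))) (.cons (.leaf 2 [(2,1),(4,1),(9,1)]) (.cons (.keep [0,2,6,7,9,10,11] (.node (.cons (.leaf 1 [(9,1),(3,1)]) (.cons (.leaf 2 [(10,1),(9,1),(3,1)]) (.cons (.keep [6,7,8,9,10,11,12] (.node (.cons (.leaf 1 [(3,1),(7,1)]) (.cons (.leaf 1 [(0,1),(7,1),(3,1),(10,1)]) (.cons (.leaf 1 [(7,1),(0,1),(10,1)]) (.cons (.leaf 1 [(10,1)])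 .nil)))))) (.cons (.leaf 1 []) .nil)))))) .nil)))))) .nil)))))) (.cons (.keep [0,1,8,9,10,11] (.node (.cons (.keep [3,4,6,7,10,11] (.node (.cons (.leaf 1 [(2,1),(7,1),(4,1)]) (.cons (.leaf 1 [(4,1),(7,1),(6,1)]) (.cons (.leaf 1 [(6,1),(4,1),(7,1)]) (.cons (.leaf 1 [(6,1),(7,1)]) .nil)))))) (.cons (.leaf 1 [(4,1),(3,1)]) (.cons (.keep [1,4,6,7,8,10] (.node (.cons (.leaf 1 [(7,1),(2,1),(4,1)]) (.cons (.leaf 1 [(4,1),(7,1),(10,1)]) (.cons (.leaf 1 [(7,1),(4,1),(10,1)]) (.cons (.leaf 1 [(7,1),(10,1)]) .nil)))))) (.cons (.keep [0,3,6,7,8,11] (.node (.cons (.leaf 1 [(2,1),(4,1)]) (.cons (.leaf 1 [(4,1),(10,1)]) (.cons (.leaf 1 [(10,1),(4,1)]) (.cons (.leaf 1 [(10,1)]) .nil)))))) .nil)))))) .nil)))))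

theorem c_23_16_9 : Concl 23 16 z_23_16_9 h_23_16_9 .nd := piece _ hP_nil t_23_16_9 _ _ (by
  decide +kernel)

def z_23_16_11 : F := ⟨-1, 0, -1, -1, 3⟩

def h_23_16_11 : List F := [⟨-1, 0, 0, 0, 0⟩, ⟨0, -1, 0, 0, 0⟩, ⟨0, 0, 0, -1, 0⟩, ⟨0, 0, -1, 0,
  1⟩, ⟨0, 1, 0, 0, 1⟩]

def t_23_16_11 : T := (.node (.cons (.keep [2,3,4,6,8,10] (.node (.cons (.keep [2,3,4,6,8,9] (.node (.cons (.keep [2,3,4,6,8,9,11] (.node (.cons (.leaf 1 [(2,1),(8,1),(4,1)]) (.cons (.leaf 1 [(4,1),(8,1),(7,1)]) (.cons (.leaf 1 [(7,1),(4,1),(8,1)]) (.cons (.leaf 1 [(7,1),(8,1)]) .nil)))))) (.cons (.leaf 1 [(4,1),(3,1)]) (.cons (.keep [1,2,4,6,8,9,10] (.node (.cons (.leaf 1 [(8,1),(2,1),(4,1)]) (.cons (.leaf 1 [(4,1),(8,1),(12,1)]) (.cons (.leaf 1 [(8,1),(4,1),(2,1),(10,1)]) (.cons (.leaf 1 [(8,1),(12,1)]) .nil))))))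 (.cons (.keep [0,3,8,9,10,11] (.node (.cons (.leaf 1 [(2,1),(4,1)]) (.cons (.leaf 1 [(4,1),(10,1)]) (.cons (.leaf 1 [(2,1),(4,1),(8,1)]) (.cons (.leaf 1 [(10,1)]) .nil)))))) .nil)))))) (.cons (.keep [1,4,6,7,8,9,10] (.node (.cons (.keep [2,3,4,7,8,9,11] (.node (.cons (.leaf 1 [(2,1),(8,1),(4,1)]) (.cons (.leaf 1 [(4,1),(8,1),(7,1)]) (.cons (.leaf 1 [(7,1),(4,1),(8,1)]) (.cons (.leaf 1 [(7,1),(8,1)]) .nil)))))) (.cons (.leaf 1 [(4,1),(3,1)]) (.cons (.keep [1,2,4,7,8,9,10] (.node (.cons (.leaf 1 [(8,1),(2,1),(4,1)]) (.cons (.leaf 1 [(4,1),(8,1),(12,1)]) (.cons (.leaf 1 [(9,1),(4,1),(2,1)]) (.cons (.leaf 1 [(8,1),(12,1)]) .nil)))))) (.cons (.keep [0,3,7,8,10,11] (.node (.cons (.leaf 1 [(2,1),(4,1)]) (.cons (.leaf 1 [(4,1),(10,1)]) (.cons (.leaf 1 [(2,1),(4,1),(8,1)]) (.cons (.leaf 1 [(10,1)])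 .nil)))))) .nil)))))) (.cons (.keep [1,4,6,7,8,9,10] (.node (.cons (.leaf 1 [(6,1),(3,1),(4,1)]) (.cons (.leaf 1 [(4,1),(3,1)]) (.cons (.leaf 1 [(6,1),(4,1),(10,1)]) (.cons (.leaf 1 [(6,1),(10,1)]) .nil)))))) (.cons (.keep [0,1,7,8,9,10] (.node (.cons (.keep [3,4,6,7,8,10] (.node (.cons (.leaf 1 [(2,1),(7,1),(4,1)]) (.cons (.leaf 1 [(4,1),(7,1),(6,1)]) (.cons (.leaf 1 [(6,1),(4,1),(7,1)]) (.cons (.leaf 1 [(6,1),(7,1)]) .nil)))))) (.cons (.leaf 1 [(4,1),(3,1)]) (.cons (.keep [1,4,6,7,8,9] (.node (.cons (.leaf 1 [(7,1),(2,1),(4,1)]) (.cons (.leaf 1 [(4,1),(7,1),(11,1)]) (.cons (.leaf 1 [(7,1),(4,1),(11,1)]) (.cons (.leaf 1 [(7,1),(11,1)]) .nil)))))) (.cons (.keep [0,3,6,7,9,10] (.node (.cons (.leaf 1 [(2,1),(4,1)]) (.cons (.leaf 1 [(4,1),(10,1)]) (.cons (.leaf 1 [(10,1),(4,1)]) (.cons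 (.leaf 1 [(10,1)]) .nil)))))) .nil)))))) .nil)))))) (.cons (.keep [1,4,6,7,8,9] (.node (.cons (.keep [2,3,4,7,8,9] (.node (.cons (.keep [2,4,6,8,9,10,11] (.node (.cons (.leaf 1 [(2,1),(3,1),(7,1),(4,1)]) (.cons (.leaf 1 [(4,1),(10,1),(7,1)]) (.cons (.leaf 1 [(9,2),(2,1),(7,1),(4,1)]) (.cons (.leaf 1 [(10,1),(7,1)]) .nil)))))) (.cons (.leaf 1 [(4,1),(3,1),(8,1)]) (.cons (.keep [4,6,7,8,9,10,11] (.node (.cons (.leaf 1 [(6,1),(3,1),(2,1),(4,1)]) (.cons (.leaf 1 [(4,1),(6,1),(10,1)]) (.cons (.leaf 1 [(6,1),(4,1),(2,1),(9,2)]) (.cons (.leaf 1 [(6,1),(10,1)]) .nil)))))) (.cons (.keep [0,3,8,9,10,11] (.node (.cons (.leaf 1 [(2,1),(3,1),(4,1)]) (.cons (.leaf 1 [(4,1),(9,1)]) (.cons (.leaf 1 [(8,2),(2,1),(4,1)]) (.cons (.leaf 1 [(9,1)]) .nil)))))) .nil)))))) (.cons (.keep [1,4,7,8,9,10,11] (.node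 (.cons (.keep [2,4,7,8,9,10,12] (.node (.cons (.leaf 1 [(2,1),(3,1),(7,2),(4,1)]) (.cons (.leaf 1 [(4,1),(9,1),(7,1)]) (.cons (.leaf 1 [(8,2),(2,1),(4,1)]) (.cons (.leaf 1 [(9,1),(7,1)]) .nil)))))) (.cons (.leaf 1 [(4,1),(3,1),(7,1)]) (.cons (.keep [4,7,8,9,10,11,12] (.node (.cons (.leaf 1 [(6,2),(3,1),(2,1),(4,1)]) (.cons (.leaf 1 [(4,1),(6,1),(8,1)]) (.cons (.leaf 1 [(7,2),(4,1),(2,1)]) (.cons (.leaf 1 [(6,1),(8,1)]) .nil)))))) (.cons (.keep [0,3,7,8,9,10] (.node (.cons (.leaf 1 [(2,1),(3,1),(4,1)]) (.cons (.leaf 1 [(4,1),(9,1)]) (.cons (.leaf 1 [(8,2),(2,1),(4,1)]) (.cons (.leaf 1 [(9,1)]) .nil)))))) .nil)))))) (.cons (.keep [1,4,7,8,9,10,11] (.node (.cons (.leaf 1 [(6,1),(3,1),(7,1),(4,1)]) (.cons (.leaf 1 [(7,1),(3,1),(4,1)]) (.cons (.leaf 1 [(6,1),(4,1),(8,1)]) (.cons (.leaf 1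 [(6,1),(8,1)]) .nil)))))) (.cons (.keep [0,1,7,8,10,11] (.node (.cons (.keep [3,4,6,7,9,11] (.node (.cons (.leaf 1 [(2,1),(7,1),(4,1)]) (.cons (.leaf 1 [(4,1),(7,1),(6,1)]) (.cons (.leaf 1 [(6,1),(4,1),(7,1)]) (.cons (.leaf 1 [(6,1),(7,1)]) .nil)))))) (.cons (.leaf 1 [(4,1),(3,1)]) (.cons (.keep [1,4,6,7,8,11] (.node (.cons (.leaf 1 [(7,1),(2,1),(4,1)]) (.cons (.leaf 1 [(4,1),(7,1),(10,1)]) (.cons (.leaf 1 [(7,1),(4,1),(10,1)]) (.cons (.leaf 1 [(7,1),(10,1)]) .nil)))))) (.cons (.keep [0,3,6,7,8,9] (.node (.cons (.leaf 1 [(2,1),(4,1)]) (.cons (.leaf 1 [(4,1),(10,1)]) (.cons (.leaf 1 [(10,1),(4,1)]) (.cons (.leaf 1 [(10,1)]) .nil)))))) .nil)))))) .nil)))))) (.cons (.keep [2,4,6,8,9,10] (.node (.cons (.keep [2,3,4,6,7,8] (.node (.cons (.keep [2,6,8,9,10,11] (.node (.cons (.leaf 1 [(2,1),(9,2),(3,2),(4,1)])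 (.cons (.leaf 1 [(4,1),(9,1),(8,1),(10,1)]) (.cons (.leaf 1 [(8,3),(2,1),(9,2),(4,1)]) (.cons (.leaf 1 [(10,1),(9,1),(8,1)]) .nil)))))) (.cons (.leaf 1 [(4,2),(3,1)]) (.cons (.keep [6,7,8,9,10,11] (.node (.cons (.leaf 1 [(3,2),(9,2),(2,1),(4,1)]) (.cons (.leaf 1 [(8,1),(9,1),(10,1),(4,1)]) (.cons (.leaf 1 [(9,2),(4,1),(2,1),(8,3)]) (.cons (.leaf 1 [(8,1),(9,1),(10,1)]) .nil)))))) (.cons (.keep [0,3,8,9,10,11] (.node (.cons (.leaf 1 [(2,1),(4,1)]) (.cons (.leaf 1 [(4,1),(10,1)]) (.cons (.leaf 1 [(2,1),(4,1),(8,1)]) (.cons (.leaf 1 [(10,1)]) .nil)))))) .nil)))))) (.cons (.keep [4,6,7,8,9,10] (.node (.cons (.keep [2,6,7,8,9,11] (.node (.cons (.leaf 1 [(2,1),(8,2),(7,2),(4,1)]) (.cons (.leaf 1 [(4,1),(8,1),(7,1),(9,1)]) (.cons (.leaf 1 [(7,2),(2,1),(1,1),(4,1)]) (.cons (.leaf 1 [(9,1),(8,1),(7,1)])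 .nil)))))) (.cons (.leaf 1 [(4,2),(3,1)]) (.cons (.keep [6,7,8,9,10,11] (.node (.cons (.leaf 1 [(6,2),(7,2),(2,1),(4,1)]) (.cons (.leaf 1 [(6,1),(7,1),(8,1),(4,1)]) (.cons (.leaf 1 [(1,1),(4,1),(2,1),(6,2)]) (.cons (.leaf 1 [(6,1),(7,1),(8,1)]) .nil)))))) (.cons (.keep [0,3,6,7,8,9] (.node (.cons (.leaf 1 [(2,1),(4,1)]) (.cons (.leaf 1 [(4,1),(10,1)]) (.cons (.leaf 1 [(2,1),(4,1),(8,1)]) (.cons (.leaf 1 [(10,1)]) .nil)))))) .nil)))))) (.cons (.leaf 1 [(4,1),(1,1),(7,1),(6,1)]) (.cons (.keep [0,2,6,7,8,10] (.node (.cons (.keep [4,6,7,9,10,11] (.node (.cons (.leaf 1 [(2,1),(6,2),(4,1)]) (.cons (.leaf 1 [(4,1),(6,1),(9,1)]) (.cons (.leaf 1 [(9,1),(4,1),(6,1)]) (.cons (.leaf 1 [(9,1),(6,1)]) .nil)))))) (.cons (.leaf 1 [(4,2),(3,1)]) (.cons (.keep [4,6,7,9,10,11] (.node (.cons (.leaf 1 [(6,2),(2,1),(4,1)])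 (.cons (.leaf 1 [(6,1),(9,1),(4,1)]) (.cons (.leaf 1 [(6,1),(4,1),(9,1)]) (.cons (.leaf 1 [(6,1),(9,1)]) .nil)))))) (.cons (.keep [0,3,6,7,9,10] (.node (.cons (.leaf 1 [(2,1),(4,1)]) (.cons (.leaf 1 [(4,1),(10,1)]) (.cons (.leaf 1 [(10,1),(4,1)]) (.cons (.leaf 1 [(10,1)]) .nil)))))) .nil)))))) .nil)))))) (.cons (.keep [0,2,7,8,9,10] (.node (.cons (.keep [2,3,4,6,7,8] (.node (.cons (.keep [3,4,6,8,9,10] (.node (.cons (.leaf 1 [(7,1),(4,1)]) (.cons (.leaf 1 [(4,1),(7,1)]) (.cons (.leaf 1 [(4,1),(7,1)]) (.cons (.leaf 1 [(7,1)]) .nil)))))) (.cons (.leaf 1 [(1,1),(4,1)]) (.cons (.keep [4,6,8,9,10,11] (.node (.cons (.leaf 1 [(6,1),(4,1)]) (.cons (.leaf 1 [(6,1),(4,1)]) (.cons (.leaf 1 [(6,1),(4,1)]) (.cons (.leaf 1 [(6,1)]) .nil)))))) (.cons (.keep [0,3,8,10,11] (.node (.cons (.leaf 1 [(4,1)])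 (.cons (.leaf 1 [(4,1)]) (.cons (.leaf 1 [(4,1)]) (.cons (.leaf 1 []) .nil)))))) .nil)))))) (.cons (.keep [1,4,6,7,8,10] (.node (.cons (.keep [3,4,7,8,9,11] (.node (.cons (.leaf 1 [(7,1),(4,1)]) (.cons (.leaf 1 [(4,1),(7,1)]) (.cons (.leaf 1 [(4,1),(7,1)]) (.cons (.leaf 1 [(7,1)]) .nil)))))) (.cons (.leaf 1 [(1,1),(4,1)]) (.cons (.keep [4,7,8,9,10,11] (.node (.cons (.leaf 1 [(6,1),(4,1)]) (.cons (.leaf 1 [(6,1),(4,1)]) (.cons (.leaf 1 [(6,1),(4,1)]) (.cons (.leaf 1 [(6,1)]) .nil)))))) (.cons (.keep [0,3,7,9,10] (.node (.cons (.leaf 1 [(4,1)]) (.cons (.leaf 1 [(4,1)]) (.cons (.leaf 1 [(4,1)]) (.cons (.leaf 1 []) .nil)))))) .nil)))))) (.cons (.keep [1,4,6,7,8,9] (.node (.cons (.leaf 1 [(6,1),(4,1)]) (.cons (.leaf 1 [(1,1),(4,1)]) (.cons (.leaf 1 [(6,1),(4,1)]) (.cons (.leaf 1 [(6,1)])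 .nil)))))) (.cons (.keep [0,1,6,7,9,10] (.node (.cons (.keep [3,4,6,7,9,11] (.node (.cons (.leaf 1 [(7,1),(4,1)]) (.cons (.leaf 1 [(4,1),(7,1)]) (.cons (.leaf 1 [(4,1),(7,1)]) (.cons (.leaf 1 [(7,1)]) .nil)))))) (.cons (.leaf 1 [(1,1),(4,1)]) (.cons (.keep [1,4,6,7,8,11] (.node (.cons (.leaf 1 [(7,1),(4,1)]) (.cons (.leaf 1 [(7,1),(4,1)]) (.cons (.leaf 1 [(7,1),(4,1)]) (.cons (.leaf 1 [(7,1)]) .nil)))))) (.cons (.keep [0,3,6,7,9] (.node (.cons (.leaf 1 [(4,1)]) (.cons (.leaf 1 [(4,1)]) (.cons (.leaf 1 [(4,1)]) (.cons (.leaf 1 []) .nil)))))) .nil)))))) .nil)))))) .nil)))))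

theorem c_23_16_11 : Concl 23 16 z_23_16_11 h_23_16_11 .nd := piece _ hP_nil t_23_16_11 _ _ (by
  decide +kernel)

def z_23_16_13 : F := ⟨0, -1, -1, 1, 4⟩

def h_23_16_13 : List F := [⟨1, -1, 0, 0, 0⟩, ⟨1, 0, 0, -1, 0⟩, ⟨0, 1, 0, 0, 1⟩, ⟨0, 0, -1, 0, 1⟩,
  ⟨-1, -1, 0, 1, 3⟩]

def t_23_16_13 : T := (.node (.cons (.keep [3,6,7,8,10] (.node (.cons (.keep [2,3,4,7,10] (.node (.cons (.leaf 1 [(2,1),(8,1),(4,1)]) (.cons (.leaf 1 [(4,1),(8,1),(7,1)]) (.cons (.leaf 1 [(7,1),(4,1),(8,1)]) (.cons (.leaf 1 [(7,1),(8,1)]) .nil)))))) (.cons (.leaf 1 [(4,1),(3,1)]) (.cons (.keep [0,4,7,8,10] (.node (.cons (.leaf 1 [(7,1),(2,1),(4,1)]) (.cons (.keep [4,6,7,8,9,10] (.node (.cons (.leaf 1 [(3,1),(6,1)]) (.cons (.leaf 1 [(6,1),(3,1),(9,1),(8,1)]) (.cons (.keep [6,7,8,9,10,11] (.node (.cons (.leaf 1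 [(6,1),(2,1)]) (.cons (.leaf 1 [(6,2),(0,1),(8,1),(10,1)]) (.cons (.leaf 1 [(6,3),(0,1),(2,2),(10,1)]) (.cons (.leaf 1 [(6,1),(10,1),(8,1)]) .nil)))))) (.cons (.leaf 1 [(8,1),(6,1)]) .nil)))))) (.cons (.leaf 1 [(7,2),(4,1),(2,1),(8,1)]) (.cons (.keep [0,2,7,8,9,10] (.node (.cons (.leaf 1 [(3,1)]) (.cons (.leaf 1 [(3,1),(8,1),(9,1)]) (.cons (.keep [6,7,8,9,10,11] (.node (.cons (.leaf 1 [(2,1)]) (.cons (.leaf 1 [(0,1),(10,1),(8,1)]) (.cons (.leaf 1 [(0,1),(2,1),(10,1),(8,1)]) (.cons (.leaf 1 [(8,1),(10,1)]) .nil)))))) (.cons (.leaf 1 [(8,1)]) .nil)))))) .nil)))))) (.cons (.keep [0,3,7,8,10] (.node (.cons (.leaf 1 [(2,1),(4,1)]) (.cons (.keep [4,6,7,8,9,10] (.node (.cons (.leaf 1 [(8,1),(6,1),(3,1)]) (.cons (.leaf 1 [(6,1),(8,1),(9,1),(3,1)]) (.cons (.keep [6,7,8,9,10,11] (.node (.cons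 (.leaf 1 [(3,1)]) (.cons (.leaf 1 [(3,1),(0,1),(10,1),(6,1)]) (.cons (.leaf 1 [(6,1),(0,1),(10,1)]) (.cons (.leaf 1 [(6,1),(10,1)]) .nil)))))) (.cons (.leaf 1 [(6,1)]) .nil)))))) (.cons (.leaf 1 [(2,1),(4,1),(8,1)]) (.cons (.keep [0,2,6,7,8,9,10] (.node (.cons (.leaf 1 [(9,1),(3,1)]) (.cons (.leaf 1 [(10,1),(9,1),(3,1)]) (.cons (.keep [6,7,8,9,10,11,12] (.node (.cons (.leaf 1 [(3,1),(7,1)]) (.cons (.leaf 1 [(0,1),(7,1),(3,1),(11,1)]) (.cons (.leaf 1 [(7,1),(0,1),(11,1)]) (.cons (.leaf 1 [(11,1)]) .nil)))))) (.cons (.leaf 1 []) .nil)))))) .nil)))))) .nil)))))) (.cons (.keep [1,6,7,9,10] (.node (.cons (.keep [2,3,4,7,10] (.node (.cons (.leaf 1 [(2,1),(8,1),(4,1)]) (.cons (.leaf 1 [(4,1),(8,1),(7,1)]) (.cons (.leaf 1 [(7,1),(4,1),(8,1)]) (.cons (.leaf 1 [(7,1),(8,1)]) .nil)))))) (.cons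 (.leaf 1 [(4,1),(3,1)]) (.cons (.keep [0,4,7,8,10] (.node (.cons (.leaf 1 [(7,1),(2,1),(4,1)]) (.cons (.keep [4,6,7,8,9,10] (.node (.cons (.leaf 1 [(3,1),(6,1)]) (.cons (.leaf 1 [(6,1),(3,1),(9,1)]) (.cons (.keep [6,7,8,9,10,11] (.node (.cons (.leaf 1 [(6,1),(2,1)]) (.cons (.leaf 1 [(6,2),(0,1),(10,1)]) (.cons (.leaf 1 [(6,2),(0,1),(2,1),(10,1)]) (.cons (.leaf 1 [(6,1),(10,1)]) .nil)))))) (.cons (.leaf 1 [(8,1),(6,1)]) .nil)))))) (.cons (.leaf 1 [(7,1),(4,1),(2,1),(8,1)]) (.cons (.keep [0,2,7,8,9,10] (.node (.cons (.leaf 1 [(3,1)]) (.cons (.leaf 1 [(3,1),(9,1)]) (.cons (.keep [6,7,8,9,10,11] (.node (.cons (.leaf 1 [(2,1)]) (.cons (.leaf 1 [(0,1),(10,1)]) (.cons (.leaf 1 [(0,1),(10,1),(2,1)]) (.cons (.leaf 1 [(10,1)]) .nil)))))) (.cons (.leaf 1 [(8,1)]) .nil)))))) .nil)))))) (.cons (.keep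 [0,3,7,8,10] (.node (.cons (.leaf 1 [(2,1),(4,1)]) (.cons (.keep [4,6,7,8,9,10] (.node (.cons (.leaf 1 [(8,1),(6,1),(3,1)]) (.cons (.leaf 1 [(6,1),(8,1),(9,1),(3,1)]) (.cons (.keep [6,7,8,9,10,11] (.node (.cons (.leaf 1 [(3,1)]) (.cons (.leaf 1 [(3,1),(0,1),(10,1),(6,1)]) (.cons (.leaf 1 [(6,1),(0,1),(10,1)]) (.cons (.leaf 1 [(6,1),(10,1)]) .nil)))))) (.cons (.leaf 1 [(6,1)]) .nil)))))) (.cons (.leaf 1 [(2,1),(4,1),(8,1)]) (.cons (.keep [0,2,6,7,8,9,10] (.node (.cons (.leaf 1 [(9,1),(3,1)]) (.cons (.leaf 1 [(10,1),(9,1),(3,1)]) (.cons (.keep [6,7,8,9,10,11,12] (.node (.cons (.leaf 1 [(3,1),(7,1)]) (.cons (.leaf 1 [(0,1),(7,1),(3,1),(11,1)]) (.cons (.leaf 1 [(7,1),(0,1),(11,1)]) (.cons (.leaf 1 [(11,1)]) .nil)))))) (.cons (.leaf 1 []) .nil)))))) .nil)))))) .nil)))))) (.cons (.keep [2,6,7,8,9,10]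 (.node (.cons (.leaf 1 [(6,1),(3,1),(4,2)]) (.cons (.leaf 1 [(4,1),(3,1)]) (.cons (.keep [0,4,6,7,8,11] (.node (.cons (.leaf 1 [(7,1),(2,1),(4,1)]) (.cons (.keep [6,7,8,9,10,11] (.node (.cons (.leaf 1 [(3,2),(8,1),(4,1)]) (.cons (.leaf 1 [(7,1),(3,1),(9,1)]) (.cons (.keep [6,7,8,9,10,11] (.node (.cons (.leaf 1 [(3,1),(7,1)]) (.cons (.leaf 1 [(3,1),(0,1),(7,2),(10,1)]) (.cons (.leaf 1 [(0,1),(7,2),(10,1)]) (.cons (.leaf 1 [(10,1),(7,1)]) .nil)))))) (.cons (.leaf 1 [(7,2),(8,1)]) .nil)))))) (.cons (.leaf 1 [(7,2),(2,1),(9,1)]) (.cons (.keep [0,2,7,9,10,11] (.node (.cons (.leaf 1 [(3,1)]) (.cons (.leaf 1 [(3,1),(8,1),(9,1)]) (.cons (.keep [6,7,8,9,10,11] (.node (.cons (.leaf 1 [(2,1)]) (.cons (.leaf 1 [(0,1),(10,1),(8,1)]) (.cons (.leaf 1 [(0,1),(2,1),(10,1),(8,1)]) (.cons (.leaf 1 [(8,1),(10,1)])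 .nil)))))) (.cons (.leaf 1 [(8,1)]) .nil)))))) .nil)))))) (.cons (.keep [0,3,6,7,8,11] (.node (.cons (.leaf 1 [(2,1),(4,1)]) (.cons (.keep [4,6,7,9,10,11] (.node (.cons (.leaf 1 [(8,1),(6,1),(3,1)]) (.cons (.leaf 1 [(8,1),(9,1),(3,1)]) (.cons (.keep [6,7,8,9,10,11] (.node (.cons (.leaf 1 [(3,1)]) (.cons (.leaf 1 [(3,1),(0,1),(10,1)]) (.cons (.leaf 1 [(0,1),(10,1)]) (.cons (.leaf 1 [(10,1)]) .nil)))))) (.cons (.leaf 1 [(6,1)]) .nil)))))) (.cons (.leaf 1 [(2,1),(9,1)]) (.cons (.keep [0,2,6,7,9,10,11] (.node (.cons (.leaf 1 [(9,1),(3,1)]) (.cons (.leaf 1 [(10,1),(9,1),(3,1)]) (.cons (.keep [6,7,8,9,10,11,12] (.node (.cons (.leaf 1 [(3,1),(7,1)]) (.cons (.leaf 1 [(0,1),(7,1),(3,1),(11,1)]) (.cons (.leaf 1 [(7,1),(0,1),(11,1)]) (.cons (.leaf 1 [(11,1)]) .nil)))))) (.cons (.leaf 1 []) .nil))))))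 .nil)))))) .nil)))))) (.cons (.keep [0,2,7,8,10] (.node (.cons (.keep [3,4,6,7,10] (.node (.cons (.leaf 1 [(2,1),(7,1),(4,1)]) (.cons (.leaf 1 [(4,1),(7,1),(6,1)]) (.cons (.leaf 1 [(6,1),(4,1),(7,1)]) (.cons (.leaf 1 [(6,1),(7,1)]) .nil)))))) (.cons (.leaf 1 [(4,1),(3,1)]) (.cons (.keep [4,6,7,8,10] (.node (.cons (.leaf 1 [(6,1),(2,1),(4,1)]) (.cons (.leaf 1 [(4,1),(6,1),(9,1)]) (.cons (.leaf 1 [(6,1),(4,1),(9,1)]) (.cons (.leaf 1 [(6,1),(9,1)]) .nil)))))) (.cons (.keep [0,3,6,7,8,10] (.node (.cons (.leaf 1 [(2,1),(4,1)]) (.cons (.leaf 1 [(4,1),(10,1)]) (.cons (.leaf 1 [(10,1),(4,1)]) (.cons (.leaf 1 [(10,1)]) .nil)))))) .nil)))))) .nil)))))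

theorem c_23_16_13 : Concl 23 16 z_23_16_13 h_23_16_13 .nd := piece _ hP_nil t_23_16_13 _ _ (by
  decide +kernel)

def z_23_16_15 : F := ⟨-1, 0, -1, -1, 3⟩

def h_23_16_15 : List F := [⟨0, -1, 0, 0, 0⟩, ⟨0, 0, 1, 0, 1⟩, ⟨0, -1, 0, -1, 1⟩, ⟨0, 1, -1, 0,
  2⟩, ⟨-1, 0, -1, 0, 2⟩]

def t_23_16_15 : T := (.node (.cons (.keep [2,4,7,8,9,10] (.node (.cons (.keep [6,7,8,9,10,11] (.node (.cons (.keep [3,4,6,9,10,11] (.node (.cons (.leaf 1 [(2,1),(7,1),(4,1)]) (.cons (.leaf 1 [(4,1),(7,1),(6,1)]) (.cons (.leaf 1 [(6,1),(4,1),(7,1)]) (.cons (.leaf 1 [(6,1),(7,1)]) .nil)))))) (.cons (.leaf 1 [(4,1),(3,1)]) (.cons (.keep [4,6,7,9,10,11] (.node (.cons (.leaf 1 [(6,1),(2,1),(4,1)]) (.cons (.leaf 1 [(4,1),(6,1),(8,1)]) (.cons (.leaf 1 [(6,1),(4,1),(8,1)]) (.cons (.leaf 1 [(6,1),(8,1)]) .nil))))))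 (.cons (.keep [0,3,6,7,10,11] (.node (.cons (.leaf 1 [(2,1),(4,1)]) (.cons (.leaf 1 [(4,1),(9,1)]) (.cons (.leaf 1 [(9,1),(4,1)]) (.cons (.leaf 1 [(9,1)]) .nil)))))) .nil)))))) (.cons (.keep [1,6,7,9,10,11] (.node (.cons (.keep [3,4,7,9,10,11] (.node (.cons (.leaf 1 [(2,1),(7,1),(4,1)]) (.cons (.leaf 1 [(4,1),(7,1),(6,1)]) (.cons (.leaf 1 [(6,1),(4,1),(7,1)]) (.cons (.leaf 1 [(6,1),(7,1)]) .nil)))))) (.cons (.leaf 1 [(4,1),(3,1)]) (.cons (.keep [4,7,8,9,10,11] (.node (.cons (.leaf 1 [(6,1),(2,1),(4,1)]) (.cons (.leaf 1 [(4,1),(6,1),(8,1)]) (.cons (.leaf 1 [(6,1),(4,1),(8,1)]) (.cons (.leaf 1 [(6,1),(8,1)]) .nil)))))) (.cons (.keep [0,3,7,8,10,11] (.node (.cons (.leaf 1 [(2,1),(4,1)]) (.cons (.leaf 1 [(4,1),(9,1)]) (.cons (.leaf 1 [(9,1),(4,1)]) (.cons (.leaf 1 [(9,1)]) .nil)))))) .nil))))))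 (.cons (.leaf 1 [(8,1),(1,1),(7,1)]) (.cons (.keep [0,2,7,8,11] (.node (.cons (.keep [3,4,6,7,10] (.node (.cons (.leaf 1 [(2,1),(7,1),(4,1)]) (.cons (.leaf 1 [(4,1),(7,1),(6,1)]) (.cons (.leaf 1 [(6,1),(4,1),(7,1)]) (.cons (.leaf 1 [(6,1),(7,1)]) .nil)))))) (.cons (.leaf 1 [(4,1),(3,1)]) (.cons (.keep [4,6,7,8,10] (.node (.cons (.leaf 1 [(6,1),(2,1),(4,1)]) (.cons (.leaf 1 [(4,1),(6,1),(9,1)]) (.cons (.leaf 1 [(6,1),(4,1),(9,1)]) (.cons (.leaf 1 [(6,1),(9,1)]) .nil)))))) (.cons (.keep [0,3,6,7,8,10] (.node (.cons (.leaf 1 [(2,1),(4,1)]) (.cons (.leaf 1 [(4,1),(10,1)]) (.cons (.leaf 1 [(10,1),(4,1)]) (.cons (.leaf 1 [(10,1)]) .nil)))))) .nil)))))) .nil)))))) (.cons (.keep [3,4,6,7,8,10] (.node (.cons (.keep [6,7,8,9,10,11] (.node (.cons (.keep [4,6,7,8,10,11] (.node (.cons (.leaf 1 [(2,1),(3,1),(6,1),(4,1)])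 (.cons (.leaf 1 [(4,1),(8,1),(6,1)]) (.cons (.leaf 1 [(7,2),(2,1),(6,3),(4,1)]) (.cons (.leaf 1 [(8,1),(6,1)]) .nil)))))) (.cons (.leaf 1 [(4,2),(3,1),(6,1)]) (.cons (.keep [2,4,6,7,8,11] (.node (.cons (.leaf 1 [(7,1),(3,1),(2,1),(4,1)]) (.cons (.leaf 1 [(7,1),(9,1),(4,1)]) (.cons (.leaf 1 [(8,2),(7,3),(2,1),(4,1)]) (.cons (.leaf 1 [(7,1),(9,1)]) .nil)))))) (.cons (.keep [0,3,6,7,8,11] (.node (.cons (.leaf 1 [(2,1),(3,1),(4,1)]) (.cons (.leaf 1 [(4,1),(9,1)]) (.cons (.leaf 1 [(8,2),(2,1),(4,1)]) (.cons (.leaf 1 [(9,1)]) .nil)))))) .nil)))))) (.cons (.keep [1,6,7,8,10,11] (.node (.cons (.keep [4,7,8,9,10,11] (.node (.cons (.leaf 1 [(2,1),(3,1),(6,2),(4,1)]) (.cons (.leaf 1 [(4,1),(8,1),(6,1)]) (.cons (.leaf 1 [(7,2),(2,1),(6,2),(4,1)]) (.cons (.leaf 1 [(8,1),(6,1)]) .nil)))))) (.cons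 (.leaf 1 [(4,2),(3,1),(7,1)]) (.cons (.keep [2,4,7,8,9,11] (.node (.cons (.leaf 1 [(7,2),(3,1),(2,1),(4,1)]) (.cons (.leaf 1 [(4,1),(7,1),(9,1)]) (.cons (.leaf 1 [(8,2),(7,2),(2,1),(4,1)]) (.cons (.leaf 1 [(7,1),(9,1)]) .nil)))))) (.cons (.keep [0,3,7,8,9,11] (.node (.cons (.leaf 1 [(2,1),(3,1),(4,1)]) (.cons (.leaf 1 [(4,1),(9,1)]) (.cons (.leaf 1 [(8,2),(2,1),(4,1)]) (.cons (.leaf 1 [(9,1)]) .nil)))))) .nil)))))) (.cons (.leaf 1 [(9,1),(1,1),(7,1)]) (.cons (.keep [0,2,7,9,11] (.node (.cons (.keep [3,4,6,7,10] (.node (.cons (.leaf 1 [(2,1),(7,1),(4,1)]) (.cons (.leaf 1 [(4,1),(7,1),(6,1)]) (.cons (.leaf 1 [(6,1),(4,1),(7,1)]) (.cons (.leaf 1 [(6,1),(7,1)]) .nil)))))) (.cons (.leaf 1 [(4,1),(3,1)]) (.cons (.keep [4,6,7,8,10] (.node (.cons (.leaf 1 [(6,1),(2,1),(4,1)]) (.cons (.leaf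 1 [(4,1),(6,1),(9,1)]) (.cons (.leaf 1 [(6,1),(4,1),(9,1)]) (.cons (.leaf 1 [(6,1),(9,1)]) .nil)))))) (.cons (.keep [0,3,6,7,8,10] (.node (.cons (.leaf 1 [(2,1),(4,1)]) (.cons (.leaf 1 [(4,1),(10,1)]) (.cons (.leaf 1 [(10,1),(4,1)]) (.cons (.leaf 1 [(10,1)]) .nil)))))) .nil)))))) .nil)))))) (.cons (.keep [1,4,6,8,9,10] (.node (.cons (.keep [6,7,8,9,10,11] (.node (.cons (.keep [4,7,8,9,10,11] (.node (.cons (.leaf 1 [(2,1),(6,2),(4,1)]) (.cons (.leaf 1 [(4,1),(6,1),(7,1)]) (.cons (.leaf 1 [(7,1),(4,1),(6,1)]) (.cons (.leaf 1 [(7,1),(6,1)]) .nil)))))) (.cons (.leaf 1 [(4,2),(3,1)]) (.cons (.keep [4,7,8,9,10,11] (.node (.cons (.leaf 1 [(6,2),(2,1),(4,1)]) (.cons (.leaf 1 [(6,1),(7,1),(4,1)]) (.cons (.leaf 1 [(6,1),(4,1),(7,1)]) (.cons (.leaf 1 [(6,1),(7,1)]) .nil)))))) (.cons (.keep [0,3,7,8,10,11]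 (.node (.cons (.leaf 1 [(2,1),(4,1)]) (.cons (.leaf 1 [(4,1),(8,1)]) (.cons (.leaf 1 [(8,1),(4,1)]) (.cons (.leaf 1 [(8,1)]) .nil)))))) .nil)))))) (.cons (.keep [1,7,8,9,10,11] (.node (.cons (.keep [4,7,8,9,10,11] (.node (.cons (.leaf 1 [(2,1),(6,2),(4,1)]) (.cons (.leaf 1 [(4,1),(6,1),(7,1)]) (.cons (.leaf 1 [(7,1),(4,1),(6,1)]) (.cons (.leaf 1 [(7,1),(6,1)]) .nil)))))) (.cons (.leaf 1 [(4,2),(3,1)]) (.cons (.keep [4,7,8,9,10,11] (.node (.cons (.leaf 1 [(6,2),(2,1),(4,1)]) (.cons (.leaf 1 [(6,1),(7,1),(4,1)]) (.cons (.leaf 1 [(6,1),(4,1),(7,1)]) (.cons (.leaf 1 [(6,1),(7,1)]) .nil)))))) (.cons (.keep [0,3,7,8,10,11] (.node (.cons (.leaf 1 [(2,1),(4,1)]) (.cons (.leaf 1 [(4,1),(8,1)]) (.cons (.leaf 1 [(8,1),(4,1)]) (.cons (.leaf 1 [(8,1)]) .nil)))))) .nil)))))) (.cons (.leaf 1 [(6,1),(1,1),(7,1)])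 (.cons (.keep [0,2,6,7,11] (.node (.cons (.keep [4,6,7,9,10] (.node (.cons (.leaf 1 [(2,1),(6,2),(4,1)]) (.cons (.leaf 1 [(4,1),(6,1),(9,1)]) (.cons (.leaf 1 [(9,1),(4,1),(6,1)]) (.cons (.leaf 1 [(9,1),(6,1)]) .nil)))))) (.cons (.leaf 1 [(4,2),(3,1)]) (.cons (.keep [4,6,7,9,10] (.node (.cons (.leaf 1 [(6,2),(2,1),(4,1)]) (.cons (.leaf 1 [(6,1),(9,1),(4,1)]) (.cons (.leaf 1 [(6,1),(4,1),(9,1)]) (.cons (.leaf 1 [(6,1),(9,1)]) .nil)))))) (.cons (.keep [0,3,6,7,9,10] (.node (.cons (.leaf 1 [(2,1),(4,1)]) (.cons (.leaf 1 [(4,1),(10,1)]) (.cons (.leaf 1 [(10,1),(4,1)]) (.cons (.leaf 1 [(10,1)]) .nil)))))) .nil)))))) .nil)))))) (.cons (.keep [0,3,6,7,9] (.node (.cons (.keep [6,7,8,9,10] (.node (.cons (.keep [3,4,6,7,8,10] (.node (.cons (.leaf 1 [(7,1),(4,1)]) (.cons (.leaf 1 [(4,1),(7,1)])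 (.cons (.leaf 1 [(4,1),(7,1)]) (.cons (.leaf 1 [(7,1)]) .nil)))))) (.cons (.leaf 1 [(1,1),(4,1)]) (.cons (.keep [4,6,7,8,10] (.node (.cons (.leaf 1 [(6,1),(4,1)]) (.cons (.leaf 1 [(6,1),(4,1)]) (.cons (.leaf 1 [(6,1),(4,1)]) (.cons (.leaf 1 [(6,1)]) .nil)))))) (.cons (.keep [0,3,7,8,10] (.node (.cons (.leaf 1 [(4,1)]) (.cons (.leaf 1 [(4,1)]) (.cons (.leaf 1 [(4,1)]) (.cons (.leaf 1 []) .nil)))))) .nil)))))) (.cons (.keep [1,6,7,8,10] (.node (.cons (.keep [3,4,7,8,9,10] (.node (.cons (.leaf 1 [(7,1),(4,1)]) (.cons (.leaf 1 [(4,1),(7,1)]) (.cons (.leaf 1 [(4,1),(7,1)]) (.cons (.leaf 1 [(7,1)]) .nil)))))) (.cons (.leaf 1 [(1,1),(4,1)]) (.cons (.keep [4,7,8,9,10] (.node (.cons (.leaf 1 [(6,1),(4,1)]) (.cons (.leaf 1 [(6,1),(4,1)]) (.cons (.leaf 1 [(6,1),(4,1)]) (.cons (.leaf 1 [(6,1)])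 .nil)))))) (.cons (.keep [0,3,8,9,10] (.node (.cons (.leaf 1 [(4,1)]) (.cons (.leaf 1 [(4,1)]) (.cons (.leaf 1 [(4,1)]) (.cons (.leaf 1 []) .nil)))))) .nil)))))) (.cons (.leaf 1 [(9,1),(1,1)]) (.cons (.keep [0,2,6,7,9,10] (.node (.cons (.keep [3,4,6,7,9] (.node (.cons (.leaf 1 [(7,1),(4,1)]) (.cons (.leaf 1 [(4,1),(7,1)]) (.cons (.leaf 1 [(4,1),(7,1)]) (.cons (.leaf 1 [(7,1)]) .nil)))))) (.cons (.leaf 1 [(1,1),(4,1)]) (.cons (.keep [4,6,7,8,9,11] (.node (.cons (.leaf 1 [(6,1),(4,1)]) (.cons (.leaf 1 [(6,1),(4,1)]) (.cons (.leaf 1 [(6,1),(4,1)]) (.cons (.leaf 1 [(6,1)]) .nil)))))) (.cons (.keep [0,3,6,7,9] (.node (.cons (.leaf 1 [(4,1)]) (.cons (.leaf 1 [(4,1)]) (.cons (.leaf 1 [(4,1)]) (.cons (.leaf 1 []) .nil)))))) .nil)))))) .nil)))))) .nil)))))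

theorem c_23_16_15 : Concl 23 16 z_23_16_15 h_23_16_15 .nd := piece _ hP_nil t_23_16_15 _ _ (by
  decide +kernel)

end Pool.Agent.H4.RD4.E48
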