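import Pool.Agent.H4.RD4.Chk

/-! # Certificates for special cases of order four -/

set_option maxRecDepth 20000

namespace Pool.Agent.H4.RD4.E51

open Pool.Agent.H50.Rdb
open Pool.Agent.H81.RDE (ESB caseOf)

def z_23_24_0 : F := ⟨-1, -1, 0, -1, 3⟩

def h_23_24_0 : List F := [⟨-1, 0, 0, 0, 0⟩, ⟨0, 0, 0, -1, 0⟩, ⟨0, 0, -1, 1, 0⟩, ⟨0, 1, -1, 0, 0⟩,
  ⟨1, -1, 0, 0, 0⟩]

def t_23_24_0 : T := (.node (.cons (.keep [6,7,8,10,11] (.node (.cons (.leaf 1 [(7,1),(3,1)]) (.cons (.leaf 1 [(4,1)]) (.cons (.leaf 1 [(3,1),(7,1)]) (.cons (.leaf 1 [(4,1)]) (.cons (.leaf 1 [(7,1)]) (.cons (.leaf 1 [(4,1)]) (.cons (.leaf 1 [(7,1),(3,1)]) (.cons (.leaf 1 []) .nil)))))))))) (.cons (.keep [4,7,8,9,10,11] (.node (.cons (.keep [3,6,7,8,10] (.node (.cons (.leaf 1 [(8,1),(3,3),(11,1)]) (.cons (.leaf 1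 [(4,1),(3,2),(11,1)]) (.cons (.leaf 1 [(3,2),(7,1)]) (.cons (.leaf 1 [(3,2),(7,1)]) (.cons (.leaf 1 [(8,1),(9,2),(11,1)]) (.cons (.leaf 1 [(4,1),(9,2),(11,1)]) (.cons (.leaf 1 [(8,1),(9,2),(11,1),(3,1)]) (.cons (.leaf 1 [(11,1),(9,2)]) .nil)))))))))) (.cons (.keep [3,4,5,8,10] (.node (.cons (.leaf 1 [(11,1),(3,1),(8,2)]) (.cons (.leaf 1 [(11,1),(3,1),(4,2),(5,1)]) (.cons (.leaf 1 [(3,1),(8,1)]) (.cons (.leaf 1 [(3,1),(7,1),(4,1),(5,1)]) (.cons (.leaf 1 [(11,1),(8,2)]) (.cons (.leaf 1 [(4,1),(9,1),(8,2),(11,1)]) (.cons (.leaf 1 [(11,1),(8,2),(3,1)]) (.cons (.leaf 1 [(11,1),(9,1),(8,2)]) .nil)))))))))) (.cons (.leaf 1 [(1,2),(10,1),(7,2)]) (.cons (.leaf 1 [(4,1),(1,1),(7,1),(10,1)]) (.cons (.leaf 1 [(1,2),(7,2)]) (.cons (.leaf 1 [(5,1),(4,2)]) (.cons (.keep [1,7,8,9,10,12] (.node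 (.cons (.leaf 1 [(3,2),(11,1)]) (.cons (.leaf 1 [(4,1),(3,2),(7,1),(11,1)]) (.cons (.leaf 1 [(3,1),(8,1),(7,1)]) (.cons (.leaf 1 [(3,1),(8,1),(7,1)]) (.cons (.leaf 1 [(8,1),(11,1)]) (.cons (.leaf 1 [(4,1),(8,2),(7,1),(11,1)]) (.cons (.leaf 1 [(8,1),(11,1),(3,1)]) (.cons (.leaf 1 [(11,1),(8,2),(7,1)]) .nil)))))))))) (.cons (.keep [0,5,7,8,10] (.node (.cons (.keep [3,4,7,8,11] (.node (.cons (.leaf 1 [(2,1),(8,1)]) (.cons (.leaf 1 [(2,1),(4,1)]) (.cons (.leaf 1 [(8,1)]) (.cons (.leaf 1 [(4,1),(7,1)]) (.cons (.leaf 1 [(2,1),(8,1)]) (.cons (.leaf 1 [(7,1),(4,1)]) (.cons (.leaf 1 [(8,1),(2,1)]) (.cons (.leaf 1 [(7,1)]) .nil)))))))))) (.cons (.leaf 1 [(4,1),(3,1),(11,1)]) (.cons (.leaf 1 [(3,1)]) (.cons (.leaf 1 [(3,1)]) (.cons (.keep [1,4,7,8,9,11] (.node (.cons (.leaf 1 [(2,2),(8,1)])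 (.cons (.leaf 1 [(2,1),(4,1)]) (.cons (.leaf 1 [(8,1),(11,1)]) (.cons (.leaf 1 [(4,1),(11,1)]) (.cons (.leaf 1 [(11,1),(2,1),(8,1)]) (.cons (.leaf 1 [(11,1),(4,1)]) (.cons (.leaf 1 [(8,1),(11,1),(2,1)]) (.cons (.leaf 1 [(11,1)]) .nil)))))))))) (.cons (.leaf 1 [(4,1),(9,1),(11,1)]) (.cons (.keep [3,7,8,9,10,11] (.node (.cons (.leaf 2 [(2,2),(12,1),(3,1)]) (.cons (.leaf 1 [(2,1),(4,1)]) (.cons (.leaf 2 [(12,1),(10,2),(3,1)]) (.cons (.leaf 1 [(4,1),(10,1)]) (.cons (.leaf 2 [(10,2),(12,1)]) (.cons (.leaf 1 [(10,1),(4,1)]) (.cons (.leaf 2 [(10,2),(12,1),(3,1)]) (.cons (.leaf 1 [(10,1)]) .nil)))))))))) (.cons (.leaf 1 [(11,1),(9,1)]) .nil)))))))))) .nil)))))))))) (.cons (.leaf 1 [(1,2)]) (.cons (.keep [1,7,8,9,11] (.node (.cons (.keep [3,6,7,8,10] (.node (.cons (.leaf 1 [(8,1),(3,4),(11,1)])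 (.cons (.leaf 1 [(4,1),(3,3),(11,1)]) (.cons (.leaf 1 [(3,3),(7,2)]) (.cons (.leaf 1 [(3,3),(7,2)]) (.cons (.leaf 1 [(8,1),(9,3),(11,1)]) (.cons (.leaf 1 [(4,1),(9,3),(11,1)]) (.cons (.leaf 1 [(8,1),(9,3),(11,1),(3,1)]) (.cons (.leaf 1 [(11,1),(9,3)]) .nil)))))))))) (.cons (.keep [3,4,8,10,11] (.node (.cons (.leaf 1 [(10,1),(3,1),(8,3)]) (.cons (.leaf 1 [(10,1),(3,1),(4,3),(5,2)]) (.cons (.leaf 1 [(3,1),(8,2)]) (.cons (.leaf 1 [(3,1),(7,2),(4,2),(5,2)]) (.cons (.leaf 1 [(10,1),(8,3)]) (.cons (.leaf 1 [(4,1),(11,1),(8,2),(10,1)]) (.cons (.leaf 1 [(10,1),(8,3),(3,1)]) (.cons (.leaf 1 [(10,1),(11,1),(8,2)]) .nil)))))))))) (.cons (.leaf 1 [(7,3),(10,1)]) (.cons (.leaf 1 [(4,3),(5,1),(10,1)]) (.cons (.leaf 1 [(7,3)]) (.cons (.leaf 1 [(5,1),(4,3)]) (.cons (.keep [7,8,9,10,11] (.node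 (.cons (.leaf 1 [(10,1),(3,2),(7,1)]) (.cons (.leaf 1 [(4,1),(3,1),(7,2),(10,1)]) (.cons (.leaf 1 [(3,1),(7,2)]) (.cons (.leaf 1 [(3,1),(7,2)]) (.cons (.leaf 1 [(10,1),(11,1),(7,1)]) (.cons (.leaf 1 [(4,1),(11,1),(7,2),(10,1)]) (.cons (.leaf 1 [(10,1),(11,1),(6,1),(3,2)]) (.cons (.leaf 1 [(10,1),(11,1),(7,2)]) .nil)))))))))) (.cons (.keep [0,5,8,10,11] (.node (.cons (.keep [3,4,7,8,10] (.node (.cons (.leaf 1 [(2,1),(8,1)]) (.cons (.leaf 1 [(2,1),(4,1)]) (.cons (.leaf 1 [(8,1)]) (.cons (.leaf 1 [(4,1),(7,1)]) (.cons (.leaf 1 [(2,1),(8,1)]) (.cons (.leaf 1 [(7,1),(4,1)]) (.cons (.leaf 1 [(8,1),(2,1)]) (.cons (.leaf 1 [(7,1)]) .nil)))))))))) (.cons (.leaf 1 [(4,1),(3,1),(10,1)]) (.cons (.leaf 1 [(3,1)]) (.cons (.leaf 1 [(3,1)]) (.cons (.keep [1,4,7,8,10,11] (.node (.cons (.leaf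 1 [(2,2),(8,1)]) (.cons (.leaf 1 [(2,1),(4,1)]) (.cons (.leaf 1 [(8,1),(12,1)]) (.cons (.leaf 1 [(4,1),(12,1)]) (.cons (.leaf 1 [(12,1),(2,1),(8,1)]) (.cons (.leaf 1 [(12,1),(4,1)]) (.cons (.leaf 1 [(8,1),(12,1),(2,1)]) (.cons (.leaf 1 [(12,1)]) .nil)))))))))) (.cons (.leaf 1 [(4,1),(11,1),(10,1)]) (.cons (.keep [3,7,8,9,10,11] (.node (.cons (.leaf 2 [(2,2),(11,1),(3,1)]) (.cons (.leaf 1 [(2,1),(4,1)]) (.cons (.leaf 2 [(11,1),(12,2),(3,1)]) (.cons (.leaf 1 [(4,1),(12,1)]) (.cons (.leaf 2 [(12,2),(11,1)]) (.cons (.leaf 1 [(12,1),(4,1)]) (.cons (.leaf 2 [(12,2),(11,1),(3,1)]) (.cons (.leaf 1 [(12,1)]) .nil)))))))))) (.cons (.leaf 1 [(10,1),(11,1)]) .nil)))))))))) .nil)))))))))) (.cons (.leaf 1 [(10,1),(1,2)]) (.cons (.leaf 1 [(10,1),(4,1),(1,2),(9,1)]) (.cons (.keep [1,6,8,10,11]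 (.node (.cons (.leaf 1 []) (.cons (.leaf 1 [(7,1),(4,1)]) (.cons (.leaf 1 [(1,1)]) (.cons (.leaf 1 [(4,1),(7,1)]) (.cons (.leaf 1 [(1,1)]) (.cons (.leaf 1 [(4,1),(7,1)]) (.cons (.leaf 1 [(1,1)]) (.cons (.leaf 1 [(7,1)]) .nil)))))))))) (.cons (.keep [0,1,8,9,10,11] (.node (.cons (.keep [3,4,8,10,11] (.node (.cons (.leaf 1 [(8,1),(3,1),(10,1)]) (.cons (.leaf 1 [(4,1),(3,1),(10,1)]) (.cons (.leaf 1 [(3,1)]) (.cons (.leaf 1 [(3,1)]) (.cons (.leaf 1 [(8,1),(10,1)]) (.cons (.leaf 1 [(4,2),(11,1),(10,1)]) (.cons (.leaf 1 [(8,1),(10,1),(3,1)]) (.cons (.leaf 1 [(10,1),(11,1)]) .nil)))))))))) (.cons (.keep [4,5,7,8,10] (.node (.cons (.leaf 1 [(11,1),(7,2)]) (.cons (.leaf 1 [(11,1),(4,2),(5,1)]) (.cons (.leaf 1 [(1,1),(7,1)]) (.cons (.leaf 1 [(4,1),(5,1)]) (.cons (.leaf 1 [(11,1),(1,1),(7,2)])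 (.cons (.leaf 1 [(11,1),(4,1),(7,1)]) (.cons (.leaf 1 [(11,1),(7,2),(1,1)]) (.cons (.leaf 1 [(11,1),(7,1)]) .nil)))))))))) (.cons (.leaf 1 [(1,2),(10,1),(11,1)]) (.cons (.leaf 1 [(4,1),(1,1),(10,1)]) (.cons (.keep [1,4,7,11,12] (.node (.cons (.leaf 1 [(7,2),(3,1)]) (.cons (.leaf 1 [(7,2),(3,1)]) (.cons (.leaf 1 [(1,1),(3,1)]) (.cons (.leaf 1 [(1,1),(3,1)]) (.cons (.leaf 2 [(7,2),(8,1),(10,1)]) (.cons (.leaf 1 [(7,3),(0,1),(10,1)]) (.cons (.leaf 1 [(7,1),(8,1),(6,1),(3,1)]) (.cons (.leaf 1 [(7,1),(10,1)]) .nil)))))))))) (.cons (.leaf 1 [(1,1),(4,1)]) (.cons (.keep [1,6,7,10,11] (.node (.cons (.leaf 1 [(3,1),(10,1)]) (.cons (.leaf 1 [(4,1),(3,1),(7,1),(10,1)]) (.cons (.leaf 1 [(3,1),(7,1)]) (.cons (.leaf 1 [(3,1),(7,1)]) (.cons (.leaf 1 [(10,1)]) (.cons (.leaf 1 [(4,2),(11,1),(10,1)])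 (.cons (.leaf 1 [(10,1),(3,1)]) (.cons (.leaf 1 [(10,1),(11,1)]) .nil)))))))))) (.cons (.keep [0,5,8,10] (.node (.cons (.keep [3,4,7,8,9,10] (.node (.cons (.leaf 1 [(8,1)]) (.cons (.leaf 1 [(4,1)]) (.cons (.leaf 1 [(1,1),(8,1)]) (.cons (.leaf 1 [(4,1)]) (.cons (.leaf 1 [(1,1),(8,1)]) (.cons (.leaf 1 [(4,1)]) (.cons (.leaf 1 [(8,1),(1,1)]) (.cons (.leaf 1 []) .nil)))))))))) (.cons (.leaf 1 [(4,1),(10,1)]) (.cons (.leaf 1 [(1,1)]) (.cons (.leaf 1 [(1,1)]) (.cons (.keep [1,4,7,8,10] (.node (.cons (.leaf 1 [(8,1),(2,1)]) (.cons (.leaf 1 [(4,1)]) (.cons (.leaf 1 [(8,1)]) (.cons (.leaf 1 [(4,1)]) (.cons (.leaf 1 [(8,1),(2,1)]) (.cons (.leaf 1 [(4,1)]) (.cons (.leaf 1 [(8,1),(2,1)]) (.cons (.leaf 1 []) .nil)))))))))) (.cons (.leaf 1 [(4,1),(10,1)]) (.cons (.keep [3,7,8,9,10] (.node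 (.cons (.leaf 2 [(11,1),(3,1)]) (.cons (.leaf 1 [(4,1)]) (.cons (.leaf 2 [(3,1),(11,1)]) (.cons (.leaf 1 [(4,1)]) (.cons (.leaf 2 [(11,1)]) (.cons (.leaf 1 [(4,1)]) (.cons (.leaf 2 [(11,1),(3,1)]) (.cons (.leaf 1 []) .nil)))))))))) (.cons (.leaf 1 [(10,1)]) .nil)))))))))) .nil)))))))))) .nil)))))))))

theorem c_23_24_0 : Concl 23 24 z_23_24_0 h_23_24_0 .nd := piece _ hP_nil t_23_24_0 _ _ (by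
  decide +kernel)

def z_23_24_1 : F := ⟨0, -1, 0, -1, 3⟩

def h_23_24_1 : List F := [⟨1, 0, 0, 0, 0⟩, ⟨1, -1, 0, 0, 0⟩, ⟨1, 0, 0, -1, 0⟩, ⟨0, 0, -1, 1, 0⟩,
  ⟨0, 1, -1, 0, 0⟩, ⟨-1, 0, 0, 0, 1⟩]

def t_23_24_1 : T := (.node (.cons (.keep [6,7,8,11,12] (.node (.cons (.leaf 1 [(7,1)]) (.cons (.leaf 1 [(11,1),(4,1)]) (.cons (.leaf 1 [(1,1),(7,1)]) (.cons (.leaf 1 [(4,1),(11,1)]) (.cons (.leaf 1 [(1,1),(7,1)]) (.cons (.leaf 1 [(1,1),(4,1)]) (.cons (.leaf 1 [(7,1),(1,1)]) (.cons (.leaf 1 [(11,1)]) .nil)))))))))) (.cons (.keep [4,8,9,10,11,12] (.node (.cons (.keep [6,7,9,10,12] (.node (.cons (.leaf 1 [(7,1),(3,2),(10,1)]) (.cons (.leaf 1 [(4,1),(3,1),(10,1)]) (.cons (.leaf 1 [(3,1)]) (.cons (.leaf 1 [(3,1)]) (.cons (.leaf 1 [(7,1),(8,1),(10,1)]) (.cons (.leaf 1 [(4,1),(8,1),(10,1)])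 (.cons (.leaf 1 [(7,1),(8,1),(10,1),(3,1)]) (.cons (.leaf 1 [(10,1),(8,1)]) .nil)))))))))) (.cons (.keep [4,5,9,10,12] (.node (.cons (.leaf 1 [(10,1),(7,2)]) (.cons (.leaf 1 [(10,1),(4,2),(5,1)]) (.cons (.leaf 1 [(1,1),(7,1)]) (.cons (.leaf 1 [(4,1),(5,1)]) (.cons (.leaf 1 [(10,1),(1,1),(7,2)]) (.cons (.leaf 1 [(10,1),(4,1),(7,1)]) (.cons (.leaf 1 [(10,1),(7,2),(1,1)]) (.cons (.leaf 1 [(10,1),(7,1)]) .nil)))))))))) (.cons (.leaf 1 [(1,2),(10,1),(7,1)]) (.cons (.leaf 1 [(4,1),(1,1),(10,1)]) (.cons (.leaf 1 [(1,2),(7,1)]) (.cons (.leaf 1 [(1,1),(4,1)]) (.cons (.keep [1,7,8,9,10,12] (.node (.cons (.leaf 1 [(3,1),(11,1)]) (.cons (.leaf 1 [(4,1),(3,1),(7,1),(11,1)]) (.cons (.leaf 1 [(3,1),(7,1)]) (.cons (.leaf 1 [(3,1),(7,1)]) (.cons (.leaf 1 [(11,1)]) (.cons (.leaf 1 [(4,1),(8,1),(7,1),(11,1)])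 (.cons (.leaf 1 [(11,1),(3,1)]) (.cons (.leaf 1 [(11,1),(8,1),(7,1)]) .nil)))))))))) (.cons (.keep [0,5,7,10,12] (.node (.cons (.keep [3,4,7,8,10,11] (.node (.cons (.leaf 1 [(8,1)]) (.cons (.leaf 1 [(4,1)]) (.cons (.leaf 1 [(1,1),(8,1)]) (.cons (.leaf 1 [(4,1)]) (.cons (.leaf 1 [(1,1),(8,1)]) (.cons (.leaf 1 [(4,1)]) (.cons (.leaf 1 [(8,1),(1,1)]) (.cons (.leaf 1 []) .nil)))))))))) (.cons (.leaf 1 [(4,1),(10,1)]) (.cons (.leaf 1 [(1,1)]) (.cons (.leaf 1 [(1,1)]) (.cons (.keep [1,4,7,8,10] (.node (.cons (.leaf 1 [(8,1),(2,1)]) (.cons (.leaf 1 [(4,1)]) (.cons (.leaf 1 [(8,1)]) (.cons (.leaf 1 [(4,1)]) (.cons (.leaf 1 [(8,1),(2,1)]) (.cons (.leaf 1 [(4,1)]) (.cons (.leaf 1 [(8,1),(2,1)]) (.cons (.leaf 1 []) .nil)))))))))) (.cons (.leaf 1 [(4,1),(10,1)]) (.cons (.keep [3,7,8,10,11]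 (.node (.cons (.leaf 2 [(10,1),(3,1)]) (.cons (.leaf 1 [(4,1)]) (.cons (.leaf 2 [(3,1),(10,1)]) (.cons (.leaf 1 [(4,1)]) (.cons (.leaf 2 [(10,1)]) (.cons (.leaf 1 [(4,1)]) (.cons (.leaf 2 [(10,1),(3,1)]) (.cons (.leaf 1 []) .nil)))))))))) (.cons (.leaf 1 [(10,1)]) .nil)))))))))) .nil)))))))))) (.cons (.leaf 1 [(1,2),(12,1)]) (.cons (.keep [1,8,9,10,12] (.node (.cons (.keep [6,7,9,10,11] (.node (.cons (.leaf 1 [(7,1),(3,2),(10,1)]) (.cons (.leaf 1 [(4,1),(3,1),(10,1)]) (.cons (.leaf 1 [(3,1)]) (.cons (.leaf 1 [(3,1)]) (.cons (.leaf 1 [(7,1),(8,1),(10,1)]) (.cons (.leaf 1 [(4,1),(8,1),(10,1)]) (.cons (.leaf 1 [(7,1),(8,1),(10,1),(3,1)]) (.cons (.leaf 1 [(10,1),(8,1)]) .nil)))))))))) (.cons (.keep [4,8,9,10,11] (.node (.cons (.leaf 1 [(10,1),(7,2)]) (.cons (.leaf 1 [(10,1),(4,2),(5,1)])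 (.cons (.leaf 1 [(1,1),(7,1)]) (.cons (.leaf 1 [(4,1),(5,1)]) (.cons (.leaf 1 [(10,1),(1,1),(7,2)]) (.cons (.leaf 1 [(10,1),(4,1),(7,1)]) (.cons (.leaf 1 [(10,1),(7,2),(1,1)]) (.cons (.leaf 1 [(10,1),(7,1)]) .nil)))))))))) (.cons (.leaf 1 [(7,1),(1,1),(10,1)]) (.cons (.leaf 1 [(4,1),(1,1),(10,1)]) (.cons (.leaf 1 [(1,1),(7,1)]) (.cons (.leaf 1 [(1,1),(4,1)]) (.cons (.keep [7,8,9,10,11] (.node (.cons (.leaf 1 [(3,1),(10,1)]) (.cons (.leaf 1 [(4,1),(7,1),(10,1)]) (.cons (.leaf 1 [(1,1),(7,1)]) (.cons (.leaf 1 [(1,1),(7,1)]) (.cons (.leaf 1 [(10,1)]) (.cons (.leaf 1 [(4,1),(7,1),(10,1)]) (.cons (.leaf 1 [(10,1),(3,1)]) (.cons (.leaf 1 [(10,1),(7,1)]) .nil)))))))))) (.cons (.keep [0,5,8,10,11] (.node (.cons (.keep [3,4,7,8,10,11] (.node (.cons (.leaf 1 [(8,1)]) (.cons (.leaf 1 [(4,1)])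 (.cons (.leaf 1 [(1,1),(8,1)]) (.cons (.leaf 1 [(4,1)]) (.cons (.leaf 1 [(1,1),(8,1)]) (.cons (.leaf 1 [(4,1)]) (.cons (.leaf 1 [(8,1),(1,1)]) (.cons (.leaf 1 []) .nil)))))))))) (.cons (.leaf 1 [(4,1),(10,1)]) (.cons (.leaf 1 [(1,1)]) (.cons (.leaf 1 [(1,1)]) (.cons (.keep [1,4,7,8,10] (.node (.cons (.leaf 1 [(8,1),(2,1)]) (.cons (.leaf 1 [(4,1)]) (.cons (.leaf 1 [(8,1)]) (.cons (.leaf 1 [(4,1)]) (.cons (.leaf 1 [(8,1),(2,1)]) (.cons (.leaf 1 [(4,1)]) (.cons (.leaf 1 [(8,1),(2,1)]) (.cons (.leaf 1 []) .nil)))))))))) (.cons (.leaf 1 [(4,1),(10,1)]) (.cons (.keep [3,7,8,10,11] (.node (.cons (.leaf 2 [(10,1),(3,1)]) (.cons (.leaf 1 [(4,1)]) (.cons (.leaf 2 [(3,1),(10,1)]) (.cons (.leaf 1 [(4,1)]) (.cons (.leaf 2 [(10,1)]) (.cons (.leaf 1 [(4,1)]) (.cons (.leaf 2 [(10,1),(3,1)])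 (.cons (.leaf 1 []) .nil)))))))))) (.cons (.leaf 1 [(10,1)]) .nil)))))))))) .nil)))))))))) (.cons (.leaf 1 [(11,1),(1,2),(10,1)]) (.cons (.leaf 1 [(11,1),(1,2),(10,1)]) (.cons (.keep [1,6,8,9,11] (.node (.cons (.leaf 1 [(8,1)]) (.cons (.leaf 1 [(8,1),(7,1),(4,1)]) (.cons (.leaf 1 [(1,1),(8,1)]) (.cons (.leaf 1 [(4,1),(8,1),(7,1)]) (.cons (.leaf 1 [(1,1),(8,1)]) (.cons (.leaf 1 [(1,1),(4,1)]) (.cons (.leaf 1 [(8,1),(1,1)]) (.cons (.leaf 1 [(8,1),(7,1)]) .nil)))))))))) (.cons (.keep [0,1,8,9,10,11] (.node (.cons (.keep [3,4,8,11,12] (.node (.cons (.leaf 1 [(8,1),(3,1),(10,1)]) (.cons (.leaf 1 [(4,1),(3,1),(10,1)]) (.cons (.leaf 1 [(3,1)]) (.cons (.leaf 1 [(3,1)]) (.cons (.leaf 1 [(8,1),(10,1)]) (.cons (.leaf 1 [(4,2),(11,1),(10,1)]) (.cons (.leaf 1 [(8,1),(10,1),(3,1)]) (.cons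 (.leaf 1 [(10,1),(11,1)]) .nil)))))))))) (.cons (.keep [4,5,7,8,11] (.node (.cons (.leaf 1 [(11,1),(7,2)]) (.cons (.leaf 1 [(11,1),(4,2),(5,1)]) (.cons (.leaf 1 [(1,1),(7,1)]) (.cons (.leaf 1 [(4,1),(5,1)]) (.cons (.leaf 1 [(11,1),(1,1),(7,2)]) (.cons (.leaf 1 [(11,1),(4,1),(7,1)]) (.cons (.leaf 1 [(11,1),(7,2),(1,1)]) (.cons (.leaf 1 [(11,1),(7,1)]) .nil)))))))))) (.cons (.leaf 1 [(1,2),(11,1),(12,1)]) (.cons (.leaf 1 [(4,1),(1,1),(11,1)]) (.cons (.keep [1,4,7,9,12] (.node (.cons (.leaf 1 [(7,2),(3,1)]) (.cons (.leaf 1 [(7,2),(3,1)]) (.cons (.leaf 1 [(1,1),(3,1)]) (.cons (.leaf 1 [(1,1),(3,1)]) (.cons (.leaf 2 [(7,2),(8,1),(11,1)]) (.cons (.leaf 1 [(7,3),(0,1),(11,1)]) (.cons (.leaf 1 [(7,1),(8,1),(6,1),(3,1)]) (.cons (.leaf 1 [(7,1),(11,1)]) .nil)))))))))) (.cons (.leaf 1 [(1,1),(4,1)])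 (.cons (.keep [1,6,7,11,12] (.node (.cons (.leaf 1 [(3,1),(10,1)]) (.cons (.leaf 1 [(4,1),(3,1),(7,1),(10,1)]) (.cons (.leaf 1 [(3,1),(7,1)]) (.cons (.leaf 1 [(3,1),(7,1)]) (.cons (.leaf 1 [(10,1)]) (.cons (.leaf 1 [(4,2),(11,1),(10,1)]) (.cons (.leaf 1 [(10,1),(3,1)]) (.cons (.leaf 1 [(10,1),(11,1)]) .nil)))))))))) (.cons (.keep [0,5,8,11] (.node (.cons (.keep [3,4,7,8,9,10] (.node (.cons (.leaf 1 [(8,1)]) (.cons (.leaf 1 [(4,1)]) (.cons (.leaf 1 [(1,1),(8,1)]) (.cons (.leaf 1 [(4,1)]) (.cons (.leaf 1 [(1,1),(8,1)]) (.cons (.leaf 1 [(4,1)]) (.cons (.leaf 1 [(8,1),(1,1)]) (.cons (.leaf 1 []) .nil)))))))))) (.cons (.leaf 1 [(4,1),(10,1)]) (.cons (.leaf 1 [(1,1)]) (.cons (.leaf 1 [(1,1)]) (.cons (.keep [1,4,7,8,10] (.node (.cons (.leaf 1 [(8,1),(2,1)]) (.cons (.leaf 1 [(4,1)])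 (.cons (.leaf 1 [(8,1)]) (.cons (.leaf 1 [(4,1)]) (.cons (.leaf 1 [(8,1),(2,1)]) (.cons (.leaf 1 [(4,1)]) (.cons (.leaf 1 [(8,1),(2,1)]) (.cons (.leaf 1 []) .nil)))))))))) (.cons (.leaf 1 [(4,1),(10,1)]) (.cons (.keep [3,7,8,9,10] (.node (.cons (.leaf 2 [(11,1),(3,1)]) (.cons (.leaf 1 [(4,1)]) (.cons (.leaf 2 [(3,1),(11,1)]) (.cons (.leaf 1 [(4,1)]) (.cons (.leaf 2 [(11,1)]) (.cons (.leaf 1 [(4,1)]) (.cons (.leaf 2 [(11,1),(3,1)]) (.cons (.leaf 1 []) .nil)))))))))) (.cons (.leaf 1 [(10,1)]) .nil)))))))))) .nil)))))))))) .nil)))))))))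

theorem c_23_24_1 : Concl 23 24 z_23_24_1 h_23_24_1 .nd := piece _ hP_nil t_23_24_1 _ _ (by
  decide +kernel)

def z_23_24_2 : F := ⟨-1, -1, -1, 0, 3⟩

def h_23_24_2 : List F := [⟨-1, 0, 0, 0, 0⟩, ⟨0, 0, 1, -1, 0⟩, ⟨0, 1, -1, 0, 0⟩, ⟨1, -1, 0, 0, 0⟩]

def t_23_24_2 : T := (.node (.cons (.leaf 1 [(7,1),(8,2),(9,1)]) (.cons (.keep [4,7,8,9,10] (.node (.cons (.keep [6,7,8,9,10] (.node (.cons (.leaf 1 [(3,3),(7,1)]) (.cons (.leaf 1 [(3,2),(4,1)]) (.cons (.leaf 1 [(3,1),(8,2),(7,1)]) (.cons (.leaf 1 [(4,1),(8,2)]) (.cons (.leaf 1 [(8,2),(7,1)]) (.cons (.leaf 1 [(8,2),(4,1)]) (.cons (.leaf 1 [(8,2),(7,1),(3,1)]) (.cons (.leaf 1 [(8,2)]) .nil)))))))))) (.cons (.keep [4,5,8,9,10] (.node (.cons (.leaf 1 [(3,1),(7,2)]) (.cons (.leaf 1 [(3,1),(5,1),(4,2)]) (.cons (.leaf 1 [(3,1),(7,2)])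 (.cons (.leaf 1 [(4,1),(8,1),(7,2)]) (.cons (.leaf 1 [(7,2)]) (.cons (.leaf 1 [(4,1),(7,2),(8,1)]) (.cons (.leaf 1 [(7,2),(3,1)]) (.cons (.leaf 1 [(8,1),(7,2)]) .nil)))))))))) (.cons (.leaf 1 [(1,2),(7,2)]) (.cons (.leaf 1 [(5,1),(4,2)]) (.cons (.leaf 1 [(9,1),(1,2),(7,2)]) (.cons (.leaf 1 [(1,1),(4,1),(7,1),(9,1)]) (.cons (.keep [1,7,8,9,10,11] (.node (.cons (.leaf 1 [(3,2)]) (.cons (.leaf 1 [(3,2),(7,1),(4,1)]) (.cons (.leaf 1 [(3,1),(8,1)]) (.cons (.leaf 1 [(4,1),(8,2),(7,1)]) (.cons (.leaf 1 [(8,1)]) (.cons (.leaf 1 [(8,2),(7,1),(4,1)]) (.cons (.leaf 1 [(8,1),(3,1)]) (.cons (.leaf 1 [(8,2),(7,1)]) .nil)))))))))) (.cons (.keep [0,5,7,8,9] (.node (.cons (.keep [3,4,7,8,11] (.node (.cons (.leaf 1 [(2,1),(3,1)]) (.cons (.leaf 1 [(2,1),(3,1)]) (.cons (.leaf 1 [(7,2),(3,1)]) (.cons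 (.leaf 1 [(7,2),(3,1)]) (.cons (.leaf 2 [(7,2),(8,1),(11,1)]) (.cons (.leaf 1 [(7,2),(0,1),(11,1)]) (.cons (.leaf 1 [(7,1),(8,1),(6,1),(3,1)]) (.cons (.leaf 1 [(7,1),(11,1)]) .nil)))))))))) (.cons (.leaf 1 [(3,1),(4,1)]) (.cons (.leaf 1 [(3,1),(11,1)]) (.cons (.leaf 1 [(9,1),(4,1)]) (.cons (.keep [1,4,8,9,11] (.node (.cons (.leaf 1 [(3,1)]) (.cons (.leaf 1 [(3,1)]) (.cons (.leaf 1 [(3,1),(10,1)]) (.cons (.leaf 1 [(3,1),(10,1)]) (.cons (.leaf 2 [(11,1),(8,1),(10,2)]) (.cons (.leaf 1 [(11,1),(0,1),(10,1)]) (.cons (.leaf 1 [(8,1),(10,1),(6,1),(3,1)]) (.cons (.leaf 1 [(11,1),(10,1)]) .nil)))))))))) (.cons (.leaf 1 [(4,1),(9,1)]) (.cons (.keep [3,7,8,9,10,11] (.node (.cons (.leaf 1 [(7,1),(3,1)]) (.cons (.leaf 1 [(7,1),(3,1)]) (.cons (.leaf 1 [(7,1),(10,1),(3,1)]) (.cons (.leaf 1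 [(7,1),(10,1),(3,1)]) (.cons (.leaf 2 [(10,2),(12,1)]) (.cons (.leaf 1 [(7,1),(10,1),(0,1),(12,1)]) (.cons (.leaf 1 [(6,1),(3,1),(10,1)]) (.cons (.leaf 1 [(10,1),(12,1)]) .nil)))))))))) (.cons (.leaf 1 [(9,1)]) .nil)))))))))) .nil)))))))))) (.cons (.leaf 1 [(1,2),(8,1)]) (.cons (.keep [1,3,7,8,10] (.node (.cons (.keep [6,7,8,9,10] (.node (.cons (.leaf 1 [(3,4),(7,1)]) (.cons (.leaf 1 [(3,3),(4,1)]) (.cons (.leaf 1 [(3,1),(8,3),(7,1)]) (.cons (.leaf 1 [(4,1),(8,3)]) (.cons (.leaf 1 [(8,3),(7,1)]) (.cons (.leaf 1 [(8,3),(4,1)]) (.cons (.leaf 1 [(8,3),(7,1),(3,1)]) (.cons (.leaf 1 [(8,3)]) .nil)))))))))) (.cons (.keep [4,8,9,10,11] (.node (.cons (.leaf 1 [(3,1),(7,3)]) (.cons (.leaf 1 [(3,1),(5,2),(4,3)]) (.cons (.leaf 1 [(3,1),(7,3)]) (.cons (.leaf 1 [(3,1),(7,2),(10,1)]) (.cons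 (.leaf 1 [(7,3)]) (.cons (.leaf 1 [(4,1),(7,2),(11,1)]) (.cons (.leaf 1 [(7,3),(3,1)]) (.cons (.leaf 1 [(11,1),(7,2)]) .nil)))))))))) (.cons (.leaf 1 [(7,3)]) (.cons (.leaf 1 [(5,1),(4,3)]) (.cons (.leaf 1 [(10,1),(7,3)]) (.cons (.leaf 1 [(5,1),(4,3),(10,1)]) (.cons (.keep [7,8,9,10,11] (.node (.cons (.leaf 1 [(3,2),(7,1)]) (.cons (.leaf 1 [(3,1),(7,2),(4,1)]) (.cons (.leaf 1 [(3,1),(10,1),(7,2)]) (.cons (.leaf 1 [(3,1),(7,2),(10,1)]) (.cons (.leaf 1 [(11,1),(7,1)]) (.cons (.leaf 1 [(7,2),(4,1),(11,1)]) (.cons (.leaf 1 [(11,1),(6,1),(3,2)]) (.cons (.leaf 1 [(11,1),(7,2)]) .nil)))))))))) (.cons (.keep [0,5,9,10,11] (.node (.cons (.keep [3,4,7,8,10] (.node (.cons (.leaf 1 [(2,1),(3,1)]) (.cons (.leaf 1 [(2,1),(3,1)]) (.cons (.leaf 1 [(7,2),(3,1)]) (.cons (.leaf 1 [(7,2),(3,1)])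 (.cons (.leaf 2 [(7,2),(8,1),(11,1)]) (.cons (.leaf 1 [(7,2),(0,1),(11,1)]) (.cons (.leaf 1 [(7,1),(8,1),(6,1),(3,1)]) (.cons (.leaf 1 [(7,1),(11,1)]) .nil)))))))))) (.cons (.leaf 1 [(3,1),(4,1)]) (.cons (.leaf 1 [(3,1),(10,1)]) (.cons (.leaf 1 [(3,1),(10,1)]) (.cons (.keep [1,4,8,10,11] (.node (.cons (.leaf 1 [(3,1)]) (.cons (.leaf 1 [(3,1)]) (.cons (.leaf 1 [(3,1),(11,1)]) (.cons (.leaf 1 [(3,1),(11,1)]) (.cons (.leaf 2 [(10,1),(8,1),(11,2)]) (.cons (.leaf 1 [(10,1),(0,1),(11,1)]) (.cons (.leaf 1 [(8,1),(11,1),(6,1),(3,1)]) (.cons (.leaf 1 [(10,1),(11,1)]) .nil)))))))))) (.cons (.leaf 1 [(4,1),(11,1)]) (.cons (.keep [3,7,8,9,10,11] (.node (.cons (.leaf 1 [(7,1),(3,1)]) (.cons (.leaf 1 [(7,1),(3,1)]) (.cons (.leaf 1 [(7,1),(12,1),(3,1)]) (.cons (.leaf 1 [(7,1),(12,1),(3,1)])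 (.cons (.leaf 2 [(12,2),(11,1)]) (.cons (.leaf 1 [(7,1),(12,1),(0,1),(11,1)]) (.cons (.leaf 1 [(6,1),(3,1),(12,1)]) (.cons (.leaf 1 [(12,1),(11,1)]) .nil)))))))))) (.cons (.leaf 1 [(11,1)]) .nil)))))))))) .nil)))))))))) (.cons (.leaf 1 [(9,1),(1,2),(8,1)]) (.cons (.leaf 1 [(9,1),(1,2),(4,1)]) (.cons (.leaf 1 [(6,1),(8,2),(9,1),(1,2)]) (.cons (.keep [0,1,8,9,10] (.node (.cons (.keep [4,8,9,10] (.node (.cons (.leaf 1 [(3,1),(7,1)]) (.cons (.leaf 1 [(3,1),(4,1)]) (.cons (.leaf 1 [(3,1),(7,1)]) (.cons (.leaf 1 [(3,1),(9,1)]) (.cons (.leaf 1 [(7,1)]) (.cons (.leaf 1 [(4,2),(10,1)]) (.cons (.leaf 1 [(7,1),(3,1)]) (.cons (.leaf 1 [(10,1)]) .nil)))))))))) (.cons (.keep [4,5,8,9,10] (.node (.cons (.leaf 1 [(7,2)]) (.cons (.leaf 1 [(5,1),(4,2)]) (.cons (.leaf 1 [(1,1),(7,2)]) (.cons (.leaf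 1 [(4,1),(7,1)]) (.cons (.leaf 1 [(1,1),(7,2)]) (.cons (.leaf 1 [(4,1),(7,1)]) (.cons (.leaf 1 [(7,2),(1,1)]) (.cons (.leaf 1 [(7,1)]) .nil)))))))))) (.cons (.leaf 1 [(1,2),(10,1)]) (.cons (.leaf 1 [(1,1),(4,1)]) (.cons (.leaf 1 [(9,2),(1,2),(10,1)]) (.cons (.leaf 1 [(1,1),(4,1),(9,1)]) (.cons (.keep [1,6,7,9,10] (.node (.cons (.leaf 1 [(3,1)]) (.cons (.leaf 1 [(3,1),(7,1),(4,1)]) (.cons (.leaf 1 [(3,1)]) (.cons (.leaf 1 [(3,1),(7,1),(10,1)]) (.cons (.leaf 1 []) (.cons (.leaf 1 [(4,2),(11,1)]) (.cons (.leaf 1 [(3,1)]) (.cons (.leaf 1 [(11,1)]) .nil)))))))))) (.cons (.keep [0,5,8,9] (.node (.cons (.keep [3,4,8,9,10] (.node (.cons (.leaf 1 [(3,1)]) (.cons (.leaf 1 [(3,1)]) (.cons (.leaf 1 [(3,1),(7,1)]) (.cons (.leaf 1 [(3,1),(7,1)]) (.cons (.leaf 2 [(8,1),(11,1)]) (.cons (.leaf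 1 [(0,1),(11,1)]) (.cons (.leaf 1 [(8,1),(6,1),(3,1)]) (.cons (.leaf 1 [(11,1)]) .nil)))))))))) (.cons (.leaf 1 [(4,1)]) (.cons (.leaf 1 [(1,1),(10,1)]) (.cons (.leaf 1 [(4,1)]) (.cons (.keep [1,4,7,8,10] (.node (.cons (.leaf 1 [(7,1),(3,1)]) (.cons (.leaf 1 [(7,1),(3,1)]) (.cons (.leaf 1 [(3,1)]) (.cons (.leaf 1 [(3,1)]) (.cons (.leaf 2 [(8,1),(11,1)]) (.cons (.leaf 1 [(7,1),(0,1),(11,1)]) (.cons (.leaf 1 [(8,1),(6,1),(3,1)]) (.cons (.leaf 1 [(11,1)]) .nil)))))))))) (.cons (.leaf 1 [(4,1)]) (.cons (.keep [3,7,8,9,10] (.node (.cons (.leaf 1 [(10,1),(3,1),(7,1)]) (.cons (.leaf 1 [(10,1),(3,1),(7,1)]) (.cons (.leaf 1 [(3,1),(7,1)]) (.cons (.leaf 1 [(3,1),(7,1)]) (.cons (.leaf 2 [(11,1)]) (.cons (.leaf 1 [(10,1),(0,1),(7,1),(11,1)]) (.cons (.leaf 1 [(6,1),(3,1)]) (.cons (.leaf 1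 [(11,1)]) .nil)))))))))) (.cons (.leaf 1 []) .nil)))))))))) .nil)))))))))) .nil)))))))))

theorem c_23_24_2 : Concl 23 24 z_23_24_2 h_23_24_2 .nd := piece _ hP_nil t_23_24_2 _ _ (by
  decide +kernel)

def z_23_24_3 : F := ⟨-1, 0, 0, -1, 3⟩

def h_23_24_3 : List F := [⟨0, 1, 0, 0, 0⟩, ⟨0, 1, 0, -1, 0⟩, ⟨0, 0, -1, 1, 0⟩, ⟨1, -1, 0, 0, 0⟩,
  ⟨-1, 0, 0, 0, 1⟩]

def t_23_24_3 : T := (.node (.cons (.leaf 1 []) (.cons (.keep [7,8,9,10,11] (.node (.cons (.keep [6,7,8,9,11] (.node (.cons (.leaf 1 [(7,1),(3,2),(10,1)]) (.cons (.leaf 1 [(4,1),(3,1),(10,1)]) (.cons (.leaf 1 [(3,1)]) (.cons (.leaf 1 [(3,1)]) (.cons (.leaf 1 [(7,1),(8,1),(10,1)]) (.cons (.leaf 1 [(4,1),(8,1),(10,1)]) (.cons (.leaf 1 [(7,1),(8,1),(10,1),(3,1)]) (.cons (.leaf 1 [(10,1),(8,1)]) .nil)))))))))) (.cons (.keep [4,5,8,9,11]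 (.node (.cons (.leaf 1 [(7,1),(3,1),(10,1)]) (.cons (.leaf 1 [(4,1),(3,1),(10,1)]) (.cons (.leaf 1 [(3,1)]) (.cons (.leaf 1 [(3,1)]) (.cons (.leaf 1 [(7,1),(10,1)]) (.cons (.leaf 1 [(4,1),(7,1),(8,1),(10,1)]) (.cons (.leaf 1 [(7,1),(10,1),(3,1)]) (.cons (.leaf 1 [(10,1),(7,1),(8,1)]) .nil)))))))))) (.cons (.leaf 1 [(7,1),(9,1)]) (.cons (.leaf 1 [(4,1),(9,1),(5,1)]) (.cons (.leaf 1 [(7,1)]) (.cons (.leaf 1 [(4,1),(5,1)]) (.cons (.keep [7,8,9,10,11] (.node (.cons (.leaf 1 [(10,1),(3,1),(9,1)]) (.cons (.leaf 1 [(4,1),(3,1),(9,1)]) (.cons (.leaf 1 [(3,1)]) (.cons (.leaf 1 [(3,1)]) (.cons (.leaf 1 [(10,1),(9,1)]) (.cons (.leaf 1 [(4,1),(10,1),(7,1),(9,1)]) (.cons (.leaf 1 [(10,1),(9,1),(3,1)]) (.cons (.leaf 1 [(9,1),(10,1),(7,1)]) .nil)))))))))) (.cons (.keep [0,5,9,10,11] (.node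 (.cons (.keep [3,4,7,8,9] (.node (.cons (.leaf 1 [(2,1),(8,1)]) (.cons (.leaf 1 [(2,1),(4,1)]) (.cons (.leaf 1 [(8,1)]) (.cons (.leaf 1 [(4,1),(7,1)]) (.cons (.leaf 1 [(2,1),(8,1)]) (.cons (.leaf 1 [(7,1),(4,1)]) (.cons (.leaf 1 [(8,1),(2,1)]) (.cons (.leaf 1 [(7,1)]) .nil)))))))))) (.cons (.leaf 1 [(4,1),(3,1),(9,1)]) (.cons (.leaf 1 [(3,1)]) (.cons (.leaf 1 [(3,1)]) (.cons (.keep [1,4,7,8,9,10] (.node (.cons (.leaf 1 [(2,2),(8,1)]) (.cons (.leaf 1 [(2,1),(4,1)]) (.cons (.leaf 1 [(8,1),(12,1)]) (.cons (.leaf 1 [(4,1),(12,1)]) (.cons (.leaf 1 [(12,1),(2,1),(8,1)]) (.cons (.leaf 1 [(12,1),(4,1)]) (.cons (.leaf 1 [(8,1),(12,1),(2,1)]) (.cons (.leaf 1 [(12,1)]) .nil)))))))))) (.cons (.leaf 1 [(4,1),(10,1),(9,1)]) (.cons (.keep [3,7,8,9,10,11] (.node (.cons (.leaf 2 [(2,2),(10,1),(3,1)])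 (.cons (.leaf 1 [(2,1),(4,1)]) (.cons (.leaf 2 [(10,1),(11,2),(3,1)]) (.cons (.leaf 1 [(4,1),(11,1)]) (.cons (.leaf 2 [(11,2),(10,1)]) (.cons (.leaf 1 [(11,1),(4,1)]) (.cons (.leaf 2 [(11,2),(10,1),(3,1)]) (.cons (.leaf 1 [(11,1)]) .nil)))))))))) (.cons (.leaf 1 [(9,1),(10,1)]) .nil)))))))))) .nil)))))))))) (.cons (.leaf 1 [(1,1)]) (.cons (.keep [1,8,9,10,11] (.node (.cons (.keep [6,7,8,9,11] (.node (.cons (.leaf 1 [(7,1),(3,3),(10,1)]) (.cons (.leaf 1 [(4,1),(3,2),(10,1)]) (.cons (.leaf 1 [(3,1),(8,1)]) (.cons (.leaf 1 [(3,1),(8,1)]) (.cons (.leaf 1 [(7,1),(8,2),(10,1)]) (.cons (.leaf 1 [(4,1),(8,2),(10,1)]) (.cons (.leaf 1 [(7,1),(8,2),(10,1),(3,1)]) (.cons (.leaf 1 [(10,1),(8,2)]) .nil)))))))))) (.cons (.keep [4,8,9,10,11] (.node (.cons (.leaf 1 [(9,1),(3,1),(7,2)]) (.cons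 (.leaf 1 [(9,1),(3,1),(4,2),(5,1)]) (.cons (.leaf 1 [(3,1),(7,1)]) (.cons (.leaf 1 [(3,1),(7,1)]) (.cons (.leaf 1 [(9,1),(7,2)]) (.cons (.leaf 1 [(4,1),(10,1),(7,1),(9,1)]) (.cons (.leaf 1 [(9,1),(7,2),(3,1)]) (.cons (.leaf 1 [(9,1),(10,1),(7,1)]) .nil)))))))))) (.cons (.leaf 1 [(7,2),(9,1)]) (.cons (.leaf 1 [(4,2),(5,1),(9,1)]) (.cons (.leaf 1 [(7,2)]) (.cons (.leaf 1 [(5,1),(4,2)]) (.cons (.keep [7,8,9,10,11] (.node (.cons (.leaf 1 [(3,2),(9,1)]) (.cons (.leaf 1 [(4,1),(3,1),(7,1),(9,1)]) (.cons (.leaf 1 [(3,1),(7,1)]) (.cons (.leaf 1 [(3,1),(7,1)]) (.cons (.leaf 1 [(10,1),(9,1)]) (.cons (.leaf 1 [(4,1),(10,1),(7,1),(9,1)]) (.cons (.leaf 1 [(10,1),(9,1),(3,1)]) (.cons (.leaf 1 [(9,1),(10,1),(7,1)]) .nil)))))))))) (.cons (.keep [0,5,9,10,11] (.node (.cons (.keep [3,4,7,8,9]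 (.node (.cons (.leaf 1 [(2,1),(8,1)]) (.cons (.leaf 1 [(2,1),(4,1)]) (.cons (.leaf 1 [(8,1)]) (.cons (.leaf 1 [(4,1),(7,1)]) (.cons (.leaf 1 [(2,1),(8,1)]) (.cons (.leaf 1 [(7,1),(4,1)]) (.cons (.leaf 1 [(8,1),(2,1)]) (.cons (.leaf 1 [(7,1)]) .nil)))))))))) (.cons (.leaf 1 [(4,1),(3,1),(9,1)]) (.cons (.leaf 1 [(3,1)]) (.cons (.leaf 1 [(3,1)]) (.cons (.keep [1,4,7,8,9,10] (.node (.cons (.leaf 1 [(2,2),(8,1)]) (.cons (.leaf 1 [(2,1),(4,1)]) (.cons (.leaf 1 [(8,1),(12,1)]) (.cons (.leaf 1 [(4,1),(12,1)]) (.cons (.leaf 1 [(12,1),(2,1),(8,1)]) (.cons (.leaf 1 [(12,1),(4,1)]) (.cons (.leaf 1 [(8,1),(12,1),(2,1)]) (.cons (.leaf 1 [(12,1)]) .nil)))))))))) (.cons (.leaf 1 [(4,1),(10,1),(9,1)]) (.cons (.keep [3,7,8,9,10,11] (.node (.cons (.leaf 2 [(2,2),(10,1),(3,1)]) (.cons (.leaf 1 [(2,1),(4,1)])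 (.cons (.leaf 2 [(10,1),(11,2),(3,1)]) (.cons (.leaf 1 [(4,1),(11,1)]) (.cons (.leaf 2 [(11,2),(10,1)]) (.cons (.leaf 1 [(11,1),(4,1)]) (.cons (.leaf 2 [(11,2),(10,1),(3,1)]) (.cons (.leaf 1 [(11,1)]) .nil)))))))))) (.cons (.leaf 1 [(9,1),(10,1)]) .nil)))))))))) .nil)))))))))) (.cons (.leaf 1 [(1,1)]) (.cons (.leaf 1 [(4,1),(1,1),(9,1)]) (.cons (.leaf 1 [(1,1)]) (.cons (.keep [0,2,7,9,10] (.node (.cons (.keep [6,7,8,9,10] (.node (.cons (.leaf 1 [(3,1),(7,1),(11,1)]) (.cons (.leaf 1 [(4,1),(11,1)]) (.cons (.leaf 1 [(1,1)]) (.cons (.leaf 1 [(1,1)]) (.cons (.leaf 1 [(7,1),(11,1)]) (.cons (.leaf 1 [(4,1),(11,1)]) (.cons (.leaf 1 [(3,1),(7,1),(11,1)]) (.cons (.leaf 1 [(11,1)]) .nil)))))))))) (.cons (.keep [4,5,7,8,10] (.node (.cons (.leaf 1 [(7,1),(11,1)]) (.cons (.leaf 1 [(4,1),(11,1)])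 (.cons (.leaf 1 [(1,1)]) (.cons (.leaf 1 [(1,1)]) (.cons (.leaf 1 [(7,1),(1,1),(11,1)]) (.cons (.leaf 1 [(4,1),(11,1)]) (.cons (.leaf 1 [(1,1),(7,1),(11,1)]) (.cons (.leaf 1 [(11,1)]) .nil)))))))))) (.cons (.leaf 1 [(1,1),(10,1)]) (.cons (.leaf 1 [(1,1),(10,1)]) (.cons (.leaf 1 [(1,1)]) (.cons (.leaf 1 [(1,1)]) (.cons (.keep [6,7,8,9,10] (.node (.cons (.leaf 1 [(7,1),(11,1),(3,1)]) (.cons (.leaf 1 [(4,1),(11,1)]) (.cons (.leaf 1 [(1,1)]) (.cons (.leaf 1 [(1,1)]) (.cons (.leaf 1 [(7,1),(11,1)]) (.cons (.leaf 1 [(4,1),(11,1)]) (.cons (.leaf 1 [(3,1),(7,1),(11,1)]) (.cons (.leaf 1 [(11,1)]) .nil)))))))))) (.cons (.keep [0,5,8,10] (.node (.cons (.keep [3,4,7,8,9,10] (.node (.cons (.leaf 1 [(8,1)]) (.cons (.leaf 1 [(4,1)]) (.cons (.leaf 1 [(1,1),(8,1)]) (.cons (.leaf 1 [(4,1)]) (.cons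 (.leaf 1 [(1,1),(8,1)]) (.cons (.leaf 1 [(4,1)]) (.cons (.leaf 1 [(8,1),(1,1)]) (.cons (.leaf 1 []) .nil)))))))))) (.cons (.leaf 1 [(4,1),(10,1)]) (.cons (.leaf 1 [(1,1)]) (.cons (.leaf 1 [(1,1)]) (.cons (.keep [1,4,7,8,10] (.node (.cons (.leaf 1 [(8,1),(2,1)]) (.cons (.leaf 1 [(4,1)]) (.cons (.leaf 1 [(8,1)]) (.cons (.leaf 1 [(4,1)]) (.cons (.leaf 1 [(8,1),(2,1)]) (.cons (.leaf 1 [(4,1)]) (.cons (.leaf 1 [(8,1),(2,1)]) (.cons (.leaf 1 []) .nil)))))))))) (.cons (.leaf 1 [(4,1),(10,1)]) (.cons (.keep [3,7,8,9,10] (.node (.cons (.leaf 2 [(11,1),(3,1)]) (.cons (.leaf 1 [(4,1)]) (.cons (.leaf 2 [(3,1),(11,1)]) (.cons (.leaf 1 [(4,1)]) (.cons (.leaf 2 [(11,1)]) (.cons (.leaf 1 [(4,1)]) (.cons (.leaf 2 [(11,1),(3,1)]) (.cons (.leaf 1 []) .nil)))))))))) (.cons (.leaf 1 [(10,1)]) .nil))))))))))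 .nil)))))))))) .nil)))))))))

theorem c_23_24_3 : Concl 23 24 z_23_24_3 h_23_24_3 .nd := piece _ hP_nil t_23_24_3 _ _ (by
  decide +kernel)

def z_23_24_4 : F := ⟨-1, 0, -1, 0, 3⟩

def h_23_24_4 : List F := [⟨0, 1, 0, 0, 0⟩, ⟨0, 0, 1, -1, 0⟩, ⟨0, 1, -1, 0, 1⟩, ⟨1, -1, 0, 0, 0⟩,
  ⟨-1, 0, 0, 0, 1⟩]

def t_23_24_4 : T := (.node (.cons (.leaf 1 [(8,1)]) (.cons (.keep [7,8,9,10,11] (.node (.cons (.keep [6,7,8,9,11] (.node (.cons (.leaf 1 [(3,2),(7,1)]) (.cons (.leaf 1 [(3,1),(4,1)]) (.cons (.leaf 1 [(3,1),(8,1),(7,1)]) (.cons (.leaf 1 [(4,1),(8,1)]) (.cons (.leaf 1 [(7,1),(8,1)]) (.cons (.leaf 1 [(4,1),(8,1)]) (.cons (.leaf 1 [(8,1),(7,1),(3,1)]) (.cons (.leaf 1 [(8,1)]) .nil)))))))))) (.cons (.keep [4,5,8,9,11] (.node (.cons (.leaf 1 [(3,1),(7,1)]) (.cons (.leaf 1 [(3,1),(4,1)])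 (.cons (.leaf 1 [(3,1),(7,1)]) (.cons (.leaf 1 [(7,1),(8,1),(4,1)]) (.cons (.leaf 1 [(7,1)]) (.cons (.leaf 1 [(4,1),(8,1),(7,1)]) (.cons (.leaf 1 [(7,1),(3,1)]) (.cons (.leaf 1 [(7,1),(8,1)]) .nil)))))))))) (.cons (.leaf 1 [(7,1)]) (.cons (.leaf 1 [(4,1),(5,1)]) (.cons (.leaf 1 [(8,1),(7,1)]) (.cons (.leaf 1 [(8,1),(4,1),(5,1)]) (.cons (.keep [7,8,9,10,11] (.node (.cons (.leaf 1 [(3,1),(10,1)]) (.cons (.leaf 1 [(3,1),(4,1)]) (.cons (.leaf 1 [(3,1),(8,1)]) (.cons (.leaf 1 [(3,1),(8,1)]) (.cons (.leaf 1 [(10,1)]) (.cons (.leaf 1 [(4,1),(7,1),(10,1)]) (.cons (.leaf 1 [(10,1),(3,1)]) (.cons (.leaf 1 [(10,1),(7,1)]) .nil)))))))))) (.cons (.keep [0,5,8,10,11] (.node (.cons (.keep [3,4,7,8,9] (.node (.cons (.leaf 1 [(2,1),(3,1)]) (.cons (.leaf 1 [(2,1),(3,1)]) (.cons (.leaf 1 [(7,2),(3,1)])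 (.cons (.leaf 1 [(7,2),(3,1)]) (.cons (.leaf 2 [(7,2),(8,1),(11,1)]) (.cons (.leaf 1 [(7,2),(0,1),(11,1)]) (.cons (.leaf 1 [(7,1),(8,1),(6,1),(3,1)]) (.cons (.leaf 1 [(7,1),(11,1)]) .nil)))))))))) (.cons (.leaf 1 [(3,1),(4,1)]) (.cons (.leaf 1 [(3,1),(9,1)]) (.cons (.leaf 1 [(3,1),(9,1)]) (.cons (.keep [1,4,8,9,10] (.node (.cons (.leaf 1 [(3,1)]) (.cons (.leaf 1 [(3,1)]) (.cons (.leaf 1 [(3,1),(11,1)]) (.cons (.leaf 1 [(3,1),(11,1)]) (.cons (.leaf 2 [(10,1),(8,1),(11,2)]) (.cons (.leaf 1 [(10,1),(0,1),(11,1)]) (.cons (.leaf 1 [(8,1),(11,1),(6,1),(3,1)]) (.cons (.leaf 1 [(10,1),(11,1)]) .nil)))))))))) (.cons (.leaf 1 [(4,1),(10,1)]) (.cons (.keep [3,7,8,9,10,11] (.node (.cons (.leaf 1 [(7,1),(3,1)]) (.cons (.leaf 1 [(7,1),(3,1)]) (.cons (.leaf 1 [(7,1),(11,1),(3,1)]) (.cons (.leaf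 1 [(7,1),(11,1),(3,1)]) (.cons (.leaf 2 [(11,2),(10,1)]) (.cons (.leaf 1 [(7,1),(0,1),(10,1),(11,1)]) (.cons (.leaf 1 [(6,1),(3,1),(11,1)]) (.cons (.leaf 1 [(11,1),(10,1)]) .nil)))))))))) (.cons (.leaf 1 [(10,1)]) .nil)))))))))) .nil)))))))))) (.cons (.leaf 1 [(1,1),(8,1)]) (.cons (.keep [1,3,8,10,11] (.node (.cons (.keep [6,7,8,9,11] (.node (.cons (.leaf 1 [(3,3),(7,1)]) (.cons (.leaf 1 [(3,2),(4,1)]) (.cons (.leaf 1 [(3,1),(8,2),(7,1)]) (.cons (.leaf 1 [(4,1),(8,2)]) (.cons (.leaf 1 [(8,2),(7,1)]) (.cons (.leaf 1 [(8,2),(4,1)]) (.cons (.leaf 1 [(8,2),(7,1),(3,1)]) (.cons (.leaf 1 [(8,2)]) .nil)))))))))) (.cons (.keep [4,8,9,10,11] (.node (.cons (.leaf 1 [(3,1),(7,2)]) (.cons (.leaf 1 [(3,1),(5,1),(4,2)]) (.cons (.leaf 1 [(3,1),(7,2)]) (.cons (.leaf 1 [(3,1),(7,1),(9,1)]) (.cons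 (.leaf 1 [(7,2)]) (.cons (.leaf 1 [(4,1),(7,1),(10,1)]) (.cons (.leaf 1 [(7,2),(3,1)]) (.cons (.leaf 1 [(10,1),(7,1)]) .nil)))))))))) (.cons (.leaf 1 [(7,2)]) (.cons (.leaf 1 [(5,1),(4,2)]) (.cons (.leaf 1 [(9,1),(7,2)]) (.cons (.leaf 1 [(5,1),(4,2),(9,1)]) (.cons (.keep [7,8,9,10,11] (.node (.cons (.leaf 1 [(3,2)]) (.cons (.leaf 1 [(3,1),(7,1),(4,1)]) (.cons (.leaf 1 [(3,1),(9,1),(7,1)]) (.cons (.leaf 1 [(3,1),(7,1),(9,1)]) (.cons (.leaf 1 [(10,1)]) (.cons (.leaf 1 [(7,1),(4,1),(10,1)]) (.cons (.leaf 1 [(10,1),(3,1)]) (.cons (.leaf 1 [(10,1),(7,1)]) .nil)))))))))) (.cons (.keep [0,5,9,10,11] (.node (.cons (.keep [3,4,7,8,9] (.node (.cons (.leaf 1 [(2,1),(3,1)]) (.cons (.leaf 1 [(2,1),(3,1)]) (.cons (.leaf 1 [(7,2),(3,1)]) (.cons (.leaf 1 [(7,2),(3,1)]) (.cons (.leaf 2 [(7,2),(8,1),(11,1)])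 (.cons (.leaf 1 [(7,2),(0,1),(11,1)]) (.cons (.leaf 1 [(7,1),(8,1),(6,1),(3,1)]) (.cons (.leaf 1 [(7,1),(11,1)]) .nil)))))))))) (.cons (.leaf 1 [(3,1),(4,1)]) (.cons (.leaf 1 [(3,1),(9,1)]) (.cons (.leaf 1 [(3,1),(9,1)]) (.cons (.keep [1,4,8,9,10] (.node (.cons (.leaf 1 [(3,1)]) (.cons (.leaf 1 [(3,1)]) (.cons (.leaf 1 [(3,1),(11,1)]) (.cons (.leaf 1 [(3,1),(11,1)]) (.cons (.leaf 2 [(10,1),(8,1),(11,2)]) (.cons (.leaf 1 [(10,1),(0,1),(11,1)]) (.cons (.leaf 1 [(8,1),(11,1),(6,1),(3,1)]) (.cons (.leaf 1 [(10,1),(11,1)]) .nil)))))))))) (.cons (.leaf 1 [(4,1),(10,1)]) (.cons (.keep [3,7,8,9,10,11] (.node (.cons (.leaf 1 [(7,1),(3,1)]) (.cons (.leaf 1 [(7,1),(3,1)]) (.cons (.leaf 1 [(7,1),(11,1),(3,1)]) (.cons (.leaf 1 [(7,1),(11,1),(3,1)]) (.cons (.leaf 2 [(11,2),(10,1)]) (.cons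 (.leaf 1 [(7,1),(0,1),(10,1),(11,1)]) (.cons (.leaf 1 [(6,1),(3,1),(11,1)]) (.cons (.leaf 1 [(11,1),(10,1)]) .nil)))))))))) (.cons (.leaf 1 [(10,1)]) .nil)))))))))) .nil)))))))))) (.cons (.leaf 1 [(1,1),(8,1)]) (.cons (.leaf 1 [(1,1),(4,1)]) (.cons (.leaf 1 [(8,1),(1,1)]) (.cons (.keep [0,2,7,8,10] (.node (.cons (.keep [6,7,8,9,10] (.node (.cons (.leaf 1 [(7,1),(3,1)]) (.cons (.leaf 1 [(4,1)]) (.cons (.leaf 1 [(3,1),(7,1)]) (.cons (.leaf 1 [(4,1)]) (.cons (.leaf 1 [(7,1)]) (.cons (.leaf 1 [(4,1)]) (.cons (.leaf 1 [(7,1),(3,1)]) (.cons (.leaf 1 []) .nil)))))))))) (.cons (.keep [4,5,7,8,10] (.node (.cons (.leaf 1 [(7,1)]) (.cons (.leaf 1 [(4,1)]) (.cons (.leaf 1 [(1,1),(7,1)]) (.cons (.leaf 1 [(4,1)]) (.cons (.leaf 1 [(1,1),(7,1)]) (.cons (.leaf 1 [(4,1)]) (.cons (.leaf 1 [(7,1),(1,1)])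 (.cons (.leaf 1 []) .nil)))))))))) (.cons (.leaf 1 [(1,1)]) (.cons (.leaf 1 [(1,1)]) (.cons (.leaf 1 [(10,1),(1,1)]) (.cons (.leaf 1 [(10,1),(1,1)]) (.cons (.keep [6,7,8,9,10] (.node (.cons (.leaf 1 [(7,1),(3,1)]) (.cons (.leaf 1 [(4,1)]) (.cons (.leaf 1 [(3,1),(7,1)]) (.cons (.leaf 1 [(4,1)]) (.cons (.leaf 1 [(7,1)]) (.cons (.leaf 1 [(4,1)]) (.cons (.leaf 1 [(7,1),(3,1)]) (.cons (.leaf 1 []) .nil)))))))))) (.cons (.keep [0,5,8,10] (.node (.cons (.keep [3,4,8,9,10] (.node (.cons (.leaf 1 [(3,1)]) (.cons (.leaf 1 [(3,1)]) (.cons (.leaf 1 [(3,1),(7,1)]) (.cons (.leaf 1 [(3,1),(7,1)]) (.cons (.leaf 2 [(8,1),(11,1)]) (.cons (.leaf 1 [(0,1),(11,1)]) (.cons (.leaf 1 [(8,1),(6,1),(3,1)]) (.cons (.leaf 1 [(11,1)]) .nil)))))))))) (.cons (.leaf 1 [(4,1)]) (.cons (.leaf 1 [(1,1),(10,1)])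 (.cons (.leaf 1 [(4,1)]) (.cons (.keep [1,4,7,8,10] (.node (.cons (.leaf 1 [(7,1),(3,1)]) (.cons (.leaf 1 [(7,1),(3,1)]) (.cons (.leaf 1 [(3,1)]) (.cons (.leaf 1 [(3,1)]) (.cons (.leaf 2 [(8,1),(11,1)]) (.cons (.leaf 1 [(7,1),(0,1),(11,1)]) (.cons (.leaf 1 [(8,1),(6,1),(3,1)]) (.cons (.leaf 1 [(11,1)]) .nil)))))))))) (.cons (.leaf 1 [(4,1)]) (.cons (.keep [3,7,8,9,10] (.node (.cons (.leaf 1 [(10,1),(3,1),(7,1)]) (.cons (.leaf 1 [(10,1),(3,1),(7,1)]) (.cons (.leaf 1 [(3,1),(7,1)]) (.cons (.leaf 1 [(3,1),(7,1)]) (.cons (.leaf 2 [(11,1)]) (.cons (.leaf 1 [(10,1),(0,1),(7,1),(11,1)]) (.cons (.leaf 1 [(6,1),(3,1)]) (.cons (.leaf 1 [(11,1)]) .nil)))))))))) (.cons (.leaf 1 []) .nil)))))))))) .nil)))))))))) .nil)))))))))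

theorem c_23_24_4 : Concl 23 24 z_23_24_4 h_23_24_4 .nd := piece _ hP_nil t_23_24_4 _ _ (by
  decide +kernel)

def z_23_24_5 : F := ⟨1, -1, 0, -1, 2⟩

def h_23_24_5 : List F := [⟨1, 0, 0, 0, 0⟩, ⟨0, 0, -1, 1, 0⟩, ⟨0, 0, 0, -1, 1⟩, ⟨0, 1, -1, 0, 0⟩,
  ⟨0, -1, 0, 0, 1⟩]

def t_23_24_5 : T := (.node (.cons (.keep [2,6,7,8,10] (.node (.cons (.leaf 1 [(7,1),(8,2)]) (.cons (.keep [0,4,7,8,10] (.node (.cons (.leaf 1 [(11,2),(8,3)]) (.cons (.leaf 1 [(11,2),(4,3),(5,1)]) (.cons (.leaf 1 [(1,2),(8,1)]) (.cons (.leaf 1 [(1,1),(4,1),(5,1)]) (.cons (.leaf 1 [(10,2),(1,2),(8,1)]) (.cons (.leaf 1 [(1,1),(4,1),(10,2),(5,1)]) (.cons (.leaf 1 [(11,2),(8,3),(1,2)]) (.cons (.leaf 1 [(11,2),(8,1)]) .nil)))))))))) (.cons (.leaf 1 [(1,2),(7,1),(8,2)]) (.cons (.leaf 1 [(4,1),(1,2),(10,2)]) (.cons (.leaf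 1 [(1,2),(8,1)]) (.cons (.leaf 1 [(1,2),(4,1)]) (.cons (.leaf 1 [(6,1),(8,2),(1,2)]) (.cons (.keep [0,1,8,10] (.node (.cons (.keep [4,7,9,10] (.node (.cons (.leaf 1 [(7,2)]) (.cons (.leaf 1 [(4,2)]) (.cons (.leaf 1 [(1,2),(7,2)]) (.cons (.leaf 1 [(4,2)]) (.cons (.leaf 1 [(1,2),(7,2)]) (.cons (.leaf 1 [(4,2)]) (.cons (.leaf 1 [(7,2),(1,2)]) (.cons (.leaf 1 []) .nil)))))))))) (.cons (.leaf 1 [(4,2),(10,2)]) (.cons (.leaf 1 [(1,2)]) (.cons (.leaf 1 [(1,2)]) (.cons (.leaf 1 [(9,2),(1,2)]) (.cons (.leaf 1 [(9,2),(1,2)]) (.cons (.keep [1,7,9,10] (.node (.cons (.leaf 1 [(10,1),(3,1)]) (.cons (.leaf 1 [(4,2)]) (.cons (.leaf 1 [(1,2),(9,2)]) (.cons (.leaf 1 [(4,2)]) (.cons (.leaf 1 [(10,1)]) (.cons (.leaf 1 [(4,2)]) (.cons (.leaf 1 [(10,1),(3,1)]) (.cons (.leaf 1 []) .nil)))))))))) (.cons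 (.leaf 1 [(10,2)]) .nil)))))))))) .nil)))))))))) (.cons (.keep [2,4,5,8,10] (.node (.cons (.keep [6,7,8,9,10] (.node (.cons (.leaf 1 [(3,1),(7,1),(11,1)]) (.cons (.leaf 1 [(4,1),(11,1)]) (.cons (.leaf 1 [(1,1)]) (.cons (.leaf 1 [(1,1)]) (.cons (.leaf 1 [(7,1),(11,1)]) (.cons (.leaf 1 [(4,1),(11,1)]) (.cons (.leaf 1 [(3,1),(7,1),(11,1)]) (.cons (.leaf 1 [(11,1)]) .nil)))))))))) (.cons (.keep [4,7,8,9,10] (.node (.cons (.leaf 1 [(11,2),(10,1),(7,3)]) (.cons (.leaf 1 [(11,2),(10,1),(4,3),(5,1)]) (.cons (.leaf 1 [(1,2),(10,1),(7,1)]) (.cons (.leaf 1 [(4,1),(1,1),(10,1),(5,1)]) (.cons (.leaf 1 [(11,1),(1,2),(7,2)]) (.cons (.leaf 1 [(11,1),(4,2),(5,1)]) (.cons (.leaf 1 [(11,2),(10,1),(7,3),(1,2)]) (.cons (.leaf 1 [(11,2),(10,1),(7,1)]) .nil)))))))))) (.cons (.leaf 1 [(1,2),(10,1)])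 (.cons (.leaf 1 [(4,1),(1,2),(9,1),(10,2)]) (.cons (.leaf 1 [(1,2)]) (.cons (.leaf 1 [(1,2),(9,1),(4,1)]) (.cons (.keep [1,6,8,9,10] (.node (.cons (.leaf 1 [(11,1)]) (.cons (.leaf 1 [(4,1),(7,1),(11,1)]) (.cons (.leaf 1 [(1,1),(7,1)]) (.cons (.leaf 1 [(1,1),(7,1)]) (.cons (.leaf 1 [(1,1),(11,1)]) (.cons (.leaf 1 [(4,1),(7,1),(11,1)]) (.cons (.leaf 1 [(11,1),(1,1)]) (.cons (.leaf 1 [(11,1),(7,1)]) .nil)))))))))) (.cons (.keep [0,1,8,9,10] (.node (.cons (.keep [4,7,10,11] (.node (.cons (.leaf 1 [(9,1),(7,2)]) (.cons (.leaf 1 [(9,1),(4,2)]) (.cons (.leaf 1 [(1,2),(7,1)]) (.cons (.leaf 1 [(1,1),(4,1)]) (.cons (.leaf 1 [(9,1),(1,2),(7,2)]) (.cons (.leaf 1 [(9,1),(4,2)]) (.cons (.leaf 1 [(9,1),(7,2),(1,2)]) (.cons (.leaf 1 [(9,1)]) .nil)))))))))) (.cons (.leaf 1 [(4,2),(10,1),(11,2)])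 (.cons (.leaf 1 [(1,2),(10,1)]) (.cons (.leaf 1 [(1,2),(10,1)]) (.cons (.keep [1,4,7,8,11] (.node (.cons (.leaf 1 [(8,1)]) (.cons (.leaf 1 [(7,1),(4,1)]) (.cons (.leaf 1 [(1,1),(8,1)]) (.cons (.leaf 1 [(1,1),(4,1)]) (.cons (.leaf 1 [(8,1),(1,1)]) (.cons (.leaf 1 [(7,1),(4,1)]) (.cons (.leaf 1 [(8,1),(1,1)]) (.cons (.leaf 1 [(7,1)]) .nil)))))))))) (.cons (.leaf 1 [(4,1),(1,1),(11,1)]) (.cons (.keep [1,7,10,11] (.node (.cons (.leaf 1 [(9,1),(10,1),(3,1)]) (.cons (.leaf 1 [(9,1),(4,2)]) (.cons (.leaf 2 [(1,2),(10,1),(3,1)]) (.cons (.leaf 1 [(1,1),(4,1)]) (.cons (.leaf 1 [(9,1),(10,1)]) (.cons (.leaf 1 [(9,1),(4,2)]) (.cons (.leaf 1 [(9,1),(10,1),(3,1)]) (.cons (.leaf 1 [(9,1)]) .nil)))))))))) (.cons (.leaf 1 [(11,2),(10,1)]) .nil)))))))))) .nil)))))))))) (.cons (.keep [1,6,8,9,11]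 (.node (.cons (.leaf 1 [(8,2),(11,2)]) (.cons (.keep [3,4,8,9,11] (.node (.cons (.leaf 1 [(8,2),(10,2)]) (.cons (.leaf 1 [(4,2),(10,2)]) (.cons (.leaf 1 [(1,2)]) (.cons (.leaf 1 [(1,2)]) (.cons (.leaf 1 [(9,2),(1,2)]) (.cons (.leaf 1 [(9,2),(1,2)]) (.cons (.leaf 1 [(8,2),(10,2),(1,2)]) (.cons (.leaf 1 [(10,2)]) .nil)))))))))) (.cons (.leaf 1 [(1,2),(9,2)]) (.cons (.leaf 1 [(1,2),(9,2)]) (.cons (.leaf 1 [(1,2)]) (.cons (.leaf 1 [(1,2)]) (.cons (.leaf 1 [(8,2),(6,2),(1,2)]) (.cons (.keep [0,1,8,9] (.node (.cons (.keep [4,7,9,10] (.node (.cons (.leaf 1 [(7,2)]) (.cons (.leaf 1 [(4,2)]) (.cons (.leaf 1 [(1,2),(7,2)]) (.cons (.leaf 1 [(4,2)]) (.cons (.leaf 1 [(1,2),(7,2)]) (.cons (.leaf 1 [(4,2)]) (.cons (.leaf 1 [(7,2),(1,2)]) (.cons (.leaf 1 []) .nil)))))))))) (.cons (.leaf 1 [(4,2),(10,2)])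 (.cons (.leaf 1 [(1,2)]) (.cons (.leaf 1 [(1,2)]) (.cons (.leaf 1 [(9,2),(1,2)]) (.cons (.leaf 1 [(9,2),(1,2)]) (.cons (.keep [1,7,9,10] (.node (.cons (.leaf 1 [(10,1),(3,1)]) (.cons (.leaf 1 [(4,2)]) (.cons (.leaf 1 [(1,2),(9,2)]) (.cons (.leaf 1 [(4,2)]) (.cons (.leaf 1 [(10,1)]) (.cons (.leaf 1 [(4,2)]) (.cons (.leaf 1 [(10,1),(3,1)]) (.cons (.leaf 1 []) .nil)))))))))) (.cons (.leaf 1 [(10,2)]) .nil)))))))))) .nil)))))))))) (.cons (.keep [1,4,5,8,11] (.node (.cons (.keep [6,7,9,10,11] (.node (.cons (.leaf 1 [(7,1),(10,1)]) (.cons (.leaf 1 [(4,2),(9,1),(10,2)]) (.cons (.leaf 1 [(1,2),(9,1)]) (.cons (.leaf 1 [(1,2),(9,1)]) (.cons (.leaf 1 [(7,1),(1,1),(10,1)]) (.cons (.leaf 1 [(4,1),(1,1),(10,1)]) (.cons (.leaf 1 [(7,1),(10,1),(1,1)]) (.cons (.leaf 1 [(10,2),(9,1)]) .nil))))))))))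 (.cons (.keep [4,8,9,10,11] (.node (.cons (.leaf 1 [(7,2),(9,1),(10,2)]) (.cons (.leaf 1 [(4,2),(9,1),(10,2)]) (.cons (.leaf 1 [(1,2),(9,1)]) (.cons (.leaf 1 [(1,2),(9,1)]) (.cons (.leaf 1 [(7,1),(1,2),(10,1)]) (.cons (.leaf 1 [(4,1),(1,1),(10,1)]) (.cons (.leaf 1 [(7,2),(9,1),(10,2),(1,2)]) (.cons (.leaf 1 [(10,2),(9,1)]) .nil)))))))))) (.cons (.leaf 1 [(1,2),(10,2),(9,1)]) (.cons (.leaf 1 [(1,2),(10,2),(9,1)]) (.cons (.leaf 1 [(1,2),(9,1)]) (.cons (.leaf 1 [(1,2),(9,1)]) (.cons (.keep [1,6,8,9,10] (.node (.cons (.leaf 1 [(8,1),(11,1)]) (.cons (.leaf 1 [(4,1),(8,1),(7,1),(11,1)]) (.cons (.leaf 1 [(1,1),(8,1),(7,1)]) (.cons (.leaf 1 [(1,1),(8,1),(7,1)]) (.cons (.leaf 1 [(8,1),(1,1),(11,1)]) (.cons (.leaf 1 [(4,1),(1,1),(11,1)]) (.cons (.leaf 1 [(8,1),(11,1),(1,1)]) (.cons (.leaf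 1 [(11,1),(8,1),(7,1)]) .nil)))))))))) (.cons (.keep [0,1,8,9,10] (.node (.cons (.keep [4,7,10,11] (.node (.cons (.leaf 1 [(9,1),(7,2)]) (.cons (.leaf 1 [(9,1),(4,2)]) (.cons (.leaf 1 [(1,2),(7,1)]) (.cons (.leaf 1 [(1,1),(4,1)]) (.cons (.leaf 1 [(9,1),(1,2),(7,2)]) (.cons (.leaf 1 [(9,1),(4,2)]) (.cons (.leaf 1 [(9,1),(7,2),(1,2)]) (.cons (.leaf 1 [(9,1)]) .nil)))))))))) (.cons (.leaf 1 [(4,2),(10,1),(11,2)]) (.cons (.leaf 1 [(1,2),(10,1)]) (.cons (.leaf 1 [(1,2),(10,1)]) (.cons (.keep [1,4,7,8,11] (.node (.cons (.leaf 1 [(8,1)]) (.cons (.leaf 1 [(7,1),(4,1)]) (.cons (.leaf 1 [(1,1),(8,1)]) (.cons (.leaf 1 [(1,1),(4,1)]) (.cons (.leaf 1 [(8,1),(1,1)]) (.cons (.leaf 1 [(7,1),(4,1)]) (.cons (.leaf 1 [(8,1),(1,1)]) (.cons (.leaf 1 [(7,1)]) .nil)))))))))) (.cons (.leaf 1 [(4,1),(1,1),(11,1)])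 (.cons (.keep [1,7,10,11] (.node (.cons (.leaf 1 [(9,1),(10,1),(3,1)]) (.cons (.leaf 1 [(9,1),(4,2)]) (.cons (.leaf 2 [(1,2),(10,1),(3,1)]) (.cons (.leaf 1 [(1,1),(4,1)]) (.cons (.leaf 1 [(9,1),(10,1)]) (.cons (.leaf 1 [(9,1),(4,2)]) (.cons (.leaf 1 [(9,1),(10,1),(3,1)]) (.cons (.leaf 1 [(9,1)]) .nil)))))))))) (.cons (.leaf 1 [(11,2),(10,1)]) .nil)))))))))) .nil)))))))))) (.cons (.leaf 1 [(10,1),(8,2),(1,2)]) (.cons (.leaf 1 [(10,1),(8,2),(1,2),(5,1)]) (.cons (.keep [1,6,9,10,11] (.node (.cons (.leaf 1 [(8,2)]) (.cons (.leaf 1 [(7,1),(8,2),(4,1)]) (.cons (.leaf 1 [(1,1),(8,2)]) (.cons (.leaf 1 [(4,1),(7,1),(8,2)]) (.cons (.leaf 1 [(1,1),(8,2)]) (.cons (.leaf 1 [(1,1),(5,1),(4,2)]) (.cons (.leaf 1 [(8,2),(1,1)]) (.cons (.leaf 1 [(7,1),(8,2)]) .nil)))))))))) (.cons (.keep [0,1,8,9,10,11]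 (.node (.cons (.keep [3,4,8,9,11] (.node (.cons (.leaf 1 [(8,1),(3,1),(10,1)]) (.cons (.leaf 1 [(4,1),(3,1),(10,1)]) (.cons (.leaf 1 [(3,1)]) (.cons (.leaf 1 [(3,1)]) (.cons (.leaf 1 [(8,1),(10,1)]) (.cons (.leaf 1 [(4,2),(11,1),(10,1)]) (.cons (.leaf 1 [(8,1),(10,1),(3,1)]) (.cons (.leaf 1 [(10,1),(11,1)]) .nil)))))))))) (.cons (.keep [4,5,7,8,9] (.node (.cons (.leaf 1 [(11,1),(7,2)]) (.cons (.leaf 1 [(11,1),(4,2),(5,1)]) (.cons (.leaf 1 [(1,1),(7,1)]) (.cons (.leaf 1 [(4,1),(5,1)]) (.cons (.leaf 1 [(11,1),(1,1),(7,2)]) (.cons (.leaf 1 [(11,1),(4,1),(7,1)]) (.cons (.leaf 1 [(11,1),(7,2),(1,1)]) (.cons (.leaf 1 [(11,1),(7,1)]) .nil)))))))))) (.cons (.leaf 1 [(1,2),(9,1),(11,1)]) (.cons (.leaf 1 [(4,1),(1,1),(9,1)]) (.cons (.keep [1,4,7,11,12] (.node (.cons (.leaf 1 [(7,2),(3,1)])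 (.cons (.leaf 1 [(7,2),(3,1)]) (.cons (.leaf 1 [(1,1),(3,1)]) (.cons (.leaf 1 [(1,1),(3,1)]) (.cons (.leaf 2 [(7,2),(8,1),(10,1)]) (.cons (.leaf 1 [(7,3),(0,1),(10,1)]) (.cons (.leaf 1 [(7,1),(8,1),(6,1),(3,1)]) (.cons (.leaf 1 [(7,1),(10,1)]) .nil)))))))))) (.cons (.leaf 1 [(1,1),(4,1)]) (.cons (.keep [1,6,7,9,11] (.node (.cons (.leaf 1 [(3,1),(10,1)]) (.cons (.leaf 1 [(4,1),(3,1),(7,1),(10,1)]) (.cons (.leaf 1 [(3,1),(7,1)]) (.cons (.leaf 1 [(3,1),(7,1)]) (.cons (.leaf 1 [(10,1)]) (.cons (.leaf 1 [(4,2),(11,1),(10,1)]) (.cons (.leaf 1 [(10,1),(3,1)]) (.cons (.leaf 1 [(10,1),(11,1)]) .nil)))))))))) (.cons (.keep [0,5,8,9] (.node (.cons (.keep [3,4,7,8,9,10] (.node (.cons (.leaf 1 [(8,1)]) (.cons (.leaf 1 [(4,1)]) (.cons (.leaf 1 [(1,1),(8,1)]) (.cons (.leaf 1 [(4,1)]) (.cons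 (.leaf 1 [(1,1),(8,1)]) (.cons (.leaf 1 [(4,1)]) (.cons (.leaf 1 [(8,1),(1,1)]) (.cons (.leaf 1 []) .nil)))))))))) (.cons (.leaf 1 [(4,1),(10,1)]) (.cons (.leaf 1 [(1,1)]) (.cons (.leaf 1 [(1,1)]) (.cons (.keep [1,4,7,8,10] (.node (.cons (.leaf 1 [(8,1),(2,1)]) (.cons (.leaf 1 [(4,1)]) (.cons (.leaf 1 [(8,1)]) (.cons (.leaf 1 [(4,1)]) (.cons (.leaf 1 [(8,1),(2,1)]) (.cons (.leaf 1 [(4,1)]) (.cons (.leaf 1 [(8,1),(2,1)]) (.cons (.leaf 1 []) .nil)))))))))) (.cons (.leaf 1 [(4,1),(10,1)]) (.cons (.keep [3,7,8,9,10] (.node (.cons (.leaf 2 [(11,1),(3,1)]) (.cons (.leaf 1 [(4,1)]) (.cons (.leaf 2 [(3,1),(11,1)]) (.cons (.leaf 1 [(4,1)]) (.cons (.leaf 2 [(11,1)]) (.cons (.leaf 1 [(4,1)]) (.cons (.leaf 2 [(11,1),(3,1)]) (.cons (.leaf 1 []) .nil)))))))))) (.cons (.leaf 1 [(10,1)]) .nil))))))))))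 .nil)))))))))) .nil)))))))))

theorem c_23_24_5 : Concl 23 24 z_23_24_5 h_23_24_5 .nd := piece _ hP_nil t_23_24_5 _ _ (by
  decide +kernel)

def z_23_24_7 : F := ⟨0, -1, 0, -1, 2⟩

def h_23_24_7 : List F := [⟨-1, 0, 0, 0, 0⟩, ⟨0, -1, 0, 0, 0⟩, ⟨0, 0, 0, -1, 0⟩, ⟨0, 0, -1, 1, 0⟩,
  ⟨0, 1, -1, 0, 0⟩]

def t_23_24_7 : T := (.node (.cons (.keep [2,6,7,9,11] (.node (.cons (.leaf 1 [(8,1)]) (.cons (.leaf 1 [(9,1),(4,1)]) (.cons (.leaf 1 [(1,1),(8,1)]) (.cons (.leaf 1 [(4,1),(9,1)]) (.cons (.leaf 1 [(1,1),(8,1)]) (.cons (.leaf 1 [(1,1),(4,1)]) (.cons (.leaf 1 [(8,1),(1,1)]) (.cons (.leaf 1 [(9,1)]) .nil)))))))))) (.cons (.keep [2,4,7,9,10,11] (.node (.cons (.keep [3,6,7,8,11] (.node (.cons (.leaf 1 [(8,1),(3,2),(11,1)]) (.cons (.leaf 1 [(4,1),(3,1),(11,1)]) (.cons (.leaf 1 [(3,1)])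 (.cons (.leaf 1 [(3,1)]) (.cons (.leaf 1 [(8,1),(10,1),(11,1)]) (.cons (.leaf 1 [(4,1),(10,1),(11,1)]) (.cons (.leaf 1 [(8,1),(10,1),(11,1),(3,1)]) (.cons (.leaf 1 [(11,1),(10,1)]) .nil)))))))))) (.cons (.keep [0,4,7,8,9,11] (.node (.cons (.leaf 1 [(12,1),(8,2)]) (.cons (.leaf 1 [(12,1),(4,2),(5,1)]) (.cons (.leaf 1 [(1,1),(8,1)]) (.cons (.leaf 1 [(4,1),(5,1)]) (.cons (.leaf 1 [(12,1),(1,1),(8,2)]) (.cons (.leaf 1 [(12,1),(4,1),(8,1)]) (.cons (.leaf 1 [(12,1),(8,2),(1,1)]) (.cons (.leaf 1 [(12,1),(8,1)]) .nil)))))))))) (.cons (.leaf 1 [(1,2),(11,1),(8,1)]) (.cons (.leaf 1 [(4,1),(1,1),(11,1)]) (.cons (.leaf 1 [(1,2),(8,1)]) (.cons (.leaf 1 [(1,1),(4,1)]) (.cons (.keep [1,6,8,10,11] (.node (.cons (.leaf 1 [(3,1),(11,1)]) (.cons (.leaf 1 [(4,1),(3,1),(7,1),(11,1)]) (.cons (.leaf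 1 [(3,1),(7,1)]) (.cons (.leaf 1 [(3,1),(7,1)]) (.cons (.leaf 1 [(11,1)]) (.cons (.leaf 1 [(4,1),(9,1),(7,1),(11,1)]) (.cons (.leaf 1 [(11,1),(3,1)]) (.cons (.leaf 1 [(11,1),(9,1),(7,1)]) .nil)))))))))) (.cons (.keep [0,5,8,9,11] (.node (.cons (.keep [3,4,7,8,10,11] (.node (.cons (.leaf 1 [(8,1)]) (.cons (.leaf 1 [(4,1)]) (.cons (.leaf 1 [(1,1),(8,1)]) (.cons (.leaf 1 [(4,1)]) (.cons (.leaf 1 [(1,1),(8,1)]) (.cons (.leaf 1 [(4,1)]) (.cons (.leaf 1 [(8,1),(1,1)]) (.cons (.leaf 1 []) .nil)))))))))) (.cons (.leaf 1 [(4,1),(11,1)]) (.cons (.leaf 1 [(1,1)]) (.cons (.leaf 1 [(1,1)]) (.cons (.keep [1,4,7,8,11] (.node (.cons (.leaf 1 [(8,1),(2,1)]) (.cons (.leaf 1 [(4,1)]) (.cons (.leaf 1 [(8,1)]) (.cons (.leaf 1 [(4,1)]) (.cons (.leaf 1 [(8,1),(2,1)]) (.cons (.leaf 1 [(4,1)]) (.cons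 (.leaf 1 [(8,1),(2,1)]) (.cons (.leaf 1 []) .nil)))))))))) (.cons (.leaf 1 [(4,1),(11,1)]) (.cons (.keep [3,7,8,10,11] (.node (.cons (.leaf 2 [(11,1),(3,1)]) (.cons (.leaf 1 [(4,1)]) (.cons (.leaf 2 [(3,1),(11,1)]) (.cons (.leaf 1 [(4,1)]) (.cons (.leaf 2 [(11,1)]) (.cons (.leaf 1 [(4,1)]) (.cons (.leaf 2 [(11,1),(3,1)]) (.cons (.leaf 1 []) .nil)))))))))) (.cons (.leaf 1 [(11,1)]) .nil)))))))))) .nil)))))))))) (.cons (.leaf 1 [(1,2),(7,1)]) (.cons (.keep [1,4,7,8,9,10] (.node (.cons (.keep [3,6,7,9,12] (.node (.cons (.leaf 1 [(8,1),(3,2),(11,1)]) (.cons (.leaf 1 [(4,1),(3,1),(11,1)]) (.cons (.leaf 1 [(3,1)]) (.cons (.leaf 1 [(3,1)]) (.cons (.leaf 1 [(8,1),(9,1),(11,1)]) (.cons (.leaf 1 [(4,1),(9,1),(11,1)]) (.cons (.leaf 1 [(8,1),(9,1),(11,1),(3,1)]) (.cons (.leaf 1 [(11,1),(9,1)])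 .nil)))))))))) (.cons (.keep [0,4,8,9,10,12] (.node (.cons (.leaf 1 [(12,1),(8,2)]) (.cons (.leaf 1 [(12,1),(4,2),(5,1)]) (.cons (.leaf 1 [(1,1),(8,1)]) (.cons (.leaf 1 [(4,1),(5,1)]) (.cons (.leaf 1 [(12,1),(1,1),(8,2)]) (.cons (.leaf 1 [(12,1),(4,1),(8,1)]) (.cons (.leaf 1 [(12,1),(8,2),(1,1)]) (.cons (.leaf 1 [(12,1),(8,1)]) .nil)))))))))) (.cons (.leaf 1 [(7,1),(1,1),(12,1)]) (.cons (.leaf 1 [(4,1),(1,1),(12,1)]) (.cons (.leaf 1 [(1,1),(7,1)]) (.cons (.leaf 1 [(1,1),(4,1)]) (.cons (.keep [6,7,8,9,11,12] (.node (.cons (.leaf 1 [(3,1),(12,1)]) (.cons (.leaf 1 [(4,1),(8,1),(12,1)]) (.cons (.leaf 1 [(1,1),(8,1)]) (.cons (.leaf 1 [(1,1),(8,1)]) (.cons (.leaf 1 [(12,1)]) (.cons (.leaf 1 [(4,1),(8,1),(12,1)]) (.cons (.leaf 1 [(12,1),(3,1)]) (.cons (.leaf 1 [(12,1),(8,1)]) .nil))))))))))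 (.cons (.keep [0,5,8,9,12] (.node (.cons (.keep [3,4,7,8,10,11] (.node (.cons (.leaf 1 [(8,1)]) (.cons (.leaf 1 [(4,1)]) (.cons (.leaf 1 [(1,1),(8,1)]) (.cons (.leaf 1 [(4,1)]) (.cons (.leaf 1 [(1,1),(8,1)]) (.cons (.leaf 1 [(4,1)]) (.cons (.leaf 1 [(8,1),(1,1)]) (.cons (.leaf 1 []) .nil)))))))))) (.cons (.leaf 1 [(4,1),(11,1)]) (.cons (.leaf 1 [(1,1)]) (.cons (.leaf 1 [(1,1)]) (.cons (.keep [1,4,7,8,11] (.node (.cons (.leaf 1 [(8,1),(2,1)]) (.cons (.leaf 1 [(4,1)]) (.cons (.leaf 1 [(8,1)]) (.cons (.leaf 1 [(4,1)]) (.cons (.leaf 1 [(8,1),(2,1)]) (.cons (.leaf 1 [(4,1)]) (.cons (.leaf 1 [(8,1),(2,1)]) (.cons (.leaf 1 []) .nil)))))))))) (.cons (.leaf 1 [(4,1),(11,1)]) (.cons (.keep [3,7,8,10,11] (.node (.cons (.leaf 2 [(11,1),(3,1)]) (.cons (.leaf 1 [(4,1)]) (.cons (.leaf 2 [(3,1),(11,1)])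 (.cons (.leaf 1 [(4,1)]) (.cons (.leaf 2 [(11,1)]) (.cons (.leaf 1 [(4,1)]) (.cons (.leaf 2 [(11,1),(3,1)]) (.cons (.leaf 1 []) .nil)))))))))) (.cons (.leaf 1 [(11,1)]) .nil)))))))))) .nil)))))))))) (.cons (.leaf 1 [(11,1),(1,2),(7,1)]) (.cons (.leaf 1 [(11,1),(1,2),(10,1)]) (.cons (.keep [1,6,8,9,11] (.node (.cons (.leaf 1 [(8,1)]) (.cons (.leaf 1 [(8,1),(7,1),(4,1)]) (.cons (.leaf 1 [(1,1),(8,1)]) (.cons (.leaf 1 [(4,1),(8,1),(7,1)]) (.cons (.leaf 1 [(1,1),(8,1)]) (.cons (.leaf 1 [(1,1),(4,1)]) (.cons (.leaf 1 [(8,1),(1,1)]) (.cons (.leaf 1 [(8,1),(7,1)]) .nil)))))))))) (.cons (.keep [0,1,8,9,10,11] (.node (.cons (.keep [3,4,8,11,12] (.node (.cons (.leaf 1 [(8,1),(3,1),(10,1)]) (.cons (.leaf 1 [(4,1),(3,1),(10,1)]) (.cons (.leaf 1 [(3,1)]) (.cons (.leaf 1 [(3,1)]) (.cons (.leaf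 1 [(8,1),(10,1)]) (.cons (.leaf 1 [(4,2),(11,1),(10,1)]) (.cons (.leaf 1 [(8,1),(10,1),(3,1)]) (.cons (.leaf 1 [(10,1),(11,1)]) .nil)))))))))) (.cons (.keep [4,5,7,8,11] (.node (.cons (.leaf 1 [(11,1),(7,2)]) (.cons (.leaf 1 [(11,1),(4,2),(5,1)]) (.cons (.leaf 1 [(1,1),(7,1)]) (.cons (.leaf 1 [(4,1),(5,1)]) (.cons (.leaf 1 [(11,1),(1,1),(7,2)]) (.cons (.leaf 1 [(11,1),(4,1),(7,1)]) (.cons (.leaf 1 [(11,1),(7,2),(1,1)]) (.cons (.leaf 1 [(11,1),(7,1)]) .nil)))))))))) (.cons (.leaf 1 [(1,2),(11,1),(12,1)]) (.cons (.leaf 1 [(4,1),(1,1),(11,1)]) (.cons (.keep [1,4,7,9,12] (.node (.cons (.leaf 1 [(7,2),(3,1)]) (.cons (.leaf 1 [(7,2),(3,1)]) (.cons (.leaf 1 [(1,1),(3,1)]) (.cons (.leaf 1 [(1,1),(3,1)]) (.cons (.leaf 2 [(7,2),(8,1),(11,1)]) (.cons (.leaf 1 [(7,3),(0,1),(11,1)]) (.cons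 (.leaf 1 [(7,1),(8,1),(6,1),(3,1)]) (.cons (.leaf 1 [(7,1),(11,1)]) .nil)))))))))) (.cons (.leaf 1 [(1,1),(4,1)]) (.cons (.keep [1,6,7,11,12] (.node (.cons (.leaf 1 [(3,1),(10,1)]) (.cons (.leaf 1 [(4,1),(3,1),(7,1),(10,1)]) (.cons (.leaf 1 [(3,1),(7,1)]) (.cons (.leaf 1 [(3,1),(7,1)]) (.cons (.leaf 1 [(10,1)]) (.cons (.leaf 1 [(4,2),(11,1),(10,1)]) (.cons (.leaf 1 [(10,1),(3,1)]) (.cons (.leaf 1 [(10,1),(11,1)]) .nil)))))))))) (.cons (.keep [0,5,8,11] (.node (.cons (.keep [3,4,7,8,9,10] (.node (.cons (.leaf 1 [(8,1)]) (.cons (.leaf 1 [(4,1)]) (.cons (.leaf 1 [(1,1),(8,1)]) (.cons (.leaf 1 [(4,1)]) (.cons (.leaf 1 [(1,1),(8,1)]) (.cons (.leaf 1 [(4,1)]) (.cons (.leaf 1 [(8,1),(1,1)]) (.cons (.leaf 1 []) .nil)))))))))) (.cons (.leaf 1 [(4,1),(10,1)]) (.cons (.leaf 1 [(1,1)]) (.cons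 (.leaf 1 [(1,1)]) (.cons (.keep [1,4,7,8,10] (.node (.cons (.leaf 1 [(8,1),(2,1)]) (.cons (.leaf 1 [(4,1)]) (.cons (.leaf 1 [(8,1)]) (.cons (.leaf 1 [(4,1)]) (.cons (.leaf 1 [(8,1),(2,1)]) (.cons (.leaf 1 [(4,1)]) (.cons (.leaf 1 [(8,1),(2,1)]) (.cons (.leaf 1 []) .nil)))))))))) (.cons (.leaf 1 [(4,1),(10,1)]) (.cons (.keep [3,7,8,9,10] (.node (.cons (.leaf 2 [(11,1),(3,1)]) (.cons (.leaf 1 [(4,1)]) (.cons (.leaf 2 [(3,1),(11,1)]) (.cons (.leaf 1 [(4,1)]) (.cons (.leaf 2 [(11,1)]) (.cons (.leaf 1 [(4,1)]) (.cons (.leaf 2 [(11,1),(3,1)]) (.cons (.leaf 1 []) .nil)))))))))) (.cons (.leaf 1 [(10,1)]) .nil)))))))))) .nil)))))))))) .nil)))))))))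

theorem c_23_24_7 : Concl 23 24 z_23_24_7 h_23_24_7 .nd := piece _ hP_nil t_23_24_7 _ _ (by
  decide +kernel)

def z_23_24_8 : F := ⟨0, -1, -1, 0, 2⟩

def h_23_24_8 : List F := [⟨-1, 0, 0, 0, 0⟩, ⟨0, -1, 0, 0, 0⟩, ⟨0, 0, 1, -1, 0⟩, ⟨0, 1, -1, 0, 0⟩]

def t_23_24_8 : T := (.node (.cons (.leaf 1 [(10,1),(9,2),(7,2)]) (.cons (.keep [2,4,7,9,10] (.node (.cons (.keep [6,7,8,10,11] (.node (.cons (.leaf 1 [(3,2),(7,1)]) (.cons (.leaf 1 [(3,1),(4,1)]) (.cons (.leaf 1 [(3,1),(9,1),(7,1)]) (.cons (.leaf 1 [(4,1),(9,1)]) (.cons (.leaf 1 [(7,1),(9,1)]) (.cons (.leaf 1 [(4,1),(9,1)]) (.cons (.leaf 1 [(9,1),(7,1),(3,1)]) (.cons (.leaf 1 [(9,1)]) .nil)))))))))) (.cons (.keep [4,7,8,9,10,11] (.node (.cons (.leaf 1 [(7,2)]) (.cons (.leaf 1 [(5,1),(4,2)]) (.cons (.leaf 1 [(1,1),(7,2)]) (.cons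 (.leaf 1 [(4,1),(7,1)]) (.cons (.leaf 1 [(1,1),(7,2)]) (.cons (.leaf 1 [(4,1),(7,1)]) (.cons (.leaf 1 [(7,2),(1,1)]) (.cons (.leaf 1 [(7,1)]) .nil)))))))))) (.cons (.leaf 1 [(1,2),(8,1)]) (.cons (.leaf 1 [(1,1),(4,1)]) (.cons (.leaf 1 [(10,1),(1,2),(8,1)]) (.cons (.leaf 1 [(1,1),(4,1),(10,1)]) (.cons (.keep [1,6,8,10,11] (.node (.cons (.leaf 1 [(3,1)]) (.cons (.leaf 1 [(3,1),(7,1),(4,1)]) (.cons (.leaf 1 [(3,1)]) (.cons (.leaf 1 [(4,1),(9,1),(7,1)]) (.cons (.leaf 1 []) (.cons (.leaf 1 [(4,1),(7,1),(9,1)]) (.cons (.leaf 1 [(3,1)]) (.cons (.leaf 1 [(9,1),(7,1)]) .nil)))))))))) (.cons (.keep [0,5,8,9,10] (.node (.cons (.keep [3,4,8,10,11] (.node (.cons (.leaf 1 [(3,1)]) (.cons (.leaf 1 [(3,1)]) (.cons (.leaf 1 [(3,1),(7,1)]) (.cons (.leaf 1 [(3,1),(7,1)]) (.cons (.leaf 2 [(8,1),(11,1)])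 (.cons (.leaf 1 [(0,1),(11,1)]) (.cons (.leaf 1 [(8,1),(6,1),(3,1)]) (.cons (.leaf 1 [(11,1)]) .nil)))))))))) (.cons (.leaf 1 [(4,1)]) (.cons (.leaf 1 [(1,1),(11,1)]) (.cons (.leaf 1 [(4,1)]) (.cons (.keep [1,4,7,8,11] (.node (.cons (.leaf 1 [(7,1),(3,1)]) (.cons (.leaf 1 [(7,1),(3,1)]) (.cons (.leaf 1 [(3,1)]) (.cons (.leaf 1 [(3,1)]) (.cons (.leaf 2 [(8,1),(11,1)]) (.cons (.leaf 1 [(7,1),(0,1),(11,1)]) (.cons (.leaf 1 [(8,1),(6,1),(3,1)]) (.cons (.leaf 1 [(11,1)]) .nil)))))))))) (.cons (.leaf 1 [(4,1)]) (.cons (.keep [3,7,8,10,11] (.node (.cons (.leaf 1 [(10,1),(3,1),(7,1)]) (.cons (.leaf 1 [(10,1),(3,1),(7,1)]) (.cons (.leaf 1 [(3,1),(7,1)]) (.cons (.leaf 1 [(3,1),(7,1)]) (.cons (.leaf 2 [(11,1)]) (.cons (.leaf 1 [(10,1),(0,1),(7,1),(11,1)]) (.cons (.leaf 1 [(6,1),(3,1)])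 (.cons (.leaf 1 [(11,1)]) .nil)))))))))) (.cons (.leaf 1 []) .nil)))))))))) .nil)))))))))) (.cons (.leaf 1 [(1,2),(9,1),(7,1)]) (.cons (.keep [1,3,4,7,8,9] (.node (.cons (.keep [6,7,8,10,12] (.node (.cons (.leaf 1 [(3,2),(7,1)]) (.cons (.leaf 1 [(3,1),(4,1)]) (.cons (.leaf 1 [(3,1),(8,1),(7,1)]) (.cons (.leaf 1 [(4,1),(8,1)]) (.cons (.leaf 1 [(7,1),(8,1)]) (.cons (.leaf 1 [(4,1),(8,1)]) (.cons (.leaf 1 [(8,1),(7,1),(3,1)]) (.cons (.leaf 1 [(8,1)]) .nil)))))))))) (.cons (.keep [4,8,9,10,11,12] (.node (.cons (.leaf 1 [(7,2)]) (.cons (.leaf 1 [(5,1),(4,2)]) (.cons (.leaf 1 [(1,1),(7,2)]) (.cons (.leaf 1 [(4,1),(7,1)]) (.cons (.leaf 1 [(1,1),(7,2)]) (.cons (.leaf 1 [(4,1),(7,1)]) (.cons (.leaf 1 [(7,2),(1,1)]) (.cons (.leaf 1 [(7,1)]) .nil)))))))))) (.cons (.leaf 1 [(1,1),(7,1)])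 (.cons (.leaf 1 [(1,1),(4,1)]) (.cons (.leaf 1 [(1,1),(7,1),(12,1)]) (.cons (.leaf 1 [(1,1),(4,1),(12,1)]) (.cons (.keep [6,7,8,9,10,12] (.node (.cons (.leaf 1 [(3,1)]) (.cons (.leaf 1 [(8,1),(4,1)]) (.cons (.leaf 1 [(3,1)]) (.cons (.leaf 1 [(4,1),(8,1)]) (.cons (.leaf 1 []) (.cons (.leaf 1 [(4,1),(8,1)]) (.cons (.leaf 1 [(3,1)]) (.cons (.leaf 1 [(8,1)]) .nil)))))))))) (.cons (.keep [0,5,9,10,12] (.node (.cons (.keep [3,4,8,10,11] (.node (.cons (.leaf 1 [(3,1)]) (.cons (.leaf 1 [(3,1)]) (.cons (.leaf 1 [(3,1),(7,1)]) (.cons (.leaf 1 [(3,1),(7,1)]) (.cons (.leaf 2 [(8,1),(11,1)]) (.cons (.leaf 1 [(0,1),(11,1)]) (.cons (.leaf 1 [(8,1),(6,1),(3,1)]) (.cons (.leaf 1 [(11,1)]) .nil)))))))))) (.cons (.leaf 1 [(4,1)]) (.cons (.leaf 1 [(1,1),(11,1)]) (.cons (.leaf 1 [(4,1)]) (.cons (.keep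 [1,4,7,8,11] (.node (.cons (.leaf 1 [(7,1),(3,1)]) (.cons (.leaf 1 [(7,1),(3,1)]) (.cons (.leaf 1 [(3,1)]) (.cons (.leaf 1 [(3,1)]) (.cons (.leaf 2 [(8,1),(11,1)]) (.cons (.leaf 1 [(7,1),(0,1),(11,1)]) (.cons (.leaf 1 [(8,1),(6,1),(3,1)]) (.cons (.leaf 1 [(11,1)]) .nil)))))))))) (.cons (.leaf 1 [(4,1)]) (.cons (.keep [3,7,8,10,11] (.node (.cons (.leaf 1 [(10,1),(3,1),(7,1)]) (.cons (.leaf 1 [(10,1),(3,1),(7,1)]) (.cons (.leaf 1 [(3,1),(7,1)]) (.cons (.leaf 1 [(3,1),(7,1)]) (.cons (.leaf 2 [(11,1)]) (.cons (.leaf 1 [(10,1),(0,1),(7,1),(11,1)]) (.cons (.leaf 1 [(6,1),(3,1)]) (.cons (.leaf 1 [(11,1)]) .nil)))))))))) (.cons (.leaf 1 []) .nil)))))))))) .nil)))))))))) (.cons (.leaf 1 [(10,1),(1,2)]) (.cons (.leaf 1 [(10,1),(1,2)]) (.cons (.leaf 1 [(10,1),(9,2),(6,2),(1,2)]) (.cons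 (.keep [0,1,8,9,10] (.node (.cons (.keep [4,8,10,11] (.node (.cons (.leaf 1 [(3,1),(7,1)]) (.cons (.leaf 1 [(3,1),(4,1)]) (.cons (.leaf 1 [(3,1),(7,1)]) (.cons (.leaf 1 [(3,1),(9,1)]) (.cons (.leaf 1 [(7,1)]) (.cons (.leaf 1 [(4,2),(10,1)]) (.cons (.leaf 1 [(7,1),(3,1)]) (.cons (.leaf 1 [(10,1)]) .nil)))))))))) (.cons (.keep [4,5,8,10,11] (.node (.cons (.leaf 1 [(7,2)]) (.cons (.leaf 1 [(5,1),(4,2)]) (.cons (.leaf 1 [(1,1),(7,2)]) (.cons (.leaf 1 [(4,1),(7,1)]) (.cons (.leaf 1 [(1,1),(7,2)]) (.cons (.leaf 1 [(4,1),(7,1)]) (.cons (.leaf 1 [(7,2),(1,1)]) (.cons (.leaf 1 [(7,1)]) .nil)))))))))) (.cons (.leaf 1 [(1,2),(11,1)]) (.cons (.leaf 1 [(1,1),(4,1)]) (.cons (.leaf 1 [(10,2),(1,2),(11,1)]) (.cons (.leaf 1 [(1,1),(4,1),(10,1)]) (.cons (.keep [1,6,7,10,11] (.node (.cons (.leaf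 1 [(3,1)]) (.cons (.leaf 1 [(3,1),(7,1),(4,1)]) (.cons (.leaf 1 [(3,1)]) (.cons (.leaf 1 [(3,1),(7,1),(10,1)]) (.cons (.leaf 1 []) (.cons (.leaf 1 [(4,2),(11,1)]) (.cons (.leaf 1 [(3,1)]) (.cons (.leaf 1 [(11,1)]) .nil)))))))))) (.cons (.keep [0,5,8,10] (.node (.cons (.keep [3,4,8,9,10] (.node (.cons (.leaf 1 [(3,1)]) (.cons (.leaf 1 [(3,1)]) (.cons (.leaf 1 [(3,1),(7,1)]) (.cons (.leaf 1 [(3,1),(7,1)]) (.cons (.leaf 2 [(8,1),(11,1)]) (.cons (.leaf 1 [(0,1),(11,1)]) (.cons (.leaf 1 [(8,1),(6,1),(3,1)]) (.cons (.leaf 1 [(11,1)]) .nil)))))))))) (.cons (.leaf 1 [(4,1)]) (.cons (.leaf 1 [(1,1),(10,1)]) (.cons (.leaf 1 [(4,1)]) (.cons (.keep [1,4,7,8,10] (.node (.cons (.leaf 1 [(7,1),(3,1)]) (.cons (.leaf 1 [(7,1),(3,1)]) (.cons (.leaf 1 [(3,1)]) (.cons (.leaf 1 [(3,1)]) (.cons (.leaf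 2 [(8,1),(11,1)]) (.cons (.leaf 1 [(7,1),(0,1),(11,1)]) (.cons (.leaf 1 [(8,1),(6,1),(3,1)]) (.cons (.leaf 1 [(11,1)]) .nil)))))))))) (.cons (.leaf 1 [(4,1)]) (.cons (.keep [3,7,8,9,10] (.node (.cons (.leaf 1 [(10,1),(3,1),(7,1)]) (.cons (.leaf 1 [(10,1),(3,1),(7,1)]) (.cons (.leaf 1 [(3,1),(7,1)]) (.cons (.leaf 1 [(3,1),(7,1)]) (.cons (.leaf 2 [(11,1)]) (.cons (.leaf 1 [(10,1),(0,1),(7,1),(11,1)]) (.cons (.leaf 1 [(6,1),(3,1)]) (.cons (.leaf 1 [(11,1)]) .nil)))))))))) (.cons (.leaf 1 []) .nil)))))))))) .nil)))))))))) .nil)))))))))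

theorem c_23_24_8 : Concl 23 24 z_23_24_8 h_23_24_8 .nd := piece _ hP_nil t_23_24_8 _ _ (by
  decide +kernel)

def z_23_24_9 : F := ⟨0, 0, -1, 0, 2⟩

def h_23_24_9 : List F := [⟨0, 1, 0, 0, 0⟩, ⟨-1, 1, 0, 0, 0⟩, ⟨0, 0, 1, -1, 0⟩, ⟨0, 1, -1, 0, 1⟩,
  ⟨0, -1, 0, 0, 1⟩]

def t_23_24_9 : T := (.node (.cons (.leaf 1 [(8,1),(9,1),(2,1)]) (.cons (.keep [2,4,8,9,10] (.node (.cons (.keep [6,7,8,10,11] (.node (.cons (.leaf 1 [(7,1),(3,1)]) (.cons (.leaf 1 [(4,1)]) (.cons (.leaf 1 [(3,1),(7,1)]) (.cons (.leaf 1 [(4,1)]) (.cons (.leaf 1 [(7,1)]) (.cons (.leaf 1 [(4,1)]) (.cons (.leaf 1 [(7,1),(3,1)]) (.cons (.leaf 1 []) .nil)))))))))) (.cons (.keep [2,7,8,9,10] (.node (.cons (.leaf 1 [(10,1),(3,1)]) (.cons (.leaf 1 [(4,1)]) (.cons (.leaf 1 [(3,1),(10,1)]) (.cons (.leaf 1 [(4,1)]) (.cons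 (.leaf 1 [(10,1)]) (.cons (.leaf 1 [(4,1)]) (.cons (.leaf 1 [(10,1),(3,1)]) (.cons (.leaf 1 []) .nil)))))))))) (.cons (.leaf 1 [(1,1)]) (.cons (.leaf 1 [(1,1)]) (.cons (.leaf 1 [(10,1),(1,1)]) (.cons (.leaf 1 [(10,1),(1,1)]) (.cons (.keep [1,6,8,10,11] (.node (.cons (.leaf 1 [(8,1),(3,1)]) (.cons (.leaf 1 [(4,1)]) (.cons (.leaf 1 [(3,1),(8,1)]) (.cons (.leaf 1 [(4,1)]) (.cons (.leaf 1 [(8,1)]) (.cons (.leaf 1 [(4,1)]) (.cons (.leaf 1 [(8,1),(3,1)]) (.cons (.leaf 1 []) .nil)))))))))) (.cons (.keep [0,5,8,9,10] (.node (.cons (.keep [3,4,8,10,11] (.node (.cons (.leaf 1 [(3,1)]) (.cons (.leaf 1 [(3,1)]) (.cons (.leaf 1 [(3,1),(7,1)]) (.cons (.leaf 1 [(3,1),(7,1)]) (.cons (.leaf 2 [(8,1),(11,1)]) (.cons (.leaf 1 [(0,1),(11,1)]) (.cons (.leaf 1 [(8,1),(6,1),(3,1)]) (.cons (.leaf 1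 [(11,1)]) .nil)))))))))) (.cons (.leaf 1 [(4,1)]) (.cons (.leaf 1 [(1,1),(11,1)]) (.cons (.leaf 1 [(4,1)]) (.cons (.keep [1,4,7,8,11] (.node (.cons (.leaf 1 [(7,1),(3,1)]) (.cons (.leaf 1 [(7,1),(3,1)]) (.cons (.leaf 1 [(3,1)]) (.cons (.leaf 1 [(3,1)]) (.cons (.leaf 2 [(8,1),(11,1)]) (.cons (.leaf 1 [(7,1),(0,1),(11,1)]) (.cons (.leaf 1 [(8,1),(6,1),(3,1)]) (.cons (.leaf 1 [(11,1)]) .nil)))))))))) (.cons (.leaf 1 [(4,1)]) (.cons (.keep [3,7,8,10,11] (.node (.cons (.leaf 1 [(10,1),(3,1),(7,1)]) (.cons (.leaf 1 [(10,1),(3,1),(7,1)]) (.cons (.leaf 1 [(3,1),(7,1)]) (.cons (.leaf 1 [(3,1),(7,1)]) (.cons (.leaf 2 [(11,1)]) (.cons (.leaf 1 [(10,1),(0,1),(7,1),(11,1)]) (.cons (.leaf 1 [(6,1),(3,1)]) (.cons (.leaf 1 [(11,1)]) .nil)))))))))) (.cons (.leaf 1 []) .nil)))))))))) .nil))))))))))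 (.cons (.leaf 1 [(9,1),(8,1)]) (.cons (.keep [3,4,8,9,11] (.node (.cons (.keep [6,7,8,9,10] (.node (.cons (.leaf 1 [(7,1),(3,1)]) (.cons (.leaf 1 [(4,1)]) (.cons (.leaf 1 [(3,1),(7,1)]) (.cons (.leaf 1 [(4,1)]) (.cons (.leaf 1 [(7,1)]) (.cons (.leaf 1 [(4,1)]) (.cons (.leaf 1 [(7,1),(3,1)]) (.cons (.leaf 1 []) .nil)))))))))) (.cons (.keep [2,8,9,10,11] (.node (.cons (.leaf 1 [(9,1),(8,1)]) (.cons (.leaf 1 [(4,1)]) (.cons (.leaf 1 [(1,1),(9,1),(8,1)]) (.cons (.leaf 1 [(4,1)]) (.cons (.leaf 1 [(1,2),(8,1)]) (.cons (.leaf 1 [(4,1)]) (.cons (.leaf 1 [(9,1),(8,1),(1,1)]) (.cons (.leaf 1 []) .nil)))))))))) (.cons (.leaf 1 [(1,1)]) (.cons (.leaf 1 [(1,1)]) (.cons (.leaf 1 [(10,1),(1,1)]) (.cons (.leaf 1 [(10,1),(1,1)]) (.cons (.keep [6,7,8,9,10] (.node (.cons (.leaf 1 [(7,1),(3,1)])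 (.cons (.leaf 1 [(4,1)]) (.cons (.leaf 1 [(3,1),(7,1)]) (.cons (.leaf 1 [(4,1)]) (.cons (.leaf 1 [(7,1)]) (.cons (.leaf 1 [(4,1)]) (.cons (.leaf 1 [(7,1),(3,1)]) (.cons (.leaf 1 []) .nil)))))))))) (.cons (.keep [0,5,8,9,10] (.node (.cons (.keep [3,4,8,10,11] (.node (.cons (.leaf 1 [(3,1)]) (.cons (.leaf 1 [(3,1)]) (.cons (.leaf 1 [(3,1),(7,1)]) (.cons (.leaf 1 [(3,1),(7,1)]) (.cons (.leaf 2 [(8,1),(11,1)]) (.cons (.leaf 1 [(0,1),(11,1)]) (.cons (.leaf 1 [(8,1),(6,1),(3,1)]) (.cons (.leaf 1 [(11,1)]) .nil)))))))))) (.cons (.leaf 1 [(4,1)]) (.cons (.leaf 1 [(1,1),(11,1)]) (.cons (.leaf 1 [(4,1)]) (.cons (.keep [1,4,7,8,11] (.node (.cons (.leaf 1 [(7,1),(3,1)]) (.cons (.leaf 1 [(7,1),(3,1)]) (.cons (.leaf 1 [(3,1)]) (.cons (.leaf 1 [(3,1)]) (.cons (.leaf 2 [(8,1),(11,1)]) (.cons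 (.leaf 1 [(7,1),(0,1),(11,1)]) (.cons (.leaf 1 [(8,1),(6,1),(3,1)]) (.cons (.leaf 1 [(11,1)]) .nil)))))))))) (.cons (.leaf 1 [(4,1)]) (.cons (.keep [3,7,8,10,11] (.node (.cons (.leaf 1 [(10,1),(3,1),(7,1)]) (.cons (.leaf 1 [(10,1),(3,1),(7,1)]) (.cons (.leaf 1 [(3,1),(7,1)]) (.cons (.leaf 1 [(3,1),(7,1)]) (.cons (.leaf 2 [(11,1)]) (.cons (.leaf 1 [(10,1),(0,1),(7,1),(11,1)]) (.cons (.leaf 1 [(6,1),(3,1)]) (.cons (.leaf 1 [(11,1)]) .nil)))))))))) (.cons (.leaf 1 []) .nil)))))))))) .nil)))))))))) (.cons (.leaf 1 [(1,1)]) (.cons (.leaf 1 [(1,1)]) (.cons (.leaf 1 [(9,1),(6,1),(1,1)]) (.cons (.keep [0,2,7,9,11] (.node (.cons (.keep [6,7,8,9,10] (.node (.cons (.leaf 1 [(7,1),(3,1)]) (.cons (.leaf 1 [(4,1)]) (.cons (.leaf 1 [(3,1),(7,1)]) (.cons (.leaf 1 [(4,1)]) (.cons (.leaf 1 [(7,1)])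 (.cons (.leaf 1 [(4,1)]) (.cons (.leaf 1 [(7,1),(3,1)]) (.cons (.leaf 1 []) .nil)))))))))) (.cons (.keep [4,5,7,8,10] (.node (.cons (.leaf 1 [(7,1)]) (.cons (.leaf 1 [(4,1)]) (.cons (.leaf 1 [(1,1),(7,1)]) (.cons (.leaf 1 [(4,1)]) (.cons (.leaf 1 [(1,1),(7,1)]) (.cons (.leaf 1 [(4,1)]) (.cons (.leaf 1 [(7,1),(1,1)]) (.cons (.leaf 1 []) .nil)))))))))) (.cons (.leaf 1 [(1,1)]) (.cons (.leaf 1 [(1,1)]) (.cons (.leaf 1 [(10,1),(1,1)]) (.cons (.leaf 1 [(10,1),(1,1)]) (.cons (.keep [6,7,8,9,10] (.node (.cons (.leaf 1 [(7,1),(3,1)]) (.cons (.leaf 1 [(4,1)]) (.cons (.leaf 1 [(3,1),(7,1)]) (.cons (.leaf 1 [(4,1)]) (.cons (.leaf 1 [(7,1)]) (.cons (.leaf 1 [(4,1)]) (.cons (.leaf 1 [(7,1),(3,1)]) (.cons (.leaf 1 []) .nil)))))))))) (.cons (.keep [0,5,8,10] (.node (.cons (.keep [3,4,8,9,10]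 (.node (.cons (.leaf 1 [(3,1)]) (.cons (.leaf 1 [(3,1)]) (.cons (.leaf 1 [(3,1),(7,1)]) (.cons (.leaf 1 [(3,1),(7,1)]) (.cons (.leaf 2 [(8,1),(11,1)]) (.cons (.leaf 1 [(0,1),(11,1)]) (.cons (.leaf 1 [(8,1),(6,1),(3,1)]) (.cons (.leaf 1 [(11,1)]) .nil)))))))))) (.cons (.leaf 1 [(4,1)]) (.cons (.leaf 1 [(1,1),(10,1)]) (.cons (.leaf 1 [(4,1)]) (.cons (.keep [1,4,7,8,10] (.node (.cons (.leaf 1 [(7,1),(3,1)]) (.cons (.leaf 1 [(7,1),(3,1)]) (.cons (.leaf 1 [(3,1)]) (.cons (.leaf 1 [(3,1)]) (.cons (.leaf 2 [(8,1),(11,1)]) (.cons (.leaf 1 [(7,1),(0,1),(11,1)]) (.cons (.leaf 1 [(8,1),(6,1),(3,1)]) (.cons (.leaf 1 [(11,1)]) .nil)))))))))) (.cons (.leaf 1 [(4,1)]) (.cons (.keep [3,7,8,9,10] (.node (.cons (.leaf 1 [(10,1),(3,1),(7,1)]) (.cons (.leaf 1 [(10,1),(3,1),(7,1)]) (.cons (.leaf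 1 [(3,1),(7,1)]) (.cons (.leaf 1 [(3,1),(7,1)]) (.cons (.leaf 2 [(11,1)]) (.cons (.leaf 1 [(10,1),(0,1),(7,1),(11,1)]) (.cons (.leaf 1 [(6,1),(3,1)]) (.cons (.leaf 1 [(11,1)]) .nil)))))))))) (.cons (.leaf 1 []) .nil)))))))))) .nil)))))))))) .nil)))))))))

theorem c_23_24_9 : Concl 23 24 z_23_24_9 h_23_24_9 .nd := piece _ hP_nil t_23_24_9 _ _ (by
  decide +kernel)

def z_23_24_10 : F := ⟨1, -2, 0, -1, 3⟩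

def h_23_24_10 : List F := [⟨1, 0, 0, 0, 0⟩, ⟨1, 0, 0, -1, 0⟩, ⟨0, 0, -1, 1, 0⟩, ⟨0, -1, 0, 0, 1⟩,
  ⟨-1, 1, 0, 0, 0⟩]

def t_23_24_10 : T := (.node (.cons (.leaf 1 [(11,2)]) (.cons (.keep [2,4,8,9,11] (.node (.cons (.keep [6,7,8,9,10] (.node (.cons (.leaf 1 [(7,1),(3,2),(11,1)]) (.cons (.leaf 1 [(4,1),(3,1),(11,1)]) (.cons (.leaf 1 [(3,1)]) (.cons (.leaf 1 [(3,1)]) (.cons (.leaf 1 [(7,1),(9,1),(11,1)]) (.cons (.leaf 1 [(4,1),(9,1),(11,1)]) (.cons (.leaf 1 [(7,1),(9,1),(11,1),(3,1)]) (.cons (.leaf 1 [(11,1),(9,1)]) .nil)))))))))) (.cons (.keep [7,8,9,10,11] (.node (.cons (.leaf 1 [(10,1),(11,3),(3,2)]) (.cons (.leaf 1 [(10,1),(11,1),(4,2),(5,1)]) (.cons (.leaf 1 [(3,1),(11,2)]) (.cons (.leaf 1 [(4,1),(11,1),(5,1)]) (.cons (.leaf 1 [(10,1),(11,3),(8,1)]) (.cons (.leaf 1 [(10,1),(4,3),(8,1),(5,2)])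 (.cons (.leaf 1 [(10,1),(11,3),(8,1),(3,1)]) (.cons (.leaf 1 [(10,1),(11,2),(8,1)]) .nil)))))))))) (.cons (.leaf 1 [(1,3),(10,1),(8,1)]) (.cons (.leaf 1 [(4,1),(1,1),(11,1),(10,1)]) (.cons (.leaf 1 [(1,3),(8,1)]) (.cons (.leaf 1 [(1,1),(11,1),(4,1)]) (.cons (.keep [1,6,8,9,10] (.node (.cons (.leaf 1 [(11,1),(3,1),(7,1)]) (.cons (.leaf 1 [(4,1),(3,1),(7,2),(11,1)]) (.cons (.leaf 1 [(3,1),(7,2)]) (.cons (.leaf 1 [(3,1),(7,2)]) (.cons (.leaf 1 [(11,1),(7,1)]) (.cons (.leaf 1 [(4,1),(9,1),(7,2),(11,1)]) (.cons (.leaf 1 [(11,1),(6,1),(1,1),(3,1)]) (.cons (.leaf 1 [(11,1),(9,1),(7,2)]) .nil)))))))))) (.cons (.keep [0,5,8,10,11] (.node (.cons (.keep [4,7,8,10,11] (.node (.cons (.leaf 1 [(11,1),(7,1)]) (.cons (.leaf 1 [(11,1),(4,1)]) (.cons (.leaf 1 [(1,2),(7,1)]) (.cons (.leaf 1 [(1,1),(4,1)])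 (.cons (.leaf 1 [(11,1),(1,1),(7,1)]) (.cons (.leaf 1 [(11,1),(4,1)]) (.cons (.leaf 1 [(11,1),(7,1),(1,1)]) (.cons (.leaf 1 [(11,1)]) .nil)))))))))) (.cons (.leaf 1 [(4,1),(11,1),(10,1)]) (.cons (.leaf 1 [(1,1),(11,1)]) (.cons (.leaf 1 [(1,1),(11,1)]) (.cons (.keep [1,4,7,8,10] (.node (.cons (.leaf 1 [(8,1)]) (.cons (.leaf 1 [(7,1),(4,1)]) (.cons (.leaf 1 [(1,1),(8,1)]) (.cons (.leaf 1 [(1,1),(4,1)]) (.cons (.leaf 1 [(8,1),(1,1)]) (.cons (.leaf 1 [(7,1),(4,1)]) (.cons (.leaf 1 [(8,1),(1,1)]) (.cons (.leaf 1 [(7,1)]) .nil)))))))))) (.cons (.leaf 1 [(4,1),(1,1),(10,1)]) (.cons (.keep [3,7,8,10,11] (.node (.cons (.leaf 2 [(11,2),(10,1),(3,1)]) (.cons (.leaf 1 [(11,1),(4,1)]) (.cons (.leaf 2 [(1,2),(10,1),(3,1)]) (.cons (.leaf 1 [(1,1),(4,1)]) (.cons (.leaf 2 [(11,2),(10,1)]) (.cons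 (.leaf 1 [(11,1),(4,1)]) (.cons (.leaf 2 [(11,2),(10,1),(3,1)]) (.cons (.leaf 1 [(11,1)]) .nil)))))))))) (.cons (.leaf 1 [(10,1),(11,1)]) .nil)))))))))) .nil)))))))))) (.cons (.leaf 1 [(1,1),(11,2)]) (.cons (.keep [4,8,9,10,11] (.node (.cons (.keep [6,7,8,9,10] (.node (.cons (.leaf 1 [(3,1),(7,1),(10,1)]) (.cons (.leaf 1 [(4,1),(10,1)]) (.cons (.leaf 1 [(1,1)]) (.cons (.leaf 1 [(1,1)]) (.cons (.leaf 1 [(7,1),(10,1)]) (.cons (.leaf 1 [(4,1),(10,1)]) (.cons (.leaf 1 [(3,1),(7,1),(10,1)]) (.cons (.leaf 1 [(10,1)]) .nil)))))))))) (.cons (.keep [7,8,9,10,11] (.node (.cons (.leaf 1 [(9,1),(11,3),(7,2)]) (.cons (.leaf 1 [(9,1),(11,1),(4,2),(5,1)]) (.cons (.leaf 1 [(1,1),(11,2),(7,1)]) (.cons (.leaf 1 [(4,1),(11,1),(5,1)]) (.cons (.leaf 1 [(9,1),(1,4),(7,2)]) (.cons (.leaf 1 [(9,1),(4,2),(5,1)])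 (.cons (.leaf 1 [(9,1),(11,3),(7,2),(1,1)]) (.cons (.leaf 1 [(9,1),(11,2),(7,1)]) .nil)))))))))) (.cons (.leaf 1 [(1,2),(9,1)]) (.cons (.leaf 1 [(4,1),(1,1),(11,1),(9,1)]) (.cons (.leaf 1 [(1,2)]) (.cons (.leaf 1 [(1,1),(11,1),(4,1)]) (.cons (.keep [6,7,8,9,11] (.node (.cons (.leaf 1 [(10,1)]) (.cons (.leaf 1 [(4,1),(11,2),(8,1),(10,1)]) (.cons (.leaf 1 [(1,1),(10,1)]) (.cons (.leaf 1 [(1,1),(11,2),(8,1)]) (.cons (.leaf 1 [(1,1),(10,1)]) (.cons (.leaf 1 [(4,1),(1,2),(8,1),(10,1)]) (.cons (.leaf 1 [(10,1),(1,1)]) (.cons (.leaf 1 [(10,1),(11,2),(8,1)]) .nil)))))))))) (.cons (.keep [0,5,7,9,11] (.node (.cons (.keep [4,7,8,10,11] (.node (.cons (.leaf 1 [(11,1),(7,1)]) (.cons (.leaf 1 [(11,1),(4,1)]) (.cons (.leaf 1 [(1,2),(7,1)]) (.cons (.leaf 1 [(1,1),(4,1)]) (.cons (.leaf 1 [(11,1),(1,1),(7,1)])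 (.cons (.leaf 1 [(11,1),(4,1)]) (.cons (.leaf 1 [(11,1),(7,1),(1,1)]) (.cons (.leaf 1 [(11,1)]) .nil)))))))))) (.cons (.leaf 1 [(4,1),(11,1),(10,1)]) (.cons (.leaf 1 [(1,1),(11,1)]) (.cons (.leaf 1 [(1,1),(11,1)]) (.cons (.keep [1,4,7,8,10] (.node (.cons (.leaf 1 [(8,1)]) (.cons (.leaf 1 [(7,1),(4,1)]) (.cons (.leaf 1 [(1,1),(8,1)]) (.cons (.leaf 1 [(1,1),(4,1)]) (.cons (.leaf 1 [(8,1),(1,1)]) (.cons (.leaf 1 [(7,1),(4,1)]) (.cons (.leaf 1 [(8,1),(1,1)]) (.cons (.leaf 1 [(7,1)]) .nil)))))))))) (.cons (.leaf 1 [(4,1),(1,1),(10,1)]) (.cons (.keep [3,7,8,10,11] (.node (.cons (.leaf 2 [(11,2),(10,1),(3,1)]) (.cons (.leaf 1 [(11,1),(4,1)]) (.cons (.leaf 2 [(1,2),(10,1),(3,1)]) (.cons (.leaf 1 [(1,1),(4,1)]) (.cons (.leaf 2 [(11,2),(10,1)]) (.cons (.leaf 1 [(11,1),(4,1)]) (.cons (.leaf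 2 [(11,2),(10,1),(3,1)]) (.cons (.leaf 1 [(11,1)]) .nil)))))))))) (.cons (.leaf 1 [(10,1),(11,1)]) .nil)))))))))) .nil)))))))))) (.cons (.leaf 1 [(11,2),(1,1)]) (.cons (.leaf 1 [(4,1),(9,1),(1,1),(11,2)]) (.cons (.leaf 1 [(1,1),(11,2)]) (.cons (.keep [0,2,9,10,11] (.node (.cons (.keep [6,7,8,9,11] (.node (.cons (.leaf 1 [(7,1),(3,3),(10,1)]) (.cons (.leaf 1 [(4,1),(3,2),(10,1)]) (.cons (.leaf 1 [(3,1),(11,1)]) (.cons (.leaf 1 [(3,1),(11,1)]) (.cons (.leaf 1 [(7,1),(11,2),(10,1)]) (.cons (.leaf 1 [(4,1),(11,2),(10,1)]) (.cons (.leaf 1 [(7,1),(11,2),(10,1),(3,1)]) (.cons (.leaf 1 [(10,1),(11,2)]) .nil)))))))))) (.cons (.keep [4,5,7,8,9] (.node (.cons (.leaf 1 [(11,1),(7,3)]) (.cons (.leaf 1 [(11,1),(4,3),(5,2)]) (.cons (.leaf 1 [(1,1),(7,2)]) (.cons (.leaf 1 [(4,1),(7,1),(5,1)])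 (.cons (.leaf 1 [(11,1),(1,1),(7,3)]) (.cons (.leaf 1 [(11,1),(4,1),(7,2)]) (.cons (.leaf 1 [(11,1),(7,3),(1,1)]) (.cons (.leaf 1 [(11,1),(7,2)]) .nil)))))))))) (.cons (.leaf 1 [(1,1),(9,1),(11,2)]) (.cons (.leaf 1 [(4,2),(1,1),(9,1)]) (.cons (.leaf 1 [(1,1),(11,2)]) (.cons (.leaf 1 [(1,1),(4,2)]) (.cons (.keep [6,7,8,9,11] (.node (.cons (.leaf 1 [(10,2),(3,2),(2,1)]) (.cons (.leaf 1 [(4,1),(11,2),(10,1)]) (.cons (.leaf 1 [(3,1),(11,1),(10,1)]) (.cons (.leaf 1 [(1,1),(11,2)]) (.cons (.leaf 1 [(10,1),(11,1)]) (.cons (.leaf 1 [(4,1),(11,2),(10,1)]) (.cons (.leaf 1 [(10,1),(6,1),(3,2)]) (.cons (.leaf 1 [(10,1),(11,2)]) .nil)))))))))) (.cons (.keep [0,5,8,9] (.node (.cons (.keep [3,4,7,8,9,10] (.node (.cons (.leaf 1 [(8,1)]) (.cons (.leaf 1 [(4,1)]) (.cons (.leaf 1 [(1,1),(8,1)])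 (.cons (.leaf 1 [(4,1)]) (.cons (.leaf 1 [(1,1),(8,1)]) (.cons (.leaf 1 [(4,1)]) (.cons (.leaf 1 [(8,1),(1,1)]) (.cons (.leaf 1 []) .nil)))))))))) (.cons (.leaf 1 [(4,1),(10,1)]) (.cons (.leaf 1 [(1,1)]) (.cons (.leaf 1 [(1,1)]) (.cons (.keep [1,4,7,8,10] (.node (.cons (.leaf 1 [(8,1),(2,1)]) (.cons (.leaf 1 [(4,1)]) (.cons (.leaf 1 [(8,1)]) (.cons (.leaf 1 [(4,1)]) (.cons (.leaf 1 [(8,1),(2,1)]) (.cons (.leaf 1 [(4,1)]) (.cons (.leaf 1 [(8,1),(2,1)]) (.cons (.leaf 1 []) .nil)))))))))) (.cons (.leaf 1 [(4,1),(10,1)]) (.cons (.keep [3,7,8,9,10] (.node (.cons (.leaf 2 [(11,1),(3,1)]) (.cons (.leaf 1 [(4,1)]) (.cons (.leaf 2 [(3,1),(11,1)]) (.cons (.leaf 1 [(4,1)]) (.cons (.leaf 2 [(11,1)]) (.cons (.leaf 1 [(4,1)]) (.cons (.leaf 2 [(11,1),(3,1)]) (.cons (.leaf 1 []) .nil))))))))))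 (.cons (.leaf 1 [(10,1)]) .nil)))))))))) .nil)))))))))) .nil)))))))))

theorem c_23_24_10 : Concl 23 24 z_23_24_10 h_23_24_10 .nd := piece _ hP_nil t_23_24_10 _ _ (by
  decide +kernel)

end Pool.Agent.H4.RD4.E51
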