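import Pool.Agent.H4.RD4.Chk

/-! # Certificates for special cases of order four -/

set_option maxRecDepth 20000

namespace Pool.Agent.H4.RD4.E60

open Pool.Agent.H50.Rdb
open Pool.Agent.H81.RDE (ESB caseOf)

def z_30_24_0 : F := ⟨0, -1, 0, -1, 3⟩

def h_30_24_0 : List F := [⟨1, -1, 0, 0, 0⟩, ⟨1, 0, 0, -1, 0⟩, ⟨0, 0, -1, 1, 0⟩, ⟨0, 1, -1, 0, 0⟩,
  ⟨-1, 0, 0, 0, 1⟩]

def t_30_24_0 : T := (.node (.cons (.keep [3,6,8,9,11] (.node (.cons (.leaf 1 [(3,2),(11,1)]) (.cons (.leaf 1 [(4,2),(11,1)]) (.cons (.leaf 1 [(11,1),(3,2)]) (.cons (.leaf 1 [(11,1),(4,2)]) (.cons (.leaf 1 [(11,1)]) (.cons (.leaf 1 [(11,1),(4,2)]) (.cons (.leaf 1 [(11,1),(3,2)]) (.cons (.leaf 1 [(11,1)]) .nil)))))))))) (.cons (.keep [4,5,7,9,11] (.node (.cons (.leaf 1 [(3,3),(11,1),(10,1)]) (.cons (.leaf 1 [(4,2),(3,1),(11,1),(10,1)])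 (.cons (.leaf 1 [(11,1),(3,3)]) (.cons (.leaf 1 [(3,1),(11,1),(4,2)]) (.cons (.keep [2,4,7,10,11] (.node (.cons (.leaf 1 [(3,1),(10,1)]) (.cons (.leaf 1 [(4,1),(10,1)]) (.cons (.leaf 1 [(3,1),(10,1)]) (.cons (.leaf 1 [(4,1),(10,1)]) (.cons (.leaf 1 [(10,1)]) (.cons (.leaf 1 [(4,1),(10,1)]) (.cons (.leaf 1 [(3,1),(10,1)]) (.cons (.leaf 1 [(10,1)]) .nil)))))))))) (.cons (.keep [2,4,9,10,11] (.node (.cons (.leaf 1 [(3,2),(10,1),(7,1)]) (.cons (.leaf 1 [(3,1),(4,1),(7,1),(10,1)]) (.cons (.leaf 1 [(10,1),(3,2)]) (.cons (.leaf 1 [(4,1),(3,1),(10,1)]) (.cons (.leaf 1 [(10,1),(8,1)]) (.cons (.leaf 1 [(4,1),(8,1),(10,1)]) (.cons (.leaf 1 [(10,1),(8,1),(3,1)]) (.cons (.leaf 1 [(10,1),(8,1)]) .nil)))))))))) (.cons (.keep [3,8,9,10,11] (.node (.cons (.leaf 1 [(2,1),(10,1)]) (.cons (.leaf 1 [(4,1),(7,1),(10,1)])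 (.cons (.leaf 1 [(10,1)]) (.cons (.leaf 1 [(4,1),(7,1),(10,1)]) (.cons (.leaf 1 [(10,1),(2,1)]) (.cons (.leaf 1 [(4,1),(2,1),(10,1)]) (.cons (.leaf 1 [(10,1),(2,1)]) (.cons (.leaf 1 [(10,1),(7,1)]) .nil)))))))))) (.cons (.keep [0,3,7,10,11] (.node (.cons (.leaf 1 [(3,1),(10,1)]) (.cons (.leaf 1 [(4,1),(10,1)]) (.cons (.leaf 1 [(3,1),(10,1)]) (.cons (.leaf 1 [(4,1),(10,1)]) (.cons (.leaf 1 [(10,1)]) (.cons (.leaf 1 [(4,1),(10,1)]) (.cons (.leaf 1 [(3,1),(10,1)]) (.cons (.leaf 1 [(10,1)]) .nil)))))))))) .nil)))))))))) (.cons (.keep [1,3,6,8,9,10] (.node (.cons (.leaf 1 [(3,1),(7,1),(9,1)]) (.cons (.leaf 1 [(4,2),(7,1),(11,1)]) (.cons (.leaf 1 [(7,1),(1,1),(3,2)]) (.cons (.leaf 1 [(7,1),(1,1),(4,2)]) (.cons (.leaf 1 [(7,1),(9,1),(1,1)]) (.cons (.leaf 1 [(7,1),(1,1),(4,2),(9,1)]) (.cons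 (.leaf 1 [(7,1),(9,1),(3,1),(1,1)]) (.cons (.leaf 1 [(7,1),(11,1)]) .nil)))))))))) (.cons (.keep [1,4,5,8,9,10] (.node (.cons (.leaf 1 [(3,2),(7,1),(11,1)]) (.cons (.leaf 1 [(4,2),(7,1),(11,1)]) (.cons (.leaf 1 [(7,1),(1,1),(3,2)]) (.cons (.leaf 1 [(7,1),(1,1),(4,2)]) (.cons (.leaf 1 [(7,1),(11,1)]) (.cons (.leaf 1 [(7,1),(4,2),(11,1)]) (.cons (.leaf 1 [(7,1),(11,1),(3,2)]) (.cons (.leaf 1 [(7,1),(11,1)]) .nil)))))))))) (.cons (.keep [1,4,8,10] (.node (.cons (.leaf 1 [(3,2),(7,1)]) (.cons (.leaf 1 [(4,2),(7,1)]) (.cons (.leaf 1 [(7,1),(3,2)]) (.cons (.leaf 1 [(7,1),(4,2)]) (.cons (.leaf 1 [(7,1)]) (.cons (.leaf 1 [(7,1),(4,2)]) (.cons (.leaf 1 [(7,1),(3,2)]) (.cons (.leaf 1 [(7,1)]) .nil)))))))))) (.cons (.keep [1,4,5,8,10] (.node (.cons (.leaf 1 [(3,2),(7,1)]) (.cons (.leaf 1 [(4,2),(7,1)])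 (.cons (.leaf 1 [(7,1),(3,2)]) (.cons (.leaf 1 [(7,1),(4,2)]) (.cons (.leaf 1 [(7,1)]) (.cons (.leaf 1 [(7,1),(4,2)]) (.cons (.leaf 1 [(7,1),(3,2)]) (.cons (.leaf 1 [(7,1)]) .nil)))))))))) (.cons (.keep [1,3,6,8,10] (.node (.cons (.leaf 1 [(3,2),(7,1),(9,1)]) (.cons (.leaf 1 [(4,2),(9,1),(7,1)]) (.cons (.leaf 1 [(7,1),(3,3)]) (.cons (.leaf 1 [(3,1),(7,1),(4,2)]) (.cons (.leaf 1 [(9,1),(7,1)]) (.cons (.leaf 1 [(7,1),(4,2),(9,1)]) (.cons (.leaf 1 [(9,1),(3,2),(7,1)]) (.cons (.leaf 1 [(9,1),(7,1)]) .nil)))))))))) (.cons (.keep [0,1,3,7,8,9,10] (.node (.cons (.leaf 1 [(3,3),(8,1),(12,1)]) (.cons (.leaf 1 [(4,2),(3,1),(8,1),(12,1)]) (.cons (.leaf 1 [(8,1),(3,3)]) (.cons (.leaf 1 [(3,1),(8,1),(4,2)]) (.cons (.keep [4,7,8,12] (.node (.cons (.leaf 1 [(2,1),(9,1)]) (.cons (.leaf 1 [(2,1),(9,1)])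 (.cons (.leaf 1 [(3,1),(10,1)]) (.cons (.leaf 1 [(4,1),(10,1)]) (.cons (.leaf 1 [(10,1)]) (.cons (.leaf 1 [(4,1),(10,1)]) (.cons (.leaf 1 [(3,1),(10,1)]) (.cons (.leaf 1 [(10,1)]) .nil)))))))))) (.cons (.keep [4,5,7,8,12] (.node (.cons (.leaf 1 [(3,1),(10,1),(7,1)]) (.cons (.leaf 1 [(3,1),(7,1),(10,1)]) (.cons (.leaf 1 [(11,1),(3,2)]) (.cons (.leaf 1 [(4,1),(3,1),(11,1)]) (.cons (.leaf 1 [(11,1),(7,1)]) (.cons (.leaf 1 [(4,1),(7,1),(11,1)]) (.cons (.leaf 1 [(11,1),(7,1),(3,1)]) (.cons (.leaf 1 [(11,1),(7,1)]) .nil)))))))))) (.cons (.keep [3,6,7,8,12] (.node (.cons (.leaf 1 [(2,1),(7,2),(10,1)]) (.cons (.leaf 1 [(2,1),(7,2),(10,1)]) (.cons (.leaf 1 [(11,1)]) (.cons (.leaf 1 [(4,1),(7,1),(11,1)]) (.cons (.leaf 1 [(11,1),(2,1)]) (.cons (.leaf 1 [(4,1),(2,1),(11,1)]) (.cons (.leaf 1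 [(11,1),(2,1)]) (.cons (.leaf 1 [(11,1),(7,1)]) .nil)))))))))) (.cons (.keep [0,3,8,12] (.node (.cons (.leaf 1 [(2,1),(9,1)]) (.cons (.leaf 1 [(2,1),(9,1)]) (.cons (.leaf 1 [(3,1),(10,1)]) (.cons (.leaf 1 [(4,1),(10,1)]) (.cons (.leaf 1 [(10,1)]) (.cons (.leaf 1 [(4,1),(10,1)]) (.cons (.leaf 1 [(3,1),(10,1)]) (.cons (.leaf 1 [(10,1)]) .nil)))))))))) .nil)))))))))) .nil)))))))))

theorem c_30_24_0 : Concl 30 24 z_30_24_0 h_30_24_0 .nd := piece _ hP_nil t_30_24_0 _ _ (by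
  decide +kernel)

def z_30_24_2 : F := ⟨1, -1, 0, -1, 2⟩

def h_30_24_2 : List F := [⟨1, -1, 0, 0, 0⟩, ⟨1, 0, 0, -1, 0⟩, ⟨0, 0, -1, 1, 0⟩, ⟨0, 0, 0, -1, 1⟩,
  ⟨0, 1, -1, 0, 0⟩, ⟨0, -1, 0, 0, 1⟩]

def t_30_24_2 : T := (.node (.cons (.keep [3,6,9,12] (.node (.cons (.keep [2,6,7,8,10] (.node (.cons (.leaf 1 [(3,2),(11,2),(2,2)]) (.cons (.leaf 1 [(4,2),(11,2),(2,2)]) (.cons (.leaf 1 [(10,2),(3,2),(11,2)]) (.cons (.leaf 1 [(10,2),(4,2),(11,2)]) (.cons (.leaf 1 [(10,2),(11,2)]) (.cons (.leaf 1 [(10,2),(11,2),(4,2)]) (.cons (.leaf 1 [(10,2),(11,2),(3,2)]) (.cons (.leaf 1 [(10,2),(11,2)]) .nil)))))))))) (.cons (.keep [2,4,7,8,9,10] (.node (.cons (.leaf 1 [(3,2),(11,2)]) (.cons (.leaf 1 [(4,2),(11,2)]) (.cons (.leaf 1 [(3,2),(11,2)]) (.cons (.leaf 1 [(4,2),(11,2)]) (.cons (.leaf 1 [(11,2)])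 (.cons (.leaf 1 [(4,2),(11,2)]) (.cons (.leaf 1 [(3,2),(11,2)]) (.cons (.leaf 1 [(11,2)]) .nil)))))))))) (.cons (.keep [1,3,6,7,10] (.node (.cons (.leaf 1 [(3,2),(7,2)]) (.cons (.leaf 1 [(4,2),(7,2)]) (.cons (.leaf 1 [(3,2),(7,2)]) (.cons (.leaf 1 [(4,2),(7,2)]) (.cons (.leaf 1 [(7,2)]) (.cons (.leaf 1 [(4,2),(7,2)]) (.cons (.leaf 1 [(3,2),(7,2)]) (.cons (.leaf 1 [(7,2)]) .nil)))))))))) (.cons (.keep [1,4,5,7,10] (.node (.cons (.leaf 1 [(3,2),(7,2)]) (.cons (.leaf 1 [(4,2),(7,2)]) (.cons (.leaf 1 [(3,2),(7,2)]) (.cons (.leaf 1 [(4,2),(7,2)]) (.cons (.leaf 1 [(7,2)]) (.cons (.leaf 1 [(4,2),(7,2)]) (.cons (.leaf 1 [(3,2),(7,2)]) (.cons (.leaf 1 [(7,2)]) .nil)))))))))) (.cons (.keep [2,4,7,8,9] (.node (.cons (.leaf 1 [(3,2),(11,2)]) (.cons (.leaf 1 [(4,2),(11,2)]) (.cons (.leaf 1 [(3,2),(11,2)])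 (.cons (.leaf 1 [(4,2),(11,2)]) (.cons (.leaf 1 [(11,2)]) (.cons (.leaf 1 [(4,2),(11,2)]) (.cons (.leaf 1 [(3,2),(11,2)]) (.cons (.leaf 1 [(11,2)]) .nil)))))))))) (.cons (.keep [2,4,5,7,8,9] (.node (.cons (.leaf 1 [(3,2),(12,2)]) (.cons (.leaf 1 [(4,2),(12,2)]) (.cons (.leaf 1 [(3,2),(12,2)]) (.cons (.leaf 1 [(4,2),(12,2)]) (.cons (.leaf 1 [(12,2)]) (.cons (.leaf 1 [(4,2),(12,2)]) (.cons (.leaf 1 [(3,2),(12,2)]) (.cons (.leaf 1 [(12,2)]) .nil)))))))))) (.cons (.keep [2,6,7,8,9] (.node (.cons (.leaf 1 [(3,2),(11,2)]) (.cons (.leaf 1 [(4,2),(11,2)]) (.cons (.leaf 1 [(3,2),(11,2)]) (.cons (.leaf 1 [(4,2),(11,2)]) (.cons (.leaf 1 [(11,2)]) (.cons (.leaf 1 [(4,2),(11,2)]) (.cons (.leaf 1 [(3,2),(11,2)]) (.cons (.leaf 1 [(11,2)]) .nil)))))))))) (.cons (.keep [0,2,8,9] (.node (.cons (.leaf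 1 [(3,2),(10,2)]) (.cons (.leaf 1 [(4,2),(10,2)]) (.cons (.leaf 1 [(3,2),(10,2)]) (.cons (.leaf 1 [(4,2),(10,2)]) (.cons (.leaf 1 [(10,2)]) (.cons (.leaf 1 [(4,2),(10,2)]) (.cons (.leaf 1 [(3,2),(10,2)]) (.cons (.leaf 1 [(10,2)]) .nil)))))))))) .nil)))))))))) (.cons (.keep [4,5,9,12] (.node (.cons (.keep [3,6,7,8,9] (.node (.cons (.leaf 1 [(3,1),(8,1),(11,2)]) (.cons (.leaf 1 [(4,2),(10,1),(11,2)]) (.cons (.leaf 1 [(3,2),(1,1),(11,2)]) (.cons (.leaf 1 [(4,2),(1,1),(11,2)]) (.cons (.leaf 1 [(11,2),(8,1),(1,1)]) (.cons (.leaf 1 [(4,2),(8,1),(1,1),(11,2)]) (.cons (.leaf 1 [(3,1),(8,1),(11,2),(1,1)]) (.cons (.leaf 1 [(11,2),(10,1)]) .nil)))))))))) (.cons (.keep [4,5,7,8,9] (.node (.cons (.leaf 1 [(3,2),(10,1),(11,2)]) (.cons (.leaf 1 [(4,2),(10,1),(11,2)]) (.cons (.leaf 1 [(3,2),(1,1),(11,2)])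 (.cons (.leaf 1 [(4,2),(1,1),(11,2)]) (.cons (.leaf 1 [(11,2),(10,1)]) (.cons (.leaf 1 [(4,2),(10,1),(11,2)]) (.cons (.leaf 1 [(3,2),(10,1),(11,2)]) (.cons (.leaf 1 [(11,2),(10,1)]) .nil)))))))))) (.cons (.keep [1,3,6,7,8] (.node (.cons (.leaf 1 [(3,1),(9,1),(7,2)]) (.cons (.leaf 1 [(4,2),(11,1),(7,2)]) (.cons (.leaf 1 [(3,2),(1,1),(7,2)]) (.cons (.leaf 1 [(4,2),(1,1),(7,2)]) (.cons (.leaf 1 [(7,2),(9,1),(1,1)]) (.cons (.leaf 1 [(4,2),(9,1),(1,1),(7,2)]) (.cons (.leaf 1 [(3,1),(9,1),(7,2),(1,1)]) (.cons (.leaf 1 [(7,2),(11,1)]) .nil)))))))))) (.cons (.keep [1,4,5,7,8] (.node (.cons (.leaf 1 [(3,2),(11,1),(7,2)]) (.cons (.leaf 1 [(4,2),(11,1),(7,2)]) (.cons (.leaf 1 [(3,2),(1,1),(7,2)]) (.cons (.leaf 1 [(4,2),(1,1),(7,2)]) (.cons (.leaf 1 [(7,2),(11,1)]) (.cons (.leaf 1 [(4,2),(11,1),(7,2)])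 (.cons (.leaf 1 [(3,2),(11,1),(7,2)]) (.cons (.leaf 1 [(7,2),(11,1)]) .nil)))))))))) (.cons (.keep [2,4,7,9] (.node (.cons (.leaf 1 [(3,2),(7,1),(10,2)]) (.cons (.leaf 1 [(4,2),(7,1),(10,2)]) (.cons (.leaf 1 [(3,2),(1,1),(10,2)]) (.cons (.leaf 1 [(4,2),(1,1),(10,2)]) (.cons (.leaf 1 [(10,2),(7,1)]) (.cons (.leaf 1 [(4,2),(7,1),(10,2)]) (.cons (.leaf 1 [(3,2),(7,1),(10,2)]) (.cons (.leaf 1 [(10,2),(7,1)]) .nil)))))))))) (.cons (.keep [2,4,5,7,9] (.node (.cons (.leaf 1 [(3,2),(7,1),(11,2)]) (.cons (.leaf 1 [(4,2),(7,1),(11,2)]) (.cons (.leaf 1 [(3,2),(1,1),(11,2)]) (.cons (.leaf 1 [(4,2),(1,1),(11,2)]) (.cons (.leaf 1 [(11,2),(7,1)]) (.cons (.leaf 1 [(4,2),(7,1),(11,2)]) (.cons (.leaf 1 [(3,2),(7,1),(11,2)]) (.cons (.leaf 1 [(11,2),(7,1)]) .nil)))))))))) (.cons (.keep [3,6,7,8,9] (.node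 (.cons (.leaf 1 [(3,1),(8,1),(11,2)]) (.cons (.leaf 1 [(4,2),(10,1),(11,2)]) (.cons (.leaf 1 [(3,2),(1,1),(11,2)]) (.cons (.leaf 1 [(4,2),(1,1),(11,2)]) (.cons (.leaf 1 [(11,2),(8,1),(1,1)]) (.cons (.leaf 1 [(4,2),(8,1),(1,1),(11,2)]) (.cons (.leaf 1 [(3,1),(8,1),(11,2),(1,1)]) (.cons (.leaf 1 [(11,2),(10,1)]) .nil)))))))))) (.cons (.keep [0,3,7,8,9] (.node (.cons (.leaf 1 [(3,2),(10,1),(11,2)]) (.cons (.leaf 1 [(4,2),(10,1),(11,2)]) (.cons (.leaf 1 [(3,2),(1,1),(11,2)]) (.cons (.leaf 1 [(4,2),(1,1),(11,2)]) (.cons (.leaf 1 [(11,2),(10,1)]) (.cons (.leaf 1 [(4,2),(10,1),(11,2)]) (.cons (.leaf 1 [(3,2),(10,1),(11,2)]) (.cons (.leaf 1 [(11,2),(10,1)]) .nil)))))))))) .nil)))))))))) (.cons (.keep [1,3,6,9,11,12] (.node (.cons (.leaf 1 [(7,1),(9,2)]) (.cons (.leaf 1 [(4,2),(7,1),(10,2)])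 (.cons (.leaf 1 [(1,2),(7,1),(3,2)]) (.cons (.leaf 1 [(1,2),(7,1),(4,2)]) (.cons (.leaf 1 [(9,2),(7,1),(1,2)]) (.cons (.leaf 1 [(1,2),(7,1),(4,2),(9,2)]) (.cons (.leaf 1 [(1,2),(7,1),(9,2)]) (.cons (.leaf 1 [(10,2),(7,1)]) .nil)))))))))) (.cons (.keep [1,4,5,9,11,12] (.node (.cons (.leaf 1 [(3,1),(10,1),(7,1)]) (.cons (.leaf 1 [(4,2),(10,2),(7,1),(9,1)]) (.cons (.leaf 1 [(1,2),(3,1),(7,1)]) (.cons (.leaf 1 [(1,2),(4,2),(7,1),(9,1)]) (.cons (.leaf 1 [(1,1),(10,1),(7,1)]) (.cons (.leaf 1 [(1,1),(7,1),(4,2),(10,1)]) (.cons (.leaf 1 [(1,1),(10,1),(7,1),(3,1)]) (.cons (.leaf 1 [(10,2),(7,1),(9,1)]) .nil)))))))))) (.cons (.keep [1,4,8,11] (.node (.cons (.leaf 1 [(3,2),(7,1)]) (.cons (.leaf 1 [(4,2),(7,1)]) (.cons (.leaf 1 [(7,1),(3,2)]) (.cons (.leaf 1 [(7,1),(4,2)]) (.cons (.leaf 1 [(7,1)])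 (.cons (.leaf 1 [(7,1),(4,2)]) (.cons (.leaf 1 [(7,1),(3,2)]) (.cons (.leaf 1 [(7,1)]) .nil)))))))))) (.cons (.keep [1,4,5,10,11] (.node (.cons (.leaf 1 [(3,1),(7,1),(2,1)]) (.cons (.leaf 1 [(4,2),(7,1),(9,1)]) (.cons (.leaf 1 [(3,1),(7,1)]) (.cons (.leaf 1 [(4,2),(7,1),(9,1)]) (.cons (.leaf 1 [(7,1),(2,1)]) (.cons (.leaf 1 [(7,1),(2,1),(4,2)]) (.cons (.leaf 1 [(7,1),(2,1),(3,1)]) (.cons (.leaf 1 [(7,1),(9,1)]) .nil)))))))))) (.cons (.keep [1,3,6,10,11] (.node (.cons (.leaf 1 [(3,2),(7,1),(9,2)]) (.cons (.leaf 1 [(4,2),(7,1),(9,2)]) (.cons (.leaf 1 [(7,1),(3,4)]) (.cons (.leaf 1 [(7,1),(3,2),(4,2)]) (.cons (.leaf 1 [(7,1),(9,2)]) (.cons (.leaf 1 [(7,1),(4,2),(9,2)]) (.cons (.leaf 1 [(7,1),(9,2),(3,2)]) (.cons (.leaf 1 [(7,1),(9,2)]) .nil)))))))))) (.cons (.keep [0,1,3,7,8,9,11] (.node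 (.cons (.leaf 1 [(3,3),(8,1),(12,1)]) (.cons (.leaf 1 [(4,2),(3,1),(8,1),(12,1)]) (.cons (.leaf 1 [(8,1),(3,3)]) (.cons (.leaf 1 [(3,1),(8,1),(4,2)]) (.cons (.keep [4,7,8,12] (.node (.cons (.leaf 1 [(2,1),(9,1)]) (.cons (.leaf 1 [(2,1),(9,1)]) (.cons (.leaf 1 [(3,1),(10,1)]) (.cons (.leaf 1 [(4,1),(10,1)]) (.cons (.leaf 1 [(10,1)]) (.cons (.leaf 1 [(4,1),(10,1)]) (.cons (.leaf 1 [(3,1),(10,1)]) (.cons (.leaf 1 [(10,1)]) .nil)))))))))) (.cons (.keep [4,5,7,8,12] (.node (.cons (.leaf 1 [(3,1),(10,1),(7,1)]) (.cons (.leaf 1 [(3,1),(7,1),(10,1)]) (.cons (.leaf 1 [(11,1),(3,2)]) (.cons (.leaf 1 [(4,1),(3,1),(11,1)]) (.cons (.leaf 1 [(11,1),(7,1)]) (.cons (.leaf 1 [(4,1),(7,1),(11,1)]) (.cons (.leaf 1 [(11,1),(7,1),(3,1)]) (.cons (.leaf 1 [(11,1),(7,1)]) .nil)))))))))) (.cons (.keep [3,6,7,8,12]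 (.node (.cons (.leaf 1 [(2,1),(7,2),(10,1)]) (.cons (.leaf 1 [(2,1),(7,2),(10,1)]) (.cons (.leaf 1 [(11,1)]) (.cons (.leaf 1 [(4,1),(7,1),(11,1)]) (.cons (.leaf 1 [(11,1),(2,1)]) (.cons (.leaf 1 [(4,1),(2,1),(11,1)]) (.cons (.leaf 1 [(11,1),(2,1)]) (.cons (.leaf 1 [(11,1),(7,1)]) .nil)))))))))) (.cons (.keep [0,3,8,12] (.node (.cons (.leaf 1 [(2,1),(9,1)]) (.cons (.leaf 1 [(2,1),(9,1)]) (.cons (.leaf 1 [(3,1),(10,1)]) (.cons (.leaf 1 [(4,1),(10,1)]) (.cons (.leaf 1 [(10,1)]) (.cons (.leaf 1 [(4,1),(10,1)]) (.cons (.leaf 1 [(3,1),(10,1)]) (.cons (.leaf 1 [(10,1)]) .nil)))))))))) .nil)))))))))) .nil)))))))))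

theorem c_30_24_2 : Concl 30 24 z_30_24_2 h_30_24_2 .nd := piece _ hP_nil t_30_24_2 _ _ (by
  decide +kernel)

def z_30_24_3 : F := ⟨1, 0, -2, 0, 2⟩

def h_30_24_3 : List F := [⟨1, 0, -1, 0, 0⟩, ⟨0, 0, 1, -1, 0⟩, ⟨0, 0, -1, 0, 1⟩, ⟨0, -1, 1, 0, 0⟩]

def t_30_24_3 : T := (.node (.cons (.keep [2,6,8,9,10] (.node (.cons (.leaf 1 [(3,1),(8,1),(11,3)]) (.cons (.keep [2,4,8,10,11] (.node (.cons (.leaf 1 [(3,2),(11,2)]) (.cons (.leaf 1 [(3,1),(11,2),(4,1)]) (.cons (.leaf 1 [(9,1),(3,2),(11,2)]) (.cons (.leaf 1 [(3,1),(4,1),(11,2),(9,1)]) (.cons (.keep [4,7,8,9,11] (.node (.cons (.leaf 1 [(3,1),(11,1)]) (.cons (.leaf 1 [(4,1),(11,1)]) (.cons (.leaf 1 [(11,1),(3,1)]) (.cons (.leaf 1 [(11,1),(4,1)]) (.cons (.leaf 1 [(11,1)]) (.cons (.leaf 1 [(11,1),(4,1)]) (.cons (.leaf 1 [(11,1),(3,1)])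 (.cons (.leaf 1 [(11,1)]) .nil)))))))))) (.cons (.keep [5,7,8,9,11] (.node (.cons (.leaf 1 [(3,2),(11,1),(8,1)]) (.cons (.leaf 1 [(4,2),(11,1),(8,1)]) (.cons (.leaf 1 [(11,1),(3,2)]) (.cons (.leaf 1 [(11,1),(3,1),(4,1)]) (.cons (.leaf 1 [(11,1),(8,1)]) (.cons (.leaf 1 [(11,1),(4,2),(8,1)]) (.cons (.leaf 1 [(11,1),(8,1),(3,2)]) (.cons (.leaf 1 [(11,1),(8,1)]) .nil)))))))))) (.cons (.keep [6,7,8,9,11] (.node (.cons (.leaf 1 [(2,1),(11,1)]) (.cons (.leaf 1 [(4,2),(11,1),(8,1)]) (.cons (.leaf 1 [(11,1)]) (.cons (.leaf 1 [(4,2),(11,1),(8,1)]) (.cons (.leaf 1 [(11,1),(2,1)]) (.cons (.leaf 1 [(11,1),(2,1),(4,1)]) (.cons (.leaf 1 [(11,1),(2,1)]) (.cons (.leaf 1 [(11,1),(8,1)]) .nil)))))))))) (.cons (.keep [0,3,8,9,11] (.node (.cons (.leaf 1 [(3,1),(11,1)]) (.cons (.leaf 1 [(4,1),(11,1)])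 (.cons (.leaf 1 [(11,1),(3,1)]) (.cons (.leaf 1 [(11,1),(4,1)]) (.cons (.leaf 1 [(11,1)]) (.cons (.leaf 1 [(11,1),(4,1)]) (.cons (.leaf 1 [(11,1),(3,1)]) (.cons (.leaf 1 [(11,1)]) .nil)))))))))) .nil)))))))))) (.cons (.leaf 1 [(3,2),(1,1),(11,3)]) (.cons (.leaf 1 [(4,2),(1,1),(11,3)]) (.cons (.leaf 1 [(11,3),(8,1),(1,1)]) (.cons (.leaf 1 [(4,2),(8,1),(11,3),(1,1)]) (.cons (.leaf 1 [(2,1),(1,1),(11,3),(8,2)]) (.cons (.keep [0,1,7,8,11] (.node (.cons (.leaf 1 [(8,1),(3,4)]) (.cons (.leaf 1 [(3,1),(8,1),(4,3)]) (.cons (.leaf 1 [(8,1),(3,4),(10,1)]) (.cons (.leaf 1 [(3,1),(4,3),(8,1),(10,1)]) (.cons (.keep [4,7,8,10] (.node (.cons (.leaf 1 [(3,1)]) (.cons (.leaf 1 [(4,1)]) (.cons (.leaf 1 [(3,1)]) (.cons (.leaf 1 [(4,1)]) (.cons (.leaf 1 []) (.cons (.leaf 1 [(4,1)]) (.cons (.leaf 1 [(3,1)])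 (.cons (.leaf 1 []) .nil)))))))))) (.cons (.keep [4,5,7,8,10] (.node (.cons (.leaf 1 [(3,1),(7,2)]) (.cons (.leaf 1 [(4,1),(7,2)]) (.cons (.leaf 1 [(3,3)]) (.cons (.leaf 1 [(4,1),(3,2)]) (.cons (.leaf 1 [(7,2)]) (.cons (.leaf 1 [(4,1),(7,2)]) (.cons (.leaf 1 [(7,2),(3,1)]) (.cons (.leaf 1 [(7,2)]) .nil)))))))))) (.cons (.keep [3,6,7,8,10] (.node (.cons (.leaf 1 [(2,1),(7,1)]) (.cons (.leaf 1 [(4,1),(7,2)]) (.cons (.leaf 1 [(7,1)]) (.cons (.leaf 1 [(7,2),(4,1)]) (.cons (.leaf 1 [(2,2)]) (.cons (.leaf 1 [(2,2),(4,1)]) (.cons (.leaf 1 [(6,1),(2,2)]) (.cons (.leaf 1 [(7,2)]) .nil)))))))))) (.cons (.keep [0,3,8,10] (.node (.cons (.leaf 1 [(3,1)]) (.cons (.leaf 1 [(4,1)]) (.cons (.leaf 1 [(3,1)]) (.cons (.leaf 1 [(4,1)]) (.cons (.leaf 1 []) (.cons (.leaf 1 [(4,1)]) (.cons (.leaf 1 [(3,1)])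 (.cons (.leaf 1 []) .nil)))))))))) .nil)))))))))) .nil)))))))))) (.cons (.keep [2,4,5,9,10] (.node (.cons (.leaf 1 [(3,1),(11,3)]) (.cons (.keep [4,8,9,10,11] (.node (.cons (.leaf 1 [(3,2),(9,1),(11,2)]) (.cons (.leaf 1 [(4,1),(3,1),(11,2),(9,1)]) (.cons (.leaf 1 [(3,2),(11,2)]) (.cons (.leaf 1 [(3,1),(11,2),(4,1)]) (.cons (.keep [4,7,8,9,11] (.node (.cons (.leaf 1 [(3,1),(7,1),(10,2)]) (.cons (.leaf 1 [(4,1),(11,1),(10,1)]) (.cons (.leaf 1 [(3,2),(1,1),(10,2)]) (.cons (.leaf 1 [(4,2),(1,1),(10,2)]) (.cons (.leaf 1 [(10,2),(7,1),(1,1)]) (.cons (.leaf 1 [(4,2),(7,1),(1,1),(10,2)]) (.cons (.leaf 1 [(3,1),(7,1),(10,2),(1,1)]) (.cons (.leaf 1 [(10,1),(11,1)]) .nil)))))))))) (.cons (.keep [5,7,8,9,11] (.node (.cons (.leaf 1 [(3,1),(11,2)]) (.cons (.leaf 1 [(3,1),(11,2)]) (.cons (.leaf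 1 [(10,2),(1,1),(3,3)]) (.cons (.leaf 1 [(4,2),(1,1),(3,1),(10,2)]) (.cons (.leaf 1 [(10,1),(11,2),(8,1)]) (.cons (.leaf 1 [(4,1),(11,2),(8,1),(10,1)]) (.cons (.leaf 1 [(10,1),(11,2),(8,1),(3,1)]) (.cons (.leaf 1 [(10,1),(11,2),(8,1)]) .nil)))))))))) (.cons (.keep [6,7,8,9,11] (.node (.cons (.leaf 1 [(3,1),(10,2)]) (.cons (.leaf 1 [(4,1),(11,2),(8,1),(10,1)]) (.cons (.leaf 1 [(10,2),(3,1),(1,1)]) (.cons (.leaf 1 [(4,3),(1,2),(8,1),(10,3)]) (.cons (.leaf 1 [(10,2),(1,1)]) (.cons (.leaf 1 [(4,2),(1,1),(10,2)]) (.cons (.leaf 1 [(10,2),(1,1),(3,1)]) (.cons (.leaf 1 [(10,1),(11,2),(8,1)]) .nil)))))))))) (.cons (.keep [0,3,7,9,11] (.node (.cons (.leaf 1 [(3,1),(11,1),(10,1)]) (.cons (.leaf 1 [(4,1),(11,1),(10,1)]) (.cons (.leaf 1 [(3,2),(1,1),(10,2)]) (.cons (.leaf 1 [(4,2),(1,1),(10,2)])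 (.cons (.leaf 1 [(10,1),(11,1)]) (.cons (.leaf 1 [(4,1),(11,1),(10,1)]) (.cons (.leaf 1 [(3,1),(11,1),(10,1)]) (.cons (.leaf 1 [(10,1),(11,1)]) .nil)))))))))) .nil)))))))))) (.cons (.leaf 1 [(3,1),(11,3),(1,1)]) (.cons (.leaf 1 [(4,2),(11,3),(9,1),(1,1)]) (.cons (.leaf 1 [(11,3),(1,1)]) (.cons (.leaf 1 [(4,2),(1,1),(11,3)]) (.cons (.leaf 1 [(3,1),(1,1),(11,3)]) (.cons (.keep [0,1,7,9,11] (.node (.cons (.leaf 1 [(3,4),(8,1),(10,1)]) (.cons (.leaf 1 [(4,3),(3,1),(8,1),(10,1)]) (.cons (.leaf 1 [(8,1),(3,4)]) (.cons (.leaf 1 [(3,1),(8,1),(4,3)]) (.cons (.keep [4,7,8,10] (.node (.cons (.leaf 1 [(2,1),(9,1)]) (.cons (.leaf 1 [(2,1),(9,1)]) (.cons (.leaf 1 [(3,1),(10,1)]) (.cons (.leaf 1 [(4,1),(10,1)]) (.cons (.leaf 1 [(10,1)]) (.cons (.leaf 1 [(4,1),(10,1)]) (.cons (.leaf 1 [(3,1),(10,1)])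 (.cons (.leaf 1 [(10,1)]) .nil)))))))))) (.cons (.keep [4,5,7,8,10] (.node (.cons (.leaf 1 [(3,1),(10,1),(7,2)]) (.cons (.leaf 1 [(3,1),(10,1),(7,2)]) (.cons (.leaf 1 [(11,1),(3,3)]) (.cons (.leaf 1 [(4,1),(3,2),(11,1)]) (.cons (.leaf 1 [(11,1),(7,2)]) (.cons (.leaf 1 [(4,1),(7,2),(11,1)]) (.cons (.leaf 1 [(11,1),(7,2),(3,1)]) (.cons (.leaf 1 [(11,1),(7,2)]) .nil)))))))))) (.cons (.keep [3,6,7,8,10] (.node (.cons (.leaf 1 [(2,1),(7,3),(10,1)]) (.cons (.leaf 1 [(2,1),(7,3),(10,1)]) (.cons (.leaf 1 [(11,1),(7,1)]) (.cons (.leaf 1 [(4,1),(7,2),(11,1)]) (.cons (.leaf 1 [(11,1),(2,2)]) (.cons (.leaf 1 [(4,1),(2,2),(11,1)]) (.cons (.leaf 1 [(11,1),(6,1),(2,2)]) (.cons (.leaf 1 [(11,1),(7,2)]) .nil)))))))))) (.cons (.keep [0,3,8,10] (.node (.cons (.leaf 1 [(2,1),(9,1)]) (.cons (.leaf 1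 [(2,1),(9,1)]) (.cons (.leaf 1 [(3,1),(10,1)]) (.cons (.leaf 1 [(4,1),(10,1)]) (.cons (.leaf 1 [(10,1)]) (.cons (.leaf 1 [(4,1),(10,1)]) (.cons (.leaf 1 [(3,1),(10,1)]) (.cons (.leaf 1 [(10,1)]) .nil)))))))))) .nil)))))))))) .nil)))))))))) (.cons (.keep [1,3,6,9] (.node (.cons (.leaf 1 [(3,1),(9,1),(7,2)]) (.cons (.keep [2,4,7,9,10] (.node (.cons (.leaf 1 [(9,1),(3,2)]) (.cons (.leaf 1 [(3,1),(9,1),(4,1)]) (.cons (.leaf 1 [(9,1),(3,2),(10,1)]) (.cons (.leaf 1 [(3,1),(4,1),(9,1),(10,1)]) (.cons (.keep [4,7,8,9,10] (.node (.cons (.leaf 1 [(3,1)]) (.cons (.leaf 1 [(4,1)]) (.cons (.leaf 1 [(3,1)]) (.cons (.leaf 1 [(4,1)]) (.cons (.leaf 1 []) (.cons (.leaf 1 [(4,1)]) (.cons (.leaf 1 [(3,1)]) (.cons (.leaf 1 []) .nil)))))))))) (.cons (.keep [5,7,8,9,10] (.node (.cons (.leaf 1 [(3,2),(8,1)])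 (.cons (.leaf 1 [(4,2),(8,1)]) (.cons (.leaf 1 [(3,2)]) (.cons (.leaf 1 [(4,1),(3,1)]) (.cons (.leaf 1 [(8,1)]) (.cons (.leaf 1 [(8,1),(4,2)]) (.cons (.leaf 1 [(8,1),(3,2)]) (.cons (.leaf 1 [(8,1)]) .nil)))))))))) (.cons (.keep [6,7,8,9,10] (.node (.cons (.leaf 1 [(2,1)]) (.cons (.leaf 1 [(4,2),(8,1)]) (.cons (.leaf 1 []) (.cons (.leaf 1 [(4,2),(8,1)]) (.cons (.leaf 1 [(2,1)]) (.cons (.leaf 1 [(2,1),(4,1)]) (.cons (.leaf 1 [(2,1)]) (.cons (.leaf 1 [(8,1)]) .nil)))))))))) (.cons (.keep [0,3,8,9,10] (.node (.cons (.leaf 1 [(3,1)]) (.cons (.leaf 1 [(4,1)]) (.cons (.leaf 1 [(3,1)]) (.cons (.leaf 1 [(4,1)]) (.cons (.leaf 1 []) (.cons (.leaf 1 [(4,1)]) (.cons (.leaf 1 [(3,1)]) (.cons (.leaf 1 []) .nil)))))))))) .nil)))))))))) (.cons (.leaf 1 [(3,2),(1,1),(7,2)]) (.cons (.leaf 1 [(4,2),(1,1),(7,2)])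 (.cons (.leaf 1 [(7,2),(9,1),(1,1)]) (.cons (.leaf 1 [(4,2),(9,1),(1,1),(7,2)]) (.cons (.leaf 1 [(3,1),(9,1),(7,2),(1,1)]) (.cons (.keep [0,1,7,9,10] (.node (.cons (.leaf 1 [(8,1),(3,3)]) (.cons (.leaf 1 [(3,1),(8,1),(4,2)]) (.cons (.leaf 1 [(8,1),(3,3),(10,1)]) (.cons (.leaf 1 [(3,1),(4,2),(8,1),(10,1)]) (.cons (.keep [4,7,8,10] (.node (.cons (.leaf 1 [(3,1)]) (.cons (.leaf 1 [(4,1)]) (.cons (.leaf 1 [(3,1)]) (.cons (.leaf 1 [(4,1)]) (.cons (.leaf 1 []) (.cons (.leaf 1 [(4,1)]) (.cons (.leaf 1 [(3,1)]) (.cons (.leaf 1 []) .nil)))))))))) (.cons (.keep [4,5,7,8,10] (.node (.cons (.leaf 1 [(3,1),(7,1)]) (.cons (.leaf 1 [(4,1),(7,1)]) (.cons (.leaf 1 [(3,2)]) (.cons (.leaf 1 [(4,1),(3,1)]) (.cons (.leaf 1 [(7,1)]) (.cons (.leaf 1 [(7,1),(4,1)]) (.cons (.leaf 1 [(7,1),(3,1)]) (.cons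 (.leaf 1 [(7,1)]) .nil)))))))))) (.cons (.keep [3,6,7,8,10] (.node (.cons (.leaf 1 [(2,1)]) (.cons (.leaf 1 [(4,1),(7,1)]) (.cons (.leaf 1 []) (.cons (.leaf 1 [(4,1),(7,1)]) (.cons (.leaf 1 [(2,1)]) (.cons (.leaf 1 [(2,1),(4,1)]) (.cons (.leaf 1 [(2,1)]) (.cons (.leaf 1 [(7,1)]) .nil)))))))))) (.cons (.keep [0,3,8,10] (.node (.cons (.leaf 1 [(3,1)]) (.cons (.leaf 1 [(4,1)]) (.cons (.leaf 1 [(3,1)]) (.cons (.leaf 1 [(4,1)]) (.cons (.leaf 1 []) (.cons (.leaf 1 [(4,1)]) (.cons (.leaf 1 [(3,1)]) (.cons (.leaf 1 []) .nil)))))))))) .nil)))))))))) .nil)))))))))) (.cons (.keep [1,4,5,9] (.node (.cons (.leaf 1 [(3,1),(7,2)]) (.cons (.keep [4,5,7,9,10] (.node (.cons (.leaf 1 [(3,2),(9,1),(10,1)]) (.cons (.leaf 1 [(4,1),(3,1),(9,1),(10,1)]) (.cons (.leaf 1 [(9,1),(3,2)]) (.cons (.leaf 1 [(3,1),(9,1),(4,1)])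 (.cons (.keep [2,4,7,9,10] (.node (.cons (.leaf 1 [(2,1),(10,1)]) (.cons (.leaf 1 [(2,1),(10,1)]) (.cons (.leaf 1 [(3,1),(11,1)]) (.cons (.leaf 1 [(4,1),(11,1)]) (.cons (.leaf 1 [(11,1)]) (.cons (.leaf 1 [(4,1),(11,1)]) (.cons (.leaf 1 [(3,1),(11,1)]) (.cons (.leaf 1 [(11,1)]) .nil)))))))))) (.cons (.keep [2,5,7,9,10] (.node (.cons (.leaf 1 [(3,1),(10,1)]) (.cons (.leaf 1 [(3,1),(10,1)]) (.cons (.leaf 1 [(11,1),(3,2)]) (.cons (.leaf 1 [(4,1),(3,1),(11,1)]) (.cons (.leaf 1 [(11,1),(10,1),(9,1)]) (.cons (.leaf 1 [(4,1),(10,1),(9,1),(11,1)]) (.cons (.leaf 1 [(11,1),(10,1),(9,1),(3,1)]) (.cons (.leaf 1 [(11,1),(10,1),(9,1)]) .nil)))))))))) (.cons (.keep [6,7,8,9,10] (.node (.cons (.leaf 1 [(2,1),(8,1),(10,2)]) (.cons (.leaf 1 [(2,1),(8,1),(10,2)]) (.cons (.leaf 1 [(11,1)]) (.cons (.leaf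 1 [(4,1),(8,1),(10,1),(11,1)]) (.cons (.leaf 1 [(11,1),(2,1)]) (.cons (.leaf 1 [(4,1),(2,1),(11,1)]) (.cons (.leaf 1 [(11,1),(2,1)]) (.cons (.leaf 1 [(11,1),(8,1),(10,1)]) .nil)))))))))) (.cons (.keep [0,3,7,9,10] (.node (.cons (.leaf 1 [(2,1),(10,1)]) (.cons (.leaf 1 [(2,1),(10,1)]) (.cons (.leaf 1 [(3,1),(11,1)]) (.cons (.leaf 1 [(4,1),(11,1)]) (.cons (.leaf 1 [(11,1)]) (.cons (.leaf 1 [(4,1),(11,1)]) (.cons (.leaf 1 [(3,1),(11,1)]) (.cons (.leaf 1 [(11,1)]) .nil)))))))))) .nil)))))))))) (.cons (.leaf 1 [(7,2),(3,1),(1,1)]) (.cons (.leaf 1 [(4,2),(1,1),(9,1),(7,2)]) (.cons (.leaf 1 [(7,2),(1,1)]) (.cons (.leaf 1 [(4,2),(1,1),(7,2)]) (.cons (.leaf 1 [(7,2),(1,1),(3,1)]) (.cons (.keep [0,1,7,9,10] (.node (.cons (.leaf 1 [(3,3),(8,1),(10,1)]) (.cons (.leaf 1 [(4,2),(3,1),(8,1),(10,1)])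 (.cons (.leaf 1 [(8,1),(3,3)]) (.cons (.leaf 1 [(3,1),(8,1),(4,2)]) (.cons (.keep [4,7,8,10] (.node (.cons (.leaf 1 [(2,1),(9,1)]) (.cons (.leaf 1 [(2,1),(9,1)]) (.cons (.leaf 1 [(3,1),(10,1)]) (.cons (.leaf 1 [(4,1),(10,1)]) (.cons (.leaf 1 [(10,1)]) (.cons (.leaf 1 [(4,1),(10,1)]) (.cons (.leaf 1 [(3,1),(10,1)]) (.cons (.leaf 1 [(10,1)]) .nil)))))))))) (.cons (.keep [4,5,7,8,10] (.node (.cons (.leaf 1 [(3,1),(10,1),(7,1)]) (.cons (.leaf 1 [(3,1),(7,1),(10,1)]) (.cons (.leaf 1 [(11,1),(3,2)]) (.cons (.leaf 1 [(4,1),(3,1),(11,1)]) (.cons (.leaf 1 [(11,1),(7,1)]) (.cons (.leaf 1 [(4,1),(7,1),(11,1)]) (.cons (.leaf 1 [(11,1),(7,1),(3,1)]) (.cons (.leaf 1 [(11,1),(7,1)]) .nil)))))))))) (.cons (.keep [3,6,7,8,10] (.node (.cons (.leaf 1 [(2,1),(7,2),(10,1)]) (.cons (.leaf 1 [(2,1),(7,2),(10,1)])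 (.cons (.leaf 1 [(11,1)]) (.cons (.leaf 1 [(4,1),(7,1),(11,1)]) (.cons (.leaf 1 [(11,1),(2,1)]) (.cons (.leaf 1 [(4,1),(2,1),(11,1)]) (.cons (.leaf 1 [(11,1),(2,1)]) (.cons (.leaf 1 [(11,1),(7,1)]) .nil)))))))))) (.cons (.keep [0,3,8,10] (.node (.cons (.leaf 1 [(2,1),(9,1)]) (.cons (.leaf 1 [(2,1),(9,1)]) (.cons (.leaf 1 [(3,1),(10,1)]) (.cons (.leaf 1 [(4,1),(10,1)]) (.cons (.leaf 1 [(10,1)]) (.cons (.leaf 1 [(4,1),(10,1)]) (.cons (.leaf 1 [(3,1),(10,1)]) (.cons (.leaf 1 [(10,1)]) .nil)))))))))) .nil)))))))))) .nil)))))))))) (.cons (.keep [2,4,7,8,10] (.node (.cons (.leaf 1 [(3,2),(11,2)]) (.cons (.leaf 1 [(4,2),(11,2)]) (.cons (.leaf 1 [(3,2),(11,2)]) (.cons (.leaf 1 [(4,2),(11,2)]) (.cons (.leaf 1 [(11,2)]) (.cons (.leaf 1 [(4,2),(11,2)]) (.cons (.leaf 1 [(3,2),(11,2)]) (.cons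 (.leaf 1 [(11,2)]) .nil)))))))))) (.cons (.keep [2,4,5,8,9,10] (.node (.cons (.leaf 1 [(3,1),(2,1),(12,2)]) (.cons (.leaf 1 [(4,2),(9,1),(12,2)]) (.cons (.leaf 1 [(3,1),(12,2)]) (.cons (.leaf 1 [(4,2),(9,1),(12,2)]) (.cons (.leaf 1 [(12,2),(2,1)]) (.cons (.leaf 1 [(4,2),(2,1),(12,2)]) (.cons (.leaf 1 [(3,1),(12,2),(2,1)]) (.cons (.leaf 1 [(12,2),(9,1)]) .nil)))))))))) (.cons (.keep [2,6,8,9,10] (.node (.cons (.leaf 1 [(11,2),(8,1),(3,2)]) (.cons (.leaf 1 [(4,2),(8,1),(11,2)]) (.cons (.leaf 1 [(11,2),(3,3)]) (.cons (.leaf 1 [(4,2),(3,1),(11,2)]) (.cons (.leaf 1 [(11,2),(8,1)]) (.cons (.leaf 1 [(4,2),(8,1),(11,2)]) (.cons (.leaf 1 [(11,2),(8,1),(3,2)]) (.cons (.leaf 1 [(11,2),(8,1)]) .nil)))))))))) (.cons (.keep [0,2,8,10] (.node (.cons (.leaf 1 [(3,2),(10,2)]) (.cons (.leaf 1 [(4,2),(10,2)])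 (.cons (.leaf 1 [(3,2),(10,2)]) (.cons (.leaf 1 [(4,2),(10,2)]) (.cons (.leaf 1 [(10,2)]) (.cons (.leaf 1 [(4,2),(10,2)]) (.cons (.leaf 1 [(3,2),(10,2)]) (.cons (.leaf 1 [(10,2)]) .nil)))))))))) .nil)))))))))

theorem c_30_24_3 : Concl 30 24 z_30_24_3 h_30_24_3 .nd := piece _ hP_nil t_30_24_3 _ _ (by
  decide +kernel)

def z_30_24_4 : F := ⟨0, 1, 0, -1, 1⟩

def h_30_24_4 : List F := [⟨-1, 1, 0, 0, 0⟩, ⟨0, 1, 0, -1, 0⟩, ⟨0, 0, -1, 1, 0⟩, ⟨0, 0, 0, -1, 1⟩]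

def t_30_24_4 : T := (.node (.cons (.keep [3,6,7,9,10] (.node (.cons (.keep [2,6,8,9,10,11] (.node (.cons (.leaf 1 [(8,1),(11,2)]) (.cons (.keep [2,7,8,10,11,12] (.node (.cons (.leaf 1 [(3,1),(11,2)]) (.cons (.leaf 1 [(3,1),(11,2)]) (.cons (.leaf 1 [(9,1),(3,1),(11,2)]) (.cons (.leaf 1 [(9,1),(3,1),(11,2)]) (.cons (.keep [4,7,8,9,11] (.node (.cons (.leaf 1 [(3,1),(11,1)]) (.cons (.leaf 1 [(4,1),(11,1)]) (.cons (.leaf 1 [(11,1),(3,1)]) (.cons (.leaf 1 [(11,1),(4,1)]) (.cons (.leaf 1 [(11,1)]) (.cons (.leaf 1 [(11,1),(4,1)]) (.cons (.leaf 1 [(11,1),(3,1)]) (.cons (.leaf 1 [(11,1)]) .nil)))))))))) (.cons (.keep [4,5,7,8,9,11] (.node (.cons (.leaf 1 [(3,1),(12,1)]) (.cons (.leaf 1 [(4,1),(12,1)]) (.cons (.leaf 1 [(12,1),(3,1)]) (.cons (.leaf 1 [(12,1),(4,1)]) (.cons (.leaf 1 [(12,1)])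 (.cons (.leaf 1 [(12,1),(4,1)]) (.cons (.leaf 1 [(12,1),(3,1)]) (.cons (.leaf 1 [(12,1)]) .nil)))))))))) (.cons (.keep [3,6,7,8,9,11] (.node (.cons (.leaf 1 [(3,1),(12,1)]) (.cons (.leaf 1 [(4,1),(12,1)]) (.cons (.leaf 1 [(12,1),(3,1)]) (.cons (.leaf 1 [(12,1),(4,1)]) (.cons (.leaf 1 [(12,1)]) (.cons (.leaf 1 [(12,1),(4,1)]) (.cons (.leaf 1 [(12,1),(3,1)]) (.cons (.leaf 1 [(12,1)]) .nil)))))))))) (.cons (.keep [0,3,8,9,11] (.node (.cons (.leaf 1 [(3,1),(11,1)]) (.cons (.leaf 1 [(4,1),(11,1)]) (.cons (.leaf 1 [(11,1),(3,1)]) (.cons (.leaf 1 [(11,1),(4,1)]) (.cons (.leaf 1 [(11,1)]) (.cons (.leaf 1 [(11,1),(4,1)]) (.cons (.leaf 1 [(11,1),(3,1)]) (.cons (.leaf 1 [(11,1)]) .nil)))))))))) .nil)))))))))) (.cons (.leaf 1 [(10,1),(1,1),(11,1)]) (.cons (.leaf 1 [(10,1),(1,1),(11,1)]) (.cons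 (.leaf 1 [(10,2),(8,1),(1,1)]) (.cons (.leaf 1 [(10,2),(8,1),(5,1),(1,1)]) (.cons (.leaf 1 [(10,2),(1,1),(6,2),(8,1)]) (.cons (.keep [0,1,7,8,10] (.node (.cons (.leaf 1 [(8,1),(3,3)]) (.cons (.leaf 1 [(3,1),(8,1),(4,2)]) (.cons (.leaf 1 [(8,1),(3,3),(10,1)]) (.cons (.leaf 1 [(3,1),(4,2),(8,1),(10,1)]) (.cons (.keep [4,7,8,10] (.node (.cons (.leaf 1 [(3,1)]) (.cons (.leaf 1 [(4,1)]) (.cons (.leaf 1 [(3,1)]) (.cons (.leaf 1 [(4,1)]) (.cons (.leaf 1 []) (.cons (.leaf 1 [(4,1)]) (.cons (.leaf 1 [(3,1)]) (.cons (.leaf 1 []) .nil)))))))))) (.cons (.keep [4,5,7,8,10] (.node (.cons (.leaf 1 [(3,1),(7,1)]) (.cons (.leaf 1 [(4,1),(7,1)]) (.cons (.leaf 1 [(3,2)]) (.cons (.leaf 1 [(4,1),(3,1)]) (.cons (.leaf 1 [(7,1)]) (.cons (.leaf 1 [(7,1),(4,1)]) (.cons (.leaf 1 [(7,1),(3,1)]) (.cons (.leaf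 1 [(7,1)]) .nil)))))))))) (.cons (.keep [3,6,7,8,10] (.node (.cons (.leaf 1 [(2,1)]) (.cons (.leaf 1 [(4,1),(7,1)]) (.cons (.leaf 1 []) (.cons (.leaf 1 [(4,1),(7,1)]) (.cons (.leaf 1 [(2,1)]) (.cons (.leaf 1 [(2,1),(4,1)]) (.cons (.leaf 1 [(2,1)]) (.cons (.leaf 1 [(7,1)]) .nil)))))))))) (.cons (.keep [0,3,8,10] (.node (.cons (.leaf 1 [(3,1)]) (.cons (.leaf 1 [(4,1)]) (.cons (.leaf 1 [(3,1)]) (.cons (.leaf 1 [(4,1)]) (.cons (.leaf 1 []) (.cons (.leaf 1 [(4,1)]) (.cons (.leaf 1 [(3,1)]) (.cons (.leaf 1 []) .nil)))))))))) .nil)))))))))) .nil)))))))))) (.cons (.keep [2,5,7,9,10,11] (.node (.cons (.leaf 1 [(11,2)]) (.cons (.keep [7,8,9,10,11,12] (.node (.cons (.leaf 1 [(3,1),(8,1),(11,2)]) (.cons (.leaf 1 [(3,1),(8,1),(11,2)]) (.cons (.leaf 1 [(3,1),(11,2)]) (.cons (.leaf 1 [(3,1),(11,2)])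 (.cons (.keep [4,7,8,9,11] (.node (.cons (.leaf 1 [(3,1),(7,1),(9,2)]) (.cons (.leaf 1 [(4,1),(11,1),(9,1)]) (.cons (.leaf 1 [(3,2),(1,1),(9,2)]) (.cons (.leaf 1 [(4,2),(1,1),(9,2)]) (.cons (.leaf 1 [(9,2),(7,1),(1,1)]) (.cons (.leaf 1 [(4,2),(7,1),(1,1),(9,2)]) (.cons (.leaf 1 [(3,1),(7,1),(9,2),(1,1)]) (.cons (.leaf 1 [(9,1),(11,1)]) .nil)))))))))) (.cons (.keep [4,5,7,8,9,11] (.node (.cons (.leaf 1 [(3,1),(7,1),(10,2)]) (.cons (.leaf 1 [(4,1),(12,1),(10,1)]) (.cons (.leaf 1 [(3,2),(1,1),(10,2)]) (.cons (.leaf 1 [(4,2),(1,1),(10,2)]) (.cons (.leaf 1 [(10,2),(7,1),(1,1)]) (.cons (.leaf 1 [(4,2),(7,1),(1,1),(10,2)]) (.cons (.leaf 1 [(3,1),(7,1),(10,2),(1,1)]) (.cons (.leaf 1 [(10,1),(12,1)]) .nil)))))))))) (.cons (.keep [3,6,7,8,9,11] (.node (.cons (.leaf 1 [(3,1),(8,1),(10,2)])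 (.cons (.leaf 1 [(4,1),(12,1),(10,1)]) (.cons (.leaf 1 [(3,2),(1,1),(10,2)]) (.cons (.leaf 1 [(4,2),(1,1),(10,2)]) (.cons (.leaf 1 [(10,2),(8,1),(1,1)]) (.cons (.leaf 1 [(4,2),(8,1),(1,1),(10,2)]) (.cons (.leaf 1 [(3,1),(8,1),(10,2),(1,1)]) (.cons (.leaf 1 [(10,1),(12,1)]) .nil)))))))))) (.cons (.keep [0,3,7,8,11] (.node (.cons (.leaf 1 [(3,1),(11,1),(10,1)]) (.cons (.leaf 1 [(4,1),(11,1),(10,1)]) (.cons (.leaf 1 [(3,2),(1,1),(10,2)]) (.cons (.leaf 1 [(4,2),(1,1),(10,2)]) (.cons (.leaf 1 [(10,1),(11,1)]) (.cons (.leaf 1 [(4,1),(11,1),(10,1)]) (.cons (.leaf 1 [(3,1),(11,1),(10,1)]) (.cons (.leaf 1 [(10,1),(11,1)]) .nil)))))))))) .nil)))))))))) (.cons (.leaf 1 [(10,2),(8,2),(1,1)]) (.cons (.leaf 1 [(10,2),(8,2),(1,1),(5,1)]) (.cons (.leaf 1 [(10,2),(1,1)]) (.cons (.leaf 1 [(10,2),(1,1),(5,1)])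 (.cons (.leaf 1 [(10,2),(1,1),(6,2)]) (.cons (.keep [0,1,7,8,10] (.node (.cons (.leaf 1 [(3,3),(8,1),(10,1)]) (.cons (.leaf 1 [(4,2),(3,1),(8,1),(10,1)]) (.cons (.leaf 1 [(8,1),(3,3)]) (.cons (.leaf 1 [(3,1),(8,1),(4,2)]) (.cons (.keep [4,7,8,10] (.node (.cons (.leaf 1 [(2,1),(9,1)]) (.cons (.leaf 1 [(2,1),(9,1)]) (.cons (.leaf 1 [(3,1),(10,1)]) (.cons (.leaf 1 [(4,1),(10,1)]) (.cons (.leaf 1 [(10,1)]) (.cons (.leaf 1 [(4,1),(10,1)]) (.cons (.leaf 1 [(3,1),(10,1)]) (.cons (.leaf 1 [(10,1)]) .nil)))))))))) (.cons (.keep [4,5,7,8,10] (.node (.cons (.leaf 1 [(3,1),(10,1),(7,1)]) (.cons (.leaf 1 [(3,1),(7,1),(10,1)]) (.cons (.leaf 1 [(11,1),(3,2)]) (.cons (.leaf 1 [(4,1),(3,1),(11,1)]) (.cons (.leaf 1 [(11,1),(7,1)]) (.cons (.leaf 1 [(4,1),(7,1),(11,1)]) (.cons (.leaf 1 [(11,1),(7,1),(3,1)])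 (.cons (.leaf 1 [(11,1),(7,1)]) .nil)))))))))) (.cons (.keep [3,6,7,8,10] (.node (.cons (.leaf 1 [(2,1),(7,2),(10,1)]) (.cons (.leaf 1 [(2,1),(7,2),(10,1)]) (.cons (.leaf 1 [(11,1)]) (.cons (.leaf 1 [(4,1),(7,1),(11,1)]) (.cons (.leaf 1 [(11,1),(2,1)]) (.cons (.leaf 1 [(4,1),(2,1),(11,1)]) (.cons (.leaf 1 [(11,1),(2,1)]) (.cons (.leaf 1 [(11,1),(7,1)]) .nil)))))))))) (.cons (.keep [0,3,8,10] (.node (.cons (.leaf 1 [(2,1),(9,1)]) (.cons (.leaf 1 [(2,1),(9,1)]) (.cons (.leaf 1 [(3,1),(10,1)]) (.cons (.leaf 1 [(4,1),(10,1)]) (.cons (.leaf 1 [(10,1)]) (.cons (.leaf 1 [(4,1),(10,1)]) (.cons (.leaf 1 [(3,1),(10,1)]) (.cons (.leaf 1 [(10,1)]) .nil)))))))))) .nil)))))))))) .nil)))))))))) (.cons (.keep [1,6,7,9,11] (.node (.cons (.leaf 1 [(8,1),(7,1)]) (.cons (.keep [4,7,8,9,11] (.node (.cons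 (.leaf 1 [(3,1),(8,1)]) (.cons (.leaf 1 [(3,1),(8,1)]) (.cons (.leaf 1 [(9,1),(3,1),(8,1)]) (.cons (.leaf 1 [(9,1),(3,1),(8,1)]) (.cons (.keep [4,7,8,9,10] (.node (.cons (.leaf 1 [(3,1)]) (.cons (.leaf 1 [(4,1)]) (.cons (.leaf 1 [(3,1)]) (.cons (.leaf 1 [(4,1)]) (.cons (.leaf 1 []) (.cons (.leaf 1 [(4,1)]) (.cons (.leaf 1 [(3,1)]) (.cons (.leaf 1 []) .nil)))))))))) (.cons (.keep [5,7,8,9,10] (.node (.cons (.leaf 1 [(3,1)]) (.cons (.leaf 1 [(4,1)]) (.cons (.leaf 1 [(3,1)]) (.cons (.leaf 1 [(4,1)]) (.cons (.leaf 1 []) (.cons (.leaf 1 [(4,1)]) (.cons (.leaf 1 [(3,1)]) (.cons (.leaf 1 []) .nil)))))))))) (.cons (.keep [6,7,8,9,10] (.node (.cons (.leaf 1 [(3,1)]) (.cons (.leaf 1 [(4,1)]) (.cons (.leaf 1 [(3,1)]) (.cons (.leaf 1 [(4,1)]) (.cons (.leaf 1 []) (.cons (.leaf 1 [(4,1)]) (.cons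 (.leaf 1 [(3,1)]) (.cons (.leaf 1 []) .nil)))))))))) (.cons (.keep [0,3,7,8,9] (.node (.cons (.leaf 1 [(3,1)]) (.cons (.leaf 1 [(4,1)]) (.cons (.leaf 1 [(3,1)]) (.cons (.leaf 1 [(4,1)]) (.cons (.leaf 1 []) (.cons (.leaf 1 [(4,1)]) (.cons (.leaf 1 [(3,1)]) (.cons (.leaf 1 []) .nil)))))))))) .nil)))))))))) (.cons (.leaf 1 [(7,1),(3,1),(1,1)]) (.cons (.leaf 1 [(7,1),(4,1),(1,1)]) (.cons (.leaf 1 [(7,1),(8,1),(1,1)]) (.cons (.leaf 1 [(7,1),(8,1),(4,1),(1,1)]) (.cons (.leaf 1 [(7,1),(8,1),(1,1)]) (.cons (.keep [0,1,7,8,11] (.node (.cons (.leaf 1 [(3,2),(8,1)]) (.cons (.leaf 1 [(4,1),(8,1),(3,1)]) (.cons (.leaf 1 [(10,1),(3,2),(8,1)]) (.cons (.leaf 1 [(10,1),(4,1),(8,1),(3,1)]) (.cons (.keep [4,7,8,10] (.node (.cons (.leaf 1 [(3,1)]) (.cons (.leaf 1 [(4,1)]) (.cons (.leaf 1 [(3,1)]) (.cons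 (.leaf 1 [(4,1)]) (.cons (.leaf 1 []) (.cons (.leaf 1 [(4,1)]) (.cons (.leaf 1 [(3,1)]) (.cons (.leaf 1 []) .nil)))))))))) (.cons (.keep [4,5,7,8,10] (.node (.cons (.leaf 1 [(3,1)]) (.cons (.leaf 1 [(4,1)]) (.cons (.leaf 1 [(3,1)]) (.cons (.leaf 1 [(4,1)]) (.cons (.leaf 1 []) (.cons (.leaf 1 [(4,1)]) (.cons (.leaf 1 [(3,1)]) (.cons (.leaf 1 []) .nil)))))))))) (.cons (.keep [3,6,7,8,10] (.node (.cons (.leaf 1 [(3,1)]) (.cons (.leaf 1 [(4,1)]) (.cons (.leaf 1 [(3,1)]) (.cons (.leaf 1 [(4,1)]) (.cons (.leaf 1 []) (.cons (.leaf 1 [(4,1)]) (.cons (.leaf 1 [(3,1)]) (.cons (.leaf 1 []) .nil)))))))))) (.cons (.keep [0,3,8,10] (.node (.cons (.leaf 1 [(3,1)]) (.cons (.leaf 1 [(4,1)]) (.cons (.leaf 1 [(3,1)]) (.cons (.leaf 1 [(4,1)]) (.cons (.leaf 1 []) (.cons (.leaf 1 [(4,1)]) (.cons (.leaf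 1 [(3,1)]) (.cons (.leaf 1 []) .nil)))))))))) .nil)))))))))) .nil)))))))))) (.cons (.keep [1,4,5,9,11] (.node (.cons (.leaf 1 [(7,1)]) (.cons (.keep [4,5,7,9,11] (.node (.cons (.leaf 1 [(3,1),(10,1),(9,1)]) (.cons (.leaf 1 [(3,1),(10,1),(9,1)]) (.cons (.leaf 1 [(3,1),(9,1)]) (.cons (.leaf 1 [(3,1),(9,1)]) (.cons (.keep [2,4,7,9,10] (.node (.cons (.leaf 1 [(2,1),(10,1)]) (.cons (.leaf 1 [(2,1),(10,1)]) (.cons (.leaf 1 [(3,1),(11,1)]) (.cons (.leaf 1 [(4,1),(11,1)]) (.cons (.leaf 1 [(11,1)]) (.cons (.leaf 1 [(4,1),(11,1)]) (.cons (.leaf 1 [(3,1),(11,1)]) (.cons (.leaf 1 [(11,1)]) .nil)))))))))) (.cons (.keep [2,5,7,9,10] (.node (.cons (.leaf 1 [(2,1),(10,1)]) (.cons (.leaf 1 [(2,1),(10,1)]) (.cons (.leaf 1 [(3,1),(11,1)]) (.cons (.leaf 1 [(4,1),(11,1)]) (.cons (.leaf 1 [(11,1)]) (.cons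 (.leaf 1 [(4,1),(11,1)]) (.cons (.leaf 1 [(3,1),(11,1)]) (.cons (.leaf 1 [(11,1)]) .nil)))))))))) (.cons (.keep [6,7,8,9,10] (.node (.cons (.leaf 1 [(2,1),(10,1)]) (.cons (.leaf 1 [(2,1),(10,1)]) (.cons (.leaf 1 [(3,1),(11,1)]) (.cons (.leaf 1 [(4,1),(11,1)]) (.cons (.leaf 1 [(11,1)]) (.cons (.leaf 1 [(4,1),(11,1)]) (.cons (.leaf 1 [(3,1),(11,1)]) (.cons (.leaf 1 [(11,1)]) .nil)))))))))) (.cons (.keep [0,3,7,9,10] (.node (.cons (.leaf 1 [(2,1),(10,1)]) (.cons (.leaf 1 [(2,1),(10,1)]) (.cons (.leaf 1 [(3,1),(11,1)]) (.cons (.leaf 1 [(4,1),(11,1)]) (.cons (.leaf 1 [(11,1)]) (.cons (.leaf 1 [(4,1),(11,1)]) (.cons (.leaf 1 [(3,1),(11,1)]) (.cons (.leaf 1 [(11,1)]) .nil)))))))))) .nil)))))))))) (.cons (.leaf 1 [(7,1),(1,1)]) (.cons (.leaf 1 [(7,1),(4,1),(9,1),(1,1)]) (.cons (.leaf 1 [(7,1),(1,1)])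 (.cons (.leaf 1 [(7,1),(4,1),(1,1)]) (.cons (.leaf 1 [(7,1),(1,1)]) (.cons (.keep [0,1,7,9,11] (.node (.cons (.leaf 1 [(3,2),(10,1),(8,1)]) (.cons (.leaf 1 [(4,1),(10,1),(8,1),(3,1)]) (.cons (.leaf 1 [(3,2),(8,1)]) (.cons (.leaf 1 [(4,1),(8,1),(3,1)]) (.cons (.keep [4,7,8,10] (.node (.cons (.leaf 1 [(2,1),(9,1)]) (.cons (.leaf 1 [(2,1),(9,1)]) (.cons (.leaf 1 [(3,1),(10,1)]) (.cons (.leaf 1 [(4,1),(10,1)]) (.cons (.leaf 1 [(10,1)]) (.cons (.leaf 1 [(4,1),(10,1)]) (.cons (.leaf 1 [(3,1),(10,1)]) (.cons (.leaf 1 [(10,1)]) .nil)))))))))) (.cons (.keep [4,5,7,8,10] (.node (.cons (.leaf 1 [(3,1),(10,1)]) (.cons (.leaf 1 [(3,1),(10,1)]) (.cons (.leaf 1 [(11,1),(3,1)]) (.cons (.leaf 1 [(4,1),(11,1)]) (.cons (.leaf 1 [(11,1)]) (.cons (.leaf 1 [(4,1),(11,1)]) (.cons (.leaf 1 [(11,1),(3,1)])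 (.cons (.leaf 1 [(11,1)]) .nil)))))))))) (.cons (.keep [3,6,7,8,10] (.node (.cons (.leaf 1 [(2,1),(10,1),(7,1)]) (.cons (.leaf 1 [(2,1),(10,1),(7,1)]) (.cons (.leaf 1 [(3,1),(11,1)]) (.cons (.leaf 1 [(4,1),(11,1)]) (.cons (.leaf 1 [(11,1)]) (.cons (.leaf 1 [(4,1),(11,1)]) (.cons (.leaf 1 [(3,1),(11,1)]) (.cons (.leaf 1 [(11,1)]) .nil)))))))))) (.cons (.keep [0,3,8,10] (.node (.cons (.leaf 1 [(2,1),(9,1)]) (.cons (.leaf 1 [(2,1),(9,1)]) (.cons (.leaf 1 [(3,1),(10,1)]) (.cons (.leaf 1 [(4,1),(10,1)]) (.cons (.leaf 1 [(10,1)]) (.cons (.leaf 1 [(4,1),(10,1)]) (.cons (.leaf 1 [(3,1),(10,1)]) (.cons (.leaf 1 [(10,1)]) .nil)))))))))) .nil)))))))))) .nil)))))))))) (.cons (.leaf 1 [(9,1)]) (.cons (.leaf 1 [(9,1),(5,1)]) (.cons (.leaf 1 [(9,1),(6,1)]) (.cons (.leaf 1 [(9,1)]) .nil))))))))))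 (.cons (.keep [4,7,9,10] (.node (.cons (.leaf 1 [(9,1),(8,1)]) (.cons (.leaf 1 [(9,1),(8,1),(5,1)]) (.cons (.leaf 1 [(8,1)]) (.cons (.leaf 1 [(8,1),(5,1)]) (.cons (.keep [4,7,8,9,10] (.node (.cons (.leaf 1 [(2,1),(9,1)]) (.cons (.leaf 1 [(2,1),(9,1)]) (.cons (.leaf 1 [(3,1),(10,1)]) (.cons (.leaf 1 [(4,1),(10,1)]) (.cons (.leaf 1 [(10,1)]) (.cons (.leaf 1 [(4,1),(10,1)]) (.cons (.leaf 1 [(3,1),(10,1)]) (.cons (.leaf 1 [(10,1)]) .nil)))))))))) (.cons (.keep [5,7,8,9,10] (.node (.cons (.leaf 1 [(2,1),(7,1),(9,1)]) (.cons (.leaf 1 [(2,1),(7,1),(9,1)]) (.cons (.leaf 1 [(10,1)]) (.cons (.leaf 1 [(4,1),(7,1),(10,1)]) (.cons (.leaf 1 [(10,1),(2,1)]) (.cons (.leaf 1 [(4,1),(2,1),(10,1)]) (.cons (.leaf 1 [(10,1),(2,1)]) (.cons (.leaf 1 [(10,1),(7,1)]) .nil)))))))))) (.cons (.keep [6,7,8,9,10]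 (.node (.cons (.leaf 1 [(3,1),(9,1)]) (.cons (.leaf 1 [(3,1),(9,1)]) (.cons (.leaf 1 [(10,1),(3,2)]) (.cons (.leaf 1 [(4,1),(3,1),(10,1)]) (.cons (.leaf 1 [(10,1),(7,1)]) (.cons (.leaf 1 [(4,1),(7,1),(10,1)]) (.cons (.leaf 1 [(10,1),(7,1),(3,1)]) (.cons (.leaf 1 [(10,1),(7,1)]) .nil)))))))))) (.cons (.keep [0,3,7,8,9] (.node (.cons (.leaf 1 [(2,1),(10,1)]) (.cons (.leaf 1 [(2,1),(10,1)]) (.cons (.leaf 1 [(3,1),(11,1)]) (.cons (.leaf 1 [(4,1),(11,1)]) (.cons (.leaf 1 [(11,1)]) (.cons (.leaf 1 [(4,1),(11,1)]) (.cons (.leaf 1 [(3,1),(11,1)]) (.cons (.leaf 1 [(11,1)]) .nil)))))))))) .nil)))))))))) (.cons (.leaf 1 [(1,1),(9,1)]) (.cons (.leaf 1 [(9,1),(1,1)]) (.cons (.leaf 1 [(1,1)]) (.cons (.leaf 1 [(1,1)]) (.cons (.leaf 1 [(6,1),(1,1)]) (.cons (.keep [0,1,7,9] (.node (.cons (.leaf 1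 [(10,1),(3,1),(8,1)]) (.cons (.leaf 1 [(10,1),(8,1),(3,1)]) (.cons (.leaf 1 [(3,1),(8,1)]) (.cons (.leaf 1 [(8,1),(3,1)]) (.cons (.keep [4,7,8,10] (.node (.cons (.leaf 1 [(2,1),(9,1)]) (.cons (.leaf 1 [(2,1),(9,1)]) (.cons (.leaf 1 [(3,1),(10,1)]) (.cons (.leaf 1 [(4,1),(10,1)]) (.cons (.leaf 1 [(10,1)]) (.cons (.leaf 1 [(4,1),(10,1)]) (.cons (.leaf 1 [(3,1),(10,1)]) (.cons (.leaf 1 [(10,1)]) .nil)))))))))) (.cons (.keep [4,5,7,8,10] (.node (.cons (.leaf 1 [(2,1),(10,1)]) (.cons (.leaf 1 [(2,1),(10,1)]) (.cons (.leaf 1 [(11,1)]) (.cons (.leaf 1 [(4,1),(8,1),(11,1)]) (.cons (.leaf 1 [(11,1),(2,1)]) (.cons (.leaf 1 [(4,1),(2,1),(11,1)]) (.cons (.leaf 1 [(11,1),(2,1)]) (.cons (.leaf 1 [(11,1),(8,1)]) .nil)))))))))) (.cons (.keep [3,6,7,8,10] (.node (.cons (.leaf 1 [(2,1),(10,1)]) (.cons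 (.leaf 1 [(2,1),(10,1)]) (.cons (.leaf 1 [(11,1),(3,2)]) (.cons (.leaf 1 [(4,1),(3,1),(11,1)]) (.cons (.leaf 1 [(11,1),(8,1)]) (.cons (.leaf 1 [(4,1),(8,1),(11,1)]) (.cons (.leaf 1 [(11,1),(8,1),(3,1)]) (.cons (.leaf 1 [(11,1),(8,1)]) .nil)))))))))) (.cons (.keep [0,3,8,10] (.node (.cons (.leaf 1 [(2,1),(9,1)]) (.cons (.leaf 1 [(2,1),(9,1)]) (.cons (.leaf 1 [(3,1),(10,1)]) (.cons (.leaf 1 [(4,1),(10,1)]) (.cons (.leaf 1 [(10,1)]) (.cons (.leaf 1 [(4,1),(10,1)]) (.cons (.leaf 1 [(3,1),(10,1)]) (.cons (.leaf 1 [(10,1)]) .nil)))))))))) .nil)))))))))) .nil)))))))))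

theorem c_30_24_4 : Concl 30 24 z_30_24_4 h_30_24_4 .nd := piece _ hP_nil t_30_24_4 _ _ (by
  decide +kernel)

def z_30_24_5 : F := ⟨0, 1, -1, 0, 1⟩

def h_30_24_5 : List F := [⟨-1, 1, 0, 0, 0⟩, ⟨0, 1, -1, 0, 0⟩, ⟨0, 0, 1, -1, 0⟩, ⟨0, 0, -1, 0, 1⟩]

def t_30_24_5 : T := (.node (.cons (.keep [3,6,7,9,10] (.node (.cons (.keep [2,6,8,9,11] (.node (.cons (.leaf 1 [(10,1),(8,1),(11,1)]) (.cons (.keep [2,7,8,10,11] (.node (.cons (.leaf 1 [(3,2),(11,1)]) (.cons (.leaf 1 [(4,1),(11,1),(3,1)]) (.cons (.leaf 1 [(9,1),(3,2),(11,1)]) (.cons (.leaf 1 [(9,1),(4,1),(11,1),(3,1)]) (.cons (.keep [4,7,8,9,11] (.node (.cons (.leaf 1 [(3,1)]) (.cons (.leaf 1 [(4,1)]) (.cons (.leaf 1 [(3,1)]) (.cons (.leaf 1 [(4,1)]) (.cons (.leaf 1 []) (.cons (.leaf 1 [(4,1)]) (.cons (.leaf 1 [(3,1)]) (.cons (.leaf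 1 []) .nil)))))))))) (.cons (.keep [4,7,8,9,11] (.node (.cons (.leaf 1 [(3,1)]) (.cons (.leaf 1 [(4,1)]) (.cons (.leaf 1 [(3,1)]) (.cons (.leaf 1 [(4,1)]) (.cons (.leaf 1 []) (.cons (.leaf 1 [(4,1)]) (.cons (.leaf 1 [(3,1)]) (.cons (.leaf 1 []) .nil)))))))))) (.cons (.keep [3,7,8,9,11] (.node (.cons (.leaf 1 [(3,1)]) (.cons (.leaf 1 [(4,1)]) (.cons (.leaf 1 [(3,1)]) (.cons (.leaf 1 [(4,1)]) (.cons (.leaf 1 []) (.cons (.leaf 1 [(4,1)]) (.cons (.leaf 1 [(3,1)]) (.cons (.leaf 1 []) .nil)))))))))) (.cons (.keep [0,3,8,9,11] (.node (.cons (.leaf 1 [(3,1)]) (.cons (.leaf 1 [(4,1)]) (.cons (.leaf 1 [(3,1)]) (.cons (.leaf 1 [(4,1)]) (.cons (.leaf 1 []) (.cons (.leaf 1 [(4,1)]) (.cons (.leaf 1 [(3,1)]) (.cons (.leaf 1 []) .nil)))))))))) .nil)))))))))) (.cons (.leaf 1 [(10,1),(1,1)]) (.cons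 (.leaf 1 [(10,1),(1,1)]) (.cons (.leaf 1 [(10,1),(8,1),(1,1)]) (.cons (.leaf 1 [(10,1),(8,1),(1,1)]) (.cons (.leaf 1 [(10,1),(8,1),(6,1),(1,1)]) (.cons (.keep [0,1,7,8,10] (.node (.cons (.leaf 1 [(3,2),(8,1)]) (.cons (.leaf 1 [(4,1),(8,1),(3,1)]) (.cons (.leaf 1 [(10,1),(3,2),(8,1)]) (.cons (.leaf 1 [(10,1),(4,1),(8,1),(3,1)]) (.cons (.keep [4,7,8,10] (.node (.cons (.leaf 1 [(3,1)]) (.cons (.leaf 1 [(4,1)]) (.cons (.leaf 1 [(3,1)]) (.cons (.leaf 1 [(4,1)]) (.cons (.leaf 1 []) (.cons (.leaf 1 [(4,1)]) (.cons (.leaf 1 [(3,1)]) (.cons (.leaf 1 []) .nil)))))))))) (.cons (.keep [4,5,7,8,10] (.node (.cons (.leaf 1 [(3,1)]) (.cons (.leaf 1 [(4,1)]) (.cons (.leaf 1 [(3,1)]) (.cons (.leaf 1 [(4,1)]) (.cons (.leaf 1 []) (.cons (.leaf 1 [(4,1)]) (.cons (.leaf 1 [(3,1)]) (.cons (.leaf 1 [])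 .nil)))))))))) (.cons (.keep [3,6,7,8,10] (.node (.cons (.leaf 1 [(3,1)]) (.cons (.leaf 1 [(4,1)]) (.cons (.leaf 1 [(3,1)]) (.cons (.leaf 1 [(4,1)]) (.cons (.leaf 1 []) (.cons (.leaf 1 [(4,1)]) (.cons (.leaf 1 [(3,1)]) (.cons (.leaf 1 []) .nil)))))))))) (.cons (.keep [0,3,8,10] (.node (.cons (.leaf 1 [(3,1)]) (.cons (.leaf 1 [(4,1)]) (.cons (.leaf 1 [(3,1)]) (.cons (.leaf 1 [(4,1)]) (.cons (.leaf 1 []) (.cons (.leaf 1 [(4,1)]) (.cons (.leaf 1 [(3,1)]) (.cons (.leaf 1 []) .nil)))))))))) .nil)))))))))) .nil)))))))))) (.cons (.keep [2,5,7,9,11] (.node (.cons (.leaf 1 [(10,1),(11,1)]) (.cons (.keep [5,7,8,10,11] (.node (.cons (.leaf 1 [(3,2),(9,1),(11,1)]) (.cons (.leaf 1 [(4,1),(9,1),(11,1),(3,1)]) (.cons (.leaf 1 [(3,2),(11,1)]) (.cons (.leaf 1 [(4,1),(11,1),(3,1)]) (.cons (.keep [2,4,8,9,11]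 (.node (.cons (.leaf 1 [(3,1),(10,1)]) (.cons (.leaf 1 [(4,1),(10,1)]) (.cons (.leaf 1 [(3,1),(10,1)]) (.cons (.leaf 1 [(4,1),(10,1)]) (.cons (.leaf 1 [(10,1)]) (.cons (.leaf 1 [(4,1),(10,1)]) (.cons (.leaf 1 [(3,1),(10,1)]) (.cons (.leaf 1 [(10,1)]) .nil)))))))))) (.cons (.keep [2,4,8,9,11] (.node (.cons (.leaf 1 [(3,1),(10,1)]) (.cons (.leaf 1 [(4,1),(10,1)]) (.cons (.leaf 1 [(3,1),(10,1)]) (.cons (.leaf 1 [(4,1),(10,1)]) (.cons (.leaf 1 [(10,1)]) (.cons (.leaf 1 [(4,1),(10,1)]) (.cons (.leaf 1 [(3,1),(10,1)]) (.cons (.leaf 1 [(10,1)]) .nil)))))))))) (.cons (.keep [3,7,8,9,11] (.node (.cons (.leaf 1 [(3,1),(10,1)]) (.cons (.leaf 1 [(4,1),(10,1)]) (.cons (.leaf 1 [(3,1),(10,1)]) (.cons (.leaf 1 [(4,1),(10,1)]) (.cons (.leaf 1 [(10,1)]) (.cons (.leaf 1 [(4,1),(10,1)]) (.cons (.leaf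 1 [(3,1),(10,1)]) (.cons (.leaf 1 [(10,1)]) .nil)))))))))) (.cons (.keep [0,3,8,9,11] (.node (.cons (.leaf 1 [(3,1),(10,1)]) (.cons (.leaf 1 [(4,1),(10,1)]) (.cons (.leaf 1 [(3,1),(10,1)]) (.cons (.leaf 1 [(4,1),(10,1)]) (.cons (.leaf 1 [(10,1)]) (.cons (.leaf 1 [(4,1),(10,1)]) (.cons (.leaf 1 [(3,1),(10,1)]) (.cons (.leaf 1 [(10,1)]) .nil)))))))))) .nil)))))))))) (.cons (.leaf 1 [(10,1),(1,1),(8,1)]) (.cons (.leaf 1 [(10,1),(1,1),(8,1)]) (.cons (.leaf 1 [(10,1),(1,1)]) (.cons (.leaf 1 [(10,1),(1,1)]) (.cons (.leaf 1 [(10,1),(6,1),(1,1)]) (.cons (.keep [0,1,7,8,10] (.node (.cons (.leaf 1 [(3,2),(10,1),(8,1)]) (.cons (.leaf 1 [(4,1),(10,1),(8,1),(3,1)]) (.cons (.leaf 1 [(3,2),(8,1)]) (.cons (.leaf 1 [(4,1),(8,1),(3,1)]) (.cons (.keep [4,7,8,10] (.node (.cons (.leaf 1 [(2,1),(9,1)])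 (.cons (.leaf 1 [(2,1),(9,1)]) (.cons (.leaf 1 [(3,1),(10,1)]) (.cons (.leaf 1 [(4,1),(10,1)]) (.cons (.leaf 1 [(10,1)]) (.cons (.leaf 1 [(4,1),(10,1)]) (.cons (.leaf 1 [(3,1),(10,1)]) (.cons (.leaf 1 [(10,1)]) .nil)))))))))) (.cons (.keep [4,5,7,8,10] (.node (.cons (.leaf 1 [(3,1),(10,1)]) (.cons (.leaf 1 [(3,1),(10,1)]) (.cons (.leaf 1 [(11,1),(3,1)]) (.cons (.leaf 1 [(4,1),(11,1)]) (.cons (.leaf 1 [(11,1)]) (.cons (.leaf 1 [(4,1),(11,1)]) (.cons (.leaf 1 [(11,1),(3,1)]) (.cons (.leaf 1 [(11,1)]) .nil)))))))))) (.cons (.keep [3,6,7,8,10] (.node (.cons (.leaf 1 [(2,1),(10,1),(7,1)]) (.cons (.leaf 1 [(2,1),(10,1),(7,1)]) (.cons (.leaf 1 [(3,1),(11,1)]) (.cons (.leaf 1 [(4,1),(11,1)]) (.cons (.leaf 1 [(11,1)]) (.cons (.leaf 1 [(4,1),(11,1)]) (.cons (.leaf 1 [(3,1),(11,1)]) (.cons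 (.leaf 1 [(11,1)]) .nil)))))))))) (.cons (.keep [0,3,8,10] (.node (.cons (.leaf 1 [(2,1),(9,1)]) (.cons (.leaf 1 [(2,1),(9,1)]) (.cons (.leaf 1 [(3,1),(10,1)]) (.cons (.leaf 1 [(4,1),(10,1)]) (.cons (.leaf 1 [(10,1)]) (.cons (.leaf 1 [(4,1),(10,1)]) (.cons (.leaf 1 [(3,1),(10,1)]) (.cons (.leaf 1 [(10,1)]) .nil)))))))))) .nil)))))))))) .nil)))))))))) (.cons (.keep [6,7,9,10,11] (.node (.cons (.leaf 1 [(7,1)]) (.cons (.keep [2,7,9,10,11] (.node (.cons (.leaf 1 [(3,1)]) (.cons (.leaf 1 [(3,1)]) (.cons (.leaf 1 [(8,1),(3,1)]) (.cons (.leaf 1 [(8,1),(3,1)]) (.cons (.keep [4,7,8,10,11] (.node (.cons (.leaf 1 [(2,1),(9,1)]) (.cons (.leaf 1 [(2,1),(9,1)]) (.cons (.leaf 1 [(3,1),(10,1)]) (.cons (.leaf 1 [(4,1),(10,1)]) (.cons (.leaf 1 [(10,1)]) (.cons (.leaf 1 [(10,1),(4,1)]) (.cons (.leaf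 1 [(10,1),(3,1)]) (.cons (.leaf 1 [(10,1)]) .nil)))))))))) (.cons (.keep [1,4,8,10,11] (.node (.cons (.leaf 1 [(2,1),(9,1)]) (.cons (.leaf 1 [(2,1),(9,1)]) (.cons (.leaf 1 [(3,1),(10,1)]) (.cons (.leaf 1 [(4,1),(10,1)]) (.cons (.leaf 1 [(10,1)]) (.cons (.leaf 1 [(10,1),(4,1)]) (.cons (.leaf 1 [(10,1),(3,1)]) (.cons (.leaf 1 [(10,1)]) .nil)))))))))) (.cons (.keep [3,7,8,10,11] (.node (.cons (.leaf 1 [(2,1),(9,1)]) (.cons (.leaf 1 [(2,1),(9,1)]) (.cons (.leaf 1 [(3,1),(10,1)]) (.cons (.leaf 1 [(4,1),(10,1)]) (.cons (.leaf 1 [(10,1)]) (.cons (.leaf 1 [(10,1),(4,1)]) (.cons (.leaf 1 [(10,1),(3,1)]) (.cons (.leaf 1 [(10,1)]) .nil)))))))))) (.cons (.keep [0,3,8,10,11] (.node (.cons (.leaf 1 [(2,1),(9,1)]) (.cons (.leaf 1 [(2,1),(9,1)]) (.cons (.leaf 1 [(3,1),(10,1)]) (.cons (.leaf 1 [(4,1),(10,1)])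 (.cons (.leaf 1 [(10,1)]) (.cons (.leaf 1 [(10,1),(4,1)]) (.cons (.leaf 1 [(10,1),(3,1)]) (.cons (.leaf 1 [(10,1)]) .nil)))))))))) .nil)))))))))) (.cons (.leaf 1 [(1,1),(3,1)]) (.cons (.leaf 1 [(1,1),(4,1)]) (.cons (.leaf 1 [(7,1),(1,1)]) (.cons (.leaf 1 [(1,1),(7,1),(4,1)]) (.cons (.leaf 1 [(1,1),(7,1)]) (.cons (.keep [0,1,7,9,10] (.node (.cons (.leaf 1 [(3,1),(8,1)]) (.cons (.leaf 1 [(8,1),(3,1)]) (.cons (.leaf 1 [(3,1),(9,1),(8,1)]) (.cons (.leaf 1 [(9,1),(8,1),(3,1)]) (.cons (.keep [4,7,8,9] (.node (.cons (.leaf 1 [(3,1)]) (.cons (.leaf 1 [(4,1)]) (.cons (.leaf 1 [(3,1)]) (.cons (.leaf 1 [(4,1)]) (.cons (.leaf 1 []) (.cons (.leaf 1 [(4,1)]) (.cons (.leaf 1 [(3,1)]) (.cons (.leaf 1 []) .nil)))))))))) (.cons (.keep [4,5,7,8,9] (.node (.cons (.leaf 1 [(2,1)]) (.cons (.leaf 1 [(4,1),(8,1)])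 (.cons (.leaf 1 []) (.cons (.leaf 1 [(4,1),(8,1)]) (.cons (.leaf 1 [(2,1)]) (.cons (.leaf 1 [(2,1),(4,1)]) (.cons (.leaf 1 [(2,1)]) (.cons (.leaf 1 [(8,1)]) .nil)))))))))) (.cons (.keep [3,6,7,8,9] (.node (.cons (.leaf 1 [(3,1),(8,1)]) (.cons (.leaf 1 [(4,1),(8,1)]) (.cons (.leaf 1 [(3,2)]) (.cons (.leaf 1 [(4,1),(3,1)]) (.cons (.leaf 1 [(8,1)]) (.cons (.leaf 1 [(8,1),(4,1)]) (.cons (.leaf 1 [(8,1),(3,1)]) (.cons (.leaf 1 [(8,1)]) .nil)))))))))) (.cons (.keep [0,3,8,9] (.node (.cons (.leaf 1 [(3,1)]) (.cons (.leaf 1 [(4,1)]) (.cons (.leaf 1 [(3,1)]) (.cons (.leaf 1 [(4,1)]) (.cons (.leaf 1 []) (.cons (.leaf 1 [(4,1)]) (.cons (.leaf 1 [(3,1)]) (.cons (.leaf 1 []) .nil)))))))))) .nil)))))))))) .nil)))))))))) (.cons (.keep [5,7,9,10,11] (.node (.cons (.leaf 1 []) (.cons (.keep [5,7,9,10,11]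 (.node (.cons (.leaf 1 [(3,1),(8,1)]) (.cons (.leaf 1 [(3,1),(8,1)]) (.cons (.leaf 1 [(3,1)]) (.cons (.leaf 1 [(3,1)]) (.cons (.keep [2,4,8,10,11] (.node (.cons (.leaf 1 [(2,1)]) (.cons (.leaf 1 [(2,1)]) (.cons (.leaf 1 [(3,1),(10,1),(9,1)]) (.cons (.leaf 1 [(4,1),(10,1),(9,1)]) (.cons (.leaf 1 [(9,1),(10,1)]) (.cons (.leaf 1 [(4,1),(10,1),(9,1)]) (.cons (.leaf 1 [(3,1),(10,1),(9,1)]) (.cons (.leaf 1 [(9,1),(10,1)]) .nil)))))))))) (.cons (.keep [2,4,8,10,11] (.node (.cons (.leaf 1 [(2,1)]) (.cons (.leaf 1 [(2,1)]) (.cons (.leaf 1 [(3,1),(10,1),(9,1)]) (.cons (.leaf 1 [(4,1),(10,1),(9,1)]) (.cons (.leaf 1 [(9,1),(10,1)]) (.cons (.leaf 1 [(4,1),(10,1),(9,1)]) (.cons (.leaf 1 [(3,1),(10,1),(9,1)]) (.cons (.leaf 1 [(9,1),(10,1)]) .nil)))))))))) (.cons (.keep [3,7,8,10,11] (.node (.cons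 (.leaf 1 [(2,1)]) (.cons (.leaf 1 [(2,1)]) (.cons (.leaf 1 [(3,1),(10,1),(9,1)]) (.cons (.leaf 1 [(4,1),(10,1),(9,1)]) (.cons (.leaf 1 [(9,1),(10,1)]) (.cons (.leaf 1 [(4,1),(10,1),(9,1)]) (.cons (.leaf 1 [(3,1),(10,1),(9,1)]) (.cons (.leaf 1 [(9,1),(10,1)]) .nil)))))))))) (.cons (.keep [0,3,8,10,11] (.node (.cons (.leaf 1 [(2,1)]) (.cons (.leaf 1 [(2,1)]) (.cons (.leaf 1 [(3,1),(10,1),(9,1)]) (.cons (.leaf 1 [(4,1),(10,1),(9,1)]) (.cons (.leaf 1 [(9,1),(10,1)]) (.cons (.leaf 1 [(4,1),(10,1),(9,1)]) (.cons (.leaf 1 [(3,1),(10,1),(9,1)]) (.cons (.leaf 1 [(9,1),(10,1)]) .nil)))))))))) .nil)))))))))) (.cons (.leaf 1 [(1,1)]) (.cons (.leaf 1 [(1,1),(4,1),(7,1)]) (.cons (.leaf 1 [(1,1)]) (.cons (.leaf 1 [(1,1),(4,1)]) (.cons (.leaf 1 [(1,1)]) (.cons (.keep [0,1,7,9,10] (.node (.cons (.leaf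 1 [(9,1),(3,1),(8,1)]) (.cons (.leaf 1 [(9,1),(8,1),(3,1)]) (.cons (.leaf 1 [(3,1),(8,1)]) (.cons (.leaf 1 [(8,1),(3,1)]) (.cons (.keep [4,7,8,9] (.node (.cons (.leaf 1 [(2,1),(9,1)]) (.cons (.leaf 1 [(2,1),(9,1)]) (.cons (.leaf 1 [(3,1),(10,1)]) (.cons (.leaf 1 [(4,1),(10,1)]) (.cons (.leaf 1 [(10,1)]) (.cons (.leaf 1 [(4,1),(10,1)]) (.cons (.leaf 1 [(3,1),(10,1)]) (.cons (.leaf 1 [(10,1)]) .nil)))))))))) (.cons (.keep [4,5,7,8,9] (.node (.cons (.leaf 1 [(2,1),(10,1)]) (.cons (.leaf 1 [(2,1),(10,1)]) (.cons (.leaf 1 [(11,1)]) (.cons (.leaf 1 [(4,1),(8,1),(11,1)]) (.cons (.leaf 1 [(11,1),(2,1)]) (.cons (.leaf 1 [(4,1),(2,1),(11,1)]) (.cons (.leaf 1 [(11,1),(2,1)]) (.cons (.leaf 1 [(11,1),(8,1)]) .nil)))))))))) (.cons (.keep [3,6,7,8,9] (.node (.cons (.leaf 1 [(2,1),(10,1)]) (.cons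 (.leaf 1 [(2,1),(10,1)]) (.cons (.leaf 1 [(11,1),(3,2)]) (.cons (.leaf 1 [(4,1),(3,1),(11,1)]) (.cons (.leaf 1 [(11,1),(8,1)]) (.cons (.leaf 1 [(4,1),(8,1),(11,1)]) (.cons (.leaf 1 [(11,1),(8,1),(3,1)]) (.cons (.leaf 1 [(11,1),(8,1)]) .nil)))))))))) (.cons (.keep [0,3,8,9] (.node (.cons (.leaf 1 [(2,1),(9,1)]) (.cons (.leaf 1 [(2,1),(9,1)]) (.cons (.leaf 1 [(3,1),(10,1)]) (.cons (.leaf 1 [(4,1),(10,1)]) (.cons (.leaf 1 [(10,1)]) (.cons (.leaf 1 [(4,1),(10,1)]) (.cons (.leaf 1 [(3,1),(10,1)]) (.cons (.leaf 1 [(10,1)]) .nil)))))))))) .nil)))))))))) .nil)))))))))) (.cons (.leaf 1 [(10,1),(9,1)]) (.cons (.leaf 1 [(10,1),(9,1),(5,1)]) (.cons (.leaf 1 [(9,1),(6,1),(10,1)]) (.cons (.leaf 1 [(10,1),(9,1)]) .nil)))))))))) (.cons (.keep [4,7,9,10] (.node (.cons (.leaf 1 [(8,1)]) (.cons (.leaf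 1 [(8,1),(5,1)]) (.cons (.leaf 1 [(9,1),(8,1)]) (.cons (.leaf 1 [(9,1),(8,1),(5,1)]) (.cons (.keep [4,7,8,9,10] (.node (.cons (.leaf 1 [(3,1)]) (.cons (.leaf 1 [(4,1)]) (.cons (.leaf 1 [(3,1)]) (.cons (.leaf 1 [(4,1)]) (.cons (.leaf 1 []) (.cons (.leaf 1 [(4,1)]) (.cons (.leaf 1 [(3,1)]) (.cons (.leaf 1 []) .nil)))))))))) (.cons (.keep [5,7,8,9,10] (.node (.cons (.leaf 1 [(2,1)]) (.cons (.leaf 1 [(4,1),(7,1)]) (.cons (.leaf 1 []) (.cons (.leaf 1 [(4,1),(7,1)]) (.cons (.leaf 1 [(2,1)]) (.cons (.leaf 1 [(2,1),(4,1)]) (.cons (.leaf 1 [(2,1)]) (.cons (.leaf 1 [(7,1)]) .nil)))))))))) (.cons (.keep [6,7,8,9,10] (.node (.cons (.leaf 1 [(3,1),(7,1)]) (.cons (.leaf 1 [(4,1),(7,1)]) (.cons (.leaf 1 [(3,2)]) (.cons (.leaf 1 [(4,1),(3,1)]) (.cons (.leaf 1 [(7,1)]) (.cons (.leaf 1 [(7,1),(4,1)])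 (.cons (.leaf 1 [(7,1),(3,1)]) (.cons (.leaf 1 [(7,1)]) .nil)))))))))) (.cons (.keep [0,3,7,8,9] (.node (.cons (.leaf 1 [(3,1)]) (.cons (.leaf 1 [(4,1)]) (.cons (.leaf 1 [(3,1)]) (.cons (.leaf 1 [(4,1)]) (.cons (.leaf 1 []) (.cons (.leaf 1 [(4,1)]) (.cons (.leaf 1 [(3,1)]) (.cons (.leaf 1 []) .nil)))))))))) .nil)))))))))) (.cons (.leaf 1 [(1,1)]) (.cons (.leaf 1 [(1,1)]) (.cons (.leaf 1 [(9,1),(1,1)]) (.cons (.leaf 1 [(9,1),(1,1)]) (.cons (.leaf 1 [(9,1),(6,1),(1,1)]) (.cons (.keep [0,1,7,9] (.node (.cons (.leaf 1 [(3,1),(8,1)]) (.cons (.leaf 1 [(8,1),(3,1)]) (.cons (.leaf 1 [(3,1),(10,1),(8,1)]) (.cons (.leaf 1 [(10,1),(8,1),(3,1)]) (.cons (.keep [4,7,8,10] (.node (.cons (.leaf 1 [(3,1)]) (.cons (.leaf 1 [(4,1)]) (.cons (.leaf 1 [(3,1)]) (.cons (.leaf 1 [(4,1)]) (.cons (.leaf 1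 []) (.cons (.leaf 1 [(4,1)]) (.cons (.leaf 1 [(3,1)]) (.cons (.leaf 1 []) .nil)))))))))) (.cons (.keep [4,5,7,8,10] (.node (.cons (.leaf 1 [(2,1)]) (.cons (.leaf 1 [(4,1),(8,1)]) (.cons (.leaf 1 []) (.cons (.leaf 1 [(4,1),(8,1)]) (.cons (.leaf 1 [(2,1)]) (.cons (.leaf 1 [(2,1),(4,1)]) (.cons (.leaf 1 [(2,1)]) (.cons (.leaf 1 [(8,1)]) .nil)))))))))) (.cons (.keep [3,6,7,8,10] (.node (.cons (.leaf 1 [(3,1),(8,1)]) (.cons (.leaf 1 [(4,1),(8,1)]) (.cons (.leaf 1 [(3,2)]) (.cons (.leaf 1 [(4,1),(3,1)]) (.cons (.leaf 1 [(8,1)]) (.cons (.leaf 1 [(8,1),(4,1)]) (.cons (.leaf 1 [(8,1),(3,1)]) (.cons (.leaf 1 [(8,1)]) .nil)))))))))) (.cons (.keep [0,3,8,10] (.node (.cons (.leaf 1 [(3,1)]) (.cons (.leaf 1 [(4,1)]) (.cons (.leaf 1 [(3,1)]) (.cons (.leaf 1 [(4,1)]) (.cons (.leaf 1 []) (.cons (.leaf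 1 [(4,1)]) (.cons (.leaf 1 [(3,1)]) (.cons (.leaf 1 []) .nil)))))))))) .nil)))))))))) .nil)))))))))

theorem c_30_24_5 : Concl 30 24 z_30_24_5 h_30_24_5 .nd := piece _ hP_nil t_30_24_5 _ _ (by
  decide +kernel)

end Pool.Agent.H4.RD4.E60
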