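import Pool.Agent.H50.Rdb.Misc

/-!
# Easy cases of order four

`(9, 17)`, `(17, 7)`, `(17, 13)`: limits along a backward orbit, `no_N3`. `(4, 16)`, `(5, 16)`: two interleaved solutions of the cases `(2, 4)`,
`(3, 4)`. `(9, 19)` and the constant numerators are known.
-/

namespace Pool.Agent.H4.RD4

open Filter Topology
open Pool.Agent.H50.Rdb
open Pool.Agent.H81.RDE (Params IsSolution SpecialCase Belongs ESB Admissible caseOf Sign)

/-- numerator `a₀, a₃`, denominator `b₀, b₄` -/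
theorem noBack_N3c {a b : ℕ → ℝ} (na : ∀ i < 5, 0 ≤ a i) (nb : ∀ i < 5, 0 ≤ b i) (ha0 : 0 < a 0) (ha1 : a 1 = 0)
    (ha2 : a 2 = 0) (ha3 : 0 < a 3) (ha4 : a 4 = 0) (hb0 : 0 < b 0) (hb1 : b 1 = 0) (hb2 : b 2 = 0)
    (hb3 : b 3 = 0) (hb4 : 0 < b 4) : NoBack a b := by
  intro l X hX
  obtain ⟨r, v, h⟩ := exists_lims hX na nb
  have hz : ∀ j, 0 < r j → Bd l X (j + 4) := fun j hj => h.bd_add (m := 4) (by norm_num) (by norm_num) hb4 hj
  have hE1 : ∀ j, 0 < r j → r j * (b 0 + b 4 * v (j + 4)) = a 3 * r (j + 3) := by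
    intro j hj
    have := h.eq1 j (Or.inl hb1) (Or.inl hb2) (Or.inl hb3) (Or.inr (hz j hj))
    rw [ha1, ha2, ha4, hb1, hb2, hb3] at this
    linarith
  have hlow : ∀ j, 0 < r j → r j * b 0 ≤ a 3 * r (j + 3) := by
    intro j hj
    rw [← hE1 j hj]
    refine mul_le_mul_of_nonneg_left ?_ hj.le
    have := mul_nonneg hb4.le (h.v_nonneg (hz j hj))
    linarith
  have hS : ∀ j, 0 < r (3 * j) := by
    intro j
    induction j with
    | zero => rw [mul_zero, h.r_zero]; norm_num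
    | succ j ih =>
      have h2 : 0 < a 3 * r (3 * j + 3) := lt_of_lt_of_le (mul_pos ih hb0) (hlow _ ih)
      exact pos_of_mul_pos_right h2 ha3.le
  have hB1 : ∀ j, Bd l X (3 * j + 4) := fun j => hz _ (hS j)
  have hB2 : ∀ j, Bd l X (3 * j + 2) := fun j =>
    h.bd_of_add (m := 4) (by norm_num) (by norm_num) hb4 (by
      have := hS (j + 2)
      have e : 3 * (j + 2) = 3 * j + 2 + 4 := by ring
      rwa [e] at this)
  have hv2 : ∀ j, v (3 * j + 2) = 0 := by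
    intro j
    have h2 := h.eq2 (hB2 j)
    have e3 : 3 * j + 2 + 3 = 3 * (j + 1) + 2 := by ring
    have e4 : 3 * j + 2 + 4 = 3 * (j + 2) := by ring
    rw [ha1, ha2, ha4, hb1, hb2, hb3, e3, e4, h.r_eq_zero (hB2 (j + 1))] at h2
    have h3 : v (3 * j + 2) * (b 4 * r (3 * (j + 2))) = 0 := by linarith
    rcases mul_eq_zero.1 h3 with h5 | h5
    · exact h5
    · exact absurd h5 (mul_pos hb4 (hS _)).ne'
  refine no_N3 (a0 := a 0) (a3 := a 3) (b0 := b 0) (v := fun j => v (3 * j + 4))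
    (ρ := fun j => r (3 * j)) ha0 ha3 (fun j => h.v_nonneg (hB1 j)) (fun j => ?_) hS
    (fun j => h.r_le_one _) (fun j => hlow _ (hS j))
  have e3 : 3 * j + 4 + 3 = 3 * (j + 1) + 4 := by ring
  have e4 : 3 * j + 4 + 4 = 3 * (j + 2) + 2 := by ring
  have h3 := h.eq3 (hB1 j) (Or.inl ⟨ha1, hb1⟩) (Or.inl ⟨ha2, hb2⟩)
    (Or.inr (by rw [e3]; exact hB1 (j + 1))) (Or.inr (by rw [e4]; exact hB2 (j + 2)))
  rw [ha1, ha2, ha4, hb1, hb2, hb3, e3, e4, hv2] at h3
  show v (3 * j + 4) * b 0 = a 0 + a 3 * v (3 * (j + 1) + 4)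
  linarith

/-- numerator `a₀, a₄`, denominator `b₀, b₁, b₂` -/
theorem noBack_N4a {a b : ℕ → ℝ} (na : ∀ i < 5, 0 ≤ a i) (nb : ∀ i < 5, 0 ≤ b i) (ha0 : 0 < a 0) (ha1 : a 1 = 0)
    (ha2 : a 2 = 0) (ha3 : a 3 = 0) (ha4 : 0 < a 4) (hb0 : 0 < b 0) (hb1 : 0 < b 1) (hb2 : 0 < b 2)
    (hb3 : b 3 = 0) (hb4 : b 4 = 0) : NoBack a b := by
  intro l X hX
  obtain ⟨r, v, h⟩ := exists_lims hX na nb
  have hz1 : ∀ j, 0 < r j → Bd l X (j + 1) := fun j hj => h.bd_add (m := 1) (by norm_num) (by norm_num) hb1 hj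
  have hz2 : ∀ j, 0 < r j → Bd l X (j + 2) := fun j hj => h.bd_add (m := 2) (by norm_num) (by norm_num) hb2 hj
  have hlow : ∀ j, 0 < r j → r j * b 0 ≤ a 4 * r (j + 4) := by
    intro j hj
    have := h.eq1 j (Or.inr (hz1 j hj)) (Or.inr (hz2 j hj)) (Or.inl hb3) (Or.inl hb4)
    rw [ha1, ha2, ha3, hb3, hb4] at this
    have q1 := mul_nonneg hj.le (mul_nonneg hb1.le (h.v_nonneg (hz1 j hj)))
    have q2 := mul_nonneg hj.le (mul_nonneg hb2.le (h.v_nonneg (hz2 j hj)))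
    linarith
  have hS : ∀ j, 0 < r (4 * j) := by
    intro j
    induction j with
    | zero => rw [mul_zero, h.r_zero]; norm_num
    | succ j ih =>
      have h2 : 0 < a 4 * r (4 * j + 4) := lt_of_lt_of_le (mul_pos ih hb0) (hlow _ ih)
      exact pos_of_mul_pos_right h2 ha4.le
  have hB1 : ∀ j, Bd l X (4 * j + 1) := fun j => hz1 _ (hS j)
  have hB2 : ∀ j, Bd l X (4 * j + 2) := fun j => hz2 _ (hS j)
  have hB3 : ∀ j, Bd l X (4 * j + 3) := fun j =>
    h.bd_of_add (m := 1) (by norm_num) (by norm_num) hb1 (by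
      have := hS (j + 1)
      have e : 4 * (j + 1) = 4 * j + 3 + 1 := by ring
      rwa [e] at this)
  have hv3 : ∀ j, v (4 * j + 3) = 0 := by
    intro j
    have h2 := h.eq2 (hB3 j)
    have e1 : 4 * j + 3 + 1 = 4 * (j + 1) := by ring
    have e2 : 4 * j + 3 + 2 = 4 * (j + 1) + 1 := by ring
    have e4 : 4 * j + 3 + 4 = 4 * (j + 1) + 3 := by ring
    rw [ha1, ha2, ha3, hb3, hb4, e1, e2, e4, h.r_eq_zero (hB1 (j + 1)), h.r_eq_zero (hB3 (j + 1))] at h2
    have h3 : v (4 * j + 3) * (b 1 * r (4 * (j + 1))) = 0 := by linarith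
    rcases mul_eq_zero.1 h3 with h5 | h5
    · exact h5
    · exact absurd h5 (mul_pos hb1 (hS _)).ne'
  have hv2 : ∀ j, v (4 * j + 2) = 0 := by
    intro j
    have h2 := h.eq2 (hB2 j)
    have e1 : 4 * j + 2 + 1 = 4 * j + 3 := by ring
    have e2 : 4 * j + 2 + 2 = 4 * (j + 1) := by ring
    have e4 : 4 * j + 2 + 4 = 4 * (j + 1) + 2 := by ring
    rw [ha1, ha2, ha3, hb3, hb4, e1, e2, e4, h.r_eq_zero (hB3 j), h.r_eq_zero (hB2 (j + 1))] at h2
    have h3 : v (4 * j + 2) * (b 2 * r (4 * (j + 1))) = 0 := by linarith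
    rcases mul_eq_zero.1 h3 with h5 | h5
    · exact h5
    · exact absurd h5 (mul_pos hb2 (hS _)).ne'
  refine no_N3 (a0 := a 0) (a3 := a 4) (b0 := b 0) (v := fun j => v (4 * j + 1))
    (ρ := fun j => r (4 * j)) ha0 ha4 (fun j => h.v_nonneg (hB1 j)) (fun j => ?_) hS
    (fun j => h.r_le_one _) (fun j => hlow _ (hS j))
  have e1 : 4 * j + 1 + 1 = 4 * j + 2 := by ring
  have e2 : 4 * j + 1 + 2 = 4 * j + 3 := by ring
  have e4 : 4 * j + 1 + 4 = 4 * (j + 1) + 1 := by ring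
  have h3 := h.eq3 (hB1 j) (Or.inr (by rw [e1]; exact hB2 j)) (Or.inr (by rw [e2]; exact hB3 j))
    (Or.inl ⟨ha3, hb3⟩) (Or.inr (by rw [e4]; exact hB1 (j + 1)))
  rw [ha1, ha2, ha3, hb3, hb4, e1, e2, e4, hv2, hv3] at h3
  show v (4 * j + 1) * b 0 = a 0 + a 4 * v (4 * (j + 1) + 1)
  linarith

/-- numerator `a₀, a₄`, denominator `b₀, b₂, b₃` -/
theorem noBack_N4b {a b : ℕ → ℝ} (na : ∀ i < 5, 0 ≤ a i) (nb : ∀ i < 5, 0 ≤ b i) (ha0 : 0 < a 0) (ha1 : a 1 = 0)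
    (ha2 : a 2 = 0) (ha3 : a 3 = 0) (ha4 : 0 < a 4) (hb0 : 0 < b 0) (hb1 : b 1 = 0) (hb2 : 0 < b 2)
    (hb3 : 0 < b 3) (hb4 : b 4 = 0) : NoBack a b := by
  intro l X hX
  obtain ⟨r, v, h⟩ := exists_lims hX na nb
  have hz2 : ∀ j, 0 < r j → Bd l X (j + 2) := fun j hj => h.bd_add (m := 2) (by norm_num) (by norm_num) hb2 hj
  have hz3 : ∀ j, 0 < r j → Bd l X (j + 3) := fun j hj => h.bd_add (m := 3) (by norm_num) (by norm_num) hb3 hj
  have hlow : ∀ j, 0 < r j → r j * b 0 ≤ a 4 * r (j + 4) := by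
    intro j hj
    have := h.eq1 j (Or.inl hb1) (Or.inr (hz2 j hj)) (Or.inr (hz3 j hj)) (Or.inl hb4)
    rw [ha1, ha2, ha3, hb1, hb4] at this
    have q1 := mul_nonneg hj.le (mul_nonneg hb2.le (h.v_nonneg (hz2 j hj)))
    have q2 := mul_nonneg hj.le (mul_nonneg hb3.le (h.v_nonneg (hz3 j hj)))
    linarith
  have hS : ∀ j, 0 < r (4 * j) := by
    intro j
    induction j with
    | zero => rw [mul_zero, h.r_zero]; norm_num
    | succ j ih =>
      have h2 : 0 < a 4 * r (4 * j + 4) := lt_of_lt_of_le (mul_pos ih hb0) (hlow _ ih)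
      exact pos_of_mul_pos_right h2 ha4.le
  have hB2 : ∀ j, Bd l X (4 * j + 2) := fun j => hz2 _ (hS j)
  have hB3 : ∀ j, Bd l X (4 * j + 3) := fun j => hz3 _ (hS j)
  have hB1 : ∀ j, Bd l X (4 * j + 1) := fun j =>
    h.bd_of_add (m := 3) (by norm_num) (by norm_num) hb3 (by
      have := hS (j + 1)
      have e : 4 * (j + 1) = 4 * j + 1 + 3 := by ring
      rwa [e] at this)
  have hv1 : ∀ j, v (4 * j + 1) = 0 := by
    intro j
    have h2 := h.eq2 (hB1 j)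
    have e2 : 4 * j + 1 + 2 = 4 * j + 3 := by ring
    have e3 : 4 * j + 1 + 3 = 4 * (j + 1) := by ring
    have e4 : 4 * j + 1 + 4 = 4 * (j + 1) + 1 := by ring
    rw [ha1, ha2, ha3, hb1, hb4, e2, e3, e4, h.r_eq_zero (hB3 j), h.r_eq_zero (hB1 (j + 1))] at h2
    have h3 : v (4 * j + 1) * (b 3 * r (4 * (j + 1))) = 0 := by linarith
    rcases mul_eq_zero.1 h3 with h5 | h5
    · exact h5
    · exact absurd h5 (mul_pos hb3 (hS _)).ne'
  have hv2 : ∀ j, v (4 * j + 2) = 0 := by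
    intro j
    have h2 := h.eq2 (hB2 j)
    have e2 : 4 * j + 2 + 2 = 4 * (j + 1) := by ring
    have e3 : 4 * j + 2 + 3 = 4 * (j + 1) + 1 := by ring
    have e4 : 4 * j + 2 + 4 = 4 * (j + 1) + 2 := by ring
    rw [ha1, ha2, ha3, hb1, hb4, e2, e3, e4, h.r_eq_zero (hB1 (j + 1)), h.r_eq_zero (hB2 (j + 1))] at h2
    have h3 : v (4 * j + 2) * (b 2 * r (4 * (j + 1))) = 0 := by linarith
    rcases mul_eq_zero.1 h3 with h5 | h5
    · exact h5
    · exact absurd h5 (mul_pos hb2 (hS _)).ne'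
  refine no_N3 (a0 := a 0) (a3 := a 4) (b0 := b 0) (v := fun j => v (4 * j + 3))
    (ρ := fun j => r (4 * j)) ha0 ha4 (fun j => h.v_nonneg (hB3 j)) (fun j => ?_) hS
    (fun j => h.r_le_one _) (fun j => hlow _ (hS j))
  have e2 : 4 * j + 3 + 2 = 4 * (j + 1) + 1 := by ring
  have e3 : 4 * j + 3 + 3 = 4 * (j + 1) + 2 := by ring
  have e4 : 4 * j + 3 + 4 = 4 * (j + 1) + 3 := by ring
  have h3 := h.eq3 (hB3 j) (Or.inl ⟨ha1, hb1⟩) (Or.inr (by rw [e2]; exact hB1 (j + 1)))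
    (Or.inr (by rw [e3]; exact hB2 (j + 1))) (Or.inr (by rw [e4]; exact hB3 (j + 1)))
  rw [ha1, ha2, ha3, hb1, hb4, e2, e3, e4, hv1, hv2] at h3
  show v (4 * j + 3) * b 0 = a 0 + a 4 * v (4 * (j + 1) + 3)
  linarith

theorem esb_9_17 : ESB (caseOf 4 9 17) :=
  esb_of_noBack (by norm_num) (by norm_num) (by norm_num) (by norm_num) fun a b ha hb =>
    noBack_N3c (fun i hi => ha.nonneg hi) (fun i hi => hb.nonneg hi) (ha.pos (by norm_num) (by decide))
      (ha.zero (by norm_num) (by decide)) (ha.zero (by norm_num) (by decide)) (ha.pos (by norm_num) (by decide))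
      (ha.zero (by norm_num) (by decide)) (hb.pos (by norm_num) (by decide)) (hb.zero (by norm_num) (by decide))
      (hb.zero (by norm_num) (by decide)) (hb.zero (by norm_num) (by decide)) (hb.pos (by norm_num) (by decide))

theorem esb_17_7 : ESB (caseOf 4 17 7) :=
  esb_of_noBack (by norm_num) (by norm_num) (by norm_num) (by norm_num) fun a b ha hb =>
    noBack_N4a (fun i hi => ha.nonneg hi) (fun i hi => hb.nonneg hi) (ha.pos (by norm_num) (by decide))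
      (ha.zero (by norm_num) (by decide)) (ha.zero (by norm_num) (by decide)) (ha.zero (by norm_num) (by decide))
      (ha.pos (by norm_num) (by decide)) (hb.pos (by norm_num) (by decide)) (hb.pos (by norm_num) (by decide))
      (hb.pos (by norm_num) (by decide)) (hb.zero (by norm_num) (by decide)) (hb.zero (by norm_num) (by decide))

theorem esb_17_13 : ESB (caseOf 4 17 13) :=
  esb_of_noBack (by norm_num) (by norm_num) (by norm_num) (by norm_num) fun a b ha hb =>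
    noBack_N4b (fun i hi => ha.nonneg hi) (fun i hi => hb.nonneg hi) (ha.pos (by norm_num) (by decide))
      (ha.zero (by norm_num) (by decide)) (ha.zero (by norm_num) (by decide)) (ha.zero (by norm_num) (by decide))
      (ha.pos (by norm_num) (by decide)) (hb.pos (by norm_num) (by decide)) (hb.zero (by norm_num) (by decide))
      (hb.pos (by norm_num) (by decide)) (hb.pos (by norm_num) (by decide)) (hb.zero (by norm_num) (by decide))

/-- two interleaved solutions -/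
theorem esb_inter {N N' : ℕ} (hN : (N = 2 ∧ N' = 4) ∨ (N = 3 ∧ N' = 5)) (h : ESB (caseOf 4 N 4)) :
    ESB (caseOf 4 N' 16) := by
  refine esb_of_nonneg fun a b x ha hb hx => ?_
  have a2 : 0 < a 2 := ha.pos (by norm_num) (by rcases hN with ⟨-, rfl⟩ | ⟨-, rfl⟩ <;> decide)
  have a1 : a 1 = 0 := ha.zero (by norm_num) (by rcases hN with ⟨-, rfl⟩ | ⟨-, rfl⟩ <;> decide)
  have a3 : a 3 = 0 := ha.zero (by norm_num) (by rcases hN with ⟨-, rfl⟩ | ⟨-, rfl⟩ <;> decide)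
  have a4 : a 4 = 0 := ha.zero (by norm_num) (by rcases hN with ⟨-, rfl⟩ | ⟨-, rfl⟩ <;> decide)
  have b4 : 0 < b 4 := hb.pos (by norm_num) (by decide)
  have b0 : b 0 = 0 := hb.zero (by norm_num) (by decide)
  have b1 : b 1 = 0 := hb.zero (by norm_num) (by decide)
  have b2 : b 2 = 0 := hb.zero (by norm_num) (by decide)
  have b3 : b 3 = 0 := hb.zero (by norm_num) (by decide)
  have hlin : ∀ n, 0 < b 4 * x n ∧ x (n + 4) = (a 0 + a 2 * x (n + 2)) / (b 4 * x n) := by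
    intro n
    obtain ⟨h1, h2⟩ := hx.2 n
    unfold lin at h1 h2
    rw [b0, b1, b2, b3] at h1 h2
    rw [a1, a3, a4] at h2
    have e1 : 0 + 0 * x (n + 3) + 0 * x (n + 2) + 0 * x (n + 1) + b 4 * x n = b 4 * x n := by ring
    have e2 : a 0 + 0 * x (n + 3) + a 2 * x (n + 2) + 0 * x (n + 1) + 0 * x n = a 0 + a 2 * x (n + 2) := by ring
    rw [e1] at h1 h2
    rw [e2] at h2
    exact ⟨h1, h2⟩
  obtain ⟨P, hP⟩ : ∃ P : Params 4, P = ⟨a 0, fun i => if i = 0 then a 2 else 0, 0, fun i => if i = 1 then b 4 else 0⟩ :=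
    ⟨_, rfl⟩
  have hbel : Belongs (caseOf 4 N 4) P := by
    rw [hP]
    refine ⟨?_, ?_, ?_, ?_⟩
    · rcases hN with ⟨rfl, rfl⟩ | ⟨rfl, rfl⟩
      · show a 0 = 0
        exact ha.zero (by norm_num) (by decide)
      · show 0 < a 0
        exact ha.pos (by norm_num) (by decide)
    · intro i
      rcases hN with ⟨rfl, rfl⟩ | ⟨rfl, rfl⟩ <;> fin_cases i <;> first | exact a2 | exact (rfl : (0 : ℝ) = 0)
    · rfl
    · intro i
      fin_cases i <;> first | exact b4 | exact (rfl : (0 : ℝ) = 0)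
  have hsol : ∀ e : ℕ, IsSolution P (fun m => x (2 * m + e)) := by
    intro e
    rw [hP]
    refine ⟨fun n _ => hx.1 _, fun n => ?_⟩
    have e8 : 2 * (n + 4) + e = 2 * n + e + 4 + 4 := by ring
    have e6 : 2 * (n + 3) + e = 2 * n + e + 4 + 2 := by ring
    have e4 : 2 * (n + 2) + e = 2 * n + e + 4 := by ring
    obtain ⟨h1, h2⟩ := hlin (2 * n + e + 4)
    simp only [Fin.sum_univ_four]
    simp only [Fin.isValue, if_true, zero_add, zero_mul, add_zero, Fin.reduceEq, if_false, one_ne_zero,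
      zero_ne_one, Fin.val_zero, Fin.val_one, Fin.val_two]
    have q3 : n + 4 - 1 - 0 = n + 3 := by omega
    have q2 : n + 4 - 1 - 1 = n + 2 := by omega
    rw [q3, q2, e8, e6, e4]
    exact ⟨h1, h2⟩
  obtain ⟨M0, hM0⟩ := h P hbel _ (hsol 0)
  obtain ⟨M1, hM1⟩ := h P hbel _ (hsol 1)
  refine ⟨max M0 M1, fun n => ?_⟩
  rcases Nat.even_or_odd' n with ⟨m, hm | hm⟩
  · rw [hm]
    exact (hM0 m).trans (le_max_left _ _)
  · rw [hm]
    exact (hM1 m).trans (le_max_right _ _)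

theorem esb_4_16 : ESB (caseOf 4 4 16) := esb_inter (Or.inl ⟨rfl, rfl⟩) esb_2_4

theorem esb_5_16 : ESB (caseOf 4 5 16) := esb_inter (Or.inr ⟨rfl, rfl⟩) esb_3_4

/-- the cases of this file and the known ones with a mask at least 16 -/
def easy4 : List (ℕ × ℕ) := [(9, 17), (17, 7), (17, 13), (4, 16), (5, 16), (9, 19), (1, 16), (1, 18), (1, 20), (1, 22),
  (1, 24), (1, 26), (1, 28), (1, 30)]

theorem esb_easy (N D : ℕ) (h : (N, D) ∈ easy4) : ESB (caseOf 4 N D) := by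
  simp only [easy4, List.mem_cons, Prod.mk.injEq, List.not_mem_nil, or_false] at h
  rcases h with ⟨rfl, rfl⟩ | ⟨rfl, rfl⟩ | ⟨rfl, rfl⟩ | ⟨rfl, rfl⟩ | ⟨rfl, rfl⟩ | ⟨rfl, rfl⟩ | ⟨rfl, rfl⟩ | ⟨rfl, rfl⟩ |
    ⟨rfl, rfl⟩ | ⟨rfl, rfl⟩ | ⟨rfl, rfl⟩ | ⟨rfl, rfl⟩ | ⟨rfl, rfl⟩ | ⟨rfl, rfl⟩
  · exact esb_9_17
  · exact esb_17_7
  · exact esb_17_13
  · exact esb_4_16
  · exact esb_5_16
  · exact esb_N3a (Or.inr rfl)
  all_goals exact esb_const (by norm_num) (by norm_num) (by decide)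

end Pool.Agent.H4.RD4
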