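import Pool.Agent.H4.RD4.M3II
import Pool.Agent.H30.M3.FamI

/-!
# The mod three family with `a₄, b₁ > 0`

If `a₁ b₄ < a₄ b₁` this is family I (helper30's reduction, regions F1a, F1b: helper30; F2, F3: here; F4: helper23); otherwise
`a₁ > 0` and it is family II.
-/

namespace Pool.Agent.H4.RD4

open Pool.Agent.H50.Rdb
open Pool.Agent.H81.RDE (ESB caseOf)
open Pool.Agent.H30.M3

/-- **the limit system has no solution if `a₄, b₁ > 0`** -/
theorem noM3_41 {a b : ℕ → ℝ} (ha0 : 0 ≤ a 0) (ha1 : 0 ≤ a 1) (ha3 : 0 < a 3) (ha4 : 0 < a 4) (hb0 : 0 ≤ b 0)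
    (hb1 : 0 < b 1) (hb4 : 0 < b 4) : NoM3 a b := by
  rcases lt_or_ge (a 1 * b 4) (a 4 * b 1) with h | h
  · exact noM3_famI ha0 ha1 ha3 ha4.le hb0 hb1.le hb4 h
  · have h1 : 0 < a 1 * b 4 := (mul_pos ha4 hb1).trans_le h
    exact noM3_II ha0 (pos_of_mul_pos_left h1 hb4.le) ha3 ha4.le hb0 hb1.le hb4 h (Or.inl ha4)

theorem I_aux {N D : ℕ} (hN3 : N.testBit 3 = true) (hN4 : N.testBit 4 = true) (hD1 : D.testBit 1 = true)
    (hD4 : D.testBit 4 = true) (a b : ℕ → ℝ) (ha : Pat N a) (hb : Pat D b) : NoM3 a b :=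
  noM3_41 (ha.nonneg (by norm_num)) (ha.nonneg (by norm_num)) (ha.pos (by norm_num) hN3)
    (ha.pos (by norm_num) hN4) (hb.nonneg (by norm_num)) (hb.pos (by norm_num) hD1) (hb.pos (by norm_num) hD4)

theorem e_24_18 : ESB (caseOf 4 24 18) := M3a.red_24_18 (I_aux (by decide) (by decide) (by decide) (by decide))

theorem e_24_19 : ESB (caseOf 4 24 19) := M3a.red_24_19 (I_aux (by decide) (by decide) (by decide) (by decide))

theorem e_25_18 : ESB (caseOf 4 25 18) := M3a.red_25_18 (I_aux (by decide) (by decide) (by decide) (by decide))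

theorem e_25_19 : ESB (caseOf 4 25 19) := M3a.red_25_19 (I_aux (by decide) (by decide) (by decide) (by decide))

theorem e_26_18 : ESB (caseOf 4 26 18) := M3a.red_26_18 (I_aux (by decide) (by decide) (by decide) (by decide))

theorem e_26_19 : ESB (caseOf 4 26 19) := M3a.red_26_19 (I_aux (by decide) (by decide) (by decide) (by decide))

theorem e_27_18 : ESB (caseOf 4 27 18) := M3a.red_27_18 (I_aux (by decide) (by decide) (by decide) (by decide))

theorem e_27_19 : ESB (caseOf 4 27 19) := M3a.red_27_19 (I_aux (by decide) (by decide) (by decide) (by decide))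

end Pool.Agent.H4.RD4
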