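import Pool.Agent.H4.RD4.M3

/-! # Shape certificates for the families of period three: `X_3` is comparable with the record -/

set_option maxRecDepth 20000

namespace Pool.Agent.H4.RD4.M3b

open Pool.Agent.H50.Rdb
open Pool.Agent.H81.RDE (ESB caseOf)

def t_10_18 : T := (.keep [0,1,2] (.node (.cons (.leaf 1 []) (.cons (.leaf 1 [(3,1)]) (.cons (.keep [1,4,6,7] (.node (.cons 
(.leaf 0 [(0,0)]) (.cons (.keep [0,2,3,5,6] (.node (.cons (.keep [2,4,7,9] (.node (.cons (.leaf 1 [(5,1)]) 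
(.cons (.leaf 1 [(3,2),(5,1)]) (.cons (.keep [4,5,7,8] (.node (.cons (.leaf 0 [(1,0)]) (.cons 
(.keep [0,5,7,8] (.node (.cons (.leaf 0 [(0,0)]) (.cons (.leaf 0 [(2,0)]) (.cons (.keep [1,4,6,8] (.node 
(.cons (.leaf 1 [(8,1)]) (.cons (.leaf 1 [(3,3),(8,1)]) (.cons (.keep [4,5,7,8] (.node (.cons 
(.leaf 1 [(8,1),(7,3)]) (.cons (.keep [0,5,6,7,8] (.node (.cons (.leaf 1 [(7,1)]) (.cons 
(.leaf 1 [(7,1),(3,2)]) (.cons (.leaf 1 [(8,6),(9,1)]) (.cons (.keep [5,6,7,8,9] (.node (.cons 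
(.leaf 2 [(2,3),(6,3),(9,2)]) (.cons (.leaf 2 [(3,6),(6,3),(9,2),(2,3)]) (.cons (.leaf 2 [(9,2),(6,3),(8,9)]) 
(.cons (.keep [5,6,7,8,9] (.node (.cons (.leaf 1 [(6,3),(8,3),(9,1)]) (.cons 
(.leaf 1 [(0,3),(8,6),(9,1),(6,3)]) (.cons (.leaf 1 [(1,2),(6,1)]) (.cons 
(.leaf 3 [(1,6),(0,2),(7,1),(6,2)]) .nil)))))) .nil)))))) .nil)))))) (.cons (.leaf 1 [(5,2),(6,1)]) (.cons 
(.leaf 1 [(3,2),(6,1),(5,2)]) .nil)))))) (.cons (.keep [3,5,6,7,8] (.node (.cons (.leaf 1 [(9,1),(8,3)]) 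
(.cons (.keep [0,5,6,7,8,9] (.node (.cons (.leaf 1 [(7,1)]) (.cons (.leaf 1 [(7,1),(3,2)]) (.cons 
(.keep [4,5,7,9,10] (.node (.cons (.leaf 1 [(8,3),(9,1)]) (.cons (.leaf 1 [(8,3),(9,1),(3,3)]) (.cons 
(.keep [4,5,7,8,9] (.node (.cons (.keep [0,5,7,9] (.node (.cons (.leaf 1 []) (.cons (.leaf 1 [(3,1)]) (.cons 
(.leaf 1 [(8,1),(5,3)]) (.cons (.leaf 1 [(8,1),(5,3),(3,3)]) .nil)))))) (.cons (.keep [3,5,7,8,9] (.node 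
(.cons (.leaf 5 [(2,2),(7,1)]) (.cons (.leaf 5 [(2,2),(7,1),(3,4)]) (.cons (.leaf 1 [(9,1),(8,9)]) (.cons 
(.leaf 1 [(8,9),(3,3),(9,1)]) .nil)))))) (.cons (.leaf 1 [(5,1),(1,1)]) (.cons 
(.leaf 1 [(1,1),(5,1)]) .nil)))))) (.cons (.keep [3,5,7,8,9] (.node (.cons (.keep [0,5,6,7,9] (.node (.cons 
(.leaf 1 []) (.cons (.leaf 1 [(3,1)]) (.cons (.leaf 1 [(9,1),(6,3),(5,3)]) (.cons 
(.leaf 1 [(9,1),(6,3),(5,3),(3,3)]) .nil)))))) (.cons (.keep [5,6,7,8,9] (.node (.cons 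
(.leaf 3 [(2,2),(7,1),(6,2)]) (.cons (.leaf 3 [(2,2),(7,1),(6,2),(3,2)]) (.cons (.leaf 1 [(5,3),(8,9),(9,1)]) 
(.cons (.leaf 1 [(5,3),(9,1),(3,3),(8,9)]) .nil)))))) (.cons (.leaf 1 [(6,1),(1,2)]) (.cons 
(.leaf 1 [(1,1),(8,1),(6,1)]) .nil)))))) .nil)))))) (.cons (.keep [5,6,7,8,9,10] (.node (.cons 
(.leaf 2 [(6,3),(2,3),(10,2)]) (.cons (.leaf 2 [(6,3),(10,2),(3,6),(2,3)]) (.cons (.keep [4,5,7,9,10] (.node 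
(.cons (.keep [0,5,7,9] (.node (.cons (.leaf 1 []) (.cons (.leaf 1 [(3,1)]) (.cons (.leaf 1 [(8,1),(5,3)]) 
(.cons (.leaf 1 [(8,1),(5,3),(3,3)]) .nil)))))) (.cons (.keep [0,5,7,8,9] (.node (.cons 
(.leaf 2 [(2,2),(7,1)]) (.cons (.leaf 2 [(2,2),(3,1),(7,1)]) (.cons (.leaf 2 [(8,9),(9,2)]) (.cons 
(.leaf 2 [(9,2),(3,6),(8,9)]) .nil)))))) (.cons (.leaf 1 [(5,1),(1,2)]) (.cons 
(.leaf 2 [(1,2),(8,1),(5,2)]) .nil)))))) (.cons (.keep [5,6,7,8,9,10] (.node (.cons (.keep [4,5,7,9,10] 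
(.node (.cons (.leaf 1 [(8,1)]) (.cons (.leaf 1 [(3,1),(8,1)]) (.cons (.leaf 1 [(9,1),(8,3),(5,3)]) (.cons 
(.leaf 1 [(9,1),(8,3),(5,3),(3,3)]) .nil)))))) (.cons (.keep [0,3,7,9,10] (.node (.cons 
(.leaf 1 [(2,2),(6,2),(7,1)]) (.cons (.leaf 1 [(2,2),(7,1),(6,2)]) (.cons (.leaf 1 [(9,1),(8,6),(5,3)]) 
(.cons (.leaf 1 [(9,1),(8,6),(5,3),(3,3)]) .nil)))))) (.cons (.leaf 1 [(1,2)]) (.cons 
(.leaf 3 [(1,6),(6,2),(7,1),(0,2)]) .nil)))))) .nil)))))) .nil)))))) (.cons (.leaf 1 [(1,2),(7,2),(6,1)]) 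
(.cons (.leaf 1 [(1,2),(7,2),(6,1)]) .nil)))))) .nil)))))) (.cons (.keep [3,5,6,7,8] (.node (.cons 
(.leaf 1 [(2,1),(7,1),(9,1)]) (.cons (.leaf 1 [(3,1),(7,1),(9,1),(2,1)]) (.cons (.leaf 1 [(5,4),(9,1),(7,3)]) 
(.cons (.keep [5,6,7,8,9] (.node (.cons (.leaf 1 [(9,1),(7,3),(5,1)]) (.cons (.keep [0,5,7,8,9] (.node (.cons 
(.leaf 1 [(8,1),(6,1)]) (.cons (.leaf 1 [(8,1),(6,1),(3,2)]) (.cons (.keep [4,5,6,8,9] (.node (.cons 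
(.leaf 1 [(7,1),(9,1)]) (.cons (.leaf 1 [(7,1),(9,1),(3,3)]) (.cons (.keep [4,5,7,8,9] (.node (.cons 
(.keep [0,5,8,9] (.node (.cons (.leaf 1 []) (.cons (.leaf 1 [(3,1)]) (.cons (.leaf 1 [(8,1),(5,3)]) (.cons 
(.leaf 1 [(8,1),(5,3),(3,3)]) .nil)))))) (.cons (.keep [3,5,7,8,9] (.node (.cons (.leaf 1 [(7,1)]) (.cons 
(.leaf 1 [(7,1),(3,1)]) (.cons (.leaf 1 [(9,1),(7,7)]) (.cons (.leaf 1 [(7,7),(3,3),(9,1)]) .nil)))))) (.cons 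
(.leaf 1 [(5,1),(1,1)]) (.cons (.leaf 1 [(1,1),(5,1)]) .nil)))))) (.cons (.keep [3,5,7,8,9] (.node (.cons 
(.keep [0,5,6,8,9] (.node (.cons (.leaf 1 []) (.cons (.leaf 1 [(3,1)]) (.cons (.leaf 1 [(9,1),(6,3),(5,3)]) 
(.cons (.leaf 1 [(9,1),(6,3),(5,3),(3,3)]) .nil)))))) (.cons (.keep [5,6,7,8,9] (.node (.cons 
(.leaf 1 [(7,1)]) (.cons (.leaf 1 [(7,1),(3,1)]) (.cons (.leaf 1 [(5,3),(7,7),(9,1)]) (.cons 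
(.leaf 1 [(5,3),(9,1),(3,3),(7,7)]) .nil)))))) (.cons (.leaf 1 [(6,1),(1,2)]) (.cons 
(.leaf 1 [(1,1),(7,1),(6,1)]) .nil)))))) .nil)))))) (.cons (.keep [3,5,6,8,9] (.node (.cons 
(.leaf 1 [(2,1),(9,1),(5,1)]) (.cons (.leaf 1 [(9,1),(3,2),(5,1),(2,1)]) (.cons (.keep [4,5,6,8,9] (.node 
(.cons (.keep [0,5,8,9] (.node (.cons (.leaf 1 []) (.cons (.leaf 1 [(3,1)]) (.cons (.leaf 1 [(8,1),(5,3)]) 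
(.cons (.leaf 1 [(8,1),(5,3),(3,3)]) .nil)))))) (.cons (.keep [0,5,6,8,9] (.node (.cons (.leaf 1 [(7,2)]) 
(.cons (.leaf 1 [(7,2),(3,1)]) (.cons (.leaf 1 [(7,7),(9,1)]) (.cons (.leaf 1 [(9,1),(3,3),(7,7)]) .nil)))))) 
(.cons (.leaf 1 [(5,1),(1,2)]) (.cons (.leaf 1 [(1,1),(6,1),(5,1)]) .nil)))))) (.cons (.keep [5,6,7,8,9] 
(.node (.cons (.keep [4,5,6,8,9] (.node (.cons (.leaf 1 [(6,1)]) (.cons (.leaf 1 [(3,1),(6,1)]) (.cons 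
(.leaf 1 [(9,1),(6,3),(5,3)]) (.cons (.leaf 1 [(9,1),(6,3),(5,3),(3,3)]) .nil)))))) (.cons (.keep [5,6,7,8,9] 
(.node (.cons (.leaf 1 [(5,1),(7,1)]) (.cons (.leaf 1 [(5,1),(7,1),(3,1)]) (.cons 
(.leaf 1 [(9,1),(5,3),(7,4)]) (.cons (.leaf 1 [(7,4),(5,3),(3,3),(9,1)]) .nil)))))) (.cons (.leaf 1 [(1,2)]) 
(.cons (.leaf 1 [(1,1),(7,1)]) .nil)))))) .nil)))))) .nil)))))) (.cons (.leaf 1 [(1,2),(7,1)]) (.cons 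
(.leaf 1 [(1,3),(0,1),(8,1),(7,1)]) .nil)))))) .nil)))))) .nil)))))) (.cons (.leaf 0 [(3,0)]) (.cons 
(.leaf 0 [(4,0)]) .nil)))))) (.cons (.keep [3,5,6,7,8] (.node (.cons (.leaf 0 [(5,0)]) (.cons 
(.keep [0,5,7,8,9] (.node (.cons (.leaf 0 [(0,0)]) (.cons (.leaf 0 [(6,0)]) (.cons (.keep [1,4,5,6,9] (.node 
(.cons (.leaf 1 [(8,1),(9,1)]) (.cons (.leaf 1 [(8,1),(9,1),(3,3)]) (.cons (.keep [4,5,6,8,9] (.node (.cons 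
(.keep [0,5,6,9] (.node (.cons (.leaf 1 []) (.cons (.leaf 1 [(3,1)]) (.cons (.leaf 1 [(8,1),(5,2)]) (.cons 
(.leaf 1 [(8,1),(5,2),(3,2)]) .nil)))))) (.cons (.keep [3,5,6,8,9] (.node (.cons (.leaf 2 [(2,1),(7,1)]) 
(.cons (.leaf 2 [(2,1),(7,1),(3,2)]) (.cons (.keep [4,6,7,9] (.node (.cons (.leaf 1 [(8,1)]) (.cons 
(.leaf 1 [(8,1),(3,5)]) (.cons (.keep [4,6,7,8] (.node (.cons (.leaf 1 [(6,5),(8,1)]) (.cons 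
(.leaf 1 [(6,5),(0,5),(8,1)]) (.cons (.leaf 1 [(5,1)]) (.cons (.leaf 1 [(5,1),(3,1)]) .nil)))))) (.cons 
(.keep [3,5,6,7,8] (.node (.cons (.leaf 1 [(7,5),(9,1)]) (.cons (.leaf 1 [(7,5),(9,1),(0,5)]) (.cons 
(.leaf 1 [(6,1),(1,1)]) (.cons (.leaf 1 [(6,1),(1,1)]) .nil)))))) .nil)))))) (.cons (.keep [3,6,7,8,9] (.node 
(.cons (.leaf 2 [(2,3),(6,3),(9,2)]) (.cons (.leaf 2 [(6,3),(3,4),(9,2),(2,3)]) (.cons 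
(.leaf 1 [(5,7),(6,5),(9,1)]) (.cons (.keep [5,6,7,8,9] (.node (.cons (.leaf 1 [(5,2),(6,5),(9,1)]) (.cons 
(.leaf 1 [(5,2),(0,5),(9,1),(6,5)]) (.cons (.leaf 1 [(6,1),(8,1),(1,2)]) (.cons 
(.leaf 1 [(0,1),(8,1),(1,2),(6,1)]) .nil)))))) .nil)))))) .nil)))))) (.cons (.leaf 1 [(5,1),(1,1)]) (.cons 
(.leaf 1 [(1,1),(5,1)]) .nil)))))) (.cons (.keep [3,5,6,8,9] (.node (.cons (.keep [0,5,6,7,9] (.node (.cons 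
(.leaf 1 []) (.cons (.leaf 1 [(3,1)]) (.cons (.leaf 1 [(9,1),(6,2),(5,2)]) (.cons 
(.leaf 1 [(9,1),(6,2),(5,2),(3,2)]) .nil)))))) (.cons (.keep [5,6,7,8,9] (.node (.cons 
(.leaf 1 [(2,1),(6,1),(7,1)]) (.cons (.leaf 1 [(2,1),(6,1),(7,1),(3,1)]) (.cons (.keep [4,5,6,7,9] (.node 
(.cons (.leaf 1 [(6,2),(9,1)]) (.cons (.leaf 1 [(6,2),(9,1),(3,5)]) (.cons (.keep [4,5,6,7,9] (.node (.cons 
(.keep [0,5,8,9] (.node (.cons (.leaf 1 []) (.cons (.leaf 1 [(3,1)]) (.cons (.leaf 1 [(8,1),(5,3)]) (.cons 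
(.leaf 1 [(8,1),(5,3),(3,3)]) .nil)))))) (.cons (.keep [0,3,5,8,9] (.node (.cons (.leaf 1 []) (.cons 
(.leaf 1 [(3,1)]) (.cons (.leaf 1 [(9,1),(5,8)]) (.cons (.leaf 1 [(9,1),(5,8),(3,3)]) .nil)))))) (.cons 
(.leaf 1 [(5,1)]) (.cons (.leaf 1 [(5,1),(3,1)]) .nil)))))) (.cons (.keep [3,5,6,7,9] (.node (.cons 
(.keep [0,5,6,8,9] (.node (.cons (.leaf 1 []) (.cons (.leaf 1 [(3,1)]) (.cons (.leaf 1 [(9,1),(6,3),(5,3)]) 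
(.cons (.leaf 1 [(9,1),(6,3),(5,3),(3,3)]) .nil)))))) (.cons (.keep [0,5,6,8,9] (.node (.cons (.leaf 1 []) 
(.cons (.leaf 1 [(3,1)]) (.cons (.leaf 1 [(9,1),(6,3),(5,8)]) (.cons 
(.leaf 1 [(9,1),(6,3),(5,8),(3,3)]) .nil)))))) (.cons (.leaf 1 [(6,1),(1,1)]) (.cons 
(.leaf 1 [(6,1),(1,1)]) .nil)))))) .nil)))))) (.cons (.keep [3,5,6,8,9] (.node (.cons 
(.leaf 1 [(2,2),(9,1),(5,1)]) (.cons (.leaf 1 [(9,1),(3,1),(5,1),(2,2)]) (.cons (.keep [4,5,7,8,9] (.node 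
(.cons (.keep [0,5,7,9] (.node (.cons (.leaf 1 []) (.cons (.leaf 1 [(3,1)]) (.cons (.leaf 1 [(8,1),(5,3)]) 
(.cons (.leaf 1 [(8,1),(5,3),(3,3)]) .nil)))))) (.cons (.keep [0,3,5,7,9] (.node (.cons (.leaf 1 []) (.cons 
(.leaf 1 [(3,1)]) (.cons (.leaf 1 [(9,1),(5,7)]) (.cons (.leaf 1 [(9,1),(5,7),(3,3)]) .nil)))))) (.cons 
(.leaf 1 [(5,1)]) (.cons (.leaf 1 [(5,1),(3,1)]) .nil)))))) (.cons (.keep [5,6,7,8,9] (.node (.cons 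
(.keep [0,5,7,8,9] (.node (.cons (.leaf 1 []) (.cons (.leaf 1 [(3,1)]) (.cons (.leaf 1 [(9,1),(6,2),(5,3)]) 
(.cons (.leaf 1 [(9,1),(6,2),(5,3),(3,3)]) .nil)))))) (.cons (.keep [0,5,7,8,9] (.node (.cons (.leaf 1 []) 
(.cons (.leaf 1 [(3,1)]) (.cons (.leaf 1 [(9,1),(6,2),(5,5)]) (.cons 
(.leaf 1 [(9,1),(6,2),(5,5),(3,3)]) .nil)))))) (.cons (.leaf 1 [(1,2),(8,1)]) (.cons 
(.leaf 1 [(0,1),(8,1),(1,2)]) .nil)))))) .nil)))))) .nil)))))) (.cons (.leaf 1 [(7,1),(1,2)]) (.cons 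
(.leaf 1 [(1,2),(8,1),(6,1),(7,2)]) .nil)))))) .nil)))))) (.cons (.keep [3,5,6,8,9] (.node (.cons 
(.leaf 1 [(2,1),(9,1)]) (.cons (.leaf 1 [(9,1),(3,1),(2,1)]) (.cons (.keep [4,5,6,8,9] (.node (.cons 
(.keep [0,5,8,9] (.node (.cons (.leaf 1 []) (.cons (.leaf 1 [(3,1)]) (.cons (.leaf 1 [(8,1),(5,2)]) (.cons 
(.leaf 1 [(8,1),(5,2),(3,2)]) .nil)))))) (.cons (.keep [0,5,6,8,9] (.node (.cons (.leaf 1 [(7,2)]) (.cons 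
(.leaf 1 [(7,2),(3,1)]) (.cons (.leaf 1 [(7,4),(9,1)]) (.cons (.leaf 1 [(9,1),(3,2),(7,4)]) .nil)))))) (.cons 
(.leaf 1 [(5,1),(1,2)]) (.cons (.leaf 1 [(1,1),(6,1),(5,1)]) .nil)))))) (.cons (.keep [5,6,7,8,9] (.node 
(.cons (.keep [4,5,6,8,9] (.node (.cons (.leaf 1 [(6,1)]) (.cons (.leaf 1 [(3,1),(6,1)]) (.cons 
(.leaf 1 [(9,1),(6,1),(5,2)]) (.cons (.leaf 1 [(9,1),(6,1),(5,2),(3,2)]) .nil)))))) (.cons 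
(.keep [0,5,6,7,8,9] (.node (.cons (.leaf 1 [(2,1),(6,1),(9,1)]) (.cons (.leaf 1 [(2,1),(6,1),(9,1),(3,1)]) 
(.cons (.keep [4,5,6,9,10] (.node (.cons (.leaf 1 [(7,1),(9,1)]) (.cons (.leaf 1 [(7,1),(9,1),(3,3)]) (.cons 
(.keep [4,5,7,8,9] (.node (.cons (.keep [0,5,8,9] (.node (.cons (.leaf 1 []) (.cons (.leaf 1 [(3,1)]) (.cons 
(.leaf 1 [(8,1),(5,3)]) (.cons (.leaf 1 [(8,1),(5,3),(3,3)]) .nil)))))) (.cons (.keep [3,5,7,8,9] (.node 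
(.cons (.leaf 1 [(7,1)]) (.cons (.leaf 1 [(7,1),(3,1)]) (.cons (.leaf 1 [(9,1),(7,7)]) (.cons 
(.leaf 1 [(7,7),(3,3),(9,1)]) .nil)))))) (.cons (.leaf 1 [(5,1),(1,1)]) (.cons 
(.leaf 1 [(1,1),(5,1)]) .nil)))))) (.cons (.keep [3,5,7,8,9] (.node (.cons (.keep [0,5,6,8,9] (.node (.cons 
(.leaf 1 []) (.cons (.leaf 1 [(3,1)]) (.cons (.leaf 1 [(9,1),(6,3),(5,3)]) (.cons 
(.leaf 1 [(9,1),(6,3),(5,3),(3,3)]) .nil)))))) (.cons (.keep [5,6,7,8,9] (.node (.cons (.leaf 1 [(7,1)]) 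
(.cons (.leaf 1 [(7,1),(3,1)]) (.cons (.leaf 1 [(5,3),(7,7),(9,1)]) (.cons 
(.leaf 1 [(5,3),(9,1),(3,3),(7,7)]) .nil)))))) (.cons (.leaf 1 [(6,1),(1,2)]) (.cons 
(.leaf 1 [(1,1),(7,1),(6,1)]) .nil)))))) .nil)))))) (.cons (.keep [3,5,6,8,9,10] (.node (.cons 
(.leaf 1 [(2,1),(10,1)]) (.cons (.leaf 1 [(10,1),(3,2),(2,1)]) (.cons (.keep [4,5,6,9,10] (.node (.cons 
(.keep [0,5,8,9] (.node (.cons (.leaf 1 []) (.cons (.leaf 1 [(3,1)]) (.cons (.leaf 1 [(8,1),(5,3)]) (.cons 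
(.leaf 1 [(8,1),(5,3),(3,3)]) .nil)))))) (.cons (.keep [3,5,6,8,9] (.node (.cons (.leaf 1 [(7,1)]) (.cons 
(.leaf 1 [(7,1),(3,1)]) (.cons (.leaf 1 [(9,1),(7,6)]) (.cons (.leaf 1 [(7,6),(3,3),(9,1)]) .nil)))))) (.cons 
(.leaf 1 [(5,1),(1,1)]) (.cons (.leaf 1 [(1,1),(5,1)]) .nil)))))) (.cons (.keep [5,6,7,8,9,10] (.node (.cons 
(.keep [0,5,8,9,10] (.node (.cons (.leaf 1 []) (.cons (.leaf 1 [(3,1)]) (.cons (.leaf 1 [(9,1),(6,2),(5,3)]) 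
(.cons (.leaf 1 [(9,1),(6,2),(5,3),(3,3)]) .nil)))))) (.cons (.keep [3,5,7,8,9,10] (.node (.cons 
(.leaf 1 [(7,1)]) (.cons (.leaf 1 [(7,1),(3,1)]) (.cons (.leaf 1 [(10,1),(6,2),(7,4)]) (.cons 
(.leaf 1 [(7,4),(6,2),(3,3),(10,1)]) .nil)))))) (.cons (.leaf 1 [(8,1),(1,2)]) (.cons 
(.leaf 1 [(1,1),(7,1),(8,1)]) .nil)))))) .nil)))))) .nil)))))) (.cons (.leaf 1 [(1,2)]) (.cons 
(.leaf 1 [(1,3),(7,1),(8,1),(0,1)]) .nil)))))) .nil)))))) .nil)))))) (.cons (.leaf 0 [(7,0)]) (.cons 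
(.leaf 0 [(8,0)]) .nil)))))) .nil)))))) (.cons (.keep [0,2,3,9] (.node (.cons (.leaf 2 [(2,1),(6,1),(8,1)]) 
(.cons (.leaf 2 [(2,1),(6,1),(8,1),(3,2)]) (.cons (.leaf 0 [(9,0)]) (.cons (.keep [5,6,7,8] (.node (.cons 
(.leaf 0 [(10,0)]) (.cons (.keep [0,2,7,8] (.node (.cons (.leaf 0 [(11,0)]) (.cons (.leaf 0 [(12,0)]) (.cons 
(.keep [4,6,7,8] (.node (.cons (.leaf 1 [(7,1),(8,1)]) (.cons (.leaf 1 [(7,1),(8,1),(3,2)]) (.cons 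
(.keep [4,5,6,7,8] (.node (.cons (.keep [0,5,7,9] (.node (.cons (.leaf 1 []) (.cons (.leaf 1 [(3,1)]) (.cons 
(.leaf 1 [(8,1),(5,2)]) (.cons (.leaf 1 [(8,1),(5,2),(3,2)]) .nil)))))) (.cons (.keep [0,3,5,7,9] (.node 
(.cons (.leaf 1 []) (.cons (.leaf 1 [(3,1)]) (.cons (.leaf 1 [(9,1),(5,5)]) (.cons 
(.leaf 1 [(9,1),(5,5),(3,2)]) .nil)))))) (.cons (.leaf 1 [(5,1)]) (.cons (.leaf 1 [(5,1),(3,1)]) .nil)))))) 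
(.cons (.keep [3,5,6,7,8] (.node (.cons (.keep [0,5,6,7,9] (.node (.cons (.leaf 1 []) (.cons 
(.leaf 1 [(3,1)]) (.cons (.leaf 1 [(9,1),(6,2),(5,2)]) (.cons (.leaf 1 [(9,1),(6,2),(5,2),(3,2)]) .nil)))))) 
(.cons (.keep [0,5,6,7,9] (.node (.cons (.leaf 1 []) (.cons (.leaf 1 [(3,1)]) (.cons 
(.leaf 1 [(9,1),(6,2),(5,5)]) (.cons (.leaf 1 [(9,1),(6,2),(5,5),(3,2)]) .nil)))))) (.cons 
(.leaf 1 [(6,1),(1,1)]) (.cons (.leaf 1 [(6,1),(1,1)]) .nil)))))) .nil)))))) (.cons (.keep [3,5,6,7,8] (.node 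
(.cons (.leaf 1 [(2,1),(9,1)]) (.cons (.leaf 1 [(3,1),(9,1),(2,1)]) (.cons (.keep [4,5,6,7,9] (.node (.cons 
(.keep [0,5,8,9] (.node (.cons (.leaf 1 []) (.cons (.leaf 1 [(3,1)]) (.cons (.leaf 1 [(8,1),(5,2)]) (.cons 
(.leaf 1 [(8,1),(5,2),(3,2)]) .nil)))))) (.cons (.keep [3,5,6,8,9] (.node (.cons (.leaf 1 [(7,1)]) (.cons 
(.leaf 1 [(7,1),(3,1)]) (.cons (.leaf 1 [(9,1),(7,4)]) (.cons (.leaf 1 [(7,4),(3,2),(9,1)]) .nil)))))) (.cons 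
(.leaf 1 [(5,1),(1,1)]) (.cons (.leaf 1 [(1,1),(5,1)]) .nil)))))) (.cons (.keep [3,6,7,8,9] (.node (.cons 
(.keep [4,5,6,7,9] (.node (.cons (.leaf 1 [(6,1)]) (.cons (.leaf 1 [(3,1),(6,1)]) (.cons 
(.leaf 1 [(9,1),(6,1),(5,2)]) (.cons (.leaf 1 [(9,1),(6,1),(5,2),(3,2)]) .nil)))))) (.cons (.keep [5,6,7,8,9] 
(.node (.cons (.leaf 1 [(8,1),(5,1)]) (.cons (.leaf 1 [(3,1),(8,1),(5,1)]) (.cons 
(.leaf 1 [(5,1),(8,4),(9,1)]) (.cons (.leaf 1 [(8,4),(5,1),(3,2),(9,1)]) .nil)))))) (.cons (.leaf 1 [(1,1)]) 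
(.cons (.leaf 1 [(1,1)]) .nil)))))) .nil)))))) .nil)))))) (.cons (.leaf 0 [(13,0)]) (.cons (.keep [0,1,5,8] 
(.node (.cons (.keep [0,2,6,8] (.node (.cons (.leaf 1 []) (.cons (.leaf 1 [(3,1)]) (.cons (.leaf 0 [(3,0)]) 
(.cons (.leaf 0 [(4,0)]) .nil)))))) (.cons (.keep [0,3,5,6,8] (.node (.cons (.leaf 1 [(6,1)]) (.cons 
(.leaf 1 [(3,1),(6,1)]) (.cons (.leaf 0 [(0,0)]) (.cons (.leaf 0 [(14,0)]) .nil)))))) (.cons (.keep [1,4,6,8] 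
(.node (.cons (.leaf 2 [(7,2),(8,1)]) (.cons (.leaf 2 [(7,2),(8,1),(3,3)]) (.cons (.leaf 0 [(15,0)]) (.cons 
(.leaf 0 [(16,0)]) .nil)))))) (.cons (.keep [3,5,6,7,8] (.node (.cons (.leaf 1 [(7,1),(2,1),(9,1)]) (.cons 
(.leaf 1 [(5,1),(2,3),(9,2),(7,1)]) (.cons (.leaf 0 [(17,0)]) (.cons 
(.leaf 0 [(18,0)]) .nil)))))) .nil)))))) .nil)))))) .nil)))))) (.cons (.keep [1,4,5,9] (.node (.cons 
(.leaf 1 []) (.cons (.leaf 1 [(3,2)]) (.cons (.keep [4,5,7,8] (.node (.cons (.leaf 1 [(8,2)]) (.cons 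
(.keep [0,5,6,7,8] (.node (.cons (.leaf 1 [(7,2)]) (.cons (.leaf 1 [(7,2),(3,2)]) (.cons (.leaf 1 [(9,4)]) 
(.cons (.keep [5,6,7,8,9] (.node (.cons (.leaf 1 [(2,1),(6,1)]) (.cons (.leaf 1 [(3,2),(6,1),(2,1)]) (.cons 
(.leaf 1 [(9,3),(6,1)]) (.cons (.keep [5,6,7,8,9] (.node (.cons (.leaf 1 [(6,2),(9,2)]) (.cons 
(.leaf 1 [(7,2),(0,2),(9,4),(6,2)]) (.cons (.leaf 1 [(6,1),(1,2),(7,1)]) (.cons 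
(.leaf 3 [(7,6),(0,2),(1,6),(6,2)]) .nil)))))) .nil)))))) .nil)))))) (.cons (.leaf 1 [(5,2),(6,2)]) (.cons 
(.leaf 1 [(6,2),(3,2),(5,2)]) .nil)))))) (.cons (.keep [3,5,6,7,8] (.node (.cons (.leaf 1 [(9,2)]) (.cons 
(.keep [0,5,6,7,9] (.node (.cons (.leaf 1 [(7,2)]) (.cons (.leaf 1 [(3,2),(7,2)]) (.cons (.keep [4,5,6,7,9] 
(.node (.cons (.leaf 1 [(7,2)]) (.cons (.leaf 1 [(7,2),(3,4)]) (.cons (.keep [4,6,7,8,9] (.node (.cons 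
(.keep [4,5,6,7,8] (.node (.cons (.leaf 1 [(9,1)]) (.cons (.leaf 1 [(9,1),(3,1)]) (.cons (.leaf 1 [(5,2)]) 
(.cons (.leaf 1 [(5,2),(3,2)]) .nil)))))) (.cons (.keep [5,6,7,8,9] (.node (.cons (.leaf 5 [(8,6),(2,2)]) 
(.cons (.leaf 5 [(8,6),(2,2),(3,4)]) (.cons (.leaf 1 [(9,6)]) (.cons (.leaf 1 [(3,2),(9,6)]) .nil)))))) 
(.cons (.leaf 1 [(1,1),(5,1),(8,1)]) (.cons (.leaf 1 [(8,1),(1,1),(5,1)]) .nil)))))) (.cons 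
(.keep [3,5,6,7,8,9] (.node (.cons (.keep [4,5,6,7,8,9] (.node (.cons (.leaf 1 [(10,1)]) (.cons 
(.leaf 1 [(10,1),(3,1)]) (.cons (.leaf 1 [(5,2),(6,2)]) (.cons (.leaf 1 [(5,2),(6,2),(3,2)]) .nil)))))) 
(.cons (.keep [5,6,7,8,9,10] (.node (.cons (.leaf 3 [(9,4),(2,2),(6,2)]) (.cons 
(.leaf 3 [(2,2),(9,4),(3,2),(6,2)]) (.cons (.leaf 1 [(10,6),(5,2)]) (.cons 
(.leaf 1 [(3,2),(5,2),(10,6)]) .nil)))))) (.cons (.leaf 1 [(1,2),(6,1),(9,1)]) (.cons 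
(.leaf 3 [(9,4),(1,4),(8,2),(6,4)]) .nil)))))) .nil)))))) (.cons (.keep [5,6,7,8,9] (.node (.cons 
(.leaf 1 [(2,1),(6,1)]) (.cons (.leaf 1 [(6,1),(3,2),(2,1)]) (.cons (.keep [4,5,6,7,9] (.node (.cons 
(.keep [4,5,6,7,8] (.node (.cons (.leaf 1 [(9,1)]) (.cons (.leaf 1 [(9,1),(3,1)]) (.cons (.leaf 1 [(5,2)]) 
(.cons (.leaf 1 [(5,2),(3,2)]) .nil)))))) (.cons (.keep [5,6,7,8,9] (.node (.cons (.leaf 2 [(8,3),(2,2)]) 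
(.cons (.leaf 2 [(2,2),(3,1),(8,3)]) (.cons (.leaf 1 [(9,3)]) (.cons (.leaf 1 [(3,2),(9,3)]) .nil)))))) 
(.cons (.leaf 1 [(1,2),(5,1),(8,1)]) (.cons (.leaf 5 [(8,6),(1,6),(7,2),(5,6)]) .nil)))))) (.cons 
(.keep [5,6,7,8,9] (.node (.cons (.keep [4,5,6,7,9] (.node (.cons (.leaf 1 [(8,2),(7,2)]) (.cons 
(.leaf 1 [(8,2),(7,2),(3,2)]) (.cons (.leaf 1 [(5,2),(9,2)]) (.cons (.leaf 1 [(5,2),(9,2),(3,2)]) .nil)))))) 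
(.cons (.keep [0,3,6,7,9] (.node (.cons (.leaf 1 [(8,2),(6,2),(2,2)]) (.cons (.leaf 1 [(2,2),(6,2),(8,2)]) 
(.cons (.leaf 1 [(5,2),(9,4),(8,2)]) (.cons (.leaf 1 [(3,2),(9,4),(8,2),(5,2)]) .nil)))))) (.cons 
(.leaf 1 [(1,2),(7,1)]) (.cons (.leaf 3 [(7,6),(0,2),(1,6),(6,2)]) .nil)))))) .nil)))))) .nil)))))) (.cons 
(.leaf 1 [(6,2),(7,2),(1,2)]) (.cons (.leaf 1 [(6,2),(7,2),(1,2)]) .nil)))))) .nil)))))) (.cons 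
(.keep [0,1,3,5,9] (.node (.cons (.leaf 2 [(2,1),(9,1)]) (.cons (.leaf 2 [(3,2),(9,1),(2,1)]) (.cons 
(.leaf 1 [(7,3),(9,2)]) (.cons (.keep [0,6,7,8,9] (.node (.cons (.leaf 1 [(9,2),(7,1)]) (.cons 
(.keep [0,2,6,7,9] (.node (.cons (.leaf 1 [(6,1),(7,2)]) (.cons (.leaf 1 [(6,1),(7,2),(3,3)]) (.cons 
(.keep [4,5,6,7,8] (.node (.cons (.leaf 1 [(9,1)]) (.cons (.leaf 1 [(3,2),(9,1)]) (.cons (.keep [4,5,6,7,8,9] 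
(.node (.cons (.keep [4,5,7,8,9] (.node (.cons (.leaf 1 [(8,2)]) (.cons (.leaf 1 [(8,2),(3,2)]) (.cons 
(.leaf 1 [(5,2)]) (.cons (.leaf 1 [(5,2),(3,2)]) .nil)))))) (.cons (.keep [3,5,7,8,9,10] (.node (.cons 
(.leaf 1 [(8,5),(2,3)]) (.cons (.leaf 1 [(2,3),(3,2),(8,5)]) (.cons (.leaf 1 [(10,5)]) (.cons 
(.leaf 1 [(3,2),(10,5)]) .nil)))))) (.cons (.leaf 1 [(1,3),(5,2),(8,2)]) (.cons 
(.leaf 2 [(8,2),(1,3),(9,1),(5,3)]) .nil)))))) (.cons (.keep [3,5,6,7,8,9] (.node (.cons (.keep [4,5,6,7,8,9] 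
(.node (.cons (.leaf 1 [(9,2)]) (.cons (.leaf 1 [(9,2),(3,2)]) (.cons (.leaf 1 [(5,2),(6,2)]) (.cons 
(.leaf 1 [(5,2),(6,2),(3,2)]) .nil)))))) (.cons (.keep [5,6,7,8,9,10] (.node (.cons (.leaf 1 [(9,1)]) (.cons 
(.leaf 1 [(3,1),(9,1)]) (.cons (.leaf 1 [(10,5),(5,2)]) (.cons (.leaf 1 [(3,2),(5,2),(10,5)]) .nil)))))) 
(.cons (.leaf 1 [(1,5),(6,2),(8,2)]) (.cons (.leaf 1 [(6,1),(1,1),(9,1)]) .nil)))))) .nil)))))) (.cons 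
(.keep [3,5,6,7,8] (.node (.cons (.leaf 1 [(2,1),(5,1)]) (.cons (.leaf 1 [(3,1),(5,1),(2,1)]) (.cons 
(.keep [4,5,6,7,8] (.node (.cons (.keep [4,5,7,8,9] (.node (.cons (.leaf 1 [(8,2)]) (.cons 
(.leaf 1 [(8,2),(3,2)]) (.cons (.leaf 1 [(5,2)]) (.cons (.leaf 1 [(5,2),(3,2)]) .nil)))))) (.cons 
(.keep [5,6,7,8,9] (.node (.cons (.leaf 1 [(8,2),(6,5)]) (.cons (.leaf 1 [(6,5),(3,2),(8,2)]) (.cons 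
(.leaf 1 [(6,5)]) (.cons (.leaf 1 [(3,2),(6,5)]) .nil)))))) (.cons (.leaf 1 [(1,5),(5,2),(8,2)]) (.cons 
(.leaf 1 [(8,2),(5,2),(1,2),(6,3)]) .nil)))))) (.cons (.keep [3,6,7,8,9] (.node (.cons (.keep [4,5,6,7,8] 
(.node (.cons (.leaf 1 [(8,2),(6,2)]) (.cons (.leaf 1 [(8,2),(6,2),(3,2)]) (.cons (.leaf 1 [(5,2),(6,2)]) 
(.cons (.leaf 1 [(5,2),(6,2),(3,2)]) .nil)))))) (.cons (.keep [5,6,7,8,9] (.node (.cons 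
(.leaf 4 [(8,5),(5,3),(2,2)]) (.cons (.leaf 4 [(3,3),(5,3),(2,2),(8,5)]) (.cons (.leaf 1 [(9,5),(5,2)]) 
(.cons (.leaf 1 [(3,2),(5,2),(9,5)]) .nil)))))) (.cons (.leaf 1 [(1,5),(7,2)]) (.cons 
(.leaf 1 [(8,1),(1,1)]) .nil)))))) .nil)))))) .nil)))))) (.cons (.leaf 2 [(6,1),(9,3),(1,4)]) (.cons 
(.keep [0,1,6,8,9] (.node (.cons (.leaf 1 [(2,1),(7,2),(9,1)]) (.cons (.leaf 1 [(2,1),(7,2),(9,1),(3,2)]) 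
(.cons (.keep [4,5,6,7,8,9] (.node (.cons (.leaf 2 [(7,1),(8,1)]) (.cons (.leaf 2 [(3,3),(8,1),(7,1)]) (.cons 
(.leaf 1 [(7,2),(8,2),(5,3)]) (.cons (.leaf 1 [(7,2),(8,2),(5,3),(3,3)]) .nil)))))) (.cons (.keep [5,6,7,8,9] 
(.node (.cons (.leaf 2 [(7,1),(6,1)]) (.cons (.leaf 2 [(3,3),(6,1),(7,1)]) (.cons 
(.leaf 1 [(6,2),(7,5),(5,3)]) (.cons 
(.leaf 1 [(6,2),(7,5),(5,3),(3,3)]) .nil)))))) .nil)))))) .nil)))))) .nil)))))) .nil)))))) (.cons 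
(.leaf 0 [(19,0)]) (.cons (.keep [1,5,6,8] (.node (.cons (.leaf 0 [(20,0)]) (.cons (.keep [0,2,5,7,8] (.node 
(.cons (.leaf 2 [(2,1),(6,2),(7,1)]) (.cons (.leaf 2 [(6,2),(3,3),(7,1),(2,1)]) (.cons (.leaf 0 [(21,0)]) 
(.cons (.keep [5,6,7,8,9] (.node (.cons (.leaf 0 [(22,0)]) (.cons (.leaf 0 [(23,0)]) (.cons 
(.leaf 0 [(24,0)]) (.cons (.keep [0,5,7,8,9] (.node (.cons (.keep [4,5,6,7,9] (.node (.cons (.leaf 1 [(8,1)]) 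
(.cons (.leaf 1 [(8,1),(3,1)]) (.cons (.leaf 0 [(25,0)]) (.cons (.leaf 0 [(26,0)]) .nil)))))) (.cons 
(.keep [3,5,6,7,9] (.node (.cons (.leaf 1 [(8,1),(5,1)]) (.cons (.leaf 1 [(8,1),(5,1),(3,1)]) (.cons 
(.leaf 0 [(27,0)]) (.cons (.leaf 0 [(28,0)]) .nil)))))) (.cons (.keep [4,6,7,8,9] (.node (.cons 
(.leaf 1 [(7,1),(8,1)]) (.cons (.leaf 1 [(7,1),(8,1),(3,1)]) (.cons (.leaf 1 [(7,2),(5,2)]) (.cons 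
(.leaf 1 [(7,2),(5,2),(3,2)]) .nil)))))) (.cons (.keep [3,5,6,7,8,9] (.node (.cons (.leaf 1 [(8,1),(9,1)]) 
(.cons (.leaf 1 [(8,1),(9,1),(3,1)]) (.cons (.leaf 1 [(8,3),(6,1)]) (.cons 
(.leaf 1 [(8,3),(6,1),(3,2)]) .nil)))))) .nil)))))) .nil)))))) .nil)))))) (.cons 
(.leaf 1 [(1,2),(5,1),(7,2)]) (.cons (.keep [0,1,5,7,8] (.node (.cons (.leaf 2 [(2,1),(8,1),(7,1)]) (.cons 
(.leaf 2 [(7,1),(8,1),(3,2),(2,1)]) (.cons (.leaf 2 [(7,1),(8,4),(6,3)]) (.cons (.keep [5,6,7,8,9] (.node 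
(.cons (.leaf 1 [(8,2),(6,1)]) (.cons (.leaf 1 [(6,2),(8,3),(7,1),(2,1)]) (.cons 
(.leaf 1 [(1,1),(8,2),(6,1)]) (.cons 
(.leaf 1 [(7,1),(8,4),(6,3),(0,1)]) .nil)))))) .nil)))))) .nil)))))) .nil)))))) (.cons (.keep [0,1,3,6,7] 
(.node (.cons (.leaf 0 [(29,0)]) (.cons (.keep [0,2,7,9] (.node (.cons (.keep [2,4,6,7] (.node (.cons 
(.leaf 1 [(5,1),(8,1)]) (.cons (.leaf 1 [(8,1),(3,2),(5,1)]) (.cons (.keep [4,5,6,8] (.node (.cons 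
(.leaf 0 [(0,0)]) (.cons (.keep [0,3,5,8] (.node (.cons (.leaf 0 [(30,0)]) (.cons (.leaf 0 [(31,0)]) (.cons 
(.keep [4,5,7,8] (.node (.cons (.leaf 1 []) (.cons (.leaf 1 [(3,3)]) (.cons (.keep [4,6,7,8] (.node (.cons 
(.leaf 1 [(7,3)]) (.cons (.keep [0,5,6,7,8] (.node (.cons (.leaf 1 [(8,6),(2,3)]) (.cons 
(.leaf 1 [(2,1),(8,2),(9,1)]) (.cons (.leaf 1 [(8,6)]) (.cons (.keep [5,6,7,8,9] (.node (.cons 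
(.leaf 2 [(2,3),(6,3)]) (.cons (.leaf 2 [(3,6),(6,3),(2,3)]) (.cons (.leaf 2 [(8,9),(6,3)]) (.cons 
(.keep [5,6,7,8,9] (.node (.cons (.leaf 1 [(6,3),(8,3)]) (.cons (.leaf 1 [(9,3),(0,3),(8,6),(6,3)]) (.cons 
(.leaf 1 [(6,3),(1,3),(8,3)]) (.cons (.leaf 5 [(9,9),(0,3),(1,9),(6,3)]) .nil)))))) .nil)))))) .nil)))))) 
(.cons (.leaf 1 [(1,3),(7,3)]) (.cons (.leaf 1 [(8,1),(7,1),(1,1),(5,1)]) .nil)))))) (.cons 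
(.keep [3,5,6,7,8] (.node (.cons (.leaf 1 [(8,3)]) (.cons (.keep [0,5,6,8,9] (.node (.cons (.leaf 2 [(9,3)]) 
(.cons (.leaf 2 [(3,3),(9,3)]) (.cons (.keep [4,5,6,8,9] (.node (.cons (.leaf 1 [(7,3)]) (.cons 
(.leaf 1 [(7,3),(3,6)]) (.cons (.keep [4,6,7,8,9] (.node (.cons (.keep [4,5,6,7,9] (.node (.cons 
(.leaf 1 [(9,1)]) (.cons (.leaf 1 [(9,1),(3,1)]) (.cons (.leaf 1 [(5,3)]) (.cons 
(.leaf 1 [(5,3),(3,3)]) .nil)))))) (.cons (.keep [5,6,7,8,9] (.node (.cons (.leaf 1 [(9,1),(8,1)]) (.cons 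
(.leaf 1 [(8,1),(3,1),(9,1)]) (.cons (.leaf 1 [(8,9)]) (.cons (.leaf 1 [(3,3),(8,9)]) .nil)))))) (.cons 
(.leaf 1 [(1,1),(5,1),(9,1)]) (.cons (.leaf 1 [(9,1),(1,1),(5,1)]) .nil)))))) (.cons (.keep [3,5,6,7,8,9] 
(.node (.cons (.keep [4,5,6,7,8,10] (.node (.cons (.leaf 1 [(10,1)]) (.cons (.leaf 1 [(10,1),(3,1)]) (.cons 
(.leaf 1 [(5,3),(6,3)]) (.cons (.leaf 1 [(5,3),(6,3),(3,3)]) .nil)))))) (.cons (.keep [5,6,7,8,9,10] (.node 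
(.cons (.leaf 1 [(10,1),(9,1)]) (.cons (.leaf 1 [(9,1),(10,1),(3,1)]) (.cons (.leaf 1 [(9,9),(5,3)]) (.cons 
(.leaf 1 [(3,3),(5,3),(9,9)]) .nil)))))) (.cons (.leaf 1 [(1,2),(6,1),(10,1)]) (.cons 
(.leaf 1 [(10,1),(6,1),(1,1),(9,1)]) .nil)))))) .nil)))))) (.cons (.keep [5,6,7,8,9] (.node (.cons 
(.leaf 2 [(2,3),(6,3)]) (.cons (.leaf 2 [(6,3),(3,6),(2,3)]) (.cons (.keep [4,5,6,8,9] (.node (.cons 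
(.keep [4,5,6,7,9] (.node (.cons (.leaf 1 [(9,1)]) (.cons (.leaf 1 [(9,1),(3,1)]) (.cons (.leaf 1 [(5,3)]) 
(.cons (.leaf 1 [(5,3),(3,3)]) .nil)))))) (.cons (.keep [5,6,7,8,9] (.node (.cons (.leaf 1 [(9,1),(8,1)]) 
(.cons (.leaf 1 [(8,1),(3,1),(9,1)]) (.cons (.leaf 2 [(8,9)]) (.cons (.leaf 2 [(3,6),(8,9)]) .nil)))))) 
(.cons (.leaf 1 [(1,2),(5,1),(9,1)]) (.cons (.leaf 2 [(9,2),(5,2),(1,2),(8,1)]) .nil)))))) (.cons 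
(.keep [5,6,7,8,9] (.node (.cons (.keep [4,5,6,8,9] (.node (.cons (.leaf 1 [(9,1),(8,1)]) (.cons 
(.leaf 1 [(9,1),(8,1),(3,1)]) (.cons (.leaf 1 [(5,3),(8,3)]) (.cons (.leaf 1 [(5,3),(8,3),(3,3)]) .nil)))))) 
(.cons (.keep [0,3,6,8,9] (.node (.cons (.leaf 1 [(9,1),(8,1)]) (.cons (.leaf 1 [(8,1),(3,1),(9,1)]) (.cons 
(.leaf 1 [(5,3),(8,6),(9,3)]) (.cons (.leaf 1 [(3,3),(8,6),(9,3),(5,3)]) .nil)))))) (.cons 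
(.leaf 1 [(1,2),(9,1)]) (.cons (.leaf 1 [(9,2),(0,1),(1,2),(8,1)]) .nil)))))) .nil)))))) .nil)))))) (.cons 
(.leaf 1 [(8,3),(1,3)]) (.cons (.leaf 2 [(9,3),(6,3),(1,3)]) .nil)))))) .nil)))))) (.cons (.keep [3,5,7,8] 
(.node (.cons (.leaf 1 [(2,1),(7,1)]) (.cons (.leaf 1 [(3,1),(7,1),(2,1)]) (.cons (.leaf 1 [(5,4),(7,3)]) 
(.cons (.keep [5,6,7,8] (.node (.cons (.leaf 1 [(7,3),(5,1)]) (.cons (.keep [0,5,6,7,8] (.node (.cons 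
(.leaf 2 [(9,3),(6,2)]) (.cons (.leaf 2 [(2,3),(6,2),(9,3),(8,3)]) (.cons (.keep [4,5,6,7,9] (.node (.cons 
(.leaf 1 [(7,1)]) (.cons (.leaf 1 [(3,3),(7,1)]) (.cons (.keep [4,6,7,8,9] (.node (.cons (.keep [4,5,6,8,9] 
(.node (.cons (.leaf 1 [(9,1)]) (.cons (.leaf 1 [(9,1),(3,1)]) (.cons (.leaf 1 [(5,3)]) (.cons 
(.leaf 1 [(5,3),(3,3)]) .nil)))))) (.cons (.keep [5,6,7,8,9] (.node (.cons (.leaf 1 [(9,1),(7,1)]) (.cons 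
(.leaf 1 [(7,1),(3,1),(9,1)]) (.cons (.leaf 1 [(7,7)]) (.cons (.leaf 1 [(3,3),(7,7)]) .nil)))))) (.cons 
(.leaf 1 [(1,1),(5,1),(9,1)]) (.cons (.leaf 1 [(9,1),(1,1),(5,1)]) .nil)))))) (.cons (.keep [3,5,6,7,8,9] 
(.node (.cons (.keep [4,5,6,7,9,10] (.node (.cons (.leaf 1 [(10,1)]) (.cons (.leaf 1 [(10,1),(3,1)]) (.cons 
(.leaf 1 [(5,3),(6,3)]) (.cons (.leaf 1 [(5,3),(6,3),(3,3)]) .nil)))))) (.cons (.keep [5,6,7,8,9,10] (.node 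
(.cons (.leaf 1 [(10,1),(8,1)]) (.cons (.leaf 1 [(3,1),(8,1),(10,1)]) (.cons (.leaf 1 [(8,7),(5,3)]) (.cons 
(.leaf 1 [(3,3),(5,3),(8,7)]) .nil)))))) (.cons (.leaf 1 [(1,2),(6,1),(10,1)]) (.cons 
(.leaf 1 [(10,1),(6,1),(1,1),(8,1)]) .nil)))))) .nil)))))) (.cons (.keep [3,5,6,7,9] (.node (.cons 
(.leaf 1 [(2,1),(5,1)]) (.cons (.leaf 1 [(3,2),(5,1),(2,1)]) (.cons (.keep [4,5,6,8,9] (.node (.cons 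
(.keep [4,5,7,8,9] (.node (.cons (.leaf 1 [(9,1)]) (.cons (.leaf 1 [(9,1),(3,1)]) (.cons (.leaf 1 [(5,3)]) 
(.cons (.leaf 1 [(5,3),(3,3)]) .nil)))))) (.cons (.keep [5,6,7,8,9] (.node (.cons (.leaf 1 [(9,1),(6,2)]) 
(.cons (.leaf 1 [(6,2),(3,1),(9,1)]) (.cons (.leaf 1 [(6,7)]) (.cons (.leaf 1 [(3,3),(6,7)]) .nil)))))) 
(.cons (.leaf 1 [(1,2),(5,1),(9,1)]) (.cons (.leaf 1 [(9,1),(5,1),(1,1),(6,1)]) .nil)))))) (.cons 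
(.keep [5,6,7,8,9] (.node (.cons (.keep [4,5,6,8,9] (.node (.cons (.leaf 1 [(9,1),(6,1)]) (.cons 
(.leaf 1 [(9,1),(6,1),(3,1)]) (.cons (.leaf 1 [(5,3),(6,3)]) (.cons (.leaf 1 [(5,3),(6,3),(3,3)]) .nil)))))) 
(.cons (.keep [5,6,7,8,9] (.node (.cons (.leaf 1 [(9,1),(5,1),(7,1)]) (.cons 
(.leaf 3 [(3,1),(5,1),(2,3),(9,4)]) (.cons (.leaf 1 [(7,4),(5,3)]) (.cons 
(.leaf 1 [(3,3),(5,3),(7,4)]) .nil)))))) (.cons (.leaf 1 [(1,2),(9,1)]) (.cons 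
(.leaf 1 [(9,1),(1,1),(7,1)]) .nil)))))) .nil)))))) .nil)))))) (.cons (.leaf 1 [(7,3),(1,3),(5,1)]) (.cons 
(.leaf 2 [(8,4),(0,1),(1,4),(7,1)]) .nil)))))) .nil)))))) .nil)))))) (.cons (.leaf 0 [(32,0)]) (.cons 
(.leaf 0 [(33,0)]) .nil)))))) (.cons (.keep [3,5,6,8] (.node (.cons (.leaf 0 [(0,0)]) (.cons (.keep [0,5,7,8] 
(.node (.cons (.leaf 0 [(34,0)]) (.cons (.leaf 0 [(35,0)]) (.cons (.keep [4,5,6,8] (.node (.cons 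
(.leaf 1 [(7,1)]) (.cons (.leaf 1 [(3,3),(7,1)]) (.cons (.keep [4,6,7,8] (.node (.cons (.keep [4,5,6,7,8] 
(.node (.cons (.leaf 1 [(9,1)]) (.cons (.leaf 1 [(9,1),(3,1)]) (.cons (.leaf 1 [(5,2)]) (.cons 
(.leaf 1 [(5,2),(3,2)]) .nil)))))) (.cons (.keep [0,5,6,7,8] (.node (.cons (.leaf 4 [(9,5),(2,2)]) (.cons 
(.leaf 4 [(9,5),(2,2),(3,3)]) (.cons (.keep [4,5,6,8,9] (.node (.cons (.leaf 1 []) (.cons (.leaf 1 [(3,5)]) 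
(.cons (.keep [1,4,6,7,9] (.node (.cons (.leaf 1 [(8,5)]) (.cons (.leaf 1 [(9,5),(8,5),(0,5)]) (.cons 
(.leaf 1 [(1,5),(8,5)]) (.cons (.leaf 6 [(9,5),(8,5),(1,5),(6,5)]) .nil)))))) (.cons (.keep [3,5,6,7,8,9] 
(.node (.cons (.leaf 1 [(8,5)]) (.cons (.leaf 1 [(10,5),(0,5),(8,5)]) (.cons (.leaf 1 [(8,5),(1,5)]) (.cons 
(.leaf 1 [(10,5),(0,5),(1,5),(8,5)]) .nil)))))) .nil)))))) (.cons (.keep [3,5,6,8,9] (.node (.cons 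
(.leaf 2 [(2,3),(7,3)]) (.cons (.leaf 2 [(3,4),(7,3),(2,3)]) (.cons (.leaf 1 [(5,7),(7,5)]) (.cons 
(.keep [5,6,7,8,9] (.node (.cons (.leaf 1 [(7,5),(5,2)]) (.cons (.leaf 1 [(9,5),(0,5),(5,2),(7,5)]) (.cons 
(.leaf 1 [(7,5),(1,5),(5,2)]) (.cons (.leaf 3 [(9,7),(0,5),(1,7),(7,5)]) .nil)))))) .nil)))))) .nil)))))) 
(.cons (.leaf 1 [(1,1),(5,1),(8,1)]) (.cons (.leaf 1 [(8,1),(1,1),(5,1)]) .nil)))))) (.cons 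
(.keep [3,5,6,7,8] (.node (.cons (.keep [4,5,6,7,8,9] (.node (.cons (.leaf 1 [(10,1)]) (.cons 
(.leaf 1 [(10,1),(3,1)]) (.cons (.leaf 1 [(5,2),(6,2)]) (.cons (.leaf 1 [(5,2),(6,2),(3,2)]) .nil)))))) 
(.cons (.keep [0,5,6,8,9] (.node (.cons (.leaf 2 [(9,3),(2,2),(7,2)]) (.cons 
(.leaf 2 [(9,3),(2,2),(3,1),(7,2)]) (.cons (.keep [4,5,6,7,9] (.node (.cons (.leaf 1 [(7,2)]) (.cons 
(.leaf 1 [(3,5),(7,2)]) (.cons (.keep [4,5,6,7,9] (.node (.cons (.keep [4,5,7,8,9] (.node (.cons 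
(.leaf 1 [(9,1)]) (.cons (.leaf 1 [(9,1),(3,1)]) (.cons (.leaf 1 [(5,3)]) (.cons 
(.leaf 1 [(5,3),(3,3)]) .nil)))))) (.cons (.keep [0,3,5,8,9] (.node (.cons (.leaf 1 [(9,1)]) (.cons 
(.leaf 1 [(9,1),(3,1)]) (.cons (.leaf 1 [(5,8),(9,8)]) (.cons (.leaf 1 [(3,3),(9,8),(5,8)]) .nil)))))) (.cons 
(.leaf 1 [(5,1),(9,1)]) (.cons (.leaf 1 [(9,1),(3,1),(5,1)]) .nil)))))) (.cons (.keep [3,5,6,7,9] (.node 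
(.cons (.keep [4,5,6,7,8,9] (.node (.cons (.leaf 1 [(10,1)]) (.cons (.leaf 1 [(10,1),(3,1)]) (.cons 
(.leaf 1 [(5,3),(6,3)]) (.cons (.leaf 1 [(5,3),(6,3),(3,3)]) .nil)))))) (.cons (.keep [0,5,6,8,9] (.node 
(.cons (.leaf 1 [(9,1)]) (.cons (.leaf 1 [(3,1),(9,1)]) (.cons (.leaf 1 [(5,8),(6,3),(9,8)]) (.cons 
(.leaf 1 [(3,3),(6,3),(9,8),(5,8)]) .nil)))))) (.cons (.leaf 1 [(1,1),(6,1),(9,1)]) (.cons 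
(.leaf 1 [(9,1),(1,1),(6,1)]) .nil)))))) .nil)))))) (.cons (.keep [3,5,6,8,9] (.node (.cons 
(.leaf 1 [(5,1),(2,2)]) (.cons (.leaf 1 [(2,2),(3,1),(5,1)]) (.cons (.keep [4,5,6,7,8,9] (.node (.cons 
(.keep [4,5,7,8,10] (.node (.cons (.leaf 1 [(9,1)]) (.cons (.leaf 1 [(9,1),(3,1)]) (.cons (.leaf 1 [(5,3)]) 
(.cons (.leaf 1 [(5,3),(3,3)]) .nil)))))) (.cons (.keep [3,5,6,7,8,10] (.node (.cons (.leaf 1 [(10,1)]) 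
(.cons (.leaf 1 [(10,1),(3,1)]) (.cons (.leaf 1 [(7,7)]) (.cons (.leaf 1 [(3,3),(7,7)]) .nil)))))) (.cons 
(.leaf 1 [(5,1),(10,1)]) (.cons (.leaf 1 [(10,1),(3,1),(5,1)]) .nil)))))) (.cons (.keep [5,6,7,8,9] (.node 
(.cons (.keep [4,5,6,7,8,9] (.node (.cons (.leaf 1 [(10,1)]) (.cons (.leaf 1 [(10,1),(3,1)]) (.cons 
(.leaf 1 [(5,3),(6,2)]) (.cons (.leaf 1 [(5,3),(6,2),(3,3)]) .nil)))))) (.cons (.keep [0,5,7,8,9] (.node 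
(.cons (.leaf 1 [(9,1)]) (.cons (.leaf 1 [(3,1),(9,1)]) (.cons (.leaf 1 [(5,5),(6,2),(9,5)]) (.cons 
(.leaf 1 [(3,3),(6,2),(9,5),(5,5)]) .nil)))))) (.cons (.leaf 1 [(1,2),(8,1),(9,1)]) (.cons 
(.leaf 1 [(9,2),(8,1),(1,2),(0,1)]) .nil)))))) .nil)))))) .nil)))))) (.cons (.leaf 1 [(1,2),(6,1),(9,1)]) 
(.cons (.leaf 2 [(9,3),(1,3),(8,2),(6,3)]) .nil)))))) .nil)))))) (.cons (.keep [3,5,6,8] (.node (.cons 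
(.leaf 1 [(2,1)]) (.cons (.leaf 1 [(2,1),(3,1)]) (.cons (.keep [4,5,6,7,8] (.node (.cons (.keep [4,5,7,8,9] 
(.node (.cons (.leaf 1 [(9,1)]) (.cons (.leaf 1 [(9,1),(3,1)]) (.cons (.leaf 1 [(5,2)]) (.cons 
(.leaf 1 [(5,2),(3,2)]) .nil)))))) (.cons (.keep [5,6,7,8,9] (.node (.cons (.leaf 1 [(9,1),(6,2)]) (.cons 
(.leaf 1 [(6,2),(3,1),(9,1)]) (.cons (.leaf 1 [(6,4)]) (.cons (.leaf 1 [(3,2),(6,4)]) .nil)))))) (.cons 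
(.leaf 1 [(1,2),(5,1),(9,1)]) (.cons (.leaf 1 [(9,1),(5,1),(1,1),(6,1)]) .nil)))))) (.cons (.keep [5,6,7,8] 
(.node (.cons (.keep [4,5,6,7,8] (.node (.cons (.leaf 1 [(9,1),(6,1)]) (.cons (.leaf 1 [(9,1),(6,1),(3,1)]) 
(.cons (.leaf 1 [(5,2),(6,1)]) (.cons (.leaf 1 [(5,2),(6,1),(3,2)]) .nil)))))) (.cons (.keep [0,5,6,7,8] 
(.node (.cons (.leaf 2 [(9,3),(6,2),(2,2)]) (.cons (.leaf 2 [(9,3),(6,2),(3,1),(2,2)]) (.cons 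
(.keep [4,5,6,7,9] (.node (.cons (.leaf 1 [(7,1)]) (.cons (.leaf 1 [(3,3),(7,1)]) (.cons (.keep [4,6,7,8,9] 
(.node (.cons (.keep [4,5,6,8,9] (.node (.cons (.leaf 1 [(9,1)]) (.cons (.leaf 1 [(9,1),(3,1)]) (.cons 
(.leaf 1 [(5,3)]) (.cons (.leaf 1 [(5,3),(3,3)]) .nil)))))) (.cons (.keep [5,6,7,8,9] (.node (.cons 
(.leaf 1 [(9,1),(7,1)]) (.cons (.leaf 1 [(7,1),(3,1),(9,1)]) (.cons (.leaf 1 [(7,7)]) (.cons 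
(.leaf 1 [(3,3),(7,7)]) .nil)))))) (.cons (.leaf 1 [(1,1),(5,1),(9,1)]) (.cons 
(.leaf 1 [(9,1),(1,1),(5,1)]) .nil)))))) (.cons (.keep [3,5,6,7,8,9] (.node (.cons (.keep [4,5,6,7,9,10] 
(.node (.cons (.leaf 1 [(10,1)]) (.cons (.leaf 1 [(10,1),(3,1)]) (.cons (.leaf 1 [(5,3),(6,3)]) (.cons 
(.leaf 1 [(5,3),(6,3),(3,3)]) .nil)))))) (.cons (.keep [5,6,7,8,9,10] (.node (.cons (.leaf 1 [(10,1),(8,1)]) 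
(.cons (.leaf 1 [(3,1),(8,1),(10,1)]) (.cons (.leaf 1 [(8,7),(5,3)]) (.cons 
(.leaf 1 [(3,3),(5,3),(8,7)]) .nil)))))) (.cons (.leaf 1 [(1,2),(6,1),(10,1)]) (.cons 
(.leaf 1 [(10,1),(6,1),(1,1),(8,1)]) .nil)))))) .nil)))))) (.cons (.keep [3,5,6,7,8,9] (.node (.cons 
(.leaf 1 [(2,1)]) (.cons (.leaf 1 [(3,2),(2,1)]) (.cons (.keep [4,5,6,8,10] (.node (.cons (.keep [4,5,7,8,9] 
(.node (.cons (.leaf 1 [(9,1)]) (.cons (.leaf 1 [(9,1),(3,1)]) (.cons (.leaf 1 [(5,3)]) (.cons 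
(.leaf 1 [(5,3),(3,3)]) .nil)))))) (.cons (.keep [5,6,7,8,9] (.node (.cons (.leaf 1 [(9,1),(6,1)]) (.cons 
(.leaf 1 [(6,1),(3,1),(9,1)]) (.cons (.leaf 1 [(6,6)]) (.cons (.leaf 1 [(3,3),(6,6)]) .nil)))))) (.cons 
(.leaf 1 [(1,1),(5,1),(9,1)]) (.cons (.leaf 1 [(9,1),(1,1),(5,1)]) .nil)))))) (.cons (.keep [5,6,7,8,9,10] 
(.node (.cons (.keep [4,5,6,8,9,10] (.node (.cons (.leaf 1 [(10,1)]) (.cons (.leaf 1 [(10,1),(3,1)]) (.cons 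
(.leaf 1 [(5,3),(6,2)]) (.cons (.leaf 1 [(5,3),(6,2),(3,3)]) .nil)))))) (.cons (.keep [5,6,7,8,9,10] (.node 
(.cons (.leaf 1 [(10,1),(7,1)]) (.cons (.leaf 1 [(3,1),(7,1),(10,1)]) (.cons (.leaf 1 [(7,4),(5,2)]) (.cons 
(.leaf 1 [(3,3),(5,2),(7,4)]) .nil)))))) (.cons (.leaf 1 [(1,2),(9,1),(10,1)]) (.cons 
(.leaf 1 [(10,1),(9,1),(1,1),(7,1)]) .nil)))))) .nil)))))) .nil)))))) (.cons (.leaf 1 [(1,2),(8,1)]) (.cons 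
(.leaf 2 [(8,4),(1,4),(7,2),(0,1)]) .nil)))))) .nil)))))) .nil)))))) (.cons (.leaf 0 [(36,0)]) (.cons 
(.leaf 0 [(37,0)]) .nil)))))) .nil)))))) (.cons (.keep [0,2,3,7] (.node (.cons (.leaf 1 [(2,1),(7,1)]) (.cons 
(.leaf 1 [(7,1),(2,1)]) (.cons (.leaf 0 [(38,0)]) (.cons (.keep [5,6,7,8] (.node (.cons (.leaf 0 [(0,0)]) 
(.cons (.keep [0,2,5,7,8] (.node (.cons (.leaf 0 [(39,0)]) (.cons (.leaf 0 [(40,0)]) (.cons 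
(.keep [4,5,6,8,9] (.node (.cons (.leaf 1 [(8,1)]) (.cons (.leaf 1 [(3,2),(8,1)]) (.cons (.keep [4,5,6,7,8,9] 
(.node (.cons (.keep [4,5,7,8,10] (.node (.cons (.leaf 1 [(8,2)]) (.cons (.leaf 1 [(8,2),(3,2)]) (.cons 
(.leaf 1 [(5,2)]) (.cons (.leaf 1 [(5,2),(3,2)]) .nil)))))) (.cons (.keep [3,5,7,8,9,10] (.node (.cons 
(.leaf 1 [(8,5),(2,3)]) (.cons (.leaf 1 [(2,3),(3,2),(8,5)]) (.cons (.leaf 1 [(9,5)]) (.cons 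
(.leaf 1 [(3,2),(9,5)]) .nil)))))) (.cons (.leaf 1 [(1,3),(5,2),(8,2)]) (.cons 
(.leaf 1 [(8,2),(1,2),(9,1),(5,2)]) .nil)))))) (.cons (.keep [3,5,6,7,8,9] (.node (.cons 
(.keep [4,5,6,7,8,10] (.node (.cons (.leaf 1 [(9,2)]) (.cons (.leaf 1 [(9,2),(3,2)]) (.cons 
(.leaf 1 [(5,2),(6,2)]) (.cons (.leaf 1 [(5,2),(6,2),(3,2)]) .nil)))))) (.cons (.keep [5,6,7,8,9,10] (.node 
(.cons (.leaf 1 [(8,2),(9,3)]) (.cons (.leaf 1 [(8,2),(9,3),(3,2)]) (.cons (.leaf 1 [(9,5),(5,2)]) (.cons 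
(.leaf 1 [(3,2),(5,2),(9,5)]) .nil)))))) (.cons (.leaf 1 [(1,5),(6,2),(8,2)]) (.cons 
(.leaf 1 [(8,2),(1,2),(9,3),(6,2)]) .nil)))))) .nil)))))) (.cons (.keep [3,5,6,8,9] (.node (.cons 
(.leaf 1 [(2,1)]) (.cons (.leaf 1 [(2,1),(3,1)]) (.cons (.keep [4,5,6,7,9] (.node (.cons (.keep [4,5,7,8,9] 
(.node (.cons (.leaf 1 [(8,2)]) (.cons (.leaf 1 [(8,2),(3,2)]) (.cons (.leaf 1 [(5,2)]) (.cons 
(.leaf 1 [(5,2),(3,2)]) .nil)))))) (.cons (.keep [5,6,7,8,9] (.node (.cons (.leaf 1 [(8,2),(6,4)]) (.cons 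
(.leaf 1 [(6,4),(3,2),(8,2)]) (.cons (.leaf 1 [(6,4)]) (.cons (.leaf 1 [(3,2),(6,4)]) .nil)))))) (.cons 
(.leaf 1 [(1,4),(5,2),(8,2)]) (.cons (.leaf 1 [(8,2),(5,2),(1,2),(6,2)]) .nil)))))) (.cons (.keep [3,6,7,8,9] 
(.node (.cons (.keep [4,5,6,7,9] (.node (.cons (.leaf 1 [(8,2),(6,1)]) (.cons (.leaf 1 [(8,2),(6,1),(3,2)]) 
(.cons (.leaf 1 [(5,2),(6,1)]) (.cons (.leaf 1 [(5,2),(6,1),(3,2)]) .nil)))))) (.cons (.keep [5,6,7,8,9] 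
(.node (.cons (.leaf 1 [(7,2),(5,1),(8,4)]) (.cons (.leaf 1 [(3,2),(5,1),(8,4),(7,2)]) (.cons 
(.leaf 1 [(8,4),(5,1)]) (.cons (.leaf 1 [(3,2),(5,1),(8,4)]) .nil)))))) (.cons (.leaf 1 [(1,1),(9,1)]) (.cons 
(.leaf 1 [(9,1),(1,1)]) .nil)))))) .nil)))))) .nil)))))) (.cons (.leaf 0 [(41,0)]) (.cons (.keep [0,1,5,8] 
(.node (.cons (.keep [4,5,6,7,8] (.node (.cons (.leaf 1 [(9,1)]) (.cons (.leaf 1 [(9,1),(3,1)]) (.cons 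
(.leaf 0 [(42,0)]) (.cons (.leaf 0 [(43,0)]) .nil)))))) (.cons (.keep [3,5,6,7,8] (.node (.cons 
(.leaf 1 [(9,1),(5,1)]) (.cons (.leaf 1 [(9,1),(5,1),(3,1)]) (.cons (.leaf 0 [(44,0)]) (.cons 
(.leaf 0 [(45,0)]) .nil)))))) (.cons (.keep [4,5,6,7,8] (.node (.cons (.leaf 2 [(9,1),(7,2)]) (.cons 
(.leaf 2 [(7,2),(3,3),(9,1)]) (.cons (.leaf 1 [(9,2),(7,1),(5,3)]) (.cons 
(.leaf 1 [(9,2),(5,3),(3,3),(7,1)]) .nil)))))) (.cons (.keep [3,5,6,7,8] (.node (.cons 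
(.leaf 1 [(2,1),(7,1)]) (.cons (.leaf 1 [(7,1),(3,1),(2,1)]) (.cons (.leaf 1 [(7,1),(6,2),(9,4)]) (.cons 
(.leaf 1 [(9,4),(7,1),(6,2),(3,3)]) .nil)))))) .nil)))))) .nil)))))) .nil)))))) (.cons (.keep [1,4,5,7] 
(.node (.cons (.leaf 1 [(8,1)]) (.cons (.leaf 1 [(8,1),(3,2)]) (.cons (.keep [4,5,7,8] (.node (.cons 
(.leaf 0 [(0,0)]) (.cons (.keep [0,5,6,7,8] (.node (.cons (.leaf 2 [(7,3),(2,1)]) (.cons 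
(.leaf 2 [(7,3),(2,1),(3,2)]) (.cons (.keep [4,5,6,7,9] (.node (.cons (.leaf 1 []) (.cons (.leaf 1 [(3,3)]) 
(.cons (.keep [1,4,6,7,8] (.node (.cons (.leaf 1 [(8,3)]) (.cons (.leaf 1 [(9,3),(8,3),(0,3)]) (.cons 
(.leaf 1 [(1,3),(8,3)]) (.cons (.leaf 4 [(9,3),(8,3),(1,3),(6,3)]) .nil)))))) (.cons (.keep [3,5,6,7,8,9] 
(.node (.cons (.leaf 1 [(8,3)]) (.cons (.leaf 1 [(9,3),(0,3),(8,3)]) (.cons (.leaf 1 [(8,3),(1,3)]) (.cons 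
(.leaf 1 [(9,3),(0,3),(1,3),(8,3)]) .nil)))))) .nil)))))) (.cons (.keep [3,5,6,7,9] (.node (.cons 
(.leaf 1 [(2,1),(7,1)]) (.cons (.leaf 1 [(3,1),(7,1),(2,1)]) (.cons (.leaf 1 [(5,4),(7,3)]) (.cons 
(.keep [5,6,7,8,9] (.node (.cons (.leaf 1 [(7,3),(5,1)]) (.cons (.leaf 1 [(8,3),(0,3),(5,1),(7,3)]) (.cons 
(.leaf 1 [(7,3),(1,3),(5,1)]) (.cons (.leaf 2 [(8,4),(0,3),(1,4),(7,3)]) .nil)))))) .nil)))))) .nil)))))) 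
(.cons (.leaf 1 [(1,1),(5,1),(6,1)]) (.cons (.leaf 1 [(6,1),(1,1),(5,1)]) .nil)))))) (.cons 
(.keep [3,5,6,7,8] (.node (.cons (.leaf 0 [(0,0)]) (.cons (.keep [0,5,6,7,9] (.node (.cons 
(.leaf 1 [(7,2),(2,1),(8,1)]) (.cons (.leaf 1 [(2,1),(7,2),(3,1),(8,1)]) (.cons (.keep [4,5,6,7,8] (.node 
(.cons (.leaf 1 [(7,1)]) (.cons (.leaf 1 [(3,3),(7,1)]) (.cons (.keep [4,5,6,7,8] (.node (.cons 
(.keep [4,5,7,8,9] (.node (.cons (.leaf 1 [(9,1)]) (.cons (.leaf 1 [(9,1),(3,1)]) (.cons (.leaf 1 [(5,2)]) 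
(.cons (.leaf 1 [(5,2),(3,2)]) .nil)))))) (.cons (.keep [0,3,5,8,9] (.node (.cons (.leaf 1 [(9,1)]) (.cons 
(.leaf 1 [(9,1),(3,1)]) (.cons (.leaf 1 [(5,5),(9,5)]) (.cons (.leaf 1 [(3,2),(9,5),(5,5)]) .nil)))))) (.cons 
(.leaf 1 [(5,1),(9,1)]) (.cons (.leaf 1 [(9,1),(3,1),(5,1)]) .nil)))))) (.cons (.keep [3,5,6,7,8] (.node 
(.cons (.keep [4,5,6,7,8,9] (.node (.cons (.leaf 1 [(10,1)]) (.cons (.leaf 1 [(10,1),(3,1)]) (.cons 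
(.leaf 1 [(5,2),(6,2)]) (.cons (.leaf 1 [(5,2),(6,2),(3,2)]) .nil)))))) (.cons (.keep [0,5,6,8,9] (.node 
(.cons (.leaf 1 [(9,1)]) (.cons (.leaf 1 [(3,1),(9,1)]) (.cons (.leaf 1 [(5,5),(6,2),(9,5)]) (.cons 
(.leaf 1 [(3,2),(6,2),(9,5),(5,5)]) .nil)))))) (.cons (.leaf 1 [(1,1),(6,1),(9,1)]) (.cons 
(.leaf 1 [(9,1),(1,1),(6,1)]) .nil)))))) .nil)))))) (.cons (.keep [3,5,6,7,9] (.node (.cons (.leaf 1 [(2,1)]) 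
(.cons (.leaf 1 [(2,1),(3,1)]) (.cons (.keep [4,5,6,7,8,9] (.node (.cons (.keep [4,5,7,8,9] (.node (.cons 
(.leaf 1 [(9,1)]) (.cons (.leaf 1 [(9,1),(3,1)]) (.cons (.leaf 1 [(5,2)]) (.cons 
(.leaf 1 [(5,2),(3,2)]) .nil)))))) (.cons (.keep [3,5,6,7,8,9] (.node (.cons (.leaf 1 [(10,1)]) (.cons 
(.leaf 1 [(10,1),(3,1)]) (.cons (.leaf 1 [(7,4)]) (.cons (.leaf 1 [(3,2),(7,4)]) .nil)))))) (.cons 
(.leaf 1 [(5,1),(9,1)]) (.cons (.leaf 1 [(9,1),(3,1),(5,1)]) .nil)))))) (.cons (.keep [5,6,7,8,9] (.node 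
(.cons (.keep [4,5,6,7,8,9] (.node (.cons (.leaf 1 [(9,1)]) (.cons (.leaf 1 [(9,1),(3,1)]) (.cons 
(.leaf 1 [(5,2),(6,1)]) (.cons (.leaf 1 [(5,2),(6,1),(3,2)]) .nil)))))) (.cons (.keep [0,5,7,8,9] (.node 
(.cons (.leaf 1 [(8,1)]) (.cons (.leaf 1 [(3,1),(8,1)]) (.cons (.leaf 1 [(5,3),(6,1),(8,3)]) (.cons 
(.leaf 1 [(3,2),(6,1),(8,3),(5,3)]) .nil)))))) (.cons (.leaf 1 [(1,2),(9,1),(8,1)]) (.cons 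
(.leaf 1 [(8,2),(9,1),(1,2),(0,1)]) .nil)))))) .nil)))))) .nil)))))) (.cons (.leaf 1 [(1,2),(7,1),(6,1)]) 
(.cons (.leaf 1 [(6,2),(1,2),(9,1),(7,2)]) .nil)))))) .nil)))))) (.cons (.keep [0,1,3,5,7] (.node (.cons 
(.leaf 1 [(2,1),(7,1)]) (.cons (.leaf 1 [(7,1),(2,1)]) (.cons (.leaf 0 [(38,0)]) (.cons (.keep [5,6,7,8,9] 
(.node (.cons (.leaf 0 [(0,0)]) (.cons (.keep [0,2,5,6,7,9] (.node (.cons (.leaf 1 [(8,2),(2,1),(6,1)]) 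
(.cons (.leaf 1 [(6,1),(8,2),(2,1),(3,2)]) (.cons (.keep [4,5,6,8,9] (.node (.cons (.leaf 1 [(9,1)]) (.cons 
(.leaf 1 [(3,2),(9,1)]) (.cons (.keep [4,5,6,7,8,9] (.node (.cons (.keep [4,5,7,8,9] (.node (.cons 
(.leaf 1 [(8,2)]) (.cons (.leaf 1 [(8,2),(3,2)]) (.cons (.leaf 1 [(5,2)]) (.cons 
(.leaf 1 [(5,2),(3,2)]) .nil)))))) (.cons (.keep [3,5,7,8,9,10] (.node (.cons (.leaf 1 [(8,5),(2,3)]) (.cons 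
(.leaf 1 [(2,3),(3,2),(8,5)]) (.cons (.leaf 1 [(10,5)]) (.cons (.leaf 1 [(3,2),(10,5)]) .nil)))))) (.cons 
(.leaf 1 [(1,3),(5,2),(8,2)]) (.cons (.leaf 2 [(8,2),(1,3),(9,1),(5,3)]) .nil)))))) (.cons 
(.keep [3,5,6,7,8,9] (.node (.cons (.keep [4,5,6,7,8,9] (.node (.cons (.leaf 1 [(9,2)]) (.cons 
(.leaf 1 [(9,2),(3,2)]) (.cons (.leaf 1 [(5,2),(6,2)]) (.cons (.leaf 1 [(5,2),(6,2),(3,2)]) .nil)))))) (.cons 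
(.keep [5,6,7,8,9,10] (.node (.cons (.leaf 1 [(9,1)]) (.cons (.leaf 1 [(3,1),(9,1)]) (.cons 
(.leaf 1 [(10,5),(5,2)]) (.cons (.leaf 1 [(3,2),(5,2),(10,5)]) .nil)))))) (.cons 
(.leaf 1 [(1,5),(6,2),(8,2)]) (.cons (.leaf 1 [(6,1),(1,1),(9,1)]) .nil)))))) .nil)))))) (.cons 
(.keep [3,5,6,8,9,10] (.node (.cons (.leaf 1 [(2,1)]) (.cons (.leaf 1 [(2,1),(3,1)]) (.cons 
(.keep [4,5,6,7,8,10] (.node (.cons (.keep [4,5,7,8,9] (.node (.cons (.leaf 1 [(8,2)]) (.cons 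
(.leaf 1 [(8,2),(3,2)]) (.cons (.leaf 1 [(5,2)]) (.cons (.leaf 1 [(5,2),(3,2)]) .nil)))))) (.cons 
(.keep [3,5,6,7,8,9] (.node (.cons (.leaf 1 [(9,2),(7,4)]) (.cons (.leaf 1 [(7,4),(3,2),(9,2)]) (.cons 
(.leaf 1 [(7,4)]) (.cons (.leaf 1 [(3,2),(7,4)]) .nil)))))) (.cons (.leaf 1 [(1,4),(5,2),(8,2)]) (.cons 
(.leaf 1 [(8,2),(5,2),(1,2),(6,2)]) .nil)))))) (.cons (.keep [3,6,7,8,9,10] (.node (.cons 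
(.keep [4,5,6,7,8,10] (.node (.cons (.leaf 1 [(8,2),(6,1)]) (.cons (.leaf 1 [(8,2),(6,1),(3,2)]) (.cons 
(.leaf 1 [(5,2),(6,1)]) (.cons (.leaf 1 [(5,2),(6,1),(3,2)]) .nil)))))) (.cons (.keep [5,6,7,8,9,10] (.node 
(.cons (.leaf 1 [(8,1)]) (.cons (.leaf 1 [(3,1),(8,1)]) (.cons (.leaf 1 [(9,4),(5,1)]) (.cons 
(.leaf 1 [(3,2),(5,1),(9,4)]) .nil)))))) (.cons (.leaf 1 [(1,5),(10,1),(7,2)]) (.cons 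
(.leaf 1 [(8,1),(10,1),(1,1)]) .nil)))))) .nil)))))) .nil)))))) (.cons (.leaf 1 [(1,3),(5,1),(6,1)]) (.cons 
(.keep [0,1,5,6,9] (.node (.cons (.leaf 1 [(8,2),(2,1)]) (.cons (.leaf 1 [(8,2),(2,1),(3,2)]) (.cons 
(.keep [4,5,6,7,8] (.node (.cons (.leaf 2 [(9,1),(7,3)]) (.cons (.leaf 2 [(7,3),(3,3),(9,1)]) (.cons 
(.leaf 1 [(7,3),(5,3),(9,2)]) (.cons (.leaf 1 [(7,3),(5,3),(9,2),(3,3)]) .nil)))))) (.cons (.keep [3,5,7,8,9] 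
(.node (.cons (.leaf 1 [(2,1),(9,1),(5,1)]) (.cons (.leaf 1 [(9,1),(3,1),(5,1),(2,1)]) (.cons 
(.leaf 1 [(9,4),(6,1),(8,3)]) (.cons 
(.leaf 1 [(9,4),(6,1),(8,3),(3,3)]) .nil)))))) .nil)))))) .nil)))))) .nil)))))) .nil)))))) (.cons 
(.leaf 0 [(46,0)]) (.cons (.keep [0,1,7,9] (.node (.cons (.leaf 0 [(47,0)]) (.cons (.keep [0,2,6,7,8] (.node 
(.cons (.leaf 2 [(2,1),(7,1)]) (.cons (.leaf 2 [(2,1),(7,1),(3,1)]) (.cons (.leaf 0 [(48,0)]) (.cons 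
(.keep [5,6,7,8,9] (.node (.cons (.leaf 0 [(0,0)]) (.cons (.keep [0,2,3,5,7] (.node (.cons (.leaf 0 [(49,0)]) 
(.cons (.leaf 0 [(50,0)]) (.cons (.leaf 1 [(5,1),(9,3),(6,1)]) (.cons 
(.leaf 1 [(3,2),(9,3),(6,1),(5,1)]) .nil)))))) (.cons (.leaf 0 [(51,0)]) (.cons (.keep [0,1,5,7,8] (.node 
(.cons (.keep [4,5,6,7,8] (.node (.cons (.leaf 1 [(9,1)]) (.cons (.leaf 1 [(9,1),(3,1)]) (.cons 
(.leaf 0 [(42,0)]) (.cons (.leaf 0 [(43,0)]) .nil)))))) (.cons (.keep [3,5,6,7,8,9] (.node (.cons 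
(.leaf 1 [(9,1)]) (.cons (.leaf 1 [(9,1),(3,1)]) (.cons (.leaf 0 [(52,0)]) (.cons 
(.leaf 0 [(53,0)]) .nil)))))) (.cons (.keep [1,4,5,6,8] (.node (.cons (.leaf 1 [(5,1),(8,2)]) (.cons 
(.leaf 1 [(8,2),(3,2),(5,1)]) (.cons (.leaf 1 [(9,2),(6,2),(5,1)]) (.cons 
(.leaf 1 [(9,2),(6,2),(5,1),(3,2)]) .nil)))))) (.cons (.keep [3,5,6,8,9] (.node (.cons 
(.leaf 1 [(2,1),(7,1)]) (.cons (.leaf 1 [(7,1),(3,1),(2,1)]) (.cons (.leaf 1 [(9,2),(8,3),(6,1)]) (.cons 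
(.leaf 1 [(9,2),(8,3),(6,1),(3,2)]) .nil)))))) .nil)))))) .nil)))))) .nil)))))) (.cons (.leaf 0 [(54,0)]) 
(.cons (.keep [0,1,6,7,8] (.node (.cons (.leaf 2 [(2,1),(6,1),(7,1)]) (.cons 
(.leaf 2 [(2,1),(6,1),(7,1),(3,1)]) (.cons (.leaf 0 [(55,0)]) (.cons (.keep [5,6,7,8,9] (.node (.cons 
(.leaf 0 [(0,0)]) (.cons (.keep [2,3,5,6,7] (.node (.cons (.leaf 1 [(8,2),(2,1),(5,1)]) (.cons 
(.leaf 1 [(5,1),(8,2),(2,1),(3,2)]) (.cons (.leaf 1 [(5,1),(9,3),(8,2)]) (.cons 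
(.leaf 1 [(3,2),(9,3),(8,2),(5,1)]) .nil)))))) (.cons (.leaf 1 [(1,3),(5,1),(6,1)]) (.cons 
(.keep [0,1,5,6,7,9] (.node (.cons (.leaf 1 [(8,2),(2,1)]) (.cons (.leaf 1 [(8,2),(2,1),(3,2)]) (.cons 
(.leaf 1 [(5,3),(8,5),(9,3)]) (.cons 
(.leaf 1 [(8,5),(9,3),(5,3),(3,2)]) .nil)))))) .nil)))))) .nil)))))) .nil)))))) .nil)))))) .nil))))))

def s_10_18 : List (List ((ℕ × List (ℕ × ℕ)) × (ℕ × List (ℕ × ℕ)))) := [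
  [((1, []), (1, []))],
  [((1, [(7,1)]), (1, [(8,1)]))],
  [((1, [(7,1)]), (1, [(3,1)]))],
  [((1, [(7,1)]), (1, [(5,1)]))],
  [((1, [(7,1)]), (1, [(5,1),(3,1)]))],
  [((1, [(2,1),(5,1)]), (1, [(9,1)]))],
  [((1, [(8,1)]), (1, [(3,1)]))],
  [((1, [(5,1)]), (1, [(7,1),(1,1)]))],
  [((1, [(8,1)]), (1, [(7,1),(1,1)]))],
  [((1, [(7,1),(5,1)]), (1, [(8,1),(7,1)]))],
  [((1, [(5,1),(7,1)]), (1, [(8,1)]))],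
  [((1, [(7,1)]), (1, [(6,1)]))],
  [((2, [(0,1),(7,2)]), (1, [(3,2),(6,1)]))],
  [((1, [(5,2),(1,1)]), (1, [(1,1),(8,1)]))],
  [((1, [(8,1),(5,1)]), (1, [(3,1)]))],
  [((1, [(7,1),(5,2)]), (1, [(6,2),(7,1)]))],
  [((1, [(7,1),(5,2)]), (1, [(3,2),(7,1),(6,2)]))],
  [((1, [(5,1),(8,1)]), (1, [(6,2),(7,1)]))],
  [((1, [(7,1),(8,2)]), (1, [(6,2),(7,1),(3,2)]))],
  [((1, [(8,1)]), (1, [(1,1)]))],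
  [((1, [(8,1)]), (1, [(5,1),(7,1)]))],
  [((2, [(5,2),(7,1)]), (2, [(7,1),(8,2)]))],
  [((1, [(2,1),(7,1)]), (1, [(8,1)]))],
  [((1, [(7,1),(3,2),(2,1)]), (1, [(7,1),(8,2),(2,1)]))],
  [((2, [(7,2),(5,3)]), (1, [(8,1),(1,1)]))],
  [((1, [(9,1)]), (1, [(8,1),(5,1)]))],
  [((1, [(9,1)]), (1, [(8,1),(5,1),(3,1)]))],
  [((1, [(7,1),(5,1)]), (1, [(8,1)]))],
  [((1, [(9,1)]), (1, [(8,1),(3,1)]))],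
  [((1, [(9,1)]), (1, [(7,1)]))],
  [((1, [(6,1)]), (1, [(8,1)]))],
  [((2, [(3,1),(0,1)]), (1, [(8,1),(3,1)]))],
  [((1, [(7,1)]), (1, [(1,1)]))],
  [((1, [(7,1)]), (2, [(8,1),(1,1),(5,1)]))],
  [((1, [(6,1),(7,1)]), (1, [(8,1)]))],
  [((2, [(3,1),(6,1),(0,1)]), (1, [(8,1),(3,1)]))],
  [((1, [(5,1),(7,1)]), (1, [(1,1)]))],
  [((1, [(7,1),(5,1)]), (1, [(8,1),(1,1),(7,1)]))],
  [((2, [(5,1)]), (1, [(7,1)]))],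
  [((1, [(8,1),(7,1)]), (1, [(9,1),(6,1)]))],
  [((1, [(3,1),(8,1),(0,1)]), (1, [(6,1),(9,1),(3,2)]))],
  [((1, [(7,1),(5,1)]), (1, [(1,1)]))],
  [((1, [(8,1),(7,1)]), (1, [(9,1),(5,1)]))],
  [((1, [(7,1),(8,1)]), (1, [(9,1),(5,1),(3,1)]))],
  [((1, [(8,1),(5,1)]), (1, [(9,1)]))],
  [((1, [(8,2),(9,1),(7,1)]), (1, [(9,1),(3,1)]))],
  [((1, [(9,1)]), (1, [(1,1),(7,1)]))],
  [((1, [(8,1)]), (1, [(6,1)]))],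
  [((2, [(5,1)]), (2, [(7,1)]))],
  [((1, [(7,1)]), (1, [(9,1),(6,1)]))],
  [((1, [(7,1)]), (1, [(6,1),(9,1),(3,1)]))],
  [((2, [(8,1),(5,1)]), (1, [(1,1)]))],
  [((1, [(8,1),(5,1)]), (1, [(9,1),(10,1)]))],
  [((1, [(8,1),(10,1),(7,1)]), (1, [(9,1),(10,1),(3,1)]))],
  [((1, [(5,1),(1,1)]), (1, [(6,1),(1,1)]))],
  [((2, [(5,1)]), (2, [(7,1),(6,1)]))]]

theorem red_10_18 (h : ∀ a b : ℕ → ℝ, Pat 10 a → Pat 18 b → NoM3 a b) : ESB (caseOf 4 10 18) :=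
  esb_m3 (cs := [none, none, none, some 1]) (S := s_10_18) (t := t_10_18) (by decide) (by decide +kernel) rfl h

def t_27_16 : T := (.keep [0,1,2] (.node (.cons (.keep [0,2,3,7] (.node (.cons (.keep [2,3,4,7,8] (.node (.cons 
(.keep [2,3,4,6,7,9] (.node (.cons (.keep [2,3,4,6,7,9,11] (.node (.cons (.leaf 1 [(4,1)]) (.cons 
(.leaf 1 [(4,1)]) (.cons (.leaf 1 [(4,1)]) (.cons (.leaf 1 []) .nil)))))) (.cons (.leaf 1 [(1,1)]) (.cons 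
(.keep [1,4,6,7,8,10,11] (.node (.cons (.leaf 1 [(4,1)]) (.cons (.leaf 1 [(4,1)]) (.cons (.leaf 1 [(4,1)]) 
(.cons (.leaf 1 []) .nil)))))) (.cons (.keep [0,3,7,8,9,11] (.node (.cons (.leaf 1 [(4,1)]) (.cons 
(.leaf 1 [(4,1)]) (.cons (.leaf 1 [(4,1)]) (.cons (.leaf 1 []) .nil)))))) .nil)))))) (.cons 
(.keep [3,4,6,7,9,10] (.node (.cons (.keep [2,6,7,8,10,11] (.node (.cons (.leaf 1 [(4,1)]) (.cons 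
(.leaf 1 [(4,1)]) (.cons (.leaf 1 [(4,1)]) (.cons (.leaf 1 []) .nil)))))) (.cons (.leaf 1 [(1,1)]) (.cons 
(.keep [6,7,8,9,10,11] (.node (.cons (.leaf 1 [(4,1)]) (.cons (.leaf 1 [(4,1)]) (.cons (.leaf 1 [(4,1)]) 
(.cons (.leaf 1 []) .nil)))))) (.cons (.keep [0,3,6,7,8,10] (.node (.cons (.leaf 1 [(4,1)]) (.cons 
(.leaf 1 [(4,1)]) (.cons (.leaf 1 [(4,1)]) (.cons (.leaf 1 []) .nil)))))) .nil)))))) (.cons 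
(.keep [1,4,6,7,8,10] (.node (.cons (.keep [2,4,6,7,8,10,11] (.node (.cons (.leaf 1 [(4,1)]) (.cons 
(.leaf 1 [(4,1)]) (.cons (.leaf 1 [(4,1)]) (.cons (.leaf 1 []) .nil)))))) (.cons (.leaf 1 [(1,1)]) (.cons 
(.keep [4,6,7,8,9,10,11] (.node (.cons (.leaf 1 [(4,1)]) (.cons (.leaf 1 [(4,1)]) (.cons (.leaf 1 [(4,1)]) 
(.cons (.leaf 1 []) .nil)))))) (.cons (.keep [0,3,6,7,8,10] (.node (.cons (.leaf 1 [(4,1)]) (.cons 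
(.leaf 1 [(4,1)]) (.cons (.leaf 1 [(4,1)]) (.cons (.leaf 1 []) .nil)))))) .nil)))))) (.cons 
(.keep [0,3,8,9,10] (.node (.cons (.keep [3,4,6,7,9,10] (.node (.cons (.leaf 1 [(4,1)]) (.cons 
(.leaf 1 [(4,1)]) (.cons (.leaf 1 [(4,1)]) (.cons (.leaf 1 []) .nil)))))) (.cons (.leaf 1 [(1,1)]) (.cons 
(.keep [4,6,7,8,9,10] (.node (.cons (.leaf 1 [(4,1)]) (.cons (.leaf 1 [(4,1)]) (.cons (.leaf 1 [(4,1)]) 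
(.cons (.leaf 1 []) .nil)))))) (.cons (.keep [0,3,7,8,9] (.node (.cons (.leaf 1 [(4,1)]) (.cons 
(.leaf 1 [(4,1)]) (.cons (.leaf 1 [(4,1)]) (.cons (.leaf 1 []) .nil)))))) .nil)))))) .nil)))))) (.cons 
(.keep [1,4,7,8,9] (.node (.cons (.keep [2,3,4,8,10] (.node (.cons (.keep [3,4,6,7,9,10] (.node (.cons 
(.leaf 1 [(4,1)]) (.cons (.leaf 1 [(4,1)]) (.cons (.leaf 1 [(4,1)]) (.cons (.leaf 1 []) .nil)))))) (.cons 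
(.leaf 1 [(1,1)]) (.cons (.keep [2,4,6,7,8,9] (.node (.cons (.leaf 1 [(4,1)]) (.cons (.leaf 1 [(4,1)]) (.cons 
(.leaf 1 [(4,1)]) (.cons (.leaf 1 []) .nil)))))) (.cons (.keep [0,3,7,8,9] (.node (.cons (.leaf 1 [(4,1)]) 
(.cons (.leaf 1 [(4,1)]) (.cons (.leaf 1 [(4,1)]) (.cons (.leaf 1 []) .nil)))))) .nil)))))) (.cons 
(.keep [3,4,8,9,10] (.node (.cons (.keep [6,7,8,9,10] (.node (.cons (.leaf 1 [(4,1)]) (.cons 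
(.leaf 1 [(4,1)]) (.cons (.leaf 1 [(4,1)]) (.cons (.leaf 1 []) .nil)))))) (.cons (.leaf 1 [(1,1)]) (.cons 
(.keep [6,7,8,9,10] (.node (.cons (.leaf 1 [(4,1)]) (.cons (.leaf 1 [(4,1)]) (.cons (.leaf 1 [(4,1)]) (.cons 
(.leaf 1 []) .nil)))))) (.cons (.keep [0,3,6,7,8] (.node (.cons (.leaf 1 [(4,1)]) (.cons (.leaf 1 [(4,1)]) 
(.cons (.leaf 1 [(4,1)]) (.cons (.leaf 1 []) .nil)))))) .nil)))))) (.cons (.keep [4,7,8,9,10] (.node (.cons 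
(.keep [3,4,6,8,9,10] (.node (.cons (.leaf 1 [(4,1)]) (.cons (.leaf 1 [(4,1)]) (.cons (.leaf 1 [(4,1)]) 
(.cons (.leaf 1 []) .nil)))))) (.cons (.leaf 1 [(1,1)]) (.cons (.keep [1,4,6,7,9,10] (.node (.cons 
(.leaf 1 [(4,1)]) (.cons (.leaf 1 [(4,1)]) (.cons (.leaf 1 [(4,1)]) (.cons (.leaf 1 []) .nil)))))) (.cons 
(.keep [0,3,6,7,8,10] (.node (.cons (.leaf 1 [(4,1)]) (.cons (.leaf 1 [(4,1)]) (.cons (.leaf 1 [(4,1)]) 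
(.cons (.leaf 1 []) .nil)))))) .nil)))))) (.cons (.keep [0,3,7,8,9] (.node (.cons (.keep [3,4,6,7,9,10] 
(.node (.cons (.leaf 1 [(4,1)]) (.cons (.leaf 1 [(4,1)]) (.cons (.leaf 1 [(4,1)]) (.cons 
(.leaf 1 []) .nil)))))) (.cons (.leaf 1 [(1,1)]) (.cons (.keep [4,6,7,8,9,10] (.node (.cons (.leaf 1 [(4,1)]) 
(.cons (.leaf 1 [(4,1)]) (.cons (.leaf 1 [(4,1)]) (.cons (.leaf 1 []) .nil)))))) (.cons (.keep [0,3,7,8,9] 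
(.node (.cons (.leaf 1 [(4,1)]) (.cons (.leaf 1 [(4,1)]) (.cons (.leaf 1 [(4,1)]) (.cons 
(.leaf 1 []) .nil)))))) .nil)))))) .nil)))))) (.cons (.leaf 1 [(1,1)]) (.cons (.keep [0,1,2,8] (.node (.cons 
(.keep [2,3,4,6,8] (.node (.cons (.keep [3,4,6,7,9,10] (.node (.cons (.leaf 1 [(4,1)]) (.cons 
(.leaf 1 [(4,1)]) (.cons (.leaf 1 [(4,1)]) (.cons (.leaf 1 []) .nil)))))) (.cons (.leaf 1 [(1,1)]) (.cons 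
(.keep [4,6,7,8,9,10] (.node (.cons (.leaf 1 [(4,1)]) (.cons (.leaf 1 [(4,1)]) (.cons (.leaf 1 [(4,1)]) 
(.cons (.leaf 1 []) .nil)))))) (.cons (.keep [0,3,7,8,10] (.node (.cons (.leaf 1 [(4,1)]) (.cons 
(.leaf 1 [(4,1)]) (.cons (.leaf 1 [(4,1)]) (.cons (.leaf 1 []) .nil)))))) .nil)))))) (.cons 
(.keep [3,4,6,8,9] (.node (.cons (.keep [6,7,8,9,10] (.node (.cons (.leaf 1 [(4,1)]) (.cons (.leaf 1 [(4,1)]) 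
(.cons (.leaf 1 [(4,1)]) (.cons (.leaf 1 []) .nil)))))) (.cons (.leaf 1 [(1,1)]) (.cons (.keep [6,7,8,9,10] 
(.node (.cons (.leaf 1 [(4,1)]) (.cons (.leaf 1 [(4,1)]) (.cons (.leaf 1 [(4,1)]) (.cons 
(.leaf 1 []) .nil)))))) (.cons (.keep [0,3,6,7,9] (.node (.cons (.leaf 1 [(4,1)]) (.cons (.leaf 1 [(4,1)]) 
(.cons (.leaf 1 [(4,1)]) (.cons (.leaf 1 []) .nil)))))) .nil)))))) (.cons (.keep [4,6,8,9] (.node (.cons 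
(.keep [3,4,6,7,8,9] (.node (.cons (.leaf 1 [(4,1)]) (.cons (.leaf 1 [(4,1)]) (.cons (.leaf 1 [(4,1)]) (.cons 
(.leaf 1 []) .nil)))))) (.cons (.leaf 1 [(1,1)]) (.cons (.keep [1,4,6,7,9] (.node (.cons (.leaf 1 [(4,1)]) 
(.cons (.leaf 1 [(4,1)]) (.cons (.leaf 1 [(4,1)]) (.cons (.leaf 1 []) .nil)))))) (.cons (.keep [0,3,6,7,8] 
(.node (.cons (.leaf 1 [(4,1)]) (.cons (.leaf 1 [(4,1)]) (.cons (.leaf 1 [(4,1)]) (.cons 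
(.leaf 1 []) .nil)))))) .nil)))))) (.cons (.keep [0,3,7,9] (.node (.cons (.keep [3,4,6,7,8,9] (.node (.cons 
(.leaf 1 [(4,1)]) (.cons (.leaf 1 [(4,1)]) (.cons (.leaf 1 [(4,1)]) (.cons (.leaf 1 []) .nil)))))) (.cons 
(.leaf 1 [(1,1)]) (.cons (.keep [4,6,7,8,9] (.node (.cons (.leaf 1 [(4,1)]) (.cons (.leaf 1 [(4,1)]) (.cons 
(.leaf 1 [(4,1)]) (.cons (.leaf 1 []) .nil)))))) (.cons (.keep [0,3,7,8] (.node (.cons (.leaf 1 [(4,1)]) 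
(.cons (.leaf 1 [(4,1)]) (.cons (.leaf 1 [(4,1)]) (.cons 
(.leaf 1 []) .nil)))))) .nil)))))) .nil)))))) .nil)))))) (.cons (.keep [1,3,6,7] (.node (.cons 
(.keep [2,3,4,7] (.node (.cons (.keep [2,3,4,6,7] (.node (.cons (.keep [2,3,4,6,7,9] (.node (.cons 
(.keep [0,3,4,6,7,9,11] (.node (.cons (.leaf 1 [(3,1),(4,1)]) (.cons (.leaf 1 [(4,1),(8,1)]) (.cons 
(.leaf 1 [(4,1),(8,1)]) (.cons (.leaf 1 [(8,1)]) .nil)))))) (.cons (.leaf 1 [(1,1),(4,1)]) (.cons 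
(.keep [1,4,6,7,8,10,11] (.node (.cons (.leaf 1 [(6,1),(3,1),(4,1)]) (.cons (.leaf 1 [(4,1),(7,1)]) (.cons 
(.leaf 1 [(7,1),(4,1)]) (.cons (.leaf 1 [(7,1)]) .nil)))))) (.cons (.keep [0,3,7,8,9,11] (.node (.cons 
(.leaf 1 [(4,1)]) (.cons (.leaf 1 [(4,1)]) (.cons (.leaf 1 [(4,1)]) (.cons (.leaf 1 []) .nil)))))) .nil)))))) 
(.cons (.keep [3,4,6,7,9,10] (.node (.cons (.keep [0,6,7,8,10,11] (.node (.cons (.leaf 1 [(3,1),(4,1)]) 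
(.cons (.leaf 2 [(3,1),(7,1),(4,2)]) (.cons (.leaf 1 [(10,1),(4,1),(7,1)]) (.cons 
(.leaf 1 [(10,1),(7,1)]) .nil)))))) (.cons (.leaf 1 [(1,1),(4,1)]) (.cons (.keep [6,7,8,9,10,11] (.node 
(.cons (.leaf 1 [(10,1),(6,1),(4,1)]) (.cons (.leaf 1 [(1,1),(6,1),(4,1)]) (.cons 
(.leaf 1 [(10,1),(6,1),(4,1)]) (.cons (.leaf 1 [(10,1),(6,1)]) .nil)))))) (.cons (.keep [0,3,6,7,8,10] (.node 
(.cons (.leaf 1 [(4,1)]) (.cons (.leaf 1 [(4,1)]) (.cons (.leaf 1 [(4,1)]) (.cons 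
(.leaf 1 []) .nil)))))) .nil)))))) (.cons (.keep [1,4,6,7,8,10] (.node (.cons (.keep [0,4,6,7,8,10,11] (.node 
(.cons (.leaf 1 [(3,1),(4,1)]) (.cons (.leaf 1 [(4,1),(7,1)]) (.cons (.leaf 1 [(4,1),(7,1)]) (.cons 
(.leaf 1 [(7,1)]) .nil)))))) (.cons (.leaf 1 [(1,1),(4,1)]) (.cons (.keep [4,6,7,8,9,10,11] (.node (.cons 
(.leaf 1 [(6,1),(4,1)]) (.cons (.leaf 1 [(4,1),(6,1)]) (.cons (.leaf 1 [(6,1),(4,1)]) (.cons 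
(.leaf 1 [(6,1)]) .nil)))))) (.cons (.keep [0,3,6,7,8,10] (.node (.cons (.leaf 1 [(4,1)]) (.cons 
(.leaf 1 [(4,1)]) (.cons (.leaf 1 [(4,1)]) (.cons (.leaf 1 []) .nil)))))) .nil)))))) (.cons 
(.keep [0,3,7,8,9,10] (.node (.cons (.keep [3,4,6,7,10,11] (.node (.cons (.leaf 1 [(3,1),(4,1)]) (.cons 
(.leaf 1 [(4,1),(7,1)]) (.cons (.leaf 1 [(4,1),(7,1)]) (.cons (.leaf 1 [(7,1)]) .nil)))))) (.cons 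
(.leaf 1 [(1,1),(4,1)]) (.cons (.keep [4,6,7,9,10,11] (.node (.cons (.leaf 1 [(6,1),(4,1)]) (.cons 
(.leaf 1 [(4,1),(6,1)]) (.cons (.leaf 1 [(6,1),(4,1)]) (.cons (.leaf 1 [(6,1)]) .nil)))))) (.cons 
(.keep [0,3,7,9,10] (.node (.cons (.leaf 1 [(4,1)]) (.cons (.leaf 1 [(4,1)]) (.cons (.leaf 1 [(4,1)]) (.cons 
(.leaf 1 []) .nil)))))) .nil)))))) .nil)))))) (.cons (.keep [1,4,6,7,9] (.node (.cons (.keep [2,3,4,8,10] 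
(.node (.cons (.keep [3,4,6,7,9,10] (.node (.cons (.leaf 1 [(3,1),(4,1)]) (.cons (.leaf 1 [(4,1),(7,1)]) 
(.cons (.leaf 1 [(4,1),(7,1)]) (.cons (.leaf 1 [(7,1)]) .nil)))))) (.cons (.leaf 1 [(1,1),(4,1)]) (.cons 
(.keep [2,4,6,7,8,9] (.node (.cons (.leaf 1 [(6,1),(3,1),(4,2)]) (.cons (.leaf 1 [(7,1),(4,1)]) (.cons 
(.leaf 1 [(7,1),(4,1)]) (.cons (.leaf 1 [(7,1)]) .nil)))))) (.cons (.keep [0,3,7,8,9] (.node (.cons 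
(.leaf 1 [(4,1)]) (.cons (.leaf 1 [(4,1)]) (.cons (.leaf 1 [(4,1)]) (.cons (.leaf 1 []) .nil)))))) .nil)))))) 
(.cons (.keep [3,4,8,9,10] (.node (.cons (.keep [6,7,8,9,10] (.node (.cons (.leaf 1 [(3,1),(4,1)]) (.cons 
(.leaf 2 [(3,1),(6,1),(4,2)]) (.cons (.leaf 1 [(7,1),(6,1),(8,1),(4,1)]) (.cons 
(.leaf 1 [(8,1),(6,1),(7,1)]) .nil)))))) (.cons (.leaf 1 [(1,1),(4,1)]) (.cons (.keep [6,7,8,9,10] (.node 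
(.cons (.leaf 1 [(8,1),(6,1),(3,1),(4,1)]) (.cons (.leaf 1 [(1,1),(6,1),(4,1)]) (.cons 
(.leaf 1 [(8,1),(6,1),(4,1),(7,1)]) (.cons (.leaf 1 [(8,1),(6,1),(7,1)]) .nil)))))) (.cons (.keep [0,3,6,7,8] 
(.node (.cons (.leaf 1 [(4,1)]) (.cons (.leaf 1 [(4,1)]) (.cons (.leaf 1 [(4,1)]) (.cons 
(.leaf 1 []) .nil)))))) .nil)))))) (.cons (.keep [4,7,8,9,10] (.node (.cons (.keep [3,4,6,8,9,10] (.node 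
(.cons (.leaf 1 [(3,1),(4,1)]) (.cons (.leaf 1 [(4,1),(7,1)]) (.cons (.leaf 1 [(4,1),(7,1)]) (.cons 
(.leaf 1 [(7,1)]) .nil)))))) (.cons (.leaf 1 [(1,1),(4,1)]) (.cons (.keep [1,4,6,7,9,10] (.node (.cons 
(.leaf 1 [(6,1),(3,1),(4,1)]) (.cons (.leaf 1 [(4,1),(7,1)]) (.cons (.leaf 1 [(7,1),(4,1)]) (.cons 
(.leaf 1 [(7,1)]) .nil)))))) (.cons (.keep [0,3,6,7,8,10] (.node (.cons (.leaf 1 [(4,1)]) (.cons 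
(.leaf 1 [(4,1)]) (.cons (.leaf 1 [(4,1)]) (.cons (.leaf 1 []) .nil)))))) .nil)))))) (.cons 
(.keep [0,3,7,8,9,10] (.node (.cons (.keep [3,4,6,7,9,10] (.node (.cons (.leaf 1 [(3,1),(4,1)]) (.cons 
(.leaf 1 [(4,1),(7,1)]) (.cons (.leaf 1 [(4,1),(7,1)]) (.cons (.leaf 1 [(7,1)]) .nil)))))) (.cons 
(.leaf 1 [(1,1),(4,1)]) (.cons (.keep [4,6,7,8,9,10] (.node (.cons (.leaf 1 [(6,1),(4,1)]) (.cons 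
(.leaf 1 [(4,1),(6,1)]) (.cons (.leaf 1 [(6,1),(4,1)]) (.cons (.leaf 1 [(6,1)]) .nil)))))) (.cons 
(.keep [0,3,7,8,9] (.node (.cons (.leaf 1 [(4,1)]) (.cons (.leaf 1 [(4,1)]) (.cons (.leaf 1 [(4,1)]) (.cons 
(.leaf 1 []) .nil)))))) .nil)))))) .nil)))))) (.cons (.keep [1,4,6,7,8,9] (.node (.cons (.keep [2,4,6,7,8,11] 
(.node (.cons (.leaf 1 [(8,1),(4,1)]) (.cons (.leaf 1 [(1,1),(4,1)]) (.cons (.leaf 1 [(8,1),(4,1)]) (.cons 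
(.leaf 1 [(8,1)]) .nil)))))) (.cons (.leaf 1 [(1,1),(6,1)]) (.cons (.keep [4,6,7,8,9,11] (.node (.cons 
(.leaf 1 [(7,1),(4,1)]) (.cons (.leaf 1 [(1,1),(4,1)]) (.cons (.leaf 1 [(7,1),(4,1)]) (.cons 
(.leaf 1 [(7,1)]) .nil)))))) (.cons (.keep [0,3,6,7,8,10] (.node (.cons (.leaf 1 [(8,1),(4,1)]) (.cons 
(.leaf 1 [(1,1),(4,1)]) (.cons (.leaf 1 [(8,1),(4,1)]) (.cons (.leaf 1 [(8,1)]) .nil)))))) .nil)))))) (.cons 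
(.keep [0,1,2,7,8,9] (.node (.cons (.keep [2,3,4,8,11] (.node (.cons (.keep [3,4,6,7,9,10] (.node (.cons 
(.leaf 1 [(3,1),(4,1)]) (.cons (.leaf 1 [(4,1),(7,1)]) (.cons (.leaf 1 [(4,1),(7,1)]) (.cons 
(.leaf 1 [(7,1)]) .nil)))))) (.cons (.leaf 1 [(1,1),(4,1)]) (.cons (.keep [2,4,6,7,8,9] (.node (.cons 
(.leaf 1 [(6,1),(3,1),(4,2)]) (.cons (.leaf 1 [(7,1),(4,1)]) (.cons (.leaf 1 [(7,1),(4,1)]) (.cons 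
(.leaf 1 [(7,1)]) .nil)))))) (.cons (.keep [0,3,7,8,9] (.node (.cons (.leaf 1 [(4,1)]) (.cons 
(.leaf 1 [(4,1)]) (.cons (.leaf 1 [(4,1)]) (.cons (.leaf 1 []) .nil)))))) .nil)))))) (.cons 
(.keep [3,4,8,9,11] (.node (.cons (.keep [6,7,8,9,10] (.node (.cons (.leaf 1 [(3,1),(4,1)]) (.cons 
(.leaf 2 [(3,1),(6,1),(4,2)]) (.cons (.leaf 1 [(7,1),(6,1),(8,1),(4,1)]) (.cons 
(.leaf 1 [(8,1),(6,1),(7,1)]) .nil)))))) (.cons (.leaf 1 [(1,1),(4,1)]) (.cons (.keep [6,7,8,9,10] (.node 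
(.cons (.leaf 1 [(8,1),(6,1),(3,1),(4,1)]) (.cons (.leaf 1 [(1,1),(6,1),(4,1)]) (.cons 
(.leaf 1 [(8,1),(6,1),(4,1),(7,1)]) (.cons (.leaf 1 [(8,1),(6,1),(7,1)]) .nil)))))) (.cons (.keep [0,3,6,7,8] 
(.node (.cons (.leaf 1 [(4,1)]) (.cons (.leaf 1 [(4,1)]) (.cons (.leaf 1 [(4,1)]) (.cons 
(.leaf 1 []) .nil)))))) .nil)))))) (.cons (.keep [4,6,8,9,11] (.node (.cons (.keep [3,4,6,8,9,10] (.node 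
(.cons (.leaf 1 [(3,1),(4,1)]) (.cons (.leaf 1 [(4,1),(7,1)]) (.cons (.leaf 1 [(4,1),(7,1)]) (.cons 
(.leaf 1 [(7,1)]) .nil)))))) (.cons (.leaf 1 [(1,1),(4,1)]) (.cons (.keep [1,4,6,7,9] (.node (.cons 
(.leaf 1 [(6,1),(3,1),(4,1)]) (.cons (.leaf 1 [(4,1),(7,1)]) (.cons (.leaf 1 [(7,1),(4,1)]) (.cons 
(.leaf 1 [(7,1)]) .nil)))))) (.cons (.keep [0,3,6,7,8] (.node (.cons (.leaf 1 [(4,1)]) (.cons 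
(.leaf 1 [(4,1)]) (.cons (.leaf 1 [(4,1)]) (.cons (.leaf 1 []) .nil)))))) .nil)))))) (.cons 
(.keep [0,3,7,9,10] (.node (.cons (.keep [3,4,6,7,8,9] (.node (.cons (.leaf 1 [(3,1),(4,1)]) (.cons 
(.leaf 1 [(4,1),(7,1)]) (.cons (.leaf 1 [(4,1),(7,1)]) (.cons (.leaf 1 [(7,1)]) .nil)))))) (.cons 
(.leaf 1 [(1,1),(4,1)]) (.cons (.keep [4,6,7,8,9] (.node (.cons (.leaf 1 [(6,1),(4,1)]) (.cons 
(.leaf 1 [(4,1),(6,1)]) (.cons (.leaf 1 [(6,1),(4,1)]) (.cons (.leaf 1 [(6,1)]) .nil)))))) (.cons 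
(.keep [0,3,7,8] (.node (.cons (.leaf 1 [(4,1)]) (.cons (.leaf 1 [(4,1)]) (.cons (.leaf 1 [(4,1)]) (.cons 
(.leaf 1 []) .nil)))))) .nil)))))) .nil)))))) .nil)))))) (.cons (.keep [1,4,7,8,9] (.node (.cons 
(.keep [2,3,4,9] (.node (.cons (.keep [2,3,4,6,7] (.node (.cons (.keep [2,3,4,6,7,9] (.node (.cons 
(.keep [2,3,4,6,7,9,11] (.node (.cons (.leaf 1 [(7,1),(3,1),(4,1)]) (.cons (.leaf 1 [(4,1),(7,1),(8,1)]) 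
(.cons (.leaf 1 [(7,1),(4,1),(8,1)]) (.cons (.leaf 1 [(7,1),(8,1)]) .nil)))))) (.cons (.leaf 1 [(4,1),(3,1)]) 
(.cons (.keep [1,2,4,6,7,8,11] (.node (.cons (.leaf 1 [(3,1),(4,1)]) (.cons (.leaf 1 [(3,1),(10,1),(4,1)]) 
(.cons (.leaf 1 [(8,1),(4,1),(11,1)]) (.cons (.leaf 1 [(8,1),(11,1)]) .nil)))))) (.cons (.keep [0,3,7,8,9,11] 
(.node (.cons (.leaf 1 [(3,1),(7,1),(4,1)]) (.cons (.leaf 1 [(4,1),(3,1),(7,1),(8,1)]) (.cons 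
(.leaf 1 [(9,1),(4,1)]) (.cons (.leaf 1 [(9,1)]) .nil)))))) .nil)))))) (.cons (.keep [3,4,6,7,9,10] (.node 
(.cons (.keep [2,6,7,8,10,11] (.node (.cons (.leaf 1 [(8,1),(3,1),(4,1)]) (.cons 
(.leaf 2 [(3,1),(8,2),(7,1),(4,2)]) (.cons (.leaf 1 [(10,1),(8,1),(7,1),(4,1)]) (.cons 
(.leaf 1 [(10,1),(8,1),(7,1)]) .nil)))))) (.cons (.leaf 1 [(4,2),(3,1)]) (.cons (.keep [6,7,8,9,10,11] (.node 
(.cons (.leaf 1 [(10,1),(6,1),(3,1),(4,1)]) (.cons (.leaf 1 [(3,1),(4,1),(6,1)]) (.cons 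
(.leaf 1 [(10,1),(6,1),(7,1),(4,1)]) (.cons (.leaf 1 [(10,1),(6,1),(7,1)]) .nil)))))) (.cons 
(.keep [0,3,6,7,8,10] (.node (.cons (.leaf 1 [(3,1),(7,1),(4,1)]) (.cons (.leaf 1 [(4,1),(3,1),(7,1),(8,1)]) 
(.cons (.leaf 1 [(9,1),(4,1)]) (.cons (.leaf 1 [(9,1)]) .nil)))))) .nil)))))) (.cons (.keep [1,4,6,7,8,10] 
(.node (.cons (.keep [2,4,6,7,8,10,11] (.node (.cons (.leaf 1 [(9,1),(3,1),(4,1)]) (.cons 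
(.leaf 1 [(4,1),(9,1),(7,1)]) (.cons (.leaf 1 [(9,1),(4,1),(7,1)]) (.cons (.leaf 1 [(9,1),(7,1)]) .nil)))))) 
(.cons (.leaf 1 [(4,1),(6,1),(3,1)]) (.cons (.keep [4,6,7,8,9,10,11] (.node (.cons 
(.leaf 1 [(7,1),(3,1),(4,1)]) (.cons (.leaf 1 [(4,1),(3,1)]) (.cons (.leaf 1 [(8,1),(6,1),(4,1)]) (.cons 
(.leaf 1 [(8,1),(6,1)]) .nil)))))) (.cons (.keep [0,3,6,7,8,10] (.node (.cons 
(.leaf 1 [(8,1),(3,1),(7,1),(4,1)]) (.cons (.leaf 1 [(3,1),(7,1),(4,1)]) (.cons (.leaf 1 [(9,1),(4,1)]) 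
(.cons (.leaf 1 [(9,1)]) .nil)))))) .nil)))))) (.cons (.keep [0,3,7,8,9,10] (.node (.cons 
(.keep [3,4,6,7,10,11] (.node (.cons (.leaf 1 [(3,1),(4,1)]) (.cons (.leaf 1 [(4,1),(7,1)]) (.cons 
(.leaf 1 [(4,1),(7,1)]) (.cons (.leaf 1 [(7,1)]) .nil)))))) (.cons (.leaf 1 [(1,1),(4,1)]) (.cons 
(.keep [4,6,7,9,10,11] (.node (.cons (.leaf 1 [(6,1),(4,1)]) (.cons (.leaf 1 [(4,1),(6,1)]) (.cons 
(.leaf 1 [(6,1),(4,1)]) (.cons (.leaf 1 [(6,1)]) .nil)))))) (.cons (.keep [0,3,7,9,10] (.node (.cons 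
(.leaf 1 [(4,1)]) (.cons (.leaf 1 [(4,1)]) (.cons (.leaf 1 [(4,1)]) (.cons 
(.leaf 1 []) .nil)))))) .nil)))))) .nil)))))) (.cons (.keep [1,4,6,7,8,9] (.node (.cons 
(.keep [2,4,7,8,10,11] (.node (.cons (.keep [2,3,4,6,8,9,11] (.node (.cons (.leaf 1 [(7,1),(3,1),(4,1)]) 
(.cons (.leaf 1 [(4,1),(7,1),(8,1)]) (.cons (.leaf 1 [(7,1),(4,1),(8,1)]) (.cons 
(.leaf 1 [(7,1),(8,1)]) .nil)))))) (.cons (.leaf 1 [(4,1),(3,1)]) (.cons (.keep [1,2,4,6,7,8,9] (.node (.cons 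
(.leaf 1 [(3,1),(4,1)]) (.cons (.leaf 1 [(4,1),(8,1),(10,1)]) (.cons (.leaf 1 [(8,1),(4,1),(10,1)]) (.cons 
(.leaf 1 [(8,1),(10,1)]) .nil)))))) (.cons (.keep [0,3,7,8,9,11] (.node (.cons (.leaf 1 [(3,1),(7,1),(4,1)]) 
(.cons (.leaf 1 [(4,1),(8,1)]) (.cons (.leaf 1 [(8,1),(4,1)]) (.cons (.leaf 1 [(8,1)]) .nil)))))) .nil)))))) 
(.cons (.keep [3,4,8,9,10] (.node (.cons (.keep [2,6,7,8,9] (.node (.cons (.leaf 1 [(8,1),(3,1),(4,1)]) 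
(.cons (.leaf 2 [(3,1),(8,2),(7,1),(4,2)]) (.cons (.leaf 1 [(9,1),(8,2),(7,1),(4,1)]) (.cons 
(.leaf 1 [(9,1),(8,2),(7,1)]) .nil)))))) (.cons (.leaf 1 [(4,2),(3,1)]) (.cons (.keep [6,7,8,9,10] (.node 
(.cons (.leaf 1 [(8,1),(6,1),(3,2),(4,1)]) (.cons (.leaf 1 [(3,1),(4,1),(6,1)]) (.cons 
(.leaf 1 [(8,1),(6,1),(7,2),(4,1)]) (.cons (.leaf 1 [(8,1),(6,1),(7,2)]) .nil)))))) (.cons (.keep [0,3,6,7,8] 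
(.node (.cons (.leaf 1 [(3,1),(7,1),(4,1)]) (.cons (.leaf 1 [(4,1),(3,1),(7,1),(8,1)]) (.cons 
(.leaf 1 [(9,1),(4,1)]) (.cons (.leaf 1 [(9,1)]) .nil)))))) .nil)))))) (.cons (.keep [4,7,8,9,10,11] (.node 
(.cons (.keep [2,3,4,6,8,9,11] (.node (.cons (.leaf 1 [(9,1),(3,1),(4,1)]) (.cons 
(.leaf 1 [(4,1),(7,1),(3,1)]) (.cons (.leaf 1 [(9,1),(4,1),(8,1)]) (.cons (.leaf 1 [(9,1),(8,1)]) .nil)))))) 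
(.cons (.leaf 1 [(4,1),(1,1),(6,1)]) (.cons (.keep [1,4,6,7,9,10,11] (.node (.cons 
(.leaf 1 [(8,1),(6,1),(3,1),(4,1)]) (.cons (.leaf 1 [(4,1),(3,1)]) (.cons (.leaf 1 [(8,1),(7,1),(4,1)]) 
(.cons (.leaf 1 [(8,1),(7,1)]) .nil)))))) (.cons (.keep [0,3,6,7,8,11] (.node (.cons (.leaf 1 [(8,1),(4,1)]) 
(.cons (.leaf 1 [(3,1),(7,1),(4,1)]) (.cons (.leaf 1 [(8,1),(4,1)]) (.cons 
(.leaf 1 [(8,1)]) .nil)))))) .nil)))))) (.cons (.keep [0,3,7,8,9,10] (.node (.cons (.keep [3,4,6,7,9,10] 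
(.node (.cons (.leaf 1 [(3,1),(4,1)]) (.cons (.leaf 1 [(4,1),(7,1)]) (.cons (.leaf 1 [(4,1),(7,1)]) (.cons 
(.leaf 1 [(7,1)]) .nil)))))) (.cons (.leaf 1 [(1,1),(4,1)]) (.cons (.keep [4,6,7,8,9,10] (.node (.cons 
(.leaf 1 [(6,1),(4,1)]) (.cons (.leaf 1 [(4,1),(6,1)]) (.cons (.leaf 1 [(6,1),(4,1)]) (.cons 
(.leaf 1 [(6,1)]) .nil)))))) (.cons (.keep [0,3,7,8,9] (.node (.cons (.leaf 1 [(4,1)]) (.cons 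
(.leaf 1 [(4,1)]) (.cons (.leaf 1 [(4,1)]) (.cons (.leaf 1 []) .nil)))))) .nil)))))) .nil)))))) (.cons 
(.keep [1,4,6,7,8,9] (.node (.cons (.keep [2,4,6,7,8,10,11] (.node (.cons (.leaf 1 [(8,1),(3,1),(4,1)]) 
(.cons (.leaf 1 [(4,1),(3,1)]) (.cons (.leaf 1 [(8,1),(4,1),(7,1)]) (.cons (.leaf 1 [(8,1),(7,1)]) .nil)))))) 
(.cons (.leaf 1 [(1,1),(6,1),(4,1)]) (.cons (.keep [4,6,7,8,9,10,11] (.node (.cons 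
(.leaf 1 [(7,1),(6,1),(4,1)]) (.cons (.leaf 1 [(4,1),(1,1),(6,1)]) (.cons (.leaf 1 [(7,1),(6,1),(4,1)]) 
(.cons (.leaf 1 [(7,1),(6,1)]) .nil)))))) (.cons (.keep [0,3,6,7,8,10] (.node (.cons (.leaf 1 [(8,1),(4,1)]) 
(.cons (.leaf 1 [(1,1),(4,1)]) (.cons (.leaf 1 [(8,1),(4,1)]) (.cons (.leaf 1 [(8,1)]) .nil)))))) .nil)))))) 
(.cons (.keep [0,1,7,8,9] (.node (.cons (.keep [2,3,4,7,9,10] (.node (.cons (.keep [2,3,4,6,7,9,11] (.node 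
(.cons (.leaf 1 [(7,1),(3,1),(4,1)]) (.cons (.leaf 1 [(4,1),(7,1),(8,1)]) (.cons 
(.leaf 1 [(7,1),(4,1),(8,1)]) (.cons (.leaf 1 [(7,1),(8,1)]) .nil)))))) (.cons (.leaf 1 [(4,1),(3,1)]) (.cons 
(.keep [1,2,4,6,7,8,9] (.node (.cons (.leaf 1 [(3,1),(4,1)]) (.cons (.leaf 1 [(3,1),(10,1),(4,1)]) (.cons 
(.leaf 1 [(8,1),(4,1),(11,1)]) (.cons (.leaf 1 [(8,1),(11,1)]) .nil)))))) (.cons (.keep [0,3,7,8,9,11] (.node 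
(.cons (.leaf 1 [(3,1),(7,1),(4,1)]) (.cons (.leaf 1 [(4,1),(3,1),(7,1),(8,1)]) (.cons 
(.leaf 1 [(9,1),(4,1)]) (.cons (.leaf 1 [(9,1)]) .nil)))))) .nil)))))) (.cons (.keep [3,4,7,8,9,10] (.node 
(.cons (.keep [2,6,7,8,9,11] (.node (.cons (.leaf 1 [(8,1),(3,1),(4,1)]) (.cons 
(.leaf 2 [(3,1),(8,2),(7,1),(4,2)]) (.cons (.leaf 1 [(9,1),(8,1),(7,1),(4,1)]) (.cons 
(.leaf 1 [(9,1),(8,1),(7,1)]) .nil)))))) (.cons (.leaf 1 [(4,2),(3,1)]) (.cons (.keep [6,7,8,9,10,11] (.node 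
(.cons (.leaf 1 [(8,1),(6,1),(3,1),(4,1)]) (.cons (.leaf 1 [(3,1),(4,1),(6,1)]) (.cons 
(.leaf 1 [(8,1),(6,1),(7,1),(4,1)]) (.cons (.leaf 1 [(8,1),(6,1),(7,1)]) .nil)))))) (.cons 
(.keep [0,3,6,7,8,11] (.node (.cons (.leaf 1 [(3,1),(7,1),(4,1)]) (.cons (.leaf 1 [(4,1),(3,1),(7,1),(8,1)]) 
(.cons (.leaf 1 [(9,1),(4,1)]) (.cons (.leaf 1 [(9,1)]) .nil)))))) .nil)))))) (.cons (.keep [1,4,6,8,9,10] 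
(.node (.cons (.keep [3,4,6,8,9,11] (.node (.cons (.leaf 1 [(8,1),(6,1),(3,1),(4,1)]) (.cons 
(.leaf 1 [(4,1),(6,1),(3,1)]) (.cons (.leaf 1 [(8,1),(6,1),(4,1),(7,1)]) (.cons 
(.leaf 1 [(8,1),(6,1),(7,1)]) .nil)))))) (.cons (.leaf 1 [(4,1),(6,1),(3,1)]) (.cons (.keep [4,6,7,8,9,11] 
(.node (.cons (.leaf 1 [(7,1),(3,1),(4,1)]) (.cons (.leaf 1 [(4,1),(3,1)]) (.cons 
(.leaf 1 [(8,1),(6,1),(4,1)]) (.cons (.leaf 1 [(8,1),(6,1)]) .nil)))))) (.cons (.keep [0,3,6,7,11] (.node 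
(.cons (.leaf 1 [(8,1),(3,1),(7,1),(4,1)]) (.cons (.leaf 1 [(3,1),(7,1),(4,1)]) (.cons 
(.leaf 1 [(9,1),(4,1)]) (.cons (.leaf 1 [(9,1)]) .nil)))))) .nil)))))) (.cons (.keep [0,3,7,8,9] (.node 
(.cons (.keep [3,4,6,7,8,9] (.node (.cons (.leaf 1 [(3,1),(4,1)]) (.cons (.leaf 1 [(4,1),(7,1)]) (.cons 
(.leaf 1 [(4,1),(7,1)]) (.cons (.leaf 1 [(7,1)]) .nil)))))) (.cons (.leaf 1 [(1,1),(4,1)]) (.cons 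
(.keep [4,6,7,8,9] (.node (.cons (.leaf 1 [(6,1),(4,1)]) (.cons (.leaf 1 [(4,1),(6,1)]) (.cons 
(.leaf 1 [(6,1),(4,1)]) (.cons (.leaf 1 [(6,1)]) .nil)))))) (.cons (.keep [0,3,7,8] (.node (.cons 
(.leaf 1 [(4,1)]) (.cons (.leaf 1 [(4,1)]) (.cons (.leaf 1 [(4,1)]) (.cons 
(.leaf 1 []) .nil)))))) .nil)))))) .nil)))))) .nil)))))) (.cons (.keep [1,3,4,8,9,10] (.node (.cons 
(.keep [2,3,4,7,9,11] (.node (.cons (.keep [3,4,6,7,11] (.node (.cons (.keep [2,3,4,6,10] (.node (.cons 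
(.leaf 0 [(0,0)]) (.cons (.leaf 1 [(4,1),(7,1),(3,1)]) (.cons (.leaf 0 [(1,0)]) (.cons 
(.leaf 0 [(2,0)]) .nil)))))) (.cons (.leaf 0 [(3,0)]) (.cons (.keep [4,6,7,9,10] (.node (.cons 
(.leaf 0 [(4,0)]) (.cons (.leaf 1 [(4,1),(3,1)]) (.cons (.leaf 0 [(5,0)]) (.cons (.leaf 0 [(6,0)]) .nil)))))) 
(.cons (.keep [0,3,6,7,8,9] (.node (.cons (.leaf 0 [(7,0)]) (.cons (.leaf 1 [(3,1),(7,1),(4,1)]) (.cons 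
(.leaf 0 [(8,0)]) (.cons (.leaf 0 [(9,0)]) .nil)))))) .nil)))))) (.cons (.keep [1,4,9,10,11] (.node (.cons 
(.keep [4,7,8,9,10] (.node (.cons (.leaf 0 [(10,0)]) (.cons (.leaf 1 [(3,1),(7,1),(4,1)]) (.cons 
(.leaf 0 [(11,0)]) (.cons (.leaf 0 [(12,0)]) .nil)))))) (.cons (.leaf 0 [(13,0)]) (.cons (.keep [4,7,8,9,10] 
(.node (.cons (.leaf 0 [(14,0)]) (.cons (.leaf 1 [(3,1),(4,1),(6,1)]) (.cons (.leaf 0 [(15,0)]) (.cons 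
(.leaf 0 [(16,0)]) .nil)))))) (.cons (.keep [0,3,7,8,9,10] (.node (.cons (.leaf 0 [(17,0)]) (.cons 
(.leaf 1 [(3,1),(7,1),(4,1)]) (.cons (.leaf 0 [(18,0)]) (.cons (.leaf 0 [(19,0)]) .nil)))))) .nil)))))) 
(.cons (.keep [1,4,6,7,8,11] (.node (.cons (.keep [2,4,6,7,10,11] (.node (.cons 
(.leaf 1 [(8,1),(9,1),(3,1),(4,1)]) (.cons (.leaf 1 [(9,1),(3,1),(4,1)]) (.cons 
(.leaf 1 [(8,1),(9,1),(4,1),(7,1)]) (.cons (.leaf 1 [(8,1),(9,1),(7,1)]) .nil)))))) (.cons 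
(.leaf 1 [(4,1),(6,2),(3,1)]) (.cons (.keep [4,6,7,9,10,11] (.node (.cons (.leaf 1 [(7,2),(3,1),(4,1)]) 
(.cons (.leaf 1 [(1,1),(3,1),(4,1)]) (.cons (.leaf 1 [(7,1),(6,1),(4,1),(8,1)]) (.cons 
(.leaf 1 [(7,1),(6,1),(8,1)]) .nil)))))) (.cons (.keep [0,3,6,7,8,10] (.node (.cons 
(.leaf 1 [(8,2),(3,1),(7,1),(4,1)]) (.cons (.leaf 1 [(1,1),(3,1),(7,1),(4,1)]) (.cons 
(.leaf 1 [(8,1),(9,1),(4,1)]) (.cons (.leaf 1 [(8,1),(9,1)]) .nil)))))) .nil)))))) (.cons (.keep [0,1,7,8,11] 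
(.node (.cons (.keep [2,3,4,7,9,10] (.node (.cons (.leaf 0 [(20,0)]) (.cons (.leaf 1 [(4,1),(3,1)]) (.cons 
(.leaf 0 [(21,0)]) (.cons (.leaf 0 [(19,0)]) .nil)))))) (.cons (.leaf 0 [(22,0)]) (.cons 
(.keep [1,4,6,8,9,10] (.node (.cons (.leaf 0 [(23,0)]) (.cons (.leaf 1 [(4,1),(6,1),(3,1)]) (.cons 
(.leaf 0 [(24,0)]) (.cons (.leaf 0 [(25,0)]) .nil)))))) (.cons (.keep [0,3,7,8,9] (.node (.cons 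
(.leaf 0 [(26,0)]) (.cons (.leaf 1 [(1,1),(4,1)]) (.cons (.leaf 0 [(26,0)]) (.cons 
(.leaf 0 [(27,0)]) .nil)))))) .nil)))))) .nil)))))) (.cons (.keep [1,3,4,10,11] (.node (.cons 
(.keep [4,7,8,9,10] (.node (.cons (.keep [3,4,7,8,10] (.node (.cons (.leaf 0 [(28,0)]) (.cons 
(.leaf 1 [(4,1),(3,1)]) (.cons (.leaf 0 [(29,0)]) (.cons (.leaf 0 [(16,0)]) .nil)))))) (.cons 
(.leaf 0 [(30,0)]) (.cons (.keep [4,6,7,8,10] (.node (.cons (.leaf 0 [(31,0)]) (.cons 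
(.leaf 1 [(4,1),(1,1),(6,1)]) (.cons (.leaf 0 [(32,0)]) (.cons (.leaf 0 [(16,0)]) .nil)))))) (.cons 
(.keep [0,3,6,7,8,9] (.node (.cons (.leaf 0 [(33,0)]) (.cons (.leaf 1 [(1,1),(4,1)]) (.cons 
(.leaf 0 [(34,0)]) (.cons (.leaf 0 [(19,0)]) .nil)))))) .nil)))))) (.cons (.keep [1,4,7,8,10] (.node (.cons 
(.keep [4,7,8,9,10] (.node (.cons (.leaf 0 [(35,0)]) (.cons (.leaf 1 [(4,1),(3,1)]) (.cons (.leaf 0 [(36,0)]) 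
(.cons (.leaf 0 [(12,0)]) .nil)))))) (.cons (.leaf 0 [(37,0)]) (.cons (.keep [4,7,8,9,10] (.node (.cons 
(.leaf 0 [(38,0)]) (.cons (.leaf 1 [(4,1),(1,1),(6,1)]) (.cons (.leaf 0 [(39,0)]) (.cons 
(.leaf 0 [(16,0)]) .nil)))))) (.cons (.keep [0,3,7,8,9,10] (.node (.cons (.leaf 0 [(33,0)]) (.cons 
(.leaf 1 [(1,1),(4,1)]) (.cons (.leaf 0 [(34,0)]) (.cons (.leaf 0 [(19,0)]) .nil)))))) .nil)))))) (.cons 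
(.keep [1,7,8,9,10] (.node (.cons (.keep [3,4,6,7,10] (.node (.cons (.leaf 1 [(8,1),(3,1),(4,1)]) (.cons 
(.leaf 1 [(4,1),(3,1)]) (.cons (.leaf 1 [(8,1),(4,1),(7,1)]) (.cons (.leaf 1 [(8,1),(7,1)]) .nil)))))) (.cons 
(.leaf 1 [(1,1),(6,1),(4,1)]) (.cons (.keep [4,6,7,8,10] (.node (.cons (.leaf 1 [(7,1),(6,1),(4,1)]) (.cons 
(.leaf 1 [(4,1),(1,1),(6,1)]) (.cons (.leaf 1 [(7,1),(6,1),(4,1)]) (.cons (.leaf 1 [(7,1),(6,1)]) .nil)))))) 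
(.cons (.keep [0,3,6,8,9] (.node (.cons (.leaf 1 [(8,1),(4,1)]) (.cons (.leaf 1 [(1,1),(4,1)]) (.cons 
(.leaf 1 [(8,1),(4,1)]) (.cons (.leaf 1 [(8,1)]) .nil)))))) .nil)))))) (.cons (.keep [0,1,7,8,10] (.node 
(.cons (.keep [2,3,4,7,9,10] (.node (.cons (.leaf 0 [(20,0)]) (.cons (.leaf 1 [(4,1),(3,1)]) (.cons 
(.leaf 0 [(21,0)]) (.cons (.leaf 0 [(19,0)]) .nil)))))) (.cons (.leaf 0 [(22,0)]) (.cons 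
(.keep [1,4,6,8,9,10] (.node (.cons (.leaf 0 [(23,0)]) (.cons (.leaf 1 [(4,1),(6,1),(3,1)]) (.cons 
(.leaf 0 [(24,0)]) (.cons (.leaf 0 [(25,0)]) .nil)))))) (.cons (.keep [0,3,7,8,9] (.node (.cons 
(.leaf 0 [(26,0)]) (.cons (.leaf 1 [(1,1),(4,1)]) (.cons (.leaf 0 [(26,0)]) (.cons 
(.leaf 0 [(27,0)]) .nil)))))) .nil)))))) .nil)))))) (.cons (.keep [1,8,9,10] (.node (.cons (.keep [3,4,6,8,9] 
(.node (.cons (.leaf 0 [(40,0)]) (.cons (.leaf 0 [(3,0)]) (.cons (.leaf 0 [(41,0)]) (.cons 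
(.leaf 0 [(42,0)]) .nil)))))) (.cons (.leaf 0 [(43,0)]) (.cons (.keep [1,4,6,7,8,9] (.node (.cons 
(.leaf 1 [(6,2),(3,1),(4,1)]) (.cons (.leaf 1 [(4,1),(6,1),(7,1)]) (.cons (.leaf 1 [(6,1),(4,1),(7,1)]) 
(.cons (.leaf 1 [(6,1),(7,1)]) .nil)))))) (.cons (.keep [0,1,6,7,8] (.node (.cons (.leaf 0 [(44,0)]) (.cons 
(.leaf 0 [(45,0)]) (.cons (.leaf 0 [(44,0)]) (.cons (.leaf 0 [(46,0)]) .nil)))))) .nil)))))) (.cons 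
(.keep [0,1,7,8,10] (.node (.cons (.keep [2,3,4,7,9,10] (.node (.cons (.keep [2,3,4,6,7,9,11] (.node (.cons 
(.leaf 1 [(7,1),(3,1),(4,1)]) (.cons (.leaf 1 [(4,1),(7,1),(8,1)]) (.cons (.leaf 1 [(7,1),(4,1),(8,1)]) 
(.cons (.leaf 1 [(7,1),(8,1)]) .nil)))))) (.cons (.leaf 1 [(4,1),(3,1)]) (.cons (.keep [1,2,4,6,7,8,9] (.node 
(.cons (.leaf 1 [(3,1),(4,1)]) (.cons (.leaf 1 [(3,1),(10,1),(4,1)]) (.cons (.leaf 1 [(8,1),(4,1),(11,1)]) 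
(.cons (.leaf 1 [(8,1),(11,1)]) .nil)))))) (.cons (.keep [0,3,7,8,9,11] (.node (.cons 
(.leaf 1 [(3,1),(7,1),(4,1)]) (.cons (.leaf 1 [(4,1),(3,1),(7,1),(8,1)]) (.cons (.leaf 1 [(9,1),(4,1)]) 
(.cons (.leaf 1 [(9,1)]) .nil)))))) .nil)))))) (.cons (.keep [3,4,7,8,9,10] (.node (.cons 
(.keep [2,6,7,8,9,11] (.node (.cons (.leaf 1 [(8,1),(3,1),(4,1)]) (.cons (.leaf 2 [(3,1),(8,2),(7,1),(4,2)]) 
(.cons (.leaf 1 [(9,1),(8,1),(7,1),(4,1)]) (.cons (.leaf 1 [(9,1),(8,1),(7,1)]) .nil)))))) (.cons 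
(.leaf 1 [(4,2),(3,1)]) (.cons (.keep [6,7,8,9,10,11] (.node (.cons (.leaf 1 [(8,1),(6,1),(3,1),(4,1)]) 
(.cons (.leaf 1 [(3,1),(4,1),(6,1)]) (.cons (.leaf 1 [(8,1),(6,1),(7,1),(4,1)]) (.cons 
(.leaf 1 [(8,1),(6,1),(7,1)]) .nil)))))) (.cons (.keep [0,3,6,7,8,11] (.node (.cons 
(.leaf 1 [(3,1),(7,1),(4,1)]) (.cons (.leaf 1 [(4,1),(3,1),(7,1),(8,1)]) (.cons (.leaf 1 [(9,1),(4,1)]) 
(.cons (.leaf 1 [(9,1)]) .nil)))))) .nil)))))) (.cons (.keep [1,4,6,8,9,10] (.node (.cons 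
(.keep [3,4,6,8,9,11] (.node (.cons (.leaf 1 [(8,1),(6,1),(3,1),(4,1)]) (.cons (.leaf 1 [(4,1),(6,1),(3,1)]) 
(.cons (.leaf 1 [(8,1),(6,1),(4,1),(7,1)]) (.cons (.leaf 1 [(8,1),(6,1),(7,1)]) .nil)))))) (.cons 
(.leaf 1 [(4,1),(6,1),(3,1)]) (.cons (.keep [4,6,7,8,9,11] (.node (.cons (.leaf 1 [(7,1),(3,1),(4,1)]) (.cons 
(.leaf 1 [(4,1),(3,1)]) (.cons (.leaf 1 [(8,1),(6,1),(4,1)]) (.cons (.leaf 1 [(8,1),(6,1)]) .nil)))))) (.cons 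
(.keep [0,3,6,7,11] (.node (.cons (.leaf 1 [(8,1),(3,1),(7,1),(4,1)]) (.cons (.leaf 1 [(3,1),(7,1),(4,1)]) 
(.cons (.leaf 1 [(9,1),(4,1)]) (.cons (.leaf 1 [(9,1)]) .nil)))))) .nil)))))) (.cons (.keep [0,3,7,8,9] 
(.node (.cons (.keep [3,4,6,7,8,9] (.node (.cons (.leaf 1 [(3,1),(4,1)]) (.cons (.leaf 1 [(4,1),(7,1)]) 
(.cons (.leaf 1 [(4,1),(7,1)]) (.cons (.leaf 1 [(7,1)]) .nil)))))) (.cons (.leaf 1 [(1,1),(4,1)]) (.cons 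
(.keep [4,6,7,8,9] (.node (.cons (.leaf 1 [(6,1),(4,1)]) (.cons (.leaf 1 [(4,1),(6,1)]) (.cons 
(.leaf 1 [(6,1),(4,1)]) (.cons (.leaf 1 [(6,1)]) .nil)))))) (.cons (.keep [0,3,7,8] (.node (.cons 
(.leaf 1 [(4,1)]) (.cons (.leaf 1 [(4,1)]) (.cons (.leaf 1 [(4,1)]) (.cons 
(.leaf 1 []) .nil)))))) .nil)))))) .nil)))))) .nil)))))) (.cons (.keep [1,2,7,8,10] (.node (.cons 
(.keep [4,7,9,10] (.node (.cons (.keep [3,4,7,8,9] (.node (.cons (.keep [3,6,8,9,10] (.node (.cons 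
(.leaf 1 [(6,1),(4,1)]) (.cons (.leaf 1 [(4,1),(6,1)]) (.cons (.leaf 1 [(6,1),(4,1)]) (.cons 
(.leaf 1 [(6,1)]) .nil)))))) (.cons (.leaf 1 [(3,1)]) (.cons (.keep [6,7,8,9,10] (.node (.cons 
(.leaf 1 [(7,1),(4,1)]) (.cons (.leaf 1 [(4,1),(7,1)]) (.cons (.leaf 1 [(7,1),(4,1)]) (.cons 
(.leaf 1 [(7,1)]) .nil)))))) (.cons (.keep [0,3,6,7,8,10] (.node (.cons (.leaf 1 [(3,1),(7,1),(4,1)]) (.cons 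
(.leaf 1 [(4,1),(3,1),(7,1),(8,1)]) (.cons (.leaf 1 [(9,1),(4,1)]) (.cons 
(.leaf 1 [(9,1)]) .nil)))))) .nil)))))) (.cons (.keep [4,6,7,8,9] (.node (.cons (.keep [6,7,8,9,10] (.node 
(.cons (.leaf 1 [(6,1),(4,1)]) (.cons (.leaf 1 [(4,1),(6,1)]) (.cons (.leaf 1 [(6,1),(4,1)]) (.cons 
(.leaf 1 [(6,1)]) .nil)))))) (.cons (.leaf 1 [(4,1),(3,1)]) (.cons (.keep [6,7,8,9,10] (.node (.cons 
(.leaf 1 [(3,1),(4,1)]) (.cons (.leaf 1 [(4,1),(6,1)]) (.cons (.leaf 1 [(4,1),(6,1)]) (.cons 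
(.leaf 1 [(6,1)]) .nil)))))) (.cons (.keep [0,3,6,7,8,10] (.node (.cons (.leaf 1 [(3,1),(7,1),(4,1)]) (.cons 
(.leaf 1 [(4,1),(8,1)]) (.cons (.leaf 1 [(8,1),(4,1)]) (.cons (.leaf 1 [(8,1)]) .nil)))))) .nil)))))) (.cons 
(.keep [4,6,7,8,9] (.node (.cons (.keep [6,7,8,9,10] (.node (.cons (.leaf 1 [(6,1),(4,1)]) (.cons 
(.leaf 1 [(6,1),(4,1)]) (.cons (.leaf 1 [(6,1),(4,1)]) (.cons (.leaf 1 [(6,1)]) .nil)))))) (.cons 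
(.leaf 1 [(1,1),(6,1)]) (.cons (.keep [6,7,8,9,10] (.node (.cons (.leaf 1 [(6,1),(4,1)]) (.cons 
(.leaf 1 [(6,1),(4,1)]) (.cons (.leaf 1 [(6,1),(4,1)]) (.cons (.leaf 1 [(6,1)]) .nil)))))) (.cons 
(.keep [0,3,6,7,8,10] (.node (.cons (.leaf 1 [(8,1),(4,1)]) (.cons (.leaf 1 [(3,1),(7,1),(4,1)]) (.cons 
(.leaf 1 [(8,1),(4,1)]) (.cons (.leaf 1 [(8,1)]) .nil)))))) .nil)))))) (.cons (.keep [0,3,6,7,9] (.node 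
(.cons (.keep [3,6,7,9,10] (.node (.cons (.leaf 1 [(4,1)]) (.cons (.leaf 1 [(4,1)]) (.cons (.leaf 1 [(4,1)]) 
(.cons (.leaf 1 []) .nil)))))) (.cons (.leaf 1 [(1,1)]) (.cons (.keep [6,7,8,9,10] (.node (.cons 
(.leaf 1 [(4,1)]) (.cons (.leaf 1 [(4,1)]) (.cons (.leaf 1 [(4,1)]) (.cons (.leaf 1 []) .nil)))))) (.cons 
(.keep [0,3,7,8,9] (.node (.cons (.leaf 1 [(4,1)]) (.cons (.leaf 1 [(4,1)]) (.cons (.leaf 1 [(4,1)]) (.cons 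
(.leaf 1 []) .nil)))))) .nil)))))) .nil)))))) (.cons (.keep [1,4,7,9,10] (.node (.cons (.keep [4,7,8,9,10] 
(.node (.cons (.keep [3,7,8,9,10] (.node (.cons (.leaf 1 [(6,1),(4,1)]) (.cons (.leaf 1 [(4,1),(6,1)]) (.cons 
(.leaf 1 [(6,1),(4,1)]) (.cons (.leaf 1 [(6,1)]) .nil)))))) (.cons (.leaf 1 [(3,1)]) (.cons 
(.keep [6,7,8,9,10] (.node (.cons (.leaf 1 [(6,1),(4,1)]) (.cons (.leaf 1 [(4,1),(6,1)]) (.cons 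
(.leaf 1 [(6,1),(4,1)]) (.cons (.leaf 1 [(6,1)]) .nil)))))) (.cons (.keep [0,3,6,7,8,10] (.node (.cons 
(.leaf 1 [(3,1),(7,1),(4,1)]) (.cons (.leaf 1 [(4,1),(8,1)]) (.cons (.leaf 1 [(8,1),(4,1)]) (.cons 
(.leaf 1 [(8,1)]) .nil)))))) .nil)))))) (.cons (.keep [4,7,8,9,10] (.node (.cons (.keep [6,7,8,9,10] (.node 
(.cons (.leaf 1 [(6,1),(4,1)]) (.cons (.leaf 1 [(4,1),(6,1)]) (.cons (.leaf 1 [(6,1),(4,1)]) (.cons 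
(.leaf 1 [(6,1)]) .nil)))))) (.cons (.leaf 1 [(4,1),(3,1)]) (.cons (.keep [6,7,8,9,10] (.node (.cons 
(.leaf 1 [(3,1),(4,1)]) (.cons (.leaf 1 [(4,1),(6,1)]) (.cons (.leaf 1 [(4,1),(6,1)]) (.cons 
(.leaf 1 [(6,1)]) .nil)))))) (.cons (.keep [0,3,6,7,8,10] (.node (.cons (.leaf 1 [(3,1),(7,1),(4,1)]) (.cons 
(.leaf 1 [(4,1),(8,1)]) (.cons (.leaf 1 [(8,1),(4,1)]) (.cons (.leaf 1 [(8,1)]) .nil)))))) .nil)))))) (.cons 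
(.keep [4,7,8,9,10] (.node (.cons (.keep [3,6,8,9,10] (.node (.cons (.leaf 1 [(7,1),(4,1)]) (.cons 
(.leaf 1 [(1,1),(6,1),(4,1)]) (.cons (.leaf 1 [(7,1),(4,1)]) (.cons (.leaf 1 [(7,1)]) .nil)))))) (.cons 
(.leaf 1 [(1,1),(6,1)]) (.cons (.keep [2,6,7,8,10] (.node (.cons (.leaf 1 [(7,1),(4,1)]) (.cons 
(.leaf 1 [(7,1),(4,1)]) (.cons (.leaf 1 [(7,1),(4,1)]) (.cons (.leaf 1 [(7,1)]) .nil)))))) (.cons 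
(.keep [0,3,6,7,8,10] (.node (.cons (.leaf 1 [(8,1),(4,1)]) (.cons (.leaf 1 [(3,1),(7,1),(4,1)]) (.cons 
(.leaf 1 [(8,1),(4,1)]) (.cons (.leaf 1 [(8,1)]) .nil)))))) .nil)))))) (.cons (.keep [0,3,7,8,10] (.node 
(.cons (.keep [3,6,7,9,10] (.node (.cons (.leaf 1 [(4,1)]) (.cons (.leaf 1 [(4,1)]) (.cons (.leaf 1 [(4,1)]) 
(.cons (.leaf 1 []) .nil)))))) (.cons (.leaf 1 [(1,1)]) (.cons (.keep [6,7,8,9,10] (.node (.cons 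
(.leaf 1 [(4,1)]) (.cons (.leaf 1 [(4,1)]) (.cons (.leaf 1 [(4,1)]) (.cons (.leaf 1 []) .nil)))))) (.cons 
(.keep [0,3,7,8,9] (.node (.cons (.leaf 1 [(4,1)]) (.cons (.leaf 1 [(4,1)]) (.cons (.leaf 1 [(4,1)]) (.cons 
(.leaf 1 []) .nil)))))) .nil)))))) .nil)))))) (.cons (.keep [1,4,7,9,10] (.node (.cons 
(.leaf 1 [(6,1),(4,1)]) (.cons (.leaf 1 [(4,1),(6,1)]) (.cons (.leaf 1 [(6,1),(4,1)]) (.cons 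
(.leaf 1 [(6,1)]) .nil)))))) (.cons (.keep [0,1,6,8,10] (.node (.cons (.keep [3,4,6,7,8,10] (.node (.cons 
(.keep [3,4,6,8,9,11] (.node (.cons (.leaf 1 [(6,1),(4,1)]) (.cons (.leaf 1 [(4,1),(6,1)]) (.cons 
(.leaf 1 [(6,1),(4,1)]) (.cons (.leaf 1 [(6,1)]) .nil)))))) (.cons (.leaf 1 [(3,1)]) (.cons 
(.keep [4,6,7,8,9,11] (.node (.cons (.leaf 1 [(8,1),(4,1)]) (.cons (.leaf 1 [(4,1),(8,1)]) (.cons 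
(.leaf 1 [(8,1),(4,1)]) (.cons (.leaf 1 [(8,1)]) .nil)))))) (.cons (.keep [0,3,6,7,9,11] (.node (.cons 
(.leaf 1 [(3,1),(7,1),(4,1)]) (.cons (.leaf 1 [(4,1),(3,1),(7,1),(8,1)]) (.cons (.leaf 1 [(9,1),(4,1)]) 
(.cons (.leaf 1 [(9,1)]) .nil)))))) .nil)))))) (.cons (.keep [3,4,7,9,10] (.node (.cons (.keep [2,6,7,8,10] 
(.node (.cons (.leaf 1 [(8,1),(4,1)]) (.cons (.leaf 1 [(8,1),(4,1)]) (.cons (.leaf 1 [(8,1),(4,1)]) (.cons 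
(.leaf 1 [(8,1)]) .nil)))))) (.cons (.leaf 1 [(4,1),(3,1)]) (.cons (.keep [2,6,7,8,10] (.node (.cons 
(.leaf 1 [(3,1),(4,1)]) (.cons (.leaf 1 [(4,1),(8,1)]) (.cons (.leaf 1 [(4,1),(8,1)]) (.cons 
(.leaf 1 [(8,1)]) .nil)))))) (.cons (.keep [0,3,6,7,8,10] (.node (.cons (.leaf 1 [(3,1),(7,1),(4,1)]) (.cons 
(.leaf 1 [(4,1),(3,1),(7,1),(8,1)]) (.cons (.leaf 1 [(9,1),(4,1)]) (.cons 
(.leaf 1 [(9,1)]) .nil)))))) .nil)))))) (.cons (.keep [2,4,6,8,10] (.node (.cons (.keep [3,4,6,8,10] (.node 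
(.cons (.leaf 1 [(3,1),(6,1),(8,1),(4,1)]) (.cons (.leaf 1 [(1,1),(6,1),(4,1)]) (.cons 
(.leaf 1 [(8,1),(6,1),(4,1),(7,1)]) (.cons (.leaf 1 [(7,1),(6,1),(8,1)]) .nil)))))) (.cons 
(.leaf 1 [(3,1),(4,1),(6,1)]) (.cons (.keep [4,6,7,8,10] (.node (.cons (.leaf 1 [(3,1),(7,1),(4,1)]) (.cons 
(.leaf 1 [(8,1),(4,1)]) (.cons (.leaf 1 [(8,1),(4,1)]) (.cons (.leaf 1 [(8,1)]) .nil)))))) (.cons 
(.keep [0,3,6,7,10] (.node (.cons (.leaf 1 [(8,1),(3,1),(7,1),(4,1)]) (.cons (.leaf 1 [(3,1),(7,1),(4,1)]) 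
(.cons (.leaf 1 [(9,1),(4,1)]) (.cons (.leaf 1 [(9,1)]) .nil)))))) .nil)))))) (.cons (.keep [0,3,7,8,10] 
(.node (.cons (.keep [3,4,6,7,8,10] (.node (.cons (.leaf 1 [(4,1)]) (.cons (.leaf 1 [(4,1)]) (.cons 
(.leaf 1 [(4,1)]) (.cons (.leaf 1 []) .nil)))))) (.cons (.leaf 1 [(1,1)]) (.cons (.keep [4,6,7,8,10] (.node 
(.cons (.leaf 1 [(4,1)]) (.cons (.leaf 1 [(4,1)]) (.cons (.leaf 1 [(4,1)]) (.cons (.leaf 1 []) .nil)))))) 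
(.cons (.keep [0,3,7,8] (.node (.cons (.leaf 1 [(4,1)]) (.cons (.leaf 1 [(4,1)]) (.cons (.leaf 1 [(4,1)]) 
(.cons (.leaf 1 []) .nil)))))) .nil)))))) .nil)))))) .nil)))))) (.cons (.keep [0,1,2,7,8,9] (.node (.cons 
(.keep [2,3,4,8,10] (.node (.cons (.keep [3,4,6,7,9,10] (.node (.cons (.leaf 1 [(3,1),(4,1)]) (.cons 
(.leaf 1 [(4,1),(7,1)]) (.cons (.leaf 1 [(4,1),(7,1)]) (.cons (.leaf 1 [(7,1)]) .nil)))))) (.cons 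
(.leaf 1 [(1,1),(4,1)]) (.cons (.keep [2,4,6,7,8,9] (.node (.cons (.leaf 1 [(6,1),(3,1),(4,2)]) (.cons 
(.leaf 1 [(7,1),(4,1)]) (.cons (.leaf 1 [(7,1),(4,1)]) (.cons (.leaf 1 [(7,1)]) .nil)))))) (.cons 
(.keep [0,3,7,8,9] (.node (.cons (.leaf 1 [(4,1)]) (.cons (.leaf 1 [(4,1)]) (.cons (.leaf 1 [(4,1)]) (.cons 
(.leaf 1 []) .nil)))))) .nil)))))) (.cons (.keep [3,4,8,10,11] (.node (.cons (.keep [6,7,8,9,10] (.node 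
(.cons (.leaf 1 [(3,1),(4,1)]) (.cons (.leaf 2 [(3,1),(6,1),(4,2)]) (.cons 
(.leaf 1 [(7,1),(6,1),(8,1),(4,1)]) (.cons (.leaf 1 [(8,1),(6,1),(7,1)]) .nil)))))) (.cons 
(.leaf 1 [(1,1),(4,1)]) (.cons (.keep [6,7,8,9,10] (.node (.cons (.leaf 1 [(8,1),(6,1),(3,1),(4,1)]) (.cons 
(.leaf 1 [(1,1),(6,1),(4,1)]) (.cons (.leaf 1 [(8,1),(6,1),(4,1),(7,1)]) (.cons 
(.leaf 1 [(8,1),(6,1),(7,1)]) .nil)))))) (.cons (.keep [0,3,6,7,8] (.node (.cons (.leaf 1 [(4,1)]) (.cons 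
(.leaf 1 [(4,1)]) (.cons (.leaf 1 [(4,1)]) (.cons (.leaf 1 []) .nil)))))) .nil)))))) (.cons 
(.keep [4,6,8,10,11] (.node (.cons (.keep [3,4,6,8,9,10] (.node (.cons (.leaf 1 [(3,1),(4,1)]) (.cons 
(.leaf 1 [(4,1),(7,1)]) (.cons (.leaf 1 [(4,1),(7,1)]) (.cons (.leaf 1 [(7,1)]) .nil)))))) (.cons 
(.leaf 1 [(1,1),(4,1)]) (.cons (.keep [1,4,6,7,10] (.node (.cons (.leaf 1 [(6,1),(3,1),(4,1)]) (.cons 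
(.leaf 1 [(4,1),(7,1)]) (.cons (.leaf 1 [(7,1),(4,1)]) (.cons (.leaf 1 [(7,1)]) .nil)))))) (.cons 
(.keep [0,3,6,7,8] (.node (.cons (.leaf 1 [(4,1)]) (.cons (.leaf 1 [(4,1)]) (.cons (.leaf 1 [(4,1)]) (.cons 
(.leaf 1 []) .nil)))))) .nil)))))) (.cons (.keep [0,3,7,9,11] (.node (.cons (.keep [3,4,6,7,8,10] (.node 
(.cons (.leaf 1 [(3,1),(4,1)]) (.cons (.leaf 1 [(4,1),(7,1)]) (.cons (.leaf 1 [(4,1),(7,1)]) (.cons 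
(.leaf 1 [(7,1)]) .nil)))))) (.cons (.leaf 1 [(1,1),(4,1)]) (.cons (.keep [4,6,7,8,10] (.node (.cons 
(.leaf 1 [(6,1),(4,1)]) (.cons (.leaf 1 [(4,1),(6,1)]) (.cons (.leaf 1 [(6,1),(4,1)]) (.cons 
(.leaf 1 [(6,1)]) .nil)))))) (.cons (.keep [0,3,7,8] (.node (.cons (.leaf 1 [(4,1)]) (.cons (.leaf 1 [(4,1)]) 
(.cons (.leaf 1 [(4,1)]) (.cons (.leaf 1 []) .nil)))))) .nil)))))) .nil)))))) .nil)))))) (.cons 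
(.keep [1,2,4,7,8] (.node (.cons (.keep [2,4,7,8,10] (.node (.cons (.keep [2,3,4,6,8,9] (.node (.cons 
(.keep [2,3,6,7,9,10] (.node (.cons (.leaf 1 [(4,1)]) (.cons (.leaf 1 [(4,1)]) (.cons (.leaf 1 [(4,1)]) 
(.cons (.leaf 1 []) .nil)))))) (.cons (.leaf 1 [(1,1)]) (.cons (.keep [1,6,7,8,10,11] (.node (.cons 
(.leaf 1 [(4,1)]) (.cons (.leaf 1 [(4,1)]) (.cons (.leaf 1 [(4,1)]) (.cons (.leaf 1 []) .nil)))))) (.cons 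
(.keep [0,3,7,8,9,10] (.node (.cons (.leaf 1 [(4,1)]) (.cons (.leaf 1 [(4,1)]) (.cons (.leaf 1 [(4,1)]) 
(.cons (.leaf 1 []) .nil)))))) .nil)))))) (.cons (.keep [4,6,7,8,9,10] (.node (.cons (.keep [2,6,7,8,9,11] 
(.node (.cons (.leaf 1 [(4,1)]) (.cons (.leaf 1 [(4,1)]) (.cons (.leaf 1 [(4,1)]) (.cons 
(.leaf 1 []) .nil)))))) (.cons (.leaf 1 [(1,1)]) (.cons (.keep [6,7,8,9,10,11] (.node (.cons 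
(.leaf 1 [(4,1)]) (.cons (.leaf 1 [(4,1)]) (.cons (.leaf 1 [(4,1)]) (.cons (.leaf 1 []) .nil)))))) (.cons 
(.keep [0,3,6,7,8,9] (.node (.cons (.leaf 1 [(4,1)]) (.cons (.leaf 1 [(4,1)]) (.cons (.leaf 1 [(4,1)]) (.cons 
(.leaf 1 []) .nil)))))) .nil)))))) (.cons (.keep [4,6,7,8,9,10] (.node (.cons (.keep [2,6,7,8,9,11] (.node 
(.cons (.leaf 1 [(4,1)]) (.cons (.leaf 1 [(4,1)]) (.cons (.leaf 1 [(4,1)]) (.cons (.leaf 1 []) .nil)))))) 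
(.cons (.leaf 1 [(1,1)]) (.cons (.keep [6,7,8,9,10,11] (.node (.cons (.leaf 1 [(4,1)]) (.cons 
(.leaf 1 [(4,1)]) (.cons (.leaf 1 [(4,1)]) (.cons (.leaf 1 []) .nil)))))) (.cons (.keep [0,3,6,7,8,9] (.node 
(.cons (.leaf 1 [(4,1)]) (.cons (.leaf 1 [(4,1)]) (.cons (.leaf 1 [(4,1)]) (.cons 
(.leaf 1 []) .nil)))))) .nil)))))) (.cons (.keep [0,3,7,8,10] (.node (.cons (.keep [3,6,7,9,10] (.node (.cons 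
(.leaf 1 [(4,1)]) (.cons (.leaf 1 [(4,1)]) (.cons (.leaf 1 [(4,1)]) (.cons (.leaf 1 []) .nil)))))) (.cons 
(.leaf 1 [(1,1)]) (.cons (.keep [6,7,8,9,10] (.node (.cons (.leaf 1 [(4,1)]) (.cons (.leaf 1 [(4,1)]) (.cons 
(.leaf 1 [(4,1)]) (.cons (.leaf 1 []) .nil)))))) (.cons (.keep [0,3,7,8,9] (.node (.cons (.leaf 1 [(4,1)]) 
(.cons (.leaf 1 [(4,1)]) (.cons (.leaf 1 [(4,1)]) (.cons (.leaf 1 []) .nil)))))) .nil)))))) .nil)))))) (.cons 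
(.keep [1,4,7,9,10] (.node (.cons (.keep [2,3,4,8,9] (.node (.cons (.keep [3,6,7,9,10] (.node (.cons 
(.leaf 1 [(4,1)]) (.cons (.leaf 1 [(4,1)]) (.cons (.leaf 1 [(4,1)]) (.cons (.leaf 1 []) .nil)))))) (.cons 
(.leaf 1 [(1,1)]) (.cons (.keep [6,7,8,9,10] (.node (.cons (.leaf 1 [(4,1)]) (.cons (.leaf 1 [(4,1)]) (.cons 
(.leaf 1 [(4,1)]) (.cons (.leaf 1 []) .nil)))))) (.cons (.keep [0,3,7,8,9] (.node (.cons (.leaf 1 [(4,1)]) 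
(.cons (.leaf 1 [(4,1)]) (.cons (.leaf 1 [(4,1)]) (.cons (.leaf 1 []) .nil)))))) .nil)))))) (.cons 
(.keep [3,4,8,9,10] (.node (.cons (.keep [6,7,8,9,10] (.node (.cons (.leaf 1 [(4,1)]) (.cons 
(.leaf 1 [(4,1)]) (.cons (.leaf 1 [(4,1)]) (.cons (.leaf 1 []) .nil)))))) (.cons (.leaf 1 [(1,1)]) (.cons 
(.keep [2,6,7,8,10] (.node (.cons (.leaf 1 [(4,1)]) (.cons (.leaf 1 [(4,1)]) (.cons (.leaf 1 [(4,1)]) (.cons 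
(.leaf 1 []) .nil)))))) (.cons (.keep [0,3,6,7,8] (.node (.cons (.leaf 1 [(4,1)]) (.cons (.leaf 1 [(4,1)]) 
(.cons (.leaf 1 [(4,1)]) (.cons (.leaf 1 []) .nil)))))) .nil)))))) (.cons (.keep [4,7,8,9,10] (.node (.cons 
(.keep [3,6,8,9,10] (.node (.cons (.leaf 1 [(4,1)]) (.cons (.leaf 1 [(4,1)]) (.cons (.leaf 1 [(4,1)]) (.cons 
(.leaf 1 []) .nil)))))) (.cons (.leaf 1 [(1,1)]) (.cons (.keep [6,7,8,9,10] (.node (.cons (.leaf 1 [(4,1)]) 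
(.cons (.leaf 1 [(4,1)]) (.cons (.leaf 1 [(4,1)]) (.cons (.leaf 1 []) .nil)))))) (.cons (.keep [0,3,6,7,8,9] 
(.node (.cons (.leaf 1 [(4,1)]) (.cons (.leaf 1 [(4,1)]) (.cons (.leaf 1 [(4,1)]) (.cons 
(.leaf 1 []) .nil)))))) .nil)))))) (.cons (.keep [0,3,7,8,10] (.node (.cons (.keep [3,6,7,9,10] (.node (.cons 
(.leaf 1 [(4,1)]) (.cons (.leaf 1 [(4,1)]) (.cons (.leaf 1 [(4,1)]) (.cons (.leaf 1 []) .nil)))))) (.cons 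
(.leaf 1 [(1,1)]) (.cons (.keep [6,7,8,9,10] (.node (.cons (.leaf 1 [(4,1)]) (.cons (.leaf 1 [(4,1)]) (.cons 
(.leaf 1 [(4,1)]) (.cons (.leaf 1 []) .nil)))))) (.cons (.keep [0,3,7,8,9] (.node (.cons (.leaf 1 [(4,1)]) 
(.cons (.leaf 1 [(4,1)]) (.cons (.leaf 1 [(4,1)]) (.cons (.leaf 1 []) .nil)))))) .nil)))))) .nil)))))) (.cons 
(.leaf 1 [(1,1)]) (.cons (.keep [0,1,2,6,10] (.node (.cons (.keep [2,3,4,6,8,9] (.node (.cons 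
(.keep [3,4,6,7,9,10] (.node (.cons (.leaf 1 [(4,1)]) (.cons (.leaf 1 [(4,1)]) (.cons (.leaf 1 [(4,1)]) 
(.cons (.leaf 1 []) .nil)))))) (.cons (.leaf 1 [(1,1)]) (.cons (.keep [4,6,7,8,9,10] (.node (.cons 
(.leaf 1 [(4,1)]) (.cons (.leaf 1 [(4,1)]) (.cons (.leaf 1 [(4,1)]) (.cons (.leaf 1 []) .nil)))))) (.cons 
(.keep [0,3,7,8,10] (.node (.cons (.leaf 1 [(4,1)]) (.cons (.leaf 1 [(4,1)]) (.cons (.leaf 1 [(4,1)]) (.cons 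
(.leaf 1 []) .nil)))))) .nil)))))) (.cons (.keep [3,4,6,8,10] (.node (.cons (.keep [6,7,8,9,10] (.node (.cons 
(.leaf 1 [(4,1)]) (.cons (.leaf 1 [(4,1)]) (.cons (.leaf 1 [(4,1)]) (.cons (.leaf 1 []) .nil)))))) (.cons 
(.leaf 1 [(1,1)]) (.cons (.keep [6,7,8,9,10] (.node (.cons (.leaf 1 [(4,1)]) (.cons (.leaf 1 [(4,1)]) (.cons 
(.leaf 1 [(4,1)]) (.cons (.leaf 1 []) .nil)))))) (.cons (.keep [0,3,6,7,9] (.node (.cons (.leaf 1 [(4,1)]) 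
(.cons (.leaf 1 [(4,1)]) (.cons (.leaf 1 [(4,1)]) (.cons (.leaf 1 []) .nil)))))) .nil)))))) (.cons 
(.keep [4,6,8,9,10] (.node (.cons (.keep [3,4,6,7,8,10] (.node (.cons (.leaf 1 [(4,1)]) (.cons 
(.leaf 1 [(4,1)]) (.cons (.leaf 1 [(4,1)]) (.cons (.leaf 1 []) .nil)))))) (.cons (.leaf 1 [(1,1)]) (.cons 
(.keep [1,4,6,7,10] (.node (.cons (.leaf 1 [(4,1)]) (.cons (.leaf 1 [(4,1)]) (.cons (.leaf 1 [(4,1)]) (.cons 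
(.leaf 1 []) .nil)))))) (.cons (.keep [0,3,6,7,8] (.node (.cons (.leaf 1 [(4,1)]) (.cons (.leaf 1 [(4,1)]) 
(.cons (.leaf 1 [(4,1)]) (.cons (.leaf 1 []) .nil)))))) .nil)))))) (.cons (.keep [0,3,7,9,10] (.node (.cons 
(.keep [3,4,6,7,8,10] (.node (.cons (.leaf 1 [(4,1)]) (.cons (.leaf 1 [(4,1)]) (.cons (.leaf 1 [(4,1)]) 
(.cons (.leaf 1 []) .nil)))))) (.cons (.leaf 1 [(1,1)]) (.cons (.keep [4,6,7,8,10] (.node (.cons 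
(.leaf 1 [(4,1)]) (.cons (.leaf 1 [(4,1)]) (.cons (.leaf 1 [(4,1)]) (.cons (.leaf 1 []) .nil)))))) (.cons 
(.keep [0,3,7,8] (.node (.cons (.leaf 1 [(4,1)]) (.cons (.leaf 1 [(4,1)]) (.cons (.leaf 1 [(4,1)]) (.cons 
(.leaf 1 []) .nil)))))) .nil)))))) .nil)))))) .nil)))))) (.cons (.keep [0,1,2,7] (.node (.cons 
(.keep [2,3,4,6,8] (.node (.cons (.keep [3,4,6,7,9,10] (.node (.cons (.leaf 1 [(4,1)]) (.cons 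
(.leaf 1 [(4,1)]) (.cons (.leaf 1 [(4,1)]) (.cons (.leaf 1 []) .nil)))))) (.cons (.leaf 1 [(1,1)]) (.cons 
(.keep [4,6,7,8,9,10] (.node (.cons (.leaf 1 [(4,1)]) (.cons (.leaf 1 [(4,1)]) (.cons (.leaf 1 [(4,1)]) 
(.cons (.leaf 1 []) .nil)))))) (.cons (.keep [0,3,7,8,10] (.node (.cons (.leaf 1 [(4,1)]) (.cons 
(.leaf 1 [(4,1)]) (.cons (.leaf 1 [(4,1)]) (.cons (.leaf 1 []) .nil)))))) .nil)))))) (.cons 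
(.keep [3,4,6,8,9] (.node (.cons (.keep [6,7,8,9,10] (.node (.cons (.leaf 1 [(4,1)]) (.cons (.leaf 1 [(4,1)]) 
(.cons (.leaf 1 [(4,1)]) (.cons (.leaf 1 []) .nil)))))) (.cons (.leaf 1 [(1,1)]) (.cons (.keep [6,7,8,9,10] 
(.node (.cons (.leaf 1 [(4,1)]) (.cons (.leaf 1 [(4,1)]) (.cons (.leaf 1 [(4,1)]) (.cons 
(.leaf 1 []) .nil)))))) (.cons (.keep [0,3,6,7,9] (.node (.cons (.leaf 1 [(4,1)]) (.cons (.leaf 1 [(4,1)]) 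
(.cons (.leaf 1 [(4,1)]) (.cons (.leaf 1 []) .nil)))))) .nil)))))) (.cons (.keep [4,6,8,9] (.node (.cons 
(.keep [3,4,6,7,8,9] (.node (.cons (.leaf 1 [(4,1)]) (.cons (.leaf 1 [(4,1)]) (.cons (.leaf 1 [(4,1)]) (.cons 
(.leaf 1 []) .nil)))))) (.cons (.leaf 1 [(1,1)]) (.cons (.keep [1,4,6,7,9] (.node (.cons (.leaf 1 [(4,1)]) 
(.cons (.leaf 1 [(4,1)]) (.cons (.leaf 1 [(4,1)]) (.cons (.leaf 1 []) .nil)))))) (.cons (.keep [0,3,6,7,8] 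
(.node (.cons (.leaf 1 [(4,1)]) (.cons (.leaf 1 [(4,1)]) (.cons (.leaf 1 [(4,1)]) (.cons 
(.leaf 1 []) .nil)))))) .nil)))))) (.cons (.keep [0,3,7,9] (.node (.cons (.keep [3,4,6,7,8,9] (.node (.cons 
(.leaf 1 [(4,1)]) (.cons (.leaf 1 [(4,1)]) (.cons (.leaf 1 [(4,1)]) (.cons (.leaf 1 []) .nil)))))) (.cons 
(.leaf 1 [(1,1)]) (.cons (.keep [4,6,7,8,9] (.node (.cons (.leaf 1 [(4,1)]) (.cons (.leaf 1 [(4,1)]) (.cons 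
(.leaf 1 [(4,1)]) (.cons (.leaf 1 []) .nil)))))) (.cons (.keep [0,3,7,8] (.node (.cons (.leaf 1 [(4,1)]) 
(.cons (.leaf 1 [(4,1)]) (.cons (.leaf 1 [(4,1)]) (.cons 
(.leaf 1 []) .nil)))))) .nil)))))) .nil)))))) .nil)))))) (.cons (.keep [1,2,7,8] (.node (.cons 
(.keep [2,3,4,7] (.node (.cons (.keep [2,3,4,6,7,9] (.node (.cons (.keep [2,3,6,7,9,11] (.node (.cons 
(.leaf 1 [(8,1),(4,1)]) (.cons (.leaf 1 [(4,1),(8,1)]) (.cons (.leaf 1 [(1,1),(4,1)]) (.cons 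
(.leaf 1 [(8,1)]) .nil)))))) (.cons (.leaf 1 [(1,1),(6,1)]) (.cons (.keep [1,6,7,8,10,11] (.node (.cons 
(.leaf 1 [(7,1),(4,1)]) (.cons (.leaf 1 [(4,1),(7,1)]) (.cons (.leaf 1 [(7,1),(4,1)]) (.cons 
(.leaf 1 [(7,1)]) .nil)))))) (.cons (.keep [0,3,7,8,9,11] (.node (.cons (.leaf 1 [(4,1)]) (.cons 
(.leaf 1 [(4,1)]) (.cons (.leaf 1 [(4,1)]) (.cons (.leaf 1 []) .nil)))))) .nil)))))) (.cons 
(.keep [4,6,7,8,9] (.node (.cons (.keep [2,3,7,9,10] (.node (.cons (.leaf 1 [(8,1),(7,1),(4,1)]) (.cons 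
(.leaf 1 [(4,1),(8,1),(7,1)]) (.cons (.leaf 1 [(1,1),(4,1)]) (.cons (.leaf 1 [(8,1),(7,1)]) .nil)))))) (.cons 
(.leaf 1 [(7,1),(3,1)]) (.cons (.keep [6,7,8,9,10] (.node (.cons (.leaf 0 [(47,0)]) (.cons (.leaf 0 [(47,0)]) 
(.cons (.leaf 0 [(47,0)]) (.cons (.leaf 0 [(27,0)]) .nil)))))) (.cons (.keep [0,3,6,7,9,10] (.node (.cons 
(.leaf 1 [(4,1)]) (.cons (.leaf 1 [(4,1)]) (.cons (.leaf 1 [(4,1)]) (.cons (.leaf 1 []) .nil)))))) .nil)))))) 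
(.cons (.keep [2,4,6,7,8,9] (.node (.cons (.keep [2,6,7,8,10,11] (.node (.cons (.leaf 1 [(7,1),(2,1),(4,1)]) 
(.cons (.leaf 1 [(4,1),(7,1),(10,1)]) (.cons (.leaf 1 [(1,1),(4,1)]) (.cons 
(.leaf 1 [(7,1),(10,1)]) .nil)))))) (.cons (.leaf 1 [(6,1),(8,1),(3,1)]) (.cons (.keep [6,7,8,9,10,11] (.node 
(.cons (.leaf 1 [(6,1),(2,1),(4,1)]) (.cons (.leaf 1 [(6,1),(10,1),(4,1)]) (.cons 
(.leaf 1 [(7,1),(2,1),(4,1)]) (.cons (.leaf 1 [(6,1),(10,1)]) .nil)))))) (.cons (.keep [0,3,6,7,8,10] (.node 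
(.cons (.leaf 1 [(4,1)]) (.cons (.leaf 1 [(4,1)]) (.cons (.leaf 1 [(4,1)]) (.cons 
(.leaf 1 []) .nil)))))) .nil)))))) (.cons (.keep [0,2,8,9] (.node (.cons (.keep [3,6,7,8,9] (.node (.cons 
(.leaf 1 [(8,1),(6,1),(4,1)]) (.cons (.leaf 1 [(4,1),(8,1),(6,1)]) (.cons (.leaf 1 [(1,1),(4,1)]) (.cons 
(.leaf 1 [(8,1),(6,1)]) .nil)))))) (.cons (.leaf 1 [(7,1),(3,1)]) (.cons (.keep [6,7,8,9] (.node (.cons 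
(.leaf 0 [(48,0)]) (.cons (.leaf 0 [(49,0)]) (.cons (.leaf 0 [(50,0)]) (.cons (.leaf 0 [(27,0)]) .nil)))))) 
(.cons (.keep [0,3,7,8,9] (.node (.cons (.leaf 1 [(4,1)]) (.cons (.leaf 1 [(4,1)]) (.cons (.leaf 1 [(4,1)]) 
(.cons (.leaf 1 []) .nil)))))) .nil)))))) .nil)))))) (.cons (.keep [1,4,7,8,9] (.node (.cons 
(.keep [2,3,4,8,10] (.node (.cons (.keep [2,3,6,7,9] (.node (.cons (.leaf 1 [(8,1),(4,1)]) (.cons 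
(.leaf 1 [(4,1),(8,1)]) (.cons (.leaf 1 [(1,1),(4,1)]) (.cons (.leaf 1 [(8,1)]) .nil)))))) (.cons 
(.leaf 1 [(1,1),(6,1)]) (.cons (.keep [6,7,8,9,10] (.node (.cons (.leaf 1 [(6,1),(4,1)]) (.cons 
(.leaf 1 [(4,1),(6,1)]) (.cons (.leaf 1 [(6,1),(4,1)]) (.cons (.leaf 1 [(6,1)]) .nil)))))) (.cons 
(.keep [0,3,7,8,9] (.node (.cons (.leaf 1 [(4,1)]) (.cons (.leaf 1 [(4,1)]) (.cons (.leaf 1 [(4,1)]) (.cons 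
(.leaf 1 []) .nil)))))) .nil)))))) (.cons (.keep [3,4,7,8,9,10] (.node (.cons (.keep [3,6,9,10] (.node (.cons 
(.leaf 0 [(51,0)]) (.cons (.leaf 0 [(52,0)]) (.cons (.leaf 1 [(1,1),(4,1)]) (.cons 
(.leaf 0 [(27,0)]) .nil)))))) (.cons (.leaf 0 [(53,0)]) (.cons (.keep [1,7,8,9,11] (.node (.cons 
(.leaf 0 [(54,0)]) (.cons (.leaf 0 [(54,0)]) (.cons (.leaf 0 [(54,0)]) (.cons (.leaf 0 [(27,0)]) .nil)))))) 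
(.cons (.keep [0,3,6,7,9] (.node (.cons (.leaf 1 [(4,1)]) (.cons (.leaf 1 [(4,1)]) (.cons (.leaf 1 [(4,1)]) 
(.cons (.leaf 1 []) .nil)))))) .nil)))))) (.cons (.keep [2,7,8,9] (.node (.cons (.keep [3,6,8,9] (.node 
(.cons (.leaf 1 [(7,1),(2,1),(4,1)]) (.cons (.leaf 0 [(55,0)]) (.cons (.leaf 1 [(1,1),(4,1)]) (.cons 
(.leaf 0 [(27,0)]) .nil)))))) (.cons (.leaf 0 [(56,0)]) (.cons (.keep [1,6,7,8,9] (.node (.cons 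
(.leaf 1 [(7,1),(2,1),(4,1)]) (.cons (.leaf 0 [(57,0)]) (.cons (.leaf 2 [(7,1),(8,1),(2,1),(4,2)]) (.cons 
(.leaf 0 [(27,0)]) .nil)))))) (.cons (.keep [0,3,6,7,8,9] (.node (.cons (.leaf 1 [(4,1)]) (.cons 
(.leaf 1 [(4,1)]) (.cons (.leaf 1 [(4,1)]) (.cons (.leaf 1 []) .nil)))))) .nil)))))) (.cons (.keep [0,2,7,8] 
(.node (.cons (.keep [3,6,7,8,9] (.node (.cons (.leaf 1 [(8,1),(6,1),(4,1)]) (.cons 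
(.leaf 1 [(4,1),(8,1),(6,1)]) (.cons (.leaf 1 [(1,1),(4,1)]) (.cons (.leaf 1 [(8,1),(6,1)]) .nil)))))) (.cons 
(.leaf 1 [(7,1),(3,1)]) (.cons (.keep [6,7,8,9] (.node (.cons (.leaf 0 [(48,0)]) (.cons (.leaf 0 [(49,0)]) 
(.cons (.leaf 0 [(50,0)]) (.cons (.leaf 0 [(27,0)]) .nil)))))) (.cons (.keep [0,3,7,8,9] (.node (.cons 
(.leaf 1 [(4,1)]) (.cons (.leaf 1 [(4,1)]) (.cons (.leaf 1 [(4,1)]) (.cons 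
(.leaf 1 []) .nil)))))) .nil)))))) .nil)))))) (.cons (.leaf 0 [(58,0)]) (.cons (.keep [0,1,2,6,9] (.node 
(.cons (.keep [2,3,4,8,9,10] (.node (.cons (.keep [2,3,4,6,7,9] (.node (.cons (.leaf 1 [(9,1),(4,1)]) (.cons 
(.leaf 1 [(4,1),(9,1)]) (.cons (.leaf 1 [(1,1),(4,1)]) (.cons (.leaf 1 [(9,1)]) .nil)))))) (.cons 
(.leaf 1 [(1,1),(6,1)]) (.cons (.keep [4,6,7,8,9,11] (.node (.cons (.leaf 1 [(7,1),(4,1)]) (.cons 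
(.leaf 1 [(4,1),(7,1)]) (.cons (.leaf 1 [(7,1),(4,1)]) (.cons (.leaf 1 [(7,1)]) .nil)))))) (.cons 
(.keep [0,3,7,8,9] (.node (.cons (.leaf 1 [(4,1)]) (.cons (.leaf 1 [(4,1)]) (.cons (.leaf 1 [(4,1)]) (.cons 
(.leaf 1 []) .nil)))))) .nil)))))) (.cons (.keep [3,4,8,10] (.node (.cons (.keep [2,3,6,7,8] (.node (.cons 
(.leaf 1 [(10,1),(2,1),(7,1),(4,1)]) (.cons (.leaf 0 [(59,0)]) (.cons (.leaf 1 [(1,1),(4,1)]) (.cons 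
(.leaf 0 [(27,0)]) .nil)))))) (.cons (.leaf 0 [(58,0)]) (.cons (.keep [6,7,8,9] (.node (.cons 
(.leaf 0 [(26,0)]) (.cons (.leaf 0 [(26,0)]) (.cons (.leaf 0 [(26,0)]) (.cons (.leaf 0 [(27,0)]) .nil)))))) 
(.cons (.keep [0,3,6,7,8] (.node (.cons (.leaf 1 [(4,1)]) (.cons (.leaf 1 [(4,1)]) (.cons (.leaf 1 [(4,1)]) 
(.cons (.leaf 1 []) .nil)))))) .nil)))))) (.cons (.keep [2,4,6,8,9] (.node (.cons (.keep [3,4,6,8,9] (.node 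
(.cons (.leaf 1 [(8,1),(2,1),(4,1)]) (.cons (.leaf 0 [(60,0)]) (.cons (.leaf 1 [(1,1),(4,1)]) (.cons 
(.leaf 0 [(27,0)]) .nil)))))) (.cons (.leaf 0 [(61,0)]) (.cons (.keep [1,4,6,7,8] (.node (.cons 
(.leaf 1 [(8,1),(2,1),(4,1)]) (.cons (.leaf 0 [(62,0)]) (.cons (.leaf 1 [(9,1),(2,1),(4,1)]) (.cons 
(.leaf 0 [(27,0)]) .nil)))))) (.cons (.keep [0,3,7,8,9] (.node (.cons (.leaf 1 [(4,1)]) (.cons 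
(.leaf 1 [(4,1)]) (.cons (.leaf 1 [(4,1)]) (.cons (.leaf 1 []) .nil)))))) .nil)))))) (.cons 
(.keep [0,2,3,7,9] (.node (.cons (.keep [3,4,6,7,8,9] (.node (.cons (.leaf 1 [(9,1),(6,1),(4,1)]) (.cons 
(.leaf 1 [(4,1),(9,1),(6,1)]) (.cons (.leaf 1 [(1,1),(4,1)]) (.cons (.leaf 1 [(9,1),(6,1)]) .nil)))))) (.cons 
(.leaf 1 [(7,1),(3,1)]) (.cons (.keep [4,6,7,8,9] (.node (.cons (.leaf 0 [(63,0)]) (.cons (.leaf 0 [(64,0)]) 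
(.cons (.leaf 0 [(65,0)]) (.cons (.leaf 0 [(27,0)]) .nil)))))) (.cons (.keep [0,3,8,9] (.node (.cons 
(.leaf 1 [(4,1)]) (.cons (.leaf 1 [(4,1)]) (.cons (.leaf 1 [(4,1)]) (.cons 
(.leaf 1 []) .nil)))))) .nil)))))) .nil)))))) .nil)))))) (.cons (.leaf 1 []) .nil))))))

def s_27_16 : List (List ((ℕ × List (ℕ × ℕ)) × (ℕ × List (ℕ × ℕ)))) := [
  [((1, [(10,1),(6,1)]), (1, [(7,1),(3,1),(4,1)]))],
  [((1, [(10,1),(6,1)]), (1, [(7,1),(4,1),(8,1)]))],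
  [((1, [(10,1)]), (1, [(7,1),(8,1)]))],
  [((1, [(9,1),(10,1)]), (1, [(4,1),(3,1)]))],
  [((1, [(10,1),(9,1)]), (1, [(3,1),(4,1)]))],
  [((1, [(1,1),(9,1)]), (1, [(6,1),(4,1),(8,1)]))],
  [((1, [(10,1)]), (1, [(6,1),(8,1)]))],
  [((1, [(10,1),(11,1)]), (1, [(3,1),(7,1),(4,1)]))],
  [((1, [(10,1),(11,1)]), (1, [(9,1),(4,1)]))],
  [((1, [(10,1)]), (1, [(9,1)]))],
  [((1, [(10,1),(9,1),(3,1)]), (1, [(7,1),(3,1),(4,1)]))],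
  [((1, [(6,1),(10,1),(9,1)]), (1, [(7,1),(6,1),(4,1)]))],
  [((1, [(10,1)]), (1, [(7,1),(6,1)]))],
  [((1, [(4,1),(10,1),(9,1)]), (1, [(4,2),(3,1)]))],
  [((1, [(9,1),(10,1),(6,1)]), (1, [(6,1),(3,1),(4,1)]))],
  [((1, [(9,1),(1,1)]), (1, [(6,1),(7,1),(4,1)]))],
  [((1, [(10,1)]), (1, [(6,1),(7,1)]))],
  [((1, [(11,1),(10,1)]), (1, [(3,1),(7,1),(4,1)]))],
  [((1, [(11,1),(10,1)]), (1, [(8,1),(4,1)]))],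
  [((1, [(11,1)]), (1, [(8,1)]))],
  [((1, [(11,1),(6,1)]), (1, [(3,1),(4,1)]))],
  [((1, [(1,1),(6,1)]), (1, [(4,1),(8,1)]))],
  [((1, [(8,1),(10,1)]), (1, [(1,1),(4,1)]))],
  [((1, [(11,1),(9,1)]), (1, [(6,1),(3,1),(4,1)]))],
  [((1, [(11,1),(9,1)]), (1, [(7,1),(4,1)]))],
  [((1, [(11,1)]), (1, [(7,1)]))],
  [((1, [(9,1)]), (1, [(4,1)]))],
  [((1, []), (1, []))],
  [((1, [(10,2),(8,1),(3,1)]), (1, [(6,1),(3,1),(4,1)]))],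
  [((1, [(7,1),(10,2),(8,1)]), (1, [(6,1),(4,1),(7,1)]))],
  [((1, [(7,1),(9,1),(10,1)]), (1, [(4,1),(3,1)]))],
  [((1, [(6,1),(10,2),(8,1)]), (1, [(3,1),(4,1)]))],
  [((1, [(6,1),(1,2),(8,1)]), (1, [(6,1),(4,1),(7,1)]))],
  [((1, [(11,2),(9,1)]), (1, [(3,1),(7,1),(4,1)]))],
  [((1, [(11,2),(9,1)]), (1, [(8,1),(4,1)]))],
  [((1, [(10,2),(8,1),(3,1)]), (1, [(7,1),(3,1),(4,1)]))],
  [((1, [(6,1),(10,2),(8,1)]), (1, [(7,1),(6,1),(4,1)]))],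
  [((1, [(4,1),(10,2),(8,1)]), (1, [(4,2),(3,1)]))],
  [((1, [(10,2),(6,1),(8,1)]), (1, [(6,1),(3,1),(4,1)]))],
  [((1, [(10,1),(1,1),(8,1)]), (1, [(6,1),(7,1),(4,1)]))],
  [((1, [(9,1),(10,1)]), (1, [(8,1),(3,1),(4,1)]))],
  [((1, [(9,1),(1,1)]), (1, [(8,1),(4,1),(7,1)]))],
  [((1, [(9,1),(10,1)]), (1, [(8,1),(7,1)]))],
  [((1, [(9,1),(8,1)]), (1, [(1,1),(6,1),(4,1)]))],
  [((1, [(10,1)]), (1, [(8,1),(4,1)]))],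
  [((1, [(10,1)]), (1, [(1,1),(4,1)]))],
  [((1, [(10,1)]), (1, [(8,1)]))],
  [((1, [(8,1)]), (1, [(4,1)]))],
  [((1, [(7,1),(6,1)]), (1, [(4,1)]))],
  [((1, [(6,1),(7,1)]), (1, [(4,1)]))],
  [((1, [(6,1),(1,1)]), (1, [(4,1)]))],
  [((1, [(9,1),(6,1)]), (1, [(4,1)]))],
  [((1, [(6,1),(9,1)]), (1, [(4,1)]))],
  [((1, [(11,1)]), (1, [(1,1)]))],
  [((1, [(10,1)]), (1, [(4,1)]))],
  [((1, [(6,1),(9,1),(7,1)]), (1, [(4,1)]))],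
  [((1, [(7,1),(6,1),(9,1)]), (1, [(1,1)]))],
  [((1, [(8,1),(10,1),(7,1)]), (1, [(4,1)]))],
  [((1, [(9,1)]), (1, [(1,1)]))],
  [((1, [(6,1)]), (1, [(4,1)]))],
  [((1, [(9,1),(8,1)]), (1, [(4,1)]))],
  [((1, [(8,1),(6,1)]), (1, [(1,1)]))],
  [((1, [(8,1),(10,1)]), (1, [(4,1)]))],
  [((1, [(8,1),(7,1)]), (1, [(4,1)]))],
  [((1, [(7,1),(8,1)]), (1, [(4,1)]))],
  [((1, [(7,1),(1,1)]), (1, [(4,1)]))]]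

theorem red_27_16 (h : ∀ a b : ℕ → ℝ, Pat 27 a → Pat 16 b → NoM3 a b) : ESB (caseOf 4 27 16) :=
  esb_m3 (cs := [none, none, none, some 1]) (S := s_27_16) (t := t_27_16) (by decide) (by decide +kernel) rfl h

end Pool.Agent.H4.RD4.M3b
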