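import Pool.Agent.H4.RD4.M3a
import Pool.Agent.H4.RD4.M3b
import Pool.Agent.H4.RD4.M3c

/-!
# The limit system of period three, `a₄ b₁ ≤ a₁ b₄`: the two level minimum principle (helper78)

Let `P` be the infimum of the `p k`. At a limit of a minimizing sequence the second equation at the two indices `k`, `k + 1`,
with `p_(k+1), p_(k+2) ≥ P` and `q ≤ Q`, is contradictory if `b₀ + (b₁ + b₄) P ≤ a₃`; otherwise `ρ` grows geometrically.
-/

namespace Pool.Agent.H4.RD4

open Filter Topology Real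
open Pool.Agent.H50.Rdb
open Pool.Agent.H81.RDE (ESB caseOf)

/-- the algebra of the two level minimum principle -/
theorem alg_II {a0 a1 a3 a4 b0 b1 b4 P p1 p2 q0 q1 q2 Q S : ℝ} (ha0 : 0 ≤ a0) (ha1 : 0 < a1) (ha3 : 0 < a3)
    (ha4 : 0 ≤ a4) (hb0 : 0 ≤ b0) (hb1 : 0 ≤ b1) (hb4 : 0 < b4) (hreg : a4 * b1 ≤ a1 * b4) (hP : 0 < P)
    (hp1 : P ≤ p1) (hp2 : P ≤ p2) (hS : S = b0 + (b1 + b4) * P) (hSa : S ≤ a3)
    (hQ : Q * (b1 * a3 + b4 * S) = a1 * a3 + a4 * S) (hq0m : a4 ≤ b4 * q0) (hq0n : 0 ≤ q0) (hq0 : q0 ≤ Q)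
    (hq1n : 0 ≤ q1) (hq1 : q1 ≤ Q) (hq2 : q2 ≤ Q)
    (e1 : P * (b0 + b1 * q0 + b4 * q1) = a0 + a1 * q0 + a4 * q1 + a3 * p1)
    (e2 : p1 * (b0 + b1 * q1 + b4 * q2) = a0 + a1 * q1 + a4 * q2 + a3 * p2) : False := by
  have hBP : 0 < (b1 + b4) * P := by positivity
  have hS0 : 0 < S := by rw [hS]; positivity
  have hE : 0 < b1 * a3 + b4 * S := by positivity
  have hQ0 : 0 < Q := by
    have : 0 < Q * (b1 * a3 + b4 * S) := by rw [hQ]; positivity
    exact pos_of_mul_pos_left this hE.le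
  have hb1Q : b1 * Q ≤ a1 := by
    have h1 : b1 * Q * (b1 * a3 + b4 * S) ≤ a1 * (b1 * a3 + b4 * S) := by
      have h2 : b1 * Q * (b1 * a3 + b4 * S) = b1 * (a1 * a3 + a4 * S) := by rw [← hQ]; ring
      rw [h2]
      have h3 := mul_le_mul_of_nonneg_right hreg hS0.le
      linarith
    exact le_of_mul_le_mul_right h1 hE
  obtain ⟨u, hu⟩ : ∃ u, u = a1 - b1 * P := ⟨_, rfl⟩
  obtain ⟨t, ht⟩ : ∃ t, t = b4 * P - a4 := ⟨_, rfl⟩
  have hA : a3 * p1 = b0 * P - u * q0 + t * q1 - a0 := by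
    rw [hu, ht]
    linarith
  have hAP : a3 * P ≤ b0 * P - u * q0 + t * q1 - a0 := by
    rw [← hA]
    exact mul_le_mul_of_nonneg_left hp1 ha3.le
  have htb : t ≤ b4 * P := by rw [ht]; linarith
  have hab : b0 + (b1 + b4) * P ≤ a3 := by rw [← hS]; exact hSa
  rcases le_or_gt u 0 with hu0 | hu0
  · -- `u ≤ 0`
    have h1 : a1 ≤ b1 * P := by rw [hu] at hu0; linarith
    have hb1' : 0 < b1 := by
      rcases hb1.eq_or_lt with h | h
      · rw [← h] at h1
        linarith
      · exact h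
    have hQP : Q ≤ P := le_of_mul_le_mul_left (hb1Q.trans h1) hb1'
    have ht0 : 0 ≤ t := by
      rw [ht]
      have h2 : b1 * a4 ≤ b1 * (b4 * P) := by
        calc b1 * a4 = a4 * b1 := by ring
          _ ≤ a1 * b4 := hreg
          _ ≤ b1 * P * b4 := mul_le_mul_of_nonneg_right h1 hb4.le
          _ = _ := by ring
      have := le_of_mul_le_mul_left h2 hb1'
      linarith
    have h3 : -u * q0 ≤ -u * P := mul_le_mul_of_nonneg_left (hq0.trans hQP) (by linarith)
    have h4 : t * q1 ≤ t * P := mul_le_mul_of_nonneg_left (hq1.trans hQP) ht0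
    have h5 : (b0 + (b1 + b4) * P) * P ≤ a3 * P := mul_le_mul_of_nonneg_right hab hP.le
    have h6 : 0 < a1 * P := by positivity
    have h7 : 0 ≤ a4 * P := by positivity
    rw [hu] at h3 hAP
    rw [ht] at h4 hAP
    linarith
  rcases le_or_gt t 0 with ht0 | ht0
  · have h1 : 0 ≤ u * q0 := mul_nonneg hu0.le hq0n
    have h2 : t * q1 ≤ 0 := mul_nonpos_of_nonpos_of_nonneg ht0 hq1n
    have h3 : (b0 + (b1 + b4) * P) * P ≤ a3 * P := mul_le_mul_of_nonneg_right hab hP.le
    have h4 : 0 < (b1 + b4) * P * P := by positivity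
    linarith
  -- the main case
  obtain ⟨qm, hqm⟩ : ∃ qm, qm = a4 / b4 := ⟨_, rfl⟩
  have hqm0 : 0 ≤ qm := by rw [hqm]; positivity
  have hqmq : qm ≤ q0 := by
    rw [hqm, div_le_iff₀ hb4]
    linarith
  obtain ⟨g, hg⟩ : ∃ g : ℝ → ℝ, g = fun x => (b0 * P - u * qm - a0 + t * x) * (b0 + b1 * x + b4 * Q) -
    a3 * (a0 + a1 * x + a4 * Q + a3 * P) := ⟨_, rfl⟩
  obtain ⟨qs, hqs⟩ : ∃ qs, qs = (a3 * P - b0 * P + a0 + u * qm) / t := ⟨_, rfl⟩
  have hqst : qs * t = a3 * P - b0 * P + a0 + u * qm := by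
    rw [hqs]
    field_simp
  have huqm : 0 ≤ u * qm := mul_nonneg hu0.le hqm0
  have hD : 0 ≤ b0 + b1 * q1 + b4 * Q := by positivity
  have hgq1 : 0 ≤ g q1 := by
    rw [hg]
    simp only
    -- from the second equation
    have h1 : a3 * (a0 + a1 * q1 + a4 * q2 + a3 * P) ≤ (a3 * p1) * (b0 + b1 * q1 + b4 * q2) := by
      have h2 : (a3 * p1) * (b0 + b1 * q1 + b4 * q2) = a3 * (a0 + a1 * q1 + a4 * q2 + a3 * p2) := by
        rw [← e2]
        ring
      rw [h2]
      have := mul_le_mul_of_nonneg_left hp2 ha3.le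
      exact mul_le_mul_of_nonneg_left (by linarith) ha3.le
    have h3 : 0 ≤ (b4 * (a3 * p1) - a3 * a4) * (Q - q2) := by
      refine mul_nonneg ?_ (by linarith)
      have h4 : b4 * (a3 * P) ≤ b4 * (a3 * p1) :=
        mul_le_mul_of_nonneg_left (mul_le_mul_of_nonneg_left hp1 ha3.le) hb4.le
      have h5 : 0 < a3 * t := by positivity
      rw [ht] at h5
      linarith
    have h6 : (a3 * p1) * (b0 + b1 * q1 + b4 * Q) ≤
        (b0 * P - u * qm - a0 + t * q1) * (b0 + b1 * q1 + b4 * Q) := by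
      refine mul_le_mul_of_nonneg_right ?_ hD
      rw [hA]
      have := mul_le_mul_of_nonneg_left hqmq hu0.le
      linarith
    linarith
  have hqsq1 : qs ≤ q1 := by
    have h1 : qs * t ≤ q1 * t := by
      rw [hqst]
      have := mul_le_mul_of_nonneg_left hqmq hu0.le
      linarith
    exact le_of_mul_le_mul_right h1 ht0
  have hab2 : 0 ≤ b0 * (a3 - S) := mul_nonneg hb0 (by linarith)
  -- the value at the left end
  have hgs : g qs < 0 := by
    have h1 : g qs = a3 * (t * Q - u * qs - (a3 - b0) * P - a0) := by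
      rw [hg]
      simp only
      have h2 : b0 * P - u * qm - a0 + t * qs = a3 * P := by linarith
      rw [h2, hu, ht]
      ring
    rw [h1]
    have h3 : t * Q < u * qs + (a3 - b0) * P + a0 := by
      have h4 : t * (t * Q) < t * (u * qs + (a3 - b0) * P + a0) := by
        have h5 : t * (u * qs + (a3 - b0) * P + a0) = u * (qs * t) + t * ((a3 - b0) * P) + t * a0 := by ring
        rw [h5, hqst]
        have h6 : t * t * Q < (u + t) * ((a3 - b0) * P) := by
          have hu1 : t * t * a3 ≤ (a3 - b0) * P * (b4 * S) := by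
            have k1 : (b1 + b4) * P * a3 ≤ (a3 - b0) * S := by
              have : (a3 - b0) * S - (b1 + b4) * P * a3 = b0 * (a3 - S) := by
                have hBPe : (b1 + b4) * P = S - b0 := by rw [hS]; ring
                rw [hBPe]
                ring
              linarith
            have k2 : t * t ≤ (b4 * P) * (b4 * P) := mul_le_mul htb htb ht0.le (by positivity)
            have k3 : t * t * a3 ≤ (b4 * P) * (b4 * P) * a3 := mul_le_mul_of_nonneg_right k2 ha3.le
            have k4 : (b4 * P) * (b4 * P) * a3 ≤ b4 * P * ((b1 + b4) * P * a3) := by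
              have : 0 ≤ b4 * P * (b1 * P * a3) := by positivity
              linarith
            have k5 : b4 * P * ((b1 + b4) * P * a3) ≤ b4 * P * ((a3 - b0) * S) :=
              mul_le_mul_of_nonneg_left k1 (by positivity)
            linarith
          have ht1 : t * (b1 * P * a3 + (b4 * P - t) * S) < (a3 - b0) * P * (b1 * a3 + b4 * S) := by
            have k1 : (b1 + b4) * P ≤ a3 - b0 := by linarith
            have k2 : (b1 + b4) * P * (P * (b1 * a3 + b4 * S)) ≤ (a3 - b0) * (P * (b1 * a3 + b4 * S)) :=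
              mul_le_mul_of_nonneg_right k1 (by positivity)
            have k3 : t * (b1 * P * a3 + (b4 * P - t) * S) ≤ b4 * P * (b1 * P * a3 + (b4 * P - t) * S) := by
              refine mul_le_mul_of_nonneg_right htb ?_
              have : 0 ≤ (b4 * P - t) * S := mul_nonneg (by linarith) hS0.le
              have : 0 ≤ b1 * P * a3 := by positivity
              linarith
            have k4 : 0 < b4 * P * (t * S) := by positivity
            have k5 : 0 ≤ b1 * P * (P * (b1 * a3 + b4 * S)) := by positivity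
            linarith
          have h7 : t * t * Q * (b1 * a3 + b4 * S) < (u + t) * ((a3 - b0) * P) * (b1 * a3 + b4 * S) := by
            have k1 : t * t * Q * (b1 * a3 + b4 * S) =
                u * (t * t * a3) + t * (t * (b1 * P * a3 + (b4 * P - t) * S)) := by
              have : t * t * Q * (b1 * a3 + b4 * S) = t * t * (a1 * a3 + a4 * S) := by rw [← hQ]; ring
              rw [this]
              have ea1 : a1 = u + b1 * P := by rw [hu]; ring
              have ea4 : a4 = b4 * P - t := by rw [ht]; ring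
              rw [ea1, ea4]
              ring
            rw [k1]
            have k2 : u * (t * t * a3) ≤ u * ((a3 - b0) * P * (b4 * S)) := mul_le_mul_of_nonneg_left hu1 hu0.le
            have k3 := mul_lt_mul_of_pos_left ht1 ht0
            have k4 : 0 ≤ u * ((a3 - b0) * P * (b1 * a3)) := by
              have : 0 ≤ a3 - b0 := by linarith
              positivity
            linarith
          exact lt_of_mul_lt_mul_right h7 hE.le
        have h8 : 0 ≤ u * (a0 + u * qm) := by positivity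
        have h9 : 0 ≤ t * a0 := by positivity
        linarith
      exact lt_of_mul_lt_mul_left h4 ht0.le
    have h10 : t * Q - u * qs - (a3 - b0) * P - a0 < 0 := by linarith
    exact mul_neg_of_pos_of_neg ha3 h10
  -- the value at the right end
  have hgQ : g Q < 0 := by
    rw [hg]
    simp only
    have h1 : (b0 * P - u * qm - a0 + t * Q) * (b0 + b1 * Q + b4 * Q) ≤ P * (b0 + (b1 + b4) * Q) ^ 2 := by
      have k1 : b0 * P - u * qm - a0 + t * Q ≤ P * (b0 + (b1 + b4) * Q) := by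
        have k2 := mul_le_mul_of_nonneg_right htb hQ0.le
        have k3 : 0 ≤ b1 * P * Q := by positivity
        linarith
      have k4 : 0 ≤ b0 + b1 * Q + b4 * Q := by positivity
      calc _ ≤ P * (b0 + (b1 + b4) * Q) * (b0 + b1 * Q + b4 * Q) := mul_le_mul_of_nonneg_right k1 k4
        _ = _ := by ring
    have h2 : P * S ^ 2 + (b1 + b4) * S * Q ^ 2 ≤ a3 * (a0 + a1 * Q + a4 * Q + a3 * P) := by
      have k1 : (b1 + b4) * S * Q ≤ a3 * (a1 + a4) := by
        have k2 : a3 * (a1 + a4) = Q * (b1 * a3 + b4 * S) + a4 * (a3 - S) := by rw [hQ]; ring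
        have k3 : 0 ≤ a4 * (a3 - S) := mul_nonneg ha4 (by linarith)
        have k4 : 0 ≤ b1 * Q * (a3 - S) := mul_nonneg (by positivity) (by linarith)
        rw [k2]
        linarith
      have k5 := mul_le_mul_of_nonneg_right k1 hQ0.le
      have k6 : S * S ≤ a3 * a3 := mul_le_mul hSa hSa hS0.le ha3.le
      have k7 := mul_le_mul_of_nonneg_left k6 hP.le
      have k8 : 0 ≤ a3 * a0 := by positivity
      linarith
    have h3 : P * (b0 + (b1 + b4) * Q) ^ 2 < P * S ^ 2 + (b1 + b4) * S * Q ^ 2 := by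
      have k1 : P * S ^ 2 + (b1 + b4) * S * Q ^ 2 - P * (b0 + (b1 + b4) * Q) ^ 2 =
          (b1 + b4) * b0 * ((Q - P) ^ 2 + P ^ 2) + (b1 + b4) ^ 2 * P ^ 3 := by
        rw [hS]
        ring
      have k2 : 0 < (b1 + b4) * b0 * ((Q - P) ^ 2 + P ^ 2) + (b1 + b4) ^ 2 * P ^ 3 := by positivity
      linarith
    linarith
  -- convexity
  have hconv : (q1 - qs) * g Q + (Q - q1) * g qs - (Q - qs) * g q1 = t * b1 * (Q - qs) * (q1 - qs) * (Q - q1) := by
    rw [hg]
    ring
  have h1 : 0 ≤ t * b1 * (Q - qs) * (q1 - qs) * (Q - q1) := by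
    have k1 : 0 ≤ Q - qs := by linarith
    have k2 : 0 ≤ q1 - qs := by linarith
    have k3 : 0 ≤ Q - q1 := by linarith
    positivity
  have h2 : 0 ≤ (Q - qs) * g q1 := mul_nonneg (by linarith) hgq1
  have h3 : (q1 - qs) * g Q ≤ 0 := mul_nonpos_of_nonneg_of_nonpos (by linarith) hgQ.le
  have h4 : (Q - q1) * g qs ≤ 0 := mul_nonpos_of_nonneg_of_nonpos (by linarith) hgs.le
  have h5 : (q1 - qs) * g Q = 0 := by linarith
  have h6 : (Q - q1) * g qs = 0 := by linarith
  have h7 : q1 = qs := by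
    rcases mul_eq_zero.1 h5 with h | h
    · linarith
    · exact absurd h hgQ.ne
  have h8 := hgq1
  rw [h7] at h8
  linarith

/-- a lower bound for the `p k` -/
theorem low_II {a0 a1 a3 a4 b0 b1 b4 : ℝ} {p q s : ℕ → ℝ} (ha0 : 0 ≤ a0) (ha1 : 0 < a1) (ha3 : 0 < a3)
    (ha4 : 0 ≤ a4) (hb0 : 0 ≤ b0) (hb1 : 0 ≤ b1) (hb4 : 0 < b4) (hreg : a4 * b1 ≤ a1 * b4)
    (hne : 0 < a4 ∨ 0 < b0 + b1) (hp : ∀ k, 0 < p k) (hq : ∀ k, 0 < q k)
    (hs : ∀ k, s k = b0 + b1 * p k + b4 * p (k + 1))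
    (h2 : ∀ k, p k * (b0 + b1 * q k + b4 * q (k + 1)) = a0 + a1 * q k + a3 * p (k + 1) + a4 * q (k + 1))
    (h3 : ∀ k, q k * (b1 * a3 + b4 * s (k + 1)) = a1 * a3 + a4 * s (k + 1)) (hqm : ∀ k, a4 ≤ b4 * q k) :
    ∃ c, 0 < c ∧ ∀ k, c ≤ p k := by
  rcases ha4.eq_or_lt with h4 | h4
  · have hbb : 0 < b0 + b1 := hne.resolve_left (by rw [← h4]; exact lt_irrefl 0)
    have hE0 : 0 < b1 * a3 + b4 * b0 := by
      rcases hb1.eq_or_lt with h | h
      · have : 0 < b0 := by linarith
        positivity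
      · positivity
    obtain ⟨Qm, hQm⟩ : ∃ Qm, Qm = a1 * a3 / (b1 * a3 + b4 * b0) := ⟨_, rfl⟩
    have hQm0 : 0 < Qm := by rw [hQm]; positivity
    obtain ⟨Dm, hDm⟩ : ∃ Dm, Dm = b0 + (b1 + b4) * Qm := ⟨_, rfl⟩
    have hDm0 : 0 < Dm := by rw [hDm]; positivity
    have hsb : ∀ k, b0 ≤ s k := by
      intro k
      have k1 := hp k
      have k2 := hp (k + 1)
      have k3 : 0 ≤ b1 * p k := by positivity
      have k4 : 0 ≤ b4 * p (k + 1) := by positivity
      rw [hs]
      linarith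
    have hqQ : ∀ k, q k ≤ Qm := by
      intro k
      rw [hQm, le_div_iff₀ hE0]
      have e := h3 k
      rw [← h4] at e
      have k1 : q k * (b1 * a3 + b4 * b0) ≤ q k * (b1 * a3 + b4 * s (k + 1)) := by
        refine mul_le_mul_of_nonneg_left ?_ (hq k).le
        have := mul_le_mul_of_nonneg_left (hsb (k + 1)) hb4.le
        linarith
      linarith
    have hN : ∀ k, a0 + a1 * q k + a3 * p (k + 1) + a4 * q (k + 1) ≤ Dm * p k := by
      intro k
      rw [← h2 k, mul_comm]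
      refine mul_le_mul_of_nonneg_right ?_ (hp k).le
      rw [hDm]
      have k1 := mul_le_mul_of_nonneg_left (hqQ k) hb1
      have k2 := mul_le_mul_of_nonneg_left (hqQ (k + 1)) hb4.le
      linarith
    have hp1 : ∀ k, a3 * p (k + 1) ≤ Dm * p k := by
      intro k
      have k1 := hN k
      have k2 : 0 ≤ a1 * q k := (mul_pos ha1 (hq k)).le
      have k3 : 0 ≤ a4 * q (k + 1) := mul_nonneg ha4 (hq _).le
      linarith
    have hq1 : ∀ k, a1 * q k ≤ Dm * p k := by
      intro k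
      have k1 := hN k
      have k2 : 0 ≤ a3 * p (k + 1) := (mul_pos ha3 (hp _)).le
      have k3 : 0 ≤ a4 * q (k + 1) := mul_nonneg ha4 (hq _).le
      linarith
    obtain ⟨W, hW⟩ : ∃ W, W = b1 * a3 ^ 3 + b4 * (a3 ^ 2 * b0 + a3 * b1 * Dm + b4 * Dm ^ 2) := ⟨_, rfl⟩
    have hW0 : 0 < W := by
      rw [hW]
      have : 0 < b4 * (b4 * Dm ^ 2) := by positivity
      have : 0 ≤ b1 * a3 ^ 3 + b4 * (a3 ^ 2 * b0 + a3 * b1 * Dm) := by positivity
      linarith
    refine ⟨min 1 (a1 ^ 2 * a3 ^ 3 / (Dm * W)), lt_min one_pos (by positivity), fun k => ?_⟩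
    rcases le_or_gt 1 (p k) with h | h
    · exact (min_le_left _ _).trans h
    · refine (min_le_right _ _).trans ?_
      rw [div_le_iff₀ (by positivity)]
      have hpk := hp k
      -- `a3 ^ 2 s (k + 1)`
      have k1 : a3 ^ 2 * s (k + 1) ≤ a3 ^ 2 * b0 + a3 * b1 * Dm + b4 * Dm ^ 2 := by
        have j1 : a3 * p (k + 1) ≤ Dm := (hp1 k).trans (by
          have := mul_le_mul_of_nonneg_left h.le hDm0.le
          linarith)
        have j2 : a3 * (a3 * p (k + 1 + 1)) ≤ Dm ^ 2 := by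
          calc a3 * (a3 * p (k + 1 + 1)) ≤ a3 * (Dm * p (k + 1)) := mul_le_mul_of_nonneg_left (hp1 (k + 1)) ha3.le
            _ = Dm * (a3 * p (k + 1)) := by ring
            _ ≤ Dm * Dm := mul_le_mul_of_nonneg_left j1 hDm0.le
            _ = _ := by ring
        rw [hs]
        have j3 := mul_le_mul_of_nonneg_left j1 (mul_nonneg ha3.le hb1)
        have j4 := mul_le_mul_of_nonneg_left j2 hb4.le
        linarith
      have e := h3 k
      rw [← h4] at e
      have hsk : 0 ≤ s (k + 1) := hb0.trans (hsb _)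
      have k2 : a1 * (a1 * a3) ≤ Dm * p k * (b1 * a3 + b4 * s (k + 1)) := by
        have j1 : a1 * (a1 * a3) = a1 * q k * (b1 * a3 + b4 * s (k + 1)) := by
          have : a1 * a3 = q k * (b1 * a3 + b4 * s (k + 1)) := by linarith
          calc a1 * (a1 * a3) = a1 * (q k * (b1 * a3 + b4 * s (k + 1))) := by rw [← this]
            _ = _ := by ring
        rw [j1]
        exact mul_le_mul_of_nonneg_right (hq1 k) (by positivity)
      have k3 : a3 ^ 2 * (b1 * a3 + b4 * s (k + 1)) ≤ W := by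
        rw [hW]
        have := mul_le_mul_of_nonneg_left k1 hb4.le
        linarith
      calc a1 ^ 2 * a3 ^ 3 = a3 ^ 2 * (a1 * (a1 * a3)) := by ring
        _ ≤ a3 ^ 2 * (Dm * p k * (b1 * a3 + b4 * s (k + 1))) := mul_le_mul_of_nonneg_left k2 (by positivity)
        _ = Dm * p k * (a3 ^ 2 * (b1 * a3 + b4 * s (k + 1))) := by ring
        _ ≤ Dm * p k * W := mul_le_mul_of_nonneg_left k3 (by positivity)
        _ = p k * (Dm * W) := by ring
  · obtain ⟨c, hc⟩ : ∃ c, c = a4 ^ 2 / (b4 * (a4 + b0)) := ⟨_, rfl⟩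
    have hc0 : 0 < c := by rw [hc]; positivity
    have hce : c * (b4 * (a4 + b0)) = a4 ^ 2 := by
      rw [hc]
      field_simp
    refine ⟨c, hc0, fun k => ?_⟩
    have hqk := hq k
    have hqk1 := hq (k + 1)
    have hD : 0 < b0 + b1 * q k + b4 * q (k + 1) := by positivity
    have k1 : c * b4 ≤ a4 := by
      have j1 : c * b4 * (a4 + b0) ≤ a4 * (a4 + b0) := by
        have : c * b4 * (a4 + b0) = a4 ^ 2 := by rw [← hce]; ring
        rw [this]
        have : 0 ≤ a4 * b0 := by positivity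
        linarith
      exact le_of_mul_le_mul_right j1 (by positivity)
    have k2 : c * b1 ≤ a1 := by
      have j1 : c * b1 * b4 ≤ a1 * b4 := by
        have := mul_le_mul_of_nonneg_right k1 hb1
        linarith
      exact le_of_mul_le_mul_right j1 hb4
    have k3 : c * b0 + c * b4 * q (k + 1) ≤ a4 * q (k + 1) := by
      have j1 : (c * b0 + c * b4 * q (k + 1)) * (b4 * (a4 + b0)) ≤ a4 * q (k + 1) * (b4 * (a4 + b0)) := by
        have j2 : (c * b0 + c * b4 * q (k + 1)) * (b4 * (a4 + b0)) = a4 ^ 2 * b0 + a4 ^ 2 * b4 * q (k + 1) := by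
          rw [← hce]
          ring
        rw [j2]
        have j3 := mul_le_mul_of_nonneg_left (hqm (k + 1)) (by positivity : 0 ≤ a4 * b0)
        linarith
      exact le_of_mul_le_mul_right j1 (by positivity)
    have k4 : c * (b0 + b1 * q k + b4 * q (k + 1)) ≤ p k * (b0 + b1 * q k + b4 * q (k + 1)) := by
      rw [h2 k]
      have j1 := mul_le_mul_of_nonneg_right k2 hqk.le
      have j2 : 0 ≤ a3 * p (k + 1) := (mul_pos ha3 (hp _)).le
      linarith
    exact le_of_mul_le_mul_right k4 hD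

/-- **the limit system has no solution if `a₄ b₁ ≤ a₁ b₄`** -/
theorem noM3_II {a b : ℕ → ℝ} (ha0 : 0 ≤ a 0) (ha1 : 0 < a 1) (ha3 : 0 < a 3) (ha4 : 0 ≤ a 4) (hb0 : 0 ≤ b 0)
    (hb1 : 0 ≤ b 1) (hb4 : 0 < b 4) (hreg : a 4 * b 1 ≤ a 1 * b 4) (hne : 0 < a 4 ∨ 0 < b 0 + b 1) : NoM3 a b := by
  intro ρ p q hρ0 hρ hρ1 hp hq h1 h2 h3
  obtain ⟨s, hs⟩ : ∃ s : ℕ → ℝ, ∀ k, s k = b 0 + b 1 * p k + b 4 * p (k + 1) := ⟨_, fun _ => rfl⟩
  have h1' : ∀ k, ρ k * s k = a 3 * ρ (k + 1) := fun k => by rw [hs]; exact h1 k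
  have hs0 : ∀ k, 0 < s k := by
    intro k
    have k1 := hp k
    have k2 := hp (k + 1)
    rw [hs]
    positivity
  have h3' : ∀ k, q k * (b 1 * a 3 + b 4 * s (k + 1)) = a 1 * a 3 + a 4 * s (k + 1) := by
    intro k
    have e := h3 k
    have e1 := h1' (k + 1)
    have k1 : (q k * (b 1 * a 3 + b 4 * s (k + 1))) * ρ (k + 1) = (a 1 * a 3 + a 4 * s (k + 1)) * ρ (k + 1) := by
      linear_combination a 3 * e + (q k * b 4 - a 4) * e1
    exact mul_right_cancel₀ (hρ (k + 1)).ne' k1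
  have hqm : ∀ k, a 4 ≤ b 4 * q k := by
    intro k
    have hE : 0 < b 1 * a 3 + b 4 * s (k + 1) := by
      have := hs0 (k + 1)
      positivity
    have k1 : a 4 * (b 1 * a 3 + b 4 * s (k + 1)) ≤ b 4 * q k * (b 1 * a 3 + b 4 * s (k + 1)) := by
      have j1 : b 4 * q k * (b 1 * a 3 + b 4 * s (k + 1)) = b 4 * (a 1 * a 3 + a 4 * s (k + 1)) := by
        rw [← h3' k]
        ring
      rw [j1]
      have := mul_le_mul_of_nonneg_right hreg ha3.le
      linarith
    exact le_of_mul_le_mul_right k1 hE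
  obtain ⟨c, hc0, hc⟩ := low_II ha0 ha1 ha3 ha4 hb0 hb1 hb4 hreg hne hp hq hs h2 h3' hqm
  obtain ⟨P, hPd⟩ : ∃ P, P = ⨅ k, p k := ⟨_, rfl⟩
  have hbdd : BddBelow (Set.range p) := ⟨c, by rintro _ ⟨k, rfl⟩; exact hc k⟩
  have hPle : ∀ k, P ≤ p k := fun k => by rw [hPd]; exact ciInf_le hbdd k
  have hP : 0 < P := by
    rw [hPd]
    exact hc0.trans_le (le_ciInf hc)
  obtain ⟨S, hS⟩ : ∃ S, S = b 0 + (b 1 + b 4) * P := ⟨_, rfl⟩
  have hsS : ∀ k, S ≤ s k := by
    intro k
    rw [hs, hS]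
    have k1 := mul_le_mul_of_nonneg_left (hPle k) hb1
    have k2 := mul_le_mul_of_nonneg_left (hPle (k + 1)) hb4.le
    linarith
  have hS0 : 0 < S := by rw [hS]; positivity
  rcases lt_or_ge (a 3) S with hlt | hSa
  · refine no_geom (q := S / a 3) ((one_lt_div ha3).2 hlt) (hρ 0) hρ1 fun k => ?_
    rw [div_mul_eq_mul_div, div_le_iff₀ ha3]
    have k1 := mul_le_mul_of_nonneg_left (hsS k) (hρ k).le
    have k2 := h1' k
    linarith
  have hE : 0 < b 1 * a 3 + b 4 * S := by positivity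
  obtain ⟨Q, hQ⟩ : ∃ Q, Q = (a 1 * a 3 + a 4 * S) / (b 1 * a 3 + b 4 * S) := ⟨_, rfl⟩
  have hQe : Q * (b 1 * a 3 + b 4 * S) = a 1 * a 3 + a 4 * S := by
    rw [hQ]
    field_simp
  have hqQ : ∀ k, q k ≤ Q := by
    intro k
    have hEk : 0 < b 1 * a 3 + b 4 * s (k + 1) := by
      have := hs0 (k + 1)
      positivity
    rw [hQ, le_div_iff₀ hE]
    have k1 : q k * (b 1 * a 3 + b 4 * S) * (b 1 * a 3 + b 4 * s (k + 1)) ≤
        (a 1 * a 3 + a 4 * S) * (b 1 * a 3 + b 4 * s (k + 1)) := by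
      have j1 : q k * (b 1 * a 3 + b 4 * S) * (b 1 * a 3 + b 4 * s (k + 1)) =
          (b 1 * a 3 + b 4 * S) * (a 1 * a 3 + a 4 * s (k + 1)) := by
        rw [← h3' k]
        ring
      rw [j1]
      have j2 : 0 ≤ (a 1 * b 4 - a 4 * b 1) * a 3 * (s (k + 1) - S) :=
        mul_nonneg (mul_nonneg (by linarith) ha3.le) (by linarith [hsS (k + 1)])
      linarith
    exact le_of_mul_le_mul_right k1 hEk
  -- a minimizing sequence
  have hex : ∀ n : ℕ, ∃ k, p k < P + 1 / ((n : ℝ) + 1) := by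
    intro n
    have : (⨅ k, p k) < P + 1 / ((n : ℝ) + 1) := by
      rw [← hPd]
      have : 0 < 1 / ((n : ℝ) + 1) := by positivity
      linarith
    exact exists_lt_of_ciInf_lt this
  choose u hu using hex
  obtain ⟨l, hl⟩ : ∃ l : Ultrafilter ℕ, l = hyperfilter ℕ := ⟨_, rfl⟩
  have hlat : (l : Filter ℕ) ≤ atTop := by
    rw [hl]
    exact Nat.hyperfilter_le_atTop
  have t0 : Tendsto (fun n => p (u n)) l (𝓝 P) := by
    have k1 : Tendsto (fun n : ℕ => P + 1 / ((n : ℝ) + 1)) atTop (𝓝 (P + 0)) :=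
      tendsto_const_nhds.add tendsto_one_div_add_atTop_nhds_zero_nat
    rw [add_zero] at k1
    exact (tendsto_of_tendsto_of_tendsto_of_le_of_le tendsto_const_nhds k1 (fun n => hPle _)
      fun n => (hu n).le).mono_left hlat
  have hqlim : ∀ m : ℕ, ∃ c, Tendsto (fun n => q (u n + m)) l (𝓝 c) := fun m =>
    exists_lim (m := 0) (M := Q) (Eventually.of_forall fun n => ⟨(hq _).le, hqQ _⟩)
  obtain ⟨q0, T0⟩ := hqlim 0
  obtain ⟨q1, T1⟩ := hqlim 1
  obtain ⟨q2, T2⟩ := hqlim 2
  have hpe : ∀ k, p (k + 1) = (p k * (b 0 + b 1 * q k + b 4 * q (k + 1)) - a 0 - a 1 * q k - a 4 * q (k + 1)) / a 3 := by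
    intro k
    rw [eq_div_iff ha3.ne', h2 k]
    ring
  obtain ⟨p1, hp1⟩ : ∃ p1, p1 = (P * (b 0 + b 1 * q0 + b 4 * q1) - a 0 - a 1 * q0 - a 4 * q1) / a 3 := ⟨_, rfl⟩
  have t1 : Tendsto (fun n => p (u n + 1)) l (𝓝 p1) := by
    rw [hp1]
    have k1 : (fun n => p (u n + 1)) = fun n => (p (u n) * (b 0 + b 1 * q (u n + 0) + b 4 * q (u n + 1)) - a 0 -
        a 1 * q (u n + 0) - a 4 * q (u n + 1)) / a 3 := funext fun n => hpe (u n)
    rw [k1]
    exact ((((t0.mul ((tendsto_const_nhds.add (T0.const_mul _)).add (T1.const_mul _))).sub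
      tendsto_const_nhds).sub (T0.const_mul _)).sub (T1.const_mul _)).div_const _
  obtain ⟨p2, hp2⟩ : ∃ p2, p2 = (p1 * (b 0 + b 1 * q1 + b 4 * q2) - a 0 - a 1 * q1 - a 4 * q2) / a 3 := ⟨_, rfl⟩
  have t2 : Tendsto (fun n => p (u n + 2)) l (𝓝 p2) := by
    rw [hp2]
    have k1 : (fun n => p (u n + 2)) = fun n => (p (u n + 1) * (b 0 + b 1 * q (u n + 1) + b 4 * q (u n + 2)) - a 0 -
        a 1 * q (u n + 1) - a 4 * q (u n + 2)) / a 3 := funext fun n => hpe (u n + 1)
    rw [k1]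
    exact ((((t1.mul ((tendsto_const_nhds.add (T1.const_mul _)).add (T2.const_mul _))).sub
      tendsto_const_nhds).sub (T1.const_mul _)).sub (T2.const_mul _)).div_const _
  refine alg_II ha0 ha1 ha3 ha4 hb0 hb1 hb4 hreg hP (p1 := p1) (p2 := p2) (q0 := q0) (q1 := q1) (q2 := q2)
    (ge_of_tendsto' t1 fun n => hPle _) (ge_of_tendsto' t2 fun n => hPle _) hS hSa hQe
    (ge_of_tendsto' (T0.const_mul (b 4)) fun n => hqm _) (ge_of_tendsto' T0 fun n => (hq _).le)
    (le_of_tendsto' T0 fun n => hqQ _) (ge_of_tendsto' T1 fun n => (hq _).le) (le_of_tendsto' T1 fun n => hqQ _)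
    (le_of_tendsto' T2 fun n => hqQ _) ?_ ?_
  · rw [hp1]
    field_simp
    ring
  · rw [hp2]
    field_simp
    ring

/-- the cases of family II -/
theorem II_aux {N D : ℕ} (hN1 : N.testBit 1 = true) (hN3 : N.testBit 3 = true) (hD4 : D.testBit 4 = true)
    (h : (D.testBit 1 = false ∨ N.testBit 4 = false) ∧ (N.testBit 4 = true ∨ D.testBit 0 = true ∨ D.testBit 1 = true))
    (a b : ℕ → ℝ) (ha : Pat N a) (hb : Pat D b) : NoM3 a b := by
  have nb0 := hb.nonneg (i := 0) (by norm_num)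
  have nb1 := hb.nonneg (i := 1) (by norm_num)
  have pa1 := ha.pos (i := 1) (by norm_num) hN1
  have pb4 := hb.pos (i := 4) (by norm_num) hD4
  refine noM3_II (ha.nonneg (by norm_num)) pa1 (ha.pos (by norm_num) hN3) (ha.nonneg (by norm_num)) nb0 nb1 pb4 ?_ ?_
  · rcases h.1 with h | h
    · rw [hb.zero (i := 1) (by norm_num) h]
      have := mul_pos pa1 pb4
      linarith
    · rw [ha.zero (i := 4) (by norm_num) h]
      have := mul_pos pa1 pb4
      linarith
  · rcases h.2 with h | h | h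
    · exact Or.inl (ha.pos (by norm_num) h)
    · have := hb.pos (i := 0) (by norm_num) h
      exact Or.inr (by linarith)
    · have := hb.pos (i := 1) (by norm_num) h
      exact Or.inr (by linarith)

theorem e_10_17 : ESB (caseOf 4 10 17) := M3a.red_10_17 (II_aux (by decide) (by decide) (by decide) (by decide))

theorem e_10_18 : ESB (caseOf 4 10 18) := M3b.red_10_18 (II_aux (by decide) (by decide) (by decide) (by decide))

theorem e_10_19 : ESB (caseOf 4 10 19) := M3a.red_10_19 (II_aux (by decide) (by decide) (by decide) (by decide))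

theorem e_11_17 : ESB (caseOf 4 11 17) := M3a.red_11_17 (II_aux (by decide) (by decide) (by decide) (by decide))

theorem e_11_18 : ESB (caseOf 4 11 18) := M3c.red_11_18 (II_aux (by decide) (by decide) (by decide) (by decide))

theorem e_11_19 : ESB (caseOf 4 11 19) := M3a.red_11_19 (II_aux (by decide) (by decide) (by decide) (by decide))

theorem e_26_16 : ESB (caseOf 4 26 16) := M3a.red_26_16 (II_aux (by decide) (by decide) (by decide) (by decide))

theorem e_26_17 : ESB (caseOf 4 26 17) := M3a.red_26_17 (II_aux (by decide) (by decide) (by decide) (by decide))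

theorem e_27_16 : ESB (caseOf 4 27 16) := M3b.red_27_16 (II_aux (by decide) (by decide) (by decide) (by decide))

theorem e_27_17 : ESB (caseOf 4 27 17) := M3a.red_27_17 (II_aux (by decide) (by decide) (by decide) (by decide))

end Pool.Agent.H4.RD4
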