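import Pool.Agent.H4.RD4.M3a

/-! # The cases `(24, 16), (24, 17), (25, 16), (25, 17)` -/

namespace Pool.Agent.H4.RD4.M3L

open Pool.Agent.H50.Rdb
open Pool.Agent.H81.RDE (ESB caseOf)

theorem lin_aux {N D : ℕ} (hN1 : N.testBit 1 = false) (hN3 : N.testBit 3 = true) (hN4 : N.testBit 4 = true)
    (hD1 : D.testBit 1 = false) (hD4 : D.testBit 4 = true) (a b : ℕ → ℝ) (ha : Pat N a) (hb : Pat D b) : NoM3 a b :=
  noM3_lin (ha.nonneg (by norm_num)) (ha.zero (by norm_num) hN1) (ha.pos (by norm_num) hN3) (ha.pos (by norm_num) hN4)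
    (hb.nonneg (by norm_num)) (hb.zero (by norm_num) hD1) (hb.pos (by norm_num) hD4)

theorem e_24_16 : ESB (caseOf 4 24 16) := M3a.red_24_16 (lin_aux (by decide) (by decide) (by decide) (by decide) (by decide))

theorem e_24_17 : ESB (caseOf 4 24 17) := M3a.red_24_17 (lin_aux (by decide) (by decide) (by decide) (by decide) (by decide))

theorem e_25_16 : ESB (caseOf 4 25 16) := M3a.red_25_16 (lin_aux (by decide) (by decide) (by decide) (by decide) (by decide))

theorem e_25_17 : ESB (caseOf 4 25 17) := M3a.red_25_17 (lin_aux (by decide) (by decide) (by decide) (by decide) (by decide))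

end Pool.Agent.H4.RD4.M3L
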