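import Pool.Agent.H4.RD4.M3

/-! # Shape certificates for the families of period three: `X_3` is comparable with the record -/

set_option maxRecDepth 20000

namespace Pool.Agent.H4.RD4.M3a

open Pool.Agent.H50.Rdb
open Pool.Agent.H81.RDE (ESB caseOf)

def t_10_17 : T := (.keep [0,1,2] (.node (.cons (.keep [0,2,4,6] (.node (.cons (.keep [0,2,4,6,7] (.node (.cons 
(.leaf 0 [(0,0)]) (.cons (.leaf 0 [(1,0)]) (.cons (.leaf 1 [(7,1)]) (.cons (.leaf 1 [(7,1),(3,1)]) .nil)))))) 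
(.cons (.keep [0,3,6,7,8] (.node (.cons (.leaf 0 [(2,0)]) (.cons (.leaf 0 [(3,0)]) (.cons (.leaf 1 []) (.cons 
(.leaf 1 [(3,1)]) .nil)))))) (.cons (.leaf 1 [(7,1)]) (.cons (.leaf 1 [(7,1),(3,1)]) .nil)))))) (.cons 
(.keep [0,3,5,6,7] (.node (.cons (.keep [4,5,6,7,9] (.node (.cons (.leaf 0 [(4,0)]) (.cons (.leaf 0 [(5,0)]) 
(.cons (.leaf 1 [(7,1),(5,1)]) (.cons (.leaf 1 [(7,1),(5,1),(3,1)]) .nil)))))) (.cons (.keep [3,5,6,8,9] 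
(.node (.cons (.leaf 0 [(6,0)]) (.cons (.leaf 0 [(7,0)]) (.cons (.leaf 1 [(7,1)]) (.cons 
(.leaf 1 [(7,1),(3,1)]) .nil)))))) (.cons (.leaf 1 []) (.cons (.leaf 1 [(3,1)]) .nil)))))) (.cons 
(.leaf 0 [(0,0)]) (.cons (.leaf 0 [(8,0)]) .nil))))))

def s_10_17 : List (List ((ℕ × List (ℕ × ℕ)) × (ℕ × List (ℕ × ℕ)))) := [
  [((1, []), (1, []))],
  [((1, [(8,1)]), (1, [(3,1)]))],
  [((1, [(7,1)]), (1, [(6,1)]))],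
  [((1, [(7,1)]), (1, [(6,1),(3,1)]))],
  [((1, [(8,1)]), (1, [(7,1)]))],
  [((1, [(9,1)]), (1, [(7,1),(3,1)]))],
  [((1, [(8,1)]), (1, [(7,1),(5,1)]))],
  [((1, [(9,1)]), (1, [(7,1),(5,1),(3,1)]))],
  [((1, [(7,1)]), (1, [(3,1)]))]]

theorem red_10_17 (h : ∀ a b : ℕ → ℝ, Pat 10 a → Pat 17 b → NoM3 a b) : ESB (caseOf 4 10 17) :=
  esb_m3 (cs := [none, none, none, some 1]) (S := s_10_17) (t := t_10_17) (by decide) (by decide +kernel) rfl h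

def t_10_19 : T := (.keep [0,1,2] (.node (.cons (.leaf 1 [(4,1)]) (.cons (.leaf 1 []) (.cons (.leaf 1 [(4,1)]) (.cons 
(.leaf 0 [(0,0)]) (.cons (.leaf 0 [(1,0)]) (.cons (.leaf 0 [(1,0)]) .nil))))))))

def s_10_19 : List (List ((ℕ × List (ℕ × ℕ)) × (ℕ × List (ℕ × ℕ)))) := [
  [((1, []), (1, []))],
  [((1, [(8,1)]), (1, [(3,1)]))]]

theorem red_10_19 (h : ∀ a b : ℕ → ℝ, Pat 10 a → Pat 19 b → NoM3 a b) : ESB (caseOf 4 10 19) :=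
  esb_m3 (cs := [none, none, none, some 1]) (S := s_10_19) (t := t_10_19) (by decide) (by decide +kernel) rfl h

def t_11_17 : T := (.keep [0,1,2] (.node (.cons (.leaf 1 []) (.cons (.leaf 1 [(4,1)]) (.cons (.keep [1,3,5,7] (.node (.cons 
(.leaf 1 []) (.cons (.leaf 1 [(4,1)]) (.cons (.keep [1,5,7,8] (.node (.cons (.leaf 1 []) (.cons 
(.leaf 1 [(4,1)]) (.cons (.leaf 0 [(0,0)]) (.cons (.leaf 0 [(1,0)]) (.cons (.leaf 1 [(7,1)]) (.cons 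
(.leaf 1 [(7,1),(4,1)]) .nil)))))))) (.cons (.keep [4,6,7,8,9] (.node (.cons (.leaf 1 [(6,1)]) (.cons 
(.leaf 1 [(6,1),(4,1)]) (.cons (.leaf 0 [(2,0)]) (.cons (.leaf 0 [(3,0)]) (.cons (.leaf 1 []) (.cons 
(.leaf 1 [(4,1)]) .nil)))))))) (.cons (.leaf 1 [(8,1)]) (.cons (.leaf 1 [(8,1),(4,1)]) .nil)))))))) (.cons 
(.keep [1,4,6,7,8] (.node (.cons (.leaf 1 [(7,1)]) (.cons (.leaf 1 [(7,1),(4,1)]) (.cons (.keep [3,5,7,8,10] 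
(.node (.cons (.leaf 1 [(8,1)]) (.cons (.leaf 1 [(8,1),(4,1)]) (.cons (.leaf 0 [(4,0)]) (.cons 
(.leaf 0 [(5,0)]) (.cons (.leaf 1 [(8,1),(7,1)]) (.cons (.leaf 1 [(8,1),(7,1),(4,1)]) .nil)))))))) (.cons 
(.keep [4,6,7,9,10] (.node (.cons (.leaf 1 [(8,1),(6,1)]) (.cons (.leaf 1 [(8,1),(6,1),(4,1)]) (.cons 
(.leaf 0 [(6,0)]) (.cons (.leaf 0 [(7,0)]) (.cons (.leaf 1 [(8,1)]) (.cons 
(.leaf 1 [(8,1),(4,1)]) .nil)))))))) (.cons (.leaf 1 []) (.cons (.leaf 1 [(4,1)]) .nil)))))))) (.cons 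
(.leaf 0 [(0,0)]) (.cons (.leaf 0 [(1,0)]) .nil))))))))

def s_11_17 : List (List ((ℕ × List (ℕ × ℕ)) × (ℕ × List (ℕ × ℕ)))) := [
  [((1, []), (1, []))],
  [((1, [(8,1)]), (1, [(4,1)]))],
  [((1, [(8,1)]), (1, [(6,1)]))],
  [((1, [(8,1)]), (1, [(6,1),(4,1)]))],
  [((1, [(9,1)]), (1, [(8,1)]))],
  [((1, [(10,1)]), (1, [(8,1),(4,1)]))],
  [((1, [(9,1)]), (1, [(8,1),(6,1)]))],
  [((1, [(10,1)]), (1, [(8,1),(6,1),(4,1)]))]]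

theorem red_11_17 (h : ∀ a b : ℕ → ℝ, Pat 11 a → Pat 17 b → NoM3 a b) : ESB (caseOf 4 11 17) :=
  esb_m3 (cs := [none, none, none, some 1]) (S := s_11_17) (t := t_11_17) (by decide) (by decide +kernel) rfl h

def t_11_19 : T := (.keep [0,1,2] (.node (.cons (.leaf 1 []) (.cons (.leaf 1 [(4,1)]) (.cons (.leaf 1 [(4,1)]) (.cons 
(.leaf 1 [(5,1)]) (.cons (.leaf 1 []) (.cons (.leaf 1 [(5,1)]) (.cons (.leaf 0 [(0,0)]) (.cons 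
(.leaf 0 [(1,0)]) (.cons (.leaf 0 [(1,0)]) .nil)))))))))))

def s_11_19 : List (List ((ℕ × List (ℕ × ℕ)) × (ℕ × List (ℕ × ℕ)))) := [
  [((1, []), (1, []))],
  [((1, [(9,1)]), (1, [(4,1)]))]]

theorem red_11_19 (h : ∀ a b : ℕ → ℝ, Pat 11 a → Pat 19 b → NoM3 a b) : ESB (caseOf 4 11 19) :=
  esb_m3 (cs := [none, none, none, some 1]) (S := s_11_19) (t := t_11_19) (by decide) (by decide +kernel) rfl h

def t_24_16 : T := (.keep [0,1,2] (.node (.cons (.keep [2,4,5,6] (.node (.cons (.keep [2,5,6,7] (.node (.cons (.keep [2,4,5,6,7] 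
(.node (.cons (.keep [2,4,5,6,7,8] (.node (.cons (.leaf 0 [(0,0)]) (.cons (.leaf 0 [(1,0)]) .nil)))) (.cons 
(.keep [0,1,4,5,6,7] (.node (.cons (.leaf 1 [(2,1)]) (.cons (.leaf 1 []) .nil)))) .nil)))) (.cons 
(.keep [0,1,4,5,7] (.node (.cons (.keep [2,4,5,6,7,8] (.node (.cons (.leaf 0 [(0,0)]) (.cons 
(.leaf 0 [(1,0)]) .nil)))) (.cons (.keep [0,1,5,6,7] (.node (.cons (.leaf 1 [(2,1)]) (.cons 
(.leaf 1 []) .nil)))) .nil)))) .nil)))) (.cons (.keep [0,1,4,6,7] (.node (.cons (.keep [2,4,5,7,8] (.node 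
(.cons (.keep [2,4,5,6,7,8] (.node (.cons (.leaf 0 [(0,0)]) (.cons (.leaf 0 [(1,0)]) .nil)))) (.cons 
(.keep [0,1,4,5,6,7] (.node (.cons (.leaf 1 [(2,1)]) (.cons (.leaf 1 []) .nil)))) .nil)))) (.cons 
(.keep [0,1,5,6,8] (.node (.cons (.keep [2,4,5,6,8] (.node (.cons (.leaf 0 [(2,0)]) (.cons 
(.leaf 0 [(1,0)]) .nil)))) (.cons (.keep [0,1,5,6] (.node (.cons (.leaf 1 [(2,1)]) (.cons 
(.leaf 1 []) .nil)))) .nil)))) .nil)))) .nil)))) (.cons (.leaf 1 []) .nil))))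

def s_24_16 : List (List ((ℕ × List (ℕ × ℕ)) × (ℕ × List (ℕ × ℕ)))) := [
  [((1, [(9,1)]), (1, [(2,1)]))],
  [((1, []), (1, []))],
  [((1, [(8,1)]), (1, [(2,1)]))]]

theorem red_24_16 (h : ∀ a b : ℕ → ℝ, Pat 24 a → Pat 16 b → NoM3 a b) : ESB (caseOf 4 24 16) :=
  esb_m3 (cs := [none, none, none, some 1]) (S := s_24_16) (t := t_24_16) (by decide) (by decide +kernel) rfl h

def t_24_17 : T := (.keep [0,1,2] (.node (.cons (.leaf 0 [(0,0)]) (.cons (.leaf 0 [(1,0)]) (.cons (.leaf 1 [(4,1)]) (.cons 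
(.leaf 1 []) .nil))))))

def s_24_17 : List (List ((ℕ × List (ℕ × ℕ)) × (ℕ × List (ℕ × ℕ)))) := [
  [((1, []), (1, []))],
  [((1, [(7,1)]), (1, [(3,1)]))]]

theorem red_24_17 (h : ∀ a b : ℕ → ℝ, Pat 24 a → Pat 17 b → NoM3 a b) : ESB (caseOf 4 24 17) :=
  esb_m3 (cs := [none, none, none, some 1]) (S := s_24_17) (t := t_24_17) (by decide) (by decide +kernel) rfl h

def t_24_18 : T := (.keep [0,1,2] (.node (.cons (.keep [2,4,5,6,7] (.node (.cons (.keep [2,5,6,7,9] (.node (.cons 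
(.leaf 1 [(5,1)]) (.cons (.leaf 1 [(3,1),(5,1)]) (.cons (.keep [1,4,5,6,8,9] (.node (.cons (.leaf 0 [(0,0)]) 
(.cons (.keep [2,3,6,7] (.node (.cons (.leaf 0 [(1,0)]) (.cons (.leaf 0 [(2,0)]) (.cons (.leaf 0 [(3,0)]) 
(.cons (.leaf 0 [(4,0)]) .nil)))))) (.cons (.leaf 1 [(4,1),(1,1)]) (.cons (.keep [0,1,6,7,9] (.node (.cons 
(.leaf 1 [(5,1),(6,2),(8,1)]) (.cons (.leaf 1 [(7,1),(2,1)]) (.cons (.leaf 1 [(0,1),(1,2),(6,2),(8,1)]) 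
(.cons (.leaf 1 [(7,1)]) .nil)))))) .nil)))))) (.cons (.keep [0,3,5,6] (.node (.cons (.leaf 0 [(5,0)]) (.cons 
(.keep [2,5,6,7] (.node (.cons (.leaf 0 [(6,0)]) (.cons (.leaf 0 [(7,0)]) (.cons (.leaf 0 [(8,0)]) (.cons 
(.leaf 0 [(0,0)]) .nil)))))) (.cons (.leaf 1 [(1,1),(6,1),(4,1)]) (.cons (.keep [0,1,6,7] (.node (.cons 
(.leaf 2 [(8,1),(7,1),(6,1)]) (.cons (.leaf 1 [(2,1)]) (.cons (.leaf 2 [(8,1),(7,1),(6,1),(1,1)]) (.cons 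
(.leaf 1 []) .nil)))))) .nil)))))) .nil)))))) (.cons (.leaf 0 [(9,0)]) (.cons (.keep [1,4,6,7,8] (.node 
(.cons (.leaf 1 []) (.cons (.leaf 1 [(3,1)]) (.cons (.keep [1,4,5,6] (.node (.cons (.leaf 0 [(10,0)]) (.cons 
(.keep [2,6,7,8] (.node (.cons (.leaf 0 [(11,0)]) (.cons (.leaf 0 [(12,0)]) (.cons (.leaf 0 [(13,0)]) (.cons 
(.leaf 0 [(14,0)]) .nil)))))) (.cons (.leaf 1 [(4,1),(7,1),(1,1)]) (.cons (.keep [0,1,5,6,7] (.node (.cons 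
(.leaf 2 [(9,1),(8,1),(6,1)]) (.cons (.leaf 1 [(2,1),(8,1),(9,1)]) (.cons (.leaf 1 [(4,1),(6,1),(1,1)]) 
(.cons (.leaf 1 [(9,1),(8,1)]) .nil)))))) .nil)))))) (.cons (.keep [0,3,5,9] (.node (.cons (.leaf 0 [(15,0)]) 
(.cons (.keep [2,5,6,7] (.node (.cons (.leaf 0 [(16,0)]) (.cons (.leaf 0 [(17,0)]) (.cons (.leaf 0 [(18,0)]) 
(.cons (.leaf 0 [(19,0)]) .nil)))))) (.cons (.leaf 1 [(4,1),(1,1),(6,1),(7,1)]) (.cons (.keep [0,1,6,7] 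
(.node (.cons (.leaf 2 [(8,1),(7,1),(6,1)]) (.cons (.leaf 1 [(2,1),(8,1)]) (.cons 
(.leaf 1 [(4,1),(7,1),(6,1),(1,1)]) (.cons (.leaf 1 [(8,1)]) .nil)))))) .nil)))))) .nil)))))) (.cons 
(.leaf 0 [(0,0)]) .nil)))))) (.cons (.keep [2,3,6,7] (.node (.cons (.keep [2,6,7,8] (.node (.cons 
(.leaf 1 [(5,1),(6,1)]) (.cons (.leaf 1 [(5,1),(2,1),(3,1)]) (.cons (.keep [4,5,6,7,8] (.node (.cons 
(.leaf 0 [(20,0)]) (.cons (.keep [2,5,6,7,9] (.node (.cons (.leaf 0 [(21,0)]) (.cons (.leaf 0 [(9,0)]) (.cons 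
(.leaf 0 [(22,0)]) (.cons (.leaf 0 [(0,0)]) .nil)))))) (.cons (.leaf 1 [(1,1),(7,1),(4,1)]) (.cons 
(.keep [0,1,5,6,7] (.node (.cons (.leaf 2 [(8,1),(9,1),(6,1)]) (.cons (.leaf 1 [(2,1)]) (.cons 
(.leaf 2 [(8,1),(9,1),(6,1),(1,1)]) (.cons (.leaf 1 []) .nil)))))) .nil)))))) (.cons (.keep [0,3,5,7] (.node 
(.cons (.leaf 0 [(5,0)]) (.cons (.keep [2,5,6,7] (.node (.cons (.leaf 0 [(6,0)]) (.cons (.leaf 0 [(7,0)]) 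
(.cons (.leaf 0 [(8,0)]) (.cons (.leaf 0 [(0,0)]) .nil)))))) (.cons (.leaf 1 [(1,1),(6,1),(4,1)]) (.cons 
(.keep [0,1,6,7] (.node (.cons (.leaf 2 [(8,1),(7,1),(6,1)]) (.cons (.leaf 1 [(2,1)]) (.cons 
(.leaf 2 [(8,1),(7,1),(6,1),(1,1)]) (.cons (.leaf 1 []) .nil)))))) .nil)))))) .nil)))))) (.cons 
(.leaf 0 [(23,0)]) (.cons (.keep [1,6,7,8] (.node (.cons (.leaf 1 [(6,1)]) (.cons (.leaf 1 [(6,1),(3,1)]) 
(.cons (.keep [4,5,6,7,8] (.node (.cons (.leaf 0 [(24,0)]) (.cons (.keep [2,5,6,7,9] (.node (.cons 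
(.leaf 0 [(25,0)]) (.cons (.leaf 0 [(26,0)]) (.cons (.leaf 0 [(27,0)]) (.cons (.leaf 0 [(0,0)]) .nil)))))) 
(.cons (.leaf 1 [(1,1),(6,1),(7,1),(4,1)]) (.cons (.keep [0,1,5,6,7] (.node (.cons (.leaf 2 [(6,1),(9,1)]) 
(.cons (.leaf 1 [(2,1)]) (.cons (.leaf 2 [(1,1),(9,1),(6,1)]) (.cons (.leaf 1 []) .nil)))))) .nil)))))) 
(.cons (.keep [0,3,5,6,7] (.node (.cons (.leaf 0 [(5,0)]) (.cons (.keep [2,5,6,7,8] (.node (.cons 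
(.leaf 0 [(28,0)]) (.cons (.leaf 0 [(7,0)]) (.cons (.leaf 0 [(29,0)]) (.cons (.leaf 0 [(0,0)]) .nil)))))) 
(.cons (.leaf 1 [(1,1),(6,1),(4,1)]) (.cons (.keep [0,1,6,7,8] (.node (.cons (.leaf 2 [(9,1),(7,1),(6,1)]) 
(.cons (.leaf 1 [(2,1)]) (.cons (.leaf 2 [(9,1),(7,1),(6,1),(1,1)]) (.cons 
(.leaf 1 []) .nil)))))) .nil)))))) .nil)))))) (.cons (.leaf 0 [(30,0)]) .nil)))))) (.cons (.leaf 1 [(4,1)]) 
(.cons (.leaf 1 []) .nil))))))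

def s_24_18 : List (List ((ℕ × List (ℕ × ℕ)) × (ℕ × List (ℕ × ℕ)))) := [
  [((1, []), (1, []))],
  [((1, [(6,1)]), (2, [(7,1),(8,1)]))],
  [((1, [(6,1)]), (1, [(2,1),(7,1)]))],
  [((1, [(6,1)]), (1, [(4,1),(1,1),(8,1)]))],
  [((1, [(6,1)]), (1, [(7,1)]))],
  [((2, [(5,1)]), (1, [(6,1)]))],
  [((1, [(7,1),(6,1)]), (2, [(8,1),(7,1)]))],
  [((1, [(6,1),(7,1)]), (1, [(2,1)]))],
  [((1, [(4,1)]), (2, [(8,1),(7,1),(1,1)]))],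
  [((1, [(9,1)]), (1, [(2,1)]))],
  [((1, [(8,1)]), (1, [(7,1)]))],
  [((1, [(8,1)]), (2, [(7,1),(6,1)]))],
  [((1, [(2,1),(3,1)]), (1, [(2,1),(6,1),(7,1)]))],
  [((1, [(8,1)]), (1, [(4,1),(1,1)]))],
  [((1, [(8,1)]), (1, [(7,1),(6,1)]))],
  [((1, [(6,1),(5,1)]), (1, [(6,1),(7,1)]))],
  [((1, [(6,1),(7,1)]), (2, [(8,1),(7,1)]))],
  [((2, [(6,1),(2,1),(3,1)]), (1, [(2,1),(8,1)]))],
  [((1, [(6,1),(7,1)]), (1, [(4,1),(7,1),(1,1)]))],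
  [((1, [(6,1),(7,1)]), (1, [(8,1)]))],
  [((1, [(5,1)]), (1, [(7,1)]))],
  [((1, [(9,1)]), (2, [(7,1),(8,1)]))],
  [((1, [(4,1)]), (2, [(7,1),(8,1),(1,1)]))],
  [((1, [(8,1)]), (1, [(2,1),(6,1)]))],
  [((1, [(5,1)]), (1, [(7,1),(6,1)]))],
  [((2, [(7,1),(6,1)]), (2, [(8,1)]))],
  [((2, [(7,1),(6,1),(3,1)]), (1, [(2,1)]))],
  [((1, [(4,1)]), (2, [(1,1),(8,1)]))],
  [((1, [(7,1),(6,1)]), (2, [(9,1),(7,1)]))],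
  [((1, [(4,1)]), (2, [(9,1),(7,1),(1,1)]))],
  [((1, [(8,1)]), (1, [(6,1)]))]]

theorem red_24_18 (h : ∀ a b : ℕ → ℝ, Pat 24 a → Pat 18 b → NoM3 a b) : ESB (caseOf 4 24 18) :=
  esb_m3 (cs := [none, none, none, some 1]) (S := s_24_18) (t := t_24_18) (by decide) (by decide +kernel) rfl h

def t_24_19 : T := (.keep [0,1,2] (.node (.cons (.leaf 0 [(0,0)]) (.cons (.leaf 0 [(1,0)]) (.cons (.leaf 0 [(1,0)]) (.cons 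
(.leaf 1 [(5,1)]) (.cons (.leaf 1 [(5,1)]) (.cons (.leaf 1 []) .nil))))))))

def s_24_19 : List (List ((ℕ × List (ℕ × ℕ)) × (ℕ × List (ℕ × ℕ)))) := [
  [((1, []), (1, []))],
  [((1, [(8,1)]), (1, [(3,1)]))]]

theorem red_24_19 (h : ∀ a b : ℕ → ℝ, Pat 24 a → Pat 19 b → NoM3 a b) : ESB (caseOf 4 24 19) :=
  esb_m3 (cs := [none, none, none, some 1]) (S := s_24_19) (t := t_24_19) (by decide) (by decide +kernel) rfl h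

def t_25_16 : T := (.keep [0,1,2] (.node (.cons (.keep [0,2,5,6] (.node (.cons (.keep [3,6,7,8] (.node (.cons (.keep [2,3,6,7,8] 
(.node (.cons (.keep [2,3,5,7,8,9] (.node (.cons (.leaf 1 [(3,1)]) (.cons (.leaf 1 [(3,1)]) (.cons 
(.leaf 1 []) .nil))))) (.cons (.keep [1,3,5,6,7,8] (.node (.cons (.leaf 1 [(3,1)]) (.cons (.leaf 1 [(3,1)]) 
(.cons (.leaf 1 []) .nil))))) (.cons (.keep [0,1,5,6,8,9] (.node (.cons (.leaf 1 [(3,1)]) (.cons 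
(.leaf 1 [(3,1)]) (.cons (.leaf 1 []) .nil))))) .nil))))) (.cons (.keep [1,3,5,6,8] (.node (.cons 
(.keep [3,5,6,7,8,9] (.node (.cons (.leaf 1 [(3,1)]) (.cons (.leaf 1 [(3,1)]) (.cons (.leaf 1 []) .nil))))) 
(.cons (.keep [1,3,6,7,8,9] (.node (.cons (.leaf 1 [(3,1)]) (.cons (.leaf 1 [(3,1)]) (.cons 
(.leaf 1 []) .nil))))) (.cons (.keep [0,1,5,6,7,9] (.node (.cons (.leaf 1 [(3,1)]) (.cons (.leaf 1 [(3,1)]) 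
(.cons (.leaf 1 []) .nil))))) .nil))))) (.cons (.keep [0,1,5,6,7] (.node (.cons (.keep [2,3,6,7,8,9] (.node 
(.cons (.leaf 1 [(3,1)]) (.cons (.leaf 1 [(3,1)]) (.cons (.leaf 1 []) .nil))))) (.cons (.keep [1,3,5,7,8,9] 
(.node (.cons (.leaf 1 [(3,1)]) (.cons (.leaf 1 [(3,1)]) (.cons (.leaf 1 []) .nil))))) (.cons 
(.keep [0,2,6,7,9] (.node (.cons (.leaf 1 [(3,1)]) (.cons (.leaf 1 [(3,1)]) (.cons 
(.leaf 1 []) .nil))))) .nil))))) .nil))))) (.cons (.leaf 1 [(1,1)]) (.cons (.keep [0,1,6,8] (.node (.cons 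
(.keep [2,3,6,7,8] (.node (.cons (.keep [2,3,5,7,8,9] (.node (.cons (.leaf 1 [(3,1)]) (.cons 
(.leaf 1 [(3,1)]) (.cons (.leaf 1 []) .nil))))) (.cons (.keep [1,3,5,6,7,8,9] (.node (.cons (.leaf 1 [(3,1)]) 
(.cons (.leaf 1 [(3,1)]) (.cons (.leaf 1 []) .nil))))) (.cons (.keep [0,1,5,6,7,9] (.node (.cons 
(.leaf 1 [(3,1)]) (.cons (.leaf 1 [(3,1)]) (.cons (.leaf 1 []) .nil))))) .nil))))) (.cons (.keep [1,3,5,7,8] 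
(.node (.cons (.keep [2,3,5,8,9] (.node (.cons (.leaf 1 [(3,1)]) (.cons (.leaf 1 [(3,1)]) (.cons 
(.leaf 1 []) .nil))))) (.cons (.keep [1,3,6,7,8] (.node (.cons (.leaf 1 [(3,1)]) (.cons (.leaf 1 [(3,1)]) 
(.cons (.leaf 1 []) .nil))))) (.cons (.keep [0,1,2,5,6,7,9] (.node (.cons (.leaf 1 [(3,1)]) (.cons 
(.leaf 1 [(3,1)]) (.cons (.leaf 1 []) .nil))))) .nil))))) (.cons (.keep [0,2,6,7] (.node (.cons 
(.keep [2,3,5,6,7,8] (.node (.cons (.leaf 1 [(3,1)]) (.cons (.leaf 1 [(3,1)]) (.cons (.leaf 1 []) .nil))))) 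
(.cons (.keep [3,5,6,7,8] (.node (.cons (.leaf 1 [(3,1)]) (.cons (.leaf 1 [(3,1)]) (.cons 
(.leaf 1 []) .nil))))) (.cons (.keep [0,2,6,7] (.node (.cons (.leaf 1 [(3,1)]) (.cons (.leaf 1 [(3,1)]) 
(.cons (.leaf 1 []) .nil))))) .nil))))) .nil))))) .nil))))) (.cons (.keep [1,5,6,7] (.node (.cons 
(.keep [2,3,5,6,7] (.node (.cons (.keep [2,3,5,7,8,9] (.node (.cons (.keep [2,3,5,7,9,10] (.node (.cons 
(.leaf 0 [(0,0)]) (.cons (.leaf 1 [(1,1),(3,1)]) (.cons (.leaf 0 [(1,0)]) .nil))))) (.cons 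
(.keep [1,3,5,6,7,9] (.node (.cons (.leaf 0 [(2,0)]) (.cons (.leaf 1 [(8,1),(1,1),(3,1)]) (.cons 
(.leaf 0 [(1,0)]) .nil))))) (.cons (.keep [0,1,5,6,9,10] (.node (.cons (.leaf 1 [(3,1)]) (.cons 
(.leaf 1 [(3,1)]) (.cons (.leaf 1 []) .nil))))) .nil))))) (.cons (.keep [1,3,5,6,7,9] (.node (.cons 
(.keep [3,5,6,7,8,10] (.node (.cons (.leaf 0 [(0,0)]) (.cons (.leaf 1 [(1,1),(3,1)]) (.cons 
(.leaf 0 [(1,0)]) .nil))))) (.cons (.keep [1,3,6,7,8] (.node (.cons (.leaf 0 [(0,0)]) (.cons 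
(.leaf 1 [(7,1),(9,1),(1,1),(3,1)]) (.cons (.leaf 0 [(1,0)]) .nil))))) (.cons (.keep [0,1,5,6,8,10] (.node 
(.cons (.leaf 1 [(3,1)]) (.cons (.leaf 1 [(3,1)]) (.cons (.leaf 1 []) .nil))))) .nil))))) (.cons 
(.keep [0,1,5,6,7,8] (.node (.cons (.keep [2,3,6,7,8,10] (.node (.cons (.leaf 0 [(0,0)]) (.cons 
(.leaf 1 [(1,1),(3,1)]) (.cons (.leaf 0 [(1,0)]) .nil))))) (.cons (.keep [1,3,5,7,8,10] (.node (.cons 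
(.leaf 0 [(0,0)]) (.cons (.leaf 0 [(3,0)]) (.cons (.leaf 0 [(1,0)]) .nil))))) (.cons (.keep [0,2,6,8,10] 
(.node (.cons (.leaf 1 [(3,1)]) (.cons (.leaf 1 [(3,1)]) (.cons (.leaf 1 []) .nil))))) .nil))))) .nil))))) 
(.cons (.leaf 0 [(4,0)]) (.cons (.keep [0,1,5,7,8] (.node (.cons (.keep [2,3,6,7,8,9] (.node (.cons 
(.keep [2,3,5,7,9,10] (.node (.cons (.leaf 0 [(5,0)]) (.cons (.leaf 1 [(1,1),(3,1)]) (.cons 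
(.leaf 0 [(1,0)]) .nil))))) (.cons (.keep [1,3,5,6,7,10] (.node (.cons (.leaf 0 [(5,0)]) (.cons 
(.leaf 1 [(8,1),(1,1),(3,1)]) (.cons (.leaf 0 [(1,0)]) .nil))))) (.cons (.keep [0,1,5,6,7,9] (.node (.cons 
(.leaf 1 [(3,1)]) (.cons (.leaf 1 [(3,1)]) (.cons (.leaf 1 []) .nil))))) .nil))))) (.cons 
(.keep [1,3,5,7,8,9] (.node (.cons (.keep [2,3,5,9,10] (.node (.cons (.leaf 0 [(2,0)]) (.cons 
(.leaf 1 [(1,1),(3,1)]) (.cons (.leaf 0 [(1,0)]) .nil))))) (.cons (.keep [1,3,6,7,10] (.node (.cons 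
(.leaf 0 [(2,0)]) (.cons (.leaf 0 [(6,0)]) (.cons (.leaf 0 [(1,0)]) .nil))))) (.cons (.keep [0,1,2,5,6,7,9] 
(.node (.cons (.leaf 1 [(3,1)]) (.cons (.leaf 1 [(3,1)]) (.cons (.leaf 1 []) .nil))))) .nil))))) (.cons 
(.keep [0,2,6,7,9] (.node (.cons (.keep [2,3,6,7,9] (.node (.cons (.leaf 0 [(2,0)]) (.cons 
(.leaf 1 [(1,1),(3,1)]) (.cons (.leaf 0 [(1,0)]) .nil))))) (.cons (.keep [3,5,6,7,9] (.node (.cons 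
(.leaf 0 [(2,0)]) (.cons (.leaf 0 [(7,0)]) (.cons (.leaf 0 [(1,0)]) .nil))))) (.cons (.keep [0,2,6,7] (.node 
(.cons (.leaf 1 [(3,1)]) (.cons (.leaf 1 [(3,1)]) (.cons (.leaf 1 []) .nil))))) .nil))))) .nil))))) .nil))))) 
(.cons (.leaf 1 []) .nil)))))

def s_25_16 : List (List ((ℕ × List (ℕ × ℕ)) × (ℕ × List (ℕ × ℕ)))) := [
  [((1, [(8,1)]), (1, [(3,1)]))],
  [((1, []), (1, []))],
  [((1, [(9,1)]), (1, [(3,1)]))],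
  [((1, [(7,1),(1,1)]), (1, [(3,1)]))],
  [((1, [(8,1)]), (1, [(1,1)]))],
  [((1, [(10,1)]), (1, [(3,1)]))],
  [((1, [(7,1),(8,1),(1,1)]), (1, [(3,1)]))],
  [((1, [(6,1),(1,1)]), (1, [(3,1)]))]]

theorem red_25_16 (h : ∀ a b : ℕ → ℝ, Pat 25 a → Pat 16 b → NoM3 a b) : ESB (caseOf 4 25 16) :=
  esb_m3 (cs := [none, none, none, some 1]) (S := s_25_16) (t := t_25_16) (by decide) (by decide +kernel) rfl h

def t_25_17 : T := (.keep [0,1,2] (.node (.cons (.leaf 1 []) (.cons (.leaf 1 [(4,1)]) (.cons (.leaf 0 [(0,0)]) (.cons 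
(.leaf 0 [(1,0)]) (.cons (.leaf 1 [(5,1)]) (.cons (.leaf 1 []) .nil))))))))

def s_25_17 : List (List ((ℕ × List (ℕ × ℕ)) × (ℕ × List (ℕ × ℕ)))) := [
  [((1, []), (1, []))],
  [((1, [(8,1)]), (1, [(4,1)]))]]

theorem red_25_17 (h : ∀ a b : ℕ → ℝ, Pat 25 a → Pat 17 b → NoM3 a b) : ESB (caseOf 4 25 17) :=
  esb_m3 (cs := [none, none, none, some 1]) (S := s_25_17) (t := t_25_17) (by decide) (by decide +kernel) rfl h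

def t_25_18 : T := (.keep [0,1,2] (.node (.cons (.keep [2,5,6,7] (.node (.cons (.keep [3,6,7,8] (.node (.cons (.keep [2,5,7,8] 
(.node (.cons (.leaf 2 [(9,1)]) (.cons (.leaf 1 [(3,1)]) (.cons (.leaf 1 [(7,1),(1,1)]) (.cons 
(.leaf 1 [(3,1)]) (.cons (.leaf 2 [(9,1),(1,1)]) (.cons (.leaf 1 []) .nil)))))))) (.cons (.keep [0,2,4,8] 
(.node (.cons (.leaf 2 [(8,1),(9,1)]) (.cons (.leaf 1 [(3,1),(8,1)]) (.cons (.leaf 1 [(1,1)]) (.cons 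
(.leaf 1 [(1,1)]) (.cons (.leaf 2 [(8,1),(9,1),(1,1)]) (.cons (.leaf 1 [(8,1)]) .nil)))))))) (.cons 
(.keep [1,5,6,8,9] (.node (.cons (.leaf 2 [(9,1),(8,1)]) (.cons (.leaf 1 [(8,1),(3,1)]) (.cons 
(.leaf 1 [(7,1),(8,1),(1,1)]) (.cons (.leaf 1 [(8,1),(3,1)]) (.cons (.leaf 2 [(9,1),(8,1),(1,1)]) (.cons 
(.leaf 1 [(8,1)]) .nil)))))))) (.cons (.keep [1,3,4,6,8] (.node (.cons (.leaf 2 [(8,1),(9,1),(10,1)]) (.cons 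
(.leaf 1 [(9,1),(3,1),(8,1)]) (.cons (.leaf 1 [(9,1),(1,1)]) (.cons (.leaf 1 [(9,1),(1,1)]) (.cons 
(.leaf 2 [(8,1),(9,1),(10,1),(1,1)]) (.cons (.leaf 1 [(9,1),(8,1)]) .nil)))))))) (.cons (.leaf 1 [(5,1)]) 
(.cons (.leaf 1 []) .nil)))))))) (.cons (.leaf 1 [(3,1)]) (.cons (.leaf 1 [(7,1),(1,1)]) (.cons 
(.leaf 1 [(3,1)]) (.cons (.keep [1,5,6,7,9] (.node (.cons (.keep [2,5,6,8,9] (.node (.cons 
(.leaf 2 [(10,1),(8,1)]) (.cons (.leaf 1 [(8,1),(3,1)]) (.cons (.leaf 1 [(7,1),(8,1),(1,1)]) (.cons 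
(.leaf 1 [(8,1),(3,1)]) (.cons (.leaf 2 [(10,1),(8,1),(1,1)]) (.cons (.leaf 1 [(8,1)]) .nil)))))))) (.cons 
(.keep [2,4,6,7,9] (.node (.cons (.leaf 2 [(7,1),(8,1),(10,1)]) (.cons (.leaf 1 [(8,1),(3,1),(7,1)]) (.cons 
(.leaf 1 [(8,1),(1,1)]) (.cons (.leaf 1 [(8,1),(1,1)]) (.cons (.leaf 2 [(7,1),(8,1),(10,1),(1,1)]) (.cons 
(.leaf 1 [(8,1),(7,1)]) .nil)))))))) (.cons (.keep [1,5,7,9,10] (.node (.cons (.leaf 2 [(9,1)]) (.cons 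
(.leaf 1 [(3,1)]) (.cons (.leaf 1 [(7,1),(1,1)]) (.cons (.leaf 1 [(3,1)]) (.cons (.leaf 2 [(9,1),(1,1)]) 
(.cons (.leaf 1 []) .nil)))))))) (.cons (.keep [1,3,4,9,10] (.node (.cons (.leaf 2 [(8,1),(9,1)]) (.cons 
(.leaf 1 [(3,1),(8,1)]) (.cons (.leaf 1 [(1,1)]) (.cons (.leaf 1 [(1,1)]) (.cons 
(.leaf 2 [(8,1),(9,1),(1,1)]) (.cons (.leaf 1 [(8,1)]) .nil)))))))) (.cons (.leaf 1 [(5,1),(6,1)]) (.cons 
(.leaf 1 [(6,1)]) .nil)))))))) (.cons (.leaf 1 []) .nil)))))))) (.cons (.keep [0,2,4,7] (.node (.cons 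
(.keep [2,3,7,8,9] (.node (.cons (.keep [2,5,8,9,10] (.node (.cons (.leaf 1 [(8,1)]) (.cons 
(.leaf 1 [(3,1),(9,1)]) (.cons (.leaf 1 [(8,1),(1,1)]) (.cons (.leaf 1 [(3,1),(9,1)]) (.cons 
(.leaf 1 [(5,1),(1,1)]) (.cons (.leaf 1 [(9,1)]) .nil)))))))) (.cons (.keep [2,4,6,9,10] (.node (.cons 
(.leaf 1 [(2,1),(7,1)]) (.cons (.leaf 1 [(3,1),(7,1),(9,1)]) (.cons (.leaf 1 [(7,1)]) (.cons 
(.leaf 1 [(9,1),(1,1)]) (.cons (.leaf 1 [(5,1),(1,1)]) (.cons (.leaf 1 [(9,1),(7,1)]) .nil)))))))) (.cons 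
(.keep [1,5,7,8,9,10] (.node (.cons (.leaf 1 [(9,1)]) (.cons (.leaf 1 [(3,1),(10,1),(8,1)]) (.cons 
(.leaf 1 [(9,1),(1,1)]) (.cons (.leaf 1 [(3,1),(10,1),(8,1)]) (.cons (.leaf 1 [(5,1),(1,1)]) (.cons 
(.leaf 1 [(8,1),(10,1)]) .nil)))))))) (.cons (.keep [1,4,6,7,9,10] (.node (.cons (.leaf 1 [(2,1),(7,1)]) 
(.cons (.leaf 1 [(9,1),(3,1),(7,1),(10,1)]) (.cons (.leaf 1 [(7,1)]) (.cons (.leaf 1 [(9,1),(10,1),(1,1)]) 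
(.cons (.leaf 1 [(5,1),(1,1)]) (.cons (.leaf 1 [(9,1),(10,1),(7,1)]) .nil)))))))) (.cons 
(.leaf 1 [(5,1),(9,1)]) (.cons (.leaf 1 [(9,1)]) .nil)))))))) (.cons (.leaf 1 [(3,1),(8,1)]) (.cons 
(.leaf 1 [(1,1)]) (.cons (.leaf 1 [(1,1)]) (.cons (.keep [1,6,7,8,9] (.node (.cons (.keep [5,6,8,9,10] (.node 
(.cons (.leaf 1 [(8,1)]) (.cons (.leaf 1 [(3,1),(7,1),(9,1)]) (.cons (.leaf 1 [(8,1),(1,1)]) (.cons 
(.leaf 1 [(3,1),(7,1),(9,1)]) (.cons (.leaf 1 [(5,1),(1,1)]) (.cons (.leaf 1 [(9,1),(7,1)]) .nil)))))))) 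
(.cons (.keep [4,6,7,9,10] (.node (.cons (.leaf 1 [(2,1),(6,1)]) (.cons (.leaf 1 [(3,1),(7,1),(6,1),(9,1)]) 
(.cons (.leaf 1 [(6,1)]) (.cons (.leaf 1 [(9,1),(7,1),(1,1)]) (.cons (.leaf 1 [(5,1),(1,1)]) (.cons 
(.leaf 1 [(9,1),(7,1),(6,1)]) .nil)))))))) (.cons (.keep [1,5,8,9,10] (.node (.cons (.leaf 1 [(8,1)]) (.cons 
(.leaf 1 [(3,1),(9,1)]) (.cons (.leaf 1 [(8,1),(1,1)]) (.cons (.leaf 1 [(3,1),(9,1)]) (.cons 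
(.leaf 1 [(5,1),(1,1)]) (.cons (.leaf 1 [(9,1)]) .nil)))))))) (.cons (.keep [1,4,7,9,10] (.node (.cons 
(.leaf 1 [(2,1),(7,1)]) (.cons (.leaf 1 [(3,1),(7,1),(9,1)]) (.cons (.leaf 1 [(7,1)]) (.cons 
(.leaf 1 [(9,1),(1,1)]) (.cons (.leaf 1 [(5,1),(1,1)]) (.cons (.leaf 1 [(9,1),(7,1)]) .nil)))))))) (.cons 
(.leaf 1 [(5,1),(9,1),(6,1)]) (.cons (.leaf 1 [(9,1),(6,1)]) .nil)))))))) (.cons 
(.leaf 1 [(8,1)]) .nil)))))))) (.cons (.keep [1,5,7,8] (.node (.cons (.keep [3,6,7,9] (.node (.cons 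
(.leaf 1 []) (.cons (.leaf 1 [(4,1)]) (.cons (.leaf 1 [(6,1)]) (.cons (.leaf 1 [(4,1),(6,1)]) (.cons 
(.leaf 0 [(0,0)]) (.cons (.leaf 0 [(1,0)]) .nil)))))))) (.cons (.leaf 0 [(2,0)]) (.cons (.leaf 0 [(3,0)]) 
(.cons (.leaf 0 [(2,0)]) (.cons (.keep [1,5,7,8] (.node (.cons (.leaf 1 [(6,1)]) (.cons 
(.leaf 1 [(4,1),(6,1)]) (.cons (.leaf 1 []) (.cons (.leaf 1 [(4,1)]) (.cons (.leaf 0 [(4,0)]) (.cons 
(.leaf 0 [(5,0)]) .nil)))))))) (.cons (.leaf 0 [(1,0)]) .nil)))))))) (.cons (.keep [1,4,7,8] (.node (.cons 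
(.keep [2,3,7,8] (.node (.cons (.leaf 1 [(8,1)]) (.cons (.leaf 1 [(8,1),(4,1)]) (.cons 
(.leaf 1 [(7,1),(8,1)]) (.cons (.leaf 1 [(7,1),(8,1),(4,1)]) (.cons (.leaf 0 [(6,0)]) (.cons 
(.leaf 0 [(7,0)]) .nil)))))))) (.cons (.leaf 0 [(8,0)]) (.cons (.leaf 0 [(9,0)]) (.cons (.leaf 0 [(9,0)]) 
(.cons (.keep [1,7,8,9] (.node (.cons (.leaf 1 [(7,1),(6,1)]) (.cons (.leaf 1 [(7,1),(6,1),(4,1)]) (.cons 
(.leaf 1 [(7,1)]) (.cons (.leaf 1 [(7,1),(4,1)]) (.cons (.leaf 0 [(10,0)]) (.cons 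
(.leaf 0 [(11,0)]) .nil)))))))) (.cons (.leaf 0 [(12,0)]) .nil)))))))) (.cons (.leaf 1 [(5,1)]) (.cons 
(.leaf 1 []) .nil))))))))

def s_25_18 : List (List ((ℕ × List (ℕ × ℕ)) × (ℕ × List (ℕ × ℕ)))) := [
  [((1, [(9,1)]), (1, [(5,1)]))],
  [((1, []), (1, []))],
  [((1, [(9,1)]), (1, [(3,1)]))],
  [((1, [(9,1)]), (1, [(7,1),(1,1)]))],
  [((1, [(7,1)]), (1, [(5,1),(6,1)]))],
  [((1, [(0,1),(4,1)]), (1, [(6,1)]))],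
  [((1, [(6,1)]), (1, [(5,1),(8,1)]))],
  [((1, [(0,1),(4,1)]), (1, [(8,1)]))],
  [((1, [(2,1)]), (1, [(3,1),(7,1)]))],
  [((1, [(9,1)]), (1, [(1,1)]))],
  [((1, [(9,1)]), (1, [(5,1),(7,1),(6,1)]))],
  [((1, [(0,1),(4,1)]), (1, [(7,1),(6,1)]))],
  [((1, [(9,1)]), (1, [(7,1)]))]]

theorem red_25_18 (h : ∀ a b : ℕ → ℝ, Pat 25 a → Pat 18 b → NoM3 a b) : ESB (caseOf 4 25 18) :=
  esb_m3 (cs := [none, none, none, some 1]) (S := s_25_18) (t := t_25_18) (by decide) (by decide +kernel) rfl h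

def t_25_19 : T := (.keep [0,1,2] (.node (.cons (.leaf 1 []) (.cons (.leaf 1 [(4,1)]) (.cons (.leaf 1 [(4,1)]) (.cons 
(.leaf 0 [(0,0)]) (.cons (.leaf 0 [(1,0)]) (.cons (.leaf 0 [(1,0)]) (.cons (.leaf 1 [(6,1)]) (.cons 
(.leaf 1 [(6,1)]) (.cons (.leaf 1 []) .nil)))))))))))

def s_25_19 : List (List ((ℕ × List (ℕ × ℕ)) × (ℕ × List (ℕ × ℕ)))) := [
  [((1, []), (1, []))],
  [((1, [(9,1)]), (1, [(4,1)]))]]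

theorem red_25_19 (h : ∀ a b : ℕ → ℝ, Pat 25 a → Pat 19 b → NoM3 a b) : ESB (caseOf 4 25 19) :=
  esb_m3 (cs := [none, none, none, some 1]) (S := s_25_19) (t := t_25_19) (by decide) (by decide +kernel) rfl h

def t_26_16 : T := (.keep [0,1,2] (.node (.cons (.keep [2,3,5,6] (.node (.cons (.keep [2,3,5,7,8] (.node (.cons 
(.keep [2,3,7,8,9] (.node (.cons (.keep [2,3,5,8,9] (.node (.cons (.keep [2,3,5,8,9] (.node (.cons 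
(.leaf 0 [(0,0)]) (.cons (.keep [3,5,6,7,9] (.node (.cons (.leaf 1 [(3,1),(9,1),(2,1),(5,2)]) (.cons 
(.leaf 0 [(1,0)]) (.cons (.leaf 0 [(2,0)]) .nil))))) (.cons (.keep [0,2,5,6,7,8] (.node (.cons 
(.leaf 1 [(2,1),(10,1),(6,1),(3,1)]) (.cons (.leaf 0 [(3,0)]) (.cons (.leaf 0 [(4,0)]) .nil))))) .nil))))) 
(.cons (.keep [1,3,5,6,8] (.node (.cons (.leaf 1 [(2,1),(5,2),(9,1),(3,3)]) (.cons (.keep [3,5,7,8,9] (.node 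
(.cons (.leaf 1 [(3,1),(6,1),(5,2)]) (.cons (.leaf 1 [(6,1),(5,2),(3,1)]) (.cons 
(.leaf 1 [(6,1),(5,2)]) .nil))))) (.cons (.keep [0,2,5,8,9] (.node (.cons (.leaf 1 [(7,1),(3,1)]) (.cons 
(.leaf 1 [(7,1),(3,1)]) (.cons (.leaf 1 [(7,1)]) .nil))))) .nil))))) (.cons (.keep [0,1,2,5,6,9] (.node 
(.cons (.leaf 0 [(5,0)]) (.cons (.keep [3,5,6,8,9,10] (.node (.cons (.leaf 1 [(3,1),(7,1),(2,1),(5,1)]) 
(.cons (.leaf 0 [(6,0)]) (.cons (.leaf 0 [(7,0)]) .nil))))) (.cons (.keep [0,2,6,8,9] (.node (.cons 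
(.leaf 1 [(2,1),(7,1),(6,1),(3,1)]) (.cons (.leaf 0 [(8,0)]) (.cons 
(.leaf 0 [(9,0)]) .nil))))) .nil))))) .nil))))) (.cons (.keep [1,3,5,6,7,8] (.node (.cons (.keep [2,3,5,9,10] 
(.node (.cons (.leaf 0 [(10,0)]) (.cons (.leaf 0 [(11,0)]) (.cons (.leaf 0 [(12,0)]) .nil))))) (.cons 
(.keep [1,3,5,8,9,10] (.node (.cons (.leaf 1 [(6,1),(3,2),(5,1)]) (.cons (.leaf 1 [(5,1),(3,2),(6,1)]) (.cons 
(.leaf 1 [(5,1),(6,1)]) .nil))))) (.cons (.keep [0,1,2,5,8,9] (.node (.cons (.leaf 0 [(13,0)]) (.cons 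
(.leaf 0 [(14,0)]) (.cons (.leaf 0 [(4,0)]) .nil))))) .nil))))) (.cons (.keep [0,1,2,5,6,8] (.node (.cons 
(.keep [2,3,6,8,9] (.node (.cons (.leaf 1 [(3,2),(2,1)]) (.cons (.keep [5,6,7,8,9] (.node (.cons 
(.leaf 1 [(2,1),(3,1),(5,1)]) (.cons (.leaf 1 [(7,1),(5,1),(6,2),(3,1)]) (.cons 
(.leaf 1 [(7,1),(5,1),(6,2)]) .nil))))) (.cons (.keep [0,2,5,6,7] (.node (.cons 
(.leaf 1 [(3,1),(2,1),(6,1),(7,1)]) (.cons (.leaf 1 [(8,1),(3,1)]) (.cons 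
(.leaf 1 [(8,1)]) .nil))))) .nil))))) (.cons (.keep [3,5,6,8,9,10] (.node (.cons 
(.leaf 1 [(3,1),(7,1),(2,1),(5,1)]) (.cons (.keep [3,5,6,7,8,10] (.node (.cons (.leaf 1 [(3,1),(2,1)]) (.cons 
(.leaf 1 [(6,1),(5,1),(3,1)]) (.cons (.leaf 1 [(6,1),(5,1)]) .nil))))) (.cons (.keep [0,2,5,7,10] (.node 
(.cons (.leaf 1 [(2,1),(6,1),(3,1)]) (.cons (.leaf 1 [(7,1),(3,1)]) (.cons 
(.leaf 1 [(7,1)]) .nil))))) .nil))))) (.cons (.keep [0,2,6,8,9] (.node (.cons 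
(.leaf 1 [(2,1),(7,1),(6,1),(3,1)]) (.cons (.keep [3,5,6,7,8] (.node (.cons (.leaf 1 [(3,1),(5,1)]) (.cons 
(.leaf 1 [(5,1),(3,1)]) (.cons (.leaf 1 [(5,1)]) .nil))))) (.cons (.keep [0,2,6,7] (.node (.cons 
(.leaf 1 [(3,1)]) (.cons (.leaf 1 [(3,1)]) (.cons (.leaf 1 []) .nil))))) .nil))))) .nil))))) .nil))))) (.cons 
(.keep [1,3,6,7,8,9] (.node (.cons (.keep [2,3,5,10] (.node (.cons (.keep [3,5,6,7,8] (.node (.cons 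
(.leaf 1 [(3,1),(2,1)]) (.cons (.keep [5,6,7,8,9] (.node (.cons (.leaf 1 [(3,1),(5,1)]) (.cons 
(.leaf 1 [(3,1),(5,1)]) (.cons (.leaf 1 [(5,1)]) .nil))))) (.cons (.keep [0,2,5,7,8,9] (.node (.cons 
(.leaf 1 [(3,1),(7,1)]) (.cons (.leaf 1 [(7,1),(3,1)]) (.cons (.leaf 1 [(7,1)]) .nil))))) .nil))))) (.cons 
(.keep [3,5,6,7,8] (.node (.cons (.leaf 1 [(2,1),(8,1),(5,2),(9,1)]) (.cons (.keep [5,6,7,8,9] (.node (.cons 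
(.leaf 1 [(5,1),(3,1)]) (.cons (.leaf 1 [(5,1),(3,1)]) (.cons (.leaf 1 [(5,1)]) .nil))))) (.cons 
(.keep [0,2,5,7,8,9] (.node (.cons (.leaf 1 [(2,1),(6,1),(3,1)]) (.cons (.leaf 1 [(7,1),(3,1)]) (.cons 
(.leaf 1 [(7,1)]) .nil))))) .nil))))) (.cons (.keep [0,2,6,7,8] (.node (.cons 
(.leaf 1 [(2,1),(8,1),(6,1),(9,1)]) (.cons (.keep [5,6,7,8,9] (.node (.cons (.leaf 1 [(3,1)]) (.cons 
(.leaf 1 [(3,1)]) (.cons (.leaf 1 []) .nil))))) (.cons (.keep [0,2,6,7,8] (.node (.cons (.leaf 1 [(3,1)]) 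
(.cons (.leaf 1 [(3,1)]) (.cons (.leaf 1 []) .nil))))) .nil))))) .nil))))) (.cons (.keep [1,3,5,8,10] (.node 
(.cons (.leaf 1 [(3,2),(5,1)]) (.cons (.leaf 1 [(5,1),(3,2)]) (.cons (.leaf 1 [(5,1)]) .nil))))) (.cons 
(.keep [0,1,2,5,7,10] (.node (.cons (.keep [2,3,6,9,10] (.node (.cons (.leaf 1 [(3,1),(2,1)]) (.cons 
(.keep [1,5,6,7,9] (.node (.cons (.leaf 1 [(3,1),(7,1)]) (.cons (.leaf 1 [(3,1),(7,1)]) (.cons 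
(.leaf 1 [(7,1)]) .nil))))) (.cons (.keep [0,2,5,6,7] (.node (.cons (.leaf 1 [(3,1),(2,1),(6,1),(7,1)]) 
(.cons (.leaf 1 [(8,1),(3,1)]) (.cons (.leaf 1 [(8,1)]) .nil))))) .nil))))) (.cons (.keep [3,5,6,8,10] (.node 
(.cons (.leaf 1 [(2,1),(7,1),(5,1)]) (.cons (.keep [3,5,6,7,9] (.node (.cons (.leaf 1 [(6,1),(3,1)]) (.cons 
(.leaf 1 [(6,1),(3,1)]) (.cons (.leaf 1 [(6,1)]) .nil))))) (.cons (.keep [0,2,5,7,9] (.node (.cons 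
(.leaf 1 [(2,1),(6,1),(3,1)]) (.cons (.leaf 1 [(7,1),(3,1)]) (.cons (.leaf 1 [(7,1)]) .nil))))) .nil))))) 
(.cons (.keep [0,2,6,8,10] (.node (.cons (.leaf 1 [(2,1),(7,1),(6,1)]) (.cons (.keep [3,5,6,7,9] (.node 
(.cons (.leaf 1 [(3,1)]) (.cons (.leaf 1 [(3,1)]) (.cons (.leaf 1 []) .nil))))) (.cons (.keep [0,2,6,7] 
(.node (.cons (.leaf 1 [(3,1)]) (.cons (.leaf 1 [(3,1)]) (.cons 
(.leaf 1 []) .nil))))) .nil))))) .nil))))) .nil))))) (.cons (.keep [0,1,2,5,6,7] (.node (.cons 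
(.keep [2,3,6,8,10] (.node (.cons (.leaf 1 [(2,1),(7,1),(5,1),(3,1)]) (.cons (.keep [5,6,7,8,9] (.node (.cons 
(.leaf 2 [(2,1),(7,1),(5,2),(3,2)]) (.cons (.leaf 1 [(7,1),(5,1),(3,1),(6,1)]) (.cons 
(.leaf 1 [(7,1),(5,1),(6,1)]) .nil))))) (.cons (.keep [0,2,5,6,7] (.node (.cons (.leaf 1 [(3,1)]) (.cons 
(.leaf 1 [(3,1)]) (.cons (.leaf 1 []) .nil))))) .nil))))) (.cons (.keep [3,5,6,8,10] (.node (.cons 
(.leaf 1 [(2,1),(7,1),(3,1)]) (.cons (.keep [3,5,6,7,8] (.node (.cons (.leaf 1 [(3,1),(5,1)]) (.cons 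
(.leaf 1 [(5,1),(3,1)]) (.cons (.leaf 1 [(5,1)]) .nil))))) (.cons (.keep [0,2,5,6,7] (.node (.cons 
(.leaf 1 [(3,1)]) (.cons (.leaf 1 [(3,1)]) (.cons (.leaf 1 []) .nil))))) .nil))))) (.cons (.keep [0,2,6,8,9] 
(.node (.cons (.leaf 1 [(2,1),(7,1),(6,1),(3,1)]) (.cons (.keep [3,5,6,7,8] (.node (.cons 
(.leaf 1 [(3,1),(5,1)]) (.cons (.leaf 1 [(5,1),(3,1)]) (.cons (.leaf 1 [(5,1)]) .nil))))) (.cons 
(.keep [0,2,6,7] (.node (.cons (.leaf 1 [(3,1)]) (.cons (.leaf 1 [(3,1)]) (.cons 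
(.leaf 1 []) .nil))))) .nil))))) .nil))))) .nil))))) (.cons (.keep [1,3,5,7] (.node (.cons (.keep [2,3,5,7,8] 
(.node (.cons (.keep [2,3,7,8,9] (.node (.cons (.leaf 1 [(2,1),(7,1),(5,1),(9,1)]) (.cons (.keep [1,5,6,7,9] 
(.node (.cons (.leaf 1 [(3,1)]) (.cons (.leaf 1 [(3,1)]) (.cons (.leaf 1 []) .nil))))) (.cons 
(.keep [0,2,5,6,7] (.node (.cons (.leaf 1 [(3,1)]) (.cons (.leaf 1 [(3,1)]) (.cons 
(.leaf 1 []) .nil))))) .nil))))) (.cons (.keep [3,6,7,8,9] (.node (.cons (.leaf 1 [(2,1),(7,1),(9,1)]) (.cons 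
(.keep [5,6,7,8,9] (.node (.cons (.leaf 1 [(3,1)]) (.cons (.leaf 1 [(3,1)]) (.cons (.leaf 1 []) .nil))))) 
(.cons (.keep [0,2,5,6,7,8] (.node (.cons (.leaf 1 [(3,1)]) (.cons (.leaf 1 [(3,1)]) (.cons 
(.leaf 1 []) .nil))))) .nil))))) (.cons (.keep [0,2,6,7,9] (.node (.cons (.leaf 1 [(2,1),(8,1),(6,1),(9,1)]) 
(.cons (.keep [5,6,7,8,9] (.node (.cons (.leaf 1 [(3,1)]) (.cons (.leaf 1 [(3,1)]) (.cons 
(.leaf 1 []) .nil))))) (.cons (.keep [0,2,6,7,8] (.node (.cons (.leaf 1 [(3,1)]) (.cons (.leaf 1 [(3,1)]) 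
(.cons (.leaf 1 []) .nil))))) .nil))))) .nil))))) (.cons (.keep [1,3,5,6,8] (.node (.cons 
(.leaf 1 [(3,1),(5,1)]) (.cons (.leaf 1 [(3,1),(5,1)]) (.cons (.leaf 1 [(5,1)]) .nil))))) (.cons 
(.keep [0,1,2,5,8] (.node (.cons (.keep [2,3,6,7,9] (.node (.cons (.leaf 1 [(2,1),(7,1),(5,1)]) (.cons 
(.keep [5,6,7,8,9] (.node (.cons (.leaf 1 [(3,1)]) (.cons (.leaf 1 [(3,1)]) (.cons (.leaf 1 []) .nil))))) 
(.cons (.keep [0,2,5,6,7] (.node (.cons (.leaf 1 [(3,1)]) (.cons (.leaf 1 [(3,1)]) (.cons 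
(.leaf 1 []) .nil))))) .nil))))) (.cons (.keep [3,5,6,8,9] (.node (.cons (.leaf 1 [(2,1),(7,1)]) (.cons 
(.keep [3,5,6,7,9] (.node (.cons (.leaf 1 [(3,1)]) (.cons (.leaf 1 [(3,1)]) (.cons (.leaf 1 []) .nil))))) 
(.cons (.keep [0,2,5,6,7] (.node (.cons (.leaf 1 [(3,1)]) (.cons (.leaf 1 [(3,1)]) (.cons 
(.leaf 1 []) .nil))))) .nil))))) (.cons (.keep [0,2,6,8,9] (.node (.cons (.leaf 1 [(2,1),(7,1),(6,1)]) (.cons 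
(.keep [3,5,6,7,9] (.node (.cons (.leaf 1 [(3,1)]) (.cons (.leaf 1 [(3,1)]) (.cons (.leaf 1 []) .nil))))) 
(.cons (.keep [0,2,6,7] (.node (.cons (.leaf 1 [(3,1)]) (.cons (.leaf 1 [(3,1)]) (.cons 
(.leaf 1 []) .nil))))) .nil))))) .nil))))) .nil))))) (.cons (.keep [0,1,2,5] (.node (.cons (.keep [2,3,6,7,8] 
(.node (.cons (.leaf 1 [(2,1),(7,1),(5,1)]) (.cons (.keep [5,6,7,8,9] (.node (.cons (.leaf 1 [(3,1)]) (.cons 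
(.leaf 1 [(3,1)]) (.cons (.leaf 1 []) .nil))))) (.cons (.keep [0,2,5,6,7] (.node (.cons (.leaf 1 [(3,1)]) 
(.cons (.leaf 1 [(3,1)]) (.cons (.leaf 1 []) .nil))))) .nil))))) (.cons (.keep [3,5,6,8] (.node (.cons 
(.leaf 1 [(2,1),(7,1)]) (.cons (.keep [3,5,6,7,8] (.node (.cons (.leaf 1 [(3,1)]) (.cons (.leaf 1 [(3,1)]) 
(.cons (.leaf 1 []) .nil))))) (.cons (.keep [0,2,5,6,7] (.node (.cons (.leaf 1 [(3,1)]) (.cons 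
(.leaf 1 [(3,1)]) (.cons (.leaf 1 []) .nil))))) .nil))))) (.cons (.keep [0,2,6,8] (.node (.cons 
(.leaf 1 [(2,1),(7,1),(6,1)]) (.cons (.keep [3,5,6,7,8] (.node (.cons (.leaf 1 [(3,1)]) (.cons 
(.leaf 1 [(3,1)]) (.cons (.leaf 1 []) .nil))))) (.cons (.keep [0,2,6,7] (.node (.cons (.leaf 1 [(3,1)]) 
(.cons (.leaf 1 [(3,1)]) (.cons (.leaf 1 []) .nil))))) .nil))))) .nil))))) .nil))))) (.cons (.keep [1,3,6,7] 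
(.node (.cons (.keep [2,3,5,7,8] (.node (.cons (.keep [2,3,6,7,8,9] (.node (.cons (.keep [2,5,8,9,10] (.node 
(.cons (.leaf 0 [(15,0)]) (.cons (.leaf 1 [(7,1),(1,1),(5,1),(9,1)]) (.cons (.leaf 0 [(9,0)]) .nil))))) 
(.cons (.keep [1,5,6,7,8,10] (.node (.cons (.leaf 0 [(16,0)]) (.cons (.leaf 0 [(16,0)]) (.cons 
(.leaf 0 [(9,0)]) .nil))))) (.cons (.keep [0,2,5,6,8] (.node (.cons (.leaf 1 [(3,1)]) (.cons 
(.leaf 1 [(3,1)]) (.cons (.leaf 1 []) .nil))))) .nil))))) (.cons (.keep [1,6,7,8] (.node (.cons 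
(.keep [2,5,6,7,8] (.node (.cons (.leaf 0 [(17,0)]) (.cons (.leaf 2 [(6,1),(3,1),(1,1)]) (.cons 
(.leaf 0 [(9,0)]) .nil))))) (.cons (.keep [5,6,7,8] (.node (.cons (.leaf 0 [(18,0)]) (.cons 
(.leaf 2 [(5,1),(6,1),(1,1),(3,2)]) (.cons (.leaf 0 [(9,0)]) .nil))))) (.cons (.keep [0,2,5,6,7,8] (.node 
(.cons (.leaf 1 [(3,1)]) (.cons (.leaf 1 [(3,1)]) (.cons (.leaf 1 []) .nil))))) .nil))))) (.cons 
(.keep [0,1,6,7] (.node (.cons (.leaf 1 [(6,1),(2,1)]) (.cons (.keep [5,6,7,8] (.node (.cons 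
(.leaf 0 [(19,0)]) (.cons (.leaf 0 [(19,0)]) (.cons (.leaf 0 [(9,0)]) .nil))))) (.cons (.keep [0,2,6,7,8] 
(.node (.cons (.leaf 1 [(3,1)]) (.cons (.leaf 1 [(3,1)]) (.cons (.leaf 1 []) .nil))))) .nil))))) .nil))))) 
(.cons (.keep [1,3,5,8] (.node (.cons (.leaf 0 [(20,0)]) (.cons (.leaf 1 [(6,1),(1,1)]) (.cons 
(.leaf 0 [(21,0)]) .nil))))) (.cons (.keep [0,1,2,5,8] (.node (.cons (.keep [2,3,6,9] (.node (.cons 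
(.leaf 0 [(22,0)]) (.cons (.keep [5,6,7,8] (.node (.cons (.leaf 0 [(8,0)]) (.cons (.leaf 0 [(8,0)]) (.cons 
(.leaf 0 [(9,0)]) .nil))))) (.cons (.keep [0,2,5,6,7] (.node (.cons (.leaf 1 [(3,1)]) (.cons 
(.leaf 1 [(3,1)]) (.cons (.leaf 1 []) .nil))))) .nil))))) (.cons (.keep [1,3,5,6,8] (.node (.cons 
(.leaf 0 [(23,0)]) (.cons (.keep [3,5,6,7,8] (.node (.cons (.leaf 0 [(24,0)]) (.cons 
(.leaf 1 [(7,1),(1,1),(3,1)]) (.cons (.leaf 0 [(9,0)]) .nil))))) (.cons (.keep [0,2,6,7,8] (.node (.cons 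
(.leaf 1 [(3,1)]) (.cons (.leaf 1 [(3,1)]) (.cons (.leaf 1 []) .nil))))) .nil))))) (.cons (.keep [0,1,2,6,8] 
(.node (.cons (.leaf 1 [(6,1),(2,1)]) (.cons (.keep [3,5,6,7,8] (.node (.cons (.leaf 0 [(25,0)]) (.cons 
(.leaf 0 [(25,0)]) (.cons (.leaf 0 [(9,0)]) .nil))))) (.cons (.keep [0,2,7,8] (.node (.cons (.leaf 1 [(3,1)]) 
(.cons (.leaf 1 [(3,1)]) (.cons (.leaf 1 []) .nil))))) .nil))))) .nil))))) .nil))))) (.cons 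
(.leaf 1 []) .nil)))))

def s_26_16 : List (List ((ℕ × List (ℕ × ℕ)) × (ℕ × List (ℕ × ℕ)))) := [
  [((1, [(7,2),(8,4),(2,1)]), (1, [(3,2),(2,1)]))],
  [((1, [(8,1),(9,2),(5,1)]), (1, [(5,1),(7,1),(3,1)]))],
  [((1, [(9,1)]), (1, [(5,1),(7,1)]))],
  [((1, [(10,2),(9,1)]), (1, [(8,1),(3,1)]))],
  [((1, [(10,1)]), (1, [(8,1)]))],
  [((1, [(8,2),(6,1),(2,1)]), (1, [(2,1),(6,1),(3,2)]))],
  [((1, [(10,1),(8,1)]), (1, [(5,1),(3,1)]))],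
  [((1, [(10,1)]), (1, [(5,1)]))],
  [((1, [(8,1)]), (1, [(3,1)]))],
  [((1, []), (1, []))],
  [((1, [(8,2),(3,1),(7,1)]), (1, [(3,2),(2,1)]))],
  [((3, [(1,1),(8,4),(7,2)]), (1, [(7,1),(3,1),(6,2)]))],
  [((1, [(8,2),(7,1)]), (1, [(7,1),(6,2)]))],
  [((1, [(10,1)]), (1, [(2,1),(6,1),(3,2)]))],
  [((1, [(10,1)]), (1, [(8,1),(3,1)]))],
  [((1, [(9,1)]), (1, [(3,1)]))],
  [((1, [(10,1)]), (1, [(3,1)]))],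
  [((1, [(7,1),(9,1),(6,1)]), (1, [(3,1)]))],
  [((1, [(6,1),(8,1),(5,1)]), (1, [(3,1)]))],
  [((1, [(5,1),(6,1)]), (1, [(3,1)]))],
  [((1, [(8,1)]), (1, [(3,1),(5,1)]))],
  [((1, [(0,1),(1,1)]), (1, [(5,1)]))],
  [((1, [(8,1)]), (1, [(2,1),(7,1),(5,1)]))],
  [((1, [(7,1),(5,1)]), (1, [(2,1),(8,1)]))],
  [((1, [(6,1),(8,1)]), (1, [(3,1)]))],
  [((1, [(6,1),(7,1)]), (1, [(3,1)]))]]

theorem red_26_16 (h : ∀ a b : ℕ → ℝ, Pat 26 a → Pat 16 b → NoM3 a b) : ESB (caseOf 4 26 16) :=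
  esb_m3 (cs := [none, none, none, some 1]) (S := s_26_16) (t := t_26_16) (by decide) (by decide +kernel) rfl h

def t_26_17 : T := (.keep [0,1,2] (.node (.cons (.keep [0,2,5,7] (.node (.cons (.keep [0,2,5,7,8] (.node (.cons 
(.leaf 0 [(0,0)]) (.cons (.leaf 0 [(1,0)]) (.cons (.leaf 1 [(8,1)]) (.cons (.leaf 1 [(8,1),(4,1)]) (.cons 
(.leaf 1 [(5,1)]) (.cons (.leaf 1 []) .nil)))))))) (.cons (.keep [3,4,7,8,9] (.node (.cons (.leaf 0 [(2,0)]) 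
(.cons (.leaf 0 [(3,0)]) (.cons (.leaf 1 []) (.cons (.leaf 1 [(4,1)]) (.cons (.leaf 1 [(7,1),(5,1)]) (.cons 
(.leaf 1 [(7,1)]) .nil)))))))) (.cons (.leaf 1 [(8,1)]) (.cons (.leaf 1 [(8,1),(4,1)]) (.cons 
(.leaf 1 [(5,1)]) (.cons (.leaf 1 []) .nil)))))))) (.cons (.keep [3,4,6,7,8] (.node (.cons 
(.keep [2,5,7,8,10] (.node (.cons (.leaf 0 [(4,0)]) (.cons (.leaf 0 [(5,0)]) (.cons (.leaf 1 [(8,1),(7,1)]) 
(.cons (.leaf 1 [(8,1),(7,1),(4,1)]) (.cons (.leaf 1 [(8,1),(5,1)]) (.cons (.leaf 1 [(8,1)]) .nil)))))))) 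
(.cons (.keep [4,6,7,9,10] (.node (.cons (.leaf 0 [(6,0)]) (.cons (.leaf 0 [(7,0)]) (.cons (.leaf 1 [(8,1)]) 
(.cons (.leaf 1 [(8,1),(4,1)]) (.cons (.leaf 1 [(8,1),(6,1),(5,1)]) (.cons 
(.leaf 1 [(8,1),(6,1)]) .nil)))))))) (.cons (.leaf 1 []) (.cons (.leaf 1 [(4,1)]) (.cons 
(.leaf 1 [(7,1),(5,1)]) (.cons (.leaf 1 [(7,1)]) .nil)))))))) (.cons (.leaf 0 [(0,0)]) (.cons 
(.leaf 0 [(8,0)]) (.cons (.leaf 1 [(5,1)]) (.cons (.leaf 1 []) .nil))))))))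

def s_26_17 : List (List ((ℕ × List (ℕ × ℕ)) × (ℕ × List (ℕ × ℕ)))) := [
  [((1, []), (1, []))],
  [((1, [(9,1)]), (1, [(4,1)]))],
  [((1, [(8,1)]), (1, [(7,1)]))],
  [((1, [(8,1)]), (1, [(7,1),(4,1)]))],
  [((1, [(9,1)]), (1, [(8,1)]))],
  [((1, [(10,1)]), (1, [(8,1),(4,1)]))],
  [((1, [(9,1)]), (1, [(8,1),(6,1)]))],
  [((1, [(10,1)]), (1, [(8,1),(6,1),(4,1)]))],
  [((1, [(8,1)]), (1, [(4,1)]))]]

theorem red_26_17 (h : ∀ a b : ℕ → ℝ, Pat 26 a → Pat 17 b → NoM3 a b) : ESB (caseOf 4 26 17) :=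
  esb_m3 (cs := [none, none, none, some 1]) (S := s_26_17) (t := t_26_17) (by decide) (by decide +kernel) rfl h

def t_26_18 : T := (.keep [0,1,2] (.node (.cons (.leaf 1 []) (.cons (.leaf 1 [(4,1)]) (.cons (.keep [1,5,7,8] (.node (.cons 
(.leaf 0 [(0,0)]) (.cons (.leaf 0 [(1,0)]) (.cons (.leaf 0 [(2,0)]) (.cons (.leaf 0 [(3,0)]) (.cons 
(.leaf 0 [(4,0)]) (.cons (.leaf 0 [(0,0)]) .nil)))))))) (.cons (.keep [3,4,7,8] (.node (.cons 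
(.leaf 0 [(5,0)]) (.cons (.leaf 0 [(6,0)]) (.cons (.leaf 0 [(7,0)]) (.cons (.leaf 0 [(6,0)]) (.cons 
(.leaf 0 [(7,0)]) (.cons (.leaf 0 [(5,0)]) .nil)))))))) (.cons (.leaf 1 [(5,1)]) (.cons 
(.leaf 1 []) .nil))))))))

def s_26_18 : List (List ((ℕ × List (ℕ × ℕ)) × (ℕ × List (ℕ × ℕ)))) := [
  [((1, []), (1, []))],
  [((1, [(4,1)]), (1, [(3,1)]))],
  [((1, [(9,1)]), (1, [(1,1)]))],
  [((1, [(9,1)]), (1, [(3,1)]))],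
  [((1, [(5,1)]), (1, [(1,1)]))],
  [((1, [(9,1)]), (1, [(7,1)]))],
  [((1, [(9,1)]), (1, [(3,1),(7,1)]))],
  [((1, [(9,1)]), (1, [(7,1),(1,1)]))]]

theorem red_26_18 (h : ∀ a b : ℕ → ℝ, Pat 26 a → Pat 18 b → NoM3 a b) : ESB (caseOf 4 26 18) :=
  esb_m3 (cs := [none, none, none, some 1]) (S := s_26_18) (t := t_26_18) (by decide) (by decide +kernel) rfl h

def t_26_19 : T := (.keep [0,1,2] (.node (.cons (.leaf 1 [(5,1)]) (.cons (.leaf 1 []) (.cons (.leaf 1 [(5,1)]) (.cons 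
(.leaf 0 [(0,0)]) (.cons (.leaf 0 [(1,0)]) (.cons (.leaf 0 [(1,0)]) (.cons (.leaf 1 [(6,1)]) (.cons 
(.leaf 1 [(6,1)]) (.cons (.leaf 1 []) .nil)))))))))))

def s_26_19 : List (List ((ℕ × List (ℕ × ℕ)) × (ℕ × List (ℕ × ℕ)))) := [
  [((1, []), (1, []))],
  [((1, [(9,1)]), (1, [(4,1)]))]]

theorem red_26_19 (h : ∀ a b : ℕ → ℝ, Pat 26 a → Pat 19 b → NoM3 a b) : ESB (caseOf 4 26 19) :=
  esb_m3 (cs := [none, none, none, some 1]) (S := s_26_19) (t := t_26_19) (by decide) (by decide +kernel) rfl h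

def t_27_17 : T := (.keep [0,1,2] (.node (.cons (.leaf 1 []) (.cons (.leaf 1 [(5,1)]) (.cons (.keep [1,3,6,8] (.node (.cons 
(.leaf 1 []) (.cons (.leaf 1 [(5,1)]) (.cons (.keep [1,6,8,9] (.node (.cons (.leaf 1 []) (.cons 
(.leaf 1 [(5,1)]) (.cons (.leaf 0 [(0,0)]) (.cons (.leaf 0 [(1,0)]) (.cons (.leaf 1 [(8,1)]) (.cons 
(.leaf 1 [(8,1),(5,1)]) (.cons (.leaf 1 [(6,1)]) (.cons (.leaf 1 []) .nil)))))))))) (.cons 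
(.keep [4,5,8,9,10] (.node (.cons (.leaf 1 [(8,1)]) (.cons (.leaf 1 [(8,1),(5,1)]) (.cons (.leaf 0 [(2,0)]) 
(.cons (.leaf 0 [(3,0)]) (.cons (.leaf 1 []) (.cons (.leaf 1 [(5,1)]) (.cons (.leaf 1 [(8,1),(6,1)]) (.cons 
(.leaf 1 [(8,1)]) .nil)))))))))) (.cons (.leaf 1 [(9,1)]) (.cons (.leaf 1 [(9,1),(5,1)]) (.cons 
(.leaf 1 [(6,1)]) (.cons (.leaf 1 []) .nil)))))))))) (.cons (.keep [4,5,7,8,9] (.node (.cons 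
(.leaf 1 [(8,1)]) (.cons (.leaf 1 [(8,1),(5,1)]) (.cons (.keep [3,6,8,9,11] (.node (.cons (.leaf 1 [(9,1)]) 
(.cons (.leaf 1 [(9,1),(5,1)]) (.cons (.leaf 0 [(4,0)]) (.cons (.leaf 0 [(5,0)]) (.cons 
(.leaf 1 [(9,1),(8,1)]) (.cons (.leaf 1 [(9,1),(8,1),(5,1)]) (.cons (.leaf 1 [(9,1),(6,1)]) (.cons 
(.leaf 1 [(9,1)]) .nil)))))))))) (.cons (.keep [5,7,8,10,11] (.node (.cons (.leaf 1 [(9,1),(7,1)]) (.cons 
(.leaf 1 [(9,1),(7,1),(5,1)]) (.cons (.leaf 0 [(6,0)]) (.cons (.leaf 0 [(7,0)]) (.cons (.leaf 1 [(9,1)]) 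
(.cons (.leaf 1 [(9,1),(5,1)]) (.cons (.leaf 1 [(9,1),(7,1),(6,1)]) (.cons 
(.leaf 1 [(9,1),(7,1)]) .nil)))))))))) (.cons (.leaf 1 []) (.cons (.leaf 1 [(5,1)]) (.cons 
(.leaf 1 [(8,1),(6,1)]) (.cons (.leaf 1 [(8,1)]) .nil)))))))))) (.cons (.leaf 0 [(0,0)]) (.cons 
(.leaf 0 [(1,0)]) (.cons (.leaf 1 [(6,1)]) (.cons (.leaf 1 []) .nil))))))))))

def s_27_17 : List (List ((ℕ × List (ℕ × ℕ)) × (ℕ × List (ℕ × ℕ)))) := [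
  [((1, []), (1, []))],
  [((1, [(9,1)]), (1, [(5,1)]))],
  [((1, [(9,1)]), (1, [(8,1)]))],
  [((1, [(9,1)]), (1, [(8,1),(5,1)]))],
  [((1, [(10,1)]), (1, [(9,1)]))],
  [((1, [(11,1)]), (1, [(9,1),(5,1)]))],
  [((1, [(10,1)]), (1, [(9,1),(7,1)]))],
  [((1, [(11,1)]), (1, [(9,1),(7,1),(5,1)]))]]

theorem red_27_17 (h : ∀ a b : ℕ → ℝ, Pat 27 a → Pat 17 b → NoM3 a b) : ESB (caseOf 4 27 17) :=
  esb_m3 (cs := [none, none, none, some 1]) (S := s_27_17) (t := t_27_17) (by decide) (by decide +kernel) rfl h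

def t_27_18 : T := (.keep [0,1,2] (.node (.cons (.keep [2,3,6,8] (.node (.cons (.leaf 1 [(2,1)]) (.cons (.leaf 1 [(4,1)]) (.cons 
(.leaf 1 []) (.cons (.leaf 1 [(4,1)]) (.cons (.leaf 1 [(2,1)]) (.cons (.leaf 1 [(4,1)]) (.cons 
(.leaf 1 [(2,1)]) (.cons (.leaf 1 []) .nil)))))))))) (.cons (.keep [0,3,5,8] (.node (.cons 
(.leaf 1 [(9,1),(2,1)]) (.cons (.leaf 1 [(4,1),(9,1)]) (.cons (.leaf 1 [(9,1)]) (.cons 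
(.leaf 1 [(4,1),(9,1)]) (.cons (.leaf 1 [(1,1)]) (.cons (.leaf 1 [(1,1)]) (.cons (.leaf 1 [(9,1),(2,1)]) 
(.cons (.leaf 1 [(9,1)]) .nil)))))))))) (.cons (.leaf 1 []) (.cons (.leaf 1 [(5,1)]) (.cons (.keep [1,6,8,9] 
(.node (.cons (.leaf 0 [(0,0)]) (.cons (.leaf 0 [(1,0)]) (.cons (.leaf 0 [(2,0)]) (.cons (.leaf 0 [(3,0)]) 
(.cons (.leaf 0 [(0,0)]) (.cons (.leaf 0 [(1,0)]) (.cons (.leaf 0 [(4,0)]) (.cons 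
(.leaf 0 [(2,0)]) .nil)))))))))) (.cons (.keep [1,5,8,9] (.node (.cons (.leaf 0 [(5,0)]) (.cons 
(.leaf 0 [(6,0)]) (.cons (.leaf 0 [(7,0)]) (.cons (.leaf 0 [(8,0)]) (.cons (.leaf 0 [(9,0)]) (.cons 
(.leaf 0 [(9,0)]) (.cons (.leaf 0 [(10,0)]) (.cons (.leaf 0 [(7,0)]) .nil)))))))))) (.cons (.leaf 1 [(6,1)]) 
(.cons (.leaf 1 []) .nil))))))))))

def s_27_18 : List (List ((ℕ × List (ℕ × ℕ)) × (ℕ × List (ℕ × ℕ)))) := [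
  [((1, [(10,1)]), (1, [(2,1)]))],
  [((1, [(10,1)]), (1, [(4,1)]))],
  [((1, []), (1, []))],
  [((1, [(5,1)]), (1, [(4,1)]))],
  [((1, [(6,1)]), (1, [(2,1)]))],
  [((1, [(3,1)]), (1, [(8,1),(2,1)]))],
  [((1, [(3,1)]), (1, [(4,1),(8,1)]))],
  [((1, [(10,1)]), (1, [(8,1)]))],
  [((1, [(10,1)]), (1, [(4,1),(8,1)]))],
  [((1, [(10,1)]), (1, [(1,1)]))],
  [((1, [(10,1)]), (1, [(8,1),(2,1)]))]]

theorem red_27_18 (h : ∀ a b : ℕ → ℝ, Pat 27 a → Pat 18 b → NoM3 a b) : ESB (caseOf 4 27 18) :=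
  esb_m3 (cs := [none, none, none, some 1]) (S := s_27_18) (t := t_27_18) (by decide) (by decide +kernel) rfl h

def t_27_19 : T := (.keep [0,1,2] (.node (.cons (.leaf 1 []) (.cons (.leaf 1 [(5,1)]) (.cons (.leaf 1 [(5,1)]) (.cons 
(.leaf 1 [(6,1)]) (.cons (.leaf 1 []) (.cons (.leaf 1 [(6,1)]) (.cons (.leaf 0 [(0,0)]) (.cons 
(.leaf 0 [(1,0)]) (.cons (.leaf 0 [(1,0)]) (.cons (.leaf 1 [(7,1)]) (.cons (.leaf 1 [(7,1)]) (.cons 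
(.leaf 1 []) .nil))))))))))))))

def s_27_19 : List (List ((ℕ × List (ℕ × ℕ)) × (ℕ × List (ℕ × ℕ)))) := [
  [((1, []), (1, []))],
  [((1, [(10,1)]), (1, [(5,1)]))]]

theorem red_27_19 (h : ∀ a b : ℕ → ℝ, Pat 27 a → Pat 19 b → NoM3 a b) : ESB (caseOf 4 27 19) :=
  esb_m3 (cs := [none, none, none, some 1]) (S := s_27_19) (t := t_27_19) (by decide) (by decide +kernel) rfl h

end Pool.Agent.H4.RD4.M3a
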