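import Pool.Agent.H4.RD4.Mod5A
import Pool.Agent.H4.RD4.Mod5B

/-!
# The families of period five: the cases

`esb_mod5 N D (h : (N, D) ∈ mod5)`: 27 special cases of order four.
-/

namespace Pool.Agent.H4.RD4

open Pool.Agent.H50.Rdb
open Pool.Agent.H81.RDE (ESB caseOf)

theorem esb_A {N D : ℕ} (hN : N < 32) (hD : D < 32) (h : (N.testBit 1 && N.testBit 4 && !D.testBit 1 && D.testBit 2 &&
    D.testBit 3 && !D.testBit 4 && (D.testBit 0 || N.testBit 2 || N.testBit 3)) = true) : ESB (caseOf 4 N D) := by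
  simp only [Bool.and_eq_true, Bool.or_eq_true, Bool.not_eq_true'] at h
  obtain ⟨⟨⟨⟨⟨⟨h1, h2⟩, h3⟩, h4⟩, h5⟩, h6⟩, h7⟩ := h
  have hN0 : N ≠ 0 := by
    rintro rfl
    simp at h1
  have hD0 : D ≠ 0 := by
    rintro rfl
    simp at h4
  refine esb_of_noBack hN hN0 hD hD0 fun a b ha hb => ?_
  refine noBack_A (fun i hi => ha.nonneg hi) (fun i hi => hb.nonneg hi) (ha.pos (by norm_num) h1)
    (ha.pos (by norm_num) h2) (hb.zero (by norm_num) h3) (hb.pos (by norm_num) h4) (hb.pos (by norm_num) h5)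
    (hb.zero (by norm_num) h6) ?_
  rcases h7 with (h7 | h7) | h7
  · exact Or.inl (hb.pos (by norm_num) h7)
  · exact Or.inr (Or.inl (ha.pos (by norm_num) h7))
  · exact Or.inr (Or.inr (ha.pos (by norm_num) h7))

theorem esb_B {N D : ℕ} (hN : N < 32) (hD : D < 32) (h : (N.testBit 2 && N.testBit 3 && D.testBit 1 && !D.testBit 2 &&
    !D.testBit 3 && D.testBit 4 && (D.testBit 0 || N.testBit 1 || (N.testBit 4 && N.testBit 0))) = true) :
    ESB (caseOf 4 N D) := by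
  simp only [Bool.and_eq_true, Bool.or_eq_true, Bool.not_eq_true'] at h
  obtain ⟨⟨⟨⟨⟨⟨h1, h2⟩, h3⟩, h4⟩, h5⟩, h6⟩, h7⟩ := h
  have hN0 : N ≠ 0 := by
    rintro rfl
    simp at h1
  have hD0 : D ≠ 0 := by
    rintro rfl
    simp at h3
  refine esb_of_noBack hN hN0 hD hD0 fun a b ha hb => ?_
  refine noBack_B (fun i hi => ha.nonneg hi) (fun i hi => hb.nonneg hi) (ha.pos (by norm_num) h1)
    (ha.pos (by norm_num) h2) (hb.pos (by norm_num) h3) (hb.zero (by norm_num) h4) (hb.zero (by norm_num) h5)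
    (hb.pos (by norm_num) h6) ?_
  rcases h7 with (h7 | h7) | h7
  · exact Or.inl (hb.pos (by norm_num) h7)
  · exact Or.inr (Or.inl (ha.pos (by norm_num) h7))
  · exact Or.inr (Or.inr ⟨ha.pos (by norm_num) h7.1, ha.pos (by norm_num) h7.2⟩)

/-- the cases -/
def mod5 : List (ℕ × ℕ) := [(18, 13), (19, 13), (22, 12), (22, 13), (23, 12), (23, 13), (26, 12), (26, 13), (27, 12),
  (27, 13), (30, 12), (30, 13), (31, 12), (31, 13), (12, 19), (13, 19), (14, 18), (14, 19), (15, 18), (15, 19),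
  (28, 19), (29, 18), (29, 19), (30, 18), (30, 19), (31, 18), (31, 19)]

def isA (p : ℕ × ℕ) : Bool := p.1.testBit 1 && p.1.testBit 4 && !p.2.testBit 1 && p.2.testBit 2 &&
    p.2.testBit 3 && !p.2.testBit 4 && (p.2.testBit 0 || p.1.testBit 2 || p.1.testBit 3)

def isB (p : ℕ × ℕ) : Bool := p.1.testBit 2 && p.1.testBit 3 && p.2.testBit 1 && !p.2.testBit 2 &&
    !p.2.testBit 3 && p.2.testBit 4 && (p.2.testBit 0 || p.1.testBit 1 || (p.1.testBit 4 && p.1.testBit 0))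

theorem mod5_ok : (mod5.all fun p => Nat.blt p.1 32 && Nat.blt p.2 32 && (isA p || isB p)) = true := by
  decide +kernel

theorem esb_mod5 (N D : ℕ) (h : (N, D) ∈ mod5) : ESB (caseOf 4 N D) := by
  have h1 := List.all_eq_true.1 mod5_ok (N, D) h
  simp only [Bool.and_eq_true, Bool.or_eq_true, Nat.blt_eq] at h1
  obtain ⟨⟨h2, h3⟩, h4 | h4⟩ := h1
  · exact esb_A h2 h3 h4
  · exact esb_B h2 h3 h4

end Pool.Agent.H4.RD4
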