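import Pool.Agent.H4.RD4.Shp

/-!
# The case `(5, 26)`: `x_n = (a₀ + a₂ x_(n-2)) / (b₁ x_(n-1) + b₃ x_(n-3) + b₄ x_(n-4))`

The logarithms of a record and of the nine terms before it are proportional to `2, -1, 1, -1, -1, -1, -2, 1, -2, 2`. In the limit
`X_9 / X_0 ≥ 1 + (b₃ / b₄)²`.
-/

set_option maxRecDepth 20000

namespace Pool.Agent.H4.RD4.Sh526

open Filter Topology Real
open Pool.Agent.H50.Rdb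
open Pool.Agent.H81.RDE (ESB caseOf)

def t : T := (.keep [0,1,2] (.node (.cons (.keep [2,4,5,6] (.node (.cons (.leaf 1 [(6,1)]) (.cons (.leaf 2 [(8,1)]) (.cons 
(.keep [6,7,8,9] (.node (.cons (.leaf 2 [(4,1),(7,1)]) (.cons (.keep [0,6,7,8] (.node (.cons 
(.leaf 1 [(2,1)]) (.cons (.leaf 1 [(2,1)]) (.cons (.leaf 1 [(2,1)]) (.cons (.leaf 3 [(8,1),(9,1)]) (.cons 
(.leaf 1 [(6,1),(8,1)]) (.cons (.leaf 1 [(0,1),(8,1)]) .nil)))))))) (.cons (.keep [0,4,7,8,9] (.node (.cons 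
(.leaf 1 [(2,1)]) (.cons (.leaf 1 [(2,1)]) (.cons (.leaf 1 [(2,1)]) (.cons (.leaf 3 [(8,1),(9,1)]) (.cons 
(.leaf 1 [(6,1),(8,1)]) (.cons (.leaf 1 [(0,1),(8,1)]) .nil)))))))) (.cons (.leaf 2 [(4,1),(7,1)]) (.cons 
(.leaf 1 [(1,1),(8,1)]) (.cons (.leaf 1 [(1,1),(8,1)]) .nil)))))))) (.cons (.leaf 1 [(6,1),(1,1)]) (.cons 
(.leaf 1 [(1,1),(7,1)]) (.cons (.leaf 1 [(1,1),(7,1)]) .nil)))))))) (.cons (.keep [2,3,5,8] (.node (.cons 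
(.leaf 1 [(7,1),(6,1)]) (.cons (.leaf 2 [(8,1),(7,1)]) (.cons (.keep [0,2,6,7,8] (.node (.cons 
(.leaf 1 [(8,1)]) (.cons (.keep [5,6,8,9,10] (.node (.cons (.leaf 1 [(2,1),(9,1)]) (.cons 
(.leaf 1 [(6,1),(2,1)]) (.cons (.leaf 1 [(9,1),(2,1)]) (.cons (.leaf 3 [(10,1),(9,1)]) (.cons 
(.leaf 1 [(6,1)]) (.cons (.leaf 1 [(9,1),(0,1)]) .nil)))))))) (.cons (.keep [0,4,8,9,10] (.node (.cons 
(.leaf 1 [(2,1),(9,1)]) (.cons (.leaf 1 [(9,1),(2,1)]) (.cons (.leaf 1 [(9,1),(2,1)]) (.cons 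
(.leaf 3 [(10,1),(9,1)]) (.cons (.leaf 1 [(9,1),(6,1)]) (.cons (.leaf 1 [(9,1),(0,1)]) .nil)))))))) (.cons 
(.leaf 1 [(8,1),(1,1)]) (.cons (.leaf 1 [(1,1),(10,1)]) (.cons (.leaf 1 [(1,1),(10,1)]) .nil)))))))) (.cons 
(.leaf 1 [(1,1)]) (.cons (.leaf 1 [(1,1)]) (.cons (.leaf 1 [(1,1)]) .nil)))))))) (.cons (.keep [0,2,3,4] 
(.node (.cons (.leaf 1 [(8,1),(7,1)]) (.cons (.leaf 2 [(8,1)]) (.cons (.keep [0,6,7,8,9] (.node (.cons 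
(.leaf 2 [(4,1),(10,1),(9,1)]) (.cons (.keep [5,6,8,9,10] (.node (.cons (.leaf 1 [(2,1),(9,1)]) (.cons 
(.leaf 1 [(2,1),(9,1)]) (.cons (.leaf 1 [(2,1),(9,1)]) (.cons (.leaf 3 [(10,1),(9,1)]) (.cons 
(.leaf 1 [(6,1),(10,1)]) (.cons (.leaf 1 [(0,1),(9,1),(10,1)]) .nil)))))))) (.cons (.keep [0,4,8,9,10] (.node 
(.cons (.leaf 1 [(4,1),(8,1)]) (.cons (.leaf 1 [(2,1),(9,1)]) (.cons (.leaf 1 [(2,1),(9,1)]) (.cons 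
(.leaf 1 [(4,1),(1,1),(7,1)]) (.cons (.leaf 1 [(6,1),(9,1),(10,1)]) (.cons 
(.leaf 1 [(0,1),(9,1),(10,1)]) .nil)))))))) (.cons (.leaf 1 [(1,1)]) (.cons (.leaf 1 [(1,1)]) (.cons 
(.leaf 1 [(1,1)]) .nil)))))))) (.cons (.leaf 1 [(8,1),(1,1),(7,1)]) (.cons (.leaf 2 [(1,1),(8,1)]) (.cons 
(.leaf 1 [(1,1),(9,1)]) .nil)))))))) (.cons (.keep [1,4,5,7] (.node (.cons (.keep [5,6,7,8] (.node (.cons 
(.keep [4,5,7,9] (.node (.cons (.leaf 1 [(9,1)]) (.cons (.leaf 1 [(7,1)]) (.cons (.keep [0,6,7,9] (.node 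
(.cons (.leaf 1 [(4,1),(7,1)]) (.cons (.keep [5,6,7,8] (.node (.cons (.leaf 1 [(2,2)]) (.cons 
(.leaf 1 [(2,2)]) (.cons (.leaf 1 [(2,2)]) (.cons (.leaf 3 [(8,2),(9,2)]) (.cons (.leaf 1 [(6,2),(8,2)]) 
(.cons (.keep [0,1,6,8,9] (.node (.cons (.leaf 1 [(4,2),(9,2)]) (.cons (.keep [2,5,6,7,9] (.node (.cons 
(.leaf 1 [(2,1),(10,1)]) (.cons (.leaf 1 [(10,1),(2,1)]) (.cons (.leaf 1 [(10,1),(2,1)]) (.cons 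
(.leaf 1 [(10,2),(6,2)]) (.cons (.keep [5,6,7,8,10] (.node (.cons (.leaf 1 [(2,2),(10,2)]) (.cons 
(.leaf 1 [(6,2),(3,2)]) (.cons (.leaf 1 [(2,2),(10,2)]) (.cons (.keep [5,6,7,9,10] (.node (.cons 
(.leaf 3 [(10,4)]) (.cons (.leaf 3 [(10,4),(3,2)]) (.cons (.leaf 3 [(10,4),(3,2)]) (.cons 
(.leaf 1 [(1,2),(7,4)]) (.cons (.leaf 1 [(7,4),(3,2),(1,2)]) (.cons 
(.leaf 1 [(7,4),(3,2),(1,2)]) .nil)))))))) (.cons (.leaf 1 [(6,2),(3,2)]) (.cons (.keep [0,3,6,8,10] (.node 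
(.cons (.leaf 1 [(4,2),(7,2)]) (.cons (.leaf 2 [(10,2),(7,1)]) (.cons (.leaf 2 [(10,2),(7,1),(4,1)]) (.cons 
(.leaf 1 [(4,2),(7,2)]) (.cons (.leaf 1 [(1,1),(8,2),(7,1)]) (.cons 
(.leaf 1 [(1,1),(8,2),(7,1),(4,1)]) .nil)))))))) .nil)))))))) (.cons (.keep [4,6,8,9,10] (.node (.cons 
(.leaf 0 [(0,0)]) (.cons (.leaf 1 [(3,2)]) (.cons (.leaf 0 [(1,0)]) (.cons (.keep [1,5,6,8,10] (.node (.cons 
(.leaf 1 [(6,4),(8,2)]) (.cons (.leaf 1 [(6,4),(8,2),(3,2)]) (.cons (.leaf 1 [(6,4),(8,2),(3,2)]) (.cons 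
(.leaf 1 [(6,2)]) (.cons (.leaf 1 [(6,2),(3,2)]) (.cons (.leaf 1 [(6,2),(3,2)]) .nil)))))))) (.cons 
(.leaf 1 [(3,2)]) (.cons (.keep [0,1,3,6,10] (.node (.cons (.leaf 1 [(7,4),(9,2)]) (.cons 
(.leaf 1 [(7,4),(9,2),(3,2)]) (.cons (.leaf 1 [(7,4),(9,2),(3,2)]) (.cons (.leaf 1 [(7,2)]) (.cons 
(.leaf 1 [(7,2),(3,2)]) (.cons (.leaf 1 [(7,2),(3,2)]) .nil)))))))) .nil)))))))) .nil)))))))) (.cons 
(.keep [0,2,4,7,9] (.node (.cons (.leaf 1 [(2,1),(10,1)]) (.cons (.leaf 1 [(10,1),(2,1)]) (.cons 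
(.leaf 1 [(10,1),(2,1)]) (.cons (.leaf 1 [(4,2),(8,2)]) (.cons (.leaf 1 [(8,2)]) (.cons 
(.leaf 1 [(4,2),(8,2)]) .nil)))))))) (.cons (.leaf 1 [(4,2),(9,2)]) (.cons (.keep [1,5,6,9,10] (.node (.cons 
(.leaf 1 [(6,2)]) (.cons (.leaf 1 [(6,2),(3,2)]) (.cons (.leaf 1 [(6,2),(3,2)]) (.cons (.keep [4,5,6,8,9] 
(.node (.cons (.leaf 1 [(8,4)]) (.cons (.leaf 1 [(3,2),(7,2)]) (.cons (.leaf 1 [(3,2),(8,4)]) (.cons 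
(.leaf 1 [(6,4),(1,2)]) (.cons (.leaf 1 [(3,2),(1,2),(6,4)]) (.cons 
(.leaf 1 [(3,2),(1,2),(6,4)]) .nil)))))))) (.cons (.keep [3,5,6,8,9] (.node (.cons (.leaf 1 [(8,4),(6,2)]) 
(.cons (.leaf 1 [(7,2),(3,2)]) (.cons (.leaf 1 [(8,4),(6,2),(3,2)]) (.cons (.leaf 1 [(8,2)]) (.cons 
(.leaf 1 [(7,2),(3,2)]) (.cons (.leaf 1 [(8,2),(3,2)]) .nil)))))))) (.cons (.keep [3,4,6,8,9] (.node (.cons 
(.leaf 1 [(8,4),(6,2)]) (.cons (.leaf 1 [(3,2)]) (.cons (.leaf 1 [(8,4),(6,2),(3,2)]) (.cons 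
(.leaf 1 [(8,2),(7,2)]) (.cons (.leaf 1 [(3,2)]) (.cons 
(.leaf 1 [(8,2),(7,2),(3,2)]) .nil)))))))) .nil)))))))) (.cons (.keep [0,1,4,9,10] (.node (.cons 
(.leaf 1 [(7,2)]) (.cons (.leaf 1 [(7,2),(3,2)]) (.cons (.leaf 1 [(7,2),(3,2)]) (.cons 
(.leaf 1 [(4,2),(8,2)]) (.cons (.leaf 1 [(8,2)]) (.cons 
(.leaf 1 [(8,2),(4,2)]) .nil)))))))) .nil)))))))) .nil)))))))) (.cons (.keep [0,4,7,8] (.node (.cons 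
(.leaf 1 [(2,2)]) (.cons (.leaf 1 [(2,2)]) (.cons (.leaf 1 [(2,2)]) (.cons (.leaf 3 [(8,2),(9,2)]) (.cons 
(.keep [5,6,7,8,9] (.node (.cons (.leaf 1 [(2,2),(8,2)]) (.cons (.leaf 1 [(2,2),(6,2),(3,2)]) (.cons 
(.leaf 1 [(2,2),(8,2)]) (.cons (.leaf 1 [(10,1),(9,1)]) (.cons (.leaf 1 [(10,2),(6,2)]) (.cons 
(.leaf 1 [(0,2),(9,2),(10,2)]) .nil)))))))) (.cons (.keep [0,6,7,8,9] (.node (.cons (.leaf 1 [(2,2),(8,2)]) 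
(.cons (.leaf 1 [(2,2),(8,2)]) (.cons (.leaf 1 [(2,2),(8,2)]) (.cons (.leaf 1 [(4,2),(9,2)]) (.cons 
(.keep [5,6,7,8,10] (.node (.cons (.leaf 1 [(9,1)]) (.cons (.leaf 1 [(9,1),(3,1)]) (.cons 
(.leaf 1 [(9,1),(3,1)]) (.cons (.keep [4,5,7,8,9] (.node (.cons (.leaf 3 [(10,4)]) (.cons 
(.leaf 1 [(3,2),(7,2)]) (.cons (.leaf 3 [(3,2),(10,4)]) (.cons (.leaf 1 [(6,4),(1,2)]) (.cons 
(.leaf 1 [(3,2),(1,2),(6,4)]) (.cons (.leaf 1 [(3,2),(1,2),(6,4)]) .nil)))))))) (.cons (.keep [3,5,7,8,9] 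
(.node (.cons (.leaf 3 [(10,4),(6,2)]) (.cons (.leaf 1 [(7,2),(3,2)]) (.cons (.leaf 3 [(10,4),(6,2),(3,2)]) 
(.cons (.leaf 1 [(10,1)]) (.cons (.leaf 1 [(7,2),(3,2)]) (.cons (.leaf 1 [(10,1),(3,1)]) .nil)))))))) (.cons 
(.keep [3,4,7,8,9] (.node (.cons (.leaf 3 [(10,4),(6,2)]) (.cons (.leaf 1 [(3,2)]) (.cons 
(.leaf 3 [(10,4),(6,2),(3,2)]) (.cons (.leaf 1 [(10,1),(7,1)]) (.cons (.leaf 1 [(3,2)]) (.cons 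
(.leaf 1 [(10,1),(7,1),(3,1)]) .nil)))))))) .nil)))))))) (.cons (.keep [0,6,7,8,9,10] (.node (.cons 
(.leaf 1 [(9,1)]) (.cons (.leaf 1 [(9,1),(3,1)]) (.cons (.leaf 1 [(9,1),(3,1)]) (.cons 
(.leaf 1 [(4,2),(11,2)]) (.cons (.leaf 1 [(9,2),(7,2),(11,2)]) (.cons 
(.leaf 1 [(9,2),(7,2),(11,2),(4,2)]) .nil)))))))) .nil)))))))) .nil)))))))) (.cons (.leaf 1 [(4,1),(7,1)]) 
(.cons (.leaf 1 [(1,2),(8,2)]) (.cons (.leaf 1 [(1,2),(8,2)]) .nil)))))))) (.cons (.leaf 1 [(6,2),(1,2)]) 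
(.cons (.leaf 1 [(1,2),(6,2)]) (.cons (.leaf 1 [(1,2),(6,2)]) .nil)))))))) (.cons (.keep [3,5,6,9] (.node 
(.cons (.leaf 1 [(6,1),(9,1)]) (.cons (.leaf 1 [(7,1),(6,1)]) (.cons (.keep [0,6,7,9] (.node (.cons 
(.leaf 1 [(4,1),(7,1)]) (.cons (.keep [5,6,7,8] (.node (.cons (.leaf 1 [(2,2),(8,2)]) (.cons 
(.leaf 1 [(6,2),(2,2)]) (.cons (.leaf 1 [(8,2),(2,2)]) (.cons (.leaf 3 [(9,2),(8,2)]) (.cons 
(.leaf 1 [(6,2)]) (.cons (.keep [0,6,7,8,9] (.node (.cons (.leaf 1 [(4,2)]) (.cons (.keep [2,5,6,9,10] (.node 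
(.cons (.leaf 1 [(6,2),(2,2)]) (.cons (.leaf 1 [(2,4),(7,2)]) (.cons (.leaf 1 [(2,1),(9,1)]) (.cons 
(.leaf 1 [(6,2)]) (.cons (.keep [5,6,7,8,9] (.node (.cons (.leaf 1 [(2,2)]) (.cons (.leaf 1 [(2,2)]) (.cons 
(.leaf 1 [(2,2)]) (.cons (.keep [5,6,7,9,10] (.node (.cons (.leaf 1 [(8,1)]) (.cons (.leaf 1 [(6,1),(3,2)]) 
(.cons (.leaf 1 [(8,1),(3,1)]) (.cons (.leaf 1 [(7,2),(8,2)]) (.cons (.leaf 1 [(7,2),(6,2),(3,4)]) (.cons 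
(.leaf 1 [(7,2),(8,2),(3,2)]) .nil)))))))) (.cons (.leaf 1 [(10,2),(6,2),(3,2)]) (.cons (.keep [0,3,6,8,10] 
(.node (.cons (.leaf 1 [(9,1)]) (.cons (.leaf 1 [(9,1),(3,1)]) (.cons (.leaf 1 [(9,1),(3,1)]) (.cons 
(.leaf 1 [(8,2),(9,2)]) (.cons (.leaf 1 [(8,2),(9,2),(3,2)]) (.cons 
(.leaf 1 [(8,2),(9,2),(3,2)]) .nil)))))))) .nil)))))))) (.cons (.keep [4,6,8,9,10] (.node (.cons 
(.leaf 0 [(2,0)]) (.cons (.leaf 1 [(9,2),(3,2)]) (.cons (.leaf 0 [(3,0)]) (.cons (.keep [1,5,6,8,9] (.node 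
(.cons (.leaf 1 [(2,2)]) (.cons (.leaf 1 [(2,2)]) (.cons (.leaf 1 [(2,2)]) (.cons (.leaf 1 [(6,2),(10,2)]) 
(.cons (.leaf 1 [(6,2),(10,2),(3,2)]) (.cons (.leaf 1 [(6,2),(10,2),(3,2)]) .nil)))))))) (.cons 
(.leaf 1 [(9,2),(3,2)]) (.cons (.keep [0,1,3,6,9] (.node (.cons (.leaf 1 [(2,2)]) (.cons (.leaf 1 [(2,2)]) 
(.cons (.leaf 1 [(2,2)]) (.cons (.leaf 3 [(8,2),(4,2),(10,4)]) (.cons (.leaf 3 [(10,4),(8,2)]) (.cons 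
(.leaf 1 [(7,2),(3,2),(10,2)]) .nil)))))))) .nil)))))))) .nil)))))))) (.cons (.keep [0,2,4,9,10] (.node 
(.cons (.leaf 1 [(7,2),(2,2)]) (.cons (.leaf 1 [(2,1),(9,1)]) (.cons (.leaf 1 [(2,1),(9,1)]) (.cons 
(.leaf 1 [(7,2)]) (.cons (.leaf 1 [(9,2),(8,2)]) (.cons (.leaf 1 [(9,2),(8,2),(4,2)]) .nil)))))))) (.cons 
(.leaf 1 [(4,2)]) (.cons (.keep [1,5,6,7,9] (.node (.cons (.leaf 1 [(9,1),(2,2)]) (.cons 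
(.leaf 1 [(2,4),(7,2)]) (.cons (.leaf 1 [(6,2),(2,2),(9,2)]) (.cons (.keep [4,5,6,8,9] (.node (.cons 
(.leaf 3 [(10,2)]) (.cons (.leaf 3 [(10,2),(3,2)]) (.cons (.leaf 3 [(10,2),(3,2)]) (.cons 
(.leaf 1 [(10,1),(6,1)]) (.cons (.leaf 1 [(10,1),(6,1),(3,1)]) (.cons 
(.leaf 1 [(10,1),(6,1),(3,1)]) .nil)))))))) (.cons (.keep [5,6,8,9,10] (.node (.cons (.leaf 1 [(2,2)]) (.cons 
(.leaf 1 [(2,2)]) (.cons (.leaf 1 [(2,2)]) (.cons (.leaf 1 [(10,2),(7,2)]) (.cons 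
(.leaf 1 [(10,2),(6,2),(3,2)]) (.cons (.leaf 1 [(10,2),(7,2),(3,2)]) .nil)))))))) (.cons (.keep [4,6,8,9,10] 
(.node (.cons (.leaf 1 [(4,2),(7,2)]) (.cons (.leaf 1 [(7,2)]) (.cons (.leaf 1 [(7,2),(4,2)]) (.cons 
(.leaf 1 [(10,2),(7,2),(6,2)]) (.cons (.leaf 1 [(10,2),(3,2)]) (.cons 
(.leaf 1 [(6,2),(10,2),(7,2),(3,2)]) .nil)))))))) .nil)))))))) (.cons (.keep [0,1,4,9,10] (.node (.cons 
(.leaf 1 [(9,1),(2,1)]) (.cons (.leaf 1 [(2,1),(9,1)]) (.cons (.leaf 1 [(2,1),(9,1)]) (.cons 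
(.leaf 1 [(4,2),(9,2),(8,2)]) (.cons (.leaf 1 [(9,2),(8,2)]) (.cons 
(.leaf 1 [(9,2),(8,2),(4,2)]) .nil)))))))) .nil)))))))) .nil)))))))) (.cons (.keep [0,4,7,8] (.node (.cons 
(.leaf 1 [(2,2),(8,2)]) (.cons (.leaf 1 [(8,2),(2,2)]) (.cons (.leaf 1 [(8,2),(2,2)]) (.cons 
(.leaf 3 [(9,2),(8,2)]) (.cons (.keep [5,6,7,8,9] (.node (.cons (.leaf 1 [(9,1),(2,1)]) (.cons 
(.leaf 1 [(9,1),(2,1)]) (.cons (.leaf 1 [(9,1),(2,1)]) (.cons (.leaf 1 [(10,1)]) (.cons 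
(.leaf 1 [(6,2),(10,2)]) (.cons (.leaf 1 [(9,2),(0,2),(10,2)]) .nil)))))))) (.cons (.keep [0,6,7,8,9] (.node 
(.cons (.leaf 1 [(4,2)]) (.cons (.leaf 1 [(9,2),(8,2),(2,2)]) (.cons (.leaf 1 [(9,2),(8,2),(2,2)]) (.cons 
(.leaf 1 [(4,2)]) (.cons (.keep [5,6,7,8,9,10] (.node (.cons (.leaf 1 [(10,1),(2,1)]) (.cons 
(.leaf 1 [(2,4),(6,2)]) (.cons (.leaf 1 [(2,1),(10,1)]) (.cons (.keep [4,5,7,8,10] (.node (.cons 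
(.leaf 3 [(10,2)]) (.cons (.leaf 3 [(10,2),(3,2)]) (.cons (.leaf 3 [(10,2),(3,2)]) (.cons 
(.leaf 1 [(10,1),(6,1)]) (.cons (.leaf 1 [(10,1),(6,1),(3,1)]) (.cons 
(.leaf 1 [(10,1),(6,1),(3,1)]) .nil)))))))) (.cons (.keep [5,7,8,9,10,11] (.node (.cons (.leaf 1 [(2,2)]) 
(.cons (.leaf 1 [(2,2)]) (.cons (.leaf 1 [(2,2)]) (.cons (.leaf 1 [(10,2),(9,1)]) (.cons 
(.leaf 1 [(10,2),(6,2),(3,2)]) (.cons (.leaf 1 [(10,2),(9,1),(3,1)]) .nil)))))))) (.cons 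
(.keep [4,7,8,9,10,11] (.node (.cons (.leaf 1 [(4,4),(9,2)]) (.cons (.leaf 1 [(10,2),(3,2)]) (.cons 
(.leaf 3 [(10,4),(9,2),(3,2)]) (.cons (.leaf 1 [(10,2),(9,1),(6,1)]) (.cons (.leaf 1 [(10,2),(3,2)]) (.cons 
(.leaf 1 [(10,2),(9,1),(6,1),(3,1)]) .nil)))))))) .nil)))))))) (.cons (.keep [0,7,8,9,10] (.node (.cons 
(.leaf 1 [(9,1),(2,1)]) (.cons (.leaf 1 [(2,1),(9,1)]) (.cons (.leaf 1 [(2,1),(9,1)]) (.cons 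
(.leaf 1 [(4,2),(10,2)]) (.cons (.leaf 1 [(8,2),(9,2),(10,2)]) (.cons 
(.leaf 1 [(8,2),(9,2),(10,2),(4,2)]) .nil)))))))) .nil)))))))) .nil)))))))) (.cons (.leaf 1 [(4,1),(7,1)]) 
(.cons (.leaf 1 [(8,2),(1,2)]) (.cons (.leaf 1 [(8,2),(1,2)]) .nil)))))))) (.cons (.leaf 1 [(1,2)]) (.cons 
(.leaf 1 [(1,2)]) (.cons (.leaf 1 [(1,2)]) .nil)))))))) (.cons (.keep [0,3,4,9] (.node (.cons 
(.leaf 1 [(7,1),(9,1)]) (.cons (.leaf 1 [(7,1)]) (.cons (.keep [0,7,8,9] (.node (.cons 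
(.leaf 1 [(4,1),(8,1),(7,1)]) (.cons (.keep [5,6,7,8] (.node (.cons (.leaf 1 [(2,2),(8,2)]) (.cons 
(.leaf 1 [(2,2),(8,2)]) (.cons (.leaf 1 [(2,2),(8,2)]) (.cons (.leaf 3 [(9,2),(8,2)]) (.cons 
(.leaf 1 [(6,2),(9,2)]) (.cons (.keep [0,6,7,8,9] (.node (.cons (.leaf 1 [(4,2),(10,2)]) (.cons 
(.leaf 1 [(9,2),(10,2)]) (.cons (.leaf 1 [(9,2),(10,2),(4,2)]) (.cons (.leaf 1 [(4,2),(10,2)]) (.cons 
(.keep [5,6,8,9,10] (.node (.cons (.leaf 1 [(10,1),(2,2)]) (.cons (.leaf 1 [(6,2),(2,4),(10,2)]) (.cons 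
(.leaf 1 [(9,1),(2,1),(10,1)]) (.cons (.keep [4,5,7,8,10] (.node (.cons (.leaf 3 [(10,4)]) (.cons 
(.leaf 1 [(3,2),(7,2)]) (.cons (.leaf 3 [(3,2),(10,4)]) (.cons (.leaf 1 [(6,4),(1,2)]) (.cons 
(.leaf 1 [(3,2),(1,2),(6,4)]) (.cons (.leaf 1 [(3,2),(1,2),(6,4)]) .nil)))))))) (.cons (.keep [5,7,8,9,10] 
(.node (.cons (.leaf 1 [(2,2),(10,2)]) (.cons (.leaf 1 [(3,2),(6,4),(2,4)]) (.cons (.leaf 1 [(2,2),(10,2)]) 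
(.cons (.leaf 1 [(9,4),(1,2)]) (.cons (.leaf 1 [(3,2),(6,2),(9,2)]) (.cons 
(.leaf 1 [(3,2),(1,2),(9,4)]) .nil)))))))) (.cons (.keep [4,7,8,9,10] (.node (.cons (.leaf 1 [(4,4),(10,4)]) 
(.cons (.leaf 1 [(3,2),(9,2)]) (.cons (.leaf 1 [(4,1),(10,2),(9,1)]) (.cons (.leaf 1 [(9,4),(1,2),(6,4)]) 
(.cons (.leaf 1 [(3,2),(9,2)]) (.cons (.leaf 1 [(3,2),(1,2),(6,4),(9,4)]) .nil)))))))) .nil)))))))) (.cons 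
(.keep [4,6,7,8,9,10] (.node (.cons (.leaf 1 [(4,2)]) (.cons (.leaf 1 [(2,1),(11,1),(10,1)]) (.cons 
(.leaf 1 [(11,1),(10,1),(2,1)]) (.cons (.leaf 1 [(4,2)]) (.cons (.leaf 1 [(6,2),(10,2)]) (.cons 
(.leaf 1 [(6,2),(10,2),(4,2)]) .nil)))))))) .nil)))))))) .nil)))))))) (.cons (.keep [0,4,7,8] (.node (.cons 
(.leaf 1 [(2,2),(8,2)]) (.cons (.leaf 1 [(2,2),(8,2)]) (.cons (.leaf 1 [(2,2),(8,2)]) (.cons 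
(.leaf 1 [(4,2),(1,2),(7,2)]) (.cons (.keep [5,6,7,8,9] (.node (.cons (.leaf 1 [(2,2),(8,2)]) (.cons 
(.leaf 1 [(6,2),(2,2)]) (.cons (.leaf 1 [(9,2),(8,2),(2,2)]) (.cons (.leaf 1 [(8,2)]) (.cons 
(.leaf 1 [(6,2)]) (.cons (.leaf 1 [(9,2),(10,2),(0,2)]) .nil)))))))) (.cons (.keep [0,6,7,8,9] (.node (.cons 
(.leaf 1 [(2,2),(8,2)]) (.cons (.leaf 1 [(9,2),(8,2),(2,2)]) (.cons (.leaf 1 [(9,2),(8,2),(2,2)]) (.cons 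
(.leaf 1 [(8,2)]) (.cons (.keep [5,6,7,8,9] (.node (.cons (.leaf 1 [(9,1),(2,2)]) (.cons 
(.leaf 1 [(6,2),(2,4),(9,2)]) (.cons (.leaf 1 [(10,1),(2,1),(9,1)]) (.cons (.keep [4,5,7,8,9] (.node (.cons 
(.leaf 3 [(10,4)]) (.cons (.leaf 1 [(3,2),(7,2)]) (.cons (.leaf 3 [(3,2),(10,4)]) (.cons 
(.leaf 1 [(6,4),(1,2)]) (.cons (.leaf 1 [(3,2),(1,2),(6,4)]) (.cons 
(.leaf 1 [(3,2),(1,2),(6,4)]) .nil)))))))) (.cons (.keep [5,7,8,9,10] (.node (.cons (.leaf 1 [(2,2),(9,2)]) 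
(.cons (.leaf 1 [(3,2),(6,4),(2,4)]) (.cons (.leaf 1 [(2,2),(9,2)]) (.cons (.leaf 1 [(10,2),(9,1)]) (.cons 
(.leaf 1 [(3,2),(6,2),(10,2)]) (.cons (.leaf 1 [(3,1),(9,1),(10,2)]) .nil)))))))) (.cons (.keep [4,7,8,9,10] 
(.node (.cons (.leaf 1 [(4,4),(9,4)]) (.cons (.leaf 1 [(9,2),(10,1)]) (.cons (.leaf 1 [(4,1),(9,2),(10,1)]) 
(.cons (.leaf 1 [(6,1),(10,2),(9,1)]) (.cons (.leaf 1 [(3,2),(10,2)]) (.cons 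
(.leaf 1 [(3,1),(10,2),(9,1),(6,1)]) .nil)))))))) .nil)))))))) (.cons (.keep [0,6,7,8,9,10] (.node (.cons 
(.leaf 1 [(4,2)]) (.cons (.leaf 3 [(9,2),(10,4)]) (.cons (.leaf 3 [(9,2),(10,4),(4,2)]) (.cons 
(.leaf 1 [(4,2)]) (.cons (.leaf 1 [(9,2),(10,4),(7,2)]) (.cons 
(.leaf 1 [(9,2),(10,4),(7,2),(4,2)]) .nil)))))))) .nil)))))))) .nil)))))))) (.cons (.leaf 1 [(1,2)]) (.cons 
(.leaf 1 [(1,2)]) (.cons (.leaf 1 [(1,2)]) .nil)))))))) (.cons (.leaf 1 [(1,2),(8,2)]) (.cons 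
(.leaf 1 [(1,1),(7,1)]) (.cons (.leaf 1 [(1,2),(8,2)]) .nil)))))))) (.cons (.leaf 1 [(1,2),(9,2)]) (.cons 
(.leaf 1 [(9,2),(1,2)]) (.cons (.leaf 1 [(9,2),(1,2)]) .nil)))))))) (.cons (.leaf 1 [(3,1),(8,1)]) (.cons 
(.keep [0,3,7,8] (.node (.cons (.leaf 1 [(4,1)]) (.cons (.leaf 1 []) (.cons (.leaf 1 [(4,1)]) (.cons 
(.leaf 1 [(4,1),(7,1),(8,1)]) (.cons (.leaf 3 [(9,2),(7,1)]) (.cons 
(.leaf 3 [(9,2),(4,2),(7,1)]) .nil)))))))) (.cons (.leaf 1 [(7,2),(1,1)]) (.cons 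
(.leaf 1 [(3,1),(1,1),(7,2)]) (.cons (.leaf 1 [(3,1),(1,1),(7,2)]) .nil)))))))) (.cons (.keep [1,3,5,7] 
(.node (.cons (.keep [2,5,7,8] (.node (.cons (.keep [4,5,6,9] (.node (.cons (.leaf 1 [(9,1)]) (.cons 
(.leaf 1 [(7,1)]) (.cons (.keep [0,6,7,9] (.node (.cons (.leaf 1 [(4,1),(7,1)]) (.cons (.keep [5,6,7,8] 
(.node (.cons (.leaf 1 [(2,2)]) (.cons (.leaf 1 [(2,2)]) (.cons (.leaf 1 [(2,2)]) (.cons 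
(.leaf 3 [(8,2),(9,2)]) (.cons (.leaf 1 [(6,2),(8,2)]) (.cons (.keep [0,1,6,8,9] (.node (.cons 
(.leaf 1 [(4,2),(9,2)]) (.cons (.keep [2,5,6,7,9] (.node (.cons (.leaf 1 [(2,1),(10,1)]) (.cons 
(.leaf 1 [(10,1),(2,1)]) (.cons (.leaf 1 [(10,1),(2,1)]) (.cons (.leaf 1 [(10,2),(6,2)]) (.cons 
(.keep [5,6,7,8,10] (.node (.cons (.leaf 1 [(2,2),(10,2)]) (.cons (.leaf 1 [(6,2),(3,2)]) (.cons 
(.leaf 1 [(2,2),(10,2)]) (.cons (.keep [5,6,7,9,10] (.node (.cons (.leaf 3 [(10,4)]) (.cons 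
(.leaf 3 [(10,4),(3,2)]) (.cons (.leaf 3 [(10,4),(3,2)]) (.cons (.leaf 1 [(1,2),(7,4)]) (.cons 
(.leaf 1 [(7,4),(3,2),(1,2)]) (.cons (.leaf 1 [(7,4),(3,2),(1,2)]) .nil)))))))) (.cons 
(.leaf 1 [(6,2),(3,2)]) (.cons (.keep [0,3,6,8,10] (.node (.cons (.leaf 1 [(4,2),(7,2)]) (.cons 
(.leaf 2 [(10,2),(7,1)]) (.cons (.leaf 2 [(10,2),(7,1),(4,1)]) (.cons (.leaf 1 [(4,2),(7,2)]) (.cons 
(.leaf 1 [(1,1),(8,2),(7,1)]) (.cons (.leaf 1 [(1,1),(8,2),(7,1),(4,1)]) .nil)))))))) .nil)))))))) (.cons 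
(.keep [4,6,8,9,10] (.node (.cons (.leaf 0 [(0,0)]) (.cons (.leaf 1 [(3,2)]) (.cons (.leaf 0 [(1,0)]) (.cons 
(.keep [1,5,6,8,10] (.node (.cons (.leaf 1 [(6,4),(8,2)]) (.cons (.leaf 1 [(6,4),(8,2),(3,2)]) (.cons 
(.leaf 1 [(6,4),(8,2),(3,2)]) (.cons (.leaf 1 [(6,2)]) (.cons (.leaf 1 [(6,2),(3,2)]) (.cons 
(.leaf 1 [(6,2),(3,2)]) .nil)))))))) (.cons (.leaf 1 [(3,2)]) (.cons (.keep [0,1,3,6,10] (.node (.cons 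
(.leaf 1 [(7,4),(9,2)]) (.cons (.leaf 1 [(7,4),(9,2),(3,2)]) (.cons (.leaf 1 [(7,4),(9,2),(3,2)]) (.cons 
(.leaf 1 [(7,2)]) (.cons (.leaf 1 [(7,2),(3,2)]) (.cons 
(.leaf 1 [(7,2),(3,2)]) .nil)))))))) .nil)))))))) .nil)))))))) (.cons (.keep [0,2,4,7,9] (.node (.cons 
(.leaf 1 [(2,1),(10,1)]) (.cons (.leaf 1 [(10,1),(2,1)]) (.cons (.leaf 1 [(10,1),(2,1)]) (.cons 
(.leaf 1 [(4,2),(8,2)]) (.cons (.leaf 1 [(8,2)]) (.cons (.leaf 1 [(4,2),(8,2)]) .nil)))))))) (.cons 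
(.leaf 1 [(4,2),(9,2)]) (.cons (.keep [1,5,6,9,10] (.node (.cons (.leaf 1 [(6,2)]) (.cons 
(.leaf 1 [(6,2),(3,2)]) (.cons (.leaf 1 [(6,2),(3,2)]) (.cons (.keep [4,5,6,8,9] (.node (.cons 
(.leaf 1 [(8,4)]) (.cons (.leaf 1 [(3,2),(7,2)]) (.cons (.leaf 1 [(3,2),(8,4)]) (.cons 
(.leaf 1 [(6,4),(1,2)]) (.cons (.leaf 1 [(3,2),(1,2),(6,4)]) (.cons 
(.leaf 1 [(3,2),(1,2),(6,4)]) .nil)))))))) (.cons (.keep [3,5,6,8,9] (.node (.cons (.leaf 1 [(8,4),(6,2)]) 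
(.cons (.leaf 1 [(7,2),(3,2)]) (.cons (.leaf 1 [(8,4),(6,2),(3,2)]) (.cons (.leaf 1 [(8,2)]) (.cons 
(.leaf 1 [(7,2),(3,2)]) (.cons (.leaf 1 [(8,2),(3,2)]) .nil)))))))) (.cons (.keep [3,4,6,8,9] (.node (.cons 
(.leaf 1 [(8,4),(6,2)]) (.cons (.leaf 1 [(3,2)]) (.cons (.leaf 1 [(8,4),(6,2),(3,2)]) (.cons 
(.leaf 1 [(8,2),(7,2)]) (.cons (.leaf 1 [(3,2)]) (.cons 
(.leaf 1 [(8,2),(7,2),(3,2)]) .nil)))))))) .nil)))))))) (.cons (.keep [0,1,4,9,10] (.node (.cons 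
(.leaf 1 [(7,2)]) (.cons (.leaf 1 [(7,2),(3,2)]) (.cons (.leaf 1 [(7,2),(3,2)]) (.cons 
(.leaf 1 [(4,2),(8,2)]) (.cons (.leaf 1 [(8,2)]) (.cons 
(.leaf 1 [(8,2),(4,2)]) .nil)))))))) .nil)))))))) .nil)))))))) (.cons (.keep [0,4,7,8] (.node (.cons 
(.leaf 1 [(2,2)]) (.cons (.leaf 1 [(2,2)]) (.cons (.leaf 1 [(2,2)]) (.cons (.leaf 3 [(8,2),(9,2)]) (.cons 
(.keep [5,6,7,8,9] (.node (.cons (.leaf 1 [(2,2),(8,2)]) (.cons (.leaf 1 [(2,2),(6,2),(3,2)]) (.cons 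
(.leaf 1 [(2,2),(8,2)]) (.cons (.leaf 1 [(10,1),(9,1)]) (.cons (.leaf 1 [(10,2),(6,2)]) (.cons 
(.leaf 1 [(0,2),(9,2),(10,2)]) .nil)))))))) (.cons (.keep [0,6,7,8,9] (.node (.cons (.leaf 1 [(2,2),(8,2)]) 
(.cons (.leaf 1 [(2,2),(8,2)]) (.cons (.leaf 1 [(2,2),(8,2)]) (.cons (.leaf 1 [(4,2),(9,2)]) (.cons 
(.keep [5,6,7,8,10] (.node (.cons (.leaf 1 [(9,1)]) (.cons (.leaf 1 [(9,1),(3,1)]) (.cons 
(.leaf 1 [(9,1),(3,1)]) (.cons (.keep [4,5,7,8,9] (.node (.cons (.leaf 3 [(10,4)]) (.cons 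
(.leaf 1 [(3,2),(7,2)]) (.cons (.leaf 3 [(3,2),(10,4)]) (.cons (.leaf 1 [(6,4),(1,2)]) (.cons 
(.leaf 1 [(3,2),(1,2),(6,4)]) (.cons (.leaf 1 [(3,2),(1,2),(6,4)]) .nil)))))))) (.cons (.keep [3,5,7,8,9] 
(.node (.cons (.leaf 3 [(10,4),(6,2)]) (.cons (.leaf 1 [(7,2),(3,2)]) (.cons (.leaf 3 [(10,4),(6,2),(3,2)]) 
(.cons (.leaf 1 [(10,1)]) (.cons (.leaf 1 [(7,2),(3,2)]) (.cons (.leaf 1 [(10,1),(3,1)]) .nil)))))))) (.cons 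
(.keep [3,4,7,8,9] (.node (.cons (.leaf 3 [(10,4),(6,2)]) (.cons (.leaf 1 [(3,2)]) (.cons 
(.leaf 3 [(10,4),(6,2),(3,2)]) (.cons (.leaf 1 [(10,1),(7,1)]) (.cons (.leaf 1 [(3,2)]) (.cons 
(.leaf 1 [(10,1),(7,1),(3,1)]) .nil)))))))) .nil)))))))) (.cons (.keep [0,6,7,8,9,10] (.node (.cons 
(.leaf 1 [(9,1)]) (.cons (.leaf 1 [(9,1),(3,1)]) (.cons (.leaf 1 [(9,1),(3,1)]) (.cons 
(.leaf 1 [(4,2),(11,2)]) (.cons (.leaf 1 [(9,2),(7,2),(11,2)]) (.cons 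
(.leaf 1 [(9,2),(7,2),(11,2),(4,2)]) .nil)))))))) .nil)))))))) .nil)))))))) (.cons (.leaf 1 [(4,1),(7,1)]) 
(.cons (.leaf 1 [(1,2),(8,2)]) (.cons (.leaf 1 [(1,2),(8,2)]) .nil)))))))) (.cons (.leaf 1 [(6,2),(1,2)]) 
(.cons (.leaf 1 [(1,2),(6,2)]) (.cons (.leaf 1 [(1,2),(6,2)]) .nil)))))))) (.cons (.keep [3,5,7,8,9] (.node 
(.cons (.leaf 1 [(10,1),(6,1)]) (.cons (.leaf 1 [(7,1)]) (.cons (.keep [0,6,7,9,10] (.node (.cons 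
(.leaf 1 [(4,1)]) (.cons (.keep [5,6,7,8,9] (.node (.cons (.leaf 1 [(8,1),(2,2)]) (.cons 
(.leaf 1 [(2,2),(6,1)]) (.cons (.leaf 1 [(2,2),(8,1)]) (.cons (.leaf 1 [(7,1),(9,1)]) (.cons 
(.leaf 1 [(6,2),(10,1)]) (.cons (.keep [6,7,8,9,10] (.node (.cons (.leaf 1 [(4,2),(10,1)]) (.cons 
(.keep [0,2,8,9,10] (.node (.cons (.leaf 1 [(2,1)]) (.cons (.leaf 1 [(2,1)]) (.cons (.leaf 1 [(2,1)]) (.cons 
(.leaf 1 [(10,1),(7,2)]) (.cons (.keep [5,6,7,8,10] (.node (.cons (.leaf 1 [(2,2),(10,1)]) (.cons 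
(.leaf 1 [(2,1),(6,1),(3,1)]) (.cons (.leaf 1 [(2,2),(10,1)]) (.cons (.keep [0,6,7,9,10] (.node (.cons 
(.leaf 3 [(10,1)]) (.cons (.leaf 3 [(10,1),(3,2)]) (.cons (.leaf 3 [(10,1),(3,2)]) (.cons (.leaf 1 [(7,1)]) 
(.cons (.leaf 1 [(7,1),(3,1)]) (.cons (.leaf 1 [(7,1),(3,1)]) .nil)))))))) (.cons 
(.leaf 1 [(9,1),(6,2),(3,2)]) (.cons (.keep [0,3,6,8,9,10] (.node (.cons (.leaf 2 [(4,1),(7,1)]) (.cons 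
(.leaf 2 [(7,1)]) (.cons (.leaf 2 [(7,1),(4,1)]) (.cons (.leaf 1 [(8,1)]) (.cons (.leaf 1 [(8,1),(3,1)]) 
(.cons (.leaf 1 [(8,1),(3,1)]) .nil)))))))) .nil)))))))) (.cons (.keep [1,4,7,8,10] (.node (.cons 
(.leaf 0 [(4,0)]) (.cons (.leaf 1 [(9,1),(3,2)]) (.cons (.leaf 0 [(5,0)]) (.cons (.keep [0,1,7,9,10] (.node 
(.cons (.leaf 1 [(7,1)]) (.cons (.leaf 1 [(7,1),(3,1)]) (.cons (.leaf 1 [(7,1),(3,1)]) (.cons 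
(.leaf 1 [(7,2),(9,1)]) (.cons (.leaf 1 [(7,2),(9,1),(3,2)]) (.cons 
(.leaf 1 [(7,2),(9,1),(3,2)]) .nil)))))))) (.cons (.leaf 1 [(9,1),(3,2)]) (.cons (.keep [0,1,3,7,9,10] (.node 
(.cons (.leaf 1 [(7,1)]) (.cons (.leaf 1 [(7,1),(3,1)]) (.cons (.leaf 1 [(7,1),(3,1)]) (.cons 
(.leaf 3 [(4,2),(10,1),(8,2)]) (.cons (.leaf 3 [(10,1),(8,2)]) (.cons 
(.leaf 3 [(10,1),(8,2),(4,2)]) .nil)))))))) .nil)))))))) .nil)))))))) (.cons (.keep [0,2,4,8,9,10] (.node 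
(.cons (.leaf 1 [(2,1)]) (.cons (.leaf 1 [(2,1)]) (.cons (.leaf 1 [(2,1)]) (.cons 
(.leaf 1 [(4,1),(7,1),(8,1)]) (.cons (.leaf 1 [(9,1),(8,2)]) (.cons 
(.leaf 1 [(9,1),(8,2),(4,2)]) .nil)))))))) (.cons (.leaf 1 [(4,2),(10,1)]) (.cons (.keep [0,1,6,8,10] (.node 
(.cons (.leaf 1 [(2,1)]) (.cons (.leaf 1 [(2,1)]) (.cons (.leaf 1 [(2,1)]) (.cons (.keep [4,5,7,8,10] (.node 
(.cons (.leaf 1 [(8,1)]) (.cons (.leaf 2 [(7,1),(3,2)]) (.cons (.leaf 1 [(8,1),(3,1)]) (.cons 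
(.leaf 1 [(6,1)]) (.cons (.leaf 1 [(6,1),(3,1)]) (.cons (.leaf 1 [(6,1),(3,1)]) .nil)))))))) (.cons 
(.keep [5,7,8,9,10] (.node (.cons (.leaf 1 [(7,1)]) (.cons (.leaf 1 [(2,1),(6,1),(3,1)]) (.cons 
(.leaf 1 [(7,1),(3,1)]) (.cons (.leaf 1 [(9,1),(7,2)]) (.cons (.leaf 1 [(9,1),(6,2),(3,2)]) (.cons 
(.leaf 1 [(9,1),(7,2),(3,2)]) .nil)))))))) (.cons (.keep [4,7,8,9,10] (.node (.cons (.leaf 1 [(7,1)]) (.cons 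
(.leaf 1 [(7,1),(3,1)]) (.cons (.leaf 1 [(7,1),(3,1)]) (.cons (.leaf 1 [(9,1),(7,2),(6,2)]) (.cons 
(.leaf 1 [(9,1),(3,2)]) (.cons (.leaf 1 [(9,1),(7,2),(6,2),(3,2)]) .nil)))))))) .nil)))))))) (.cons 
(.keep [0,1,4,8,9,10] (.node (.cons (.leaf 1 [(2,1)]) (.cons (.leaf 1 [(2,1)]) (.cons (.leaf 1 [(2,1)]) 
(.cons (.leaf 1 [(4,2),(9,1),(8,2)]) (.cons (.leaf 1 [(9,1),(8,2)]) (.cons 
(.leaf 1 [(9,1),(8,2),(4,2)]) .nil)))))))) .nil)))))))) .nil)))))))) (.cons (.keep [0,4,7,8,9] (.node (.cons 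
(.leaf 1 [(8,1),(2,2)]) (.cons (.leaf 1 [(2,2),(8,1)]) (.cons (.leaf 1 [(2,2),(8,1)]) (.cons 
(.leaf 1 [(4,1),(9,1),(7,1)]) (.cons (.keep [0,7,8,9,10] (.node (.cons (.leaf 1 [(2,1)]) (.cons 
(.leaf 1 [(2,1)]) (.cons (.leaf 1 [(2,1)]) (.cons (.leaf 1 [(9,1),(10,1)]) (.cons 
(.leaf 1 [(6,2),(10,1),(9,2)]) (.cons (.leaf 1 [(0,2),(10,1),(9,2)]) .nil)))))))) (.cons (.keep [4,7,8,9,10] 
(.node (.cons (.leaf 1 [(4,1),(7,1),(2,1)]) (.cons (.leaf 1 [(8,1),(7,2),(2,2)]) (.cons 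
(.leaf 1 [(8,1),(7,2),(2,2)]) (.cons (.leaf 1 [(4,2),(10,1)]) (.cons (.keep [0,6,7,8,9,10] (.node (.cons 
(.leaf 1 [(2,1)]) (.cons (.leaf 1 [(2,1)]) (.cons (.leaf 1 [(2,1)]) (.cons (.keep [4,5,7,8,9] (.node (.cons 
(.leaf 3 [(9,1)]) (.cons (.leaf 2 [(7,1),(3,2)]) (.cons (.leaf 3 [(9,1),(3,2)]) (.cons (.leaf 1 [(6,1)]) 
(.cons (.leaf 1 [(6,1),(3,1)]) (.cons (.leaf 1 [(6,1),(3,1)]) .nil)))))))) (.cons (.keep [5,7,8,9,10,11] 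
(.node (.cons (.leaf 2 [(2,1),(8,1)]) (.cons (.leaf 1 [(2,1),(6,1),(3,1)]) (.cons 
(.leaf 2 [(2,1),(8,1),(3,1)]) (.cons (.leaf 1 [(9,1),(8,1)]) (.cons (.leaf 1 [(9,1),(6,2),(3,2)]) (.cons 
(.leaf 1 [(9,1),(8,1),(3,1)]) .nil)))))))) (.cons (.keep [4,7,8,9,10,11] (.node (.cons 
(.leaf 1 [(4,1),(8,1)]) (.cons (.leaf 1 [(8,1)]) (.cons (.leaf 1 [(4,1),(8,1)]) (.cons 
(.leaf 1 [(9,1),(8,1),(6,1)]) (.cons (.leaf 1 [(9,1),(3,2)]) (.cons 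
(.leaf 1 [(9,1),(8,1),(6,1),(3,1)]) .nil)))))))) .nil)))))))) (.cons (.keep [0,6,7,8,9,10] (.node (.cons 
(.leaf 1 [(2,1)]) (.cons (.leaf 1 [(2,1)]) (.cons (.leaf 1 [(2,1)]) (.cons (.leaf 1 [(8,1),(4,2),(10,2)]) 
(.cons (.leaf 1 [(8,2),(9,1),(10,2)]) (.cons 
(.leaf 1 [(8,2),(9,1),(10,2),(4,2)]) .nil)))))))) .nil)))))))) .nil)))))))) (.cons (.leaf 1 [(4,1)]) (.cons 
(.leaf 1 [(8,2),(1,2),(9,1)]) (.cons (.leaf 1 [(8,2),(1,2),(9,1)]) .nil)))))))) (.cons 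
(.leaf 1 [(9,1),(1,2)]) (.cons (.leaf 1 [(1,1),(7,1)]) (.cons (.leaf 1 [(1,2),(9,1)]) .nil)))))))) (.cons 
(.keep [3,4,6,8,9] (.node (.cons (.leaf 1 [(10,1),(6,1)]) (.cons (.leaf 1 []) (.cons (.keep [6,7,8,9,10] 
(.node (.cons (.leaf 1 [(4,1),(7,1)]) (.cons (.keep [5,6,7,8,9] (.node (.cons (.leaf 1 [(7,1),(2,2)]) (.cons 
(.leaf 1 [(7,1),(2,2)]) (.cons (.leaf 1 [(7,1),(2,2)]) (.cons (.leaf 3 [(8,2),(10,1)]) (.cons 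
(.leaf 1 [(6,2),(10,1),(8,2)]) (.cons (.keep [0,3,6,7,8,10] (.node (.cons (.leaf 1 [(4,2),(10,2)]) (.cons 
(.leaf 1 [(10,2),(9,1)]) (.cons (.leaf 1 [(4,2),(10,2),(9,1)]) (.cons (.leaf 1 [(11,1),(4,2),(10,2)]) (.cons 
(.keep [5,6,7,9,10,11] (.node (.cons (.leaf 1 [(10,1),(2,1)]) (.cons (.leaf 1 [(10,1),(2,1)]) (.cons 
(.leaf 1 [(10,1),(2,1)]) (.cons (.keep [4,5,7,8,10] (.node (.cons (.leaf 3 [(10,4)]) (.cons 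
(.leaf 1 [(3,2),(7,2)]) (.cons (.leaf 3 [(3,2),(10,4)]) (.cons (.leaf 1 [(6,4),(1,2)]) (.cons 
(.leaf 1 [(3,2),(1,2),(6,4)]) (.cons (.leaf 1 [(3,2),(1,2),(6,4)]) .nil)))))))) (.cons (.keep [3,5,7,8,9,10] 
(.node (.cons (.leaf 2 [(2,1),(11,3)]) (.cons (.leaf 1 [(3,2),(7,3),(2,2)]) (.cons 
(.leaf 2 [(3,1),(11,3),(2,1)]) (.cons (.leaf 1 [(10,3),(1,2)]) (.cons (.leaf 1 [(10,1),(3,2),(7,2)]) (.cons 
(.leaf 1 [(3,2),(1,2),(10,3)]) .nil)))))))) (.cons (.keep [3,4,7,8,9,10] (.node (.cons 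
(.leaf 1 [(4,1),(11,2)]) (.cons (.leaf 1 [(10,1),(3,2)]) (.cons (.leaf 1 [(4,1),(11,2)]) (.cons 
(.leaf 1 [(10,3),(1,2),(7,4)]) (.cons (.leaf 1 [(10,1),(3,2)]) (.cons 
(.leaf 1 [(3,2),(1,2),(7,4),(10,3)]) .nil)))))))) .nil)))))))) (.cons (.keep [0,4,7,9,10,11] (.node (.cons 
(.leaf 1 [(7,1),(8,1),(4,3)]) (.cons (.leaf 1 [(2,1),(10,1)]) (.cons (.leaf 1 [(10,1),(2,1)]) (.cons 
(.leaf 1 [(7,1),(4,2)]) (.cons (.leaf 1 [(9,1),(7,2)]) (.cons 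
(.leaf 1 [(9,1),(4,2),(7,2)]) .nil)))))))) .nil)))))))) .nil)))))))) (.cons (.keep [0,4,6,7,9] (.node (.cons 
(.leaf 1 [(4,1),(7,1)]) (.cons (.leaf 1 [(8,1),(2,2)]) (.cons (.leaf 1 [(8,1),(2,2)]) (.cons 
(.leaf 1 [(4,1),(7,1)]) (.cons (.keep [5,6,7,8,9,10] (.node (.cons (.leaf 1 [(2,2),(8,2)]) (.cons 
(.leaf 1 [(3,1),(6,2),(2,2)]) (.cons (.leaf 1 [(2,2),(8,2),(9,1)]) (.cons (.leaf 1 [(11,1),(8,2)]) (.cons 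
(.leaf 1 [(11,1),(6,2)]) (.cons (.leaf 1 [(11,1),(10,2),(0,2)]) .nil)))))))) (.cons (.keep [0,6,7,8,9,10] 
(.node (.cons (.leaf 1 [(2,2),(8,2)]) (.cons (.leaf 1 [(2,2),(8,2),(9,1)]) (.cons 
(.leaf 1 [(2,2),(8,2),(9,1)]) (.cons (.leaf 1 [(11,1),(8,2)]) (.cons (.keep [5,6,7,8,9,11] (.node (.cons 
(.leaf 1 [(9,1),(2,1)]) (.cons (.leaf 1 [(9,1),(2,1)]) (.cons (.leaf 1 [(9,1),(2,1)]) (.cons 
(.keep [4,5,7,8,9] (.node (.cons (.leaf 3 [(10,4)]) (.cons (.leaf 1 [(3,2),(7,2)]) (.cons 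
(.leaf 3 [(3,2),(10,4)]) (.cons (.leaf 1 [(6,4),(1,2)]) (.cons (.leaf 1 [(3,2),(1,2),(6,4)]) (.cons 
(.leaf 1 [(3,2),(1,2),(6,4)]) .nil)))))))) (.cons (.keep [3,5,7,8,9,10] (.node (.cons 
(.leaf 2 [(2,1),(10,3)]) (.cons (.leaf 1 [(3,2),(7,3),(2,2)]) (.cons (.leaf 2 [(3,1),(10,3),(2,1)]) (.cons 
(.leaf 1 [(11,1),(10,1)]) (.cons (.leaf 1 [(11,1),(3,2),(7,2)]) (.cons 
(.leaf 1 [(3,1),(10,1),(11,1)]) .nil)))))))) (.cons (.keep [3,4,7,8,9,10] (.node (.cons 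
(.leaf 1 [(4,1),(10,2)]) (.cons (.leaf 1 [(10,2)]) (.cons (.leaf 1 [(4,1),(10,2)]) (.cons 
(.leaf 1 [(11,1),(10,1),(7,1)]) (.cons (.leaf 1 [(11,1),(3,2)]) (.cons 
(.leaf 1 [(3,1),(10,1),(7,1),(11,1)]) .nil)))))))) .nil)))))))) (.cons (.keep [0,6,7,8,9,10,11] (.node (.cons 
(.leaf 2 [(9,1),(4,2)]) (.cons (.leaf 3 [(10,1),(9,2)]) (.cons (.leaf 3 [(10,1),(4,2),(9,2)]) (.cons 
(.leaf 1 [(9,1),(7,1),(4,2)]) (.cons (.leaf 1 [(10,1),(7,2),(9,2)]) (.cons 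
(.leaf 1 [(10,1),(7,2),(4,2),(9,2)]) .nil)))))))) .nil)))))))) .nil)))))))) (.cons (.leaf 1 [(4,1),(7,1)]) 
(.cons (.leaf 1 [(1,2),(9,1)]) (.cons (.leaf 1 [(1,2),(9,1)]) .nil)))))))) (.cons 
(.leaf 1 [(9,1),(1,2),(7,2)]) (.cons (.leaf 1 [(1,1)]) (.cons (.leaf 1 [(1,2),(7,2),(9,1)]) .nil)))))))) 
(.cons (.leaf 1 [(1,1),(9,2)]) (.cons (.leaf 1 [(9,2),(3,1),(1,1)]) (.cons 
(.leaf 1 [(9,2),(3,1),(1,1)]) .nil)))))))) (.cons (.leaf 1 [(8,1),(3,1)]) (.cons (.keep [0,3,7,8] (.node 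
(.cons (.leaf 1 [(4,1),(7,1)]) (.cons (.leaf 1 [(8,1)]) (.cons (.leaf 1 [(8,1),(4,1)]) (.cons 
(.leaf 1 [(4,1),(7,1)]) (.cons (.leaf 2 [(9,2),(3,1),(8,1)]) (.cons 
(.leaf 2 [(9,2),(3,1),(8,1),(4,1)]) .nil)))))))) (.cons (.keep [1,5,6,8,9] (.node (.cons (.leaf 1 [(6,2)]) 
(.cons (.leaf 1 [(6,2),(3,1)]) (.cons (.leaf 1 [(6,2),(3,1)]) (.cons (.leaf 1 [(6,1),(9,1)]) (.cons 
(.leaf 1 [(6,1),(9,1),(3,1)]) (.cons (.leaf 1 [(6,1),(9,1),(3,1)]) .nil)))))))) (.cons 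
(.leaf 1 [(8,1),(3,1)]) (.cons (.keep [0,1,3,7,8] (.node (.cons (.leaf 1 [(7,2)]) (.cons 
(.leaf 1 [(7,2),(3,1)]) (.cons (.leaf 1 [(7,2),(3,1)]) (.cons (.leaf 1 [(4,1),(8,1)]) (.cons 
(.leaf 2 [(7,1),(10,1),(8,1)]) (.cons (.leaf 2 [(7,1),(10,1),(8,1),(4,1)]) .nil)))))))) .nil)))))))) (.cons 
(.keep [1,3,4,7] (.node (.cons (.keep [5,7,8,9] (.node (.cons (.keep [2,4,5,7] (.node (.cons (.leaf 1 []) 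
(.cons (.leaf 1 [(9,1),(8,1)]) (.cons (.keep [0,7,8,9] (.node (.cons (.leaf 1 [(7,1)]) (.cons 
(.keep [5,6,7,8] (.node (.cons (.leaf 1 [(2,2)]) (.cons (.leaf 1 [(2,2)]) (.cons (.leaf 1 [(2,2)]) (.cons 
(.leaf 3 [(8,2),(9,2)]) (.cons (.leaf 1 [(6,2),(8,2)]) (.cons (.keep [0,1,6,8,9] (.node (.cons 
(.leaf 1 [(4,2),(9,2)]) (.cons (.keep [2,5,6,7,9] (.node (.cons (.leaf 1 [(2,1),(10,1)]) (.cons 
(.leaf 1 [(10,1),(2,1)]) (.cons (.leaf 1 [(10,1),(2,1)]) (.cons (.leaf 1 [(10,2),(6,2)]) (.cons 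
(.keep [5,6,7,8,10] (.node (.cons (.leaf 1 [(2,2),(10,2)]) (.cons (.leaf 1 [(6,2),(3,2)]) (.cons 
(.leaf 1 [(2,2),(10,2)]) (.cons (.keep [5,6,7,9,10] (.node (.cons (.leaf 3 [(10,4)]) (.cons 
(.leaf 3 [(10,4),(3,2)]) (.cons (.leaf 3 [(10,4),(3,2)]) (.cons (.leaf 1 [(1,2),(7,4)]) (.cons 
(.leaf 1 [(7,4),(3,2),(1,2)]) (.cons (.leaf 1 [(7,4),(3,2),(1,2)]) .nil)))))))) (.cons 
(.leaf 1 [(6,2),(3,2)]) (.cons (.keep [0,3,6,8,10] (.node (.cons (.leaf 1 [(4,2),(7,2)]) (.cons 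
(.leaf 2 [(10,2),(7,1)]) (.cons (.leaf 2 [(10,2),(7,1),(4,1)]) (.cons (.leaf 1 [(4,2),(7,2)]) (.cons 
(.leaf 1 [(1,1),(8,2),(7,1)]) (.cons (.leaf 1 [(1,1),(8,2),(7,1),(4,1)]) .nil)))))))) .nil)))))))) (.cons 
(.keep [4,6,8,9,10] (.node (.cons (.leaf 0 [(0,0)]) (.cons (.leaf 1 [(3,2)]) (.cons (.leaf 0 [(1,0)]) (.cons 
(.keep [1,5,6,8,10] (.node (.cons (.leaf 1 [(6,4),(8,2)]) (.cons (.leaf 1 [(6,4),(8,2),(3,2)]) (.cons 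
(.leaf 1 [(6,4),(8,2),(3,2)]) (.cons (.leaf 1 [(6,2)]) (.cons (.leaf 1 [(6,2),(3,2)]) (.cons 
(.leaf 1 [(6,2),(3,2)]) .nil)))))))) (.cons (.leaf 1 [(3,2)]) (.cons (.keep [0,1,3,6,10] (.node (.cons 
(.leaf 1 [(7,4),(9,2)]) (.cons (.leaf 1 [(7,4),(9,2),(3,2)]) (.cons (.leaf 1 [(7,4),(9,2),(3,2)]) (.cons 
(.leaf 1 [(7,2)]) (.cons (.leaf 1 [(7,2),(3,2)]) (.cons 
(.leaf 1 [(7,2),(3,2)]) .nil)))))))) .nil)))))))) .nil)))))))) (.cons (.keep [0,2,4,7,9] (.node (.cons 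
(.leaf 1 [(2,1),(10,1)]) (.cons (.leaf 1 [(10,1),(2,1)]) (.cons (.leaf 1 [(10,1),(2,1)]) (.cons 
(.leaf 1 [(4,2),(8,2)]) (.cons (.leaf 1 [(8,2)]) (.cons (.leaf 1 [(4,2),(8,2)]) .nil)))))))) (.cons 
(.leaf 1 [(4,2),(9,2)]) (.cons (.keep [1,5,6,9,10] (.node (.cons (.leaf 1 [(6,2)]) (.cons 
(.leaf 1 [(6,2),(3,2)]) (.cons (.leaf 1 [(6,2),(3,2)]) (.cons (.keep [4,5,6,8,9] (.node (.cons 
(.leaf 1 [(8,4)]) (.cons (.leaf 1 [(3,2),(7,2)]) (.cons (.leaf 1 [(3,2),(8,4)]) (.cons 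
(.leaf 1 [(6,4),(1,2)]) (.cons (.leaf 1 [(3,2),(1,2),(6,4)]) (.cons 
(.leaf 1 [(3,2),(1,2),(6,4)]) .nil)))))))) (.cons (.keep [3,5,6,8,9] (.node (.cons (.leaf 1 [(8,4),(6,2)]) 
(.cons (.leaf 1 [(7,2),(3,2)]) (.cons (.leaf 1 [(8,4),(6,2),(3,2)]) (.cons (.leaf 1 [(8,2)]) (.cons 
(.leaf 1 [(7,2),(3,2)]) (.cons (.leaf 1 [(8,2),(3,2)]) .nil)))))))) (.cons (.keep [3,4,6,8,9] (.node (.cons 
(.leaf 1 [(8,4),(6,2)]) (.cons (.leaf 1 [(3,2)]) (.cons (.leaf 1 [(8,4),(6,2),(3,2)]) (.cons 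
(.leaf 1 [(8,2),(7,2)]) (.cons (.leaf 1 [(3,2)]) (.cons 
(.leaf 1 [(8,2),(7,2),(3,2)]) .nil)))))))) .nil)))))))) (.cons (.keep [0,1,4,9,10] (.node (.cons 
(.leaf 1 [(7,2)]) (.cons (.leaf 1 [(7,2),(3,2)]) (.cons (.leaf 1 [(7,2),(3,2)]) (.cons 
(.leaf 1 [(4,2),(8,2)]) (.cons (.leaf 1 [(8,2)]) (.cons 
(.leaf 1 [(8,2),(4,2)]) .nil)))))))) .nil)))))))) .nil)))))))) (.cons (.keep [4,6,7,8,9] (.node (.cons 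
(.leaf 1 [(4,1),(9,1)]) (.cons (.leaf 1 [(2,2),(10,1)]) (.cons (.leaf 1 [(2,2),(10,1)]) (.cons 
(.leaf 1 [(4,1),(9,1)]) (.cons (.leaf 1 [(8,2),(10,3)]) (.cons (.keep [0,7,8,9,10] (.node (.cons 
(.leaf 1 [(4,1),(2,1),(8,1)]) (.cons (.leaf 1 [(6,1),(2,2),(8,1)]) (.cons (.leaf 1 [(0,1),(2,2),(8,1),(4,1)]) 
(.cons (.leaf 1 [(4,1),(9,1),(8,1)]) (.cons (.keep [3,5,6,8,10] (.node (.cons (.leaf 1 []) (.cons 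
(.leaf 1 [(3,1)]) (.cons (.leaf 1 [(3,1)]) (.cons (.keep [4,5,6,9,10] (.node (.cons (.leaf 1 [(8,1)]) (.cons 
(.leaf 2 [(7,1),(3,2)]) (.cons (.leaf 1 [(8,1),(3,1)]) (.cons (.leaf 1 [(6,1)]) (.cons 
(.leaf 1 [(6,1),(3,1)]) (.cons (.leaf 1 [(6,1),(3,1)]) .nil)))))))) (.cons (.keep [5,7,8,9,10] (.node (.cons 
(.leaf 1 [(7,1),(9,1)]) (.cons (.leaf 1 [(3,1),(9,1),(7,1)]) (.cons (.leaf 1 [(3,1),(9,1),(7,1)]) (.cons 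
(.leaf 1 []) (.cons (.leaf 1 [(3,1)]) (.cons (.leaf 1 [(3,1)]) .nil)))))))) (.cons (.keep [4,6,8,9,10] (.node 
(.cons (.leaf 1 [(7,1)]) (.cons (.leaf 1 [(3,1),(7,1)]) (.cons (.leaf 1 [(3,1),(7,1)]) (.cons 
(.leaf 1 [(6,1)]) (.cons (.leaf 1 [(3,1),(6,1)]) (.cons (.leaf 1 [(3,1),(6,1)]) .nil)))))))) .nil)))))))) 
(.cons (.keep [0,3,6,8,9,10] (.node (.cons (.leaf 1 []) (.cons (.leaf 1 [(3,1)]) (.cons (.leaf 1 [(3,1)]) 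
(.cons (.leaf 1 [(4,2),(11,1),(10,2)]) (.cons (.leaf 1 [(11,1),(8,2),(10,2)]) (.cons 
(.leaf 1 [(11,1),(8,2),(10,2),(4,2)]) .nil)))))))) .nil)))))))) .nil)))))))) (.cons (.leaf 1 [(7,1),(1,1)]) 
(.cons (.leaf 1 [(1,3),(8,2)]) (.cons (.leaf 1 [(1,2),(8,2),(9,1)]) .nil)))))))) (.cons (.leaf 1 [(1,1)]) 
(.cons (.leaf 1 [(9,1),(1,2),(7,2)]) (.cons (.leaf 1 [(9,1),(1,2),(7,2)]) .nil)))))))) (.cons 
(.keep [2,3,5,7] (.node (.cons (.leaf 1 [(7,1)]) (.cons (.leaf 1 [(9,1),(8,1),(7,1)]) (.cons (.keep [0,7,8,9] 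
(.node (.cons (.leaf 1 []) (.cons (.keep [5,6,7,8,9] (.node (.cons (.leaf 1 [(8,1),(2,2)]) (.cons 
(.leaf 1 [(2,2),(6,1)]) (.cons (.leaf 1 [(2,2),(8,1)]) (.cons (.leaf 1 [(7,1),(9,1)]) (.cons 
(.leaf 1 [(6,2),(10,1)]) (.cons (.keep [6,7,8,9,10] (.node (.cons (.leaf 1 [(4,2),(10,1)]) (.cons 
(.keep [0,2,8,9,10] (.node (.cons (.leaf 1 [(2,1)]) (.cons (.leaf 1 [(2,1)]) (.cons (.leaf 1 [(2,1)]) (.cons 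
(.leaf 1 [(10,1),(7,2)]) (.cons (.keep [5,6,7,8,10] (.node (.cons (.leaf 1 [(2,2),(10,1)]) (.cons 
(.leaf 1 [(2,1),(6,1),(3,1)]) (.cons (.leaf 1 [(2,2),(10,1)]) (.cons (.keep [0,6,7,9,10] (.node (.cons 
(.leaf 3 [(10,1)]) (.cons (.leaf 3 [(10,1),(3,2)]) (.cons (.leaf 3 [(10,1),(3,2)]) (.cons (.leaf 1 [(7,1)]) 
(.cons (.leaf 1 [(7,1),(3,1)]) (.cons (.leaf 1 [(7,1),(3,1)]) .nil)))))))) (.cons 
(.leaf 1 [(9,1),(6,2),(3,2)]) (.cons (.keep [0,3,6,8,9,10] (.node (.cons (.leaf 2 [(4,1),(7,1)]) (.cons 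
(.leaf 2 [(7,1)]) (.cons (.leaf 2 [(7,1),(4,1)]) (.cons (.leaf 1 [(8,1)]) (.cons (.leaf 1 [(8,1),(3,1)]) 
(.cons (.leaf 1 [(8,1),(3,1)]) .nil)))))))) .nil)))))))) (.cons (.keep [1,4,7,8,10] (.node (.cons 
(.leaf 0 [(4,0)]) (.cons (.leaf 1 [(9,1),(3,2)]) (.cons (.leaf 0 [(5,0)]) (.cons (.keep [0,1,7,9,10] (.node 
(.cons (.leaf 1 [(7,1)]) (.cons (.leaf 1 [(7,1),(3,1)]) (.cons (.leaf 1 [(7,1),(3,1)]) (.cons 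
(.leaf 1 [(7,2),(9,1)]) (.cons (.leaf 1 [(7,2),(9,1),(3,2)]) (.cons 
(.leaf 1 [(7,2),(9,1),(3,2)]) .nil)))))))) (.cons (.leaf 1 [(9,1),(3,2)]) (.cons (.keep [0,1,3,7,9,10] (.node 
(.cons (.leaf 1 [(7,1)]) (.cons (.leaf 1 [(7,1),(3,1)]) (.cons (.leaf 1 [(7,1),(3,1)]) (.cons 
(.leaf 3 [(4,2),(10,1),(8,2)]) (.cons (.leaf 3 [(10,1),(8,2)]) (.cons 
(.leaf 3 [(10,1),(8,2),(4,2)]) .nil)))))))) .nil)))))))) .nil)))))))) (.cons (.keep [0,2,4,8,9,10] (.node 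
(.cons (.leaf 1 [(2,1)]) (.cons (.leaf 1 [(2,1)]) (.cons (.leaf 1 [(2,1)]) (.cons 
(.leaf 1 [(4,1),(7,1),(8,1)]) (.cons (.leaf 1 [(9,1),(8,2)]) (.cons 
(.leaf 1 [(9,1),(8,2),(4,2)]) .nil)))))))) (.cons (.leaf 1 [(4,2),(10,1)]) (.cons (.keep [0,1,6,8,10] (.node 
(.cons (.leaf 1 [(2,1)]) (.cons (.leaf 1 [(2,1)]) (.cons (.leaf 1 [(2,1)]) (.cons (.keep [4,5,7,8,10] (.node 
(.cons (.leaf 1 [(8,1)]) (.cons (.leaf 2 [(7,1),(3,2)]) (.cons (.leaf 1 [(8,1),(3,1)]) (.cons 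
(.leaf 1 [(6,1)]) (.cons (.leaf 1 [(6,1),(3,1)]) (.cons (.leaf 1 [(6,1),(3,1)]) .nil)))))))) (.cons 
(.keep [5,7,8,9,10] (.node (.cons (.leaf 1 [(7,1)]) (.cons (.leaf 1 [(2,1),(6,1),(3,1)]) (.cons 
(.leaf 1 [(7,1),(3,1)]) (.cons (.leaf 1 [(9,1),(7,2)]) (.cons (.leaf 1 [(9,1),(6,2),(3,2)]) (.cons 
(.leaf 1 [(9,1),(7,2),(3,2)]) .nil)))))))) (.cons (.keep [4,7,8,9,10] (.node (.cons (.leaf 1 [(7,1)]) (.cons 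
(.leaf 1 [(7,1),(3,1)]) (.cons (.leaf 1 [(7,1),(3,1)]) (.cons (.leaf 1 [(9,1),(7,2),(6,2)]) (.cons 
(.leaf 1 [(9,1),(3,2)]) (.cons (.leaf 1 [(9,1),(7,2),(6,2),(3,2)]) .nil)))))))) .nil)))))))) (.cons 
(.keep [0,1,4,8,9,10] (.node (.cons (.leaf 1 [(2,1)]) (.cons (.leaf 1 [(2,1)]) (.cons (.leaf 1 [(2,1)]) 
(.cons (.leaf 1 [(4,2),(9,1),(8,2)]) (.cons (.leaf 1 [(9,1),(8,2)]) (.cons 
(.leaf 1 [(9,1),(8,2),(4,2)]) .nil)))))))) .nil)))))))) .nil)))))))) (.cons (.keep [4,6,7,8,9] (.node (.cons 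
(.leaf 1 [(2,2),(8,2),(4,1)]) (.cons (.leaf 1 [(8,2),(2,2)]) (.cons (.leaf 1 [(8,2),(4,1),(2,2)]) (.cons 
(.leaf 1 [(9,1),(4,1)]) (.cons (.leaf 1 [(8,2),(10,3)]) (.cons (.keep [0,7,8,9,10] (.node (.cons 
(.leaf 1 [(4,1),(2,1)]) (.cons (.leaf 1 [(8,1),(2,2),(6,1)]) (.cons (.leaf 1 [(8,1),(2,2),(0,1),(4,1)]) 
(.cons (.leaf 1 [(4,2),(10,1)]) (.cons (.keep [5,6,7,8,10] (.node (.cons (.leaf 1 [(9,1)]) (.cons 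
(.leaf 1 [(3,1),(2,3),(6,2)]) (.cons (.leaf 1 [(3,1),(9,1)]) (.cons (.keep [4,5,7,8,9] (.node (.cons 
(.leaf 3 [(10,2)]) (.cons (.leaf 3 [(10,2),(3,2)]) (.cons (.leaf 3 [(10,2),(3,2)]) (.cons 
(.leaf 1 [(10,1),(6,1)]) (.cons (.leaf 1 [(10,1),(6,1),(3,1)]) (.cons 
(.leaf 1 [(10,1),(6,1),(3,1)]) .nil)))))))) (.cons (.keep [3,5,7,8,9] (.node (.cons (.leaf 1 [(6,1),(2,2)]) 
(.cons (.leaf 1 [(2,2),(6,1)]) (.cons (.leaf 1 [(2,2),(6,1)]) (.cons (.leaf 1 [(10,1)]) (.cons 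
(.leaf 1 [(10,1),(3,1)]) (.cons (.leaf 1 [(10,1),(3,1)]) .nil)))))))) (.cons (.keep [3,4,7,8,9] (.node (.cons 
(.leaf 1 [(4,1)]) (.cons (.leaf 1 []) (.cons (.leaf 1 [(4,1)]) (.cons (.leaf 1 [(7,1),(10,1)]) (.cons 
(.leaf 1 [(10,1),(3,1),(7,1)]) (.cons (.leaf 1 [(10,1),(3,1),(7,1)]) .nil)))))))) .nil)))))))) (.cons 
(.keep [0,6,7,8,9,10] (.node (.cons (.leaf 1 [(9,1)]) (.cons (.leaf 1 [(3,1),(9,1)]) (.cons 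
(.leaf 1 [(3,1),(9,1)]) (.cons (.leaf 1 [(4,2),(10,2)]) (.cons (.leaf 1 [(10,2),(9,1),(7,1)]) (.cons 
(.leaf 1 [(4,2),(9,1),(10,2),(7,1)]) .nil)))))))) .nil)))))))) .nil)))))))) (.cons (.leaf 1 [(1,1)]) (.cons 
(.leaf 1 [(8,2),(1,2),(9,1)]) (.cons (.leaf 1 [(8,2),(1,2),(9,1)]) .nil)))))))) (.cons 
(.leaf 1 [(7,1),(1,1)]) (.cons (.leaf 1 [(9,1),(1,2)]) (.cons (.leaf 1 [(9,1),(1,2)]) .nil)))))))) (.cons 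
(.keep [2,3,4,7] (.node (.cons (.leaf 1 [(7,1)]) (.cons (.leaf 1 [(9,1),(7,1)]) (.cons (.keep [0,7,8,9] 
(.node (.cons (.leaf 1 [(8,1)]) (.cons (.keep [2,5,7,8,9] (.node (.cons (.leaf 1 [(8,1),(2,2)]) (.cons 
(.leaf 1 [(8,1),(2,2)]) (.cons (.leaf 1 [(8,1),(2,2)]) (.cons (.leaf 1 [(9,1),(6,1)]) (.cons 
(.leaf 1 [(7,2),(10,1),(9,2)]) (.cons (.keep [0,6,7,8,9,10] (.node (.cons (.leaf 1 [(4,2),(10,2)]) (.cons 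
(.leaf 1 [(10,2),(9,1)]) (.cons (.leaf 1 [(4,2),(10,2),(9,1)]) (.cons (.leaf 1 [(11,1),(4,2),(10,2)]) (.cons 
(.keep [5,6,7,9,10,11] (.node (.cons (.leaf 1 [(10,1),(2,1)]) (.cons (.leaf 1 [(10,1),(2,1)]) (.cons 
(.leaf 1 [(10,1),(2,1)]) (.cons (.keep [4,5,7,8,10] (.node (.cons (.leaf 3 [(10,4)]) (.cons 
(.leaf 1 [(3,2),(7,2)]) (.cons (.leaf 3 [(3,2),(10,4)]) (.cons (.leaf 1 [(6,4),(1,2)]) (.cons 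
(.leaf 1 [(3,2),(1,2),(6,4)]) (.cons (.leaf 1 [(3,2),(1,2),(6,4)]) .nil)))))))) (.cons (.keep [3,5,7,8,9,10] 
(.node (.cons (.leaf 2 [(2,1),(11,3)]) (.cons (.leaf 1 [(3,2),(7,3),(2,2)]) (.cons 
(.leaf 2 [(3,1),(11,3),(2,1)]) (.cons (.leaf 1 [(10,3),(1,2)]) (.cons (.leaf 1 [(10,1),(3,2),(7,2)]) (.cons 
(.leaf 1 [(3,2),(1,2),(10,3)]) .nil)))))))) (.cons (.keep [3,4,7,8,9,10] (.node (.cons 
(.leaf 1 [(4,1),(11,2)]) (.cons (.leaf 1 [(10,1),(3,2)]) (.cons (.leaf 1 [(4,1),(11,2)]) (.cons 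
(.leaf 1 [(10,3),(1,2),(7,4)]) (.cons (.leaf 1 [(10,1),(3,2)]) (.cons 
(.leaf 1 [(3,2),(1,2),(7,4),(10,3)]) .nil)))))))) .nil)))))))) (.cons (.keep [0,4,7,9,10,11] (.node (.cons 
(.leaf 1 [(10,1),(2,1)]) (.cons (.leaf 1 [(2,1),(10,1)]) (.cons (.leaf 1 [(10,1),(2,1)]) (.cons 
(.leaf 1 [(7,1),(4,2)]) (.cons (.leaf 1 [(9,1),(7,2)]) (.cons 
(.leaf 1 [(9,1),(4,2),(7,2)]) .nil)))))))) .nil)))))))) .nil)))))))) (.cons (.keep [4,6,7,8,9] (.node (.cons 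
(.leaf 1 [(4,1)]) (.cons (.leaf 1 [(2,2),(8,2),(10,1)]) (.cons (.leaf 1 [(2,2),(8,2),(10,1)]) (.cons 
(.leaf 1 [(4,1)]) (.cons (.leaf 1 [(9,2),(8,2),(10,3)]) (.cons (.keep [0,7,8,9,10] (.node (.cons 
(.leaf 1 [(4,1),(2,1),(9,1)]) (.cons (.leaf 1 [(8,1),(2,1),(9,1)]) (.cons (.leaf 1 [(8,1),(2,1),(9,1),(4,1)]) 
(.cons (.leaf 1 [(4,2),(9,2),(10,1)]) (.cons (.keep [0,3,8,9,10] (.node (.cons (.leaf 1 [(2,1)]) (.cons 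
(.leaf 1 [(2,1)]) (.cons (.leaf 1 [(2,1)]) (.cons (.keep [4,5,7,9,10] (.node (.cons (.leaf 1 [(8,1)]) (.cons 
(.leaf 2 [(7,1),(3,2)]) (.cons (.leaf 1 [(8,1),(3,1)]) (.cons (.leaf 1 [(6,1)]) (.cons 
(.leaf 1 [(6,1),(3,1)]) (.cons (.leaf 1 [(6,1),(3,1)]) .nil)))))))) (.cons (.keep [5,7,8,9,10] (.node (.cons 
(.leaf 1 [(8,1),(7,1)]) (.cons (.leaf 1 [(2,1),(6,1),(3,1)]) (.cons (.leaf 1 [(8,1),(7,1),(3,1)]) (.cons 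
(.leaf 1 [(8,1)]) (.cons (.leaf 1 [(8,1),(3,1)]) (.cons (.leaf 1 [(8,1),(3,1)]) .nil)))))))) (.cons 
(.keep [4,7,8,9,10] (.node (.cons (.leaf 1 [(8,1),(7,1)]) (.cons (.leaf 2 [(8,1),(3,2)]) (.cons 
(.leaf 1 [(8,1),(7,1),(3,1)]) (.cons (.leaf 1 [(8,1),(6,1)]) (.cons (.leaf 1 [(6,1),(8,1),(3,1)]) (.cons 
(.leaf 1 [(8,1),(6,1),(3,1)]) .nil)))))))) .nil)))))))) (.cons (.keep [3,4,8,9,10] (.node (.cons 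
(.leaf 1 [(8,1)]) (.cons (.leaf 1 [(8,1),(3,1)]) (.cons (.leaf 1 [(8,1),(3,1)]) (.cons 
(.leaf 1 [(4,2),(10,1)]) (.cons (.leaf 1 [(7,2),(8,2),(10,1)]) (.cons 
(.leaf 1 [(7,2),(8,2),(10,1),(4,2)]) .nil)))))))) .nil)))))))) .nil)))))))) (.cons (.leaf 1 [(8,1),(1,1)]) 
(.cons (.leaf 1 [(1,2),(9,1)]) (.cons (.leaf 1 [(1,2),(9,1)]) .nil)))))))) (.cons (.leaf 1 [(7,1),(1,1)]) 
(.cons (.leaf 1 [(9,1),(1,1),(7,1)]) (.cons (.leaf 1 [(9,1),(1,2),(8,2)]) .nil)))))))) (.cons 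
(.keep [1,4,5,8,9] (.node (.cons (.leaf 1 [(10,1)]) (.cons (.leaf 2 [(8,1)]) (.cons (.keep [6,7,8,9,10] 
(.node (.cons (.leaf 1 [(4,1),(6,1)]) (.cons (.leaf 1 [(6,1)]) (.cons (.leaf 1 [(6,1),(4,1)]) (.cons 
(.leaf 2 [(4,1),(7,1)]) (.cons (.leaf 2 [(6,1),(8,1)]) (.cons (.leaf 2 [(6,1),(8,1),(4,1)]) .nil)))))))) 
(.cons (.leaf 1 [(7,1),(1,1)]) (.cons (.leaf 1 [(1,1),(7,1)]) (.cons (.leaf 1 [(1,1),(7,1)]) .nil)))))))) 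
(.cons (.keep [1,3,5,7,9] (.node (.cons (.leaf 1 [(7,1),(10,1)]) (.cons (.leaf 2 [(8,1),(7,1)]) (.cons 
(.keep [0,6,7,8,9,10] (.node (.cons (.leaf 2 [(4,1),(8,1)]) (.cons (.leaf 1 [(7,1),(8,1)]) (.cons 
(.leaf 1 [(7,1),(8,1),(4,1)]) (.cons (.leaf 2 [(4,1),(8,1)]) (.cons (.leaf 2 [(9,1),(7,1),(8,1)]) (.cons 
(.leaf 2 [(9,1),(7,1),(8,1),(4,1)]) .nil)))))))) (.cons (.leaf 1 [(1,1)]) (.cons (.leaf 1 [(1,1)]) (.cons 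
(.leaf 1 [(1,1)]) .nil)))))))) (.cons (.keep [1,3,4,7,9] (.node (.cons (.leaf 1 [(7,1),(10,1)]) (.cons 
(.leaf 1 [(6,1),(3,1)]) (.cons (.keep [0,6,7,8,9,10] (.node (.cons (.leaf 1 [(4,1),(7,1),(8,1)]) (.cons 
(.leaf 1 [(7,1),(8,1)]) (.cons (.leaf 1 [(7,1),(8,1),(4,1)]) (.cons (.leaf 1 [(1,1)]) (.cons 
(.leaf 1 [(1,1)]) (.cons (.leaf 1 [(1,1)]) .nil)))))))) (.cons (.leaf 1 [(1,1),(8,1)]) (.cons 
(.leaf 1 [(6,1),(3,1)]) (.cons (.leaf 1 [(1,1),(8,1)]) .nil)))))))) .nil)))))))) (.cons (.leaf 1 [(3,1)]) 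
(.cons (.keep [0,3,7,8] (.node (.cons (.leaf 1 [(4,1),(8,1)]) (.cons (.leaf 1 [(8,1)]) (.cons 
(.leaf 1 [(8,1),(4,1)]) (.cons (.leaf 2 [(4,1),(1,1),(7,1)]) (.cons (.leaf 2 [(1,1),(7,1)]) (.cons 
(.leaf 2 [(1,1),(7,1),(4,1)]) .nil)))))))) (.cons (.keep [1,5,7,8,9] (.node (.cons (.leaf 1 [(6,3),(8,1)]) 
(.cons (.leaf 1 [(6,3),(8,1),(3,2)]) (.cons (.leaf 1 [(6,3),(8,1),(3,2)]) (.cons (.leaf 1 [(6,1)]) (.cons 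
(.leaf 1 [(6,1),(3,1)]) (.cons (.leaf 1 [(6,1),(3,1)]) .nil)))))))) (.cons (.leaf 1 [(3,1)]) (.cons 
(.keep [0,1,3,7,8] (.node (.cons (.leaf 1 [(7,1),(4,1),(9,1)]) (.cons (.leaf 1 [(7,1),(9,1)]) (.cons 
(.leaf 1 [(7,1),(9,1),(4,1)]) (.cons (.leaf 1 [(7,1)]) (.cons (.leaf 1 [(7,1),(3,1)]) (.cons 
(.leaf 1 [(7,1),(3,1)]) .nil)))))))) .nil)))))))) .nil))))))))

def S : List (List ((ℕ × List (ℕ × ℕ)) × (ℕ × List (ℕ × ℕ)))) := [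
  [((1, []), (1, [])), ((1, []), (1, [])), ((1, []), (1, [])), ((1, []), (1, [])), ((1, []), (1, [])), ((1, [(10,2)]), (1, [(8,2)])), ((1, [(10,2)]), (1, [(8,2)])), ((1, []), (1, [])), ((1, [(10,2)]), (1, [(8,2)])), ((1, [(8,2)]), (1, [(10,2)]))],
  [((1, []), (1, [])), ((1, []), (1, [])), ((1, []), (1, [])), ((1, []), (1, [])), ((1, []), (1, [])), ((1, [(10,2)]), (1, [(0,2),(3,2)])), ((1, [(10,2)]), (1, [(0,2),(3,2)])), ((1, []), (1, [])), ((1, [(10,2),(3,2)]), (1, [(0,2)])), ((1, [(0,2),(3,2)]), (1, [(10,2)]))],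
  [((1, []), (1, [])), ((1, []), (1, [])), ((1, []), (1, [])), ((1, [(9,2)]), (1, [(8,2)])), ((1, [(9,2)]), (1, [(8,2)])), ((1, []), (1, [])), ((1, [(9,2)]), (1, [(8,2)])), ((1, [(8,2)]), (1, [(9,2)])), ((1, [(9,2)]), (1, [(8,2)])), ((1, [(8,2)]), (1, [(9,2)]))],
  [((1, []), (1, [])), ((1, []), (1, [])), ((1, []), (1, [])), ((1, [(9,2)]), (1, [(3,2),(0,2)])), ((1, [(9,2)]), (1, [(3,2),(0,2)])), ((1, []), (1, [])), ((1, [(9,2)]), (1, [(3,2),(0,2)])), ((1, [(3,2),(0,2)]), (1, [(9,2)])), ((1, [(9,2),(3,2)]), (1, [(0,2)])), ((1, [(3,2),(0,2)]), (1, [(9,2)]))],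
  [((1, []), (1, [])), ((1, [(10,1)]), (1, [(9,1)])), ((1, [(9,1)]), (1, [(10,1)])), ((1, [(9,1)]), (1, [(10,1)])), ((1, [(9,1)]), (1, [(10,1)])), ((1, [(10,1)]), (1, [(9,1)])), ((1, []), (1, [])), ((1, [(10,1)]), (1, [(9,1)])), ((1, []), (1, [])), ((1, []), (1, []))],
  [((1, []), (1, [])), ((1, [(10,1)]), (1, [(9,1)])), ((1, [(9,1)]), (1, [(10,1)])), ((1, [(9,1)]), (1, [(10,1)])), ((1, [(9,1)]), (1, [(10,1)])), ((1, [(10,1)]), (1, [(9,1)])), ((1, []), (1, [])), ((1, [(10,1)]), (1, [(9,1)])), ((1, [(3,2)]), (1, [(0,2)])), ((1, []), (1, []))]]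

def cs : List (Option ℤ) := [some 2, some (-1), some 1, some (-1), some (-1), some (-1), some (-2), some 1, some (-2), some 2]

def cz : List ℤ := [2, -1, 1, -1, -1, -1, -2, 1, -2, 2]

theorem cs_cz : ∀ k < 10, cs.getD k none = some (cz.getD k 0) := by decide

theorem ok : ok3 5 26 2 cs S t = true := by decide +kernel

theorem noBack {a b : ℕ → ℝ} (ha : Pat 5 a) (hb : Pat 26 b) : NoBack a b := by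
  intro l X hX
  have ha0 := pat_pos ha (i := 0) (by norm_num) (by decide)
  have ha1 := pat_zero ha (i := 1) (by norm_num) (by decide)
  have ha2 := pat_pos ha (i := 2) (by norm_num) (by decide)
  have ha3 := pat_zero ha (i := 3) (by norm_num) (by decide)
  have ha4 := pat_zero ha (i := 4) (by norm_num) (by decide)
  have hb0 := pat_zero hb (i := 0) (by norm_num) (by decide)
  have hb1 := pat_pos hb (i := 1) (by norm_num) (by decide)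
  have hb2 := pat_zero hb (i := 2) (by norm_num) (by decide)
  have hb3 := pat_pos hb (i := 3) (by norm_num) (by decide)
  have hb4 := pat_pos hb (i := 4) (by norm_num) (by decide)
  obtain ⟨M, r, hM, htop, hMX, hr⟩ := lims_of_ok (m := 2) (by norm_num) ok ha hb hX
  obtain ⟨e, he⟩ : ∃ e : ℕ → ℝ, e = fun i => (M i)⁻¹ := ⟨_, rfl⟩
  have he0 : Tendsto e l (𝓝 0) := by
    rw [he]
    exact tendsto_inv_atTop_zero.comp htop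
  obtain ⟨x, hx⟩ : ∃ x : ℕ → ℕ → ℝ, x = fun k i => X i k / M i ^ (cz.getD k 0) := ⟨_, rfl⟩
  have hpos : ∀ k, k < 10 → 0 < r k := fun k hk => (hr k _ (cs_cz k hk)).1
  have t : ∀ k, k < 10 → Tendsto (x k) l (𝓝 (r k)) := by
    intro k hk
    rw [hx]
    exact (hr k _ (cs_cz k hk)).2
  have hMe : ∀ i, M i * e i = 1 := by
    intro i
    rw [he]
    exact mul_inv_cancel₀ (hM i).ne'
  have hXx : ∀ k i, X i k = x k i * M i ^ (cz.getD k 0) := by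
    intro k i
    rw [hx]
    exact (div_mul_cancel₀ _ (zpow_pos (hM i) _).ne').symm
  have e1 : ∀ i, M i ^ (-1 : ℤ) = e i := by
    intro i
    rw [zpow_neg_one, he]
  have e2 : ∀ i, M i ^ (-2 : ℤ) = e i ^ 2 := by
    intro i
    rw [he, zpow_neg, inv_pow]
    rfl
  have X0 : ∀ i, X i 0 = x 0 i * M i ^ 2 := fun i => hXx 0 i
  have X1 : ∀ i, X i 1 = x 1 i * e i := fun i => by rw [hXx 1 i, ← e1]; rfl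
  have X2 : ∀ i, X i 2 = x 2 i * M i := fun i => by rw [hXx 2 i]; congr 1; exact zpow_one _
  have X3 : ∀ i, X i 3 = x 3 i * e i := fun i => by rw [hXx 3 i, ← e1]; rfl
  have X4 : ∀ i, X i 4 = x 4 i * e i := fun i => by rw [hXx 4 i, ← e1]; rfl
  have X5 : ∀ i, X i 5 = x 5 i * e i := fun i => by rw [hXx 5 i, ← e1]; rfl
  have X6 : ∀ i, X i 6 = x 6 i * e i ^ 2 := fun i => by rw [hXx 6 i, ← e2]; rfl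
  have X7 : ∀ i, X i 7 = x 7 i * M i := fun i => by rw [hXx 7 i]; congr 1; exact zpow_one _
  have X8 : ∀ i, X i 8 = x 8 i * e i ^ 2 := fun i => by rw [hXx 8 i, ← e2]; rfl
  have X9 : ∀ i, X i 9 = x 9 i * M i ^ 2 := fun i => hXx 9 i
  -- the values at the ends
  have hr0 : r 0 = 1 := by
    refine tendsto_nhds_unique (t 0 (by norm_num)) ?_
    have : x 0 = fun _ => (1 : ℝ) := by
      funext i
      have h1 := X0 i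
      rw [← hMX i] at h1
      have h2 : (M i ^ 2) ≠ 0 := (pow_pos (hM i) 2).ne'
      exact (mul_right_cancel₀ h2 (by rw [one_mul]; exact h1)).symm
    rw [this]
    exact tendsto_const_nhds
  have hr9 : r 9 ≤ 1 := by
    refine le_of_tendsto' (t 9 (by norm_num)) fun i => ?_
    have h1 := hX.le i 9
    rw [X9, ← hMX i] at h1
    have h2 := pow_pos (hM i) 2
    exact le_of_mul_le_mul_right (by rw [one_mul]; exact h1) h2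
  have q0 : r 0 * (b 1 * r 1 + b 3 * r 3 + b 4 * r 4) = a 0 * 0 + a 2 * r 2 := by
    refine tendsto_nhds_unique_of_eventuallyEq
      ((t 0 (by norm_num)).mul (((((t 1 (by norm_num)).const_mul (b 1))).add
        ((t 3 (by norm_num)).const_mul (b 3))).add ((t 4 (by norm_num)).const_mul (b 4))))
      ((he0.const_mul (a 0)).add ((t 2 (by norm_num)).const_mul (a 2))) ?_
    filter_upwards [hX.step 0] with i hi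
    unfold lin at hi
    rw [ha1, ha3, ha4, hb0, hb2, X0, X1, X2, X3, X4] at hi
    have h1 := hMe i
    linear_combination e i * hi + (a 2 * x 2 i - x 0 i * (b 1 * x 1 i + b 3 * x 3 i + b 4 * x 4 i) * (M i * e i + 1)) * h1
  have q1 : b 1 * r 1 * r 2 + b 3 * r 1 * r 4 * (0 * 0) + b 4 * r 1 * r 5 * (0 * 0) = a 0 + a 2 * r 3 * 0 := by
    refine tendsto_nhds_unique_of_eventuallyEq
      (((((t 1 (by norm_num)).const_mul (b 1)).mul (t 2 (by norm_num))).add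
        ((((t 1 (by norm_num)).const_mul (b 3)).mul (t 4 (by norm_num))).mul (he0.mul he0))).add
        ((((t 1 (by norm_num)).const_mul (b 4)).mul (t 5 (by norm_num))).mul (he0.mul he0)))
      (tendsto_const_nhds.add (((t 3 (by norm_num)).const_mul (a 2)).mul he0)) ?_
    filter_upwards [hX.step 1] with i hi
    unfold lin at hi
    rw [ha1, ha3, ha4, hb0, hb2, X1, X2, X3, X4, X5] at hi
    have h1 := hMe i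
    linear_combination hi - b 1 * x 1 i * x 2 i * h1
  have q2 : r 2 * (b 1 * r 3 + b 3 * r 5 + b 4 * r 6 * 0) = a 0 + a 2 * r 4 * 0 := by
    refine tendsto_nhds_unique_of_eventuallyEq
      ((t 2 (by norm_num)).mul (((((t 3 (by norm_num)).const_mul (b 1))).add
        ((t 5 (by norm_num)).const_mul (b 3))).add (((t 6 (by norm_num)).const_mul (b 4)).mul he0)))
      (tendsto_const_nhds.add (((t 4 (by norm_num)).const_mul (a 2)).mul he0)) ?_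
    filter_upwards [hX.step 2] with i hi
    unfold lin at hi
    rw [ha1, ha3, ha4, hb0, hb2, X2, X3, X4, X5, X6] at hi
    have h1 := hMe i
    linear_combination hi - x 2 i * (b 1 * x 3 i + b 3 * x 5 i + b 4 * x 6 i * e i) * h1
  have q3 : b 4 * r 3 * r 7 + (b 1 * r 3 * r 4 * (0 * 0) + b 3 * r 3 * r 6 * (0 * 0 * 0)) = a 0 + a 2 * r 5 * 0 := by
    refine tendsto_nhds_unique_of_eventuallyEq
      ((((t 3 (by norm_num)).const_mul (b 4)).mul (t 7 (by norm_num))).add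
        (((((t 3 (by norm_num)).const_mul (b 1)).mul (t 4 (by norm_num))).mul (he0.mul he0)).add
        ((((t 3 (by norm_num)).const_mul (b 3)).mul (t 6 (by norm_num))).mul ((he0.mul he0).mul he0))))
      (tendsto_const_nhds.add (((t 5 (by norm_num)).const_mul (a 2)).mul he0)) ?_
    filter_upwards [hX.step 3] with i hi
    unfold lin at hi
    rw [ha1, ha3, ha4, hb0, hb2, X3, X4, X5, X6, X7] at hi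
    have h1 := hMe i
    linear_combination hi - b 4 * x 3 i * x 7 i * h1
  have q4 : b 3 * r 4 * r 7 + (b 1 * r 4 * r 5 * (0 * 0) + b 4 * r 4 * r 8 * (0 * 0 * 0)) =
      a 0 + a 2 * r 6 * (0 * 0) := by
    refine tendsto_nhds_unique_of_eventuallyEq
      ((((t 4 (by norm_num)).const_mul (b 3)).mul (t 7 (by norm_num))).add
        (((((t 4 (by norm_num)).const_mul (b 1)).mul (t 5 (by norm_num))).mul (he0.mul he0)).add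
        ((((t 4 (by norm_num)).const_mul (b 4)).mul (t 8 (by norm_num))).mul ((he0.mul he0).mul he0))))
      (tendsto_const_nhds.add (((t 6 (by norm_num)).const_mul (a 2)).mul (he0.mul he0))) ?_
    filter_upwards [hX.step 4] with i hi
    unfold lin at hi
    rw [ha1, ha3, ha4, hb0, hb2, X4, X5, X6, X7, X8] at hi
    have h1 := hMe i
    linear_combination hi - b 3 * x 4 i * x 7 i * h1
  have q5 : b 4 * r 5 * r 9 + (b 1 * r 5 * r 6 * (0 * 0 * 0 * 0) + b 3 * r 5 * r 8 * (0 * 0 * 0 * 0)) =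
      a 0 * 0 + a 2 * r 7 := by
    refine tendsto_nhds_unique_of_eventuallyEq
      ((((t 5 (by norm_num)).const_mul (b 4)).mul (t 9 (by norm_num))).add
        (((((t 5 (by norm_num)).const_mul (b 1)).mul (t 6 (by norm_num))).mul (((he0.mul he0).mul he0).mul he0)).add
        ((((t 5 (by norm_num)).const_mul (b 3)).mul (t 8 (by norm_num))).mul (((he0.mul he0).mul he0).mul he0))))
      ((he0.const_mul (a 0)).add ((t 7 (by norm_num)).const_mul (a 2))) ?_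
    filter_upwards [hX.step 5] with i hi
    unfold lin at hi
    rw [ha1, ha3, ha4, hb0, hb2, X5, X6, X7, X8, X9] at hi
    have h1 := hMe i
    linear_combination e i * hi + (a 2 * x 7 i - b 4 * x 5 i * x 9 i * (M i * e i + 1)) * h1
  have p1 := hpos 1 (by norm_num)
  have p2 := hpos 2 (by norm_num)
  have p3 := hpos 3 (by norm_num)
  have p4 := hpos 4 (by norm_num)
  have p5 := hpos 5 (by norm_num)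
  have p7 := hpos 7 (by norm_num)
  simp only [mul_zero, add_zero, zero_add, hr0, one_mul] at q0 q1 q2 q3 q4 q5
  have s1 : a 2 * r 7 ≤ b 4 * r 5 := by
    rw [← q5]
    have : 0 ≤ b 4 * r 5 * (1 - r 9) := mul_nonneg (by positivity) (by linarith)
    linarith
  have s2 : b 3 * (a 2 * r 2 * r 7) < b 4 * a 0 := by
    have h1 : 0 < b 4 * (b 1 * r 2 * r 3) := by positivity
    have h2 : b 3 * r 2 * (a 2 * r 7) ≤ b 3 * r 2 * (b 4 * r 5) := mul_le_mul_of_nonneg_left s1 (by positivity)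
    rw [← q2]
    linarith
  have s3 : (b 3 ^ 2 + b 4 ^ 2) * a 0 < b 3 * b 4 * (a 2 * r 2 * r 7) := by
    have h1 : 0 < b 3 * b 4 * r 7 * (b 1 * r 1) := by positivity
    have h2 : b 3 * b 4 * (a 2 * r 2 * r 7) = b 3 * b 4 * r 7 * (b 1 * r 1) + b 3 ^ 2 * (b 4 * r 3 * r 7) +
        b 4 ^ 2 * (b 3 * r 4 * r 7) := by
      rw [← q0]
      ring
    rw [h2, q3, q4]
    linarith
  have s4 : b 4 * (b 3 * (a 2 * r 2 * r 7)) < b 4 * (b 4 * a 0) := mul_lt_mul_of_pos_left s2 hb4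
  have s5 : 0 < b 3 ^ 2 * a 0 := by positivity
  linarith

/-- **the case `(5, 26)`** -/
theorem esb : ESB (caseOf 4 5 26) :=
  esb_of_noBack (by norm_num) (by norm_num) (by norm_num) (by norm_num) fun _ _ ha hb => noBack ha hb

end Pool.Agent.H4.RD4.Sh526
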