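import Pool.Agent.H4.RD4.All
import Pool.Agent.H4.RD4.Mod5
import Pool.Agent.H4.RD4.Easy
import Pool.Agent.H4.RD4.Sh526
import Pool.Agent.H4.RD4.M3L
import Pool.Agent.H4.RD4.M3I

/-!
# The cases of `k = 4` in this folder, collected
-/

namespace Pool.Agent.H4.RD4

open Pool.Agent.H81.RDE (ESB caseOf)

/-- `(5,26)` and the twenty two cases of the mod three family -/
def m3L : List (ℕ × ℕ) := [(5, 26),
  (10, 17), (10, 18), (10, 19), (11, 17), (11, 18), (11, 19),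
  (24, 16), (24, 17), (24, 18), (24, 19), (25, 16), (25, 17), (25, 18), (25, 19),
  (26, 16), (26, 17), (26, 18), (26, 19), (27, 16), (27, 17), (27, 18), (27, 19)]

theorem esb_m3L (N D : ℕ) (h : (N, D) ∈ m3L) : ESB (caseOf 4 N D) := by
  simp only [m3L, List.mem_cons, List.not_mem_nil, or_false, Prod.mk.injEq] at h
  rcases h with ⟨rfl, rfl⟩ | ⟨rfl, rfl⟩ | ⟨rfl, rfl⟩ | ⟨rfl, rfl⟩ | ⟨rfl, rfl⟩ | ⟨rfl, rfl⟩ | ⟨rfl, rfl⟩ |
    ⟨rfl, rfl⟩ | ⟨rfl, rfl⟩ | ⟨rfl, rfl⟩ | ⟨rfl, rfl⟩ | ⟨rfl, rfl⟩ | ⟨rfl, rfl⟩ | ⟨rfl, rfl⟩ | ⟨rfl, rfl⟩ |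
    ⟨rfl, rfl⟩ | ⟨rfl, rfl⟩ | ⟨rfl, rfl⟩ | ⟨rfl, rfl⟩ | ⟨rfl, rfl⟩ | ⟨rfl, rfl⟩ | ⟨rfl, rfl⟩ | ⟨rfl, rfl⟩
  · exact Sh526.esb
  · exact e_10_17
  · exact e_10_18
  · exact e_10_19
  · exact e_11_17
  · exact e_11_18
  · exact e_11_19
  · exact M3L.e_24_16
  · exact M3L.e_24_17
  · exact e_24_18
  · exact e_24_19
  · exact M3L.e_25_16
  · exact M3L.e_25_17
  · exact e_25_18
  · exact e_25_19
  · exact e_26_16
  · exact e_26_17
  · exact e_26_18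
  · exact e_26_19
  · exact e_27_16
  · exact e_27_17
  · exact e_27_18
  · exact e_27_19

/-- all cases of this folder -/
def mineL : List (ℕ × ℕ) := m3L ++ (easy4 ++ (mod5 ++ cert4))

theorem esb_mine (N D : ℕ) (h : (N, D) ∈ mineL) : ESB (caseOf 4 N D) := by
  simp only [mineL, List.mem_append] at h
  rcases h with h | h | h | h
  · exact esb_m3L N D h
  · exact esb_easy N D h
  · exact esb_mod5 N D h
  · exact esb_cert N D h

end Pool.Agent.H4.RD4
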