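import Pool.Agent.H50.Rdb.Fam3

/-!
# The families of period five

Family A: denominator `(b₀), b₂, b₃`, numerator contains `a₁, a₄`, and one of `b₀, a₂, a₃` is present. Family B: denominator `(b₀), b₁, b₄`,
numerator contains `a₂, a₃`, and one of `b₀, a₁, a₄` is present (with a condition for the denominators).
Along a backward orbit the terms comparable with the record come in pairs (`t, t+1`, respectively `t, t+2`) with period five, and
`X_(t+5) / X_t → den · den' / (a₁ a₄) ≥ 1 + c`, which contradicts the record.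
-/

namespace Pool.Agent.H4.RD4

open Filter Topology
open Pool.Agent.H50.Rdb

variable {a b : ℕ → ℝ} {l : Ultrafilter ℕ} {X : ℕ → ℕ → ℝ} {r v : ℕ → ℝ}

/-- two consecutive terms are not both small -/
theorem low_A (h : Lims a b l X r v) (ha1 : 0 < a 1) (ha4 : 0 < a 4) (hb1 : b 1 = 0) (hb2 : 0 < b 2)
    (hb3 : 0 < b 3) (hb4 : b 4 = 0) (hb0 : b 0 = 0) (hor : 0 < a 2 ∨ 0 < a 3) :
    ∃ c : ℝ, 0 < c ∧ ∀ j, ∀ᶠ i in (l : Filter ℕ), c ≤ X i j + X i (j + 1) := by
  have na0 := h.na 0 (by norm_num)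
  have na2 := h.na 2 (by norm_num)
  have na3 := h.na 3 (by norm_num)
  obtain ⟨m, hm⟩ : ∃ m : ℝ, m = min (min (a 1) (a 4)) (a 2 + a 3) := ⟨_, rfl⟩
  have hm0 : 0 < m := by
    rw [hm]
    exact lt_min (lt_min ha1 ha4) (by rcases hor with h1 | h1 <;> linarith)
  have hm1 : m ≤ a 1 := by
    rw [hm]
    exact (min_le_left _ _).trans (min_le_left _ _)
  have hm4 : m ≤ a 4 := by
    rw [hm]
    exact (min_le_left _ _).trans (min_le_right _ _)
  have hm2 : m ≤ a 2 + a 3 := by
    rw [hm]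
    exact min_le_right _ _
  refine ⟨m / (b 2 + b 3), by positivity, fun j => ?_⟩
  filter_upwards [h.back.step j, h.back.step (j + 1)] with i h1 h2
  unfold lin at h1 h2
  rw [hb0, hb1, hb4] at h1 h2
  have e2 : j + 1 + 1 = j + 2 := rfl
  have e3 : j + 1 + 2 = j + 3 := rfl
  have e4 : j + 1 + 3 = j + 4 := rfl
  have e5 : j + 1 + 4 = j + 5 := rfl
  rw [e2, e3, e4, e5] at h2
  have p0 := h.back.pos i j
  have p1 := h.back.pos i (j + 1)
  have p2 := h.back.pos i (j + 2)
  have p3 := h.back.pos i (j + 3)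
  have p4 := h.back.pos i (j + 4)
  have p5 := h.back.pos i (j + 5)
  rw [div_le_iff₀ (by linarith)]
  obtain ⟨S, hS⟩ : ∃ S : ℝ, S = X i (j + 2) + X i (j + 3) + X i (j + 4) := ⟨_, rfl⟩
  have hS0 : 0 < S := by
    rw [hS]
    linarith
  have h3 : m * S ≤ X i j * (b 2 * X i (j + 2) + b 3 * X i (j + 3)) +
      X i (j + 1) * (b 2 * X i (j + 3) + b 3 * X i (j + 4)) := by
    have q1 : m * X i (j + 2) ≤ a 1 * X i (j + 2) := mul_le_mul_of_nonneg_right hm1 p2.le
    have q2 : m * X i (j + 3) ≤ (a 2 + a 3) * X i (j + 3) := mul_le_mul_of_nonneg_right hm2 p3.le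
    have q3 : m * X i (j + 4) ≤ a 4 * X i (j + 4) := mul_le_mul_of_nonneg_right hm4 p4.le
    have q4 := mul_pos ha1 p1
    have q5 := mul_pos ha4 p5
    have q6 := mul_nonneg na2 p2.le
    have q7 := mul_nonneg na3 p4.le
    rw [hS]
    nlinarith
  have h4 : X i j * (b 2 * X i (j + 2) + b 3 * X i (j + 3)) ≤ X i j * ((b 2 + b 3) * S) := by
    refine mul_le_mul_of_nonneg_left ?_ p0.le
    rw [hS]
    nlinarith
  have h5 : X i (j + 1) * (b 2 * X i (j + 3) + b 3 * X i (j + 4)) ≤ X i (j + 1) * ((b 2 + b 3) * S) := by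
    refine mul_le_mul_of_nonneg_left ?_ p1.le
    rw [hS]
    nlinarith
  have h6 : m * S ≤ ((X i j + X i (j + 1)) * (b 2 + b 3)) * S := by
    calc m * S ≤ _ := h3
      _ ≤ X i j * ((b 2 + b 3) * S) + X i (j + 1) * ((b 2 + b 3) * S) := add_le_add h4 h5
      _ = _ := by ring
  exact le_of_mul_le_mul_right h6 hS0

/-- the excess of the product in family A -/
theorem exc_A {a1 a2 a3 a4 b0 b2 b3 : ℝ} (ha1 : 0 < a1) (ha4 : 0 < a4) (ha2 : 0 ≤ a2) (ha3 : 0 ≤ a3) (hb0 : 0 ≤ b0)
    (hb2 : 0 < b2) (hb3 : 0 < b3) (hor : 0 < b0 ∨ 0 < a2 ∨ 0 < a3) : ∃ c : ℝ, 0 < c ∧ ∀ p q u w z : ℝ, 0 < p → 0 < q →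
      u * (b3 * p) = a3 * p + a4 * q → w * (b2 * p + b3 * q) = a2 * p + a3 * q → z * (b2 * q) = a1 * p + a2 * q →
      a1 * a4 + c ≤ (b0 + b2 * u + b3 * w) * (b0 + b2 * w + b3 * z) := by
  have key : ∀ p q u w z : ℝ, 0 < p → 0 < q →
      u * (b3 * p) = a3 * p + a4 * q → w * (b2 * p + b3 * q) = a2 * p + a3 * q → z * (b2 * q) = a1 * p + a2 * q →
      ∃ s t : ℝ, 0 < s ∧ 0 < t ∧ s * t = a1 * a4 ∧ s * p = b2 * a4 / b3 * q ∧ t * q = b3 * a1 / b2 * p ∧
        b2 * u = b2 * a3 / b3 + s ∧ b3 * z = t + b3 * a2 / b2 ∧ 0 ≤ w := by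
    intro p q u w z hp hq hu hw hz
    refine ⟨b2 * a4 * q / (b3 * p), b3 * a1 * p / (b2 * q), by positivity, by positivity, ?_, ?_, ?_, ?_, ?_, ?_⟩
    · field_simp
    · field_simp
    · field_simp
    · have hu' : u = (a3 * p + a4 * q) / (b3 * p) := by
        rw [eq_div_iff (by positivity)]
        exact hu
      rw [hu']
      field_simp
    · have hz' : z = (a1 * p + a2 * q) / (b2 * q) := by
        rw [eq_div_iff (by positivity)]
        exact hz
      rw [hz']
      field_simp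
    · have hw' : w = (a2 * p + a3 * q) / (b2 * p + b3 * q) := by
        rw [eq_div_iff (by positivity)]
        exact hw
      rw [hw']
      positivity
  rcases hor with h0 | h2 | h3
  · refine ⟨b0 ^ 2, by positivity, fun p q u w z hp hq hu hw hz => ?_⟩
    obtain ⟨s, t, hs, ht, hst, -, -, h1, h2, h3⟩ := key p q u w z hp hq hu hw hz
    have e1 : b0 + s ≤ b0 + b2 * u + b3 * w := by
      have q1 : 0 ≤ b2 * a3 / b3 := by positivity
      have q2 : 0 ≤ b3 * w := by positivity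
      linarith
    have e2 : b0 + t ≤ b0 + b2 * w + b3 * z := by
      have q1 : 0 ≤ b3 * a2 / b2 := by positivity
      have q2 : 0 ≤ b2 * w := by positivity
      linarith
    calc a1 * a4 + b0 ^ 2 ≤ (b0 + s) * (b0 + t) := by
          have q1 := mul_pos h0 hs
          have q2 := mul_pos h0 ht
          linarith [hst]
      _ ≤ _ := mul_le_mul e1 e2 (by positivity) (by linarith [mul_pos h0 h0])
  · refine ⟨min (a2 * a4) (b3 ^ 2 * a2 ^ 2 / (b2 * (b2 + b3))), lt_min (by positivity) (by positivity),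
      fun p q u w z hp hq hu hw hz => ?_⟩
    obtain ⟨s, t, hs, ht, hst, hsp, -, h1, h4, h3⟩ := key p q u w z hp hq hu hw hz
    have e1 : s + b3 * w ≤ b0 + b2 * u + b3 * w := by
      have q1 : 0 ≤ b2 * a3 / b3 := by positivity
      linarith
    have e2 : t + b3 * a2 / b2 ≤ b0 + b2 * w + b3 * z := by
      have q2 : 0 ≤ b2 * w := by positivity
      linarith
    have e3 : a1 * a4 + s * (b3 * a2 / b2) + b3 * w * (b3 * a2 / b2) ≤ (s + b3 * w) * (t + b3 * a2 / b2) := by
      have q1 : 0 ≤ b3 * w * t := by positivity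
      linarith [hst]
    have e4 : min (a2 * a4) (b3 ^ 2 * a2 ^ 2 / (b2 * (b2 + b3))) ≤ s * (b3 * a2 / b2) + b3 * w * (b3 * a2 / b2) := by
      rcases le_total p q with hpq | hpq
      · refine (min_le_left _ _).trans ?_
        have q1 : b2 * a4 / b3 ≤ s := by
          have q2 : (b2 * a4 / b3) * p ≤ s * p := by
            rw [hsp]
            exact mul_le_mul_of_nonneg_left hpq (by positivity)
          exact le_of_mul_le_mul_right q2 hp
        have q3 : a2 * a4 = b2 * a4 / b3 * (b3 * a2 / b2) := by field_simp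
        have q4 : 0 ≤ b3 * w * (b3 * a2 / b2) := by positivity
        have q5 : b2 * a4 / b3 * (b3 * a2 / b2) ≤ s * (b3 * a2 / b2) := mul_le_mul_of_nonneg_right q1 (by positivity)
        linarith
      · refine (min_le_right _ _).trans ?_
        have q1 : a2 / (b2 + b3) ≤ w := by
          rw [div_le_iff₀ (by positivity)]
          have q2 : a2 * p ≤ (w * (b2 + b3)) * p := by
            have q3 : w * (b2 * p + b3 * q) ≤ w * (b2 * p + b3 * p) :=
              mul_le_mul_of_nonneg_left (by nlinarith) h3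
            have q4 : 0 ≤ a3 * q := by positivity
            linarith
          exact le_of_mul_le_mul_right q2 hp
        have q3 : b3 ^ 2 * a2 ^ 2 / (b2 * (b2 + b3)) = b3 * (a2 / (b2 + b3)) * (b3 * a2 / b2) := by field_simp
        have q5 : b3 * (a2 / (b2 + b3)) * (b3 * a2 / b2) ≤ b3 * w * (b3 * a2 / b2) :=
          mul_le_mul_of_nonneg_right (mul_le_mul_of_nonneg_left q1 hb3.le) (by positivity)
        have q4 : 0 ≤ s * (b3 * a2 / b2) := by positivity
        linarith
    calc a1 * a4 + min (a2 * a4) (b3 ^ 2 * a2 ^ 2 / (b2 * (b2 + b3))) ≤ (s + b3 * w) * (t + b3 * a2 / b2) := by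
          linarith
      _ ≤ _ := mul_le_mul e1 e2 (by positivity) (by
          have q1 : 0 ≤ b3 * w := by positivity
          linarith)
  · refine ⟨min (a1 * a3) (b2 ^ 2 * a3 ^ 2 / (b3 * (b2 + b3))), lt_min (by positivity) (by positivity),
      fun p q u w z hp hq hu hw hz => ?_⟩
    obtain ⟨s, t, hs, ht, hst, -, htq, h1, h4, h5⟩ := key p q u w z hp hq hu hw hz
    have e1 : s + b2 * a3 / b3 ≤ b0 + b2 * u + b3 * w := by
      have q1 : 0 ≤ b3 * w := by positivity
      linarith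
    have e2 : t + b2 * w ≤ b0 + b2 * w + b3 * z := by
      have q2 : 0 ≤ b3 * a2 / b2 := by positivity
      linarith
    have e3 : a1 * a4 + t * (b2 * a3 / b3) + b2 * w * (b2 * a3 / b3) ≤ (s + b2 * a3 / b3) * (t + b2 * w) := by
      have q1 : 0 ≤ b2 * w * s := by positivity
      linarith [hst]
    have e4 : min (a1 * a3) (b2 ^ 2 * a3 ^ 2 / (b3 * (b2 + b3))) ≤ t * (b2 * a3 / b3) + b2 * w * (b2 * a3 / b3) := by
      rcases le_total q p with hpq | hpq
      · refine (min_le_left _ _).trans ?_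
        have q1 : b3 * a1 / b2 ≤ t := by
          have q2 : (b3 * a1 / b2) * q ≤ t * q := by
            rw [htq]
            exact mul_le_mul_of_nonneg_left hpq (by positivity)
          exact le_of_mul_le_mul_right q2 hq
        have q3 : a1 * a3 = b3 * a1 / b2 * (b2 * a3 / b3) := by field_simp
        have q4 : 0 ≤ b2 * w * (b2 * a3 / b3) := by positivity
        have q5 : b3 * a1 / b2 * (b2 * a3 / b3) ≤ t * (b2 * a3 / b3) := mul_le_mul_of_nonneg_right q1 (by positivity)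
        linarith
      · refine (min_le_right _ _).trans ?_
        have q1 : a3 / (b2 + b3) ≤ w := by
          rw [div_le_iff₀ (by positivity)]
          have q2 : a3 * q ≤ (w * (b2 + b3)) * q := by
            have q3 : w * (b2 * p + b3 * q) ≤ w * (b2 * q + b3 * q) :=
              mul_le_mul_of_nonneg_left (by nlinarith) h5
            have q4 : 0 ≤ a2 * p := by positivity
            linarith
          exact le_of_mul_le_mul_right q2 hq
        have q3 : b2 ^ 2 * a3 ^ 2 / (b3 * (b2 + b3)) = b2 * (a3 / (b2 + b3)) * (b2 * a3 / b3) := by field_simp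
        have q5 : b2 * (a3 / (b2 + b3)) * (b2 * a3 / b3) ≤ b2 * w * (b2 * a3 / b3) :=
          mul_le_mul_of_nonneg_right (mul_le_mul_of_nonneg_left q1 hb2.le) (by positivity)
        have q4 : 0 ≤ t * (b2 * a3 / b3) := by positivity
        linarith
    calc a1 * a4 + min (a1 * a3) (b2 ^ 2 * a3 ^ 2 / (b3 * (b2 + b3))) ≤ (s + b2 * a3 / b3) * (t + b2 * w) := by
          linarith
      _ ≤ _ := mul_le_mul e1 e2 (by positivity) (by
          have q1 : 0 ≤ b2 * a3 / b3 := by positivity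
          linarith)

/-- **Family A.** -/
theorem noBack_A (na : ∀ i < 5, 0 ≤ a i) (nb : ∀ i < 5, 0 ≤ b i) (ha1 : 0 < a 1) (ha4 : 0 < a 4)
    (hb1 : b 1 = 0) (hb2 : 0 < b 2) (hb3 : 0 < b 3) (hb4 : b 4 = 0) (hor : 0 < b 0 ∨ 0 < a 2 ∨ 0 < a 3) :
    NoBack a b := by
  intro l X hX
  obtain ⟨r, v, h⟩ := exists_lims hX na nb
  have na2 := na 2 (by norm_num)
  have na3 := na 3 (by norm_num)
  have nb0 := nb 0 (by norm_num)
  have hz2 : ∀ j, 0 < r j → Bd l X (j + 2) := fun j hj => h.bd_add (m := 2) (by norm_num) (by norm_num) hb2 hj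
  have hz3 : ∀ j, 0 < r j → Bd l X (j + 3) := fun j hj => h.bd_add (m := 3) (by norm_num) (by norm_num) hb3 hj
  have hy2 : ∀ j, 0 < r (j + 2) → Bd l X j := fun j hj => h.bd_of_add (m := 2) (by norm_num) (by norm_num) hb2 hj
  have hy3 : ∀ j, 0 < r (j + 3) → Bd l X j := fun j hj => h.bd_of_add (m := 3) (by norm_num) (by norm_num) hb3 hj
  have hr0 : ∀ j, ¬ 0 < r j → r j = 0 := fun j hj => le_antisymm (not_lt.1 hj) (h.r_nonneg j)
  have hE1 : ∀ j, 0 < r j → r j * (b 0 + b 2 * v (j + 2) + b 3 * v (j + 3)) = a 1 * r (j + 1) + a 4 * r (j + 4) := by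
    intro j hj
    have := h.eq1 j (Or.inl hb1) (Or.inr (hz2 j hj)) (Or.inr (hz3 j hj)) (Or.inl hb4)
    rw [hb1, hb4, h.r_eq_zero (hz2 j hj), h.r_eq_zero (hz3 j hj)] at this
    linarith
  have hE2 : ∀ j, Bd l X j → v j * (b 2 * r (j + 2) + b 3 * r (j + 3)) =
      a 1 * r (j + 1) + a 2 * r (j + 2) + a 3 * r (j + 3) + a 4 * r (j + 4) := by
    intro j hj
    have := h.eq2 hj
    rw [hb1, hb4] at this
    linarith
  -- positivity of the denominators
  have hden : ∀ j, Bd l X j → Bd l X (j + 1) → 0 < b 0 + b 2 * v j + b 3 * v (j + 1) := by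
    intro j hj hj1
    have v0 := h.v_nonneg hj
    have v1 := h.v_nonneg hj1
    have q2 := mul_nonneg hb2.le v0
    have q3 := mul_nonneg hb3.le v1
    rcases nb0.lt_or_eq with h0 | h0
    · linarith
    · obtain ⟨c, hc, hcl⟩ := low_A h ha1 ha4 hb1 hb2 hb3 hb4 h0.symm (by
        rcases hor with h1 | h1
        · exact absurd h0 h1.ne
        · exact h1)
      have h2 : c ≤ v j + v (j + 1) := ge_of_tendsto ((h.hv j hj).add (h.hv (j + 1) hj1)) (hcl j)
      rw [← h0]
      rcases v0.lt_or_eq with h3 | h3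
      · have := mul_pos hb2 h3
        linarith
      · have h4 : 0 < v (j + 1) := by linarith
        have := mul_pos hb3 h4
        linarith
  -- the first pair
  have hstart : ∃ t, 0 < r t ∧ 0 < r (t + 1) := by
    have hr0' : 0 < r 0 := by rw [h.r_zero]; norm_num
    by_cases h1 : 0 < r 1
    · exact ⟨0, hr0', h1⟩
    · have h2 := hE1 0 hr0'
      rw [zero_add, zero_add, zero_add, zero_add, hr0 1 h1] at h2
      have h3 := hden 2 (hz2 0 hr0') (hz3 0 hr0')
      have h4 : 0 < a 4 * r 4 := by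
        have := mul_pos hr0' h3
        have e : (2 : ℕ) + 1 = 3 := rfl
        rw [e] at this
        linarith
      have h5 : 0 < r 4 := pos_of_mul_pos_right h4 ha4.le
      refine ⟨4, h5, ?_⟩
      by_contra h6
      have h7 := hE2 3 (hz3 0 hr0')
      have e2 : (3 : ℕ) + 2 = 5 := rfl
      have e3 : (3 : ℕ) + 3 = 6 := rfl
      have e1 : (3 : ℕ) + 1 = 4 := rfl
      have e4 : (3 : ℕ) + 4 = 7 := rfl
      rw [e1, e2, e3, e4, hr0 5 h6, h.r_eq_zero (hz2 4 h5), h.r_eq_zero (hz3 4 h5)] at h7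
      have := mul_pos ha1 h5
      linarith
  obtain ⟨t, ht, ht1⟩ := hstart
  have hstep : ∀ j, 0 < r j → 0 < r (j + 1) → 0 < r (j + 5) ∧ 0 < r (j + 6) := by
    intro j h0 h1
    have z2 := hz2 j h0
    have z3 := hz3 j h0
    have z3' := hz2 (j + 1) h1
    have z4 := hz3 (j + 1) h1
    have e1 := hE1 (j + 1) h1
    rw [show j + 1 + 1 = j + 2 from rfl, h.r_eq_zero z2] at e1
    have d1 := hden (j + 3) z3 z4
    have h5 : 0 < a 4 * r (j + 1 + 4) := by
      have := mul_pos h1 d1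
      rw [show j + 3 + 1 = j + 1 + 3 from rfl, show j + 3 = j + 1 + 2 from rfl] at this
      linarith
    have h5' : 0 < r (j + 5) := pos_of_mul_pos_right h5 ha4.le
    refine ⟨h5', ?_⟩
    by_contra h6
    have h7 := hE2 (j + 4) z4
    rw [show j + 4 + 1 = j + 5 from rfl, show j + 4 + 2 = j + 6 from rfl, show j + 4 + 3 = j + 5 + 2 from rfl,
      show j + 4 + 4 = j + 5 + 3 from rfl, hr0 _ h6, h.r_eq_zero (hz2 _ h5'), h.r_eq_zero (hz3 _ h5')] at h7
    have := mul_pos ha1 h5'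
    linarith
  have hS : ∀ k, 0 < r (t + 5 * k) ∧ 0 < r (t + 5 * k + 1) := by
    intro k
    induction k with
    | zero => exact ⟨ht, ht1⟩
    | succ k ih => exact hstep _ ih.1 ih.2
  obtain ⟨c, hc, hcc⟩ := exc_A ha1 ha4 na2 na3 nb0 hb2 hb3 hor
  have ha14 : 0 < a 1 * a 4 := mul_pos ha1 ha4
  refine no_geom (ρ := fun k => r (t + 5 * k)) (q := (a 1 * a 4 + c) / (a 1 * a 4)) ?_ (hS 0).1 (fun k => h.r_le_one _)
    (fun k => ?_)
  · rw [one_lt_div ha14]
    linarith
  · show (a 1 * a 4 + c) / (a 1 * a 4) * r (t + 5 * k) ≤ r (t + 5 * (k + 1))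
    obtain ⟨j, hj⟩ : ∃ j, j = t + 5 * k := ⟨_, rfl⟩
    have e5 : t + 5 * (k + 1) = j + 5 := by rw [hj]; ring
    rw [e5, ← hj]
    obtain ⟨h0, h1⟩ := hS k
    obtain ⟨h5, h6⟩ := hS (k + 1)
    rw [e5] at h5 h6
    rw [← hj] at h0 h1
    have h6' : 0 < r (j + 6) := h6
    have z2 := hz2 j h0
    have z3 := hz3 j h0
    have z4 := hz3 (j + 1) h1
    have R1 : r j * (b 0 + b 2 * v (j + 2) + b 3 * v (j + 3)) = a 1 * r (j + 1) := by
      have h2 := hE1 j h0
      rw [h.r_eq_zero z4] at h2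
      linarith
    have R2 : r (j + 1) * (b 0 + b 2 * v (j + 3) + b 3 * v (j + 4)) = a 4 * r (j + 5) := by
      have h2 := hE1 (j + 1) h1
      rw [show j + 1 + 1 = j + 2 from rfl, h.r_eq_zero z2] at h2
      rw [show j + 3 = j + 1 + 2 from rfl, show j + 4 = j + 1 + 3 from rfl, show j + 5 = j + 1 + 4 from rfl]
      linarith
    have U : v (j + 2) * (b 3 * r (j + 5)) = a 3 * r (j + 5) + a 4 * r (j + 6) := by
      have h2 := hE2 (j + 2) z2
      rw [show j + 2 + 1 = j + 3 from rfl, show j + 2 + 2 = j + 4 from rfl, show j + 2 + 3 = j + 5 from rfl,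
        show j + 2 + 4 = j + 6 from rfl, h.r_eq_zero z3, h.r_eq_zero z4] at h2
      linarith
    have Wq : v (j + 3) * (b 2 * r (j + 5) + b 3 * r (j + 6)) = a 2 * r (j + 5) + a 3 * r (j + 6) := by
      have h2 := hE2 (j + 3) z3
      rw [show j + 3 + 1 = j + 4 from rfl, show j + 3 + 2 = j + 5 from rfl, show j + 3 + 3 = j + 6 from rfl,
        show j + 3 + 4 = j + 5 + 2 from rfl, h.r_eq_zero z4, h.r_eq_zero (hz2 _ h5)] at h2
      linarith
    have Zq : v (j + 4) * (b 2 * r (j + 6)) = a 1 * r (j + 5) + a 2 * r (j + 6) := by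
      have h2 := hE2 (j + 4) z4
      rw [show j + 4 + 1 = j + 5 from rfl, show j + 4 + 2 = j + 6 from rfl, show j + 4 + 3 = j + 5 + 2 from rfl,
        show j + 4 + 4 = j + 5 + 3 from rfl, h.r_eq_zero (hz2 _ h5), h.r_eq_zero (hz3 _ h5)] at h2
      linarith
    have hexc := hcc _ _ _ _ _ h5 h6' U Wq Zq
    have h7 : r j * ((b 0 + b 2 * v (j + 2) + b 3 * v (j + 3)) * (b 0 + b 2 * v (j + 3) + b 3 * v (j + 4))) =
        a 1 * a 4 * r (j + 5) := by
      calc _ = (r j * (b 0 + b 2 * v (j + 2) + b 3 * v (j + 3))) * (b 0 + b 2 * v (j + 3) + b 3 * v (j + 4)) := by ring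
        _ = a 1 * (r (j + 1) * (b 0 + b 2 * v (j + 3) + b 3 * v (j + 4))) := by rw [R1]; ring
        _ = _ := by rw [R2]; ring
    rw [div_mul_eq_mul_div, div_le_iff₀ ha14]
    have h8 := mul_le_mul_of_nonneg_left hexc h0.le
    linarith

end Pool.Agent.H4.RD4
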