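import Pool.Agent.H4.RD4.Chk
import Pool.Agent.H50.Rdb.Lim

/-!
# Shape certificates

A tree as in `Chk.lean`; its leaves prove that the record is bounded or that `|m w_k - c_k w_0| ≤ Q C` for all `k` with a target
`c_k`. The record inequality is only assumed up to the slack `C`.
-/

namespace Pool.Agent.H4.RD4

open Filter Topology Real
open Pool.Agent.H50.Rdb
open Pool.Agent.H81.RDE (bitsL ESB caseOf)

theorem pat_pos {N : ℕ} {c : ℕ → ℝ} (h : Pat N c) {i : ℕ} (hi : i < 5) (hb : N.testBit i = true) : 0 < c i := by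
  have h1 := h i hi
  rwa [if_pos hb] at h1

theorem pat_zero {N : ℕ} {c : ℕ → ℝ} (h : Pat N c) {i : ℕ} (hi : i < 5) (hb : N.testBit i = false) : c i = 0 := by
  have h1 := h i hi
  rwa [if_neg (by rw [hb]; exact Bool.false_ne_true)] at h1

/-- the value `v` is the form `f` of the window at `j`, up to the slack -/
def Near (C : ℝ) (w : ℕ → ℝ) (j : ℕ) (v : ℝ) (f : F) : Prop := |v - f.ev w j| ≤ f.s * C

/-- the terms `w k, w (k+1), ...` are given by the forms -/
def NearL (C : ℝ) (w : ℕ → ℝ) (j : ℕ) : ℕ → List F → Prop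
  | _, [] => True
  | k, f :: fs => Near C w j (w k) f ∧ NearL C w j (k + 1) fs

def negOk (H : List F) (Y : F) (c : ℕ × List (ℕ × ℕ)) : Bool :=
  let r := combF H c.2
  Nat.blt 0 c.1 && isZ (c.1 * Y.a + r.a) && isZ (c.1 * Y.b + r.b) && isZ (c.1 * Y.c + r.c) &&
    isZ (c.1 * Y.d + r.d)

def tgt (m c : ℤ) (W Z : F) : F := ⟨m * W.a - c * Z.a, m * W.b - c * Z.b, m * W.c - c * Z.c, m * W.d - c * Z.d, 0⟩

def negF (f : F) : F := ⟨-f.a, -f.b, -f.c, -f.d, 0⟩

def shOk (m : ℤ) (Z : F) (H : List F) :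
    List (Option ℤ) → List F → List ((ℕ × List (ℕ × ℕ)) × (ℕ × List (ℕ × ℕ))) → Bool
  | [], _, _ => true
  | none :: cs, _ :: Ws, ps => shOk m Z H cs Ws ps
  | some c :: cs, W :: Ws, p :: ps =>
    let Y := tgt m c W Z
    negOk H Y p.1 && negOk H (negF Y) p.2 && shOk m Z H cs Ws ps
  | _, _, _ => false

def getS (S : List (List ((ℕ × List (ℕ × ℕ)) × (ℕ × List (ℕ × ℕ))))) : ℕ →
    List ((ℕ × List (ℕ × ℕ)) × (ℕ × List (ℕ × ℕ))) := fun k => S.getD k []

def vF : F := ⟨0, 0, 0, 1, 0⟩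

/-- the record inequality for the oldest term of the window, with slack -/
def recF3 (Z : F) : F := ⟨Z.a, Z.b, Z.c, Z.d - 1, Z.s + 1⟩

/-- the hypotheses after a step of the kind `(s, t)` -/
def newH3 (N D : ℕ) (s t : ℕ) (Z : F) (H : List F) : List F :=
  recF3 (Z.tr s t) :: ((bitsL N).map fun s' => dif s s') ++ (((bitsL D).map fun t' => dif t t') ++
    H.map (F.tr s t))

def check3 (N D : ℕ) (prs : List (ℕ × ℕ)) (m : ℤ) (cs : List (Option ℤ))
    (S : List (List ((ℕ × List (ℕ × ℕ)) × (ℕ × List (ℕ × ℕ))))) : T → F → List F → List F → Mode → Bool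
  | .leaf n l, Z, H, Ws, .nd =>
    negOk H Z (n, l) || (Nat.beq n 0 && shOk m (getF Ws 0) H cs Ws (getS S (hd1 l)))
  | .keep l t, Z, H, Ws, .nd => check3 N D prs m cs S t Z (l.map (getF H)) Ws .nd
  | .node ts, Z, H, Ws, .nd => check3 N D prs m cs S ts Z H Ws (.ch prs)
  | .cons t rest, Z, H, Ws, .ch ((s, u) :: todo) =>
    check3 N D prs m cs S t (Z.tr s u) (newH3 N D s u Z H) (Ws.map (F.tr s u) ++ [vF]) .nd &&
      check3 N D prs m cs S rest Z H Ws (.ch todo)
  | .nil, _, _, _, .ch [] => true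
  | _, _, _, _, _ => false

/-- the conclusion -/
def ShC (m : ℤ) (cs : List (Option ℤ)) (w : ℕ → ℝ) (B : ℝ) : Prop :=
  w 0 ≤ B ∨ ∀ k c, cs.getD k none = some c → |(m : ℝ) * w k - (c : ℝ) * w 0| ≤ B

theorem ShC.mono {m : ℤ} {cs : List (Option ℤ)} {w : ℕ → ℝ} {B B' : ℝ} (h : ShC m cs w B) (hB : B ≤ B') :
    ShC m cs w B' := by
  rcases h with h | h
  · exact Or.inl (h.trans hB)
  · exact Or.inr fun k c hk => (h k c hk).trans hB

def Concl3 (N D : ℕ) (m : ℤ) (cs : List (Option ℤ)) (Z : F) (H Ws : List F) (md : Mode) : Prop :=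
  ∃ Q L : ℕ, ∀ (C : ℝ) (w : ℕ → ℝ) (j : ℕ), 0 ≤ C → (∀ i, w i ≤ w 0 + C) →
    (∀ i, j ≤ i → i < j + L → StepAt N D C w i) → w 0 ≤ Z.ev w j + Z.s * C →
    (∀ f ∈ H, f.Holds C w j) → Ws.length = j + 4 → NearL C w j 0 Ws →
    (match md with
      | .nd => True
      | .ch todo => ∃ p ∈ todo, p.1 ∈ bitsL N ∧ p.2 ∈ bitsL D ∧
          (∀ s' ∈ bitsL N, ent w j s' ≤ ent w j p.1) ∧
          (∀ t' ∈ bitsL D, ent w j t' ≤ ent w j p.2) ∧ |w j - (ent w j p.1 - ent w j p.2)| ≤ C) →
    ShC m cs w (Q * C)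

theorem negOk_ev {H : List F} {Y : F} {c : ℕ × List (ℕ × ℕ)} (h : negOk H Y c = true) {C : ℝ} {w : ℕ → ℝ}
    {j : ℕ} (hC : 0 ≤ C) (hH : ∀ f ∈ H, f.Holds C w j) : Y.ev w j ≤ ((combF H c.2).s : ℝ) * C := by
  simp only [negOk, Bool.and_eq_true] at h
  obtain ⟨⟨⟨⟨h0, ha⟩, hb⟩, hc⟩, hd⟩ := h
  have hn : 0 < c.1 := by
    rw [Nat.blt_eq] at h0
    exact h0
  have ha := isZ_iff ha
  have hb := isZ_iff hb
  have hc := isZ_iff hc
  have hd := isZ_iff hd
  have h1 := holds_combF hH c.2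
  unfold F.Holds at h1
  have hae : (c.1 : ℝ) * Y.a + (combF H c.2).a = 0 := by exact_mod_cast ha
  have hbe : (c.1 : ℝ) * Y.b + (combF H c.2).b = 0 := by exact_mod_cast hb
  have hce : (c.1 : ℝ) * Y.c + (combF H c.2).c = 0 := by exact_mod_cast hc
  have hde : (c.1 : ℝ) * Y.d + (combF H c.2).d = 0 := by exact_mod_cast hd
  have h2 : (c.1 : ℝ) * Y.ev w j + (combF H c.2).ev w j = 0 := by
    simp only [F.ev]
    linear_combination w j * hae + w (j + 1) * hbe + w (j + 2) * hce + w (j + 3) * hde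
  have hn1 : (1 : ℝ) ≤ c.1 := by exact_mod_cast hn
  have h3 : 0 ≤ ((combF H c.2).s : ℝ) * C := mul_nonneg (Nat.cast_nonneg _) hC
  by_contra hlt
  push Not at hlt
  have : Y.ev w j ≤ c.1 * Y.ev w j := by nlinarith
  linarith

theorem ev_tgt (m c : ℤ) (W Z : F) (w : ℕ → ℝ) (j : ℕ) :
    (tgt m c W Z).ev w j = m * W.ev w j - c * Z.ev w j := by
  simp only [tgt, F.ev]
  push_cast
  ring

theorem ev_negF (f : F) (w : ℕ → ℝ) (j : ℕ) : (negF f).ev w j = - f.ev w j := by
  simp only [negF, F.ev]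
  push_cast
  ring

theorem shOk_sound {m : ℤ} {Z : F} {H : List F} : ∀ (cs : List (Option ℤ)) (Ws : List F)
    (ps : List ((ℕ × List (ℕ × ℕ)) × (ℕ × List (ℕ × ℕ)))), shOk m Z H cs Ws ps = true →
    ∃ Q : ℕ, ∀ (C : ℝ) (w : ℕ → ℝ) (j i : ℕ), 0 ≤ C → (∀ f ∈ H, f.Holds C w j) → Near C w j (w 0) Z →
      NearL C w j i Ws → ∀ k c, cs.getD k none = some c → |(m : ℝ) * w (i + k) - (c : ℝ) * w 0| ≤ Q * C
  | [], _, _, _ => ⟨0, fun C w j i _ _ _ _ k c hk => by simp at hk⟩
  | c :: cs, [], _, h => by cases c <;> simp [shOk] at h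
  | some c :: cs, W :: Ws, [], h => by simp [shOk] at h
  | none :: cs, W :: Ws, ps, h => by
    simp only [shOk] at h
    obtain ⟨Q, hQ⟩ := shOk_sound cs Ws ps h
    refine ⟨Q, fun C w j i hC hH hZ hW k c hk => ?_⟩
    cases k with
    | zero => simp at hk
    | succ k =>
      have h4 := hQ C w j (i + 1) hC hH hZ hW.2 k c (by simpa using hk)
      have e : i + 1 + k = i + (k + 1) := by omega
      rwa [e] at h4
  | some c :: cs, W :: Ws, p :: ps, h => by
    simp only [shOk, Bool.and_eq_true] at h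
    obtain ⟨⟨h1, h2⟩, h3⟩ := h
    obtain ⟨Q, hQ⟩ := shOk_sound cs Ws ps h3
    refine ⟨Q + ((combF H p.1.2).s + (combF H p.2.2).s + m.natAbs * W.s + c.natAbs * Z.s),
      fun C w j i hC hH hZ hW k c' hk => ?_⟩
    have hQ0 : 0 ≤ (Q : ℝ) * C := mul_nonneg (Nat.cast_nonneg _) hC
    have ha0 : 0 ≤ ((combF H p.1.2).s : ℝ) * C := mul_nonneg (Nat.cast_nonneg _) hC
    have hb0 : 0 ≤ ((combF H p.2.2).s : ℝ) * C := mul_nonneg (Nat.cast_nonneg _) hC
    have hc0 : 0 ≤ (m.natAbs : ℝ) * (W.s : ℝ) * C := by positivity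
    have hd0 : 0 ≤ (c.natAbs : ℝ) * (Z.s : ℝ) * C := by positivity
    cases k with
    | zero =>
      have hcc : c = c' := by simpa using hk
      rw [← hcc]
      have e1 := negOk_ev h1 hC hH
      have e2 := negOk_ev h2 hC hH
      rw [ev_negF] at e2
      rw [ev_tgt] at e1 e2
      have hW1 := hW.1
      unfold Near at hZ hW1
      have hm : |(m : ℝ) * (w i - W.ev w j)| ≤ (m.natAbs : ℝ) * (W.s : ℝ) * C := by
        rw [abs_mul, Nat.cast_natAbs, Int.cast_abs, mul_assoc]
        exact mul_le_mul_of_nonneg_left hW1 (abs_nonneg _)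
      have hc : |(c : ℝ) * (w 0 - Z.ev w j)| ≤ (c.natAbs : ℝ) * (Z.s : ℝ) * C := by
        rw [abs_mul, Nat.cast_natAbs, Int.cast_abs, mul_assoc]
        exact mul_le_mul_of_nonneg_left hZ (abs_nonneg _)
      rw [abs_le] at hm hc ⊢
      obtain ⟨hm1, hm2⟩ := hm
      obtain ⟨hc1, hc2⟩ := hc
      simp only [add_zero]
      push_cast
      constructor <;> nlinarith
    | succ k =>
      have h4 := hQ C w j (i + 1) hC hH hZ hW.2 k c' (by simpa using hk)
      have e : i + 1 + k = i + (k + 1) := by omega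
      rw [e] at h4
      refine h4.trans ?_
      push_cast
      nlinarith

theorem near_tr {s t : ℕ} {f : F} {w : ℕ → ℝ} {j : ℕ} {C v : ℝ} (hs : s < 5) (ht : t < 5)
    (h : |w j - (ent w j s - ent w j t)| ≤ C) (hf : Near C w j v f) : Near C w (j + 1) v (f.tr s t) := by
  have e : (f.tr s t).ev w (j + 1) = f.ev w j - f.a * (w j - (ent w j s - ent w j t)) := by
    rw [← ind_cast s t w j hs ht]
    simp only [F.ev, F.tr]
    have e1 : j + 1 + 1 = j + 2 := rfl
    have e2 : j + 1 + 2 = j + 3 := rfl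
    rw [e1, e2]
    push_cast
    ring
  have e2 : ((f.tr s t).s : ℝ) = f.s + f.a.natAbs := by simp [F.tr]
  unfold Near at hf ⊢
  rw [e, e2]
  have h1 : |(f.a : ℝ) * (w j - (ent w j s - ent w j t))| ≤ f.a.natAbs * C := by
    rw [abs_mul, Nat.cast_natAbs, Int.cast_abs]
    exact mul_le_mul_of_nonneg_left h (abs_nonneg _)
  calc |v - (f.ev w j - f.a * (w j - (ent w j s - ent w j t)))|
      = |(v - f.ev w j) + f.a * (w j - (ent w j s - ent w j t))| := by ring_nf
    _ ≤ |v - f.ev w j| + |(f.a : ℝ) * (w j - (ent w j s - ent w j t))| := abs_add_le _ _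
    _ ≤ f.s * C + f.a.natAbs * C := add_le_add hf h1
    _ = _ := by ring

theorem nearL_tr {s t : ℕ} {w : ℕ → ℝ} {j : ℕ} {C : ℝ} (hs : s < 5) (ht : t < 5) (hC : 0 ≤ C)
    (h : |w j - (ent w j s - ent w j t)| ≤ C) : ∀ (Ws : List F) (k : ℕ), k + Ws.length = j + 4 →
      NearL C w j k Ws → NearL C w (j + 1) k (Ws.map (F.tr s t) ++ [vF])
  | [], k, hk, _ => by
    have hk' : k = j + 1 + 3 := by simpa using hk
    refine ⟨?_, trivial⟩
    unfold Near
    rw [hk']
    simp [vF, F.ev]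
  | f :: Ws, k, hk, hW => by
    refine ⟨near_tr hs ht h hW.1, nearL_tr hs ht hC h Ws (k + 1) ?_ hW.2⟩
    simp only [List.length_cons] at hk
    omega

theorem nearL_head {C : ℝ} {w : ℕ → ℝ} {j : ℕ} {Ws : List F} (h : NearL C w j 0 Ws) (hl : Ws.length = j + 4) :
    Near C w j (w 0) (getF Ws 0) := by
  cases Ws with
  | nil => simp at hl
  | cons f Ws => exact h.1

theorem check3_sound (N D : ℕ) (m : ℤ) (cs : List (Option ℤ))
    (S : List (List ((ℕ × List (ℕ × ℕ)) × (ℕ × List (ℕ × ℕ))))) :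
    ∀ (t : T) (Z : F) (H Ws : List F) (md : Mode), check3 N D (pairs N D) m cs S t Z H Ws md = true →
      Concl3 N D m cs Z H Ws md := by
  intro t
  induction t with
  | leaf n l =>
    intro Z H Ws md h
    cases md with
    | nd =>
      simp only [check3, Bool.or_eq_true] at h
      rcases h with h | h
      · refine ⟨(combF H l).s + Z.s, 0, fun C w j hC _ _ hZ hH _ _ _ => Or.inl ?_⟩
        have h1 := negOk_ev h hC hH
        simp only at h1
        push_cast
        linarith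
      · rw [Bool.and_eq_true] at h
        obtain ⟨Q, hQ⟩ := shOk_sound cs Ws _ h.2
        refine ⟨Q, 0, fun C w j hC _ _ _ hH hl hW _ => Or.inr fun k c hk => ?_⟩
        have h2 := hQ C w j 0 hC hH (nearL_head hW hl) hW k c hk
        rwa [zero_add] at h2
    | ch todo => simp [check3] at h
  | keep l t ih =>
    intro Z H Ws md h
    cases md with
    | ch todo => simp [check3] at h
    | nd =>
      simp only [check3] at h
      obtain ⟨Q, L, hQ⟩ := ih Z _ Ws .nd h
      refine ⟨Q, L, fun C w j hC hr hst hZ hH hl hW hm => hQ C w j hC hr hst hZ ?_ hl hW hm⟩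
      intro f hf
      obtain ⟨i, -, rfl⟩ := List.mem_map.1 hf
      exact holds_getF H hH i
  | node ts ih =>
    intro Z H Ws md h
    cases md with
    | ch todo => simp [check3] at h
    | nd =>
      simp only [check3] at h
      obtain ⟨Q, L, hQ⟩ := ih Z H Ws _ h
      refine ⟨Q, L + 1, fun C w j hC hr hst hZ hH hl hW _ => hQ C w j hC hr
        (fun i h1 h2 => hst i h1 (by omega)) hZ hH hl hW ?_⟩
      obtain ⟨s, hs, t, ht, h1, h2, h3⟩ := hst j le_rfl (by omega)
      refine ⟨(s, t), ?_, hs, ht, h1, h2, h3⟩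
      unfold pairs
      rw [List.mem_flatMap]
      exact ⟨s, hs, List.mem_map.2 ⟨t, ht, rfl⟩⟩
  | cons t rest iht ihr =>
    intro Z H Ws md h
    cases md with
    | nd => simp [check3] at h
    | ch todo =>
      cases todo with
      | nil => simp [check3] at h
      | cons p todo =>
        obtain ⟨s, u⟩ := p
        simp only [check3, Bool.and_eq_true] at h
        obtain ⟨Q1, L1, h1⟩ := iht _ _ _ _ h.1
        obtain ⟨Q2, L2, h2⟩ := ihr _ _ _ _ h.2
        refine ⟨Q1 + Q2, L1 + L2 + 1, fun C w j hC hr hst hZ hH hl hW hm => ?_⟩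
        obtain ⟨p, hp, hp1, hp2, hp3, hp4, hp5⟩ := hm
        rcases List.mem_cons.1 hp with rfl | hp
        · have hs5 := (mem_bitsL.1 hp1).1
          have hu5 := (mem_bitsL.1 hp2).1
          have hZ' : w 0 ≤ (Z.tr s u).ev w (j + 1) + (Z.tr s u).s * C := by
            have := ev_tr Z hs5 hu5 hp5
            have e : ((Z.tr s u).s : ℝ) = Z.s + Z.a.natAbs := by simp [F.tr]
            rw [e]
            linarith
          have := h1 C w (j + 1) hC hr (fun i h1 h2 => hst i (by omega) (by omega)) hZ' (by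
            intro f hf
            unfold newH3 at hf
            simp only [List.mem_append, List.mem_cons, List.mem_map] at hf
            rcases hf with (rfl | ⟨s', hs', rfl⟩) | ⟨t', ht', rfl⟩ | ⟨g, hg, rfl⟩
            · have h4 := hr (j + 1 + 3)
              unfold F.Holds
              have e : (recF3 (Z.tr s u)).ev w (j + 1) = (Z.tr s u).ev w (j + 1) - w (j + 1 + 3) := by
                simp only [recF3, F.ev]
                push_cast
                ring
              have e2 : (recF3 (Z.tr s u)).s = (Z.tr s u).s + 1 := rfl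
              rw [e, e2]
              push_cast
              linarith
            · unfold F.Holds
              rw [ev_dif s s' w j hs5 (mem_bitsL.1 hs').1]
              have := hp3 s' hs'
              have e2 : (dif s s').s = 0 := rfl
              rw [e2]
              push_cast
              linarith
            · unfold F.Holds
              rw [ev_dif u t' w j hu5 (mem_bitsL.1 ht').1]
              have := hp4 t' ht'
              have e2 : (dif u t').s = 0 := rfl
              rw [e2]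
              push_cast
              linarith
            · exact holds_tr hs5 hu5 hp5 (hH g hg)) (by
              simp only [List.length_append, List.length_map, List.length_cons, List.length_nil]
              omega) (nearL_tr hs5 hu5 hC hp5 Ws 0 (by omega) hW) trivial
          have h0 : 0 ≤ (Q2 : ℝ) * C := mul_nonneg (Nat.cast_nonneg _) hC
          refine this.mono ?_
          push_cast
          linarith
        · have := h2 C w j hC hr (fun i h1 h2 => hst i h1 (by omega)) hZ hH hl hW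
            ⟨p, hp, hp1, hp2, hp3, hp4, hp5⟩
          have h0 : 0 ≤ (Q1 : ℝ) * C := mul_nonneg (Nat.cast_nonneg _) hC
          refine this.mono ?_
          push_cast
          linarith
  | nil =>
    intro Z H Ws md h
    cases md with
    | nd => simp [check3] at h
    | ch todo =>
      cases todo with
      | nil =>
        refine ⟨0, 0, fun C w j hC hr hst hZ hH hl hW hm => ?_⟩
        obtain ⟨p, hp, -⟩ := hm
        simp at hp
      | cons p todo => simp [check3] at h

def W0 : List F := [⟨1, 0, 0, 0, 0⟩, ⟨0, 1, 0, 0, 0⟩, ⟨0, 0, 1, 0, 0⟩, ⟨0, 0, 0, 1, 0⟩]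

def H03 : List F := [⟨1, -1, 0, 0, 1⟩, ⟨1, 0, -1, 0, 1⟩, ⟨1, 0, 0, -1, 1⟩]

/-- the whole check -/
def ok3 (N D : ℕ) (m : ℤ) (cs : List (Option ℤ))
    (S : List (List ((ℕ × List (ℕ × ℕ)) × (ℕ × List (ℕ × ℕ))))) (t : T) : Bool :=
  Nat.blt N 32 && Nat.blt D 32 && Nat.blt 0 N && Nat.blt 0 D && check3 N D (pairs N D) m cs S t Z0 H03 W0 .nd

theorem stepAt_shift {N D : ℕ} {C C' : ℝ} {w : ℕ → ℝ} {j i : ℕ} (hC : C ≤ C') (h : StepAt N D C w (j + i)) :
    StepAt N D C' (fun n => w (j + n)) i := by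
  have e : ∀ s, ent (fun n => w (j + n)) i s = ent w (j + i) s := by
    intro s
    simp only [ent, add_assoc]
  obtain ⟨s, hs, t, ht, h1, h2, h3⟩ := h
  refine ⟨s, hs, t, ht, fun s' hs' => ?_, fun t' ht' => ?_, ?_⟩
  · rw [e, e]
    exact h1 s' hs'
  · rw [e, e]
    exact h2 t' ht'
  · rw [e, e]
    exact h3.trans hC

/-- the shape of a backward orbit after a term comparable with the record -/
theorem shape_at {N D : ℕ} {m : ℤ} {cs : List (Option ℤ)}
    {S : List (List ((ℕ × List (ℕ × ℕ)) × (ℕ × List (ℕ × ℕ))))} {t : T} (h : ok3 N D m cs S t = true)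
    {a b : ℕ → ℝ} (ha : Pat N a) (hb : Pat D b) {l : Ultrafilter ℕ} {X : ℕ → ℕ → ℝ} (hX : Back a b l X)
    {n : ℕ} {B : ℝ} (hn : ∀ᶠ i in (l : Filter ℕ), |log (X i n) - log (X i 0)| ≤ B) :
    ∃ B' : ℝ, ∀ k c, cs.getD k none = some c → ∀ᶠ i in (l : Filter ℕ),
      |(m : ℝ) * log (X i (n + k)) - (c : ℝ) * log (X i n)| ≤ B' := by
  simp only [ok3, Bool.and_eq_true, Nat.blt_eq] at h
  obtain ⟨⟨⟨⟨hN, hD⟩, hN1⟩, hD1⟩, hc⟩ := h
  obtain ⟨C1, hC1, hstep⟩ := exists_stepAt hN hN1.ne' hD hD1.ne' ha hb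
  obtain ⟨Q, L, hQ⟩ := check3_sound N D m cs S t _ _ _ _ hc
  obtain ⟨C, hCd⟩ : ∃ C : ℝ, C = max C1 B := ⟨_, rfl⟩
  have hC : 0 ≤ C := by rw [hCd]; exact hC1.trans (le_max_left _ _)
  have hCC : C1 ≤ C := by rw [hCd]; exact le_max_left _ _
  have hCB : B ≤ C := by rw [hCd]; exact le_max_right _ _
  refine ⟨Q * C, fun k c hk => ?_⟩
  have e1 : ∀ᶠ i in (l : Filter ℕ), ∀ j ∈ Finset.range (n + L),
      X i j * lin b (X i (j + 1)) (X i (j + 2)) (X i (j + 3)) (X i (j + 4)) =
        lin a (X i (j + 1)) (X i (j + 2)) (X i (j + 3)) (X i (j + 4)) :=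
    (Finset.eventually_all _).2 fun j _ => hX.step j
  have e2 : ∀ᶠ i in (l : Filter ℕ), exp (Q * C + B) < X i 0 := hX.top.eventually_gt_atTop _
  filter_upwards [e1, e2, hn] with i h1 h2 hn
  have hle : ∀ k, log (X i k) ≤ log (X i 0) := fun n => log_le_log (hX.pos i n) (hX.le i n)
  obtain ⟨hn1, hn2⟩ := abs_le.1 hn
  have h3 := hQ C (fun k => log (X i (n + k))) 0 hC (fun k => by
      have := hle (n + k)
      simp only [add_zero]
      linarith)
    (fun j _ hj => stepAt_shift (w := fun k => log (X i k)) hCC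
      (hstep (X i) (n + j) (hX.pos i) (h1 (n + j) (Finset.mem_range.2 (by omega)))))
    (by simp [Z0, F.ev]) (by
      intro f hf
      unfold H03 at hf
      simp only [List.mem_cons, List.not_mem_nil, or_false] at hf
      rcases hf with rfl | rfl | rfl
      · have := hle (n + 1); simp [F.Holds, F.ev]; linarith
      · have := hle (n + 2); simp [F.Holds, F.ev]; linarith
      · have := hle (n + 3); simp [F.Holds, F.ev]; linarith) rfl (by
      simp only [W0, NearL, Near, F.ev]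
      simp) trivial
  rcases h3 with h3 | h3
  · have h4 : (Q : ℝ) * C + B < log (X i 0) := by
      rw [lt_log_iff_exp_lt (hX.pos i 0)]
      exact h2
    simp only [add_zero] at h3
    exfalso
    linarith
  · exact h3 k c hk

/-- the shape of a backward orbit -/
theorem shape_of_ok {N D : ℕ} {m : ℤ} {cs : List (Option ℤ)}
    {S : List (List ((ℕ × List (ℕ × ℕ)) × (ℕ × List (ℕ × ℕ))))} {t : T} (h : ok3 N D m cs S t = true)
    {a b : ℕ → ℝ} (ha : Pat N a) (hb : Pat D b) {l : Ultrafilter ℕ} {X : ℕ → ℕ → ℝ} (hX : Back a b l X) :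
    ∃ B : ℝ, ∀ k c, cs.getD k none = some c → ∀ᶠ i in (l : Filter ℕ),
      |(m : ℝ) * log (X i k) - (c : ℝ) * log (X i 0)| ≤ B := by
  obtain ⟨B, hB⟩ := shape_at (n := 0) (B := 0) h ha hb hX (Eventually.of_forall fun i => by simp)
  refine ⟨B, fun k c hk => ?_⟩
  have := hB k c hk
  rwa [zero_add] at this

/-- the limits of the terms, divided by powers of a quantity `M` -/
theorem lims_of_ok {N D : ℕ} {m : ℕ} (hm : 0 < m) {cs : List (Option ℤ)}
    {S : List (List ((ℕ × List (ℕ × ℕ)) × (ℕ × List (ℕ × ℕ))))} {t : T} (h : ok3 N D m cs S t = true)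
    {a b : ℕ → ℝ} (ha : Pat N a) (hb : Pat D b) {l : Ultrafilter ℕ} {X : ℕ → ℕ → ℝ} (hX : Back a b l X) :
    ∃ (M : ℕ → ℝ) (r : ℕ → ℝ), (∀ i, 0 < M i) ∧ Tendsto M l atTop ∧ (∀ i, M i ^ m = X i 0) ∧
      ∀ k c, cs.getD k none = some c → 0 < r k ∧ Tendsto (fun i => X i k / M i ^ c) l (𝓝 (r k)) := by
  obtain ⟨B, hB⟩ := shape_of_ok h ha hb hX
  have hm1 : (0 : ℝ) < m := by exact_mod_cast hm
  obtain ⟨M, hMd⟩ : ∃ M : ℕ → ℝ, M = fun i => X i 0 ^ ((m : ℝ)⁻¹) := ⟨_, rfl⟩
  have hpos : ∀ i, 0 < M i := by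
    intro i
    rw [hMd]
    exact rpow_pos_of_pos (hX.pos i 0) _
  have hM : ∀ i, M i ^ m = X i 0 := by
    intro i
    rw [hMd]
    simp only
    rw [← rpow_natCast, ← rpow_mul (hX.pos i 0).le, inv_mul_cancel₀ hm1.ne', rpow_one]
  have hlM : ∀ i, (m : ℝ) * log (M i) = log (X i 0) := by
    intro i
    rw [← hM i, log_pow]
  have key : ∀ k, ∃ r : ℝ, ∀ c, cs.getD k none = some c → 0 < r ∧
      Tendsto (fun i => X i k / M i ^ c) l (𝓝 r) := by
    intro k
    cases hk : cs.getD k none with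
    | none => exact ⟨0, fun c h => by simp at h⟩
    | some c =>
      have hb2 : ∀ᶠ i in (l : Filter ℕ), exp (-(B / m)) ≤ X i k / M i ^ c ∧
          X i k / M i ^ c ≤ exp (B / m) := by
        filter_upwards [hB k c hk] with i hi
        have hp : 0 < X i k / M i ^ c := div_pos (hX.pos i k) (zpow_pos (hpos i) _)
        have hlog : (m : ℝ) * log (X i k / M i ^ c) = (m : ℝ) * log (X i k) - (c : ℝ) * log (X i 0) := by
          rw [log_div (hX.pos i k).ne' (zpow_pos (hpos i) _).ne', log_zpow, ← hlM i]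
          ring
        obtain ⟨h1, h2⟩ := abs_le.1 hi
        rw [Int.cast_natCast, ← hlog] at h1 h2
        constructor
        · rw [← le_log_iff_exp_le hp, ← neg_div, div_le_iff₀ hm1]
          linarith
        · rw [← log_le_iff_le_exp hp, le_div_iff₀ hm1]
          linarith
      obtain ⟨r, hr⟩ := exists_lim hb2
      refine ⟨r, fun c' hc' => ?_⟩
      have : c = c' := by simpa using hc'
      rw [← this]
      exact ⟨(exp_pos _).trans_le (ge_of_tendsto hr (hb2.mono fun i hi => hi.1)), hr⟩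
  choose r hr using key
  refine ⟨M, r, hpos, ?_, hM, hr⟩
  rw [hMd]
  exact (tendsto_rpow_atTop (inv_pos.2 hm1)).comp hX.top

end Pool.Agent.H4.RD4
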